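import Pool.Agent.DA.WStat

/-!
# The pipeline: wall -> rectangle -> square -> gadgets next to missing vertices
-/

open Set BIC BICS
open scoped Matroid

namespace DA

open Gad

universe u

/-! ### The map of the rows -/

section rows

variable {g : ℕ → ℕ} {T : Finset ℕ} {M : ℕ}

lemma mrg_up (h3 : ∀ t ∈ T, ∀ y, t ≤ y + M → y ≤ t + M → g (y + 1) = g y + 1) {t : ℕ}
    (ht : t ∈ T) : ∀ n ≤ M + 1, g (t + n) = g t + n := by
  intro n
  induction n with
  | zero => intro _; simp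
  | succ n ih =>
    intro hn
    have h4 := ih (by omega)
    have h5 := h3 t ht (t + n) (by omega) (by omega)
    rw [← add_assoc, h5, h4]
    omega

lemma mrg_down (h3 : ∀ t ∈ T, ∀ y, t ≤ y + M → y ≤ t + M → g (y + 1) = g y + 1) {t : ℕ}
    (ht : t ∈ T) : ∀ n ≤ M, n ≤ t → g (t - n) + n = g t := by
  intro n
  induction n with
  | zero => intro _ _; simp
  | succ n ih =>
    intro hn hnt
    have h4 := ih (by omega) (by omega)
    have h5 := h3 t ht (t - (n + 1)) (by omega) (by omega)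
    have h6 : t - (n + 1) + 1 = t - n := by omega
    rw [h6] at h5
    omega

/-- `g` is an isometry near the rows of `T`. -/
lemma mrg_iso (hm : Monotone g) (h3 : ∀ t ∈ T, ∀ y, t ≤ y + M → y ≤ t + M → g (y + 1) = g y + 1)
    {t : ℕ} (ht : t ∈ T) (y : ℕ) :
    (g y + t = g t + y ∧ y ≤ t + M ∧ t ≤ y + M) ∨ (g t + M + 1 ≤ g y ∧ t + M < y) ∨
      (g y + M ≤ g t ∧ y + M < t) := by
  by_cases h1 : y ≤ t + M
  · by_cases h2 : t ≤ y + M
    · left
      refine ⟨?_, h1, h2⟩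
      rcases le_total t y with h | h
      · have := mrg_up h3 ht (y - t) (by omega)
        rw [show t + (y - t) = y by omega] at this
        omega
      · have := mrg_down h3 ht (t - y) (by omega) (by omega)
        rw [show t - (t - y) = y by omega] at this
        omega
    · right; right
      have h4 := mrg_down h3 ht M le_rfl (by omega)
      have h5 := hm (show y ≤ t - M by omega)
      omega
  · right; left
    have h4 := mrg_up h3 ht (M + 1) le_rfl
    have h5 := hm (show t + (M + 1) ≤ y by omega)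
    omega

lemma mrg_le (hs : ∀ y, g (y + 1) ≤ g y + 1) (h0 : g 0 = 0) (y : ℕ) : g y ≤ y := by
  induction y with
  | zero => omega
  | succ y ih => have := hs y; omega

lemma mrg_sub (hs : ∀ y, g (y + 1) ≤ g y + 1) (y n : ℕ) : g (y + n) ≤ g y + n := by
  induction n with
  | zero => simp
  | succ n ih => have := hs (y + n); rw [← add_assoc]; omega

end rows

/-! ### Transfer of the legs -/

section legs

variable {g : ℕ → ℕ} {T : Finset ℕ} {M : ℕ}

/-- the map of the vertices -/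
def Gm (g : ℕ → ℕ) (v : ℕ × ℕ) : ℕ × ℕ := (v.1, g v.2)

lemma sd_Gm (hm : Monotone g) (h3 : ∀ t ∈ T, ∀ y, t ≤ y + M → y ≤ t + M → g (y + 1) = g y + 1)
    {v v' : ℕ × ℕ} (hv : v.2 ∈ T) (h : sd (Gm g v) (Gm g v') < M ∨ sd v v' ≤ M) :
    sd (Gm g v) (Gm g v') = sd v v' := by
  have h1 := mrg_iso hm h3 hv v'.2
  unfold sd Gm at *
  simp only at *
  omega

lemma Gm_inj (hm : Monotone g) (h3 : ∀ t ∈ T, ∀ y, t ≤ y + M → y ≤ t + M → g (y + 1) = g y + 1)
    (hM : 1 ≤ M) {v v' : ℕ × ℕ} (hv : v.2 ∈ T) (h : Gm g v = Gm g v') : v = v' := by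
  have h1 := mrg_iso hm h3 hv v'.2
  obtain ⟨a, b⟩ := v
  obtain ⟨a', b'⟩ := v'
  simp only [Gm, Prod.mk.injEq] at *
  omega

/-- injectivity in a window around a row of `T` -/
lemma Gm_inj' (hm : Monotone g) (h3 : ∀ t ∈ T, ∀ y, t ≤ y + M → y ≤ t + M → g (y + 1) = g y + 1)
    {c v v' : ℕ × ℕ} (hc : c.2 ∈ T) (hv : sd v c < M) (h : Gm g v = Gm g v') : v = v' := by
  have h1 := mrg_iso hm h3 hc v'.2
  have h2 := mrg_iso hm h3 hc v.2
  have h4 := sd_le.1 (le_refl (sd v c))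
  obtain ⟨a, b⟩ := v
  obtain ⟨a', b'⟩ := v'
  simp only [Gm, Prod.mk.injEq] at *
  omega

lemma ray_Gm {d : ℕ} {s v : ℕ × ℕ} (h : g s.2 + v.2 = g v.2 + s.2) :
    ray d (Gm g s) (Gm g v) ↔ ray d s v := by
  unfold ray Gm
  simp only
  omega

/-- **Transfer of legs.** -/
lemma Legs.transfer (hm : Monotone g)
    (h3 : ∀ t ∈ T, ∀ y, t ≤ y + M → y ≤ t + M → g (y + 1) = g y + 1) (hle : ∀ y, g y ≤ y)
    {K : Finset (ℕ × ℕ)} (hK : ∀ v ∈ K, v.2 ∈ T) {Λ Λ' : Set (ℕ × ℕ)} {c : ℕ × ℕ} {s : ℕ}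
    (hs : 2 * s + 10 ≤ M) (hc : c.2 ∈ T) {Q : ℕ → Prop} {st : ℕ → ℕ × ℕ}
    (hpos : ∀ v : ℕ × ℕ, sd v c ≤ s + 1 → 1 ≤ v.1 ∧ 1 ≤ v.2)
    (hΛ1 : ∀ v, sd v c ≤ s + 2 → v ∈ Λ → v ∉ K → Gm g v ∈ Λ')
    (hΛ2 : ∀ v', sd v' (Gm g c) ≤ s → v' ∈ Λ' → ∃ v, Gm g v = v' ∧ v ∈ Λ)
    (hsep : ∀ v ∈ K, ∀ v' ∈ K, v ≠ v' → 2 ≤ sd v v')
    (h : Legs (K : Set (ℕ × ℕ)) Λ c s Q st) :
    Legs ((K.image (Gm g) : Finset (ℕ × ℕ)) : Set (ℕ × ℕ)) Λ' (Gm g c) s Q
      (fun d => Gm g (st d)) := by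
  classical
  have hwin : ∀ v, sd v c ≤ s + 2 → g v.2 + c.2 = g c.2 + v.2 := by
    intro v hv
    have h1 := mrg_iso hm h3 hc v.2
    have h2 := sd_le.1 hv
    omega
  have hwin2 : ∀ v v', sd v c ≤ s + 2 → sd v' c ≤ s + 2 → g v.2 + v'.2 = g v'.2 + v.2 := by
    intro v v' hv hv'
    have h1 := hwin v hv
    have h2 := hwin v' hv'
    omega
  have hsd : ∀ v, (sd v c ≤ s + 2 ∨ sd (Gm g v) (Gm g c) ≤ s + 2) →
      sd (Gm g v) (Gm g c) = sd v c := by
    intro v hv
    rw [sd_comm, sd_comm (p := v)]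
    refine sd_Gm hm h3 hc ?_
    rw [sd_comm (p := c), sd_comm (p := Gm g c)]
    rcases hv with h1 | h1
    · right; omega
    · left; omega
  -- the real starts
  have hreal : ∀ d < 4, Q d → real ((K.image (Gm g) : Finset (ℕ × ℕ)) : Set (ℕ × ℕ)) d
      (Gm g (st d)) = Gm g (real (K : Set (ℕ × ℕ)) d (st d)) ∧
      sd (real (K : Set (ℕ × ℕ)) d (st d)) c ≤ s + 2 ∧
      real (K : Set (ℕ × ℕ)) d (st d) ∉ K := by
    intro d hd hQd
    have hn := h.near d hd hQd
    have hn' := sd_le.1 hn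
    have hp := hpos _ hn
    by_cases hst : st d ∈ K
    · have h1 : Gm g (st d) ∈ ((K.image (Gm g) : Finset (ℕ × ℕ)) : Set (ℕ × ℕ)) :=
        Finset.mem_coe.2 (Finset.mem_image_of_mem _ hst)
      have h2 : sd (stp d (st d)) c ≤ s + 2 := by
        refine sd_le.2 ?_
        unfold stp
        have : d = 0 ∨ d = 1 ∨ d = 2 ∨ d = 3 := by omega
        rcases this with rfl | rfl | rfl | rfl <;> simp <;> omega
      unfold real
      rw [if_pos h1, if_pos (Finset.mem_coe.2 hst)]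
      have h4 := hwin2 _ _ h2 (show sd (st d) c ≤ s + 2 by omega)
      refine ⟨?_, h2, ?_⟩
      · have : d = 0 ∨ d = 1 ∨ d = 2 ∨ d = 3 := by omega
        rcases this with rfl | rfl | rfl | rfl
        · rfl
        · rfl
        · simp only [stp, Gm] at h4 ⊢
          simp at h4 ⊢
          omega
        · simp only [stp, Gm] at h4 ⊢
          simp at h4 ⊢
          omega
      · intro hK'
        have hne : st d ≠ stp d (st d) := by
          intro h5
          have : d = 0 ∨ d = 1 ∨ d = 2 ∨ d = 3 := by omega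
          rcases this with rfl | rfl | rfl | rfl <;>
            (simp [stp, Prod.ext_iff] at h5; try omega)
        have h6 := hsep _ hst _ hK' hne
        have h7 : sd (st d) (stp d (st d)) ≤ 1 := by
          refine sd_le.2 ?_
          unfold stp
          have : d = 0 ∨ d = 1 ∨ d = 2 ∨ d = 3 := by omega
          rcases this with rfl | rfl | rfl | rfl <;> simp <;> omega
        omega
    · have h1 : Gm g (st d) ∉ ((K.image (Gm g) : Finset (ℕ × ℕ)) : Set (ℕ × ℕ)) := by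
        intro h2
        obtain ⟨v, hv, hvs⟩ := Finset.mem_image.1 (Finset.mem_coe.1 h2)
        have := Gm_inj hm h3 (by omega) (hK v hv) hvs
        rw [this] at hv
        exact hst hv
      unfold real
      rw [if_neg h1, if_neg (fun h2 => hst (Finset.mem_coe.1 h2))]
      exact ⟨rfl, by omega, hst⟩
  constructor
  · intro d hd hQd
    have h1 := h.near d hd hQd
    rw [hsd _ (Or.inl (by omega))]
    exact h1
  · intro d hd d' hd' hQ hQ' hne v h1 h2
    have e1 := h.near d hd hQ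
    have e2 := h.near d' hd' hQ'
    have e3 := hwin2 _ _ (show sd (st d) c ≤ s + 2 by omega) (show sd (st d') c ≤ s + 2 by omega)
    have e4 := hle (st d).2
    have e5 := hle (st d').2
    refine h.dis d hd d' hd' hQ hQ' hne (v.1, v.2 + ((st d).2 - g (st d).2)) ?_ ?_
    · unfold ray Gm at *
      simp only at *
      omega
    · unfold ray Gm at *
      simp only at *
      omega
  · intro d hd hQd
    obtain ⟨h1, h2, h4⟩ := hreal d hd hQd
    rw [h1]
    exact hΛ1 _ h2 (h.start d hd hQd) h4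
  · intro d hd hQd v' hv' hvc hray
    obtain ⟨v, rfl, hv⟩ := hΛ2 v' hvc hv'
    obtain ⟨h1, h2, h4⟩ := hreal d hd hQd
    have h5 := hsd v (Or.inr (by omega))
    rw [h5] at hvc
    have h6 := hwin2 (st d) v (by have := h.near d hd hQd; omega) (by omega)
    rw [ray_Gm h6] at hray
    rw [h.clean d hd hQd v hv hvc hray] at *
    exact h1.symm
  · intro d hd hQd v' hv' hvc hray
    obtain ⟨v, hv, rfl⟩ := Finset.mem_image.1 (Finset.mem_coe.1 hv')
    have h5 := hsd v (Or.inr (by omega))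
    rw [h5] at hvc
    have h6 := hwin2 (st d) v (by have := h.near d hd hQd; omega) (by omega)
    rw [ray_Gm h6] at hray
    rw [h.kray d hd hQd v (Finset.mem_coe.2 hv) hvc hray]
  · intro v' hv' hvc
    obtain ⟨v, hv, rfl⟩ := Finset.mem_image.1 (Finset.mem_coe.1 hv')
    have h5 := hsd v (Or.inr (by omega))
    rw [h5] at hvc
    obtain ⟨d, hd, hQd, h6⟩ := h.kst v (Finset.mem_coe.2 hv) hvc
    exact ⟨d, hd, hQd, by rw [h6]⟩

end legs

/-- the blobs at which `z` is located (exact status) -/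
def BL {α : Type*} (P : Matroid α) (S : Set α) (ends : α → Sym2 (ℕ × ℕ)) (i : ℕ)
    (K : Set (ℕ × ℕ)) (τ : ℕ × ℕ → ℕ × ℕ) (z : α) : Set (ℕ × ℕ) :=
  {b | z ∉ P.closure (ins S ends (blob i K τ b)ᶜ ∪ ins S ends (blob i K τ b))}

open Classical in
/-- the blob of a vertex -/
noncomputable def rh (i : ℕ) (K : Set (ℕ × ℕ)) (τ : ℕ × ℕ → ℕ × ℕ) (p : ℕ × ℕ) : ℕ × ℕ :=
  if pw i p ∈ K then pw i (τ p) else pw i p

lemma mem_blob {i : ℕ} {K : Set (ℕ × ℕ)} {τ : ℕ × ℕ → ℕ × ℕ} {p b : ℕ × ℕ} :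
    p ∈ blob i K τ b ↔ rh i K τ p = b := by
  unfold blob rh
  by_cases h : pw i p ∈ K
  · simp [h]
  · simp [h]

/-- WQuot with the exact status of the blobs. -/
def WQuotX : Prop :=
  ∀ {α : Type u} (P : Matroid α) [P.Finite] (S : Set α) (ends : α → Sym2 (ℕ × ℕ)) (w i : ℕ)
    (K : Finset (ℕ × ℕ)) (τ : ℕ × ℕ → ℕ × ℕ) (miss : Set (Sym2 (ℕ × ℕ))), i ≤ 1 → 40 ≤ w →
    Bic P S ends → WallE S ends w miss → Tgt i (K : Set (ℕ × ℕ)) τ →
    (∀ v ∈ K, DeepR (0, 0) ((w + 1 - i) / 2) (w + 1) 10 v) →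
    (∀ v ∈ K, ∀ v' ∈ K, v ≠ v' → 10 < sd v v') →
    (∀ p q, s(p, q) ∈ miss → (pw i p ∈ K ∧ τ p ≠ q) ∨ (pw i q ∈ K ∧ τ q ≠ p)) →
    ∃ Z S' : Set α, Z ⊆ S ∧ S' ⊆ S ∧
      Bic (P ／ Z) S' (fun e => (ends e).map (pw i)) ∧
      CWL.GrdU S' (fun e => (ends e).map (pw i))
        (rect 0 0 ((w + 1 - i) / 2) (w + 1) \ (K : Set (ℕ × ℕ))) ∧
      ∀ z ∈ P.closure S, z ∉ S → z ∈ (P ／ Z).closure S' ∧ z ∉ S' ∧
        ∀ b, DeepR (0, 0) ((w + 1 - i) / 2) (w + 1) 10 b → b ∉ K →
          (b ∈ CWL.Loc (P ／ Z) S' (fun e => (ends e).map (pw i)) z ↔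
            b ∈ BL P S ends i (K : Set (ℕ × ℕ)) τ z) ∧
          ((∀ p ∈ blob i K τ b, p ∉ CWL.Loc P S ends z) →
            b ∉ CWL.Loc (P ／ Z) S' (fun e => (ends e).map (pw i)) z)

lemma loc_notin {α : Type*} {P : Matroid α} {S : Set α} {ends : α → Sym2 (ℕ × ℕ)}
    {A : Set (ℕ × ℕ)} (hG : CWL.GrdU S ends A) {z : α} (hz : z ∈ P.closure S) {v : ℕ × ℕ}
    (hv : v ∉ A) : v ∉ CWL.Loc P S ends z := by
  intro h
  obtain ⟨e, he, hve⟩ := loc_end hz h
  exact hv (grd_end hG he hve)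

open Classical in
/-- **The pipeline.** Gadgets in a brick wall with missing rows. -/
theorem glW {k : ℕ} (hM : GlM.{u} k) (hQ : WQuotX.{u}) (hR : RowMerge.{u}) :
    ∀ β D : ℕ, ∃ m δ : ℕ, ∀ {α : Type u} (P : Matroid α) [P.Finite] (S : Set α)
      (ends : α → Sym2 (ℕ × ℕ)) (w i : ℕ) (K : Finset (ℕ × ℕ)) (τ : ℕ × ℕ → ℕ × ℕ)
      (miss : Set (Sym2 (ℕ × ℕ))), i ≤ 1 → Bic P S ends → WallE S ends w miss →
      Tgt i (K : Set (ℕ × ℕ)) τ →
      (∀ p q, s(p, q) ∈ miss → (pw i p ∈ K ∧ τ p ≠ q) ∨ (pw i q ∈ K ∧ τ q ≠ p)) →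
      ∀ (z : Fin m → α) (N A : Fin m → Finset (ℕ × ℕ)), (∀ t, z t ∈ P.closure S ∧ z t ∉ S) →
      (∀ t, (N t).card ≤ β ∧ (A t).card ≤ β) →
      (∀ t, ∀ v ∈ CWL.Loc P S ends (z t), DeepR (0, 0) (w + 1) (w + 1) D v → v ∈ N t) →
      (∀ t, (A t).Nonempty) →
      (∀ t, ∀ b ∈ A t, DeepR (0, 0) ((w + 1 - i) / 2) (w + 1) δ b) →
      (∀ v ∈ K, ∃ t, v ∈ A t) →
      (∀ t, ∀ v ∈ K, ∀ v' ∈ K, v ∈ A t → v' ∈ A t → v = v') →
      (∀ t t', t ≠ t' → ∀ b ∈ A t, ∀ b' ∈ A t' ∪ (N t').image (rh i K τ), δ ≤ sd b b') →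
      (∀ t s, s ≤ δ → (∀ v ∈ A t ∪ (N t).image (rh i K τ), ∀ v' ∈ A t ∪ (N t).image (rh i K τ),
          sd v v' ≤ s ∨ 2 * s + 10 < sd v v') →
        HasLegs (K : Set (ℕ × ℕ)) (BL P S ends i K τ (z t)) (A t) s) → HasUniformMinor P k := by
  intro β D
  obtain ⟨m, δ₀, hM'⟩ := hM (2 * β) (D + 12)
  obtain ⟨M, hMd⟩ : ∃ M, M = 2 * δ₀ + D + 50 := ⟨_, rfl⟩
  obtain ⟨δR, hR'⟩ := hR (m * (2 * β)) M
  obtain ⟨δ, hδ⟩ : ∃ δ, δ = M + δR + 50 := ⟨_, rfl⟩
  refine ⟨m, δ, ?_⟩
  intro α P _ S ends w i K τ miss hi hB hW hT hmiss z N A hz hcard hN hAne hAd hKA hKu hfar hlegs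
  by_cases hm0 : m = 0
  · subst hm0
    refine hM' P ∅ ends (0, 0) 0 ∅ ?_ ?_ z (fun _ => ∅) (fun _ => ∅) (fun t => t.elim0)
      (fun t => t.elim0) (fun t => t.elim0) (by simp) (fun t => t.elim0) (fun t => t.elim0)
      (fun t => t.elim0)
    · refine ⟨empty_subset _, ?_, ?_⟩
      · intro F φ hF _ _
        rw [subset_empty_iff.1 hF]
        exact P.empty_indep
      · intro W
        have : ins (∅ : Set α) ends W = ∅ := by ext; simp [ins]
        rw [this]
        simp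
    · refine ⟨injOn_empty _, fun e he => absurd he (notMem_empty e), ?_⟩
      rintro p q _ ⟨hp, _⟩ _
      rw [Gad.mem_rct] at hp
      omega
  have hmpos : 0 < m := Nat.pos_of_ne_zero hm0
  -- the size of the wall
  obtain ⟨b₀, hb₀⟩ := hAne ⟨0, hmpos⟩
  have hb₀d := hAd _ b₀ hb₀
  obtain ⟨a, ha⟩ : ∃ a, a = (w + 1 - i) / 2 := ⟨_, rfl⟩
  rw [← ha] at hAd hb₀d
  have haδ : 2 * δ ≤ a := by
    have h1 := hb₀d
    unfold DeepR at h1
    simp only at h1
    omega
  have hKdeep : ∀ v ∈ K, DeepR (0, 0) a (w + 1) δ v := by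
    intro v hv
    obtain ⟨t, ht⟩ := hKA v hv
    exact hAd t v ht
  have hKfar : ∀ v ∈ K, ∀ v' ∈ K, v ≠ v' → δ ≤ sd v v' := by
    intro v hv v' hv' hne
    obtain ⟨t, ht⟩ := hKA v hv
    obtain ⟨t', ht'⟩ := hKA v' hv'
    have htt : t ≠ t' := by
      rintro rfl
      exact hne (hKu t v hv v' hv' ht ht')
    exact hfar t t' htt v ht v' (Finset.mem_union_left _ ht')
  obtain ⟨Z, S', hZ, hS', hB', hG', hloc⟩ := hQ P S ends w i K τ miss hi (by omega) hB hW hT
    (by
      intro v hv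
      have h1 := hKdeep v hv
      rw [← ha]
      unfold DeepR at h1 ⊢
      simp only at h1 ⊢
      omega) (by
      intro v hv v' hv' hne
      have := hKfar v hv v' hv' hne
      omega) hmiss
  rw [← ha] at hG' hloc
  have hP1 : (P ／ Z).Finite := BQ.fin_contract _
  obtain ⟨T, hTdef⟩ : ∃ T : Finset ℕ, T = (Finset.univ : Finset (Fin m)).biUnion
      (fun t => (A t ∪ (N t).image (rh i K τ)).image Prod.snd) := ⟨_, rfl⟩
  have hTm : ∀ t, ∀ v ∈ A t ∪ (N t).image (rh i K τ), v.2 ∈ T := by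
    intro t v hv
    rw [hTdef]
    exact Finset.mem_biUnion.2 ⟨t, Finset.mem_univ _, Finset.mem_image_of_mem _ hv⟩
  have hTA : ∀ t, ∀ v ∈ A t, v.2 ∈ T := fun t v hv => hTm t v (Finset.mem_union_left _ hv)
  have hTK : ∀ v ∈ K, v.2 ∈ T := by
    intro v hv
    obtain ⟨t, ht⟩ := hKA v hv
    exact hTA t v ht
  have hTc : T.card ≤ m * (2 * β) := by
    rw [hTdef]
    refine (Finset.card_biUnion_le_card_mul _ _ (2 * β) ?_).trans ?_
    · intro t _
      refine Finset.card_image_le.trans ((Finset.card_union_le _ _).trans ?_)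
      have h1 := hcard t
      have h2 : ((N t).image (rh i K τ)).card ≤ (N t).card := Finset.card_image_le
      omega
    · rw [Finset.card_univ, Fintype.card_fin]
  obtain ⟨Z2, S2, g, hZ2, hS2, gm, gs, g1, g2, g3, hB2, hG2, hloc2⟩ :=
    hR' (P ／ Z) S' (fun e => (ends e).map (pw i)) (0, 0) a (w + 1) a K T hB' hG' hTc hTK
    (by
      intro v hv
      have h1 := hKdeep v hv
      unfold DeepR at h1 ⊢
      simp only at h1 ⊢
      omega) (by
      intro v hv v' hv' hne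
      have := hKfar v hv v' hv' hne
      omega) (by omega) (by omega) (by omega)
  have hP2 : (P ／ Z ／ Z2).Finite := BQ.fin_contract _
  simp only [Nat.zero_add] at g1 g2
  have g0 : g 0 = 0 := g1 0 (by omega)
  have gle : ∀ y, g y ≤ y := mrg_le gs g0
  have gtop : g (w + 1) = a := by
    have := g2 (w + 1) (by omega)
    omega
  have dG : ∀ (d : ℕ) (v : ℕ × ℕ), d ≤ M → DeepR (0, 0) a (w + 1) d v →
      DeepR (0, 0) a a d (Gm g v) := by
    intro d v hd hv
    unfold DeepR at hv ⊢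
    unfold Gm
    simp only at hv ⊢
    have h1 := gm (show d ≤ v.2 by omega)
    rw [g1 d hd] at h1
    have h2 := gm (show v.2 ≤ w + 1 - d by omega)
    have h3 := g2 (w + 1 - d) (by omega)
    omega
  have dG' : ∀ (d : ℕ) (v : ℕ × ℕ), 1 ≤ d → DeepR (0, 0) a a d (Gm g v) →
      DeepR (0, 0) a (w + 1) d v := by
    intro d v hd hv
    unfold DeepR at hv ⊢
    unfold Gm at hv
    simp only at hv ⊢
    have h1 := gle v.2
    by_cases h2 : v.2 ≤ w + 1
    · have h3 := mrg_sub gs v.2 (w + 1 - v.2)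
      rw [show v.2 + (w + 1 - v.2) = w + 1 by omega, gtop] at h3
      omega
    · have h3 := gm (show w + 1 ≤ v.2 by omega)
      rw [gtop] at h3
      omega
  have hMM : 1 ≤ M := by omega
  have hKimg : ((K.image (Gm g) : Finset (ℕ × ℕ)) : Set (ℕ × ℕ)) =
      (fun v : ℕ × ℕ => (v.1, g v.2)) '' (K : Set (ℕ × ℕ)) := by
    rw [Finset.coe_image]
    rfl
  have hz1 := fun t => hloc (z t) (hz t).1 (hz t).2
  have hz2 := fun t => hloc2 (z t) (hz1 t).1 (hz1 t).2.1
  have F1k : ∀ t, ∀ b ∈ K, b ∉ CWL.Loc (P ／ Z) S' (fun e => (ends e).map (pw i)) (z t) := by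
    intro t b hb
    exact loc_notin hG' (hz1 t).1 fun h => h.2 (Finset.mem_coe.2 hb)
  have F2k : ∀ t, ∀ v ∈ K.image (Gm g), v ∉ CWL.Loc (P ／ Z ／ Z2) S2
      (fun e => ((ends e).map (pw i)).map (fun v : ℕ × ℕ => (v.1, g v.2))) (z t) := by
    intro t v hv
    refine loc_notin hG2 (hz2 t).1 fun h => h.2 ?_
    rw [← hKimg]
    exact Finset.mem_coe.2 hv
  have hback : ∀ t (v : ℕ × ℕ), DeepR (0, 0) a a 10 v → v ∈ CWL.Loc (P ／ Z ／ Z2) S2
      (fun e => ((ends e).map (pw i)).map (fun v : ℕ × ℕ => (v.1, g v.2))) (z t) →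
      ∃ p, Gm g p = v ∧ p ∉ K ∧ DeepR (0, 0) a (w + 1) 10 p ∧
        p ∈ CWL.Loc (P ／ Z) S' (fun e => (ends e).map (pw i)) (z t) := by
    intro t v hv hvL
    have hvK : v ∉ K.image (Gm g) := fun h => F2k t v h hvL
    have h1 := (hz2 t).2.2 v hv (by
      rw [← hKimg]
      exact fun h => hvK (Finset.mem_coe.1 h))
    by_contra hcon
    push Not at hcon
    refine h1.1 ?_ hvL
    intro p hp hpL
    have hpG : Gm g p = v := hp
    refine hcon p hpG ?_ (dG' 10 p (by omega) (by rw [hpG]; exact hv)) hpL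
    intro hpK
    exact F1k t p hpK hpL
  refine HasUniformMinor_mono (HasUniformMinor_mono
    (hM' (P ／ Z ／ Z2) S2 _ (0, 0) a (K.image (Gm g)) hB2 (by rw [hKimg]; exact hG2) z
      (fun t => (A t ∪ (N t).image (rh i K τ)).image (Gm g)) (fun t => (A t).image (Gm g))
      (fun t => ⟨(hz2 t).1, (hz2 t).2.1⟩) ?_ ?_ ?_ ?_ ?_ ?_) (con_minor _ _)) (con_minor _ _)
  · intro t
    refine ⟨?_, ?_⟩
    · refine Finset.card_image_le.trans ((Finset.card_union_le _ _).trans ?_)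
      have h1 := hcard t
      have h2 : ((N t).image (rh i K τ)).card ≤ (N t).card := Finset.card_image_le
      omega
    · intro v hv hvd
      obtain ⟨p, hpG, hpK, hpd, hpL⟩ := hback t v (by
        unfold Deep at hvd
        unfold DeepR
        simp only at hvd ⊢
        omega) hv
      have hpd' := dG' (D + 12) p (by omega) (by
        rw [hpG]
        exact hvd)
      obtain ⟨q, hq, hqL⟩ : ∃ q ∈ blob i K τ p, q ∈ CWL.Loc P S ends (z t) := by
        by_contra hcon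
        push Not at hcon
        exact ((hz1 t).2.2 p hpd hpK).2 hcon hpL
      have hqN : q ∈ N t := by
        refine hN t q hqL ?_
        unfold DeepR at hpd' ⊢
        simp only at hpd' ⊢
        rcases hq with ⟨_, hq2⟩ | ⟨hq1, hq2⟩
        · unfold pw at hq2
          rw [Prod.ext_iff] at hq2
          simp only at hq2
          omega
        · have h3 := hT q hq1
          unfold pw at hq2
          rw [Prod.ext_iff] at hq2
          simp only at hq2
          have hvn : vn q = (q.1, q.2 + 1) ∨ vn q = (q.1, q.2 - 1) := by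
            unfold vn
            split_ifs
            · exact Or.inl rfl
            · exact Or.inr rfl
          rcases h3 with h3 | ⟨_, h3⟩ | ⟨_, h3⟩
          · rcases hvn with h4 | h4 <;> rw [h3, h4] at hq2 <;> simp only at hq2 <;> omega
          · rw [h3] at hq2
            simp only at hq2
            omega
          · rw [h3] at hq2
            simp only at hq2
            omega
      refine Finset.mem_image.2 ⟨p, Finset.mem_union_right _ (Finset.mem_image.2 ⟨q, hqN, ?_⟩),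
        hpG⟩
      exact mem_blob.1 hq
  · intro t
    refine ⟨Finset.image_subset_image Finset.subset_union_left, ?_⟩
    intro v hv
    obtain ⟨b, hb, rfl⟩ := Finset.mem_image.1 hv
    have h1 := hAd t b hb
    refine dG δ₀ b (by omega) ?_
    unfold DeepR at h1 ⊢
    simp only at h1 ⊢
    omega
  · intro v hv
    obtain ⟨b, hb, rfl⟩ := Finset.mem_image.1 hv
    obtain ⟨t, ht⟩ := hKA b hb
    exact ⟨t, Finset.mem_image_of_mem _ ht⟩
  · intro t v hv v' hv' hvA hvA'
    obtain ⟨b, hb, rfl⟩ := Finset.mem_image.1 hv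
    obtain ⟨b', hb', rfl⟩ := Finset.mem_image.1 hv'
    obtain ⟨c, hc, hcb⟩ := Finset.mem_image.1 hvA
    obtain ⟨c', hc', hcb'⟩ := Finset.mem_image.1 hvA'
    have e1 := Gm_inj gm g3 hMM (hTA t c hc) hcb
    have e2 := Gm_inj gm g3 hMM (hTA t c' hc') hcb'
    rw [e1] at hc
    rw [e2] at hc'
    rw [hKu t b hb b' hb' hc hc']
  · intro t t' hne v hv v' hv'
    obtain ⟨b, hb, rfl⟩ := Finset.mem_image.1 hv
    obtain ⟨b', hb', rfl⟩ := Finset.mem_image.1 hv'
    rw [apart_iff]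
    by_contra hcon
    have h1 := sd_Gm gm g3 (hTA t b hb) (v' := b') (Or.inl (by omega))
    have h2 := hfar t t' hne b hb b' hb'
    omega
  · intro t s hs hgap
    have hlg := hlegs t s (by omega) (by
      intro v hv v' hv'
      rcases hgap (Gm g v) (Finset.mem_image_of_mem _ hv) (Gm g v')
        (Finset.mem_image_of_mem _ hv') with h1 | h1
      · left
        rw [← sd_Gm gm g3 (hTm t v hv) (Or.inl (by omega))]
        exact h1
      · by_cases h2 : sd v v' ≤ M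
        · right
          rw [← sd_Gm gm g3 (hTm t v hv) (Or.inr h2)]
          exact h1
        · right
          omega)
    have htr : ∀ c ∈ A t, ∀ (Q : ℕ → Prop) (st : ℕ → ℕ × ℕ),
        Legs (K : Set (ℕ × ℕ)) (BL P S ends i K τ (z t)) c s Q st →
        Legs ((K.image (Gm g) : Finset (ℕ × ℕ)) : Set (ℕ × ℕ))
          (CWL.Loc (P ／ Z ／ Z2) S2
            (fun e => ((ends e).map (pw i)).map (fun v : ℕ × ℕ => (v.1, g v.2))) (z t))
          (Gm g c) s Q (fun d => Gm g (st d)) := by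
      intro c hc Q st hL
      have hcd := hAd t c hc
      have hdeep : ∀ v : ℕ × ℕ, sd v c ≤ s + 2 → DeepR (0, 0) a (w + 1) 10 v := by
        intro v hv
        have h1 := sd_le.1 hv
        unfold DeepR at hcd ⊢
        simp only at hcd ⊢
        omega
      refine hL.transfer gm g3 gle hTK (by omega) (hTA t c hc) ?_ ?_ ?_ ?_
      · intro v hv
        have h1 := hdeep v (by omega)
        unfold DeepR at h1
        simp only at h1
        omega
      · intro v hv hvB hvK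
        have hvd := hdeep v hv
        have hv1 := ((hz1 t).2.2 v hvd hvK).1.2 hvB
        have hinj : ∀ p, Gm g v = Gm g p → v = p := fun p hp =>
          Gm_inj' gm g3 (hTA t c hc) (by omega) hp
        refine ((hz2 t).2.2 (Gm g v) (dG 10 v (by omega) hvd) ?_).2 v rfl hv1 ?_
        · rintro ⟨v', hv', hvv⟩
          have h1 := Gm_inj gm g3 hMM (hTK v' (Finset.mem_coe.1 hv')) (v' := v) hvv
          rw [← h1] at hvK
          exact hvK (Finset.mem_coe.1 hv')
        · intro p hp hpv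
          exact absurd (hinj p (show Gm g v = Gm g p from hp.symm)).symm hpv
      · intro v' hv' hvL
        have hd' : DeepR (0, 0) a a 10 v' := by
          have h1 := dG δ₀ c (by omega) (by
            unfold DeepR at hcd ⊢
            simp only at hcd ⊢
            omega)
          have h2 := sd_le.1 hv'
          unfold DeepR at h1 ⊢
          simp only at h1 ⊢
          omega
        obtain ⟨p, hpG, hpK, hpd, hpL⟩ := hback t v' hd' hvL
        exact ⟨p, hpG, ((hz1 t).2.2 p hpd hpK).1.1 hpL⟩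
      · intro v hv v' hv' hne
        have := hKfar v hv v' hv' hne
        omega
    rcases hlg with ⟨c, hc, n, hn, st, h1⟩ | ⟨c, hc, c', hc', hcc, ⟨st, h1⟩, st', h2⟩
    · exact Or.inl ⟨Gm g c, Finset.mem_image_of_mem _ hc, n, hn, _, htr c hc _ _ h1⟩
    · refine Or.inr ⟨Gm g c, Finset.mem_image_of_mem _ hc, Gm g c',
        Finset.mem_image_of_mem _ hc', ?_, ⟨_, htr c hc _ _ h1⟩, _, htr c' hc' _ _ h2⟩
      by_contra hcon
      have h3 := sd_Gm gm g3 (hTA t c hc) (v' := c') (Or.inl (by omega))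
      omega

end DA
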