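import Pool.Agent.CW.Defs

/-!
# General gadget lemma: definitions and statements of the rows

`GlAll`: far apart elements with boundedly many, at least three, locations in the interior of a
grid with holes give a `U_{k,2k}`-minor.  Rows: `GlMixH3` (two feet at one hole, one foot at
another), `GlFarH` (three feet at three holes), three feet at one hole (`Gad.glNearH` and
`Gad.near_x`).
-/

open Set BIC BICS
open scoped Matroid

namespace DA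

universe u

/-- ROW C3. Two feet (left and right) at one hole, one foot (left) at another hole. -/
def GlMixH3 (k : ℕ) : Prop :=
  ∀ L : ℕ, 1 ≤ L → ∃ m δ : ℕ, ∀ {α : Type u} (P : Matroid α) [P.Finite] (S : Set α)
    (ends : α → Sym2 (ℕ × ℕ)) (X : ℕ × ℕ) (n : ℕ) (H : Finset (ℕ × ℕ)), Bic P S ends →
    CWL.GrdU S ends (rect X.1 X.2 n n \ ⋃ q ∈ H, rect q.1 q.2 L L) →
    (∀ q ∈ H, ∀ q' ∈ H, q ≠ q' → CWL.Far δ q L q' L) →
    ∀ (z : Fin m → α) (p : Fin m × Fin 2 → ℕ × ℕ), (∀ t, p t ∈ H) → Function.Injective p →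
    (∀ t, X.1 + δ ≤ (p t).1 ∧ X.2 + δ ≤ (p t).2 ∧ (p t).1 + δ ≤ X.1 + n ∧
      (p t).2 + δ ≤ X.2 + n) →
    (∀ t, z t ∈ P.closure S ∧ z t ∉ S) →
    (∀ t, ∃ a < L, ∃ a' < L, ∃ b < L, CWL.Loc P S ends (z t) =
      {CWL.foot L (p (t, 0)) 0 a, CWL.foot L (p (t, 0)) 1 a', CWL.foot L (p (t, 1)) 0 b}) →
    HasUniformMinor P k

/-- ROW A3. Three feet (left) at three holes. -/
def GlFarH (k : ℕ) : Prop :=
  ∀ L : ℕ, 1 ≤ L → ∃ m δ : ℕ, ∀ {α : Type u} (P : Matroid α) [P.Finite] (S : Set α)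
    (ends : α → Sym2 (ℕ × ℕ)) (X : ℕ × ℕ) (n : ℕ) (H : Finset (ℕ × ℕ)), Bic P S ends →
    CWL.GrdU S ends (rect X.1 X.2 n n \ ⋃ q ∈ H, rect q.1 q.2 L L) →
    (∀ q ∈ H, ∀ q' ∈ H, q ≠ q' → CWL.Far δ q L q' L) →
    ∀ (z : Fin m → α) (p : Fin m × Fin 3 → ℕ × ℕ), (∀ t, p t ∈ H) → Function.Injective p →
    (∀ t, X.1 + δ ≤ (p t).1 ∧ X.2 + δ ≤ (p t).2 ∧ (p t).1 + δ ≤ X.1 + n ∧
      (p t).2 + δ ≤ X.2 + n) →
    (∀ t, z t ∈ P.closure S ∧ z t ∉ S) →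
    (∀ t, ∃ a < L, ∃ b < L, ∃ c < L, CWL.Loc P S ends (z t) =
      {CWL.foot L (p (t, 0)) 0 a, CWL.foot L (p (t, 1)) 0 b, CWL.foot L (p (t, 2)) 0 c}) →
    HasUniformMinor P k

/-- the distance of two vertices is at least `δ` -/
def Apart (δ : ℕ) (v w : ℕ × ℕ) : Prop :=
  v.1 + δ ≤ w.1 ∨ w.1 + δ ≤ v.1 ∨ v.2 + δ ≤ w.2 ∨ w.2 + δ ≤ v.2

/-- THE GENERAL GADGET LEMMA. Intact grid, every `z t` has at least three and at most `β`
locations, all of them inside, locations of different `z t` are far apart. -/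
def GlAll (k : ℕ) : Prop :=
  ∀ β : ℕ, ∃ m δ : ℕ, ∀ {α : Type u} (P : Matroid α) [P.Finite] (S : Set α)
    (ends : α → Sym2 (ℕ × ℕ)) (X : ℕ × ℕ) (n : ℕ), Bic P S ends →
    CWL.GrdU S ends (rect X.1 X.2 n n) →
    ∀ (z : Fin m → α), (∀ t, z t ∈ P.closure S ∧ z t ∉ S) →
    (∀ t, (CWL.Loc P S ends (z t)).Finite ∧ 3 ≤ (CWL.Loc P S ends (z t)).ncard ∧
      (CWL.Loc P S ends (z t)).ncard ≤ β) →
    (∀ t, ∀ v ∈ CWL.Loc P S ends (z t), X.1 + δ ≤ v.1 ∧ X.2 + δ ≤ v.2 ∧ v.1 + δ ≤ X.1 + n ∧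
      v.2 + δ ≤ X.2 + n) →
    (∀ t t', t ≠ t' → ∀ v ∈ CWL.Loc P S ends (z t), ∀ w ∈ CWL.Loc P S ends (z t'),
      Apart δ v w) →
    HasUniformMinor P k

end DA
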