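import Pool.Agent.DA.CleanG
import Pool.Agent.DA.GDefs

/-!
# Rectangles without a sparse set of vertices
-/

open Set BIC BICS
open scoped Matroid

namespace DA

open Gad

/-- The vertices of `M` are pairwise at distance at least `δ`. -/
def Spr (δ : ℕ) (M : Set (ℕ × ℕ)) : Prop := ∀ v ∈ M, ∀ w ∈ M, v ≠ w → Apart δ v w

/-- A corner of a free unit face is fat. -/
lemma fat_corner {W : Set (ℕ × ℕ)} {x y u1 u2 : ℕ} (hx : x = u1 ∨ x + 1 = u1)
    (hy : y = u2 ∨ y + 1 = u2) (h : ∀ s t, x ≤ s → s ≤ x + 1 → y ≤ t → t ≤ y + 1 → (s, t) ∈ W) :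
    Fat W (u1, u2) := by
  refine ⟨x, y, h _ _ (by omega) (by omega) (by omega) (by omega),
    h _ _ (by omega) (by omega) (by omega) (by omega),
    h _ _ (by omega) (by omega) (by omega) (by omega),
    h _ _ (by omega) (by omega) (by omega) (by omega), ?_⟩
  refine (rch_row (x' := x) (fun t h1 h2 => ?_)).trans (rch_col (fun t h1 h2 => ?_))
  · exact h _ _ (by omega) (by omega) (by omega) (by omega)
  · exact h _ _ (by omega) (by omega) (by omega) (by omega)

/-- A rectangle without a sparse set in its interior: every vertex is at a unit face. -/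
lemma fat_rect {a b c d : ℕ} {M W : Set (ℕ × ℕ)} (hc : 2 ≤ c) (hd : 2 ≤ d) (hsp : Spr 3 M)
    (hdeep : ∀ v ∈ M, v ∈ rect a b c d → a + 2 ≤ v.1 ∧ v.1 + 3 ≤ a + c ∧ b + 2 ≤ v.2 ∧
      v.2 + 3 ≤ b + d) (hW : rect a b c d \ M ⊆ W) : ∀ u ∈ rect a b c d, u ∉ M → Fat W u := by
  rintro ⟨u1, u2⟩ hu huM
  rw [Gad.mem_rct] at hu
  simp only at hu
  obtain ⟨x, y, hx, hy, hxa, hxc, hyb, hyd, hm⟩ : ∃ x y : ℕ, (x = u1 ∨ x + 1 = u1) ∧
      (y = u2 ∨ y + 1 = u2) ∧ a ≤ x ∧ x + 2 ≤ a + c ∧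
      b ≤ y ∧ y + 2 ≤ b + d ∧ ∀ m ∈ M, ¬ (x ≤ m.1 ∧ m.1 ≤ x + 1 ∧ y ≤ m.2 ∧ m.2 ≤ y + 1) := by
    by_cases h : ∃ m ∈ M, m ∈ rect a b c d ∧ m.1 ≤ u1 + 1 ∧ u1 ≤ m.1 + 1 ∧ m.2 ≤ u2 + 1 ∧
        u2 ≤ m.2 + 1
    · obtain ⟨m, hm, hmR, h1, h2, h3, h4⟩ := h
      have h5 := hdeep m hm hmR
      have hne : m.1 ≠ u1 ∨ m.2 ≠ u2 := by
        by_contra hcon
        push Not at hcon
        exact huM ((Prod.ext hcon.1 hcon.2 : m = (u1, u2)) ▸ hm)
      refine ⟨if m.1 ≤ u1 then u1 else u1 - 1, if m.2 ≤ u2 then u2 else u2 - 1, ?_, ?_, ?_, ?_,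
        ?_, ?_, ?_⟩
      · split_ifs <;> omega
      · split_ifs <;> omega
      · split_ifs <;> omega
      · split_ifs <;> omega
      · split_ifs <;> omega
      · split_ifs <;> omega
      · intro m' hm' hcon
        by_cases hmm : m' = m
        · subst hmm
          split_ifs at hcon <;> omega
        · have h6 := hsp m' hm' m hm hmm
          unfold Apart at h6
          split_ifs at hcon <;> omega
    · push Not at h
      refine ⟨if u1 + 1 < a + c then u1 else u1 - 1, if u2 + 1 < b + d then u2 else u2 - 1,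
        ?_, ?_, ?_, ?_, ?_, ?_, ?_⟩
      · split_ifs <;> omega
      · split_ifs <;> omega
      · split_ifs <;> omega
      · split_ifs <;> omega
      · split_ifs <;> omega
      · split_ifs <;> omega
      · intro m' hm' hcon
        have h7 := h m' hm' (by
          rw [Gad.mem_rct]
          split_ifs at hcon <;> omega)
        split_ifs at hcon <;> omega
  refine fat_corner hx hy fun s t h1 h2 h3 h4 => hW ⟨?_, fun hst => ?_⟩
  · rw [Gad.mem_rct]
    simp only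
    omega
  · exact hm _ hst ⟨h1, h2, h3, h4⟩

/-- Removing a vertex with a free ring keeps connectivity. -/
lemma rch_erase {U : Set (ℕ × ℕ)} {m : ℕ × ℕ} (h1 : 1 ≤ m.1) (h2 : 1 ≤ m.2)
    (hring : ∀ v : ℕ × ℕ, v.1 ≤ m.1 + 1 → m.1 ≤ v.1 + 1 → v.2 ≤ m.2 + 1 → m.2 ≤ v.2 + 1 →
      v ≠ m → v ∈ U) (hU : ∀ a ∈ U, ∀ b ∈ U, Rch U a b) :
    ∀ a ∈ U \ {m}, ∀ b ∈ U \ {m}, Rch (U \ {m}) a b := by
  obtain ⟨m1, m2⟩ := m
  simp only at h1 h2 hring
  have hr : ∀ s t, s ≤ m1 + 1 → m1 ≤ s + 1 → t ≤ m2 + 1 → m2 ≤ t + 1 → (s ≠ m1 ∨ t ≠ m2) →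
      (s, t) ∈ U \ {(m1, m2)} := by
    intro s t g1 g2 g3 g4 g5
    have hne : ((s, t) : ℕ × ℕ) ≠ (m1, m2) := by
      intro h
      rw [Prod.mk.injEq] at h
      omega
    exact ⟨hring (s, t) g1 g2 g3 g4 hne, hne⟩
  -- the ring is connected
  have hc : ∀ s t, s ≤ m1 + 1 → m1 ≤ s + 1 → t ≤ m2 + 1 → m2 ≤ t + 1 → (s ≠ m1 ∨ t ≠ m2) →
      Rch (U \ {(m1, m2)}) (s, t) (m1 - 1, m2 - 1) := by
    intro s t g1 g2 g3 g4 g5
    have hbot : ∀ s', s' ≤ m1 + 1 → m1 ≤ s' + 1 →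
        Rch (U \ {(m1, m2)}) (s', m2 - 1) (m1 - 1, m2 - 1) := by
      intro s' k1 k2
      exact rch_row fun t' k3 k4 => hr _ _ (by omega) (by omega) (by omega) (by omega) (by omega)
    by_cases hs : s = m1
    · by_cases ht : t + 1 = m2
      · have : t = m2 - 1 := by omega
        rw [this]
        exact hbot _ g1 g2
      · have ht' : t = m2 + 1 := by omega
        refine (rch_row (x' := m1 - 1) (fun t' k3 k4 => ?_)).trans
          (rch_col (fun t' k3 k4 => ?_))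
        · exact hr _ _ (by omega) (by omega) (by omega) (by omega) (by omega)
        · exact hr _ _ (by omega) (by omega) (by omega) (by omega) (by omega)
    · refine (rch_col (y' := m2 - 1) (fun t' k3 k4 => ?_)).trans (hbot _ g1 g2)
      exact hr _ _ (by omega) (by omega) (by omega) (by omega) (by omega)
  have hnb : ∀ v : ℕ × ℕ, Adj v (m1, m2) → Rch (U \ {(m1, m2)}) v (m1 - 1, m2 - 1) := by
    rintro ⟨v1, v2⟩ hv
    unfold Adj at hv
    simp only at hv
    exact hc _ _ (by omega) (by omega) (by omega) (by omega) (by omega)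
  rintro a ⟨ha, ham⟩ b ⟨hb, hbm⟩
  have key : ∀ c, Rch U a c → (c ≠ (m1, m2) → Rch (U \ {(m1, m2)}) a c) ∧
      (c = (m1, m2) → Rch (U \ {(m1, m2)}) a (m1 - 1, m2 - 1)) := by
    intro c hac
    induction hac with
    | refl =>
      exact ⟨fun _ => Relation.ReflTransGen.refl, fun h => absurd h ham⟩
    | @tail c c' _ hcc ih =>
      obtain ⟨hadj, hcU, hcU'⟩ := hcc
      obtain ⟨ih1, ih2⟩ := ih
      constructor
      · intro hne
        by_cases hcm : c = (m1, m2)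
        · have h3 := ih2 hcm
          have h4 : Adj c' (m1, m2) := by rw [← hcm]; exact hadj.symm
          exact h3.trans (hnb c' h4).symm
        · exact (ih1 hcm).tail ⟨hadj, ⟨hcU, hcm⟩, ⟨hcU', hne⟩⟩
      · intro heq
        by_cases hcm : c = (m1, m2)
        · exact ih2 hcm
        · have h4 : Adj c (m1, m2) := by rw [← heq]; exact hadj
          exact (ih1 hcm).trans (hnb c h4)
  exact (key b (hU a ha b hb)).1 hbm

/-- A rectangle without a sparse set is connected. -/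
lemma rch_sparse {x y a b : ℕ} (ha : 1 ≤ a) (hb : 1 ≤ b) (M : Finset (ℕ × ℕ))
    (hsp : Spr 3 (M : Set (ℕ × ℕ)))
    (hin : ∀ m ∈ M, x + 1 ≤ m.1 ∧ m.1 + 2 ≤ x + a ∧ y + 1 ≤ m.2 ∧ m.2 + 2 ≤ y + b) :
    ∀ u ∈ rect x y a b \ (M : Set (ℕ × ℕ)), ∀ v ∈ rect x y a b \ (M : Set (ℕ × ℕ)),
      Rch (rect x y a b \ (M : Set (ℕ × ℕ))) u v := by
  classical
  induction M using Finset.induction_on with
  | empty =>
    simp only [Finset.coe_empty, sdiff_empty]
    exact (rect_conn ha hb).2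
  | @insert m M' hm ih =>
    have h1 := ih (fun v hv w hw => hsp v (by simp [Finset.mem_coe.1 hv]) w
      (by simp [Finset.mem_coe.1 hw])) (fun m' hm' => hin m' (Finset.mem_insert_of_mem hm'))
    have e : rect x y a b \ ((insert m M' : Finset (ℕ × ℕ)) : Set (ℕ × ℕ)) =
        (rect x y a b \ (M' : Set (ℕ × ℕ))) \ {m} := by
      ext v
      simp only [Finset.coe_insert, mem_sdiff, mem_insert_iff, mem_singleton_iff, not_or]
      tauto
    rw [e]
    have h2 := hin m (Finset.mem_insert_self _ _)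
    refine rch_erase (by omega) (by omega) ?_ h1
    intro v g1 g2 g3 g4 hne
    refine ⟨by rw [Gad.mem_rct]; omega, fun hv => ?_⟩
    have h3 := hsp v (by simp [Finset.mem_coe.1 hv]) m (by simp) hne
    unfold Apart at h3
    omega

lemma vconn_of_rch {α : Type*} {S : Set α} {ends : α → Sym2 (ℕ × ℕ)} {A : Set (ℕ × ℕ)}
    (hG : CWL.GrdU S ends A) (h : ∀ u ∈ A, ∀ v ∈ A, Rch A u v) : VConn S ends A := by
  intro u hu v hv
  have h1 := h u hu v hv
  induction h1 with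
  | refl => exact Relation.ReflTransGen.refl
  | @tail b c hb hbc ih =>
    obtain ⟨hadj, hbA, hcA⟩ := hbc
    refine (ih hbA).tail ⟨?_, hbA, hcA⟩
    exact hG.surj b c hadj hbA hcA

end DA
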