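import Pool.Agent.DA.StarC
import Pool.Agent.DA.Sparse
import Pool.Agent.DA.GlW

/-!
# Row WQ: from the brick wall to a plain rectangle
-/

open Set BIC BICS
open scoped Matroid

namespace DA

open Gad

universe u

section generic

variable {α V W : Type*}

/-- A full set from an injective choice of elements. -/
lemma full_of_choice {S : Set α} {ends : α → Sym2 V} {U : Set V} (g : V → α)
    (h1 : ∀ v ∈ U, g v ∈ ins S ends U) (h2 : ∀ v ∈ U, v ∈ ends (g v)) (h3 : InjOn g U) :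
    ∃ F, FullB S ends U F := by
  classical
  rcases U.eq_empty_or_nonempty with rfl | ⟨v₀, hv₀⟩
  · exact ⟨∅, FullB.empty⟩
  have : Nonempty V := ⟨v₀⟩
  refine ⟨g '' U, ?_, Function.invFunOn g U, ?_, ?_⟩
  · rintro _ ⟨v, hv, rfl⟩
    exact h1 v hv
  · refine ⟨?_, ?_, ?_⟩
    · rintro _ ⟨v, hv, rfl⟩
      exact Function.invFunOn_mem ⟨v, hv, rfl⟩
    · rintro _ ⟨v, hv, rfl⟩ _ ⟨v', hv', rfl⟩ he
      rw [h3.leftInvOn_invFunOn hv, h3.leftInvOn_invFunOn hv'] at he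
      rw [he]
    · intro v hv
      exact ⟨g v, ⟨v, hv, rfl⟩, h3.leftInvOn_invFunOn hv⟩
  · rintro _ ⟨v, hv, rfl⟩
    rw [h3.leftInvOn_invFunOn hv]
    exact h2 v hv

/-- A full set from a function without 2-cycles. -/
lemma full_of_nb {S : Set α} {ends : α → Sym2 V} {U : Set V} (nb : V → V)
    (h1 : ∀ v ∈ U, nb v ∈ U ∧ ∃ e ∈ S, ends e = s(v, nb v)) (h2 : ∀ v ∈ U, nb (nb v) ≠ v) :
    ∃ F, FullB S ends U F := by
  classical
  rcases U.eq_empty_or_nonempty with rfl | ⟨v₀, hv₀⟩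
  · exact ⟨∅, FullB.empty⟩
  obtain ⟨e₀, _, _⟩ := (h1 v₀ hv₀).2
  have : Nonempty α := ⟨e₀⟩
  have h3 : ∀ v, ∃ e : α, v ∈ U → e ∈ S ∧ ends e = s(v, nb v) := by
    intro v
    by_cases hv : v ∈ U
    · obtain ⟨e, he, hee⟩ := (h1 v hv).2
      exact ⟨e, fun _ => ⟨he, hee⟩⟩
    · exact ⟨e₀, fun h => absurd h hv⟩
  choose g hg using h3
  refine full_of_choice g ?_ ?_ ?_
  · intro v hv
    refine ⟨(hg v hv).1, fun w hw => ?_⟩
    rw [(hg v hv).2, Sym2.mem_iff] at hw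
    rcases hw with rfl | rfl
    · exact hv
    · exact (h1 v hv).1
  · intro v hv
    rw [(hg v hv).2]
    simp
  · intro v hv v' hv' he
    have h4 := (hg v hv).2
    rw [he, (hg v' hv').2, Sym2.eq_iff] at h4
    rcases h4 with ⟨h4, _⟩ | ⟨h4, h5⟩
    · exact h4.symm
    · exfalso
      apply h2 v hv
      rw [← h4]
      exact h5

/-- A full set of the quotient lifts. -/
theorem Star.full {S S' : Set α} {ends : α → Sym2 V} {A : Set V} {ρ : V → W} {c : W → V}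
    {ζ : V → α} (h : Star S ends A ρ c ζ) (hSA : ∀ e ∈ S, ∀ v ∈ ends e, v ∈ A)
    (hS' : S' ⊆ S \ (ζ '' lvs A ρ c)) {Q : Set W} {F : Set α}
    (hfull : FullB S' (fun e => (ends e).map ρ) Q F) :
    ∃ F₁, FullB S ends {v | v ∈ A ∧ ρ v ∈ Q} F₁ := by
  classical
  obtain ⟨h1, φ, h2, h3⟩ := hfull
  rcases Q.eq_empty_or_nonempty with rfl | ⟨q₀, hq₀⟩
  · refine ⟨∅, ?_⟩
    have : {v | v ∈ A ∧ ρ v ∈ (∅ : Set W)} = ∅ := by ext; simp
    rw [this]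
    exact FullB.empty
  -- the element of a class
  have h4 : ∀ q : W, ∃ (e : α) (u : V), q ∈ Q → e ∈ F ∧ φ e = q ∧ u ∈ ends e ∧ ρ u = q := by
    obtain ⟨e₀, he₀, _⟩ := h2.surjOn hq₀
    have h5 := h3 e₀ he₀
    rw [Sym2.mem_map] at h5
    obtain ⟨u₀, _, _⟩ := h5
    intro q
    by_cases hq : q ∈ Q
    · obtain ⟨e, he, heq⟩ := h2.surjOn hq
      have h5 := h3 e he
      rw [Sym2.mem_map] at h5
      obtain ⟨u, hu, hu2⟩ := h5
      exact ⟨e, u, fun _ => ⟨he, heq, hu, by rw [hu2, heq]⟩⟩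
    · exact ⟨e₀, u₀, fun hq' => absurd hq' hq⟩
  choose eq uq h5 using h4
  have hFS : ∀ q ∈ Q, eq q ∈ S ∧ eq q ∉ ζ '' lvs A ρ c := fun q hq => hS' (h1 (h5 q hq).1).1
  have huA : ∀ q ∈ Q, uq q ∈ A := fun q hq => hSA _ (hFS q hq).1 _ (h5 q hq).2.2.1
  have hcl : ∀ v, v ∈ A → ∀ w, ρ w = ρ v → w ∈ A → w ≠ c (ρ v) → w ∈ lvs A ρ c ∧
      ends (ζ w) = s(w, c (ρ v)) := by
    intro v hv w hw hwA hne
    rw [← hw] at hne ⊢
    exact ⟨⟨hwA, hne⟩, h.ζe w hwA hne⟩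
  refine full_of_choice (fun v => if v = uq (ρ v) then eq (ρ v) else
    if v = c (ρ v) then ζ (uq (ρ v)) else ζ v) ?_ ?_ ?_
  · rintro v ⟨hv, hvQ⟩
    split_ifs with g1 g2
    · refine ⟨(hFS _ hvQ).1, fun w hw => ⟨hSA _ (hFS _ hvQ).1 w hw, ?_⟩⟩
      exact (h1 (h5 _ hvQ).1).2 (ρ w) (Sym2.mem_map.2 ⟨w, hw, rfl⟩)
    · have hne : uq (ρ v) ≠ c (ρ v) := fun hh => g1 (by rw [hh]; exact g2)
      obtain ⟨g3, g4⟩ := hcl v hv (uq (ρ v)) (h5 _ hvQ).2.2.2 (huA _ hvQ) hne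
      refine ⟨h.ζS _ g3.1 g3.2, fun w hw => ?_⟩
      rw [g4, Sym2.mem_iff] at hw
      rcases hw with rfl | rfl
      · exact ⟨huA _ hvQ, by rw [(h5 _ hvQ).2.2.2]; exact hvQ⟩
      · exact ⟨h.cA v hv, by rw [h.cρ v hv]; exact hvQ⟩
    · obtain ⟨g3, g4⟩ := hcl v hv v rfl hv g2
      refine ⟨h.ζS _ g3.1 g3.2, fun w hw => ?_⟩
      rw [g4, Sym2.mem_iff] at hw
      rcases hw with rfl | rfl
      · exact ⟨hv, hvQ⟩
      · exact ⟨h.cA v hv, by rw [h.cρ v hv]; exact hvQ⟩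
  · rintro v ⟨hv, hvQ⟩
    split_ifs with g1 g2
    · have := (h5 _ hvQ).2.2.1
      rwa [← g1] at this
    · have hne : uq (ρ v) ≠ c (ρ v) := fun hh => g1 (by rw [hh]; exact g2)
      obtain ⟨g3, g4⟩ := hcl v hv (uq (ρ v)) (h5 _ hvQ).2.2.2 (huA _ hvQ) hne
      rw [g4, ← g2]
      simp
    · obtain ⟨g3, g4⟩ := hcl v hv v rfl hv g2
      rw [g4]
      simp
  · -- injectivity: every value determines the vertex
    have hζF : ∀ q ∈ Q, ∀ w ∈ lvs A ρ c, eq q ≠ ζ w := fun q hq w hw he =>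
      (hFS q hq).2 ⟨w, hw, he.symm⟩
    have heq : ∀ q ∈ Q, ∀ q' ∈ Q, eq q = eq q' → q = q' := by
      intro q hq q' hq' he
      rw [← (h5 q hq).2.1, ← (h5 q' hq').2.1, he]
    have key2 : ∀ v, v ∈ A → ρ v ∈ Q → ¬ v = uq (ρ v) → v = c (ρ v) →
        uq (ρ v) ∈ lvs A ρ c ∧ ρ (uq (ρ v)) = ρ v := by
      intro v hv hvQ g1 g2
      have hne : uq (ρ v) ≠ c (ρ v) := fun hh => g1 (by rw [hh]; exact g2)
      exact ⟨(hcl v hv (uq (ρ v)) (h5 _ hvQ).2.2.2 (huA _ hvQ) hne).1, (h5 _ hvQ).2.2.2⟩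
    rintro v ⟨hv, hvQ⟩ v' ⟨hv', hvQ'⟩ he
    simp only at he
    split_ifs at he with g1 g2 g3 g4 g5 g6 g7 g8
    · have := heq _ hvQ _ hvQ' he
      rw [g1, g2, this]
    · exact absurd he (hζF _ hvQ _ (key2 v' hv' hvQ' g2 g3).1)
    · exact absurd he (hζF _ hvQ _ ⟨hv', g3⟩)
    · exact absurd he.symm (hζF _ hvQ' _ (key2 v hv hvQ g1 g4).1)
    · have k1 := key2 v hv hvQ g1 g4
      have k2 := key2 v' hv' hvQ' g5 g6
      have k3 := h.inj k1.1 k2.1 he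
      have k4 : ρ v = ρ v' := by rw [← k1.2, ← k2.2, k3]
      rw [g4, g6, k4]
    · have k1 := key2 v hv hvQ g1 g4
      have k3 := h.inj k1.1 ⟨hv', g6⟩ he
      have k4 : ρ v = ρ v' := by rw [← k1.2, k3]
      exact absurd (by rw [← k4]; exact k3.symm) g5
    · exact absurd he.symm (hζF _ hvQ' _ ⟨hv, g4⟩)
    · have k2 := key2 v' hv' hvQ' g7 g8
      have k3 := h.inj ⟨hv, g4⟩ k2.1 he
      have k4 : ρ v = ρ v' := by rw [← k2.2, ← k3]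
      exact absurd (by rw [k4]; exact k3) g1
    · exact h.inj ⟨hv, g4⟩ ⟨hv', g8⟩ he

/-- Connectivity lifts. -/
theorem Star.vconn {S S' : Set α} {ends : α → Sym2 V} {A : Set V} {ρ : V → W} {c : W → V}
    {ζ : V → α} (h : Star S ends A ρ c ζ) (hSA : ∀ e ∈ S, ∀ v ∈ ends e, v ∈ A) (hS' : S' ⊆ S)
    (hc : VConn S' (fun e => (ends e).map ρ) (ρ '' A)) : VConn S ends A := by
  classical
  set R := fun x y => GAdj S ends x y ∧ x ∈ A ∧ y ∈ A with hR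
  have hRs : ∀ x y, R x y → R y x := fun x y hxy => ⟨hxy.1.symm, hxy.2.2, hxy.2.1⟩
  have hsym : ∀ x y, Relation.ReflTransGen R x y → Relation.ReflTransGen R y x := by
    intro x y hxy
    induction hxy with
    | refl => exact Relation.ReflTransGen.refl
    | tail _ h2 ih => exact Relation.ReflTransGen.head (hRs _ _ h2) ih
  have hcen : ∀ v ∈ A, Relation.ReflTransGen R v (c (ρ v)) := by
    intro v hv
    by_cases hvc : v = c (ρ v)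
    · rw [← hvc]
    · exact Relation.ReflTransGen.single ⟨⟨ζ v, h.ζS v hv hvc, h.ζe v hv hvc⟩, hv, h.cA v hv⟩
  have hq : ∀ q q', Relation.ReflTransGen (fun x y => GAdj S' (fun e => (ends e).map ρ) x y ∧
      x ∈ ρ '' A ∧ y ∈ ρ '' A) q q' → Relation.ReflTransGen R (c q) (c q') := by
    intro q q' hqq
    induction hqq with
    | refl => exact Relation.ReflTransGen.refl
    | @tail b d _ h2 ih =>
      refine ih.trans ?_
      obtain ⟨⟨e, he, hee⟩, _, _⟩ := h2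
      have h3 : ∃ x y, ends e = s(x, y) ∧ ρ x = b ∧ ρ y = d := by
        induction hx : ends e with
        | _ x y =>
          simp only at hee
          rw [hx, Sym2.map_mk, Sym2.eq_iff] at hee
          rcases hee with ⟨h4, h5⟩ | ⟨h4, h5⟩
          · exact ⟨x, y, rfl, h4, h5⟩
          · exact ⟨y, x, Sym2.eq_swap, h5, h4⟩
      obtain ⟨x, y, hxy, hx, hy⟩ := h3
      have hxA : x ∈ A := hSA e (hS' he) x (by rw [hxy]; simp)
      have hyA : y ∈ A := hSA e (hS' he) y (by rw [hxy]; simp)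
      have h4 := hsym _ _ (hcen x hxA)
      have h5 := hcen y hyA
      rw [hx] at h4
      rw [hy] at h5
      exact (h4.tail ⟨⟨e, hS' he, hxy⟩, hxA, hyA⟩).trans h5
  intro u hu v hv
  exact (hcen u hu).trans ((hq _ _ (hc _ ⟨u, hu, rfl⟩ _ ⟨v, hv, rfl⟩)).trans (hsym _ _ (hcen v hv)))

end generic

/-! ### fullness of a rectangle with holes -/

open Classical in
/-- the orientation -/
noncomputable def nbh (a b : ℕ) (T : Set (ℕ × ℕ)) (v : ℕ × ℕ) : ℕ × ℕ :=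
  if v.2 + 1 = b then (if v.1 = 0 then (v.1, v.2 - 1) else (v.1 - 1, v.2)) else
    if v.1 + 1 = a then (v.1, v.2 + 1) else
      if (v.1 + 1, v.2) ∈ T then (if (v.1, v.2 + 1) ∈ T then (v.1, v.2 - 1) else (v.1, v.2 + 1))
        else (v.1 + 1, v.2)

/-- A rectangle without a sparse set of vertices (at most two of them close together) is full. -/
theorem full_holes {α : Type*} {S : Set α} {ends : α → Sym2 (ℕ × ℕ)} {a b : ℕ}
    {T : Set (ℕ × ℕ)} (hP : Pres S ends (rect 0 0 a b \ T)) (ha : 6 ≤ a) (hb : 6 ≤ b)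
    (hT : ∀ t ∈ T, 2 ≤ t.1 ∧ t.1 + 3 ≤ a ∧ 2 ≤ t.2 ∧ t.2 + 3 ≤ b)
    (h3 : ∀ t₁ ∈ T, ∀ t₂ ∈ T, ∀ t₃ ∈ T, t₁ ≠ t₂ → t₁ ≠ t₃ → t₂ ≠ t₃ → sd t₁ t₂ ≤ 3 → sd t₁ t₃ ≤ 3 →
      sd t₂ t₃ ≤ 3 → False) : ∃ F, FullB S ends (rect 0 0 a b \ T) F := by
  classical
  have q3 : ∀ x₁ z₁ x₂ z₂ x₃ z₃ : ℕ, (x₁, z₁) ∈ T → (x₂, z₂) ∈ T → (x₃, z₃) ∈ T →
      (x₁ ≠ x₂ ∨ z₁ ≠ z₂) → (x₁ ≠ x₃ ∨ z₁ ≠ z₃) → (x₂ ≠ x₃ ∨ z₂ ≠ z₃) →
      x₁ ≤ x₂ + 3 → x₂ ≤ x₁ + 3 → x₁ ≤ x₃ + 3 → x₃ ≤ x₁ + 3 → x₂ ≤ x₃ + 3 → x₃ ≤ x₂ + 3 →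
      z₁ ≤ z₂ + 3 → z₂ ≤ z₁ + 3 → z₁ ≤ z₃ + 3 → z₃ ≤ z₁ + 3 → z₂ ≤ z₃ + 3 → z₃ ≤ z₂ + 3 →
      False := by
    intro x₁ z₁ x₂ z₂ x₃ z₃ m1 m2 m3 n1 n2 n3 _ _ _ _ _ _ _ _ _ _ _ _
    refine h3 _ m1 _ m2 _ m3 ?_ ?_ ?_ ?_ ?_ ?_
    · rw [ne_eq, Prod.mk.injEq]; omega
    · rw [ne_eq, Prod.mk.injEq]; omega
    · rw [ne_eq, Prod.mk.injEq]; omega
    · unfold sd; simp only; omega
    · unfold sd; simp only; omega
    · unfold sd; simp only; omega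
  have hTc : ∀ x z, (x, z) ∈ T → 2 ≤ x ∧ x + 3 ≤ a ∧ 2 ≤ z ∧ z + 3 ≤ b := fun x z h => hT _ h
  have hin : ∀ v ∈ rect 0 0 a b \ T, nbh a b T v ∈ rect 0 0 a b \ T ∧ Adj v (nbh a b T v) := by
    rintro ⟨x, z⟩ ⟨hv, hvT⟩
    rw [Gad.mem_rct] at hv
    simp only at hv
    unfold nbh
    simp only
    split_ifs with g1 g2 g3 g4 g5
    · refine ⟨⟨by rw [Gad.mem_rct]; simp only; omega, fun h => ?_⟩, by unfold Adj; dsimp only; omega⟩
      have := hTc _ _ h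
      omega
    · refine ⟨⟨by rw [Gad.mem_rct]; simp only; omega, fun h => ?_⟩, by unfold Adj; dsimp only; omega⟩
      have := hTc _ _ h
      omega
    · refine ⟨⟨by rw [Gad.mem_rct]; simp only; omega, fun h => ?_⟩, by unfold Adj; dsimp only; omega⟩
      have := hTc _ _ h
      omega
    · have h4 := hTc _ _ g4
      refine ⟨⟨by rw [Gad.mem_rct]; simp only; omega, fun h => ?_⟩, by unfold Adj; dsimp only; omega⟩
      exact q3 _ _ _ _ _ _ g4 g5 h (by omega) (by omega) (by omega) (by omega) (by omega)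
        (by omega) (by omega) (by omega) (by omega) (by omega) (by omega) (by omega) (by omega)
        (by omega) (by omega)
    · exact ⟨⟨by rw [Gad.mem_rct]; simp only; omega, g5⟩, by unfold Adj; dsimp only; omega⟩
    · exact ⟨⟨by rw [Gad.mem_rct]; simp only; omega, g4⟩, by unfold Adj; dsimp only; omega⟩
  refine full_of_nb (nbh a b T) (fun v hv => ⟨(hin v hv).1, hP _ _ (hin v hv).2 hv (hin v hv).1⟩) ?_
  rintro ⟨x, z⟩ ⟨hv, hvT⟩ heq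
  rw [Gad.mem_rct] at hv
  simp only at hv
  obtain ⟨⟨x', z'⟩, hx'⟩ : ∃ v', nbh a b T (x, z) = v' := ⟨_, rfl⟩
  rw [hx'] at heq
  have h4 : ∀ v : ℕ × ℕ, (v.2 + 1 = b ∧ v.1 = 0 ∧ nbh a b T v = (v.1, v.2 - 1)) ∨
      (v.2 + 1 = b ∧ v.1 ≠ 0 ∧ nbh a b T v = (v.1 - 1, v.2)) ∨
      (v.2 + 1 ≠ b ∧ v.1 + 1 = a ∧ nbh a b T v = (v.1, v.2 + 1)) ∨
      ((1 ≤ v.1 ∧ v.1 + 4 ≤ a ∧ 2 ≤ v.2 ∧ v.2 + 3 ≤ b) ∧ (v.1 + 1, v.2) ∈ T ∧
        (v.1, v.2 + 1) ∈ T ∧ nbh a b T v = (v.1, v.2 - 1)) ∨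
      ((1 ≤ v.1 ∧ v.1 + 4 ≤ a ∧ 2 ≤ v.2 ∧ v.2 + 3 ≤ b) ∧ (v.1 + 1, v.2) ∈ T ∧
        (v.1, v.2 + 1) ∉ T ∧ nbh a b T v = (v.1, v.2 + 1)) ∨
      (v.2 + 1 ≠ b ∧ v.1 + 1 ≠ a ∧ nbh a b T v = (v.1 + 1, v.2)) := by
    intro v
    unfold nbh
    split_ifs with g1 g2 g3 g4 g5
    · exact Or.inl ⟨g1, g2, rfl⟩
    · exact Or.inr (Or.inl ⟨g1, g2, rfl⟩)
    · exact Or.inr (Or.inr (Or.inl ⟨g1, g3, rfl⟩))
    · have := hTc _ _ g4
      exact Or.inr (Or.inr (Or.inr (Or.inl ⟨by omega, g4, g5, rfl⟩)))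
    · have := hTc _ _ g4
      exact Or.inr (Or.inr (Or.inr (Or.inr (Or.inl ⟨by omega, g4, g5, rfl⟩))))
    · exact Or.inr (Or.inr (Or.inr (Or.inr (Or.inr ⟨g1, g3, rfl⟩))))
  have k1 := h4 (x, z)
  have k2 := h4 (x', z')
  rw [hx'] at k1
  rw [heq] at k2
  simp only [Prod.mk.injEq] at k1 k2
  rcases k1 with ⟨a1, a2, a3, a4⟩ | ⟨a1, a2, a3, a4⟩ | ⟨a1, a2, a3, a4⟩ | ⟨a1, a5, a6, a3, a4⟩ |
    ⟨a1, a5, a6, a3, a4⟩ | ⟨a1, a2, a3, a4⟩ <;>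
  rcases k2 with ⟨b1, b2, b3, b4⟩ | ⟨b1, b2, b3, b4⟩ | ⟨b1, b2, b3, b4⟩ | ⟨b1, b5, b6, b3, b4⟩ |
    ⟨b1, b5, b6, b3, b4⟩ | ⟨b1, b2, b3, b4⟩ <;>
  first
  | omega
  | exact q3 _ _ _ _ _ _ a5 a6 b5 (by omega) (by omega) (by omega) (by omega) (by omega)
        (by omega) (by omega) (by omega) (by omega) (by omega) (by omega) (by omega) (by omega)
        (by omega) (by omega)
  | exact q3 _ _ _ _ _ _ a5 b5 b6 (by omega) (by omega) (by omega) (by omega) (by omega)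
        (by omega) (by omega) (by omega) (by omega) (by omega) (by omega) (by omega) (by omega)
        (by omega) (by omega)

lemma full_congr {α V : Type*} {S : Set α} {f g : α → Sym2 V} (h : ∀ e ∈ S, f e = g e)
    {U : Set V} {F : Set α} (hF : FullB S f U F) : FullB S g U F := by
  obtain ⟨h1, φ, h2, h3⟩ := hF
  refine ⟨fun e he => ⟨(h1 he).1, fun v hv => (h1 he).2 v ?_⟩, φ, h2, fun e he => ?_⟩
  · rw [h e (h1 he).1]
    exact hv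
  · rw [← h e (h1 he).1]
    exact h3 e he

lemma vconn_congr' {α V : Type*} {S : Set α} {f g : α → Sym2 V} (h : ∀ e ∈ S, f e = g e)
    {U : Set V} (hU : VConn S f U) : VConn S g U := by
  intro u hu v hv
  refine Relation.ReflTransGen.mono ?_ _ _ (hU u hu v hv)
  rintro x y ⟨⟨e, he, hee⟩, hx, hy⟩
  exact ⟨⟨e, he, by rw [← h e he]; exact hee⟩, hx, hy⟩

lemma bic_congr' {α V : Type*} {M : Matroid α} {S : Set α} {f g : α → Sym2 V}
    (h : ∀ e ∈ S, f e = g e) (hB : Bic M S f) : Bic M S g := by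
  refine ⟨hB.sub, fun F φ hF hφ hφe => hB.ind F φ hF hφ fun e he => ?_, fun W => ?_⟩
  · rw [h e (hF he)]
    exact hφe e he
  · have h1 : ins S g W = ins S f W := by
      ext e
      refine and_congr_right fun he => ?_
      rw [h e he]
    rw [h1]
    exact hB.rk W

/-- The data of row WQ. -/
structure Dt (w i a : ℕ) (K : Finset (ℕ × ℕ)) (τ : ℕ × ℕ → ℕ × ℕ) (miss : Set (Sym2 (ℕ × ℕ))) :
    Prop where
  hi : i ≤ 1
  hw : 40 ≤ w
  ha : a = (w + 1 - i) / 2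
  tgt : Tgt i (K : Set (ℕ × ℕ)) τ
  deep : ∀ m z, (m, z) ∈ K → 10 ≤ m ∧ 10 ≤ z ∧ m + 10 ≤ a ∧ z + 10 ≤ w + 1
  sep : ∀ m z m' z', (m, z) ∈ K → (m', z') ∈ K → (m = m' ∧ z = z') ∨ m + 10 < m' ∨
      m' + 10 < m ∨ z + 10 < z' ∨ z' + 10 < z
  mis : ∀ p q, s(p, q) ∈ miss → (pw i p ∈ K ∧ τ p ≠ q) ∨ (pw i q ∈ K ∧ τ q ≠ p)

section dt

variable {w i a : ℕ} {K : Finset (ℕ × ℕ)} {τ : ℕ × ℕ → ℕ × ℕ} {miss : Set (Sym2 (ℕ × ℕ))}

lemma Dt.num (h : Dt w i a K τ miss) : i ≤ 1 ∧ 40 ≤ w ∧ 2 * a + i ≤ w + 1 ∧ w ≤ 2 * a + i ∧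
    19 ≤ a := by
  have h1 := h.hi
  have h2 := h.hw
  have h3 := h.ha
  omega

lemma Dt.half (h : Dt w i a K τ miss) (x z : ℕ) (hk : pw i (x, z) ∈ K) :
    ∃ m tx tz, τ (x, z) = (tx, tz) ∧ (m, z) ∈ K ∧ (x = 2 * m + i ∨ x = 2 * m + i + 1) ∧
      ((tx = x ∧ (x + z) % 2 = 0 ∧ tz = z + 1) ∨ (tx = x ∧ (x + z) % 2 = 1 ∧ tz + 1 = z) ∨
        (tz = z ∧ x = 2 * m + i ∧ tx + 1 = x) ∨ (tz = z ∧ x = 2 * m + i + 1 ∧ tx = x + 1)) := by
  obtain ⟨⟨tx, tz⟩, ht⟩ : ∃ t, τ (x, z) = t := ⟨_, rfl⟩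
  have h1 := h.tgt (x, z) (Finset.mem_coe.2 hk)
  have h2 : pw i (x, z) = ((x - i) / 2, z) := rfl
  have hi := h.hi
  rw [h2] at hk
  have h3 := h.deep _ _ hk
  refine ⟨(x - i) / 2, tx, tz, ht, hk, by omega, ?_⟩
  rw [ht] at h1
  unfold vn at h1
  simp only at h1
  rcases h1 with h1 | ⟨h4, h1⟩ | ⟨h4, h1⟩
  · split_ifs at h1 with h5
    · rw [Prod.mk.injEq] at h1
      omega
    · rw [Prod.mk.injEq] at h1
      omega
  · rw [Prod.mk.injEq] at h1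
    omega
  · rw [Prod.mk.injEq] at h1
    omega

lemma Dt.notK (h : Dt w i a K τ miss) (v : ℕ × ℕ) (hk : pw i v ∈ K) : pw i (τ v) ∉ K := by
  obtain ⟨x, z⟩ := v
  intro h'
  obtain ⟨m, tx, tz, h1, h2, h3, h4⟩ := h.half x z hk
  rw [h1] at h'
  have h5 : pw i (tx, tz) = ((tx - i) / 2, tz) := rfl
  rw [h5] at h'
  have h6 := h.sep _ _ _ _ h2 h'
  have h7 := h.deep _ _ h2
  have hi := h.hi
  omega

lemma Dt.uniq (h : Dt w i a K τ miss) (v v' : ℕ × ℕ) (hk : pw i v ∈ K) (hk' : pw i v' ∈ K)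
    (he : pw i (τ v) = pw i (τ v')) : v = v' := by
  obtain ⟨x, z⟩ := v
  obtain ⟨x', z'⟩ := v'
  obtain ⟨m, tx, tz, h1, h2, h3, h4⟩ := h.half x z hk
  obtain ⟨m', tx', tz', h1', h2', h3', h4'⟩ := h.half x' z' hk'
  rw [h1, h1'] at he
  have h5 : ((tx - i) / 2, tz) = ((tx' - i) / 2, tz') := he
  rw [Prod.mk.injEq] at h5 ⊢
  have h6 := h.sep _ _ _ _ h2 h2'
  have h7 := h.deep _ _ h2
  have hi := h.hi
  omega

open Classical in
/-- the class of a vertex -/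
noncomputable def rw' (i a : ℕ) (K : Finset (ℕ × ℕ)) (τ : ℕ × ℕ → ℕ × ℕ) (v : ℕ × ℕ) : ℕ × ℕ :=
  if pw i v ∈ K then pw i (τ v) else (min ((v.1 - i) / 2) (a - 1), v.2)

open Classical in
/-- the centre of a class -/
noncomputable def cw' (i : ℕ) (K : Finset (ℕ × ℕ)) (τ : ℕ × ℕ → ℕ × ℕ) (b : ℕ × ℕ) : ℕ × ℕ :=
  if h : ∃ v, pw i v ∈ K ∧ pw i (τ v) = b then τ h.choose else
    (if b.1 = 0 then (i, b.2) else (2 * b.1 + i + 1, b.2))

lemma rw_half {v : ℕ × ℕ} (h : pw i v ∈ K) : rw' i a K τ v = pw i (τ v) := by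
  unfold rw'
  rw [if_pos h]

lemma rw_none {x z : ℕ} (h : pw i (x, z) ∉ K) :
    rw' i a K τ (x, z) = (min ((x - i) / 2) (a - 1), z) := by
  unfold rw'
  rw [if_neg h]

lemma Dt.cw_half (h : Dt w i a K τ miss) {v : ℕ × ℕ} (hk : pw i v ∈ K) :
    cw' i K τ (pw i (τ v)) = τ v := by
  have h1 : ∃ v', pw i v' ∈ K ∧ pw i (τ v') = pw i (τ v) := ⟨v, hk, rfl⟩
  unfold cw'
  rw [dif_pos h1]
  have h2 := h1.choose_spec
  rw [h.uniq _ v h2.1 hk h2.2]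

lemma cw_none {m z : ℕ} (h : ¬ ∃ v, pw i v ∈ K ∧ pw i (τ v) = (m, z)) :
    (m = 0 ∧ cw' i K τ (m, z) = (i, z)) ∨ (m ≠ 0 ∧ cw' i K τ (m, z) = (2 * m + i + 1, z)) := by
  unfold cw'
  rw [dif_neg h]
  by_cases h1 : m = 0
  · left
    exact ⟨h1, by rw [if_pos h1]⟩
  · right
    exact ⟨h1, by rw [if_neg h1]⟩

lemma Dt.mis' (h : Dt w i a K τ miss) {p q : ℕ × ℕ} (hm : s(p, q) ∈ miss) (h1 : pw i p ∉ K)
    (h2 : pw i q ∉ K) : False := by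
  rcases h.mis p q hm with h3 | h3
  · exact h1 h3.1
  · exact h2 h3.1

lemma mem_wA {x z : ℕ} : (x, z) ∈ rect 0 0 (w + 1) (w + 1) ↔ x ≤ w ∧ z ≤ w := by
  rw [Gad.mem_rct]
  simp only
  omega

/-- the star forest, combinatorially -/
lemma Dt.star (h : Dt w i a K τ miss) (v : ℕ × ℕ) (hv : v ∈ rect 0 0 (w + 1) (w + 1)) :
    cw' i K τ (rw' i a K τ v) ∈ rect 0 0 (w + 1) (w + 1) ∧
      rw' i a K τ (cw' i K τ (rw' i a K τ v)) = rw' i a K τ v ∧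
      (v ≠ cw' i K τ (rw' i a K τ v) → wadj v (cw' i K τ (rw' i a K τ v)) ∧
        s(v, cw' i K τ (rw' i a K τ v)) ∉ miss) := by
  obtain ⟨x, z⟩ := v
  rw [mem_wA] at hv
  obtain ⟨n1, n2, n3, n4, n5⟩ := h.num
  by_cases hk : pw i (x, z) ∈ K
  · obtain ⟨m, tx, tz, h1, h2, h3, h4⟩ := h.half x z hk
    have h5 := h.deep _ _ h2
    have h6 := h.notK _ hk
    have h7 := h.mis (x, z) (tx, tz)
    rw [rw_half hk, h.cw_half hk]
    rw [h1] at h6 ⊢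
    refine ⟨by rw [mem_wA]; omega, ?_, fun _ => ⟨?_, ?_⟩⟩
    · rw [rw_none h6]
      unfold pw
      simp only [Prod.mk.injEq, and_true]
      omega
    · unfold wadj
      dsimp only
      omega
    · intro hm
      rcases h7 hm with h8 | h8
      · exact h8.2 h1
      · exact h6 h8.1
  · obtain ⟨m, hm⟩ : ∃ m, m = min ((x - i) / 2) (a - 1) := ⟨_, rfl⟩
    have hρv : rw' i a K τ (x, z) = (m, z) := by rw [rw_none hk, hm]
    rw [hρv]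
    by_cases hat : ∃ v, pw i v ∈ K ∧ pw i (τ v) = (m, z)
    · obtain ⟨⟨x', z'⟩, hk', hb'⟩ := hat
      obtain ⟨m', tx, tz, h1, h2, h3, h4⟩ := h.half x' z' hk'
      have h5 := h.deep _ _ h2
      have h6 := h.notK _ hk'
      have h7 := h.cw_half hk'
      rw [hb'] at h7
      rw [h7, h1]
      rw [h1] at h6 hb'
      have h8 : ((tx - i) / 2, tz) = (m, z) := hb'
      rw [Prod.mk.injEq] at h8
      refine ⟨by rw [mem_wA]; omega, ?_, fun hne => ⟨?_, ?_⟩⟩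
      · rw [rw_none h6, Prod.mk.injEq]
        omega
      · rw [ne_eq, Prod.mk.injEq] at hne
        unfold wadj
        dsimp only
        omega
      · exact fun hmm => h.mis' hmm hk h6
    · rcases cw_none hat with ⟨g1, g2⟩ | ⟨g1, g2⟩
      · rw [g2]
        have h6 : pw i (i, z) ∉ K := fun h' => by
          have h7 : pw i (i, z) = ((i - i) / 2, z) := rfl
          rw [h7] at h'
          have := h.deep _ _ h'
          omega
        refine ⟨by rw [mem_wA]; omega, ?_, fun hne => ⟨?_, ?_⟩⟩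
        · rw [rw_none h6, Prod.mk.injEq]
          omega
        · rw [ne_eq, Prod.mk.injEq] at hne
          unfold wadj
          dsimp only
          omega
        · exact fun hmm => h.mis' hmm hk h6
      · rw [g2]
        have h6 : pw i (2 * m + i + 1, z) ∉ K := fun h' => by
          have h7 : pw i (2 * m + i + 1, z) = ((2 * m + i + 1 - i) / 2, z) := rfl
          rw [h7, show (2 * m + i + 1 - i) / 2 = m by omega] at h'
          have h8 := h.deep _ _ h'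
          apply hk
          have h9 : pw i (x, z) = ((x - i) / 2, z) := rfl
          rw [h9, show (x - i) / 2 = m by omega]
          exact h'
        refine ⟨by rw [mem_wA]; omega, ?_, fun hne => ⟨?_, ?_⟩⟩
        · rw [rw_none h6, Prod.mk.injEq]
          omega
        · rw [ne_eq, Prod.mk.injEq] at hne
          unfold wadj
          dsimp only
          omega
        · exact fun hmm => h.mis' hmm hk h6

end dt

end DA
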