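import Pool.Agent.GL.Full
import Pool.Agent.BICS.Base
import Pool.Agent.TST.Quot
import Pool.Agent.EN.Joint

/-!
# Quotient of a bicircular matroid by spanning trees of classes (row CROSS, generic half; helper14)

`Trs S ends A G F`: every nonempty class `{v ∈ A | G v = c}` has the spanning tree `F c ⊆ S`.
`bic_arbs`: contraction of all trees gives the bicircular matroid of the quotient graph.
`Trs.full`: full sets of the quotient lift.
-/

open Set
open scoped Matroid

namespace DA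

open BIC Gad BICS TST

variable {α V W : Type*}

/-- the class of `c` -/
def cls (A : Set V) (G : V → W) (c : W) : Set V := {v | v ∈ A ∧ G v = c}

/-- Classes with spanning trees. -/
structure Trs (S : Set α) (ends : α → Sym2 V) (A : Set V) (G : V → W) (F : W → Set α) : Prop where
  fin : A.Finite
  tree : ∀ c, (cls A G c = ∅ ∧ F c = ∅) ∨ Arb S ends (cls A G c) (F c)

section

variable {S S' : Set α} {ends : α → Sym2 V} {A : Set V} {G : V → W} {F : W → Set α}

lemma Trs.F_ins (h : Trs S ends A G F) {c : W} {e : α} (he : e ∈ F c) :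
    e ∈ S ∧ ∀ v ∈ ends e, v ∈ A ∧ G v = c := by
  rcases h.tree c with ⟨_, h1⟩ | h1
  · rw [h1] at he
    exact absurd he (Set.notMem_empty e)
  · exact h1.1 he

lemma Trs.uniq (h : Trs S ends A G F) {c c' : W} {e : α} (he : e ∈ F c) (he' : e ∈ F c') :
    c = c' := by
  obtain ⟨v, hv⟩ := exists_mem_ends ends e
  rw [← ((h.F_ins he).2 v hv).2, ← ((h.F_ins he').2 v hv).2]

/-- **Orientations lift.** -/
lemma Trs.orient (h : Trs S ends A G F) (hA : ∀ e ∈ S', ∀ v ∈ ends e, v ∈ A)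
    (hd : ∀ c, Disjoint S' (F c)) {F₀ : Set α} (hF₀ : F₀ ⊆ S') {φ : α → W} (hφ : InjOn φ F₀)
    (hφe : ∀ e ∈ F₀, φ e ∈ (ends e).map G) :
    ∃ ψ : α → V, InjOn ψ (F₀ ∪ FO F univ) ∧ (∀ e ∈ F₀ ∪ FO F univ, ψ e ∈ ends e) ∧
      (∀ e ∈ F₀, G (ψ e) = φ e) ∧ (∀ c, ∀ e ∈ F c, G (ψ e) = c) ∧
      ∀ Q : Set W, φ '' F₀ = Q → SurjOn ψ (F₀ ∪ FO F Q) {v | v ∈ A ∧ G v ∈ Q} := by
  classical
  rcases isEmpty_or_nonempty V with hV | hV
  · have hα : IsEmpty α := ⟨fun a => hV.elim (exists_mem_ends ends a).choose⟩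
    refine ⟨fun a => hα.elim a, fun a => hα.elim a, fun a => hα.elim a, fun a => hα.elim a,
      fun c a => hα.elim a, fun Q _ v => hV.elim v⟩
  -- the vertex of an element
  have h1 : ∀ e, ∃ v, e ∈ F₀ → v ∈ ends e ∧ G v = φ e := by
    intro e
    by_cases he : e ∈ F₀
    · have := hφe e he
      rw [Sym2.mem_map] at this
      obtain ⟨v, hv, hv2⟩ := this
      exact ⟨v, fun _ => ⟨hv, hv2⟩⟩
    · exact ⟨Classical.choice hV, fun h2 => absurd h2 he⟩
  choose g hg using h1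
  -- roots
  have h2 : ∀ c, ∃ r, ((cls A G c).Nonempty → r ∈ cls A G c) ∧ ∀ e ∈ F₀, φ e = c → r = g e := by
    intro c
    by_cases hc : ∃ e ∈ F₀, φ e = c
    · obtain ⟨e, he, hec⟩ := hc
      refine ⟨g e, fun _ => ⟨hA e (hF₀ he) _ (hg e he).1, by rw [(hg e he).2, hec]⟩, ?_⟩
      intro e' he' hec'
      rw [hφ he he' (hec.trans hec'.symm)]
    · push Not at hc
      by_cases hne : (cls A G c).Nonempty
      · exact ⟨hne.choose, fun _ => hne.choose_spec, fun e he hec => absurd hec (hc e he)⟩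
      · exact ⟨Classical.choice hV, fun h3 => absurd h3 hne, fun e he hec => absurd hec (hc e he)⟩
  choose r hr1 hr2 using h2
  -- orientations of the trees
  have h3 : ∀ c, ∃ o : α → V, ∀ (_ : (cls A G c).Nonempty), BijOn o (F c) (cls A G c \ {r c}) ∧
      ∀ e ∈ F c, o e ∈ ends e := by
    intro c
    by_cases hne : (cls A G c).Nonempty
    · rcases h.tree c with ⟨h4, _⟩ | h4
      · rw [h4] at hne
        exact absurd hne Set.not_nonempty_empty
      · obtain ⟨o, ho1, ho2⟩ := h4.2.2 (r c) (hr1 c hne)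
        exact ⟨o, fun _ => ⟨ho1, ho2⟩⟩
    · exact ⟨fun _ => Classical.choice hV, fun h4 => absurd h4 hne⟩
  choose o ho using h3
  have hne : ∀ c, ∀ e ∈ F c, (cls A G c).Nonempty := by
    intro c e he
    obtain ⟨v, hv⟩ := exists_mem_ends ends e
    exact ⟨v, (h.F_ins he).2 v hv⟩
  -- the class of a tree element
  have h4 : ∀ e, ∃ c, ∀ c', e ∈ F c' → c = c' := by
    intro e
    by_cases he : ∃ c, e ∈ F c
    · obtain ⟨c, hc⟩ := he
      exact ⟨c, fun c' hc' => h.uniq hc hc'⟩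
    · push Not at he
      exact ⟨G (Classical.choice hV), fun c' hc' => absurd hc' (he c')⟩
  choose k hk using h4
  have hdis : ∀ e ∈ F₀, ∀ c, e ∉ F c := fun e he c => Set.disjoint_left.1 (hd c) (hF₀ he)
  set ψ : α → V := fun e => if e ∈ F₀ then g e else o (k e) e with hψ
  have hψ0 : ∀ e ∈ F₀, ψ e = g e := fun e he => by rw [hψ]; simp only [he, if_true]
  have hψ1 : ∀ c, ∀ e ∈ F c, ψ e = o c e := by
    intro c e he
    have hn : e ∉ F₀ := fun h5 => hdis e h5 c he
    rw [hψ]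
    simp only [hn, if_false]
    rw [hk e c he]
  have hG1 : ∀ c, ∀ e ∈ F c, ψ e ∈ cls A G c \ {r c} := by
    intro c e he
    rw [hψ1 c e he]
    exact (ho c (hne c e he)).1.mapsTo he
  refine ⟨ψ, ?_, ?_, ?_, ?_, ?_⟩
  · have key : ∀ e ∈ F₀, ∀ c, ∀ e' ∈ F c, ψ e ≠ ψ e' := by
      intro e he c e' he' heq
      have h5 := hG1 c e' he'
      rw [← heq, hψ0 e he] at h5
      have h6 : φ e = c := by rw [← (hg e he).2]; exact h5.1.2
      exact h5.2 (mem_singleton_iff.2 (hr2 c e he h6).symm)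
    rintro e (he | he) e' (he' | he') heq
    · rw [hψ0 e he, hψ0 e' he'] at heq
      refine hφ he he' ?_
      rw [← (hg e he).2, ← (hg e' he').2, heq]
    · obtain ⟨c, _, hc⟩ := mem_FO.1 he'
      exact absurd heq (key e he c e' hc)
    · obtain ⟨c, _, hc⟩ := mem_FO.1 he
      exact absurd heq.symm (key e' he' c e hc)
    · obtain ⟨c, _, hc⟩ := mem_FO.1 he
      obtain ⟨c', _, hc'⟩ := mem_FO.1 he'
      have h5 := (hG1 c e hc).1.2
      have h6 := (hG1 c' e' hc').1.2
      rw [heq, h6] at h5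
      subst h5
      rw [hψ1 c' e hc, hψ1 c' e' hc'] at heq
      exact (ho c' (hne c' e hc)).1.injOn hc hc' heq
  · rintro e (he | he)
    · rw [hψ0 e he]
      exact (hg e he).1
    · obtain ⟨c, _, hc⟩ := mem_FO.1 he
      rw [hψ1 c e hc]
      exact (ho c (hne c e hc)).2 e hc
  · intro e he
    rw [hψ0 e he]
    exact (hg e he).2
  · intro c e he
    exact (hG1 c e he).1.2
  · rintro Q rfl v ⟨hvA, e, he, hev⟩
    by_cases hv : v = r (G v)
    · refine ⟨e, Or.inl he, ?_⟩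
      rw [hψ0 e he, hv]
      exact (hr2 _ e he hev).symm
    · have h5 : v ∈ cls A G (G v) \ {r (G v)} := ⟨⟨hvA, rfl⟩, hv⟩
      obtain ⟨e', he', hee'⟩ := (ho (G v) ⟨v, hvA, rfl⟩).1.surjOn h5
      refine ⟨e', Or.inr (mem_FO.2 ⟨G v, ⟨e, he, hev⟩, he'⟩), ?_⟩
      rw [hψ1 _ e' he']
      exact hee'

lemma Trs.F_fin (h : Trs S ends A G F) (c : W) : (F c).Finite := by
  rcases h.tree c with ⟨_, h1⟩ | h1
  · rw [h1]
    exact finite_empty
  · obtain ⟨v, hv⟩ := h1.2.1
    obtain ⟨o, ho, _⟩ := h1.2.2 v hv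
    exact Finite.of_finite_image (by
      rw [ho.image_eq]
      exact (h.fin.subset fun w hw => hw.1).subset sdiff_subset) ho.injOn

/-- number of vertices over `Q` -/
lemma Trs.ncard_over (h : Trs S ends A G F) {Q : Set W} (hQ : Q.Finite) :
    {v | v ∈ A ∧ G v ∈ Q}.ncard ≤ Q.ncard + (FO F Q).ncard ∧
      ((∀ c ∈ Q, (cls A G c).Nonempty) → {v | v ∈ A ∧ G v ∈ Q}.ncard = Q.ncard + (FO F Q).ncard) := by
  classical
  have key : ∀ T : Finset W, (FO F (T : Set W)).Finite ∧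
      {v | v ∈ A ∧ G v ∈ T}.ncard ≤ T.card + (FO F (T : Set W)).ncard ∧
      ((∀ c ∈ T, (cls A G c).Nonempty) →
        {v | v ∈ A ∧ G v ∈ T}.ncard = T.card + (FO F (T : Set W)).ncard) := by
    intro T
    induction T using Finset.induction_on with
    | empty =>
      have e0 : FO F (∅ : Set W) = ∅ := by
        ext e
        simp [mem_FO]
      have e1 : {v : V | v ∈ A ∧ G v ∈ (∅ : Finset W)} = ∅ := by
        ext v
        simp
      rw [Finset.coe_empty, e0, e1]
      simp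
    | insert c T hc ih =>
      have e0 : FO F ((insert c T : Finset W) : Set W) = FO F (T : Set W) ∪ F c := by
        ext e
        rw [mem_union, mem_FO, mem_FO]
        constructor
        · rintro ⟨c', hc', he⟩
          rcases Finset.mem_insert.1 (Finset.mem_coe.1 hc') with rfl | h1
          · exact Or.inr he
          · exact Or.inl ⟨c', Finset.mem_coe.2 h1, he⟩
        · rintro (⟨c', hc', he⟩ | he)
          · exact ⟨c', Finset.mem_coe.2 (Finset.mem_insert_of_mem (Finset.mem_coe.1 hc')), he⟩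
          · exact ⟨c, Finset.mem_coe.2 (Finset.mem_insert_self _ _), he⟩
      have e1 : {v | v ∈ A ∧ G v ∈ insert c T} = {v | v ∈ A ∧ G v ∈ T} ∪ cls A G c := by
        ext v
        simp only [mem_ofPred_eq, Finset.mem_insert, mem_union, cls]
        tauto
      have d0 : Disjoint (FO F (T : Set W)) (F c) := by
        rw [Set.disjoint_left]
        intro e he he'
        obtain ⟨c', hc', he⟩ := mem_FO.1 he
        exact hc (h.uniq he he' ▸ Finset.mem_coe.1 hc')
      have d1 : Disjoint {v | v ∈ A ∧ G v ∈ T} (cls A G c) := by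
        rw [Set.disjoint_left]
        intro v hv hv'
        exact hc (hv'.2 ▸ hv.2)
      have f1 : {v | v ∈ A ∧ G v ∈ T}.Finite := h.fin.subset fun v hv => hv.1
      have f2 : (cls A G c).Finite := h.fin.subset fun v hv => hv.1
      obtain ⟨i1, i2, i3⟩ := ih
      have n1 : (FO F ((insert c T : Finset W) : Set W)).ncard =
          (FO F (T : Set W)).ncard + (F c).ncard := by
        rw [e0, ncard_union_eq d0 i1 (h.F_fin c)]
      have n2 : {v | v ∈ A ∧ G v ∈ insert c T}.ncard =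
          {v | v ∈ A ∧ G v ∈ T}.ncard + (cls A G c).ncard := by
        rw [e1, ncard_union_eq d1 f1 f2]
      rw [n1, n2, Finset.card_insert_of_notMem hc]
      have n3 : (cls A G c).ncard ≤ (F c).ncard + 1 ∧
          ((cls A G c).Nonempty → (cls A G c).ncard = (F c).ncard + 1) := by
        rcases h.tree c with ⟨h1, _⟩ | h1
        · rw [h1, ncard_empty]
          exact ⟨by omega, fun h2 => absurd h2 Set.not_nonempty_empty⟩
        · obtain ⟨v, hv⟩ := h1.2.1
          obtain ⟨o, ho, _⟩ := h1.2.2 v hv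
          have h2 : (F c).ncard = (cls A G c \ {v}).ncard := by
            rw [← ho.image_eq, ho.injOn.ncard_image]
          have h3 := ncard_sdiff_singleton_add_one hv f2
          exact ⟨by omega, fun _ => by omega⟩
      refine ⟨by rw [e0]; exact i1.union (h.F_fin c), by omega, fun hne => ?_⟩
      have h4 := i3 fun c' hc' => hne c' (Finset.mem_insert_of_mem hc')
      have h5 := n3.2 (hne c (Finset.mem_insert_self _ _))
      omega
  have h1 := key hQ.toFinset
  rw [hQ.coe_toFinset, ← ncard_eq_toFinset_card Q hQ] at h1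
  have e2 : {v | v ∈ A ∧ G v ∈ hQ.toFinset} = {v | v ∈ A ∧ G v ∈ Q} := by
    ext v
    simp
  rw [e2] at h1
  exact ⟨h1.2.1, fun h2 => h1.2.2 fun c hc => h2 c (hQ.mem_toFinset.1 hc)⟩

variable {P : Matroid α}

lemma Trs.indep (hB : Bic P S ends) (h : Trs S ends A G F) (Q : Set W) : P.Indep (FO F Q) := by
  obtain ⟨ψ, h1, h2, _⟩ := h.orient (S' := ∅) (fun e he => absurd he (Set.notMem_empty e))
    (fun c => Set.empty_disjoint _) (empty_subset _) (φ := fun e => G (exists_mem_ends ends e).choose)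
    (Set.injOn_empty _) (fun e he => absurd he (Set.notMem_empty e))
  have h3 : P.Indep (∅ ∪ FO F univ) := hB.ind _ ψ (by
    rintro e (he | he)
    · exact absurd he (Set.notMem_empty e)
    · obtain ⟨c, _, hc⟩ := mem_FO.1 he
      exact (h.F_ins hc).1) h1 h2
  refine h3.subset ?_
  intro e he
  obtain ⟨c, _, hc⟩ := mem_FO.1 he
  exact Or.inr (mem_FO.2 ⟨c, mem_univ _, hc⟩)

/-- **Quotient of a bicircular matroid by spanning trees.** -/
theorem bic_arbs [P.Finite] (hB : Bic P S ends) (h : Trs S ends A G F) (hS' : S' ⊆ S)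
    (hA : ∀ e ∈ S', ∀ v ∈ ends e, v ∈ A) (hd : ∀ c, Disjoint S' (F c)) :
    Bic (P ／ FO F univ) S' (fun e => (ends e).map G) := by
  classical
  have hdis : Disjoint S' (FO F univ) := by
    rw [Set.disjoint_left]
    intro e he he'
    obtain ⟨c, _, hc⟩ := mem_FO.1 he'
    exact Set.disjoint_left.1 (hd c) he hc
  have hFS : ∀ Q, FO F Q ⊆ S := by
    intro Q e he
    obtain ⟨c, _, hc⟩ := mem_FO.1 he
    exact (h.F_ins hc).1
  have hFi := fun Q => h.indep hB Q
  refine ⟨?_, ?_, ?_⟩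
  · rw [Matroid.contract_ground]
    exact fun e he => ⟨hB.sub (hS' he), Set.disjoint_left.1 hdis he⟩
  · intro F₀ φ hF₀ hφ hφe
    obtain ⟨ψ, h1, h2, _⟩ := h.orient hA hd hF₀ hφ hφe
    have h3 : P.Indep (F₀ ∪ FO F univ) :=
      hB.ind _ ψ (union_subset (hF₀.trans hS') (hFS _)) h1 h2
    rw [(hFi univ).contract_indep_iff]
    exact ⟨(hdis.mono_left hF₀), h3⟩
  · intro Q
    by_cases hQ : Q.Finite
    swap
    · rw [Set.Infinite.encard_eq hQ]
      exact le_top
    set K : Set α := ins S' (fun e => (ends e).map G) Q with hK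
    have hKS : K ⊆ S' := fun e he => he.1
    have hKd : K ⊆ P.E \ FO F univ := fun e he =>
      ⟨hB.sub (hS' (hKS he)), Set.disjoint_left.1 hdis (hKS he)⟩
    have h1 := rk_contract_set (M := P) ((hFS univ).trans hB.sub) hKd
    have h2 : rk P (FO F univ) = (FO F Q).ncard + (FO F Qᶜ).ncard := by
      have hd2 : Disjoint (FO F Q) (FO F Qᶜ) := by
        rw [Set.disjoint_left]
        intro e he he'
        obtain ⟨c, hc, he⟩ := mem_FO.1 he
        obtain ⟨c', hc', he'⟩ := mem_FO.1 he'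
        exact hc' (h.uniq he he' ▸ hc)
      rw [rk_indep (hFi univ), FO_compl F Q, ncard_union_eq hd2
        (P.ground_finite.subset (hFi Q).subset_ground)
        (P.ground_finite.subset (hFi Qᶜ).subset_ground)]
    have h3 : rk P (K ∪ FO F univ) ≤ rk P (K ∪ FO F Q) + (FO F Qᶜ).ncard := by
      rw [FO_compl F Q, ← union_assoc]
      exact rk_union_le (M := P) (P.ground_finite.subset (hFi Qᶜ).subset_ground)
    have h4 : rk P (K ∪ FO F Q) ≤ {v | v ∈ A ∧ G v ∈ Q}.ncard := by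
      have h5 : K ∪ FO F Q ⊆ ins S ends {v | v ∈ A ∧ G v ∈ Q} := by
        rintro e (he | he)
        · refine ⟨hS' he.1, fun v hv => ⟨hA e he.1 v hv, he.2 (G v) ?_⟩⟩
          exact Sym2.mem_map.2 ⟨v, hv, rfl⟩
        · obtain ⟨c, hc, he⟩ := mem_FO.1 he
          refine ⟨(h.F_ins he).1, fun v hv => ⟨((h.F_ins he).2 v hv).1, ?_⟩⟩
          rw [((h.F_ins he).2 v hv).2]
          exact hc
      have h7 : {v | v ∈ A ∧ G v ∈ Q}.Finite := h.fin.subset fun v hv => hv.1
      have h6 := (P.eRk_mono h5).trans (hB.rk _)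
      rw [← cast_rk, ← h7.cast_ncard_eq] at h6
      exact_mod_cast h6
    have h5 := (h.ncard_over hQ).1
    have h6 : rk (P ／ FO F univ) K ≤ Q.ncard := by omega
    have : (P ／ FO F univ).Finite := ⟨P.ground_finite.subset sdiff_subset⟩
    rw [← cast_rk, ← hQ.cast_ncard_eq]
    exact_mod_cast h6

/-- **Full sets of the quotient lift.** -/
theorem Trs.full (h : Trs S ends A G F) (hS' : S' ⊆ S) (hA : ∀ e ∈ S', ∀ v ∈ ends e, v ∈ A)
    (hd : ∀ c, Disjoint S' (F c)) {Q : Set W} {F₀ : Set α}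
    (hfull : FullB S' (fun e => (ends e).map G) Q F₀) :
    FullB S ends {v | v ∈ A ∧ G v ∈ Q} (F₀ ∪ FO F Q) := by
  obtain ⟨h1, φ, h2, h3⟩ := hfull
  obtain ⟨ψ, g1, g2, g3, g4, g5⟩ := h.orient hA hd (fun e he => (h1 he).1) h2.injOn h3
  have hsub : F₀ ∪ FO F Q ⊆ F₀ ∪ FO F univ := by
    refine union_subset_union_right _ ?_
    intro e he
    obtain ⟨c, _, hc⟩ := mem_FO.1 he
    exact mem_FO.2 ⟨c, mem_univ _, hc⟩
  have hins : F₀ ∪ FO F Q ⊆ ins S ends {v | v ∈ A ∧ G v ∈ Q} := by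
    rintro e (he | he)
    · refine ⟨hS' (h1 he).1, fun v hv => ⟨hA e (h1 he).1 v hv, (h1 he).2 (G v) ?_⟩⟩
      exact Sym2.mem_map.2 ⟨v, hv, rfl⟩
    · obtain ⟨c, hc, he⟩ := mem_FO.1 he
      refine ⟨(h.F_ins he).1, fun v hv => ⟨((h.F_ins he).2 v hv).1, ?_⟩⟩
      rw [((h.F_ins he).2 v hv).2]
      exact hc
  refine ⟨hins, ψ, ⟨?_, g1.mono hsub, g5 Q h2.image_eq⟩, fun e he => g2 e (hsub he)⟩
  intro e he
  exact (hins he).2 _ (g2 e (hsub he))

/-- A full set over `Q` spans everything over `Q`, also with elements outside of `S'`. -/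
theorem Trs.closure_full (hB : Bic P S ends) (h : Trs S ends A G F) (hS' : S' ⊆ S)
    (hA : ∀ e ∈ S', ∀ v ∈ ends e, v ∈ A) (hd : ∀ c, Disjoint S' (F c)) {Q : Set W} {F₀ : Set α}
    (hfull : FullB S' (fun e => (ends e).map G) Q F₀) {X : Set α} (hX : F₀ ∪ FO F Q ⊆ X) :
    ins S ends {v | v ∈ A ∧ G v ∈ Q} ⊆ P.closure X := by
  have h1 := (h.full hS' hA hd hfull).closure hB (h.fin.subset fun v hv => hv.1)
  intro e he
  have h2 : e ∈ P.closure (ins S ends {v | v ∈ A ∧ G v ∈ Q}) :=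
    P.subset_closure _ (fun x hx => hB.sub hx.1) he
  rw [← h1] at h2
  exact P.closure_subset_closure hX h2

/-- Connected classes have trees. -/
theorem exists_trs (hA : A.Finite) (hc : ∀ c, VConn S ends (cls A G c)) :
    ∃ F : W → Set α, Trs S ends A G F := by
  classical
  have h1 : ∀ c, ∃ F : Set α, (cls A G c = ∅ ∧ F = ∅) ∨ Arb S ends (cls A G c) F := by
    intro c
    rcases (cls A G c).eq_empty_or_nonempty with h2 | h2
    · exact ⟨∅, Or.inl ⟨h2, rfl⟩⟩
    · obtain ⟨τ, hτ⟩ := EN.exists_arb (hA.subset fun v hv => hv.1) h2 (hc c)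
      exact ⟨τ, Or.inr hτ⟩
  choose F hF using h1
  exact ⟨F, hA, hF⟩

/-- Connectivity lifts. -/
theorem vconn_over {Q : Set W} (hcl : ∀ c ∈ Q, VConn S ends (cls A G c)) (hS' : S' ⊆ S)
    (hA : ∀ e ∈ S', ∀ v ∈ ends e, v ∈ A) (hQ : VConn S' (fun e => (ends e).map G) Q) :
    VConn S ends {v | v ∈ A ∧ G v ∈ Q} := by
  set r : V → V → Prop := fun x y => GAdj S ends x y ∧ x ∈ {v | v ∈ A ∧ G v ∈ Q} ∧
    y ∈ {v | v ∈ A ∧ G v ∈ Q} with hr
  have hin : ∀ c ∈ Q, ∀ x ∈ cls A G c, ∀ y ∈ cls A G c, Relation.ReflTransGen r x y := by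
    intro c hc x hx y hy
    have h1 := hcl c hc x hx y hy
    clear hy
    induction h1 with
    | refl => exact Relation.ReflTransGen.refl
    | tail _ h2 ih =>
      exact ih.tail ⟨h2.1, ⟨h2.2.1.1, by rw [h2.2.1.2]; exact hc⟩,
        ⟨h2.2.2.1, by rw [h2.2.2.2]; exact hc⟩⟩
  rintro x ⟨hxA, hxQ⟩ y ⟨hyA, hyQ⟩
  have h1 := hQ _ hxQ _ hyQ
  have key : ∀ c, Relation.ReflTransGen (fun a b => GAdj S' (fun e => (ends e).map G) a b ∧ a ∈ Q ∧
      b ∈ Q) (G x) c → c ∈ Q → ∀ w ∈ cls A G c, Relation.ReflTransGen r x w := by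
    intro c hc
    induction hc with
    | refl => exact fun hc w hw => hin _ hc x ⟨hxA, rfl⟩ w hw
    | @tail c c' _ h2 ih =>
      intro hc' w hw
      obtain ⟨⟨e, he, hee⟩, hcQ, _⟩ := h2
      have h3 : ∃ a b, ends e = s(a, b) ∧ G a = c ∧ G b = c' := by
        have h4 : ∃ a b, ends e = s(a, b) := by
          induction ends e with
          | _ a b => exact ⟨a, b, rfl⟩
        obtain ⟨a, b, hab⟩ := h4
        dsimp only at hee
        rw [hab, Sym2.map_mk] at hee
        rcases Sym2.eq_iff.1 hee with ⟨g1, g2⟩ | ⟨g1, g2⟩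
        · exact ⟨a, b, hab, g1, g2⟩
        · exact ⟨b, a, by rw [hab, Sym2.eq_swap], g2, g1⟩
      obtain ⟨a, b, hab, ha, hb⟩ := h3
      have haA : a ∈ A := hA e he a (by rw [hab]; simp)
      have hbA : b ∈ A := hA e he b (by rw [hab]; simp)
      refine ((ih hcQ a ⟨haA, ha⟩).tail ⟨⟨e, hS' he, hab⟩, ⟨haA, by rw [ha]; exact hcQ⟩,
        ⟨hbA, by rw [hb]; exact hc'⟩⟩).trans (hin c' hc' b ⟨hbA, hb⟩ w hw)
  exact key _ h1 hyQ y ⟨hyA, rfl⟩

end

end DA
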