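import Pool.Agent.DA.LabF51

/-!
# Classes of an exit on the row and in the star (R6 of T-star, helper33)

`Rnd.awE33`: a rung of the row `u V_i` which is an exit of the star of `u`.
-/

set_option autoImplicit false

open Set BIC BICS
open scoped Matroid

namespace DA

open Gad TST

section

variable {α : Type*} {P : Matroid α} {S : Set α} {row : α → Sym2 (ℕ × ℕ)} {w : ℕ} {Dd : Set α}
  {β D₀ δ₀ D₁ δ₁ : ℕ} {Hm Hs₀ Om₁ Hs₁ Om₂ : Finset (ℕ × ℕ)} {u v a p q : ℕ × ℕ}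
  {V : Fin 3 → ℕ × ℕ} {z t : α} {T W : Set α} {i : Fin 3}

/-- **The classes of an exit of the star of `u` on the leg `i`.** -/
theorem Rnd.awE33 [P.Finite] (h : Rnd P S row w Dd β D₀ δ₀ D₁ δ₁ Hm Hs₀ Om₁ Hs₁ Om₂)
    (hβ : 4 ≤ β) (hz : z ∈ Dd) (hcl : z ∈ P.closure S ∧ z ∉ S) (hu : VisR w δ₁ Om₂ u)
    (hnb : Nb3 u (V 0) (V 1) (V 2)) (hw : WuR P S row w δ₁ Om₂ u z)
    (hs : SeeP P S row z u (V i)) :
    ∀ x ∈ SX S row u V i, (x ∈ Arw P S row w u (V i) z ↔ x ∉ ASt P S row w u V z i) ∧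
      (x ∈ Arw P S row w (V i) u z ↔ x ∈ ASt P S row w u V z i) := by
  obtain ⟨j, h1, h2, h3, h4, h5⟩ := h.starA hβ hz hcl hu hnb hw
  have hij : i = j := by
    by_contra hij
    exact (h4 i hij).1 hs
  subst hij
  intro x hx
  obtain ⟨h6, h7⟩ := h5 x hx
  exact ⟨by rw [h6, not_not], h7.symm⟩

/-- the same for a far rung or a near rung at the other end -/
theorem Rnd.awE33K [P.Finite] (h : Rnd P S row w Dd β D₀ δ₀ D₁ δ₁ Hm Hs₀ Om₁ Hs₁ Om₂)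
    (hβ : 4 ≤ β) (hz : z ∈ Dd) (hcl : z ∈ P.closure S ∧ z ∉ S) (hu : VisR w δ₁ Om₂ u)
    (hv : VisR w δ₁ Om₂ (V i)) (hnb : Nb3 u (V 0) (V 1) (V 2)) (hs : SeeP P S row z u (V i))
    (hk : (∃ p q, FarW P S row w D₀ δ₁ Hs₀ Om₂ u (V i) p q z) ∨
      ∃ a, NearW P S row w D₀ δ₁ Hs₀ Om₂ (V i) u a z) :
    ∀ x ∈ SX S row u V i, (x ∈ Arw P S row w u (V i) z ↔ x ∉ ASt P S row w u V z i) ∧
      (x ∈ Arw P S row w (V i) u z ↔ x ∈ ASt P S row w u V z i) := by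
  refine h.awE33 hβ hz hcl hu hnb ⟨V i, ?_⟩ hs
  rcases hk with ⟨p, q, hf⟩ | ⟨a, hf⟩
  · exact Or.inl (h.farAt_of_farW hcl.1 (nb3_adj hnb i) hv hs hf)
  · exact Or.inr (h.nearAt_of_nearW hcl.1 (wadj_swap (nb3_adj hnb i)) hv (seeP_symm hs) hf)

end

/-! ### The two kinds of rungs as sets, row witnesses -/

section

variable {α : Type*} {P : Matroid α} {S : Set α} {row : α → Sym2 (ℕ × ℕ)} {w : ℕ} {Dd : Set α}
  {β D₀ δ₀ D₁ δ₁ : ℕ} {Hm Hs₀ Om₁ Hs₁ Om₂ : Finset (ℕ × ℕ)} {u v a p q : ℕ × ℕ}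
  {V : Fin 3 → ℕ × ℕ} {z t : α} {T W : Set α} {i : Fin 3}

/-- a far rung in the language of locations -/
theorem Rnd.farW_of [P.Finite] (h : Rnd P S row w Dd β D₀ δ₀ D₁ δ₁ Hm Hs₀ Om₁ Hs₁ Om₂)
    (hcl : z ∈ P.closure S) (hpq : wadj p q) (hp : VisR w δ₁ Om₂ p) (hq : VisR w δ₁ Om₂ q)
    (hs : SeeP P S row z p q) (hpn : p ∉ ({u, v} : Set (ℕ × ℕ)))
    (hqn : q ∉ ({u, v} : Set (ℕ × ℕ))) : FarW P S row w D₀ δ₁ Hs₀ Om₂ u v p q z :=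
  ⟨hpq, hp, hq, hpn, hqn, (h.sn_iff hcl (h.reg hp)).2 hs⟩

/-- a near rung in the language of locations -/
theorem Rnd.nearW_of [P.Finite] (h : Rnd P S row w Dd β D₀ δ₀ D₁ δ₁ Hm Hs₀ Om₁ Hs₁ Om₂)
    (hcl : z ∈ P.closure S ∧ z ∉ S) (huv : wadj u v) (hu : VisR w δ₁ Om₂ u)
    (hua : wadj u a) (ha : VisR w δ₁ Om₂ a) (hva : v ≠ a) (hs : SeeP P S row z u a) :
    NearW P S row w D₀ δ₁ Hs₀ Om₂ u v a z :=
  ⟨hua, hva, ha, (h.sn_iff hcl.1 (h.reg hu)).2 hs, h.near_not_dt hcl hu huv hua (Ne.symm hva) hs⟩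

/-- a rung of `u v`: it sees another visible row -/
theorem Rnd.rungK_of [P.Finite] (h : Rnd P S row w Dd β D₀ δ₀ D₁ δ₁ Hm Hs₀ Om₁ Hs₁ Om₂)
    (hcl : z ∈ P.closure S ∧ z ∉ S) (huv : wadj u v) (hu : VisR w δ₁ Om₂ u)
    (hv : VisR w δ₁ Om₂ v) (hpq : wadj p q) (hp : VisR w δ₁ Om₂ p) (hq : VisR w δ₁ Om₂ q)
    (hs : SeeP P S row z p q) (hne : s(p, q) ≠ s(u, v)) :
    RungK P S row w D₀ δ₁ Hs₀ Om₂ u v z := by
  by_cases h1 : p = u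
  · subst h1
    exact Or.inr (Or.inl ⟨q, h.nearW_of hcl huv hu hpq hq (fun h2 => hne (by rw [h2])) hs⟩)
  by_cases h2 : q = u
  · subst h2
    exact Or.inr (Or.inl ⟨p, h.nearW_of hcl huv hu (wadj_swap hpq) hp
      (fun h3 => hne (by rw [h3, Sym2.eq_swap])) (seeP_symm hs)⟩)
  by_cases h3 : p = v
  · subst h3
    exact Or.inr (Or.inr ⟨q, h.nearW_of hcl (wadj_swap huv) hv hpq hq (Ne.symm h2) hs⟩)
  by_cases h4 : q = v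
  · subst h4
    exact Or.inr (Or.inr ⟨p, h.nearW_of hcl (wadj_swap huv) hv (wadj_swap hpq) hp (Ne.symm h1)
      (seeP_symm hs)⟩)
  refine Or.inl ⟨p, q, h.farW_of hcl.1 hpq hp hq hs ?_ ?_⟩
  · rintro (h5 | h5)
    exacts [h1 h5, h3 h5]
  · rintro (h5 | h5)
    exacts [h2 h5, h4 h5]

/-- a near rung at `u` sees only rows at `u` (visible or not, with a regular end) -/
theorem Rnd.near_only33 [P.Finite] (h : Rnd P S row w Dd β D₀ δ₀ D₁ δ₁ Hm Hs₀ Om₁ Hs₁ Om₂)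
    (hz : z ∈ Dd) (hcl : z ∈ P.closure S ∧ z ∉ S) (huv : wadj u v) (hu : VisR w δ₁ Om₂ u)
    (hv : VisR w δ₁ Om₂ v) (hs : SeeP P S row z u v) (hua : wadj u a) (hva : v ≠ a)
    (hsa : SeeP P S row z u a) (hpq : wadj p q) (hp : RegW w D₀ Hs₀ p)
    (hspq : SeeP P S row z p q) : p = u ∨ q = u :=
  (h.locT hz hcl.1).near_rows huv hu hv ((h.sn_iff hcl.1 (h.reg hu)).2 hs) hua
    ((h.sn_iff hcl.1 (h.reg hu)).2 hsa) hva hpq ((h.sn_iff hcl.1 hp).2 hspq)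

/-- a far rung sees only its two rows -/
theorem Rnd.far_only33 [P.Finite] (h : Rnd P S row w Dd β D₀ δ₀ D₁ δ₁ Hm Hs₀ Om₁ Hs₁ Om₂)
    (hz : z ∈ Dd) (hcl : z ∈ P.closure S ∧ z ∉ S) (huv : wadj u v) (hu : VisR w δ₁ Om₂ u)
    (hv : VisR w δ₁ Om₂ v) (hs : SeeP P S row z u v) {p' q' : ℕ × ℕ} (hpq' : wadj p' q')
    (hp' : VisR w δ₁ Om₂ p') (hq' : VisR w δ₁ Om₂ q') (hs' : SeeP P S row z p' q')
    (hpn : p' ∉ ({u, v} : Set (ℕ × ℕ))) (hqn : q' ∉ ({u, v} : Set (ℕ × ℕ)))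
    (hpq : wadj p q) (hp : RegW w D₀ Hs₀ p) (hspq : SeeP P S row z p q) :
    s(p, q) = s(u, v) ∨ s(p, q) = s(p', q') :=
  (h.locT hz hcl.1).far_rowsX huv hu hv ((h.sn_iff hcl.1 (h.reg hu)).2 hs) hpq' hp' hq'
    ((h.sn_iff hcl.1 (h.reg hp')).2 hs') hpn hqn hpq ((h.sn_iff hcl.1 hp).2 hspq)

/-- **Pairs of rungs**, in the language of seen rows. -/
theorem Rnd.wD33 [P.Finite] (h : Rnd P S row w Dd β D₀ δ₀ D₁ δ₁ Hm Hs₀ Om₁ Hs₁ Om₂)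
    (hβ : 4 ≤ β) (hz : z ∈ Dd) (hcl : z ∈ P.closure S ∧ z ∉ S) {z' : α} (hz' : z' ∈ Dd)
    (hcl' : z' ∈ P.closure S ∧ z' ∉ S) (huv : wadj u v) (hu : VisR w δ₁ Om₂ u)
    (hv : VisR w δ₁ Om₂ v) (hs : SeeP P S row z u v) (hs' : SeeP P S row z' u v)
    (hk : RungK P S row w D₀ δ₁ Hs₀ Om₂ u v z) (hk' : RungK P S row w D₀ δ₁ Hs₀ Om₂ u v z')
    (nu : ∀ a b, wadj u a → wadj u b → a ≠ v → b ≠ v → VisR w δ₁ Om₂ a → VisR w δ₁ Om₂ b →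
      SeeP P S row z u a → SeeP P S row z' u b → False)
    (nv : ∀ a b, wadj v a → wadj v b → a ≠ u → b ≠ u → VisR w δ₁ Om₂ a → VisR w δ₁ Om₂ b →
      SeeP P S row z v a → SeeP P S row z' v b → False)
    (nf : ∀ p q, wadj p q → VisR w δ₁ Om₂ p → VisR w δ₁ Om₂ q → p ∉ ({u, v} : Set (ℕ × ℕ)) →
      q ∉ ({u, v} : Set (ℕ × ℕ)) → SeeP P S row z p q → SeeP P S row z' p q →
      ¬ TST.EqOn (RX S row p q) (Arw P S row w p q z) (Arw P S row w p q z'))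
    (hT : T ⊆ TRow P S row w D₁ Hs₁ u v) :
    PWitD (Er P S) (Lr P S row w u) (Lr P S row w v) (Arw P S row w u v) (RX S row u v) T z z' := by
  have key : ∀ {u v a z}, z ∈ P.closure S → VisR w δ₁ Om₂ u →
      NearW P S row w D₀ δ₁ Hs₀ Om₂ u v a z → SeeP P S row z u a := fun hz hu h1 =>
    (h.sn_iff hz (h.reg hu)).1 h1.sn
  refine h.rungD hβ hz hcl.1 hcl.2 hz' hcl'.1 hcl'.2 huv hu hv hs hs' hk hk' ?_ ?_ ?_
    fun t ht => (mem_TRow₁ u v).1 (hT ht)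
  · rintro ⟨⟨a, h1⟩, b, h2⟩
    exact nu a b h1.adj h2.adj h1.ne.symm h2.ne.symm h1.vis h2.vis (key hcl.1 hu h1)
      (key hcl'.1 hu h2)
  · rintro ⟨⟨a, h1⟩, b, h2⟩
    exact nv a b h1.adj h2.adj h1.ne.symm h2.ne.symm h1.vis h2.vis (key hcl.1 hv h1)
      (key hcl'.1 hv h2)
  · intro p q h1 h2
    exact nf p q h1.adj h1.vp h1.vq h1.pn h1.qn ((h.sn_iff hcl.1 (h.reg h1.vp)).1 h1.sn)
      ((h.sn_iff hcl'.1 (h.reg h1.vp)).1 h2.sn)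

/-- **One rung**, in the language of seen rows. -/
theorem Rnd.wB33 [P.Finite] (h : Rnd P S row w Dd β D₀ δ₀ D₁ δ₁ Hm Hs₀ Om₁ Hs₁ Om₂)
    (hβ : 4 ≤ β) (hz : z ∈ Dd) (hcl : z ∈ P.closure S ∧ z ∉ S) (huv : wadj u v)
    (hu : VisR w δ₁ Om₂ u) (hv : VisR w δ₁ Om₂ v) (hs : SeeP P S row z u v)
    (hpq : wadj p q) (hp : VisR w δ₁ Om₂ p) (hq : VisR w δ₁ Om₂ q)
    (hs' : SeeP P S row z p q) (hne : s(p, q) ≠ s(u, v)) (hT : T ⊆ TRow P S row w D₁ Hs₁ u v) :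
    PWitB (Er P S) (Lr P S row w u) (Lr P S row w v) (Arw P S row w u v) (RX S row u v) T z :=
  h.rungB hβ hz hcl.1 hcl.2 huv hu hv hs (h.rungK_of hcl huv hu hv hpq hp hq hs' hne)
    fun t ht => (mem_TRow₁ u v).1 (hT ht)

end

end DA
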