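import Pool.Agent.DA.InL

/-!
# Full sets of a brick wall without some apart deep vertices; half edges of a healed wall
-/

open Set BIC BICS
open scoped Matroid

namespace DA

open Gad

universe u

lemma nbw_casesZ (w : ℕ) (B : Set (ℕ × ℕ)) (hB : ∀ v ∈ B, 1 ≤ v.2 ∧ v.2 + 3 ≤ w ∧ v.1 + 4 ≤ w)
    (v : ℕ × ℕ) (hv : v.1 ≤ w ∧ v.2 ≤ w) :
    (v.2 = w ∧ v.1 + 3 = w ∧ nbw w B v = (v.1, v.2 - 1)) ∨
    (v.2 = w ∧ v.1 + 3 < w ∧ nbw w B v = (v.1 + 1, v.2)) ∨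
    (v.2 = w ∧ w < v.1 + 3 ∧ nbw w B v = (v.1 - 1, v.2)) ∨
    (v.2 < w ∧ v.1 = w ∧ (w + v.2) % 2 = 0 ∧ nbw w B v = (v.1, v.2 + 1)) ∨
    (v.2 < w ∧ v.1 + 1 = w ∧ (w + v.2) % 2 = 1 ∧ nbw w B v = (v.1, v.2 + 1)) ∨
    (v.2 < w ∧ v.1 = w ∧ (w + v.2) % 2 = 1 ∧ nbw w B v = (v.1 - 1, v.2)) ∨
    (1 ≤ v.2 ∧ v.2 + 3 ≤ w ∧ v.1 + 4 ≤ w ∧ v ∈ B ∧ (v.1 + v.2) % 2 = 0 ∧
      nbw w B v = (v.1, v.2 + 1)) ∨
    (1 ≤ v.2 ∧ v.2 + 3 ≤ w ∧ v.1 + 4 ≤ w ∧ v ∈ B ∧ (v.1 + v.2) % 2 = 1 ∧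
      nbw w B v = (v.1, v.2 - 1)) ∨
    (v.2 < w ∧ v.1 < w ∧ (v.1 + 1 = w → (w + v.2) % 2 = 0) ∧ v ∉ B ∧
      nbw w B v = (v.1 + 1, v.2)) := by
  unfold nbw
  split_ifs with g1 g2 g3 g4 g5 g6
  · exact Or.inl ⟨g1, g2, rfl⟩
  · exact Or.inr (Or.inl ⟨g1, g3, rfl⟩)
  · exact Or.inr (Or.inr (Or.inl ⟨g1, by omega, rfl⟩))
  · rcases g4 with ⟨h1, h2⟩ | ⟨h1, h2⟩
    · exact Or.inr (Or.inr (Or.inr (Or.inl ⟨by omega, h1, h2, rfl⟩)))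
    · exact Or.inr (Or.inr (Or.inr (Or.inr (Or.inl ⟨by omega, h1, h2, rfl⟩))))
  · exact Or.inr (Or.inr (Or.inr (Or.inr (Or.inr (Or.inl ⟨by omega, g5, by omega, rfl⟩)))))
  · have h1 := hB v g6
    unfold vn
    split_ifs with g7
    · exact Or.inr (Or.inr (Or.inr (Or.inr (Or.inr (Or.inr (Or.inl
        ⟨h1.1, h1.2.1, h1.2.2, g6, g7, rfl⟩))))))
    · exact Or.inr (Or.inr (Or.inr (Or.inr (Or.inr (Or.inr (Or.inr (Or.inl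
        ⟨h1.1, h1.2.1, h1.2.2, g6, by omega, rfl⟩)))))))
  · exact Or.inr (Or.inr (Or.inr (Or.inr (Or.inr (Or.inr (Or.inr (Or.inr
        ⟨by omega, by omega, by omega, g6, rfl⟩)))))))

/-- A brick wall without some deep vertices which are apart is full. -/
theorem wall_fullZ {α : Type*} {S : Set α} {ends : α → Sym2 (ℕ × ℕ)} {w : ℕ} (Z : Set (ℕ × ℕ))
    (hw : 4 ≤ w)
    (hZ : ∀ v ∈ Z, 1 ≤ v.2 ∧ v.2 + 3 ≤ w ∧ 1 ≤ v.1 ∧ v.1 + 3 ≤ w)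
    (hap : ∀ v ∈ Z, ∀ v' ∈ Z, v ≠ v' → 3 ≤ sd v v')
    (hS : ∀ p q, wadj p q → p ∈ rect 0 0 (w + 1) (w + 1) \ Z → q ∈ rect 0 0 (w + 1) (w + 1) \ Z →
      ∃ e ∈ S, ends e = s(p, q)) :
    ∃ F, FullB S ends (rect 0 0 (w + 1) (w + 1) \ Z) F := by
  obtain ⟨B, hBd⟩ : ∃ B : Set (ℕ × ℕ), B = {v | (v.1 + 1, v.2) ∈ Z} := ⟨_, rfl⟩
  have hB : ∀ v ∈ B, 1 ≤ v.2 ∧ v.2 + 3 ≤ w ∧ v.1 + 4 ≤ w := by
    intro v hv
    rw [hBd] at hv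
    have := hZ _ hv
    simp only at this
    omega
  have hBc : ∀ x z, (x, z) ∈ B → 1 ≤ z ∧ z + 3 ≤ w ∧ x + 4 ≤ w := fun x z h => hB _ h
  have hZc : ∀ x z, (x, z) ∈ Z → 1 ≤ z ∧ z + 3 ≤ w ∧ 1 ≤ x ∧ x + 3 ≤ w := fun x z h => hZ _ h
  have hBZ : ∀ x z, (x, z) ∈ B → (x + 1, z) ∈ Z := by
    intro x z h
    rw [hBd] at h
    exact h
  have hZB : ∀ x z, (x + 1, z) ∈ Z → (x, z) ∈ B := by
    intro x z h
    rw [hBd]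
    exact h
  -- two points of `Z` are apart
  have hap' : ∀ x z x' z', (x, z) ∈ Z → (x', z') ∈ Z → (x = x' ∧ z = z') ∨
      x + 3 ≤ x' ∨ x' + 3 ≤ x ∨ z + 3 ≤ z' ∨ z' + 3 ≤ z := by
    intro x z x' z' h h'
    by_cases he : (x, z) = (x', z')
    · rw [Prod.mk.injEq] at he
      exact Or.inl he
    · have h1 := hap _ h _ h' he
      by_contra hcon
      have h2 : sd (x, z) (x', z') ≤ 2 := by
        rw [sd_le]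
        simp only
        omega
      omega
  have hin : ∀ v ∈ rect 0 0 (w + 1) (w + 1) \ Z, nbw w B v ∈ rect 0 0 (w + 1) (w + 1) \ Z ∧
      wadj v (nbw w B v) := by
    rintro ⟨x, z⟩ ⟨hv, hvZ⟩
    rw [Gad.mem_rct] at hv
    simp only at hv
    have h1 := nbw_casesZ w B hB (x, z) (by simp only; omega)
    simp only at h1
    rcases h1 with ⟨a1, a2, a3⟩ | ⟨a1, a2, a3⟩ | ⟨a1, a2, a3⟩ | ⟨a1, a2, a4, a3⟩ |
      ⟨a1, a2, a4, a3⟩ | ⟨a1, a2, a4, a3⟩ | ⟨a1, a2, a6, a5, a4, a3⟩ |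
      ⟨a1, a2, a6, a5, a4, a3⟩ | ⟨a1, a2, a4, a5, a3⟩ <;> rw [a3] <;>
    refine ⟨⟨by rw [Gad.mem_rct]; simp only; omega, fun h => ?_⟩, ?_⟩
    all_goals first
      | (unfold wadj; dsimp only; omega)
      | (have h5 := hZc _ _ h; omega)
      | exact a5 (hZB _ _ h)
      | (have h5 := hap' _ _ _ _ h (hBZ _ _ a5); omega)
  refine full_of_nb (nbw w B) (fun v hv => ⟨(hin v hv).1, ?_⟩) ?_
  · obtain ⟨h1, h2⟩ := hin v hv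
    exact hS v _ h2 hv h1
  · rintro ⟨x, z⟩ hv heq
    have hv' := (hin _ hv).1.1
    have hv0 := hv.1
    rw [Gad.mem_rct] at hv' hv0
    have k1 := nbw_casesZ w B hB (x, z) (by simp only at hv0 ⊢; omega)
    obtain ⟨⟨x', z'⟩, hx'⟩ : ∃ v', nbw w B (x, z) = v' := ⟨_, rfl⟩
    have k2 := nbw_casesZ w B hB (x', z') (by rw [hx'] at hv'; simp only at hv' ⊢; omega)
    rw [hx'] at k1 heq
    rw [heq] at k2
    simp only [Prod.mk.injEq] at k1 k2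
    rcases k1 with ⟨a1, a2, a3, a3'⟩ | ⟨a1, a2, a3, a3'⟩ | ⟨a1, a2, a3, a3'⟩ |
      ⟨a1, a2, a4, a3, a3'⟩ | ⟨a1, a2, a4, a3, a3'⟩ | ⟨a1, a2, a4, a3, a3'⟩ |
      ⟨a1, a2, a6, a5, a4, a3, a3'⟩ | ⟨a1, a2, a6, a5, a4, a3, a3'⟩ | ⟨a1, a2, a4, a5, a3, a3'⟩ <;>
    rcases k2 with ⟨b1, b2, b3, b3'⟩ | ⟨b1, b2, b3, b3'⟩ | ⟨b1, b2, b3, b3'⟩ |
      ⟨b1, b2, b4, b3, b3'⟩ | ⟨b1, b2, b4, b3, b3'⟩ | ⟨b1, b2, b4, b3, b3'⟩ |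
      ⟨b1, b2, b6, b5, b4, b3, b3'⟩ | ⟨b1, b2, b6, b5, b4, b3, b3'⟩ |
      ⟨b1, b2, b4, b5, b3, b3'⟩ <;>
    first
      | omega
      | (have h5 := hap' _ _ _ _ (hBZ _ _ a5) (hBZ _ _ b5); omega)

section

variable {α β : Type*} {P : Matroid α} {S : Set α} {row : α → Sym2 (ℕ × ℕ)} {w : ℕ}
  {Hs : Finset (ℕ × ℕ)} {P' : Matroid β} {j : α → β} {S' New : Set β}
  {row' : β → Sym2 (ℕ × ℕ)} {Λ : Set α}

/-- The half edges are in the closure of the wall without the stars of apart vertices. -/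
lemma Healed.lam_stars (h : Healed P S row w Hs P' j S' New row' Λ) {c' : Set β} (hc' : c' ⊆ S')
    (hW' : WallE c' row' w ∅) {Z : Set (ℕ × ℕ)} (hw : 4 ≤ w) (hoff : ∀ v ∈ Z, Off Hs v)
    (hv : ∀ v ∈ Z, DeepR (0, 0) (w + 1) (w + 1) 4 v)
    (hap : ∀ v ∈ Z, ∀ v' ∈ Z, v ≠ v' → 3 ≤ sd v v') :
    j '' Λ ⊆ P'.closure (S' \ {e | e ∈ c' ∧ ∃ v ∈ Z, v ∈ row' e}) := by
  obtain ⟨F, hF⟩ := wall_fullZ (S := c') (ends := row') (w := w) Z hw (by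
      intro v hvZ
      have h1 := hv v hvZ
      unfold DeepR at h1
      simp only at h1
      omega) hap (by
      intro p q hpq hp hq
      exact hW'.surj p q hpq hp.1 hq.1 (notMem_empty _))
  have hΛ := h.lam hc' hW' ((Gad.rect_finite _ _ _ _).subset sdiff_subset) hF (by
    rintro x _ ⟨y, hy, hxy⟩ hx
    refine ⟨hx, fun hxZ => ?_⟩
    have h1 := hoff x hxZ y hy
    have h2 : sd x y ≤ 1 := by
      rw [sd_le]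
      unfold wadj at hxy
      omega
    omega)
  refine hΛ.trans (P'.closure_subset_closure ?_)
  rintro e (he | he)
  · exact ⟨he.1, fun h1 => he.2 h1.1⟩
  · have h1 := hF.1 he
    refine ⟨hc' h1.1, ?_⟩
    rintro ⟨_, v, hvZ, hve⟩
    exact (h1.2 v hve).2 hvZ

/-- Stars off the windows. -/
lemma Healed.stars (h : Healed P S row w Hs P' j S' New row' Λ) {c : Set α} (hc : c ⊆ S)
    (hW : WallE c row w ∅) {Z : Set (ℕ × ℕ)} (hoff : ∀ v ∈ Z, Off Hs v) :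
    {e | e ∈ tr S row Hs j New c ∧ ∃ v ∈ Z, v ∈ row' e} = j '' {e | e ∈ c ∧ ∃ v ∈ Z, v ∈ row e} ∧
    {e | e ∈ c ∧ ∃ v ∈ Z, v ∈ row e} ⊆ S \ Tch S row Hs := by
  have h2 : {e | e ∈ c ∧ ∃ v ∈ Z, v ∈ row e} ⊆ S \ Tch S row Hs := by
    rintro e ⟨he, v, hvZ, hve⟩
    refine ⟨hc he, fun h1 => ?_⟩
    obtain ⟨p, q, h3, h4, _⟩ := hW.mem e he
    obtain ⟨_, x, hx, hxH⟩ := h1
    exact off_row h3 h4 hve (hoff v hvZ) x hx hxH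
  refine ⟨?_, h2⟩
  ext e
  constructor
  · rintro ⟨⟨a, ha, rfl⟩ | he, v, hvZ, hve⟩
    · rw [h.row_old a ⟨hc ha.1, ha.2⟩] at hve
      exact ⟨a, ⟨ha.1, v, hvZ, hve⟩, rfl⟩
    · obtain ⟨p, q, h3, h4, _⟩ := h.wal.mem e (h.new_sub he)
      obtain ⟨x, hx, hxH⟩ := h.row_new e he
      exact absurd hxH (off_row h3 h4 hve (hoff v hvZ) x hx)
  · rintro ⟨a, ⟨ha, v, hvZ, hve⟩, rfl⟩
    have h3 := h2 ⟨ha, v, hvZ, hve⟩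
    refine ⟨Or.inl ⟨a, ⟨ha, h3.2⟩, rfl⟩, v, hvZ, ?_⟩
    rw [h.row_old a h3]
    exact hve

lemma Healed.minus (h : Healed P S row w Hs P' j S' New row' Λ) (A : Set α) : S' \ j '' A = j '' ((S \ A) \ Tch S row Hs) ∪ New := by
  rw [h.S_eq]
  ext e
  constructor
  · rintro ⟨⟨a, ha, rfl⟩ | he, h1⟩
    · exact Or.inl ⟨a, ⟨⟨ha.1, fun h2 => h1 ⟨a, h2, rfl⟩⟩, ha.2⟩, rfl⟩
    · exact Or.inr he
  · rintro (⟨a, ha, rfl⟩ | he)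
    · refine ⟨Or.inl ⟨a, ⟨ha.1.1, ha.2⟩, rfl⟩, ?_⟩
      rintro ⟨b, hb, hba⟩
      rw [h.inj hba] at hb
      exact ha.1.2 hb
    · refine ⟨Or.inr he, ?_⟩
      rintro ⟨b, hb, rfl⟩
      exact h.new b he

end

end DA
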