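import Pool.Agent.DA.B1K
import Pool.Agent.DA.FullZ

/-!
# Row B1 for lifted walls with windows, quorum form
-/

open Set BIC BICS
open scoped Matroid

namespace DA

open Gad

universe u

lemma nearF (X : Finset (ℕ × ℕ)) (δ : ℕ) : ∃ N : Finset (ℕ × ℕ),
    N.card ≤ X.card * ((2 * δ + 1) * (2 * δ + 1)) ∧ ∀ v ∉ N, ∀ x ∈ X, Apart δ v x := by
  classical
  refine ⟨X.biUnion fun x => (Finset.Icc (x.1 - δ) (x.1 + δ)) ×ˢ (Finset.Icc (x.2 - δ) (x.2 + δ)),
    ?_, ?_⟩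
  · refine Finset.card_biUnion_le_card_mul _ _ _ ?_
    intro x _
    rw [Finset.card_product, Nat.card_Icc, Nat.card_Icc]
    exact Nat.mul_le_mul (by omega) (by omega)
  · intro v hv x hx
    by_contra hcon
    apply hv
    rw [Finset.mem_biUnion]
    refine ⟨x, hx, ?_⟩
    rw [Finset.mem_product, Finset.mem_Icc, Finset.mem_Icc]
    unfold Apart at hcon
    omega

/-- A wall has at most three representatives at a vertex. -/
lemma star_ncard {α : Type*} {c : Set α} {row : α → Sym2 (ℕ × ℕ)} {w : ℕ} (hW : WallE c row w ∅)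
    (v : ℕ × ℕ) : {e | e ∈ c ∧ v ∈ row e}.Finite ∧ {e | e ∈ c ∧ v ∈ row e}.ncard ≤ 3 := by
  classical
  obtain ⟨T, hT⟩ : ∃ T : Finset (Sym2 (ℕ × ℕ)), T = {s(v, (v.1 + 1, v.2)), s(v, (v.1 - 1, v.2)),
      s(v, vn v)} := ⟨_, rfl⟩
  have h1 : ∀ e ∈ {e | e ∈ c ∧ v ∈ row e}, row e ∈ (T : Set (Sym2 (ℕ × ℕ))) := by
    rintro e ⟨he, hve⟩
    obtain ⟨p, q, hpq, hadj, _, _⟩ := hW.mem e he
    have key : ∀ q : ℕ × ℕ, wadj v q → q = (v.1 + 1, v.2) ∨ q = (v.1 - 1, v.2) ∨ q = vn v := by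
      rintro ⟨a, b⟩ h
      obtain ⟨x, y⟩ := v
      unfold wadj at h
      unfold vn
      simp only [Prod.mk.injEq] at h ⊢
      split_ifs <;> simp only [Prod.mk.injEq] <;> omega
    rw [hpq, Sym2.mem_iff] at hve
    have h2 : ∃ q, row e = s(v, q) ∧ wadj v q := by
      rcases hve with rfl | rfl
      · exact ⟨q, hpq, hadj⟩
      · exact ⟨p, by rw [hpq, Sym2.eq_swap], wadj_symm' hadj⟩
    obtain ⟨q', h2, h3⟩ := h2
    rw [hT, h2]
    simp only [Finset.coe_insert, Finset.coe_singleton, mem_insert_iff, mem_singleton_iff]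
    rcases key q' h3 with h | h | h <;> rw [h] <;> simp
  have hinj : InjOn row {e | e ∈ c ∧ v ∈ row e} := fun a ha b hb hab => hW.inj ha.1 hb.1 hab
  have hTf : (T : Set (Sym2 (ℕ × ℕ))).Finite := T.finite_toSet
  refine ⟨Set.Finite.of_finite_image (hTf.subset (image_subset_iff.2 h1)) hinj, ?_⟩
  calc {e | e ∈ c ∧ v ∈ row e}.ncard ≤ (T : Set (Sym2 (ℕ × ℕ))).ncard :=
        Set.ncard_le_ncard_of_injOn row h1 hinj hTf
    _ = T.card := Set.ncard_coe_finset T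
    _ ≤ 3 := by rw [hT]; exact Finset.card_le_three

lemma stars_ncard {α : Type*} {c : Set α} {row : α → Sym2 (ℕ × ℕ)} {w : ℕ} (hW : WallE c row w ∅)
    (G : Finset (ℕ × ℕ)) : {e | e ∈ c ∧ ∃ v ∈ G, v ∈ row e}.Finite ∧
      {e | e ∈ c ∧ ∃ v ∈ G, v ∈ row e}.ncard ≤ 3 * G.card := by
  classical
  induction G using Finset.induction_on with
  | empty => simp
  | insert v G hv ih =>
    have h1 : {e | e ∈ c ∧ ∃ x ∈ insert v G, x ∈ row e} = {e | e ∈ c ∧ v ∈ row e} ∪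
        {e | e ∈ c ∧ ∃ x ∈ G, x ∈ row e} := by
      ext e
      simp only [mem_ofPred_eq, mem_union, Finset.mem_insert]
      constructor
      · rintro ⟨h1, x, rfl | h2, h3⟩
        · exact Or.inl ⟨h1, h3⟩
        · exact Or.inr ⟨h1, x, h2, h3⟩
      · rintro (⟨h1, h3⟩ | ⟨h1, x, h2, h3⟩)
        · exact ⟨h1, v, Or.inl rfl, h3⟩
        · exact ⟨h1, x, Or.inr h2, h3⟩
    rw [h1]
    obtain ⟨h2, h3⟩ := star_ncard hW v
    refine ⟨h2.union ih.1, (Set.ncard_union_le _ _).trans ?_⟩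
    rw [Finset.card_insert_of_notMem hv]
    have := ih.2
    omega

lemma bic_restr {α V : Type*} {M : Matroid α} {S R : Set α} {ends : α → Sym2 V}
    (h : Bic M S ends) (hSR : S ⊆ R) : Bic (M ↾ R) S ends := by
  refine ⟨hSR, ?_, ?_⟩
  · intro F φ hF hφ hφe
    exact Matroid.restrict_indep_iff.2 ⟨h.ind F φ hF hφ hφe, hF.trans hSR⟩
  · intro W
    rw [Matroid.restrict_eRk_eq']
    exact (M.eRk_mono inter_subset_left).trans (h.rk W)

lemma RWal.restr {α : Type*} {P : Matroid α} {S R : Set α} {row : α → Sym2 (ℕ × ℕ)} {w : ℕ}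
    (h : RWal P S row w) (hSR : S ⊆ R) : RWal (P ↾ R) S row w := by
  refine ⟨hSR, h.mem, h.surj, ?_⟩
  intro c hc hW
  have h1 := bic_restr (R := R \ (S \ c)) (h.bic c hc hW) (fun e he =>
    ⟨hSR (hc he), fun h2 => h2.2 he⟩)
  have h2 : (P ／ (S \ c)) ↾ (R \ (S \ c)) = (P ↾ R) ／ (S \ c) := by
    rw [Matroid.restrict_contract_eq_contract_restrict]
    exact fun e he => hSR he.1
  rw [← h2]
  exact h1

/-- **B1 for walls with windows.** -/
theorem b1L (k h : ℕ) : ∃ K D : ℕ, 8 ≤ D ∧ ∀ t, 1 ≤ t → ∃ β : ℕ, ∀ {α : Type u} (P : Matroid α)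
    [P.Finite] (S : Set α) (row : α → Sym2 (ℕ × ℕ)) (w : ℕ) (Hs : Finset (ℕ × ℕ)) (E : Set α),
    4 ≤ w → Hs.card ≤ h → LWal P S row w Hs → E ⊆ P.closure S → Disjoint E S →
    HasUniformMinor P k ∨ ∃ (Q : ℕ) (B : Set α) (St : Fin Q → Set α), 2 ≤ Q ∧ B ⊆ E ∧
      B.ncard < K ∧ (∀ a, St a ⊆ S) ∧ (∀ a, (St a).ncard ≤ 3 * K) ∧ (∀ a, InjOn row (St a)) ∧
      (∀ a b, a ≠ b → Disjoint (St a) (St b)) ∧
      (∀ a, rk P (S \ St a ∪ B) = rk P (S \ St a) + B.ncard) ∧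
      ∀ z ∈ E, ∃ Bad : Finset (Fin Q), t * Bad.card ≤ Q ∧ ∀ a ∉ Bad, ∃ N : Finset (ℕ × ℕ),
        N.card ≤ β ∧ ∀ c, c ⊆ S → WallE c row w ∅ → ∀ v, DeepR (0, 0) (w + 1) (w + 1) D v →
          v ∉ N → z ∈ P.closure ((S \ St a) \ {e | e ∈ c ∧ v ∈ row e} ∪ B) := by
  classical
  obtain ⟨K₁, hK₁⟩ := heal_hum.{u} k h
  obtain ⟨K, D, δ, hD, hδ, hb⟩ := b1WK.{u} K₁
  refine ⟨K, D, hD, ?_⟩
  intro t ht
  obtain ⟨β, Qf, hQ2, hb⟩ := hb t ht
  obtain ⟨Qm, hQm⟩ : ∃ Qm, ∀ j < K, Qf j ≤ Qm := ⟨∑ j ∈ Finset.range K, Qf j, fun j hj =>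
    Finset.single_le_sum (f := Qf) (fun _ _ => Nat.zero_le _) (Finset.mem_range.2 hj)⟩
  refine ⟨β + (Qm * K + h) * ((2 * δ + 1) * (2 * δ + 1)), ?_⟩
  intro α P _ S row w Hs E hw hHs hL hE hES
  obtain ⟨P', S', New, row', Λ, hH⟩ := heal P S row w Hs hL
  have hf := hH.fin
  have hEE : E ⊆ P.E := hE.trans (P.closure_subset_ground _)
  have hET : ∀ z ∈ E, z ∉ Tch S row Hs := fun z hz h1 => Set.disjoint_left.1 hES hz h1.1
  obtain ⟨R, hR⟩ : ∃ R, R = S' ∪ Sum.inl '' E := ⟨_, rfl⟩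
  have hSR : S' ⊆ R := by rw [hR]; exact subset_union_left
  have hRE : R ⊆ P'.E := by
    rw [hR]
    refine union_subset hH.wal.sub ?_
    rintro _ ⟨z, hz, rfl⟩
    rw [hH.ground]
    exact Or.inl ⟨z, ⟨hEE hz, fun h1 => hET z hz h1.1⟩, rfl⟩
  have fR : (P' ↾ R).Finite := ⟨hf.ground_finite.subset hRE⟩
  have hjS : ∀ z ∈ E, (Sum.inl z : HT α) ∉ S' := by
    intro z hz h1
    rw [hH.S_eq] at h1
    rcases h1 with ⟨a, ha, h1⟩ | h1
    · rw [Sum.inl.injEq] at h1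
      subst h1
      exact Set.disjoint_left.1 hES hz ha.1
    · exact hH.new z h1
  -- half edges
  obtain ⟨c₀, hc₀, hW₀⟩ := hL.exists_rep
  have hΛS : Sum.inl '' Λ ⊆ P'.closure S' := by
    have h1 := hH.lam_stars (hH.tr_sub (c := c₀) hc₀) (hH.tr_wall hc₀ hW₀) (Z := ∅) hw
      (by simp) (by simp) (by simp)
    exact h1.trans (P'.closure_subset_closure sdiff_subset)
  have hjE : ∀ z ∈ E, (Sum.inl z : HT α) ∈ (P' ↾ R).closure S' := by
    intro z hz
    rw [Matroid.restrict_closure_eq _ hSR hRE]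
    refine ⟨?_, by rw [hR]; exact Or.inr ⟨z, hz, rfl⟩⟩
    have h1 := hH.clo_old (hE hz) (hET z hz)
    refine P'.closure_subset_closure_of_subset_closure ?_ h1
    rintro _ ⟨a, ha, rfl⟩
    by_cases h2 : a ∈ Λ
    · exact hΛS ⟨a, h2, rfl⟩
    · refine P'.subset_closure _ hH.wal.sub ?_
      rw [hH.S_eq]
      exact Or.inl ⟨a, ⟨ha.1, fun h3 => ha.2 ⟨h3, h2⟩⟩, rfl⟩
  rcases hb (P' ↾ R) S' row' w (hH.wal.restr hSR) (Hs : Set (ℕ × ℕ)) with hU |
    ⟨c, B', G, hc, hBK, hBcl, hBS, hGc, hGd, hGa, hGX, hrk, hz⟩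
  · left
    exact hK₁ P S row w Hs P' Sum.inl S' New row' Λ hHs hH
      (HasUniformMinor_mono hU (by
        rw [← Matroid.delete_compl hRE]
        have h1 := Matroid.contract_delete_isMinor P' ∅ (P'.E \ R)
        rwa [Matroid.contract_empty] at h1))
  right
  obtain ⟨B₀, hB₀⟩ : ∃ B₀ : Set α, B₀ = {z | z ∈ E ∧ (Sum.inl z : HT α) ∈ B'} := ⟨_, rfl⟩
  have hB₀E : B₀ ⊆ E := by rw [hB₀]; exact fun z hz => hz.1
  have hjB : Sum.inl '' B₀ = (B' : Set (HT α)) := by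
    ext e
    constructor
    · rintro ⟨z, hz, rfl⟩
      rw [hB₀] at hz
      exact hz.2
    · intro he
      have h1 := (P' ↾ R).closure_subset_ground _ (hBcl he)
      rw [Matroid.restrict_ground_eq, hR] at h1
      rcases h1 with h1 | ⟨z, hz, rfl⟩
      · exact absurd h1 (Set.disjoint_left.1 hBS he)
      · exact ⟨z, by rw [hB₀]; exact ⟨hz, he⟩, rfl⟩
  have hBc : B₀.ncard = B'.card := by
    rw [← Set.ncard_coe_finset, ← hjB, Set.ncard_image_of_injective _ Sum.inl_injective]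
  obtain ⟨c₁, hc₁, hW₁, htr, _, _⟩ := hH.tr_back hc.1 hc.2 hc₀ hW₀
  have hoff : ∀ a, ∀ v ∈ G a, Off Hs v := by
    intro a v hv x hx
    have h1 := apart_iff.1 (hGX a v hv x hx)
    omega
  obtain ⟨St, hSt⟩ : ∃ St : Fin (Qf B'.card) → Set α,
      ∀ a, St a = {e | e ∈ c₁ ∧ ∃ v ∈ G a, v ∈ row e} := ⟨_, fun _ => rfl⟩
  have hst : ∀ a, {e | e ∈ c ∧ ∃ v ∈ G a, v ∈ row' e} = Sum.inl '' St a ∧
      St a ⊆ S \ Tch S row Hs := by
    intro a
    have h1 := hH.stars hc₁ hW₁ (Z := (G a : Set (ℕ × ℕ))) (fun v hv => hoff a v hv)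
    rw [htr] at h1
    rw [hSt]
    exact h1
  have hGd4 : ∀ a, ∀ v ∈ G a, DeepR (0, 0) (w + 1) (w + 1) 4 v := by
    intro a v hv
    have h1 := hGd a v hv
    unfold DeepR at h1 ⊢
    omega
  have hG3 : ∀ a, ∀ v ∈ G a, ∀ v' ∈ G a, v ≠ v' → 3 ≤ sd v v' := by
    intro a v hv v' hv' hne
    have h1 := apart_iff.1 (hGa a a v hv v' hv' (fun h2 => hne (Prod.mk.inj h2).2))
    omega
  -- translation of sets
  have hset : ∀ A : Set α, S' \ Sum.inl '' A ∪ (B' : Set (HT α)) =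
      Sum.inl '' ((S \ A ∪ B₀) \ Tch S row Hs) ∪ New := by
    intro A
    rw [hH.minus A, ← hjB]
    ext e
    constructor
    · rintro ((⟨a, ha, rfl⟩ | he) | ⟨a, ha, rfl⟩)
      · exact Or.inl ⟨a, ⟨Or.inl ha.1, ha.2⟩, rfl⟩
      · exact Or.inr he
      · exact Or.inl ⟨a, ⟨Or.inr ha, hET a (hB₀E ha)⟩, rfl⟩
    · rintro (⟨a, ⟨ha | ha, haT⟩, rfl⟩ | he)
      · exact Or.inl (Or.inl ⟨a, ⟨ha, haT⟩, rfl⟩)
      · exact Or.inr ⟨a, ha, rfl⟩
      · exact Or.inl (Or.inr he)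
  have hTc : ∀ A X : Set α, A ⊆ S \ Tch S row Hs → S \ A ⊆ X → X ∪ Tch S row Hs = X := by
    intro A X hA hX
    refine union_eq_self_of_subset_right ?_
    exact fun e he => hX ⟨he.1, fun h1 => (hA h1).2 he⟩
  have hB'R : (B' : Set (HT α)) ⊆ R := by
    rw [← hjB, hR]
    exact (image_mono hB₀E).trans subset_union_right
  refine ⟨Qf B'.card, B₀, St, hQ2 _, hB₀E, by omega, fun a => (hst a).2.trans sdiff_subset,
    ?_, ?_, ?_, ?_, ?_⟩
  · intro a
    rw [hSt]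
    refine (stars_ncard hW₁ (G a)).2.trans ?_
    rw [hGc]
    omega
  · intro a x hx y hy hxy
    rw [hSt] at hx hy
    exact hW₁.inj hx.1 hy.1 hxy
  · intro a b hab
    rw [Set.disjoint_left]
    intro e he he'
    rw [hSt] at he he'
    obtain ⟨he1, v, hv, hve⟩ := he
    obtain ⟨_, v', hv', hve'⟩ := he'
    have h1 := hGa a b v hv v' hv' (fun h2 => hab (Prod.mk.inj h2).1)
    obtain ⟨p, q, hpq, hadj, _⟩ := hW₁.mem e he1
    rw [hpq, Sym2.mem_iff] at hve hve'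
    unfold wadj at hadj
    unfold Apart at h1
    rcases hve with rfl | rfl <;> rcases hve' with rfl | rfl <;> omega
  · intro a
    have h1 := hrk a
    obtain ⟨e1, e2⟩ := hst a
    rw [e1] at h1
    have hs1 : S' \ Sum.inl '' St a ⊆ R := sdiff_subset.trans hSR
    have hs2 : S' \ Sum.inl '' St a ∪ (B' : Set (HT α)) ⊆ R := union_subset hs1 hB'R
    rw [BQ.rk_rest _ (hs2.trans hRE) _ hs2, BQ.rk_rest _ (hs1.trans hRE) _ hs1, hset,
      hH.minus] at h1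
    have hΛ := hH.lam_stars hc.1 hc.2 (Z := (G a : Set (ℕ × ℕ))) hw (fun v hv => hoff a v hv)
      (fun v hv => hGd4 a v hv) (fun v hv v' hv' => hG3 a v hv v' hv')
    have e3 : S' \ {e | e ∈ c ∧ ∃ v ∈ (G a : Set (ℕ × ℕ)), v ∈ row' e} = S' \ Sum.inl '' St a := by
      rw [← e1]
      rfl
    rw [e3, hH.minus] at hΛ
    have hXE : S \ St a ⊆ P.E := sdiff_subset.trans hL.sub
    have h2 := hH.rk' hL.sub hXE hΛ
    have h3 := hH.rk' hL.sub (X := S \ St a ∪ B₀) (union_subset hXE (hB₀E.trans hEE))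
      (hΛ.trans (P'.closure_subset_closure (by
        rintro e (⟨x, hx, rfl⟩ | he)
        · exact Or.inl ⟨x, ⟨Or.inl hx.1, hx.2⟩, rfl⟩
        · exact Or.inr he)))
    rw [hTc _ _ e2 Subset.rfl] at h2
    rw [hTc _ _ e2 subset_union_left] at h3
    omega
  · intro z hzE
    obtain ⟨Bad, hBad, hgood⟩ := hz (Sum.inl z) (hjE z hzE)
    refine ⟨Bad, hBad, ?_⟩
    intro a ha
    obtain ⟨N₁, hN₁, hgood⟩ := hgood a ha
    obtain ⟨N₂, hN₂, hnear⟩ := nearF ((Finset.univ.biUnion G) ∪ Hs) δ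
    refine ⟨N₁ ∪ N₂, ?_, ?_⟩
    · have h1 : ((Finset.univ.biUnion G) ∪ Hs).card ≤ Qm * K + h := by
        refine (Finset.card_union_le _ _).trans (Nat.add_le_add ?_ hHs)
        refine (Finset.card_biUnion_le_card_mul Finset.univ G K (fun a _ => by
          rw [hGc]; omega)).trans ?_
        rw [Finset.card_univ, Fintype.card_fin]
        exact Nat.mul_le_mul_right _ (hQm _ hBK)
      exact (Finset.card_union_le _ _).trans (Nat.add_le_add hN₁
        (hN₂.trans (Nat.mul_le_mul_right _ h1)))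
    intro c' hc' hW' v hv hvN
    rw [Finset.mem_union, not_or] at hvN
    have hvG : ∀ b, ∀ x ∈ G b, Apart δ v x := fun b x hx => hnear v hvN.2 x
      (Finset.mem_union_left _ (Finset.mem_biUnion.2 ⟨b, Finset.mem_univ _, hx⟩))
    have hvH : ∀ x ∈ Hs, Apart δ v x := fun x hx => hnear v hvN.2 x (Finset.mem_union_right _ hx)
    have hvoff : Off Hs v := by
      intro x hx
      have h1 := apart_iff.1 (hvH x hx)
      omega
    have h1 := hgood (tr S row Hs Sum.inl New c') ⟨hH.tr_sub hc', hH.tr_wall hc' hW'⟩ v hv hvN.1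
      hvG hvH
    -- common representatives
    obtain ⟨c₂, ⟨hc₂, hW₂⟩, hst₂⟩ := combineW (S := S) (row := row) (w := w)
      (Finset.univ : Finset Bool) ⟨hc₀, hW₀⟩ (fun b => cond b c' c₁) (by
        rintro (_ | _) _
        · exact ⟨hc₁, hW₁⟩
        · exact ⟨hc', hW'⟩) (fun b => cond b {v} (G a)) (by
        rintro (_ | _) _ (_ | _) _ hne x hx y hy
        · exact absurd rfl hne
        · simp only [cond_false] at hx
          simp only [cond_true, Finset.mem_singleton] at hy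
          rw [hy]
          exact ((hvG a x hx).symm).mono (by omega)
        · simp only [cond_false] at hy
          simp only [cond_true, Finset.mem_singleton] at hx
          rw [hx]
          exact (hvG a y hy).mono (by omega)
        · exact absurd rfl hne)
    have hs1 : ∀ x ∈ G a, {e | e ∈ c₂ ∧ x ∈ row e} = {e | e ∈ c₁ ∧ x ∈ row e} := fun x hx =>
      hst₂ false (Finset.mem_univ _) x hx
    have hs2 : {e | e ∈ c₂ ∧ v ∈ row e} = {e | e ∈ c' ∧ v ∈ row e} :=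
      hst₂ true (Finset.mem_univ _) v (Finset.mem_singleton_self _)
    obtain ⟨A, hA⟩ : ∃ A, A = {e | e ∈ c₂ ∧ ∃ x ∈ (insert v (G a : Set (ℕ × ℕ))), x ∈ row e} :=
      ⟨_, rfl⟩
    have hAe : A = St a ∪ {e | e ∈ c' ∧ v ∈ row e} := by
      rw [hA, hSt]
      ext e
      have k2 := Set.ext_iff.1 hs2 e
      simp only [mem_ofPred_eq] at k2
      constructor
      · rintro ⟨h2, x, rfl | hx, h3⟩
        · exact Or.inr (k2.1 ⟨h2, h3⟩)
        · exact Or.inl ⟨((Set.ext_iff.1 (hs1 x hx) e).1 ⟨h2, h3⟩).1, x, hx, h3⟩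
      · rintro (⟨h2, x, hx, h3⟩ | h2)
        · exact ⟨((Set.ext_iff.1 (hs1 x hx) e).2 ⟨h2, h3⟩).1, x, Or.inr hx, h3⟩
        · exact ⟨(k2.2 h2).1, v, Or.inl rfl, h2.2⟩
    have hZoff : ∀ x ∈ insert v (G a : Set (ℕ × ℕ)), Off Hs x := by
      rintro x (rfl | hx)
      · exact hvoff
      · exact hoff a x hx
    obtain ⟨f1, f2⟩ := hH.stars hc₂ hW₂ hZoff
    rw [← hA] at f1 f2
    have hΛ := hH.lam_stars (hH.tr_sub hc₂) (hH.tr_wall hc₂ hW₂) hw hZoff (by
      rintro x (rfl | hx)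
      · unfold DeepR at hv ⊢
        omega
      · exact hGd4 a x hx) (by
      rintro x (rfl | hx) y (rfl | hy) hne
      · exact absurd rfl hne
      · have h2 := apart_iff.1 (hvG a y hy)
        omega
      · have h2 := apart_iff.1 (hvG a x hx).symm
        omega
      · exact hG3 a x hx y hy hne)
    rw [f1] at hΛ
    -- the set
    have f3 : {e | e ∈ tr S row Hs Sum.inl New c' ∧ v ∈ row' e} =
        Sum.inl '' {e | e ∈ c' ∧ v ∈ row e} := by
      have h2 := (hH.stars hc' hW' (Z := {v}) (by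
        intro x hx
        rw [mem_singleton_iff.1 hx]
        exact hvoff)).1
      simp only [mem_singleton_iff, exists_eq_left] at h2
      exact h2
    have f4 : (S' \ {e | e ∈ c ∧ ∃ x ∈ G a, x ∈ row' e}) \
        {e | e ∈ tr S row Hs Sum.inl New c' ∧ v ∈ row' e} ∪ (B' : Set (HT α)) =
        S' \ Sum.inl '' A ∪ (B' : Set (HT α)) := by
      rw [(hst a).1, f3, hAe, image_union, sdiff_sdiff_left]
      rfl
    rw [f4] at h1
    have hsR : S' \ Sum.inl '' A ∪ (B' : Set (HT α)) ⊆ R :=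
      union_subset (sdiff_subset.trans hSR) hB'R
    rw [Matroid.restrict_closure_eq _ hsR hRE] at h1
    have h1' := h1.1
    rw [hset] at h1'
    rw [hH.minus] at hΛ
    have hXE : S \ A ∪ B₀ ⊆ P.E := union_subset (sdiff_subset.trans hL.sub) (hB₀E.trans hEE)
    have h2 := (hH.clo hL.sub hXE (hΛ.trans (P'.closure_subset_closure (by
        rintro e (⟨x, hx, rfl⟩ | he)
        · exact Or.inl ⟨x, ⟨Or.inl hx.1, hx.2⟩, rfl⟩
        · exact Or.inr he))) (hEE hzE) (hET z hzE)).1 h1'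
    rw [hTc _ _ f2 subset_union_left] at h2
    have f5 : (S \ St a) \ {e | e ∈ c' ∧ v ∈ row e} = S \ A := by
      rw [hAe, sdiff_sdiff_left]
      rfl
    rw [f5]
    exact h2

end DA
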