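import Pool.Agent.DA.B1W

/-!
# Row B1 on the wall, quorum form

As `b1W`, but with `Qf |B|` groups, where `Qf j` is much larger than `Qf (j + 1)`: for every element
`z` all groups but a fraction `1 / t` are good.  All groups are apart from a given set `X₀`.
-/

open Set BIC BICS
open scoped Matroid

namespace DA

open Gad

universe u

/-- **B1 on the wall, quorum form.** -/
theorem b1WQ (k t : ℕ) (ht : 1 ≤ t) : ∃ (K β D δ : ℕ) (Qf : ℕ → ℕ), (∀ j, 2 ≤ Qf j) ∧ 2 ≤ δ ∧
    ∀ {α : Type u} (P : Matroid α) [P.Finite] (S : Set α) (row : α → Sym2 (ℕ × ℕ)) (m : ℕ),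
    RWal P S row m → ∀ X₀ : Set (ℕ × ℕ),
    HasUniformMinor P k ∨ ∃ (c : Set α) (B : Finset α) (G : Fin (Qf B.card) → Finset (ℕ × ℕ)),
      (c ⊆ S ∧ WallE c row m ∅) ∧ B.card < K ∧ (B : Set α) ⊆ P.closure S ∧
      Disjoint (B : Set α) S ∧ (∀ a, (G a).card = B.card) ∧
      (∀ a, ∀ v ∈ G a, DeepR (0, 0) (m + 1) (m + 1) D v) ∧
      (∀ a b, ∀ v ∈ G a, ∀ w ∈ G b, (a, v) ≠ (b, w) → Apart δ v w) ∧
      (∀ a, ∀ v ∈ G a, ∀ x ∈ X₀, Apart δ v x) ∧
      (∀ a, rk P (S \ {e | e ∈ c ∧ ∃ v ∈ G a, v ∈ row e} ∪ (B : Set α)) =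
        rk P (S \ {e | e ∈ c ∧ ∃ v ∈ G a, v ∈ row e}) + B.card) ∧
      ∀ z ∈ P.closure S, ∃ Bad : Finset (Fin (Qf B.card)), t * Bad.card ≤ Qf B.card ∧
        ∀ a ∉ Bad, ∃ N : Finset (ℕ × ℕ), N.card ≤ β ∧
        ∀ c', (c' ⊆ S ∧ WallE c' row m ∅) → ∀ v, DeepR (0, 0) (m + 1) (m + 1) D v → v ∉ N →
          (∀ b, ∀ w ∈ G b, Apart δ v w) → (∀ x ∈ X₀, Apart δ v x) →
          z ∈ P.closure ((S \ {e | e ∈ c ∧ ∃ w ∈ G a, w ∈ row e}) \ {e | e ∈ c' ∧ v ∈ row e} ∪
            (B : Set α)) := by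
  classical
  obtain ⟨K, Q₀, D, δ₀, hext⟩ := ext_rowW.{u} k
  obtain ⟨δ, hδ⟩ : ∃ δ, δ = δ₀ + 2 := ⟨_, rfl⟩
  obtain ⟨Qf, hQf⟩ : ∃ Qf : ℕ → ℕ, ∀ j, Qf j = t ^ (K - j) * (Q₀ + 2) := ⟨_, fun _ => rfl⟩
  obtain ⟨β, hβ⟩ : ∃ β, β = t ^ K * (Q₀ + 2) * ((2 * δ + 1) * (2 * δ + 1)) := ⟨_, rfl⟩
  have hQ2 : ∀ j, Q₀ + 2 ≤ Qf j := by
    intro j
    rw [hQf]
    exact Nat.le_mul_of_pos_left _ (Nat.pow_pos (by omega))
  have hQm : ∀ j, Qf j ≤ t ^ K * (Q₀ + 2) := by
    intro j
    rw [hQf]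
    exact Nat.mul_le_mul_right _ (Nat.pow_le_pow_right (by omega) (by omega))
  refine ⟨K, β, D, δ, Qf, fun j => by have := hQ2 j; omega, by omega, ?_⟩
  intro α P _ S row m hG X₀
  by_contra hcon
  push Not at hcon
  obtain ⟨hhum, hno⟩ := hcon
  obtain ⟨c₀, hc₀⟩ := exists_repW hG
  have hstate : ∀ j ≤ K, ∃ (c : Set α) (B : Finset α) (G : Fin (Qf j) → Finset (ℕ × ℕ)),
      (c ⊆ S ∧ WallE c row m ∅) ∧ B.card = j ∧ (B : Set α) ⊆ P.closure S ∧
      Disjoint (B : Set α) S ∧ (∀ a, (G a).card = j) ∧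
      (∀ a, ∀ v ∈ G a, DeepR (0, 0) (m + 1) (m + 1) D v) ∧
      (∀ a b, ∀ v ∈ G a, ∀ w ∈ G b, (a, v) ≠ (b, w) → Apart δ v w) ∧
      (∀ a, ∀ v ∈ G a, ∀ x ∈ X₀, Apart δ v x) ∧
      (∀ a, rk P (S \ {e | e ∈ c ∧ ∃ v ∈ G a, v ∈ row e} ∪ (B : Set α)) =
        rk P (S \ {e | e ∈ c ∧ ∃ v ∈ G a, v ∈ row e}) + j) := by
    intro j
    induction j with
    | zero =>
      intro _
      refine ⟨c₀, ∅, fun _ => ∅, hc₀, rfl, by simp, by simp, fun _ => rfl, by simp, by simp,
        by simp, ?_⟩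
      intro a
      simp
    | succ j ih =>
      intro hj
      obtain ⟨c, B, G₁, hc, hBj, hB, hBS, hGB₁, hGd₁, hGa₁, hGX₁, hrk₁⟩ := ih (by omega)
      subst hBj
      obtain ⟨z, hz, hzno⟩ := hno c B G₁ hc (by omega) hB hBS hGB₁ hGd₁ hGa₁ hGX₁ hrk₁
      obtain ⟨F, hF⟩ : ∃ F : Finset (Fin (Qf B.card)), F = Finset.univ.filter fun a =>
          ∀ N : Finset (ℕ × ℕ), N.card ≤ β → ∃ c', (c' ⊆ S ∧ WallE c' row m ∅) ∧ ∃ v,
            DeepR (0, 0) (m + 1) (m + 1) D v ∧ v ∉ N ∧ (∀ b, ∀ w ∈ G₁ b, Apart δ v w) ∧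
            (∀ x ∈ X₀, Apart δ v x) ∧
            z ∉ P.closure ((S \ {e | e ∈ c ∧ ∃ w ∈ G₁ a, w ∈ row e}) \
              {e | e ∈ c' ∧ v ∈ row e} ∪ (B : Set α)) := ⟨_, rfl⟩
      have hFc : Qf (B.card + 1) ≤ F.card := by
        by_contra hlt
        have h1 : t * F.card ≤ Qf B.card := by
          have h2 : Qf B.card = t * Qf (B.card + 1) := by
            rw [hQf, hQf, ← mul_assoc, ← pow_succ', show K - (B.card + 1) + 1 = K - B.card by omega]
          calc t * F.card ≤ t * Qf (B.card + 1) := Nat.mul_le_mul_left _ (by omega)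
            _ = Qf B.card := h2.symm
        obtain ⟨a, ha, haN⟩ := hzno F h1
        apply ha
        rw [hF, Finset.mem_filter]
        exact ⟨Finset.mem_univ _, haN⟩
      obtain ⟨Q, hQ⟩ : ∃ Q, Q = Qf (B.card + 1) := ⟨_, rfl⟩
      rw [← hQ] at hFc ⊢
      obtain ⟨F', hF', hF'c⟩ := Finset.exists_subset_card_eq hFc
      obtain ⟨s, hsi, hsF⟩ : ∃ s : Fin Q → Fin (Qf B.card),
          Function.Injective s ∧ ∀ a, s a ∈ F :=
        ⟨F'.orderEmbOfFin hF'c, (F'.orderEmbOfFin hF'c).injective, fun a =>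
          hF' (Finset.orderEmbOfFin_mem _ _ _)⟩
      have hQ2' : 2 ≤ Q := by
        have := hQ2 (B.card + 1)
        omega
      obtain ⟨G, hGG⟩ : ∃ G : Fin Q → Finset (ℕ × ℕ), ∀ a, G a = G₁ (s a) := ⟨_, fun _ => rfl⟩
      have hGB : ∀ a, (G a).card = B.card := fun a => by rw [hGG]; exact hGB₁ _
      have hGd : ∀ a, ∀ v ∈ G a, DeepR (0, 0) (m + 1) (m + 1) D v := by
        intro a v hv
        rw [hGG] at hv
        exact hGd₁ _ v hv
      have hGa : ∀ a b, ∀ v ∈ G a, ∀ w ∈ G b, (a, v) ≠ (b, w) → Apart δ v w := by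
        intro a b v hv w hw hne
        rw [hGG] at hv hw
        refine hGa₁ _ _ v hv w hw fun h => hne ?_
        rw [Prod.mk.injEq] at h ⊢
        exact ⟨hsi h.1, h.2⟩
      have hGX : ∀ a, ∀ v ∈ G a, ∀ x ∈ X₀, Apart δ v x := by
        intro a v hv
        rw [hGG] at hv
        exact hGX₁ _ v hv
      have hrk : ∀ a, rk P (S \ {e | e ∈ c ∧ ∃ v ∈ G a, v ∈ row e} ∪ (B : Set α)) =
          rk P (S \ {e | e ∈ c ∧ ∃ v ∈ G a, v ∈ row e}) + B.card := by
        intro a
        rw [hGG]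
        exact hrk₁ _
      obtain ⟨f, hf⟩ := greedy_apart Q δ β (by
          rw [hβ, hQ]
          exact Nat.mul_le_mul_right _ (hQm _)) (fun a (x : (ℕ × ℕ) × Set α) => ∀ ha : a < Q,
          ((x.2 ⊆ S ∧ WallE x.2 row m ∅) ∧ DeepR (0, 0) (m + 1) (m + 1) D x.1 ∧
          (∀ b, ∀ w ∈ G b, Apart δ x.1 w) ∧
          z ∉ P.closure ((S \ {e | e ∈ c ∧ ∃ w ∈ G ⟨a, ha⟩, w ∈ row e}) \
            {e | e ∈ x.2 ∧ x.1 ∈ row e} ∪ (B : Set α))) ∧ ∀ y ∈ X₀, Apart δ x.1 y)
          (fun x => x.1) (by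
        intro a ha N hN
        have h1 := hsF ⟨a, ha⟩
        rw [hF, Finset.mem_filter] at h1
        obtain ⟨c', hc', v, hv, hvN, hvG, hvX, hzv⟩ := h1.2 N hN
        refine ⟨(v, c'), fun _ => ⟨⟨hc', hv, fun b w hw => ?_, ?_⟩, hvX⟩, hvN⟩
        · rw [hGG] at hw
          exact hvG _ w hw
        · rw [hGG]
          exact hzv) ⟨((0, 0), ∅)⟩
      obtain ⟨v, hv⟩ : ∃ v : Fin Q → ℕ × ℕ, ∀ a, v a = (f a).1 := ⟨_, fun _ => rfl⟩
      obtain ⟨cc, hcc⟩ : ∃ cc : Fin Q → Set α, ∀ a, cc a = (f a).2 := ⟨_, fun _ => rfl⟩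
      have h1 : ∀ a, (cc a ⊆ S ∧ WallE (cc a) row m ∅) ∧ DeepR (0, 0) (m + 1) (m + 1) D (v a) ∧
          (∀ b, ∀ w ∈ G b, Apart δ (v a) w) ∧
          z ∉ P.closure ((S \ {e | e ∈ c ∧ ∃ w ∈ G a, w ∈ row e}) \
            {e | e ∈ cc a ∧ v a ∈ row e} ∪ (B : Set α)) := by
        intro a
        rw [hv, hcc]
        exact ((hf a a.2).1 a.2).1
      have hX1 : ∀ a, ∀ x ∈ X₀, Apart δ (v a) x := by
        intro a
        rw [hv]
        exact ((hf a a.2).1 a.2).2
      have h2 : ∀ a b, a ≠ b → Apart δ (v a) (v b) := by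
        intro a b hab
        rw [hv, hv]
        rcases Nat.lt_or_gt_of_ne (fun h => hab (Fin.ext h)) with h | h
        · exact ((hf b b.2).2 a h).symm
        · exact (hf a a.2).2 b h
      -- the new representatives
      obtain ⟨c₁, hc₁, hc₁e⟩ := combineW (Finset.univ : Finset (Option (Fin Q))) hc
        (fun i => i.elim c cc) (by
          rintro (_ | a) _
          · exact hc
          · exact (h1 a).1) (fun i => i.elim (Finset.univ.biUnion G) (fun a => {v a})) (by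
          have hmono : ∀ {x y : ℕ × ℕ}, Apart δ x y → Apart 2 x y := fun h => h.mono (by omega)
          rintro (_ | a) _ (_ | b) _ hab x hx y hy
          · exact absurd rfl hab
          · simp only [Option.elim_none, Finset.mem_biUnion, Finset.mem_univ, true_and] at hx
            simp only [Option.elim_some, Finset.mem_singleton] at hy
            obtain ⟨b', hb'⟩ := hx
            subst hy
            exact hmono ((h1 b).2.2.1 b' x hb').symm
          · simp only [Option.elim_none, Finset.mem_biUnion, Finset.mem_univ, true_and] at hy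
            simp only [Option.elim_some, Finset.mem_singleton] at hx
            obtain ⟨b', hb'⟩ := hy
            subst hx
            exact hmono ((h1 a).2.2.1 b' y hb')
          · simp only [Option.elim_some, Finset.mem_singleton] at hx hy
            subst hx hy
            exact hmono (h2 a b (fun h => hab (by rw [h]))))
      have hstG : ∀ b, ∀ w ∈ G b, {e | e ∈ c₁ ∧ w ∈ row e} = {e | e ∈ c ∧ w ∈ row e} := by
        intro b w hw
        exact hc₁e none (Finset.mem_univ _) w (by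
          simp only [Option.elim_none, Finset.mem_biUnion, Finset.mem_univ, true_and]
          exact ⟨b, hw⟩)
      have hstv : ∀ a, {e | e ∈ c₁ ∧ v a ∈ row e} = {e | e ∈ cc a ∧ v a ∈ row e} := by
        intro a
        exact hc₁e (some a) (Finset.mem_univ _) (v a) (by simp)
      have hS' : ∀ a, S \ {e | e ∈ c₁ ∧ ∃ w ∈ insert (v a) (G a), w ∈ row e} =
          (S \ {e | e ∈ c ∧ ∃ w ∈ G a, w ∈ row e}) \ {e | e ∈ cc a ∧ v a ∈ row e} := by
        intro a
        ext e
        have e1 := fun w hw => Set.ext_iff.1 (hstG a w hw) e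
        have e2 := Set.ext_iff.1 (hstv a) e
        simp only [mem_ofPred_eq] at e1 e2
        simp only [mem_sdiff, mem_ofPred_eq, Finset.mem_insert]
        constructor
        · rintro ⟨he, h3⟩
          refine ⟨⟨he, ?_⟩, ?_⟩
          · rintro ⟨h4, w, hw, hwe⟩
            exact h3 ⟨((e1 w hw).2 ⟨h4, hwe⟩).1, w, Or.inr hw, hwe⟩
          · rintro ⟨h4, hwe⟩
            exact h3 ⟨(e2.2 ⟨h4, hwe⟩).1, v a, Or.inl rfl, hwe⟩
        · rintro ⟨⟨he, h3⟩, h4⟩
          refine ⟨he, ?_⟩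
          rintro ⟨h5, w, rfl | hw, hwe⟩
          · exact h4 (e2.1 ⟨h5, hwe⟩)
          · exact h3 ⟨((e1 w hw).1 ⟨h5, hwe⟩).1, w, hw, hwe⟩
      have hBE : (B : Set α) ⊆ P.E := hB.trans (P.closure_subset_ground _)
      have hzB : z ∉ B := by
        intro h
        exact (h1 ⟨0, by omega⟩).2.2.2 (P.mem_closure_of_mem' (Or.inr h) (hBE h))
      have hzS : z ∉ S := by
        intro h
        have h3 : ∀ a, ∃ w ∈ insert (v a) (G a), w ∈ row z := by
          intro a
          by_contra hcon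
          apply (h1 a).2.2.2
          rw [← hS' a]
          exact P.mem_closure_of_mem' (Or.inl ⟨h, fun h4 => hcon h4.2⟩) (hG.sub h)
        obtain ⟨p, q, hpq, hadj, _⟩ := hG.mem z h
        obtain ⟨w, hw, hwz⟩ := h3 ⟨0, by omega⟩
        obtain ⟨w', hw', hwz'⟩ := h3 ⟨1, by omega⟩
        have h4 : Apart δ w w' := by
          rw [Finset.mem_insert] at hw hw'
          rcases hw with rfl | hw <;> rcases hw' with rfl | hw'
          · exact h2 _ _ (by simp [Fin.ext_iff])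
          · exact (h1 _).2.2.1 _ _ hw'
          · exact ((h1 _).2.2.1 _ _ hw).symm
          · exact hGa _ _ _ hw _ hw' (by simp [Fin.ext_iff])
        rw [hpq, Sym2.mem_iff] at hwz hwz'
        unfold wadj at hadj
        unfold Apart at h4
        rcases hwz with rfl | rfl <;> rcases hwz' with rfl | rfl <;> omega
      have hvG : ∀ a, v a ∉ G a := by
        intro a h
        have := (h1 a).2.2.1 a (v a) h
        unfold Apart at this
        omega
      refine ⟨c₁, insert z B, fun a => insert (v a) (G a), hc₁, ?_, ?_, ?_, ?_, ?_, ?_, ?_, ?_⟩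
      · rw [Finset.card_insert_of_notMem hzB]
      · intro e he
        rw [Finset.coe_insert] at he
        rcases he with rfl | he
        · exact hz
        · exact hB he
      · rw [Finset.coe_insert, Set.disjoint_left]
        rintro e (rfl | he) heS
        · exact hzS heS
        · exact Set.disjoint_left.1 hBS he heS
      · intro a
        rw [Finset.card_insert_of_notMem (hvG a), hGB]
      · intro a w hw
        rw [Finset.mem_insert] at hw
        rcases hw with rfl | hw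
        · exact (h1 a).2.1
        · exact hGd a w hw
      · intro a b x hx y hy hne
        rw [Finset.mem_insert] at hx hy
        rcases hx with rfl | hx <;> rcases hy with rfl | hy
        · exact h2 a b (fun h => hne (by rw [h]))
        · exact (h1 a).2.2.1 b y hy
        · exact ((h1 b).2.2.1 a x hx).symm
        · exact hGa a b x hx y hy hne
      · intro a x hx
        rw [Finset.mem_insert] at hx
        rcases hx with rfl | hx
        · exact hX1 a
        · exact hGX a x hx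
      · intro a
        rw [hS' a]
        obtain ⟨Sa, hSa⟩ : ∃ Sa, Sa = S \ {e | e ∈ c ∧ ∃ w ∈ G a, w ∈ row e} := ⟨_, rfl⟩
        obtain ⟨St, hSt⟩ : ∃ St, St = {e | e ∈ cc a ∧ v a ∈ row e} := ⟨_, rfl⟩
        have h3 := hrk a
        have h4 := (h1 a).2.2.2
        rw [← hSa] at h3 h4
        rw [← hSt] at h4
        rw [← hSa, ← hSt]
        have hzE : z ∈ P.E := P.closure_subset_ground _ hz
        have h5 : Sa \ St ∪ ((insert z B : Finset α) : Set α) =
            insert z (Sa \ St ∪ (B : Set α)) := by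
          rw [Finset.coe_insert, Set.union_insert]
        rw [h5, rk_insert_notMem hzE h4]
        have h6 : rk P (Sa \ St ∪ (B : Set α)) ≤ rk P (Sa \ St) + B.card := by
          have := rk_union_le (M := P) (X := Sa \ St) (Y := (B : Set α)) (Finset.finite_toSet _)
          rwa [Set.ncard_coe_finset] at this
        have h7 := rk_submod P (Sa \ St ∪ (B : Set α)) Sa
        have h8 : Sa \ St ∪ (B : Set α) ∪ Sa = Sa ∪ (B : Set α) := by
          ext e
          simp only [mem_union, mem_sdiff]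
          tauto
        have h9 : rk P (Sa \ St) ≤ rk P ((Sa \ St ∪ (B : Set α)) ∩ Sa) :=
          rk_mono P (subset_inter subset_union_left sdiff_subset)
        rw [h8] at h7
        omega
  obtain ⟨c, B, G, hc, hBj, hB, hBS, hGB, hGd, hGa, _, hrk⟩ := hstate K le_rfl
  have hQK : Q₀ ≤ Qf K := by have := hQ2 K; omega
  apply hhum
  refine hext P S row m hG c hc B hB hBS hBj (fun a => G (Fin.castLE hQK a))
    (fun a => hGB _) (fun a => hGd _) ?_ ?_
  · intro a b x hx y hy hne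
    refine (hGa _ _ x hx y hy ?_).mono (by omega)
    intro h
    rw [Prod.mk.injEq] at h
    apply hne
    rw [Prod.mk.injEq]
    exact ⟨Fin.castLE_injective _ h.1, h.2⟩
  · intro a
    exact hrk _

end DA
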