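import Pool.Agent.DA.WQA

/-!
# Full sets of a brick wall with a few deep vertices or edges removed
-/

open Set BIC BICS
open scoped Matroid

namespace DA

open Gad

universe u

open Classical in
/-- the orientation: to the right, then up along the last two columns; `B` are the vertices which
go vertically -/
noncomputable def nbw (w : ℕ) (B : Set (ℕ × ℕ)) (v : ℕ × ℕ) : ℕ × ℕ :=
  if v.2 = w then (if v.1 + 3 = w then (v.1, v.2 - 1) else if v.1 + 3 < w then (v.1 + 1, v.2)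
    else (v.1 - 1, v.2))
  else if (v.1 = w ∧ (w + v.2) % 2 = 0) ∨ (v.1 + 1 = w ∧ (w + v.2) % 2 = 1) then (v.1, v.2 + 1)
  else if v.1 = w then (v.1 - 1, v.2)
  else if v ∈ B then vn v else (v.1 + 1, v.2)

lemma nbw_cases (w : ℕ) (B : Set (ℕ × ℕ)) (y₀ : ℕ) (hB : ∀ v ∈ B, v.2 = y₀ ∧ v.1 + 4 ≤ w)
    (hy : 1 ≤ y₀ ∧ y₀ + 3 ≤ w) (v : ℕ × ℕ) (hv : v.1 ≤ w ∧ v.2 ≤ w) :
    (v.2 = w ∧ v.1 + 3 = w ∧ nbw w B v = (v.1, v.2 - 1)) ∨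
    (v.2 = w ∧ v.1 + 3 < w ∧ nbw w B v = (v.1 + 1, v.2)) ∨
    (v.2 = w ∧ w < v.1 + 3 ∧ nbw w B v = (v.1 - 1, v.2)) ∨
    (v.2 < w ∧ v.1 = w ∧ (w + v.2) % 2 = 0 ∧ nbw w B v = (v.1, v.2 + 1)) ∨
    (v.2 < w ∧ v.1 + 1 = w ∧ (w + v.2) % 2 = 1 ∧ nbw w B v = (v.1, v.2 + 1)) ∨
    (v.2 < w ∧ v.1 = w ∧ (w + v.2) % 2 = 1 ∧ nbw w B v = (v.1 - 1, v.2)) ∨
    (v.2 = y₀ ∧ v.1 + 4 ≤ w ∧ v ∈ B ∧ (v.1 + v.2) % 2 = 0 ∧ nbw w B v = (v.1, v.2 + 1)) ∨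
    (v.2 = y₀ ∧ v.1 + 4 ≤ w ∧ v ∈ B ∧ (v.1 + v.2) % 2 = 1 ∧ nbw w B v = (v.1, v.2 - 1)) ∨
    (v.2 < w ∧ v.1 < w ∧ (v.1 + 1 = w → (w + v.2) % 2 = 0) ∧ v ∉ B ∧
      nbw w B v = (v.1 + 1, v.2)) := by
  unfold nbw
  split_ifs with g1 g2 g3 g4 g5 g6
  · exact Or.inl ⟨g1, g2, rfl⟩
  · exact Or.inr (Or.inl ⟨g1, g3, rfl⟩)
  · exact Or.inr (Or.inr (Or.inl ⟨g1, by omega, rfl⟩))
  · rcases g4 with ⟨h1, h2⟩ | ⟨h1, h2⟩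
    · exact Or.inr (Or.inr (Or.inr (Or.inl ⟨by omega, h1, h2, rfl⟩)))
    · exact Or.inr (Or.inr (Or.inr (Or.inr (Or.inl ⟨by omega, h1, h2, rfl⟩))))
  · exact Or.inr (Or.inr (Or.inr (Or.inr (Or.inr (Or.inl ⟨by omega, g5, by omega, rfl⟩)))))
  · have h1 := hB v g6
    unfold vn
    split_ifs with g7
    · exact Or.inr (Or.inr (Or.inr (Or.inr (Or.inr (Or.inr (Or.inl
        ⟨h1.1, h1.2, g6, g7, rfl⟩))))))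
    · exact Or.inr (Or.inr (Or.inr (Or.inr (Or.inr (Or.inr (Or.inr (Or.inl
        ⟨h1.1, h1.2, g6, by omega, rfl⟩)))))))
  · exact Or.inr (Or.inr (Or.inr (Or.inr (Or.inr (Or.inr (Or.inr (Or.inr
        ⟨by omega, by omega, by omega, g6, rfl⟩)))))))

/-- A brick wall without some deep vertices of one row is full, also if edges to the right of some
vertices of this row are missing. -/
theorem wall_full {α : Type*} {S : Set α} {ends : α → Sym2 (ℕ × ℕ)} {w : ℕ} (B Z : Set (ℕ × ℕ))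
    (y₀ : ℕ) (hB : ∀ v ∈ B, v.2 = y₀ ∧ v.1 + 4 ≤ w) (hy : 1 ≤ y₀ ∧ y₀ + 3 ≤ w)
    (hZ : ∀ v ∈ Z, v.2 = y₀ ∧ 1 ≤ v.1 ∧ v.1 + 3 ≤ w) (hZB : ∀ x y, (x + 1, y) ∈ Z → (x, y) ∈ B)
    (hS : ∀ p q, wadj p q → p ∈ rect 0 0 (w + 1) (w + 1) \ Z → q ∈ rect 0 0 (w + 1) (w + 1) \ Z →
      (q.2 = p.2 ∧ q.1 = p.1 + 1 → p ∉ B) → (p.2 = q.2 ∧ p.1 = q.1 + 1 → q ∉ B) →
      ∃ e ∈ S, ends e = s(p, q)) :
    ∃ F, FullB S ends (rect 0 0 (w + 1) (w + 1) \ Z) F := by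
  have hZc : ∀ x z, (x, z) ∈ Z → z = y₀ ∧ 1 ≤ x ∧ x + 3 ≤ w := fun x z h => hZ _ h
  have hin : ∀ v ∈ rect 0 0 (w + 1) (w + 1) \ Z, nbw w B v ∈ rect 0 0 (w + 1) (w + 1) \ Z ∧
      wadj v (nbw w B v) ∧ (∀ x y, nbw w B v = (x, y) → (y = v.2 ∧ x = v.1 + 1 → v ∉ B) ∧
        (v.2 = y ∧ v.1 = x + 1 → (x, y) ∉ B)) := by
    rintro ⟨x, z⟩ ⟨hv, hvZ⟩
    rw [Gad.mem_rct] at hv
    simp only at hv
    have hBc : ∀ x z, (x, z) ∈ B → z = y₀ ∧ x + 4 ≤ w := fun x z h => hB _ h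
    have h1 := nbw_cases w B y₀ hB hy (x, z) (by simp only; omega)
    simp only at h1
    rcases h1 with ⟨a1, a2, a3⟩ | ⟨a1, a2, a3⟩ | ⟨a1, a2, a3⟩ | ⟨a1, a2, a4, a3⟩ |
      ⟨a1, a2, a4, a3⟩ | ⟨a1, a2, a4, a3⟩ | ⟨a1, a2, a5, a4, a3⟩ | ⟨a1, a2, a5, a4, a3⟩ |
      ⟨a1, a2, a4, a5, a3⟩ <;> rw [a3] <;>
    refine ⟨⟨by rw [Gad.mem_rct]; simp only; omega, fun h => ?_⟩, ?_, ?_⟩
    all_goals first
      | (unfold wadj; dsimp only; omega)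
      | (have h5 := hZc _ _ h; omega)
      | exact a5 (hZB _ _ h)
      | (intro x' y' he
         rw [Prod.mk.injEq] at he
         obtain ⟨e1, e2⟩ := he
         refine ⟨fun hh h6 => ?_, fun hh h6 => ?_⟩
         · have h7 := hBc _ _ h6
           simp only at hh
           first
             | omega
             | exact a5 h6
         · have h7 := hBc _ _ h6
           simp only at hh
           omega)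
  refine full_of_nb (nbw w B) (fun v hv => ⟨(hin v hv).1, ?_⟩) ?_
  · obtain ⟨h1, h2, h3⟩ := hin v hv
    obtain ⟨h4, h5⟩ := h3 _ _ rfl
    exact hS v _ h2 hv h1 h4 h5
  · rintro ⟨x, z⟩ hv heq
    have hv' := (hin _ hv).1.1
    have hv0 := hv.1
    rw [Gad.mem_rct] at hv' hv0
    have k1 := nbw_cases w B y₀ hB hy (x, z) (by simp only at hv0 ⊢; omega)
    obtain ⟨⟨x', z'⟩, hx'⟩ : ∃ v', nbw w B (x, z) = v' := ⟨_, rfl⟩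
    have k2 := nbw_cases w B y₀ hB hy (x', z') (by rw [hx'] at hv'; simp only at hv' ⊢; omega)
    rw [hx'] at k1 heq
    rw [heq] at k2
    simp only [Prod.mk.injEq] at k1 k2
    rcases k1 with ⟨a1, a2, a3, a3'⟩ | ⟨a1, a2, a3, a3'⟩ | ⟨a1, a2, a3, a3'⟩ |
      ⟨a1, a2, a4, a3, a3'⟩ | ⟨a1, a2, a4, a3, a3'⟩ | ⟨a1, a2, a4, a3, a3'⟩ |
      ⟨a1, a2, a5, a4, a3, a3'⟩ | ⟨a1, a2, a5, a4, a3, a3'⟩ | ⟨a1, a2, a4, a5, a3, a3'⟩ <;>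
    rcases k2 with ⟨b1, b2, b3, b3'⟩ | ⟨b1, b2, b3, b3'⟩ | ⟨b1, b2, b3, b3'⟩ |
      ⟨b1, b2, b4, b3, b3'⟩ | ⟨b1, b2, b4, b3, b3'⟩ | ⟨b1, b2, b4, b3, b3'⟩ |
      ⟨b1, b2, b5, b4, b3, b3'⟩ | ⟨b1, b2, b5, b4, b3, b3'⟩ | ⟨b1, b2, b4, b5, b3, b3'⟩ <;>
    omega

end DA
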