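import Pool.Agent.DA.SetOm
import Pool.Agent.DA.WallFull

/-!
# Brick walls with rows and free representatives
-/

open Set BIC BICS
open scoped Matroid

namespace DA

open Gad

universe u

/-- `S` consists of the rows of the brick wall on `[0, w] × [0, w]`, `row e` is the row (an edge of
the wall) of the element `e`; for every choice of one representative of every row, the contraction
of all other elements is the bicircular matroid of the wall. -/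
structure RWal {α : Type*} (P : Matroid α) (S : Set α) (row : α → Sym2 (ℕ × ℕ)) (w : ℕ) :
    Prop where
  sub : S ⊆ P.E
  mem : ∀ e ∈ S, ∃ p q, row e = s(p, q) ∧ wadj p q ∧ p ∈ rect 0 0 (w + 1) (w + 1) ∧
    q ∈ rect 0 0 (w + 1) (w + 1)
  surj : ∀ p q, wadj p q → p ∈ rect 0 0 (w + 1) (w + 1) → q ∈ rect 0 0 (w + 1) (w + 1) →
    ∃ e ∈ S, row e = s(p, q)
  bic : ∀ c, c ⊆ S → WallE c row w ∅ → Bic (P ／ (S \ c)) c row

section

variable {α : Type*} {P : Matroid α} {S : Set α} {row : α → Sym2 (ℕ × ℕ)} {w : ℕ}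

lemma exists_repW (h : RWal P S row w) : ∃ c, c ⊆ S ∧ WallE c row w ∅ := by
  classical
  have hg : ∀ s : Sym2 (ℕ × ℕ), ∃ e : Option α, ∀ x ∈ S, row x = s → ∃ y, e = some y ∧ y ∈ S ∧
      row y = s := by
    intro s
    by_cases hs : ∃ x ∈ S, row x = s
    · obtain ⟨x, hx, hxs⟩ := hs
      exact ⟨some x, fun _ _ _ => ⟨x, rfl, hx, hxs⟩⟩
    · exact ⟨none, fun x hx hxs => absurd ⟨x, hx, hxs⟩ hs⟩
  choose g hg using hg
  refine ⟨{e | e ∈ S ∧ g (row e) = some e}, fun e he => he.1, ?_, ?_, ?_⟩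
  · intro e he e' he' hee
    have h1 := he.2
    have h2 := he'.2
    rw [hee] at h1
    rw [h1] at h2
    exact Option.some.inj h2
  · intro e he
    exact h.mem e he.1
  · intro p q hpq hp hq _
    obtain ⟨e, he, h1⟩ := h.surj p q hpq hp hq
    obtain ⟨y, h2, h3, h4⟩ := hg _ e he h1
    exact ⟨y, ⟨h3, by rw [h4]; exact h2⟩, h4⟩

/-- Different representatives near different far apart vertices. -/
lemma combineW {ι : Type*} (C : Finset ι) {c₀ : Set α} (h₀ : c₀ ⊆ S ∧ WallE c₀ row w ∅)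
    (c : ι → Set α) (hc : ∀ i ∈ C, c i ⊆ S ∧ WallE (c i) row w ∅) (A : ι → Finset (ℕ × ℕ))
    (hfar : ∀ i ∈ C, ∀ j ∈ C, i ≠ j → ∀ v ∈ A i, ∀ w ∈ A j, Apart 2 v w) :
    ∃ c', (c' ⊆ S ∧ WallE c' row w ∅) ∧ ∀ i ∈ C, ∀ v ∈ A i,
      {e | e ∈ c' ∧ v ∈ row e} = {e | e ∈ c i ∧ v ∈ row e} := by
  classical
  have huniq : ∀ e ∈ S, (∃ p q, row e = s(p, q) ∧ wadj p q) → ∀ i ∈ C, ∀ j ∈ C, ∀ v ∈ A i,
      ∀ w ∈ A j, v ∈ row e → w ∈ row e → i = j := by
    rintro e _ ⟨p, q, h1, h2⟩ i hi j hj v hv w hw hve hwe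
    by_contra hne
    have h3 := hfar i hi j hj hne v hv w hw
    rw [h1, Sym2.mem_iff] at hve hwe
    unfold wadj at h2
    unfold Apart at h3
    rcases hve with rfl | rfl <;> rcases hwe with rfl | rfl <;> omega
  have hmem : ∀ e, (e ∈ c₀ ∨ ∃ i ∈ C, e ∈ c i) → e ∈ S ∧
      ∃ p q, row e = s(p, q) ∧ wadj p q ∧ p ∈ rect 0 0 (w + 1) (w + 1) ∧
        q ∈ rect 0 0 (w + 1) (w + 1) := by
    rintro e (he | ⟨i, hi, he⟩)
    · exact ⟨h₀.1 he, h₀.2.mem e he⟩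
    · exact ⟨(hc i hi).1 he, (hc i hi).2.mem e he⟩
  refine ⟨{e | (∃ i ∈ C, e ∈ c i ∧ ∃ v ∈ A i, v ∈ row e) ∨
    (e ∈ c₀ ∧ ∀ i ∈ C, ∀ v ∈ A i, v ∉ row e)}, ⟨?_, ?_, ?_, ?_⟩, ?_⟩
  · rintro e (⟨i, hi, he, _⟩ | ⟨he, _⟩)
    · exact (hc i hi).1 he
    · exact h₀.1 he
  · rintro e (⟨i, hi, he, v, hv, hve⟩ | ⟨he, h1⟩) e' (⟨i', hi', he', v', hv', hve'⟩ | ⟨he', h1'⟩)
      hee
    · have h2 := (hmem e (Or.inr ⟨i, hi, he⟩))
      obtain ⟨h2, p, q, h3, h4, _⟩ := h2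
      have h5 := huniq e h2 ⟨p, q, h3, h4⟩ i hi i' hi' v hv v' hv' hve (by rw [hee]; exact hve')
      subst h5
      exact (hc i hi).2.inj he he' hee
    · exact absurd (hee ▸ hve) (h1' i hi v hv)
    · exact absurd (hee ▸ hve') (h1 i' hi' v' hv')
    · exact h₀.2.inj he he' hee
  · rintro e (⟨i, hi, he, _⟩ | ⟨he, _⟩)
    · exact (hmem e (Or.inr ⟨i, hi, he⟩)).2
    · exact (hmem e (Or.inl he)).2
  · intro p q hpq hp hq hm
    by_cases hex : ∃ i ∈ C, ∃ v ∈ A i, v ∈ s(p, q)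
    · obtain ⟨i, hi, v, hv, hvp⟩ := hex
      obtain ⟨e, he, h1⟩ := (hc i hi).2.surj p q hpq hp hq hm
      exact ⟨e, Or.inl ⟨i, hi, he, v, hv, by rw [h1]; exact hvp⟩, h1⟩
    · push Not at hex
      obtain ⟨e, he, h1⟩ := h₀.2.surj p q hpq hp hq hm
      exact ⟨e, Or.inr ⟨he, fun i hi v hv => by rw [h1]; exact hex i hi v hv⟩, h1⟩
  · intro i hi v hv
    ext e
    simp only [mem_setOf_eq]
    constructor
    · rintro ⟨⟨j, hj, he, w, hw, hwe⟩ | ⟨_, h1⟩, hve⟩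
      · obtain ⟨h2, p, q, h3, h4, _⟩ := hmem e (Or.inr ⟨j, hj, he⟩)
        have h5 := huniq e h2 ⟨p, q, h3, h4⟩ i hi j hj v hv w hw hve hwe
        subst h5
        exact ⟨he, hve⟩
      · exact absurd hve (h1 i hi v hv)
    · rintro ⟨he, hve⟩
      exact ⟨Or.inl ⟨i, hi, he, v, hv, hve⟩, hve⟩

/-! ### Rank facts -/

lemma rk_of_full [P.Finite] {ends : α → Sym2 (ℕ × ℕ)} {U : Set (ℕ × ℕ)} {F : Set α}
    (hB : Bic P S ends) (hU : U.Finite) (h : FullB S ends U F) :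
    rk P (ins S ends U) = U.ncard := by
  have h1 := h.basis hB hU
  have h2 := h.encard
  unfold BIC.rk
  rw [← h1.encard_eq_eRk, h2]
  rfl

lemma insW_compl {c : Set α} (hW : WallE c row w ∅) (Z : Set (ℕ × ℕ)) :
    ins c row Zᶜ = ins c row (rect 0 0 (w + 1) (w + 1) \ Z) := by
  ext e
  constructor
  · rintro ⟨h1, h2⟩
    refine ⟨h1, fun v hv => ⟨?_, h2 v hv⟩⟩
    obtain ⟨p, q, h3, _, h5, h6⟩ := hW.mem e h1
    rw [h3, Sym2.mem_iff] at hv
    rcases hv with rfl | rfl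
    · exact h5
    · exact h6
  · rintro ⟨h1, h2⟩
    exact ⟨h1, fun v hv => (h2 v hv).2⟩

/-- the rank of the rows without the star of some deep vertices of one line -/
lemma RWal.rk_star [P.Finite] (h : RWal P S row w) {c : Set α} (hc : c ⊆ S)
    (hW : WallE c row w ∅) (Z : Finset (ℕ × ℕ)) (y₀ : ℕ) (hy : 1 ≤ y₀ ∧ y₀ + 3 ≤ w)
    (hZ : ∀ v ∈ Z, v.2 = y₀ ∧ 1 ≤ v.1 ∧ v.1 + 3 ≤ w) :
    rk P (S \ {e | e ∈ c ∧ ∃ v ∈ Z, v ∈ row e}) + Z.card = rk P S := by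
  have hScE : S \ c ⊆ P.E := sdiff_subset.trans h.sub
  have : (P ／ (S \ c)).Finite := BQ.fin_contract _
  have hB := h.bic c hc hW
  -- the general formula
  have key : ∀ Z' : Finset (ℕ × ℕ), (∀ v ∈ Z', v.2 = y₀ ∧ 1 ≤ v.1 ∧ v.1 + 3 ≤ w) →
      rk P (S \ {e | e ∈ c ∧ ∃ v ∈ Z', v ∈ row e}) + Z'.card =
        (rect 0 0 (w + 1) (w + 1)).ncard + rk P (S \ c) := by
    intro Z' hZ'
    obtain ⟨F, hF⟩ := wall_full (S := c) (ends := row) (w := w)
      {v | (v.1 + 1, v.2) ∈ Z'} (Z' : Set (ℕ × ℕ)) y₀ (by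
        intro v hv
        have := hZ' _ hv
        simp only at this
        omega) hy (fun v hv => hZ' v hv) (fun x y hxy => hxy) (by
        intro p q hpq hp hq _ _
        exact hW.surj p q hpq hp.1 hq.1 (notMem_empty _))
    have h1 := rk_of_full hB ((Gad.rect_finite _ _ _ _).subset sdiff_subset) hF
    rw [← insW_compl hW] at h1
    have h2 : (Z' : Set (ℕ × ℕ)) ⊆ rect 0 0 (w + 1) (w + 1) := by
      intro v hv
      have := hZ' v hv
      rw [Gad.mem_rct]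
      omega
    have h3 := Set.ncard_sdiff_add_ncard_of_subset h2 (Gad.rect_finite 0 0 (w + 1) (w + 1))
    rw [Set.ncard_coe_finset] at h3
    have h4 := BQ.rk_con (M := P) hScE (X := ins c row (Z' : Set (ℕ × ℕ))ᶜ) (by
      intro e he
      exact ⟨h.sub (hc he.1), fun h5 => h5.2 he.1⟩)
    have h5 : ins c row (Z' : Set (ℕ × ℕ))ᶜ ∪ (S \ c) =
        S \ {e | e ∈ c ∧ ∃ v ∈ Z', v ∈ row e} := by
      ext e
      simp only [mem_union, mem_sdiff, mem_setOf_eq, ins]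
      constructor
      · rintro (⟨h5, h6⟩ | ⟨h5, h6⟩)
        · exact ⟨hc h5, fun h7 => by
            obtain ⟨_, v, hv, hve⟩ := h7
            exact h6 v hve hv⟩
        · exact ⟨h5, fun h7 => h6 h7.1⟩
      · rintro ⟨h5, h6⟩
        by_cases h7 : e ∈ c
        · left
          exact ⟨h7, fun v hv hvZ => h6 ⟨h7, v, hvZ, hv⟩⟩
        · exact Or.inr ⟨h5, h7⟩
    rw [h5] at h4
    omega
  have k1 := key Z hZ
  have k2 := key ∅ (by simp)
  have k3 : S \ {e | e ∈ c ∧ ∃ v ∈ (∅ : Finset (ℕ × ℕ)), v ∈ row e} = S := by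
    ext e
    simp
  rw [k3, Finset.card_empty] at k2
  omega

/-- The rows without one representative (of a horizontal row) have full rank. -/
lemma RWal.rk_edge [P.Finite] (h : RWal P S row w) {c : Set α} (hc : c ⊆ S)
    (hW : WallE c row w ∅) (v : ℕ × ℕ) (hv : 1 ≤ v.2 ∧ v.2 + 3 ≤ w ∧ v.1 + 4 ≤ w) :
    rk P (S \ {e | e ∈ c ∧ v ∈ row e ∧ (v.1 + 1, v.2) ∈ row e}) = rk P S := by
  have hScE : S \ c ⊆ P.E := sdiff_subset.trans h.sub
  have : (P ／ (S \ c)).Finite := BQ.fin_contract _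
  have hB := h.bic c hc hW
  obtain ⟨c₁, hc₁⟩ : ∃ c₁, c₁ = {e | e ∈ c ∧ ¬ (v ∈ row e ∧ (v.1 + 1, v.2) ∈ row e)} := ⟨_, rfl⟩
  have hc₁c : c₁ ⊆ c := by
    rw [hc₁]
    exact fun e he => he.1
  have hB₁ : Bic (P ／ (S \ c)) c₁ row := by
    refine ⟨hc₁c.trans hB.sub, ?_, ?_⟩
    · intro F φ hF hφ hφe
      exact hB.ind F φ (hF.trans hc₁c) hφ hφe
    · intro W
      refine ((P ／ (S \ c)).eRk_mono ?_).trans (hB.rk W)
      exact fun e he => ⟨hc₁c he.1, he.2⟩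
  obtain ⟨F, hF⟩ := wall_full (S := c₁) (ends := row) (w := w) {v} (∅ : Set (ℕ × ℕ)) v.2 (by
      intro p hp
      rw [mem_singleton_iff] at hp
      subst hp
      omega) ⟨hv.1, hv.2.1⟩ (by simp) (by simp) (by
      intro p q hpq hp hq hpB hqB
      obtain ⟨e, he, hee⟩ := hW.surj p q hpq hp.1 hq.1 (notMem_empty _)
      refine ⟨e, ?_, hee⟩
      rw [hc₁]
      refine ⟨he, fun h1 => ?_⟩
      rw [hee, Sym2.mem_iff, Sym2.mem_iff] at h1
      obtain ⟨h1, h2⟩ := h1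
      have hne : v ≠ (v.1 + 1, v.2) := by
        intro h3
        have := congrArg Prod.fst h3
        simp at this
      rcases h1 with rfl | rfl
      · rcases h2 with h2 | h2
        · exact hne h2.symm
        · rw [← h2] at hpB
          exact hpB ⟨rfl, rfl⟩ rfl
      · rcases h2 with h2 | h2
        · rw [← h2] at hqB
          exact hqB ⟨rfl, rfl⟩ rfl
        · exact hne h2.symm)
  have h1 := rk_of_full hB₁ ((Gad.rect_finite _ _ _ _).subset sdiff_subset) hF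
  obtain ⟨F', hF'⟩ := wall_full (S := c) (ends := row) (w := w) ∅ ∅ v.2 (by simp)
    ⟨hv.1, hv.2.1⟩ (by simp) (by simp) (by
      intro p q hpq hp hq _ _
      exact hW.surj p q hpq hp.1 hq.1 (notMem_empty _))
  have h3 := rk_of_full hB ((Gad.rect_finite _ _ _ _).subset sdiff_subset) hF'
  have h4 : ins c row (rect 0 0 (w + 1) (w + 1) \ ∅) = c := by
    rw [← insW_compl hW]
    ext e
    simp [ins]
  have h5 : ins c₁ row (rect 0 0 (w + 1) (w + 1) \ ∅) = c₁ := by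
    ext e
    constructor
    · exact fun he => he.1
    · intro he
      have h6 : e ∈ ins c row (rect 0 0 (w + 1) (w + 1) \ ∅) := by
        rw [h4]
        exact hc₁c he
      exact ⟨he, h6.2⟩
  rw [h5] at h1
  rw [h4] at h3
  have h6 := BQ.rk_con (M := P) hScE (X := c) (by
    intro e he
    exact ⟨h.sub (hc he), fun h5 => h5.2 he⟩)
  have h7 := BQ.rk_con (M := P) hScE (X := c₁) (by
    intro e he
    exact ⟨h.sub (hc (hc₁c he)), fun h5 => h5.2 (hc₁c he)⟩)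
  have h8 : c ∪ (S \ c) = S := union_sdiff_cancel hc
  have h9 : c₁ ∪ (S \ c) = S \ {e | e ∈ c ∧ v ∈ row e ∧ (v.1 + 1, v.2) ∈ row e} := by
    rw [hc₁]
    ext e
    simp only [mem_union, mem_sdiff, mem_setOf_eq]
    constructor
    · rintro (⟨h5, h6⟩ | ⟨h5, h6⟩)
      · exact ⟨hc h5, fun h7 => h6 h7.2⟩
      · exact ⟨h5, fun h7 => h6 h7.1⟩
    · rintro ⟨h5, h6⟩
      by_cases h7 : e ∈ c
      · exact Or.inl ⟨h7, fun h8 => h6 ⟨h7, h8⟩⟩
      · exact Or.inr ⟨h5, h7⟩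
  rw [h8] at h6
  rw [h9] at h7
  omega

end

end DA
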