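import Pool.Agent.DA.ChartW
import Pool.Agent.DA.RWal

/-!
# Bounded supports modulo a bounded set on the brick wall (row B1 for the wall)

If there is no `U_{k,2k}` minor, there are a set `B` of fewer than `K` elements of the closure of
the rows of the brick wall and `Q` far apart groups `G a` of `|B|` vertices such that `B` is
independent and skew to the rows without the star of `G a`, and every element of the closure has,
for one of the groups `a`, boundedly many locations modulo `B` in the rows without the star of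
`G a`.
-/

open Set BIC BICS
open scoped Matroid

namespace DA

open Gad

universe u

/-- `ext_wall` for rows. -/
theorem ext_rowW (k : ℕ) : ∃ K Q D δ : ℕ, ∀ {α : Type u} (P : Matroid α) [P.Finite] (S : Set α)
    (row : α → Sym2 (ℕ × ℕ)) (m : ℕ), RWal P S row m →
    ∀ c, (c ⊆ S ∧ WallE c row m ∅) → ∀ B : Finset α, (B : Set α) ⊆ P.closure S →
    Disjoint (B : Set α) S → B.card = K → ∀ G : Fin Q → Finset (ℕ × ℕ),
    (∀ a, (G a).card = K) →
    (∀ a, ∀ v ∈ G a, DeepR (0, 0) (m + 1) (m + 1) D v) →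
    (∀ a b, ∀ v ∈ G a, ∀ w ∈ G b, (a, v) ≠ (b, w) → Apart δ v w) →
    (∀ a, rk P (S \ {e | e ∈ c ∧ ∃ v ∈ G a, v ∈ row e} ∪ (B : Set α)) =
      rk P (S \ {e | e ∈ c ∧ ∃ v ∈ G a, v ∈ row e}) + K) → HasUniformMinor P k := by
  classical
  obtain ⟨K, Q, D, δ, hext⟩ := ext_wall.{u} k
  refine ⟨K, Q, D, δ, ?_⟩
  intro α P _ S row m hG c hc B hB hBS hBc G hGc hGd hGa hvis
  have hPF : (P ／ (S \ c)).Finite := BQ.fin_contract _
  have hbic := hG.bic c hc.1 hc.2
  have hcE : S ⊆ P.E := hG.sub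
  have hBE : (B : Set α) ⊆ P.E := hB.trans (P.closure_subset_ground _)
  have hBcl : (B : Set α) ⊆ (P ／ (S \ c)).closure c := fun e he =>
    (cl_rep hc.1 (hB he) (Set.disjoint_left.1 hBS he)).1
  have hBdc : Disjoint (B : Set α) c := hBS.mono_right hc.1
  have hins : ∀ Z : Set (ℕ × ℕ), ins c row Zᶜ ∪ (S \ c) =
      S \ {e | e ∈ c ∧ ∃ v ∈ Z, v ∈ row e} := by
    intro Z
    ext e
    simp only [mem_union, mem_sdiff, mem_ofPred_eq, ins]
    constructor
    · rintro (⟨h1, h2⟩ | ⟨h1, h2⟩)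
      · exact ⟨hc.1 h1, fun ⟨_, v, hv, hve⟩ => h2 v hve hv⟩
      · exact ⟨h1, fun h3 => h2 h3.1⟩
    · rintro ⟨h1, h2⟩
      by_cases h3 : e ∈ c
      · exact Or.inl ⟨h3, fun v hve hv => h2 ⟨h3, v, hv, hve⟩⟩
      · exact Or.inr ⟨h1, h3⟩
  have hrk : ∀ (Z : Set (ℕ × ℕ)) (J : Set α), J ⊆ (B : Set α) →
      rk (P ／ (S \ c)) (ins c row Zᶜ ∪ J) + rk P (S \ c) =
        rk P (S \ {e | e ∈ c ∧ ∃ v ∈ Z, v ∈ row e} ∪ J) := by
    intro Z J hJ
    rw [BQ.rk_con (sdiff_subset.trans hcE)]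
    · rw [union_assoc, union_comm J, ← union_assoc, hins Z]
    · rintro e (he | he)
      · exact ⟨hcE (hc.1 he.1), fun h1 => h1.2 he.1⟩
      · exact ⟨hBE (hJ he), fun h1 => Set.disjoint_left.1 hBS (hJ he) h1.1⟩
  have hmin : P ／ (S \ c) ≤m P := by
    have h2 := P.contract_delete_isMinor (S \ c) ∅
    rwa [Matroid.delete_empty] at h2
  refine HasUniformMinor_mono (hext (P ／ (S \ c)) c row m hbic hc.2 B hBcl hBdc hBc G hGc hGd hGa
    ?_) hmin
  intro a
  have h4 := hrk (G a : Set (ℕ × ℕ)) (B : Set α) subset_rfl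
  have h5 := hrk (G a : Set (ℕ × ℕ)) ∅ (empty_subset _)
  rw [union_empty, union_empty] at h5
  have h6 := hvis a
  simp only [Finset.mem_coe] at h4 h5
  omega

/-- **B1 on the wall.** -/
theorem b1W (k : ℕ) : ∃ K Q β D δ : ℕ, 2 ≤ Q ∧ 2 ≤ δ ∧ ∀ {α : Type u} (P : Matroid α) [P.Finite]
    (S : Set α) (row : α → Sym2 (ℕ × ℕ)) (m : ℕ), RWal P S row m →
    HasUniformMinor P k ∨ ∃ (c : Set α) (B : Finset α) (G : Fin Q → Finset (ℕ × ℕ)),
      (c ⊆ S ∧ WallE c row m ∅) ∧ B.card < K ∧ (B : Set α) ⊆ P.closure S ∧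
      Disjoint (B : Set α) S ∧ (∀ a, (G a).card = B.card) ∧
      (∀ a, ∀ v ∈ G a, DeepR (0, 0) (m + 1) (m + 1) D v) ∧
      (∀ a b, ∀ v ∈ G a, ∀ w ∈ G b, (a, v) ≠ (b, w) → Apart δ v w) ∧
      (∀ a, rk P (S \ {e | e ∈ c ∧ ∃ v ∈ G a, v ∈ row e} ∪ (B : Set α)) =
        rk P (S \ {e | e ∈ c ∧ ∃ v ∈ G a, v ∈ row e}) + B.card) ∧
      ∀ z ∈ P.closure S, ∃ a, ∃ N : Finset (ℕ × ℕ), N.card ≤ β ∧
        ∀ c', (c' ⊆ S ∧ WallE c' row m ∅) → ∀ v, DeepR (0, 0) (m + 1) (m + 1) D v → v ∉ N →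
          (∀ b, ∀ w ∈ G b, Apart δ v w) →
          z ∈ P.closure ((S \ {e | e ∈ c ∧ ∃ w ∈ G a, w ∈ row e}) \ {e | e ∈ c' ∧ v ∈ row e} ∪
            (B : Set α)) := by
  classical
  obtain ⟨K, Q₀, D, δ₀, hext⟩ := ext_rowW.{u} k
  obtain ⟨Q, hQ⟩ : ∃ Q, Q = Q₀ + 2 := ⟨_, rfl⟩
  obtain ⟨δ, hδ⟩ : ∃ δ, δ = δ₀ + 2 := ⟨_, rfl⟩
  obtain ⟨β, hβ⟩ : ∃ β, β = Q * ((2 * δ + 1) * (2 * δ + 1)) := ⟨_, rfl⟩
  refine ⟨K, Q, β, D, δ, by omega, by omega, ?_⟩
  intro α P _ S row m hG
  by_contra hcon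
  push Not at hcon
  obtain ⟨hhum, hno⟩ := hcon
  obtain ⟨c₀, hc₀⟩ := exists_repW hG
  have hstate : ∀ j ≤ K, ∃ (c : Set α) (B : Finset α) (G : Fin Q → Finset (ℕ × ℕ)),
      (c ⊆ S ∧ WallE c row m ∅) ∧ B.card = j ∧ (B : Set α) ⊆ P.closure S ∧
      Disjoint (B : Set α) S ∧ (∀ a, (G a).card = B.card) ∧
      (∀ a, ∀ v ∈ G a, DeepR (0, 0) (m + 1) (m + 1) D v) ∧
      (∀ a b, ∀ v ∈ G a, ∀ w ∈ G b, (a, v) ≠ (b, w) → Apart δ v w) ∧
      (∀ a, rk P (S \ {e | e ∈ c ∧ ∃ v ∈ G a, v ∈ row e} ∪ (B : Set α)) =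
        rk P (S \ {e | e ∈ c ∧ ∃ v ∈ G a, v ∈ row e}) + B.card) := by
    intro j
    induction j with
    | zero =>
      intro _
      refine ⟨c₀, ∅, fun _ => ∅, hc₀, rfl, by simp, by simp, fun _ => rfl, by simp, by simp, ?_⟩
      intro a
      simp
    | succ j ih =>
      intro hj
      obtain ⟨c, B, G, hc, hBj, hB, hBS, hGB, hGd, hGa, hrk⟩ := ih (by omega)
      obtain ⟨z, hz, hzno⟩ := hno c B G hc (by omega) hB hBS hGB hGd hGa hrk
      obtain ⟨f, hf⟩ := greedy_apart Q δ β hβ.ge (fun a (x : (ℕ × ℕ) × Set α) => ∀ ha : a < Q,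
          (x.2 ⊆ S ∧ WallE x.2 row m ∅) ∧ DeepR (0, 0) (m + 1) (m + 1) D x.1 ∧
          (∀ b, ∀ w ∈ G b, Apart δ x.1 w) ∧
          z ∉ P.closure ((S \ {e | e ∈ c ∧ ∃ w ∈ G ⟨a, ha⟩, w ∈ row e}) \
            {e | e ∈ x.2 ∧ x.1 ∈ row e} ∪ (B : Set α))) (fun x => x.1) (by
        intro a ha N hN
        obtain ⟨c', hc', v, hv, hvN, hvG, hzv⟩ := hzno ⟨a, ha⟩ N hN
        exact ⟨(v, c'), fun _ => ⟨hc', hv, hvG, hzv⟩, hvN⟩) ⟨((0, 0), ∅)⟩
      obtain ⟨v, hv⟩ : ∃ v : Fin Q → ℕ × ℕ, ∀ a, v a = (f a).1 := ⟨_, fun _ => rfl⟩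
      obtain ⟨cc, hcc⟩ : ∃ cc : Fin Q → Set α, ∀ a, cc a = (f a).2 := ⟨_, fun _ => rfl⟩
      have h1 : ∀ a, (cc a ⊆ S ∧ WallE (cc a) row m ∅) ∧ DeepR (0, 0) (m + 1) (m + 1) D (v a) ∧
          (∀ b, ∀ w ∈ G b, Apart δ (v a) w) ∧
          z ∉ P.closure ((S \ {e | e ∈ c ∧ ∃ w ∈ G a, w ∈ row e}) \
            {e | e ∈ cc a ∧ v a ∈ row e} ∪ (B : Set α)) := by
        intro a
        rw [hv, hcc]
        exact (hf a a.2).1 a.2
      have h2 : ∀ a b, a ≠ b → Apart δ (v a) (v b) := by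
        intro a b hab
        rw [hv, hv]
        rcases Nat.lt_or_gt_of_ne (fun h => hab (Fin.ext h)) with h | h
        · exact ((hf b b.2).2 a h).symm
        · exact (hf a a.2).2 b h
      -- the new representatives
      obtain ⟨c₁, hc₁, hc₁e⟩ := combineW (Finset.univ : Finset (Option (Fin Q))) hc
        (fun i => i.elim c cc) (by
          rintro (_ | a) _
          · exact hc
          · exact (h1 a).1) (fun i => i.elim (Finset.univ.biUnion G) (fun a => {v a})) (by
          have hmono : ∀ {x y : ℕ × ℕ}, Apart δ x y → Apart 2 x y := fun h => h.mono (by omega)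
          rintro (_ | a) _ (_ | b) _ hab x hx y hy
          · exact absurd rfl hab
          · simp only [Option.elim_none, Finset.mem_biUnion, Finset.mem_univ, true_and] at hx
            simp only [Option.elim_some, Finset.mem_singleton] at hy
            obtain ⟨b', hb'⟩ := hx
            subst hy
            exact hmono ((h1 b).2.2.1 b' x hb').symm
          · simp only [Option.elim_none, Finset.mem_biUnion, Finset.mem_univ, true_and] at hy
            simp only [Option.elim_some, Finset.mem_singleton] at hx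
            obtain ⟨b', hb'⟩ := hy
            subst hx
            exact hmono ((h1 a).2.2.1 b' y hb')
          · simp only [Option.elim_some, Finset.mem_singleton] at hx hy
            subst hx hy
            exact hmono (h2 a b (fun h => hab (by rw [h]))))
      have hstG : ∀ b, ∀ w ∈ G b, {e | e ∈ c₁ ∧ w ∈ row e} = {e | e ∈ c ∧ w ∈ row e} := by
        intro b w hw
        exact hc₁e none (Finset.mem_univ _) w (by
          simp only [Option.elim_none, Finset.mem_biUnion, Finset.mem_univ, true_and]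
          exact ⟨b, hw⟩)
      have hstv : ∀ a, {e | e ∈ c₁ ∧ v a ∈ row e} = {e | e ∈ cc a ∧ v a ∈ row e} := by
        intro a
        exact hc₁e (some a) (Finset.mem_univ _) (v a) (by simp)
      have hS' : ∀ a, S \ {e | e ∈ c₁ ∧ ∃ w ∈ insert (v a) (G a), w ∈ row e} =
          (S \ {e | e ∈ c ∧ ∃ w ∈ G a, w ∈ row e}) \ {e | e ∈ cc a ∧ v a ∈ row e} := by
        intro a
        ext e
        have e1 := fun w hw => Set.ext_iff.1 (hstG a w hw) e
        have e2 := Set.ext_iff.1 (hstv a) e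
        simp only [mem_ofPred_eq] at e1 e2
        simp only [mem_sdiff, mem_ofPred_eq, Finset.mem_insert]
        constructor
        · rintro ⟨he, h3⟩
          refine ⟨⟨he, ?_⟩, ?_⟩
          · rintro ⟨h4, w, hw, hwe⟩
            exact h3 ⟨((e1 w hw).2 ⟨h4, hwe⟩).1, w, Or.inr hw, hwe⟩
          · rintro ⟨h4, hwe⟩
            exact h3 ⟨(e2.2 ⟨h4, hwe⟩).1, v a, Or.inl rfl, hwe⟩
        · rintro ⟨⟨he, h3⟩, h4⟩
          refine ⟨he, ?_⟩
          rintro ⟨h5, w, rfl | hw, hwe⟩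
          · exact h4 (e2.1 ⟨h5, hwe⟩)
          · exact h3 ⟨((e1 w hw).1 ⟨h5, hwe⟩).1, w, hw, hwe⟩
      have hBE : (B : Set α) ⊆ P.E := hB.trans (P.closure_subset_ground _)
      have hzB : z ∉ B := by
        intro h
        exact (h1 ⟨0, by omega⟩).2.2.2 (P.mem_closure_of_mem' (Or.inr h) (hBE h))
      have hzS : z ∉ S := by
        intro h
        have h3 : ∀ a, ∃ w ∈ insert (v a) (G a), w ∈ row z := by
          intro a
          by_contra hcon
          apply (h1 a).2.2.2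
          rw [← hS' a]
          exact P.mem_closure_of_mem' (Or.inl ⟨h, fun h4 => hcon h4.2⟩) (hG.sub h)
        obtain ⟨p, q, hpq, hadj, _⟩ := hG.mem z h
        obtain ⟨w, hw, hwz⟩ := h3 ⟨0, by omega⟩
        obtain ⟨w', hw', hwz'⟩ := h3 ⟨1, by omega⟩
        have h4 : Apart δ w w' := by
          rw [Finset.mem_insert] at hw hw'
          rcases hw with rfl | hw <;> rcases hw' with rfl | hw'
          · exact h2 _ _ (by simp [Fin.ext_iff])
          · exact (h1 _).2.2.1 _ _ hw'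
          · exact ((h1 _).2.2.1 _ _ hw).symm
          · exact hGa _ _ _ hw _ hw' (by simp [Fin.ext_iff])
        rw [hpq, Sym2.mem_iff] at hwz hwz'
        unfold wadj at hadj
        unfold Apart at h4
        rcases hwz with rfl | rfl <;> rcases hwz' with rfl | rfl <;> omega
      have hvG : ∀ a, v a ∉ G a := by
        intro a h
        have := (h1 a).2.2.1 a (v a) h
        unfold Apart at this
        omega
      refine ⟨c₁, insert z B, fun a => insert (v a) (G a), hc₁, ?_, ?_, ?_, ?_, ?_, ?_, ?_⟩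
      · rw [Finset.card_insert_of_notMem hzB, hBj]
      · intro e he
        rw [Finset.coe_insert] at he
        rcases he with rfl | he
        · exact hz
        · exact hB he
      · rw [Finset.coe_insert, Set.disjoint_left]
        rintro e (rfl | he) heS
        · exact hzS heS
        · exact Set.disjoint_left.1 hBS he heS
      · intro a
        rw [Finset.card_insert_of_notMem (hvG a), Finset.card_insert_of_notMem hzB, hGB]
      · intro a w hw
        rw [Finset.mem_insert] at hw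
        rcases hw with rfl | hw
        · exact (h1 a).2.1
        · exact hGd a w hw
      · intro a b x hx y hy hne
        rw [Finset.mem_insert] at hx hy
        rcases hx with rfl | hx <;> rcases hy with rfl | hy
        · exact h2 a b (fun h => hne (by rw [h]))
        · exact (h1 a).2.2.1 b y hy
        · exact ((h1 b).2.2.1 a x hx).symm
        · exact hGa a b x hx y hy hne
      · intro a
        rw [hS' a]
        obtain ⟨Sa, hSa⟩ : ∃ Sa, Sa = S \ {e | e ∈ c ∧ ∃ w ∈ G a, w ∈ row e} := ⟨_, rfl⟩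
        obtain ⟨St, hSt⟩ : ∃ St, St = {e | e ∈ cc a ∧ v a ∈ row e} := ⟨_, rfl⟩
        have h3 := hrk a
        have h4 := (h1 a).2.2.2
        rw [← hSa] at h3 h4
        rw [← hSt] at h4
        rw [← hSa, ← hSt]
        have hzE : z ∈ P.E := P.closure_subset_ground _ hz
        have h5 : Sa \ St ∪ ((insert z B : Finset α) : Set α) =
            insert z (Sa \ St ∪ (B : Set α)) := by
          rw [Finset.coe_insert, Set.union_insert]
        rw [h5, rk_insert_notMem hzE h4, Finset.card_insert_of_notMem hzB]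
        have h6 : rk P (Sa \ St ∪ (B : Set α)) ≤ rk P (Sa \ St) + B.card := by
          have := rk_union_le (M := P) (X := Sa \ St) (Y := (B : Set α)) (Finset.finite_toSet _)
          rwa [Set.ncard_coe_finset] at this
        have h7 := rk_submod P (Sa \ St ∪ (B : Set α)) Sa
        have h8 : Sa \ St ∪ (B : Set α) ∪ Sa = Sa ∪ (B : Set α) := by
          ext e
          simp only [mem_union, mem_sdiff]
          tauto
        have h9 : rk P (Sa \ St) ≤ rk P ((Sa \ St ∪ (B : Set α)) ∩ Sa) :=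
          rk_mono P (subset_inter subset_union_left sdiff_subset)
        rw [h8] at h7
        omega
  obtain ⟨c, B, G, hc, hBj, hB, hBS, hGB, hGd, hGa, hrk⟩ := hstate K le_rfl
  apply hhum
  refine hext P S row m hG c hc B hB hBS hBj (fun a => G (Fin.castLE (by omega) a))
    (fun a => (hGB _).trans hBj) (fun a => hGd _) ?_ ?_
  · intro a b x hx y hy hne
    refine (hGa _ _ x hx y hy ?_).mono (by omega)
    intro h
    rw [Prod.mk.injEq] at h
    apply hne
    rw [Prod.mk.injEq]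
    exact ⟨Fin.castLE_injective _ h.1, h.2⟩
  · intro a
    rw [hrk, hBj]

end DA
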