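import Pool.Agent.DA.Elim

/-!
# Contraction of a star forest in a bicircular structure

Classes of a map `ρ` with centres `c`; every other vertex `v` of a class is joined to the centre by
the element `ζ v`.  The elements `ζ v` are contracted.
-/

open Set BIC BICS
open scoped Matroid

namespace DA

open Gad

variable {α V W : Type*}

/-- A star forest on the vertex set `A`. -/
structure Star (S : Set α) (ends : α → Sym2 V) (A : Set V) (ρ : V → W) (c : W → V) (ζ : V → α) :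
    Prop where
  cA : ∀ v ∈ A, c (ρ v) ∈ A
  cρ : ∀ v ∈ A, ρ (c (ρ v)) = ρ v
  ζS : ∀ v ∈ A, v ≠ c (ρ v) → ζ v ∈ S
  ζe : ∀ v ∈ A, v ≠ c (ρ v) → ends (ζ v) = s(v, c (ρ v))

/-- The leaves. -/
def lvs (A : Set V) (ρ : V → W) (c : W → V) : Set V := {v | v ∈ A ∧ v ≠ c (ρ v)}

section

variable {M : Matroid α} {S S' : Set α} {ends : α → Sym2 V} {A : Set V} {ρ : V → W} {c : W → V}
  {ζ : V → α}

lemma Star.inj (h : Star S ends A ρ c ζ) : InjOn ζ (lvs A ρ c) := by
  rintro v ⟨hv, hvc⟩ v' ⟨hv', hvc'⟩ he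
  have h1 := h.ζe v hv hvc
  rw [he, h.ζe v' hv' hvc', Sym2.eq_iff] at h1
  rcases h1 with ⟨h1, _⟩ | ⟨h1, h2⟩
  · exact h1.symm
  · exfalso
    apply hvc
    have h3 : ρ v = ρ v' := by rw [← h2, h.cρ v' hv']
    exact h2.symm.trans (congrArg c h3.symm)

lemma Star.sub (h : Star S ends A ρ c ζ) : ζ '' lvs A ρ c ⊆ S := by
  rintro _ ⟨v, hv, rfl⟩
  exact h.ζS v hv.1 hv.2

/-- The contracted set is independent. -/
lemma Star.indep (hB : Bic M S ends) (h : Star S ends A ρ c ζ) : M.Indep (ζ '' lvs A ρ c) := by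
  classical
  rcases (lvs A ρ c).eq_empty_or_nonempty with h0 | ⟨v₀, hv₀⟩
  · rw [h0, image_empty]
    exact M.empty_indep
  have : Nonempty V := ⟨v₀⟩
  have hinv : ∀ v ∈ lvs A ρ c, Function.invFunOn ζ (lvs A ρ c) (ζ v) = v := by
    intro v hv
    have h1 := Function.invFunOn_mem (f := ζ) (s := lvs A ρ c) ⟨v, hv, rfl⟩
    have h2 := Function.invFunOn_eq (f := ζ) (s := lvs A ρ c) ⟨v, hv, rfl⟩
    exact h.inj h1 hv h2
  refine hB.ind _ (Function.invFunOn ζ (lvs A ρ c)) h.sub ?_ ?_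
  · rintro _ ⟨v, hv, rfl⟩ _ ⟨v', hv', rfl⟩ he
    rw [hinv v hv, hinv v' hv'] at he
    rw [he]
  · rintro _ ⟨v, hv, rfl⟩
    rw [hinv v hv, h.ζe v hv.1 hv.2]
    simp

/-- **The quotient is bicircular.** -/
theorem Star.bic [M.Finite] (hB : Bic M S ends) (hAf : A.Finite)
    (hSA : ∀ e ∈ S, ∀ v ∈ ends e, v ∈ A) (h : Star S ends A ρ c ζ) :
    Bic (M ／ (ζ '' lvs A ρ c)) (S \ (ζ '' lvs A ρ c)) (fun e => (ends e).map ρ) := by
  classical
  set L := lvs A ρ c with hL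
  set Z := ζ '' L with hZ
  have hZi : M.Indep Z := h.indep hB
  have hSZE : S \ Z ⊆ (M ／ Z).E := by
    rw [Matroid.contract_ground]
    exact sdiff_subset_sdiff_left hB.sub
  refine ⟨hSZE, ?_, ?_⟩
  · intro F φ hF hφ hφe
    rw [hZi.contract_indep_iff]
    have hFZ : ∀ e ∈ F, e ∉ Z := fun e he => (hF he).2
    refine ⟨Set.disjoint_left.2 hFZ, ?_⟩
    rcases F.eq_empty_or_nonempty with hF0 | ⟨e₀, he₀⟩
    · rw [hF0, empty_union]
      exact hZi
    have H : ∀ e ∈ F, ∃ u, u ∈ ends e ∧ ρ u = φ e := by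
      intro e he
      have h1 := hφe e he
      rw [Sym2.mem_map] at h1
      exact h1
    have : Nonempty V := ⟨(H e₀ he₀).choose⟩
    choose! u hu1 hu2 using H
    have huA : ∀ e ∈ F, u e ∈ A := fun e he => hSA e (hF he).1 _ (hu1 e he)
    have huρ : ∀ e ∈ F, ∀ e' ∈ F, ρ (u e) = ρ (u e') → e = e' := by
      intro e he e' he' hee
      apply hφ he he'
      rw [← hu2 e he, ← hu2 e' he', hee]
    have hinv : ∀ v ∈ L, Function.invFunOn ζ L (ζ v) = v := by
      intro v hv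
      have h1 := Function.invFunOn_mem (f := ζ) (s := L) ⟨v, hv, rfl⟩
      have h2 := Function.invFunOn_eq (f := ζ) (s := L) ⟨v, hv, rfl⟩
      exact h.inj h1 hv h2
    -- value on a contracted element
    set θ : V → V := fun v => if ∃ e ∈ F, u e = v then c (ρ v) else v with hθ
    set ψ : α → V := fun a => if a ∈ F then u a else θ (Function.invFunOn ζ L a) with hψ
    have hψF : ∀ a ∈ F, ψ a = u a := fun a ha => by simp only [hψ, if_pos ha]
    have hψZ : ∀ v ∈ L, ψ (ζ v) = θ v := by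
      intro v hv
      have : ζ v ∉ F := fun h' => hFZ _ h' ⟨v, hv, rfl⟩
      simp only [hψ, if_neg this, hinv v hv]
    have hθρ : ∀ v ∈ L, ρ (θ v) = ρ v := by
      intro v hv
      simp only [hθ]
      split_ifs
      · exact h.cρ v hv.1
      · rfl
    have hθu : ∀ v ∈ L, ∀ e ∈ F, θ v ≠ u e := by
      intro v hv e he heq
      by_cases h1 : ∃ e ∈ F, u e = v
      · have h2 : θ v = c (ρ v) := by simp only [hθ, if_pos h1]
        obtain ⟨e', he', hev⟩ := h1
        have h3 : ρ (u e') = ρ (u e) := by rw [hev, ← heq, hθρ v hv]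
        have h4 := huρ e' he' e he h3
        rw [← h4, hev] at heq
        exact hv.2 (heq.symm.trans h2)
      · have h2 : θ v = v := by simp only [hθ, if_neg h1]
        exact h1 ⟨e, he, by rw [← heq, h2]⟩
    have hθi : ∀ v ∈ L, ∀ v' ∈ L, θ v = θ v' → v = v' := by
      intro v hv v' hv' heq
      have h0 : ρ v = ρ v' := by rw [← hθρ v hv, heq, hθρ v' hv']
      by_cases h1 : ∃ e ∈ F, u e = v <;> by_cases h2 : ∃ e ∈ F, u e = v'
      · obtain ⟨e, he, hev⟩ := h1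
        obtain ⟨e', he', hev'⟩ := h2
        have h3 : e = e' := huρ e he e' he' (by rw [hev, hev', h0])
        rw [← hev, ← hev', h3]
      · exfalso
        have h3 : θ v = c (ρ v) := by simp only [hθ, if_pos h1]
        have h4 : θ v' = v' := by simp only [hθ, if_neg h2]
        apply hv'.2
        exact h4.symm.trans (heq.symm.trans (h3.trans (congrArg c h0)))
      · exfalso
        have h3 : θ v = v := by simp only [hθ, if_neg h1]
        have h4 : θ v' = c (ρ v') := by simp only [hθ, if_pos h2]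
        apply hv.2
        exact h3.symm.trans (heq.trans (h4.trans (congrArg c h0.symm)))
      · have h3 : θ v = v := by simp only [hθ, if_neg h1]
        have h4 : θ v' = v' := by simp only [hθ, if_neg h2]
        rw [← h3, heq, h4]
    refine hB.ind (F ∪ Z) ψ (union_subset (fun e he => (hF he).1) h.sub) ?_ ?_
    · rintro a (ha | ⟨v, hv, rfl⟩) b (hb | ⟨v', hv', rfl⟩) hab
      · rw [hψF a ha, hψF b hb] at hab
        exact huρ a ha b hb (by rw [hab])
      · rw [hψF a ha, hψZ v' hv'] at hab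
        exact absurd hab.symm (hθu v' hv' a ha)
      · rw [hψZ v hv, hψF b hb] at hab
        exact absurd hab (hθu v hv b hb)
      · rw [hψZ v hv, hψZ v' hv'] at hab
        rw [hθi v hv v' hv' hab]
    · rintro a (ha | ⟨v, hv, rfl⟩)
      · rw [hψF a ha]
        exact hu1 a ha
      · rw [hψZ v hv, h.ζe v hv.1 hv.2]
        simp only [hθ]
        split_ifs
        · exact Sym2.mem_mk_right _ _
        · exact Sym2.mem_mk_left _ _
  · intro Q
    rcases Q.finite_or_infinite with hQ | hQ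
    swap
    · rw [hQ.encard_eq]
      exact le_top
    set X := ins (S \ Z) (fun e => (ends e).map ρ) Q with hX
    set V₁ : Set V := {v | v ∈ A ∧ ρ v ∈ Q} with hV₁
    set L₁ : Set V := {v | v ∈ L ∧ ρ v ∈ Q} with hL₁
    set C₁ : Set V := {v | v ∈ A ∧ ρ v ∈ Q ∧ v = c (ρ v)} with hC₁
    have hV₁f : V₁.Finite := hAf.subset (fun v hv => hv.1)
    have hL₁V : L₁ ⊆ V₁ := fun v hv => ⟨hv.1.1, hv.2⟩
    have hL₁f : L₁.Finite := hV₁f.subset hL₁V
    have hC₁V : C₁ ⊆ V₁ := fun v hv => ⟨hv.1, hv.2.1⟩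
    have hVc : V₁.ncard = L₁.ncard + C₁.ncard := by
      rw [← Set.ncard_union_eq _ hL₁f (hV₁f.subset hC₁V)]
      · congr 1
        ext v
        constructor
        · intro hv
          by_cases h1 : v = c (ρ v)
          · exact Or.inr ⟨hv.1, hv.2, h1⟩
          · exact Or.inl ⟨⟨hv.1, h1⟩, hv.2⟩
        · rintro (hv | hv)
          · exact hL₁V hv
          · exact hC₁V hv
      · rw [Set.disjoint_left]
        intro v hv hv'
        exact hv.1.2 hv'.2.2
    have hCQ : C₁.ncard ≤ Q.ncard := by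
      refine Set.ncard_le_ncard_of_injOn ρ (fun v hv => hv.2.1) ?_ hQ
      intro v hv v' hv' hvv
      rw [hv.2.2, hv'.2.2, hvv]
    have hZ₁ : ζ '' L₁ ⊆ Z := image_mono (fun v hv => hv.1)
    have hZf : Z.Finite := M.ground_finite.subset hZi.subset_ground
    have hX1 : X ∪ ζ '' L₁ ⊆ ins S ends V₁ := by
      rintro a (ha | ⟨v, hv, rfl⟩)
      · refine ⟨ha.1.1, fun v hv => ⟨hSA a ha.1.1 v hv, ?_⟩⟩
        exact ha.2 (ρ v) (Sym2.mem_map.2 ⟨v, hv, rfl⟩)
      · refine ⟨h.ζS v hv.1.1 hv.1.2, fun w hw => ?_⟩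
        rw [h.ζe v hv.1.1 hv.1.2, Sym2.mem_iff] at hw
        rcases hw with rfl | rfl
        · exact hL₁V hv
        · exact ⟨h.cA v hv.1.1, by rw [h.cρ v hv.1.1]; exact hv.2⟩
    have h1 : rk M (X ∪ ζ '' L₁) ≤ V₁.ncard := by
      have h2 := (M.eRk_mono hX1).trans (hB.rk V₁)
      rw [← cast_rk, ← hV₁f.cast_ncard_eq] at h2
      exact_mod_cast h2
    have h2 : rk (M ／ Z) X + rk M Z = rk M (X ∪ Z) := BQ.rk_con hZi.subset_ground (by
      intro e he
      exact ⟨hB.sub he.1.1, he.1.2⟩)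
    have h3 : rk M (X ∪ Z) ≤ rk M (X ∪ ζ '' L₁) + (Z \ ζ '' L₁).ncard := by
      have h4 := rk_union_le M (X := X ∪ ζ '' L₁) (Y := Z \ ζ '' L₁) (hZf.subset sdiff_subset)
      have h5 : X ∪ ζ '' L₁ ∪ Z \ ζ '' L₁ = X ∪ Z := by
        rw [union_assoc, union_sdiff_cancel hZ₁]
      rw [h5] at h4
      exact h4
    have h4 : (Z \ ζ '' L₁).ncard + (ζ '' L₁).ncard = Z.ncard :=
      Set.ncard_sdiff_add_ncard_of_subset hZ₁ hZf
    have h5 : (ζ '' L₁).ncard = L₁.ncard :=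
      (h.inj.mono (fun v hv => hv.1)).ncard_image
    have h6 := rk_indep hZi
    have h7 : rk (M ／ Z) X ≤ Q.ncard := by omega
    have : (M ／ Z).Finite := BQ.fin_contract Z
    rw [← cast_rk (M ／ Z), ← hQ.cast_ncard_eq]
    exact_mod_cast h7

lemma con_cl {Z Y : Set α} {z : α} (hz : z ∉ Z) :
    z ∈ (M ／ Z).closure Y ↔ z ∈ M.closure (Y ∪ Z) := by
  rw [Matroid.contract_closure_eq]
  exact ⟨fun h => h.1, fun h => ⟨h, hz⟩⟩

/-- A smaller set of elements. -/
lemma bic_mono (hB : Bic M S ends) (h : S' ⊆ S) : Bic M S' ends :=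
  ⟨h.trans hB.sub, fun F φ hF => hB.ind F φ (hF.trans h),
    fun Q => (M.eRk_mono (show ins S' ends Q ⊆ ins S ends Q from
      fun _ he => ⟨h he.1, he.2⟩)).trans (hB.rk Q)⟩

/-- **Exactly one location in a class.** -/
theorem Star.loc_one (hB : Bic M S ends) (hAf : A.Finite)
    (h : Star S ends A ρ c ζ) (hS' : S' ⊆ S)
    {z : α} (hzS : z ∉ S) {p : V} (hp : p ∈ A) (hpl : p ∈ CWL.Loc M S ends z)
    (hno : ∀ v ∈ A, ρ v = ρ p → v ≠ p → v ∉ CWL.Loc M S ends z) :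
    ρ p ∈ CWL.Loc (M ／ (ζ '' lvs A ρ c)) S' (fun e => (ends e).map ρ) z := by
  classical
  set L := lvs A ρ c with hL
  set Z := ζ '' L with hZ
  set Φ : Set V := {v | v ∈ A ∧ ρ v = ρ p} with hΦ
  set k := c (ρ p) with hk
  have hkA : k ∈ A := h.cA p hp
  have hkρ : ρ k = ρ p := h.cρ p hp
  have hkΦ : k ∈ Φ := ⟨hkA, hkρ⟩
  have hzZ : z ∉ Z := fun h' => hzS (h.sub h')
  have hno' : ∀ v ∈ Φ, v ≠ p → z ∈ M.closure (ins S ends {v}ᶜ) := by
    intro v hv hvp
    have h1 := hno v hv.1 hv.2 hvp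
    change ¬ (z ∉ M.closure (ins S ends {v}ᶜ)) at h1
    exact not_not.1 h1
  have hleaf : ∀ v ∈ Φ, v ≠ k → v ∈ L ∧ ends (ζ v) = s(v, k) := by
    intro v hv hvk
    have h1 : c (ρ v) = k := by rw [hv.2]
    have h2 : v ∈ L := ⟨hv.1, by rw [h1]; exact hvk⟩
    exact ⟨h2, by rw [h.ζe v h2.1 h2.2, h1]⟩
  -- elements outside
  have hout : ∀ v ∈ Φ, ∀ a ∈ ins S ends Φᶜ, a ∈ M.closure (ins S ends {v}ᶜ) := by
    intro v hv a ha
    refine M.mem_closure_of_mem' ⟨ha.1, fun w hw => ?_⟩ (hB.sub ha.1)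
    simp only [mem_compl_iff, mem_singleton_iff]
    rintro rfl
    exact ha.2 _ hw hv
  set E0 : Set α := if p = k then ∅ else {ζ p} with hE0
  have hE0m : ∀ a ∈ E0, a = ζ p ∧ p ≠ k := by
    intro a ha
    rw [hE0] at ha
    split_ifs at ha with h1
    · exact ha.elim
    · exact ⟨ha, h1⟩
  have key : ∀ T : Finset V, (∀ v ∈ T, v ∈ Φ ∧ v ≠ k ∧ v ≠ p) →
      z ∉ M.closure (ζ '' (T : Set V) ∪ (E0 ∪ ins S ends Φᶜ)) := by
    intro T
    induction T using Finset.induction_on with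
    | empty =>
      intro _ hz
      rw [Finset.coe_empty, image_empty, empty_union] at hz
      by_cases h1 : p = k
      · rw [hE0, if_pos h1, empty_union] at hz
        refine hpl (M.closure_subset_closure ?_ hz)
        intro a ha
        refine ⟨ha.1, fun w hw => ?_⟩
        simp only [mem_compl_iff, mem_singleton_iff]
        rintro rfl
        exact ha.2 _ hw ⟨hp, rfl⟩
      · rw [hE0, if_neg h1, singleton_union] at hz
        have hz0 : z ∉ M.closure (ins S ends Φᶜ) := by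
          intro hz'
          refine hpl (M.closure_subset_closure ?_ hz')
          intro a ha
          refine ⟨ha.1, fun w hw => ?_⟩
          simp only [mem_compl_iff, mem_singleton_iff]
          rintro rfl
          exact ha.2 _ hw ⟨hp, rfl⟩
        have h3 := (M.closure_exchange ⟨hz, hz0⟩).1
        have h4 : insert z (ins S ends Φᶜ) ⊆ M.closure (ins S ends {k}ᶜ) := by
          rintro a (rfl | ha)
          · exact hno' k hkΦ (fun h5 => h1 h5.symm)
          · exact hout k hkΦ a ha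
        have h5 := M.closure_subset_closure_of_subset_closure h4 h3
        obtain ⟨h6, h7⟩ := hleaf p ⟨hp, rfl⟩ h1
        exact not_mem_Hx' hB (h.ζS p h6.1 h6.2) (by rw [h7]; simp) h5
    | @insert ℓ T hℓT ih =>
      intro hT hz
      have hz0 := ih (fun v hv => hT v (Finset.mem_insert_of_mem hv))
      obtain ⟨hℓΦ, hℓk, hℓp⟩ := hT ℓ (Finset.mem_insert_self _ _)
      rw [Finset.coe_insert, image_insert_eq, insert_union] at hz
      have h3 := (M.closure_exchange ⟨hz, hz0⟩).1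
      have h4 : insert z (ζ '' (T : Set V) ∪ (E0 ∪ ins S ends Φᶜ)) ⊆
          M.closure (ins S ends {ℓ}ᶜ) := by
        have hζ : ∀ v ∈ Φ, v ≠ k → v ≠ ℓ → ζ v ∈ M.closure (ins S ends {ℓ}ᶜ) := by
          intro v hv hvk hvℓ
          obtain ⟨h6, h7⟩ := hleaf v hv hvk
          refine M.mem_closure_of_mem' ⟨h.ζS v h6.1 h6.2, fun w hw => ?_⟩
            (hB.sub (h.ζS v h6.1 h6.2))
          rw [h7, Sym2.mem_iff] at hw
          simp only [mem_compl_iff, mem_singleton_iff]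
          rcases hw with rfl | rfl
          · exact hvℓ
          · exact fun h8 => hℓk h8.symm
        rintro a (rfl | ⟨v, hv, rfl⟩ | ha | ha)
        · exact hno' ℓ hℓΦ hℓp
        · obtain ⟨h6, h7, _⟩ := hT v (Finset.mem_insert_of_mem hv)
          refine hζ v h6 h7 ?_
          rintro rfl
          exact hℓT hv
        · obtain ⟨rfl, h6⟩ := hE0m a ha
          exact hζ p ⟨hp, rfl⟩ h6 (fun h7 => hℓp h7.symm)
        · exact hout ℓ hℓΦ a ha
      have h5 := M.closure_subset_closure_of_subset_closure h4 h3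
      obtain ⟨h6, h7⟩ := hleaf ℓ hℓΦ hℓk
      exact not_mem_Hx' hB (h.ζS ℓ h6.1 h6.2) (by rw [h7]; simp) h5
  -- conclusion
  have hTf : {v | v ∈ Φ ∧ v ≠ k ∧ v ≠ p}.Finite := hAf.subset (fun v hv => hv.1.1)
  have hfin := key hTf.toFinset (fun v hv => hTf.mem_toFinset.1 hv)
  change z ∉ (M ／ Z).closure (ins S' (fun e => (ends e).map ρ) {ρ p}ᶜ)
  rw [con_cl hzZ]
  intro hz
  refine hfin (M.closure_subset_closure ?_ hz)
  rintro a (ha | ⟨v, hv, rfl⟩)
  · refine Or.inr (Or.inr ⟨hS' ha.1, fun w hw hwΦ => ?_⟩)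
    exact ha.2 (ρ w) (Sym2.mem_map.2 ⟨w, hw, rfl⟩) hwΦ.2
  · by_cases hvΦ : ρ v = ρ p
    · have hvk : v ≠ k := by
        intro h1
        apply hv.2
        rw [hvΦ]
        exact h1
      by_cases hvp : v = p
      · rw [hvp] at hvk ⊢
        refine Or.inr (Or.inl ?_)
        rw [hE0, if_neg hvk]
        rfl
      · refine Or.inl ⟨v, ?_, rfl⟩
        rw [Set.Finite.coe_toFinset]
        exact ⟨⟨hv.1, hvΦ⟩, hvk, hvp⟩
    · refine Or.inr (Or.inr ⟨h.ζS v hv.1 hv.2, fun w hw hwΦ => ?_⟩)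
      rw [h.ζe v hv.1 hv.2, Sym2.mem_iff] at hw
      rcases hw with rfl | rfl
      · exact hvΦ hwΦ.2
      · apply hvΦ
        rw [← h.cρ v hv.1]
        exact hwΦ.2

/-- Elements are spanned by the quotient if it is full. -/
theorem Star.span [M.Finite] (hB : Bic M S ends) (hAf : A.Finite)
    (hSA : ∀ e ∈ S, ∀ v ∈ ends e, v ∈ A) (h : Star S ends A ρ c ζ)
    (hS' : S' ⊆ S \ (ζ '' lvs A ρ c)) {Q : Set W} (hQf : Q.Finite) {F : Set α}
    (hfull : FullB S' (fun e => (ends e).map ρ) Q F) :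
    ins S ends (ρ ⁻¹' Q) ⊆ M.closure (F ∪ ζ '' lvs A ρ c) := by
  have hBq := h.bic hB hAf hSA
  have hfull' : FullB (S \ (ζ '' lvs A ρ c)) (fun e => (ends e).map ρ) Q F :=
    ⟨fun e he => ⟨hS' (hfull.1 he).1, (hfull.1 he).2⟩, hfull.2⟩
  have h1 := hfull'.closure hBq hQf
  intro e he
  by_cases heZ : e ∈ ζ '' lvs A ρ c
  · exact M.mem_closure_of_mem' (Or.inr heZ) (hB.sub he.1)
  · rw [← con_cl heZ, h1]
    refine (M ／ (ζ '' lvs A ρ c)).mem_closure_of_mem' ⟨⟨he.1, heZ⟩, ?_⟩ (hBq.sub ⟨he.1, heZ⟩)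
    intro w hw
    obtain ⟨v, hv, rfl⟩ := Sym2.mem_map.1 hw
    exact he.2 v hv

/-- Elements in the closure stay in the closure. -/
theorem Star.cl [M.Finite] (hB : Bic M S ends) (hAf : A.Finite)
    (hSA : ∀ e ∈ S, ∀ v ∈ ends e, v ∈ A) (h : Star S ends A ρ c ζ)
    (hS' : S' ⊆ S \ (ζ '' lvs A ρ c)) {F : Set α}
    (hfull : FullB S' (fun e => (ends e).map ρ) (ρ '' A) F) {z : α} (hz : z ∈ M.closure S)
    (hzS : z ∉ S) : z ∈ (M ／ (ζ '' lvs A ρ c)).closure S' := by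
  have hzZ : z ∉ ζ '' lvs A ρ c := fun h' => hzS (h.sub h')
  rw [con_cl hzZ]
  have h1 : S ⊆ ins S ends (ρ ⁻¹' (ρ '' A)) :=
    fun e he => ⟨he, fun v hv => ⟨v, hSA e he v hv, rfl⟩⟩
  have h2 := h1.trans (h.span hB hAf hSA hS' (hAf.image ρ) hfull)
  have h3 := M.closure_subset_closure_of_subset_closure h2 hz
  exact M.closure_subset_closure (union_subset_union_left _ (fun e he => (hfull.1 he).1)) h3

/-- **Exact status of a class.** -/
theorem Star.loc_iff [M.Finite] (hB : Bic M S ends) (hAf : A.Finite)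
    (hSA : ∀ e ∈ S, ∀ v ∈ ends e, v ∈ A) (h : Star S ends A ρ c ζ)
    (hS' : S' ⊆ S \ (ζ '' lvs A ρ c)) {z : α} (hzS : z ∉ S) {w : W} {F' : Set α}
    (hfull' : FullB S' (fun e => (ends e).map ρ) ((ρ '' A) \ {w}) F') :
    w ∈ CWL.Loc (M ／ (ζ '' lvs A ρ c)) S' (fun e => (ends e).map ρ) z ↔
      z ∉ M.closure (ins S ends {v | v ∈ A ∧ ρ v = w}ᶜ ∪
        ζ '' {v | v ∈ lvs A ρ c ∧ ρ v = w}) := by
  have hzZ : z ∉ ζ '' lvs A ρ c := fun h' => hzS (h.sub h')
  change (z ∉ (M ／ (ζ '' lvs A ρ c)).closure (ins S' (fun e => (ends e).map ρ) {w}ᶜ)) ↔ _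
  rw [con_cl hzZ, not_iff_not]
  constructor
  · intro hz
    refine M.closure_subset_closure ?_ hz
    rintro a (ha | ⟨v, hv, rfl⟩)
    · refine Or.inl ⟨(hS' ha.1).1, fun u hu huΦ => ?_⟩
      exact ha.2 (ρ u) (Sym2.mem_map.2 ⟨u, hu, rfl⟩) huΦ.2
    · by_cases hvw : ρ v = w
      · exact Or.inr ⟨v, ⟨hv, hvw⟩, rfl⟩
      · refine Or.inl ⟨h.ζS v hv.1 hv.2, fun u hu huΦ => ?_⟩
        rw [h.ζe v hv.1 hv.2, Sym2.mem_iff] at hu
        rcases hu with rfl | rfl
        · exact hvw huΦ.2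
        · apply hvw
          rw [← h.cρ v hv.1]
          exact huΦ.2
  · intro hz
    have h2 : ins S ends {v | v ∈ A ∧ ρ v = w}ᶜ ⊆ ins S ends (ρ ⁻¹' ((ρ '' A) \ {w})) := by
      intro e he
      refine ⟨he.1, fun v hv => ⟨⟨v, hSA e he.1 v hv, rfl⟩, ?_⟩⟩
      intro h3
      exact he.2 v hv ⟨hSA e he.1 v hv, h3⟩
    have h3 := h2.trans (h.span hB hAf hSA hS' ((hAf.image ρ).subset sdiff_subset) hfull')
    have h4 : ζ '' {v | v ∈ lvs A ρ c ∧ ρ v = w} ⊆ M.closure (F' ∪ ζ '' lvs A ρ c) := by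
      rintro _ ⟨v, hv, rfl⟩
      exact M.mem_closure_of_mem' (Or.inr ⟨v, hv.1, rfl⟩) (hB.sub (h.ζS v hv.1.1 hv.1.2))
    have h5 := M.closure_subset_closure_of_subset_closure (union_subset h3 h4) hz
    refine M.closure_subset_closure (union_subset_union_left _ ?_) h5
    intro e he
    exact ⟨(hfull'.1 he).1, fun v hv => ((hfull'.1 he).2 v hv).2⟩

/-- **No location in a class.** -/
theorem Star.loc_none [M.Finite] (hB : Bic M S ends) (hAf : A.Finite)
    (hSA : ∀ e ∈ S, ∀ v ∈ ends e, v ∈ A) (hA : VConn S ends A) (h : Star S ends A ρ c ζ)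
    (hS' : S' ⊆ S \ (ζ '' lvs A ρ c)) {z : α} (hz : z ∈ M.closure S) (hzS : z ∉ S) {w : W}
    {F F' : Set α} (hne : ({v | v ∈ A ∧ ρ v ≠ w} : Set V).Nonempty)
    (hfull : FullB S ends {v | v ∈ A ∧ ρ v ≠ w} F)
    (hfull' : FullB S' (fun e => (ends e).map ρ) ((ρ '' A) \ {w}) F')
    (hno : ∀ v ∈ A, ρ v = w → v ∉ CWL.Loc M S ends z) :
    w ∉ CWL.Loc (M ／ (ζ '' lvs A ρ c)) S' (fun e => (ends e).map ρ) z := by
  have hzZ : z ∉ ζ '' lvs A ρ c := fun h' => hzS (h.sub h')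
  have h1 : z ∈ M.closure (ins S ends {v | v ∈ A ∧ ρ v ≠ w}) := by
    refine loc_closure hB hAf hSA hA hz _ _ F rfl (fun v hv => hv.1) hne hfull ?_
    intro v hv hvU
    have h2 : ρ v = w := by
      by_contra h3
      exact hvU ⟨hv, h3⟩
    have h3 := hno v hv h2
    change ¬ (z ∉ M.closure (ins S ends {v}ᶜ)) at h3
    exact not_not.1 h3
  have h2 : ins S ends {v | v ∈ A ∧ ρ v ≠ w} ⊆ ins S ends (ρ ⁻¹' ((ρ '' A) \ {w})) :=
    ins_mono (fun v hv => ⟨⟨v, hv.1, rfl⟩, hv.2⟩)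
  have h3 := h2.trans (h.span hB hAf hSA hS' ((hAf.image ρ).subset sdiff_subset) hfull')
  have h4 := M.closure_subset_closure_of_subset_closure h3 h1
  change ¬ (z ∉ (M ／ (ζ '' lvs A ρ c)).closure (ins S' (fun e => (ends e).map ρ) {w}ᶜ))
  rw [not_not, con_cl hzZ]
  refine M.closure_subset_closure (union_subset_union_left _ ?_) h4
  intro e he
  refine ⟨(hfull'.1 he).1, fun v hv => ?_⟩
  exact ((hfull'.1 he).2 v hv).2

end

end DA
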