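import Pool.Agent.DA.GlW
import Pool.Agent.DA.StarC

/-!
# Blobs with exactly one location, blobs without locations
-/

open Set BIC BICS
open scoped Matroid

namespace DA

open Gad

universe u

/-- A star-like set of vertices with exactly one location. -/
theorem bl_star {α V : Type*} {P : Matroid α} {S : Set α} {ends : α → Sym2 V} (hB : Bic P S ends)
    (hinj : InjOn ends S) {Φ : Set V} (hΦ : Φ.Finite) {c₀ : V} (hc₀ : c₀ ∈ Φ)
    (hst : ∀ v ∈ Φ, v ≠ c₀ → ∃ e ∈ S, ends e = s(v, c₀))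
    (hins : ∀ e ∈ S, (∀ v ∈ ends e, v ∈ Φ) → ∃ v ∈ Φ, v ≠ c₀ ∧ ends e = s(v, c₀))
    {z : α} (hzS : z ∉ S) {p : V} (hp : p ∈ Φ) (hpl : p ∈ CWL.Loc P S ends z)
    (hno : ∀ v ∈ Φ, v ≠ p → v ∉ CWL.Loc P S ends z) :
    z ∉ P.closure (ins S ends Φᶜ ∪ ins S ends Φ) := by
  classical
  have hζ : ∀ v, ∃ e : α, (v ∈ Φ ∧ v ≠ c₀) → e ∈ S ∧ ends e = s(v, c₀) := by
    intro v
    by_cases h : v ∈ Φ ∧ v ≠ c₀
    · obtain ⟨e, he, h1⟩ := hst v h.1 h.2
      exact ⟨e, fun _ => ⟨he, h1⟩⟩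
    · exact ⟨z, fun h' => absurd h' h⟩
  choose ζ hζ using hζ
  obtain ⟨ρ, hρ⟩ : ∃ ρ : V → Option V, ρ = fun v => if v ∈ Φ then none else some v := ⟨_, rfl⟩
  have hρΦ : ∀ v, ρ v = none ↔ v ∈ Φ := by
    intro v
    rw [hρ]
    by_cases h : v ∈ Φ <;> simp [h]
  have hS : Star S ends Φ ρ (fun _ => c₀) ζ := by
    refine ⟨fun v _ => hc₀, fun v hv => ?_, fun v hv hvc => (hζ v ⟨hv, hvc⟩).1,
      fun v hv hvc => (hζ v ⟨hv, hvc⟩).2⟩
    rw [(hρΦ _).2 hc₀, (hρΦ _).2 hv]
  have h1 := hS.loc_one hB hΦ (S' := ins S ends Φᶜ) (fun e he => he.1) hzS hp hpl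
    (fun v hv _ hvp => hno v hv hvp)
  rw [(hρΦ p).2 hp] at h1
  have hzZ : z ∉ ζ '' lvs Φ ρ (fun _ => c₀) := fun h => hzS (hS.sub h)
  change z ∉ (P ／ (ζ '' lvs Φ ρ (fun _ => c₀))).closure
    (ins (ins S ends Φᶜ) (fun e => (ends e).map ρ) {none}ᶜ) at h1
  rw [con_cl hzZ] at h1
  intro h2
  refine h1 (P.closure_subset_closure ?_ h2)
  rintro e (he | he)
  · refine Or.inl ⟨he, ?_⟩
    intro x hx
    obtain ⟨v, hv, rfl⟩ := Sym2.mem_map.1 hx
    intro h3
    exact he.2 v hv ((hρΦ v).1 h3)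
  · obtain ⟨v, hv, hvc, h3⟩ := hins e he.1 he.2
    refine Or.inr ⟨v, ⟨hv, hvc⟩, ?_⟩
    obtain ⟨h4, h5⟩ := hζ v ⟨hv, hvc⟩
    exact hinj h4 he.1 (h5.trans h3.symm)

lemma vn_cases (p : ℕ × ℕ) : ((p.1 + p.2) % 2 = 0 ∧ vn p = (p.1, p.2 + 1)) ∨
    ((p.1 + p.2) % 2 = 1 ∧ vn p = (p.1, p.2 - 1)) := by
  unfold vn
  split_ifs with h
  · exact Or.inl ⟨h, rfl⟩
  · exact Or.inr ⟨by omega, rfl⟩

/-- **A blob with exactly one location is a location of the quotient.** -/
theorem bl_one {α : Type*} {P : Matroid α} {S : Set α} {ends : α → Sym2 (ℕ × ℕ)} {w i : ℕ}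
    {K : Set (ℕ × ℕ)} {τ : ℕ × ℕ → ℕ × ℕ} {miss : Set (Sym2 (ℕ × ℕ))} (hi : i ≤ 1)
    (hB : Bic P S ends) (hW : WallE S ends w miss) (hT : Tgt i K τ)
    (hKs : ∀ v ∈ K, ∀ v' ∈ K, v ≠ v' → 10 < sd v v')
    (hmiss : ∀ p q, s(p, q) ∈ miss → (pw i p ∈ K ∧ τ p ≠ q) ∨ (pw i q ∈ K ∧ τ q ≠ p))
    {b : ℕ × ℕ} (hbd : DeepR (0, 0) ((w + 1 - i) / 2) (w + 1) 3 b) {z : α} (hzS : z ∉ S)
    {p : ℕ × ℕ} (hp : p ∈ blob i K τ b) (hpl : p ∈ CWL.Loc P S ends z)
    (hno : ∀ p' ∈ blob i K τ b, p' ≠ p → p' ∉ CWL.Loc P S ends z) :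
    b ∈ BL P S ends i K τ z := by
  classical
  unfold DeepR at hbd
  simp only at hbd
  -- two halves of missing pairs in the blob are equal
  have hatt : ∀ h, pw i h ∈ K → pw i (τ h) = b → sd (pw i h) b ≤ 1 ∧ pw i h ≠ b := by
    intro h h1 h2
    have h3 := hT h h1
    have h4 := vn_cases h
    obtain ⟨x, y⟩ := h
    obtain ⟨b1, b2⟩ := b
    rw [sd_le]
    unfold pw at *
    simp only [Prod.mk.injEq, ne_eq] at *
    rcases h3 with h3 | ⟨h3, h5⟩ | ⟨h3, h5⟩
    · rcases h4 with ⟨h4, h6⟩ | ⟨h4, h6⟩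
      · rw [h3, h6] at h2
        simp only at h2
        omega
      · rw [h3, h6] at h2
        simp only at h2
        omega
    · rw [h5] at h2
      simp only at h2
      omega
    · rw [h5] at h2
      simp only at h2
      omega
  have huniq : ∀ h h', pw i h ∈ K → pw i (τ h) = b → pw i h' ∈ K → pw i (τ h') = b → h = h' := by
    intro h h' h1 h2 h1' h2'
    have e1 : pw i h = pw i h' := by
      by_contra hne
      have h5 := hKs _ h1 _ h1' hne
      have h6 := (hatt h h1 h2).1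
      have h7 := (hatt h' h1' h2').1
      have h8 := sd_tri (p := pw i h) (q := b) (r := pw i h')
      rw [sd_comm (p := b)] at h8
      omega
    have h3 := hT h h1
    have h4 := vn_cases h
    have h3' := hT h' h1'
    have h4' := vn_cases h'
    have h8 := (hatt h h1 h2).2
    obtain ⟨x, y⟩ := h
    obtain ⟨x', y'⟩ := h'
    obtain ⟨b1, b2⟩ := b
    unfold pw at *
    simp only [Prod.mk.injEq, ne_eq] at *
    rcases h3 with h3 | ⟨h3, h5⟩ | ⟨h3, h5⟩ <;> rcases h3' with h3' | ⟨h3', h5'⟩ | ⟨h3', h5'⟩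
    · rcases h4 with ⟨h4, h6⟩ | ⟨h4, h6⟩ <;> rcases h4' with ⟨h4', h6'⟩ | ⟨h4', h6'⟩ <;>
        rw [h3, h6] at h2 <;> rw [h3', h6'] at h2' <;> simp only at h2 h2' <;> omega
    · rcases h4 with ⟨h4, h6⟩ | ⟨h4, h6⟩ <;> rw [h3, h6] at h2 <;> rw [h5'] at h2' <;>
        simp only at h2 h2' <;> omega
    · rcases h4 with ⟨h4, h6⟩ | ⟨h4, h6⟩ <;> rw [h3, h6] at h2 <;> rw [h5'] at h2' <;>
        simp only at h2 h2' <;> omega
    · rcases h4' with ⟨h4', h6'⟩ | ⟨h4', h6'⟩ <;> rw [h5] at h2 <;> rw [h3', h6'] at h2' <;>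
        simp only at h2 h2' <;> omega
    · rw [h5] at h2
      rw [h5'] at h2'
      simp only at h2 h2'
      omega
    · rw [h5] at h2
      rw [h5'] at h2'
      simp only at h2 h2'
      omega
    · rcases h4' with ⟨h4', h6'⟩ | ⟨h4', h6'⟩ <;> rw [h5] at h2 <;> rw [h3', h6'] at h2' <;>
        simp only at h2 h2' <;> omega
    · rw [h5] at h2
      rw [h5'] at h2'
      simp only at h2 h2'
      omega
    · rw [h5] at h2
      rw [h5'] at h2'
      simp only at h2 h2'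
      omega
  have hbK : b ∉ K := by
    intro hb
    rcases hp with ⟨h1, h2⟩ | ⟨h1, h2⟩
    · exact h1 (h2 ▸ hb)
    · obtain ⟨h3, h4⟩ := hatt p h1 h2
      have := hKs _ h1 _ hb h4
      omega
  obtain ⟨lo, hlo⟩ : ∃ lo : ℕ × ℕ, lo = (2 * b.1 + i, b.2) := ⟨_, rfl⟩
  obtain ⟨hi', hhi⟩ : ∃ hi' : ℕ × ℕ, hi' = (2 * b.1 + i + 1, b.2) := ⟨_, rfl⟩
  have plo : pw i lo = b := by
    rw [hlo]
    exact Prod.ext (by simp only [pw]; omega) rfl
  have phi : pw i hi' = b := by
    rw [hhi]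
    exact Prod.ext (by simp only [pw]; omega) rfl
  have hlh : lo ≠ hi' := by
    rw [hlo, hhi]
    simp
  have hmem : ∀ v, v ∈ blob i K τ b ↔ v = lo ∨ v = hi' ∨ (v ∉ ({lo, hi'} : Set (ℕ × ℕ)) ∧
      pw i v ∈ K ∧ pw i (τ v) = b) := by
    intro v
    constructor
    · rintro (⟨h1, h2⟩ | ⟨h1, h2⟩)
      · by_cases hi2 : i ≤ v.1
        · rw [hlo, hhi]
          unfold pw at h2
          rw [Prod.ext_iff] at h2
          simp only at h2
          have : v.1 = 2 * b.1 + i ∨ v.1 = 2 * b.1 + i + 1 := by omega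
          rcases this with h3 | h3
          · exact Or.inl (Prod.ext h3 h2.2)
          · exact Or.inr (Or.inl (Prod.ext h3 h2.2))
        · unfold pw at h2
          rw [Prod.ext_iff] at h2
          simp only at h2
          omega
      · right; right
        refine ⟨?_, h1, h2⟩
        have h3 := (hatt v h1 h2).2
        rintro (h4 | h4)
        · exact h3 (h4 ▸ plo)
        · rw [mem_singleton_iff] at h4
          exact h3 (h4 ▸ phi)
    · rintro (rfl | rfl | ⟨_, h1, h2⟩)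
      · exact Or.inl ⟨by rw [plo]; exact hbK, plo⟩
      · exact Or.inl ⟨by rw [phi]; exact hbK, phi⟩
      · exact Or.inr ⟨h1, h2⟩
  -- the centre
  obtain ⟨c₀, hc₀⟩ : ∃ c₀ : ℕ × ℕ, (c₀ = lo ∨ c₀ = hi') ∧
      ∀ h, pw i h ∈ K → pw i (τ h) = b → c₀ = τ h := by
    by_cases hex : ∃ h, pw i h ∈ K ∧ pw i (τ h) = b
    · obtain ⟨h, h1, h2⟩ := hex
      refine ⟨τ h, ?_, fun h' h1' h2' => by rw [huniq h h' h1 h2 h1' h2']⟩
      have h3 : τ h ∈ blob i K τ b := Or.inl ⟨by rw [h2]; exact hbK, h2⟩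
      rcases (hmem _).1 h3 with h4 | h4 | ⟨_, h4, _⟩
      · exact Or.inl h4
      · exact Or.inr h4
      · rw [h2] at h4
        exact absurd h4 hbK
    · exact ⟨lo, Or.inl rfl, fun h h1 h2 => absurd ⟨h, h1, h2⟩ hex⟩
  obtain ⟨hc₀1, hc₀2⟩ := hc₀
  have hc₀b : pw i c₀ = b := by
    rcases hc₀1 with h | h
    · rw [h, plo]
    · rw [h, phi]
  have hwlh : wadj lo hi' := by
    rw [hlo, hhi]
    exact Or.inl ⟨rfl, Or.inl rfl⟩
  have hwsym : ∀ {a b : ℕ × ℕ}, wadj a b → wadj b a := by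
    intro a b h
    unfold wadj at h ⊢
    omega
  have hrlo : lo ∈ rect 0 0 (w + 1) (w + 1) := by
    rw [Gad.mem_rct, hlo]
    simp only
    omega
  have hrhi : hi' ∈ rect 0 0 (w + 1) (w + 1) := by
    rw [Gad.mem_rct, hhi]
    simp only
    omega
  have hpair : ∃ e ∈ S, ends e = s(lo, hi') := by
    refine hW.surj _ _ hwlh hrlo hrhi ?_
    intro h
    rcases hmiss _ _ h with ⟨h1, _⟩ | ⟨h1, _⟩
    · rw [plo] at h1
      exact hbK h1
    · rw [phi] at h1
      exact hbK h1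
  -- the attached half
  have hattw : ∀ h, pw i h ∈ K → pw i (τ h) = b → wadj h (τ h) ∧ h ∈ rect 0 0 (w + 1) (w + 1) ∧
      ∀ q, (q = lo ∨ q = hi') → wadj h q → q = τ h := by
    intro h h1 h2
    have h3 := hT h h1
    have h4 := vn_cases h
    have h8 := (hatt h h1 h2).2
    obtain ⟨x, y⟩ := h
    obtain ⟨b1, b2⟩ := b
    rw [Gad.mem_rct]
    rw [hlo, hhi]
    unfold pw at *
    unfold wadj
    simp only [Prod.mk.injEq, ne_eq] at *
    rcases h3 with h3 | ⟨h3, h5⟩ | ⟨h3, h5⟩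
    · rcases h4 with ⟨h4, h6⟩ | ⟨h4, h6⟩
      · rw [h3, h6] at h2 ⊢
        simp only at h2
        refine ⟨by simp only [true_and]; omega, by omega, ?_⟩
        rintro q (rfl | rfl) hq
        · simp only at hq
          exact Prod.ext (by simp only; omega) (by simp only; omega)
        · simp only at hq
          exact Prod.ext (by simp only; omega) (by simp only; omega)
      · rw [h3, h6] at h2 ⊢
        simp only at h2
        refine ⟨by simp only [true_and]; omega, by omega, ?_⟩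
        rintro q (rfl | rfl) hq
        · simp only at hq
          exact Prod.ext (by simp only; omega) (by simp only; omega)
        · simp only at hq
          exact Prod.ext (by simp only; omega) (by simp only; omega)
    · rw [h5] at h2 ⊢
      simp only at h2
      refine ⟨by simp only [true_and]; omega, by omega, ?_⟩
      rintro q (rfl | rfl) hq
      · simp only at hq
        exact Prod.ext (by simp only; omega) (by simp only; omega)
      · simp only at hq
        exact Prod.ext (by simp only; omega) (by simp only; omega)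
    · rw [h5] at h2 ⊢
      simp only at h2
      refine ⟨Or.inl ⟨rfl, Or.inl rfl⟩, by omega, ?_⟩
      rintro q (rfl | rfl) hq
      · simp only at hq
        exact Prod.ext (by simp only; omega) (by simp only; omega)
      · simp only at hq
        exact Prod.ext (by simp only; omega) (by simp only; omega)
  have hrc : c₀ ∈ rect 0 0 (w + 1) (w + 1) := by
    rcases hc₀1 with h | h
    · rw [h]; exact hrlo
    · rw [h]; exact hrhi
  have hstar : ∀ v ∈ blob i K τ b, v ≠ c₀ → ∃ e ∈ S, ends e = s(v, c₀) := by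
    intro v hv hvc
    rcases (hmem v).1 hv with h1 | h1 | ⟨_, h1, h2⟩
    · rcases hc₀1 with h | h
      · exact absurd (h1.trans h.symm) hvc
      · rw [h1, h]
        exact hpair
    · rcases hc₀1 with h | h
      · rw [h1, h, Sym2.eq_swap]
        exact hpair
      · exact absurd (h1.trans h.symm) hvc
    · obtain ⟨h3, h4, _⟩ := hattw v h1 h2
      have h5 := hc₀2 v h1 h2
      rw [h5] at hrc ⊢
      refine hW.surj _ _ h3 h4 hrc ?_
      intro h
      rcases hmiss _ _ h with ⟨_, h6⟩ | ⟨h6, _⟩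
      · exact h6 rfl
      · rw [h2] at h6
        exact hbK h6
  refine bl_star hB hW.inj ?_ (c₀ := c₀) (Or.inl ⟨by rw [hc₀b]; exact hbK, hc₀b⟩) hstar ?_ hzS hp
    hpl hno
  · refine Set.Finite.subset (s := {lo, hi'} ∪ {v | v ∈ blob i K τ b ∧
      v ∉ ({lo, hi'} : Set (ℕ × ℕ))}) ?_ ?_
    · refine Set.Finite.union (by simp) ?_
      refine Set.Subsingleton.finite ?_
      rintro v ⟨hv, hv'⟩ v' ⟨hw', hw''⟩
      rcases (hmem v).1 hv with h1 | h1 | ⟨_, h1, h2⟩
      · exact absurd (Or.inl h1) hv'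
      · exact absurd (Or.inr h1) hv'
      · rcases (hmem v').1 hw' with h3 | h3 | ⟨_, h3, h4⟩
        · exact absurd (Or.inl h3) hw''
        · exact absurd (Or.inr h3) hw''
        · exact huniq v v' h1 h2 h3 h4
    · intro v hv
      by_cases h : v ∈ ({lo, hi'} : Set (ℕ × ℕ))
      · exact Or.inl h
      · exact Or.inr ⟨hv, h⟩
  · intro e he hev
    obtain ⟨a, q, h1, h2, _, _⟩ := hW.mem e he
    have ha := hev a (by rw [h1]; simp)
    have hq := hev q (by rw [h1]; simp)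
    have haq : a ≠ q := by
      rintro rfl
      unfold wadj at h2
      omega
    have key : ∀ a q : ℕ × ℕ, wadj a q → a ∈ blob i K τ b → q ∈ blob i K τ b →
        (q = lo ∨ q = hi') → a ≠ q → (a = c₀ ∨ q = c₀) := by
      intro a q h2 ha hq hq2 haq
      rcases (hmem a).1 ha with h3 | h3 | ⟨_, h3, h4⟩
      · rcases hc₀1 with h | h
        · exact Or.inl (h3.trans h.symm)
        · right
          rcases hq2 with h4 | h4
          · exact absurd (h3.trans h4.symm) haq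
          · exact h4.trans h.symm
      · rcases hc₀1 with h | h
        · right
          rcases hq2 with h4 | h4
          · exact h4.trans h.symm
          · exact absurd (h3.trans h4.symm) haq
        · exact Or.inl (h3.trans h.symm)
      · right
        rw [hc₀2 a h3 h4]
        exact (hattw a h3 h4).2.2 q hq2 h2
    have hor : a = c₀ ∨ q = c₀ := by
      rcases (hmem q).1 hq with h3 | h3 | ⟨h3', h3, h4⟩
      · exact key a q h2 ha hq (Or.inl h3) haq
      · exact key a q h2 ha hq (Or.inr h3) haq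
      · rcases (hmem a).1 ha with h5 | h5 | ⟨_, h5, h6⟩
        · exact (key q a (hwsym h2) hq ha (Or.inl h5) haq.symm).symm
        · exact (key q a (hwsym h2) hq ha (Or.inr h5) haq.symm).symm
        · exact absurd (huniq a q h5 h6 h3 h4) haq
    rcases hor with h3 | h3
    · refine ⟨q, hq, fun h => haq (h3.trans h.symm), ?_⟩
      rw [h1, h3, Sym2.eq_swap]
    · refine ⟨a, ha, fun h => haq (h.trans h3.symm), ?_⟩
      rw [h1, h3]

/-- **A blob without locations is no location of the quotient.** -/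
theorem bl_none (hQ : WQuotX.{u}) {α : Type u} {P : Matroid α} [P.Finite] {S : Set α}
    {ends : α → Sym2 (ℕ × ℕ)} {w i : ℕ} {K : Finset (ℕ × ℕ)} {τ : ℕ × ℕ → ℕ × ℕ}
    {miss : Set (Sym2 (ℕ × ℕ))} (hi : i ≤ 1) (hw : 40 ≤ w)
    (hB : Bic P S ends) (hW : WallE S ends w miss) (hT : Tgt i (K : Set (ℕ × ℕ)) τ)
    (hKd : ∀ v ∈ K, DeepR (0, 0) ((w + 1 - i) / 2) (w + 1) 10 v)
    (hKs : ∀ v ∈ K, ∀ v' ∈ K, v ≠ v' → 10 < sd v v')
    (hmiss : ∀ p q, s(p, q) ∈ miss → (pw i p ∈ K ∧ τ p ≠ q) ∨ (pw i q ∈ K ∧ τ q ≠ p))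
    {b : ℕ × ℕ} (hbd : DeepR (0, 0) ((w + 1 - i) / 2) (w + 1) 10 b) {z : α}
    (hz : z ∈ P.closure S) (hzS : z ∉ S)
    (hno : ∀ p ∈ blob i (K : Set (ℕ × ℕ)) τ b, p ∉ CWL.Loc P S ends z) :
    b ∉ BL P S ends i (K : Set (ℕ × ℕ)) τ z := by
  by_cases hbK : b ∈ K
  · intro h
    refine h ?_
    have he : blob i (K : Set (ℕ × ℕ)) τ b = ∅ := by
      ext p
      simp only [mem_empty_iff_false, iff_false]
      rintro (⟨h1, h2⟩ | ⟨h1, h2⟩)
      · exact h1 (h2 ▸ hbK)
      · have h3 := hT p h1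
        have h4 := vn_cases p
        have h5 := hKs _ h1 b hbK
        have h6 : pw i p ≠ b ∧ sd (pw i p) b ≤ 1 := by
          unfold DeepR at hbd
          obtain ⟨x, y⟩ := p
          obtain ⟨b1, b2⟩ := b
          rw [sd_le]
          unfold pw at *
          simp only [Prod.mk.injEq, ne_eq] at *
          rcases h3 with h3 | ⟨h3, h7⟩ | ⟨h3, h7⟩
          · rcases h4 with ⟨h4, h6⟩ | ⟨h4, h6⟩
            · rw [h3, h6] at h2
              simp only at h2
              omega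
            · rw [h3, h6] at h2
              simp only at h2
              omega
          · rw [h7] at h2
            simp only at h2
            omega
          · rw [h7] at h2
            simp only at h2
            omega
        have := h5 h6.1
        omega
    rw [he, compl_empty]
    have e1 : ins S ends univ = S := by
      ext e
      exact ⟨fun h => h.1, fun h => ⟨h, fun _ _ => mem_univ _⟩⟩
    rw [e1]
    exact P.closure_subset_closure subset_union_left hz
  · obtain ⟨Z, S', _, _, _, _, hloc⟩ := hQ P S ends w i K τ miss hi hw hB hW hT hKd hKs hmiss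
    have h1 := (hloc z hz hzS).2.2 b hbd hbK
    exact fun h => h1.2 hno (h1.1.2 h)

end DA
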