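import Pool.Agent.DA.RWal

/-!
# Block quotients of the brick wall

Every line `y` of the wall is cut into `n` intervals of two or three vertices, which start at
`σ y X`.  If consecutive lines fit together, the contraction of the intervals gives a plain
rectangle `n × (w + 1)`.
-/

open Set BIC BICS
open scoped Matroid

namespace DA

open Gad

universe u

/-- The intervals `[σ y X, σ y (X + 1))`, `X < n`, in the line `y`; the last one ends with `w`. -/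
structure Blk (w n : ℕ) (σ : ℕ → ℕ → ℕ) : Prop where
  z : ∀ y ≤ w, σ y 0 = 0
  st : ∀ y ≤ w, ∀ X, σ y X + 2 ≤ σ y (X + 1) ∧ σ y (X + 1) ≤ σ y X + 3
  n1 : 1 ≤ n
  e1 : ∀ y ≤ w, σ y (n - 1) < w
  e2 : ∀ y ≤ w, w ≤ σ y n
  e3 : ∀ y ≤ w, w + 1 ≤ σ y (n - 1) + 3
  ver : ∀ y < w, ∀ X < n, ∃ x ≤ w, (σ y X ≤ x ∧ (x < σ y (X + 1) ∨ X + 1 = n)) ∧
    (σ (y + 1) X ≤ x ∧ (x < σ (y + 1) (X + 1) ∨ X + 1 = n)) ∧ (x + y) % 2 = 0

lemma wadj_h {x x' y : ℕ} (h : x + 1 = x' ∨ x' + 1 = x) : wadj (x, y) (x', y) := Or.inl ⟨rfl, h⟩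

lemma wadj_v {x y : ℕ} (h : (x + y) % 2 = 0) : wadj (x, y) (x, y + 1) :=
  Or.inr ⟨rfl, Or.inl ⟨rfl, h⟩⟩

/-- index of the interval which contains `x` -/
def hx (σ : ℕ → ℕ) (x : ℕ) : ℕ := Nat.findGreatest (fun X => σ X ≤ x) x

lemma hx_spec {σ : ℕ → ℕ} (h0 : σ 0 = 0) (h1 : ∀ X, σ X + 2 ≤ σ (X + 1)) (x : ℕ) :
    σ (hx σ x) ≤ x ∧ x < σ (hx σ x + 1) := by
  have hge : ∀ X, X ≤ σ X := by
    intro X
    induction X with
    | zero => omega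
    | succ X ih => have := h1 X; omega
  refine ⟨Nat.findGreatest_spec (P := fun X => σ X ≤ x) (m := 0) (Nat.zero_le _)
    (by rw [h0]; exact Nat.zero_le _), ?_⟩
  by_contra hcon
  push Not at hcon
  have h2 := hge (hx σ x + 1)
  have h3 : hx σ x + 1 ≤ hx σ x := Nat.le_findGreatest (P := fun X => σ X ≤ x) (by omega) hcon
  omega

lemma sig_mono {σ : ℕ → ℕ} (h1 : ∀ X, σ X + 2 ≤ σ (X + 1)) : StrictMono σ :=
  strictMono_nat_of_lt_succ (fun X => by have := h1 X; omega)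

lemma hx_eq {σ : ℕ → ℕ} (h0 : σ 0 = 0) (h1 : ∀ X, σ X + 2 ≤ σ (X + 1)) {x X : ℕ}
    (h2 : σ X ≤ x) (h3 : x < σ (X + 1)) : hx σ x = X := by
  obtain ⟨h4, h5⟩ := hx_spec h0 h1 x
  have hm := sig_mono h1
  have h6 : X < hx σ x + 1 := hm.lt_iff_lt.1 (by omega)
  have h7 : hx σ x < X + 1 := hm.lt_iff_lt.1 (by omega)
  omega

/-- the class of a vertex -/
def rB (n : ℕ) (σ : ℕ → ℕ → ℕ) (v : ℕ × ℕ) : ℕ × ℕ := (min (hx (σ v.2) v.1) (n - 1), v.2)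

/-- the centre of a class -/
def cB (σ : ℕ → ℕ → ℕ) (b : ℕ × ℕ) : ℕ × ℕ := (σ b.2 b.1 + 1, b.2)

section

variable {w n : ℕ} {σ : ℕ → ℕ → ℕ}

/-- `x` is in the interval `X` of the line `y`. -/
def InB (w n : ℕ) (σ : ℕ → ℕ → ℕ) (y X x : ℕ) : Prop :=
  x ≤ w ∧ σ y X ≤ x ∧ (x < σ y (X + 1) ∨ X + 1 = n)

lemma Blk.rB_eq (hb : Blk w n σ) {x y X : ℕ} (hy : y ≤ w) (hX : X < n) (h : InB w n σ y X x) :
    rB n σ (x, y) = (X, y) := by
  obtain ⟨h1, h2, h3⟩ := h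
  have h0 := hb.z y hy
  have hs := fun X => (hb.st y hy X).1
  unfold rB
  rw [Prod.mk.injEq]
  refine ⟨?_, rfl⟩
  simp only
  rcases h3 with h3 | h3
  · rw [hx_eq h0 hs h2 h3]
    omega
  · obtain ⟨h4, h5⟩ := hx_spec h0 hs x
    have h6 : X < hx (σ y) x + 1 := (sig_mono hs).lt_iff_lt.1 (by omega)
    omega

lemma Blk.rB_spec (hb : Blk w n σ) {x y : ℕ} (hy : y ≤ w) (hxw : x ≤ w) :
    ∃ X < n, rB n σ (x, y) = (X, y) ∧ InB w n σ y X x := by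
  have h0 := hb.z y hy
  have hs := fun X => (hb.st y hy X).1
  have hn := hb.n1
  obtain ⟨h4, h5⟩ := hx_spec h0 hs x
  by_cases h : hx (σ y) x < n - 1
  · have h1 : InB w n σ y (hx (σ y) x) x := ⟨hxw, h4, Or.inl h5⟩
    exact ⟨_, by omega, hb.rB_eq hy (by omega) h1, h1⟩
  · have h2 : σ y (n - 1) ≤ σ y (hx (σ y) x) := (sig_mono hs).monotone (by omega)
    have h1 : InB w n σ y (n - 1) x := ⟨hxw, by omega, Or.inr (by omega)⟩
    exact ⟨_, by omega, hb.rB_eq hy (by omega) h1, h1⟩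

lemma Blk.near (hb : Blk w n σ) {x y X : ℕ} (hy : y ≤ w) (h : InB w n σ y X x) :
    x = σ y X ∨ x = σ y X + 1 ∨ x = σ y X + 2 := by
  obtain ⟨h1, h2, h3⟩ := h
  rcases h3 with h3 | h3
  · have := hb.st y hy X
    omega
  · have h4 := hb.e3 y hy
    have h5 : n - 1 = X := by omega
    rw [h5] at h4
    omega

lemma Blk.cen (hb : Blk w n σ) {y X : ℕ} (hy : y ≤ w) (hX : X < n) :
    InB w n σ y X (σ y X + 1) := by
  have h1 := hb.st y hy X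
  have h2 := hb.e1 y hy
  have h3 : σ y X ≤ σ y (n - 1) := (sig_mono fun X => (hb.st y hy X).1).monotone (by omega)
  exact ⟨by omega, by omega, Or.inl (by omega)⟩

lemma mem_wall {x y : ℕ} : (x, y) ∈ rect 0 0 (w + 1) (w + 1) ↔ x ≤ w ∧ y ≤ w := by
  rw [Gad.mem_rct]
  simp only
  omega

variable {α : Type*} {S : Set α} {ends : α → Sym2 (ℕ × ℕ)}

lemma Blk.star (hb : Blk w n σ) (hW : WallE S ends w ∅) :
    ∃ ζ, Star S ends (rect 0 0 (w + 1) (w + 1)) (rB n σ) (cB σ) ζ := by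
  classical
  have hex : ∀ v : ℕ × ℕ, v ∈ rect 0 0 (w + 1) (w + 1) → v ≠ cB σ (rB n σ v) →
      ∃ e ∈ S, ends e = s(v, cB σ (rB n σ v)) := by
    rintro ⟨x, y⟩ hv hne
    rw [mem_wall] at hv
    obtain ⟨X, hX, h1, h2⟩ := hb.rB_spec hv.2 hv.1
    rw [h1] at hne ⊢
    have h3 := hb.near hv.2 h2
    have h4 := hb.cen hv.2 hX
    have hc : cB σ (X, y) = (σ y X + 1, y) := rfl
    rw [hc] at hne ⊢
    refine hW.surj _ _ (wadj_h ?_) (mem_wall.2 hv) (mem_wall.2 ⟨h4.1, hv.2⟩) (notMem_empty _)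
    have h5 : x ≠ σ y X + 1 := fun h => hne (by rw [h])
    omega
  rcases S.eq_empty_or_nonempty with hS | ⟨e₀, _⟩
  · exfalso
    obtain ⟨e, he, _⟩ := hW.surj (0, 0) (0, 1) (by unfold wadj; simp)
      (mem_wall.2 ⟨by omega, by omega⟩) (mem_wall.2 ⟨by omega, by
        have := hb.e1 0 (Nat.zero_le _); omega⟩) (notMem_empty _)
    rw [hS] at he
    exact he
  have hex' : ∀ v : ℕ × ℕ, ∃ e : α, v ∈ rect 0 0 (w + 1) (w + 1) → v ≠ cB σ (rB n σ v) →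
      e ∈ S ∧ ends e = s(v, cB σ (rB n σ v)) := by
    intro v
    by_cases h1 : v ∈ rect 0 0 (w + 1) (w + 1) ∧ v ≠ cB σ (rB n σ v)
    · obtain ⟨e, he, h2⟩ := hex v h1.1 h1.2
      exact ⟨e, fun _ _ => ⟨he, h2⟩⟩
    · exact ⟨e₀, fun h2 h3 => absurd ⟨h2, h3⟩ h1⟩
  choose ζ hζ using hex'
  refine ⟨ζ, ?_, ?_, fun v h1 h2 => (hζ v h1 h2).1, fun v h1 h2 => (hζ v h1 h2).2⟩
  · rintro ⟨x, y⟩ hv
    rw [mem_wall] at hv
    obtain ⟨X, hX, h1, h2⟩ := hb.rB_spec hv.2 hv.1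
    rw [h1]
    exact mem_wall.2 ⟨(hb.cen hv.2 hX).1, hv.2⟩
  · rintro ⟨x, y⟩ hv
    rw [mem_wall] at hv
    obtain ⟨X, hX, h1, h2⟩ := hb.rB_spec hv.2 hv.1
    rw [h1]
    exact hb.rB_eq hv.2 hX (hb.cen hv.2 hX)

/-- all edges of the rectangle are there -/
lemma Blk.edge (hb : Blk w n σ) (hW : WallE S ends w ∅) {p q : ℕ × ℕ} (hpq : adj p q)
    (hp : p ∈ rect 0 0 n (w + 1)) (hq : q ∈ rect 0 0 n (w + 1)) :
    ∃ e ∈ S, (ends e).map (rB n σ) = s(p, q) := by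
  have hor : ∀ X y, X + 1 < n → y ≤ w → ∃ e ∈ S, (ends e).map (rB n σ) = s((X, y), (X + 1, y)) := by
    intro X y hX hy
    have hm := sig_mono fun X => (hb.st y hy X).1
    have h1 : σ y (X + 1) ≤ σ y (n - 1) := hm.monotone (by omega)
    have h2 := hb.e1 y hy
    have h3 := hb.st y hy X
    have h4 := hb.st y hy (X + 1)
    obtain ⟨e, he, hee⟩ := hW.surj (σ y (X + 1) - 1, y) (σ y (X + 1), y)
      (wadj_h (by omega)) (mem_wall.2 ⟨by omega, hy⟩)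
      (mem_wall.2 ⟨by omega, hy⟩) (notMem_empty _)
    refine ⟨e, he, ?_⟩
    rw [hee, Sym2.map_mk]
    rw [hb.rB_eq (X := X) hy (by omega) ⟨by omega, by omega, Or.inl (by omega)⟩,
      hb.rB_eq (X := X + 1) hy (by omega) ⟨by omega, le_rfl, Or.inl (by omega)⟩]
  have ver : ∀ X y, X < n → y < w → ∃ e ∈ S, (ends e).map (rB n σ) = s((X, y), (X, y + 1)) := by
    intro X y hX hy
    obtain ⟨x, hx, h1, h2, h3⟩ := hb.ver y hy X hX
    obtain ⟨e, he, hee⟩ := hW.surj (x, y) (x, y + 1) (wadj_v h3)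
      (mem_wall.2 ⟨hx, by omega⟩) (mem_wall.2 ⟨hx, by omega⟩) (notMem_empty _)
    refine ⟨e, he, ?_⟩
    rw [hee, Sym2.map_mk]
    rw [hb.rB_eq (X := X) (by omega) hX ⟨hx, h1⟩, hb.rB_eq (X := X) (by omega) hX ⟨hx, h2⟩]
  obtain ⟨a, b⟩ := p
  obtain ⟨a', b'⟩ := q
  rw [Gad.mem_rct] at hp hq
  unfold adj at hpq
  simp only at hp hq hpq
  rcases hpq with ⟨rfl, rfl | rfl⟩ | ⟨rfl, rfl | rfl⟩
  · exact ver _ _ (by omega) (by omega)
  · rw [Sym2.eq_swap]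
    exact ver _ _ (by omega) (by omega)
  · exact hor _ _ (by omega) (by omega)
  · rw [Sym2.eq_swap]
    exact hor _ _ (by omega) (by omega)

lemma wall_end (hW : WallE S ends w ∅) : ∀ e ∈ S, ∀ v ∈ ends e, v ∈ rect 0 0 (w + 1) (w + 1) := by
  intro e he v hv
  obtain ⟨p, q, h1, _, h2, h3⟩ := hW.mem e he
  rw [h1, Sym2.mem_iff] at hv
  rcases hv with rfl | rfl
  · exact h2
  · exact h3

lemma Blk.image (hb : Blk w n σ) :
    rB n σ '' (rect 0 0 (w + 1) (w + 1)) = rect 0 0 n (w + 1) := by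
  ext ⟨X, y⟩
  constructor
  · rintro ⟨⟨x, y'⟩, hv, he⟩
    rw [mem_wall] at hv
    obtain ⟨X', hX, h1, _⟩ := hb.rB_spec hv.2 hv.1
    rw [← he, h1, Gad.mem_rct]
    simp only
    omega
  · intro hv
    rw [Gad.mem_rct] at hv
    simp only at hv
    exact ⟨(σ y X + 1, y), mem_wall.2 ⟨(hb.cen (by omega) (by omega)).1, by omega⟩,
      hb.rB_eq (by omega) (by omega) (hb.cen (by omega) (by omega))⟩

/-- **The block quotient.** -/
theorem Blk.quot {P : Matroid α} [P.Finite] (hb : Blk w n σ) (hB : Bic P S ends)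
    (hW : WallE S ends w ∅) : ∃ (ζ : ℕ × ℕ → α) (S' : Set α),
      Star S ends (rect 0 0 (w + 1) (w + 1)) (rB n σ) (cB σ) ζ ∧
      S' ⊆ S \ (ζ '' lvs (rect 0 0 (w + 1) (w + 1)) (rB n σ) (cB σ)) ∧
      Bic (P ／ (ζ '' lvs (rect 0 0 (w + 1) (w + 1)) (rB n σ) (cB σ))) S'
        (fun e => (ends e).map (rB n σ)) ∧
      CWL.GrdU S' (fun e => (ends e).map (rB n σ)) (rect 0 0 n (w + 1)) := by
  classical
  obtain ⟨ζ, hζ⟩ := hb.star hW
  obtain ⟨Z, hZ⟩ : ∃ Z, Z = ζ '' lvs (rect 0 0 (w + 1) (w + 1)) (rB n σ) (cB σ) := ⟨_, rfl⟩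
  have hSA := wall_end hW
  have hbic := hζ.bic hB (rect_finite _ _ _ _) hSA
  rw [← hZ] at hbic
  -- the representatives
  have hg : ∀ s : Sym2 (ℕ × ℕ), ∃ e : Option α, ∀ x ∈ S, (ends x).map (rB n σ) = s →
      ∃ y, e = some y ∧ y ∈ S ∧ (ends y).map (rB n σ) = s := by
    intro s
    by_cases hs : ∃ x ∈ S, (ends x).map (rB n σ) = s
    · obtain ⟨x, hx, hxs⟩ := hs
      exact ⟨some x, fun _ _ _ => ⟨x, rfl, hx, hxs⟩⟩
    · exact ⟨none, fun x hx hxs => absurd ⟨x, hx, hxs⟩ hs⟩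
  choose g hg using hg
  obtain ⟨S', hS'⟩ : ∃ S' : Set α, S' = {e | e ∈ S ∧ g ((ends e).map (rB n σ)) = some e ∧
      ∃ p q, (ends e).map (rB n σ) = s(p, q) ∧ adj p q ∧ p ∈ rect 0 0 n (w + 1) ∧
        q ∈ rect 0 0 n (w + 1)} := ⟨_, rfl⟩
  have hsub : S' ⊆ S \ Z := by
    intro e he
    rw [hS'] at he
    obtain ⟨h1, _, p, q, h3, h4, _⟩ := he
    refine ⟨h1, fun h5 => ?_⟩
    rw [hZ] at h5
    obtain ⟨v, hv, rfl⟩ := h5
    rw [hζ.ζe v hv.1 hv.2, Sym2.map_mk, hζ.cρ v hv.1, Sym2.eq_iff] at h3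
    unfold adj at h4
    rcases h3 with ⟨h3, h3'⟩ | ⟨h3, h3'⟩ <;> rw [← h3, ← h3'] at h4 <;> omega
  refine ⟨ζ, S', hζ, by rw [← hZ]; exact hsub, by rw [← hZ]; exact bic_mono hbic hsub, ?_, ?_, ?_⟩
  · intro e he e' he' hee
    rw [hS'] at he he'
    have h1 := he.2.1
    have h2 := he'.2.1
    simp only at hee
    rw [hee] at h1
    rw [h1] at h2
    exact Option.some.inj h2
  · intro e he
    rw [hS'] at he
    exact he.2.2
  · intro p q hpq hp hq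
    obtain ⟨e, he, h1⟩ := hb.edge hW hpq hp hq
    obtain ⟨y, h2, h3, h4⟩ := hg _ e he h1
    refine ⟨y, ?_, h4⟩
    rw [hS']
    exact ⟨h3, by rw [h4]; exact h2, p, q, h4, hpq, hp, hq⟩

end

end DA
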