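import Pool.Agent.DA.Blk

/-!
# Five partitions of the columns
-/

open Set BIC BICS
open scoped Matroid

namespace DA

open Gad

/-- `a` intervals of two elements, `m` of three elements, then two elements. -/
def sg (a m X : ℕ) : ℕ :=
  if X ≤ a then 2 * X else if X ≤ a + m then 2 * a + 3 * (X - a)
    else 2 * a + 3 * m + 2 * (X - a - m)

lemma sg_step (a m X : ℕ) : sg a m X + 2 ≤ sg a m (X + 1) ∧ sg a m (X + 1) ≤ sg a m X + 3 := by
  unfold sg
  split_ifs <;> omega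

lemma sg_bd (a m X : ℕ) : 2 * X ≤ sg a m X ∧ sg a m X ≤ 3 * X := by
  unfold sg
  split_ifs <;> omega

lemma sg_diff (a m : ℕ) {X Y : ℕ} (h : X ≤ Y) : sg a m Y ≤ sg a m X + 3 * (Y - X) := by
  induction Y with
  | zero =>
    have : X = 0 := by omega
    subst this
    omega
  | succ Y ih =>
    by_cases hX : X = Y + 1
    · subst hX
      omega
    · have h1 := ih (by omega)
      have h2 := sg_step a m Y
      omega

/-- the number of intervals -/
def nb5 (a m w : ℕ) : ℕ := a + m + (w - 1 - 2 * a - 3 * m) / 2 + 1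

lemma sg_last {a m w : ℕ} (h : 2 * a + 3 * m + 1 ≤ w) :
    sg a m (nb5 a m w - 1) < w ∧ w ≤ sg a m (nb5 a m w - 1) + 2 := by
  unfold sg nb5
  split_ifs <;> omega

lemma blk_sg {a m w : ℕ} (h : 2 * a + 3 * m + 1 ≤ w) : Blk w (nb5 a m w) (fun _ => sg a m) := by
  have hl := sg_last h
  have hn : 1 ≤ nb5 a m w := by unfold nb5; omega
  have hs := sg_step a m (nb5 a m w - 1)
  rw [Nat.sub_add_cancel hn] at hs
  refine ⟨fun _ _ => ?_, fun _ _ X => sg_step a m X, hn, fun _ _ => hl.1, fun _ _ => by omega,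
    fun _ _ => by omega, ?_⟩
  · unfold sg
    simp
  · intro y hy X hX
    have h1 := sg_step a m X
    have h2 : sg a m X ≤ sg a m (nb5 a m w - 1) :=
      (sig_mono fun X => (sg_step a m X).1).monotone (by omega)
    by_cases hp : (sg a m X + y) % 2 = 0
    · exact ⟨sg a m X, by omega, ⟨le_rfl, Or.inl (by omega)⟩, ⟨le_rfl, Or.inl (by omega)⟩, hp⟩
    · exact ⟨sg a m X + 1, by omega, ⟨by omega, Or.inl (by omega)⟩,
        ⟨by omega, Or.inl (by omega)⟩, by omega⟩

/-- the five types -/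
def tyA : Fin 5 → ℕ := ![0, 0, 0, 2, 1]

def tyM (w : ℕ) : Fin 5 → ℕ := ![0, 1, (w - 1) / 3, (w - 5) / 3, (w - 3) / 3]

lemma ty_ok {w : ℕ} (hw : 10 ≤ w) (τ : Fin 5) : 2 * tyA τ + 3 * tyM w τ + 1 ≤ w := by
  fin_cases τ <;> simp [tyA, tyM] <;> omega

/-- every interval of two or three elements is in one of the partitions -/
lemma exists_type {w x l : ℕ} (hx : 10 ≤ x) (hx' : x + 10 ≤ w) (hl : l = 2 ∨ l = 3) :
    ∃ (τ : Fin 5) (X : ℕ), sg (tyA τ) (tyM w τ) X = x ∧ sg (tyA τ) (tyM w τ) (X + 1) = x + l := by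
  rcases hl with rfl | rfl
  · rcases Nat.even_or_odd' x with ⟨c, rfl | rfl⟩
    · refine ⟨0, c, ?_⟩
      change sg 0 0 c = 2 * c ∧ sg 0 0 (c + 1) = 2 * c + 2
      unfold sg
      constructor <;> split_ifs <;> omega
    · refine ⟨1, c, ?_⟩
      change sg 0 1 c = 2 * c + 1 ∧ sg 0 1 (c + 1) = 2 * c + 1 + 2
      unfold sg
      constructor <;> split_ifs <;> omega
  · have h3 : x % 3 = 0 ∨ x % 3 = 1 ∨ x % 3 = 2 := by omega
    rcases h3 with h3 | h3 | h3
    · refine ⟨2, x / 3, ?_⟩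
      change sg 0 ((w - 1) / 3) (x / 3) = x ∧ sg 0 ((w - 1) / 3) (x / 3 + 1) = x + 3
      unfold sg
      constructor <;> split_ifs <;> omega
    · refine ⟨3, (x + 2) / 3, ?_⟩
      change sg 2 ((w - 5) / 3) ((x + 2) / 3) = x ∧ sg 2 ((w - 5) / 3) ((x + 2) / 3 + 1) = x + 3
      unfold sg
      constructor <;> split_ifs <;> omega
    · refine ⟨4, (x + 1) / 3, ?_⟩
      change sg 1 ((w - 3) / 3) ((x + 1) / 3) = x ∧ sg 1 ((w - 3) / 3) ((x + 1) / 3 + 1) = x + 3
      unfold sg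
      constructor <;> split_ifs <;> omega

end DA
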