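import Pool.Agent.DA.Legs3
import Pool.Agent.DA.BLone

/-!
# Choice of the matching, of the missing pair and of the targets (definitions, horizontal rows)
-/

open Set

namespace DA

/-- the target of a half: outer neighbour or vertical neighbour -/
def tg (i : ℕ) (hl hr : Bool) (p : ℕ × ℕ) : ℕ × ℕ :=
  if (p.1 + i) % 2 = 0 then (if hl then (p.1 - 1, p.2) else vn p)
  else (if hr then (p.1 + 1, p.2) else vn p)

/-- the blob of a vertex, one missing pair `κ` -/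
def rk1 (i : ℕ) (κ : ℕ × ℕ) (hl hr : Bool) (p : ℕ × ℕ) : ℕ × ℕ :=
  if pw i p = κ then pw i (tg i hl hr p) else pw i p

/-- a good choice of the matching, of the missing pair and of the targets -/
structure Cert (u v y₁ y₂ : ℕ × ℕ) (i : ℕ) (κ : ℕ × ℕ) (hl hr : Bool) (du dv : ℕ) : Prop where
  hi : i ≤ 1
  du4 : du < 4
  dv4 : dv < 4
  ne : du ≠ dv
  miss : (pw i u = κ ∧ tg i hl hr u ≠ v) ∨ (pw i v = κ ∧ tg i hl hr v ≠ u)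
  nu : rk1 i κ hl hr u = stp du κ
  nv : rk1 i κ hl hr v = stp dv κ
  b1 : rk1 i κ hl hr y₁ ≠ stp du κ ∧ rk1 i κ hl hr y₁ ≠ stp dv κ ∧ rk1 i κ hl hr y₁ ≠ κ
  b2 : rk1 i κ hl hr y₂ ≠ stp du κ ∧ rk1 i κ hl hr y₂ ≠ stp dv κ ∧ rk1 i κ hl hr y₂ ≠ κ
  b12 : rk1 i κ hl hr y₁ ≠ rk1 i κ hl hr y₂
  hx : ¬ (ray du κ (rk1 i κ hl hr y₁) ∧ ray dv κ (rk1 i κ hl hr y₂))
  hx' : ¬ (ray dv κ (rk1 i κ hl hr y₁) ∧ ray du κ (rk1 i κ hl hr y₂))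
  hz : du < 2 ∨ dv < 2 ∨ (sd (rk1 i κ hl hr y₁) κ ≤ 10 ∧ sd (rk1 i κ hl hr y₂) κ ≤ 10)

lemma Cert.swap {u v y₁ y₂ : ℕ × ℕ} {i : ℕ} {κ : ℕ × ℕ} {hl hr : Bool} {du dv : ℕ}
    (h : Cert u v y₁ y₂ i κ hl hr du dv) : Cert v u y₁ y₂ i κ hl hr dv du :=
  ⟨h.hi, h.dv4, h.du4, h.ne.symm, h.miss.symm, h.nv, h.nu, ⟨h.b1.2.1, h.b1.1, h.b1.2.2⟩,
    ⟨h.b2.2.1, h.b2.1, h.b2.2.2⟩, h.b12, h.hx', h.hx, by rcases h.hz with h | h | h <;> simp [h]⟩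

lemma Cert.swap' {u v y₁ y₂ : ℕ × ℕ} {i : ℕ} {κ : ℕ × ℕ} {hl hr : Bool} {du dv : ℕ}
    (h : Cert u v y₁ y₂ i κ hl hr du dv) : Cert u v y₂ y₁ i κ hl hr du dv :=
  ⟨h.hi, h.du4, h.dv4, h.ne, h.miss, h.nu, h.nv, h.b2, h.b1, h.b12.symm,
    fun h' => h.hx' ⟨h'.2, h'.1⟩, fun h' => h.hx ⟨h'.2, h'.1⟩,
    by rcases h.hz with h | h | h <;> simp [h]⟩

lemma rk1_off {i : ℕ} {κ : ℕ × ℕ} {hl hr : Bool} {p : ℕ × ℕ} (h : pw i p ≠ κ) :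
    rk1 i κ hl hr p = pw i p := if_neg h

/-- neither `y₁` nor `y₂` is in the missing pair -/
lemma cert_off {u v y₁ y₂ : ℕ × ℕ} {i : ℕ} {κ : ℕ × ℕ} {hl hr : Bool} {du dv : ℕ} (hi : i ≤ 1)
    (du4 : du < 4) (dv4 : dv < 4) (ne : du ≠ dv)
    (miss : (pw i u = κ ∧ tg i hl hr u ≠ v) ∨ (pw i v = κ ∧ tg i hl hr v ≠ u))
    (nu : rk1 i κ hl hr u = stp du κ) (nv : rk1 i κ hl hr v = stp dv κ) {B1 B2 : ℕ × ℕ}
    (e1 : pw i y₁ = B1) (e2 : pw i y₂ = B2)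
    (b1 : B1 ≠ stp du κ ∧ B1 ≠ stp dv κ ∧ B1 ≠ κ) (b2 : B2 ≠ stp du κ ∧ B2 ≠ stp dv κ ∧ B2 ≠ κ)
    (b12 : B1 ≠ B2) (hx : ¬ (ray du κ B1 ∧ ray dv κ B2)) (hx' : ¬ (ray dv κ B1 ∧ ray du κ B2))
    (hz : du < 2 ∨ dv < 2 ∨ (sd B1 κ ≤ 10 ∧ sd B2 κ ≤ 10)) :
    Cert u v y₁ y₂ i κ hl hr du dv := by
  have h1 : rk1 i κ hl hr y₁ = B1 := by rw [rk1_off (by rw [e1]; exact b1.2.2), e1]
  have h2 : rk1 i κ hl hr y₂ = B2 := by rw [rk1_off (by rw [e2]; exact b2.2.2), e2]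
  refine ⟨hi, du4, dv4, ne, miss, nu, nv, ?_, ?_, ?_, ?_, ?_, ?_⟩
  · rw [h1]; exact b1
  · rw [h2]; exact b2
  · rw [h1, h2]; exact b12
  · rw [h1, h2]; exact hx
  · rw [h1, h2]; exact hx'
  · rw [h1, h2]; exact hz

/-- the general form with the blobs as parameters -/
lemma cert_mk {u v y₁ y₂ : ℕ × ℕ} {i : ℕ} {κ : ℕ × ℕ} {hl hr : Bool} {du dv : ℕ} (hi : i ≤ 1)
    (du4 : du < 4) (dv4 : dv < 4) (ne : du ≠ dv)
    (miss : (pw i u = κ ∧ tg i hl hr u ≠ v) ∨ (pw i v = κ ∧ tg i hl hr v ≠ u))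
    (nu : rk1 i κ hl hr u = stp du κ) (nv : rk1 i κ hl hr v = stp dv κ) {B1 B2 : ℕ × ℕ}
    (e1 : rk1 i κ hl hr y₁ = B1) (e2 : rk1 i κ hl hr y₂ = B2)
    (b1 : B1 ≠ stp du κ ∧ B1 ≠ stp dv κ ∧ B1 ≠ κ) (b2 : B2 ≠ stp du κ ∧ B2 ≠ stp dv κ ∧ B2 ≠ κ)
    (b12 : B1 ≠ B2) (hx : ¬ (ray du κ B1 ∧ ray dv κ B2)) (hx' : ¬ (ray dv κ B1 ∧ ray du κ B2))
    (hz : du < 2 ∨ dv < 2 ∨ (sd B1 κ ≤ 10 ∧ sd B2 κ ≤ 10)) :
    Cert u v y₁ y₂ i κ hl hr du dv := by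
  refine ⟨hi, du4, dv4, ne, miss, nu, nv, ?_, ?_, ?_, ?_, ?_, ?_⟩
  · rw [e1]; exact b1
  · rw [e2]; exact b2
  · rw [e1, e2]; exact b12
  · rw [e1, e2]; exact hx
  · rw [e1, e2]; exact hx'
  · rw [e1, e2]; exact hz

/-! ### Evaluation -/

lemma pw_l (i X b : ℕ) : pw i (2 * X + i, b) = (X, b) := by
  unfold pw
  exact Prod.ext (by simp only; omega) rfl

lemma pw_r (i X b : ℕ) : pw i (2 * X + i + 1, b) = (X, b) := by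
  unfold pw
  exact Prod.ext (by simp only; omega) rfl

lemma tg_lt (i X b : ℕ) (hr : Bool) : tg i true hr (2 * X + i, b) = (2 * X + i - 1, b) := by
  unfold tg
  rw [if_pos (by simp only; omega)]
  rfl

lemma tg_rt (i X b : ℕ) (hl : Bool) : tg i hl true (2 * X + i + 1, b) = (2 * X + i + 2, b) := by
  unfold tg
  rw [if_neg (by simp only; omega)]
  rfl

lemma vn_even {x y : ℕ} (h : (x + y) % 2 = 0) : vn (x, y) = (x, y + 1) := by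
  unfold vn
  rw [if_pos h]

lemma vn_odd {x y : ℕ} (h : (x + y) % 2 = 1) : vn (x, y) = (x, y - 1) := by
  unfold vn
  rw [if_neg (by simp only; omega)]

lemma tg_lv (i X b : ℕ) (hr : Bool) : tg i false hr (2 * X + i, b) = vn (2 * X + i, b) := by
  unfold tg
  rw [if_pos (by simp only; omega)]
  rfl

lemma tg_rv (i X b : ℕ) (hl : Bool) : tg i hl false (2 * X + i + 1, b) = vn (2 * X + i + 1, b) := by
  unfold tg
  rw [if_neg (by simp only; omega)]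
  rfl

lemma rk_lt (i X b : ℕ) (hX : 1 ≤ X) (hr : Bool) :
    rk1 i (X, b) true hr (2 * X + i, b) = (X - 1, b) := by
  unfold rk1
  rw [if_pos (pw_l i X b), tg_lt]
  unfold pw
  exact Prod.ext (by simp only; omega) rfl

lemma rk_rt (i X b : ℕ) (hl : Bool) : rk1 i (X, b) hl true (2 * X + i + 1, b) = (X + 1, b) := by
  unfold rk1
  rw [if_pos (pw_r i X b), tg_rt]
  unfold pw
  exact Prod.ext (by simp only; omega) rfl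

lemma rk_lv0 {i X b : ℕ} (h : (i + b) % 2 = 0) (hr : Bool) :
    rk1 i (X, b) false hr (2 * X + i, b) = (X, b + 1) := by
  unfold rk1
  rw [if_pos (pw_l i X b), tg_lv, vn_even (by omega), pw_l]

lemma rk_lv1 {i X b : ℕ} (h : (i + b) % 2 = 1) (hr : Bool) :
    rk1 i (X, b) false hr (2 * X + i, b) = (X, b - 1) := by
  unfold rk1
  rw [if_pos (pw_l i X b), tg_lv, vn_odd (by omega), pw_l]

lemma rk_rv0 {i X b : ℕ} (h : (i + b) % 2 = 0) (hl : Bool) :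
    rk1 i (X, b) hl false (2 * X + i + 1, b) = (X, b - 1) := by
  unfold rk1
  rw [if_pos (pw_r i X b), tg_rv, vn_odd (by omega), pw_r]

lemma rk_rv1 {i X b : ℕ} (h : (i + b) % 2 = 1) (hl : Bool) :
    rk1 i (X, b) hl false (2 * X + i + 1, b) = (X, b + 1) := by
  unfold rk1
  rw [if_pos (pw_r i X b), tg_rv, vn_even (by omega), pw_r]

lemma st0 (X b : ℕ) : stp 0 (X, b) = (X - 1, b) := by simp [stp]
lemma st1 (X b : ℕ) : stp 1 (X, b) = (X + 1, b) := by simp [stp]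
lemma st2 (X b : ℕ) : stp 2 (X, b) = (X, b + 1) := by simp [stp]
lemma st3 (X b : ℕ) : stp 3 (X, b) = (X, b - 1) := by simp [stp]

lemma ra0 (X b p q : ℕ) : ray 0 (X, b) (p, q) ↔ q = b ∧ p ≤ X := by unfold ray; omega
lemma ra1 (X b p q : ℕ) : ray 1 (X, b) (p, q) ↔ q = b ∧ X ≤ p := by unfold ray; omega
lemma ra2 (X b p q : ℕ) : ray 2 (X, b) (p, q) ↔ p = X ∧ b ≤ q := by unfold ray; omega
lemma ra3 (X b p q : ℕ) : ray 3 (X, b) (p, q) ↔ p = X ∧ q ≤ b := by unfold ray; omega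

/-! ### Horizontal rows, the pair of the row is missing -/

section H

variable {X b i : ℕ} {y₁ y₂ : ℕ × ℕ}

/-- left and right -/
lemma h_LR (hi : i ≤ 1) (hX : 1 ≤ X) {p q p' q' : ℕ} (e1 : pw i y₁ = (p, q))
    (e2 : pw i y₂ = (p', q')) (h12 : ¬ (p = p' ∧ q = q')) (k1 : ¬ (p + 1 = X ∧ q = b))
    (k2 : ¬ (p = X ∧ q = b)) (k3 : ¬ (p = X + 1 ∧ q = b)) (k1' : ¬ (p' + 1 = X ∧ q' = b))
    (k2' : ¬ (p' = X ∧ q' = b)) (k3' : ¬ (p' = X + 1 ∧ q' = b))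
    (ho : ¬ (q = b ∧ q' = b ∧ p < X ∧ X < p')) (ho' : ¬ (q = b ∧ q' = b ∧ p' < X ∧ X < p)) :
    Cert (2 * X + i, b) (2 * X + i + 1, b) y₁ y₂ i (X, b) true true 0 1 := by
  refine cert_off hi (by omega) (by omega) (by omega) (Or.inl ⟨pw_l i X b, ?_⟩)
    ((rk_lt i X b hX _).trans (st0 X b).symm) ((rk_rt i X b _).trans (st1 X b).symm) e1 e2
    ?_ ?_ ?_ ?_ ?_ (by omega)
  · rw [tg_lt]
    simp only [ne_eq, Prod.mk.injEq]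
    omega
  · simp only [st0, st1, ne_eq, Prod.mk.injEq]
    omega
  · simp only [st0, st1, ne_eq, Prod.mk.injEq]
    omega
  · simp only [ne_eq, Prod.mk.injEq]
    omega
  · rw [ra0, ra1]
    omega
  · rw [ra0, ra1]
    omega

lemma h_VR0 (hi : i ≤ 1) (hX : 1 ≤ X) (hb : 1 ≤ b) (par : (i + b) % 2 = 0) {p q p' q' : ℕ}
    (e1 : pw i y₁ = (p, q)) (e2 : pw i y₂ = (p', q')) (h12 : ¬ (p = p' ∧ q = q'))
    (k1 : ¬ (p = X ∧ q = b + 1)) (k2 : ¬ (p = X ∧ q = b)) (k3 : ¬ (p = X + 1 ∧ q = b))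
    (k1' : ¬ (p' = X ∧ q' = b + 1)) (k2' : ¬ (p' = X ∧ q' = b)) (k3' : ¬ (p' = X + 1 ∧ q' = b))
    (ho : ¬ ((p = X ∧ b ≤ q) ∧ q' = b ∧ X ≤ p'))
    (ho' : ¬ ((q = b ∧ X ≤ p) ∧ p' = X ∧ b ≤ q')) :
    Cert (2 * X + i, b) (2 * X + i + 1, b) y₁ y₂ i (X, b) false true 2 1 := by
  refine cert_off hi (by omega) (by omega) (by omega) (Or.inl ⟨pw_l i X b, ?_⟩)
    ((rk_lv0 par _).trans (st2 X b).symm) ((rk_rt i X b _).trans (st1 X b).symm) e1 e2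
    ?_ ?_ ?_ ?_ ?_ (by omega)
  · rw [tg_lv, vn_even (by omega)]
    simp only [ne_eq, Prod.mk.injEq]
    omega
  · simp only [st2, st1, ne_eq, Prod.mk.injEq]
    omega
  · simp only [st2, st1, ne_eq, Prod.mk.injEq]
    omega
  · simp only [ne_eq, Prod.mk.injEq]
    omega
  · rw [ra2, ra1]
    omega
  · rw [ra1, ra2]
    omega

lemma h_VR1 (hi : i ≤ 1) (hX : 1 ≤ X) (hb : 1 ≤ b) (par : (i + b) % 2 = 1) {p q p' q' : ℕ}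
    (e1 : pw i y₁ = (p, q)) (e2 : pw i y₂ = (p', q')) (h12 : ¬ (p = p' ∧ q = q'))
    (k1 : ¬ (p = X ∧ q + 1 = b)) (k2 : ¬ (p = X ∧ q = b)) (k3 : ¬ (p = X + 1 ∧ q = b))
    (k1' : ¬ (p' = X ∧ q' + 1 = b)) (k2' : ¬ (p' = X ∧ q' = b)) (k3' : ¬ (p' = X + 1 ∧ q' = b))
    (ho : ¬ ((p = X ∧ q ≤ b) ∧ q' = b ∧ X ≤ p'))
    (ho' : ¬ ((q = b ∧ X ≤ p) ∧ p' = X ∧ q' ≤ b)) :
    Cert (2 * X + i, b) (2 * X + i + 1, b) y₁ y₂ i (X, b) false true 3 1 := by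
  refine cert_off hi (by omega) (by omega) (by omega) (Or.inl ⟨pw_l i X b, ?_⟩)
    ((rk_lv1 par _).trans (st3 X b).symm) ((rk_rt i X b _).trans (st1 X b).symm) e1 e2
    ?_ ?_ ?_ ?_ ?_ (by omega)
  · rw [tg_lv, vn_odd (by omega)]
    simp only [ne_eq, Prod.mk.injEq]
    omega
  · simp only [st3, st1, ne_eq, Prod.mk.injEq]
    omega
  · simp only [st3, st1, ne_eq, Prod.mk.injEq]
    omega
  · simp only [ne_eq, Prod.mk.injEq]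
    omega
  · rw [ra3, ra1]
    omega
  · rw [ra1, ra3]
    omega

lemma h_LV0 (hi : i ≤ 1) (hX : 1 ≤ X) (hb : 1 ≤ b) (par : (i + b) % 2 = 0) {p q p' q' : ℕ}
    (e1 : pw i y₁ = (p, q)) (e2 : pw i y₂ = (p', q')) (h12 : ¬ (p = p' ∧ q = q'))
    (k1 : ¬ (p + 1 = X ∧ q = b)) (k2 : ¬ (p = X ∧ q = b)) (k3 : ¬ (p = X ∧ q + 1 = b))
    (k1' : ¬ (p' + 1 = X ∧ q' = b)) (k2' : ¬ (p' = X ∧ q' = b)) (k3' : ¬ (p' = X ∧ q' + 1 = b))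
    (ho : ¬ ((q = b ∧ p ≤ X) ∧ p' = X ∧ q' ≤ b))
    (ho' : ¬ ((p = X ∧ q ≤ b) ∧ q' = b ∧ p' ≤ X)) :
    Cert (2 * X + i, b) (2 * X + i + 1, b) y₁ y₂ i (X, b) true false 0 3 := by
  refine cert_off hi (by omega) (by omega) (by omega) (Or.inl ⟨pw_l i X b, ?_⟩)
    ((rk_lt i X b hX _).trans (st0 X b).symm) ((rk_rv0 par _).trans (st3 X b).symm) e1 e2
    ?_ ?_ ?_ ?_ ?_ (by omega)
  · rw [tg_lt]
    simp only [ne_eq, Prod.mk.injEq]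
    omega
  · simp only [st0, st3, ne_eq, Prod.mk.injEq]
    omega
  · simp only [st0, st3, ne_eq, Prod.mk.injEq]
    omega
  · simp only [ne_eq, Prod.mk.injEq]
    omega
  · rw [ra0, ra3]
    omega
  · rw [ra3, ra0]
    omega

lemma h_LV1 (hi : i ≤ 1) (hX : 1 ≤ X) (hb : 1 ≤ b) (par : (i + b) % 2 = 1) {p q p' q' : ℕ}
    (e1 : pw i y₁ = (p, q)) (e2 : pw i y₂ = (p', q')) (h12 : ¬ (p = p' ∧ q = q'))
    (k1 : ¬ (p + 1 = X ∧ q = b)) (k2 : ¬ (p = X ∧ q = b)) (k3 : ¬ (p = X ∧ q = b + 1))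
    (k1' : ¬ (p' + 1 = X ∧ q' = b)) (k2' : ¬ (p' = X ∧ q' = b)) (k3' : ¬ (p' = X ∧ q' = b + 1))
    (ho : ¬ ((q = b ∧ p ≤ X) ∧ p' = X ∧ b ≤ q'))
    (ho' : ¬ ((p = X ∧ b ≤ q) ∧ q' = b ∧ p' ≤ X)) :
    Cert (2 * X + i, b) (2 * X + i + 1, b) y₁ y₂ i (X, b) true false 0 2 := by
  refine cert_off hi (by omega) (by omega) (by omega) (Or.inl ⟨pw_l i X b, ?_⟩)
    ((rk_lt i X b hX _).trans (st0 X b).symm) ((rk_rv1 par _).trans (st2 X b).symm) e1 e2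
    ?_ ?_ ?_ ?_ ?_ (by omega)
  · rw [tg_lt]
    simp only [ne_eq, Prod.mk.injEq]
    omega
  · simp only [st0, st2, ne_eq, Prod.mk.injEq]
    omega
  · simp only [st0, st2, ne_eq, Prod.mk.injEq]
    omega
  · simp only [ne_eq, Prod.mk.injEq]
    omega
  · rw [ra0, ra2]
    omega
  · rw [ra2, ra0]
    omega

lemma h_VV0 (hi : i ≤ 1) (hX : 1 ≤ X) (hb : 1 ≤ b) (par : (i + b) % 2 = 0) {p q p' q' : ℕ}
    (e1 : pw i y₁ = (p, q)) (e2 : pw i y₂ = (p', q')) (h12 : ¬ (p = p' ∧ q = q'))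
    (k1 : ¬ (p = X ∧ q = b + 1)) (k2 : ¬ (p = X ∧ q = b)) (k3 : ¬ (p = X ∧ q + 1 = b))
    (k1' : ¬ (p' = X ∧ q' = b + 1)) (k2' : ¬ (p' = X ∧ q' = b)) (k3' : ¬ (p' = X ∧ q' + 1 = b))
    (ho : ¬ ((p = X ∧ b ≤ q) ∧ p' = X ∧ q' ≤ b))
    (ho' : ¬ ((p = X ∧ q ≤ b) ∧ p' = X ∧ b ≤ q'))
    (hz : sd (p, q) (X, b) ≤ 10 ∧ sd (p', q') (X, b) ≤ 10) :
    Cert (2 * X + i, b) (2 * X + i + 1, b) y₁ y₂ i (X, b) false false 2 3 := by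
  refine cert_off hi (by omega) (by omega) (by omega) (Or.inl ⟨pw_l i X b, ?_⟩)
    ((rk_lv0 par _).trans (st2 X b).symm) ((rk_rv0 par _).trans (st3 X b).symm) e1 e2
    ?_ ?_ ?_ ?_ ?_ (Or.inr (Or.inr hz))
  · rw [tg_lv, vn_even (by omega)]
    simp only [ne_eq, Prod.mk.injEq]
    omega
  · simp only [st2, st3, ne_eq, Prod.mk.injEq]
    omega
  · simp only [st2, st3, ne_eq, Prod.mk.injEq]
    omega
  · simp only [ne_eq, Prod.mk.injEq]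
    omega
  · rw [ra2, ra3]
    omega
  · rw [ra3, ra2]
    omega

lemma h_VV1 (hi : i ≤ 1) (hX : 1 ≤ X) (hb : 1 ≤ b) (par : (i + b) % 2 = 1) {p q p' q' : ℕ}
    (e1 : pw i y₁ = (p, q)) (e2 : pw i y₂ = (p', q')) (h12 : ¬ (p = p' ∧ q = q'))
    (k1 : ¬ (p = X ∧ q + 1 = b)) (k2 : ¬ (p = X ∧ q = b)) (k3 : ¬ (p = X ∧ q = b + 1))
    (k1' : ¬ (p' = X ∧ q' + 1 = b)) (k2' : ¬ (p' = X ∧ q' = b)) (k3' : ¬ (p' = X ∧ q' = b + 1))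
    (ho : ¬ ((p = X ∧ q ≤ b) ∧ p' = X ∧ b ≤ q'))
    (ho' : ¬ ((p = X ∧ b ≤ q) ∧ p' = X ∧ q' ≤ b))
    (hz : sd (p, q) (X, b) ≤ 10 ∧ sd (p', q') (X, b) ≤ 10) :
    Cert (2 * X + i, b) (2 * X + i + 1, b) y₁ y₂ i (X, b) false false 3 2 := by
  refine cert_off hi (by omega) (by omega) (by omega) (Or.inl ⟨pw_l i X b, ?_⟩)
    ((rk_lv1 par _).trans (st3 X b).symm) ((rk_rv1 par _).trans (st2 X b).symm) e1 e2
    ?_ ?_ ?_ ?_ ?_ (Or.inr (Or.inr hz))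
  · rw [tg_lv, vn_odd (by omega)]
    simp only [ne_eq, Prod.mk.injEq]
    omega
  · simp only [st3, st2, ne_eq, Prod.mk.injEq]
    omega
  · simp only [st3, st2, ne_eq, Prod.mk.injEq]
    omega
  · simp only [ne_eq, Prod.mk.injEq]
    omega
  · rw [ra3, ra2]
    omega
  · rw [ra2, ra3]
    omega

/-- the pair of `u` in the other matching -/
lemma h_C0 (hi : i ≤ 1) (hb : 1 ≤ b) (par : (i + b) % 2 = 0) {W p q p' q' : ℕ}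
    (e1 : rk1 i (W, b) false false y₁ = (p, q)) (e2 : rk1 i (W, b) false false y₂ = (p', q'))
    (h12 : ¬ (p = p' ∧ q = q'))
    (k1 : ¬ (p = W ∧ q + 1 = b)) (k2 : ¬ (p = W ∧ q = b)) (k3 : ¬ (p = W + 1 ∧ q = b))
    (k1' : ¬ (p' = W ∧ q' + 1 = b)) (k2' : ¬ (p' = W ∧ q' = b)) (k3' : ¬ (p' = W + 1 ∧ q' = b))
    (ho : ¬ ((p = W ∧ q ≤ b) ∧ q' = b ∧ W ≤ p'))
    (ho' : ¬ ((q = b ∧ W ≤ p) ∧ p' = W ∧ q' ≤ b)) :
    Cert (2 * W + i + 1, b) (2 * W + i + 2, b) y₁ y₂ i (W, b) false false 3 1 := by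
  have ev : ((2 * W + i + 2, b) : ℕ × ℕ) = (2 * (W + 1) + i, b) :=
    Prod.ext (by simp only; omega) rfl
  refine cert_mk hi (by omega) (by omega) (by omega) ?_
    ?_ ?_ e1 e2 ?_ ?_ ?_ ?_ ?_ (by omega)
  · left
    refine ⟨pw_r i W b, ?_⟩
    rw [tg_rv, vn_odd (by omega)]
    simp only [ne_eq, Prod.mk.injEq]
    omega
  · exact (rk_rv0 par _).trans (st3 W b).symm
  · rw [ev, rk1_off (by rw [pw_l]; simp), pw_l, st1]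
  · simp only [st3, st1, ne_eq, Prod.mk.injEq]
    omega
  · simp only [st3, st1, ne_eq, Prod.mk.injEq]
    omega
  · simp only [ne_eq, Prod.mk.injEq]
    omega
  · rw [ra3, ra1]
    omega
  · rw [ra1, ra3]
    omega

/-- the pair of `u` in the other matching -/
lemma h_C1 (hi : i ≤ 1) (hb : 1 ≤ b) (par : (i + b) % 2 = 1) {W p q p' q' : ℕ}
    (e1 : rk1 i (W, b) false false y₁ = (p, q)) (e2 : rk1 i (W, b) false false y₂ = (p', q'))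
    (h12 : ¬ (p = p' ∧ q = q'))
    (k1 : ¬ (p = W ∧ q = b + 1)) (k2 : ¬ (p = W ∧ q = b)) (k3 : ¬ (p = W + 1 ∧ q = b))
    (k1' : ¬ (p' = W ∧ q' = b + 1)) (k2' : ¬ (p' = W ∧ q' = b)) (k3' : ¬ (p' = W + 1 ∧ q' = b))
    (ho : ¬ ((p = W ∧ b ≤ q) ∧ q' = b ∧ W ≤ p'))
    (ho' : ¬ ((q = b ∧ W ≤ p) ∧ p' = W ∧ b ≤ q')) :
    Cert (2 * W + i + 1, b) (2 * W + i + 2, b) y₁ y₂ i (W, b) false false 2 1 := by
  have ev : ((2 * W + i + 2, b) : ℕ × ℕ) = (2 * (W + 1) + i, b) :=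
    Prod.ext (by simp only; omega) rfl
  refine cert_mk hi (by omega) (by omega) (by omega) ?_
    ?_ ?_ e1 e2 ?_ ?_ ?_ ?_ ?_ (by omega)
  · left
    refine ⟨pw_r i W b, ?_⟩
    rw [tg_rv, vn_even (by omega)]
    simp only [ne_eq, Prod.mk.injEq]
    omega
  · exact (rk_rv1 par _).trans (st2 W b).symm
  · rw [ev, rk1_off (by rw [pw_l]; simp), pw_l, st1]
  · simp only [st2, st1, ne_eq, Prod.mk.injEq]
    omega
  · simp only [st2, st1, ne_eq, Prod.mk.injEq]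
    omega
  · simp only [ne_eq, Prod.mk.injEq]
    omega
  · rw [ra2, ra1]
    omega
  · rw [ra1, ra2]
    omega

/-- the pair of `v` in the other matching -/
lemma h_B0 (hi : i ≤ 1) (hb : 1 ≤ b) (par : (i + b) % 2 = 0) {W p q p' q' : ℕ}
    (e1 : rk1 i (W + 1, b) false false y₁ = (p, q)) (e2 : rk1 i (W + 1, b) false false y₂ = (p', q'))
    (h12 : ¬ (p = p' ∧ q = q'))
    (k1 : ¬ (p + 1 = W + 1 ∧ q = b)) (k2 : ¬ (p = W + 1 ∧ q = b)) (k3 : ¬ (p = W + 1 ∧ q = b + 1))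
    (k1' : ¬ (p' + 1 = W + 1 ∧ q' = b)) (k2' : ¬ (p' = W + 1 ∧ q' = b)) (k3' : ¬ (p' = W + 1 ∧ q' = b + 1))
    (ho : ¬ ((q = b ∧ p ≤ W + 1) ∧ p' = W + 1 ∧ b ≤ q'))
    (ho' : ¬ ((p = W + 1 ∧ b ≤ q) ∧ q' = b ∧ p' ≤ W + 1)) :
    Cert (2 * W + i + 1, b) (2 * W + i + 2, b) y₁ y₂ i (W + 1, b) false false 0 2 := by
  have ev : ((2 * W + i + 2, b) : ℕ × ℕ) = (2 * (W + 1) + i, b) :=
    Prod.ext (by simp only; omega) rfl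
  refine cert_mk hi (by omega) (by omega) (by omega) ?_
    ?_ ?_ e1 e2 ?_ ?_ ?_ ?_ ?_ (by omega)
  · right
    rw [ev]
    refine ⟨pw_l i (W + 1) b, ?_⟩
    rw [tg_lv, vn_even (by omega)]
    simp only [ne_eq, Prod.mk.injEq]
    omega
  · rw [rk1_off (by rw [pw_r]; simp), pw_r, st0]
    simp
  · rw [ev]
    exact (rk_lv0 par _).trans (st2 (W + 1) b).symm
  · simp only [st0, st2, ne_eq, Prod.mk.injEq]
    omega
  · simp only [st0, st2, ne_eq, Prod.mk.injEq]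
    omega
  · simp only [ne_eq, Prod.mk.injEq]
    omega
  · rw [ra0, ra2]
    omega
  · rw [ra2, ra0]
    omega

/-- the pair of `v` in the other matching -/
lemma h_B1 (hi : i ≤ 1) (hb : 1 ≤ b) (par : (i + b) % 2 = 1) {W p q p' q' : ℕ}
    (e1 : rk1 i (W + 1, b) false false y₁ = (p, q)) (e2 : rk1 i (W + 1, b) false false y₂ = (p', q'))
    (h12 : ¬ (p = p' ∧ q = q'))
    (k1 : ¬ (p + 1 = W + 1 ∧ q = b)) (k2 : ¬ (p = W + 1 ∧ q = b)) (k3 : ¬ (p = W + 1 ∧ q + 1 = b))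
    (k1' : ¬ (p' + 1 = W + 1 ∧ q' = b)) (k2' : ¬ (p' = W + 1 ∧ q' = b)) (k3' : ¬ (p' = W + 1 ∧ q' + 1 = b))
    (ho : ¬ ((q = b ∧ p ≤ W + 1) ∧ p' = W + 1 ∧ q' ≤ b))
    (ho' : ¬ ((p = W + 1 ∧ q ≤ b) ∧ q' = b ∧ p' ≤ W + 1)) :
    Cert (2 * W + i + 1, b) (2 * W + i + 2, b) y₁ y₂ i (W + 1, b) false false 0 3 := by
  have ev : ((2 * W + i + 2, b) : ℕ × ℕ) = (2 * (W + 1) + i, b) :=
    Prod.ext (by simp only; omega) rfl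
  refine cert_mk hi (by omega) (by omega) (by omega) ?_
    ?_ ?_ e1 e2 ?_ ?_ ?_ ?_ ?_ (by omega)
  · right
    rw [ev]
    refine ⟨pw_l i (W + 1) b, ?_⟩
    rw [tg_lv, vn_odd (by omega)]
    simp only [ne_eq, Prod.mk.injEq]
    omega
  · rw [rk1_off (by rw [pw_r]; simp), pw_r, st0]
    simp
  · rw [ev]
    exact (rk_lv1 par _).trans (st3 (W + 1) b).symm
  · simp only [st0, st3, ne_eq, Prod.mk.injEq]
    omega
  · simp only [st0, st3, ne_eq, Prod.mk.injEq]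
    omega
  · simp only [ne_eq, Prod.mk.injEq]
    omega
  · rw [ra0, ra3]
    omega
  · rw [ra3, ra0]
    omega

end H

end DA
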