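import Pool.Agent.DA.CertV

/-!
# Choice of the matching, all rows; blobs near their vertices
-/

open Set BIC BICS
open scoped Matroid

namespace DA

open Gad

universe u

/-- **The covering lemma.**  For a row `uv` of the wall and two more vertices `y₁`, `y₂` which are
not both neighbours of `u` or `v` there is a good choice of the matching. -/
theorem cert_ex {u v y₁ y₂ : ℕ × ℕ} (hw : wadj u v) (hu1 : 40 ≤ u.1) (hu2 : 40 ≤ u.2)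
    (hy : 4 ≤ y₁.1) (n1 : y₁ ≠ u) (n2 : y₁ ≠ v) (n3 : y₂ ≠ u) (n4 : y₂ ≠ v) (n5 : y₁ ≠ y₂)
    (hnn : ¬ ((wadj u y₁ ∨ wadj v y₁) ∧ (wadj u y₂ ∨ wadj v y₂))) :
    ∃ j κ hl hr du dv, Cert u v y₁ y₂ j κ hl hr du dv := by
  obtain ⟨a, b⟩ := u
  obtain ⟨a', b'⟩ := v
  simp only at hu1 hu2
  have key : ∀ a b : ℕ, 30 ≤ a → 30 ≤ b →
      y₁ ≠ (a, b) → y₁ ≠ (a + 1, b) → y₂ ≠ (a, b) → y₂ ≠ (a + 1, b) →
      ¬ ((wadj (a, b) y₁ ∨ wadj (a + 1, b) y₁) ∧ (wadj (a, b) y₂ ∨ wadj (a + 1, b) y₂)) →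
      ∃ j κ hl hr du dv, Cert (a, b) (a + 1, b) y₁ y₂ j κ hl hr du dv := by
    intro a b ha hb m1 m2 m3 m4 hm
    obtain ⟨X, i, hi, hX⟩ : ∃ X i, i ≤ 1 ∧ a = 2 * X + i := ⟨a / 2, a % 2, by omega, by omega⟩
    subst hX
    exact cert_H hi (by omega) (by omega) hy m1 m2 m3 m4 n5 hm
  have key' : ∀ a b : ℕ, 30 ≤ a → 30 ≤ b → (a + b) % 2 = 0 →
      y₁ ≠ (a, b) → y₁ ≠ (a, b + 1) → y₂ ≠ (a, b) → y₂ ≠ (a, b + 1) →
      ¬ ((wadj (a, b) y₁ ∨ wadj (a, b + 1) y₁) ∧ (wadj (a, b) y₂ ∨ wadj (a, b + 1) y₂)) →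
      ∃ j κ hl hr du dv, Cert (a, b) (a, b + 1) y₁ y₂ j κ hl hr du dv := by
    intro a b ha hb hp m1 m2 m3 m4 hm
    obtain ⟨X, i, hi, hX⟩ : ∃ X i, i ≤ 1 ∧ a = 2 * X + i := ⟨a / 2, a % 2, by omega, by omega⟩
    subst hX
    exact cert_V hi (by omega) (by omega) (by omega) hy m1 m2 m3 m4 n5 hm
  rw [wadj_iff] at hw
  rcases hw with ⟨rfl, rfl | rfl⟩ | ⟨rfl, ⟨rfl, hp⟩ | ⟨rfl, hp⟩⟩
  · exact key a b (by omega) (by omega) n1 n2 n3 n4 hnn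
  · obtain ⟨j, κ, hl, hr, du, dv, hc⟩ := key a' b (by omega) (by omega) n2 n1 n4 n3
      (fun h => hnn ⟨h.1.symm, h.2.symm⟩)
    exact ⟨j, κ, hl, hr, dv, du, hc.swap⟩
  · exact key' a b (by omega) (by omega) hp n1 n2 n3 n4 hnn
  · obtain ⟨j, κ, hl, hr, du, dv, hc⟩ := key' a b' (by omega) (by omega) hp n2 n1 n4 n3
      (fun h => hnn ⟨h.1.symm, h.2.symm⟩)
    exact ⟨j, κ, hl, hr, dv, du, hc.swap⟩

lemma tg_cases (i : ℕ) (hl hr : Bool) (p : ℕ × ℕ) : tg i hl hr p = vn p ∨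
    ((p.1 + i) % 2 = 0 ∧ tg i hl hr p = (p.1 - 1, p.2)) ∨
    ((p.1 + i) % 2 = 1 ∧ tg i hl hr p = (p.1 + 1, p.2)) := by
  unfold tg
  by_cases h : (p.1 + i) % 2 = 0
  · rw [if_pos h]
    cases hl
    · left; rfl
    · right; left; exact ⟨h, rfl⟩
  · rw [if_neg h]
    cases hr
    · left; rfl
    · right; right; exact ⟨by omega, rfl⟩

/-- a target is in a neighbouring blob -/
lemma tgt_near {i : ℕ} (hi : i ≤ 1) {p q : ℕ × ℕ} (hp : 3 ≤ p.1) (hp2 : 1 ≤ p.2)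
    (h : q = vn p ∨ ((p.1 + i) % 2 = 0 ∧ q = (p.1 - 1, p.2)) ∨
      ((p.1 + i) % 2 = 1 ∧ q = (p.1 + 1, p.2))) : sd (pw i q) (pw i p) = 1 := by
  have h4 := vn_cases p
  obtain ⟨x, y⟩ := p
  simp only at hp hp2
  unfold sd pw
  simp only at *
  rcases h with h | ⟨h, h5⟩ | ⟨h, h5⟩
  · rcases h4 with ⟨h4, h6⟩ | ⟨h4, h6⟩ <;> rw [h, h6] <;> simp only <;> omega
  · rw [h5]
    simp only
    omega
  · rw [h5]
    simp only
    omega

/-- the blob of a vertex is near the vertex -/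
lemma tgt_near' {i : ℕ} (hi : i ≤ 1) {p q : ℕ × ℕ}
    (h : q = vn p ∨ ((p.1 + i) % 2 = 0 ∧ q = (p.1 - 1, p.2)) ∨
      ((p.1 + i) % 2 = 1 ∧ q = (p.1 + 1, p.2))) : sd (pw i q) (pw i p) ≤ 1 := by
  have h4 := vn_cases p
  obtain ⟨x, y⟩ := p
  rw [sd_le]
  unfold pw
  simp only at *
  rcases h with h | ⟨h, h5⟩ | ⟨h, h5⟩
  · rcases h4 with ⟨h4, h6⟩ | ⟨h4, h6⟩ <;> rw [h, h6] <;> simp only <;> omega
  · rw [h5]
    simp only
    omega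
  · rw [h5]
    simp only
    omega

lemma rk1_near {i : ℕ} (hi : i ≤ 1) (κ : ℕ × ℕ) (hl hr : Bool) (p : ℕ × ℕ) :
    sd (rk1 i κ hl hr p) (pw i p) ≤ 1 := by
  unfold rk1
  by_cases h : pw i p = κ
  · rw [if_pos h]
    exact tgt_near' hi (tg_cases i hl hr p)
  · rw [if_neg h, sd_self]
    omega

lemma rh_nearL {i : ℕ} (hi : i ≤ 1) {K : Set (ℕ × ℕ)} {τ : ℕ × ℕ → ℕ × ℕ} (hT : Tgt i K τ)
    (p : ℕ × ℕ) : sd (rh i K τ p) (pw i p) ≤ 1 := by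
  unfold rh
  by_cases h : pw i p ∈ K
  · rw [if_pos h]
    exact tgt_near' hi (hT p h)
  · rw [if_neg h, sd_self]
    omega

lemma pw_sdL {i : ℕ} (hi : i ≤ 1) (a b : ℕ × ℕ) : sd a b ≤ 2 * sd (pw i a) (pw i b) + 2 := by
  have h := sd_le.1 (le_refl (sd (pw i a) (pw i b)))
  rw [sd_le]
  unfold pw at *
  simp only at *
  omega

lemma pw_sdL' (i : ℕ) (a b : ℕ × ℕ) : sd (pw i a) (pw i b) ≤ sd a b := by
  have h := sd_le.1 (le_refl (sd a b))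
  rw [sd_le]
  unfold pw at *
  simp only at *
  omega

lemma wadj_sdL {a b : ℕ × ℕ} (h : wadj a b) : sd a b ≤ 1 := by
  obtain ⟨x, y⟩ := a
  obtain ⟨x', y'⟩ := b
  rw [wadj_iff] at h
  rw [sd_le]
  simp only
  omega

/-- missing blobs are no locations -/
theorem bl_K {α : Type u} {P : Matroid α} {S : Set α} {ends : α → Sym2 (ℕ × ℕ)} {i : ℕ}
    {K : Finset (ℕ × ℕ)} {τ : ℕ × ℕ → ℕ × ℕ} (hi : i ≤ 1) (hT : Tgt i (K : Set (ℕ × ℕ)) τ)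
    (hKd : ∀ v ∈ K, 10 ≤ v.1 ∧ 10 ≤ v.2)
    (hKs : ∀ v ∈ K, ∀ v' ∈ K, v ≠ v' → 10 < sd v v') {b : ℕ × ℕ} (hbK : b ∈ K) {z : α}
    (hz : z ∈ P.closure S) : b ∉ BL P S ends i (K : Set (ℕ × ℕ)) τ z := by
  intro h
  refine h ?_
  have he : blob i (K : Set (ℕ × ℕ)) τ b = ∅ := by
    ext p
    simp only [mem_empty_iff_false, iff_false]
    rintro (⟨h1, h2⟩ | ⟨h1, h2⟩)
    · exact h1 (h2 ▸ hbK)
    · have h3 := hKd _ h1
      have h4 : sd (pw i (τ p)) (pw i p) = 1 := by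
        refine tgt_near hi ?_ ?_ (hT p h1)
        · unfold pw at h3
          simp only at h3
          omega
        · unfold pw at h3
          simp only at h3
          omega
      rw [h2] at h4
      have h5 : pw i p ≠ b := by
        intro h6
        rw [h6, sd_self] at h4
        omega
      have h6 := hKs _ h1 b hbK h5
      rw [sd_comm] at h6
      omega
  rw [he, compl_empty]
  have e1 : ins S ends univ = S := by
    ext e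
    exact ⟨fun h => h.1, fun h => ⟨h, fun _ _ => mem_univ _⟩⟩
  rw [e1]
  exact P.closure_subset_closure subset_union_left hz

end DA
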