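import Pool.Agent.DA.CertA

/-!
# Choice of the matching, horizontal rows
-/

open Set

namespace DA

section

variable {X b i : ℕ}

lemma wadj_iff (x y x' y' : ℕ) : wadj (x, y) (x', y') ↔
    (y = y' ∧ (x + 1 = x' ∨ x' + 1 = x)) ∨
      (x = x' ∧ ((y + 1 = y' ∧ (x + y) % 2 = 0) ∨ (y' + 1 = y ∧ (x' + y') % 2 = 0))) := Iff.rfl

lemma pwj_l (hi : i ≤ 1) {P : ℕ} (hP : 1 ≤ P) (q : ℕ) :
    pw (1 - i) (2 * P + i, q) = (P + i - 1, q) := by
  unfold pw
  exact Prod.ext (by simp only; omega) rfl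

lemma pwj_r (hi : i ≤ 1) (P q : ℕ) : pw (1 - i) (2 * P + i + 1, q) = (P + i, q) := by
  unfold pw
  exact Prod.ext (by simp only; omega) rfl

/-- evaluation outside of the missing pair -/
lemma rkj {j : ℕ} {κ : ℕ × ℕ} {hl hr : Bool} {p B : ℕ × ℕ} (h : pw j p = B) (hne : B ≠ κ) :
    rk1 j κ hl hr p = B := by
  rw [rk1_off (by rw [h]; exact hne), h]

/-- **Both further locations in the same pair.** -/
lemma cert_same (hi : i ≤ 1) (hX : 10 ≤ X) (hb : 10 ≤ b) {P q : ℕ} (hP : 1 ≤ P)
    (hne : ¬ (P = X ∧ q = b)) : ∃ κ hl hr du dv,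
      Cert (2 * X + i, b) (2 * X + i + 1, b) (2 * P + i, q) (2 * P + i + 1, q) (1 - i) κ hl hr
        du dv := by
  obtain ⟨W, hW⟩ : ∃ W, W = X + i - 1 := ⟨_, rfl⟩
  have eu : ((2 * X + i, b) : ℕ × ℕ) = (2 * W + (1 - i) + 1, b) :=
    Prod.ext (by simp only; omega) rfl
  have ev : ((2 * X + i + 1, b) : ℕ × ℕ) = (2 * W + (1 - i) + 2, b) :=
    Prod.ext (by simp only; omega) rfl
  rw [eu, ev]
  have f1 := pwj_l hi hP q
  have f2 := pwj_r hi P q
  have hj : 1 - i ≤ 1 := by omega
  by_cases hq : q = b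
  · subst hq
    rcases Nat.lt_or_gt_of_ne (show P ≠ X by omega) with hPX | hPX
    · -- left: the pair of `u`
      have f3 : ∀ hr, (1 - i + q) % 2 = 0 → P + 1 = X →
          rk1 (1 - i) (W, q) false hr (2 * P + i + 1, q) = (W, q + 1) := by
        intro hr hp h
        rw [show ((2 * P + i + 1, q) : ℕ × ℕ) = (2 * W + (1 - i), q) from
          Prod.ext (by simp only; omega) rfl]
        exact rk_lv0 hp _
      have f3' : ∀ hr, (1 - i + q) % 2 = 1 → P + 1 = X →
          rk1 (1 - i) (W, q) false hr (2 * P + i + 1, q) = (W, q - 1) := by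
        intro hr hp h
        rw [show ((2 * P + i + 1, q) : ℕ × ℕ) = (2 * W + (1 - i), q) from
          Prod.ext (by simp only; omega) rfl]
        exact rk_lv1 hp _
      have f4 : rk1 (1 - i) (W, q) false false (2 * P + i, q) = (P + i - 1, q) :=
        rkj f1 (by simp only [ne_eq, Prod.mk.injEq]; omega)
      have hpar : (1 - i + q) % 2 = 0 ∨ (1 - i + q) % 2 = 1 := by omega
      by_cases hP1 : P + 1 = X
      · rcases hpar with hp | hp
        · exact ⟨_, _, _, _, _, h_C0 hj (by omega) hp f4 (f3 _ hp hP1) (by omega) (by omega)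
            (by omega) (by omega) (by omega) (by omega) (by omega) (by omega) (by omega)⟩
        · exact ⟨_, _, _, _, _, h_C1 hj (by omega) hp f4 (f3' _ hp hP1) (by omega) (by omega)
            (by omega) (by omega) (by omega) (by omega) (by omega) (by omega) (by omega)⟩
      · have f5 : rk1 (1 - i) (W, q) false false (2 * P + i + 1, q) = (P + i, q) :=
          rkj f2 (by simp only [ne_eq, Prod.mk.injEq]; omega)
        rcases hpar with hp | hp
        · exact ⟨_, _, _, _, _, h_C0 hj (by omega) hp f4 f5 (by omega) (by omega)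
            (by omega) (by omega) (by omega) (by omega) (by omega) (by omega) (by omega)⟩
        · exact ⟨_, _, _, _, _, h_C1 hj (by omega) hp f4 f5 (by omega) (by omega)
            (by omega) (by omega) (by omega) (by omega) (by omega) (by omega) (by omega)⟩
    · -- right: the pair of `v`
      have f3 : ∀ hl, (1 - i + q) % 2 = 0 → P = X + 1 →
          rk1 (1 - i) (W + 1, q) hl false (2 * P + i, q) = (W + 1, q - 1) := by
        intro hl hp h
        rw [show ((2 * P + i, q) : ℕ × ℕ) = (2 * (W + 1) + (1 - i) + 1, q) from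
          Prod.ext (by simp only; omega) rfl]
        exact rk_rv0 hp _
      have f3' : ∀ hl, (1 - i + q) % 2 = 1 → P = X + 1 →
          rk1 (1 - i) (W + 1, q) hl false (2 * P + i, q) = (W + 1, q + 1) := by
        intro hl hp h
        rw [show ((2 * P + i, q) : ℕ × ℕ) = (2 * (W + 1) + (1 - i) + 1, q) from
          Prod.ext (by simp only; omega) rfl]
        exact rk_rv1 hp _
      have f4 : rk1 (1 - i) (W + 1, q) false false (2 * P + i + 1, q) = (P + i, q) :=
        rkj f2 (by simp only [ne_eq, Prod.mk.injEq]; omega)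
      have hpar : (1 - i + q) % 2 = 0 ∨ (1 - i + q) % 2 = 1 := by omega
      by_cases hP1 : P = X + 1
      · rcases hpar with hp | hp
        · exact ⟨_, _, _, _, _, h_B0 hj (by omega) hp (f3 _ hp hP1) f4 (by omega) (by omega)
            (by omega) (by omega) (by omega) (by omega) (by omega) (by omega) (by omega)⟩
        · exact ⟨_, _, _, _, _, h_B1 hj (by omega) hp (f3' _ hp hP1) f4 (by omega) (by omega)
            (by omega) (by omega) (by omega) (by omega) (by omega) (by omega) (by omega)⟩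
      · have f5 : rk1 (1 - i) (W + 1, q) false false (2 * P + i, q) = (P + i - 1, q) :=
          rkj f1 (by simp only [ne_eq, Prod.mk.injEq]; omega)
        rcases hpar with hp | hp
        · exact ⟨_, _, _, _, _, h_B0 hj (by omega) hp f5 f4 (by omega) (by omega)
            (by omega) (by omega) (by omega) (by omega) (by omega) (by omega) (by omega)⟩
        · exact ⟨_, _, _, _, _, h_B1 hj (by omega) hp f5 f4 (by omega) (by omega)
            (by omega) (by omega) (by omega) (by omega) (by omega) (by omega) (by omega)⟩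
  · have hC1 : rk1 (1 - i) (W, b) false false (2 * P + i, q) = (P + i - 1, q) :=
      rkj f1 (by simp only [ne_eq, Prod.mk.injEq]; omega)
    have hC2 : rk1 (1 - i) (W, b) false false (2 * P + i + 1, q) = (P + i, q) :=
      rkj f2 (by simp only [ne_eq, Prod.mk.injEq]; omega)
    have hB1 : rk1 (1 - i) (W + 1, b) false false (2 * P + i, q) = (P + i - 1, q) :=
      rkj f1 (by simp only [ne_eq, Prod.mk.injEq]; omega)
    have hB2 : rk1 (1 - i) (W + 1, b) false false (2 * P + i + 1, q) = (P + i, q) :=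
      rkj f2 (by simp only [ne_eq, Prod.mk.injEq]; omega)
    have hpar : (1 - i + b) % 2 = 0 ∨ (1 - i + b) % 2 = 1 := by omega
    rcases hpar with hp | hp <;> rcases Nat.lt_or_gt_of_ne hq with h | h
    · -- u down, v up; pair below: v
      exact ⟨_, _, _, _, _, h_B0 hj (by omega) hp hB1 hB2 (by omega) (by omega)
        (by omega) (by omega) (by omega) (by omega) (by omega) (by omega) (by omega)⟩
    · exact ⟨_, _, _, _, _, h_C0 hj (by omega) hp hC1 hC2 (by omega) (by omega)
        (by omega) (by omega) (by omega) (by omega) (by omega) (by omega) (by omega)⟩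
    · exact ⟨_, _, _, _, _, h_C1 hj (by omega) hp hC1 hC2 (by omega) (by omega)
        (by omega) (by omega) (by omega) (by omega) (by omega) (by omega) (by omega)⟩
    · exact ⟨_, _, _, _, _, h_B1 hj (by omega) hp hB1 hB2 (by omega) (by omega)
        (by omega) (by omega) (by omega) (by omega) (by omega) (by omega) (by omega)⟩

/-- **Different pairs.** -/
lemma cert_dist (hi : i ≤ 1) (hX : 10 ≤ X) (hb : 10 ≤ b) {y₁ y₂ : ℕ × ℕ} {p q p' q' : ℕ}
    (e1 : pw i y₁ = (p, q)) (e2 : pw i y₂ = (p', q')) (h12 : ¬ (p = p' ∧ q = q'))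
    (k : ¬ (p = X ∧ q = b)) (k' : ¬ (p' = X ∧ q' = b)) :
    (∃ κ hl hr du dv, Cert (2 * X + i, b) (2 * X + i + 1, b) y₁ y₂ i κ hl hr du dv) ∨
      ((i + b) % 2 = 0 ∧ ((p = X + 1 ∧ q = b ∧ p' = X ∧ q' + 1 = b) ∨
        (p' = X + 1 ∧ q' = b ∧ p = X ∧ q + 1 = b) ∨ (p + 1 = X ∧ q = b ∧ p' = X ∧ q' = b + 1) ∨
        (p' + 1 = X ∧ q' = b ∧ p = X ∧ q = b + 1))) ∨
      ((i + b) % 2 = 1 ∧ ((p = X + 1 ∧ q = b ∧ p' = X ∧ q' = b + 1) ∨
        (p' = X + 1 ∧ q' = b ∧ p = X ∧ q = b + 1) ∨ (p + 1 = X ∧ q = b ∧ p' = X ∧ q' + 1 = b) ∨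
        (p' + 1 = X ∧ q' = b ∧ p = X ∧ q + 1 = b))) := by
  have hsd : ∀ p q, (p + 1 = X ∨ p = X + 1) → q = b → sd (p, q) (X, b) ≤ 10 := by
    intro p q h1 h2
    rw [sd_le]
    simp only
    omega
  have hpar : (i + b) % 2 = 0 ∨ (i + b) % 2 = 1 := by omega
  by_cases ho : q = b ∧ q' = b ∧ p < X ∧ X < p'
  · by_cases h1 : p' = X + 1
    · by_cases h2 : p + 1 = X
      · left
        rcases hpar with hp | hp
        · exact ⟨_, _, _, _, _, h_VV0 hi (by omega) (by omega) hp e1 e2 h12 (by omega) (by omega) (by omega)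
            (by omega) (by omega) (by omega) (by omega) (by omega)
            ⟨hsd _ _ (by omega) (by omega), hsd _ _ (by omega) (by omega)⟩⟩
        · exact ⟨_, _, _, _, _, h_VV1 hi (by omega) (by omega) hp e1 e2 h12 (by omega) (by omega) (by omega)
            (by omega) (by omega) (by omega) (by omega) (by omega)
            ⟨hsd _ _ (by omega) (by omega), hsd _ _ (by omega) (by omega)⟩⟩
      · left
        rcases hpar with hp | hp
        · exact ⟨_, _, _, _, _, h_LV0 hi (by omega) (by omega) hp e1 e2 h12 (by omega) (by omega) (by omega)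
            (by omega) (by omega) (by omega) (by omega) (by omega)⟩
        · exact ⟨_, _, _, _, _, h_LV1 hi (by omega) (by omega) hp e1 e2 h12 (by omega) (by omega) (by omega)
            (by omega) (by omega) (by omega) (by omega) (by omega)⟩
    · left
      rcases hpar with hp | hp
      · exact ⟨_, _, _, _, _, h_VR0 hi (by omega) (by omega) hp e1 e2 h12 (by omega) (by omega) (by omega)
            (by omega) (by omega) (by omega) (by omega) (by omega)⟩
      · exact ⟨_, _, _, _, _, h_VR1 hi (by omega) (by omega) hp e1 e2 h12 (by omega) (by omega) (by omega)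
            (by omega) (by omega) (by omega) (by omega) (by omega)⟩
  by_cases ho' : q = b ∧ q' = b ∧ p' < X ∧ X < p
  · by_cases h1 : p = X + 1
    · by_cases h2 : p' + 1 = X
      · left
        rcases hpar with hp | hp
        · exact ⟨_, _, _, _, _, h_VV0 hi (by omega) (by omega) hp e1 e2 h12 (by omega) (by omega) (by omega)
            (by omega) (by omega) (by omega) (by omega) (by omega)
            ⟨hsd _ _ (by omega) (by omega), hsd _ _ (by omega) (by omega)⟩⟩
        · exact ⟨_, _, _, _, _, h_VV1 hi (by omega) (by omega) hp e1 e2 h12 (by omega) (by omega) (by omega)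
            (by omega) (by omega) (by omega) (by omega) (by omega)
            ⟨hsd _ _ (by omega) (by omega), hsd _ _ (by omega) (by omega)⟩⟩
      · left
        rcases hpar with hp | hp
        · exact ⟨_, _, _, _, _, h_LV0 hi (by omega) (by omega) hp e1 e2 h12 (by omega) (by omega) (by omega)
            (by omega) (by omega) (by omega) (by omega) (by omega)⟩
        · exact ⟨_, _, _, _, _, h_LV1 hi (by omega) (by omega) hp e1 e2 h12 (by omega) (by omega) (by omega)
            (by omega) (by omega) (by omega) (by omega) (by omega)⟩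
    · left
      rcases hpar with hp | hp
      · exact ⟨_, _, _, _, _, h_VR0 hi (by omega) (by omega) hp e1 e2 h12 (by omega) (by omega) (by omega)
            (by omega) (by omega) (by omega) (by omega) (by omega)⟩
      · exact ⟨_, _, _, _, _, h_VR1 hi (by omega) (by omega) hp e1 e2 h12 (by omega) (by omega) (by omega)
            (by omega) (by omega) (by omega) (by omega) (by omega)⟩
  by_cases hR : (p = X + 1 ∧ q = b) ∨ (p' = X + 1 ∧ q' = b)
  · rcases hpar with hp | hp
    · by_cases hD : (p = X ∧ q + 1 = b) ∨ (p' = X ∧ q' + 1 = b)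
      · right; left
        refine ⟨hp, ?_⟩
        omega
      · left
        exact ⟨_, _, _, _, _, h_LV0 hi (by omega) (by omega) hp e1 e2 h12 (by omega) (by omega) (by omega)
            (by omega) (by omega) (by omega) (by omega) (by omega)⟩
    · by_cases hD : (p = X ∧ q = b + 1) ∨ (p' = X ∧ q' = b + 1)
      · right; right
        refine ⟨hp, ?_⟩
        omega
      · left
        exact ⟨_, _, _, _, _, h_LV1 hi (by omega) (by omega) hp e1 e2 h12 (by omega) (by omega) (by omega)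
            (by omega) (by omega) (by omega) (by omega) (by omega)⟩
  by_cases hL : (p + 1 = X ∧ q = b) ∨ (p' + 1 = X ∧ q' = b)
  · rcases hpar with hp | hp
    · by_cases hD : (p = X ∧ q = b + 1) ∨ (p' = X ∧ q' = b + 1)
      · right; left
        refine ⟨hp, ?_⟩
        omega
      · left
        exact ⟨_, _, _, _, _, h_VR0 hi (by omega) (by omega) hp e1 e2 h12 (by omega) (by omega) (by omega)
            (by omega) (by omega) (by omega) (by omega) (by omega)⟩
    · by_cases hD : (p = X ∧ q + 1 = b) ∨ (p' = X ∧ q' + 1 = b)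
      · right; right
        refine ⟨hp, ?_⟩
        omega
      · left
        exact ⟨_, _, _, _, _, h_VR1 hi (by omega) (by omega) hp e1 e2 h12 (by omega) (by omega) (by omega)
            (by omega) (by omega) (by omega) (by omega) (by omega)⟩
  left
  exact ⟨_, _, _, _, _, h_LR hi (by omega) e1 e2 h12 (by omega) (by omega) (by omega)
            (by omega) (by omega) (by omega) (by omega) (by omega)⟩

/-- the exceptional positions: `y₁` beyond `v` in the row, `y₂` under the row -/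
lemma cert_exc (hi : i ≤ 1) (hX : 10 ≤ X) (hb : 10 ≤ b) :
    ((i + b) % 2 = 0 → ∀ a c : ℕ, a ≤ 1 → c ≤ 1 → ¬ (a = 0 ∧ c = 1) → ∃ κ hl hr du dv,
      Cert (2 * X + i, b) (2 * X + i + 1, b) (2 * X + i + 2 + a, b) (2 * X + i + c, b - 1) (1 - i)
        κ hl hr du dv) ∧
    ((i + b) % 2 = 1 → ∀ a c : ℕ, a ≤ 1 → c ≤ 1 → ¬ (a = 0 ∧ c = 1) → ∃ κ hl hr du dv,
      Cert (2 * X + i, b) (2 * X + i + 1, b) (2 * X + i + 2 + a, b) (2 * X + i + c, b + 1) (1 - i)
        κ hl hr du dv) ∧
    ((i + b) % 2 = 0 → ∀ a c : ℕ, a ≤ 1 → c ≤ 1 → ¬ (a = 0 ∧ c = 0) → ∃ κ hl hr du dv,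
      Cert (2 * X + i, b) (2 * X + i + 1, b) (2 * X + i - 1 - a, b) (2 * X + i + c, b + 1) (1 - i)
        κ hl hr du dv) ∧
    ((i + b) % 2 = 1 → ∀ a c : ℕ, a ≤ 1 → c ≤ 1 → ¬ (a = 0 ∧ c = 0) → ∃ κ hl hr du dv,
      Cert (2 * X + i, b) (2 * X + i + 1, b) (2 * X + i - 1 - a, b) (2 * X + i + c, b - 1) (1 - i)
        κ hl hr du dv) := by
  obtain ⟨W, hW⟩ : ∃ W, W = X + i - 1 := ⟨_, rfl⟩
  have eu : ((2 * X + i, b) : ℕ × ℕ) = (2 * W + (1 - i) + 1, b) :=
    Prod.ext (by simp only; omega) rfl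
  have ev : ((2 * X + i + 1, b) : ℕ × ℕ) = (2 * W + (1 - i) + 2, b) :=
    Prod.ext (by simp only; omega) rfl
  have hj : 1 - i ≤ 1 := by omega
  have py : ∀ c q, c ≤ 1 → pw (1 - i) (2 * X + i + c, q) = (W + c, q) := by
    intro c q hc
    unfold pw
    exact Prod.ext (by simp only; omega) rfl
  have pr : ∀ q, pw (1 - i) (2 * X + i + 2 + 1, q) = (W + 2, q) := by
    intro q
    unfold pw
    exact Prod.ext (by simp only; omega) rfl
  have pl : ∀ q, pw (1 - i) (2 * X + i - 1 - 1, q) = (W - 1, q) := by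
    intro q
    unfold pw
    exact Prod.ext (by simp only; omega) rfl
  have er : ((2 * X + i + 2 + 0, b) : ℕ × ℕ) = (2 * (W + 1) + (1 - i) + 1, b) :=
    Prod.ext (by simp only; omega) rfl
  have el : ((2 * X + i - 1 - 0, b) : ℕ × ℕ) = (2 * W + (1 - i), b) :=
    Prod.ext (by simp only; omega) rfl
  rw [eu, ev]
  refine ⟨?_, ?_, ?_, ?_⟩
  · intro hp a c ha hc hac
    have hq : b - 1 + 1 = b := by omega
    have f2 : ∀ κ : ℕ × ℕ, κ.2 = b → rk1 (1 - i) κ false false (2 * X + i + c, b - 1) =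
        (W + c, b - 1) := by
      rintro ⟨κ1, κ2⟩ hκ
      exact rkj (py c _ hc) (by simp only at hκ; simp only [ne_eq, Prod.mk.injEq]; omega)
    rcases (show a = 0 ∨ a = 1 by omega) with rfl | rfl
    · have f1 := rk_rv1 (i := 1 - i) (X := W + 1) (b := b) (by omega) false
      rw [← er] at f1
      exact ⟨_, _, _, _, _, h_B1 hj (by omega) (by omega) f1 (f2 _ rfl) (by omega)
        (by omega) (by omega) (by omega) (by omega) (by omega) (by omega) (by omega) (by omega)⟩
    · have f1 : rk1 (1 - i) (W, b) false false (2 * X + i + 2 + 1, b) = (W + 2, b) :=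
        rkj (pr b) (by simp only [ne_eq, Prod.mk.injEq]; omega)
      exact ⟨_, _, _, _, _, h_C1 hj (by omega) (by omega) f1 (f2 _ rfl) (by omega)
        (by omega) (by omega) (by omega) (by omega) (by omega) (by omega) (by omega) (by omega)⟩
  · intro hp a c ha hc hac
    have f2 : ∀ κ : ℕ × ℕ, κ.2 = b → rk1 (1 - i) κ false false (2 * X + i + c, b + 1) =
        (W + c, b + 1) := by
      rintro ⟨κ1, κ2⟩ hκ
      exact rkj (py c _ hc) (by simp only at hκ; simp only [ne_eq, Prod.mk.injEq]; omega)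
    rcases (show a = 0 ∨ a = 1 by omega) with rfl | rfl
    · have f1 := rk_rv0 (i := 1 - i) (X := W + 1) (b := b) (by omega) false
      rw [← er] at f1
      exact ⟨_, _, _, _, _, h_B0 hj (by omega) (by omega) f1 (f2 _ rfl) (by omega)
        (by omega) (by omega) (by omega) (by omega) (by omega) (by omega) (by omega) (by omega)⟩
    · have f1 : rk1 (1 - i) (W, b) false false (2 * X + i + 2 + 1, b) = (W + 2, b) :=
        rkj (pr b) (by simp only [ne_eq, Prod.mk.injEq]; omega)
      exact ⟨_, _, _, _, _, h_C0 hj (by omega) (by omega) f1 (f2 _ rfl) (by omega)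
        (by omega) (by omega) (by omega) (by omega) (by omega) (by omega) (by omega) (by omega)⟩
  · intro hp a c ha hc hac
    have f2 : ∀ κ : ℕ × ℕ, κ.2 = b → rk1 (1 - i) κ false false (2 * X + i + c, b + 1) =
        (W + c, b + 1) := by
      rintro ⟨κ1, κ2⟩ hκ
      exact rkj (py c _ hc) (by simp only at hκ; simp only [ne_eq, Prod.mk.injEq]; omega)
    rcases (show a = 0 ∨ a = 1 by omega) with rfl | rfl
    · have f1 := rk_lv1 (i := 1 - i) (X := W) (b := b) (by omega) false
      rw [← el] at f1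
      exact ⟨_, _, _, _, _, h_C1 hj (by omega) (by omega) f1 (f2 _ rfl) (by omega)
        (by omega) (by omega) (by omega) (by omega) (by omega) (by omega) (by omega) (by omega)⟩
    · have f1 : rk1 (1 - i) (W + 1, b) false false (2 * X + i - 1 - 1, b) = (W - 1, b) :=
        rkj (pl b) (by simp only [ne_eq, Prod.mk.injEq]; omega)
      exact ⟨_, _, _, _, _, h_B1 hj (by omega) (by omega) f1 (f2 _ rfl) (by omega)
        (by omega) (by omega) (by omega) (by omega) (by omega) (by omega) (by omega) (by omega)⟩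
  · intro hp a c ha hc hac
    have hq : b - 1 + 1 = b := by omega
    have f2 : ∀ κ : ℕ × ℕ, κ.2 = b → rk1 (1 - i) κ false false (2 * X + i + c, b - 1) =
        (W + c, b - 1) := by
      rintro ⟨κ1, κ2⟩ hκ
      exact rkj (py c _ hc) (by simp only at hκ; simp only [ne_eq, Prod.mk.injEq]; omega)
    rcases (show a = 0 ∨ a = 1 by omega) with rfl | rfl
    · have f1 := rk_lv0 (i := 1 - i) (X := W) (b := b) (by omega) false
      rw [← el] at f1
      exact ⟨_, _, _, _, _, h_C0 hj (by omega) (by omega) f1 (f2 _ rfl) (by omega)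
        (by omega) (by omega) (by omega) (by omega) (by omega) (by omega) (by omega) (by omega)⟩
    · have f1 : rk1 (1 - i) (W + 1, b) false false (2 * X + i - 1 - 1, b) = (W - 1, b) :=
        rkj (pl b) (by simp only [ne_eq, Prod.mk.injEq]; omega)
      exact ⟨_, _, _, _, _, h_B0 hj (by omega) (by omega) f1 (f2 _ rfl) (by omega)
        (by omega) (by omega) (by omega) (by omega) (by omega) (by omega) (by omega) (by omega)⟩

/-- **Horizontal rows.** -/
theorem cert_H (hi : i ≤ 1) (hX : 10 ≤ X) (hb : 10 ≤ b) {y₁ y₂ : ℕ × ℕ} (hy : 4 ≤ y₁.1)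
    (n1 : y₁ ≠ (2 * X + i, b)) (n2 : y₁ ≠ (2 * X + i + 1, b)) (n3 : y₂ ≠ (2 * X + i, b))
    (n4 : y₂ ≠ (2 * X + i + 1, b)) (n5 : y₁ ≠ y₂)
    (hnn : ¬ ((wadj (2 * X + i, b) y₁ ∨ wadj (2 * X + i + 1, b) y₁) ∧
      (wadj (2 * X + i, b) y₂ ∨ wadj (2 * X + i + 1, b) y₂))) : ∃ j κ hl hr du dv,
      Cert (2 * X + i, b) (2 * X + i + 1, b) y₁ y₂ j κ hl hr du dv := by
  obtain ⟨a₁, q⟩ := y₁
  obtain ⟨a₂, q'⟩ := y₂
  simp only [ne_eq, Prod.mk.injEq] at n1 n2 n3 n4 n5 hy
  obtain ⟨P, hP⟩ : ∃ P, P = (a₁ - i) / 2 := ⟨_, rfl⟩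
  obtain ⟨P', hP'⟩ : ∃ P', P' = (a₂ - i) / 2 := ⟨_, rfl⟩
  have e1 : pw i (a₁, q) = (P, q) := by rw [hP]; rfl
  have e2 : pw i (a₂, q') = (P', q') := by rw [hP']; rfl
  by_cases hs : P = P' ∧ q = q'
  · obtain ⟨hs1, rfl⟩ := hs
    have hor : (a₁ = 2 * P + i ∧ a₂ = 2 * P + i + 1) ∨ (a₁ = 2 * P + i + 1 ∧ a₂ = 2 * P + i) := by
      omega
    rcases hor with ⟨h1, h2⟩ | ⟨h1, h2⟩
    · rw [h1, h2]
      exact ⟨_, cert_same hi hX hb (by omega) (by omega)⟩
    · rw [h1, h2]
      obtain ⟨κ, hl, hr, du, dv, hc⟩ := cert_same (q := q) hi hX hb (P := P) (by omega) (by omega)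
      exact ⟨_, κ, hl, hr, du, dv, hc.swap'⟩
  · rcases cert_dist hi hX hb e1 e2 hs (by omega) (by omega) with h | ⟨hp, h⟩ | ⟨hp, h⟩
    · exact ⟨_, h⟩
    · obtain ⟨g1, _, g3, _⟩ := cert_exc (i := i) (X := X) (b := b) hi hX hb
      rcases h with ⟨c1, c2, c3, c4⟩ | ⟨c1, c2, c3, c4⟩ | ⟨c1, c2, c3, c4⟩ | ⟨c1, c2, c3, c4⟩
      · obtain ⟨a, ha⟩ : ∃ a, a₁ = 2 * X + i + 2 + a := ⟨a₁ - (2 * X + i + 2), by omega⟩
        obtain ⟨c, hc⟩ : ∃ c, a₂ = 2 * X + i + c := ⟨a₂ - (2 * X + i), by omega⟩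
        have hq : q' = b - 1 := by omega
        have hac : ¬ (a = 0 ∧ c = 1) := by
          rintro ⟨h1, h2⟩
          apply hnn
          rw [ha, hc, c2, hq, h1, h2]
          rw [wadj_iff, wadj_iff, wadj_iff, wadj_iff]
          omega
        rw [ha, hc, c2, hq]
        exact ⟨_, g1 hp a c (by omega) (by omega) hac⟩
      · obtain ⟨a, ha⟩ : ∃ a, a₂ = 2 * X + i + 2 + a := ⟨a₂ - (2 * X + i + 2), by omega⟩
        obtain ⟨c, hc⟩ : ∃ c, a₁ = 2 * X + i + c := ⟨a₁ - (2 * X + i), by omega⟩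
        have hq : q = b - 1 := by omega
        have hac : ¬ (a = 0 ∧ c = 1) := by
          rintro ⟨h1, h2⟩
          apply hnn
          rw [ha, hc, c2, hq, h1, h2]
          rw [wadj_iff, wadj_iff, wadj_iff, wadj_iff]
          omega
        rw [ha, hc, c2, hq]
        obtain ⟨κ, hl, hr, du, dv, hce⟩ := g1 hp a c (by omega) (by omega) hac
        exact ⟨_, κ, hl, hr, du, dv, hce.swap'⟩
      · obtain ⟨a, ha⟩ : ∃ a, a₁ = 2 * X + i - 1 - a := ⟨2 * X + i - 1 - a₁, by omega⟩
        obtain ⟨c, hc⟩ : ∃ c, a₂ = 2 * X + i + c := ⟨a₂ - (2 * X + i), by omega⟩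
        have hq : q' = b + 1 := by omega
        have hac : ¬ (a = 0 ∧ c = 0) := by
          rintro ⟨h1, h2⟩
          apply hnn
          rw [ha, hc, c2, hq, h1, h2]
          rw [wadj_iff, wadj_iff, wadj_iff, wadj_iff]
          omega
        rw [ha, hc, c2, hq]
        exact ⟨_, g3 hp a c (by omega) (by omega) hac⟩
      · obtain ⟨a, ha⟩ : ∃ a, a₂ = 2 * X + i - 1 - a := ⟨2 * X + i - 1 - a₂, by omega⟩
        obtain ⟨c, hc⟩ : ∃ c, a₁ = 2 * X + i + c := ⟨a₁ - (2 * X + i), by omega⟩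
        have hq : q = b + 1 := by omega
        have hac : ¬ (a = 0 ∧ c = 0) := by
          rintro ⟨h1, h2⟩
          apply hnn
          rw [ha, hc, c2, hq, h1, h2]
          rw [wadj_iff, wadj_iff, wadj_iff, wadj_iff]
          omega
        rw [ha, hc, c2, hq]
        obtain ⟨κ, hl, hr, du, dv, hce⟩ := g3 hp a c (by omega) (by omega) hac
        exact ⟨_, κ, hl, hr, du, dv, hce.swap'⟩
    · obtain ⟨_, g2, _, g4⟩ := cert_exc (i := i) (X := X) (b := b) hi hX hb
      rcases h with ⟨c1, c2, c3, c4⟩ | ⟨c1, c2, c3, c4⟩ | ⟨c1, c2, c3, c4⟩ | ⟨c1, c2, c3, c4⟩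
      · obtain ⟨a, ha⟩ : ∃ a, a₁ = 2 * X + i + 2 + a := ⟨a₁ - (2 * X + i + 2), by omega⟩
        obtain ⟨c, hc⟩ : ∃ c, a₂ = 2 * X + i + c := ⟨a₂ - (2 * X + i), by omega⟩
        have hq : q' = b + 1 := by omega
        have hac : ¬ (a = 0 ∧ c = 1) := by
          rintro ⟨h1, h2⟩
          apply hnn
          rw [ha, hc, c2, hq, h1, h2]
          rw [wadj_iff, wadj_iff, wadj_iff, wadj_iff]
          omega
        rw [ha, hc, c2, hq]
        exact ⟨_, g2 hp a c (by omega) (by omega) hac⟩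
      · obtain ⟨a, ha⟩ : ∃ a, a₂ = 2 * X + i + 2 + a := ⟨a₂ - (2 * X + i + 2), by omega⟩
        obtain ⟨c, hc⟩ : ∃ c, a₁ = 2 * X + i + c := ⟨a₁ - (2 * X + i), by omega⟩
        have hq : q = b + 1 := by omega
        have hac : ¬ (a = 0 ∧ c = 1) := by
          rintro ⟨h1, h2⟩
          apply hnn
          rw [ha, hc, c2, hq, h1, h2]
          rw [wadj_iff, wadj_iff, wadj_iff, wadj_iff]
          omega
        rw [ha, hc, c2, hq]
        obtain ⟨κ, hl, hr, du, dv, hce⟩ := g2 hp a c (by omega) (by omega) hac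
        exact ⟨_, κ, hl, hr, du, dv, hce.swap'⟩
      · obtain ⟨a, ha⟩ : ∃ a, a₁ = 2 * X + i - 1 - a := ⟨2 * X + i - 1 - a₁, by omega⟩
        obtain ⟨c, hc⟩ : ∃ c, a₂ = 2 * X + i + c := ⟨a₂ - (2 * X + i), by omega⟩
        have hq : q' = b - 1 := by omega
        have hac : ¬ (a = 0 ∧ c = 0) := by
          rintro ⟨h1, h2⟩
          apply hnn
          rw [ha, hc, c2, hq, h1, h2]
          rw [wadj_iff, wadj_iff, wadj_iff, wadj_iff]
          omega
        rw [ha, hc, c2, hq]
        exact ⟨_, g4 hp a c (by omega) (by omega) hac⟩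
      · obtain ⟨a, ha⟩ : ∃ a, a₂ = 2 * X + i - 1 - a := ⟨2 * X + i - 1 - a₂, by omega⟩
        obtain ⟨c, hc⟩ : ∃ c, a₁ = 2 * X + i + c := ⟨a₁ - (2 * X + i), by omega⟩
        have hq : q = b - 1 := by omega
        have hac : ¬ (a = 0 ∧ c = 0) := by
          rintro ⟨h1, h2⟩
          apply hnn
          rw [ha, hc, c2, hq, h1, h2]
          rw [wadj_iff, wadj_iff, wadj_iff, wadj_iff]
          omega
        rw [ha, hc, c2, hq]
        obtain ⟨κ, hl, hr, du, dv, hce⟩ := g4 hp a c (by omega) (by omega) hac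
        exact ⟨_, κ, hl, hr, du, dv, hce.swap'⟩

end

end DA
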