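import Pool.Agent.DA.CertH

/-!
# Choice of the matching, vertical rows
-/

open Set

namespace DA

section

variable {X W b i : ℕ} {y₁ y₂ : ℕ × ℕ}

/-- `u` is a left half, its pair is missing -/
lemma v_uL (hi : i ≤ 1) (hX : 1 ≤ X) (hr : Bool) {p q p' q' : ℕ}
    (e1 : rk1 i (X, b) true hr y₁ = (p, q)) (e2 : rk1 i (X, b) true hr y₂ = (p', q'))
    (h12 : ¬ (p = p' ∧ q = q'))
    (k1 : ¬ (p + 1 = X ∧ q = b)) (k2 : ¬ (p = X ∧ q = b)) (k3 : ¬ (p = X ∧ q = b + 1))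
    (k1' : ¬ (p' + 1 = X ∧ q' = b)) (k2' : ¬ (p' = X ∧ q' = b)) (k3' : ¬ (p' = X ∧ q' = b + 1))
    (ho : ¬ ((q = b ∧ p ≤ X) ∧ p' = X ∧ b ≤ q'))
    (ho' : ¬ ((p = X ∧ b ≤ q) ∧ q' = b ∧ p' ≤ X)) :
    Cert (2 * X + i, b) (2 * X + i, b + 1) y₁ y₂ i (X, b) true hr 0 2 := by
  refine cert_mk hi (by omega) (by omega) (by omega) ?_ ?_ ?_ e1 e2 ?_ ?_ ?_ ?_ ?_ (by omega)
  · left
    refine ⟨pw_l i X b, ?_⟩
    rw [tg_lt]
    simp only [ne_eq, Prod.mk.injEq]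
    omega
  · exact (rk_lt i X (b) hX _).trans (st0 X b).symm
  · rw [rk1_off (by rw [pw_l]; simp), pw_l, st2]
  · simp only [st0, st2, ne_eq, Prod.mk.injEq]
    omega
  · simp only [st0, st2, ne_eq, Prod.mk.injEq]
    omega
  · simp only [ne_eq, Prod.mk.injEq]
    omega
  · rw [ra0, ra2]
    omega
  · rw [ra2, ra0]
    omega

/-- `v` is a left half, its pair is missing -/
lemma v_vL (hi : i ≤ 1) (hX : 1 ≤ X) (hr : Bool) {p q p' q' : ℕ}
    (e1 : rk1 i (X, b + 1) true hr y₁ = (p, q)) (e2 : rk1 i (X, b + 1) true hr y₂ = (p', q'))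
    (h12 : ¬ (p = p' ∧ q = q'))
    (k1 : ¬ (p = X ∧ q = b)) (k2 : ¬ (p = X ∧ q = b + 1)) (k3 : ¬ (p + 1 = X ∧ q = b + 1))
    (k1' : ¬ (p' = X ∧ q' = b)) (k2' : ¬ (p' = X ∧ q' = b + 1)) (k3' : ¬ (p' + 1 = X ∧ q' = b + 1))
    (ho : ¬ ((p = X ∧ q ≤ b + 1) ∧ q' = b + 1 ∧ p' ≤ X))
    (ho' : ¬ ((q = b + 1 ∧ p ≤ X) ∧ p' = X ∧ q' ≤ b + 1)) :
    Cert (2 * X + i, b) (2 * X + i, b + 1) y₁ y₂ i (X, b + 1) true hr 3 0 := by
  refine cert_mk hi (by omega) (by omega) (by omega) ?_ ?_ ?_ e1 e2 ?_ ?_ ?_ ?_ ?_ (by omega)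
  · right
    refine ⟨pw_l i X (b + 1), ?_⟩
    rw [tg_lt]
    simp only [ne_eq, Prod.mk.injEq]
    omega
  · rw [rk1_off (by rw [pw_l]; simp), pw_l, st3]
    simp
  · exact (rk_lt i X (b + 1) hX _).trans (st0 X (b + 1)).symm
  · simp only [st3, st0, ne_eq, Prod.mk.injEq]
    omega
  · simp only [st3, st0, ne_eq, Prod.mk.injEq]
    omega
  · simp only [ne_eq, Prod.mk.injEq]
    omega
  · rw [ra3, ra0]
    omega
  · rw [ra0, ra3]
    omega

/-- `u` is a right half, its pair is missing -/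
lemma v_uR (hi : i ≤ 1) (hl : Bool) {p q p' q' : ℕ}
    (e1 : rk1 i (W, b) hl true y₁ = (p, q)) (e2 : rk1 i (W, b) hl true y₂ = (p', q'))
    (h12 : ¬ (p = p' ∧ q = q'))
    (k1 : ¬ (p = W + 1 ∧ q = b)) (k2 : ¬ (p = W ∧ q = b)) (k3 : ¬ (p = W ∧ q = b + 1))
    (k1' : ¬ (p' = W + 1 ∧ q' = b)) (k2' : ¬ (p' = W ∧ q' = b)) (k3' : ¬ (p' = W ∧ q' = b + 1))
    (ho : ¬ ((q = b ∧ W ≤ p) ∧ p' = W ∧ b ≤ q'))
    (ho' : ¬ ((p = W ∧ b ≤ q) ∧ q' = b ∧ W ≤ p')) :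
    Cert (2 * W + i + 1, b) (2 * W + i + 1, b + 1) y₁ y₂ i (W, b) hl true 1 2 := by
  refine cert_mk hi (by omega) (by omega) (by omega) ?_ ?_ ?_ e1 e2 ?_ ?_ ?_ ?_ ?_ (by omega)
  · left
    refine ⟨pw_r i W b, ?_⟩
    rw [tg_rt]
    simp only [ne_eq, Prod.mk.injEq]
    omega
  · exact (rk_rt i W (b) _).trans (st1 W b).symm
  · rw [rk1_off (by rw [pw_r]; simp), pw_r, st2]
  · simp only [st1, st2, ne_eq, Prod.mk.injEq]
    omega
  · simp only [st1, st2, ne_eq, Prod.mk.injEq]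
    omega
  · simp only [ne_eq, Prod.mk.injEq]
    omega
  · rw [ra1, ra2]
    omega
  · rw [ra2, ra1]
    omega

/-- `v` is a right half, its pair is missing -/
lemma v_vR (hi : i ≤ 1) (hl : Bool) {p q p' q' : ℕ}
    (e1 : rk1 i (W, b + 1) hl true y₁ = (p, q)) (e2 : rk1 i (W, b + 1) hl true y₂ = (p', q'))
    (h12 : ¬ (p = p' ∧ q = q'))
    (k1 : ¬ (p = W ∧ q = b)) (k2 : ¬ (p = W ∧ q = b + 1)) (k3 : ¬ (p = W + 1 ∧ q = b + 1))
    (k1' : ¬ (p' = W ∧ q' = b)) (k2' : ¬ (p' = W ∧ q' = b + 1)) (k3' : ¬ (p' = W + 1 ∧ q' = b + 1))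
    (ho : ¬ ((p = W ∧ q ≤ b + 1) ∧ q' = b + 1 ∧ W ≤ p'))
    (ho' : ¬ ((q = b + 1 ∧ W ≤ p) ∧ p' = W ∧ q' ≤ b + 1)) :
    Cert (2 * W + i + 1, b) (2 * W + i + 1, b + 1) y₁ y₂ i (W, b + 1) hl true 3 1 := by
  refine cert_mk hi (by omega) (by omega) (by omega) ?_ ?_ ?_ e1 e2 ?_ ?_ ?_ ?_ ?_ (by omega)
  · right
    refine ⟨pw_r i W (b + 1), ?_⟩
    rw [tg_rt]
    simp only [ne_eq, Prod.mk.injEq]
    omega
  · rw [rk1_off (by rw [pw_r]; simp), pw_r, st3]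
    simp
  · exact (rk_rt i W (b + 1) _).trans (st1 W (b + 1)).symm
  · simp only [st3, st1, ne_eq, Prod.mk.injEq]
    omega
  · simp only [st3, st1, ne_eq, Prod.mk.injEq]
    omega
  · simp only [ne_eq, Prod.mk.injEq]
    omega
  · rw [ra3, ra1]
    omega
  · rw [ra1, ra3]
    omega

lemma exUL (hi : i ≤ 1) (hX : 1 ≤ X) (hb : 1 ≤ b) (par : (i + b) % 2 = 0) {p q p' q' : ℕ}
    (e1 : pw i y₁ = (p, q)) (e2 : pw i y₂ = (p', q'))
    (g1 : p = X → q = b → y₁ = (2 * X + i + 1, b)) (g2 : p' = X → q' = b → y₂ = (2 * X + i + 1, b))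
    (h12 : ¬ (p = p' ∧ q = q')) (c1 : ¬ (p + 1 = X ∧ q = b)) (c2 : ¬ (p = X ∧ q = b + 1))
    (c1' : ¬ (p' + 1 = X ∧ q' = b)) (c2' : ¬ (p' = X ∧ q' = b + 1))
    (x : ¬ (q = b ∧ p < X ∧ p' = X ∧ b < q')) (x' : ¬ (q' = b ∧ p' < X ∧ p = X ∧ b < q)) :
    ∃ κ hl hr du dv, Cert (2 * X + i, b) (2 * X + i, b + 1) y₁ y₂ i κ hl hr du dv := by
  by_cases hA : p = X ∧ q = b
  · by_cases hD : p' = X ∧ q' + 1 = b
    · have f1 : rk1 i (X, b) true true y₁ = (X + 1, b) := by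
        rw [g1 (by omega) (by omega)]
        exact rk_rt i X b _
      have f2 : rk1 i (X, b) true true y₂ = (p', q') :=
        rkj e2 (by simp only [ne_eq, Prod.mk.injEq]; omega)
      exact ⟨_, _, _, _, _, v_uL hi hX true f1 f2 (by omega) (by omega) (by omega) (by omega)
        (by omega) (by omega) (by omega) (by omega) (by omega)⟩
    · have f1 : rk1 i (X, b) true false y₁ = (X, b - 1) := by
        rw [g1 (by omega) (by omega)]
        exact rk_rv0 (X := X) par _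
      have f2 : rk1 i (X, b) true false y₂ = (p', q') :=
        rkj e2 (by simp only [ne_eq, Prod.mk.injEq]; omega)
      exact ⟨_, _, _, _, _, v_uL hi hX false f1 f2 (by omega) (by omega) (by omega) (by omega)
        (by omega) (by omega) (by omega) (by omega) (by omega)⟩
  by_cases hB : p' = X ∧ q' = b
  · by_cases hD : p = X ∧ q + 1 = b
    · have f1 : rk1 i (X, b) true true y₁ = (p, q) :=
        rkj e1 (by simp only [ne_eq, Prod.mk.injEq]; omega)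
      have f2 : rk1 i (X, b) true true y₂ = (X + 1, b) := by
        rw [g2 (by omega) (by omega)]
        exact rk_rt i X b _
      exact ⟨_, _, _, _, _, v_uL hi hX true f1 f2 (by omega) (by omega) (by omega) (by omega)
        (by omega) (by omega) (by omega) (by omega) (by omega)⟩
    · have f1 : rk1 i (X, b) true false y₁ = (p, q) :=
        rkj e1 (by simp only [ne_eq, Prod.mk.injEq]; omega)
      have f2 : rk1 i (X, b) true false y₂ = (X, b - 1) := by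
        rw [g2 (by omega) (by omega)]
        exact rk_rv0 (X := X) par _
      exact ⟨_, _, _, _, _, v_uL hi hX false f1 f2 (by omega) (by omega) (by omega) (by omega)
        (by omega) (by omega) (by omega) (by omega) (by omega)⟩
  have f1 : rk1 i (X, b) true false y₁ = (p, q) :=
    rkj e1 (by simp only [ne_eq, Prod.mk.injEq]; omega)
  have f2 : rk1 i (X, b) true false y₂ = (p', q') :=
    rkj e2 (by simp only [ne_eq, Prod.mk.injEq]; omega)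
  exact ⟨_, _, _, _, _, v_uL hi hX false f1 f2 (by omega) (by omega) (by omega) (by omega)
    (by omega) (by omega) (by omega) (by omega) (by omega)⟩

lemma exVL (hi : i ≤ 1) (hX : 1 ≤ X) (hb : 1 ≤ b) (par : (i + b) % 2 = 0) {p q p' q' : ℕ}
    (e1 : pw i y₁ = (p, q)) (e2 : pw i y₂ = (p', q'))
    (g1 : p = X → q = b + 1 → y₁ = (2 * X + i + 1, b + 1)) (g2 : p' = X → q' = b + 1 → y₂ = (2 * X + i + 1, b + 1))
    (h12 : ¬ (p = p' ∧ q = q')) (c1 : ¬ (p + 1 = X ∧ q = b + 1)) (c2 : ¬ (p = X ∧ q = b))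
    (c1' : ¬ (p' + 1 = X ∧ q' = b + 1)) (c2' : ¬ (p' = X ∧ q' = b))
    (x : ¬ (q = b + 1 ∧ p < X ∧ p' = X ∧ q' < b)) (x' : ¬ (q' = b + 1 ∧ p' < X ∧ p = X ∧ q < b)) :
    ∃ κ hl hr du dv, Cert (2 * X + i, b) (2 * X + i, b + 1) y₁ y₂ i κ hl hr du dv := by
  by_cases hA : p = X ∧ q = b + 1
  · by_cases hD : p' = X ∧ q' = b + 1 + 1
    · have f1 : rk1 i (X, b + 1) true true y₁ = (X + 1, b + 1) := by
        rw [g1 (by omega) (by omega)]
        exact rk_rt i X (b + 1) _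
      have f2 : rk1 i (X, b + 1) true true y₂ = (p', q') :=
        rkj e2 (by simp only [ne_eq, Prod.mk.injEq]; omega)
      exact ⟨_, _, _, _, _, v_vL hi hX true f1 f2 (by omega) (by omega) (by omega) (by omega)
        (by omega) (by omega) (by omega) (by omega) (by omega)⟩
    · have f1 : rk1 i (X, b + 1) true false y₁ = (X, b + 1 + 1) := by
        rw [g1 (by omega) (by omega)]
        exact rk_rv1 (X := X) (b := b + 1) (by omega) _
      have f2 : rk1 i (X, b + 1) true false y₂ = (p', q') :=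
        rkj e2 (by simp only [ne_eq, Prod.mk.injEq]; omega)
      exact ⟨_, _, _, _, _, v_vL hi hX false f1 f2 (by omega) (by omega) (by omega) (by omega)
        (by omega) (by omega) (by omega) (by omega) (by omega)⟩
  by_cases hB : p' = X ∧ q' = b + 1
  · by_cases hD : p = X ∧ q = b + 1 + 1
    · have f1 : rk1 i (X, b + 1) true true y₁ = (p, q) :=
        rkj e1 (by simp only [ne_eq, Prod.mk.injEq]; omega)
      have f2 : rk1 i (X, b + 1) true true y₂ = (X + 1, b + 1) := by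
        rw [g2 (by omega) (by omega)]
        exact rk_rt i X (b + 1) _
      exact ⟨_, _, _, _, _, v_vL hi hX true f1 f2 (by omega) (by omega) (by omega) (by omega)
        (by omega) (by omega) (by omega) (by omega) (by omega)⟩
    · have f1 : rk1 i (X, b + 1) true false y₁ = (p, q) :=
        rkj e1 (by simp only [ne_eq, Prod.mk.injEq]; omega)
      have f2 : rk1 i (X, b + 1) true false y₂ = (X, b + 1 + 1) := by
        rw [g2 (by omega) (by omega)]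
        exact rk_rv1 (X := X) (b := b + 1) (by omega) _
      exact ⟨_, _, _, _, _, v_vL hi hX false f1 f2 (by omega) (by omega) (by omega) (by omega)
        (by omega) (by omega) (by omega) (by omega) (by omega)⟩
  have f1 : rk1 i (X, b + 1) true false y₁ = (p, q) :=
    rkj e1 (by simp only [ne_eq, Prod.mk.injEq]; omega)
  have f2 : rk1 i (X, b + 1) true false y₂ = (p', q') :=
    rkj e2 (by simp only [ne_eq, Prod.mk.injEq]; omega)
  exact ⟨_, _, _, _, _, v_vL hi hX false f1 f2 (by omega) (by omega) (by omega) (by omega)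
    (by omega) (by omega) (by omega) (by omega) (by omega)⟩

lemma exUR (hi : i ≤ 1) (hW : 1 ≤ W) (hb : 1 ≤ b) (par : (i + b) % 2 = 1) {p q p' q' : ℕ}
    (e1 : pw i y₁ = (p, q)) (e2 : pw i y₂ = (p', q'))
    (g1 : p = W → q = b → y₁ = (2 * W + i, b)) (g2 : p' = W → q' = b → y₂ = (2 * W + i, b))
    (h12 : ¬ (p = p' ∧ q = q')) (c1 : ¬ (p = W + 1 ∧ q = b)) (c2 : ¬ (p = W ∧ q = b + 1))
    (c1' : ¬ (p' = W + 1 ∧ q' = b)) (c2' : ¬ (p' = W ∧ q' = b + 1))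
    (x : ¬ (q = b ∧ W < p ∧ p' = W ∧ b < q')) (x' : ¬ (q' = b ∧ W < p' ∧ p = W ∧ b < q)) :
    ∃ κ hl hr du dv, Cert (2 * W + i + 1, b) (2 * W + i + 1, b + 1) y₁ y₂ i κ hl hr du dv := by
  by_cases hA : p = W ∧ q = b
  · by_cases hD : p' = W ∧ q' + 1 = b
    · have f1 : rk1 i (W, b) true true y₁ = (W - 1, b) := by
        rw [g1 (by omega) (by omega)]
        exact rk_lt i W b hW _
      have f2 : rk1 i (W, b) true true y₂ = (p', q') :=
        rkj e2 (by simp only [ne_eq, Prod.mk.injEq]; omega)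
      exact ⟨_, _, _, _, _, v_uR hi true f1 f2 (by omega) (by omega) (by omega) (by omega)
        (by omega) (by omega) (by omega) (by omega) (by omega)⟩
    · have f1 : rk1 i (W, b) false true y₁ = (W, b - 1) := by
        rw [g1 (by omega) (by omega)]
        exact rk_lv1 (X := W) par _
      have f2 : rk1 i (W, b) false true y₂ = (p', q') :=
        rkj e2 (by simp only [ne_eq, Prod.mk.injEq]; omega)
      exact ⟨_, _, _, _, _, v_uR hi false f1 f2 (by omega) (by omega) (by omega) (by omega)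
        (by omega) (by omega) (by omega) (by omega) (by omega)⟩
  by_cases hB : p' = W ∧ q' = b
  · by_cases hD : p = W ∧ q + 1 = b
    · have f1 : rk1 i (W, b) true true y₁ = (p, q) :=
        rkj e1 (by simp only [ne_eq, Prod.mk.injEq]; omega)
      have f2 : rk1 i (W, b) true true y₂ = (W - 1, b) := by
        rw [g2 (by omega) (by omega)]
        exact rk_lt i W b hW _
      exact ⟨_, _, _, _, _, v_uR hi true f1 f2 (by omega) (by omega) (by omega) (by omega)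
        (by omega) (by omega) (by omega) (by omega) (by omega)⟩
    · have f1 : rk1 i (W, b) false true y₁ = (p, q) :=
        rkj e1 (by simp only [ne_eq, Prod.mk.injEq]; omega)
      have f2 : rk1 i (W, b) false true y₂ = (W, b - 1) := by
        rw [g2 (by omega) (by omega)]
        exact rk_lv1 (X := W) par _
      exact ⟨_, _, _, _, _, v_uR hi false f1 f2 (by omega) (by omega) (by omega) (by omega)
        (by omega) (by omega) (by omega) (by omega) (by omega)⟩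
  have f1 : rk1 i (W, b) false true y₁ = (p, q) :=
    rkj e1 (by simp only [ne_eq, Prod.mk.injEq]; omega)
  have f2 : rk1 i (W, b) false true y₂ = (p', q') :=
    rkj e2 (by simp only [ne_eq, Prod.mk.injEq]; omega)
  exact ⟨_, _, _, _, _, v_uR hi false f1 f2 (by omega) (by omega) (by omega) (by omega)
    (by omega) (by omega) (by omega) (by omega) (by omega)⟩

lemma exVR (hi : i ≤ 1) (hW : 1 ≤ W) (hb : 1 ≤ b) (par : (i + b) % 2 = 1) {p q p' q' : ℕ}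
    (e1 : pw i y₁ = (p, q)) (e2 : pw i y₂ = (p', q'))
    (g1 : p = W → q = b + 1 → y₁ = (2 * W + i, b + 1)) (g2 : p' = W → q' = b + 1 → y₂ = (2 * W + i, b + 1))
    (h12 : ¬ (p = p' ∧ q = q')) (c1 : ¬ (p = W + 1 ∧ q = b + 1)) (c2 : ¬ (p = W ∧ q = b))
    (c1' : ¬ (p' = W + 1 ∧ q' = b + 1)) (c2' : ¬ (p' = W ∧ q' = b))
    (x : ¬ (q = b + 1 ∧ W < p ∧ p' = W ∧ q' < b)) (x' : ¬ (q' = b + 1 ∧ W < p' ∧ p = W ∧ q < b)) :
    ∃ κ hl hr du dv, Cert (2 * W + i + 1, b) (2 * W + i + 1, b + 1) y₁ y₂ i κ hl hr du dv := by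
  by_cases hA : p = W ∧ q = b + 1
  · by_cases hD : p' = W ∧ q' = b + 1 + 1
    · have f1 : rk1 i (W, b + 1) true true y₁ = (W - 1, b + 1) := by
        rw [g1 (by omega) (by omega)]
        exact rk_lt i W (b + 1) hW _
      have f2 : rk1 i (W, b + 1) true true y₂ = (p', q') :=
        rkj e2 (by simp only [ne_eq, Prod.mk.injEq]; omega)
      exact ⟨_, _, _, _, _, v_vR hi true f1 f2 (by omega) (by omega) (by omega) (by omega)
        (by omega) (by omega) (by omega) (by omega) (by omega)⟩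
    · have f1 : rk1 i (W, b + 1) false true y₁ = (W, b + 1 + 1) := by
        rw [g1 (by omega) (by omega)]
        exact rk_lv0 (X := W) (b := b + 1) (by omega) _
      have f2 : rk1 i (W, b + 1) false true y₂ = (p', q') :=
        rkj e2 (by simp only [ne_eq, Prod.mk.injEq]; omega)
      exact ⟨_, _, _, _, _, v_vR hi false f1 f2 (by omega) (by omega) (by omega) (by omega)
        (by omega) (by omega) (by omega) (by omega) (by omega)⟩
  by_cases hB : p' = W ∧ q' = b + 1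
  · by_cases hD : p = W ∧ q = b + 1 + 1
    · have f1 : rk1 i (W, b + 1) true true y₁ = (p, q) :=
        rkj e1 (by simp only [ne_eq, Prod.mk.injEq]; omega)
      have f2 : rk1 i (W, b + 1) true true y₂ = (W - 1, b + 1) := by
        rw [g2 (by omega) (by omega)]
        exact rk_lt i W (b + 1) hW _
      exact ⟨_, _, _, _, _, v_vR hi true f1 f2 (by omega) (by omega) (by omega) (by omega)
        (by omega) (by omega) (by omega) (by omega) (by omega)⟩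
    · have f1 : rk1 i (W, b + 1) false true y₁ = (p, q) :=
        rkj e1 (by simp only [ne_eq, Prod.mk.injEq]; omega)
      have f2 : rk1 i (W, b + 1) false true y₂ = (W, b + 1 + 1) := by
        rw [g2 (by omega) (by omega)]
        exact rk_lv0 (X := W) (b := b + 1) (by omega) _
      exact ⟨_, _, _, _, _, v_vR hi false f1 f2 (by omega) (by omega) (by omega) (by omega)
        (by omega) (by omega) (by omega) (by omega) (by omega)⟩
  have f1 : rk1 i (W, b + 1) false true y₁ = (p, q) :=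
    rkj e1 (by simp only [ne_eq, Prod.mk.injEq]; omega)
  have f2 : rk1 i (W, b + 1) false true y₂ = (p', q') :=
    rkj e2 (by simp only [ne_eq, Prod.mk.injEq]; omega)
  exact ⟨_, _, _, _, _, v_vR hi false f1 f2 (by omega) (by omega) (by omega) (by omega)
    (by omega) (by omega) (by omega) (by omega) (by omega)⟩

lemma chUL (hi : i ≤ 1) (hX : 10 ≤ X) (hb : 10 ≤ b) (par : (i + b) % 2 = 0) {a₁ a₂ q q' P P' : ℕ}
    (hW : W = X + i - 1) (hP : P = (a₁ - i) / 2) (hP' : P' = (a₂ - i) / 2)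
    (n1 : ¬ (a₁ = 2 * X + i ∧ q = b)) (n2 : ¬ (a₂ = 2 * X + i ∧ q' = b))
    (c0 : ¬ (P = P' ∧ q = q')) (c1 : ¬ (P + 1 = X ∧ q = b)) (c2 : ¬ (P = X ∧ q = b + 1))
    (c3 : ¬ (P' + 1 = X ∧ q' = b)) (c4 : ¬ (P' = X ∧ q' = b + 1))
    (c5 : ¬ (q = b ∧ P < X ∧ P' = X ∧ b < q')) (c6 : ¬ (q' = b ∧ P' < X ∧ P = X ∧ b < q)) :
    ∃ j κ hl hr du dv, Cert (2 * X + i, b) (2 * X + i, b + 1) (a₁, q) (a₂, q') j κ hl hr du dv := by
  have e1 : pw i (a₁, q) = (P, q) := by rw [hP]; rfl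
  have e2 : pw i (a₂, q') = (P', q') := by rw [hP']; rfl
  have g1 : P = X → q = b → ((a₁, q) : ℕ × ℕ) = (2 * X + i + 1, b) := by
    intro h1 h2
    clear n2 c0 c1 c2 c3 c4 c5 c6 e1 e2
    rw [Prod.mk.injEq]
    omega
  have g2 : P' = X → q' = b → ((a₂, q') : ℕ × ℕ) = (2 * X + i + 1, b) := by
    intro h1 h2
    clear n1 c0 c1 c2 c3 c4 c5 c6 e1 e2
    rw [Prod.mk.injEq]
    omega
  have hX1 : 1 ≤ X := le_trans (by norm_num) hX
  have hb1 : 1 ≤ b := le_trans (by norm_num) hb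
  obtain ⟨κ, hl, hr, du, dv, h⟩ := exUL (i := i) (X := X) (b := b) hi hX1 hb1 par e1 e2 g1 g2
    c0 c1 c2 c3 c4 c5 c6
  exact ⟨i, κ, hl, hr, du, dv, h⟩

lemma chVL (hi : i ≤ 1) (hX : 10 ≤ X) (hb : 10 ≤ b) (par : (i + b) % 2 = 0) {a₁ a₂ q q' P P' : ℕ}
    (hW : W = X + i - 1) (hP : P = (a₁ - i) / 2) (hP' : P' = (a₂ - i) / 2)
    (n1 : ¬ (a₁ = 2 * X + i ∧ q = b + 1)) (n2 : ¬ (a₂ = 2 * X + i ∧ q' = b + 1))
    (c0 : ¬ (P = P' ∧ q = q')) (c1 : ¬ (P + 1 = X ∧ q = b + 1)) (c2 : ¬ (P = X ∧ q = b))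
    (c3 : ¬ (P' + 1 = X ∧ q' = b + 1)) (c4 : ¬ (P' = X ∧ q' = b))
    (c5 : ¬ (q = b + 1 ∧ P < X ∧ P' = X ∧ q' < b)) (c6 : ¬ (q' = b + 1 ∧ P' < X ∧ P = X ∧ q < b)) :
    ∃ j κ hl hr du dv, Cert (2 * X + i, b) (2 * X + i, b + 1) (a₁, q) (a₂, q') j κ hl hr du dv := by
  have e1 : pw i (a₁, q) = (P, q) := by rw [hP]; rfl
  have e2 : pw i (a₂, q') = (P', q') := by rw [hP']; rfl
  have g1 : P = X → q = b + 1 → ((a₁, q) : ℕ × ℕ) = (2 * X + i + 1, b + 1) := by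
    intro h1 h2
    clear n2 c0 c1 c2 c3 c4 c5 c6 e1 e2
    rw [Prod.mk.injEq]
    omega
  have g2 : P' = X → q' = b + 1 → ((a₂, q') : ℕ × ℕ) = (2 * X + i + 1, b + 1) := by
    intro h1 h2
    clear n1 c0 c1 c2 c3 c4 c5 c6 e1 e2
    rw [Prod.mk.injEq]
    omega
  have hX1 : 1 ≤ X := le_trans (by norm_num) hX
  have hb1 : 1 ≤ b := le_trans (by norm_num) hb
  obtain ⟨κ, hl, hr, du, dv, h⟩ := exVL (i := i) (X := X) (b := b) hi hX1 hb1 par e1 e2 g1 g2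
    c0 c1 c2 c3 c4 c5 c6
  exact ⟨i, κ, hl, hr, du, dv, h⟩

lemma chUR (hi : i ≤ 1) (hX : 10 ≤ X) (hb : 10 ≤ b) (par : (i + b) % 2 = 0) {a₁ a₂ q q' Q Q' : ℕ}
    (hW : W = X + i - 1) (hQ : Q = (a₁ - (1 - i)) / 2) (hQ' : Q' = (a₂ - (1 - i)) / 2)
    (n1 : ¬ (a₁ = 2 * X + i ∧ q = b)) (n2 : ¬ (a₂ = 2 * X + i ∧ q' = b))
    (c0 : ¬ (Q = Q' ∧ q = q')) (c1 : ¬ (Q = W + 1 ∧ q = b)) (c2 : ¬ (Q = W ∧ q = b + 1))
    (c3 : ¬ (Q' = W + 1 ∧ q' = b)) (c4 : ¬ (Q' = W ∧ q' = b + 1))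
    (c5 : ¬ (q = b ∧ W < Q ∧ Q' = W ∧ b < q')) (c6 : ¬ (q' = b ∧ W < Q' ∧ Q = W ∧ b < q)) :
    ∃ j κ hl hr du dv, Cert (2 * X + i, b) (2 * X + i, b + 1) (a₁, q) (a₂, q') j κ hl hr du dv := by
  have e1 : pw (1 - i) (a₁, q) = (Q, q) := by rw [hQ]; rfl
  have e2 : pw (1 - i) (a₂, q') = (Q', q') := by rw [hQ']; rfl
  have eu : ∀ b : ℕ, ((2 * X + i, b) : ℕ × ℕ) = (2 * W + (1 - i) + 1, b) := fun b =>
    Prod.ext (by clear n1 n2 c0 c1 c2 c3 c4 c5 c6; simp only; omega) rfl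
  have g1 : Q = W → q = b → ((a₁, q) : ℕ × ℕ) = (2 * W + (1 - i), b) := by
    intro h1 h2
    clear n2 c0 c1 c2 c3 c4 c5 c6 e1 e2
    rw [Prod.mk.injEq]
    omega
  have g2 : Q' = W → q' = b → ((a₂, q') : ℕ × ℕ) = (2 * W + (1 - i), b) := by
    intro h1 h2
    clear n1 c0 c1 c2 c3 c4 c5 c6 e1 e2
    rw [Prod.mk.injEq]
    omega
  have hj : 1 - i ≤ 1 := Nat.sub_le 1 i
  have hW1 : 1 ≤ W := by clear n1 n2 c0 c1 c2 c3 c4 c5 c6 g1 g2 eu; omega
  have hb1 : 1 ≤ b := le_trans (by norm_num) hb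
  have parj : (1 - i + b) % 2 = 1 := by clear n1 n2 c0 c1 c2 c3 c4 c5 c6 g1 g2 eu; omega
  obtain ⟨κ, hl, hr, du, dv, h⟩ := exUR (i := 1 - i) (W := W) (b := b) hj hW1 hb1 parj e1 e2 g1 g2
    c0 c1 c2 c3 c4 c5 c6
  rw [eu b, eu (b + 1)]
  exact ⟨1 - i, κ, hl, hr, du, dv, h⟩

lemma chVR (hi : i ≤ 1) (hX : 10 ≤ X) (hb : 10 ≤ b) (par : (i + b) % 2 = 0) {a₁ a₂ q q' Q Q' : ℕ}
    (hW : W = X + i - 1) (hQ : Q = (a₁ - (1 - i)) / 2) (hQ' : Q' = (a₂ - (1 - i)) / 2)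
    (n1 : ¬ (a₁ = 2 * X + i ∧ q = b + 1)) (n2 : ¬ (a₂ = 2 * X + i ∧ q' = b + 1))
    (c0 : ¬ (Q = Q' ∧ q = q')) (c1 : ¬ (Q = W + 1 ∧ q = b + 1)) (c2 : ¬ (Q = W ∧ q = b))
    (c3 : ¬ (Q' = W + 1 ∧ q' = b + 1)) (c4 : ¬ (Q' = W ∧ q' = b))
    (c5 : ¬ (q = b + 1 ∧ W < Q ∧ Q' = W ∧ q' < b)) (c6 : ¬ (q' = b + 1 ∧ W < Q' ∧ Q = W ∧ q < b)) :
    ∃ j κ hl hr du dv, Cert (2 * X + i, b) (2 * X + i, b + 1) (a₁, q) (a₂, q') j κ hl hr du dv := by
  have e1 : pw (1 - i) (a₁, q) = (Q, q) := by rw [hQ]; rfl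
  have e2 : pw (1 - i) (a₂, q') = (Q', q') := by rw [hQ']; rfl
  have eu : ∀ b : ℕ, ((2 * X + i, b) : ℕ × ℕ) = (2 * W + (1 - i) + 1, b) := fun b =>
    Prod.ext (by clear n1 n2 c0 c1 c2 c3 c4 c5 c6; simp only; omega) rfl
  have g1 : Q = W → q = b + 1 → ((a₁, q) : ℕ × ℕ) = (2 * W + (1 - i), b + 1) := by
    intro h1 h2
    clear n2 c0 c1 c2 c3 c4 c5 c6 e1 e2
    rw [Prod.mk.injEq]
    omega
  have g2 : Q' = W → q' = b + 1 → ((a₂, q') : ℕ × ℕ) = (2 * W + (1 - i), b + 1) := by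
    intro h1 h2
    clear n1 c0 c1 c2 c3 c4 c5 c6 e1 e2
    rw [Prod.mk.injEq]
    omega
  have hj : 1 - i ≤ 1 := Nat.sub_le 1 i
  have hW1 : 1 ≤ W := by clear n1 n2 c0 c1 c2 c3 c4 c5 c6 g1 g2 eu; omega
  have hb1 : 1 ≤ b := le_trans (by norm_num) hb
  have parj : (1 - i + b) % 2 = 1 := by clear n1 n2 c0 c1 c2 c3 c4 c5 c6 g1 g2 eu; omega
  obtain ⟨κ, hl, hr, du, dv, h⟩ := exVR (i := 1 - i) (W := W) (b := b) hj hW1 hb1 parj e1 e2 g1 g2
    c0 c1 c2 c3 c4 c5 c6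
  rw [eu b, eu (b + 1)]
  exact ⟨1 - i, κ, hl, hr, du, dv, h⟩

/-- **Vertical rows.** -/
theorem cert_V (hi : i ≤ 1) (hX : 10 ≤ X) (hb : 10 ≤ b) (par : (i + b) % 2 = 0) (hy : 4 ≤ y₁.1)
    (n1 : y₁ ≠ (2 * X + i, b)) (n2 : y₁ ≠ (2 * X + i, b + 1)) (n3 : y₂ ≠ (2 * X + i, b))
    (n4 : y₂ ≠ (2 * X + i, b + 1)) (n5 : y₁ ≠ y₂)
    (hnn : ¬ ((wadj (2 * X + i, b) y₁ ∨ wadj (2 * X + i, b + 1) y₁) ∧
      (wadj (2 * X + i, b) y₂ ∨ wadj (2 * X + i, b + 1) y₂))) : ∃ j κ hl hr du dv,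
      Cert (2 * X + i, b) (2 * X + i, b + 1) y₁ y₂ j κ hl hr du dv := by
  obtain ⟨a₁, q⟩ := y₁
  obtain ⟨a₂, q'⟩ := y₂
  rw [wadj_iff, wadj_iff, wadj_iff, wadj_iff] at hnn
  simp only [ne_eq, Prod.mk.injEq] at n1 n2 n3 n4 n5 hy
  have hN : ¬ (((q = b ∨ q = b + 1) ∧ (a₁ + 1 = 2 * X + i ∨ a₁ = 2 * X + i + 1)) ∧
      ((q' = b ∨ q' = b + 1) ∧ (a₂ + 1 = 2 * X + i ∨ a₂ = 2 * X + i + 1))) := by
    rintro ⟨⟨h1, h2⟩, h3, h4⟩
    apply hnn
    clear n1 n2 n3 n4 n5 hnn par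
    constructor
    · rcases h1 with h1 | h1
      · left; left
        exact ⟨h1.symm, by omega⟩
      · right; left
        exact ⟨h1.symm, by omega⟩
    · rcases h3 with h1 | h1
      · left; left
        exact ⟨h1.symm, by omega⟩
      · right; left
        exact ⟨h1.symm, by omega⟩
  clear hnn
  obtain ⟨P, hP⟩ : ∃ P, P = (a₁ - i) / 2 := ⟨_, rfl⟩
  obtain ⟨P', hP'⟩ : ∃ P', P' = (a₂ - i) / 2 := ⟨_, rfl⟩
  obtain ⟨Q, hQ⟩ : ∃ Q, Q = (a₁ - (1 - i)) / 2 := ⟨_, rfl⟩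
  obtain ⟨Q', hQ'⟩ : ∃ Q', Q' = (a₂ - (1 - i)) / 2 := ⟨_, rfl⟩
  obtain ⟨W, hW⟩ : ∃ W, W = X + i - 1 := ⟨_, rfl⟩
  have hj : 1 - i ≤ 1 := Nat.sub_le 1 i
  have hX1 : 1 ≤ X := le_trans (by norm_num) hX
  have hb1 : 1 ≤ b := le_trans (by norm_num) hb
  have hW1 : 1 ≤ W := by clear n1 n2 n3 n4 n5 hN hP hP' hQ hQ'; omega
  have parj : (1 - i + b) % 2 = 1 := by clear n1 n2 n3 n4 n5 hN hP hP' hQ hQ'; omega
  have e1 : pw i (a₁, q) = (P, q) := by rw [hP]; rfl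
  have e2 : pw i (a₂, q') = (P', q') := by rw [hP']; rfl
  have f1 : pw (1 - i) (a₁, q) = (Q, q) := by rw [hQ]; rfl
  have f2 : pw (1 - i) (a₂, q') = (Q', q') := by rw [hQ']; rfl
  have eu : ∀ b : ℕ, ((2 * X + i, b) : ℕ × ℕ) = (2 * W + (1 - i) + 1, b) := fun b =>
    Prod.ext (by clear n1 n2 n3 n4 n5 hN hP hP' hQ hQ'; simp only; omega) rfl
  clear eu e1 e2 f1 f2
  by_cases s1 : P = P' ∧ q = q'
  · by_cases c : (q = b ∧ (a₁ = 2 * X + i + 2 ∨ a₂ = 2 * X + i + 2)) ∨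
      (q = b + 1 ∧ (a₁ + 1 = 2 * X + i ∨ a₂ + 1 = 2 * X + i))
    · exact chVR hi hX hb par hW hQ hQ' n2 n4
          (by clear n1 n2 n3 n4 hN c; omega)
          (by clear n1 n2 n3 n4 n5 hN; omega)
          (by clear n1 n2 n3 n4 n5 hN; omega)
          (by clear n1 n2 n3 n4 n5 hN; omega)
          (by clear n1 n2 n3 n4 n5 hN; omega)
          (by clear n1 n2 n3 n4 n5 hN c; omega)
          (by clear n1 n2 n3 n4 n5 hN c; omega)
    · exact chUR hi hX hb par hW hQ hQ' n1 n3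
          (by clear n1 n2 n3 n4 hN c; omega)
          (by clear n1 n2 n4 hN; omega)
          (by clear n1 n3 n4 n5 hN; omega)
          (by clear n2 n3 n4 hN; omega)
          (by clear n1 n2 n3 n5 hN; omega)
          (by clear n1 n2 n3 n4 n5 hN c; omega)
          (by clear n1 n2 n3 n4 n5 hN c; omega)
  by_cases s2 : Q = Q' ∧ q = q'
  · by_cases c : (q = b ∧ (a₁ + 2 = 2 * X + i ∨ a₂ + 2 = 2 * X + i)) ∨
      (q = b + 1 ∧ (a₁ = 2 * X + i + 1 ∨ a₂ = 2 * X + i + 1))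
    · exact chVL hi hX hb par hW hP hP' n2 n4
          s1
          (by clear n1 n2 n3 n4 n5 hN s1; omega)
          (by clear n1 n2 n3 n4 n5 hN s1; omega)
          (by clear n1 n2 n3 n4 n5 hN s1; omega)
          (by clear n1 n2 n3 n4 n5 hN s1; omega)
          (by clear n1 n2 n3 n4 n5 hN s1 c; omega)
          (by clear n1 n2 n3 n4 n5 hN s1 c; omega)
    · exact chUL hi hX hb par hW hP hP' n1 n3
          s1
          (by clear n1 n2 n4 hN s1; omega)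
          (by clear n1 n3 n4 n5 hN s1; omega)
          (by clear n2 n3 n4 hN s1; omega)
          (by clear n1 n2 n3 n5 hN s1; omega)
          (by clear n1 n2 n3 n4 n5 hN s1 c; omega)
          (by clear n1 n2 n3 n4 n5 hN s1 c; omega)
  by_cases c0 : (q = b ∧ P < X ∧ P' = X ∧ b + 1 < q') ∨ (q' = b ∧ P' < X ∧ P = X ∧ b + 1 < q)
  · exact chVL hi hX hb par hW hP hP' n2 n4
          s1
          (by clear n1 n2 n3 n4 n5 hN s1 s2; omega)
          (by clear n1 n2 n3 n4 n5 hN s1 s2; omega)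
          (by clear n1 n2 n3 n4 n5 hN s1 s2; omega)
          (by clear n1 n2 n3 n4 n5 hN s1 s2; omega)
          (by clear n1 n2 n3 n4 n5 hN s1 s2; omega)
          (by clear n1 n2 n3 n4 n5 hN s1 s2; omega)
  by_cases c1 : q = b ∧ a₁ + 1 = 2 * X + i
  · by_cases c2 : q' = b ∧ a₂ = 2 * X + i + 2
    · exact chVL hi hX hb par hW hP hP' n2 n4
          s1
          (by clear n1 n2 n3 n4 n5 hN s1 s2 c0; omega)
          (by clear n1 n2 n3 n4 n5 hN s1 s2 c0; omega)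
          (by clear n1 n2 n3 n4 n5 hN s1 s2 c0; omega)
          (by clear n1 n2 n3 n4 n5 hN s1 s2 c0; omega)
          (by clear n1 n2 n3 n4 n5 hN s1 s2 c0; omega)
          (by clear n1 n2 n3 n4 n5 hN s1 s2 c0; omega)
    · exact chUR hi hX hb par hW hQ hQ' n1 n3
          s2
          (by clear n1 n2 n3 n4 n5 hN s1 s2 c0 c2; omega)
          (by clear n1 n2 n3 n4 n5 hN s1 s2 c0 c2; omega)
          (by clear n1 n2 n3 n4 n5 s1 s2 c0; omega)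
          (by clear n1 n2 n3 n5 s1 s2 c0 c2; omega)
          (by clear n1 n2 n3 n4 n5 hN s1 s2 c0 c2; omega)
          (by clear n1 n2 n3 n4 n5 hN s1 s2 c0 c2; omega)
  by_cases c1' : q' = b ∧ a₂ + 1 = 2 * X + i
  · by_cases c2 : q = b ∧ a₁ = 2 * X + i + 2
    · exact chVL hi hX hb par hW hP hP' n2 n4
          s1
          (by clear n1 n2 n3 n4 n5 hN s1 s2 c0 c1; omega)
          (by clear n1 n2 n3 n4 n5 hN s1 s2 c0 c1; omega)
          (by clear n1 n2 n3 n4 n5 hN s1 s2 c0 c1; omega)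
          (by clear n1 n2 n3 n4 n5 hN s1 s2 c0 c1; omega)
          (by clear n1 n2 n3 n4 n5 hN s1 s2 c0 c1; omega)
          (by clear n1 n2 n3 n4 n5 hN s1 s2 c0 c1; omega)
    · exact chUR hi hX hb par hW hQ hQ' n1 n3
          s2
          (by clear n1 n2 n3 n4 n5 s1 s2 c0 c1; omega)
          (by clear n1 n3 n4 n5 s1 s2 c0 c1 c2; omega)
          (by clear n1 n2 n3 n4 n5 hN s1 s2 c0 c1 c2; omega)
          (by clear n1 n2 n3 n4 n5 hN s1 s2 c0 c1 c2; omega)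
          (by clear n1 n2 n3 n4 n5 hN s1 s2 c0 c1 c2; omega)
          (by clear n1 n2 n3 n4 n5 hN s1 s2 c0 c1 c2; omega)
  by_cases c3 : q = b ∧ a₁ + 2 = 2 * X + i
  · by_cases c2 : (q' = b ∧ (a₂ = 2 * X + i + 1 ∨ a₂ = 2 * X + i + 2)) ∨
      (q' = b + 1 ∧ a₂ + 1 = 2 * X + i)
    · exact chVR hi hX hb par hW hQ hQ' n2 n4
          s2
          (by clear n1 n2 n3 n4 n5 hN s1 s2 c0 c1 c1' c2; omega)
          (by clear n1 n2 n3 n4 n5 hN s1 s2 c0 c1 c1' c2; omega)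
          (by clear n1 n2 n3 n4 n5 hN s1 s2 c0 c1 c1'; omega)
          (by clear n1 n2 n3 n4 n5 hN s1 s2 c0 c1 c1'; omega)
          (by clear n1 n2 n3 n4 n5 hN s1 s2 c0 c1 c1' c2; omega)
          (by clear n1 n2 n3 n4 n5 hN s1 s2 c0 c1 c1' c2; omega)
    · exact chUR hi hX hb par hW hQ hQ' n1 n3
          s2
          (by clear n1 n2 n3 n4 n5 hN s1 s2 c0 c1 c1' c2; omega)
          (by clear n1 n2 n3 n4 n5 hN s1 s2 c0 c1 c1' c2; omega)
          (by clear n1 n2 n3 n4 n5 hN s1 s2 c0 c1 c1'; omega)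
          (by clear n1 n2 n3 n5 hN s1 s2 c0 c1 c1'; omega)
          (by clear n1 n2 n3 n4 n5 hN s1 s2 c0 c1 c1' c2; omega)
          (by clear n1 n2 n3 n4 n5 hN s1 s2 c0 c1 c1' c2; omega)
  by_cases c3' : q' = b ∧ a₂ + 2 = 2 * X + i
  · by_cases c2 : (q = b ∧ (a₁ = 2 * X + i + 1 ∨ a₁ = 2 * X + i + 2)) ∨
      (q = b + 1 ∧ a₁ + 1 = 2 * X + i)
    · exact chVR hi hX hb par hW hQ hQ' n2 n4
          s2
          (by clear n1 n2 n3 n4 n5 hN s1 s2 c0 c1 c1' c3; omega)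
          (by clear n1 n2 n3 n4 n5 hN s1 s2 c0 c1 c1' c3; omega)
          (by clear n1 n2 n3 n4 n5 hN s1 s2 c0 c1 c1' c3 c2; omega)
          (by clear n1 n2 n3 n4 n5 hN s1 s2 c0 c1 c1' c3 c2; omega)
          (by clear n1 n2 n3 n4 n5 hN s1 s2 c0 c1 c1' c3 c2; omega)
          (by clear n1 n2 n3 n4 n5 hN s1 s2 c0 c1 c1' c3 c2; omega)
    · exact chUR hi hX hb par hW hQ hQ' n1 n3
          s2
          (by clear n1 n2 n3 n4 n5 hN s1 s2 c0 c1 c1' c3; omega)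
          (by clear n1 n3 n4 n5 hN s1 s2 c0 c1 c1' c3; omega)
          (by clear n1 n2 n3 n4 n5 hN s1 s2 c0 c1 c1' c3 c2; omega)
          (by clear n1 n2 n3 n4 n5 hN s1 s2 c0 c1 c1' c3 c2; omega)
          (by clear n1 n2 n3 n4 n5 hN s1 s2 c0 c1 c1' c3 c2; omega)
          (by clear n1 n2 n3 n4 n5 hN s1 s2 c0 c1 c1' c3 c2; omega)
  by_cases c4 : q = b + 1 ∧ a₁ = 2 * X + i + 1
  · by_cases c2 : q' = b ∧ a₂ = 2 * X + i + 2
    · exact chVL hi hX hb par hW hP hP' n2 n4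
          s1
          (by clear n1 n2 n3 n4 n5 hN s1 s2 c0 c1 c1' c3 c3'; omega)
          (by clear n1 n2 n3 n4 n5 hN s1 s2 c0 c1 c1' c3 c3'; omega)
          (by clear n1 n2 n3 n4 n5 hN s1 s2 c0 c1 c1' c3 c3'; omega)
          (by clear n1 n2 n3 n4 n5 hN s1 s2 c0 c1 c1' c3 c3'; omega)
          (by clear n1 n2 n3 n4 n5 hN s1 s2 c0 c1 c1' c3 c3'; omega)
          (by clear n1 n2 n3 n4 n5 hN s1 s2 c0 c1 c1' c3 c3'; omega)
    · exact chUR hi hX hb par hW hQ hQ' n1 n3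
          s2
          (by clear n1 n2 n3 n4 n5 hN s1 s2 c0 c1 c1' c3 c3' c2; omega)
          (by clear n1 n2 n3 n4 n5 hN s1 s2 c0 c1 c1' c3 c3' c2; omega)
          (by clear n1 n2 n3 n4 n5 s1 s2 c0 c1 c1' c3 c3'; omega)
          (by clear n1 n2 n3 n5 s1 s2 c0 c1 c1' c3 c3' c2; omega)
          (by clear n1 n2 n3 n4 n5 hN s1 s2 c0 c1 c1' c3 c3' c2; omega)
          (by clear n1 n2 n3 n4 n5 hN s1 s2 c0 c1 c1' c3 c3' c2; omega)
  by_cases c4' : q' = b + 1 ∧ a₂ = 2 * X + i + 1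
  · by_cases c2 : q = b ∧ a₁ = 2 * X + i + 2
    · exact chVL hi hX hb par hW hP hP' n2 n4
          s1
          (by clear n1 n2 n3 n4 n5 hN s1 s2 c0 c1 c1' c3 c3' c4; omega)
          (by clear n1 n2 n3 n4 n5 hN s1 s2 c0 c1 c1' c3 c3' c4; omega)
          (by clear n1 n2 n3 n4 n5 hN s1 s2 c0 c1 c1' c3 c3' c4; omega)
          (by clear n1 n2 n3 n4 n5 hN s1 s2 c0 c1 c1' c3 c3' c4; omega)
          (by clear n1 n2 n3 n4 n5 hN s1 s2 c0 c1 c1' c3 c3' c4; omega)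
          (by clear n1 n2 n3 n4 n5 hN s1 s2 c0 c1 c1' c3 c3' c4; omega)
    · exact chUR hi hX hb par hW hQ hQ' n1 n3
          s2
          (by clear n1 n2 n3 n4 n5 s1 s2 c0 c1 c1' c3 c3' c4; omega)
          (by clear n1 n3 n4 n5 s1 s2 c0 c1 c1' c3 c3' c4 c2; omega)
          (by clear n1 n2 n3 n4 n5 hN s1 s2 c0 c1 c1' c3 c3' c4 c2; omega)
          (by clear n1 n2 n3 n4 n5 hN s1 s2 c0 c1 c1' c3 c3' c4 c2; omega)
          (by clear n1 n2 n3 n4 n5 hN s1 s2 c0 c1 c1' c3 c3' c4 c2; omega)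
          (by clear n1 n2 n3 n4 n5 hN s1 s2 c0 c1 c1' c3 c3' c4 c2; omega)
  exact chUL hi hX hb par hW hP hP' n1 n3
          s1
          (by clear n1 n2 n3 n4 n5 hN s1 s2 c0 c1' c3' c4 c4'; omega)
          (by clear n1 n3 n4 n5 hN s1 s2 c0 c1 c1' c3 c3' c4'; omega)
          (by clear n1 n2 n3 n4 n5 hN s1 s2 c0 c1 c3 c4 c4'; omega)
          (by clear n1 n2 n3 n5 hN s1 s2 c0 c1 c1' c3 c3' c4; omega)
          (by clear n1 n2 n3 n5 hN s1 s2 c1 c1' c3 c3' c4; omega)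
          (by clear n1 n3 n4 n5 hN s1 s2 c1 c1' c3 c3' c4'; omega)

end

end DA
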