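import Pool.Agent.DA.Geo

/-!
# Configurations of rays from a set of locations
-/

open Set BIC BICS
open scoped Matroid

namespace DA

open Gad

/-- The rays start in `Λ` and meet it only there. -/
def Ok (q : ℕ × ℕ) (L τ : ℕ) (Λ : Set (ℕ × ℕ)) (s : ℕ → ℕ × ℕ) : Prop :=
  Cfg q L τ s ∧ ∀ i < τ, s i ∈ Λ ∧ ∀ j, 1 ≤ j → j ≤ rp q L i (s i) → xp i (s i) j ∉ Λ

lemma left_ok {Λ : Finset (ℕ × ℕ)} {p : ℕ × ℕ} (h : ∀ v ∈ Λ, v.2 = p.2 → p.1 ≤ v.1) {j : ℕ}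
    (hj : 1 ≤ j) (hp : j ≤ p.1) : xp 0 p j ∉ (Λ : Set (ℕ × ℕ)) := by
  intro hcon
  have h1 := h _ hcon rfl
  have e : (xp 0 p j).1 = p.1 - j := rfl
  omega

lemma right_ok {Λ : Finset (ℕ × ℕ)} {p : ℕ × ℕ} (h : ∀ v ∈ Λ, v.2 = p.2 → v.1 ≤ p.1) {j : ℕ}
    (hj : 1 ≤ j) : xp 1 p j ∉ (Λ : Set (ℕ × ℕ)) := by
  intro hcon
  have h1 := h _ hcon rfl
  have e : (xp 1 p j).1 = p.1 + j := rfl
  omega

lemma up_ok {Λ : Finset (ℕ × ℕ)} {p : ℕ × ℕ} (h : ∀ v ∈ Λ, v.1 = p.1 → v.2 ≤ p.2) {j : ℕ}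
    (hj : 1 ≤ j) : xp 2 p j ∉ (Λ : Set (ℕ × ℕ)) := by
  intro hcon
  have h1 := h _ hcon rfl
  have e : (xp 2 p j).2 = p.2 + j := rfl
  omega

/-- One ray. -/
lemma ok1 {q : ℕ × ℕ} {L : ℕ} {Λ : Finset (ℕ × ℕ)} (hq : 1 ≤ q.1)
    (hin : ∀ v ∈ Λ, Inn q L v.1 v.2) (hne : Λ.Nonempty) : ∃ s, Ok q L 1 Λ s := by
  obtain ⟨p, hp, hmin⟩ := Finset.exists_min_image Λ Prod.fst hne
  refine ⟨fun _ => p, ⟨by omega, fun i _ => hin p hp, fun h => absurd h (by omega),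
    fun h => absurd h (by omega)⟩, ?_⟩
  intro i hi
  have hi0 : i = 0 := by omega
  subst hi0
  change p ∈ (Λ : Set (ℕ × ℕ)) ∧ ∀ j, 1 ≤ j → j ≤ rp q L 0 p → xp 0 p j ∉ (Λ : Set (ℕ × ℕ))
  refine ⟨hp, fun j hj1 hj2 => left_ok (fun v hv _ => hmin v hv) hj1 ?_⟩
  have h1 := hin p hp
  unfold Inn at h1
  have e : rp q L 0 p = p.1 - q.1 + 1 := rfl
  omega

/-- Two rays. -/
lemma ok2 {q : ℕ × ℕ} {L : ℕ} {Λ : Finset (ℕ × ℕ)} (hq : 1 ≤ q.1)
    (hin : ∀ v ∈ Λ, Inn q L v.1 v.2) (hc : 2 ≤ Λ.card) : ∃ s, Ok q L 2 Λ s := by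
  classical
  have hne : Λ.Nonempty := by rw [← Finset.card_pos]; omega
  -- two points, a leftmost and a rightmost one
  obtain ⟨p, hp, p', hp', hne', hmin, hmax⟩ : ∃ p ∈ Λ, ∃ p' ∈ Λ, p ≠ p' ∧
      (∀ v ∈ Λ, p.1 ≤ v.1) ∧ ∀ v ∈ Λ, v.1 ≤ p'.1 := by
    obtain ⟨p, hp, hmin⟩ := Finset.exists_min_image Λ Prod.fst hne
    obtain ⟨p', hp', hmax⟩ := Finset.exists_max_image Λ Prod.fst hne
    by_cases h : p = p'
    · obtain ⟨p'', hp'', h2⟩ := Finset.exists_mem_ne (show 1 < Λ.card by omega) p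
      refine ⟨p, hp, p'', hp'', fun h3 => h2 h3.symm, hmin, ?_⟩
      intro v hv
      have h3 := hmax v hv
      have h4 := hmin p'' hp''
      rw [← h] at h3
      exact h3.trans h4
    · exact ⟨p, hp, p', hp', h, hmin, hmax⟩
  refine ⟨fun i => if i = 0 then p else p', ⟨by omega, ?_, ?_, fun h => absurd h (by omega)⟩, ?_⟩
  · intro i _
    by_cases h : i = 0
    · rw [if_pos h]; exact hin p hp
    · rw [if_neg h]; exact hin p' hp'
  · intro _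
    change p.1 ≤ p'.1 ∧ (p.1 = p'.1 → p.2 ≠ p'.2)
    exact ⟨hmin p' hp', fun h1 h2 => hne' (Prod.ext h1 h2)⟩
  · intro i hi
    have hi0 : i = 0 ∨ i = 1 := by omega
    rcases hi0 with rfl | rfl
    · change p ∈ (Λ : Set (ℕ × ℕ)) ∧ ∀ j, 1 ≤ j → j ≤ rp q L 0 p → xp 0 p j ∉ (Λ : Set (ℕ × ℕ))
      refine ⟨hp, fun j hj1 hj2 => left_ok (fun v hv _ => hmin v hv) hj1 ?_⟩
      have h1 := hin p hp
      unfold Inn at h1
      have e : rp q L 0 p = p.1 - q.1 + 1 := rfl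
      omega
    · exact ⟨hp', fun j hj1 hj2 => right_ok (fun v hv _ => hmax v hv) hj1⟩

/-- Three rays, given the three starting points. -/
lemma ok3_of {q : ℕ × ℕ} {L : ℕ} {Λ : Finset (ℕ × ℕ)} (hq : 1 ≤ q.1)
    (hin : ∀ v ∈ Λ, Inn q L v.1 v.2) {p p' p'' : ℕ × ℕ} (hp : p ∈ Λ) (hp' : p' ∈ Λ)
    (hp'' : p'' ∈ Λ) (h1 : ∀ v ∈ Λ, p.1 ≤ v.1) (h2 : ∀ v ∈ Λ, v.1 ≤ p'.1)
    (h3 : ∀ v ∈ Λ, v.1 = p''.1 → v.2 ≤ p''.2) (hlt : p.1 < p'.1)
    (h4 : p''.1 = p.1 → p ≠ p'') (h5 : p''.1 = p'.1 → p' ≠ p'') : ∃ s, Ok q L 3 Λ s := by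
  refine ⟨fun i => if i = 0 then p else if i = 1 then p' else p'', ⟨le_rfl, ?_, ?_, ?_⟩, ?_⟩
  · intro i _
    by_cases h : i = 0
    · rw [if_pos h]; exact hin p hp
    · by_cases h' : i = 1
      · rw [if_neg h, if_pos h']; exact hin p' hp'
      · rw [if_neg h, if_neg h']; exact hin p'' hp''
  · intro _
    exact ⟨hlt.le, fun h => absurd h hlt.ne⟩
  · intro _
    change p.1 < p'.1 ∧ p.1 ≤ p''.1 ∧ p''.1 ≤ p'.1 ∧ (p''.1 = p.1 → p.2 < p''.2) ∧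
      (p''.1 = p'.1 → p'.2 < p''.2)
    refine ⟨hlt, h1 p'' hp'', h2 p'' hp'', fun h => ?_, fun h => ?_⟩
    · have h6 := h3 p hp h.symm
      rcases Nat.lt_or_eq_of_le h6 with h7 | h7
      · exact h7
      · exact absurd (Prod.ext h.symm h7) (h4 h)
    · have h6 := h3 p' hp' h.symm
      rcases Nat.lt_or_eq_of_le h6 with h7 | h7
      · exact h7
      · exact absurd (Prod.ext h.symm h7) (h5 h)
  · intro i hi
    have hi0 : i = 0 ∨ i = 1 ∨ i = 2 := by omega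
    rcases hi0 with rfl | rfl | rfl
    · change p ∈ (Λ : Set (ℕ × ℕ)) ∧ ∀ j, 1 ≤ j → j ≤ rp q L 0 p → xp 0 p j ∉ (Λ : Set (ℕ × ℕ))
      refine ⟨hp, fun j hj1 hj2 => left_ok (fun v hv _ => h1 v hv) hj1 ?_⟩
      have h6 := hin p hp
      unfold Inn at h6
      have e : rp q L 0 p = p.1 - q.1 + 1 := rfl
      omega
    · exact ⟨hp', fun j hj1 hj2 => right_ok (fun v hv _ => h2 v hv) hj1⟩
    · exact ⟨hp'', fun j hj1 hj2 => up_ok h3 hj1⟩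

/-- Three rays, two different columns. -/
lemma ok3_x {q : ℕ × ℕ} {L : ℕ} {Λ : Finset (ℕ × ℕ)} (hq : 1 ≤ q.1)
    (hin : ∀ v ∈ Λ, Inn q L v.1 v.2) (hc : 3 ≤ Λ.card)
    (hx : ∃ v ∈ Λ, ∃ w ∈ Λ, v.1 < w.1) : ∃ s, Ok q L 3 Λ s := by
  classical
  have hne : Λ.Nonempty := by rw [← Finset.card_pos]; omega
  obtain ⟨p, hp, hmin⟩ := Finset.exists_min_image Λ Prod.fst hne
  obtain ⟨p', hp', hmax⟩ := Finset.exists_max_image Λ Prod.fst hne
  obtain ⟨v, hv, w, hw, hvw⟩ := hx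
  have hlt : p.1 < p'.1 := by
    have h1 := hmin v hv
    have h2 := hmax w hw
    omega
  -- the topmost point of a column
  have htop : ∀ a : ℕ, (Λ.filter (fun u => u.1 = a)).Nonempty → ∃ p'' ∈ Λ, p''.1 = a ∧
      ∀ u ∈ Λ, u.1 = a → u.2 ≤ p''.2 := by
    intro a ha
    obtain ⟨p'', h1, h2⟩ := Finset.exists_max_image _ Prod.snd ha
    rw [Finset.mem_filter] at h1
    exact ⟨p'', h1.1, h1.2, fun u hu hua => h2 u (Finset.mem_filter.2 ⟨hu, hua⟩)⟩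
  by_cases hmid : ∃ u ∈ Λ, p.1 < u.1 ∧ u.1 < p'.1
  · obtain ⟨u, hu, h1, h2⟩ := hmid
    obtain ⟨p'', h3, h4, h5⟩ := htop u.1 ⟨u, Finset.mem_filter.2 ⟨hu, rfl⟩⟩
    exact ok3_of hq hin hp hp' h3 hmin hmax (fun u hu h => h5 u hu (h.trans h4)) hlt
      (fun h => by omega) (fun h => by omega)
  · push Not at hmid
    -- two columns
    have hcol : ∀ u ∈ Λ, u.1 = p.1 ∨ u.1 = p'.1 := by
      intro u hu
      have h1 := hmin u hu
      have h2 := hmax u hu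
      by_contra hcon
      push Not at hcon
      have := hmid u hu (by omega)
      omega
    have hcard : Λ.card ≤ (Λ.filter (fun u => u.1 = p.1)).card +
        (Λ.filter (fun u => u.1 = p'.1)).card := by
      refine le_trans (Finset.card_le_card ?_) (Finset.card_union_le _ _)
      intro u hu
      rw [Finset.mem_union, Finset.mem_filter, Finset.mem_filter]
      rcases hcol u hu with h | h
      · exact Or.inl ⟨hu, h⟩
      · exact Or.inr ⟨hu, h⟩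
    by_cases h2 : 2 ≤ (Λ.filter (fun u => u.1 = p.1)).card
    · obtain ⟨p'', h3, h4, h5⟩ := htop p.1 (by rw [← Finset.card_pos]; omega)
      obtain ⟨p₀, h6, h7⟩ := Finset.exists_mem_ne
        (show 1 < (Λ.filter (fun u => u.1 = p.1)).card by omega) p''
      rw [Finset.mem_filter] at h6
      exact ok3_of hq hin h6.1 hp' h3 (fun u hu => by rw [h6.2]; exact hmin u hu) hmax
        (fun u hu h => h5 u hu (h.trans h4)) (by rw [h6.2]; exact hlt) (fun _ => h7)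
        (fun h => by omega)
    · obtain ⟨p'', h3, h4, h5⟩ := htop p'.1 ⟨p', Finset.mem_filter.2 ⟨hp', rfl⟩⟩
      obtain ⟨p₀, h6, h7⟩ := Finset.exists_mem_ne
        (show 1 < (Λ.filter (fun u => u.1 = p'.1)).card by omega) p''
      rw [Finset.mem_filter] at h6
      exact ok3_of hq hin hp h6.1 h3 hmin (fun u hu => by rw [h6.2]; exact hmax u hu)
        (fun u hu h => h5 u hu (h.trans h4)) (by rw [h6.2]; exact hlt)
        (fun h => by omega) (fun _ => h7)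

/-- Three rays, up to transposition. -/
lemma ok3 {q : ℕ × ℕ} {L : ℕ} {Λ : Finset (ℕ × ℕ)} (hq : 1 ≤ q.1) (hq' : 1 ≤ q.2)
    (hin : ∀ v ∈ Λ, Inn q L v.1 v.2) (hc : 3 ≤ Λ.card) :
    (∃ s, Ok q L 3 Λ s) ∨ ∃ s, Ok q.swap L 3 (Λ.image Prod.swap : Finset (ℕ × ℕ)) s := by
  classical
  by_cases hx : ∃ v ∈ Λ, ∃ w ∈ Λ, v.1 < w.1
  · exact Or.inl (ok3_x hq hin hc hx)
  · right
    push Not at hx
    have hinj : (Λ.image Prod.swap).card = Λ.card :=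
      Finset.card_image_of_injective _ Prod.swap_injective
    refine ok3_x (q := q.swap) hq' ?_ (by rw [hinj]; exact hc) ?_
    · intro v hv
      obtain ⟨u, hu, rfl⟩ := Finset.mem_image.1 hv
      have h1 := hin u hu
      unfold Inn at h1 ⊢
      simp only [Prod.fst_swap, Prod.snd_swap]
      omega
    · obtain ⟨u, hu, w, hw, hne⟩ := Finset.one_lt_card.1 (show 1 < Λ.card by omega)
      have h1 : u.1 = w.1 := le_antisymm (hx w hw u hu) (hx u hu w hw)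
      rcases Nat.lt_trichotomy u.2 w.2 with h2 | h2 | h2
      · exact ⟨u.swap, Finset.mem_image_of_mem _ hu, w.swap, Finset.mem_image_of_mem _ hw, h2⟩
      · exact absurd (Prod.ext h1 h2) hne
      · exact ⟨w.swap, Finset.mem_image_of_mem _ hw, u.swap, Finset.mem_image_of_mem _ hu, h2⟩

end DA
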