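import Pool.Agent.DA.ExtWall

/-!
# Square charts of a strip, and many groups of vertices of the brick wall
-/

open Set BIC BICS
open scoped Matroid

namespace DA

open Gad

universe u

/-- A square chart of a strip. -/
lemma chart {α : Type*} {P : Matroid α} [P.Finite] {S : Set α} {ends : α → Sym2 (ℕ × ℕ)}
    {n b Y : ℕ} (hn : 2 ≤ n) (hY : Y = 0 ∨ 2 ≤ Y) (hYb : Y + n = b ∨ Y + n + 2 ≤ b)
    (hB : Bic P S ends) (hG : CWL.GrdU S ends (rect 0 0 n b)) :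
    ∃ F, FullB S ends (rect 0 0 n b \ rect 0 Y n n) F ∧
      RGrd (P ／ F) (ins S ends (rect 0 0 n b \ rect 0 Y n n)ᶜ) ends (rect 0 Y n n) ∧
      Rep (ins S ends (rect 0 0 n b \ rect 0 Y n n)ᶜ) ends (rect 0 Y n n)
        (ins S ends (rect 0 0 n b \ rect 0 Y n n)ᶜ) ∧
      ∃ F₂, FullB (ins S ends (rect 0 0 n b \ rect 0 Y n n)ᶜ) ends (rect 0 Y n n) F₂ := by
  classical
  obtain ⟨U, hU⟩ : ∃ U : Set (ℕ × ℕ), U = rect 0 0 n b \ rect 0 Y n n := ⟨_, rfl⟩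
  rw [← hU]
  have hUf : U.Finite := by rw [hU]; exact (rect_finite _ _ _ _).subset sdiff_subset
  have hsubR : ∀ v : ℕ × ℕ, v ∈ rect 0 Y n n → v ∈ rect 0 0 n b := by
    intro v hv
    rw [Gad.mem_rct] at hv ⊢
    omega
  have hmemU : ∀ v : ℕ × ℕ, v ∈ U ↔ v.1 < n ∧ v.2 < b ∧ (v.2 < Y ∨ Y + n ≤ v.2) := by
    intro v
    rw [hU, mem_sdiff, Gad.mem_rct, Gad.mem_rct]
    omega
  obtain ⟨F, hF⟩ : ∃ F, FullB S ends U F := by
    refine full_of_fat (U := rect 0 0 n b) (fun p q hpq hp hq => hG.surj p q hpq hp hq) _ _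
      hUf rfl (by rw [hU]; exact sdiff_subset) ?_
    rintro ⟨u1, u2⟩ hu
    rw [hmemU] at hu
    simp only at hu
    refine fat_corner (x := if u1 + 1 < n then u1 else u1 - 1)
      (y := if u2 + 1 = Y ∨ u2 + 1 = b then u2 - 1 else u2) ?_ ?_ ?_
    · split_ifs <;> omega
    · split_ifs <;> omega
    · intro s t h1 h2 h3 h4
      rw [hmemU]
      simp only
      split_ifs at h1 h2 h3 h4 <;> omega
  obtain ⟨S', hS'⟩ : ∃ S', S' = ins S ends Uᶜ := ⟨_, rfl⟩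
  rw [← hS']
  have hS'S : S' ⊆ S := by rw [hS']; exact fun e he => he.1
  have hS'm : ∀ e ∈ S', ∀ v ∈ ends e, v ∈ rect 0 Y n n := by
    intro e he v hv
    rw [hS'] at he
    by_contra hcon
    refine he.2 v hv ?_
    rw [hU]
    exact ⟨grd_end hG he.1 hv, hcon⟩
  have hG' : CWL.GrdU S' ends (rect 0 Y n n) := by
    refine ⟨fun a ha b hb hab => hG.inj (hS'S ha) (hS'S hb) hab, ?_, ?_⟩
    · intro e he
      obtain ⟨p, q, h1, h2, _, _⟩ := hG.mem e (hS'S he)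
      refine ⟨p, q, h1, h2, hS'm e he p (by rw [h1]; simp), hS'm e he q (by rw [h1]; simp)⟩
    · intro p q hpq hp hq
      obtain ⟨e, he, h1⟩ := hG.surj p q hpq (hsubR p hp) (hsubR q hq)
      refine ⟨e, ?_, h1⟩
      rw [hS']
      refine ⟨he, ?_⟩
      intro v hv
      rw [h1, Sym2.mem_iff] at hv
      rw [hU]
      rcases hv with rfl | rfl
      · exact fun h => h.2 hp
      · exact fun h => h.2 hq
  have hPF : (P ／ F).Finite := BQ.fin_contract F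
  have hB' : Bic (P ／ F) S' ends := by
    rw [hS']
    exact (Elim.of_full hF).bic hB
  obtain ⟨F₂, hF₂⟩ : ∃ F₂, FullB S' ends (rect 0 Y n n) F₂ := by
    refine full_of_fat (U := rect 0 Y n n) (fun p q hpq hp hq => hG'.surj p q hpq hp hq) _ _
      (rect_finite _ _ _ _) rfl subset_rfl ?_
    rintro ⟨u1, u2⟩ hu
    rw [Gad.mem_rct] at hu
    simp only at hu
    refine fat_corner (x := if u1 + 1 < n then u1 else u1 - 1)
      (y := if u2 + 1 < Y + n then u2 else u2 - 1) ?_ ?_ ?_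
    · split_ifs <;> omega
    · split_ifs <;> omega
    · intro s t h1 h2 h3 h4
      rw [Gad.mem_rct]
      simp only
      split_ifs at h1 h2 h3 h4 <;> omega
  refine ⟨F, hF, ⟨hB'.sub, hG'.mem, hG'.surj, ?_⟩, ⟨subset_rfl, hG'⟩, F₂, hF₂⟩
  intro c hc hcG
  have h1 : c = S' := by
    refine subset_antisymm hc (fun e he => ?_)
    obtain ⟨p, q, h1, h2, h3, h4⟩ := hG'.mem e he
    obtain ⟨e', he', h5⟩ := hcG.surj p q h2 h3 h4
    rwa [hG'.inj he (hc he') (h1.trans h5.symm)]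
  rw [h1, sdiff_self, Matroid.contract_empty]
  exact hB'

/-- **EXT-WALL.**  Many far apart groups of vertices of the brick wall which see the same `K`
elements completely. -/
theorem ext_wall (k : ℕ) : ∃ K Q D δ : ℕ, ∀ {α : Type u} (P : Matroid α) [P.Finite] (S : Set α)
    (ends : α → Sym2 (ℕ × ℕ)) (w : ℕ), Bic P S ends → WallE S ends w ∅ →
    ∀ B : Finset α, (B : Set α) ⊆ P.closure S → Disjoint (B : Set α) S → B.card = K →
    ∀ G : Fin Q → Finset (ℕ × ℕ), (∀ a, (G a).card = K) →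
    (∀ a, ∀ v ∈ G a, DeepR (0, 0) (w + 1) (w + 1) D v) →
    (∀ a b, ∀ v ∈ G a, ∀ u ∈ G b, (a, v) ≠ (b, u) → Apart δ v u) →
    (∀ a, rk P (ins S ends ((G a : Finset (ℕ × ℕ)) : Set (ℕ × ℕ))ᶜ ∪ (B : Set α)) =
      rk P (ins S ends ((G a : Finset (ℕ × ℕ)) : Set (ℕ × ℕ))ᶜ) + K) → HasUniformMinor P k := by
  classical
  obtain ⟨K₀, Q₀, D₀, δ₀, hext⟩ := ext_row.{u} k
  obtain ⟨K, hK⟩ : ∃ K, K = 50 * (K₀ + 1) := ⟨_, rfl⟩
  obtain ⟨Q, hQ⟩ : ∃ Q, Q = 50 * 2 ^ K * (Q₀ + 1) + 1 := ⟨_, rfl⟩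
  refine ⟨K, Q, 12 * D₀ + 60, 3 * δ₀ + 20, ?_⟩
  intro α P _ S ends w hB hW B hBcl hBS hBc G hGc hGd hGa hvis
  have hBE : (B : Set α) ⊆ P.E := hBcl.trans (P.closure_subset_ground _)
  have hDc : ∀ a, ∀ v ∈ G a, 12 * D₀ + 60 ≤ v.1 ∧ 12 * D₀ + 60 ≤ v.2 ∧
      v.1 + (12 * D₀ + 60) ≤ w + 1 ∧ v.2 + (12 * D₀ + 60) ≤ w + 1 := by
    intro a v hv
    have := hGd a v hv
    unfold DeepR at this
    simp only at this
    omega
  have hw : 24 * D₀ + 120 ≤ w + 1 := by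
    obtain ⟨v, hv⟩ : (G ⟨0, by omega⟩).Nonempty := Finset.card_pos.1 (by rw [hGc]; omega)
    have := hDc _ v hv
    omega
  -- the five quotients
  have hqq : ∀ τ : Fin 5, ∃ (ζ : ℕ × ℕ → α) (S' : Set α),
      Star S ends (rect 0 0 (w + 1) (w + 1)) (rB (nb5 (tyA τ) (tyM w τ) w)
        (fun _ => sg (tyA τ) (tyM w τ))) (cB (fun _ => sg (tyA τ) (tyM w τ))) ζ ∧
      S' ⊆ S \ (ζ '' lvs (rect 0 0 (w + 1) (w + 1)) (rB (nb5 (tyA τ) (tyM w τ) w)
        (fun _ => sg (tyA τ) (tyM w τ))) (cB (fun _ => sg (tyA τ) (tyM w τ)))) ∧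
      Bic (P ／ (ζ '' lvs (rect 0 0 (w + 1) (w + 1)) (rB (nb5 (tyA τ) (tyM w τ) w)
        (fun _ => sg (tyA τ) (tyM w τ))) (cB (fun _ => sg (tyA τ) (tyM w τ))))) S'
        (fun e => (ends e).map (rB (nb5 (tyA τ) (tyM w τ) w) (fun _ => sg (tyA τ) (tyM w τ)))) ∧
      CWL.GrdU S' (fun e => (ends e).map (rB (nb5 (tyA τ) (tyM w τ) w)
        (fun _ => sg (tyA τ) (tyM w τ)))) (rect 0 0 (nb5 (tyA τ) (tyM w τ) w) (w + 1)) :=
    fun τ => (blk_sg (ty_ok (by omega) τ)).quot hB hW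
  choose ζ S' hq using hqq
  -- the groups
  have hone := fun a => one_group hB hW ζ S' hq B hBE (G a) D₀ K₀ (by rw [hGc, hK]) (hGd a)
    (fun v hv v' hv' hne => (hGa a a v hv v' hv' (by simpa using hne)).mono (by omega)) (by
      rw [hvis, hGc])
  choose τ' χ' J' B' h1 h2 h3 h4 h5 h6 using hone
  obtain ⟨⟨τ, χ, B₀⟩, hmem, a, ha1, ha2⟩ := table 1 (Q₀ + 1)
    ((Finset.univ : Finset (Fin 5)) ×ˢ (Finset.range 10 ×ˢ B.powerset))
    (fun a => (τ' a, χ' a, B' a)) (by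
      intro a
      rw [Finset.mem_product, Finset.mem_product]
      exact ⟨Finset.mem_univ _, Finset.mem_range.2 (h1 a), Finset.mem_powerset.2 (h3 a)⟩) (by
      rw [Finset.card_product, Finset.card_product, Finset.card_range, Finset.card_powerset, hBc,
        Finset.card_univ, Fintype.card_fin, hQ, one_mul]
      have : 5 * (10 * 2 ^ K) = 50 * 2 ^ K := by ring
      rw [this]
      omega)
  have e1 : ∀ j, τ' (a 0 j) = τ := fun j => congrArg Prod.fst (ha2 0 j)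
  have e2 : ∀ j, χ' (a 0 j) = χ := fun j => congrArg (fun x => x.2.1) (ha2 0 j)
  have e3 : ∀ j, B' (a 0 j) = B₀ := fun j => congrArg (fun x => x.2.2) (ha2 0 j)
  have hB₀c : B₀.card = K₀ := by
    rw [← e3 0]
    exact h4 _
  have hB₀B : B₀ ⊆ B := by
    rw [← e3 0]
    exact h3 _
  have hJ1 : ∀ j, ∀ u ∈ J' (a 0 j), ∃ v ∈ G (a 0 j), u.2 = v.2 ∧
      (sg (tyA τ) (tyM w τ) u.1 = v.1 ∨ sg (tyA τ) (tyM w τ) u.1 = v.1 + 1) ∧
      (v.2 - (D₀ + 2)) / ((w + 1) / 8) = χ := by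
    intro j
    have := h5 (a 0 j)
    rw [e1 j, e2 j] at this
    exact this
  have hJ2 : ∀ j, rk P (YJ (S' τ) ends w (nb5 (tyA τ) (tyM w τ) w)
      (fun _ => sg (tyA τ) (tyM w τ)) (ζ τ) ((J' (a 0 j) : Finset (ℕ × ℕ)) : Set (ℕ × ℕ)) ∪
        (B₀ : Set α)) =
      rk P (YJ (S' τ) ends w (nb5 (tyA τ) (tyM w τ) w) (fun _ => sg (tyA τ) (tyM w τ)) (ζ τ)
        ((J' (a 0 j) : Finset (ℕ × ℕ)) : Set (ℕ × ℕ))) + K₀ := by
    intro j
    have := h6 (a 0 j)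
    rw [e1 j, e3 j] at this
    exact this
  have hty := ty_ok (w := w) (by omega) τ
  obtain ⟨hst, hS'sub, hB₁, hG₁⟩ := hq τ
  clear h1 h2 h3 h4 h5 h6 e1 e2 e3 ha2 hq
  generalize tyA τ = aa at hty hst hS'sub hB₁ hG₁ hJ1 hJ2
  generalize tyM w τ = mm at hty hst hS'sub hB₁ hG₁ hJ1 hJ2
  generalize ζ τ = ζ₁ at hst hS'sub hB₁ hG₁ hJ1 hJ2
  generalize S' τ = S₁ at hst hS'sub hB₁ hG₁ hJ1 hJ2
  obtain ⟨n, hn⟩ : ∃ n, n = nb5 aa mm w := ⟨_, rfl⟩
  have hn3 : w + 1 ≤ 3 * n ∧ 2 * n ≤ w + 1 := by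
    have hl := sg_last hty
    have hbd := sg_bd aa mm (nb5 aa mm w - 1)
    have : 1 ≤ nb5 aa mm w := by unfold nb5; omega
    rw [hn]
    omega
  have hposn : ∀ j, ∀ u ∈ J' (a 0 j), D₀ + 10 ≤ u.1 ∧ u.1 + D₀ + 10 ≤ n ∧ D₀ + 2 + χ * ((w + 1) / 8)
      ≤ u.2 ∧ u.2 < D₀ + 2 + (χ + 1) * ((w + 1) / 8) ∧ u.2 + D₀ + 10 ≤ w + 1 := by
    intro j u hu
    obtain ⟨v, hv, h1, h2, h3⟩ := hJ1 j u hu
    have h4 := hDc _ v hv
    have h5 := sg_pos hty h2 h4.1 h4.2.2.1 (by omega)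
    rw [← hn] at h5
    have h6 := Nat.div_mul_le_self (v.2 - (D₀ + 2)) ((w + 1) / 8)
    have h7 := Nat.lt_div_mul_add (a := v.2 - (D₀ + 2)) (b := (w + 1) / 8) (by omega)
    rw [h3] at h6 h7
    rw [add_mul, one_mul]
    omega
  rw [← hn] at hst hS'sub hB₁ hG₁ hJ2
  obtain ⟨σ, hσ⟩ : ∃ σ : ℕ → ℕ → ℕ, σ = fun _ => sg aa mm := ⟨_, rfl⟩
  rw [← hσ] at hst hS'sub hB₁ hG₁ hJ2
  obtain ⟨Z, hZ⟩ : ∃ Z, Z = ζ₁ '' lvs (rect 0 0 (w + 1) (w + 1)) (rB n σ) (cB σ) := ⟨_, rfl⟩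
  obtain ⟨en, hen⟩ : ∃ en : α → Sym2 (ℕ × ℕ), en = fun e => (ends e).map (rB n σ) := ⟨_, rfl⟩
  have hYJ : ∀ J : Set (ℕ × ℕ), YJ S₁ ends w n σ ζ₁ J = ins S₁ en Jᶜ ∪ Z := by
    intro J
    rw [hZ, hen]
    rfl
  rw [← hZ] at hS'sub hB₁
  rw [← hen] at hB₁ hG₁
  simp only [hYJ] at hJ2
  -- the chart
  obtain ⟨Y, hY⟩ : ∃ Y, Y = if χ * ((w + 1) / 8) + n + 2 ≤ w + 1 then χ * ((w + 1) / 8)
    else w + 1 - n := ⟨_, rfl⟩
  have hY1 : (Y = 0 ∨ 2 ≤ Y) ∧ (Y + n = w + 1 ∨ Y + n + 2 ≤ w + 1) := by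
    rcases Nat.eq_zero_or_pos χ with h | h
    · subst h
      split_ifs at hY <;> omega
    · have := Nat.mul_le_mul_right ((w + 1) / 8) h
      split_ifs at hY <;> omega
  have hY2 : ∀ j, ∀ u ∈ J' (a 0 j), Deep (0, Y) n D₀ u ∧ u ∈ rect 0 Y n n := by
    intro j u hu
    have h1 := hposn j u hu
    rw [Gad.mem_rct]
    unfold Deep
    simp only
    rw [add_mul, one_mul] at h1
    split_ifs at hY <;> omega
  have hZP : Z ⊆ P.E := by
    rw [hZ]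
    exact hst.sub.trans hB.sub
  have hP₁ : (P ／ Z).Finite := BQ.fin_contract Z
  obtain ⟨F, hF, hR, hRep, F₂, hF₂⟩ := chart (n := n) (b := w + 1) (Y := Y) (by omega) hY1.1 hY1.2
    hB₁ hG₁
  obtain ⟨U, hU⟩ : ∃ U : Set (ℕ × ℕ), U = rect 0 0 n (w + 1) \ rect 0 Y n n := ⟨_, rfl⟩
  obtain ⟨S₂, hS₂⟩ : ∃ S₂, S₂ = ins S₁ en Uᶜ := ⟨_, rfl⟩
  rw [← hU] at hF hR hRep hF₂
  rw [← hS₂] at hR hRep hF₂
  have hS₂S₁ : S₂ ⊆ S₁ := by rw [hS₂]; exact fun e he => he.1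
  have hS₁S : S₁ ⊆ S := fun e he => (hS'sub he).1
  have hS₂S : S₂ ⊆ S := hS₂S₁.trans hS₁S
  have hFS : F ⊆ S := fun e he => hS₁S (hF.1 he).1
  have hZS : Z ⊆ S := by rw [hZ]; exact hst.sub
  have hFZ : Disjoint F Z := by
    rw [Set.disjoint_left]
    exact fun e he heZ => (hS'sub (hF.1 he).1).2 heZ
  have hFP : F ⊆ (P ／ Z).E := fun e he => hB₁.sub (hF.1 he).1
  have hS₂F : Disjoint S₂ F := by
    rw [Set.disjoint_left]
    intro e he heF
    obtain ⟨v, hv⟩ := exists_mem_ends en e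
    rw [hS₂] at he
    exact he.2 v hv ((hF.1 heF).2 v hv)
  have hB₀S : Disjoint (B₀ : Set α) S := hBS.mono_left (Finset.coe_subset.2 hB₀B)
  have hB₀E : (B₀ : Set α) ⊆ P.E := (Finset.coe_subset.2 hB₀B).trans hBE
  -- the minor
  have hmin : P ／ Z ／ F ≤m P := by
    have h1 := (P ／ Z).contract_delete_isMinor F ∅
    have h2 := P.contract_delete_isMinor Z ∅
    rw [Matroid.delete_empty] at h1 h2
    exact h1.trans h2
  have hfin : (P ／ Z ／ F).Finite := BQ.fin_contract F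
  refine HasUniformMinor_mono (hext (P ／ Z ／ F) S₂ en (0, Y) n hR S₂ hRep B₀ ?_
    (hB₀S.mono_right hS₂S) hB₀c (fun j => J' (a 0 (Fin.castSucc j))) ?_ ?_ ?_) hmin
  · -- the closure
    have hun : rect 0 Y n n ∪ U = rect 0 0 n (w + 1) := by
      rw [hU, union_sdiff_self]
      apply union_eq_right.2
      intro v hv
      rw [Gad.mem_rct] at hv ⊢
      omega
    have h1 := (FullB.mono_S hF₂ hS₂S₁).union hF (by
      rw [Set.disjoint_left, hU]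
      exact fun v hv hv' => hv'.2 hv)
    rw [hun] at h1
    have h2 : S ⊆ P.closure (F₂ ∪ F ∪ Z) := by
      rw [hen] at h1
      rw [hZ] at hS'sub ⊢
      refine subset_trans ?_ (hst.span hB (rect_finite _ _ _ _) (wall_end hW) hS'sub
        (rect_finite _ _ _ _) h1)
      intro e he
      refine ⟨he, fun v hv => ?_⟩
      have hvm := wall_end hW e he v hv
      rw [Gad.mem_rct] at hvm
      show (min (hx (σ v.2) v.1) (n - 1), v.2) ∈ rect 0 0 n (w + 1)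
      rw [Gad.mem_rct]
      simp only
      omega
    intro z hz
    have hzS : z ∉ S := Set.disjoint_left.1 hB₀S hz
    rw [con_cl (fun h => hzS (hFS h)), con_cl (fun h => hzS (hZS h))]
    refine P.closure_subset_closure ?_ (P.closure_subset_closure_of_subset_closure h2
      (hBcl (hB₀B hz)))
    exact union_subset_union_left _ (union_subset_union_left _ (fun e he => (hF₂.1 he).1))
  · intro j v hv
    exact (hY2 _ v hv).1
  · intro i j u hu u' hu' hne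
    obtain ⟨v, hv, h1, h2, _⟩ := hJ1 _ u hu
    obtain ⟨v', hv', h1', h2', _⟩ := hJ1 _ u' hu'
    have hvv : (a 0 (Fin.castSucc i), v) ≠ (a 0 (Fin.castSucc j), v') := by
      intro h
      rw [Prod.mk.injEq] at h
      obtain ⟨h3, rfl⟩ := h
      have h4 := (ha1 _ _ _ _ h3).2
      rw [Fin.castSucc_inj] at h4
      apply hne
      rw [h4, Prod.mk.injEq]
      refine ⟨rfl, Prod.ext ?_ (h1.trans h1'.symm)⟩
      by_contra hne1
      rcases Nat.lt_or_gt_of_ne hne1 with h5 | h5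
      · have h6 := (sig_mono fun X => (sg_step aa mm X).1).monotone (show u.1 + 1 ≤ u'.1 from h5)
        have h7 := (sg_step aa mm u.1).1
        omega
      · have h6 := (sig_mono fun X => (sg_step aa mm X).1).monotone (show u'.1 + 1 ≤ u.1 from h5)
        have h7 := (sg_step aa mm u'.1).1
        omega
    have h3 := hGa _ _ v hv v' hv' hvv
    unfold Apart at h3 ⊢
    rcases h3 with h3 | h3 | h3 | h3
    · left
      have := sg_far h2 h2' h3 (by omega)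
      omega
    · right; left
      have := sg_far h2' h2 h3 (by omega)
      omega
    · right; right; left
      omega
    · right; right; right
      omega
  · intro j
    obtain ⟨J, hJ⟩ : ∃ J, J = J' (a 0 (Fin.castSucc j)) := ⟨_, rfl⟩
    have hJ2' := hJ2 (Fin.castSucc j)
    have hY2' := hY2 (Fin.castSucc j)
    rw [← hJ] at hJ2' hY2'
    show rk (P ／ Z ／ F) (S₂ \ {e | e ∈ S₂ ∧ ∃ v ∈ J' (a 0 (Fin.castSucc j)), v ∈ en e} ∪
      (B₀ : Set α)) = rk (P ／ Z ／ F) (S₂ \ {e | e ∈ S₂ ∧ ∃ v ∈ J' (a 0 (Fin.castSucc j)),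
        v ∈ en e}) + K₀
    rw [← hJ]
    have h1 : S₂ \ {e | e ∈ S₂ ∧ ∃ v ∈ J, v ∈ en e} ⊆ S₂ := sdiff_subset
    have h2 : S₂ \ {e | e ∈ S₂ ∧ ∃ v ∈ J, v ∈ en e} ⊆ ins S₁ en ((J : Finset (ℕ × ℕ)) :
        Set (ℕ × ℕ))ᶜ :=
      fun e he => ⟨hS₂S₁ he.1, fun v hv hvJ => he.2 ⟨he.1, v, hvJ, hv⟩⟩
    generalize S₂ \ {e | e ∈ S₂ ∧ ∃ v ∈ J, v ∈ en e} = X at h1 h2 ⊢
    have h3 : F ⊆ ins S₁ en ((J : Finset (ℕ × ℕ)) : Set (ℕ × ℕ))ᶜ := by
      intro e he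
      refine ⟨(hF.1 he).1, fun v hv hvJ => ?_⟩
      have h4 := (hF.1 he).2 v hv
      rw [hU] at h4
      exact h4.2 (hY2' v hvJ).2
    have h4 : X ∪ F ∪ Z ⊆ ins S₁ en ((J : Finset (ℕ × ℕ)) : Set (ℕ × ℕ))ᶜ ∪ Z :=
      union_subset_union_left _ (union_subset h2 h3)
    have h5 := skew_mono hJ2'.ge h4
    have h6 : rk P (X ∪ F ∪ Z ∪ (B₀ : Set α)) ≤ rk P (X ∪ F ∪ Z) + K₀ := by
      have := rk_union_le P (X := X ∪ F ∪ Z) (Y := (B₀ : Set α)) (Finset.finite_toSet _)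
      rwa [Set.ncard_coe_finset, hB₀c] at this
    have hXZ : ∀ T : Set α, T ⊆ (B₀ : Set α) → rk (P ／ Z ／ F) (X ∪ T) + rk (P ／ Z) F + rk P Z =
        rk P (X ∪ F ∪ Z ∪ T) := by
      intro T hT
      have hTS : ∀ e ∈ T, e ∉ S := fun e he => Set.disjoint_left.1 hB₀S (hT he)
      have g1 : X ∪ T ∪ F ⊆ P.E \ Z := by
        rintro e ((he | he) | he)
        · exact ⟨hB.sub (hS₂S (h1 he)), (hS'sub (hS₂S₁ (h1 he))).2⟩
        · exact ⟨hB₀E (hT he), fun h => hTS e he (hZS h)⟩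
        · exact ⟨hB.sub (hFS he), Set.disjoint_left.1 hFZ he⟩
      have g2 : X ∪ T ⊆ (P ／ Z).E \ F := by
        rintro e he
        refine ⟨g1 (Or.inl he), ?_⟩
        rcases he with he | he
        · exact Set.disjoint_left.1 hS₂F (h1 he)
        · exact fun h => hTS e he (hFS h)
      have g3 := BQ.rk_con hFP g2
      have g4 := BQ.rk_con hZP g1
      have g5 : X ∪ T ∪ F ∪ Z = X ∪ F ∪ Z ∪ T := by
        ext e
        simp only [mem_union]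
        tauto
      rw [g5] at g4
      omega
    have h7 := hXZ (B₀ : Set α) subset_rfl
    have h8 := hXZ ∅ (empty_subset _)
    rw [union_empty, union_empty] at h8
    omega

end DA
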