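import Pool.Agent.DA.Elim

/-!
# Contracting holes: the locations of an element are carried to the feet of its legs
-/

open Set BIC BICS
open scoped Matroid

namespace DA

open Gad

variable {α V : Type*}

/-- A leg: a path `x 0, …, x r`, inside `U` except for its last vertex, whose edges are in `F`;
the other elements of `F` avoid it. -/
def Leg (S : Set α) (ends : α → Sym2 V) (U : Set V) (F : Set α) (r : ℕ) (x : ℕ → V) : Prop :=
  ∃ e : ℕ → α, (∀ j < r, e j ∈ S ∧ ends (e j) = s(x j, x (j + 1))) ∧ InjOn x (Iic r) ∧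
    (∀ j < r, x j ∈ U) ∧ x r ∉ U ∧
    ∀ f ∈ F, f ∉ e '' Iio r → ∀ v ∈ ends f, v ∉ x '' Iic r

section

variable {M : Matroid α} {S : Set α} {ends : α → Sym2 V}

/-- **Locations after contraction of the holes.** -/
theorem clean_loc [M.Finite] (hB : Bic M S ends) {A : Set V} (hAf : A.Finite)
    (hSA : ∀ e ∈ S, ∀ v ∈ ends e, v ∈ A) (hA : VConn S ends A) {U : Set V} {F : Set α}
    (hE : Elim S ends U F) {z : α} (hz : z ∈ M.closure S) (hzS : z ∉ S)
    {Uz : Set V} {Fz F₀ : Set α} (hUzA : Uz ⊆ A) (hUz : Uz ⊆ U) (hUzne : Uz.Nonempty)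
    (hfull : FullB S ends Uz F₀) (hFz : Fz ⊆ F) (hEz : Elim S ends Uz Fz)
    (hloc : ∀ v ∈ A, v ∉ Uz → z ∈ M.closure (ins S ends {v}ᶜ)) {Φ : Set V}
    (hFzΦ : ∀ e ∈ Fz, ∀ v ∈ ends e, v ∈ Uz ∪ Φ)
    (hG : ∀ w, w ∉ Φ → ∃ GV G, FullB S ends GV G ∧ GV.Finite ∧ Φ ⊆ GV ∧ Disjoint GV U ∧ w ∉ GV)
    (hleg : ∀ f ∈ Φ, ∃ r x, x r = f ∧ Leg S ends U F r x ∧
      z ∉ M.closure (ins S ends {x 0}ᶜ) ∧
      ∀ j, 1 ≤ j → j ≤ r → z ∈ M.closure (ins S ends {x j}ᶜ)) :
    CWL.Loc (M ／ F) (ins S ends Uᶜ) ends z = Φ ∧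
      z ∈ (M ／ F).closure (ins S ends Uᶜ) ∧ z ∉ ins S ends Uᶜ := by
  have h1 : z ∈ M.closure (ins S ends Uz) :=
    loc_closure hB hAf hSA hA hz _ Uz F₀ rfl hUzA hUzne hfull hloc
  have hzF : z ∉ F := fun h => hzS (hE.1 h)
  have hFE : F ⊆ M.E := hE.1.trans hB.sub
  -- away from the feet
  have h2 : ∀ w, w ∉ Φ → z ∈ M.closure (ins (ins S ends Uᶜ) ends {w}ᶜ ∪ F) := by
    intro w hw
    obtain ⟨GV, G, g1, g2, g3, g4, g5⟩ := hG w hw
    have h3 : Elim S ends (GV ∪ Uz) (G ∪ Fz) :=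
      (Elim.of_full g1).union hEz (g4.mono_right hUz) (fun e he v hv hvU =>
        Set.disjoint_left.1 g4 ((g1.1 he).2 v hv) (hUz hvU))
    have h4 : FullB S ends (GV ∪ Uz) (G ∪ Fz) := by
      refine h3.full ?_
      rintro e (he | he) v hv
      · exact Or.inl ((g1.1 he).2 v hv)
      · rcases hFzΦ e he v hv with h5 | h5
        · exact Or.inr h5
        · exact Or.inl (g3 h5)
    have h5 := h4.closure hB (g2.union (hAf.subset hUzA))
    have h6 : z ∈ M.closure (G ∪ Fz) := by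
      rw [h5]
      exact M.closure_subset_closure (ins_mono subset_union_right) h1
    refine M.closure_subset_closure ?_ h6
    rintro e (he | he)
    · refine Or.inl ⟨⟨(g1.1 he).1, fun v hv hvU => Set.disjoint_left.1 g4 ((g1.1 he).2 v hv) hvU⟩,
        fun v hv => ?_⟩
      simp only [mem_compl_iff, mem_singleton_iff]
      rintro rfl
      exact g5 ((g1.1 he).2 _ hv)
    · exact Or.inr (hFz he)
  have hcl : ∀ Y : Set α, z ∈ (M ／ F).closure Y ↔ z ∈ M.closure (Y ∪ F) := by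
    intro Y
    rw [Matroid.contract_closure_eq]
    exact ⟨fun h => h.1, fun h => ⟨h, hzF⟩⟩
  refine ⟨?_, ?_, fun h => hzS h.1⟩
  · ext w
    constructor
    · intro hw
      by_contra hwΦ
      refine hw ?_
      rw [hcl]
      exact h2 w hwΦ
    · intro hw
      obtain ⟨r, x, hxr, ⟨e, he, hinj, hxU, hxr', hFx⟩, h0, hj⟩ := hleg w hw
      have h3 := carry hB he hinj h0 hj
      intro hcon
      change z ∈ (M ／ F).closure (ins (ins S ends Uᶜ) ends {w}ᶜ) at hcon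
      rw [hcl] at hcon
      refine h3 (M.closure_subset_closure ?_ hcon)
      rintro a (ha | ha)
      · refine Or.inr ⟨ha.1.1, fun v hv => ?_⟩
        rintro ⟨j, hj', rfl⟩
        rw [mem_Iic] at hj'
        by_cases hjr : j = r
        · rw [hjr] at hv
          exact ha.2 _ hv (by rw [hxr]; rfl)
        · exact ha.1.2 _ hv (hxU j (by omega))
      · by_cases h4 : a ∈ e '' Iio r
        · exact Or.inl h4
        · exact Or.inr ⟨hE.1 ha, fun v hv => hFx a ha h4 v hv⟩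
  · rw [hcl]
    obtain ⟨u, hu⟩ := hUzne
    have hinf : ∃ w, w ∉ Φ := ⟨u, fun h => by
      obtain ⟨r, x, hxr, ⟨e, he, hinj, hxU, hxr', hFx⟩, h0, hj⟩ := hleg u h
      exact hxr' (hxr ▸ hUz hu)⟩
    obtain ⟨w, hw⟩ := hinf
    refine M.closure_subset_closure ?_ (h2 w hw)
    exact union_subset_union_left _ (fun a ha => ha.1)

/-! ### One hole with several legs -/

/-- The edges of a path eliminate its vertices but the last one. -/
lemma path_elim {r : ℕ} {x : ℕ → V} {e : ℕ → α}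
    (he : ∀ j < r, e j ∈ S ∧ ends (e j) = s(x j, x (j + 1))) (hinj : InjOn x (Iic r)) :
    Elim S ends (x '' Iio r) (e '' Iio r) := by
  classical
  have hinj' : ∀ i < r, ∀ j < r, e i = e j → i = j := by
    intro i hi j hj hij
    have h1 := (he i hi).2
    rw [hij, (he j hj).2, Sym2.eq_iff] at h1
    rcases h1 with ⟨h2, _⟩ | ⟨h2, h3⟩
    · exact (hinj (show j ∈ Iic r by simp; omega) (show i ∈ Iic r by simp; omega) h2).symm
    · have h4 := hinj (show j ∈ Iic r by simp; omega) (show i + 1 ∈ Iic r by simp; omega) h2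
      have h5 := hinj (show j + 1 ∈ Iic r by simp; omega) (show i ∈ Iic r by simp; omega) h3
      omega
  have hch : ∀ a, ∃ i, a ∈ e '' Iio r → i < r ∧ e i = a := by
    intro a
    by_cases ha : a ∈ e '' Iio r
    · obtain ⟨i, hi, h⟩ := ha
      exact ⟨i, fun _ => ⟨hi, h⟩⟩
    · exact ⟨0, fun h => absurd h ha⟩
  choose g hg using hch
  refine ⟨?_, fun a => x (g a), ⟨?_, ?_, ?_⟩, ?_⟩
  · rintro _ ⟨i, hi, rfl⟩
    exact (he i hi).1
  · intro a ha
    exact ⟨g a, (hg a ha).1, rfl⟩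
  · intro a ha b hb hab
    have h1 := hinj (show g a ∈ Iic r by have := (hg a ha).1; simp; omega)
      (show g b ∈ Iic r by have := (hg b hb).1; simp; omega) hab
    rw [← (hg a ha).2, ← (hg b hb).2, h1]
  · rintro _ ⟨i, hi, rfl⟩
    have h1 := hg (e i) ⟨i, hi, rfl⟩
    refine ⟨e i, ⟨i, hi, rfl⟩, ?_⟩
    change x (g (e i)) = x i
    rw [hinj' _ h1.1 _ hi h1.2]
  · rintro a ha
    have h1 := hg a ha
    have h2 := (he _ h1.1).2
    rw [h1.2] at h2
    rw [h2]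
    exact Sym2.mem_mk_left _ _

/-- **A hole with legs.**  The legs are disjoint paths, the rest of the hole is grounded. -/
theorem hole_legs {κ : Type*} [DecidableEq κ] (J : Finset κ) {U : Set V} (x : κ → ℕ → V)
    (r : κ → ℕ) (e : κ → ℕ → α)
    (he : ∀ i ∈ J, ∀ j < r i, e i j ∈ S ∧ ends (e i j) = s(x i j, x i (j + 1)))
    (hinj : ∀ i ∈ J, InjOn (x i) (Iic (r i))) (hU : ∀ i ∈ J, ∀ j < r i, x i j ∈ U)
    (hf : ∀ i ∈ J, x i (r i) ∉ U)
    (hd : ∀ i ∈ J, ∀ i' ∈ J, i ≠ i' → Disjoint (x i '' Iic (r i)) (x i' '' Iic (r i')))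
    {FW : Set α} (hW : FullB S ends (U \ ⋃ i ∈ J, x i '' Iio (r i)) FW) :
    ∃ F, Elim S ends U F ∧ (∀ e ∈ F, ∀ v ∈ ends e, v ∈ U ∪ {w | ∃ i ∈ J, x i (r i) = w}) ∧
      ∀ i ∈ J, Leg S ends U F (r i) (x i) := by
  classical
  have hsub : ∀ i, x i '' Iio (r i) ⊆ x i '' Iic (r i) := fun i => image_mono Iio_subset_Iic_self
  have hends : ∀ i ∈ J, ∀ a ∈ e i '' Iio (r i), ∀ v ∈ ends a, v ∈ x i '' Iic (r i) := by
    rintro i hi _ ⟨j, hj, rfl⟩ v hv
    rw [mem_Iio] at hj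
    rw [(he i hi j hj).2, Sym2.mem_iff] at hv
    rcases hv with rfl | rfl
    · exact ⟨j, by simp; omega, rfl⟩
    · exact ⟨j + 1, by simp; omega, rfl⟩
  have h1 : Elim S ends (⋃ i ∈ J, x i '' Iio (r i)) (⋃ i ∈ J, e i '' Iio (r i)) := by
    refine Elim.biUnion J _ _ (fun i hi => path_elim (he i hi) (hinj i hi)) ?_ ?_
    · intro i hi i' hi' hne a ha v hv hv'
      exact Set.disjoint_left.1 (hd i hi i' hi' hne) (hends i hi a ha v hv) (hsub i' hv')
    · intro i hi i' hi' hne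
      exact (hd i hi i' hi' hne).mono (hsub i) (hsub i')
  have hRU : (⋃ i ∈ J, x i '' Iio (r i)) ⊆ U := by
    refine iUnion₂_subset fun i hi => ?_
    rintro _ ⟨j, hj, rfl⟩
    exact hU i hi j hj
  have hfW : ∀ i ∈ J, ∀ v ∈ x i '' Iic (r i), v ∉ U \ ⋃ i ∈ J, x i '' Iio (r i) := by
    rintro i hi _ ⟨j, hj, rfl⟩ hv
    rw [mem_Iic] at hj
    by_cases hjr : j = r i
    · rw [hjr] at hv
      exact hf i hi hv.1
    · exact hv.2 (mem_iUnion₂.2 ⟨i, hi, ⟨j, by simp; omega, rfl⟩⟩)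
  have h2 := h1.union (Elim.of_full hW) disjoint_sdiff_right (by
    intro a ha v hv
    obtain ⟨i, hi, hai⟩ := mem_iUnion₂.1 ha
    exact hfW i hi v (hends i hi a hai v hv))
  rw [union_sdiff_cancel hRU] at h2
  refine ⟨_, h2, ?_, ?_⟩
  · rintro a (ha | ha) v hv
    · obtain ⟨i, hi, hai⟩ := mem_iUnion₂.1 ha
      obtain ⟨j, hj, rfl⟩ := hends i hi a hai v hv
      rw [mem_Iic] at hj
      by_cases hjr : j = r i
      · exact Or.inr ⟨i, hi, by rw [hjr]⟩
      · exact Or.inl (hU i hi j (by omega))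
    · exact Or.inl ((hW.1 ha).2 v hv).1
  · intro i hi
    refine ⟨e i, he i hi, hinj i hi, hU i hi, hf i hi, ?_⟩
    rintro a (ha | ha) hai v hv hvx
    · obtain ⟨i', hi', hai'⟩ := mem_iUnion₂.1 ha
      have hne : i' ≠ i := by
        rintro rfl
        exact hai hai'
      exact Set.disjoint_left.1 (hd i' hi' i hi hne) (hends i' hi' a hai' v hv) hvx
    · exact hfW i hi v hvx ((hW.1 ha).2 v hv)

/-- Legs stay legs when other holes are added. -/
lemma Leg.mono {U U' : Set V} {F F' : Set α} {r : ℕ} {x : ℕ → V} (h : Leg S ends U F r x)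
    (hU : U ⊆ U') (hr : x r ∉ U') (hF : ∀ f ∈ F', f ∉ F → ∀ v ∈ ends f, v ∉ x '' Iic r) :
    Leg S ends U' F' r x := by
  obtain ⟨e, h1, h2, h3, h4, h5⟩ := h
  refine ⟨e, h1, h2, fun j hj => hU (h3 j hj), hr, ?_⟩
  intro f hf hfe v hv
  by_cases hfF : f ∈ F
  · exact h5 f hfF hfe v hv
  · exact hF f hf hfF v hv

end

end DA
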