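import Pool.Agent.DA.Holes

/-!
# Contracting holes and a grounded region
-/

open Set BIC BICS
open scoped Matroid

namespace DA

open Gad

/-- A foot of a hole with free surroundings stays fat when one other vertex is removed. -/
lemma foot_fat' {L i : ℕ} (hi : i < 3) {q : ℕ × ℕ} {W : Set (ℕ × ℕ)} (hq : 3 ≤ q.1 ∧ 3 ≤ q.2)
    {s : ℕ × ℕ} (hs : Inn q L s.1 s.2)
    (hmem : ∀ u t, (q.1 ≤ u + 2 ∧ u ≤ q.1 + L + 1 ∧ q.2 ≤ t + 2 ∧ t ≤ q.2 + L + 1) →
      (u < q.1 ∨ q.1 + L ≤ u ∨ t < q.2 ∨ q.2 + L ≤ t) → (u, t) ∈ W)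
    {w : ℕ × ℕ} (hw : w ≠ fo q L i s) : Fat (W \ {w}) (fo q L i s) := by
  obtain ⟨g1, g2, g3, g4⟩ := hs
  have hi' : i = 0 ∨ i = 1 ∨ i = 2 := by omega
  rcases hi' with rfl | rfl | rfl
  · have e : fo q L 0 s = (q.1 - 1, s.2) := rfl
    rw [e] at hw ⊢
    refine fat_vert (c := q.1 - 2) (by omega) (by omega) ?_ hw
    intro u t h1 h2 h3
    exact hmem u t (by omega) (by omega)
  · have e : fo q L 1 s = (q.1 + L, s.2) := rfl
    rw [e] at hw ⊢
    refine fat_vert (c := q.1 + L) (by omega) (by omega) ?_ hw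
    intro u t h1 h2 h3
    exact hmem u t (by omega) (by omega)
  · have e : fo q L 2 s = (s.1, q.2 + L) := rfl
    rw [e] at hw ⊢
    refine fat_horz (by omega) ?_ hw
    intro u t h1 h2 h3
    exact hmem u t (by omega) (by omega)

section

variable {α : Type*} {S : Set α} {ends : α → Sym2 (ℕ × ℕ)}

/-- **Holes with legs and a grounded region `Gr` are contracted.** -/
theorem clean_gen {M : Matroid α} [M.Finite] (hB : Bic M S ends) {A Gr : Set (ℕ × ℕ)} {L : ℕ}
    (hAf : A.Finite) (hG : CWL.GrdU S ends A) (hcon : VConn S ends A) (hGrA : Gr ⊆ A)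
    {FG : Set α} (hFG : FullB S ends Gr FG) [Nonempty α] (H : Finset (ℕ × ℕ)) (hL : 2 ≤ L)
    (hfar : ∀ q ∈ H, ∀ q' ∈ H, q ≠ q' → CWL.Far 10 q L q' L)
    (hbq : ∀ q ∈ H, 5 ≤ q.1 ∧ 5 ≤ q.2)
    (hb : ∀ q ∈ H, ∀ v : ℕ × ℕ, q.1 ≤ v.1 + 5 → q.2 ≤ v.2 + 5 → v.1 < q.1 + L + 5 →
      v.2 < q.2 + L + 5 → v ∈ A ∧ v ∉ Gr)
    (τ : ℕ × ℕ → ℕ) (s : ℕ × ℕ → ℕ → ℕ × ℕ) (hc : ∀ q ∈ H, Cfg q L (τ q) (s q)) :
    ∃ F : Set α, Elim S ends (hls H L ∪ Gr) F ∧
      CWL.GrdU (ins S ends (hls H L ∪ Gr)ᶜ) ends (A \ (hls H L ∪ Gr)) ∧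
      ∀ z ∈ M.closure S, z ∉ S → ∀ Hz ⊆ H, Hz.Nonempty →
        CWL.Loc M S ends z ⊆ hls Hz L ∪ Gr →
        (∀ q ∈ Hz, ∀ i < τ q, s q i ∈ CWL.Loc M S ends z ∧ ∀ j, 1 ≤ j →
          j ≤ rp q L i (s q i) → xp i (s q i) j ∉ CWL.Loc M S ends z) →
        CWL.Loc (M ／ F) (ins S ends (hls H L ∪ Gr)ᶜ) ends z =
            {w | ∃ q ∈ Hz, ∃ i < τ q, fo q L i (s q i) = w} ∧
          z ∈ (M ／ F).closure (ins S ends (hls H L ∪ Gr)ᶜ) ∧
          z ∉ ins S ends (hls H L ∪ Gr)ᶜ := by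
  classical
  have hP : Pres S ends A := fun p q hpq hp hq => hG.surj p q hpq hp hq
  have hqA : ∀ q ∈ H, ∀ v ∈ rect q.1 q.2 L L, v ∈ A ∧ v ∉ Gr := by
    intro q hq v hv
    rw [Gad.mem_rct] at hv
    exact hb q hq v (by omega) (by omega) (by omega) (by omega)
  have hch : ∀ q : ℕ × ℕ, ∃ F : Set α, q ∈ H → (Elim S ends (rect q.1 q.2 L L) F ∧
      (∀ e ∈ F, ∀ v ∈ ends e, v ∈ rect q.1 q.2 L L ∪
        {w | ∃ i < τ q, xp i (s q i) (rp q L i (s q i)) = w}) ∧
      ∀ i < τ q, Leg S ends (rect q.1 q.2 L L) F (rp q L i (s q i)) (xp i (s q i))) := by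
    intro q
    by_cases hq : q ∈ H
    · have h1 := hbq q hq
      obtain ⟨F, hF⟩ := geo hP (q := q) (L := L) (τ := τ q) (by omega) hL (by
        intro v hv
        rw [Gad.mem_rct] at hv
        exact (hb q hq v (by omega) (by omega) (by omega) (by omega)).1) (hc q hq)
      exact ⟨F, fun _ => hF⟩
    · exact ⟨∅, fun h => absurd h hq⟩
  choose Fq hFq using hch
  have hfoeq : ∀ q ∈ H, ∀ i < τ q, xp i (s q i) (rp q L i (s q i)) = fo q L i (s q i) := by
    intro q hq i hi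
    have h3 := (hc q hq).t3
    have h1 := hbq q hq
    exact xp_foot (by omega) (by omega) ((hc q hq).inn i hi)
  -- the box of a hole
  have hboxx : ∀ q ∈ H, ∀ i < τ q, ∀ v ∈ xp i (s q i) '' Iic (rp q L i (s q i)),
      q.1 ≤ v.1 + 1 ∧ v.1 ≤ q.1 + L ∧ q.2 ≤ v.2 ∧ v.2 ≤ q.2 + L := by
    intro q hq i hi v hv
    have h3 := (hc q hq).t3
    have h1 := hbq q hq
    have h4 := xp_mem_Iic (by omega) (by omega) ((hc q hq).inn i hi) hv
    obtain ⟨g1, g2, g3, g4⟩ := (hc q hq).inn i hi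
    omega
  have hbox : ∀ q ∈ H, ∀ e ∈ Fq q, ∀ v ∈ ends e,
      q.1 ≤ v.1 + 1 ∧ v.1 ≤ q.1 + L ∧ q.2 ≤ v.2 ∧ v.2 ≤ q.2 + L := by
    intro q hq e he v hv
    rcases (hFq q hq).2.1 e he v hv with h1 | ⟨i, hi, rfl⟩
    · rw [Gad.mem_rct] at h1
      omega
    · exact hboxx q hq i hi _ ⟨_, mem_Iic.2 le_rfl, rfl⟩
  have hboxG : ∀ q ∈ H, ∀ v : ℕ × ℕ, q.1 ≤ v.1 + 1 ∧ v.1 ≤ q.1 + L ∧ q.2 ≤ v.2 ∧
      v.2 ≤ q.2 + L → v ∉ Gr := by
    intro q hq v hv
    exact (hb q hq v (by omega) (by omega) (by omega) (by omega)).2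
  have hfoot : ∀ q ∈ H, ∀ i < τ q, fo q L i (s q i) ∉ hls H L ∪ Gr := by
    intro q hq i hi hcon
    have h2 := hboxx q hq i hi _ ⟨_, mem_Iic.2 le_rfl, rfl⟩
    rw [hfoeq q hq i hi] at h2
    rcases hcon with hcon | hcon
    · obtain ⟨q', hq', h1⟩ := mem_hls.1 hcon
      by_cases hne : q = q'
      · subst hne
        obtain ⟨e, _, _, _, h5, _⟩ := (hFq q hq).2.2 i hi
        rw [hfoeq q hq i hi] at h5
        exact h5 (by rw [Gad.mem_rct]; exact h1)
      · have h4 := hfar q hq q' hq' hne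
        unfold CWL.Far at h4
        omega
    · exact hboxG q hq _ h2 hcon
  have hElim0 : ∀ H' ⊆ H, Elim S ends (hls H' L) (⋃ q ∈ H', Fq q) := by
    intro H' hH'
    refine Elim.biUnion H' (fun q => rect q.1 q.2 L L) Fq (fun q hq => (hFq q (hH' hq)).1) ?_ ?_
    · intro q hq q' hq' hne e he v hv hv'
      have h1 := hbox q (hH' hq) e he v hv
      have h4 := hfar q (hH' hq) q' (hH' hq') hne
      rw [Gad.mem_rct] at hv'
      unfold CWL.Far at h4
      omega
    · intro q hq q' hq' hne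
      rw [Set.disjoint_left]
      intro v hv hv'
      have h4 := hfar q (hH' hq) q' (hH' hq') hne
      rw [Gad.mem_rct] at hv hv'
      unfold CWL.Far at h4
      omega
  have hdisG : ∀ H' ⊆ H, Disjoint (hls H' L) Gr := by
    intro H' hH'
    rw [Set.disjoint_left]
    intro v hv hv'
    obtain ⟨q, hq, h1⟩ := mem_hls.1 hv
    exact (hqA q (hH' hq) v (by rw [Gad.mem_rct]; exact h1)).2 hv'
  have hElim : ∀ H' ⊆ H, Elim S ends (hls H' L ∪ Gr) ((⋃ q ∈ H', Fq q) ∪ FG) := by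
    intro H' hH'
    refine (hElim0 H' hH').union (Elim.of_full hFG) (hdisG H' hH') ?_
    intro e he v hv hv'
    obtain ⟨q, hq, heq⟩ := mem_iUnion₂.1 he
    exact hboxG q (hH' hq) v (hbox q (hH' hq) e heq v hv) hv'
  refine ⟨(⋃ q ∈ H, Fq q) ∪ FG, hElim H Finset.Subset.rfl, ?_, ?_⟩
  · refine ⟨hG.inj.mono fun e he => he.1, ?_, ?_⟩
    · intro e he
      obtain ⟨p, q, h1, h2, h3, h4⟩ := hG.mem e he.1
      refine ⟨p, q, h1, h2, ⟨h3, fun h => he.2 p (by rw [h1]; simp) h⟩,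
        ⟨h4, fun h => he.2 q (by rw [h1]; simp) h⟩⟩
    · intro p q hpq hp hq
      obtain ⟨e, he, h1⟩ := hG.surj p q hpq hp.1 hq.1
      refine ⟨e, ⟨he, fun v hv => ?_⟩, h1⟩
      rw [h1, Sym2.mem_iff] at hv
      rcases hv with rfl | rfl
      · exact hp.2
      · exact hq.2
  · intro z hz hzS Hz hHz hHzne hloc hray
    have hsub : hls Hz L ⊆ hls H L := by
      intro v hv
      rw [mem_hls] at hv ⊢
      obtain ⟨q, hq, h1⟩ := hv
      exact ⟨q, hHz hq, h1⟩
    have hHR : hls H L ⊆ A := by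
      intro v hv
      rw [mem_hls] at hv
      obtain ⟨q, hq, h1⟩ := hv
      exact (hqA q hq v (by rw [Gad.mem_rct]; exact h1)).1
    obtain ⟨q₀, hq₀⟩ := hHzne
    -- the squares are full
    have hsq : ∀ q, ∃ G, q ∈ H → FullB S ends (rect q.1 q.2 L L) G := by
      intro q
      by_cases hq : q ∈ H
      · obtain ⟨G, hG'⟩ := full_of_fat hP _ (rect q.1 q.2 L L) (rect_finite _ _ _ _) rfl
          (fun v hv => (hqA q hq v hv).1) (fat0 hL)
        exact ⟨G, fun _ => hG'⟩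
      · exact ⟨∅, fun h => absurd h hq⟩
    choose G0 hG0 using hsq
    have hfull : FullB S ends (hls Hz L ∪ Gr) ((⋃ q ∈ Hz, G0 q) ∪ FG) := by
      refine FullB.union ?_ hFG (hdisG Hz hHz)
      refine FullB.biUnion Hz (fun q => rect q.1 q.2 L L) G0 (fun q hq => hG0 q (hHz hq)) ?_
      intro q hq q' hq' hne
      rw [Set.disjoint_left]
      intro v hv hv'
      have h4 := hfar q (hHz hq) q' (hHz hq') hne
      rw [Gad.mem_rct] at hv hv'
      unfold CWL.Far at h4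
      omega
    have hvs : ∀ e ∈ S, ∀ v ∈ ends e, v ∈ A := by
      intro e he v hv
      obtain ⟨p, q, h1, h2, h3, h4⟩ := hG.mem e he
      rw [h1, Sym2.mem_iff] at hv
      rcases hv with rfl | rfl
      · exact h3
      · exact h4
    refine clean_loc hB hAf hvs hcon
      (hElim H Finset.Subset.rfl) hz hzS (Uz := hls Hz L ∪ Gr) (Fz := (⋃ q ∈ Hz, Fq q) ∪ FG)
      (union_subset (hsub.trans hHR) hGrA) (union_subset_union_left _ hsub) ?_ hfull ?_
      (hElim Hz hHz) ?_ (Φ := {w | ∃ q ∈ Hz, ∃ i < τ q, fo q L i (s q i) = w}) ?_ ?_ ?_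
    · refine ⟨q₀, Or.inl (mem_hls.2 ⟨q₀, hq₀, ?_⟩)⟩
      omega
    · refine union_subset_union_left _ (iUnion₂_subset fun q hq => ?_)
      exact subset_iUnion₂ (s := fun q (_ : q ∈ H) => Fq q) q (hHz hq)
    · intro v _ hv
      by_contra hcon
      exact hv (hloc hcon)
    · rintro e (he | he) v hv
      · obtain ⟨q, hq, heq⟩ := mem_iUnion₂.1 he
        rcases (hFq q (hHz hq)).2.1 e heq v hv with h1 | ⟨i, hi, rfl⟩
        · left
          left
          rw [Gad.mem_rct] at h1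
          exact mem_hls.2 ⟨q, hq, h1⟩
        · right
          exact ⟨q, hq, i, hi, (hfoeq q (hHz hq) i hi).symm⟩
      · left
        right
        exact (hFG.1 he).2 v hv
    · intro w hw
      obtain ⟨G, hGf⟩ := fat_full hP (W := (A \ (hls H L ∪ Gr)) \ {w})
        (sdiff_subset.trans sdiff_subset) (hAf.subset (sdiff_subset.trans sdiff_subset))
      refine ⟨_, G, hGf, ?_, ?_, ?_, ?_⟩
      · exact hAf.subset fun v hv => hv.1.1.1
      · rintro _ ⟨q, hq, i, hi, rfl⟩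
        have h3 := (hc q (hHz hq)).t3
        have h5 := hbq q (hHz hq)
        have hfat := foot_fat' (i := i) (by omega) (W := A \ (hls H L ∪ Gr)) (by omega)
          ((hc q (hHz hq)).inn i hi) (by
            intro u t h1 h2
            have h6 := hb q (hHz hq) (u, t) (by simp only; omega) (by simp only; omega)
              (by simp only; omega) (by simp only; omega)
            refine ⟨h6.1, ?_⟩
            rintro (h7 | h7)
            · obtain ⟨q', hq', h8⟩ := mem_hls.1 h7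
              simp only at h8
              by_cases hne : q = q'
              · subst hne; omega
              · have h4 := hfar q (hHz hq) q' hq' hne
                unfold CWL.Far at h4
                omega
            · exact h6.2 h7) (w := w) (by
            rintro rfl
            exact hw ⟨q, hq, i, hi, rfl⟩)
        refine ⟨?_, hfat⟩
        obtain ⟨x, y, h00, _, _, _, hr⟩ := hfat
        exact Rch.mem_left hr h00
      · rw [Set.disjoint_left]
        intro v hv hv'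
        exact hv.1.1.2 hv'
      · intro hcon
        exact hcon.1.2 rfl
    · rintro _ ⟨q, hq, i, hi, rfl⟩
      obtain ⟨h1, h2⟩ := hray q hq i hi
      refine ⟨rp q L i (s q i), xp i (s q i), hfoeq q (hHz hq) i hi, ?_, ?_, ?_⟩
      · refine ((hFq q (hHz hq)).2.2 i hi).mono ?_ ?_ ?_
        · intro v hv
          rw [Gad.mem_rct] at hv
          exact Or.inl (mem_hls.2 ⟨q, hHz hq, hv⟩)
        · rw [hfoeq q (hHz hq) i hi]
          exact hfoot q (hHz hq) i hi
        · rintro f (hf | hf) hfq v hv hvx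
          · obtain ⟨q', hq', hfq'⟩ := mem_iUnion₂.1 hf
            have hne : q ≠ q' := by
              rintro rfl
              exact hfq hfq'
            have h3 := hbox q' hq' f hfq' v hv
            have h4 := hboxx q (hHz hq) i hi v hvx
            have h5 := hfar q (hHz hq) q' hq' hne
            unfold CWL.Far at h5
            omega
          · exact hboxG q (hHz hq) v (hboxx q (hHz hq) i hi v hvx) ((hFG.1 hf).2 v hv)
      · have e0 : xp i (s q i) 0 = s q i := by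
          unfold xp
          split_ifs <;> simp
        rw [e0]
        exact h1
      · intro j hj1 hj2
        by_contra hcon
        exact h2 j hj1 hj2 hcon

end

end DA
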