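import Pool.Agent.DA.GeoK
import Pool.Agent.DA.CleanG
import Pool.Agent.DA.Sparse

/-!
# Contracting holes next to missing vertices
-/

open Set BIC BICS
open scoped Matroid

namespace DA

open Gad

open Classical in
/-- `1` if the start is missing -/
noncomputable def off (K : Set (ℕ × ℕ)) (v : ℕ × ℕ) : ℕ := if v ∈ K then 1 else 0

section

variable {α : Type*} {S : Set α} {ends : α → Sym2 (ℕ × ℕ)}

lemma loc_sub {M : Matroid α} {A : Set (ℕ × ℕ)} (hG : CWL.GrdU S ends A) {z : α}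
    (hz : z ∈ M.closure S) : CWL.Loc M S ends z ⊆ A := by
  intro v hv
  by_contra hcon
  apply hv
  have e : ins S ends {v}ᶜ = S := by
    ext f
    refine ⟨fun h => h.1, fun h => ⟨h, fun w hw => ?_⟩⟩
    rintro rfl
    obtain ⟨p, q, h1, _, h3, h4⟩ := hG.mem f h
    rw [h1, Sym2.mem_iff] at hw
    rcases hw with rfl | rfl
    · exact hcon h3
    · exact hcon h4
  rw [e]
  exact hz

/-- **Holes with legs next to missing vertices and a grounded region `Gr` are contracted.** -/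
theorem clean_K {M : Matroid α} [M.Finite] (hB : Bic M S ends) {A Gr K : Set (ℕ × ℕ)} {L : ℕ}
    (hAf : A.Finite) (hG : CWL.GrdU S ends A) (hcon : VConn S ends A) (hGrA : Gr ⊆ A)
    {FG : Set α} (hFG : FullB S ends Gr FG) [Nonempty α] (H : Finset (ℕ × ℕ)) (hL : 2 ≤ L)
    (hfar : ∀ q ∈ H, ∀ q' ∈ H, q ≠ q' → CWL.Far 10 q L q' L)
    (hbq : ∀ q ∈ H, 5 ≤ q.1 ∧ 5 ≤ q.2)
    (hb : ∀ q ∈ H, ∀ v : ℕ × ℕ, q.1 ≤ v.1 + 5 → q.2 ≤ v.2 + 5 → v.1 < q.1 + L + 5 →
      v.2 < q.2 + L + 5 → (v ∈ A ∨ v ∈ K) ∧ v ∉ Gr)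
    (hKA : ∀ v ∈ K, v ∉ A) (hKH : ∀ v ∈ K, v ∈ hls H L) (hKs : Spr 3 K)
    (τ : ℕ × ℕ → ℕ) (s : ℕ × ℕ → ℕ → ℕ × ℕ) (hc : ∀ q ∈ H, CfgG q L (τ q) (s q))
    (hK1 : ∀ q ∈ H, ∀ v ∈ K, v ∈ rect q.1 q.2 L L → ∃ i < τ q, s q i = v)
    (hK2 : ∀ q ∈ H, ∀ i < τ q, ∀ v ∈ K, v ∈ xp i (s q i) '' Iic (rp q L i (s q i)) → v = s q i) :
    ∃ F : Set α, Elim S ends ((hls H L \ K) ∪ Gr) F ∧
      CWL.GrdU (ins S ends ((hls H L \ K) ∪ Gr)ᶜ) ends (A \ (hls H L ∪ Gr)) ∧
      ∀ z ∈ M.closure S, z ∉ S → ∀ Hz ⊆ H, Hz.Nonempty →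
        CWL.Loc M S ends z ⊆ hls Hz L ∪ Gr →
        (∀ q ∈ Hz, ∀ i < τ q, xp i (s q i) (off K (s q i)) ∈ CWL.Loc M S ends z ∧
          ∀ j, off K (s q i) < j → j ≤ rp q L i (s q i) → xp i (s q i) j ∉ CWL.Loc M S ends z) →
        CWL.Loc (M ／ F) (ins S ends ((hls H L \ K) ∪ Gr)ᶜ) ends z =
            {w | ∃ q ∈ Hz, ∃ i < τ q, fo q L i (s q i) = w} ∧
          z ∈ (M ／ F).closure (ins S ends ((hls H L \ K) ∪ Gr)ᶜ) ∧
          z ∉ ins S ends ((hls H L \ K) ∪ Gr)ᶜ := by
  classical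
  have hP : Pres S ends A := fun p q hpq hp hq => hG.surj p q hpq hp hq
  have hqA : ∀ q ∈ H, ∀ v ∈ rect q.1 q.2 L L, (v ∈ A ∨ v ∈ K) ∧ v ∉ Gr := by
    intro q hq v hv
    rw [Gad.mem_rct] at hv
    exact hb q hq v (by omega) (by omega) (by omega) (by omega)
  have hch : ∀ q : ℕ × ℕ, ∃ F : Set α, q ∈ H → (Elim S ends (rect q.1 q.2 L L \ K) F ∧
      (∀ e ∈ F, ∀ v ∈ ends e, v ∈ (rect q.1 q.2 L L \ K) ∪
        {w | ∃ i < τ q, xp i (s q i) (rp q L i (s q i)) = w}) ∧
      ∀ i < τ q, Leg S ends (rect q.1 q.2 L L \ K) F (rp q L i (s q i) - off K (s q i))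
        (fun j => xp i (s q i) (j + off K (s q i)))) := by
    intro q
    by_cases hq : q ∈ H
    · have h1 := hbq q hq
      obtain ⟨F, hF⟩ := geoK hP (q := q) (L := L) (τ := τ q) (K := K) (by omega) hL (by
        intro v hv hvK
        rw [Gad.mem_rct] at hv
        exact ((hb q hq v (by omega) (by omega) (by omega) (by omega)).1).resolve_right hvK)
        (hc q hq) (hK1 q hq) (hK2 q hq) (fun i => off K (s q i)) (by
          intro i hi
          unfold off
          exact ⟨fun h => if_pos h, fun h => if_neg h⟩)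
      exact ⟨F, fun _ => hF⟩
    · exact ⟨∅, fun h => absurd h hq⟩
  choose Fq hFq using hch
  have hoff : ∀ v, off K v ≤ 1 := by
    intro v
    unfold off
    split_ifs <;> omega
  have hrp : ∀ q ∈ H, ∀ i < τ q, 3 ≤ rp q L i (s q i) := by
    intro q hq i hi
    obtain ⟨g1, g2, g3, g4⟩ := (hc q hq).inn i hi
    unfold rp
    split_ifs <;> omega
  have hfoeq : ∀ q ∈ H, ∀ i < τ q, xp i (s q i) (rp q L i (s q i)) = fo q L i (s q i) := by
    intro q hq i hi
    have h3 := (hc q hq).t3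
    have h1 := hbq q hq
    exact xp_foot (by omega) (by omega) ((hc q hq).inn i hi)
  -- the box of a hole
  have hboxx : ∀ q ∈ H, ∀ i < τ q, ∀ v ∈ xp i (s q i) '' Iic (rp q L i (s q i)),
      q.1 ≤ v.1 + 1 ∧ v.1 ≤ q.1 + L ∧ q.2 ≤ v.2 ∧ v.2 ≤ q.2 + L := by
    intro q hq i hi v hv
    have h3 := (hc q hq).t3
    have h1 := hbq q hq
    have h4 := xp_mem_Iic (by omega) (by omega) ((hc q hq).inn i hi) hv
    obtain ⟨g1, g2, g3, g4⟩ := (hc q hq).inn i hi
    omega
  have hbox : ∀ q ∈ H, ∀ e ∈ Fq q, ∀ v ∈ ends e,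
      q.1 ≤ v.1 + 1 ∧ v.1 ≤ q.1 + L ∧ q.2 ≤ v.2 ∧ v.2 ≤ q.2 + L := by
    intro q hq e he v hv
    rcases (hFq q hq).2.1 e he v hv with h1 | ⟨i, hi, rfl⟩
    · have h2 := h1.1
      rw [Gad.mem_rct] at h2
      omega
    · exact hboxx q hq i hi _ ⟨_, mem_Iic.2 le_rfl, rfl⟩
  have hboxG : ∀ q ∈ H, ∀ v : ℕ × ℕ, q.1 ≤ v.1 + 1 ∧ v.1 ≤ q.1 + L ∧ q.2 ≤ v.2 ∧
      v.2 ≤ q.2 + L → v ∉ Gr := by
    intro q hq v hv
    exact (hb q hq v (by omega) (by omega) (by omega) (by omega)).2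
  have hfooth : ∀ q ∈ H, ∀ i < τ q, fo q L i (s q i) ∉ hls H L := by
    intro q hq i hi hcon
    have h2 := hboxx q hq i hi _ ⟨_, mem_Iic.2 le_rfl, rfl⟩
    have h9 : fo q L i (s q i) ∉ rect q.1 q.2 L L := by
      have h3 := (hc q hq).t3
      have h1 := hbq q hq
      obtain ⟨g1, g2, g3, g4⟩ := (hc q hq).inn i hi
      rw [← hfoeq q hq i hi, xp_foot (by omega) (by omega) ((hc q hq).inn i hi), Gad.mem_rct]
      split_ifs <;> simp only <;> omega
    rw [hfoeq q hq i hi] at h2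
    obtain ⟨q', hq', h1⟩ := mem_hls.1 hcon
    by_cases hne : q = q'
    · subst hne
      exact h9 (by rw [Gad.mem_rct]; exact h1)
    · have h4 := hfar q hq q' hq' hne
      unfold CWL.Far at h4
      omega
  have hfoot : ∀ q ∈ H, ∀ i < τ q, fo q L i (s q i) ∉ (hls H L \ K) ∪ Gr := by
    rintro q hq i hi (hcon | hcon)
    · exact hfooth q hq i hi hcon.1
    · have h2 := hboxx q hq i hi _ ⟨_, mem_Iic.2 le_rfl, rfl⟩
      rw [hfoeq q hq i hi] at h2
      exact hboxG q hq _ h2 hcon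
  have hhK : ∀ H' : Finset (ℕ × ℕ), (⋃ q ∈ H', (rect q.1 q.2 L L \ K)) = hls H' L \ K := by
    intro H'
    ext v
    simp only [mem_iUnion, mem_sdiff, exists_prop, mem_hls, Gad.mem_rct]
    constructor
    · rintro ⟨q, hq, h1, h2⟩
      exact ⟨⟨q, hq, h1⟩, h2⟩
    · rintro ⟨⟨q, hq, h1⟩, h2⟩
      exact ⟨q, hq, h1, h2⟩
  have hElim0 : ∀ H' ⊆ H, Elim S ends (hls H' L \ K) (⋃ q ∈ H', Fq q) := by
    intro H' hH'
    rw [← hhK H']
    refine Elim.biUnion H' (fun q => rect q.1 q.2 L L \ K) Fq (fun q hq => (hFq q (hH' hq)).1)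
      ?_ ?_
    · intro q hq q' hq' hne e he v hv hv'
      have h1 := hbox q (hH' hq) e he v hv
      have h4 := hfar q (hH' hq) q' (hH' hq') hne
      have h5 := hv'.1
      rw [Gad.mem_rct] at h5
      unfold CWL.Far at h4
      omega
    · intro q hq q' hq' hne
      rw [Set.disjoint_left]
      rintro v ⟨hv, _⟩ ⟨hv', _⟩
      have h4 := hfar q (hH' hq) q' (hH' hq') hne
      rw [Gad.mem_rct] at hv hv'
      unfold CWL.Far at h4
      omega
  have hdisG : ∀ H' ⊆ H, Disjoint (hls H' L \ K) Gr := by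
    intro H' hH'
    rw [Set.disjoint_left]
    rintro v ⟨hv, _⟩ hv'
    obtain ⟨q, hq, h1⟩ := mem_hls.1 hv
    exact (hqA q (hH' hq) v (by rw [Gad.mem_rct]; exact h1)).2 hv'
  have hElim : ∀ H' ⊆ H, Elim S ends ((hls H' L \ K) ∪ Gr) ((⋃ q ∈ H', Fq q) ∪ FG) := by
    intro H' hH'
    refine (hElim0 H' hH').union (Elim.of_full hFG) (hdisG H' hH') ?_
    intro e he v hv hv'
    obtain ⟨q, hq, heq⟩ := mem_iUnion₂.1 he
    exact hboxG q (hH' hq) v (hbox q (hH' hq) e heq v hv) hv'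
  refine ⟨(⋃ q ∈ H, Fq q) ∪ FG, hElim H Finset.Subset.rfl, ?_, ?_⟩
  · have hsame : ∀ p ∈ A, (p ∈ (hls H L \ K) ∪ Gr ↔ p ∈ hls H L ∪ Gr) := by
      intro p hp
      constructor
      · rintro (h | h)
        · exact Or.inl h.1
        · exact Or.inr h
      · rintro (h | h)
        · exact Or.inl ⟨h, fun hK => hKA p hK hp⟩
        · exact Or.inr h
    refine ⟨hG.inj.mono fun e he => he.1, ?_, ?_⟩
    · intro e he
      obtain ⟨p, q, h1, h2, h3, h4⟩ := hG.mem e he.1
      refine ⟨p, q, h1, h2, ⟨h3, fun h => ?_⟩, ⟨h4, fun h => ?_⟩⟩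
      · exact he.2 p (by rw [h1]; simp) ((hsame p h3).2 h)
      · exact he.2 q (by rw [h1]; simp) ((hsame q h4).2 h)
    · intro p q hpq hp hq
      obtain ⟨e, he, h1⟩ := hG.surj p q hpq hp.1 hq.1
      refine ⟨e, ⟨he, fun v hv => ?_⟩, h1⟩
      rw [h1, Sym2.mem_iff] at hv
      rcases hv with rfl | rfl
      · exact fun h => hp.2 ((hsame _ hp.1).1 h)
      · exact fun h => hq.2 ((hsame _ hq.1).1 h)
  · intro z hz hzS Hz hHz hHzne hloc hray
    have hlA := loc_sub hG hz
    have hsub : hls Hz L ⊆ hls H L := by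
      intro v hv
      rw [mem_hls] at hv ⊢
      obtain ⟨q, hq, h1⟩ := hv
      exact ⟨q, hHz hq, h1⟩
    have hHR : hls H L \ K ⊆ A := by
      rintro v ⟨hv, hvK⟩
      rw [mem_hls] at hv
      obtain ⟨q, hq, h1⟩ := hv
      exact ((hqA q hq v (by rw [Gad.mem_rct]; exact h1)).1).resolve_right hvK
    obtain ⟨q₀, hq₀⟩ := hHzne
    -- the squares are full
    have hsq : ∀ q, ∃ G, q ∈ H → FullB S ends (rect q.1 q.2 L L \ K) G := by
      intro q
      by_cases hq : q ∈ H
      · obtain ⟨G, hG'⟩ := full_of_fat hP _ (rect q.1 q.2 L L \ K)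
          ((rect_finite _ _ _ _).subset sdiff_subset) rfl
          (fun v hv => ((hqA q hq v hv.1).1).resolve_right hv.2) (by
            rintro v ⟨hv, hvK⟩
            refine fat_rect hL hL hKs ?_ subset_rfl v hv hvK
            intro w hw hwr
            obtain ⟨i, hi, h1⟩ := hK1 q hq w hw hwr
            obtain ⟨g1, g2, g3, g4⟩ := (hc q hq).inn i hi
            rw [h1] at g1 g2 g3 g4
            omega)
        exact ⟨G, fun _ => hG'⟩
      · exact ⟨∅, fun h => absurd h hq⟩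
    choose G0 hG0 using hsq
    have hfull : FullB S ends ((hls Hz L \ K) ∪ Gr) ((⋃ q ∈ Hz, G0 q) ∪ FG) := by
      refine FullB.union ?_ hFG (hdisG Hz hHz)
      rw [← hhK Hz]
      refine FullB.biUnion Hz (fun q => rect q.1 q.2 L L \ K) G0 (fun q hq => hG0 q (hHz hq)) ?_
      intro q hq q' hq' hne
      rw [Set.disjoint_left]
      rintro v ⟨hv, _⟩ ⟨hv', _⟩
      have h4 := hfar q (hHz hq) q' (hHz hq') hne
      rw [Gad.mem_rct] at hv hv'
      unfold CWL.Far at h4
      omega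
    have hvs : ∀ e ∈ S, ∀ v ∈ ends e, v ∈ A := by
      intro e he v hv
      obtain ⟨p, q, h1, h2, h3, h4⟩ := hG.mem e he
      rw [h1, Sym2.mem_iff] at hv
      rcases hv with rfl | rfl
      · exact h3
      · exact h4
    refine clean_loc hB hAf hvs hcon
      (hElim H Finset.Subset.rfl) hz hzS (Uz := (hls Hz L \ K) ∪ Gr)
      (Fz := (⋃ q ∈ Hz, Fq q) ∪ FG)
      (union_subset ((sdiff_subset_sdiff_left hsub).trans hHR) hGrA)
      (union_subset_union_left _ (sdiff_subset_sdiff_left hsub)) ?_ hfull ?_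
      (hElim Hz hHz) ?_ (Φ := {w | ∃ q ∈ Hz, ∃ i < τ q, fo q L i (s q i) = w}) ?_ ?_ ?_
    · -- the corner of a hole is not missing
      have hq0 := hHz hq₀
      refine ⟨q₀, Or.inl ⟨mem_hls.2 ⟨q₀, hq₀, ?_⟩, fun hK => ?_⟩⟩
      · omega
      · obtain ⟨i, hi, h1⟩ := hK1 q₀ hq0 q₀ hK (by rw [Gad.mem_rct]; omega)
        obtain ⟨g1, g2, g3, g4⟩ := (hc q₀ hq0).inn i hi
        rw [h1] at g1
        omega
    · refine union_subset_union_left _ (iUnion₂_subset fun q hq => ?_)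
      exact subset_iUnion₂ (s := fun q (_ : q ∈ H) => Fq q) q (hHz hq)
    · intro v hvA hv
      by_contra hcon
      apply hv
      rcases hloc hcon with h1 | h1
      · exact Or.inl ⟨h1, fun hK => hKA v hK hvA⟩
      · exact Or.inr h1
    · rintro e (he | he) v hv
      · obtain ⟨q, hq, heq⟩ := mem_iUnion₂.1 he
        rcases (hFq q (hHz hq)).2.1 e heq v hv with h1 | ⟨i, hi, rfl⟩
        · left
          left
          have h2 := h1.1
          rw [Gad.mem_rct] at h2
          exact ⟨mem_hls.2 ⟨q, hq, h2⟩, h1.2⟩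
        · right
          exact ⟨q, hq, i, hi, (hfoeq q (hHz hq) i hi).symm⟩
      · left
        right
        exact (hFG.1 he).2 v hv
    · intro w hw
      obtain ⟨G, hGf⟩ := fat_full hP (W := (A \ (hls H L ∪ Gr)) \ {w})
        (sdiff_subset.trans sdiff_subset) (hAf.subset (sdiff_subset.trans sdiff_subset))
      refine ⟨_, G, hGf, ?_, ?_, ?_, ?_⟩
      · exact hAf.subset fun v hv => hv.1.1.1
      · rintro _ ⟨q, hq, i, hi, rfl⟩
        have h3 := (hc q (hHz hq)).t3
        have h5 := hbq q (hHz hq)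
        have hfat := foot_fat' (i := i) (by omega) (W := A \ (hls H L ∪ Gr)) (by omega)
          ((hc q (hHz hq)).inn i hi) (by
            intro u t h1 h2
            have h6 := hb q (hHz hq) (u, t) (by simp only; omega) (by simp only; omega)
              (by simp only; omega) (by simp only; omega)
            have h7 : (u, t) ∉ hls H L := by
              intro h7
              obtain ⟨q', hq', h8⟩ := mem_hls.1 h7
              simp only at h8
              by_cases hne : q = q'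
              · subst hne; omega
              · have h4 := hfar q (hHz hq) q' hq' hne
                unfold CWL.Far at h4
                omega
            refine ⟨h6.1.resolve_right (fun hK => h7 (hKH _ hK)), ?_⟩
            rintro (h8 | h8)
            · exact h7 h8
            · exact h6.2 h8) (w := w) (by
            rintro rfl
            exact hw ⟨q, hq, i, hi, rfl⟩)
        refine ⟨?_, hfat⟩
        obtain ⟨x, y, h00, _, _, _, hr⟩ := hfat
        exact Rch.mem_left hr h00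
      · rw [Set.disjoint_left]
        rintro v hv (hv' | hv')
        · exact hv.1.1.2 (Or.inl hv'.1)
        · exact hv.1.1.2 (Or.inr hv')
      · intro hcon
        exact hcon.1.2 rfl
    · rintro _ ⟨q, hq, i, hi, rfl⟩
      obtain ⟨h1, h2⟩ := hray q hq i hi
      have h10 := hrp q (hHz hq) i hi
      have h11 := hoff (s q i)
      have h12 : rp q L i (s q i) - off K (s q i) + off K (s q i) = rp q L i (s q i) := by omega
      refine ⟨rp q L i (s q i) - off K (s q i), fun j => xp i (s q i) (j + off K (s q i)), ?_, ?_,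
        ?_, ?_⟩
      · simp only
        rw [h12]
        exact hfoeq q (hHz hq) i hi
      · refine ((hFq q (hHz hq)).2.2 i hi).mono ?_ ?_ ?_
        · rintro v ⟨hv, hvK⟩
          rw [Gad.mem_rct] at hv
          exact Or.inl ⟨mem_hls.2 ⟨q, hHz hq, hv⟩, hvK⟩
        · rw [h12, hfoeq q (hHz hq) i hi]
          exact hfoot q (hHz hq) i hi
        · rintro f (hf | hf) hfq v hv hvx
          · have hvx' : v ∈ xp i (s q i) '' Iic (rp q L i (s q i)) := by
              obtain ⟨j, hj, rfl⟩ := hvx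
              rw [mem_Iic] at hj
              exact ⟨j + off K (s q i), by rw [mem_Iic]; omega, rfl⟩
            obtain ⟨q', hq', hfq'⟩ := mem_iUnion₂.1 hf
            have hne : q ≠ q' := by
              rintro rfl
              exact hfq hfq'
            have h3 := hbox q' hq' f hfq' v hv
            have h4 := hboxx q (hHz hq) i hi v hvx'
            have h5 := hfar q (hHz hq) q' hq' hne
            unfold CWL.Far at h5
            omega
          · have hvx' : v ∈ xp i (s q i) '' Iic (rp q L i (s q i)) := by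
              obtain ⟨j, hj, rfl⟩ := hvx
              rw [mem_Iic] at hj
              exact ⟨j + off K (s q i), by rw [mem_Iic]; omega, rfl⟩
            exact hboxG q (hHz hq) v (hboxx q (hHz hq) i hi v hvx') ((hFG.1 hf).2 v hv)
      · simp only [Nat.zero_add]
        exact h1
      · intro j hj1 hj2
        by_contra hcon
        exact h2 (j + off K (s q i)) (by omega) (by omega) hcon

end

end DA
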