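import Pool.Agent.DA.SetOm

/-!
# The bounded set `Om`, rows: at most two rows are seen
-/

open Set BIC BICS
open scoped Matroid

namespace DA

open Gad

universe u

section

variable {α : Type*} {P : Matroid α} {S : Set α} {row : α → Sym2 (ℕ × ℕ)}

lemma sub_cl_of_rk [P.Finite] {K F : Set α} (hKF : K ⊆ F) (hF : F ⊆ P.E)
    (h : rk P F ≤ rk P K) : F ⊆ P.closure K := by
  intro e he
  by_contra hcon
  have h1 := rk_insert_notMem (hF he) hcon
  have h2 : rk P (insert e K) ≤ rk P F := rk_mono P (insert_subset he hKF)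
  omega

/-- **Toggle.** If `z` sees a row then some representative of this row makes the end `p` a
location. -/
theorem tog [P.Finite] {X : ℕ × ℕ} {n : ℕ} (hG : RGrd P S row (rect X.1 X.2 n n)) {z : α}
    (hz : z ∈ P.closure S) {p q : ℕ × ℕ} (hpq : adj p q) (hp : Deep X n 3 p)
    (hq : q ∈ rect X.1 X.2 n n) (hs : Seen P S row z s(p, q)) {c : Set α}
    (hc : Rep S row (rect X.1 X.2 n n) c) :
    ∃ c', Rep S row (rect X.1 X.2 n n) c' ∧ (∀ e ∈ S, row e ≠ s(p, q) → (e ∈ c' ↔ e ∈ c)) ∧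
      p ∈ LocR P S row c' z := by
  classical
  have hpr : p ∈ rect X.1 X.2 n n := by
    unfold Deep at hp
    rw [Gad.mem_rct]
    omega
  have hn : 2 ≤ n := by
    unfold Deep at hp
    omega
  obtain ⟨cf, hcf⟩ : ∃ cf : α → Set α, ∀ f, cf f = {e | e ∈ c ∧ row e ≠ s(p, q)} ∪ {f} :=
    ⟨_, fun _ => rfl⟩
  have hrep : ∀ f ∈ S, row f = s(p, q) → Rep S row (rect X.1 X.2 n n) (cf f) := by
    intro f hf hfr
    rw [hcf]
    refine ⟨?_, ?_, ?_, ?_⟩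
    · rintro e (he | rfl)
      · exact hc.1 he.1
      · exact hf
    · rintro e (he | rfl) e' (he' | rfl) hee
      · exact hc.2.inj he.1 he'.1 hee
      · exact absurd (hee.trans hfr) he.2
      · exact absurd (hee.symm.trans hfr) he'.2
      · rfl
    · rintro e (he | rfl)
      · exact hc.2.mem e he.1
      · exact hG.mem e hf
    · intro p' q' h1 h2 h3
      by_cases h4 : s(p', q') = s(p, q)
      · exact ⟨f, Or.inr rfl, hfr.trans h4.symm⟩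
      · obtain ⟨e, he, h5⟩ := hc.2.surj p' q' h1 h2 h3
        exact ⟨e, Or.inl ⟨he, by rw [h5]; exact h4⟩, h5⟩
  by_contra hcon
  push Not at hcon
  obtain ⟨Q, hQ⟩ : ∃ Q : Set α, Q = {e | e ∈ c ∧ row e ≠ s(p, q) ∧ p ∈ row e} := ⟨_, rfl⟩
  have hQf : ∀ f ∈ S, row f = s(p, q) → {e | e ∈ cf f ∧ p ∈ row e} = insert f Q := by
    intro f hf hfr
    rw [hcf, hQ]
    ext e
    constructor
    · rintro ⟨h1 | h1, h2⟩
      · exact Or.inr ⟨h1.1, h1.2, h2⟩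
      · exact Or.inl h1
    · rintro (rfl | ⟨h1, h2, h3⟩)
      · exact ⟨Or.inr rfl, by rw [hfr]; simp⟩
      · exact ⟨Or.inl ⟨h1, h2⟩, h3⟩
  have hH : ∀ f ∈ S, row f = s(p, q) → z ∈ P.closure (S \ insert f Q) := by
    intro f hf hfr
    have h1 := hcon (cf f) (hrep f hf hfr) (by
      intro e heS her
      rw [hcf]
      constructor
      · rintro (h2 | h2)
        · exact h2.1
        · rw [mem_singleton_iff] at h2
          subst h2
          exact absurd hfr her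
      · exact fun h2 => Or.inl ⟨h2, her⟩)
    unfold LocR at h1
    rw [mem_ofPred_eq, not_not, hQf f hf hfr] at h1
    exact h1
  -- the row
  have hRf : {f | f ∈ S ∧ row f = s(p, q)}.Finite :=
    P.ground_finite.subset fun f hf => hG.sub hf.1
  obtain ⟨Ra, hRa⟩ : ∃ Ra : Finset α, ∀ f, f ∈ Ra ↔ (f ∈ S ∧ row f = s(p, q)) :=
    ⟨hRf.toFinset, fun f => by rw [Set.Finite.mem_toFinset]; rfl⟩
  have hnot : ∀ f ∈ S, row f = s(p, q) → f ∉ P.closure (S \ insert f Q) := by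
    intro f hf hfr h1
    have h2 := hG.bic _ (hrep f hf hfr).1 (hrep f hf hfr).2
    have h3 : f ∈ cf f := by rw [hcf]; exact Or.inr rfl
    refine Gad.not_mem_Hx' h2 h3 (w := p) (by rw [hfr]; simp) ?_
    unfold Gad.Hx
    rw [Matroid.contract_closure_eq, ins_union_eq (hrep f hf hfr).1, hQf f hf hfr]
    exact ⟨h1, fun h4 => h4.2 h3⟩
  have hfl : ∀ Y ⊆ Ra, rk P (P.closure S ∩ ⋂ f ∈ Y, P.closure (S \ insert f Q)) + Y.card ≤
      rk P S := by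
    intro Y
    induction Y using Finset.induction_on with
    | empty =>
      intro _
      have h1 : rk P (P.closure S ∩ ⋂ f ∈ (∅ : Finset α), P.closure (S \ insert f Q)) ≤
          rk P (P.closure S) := rk_mono P inter_subset_left
      rw [rk_closure] at h1
      rw [Finset.card_empty]
      omega
    | @insert f Y hf ih =>
      intro hY
      have h1 := ih (fun g hg => hY (Finset.mem_insert_of_mem hg))
      have hfR := (hRa f).1 (hY (Finset.mem_insert_self _ _))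
      set F := P.closure S ∩ ⋂ g ∈ Y, P.closure (S \ insert g Q) with hF
      have h2 : P.closure S ∩ ⋂ g ∈ insert f Y, P.closure (S \ insert g Q) =
          F ∩ P.closure (S \ insert f Q) := by
        rw [Finset.set_biInter_insert, hF]
        ext e
        simp only [mem_inter_iff]
        tauto
      have hfF : f ∈ F := by
        refine ⟨P.mem_closure_of_mem' hfR.1 (hG.sub hfR.1), ?_⟩
        simp only [mem_iInter]
        intro g hg
        refine P.mem_closure_of_mem' ⟨hfR.1, ?_⟩ (hG.sub hfR.1)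
        rintro (rfl | h3)
        · exact hf hg
        · rw [hQ] at h3
          exact h3.2.1 hfR.2
      have h3 : f ∉ P.closure (F ∩ P.closure (S \ insert f Q)) := by
        intro h4
        have h5 := P.closure_subset_closure (inter_subset_right (s := F)) h4
        rw [P.closure_closure] at h5
        exact hnot f hfR.1 hfR.2 h5
      have h4 := rk_insert_notMem (hG.sub hfR.1) h3
      have h5 : rk P (insert f (F ∩ P.closure (S \ insert f Q))) ≤ rk P F :=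
        rk_mono P (insert_subset hfF inter_subset_left)
      rw [h2, Finset.card_insert_of_notMem hf]
      omega
  have h1 := hfl Ra Finset.Subset.rfl
  obtain ⟨f₀, hf₀, hf₀r⟩ := hG.surj p q hpq hpr hq
  -- the rank of everything but the star of `p`
  have h2 : rk P S ≤ rk P (S \ insert f₀ Q) + 1 := by
    have hr := hrep f₀ hf₀ hf₀r
    have hb := hG.bic _ hr.1 hr.2
    have : (P ／ (S \ cf f₀)).Finite := BQ.fin_contract _
    have g1 := rk_sparse hb hr.2 hn {p} (by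
      intro v hv w hw hvw
      simp only [Finset.coe_singleton, mem_singleton_iff] at hv hw
      exact absurd (hv.trans hw.symm) hvw) (by
      intro v hv
      rw [Finset.mem_singleton] at hv
      rw [hv]
      exact hp)
    have g2 := rk_all hb hr.2 hn
    have hsub : ∀ Y : Set α, Y ⊆ cf f₀ → Y ⊆ P.E \ (S \ cf f₀) := fun Y hY e he =>
      ⟨hG.sub (hr.1 (hY he)), fun h => h.2 (hY he)⟩
    have g3 := BQ.rk_con (M := P) (C := S \ cf f₀) (sdiff_subset.trans hG.sub)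
      (hsub (cf f₀) subset_rfl)
    have g4 := BQ.rk_con (M := P) (C := S \ cf f₀) (sdiff_subset.trans hG.sub)
      (hsub (ins (cf f₀) row {p}ᶜ) fun e he => he.1)
    rw [union_sdiff_cancel hr.1] at g3
    rw [ins_union_eq hr.1, hQf f₀ hf₀ hf₀r] at g4
    rw [Finset.coe_singleton, Finset.card_singleton] at g1
    omega
  have hf₀R : f₀ ∈ Ra := (hRa f₀).2 ⟨hf₀, hf₀r⟩
  obtain ⟨K, hK⟩ : ∃ K, K = S \ ({f | f ∈ S ∧ row f = s(p, q)} ∪ Q) := ⟨_, rfl⟩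
  have h3 : rk P (S \ insert f₀ Q) ≤ rk P K + (Ra.erase f₀).card := by
    have h4 := rk_union_le P (X := K) (Y := ((Ra.erase f₀ : Finset α) : Set α))
      (Finset.finite_toSet _)
    rw [Set.ncard_coe_finset] at h4
    refine le_trans (rk_mono P ?_) h4
    rintro e ⟨he, heQ⟩
    by_cases h5 : e ∈ Ra
    · refine Or.inr (Finset.mem_coe.2 (Finset.mem_erase.2 ⟨?_, h5⟩))
      rintro rfl
      exact heQ (Or.inl rfl)
    · left
      rw [hK]
      refine ⟨he, ?_⟩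
      rintro (h6 | h6)
      · exact h5 ((hRa e).2 h6)
      · exact heQ (Or.inr h6)
  rw [Finset.card_erase_of_mem hf₀R] at h3
  have hpos : 0 < Ra.card := Finset.card_pos.2 ⟨f₀, hf₀R⟩
  have h4 : P.closure S ∩ ⋂ f ∈ Ra, P.closure (S \ insert f Q) ⊆ P.closure K := by
    refine sub_cl_of_rk ?_ (inter_subset_left.trans (P.closure_subset_ground _)) (by omega)
    intro e he
    rw [hK] at he
    refine ⟨P.mem_closure_of_mem' he.1 (hG.sub he.1), ?_⟩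
    simp only [mem_iInter]
    intro f hf
    refine P.mem_closure_of_mem' ⟨he.1, ?_⟩ (hG.sub he.1)
    rintro (rfl | h6)
    · exact he.2 (Or.inl ((hRa _).1 hf))
    · exact he.2 (Or.inr h6)
  have h5 : z ∈ P.closure K := by
    refine h4 ⟨hz, ?_⟩
    simp only [mem_iInter]
    intro f hf
    exact hH f ((hRa f).1 hf).1 ((hRa f).1 hf).2
  refine hs (P.closure_subset_closure ?_ h5)
  rw [hK]
  exact fun e he => ⟨he.1, fun h => he.2 (Or.inl h)⟩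

lemma par_ends {a : Sym2 (ℕ × ℕ)} {p q : ℕ × ℕ} (ha : a = s(p, q)) (hpq : adj p q) :
    ∃ E O : ℕ × ℕ, a = s(E, O) ∧ adj E O ∧ (E.1 + E.2) % 2 = 0 ∧ (O.1 + O.2) % 2 = 1 := by
  rcases Nat.even_or_odd' (p.1 + p.2) with ⟨t, ht | ht⟩
  · refine ⟨p, q, ha, hpq, by omega, ?_⟩
    unfold adj at hpq
    omega
  · refine ⟨q, p, ?_, ?_, ?_, by omega⟩
    · rw [ha, Sym2.eq_swap]
    · unfold adj at hpq ⊢
      omega
    · unfold adj at hpq
      omega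

/-- Three edges of the grid have distinct ends in a good order. -/
lemma leaf_order {A : Finset (Sym2 (ℕ × ℕ))} (hA : ∀ a ∈ A, ∃ p q, a = s(p, q) ∧ adj p q)
    (h3 : 2 < A.card) : ∃ b₁ ∈ A, ∃ b₂ ∈ A, ∃ b₃ ∈ A, ∃ v₁ ∈ b₁, ∃ v₂ ∈ b₂, ∃ v₃ ∈ b₃,
      v₁ ∉ b₂ ∧ v₁ ∉ b₃ ∧ v₂ ∉ b₃ := by
  obtain ⟨a₁, a₂, a₃, h1, h2, h3, h12, h13, h23⟩ := Finset.two_lt_card_iff.1 h3
  have hfin : ∀ b₁ ∈ A, ∀ b₂ ∈ A, ∀ b₃ ∈ A, b₂ ≠ b₃ → (∃ v ∈ b₁, v ∉ b₂ ∧ v ∉ b₃) →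
      ∃ b₁ ∈ A, ∃ b₂ ∈ A, ∃ b₃ ∈ A, ∃ v₁ ∈ b₁, ∃ v₂ ∈ b₂, ∃ v₃ ∈ b₃,
      v₁ ∉ b₂ ∧ v₁ ∉ b₃ ∧ v₂ ∉ b₃ := by
    rintro b₁ hb₁ b₂ hb₂ b₃ hb₃ hne ⟨v, hv, hv2, hv3⟩
    obtain ⟨p, q, hpq, hadj⟩ := hA b₂ hb₂
    obtain ⟨p', q', hpq', hadj'⟩ := hA b₃ hb₃
    have hex : ∃ w ∈ b₂, w ∉ b₃ := by
      by_contra hcon
      push Not at hcon
      have g1 := hcon p (by rw [hpq]; simp)
      have g2 := hcon q (by rw [hpq]; simp)
      apply hne
      have hpne : p ≠ q := by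
        rintro rfl
        unfold adj at hadj
        omega
      rw [hpq, hpq', Sym2.mem_iff] at *
      rcases g1 with rfl | rfl <;> rcases g2 with rfl | rfl
      · exact absurd rfl hpne
      · rfl
      · rw [Sym2.eq_swap]
      · exact absurd rfl hpne
    obtain ⟨w, hw, hw'⟩ := hex
    exact ⟨b₁, hb₁, b₂, hb₂, b₃, hb₃, v, hv, w, hw, p', by rw [hpq']; simp, hv2, hv3, hw'⟩
  obtain ⟨_, _, g1, g2⟩ := hA a₁ h1
  obtain ⟨_, _, g3, g4⟩ := hA a₂ h2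
  obtain ⟨_, _, g5, g6⟩ := hA a₃ h3
  obtain ⟨E₁, O₁, e1, _, pE1, pO1⟩ := par_ends g1 g2
  obtain ⟨E₂, O₂, e2, _, pE2, pO2⟩ := par_ends g3 g4
  obtain ⟨E₃, O₃, e3, _, pE3, pO3⟩ := par_ends g5 g6
  have hEO : ∀ E O : ℕ × ℕ, (E.1 + E.2) % 2 = 0 → (O.1 + O.2) % 2 = 1 → E ≠ O := by
    rintro E O h1 h2 rfl
    omega
  have hin : ∀ {b : Sym2 (ℕ × ℕ)} {E O v : ℕ × ℕ}, b = s(E, O) → v ≠ E → v ≠ O → v ∉ b := by
    intro b E O v hb k1 k2 hv
    rw [hb, Sym2.mem_iff] at hv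
    tauto
  by_cases c12 : E₁ = E₂
  · by_cases c13 : E₁ = E₃
    · -- all even ends are equal
      have k1 : O₁ ≠ O₂ := by
        rintro rfl
        exact h12 (by rw [e1, e2, c12])
      have k2 : O₁ ≠ O₃ := by
        rintro rfl
        exact h13 (by rw [e1, e3, c13])
      exact hfin a₁ h1 a₂ h2 a₃ h3 h23 ⟨O₁, by rw [e1]; simp,
        hin e2 (hEO _ _ pE2 pO1).symm k1, hin e3 (hEO _ _ pE3 pO1).symm k2⟩
    · exact hfin a₃ h3 a₁ h1 a₂ h2 h12 ⟨E₃, by rw [e3]; simp,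
        hin e1 (Ne.symm c13) (hEO _ _ pE3 pO1), hin e2 (by rw [← c12]; exact Ne.symm c13)
          (hEO _ _ pE3 pO2)⟩
  · by_cases c13 : E₁ = E₃
    · exact hfin a₂ h2 a₁ h1 a₃ h3 h13 ⟨E₂, by rw [e2]; simp,
        hin e1 (Ne.symm c12) (hEO _ _ pE2 pO1), hin e3 (by rw [← c13]; exact Ne.symm c12)
          (hEO _ _ pE2 pO3)⟩
    · exact hfin a₁ h1 a₂ h2 a₃ h3 h23 ⟨E₁, by rw [e1]; simp,
        hin e2 c12 (hEO _ _ pE1 pO2), hin e3 c13 (hEO _ _ pE1 pO3)⟩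

end

/-- **B2, rows.** Three different rows outside of `Om` and of the outer layer are not all seen. -/
theorem setOmRows (k β D : ℕ) : ∃ r δ : ℕ, ∀ {α : Type u} (P : Matroid α) [P.Finite] (S : Set α)
    (row : α → Sym2 (ℕ × ℕ)) (X : ℕ × ℕ) (n : ℕ), RGrd P S row (rect X.1 X.2 n n) →
    HasUniformMinor P k ∨ ∃ Om : Finset (ℕ × ℕ), Om.card ≤ r ∧ ∀ z ∈ P.closure S, z ∉ S →
      (∃ N : Finset (ℕ × ℕ), N.card ≤ β ∧ ∀ c, Rep S row (rect X.1 X.2 n n) c →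
        ∀ v ∈ LocR P S row c z, Deep X n D v → v ∈ N) →
      ∀ A : Finset (Sym2 (ℕ × ℕ)), (∀ a ∈ A, ∃ p q, a = s(p, q) ∧ adj p q ∧ Seen P S row z a ∧
        Deep X n δ p ∧ Deep X n δ q ∧ ∀ w ∈ Om, Apart δ p w ∧ Apart δ q w) → A.card ≤ 2 := by
  classical
  obtain ⟨r, δ, h⟩ := setOmR.{u} k β D
  refine ⟨r, δ + 3, ?_⟩
  intro α P _ S row X n hG
  rcases h P S row X n hG with h1 | ⟨Om, hOm, h1⟩
  · exact Or.inl h1
  refine Or.inr ⟨Om, hOm, ?_⟩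
  intro z hz hzS hN A hA
  by_contra hcon
  push Not at hcon
  obtain ⟨b₁, hb₁, b₂, hb₂, b₃, hb₃, v₁, hv₁, v₂, hv₂, v₃, hv₃, k1, k2, k3⟩ :=
    leaf_order (fun a ha => by
      obtain ⟨p, q, g1, g2, _⟩ := hA a ha
      exact ⟨p, q, g1, g2⟩) hcon
  have hstep : ∀ b ∈ A, ∀ v ∈ b, (Deep X n (δ + 3) v ∧ ∀ w ∈ Om, Apart (δ + 3) v w) ∧
      ∀ c, Rep S row (rect X.1 X.2 n n) c → ∃ c', Rep S row (rect X.1 X.2 n n) c' ∧
        (∀ e ∈ S, row e ≠ b → (e ∈ c' ↔ e ∈ c)) ∧ v ∈ LocR P S row c' z := by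
    intro b hb v hv
    obtain ⟨p, q, g1, g2, g3, g4, g5, g6⟩ := hA b hb
    have hd3 : ∀ w, Deep X n (δ + 3) w → Deep X n 3 w ∧ w ∈ rect X.1 X.2 n n := by
      intro w hw
      rw [Gad.mem_rct]
      unfold Deep at hw ⊢
      omega
    rw [g1, Sym2.mem_iff] at hv
    rcases hv with rfl | rfl
    · refine ⟨⟨g4, fun w hw => (g6 w hw).1⟩, fun c hc => ?_⟩
      rw [g1] at g3 ⊢
      exact tog hG hz g2 (hd3 _ g4).1 (hd3 _ g5).2 g3 hc
    · refine ⟨⟨g5, fun w hw => (g6 w hw).2⟩, fun c hc => ?_⟩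
      rw [g1, Sym2.eq_swap] at g3 ⊢
      exact tog hG hz (by unfold adj at g2 ⊢; omega) (hd3 _ g5).1 (hd3 _ g4).2 g3 hc
  obtain ⟨c₀, hc₀⟩ := exists_rep hG
  obtain ⟨c₁, hc₁, _, l1⟩ := (hstep b₁ hb₁ v₁ hv₁).2 c₀ hc₀
  obtain ⟨c₂, hc₂, m2, l2⟩ := (hstep b₂ hb₂ v₂ hv₂).2 c₁ hc₁
  obtain ⟨c₃, hc₃, m3, l3⟩ := (hstep b₃ hb₃ v₃ hv₃).2 c₂ hc₂
  have hkeep : ∀ (c c' : Set α) (b : Sym2 (ℕ × ℕ)) (v : ℕ × ℕ), c ⊆ S → c' ⊆ S →
      (∀ e ∈ S, row e ≠ b → (e ∈ c' ↔ e ∈ c)) → v ∉ b → v ∈ LocR P S row c z →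
      v ∈ LocR P S row c' z := by
    intro c c' b v hc hc' hm hv hl
    unfold LocR at hl ⊢
    rw [mem_ofPred_eq] at hl ⊢
    have e : {e | e ∈ c' ∧ v ∈ row e} = {e | e ∈ c ∧ v ∈ row e} := by
      ext e
      constructor
      · rintro ⟨g1, g2⟩
        exact ⟨(hm e (hc' g1) (fun h => hv (h ▸ g2))).1 g1, g2⟩
      · rintro ⟨g1, g2⟩
        exact ⟨(hm e (hc g1) (fun h => hv (h ▸ g2))).2 g1, g2⟩
    rw [e]
    exact hl
  have l1' := hkeep _ _ b₃ v₁ hc₂.1 hc₃.1 m3 k2 (hkeep _ _ b₂ v₁ hc₁.1 hc₂.1 m2 k1 l1)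
  have l2' := hkeep _ _ b₃ v₂ hc₂.1 hc₃.1 m3 k3 l2
  have n12 : v₁ ≠ v₂ := by rintro rfl; exact k1 hv₂
  have n13 : v₁ ≠ v₃ := by rintro rfl; exact k2 hv₃
  have n23 : v₂ ≠ v₃ := by rintro rfl; exact k3 hv₃
  have hfin := h1 z hz hzS hN c₃ hc₃ {v₁, v₂, v₃} (by
    have hwk : ∀ v, (Deep X n (δ + 3) v ∧ ∀ w ∈ Om, Apart (δ + 3) v w) →
        Deep X n δ v ∧ ∀ w ∈ Om, Apart δ v w := by
      rintro v ⟨g1, g2⟩
      refine ⟨?_, fun w hw => ?_⟩
      · unfold Deep at g1 ⊢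
        omega
      · have := g2 w hw
        unfold Apart at this ⊢
        omega
    intro v hv
    simp only [Finset.mem_insert, Finset.mem_singleton] at hv
    rcases hv with rfl | rfl | rfl
    · exact ⟨l1', hwk _ (hstep b₁ hb₁ _ hv₁).1⟩
    · exact ⟨l2', hwk _ (hstep b₂ hb₂ _ hv₂).1⟩
    · exact ⟨l3, hwk _ (hstep b₃ hb₃ _ hv₃).1⟩)
  rw [Finset.card_eq_three.2 ⟨v₁, v₂, v₃, n12, n13, n23, rfl⟩] at hfin
  omega

end DA
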