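import Pool.Agent.DA.MDefs

/-!
# Statements: from the brick wall to a plain rectangle, from a rectangle to a square
-/

open Set BIC BICS
open scoped Matroid

namespace DA

universe u

/-- adjacency in the brick wall -/
def wadj (p q : ℕ × ℕ) : Prop :=
  (p.2 = q.2 ∧ (p.1 + 1 = q.1 ∨ q.1 + 1 = p.1)) ∨
    (p.1 = q.1 ∧ ((p.2 + 1 = q.2 ∧ (p.1 + p.2) % 2 = 0) ∨ (q.2 + 1 = p.2 ∧ (q.1 + q.2) % 2 = 0)))

/-- the vertical neighbour in the brick wall -/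
def vn (p : ℕ × ℕ) : ℕ × ℕ := if (p.1 + p.2) % 2 = 0 then (p.1, p.2 + 1) else (p.1, p.2 - 1)

/-- `S` carries the brick wall on `[0, w] × [0, w]` without the edges of `miss`. -/
structure WallE {α : Type*} (S : Set α) (ends : α → Sym2 (ℕ × ℕ)) (w : ℕ)
    (miss : Set (Sym2 (ℕ × ℕ))) : Prop where
  inj : InjOn ends S
  mem : ∀ e ∈ S, ∃ p q, ends e = s(p, q) ∧ wadj p q ∧ p ∈ rect 0 0 (w + 1) (w + 1) ∧
    q ∈ rect 0 0 (w + 1) (w + 1)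
  surj : ∀ p q, wadj p q → p ∈ rect 0 0 (w + 1) (w + 1) → q ∈ rect 0 0 (w + 1) (w + 1) →
    s(p, q) ∉ miss → ∃ e ∈ S, ends e = s(p, q)

/-- the matching number `i` (`0` or `1`): the pairs `{2 X + i, 2 X + i + 1}` of every row -/
def pw (i : ℕ) (p : ℕ × ℕ) : ℕ × ℕ := ((p.1 - i) / 2, p.2)

/-- `τ` is a target: the half `p` of a pair of `K` goes to its outer horizontal neighbour or to its
vertical neighbour -/
def Tgt (i : ℕ) (K : Set (ℕ × ℕ)) (τ : ℕ × ℕ → ℕ × ℕ) : Prop :=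
  ∀ p : ℕ × ℕ, pw i p ∈ K → τ p = vn p ∨ ((p.1 + i) % 2 = 0 ∧ τ p = (p.1 - 1, p.2)) ∨
    ((p.1 + i) % 2 = 1 ∧ τ p = (p.1 + 1, p.2))

/-- the vertices of the wall in the blob `b` -/
def blob (i : ℕ) (K : Set (ℕ × ℕ)) (τ : ℕ × ℕ → ℕ × ℕ) (b : ℕ × ℕ) : Set (ℕ × ℕ) :=
  {p | (pw i p ∉ K ∧ pw i p = b) ∨ (pw i p ∈ K ∧ pw i (τ p) = b)}

/-- STATEMENT wquot. The wall without the pairs of `K` (their halves are contracted into the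
targets) is a plain rectangle without `K`. Blobs without locations are no locations, blobs with
exactly one location are locations. -/
def WQuot : Prop :=
  ∀ {α : Type u} (P : Matroid α) [P.Finite] (S : Set α) (ends : α → Sym2 (ℕ × ℕ)) (w i : ℕ)
    (K : Finset (ℕ × ℕ)) (τ : ℕ × ℕ → ℕ × ℕ) (miss : Set (Sym2 (ℕ × ℕ))), i ≤ 1 → 40 ≤ w →
    Bic P S ends → WallE S ends w miss → Tgt i (K : Set (ℕ × ℕ)) τ →
    (∀ v ∈ K, DeepR (0, 0) ((w + 1 - i) / 2) (w + 1) 10 v) →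
    (∀ v ∈ K, ∀ v' ∈ K, v ≠ v' → 10 < sd v v') →
    (∀ p q, s(p, q) ∈ miss → (pw i p ∈ K ∧ τ p ≠ q) ∨ (pw i q ∈ K ∧ τ q ≠ p)) →
    ∃ Z S' : Set α, Z ⊆ S ∧ S' ⊆ S ∧
      Bic (P ／ Z) S' (fun e => (ends e).map (pw i)) ∧
      CWL.GrdU S' (fun e => (ends e).map (pw i))
        (rect 0 0 ((w + 1 - i) / 2) (w + 1) \ (K : Set (ℕ × ℕ))) ∧
      ∀ z ∈ P.closure S, z ∉ S → z ∈ (P ／ Z).closure S' ∧ z ∉ S' ∧
        ∀ b, DeepR (0, 0) ((w + 1 - i) / 2) (w + 1) 10 b → b ∉ K →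
          ((∀ p ∈ blob i K τ b, p ∉ CWL.Loc P S ends z) →
            b ∉ CWL.Loc (P ／ Z) S' (fun e => (ends e).map (pw i)) z) ∧
          ∀ p ∈ blob i K τ b, p ∈ CWL.Loc P S ends z →
            (∀ p' ∈ blob i K τ b, p' ≠ p → p' ∉ CWL.Loc P S ends z) →
            b ∈ CWL.Loc (P ／ Z) S' (fun e => (ends e).map (pw i)) z

/-- STATEMENT merge. Rows of a plain rectangle are merged until `b'` rows are left, away from the
rows of `T` (finite, at most `h` elements): `g` is the map of the rows. -/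
def RowMerge : Prop :=
  ∀ h M : ℕ, ∃ δ : ℕ, ∀ {α : Type u} (P : Matroid α) [P.Finite] (S : Set α)
    (ends : α → Sym2 (ℕ × ℕ)) (X : ℕ × ℕ) (a b b' : ℕ) (K : Finset (ℕ × ℕ)) (T : Finset ℕ),
    Bic P S ends → CWL.GrdU S ends (rect X.1 X.2 a b \ (K : Set (ℕ × ℕ))) → T.card ≤ h →
    (∀ v ∈ K, v.2 ∈ T) → (∀ v ∈ K, DeepR X a b 10 v) → (∀ v ∈ K, ∀ v' ∈ K, v ≠ v' → 10 < sd v v') →
    δ ≤ a → δ ≤ b' → b' ≤ b →
    ∃ (Z S' : Set α) (g : ℕ → ℕ), Z ⊆ S ∧ S' ⊆ S ∧ Monotone g ∧ (∀ y, g (y + 1) ≤ g y + 1) ∧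
      (∀ y ≤ X.2 + M, g y = y) ∧ (∀ y, X.2 + b ≤ y + M → g y + b = y + b') ∧
      (∀ t ∈ T, ∀ y, t ≤ y + M → y ≤ t + M → g (y + 1) = g y + 1) ∧
      Bic (P ／ Z) S' (fun e => (ends e).map (fun v => (v.1, g v.2))) ∧
      CWL.GrdU S' (fun e => (ends e).map (fun v => (v.1, g v.2)))
        (rect X.1 X.2 a b' \ (fun v : ℕ × ℕ => (v.1, g v.2)) '' (K : Set (ℕ × ℕ))) ∧
      ∀ z ∈ P.closure S, z ∉ S → z ∈ (P ／ Z).closure S' ∧ z ∉ S' ∧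
        ∀ v : ℕ × ℕ, DeepR X a b' 10 v → v ∉ (fun v : ℕ × ℕ => (v.1, g v.2)) '' (K : Set (ℕ × ℕ)) →
          ((∀ p : ℕ × ℕ, (p.1, g p.2) = v → p ∉ CWL.Loc P S ends z) →
            v ∉ CWL.Loc (P ／ Z) S' (fun e => (ends e).map (fun v => (v.1, g v.2))) z) ∧
          ∀ p : ℕ × ℕ, (p.1, g p.2) = v → p ∈ CWL.Loc P S ends z →
            (∀ p' : ℕ × ℕ, (p'.1, g p'.2) = v → p' ≠ p → p' ∉ CWL.Loc P S ends z) →
            v ∈ CWL.Loc (P ／ Z) S' (fun e => (ends e).map (fun v => (v.1, g v.2))) z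

end DA
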