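import Pool.Agent.DA.ArbQ
import Pool.Agent.DA.WQA
import Pool.Agent.DA.WStat
import Pool.Agent.DA.SetOmRows

/-!
# Coarse quotients: connected classes, exact locations for at most one location per class
-/

open Set BIC BICS
open scoped Matroid

namespace DA

open Gad TST

section

variable {α V : Type*}

/-- Induction along a tree, from all vertices down to the root. -/
lemma arb_down {S : Set α} {ends : α → Sym2 V} {C : Set V} {τ : Set α} (hC : C.Finite)
    (hτ : Arb S ends C τ) {p : V} (Φ : Set V → Prop) (h0 : Φ C)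
    (step : ∀ U v, p ∈ U → U ⊆ C → v ∈ C → v ∉ U →
      (∃ e ∈ τ, v ∈ ends e ∧ ∀ x ∈ ends e, x ∈ insert v U) → Φ (insert v U) → Φ U) :
    ∀ U, p ∈ U → U ⊆ C → Φ U := by
  have key : ∀ n, ∀ U, p ∈ U → U ⊆ C → (C \ U).ncard = n → Φ U := by
    intro n
    induction n with
    | zero =>
      intro U _ hUC hn
      have h1 : C \ U = ∅ := (ncard_eq_zero (hC.subset sdiff_subset)).1 hn
      have h2 : U = C := hUC.antisymm (sdiff_eq_empty.1 h1)
      rw [h2]
      exact h0
    | succ n ih =>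
      intro U hpU hUC hn
      have hne : (C \ U).Nonempty := by
        rw [← ncard_pos (hC.subset sdiff_subset)]
        omega
      -- an edge with exactly one end in `U`
      obtain ⟨e, he, u, hu, huU, v, hv, hvU⟩ : ∃ e ∈ τ, ∃ u ∈ ends e, u ∈ U ∧
          ∃ v ∈ ends e, v ∉ U := by
        by_contra hcon
        push Not at hcon
        obtain ⟨φ, hφ, hφe⟩ := hτ.2.2 p (hUC hpU)
        obtain ⟨r, hr⟩ := hne
        obtain ⟨ψ, hψ, hψe⟩ := hτ.2.2 r hr.1
        obtain ⟨T, hT⟩ : ∃ T : Set α, T = {e | e ∈ τ ∧ φ e ∉ U} := ⟨_, rfl⟩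
        have hTe : ∀ e ∈ T, ∀ x ∈ ends e, x ∉ U := by
          intro e he x hx hxU
          rw [hT] at he
          exact he.2 (hcon e he.1 x hx hxU _ (hφe e he.1))
        have h1 : φ '' T = C \ U := by
          ext x
          constructor
          · rintro ⟨e, he, rfl⟩
            rw [hT] at he
            exact ⟨(hφ.mapsTo he.1).1, he.2⟩
          · rintro ⟨hxC, hxU⟩
            obtain ⟨e, he, rfl⟩ := hφ.surjOn ⟨hxC, fun h => hxU (by
              rw [mem_singleton_iff] at h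
              rw [h]
              exact hpU)⟩
            exact ⟨e, by rw [hT]; exact ⟨he, hxU⟩, rfl⟩
        have hTτ : T ⊆ τ := by
          rw [hT]
          exact fun e he => he.1
        have h2 : ψ '' T ⊆ (C \ U) \ {r} := by
          rintro _ ⟨e, he, rfl⟩
          have h3 := hψ.mapsTo (hTτ he)
          exact ⟨⟨h3.1, hTe e he _ (hψe e (hTτ he))⟩, h3.2⟩
        have h3 := ncard_le_ncard h2 ((hC.subset sdiff_subset).subset sdiff_subset)
        rw [(hψ.injOn.mono hTτ).ncard_image, ← (hφ.injOn.mono hTτ).ncard_image, h1] at h3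
        have h4 := ncard_sdiff_singleton_add_one hr (hC.subset sdiff_subset)
        omega
      have hvC : v ∈ C := (hτ.1 he).2 v hv
      have hee : ends e = s(u, v) := by
        have huv : u ≠ v := fun h => hvU (h ▸ huU)
        exact (Sym2.mem_and_mem_iff huv).1 ⟨hu, hv⟩
      refine step U v hpU hUC hvC hvU ⟨e, he, hv, ?_⟩ (ih _ (Or.inr hpU)
        (insert_subset hvC hUC) ?_)
      · intro x hx
        rw [hee, Sym2.mem_iff] at hx
        rcases hx with rfl | rfl
        · exact Or.inr huU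
        · exact Or.inl rfl
      · have h5 : C \ U = insert v (C \ insert v U) := by
          ext x
          simp only [mem_sdiff, mem_insert_iff]
          constructor
          · rintro ⟨h6, h7⟩
            by_cases h8 : x = v
            · exact Or.inl h8
            · exact Or.inr ⟨h6, fun h9 => h9.elim h8 h7⟩
          · rintro (rfl | ⟨h6, h7⟩)
            · exact ⟨hvC, hvU⟩
            · exact ⟨h6, fun h8 => h7 (Or.inr h8)⟩
        rw [h5, ncard_insert_of_notMem (fun h6 => h6.2 (Or.inl rfl))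
          (hC.subset sdiff_subset)] at hn
        omega
  exact fun U hpU hUC => key _ U hpU hUC rfl

variable {P : Matroid α}

/-- **Rank drop along a tree.** -/
lemma rk_drop [P.Finite] {S : Set α} {ends : α → Sym2 V} (hB : Bic P S ends) {C : Set V}
    {τ : Set α} (hC : C.Finite) (hτ : Arb S ends C τ) {p : V} (hp : p ∈ C) {Y : Set α}
    (_hY : Y ⊆ P.E) (hτY : τ ⊆ Y) :
    rk P (P.closure Y ∩ ⋂ v ∈ C \ {p}, P.closure (ins S ends {v}ᶜ)) + (C \ {p}).ncard ≤ rk P Y := by
  refine arb_down hC hτ (p := p) (fun U => rk P (P.closure Y ∩ ⋂ v ∈ C \ U,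
    P.closure (ins S ends {v}ᶜ)) + (C \ U).ncard ≤ rk P Y) ?_ ?_ {p} (mem_singleton p)
    (singleton_subset_iff.2 hp)
  · rw [sdiff_self, ncard_empty, add_zero]
    exact (rk_mono P inter_subset_left).trans (rk_closure Y).le
  · rintro U v hpU hUC hvC hvU ⟨e, he, hve, hex⟩ h1
    obtain ⟨X, hX⟩ : ∃ X, X = P.closure Y ∩ ⋂ x ∈ C \ insert v U,
      P.closure (ins S ends {x}ᶜ) := ⟨_, rfl⟩
    have heS : e ∈ S := (hτ.1 he).1
    have h2 : P.closure Y ∩ ⋂ x ∈ C \ U, P.closure (ins S ends {x}ᶜ) =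
        X ∩ P.closure (ins S ends {v}ᶜ) := by
      rw [hX]
      ext x
      simp only [mem_inter_iff, mem_iInter, mem_sdiff, mem_insert_iff]
      constructor
      · rintro ⟨h3, h4⟩
        exact ⟨⟨h3, fun w hw => h4 w ⟨hw.1, fun h5 => hw.2 (Or.inr h5)⟩⟩, h4 v ⟨hvC, hvU⟩⟩
      · rintro ⟨⟨h3, h4⟩, h5⟩
        refine ⟨h3, fun w hw => ?_⟩
        by_cases hwv : w = v
        · rw [hwv]
          exact h5
        · exact h4 w ⟨hw.1, fun h6 => h6.elim hwv hw.2⟩
    have heX : e ∈ X := by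
      rw [hX]
      refine ⟨P.mem_closure_of_mem' (hτY he) (hB.sub heS), ?_⟩
      simp only [mem_iInter]
      intro w hw
      refine P.mem_closure_of_mem' ⟨heS, fun x hx hxw => ?_⟩ (hB.sub heS)
      rw [mem_singleton_iff] at hxw
      subst hxw
      exact hw.2 (hex x hx)
    have h3 : e ∉ P.closure (X ∩ P.closure (ins S ends {v}ᶜ)) := by
      intro h4
      have h5 := P.closure_subset_closure (inter_subset_right (s := X)) h4
      rw [P.closure_closure] at h5
      exact Gad.not_mem_Hx' hB heS hve h5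
    have h4 := rk_insert_notMem (hB.sub heS) h3
    have h5 : rk P (insert e (X ∩ P.closure (ins S ends {v}ᶜ))) ≤ rk P X :=
      rk_mono P (insert_subset heX inter_subset_left)
    rw [← hX] at h1
    have h6 : C \ U = insert v (C \ insert v U) := by
      ext x
      simp only [mem_sdiff, mem_insert_iff]
      constructor
      · rintro ⟨h6, h7⟩
        by_cases h8 : x = v
        · exact Or.inl h8
        · exact Or.inr ⟨h6, fun h9 => h9.elim h8 h7⟩
      · rintro (rfl | ⟨h6, h7⟩)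
        · exact ⟨hvC, hvU⟩
        · exact ⟨h6, fun h8 => h7 (Or.inr h8)⟩
    have h7 : (C \ U).ncard = (C \ insert v U).ncard + 1 := by
      rw [h6, ncard_insert_of_notMem (fun h6 => h6.2 (Or.inl rfl)) (hC.subset sdiff_subset)]
    simp only [h2, h7]
    omega

/-- No location in a connected class with full complement: everything is spanned outside. -/
lemma none_class [P.Finite] {S : Set α} {ends : α → Sym2 V} (hB : Bic P S ends) {C : Set V}
    {τ : Set α} (hC : C.Finite) (hτ : Arb S ends C τ) {F₀ : Set α}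
    (hF₀ : F₀ = ins S ends Cᶜ) (hrk : rk P S ≤ rk P F₀ + C.ncard) {p : V} (hp : p ∈ C)
    {e : α} (he : e ∈ S) (hpe : p ∈ ends e) (heC : ∀ x ∈ ends e, x ∈ C → x = p) {z : α}
    (hz : z ∈ P.closure S) (hno : ∀ v ∈ C, z ∈ P.closure (ins S ends {v}ᶜ)) :
    z ∈ P.closure F₀ := by
  have h1 := rk_drop hB hC hτ hp hB.sub (fun x hx => (hτ.1 hx).1)
  obtain ⟨X, hX⟩ : ∃ X, X = P.closure S ∩ ⋂ v ∈ C \ {p}, P.closure (ins S ends {v}ᶜ) := ⟨_, rfl⟩
  rw [← hX] at h1
  have heX : e ∈ X := by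
    rw [hX]
    refine ⟨P.mem_closure_of_mem' he (hB.sub he), ?_⟩
    simp only [mem_iInter]
    intro w hw
    refine P.mem_closure_of_mem' ⟨he, fun x hx hxw => ?_⟩ (hB.sub he)
    rw [mem_singleton_iff] at hxw
    subst hxw
    exact hw.2 (heC x hx hw.1)
  have h3 : e ∉ P.closure (X ∩ P.closure (ins S ends {p}ᶜ)) := by
    intro h4
    have h5 := P.closure_subset_closure (inter_subset_right (s := X)) h4
    rw [P.closure_closure] at h5
    exact Gad.not_mem_Hx' hB he hpe h5
  have h4 := rk_insert_notMem (hB.sub he) h3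
  have h5 : rk P (insert e (X ∩ P.closure (ins S ends {p}ᶜ))) ≤ rk P X :=
    rk_mono P (insert_subset heX inter_subset_left)
  have h6 := ncard_sdiff_singleton_add_one hp hC
  have hFX : F₀ ⊆ X ∩ P.closure (ins S ends {p}ᶜ) := by
    have key : ∀ v ∈ C, F₀ ⊆ P.closure (ins S ends {v}ᶜ) := by
      intro v hv
      rw [hF₀]
      refine subset_trans (ins_mono ?_) (P.subset_closure _ fun x hx => hB.sub hx.1)
      intro x hx hxv
      rw [mem_singleton_iff] at hxv
      rw [hxv] at hx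
      exact hx hv
    intro x hx
    refine ⟨?_, key p hp hx⟩
    rw [hX]
    refine ⟨P.mem_closure_of_mem' (by rw [hF₀] at hx; exact hx.1)
      (hB.sub (by rw [hF₀] at hx; exact hx.1)), ?_⟩
    simp only [mem_iInter]
    exact fun v hv => key v hv.1 hx
  have h7 : X ∩ P.closure (ins S ends {p}ᶜ) ⊆ P.closure F₀ := by
    refine sub_cl_of_rk hFX (inter_subset_right.trans (P.closure_subset_ground _)) ?_
    omega
  refine h7 ⟨?_, hno p hp⟩
  rw [hX]
  refine ⟨hz, ?_⟩
  simp only [mem_iInter]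
  exact fun v hv => hno v hv.1

/-- Exactly one location in a class: it survives. -/
lemma one_class [P.Finite] {S : Set α} {ends : α → Sym2 V} (hB : Bic P S ends) {C : Set V}
    {τ : Set α} (hC : C.Finite) (hτ : Arb S ends C τ) {F₀ : Set α}
    (hF₀ : F₀ = ins S ends Cᶜ) {p : V} (hp : p ∈ C) {z : α}
    (hno : ∀ v ∈ C, v ≠ p → z ∈ P.closure (ins S ends {v}ᶜ))
    (hz : z ∈ P.closure (F₀ ∪ τ)) : z ∈ P.closure (ins S ends {p}ᶜ) := by
  have hτS : τ ⊆ S := fun x hx => (hτ.1 hx).1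
  have hF₀S : F₀ ⊆ S := by
    rw [hF₀]
    exact fun x hx => hx.1
  have h1 := rk_drop hB hC hτ hp (Y := F₀ ∪ τ) ((union_subset hF₀S hτS).trans hB.sub)
    subset_union_right
  obtain ⟨X, hX⟩ : ∃ X, X = P.closure (F₀ ∪ τ) ∩ ⋂ v ∈ C \ {p}, P.closure (ins S ends {v}ᶜ) :=
    ⟨_, rfl⟩
  rw [← hX] at h1
  have hτf : τ.Finite := P.ground_finite.subset (hτS.trans hB.sub)
  have h2 : rk P (F₀ ∪ τ) ≤ rk P F₀ + τ.ncard := rk_union_le P hτf
  have h3 : τ.ncard = (C \ {p}).ncard := by
    obtain ⟨o, ho, _⟩ := hτ.2.2 p hp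
    rw [← ho.image_eq, ho.injOn.ncard_image]
  have key : ∀ v ∈ C, F₀ ⊆ P.closure (ins S ends {v}ᶜ) := by
    intro v hv
    rw [hF₀]
    refine subset_trans (ins_mono ?_) (P.subset_closure _ fun x hx => hB.sub hx.1)
    intro x hx hxv
    rw [mem_singleton_iff] at hxv
    rw [hxv] at hx
    exact hx hv
  have hFX : F₀ ⊆ X := by
    intro x hx
    rw [hX]
    refine ⟨P.mem_closure_of_mem' (Or.inl hx) (hB.sub (hF₀S hx)), ?_⟩
    simp only [mem_iInter]
    exact fun v hv => key v hv.1 hx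
  have h7 : X ⊆ P.closure F₀ := by
    refine sub_cl_of_rk hFX ?_ (by omega)
    rw [hX]
    exact inter_subset_left.trans (P.closure_subset_ground _)
  have h8 : z ∈ X := by
    rw [hX]
    refine ⟨hz, ?_⟩
    simp only [mem_iInter]
    exact fun v hv => hno v hv.1 hv.2
  have h9 := P.closure_subset_closure (key p hp) (h7 h8)
  rwa [P.closure_closure] at h9

end


/-- The map `G` has connected nonempty classes over the rectangle without `K`, adjacent classes
are joined by an element. -/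
structure Coarse {α : Type*} (S : Set α) (ends : α → Sym2 (ℕ × ℕ)) (A : Set (ℕ × ℕ))
    (G : ℕ × ℕ → ℕ × ℕ) (a b : ℕ) (K : Finset (ℕ × ℕ)) : Prop where
  fin : A.Finite
  sub : ∀ e ∈ S, ∀ v ∈ ends e, v ∈ A
  mem : ∀ v ∈ A, G v ∈ rect 0 0 a b \ (K : Set (ℕ × ℕ))
  con : ∀ c ∈ rect 0 0 a b \ (K : Set (ℕ × ℕ)), (cls A G c).Nonempty ∧ VConn S ends (cls A G c)
  adj : ∀ c c', adj c c' → c ∈ rect 0 0 a b \ (K : Set (ℕ × ℕ)) →
    c' ∈ rect 0 0 a b \ (K : Set (ℕ × ℕ)) → ∃ e ∈ S, ∃ p q, ends e = s(p, q) ∧ G p = c ∧ G q = c'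
  ha : 6 ≤ a
  hb : 6 ≤ b
  deep : ∀ v ∈ K, DeepR (0, 0) a b 10 v
  far : ∀ v ∈ K, ∀ v' ∈ K, v ≠ v' → 10 < sd v v'

lemma rk_of_fullb {α V : Type*} {P : Matroid α} {S : Set α} {ends : α → Sym2 V} {U : Set V}
    {F : Set α} (hB : Bic P S ends) (hU : U.Finite) (h : FullB S ends U F) :
    rk P (ins S ends U) = U.ncard := by
  have h1 := h.basis hB hU
  have h2 := h.encard
  unfold BIC.rk
  rw [← h1.encard_eq_eRk, h2]
  rfl

/-- **Coarse quotient.** -/
theorem Coarse.quo {α : Type*} {P : Matroid α} [P.Finite] {S : Set α}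
    {ends : α → Sym2 (ℕ × ℕ)} {A : Set (ℕ × ℕ)} {G : ℕ × ℕ → ℕ × ℕ} {a b : ℕ}
    {K : Finset (ℕ × ℕ)} (h : Coarse S ends A G a b K) (hB : Bic P S ends) :
    ∃ Z S' : Set α, Z ⊆ S ∧ S' ⊆ S ∧ Bic (P ／ Z) S' (fun e => (ends e).map G) ∧
      CWL.GrdU S' (fun e => (ends e).map G) (rect 0 0 a b \ (K : Set (ℕ × ℕ))) ∧
      ∀ z ∈ P.closure S, z ∉ S → z ∈ (P ／ Z).closure S' ∧ z ∉ S' ∧
        ∀ c, DeepR (0, 0) a b 10 c → c ∉ K →
          ((∀ v ∈ A, G v = c → v ∉ CWL.Loc P S ends z) →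
            c ∉ CWL.Loc (P ／ Z) S' (fun e => (ends e).map G) z) ∧
          ∀ p ∈ A, G p = c → p ∈ CWL.Loc P S ends z →
            (∀ v ∈ A, G v = c → v ≠ p → v ∉ CWL.Loc P S ends z) →
            c ∈ CWL.Loc (P ／ Z) S' (fun e => (ends e).map G) z := by
  classical
  obtain ⟨R, hR⟩ : ∃ R : Set (ℕ × ℕ), R = rect 0 0 a b \ (K : Set (ℕ × ℕ)) := ⟨_, rfl⟩
  have hmem := h.mem
  have hcon := h.con
  have hadj := h.adj
  rw [← hR] at hmem hcon hadj ⊢
  -- trees
  obtain ⟨F, hF⟩ := exists_trs (S := S) (ends := ends) (G := G) h.fin (fun c => by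
    by_cases hc : c ∈ R
    · exact (hcon c hc).2
    · intro u hu
      exact absurd (by rw [← hu.2]; exact hmem u hu.1) hc)
  -- one element for every adjacent pair of classes
  have hg : ∀ s : Sym2 (ℕ × ℕ), ∃ g : Option α, (∃ c c', s = s(c, c') ∧ BICS.adj c c' ∧ c ∈ R ∧
      c' ∈ R) → ∃ y, g = some y ∧ y ∈ S ∧ (ends y).map G = s := by
    intro s
    by_cases hs : ∃ c c', s = s(c, c') ∧ BICS.adj c c' ∧ c ∈ R ∧ c' ∈ R
    · obtain ⟨c, c', rfl, h1, h2, h3⟩ := hs
      obtain ⟨e, he, p, q, h4, h5, h6⟩ := hadj c c' h1 h2 h3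
      exact ⟨some e, fun _ => ⟨e, rfl, he, by rw [h4, Sym2.map_mk, h5, h6]⟩⟩
    · exact ⟨none, fun h1 => absurd h1 hs⟩
  choose g hg using hg
  obtain ⟨S', hS'⟩ : ∃ S' : Set α, S' = {e | e ∈ S ∧ g ((ends e).map G) = some e ∧
      ∃ c c', (ends e).map G = s(c, c') ∧ BICS.adj c c' ∧ c ∈ R ∧ c' ∈ R} := ⟨_, rfl⟩
  have hS'S : S' ⊆ S := by
    rw [hS']
    exact fun e he => he.1
  have hgrd : CWL.GrdU S' (fun e => (ends e).map G) R := by
    refine ⟨?_, ?_, ?_⟩
    · intro e he e' he' hee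
      rw [hS'] at he he'
      have h1 := he.2.1
      have hee' : (ends e).map G = (ends e').map G := hee
      rw [hee'] at h1
      exact Option.some.inj (h1.symm.trans he'.2.1)
    · intro e he
      rw [hS'] at he
      obtain ⟨c, c', h1, h2, h3, h4⟩ := he.2.2
      exact ⟨c, c', h1, h2, h3, h4⟩
    · intro c c' h1 h2 h3
      obtain ⟨y, h4, h5, h6⟩ := hg s(c, c') ⟨c, c', rfl, h1, h2, h3⟩
      refine ⟨y, ?_, h6⟩
      rw [hS']
      exact ⟨h5, by rw [h6]; exact h4, c, c', h6, h1, h2, h3⟩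
  have hSA : ∀ e ∈ S', ∀ v ∈ ends e, v ∈ A := fun e he => h.sub e (hS'S he)
  have hd : ∀ c, Disjoint S' (F c) := by
    intro c
    rw [Set.disjoint_left]
    intro e he he'
    obtain ⟨x, y, h1, h2, _, _⟩ := hgrd.mem e he
    have h3 : ∀ v ∈ ends e, G v = c := fun v hv => ((hF.F_ins he').2 v hv).2
    have h4 : ∀ w ∈ (ends e).map G, w = c := by
      intro w hw
      obtain ⟨v, hv, rfl⟩ := Sym2.mem_map.1 hw
      exact h3 v hv
    have h1' : (ends e).map G = s(x, y) := h1
    have h5 := h4 x (by rw [h1']; simp)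
    have h6 := h4 y (by rw [h1']; simp)
    rw [h5, h6] at h2
    unfold BICS.adj at h2
    omega
  have hB' := bic_arbs hB hF hS'S hSA hd
  have hpres : Pres S' (fun e => (ends e).map G) R := by
    intro p q hpq hp hq
    exact hgrd.surj p q (by
      unfold Gad.Adj at hpq
      unfold BICS.adj
      omega) hp hq
  have hK10 : ∀ v ∈ K, 10 ≤ v.1 ∧ v.1 + 10 ≤ a ∧ 10 ≤ v.2 ∧ v.2 + 10 ≤ b := by
    intro v hv
    have := h.deep v hv
    unfold DeepR at this
    simp only at this
    omega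
  -- the quotient is full
  obtain ⟨F1, hF1⟩ := full_holes (a := a) (b := b) (T := (K : Set (ℕ × ℕ))) (by
      rw [← hR]
      exact hpres) h.ha h.hb (by
      intro t ht
      have := hK10 t ht
      omega) (by
      intro t₁ h1 t₂ h2 t₃ h3 h12 _ _ h4 _ _
      have := h.far t₁ h1 t₂ h2 h12
      omega)
  rw [← hR] at hF1
  have hAR : {v | v ∈ A ∧ G v ∈ R} = A := by
    ext v
    exact ⟨fun h1 => h1.1, fun h1 => ⟨h1, hmem v h1⟩⟩
  have hAfull := hF.full hS'S hSA hd hF1
  rw [hAR] at hAfull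
  have hinsA : ins S ends A = S := by
    ext e
    exact ⟨fun h1 => h1.1, fun h1 => ⟨h1, h.sub e h1⟩⟩
  have hrkA := rk_of_fullb hB h.fin hAfull
  rw [hinsA] at hrkA
  refine ⟨FO F univ, S', ?_, hS'S, hB', hgrd, ?_⟩
  · intro e he
    obtain ⟨c, _, hc⟩ := mem_FO.1 he
    exact (hF.F_ins hc).1
  intro z hz hzS
  have hzF : z ∉ FO F univ := by
    intro h1
    obtain ⟨c, _, hc⟩ := mem_FO.1 h1
    exact hzS (hF.F_ins hc).1
  refine ⟨?_, fun h1 => hzS (hS'S h1), ?_⟩
  · rw [Matroid.contract_closure_eq]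
    refine ⟨?_, hzF⟩
    have h1 : ins S ends {v | v ∈ A ∧ G v ∈ R} ⊆ P.closure (S' ∪ FO F univ) := by
      refine hF.closure_full hB hS'S hSA hd hF1 (union_subset_union (fun e he => (hF1.1 he).1) ?_)
      intro e he
      obtain ⟨c, _, hc⟩ := mem_FO.1 he
      exact mem_FO.2 ⟨c, mem_univ _, hc⟩
    rw [hAR, hinsA] at h1
    have h2 := P.closure_subset_closure h1 hz
    rwa [P.closure_closure] at h2
  intro c hc hcK
  have hc10 : 10 ≤ c.1 ∧ c.1 + 10 ≤ a ∧ 10 ≤ c.2 ∧ c.2 + 10 ≤ b := by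
    unfold DeepR at hc
    simp only at hc
    omega
  have hcR : c ∈ R := by
    rw [hR]
    refine ⟨?_, hcK⟩
    rw [Gad.mem_rct]
    omega
  obtain ⟨C, hC⟩ : ∃ C, C = cls A G c := ⟨_, rfl⟩
  have hCA : C ⊆ A := by
    rw [hC]
    exact fun v hv => hv.1
  have hCf : C.Finite := h.fin.subset hCA
  obtain ⟨τ, hτ⟩ : ∃ τ, τ = F c := ⟨_, rfl⟩
  have hArb : Arb S ends C τ := by
    rcases hF.tree c with ⟨h1, _⟩ | h1
    · exact absurd h1 (hcon c hcR).1.ne_empty
    · rw [hC, hτ]
      exact h1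
  -- the complement is full
  obtain ⟨F2, hF2⟩ := full_holes (a := a) (b := b) (T := ((insert c K : Finset (ℕ × ℕ)) :
      Set (ℕ × ℕ))) (S := S') (ends := fun e => (ends e).map G) (by
      refine hpres.mono ?_
      rw [hR, Finset.coe_insert]
      intro v hv
      exact ⟨hv.1, fun h1 => hv.2 (Or.inr h1)⟩) h.ha h.hb (by
      intro t ht
      rw [Finset.coe_insert] at ht
      rcases ht with rfl | ht
      · omega
      · have := hK10 t ht
        omega) (by
      intro t₁ h1 t₂ h2 t₃ h3 h12 h13 h23 h4 h5 h6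
      rw [Finset.coe_insert] at h1 h2 h3
      rcases h1 with rfl | h1
      · rcases h2 with h2 | h2
        · exact h12 h2.symm
        · rcases h3 with h3 | h3
          · exact h13 h3.symm
          · have := h.far t₂ h2 t₃ h3 h23
            omega
      · rcases h2 with rfl | h2
        · rcases h3 with h3 | h3
          · exact h23 h3.symm
          · have := h.far t₁ h1 t₃ h3 h13
            omega
        · have := h.far t₁ h1 t₂ h2 h12
          omega)
  obtain ⟨Q, hQ⟩ : ∃ Q : Set (ℕ × ℕ), Q = rect 0 0 a b \ ((insert c K : Finset (ℕ × ℕ)) :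
      Set (ℕ × ℕ)) := ⟨_, rfl⟩
  rw [← hQ] at hF2
  have hQm : ∀ v, v ∈ Q ↔ v ∈ R ∧ v ≠ c := by
    intro v
    rw [hQ, hR, Finset.coe_insert]
    constructor
    · rintro ⟨h1, h2⟩
      exact ⟨⟨h1, fun h3 => h2 (Or.inr h3)⟩, fun h3 => h2 (Or.inl h3)⟩
    · rintro ⟨⟨h1, h2⟩, h3⟩
      exact ⟨h1, fun h4 => h4.elim h3 h2⟩
  have hAQ : {v | v ∈ A ∧ G v ∈ Q} = A \ C := by
    ext v
    rw [hC]
    constructor
    · rintro ⟨h1, h2⟩
      exact ⟨h1, fun h3 => ((hQm _).1 h2).2 h3.2⟩
    · rintro ⟨h1, h2⟩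
      exact ⟨h1, (hQm _).2 ⟨hmem v h1, fun h3 => h2 ⟨h1, h3⟩⟩⟩
  have hQfull := hF.full hS'S hSA hd hF2
  rw [hAQ] at hQfull
  have hrkQ := rk_of_fullb hB (h.fin.subset sdiff_subset) hQfull
  have hinsC : ins S ends Cᶜ = ins S ends (A \ C) := by
    ext e
    exact ⟨fun h1 => ⟨h1.1, fun v hv => ⟨h.sub e h1.1 v hv, h1.2 v hv⟩⟩,
      fun h1 => ⟨h1.1, fun v hv => (h1.2 v hv).2⟩⟩
  have hCcard := ncard_sdiff_add_ncard_of_subset hCA h.fin
  have hclo : ins S ends Cᶜ ⊆ P.closure (ins S' (fun e => (ends e).map G) {c}ᶜ ∪ FO F univ) := by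
    rw [hinsC, ← hAQ]
    refine hF.closure_full hB hS'S hSA hd hF2 (union_subset_union ?_ ?_)
    · intro e he
      refine ⟨(hF2.1 he).1, fun w hw hwc => ?_⟩
      rw [mem_singleton_iff] at hwc
      exact ((hQm _).1 ((hF2.1 he).2 w hw)).2 hwc
    · intro e he
      obtain ⟨c, _, hc⟩ := mem_FO.1 he
      exact mem_FO.2 ⟨c, mem_univ _, hc⟩
  refine ⟨?_, ?_⟩
  · intro hno
    -- an element which leaves the class
    obtain ⟨c', hcc', hc'R⟩ : ∃ c', BICS.adj c c' ∧ c' ∈ R := by
      have h1 : (c.1 + 1, c.2) ∉ K ∨ (c.1 - 1, c.2) ∉ K := by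
        by_contra hcon
        push Not at hcon
        have h2 := h.far _ hcon.1 _ hcon.2 (by
          intro h3
          have := congrArg Prod.fst h3
          simp only at this
          omega)
        have h3 : sd (c.1 + 1, c.2) (c.1 - 1, c.2) ≤ 2 := by
          rw [sd_le]
          simp only
          omega
        omega
      rcases h1 with h1 | h1
      · refine ⟨(c.1 + 1, c.2), ?_, ?_⟩
        · have h2 : c.1 + 1 = (c.1 + 1, c.2).1 := rfl
          have h3 : c.2 = (c.1 + 1, c.2).2 := rfl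
          unfold BICS.adj
          omega
        · rw [hR]
          refine ⟨?_, h1⟩
          rw [Gad.mem_rct]
          simp only
          omega
      · refine ⟨(c.1 - 1, c.2), ?_, ?_⟩
        · have h2 : c.1 - 1 = (c.1 - 1, c.2).1 := rfl
          have h3 : c.2 = (c.1 - 1, c.2).2 := rfl
          unfold BICS.adj
          omega
        · rw [hR]
          refine ⟨?_, h1⟩
          rw [Gad.mem_rct]
          simp only
          omega
    obtain ⟨e, he, p, q, h1, h2, h3⟩ := hadj c c' hcc' hcR hc'R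
    have hne : c ≠ c' := by
      rintro rfl
      unfold BICS.adj at hcc'
      omega
    have hpC : p ∈ C := by
      rw [hC]
      exact ⟨h.sub e he p (by rw [h1]; simp), h2⟩
    have h4 := none_class hB hCf hArb rfl (by rw [hinsC]; omega) hpC he (by rw [h1]; simp) (by
      intro x hx hxC
      rw [h1, Sym2.mem_iff] at hx
      rcases hx with rfl | rfl
      · rfl
      · rw [hC] at hxC
        exact absurd (hxC.2.symm.trans h3) hne) hz (by
      intro v hv
      rw [hC] at hv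
      have h5 := hno v hv.1 hv.2
      unfold CWL.Loc at h5
      rw [mem_ofPred_eq, not_not] at h5
      exact h5)
    unfold CWL.Loc
    rw [mem_ofPred_eq, not_not, Matroid.contract_closure_eq]
    refine ⟨?_, hzF⟩
    have h5 := P.closure_subset_closure hclo h4
    rwa [P.closure_closure] at h5
  · intro p hpA hpc hpL hno
    unfold CWL.Loc at hpL ⊢
    rw [mem_ofPred_eq] at hpL ⊢
    intro hcon'
    rw [Matroid.contract_closure_eq] at hcon'
    apply hpL
    refine one_class hB hCf hArb rfl (p := p) (by rw [hC]; exact ⟨hpA, hpc⟩) ?_ ?_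
    · intro v hv hvp
      rw [hC] at hv
      have h5 := hno v hv.1 hv.2 hvp
      unfold CWL.Loc at h5
      rw [mem_ofPred_eq, not_not] at h5
      exact h5
    · refine P.closure_subset_closure ?_ hcon'.1
      rintro e (he | he)
      · left
        refine ⟨hS'S he.1, fun v hv hvC => ?_⟩
        rw [hC] at hvC
        exact he.2 (G v) (Sym2.mem_map.2 ⟨v, hv, rfl⟩) (by rw [mem_singleton_iff]; exact hvC.2)
      · obtain ⟨c', _, hc'⟩ := mem_FO.1 he
        by_cases hcc' : c' = c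
        · right
          rw [hτ, ← hcc']
          exact hc'
        · left
          refine ⟨(hF.F_ins hc').1, fun v hv hvC => ?_⟩
          rw [hC] at hvC
          exact hcc' (((hF.F_ins hc').2 v hv).2.symm.trans hvC.2)

end DA
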