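import Pool.Agent.DA.WSplit
import Pool.Agent.DA.CoarseQ

/-!
# The block map of a wall with holes
-/

open Set Relation BIC BICS

namespace DA

open Gad

/-- A partition of `[0, W)` into `n` intervals `[lo i, lo (i + 1))` of length at least `4`. -/
structure Part (W n : ℕ) (lo b : ℕ → ℕ) : Prop where
  zero : lo 0 = 0
  last : lo n = W
  step : ∀ i < n, lo i + 4 ≤ lo (i + 1)
  idx : ∀ x < W, b x < n ∧ lo (b x) ≤ x ∧ x < lo (b x + 1)

lemma Part.mono {W n : ℕ} {lo b : ℕ → ℕ} (h : Part W n lo b) {i j : ℕ} (hij : i ≤ j)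
    (hj : j ≤ n) : lo i + 4 * (j - i) ≤ lo j := by
  obtain ⟨d, rfl⟩ := Nat.exists_eq_add_of_le hij
  induction d with
  | zero => simp
  | succ d ih =>
    have h1 := ih (by omega) (by omega)
    have h2 := h.step (i + d) (by omega)
    rw [show i + (d + 1) = i + d + 1 by omega]
    omega

lemma Part.uniq {W n : ℕ} {lo b : ℕ → ℕ} (h : Part W n lo b) {x i : ℕ} (hi : i < n)
    (h1 : lo i ≤ x) (h2 : x < lo (i + 1)) : x < W ∧ b x = i := by
  have h3 := h.mono (i := i + 1) (j := n) (by omega) le_rfl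
  rw [h.last] at h3
  have hx : x < W := by omega
  obtain ⟨g1, g2, g3⟩ := h.idx x hx
  refine ⟨hx, ?_⟩
  rcases Nat.lt_trichotomy (b x) i with h4 | h4 | h4
  · have := h.mono (i := b x + 1) (j := i) (by omega) (by omega)
    omega
  · exact h4
  · have := h.mono (i := i + 1) (j := b x) (by omega) (by omega)
    omega

/-- the block of a vertex -/
def bl (bx by' : ℕ → ℕ) (v : ℕ × ℕ) : ℕ × ℕ := (bx v.1, by' v.2)

open Classical in
/-- the block map: blocks of `K` are split by `s`, in a block of `Ry` the ray from `y₂` to the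
right goes to the right neighbour -/
noncomputable def GG (bx by' : ℕ → ℕ) (K Ry : Finset (ℕ × ℕ)) (s : ℕ × ℕ → ℕ)
    (y₂ : ℕ × ℕ → ℕ × ℕ) (v : ℕ × ℕ) : ℕ × ℕ :=
  if bl bx by' v ∈ K then stp (s v) (bl bx by' v) else
    if bl bx by' v ∈ Ry ∧ v.2 = (y₂ (bl bx by' v)).2 ∧ (y₂ (bl bx by' v)).1 ≤ v.1 then
      ((bl bx by' v).1 + 1, (bl bx by' v).2) else bl bx by' v

/-- All data of the coarse map. -/
structure CG {α : Type*} (S : Set α) (ends : α → Sym2 (ℕ × ℕ)) (w n R : ℕ) (O : Set (ℕ × ℕ))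
    (lx ly bx by' : ℕ → ℕ) (K Ry : Finset (ℕ × ℕ)) (s : ℕ × ℕ → ℕ) (y₂ : ℕ × ℕ → ℕ × ℕ) :
    Prop where
  wad : ∀ p q, GAdj S ends p q → wadj p q
  inr : ∀ p q, GAdj S ends p q → p ∈ rect 0 0 (w + 1) (w + 1)
  pres : ∀ p q, wadj p q → p ∈ rect 0 0 (w + 1) (w + 1) → q ∈ rect 0 0 (w + 1) (w + 1) →
    (∀ o ∈ O, ¬ (sd p o ≤ R ∧ sd q o ≤ R)) → GAdj S ends p q
  ed : ∀ e ∈ S, ∃ p q, ends e = s(p, q)
  px : Part (w + 1) n lx bx
  py : Part (w + 1) n ly by'
  hn : 6 ≤ n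
  oin : ∀ o ∈ O, 1 ≤ bx o.1 ∧ bx o.1 + 1 < n ∧ 1 ≤ by' o.2 ∧ by' o.2 + 1 < n ∧ o.1 ≤ w ∧ o.2 ≤ w ∧
    lx (bx o.1) + RE R + R + 3 ≤ o.1 ∧ o.1 + RE R + R + 3 ≤ lx (bx o.1 + 1) ∧
    ly (by' o.2) + RE R + R + 3 ≤ o.2 ∧ o.2 + RE R + R + 3 ≤ ly (by' o.2 + 1)
  ou : ∀ o ∈ O, ∀ o' ∈ O, bl bx by' o = bl bx by' o' → o = o'
  hc : ∀ o ∈ O, ∀ p, sd p o ≤ R → (∃ q, GAdj S ends p q) →
    ∃ x, RE R ≤ sd x p ∧ Cn (GAdj S ends) univ p x
  kd : ∀ v ∈ K, DeepR (0, 0) n n 10 v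
  kk : ∀ v ∈ K, ∀ v' ∈ K, v ≠ v' → 10 < sd v v'
  kr : ∀ v ∈ K, ∀ v' ∈ Ry, 5 < sd v v'
  rd : ∀ v ∈ Ry, DeepR (0, 0) n n 3 v
  rr : ∀ v ∈ Ry, ∀ v' ∈ Ry, v ≠ v' → 5 < sd v v'
  ks : ∀ c ∈ K, GoodS (GAdj S ends) (SdA (GAdj S ends) (lx c.1) (lx (c.1 + 1)) (ly c.2)
    (ly (c.2 + 1))) {v | v ∈ rc (lx c.1) (lx (c.1 + 1)) (ly c.2) (ly (c.2 + 1)) ∅ ∧
      ∃ u, GAdj S ends v u} s
  ro : ∀ c ∈ Ry, ∀ o ∈ O, bl bx by' o ≠ c
  ry : ∀ c ∈ Ry, lx c.1 + 2 ≤ (y₂ c).1 ∧ (y₂ c).1 < lx (c.1 + 1) ∧ ly c.2 + 1 ≤ (y₂ c).2 ∧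
    (y₂ c).2 + 1 < ly (c.2 + 1)

namespace CG

variable {α : Type*} {S : Set α} {ends : α → Sym2 (ℕ × ℕ)} {w n R : ℕ} {O : Set (ℕ × ℕ)}
  {lx ly bx by' : ℕ → ℕ} {K Ry : Finset (ℕ × ℕ)} {s : ℕ × ℕ → ℕ} {y₂ : ℕ × ℕ → ℕ × ℕ}

lemma bl_of (h : CG S ends w n R O lx ly bx by' K Ry s y₂) {c v : ℕ × ℕ} (h1 : c.1 < n)
    (h2 : c.2 < n) (h3 : lx c.1 ≤ v.1 ∧ v.1 < lx (c.1 + 1) ∧ ly c.2 ≤ v.2 ∧
      v.2 < ly (c.2 + 1)) : bl bx by' v = c ∧ v.1 ≤ w ∧ v.2 ≤ w := by
  have g1 := h.px.uniq h1 h3.1 h3.2.1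
  have g2 := h.py.uniq h2 h3.2.2.1 h3.2.2.2
  refine ⟨?_, by omega, by omega⟩
  unfold bl
  rw [g1.2, g2.2]

lemma of_bl (h : CG S ends w n R O lx ly bx by' K Ry s y₂) {v : ℕ × ℕ} (h1 : v.1 ≤ w)
    (h2 : v.2 ≤ w) : (bl bx by' v).1 < n ∧ (bl bx by' v).2 < n ∧ lx (bl bx by' v).1 ≤ v.1 ∧
      v.1 < lx ((bl bx by' v).1 + 1) ∧ ly (bl bx by' v).2 ≤ v.2 ∧
      v.2 < ly ((bl bx by' v).2 + 1) := by
  obtain ⟨g1, g2, g3⟩ := h.px.idx v.1 (by omega)
  obtain ⟨g4, g5, g6⟩ := h.py.idx v.2 (by omega)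
  exact ⟨g1, g4, g2, g3, g5, g6⟩

lemma sym (p q : ℕ × ℕ) (h : GAdj S ends p q) : GAdj S ends q p := h.symm

lemma mem_rc {x₀ x₁ y₀ y₁ : ℕ} {v : ℕ × ℕ} : v ∈ rc x₀ x₁ y₀ y₁ ∅ ↔
    (x₀ ≤ v.1 ∧ v.1 < x₁ ∧ y₀ ≤ v.2 ∧ v.2 < y₁) :=
  ⟨fun h => h.1, fun h => ⟨h, notMem_empty _⟩⟩

/-- vertices near a centre are in its block -/
lemma near_bl (h : CG S ends w n R O lx ly bx by' K Ry s y₂) {o p : ℕ × ℕ} (ho : o ∈ O)
    (hp : sd p o ≤ R) : bl bx by' p = bl bx by' o ∧ lx (bx o.1) + 3 ≤ p.1 ∧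
      p.1 + 3 ≤ lx (bx o.1 + 1) ∧ ly (by' o.2) + 3 ≤ p.2 ∧ p.2 + 3 ≤ ly (by' o.2 + 1) := by
  have h1 := h.oin o ho
  rw [sd_le] at hp
  have h2 : bl bx by' p = bl bx by' o := by
    refine (h.bl_of (c := bl bx by' o) ?_ ?_ ⟨?_, ?_, ?_, ?_⟩).1
    all_goals
      unfold bl
      simp only
      omega
  exact ⟨h2, by omega, by omega, by omega, by omega⟩

/-- present edges -/
lemma pres' (h : CG S ends w n R O lx ly bx by' K Ry s y₂) {p q : ℕ × ℕ} (hw : wadj p q)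
    (h1 : p.1 ≤ w ∧ p.2 ≤ w) (h2 : q.1 ≤ w ∧ q.2 ≤ w)
    (h3 : ∀ o ∈ O, ¬ (sd p o ≤ R ∧ sd q o ≤ R)) : GAdj S ends p q := by
  refine h.pres p q hw ?_ ?_ h3
  · rw [Gad.mem_rct]
    omega
  · rw [Gad.mem_rct]
    omega

/-- The box around a hole. -/
lemma bx_of (h : CG S ends w n R O lx ly bx by' K Ry s y₂) {o : ℕ × ℕ} (ho : o ∈ O) :
    Bx (GAdj S ends) (lx (bx o.1)) (lx (bx o.1 + 1)) (ly (by' o.2)) (ly (by' o.2 + 1)) o R := by
  have h1 := h.oin o ho
  have hx1 := h.px.mono (i := 0) (j := bx o.1) (by omega) (by omega)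
  have hx2 := h.px.mono (i := bx o.1 + 1) (j := n) (by omega) le_rfl
  have hy1 := h.py.mono (i := 0) (j := by' o.2) (by omega) (by omega)
  have hy2 := h.py.mono (i := by' o.2 + 1) (j := n) (by omega) le_rfl
  rw [h.px.last] at hx2
  rw [h.py.last] at hy2
  refine ⟨sym, h.wad, ?_, by omega, by omega⟩
  intro p q hpq hp hq hno
  refine h.pres' hpq (by omega) (by omega) ?_
  rintro o' ho' ⟨g1, g2⟩
  have g3 := h.near_bl ho' g1
  have g4 := h.near_bl ho' g2
  -- both ends are deep inside of the block of `o'`, so it is the block of `o`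
  by_cases hoo : o' = o
  · rw [hoo] at g1 g2
    exact hno ⟨g1, g2⟩
  · apply hoo
    refine h.ou o' ho' o ho ?_
    have h5 := h.oin o' ho'
    have e1 : bx o'.1 = bx o.1 := by
      rcases Nat.lt_trichotomy (bx o'.1) (bx o.1) with h6 | h6 | h6
      · have := h.px.mono (i := bx o'.1 + 1) (j := bx o.1) (by omega) (by omega)
        omega
      · exact h6
      · have := h.px.mono (i := bx o.1 + 1) (j := bx o'.1) (by omega) (by omega)
        omega
    have e2 : by' o'.2 = by' o.2 := by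
      rcases Nat.lt_trichotomy (by' o'.2) (by' o.2) with h6 | h6 | h6
      · have := h.py.mono (i := by' o'.2 + 1) (j := by' o.2) (by omega) (by omega)
        omega
      · exact h6
      · have := h.py.mono (i := by' o.2 + 1) (j := by' o'.2) (by omega) (by omega)
        omega
    unfold bl
    rw [e1, e2]

/-- the part of the block `c` that keeps its place -/
def core (S : Set α) (ends : α → Sym2 (ℕ × ℕ)) (lx ly : ℕ → ℕ) (Ry : Finset (ℕ × ℕ))
    (y₂ : ℕ × ℕ → ℕ × ℕ) (c : ℕ × ℕ) : Set (ℕ × ℕ) :=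
  {v | (∃ u, GAdj S ends v u) ∧ (lx c.1 ≤ v.1 ∧ v.1 < lx (c.1 + 1) ∧ ly c.2 ≤ v.2 ∧
    v.2 < ly (c.2 + 1)) ∧ ¬ (c ∈ Ry ∧ v.2 = (y₂ c).2 ∧ (y₂ c).1 ≤ v.1)}

/-- The core of a block is connected. -/
lemma core_conn (h : CG S ends w n R O lx ly bx by' K Ry s y₂) {c : ℕ × ℕ} (h1 : c.1 < n)
    (h2 : c.2 < n) : (lx c.1, ly c.2) ∈ core S ends lx ly Ry y₂ c ∧
      ∀ v ∈ core S ends lx ly Ry y₂ c,
        Cn (GAdj S ends) (core S ends lx ly Ry y₂ c) v (lx c.1, ly c.2) := by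
  have sx := h.px.step c.1 h1
  have sy := h.py.step c.2 h2
  have hx2 := h.px.mono (i := c.1 + 1) (j := n) (by omega) le_rfl
  have hy2 := h.py.mono (i := c.2 + 1) (j := n) (by omega) le_rfl
  rw [h.px.last] at hx2
  rw [h.py.last] at hy2
  -- the corner
  have hcorner : (lx c.1, ly c.2) ∈ core S ends lx ly Ry y₂ c := by
    refine ⟨⟨(lx c.1 + 1, ly c.2), ?_⟩, ⟨le_rfl, ?_, le_rfl, ?_⟩, ?_⟩
    · refine h.pres' wadj_r ?_ ?_ ?_
      · show lx c.1 ≤ w ∧ ly c.2 ≤ w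
        omega
      · show lx c.1 + 1 ≤ w ∧ ly c.2 ≤ w
        omega
      · rintro o ho ⟨g1, _⟩
        obtain ⟨g2, g3, _, g4, _⟩ := h.near_bl ho g1
        have g5 := (h.bl_of (c := c) (v := (lx c.1, ly c.2)) h1 h2 (by
          simp only
          omega)).1
        rw [g5] at g2
        have g6 : c.1 = bx o.1 := congrArg Prod.fst g2
        rw [← g6] at g3
        simp only at g3
        omega
    · show lx c.1 < lx (c.1 + 1)
      omega
    · show ly c.2 < ly (c.2 + 1)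
      omega
    · rintro ⟨g1, g2, _⟩
      have g3 := h.ry c g1
      simp only at g2
      omega
  refine ⟨hcorner, ?_⟩
  by_cases hO : ∃ o ∈ O, bl bx by' o = c
  · obtain ⟨o, ho, hoc⟩ := hO
    have e1 : bx o.1 = c.1 := congrArg Prod.fst hoc
    have e2 : by' o.2 = c.2 := congrArg Prod.snd hoc
    have hB := h.bx_of ho
    have ho' := h.oin o ho
    have hcR : c ∉ Ry := fun g => h.ro c g o ho hoc
    rw [e1, e2] at hB ho'
    intro v hv
    have h3 := hB.all_conn (by omega) (h.hc o ho) (mem_rc.2 hv.2.1) hv.1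
    -- from the rectangle to the core
    have key : ∀ a b : ℕ × ℕ, Cn (GAdj S ends) (rc (lx c.1) (lx (c.1 + 1)) (ly c.2)
        (ly (c.2 + 1)) ∅) a b → Cn (GAdj S ends) (core S ends lx ly Ry y₂ c) a b := by
      intro a b hab
      induction hab with
      | refl => exact Cn.refl
      | tail _ g2 ih =>
        exact ih.trans (Cn.step g2.1 ⟨⟨_, g2.1⟩, g2.2.1.1, fun g => hcR g.1⟩
          ⟨⟨_, g2.1.symm⟩, g2.2.2.1, fun g => hcR g.1⟩)
    exact key _ _ h3
  · push Not at hO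
    -- no hole: all edges are present
    have hfar : ∀ p : ℕ × ℕ, (lx c.1 ≤ p.1 ∧ p.1 < lx (c.1 + 1) ∧ ly c.2 ≤ p.2 ∧
        p.2 < ly (c.2 + 1)) → ∀ o ∈ O, ¬ sd p o ≤ R := by
      intro p hp o ho g1
      have g2 := (h.near_bl ho g1).1
      rw [(h.bl_of h1 h2 hp).1] at g2
      exact hO o ho g2.symm
    have hed : ∀ p q : ℕ × ℕ, wadj p q → (lx c.1 ≤ p.1 ∧ p.1 < lx (c.1 + 1) ∧ ly c.2 ≤ p.2 ∧
        p.2 < ly (c.2 + 1)) → (lx c.1 ≤ q.1 ∧ q.1 < lx (c.1 + 1) ∧ ly c.2 ≤ q.2 ∧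
        q.2 < ly (c.2 + 1)) → GAdj S ends p q := by
      intro p q hpq hp hq
      exact h.pres' hpq (by omega) (by omega) (fun o ho g => hfar p hp o ho g.1)
    have hA : ∀ p : ℕ × ℕ, (lx c.1 ≤ p.1 ∧ p.1 < lx (c.1 + 1) ∧ ly c.2 ≤ p.2 ∧
        p.2 < ly (c.2 + 1)) → ∃ u, GAdj S ends p u := by
      rintro ⟨x, y⟩ hp
      simp only at hp
      by_cases hx : x + 1 < lx (c.1 + 1)
      · exact ⟨(x + 1, y), hed _ _ wadj_r (by simp only; omega) (by simp only; omega)⟩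
      · refine ⟨(x - 1, y), sym _ _ (hed _ _ ?_ (by simp only; omega) (by simp only; omega))⟩
        have := @wadj_r (x - 1) y
        rwa [Nat.sub_add_cancel (by omega)] at this
    -- clean rows
    have hrow : ∀ y, ly c.2 ≤ y → y < ly (c.2 + 1) → (c ∈ Ry → y ≠ (y₂ c).2) →
        CRow (GAdj S ends) (core S ends lx ly Ry y₂ c) (lx c.1) (lx (c.1 + 1)) y := by
      intro y g1 g2 g3 x g4 g5
      refine ⟨⟨hA (x, y) (by simp only; omega), by simp only; omega, fun g => g3 g.1 g.2.1⟩,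
        fun g6 => ?_⟩
      exact hed _ _ wadj_r (by simp only; omega) (by simp only; omega)
    have hcol : ∀ x, lx c.1 ≤ x → x + 1 < lx (c.1 + 1) → (c ∈ Ry → x + 1 < (y₂ c).1) →
        CCol (GAdj S ends) (core S ends lx ly Ry y₂ c) (ly c.2) (ly (c.2 + 1)) x := by
      intro x g1 g2 g3 y g4 g5
      refine ⟨⟨hA (x, y) (by simp only; omega), by simp only; omega, fun g => ?_⟩,
        ⟨hA (x + 1, y) (by simp only; omega), by simp only; omega, fun g => ?_⟩,
        hed _ _ wadj_r (by simp only; omega) (by simp only; omega), fun g6 g7 => ?_,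
        fun g6 g7 => ?_⟩
      · have k1 := g3 g.1
        have k2 : (y₂ c).1 ≤ x := g.2.2
        omega
      · have k1 := g3 g.1
        have k2 : (y₂ c).1 ≤ x + 1 := g.2.2
        omega
      · exact hed _ _ (wadj_u g7) (by simp only; omega) (by simp only; omega)
      · exact hed _ _ (wadj_u (by omega)) (by simp only; omega) (by simp only; omega)
    have hr0 : CRow (GAdj S ends) (core S ends lx ly Ry y₂ c) (lx c.1) (lx (c.1 + 1)) (ly c.2) :=
      hrow _ le_rfl (by omega) (fun g => by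
        have := h.ry c g
        omega)
    have hc0 : CCol (GAdj S ends) (core S ends lx ly Ry y₂ c) (ly c.2) (ly (c.2 + 1)) (lx c.1) :=
      hcol _ le_rfl (by omega) (fun g => by
        have := h.ry c g
        omega)
    intro v hv
    refine onC_conn sym (by omega) (by omega) hr0 hc0 ⟨hv.2.1, ?_⟩
    have hv1 := hv.2.1
    by_cases h3 : c ∈ Ry ∧ v.2 = (y₂ c).2
    · right
      have h4 := h.ry c h3.1
      have h5 : ¬ (y₂ c).1 ≤ v.1 := fun g => hv.2.2 ⟨h3.1, h3.2, g⟩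
      by_cases h6 : v.1 + 1 < (y₂ c).1
      · exact ⟨v.1, by omega, by omega, Or.inl rfl, hcol _ (by omega) (by omega) fun _ => h6⟩
      · exact ⟨v.1 - 1, by omega, by omega, Or.inr (by omega), hcol _ (by omega) (by omega)
          fun _ => by omega⟩
    · left
      exact hrow _ (by omega) (by omega) (fun g1 g2 => h3 ⟨g1, g2⟩)

lemma GG_core (h : CG S ends w n R O lx ly bx by' K Ry s y₂) {c v : ℕ × ℕ} (h1 : c.1 < n)
    (h2 : c.2 < n) (hcK : c ∉ K) (hv : v ∈ core S ends lx ly Ry y₂ c) :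
    GG bx by' K Ry s y₂ v = c := by
  have g1 := (h.bl_of h1 h2 hv.2.1).1
  unfold GG
  rw [g1, if_neg hcK, if_neg hv.2.2]

lemma GG_K {v : ℕ × ℕ} (hv : bl bx by' v ∈ K) :
    GG bx by' K Ry s y₂ v = stp (s v) (bl bx by' v) := by
  unfold GG
  rw [if_pos hv]

lemma GG_ray {v : ℕ × ℕ} (hvK : bl bx by' v ∉ K) (hv : bl bx by' v ∈ Ry ∧
    v.2 = (y₂ (bl bx by' v)).2 ∧ (y₂ (bl bx by' v)).1 ≤ v.1) :
    GG bx by' K Ry s y₂ v = ((bl bx by' v).1 + 1, (bl bx by' v).2) := by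
  unfold GG
  rw [if_neg hvK, if_pos hv]

lemma stp_sd {d : ℕ} {v : ℕ × ℕ} : sd (stp d v) v ≤ 1 := by
  unfold stp
  rw [sd_le]
  split_ifs <;> simp only <;> omega

lemma stp_ne {d : ℕ} {v : ℕ × ℕ} (h : 1 ≤ v.1 ∧ 1 ≤ v.2) : stp d v ≠ v := by
  unfold stp
  obtain ⟨x, y⟩ := v
  simp only at h
  split_ifs <;> simp only [ne_eq, Prod.mk.injEq] <;> omega

lemma stp_ne_K (h : CG S ends w n R O lx ly bx by' K Ry s y₂) {d : ℕ} {c : ℕ × ℕ} (hc : c ∈ K) :
    stp d c ∉ K ∧ stp d c ∉ Ry ∧ (stp d c).1 < n ∧ (stp d c).2 < n := by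
  have h1 := h.kd c hc
  unfold DeepR at h1
  have h2 : sd (stp d c) c ≤ 1 := stp_sd
  refine ⟨fun h3 => ?_, fun h3 => ?_, ?_, ?_⟩
  · have h4 := h.kk _ h3 c hc (stp_ne (by omega))
    omega
  · have h4 := h.kr c hc _ h3
    rw [sd_comm] at h4
    omega
  · rw [sd_le] at h2
    omega
  · rw [sd_le] at h2
    omega

lemma ray_next (h : CG S ends w n R O lx ly bx by' K Ry s y₂) {c : ℕ × ℕ} (hc : c ∈ Ry) :
    (c.1 + 1, c.2) ∉ K ∧ (c.1 + 1, c.2) ∉ Ry ∧ c.1 + 1 < n ∧ c.2 < n := by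
  have h1 := h.rd c hc
  unfold DeepR at h1
  have h2 : sd (c.1 + 1, c.2) c ≤ 1 := by
    rw [sd_le]
    simp only
    omega
  refine ⟨fun h3 => ?_, fun h3 => ?_, by omega, by omega⟩
  · have h4 := h.kr _ h3 c hc
    omega
  · have h4 := h.rr _ h3 c hc (by
      intro h5
      have := congrArg Prod.fst h5
      simp only at this
      omega)
    omega

/-- **The block map is a coarse map.** -/
theorem coarse (h : CG S ends w n R O lx ly bx by' K Ry s y₂) :
    Coarse S ends {v | ∃ u, GAdj S ends v u} (GG bx by' K Ry s y₂) n n K := by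
  classical
  have hmemA : ∀ v : ℕ × ℕ, (∃ u, GAdj S ends v u) → v.1 ≤ w ∧ v.2 ≤ w := by
    rintro v ⟨u, hu⟩
    have := h.inr v u hu
    rw [Gad.mem_rct] at this
    omega
  -- the three kinds of vertices
  have hkind : ∀ v : ℕ × ℕ, (∃ u, GAdj S ends v u) → (bl bx by' v ∈ K) ∨
      (bl bx by' v ∉ K ∧ bl bx by' v ∈ Ry ∧ v.2 = (y₂ (bl bx by' v)).2 ∧
        (y₂ (bl bx by' v)).1 ≤ v.1) ∨
      (bl bx by' v ∉ K ∧ v ∈ core S ends lx ly Ry y₂ (bl bx by' v)) := by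
    intro v hv
    by_cases h1 : bl bx by' v ∈ K
    · exact Or.inl h1
    by_cases h2 : bl bx by' v ∈ Ry ∧ v.2 = (y₂ (bl bx by' v)).2 ∧ (y₂ (bl bx by' v)).1 ≤ v.1
    · exact Or.inr (Or.inl ⟨h1, h2⟩)
    · obtain ⟨g1, g2⟩ := hmemA v hv
      obtain ⟨_, _, g3⟩ := h.of_bl g1 g2
      exact Or.inr (Or.inr ⟨h1, hv, g3, h2⟩)
  refine ⟨?_, ?_, ?_, ?_, ?_, h.hn, h.hn, h.kd, h.kk⟩
  · refine ((Set.finite_Iic w).prod (Set.finite_Iic w)).subset ?_
    intro v hv
    exact hmemA v hv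
  · intro e he v hv
    obtain ⟨p, q, hpq⟩ := h.ed e he
    rw [hpq, Sym2.mem_iff] at hv
    rcases hv with rfl | rfl
    · exact ⟨q, e, he, hpq⟩
    · exact ⟨p, e, he, by rw [hpq, Sym2.eq_swap]⟩
  · intro v hv
    have g0 := hmemA v hv
    have g1 := h.of_bl g0.1 g0.2
    have key : ∀ c : ℕ × ℕ, c ∉ K → c.1 < n → c.2 < n →
        c ∈ rect 0 0 n n \ (K : Set (ℕ × ℕ)) := by
      intro c k1 k2 k3
      refine ⟨?_, k1⟩
      rw [Gad.mem_rct]
      omega
    rcases hkind v hv with h1 | ⟨h1, h2⟩ | ⟨h1, h2⟩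
    · rw [GG_K h1]
      obtain ⟨k1, _, k2, k3⟩ := h.stp_ne_K (d := s v) h1
      exact key _ k1 k2 k3
    · rw [GG_ray h1 h2]
      obtain ⟨k1, _, k2, k3⟩ := h.ray_next h2.1
      exact key _ k1 k2 k3
    · rw [h.GG_core g1.1 g1.2.1 h1 h2]
      exact key _ h1 g1.1 g1.2.1
  · -- connected classes
    rintro c ⟨hc1, hcK⟩
    rw [Gad.mem_rct] at hc1
    have hcn : c.1 < n ∧ c.2 < n := by omega
    obtain ⟨hcorner, hcore⟩ := h.core_conn hcn.1 hcn.2
    obtain ⟨C, hC⟩ : ∃ C, C = cls {v | ∃ u, GAdj S ends v u} (GG bx by' K Ry s y₂) c := ⟨_, rfl⟩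
    rw [← hC]
    have hsub : core S ends lx ly Ry y₂ c ⊆ C := by
      intro v hv
      rw [hC]
      exact ⟨hv.1, h.GG_core hcn.1 hcn.2 hcK hv⟩
    have hall : ∀ v ∈ C, Cn (GAdj S ends) C v (lx c.1, ly c.2) := by
      intro v hvC
      have hvC' := hvC
      rw [hC] at hvC'
      obtain ⟨hvA, hvc⟩ := hvC'
      have g0 := hmemA v hvA
      have g1 := h.of_bl g0.1 g0.2
      rcases hkind v hvA with h1 | ⟨h1, h2⟩ | ⟨h1, h2⟩
      · -- a piece of a block of `K`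
        rw [GG_K h1] at hvc
        obtain ⟨κ, hκ⟩ : ∃ κ, κ = bl bx by' v := ⟨_, rfl⟩
        rw [← hκ] at hvc h1 g1
        obtain ⟨k1, u, k2, k3, k4, k5⟩ := h.ks κ h1 v ⟨mem_rc.2 g1.2.2, hvA⟩
        have hin : ∀ x : ℕ × ℕ, x ∈ rc (lx κ.1) (lx (κ.1 + 1)) (ly κ.2) (ly (κ.2 + 1)) ∅ →
            (∃ u, GAdj S ends x u) → s x = s v → x ∈ C := by
          intro x hx hxA hxs
          have h3 := (h.bl_of (c := κ) g1.1 g1.2.1 hx.1).1
          rw [hC]
          refine ⟨hxA, ?_⟩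
          rw [GG_K (by rw [h3]; exact h1), h3, hxs, hvc]
        have k6 : Cn (GAdj S ends) C v u := k3.mono (fun x hx => hin x hx.1.1 hx.1.2 hx.2)
        obtain ⟨u', hu', hside⟩ := k4
        have hK10 := h.kd κ h1
        unfold DeepR at hK10
        have hu'c : lx c.1 ≤ u'.1 ∧ u'.1 < lx (c.1 + 1) ∧ ly c.2 ≤ u'.2 ∧
            u'.2 < ly (c.2 + 1) := by
          have t1 := h.px.step (κ.1 - 1) (by omega)
          have t2 := h.px.step (κ.1 + 1) (by omega)
          have t3 := h.py.step (κ.2 - 1) (by omega)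
          have t4 := h.py.step (κ.2 + 1) (by omega)
          rw [Nat.sub_add_cancel (by omega)] at t1 t3
          rcases hside with ⟨d0, d1, d2, d3⟩ | ⟨d0, d1, d2, d3⟩ | ⟨d0, d1, d2, d3⟩ |
            ⟨d0, d1, d2, d3⟩ <;> rw [d0] at hvc
          · have e1 : c.1 = κ.1 - 1 := by rw [← hvc]; rfl
            have e2 : c.2 = κ.2 := by rw [← hvc]; rfl
            rw [e1, e2, Nat.sub_add_cancel (by omega)]
            omega
          · have e1 : c.1 = κ.1 + 1 := by rw [← hvc]; rfl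
            have e2 : c.2 = κ.2 := by rw [← hvc]; rfl
            rw [e1, e2]
            omega
          · have e1 : c.1 = κ.1 := by rw [← hvc]; rfl
            have e2 : c.2 = κ.2 + 1 := by rw [← hvc]; rfl
            rw [e1, e2]
            omega
          · have e1 : c.1 = κ.1 := by rw [← hvc]; rfl
            have e2 : c.2 = κ.2 - 1 := by rw [← hvc]; rfl
            rw [e1, e2, Nat.sub_add_cancel (by omega)]
            omega
        have hcR : c ∉ Ry := by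
          rw [← hvc]
          exact (h.stp_ne_K h1).2.1
        have hu'core : u' ∈ core S ends lx ly Ry y₂ c := ⟨⟨u, hu'.symm⟩, hu'c, fun g => hcR g.1⟩
        exact (k6.trans (Cn.step hu' (hin u k2.1 k2.2 k5) (hsub hu'core))).trans
          ((hcore u' hu'core).mono hsub)
      · -- a ray
        rw [GG_ray h1 h2] at hvc
        obtain ⟨ρ, hρ⟩ : ∃ ρ, ρ = bl bx by' v := ⟨_, rfl⟩
        rw [← hρ] at hvc h1 g1 h2
        have e1 : c.1 = ρ.1 + 1 := by rw [← hvc]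
        have e2 : c.2 = ρ.2 := by rw [← hvc]
        have hry := h.ry ρ h2.1
        have hrn := h.ray_next h2.1
        have t2 := h.px.step (ρ.1 + 1) (by omega)
        have hx2 := h.px.mono (i := ρ.1 + 1 + 1) (j := n) (by omega) le_rfl
        have hy2 := h.py.mono (i := ρ.2 + 1) (j := n) (by omega) le_rfl
        rw [h.px.last] at hx2
        rw [h.py.last] at hy2
        -- the edges of the row
        have hfar : ∀ x, v.1 ≤ x → x < lx (ρ.1 + 1) → ∀ o ∈ O, ¬ sd (x, v.2) o ≤ R := by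
          intro x k1 k2 o ho k3
          have k4 := (h.near_bl ho k3).1
          rw [(h.bl_of (c := ρ) (v := (x, v.2)) g1.1 g1.2.1 (by simp only; omega)).1] at k4
          exact h.ro ρ h2.1 o ho k4.symm
        have hedge : ∀ x, v.1 ≤ x → x < lx (ρ.1 + 1) → GAdj S ends (x, v.2) (x + 1, v.2) := by
          intro x k1 k2
          exact h.pres' wadj_r (by simp only; omega) (by simp only; omega)
            (fun o ho k3 => hfar x k1 k2 o ho k3.1)
        have hinC : ∀ x, v.1 ≤ x → x < lx (ρ.1 + 1) → (x, v.2) ∈ C := by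
          intro x k1 k2
          rw [hC]
          refine ⟨⟨_, hedge x k1 k2⟩, ?_⟩
          have k3 := (h.bl_of (c := ρ) (v := (x, v.2)) g1.1 g1.2.1 (by simp only; omega)).1
          rw [GG_ray (by rw [k3]; exact h1) (by
            rw [k3]
            exact ⟨h2.1, h2.2.1, by simp only; omega⟩), k3, hvc]
        have hedge' : GAdj S ends (lx (ρ.1 + 1) - 1, v.2) (lx (ρ.1 + 1), v.2) := by
          have := hedge (lx (ρ.1 + 1) - 1) (by omega) (by omega)
          rwa [Nat.sub_add_cancel (by omega)] at this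
        have hend : (lx (ρ.1 + 1), v.2) ∈ core S ends lx ly Ry y₂ c := by
          refine ⟨⟨_, hedge'.symm⟩, ?_, ?_⟩
          · rw [e1, e2]
            simp only
            omega
          · rintro ⟨k1, _⟩
            rw [← hvc] at k1
            exact hrn.2.1 k1
        have hgo : ∀ d x, v.1 ≤ x → x + d = lx (ρ.1 + 1) →
            Cn (GAdj S ends) C (x, v.2) (lx (ρ.1 + 1), v.2) := by
          intro d
          induction d with
          | zero =>
            intro x _ k2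
            rw [show x = lx (ρ.1 + 1) by omega]
            exact Cn.refl
          | succ d ih =>
            intro x k1 k2
            have k3 := ih (x + 1) (by omega) (by omega)
            refine (Cn.step (hedge x k1 (by omega)) (hinC x k1 (by omega)) ?_).trans k3
            by_cases k4 : x + 1 < lx (ρ.1 + 1)
            · exact hinC _ (by omega) k4
            · rw [show x + 1 = lx (ρ.1 + 1) by omega]
              exact hsub hend
        have hv' : v = (v.1, v.2) := rfl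
        exact (hgo (lx (ρ.1 + 1) - v.1) v.1 le_rfl (by omega)).trans
          ((hcore _ hend).mono hsub)
      · rw [h.GG_core g1.1 g1.2.1 h1 h2] at hvc
        rw [hvc] at h2
        exact (hcore v h2).mono hsub
    refine ⟨⟨_, hsub hcorner⟩, ?_⟩
    intro u hu v hv
    exact (hall u hu).trans ((hall v hv).symm sym)
  · -- adjacent classes
    have hright : ∀ c : ℕ × ℕ, c.1 + 1 < n → c.2 < n → c ∉ K → (c.1 + 1, c.2) ∉ K →
        ∃ p q, GAdj S ends p q ∧ GG bx by' K Ry s y₂ p = c ∧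
          GG bx by' K Ry s y₂ q = (c.1 + 1, c.2) := by
      intro c k1 k2 k3 k4
      have t1 := h.px.step c.1 (by omega)
      have t2 := h.px.step (c.1 + 1) (by omega)
      have t3 := h.py.step c.2 (by omega)
      have hx2 := h.px.mono (i := c.1 + 1 + 1) (j := n) (by omega) le_rfl
      have hy2 := h.py.mono (i := c.2 + 1) (j := n) (by omega) le_rfl
      rw [h.px.last] at hx2
      rw [h.py.last] at hy2
      have hbl := (h.bl_of (c := c) (v := (lx (c.1 + 1) - 1, ly c.2)) (by omega) (by omega)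
        (by simp only; omega)).1
      have hr : GAdj S ends (lx (c.1 + 1) - 1, ly c.2) (lx (c.1 + 1), ly c.2) := by
        refine h.pres' ?_ (by simp only; omega) (by simp only; omega) ?_
        · have := @wadj_r (lx (c.1 + 1) - 1) (ly c.2)
          rwa [Nat.sub_add_cancel (by omega)] at this
        · rintro o ho ⟨g1, _⟩
          have g2 := h.near_bl ho g1
          have g3 := g2.1
          rw [hbl] at g3
          have g4 : c.2 = by' o.2 := congrArg Prod.snd g3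
          have g5 := g2.2.2.2.1
          rw [← g4] at g5
          simp only at g5
          omega
      refine ⟨_, _, hr, h.GG_core (by omega) (by omega) k3 ⟨⟨_, hr⟩, by simp only; omega, ?_⟩,
        h.GG_core (c := (c.1 + 1, c.2)) (by simp only; omega) (by simp only; omega) k4
          ⟨⟨_, hr.symm⟩, by simp only; omega, ?_⟩⟩
      · rintro ⟨g1, g2, _⟩
        have g3 := h.ry c g1
        simp only at g2
        omega
      · rintro ⟨g1, g2, _⟩
        have g3 := h.ry _ g1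
        simp only at g2 g3
        omega
    have hup : ∀ c : ℕ × ℕ, c.1 < n → c.2 + 1 < n → c ∉ K → (c.1, c.2 + 1) ∉ K →
        ∃ p q, GAdj S ends p q ∧ GG bx by' K Ry s y₂ p = c ∧
          GG bx by' K Ry s y₂ q = (c.1, c.2 + 1) := by
      intro c k1 k2 k3 k4
      have t1 := h.px.step c.1 (by omega)
      have t2 := h.py.step (c.2 + 1) (by omega)
      have t3 := h.py.step c.2 (by omega)
      have hx2 := h.px.mono (i := c.1 + 1) (j := n) (by omega) le_rfl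
      have hy2 := h.py.mono (i := c.2 + 1 + 1) (j := n) (by omega) le_rfl
      rw [h.px.last] at hx2
      rw [h.py.last] at hy2
      obtain ⟨a, ha, ha2⟩ : ∃ a, (a = lx c.1 ∨ a = lx c.1 + 1) ∧
          (a + (ly (c.2 + 1) - 1)) % 2 = 0 := by
        rcases Nat.mod_two_eq_zero_or_one (lx c.1 + (ly (c.2 + 1) - 1)) with h8 | h8
        · exact ⟨_, Or.inl rfl, h8⟩
        · exact ⟨_, Or.inr rfl, by omega⟩
      have hbl := (h.bl_of (c := c) (v := (a, ly (c.2 + 1) - 1)) (by omega) (by omega)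
        (by simp only; omega)).1
      have hr : GAdj S ends (a, ly (c.2 + 1) - 1) (a, ly (c.2 + 1)) := by
        refine h.pres' ?_ (by simp only; omega) (by simp only; omega) ?_
        · have := @wadj_u a (ly (c.2 + 1) - 1) ha2
          rwa [Nat.sub_add_cancel (by omega)] at this
        · rintro o ho ⟨g1, _⟩
          have g2 := h.near_bl ho g1
          have g3 := g2.1
          rw [hbl] at g3
          have g4 : c.1 = bx o.1 := congrArg Prod.fst g3
          have g5 := g2.2.1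
          rw [← g4] at g5
          simp only at g5
          omega
      refine ⟨_, _, hr, h.GG_core (by omega) (by omega) k3 ⟨⟨_, hr⟩, by simp only; omega, ?_⟩,
        h.GG_core (c := (c.1, c.2 + 1)) (by simp only; omega) (by simp only; omega) k4
          ⟨⟨_, hr.symm⟩, by simp only; omega, ?_⟩⟩
      · rintro ⟨g1, g2, _⟩
        have g3 := h.ry c g1
        simp only at g2
        omega
      · rintro ⟨g1, g2, _⟩
        have g3 := h.ry _ g1
        simp only at g2 g3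
        omega
    have hfin : ∀ p q : ℕ × ℕ, GAdj S ends p q → ∀ c c', GG bx by' K Ry s y₂ p = c →
        GG bx by' K Ry s y₂ q = c' → (∃ e ∈ S, ∃ p q, ends e = s(p, q) ∧
          GG bx by' K Ry s y₂ p = c ∧ GG bx by' K Ry s y₂ q = c') ∧
        ∃ e ∈ S, ∃ p q, ends e = s(p, q) ∧
          GG bx by' K Ry s y₂ p = c' ∧ GG bx by' K Ry s y₂ q = c := by
      rintro p q ⟨e, he, hpq⟩ c c' h1 h2
      exact ⟨⟨e, he, p, q, hpq, h1, h2⟩, e, he, q, p, by rw [hpq, Sym2.eq_swap], h2, h1⟩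
    rintro c c' hcc ⟨hc, hcK⟩ ⟨hc', hcK'⟩
    rw [Gad.mem_rct] at hc hc'
    unfold BICS.adj at hcc
    rcases hcc with ⟨g1, g2 | g2⟩ | ⟨g1, g2 | g2⟩
    · have e : c' = (c.1, c.2 + 1) := Prod.ext g1.symm g2.symm
      rw [e] at hcK' ⊢
      obtain ⟨p, q, k1, k2, k3⟩ := hup c (by omega) (by omega) hcK hcK'
      exact (hfin p q k1 _ _ k2 k3).1
    · have e : c = (c'.1, c'.2 + 1) := Prod.ext g1 g2.symm
      rw [e] at hcK ⊢
      obtain ⟨p, q, k1, k2, k3⟩ := hup c' (by omega) (by omega) hcK' hcK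
      exact (hfin p q k1 _ _ k2 k3).2
    · have e : c' = (c.1 + 1, c.2) := Prod.ext g2.symm g1.symm
      rw [e] at hcK' ⊢
      obtain ⟨p, q, k1, k2, k3⟩ := hright c (by omega) (by omega) hcK hcK'
      exact (hfin p q k1 _ _ k2 k3).1
    · have e : c = (c'.1 + 1, c'.2) := Prod.ext g2.symm g1
      rw [e] at hcK ⊢
      obtain ⟨p, q, k1, k2, k3⟩ := hright c' (by omega) (by omega) hcK' hcK
      exact (hfin p q k1 _ _ k2 k3).2

end CG

end DA
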