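import Pool.Agent.DA.HoleEsc

/-!
# From a circuit of the local matroid to a local configuration
-/

open Set BIC BICS
open scoped Matroid

namespace DA

open Gad

universe u

section

variable {α : Type*} {P : Matroid α} {S : Set α} {row : α → Sym2 (ℕ × ℕ)} {w : ℕ}

/-- the ends are independent -/
theorem ends_low [P.Finite] (hG : RWx P S row w) {c : Set α} (hc : c ⊆ S)
    (hW : WallE c row w ∅) {ω : Set (Sym2 (ℕ × ℕ))} {A : Finset (ℕ × ℕ)}
    {e : ℕ × ℕ → α} (he : ∀ a ∈ A, e a ∈ c ∧ a ∈ row (e a) ∧ row (e a) ∉ ω ∧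
      ∀ b ∈ A, b ≠ a → b ∉ row (e a)) :
    ∀ B : Finset (ℕ × ℕ), B ⊆ A →
      rk P ((S \ {f | row f ∈ ω}) \ {f | f ∈ c ∧ ∃ a ∈ A, a ∈ row f}) + B.card ≤
        rk P (((S \ {f | row f ∈ ω}) \ {f | f ∈ c ∧ ∃ a ∈ A, a ∈ row f}) ∪
          e '' (B : Set (ℕ × ℕ))) := by
  classical
  obtain ⟨F, hF⟩ : ∃ F, F = (S \ {f | row f ∈ ω}) \ {f | f ∈ c ∧ ∃ a ∈ A, a ∈ row f} := ⟨_, rfl⟩
  rw [← hF]
  intro B
  induction B using Finset.induction_on with
  | empty => simp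
  | @insert b B hb ih =>
    intro hB
    have hbA : b ∈ A := hB (Finset.mem_insert_self _ _)
    have hBA' : B ⊆ A := fun x hx => hB (Finset.mem_insert_of_mem hx)
    have h1 := ih hBA'
    have h2 : e b ∉ P.closure (F ∪ e '' (B : Set (ℕ × ℕ))) := by
      intro h3
      refine not_mem_star hG.toRWal hc hW (he b hbA).1 (he b hbA).2.1
        (P.closure_subset_closure ?_ h3)
      rintro f (hf | ⟨a, ha, rfl⟩)
      · rw [hF] at hf
        exact ⟨hf.1.1, fun h4 => hf.2 ⟨h4.1, b, hbA, h4.2⟩⟩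
      · have haA : a ∈ A := hBA' ha
        refine ⟨hc (he a haA).1, fun h4 => (he a haA).2.2.2 b hbA ?_ h4.2⟩
        rintro rfl
        exact hb ha
    have h3 := rk_insert_notMem (hG.sub (hc (he b hbA).1)) h2
    have h4 : F ∪ e '' ((insert b B : Finset (ℕ × ℕ)) : Set (ℕ × ℕ)) =
        insert (e b) (F ∪ e '' (B : Set (ℕ × ℕ))) := by
      rw [Finset.coe_insert, image_insert_eq, union_insert]
    rw [h4, Finset.card_insert_of_notMem hb, h3]
    omega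

/-- the ends are independent -/
theorem ends_indep [P.Finite] (hG : RWx P S row w) {c : Set α} (hc : c ⊆ S)
    (hW : WallE c row w ∅) {ω : Set (Sym2 (ℕ × ℕ))} {A : Finset (ℕ × ℕ)}
    {e : ℕ × ℕ → α} (he : ∀ a ∈ A, e a ∈ c ∧ a ∈ row (e a) ∧ row (e a) ∉ ω ∧
      ∀ b ∈ A, b ≠ a → b ∉ row (e a)) :
    (P ／ ((S \ {f | row f ∈ ω}) \ {f | f ∈ c ∧ ∃ a ∈ A, a ∈ row f})).Indep
      (e '' (A : Set (ℕ × ℕ))) := by
  have h1 := ends_low hG hc hW he A (Finset.Subset.refl _)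
  obtain ⟨F, hF⟩ : ∃ F, F = (S \ {f | row f ∈ ω}) \ {f | f ∈ c ∧ ∃ a ∈ A, a ∈ row f} := ⟨_, rfl⟩
  rw [← hF] at h1 ⊢
  have hFE : F ⊆ P.E := by
    rw [hF]
    exact sdiff_subset.trans (sdiff_subset.trans hG.sub)
  have hOE : e '' (A : Set (ℕ × ℕ)) ⊆ P.E \ F := by
    rintro _ ⟨a, ha, rfl⟩
    refine ⟨hG.sub (hc (he a ha).1), fun h2 => ?_⟩
    rw [hF] at h2
    exact h2.2 ⟨(he a ha).1, a, ha, (he a ha).2.1⟩
  have hfin : (P ／ F).Finite := BQ.fin_contract _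
  have h2 := BQ.rk_con (M := P) hFE (X := e '' (A : Set (ℕ × ℕ))) hOE
  rw [union_comm] at h2
  have hf : (e '' (A : Set (ℕ × ℕ))).Finite := A.finite_toSet.image _
  have h3 : (e '' (A : Set (ℕ × ℕ))).ncard ≤ A.card := by
    rw [← Set.ncard_coe_finset A]
    exact ncard_image_le A.finite_toSet
  have h4 := rk_le_ncard (P ／ F) hf
  have h5 : rk (P ／ F) (e '' (A : Set (ℕ × ℕ))) = (e '' (A : Set (ℕ × ℕ))).ncard := by omega
  rw [Matroid.indep_iff_eRk_eq_encard_of_finite hf, ← cast_rk, h5]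
  exact hf.cast_ncard_eq

/-- **The ends span.** -/
theorem ends_span [P.Finite] (hG : RWx P S row w) {c : Set α} (hc : c ⊆ S)
    (hW : WallE c row w ∅) {ω : Set (Sym2 (ℕ × ℕ))} {T₀ : Set (ℕ × ℕ)} {A : Finset (ℕ × ℕ)}
    (hT₀ : ∀ f ∈ S, ∀ v ∈ T₀, v ∈ row f → row f ∈ ω) (hdT : ∀ a ∈ A, a ∉ T₀)
    (hAV : ∀ v, v ∈ T₀ ∨ v ∈ A → v ∈ rect 0 0 (w + 1) (w + 1))
    (hfull : ∀ T' : Set (ℕ × ℕ), T' ⊆ (A : Set (ℕ × ℕ)) →
      ∃ F, FullB {f | f ∈ c ∧ row f ∉ ω} row (rect 0 0 (w + 1) (w + 1) \ (T₀ ∪ T')) F)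
    {e : ℕ × ℕ → α} (he : ∀ a ∈ A, e a ∈ c ∧ a ∈ row (e a) ∧ row (e a) ∉ ω ∧
      ∀ b ∈ A, b ≠ a → b ∉ row (e a)) {A' : Finset (ℕ × ℕ)} (hA' : A' ⊆ A) :
    (S \ {f | row f ∈ ω}) \ {f | f ∈ c ∧ ∃ a ∈ A, a ∉ A' ∧ a ∈ row f} ⊆
      P.closure (((S \ {f | row f ∈ ω}) \ {f | f ∈ c ∧ ∃ a ∈ A, a ∈ row f}) ∪
        e '' (A' : Set (ℕ × ℕ))) := by
  classical
  obtain ⟨F, hF⟩ : ∃ F, F = (S \ {f | row f ∈ ω}) \ {f | f ∈ c ∧ ∃ a ∈ A, a ∈ row f} := ⟨_, rfl⟩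
  obtain ⟨Y, hY⟩ : ∃ Y, Y = (S \ {f | row f ∈ ω}) \ {f | f ∈ c ∧ ∃ a ∈ A, a ∉ A' ∧ a ∈ row f} :=
    ⟨_, rfl⟩
  rw [← hF, ← hY]
  have hVf := Gad.rect_finite 0 0 (w + 1) (w + 1)
  -- ranks
  have hcd : ∀ B : Finset (ℕ × ℕ), B ⊆ A →
      (rect 0 0 (w + 1) (w + 1) \ (T₀ ∪ (B : Set (ℕ × ℕ)))).ncard + (T₀.ncard + B.card) =
        (rect 0 0 (w + 1) (w + 1)).ncard := by
    intro B hB
    have h1 : T₀ ∪ (B : Set (ℕ × ℕ)) ⊆ rect 0 0 (w + 1) (w + 1) := by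
      rintro v (hv | hv)
      · exact hAV v (Or.inl hv)
      · exact hAV v (Or.inr (hB hv))
    have h2 := ncard_sdiff_add_ncard_of_subset h1 hVf
    have h3 : (T₀ ∪ (B : Set (ℕ × ℕ))).ncard = T₀.ncard + B.card := by
      rw [ncard_union_eq ?_ (hVf.subset fun v hv => hAV v (Or.inl hv)) B.finite_toSet,
        Set.ncard_coe_finset]
      rw [Set.disjoint_left]
      exact fun v hv hvB => hdT v (hB hvB) hv
    omega
  have hrk : ∀ B : Finset (ℕ × ℕ), B ⊆ A →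
      rk P ((S \ {f | row f ∈ ω}) \ {f | f ∈ c ∧ ∃ a ∈ B, a ∈ row f}) =
        ((S \ {f | row f ∈ ω}) \ c).ncard +
          (rect 0 0 (w + 1) (w + 1) \ (T₀ ∪ (B : Set (ℕ × ℕ)))).ncard := by
    intro B hB
    obtain ⟨F', hF'⟩ := hfull B (Finset.coe_subset.2 hB)
    rw [← hG.rk_hole hc hW hF']
    congr 1
    ext f
    constructor
    · rintro ⟨h1, h2⟩
      refine ⟨h1, fun h3 => ?_⟩
      obtain ⟨h3, v, hv | hv, hvf⟩ := h3
      · exact h1.2 (hT₀ f h1.1 v hv hvf)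
      · exact h2 ⟨h3, v, hv, hvf⟩
    · rintro ⟨h1, h2⟩
      exact ⟨h1, fun h3 => by
        obtain ⟨h3, v, hv, hvf⟩ := h3
        exact h2 ⟨h3, v, Or.inr hv, hvf⟩⟩
  have r1 := hrk A (Finset.Subset.refl _)
  have c1 := hcd A (Finset.Subset.refl _)
  have r2 := hrk (A \ A') Finset.sdiff_subset
  have c2 := hcd (A \ A') Finset.sdiff_subset
  have c3 := Finset.card_sdiff_add_card_eq_card hA'
  rw [← hF] at r1
  have e2 : (S \ {f | row f ∈ ω}) \ {f | f ∈ c ∧ ∃ a ∈ A \ A', a ∈ row f} = Y := by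
    rw [hY]
    ext f
    simp only [mem_sdiff, mem_ofPred_eq, Finset.mem_sdiff, and_assoc]
  rw [e2] at r2
  have hlow := ends_low hG hc hW he
  rw [← hF] at hlow
  have h5 := hlow A' hA'
  have hsub : F ∪ e '' (A' : Set (ℕ × ℕ)) ⊆ Y := by
    rw [hY]
    rintro f (hf | ⟨a, ha, rfl⟩)
    · rw [hF] at hf
      exact ⟨hf.1, fun h4 => by
        obtain ⟨h4, b, hbA, _, hbf⟩ := h4
        exact hf.2 ⟨h4, b, hbA, hbf⟩⟩
    · have haA : a ∈ A := hA' ha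
      refine ⟨⟨hc (he a haA).1, (he a haA).2.2.1⟩, ?_⟩
      rintro ⟨_, b, hbA, hbA', hbf⟩
      refine (he a haA).2.2.2 b hbA ?_ hbf
      rintro rfl
      exact hbA' ha
  intro y hy
  have hyE : y ∈ P.E := by
    rw [hY] at hy
    exact hG.sub hy.1.1
  refine mem_of_rk hyE ?_
  have h6 := rk_mono P (insert_subset hy hsub)
  omega

/-- **Drop of a star** next to a hole. -/
lemma drop_st [P.Finite] (hG : RWx P S row w) {c : Set α} {ω : Set (Sym2 (ℕ × ℕ))} {v : ℕ × ℕ}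
    (hv : ∀ f ∈ S, row f ∈ ω → v ∉ row f)
    (hmod : rk P (S \ {f | row f ∈ ω}) + rk P (S \ {f | f ∈ c ∧ v ∈ row f}) ≤
      rk P S + rk P ((S \ {f | row f ∈ ω}) \ {f | f ∈ c ∧ v ∈ row f})) {Z : Set α} {z : α}
    (hZ : ∀ x ∈ insert z Z, v ∉ LocR P S row c x)
    (hz : z ∈ P.closure (Z ∪ (S \ {f | row f ∈ ω}))) :
    z ∈ P.closure (Z ∪ ((S \ {f | row f ∈ ω}) \ {f | f ∈ c ∧ v ∈ row f})) := by
  have hZ' : ∀ x ∈ insert z Z, x ∈ P.closure (S \ {f | f ∈ c ∧ v ∈ row f}) := by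
    intro x hx
    by_contra h
    exact hZ x hx h
  have e1 : (S \ {f | row f ∈ ω}) ∪ (S \ {f | f ∈ c ∧ v ∈ row f}) = S := by
    ext f
    constructor
    · rintro (h | h) <;> exact h.1
    · intro h
      by_cases h1 : row f ∈ ω
      · exact Or.inr ⟨h, fun h2 => hv f h h1 h2.2⟩
      · exact Or.inl ⟨h, h1⟩
  have e2 : (S \ {f | row f ∈ ω}) ∩ (S \ {f | f ∈ c ∧ v ∈ row f}) =
      (S \ {f | row f ∈ ω}) \ {f | f ∈ c ∧ v ∈ row f} := by
    ext f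
    constructor
    · rintro ⟨h1, h2⟩
      exact ⟨h1, h2.2⟩
    · rintro ⟨h1, h2⟩
      exact ⟨h1, h1.1, h2⟩
  have h1 := mod_drop (P := P) (A' := S \ {f | row f ∈ ω}) (G := S \ {f | f ∈ c ∧ v ∈ row f})
    (T := Z) (z := z) (sdiff_subset.trans hG.sub) (by rw [e1, e2]; exact hmod)
    (fun x hx => hZ' x (Or.inr hx)) (hZ' z (Or.inl rfl)) hz
  rwa [e2] at h1

lemma rk_star_lt [P.Finite] (hG : RWx P S row w) {c : Set α} (hc : c ⊆ S)
    (hW : WallE c row w ∅) {v : ℕ × ℕ} (hv : v.1 + 2 ≤ w) (hv2 : v.2 ≤ w) :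
    rk P (S \ {f | f ∈ c ∧ v ∈ row f}) + 1 ≤ rk P S := by
  obtain ⟨f, hf, hfe⟩ := hW.surj (v.1, v.2) (v.1 + 1, v.2) wadj_r
    (by rw [Gad.mem_rct]; simp only; omega) (by rw [Gad.mem_rct]; simp only; omega)
    (notMem_empty _)
  have h1 := not_mem_star hG.toRWal hc hW hf (v := v) (by rw [hfe]; exact Sym2.mem_mk_left _ _)
  have h2 := rk_insert_notMem (hG.sub (hc hf)) h1
  rw [← h2]
  exact rk_mono P (insert_subset (hc hf) sdiff_subset)

/-- **From a circuit of the local matroid to a configuration.** -/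
theorem conf_of_circ [P.Finite] (hG : RWx P S row w) {D β : ℕ} (hD : 4 ≤ D) {u : ℕ × ℕ}
    (hu : 20 ≤ u.1 ∧ u.1 + 20 ≤ w ∧ 20 ≤ u.2 ∧ u.2 + 20 ≤ w) {c : Set α} (hc : c ⊆ S)
    (hW : WallE c row w ∅) {ω : Set (Sym2 (ℕ × ℕ))} {T₀ : Set (ℕ × ℕ)} {A : Finset (ℕ × ℕ)}
    (hnear : ∀ p q, s(p, q) ∈ ω → sd p u ≤ 1 ∧ sd q u ≤ 1)
    (hωU : ∀ f ∈ S, row f ∈ ω → ∀ v ∈ row f, v ∈ T₀ ∨ v ∈ A)
    (hT₀ : ∀ f ∈ S, ∀ v ∈ T₀, v ∈ row f → row f ∈ ω) (hdT : ∀ a ∈ A, a ∉ T₀)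
    (hAV : ∀ v, v ∈ T₀ ∨ v ∈ A → v ∈ rect 0 0 (w + 1) (w + 1))
    (hfull : ∀ T' : Set (ℕ × ℕ), (T' ⊆ (A : Set (ℕ × ℕ)) ∨ ∃ a, T' ⊆ {a} ∧ sd a u ≤ 5) →
      ∃ F, FullB {f | f ∈ c ∧ row f ∉ ω} row (rect 0 0 (w + 1) (w + 1) \ (T₀ ∪ T')) F)
    {e : ℕ × ℕ → α} (he : ∀ a ∈ A, e a ∈ c ∧ a ∈ row (e a) ∧ row (e a) ∉ ω ∧
      ∀ b ∈ A, b ≠ a → b ∉ row (e a)) {C : Set α}
    (hC : (P ／ ((S \ {f | row f ∈ ω}) \ {f | f ∈ c ∧ ∃ a ∈ A, a ∈ row f})).IsCircuit C) {z : α}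
    (hz : z ∈ C) (hzO : z ∉ e '' (A : Set (ℕ × ℕ)))
    (hind : (P ／ ((S \ {f | row f ∈ ω}) \ {f | f ∈ c ∧ ∃ a ∈ A, a ∈ row f})).Indep
      ((C \ {z}) ∪ e '' (A : Set (ℕ × ℕ))))
    (hZcl : ∀ x ∈ C, x ∉ e '' (A : Set (ℕ × ℕ)) → x ∈ P.closure S ∧ (x ∈ S → row x ∈ ω))
    {Yv : Finset (ℕ × ℕ)}
    (hY : ∀ y ∈ Yv, ∃ b ∈ C, b ∉ e '' (A : Set (ℕ × ℕ)) ∧ y ∈ LocR P S row c b ∧
      ∀ x ∈ C, x ∉ e '' (A : Set (ℕ × ℕ)) → x ≠ b → y ∉ LocR P S row c x)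
    (hloc : ∀ x ∈ C, x ∉ e '' (A : Set (ℕ × ℕ)) → ∀ v ∈ LocR P S row c x,
      DeepR (0, 0) (w + 1) (w + 1) D v → v ∈ T₀ ∨ v ∈ A ∨ v ∈ Yv)
    {N Λ : Finset (ℕ × ℕ)} (hN : N.card ≤ β)
    (hsupp : ∀ x ∈ C, x ∉ e '' (A : Set (ℕ × ℕ)) → ∀ c', c' ⊆ S → WallE c' row w ∅ →
      ∀ v ∈ LocR P S row c' x, DeepR (0, 0) (w + 1) (w + 1) D v → v ∈ N)
    (hAN : A ⊆ N) (hYN : Yv ⊆ N)
    (hΛ : ∀ v, v ∈ Λ ↔ (v ∈ A ∧ e v ∈ C) ∨ v ∈ Yv) (hΛc : 3 ≤ Λ.card ∧ Λ.card ≤ 4)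
    (hHC : ∀ p, sd p u ≤ 1 → (∃ q, wr w ω p q) → ∃ x, RE 1 ≤ sd x p ∧ Cn (wr w ω) univ p x)
    (hLC : ∀ C : Finset (ℕ × ℕ), C.card < Λ.card → ∃ l ∈ Λ, l ∉ C ∧
      ∃ x, RE 1 ≤ sd x l ∧ Cn (wr w ω) (C : Set (ℕ × ℕ))ᶜ l x) :
    ∃ Z : Finset α, LConf P S row w 1 D β u ω Z z c N Λ := by
  classical
  obtain ⟨X, hX⟩ : ∃ X, X = S \ {f | row f ∈ ω} := ⟨_, rfl⟩
  obtain ⟨F, hF⟩ : ∃ F, F = X \ {f | f ∈ c ∧ ∃ a ∈ A, a ∈ row f} := ⟨_, rfl⟩
  obtain ⟨O, hO⟩ : ∃ O, O = e '' (A : Set (ℕ × ℕ)) := ⟨_, rfl⟩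
  have hspan := @ends_span _ _ _ _ _ _ hG c hc hW ω T₀ A hT₀ hdT hAV
    (fun T' h => hfull T' (Or.inl h)) e he
  rw [← hX] at hC hind hspan
  rw [← hF] at hC hind hspan
  rw [← hO] at hzO hind hZcl hY hloc hsupp
  have hXS : X ⊆ S := by
    rw [hX]
    exact sdiff_subset
  have hXE : X ⊆ P.E := hXS.trans hG.sub
  have hFX : F ⊆ X := by
    rw [hF]
    exact sdiff_subset
  have hOX : O ⊆ X := by
    rw [hO, hX]
    rintro _ ⟨a, ha, rfl⟩
    exact ⟨hc (he a ha).1, (he a ha).2.2.1⟩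
  have hspA : X ⊆ P.closure (F ∪ O) := by
    have h1 := @hspan A (Finset.Subset.refl _)
    rw [hO]
    refine Subset.trans ?_ h1
    intro f hf
    exact ⟨hf, fun h2 => by
      obtain ⟨_, a, ha, hb, _⟩ := h2
      exact hb ha⟩
  have hinj : ∀ a ∈ A, ∀ b ∈ A, e a = e b → a = b := by
    intro a ha b hb hab
    by_contra hne
    have h1 := (he a ha).2.1
    rw [hab] at h1
    exact (he b hb).2.2.2 a ha hne h1
  have hsp1 : ∀ a ∈ A, X \ {f | f ∈ c ∧ a ∈ row f} ⊆ P.closure (F ∪ (O \ {e a})) := by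
    intro a ha
    have h1 := @hspan (A.erase a) (Finset.erase_subset _ _)
    refine Subset.trans ?_ (h1.trans (P.closure_subset_closure ?_))
    · rintro f ⟨hf, hf2⟩
      refine ⟨hf, fun h2 => ?_⟩
      obtain ⟨h2, b, hb, hb', hbf⟩ := h2
      have : b = a := by
        by_contra hne
        exact hb' (Finset.mem_erase.2 ⟨hne, hb⟩)
      subst this
      exact hf2 ⟨h2, hbf⟩
    · rintro f (hf | ⟨b, hb, rfl⟩)
      · exact Or.inl hf
      · rw [Finset.mem_coe, Finset.mem_erase] at hb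
        refine Or.inr ⟨?_, fun h2 => hb.1 (hinj b hb.2 a ha h2)⟩
        rw [hO]
        exact ⟨b, hb.2, rfl⟩
  obtain ⟨k1, k2, k3, k4, k5⟩ := core_circ hXE hFX hOX hspA hC hz hzO hind
  have hCE : C ⊆ P.E := fun x hx => (hC.subset_ground hx).1
  have hZfin : ((C \ O) \ {z}).Finite := P.ground_finite.subset fun x hx => hCE hx.1.1
  obtain ⟨Z, hZ⟩ : ∃ Z : Finset α, Z = hZfin.toFinset := ⟨_, rfl⟩
  have hZc : (Z : Set α) = (C \ O) \ {z} := by
    rw [hZ, Set.Finite.coe_toFinset]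
  have hZm : ∀ x ∈ Z, x ∈ C ∧ x ∉ O ∧ x ≠ z := by
    intro x hx
    have : x ∈ (Z : Set α) := hx
    rw [hZc] at this
    exact ⟨this.1.1, this.1.2, this.2⟩
  have hcases : ∀ x, (x = z ∨ x ∈ Z) → x ∈ C ∧ x ∉ O := by
    rintro x (rfl | hx)
    · exact ⟨hz, hzO⟩
    · exact ⟨(hZm x hx).1, (hZm x hx).2.1⟩
  refine ⟨Z, hnear, hN, ?_, hΛc, ⟨hc, hW⟩, hZcl z hz hzO, ?_, ?_, ?_, ?_, ?_, hHC, hLC⟩
  · intro v hv
    rcases (hΛ v).1 hv with h1 | h1
    · exact hAN h1.1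
    · exact hYN h1
  · intro x hx
    exact hZcl x (hZm x hx).1 (hZm x hx).2.1
  · intro x hx c' hc' hW' v hv hvD
    obtain ⟨h1, h2⟩ := hcases x hx
    exact hsupp x h1 h2 c' hc' hW' v hv hvD
  · rw [← hX, hZc]
    rw [k1, ← hZc, Set.ncard_coe_finset]
  · rw [← hX, hZc]
    exact k2
  · -- exact locations
    intro v hvN hvD
    rw [← hX, hZc]
    have hvD' := hvD
    unfold DeepR at hvD'
    dsimp only at hvD'
    by_cases hvY : v ∈ Yv
    · refine ⟨fun _ => ?_, fun _ => (hΛ v).2 (Or.inr hvY)⟩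
      obtain ⟨b, hbC, hbO, hvb, hoth⟩ := hY v hvY
      have hoth' : ∀ x ∈ C, x ∉ O → x ≠ b → x ∈ P.closure (S \ {f | f ∈ c ∧ v ∈ row f}) := by
        intro x hx hxO hxb
        by_contra h
        exact hoth x hx hxO hxb h
      have hXH : X \ {f | f ∈ c ∧ v ∈ row f} ⊆ P.closure (S \ {f | f ∈ c ∧ v ∈ row f}) := by
        refine Subset.trans ?_ (P.subset_closure _ (sdiff_subset.trans hG.sub))
        exact fun f hf => ⟨hXS hf.1, hf.2⟩
      by_cases hbz : b = z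
      · subst hbz
        intro h1
        refine hvb (P.closure_subset_closure_of_subset_closure ?_ h1)
        rintro x (hx | hx)
        · exact hoth' x hx.1.1 hx.1.2 hx.2
        · exact hXH hx
      · intro h1
        have e3 : ((C \ O) \ {z}) ∪ (X \ {f | f ∈ c ∧ v ∈ row f}) =
            insert b ((((C \ O) \ {z}) \ {b}) ∪ (X \ {f | f ∈ c ∧ v ∈ row f})) := by
          rw [← insert_union, insert_sdiff_singleton, insert_eq_of_mem]
          exact ⟨⟨hbC, hbO⟩, hbz⟩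
        rw [e3] at h1
        have h2 : z ∉ P.closure ((((C \ O) \ {z}) \ {b}) ∪ (X \ {f | f ∈ c ∧ v ∈ row f})) := by
          intro h3
          refine k5 b hbC hbO hbz (P.closure_subset_closure ?_ h3)
          exact union_subset_union_right _ sdiff_subset
        have h3 := (P.closure_exchange ⟨h1, h2⟩).1
        refine hvb (P.closure_subset_closure_of_subset_closure ?_ h3)
        rintro x (rfl | hx | hx)
        · exact hoth' _ hz hzO (Ne.symm hbz)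
        · exact hoth' x hx.1.1.1 hx.1.1.2 hx.2
        · exact hXH hx
    by_cases hvA : v ∈ A
    · by_cases hvC : e v ∈ C
      · refine ⟨fun _ => ?_, fun _ => (hΛ v).2 (Or.inl ⟨hvA, hvC⟩)⟩
        refine k3 (e v) ?_ hvC _ (hsp1 v hvA)
        rw [hO]
        exact ⟨v, hvA, rfl⟩
      · refine ⟨fun h1 => ?_, fun h1 => absurd ?_ h1⟩
        · rcases (hΛ v).1 h1 with h2 | h2
          · exact absurd h2.2 hvC
          · exact absurd h2 hvY
        · refine k4 (e v) ?_ hvC _ ?_ (sdiff_subset.trans hXE)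
          · rw [hO]
            exact ⟨v, hvA, rfl⟩
          · rintro f (hf | hf)
            · refine ⟨hFX hf, fun h2 => ?_⟩
              rw [hF] at hf
              exact hf.2 ⟨h2.1, v, hvA, h2.2⟩
            · refine ⟨hOX hf.1, fun h2 => ?_⟩
              have h3 := hf.1
              rw [hO] at h3
              obtain ⟨b, hb, rfl⟩ := h3
              refine (he b hb).2.2.2 v hvA ?_ h2.2
              rintro rfl
              exact hf.2 rfl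
    have hvΛ : v ∉ Λ := by
      intro h1
      rcases (hΛ v).1 h1 with h2 | h2
      · exact hvA h2.1
      · exact hvY h2
    refine ⟨fun h1 => absurd h1 hvΛ, fun h1 => absurd ?_ h1⟩
    by_cases hvT : v ∈ T₀
    · -- an isolated vertex
      refine P.closure_subset_closure ?_ k2
      rintro f (hf | hf)
      · exact Or.inl hf
      · refine Or.inr ⟨hf, fun h2 => ?_⟩
        rw [hX] at hf
        exact hf.2 (hT₀ f hf.1 v hvT h2.2)
    -- a vertex without locations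
    have hvrow : ∀ f ∈ S, row f ∈ ω → v ∉ row f := by
      intro f hf hfω hvf
      rcases hωU f hf hfω v hvf with h2 | h2
      · exact hvT h2
      · exact hvA h2
    have hmod : rk P (S \ {f | row f ∈ ω}) + rk P (S \ {f | f ∈ c ∧ v ∈ row f}) ≤
        rk P S + rk P ((S \ {f | row f ∈ ω}) \ {f | f ∈ c ∧ v ∈ row f}) := by
      by_cases hvu : sd v u ≤ 5
      · have h2 := rk_star_lt hG hc hW (v := v) (by omega) (by omega)
        obtain ⟨F1, hF1⟩ := hfull ∅ (Or.inl (empty_subset _))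
        obtain ⟨F2, hF2⟩ := hfull {v} (Or.inr ⟨v, Subset.refl _, hvu⟩)
        have r1 := hG.rk_hole hc hW hF1
        have r2 := hG.rk_hole hc hW hF2
        have e1 : (S \ {f | row f ∈ ω}) \ {f | f ∈ c ∧ ∃ a ∈ T₀ ∪ ∅, a ∈ row f} =
            S \ {f | row f ∈ ω} := by
          ext f
          constructor
          · exact fun h => h.1
          · refine fun h => ⟨h, fun h3 => ?_⟩
            obtain ⟨_, a, ha | ha, haf⟩ := h3
            · exact h.2 (hT₀ f h.1 a ha haf)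
            · exact ha
        have e2 : (S \ {f | row f ∈ ω}) \ {f | f ∈ c ∧ ∃ a ∈ T₀ ∪ {v}, a ∈ row f} =
            (S \ {f | row f ∈ ω}) \ {f | f ∈ c ∧ v ∈ row f} := by
          ext f
          constructor
          · exact fun h => ⟨h.1, fun h3 => h.2 ⟨h3.1, v, Or.inr rfl, h3.2⟩⟩
          · refine fun h => ⟨h.1, fun h3 => ?_⟩
            obtain ⟨h4, a, ha | ha, haf⟩ := h3
            · exact h.1.2 (hT₀ f h.1.1 a ha haf)
            · rw [mem_singleton_iff] at ha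
              subst ha
              exact h.2 ⟨h4, haf⟩
        rw [e1, union_empty] at r1
        rw [e2] at r2
        have h4 : (rect 0 0 (w + 1) (w + 1) \ T₀).ncard ≤
            (rect 0 0 (w + 1) (w + 1) \ (T₀ ∪ {v})).ncard + 1 := by
          have h5 : rect 0 0 (w + 1) (w + 1) \ T₀ ⊆
              insert v (rect 0 0 (w + 1) (w + 1) \ (T₀ ∪ {v})) := by
            intro x hx
            by_cases hxv : x = v
            · exact Or.inl hxv
            · refine Or.inr ⟨hx.1, ?_⟩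
              rintro (h6 | h6)
              · exact hx.2 h6
              · exact hxv h6
          refine (ncard_le_ncard h5 (((Gad.rect_finite _ _ _ _).subset sdiff_subset).insert _)).trans
            (ncard_insert_le _ _)
        omega
      · have hQ : HQ w ({(u, 1)} ∪ {(v, 0)}) := by
          have hs : sd u v = sd v u := by
            unfold sd
            omega
          refine ⟨?_, ?_⟩
          · rintro q (hq | hq) <;> rw [mem_singleton_iff] at hq <;> subst hq <;> dsimp only <;>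
              omega
          · rintro q (hq | hq) q' (hq' | hq') hne <;> rw [mem_singleton_iff] at hq hq' <;>
              subst hq <;> subst hq' <;> first | exact absurd rfl hne | (dsimp only; omega)
        have hd : Disjoint ({(u, 1)} : Set ((ℕ × ℕ) × ℕ)) {(v, 0)} := by
          rw [Set.disjoint_singleton]
          intro h3
          have := congrArg Prod.snd h3
          simp at this
        have h2 := hG.dec2 (by omega) hQ hd (D₁ := {f | f ∈ S ∧ row f ∈ ω})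
          (D₂ := {f | f ∈ c ∧ v ∈ row f}) (by
            rintro f ⟨hf, hfω⟩
            obtain ⟨p, q, h3, _, _, _⟩ := hG.mem f hf
            rw [h3] at hfω
            refine ⟨hf, p, ⟨_, mem_singleton _, ?_⟩, by rw [h3]; exact Sym2.mem_mk_left _ _⟩
            exact (hnear p q hfω).1) (by
            rintro f ⟨hf, hvf⟩
            refine ⟨hc hf, v, ⟨_, mem_singleton _, ?_⟩, hvf⟩
            dsimp only
            rw [sd_le]
            omega)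
        have e1 : S \ {f | f ∈ S ∧ row f ∈ ω} = S \ {f | row f ∈ ω} := by
          ext f
          exact ⟨fun h => ⟨h.1, fun h3 => h.2 ⟨h.1, h3⟩⟩, fun h => ⟨h.1, fun h3 => h.2 h3.2⟩⟩
        rw [e1] at h2
        exact h2
    have h2 := drop_st (c := c) hG hvrow hmod (Z := (C \ O) \ {z}) (z := z) (by
      intro x hx hvx
      have h3 : x ∈ C ∧ x ∉ O := by
        rcases hx with rfl | hx
        · exact ⟨hz, hzO⟩
        · exact hx.1
      rcases hloc x h3.1 h3.2 v hvx hvD with h4 | h4 | h4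
      · exact hvT h4
      · exact hvA h4
      · exact hvY h4) (by rw [← hX]; exact k2)
    rw [← hX] at h2
    exact h2

end

end DA
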