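import Pool.Agent.DA.Gam74C

/-!
# Gamma elements, part C2: windows (row B4 of cell G, problem MP_5165fa_co)
-/

open Set BIC BICS
open scoped Matroid

namespace DA
namespace Gam

universe u v

variable {α : Type*} {M : Matroid α}

section win

variable {c k n : ℕ} {Y : Set α} {z : ℕ → α} {T₀ : Fin c → Finset ℕ → Fin k → α}

/-- the rows of window `b` -/
def ro (k b : ℕ) : Finset ℕ := Finset.Ico (3 * k * (b + 1)) (3 * k * (b + 1) + k)

lemma ro_card (k b : ℕ) : (ro k b).card = k := by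
  simp [ro]

lemma ro_lt {k w b : ℕ} (h : w < b) {x y : ℕ} (hx : x ∈ ro k w) (hy : y ∈ ro k b) : x < y := by
  unfold ro at hx hy
  rw [Finset.mem_Ico] at hx hy
  have h1 : 3 * k * (w + 1 + 1) ≤ 3 * k * (b + 1) := Nat.mul_le_mul_left _ (by omega)
  rw [Nat.mul_add (3 * k) (w + 1) 1] at h1
  omega

/-- the points of the windows in `D` -/
def pw (T₀ : Fin c → Finset ℕ → Fin k → α) (D : Finset (Fin c × ℕ × Fin k)) : Set α :=
  (fun x : Fin c × ℕ × Fin k => T₀ x.1 (ro k x.2.1) x.2.2) '' (D : Set _)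

/-- A position: `p` is the number of the first window to the right of the rows `I'`. -/
structure Pos (k : ℕ) (W I' : Finset ℕ) (p : ℕ) : Prop where
  l : ∀ w ∈ W, w < p → ∀ x ∈ ro k w, ∀ y ∈ I', x < y
  r : ∀ w ∈ W, p ≤ w → ∀ x ∈ ro k w, ∀ y ∈ I', y < x

/-- the system of blocks: window `w` has the number `2 w + 1`, the rows `J` have the number `2 p`. -/
def sysg (k p : ℕ) (J : Finset ℕ) (i : ℕ) : Finset ℕ := if i = 2 * p then J else ro k ((i - 1) / 2)

lemma sysg_win {k p w : ℕ} {J : Finset ℕ} : sysg k p J (2 * w + 1) = ro k w := by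
  unfold sysg
  rw [if_neg (by omega)]
  congr 1
  omega

lemma sysg_J {k p : ℕ} {J : Finset ℕ} : sysg k p J (2 * p) = J := by
  unfold sysg
  rw [if_pos rfl]

lemma sysg_BS {W I' J T : Finset ℕ} {p : ℕ} (hP : Pos k W I' p) (hW : ∀ w ∈ W, ro k w ⊆ T)
    (hI' : I' ⊆ T) (hJ : J ⊆ I') (hJc : J.card = k) :
    BS k T (insert (2 * p) (W.image (fun w => 2 * w + 1))) (sysg k p J) where
  sub := by
    intro i hi
    rcases Finset.mem_insert.1 hi with rfl | hi
    · rw [sysg_J]
      exact hJ.trans hI'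
    · obtain ⟨w, hw, rfl⟩ := Finset.mem_image.1 hi
      rw [sysg_win]
      exact hW w hw
  card := by
    intro i hi
    rcases Finset.mem_insert.1 hi with rfl | hi
    · rw [sysg_J, hJc]
    · obtain ⟨w, hw, rfl⟩ := Finset.mem_image.1 hi
      rw [sysg_win, ro_card]
  lt := by
    intro i hi j hj hij x hx y hy
    rcases Finset.mem_insert.1 hi with rfl | hi
    · rw [sysg_J] at hx
      rcases Finset.mem_insert.1 hj with rfl | hj
      · omega
      · obtain ⟨w, hw, rfl⟩ := Finset.mem_image.1 hj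
        rw [sysg_win] at hy
        exact hP.r w hw (by omega) y hy x (hJ hx)
    · obtain ⟨w, hw, rfl⟩ := Finset.mem_image.1 hi
      rw [sysg_win] at hx
      rcases Finset.mem_insert.1 hj with rfl | hj
      · rw [sysg_J] at hy
        exact hP.l w hw (by omega) x hx y (hJ hy)
      · obtain ⟨w', hw', rfl⟩ := Finset.mem_image.1 hj
        rw [sysg_win] at hy
        exact ro_lt (by omega) hx hy

/-- **Noise.**  `k` points of some windows do not exchange with `k` rows of a long interval which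
avoids these windows. -/
theorem noise₀ [M.Finite] (hk : 2 ≤ k) (hU : ¬ HasUniformMinor M k) {I : Finset ℕ}
    (hR : Row M Y z I) {T : Finset ℕ} (hT : T ⊆ I) (hH : Hom M Y z I k T₀ T)
    (hcl : ∀ a w q, ro k w ⊆ T → T₀ a (ro k w) q ∈ M.closure (Y ∪ z '' (I : Set ℕ)))
    {W I' : Finset ℕ} {p : ℕ} (hP : Pos k W I' p) (hW : ∀ w ∈ W, ro k w ⊆ T) (hI' : I' ⊆ T)
    (hI'c : 2 * k ≤ I'.card) (D : Finset (Fin c × ℕ × Fin k)) (hD : ∀ x ∈ D, x.2.1 ∈ W)
    (hDc : D.card = k) {J₀ : Finset ℕ} (hJ₀ : J₀ ⊆ I') (hJ₀c : J₀.card = k) :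
    ¬ k ≤ vis M Y z I (pw T₀ D) J₀ := by
  classical
  intro hvis
  apply hU
  -- only the windows of `D`
  obtain ⟨W', hW'⟩ : ∃ W', W' = D.image (fun x => x.2.1) := ⟨_, rfl⟩
  have hW'W : W' ⊆ W := by
    rw [hW']
    intro w hw
    obtain ⟨x, hx, rfl⟩ := Finset.mem_image.1 hw
    exact hD x hx
  have hW'c : W'.card ≤ k := by
    rw [hW']
    exact Finset.card_image_le.trans hDc.le
  have hP' : Pos k W' I' p := ⟨fun w hw => hP.l w (hW'W hw), fun w hw => hP.r w (hW'W hw)⟩
  have hsc : (insert (2 * p) (W'.image (fun w => 2 * w + 1))).card ≤ k + 1 := by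
    refine (Finset.card_insert_le _ _).trans ?_
    have := Finset.card_image_le (s := W') (f := fun w => 2 * w + 1)
    omega
  obtain ⟨D', hD'⟩ : ∃ D' : Finset (Fin c × ℕ × Fin k),
    D' = D.image (fun x => (x.1, 2 * x.2.1 + 1, x.2.2)) := ⟨_, rfl⟩
  have hpt : ∀ J : Finset ℕ, pt T₀ (sysg k p J) D' = pw T₀ D := by
    intro J
    unfold pt pw
    rw [hD', Finset.coe_image, image_image]
    refine image_congr ?_
    intro x _
    simp only
    rw [sysg_win]
  have hD's : ∀ x ∈ D', x.2.1 ∈ insert (2 * p) (W'.image (fun w => 2 * w + 1)) := by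
    intro x hx
    rw [hD'] at hx
    obtain ⟨y, hy, rfl⟩ := Finset.mem_image.1 hx
    refine Finset.mem_insert_of_mem (Finset.mem_image.2 ⟨y.2.1, ?_, rfl⟩)
    rw [hW']
    exact Finset.mem_image.2 ⟨y, hy, rfl⟩
  refine hR.unif hk (fun x : Fin c × ℕ × Fin k => T₀ x.1 (ro k x.2.1) x.2.2) D ?_ hDc
    (hI'.trans hT) hI'c ?_
  · intro x hx
    exact hcl _ _ _ (hW _ (hD x hx))
  · intro J hJ hJc
    have h1 := hH _ (sysg k p J₀) (sysg k p J) hsc
      (sysg_BS hP' (fun w hw => hW w (hW'W hw)) hI' hJ₀ hJ₀c)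
      (sysg_BS hP' (fun w hw => hW w (hW'W hw)) hI' hJ hJc) (2 * p)
      (Finset.mem_insert_self _ _) D' hD's
    rw [hpt, hpt, sysg_J, sysg_J] at h1
    exact h1 hvis

/-- All points of some windows see a long interval of rows outside with rank less than `k`. -/
theorem vis_lt [M.Finite] (hk : 2 ≤ k) (hU : ¬ HasUniformMinor M k) {I : Finset ℕ}
    (hR : Row M Y z I) {T : Finset ℕ} (hT : T ⊆ I) (hH : Hom M Y z I k T₀ T)
    (hcl : ∀ a w q, ro k w ⊆ T → T₀ a (ro k w) q ∈ M.closure (Y ∪ z '' (I : Set ℕ)))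
    {W I' : Finset ℕ} {p : ℕ} (hP : Pos k W I' p) (hW : ∀ w ∈ W, ro k w ⊆ T) (hI' : I' ⊆ T)
    (hI'c : 2 * k ≤ I'.card) :
    vis M Y z I (pw T₀ (Finset.univ ×ˢ (W ×ˢ Finset.univ))) I' < k := by
  classical
  by_contra hcon
  push Not at hcon
  obtain ⟨J', hJ', hJ'c, D, hD, hDc, hv⟩ := hR.exchange
    (fun x : Fin c × ℕ × Fin k => T₀ x.1 (ro k x.2.1) x.2.2)
    (Finset.univ ×ˢ (W ×ˢ Finset.univ)) (fun x hx => hcl _ _ _ (hW _ (by
      rw [Finset.mem_product, Finset.mem_product] at hx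
      exact hx.2.1))) (hI'.trans hT) hcon
  exact noise₀ hk hU hR hT hH hcl hP hW hI' hI'c D (fun x hx => by
    have h1 := hD hx
    rw [Finset.mem_product, Finset.mem_product] at h1
    exact h1.2.1) hDc hJ' hJ'c hv

end win

/-- Points outside of the span of `X` and the other points are independent over `X`. -/
lemma rk_of_out {ι : Type*} [M.Finite] {X : Set α} {x : ι → α} (A : Finset ι)
    (hx : ∀ a ∈ A, x a ∈ M.E)
    (h : ∀ a ∈ A, x a ∉ M.closure (X ∪ x '' {a' | a' ∈ A ∧ a' ≠ a})) :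
    rk M (X ∪ x '' (A : Set ι)) = rk M X + A.card := by
  classical
  have key : ∀ B ⊆ A, rk M (X ∪ x '' (B : Set ι)) = rk M X + B.card := by
    intro B
    induction B using Finset.induction_on with
    | empty => intro _; simp
    | insert b B hb ih =>
      intro hB
      have h1 := ih (fun c hc => hB (Finset.mem_insert_of_mem hc))
      have hbA := hB (Finset.mem_insert_self _ _)
      have h2 : x b ∉ M.closure (X ∪ x '' (B : Set ι)) := by
        intro hcl
        refine h b hbA (M.closure_subset_closure (union_subset_union_right _ (image_mono ?_)) hcl)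
        intro c hc
        exact ⟨hB (Finset.mem_insert_of_mem hc), fun e => hb (e ▸ hc)⟩
      rw [Finset.coe_insert, image_insert_eq, union_insert, rk_ins_not (hx b hbA) h2, h1,
        Finset.card_insert_of_notMem hb]
      omega
  exact key A (Finset.Subset.refl _)

end Gam
end DA
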