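import Pool.Agent.DA.Hub74
import Pool.Agent.DA.Gam74C2

/-!
# The picture of a hub, with joint bounds (row B4 of cell G, problem MP_5165fa_co)

`Hub.core`: the complete picture (`JGrid`) of a hub; the contracted set is nearly skew to `L`, and
the joints stay nearly independent over every part `Ω` of `L` over which the labels are private.
-/

open Set BIC BICS
open scoped Matroid

namespace DA

universe u v

variable {α ι : Type*} {M : Matroid α}

lemma rk_pts_le [M.Finite] (z : ι → ℕ → α) (Q : Finset (ι × ℕ)) : rk M (pts z Q) ≤ Q.card := by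
  have h := rk_add_le (M := M) ∅ (fun q : ι × ℕ => z q.1 q.2) Q
  have h2 : rk M (∅ : Set α) = 0 := by
    have := rk_le_ncard M (X := (∅ : Set α)) finite_empty
    simpa using this
  rw [empty_union, h2, zero_add] at h
  exact h

namespace Hub

variable [DecidableEq ι] {L : Set α} {τ : ι → ℕ → α} {Z V : Finset ι} {i₀ : ι} {B : Finset ℕ}

/-- **The picture of a hub.** -/
theorem core [M.Finite] (H : Hub M L τ Z V i₀ B) {t q : ℕ}
    {A' : Finset ι} (hA' : A' ⊆ V) (hA'c : A'.card = t * t) {B' : Finset ℕ} (hB' : B' ⊆ B)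
    (hB'c : t * t + (EdF t).card ≤ B'.card) {Q : Finset (ι × ℕ)} (hQc : Q.card ≤ q)
    (hQ : ∀ q ∈ Q, q.1 ∈ V ∧ q.2 ∈ B ∧ q.2 ∉ B')
    (h1 : ∀ a ∈ A', rk M (pts τ (Z ×ˢ B) ∪ pts τ Q ∪ τ a '' B') ≤
      rk M (pts τ (Z ×ˢ B) ∪ pts τ Q) + 1)
    (h2 : ∀ g : ι → ℕ, (∀ a ∈ A', g a ∈ B') →
      rk M (pts τ (Z ×ˢ B) ∪ pts τ Q ∪ (fun a => τ a (g a)) '' A') =
        rk M (pts τ (Z ×ˢ B) ∪ pts τ Q) + t * t) :
    ∃ X S : Set α, ∃ j : ℕ × ℕ → α, ∃ ed : ℕ × ℕ → ℕ × ℕ → α,
      X ⊆ pts τ ((Z ∪ V) ×ˢ B) ∧ S ⊆ pts τ (V ×ˢ B) ∧ Gad.JGrid (M ／ X) S t j ed ∧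
      S ⊆ M.closure (L ∪ X) ∧ rk M L + rk M X ≤ rk M (L ∪ X) + q ∧
      ∀ Ω ⊆ L, (∀ a ∈ V, ∀ b ∈ B, τ a b ∉
          M.closure (Ω ∪ pts τ (((Z ∪ V).erase a) ×ˢ B))) →
        rk M (Ω ∪ X) + t * t ≤ rk M (S ∪ (Ω ∪ X)) + q := by
  classical
  have hL := H.subL
  have hi₀ := H.mem₀
  -- labels and windows of the picture
  have hne : Nonempty (ClF t ≃ A') := by
    refine ⟨Finset.equivOfCardEq ?_⟩
    rw [hA'c]
    simp [ClF]
  obtain ⟨ea⟩ := hne
  set lab : ℕ × ℕ → ι := fun c => if h : c ∈ ClF t then (ea ⟨c, h⟩ : ι) else i₀ with hlab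
  have hlabA : ∀ c ∈ ClF t, lab c ∈ A' := by
    intro c hc
    simp only [hlab, dif_pos hc]
    exact (ea ⟨c, hc⟩).2
  have hlabinj : ∀ c ∈ ClF t, ∀ c' ∈ ClF t, lab c = lab c' → c = c' := by
    intro c hc c' hc' h
    simp only [hlab, dif_pos hc, dif_pos hc'] at h
    have := ea.injective (Subtype.ext h)
    simpa using this
  have hlabsurj : ∀ a ∈ A', ∃ c ∈ ClF t, lab c = a := by
    intro a ha
    obtain ⟨⟨c, hc⟩, h⟩ := ea.surjective ⟨a, ha⟩
    refine ⟨c, hc, ?_⟩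
    simp only [hlab, dif_pos hc, h]
  set TT : Finset ((ℕ × ℕ) ⊕ ((ℕ × ℕ) × (ℕ × ℕ))) := (ClF t).disjSum (EdF t) with hTT
  have hTTc : TT.card = t * t + (EdF t).card := by
    rw [hTT, Finset.card_disjSum]
    simp [ClF]
  obtain ⟨B'', hB'', hB''c⟩ := Finset.exists_subset_card_eq hB'c
  obtain ⟨ew⟩ : Nonempty (TT ≃ B'') := ⟨Finset.equivOfCardEq (by rw [hTTc, hB''c])⟩
  set win : (ℕ × ℕ) ⊕ ((ℕ × ℕ) × (ℕ × ℕ)) → ℕ := fun s =>
    if h : s ∈ TT then (ew ⟨s, h⟩ : ℕ) else 0 with hwin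
  have hwinB : ∀ s ∈ TT, win s ∈ B' := by
    intro s hs
    simp only [hwin, dif_pos hs]
    exact hB'' (ew ⟨s, hs⟩).2
  have hwininj : ∀ s ∈ TT, ∀ s' ∈ TT, win s = win s' → s = s' := by
    intro s hs s' hs' h
    simp only [hwin, dif_pos hs, dif_pos hs'] at h
    have := ew.injective (Subtype.ext h)
    simpa using this
  have hmemC : ∀ c, c ∈ ClF t → (Sum.inl c : (ℕ × ℕ) ⊕ ((ℕ × ℕ) × (ℕ × ℕ))) ∈ TT :=
    fun c hc => Finset.inl_mem_disjSum.2 hc
  have hmemE : ∀ p, p ∈ EdF t → (Sum.inr p : (ℕ × ℕ) ⊕ ((ℕ × ℕ) × (ℕ × ℕ))) ∈ TT :=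
    fun p hp => Finset.inr_mem_disjSum.2 hp
  set wv : ℕ × ℕ → ℕ := fun c => win (Sum.inl c) with hwv
  set we : (ℕ × ℕ) × (ℕ × ℕ) → ℕ := fun p => win (Sum.inr p) with hwe
  have hwvB : ∀ c ∈ ClF t, wv c ∈ B' := fun c hc => hwinB _ (hmemC c hc)
  have hweB : ∀ p ∈ EdF t, we p ∈ B' := fun p hp => hwinB _ (hmemE p hp)
  have hweinj : ∀ p ∈ EdF t, ∀ p' ∈ EdF t, we p = we p' → p = p' := by
    intro p hp p' hp' h
    exact Sum.inr.inj (hwininj _ (hmemE p hp) _ (hmemE p' hp') h)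
  have hvne : ∀ c ∈ ClF t, ∀ p ∈ EdF t, wv c ≠ we p := by
    intro c hc p hp h
    have := hwininj _ (hmemC c hc) _ (hmemE p hp) h
    exact absurd this (by simp)
  -- the windows of the edges
  obtain ⟨WE, hWE⟩ : ∃ WE : Finset ℕ, WE = (EdF t).image we := ⟨_, rfl⟩
  have hWEB' : WE ⊆ B' := by
    intro b hb
    rw [hWE] at hb
    obtain ⟨p, hp, rfl⟩ := Finset.mem_image.1 hb
    exact hweB p hp
  have hWEB : WE ⊆ B := hWEB'.trans hB'
  have hweW : ∀ p ∈ EdF t, we p ∈ WE := by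
    intro p hp
    rw [hWE]
    exact Finset.mem_image.2 ⟨p, hp, rfl⟩
  have hWEc : WE.card = (EdF t).card := by
    rw [hWE]
    exact Finset.card_image_of_injOn fun p hp p' hp' h => hweinj p hp p' hp' h
  obtain ⟨P, hP⟩ : ∃ P, P = PJ Z B i₀ WE := ⟨_, rfl⟩
  have hPsub : P ⊆ Z ×ˢ B := by
    rw [hP]
    exact PJ_sub _ _ _ _
  set X : Set α := pts τ P ∪ pts τ Q with hX
  set X₁ : Set α := pts τ (Z ×ˢ B) ∪ pts τ Q with hX₁
  set y : (ℕ × ℕ) × (ℕ × ℕ) → α := fun p => τ i₀ (we p) with hy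
  set x : (ℕ × ℕ) × (ℕ × ℕ) → α := fun p => τ (lab p.1) (we p) with hx
  set e : (ℕ × ℕ) × (ℕ × ℕ) → α := fun p => τ (lab p.2) (we p) with he
  set j : ℕ × ℕ → α := fun c => τ (lab c) (wv c) with hj
  have hEd : ∀ p ∈ EdF t, p.1 ∈ ClF t ∧ p.2 ∈ ClF t := fun p hp =>
    ⟨mem_ClF.2 (mem_EdF.1 hp).1.1, mem_ClF.2 (mem_EdF.1 hp).1.2.1⟩
  have hyim : y '' (EdF t : Set _) = (fun b => τ i₀ b) '' (WE : Set ℕ) := by
    rw [hWE, Finset.coe_image, ← image_comp]
    rfl
  have hXX₁ : X ∪ y '' (EdF t : Set _) = X₁ := by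
    rw [hyim, hX, hX₁, ← H.junction hWEB, hP, union_right_comm]
  have hXE : X ⊆ M.E := by
    rintro z (⟨q, hq, rfl⟩ | ⟨q, hq, rfl⟩)
    · obtain ⟨h3, h4⟩ := Finset.mem_product.1 (hPsub hq)
      exact H.memZ _ h3 _ h4
    · obtain ⟨h3, h4, _⟩ := hQ q hq
      exact H.memV _ h3 _ h4
  -- elements of windows outside `WE` lie in the span of `L` and `X`
  have hinP : ∀ b ∈ B, b ∉ WE → ∀ a ∈ V, τ a b ∈ M.closure (L ∪ pts τ P) := by
    intro b hb hbW a ha
    rw [hP]
    exact H.inP hb hbW ha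
  -- in the windows of `WE`
  have hinPy : ∀ p ∈ EdF t, ∀ a ∈ V,
      τ a (we p) ∈ M.closure (insert (y p) (L ∪ pts τ P)) := by
    intro p hp a ha
    rw [hP]
    exact H.inPy (hB' (hweB p hp)) ha
  -- the closure of `L ∪ X`
  have hLP : M.closure (L ∪ X) = M.closure (L ∪ pts τ P) := by
    apply subset_antisymm
    · refine M.closure_subset_closure_of_subset_closure ?_
      rintro z (hz | hz | ⟨q, hq, rfl⟩)
      · exact M.mem_closure_of_mem' (Or.inl hz) (hL hz)
      · exact M.mem_closure_of_mem' (Or.inr hz) (hXE (Or.inl hz))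
      · obtain ⟨h3, h4, h5⟩ := hQ q hq
        exact hinP _ h4 (fun h => h5 (hWEB' h)) _ h3
    · exact M.closure_subset_closure (union_subset_union_right _ subset_union_left)
  have hrLX : rk M (L ∪ X) = rk M (L ∪ pts τ P) := by
    rw [← rk_closure (M := M) (L ∪ X), hLP, rk_closure]
  -- ranks over `L`
  have hrP : rk M (L ∪ pts τ P) = rk M L + P.card := H.pairs hPsub
  have hyr : rk M (L ∪ X ∪ y '' (EdF t : Set _)) = rk M (L ∪ X) + (EdF t).card := by
    have h3 := H.yind hWEB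
    rw [← hP, ← hyim, hWEc] at h3
    have h4 := rk_skew_pts (M := M) (F := L ∪ pts τ P) (y := y) (E := EdF t) h3
      (Z := L ∪ X) (by
        rw [← hLP]
        exact M.subset_closure _ (union_subset hL hXE))
    exact h4
  -- the elements of `V` are outside the span of `L` and `X`
  have houtV : ∀ p ∈ EdF t, ∀ a ∈ V, τ a (we p) ∉ M.closure (L ∪ X) := by
    intro p hp a ha
    rw [hLP, hP]
    exact H.outV (hB' (hweB p hp)) (hweW p hp) ha
  -- nonloops modulo `X₁`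
  have hnl : ∀ a ∈ A', ∀ b ∈ B', τ a b ∉ M.closure X₁ := by
    intro a ha b hb hcon
    have h3 := h2 (fun _ => b) (fun _ _ => hb)
    rw [← hA'c] at h3
    have h4 := rk_sub_eq (M := M) (X := X₁) (p := fun a => τ a b) (Q := A') (Q' := {a}) h3
      (Finset.singleton_subset_iff.2 ha)
    rw [Finset.coe_singleton, image_singleton, union_singleton, rk_ins_mem hcon,
      Finset.card_singleton] at h4
    omega
  -- parallel modulo `X₁`
  have hpar : ∀ a ∈ A', ∀ b ∈ B', ∀ b' ∈ B', τ a b' ∈ M.closure (insert (τ a b) X₁) := by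
    intro a ha b hb b' hb'
    by_contra hcon
    have h3 := rk_ins_not (H.memV a (hA' ha) b (hB' hb)) (hnl a ha b hb)
    have h4 := rk_ins_not (H.memV a (hA' ha) b' (hB' hb')) hcon
    have h5 := rk_mono M (show insert (τ a b') (insert (τ a b) X₁) ⊆ X₁ ∪ τ a '' (B' : Set ℕ) from
      insert_subset (Or.inr ⟨b', hb', rfl⟩) (insert_subset (Or.inr ⟨b, hb, rfl⟩)
        subset_union_left))
    have h6 := h1 a ha
    omega
  have hjcl : ∀ c ∈ ClF t, j c ∈ M.closure (L ∪ X) := by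
    intro c hc
    rw [hLP]
    refine hinP _ (hB' (hwvB c hc)) ?_ _ (hA' (hlabA c hc))
    intro h
    rw [hWE] at h
    obtain ⟨p, hp, h3⟩ := Finset.mem_image.1 h
    exact hvne c hc p hp h3.symm
  -- independence of the joints
  have hjr₁ : rk M (X₁ ∪ j '' Gad.Cl t) = rk M X₁ + t * t := by
    have hg : ∃ g : ι → ℕ, ∀ c ∈ ClF t, g (lab c) = wv c := by
      refine ⟨fun a => if h : ∃ c ∈ ClF t, lab c = a then wv h.choose else 0, ?_⟩
      intro c hc
      have hex : ∃ c' ∈ ClF t, lab c' = lab c := ⟨c, hc, rfl⟩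
      simp only [dif_pos hex]
      rw [hlabinj _ hex.choose_spec.1 _ hc hex.choose_spec.2]
    obtain ⟨g, hg⟩ := hg
    have h3 := h2 g (by
      intro a ha
      obtain ⟨c, hc, rfl⟩ := hlabsurj a ha
      rw [hg c hc]
      exact hwvB c hc)
    have h4 : (fun a => τ a (g a)) '' (A' : Set ι) = j '' Gad.Cl t := by
      ext z
      constructor
      · rintro ⟨a, ha, rfl⟩
        obtain ⟨c, hc, rfl⟩ := hlabsurj a ha
        refine ⟨c, mem_ClF.1 hc, ?_⟩
        simp only [hj, hg c hc]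
      · rintro ⟨c, hc, rfl⟩
        have hc' := mem_ClF.2 hc
        refine ⟨lab c, hlabA c hc', ?_⟩
        simp only [hj, hg c hc']
    rw [h4] at h3
    exact h3
  have hCc : (Gad.Cl t).ncard = t * t := by
    rw [← coe_ClF, Set.ncard_coe_finset]
    simp [ClF]
  have hCf : (Gad.Cl t).Finite := by
    rw [← coe_ClF]
    exact (ClF t).finite_toSet
  have hXX₁' : X ⊆ X₁ := by
    rw [← hXX₁]
    exact subset_union_left
  have hjr : rk M (X ∪ j '' Gad.Cl t) = rk M X + t * t := by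
    apply le_antisymm
    · have h3 := rk_union_le M (X := X) (Y := j '' Gad.Cl t) (hCf.image j)
      have h4 := Set.ncard_image_le (f := j) hCf
      omega
    · have h3 : rk M X + rk M (X₁ ∪ j '' Gad.Cl t) ≤ rk M X₁ + rk M (X ∪ j '' Gad.Cl t) := by
        refine rk_sub' (subset_inter hXX₁' subset_union_left) ?_
        rintro z (hz | hz)
        · exact Or.inl hz
        · exact Or.inr (Or.inr hz)
      omega
  have hyE : ∀ p ∈ EdF t, y p ∈ M.E := fun p hp => H.memZ _ hi₀ _ (hB' (hweB p hp))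
  -- the main relations
  have hrel : ∀ p ∈ EdF t, ∀ c ∈ ClF t, τ (lab c) (we p) ∈
      M.closure (insert (j c) (insert (y p) X)) ∧ τ (lab c) (we p) ∉
      M.closure (insert (y p) X) := by
    intro p hp c hc
    have hins : insert (y p) X ⊆ X₁ := by
      rw [← hXX₁]
      exact insert_subset (Or.inr ⟨p, hp, rfl⟩) subset_union_left
    refine ⟨?_, fun h => hnl _ (hlabA c hc) _ (hweB p hp) (M.closure_subset_closure hins h)⟩
    have h3 := hpar _ (hlabA c hc) _ (hwvB c hc) _ (hweB p hp)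
    have hF : rk M (insert (y p) (L ∪ X) ∪ y '' ((EdF t).erase p : Set _)) =
        rk M (insert (y p) (L ∪ X)) + ((EdF t).erase p).card := by
      have e1 : insert (y p) (L ∪ X) ∪ y '' (((EdF t).erase p : Finset _) : Set _) =
          L ∪ X ∪ y '' (EdF t : Set _) := by
        ext z
        simp only [mem_union, mem_insert_iff, mem_image, Finset.mem_coe, Finset.mem_erase]
        constructor
        · rintro ((rfl | hz) | ⟨q, hq, rfl⟩)
          · exact Or.inr ⟨p, hp, rfl⟩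
          · exact Or.inl hz
          · exact Or.inr ⟨q, hq.2, rfl⟩
        · rintro (hz | ⟨q, hq, rfl⟩)
          · exact Or.inl (Or.inr hz)
          · by_cases hqp : q = p
            · exact Or.inl (Or.inl (by rw [hqp]))
            · exact Or.inr ⟨q, ⟨hqp, hq⟩, rfl⟩
      have e2 := rk_sub_eq (M := M) (X := L ∪ X) (p := y) (Q := EdF t) (Q' := {p}) hyr
        (Finset.singleton_subset_iff.2 hp)
      rw [Finset.coe_singleton, image_singleton, union_singleton, Finset.card_singleton] at e2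
      have e3 := Finset.card_erase_add_one hp
      rw [e1, hyr, e2]
      omega
    refine mem_drop (F := insert (y p) (L ∪ X)) (E := (EdF t).erase p) (y := y) hF ?_ ?_ ?_
    · refine insert_subset ?_ (insert_subset ?_ ?_)
      · exact M.closure_subset_closure (subset_insert _ _) (hjcl c hc)
      · exact M.mem_closure_of_mem' (mem_insert _ _) (hyE p hp)
      · exact fun z hz => M.mem_closure_of_mem' (Or.inr (Or.inr hz)) (hXE hz)
    · have h4 := hinPy p hp _ (hA' (hlabA c hc))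
      refine M.closure_subset_closure (insert_subset_insert ?_) h4
      exact union_subset_union_right _ subset_union_left
    · refine M.closure_subset_closure ?_ h3
      rw [← hXX₁]
      rintro z (rfl | hz | ⟨q, hq, rfl⟩)
      · exact Or.inl (Or.inl rfl)
      · exact Or.inl (Or.inr (Or.inr hz))
      · by_cases hqp : q = p
        · exact Or.inl (Or.inr (Or.inl (by rw [hqp])))
        · exact Or.inr ⟨q, Finset.mem_coe.2 (Finset.mem_erase.2 ⟨hqp, hq⟩), rfl⟩
  have hxL : ∀ p ∈ EdF t, x p ∈ M.closure (insert (y p) (L ∪ X)) ∧ x p ∉ M.closure (L ∪ X) := by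
    intro p hp
    refine ⟨?_, houtV p hp _ (hA' (hlabA _ (hEd p hp).1))⟩
    refine M.closure_subset_closure (insert_subset_insert ?_) (hinPy p hp _
      (hA' (hlabA _ (hEd p hp).1)))
    exact union_subset_union_right _ subset_union_left
  obtain ⟨ed, hed⟩ := jgrid_of_stars (L := L) hXE (fun c hc => hjcl c (mem_ClF.2 hc)) hjr hyr hxL
    (e := e) (fun p hp => houtV p hp _ (hA' (hlabA _ (hEd p hp).2)))
    (fun p hp => hrel p hp _ (hEd p hp).1) (fun p hp => hrel p hp _ (hEd p hp).2)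
  -- the `x p` are independent over `L ∪ X`
  have hxr : rk M (L ∪ X ∪ x '' (EdF t : Set _)) = rk M (L ∪ X) + (EdF t).card := by
    refine le_antisymm (rk_add_le _ _ _) ?_
    rw [← hyr]
    refine rk_le_cl ?_
    have hxE' : L ∪ X ∪ x '' (EdF t : Set _) ⊆ M.E := by
      refine union_subset (union_subset hL hXE) ?_
      rintro _ ⟨p, hp, rfl⟩
      exact M.closure_subset_ground _ (hxL p hp).1
    rintro z (hz | ⟨p, hp, rfl⟩)
    · exact M.mem_closure_of_mem' (Or.inl hz) (union_subset hL hXE hz)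
    · have h3 := hexch (hxL p hp).1 (hxL p hp).2
      refine M.closure_subset_closure ?_ h3
      exact insert_subset (Or.inr ⟨p, hp, rfl⟩) subset_union_left
  refine ⟨X ∪ x '' (EdF t : Set _), j '' Gad.Cl t ∪ e '' (EdF t : Set _), j, ed, ?_, ?_, hed, ?_,
    ?_, ?_⟩
  · rintro z ((⟨q, hq, rfl⟩ | ⟨q, hq, rfl⟩) | ⟨p, hp, rfl⟩)
    · obtain ⟨h3, h4⟩ := Finset.mem_product.1 (hPsub hq)
      exact ⟨q, Finset.mem_coe.2 (Finset.mem_product.2 ⟨Finset.mem_union_left _ h3, h4⟩), rfl⟩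
    · obtain ⟨h3, h4, _⟩ := hQ q hq
      exact ⟨q, Finset.mem_coe.2 (Finset.mem_product.2 ⟨Finset.mem_union_right _ h3, h4⟩), rfl⟩
    · exact ⟨(lab p.1, we p), Finset.mem_coe.2 (Finset.mem_product.2
        ⟨Finset.mem_union_right _ (hA' (hlabA _ (hEd p hp).1)), hB' (hweB p hp)⟩), rfl⟩
  · rintro z (⟨c, hc, rfl⟩ | ⟨p, hp, rfl⟩)
    · have hc' := mem_ClF.2 hc
      exact ⟨(lab c, wv c), Finset.mem_coe.2 (Finset.mem_product.2
        ⟨hA' (hlabA _ hc'), hB' (hwvB c hc')⟩), rfl⟩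
    · exact ⟨(lab p.2, we p), Finset.mem_coe.2 (Finset.mem_product.2
        ⟨hA' (hlabA _ (hEd p hp).2), hB' (hweB p hp)⟩), rfl⟩
  · have hLX : M.closure (L ∪ X) ⊆ M.closure (L ∪ (X ∪ x '' (EdF t : Set _))) :=
      M.closure_subset_closure (union_subset_union_right _ subset_union_left)
    rintro z (⟨c, hc, rfl⟩ | ⟨p, hp, rfl⟩)
    · exact hLX (hjcl c (mem_ClF.2 hc))
    · have h3 := hexch (hxL p hp).1 (hxL p hp).2
      have h4 : y p ∈ M.closure (L ∪ (X ∪ x '' (EdF t : Set _))) := by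
        refine M.closure_subset_closure ?_ h3
        refine insert_subset (Or.inr (Or.inr ⟨p, hp, rfl⟩)) ?_
        exact union_subset_union_right _ subset_union_left
      have h5 := hinPy p hp _ (hA' (hlabA _ (hEd p hp).2))
      refine M.closure_subset_closure_of_subset_closure ?_ h5
      refine insert_subset h4 ?_
      rintro w (hw | hw)
      · exact M.mem_closure_of_mem' (Or.inl hw) (hL hw)
      · exact M.mem_closure_of_mem' (Or.inr (Or.inl (Or.inl hw))) (hXE (Or.inl hw))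
  · -- nearly skew to `L`
    have h3 : rk M (X ∪ x '' (EdF t : Set _)) ≤ P.card + Q.card + (EdF t).card := by
      have e1 := rk_add_le (M := M) X x (EdF t)
      have e2 := rk_pts_le (M := M) τ P
      have e3 := rk_pts_le (M := M) τ Q
      have e4 := rk_submod M (pts τ P) (pts τ Q)
      rw [← hX] at e4
      omega
    rw [← union_assoc, hxr, hrLX, hrP]
    omega
  · -- the joints over a part of `L`
    intro Ω hΩL hΩ
    obtain ⟨T₀, hT₀⟩ : ∃ T₀ : Finset (ℕ × ℕ),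
      T₀ = (ClF t).filter (fun c => lab c ∉ Q.image Prod.fst) := ⟨_, rfl⟩
    have hT₀C : ∀ c ∈ T₀, c ∈ ClF t ∧ lab c ∉ Q.image Prod.fst := by
      intro c hc
      rw [hT₀] at hc
      exact Finset.mem_filter.1 hc
    have hT₀c : t * t ≤ T₀.card + Q.card := by
      have e1 := Finset.card_filter_add_card_filter_not (s := ClF t)
        (fun c => lab c ∉ Q.image Prod.fst)
      have e2 : ((ClF t).filter (fun c => ¬ (lab c ∉ Q.image Prod.fst))).card ≤
          (Q.image Prod.fst).card := by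
        refine Finset.card_le_card_of_injOn lab ?_ ?_
        · intro c hc
          have := (Finset.mem_filter.1 (Finset.mem_coe.1 hc)).2
          exact Finset.mem_coe.2 (not_not.1 this)
        · intro c hc c' hc' h
          exact hlabinj c (Finset.mem_filter.1 (Finset.mem_coe.1 hc)).1 c'
            (Finset.mem_filter.1 (Finset.mem_coe.1 hc')).1 h
      have e3 : (Q.image Prod.fst).card ≤ Q.card := Finset.card_image_le
      have e4 : (ClF t).card = t * t := by simp [ClF]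
      rw [← hT₀] at e1
      omega
    have hΩE : Ω ⊆ M.E := hΩL.trans hL
    have hind : rk M ((Ω ∪ X) ∪ j '' (T₀ : Set _)) = rk M (Ω ∪ X) + T₀.card := by
      refine Gam.rk_of_out T₀ (fun c hc => ?_) (fun c hc hcon => ?_)
      · exact H.memV _ (hA' (hlabA c (hT₀C c hc).1)) _ (hB' (hwvB c (hT₀C c hc).1))
      · obtain ⟨hc1, hc2⟩ := hT₀C c hc
        have hcV := hA' (hlabA c hc1)
        refine hΩ (lab c) hcV (wv c) (hB' (hwvB c hc1)) (M.closure_subset_closure ?_ hcon)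
        have hpr : ∀ a ∈ Z ∪ V, a ≠ lab c → ∀ b ∈ B,
            τ a b ∈ pts τ (((Z ∪ V).erase (lab c)) ×ˢ B) := fun a ha hne b hb =>
          ⟨(a, b), Finset.mem_coe.2 (Finset.mem_product.2
            ⟨Finset.mem_erase.2 ⟨hne, ha⟩, hb⟩), rfl⟩
        rintro z ((hz | ⟨q, hq, rfl⟩ | ⟨q, hq, rfl⟩) | ⟨c', ⟨hc', hne⟩, rfl⟩)
        · exact Or.inl hz
        · obtain ⟨h3, h4⟩ := Finset.mem_product.1 (hPsub (Finset.mem_coe.1 hq))
          exact Or.inr (hpr _ (Finset.mem_union_left _ h3)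
            (fun h => Finset.disjoint_left.1 H.disj hcV (h ▸ h3)) _ h4)
        · obtain ⟨h3, h4, _⟩ := hQ q (Finset.mem_coe.1 hq)
          refine Or.inr (hpr _ (Finset.mem_union_right _ h3) (fun h => hc2 ?_) _ h4)
          exact Finset.mem_image.2 ⟨q, Finset.mem_coe.1 hq, h⟩
        · have hc'1 := (hT₀C c' hc').1
          exact Or.inr (hpr _ (Finset.mem_union_right _ (hA' (hlabA c' hc'1)))
            (fun h => hne (hlabinj c' hc'1 c hc1 h)) _ (hB' (hwvB c' hc'1)))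
    have hΩX : Ω ∪ X ⊆ M.closure (L ∪ X) :=
      (union_subset_union_left _ hΩL).trans (M.subset_closure _ (union_subset hL hXE))
    have e1 := rk_skew_pts hxr hΩX
    have e2 := rk_skew_pts hxr (Z := (Ω ∪ X) ∪ j '' (T₀ : Set _)) (union_subset hΩX (by
      rintro _ ⟨c, hc, rfl⟩
      exact hjcl c (hT₀C c (Finset.mem_coe.1 hc)).1))
    have e3 : rk M ((Ω ∪ X) ∪ j '' (T₀ : Set _) ∪ x '' (EdF t : Set _)) ≤
        rk M (j '' Gad.Cl t ∪ e '' (EdF t : Set _) ∪ (Ω ∪ (X ∪ x '' (EdF t : Set _)))) := by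
      refine rk_mono M ?_
      rintro z (((hz | hz) | ⟨c, hc, rfl⟩) | hz)
      · exact Or.inr (Or.inl hz)
      · exact Or.inr (Or.inr (Or.inl hz))
      · exact Or.inl (Or.inl ⟨c, mem_ClF.1 (hT₀C c (Finset.mem_coe.1 hc)).1, rfl⟩)
      · exact Or.inr (Or.inr (Or.inr hz))
    have e4 : Ω ∪ (X ∪ x '' (EdF t : Set _)) = Ω ∪ X ∪ x '' (EdF t : Set _) :=
      (union_assoc _ _ _).symm
    rw [e4] at e3 ⊢
    omega

end Hub

end DA
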