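import Pool.Agent.DA.RWal
import Pool.Agent.DA.ArbQ
import Pool.Agent.DA.WQA

/-!
# Row CROSS, geometry (part 1): collapsing columns and rows
-/

open Set BIC BICS
open scoped Matroid

namespace DA

open Gad

universe u

/-! ### the collapsing map of a line -/

/-- the number of points below `x` outside of `U` -/
def gc (U : Finset ℕ) (x : ℕ) : ℕ := (Finset.range x \ U).card

section gc

variable {U : Finset ℕ} {x y n c : ℕ}

lemma gc_zero : gc U 0 = 0 := by simp [gc]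

lemma gc_in (h : x ∈ U) : gc U (x + 1) = gc U x := by
  unfold gc
  congr 1
  ext t
  simp only [Finset.mem_sdiff, Finset.mem_range]
  constructor
  · rintro ⟨h1, h2⟩
    refine ⟨?_, h2⟩
    rcases Nat.lt_or_ge t x with h3 | h3
    · exact h3
    · exact absurd (by rw [show t = x by omega]; exact h) h2
  · rintro ⟨h1, h2⟩
    exact ⟨by omega, h2⟩

lemma gc_out (h : x ∉ U) : gc U (x + 1) = gc U x + 1 := by
  unfold gc
  rw [Finset.range_add_one, Finset.insert_sdiff_of_notMem _ h, Finset.card_insert_of_notMem]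
  simp

lemma gc_add : gc U x + (Finset.range x ∩ U).card = x := by
  unfold gc
  rw [Finset.card_sdiff_add_card_inter, Finset.card_range]

lemma gc_mono (h : x ≤ y) : gc U x ≤ gc U y :=
  Finset.card_le_card (Finset.sdiff_subset_sdiff (Finset.range_subset_range.2 h) (le_refl _))

lemma gc_step : gc U (x + 1) ≤ gc U x + 1 := by
  by_cases h : x ∈ U
  · rw [gc_in h]; omega
  · rw [gc_out h]

lemma gc_lip (h : x ≤ y) : gc U y + x ≤ gc U x + y := by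
  induction y, h using Nat.le_induction with
  | base => exact le_refl _
  | succ y _ ih =>
    have := gc_step (U := U) (x := y)
    omega

lemma gc_ge : y + gc U x ≤ x + gc U y + U.card := by
  have h1 := gc_add (U := U) (x := x)
  have h2 := gc_add (U := U) (x := y)
  have h3 : (Finset.range y ∩ U).card ≤ U.card := Finset.card_le_card Finset.inter_subset_right
  omega

lemma gc_le : gc U x ≤ x := by
  have := gc_add (U := U) (x := x)
  omega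

/-- constant on a run -/
lemma gc_run (h : x ≤ y) (hU : ∀ t, x ≤ t → t < y → t ∈ U) : gc U y = gc U x := by
  induction y, h using Nat.le_induction with
  | base => rfl
  | succ y hy ih =>
    rw [gc_in (hU y hy (by omega))]
    exact ih fun t h1 h2 => hU t h1 (by omega)

/-- below the top of a fibre everything is in `U` -/
lemma gc_mem (h : gc U x = gc U y) (hxy : x < y) : x ∈ U := by
  by_contra hx
  have h1 := gc_out hx
  have h2 : gc U (x + 1) ≤ gc U y := gc_mono hxy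
  omega

/-- the top of a fibre -/
lemma gc_top (hn : n ∉ U) (hc : c ≤ gc U n) :
    ∃ t ≤ n, gc U t = c ∧ t ∉ U ∧ ∀ x ≤ n, gc U x = c → x ≤ t := by
  classical
  have hex : ∃ x ≤ n, gc U x = c := by
    clear hn
    induction n with
    | zero =>
      rw [gc_zero] at hc
      exact ⟨0, le_refl _, by rw [gc_zero]; omega⟩
    | succ n ih =>
      by_cases h1 : c ≤ gc U n
      · obtain ⟨x, h2, h3⟩ := ih h1
        exact ⟨x, by omega, h3⟩
      · have := gc_step (U := U) (x := n)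
        exact ⟨n + 1, le_refl _, by omega⟩
  obtain ⟨x₀, hx₀, hx₀c⟩ := hex
  have h1 := Nat.findGreatest_spec (P := fun x => gc U x = c) hx₀ hx₀c
  have h2 := Nat.findGreatest_le (P := fun x => gc U x = c) n
  have h3 : ∀ x ≤ n, gc U x = c → x ≤ Nat.findGreatest (fun x => gc U x = c) n :=
    fun x hx hxc => Nat.le_findGreatest hx hxc
  refine ⟨_, h2, h1, ?_, h3⟩
  obtain ⟨t, ht⟩ : ∃ t, t = Nat.findGreatest (fun x => gc U x = c) n := ⟨_, rfl⟩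
  rw [← ht] at h1 h2 h3 ⊢
  rcases h2.lt_or_eq with h4 | h4
  · intro h5
    have := h3 (t + 1) (by omega) (by rw [gc_in h5, h1])
    omega
  · rw [h4]
    exact hn

/-- isolated points -/
lemma gc_iso (hx : x ∉ U) (hx' : ∀ t, t + 1 = x → t ∉ U) (h : gc U y = gc U x) : y = x := by
  rcases lt_trichotomy y x with h1 | h1 | h1
  · obtain ⟨t, rfl⟩ : ∃ t, x = t + 1 := ⟨x - 1, by omega⟩
    have h2 := gc_out (hx' t rfl)
    have h3 : gc U y ≤ gc U t := gc_mono (by omega)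
    omega
  · exact h1
  · exact absurd (gc_mem h.symm h1) hx

end gc

/-! ### the collapsed wall -/

/-- the column of a vertex; the leftover column belongs to the last pair -/
def Xc (i A₀ : ℕ) (v : ℕ × ℕ) : ℕ := min ((v.1 - i) / 2) (A₀ - 1)

/-- the class of a vertex -/
def GX (i A₀ : ℕ) (U₁ U₂ : Finset ℕ) (v : ℕ × ℕ) : ℕ × ℕ := (gc U₁ (Xc i A₀ v), gc U₂ v.2)

/-- the holes: the window parts of the blocks of `H` -/
def WX (i A₀ : ℕ) (U₁ U₂ : Finset ℕ) (H : Set (ℕ × ℕ)) : Set (ℕ × ℕ) :=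
  {v | Xc i A₀ v ∈ U₁ ∧ v.2 ∈ U₂ ∧ GX i A₀ U₁ U₂ v ∈ H}

/-- the vertices outside of the holes -/
def AX (w i A₀ : ℕ) (U₁ U₂ : Finset ℕ) (H : Set (ℕ × ℕ)) : Set (ℕ × ℕ) :=
  rect 0 0 (w + 1) (w + 1) \ WX i A₀ U₁ U₂ H

/-- the data -/
structure CrD (w i A₀ : ℕ) (U₁ U₂ : Finset ℕ) : Prop where
  hi : i ≤ 1
  hA : A₀ = (w + 1 - i) / 2
  big : 30 ≤ w
  u₁ : ∀ x ∈ U₁, x + 3 ≤ A₀
  u₂ : ∀ y ∈ U₂, y + 3 ≤ w

section

variable {w i A₀ : ℕ} {U₁ U₂ : Finset ℕ} {H : Set (ℕ × ℕ)}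

lemma mem_AX {v : ℕ × ℕ} : v ∈ AX w i A₀ U₁ U₂ H ↔ (v.1 ≤ w ∧ v.2 ≤ w) ∧
    ¬ (Xc i A₀ v ∈ U₁ ∧ v.2 ∈ U₂ ∧ GX i A₀ U₁ U₂ v ∈ H) := by
  unfold AX WX
  rw [mem_sdiff, Gad.mem_rct, mem_ofPred_eq]
  constructor
  · rintro ⟨h1, h2⟩
    exact ⟨by omega, h2⟩
  · rintro ⟨h1, h2⟩
    exact ⟨by omega, h2⟩

/-- the classes are connected -/
theorem CrD.conn (hD : CrD w i A₀ U₁ U₂) {α : Type*} {S : Set α} {ends : α → Sym2 (ℕ × ℕ)}
    (hS : ∀ p q, wadj p q → p ∈ AX w i A₀ U₁ U₂ H → q ∈ AX w i A₀ U₁ U₂ H →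
      ∃ e ∈ S, ends e = s(p, q)) (c : ℕ × ℕ) :
    VConn S ends (cls (AX w i A₀ U₁ U₂ H) (GX i A₀ U₁ U₂) c) := by
  obtain ⟨hi, hA, hbig, u1, u2⟩ := hD
  obtain ⟨c1, c2⟩ := c
  set C := cls (AX w i A₀ U₁ U₂ H) (GX i A₀ U₁ U₂) (c1, c2) with hC
  rcases C.eq_empty_or_nonempty with h0 | ⟨v₀, hv₀⟩
  · rw [h0]
    exact fun a ha => absurd ha (notMem_empty a)
  have hn1 : A₀ - 1 ∉ U₁ := fun h => by have := u1 _ h; omega
  have hn2 : w ∉ U₂ := fun h => by have := u2 _ h; omega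
  have hmem : ∀ x y : ℕ, (x, y) ∈ C ↔ (x ≤ w ∧ y ≤ w) ∧ gc U₁ (Xc i A₀ (x, y)) = c1 ∧
      gc U₂ y = c2 ∧ ¬ (Xc i A₀ (x, y) ∈ U₁ ∧ y ∈ U₂ ∧ (c1, c2) ∈ H) := by
    intro x y
    rw [hC]
    unfold cls
    rw [mem_ofPred_eq, mem_AX]
    unfold GX
    rw [Prod.mk.injEq]
    simp only
    constructor
    · rintro ⟨⟨h1, h2⟩, h3, h4⟩
      rw [h3, h4] at h2
      exact ⟨h1, h3, h4, h2⟩
    · rintro ⟨h1, h3, h4, h2⟩
      refine ⟨⟨h1, ?_⟩, h3, h4⟩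
      rw [h3, h4]
      exact h2
  obtain ⟨x₀, y₀⟩ := v₀
  obtain ⟨⟨a1, a2⟩, a3, a4, -⟩ := (hmem x₀ y₀).1 hv₀
  have hXle : ∀ v, Xc i A₀ v ≤ A₀ - 1 := fun v => min_le_right _ _
  obtain ⟨t1, ht1, ht1c, ht1U, ht1m⟩ := gc_top (c := c1) hn1 (by rw [← a3]; exact gc_mono (hXle _))
  obtain ⟨t2, ht2, ht2c, ht2U, ht2m⟩ := gc_top (c := c2) hn2 (by rw [← a4]; exact gc_mono a2)
  have hXt : ∀ x y : ℕ, x = 2 * t1 + i ∨ x = 2 * t1 + i + 1 → Xc i A₀ (x, y) = t1 := by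
    intro x y h
    unfold Xc
    simp only
    omega
  set R := fun a b : ℕ × ℕ => GAdj S ends a b ∧ a ∈ C ∧ b ∈ C with hR
  have hsym : ∀ a b, R a b → R b a := fun a b h => ⟨h.1.symm, h.2.2, h.2.1⟩
  have hsyms : ∀ a b, Relation.ReflTransGen R a b → Relation.ReflTransGen R b a := by
    intro a b h
    induction h with
    | refl => exact Relation.ReflTransGen.refl
    | tail _ h2 ih => exact Relation.ReflTransGen.head (hsym _ _ h2) ih
  have hstep : ∀ p q, wadj p q → p ∈ C → q ∈ C → R p q := by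
    intro p q hpq hp hq
    obtain ⟨e, he, hee⟩ := hS p q hpq hp.1 hq.1
    exact ⟨⟨e, he, hee⟩, hp, hq⟩
  -- horizontal walks
  have hhor : ∀ y x x', x ≤ x' → (∀ z, x ≤ z → z ≤ x' → (z, y) ∈ C) →
      Relation.ReflTransGen R (x, y) (x', y) := by
    intro y x x' hxx
    induction x', hxx using Nat.le_induction with
    | base => exact fun _ => Relation.ReflTransGen.refl
    | succ x' h1 ih =>
      intro h2
      refine (ih fun z h3 h4 => h2 z h3 (by omega)).tail ?_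
      exact hstep _ _ (Or.inl ⟨rfl, Or.inl rfl⟩) (h2 x' h1 (by omega)) (h2 (x' + 1) (by omega) le_rfl)
  -- the column of the top
  have hcol : ∀ x y, (x = 2 * t1 + i ∨ x = 2 * t1 + i + 1) → y ≤ w → gc U₂ y = c2 →
      (x, y) ∈ C := by
    intro x y hx hy hyc
    rw [hmem, hXt x y hx]
    exact ⟨⟨by omega, hy⟩, ht1c, hyc, fun h => ht1U h.1⟩
  have hver : ∀ k y, y + k = t2 → gc U₂ y = c2 →
      Relation.ReflTransGen R (2 * t1 + i, y) (2 * t1 + i, t2) := by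
    intro k
    induction k with
    | zero =>
      intro y hy _
      rw [show y = t2 by omega]
    | succ k ih =>
      intro y hy hyc
      have hy1 : gc U₂ (y + 1) = c2 := by
        have h1 : gc U₂ (y + 1) ≤ gc U₂ t2 := gc_mono (by omega)
        have h2 : gc U₂ y ≤ gc U₂ (y + 1) := gc_mono (by omega)
        omega
      refine Relation.ReflTransGen.trans ?_ (ih (y + 1) (by omega) hy1)
      rcases Nat.mod_two_eq_zero_or_one (2 * t1 + i + y) with h | h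
      · exact Relation.ReflTransGen.single (hstep _ _ (Or.inr ⟨rfl, Or.inl ⟨rfl, h⟩⟩)
          (hcol _ _ (Or.inl rfl) (by omega) hyc) (hcol _ _ (Or.inl rfl) (by omega) hy1))
      · have s1 : R (2 * t1 + i, y) (2 * t1 + i + 1, y) := hstep _ _ (Or.inl ⟨rfl, Or.inl rfl⟩)
          (hcol _ _ (Or.inl rfl) (by omega) hyc) (hcol _ _ (Or.inr rfl) (by omega) hyc)
        have s2 : R (2 * t1 + i + 1, y) (2 * t1 + i + 1, y + 1) :=
          hstep _ _ (Or.inr ⟨rfl, Or.inl ⟨rfl, by simp only; omega⟩⟩)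
            (hcol _ _ (Or.inr rfl) (by omega) hyc) (hcol _ _ (Or.inr rfl) (by omega) hy1)
        have s3 : R (2 * t1 + i + 1, y + 1) (2 * t1 + i, y + 1) :=
          hstep _ _ (Or.inl ⟨rfl, Or.inr rfl⟩)
            (hcol _ _ (Or.inr rfl) (by omega) hy1) (hcol _ _ (Or.inl rfl) (by omega) hy1)
        exact ((Relation.ReflTransGen.single s1).tail s2).tail s3
  have hroot : ∀ v ∈ C, Relation.ReflTransGen R v (2 * t1 + i, t2) := by
    rintro ⟨x, y⟩ hv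
    obtain ⟨⟨b1, b2⟩, b3, b4, b5⟩ := (hmem x y).1 hv
    have hXx : Xc i A₀ (x, y) ≤ t1 := ht1m _ (hXle _) b3
    have hy2 : y ≤ t2 := ht2m _ b2 b4
    refine Relation.ReflTransGen.trans ?_ (hver (t2 - y) y (by omega) b4)
    -- all vertices between
    have hbet : ∀ z, Xc i A₀ (x, y) ≤ Xc i A₀ (z, y) → Xc i A₀ (z, y) ≤ t1 → z ≤ w →
        (z, y) ∈ C := by
      intro z h1 h2 h3
      rw [hmem]
      have h4 : gc U₁ (Xc i A₀ (z, y)) = c1 := by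
        have h5 : gc U₁ (Xc i A₀ (x, y)) ≤ gc U₁ (Xc i A₀ (z, y)) := gc_mono h1
        have h6 : gc U₁ (Xc i A₀ (z, y)) ≤ gc U₁ t1 := gc_mono h2
        omega
      refine ⟨⟨h3, b2⟩, h4, b4, ?_⟩
      rintro ⟨h5, h6, h7⟩
      have h8 : Xc i A₀ (x, y) ∈ U₁ := by
        rcases h1.lt_or_eq with h8 | h8
        · exact gc_mem (b3.trans h4.symm) h8
        · rw [h8]; exact h5
      exact b5 ⟨h8, h6, h7⟩
    have hXmono : ∀ z z', z ≤ z' → Xc i A₀ (z, y) ≤ Xc i A₀ (z', y) := by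
      intro z z' h
      unfold Xc
      simp only
      omega
    have hXr : Xc i A₀ (2 * t1 + i, y) = t1 := hXt _ _ (Or.inl rfl)
    rcases Nat.le_total x (2 * t1 + i) with h1 | h1
    · refine hhor y x _ h1 fun z h2 h3 => hbet z (hXmono _ _ h2) ?_ (by omega)
      rw [← hXr]
      exact hXmono _ _ h3
    · refine hsyms _ _ (hhor y _ x h1 fun z h2 h3 => ?_)
      have h4 : Xc i A₀ (x, y) = t1 := by
        have := hXmono _ _ h1
        omega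
      have h5 := hXmono _ _ h2
      have h6 := hXmono _ _ h3
      exact hbet z (by omega) (by omega) (by omega)
  intro a ha b hb
  exact (hroot a ha).trans (hsyms _ _ (hroot b hb))

/-- the classes lie in the rectangle -/
lemma CrD.mem_rect {v : ℕ × ℕ} (hv : v.2 ≤ w) : GX i A₀ U₁ U₂ v ∈
    rect 0 0 (gc U₁ (A₀ - 1) + 1) (gc U₂ w + 1) := by
  rw [Gad.mem_rct]
  unfold GX
  simp only
  have h1 : gc U₁ (Xc i A₀ v) ≤ gc U₁ (A₀ - 1) := gc_mono (min_le_right _ _)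
  have h2 : gc U₂ v.2 ≤ gc U₂ w := gc_mono hv
  omega

/-- adjacent classes are joined -/
theorem CrD.edge (hD : CrD w i A₀ U₁ U₂) {c c' : ℕ × ℕ} (hcc : adj c c')
    (hc : c ∈ rect 0 0 (gc U₁ (A₀ - 1) + 1) (gc U₂ w + 1))
    (hc' : c' ∈ rect 0 0 (gc U₁ (A₀ - 1) + 1) (gc U₂ w + 1)) :
    ∃ p q, wadj p q ∧ p ∈ AX w i A₀ U₁ U₂ H ∧ q ∈ AX w i A₀ U₁ U₂ H ∧
      GX i A₀ U₁ U₂ p = c ∧ GX i A₀ U₁ U₂ q = c' := by
  obtain ⟨hi, hA, hbig, u1, u2⟩ := hD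
  rw [Gad.mem_rct] at hc hc'
  have hn1 : A₀ - 1 ∉ U₁ := fun h => by have := u1 _ h; omega
  have hn2 : w ∉ U₂ := fun h => by have := u2 _ h; omega
  have hXt : ∀ t x y : ℕ, t ≤ A₀ - 1 → x = 2 * t + i ∨ x = 2 * t + i + 1 →
      Xc i A₀ (x, y) = t := by
    intro t x y ht h
    unfold Xc
    simp only
    omega
  -- one step in the first coordinate
  have hor : ∀ d e, d + 1 < gc U₁ (A₀ - 1) + 1 → e < gc U₂ w + 1 →
      ∃ p q, wadj p q ∧ p ∈ AX w i A₀ U₁ U₂ H ∧ q ∈ AX w i A₀ U₁ U₂ H ∧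
        GX i A₀ U₁ U₂ p = (d, e) ∧ GX i A₀ U₁ U₂ q = (d + 1, e) := by
    intro d e hd he
    obtain ⟨t1, h1, h2, h3, h4⟩ := gc_top (c := d) hn1 (by omega)
    obtain ⟨t2, k1, k2, k3, k4⟩ := gc_top (c := e) hn2 (by omega)
    have h5 : t1 + 1 ≤ A₀ - 1 := by
      by_contra h6
      have : t1 = A₀ - 1 := by omega
      rw [← this, h2] at hd
      omega
    have g1 : Xc i A₀ (2 * t1 + i + 1, t2) = t1 := hXt _ _ _ h1 (Or.inr rfl)
    have g2 : Xc i A₀ (2 * t1 + i + 1 + 1, t2) = t1 + 1 := hXt _ _ _ h5 (Or.inl (by omega))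
    refine ⟨(2 * t1 + i + 1, t2), (2 * t1 + i + 1 + 1, t2), Or.inl ⟨rfl, Or.inl rfl⟩, ?_, ?_, ?_, ?_⟩
    · rw [mem_AX]
      exact ⟨⟨by simp only; omega, k1⟩, fun h => k3 h.2.1⟩
    · rw [mem_AX]
      exact ⟨⟨by simp only; omega, k1⟩, fun h => k3 h.2.1⟩
    · unfold GX
      rw [g1, h2]
      simp only [k2]
    · unfold GX
      rw [g2, gc_out h3, h2]
      simp only [k2]
  -- one step in the second coordinate
  have ver : ∀ d e, d < gc U₁ (A₀ - 1) + 1 → e + 1 < gc U₂ w + 1 →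
      ∃ p q, wadj p q ∧ p ∈ AX w i A₀ U₁ U₂ H ∧ q ∈ AX w i A₀ U₁ U₂ H ∧
        GX i A₀ U₁ U₂ p = (d, e) ∧ GX i A₀ U₁ U₂ q = (d, e + 1) := by
    intro d e hd he
    obtain ⟨t1, h1, h2, h3, h4⟩ := gc_top (c := d) hn1 (by omega)
    obtain ⟨t2, k1, k2, k3, k4⟩ := gc_top (c := e) hn2 (by omega)
    have k5 : t2 + 1 ≤ w := by
      by_contra h6
      have : t2 = w := by omega
      rw [← this, k2] at he
      omega
    obtain ⟨x, hx, hpar⟩ : ∃ x, (x = 2 * t1 + i ∨ x = 2 * t1 + i + 1) ∧ (x + t2) % 2 = 0 := by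
      rcases Nat.mod_two_eq_zero_or_one (2 * t1 + i + t2) with h | h
      · exact ⟨_, Or.inl rfl, h⟩
      · exact ⟨_, Or.inr rfl, by omega⟩
    have g1 : Xc i A₀ (x, t2) = t1 := hXt _ _ _ h1 hx
    have g2 : Xc i A₀ (x, t2 + 1) = t1 := hXt _ _ _ h1 hx
    refine ⟨(x, t2), (x, t2 + 1), Or.inr ⟨rfl, Or.inl ⟨rfl, hpar⟩⟩, ?_, ?_, ?_, ?_⟩
    · rw [mem_AX, g1]
      exact ⟨⟨by simp only; omega, k1⟩, fun h => h3 h.1⟩
    · rw [mem_AX, g2]
      exact ⟨⟨by simp only; omega, k5⟩, fun h => h3 h.1⟩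
    · unfold GX
      rw [g1, h2]
      simp only [k2]
    · unfold GX
      rw [g2, h2]
      simp only [gc_out k3, k2]
  have wsym : ∀ p q, wadj p q → wadj q p := by
    intro p q h
    unfold wadj at h ⊢
    omega
  obtain ⟨c1, c2⟩ := c
  obtain ⟨c1', c2'⟩ := c'
  simp only at hc hc'
  unfold adj at hcc
  simp only at hcc
  rcases hcc with ⟨h1, h2 | h2⟩ | ⟨h1, h2 | h2⟩
  · subst h1 h2
    exact ver c1 c2 (by omega) (by omega)
  · subst h1 h2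
    obtain ⟨p, q, g1, g2, g3, g4, g5⟩ := ver c1 c2' (by omega) (by omega)
    exact ⟨q, p, wsym _ _ g1, g3, g2, g5, g4⟩
  · subst h1 h2
    exact hor c1 c2 (by omega) (by omega)
  · subst h1 h2
    obtain ⟨p, q, g1, g2, g3, g4, g5⟩ := hor c1' c2 (by omega) (by omega)
    exact ⟨q, p, wsym _ _ g1, g3, g2, g5, g4⟩

/-- a vertex far from the collapsed columns and rows -/
def RegC (w i : ℕ) (U₁ U₂ : Finset ℕ) (v : ℕ × ℕ) : Prop :=
  (4 ≤ v.1 ∧ v.1 + 4 ≤ w + 1 ∧ 4 ≤ v.2 ∧ v.2 + 4 ≤ w + 1) ∧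
    (∀ t ∈ U₁, t + 1 < (v.1 - i) / 2 ∨ (v.1 - i) / 2 + 1 < t) ∧
    ∀ t ∈ U₂, t + 1 < v.2 ∨ v.2 + 1 < t

/-- the class of a regular vertex -/
lemma CrD.reg (hD : CrD w i A₀ U₁ U₂) {v : ℕ × ℕ} (hv : RegC w i U₁ U₂ v) (p : ℕ × ℕ) :
    GX i A₀ U₁ U₂ p = GX i A₀ U₁ U₂ v ↔ pw i p = pw i v := by
  obtain ⟨hi, hA, hbig, u1, u2⟩ := hD
  obtain ⟨⟨v1, v2, v3, v4⟩, h1, h2⟩ := hv
  have hX : Xc i A₀ v = (v.1 - i) / 2 := by unfold Xc; omega
  unfold GX pw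
  rw [Prod.mk.injEq, Prod.mk.injEq]
  constructor
  · rintro ⟨g1, g2⟩
    have g3 := gc_iso (fun h => by have := h1 _ h; omega)
      (fun t ht h => by have := h1 _ h; omega) g1
    have g4 := gc_iso (fun h => by have := h2 _ h; omega)
      (fun t ht h => by have := h2 _ h; omega) g2
    refine ⟨?_, g4⟩
    rw [hX] at g3
    unfold Xc at g3
    omega
  · rintro ⟨g1, g2⟩
    have : Xc i A₀ p = Xc i A₀ v := by unfold Xc; rw [g1]
    rw [this, g2]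
    exact ⟨rfl, rfl⟩

/-- the edges which leave a regular blob -/
lemma CrD.nbr (hD : CrD w i A₀ U₁ U₂) {v : ℕ × ℕ} (hv : RegC w i U₁ U₂ v) {p q : ℕ × ℕ}
    (hpq : wadj p q) (hp : pw i p = pw i v) (hq : pw i q ≠ pw i v) :
    ∃ gX gY : ℕ, gX + 1 = (GX i A₀ U₁ U₂ v).1 ∧ gY + 1 = (GX i A₀ U₁ U₂ v).2 ∧
      ((p = (2 * ((v.1 - i) / 2) + i, v.2) ∧ q = (2 * ((v.1 - i) / 2) + i - 1, v.2) ∧
          GX i A₀ U₁ U₂ q = (gX, gY + 1)) ∨
        (p = (2 * ((v.1 - i) / 2) + i + 1, v.2) ∧ q = (2 * ((v.1 - i) / 2) + i + 2, v.2) ∧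
          GX i A₀ U₁ U₂ q = (gX + 2, gY + 1)) ∨
        ((p.1 = 2 * ((v.1 - i) / 2) + i ∨ p.1 = 2 * ((v.1 - i) / 2) + i + 1) ∧ p.2 = v.2 ∧
          q = (p.1, v.2 + 1) ∧ (p.1 + v.2) % 2 = 0 ∧ GX i A₀ U₁ U₂ q = (gX + 1, gY + 2)) ∨
        ((p.1 = 2 * ((v.1 - i) / 2) + i ∨ p.1 = 2 * ((v.1 - i) / 2) + i + 1) ∧ p.2 = v.2 ∧
          q = (p.1, v.2 - 1) ∧ (p.1 + v.2) % 2 = 1 ∧ GX i A₀ U₁ U₂ q = (gX + 1, gY))) := by
  obtain ⟨hi, hA, hbig, u1, u2⟩ := hD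
  obtain ⟨⟨v1, v2, v3, v4⟩, h1, h2⟩ := hv
  obtain ⟨px, py⟩ := p
  obtain ⟨qx, qy⟩ := q
  obtain ⟨vx, vy⟩ := v
  simp only at v1 v2 v3 v4 h1 h2 ⊢
  obtain ⟨X, hX⟩ : ∃ X, X = (vx - i) / 2 := ⟨_, rfl⟩
  have hX1 : 1 ≤ X := by omega
  obtain ⟨Xm, hXm⟩ : ∃ Xm, X = Xm + 1 := ⟨X - 1, by omega⟩
  obtain ⟨Ym, hYm⟩ : ∃ Ym, vy = Ym + 1 := ⟨vy - 1, by omega⟩
  have hXc : Xc i A₀ (vx, vy) = X := by unfold Xc; simp only; omega
  have k1 : gc U₁ X = gc U₁ Xm + 1 := by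
    rw [hXm]
    exact gc_out fun h => by have := h1 _ h; omega
  have k2 : gc U₁ (X + 1) = gc U₁ X + 1 := gc_out fun h => by have := h1 _ h; omega
  have k3 : gc U₂ vy = gc U₂ Ym + 1 := by
    rw [hYm]
    exact gc_out fun h => by have := h2 _ h; omega
  have k4 : gc U₂ (vy + 1) = gc U₂ vy + 1 := gc_out fun h => by have := h2 _ h; omega
  unfold pw at hp hq
  rw [Prod.mk.injEq] at hp
  rw [ne_eq, Prod.mk.injEq] at hq
  simp only at hp hq
  rw [← hX] at hp hq ⊢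
  have hpx : px = 2 * X + i ∨ px = 2 * X + i + 1 := by omega
  refine ⟨gc U₁ Xm, gc U₂ Ym, ?_, ?_, ?_⟩
  · unfold GX
    rw [hXc]
    simp only
    omega
  · unfold GX
    simp only
    omega
  unfold wadj at hpq
  simp only at hpq
  have gq : ∀ t, Xc i A₀ (qx, qy) = t → GX i A₀ U₁ U₂ (qx, qy) = (gc U₁ t, gc U₂ qy) := by
    intro t ht
    unfold GX
    rw [ht]
  have hpy : py = vy := hp.2
  have hqd : qy = vy → ¬ (qx = 2 * X + i ∨ qx = 2 * X + i + 1) := by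
    intro h3 h4
    exact hq ⟨by omega, h3⟩
  have c1 : (qx + 1 = px ∧ qy = py ∧ px = 2 * X + i) ∨
      (qx = px + 1 ∧ qy = py ∧ px = 2 * X + i + 1) ∨
      (qx = px ∧ qy = py + 1 ∧ (px + py) % 2 = 0) ∨ (qx = px ∧ py = qy + 1 ∧ (qx + qy) % 2 = 0) := by
    clear hp hq
    rcases hpq with ⟨h, h' | h'⟩ | ⟨h, ⟨h', h''⟩ | ⟨h', h''⟩⟩
    · have h3 := hqd (by omega)
      exact Or.inr (Or.inl ⟨by omega, by omega, by omega⟩)
    · have h3 := hqd (by omega)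
      exact Or.inl ⟨by omega, by omega, by omega⟩
    · exact Or.inr (Or.inr (Or.inl ⟨by omega, by omega, h''⟩))
    · exact Or.inr (Or.inr (Or.inr ⟨by omega, by omega, h''⟩))
  rcases c1 with c1 | c1 | c1 | c1
  · left
    refine ⟨by rw [Prod.mk.injEq]; omega, by rw [Prod.mk.injEq]; omega, ?_⟩
    rw [gq Xm (by unfold Xc; simp only; omega), Prod.mk.injEq]
    refine ⟨rfl, ?_⟩
    rw [show qy = vy by omega, k3]
  · right; left
    refine ⟨by rw [Prod.mk.injEq]; omega, by rw [Prod.mk.injEq]; omega, ?_⟩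
    rw [gq (X + 1) (by unfold Xc; simp only; omega), Prod.mk.injEq]
    refine ⟨by rw [k2, k1], ?_⟩
    rw [show qy = vy by omega, k3]
  · right; right; left
    refine ⟨hpx, hp.2, by rw [Prod.mk.injEq]; omega, by omega, ?_⟩
    rw [gq X (by unfold Xc; simp only; omega), Prod.mk.injEq]
    refine ⟨k1, ?_⟩
    rw [show qy = vy + 1 by omega, k4, k3]
  · right; right; right
    refine ⟨hpx, hp.2, by rw [Prod.mk.injEq]; omega, by omega, ?_⟩
    rw [gq X (by unfold Xc; simp only; omega), Prod.mk.injEq]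
    refine ⟨k1, ?_⟩
    rw [show qy = Ym by omega]

/-- the edge between a regular class and an adjacent class is unique -/
lemma CrD.edge_uniq (hD : CrD w i A₀ U₁ U₂) {v : ℕ × ℕ} (hv : RegC w i U₁ U₂ v)
    {p q p' q' : ℕ × ℕ} (hpq : wadj p q) (hp : pw i p = pw i v) (hq : pw i q ≠ pw i v)
    (hpq' : wadj p' q') (hp' : pw i p' = pw i v)
    (hG : GX i A₀ U₁ U₂ q' = GX i A₀ U₁ U₂ q) :
    adj (GX i A₀ U₁ U₂ v) (GX i A₀ U₁ U₂ q) ∧ p' = p ∧ q' = q := by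
  have hq' : pw i q' ≠ pw i v := by
    intro h
    exact hq ((hD.reg hv q).1 (hG ▸ (hD.reg hv q').2 h))
  obtain ⟨gX, gY, a1, a2, a3⟩ := hD.nbr hv hpq hp hq
  obtain ⟨gX', gY', b1, b2, b3⟩ := hD.nbr hv hpq' hp' hq'
  have e1 : gX' = gX := by omega
  have e2 : gY' = gY := by omega
  subst e1 e2
  rw [hG] at b3
  generalize GX i A₀ U₁ U₂ v = g at a1 a2 ⊢
  generalize GX i A₀ U₁ U₂ q = r at a3 b3 ⊢
  clear hpq hpq' hp hp' hq hq' hG b1 b2
  obtain ⟨g1, g2⟩ := g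
  obtain ⟨r1, r2⟩ := r
  obtain ⟨px, py⟩ := p
  obtain ⟨qx, qy⟩ := q
  obtain ⟨px', py'⟩ := p'
  obtain ⟨qx', qy'⟩ := q'
  simp only [Prod.mk.injEq] at a1 a2 a3 b3 ⊢
  unfold adj
  simp only
  rcases a3 with a3 | a3 | a3 | a3 <;> rcases b3 with b3 | b3 | b3 | b3
  · exact ⟨by omega, by omega, by omega⟩
  · exfalso; omega
  · exfalso; omega
  · exfalso; omega
  · exfalso; omega
  · exact ⟨by omega, by omega, by omega⟩
  · exfalso; omega
  · exfalso; omega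
  · exfalso; omega
  · exfalso; omega
  · exact ⟨by omega, by omega, by omega⟩
  · exfalso; omega
  · exfalso; omega
  · exfalso; omega
  · exfalso; omega
  · exact ⟨by omega, by omega, by omega⟩

end

end DA
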