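import Pool.Agent.DA.CrossA

/-!
# Row CROSS: the wall without holes and without one vertex is full

The holes are blocks (runs of pairs of columns) x (runs of rows), so every vertex outside of the holes
is joined to the boundary in two ways.
-/

open Set BIC BICS
open scoped Matroid

namespace DA

open Gad

universe u

/-- a connected set which contains a full set is full -/
lemma full_ext {α V : Type*} {S : Set α} {ends : α → Sym2 V} {A U₀ : Set V} {F₀ : Set α}
    (hA : A.Finite) (hU₀ : U₀ ⊆ A) (hF₀ : FullB S ends U₀ F₀)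
    (hr : ∀ v ∈ A, ∃ u ∈ U₀, Relation.ReflTransGen
      (fun x y => GAdj S ends x y ∧ x ∈ A ∧ y ∈ A) v u) : ∃ F, FullB S ends A F := by
  classical
  have key : ∀ n : ℕ, ∀ (U : Set V) (F : Set α), (A \ U).ncard = n → U₀ ⊆ U → U ⊆ A →
      FullB S ends U F → ∃ F, FullB S ends A F := by
    intro n
    induction n with
    | zero =>
      intro U F hn _ hU hF
      have h0 : A \ U = ∅ := (ncard_eq_zero (hA.subset sdiff_subset)).1 hn
      have h1 : U = A := by
        refine Subset.antisymm hU fun x hx => ?_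
        by_contra hxU
        have h2 : x ∈ A \ U := ⟨hx, hxU⟩
        rw [h0] at h2
        exact h2
      exact ⟨F, h1 ▸ hF⟩
    | succ n ih =>
      intro U F hn h0U hU hF
      obtain ⟨v, hvA, hvU⟩ : (A \ U).Nonempty := by
        rw [← ncard_pos (hA.subset sdiff_subset)]
        omega
      obtain ⟨u, hu, hvu⟩ := hr v hvA
      -- the first step into `U`
      obtain ⟨x, y, hxy, hxA, hyA, hxU, hyU⟩ : ∃ x y, GAdj S ends x y ∧ x ∈ A ∧ y ∈ A ∧
          x ∉ U ∧ y ∈ U := by
        have : ∀ z, Relation.ReflTransGen (fun x y => GAdj S ends x y ∧ x ∈ A ∧ y ∈ A) z u →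
            z ∉ U → ∃ x y, GAdj S ends x y ∧ x ∈ A ∧ y ∈ A ∧ x ∉ U ∧ y ∈ U := by
          intro z hz
          induction hz using Relation.ReflTransGen.head_induction_on with
          | refl => exact fun h => absurd (h0U hu) h
          | @head a b h1 _ ih' =>
            intro ha
            by_cases hb : b ∈ U
            · exact ⟨a, b, h1.1, h1.2.1, h1.2.2, ha, hb⟩
            · exact ih' hb
        exact this v hvu hvU
      obtain ⟨e, he, hee⟩ := hxy.symm
      have h1 := hF.insert hyU hxU he hee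
      refine ih (insert x U) _ ?_ (h0U.trans (subset_insert _ _)) (insert_subset hxA hU) h1
      have h2 : A \ insert x U = (A \ U) \ {x} := by
        ext t
        simp only [mem_sdiff, mem_insert_iff, mem_singleton_iff]
        tauto
      rw [h2]
      have h3 := Set.ncard_sdiff_singleton_add_one (s := A \ U) (a := x) ⟨hxA, hxU⟩
        (hA.subset sdiff_subset)
      omega
  exact key _ U₀ F₀ rfl Subset.rfl hU₀ hF₀

section

variable {α : Type*} {S : Set α} {ends : α → Sym2 (ℕ × ℕ)} {w i A₀ : ℕ} {U₁ U₂ : Finset ℕ}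
  {H : Set (ℕ × ℕ)}

/-- **The wall without holes and without one deep vertex is full.** -/
theorem CrD.full1 (hD : CrD w i A₀ U₁ U₂) (l₁ : ∀ t ∈ U₁, 3 ≤ t) (l₂ : ∀ y ∈ U₂, 3 ≤ y)
    (hS : ∀ p q, wadj p q → p ∈ AX w i A₀ U₁ U₂ H → q ∈ AX w i A₀ U₁ U₂ H →
      ∃ e ∈ S, ends e = s(p, q)) {v : ℕ × ℕ}
    (hv : 4 ≤ v.1 ∧ v.1 + 4 ≤ w + 1 ∧ 4 ≤ v.2 ∧ v.2 + 4 ≤ w + 1) :
    ∃ F, FullB S ends (AX w i A₀ U₁ U₂ H \ {v}) F := by
  classical
  obtain ⟨hi, hA, hbig, u1, u2⟩ := hD
  obtain ⟨v1, v2⟩ := v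
  simp only at hv
  obtain ⟨A, hAd⟩ : ∃ A, A = AX w i A₀ U₁ U₂ H \ {(v1, v2)} := ⟨_, rfl⟩
  rw [← hAd]
  have hAf : A.Finite := by
    rw [hAd]
    exact ((Gad.rect_finite _ _ _ _).subset sdiff_subset).subset sdiff_subset
  -- membership
  have hrow : ∀ x y, x ≤ w → y ≤ w → y ∉ U₂ → (x, y) ≠ (v1, v2) → (x, y) ∈ A := by
    intro x y hx hy hyU hne
    rw [hAd]
    refine ⟨?_, hne⟩
    rw [mem_AX]
    exact ⟨⟨hx, hy⟩, fun h => hyU h.2.1⟩
  have hcol : ∀ x y, x ≤ w → y ≤ w → Xc i A₀ (x, y) ∉ U₁ → (x, y) ≠ (v1, v2) → (x, y) ∈ A := by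
    intro x y hx hy hxU hne
    rw [hAd]
    refine ⟨?_, hne⟩
    rw [mem_AX]
    exact ⟨⟨hx, hy⟩, fun h => hxU h.1⟩
  set R := fun a b : ℕ × ℕ => GAdj S ends a b ∧ a ∈ A ∧ b ∈ A with hR
  have hsym : ∀ a b, R a b → R b a := fun a b h => ⟨h.1.symm, h.2.2, h.2.1⟩
  have hsyms : ∀ a b, Relation.ReflTransGen R a b → Relation.ReflTransGen R b a := by
    intro a b h
    induction h with
    | refl => exact Relation.ReflTransGen.refl
    | tail _ h2 ih => exact Relation.ReflTransGen.head (hsym _ _ h2) ih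
  have hstep : ∀ p q, wadj p q → p ∈ A → q ∈ A → R p q := by
    intro p q hpq hp hq
    have hp' := hp
    have hq' := hq
    rw [hAd] at hp' hq'
    obtain ⟨e, he, hee⟩ := hS p q hpq hp'.1 hq'.1
    exact ⟨⟨e, he, hee⟩, hp, hq⟩
  -- horizontal walks
  have hhor : ∀ y x x', x ≤ x' → (∀ z, x ≤ z → z ≤ x' → (z, y) ∈ A) →
      Relation.ReflTransGen R (x, y) (x', y) := by
    intro y x x' hxx
    induction x', hxx using Nat.le_induction with
    | base => exact fun _ => Relation.ReflTransGen.refl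
    | succ x' h1 ih =>
      intro h2
      refine (ih fun z h3 h4 => h2 z h3 (by omega)).tail ?_
      exact hstep _ _ (Or.inl ⟨rfl, Or.inl rfl⟩) (h2 x' h1 (by omega)) (h2 (x' + 1) (by omega) le_rfl)
  -- up a strip of two columns
  have hup : ∀ k X x y, (x = X ∨ x = X + 1) → (x, y) ∈ A →
      ((x + y) % 2 = 1 → ∀ x', (x' = X ∨ x' = X + 1) → (x', y) ∈ A) →
      (∀ y', y < y' → y' ≤ y + k → (X, y') ∈ A ∧ (X + 1, y') ∈ A) →
      ∃ x', (x' = X ∨ x' = X + 1) ∧ Relation.ReflTransGen R (x, y) (x', y + k) := by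
    intro k
    induction k with
    | zero => exact fun X x y hx _ _ _ => ⟨x, hx, Relation.ReflTransGen.refl⟩
    | succ k ih =>
      intro X x y hx hxA hodd hlev
      have hl1 := hlev (y + 1) (by omega) (by omega)
      rcases Nat.mod_two_eq_zero_or_one (x + y) with h | h
      · -- directly up
        have h1 : (x, y + 1) ∈ A := by
          rcases hx with rfl | rfl
          · exact hl1.1
          · exact hl1.2
        have h2 : R (x, y) (x, y + 1) := hstep _ _ (Or.inr ⟨rfl, Or.inl ⟨rfl, h⟩⟩) hxA h1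
        obtain ⟨x', hx', h3⟩ := ih X x (y + 1) hx h1 (fun _ x' hx' => by
          rcases hx' with rfl | rfl
          · exact hl1.1
          · exact hl1.2) (fun y' h4 h5 => hlev y' (by omega) (by omega))
        refine ⟨x', hx', Relation.ReflTransGen.head h2 ?_⟩
        rw [show y + (k + 1) = y + 1 + k by omega]
        exact h3
      · -- first the horizontal edge
        obtain ⟨x₂, hx₂, hne, hpar, hadj⟩ : ∃ x₂, (x₂ = X ∨ x₂ = X + 1) ∧ x₂ ≠ x ∧
            (x₂ + y) % 2 = 0 ∧ wadj (x, y) (x₂, y) := by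
          rcases hx with rfl | rfl
          · exact ⟨x + 1, Or.inr rfl, by omega, by omega, Or.inl ⟨rfl, Or.inl rfl⟩⟩
          · exact ⟨X, Or.inl rfl, by omega, by omega, Or.inl ⟨rfl, Or.inr rfl⟩⟩
        have h0 : (x₂, y) ∈ A := hodd h x₂ hx₂
        have h1 : (x₂, y + 1) ∈ A := by
          rcases hx₂ with rfl | rfl
          · exact hl1.1
          · exact hl1.2
        have h2 : R (x, y) (x₂, y) := hstep _ _ hadj hxA h0
        have h2' : R (x₂, y) (x₂, y + 1) := hstep _ _ (Or.inr ⟨rfl, Or.inl ⟨rfl, hpar⟩⟩) h0 h1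
        obtain ⟨x', hx', h3⟩ := ih X x₂ (y + 1) hx₂ h1 (fun _ x' hx' => by
          rcases hx' with rfl | rfl
          · exact hl1.1
          · exact hl1.2) (fun y' h4 h5 => hlev y' (by omega) (by omega))
        refine ⟨x', hx', Relation.ReflTransGen.head h2 (Relation.ReflTransGen.head h2' ?_)⟩
        rw [show y + (k + 1) = y + 1 + k by omega]
        exact h3
  -- down a strip of two columns
  have hdn : ∀ k X x y, (x = X ∨ x = X + 1) → k ≤ y → (x, y) ∈ A →
      ((x + y) % 2 = 0 → ∀ x', (x' = X ∨ x' = X + 1) → (x', y) ∈ A) →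
      (∀ y', y' < y → y ≤ y' + k → (X, y') ∈ A ∧ (X + 1, y') ∈ A) →
      ∃ x', (x' = X ∨ x' = X + 1) ∧ Relation.ReflTransGen R (x, y) (x', y - k) := by
    intro k
    induction k with
    | zero => exact fun X x y hx _ _ _ _ => ⟨x, hx, Relation.ReflTransGen.refl⟩
    | succ k ih =>
      intro X x y hx hky hxA hodd hlev
      obtain ⟨y₁, rfl⟩ : ∃ y₁, y = y₁ + 1 := ⟨y - 1, by omega⟩
      have hl1 := hlev y₁ (by omega) (by omega)
      rcases Nat.mod_two_eq_zero_or_one (x + (y₁ + 1)) with h | h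
      · -- first the horizontal edge
        obtain ⟨x₂, hx₂, hne, hpar, hadj⟩ : ∃ x₂, (x₂ = X ∨ x₂ = X + 1) ∧ x₂ ≠ x ∧
            (x₂ + y₁) % 2 = 0 ∧ wadj (x, y₁ + 1) (x₂, y₁ + 1) := by
          rcases hx with rfl | rfl
          · exact ⟨x + 1, Or.inr rfl, by omega, by omega, Or.inl ⟨rfl, Or.inl rfl⟩⟩
          · exact ⟨X, Or.inl rfl, by omega, by omega, Or.inl ⟨rfl, Or.inr rfl⟩⟩
        have h0 : (x₂, y₁ + 1) ∈ A := hodd h x₂ hx₂
        have h1 : (x₂, y₁) ∈ A := by
          rcases hx₂ with rfl | rfl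
          · exact hl1.1
          · exact hl1.2
        have h2 : R (x, y₁ + 1) (x₂, y₁ + 1) := hstep _ _ hadj hxA h0
        have h2' : R (x₂, y₁ + 1) (x₂, y₁) := hstep _ _ (Or.inr ⟨rfl, Or.inr ⟨rfl, hpar⟩⟩) h0 h1
        obtain ⟨x', hx', h3⟩ := ih X x₂ y₁ hx₂ (by omega) h1 (fun _ x' hx' => by
          rcases hx' with rfl | rfl
          · exact hl1.1
          · exact hl1.2) (fun y' h4 h5 => hlev y' (by omega) (by omega))
        refine ⟨x', hx', Relation.ReflTransGen.head h2 (Relation.ReflTransGen.head h2' ?_)⟩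
        rw [show y₁ + 1 - (k + 1) = y₁ - k by omega]
        exact h3
      · have h1 : (x, y₁) ∈ A := by
          rcases hx with rfl | rfl
          · exact hl1.1
          · exact hl1.2
        have h2 : R (x, y₁ + 1) (x, y₁) := hstep _ _ (Or.inr ⟨rfl, Or.inr ⟨rfl, by
          simp only
          omega⟩⟩) hxA h1
        obtain ⟨x', hx', h3⟩ := ih X x y₁ hx (by omega) h1 (fun _ x' hx' => by
          rcases hx' with rfl | rfl
          · exact hl1.1
          · exact hl1.2) (fun y' h4 h5 => hlev y' (by omega) (by omega))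
        refine ⟨x', hx', Relation.ReflTransGen.head h2 ?_⟩
        rw [show y₁ + 1 - (k + 1) = y₁ - k by omega]
        exact h3
  have h0U : (0 : ℕ) ∉ U₂ := fun h => by have := l₂ _ h; omega
  have hwU : w ∉ U₂ := fun h => by have := u2 _ h; omega
  have hXl : ∀ x y, x ≤ 1 → Xc i A₀ (x, y) ∉ U₁ := by
    intro x y hx h
    have := l₁ _ h
    unfold Xc at this
    simp only at this
    omega
  have hXr : ∀ x y, w ≤ x + 1 → Xc i A₀ (x, y) ∉ U₁ := by
    intro x y hx h
    have := u1 _ h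
    unfold Xc at this
    simp only at this
    omega
  have hneL : ∀ x y, x ≤ 3 → (x, y) ≠ (v1, v2) := by
    intro x y hx h
    rw [Prod.mk.injEq] at h
    omega
  have hneR : ∀ x y, w ≤ x + 2 → (x, y) ≠ (v1, v2) := by
    intro x y hx h
    rw [Prod.mk.injEq] at h
    omega
  have hneB : ∀ x y, y ≤ 3 → (x, y) ≠ (v1, v2) := by
    intro x y hx h
    rw [Prod.mk.injEq] at h
    omega
  -- the bottom row
  have hbot : ∀ x, x ≤ w → Relation.ReflTransGen R (x, 0) (0, 0) := by
    intro x hx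
    refine hsyms _ _ (hhor 0 0 x (by omega) fun z _ h2 => ?_)
    exact hrow z 0 (by omega) (by omega) h0U (hneB _ _ (by omega))
  -- the left strip
  have hleft : ∀ x y, x ≤ 1 → y ≤ w → Relation.ReflTransGen R (x, y) (0, 0) := by
    intro x y hx hy
    have hm : ∀ x' y', x' ≤ 1 → y' ≤ w → (x', y') ∈ A := fun x' y' h1 h2 =>
      hcol x' y' (by omega) h2 (hXl x' y' h1) (hneL _ _ (by omega))
    obtain ⟨x', hx', h1⟩ := hdn y 0 x y (by omega) le_rfl (hm x y hx hy)
      (fun _ x' hx' => hm x' y (by omega) hy) (fun y' h2 _ => ⟨hm _ _ (by omega) (by omega),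
        hm _ _ (by omega) (by omega)⟩)
    rw [Nat.sub_self] at h1
    exact h1.trans (hbot x' (by omega))
  -- the right strip
  have hright : ∀ x y, w ≤ x + 1 → x ≤ w → y ≤ w → Relation.ReflTransGen R (x, y) (0, 0) := by
    intro x y hx hx' hy
    have hm : ∀ x' y', w ≤ x' + 1 → x' ≤ w → y' ≤ w → (x', y') ∈ A := fun x' y' h1 h2 h3 =>
      hcol x' y' h2 h3 (hXr x' y' h1) (hneR _ _ (by omega))
    obtain ⟨x₁, hx₁, h1⟩ := hdn y (w - 1) x y (by omega) le_rfl (hm x y hx hx' hy)
      (fun _ x' hx' => hm x' y (by omega) (by omega) hy)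
      (fun y' h2 _ => ⟨hm _ _ (by omega) (by omega) (by omega),
        hm _ _ (by omega) (by omega) (by omega)⟩)
    rw [Nat.sub_self] at h1
    exact h1.trans (hbot x₁ (by omega))
  -- the rows outside of `U₂`
  have hfree : ∀ x y, x ≤ w → y ≤ w → y ∉ U₂ → (x, y) ∈ A →
      Relation.ReflTransGen R (x, y) (0, 0) := by
    intro x y hx hy hyU hxA
    have hxv : (x, y) ≠ (v1, v2) := by
      rw [hAd] at hxA
      exact fun h => hxA.2 h
    by_cases hb : y = v2 ∧ v1 < x
    · refine (hhor y x w hx fun z h1 h2 => ?_).trans (hright w y (by omega) le_rfl hy)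
      refine hrow z y h2 hy hyU ?_
      rw [ne_eq, Prod.mk.injEq]
      omega
    · refine (hsyms _ _ (hhor y 0 x (by omega) fun z h1 h2 => ?_)).trans (hleft 0 y (by omega) hy)
      refine hrow z y (by omega) hy hyU ?_
      rw [ne_eq, Prod.mk.injEq] at hxv ⊢
      intro h3
      refine hb ⟨h3.2, ?_⟩
      by_contra h4
      exact hxv ⟨by omega, h3.2⟩
  -- all vertices
  have hall : ∀ p ∈ A, Relation.ReflTransGen R p (0, 0) := by
    rintro ⟨x, y⟩ hp
    have hp' := hp
    rw [hAd] at hp'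
    obtain ⟨hp1, hp2⟩ := hp'
    rw [mem_AX] at hp1
    obtain ⟨⟨hxw, hyw⟩, hpH⟩ := hp1
    simp only at hxw hyw hpH
    have hpv : (x, y) ≠ (v1, v2) := fun h => hp2 h
    by_cases hyU : y ∉ U₂
    · exact hfree x y hxw hyw hyU hp
    push Not at hyU
    by_cases hxl : x ≤ 1
    · exact hleft x y hxl hyw
    by_cases hxr : w ≤ x + 1
    · exact hright x y hxr hxw hyw
    push Not at hxl hxr
    obtain ⟨t, ht⟩ : ∃ t, t = (x - i) / 2 := ⟨_, rfl⟩
    have hXt : ∀ x' y', (x' = 2 * t + i ∨ x' = 2 * t + i + 1) → Xc i A₀ (x', y') = t := by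
      intro x' y' h
      unfold Xc
      simp only
      omega
    have hxt : x = 2 * t + i ∨ x = 2 * t + i + 1 := by omega
    -- the strip inside of the run of `y`
    have hstrip : ∀ y', y' ≤ w → gc U₂ y' = gc U₂ y ∨ y' ∉ U₂ → ∀ x',
        (x' = 2 * t + i ∨ x' = 2 * t + i + 1) → (x', y') ≠ (v1, v2) → (x', y') ∈ A := by
      intro y' hy' hg x' hx' hne
      rw [hAd]
      refine ⟨?_, hne⟩
      rw [mem_AX]
      refine ⟨⟨by simp only; omega, hy'⟩, ?_⟩
      rintro ⟨g1, g2, g3⟩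
      rcases hg with hg | hg
      · refine hpH ⟨?_, hyU, ?_⟩
        · rw [hXt x y hxt]
          rw [hXt x' y' hx'] at g1
          exact g1
        · unfold GX at g3 ⊢
          rw [hXt x y hxt]
          rw [hXt x' y' hx'] at g3
          simp only at g3 ⊢
          rw [← hg]
          exact g3
      · exact hg g2
    by_cases hdir : (v1 = 2 * t + i ∨ v1 = 2 * t + i + 1) ∧ (y < v2 ∨ (v2 = y ∧ (x + y) % 2 = 1))
    · -- down
      have hex : ∃ k, k ≤ y ∧ y - k ∉ U₂ := ⟨y, le_rfl, by rw [Nat.sub_self]; exact h0U⟩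
      obtain ⟨k, hk1, hk2⟩ : ∃ k, (k ≤ y ∧ y - k ∉ U₂) ∧ ∀ j < k, ¬ (j ≤ y ∧ y - j ∉ U₂) :=
        ⟨Nat.find hex, Nat.find_spec hex, fun j hj => Nat.find_min hex hj⟩
      have hin : ∀ y', y - k < y' → y' ≤ y → y' ∈ U₂ := by
        intro y' h1 h2
        have h3 := hk2 (y - y') (by omega)
        rw [show y - (y - y') = y' by omega] at h3
        by_contra h4
        exact h3 ⟨by omega, h4⟩
      have hgc : ∀ y', y - k < y' → y' ≤ y → gc U₂ y' = gc U₂ y := by
        intro y' h1 h2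
        exact (gc_run h2 fun s h3 h4 => hin s (by omega) (by omega)).symm
      have hlev : ∀ y', y - k ≤ y' → y' ≤ y → ∀ x', (x' = 2 * t + i ∨ x' = 2 * t + i + 1) →
          (x', y') ≠ (v1, v2) → (x', y') ∈ A := by
        intro y' h1 h2
        refine hstrip y' (by omega) ?_
        rcases h1.lt_or_eq with h3 | h3
        · exact Or.inl (hgc y' h3 h2)
        · exact Or.inr (h3 ▸ hk1.2)
      have hnv : ∀ x' y', y' < y → (x', y') ≠ (v1, v2) := by
        intro x' y' h1 h2
        rw [Prod.mk.injEq] at h2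
        omega
      obtain ⟨x', hx', h1⟩ := hdn k (2 * t + i) x y hxt hk1.1 hp (by
        intro hpar x' hx'
        refine hlev y (by omega) le_rfl x' hx' ?_
        rw [ne_eq, Prod.mk.injEq]
        omega) (by
        intro y' h1 h2
        exact ⟨hlev y' (by omega) (by omega) _ (Or.inl rfl) (hnv _ _ h1),
          hlev y' (by omega) (by omega) _ (Or.inr rfl) (hnv _ _ h1)⟩)
      refine h1.trans (hfree x' (y - k) (by omega) (by omega) hk1.2 ?_)
      have hk0 : k ≠ 0 := by
        rintro rfl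
        exact hk1.2 (by simpa using hyU)
      exact hlev (y - k) le_rfl (by omega) x' hx' (hnv _ _ (by omega))
    · -- up
      have hex : ∃ k, y + k ≤ w ∧ y + k ∉ U₂ := ⟨w - y, by omega, by
        rw [show y + (w - y) = w by omega]
        exact hwU⟩
      obtain ⟨k, hk1, hk2⟩ : ∃ k, (y + k ≤ w ∧ y + k ∉ U₂) ∧ ∀ j < k, ¬ (y + j ≤ w ∧ y + j ∉ U₂) :=
        ⟨Nat.find hex, Nat.find_spec hex, fun j hj => Nat.find_min hex hj⟩
      have hin : ∀ y', y ≤ y' → y' < y + k → y' ∈ U₂ := by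
        intro y' h1 h2
        have h3 := hk2 (y' - y) (by omega)
        rw [show y + (y' - y) = y' by omega] at h3
        by_contra h4
        exact h3 ⟨by omega, h4⟩
      have hgc : ∀ y', y ≤ y' → y' ≤ y + k → gc U₂ y' = gc U₂ y := by
        intro y' h1 h2
        exact gc_run h1 fun s h3 h4 => hin s (by omega) (by omega)
      have hlev : ∀ y', y ≤ y' → y' ≤ y + k → ∀ x', (x' = 2 * t + i ∨ x' = 2 * t + i + 1) →
          (x', y') ≠ (v1, v2) → (x', y') ∈ A := by
        intro y' h1 h2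
        exact hstrip y' (by omega) (Or.inl (hgc y' h1 h2))
      have hnv : ∀ x' y', (x' = 2 * t + i ∨ x' = 2 * t + i + 1) → y < y' →
          (x', y') ≠ (v1, v2) := by
        intro x' y' hx' h1 h2
        rw [Prod.mk.injEq] at h2
        exact hdir ⟨by omega, Or.inl (by omega)⟩
      obtain ⟨x', hx', h1⟩ := hup k (2 * t + i) x y hxt hp (by
        intro hpar x' hx'
        refine hlev y le_rfl (by omega) x' hx' ?_
        rw [ne_eq, Prod.mk.injEq]
        intro h2
        exact hdir ⟨by omega, Or.inr ⟨by omega, hpar⟩⟩) (by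
        intro y' h1 h2
        exact ⟨hlev y' (by omega) (by omega) _ (Or.inl rfl) (hnv _ _ (Or.inl rfl) h1),
          hlev y' (by omega) (by omega) _ (Or.inr rfl) (hnv _ _ (Or.inr rfl) h1)⟩)
      refine h1.trans (hfree x' (y + k) (by omega) hk1.1 hk1.2 ?_)
      have hk0 : k ≠ 0 := by
        rintro rfl
        exact hk1.2 (by simpa using hyU)
      exact hlev (y + k) (by omega) le_rfl x' hx' (hnv _ _ hx' (by omega))
  -- a brick at the corner
  obtain ⟨U₀, hU₀⟩ : ∃ U₀ : Set (ℕ × ℕ), U₀ = {(0, 0), (1, 0), (2, 0), (2, 1), (1, 1), (0, 1)} :=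
    ⟨_, rfl⟩
  have hm : ∀ p ∈ U₀, p ∈ A := by
    rintro ⟨x, y⟩ hp
    rw [hU₀] at hp
    simp only [mem_insert_iff, mem_singleton_iff, Prod.mk.injEq] at hp
    refine hrow x y (by omega) (by omega) (fun h => ?_) (hneB _ _ (by omega))
    have := l₂ _ h
    omega
  obtain ⟨F₀, hF₀⟩ : ∃ F, FullB S ends U₀ F := by
    refine full_of_nb (fun p => if p = (0, 0) then (1, 0) else if p = (1, 0) then (2, 0) else
      if p = (2, 0) then (2, 1) else if p = (2, 1) then (1, 1) else if p = (1, 1) then (0, 1) else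
      (0, 0)) ?_ ?_
    · intro p hp
      have hp' := hp
      rw [hU₀] at hp'
      have hmem : ∀ q : ℕ × ℕ, q ∈ ({(0, 0), (1, 0), (2, 0), (2, 1), (1, 1), (0, 1)} :
          Set (ℕ × ℕ)) → q ∈ U₀ := fun q hq => by rw [hU₀]; exact hq
      have hst : ∀ p q : ℕ × ℕ, p ∈ U₀ → q ∈ U₀ → wadj p q → q ∈ U₀ ∧ ∃ e ∈ S, ends e = s(p, q) := by
        intro p q h1 h2 h3
        refine ⟨h2, ?_⟩
        have k1 := hm p h1
        have k2 := hm q h2
        rw [hAd] at k1 k2
        exact hS p q h3 k1.1 k2.1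
      simp only [mem_insert_iff, mem_singleton_iff] at hp'
      rcases hp' with rfl | rfl | rfl | rfl | rfl | rfl <;>
        simp (config := { decide := true }) only [if_true, if_false] <;>
        refine hst _ _ (hmem _ (by simp)) (hmem _ (by simp)) ?_ <;>
        (unfold wadj; simp)
    · intro p hp
      rw [hU₀] at hp
      simp only [mem_insert_iff, mem_singleton_iff] at hp
      rcases hp with rfl | rfl | rfl | rfl | rfl | rfl <;> decide
  refine full_ext hAf (fun p hp => hm p hp) hF₀ (fun p hp => ⟨(0, 0), ?_, hall p hp⟩)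
  rw [hU₀]
  simp

end

end DA
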