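import Pool.Agent.DA.CrossDef
import Pool.Agent.DA.CrossA
import Pool.Agent.DA.CrossC

/-!
# Row CROSS
-/

open Set BIC BICS
open scoped Matroid

namespace DA

open Gad TST

universe u

/-! ### transfer of trees to any set of elements with the same graph -/

/-- the edges of the wall inside of `A` -/
def E0 (A : Set (ℕ × ℕ)) : Set (Sym2 (ℕ × ℕ)) :=
  {s | ∃ p q, s = s(p, q) ∧ wadj p q ∧ p ∈ A ∧ q ∈ A}

lemma arb_transfer {α : Type*} {S : Set α} {ends : α → Sym2 (ℕ × ℕ)} {A U : Set (ℕ × ℕ)}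
    {F : Set (Sym2 (ℕ × ℕ))} (hinj : InjOn ends S) (hsurj : ∀ s ∈ E0 A, ∃ e ∈ S, ends e = s)
    (h : Arb (E0 A) (fun s => s) U F) : Arb S ends U {e | e ∈ S ∧ ends e ∈ F} := by
  obtain ⟨h1, h2, h3⟩ := h
  refine ⟨?_, h2, ?_⟩
  · rintro e ⟨he, heF⟩
    exact ⟨he, fun v hv => (h1 heF).2 v hv⟩
  · intro v hv
    obtain ⟨φ, hφ, hφe⟩ := h3 v hv
    refine ⟨fun e => φ (ends e), ⟨?_, ?_, ?_⟩, ?_⟩
    · rintro e ⟨_, heF⟩
      exact hφ.mapsTo heF
    · rintro e ⟨he, heF⟩ e' ⟨he', heF'⟩ hee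
      exact hinj he he' (hφ.injOn heF heF' hee)
    · intro w hw
      obtain ⟨s, hs, hsw⟩ := hφ.surjOn hw
      obtain ⟨e, he, rfl⟩ := hsurj s (h1 hs).1
      exact ⟨e, ⟨he, hs⟩, hsw⟩
    · rintro e ⟨_, heF⟩
      exact hφe _ heF

lemma trs_transfer {α : Type*} {S : Set α} {ends : α → Sym2 (ℕ × ℕ)} {A : Set (ℕ × ℕ)}
    {G : ℕ × ℕ → ℕ × ℕ} {F : ℕ × ℕ → Set (Sym2 (ℕ × ℕ))} (hinj : InjOn ends S)
    (hsurj : ∀ s ∈ E0 A, ∃ e ∈ S, ends e = s) (h : Trs (E0 A) (fun s => s) A G F) :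
    Trs S ends A G (fun c => {e | e ∈ S ∧ ends e ∈ F c}) := by
  refine ⟨h.fin, fun c => ?_⟩
  rcases h.tree c with ⟨h1, h2⟩ | h1
  · left
    refine ⟨h1, ?_⟩
    rw [h2]
    ext e
    simp
  · exact Or.inr (arb_transfer hinj hsurj h1)

/-! ### fullness and connectivity of the plain rectangle -/

lemma adj_of_Adj {p q : ℕ × ℕ} (h : Gad.Adj p q) : adj p q := by
  unfold Gad.Adj at h
  unfold adj
  omega

/-- **ROW CROSS.** -/
theorem crossRow : CrossRow.{u} := by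
  classical
  intro h q
  obtain ⟨B, hB⟩ : ∃ B, B = h * (2 * q + 1) := ⟨_, rfl⟩
  obtain ⟨L, hL⟩ : ∃ L, L = 4 * B + 4 * q + 60 := ⟨_, rfl⟩
  refine ⟨L, ?_⟩
  intro w i Om hi hLw hOm hdeep
  obtain ⟨A₀, hA₀⟩ : ∃ A₀, A₀ = (w + 1 - i) / 2 := ⟨_, rfl⟩
  obtain ⟨U₁, hU₁⟩ : ∃ U₁ : Finset ℕ,
    U₁ = Om.biUnion (fun o => Finset.Icc ((o.1 - i) / 2 - q) ((o.1 - i) / 2 + q)) := ⟨_, rfl⟩
  obtain ⟨U₂, hU₂⟩ : ∃ U₂ : Finset ℕ,
    U₂ = Om.biUnion (fun o => Finset.Icc (o.2 - q) (o.2 + q)) := ⟨_, rfl⟩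
  have hd : ∀ o ∈ Om, L ≤ o.1 ∧ L ≤ o.2 ∧ o.1 + L ≤ w + 1 ∧ o.2 + L ≤ w + 1 := by
    intro o ho
    have := hdeep o ho
    unfold DeepR at this
    simp only at this
    omega
  have mU₁ : ∀ t, t ∈ U₁ ↔ ∃ o ∈ Om, (o.1 - i) / 2 - q ≤ t ∧ t ≤ (o.1 - i) / 2 + q := by
    intro t
    rw [hU₁]
    simp only [Finset.mem_biUnion, Finset.mem_Icc]
  have mU₂ : ∀ t, t ∈ U₂ ↔ ∃ o ∈ Om, o.2 - q ≤ t ∧ t ≤ o.2 + q := by
    intro t
    rw [hU₂]
    simp only [Finset.mem_biUnion, Finset.mem_Icc]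
  have cU₁ : U₁.card ≤ B := by
    rw [hU₁, hB]
    refine (Finset.card_biUnion_le_card_mul _ _ (2 * q + 1) fun o _ => ?_).trans
      (Nat.mul_le_mul_right _ hOm)
    rw [Nat.card_Icc]
    omega
  have cU₂ : U₂.card ≤ B := by
    rw [hU₂, hB]
    refine (Finset.card_biUnion_le_card_mul _ _ (2 * q + 1) fun o _ => ?_).trans
      (Nat.mul_le_mul_right _ hOm)
    rw [Nat.card_Icc]
    omega
  have hD : CrD w i A₀ U₁ U₂ := by
    refine ⟨hi, hA₀, by omega, ?_, ?_⟩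
    · intro x hx
      obtain ⟨o, ho, h1, h2⟩ := (mU₁ x).1 hx
      have := hd o ho
      omega
    · intro y hy
      obtain ⟨o, ho, h1, h2⟩ := (mU₂ y).1 hy
      have := hd o ho
      omega
  obtain ⟨G, hG⟩ : ∃ G, G = GX i A₀ U₁ U₂ := ⟨_, rfl⟩
  obtain ⟨H, hH⟩ : ∃ H : Set (ℕ × ℕ), H = {c | ∃ o ∈ Om, c = G o} := ⟨_, rfl⟩
  obtain ⟨Wd, hWd⟩ : ∃ Wd, Wd = WX i A₀ U₁ U₂ H := ⟨_, rfl⟩
  obtain ⟨A, hA⟩ : ∃ A, A = rect 0 0 (w + 1) (w + 1) \ Wd := ⟨_, rfl⟩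
  have hAX : A = AX w i A₀ U₁ U₂ H := by rw [hA, hWd]; rfl
  obtain ⟨a, ha⟩ : ∃ a, a = gc U₁ (A₀ - 1) + 1 := ⟨_, rfl⟩
  obtain ⟨b, hb⟩ : ∃ b, b = gc U₂ w + 1 := ⟨_, rfl⟩
  -- basic inequalities
  have hw2 : w ≤ gc U₂ w + B := by
    have h1 := gc_ge (U := U₂) (x := 0) (y := w)
    rw [gc_zero] at h1
    omega
  have ha2 : A₀ - 1 ≤ gc U₁ (A₀ - 1) + B := by
    have h1 := gc_ge (U := U₁) (x := 0) (y := A₀ - 1)
    rw [gc_zero] at h1
    omega
  have ha3 : gc U₁ (A₀ - 1) ≤ A₀ - 1 := gc_le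
  have hb3 : gc U₂ w ≤ w := gc_le
  have hAfin : A.Finite := by
    rw [hA]
    exact (Gad.rect_finite _ _ _ _).subset sdiff_subset
  -- trees
  have hconn : ∀ c, VConn (E0 A) (fun s => s) (cls A G c) := by
    intro c
    rw [hG, hAX]
    refine hD.conn (S := E0 (AX w i A₀ U₁ U₂ H)) (ends := fun s => s) ?_ c
    intro p q hpq hp hq
    exact ⟨s(p, q), ⟨p, q, rfl, hpq, hp, hq⟩, rfl⟩
  obtain ⟨F, hF⟩ := exists_trs (W := ℕ × ℕ) hAfin hconn
  -- one edge for every adjacent pair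
  have wsym : ∀ p q, wadj p q → wadj q p := by
    intro p q h
    unfold wadj at h ⊢
    omega
  have hκ : ∀ d : Sym2 (ℕ × ℕ), ∃ s : Sym2 (ℕ × ℕ), ∀ c c', d = s(c, c') → adj c c' →
      c ∈ rect 0 0 a b → c' ∈ rect 0 0 a b → ∃ p q, s = s(p, q) ∧ wadj p q ∧ p ∈ A ∧ q ∈ A ∧
        G p = c ∧ G q = c' := by
    intro d
    by_cases hd : ∃ c c', d = s(c, c') ∧ adj c c' ∧ c ∈ rect 0 0 a b ∧ c' ∈ rect 0 0 a b
    · obtain ⟨c, c', h1, h2, h3, h4⟩ := hd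
      rw [ha, hb] at h3 h4
      obtain ⟨p, q, k1, k2, k3, k4, k5⟩ := hD.edge (H := H) h2 h3 h4
      rw [← hAX] at k2 k3
      rw [← hG] at k4 k5
      refine ⟨s(p, q), fun e e' he _ _ _ => ?_⟩
      rw [h1, Sym2.eq_iff] at he
      rcases he with ⟨rfl, rfl⟩ | ⟨rfl, rfl⟩
      · exact ⟨p, q, rfl, k1, k2, k3, k4, k5⟩
      · exact ⟨q, p, Sym2.eq_swap, wsym _ _ k1, k3, k2, k5, k4⟩
    · exact ⟨s((0, 0), (0, 0)), fun c c' h1 h2 h3 h4 => absurd ⟨c, c', h1, h2, h3, h4⟩ hd⟩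
  choose κ hκ using hκ
  obtain ⟨Zt, hZt⟩ : ∃ Zt, Zt = FO F univ := ⟨_, rfl⟩
  obtain ⟨Kp, hKp⟩ : ∃ Kp : Set (Sym2 (ℕ × ℕ)), Kp = {s | ∃ c c', adj c c' ∧
    c ∈ rect 0 0 a b ∧ c' ∈ rect 0 0 a b ∧ s = κ s(c, c')} := ⟨_, rfl⟩
  have adj_ne : ∀ c c' : ℕ × ℕ, adj c c' → c ≠ c' := by
    rintro c c' h1 rfl
    unfold adj at h1
    omega
  have hKmem : ∀ s ∈ Kp, ∃ c c' p q, adj c c' ∧ c ∈ rect 0 0 a b ∧ c' ∈ rect 0 0 a b ∧
      s = κ s(c, c') ∧ s = s(p, q) ∧ wadj p q ∧ p ∈ A ∧ q ∈ A ∧ G p = c ∧ G q = c' := by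
    intro s hs
    rw [hKp] at hs
    obtain ⟨c, c', h1, h2, h3, h4⟩ := hs
    obtain ⟨p, q, k1, k2, k3, k4, k5, k6⟩ := hκ _ c c' rfl h1 h2 h3
    exact ⟨c, c', p, q, h1, h2, h3, h4, h4.trans k1, k2, k3, k4, k5, k6⟩
  have hFin : ∀ c, ∀ s ∈ F c, s ∈ E0 A ∧ ∀ v ∈ s, v ∈ A ∧ G v = c := fun c s hs => hF.F_ins hs
  have hdisj : Disjoint Zt Kp := by
    rw [Set.disjoint_left]
    intro s hs hsK
    rw [hZt, mem_FO] at hs
    obtain ⟨c, _, hc⟩ := hs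
    obtain ⟨c₁, c₁', p, q', h1, _, _, _, h5, _, _, _, h9, h10⟩ := hKmem s hsK
    have k1 := ((hFin c s hc).2 p (by rw [h5]; simp)).2
    have k2 := ((hFin c s hc).2 q' (by rw [h5]; simp)).2
    exact adj_ne _ _ h1 (by rw [← h9, ← h10, k1, k2])
  have hXle : ∀ v : ℕ × ℕ, v.1 ≤ w → (v.1 - i) / 2 ≤ Xc i A₀ v + 1 ∧ Xc i A₀ v ≤ (v.1 - i) / 2 ∧
      Xc i A₀ v ≤ A₀ - 1 ∧ ((v.1 - i) / 2 ≤ A₀ - 1 → Xc i A₀ v = (v.1 - i) / 2) := by
    intro v hv
    unfold Xc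
    omega
  have hrg : ∀ v, DeepR (0, 0) (w + 1) (w + 1) 4 v → OffL L Om v → RegC w i U₁ U₂ v := by
    intro v h1 h2
    unfold DeepR at h1
    simp only at h1
    refine ⟨by omega, ?_, ?_⟩
    · intro t ht
      obtain ⟨o, ho, k1, k2⟩ := (mU₁ t).1 ht
      have k3 := (h2 o ho).1
      have k4 := hd o ho
      omega
    · intro t ht
      obtain ⟨o, ho, k1, k2⟩ := (mU₂ t).1 ht
      have k3 := (h2 o ho).2
      have k4 := hd o ho
      omega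
  have hG1 : ∀ v, (G v).1 = gc U₁ (Xc i A₀ v) := by intro v; rw [hG]; rfl
  have hG2 : ∀ v, (G v).2 = gc U₂ v.2 := by intro v; rw [hG]; rfl
  have mWd : ∀ v, v ∈ Wd ↔ Xc i A₀ v ∈ U₁ ∧ v.2 ∈ U₂ ∧ ∃ o ∈ Om, G v = G o := by
    intro v
    rw [hWd, hH, hG]
    rfl
  have hXo : ∀ o ∈ Om, Xc i A₀ o = (o.1 - i) / 2 := by
    intro o ho
    have := hd o ho
    unfold Xc
    omega
  refine ⟨a, b, Wd, G, Zt, Kp, ?_, ?_, ?_, ?_, ?_, ?_, ?_, ?_, ?_, hdisj, ?_, ?_⟩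
  · -- win
    rintro v ⟨o, ho, hvo⟩
    rw [sd_le] at hvo
    have k := hd o ho
    have hXv : Xc i A₀ v = (v.1 - i) / 2 := by unfold Xc; omega
    have run : ∀ (U : Finset ℕ) (x y z : ℕ), (∀ t, z - q ≤ t → t ≤ z + q → t ∈ U) →
        z - q ≤ x → x ≤ z + q → y = z → gc U x = gc U y := by
      intro U x y z hU h1 h2 h3
      rcases Nat.le_total x y with h4 | h4
      · exact (gc_run h4 fun t h5 h6 => hU t (by omega) (by omega)).symm
      · exact gc_run h4 fun t h5 h6 => hU t (by omega) (by omega)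
    rw [mWd]
    refine ⟨?_, ?_, o, ho, ?_⟩
    · rw [mU₁, hXv]
      exact ⟨o, ho, by omega, by omega⟩
    · rw [mU₂]
      exact ⟨o, ho, by omega, by omega⟩
    · refine Prod.ext ?_ ?_
      · rw [hG1, hG1]
        refine run U₁ _ _ ((o.1 - i) / 2) (fun t h1 h2 => (mU₁ t).2 ⟨o, ho, h1, h2⟩) ?_ ?_ (hXo o ho)
        · omega
        · omega
      · rw [hG2, hG2]
        exact run U₂ _ _ o.2 (fun t h1 h2 => (mU₂ t).2 ⟨o, ho, h1, h2⟩) (by omega) (by omega) rfl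
  · -- win'
    intro v hv
    rw [mWd] at hv
    obtain ⟨h1, h2, o, ho, h3⟩ := hv
    refine ⟨o, ho, ?_⟩
    have k := hd o ho
    have k1 := hD.u₁ _ h1
    have k2 := hXo o ho
    have e1 : gc U₁ (Xc i A₀ v) = gc U₁ (Xc i A₀ o) := by rw [← hG1, ← hG1, h3]
    have e2 : gc U₂ v.2 = gc U₂ o.2 := by rw [← hG2, ← hG2, h3]
    have f1 := gc_ge (U := U₁) (x := Xc i A₀ v) (y := Xc i A₀ o)
    have f2 := gc_ge (U := U₁) (x := Xc i A₀ o) (y := Xc i A₀ v)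
    have f3 := gc_ge (U := U₂) (x := v.2) (y := o.2)
    have f4 := gc_ge (U := U₂) (x := o.2) (y := v.2)
    have hXv : Xc i A₀ v = (v.1 - i) / 2 := by
      unfold Xc at k1 ⊢
      omega
    rw [sd_le]
    omega
  · -- win4
    intro hq4 v hv
    rw [mWd] at hv
    obtain ⟨h1, h2, o, ho, h3⟩ := hv
    obtain ⟨o₁, ho₁, a1, a2⟩ := (mU₁ _).1 h1
    obtain ⟨o₂, ho₂, b1, b2⟩ := (mU₂ _).1 h2
    have k₁ := hd o₁ ho₁
    have k₂ := hd o₂ ho₂
    have k3 := hD.u₁ _ h1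
    have hXv : Xc i A₀ v = (v.1 - i) / 2 := by
      unfold Xc at k3 ⊢
      omega
    obtain ⟨c, hc⟩ : ∃ c, c = (o₁.1 - i) / 2 := ⟨_, rfl⟩
    rw [← hc, hXv] at a1 a2
    have hv0 : i ≤ v.1 := by
      by_contra hcon
      omega
    have run : ∀ (U : Finset ℕ) (x z : ℕ), (∀ t, z - q ≤ t → t ≤ z + q → t ∈ U) →
        z - q ≤ x → x ≤ z + q → gc U x = gc U z := by
      intro U x z hU h1 h2
      rcases Nat.le_total x z with h4 | h4
      · exact (gc_run h4 fun t h5 h6 => hU t (by omega) (by omega)).symm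
      · exact gc_run h4 fun t h5 h6 => hU t (by omega) (by omega)
    have hUc : ∀ t, c - q ≤ t → t ≤ c + q → t ∈ U₁ := fun t h4 h5 =>
      (mU₁ t).2 ⟨o₁, ho₁, by omega, by omega⟩
    have hUy : ∀ t, o₂.2 - q ≤ t → t ≤ o₂.2 + q → t ∈ U₂ := fun t h4 h5 =>
      (mU₂ t).2 ⟨o₂, ho₂, by omega, by omega⟩
    obtain ⟨x, hx1, hx2, hx3, hx4⟩ : ∃ x, x ≤ v.1 ∧ v.1 ≤ x + 4 ∧ 2 * (c - q) + i ≤ x ∧
        x + 4 ≤ 2 * (c + q) + i + 1 := by
      by_cases h4 : v.1 + 4 ≤ 2 * (c + q) + i + 1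
      · exact ⟨v.1, le_rfl, by omega, by omega, h4⟩
      · exact ⟨v.1 - 4, by omega, by omega, by omega, by omega⟩
    obtain ⟨y, hy1, hy2, hy3, hy4⟩ : ∃ y, y ≤ v.2 ∧ v.2 ≤ y + 4 ∧ o₂.2 - q ≤ y ∧
        y + 4 ≤ o₂.2 + q := by
      by_cases h4 : v.2 + 4 ≤ o₂.2 + q
      · exact ⟨v.2, le_rfl, by omega, by omega, h4⟩
      · exact ⟨v.2 - 4, by omega, by omega, by omega, by omega⟩
    refine ⟨x, y, ⟨hx1, hx2, hy1, hy2⟩, ?_⟩
    intro p p1 p2 p3 p4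
    have hXp : Xc i A₀ p = (p.1 - i) / 2 := by
      unfold Xc
      omega
    rw [mWd]
    refine ⟨?_, hUy _ (by omega) (by omega), o, ho, ?_⟩
    · rw [hXp]
      exact hUc _ (by omega) (by omega)
    · rw [← h3]
      refine Prod.ext ?_ ?_
      · rw [hG1, hG1, hXp, hXv, run U₁ _ c hUc (by omega) (by omega),
          run U₁ ((v.1 - i) / 2) c hUc a1 a2]
      · rw [hG2, hG2, run U₂ p.2 o₂.2 hUy (by omega) (by omega), run U₂ v.2 o₂.2 hUy b1 b2]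
  · -- full1
    intro α S ends hW v hv
    unfold DeepR at hv
    simp only at hv
    rw [← hA, hAX]
    refine hD.full1 ?_ ?_ ?_ (by omega)
    · intro t ht
      obtain ⟨o, ho, h1, h2⟩ := (mU₁ t).1 ht
      have := hd o ho
      omega
    · intro t ht
      obtain ⟨o, ho, h1, h2⟩ := (mU₂ t).1 ht
      have := hd o ho
      omega
    · intro p q' hpq hp hq
      rw [← hAX, hA] at hp hq
      exact hW.surj p q' hpq hp hq
  · omega
  · -- reg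
    intro v _ h1 h2 p _
    rw [hG]
    exact hD.reg (hrg v h1 h2) p
  · -- dist
    intro v v' hv hv'
    rw [Gad.mem_rct] at hv hv'
    have x1 := hXle v (by omega)
    have x2 := hXle v' (by omega)
    have f1 := gc_ge (U := U₁) (x := Xc i A₀ v) (y := Xc i A₀ v')
    have f2 := gc_ge (U := U₁) (x := Xc i A₀ v') (y := Xc i A₀ v)
    have f3 := gc_ge (U := U₂) (x := v.2) (y := v'.2)
    have f4 := gc_ge (U := U₂) (x := v'.2) (y := v.2)
    have g1 := hG1 v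
    have g2 := hG1 v'
    have g3 := hG2 v
    have g4 := hG2 v'
    have hs : ∀ s, sd (G v) (G v') = s → sd (pw i v) (pw i v') ≤ s + L := by
      intro s hs
      have h1 := (sd_le (p := G v) (q := G v') (s := s)).1 hs.le
      rw [sd_le]
      unfold pw
      simp only
      omega
    exact hs _ rfl
  · -- deep
    intro v hv d hdp
    rw [Gad.mem_rct] at hv
    have x1 := hXle v (by omega)
    unfold DeepR pw at hdp
    unfold DeepR
    simp only at hdp ⊢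
    have f1 := gc_ge (U := U₁) (x := 0) (y := Xc i A₀ v)
    have f2 := gc_ge (U := U₁) (x := Xc i A₀ v) (y := A₀ - 1)
    have f3 := gc_ge (U := U₂) (x := 0) (y := v.2)
    have f4 := gc_ge (U := U₂) (x := v.2) (y := w)
    rw [gc_zero] at f1 f3
    rw [hG1, hG2]
    rw [← hA₀] at hdp
    omega
  · -- deep'
    intro v hv d hdp
    rw [Gad.mem_rct] at hv
    have x1 := hXle v (by omega)
    unfold DeepR at hdp
    unfold DeepR pw
    simp only at hdp ⊢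
    rw [hG1, hG2] at hdp
    rw [← hA₀]
    have f1 := gc_lip (U := U₁) x1.2.2.1
    have f2 : gc U₁ (Xc i A₀ v) ≤ Xc i A₀ v := gc_le
    have f3 := gc_lip (U := U₂) (x := v.2) (y := w) (by omega)
    have f4 : gc U₂ v.2 ≤ v.2 := gc_le
    omega
  · -- kp_reg
    intro v hv h1 h2 p q' hpq hp hq hpv hqv
    have hr := hrg v h1 h2
    obtain ⟨k1, _, _⟩ := hD.edge_uniq hr hpq hpv hqv hpq hpv rfl
    rw [Gad.mem_rct] at hv
    have m1 : G v ∈ rect 0 0 a b := by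
      rw [hG, ha, hb]
      exact CrD.mem_rect (by omega)
    have m2 : G q' ∈ rect 0 0 a b := by
      have := hq.1
      rw [Gad.mem_rct] at this
      rw [hG, ha, hb]
      exact CrD.mem_rect (by omega)
    rw [← hG] at k1
    obtain ⟨p₁, q₁, g1, g2, g3, g4, g5, g6⟩ := hκ _ _ _ rfl k1 m1 m2
    have g7 : pw i p₁ = pw i v := by
      rw [hG] at g5
      exact (hD.reg hr p₁).1 g5
    rw [hG] at g6
    obtain ⟨_, g8, g9⟩ := hD.edge_uniq hr hpq hpv hqv g2 g7 g6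
    rw [hKp]
    refine ⟨G v, G q', k1, m1, m2, ?_⟩
    rw [g1, g8, g9]
  · -- quo
    intro α P _ S ends hBic hW
    rw [← hA]
    have hsurj : ∀ s ∈ E0 A, ∃ e ∈ S, ends e = s := by
      rintro s ⟨p, q', rfl, h1, h2, h3⟩
      rw [hA] at h2 h3
      exact hW.surj p q' h1 h2 h3
    have hSA : ∀ e ∈ S, ∀ v ∈ ends e, v ∈ A := by
      intro e he v hv
      obtain ⟨p, q', h1, _, h3, h4⟩ := hW.mem e he
      rw [h1, Sym2.mem_iff] at hv
      rw [hA]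
      rcases hv with rfl | rfl
      · exact h3
      · exact h4
    have hTr := trs_transfer (α := α) hW.inj hsurj hF
    have eZ : {e | e ∈ S ∧ ends e ∈ Zt} = FO (fun c => {e | e ∈ S ∧ ends e ∈ F c}) univ := by
      ext e
      rw [hZt, mem_FO]
      simp only [mem_ofPred_eq, mem_FO]
      constructor
      · rintro ⟨h1, c, hc, h2⟩
        exact ⟨c, hc, h1, h2⟩
      · rintro ⟨c, hc, h1, h2⟩
        exact ⟨h1, c, hc, h2⟩
    obtain ⟨S', hS'⟩ : ∃ S', S' = {e | e ∈ S ∧ ends e ∈ Kp} := ⟨_, rfl⟩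
    have hS'S : S' ⊆ S := by rw [hS']; exact fun e he => he.1
    have hS'A : ∀ e ∈ S', ∀ v ∈ ends e, v ∈ A := fun e he => hSA e (hS'S he)
    have hd' : ∀ c, Disjoint S' {e | e ∈ S ∧ ends e ∈ F c} := by
      intro c
      rw [Set.disjoint_left, hS']
      rintro e ⟨_, h1⟩ ⟨_, h2⟩
      refine Set.disjoint_left.1 hdisj ?_ h1
      rw [hZt, mem_FO]
      exact ⟨c, mem_univ _, h2⟩
    have hgrd : CWL.GrdU S' (fun e => (ends e).map G) (rect 0 0 a b) := by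
      rw [hS']
      refine ⟨?_, ?_, ?_⟩
      · rintro e ⟨he, heK⟩ e' ⟨he', heK'⟩ hee
        change (ends e).map G = (ends e').map G at hee
        obtain ⟨c, c', p, q', h1, h2, h3, h4, h5, h6, h7, h8, h9, h10⟩ := hKmem _ heK
        obtain ⟨d, d', p', q'', k1, k2, k3, k4, k5, k6, k7, k8, k9, k10⟩ := hKmem _ heK'
        rw [h5, k5, Sym2.map_mk, Sym2.map_mk, h9, h10, k9, k10] at hee
        refine hW.inj he he' ?_
        rw [h4, k4, hee]
      · rintro e ⟨he, heK⟩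
        obtain ⟨c, c', p, q', h1, h2, h3, h4, h5, h6, h7, h8, h9, h10⟩ := hKmem _ heK
        refine ⟨c, c', ?_, h1, h2, h3⟩
        rw [h5, Sym2.map_mk, h9, h10]
      · intro c c' h1 h2 h3
        obtain ⟨p, q', g1, g2, g3, g4, g5, g6⟩ := hκ _ c c' rfl h1 h2 h3
        rw [hA] at g3 g4
        obtain ⟨e, he, hee⟩ := hW.surj p q' g2 g3 g4
        refine ⟨e, ⟨he, ?_⟩, ?_⟩
        · rw [hKp]
          exact ⟨c, c', h1, h2, h3, by rw [hee, g1]⟩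
        · rw [hee, Sym2.map_mk, g5, g6]
    have hGA : ∀ v ∈ A, G v ∈ rect 0 0 a b := by
      intro v hv
      rw [hA] at hv
      have := hv.1
      rw [Gad.mem_rct] at this
      rw [hG, ha, hb]
      exact CrD.mem_rect (by omega)
    have hpres : ∀ T : Set (ℕ × ℕ), Gad.Pres S' (fun e => (ends e).map G) (rect 0 0 a b \ T) := by
      intro T p q' hpq hp hq
      exact hgrd.surj p q' (adj_of_Adj hpq) hp.1 hq.1
    have hab : 6 ≤ a ∧ 6 ≤ b := by omega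
    have hful0 : ∃ F₀, FullB S' (fun e => (ends e).map G) (rect 0 0 a b) F₀ := by
      have := full_holes (hpres ∅) hab.1 hab.2 (by simp) (by simp)
      rwa [sdiff_empty] at this
    have hful : ∀ c, DeepR (0, 0) a b 10 c →
        ∃ F₀, FullB S' (fun e => (ends e).map G) (rect 0 0 a b \ {c}) F₀ := by
      intro c hc
      unfold DeepR at hc
      simp only at hc
      refine full_holes (hpres {c}) hab.1 hab.2 ?_ ?_
      · rintro t rfl
        omega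
      · rintro t₁ rfl t₂ h1 t₃ _ h2 _ _ _ _ _
        exact h2 h1.symm
    rw [eZ]
    refine ⟨?_, ?_, ?_, ?_, ?_, ?_⟩
    · rw [← hS']
      exact bic_arbs hBic hTr hS'S hS'A hd'
    · rw [← hS']
      exact hgrd
    · obtain ⟨F₀, hF₀⟩ := hful0
      rw [← hS']
      have h1 := hTr.closure_full hBic hS'S hS'A hd' hF₀
        (X := S' ∪ FO (fun c => {e | e ∈ S ∧ ends e ∈ F c}) univ)
        (union_subset_union (fun e he => (hF₀.1 he).1) (fun e he => by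
          obtain ⟨c, _, hc⟩ := mem_FO.1 he
          exact mem_FO.2 ⟨c, mem_univ _, hc⟩))
      refine Subset.trans ?_ h1
      intro e he
      exact ⟨he, fun v hv => ⟨hSA e he v hv, hGA v (hSA e he v hv)⟩⟩
    · have h1 : VConn S' (fun e => (ends e).map G) (rect 0 0 a b) := by
        have h2 := hpres ∅
        rw [sdiff_empty] at h2
        exact (Gad.rect_conn (by omega) (by omega)).vconn h2 (Subset.refl _)
      have h2 := vconn_over (S := S) (ends := ends) (A := A) (G := G) (Q := rect 0 0 a b) (S' := S')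
        (fun c _ => by
          rw [hG, hAX]
          refine hD.conn (S := S) (ends := ends) ?_ c
          intro p q' hpq hp hq
          rw [← hAX, hA] at hp hq
          exact hW.surj p q' hpq hp hq) hS'S hS'A h1
      have e1 : {v | v ∈ A ∧ G v ∈ rect 0 0 a b} = A := by
        ext v
        exact ⟨fun h => h.1, fun h => ⟨h, hGA v h⟩⟩
      rwa [e1] at h2
    · intro c hc
      obtain ⟨F₀, hF₀⟩ := hful c hc
      have h1 := hTr.full hS'S hS'A hd' hF₀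
      have e1 : {v | v ∈ A ∧ G v ∈ rect 0 0 a b \ {c}} =
          {v | v ∈ A ∧ G v ≠ c} := by
        ext v
        exact ⟨fun h => ⟨h.1, h.2.2⟩, fun h => ⟨h.1, hGA v h.1, h.2⟩⟩
      rw [e1] at h1
      exact ⟨_, h1⟩
    · intro c hc
      obtain ⟨F₀, hF₀⟩ := hful c hc
      have h1 := hTr.closure_full hBic hS'S hS'A hd' hF₀
        (X := {e | (e ∈ S ∧ ends e ∈ Kp) ∧ ∀ v ∈ ends e, G v ≠ c} ∪
          FO (fun c => {e | e ∈ S ∧ ends e ∈ F c}) univ)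
        (union_subset_union (fun e he => by
          have h2 := hF₀.1 he
          have h3 := h2.1
          rw [hS'] at h3
          refine ⟨h3, fun v hv hvc => ?_⟩
          exact (h2.2 (G v) (Sym2.mem_map.2 ⟨v, hv, rfl⟩)).2 hvc) (fun e he => by
          obtain ⟨c, _, hc⟩ := mem_FO.1 he
          exact mem_FO.2 ⟨c, mem_univ _, hc⟩))
      refine Subset.trans ?_ h1
      rintro e ⟨he, hec⟩
      exact ⟨he, fun v hv => ⟨hSA e he v hv, hGA v (hSA e he v hv), hec v hv⟩⟩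

end DA
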