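import Pool.Agent.DA.RWal

/-!
# Row CROSS of T-star: a brick wall with holes and a full plain rectangle, by contraction (definitions)

`Om`: at most `h` deep vertices. The holes `Wd` contain the balls of radius `q` around `Om` and are
contained in the balls of radius `L`. The classes of `G` are connected in the wall without holes;
far from the two lines through every `o ∈ Om` they are the blobs of the matching `i`.
(Idea: aligned windows `I_a x J_b`, all columns of `I_a` + one more pair are merged, all rows of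
`J_b` + one more row are merged; the block `I_a x J_b` without its window is an L and is the vertex
which fills the hole.)
-/

open Set BIC BICS
open scoped Matroid

namespace DA

open Gad

universe u

/-- one element for every edge of the brick wall on `[0, w] × [0, w]` without the vertices `Wd` -/
structure WallH {α : Type*} (S : Set α) (ends : α → Sym2 (ℕ × ℕ)) (w : ℕ) (Wd : Set (ℕ × ℕ)) :
    Prop where
  inj : InjOn ends S
  mem : ∀ e ∈ S, ∃ p q, ends e = s(p, q) ∧ wadj p q ∧ p ∈ rect 0 0 (w + 1) (w + 1) \ Wd ∧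
    q ∈ rect 0 0 (w + 1) (w + 1) \ Wd
  surj : ∀ p q, wadj p q → p ∈ rect 0 0 (w + 1) (w + 1) \ Wd →
    q ∈ rect 0 0 (w + 1) (w + 1) \ Wd → ∃ e ∈ S, ends e = s(p, q)

/-- `v` is far from the lines through the points of `Om` -/
def OffL (L : ℕ) (Om : Finset (ℕ × ℕ)) (v : ℕ × ℕ) : Prop :=
  ∀ o ∈ Om, (v.1 + L < o.1 ∨ o.1 + L < v.1) ∧ (v.2 + L < o.2 ∨ o.2 + L < v.2)

structure Crs (w i q L a b : ℕ) (Om : Finset (ℕ × ℕ)) (Wd : Set (ℕ × ℕ)) (G : ℕ × ℕ → ℕ × ℕ)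
    (Zt Kp : Set (Sym2 (ℕ × ℕ))) : Prop where
  win : ∀ v, (∃ o ∈ Om, sd v o ≤ q) → v ∈ Wd
  win' : ∀ v ∈ Wd, ∃ o ∈ Om, sd v o ≤ L
  /-- every vertex of the holes lies in a window of side 4 inside of the holes -/
  win4 : 4 ≤ q → ∀ v ∈ Wd, ∃ x y : ℕ, (x ≤ v.1 ∧ v.1 ≤ x + 4 ∧ y ≤ v.2 ∧ v.2 ≤ y + 4) ∧
    ∀ p : ℕ × ℕ, x ≤ p.1 → p.1 ≤ x + 4 → y ≤ p.2 → p.2 ≤ y + 4 → p ∈ Wd
  /-- the wall without holes and without one deep vertex is full -/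
  full1 : ∀ {α : Type u} (S : Set α) (ends : α → Sym2 (ℕ × ℕ)), WallH S ends w Wd →
    ∀ v, DeepR (0, 0) (w + 1) (w + 1) 4 v →
      ∃ F, FullB S ends ((rect 0 0 (w + 1) (w + 1) \ Wd) \ {v}) F
  a_le : a ≤ b
  -- regular vertices
  reg : ∀ v ∈ rect 0 0 (w + 1) (w + 1), DeepR (0, 0) (w + 1) (w + 1) 4 v → OffL L Om v →
    ∀ p ∈ rect 0 0 (w + 1) (w + 1) \ Wd, (G p = G v ↔ pw i p = pw i v)
  dist : ∀ v v', v ∈ rect 0 0 (w + 1) (w + 1) → v' ∈ rect 0 0 (w + 1) (w + 1) →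
    sd (pw i v) (pw i v') ≤ sd (G v) (G v') + L
  deep : ∀ v ∈ rect 0 0 (w + 1) (w + 1), ∀ d, DeepR (0, 0) ((w + 1 - i) / 2) (w + 1) (d + L)
    (pw i v) → DeepR (0, 0) a b d (G v)
  deep' : ∀ v ∈ rect 0 0 (w + 1) (w + 1), ∀ d, DeepR (0, 0) a b (d + 1) (G v) →
    DeepR (0, 0) ((w + 1 - i) / 2) (w + 1) d (pw i v)
  disj : Disjoint Zt Kp
  -- all edges which leave a regular blob are kept
  kp_reg : ∀ v ∈ rect 0 0 (w + 1) (w + 1), DeepR (0, 0) (w + 1) (w + 1) 4 v → OffL L Om v →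
    ∀ p q, wadj p q → p ∈ rect 0 0 (w + 1) (w + 1) \ Wd → q ∈ rect 0 0 (w + 1) (w + 1) \ Wd →
    pw i p = pw i v → pw i q ≠ pw i v → s(p, q) ∈ Kp
  -- the quotient
  quo : ∀ {α : Type u} (P : Matroid α) [P.Finite] (S : Set α) (ends : α → Sym2 (ℕ × ℕ)),
    Bic P S ends → WallH S ends w Wd →
    Bic (P ／ {e | e ∈ S ∧ ends e ∈ Zt}) {e | e ∈ S ∧ ends e ∈ Kp} (fun e => (ends e).map G) ∧
    CWL.GrdU {e | e ∈ S ∧ ends e ∈ Kp} (fun e => (ends e).map G) (rect 0 0 a b) ∧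
    S ⊆ P.closure ({e | e ∈ S ∧ ends e ∈ Kp} ∪ {e | e ∈ S ∧ ends e ∈ Zt}) ∧
    VConn S ends (rect 0 0 (w + 1) (w + 1) \ Wd) ∧
    -- the wall without a class is full
    (∀ c, DeepR (0, 0) a b 10 c → ∃ F, FullB S ends {v | v ∈ rect 0 0 (w + 1) (w + 1) \ Wd ∧
      G v ≠ c} F) ∧
    -- the flats of the deep vertices
    (∀ c, DeepR (0, 0) a b 10 c → ins S ends {v | G v ≠ c} ⊆
      P.closure ({e | (e ∈ S ∧ ends e ∈ Kp) ∧ ∀ v ∈ ends e, G v ≠ c} ∪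
        {e | e ∈ S ∧ ends e ∈ Zt}))

/-- **ROW CROSS.** -/
def CrossRow : Prop :=
  ∀ h q : ℕ, ∃ L : ℕ, ∀ (w i : ℕ) (Om : Finset (ℕ × ℕ)), i ≤ 1 → L ≤ w → Om.card ≤ h →
    (∀ o ∈ Om, DeepR (0, 0) (w + 1) (w + 1) L o) →
    ∃ (a b : ℕ) (Wd : Set (ℕ × ℕ)) (G : ℕ × ℕ → ℕ × ℕ) (Zt Kp : Set (Sym2 (ℕ × ℕ))),
      Crs.{u} w i q L a b Om Wd G Zt Kp

end DA
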