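import Pool.Agent.DA.HealXK

/-!
# LWal and HealX for larger windows

Windows = squares around a bounded set of given vertices, together with the windows of KILL.
-/

open Set BIC BICS
open scoped Matroid

namespace DA

open CWL TST Gad

universe u

section

variable {α : Type u} {M N : Matroid α} {w u : ℕ} {L : Bool × ℕ × ℕ → List α}
  {f : α → Sym2 ((ℕ × ℕ) ⊕ α)} {e : Bool × ℕ × ℕ → α} {row : α → Sym2 (ℕ × ℕ)}

/-- **LWal for every set of rows without 2-cycles which contains the windows of KILL.** -/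
theorem GSide.lwal_gen [M.Finite] [N.Finite] (h : GSide M (Seg w) L f e u)
    (hN : Bic N (crr L (Seg w)) f) {J : Finset (ℕ × ℕ)}
    (hk : ∀ B, crr L (Wn J) ⊆ B → B ⊆ crr L (Seg w) → ∀ X ⊆ crr L (Seg w),
      rk M (X ∪ B) + rk N B = rk N (X ∪ B) + rk M B)
    (hrow : ∀ s ∈ Seg w, ∀ x ∈ L s, row x = srow s) {Z : Set (Bool × ℕ × ℕ)} (hJZ : Wn J ⊆ Z)
    (hZ : Z ⊆ Seg w) (hnb : NB Z (VS Z)) {Hs : Finset (ℕ × ℕ)}
    (hHs : (Hs : Set (ℕ × ℕ)) = VS Z) (hcol : ∀ v ∈ Hs, ∃ a ≤ w, (a, v.2) ∉ Hs) :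
    LWal M (crr L (Seg w)) row w Hs := by
  classical
  refine ⟨h.sub_ground, ?_, ?_, ?_, ?_⟩
  · rintro x ⟨s, hs, hx⟩
    obtain ⟨h1, h2, h3⟩ := wadj_srow hs
    exact ⟨_, _, hrow s hs x hx, h1, h2, h3⟩
  · intro p q hpq hp hq
    obtain ⟨s, hs, h1⟩ := seg_of_wadj hpq hp hq
    exact ⟨e s, ⟨s, hs, h.mem_last hs⟩, by rw [hrow s hs _ (h.mem_last hs), h1]⟩
  · intro v hv
    have h1 : v ∈ VS Z := by
      rw [← hHs]
      exact hv
    obtain ⟨s, hs, h2⟩ := h1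
    obtain ⟨g1, g2, g3⟩ := wadj_srow (hZ hs)
    simp only [rect, mem_ofPred_eq] at g2 g3
    refine ⟨?_, ?_, hcol v hv⟩
    · rcases h2 with rfl | rfl <;> omega
    · rcases h2 with rfl | rfl <;> omega
  · intro c hc hcW
    have hB1 := GSide.bic_rep h hN hrow hc hcW
    have hf : (N ／ (crr L (Seg w) \ c)).Finite := BQ.fin_contract _
    obtain ⟨nb, hnb⟩ := hnb
    obtain ⟨F, hF⟩ : ∃ F, FullB c row (Hs : Set (ℕ × ℕ)) F := by
      refine full_of_nb nb ?_ ?_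
      · intro v hv
        rw [hHs] at hv ⊢
        obtain ⟨h1, ⟨s, hs, h2⟩, _⟩ := hnb v hv
        refine ⟨h1, ?_⟩
        obtain ⟨g1, g2, g3⟩ := wadj_srow (hZ hs)
        obtain ⟨x, hx, hxr⟩ := hcW.surj _ _ g1 g2 g3 (Set.notMem_empty _)
        exact ⟨x, hx, by rw [hxr, h2]⟩
      · intro v hv
        rw [hHs] at hv
        exact (hnb v hv).2.2
    have hB2 := bic_ground hB1 hF
    rw [Matroid.contract_contract] at hB2
    refine bic_of_kill (R := crr L (Seg w)) h.sub_ground hN.sub ?_ ?_ ?_ hB2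
    · rintro x (hx | hx)
      · exact hx.1
      · exact hc hx.1
    · rintro x ⟨hx, v, hv, hvH⟩
      refine ⟨hc hx, ?_⟩
      rintro (h1 | h1)
      · exact h1.2 hx
      · exact hvH (h1.2 v hv)
    · refine hk _ ?_ ?_
      · rintro x ⟨s, hs, hx⟩
        by_cases hxc : x ∈ c
        · refine Or.inr ⟨hxc, fun v hv => ?_⟩
          rw [hrow s (hZ (hJZ hs)) x hx] at hv
          rw [← Finset.mem_coe, hHs]
          refine ⟨s, hJZ hs, ?_⟩
          unfold srow at hv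
          rwa [Sym2.mem_iff] at hv
        · exact Or.inl ⟨⟨s, hZ (hJZ hs), hx⟩, hxc⟩
      · rintro x (hx | hx)
        · exact hx.1
        · exact hc hx.1

/-- the squares of side `R` at the positions of `J` -/
def Wq (R : ℕ) (J : Finset (ℕ × ℕ)) : Set (Bool × ℕ × ℕ) :=
  {s | ∃ j ∈ J, s ∈ Rg j.1 (j.1 + R) j.2 (j.2 + R)}

lemma nb_wq {R : ℕ} (hR : 3 ≤ R) (J : Finset (ℕ × ℕ)) : NB (Wq R J) (VS (Wq R J)) := by
  classical
  induction J using Finset.induction_on with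
  | empty =>
    have e1 : Wq R (∅ : Finset (ℕ × ℕ)) = ∅ := by
      ext s
      simp [Wq]
    rw [e1, vs_empty]
    exact nb_empty _
  | insert j J hj ih =>
    have e1 : Wq R (insert j J) = Rg j.1 (j.1 + R) j.2 (j.2 + R) ∪ Wq R J := by
      ext s
      simp [Wq]
    rw [e1, vs_union]
    exact ((nb_rg (by omega) (by omega)).mono subset_union_left).union
      (ih.mono subset_union_right)

/-- the vertices of the squares -/
lemma mem_vs_wq {R : ℕ} (hR : 1 ≤ R) {J : Finset (ℕ × ℕ)} {v : ℕ × ℕ} : v ∈ VS (Wq R J) ↔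
    ∃ j ∈ J, j.1 ≤ v.1 ∧ v.1 ≤ j.1 + R ∧ j.2 ≤ v.2 ∧ v.2 ≤ j.2 + R := by
  constructor
  · rintro ⟨s, ⟨j, hj, hs⟩, h6⟩
    have h5 : v ∈ VS (Rg j.1 (j.1 + R) j.2 (j.2 + R)) := ⟨s, hs, h6⟩
    rw [vs_rg (by omega)] at h5
    exact ⟨j, hj, h5.1, h5.2.1, h5.2.2.1, h5.2.2.2⟩
  · rintro ⟨j, hj, h1, h2, h3, h4⟩
    have h5 : v ∈ VS (Rg j.1 (j.1 + R) j.2 (j.2 + R)) := by
      rw [vs_rg (by omega)]
      exact ⟨h1, h2, h3, h4⟩
    obtain ⟨s, hs, h6⟩ := h5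
    exact ⟨s, ⟨j, hj, hs⟩, h6⟩

/-- **LWal and HealX from a clean side**, windows = squares around the vertices of `X₀` and the
windows of KILL. -/
theorem GSide.healXB [M.Finite] {r : ℕ} (hr : 4 ≤ r) (h : GSide M (Seg w) L f e u)
    (X₀ : Finset (ℕ × ℕ)) (hw4 : 2 * r ≤ w) (hw : (2 * r + 1) * (u + X₀.card) ≤ w)
    (hrow : ∀ s ∈ Seg w, ∀ x ∈ L s, row x = srow s) :
    ∃ Hs : Finset (ℕ × ℕ), Hs.card ≤ (u + X₀.card) * ((2 * r + 1) * (2 * r + 1)) ∧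
      (∀ p ∈ X₀, ∀ v : ℕ × ℕ, v.1 ≤ w → v.2 ≤ w → sd v p ≤ r → v ∈ Hs) ∧
      LWal M (crr L (Seg w)) row w Hs ∧ HealX M (crr L (Seg w)) row w Hs := by
  classical
  obtain ⟨N, J, hNf, hN, _, hJu, hJ, hk⟩ := h.kill (by omega)
  obtain ⟨cl, hcl⟩ : ∃ cl : ℕ × ℕ → ℕ × ℕ, ∀ p, cl p =
      (min (p.1 - r) (w - 2 * r), min (p.2 - r) (w - 2 * r)) := ⟨_, fun _ => rfl⟩
  obtain ⟨J', hJ'⟩ : ∃ J' : Finset (ℕ × ℕ), J' = (J ∪ X₀).image cl := ⟨_, rfl⟩
  have hJ'c : J'.card ≤ u + X₀.card := by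
    rw [hJ']
    exact Finset.card_image_le.trans ((Finset.card_union_le _ _).trans (by omega))
  have hJ'w : ∀ j ∈ J', j.1 + 2 * r ≤ w ∧ j.2 + 2 * r ≤ w := by
    intro j hj
    rw [hJ', Finset.mem_image] at hj
    obtain ⟨p, _, rfl⟩ := hj
    rw [hcl]
    simp only
    omega
  -- the vertices
  obtain ⟨Hs, hHm⟩ : ∃ Hs : Finset (ℕ × ℕ), ∀ v, v ∈ Hs ↔
      ∃ j ∈ J', j.1 ≤ v.1 ∧ v.1 ≤ j.1 + 2 * r ∧ j.2 ≤ v.2 ∧ v.2 ≤ j.2 + 2 * r := by
    refine ⟨J'.biUnion fun j => Finset.Icc j.1 (j.1 + 2 * r) ×ˢ Finset.Icc j.2 (j.2 + 2 * r), ?_⟩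
    intro v
    rw [Finset.mem_biUnion]
    simp only [Finset.mem_product, Finset.mem_Icc]
    constructor
    · rintro ⟨j, hj, h1, h2⟩
      exact ⟨j, hj, h1.1, h1.2, h2.1, h2.2⟩
    · rintro ⟨j, hj, h1, h2, h3, h4⟩
      exact ⟨j, hj, ⟨h1, h2⟩, h3, h4⟩
  have hHc : Hs.card ≤ (u + X₀.card) * ((2 * r + 1) * (2 * r + 1)) := by
    have h1 : Hs ⊆ J'.biUnion fun j => Finset.Icc j.1 (j.1 + 2 * r) ×ˢ
        Finset.Icc j.2 (j.2 + 2 * r) := by
      intro v hv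
      obtain ⟨j, hj, h1, h2, h3, h4⟩ := (hHm v).1 hv
      rw [Finset.mem_biUnion]
      simp only [Finset.mem_product, Finset.mem_Icc]
      exact ⟨j, hj, ⟨h1, h2⟩, h3, h4⟩
    refine (Finset.card_le_card h1).trans ((Finset.card_biUnion_le_card_mul _ _
      ((2 * r + 1) * (2 * r + 1)) ?_).trans (Nat.mul_le_mul_right _ hJ'c))
    intro j _
    rw [Finset.card_product, Nat.card_Icc, Nat.card_Icc]
    have h2 : j.1 + 2 * r + 1 - j.1 = 2 * r + 1 := by omega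
    have h3 : j.2 + 2 * r + 1 - j.2 = 2 * r + 1 := by omega
    rw [h2, h3]
  have hJZ : Wn J ⊆ Wq (2 * r) J' := by
    rintro ⟨t, a, b⟩ ⟨j, hj, hs⟩
    have hjw := hJ j hj
    refine ⟨cl j, by rw [hJ']; exact Finset.mem_image_of_mem _ (Finset.mem_union_left _ hj), ?_⟩
    rw [hcl]
    cases t <;> simp only [Rg, mem_ofPred_eq, Bool.false_eq_true, false_and, true_and, or_false,
      false_or, reduceCtorEq] at hs ⊢ <;> omega
  have hZ : Wq (2 * r) J' ⊆ Seg w := by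
    rintro s ⟨j, hj, hs⟩
    exact rg_sub (hJ'w j hj).1 (hJ'w j hj).2 hs
  have hHZ : (Hs : Set (ℕ × ℕ)) = VS (Wq (2 * r) J') := by
    ext v
    rw [Finset.mem_coe, hHm, mem_vs_wq (by omega)]
  have hcol : ∀ v ∈ Hs, ∃ a ≤ w, (a, v.2) ∉ Hs := by
    intro v _
    by_contra hcon
    push Not at hcon
    have h6 : Finset.range (w + 1) ⊆ J'.biUnion fun j => Finset.Icc j.1 (j.1 + 2 * r) := by
      intro a ha
      rw [Finset.mem_range] at ha
      obtain ⟨j', hj', g1, g2, _⟩ := (hHm _).1 (hcon a (by omega))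
      rw [Finset.mem_biUnion]
      exact ⟨j', hj', Finset.mem_Icc.2 ⟨g1, g2⟩⟩
    have h7 := (Finset.card_le_card h6).trans (Finset.card_biUnion_le_card_mul _ _
      (2 * r + 1) (fun j _ => by rw [Nat.card_Icc]; omega))
    rw [Finset.card_range] at h7
    have h8 : J'.card * (2 * r + 1) ≤ (2 * r + 1) * (u + X₀.card) := by
      rw [Nat.mul_comm]
      exact Nat.mul_le_mul_left _ hJ'c
    omega
  have hL := GSide.lwal_gen h hN hk hrow hJZ hZ (nb_wq (by omega) J') hHZ hcol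
  refine ⟨Hs, hHc, ?_, hL, hL.healX (GSide.serC h hrow)⟩
  intro p hp v hv1 hv2 hvp
  rw [hHm]
  refine ⟨cl p, by rw [hJ']; exact Finset.mem_image_of_mem _ (Finset.mem_union_right _ hp), ?_⟩
  rw [sd_le] at hvp
  rw [hcl]
  simp only
  omega

end

end DA
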