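import Pool.Agent.DA.RowRel
import Pool.Agent.DA.FullZ

/-!
# The ends of rows and stars span; transport to walls with windows (T-star, helper33)
-/

open Set BIC BICS
open scoped Matroid

namespace DA

open Gad TST

universe u v

section rwx

variable {α : Type*} {P : Matroid α} {S : Set α} {row : α → Sym2 (ℕ × ℕ)} {w : ℕ} {u v : ℕ × ℕ}
  {c : Set α} {o₁ o₂ o₃ y : α}

/-- the wall without one row and some of its ends is full -/
lemma full_row {c : Set α} (hW : WallE c row w ∅) (huv : wadj u v)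
    (hu : DeepR (0, 0) (w + 1) (w + 1) 20 u) {T' : Set (ℕ × ℕ)} (hT' : T' ⊆ {u, v}) :
    ∃ F, FullB {f | f ∈ c ∧ row f ∉ ({s(u, v)} : Set (Sym2 (ℕ × ℕ)))} row
      (rect 0 0 (w + 1) (w + 1) \ (∅ ∪ T')) F := by
  unfold DeepR at hu
  simp only at hu
  have hsd := wadj_sd huv
  have hsu : sd u u ≤ 1 := by
    rw [sd_le]
    omega
  refine full_local hW (o := u) (ρ := 8) (by omega) ?_ ?_ ?_
  · intro p q h1
    rw [mem_singleton_iff, Sym2.eq_iff] at h1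
    rcases h1 with ⟨rfl, rfl⟩ | ⟨rfl, rfl⟩
    · exact ⟨by omega, by omega⟩
    · exact ⟨by omega, by omega⟩
  · rintro x (hx | hx)
    · exact absurd hx (notMem_empty _)
    · rcases hT' hx with rfl | rfl
      · omega
      · omega
  · intro x y hxy hxyT
    rw [empty_union] at hxyT ⊢
    refine row_esc huv (Or.inl hT') x y ?_ hxyT
    rw [sd_le] at hxy
    simp only at hxy
    omega

/-- **SPAN for rows.** -/
theorem RWx.span_row [P.Finite] (hG : RWx P S row w) (huv : wadj u v)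
    (hu : DeepR (0, 0) (w + 1) (w + 1) 20 u) (hc : c ⊆ S) (hW : WallE c row w ∅)
    (h₁ : o₁ ∈ c ∧ u ∈ row o₁ ∧ v ∉ row o₁) (h₂ : o₂ ∈ c ∧ v ∈ row o₂ ∧ u ∉ row o₂)
    (hy : y ∈ c) (huy : u ∈ row y) (hvy : v ∉ row y) :
    y ∈ P.closure (insert o₁ (FRow S row c u v)) := by
  classical
  have hne : u ≠ v := by
    rintro rfl
    have := wadj_par' huv
    omega
  obtain ⟨e, e1, e2, he⟩ := row_ends hne h₁ h₂
  have hAm : ∀ x, x ∈ ({u, v} : Finset (ℕ × ℕ)) ↔ x = u ∨ x = v := by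
    intro x
    simp only [Finset.mem_insert, Finset.mem_singleton]
  have hrect : ∀ x : ℕ × ℕ, sd x u ≤ 1 → x ∈ rect 0 0 (w + 1) (w + 1) := by
    intro x hx
    unfold DeepR at hu
    simp only at hu
    rw [sd_le] at hx
    rw [Gad.mem_rct]
    omega
  have h1 := ends_span hG hc hW (ω := {s(u, v)}) (T₀ := ∅) (A := {u, v}) (A' := {u})
    (by
      intro f _ x hx
      exact absurd hx (notMem_empty _))
    (fun a _ => notMem_empty _)
    (by
      rintro x (hx | hx)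
      · exact absurd hx (notMem_empty _)
      · rcases (hAm x).1 hx with rfl | rfl
        · exact hrect _ (by rw [sd_le]; omega)
        · exact hrect _ (wadj_sd huv).2)
    (fun T' hT' => full_row hW huv hu (by
      intro x hx
      have h2 := hT' hx
      rw [Finset.mem_coe, hAm] at h2
      exact h2)) he (Finset.singleton_subset_iff.2 ((hAm u).2 (Or.inl rfl)))
  have h2 := h1 (show y ∈ (S \ {f | row f ∈ ({s(u, v)} : Set (Sym2 (ℕ × ℕ)))}) \
    {f | f ∈ c ∧ ∃ a ∈ ({u, v} : Finset (ℕ × ℕ)), a ∉ ({u} : Finset (ℕ × ℕ)) ∧ a ∈ row f} from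
    ⟨⟨hc hy, fun h3 => hvy (by
      rw [mem_ofPred_eq, mem_singleton_iff] at h3
      rw [h3]
      exact Sym2.mem_mk_right _ _)⟩, by
      rintro ⟨_, a, ha, hau, hay⟩
      rcases (hAm a).1 ha with rfl | rfl
      · exact hau (Finset.mem_singleton_self _)
      · exact hvy hay⟩)
  rw [← frow_eq, Finset.coe_singleton, image_singleton, e1, union_singleton] at h2
  exact h2

/-- **SPAN for stars.** -/
theorem RWx.span_star [P.Finite] (hG : RWx P S row w) {v₁ v₂ v₃ : ℕ × ℕ} (hnb : Nb3 u v₁ v₂ v₃)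
    (hu : DeepR (0, 0) (w + 1) (w + 1) 20 u) (hc : c ⊆ S) (hW : WallE c row w ∅)
    (h₁ : o₁ ∈ c ∧ v₁ ∈ row o₁ ∧ u ∉ row o₁) (h₂ : o₂ ∈ c ∧ v₂ ∈ row o₂ ∧ u ∉ row o₂)
    (h₃ : o₃ ∈ c ∧ v₃ ∈ row o₃ ∧ u ∉ row o₃) (hy : y ∈ c) (huy : u ∉ row y) :
    (v₁ ∈ row y → y ∈ P.closure (insert o₁ (FStar S row c u v₁ v₂ v₃))) ∧
    (v₂ ∈ row y → y ∈ P.closure (insert o₂ (FStar S row c u v₁ v₂ v₃))) ∧
    (v₃ ∈ row y → y ∈ P.closure (insert o₃ (FStar S row c u v₁ v₂ v₃))) := by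
  classical
  obtain ⟨e, e1, e2, e3, he⟩ := star_ends hnb hW h₁ h₂ h₃
  have hmem : ∀ f ∈ S, ∃ p q, row f = s(p, q) ∧ wadj p q := by
    intro f hf
    obtain ⟨p, q, h1, h2, _⟩ := hG.mem f hf
    exact ⟨p, q, h1, h2⟩
  have hAm : ∀ v, v ∈ ({v₁, v₂, v₃} : Finset (ℕ × ℕ)) ↔ v = v₁ ∨ v = v₂ ∨ v = v₃ := by
    intro v
    simp only [Finset.mem_insert, Finset.mem_singleton]
  have hAadj : ∀ a ∈ ({v₁, v₂, v₃} : Finset (ℕ × ℕ)), wadj u a := by
    intro a ha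
    rcases (hAm a).1 ha with rfl | rfl | rfl
    exacts [hnb.1, hnb.2.1, hnb.2.2.1]
  have hud := hu
  unfold DeepR at hud
  simp only at hud
  have hu1 : 1 ≤ u.1 ∧ 1 ≤ u.2 := by omega
  have hrect : ∀ x : ℕ × ℕ, sd x u ≤ 1 → x ∈ rect 0 0 (w + 1) (w + 1) := by
    intro x hx
    rw [sd_le] at hx
    rw [Gad.mem_rct]
    omega
  have hne : ∀ q, wadj u q → q ≠ u := by
    rintro q hq rfl
    have := wadj_par' hq
    omega
  have hfull : ∀ T' : Set (ℕ × ℕ), T' ⊆ (({v₁, v₂, v₃} : Finset (ℕ × ℕ)) : Set (ℕ × ℕ)) →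
      ∃ F, FullB {f | f ∈ c ∧ row f ∉ ωS u} row (rect 0 0 (w + 1) (w + 1) \ ({u} ∪ T')) F := by
    intro T' hT'
    have hT1 : ∀ v ∈ ({u} ∪ T' : Set (ℕ × ℕ)), sd v u ≤ 1 := by
      rintro v (hv | hv)
      · rw [mem_singleton_iff.1 hv, sd_le]
        omega
      · have h2 := hT' hv
        rw [Finset.mem_coe] at h2
        exact (wadj_sd (hAadj v h2)).2
    refine full_local hW (o := u) (ρ := 8) (by omega) ?_ ?_ ?_
    · rintro p q ⟨v, h1, h2⟩
      have h3 := wadj_sd h1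
      have hsu : sd u u ≤ 1 := by
        rw [sd_le]
        omega
      rw [Sym2.eq_iff] at h2
      rcases h2 with ⟨rfl, rfl⟩ | ⟨rfl, rfl⟩
      · exact ⟨by omega, by omega⟩
      · exact ⟨by omega, by omega⟩
    · intro v hv
      have := hT1 v hv
      omega
    · intro x y hxy hxyT
      have hy1 : 1 ≤ y := by
        rw [sd_le] at hxy
        simp only at hxy
        omega
      have h1 := star_esc (x₀ := u.1) (y₀ := u.2) hu1 (T := {u} ∪ T') ?_ (Or.inl rfl) x y hy1 hxyT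
      · rcases h1 with h1 | h1 | ⟨h1, h2, h3⟩
        · exact Or.inl (h1.mono fun a ha => ωS_sub ha)
        · exact Or.inr (Or.inl (h1.mono fun a ha => ωS_sub ha))
        · exact Or.inr (Or.inr ⟨fun h4 => h1 (ωS_sub h4), h2, h3.mono fun a ha => ωS_sub ha⟩)
      · left
        rintro v (hv | hv)
        · rw [mem_singleton_iff] at hv
          subst hv
          unfold star
          simp
        · have h2 := hT' hv
          rw [Finset.mem_coe] at h2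
          have h3 := wadj_nb hu1 (hAadj v h2)
          unfold star
          rcases h3 with rfl | rfl | rfl
          · simp
          · simp
          · unfold vn
            split_ifs <;> simp
  have hkey : ∀ a ∈ ({v₁, v₂, v₃} : Finset (ℕ × ℕ)), a ∈ row y →
      y ∈ P.closure (insert (e a) (FStar S row c u v₁ v₂ v₃)) := by
    intro a ha hay
    have h1 := ends_span hG hc hW (ω := ωS u) (T₀ := {u}) (A := {v₁, v₂, v₃}) (A' := {a})
      (by
        intro f hf v hv hvf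
        rw [mem_singleton_iff] at hv
        subst hv
        obtain ⟨p, q, hpq, hw⟩ := hmem f hf
        rw [hpq] at hvf ⊢
        rw [mem_ωS hw]
        rw [Sym2.mem_iff] at hvf
        rcases hvf with h4 | h4
        · exact Or.inl h4.symm
        · exact Or.inr h4.symm)
      (by
        intro b hb h2
        exact hne b (hAadj b hb) h2)
      (by
        rintro x (hx | hx)
        · rw [mem_singleton_iff.1 hx]
          exact hrect _ (by rw [sd_le]; omega)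
        · exact hrect _ (wadj_sd (hAadj x hx)).2)
      hfull he (Finset.singleton_subset_iff.2 ha)
    have h2 := h1 (show y ∈ (S \ {f | row f ∈ ωS u}) \
      {f | f ∈ c ∧ ∃ b ∈ ({v₁, v₂, v₃} : Finset (ℕ × ℕ)), b ∉ ({a} : Finset (ℕ × ℕ)) ∧
        b ∈ row f} from ⟨⟨hc hy, fun h3 => huy (ωS_sub h3)⟩, by
        rintro ⟨_, b, hb, hba, hby⟩
        obtain ⟨p, q, hpq, hw⟩ := hmem y (hc hy)
        rw [hpq, Sym2.mem_iff] at hay hby
        have k1 := wadj_par' (hAadj a ha)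
        have k2 := wadj_par' (hAadj b hb)
        have k3 := wadj_par' hw
        have hba' : b ≠ a := fun h4 => hba (Finset.mem_singleton.2 h4)
        rcases hay with rfl | rfl <;> rcases hby with rfl | rfl
        · exact hba' rfl
        · omega
        · omega
        · exact hba' rfl⟩)
    rw [← fstar_eq hmem, Finset.coe_singleton, image_singleton, union_singleton] at h2
    exact h2
  refine ⟨fun h => ?_, fun h => ?_, fun h => ?_⟩
  · have := hkey v₁ ((hAm v₁).2 (Or.inl rfl)) h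
    rwa [e1] at this
  · have := hkey v₂ ((hAm v₂).2 (Or.inr (Or.inl rfl))) h
    rwa [e2] at this
  · have := hkey v₃ ((hAm v₃).2 (Or.inr (Or.inr rfl))) h
    rwa [e3] at this

end rwx

/-! ### Walls with windows -/

section healed

variable {α β : Type*} {P : Matroid α} {S : Set α} {row : α → Sym2 (ℕ × ℕ)} {w : ℕ}
  {Hs : Finset (ℕ × ℕ)} {P' : Matroid β} {j : α → β} {S' New : Set β}
  {row' : β → Sym2 (ℕ × ℕ)} {Λ : Set α} {u v : ℕ × ℕ} {c : Set α} {o₁ o₂ o₃ y : α}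

/-- a second row at a deep vertex -/
lemma two_rows {γ : Type*} {rw' : γ → Sym2 (ℕ × ℕ)} {c : Set γ} (hW : WallE c rw' w ∅)
    (hv : DeepR (0, 0) (w + 1) (w + 1) 4 v) (g : γ) : ∃ g' ∈ c, v ∈ rw' g' ∧ g' ≠ g := by
  unfold DeepR at hv
  simp only at hv
  have hm : ∀ p : ℕ × ℕ, p.1 ≤ w → p.2 ≤ w → p ∈ rect 0 0 (w + 1) (w + 1) := by
    intro p h1 h2
    rw [Gad.mem_rct]
    omega
  obtain ⟨g₁, hg₁, he₁⟩ := hW.surj v (v.1 + 1, v.2) (Or.inl ⟨rfl, Or.inl rfl⟩)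
    (hm _ (by omega) (by omega)) (hm _ (by simp only; omega) (by simp only; omega))
    (notMem_empty _)
  obtain ⟨g₂, hg₂, he₂⟩ := hW.surj v (v.1 - 1, v.2) (Or.inl ⟨rfl, Or.inr (by simp only; omega)⟩)
    (hm _ (by omega) (by omega)) (hm _ (by simp only; omega) (by simp only; omega))
    (notMem_empty _)
  by_cases h1 : g₁ = g
  · refine ⟨g₂, hg₂, by rw [he₂]; exact Sym2.mem_mk_left _ _, ?_⟩
    rintro rfl
    rw [h1] at he₁
    rw [he₁] at he₂
    have h2 : (v.1 + 1, v.2) ∈ s(v, (v.1 - 1, v.2)) := by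
      rw [← he₂]
      exact Sym2.mem_mk_right _ _
    rw [Sym2.mem_iff] at h2
    rcases h2 with h2 | h2
    · have := congrArg Prod.fst h2
      simp only at this
      omega
    · have := congrArg Prod.fst h2
      simp only at this
      omega
  · exact ⟨g₁, hg₁, by rw [he₁]; exact Sym2.mem_mk_left _ _, h1⟩

/-- an end: a representative at `v` which is not at the neighbour `u` -/
lemma exists_end {γ : Type*} {rw' : γ → Sym2 (ℕ × ℕ)} {c : Set γ} (hW : WallE c rw' w ∅)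
    (huv : wadj u v) (hv : DeepR (0, 0) (w + 1) (w + 1) 4 v) : ∃ o ∈ c, v ∈ rw' o ∧ u ∉ rw' o := by
  have hm : ∀ p : ℕ × ℕ, sd p v ≤ 1 → p ∈ rect 0 0 (w + 1) (w + 1) := by
    intro p h1
    unfold DeepR at hv
    simp only at hv
    rw [sd_le] at h1
    rw [Gad.mem_rct]
    omega
  have hne : u ≠ v := by
    rintro rfl
    have := wadj_par' huv
    omega
  obtain ⟨g, hg, hgg⟩ := hW.surj u v huv (hm _ (wadj_sd huv).1) (hm _ (by rw [sd_le]; omega))
    (notMem_empty _)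
  obtain ⟨o, ho, hvo, hog⟩ := two_rows hW hv g
  refine ⟨o, ho, hvo, fun huo => hog (hW.inj ho hg ?_)⟩
  rw [hgg]
  exact row_eq_of hne huo hvo

/-- the hypotheses at a star -/
theorem stE_of (hS : S ⊆ P.E)
    (hmem : ∀ e ∈ S, ∃ p q, row e = s(p, q) ∧ wadj p q) (hc : c ⊆ S) {V : Fin 3 → ℕ × ℕ}
    (hnb : Nb3 u (V 0) (V 1) (V 2)) (hu : 1 ≤ u.1 ∧ 1 ≤ u.2) {o : Fin 3 → α}
    (ho : ∀ i, o i ∈ c ∧ V i ∈ row (o i) ∧ u ∉ row (o i))
    (hsp : ∀ y ∈ c, u ∉ row y →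
      (V 0 ∈ row y → y ∈ P.closure (insert (o 0) (FStar S row c u (V 0) (V 1) (V 2)))) ∧
      (V 1 ∈ row y → y ∈ P.closure (insert (o 1) (FStar S row c u (V 0) (V 1) (V 2)))) ∧
      (V 2 ∈ row y → y ∈ P.closure (insert (o 2) (FStar S row c u (V 0) (V 1) (V 2))))) :
    StE P S row c u V o := by
  have hadj : ∀ i, wadj u (V i) := by
    intro i
    fin_cases i
    exacts [hnb.1, hnb.2.1, hnb.2.2.1]
  have hinj : ∀ i j, V i = V j → i = j := by
    obtain ⟨_, _, _, h12, h13, h23⟩ := hnb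
    intro i j hij
    fin_cases i <;> fin_cases j
    · rfl
    · exact absurd hij h12
    · exact absurd hij h13
    · exact absurd hij.symm h12
    · rfl
    · exact absurd hij h23
    · exact absurd hij.symm h13
    · exact absurd hij.symm h23
    · rfl
  refine ⟨hS, hc, ?_, hinj, fun i => (ho i).1, fun i => (ho i).2.1, fun i => (ho i).2.2, ?_, ?_, ?_⟩
  · intro i h1
    have := wadj_par' (hadj i)
    rw [h1] at this
    omega
  · intro e he hue
    obtain ⟨p, q, h1, h2⟩ := hmem e he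
    rw [h1, Sym2.mem_iff] at hue
    have key : ∀ q, wadj u q → ∃ i, q = V i := by
      intro q hq
      rcases nb3_mem hu hnb hq with h3 | h3 | h3
      exacts [⟨0, h3⟩, ⟨1, h3⟩, ⟨2, h3⟩]
    rcases hue with rfl | rfl
    · obtain ⟨i, hi⟩ := key q h2
      exact ⟨i, by rw [h1, hi]⟩
    · obtain ⟨i, hi⟩ := key p (wadj_swap h2)
      exact ⟨i, by rw [h1, Sym2.eq_swap, hi]⟩
  · intro e he i k hi hk
    obtain ⟨p, q, h1, h2⟩ := hmem e (hc he)
    rw [h1, Sym2.mem_iff] at hi hk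
    have k1 := wadj_par' (hadj i)
    have k2 := wadj_par' (hadj k)
    have k3 := wadj_par' h2
    rcases hi with hi | hi <;> rcases hk with hk | hk
    · exact hinj _ _ (hi.trans hk.symm)
    · rw [hi] at k1
      rw [hk] at k2
      omega
    · rw [hi] at k1
      rw [hk] at k2
      omega
    · exact hinj _ _ (hi.trans hk.symm)
  · intro i y hy hiy huy
    have h1 := hsp y hy huy
    fin_cases i
    · exact h1.1 hiy
    · exact h1.2.1 hiy
    · exact h1.2.2 hiy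

/-- **The cocircuits off the windows.** -/
theorem Healed.vc [P.Finite] (hL : LWal P S row w Hs)
    (h : Healed P S row w Hs P' j S' New row' Λ) (hR : RWx P' S' row' w) (hoff : Off Hs v)
    (hv : DeepR (0, 0) (w + 1) (w + 1) 4 v) : VC P S row w v := by
  have hf := h.fin
  have hS := hL.sub
  have hV := RWx.vc hR hv
  obtain ⟨c₀', hc₀', hW₀'⟩ := exists_repW h.wal
  have hΛS : j '' Λ ⊆ P'.closure (j '' (S \ Tch S row Hs) ∪ New) := by
    rw [← h.S_eq]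
    exact (h.lam_star hc₀' hW₀' hoff hv).trans (P'.closure_subset_closure sdiff_subset)
  have hTS : Tch S row Hs ⊆ S := fun e he => he.1
  have k0 := h.rk' hS hS hΛS
  rw [union_eq_self_of_subset_right hTS, ← h.S_eq] at k0
  refine ⟨?_, ?_, fun c hc hW g _ _ => two_rows hW hv g, ?_⟩
  · intro c hc hW
    obtain ⟨e1, e2⟩ := h.star_eq hW hoff
    have hc' := h.tr_sub (c := c) hc
    have hW' := h.tr_wall hc hW
    have hΛ' := h.lam_star hc' hW' hoff hv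
    rw [e1] at hΛ'
    have k1 := h.rk' hS (X := S \ {e | e ∈ c ∧ v ∈ row e}) (sdiff_subset.trans hS) hΛ'
    rw [union_eq_self_of_subset_right e2, ← e1] at k1
    have k2 := hV.star _ hc' hW'
    omega
  · intro c hc hW g hg hvg
    have hgS := hc hg
    have hgT : g ∉ Tch S row Hs := by
      rintro ⟨_, x, hx, hxH⟩
      obtain ⟨p, q, h3, h4, _⟩ := hW.mem g hg
      exact off_row h3 h4 hvg hoff x hx hxH
    have h1 := (h.loc hS hc hW hoff hv (hS hgS) hgT).1 (by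
      refine hV.nms _ (h.tr_sub hc) (h.tr_wall hc hW) (j g) (Or.inl ⟨g, ⟨hg, hgT⟩, rfl⟩) ?_
      rw [h.row_old g ⟨hgS, hgT⟩]
      exact hvg)
    exact h1
  · intro a ha a' ha' haa hva hne
    have hoffT : ∀ b ∈ S, v ∈ row b → b ∉ Tch S row Hs := by
      rintro b hb hvb ⟨_, x, hx, hxH⟩
      obtain ⟨p, q, h3, h4, _⟩ := hL.mem b hb
      exact off_row h3 h4 hvb hoff x hx hxH
    have haT := hoffT a ha hva
    have haT' := hoffT a' ha' (haa ▸ hva)
    have hja : row' (j a) = row a := h.row_old a ⟨ha, haT⟩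
    have hja' : row' (j a') = row a' := h.row_old a' ⟨ha', haT'⟩
    have hjaS : j a ∈ S' := by
      rw [h.S_eq]
      exact Or.inl ⟨a, ⟨ha, haT⟩, rfl⟩
    have hjaS' : j a' ∈ S' := by
      rw [h.S_eq]
      exact Or.inl ⟨a', ⟨ha', haT'⟩, rfl⟩
    have hrep : ∃ e ∈ c₀', row' e = row' (j a) := by
      obtain ⟨p, q, h3, h4, h5, h6⟩ := h.wal.mem _ hjaS
      obtain ⟨e, he, hee⟩ := hW₀'.surj p q h4 h5 h6 (notMem_empty _)
      exact ⟨e, he, hee.trans h3.symm⟩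
    obtain ⟨hc₁, hW₁⟩ := swp_rep hc₀' hW₀' hjaS hrep
    have hvja : v ∈ row' (j a) := by rw [hja]; exact hva
    have hrow1 : row' (j a') = row' (j a) := by rw [hja, hja', haa]
    obtain ⟨hc₂, hW₂⟩ := swp_rep hc₁ hW₁ hjaS' ⟨j a, Or.inr rfl, hrow1.symm⟩
    have hΛ1 : j '' Λ ⊆ P'.closure (S' \ {j a, j a'}) := by
      intro l hl
      exact hV.nsep hR.sub hc₁ hW₁ (Or.inr rfl) hjaS' hrow1 hvja
        (h.lam_star hc₁ hW₁ hoff hv hl) (h.lam_star hc₂ hW₂ hoff hv hl)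
    have e1 : S' \ {j a, j a'} = j '' ((S \ {a, a'}) \ Tch S row Hs) ∪ New := by
      rw [← h.minus, image_insert_eq, image_singleton]
    have e2 : Tch S row Hs ⊆ S \ {a, a'} := by
      intro e he
      refine ⟨he.1, ?_⟩
      rintro (h3 | h3)
      · exact haT (h3 ▸ he)
      · exact haT' ((mem_singleton_iff.1 h3) ▸ he)
    have hΛ2 := hΛ1
    rw [e1] at hΛ2
    have k1 := h.rk' hS (X := S \ {a, a'}) (sdiff_subset.trans hS) hΛ2
    rw [union_eq_self_of_subset_right e2, ← e1] at k1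
    have k2 := hV.pair _ hjaS _ hjaS' hrow1.symm hvja (fun h3 => hne (h.inj h3))
    omega

/-- transport of a span -/
lemma Healed.span_fg [P.Finite] (hL : LWal P S row w Hs)
    (h : Healed P S row w Hs P' j S' New row' Λ) {A B : Sym2 (ℕ × ℕ) → Prop}
    (hAB : ∀ p q, wadj p q → (∃ x ∈ s(p, q), x ∈ Hs) → ¬ A s(p, q) ∧ ¬ B s(p, q))
    (hc : c ⊆ S) {o : α} (ho : o ∈ c) (hoT : o ∉ Tch S row Hs) (hy : y ∈ c)
    (hyT : y ∉ Tch S row Hs)
    (hcl : j y ∈ P'.closure (insert (j o) (FG S' row' (tr S row Hs j New c) A B))) :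
    y ∈ P.closure (insert o (FG S row c A B)) := by
  have hS := hL.sub
  obtain ⟨e1, e2⟩ := h.fg (c := c) hAB hL
  have hX : insert o (FG S row c A B) ⊆ P.E :=
    insert_subset (hS (hc ho)) (fun e he => hS he.1.1)
  have h1 := h.clo' hS (X := insert o (FG S row c A B)) hX (hS (hc hy)) hyT (by
    refine P'.closure_subset_closure ?_ hcl
    rintro e (rfl | he)
    · exact Or.inl (Or.inl ⟨o, ⟨Or.inl rfl, hoT⟩, rfl⟩)
    · rw [e1] at he
      rcases he with ⟨a, ha, rfl⟩ | he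
      · exact Or.inl (Or.inl ⟨a, ⟨Or.inr ha.1, ha.2⟩, rfl⟩)
      · exact Or.inr he)
  rwa [union_eq_self_of_subset_right (e2.trans (subset_insert _ _))] at h1

/-- **SPAN for rows off the windows.** -/
theorem Healed.span_row [P.Finite] (hL : LWal P S row w Hs)
    (h : Healed P S row w Hs P' j S' New row' Λ) (hR : RWx P' S' row' w) (huv : wadj u v)
    (hou : Off Hs u) (hov : Off Hs v)
    (hu : DeepR (0, 0) (w + 1) (w + 1) 20 u) (hc : c ⊆ S) (hW : WallE c row w ∅)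
    (h₁ : o₁ ∈ c ∧ u ∈ row o₁ ∧ v ∉ row o₁) (h₂ : o₂ ∈ c ∧ v ∈ row o₂ ∧ u ∉ row o₂)
    (hy : y ∈ c) (huy : u ∈ row y) (hvy : v ∉ row y) :
    y ∈ P.closure (insert o₁ (FRow S row c u v)) := by
  have hf := h.fin
  have hoffT : ∀ (z : ℕ × ℕ), Off Hs z → ∀ b ∈ c, z ∈ row b → b ∉ Tch S row Hs := by
    rintro z hz b hb hvb ⟨_, x, hx, hxH⟩
    obtain ⟨p, q, h3, h4, _⟩ := hL.mem b (hc hb)
    exact off_row h3 h4 hvb hz x hx hxH
  have t₁ := hoffT u hou o₁ h₁.1 h₁.2.1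
  have t₂ := hoffT v hov o₂ h₂.1 h₂.2.1
  have ty := hoffT u hou y hy huy
  have r : ∀ b ∈ c, b ∉ Tch S row Hs → row' (j b) = row b := fun b hb hbT =>
    h.row_old b ⟨hc hb, hbT⟩
  refine h.span_fg hL (A := fun s => s = s(u, v)) (B := fun s => u ∈ s ∨ v ∈ s) ?_ hc h₁.1 t₁ hy
    ty ?_
  · rintro p q hpq ⟨x, hx, hxH⟩
    have key : ∀ z ∈ s(p, q), ¬ Off Hs z := fun z hz hz' => off_row rfl hpq hz hz' x hx hxH
    refine ⟨fun h1 => key u ?_ hou, ?_⟩
    · rw [h1]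
      exact Sym2.mem_mk_left _ _
    · rintro (h1 | h1)
      · exact key u h1 hou
      · exact key v h1 hov
  · refine hR.span_row huv hu (h.tr_sub hc) (h.tr_wall hc hW) (o₂ := j o₂)
      ⟨Or.inl ⟨o₁, ⟨h₁.1, t₁⟩, rfl⟩, ?_, ?_⟩ ⟨Or.inl ⟨o₂, ⟨h₂.1, t₂⟩, rfl⟩, ?_, ?_⟩
      (Or.inl ⟨y, ⟨hy, ty⟩, rfl⟩) ?_ ?_
    · rw [r _ h₁.1 t₁]; exact h₁.2.1
    · rw [r _ h₁.1 t₁]; exact h₁.2.2
    · rw [r _ h₂.1 t₂]; exact h₂.2.1
    · rw [r _ h₂.1 t₂]; exact h₂.2.2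
    · rw [r _ hy ty]; exact huy
    · rw [r _ hy ty]; exact hvy

/-- **SPAN for stars off the windows.** -/
theorem Healed.span_star [P.Finite] (hL : LWal P S row w Hs)
    (h : Healed P S row w Hs P' j S' New row' Λ) (hR : RWx P' S' row' w) {v₁ v₂ v₃ : ℕ × ℕ}
    (hnb : Nb3 u v₁ v₂ v₃) (hou : ∀ v, sd v u ≤ 1 → Off Hs v)
    (hu : DeepR (0, 0) (w + 1) (w + 1) 20 u) (hc : c ⊆ S) (hW : WallE c row w ∅)
    (h₁ : o₁ ∈ c ∧ v₁ ∈ row o₁ ∧ u ∉ row o₁) (h₂ : o₂ ∈ c ∧ v₂ ∈ row o₂ ∧ u ∉ row o₂)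
    (h₃ : o₃ ∈ c ∧ v₃ ∈ row o₃ ∧ u ∉ row o₃) (hy : y ∈ c) (huy : u ∉ row y) :
    (v₁ ∈ row y → y ∈ P.closure (insert o₁ (FStar S row c u v₁ v₂ v₃))) ∧
    (v₂ ∈ row y → y ∈ P.closure (insert o₂ (FStar S row c u v₁ v₂ v₃))) ∧
    (v₃ ∈ row y → y ∈ P.closure (insert o₃ (FStar S row c u v₁ v₂ v₃))) := by
  have hf := h.fin
  have hoffT : ∀ (z : ℕ × ℕ), Off Hs z → ∀ b ∈ c, z ∈ row b → b ∉ Tch S row Hs := by
    rintro z hz b hb hvb ⟨_, x, hx, hxH⟩
    obtain ⟨p, q, h3, h4, _⟩ := hL.mem b (hc hb)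
    exact off_row h3 h4 hvb hz x hx hxH
  have o1 := hou v₁ (wadj_sd hnb.1).2
  have o2 := hou v₂ (wadj_sd hnb.2.1).2
  have o3 := hou v₃ (wadj_sd hnb.2.2.1).2
  have o0 := hou u (by rw [sd_le]; omega)
  have t₁ := hoffT _ o1 o₁ h₁.1 h₁.2.1
  have t₂ := hoffT _ o2 o₂ h₂.1 h₂.2.1
  have t₃ := hoffT _ o3 o₃ h₃.1 h₃.2.1
  have r : ∀ b ∈ c, b ∉ Tch S row Hs → row' (j b) = row b := fun b hb hbT =>
    h.row_old b ⟨hc hb, hbT⟩
  have hAB : ∀ p q, wadj p q → (∃ x ∈ s(p, q), x ∈ Hs) →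
      ¬ (u ∈ s(p, q)) ∧ ¬ (v₁ ∈ s(p, q) ∨ v₂ ∈ s(p, q) ∨ v₃ ∈ s(p, q)) := by
    rintro p q hpq ⟨x, hx, hxH⟩
    have key : ∀ z ∈ s(p, q), ¬ Off Hs z := fun z hz hz' => off_row rfl hpq hz hz' x hx hxH
    refine ⟨fun h1 => key u h1 o0, ?_⟩
    rintro (h1 | h1 | h1)
    · exact key _ h1 o1
    · exact key _ h1 o2
    · exact key _ h1 o3
  have hkey : ∀ ty : y ∉ Tch S row Hs,
      (v₁ ∈ row' (j y) → j y ∈ P'.closure (insert (j o₁)
        (FStar S' row' (tr S row Hs j New c) u v₁ v₂ v₃))) ∧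
      (v₂ ∈ row' (j y) → j y ∈ P'.closure (insert (j o₂)
        (FStar S' row' (tr S row Hs j New c) u v₁ v₂ v₃))) ∧
      (v₃ ∈ row' (j y) → j y ∈ P'.closure (insert (j o₃)
        (FStar S' row' (tr S row Hs j New c) u v₁ v₂ v₃))) := by
    intro ty
    refine hR.span_star hnb hu (h.tr_sub hc) (h.tr_wall hc hW) (o₁ := j o₁) (o₂ := j o₂)
      (o₃ := j o₃) ⟨Or.inl ⟨o₁, ⟨h₁.1, t₁⟩, rfl⟩, ?_, ?_⟩ ⟨Or.inl ⟨o₂, ⟨h₂.1, t₂⟩, rfl⟩, ?_, ?_⟩
      ⟨Or.inl ⟨o₃, ⟨h₃.1, t₃⟩, rfl⟩, ?_, ?_⟩ (Or.inl ⟨y, ⟨hy, ty⟩, rfl⟩) ?_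
    · rw [r _ h₁.1 t₁]; exact h₁.2.1
    · rw [r _ h₁.1 t₁]; exact h₁.2.2
    · rw [r _ h₂.1 t₂]; exact h₂.2.1
    · rw [r _ h₂.1 t₂]; exact h₂.2.2
    · rw [r _ h₃.1 t₃]; exact h₃.2.1
    · rw [r _ h₃.1 t₃]; exact h₃.2.2
    · rw [r _ hy ty]; exact huy
  refine ⟨fun hv => ?_, fun hv => ?_, fun hv => ?_⟩
  · have ty := hoffT _ o1 y hy hv
    exact h.span_fg hL (A := fun s => u ∈ s) (B := fun s => v₁ ∈ s ∨ v₂ ∈ s ∨ v₃ ∈ s) hAB hc h₁.1
      t₁ hy ty ((hkey ty).1 (by rw [r _ hy ty]; exact hv))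
  · have ty := hoffT _ o2 y hy hv
    exact h.span_fg hL (A := fun s => u ∈ s) (B := fun s => v₁ ∈ s ∨ v₂ ∈ s ∨ v₃ ∈ s) hAB hc h₂.1
      t₂ hy ty ((hkey ty).2.1 (by rw [r _ hy ty]; exact hv))
  · have ty := hoffT _ o3 y hy hv
    exact h.span_fg hL (A := fun s => u ∈ s) (B := fun s => v₁ ∈ s ∨ v₂ ∈ s ∨ v₃ ∈ s) hAB hc h₃.1
      t₃ hy ty ((hkey ty).2.2 (by rw [r _ hy ty]; exact hv))

end healed

end DA
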