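import Pool.Agent.DA.InH
import Pool.Agent.DA.LWalB
import Pool.Agent.DA.RowSpan

/-!
# Two rounds of IN0, IN1, IN2 for a clean side

`D` = elements with bounded supports.  Round 0: windows `Hs₀` around the exceptional set of
`setOmRowsL`; outside of `Hs₀` every element of `D` has at most two locations (or a star).  Round 1:
windows `Hs₁` around the exceptional set `Om₁` of round 0.
-/

open Set BIC BICS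
open scoped Matroid

namespace DA

open CWL TST Gad

universe u

/-- the conclusion of `in012H` -/
def IN012 {α : Type*} (P : Matroid α) (S : Set α) (row : α → Sym2 (ℕ × ℕ)) (w D β δ : ℕ)
    (Hs Om : Finset (ℕ × ℕ)) : Prop :=
  ∀ c, c ⊆ S → WallE c row w ∅ →
    (∀ u v₁ v₂ v₃ o₁ o₂ o₃ C, Nb3 u v₁ v₂ v₃ → OutW δ w Om u →
      (o₁ ∈ c ∧ v₁ ∈ row o₁ ∧ u ∉ row o₁) → (o₂ ∈ c ∧ v₂ ∈ row o₂ ∧ u ∉ row o₂) →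
      (o₃ ∈ c ∧ v₃ ∈ row o₃ ∧ u ∉ row o₃) → (P ／ FStar S row c u v₁ v₂ v₃).IsCircuit C →
      o₁ ∈ C → o₂ ∈ C → o₃ ∈ C → (∀ x ∈ C, x = o₁ ∨ x = o₂ ∨ x = o₃ ∨
        LocEH P S row w D Hs {a | u ∈ a} {u, v₁, v₂, v₃} x) → False) ∧
    (∀ u v₁ v₂ v₃ o₁ o₂ o₃ C y b, Nb3 u v₁ v₂ v₃ → OutW δ w Om u →
      (o₁ ∈ c ∧ v₁ ∈ row o₁ ∧ u ∉ row o₁) → (o₂ ∈ c ∧ v₂ ∈ row o₂ ∧ u ∉ row o₂) →
      (o₃ ∈ c ∧ v₃ ∈ row o₃ ∧ u ∉ row o₃) → (P ／ FStar S row c u v₁ v₂ v₃).IsCircuit C →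
      ExitEH P S row w D β δ Hs Om {u, v₁, v₂, v₃} c y b → b ∈ C → o₁ ∈ C → o₂ ∈ C →
      (∀ x ∈ C, x = b ∨ x = o₁ ∨ x = o₂ ∨ x = o₃ ∨
        LocEH P S row w D Hs {a | u ∈ a} {u, v₁, v₂, v₃} x) → False) ∧
    (∀ u v o₁ o₂ C y b, wadj u v → OutW δ w Om u →
      (o₁ ∈ c ∧ u ∈ row o₁ ∧ v ∉ row o₁) → (o₂ ∈ c ∧ v ∈ row o₂ ∧ u ∉ row o₂) →
      (P ／ FRow S row c u v).IsCircuit C → ExitEH P S row w D β δ Hs Om {u, v} c y b →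
      b ∈ C → o₁ ∈ C → o₂ ∈ C → (∀ x ∈ C, x = b ∨ x = o₁ ∨ x = o₂ ∨
        LocEH P S row w D Hs {s(u, v)} {u, v} x) → False) ∧
    (∀ u v o₁ o₂ C y b y' b', wadj u v → OutW δ w Om u →
      (o₁ ∈ c ∧ u ∈ row o₁ ∧ v ∉ row o₁) → (o₂ ∈ c ∧ v ∈ row o₂ ∧ u ∉ row o₂) →
      (P ／ FRow S row c u v).IsCircuit C → ExitEH P S row w D β δ Hs Om {u, v} c y b →
      ExitEH P S row w D β δ Hs Om {u, v} c y' b' → y ≠ y' →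
      ¬ (wadj u y ∧ wadj u y') → ¬ (wadj v y ∧ wadj v y') →
      b ∈ C → b' ∈ C → o₁ ∈ C → o₂ ∈ C → (∀ x ∈ C, x = b ∨ x = b' ∨ x = o₁ ∨ x = o₂ ∨
        LocEH P S row w D Hs {s(u, v)} {u, v} x) → False)

/-- regular vertices: deep and not in the windows -/
def RegV (w D : ℕ) (Hs : Finset (ℕ × ℕ)) (v : ℕ × ℕ) : Prop :=
  DeepR (0, 0) (w + 1) (w + 1) D v ∧ v ∉ Hs

/-- bounded supports -/
def Supp {α : Type*} (P : Matroid α) (S : Set α) (row : α → Sym2 (ℕ × ℕ)) (w β dp : ℕ)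
    (D : Set α) : Prop :=
  ∀ z ∈ D, ∃ N : Finset (ℕ × ℕ), N.card ≤ β ∧ ∀ c, c ⊆ S → WallE c row w ∅ →
    ∀ v ∈ LocR P S row c z, DeepR (0, 0) (w + 1) (w + 1) dp v → v ∈ N

/-- at most two regular locations (or a star) -/
def TwoL {α : Type*} (P : Matroid α) (S : Set α) (row : α → Sym2 (ℕ × ℕ)) (w D : ℕ)
    (Hs : Finset (ℕ × ℕ)) (z : α) : Prop :=
  (∀ c, c ⊆ S → WallE c row w ∅ → ∀ A : Finset (ℕ × ℕ),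
    (∀ v ∈ A, v ∈ LocR P S row c z ∧ DeepR (0, 0) (w + 1) (w + 1) D v ∧ v ∉ Hs) →
    A.card ≤ 2 ∨ ∃ v₀, (A : Set (ℕ × ℕ)) ⊆ star v₀ ∧ star v₀ ⊆ LocR P S row c z) ∧
  ∀ A : Finset (Sym2 (ℕ × ℕ)), (∀ a ∈ A, ∃ p q, a = s(p, q) ∧ wadj p q ∧ Seen P S row z a ∧
    (DeepR (0, 0) (w + 1) (w + 1) D p ∧ p ∉ Hs) ∧ (DeepR (0, 0) (w + 1) (w + 1) D q ∧ q ∉ Hs)) →
    A.card ≤ 2 ∨ ∃ v₀, (∀ a ∈ A, v₀ ∈ a) ∧ ∀ c, c ⊆ S → WallE c row w ∅ →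
      ∃ c', c' ⊆ S ∧ WallE c' row w ∅ ∧ (∀ e ∈ S, v₀ ∉ row e → (e ∈ c' ↔ e ∈ c)) ∧
        star v₀ ⊆ LocR P S row c' z

/-- **Two rounds.**  `Hm` = the windows of the lift. -/
structure Rnd {α : Type*} (P : Matroid α) (S : Set α) (row : α → Sym2 (ℕ × ℕ)) (w : ℕ)
    (D : Set α) (β D₀ δ₀ D₁ δ₁ : ℕ) (Hm Hs₀ Om₁ Hs₁ Om₂ : Finset (ℕ × ℕ)) : Prop where
  wal : LWal P S row w Hm
  heal : HealX P S row w Hm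
  wal₀ : LWal P S row w Hs₀
  heal₀ : HealX P S row w Hs₀
  wal₁ : LWal P S row w Hs₁
  heal₁ : HealX P S row w Hs₁
  /-- the scales -/
  le : 4 ≤ D₀ ∧ D₀ ≤ δ₀ ∧ δ₀ + 6 ≤ D₁ ∧ D₁ ≤ δ₁
  /-- the balls -/
  ball₀ : ∀ p ∈ Hm, ∀ v : ℕ × ℕ, v.1 ≤ w → v.2 ≤ w → sd v p ≤ 6 → v ∈ Hs₀
  sub₀ : Hs₀ ⊆ Om₁
  ball₁ : ∀ p ∈ Om₁, ∀ v : ℕ × ℕ, v.1 ≤ w → v.2 ≤ w → sd v p ≤ δ₀ + 6 → v ∈ Hs₁
  sub₁ : Hs₁ ⊆ Om₂
  /-- the cocircuits of the stars -/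
  vc : ∀ v, DeepR (0, 0) (w + 1) (w + 1) D₀ v → v ∉ Hs₀ → VC P S row w v
  two : ∀ z ∈ D, TwoL P S row w D₀ Hs₀ z
  in₀ : IN012 P S row w D₀ β δ₀ Hs₀ Om₁
  in₁ : IN012 P S row w D₁ β δ₁ Hs₁ Om₂

/-- **Two rounds for a clean side.** -/
theorem geo2 (k κ β dp : ℕ) : ∃ D₀ δ₀ D₁ δ₁ ρ w₁ : ℕ, dp ≤ D₀ ∧ ∀ {α : Type u} (M : Matroid α) [M.Finite]
    (w u : ℕ) (L : Bool × ℕ × ℕ → List α) (f : α → Sym2 ((ℕ × ℕ) ⊕ α)) (e : Bool × ℕ × ℕ → α)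
    (row : α → Sym2 (ℕ × ℕ)) (D : Set α), w₁ ≤ w → u ≤ κ → GSide M (Seg w) L f e u →
    (∀ s ∈ Seg w, ∀ x ∈ L s, row x = srow s) → D ⊆ M.closure (crr L (Seg w)) →
    Disjoint D (crr L (Seg w)) → Supp M (crr L (Seg w)) row w β dp D →
    HasUniformMinor M k ∨ ∃ Hm Hs₀ Om₁ Hs₁ Om₂ : Finset (ℕ × ℕ), Om₂.card ≤ ρ ∧
      Rnd M (crr L (Seg w)) row w D β D₀ δ₀ D₁ δ₁ Hm Hs₀ Om₁ Hs₁ Om₂ := by
  classical
  -- the windows of the lift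
  obtain ⟨h, hh⟩ : ∃ h, h = κ * ((2 * 4 + 1) * (2 * 4 + 1)) := ⟨_, rfl⟩
  obtain ⟨ra, δa, hA⟩ := setOmRowsL.{u} k β dp h
  -- round 0
  obtain ⟨D₀, hD₀⟩ : ∃ D₀, D₀ = δa + dp + 10 := ⟨_, rfl⟩
  obtain ⟨h₀, hh₀⟩ : ∃ h₀, h₀ = (κ + ra) * ((2 * D₀ + 1) * (2 * D₀ + 1)) := ⟨_, rfl⟩
  obtain ⟨r₀, δ₀', hB⟩ := in012H.{u} k D₀ β h₀ (by omega)
  obtain ⟨δ₀, hδ₀⟩ : ∃ δ₀, δ₀ = δ₀' + D₀ := ⟨_, rfl⟩
  -- round 1
  obtain ⟨D₁, hD₁⟩ : ∃ D₁, D₁ = δ₀ + 6 := ⟨_, rfl⟩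
  obtain ⟨h₁, hh₁⟩ : ∃ h₁, h₁ = (κ + r₀) * ((2 * D₁ + 1) * (2 * D₁ + 1)) := ⟨_, rfl⟩
  obtain ⟨r₁, δ₁', hC⟩ := in012H.{u} k D₁ β h₁ (by omega)
  obtain ⟨δ₁, hδ₁⟩ : ∃ δ₁, δ₁ = δ₁' + D₁ := ⟨_, rfl⟩
  have hmono : ∀ {α : Type u} {P : Matroid α} {S : Set α} {row : α → Sym2 (ℕ × ℕ)}
      {w D δ δ' : ℕ} {Hs Om : Finset (ℕ × ℕ)}, δ ≤ δ' → IN012 P S row w D β δ Hs Om →
      IN012 P S row w D β δ' Hs Om := by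
    intro α P S row w D δ δ' Hs Om hδ hI c hc hW
    have hx : ∀ {U : Set (ℕ × ℕ)} {y b}, ExitEH P S row w D β δ' Hs Om U c y b →
        ExitEH P S row w D β δ Hs Om U c y b := by
      intro U y b hb
      obtain ⟨N, h1, h2, h3⟩ := hb.supp
      exact ⟨hb.cl, ⟨N, h1, h2, fun p hp => (h3 p hp).mono hδ⟩, hb.y_loc, hb.y_deep, hb.y_hs,
        hb.y_out, hb.loc⟩
    obtain ⟨i0, i1, i2, i3⟩ := hI c hc hW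
    exact ⟨fun u v₁ v₂ v₃ o₁ o₂ o₃ C g hu => i0 u v₁ v₂ v₃ o₁ o₂ o₃ C g (hu.mono hδ),
      fun u v₁ v₂ v₃ o₁ o₂ o₃ C y b g hu g1 g2 g3 g4 hb =>
        i1 u v₁ v₂ v₃ o₁ o₂ o₃ C y b g (hu.mono hδ) g1 g2 g3 g4 (hx hb),
      fun u v o₁ o₂ C y b g hu g1 g2 g3 hb => i2 u v o₁ o₂ C y b g (hu.mono hδ) g1 g2 g3 (hx hb),
      fun u v o₁ o₂ C y b y' b' g hu g1 g2 g3 hb hb' =>
        i3 u v o₁ o₂ C y b y' b' g (hu.mono hδ) g1 g2 g3 (hx hb) (hx hb')⟩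
  refine ⟨D₀, δ₀, D₁, δ₁, r₁, (2 * D₁ + 1) * (κ + r₀ + 1) + (2 * D₀ + 1) * (κ + ra + 1) +
    9 * (κ + 1), by omega, ?_⟩
  intro α M _ w u L f e row D hw hu hG hrow hDS hDd hsupp
  have q0 : 9 * (κ + 1) ≤ w := by omega
  have q1 : (2 * D₀ + 1) * (κ + ra + 1) ≤ w := by omega
  have q2 : (2 * D₁ + 1) * (κ + r₀ + 1) ≤ w := by omega
  obtain ⟨Hm, hmc, _, hml, hmx⟩ := GSide.healXB (r := 4) (by omega) hG ∅ (by omega) (by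
    rw [Finset.card_empty]
    omega) hrow
  have hmc' : Hm.card ≤ h := by
    rw [hh]
    refine hmc.trans ?_
    rw [Finset.card_empty, Nat.add_zero]
    exact Nat.mul_le_mul_right _ hu
  rcases hA M (crr L (Seg w)) row w Hm hmc' hml with hU | ⟨Oa, hmO, hOc, htwo⟩
  · exact Or.inl hU
  obtain ⟨Hs₀, h0c, h0b, h0l, h0x⟩ := GSide.healXB (r := D₀) (by omega) hG Oa (by
      calc 2 * D₀ ≤ (2 * D₀ + 1) * 1 := by omega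
        _ ≤ (2 * D₀ + 1) * (κ + ra + 1) := Nat.mul_le_mul_left _ (by omega)
        _ ≤ w := q1) (by
      refine le_trans (Nat.mul_le_mul_left _ ?_) q1
      omega) hrow
  have h0c' : Hs₀.card ≤ h₀ := by
    rw [hh₀]
    exact h0c.trans (Nat.mul_le_mul_right _ (by omega))
  rcases hB M (crr L (Seg w)) row w Hs₀ h0c' h0l h0x with hU | ⟨Om₁, hs0, hO1, hin0⟩
  · exact Or.inl hU
  obtain ⟨Hs₁, h1c, h1b, h1l, h1x⟩ := GSide.healXB (r := D₁) (by omega) hG Om₁ (by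
      calc 2 * D₁ ≤ (2 * D₁ + 1) * 1 := by omega
        _ ≤ (2 * D₁ + 1) * (κ + r₀ + 1) := Nat.mul_le_mul_left _ (by omega)
        _ ≤ w := q2) (by
      refine le_trans (Nat.mul_le_mul_left _ ?_) q2
      omega) hrow
  have h1c' : Hs₁.card ≤ h₁ := by
    rw [hh₁]
    exact h1c.trans (Nat.mul_le_mul_right _ (by omega))
  rcases hC M (crr L (Seg w)) row w Hs₁ h1c' h1l h1x with hU | ⟨Om₂, hs1, hO2, hin1⟩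
  · exact Or.inl hU
  refine Or.inr ⟨Hm, Hs₀, Om₁, Hs₁, Om₂, hO2, ?_⟩
  have hdw : ∀ {d : ℕ} {v : ℕ × ℕ}, DeepR (0, 0) (w + 1) (w + 1) (d + 1) v → v.1 ≤ w ∧ v.2 ≤ w := by
    intro d v hv
    unfold DeepR at hv
    simp only at hv
    omega
  -- regular vertices are off the exceptional set of `setOmRowsL`
  have hreg : ∀ v, DeepR (0, 0) (w + 1) (w + 1) D₀ v → v ∉ Hs₀ →
      DeepR (0, 0) (w + 1) (w + 1) δa v ∧ ∀ u ∈ Oa, D₀ < sd v u := by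
    intro v hv hvH
    have hv' : DeepR (0, 0) (w + 1) (w + 1) (δa + dp + 9 + 1) v := by
      rw [hD₀] at hv
      exact hv
    refine ⟨?_, fun u hu => ?_⟩
    · unfold DeepR at hv' ⊢
      simp only at hv' ⊢
      omega
    · by_contra hcon
      exact hvH (h0b u hu v (hdw hv').1 (hdw hv').2 (by omega))
  refine ⟨hml, hmx, h0l, h0x, h1l, h1x, ⟨by omega, by omega, by omega, by omega⟩, ?_, hs0, ?_, hs1,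
    ?_, ?_, hmono (by omega) hin0, hmono (by omega) hin1⟩
  · exact fun p hp v h1 h2 h3 => h0b p (hmO hp) v h1 h2 (by omega)
  · exact fun p hp v h1 h2 h3 => h1b p hp v h1 h2 (by omega)
  · intro v hv hvH
    obtain ⟨P', S', New, row', Λ, hH, hR, _⟩ := hmx
    obtain ⟨h1, h2⟩ := hreg v hv hvH
    refine hH.vc hml hR ?_ ?_
    · intro x hx
      have h3 := h2 x (hmO hx)
      omega
    · unfold DeepR at hv ⊢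
      simp only at hv ⊢
      omega
  · intro z hz
    obtain ⟨N, hN, hNs⟩ := hsupp z hz
    obtain ⟨t1, t2⟩ := htwo z (hDS hz) (fun h => Set.disjoint_left.1 hDd hz h)
      ⟨N, hN, fun c hc hW v hv hvd _ => hNs c hc hW v hv hvd⟩
    have hap : ∀ v, DeepR (0, 0) (w + 1) (w + 1) D₀ v → v ∉ Hs₀ →
        DeepR (0, 0) (w + 1) (w + 1) δa v ∧ ∀ u ∈ Oa, Apart δa v u := by
      intro v hv hvH
      obtain ⟨h1, h2⟩ := hreg v hv hvH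
      refine ⟨h1, fun u hu => ?_⟩
      rw [apart_iff]
      have := h2 u hu
      omega
    refine ⟨fun c hc hW A hA => t1 c hc hW A fun v hv => ?_, fun A hA => t2 A fun a ha => ?_⟩
    · obtain ⟨h1, h2, h3⟩ := hA v hv
      exact ⟨h1, hap v h2 h3⟩
    · obtain ⟨p, q, h1, h2, h3, h4, h5⟩ := hA a ha
      obtain ⟨k1, k2⟩ := hap p h4.1 h4.2
      obtain ⟨k3, k4⟩ := hap q h5.1 h5.2
      exact ⟨p, q, h1, h2, h3, k1, k3, fun u hu => ⟨k2 u hu, k4 u hu⟩⟩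

end DA
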