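import Pool.Agent.DA.GoodCls
import Pool.Agent.DA.Geo2

/-!
# Location systems from the two rounds (helper77)

Visible vertices, location systems of the elements of `D`, local elements and exits in both rounds.
-/

open Set BIC BICS
open scoped Matroid

namespace DA

open Gad TST

universe u

/-- visible vertices -/
def VisR (w δ₁ : ℕ) (Om₂ : Finset (ℕ × ℕ)) (v : ℕ × ℕ) : Prop := OutW (δ₁ + 60) w Om₂ v

section

variable {α : Type*} {P : Matroid α} {S : Set α} {row : α → Sym2 (ℕ × ℕ)} {w : ℕ} {D : Set α}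
  {β D₀ δ₀ D₁ δ₁ : ℕ} {Hm Hs₀ Om₁ Hs₁ Om₂ : Finset (ℕ × ℕ)}

lemma OutW.sd_le {δ : ℕ} {Om : Finset (ℕ × ℕ)} {p q : ℕ × ℕ} (h : OutW δ w Om p) (hq : q ∈ Om) :
    δ ≤ sd p q := apart_iff.1 (h.2 q hq)

/-- everything near a visible vertex is clean in both rounds -/
lemma Rnd.near (h : Rnd P S row w D β D₀ δ₀ D₁ δ₁ Hm Hs₀ Om₁ Hs₁ Om₂) {v x : ℕ × ℕ}
    (hv : VisR w δ₁ Om₂ v) (hx : sd v x ≤ 6) :
    OutW δ₁ w Om₂ x ∧ OutW δ₀ w Om₁ x ∧ RegW w D₀ Hs₀ x ∧ RegW w D₁ Hs₁ x := by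
  obtain ⟨l1, l2, l3, l4⟩ := h.le
  have hxd : DeepR (0, 0) (w + 1) (w + 1) (δ₁ + 2) x := by
    have h1 := hv.1
    have h2 := sd_le.1 hx
    unfold DeepR at h1 ⊢
    simp only at h1 ⊢
    omega
  have hxo : ∀ q ∈ Om₂, δ₁ + 2 ≤ sd x q := by
    intro q hq
    have h1 := OutW.sd_le hv hq
    have h2 : sd v q ≤ sd v x + sd x q := sd_tri
    omega
  have hx2 : x ∉ Om₂ := by
    intro h1
    have h2 := hxo x h1
    rw [sd_self] at h2
    omega
  have a1 : OutW δ₁ w Om₂ x := by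
    refine ⟨?_, fun q hq => apart_iff.2 ?_⟩
    · unfold DeepR at hxd ⊢
      simp only at hxd ⊢
      omega
    · have := hxo q hq
      omega
  have a2 : OutW δ₀ w Om₁ x := by
    refine ⟨?_, fun q hq => ?_⟩
    · unfold DeepR at hxd ⊢
      simp only at hxd ⊢
      omega
    · by_cases hqw : q.1 ≤ w ∧ q.2 ≤ w
      · have h1 := h.sub₁ (h.ball₁ q hq q hqw.1 hqw.2 (by rw [sd_self]; omega))
        have h2 := hxo q h1
        exact apart_iff.2 (by omega)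
      · unfold DeepR at hxd
        simp only at hxd
        unfold Apart
        omega
  refine ⟨a1, a2, ⟨?_, fun h1 => ?_⟩, ?_, fun h1 => hx2 (h.sub₁ h1)⟩
  · unfold DeepR at hxd ⊢
    simp only at hxd ⊢
    omega
  · have h2 := OutW.sd_le a2 (h.sub₀ h1)
    rw [sd_self] at h2
    omega
  · unfold DeepR at hxd ⊢
    simp only at hxd ⊢
    omega

/-- regular in round 1 implies regular in round 0 -/
lemma Rnd.reg01 (h : Rnd P S row w D β D₀ δ₀ D₁ δ₁ Hm Hs₀ Om₁ Hs₁ Om₂) {v : ℕ × ℕ}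
    (hv : RegW w D₁ Hs₁ v) : RegW w D₀ Hs₀ v := by
  obtain ⟨l1, l2, l3, l4⟩ := h.le
  have hd := hv.1
  refine ⟨?_, fun h1 => hv.2 (h.ball₁ v (h.sub₀ h1) v ?_ ?_ (by rw [sd_self]; omega))⟩
  · unfold DeepR at hd ⊢
    simp only at hd ⊢
    omega
  · unfold DeepR at hd
    simp only at hd
    omega
  · unfold DeepR at hd
    simp only at hd
    omega

/-- **Location systems.** -/
theorem Rnd.locT [P.Finite] (h : Rnd P S row w D β D₀ δ₀ D₁ δ₁ Hm Hs₀ Om₁ Hs₁ Om₂) {z : α}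
    (hz : z ∈ D) (hzcl : z ∈ P.closure S) :
    LocT wadj (RegW w D₀ Hs₀) (VisR w δ₁ Om₂) (YW P S row w D₀ Hs₀ z) (SnW P S row w D₀ Hs₀ z)
      (RelW S row w) := by
  obtain ⟨l1, l2, l3, l4⟩ := h.le
  exact locT_of h.wal (by omega) (fun v hv => h.vc v hv.1 hv.2)
    (fun v hv x hx => (h.near hv hx).2.2.1) hzcl (h.two z hz).1

/-- the foot of an element which sees a visible row: clean in round 0, or local in round 1 -/
theorem Rnd.foot [P.Finite] (h : Rnd P S row w D β D₀ δ₀ D₁ δ₁ Hm Hs₀ Om₁ Hs₁ Om₂) {z : α}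
    (hz : z ∈ D) (hzcl : z ∈ P.closure S) {u v : ℕ × ℕ} (huv : wadj u v) (hu : VisR w δ₁ Om₂ u)
    (hv : VisR w δ₁ Om₂ v) (hs : SnW P S row w D₀ Hs₀ z u v) :
    (∀ c, ∀ x ∈ YW P S row w D₀ Hs₀ z c, OutW δ₀ w Om₁ x) ∨
      ∀ c : ChW S row w, ∀ x ∈ LocR P S row c.1 z, RegW w D₁ Hs₁ x → x = u ∨ x = v := by
  classical
  obtain ⟨l1, l2, l3, l4⟩ := h.le
  have hT := h.locT hz hzcl
  have hself : ∀ {x : ℕ × ℕ}, sd x x ≤ 6 := by
    intro x
    rw [sd_self]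
    omega
  have hclean : ∀ x, (x = u ∨ x = v) → OutW δ₀ w Om₁ x := by
    rintro x (rfl | rfl)
    · exact (h.near hu hself).2.1
    · exact (h.near hv hself).2.1
  have hst : ∀ a, VisR w δ₁ Om₂ a → ∀ x ∈ nst wadj a, OutW δ₀ w Om₁ x := by
    rintro a ha x (rfl | hx)
    · exact (h.near ha hself).2.1
    · have := (wadj_sd hx).1
      exact (h.near ha (by omega)).2.1
  have hin : ∀ {d : ℕ} {x : ℕ × ℕ}, DeepR (0, 0) (w + 1) (w + 1) (d + 1) x → x.1 ≤ w ∧ x.2 ≤ w := by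
    intro d x hx
    unfold DeepR at hx
    simp only at hx
    omega
  -- a vertex which is not clean, and its neighbours, are not regular in round 1
  have hbad : ∀ x y : ℕ × ℕ, ¬ OutW δ₀ w Om₁ x → sd x y ≤ 1 → ¬ RegW w D₁ Hs₁ y := by
    intro x y hx hxy hy
    have h2 := sd_le.1 hxy
    have h3 := hy.1
    refine hx ⟨?_, fun q hq => ?_⟩
    · unfold DeepR at h3 ⊢
      simp only at h3 ⊢
      omega
    · by_contra hcon
      rw [apart_iff] at hcon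
      have h4 : sd y q ≤ sd y x + sd x q := sd_tri
      rw [sd_comm (p := y) (q := x)] at h4
      refine hy.2 (h.ball₁ q hq y ?_ ?_ (by omega))
      · unfold DeepR at h3
        simp only at h3
        omega
      · unfold DeepR at h3
        simp only at h3
        omega
  have hY : ∀ (c : ChW S row w) x, x ∈ LocR P S row c.1 z → RegW w D₁ Hs₁ x →
      x ∈ YW P S row w D₀ Hs₀ z c := fun c x hx hr => ⟨hx, h.reg01 hr⟩
  rcases hT.cls_supp huv hu hv hs with ⟨p, q, hpq, _, hpn, hqn, hsub⟩ | hsub | hsub | ⟨y, hyn, hsub⟩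
  · by_cases hpo : OutW δ₀ w Om₁ p
    · by_cases hqo : OutW δ₀ w Om₁ q
      · left
        intro c x hx
        have h1 := hsub c hx
        simp only [mem_insert_iff, mem_singleton_iff] at h1
        rcases h1 with h1 | h1 | h1 | h1
        · exact hclean x (Or.inl h1)
        · exact hclean x (Or.inr h1)
        · rw [h1]
          exact hpo
        · rw [h1]
          exact hqo
      · right
        intro c x hx hr
        have h1 := hsub c (hY c x hx hr)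
        simp only [mem_insert_iff, mem_singleton_iff] at h1
        rcases h1 with h1 | h1 | h1 | h1
        · exact Or.inl h1
        · exact Or.inr h1
        · refine absurd hr (hbad q x hqo ?_)
          rw [h1]
          exact (wadj_sd hpq).2
        · refine absurd hr (hbad q x hqo ?_)
          rw [h1, sd_self]
          omega
    · right
      intro c x hx hr
      have h1 := hsub c (hY c x hx hr)
      simp only [mem_insert_iff, mem_singleton_iff] at h1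
      rcases h1 with h1 | h1 | h1 | h1
      · exact Or.inl h1
      · exact Or.inr h1
      · refine absurd hr (hbad p x hpo ?_)
        rw [h1, sd_self]
        omega
      · refine absurd hr (hbad p x hpo ?_)
        rw [h1]
        exact (wadj_sd hpq).1
  · left
    exact fun c x hx => hst u hu x (hsub c hx)
  · left
    exact fun c x hx => hst v hv x (hsub c hx)
  · by_cases hyo : OutW δ₀ w Om₁ y
    · left
      intro c x hx
      by_cases hxn : x ∈ ({u, v} : Set (ℕ × ℕ))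
      · exact hclean x hxn
      · have h1 : x ∈ YW P S row w D₀ Hs₀ z c \ {u, v} := ⟨hx, hxn⟩
        rw [hsub c] at h1
        rw [mem_singleton_iff.1 h1]
        exact hyo
    · right
      intro c x hx hr
      by_cases hxn : x ∈ ({u, v} : Set (ℕ × ℕ))
      · exact hxn
      · have h1 : x ∈ YW P S row w D₀ Hs₀ z c \ {u, v} := ⟨hY c x hx hr, hxn⟩
        rw [hsub c] at h1
        refine absurd hr (hbad y x hyo ?_)
        rw [mem_singleton_iff.1 h1, sd_self]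
        omega

/-- at most four vertices are ever locations -/
theorem Rnd.supp4 [P.Finite] (h : Rnd P S row w D β D₀ δ₀ D₁ δ₁ Hm Hs₀ Om₁ Hs₁ Om₂) {z : α}
    (hz : z ∈ D) (hzcl : z ∈ P.closure S) {u v : ℕ × ℕ} (huv : wadj u v) (hu : VisR w δ₁ Om₂ u)
    (hv : VisR w δ₁ Om₂ v) (hs : SnW P S row w D₀ Hs₀ z u v) :
    ∃ N : Finset (ℕ × ℕ), N.card ≤ 4 ∧ ∀ c, ∀ x ∈ YW P S row w D₀ Hs₀ z c, x ∈ N := by
  classical
  have hT := h.locT hz hzcl
  have hst : ∀ a : ℕ × ℕ, ∃ N : Finset (ℕ × ℕ), N.card ≤ 4 ∧ ∀ x ∈ nst wadj a, x ∈ N := by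
    intro a
    refine ⟨{a, (a.1 - 1, a.2), (a.1 + 1, a.2), vn a}, Finset.card_le_four, ?_⟩
    intro x hx
    rw [star_eq_nst, insert_eq_of_mem (self_mem_star a)] at hx
    unfold star at hx
    simp only [mem_insert_iff, mem_singleton_iff] at hx
    simp only [Finset.mem_insert, Finset.mem_singleton]
    exact hx
  rcases hT.cls_supp huv hu hv hs with ⟨p, q, hpq, _, hpn, hqn, hsub⟩ | hsub | hsub | ⟨y, hyn, hsub⟩
  · refine ⟨{u, v, p, q}, Finset.card_le_four, fun c x hx => ?_⟩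
    have h1 := hsub c hx
    simp only [mem_insert_iff, mem_singleton_iff] at h1
    simp only [Finset.mem_insert, Finset.mem_singleton]
    exact h1
  · obtain ⟨N, h1, h2⟩ := hst u
    exact ⟨N, h1, fun c x hx => h2 x (hsub c hx)⟩
  · obtain ⟨N, h1, h2⟩ := hst v
    exact ⟨N, h1, fun c x hx => h2 x (hsub c hx)⟩
  · refine ⟨{u, v, y}, Finset.card_le_three.trans (by omega), fun c x hx => ?_⟩
    simp only [Finset.mem_insert, Finset.mem_singleton]
    by_cases hxn : x ∈ ({u, v} : Set (ℕ × ℕ))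
    · simp only [mem_insert_iff, mem_singleton_iff] at hxn
      tauto
    · have h1 : x ∈ YW P S row w D₀ Hs₀ z c \ {u, v} := ⟨hx, hxn⟩
      rw [hsub c] at h1
      exact Or.inr (Or.inr h1)

/-- exits of round 0 -/
theorem Rnd.exit0 [P.Finite] (h : Rnd P S row w D β D₀ δ₀ D₁ δ₁ Hm Hs₀ Om₁ Hs₁ Om₂) (hβ : 4 ≤ β)
    {z : α} (hz : z ∈ D) (hzcl : z ∈ P.closure S) (hzS : z ∉ S) {u v : ℕ × ℕ} (huv : wadj u v)
    (hu : VisR w δ₁ Om₂ u) (hv : VisR w δ₁ Om₂ v) (hs : SnW P S row w D₀ Hs₀ z u v)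
    (hcl : ∀ c, ∀ x ∈ YW P S row w D₀ Hs₀ z c, OutW δ₀ w Om₁ x) {U : Set (ℕ × ℕ)}
    {c : ChW S row w} {y : ℕ × ℕ} (hy : y ∉ U) (hyc : y ∈ YW P S row w D₀ Hs₀ z c)
    (hsub : YW P S row w D₀ Hs₀ z c ⊆ insert y U) :
    ExitEH P S row w D₀ β δ₀ Hs₀ Om₁ U c.1 y z := by
  classical
  obtain ⟨N, hN, hNc⟩ := h.supp4 hz hzcl huv hu hv hs
  refine ⟨⟨hzcl, hzS⟩, ⟨N.filter fun x => OutW δ₀ w Om₁ x, (Finset.card_filter_le _ _).trans
    (hN.trans hβ), ?_, ?_⟩, hyc.1, hyc.2.1, hyc.2.2, hy, ?_⟩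
  · intro c' hc' hW' x hx hxd hxH
    have h1 : x ∈ YW P S row w D₀ Hs₀ z ⟨c', hc', hW'⟩ := ⟨hx, hxd, hxH⟩
    rw [Finset.coe_filter]
    exact ⟨hNc _ x h1, hcl _ x h1⟩
  · intro p hp
    exact (Finset.mem_filter.1 hp).2
  · intro x hx hxd hxH
    rcases hsub ⟨hx, hxd, hxH⟩ with h1 | h1
    · exact Or.inr h1
    · exact Or.inl h1

/-- exits of round 1 -/
theorem Rnd.exit1 [P.Finite] (h : Rnd P S row w D β D₀ δ₀ D₁ δ₁ Hm Hs₀ Om₁ Hs₁ Om₂) (hβ : 4 ≤ β)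
    {z : α} (hz : z ∈ D) (hzcl : z ∈ P.closure S) (hzS : z ∉ S) {u v : ℕ × ℕ} (huv : wadj u v)
    (hu : VisR w δ₁ Om₂ u) (hv : VisR w δ₁ Om₂ v) (hs : SnW P S row w D₀ Hs₀ z u v)
    (hcl : ∀ c, ∀ x ∈ YW P S row w D₀ Hs₀ z c, OutW δ₁ w Om₂ x) {U : Set (ℕ × ℕ)}
    {c : ChW S row w} {y : ℕ × ℕ} (hy : y ∉ U) (hyc : y ∈ YW P S row w D₀ Hs₀ z c)
    (hsub : YW P S row w D₀ Hs₀ z c ⊆ insert y U) :
    ExitEH P S row w D₁ β δ₁ Hs₁ Om₂ U c.1 y z := by
  classical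
  obtain ⟨l1, l2, l3, l4⟩ := h.le
  obtain ⟨N, hN, hNc⟩ := h.supp4 hz hzcl huv hu hv hs
  have hyr := hcl c y hyc
  refine ⟨⟨hzcl, hzS⟩, ⟨N.filter fun x => OutW δ₁ w Om₂ x, (Finset.card_filter_le _ _).trans
    (hN.trans hβ), ?_, ?_⟩, hyc.1, ?_, ?_, hy, ?_⟩
  · intro c' hc' hW' x hx hxd hxH
    have h1 : x ∈ YW P S row w D₀ Hs₀ z ⟨c', hc', hW'⟩ := ⟨hx, h.reg01 ⟨hxd, hxH⟩⟩
    rw [Finset.coe_filter]
    exact ⟨hNc _ x h1, hcl _ x h1⟩
  · intro p hp
    exact (Finset.mem_filter.1 hp).2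
  · have h1 := hyr.1
    unfold DeepR at h1 ⊢
    simp only at h1 ⊢
    omega
  · intro h1
    have h2 := OutW.sd_le hyr (h.sub₁ h1)
    rw [sd_self] at h2
    omega
  · intro x hx hxd hxH
    rcases hsub ⟨hx, h.reg01 ⟨hxd, hxH⟩⟩ with h1 | h1
    · exact Or.inr h1
    · exact Or.inl h1

/-- local elements of round 0 -/
lemma locEH₀ {z : α} (hzcl : z ∈ P.closure S) (hzS : z ∉ S) {ω : Set (Sym2 (ℕ × ℕ))}
    {U : Set (ℕ × ℕ)} (hl : ∀ c, YW P S row w D₀ Hs₀ z c ⊆ U) :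
    LocEH P S row w D₀ Hs₀ ω U z :=
  Or.inr ⟨hzcl, hzS, fun c hc hW _v hv hd hH => hl ⟨c, hc, hW⟩ ⟨hv, hd, hH⟩⟩

/-- local elements of round 1 -/
lemma locEH₁ {z : α} (hzcl : z ∈ P.closure S) (hzS : z ∉ S) {ω : Set (Sym2 (ℕ × ℕ))}
    {U : Set (ℕ × ℕ)} (hl : ∀ c : ChW S row w, ∀ x ∈ LocR P S row c.1 z, RegW w D₁ Hs₁ x → x ∈ U) :
    LocEH P S row w D₁ Hs₁ ω U z :=
  Or.inr ⟨hzcl, hzS, fun c hc hW v hv hd hH => hl ⟨c, hc, hW⟩ v hv ⟨hd, hH⟩⟩

end

end DA
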