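import Pool.Agent.DA.WitT
import Pool.Agent.DA.RndLoc
import Pool.Agent.TST.StarFin

/-!
# Stars in the language of location systems (T-star, helper94)

`WRnd.twitN`: the witness of an exit of a visible star, `T` = elements which are local in `nst wadj u`.
`WRnd.splitN`: the star split at a visible star.
-/

set_option autoImplicit false

open Set BIC BICS
open scoped Matroid

namespace DA

open Gad TST

section

variable {α : Type*} {P : Matroid α} {S : Set α} {row : α → Sym2 (ℕ × ℕ)} {w : ℕ}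
  {D β δe δ : ℕ} {Hs Om : Finset (ℕ × ℕ)} {u v : ℕ × ℕ} {V : Fin 3 → ℕ × ℕ} {z t : α}
  {T W : Set α}

lemma nst_eq (hu : 1 ≤ u.1 ∧ 1 ≤ u.2) (hnb : Nb3 u (V 0) (V 1) (V 2)) :
    nst wadj u = ({u, V 0, V 1, V 2} : Set (ℕ × ℕ)) := by
  ext x
  exact (nst_of hu hnb).symm

/-- the three neighbours of a vertex -/
lemma exists_nb3 (hu : 1 ≤ u.1 ∧ 1 ≤ u.2) : ∃ V : Fin 3 → ℕ × ℕ, Nb3 u (V 0) (V 1) (V 2) := by
  obtain ⟨a, b⟩ := u
  simp only at hu
  have key : ∃ v₁ v₂ v₃, Nb3 (a, b) v₁ v₂ v₃ := by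
    have k1 : wadj (a, b) (a + 1, b) := Or.inl ⟨rfl, Or.inl rfl⟩
    have k2 : wadj (a, b) (a - 1, b) := Or.inl ⟨rfl, Or.inr (by simp only; omega)⟩
    by_cases h1 : (a + b) % 2 = 0
    · refine ⟨(a + 1, b), (a - 1, b), (a, b + 1), k1, k2, Or.inr ⟨rfl, Or.inl ⟨rfl, h1⟩⟩, ?_, ?_, ?_⟩
      all_goals
        intro h2
        rw [Prod.mk.injEq] at h2
        omega
    · refine ⟨(a + 1, b), (a - 1, b), (a, b - 1), k1, k2, Or.inr ⟨rfl, Or.inr ⟨?_, ?_⟩⟩, ?_, ?_, ?_⟩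
      · simp only
        omega
      · simp only
        omega
      all_goals
        intro h2
        rw [Prod.mk.injEq] at h2
        omega
  obtain ⟨v₁, v₂, v₃, h1⟩ := key
  exact ⟨![v₁, v₂, v₃], h1⟩

lemma WRnd.one_le (h : WRnd P S row w D β δe δ Hs Om) (hu : OutW δ w Om u) :
    1 ≤ u.1 ∧ 1 ≤ u.2 := by
  have h1 := (h.reg hu (x := u) (by rw [sd_self]; omega)).2.2
  unfold DeepR at h1
  simp only at h1
  omega

/-- **Witness of an exit of a visible star.** -/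
theorem WRnd.twitN [P.Finite] (h : WRnd P S row w D β δe δ Hs Om) (hu : OutW δ w Om u)
    (hnb : Nb3 u (V 0) (V 1) (V 2))
    (hT : ∀ t ∈ T, t ∈ P.closure S ∧ t ∉ S ∧ ∀ c : ChW S row w, ∀ x ∈ LocR P S row c.1 t,
      RegW w D Hs x → x ∈ nst wadj u)
    (hzT : z ∉ T) {c : ChW S row w} {y : ℕ × ℕ}
    (hz : ExitEH P S row w D β δe Hs Om (nst wadj u) c.1 y z) {A : α → Fin 3 → Set α}
    (hA : ∀ i, ∀ x ∈ SX S row u V i, (x ∈ Ar P S row c.1 (V i) z ↔ x ∈ A z i)) :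
    TWit (Er P S) (fun t i => Lr P S row w (V i) t) A
      (fun t x y v => t ∈ P.closure (S \ {x, y, v})) (SX S row u V) T z := by
  have e1 := nst_eq (h.one_le hu) hnb
  rw [e1] at hT hz
  exact h.twit hu hnb (fun t ht => ⟨(hT t ht).1, (hT t ht).2.1,
    fun c hc hW x hx hd hH => (hT t ht).2.2 ⟨c, hc, hW⟩ x hx ⟨hd, hH⟩⟩) hzT c.2.1 c.2.2 hz hA

/-- local elements of a star are quiet behind the neighbours -/
theorem WRnd.quiet_nst [P.Finite] (h : WRnd P S row w D β δe δ Hs Om) (hu : OutW δ w Om u)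
    (hnb : Nb3 u (V 0) (V 1) (V 2))
    (hl : ∀ c : ChW S row w, ∀ x ∈ LocR P S row c.1 t, RegW w D Hs x → x ∈ nst wadj u)
    (i : Fin 3) : Quiet P S row (V i) u t := by
  rw [nst_eq (h.one_le hu) hnb] at hl
  exact h.quiet_star hu hnb (fun c hc hW x hx hd hH => hl ⟨c, hc, hW⟩ x hx ⟨hd, hH⟩) i

/-- the legs are nonempty and finite -/
lemma WRnd.legs [P.Finite] (h : WRnd P S row w D β δe δ Hs Om) (hu : OutW δ w Om u)
    (hnb : Nb3 u (V 0) (V 1) (V 2)) (i : Fin 3) :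
    (SX S row u V i).Finite ∧ (SX S row u V i).Nonempty := by
  refine ⟨P.ground_finite.subset fun e he => h.sub he.1, ?_⟩
  obtain ⟨c, hc, hW⟩ := h.rep
  have hadj : wadj u (V i) := by
    fin_cases i
    exacts [hnb.1, hnb.2.1, hnb.2.2.1]
  have hr : ∀ p : ℕ × ℕ, sd u p ≤ 6 → p ∈ rect 0 0 (w + 1) (w + 1) := by
    intro p hp
    have h1 := (h.reg hu hp).2.2
    unfold DeepR at h1
    simp only at h1
    rw [Gad.mem_rct]
    omega
  obtain ⟨e, he, hee⟩ := hW.surj u (V i) hadj (hr _ (by rw [sd_self]; omega))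
    (hr _ (by have := (wadj_sd hadj).1; omega)) (notMem_empty _)
  exact ⟨e, hc he, hee⟩

/-- **The star split at a visible star.** -/
theorem WRnd.splitN [P.Finite] (h : WRnd P S row w D β δe δ Hs Om) (hu : OutW δ w Om u)
    (hnb : Nb3 u (V 0) (V 1) (V 2))
    (hT : ∀ t ∈ T, t ∈ P.closure S ∧ t ∉ S ∧ ∀ c : ChW S row w, ∀ x ∈ LocR P S row c.1 t,
      RegW w D Hs x → x ∈ nst wadj u)
    (hTW : Disjoint T W) {A : α → Fin 3 → Set α}
    (hW : ∀ z ∈ W, ∃ (c : ChW S row w) (y : ℕ × ℕ),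
      ExitEH P S row w D β δe Hs Om (nst wadj u) c.1 y z ∧
      ∀ i, ∀ x ∈ SX S row u V i, (x ∈ Ar P S row c.1 (V i) z ↔ x ∈ A z i)) :
    ∃ (C : Fin 3 → Set α) (Lk : Set α), StarSplit (Er P S) (fun t i => Lr P S row w (V i) t) A
      (fun t x y v => t ∈ P.closure (S \ {x, y, v})) (SX S row u V) C T W Lk := by
  refine starSplit _ _ _ _ _ T W (fun i => (h.legs hu hnb i).1) (fun i => (h.legs hu hnb i).2) hTW ?_
  intro z hz
  obtain ⟨c, y, h1, h2⟩ := hW z hz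
  exact h.twitN hu hnb hT (fun h3 => disjoint_left.1 hTW h3 hz) h1 h2

end

end DA
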