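import Pool.Agent.DA.DegTri
import Pool.Agent.DA.WitN

/-!
# Degenerate tripods in one round (T-star, helper51)

`WRnd.dt`: `d` is local at the star of a visible vertex `u` and `V j`, `V k` are locations of `d` for
all representatives.  `WRnd.dt_split`: the same together with the star split.  `Rnd.dt_loc`: the
hypotheses from the location system.
-/

set_option autoImplicit false

open Set BIC BICS
open scoped Matroid

namespace DA

open Gad TST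

section

variable {α : Type*} {P : Matroid α} {S : Set α} {row : α → Sym2 (ℕ × ℕ)} {w : ℕ}
  {D β δe δ : ℕ} {Hs Om : Finset (ℕ × ℕ)} {u : ℕ × ℕ} {V : Fin 3 → ℕ × ℕ} {d : α}
  {i j k : Fin 3}

/-- **Degenerate tripods.** -/
theorem WRnd.dt [P.Finite] (h : WRnd P S row w D β δe δ Hs Om) (hu : OutW δ w Om u)
    (hnb : Nb3 u (V 0) (V 1) (V 2)) (hd : d ∈ P.closure S) (hdS : d ∉ S)
    (hl : ∀ c : ChW S row w, ∀ x ∈ LocR P S row c.1 d, RegW w D Hs x → x ∈ nst wadj u)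
    (hij : i ≠ j) (hik : i ≠ k) (hjk : j ≠ k)
    (hj : ∀ c : ChW S row w, V j ∈ LocR P S row c.1 d)
    (hk : ∀ c : ChW S row w, V k ∈ LocR P S row c.1 d) :
    (∀ x ∈ SX S row u V j, ∀ y ∈ SX S row u V j, Er P S d x y) ∧
      (∀ x ∈ SX S row u V k, ∀ y ∈ SX S row u V k, Er P S d x y) ∧
      (∀ x ∈ SX S row u V i, ∀ y ∈ SX S row u V i,
        (Er P S d x y ↔ (x ∈ Lr P S row w (V i) d ↔ y ∈ Lr P S row w (V i) d))) ∧
      (∀ x ∈ SX S row u V j, x ∉ Lr P S row w (V j) d) ∧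
      ∀ x ∈ SX S row u V k, x ∉ Lr P S row w (V k) d := by
  obtain ⟨c, hc, hW⟩ := h.rep
  obtain ⟨o, ho⟩ := exists_ends hW hnb (h.reg hu (x := u) (by rw [sd_self]; omega)).2.2
  obtain ⟨h1, h2, -⟩ := h.star u V c o hnb hu hc hW ho
  have hj' : ∀ c, c ⊆ S → WallE c row w ∅ → V j ∈ LocR P S row c d :=
    fun c hc hW => hj ⟨c, hc, hW⟩
  have hk' : ∀ c, c ⊆ S → WallE c row w ∅ → V k ∈ LocR P S row c d :=
    fun c hc hW => hk ⟨c, hc, hW⟩
  have e1 := nst_eq (h.one_le hu) hnb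
  obtain ⟨k1, k2, k3⟩ := h1.dt h2 (fun x hx hux => Or.inl ⟨hx, hux⟩)
    (Or.inr ⟨hd, hdS, fun c hc hW x hx hxd hxH => by
      have h3 := hl ⟨c, hc, hW⟩ x hx ⟨hxd, hxH⟩
      rwa [e1] at h3⟩) hd hdS hij hik hjk (h.legs hu hnb j).2 (h.legs hu hnb k).2 hj' hk'
    (h.quiet_nst hu hnb hl i)
  exact ⟨k1, k2, k3, fun x hx => notMem_Lr_of_loc h.mem hc hW hj' hx.1,
    fun x hx => notMem_Lr_of_loc h.mem hc hW hk' hx.1⟩

/-- **Degenerate tripods and the star split.** -/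
theorem WRnd.dt_split [P.Finite] (h : WRnd P S row w D β δe δ Hs Om) (hu : OutW δ w Om u)
    (hnb : Nb3 u (V 0) (V 1) (V 2)) (hd : d ∈ P.closure S) (hdS : d ∉ S)
    (hl : ∀ c : ChW S row w, ∀ x ∈ LocR P S row c.1 d, RegW w D Hs x → x ∈ nst wadj u)
    (hij : i ≠ j) (hik : i ≠ k) (hjk : j ≠ k)
    (hj : ∀ c : ChW S row w, V j ∈ LocR P S row c.1 d)
    (hk : ∀ c : ChW S row w, V k ∈ LocR P S row c.1 d)
    {A : α → Fin 3 → Set α} {B : α → α → α → α → Prop} {C : Fin 3 → Set α} {T W Lk : Set α}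
    (hS : StarSplit (Er P S) (fun t i => Lr P S row w (V i) t) A B (SX S row u V) C T W Lk)
    (hdT : d ∈ T) (hs : ∃ x ∈ SX S row u V i, ∃ y ∈ SX S row u V i, ¬ Er P S d x y) :
    NearT (fun t i => Lr P S row w (V i) t) (SX S row u V) d ∧ d ∉ Lk ∧
      SX S row u V j ⊆ C j ∧ SX S row u V k ⊆ C k ∧
      (∀ x ∈ SX S row u V i, x ∉ C i → x ∈ Lr P S row w (V i) d) ∧
      (∀ z ∈ W ∪ Lk, (∀ x ∈ SX S row u V j, ∀ y ∈ SX S row u V j, Er P S z x y) ∧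
        ∀ x ∈ SX S row u V k, ∀ y ∈ SX S row u V k, Er P S z x y) ∧
      ∀ z ∈ W, CmpOn (SX S row u V i) (Lr P S row w (V i) d) (A z i) := by
  obtain ⟨-, -, -, h4, h5⟩ := h.dt hu hnb hd hdS hl hij hik hjk hj hk
  obtain ⟨k1, k2, k3, k4, k5, k6⟩ := hS.dt hdT hij hik hjk (h.legs hu hnb j).2
    (h.legs hu hnb k).2 h4 h5 hs
  exact ⟨k1, k2, k3, k4, k5, k6, fun z hz => hS.exi d hdT k1 z hz i⟩

end

section rnd

variable {α : Type*} {P : Matroid α} {S : Set α} {row : α → Sym2 (ℕ × ℕ)} {w : ℕ} {D : Set α}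
  {β D₀ δ₀ D₁ δ₁ : ℕ} {Hm Hs₀ Om₁ Hs₁ Om₂ : Finset (ℕ × ℕ)} {u : ℕ × ℕ} {V : Fin 3 → ℕ × ℕ}
  {z : α} {i j k : Fin 3}

/-- the neighbours of `u` -/
lemma nb3_adj {V : Fin 3 → ℕ × ℕ} (hnb : Nb3 u (V 0) (V 1) (V 2)) (i : Fin 3) : wadj u (V i) := by
  fin_cases i
  exacts [hnb.1, hnb.2.1, hnb.2.2.1]

lemma nb3_inj {V : Fin 3 → ℕ × ℕ} (hnb : Nb3 u (V 0) (V 1) (V 2)) {i j : Fin 3} (hij : i ≠ j) :
    V i ≠ V j := by
  obtain ⟨-, -, -, h1, h2, h3⟩ := hnb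
  fin_cases i <;> fin_cases j
  exacts [absurd rfl hij, h1, h2, h1.symm, absurd rfl hij, h3, h2.symm, h3.symm, absurd rfl hij]

/-- **The hypotheses from the location system** (`LocS.cls_row`). -/
theorem Rnd.dt_loc (h : Rnd P S row w D β D₀ δ₀ D₁ δ₁ Hm Hs₀ Om₁ Hs₁ Om₂)
    (hnb : Nb3 u (V 0) (V 1) (V 2)) (hij : i ≠ j) (hik : i ≠ k)
    (hY : ∀ c, YW P S row w D₀ Hs₀ z c \ {u, V i} = nst wadj u \ {u, V i}) :
    (∀ c : ChW S row w, ∀ x ∈ LocR P S row c.1 z, RegW w D₁ Hs₁ x → x ∈ nst wadj u) ∧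
      (∀ c : ChW S row w, V j ∈ LocR P S row c.1 z) ∧
      ∀ c : ChW S row w, V k ∈ LocR P S row c.1 z := by
  have hne : ∀ l, wadj u (V l) → u ≠ V l := by
    intro l hl he
    have := wadj_par' hl
    rw [← he] at this
    omega
  have key : ∀ l, i ≠ l → ∀ c : ChW S row w, V l ∈ LocR P S row c.1 z := by
    intro l hl c
    have h1 : V l ∈ nst wadj u \ {u, V i} := by
      refine ⟨Or.inr (nb3_adj hnb l), ?_⟩
      rintro (h2 | h2)
      · exact hne l (nb3_adj hnb l) h2.symm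
      · exact nb3_inj hnb hl (mem_singleton_iff.1 h2).symm
    rw [← hY c] at h1
    exact h1.1.1
  refine ⟨fun c x hx hr => ?_, key j hij, key k hik⟩
  by_cases h2 : x ∈ ({u, V i} : Set (ℕ × ℕ))
  · rcases h2 with h2 | h2
    · exact Or.inl h2
    · rw [mem_singleton_iff.1 h2]
      exact Or.inr (nb3_adj hnb i)
  · have h3 : x ∈ YW P S row w D₀ Hs₀ z c \ {u, V i} := ⟨⟨hx, h.reg01 hr⟩, h2⟩
    rw [hY c] at h3
    exact h3.1

end rnd

end DA
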