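import Pool.Agent.DA.WitS
import Pool.Agent.TST.DegT
import Pool.Agent.TST.StarSys

/-!
# Degenerate tripods of a star (T-star, helper51)

`StarE.dt`: `d` is local at the star of `u` and has a location at `V j` and at `V k` for all
representatives.  Then it separates nothing on the legs `j`, `k` and has at most two classes on the
leg `i`.
-/

set_option autoImplicit false

open Set BIC BICS
open scoped Matroid

namespace DA

open Gad TST

section

variable {α : Type*} {P : Matroid α} {S : Set α} {row : α → Sym2 (ℕ × ℕ)} {w : ℕ} {u : ℕ × ℕ}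
  {V : Fin 3 → ℕ × ℕ} {c : Set α} {o : Fin 3 → α} {d : α} {Lc : α → Prop} {i j k : Fin 3}

/-- an end which is always a location: no element of the leg is in its class -/
lemma notMem_Lr_of_loc (hmem : ∀ e ∈ S, ∃ p q, row e = s(p, q) ∧ wadj p q ∧
      p ∈ rect 0 0 (w + 1) (w + 1) ∧ q ∈ rect 0 0 (w + 1) (w + 1))
    (hc : c ⊆ S) (hW : WallE c row w ∅) {v : ℕ × ℕ}
    (hl : ∀ c, c ⊆ S → WallE c row w ∅ → v ∈ LocR P S row c d) {x : α} (hx : x ∈ S) :
    x ∉ Lr P S row w v d := by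
  obtain ⟨hc₁, hW₁⟩ := swp_rep hc hW hx (rep_of hmem hW hx)
  intro h1
  exact hl _ hc₁ hW₁ (h1 _ hc₁ hW₁ (Or.inr rfl))

/-- an end which is never a location: all elements of the leg are in its class -/
lemma mem_Lr_of_noloc {v : ℕ × ℕ}
    (hl : ∀ c, c ⊆ S → WallE c row w ∅ → v ∉ LocR P S row c d) (x : α) :
    x ∈ Lr P S row w v d := by
  intro c hc hW _
  by_contra h1
  exact hl c hc hW h1

/-- **Degenerate tripods.** -/
theorem StarE.dt [P.Finite] (h : StarE P S row w u V c o) (h0 : StI0 P S row u V c o Lc)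
    (hLc : ∀ x ∈ S, u ∈ row x → Lc x) (hLd : Lc d) (hd : d ∈ P.closure S) (hdS : d ∉ S)
    (hij : i ≠ j) (hik : i ≠ k) (hjk : j ≠ k) (hjn : (SX S row u V j).Nonempty)
    (hkn : (SX S row u V k).Nonempty)
    (hj : ∀ c, c ⊆ S → WallE c row w ∅ → V j ∈ LocR P S row c d)
    (hk : ∀ c, c ⊆ S → WallE c row w ∅ → V k ∈ LocR P S row c d)
    (hq : Quiet P S row (V i) u d) :
    (∀ x ∈ SX S row u V j, ∀ y ∈ SX S row u V j, Er P S d x y) ∧
      (∀ x ∈ SX S row u V k, ∀ y ∈ SX S row u V k, Er P S d x y) ∧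
      ∀ x ∈ SX S row u V i, ∀ y ∈ SX S row u V i,
        (Er P S d x y ↔ (x ∈ Lr P S row w (V i) d ↔ y ∈ Lr P S row w (V i) d)) := by
  have hdF : d ∉ FStar S row c u (V 0) (V 1) (V 2) := fun h1 => hdS h1.1.1
  have hdK : d ∉ TK (SX S row u V) o := fun h1 => hdS (h.ste.TK_sub h1)
  have hdc := h.ste.cl hd hdF
  have th := h.th
  have hno : ∀ C ⊆ insert d (TK (SX S row u V) o),
      (P ／ FStar S row c u (V 0) (V 1) (V 2)).IsCircuit C → (∀ l, o l ∈ C) → False := by
    intro C hC hcir ho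
    refine h.p1 h0 (T := {d}) (fun t ht => (mem_singleton_iff.1 ht) ▸ hLd) hLc C ?_ hcir ho
    intro x hx
    rcases hC hx with h1 | h1
    · exact Or.inr h1
    · exact Or.inl h1
  -- an end which is always a location is alone in its class
  have hfar : ∀ l, (∀ c, c ⊆ S → WallE c row w ∅ → V l ∈ LocR P S row c d) →
      ∀ x ∈ SX S row u V l,
        ¬ Eqv (P ／ FStar S row c u (V 0) (V 1) (V 2)) (TK (SX S row u V) o) d x (o l) := by
    intro l hl x hx h1
    have h2 := (star_O h.ste hx hdF).1 h1.symm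
    obtain ⟨hc₁, hW₁⟩ := swp_rep h.ste.hc h.wal hx.1 (rep_of h.mem h.wal hx.1)
    exact hl _ hc₁ hW₁ h2
  -- one class besides the class of the end
  have hone : ∀ {l m n : Fin 3}, l ≠ m → l ≠ n → m ≠ n →
      (∃ y ∈ SX S row u V m,
        ¬ Eqv (P ／ FStar S row c u (V 0) (V 1) (V 2)) (TK (SX S row u V) o) d y (o m)) →
      ∀ x ∈ SX S row u V l, ∀ x' ∈ SX S row u V l,
        ¬ Eqv (P ／ FStar S row c u (V 0) (V 1) (V 2)) (TK (SX S row u V) o) d x (o l) →
        ¬ Eqv (P ／ FStar S row c u (V 0) (V 1) (V 2)) (TK (SX S row u V) o) d x' (o l) →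
        Eqv (P ／ FStar S row c u (V 0) (V 1) (V 2)) (TK (SX S row u V) o) d x x' := by
    rintro l m n h1 h2 h3 ⟨y, hy, hyn⟩ x hx x' hx' nx nx'
    refine (Theta.perm (f := leg (SX S row u V) o) th h1 h2 h3).cls_of_noCir (o₁ := o l)
      (o₂ := o m) (o₃ := o n) (Or.inl rfl) (Or.inl rfl) (Or.inl rfl) hdc hdK ?_ (Or.inr hx)
      (Or.inr hx') (Or.inr hy) nx nx' hyn
    intro C hC hcir _ c1 c2 c3
    refine hno C hC hcir fun a => ?_
    rcases fin3 h1 h2 h3 a with rfl | rfl | rfl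
    exacts [c1, c2, c3]
  have hE : ∀ l, ∀ x ∈ SX S row u V l, ∀ y ∈ SX S row u V l,
      (Eqv (P ／ FStar S row c u (V 0) (V 1) (V 2)) (TK (SX S row u V) o) d x y ↔
        Er P S d x y) := fun l x hx y hy => star_E h.ste hx hy hdF
  obtain ⟨yj, hyj⟩ := hjn
  obtain ⟨yk, hyk⟩ := hkn
  refine ⟨fun x hx y hy => (hE j x hx y hy).1 ?_, fun x hx y hy => (hE k x hx y hy).1 ?_,
    fun x hx y hy => ?_⟩
  · exact hone hjk hij.symm hik.symm ⟨yk, hyk, hfar k hk yk hyk⟩ x hx y hy (hfar j hj x hx)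
      (hfar j hj y hy)
  · exact hone hjk.symm hik.symm hij.symm ⟨yj, hyj, hfar j hj yj hyj⟩ x hx y hy (hfar k hk x hx)
      (hfar k hk y hy)
  · have hL : ∀ x ∈ SX S row u V i,
        (Eqv (P ／ FStar S row c u (V 0) (V 1) (V 2)) (TK (SX S row u V) o) d (o i) x ↔
          x ∈ Lr P S row w (V i) d) := by
      intro x hx
      rw [star_O h.ste hx hdF]
      refine mem_Lr (h.cv i) h.ste.sub h.mem ?_ h.ste.hc h.wal hx.1
      intro a ha a' ha' haa hua hne hne'
      refine hq a ha a' ha' haa hua ?_ hne'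
      rw [Sym2.eq_swap, ← hx.2]
      exact hne
    have T := Theta.perm (f := leg (SX S row u V) o) th hij hik hjk
    have htr : ∀ {a b e : α}, a ∈ leg (SX S row u V) o i → b ∈ leg (SX S row u V) o i →
        e ∈ leg (SX S row u V) o i →
        Eqv (P ／ FStar S row c u (V 0) (V 1) (V 2)) (TK (SX S row u V) o) d a b →
        Eqv (P ／ FStar S row c u (V 0) (V 1) (V 2)) (TK (SX S row u V) o) d b e →
        Eqv (P ／ FStar S row c u (V 0) (V 1) (V 2)) (TK (SX S row u V) o) d a e :=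
      fun ha hb he h1 h2 => T.trans (y := o j) (Or.inl rfl) ha hb he h1 h2
    rw [← hE i x hx y hy, ← hL x hx, ← hL y hy]
    constructor
    · intro h1
      exact ⟨fun h2 => htr (Or.inl rfl) (Or.inr hx) (Or.inr hy) h2 h1,
        fun h2 => htr (Or.inl rfl) (Or.inr hy) (Or.inr hx) h2 h1.symm⟩
    · intro h1
      by_cases h2 : Eqv (P ／ FStar S row c u (V 0) (V 1) (V 2)) (TK (SX S row u V) o) d (o i) x
      · exact htr (Or.inr hx) (Or.inl rfl) (Or.inr hy) h2.symm (h1.1 h2)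
      · refine hone hij hik hjk ⟨yj, hyj, hfar j hj yj hyj⟩ x hx y hy (fun h3 => h2 h3.symm)
          fun h3 => h2 (h1.2 h3.symm)

end

end DA
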