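import Pool.Agent.GL.AsmC
import Pool.Agent.Helper53.BQ.Rk

/-!
# Eliminating vertex sets, carrying locations along straight paths, grounding
-/

open Set BIC BICS
open scoped Matroid

namespace DA

open Gad

variable {α V : Type*}

/-- `F` eliminates the vertices of `U`. -/
def Elim (S : Set α) (ends : α → Sym2 V) (U : Set V) (F : Set α) : Prop :=
  F ⊆ S ∧ ∃ φ : α → V, BijOn φ F U ∧ ∀ e ∈ F, φ e ∈ ends e

section

variable {M : Matroid α} {S : Set α} {ends : α → Sym2 V} {U U' : Set V} {F F' : Set α}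

lemma Elim.of_full (h : FullB S ends U F) : Elim S ends U F :=
  ⟨fun _ he => (h.1 he).1, h.2⟩

lemma Elim.full (h : Elim S ends U F) (hF : ∀ e ∈ F, ∀ v ∈ ends e, v ∈ U) :
    FullB S ends U F := ⟨fun e he => ⟨h.1 he, hF e he⟩, h.2⟩

lemma Elim.empty : Elim S ends (∅ : Set V) (∅ : Set α) := Elim.of_full FullB.empty

lemma Elim.union (h : Elim S ends U F) (h' : Elim S ends U' F') (hd : Disjoint U U')
    (hF : ∀ e ∈ F, ∀ v ∈ ends e, v ∉ U') : Elim S ends (U ∪ U') (F ∪ F') := by
  classical
  obtain ⟨h1, φ, h2, h3⟩ := h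
  obtain ⟨h1', ψ, h2', h3'⟩ := h'
  have hdis : ∀ e ∈ F', e ∉ F := by
    intro e he he'
    exact hF e he' (ψ e) (h3' e he) (h2'.mapsTo he)
  refine ⟨union_subset h1 h1', fun e => if e ∈ F then φ e else ψ e, ⟨?_, ?_, ?_⟩, ?_⟩
  · rintro e (he | he)
    · simp only [if_pos he]; exact Or.inl (h2.mapsTo he)
    · simp only [if_neg (hdis e he)]; exact Or.inr (h2'.mapsTo he)
  · rintro e (he | he) e' (he' | he') hee
    · simp only [if_pos he, if_pos he'] at hee
      exact h2.injOn he he' hee
    · simp only [if_pos he, if_neg (hdis e' he')] at hee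
      exact absurd (hee ▸ h2'.mapsTo he') (Set.disjoint_left.1 hd (h2.mapsTo he))
    · simp only [if_neg (hdis e he), if_pos he'] at hee
      exact absurd (hee ▸ h2'.mapsTo he) (Set.disjoint_left.1 hd (h2.mapsTo he'))
    · simp only [if_neg (hdis e he), if_neg (hdis e' he')] at hee
      exact h2'.injOn he he' hee
  · rintro v (hv | hv)
    · obtain ⟨e, he, rfl⟩ := h2.surjOn hv
      exact ⟨e, Or.inl he, if_pos he⟩
    · obtain ⟨e, he, rfl⟩ := h2'.surjOn hv
      exact ⟨e, Or.inr he, if_neg (hdis e he)⟩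
  · rintro e (he | he)
    · simp only [if_pos he]; exact h3 e he
    · simp only [if_neg (hdis e he)]; exact h3' e he

lemma Elim.biUnion {κ : Type*} [DecidableEq κ] (Q : Finset κ) (U : κ → Set V) (F : κ → Set α)
    (h : ∀ q ∈ Q, Elim S ends (U q) (F q))
    (hF : ∀ q ∈ Q, ∀ q' ∈ Q, q ≠ q' → ∀ e ∈ F q, ∀ v ∈ ends e, v ∉ U q')
    (hd : ∀ q ∈ Q, ∀ q' ∈ Q, q ≠ q' → Disjoint (U q) (U q')) :
    Elim S ends (⋃ q ∈ Q, U q) (⋃ q ∈ Q, F q) := by
  induction Q using Finset.induction_on with
  | empty => simpa using Elim.empty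
  | @insert a Q haQ ih =>
    rw [Finset.set_biUnion_insert, Finset.set_biUnion_insert]
    refine (h a (Finset.mem_insert_self _ _)).union
      (ih (fun q hq => h q (Finset.mem_insert_of_mem hq))
        (fun q hq q' hq' => hF q (Finset.mem_insert_of_mem hq) q' (Finset.mem_insert_of_mem hq'))
        (fun q hq q' hq' => hd q (Finset.mem_insert_of_mem hq) q' (Finset.mem_insert_of_mem hq')))
      ?_ ?_
    · rw [Set.disjoint_iUnion₂_right]
      intro q hq
      exact hd a (Finset.mem_insert_self _ _) q (Finset.mem_insert_of_mem hq)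
        (fun h => haQ (h ▸ hq))
    · intro e he v hv hv'
      obtain ⟨q, hq, hvq⟩ := mem_iUnion₂.1 hv'
      exact hF a (Finset.mem_insert_self _ _) q (Finset.mem_insert_of_mem hq)
        (fun h => haQ (h ▸ hq)) e he v hv hvq

lemma Elim.indep (hB : Bic M S ends) (h : Elim S ends U F) : M.Indep F := by
  obtain ⟨h1, φ, h2, h3⟩ := h
  exact hB.ind F φ h1 h2.injOn h3

/-- Contracting an eliminating set. -/
theorem Elim.bic [M.Finite] (hB : Bic M S ends) (h : Elim S ends U F) :
    Bic (M ／ F) (ins S ends Uᶜ) ends := by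
  classical
  obtain ⟨h1, φ, h2, h3⟩ := h
  have hFi : M.Indep F := hB.ind F φ h1 h2.injOn h3
  have hdis : ∀ e ∈ ins S ends Uᶜ, e ∉ F := fun e he heF => he.2 (φ e) (h3 e heF) (h2.mapsTo heF)
  refine ⟨?_, ?_, ?_⟩
  · intro e he
    exact ⟨hB.sub he.1, hdis e he⟩
  · intro J ψ hJ hψ hψe
    rw [hFi.contract_indep_iff]
    refine ⟨Set.disjoint_left.2 fun e he => hdis e (hJ he), ?_⟩
    refine hB.ind (J ∪ F) (fun e => if e ∈ F then φ e else ψ e) ?_ ?_ ?_
    · exact union_subset (fun e he => (hJ he).1) h1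
    · rintro e he e' he' hee
      by_cases hF : e ∈ F <;> by_cases hF' : e' ∈ F
      · simp only [if_pos hF, if_pos hF'] at hee
        exact h2.injOn hF hF' hee
      · have hJ' : e' ∈ J := he'.resolve_right hF'
        simp only [if_pos hF, if_neg hF'] at hee
        exact absurd (h2.mapsTo hF) (hee ▸ (hJ hJ').2 _ (hψe e' hJ'))
      · have hJ' : e ∈ J := he.resolve_right hF
        simp only [if_neg hF, if_pos hF'] at hee
        exact absurd (h2.mapsTo hF') (hee ▸ (hJ hJ').2 _ (hψe e hJ'))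
      · simp only [if_neg hF, if_neg hF'] at hee
        exact hψ (he.resolve_right hF) (he'.resolve_right hF') hee
    · rintro e he
      by_cases hF : e ∈ F
      · simp only [if_pos hF]; exact h3 e hF
      · simp only [if_neg hF]; exact hψe e (he.resolve_right hF)
  · intro W
    have e1 : ins (ins S ends Uᶜ) ends W ⊆ ins S ends W := fun e he => ⟨he.1.1, he.2⟩
    have hX : ins (ins S ends Uᶜ) ends W ⊆ M.E \ F := fun e he => ⟨hB.sub he.1.1, hdis e he.1⟩
    have h4 := BQ.rk_con (M := M) hFi.subset_ground hX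
    have h5 := rk_union_le M (X := ins (ins S ends Uᶜ) ends W) (Y := F)
      (M.ground_finite.subset hFi.subset_ground)
    have h6 := rk_indep hFi
    have h7 : rk (M ／ F) (ins (ins S ends Uᶜ) ends W) ≤ rk M (ins (ins S ends Uᶜ) ends W) := by
      omega
    have : (M ／ F).Finite := BQ.fin_contract F
    rw [← cast_rk (M ／ F)]
    calc ((rk (M ／ F) (ins (ins S ends Uᶜ) ends W) : ℕ) : ℕ∞)
        ≤ (rk M (ins (ins S ends Uᶜ) ends W) : ℕ) := by exact_mod_cast h7
      _ = M.eRk (ins (ins S ends Uᶜ) ends W) := cast_rk M _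
      _ ≤ M.eRk (ins S ends W) := M.eRk_mono e1
      _ ≤ W.encard := hB.rk W

/-- **A location is carried along a path.** -/
theorem carry (hB : Bic M S ends) {r : ℕ} {x : ℕ → V} {e : ℕ → α}
    (he : ∀ j < r, e j ∈ S ∧ ends (e j) = s(x j, x (j + 1))) (hinj : InjOn x (Iic r)) {z : α}
    (h0 : z ∉ M.closure (ins S ends {x 0}ᶜ))
    (h1 : ∀ j, 1 ≤ j → j ≤ r → z ∈ M.closure (ins S ends {x j}ᶜ)) :
    z ∉ M.closure (e '' Iio r ∪ ins S ends (x '' Iic r)ᶜ) := by
  have hkey : ∀ j, j ≤ r → z ∉ M.closure (e '' Iio j ∪ ins S ends (x '' Iic r)ᶜ) := by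
    intro j
    induction j with
    | zero =>
      intro _ hz
      refine h0 (M.closure_subset_closure ?_ hz)
      rintro a (⟨i, hi, _⟩ | ha)
      · exact absurd hi (by simp)
      · refine ⟨ha.1, fun v hv => ?_⟩
        rintro rfl
        exact ha.2 _ hv ⟨0, by simp, rfl⟩
    | succ j ih =>
      intro hj hz
      have h2 : e '' Iio (j + 1) ∪ ins S ends (x '' Iic r)ᶜ =
          insert (e j) (e '' Iio j ∪ ins S ends (x '' Iic r)ᶜ) := by
        ext a
        simp only [mem_union, mem_image, mem_Iio, mem_insert_iff]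
        constructor
        · rintro (⟨i, hi, rfl⟩ | ha)
          · by_cases hij : i = j
            · left; rw [hij]
            · right; left; exact ⟨i, by omega, rfl⟩
          · right; right; exact ha
        · rintro (rfl | ⟨i, hi, rfl⟩ | ha)
          · left; exact ⟨j, by omega, rfl⟩
          · left; exact ⟨i, by omega, rfl⟩
          · right; exact ha
      rw [h2] at hz
      have h3 := (M.closure_exchange ⟨hz, ih (by omega)⟩).1
      have h4 : insert z (e '' Iio j ∪ ins S ends (x '' Iic r)ᶜ) ⊆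
          M.closure (ins S ends {x (j + 1)}ᶜ) := by
        rintro a (rfl | ⟨i, hi, rfl⟩ | ha)
        · exact h1 (j + 1) (by omega) hj
        · rw [mem_Iio] at hi
          obtain ⟨h5, h6⟩ := he i (by omega)
          refine M.mem_closure_of_mem' ⟨h5, fun v hv => ?_⟩ (hB.sub h5)
          rw [h6, Sym2.mem_iff] at hv
          simp only [mem_compl_iff, mem_singleton_iff]
          rcases hv with rfl | rfl
          · intro h
            have := hinj (show i ∈ Iic r by simp; omega) (show j + 1 ∈ Iic r by simp; omega) h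
            omega
          · intro h
            have := hinj (show i + 1 ∈ Iic r by simp; omega)
              (show j + 1 ∈ Iic r by simp; omega) h
            omega
        · refine M.mem_closure_of_mem' ⟨ha.1, fun v hv => ?_⟩ (hB.sub ha.1)
          simp only [mem_compl_iff, mem_singleton_iff]
          rintro rfl
          exact ha.2 _ hv ⟨j + 1, by simp; omega, rfl⟩
      obtain ⟨h5, h6⟩ := he j (by omega)
      have h7 := M.closure_subset_closure_of_subset_closure h4 h3
      exact not_mem_Hx' hB h5 (by rw [h6]; simp) h7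
  exact hkey r le_rfl

end

/-! ### Grounding -/

section

variable {M : Matroid α} {S : Set α} {ends : α → Sym2 (ℕ × ℕ)}

/-- `v` can reach a unit face inside `W`. -/
def Fat (W : Set (ℕ × ℕ)) (v : ℕ × ℕ) : Prop :=
  ∃ x y : ℕ, (x, y) ∈ W ∧ (x + 1, y) ∈ W ∧ (x, y + 1) ∈ W ∧ (x + 1, y + 1) ∈ W ∧
    Rch W v (x, y)

lemma Rch.mem_left {W : Set (ℕ × ℕ)} {a b : ℕ × ℕ} (h : Rch W a b) (hb : b ∈ W) : a ∈ W := by
  have h1 := h.symm
  rcases Relation.ReflTransGen.cases_head h with h2 | ⟨c, h2, _⟩
  · rw [h2]; exact hb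
  · exact h2.2.1

/-- Every component with a face: the region is full. -/
theorem full_of_fat {U : Set (ℕ × ℕ)} (hP : Pres S ends U) :
    ∀ (n : ℕ) (W : Set (ℕ × ℕ)), W.Finite → W.ncard = n → W ⊆ U → (∀ v ∈ W, Fat W v) →
      ∃ F, FullB S ends W F := by
  classical
  intro n
  induction n using Nat.strong_induction_on with
  | _ n ih =>
    intro W hWf hn hWU hfat
    rcases W.eq_empty_or_nonempty with rfl | ⟨v, hv⟩
    · exact ⟨∅, FullB.empty⟩
    · obtain ⟨x, y, h00, h10, h01, h11, hreach⟩ := hfat v hv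
      set C : Set (ℕ × ℕ) := {w | w ∈ W ∧ Rch W (x, y) w} with hC
      have hCW : C ⊆ W := fun w hw => hw.1
      have hstep : ∀ a ∈ C, ∀ b ∈ W, Adj a b → b ∈ C := fun a ha b hb hab =>
        ⟨hb, ha.2.tail ⟨hab, ha.1, hb⟩⟩
      have hRC : ∀ a ∈ C, Rch C (x, y) a := by
        intro a ha
        have h1 : (x, y) ∈ C := ⟨h00, Relation.ReflTransGen.refl⟩
        have : ∀ a, Rch W (x, y) a → Rch C (x, y) a ∧ a ∈ C := by
          intro a h
          induction h with
          | refl => exact ⟨Relation.ReflTransGen.refl, h1⟩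
          | tail _ h2 ih =>
            obtain ⟨h3, h4⟩ := ih
            have h5 := hstep _ h4 _ h2.2.2 h2.1
            exact ⟨h3.tail ⟨h2.1, h4, h5⟩, h5⟩
        exact (this a ha.2).1
      have hCconn : Conn C :=
        ⟨⟨(x, y), h00, Relation.ReflTransGen.refl⟩, fun a ha b hb => (hRC a ha).symm.trans (hRC b hb)⟩
      have hmem : ∀ w, w ∈ W → Adj (x, y) w → w ∈ C := fun w hw hadj =>
        hstep (x, y) ⟨h00, Relation.ReflTransGen.refl⟩ w hw hadj
      have c10 : (x + 1, y) ∈ C := hmem _ h10 (by unfold Adj; simp)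
      have c01 : (x, y + 1) ∈ C := hmem _ h01 (by unfold Adj; simp)
      have c11 : (x + 1, y + 1) ∈ C := hstep _ c10 _ h11 (by unfold Adj; simp)
      obtain ⟨FC, e, h3, h4, h5⟩ := cluster_of (S := S) (ends := ends) (W := C)
        (hWf.subset hCW) (hCconn.vconn hP (hCW.trans hWU))
        (hasCyc_face hP (hCW.trans hWU) (x := x) (y := y)
          ⟨h00, Relation.ReflTransGen.refl⟩ c10 c01 c11)
      have hfC := FullB.of_arb h3 h4 h5
      have hlt : (W \ C).ncard < n := by
        rw [← hn]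
        refine Set.ncard_lt_ncard ?_ hWf
        refine ⟨sdiff_subset, fun h => ?_⟩
        exact (h h00).2 ⟨h00, Relation.ReflTransGen.refl⟩
      obtain ⟨F', hF'⟩ := ih _ hlt (W \ C) (hWf.subset sdiff_subset) rfl (sdiff_subset.trans hWU) (by
        intro w hw
        obtain ⟨x', y', g00, g10, g01, g11, gr⟩ := hfat w hw.1
        -- everything stays outside of `C`
        have hout : ∀ a b, a ∉ C → Adj a b → a ∈ W → b ∈ W → b ∉ C := by
          intro a b ha hab haW hbW hb
          exact ha (hstep b hb a haW hab.symm)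
        have hpath : ∀ a, Rch W w a → Rch (W \ C) w a ∧ (a ∈ W → a ∉ C) := by
          intro a h
          induction h with
          | refl => exact ⟨Relation.ReflTransGen.refl, fun _ => hw.2⟩
          | tail _ h2 ih =>
            obtain ⟨h6, h7⟩ := ih
            have h8 := h7 h2.2.1
            have h9 := hout _ _ h8 h2.1 h2.2.1 h2.2.2
            exact ⟨h6.tail ⟨h2.1, ⟨h2.2.1, h8⟩, ⟨h2.2.2, h9⟩⟩, fun _ => h9⟩
        obtain ⟨h6, h7⟩ := hpath _ gr
        have k00 := h7 g00
        have k10 := hout (x', y') (x' + 1, y') k00 (by unfold Adj; simp) g00 g10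
        have k01 := hout (x', y') (x', y' + 1) k00 (by unfold Adj; simp) g00 g01
        have k11 := hout (x' + 1, y') (x' + 1, y' + 1) k10 (by unfold Adj; simp) g10 g11
        exact ⟨x', y', ⟨g00, k00⟩, ⟨g10, k10⟩, ⟨g01, k01⟩, ⟨g11, k11⟩, h6⟩)
      refine ⟨FC ∪ F', ?_⟩
      have h6 := FullB.union hfC hF' disjoint_sdiff_right
      rwa [union_sdiff_cancel hCW] at h6

end

end DA
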