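import Pool.Agent.DA.RowWit
import Pool.Agent.DA.Geo2

/-!
# Witnesses of a row from one round of IN012 (R3 of T-star, helper33)
-/

set_option autoImplicit false

open Set BIC BICS
open scoped Matroid

namespace DA

open Gad TST

section

variable {α : Type*} {P : Matroid α} {S : Set α} {row : α → Sym2 (ℕ × ℕ)} {w : ℕ} {u v : ℕ × ℕ}
  {c : Set α} {o₁ o₂ z z' t : α} {T : Set α} {D β δ : ℕ} {Hs Om : Finset (ℕ × ℕ)} {y y' : ℕ × ℕ}

/-- an element which does not see the rows at `u` (except `uv`) is quiet at `u` -/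
theorem quiet_unseen (hmem : ∀ e ∈ S, ∃ p q, row e = s(p, q) ∧ wadj p q ∧
      p ∈ rect 0 0 (w + 1) (w + 1) ∧ q ∈ rect 0 0 (w + 1) (w + 1))
    (hun : ∀ q, wadj u q → q ≠ v → ¬ Seen P S row t s(u, q)) : Quiet P S row u v t := by
  intro a ha a' ha' haa hua hne _
  obtain ⟨p, q, h1, h2, -, -⟩ := hmem a ha
  have main : ∀ q, row a = s(u, q) → wadj u q → t ∈ P.closure (S \ {a, a'}) := by
    intro q h3 h4
    have hqv : q ≠ v := by
      rintro rfl
      exact hne h3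
    have h5 := hun q h4 hqv
    rw [Seen, not_not] at h5
    refine P.closure_subset_closure ?_ h5
    rintro e ⟨he, he'⟩
    refine ⟨he, ?_⟩
    rintro (h6 | h6)
    · exact he' ⟨he, by rw [h6, h3]⟩
    · exact he' ⟨he, by rw [mem_singleton_iff.1 h6, haa, h3]⟩
  rw [h1] at hua
  rcases Sym2.mem_iff.1 hua with h3 | h3
  · subst h3
    exact main q h1 h2
  · subst h3
    exact main p (by rw [h1, Sym2.eq_swap]) (wadj_swap h2)

/-- a same-row element (in the sense of the round `D`, `Hs`) is quiet at the end `u` -/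
theorem quiet_loc [P.Finite] (hS : S ⊆ P.E)
    (hmem : ∀ e ∈ S, ∃ p q, row e = s(p, q) ∧ wadj p q ∧
      p ∈ rect 0 0 (w + 1) (w + 1) ∧ q ∈ rect 0 0 (w + 1) (w + 1))
    (hrep : ∃ c, c ⊆ S ∧ WallE c row w ∅)
    (hreg : ∀ q, wadj u q → q ≠ v → RegV w D Hs q ∧ VC P S row w q)
    (ht : LocInH P S row w D Hs {u, v} t) : Quiet P S row u v t := by
  intro a ha a' ha' haa hua hne _
  obtain ⟨p, q, h1, h2, -, -⟩ := hmem a ha
  have main : ∀ q, row a = s(u, q) → wadj u q → t ∈ P.closure (S \ {a, a'}) := by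
    intro q h3 h4
    have hqv : q ≠ v := by
      rintro rfl
      exact hne h3
    have hqu : q ≠ u := by
      rintro rfl
      have := wadj_par' h4
      omega
    refine (hreg q h4 hqv).2.quiet hS hmem hrep ?_ ha ha' haa (by rw [h3]; exact Sym2.mem_mk_right _ _)
    intro c hc hW
    by_contra hcon
    have h5 := ht c hc hW q hcon (hreg q h4 hqv).1.1 (hreg q h4 hqv).1.2
    rcases h5 with h5 | h5
    · exact hqu h5
    · exact hqv h5
  rw [h1] at hua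
  rcases Sym2.mem_iff.1 hua with h3 | h3
  · subst h3
    exact main q h1 h2
  · subst h3
    exact main p (by rw [h1, Sym2.eq_swap]) (wadj_swap h2)

/-- the same-row elements of the row `uv` -/
def TRow {α : Type*} (P : Matroid α) (S : Set α) (row : α → Sym2 (ℕ × ℕ)) (w D : ℕ)
    (Hs : Finset (ℕ × ℕ)) (u v : ℕ × ℕ) : Set α :=
  {t | (t ∈ P.closure S ∧ t ∉ S) ∧ LocInH P S row w D Hs {u, v} t}

lemma exitEH_notMem (hc : c ⊆ S) (hW : WallE c row w ∅)
    (hz : ExitEH P S row w D β δ Hs Om {u, v} c y z) : z ∉ TRow P S row w D Hs u v :=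
  fun h1 => hz.y_out (h1.2 c hc hW y hz.y_loc hz.y_deep hz.y_hs)

/-- the ends of the row are in the region -/
structure EndR {α : Type*} (P : Matroid α) (S : Set α) (row : α → Sym2 (ℕ × ℕ)) (w D : ℕ)
    (Hs : Finset (ℕ × ℕ)) (u v : ℕ × ℕ) : Prop where
  left : ∀ q, wadj u q → q ≠ v → RegV w D Hs q ∧ VC P S row w q
  right : ∀ q, wadj v q → q ≠ u → RegV w D Hs q ∧ VC P S row w q

lemma IN012.pp (hIN : IN012 P S row w D β δ Hs Om) (huv : wadj u v) (hu : OutW δ w Om u)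
    (h : RowE P S row w u v c o₁ o₂) (hT : T ⊆ TRow P S row w D Hs u v)
    (hz : ExitEH P S row w D β δ Hs Om {u, v} c y z) :
    ∀ C, (P ／ FRow S row c u v).IsCircuit C → z ∈ C → o₁ ∈ C → o₂ ∈ C →
      (∀ x ∈ C, x = z ∨ x = o₁ ∨ x = o₂ ∨ x ∈ RX S row u v ∨ x ∈ T) → False := by
  intro C hC hzC h1 h2 hall
  refine (hIN c h.hc h.wal).2.2.1 u v o₁ o₂ C y z huv hu h.h₁ h.h₂ hC hz hzC h1 h2 ?_
  intro x hx
  rcases hall x hx with h3 | h3 | h3 | h3 | h3
  · exact Or.inl h3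
  · exact Or.inr (Or.inl h3)
  · exact Or.inr (Or.inr (Or.inl h3))
  · exact Or.inr (Or.inr (Or.inr (Or.inl h3)))
  · obtain ⟨⟨h4, h5⟩, h6⟩ := hT h3
    exact Or.inr (Or.inr (Or.inr (Or.inr ⟨h4, h5, h6⟩)))

lemma IN012.pp2 (hIN : IN012 P S row w D β δ Hs Om) (huv : wadj u v) (hu : OutW δ w Om u)
    (h : RowE P S row w u v c o₁ o₂) (hT : T ⊆ TRow P S row w D Hs u v)
    (hz : ExitEH P S row w D β δ Hs Om {u, v} c y z)
    (hz' : ExitEH P S row w D β δ Hs Om {u, v} c y' z') (hyy : y ≠ y')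
    (hnu : ¬ (wadj u y ∧ wadj u y')) (hnv : ¬ (wadj v y ∧ wadj v y')) :
    ∀ C, (P ／ FRow S row c u v).IsCircuit C → z ∈ C → z' ∈ C → o₁ ∈ C → o₂ ∈ C →
      (∀ x ∈ C, x = z ∨ x = z' ∨ x = o₁ ∨ x = o₂ ∨ x ∈ RX S row u v ∨ x ∈ T) → False := by
  intro C hC hzC hzC' h1 h2 hall
  refine (hIN c h.hc h.wal).2.2.2 u v o₁ o₂ C y z y' z' huv hu h.h₁ h.h₂ hC hz hz' hyy hnu hnv hzC
    hzC' h1 h2 ?_
  intro x hx
  rcases hall x hx with h3 | h3 | h3 | h3 | h3 | h3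
  · exact Or.inl h3
  · exact Or.inr (Or.inl h3)
  · exact Or.inr (Or.inr (Or.inl h3))
  · exact Or.inr (Or.inr (Or.inr (Or.inl h3)))
  · exact Or.inr (Or.inr (Or.inr (Or.inr (Or.inl h3))))
  · obtain ⟨⟨h4, h5⟩, h6⟩ := hT h3
    exact Or.inr (Or.inr (Or.inr (Or.inr (Or.inr ⟨h4, h5, h6⟩))))

/-- **(R3), one exit** -/
theorem rowB [P.Finite] (hIN : IN012 P S row w D β δ Hs Om) (huv : wadj u v) (hu : OutW δ w Om u)
    (h : RowE P S row w u v c o₁ o₂) (hE : EndR P S row w D Hs u v)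
    (hT : T ⊆ TRow P S row w D Hs u v)
    (hz : ExitEH P S row w D β δ Hs Om {u, v} c y z)
    (hq : Quiet P S row u v z ∨ Quiet P S row v u z)
    (hsee : ∃ x ∈ RX S row u v, ∃ y ∈ RX S row u v, ¬ Er P S z x y) :
    PWitB (Er P S) (Lr P S row w u) (Lr P S row w v) (Arw P S row w u v) (RX S row u v) T z := by
  have hrep : ∃ c, c ⊆ S ∧ WallE c row w ∅ := ⟨c, h.hc, h.wal⟩
  refine h.witB (fun t ht => (hT ht).1) ?_ hz.cl
    (fun h1 => exitEH_notMem h.hc h.wal hz (hT h1)) hq hsee (hIN.pp huv hu h hT hz)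
  intro t ht
  refine ⟨quiet_loc h.sub h.mem hrep hE.left (hT ht).2,
    quiet_loc (D := D) (Hs := Hs) h.sub h.mem hrep hE.right ?_⟩
  rw [pair_comm]
  exact (hT ht).2

/-- **(R3), two exits** -/
theorem rowD [P.Finite] (hIN : IN012 P S row w D β δ Hs Om) (huv : wadj u v) (hu : OutW δ w Om u)
    (h : RowE P S row w u v c o₁ o₂) (hE : EndR P S row w D Hs u v)
    (hT : T ⊆ TRow P S row w D Hs u v)
    (hz : ExitEH P S row w D β δ Hs Om {u, v} c y z)
    (hz' : ExitEH P S row w D β δ Hs Om {u, v} c y' z') (hyy : y ≠ y')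
    (hnu : ¬ (wadj u y ∧ wadj u y')) (hnv : ¬ (wadj v y ∧ wadj v y'))
    (hq : Quiet P S row u v z ∨ Quiet P S row v u z)
    (hq' : Quiet P S row u v z' ∨ Quiet P S row v u z')
    (hsee : ∃ x ∈ RX S row u v, ∃ y ∈ RX S row u v, ¬ Er P S z x y)
    (hsee' : ∃ x ∈ RX S row u v, ∃ y ∈ RX S row u v, ¬ Er P S z' x y) :
    PWitD (Er P S) (Lr P S row w u) (Lr P S row w v) (Arw P S row w u v) (RX S row u v) T z z' := by
  have hrep : ∃ c, c ⊆ S ∧ WallE c row w ∅ := ⟨c, h.hc, h.wal⟩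
  have hzz : z ≠ z' := by
    rintro rfl
    rcases hz'.loc y hz.y_loc hz.y_deep hz.y_hs with h1 | h1
    · exact hz.y_out h1
    · exact hyy h1
  refine h.witD (fun t ht => (hT ht).1) ?_ hz.cl
    (fun h1 => exitEH_notMem h.hc h.wal hz (hT h1)) hz'.cl
    (fun h1 => exitEH_notMem h.hc h.wal hz' (hT h1)) hzz hq hq' hsee hsee'
    (hIN.pp huv hu h hT hz) (hIN.pp huv hu h hT hz') (hIN.pp2 huv hu h hT hz hz' hyy hnu hnv)
  intro t ht
  refine ⟨quiet_loc h.sub h.mem hrep hE.left (hT ht).2,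
    quiet_loc (D := D) (Hs := Hs) h.sub h.mem hrep hE.right ?_⟩
  rw [pair_comm]
  exact (hT ht).2

end

end DA
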