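import Pool.Agent.DA.Wit

/-!
# A row which is seen is separated (helper77)

If `z` is in the closure of `S` and does not separate two elements of a row `K` (at a vertex with
cocircuits), then `z` is spanned by the other rows.
-/

open Set BIC BICS
open scoped Matroid

namespace DA

open Gad TST

section

variable {α : Type*} {P : Matroid α} {S K : Set α} {row : α → Sym2 (ℕ × ℕ)} {w : ℕ} {z : α}

/-- **A row which is seen is separated.** -/
theorem seen_pair [P.Finite] (hS : S ⊆ P.E) (hK : K ⊆ S)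
    (h1 : ∀ x ∈ K, rk P S ≤ rk P (S \ {x}))
    (h2 : ∀ x ∈ K, ∀ y ∈ K, x ≠ y → rk P (S \ {x, y}) + 1 ≤ rk P S) (hne : K.Nonempty)
    (hz : z ∈ P.closure S)
    (hn : ∀ x ∈ K, ∀ y ∈ K, x ≠ y → z ∈ P.closure (S \ {x, y})) : z ∈ P.closure (S \ K) := by
  classical
  obtain ⟨x₀, hx₀⟩ := hne
  have hfin : K.Finite := P.ground_finite.subset (hK.trans hS)
  have hzE : z ∈ P.E := P.closure_subset_ground _ hz
  have key : ∀ A : Finset α, (A : Set α) ⊆ K \ {x₀} →
      z ∈ P.closure (S \ insert x₀ (A : Set α)) ∧ rk P (S \ insert x₀ (A : Set α)) + A.card ≤ rk P S ∧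
        rk P S ≤ rk P (S \ insert x₀ (A : Set α)) + A.card := by
    intro A
    induction A using Finset.induction_on with
    | empty =>
      intro _
      have e1 : insert x₀ ((∅ : Finset α) : Set α) = {x₀} := by simp
      rw [e1, Finset.card_empty, Nat.add_zero]
      have h3 := h1 x₀ hx₀
      have h4 : rk P (S \ {x₀}) ≤ rk P S := rk_mono P sdiff_subset
      refine ⟨?_, h4, h3⟩
      have h5 : rk P (insert z (S \ {x₀})) ≤ rk P (S \ {x₀}) := by
        have h6 : rk P (insert z (S \ {x₀})) ≤ rk P (P.closure S) := by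
          refine rk_mono P (insert_subset hz ?_)
          exact sdiff_subset.trans (P.subset_closure S hS)
        rw [rk_closure] at h6
        omega
      exact mem_of_rk hzE h5
    | insert y A hy ih =>
      intro hA
      have hA' : (A : Set α) ⊆ K \ {x₀} := fun e he => hA (by simp [he])
      have hyK : y ∈ K \ {x₀} := hA (by simp)
      obtain ⟨i1, i2, i3⟩ := ih hA'
      have hne : x₀ ≠ y := fun h => hyK.2 h.symm
      have k1 := hn x₀ hx₀ y hyK.1 hne
      have k2 := h2 x₀ hx₀ y hyK.1 hne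
      rw [Finset.card_insert_of_notMem hy]
      have e1 : insert x₀ ((insert y A : Finset α) : Set α) = insert y (insert x₀ (A : Set α)) := by
        rw [Finset.coe_insert, insert_comm]
      rw [e1]
      have k3 := rk_remove (P := P) (S := S) (insert x₀ (A : Set α)) y
      have k4 := rk_submod P (insert z (S \ insert x₀ (A : Set α))) (insert z (S \ {x₀, y}))
      rw [rk_ins_of_mem i1, rk_ins_of_mem k1] at k4
      have k5 : rk P S ≤ rk P (insert z (S \ insert x₀ (A : Set α)) ∪ insert z (S \ {x₀, y})) := by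
        refine (h1 x₀ hx₀).trans (rk_mono P ?_)
        rintro e ⟨he, he'⟩
        by_cases h6 : e = y
        · refine Or.inl (Or.inr ⟨he, ?_⟩)
          rintro (h7 | h7)
          · exact he' h7
          · exact hy (h6 ▸ h7)
        · refine Or.inr (Or.inr ⟨he, ?_⟩)
          rintro (h7 | h7)
          · exact he' h7
          · exact h6 h7
      have k6 : rk P (insert z (S \ insert y (insert x₀ (A : Set α)))) ≤
          rk P (insert z (S \ insert x₀ (A : Set α)) ∩ insert z (S \ {x₀, y})) := by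
        refine rk_mono P ?_
        rintro e (he | ⟨he, he'⟩)
        · exact ⟨Or.inl he, Or.inl he⟩
        · refine ⟨Or.inr ⟨he, fun h6 => he' (Or.inr h6)⟩, Or.inr ⟨he, ?_⟩⟩
          rintro (h7 | h7)
          · exact he' (Or.inr (Or.inl h7))
          · exact he' (Or.inl h7)
      have k7 : rk P (S \ insert y (insert x₀ (A : Set α))) ≤
          rk P (insert z (S \ insert y (insert x₀ (A : Set α)))) := rk_mono P (subset_insert _ _)
      refine ⟨mem_of_rk hzE ?_, ?_, ?_⟩
      · omega
      · omega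
      · omega
  have h3 := (key (hfin.toFinset.erase x₀) (by
    intro e he
    simp only [Finset.coe_erase, Finite.coe_toFinset] at he
    exact he)).1
  have e1 : insert x₀ ((hfin.toFinset.erase x₀ : Finset α) : Set α) = K := by
    simp only [Finset.coe_erase, Finite.coe_toFinset]
    exact insert_sdiff_self_of_mem hx₀
  rwa [e1] at h3

/-- **A row which is seen is separated**, at a vertex with cocircuits. -/
theorem VC.seen_pair [P.Finite] {v : ℕ × ℕ} (h : VC P S row w v) (hS : S ⊆ P.E)
    (hmem : ∀ e ∈ S, ∃ p q, row e = s(p, q) ∧ wadj p q ∧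
      p ∈ rect 0 0 (w + 1) (w + 1) ∧ q ∈ rect 0 0 (w + 1) (w + 1))
    (hrep : ∃ c, c ⊆ S ∧ WallE c row w ∅) (hz : z ∈ P.closure S) {a : Sym2 (ℕ × ℕ)} (hva : v ∈ a)
    (hs : Seen P S row z a) :
    ∃ x ∈ S, ∃ y ∈ S, row x = a ∧ row y = a ∧ x ≠ y ∧ z ∉ P.closure (S \ {x, y}) := by
  by_contra hcon
  push Not at hcon
  obtain ⟨c₀, hc₀, hW₀⟩ := hrep
  by_cases hne : ({e | e ∈ S ∧ row e = a} : Set α).Nonempty
  · refine hs (_root_.DA.seen_pair (K := {e | e ∈ S ∧ row e = a}) hS (fun e he => he.1) ?_ ?_ hne hz ?_)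
    · rintro x ⟨hx, hxa⟩
      obtain ⟨hc, hW⟩ := swp_rep hc₀ hW₀ hx (rep_of hmem hW₀ hx)
      exact h.one hS hc hW (Or.inr rfl) (by rw [hxa]; exact hva)
    · rintro x ⟨hx, hxa⟩ y ⟨hy, hya⟩ hxy
      exact h.pair x hx y hy (hxa.trans hya.symm) (by rw [hxa]; exact hva) hxy
    · rintro x ⟨hx, hxa⟩ y ⟨hy, hya⟩ hxy
      exact hcon x hx y hy hxa hya hxy
  · rw [not_nonempty_iff_eq_empty] at hne
    refine hs ?_
    rw [hne, sdiff_empty]
    exact hz

/-- a separated pair is seen -/
lemma seen_of_pair {x y : α} {a : Sym2 (ℕ × ℕ)} (hxa : row x = a)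
    (hya : row y = a) (hn : z ∉ P.closure (S \ {x, y})) : Seen P S row z a := by
  intro h1
  refine hn (P.closure_subset_closure ?_ h1)
  rintro e ⟨he, he'⟩
  refine ⟨he, ?_⟩
  rintro (h2 | h2)
  · exact he' ⟨he, h2 ▸ hxa⟩
  · exact he' ⟨he, (mem_singleton_iff.1 h2) ▸ hya⟩

end

end DA
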