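import Pool.Agent.DA.WitN
import Pool.Agent.DA.RowTree
import Pool.Agent.DA.SeeVC

/-!
# The class of an exit of a star (T-star, helper94)

The class `ASt z i` of the end `V i` for an exit `z` of the star of `u` does not depend on the choice of
the representatives: on the leg which is seen it is the complement of `Lr u z`, on the other legs it is
everything.
-/

set_option autoImplicit false

open Set BIC BICS
open scoped Matroid

namespace DA

open Gad TST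

/-! ### Location systems -/

/-- an exit of a star of which a row is seen: the locations are on this row -/
lemma LocS.exit_row {V Ch : Type*} {adj : V → V → Prop} {Reg Vis : V → Prop} {Y : Ch → Set V}
    {Sn : V → V → Prop} (h : LocS adj Reg Vis Y Sn) {u v y : V} {c : Ch} (huv : adj u v)
    (hu : Vis u) (hs : Sn u v) (hy : y ∉ nst adj u) (hyc : y ∈ Y c)
    (hsub : Y c ⊆ insert y (nst adj u)) (h3 : ∀ a, adj u a → ∃ b, adj a b ∧ b ≠ u ∧ b ≠ y) :
    Y c ⊆ {u, v, y} := by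
  intro a ha
  rcases hsub ha with h1 | h1
  · exact Or.inr (Or.inr h1)
  by_contra hcon
  simp only [mem_insert_iff, mem_singleton_iff, not_or] at hcon
  obtain ⟨n1, n2, n3⟩ := hcon
  have hua : adj u a := h1.resolve_left n1
  have hyu : y ≠ u := fun h5 => hy (Or.inl h5)
  have hyv : y ≠ v := fun h5 => hy (Or.inr (h5 ▸ huv))
  obtain ⟨c', k1, k2⟩ := h.tog u v huv (h.vis u hu) hs c
  have ha' : a ∈ Y c' := (k2 a n1 n2).2 ha
  have hy' : y ∈ Y c' := (k2 y hyu hyv).2 hyc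
  rcases h.two c' u hu k1 with h4 | ⟨v₀, h4⟩
  · exact not_sub_two k1 ha' hy' (Ne.symm n1) (Ne.symm hyu) n3 h4
  · have k1' := k1
    have ha'' := ha'
    have hy'' := hy'
    rw [h4] at k1' ha'' hy''
    have e0 : v₀ ≠ u := by
      rintro rfl
      exact hy hy''
    have e1 : adj v₀ u := k1'.resolve_left fun h5 => e0 h5.symm
    have e2 : a = v₀ := ha''.resolve_right fun h5 => h.tri v₀ u a e1 hua h5
    subst e2
    obtain ⟨b, b1, b2, b3⟩ := h3 a hua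
    have hb : b ∈ Y c' := by
      rw [h4]
      exact Or.inr b1
    have hbv : b ≠ v := by
      rintro rfl
      exact h.tri u a b hua b1 huv
    rcases hsub ((k2 b b2 hbv).1 hb) with h6 | h6 | h6
    · exact b3 h6
    · exact b2 h6
    · exact h.tri u a b hua b1 h6

lemma wadj_third {a u y : ℕ × ℕ} (ha : 1 ≤ a.1 ∧ 1 ≤ a.2) : ∃ b, wadj a b ∧ b ≠ u ∧ b ≠ y := by
  obtain ⟨V, h1, h2, h3, h4, h5, h6⟩ := exists_nb3 ha
  by_contra hcon
  push Not at hcon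
  have k1 := hcon _ h1
  have k2 := hcon _ h2
  have k3 := hcon _ h3
  by_cases e1 : V 0 = u
  · by_cases e2 : V 1 = u
    · exact h4 (e1.trans e2.symm)
    · by_cases e3 : V 2 = u
      · exact h5 (e1.trans e3.symm)
      · exact h6 ((k2 e2).trans (k3 e3).symm)
  · by_cases e2 : V 1 = u
    · by_cases e3 : V 2 = u
      · exact h6 (e2.trans e3.symm)
      · exact h5 ((k1 e1).trans (k3 e3).symm)
    · exact h4 ((k1 e1).trans (k2 e2).symm)

/-! ### The class -/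

/-- the class of the end `V i` for an exit of the star of `u` -/
def ASt {α : Type*} (P : Matroid α) (S : Set α) (row : α → Sym2 (ℕ × ℕ)) (w : ℕ) (u : ℕ × ℕ)
    (V : Fin 3 → ℕ × ℕ) (z : α) (i : Fin 3) : Set α :=
  {x | (∃ a ∈ SX S row u V i, ∃ b ∈ SX S row u V i, ¬ Er P S z a b) → x ∉ Lr P S row w u z}

section

variable {α : Type*} {P : Matroid α} {S : Set α} {row : α → Sym2 (ℕ × ℕ)} {w : ℕ}
  {D β δe δ : ℕ} {Hs Om : Finset (ℕ × ℕ)} {u v : ℕ × ℕ} {V : Fin 3 → ℕ × ℕ} {z : α}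

/-- the classes of the two ends of a row for an exit which is quiet at `u` -/
theorem WRnd.ar_leg [P.Finite] (h : WRnd P S row w D β δe δ Hs Om) (hu : OutW δ w Om u)
    (huv : wadj u v) {c : Set α} (hc : c ⊆ S) (hW : WallE c row w ∅) {y : ℕ × ℕ}
    (hz : ExitEH P S row w D β δe Hs Om {u, v} c y z) (hq : Quiet P S row u v z)
    (hsee : ∃ a ∈ RX S row u v, ∃ b ∈ RX S row u v, ¬ Er P S z a b) {x : α}
    (hx : x ∈ RX S row u v) :
    (x ∈ Ar P S row c v z ↔ x ∉ Lr P S row w u z) ∧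
      (x ∈ Arw P S row w v u z ↔ x ∉ Lr P S row w u z) := by
  have hd : ∀ p : ℕ × ℕ, sd u p ≤ 6 → DeepR (0, 0) (w + 1) (w + 1) 4 p := by
    intro p hp
    have h1 := (h.reg hu hp).2.2
    unfold DeepR at h1 ⊢
    simp only at h1 ⊢
    omega
  obtain ⟨o₂, o2c, o2v, o2u⟩ := exists_end hW huv (hd v (by have := (wadj_sd huv).1; omega))
  obtain ⟨o₁, o1c, o1u, o1v⟩ := exists_end hW (wadj_swap huv) (hd u (by rw [sd_self]; omega))
  obtain ⟨hR, hI, -⟩ := h.row u v c o₁ o₂ huv hu hc hW ⟨o1c, o1u, o1v⟩ ⟨o2c, o2v, o2u⟩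
  have hs : PSysB (P ／ FRow S row c u v) (RX S row u v) o₁ o₂ ∅ z := by
    refine hR.psys (fun t ht => absurd ht (notMem_empty t)) hz.cl (notMem_empty z) ?_
    intro C hC hzC h1 h2 hall
    refine hI y z hz C hC hzC h1 h2 fun x hx => ?_
    rcases hall x hx with h3 | h3 | h3 | h3 | h3
    · exact Or.inl h3
    · exact Or.inr (Or.inl h3)
    · exact Or.inr (Or.inr (Or.inl h3))
    · exact Or.inr (Or.inr (Or.inr (Or.inl h3)))
    · exact absurd h3 (notMem_empty x)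
  have hsee' : ∃ a ∈ RX S row u v, ∃ b ∈ RX S row u v,
      ¬ Eqv (P ／ FRow S row c u v) (PK (RX S row u v) o₁ o₂) z a b := by
    obtain ⟨a, ha, b, hb, h2⟩ := hsee
    exact ⟨a, ha, b, hb, fun h3 => h2 ((hR.relE hz.cl.2 ha hb).1 h3)⟩
  have hzF : z ∉ FRow S row c u v := fun h1 => hz.cl.2 h1.1.1
  have k1 := hR.relL hz.cl.2 hq hx
  have k2 := hs.rR hsee' hx
  have k3 := row_R hR.uv hR.hc hR.h₁ hR.h₂ hR.sub hR.s₁ hx hzF
  have k4 : Eqv (P ／ FRow S row c u v) (PK (RX S row u v) o₁ o₂) z o₂ x ↔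
      x ∈ Ar P S row c v z := k3
  refine ⟨?_, ?_⟩
  · rw [← k4, k2, k1]
  · by_cases hqv : Quiet P S row v u z
    · rw [Arw, if_pos hqv, ← hR.relR hz.cl.2 hqv hx, k2, k1]
    · rw [Arw, if_neg hqv, mem_compl_iff]

/-- **The class of an exit of a star.** -/
theorem WRnd.exA [P.Finite] (h : WRnd P S row w D β δe δ Hs Om) {D' : ℕ}
    {Hs' : Finset (ℕ × ℕ)} {Vis : ℕ × ℕ → Prop}
    (hLS : LocS wadj (RegW w D' Hs') Vis (YW P S row w D' Hs' z) (SnW P S row w D' Hs' z))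
    (hreg : ∀ x, RegW w D Hs x → RegW w D' Hs' x) (hu : OutW δ w Om u) (hu' : Vis u)
    (hv' : Vis v) (huv : wadj u v) (hs : SnW P S row w D' Hs' z u v)
    (hnb : Nb3 u (V 0) (V 1) (V 2)) {c : ChW S row w} {y : ℕ × ℕ}
    (hz : ExitEH P S row w D β δe Hs Om (nst wadj u) c.1 y z)
    (hsub : YW P S row w D' Hs' z c ⊆ insert y (nst wadj u)) :
    Quiet P S row u v z ∧ ExitEH P S row w D β δe Hs Om {u, v} c.1 y z ∧
    (∃ a ∈ RX S row u v, ∃ b ∈ RX S row u v, ¬ Er P S z a b) ∧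
    ∀ i, ∀ x ∈ SX S row u V i, (x ∈ Ar P S row c.1 (V i) z ↔ x ∈ ASt P S row w u V z i) := by
  have hyR : RegW w D' Hs' y := hreg y ⟨hz.y_deep, hz.y_hs⟩
  have hyc : y ∈ YW P S row w D' Hs' z c := ⟨hz.y_loc, hyR⟩
  have hadj : ∀ i, wadj u (V i) := by
    intro i
    fin_cases i
    exacts [hnb.1, hnb.2.1, hnb.2.2.1]
  have huR : RegW w D' Hs' u := hLS.vis u hu'
  -- only one row at `u` is seen
  have hone : ∀ v', wadj u v' → v' ≠ v → ¬ Seen P S row z s(u, v') := by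
    intro v' hv1 hv2 hs'
    exact hz.y_out (hLS.near_of_two huv hu' hv' hs hv1 ⟨hs', Or.inl huR⟩ (Ne.symm hv2) c hyc)
  have hq : Quiet P S row u v z := quiet_unseen h.mem fun q h1 h2 => hone q h1 h2
  have hsub' : YW P S row w D' Hs' z c ⊆ {u, v, y} := by
    refine hLS.exit_row huv hu' hs hz.y_out hyc hsub ?_
    intro a ha
    have h1 := (h.reg hu (x := a) (by have := (wadj_sd ha).1; omega)).2.2
    refine wadj_third ?_
    unfold DeepR at h1
    simp only at h1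
    omega
  have hyuv : y ∉ ({u, v} : Set (ℕ × ℕ)) := by
    rintro (h1 | h1)
    · exact hz.y_out (Or.inl h1)
    · exact hz.y_out (Or.inr ((mem_singleton_iff.1 h1) ▸ huv))
  have hzr : ExitEH P S row w D β δe Hs Om {u, v} c.1 y z := by
    refine ⟨hz.cl, hz.supp, hz.y_loc, hz.y_deep, hz.y_hs, hyuv, ?_⟩
    intro x hx hxd hxH
    rcases hsub' ⟨hx, hreg x ⟨hxd, hxH⟩⟩ with h1 | h1 | h1
    · exact Or.inl (Or.inl h1)
    · exact Or.inl (Or.inr h1)
    · exact Or.inr h1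
  have hsee : ∃ a ∈ RX S row u v, ∃ b ∈ RX S row u v, ¬ Er P S z a b := by
    obtain ⟨a, ha, b, hb, hra, hrb, hab, hn⟩ := (h.vcr hu (x := u) (by rw [sd_self]; omega)).seen_pair
      h.sub h.mem h.rep hz.cl.1 (a := s(u, v)) (Sym2.mem_mk_left _ _) hs.1
    exact ⟨a, ⟨ha, hra⟩, b, ⟨hb, hrb⟩, fun h1 => h1.elim hab hn⟩
  refine ⟨hq, hzr, hsee, ?_⟩
  intro i x hx
  by_cases hiv : V i = v
  · subst hiv
    have h1 := (h.ar_leg hu huv c.2.1 c.2.2 hzr hq hsee hx).1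
    rw [h1]
    exact ⟨fun h2 _ => h2, fun h2 => h2 hsee⟩
  · have hns : ¬ Seen P S row z s(u, V i) := hone _ (hadj i) hiv
    have h1 : x ∈ ASt P S row w u V z i := by
      rintro ⟨a, ha, b, hb, hab⟩
      exact absurd (seen_of_pair ha.2 hb.2 fun h2 => hab (Or.inr h2)) hns
    refine iff_of_true ?_ h1
    have hVR : RegW w D' Hs' (V i) := (hLS.vis₂ u (V i) u hu' (hadj i) (wadj_swap (hadj i))).1
    have hsdV : sd u (V i) ≤ 6 := by
      have := (wadj_sd (hadj i)).1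
      omega
    have h2 : V i ∉ LocR P S row c.1 z := by
      intro h3
      rcases hsub' ⟨h3, hVR⟩ with h4 | h4 | h4
      · have := wadj_par' (hadj i)
        rw [h4] at this
        omega
      · exact hiv h4
      · exact hz.y_out (Or.inr (h4 ▸ hadj i))
    have h3 : V i ∉ LocR P S row (swp row c.1 x) z := by
      rw [locR_unseen h.sub c.2.1 c.2.2 hx.1 (rep_of h.mem c.2.2 hx.1) (by rw [hx.2]; exact hns)
        (h.vcr hu hsdV)]
      exact h2
    unfold LocR at h3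
    rw [mem_ofPred_eq, not_not] at h3
    exact h3

end

/-! ### The star split in round 1 -/

section

variable {α : Type*} {P : Matroid α} {S : Set α} {row : α → Sym2 (ℕ × ℕ)} {w : ℕ} {Dd : Set α}
  {β D₀ δ₀ D₁ δ₁ : ℕ} {Hm Hs₀ Om₁ Hs₁ Om₂ : Finset (ℕ × ℕ)} {u : ℕ × ℕ} {V : Fin 3 → ℕ × ℕ}
  {z : α} {T W : Set α}

/-- an exit of the star of `u` in round 1: sees one visible row at `u` -/
structure SEx {α : Type*} (P : Matroid α) (S : Set α) (row : α → Sym2 (ℕ × ℕ)) (w : ℕ)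
    (D₀ δ₁ : ℕ) (Hs₀ Om₂ : Finset (ℕ × ℕ)) (u : ℕ × ℕ) (z : α) : Prop where
  cl : z ∈ P.closure S ∧ z ∉ S
  clean : ∀ c, ∀ x ∈ YW P S row w D₀ Hs₀ z c, OutW δ₁ w Om₂ x
  ex : ∃ v, wadj u v ∧ VisR w δ₁ Om₂ v ∧ SnW P S row w D₀ Hs₀ z u v ∧
    ∃ (c : ChW S row w) (y : ℕ × ℕ), y ∉ nst wadj u ∧ y ∈ YW P S row w D₀ Hs₀ z c ∧
      YW P S row w D₀ Hs₀ z c ⊆ insert y (nst wadj u)

/-- **Witnesses of the exits of a visible star**, round 1. -/
theorem Rnd.twit1 [P.Finite] (h : Rnd P S row w Dd β D₀ δ₀ D₁ δ₁ Hm Hs₀ Om₁ Hs₁ Om₂) (hβ : 4 ≤ β)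
    (hu : VisR w δ₁ Om₂ u) (hnb : Nb3 u (V 0) (V 1) (V 2))
    (hT : ∀ t ∈ T, t ∈ P.closure S ∧ t ∉ S ∧ ∀ c : ChW S row w, ∀ x ∈ LocR P S row c.1 t,
      RegW w D₁ Hs₁ x → x ∈ nst wadj u)
    (hz : z ∈ Dd) (hzT : z ∉ T) (hze : SEx P S row w D₀ δ₁ Hs₀ Om₂ u z) :
    TWit (Er P S) (fun t i => Lr P S row w (V i) t) (ASt P S row w u V)
      (fun t x y v => t ∈ P.closure (S \ {x, y, v})) (SX S row u V) T z := by
  obtain ⟨hcl, hclean, v, huv, hv, hs, c, y, hy, hyc, hsub⟩ := hze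
  have hex := h.exit1 hβ hz hcl.1 hcl.2 huv hu hv hs hclean hy hyc hsub
  obtain ⟨-, -, -, hA⟩ := h.w1.exA (h.locT hz hcl.1).toLocS (fun x hx => h.reg01 hx) hu hu hv huv hs
    hnb hex hsub
  exact h.w1.twitN hu hnb hT hzT hex hA

/-- **The star split at a visible star**, round 1. -/
theorem Rnd.split1 [P.Finite] (h : Rnd P S row w Dd β D₀ δ₀ D₁ δ₁ Hm Hs₀ Om₁ Hs₁ Om₂) (hβ : 4 ≤ β)
    (hu : VisR w δ₁ Om₂ u) (hnb : Nb3 u (V 0) (V 1) (V 2))
    (hT : ∀ t ∈ T, t ∈ P.closure S ∧ t ∉ S ∧ ∀ c : ChW S row w, ∀ x ∈ LocR P S row c.1 t,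
      RegW w D₁ Hs₁ x → x ∈ nst wadj u)
    (hTW : Disjoint T W) (hW : ∀ z ∈ W, z ∈ Dd ∧ SEx P S row w D₀ δ₁ Hs₀ Om₂ u z) :
    ∃ (C : Fin 3 → Set α) (Lk : Set α), StarSplit (Er P S) (fun t i => Lr P S row w (V i) t)
      (ASt P S row w u V) (fun t x y v => t ∈ P.closure (S \ {x, y, v})) (SX S row u V) C T W Lk :=
  starSplit _ _ _ _ _ T W (fun i => (h.w1.legs hu hnb i).1) (fun i => (h.w1.legs hu hnb i).2) hTW
    fun z hz => h.twit1 hβ hu hnb hT (hW z hz).1 (fun h3 => disjoint_left.1 hTW h3 hz) (hW z hz).2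

end

end DA
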