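import Pool.Agent.Helper34.EXT.Cells
import Pool.Agent.Helper34.EXT.Trans
import Pool.Agent.Helper34.EXT.Core
import Pool.Agent.Helper34.BIC.CoreThm
import Pool.Agent.Helper21.STAR.Star

/-!
# Global extension directions seen by far apart groups of vertices

The proof follows `BICS.ext_core` (helper34); the zones are arbitrary sets of vertices and the
strips are arbitrary paths of cells.
-/

open Set BIC
open scoped Matroid

namespace BICS

universe u

/-- the cell of a vertex -/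
def cel (k a₀ b₀ : ℕ) (v : ℕ × ℕ) : ℕ × ℕ :=
  ((v.1 - a₀) / (2 * 4 ^ k), (v.2 - b₀) / (2 * 4 ^ k))

/-- Paths of cells are mergeable. -/
lemma Board_path {α V ι : Type*} [Fintype ι] {M : Matroid α} {S : Set α} {ends : α → Sym2 V}
    {ψ : V → α} {N : ℕ} {X : Set α} {W : ℕ × ℕ → Set V} (h : Board ι M S ends ψ N X W)
    (p : ℕ → ℕ × ℕ) : ∀ L : ℕ, (∀ z ≤ L, (p z).1 < N ∧ (p z).2 < N) →
    (∀ z < L, adj (p z) (p (z + 1))) →
    PQ ι M S ends ψ X W ((Finset.range (L + 1)).image p) ∧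
      Board.Inb N ((Finset.range (L + 1)).image p) := by
  classical
  intro L
  induction L with
  | zero =>
    intro h1 _
    have e : (Finset.range (0 + 1)).image p = {p 0} := by simp
    rw [e]
    refine ⟨h.one _ (h1 0 le_rfl).1 (h1 0 le_rfl).2, ?_⟩
    intro c hc
    rw [Finset.mem_singleton.1 hc]
    exact h1 0 le_rfl
  | succ L ih =>
    intro h1 h2
    obtain ⟨h3, h4⟩ := ih (fun z hz => h1 z (by omega)) (fun z hz => h2 z (by omega))
    have e : (Finset.range (L + 1 + 1)).image p =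
        insert (p (L + 1)) ((Finset.range (L + 1)).image p) := by
      rw [Finset.range_add_one, Finset.image_insert]
    rw [e]
    refine h.add h4 h3 (h1 (L + 1) le_rfl) (c' := p L)
      (Finset.mem_image_of_mem _ (Finset.mem_range.2 (by omega))) ?_
    have key : ∀ c c' : ℕ × ℕ, adj c c' → (c.1 < N ∧ c.2 < N) → (c'.1 < N ∧ c'.2 < N) →
        Rung ι S ends (W c) (W c') := by
      rintro ⟨a, b⟩ ⟨a', b'⟩ h5 h6 h7
      unfold adj at h5
      simp only at h5 h6 h7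
      rcases h5 with ⟨rfl, rfl | rfl⟩ | ⟨rfl, rfl | rfl⟩
      · exact h.rd a b h6.1 h7.2
      · exact (h.rd a b' h6.1 h6.2).symm
      · exact h.rl a b h7.1 h6.2
      · exact (h.rl a' b h6.1 h6.2).symm
    exact key _ _ (h2 L (by omega)) (h1 L (by omega)) (h1 (L + 1) le_rfl)

theorem ext_gen (k : ℕ) {α : Type u} (M : Matroid α) [M.Finite]
    (T I : Set α) (ends : α → Sym2 (ℕ × ℕ)) (a₀ b₀ m N : ℕ) (hm : m = 2 * 4 ^ k * N)
    (hN1 : 1 ≤ N) (hTI : Disjoint T I) (hE : M.E = T ∪ I) (hB : Bic M T ends)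
    (hG : Grd T ends a₀ b₀ m m) (hIc : I.ncard = k) (hrk : rk M (T ∪ I) = rk M T)
    (G : ℕ → ℕ → Finset (ℕ × ℕ))
    (hGr : ∀ a < k, ∀ i < k, ∀ v ∈ G a i, v ∈ rect a₀ b₀ m m)
    (hrob : ∀ a < k, ∀ i < k, rk M (ins T ends ((G a i : Finset (ℕ × ℕ)) : Set (ℕ × ℕ))ᶜ ∪ I) =
      rk M (ins T ends ((G a i : Finset (ℕ × ℕ)) : Set (ℕ × ℕ))ᶜ) + k)
    (hGd : ∀ a < k, ∀ i < k, ∀ a' < k, ∀ i' < k, ∀ v ∈ G a i, ∀ v' ∈ G a' i',
      cel k a₀ b₀ v = cel k a₀ b₀ v' → a = a' ∧ i = i')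
    (p : ℕ → ℕ → ℕ × ℕ) (len : ℕ → ℕ)
    (hp1 : ∀ a < k, ∀ z ≤ len a, (p a z).1 < N ∧ (p a z).2 < N)
    (hp2 : ∀ a < k, ∀ z < len a, adj (p a z) (p a (z + 1)))
    (hp3 : ∀ a < k, ∀ a' < k, a ≠ a' → ∀ z ≤ len a, ∀ z' ≤ len a', p a z ≠ p a' z')
    (hGQ : ∀ a < k, ∀ i < k, ∀ v ∈ G a i, ∃ z ≤ len a, p a z = cel k a₀ b₀ v) :
    HasUniformMinor M k := by
  classical
  obtain ⟨h, hh⟩ : ∃ h : ℕ, h = 4 ^ k := ⟨_, rfl⟩
  have hh1 : 1 ≤ h := by rw [hh]; exact Nat.one_le_pow _ _ (by norm_num)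
  have hcel : ∀ v, cel k a₀ b₀ v = ((v.1 - a₀) / (2 * h), (v.2 - b₀) / (2 * h)) := by
    intro v
    rw [hh]
    rfl
  rw [← hh] at hm
  have hm1 : 2 ≤ m := by
    rw [hm]
    calc 2 = 2 * 1 * 1 := by norm_num
      _ ≤ 2 * h * N := Nat.mul_le_mul (Nat.mul_le_mul_left _ hh1) hN1
  have hm0 : 0 < m := by omega
  have hfin := M.ground_finite
  have hTE : T ⊆ M.E := by rw [hE]; exact subset_union_left
  have hIE : I ⊆ M.E := by rw [hE]; exact subset_union_right
  have hIf : I.Finite := hfin.subset hIE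
  have hcard : Fintype.card (Cond k) < 2 * h := by
    have := card_Cond k
    omega
  -- coordinates
  set V := Fin m × Fin m with hV
  obtain ⟨gm, hgm⟩ : ∃ gm : ℕ × ℕ → V, ∀ p, gm p = vtG hm0 (p.1 - a₀) (p.2 - b₀) :=
    ⟨fun p => vtG hm0 (p.1 - a₀) (p.2 - b₀), fun _ => rfl⟩
  have hU : ∀ e ∈ T, ∀ v ∈ ends e, v ∈ rect a₀ b₀ m m := by
    intro e he v hv
    obtain ⟨p, q, h1, _, h3, h4⟩ := hG.mem e he
    rw [h1] at hv
    rcases Sym2.mem_iff.1 hv with rfl | rfl <;> assumption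
  have hgi : InjOn gm (rect a₀ b₀ m m) := by
    rintro ⟨p1, p2⟩ ⟨h1, h2, h3, h4⟩ ⟨q1, q2⟩ ⟨h5, h6, h7, h8⟩ hpq
    simp only at h1 h2 h3 h4 h5 h6 h7 h8
    rw [hgm, hgm] at hpq
    obtain ⟨h9, h10⟩ := (gridLike_Grid hm0).inj (by simp only; omega) (by simp only; omega)
      (by simp only; omega) (by simp only; omega) hpq
    simp only at h9 h10
    rw [Prod.mk.injEq]
    omega
  have hback : ∀ p : V, gm (a₀ + p.1.1, b₀ + p.2.1) = p := by
    rintro ⟨⟨p1, h1⟩, ⟨p2, h2⟩⟩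
    rw [hgm]
    simp only [Nat.add_sub_cancel_left]
    exact vtG_eq hm0 h1 h2
  have hsurj : ∀ x ∈ (Grid m).edgeSet, ∃ e ∈ T, Sym2.map gm (ends e) = x := by
    intro x
    induction x using Sym2.ind with
    | _ p q =>
      intro hx
      have hx' : gridAdj p q := hx
      have hpr : ∀ p : V, ((a₀ + p.1.1, b₀ + p.2.1) : ℕ × ℕ) ∈ rect a₀ b₀ m m := by
        intro p
        have h1 := p.1.2
        have h2 := p.2.2
        exact ⟨by simp only; omega, by simp only; omega, by simp only; omega, by simp only; omega⟩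
      obtain ⟨e, he, hee⟩ := hG.surj (a₀ + p.1.1, b₀ + p.2.1) (a₀ + q.1.1, b₀ + q.2.1) (by
        unfold adj
        rcases hx' with ⟨h1, h2⟩ | ⟨h1, h2⟩
        · left
          refine ⟨?_, ?_⟩
          · simp only; rw [h1]
          · simp only; omega
        · right
          refine ⟨?_, ?_⟩
          · simp only; rw [h1]
          · simp only; omega) (hpr p) (hpr q)
      refine ⟨e, he, ?_⟩
      rw [hee, Sym2.map_mk, hback, hback]
  have hα : Nonempty α := by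
    obtain ⟨e, _, _⟩ := hsurj s((⟨0, hm0⟩, ⟨0, hm0⟩), (⟨0, hm0⟩, ⟨1, by omega⟩)) (by
      rw [SimpleGraph.mem_edgeSet]
      exact Or.inl ⟨rfl, Or.inl rfl⟩)
    exact ⟨e⟩
  choose! φ hφ using hsurj
  have hB' := hB.mapV hU hgi
  have hGL := gridLike_Grid (n := m) hm0
  obtain ⟨ψ, hψi, hψe, hboard, hbasis⟩ := side_cells (Cond k) hTE hGL hh1 hm hN1 hcard hφ hB'
  set vt := vtG (n := m) hm0 with hvt
  set F := range ψ with hF
  have hFT : F ⊆ T := hbasis.subset
  have hFI : Disjoint F I := hTI.mono_left hFT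
  have hFb : M.IsBase F := by
    obtain ⟨B, hBb, hFB⟩ := hbasis.indep.exists_isBase_superset
    have h1 : rk M F = rk M T := by
      rw [← rk_closure (M := M) F, hbasis.closure_eq_closure, rk_closure]
    have h2 := rk_superset_base hBb hBb.subset_ground
    rw [hE, hrk, ← h1, rk_indep hbasis.indep] at h2
    have h3 : F = B := Set.eq_of_subset_of_ncard_le hFB (by omega) (hfin.subset hBb.subset_ground)
    rw [h3]
    exact hBb
  have hcelN : ∀ v ∈ rect a₀ b₀ m m, (cel k a₀ b₀ v).1 < N ∧ (cel k a₀ b₀ v).2 < N := by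
    rintro v ⟨h1, h2, h3, h4⟩
    rw [hcel]
    simp only
    have e : m = N * (2 * h) := by rw [hm]; ring
    constructor
    · rw [Nat.div_lt_iff_lt_mul (by omega)]
      omega
    · rw [Nat.div_lt_iff_lt_mul (by omega)]
      omega
  have hcelm : ∀ v, gm v ∈ Cell vt h (cel k a₀ b₀ v) := by
    intro v
    rw [hgm, hcel]
    exact vt_mem_cell hh1 _ _
  -- the zones
  obtain ⟨Z, hZ⟩ : ∃ Z : ℕ → ℕ → Set α, ∀ a i x, x ∈ Z a i ↔ ∃ v ∈ G a i,
      x ∈ ψ '' Cell vt h (cel k a₀ b₀ v) :=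
    ⟨fun a i => {x | ∃ v ∈ G a i, x ∈ ψ '' Cell vt h (cel k a₀ b₀ v)}, fun _ _ _ => Iff.rfl⟩
  have hcelldisj := Cell_disj hGL hh1 hm
  have hcellu : ∀ {v : V} {c c' : ℕ × ℕ}, c.1 < N → c.2 < N → c'.1 < N → c'.2 < N →
      v ∈ Cell vt h c → v ∈ Cell vt h c' → c = c' := by
    intro v c c' h1 h2 h3 h4 h5 h6
    by_contra hne
    exact Set.disjoint_left.1 (hcelldisj c c' h1 h2 h3 h4 hne) h5 h6
  have hZind : ∀ a < k, ∀ i < k, M.Indep ((F \ Z a i) ∪ I) := by
    intro a ha i hi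
    refine indep_of_skew (hbasis.indep.subset sdiff_subset) hIE (hFI.mono_left sdiff_subset) hIc
      ?_ (hrob a ha i hi)
    rintro _ ⟨⟨v, rfl⟩, hv⟩
    refine ⟨hFT ⟨v, rfl⟩, ?_⟩
    intro p hpe hp
    apply hv
    obtain ⟨c, hc1, hc2, hc3, hc4⟩ := cell_nxt hGL hh1 hm
      ⟨0, 0, hm0, hm0, (vtG_eq hm0 hm0 hm0).symm⟩ v
    have h2 : gm p ∈ (s(v, BIC.nxt vt h N v) : Sym2 V) := by
      rw [← hψe v]
      exact Sym2.mem_map.2 ⟨p, hpe, rfl⟩
    have h3 : gm p ∈ Cell vt h c := by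
      rcases Sym2.mem_iff.1 h2 with h4 | h4 <;> rw [h4] <;> assumption
    have h5 := hcelN p (hGr a ha i hi p hp)
    have h8 := hcellu hc1 hc2 h5.1 h5.2 h3 (hcelm p)
    rw [hZ]
    exact ⟨p, hp, v, h8 ▸ hc3, rfl⟩
  -- first transversals
  have hfirst : ∀ a, ∃ e : ℕ → α, a < k → (∀ i < k, e i ∈ Z a i ∩ F) ∧
      M.Indep ((F \ e '' ((Finset.range k : Finset ℕ) : Set ℕ)) ∪ I) := by
    intro a
    by_cases ha : a < k
    · obtain ⟨e, h1, h2, h3⟩ := ext_trans hFb hIE hFI (subset_refl I) (fun i => Z a i)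
        (Finset.range k) (by rw [Finset.card_range, hIc])
        (fun i hi => hZind a ha i (Finset.mem_range.1 hi))
      refine ⟨e, fun _ => ⟨fun i hi => h1 i (Finset.mem_range.2 hi), ?_⟩⟩
      refine (ext_base hFb hFI hIf ?_ h3 ?_).indep
      · rintro _ ⟨i, hi, rfl⟩
        exact (h1 i hi).2
      · rw [h2.ncard_image, Set.ncard_coe_finset, Finset.card_range, hIc]
    · obtain ⟨z⟩ := hα
      exact ⟨fun _ => z, fun h => absurd h ha⟩
  choose e he using hfirst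
  -- the ports
  obtain ⟨X, hX⟩ : ∃ X : Set α, ∀ x, x ∈ X ↔ ∃ a < k, ∃ i < k, x = e a i :=
    ⟨{x | ∃ a < k, ∃ i < k, x = e a i}, fun _ => Iff.rfl⟩
  have hXcell : ∀ c : ℕ × ℕ, c.1 < N → c.2 < N → (X ∩ ψ '' Cell vt h c).Subsingleton := by
    have key : ∀ c : ℕ × ℕ, c.1 < N → c.2 < N → ∀ a < k, ∀ i < k, e a i ∈ ψ '' Cell vt h c →
        ∃ v ∈ G a i, c = cel k a₀ b₀ v := by
      rintro c hc1 hc2 a ha i hi ⟨v, hv, hve⟩
      obtain ⟨w, hw, v', hv', hve'⟩ := (hZ a i _).1 (((he a ha).1 i hi).1)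
      have h4 : v = v' := hψi (hve.trans hve'.symm)
      have h5 := hcelN w (hGr a ha i hi w hw)
      exact ⟨w, hw, hcellu hc1 hc2 h5.1 h5.2 hv (h4 ▸ hv')⟩
    intro c hc1 hc2
    rintro x ⟨hx, hxc⟩ y ⟨hy, hyc⟩
    obtain ⟨a, ha, i, hi, rfl⟩ := (hX _).1 hx
    obtain ⟨a', ha', i', hi', rfl⟩ := (hX _).1 hy
    obtain ⟨v, hv, h1⟩ := key c hc1 hc2 a ha i hi hxc
    obtain ⟨v', hv', h2⟩ := key c hc1 hc2 a' ha' i' hi' hyc
    obtain ⟨rfl, rfl⟩ := hGd a ha i hi a' ha' i' hi' v hv v' hv' (h1.symm.trans h2)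
    rfl
  have hbd := hboard X hXcell
  -- the lanes
  have hlane : ∀ u : Fin k, PQ (Cond k) M T (fun e => Sym2.map gm (ends e)) ψ X (Cell vt h)
      ((Finset.range (len u + 1)).image (p u)) ∧
      Board.Inb N ((Finset.range (len u + 1)).image (p u)) := fun u =>
    Board_path hbd (p u) (len u) (hp1 u u.2) (hp2 u u.2)
  have hQd : ∀ u u' : Fin k, u ≠ u' → Disjoint ((Finset.range (len u + 1)).image (p u))
      ((Finset.range (len u' + 1)).image (p u')) := by
    intro u u' huu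
    rw [Finset.disjoint_left]
    intro c hc hc'
    obtain ⟨z, hz, rfl⟩ := Finset.mem_image.1 hc
    obtain ⟨z', hz', h1⟩ := Finset.mem_image.1 hc'
    rw [Finset.mem_range] at hz hz'
    exact hp3 u u.2 u' u'.2 (fun h => huu (Fin.ext h)) z (by omega) z' (by omega) h1.symm
  -- enumeration of `I`
  obtain ⟨β, hβi, hβI⟩ : ∃ β : ℕ → α, InjOn β {i | i < k} ∧ β '' {i | i < k} = I := by
    have hc : hIf.toFinset.card = k := by
      rw [← Set.ncard_eq_toFinset_card _ hIf, hIc]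
    obtain ⟨β⟩ : Nonempty (Fin k ≃ hIf.toFinset) := by
      rw [← Fintype.card_eq, Fintype.card_fin, Fintype.card_coe, hc]
    obtain ⟨z⟩ := hα
    refine ⟨fun i => if hi : i < k then (β ⟨i, hi⟩ : α) else z, ?_, ?_⟩
    · intro i hi j hj hij
      have hi' : i < k := hi
      have hj' : j < k := hj
      simp only [dif_pos hi', dif_pos hj'] at hij
      have h1 := β.injective (Subtype.ext hij)
      exact Fin.mk.inj_iff.1 h1
    · apply Subset.antisymm
      · rintro _ ⟨i, hi, rfl⟩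
        have hi' : i < k := hi
        simp only [dif_pos hi']
        exact (Set.Finite.mem_toFinset hIf).1 (β ⟨i, hi'⟩).2
      · intro x hx
        obtain ⟨j, hj⟩ := β.surjective ⟨x, (Set.Finite.mem_toFinset hIf).2 hx⟩
        refine ⟨j.1, j.2, ?_⟩
        simp only [dif_pos j.2]
        rw [Fin.eta, hj]
  -- the conditions
  have hcond : ∀ i : Cond k, (∀ y ∈ i.1.1, y < k) ∧ (∀ x ∈ i.1.2, x < k) ∧
      i.1.1.card = i.1.2.card := by
    rintro ⟨⟨A, B⟩, hi⟩
    have h1 := Finset.mem_filter.1 hi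
    have h2 := Finset.mem_product.1 h1.1
    refine ⟨fun y hy => ?_, fun x hx => ?_, h1.2⟩
    · exact Finset.mem_range.1 (Finset.mem_powerset.1 h2.1 hy)
    · exact Finset.mem_range.1 (Finset.mem_powerset.1 h2.2 hx)
  have hJsub : ∀ i : Cond k, β '' ((i.1.2 : Finset ℕ) : Set ℕ) ⊆ I := by
    intro i
    rw [← hβI]
    exact image_mono fun x hx => (hcond i).2.1 x hx
  have hJc : ∀ i : Cond k, (β '' ((i.1.2 : Finset ℕ) : Set ℕ)).ncard = i.1.2.card := by
    intro i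
    have h1 : InjOn β ((i.1.2 : Finset ℕ) : Set ℕ) := hβi.mono fun x hx => (hcond i).2.1 x hx
    rw [h1.ncard_image, Set.ncard_coe_finset]
  have hsecond : ∀ i : Cond k, ∃ t : ℕ → α, (∀ a ∈ i.1.1, ∃ j < k, t a = e a j) ∧
      M.IsBase ((F \ t '' ((i.1.1 : Finset ℕ) : Set ℕ)) ∪ β '' ((i.1.2 : Finset ℕ) : Set ℕ)) := by
    intro i
    obtain ⟨h1, h2, h3⟩ := hcond i
    obtain ⟨t, h4, h5, h6⟩ := ext_trans hFb hIE hFI (hJsub i)
      (fun a => e a '' ((Finset.range k : Finset ℕ) : Set ℕ)) i.1.1 (by rw [hJc i, h3])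
      (fun a ha => (he a (h1 a ha)).2)
    refine ⟨t, ?_, ?_⟩
    · intro a ha
      obtain ⟨j, hj, hje⟩ := (h4 a ha).1
      exact ⟨j, Finset.mem_range.1 (Finset.mem_coe.1 hj), hje.symm⟩
    · refine ext_base hFb (hFI.mono_right (hJsub i)) (hIf.subset (hJsub i)) ?_ h6 ?_
      · rintro _ ⟨a, ha, rfl⟩
        exact (h4 a ha).2
      · rw [h5.ncard_image, Set.ncard_coe_finset, hJc i, h3]
  choose t ht htb using hsecond
  -- merging
  obtain ⟨C, ℓ, hCT, hℓ, hℓi, hm₁⟩ := hbd.side (κ := Fin k) (π := Fin k) id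
    (fun u => (Finset.range (len u + 1)).image (p u)) (fun u => (hlane u).1)
    (fun u => (hlane u).2) hQd
    (fun i => {p | p.1 ∈ i.1.1}) (fun i p => t i p.1)
    (by
      intro i q hq
      obtain ⟨j, hj, hje⟩ := ht i q.1 hq
      refine ⟨(hX _).2 ⟨q.1, q.2, j, hj, hje⟩, ?_⟩
      obtain ⟨v, hv, h4⟩ := (hZ q.1 j _).1 (((he q.1 q.2).1 j hj).1)
      obtain ⟨z, hz, hpz⟩ := hGQ q.1 q.2 j hj v hv
      refine ⟨cel k a₀ b₀ v, ?_, by rw [hje]; exact h4⟩
      rw [← hpz]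
      exact Finset.mem_image_of_mem _ (Finset.mem_range.2 (by simp only [id]; omega)))
    (fun i => Function.injective_id.injOn) (fun i => β '' ((i.1.2 : Finset ℕ) : Set ℕ))
    (fun i => (hTI.mono_right (hJsub i)).symm)
    (by
      intro i
      have h1 : (fun p : Fin k => t i p.1) '' {p | p.1 ∈ i.1.1} =
          t i '' ((i.1.1 : Finset ℕ) : Set ℕ) := by
        ext z
        constructor
        · rintro ⟨p, hp, rfl⟩
          exact ⟨p.1, hp, rfl⟩
        · rintro ⟨a, ha, rfl⟩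
          exact ⟨⟨a, (hcond i).1 a ha⟩, ha, rfl⟩
      rw [h1, union_comm]
      exact htb i)
  -- the minor
  refine uniform_minor k C (fun i => if hi : i < k then ℓ ⟨i, hi⟩ else Classical.choice hα) β
    ?_ hβi ?_ ?_ ?_ ?_
  · intro i hi j hj hij
    have hi' : i < k := hi
    have hj' : j < k := hj
    simp only [dif_pos hi', dif_pos hj'] at hij
    exact Fin.mk.inj_iff.1 (hℓi hij)
  · intro i hi j hj hij
    simp only [dif_pos hi] at hij
    refine Set.disjoint_left.1 hTI (hℓ ⟨i, hi⟩).1 ?_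
    rw [hij, ← hβI]
    exact ⟨j, hj, rfl⟩
  · intro i hi
    simp only [dif_pos hi]
    exact (hℓ ⟨i, hi⟩).2
  · intro i hi hc
    refine Set.disjoint_left.1 hTI (hCT hc) ?_
    rw [← hβI]
    exact ⟨i, hi, rfl⟩
  · intro A B hA hB hAB
    have hAc : ((Finset.range k) \ A).card = B.card := by
      have h1 : A ⊆ Finset.range k := fun i hi => Finset.mem_range.2 (hA i hi)
      rw [Finset.card_sdiff_of_subset h1, Finset.card_range]
      omega
    have hmem : (((Finset.range k) \ A, B) : Finset ℕ × Finset ℕ) ∈ condF k := by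
      refine Finset.mem_filter.2 ⟨Finset.mem_product.2 ⟨?_, ?_⟩, hAc⟩
      · exact Finset.mem_powerset.2 Finset.sdiff_subset
      · exact Finset.mem_powerset.2 (fun i hi => Finset.mem_range.2 (hB i hi))
    have h1 := hm₁ ⟨_, hmem⟩
    simp only at h1
    have e1 : ℓ '' {u | u ∉ id '' {p : Fin k | p.1 ∈ Finset.range k \ A}} =
        (fun i => if hi : i < k then ℓ ⟨i, hi⟩ else Classical.choice hα) '' (A : Set ℕ) := by
      ext z
      constructor
      · rintro ⟨u, hu, rfl⟩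
        refine ⟨u.1, ?_, by simp only [dif_pos u.2]⟩
        by_contra h2
        apply hu
        rw [image_id]
        exact Finset.mem_sdiff.2 ⟨Finset.mem_range.2 u.2, h2⟩
      · rintro ⟨i, hi, rfl⟩
        have hi' := hA i hi
        simp only [dif_pos hi']
        refine ⟨⟨i, hi'⟩, ?_, rfl⟩
        rw [image_id]
        intro h2
        exact (Finset.mem_sdiff.1 h2).2 hi
    rw [e1] at h1
    have e2 : β '' (B : Set ℕ) ∪ (C ∪
        (fun i => if hi : i < k then ℓ ⟨i, hi⟩ else Classical.choice hα) '' (A : Set ℕ)) =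
        C ∪ ((fun i => if hi : i < k then ℓ ⟨i, hi⟩ else Classical.choice hα) '' (A : Set ℕ) ∪
        β '' (B : Set ℕ)) := by
      ext z
      simp only [mem_union]
      tauto
    rw [← e2]
    exact h1

end BICS
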