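import Pool.Agent.DA.Win

/-!
# Claim A, part A2: the matching (page MP_5165fa_co_DENS2_h54.md)

`S` spans, by `ends`, a bicircular matroid on the finite vertex set `A`, and `T` is an independent
set of elements of the closure of `S` with all their locations in `I` and `Y`.

* `hall`: all but `|Y| + 1` elements of `T` have a private location in `I`.
* `quarter`: if the elements have at most two locations in `I` then, in every block `D` of `I`, a
  quarter of them can be chosen such that the second location is in a set `R` which contains no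
  private location, and which contains everything outside of the block.
* `matching`: both, for the block `D = I`.
* `spread`: among many blocks with many private locations one can choose `m` blocks such that at
  least half of the second locations avoid the other chosen blocks.
-/

open Set BIC BICS
open scoped Matroid

namespace DA

variable {α V : Type*}

section

variable {M : Matroid α} [M.Finite] {S : Set α} {ends : α → Sym2 V}

/-- Private locations. -/
theorem hall (hB : Bic M S ends) {A I Y : Finset V} (hA : ConnF S ends A)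
    (hSA : ∀ e ∈ S, ∀ v ∈ ends e, v ∈ A) (hIA : I ⊆ A) (hYA : Y ⊆ A) (hI : I.Nonempty)
    (T : Finset α) (hT : M.Indep (T : Set α)) (hcl : ∀ t ∈ T, t ∈ M.closure S)
    (hloc : ∀ t ∈ T, CWL.Loc M S ends t ⊆ (I : Set V) ∪ Y) :
    ∃ T₂ ⊆ T, ∃ σ : α → V, T.card ≤ T₂.card + Y.card + 1 ∧
      ((∀ t ∈ T, (CWL.Loc M S ends t).Nonempty) → T.card ≤ T₂.card + Y.card) ∧
      (∀ t ∈ T₂, ∀ t' ∈ T₂, σ t = σ t' → t = t') ∧
      ∀ t ∈ T₂, σ t ∈ I ∧ σ t ∈ CWL.Loc M S ends t := by
  classical
  obtain ⟨v₀, hv₀⟩ := hI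
  have hUA : I ∪ Y ⊆ A := Finset.union_subset hIA hYA
  -- the rank of a subset of `T`
  have hrk : ∀ X ⊆ T, rk M (X : Set α) = X.card := by
    intro X hX
    have h1 : M.Indep (X : Set α) := hT.subset (by exact_mod_cast hX)
    have h2 := h1.eRk_eq_encard
    rw [← cast_rk, Set.encard_coe_eq_coe_finsetCard] at h2
    exact_mod_cast h2
  -- the locations as a finset
  set N : α → Finset V := fun t => (I ∪ Y).filter (fun v => v ∈ CWL.Loc M S ends t) with hN
  have hNL : ∀ t ∈ T, ∀ v, v ∈ N t ↔ v ∈ CWL.Loc M S ends t := by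
    intro t ht v
    simp only [hN, Finset.mem_filter, Finset.mem_union]
    constructor
    · exact fun h => h.2
    · intro h
      exact ⟨by simpa using hloc t ht h, h⟩
  -- the elements without a location
  set T₀ := T.filter (fun t => N t = ∅) with hT₀
  set T₁ := T.filter (fun t => ¬ N t = ∅) with hT₁
  have hcard : T₀.card + T₁.card = T.card := Finset.card_filter_add_card_filter_not _
  have hT₀c : T₀.card ≤ 1 := by
    rw [← hrk T₀ (Finset.filter_subset _ _)]
    have h1 := rk_loc_le hB hA hSA (U := {v₀})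
      (Finset.singleton_subset_iff.2 (hIA hv₀)) (Finset.singleton_nonempty _) (X := (T₀ : Set α)) (by
        intro e he
        obtain ⟨heT, heN⟩ := Finset.mem_filter.1 (Finset.mem_coe.1 he)
        refine ⟨hcl e heT, fun v hv => ?_⟩
        have h2 := (hNL e heT v).2 hv
        rw [heN] at h2
        exact absurd h2 (Finset.notMem_empty v))
    simpa using h1
  -- the condition of Hall
  have hHall : ∀ s : Finset {t // t ∈ T₁}, s.card ≤ (s.biUnion (fun t => N t.1)).card := by
    intro s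
    rcases s.eq_empty_or_nonempty with rfl | ⟨t₀, ht₀⟩
    · simp
    · set X := s.map (Function.Embedding.subtype _) with hX
      have hXT : X ⊆ T := by
        intro t ht
        obtain ⟨t', _, rfl⟩ := Finset.mem_map.1 ht
        exact (Finset.mem_filter.1 t'.2).1
      have h1 : X.card = s.card := Finset.card_map _
      rw [← h1, ← hrk X hXT]
      have hsub : s.biUnion (fun t => N t.1) ⊆ A := by
        intro v hv
        obtain ⟨t, _, hv⟩ := Finset.mem_biUnion.1 hv
        exact hUA (Finset.mem_filter.1 hv).1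
      have hne : (s.biUnion (fun t => N t.1)).Nonempty := by
        have h2 := (Finset.mem_filter.1 t₀.2).2
        obtain ⟨v, hv⟩ := Finset.nonempty_iff_ne_empty.2 h2
        exact ⟨v, Finset.mem_biUnion.2 ⟨t₀, ht₀, hv⟩⟩
      refine rk_loc_le hB hA hSA hsub hne ?_
      intro e he
      obtain ⟨t', ht', rfl⟩ := Finset.mem_map.1 (Finset.mem_coe.1 he)
      have htT := (Finset.mem_filter.1 t'.2).1
      refine ⟨hcl _ htT, fun v hv => ?_⟩
      rw [Finset.mem_coe, Finset.mem_biUnion]
      exact ⟨t', ht', (hNL _ htT v).2 hv⟩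
  obtain ⟨f, hf, hfN⟩ := (Finset.all_card_le_biUnion_card_iff_exists_injective
    (fun t : {t // t ∈ T₁} => N t.1)).1 hHall
  set σ : α → V := fun t => if h : t ∈ T₁ then f ⟨t, h⟩ else v₀ with hσ
  have hσ1 : ∀ t (h : t ∈ T₁), σ t = f ⟨t, h⟩ := by
    intro t h
    simp only [hσ, dif_pos h]
  have hσinj : ∀ t ∈ T₁, ∀ t' ∈ T₁, σ t = σ t' → t = t' := by
    intro t ht t' ht' h
    rw [hσ1 t ht, hσ1 t' ht'] at h
    have := hf h
    simpa using this
  have hσN : ∀ t ∈ T₁, σ t ∈ N t := by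
    intro t ht
    rw [hσ1 t ht]
    exact hfN ⟨t, ht⟩
  set T₂ := T₁.filter (fun t => σ t ∈ I) with hT₂
  have hc2 : T₁.card ≤ T₂.card + Y.card := by
    have h1 : T₂.card + (T₁.filter (fun t => ¬ σ t ∈ I)).card = T₁.card :=
      Finset.card_filter_add_card_filter_not _
    have h2 : (T₁.filter (fun t => ¬ σ t ∈ I)).card ≤ Y.card := by
      refine Finset.card_le_card_of_injOn σ ?_ ?_
      · intro t ht
        obtain ⟨ht1, ht2⟩ := Finset.mem_filter.1 (Finset.mem_coe.1 ht)
        have h3 := (Finset.mem_filter.1 (hσN t ht1)).1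
        rcases Finset.mem_union.1 h3 with h4 | h4
        · exact absurd h4 ht2
        · exact h4
      · intro t ht t' ht' h
        exact hσinj t (Finset.mem_filter.1 (Finset.mem_coe.1 ht)).1 t'
          (Finset.mem_filter.1 (Finset.mem_coe.1 ht')).1 h
    omega
  refine ⟨T₂, (Finset.filter_subset _ _).trans (Finset.filter_subset _ _), σ, ?_, ?_, ?_, ?_⟩
  · omega
  · intro hne
    have h0 : T₀ = ∅ := by
      rw [Finset.eq_empty_iff_forall_notMem]
      intro t ht
      obtain ⟨htT, htN⟩ := Finset.mem_filter.1 ht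
      obtain ⟨v, hv⟩ := hne t htT
      have h2 := (hNL t htT v).2 hv
      rw [htN] at h2
      exact absurd h2 (Finset.notMem_empty v)
    rw [h0, Finset.card_empty] at hcard
    omega
  · intro t ht t' ht' h
    exact hσinj t (Finset.mem_filter.1 ht).1 t' (Finset.mem_filter.1 ht').1 h
  · intro t ht
    obtain ⟨ht1, ht2⟩ := Finset.mem_filter.1 ht
    exact ⟨ht2, (Finset.mem_filter.1 (hσN t ht1)).2⟩

end

/-- A quarter of the subsets of `D` contain `b` and not `a`. -/
lemma quarter_card [DecidableEq V] (D : Finset V) {a b : V} (ha : a ∈ D) (hb : b ∈ D)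
    (hab : a ≠ b) :
    2 ^ D.card ≤ 4 * (D.powerset.filter (fun R => a ∉ R ∧ b ∈ R)).card := by
  have hbe : b ∈ D.erase a := Finset.mem_erase.2 ⟨fun h => hab h.symm, hb⟩
  have h1 : ((D.erase a).erase b).powerset.card ≤
      (D.powerset.filter (fun R => a ∉ R ∧ b ∈ R)).card := by
    refine Finset.card_le_card_of_injOn (fun R => insert b R) ?_ ?_
    · intro R hR
      rw [Finset.mem_coe, Finset.mem_powerset] at hR
      rw [Finset.mem_coe, Finset.mem_filter, Finset.mem_powerset]
      refine ⟨?_, ?_, Finset.mem_insert_self _ _⟩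
      · refine Finset.insert_subset hb (hR.trans ?_)
        exact (Finset.erase_subset _ _).trans (Finset.erase_subset _ _)
      · rw [Finset.mem_insert, not_or]
        refine ⟨hab, fun h => ?_⟩
        exact (Finset.mem_erase.1 (Finset.mem_erase.1 (hR h)).2).1 rfl
    · intro R hR R' hR' h
      rw [Finset.mem_coe, Finset.mem_powerset] at hR hR'
      have hbR : b ∉ R := fun h => (Finset.mem_erase.1 (hR h)).1 rfl
      have hbR' : b ∉ R' := fun h => (Finset.mem_erase.1 (hR' h)).1 rfl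
      have h2 : (insert b R).erase b = (insert b R').erase b := by
        have h3 : insert b R = insert b R' := h
        rw [h3]
      rwa [Finset.erase_insert hbR, Finset.erase_insert hbR'] at h2
  rw [Finset.card_powerset, Finset.card_erase_of_mem hbe, Finset.card_erase_of_mem ha] at h1
  have h2 : 2 ≤ D.card := by
    have h3 := Finset.card_pos.2 ⟨b, hbe⟩
    rw [Finset.card_erase_of_mem ha] at h3
    omega
  obtain ⟨n, hn⟩ : ∃ n, D.card = n + 2 := ⟨D.card - 2, by omega⟩
  rw [hn] at h1 ⊢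
  have h3 : n + 2 - 1 - 1 = n := by omega
  rw [h3] at h1
  have h4 : 2 ^ (n + 2) = 4 * 2 ^ n := by rw [pow_add]; ring
  rw [h4]
  exact Nat.mul_le_mul_left 4 h1

/-- Half of the subsets of `D` do not contain `a`. -/
lemma half_card [DecidableEq V] (D : Finset V) {a : V} (ha : a ∈ D) :
    2 ^ D.card ≤ 4 * (D.powerset.filter (fun R => a ∉ R)).card := by
  have h1 : (D.erase a).powerset.card ≤ (D.powerset.filter (fun R => a ∉ R)).card := by
    refine Finset.card_le_card ?_
    intro R hR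
    rw [Finset.mem_powerset] at hR
    rw [Finset.mem_filter, Finset.mem_powerset]
    refine ⟨hR.trans (Finset.erase_subset _ _), fun h => ?_⟩
    exact (Finset.mem_erase.1 (hR h)).1 rfl
  rw [Finset.card_powerset, Finset.card_erase_of_mem ha] at h1
  have h2 : 1 ≤ D.card := Finset.card_pos.2 ⟨a, ha⟩
  obtain ⟨n, hn⟩ : ∃ n, D.card = n + 1 := ⟨D.card - 1, by omega⟩
  rw [hn] at h1 ⊢
  have h3 : n + 1 - 1 = n := by omega
  rw [h3] at h1
  have h4 : 2 ^ (n + 1) = 2 * 2 ^ n := by rw [pow_add]; ring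
  rw [h4]
  omega

/-- The random half, in a block `D`. -/
theorem quarter_set (D : Finset V) (T : Finset α) (a : α → V) (ha : ∀ t ∈ T, a t ∈ D)
    (L : α → Set V) (h2 : ∀ t ∈ T, ∀ x ∈ L t, ∀ y ∈ L t, x ∈ D → y ∈ D → x ≠ a t → y ≠ a t →
      x = y) :
    ∃ T' ⊆ T, ∃ R ⊆ D, T.card ≤ 4 * T'.card ∧ (∀ t ∈ T', a t ∉ R) ∧
      ∀ t ∈ T', ∀ v ∈ L t, v ∈ D → v = a t ∨ v ∈ R := by
  classical
  -- the good elements
  set g : Finset V → Finset α := fun R => T.filter (fun t => a t ∉ R ∧
    ∀ v ∈ L t, v ∈ D → v = a t ∨ v ∈ R) with hg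
  have hone : ∀ t ∈ T, 2 ^ D.card ≤ 4 * (D.powerset.filter (fun R => a t ∉ R ∧
      ∀ v ∈ L t, v ∈ D → v = a t ∨ v ∈ R)).card := by
    intro t ht
    by_cases hcase : ∃ b ∈ L t, b ∈ D ∧ b ≠ a t
    · obtain ⟨b, hbL, hbD, hba⟩ := hcase
      refine (quarter_card D (ha t ht) hbD (fun h => hba h.symm)).trans ?_
      refine Nat.mul_le_mul_left 4 (Finset.card_le_card ?_)
      intro R hR
      rw [Finset.mem_filter] at hR ⊢
      refine ⟨hR.1, hR.2.1, fun v hv hvD => ?_⟩
      by_cases hva : v = a t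
      · exact Or.inl hva
      · right
        rw [h2 t ht v hv b hbL hvD hbD hva hba]
        exact hR.2.2
    · push Not at hcase
      refine (half_card D (ha t ht)).trans ?_
      refine Nat.mul_le_mul_left 4 (Finset.card_le_card ?_)
      intro R hR
      rw [Finset.mem_filter] at hR ⊢
      exact ⟨hR.1, hR.2, fun v hv hvD => Or.inl (hcase v hv hvD)⟩
  -- double counting
  have hsum : T.card * 2 ^ D.card ≤ 4 * ∑ R ∈ D.powerset, (g R).card := by
    have h3 : ∑ R ∈ D.powerset, (g R).card = ∑ t ∈ T, (D.powerset.filter (fun R => a t ∉ R ∧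
        ∀ v ∈ L t, v ∈ D → v = a t ∨ v ∈ R)).card := by
      simp only [hg, Finset.card_filter]
      exact Finset.sum_comm
    rw [h3, Finset.mul_sum, ← smul_eq_mul, ← Finset.sum_const]
    exact Finset.sum_le_sum hone
  obtain ⟨R, hR, hRg⟩ : ∃ R ∈ D.powerset, T.card ≤ 4 * (g R).card := by
    by_contra hcon
    push Not at hcon
    have h3 : ∑ R ∈ D.powerset, 4 * (g R).card < ∑ R ∈ D.powerset, T.card := by
      refine Finset.sum_lt_sum_of_nonempty ⟨∅, Finset.empty_mem_powerset _⟩ hcon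
    rw [← Finset.mul_sum, Finset.sum_const, Finset.card_powerset, smul_eq_mul, mul_comm] at h3
    have h4 : 2 ^ D.card * T.card = T.card * 2 ^ D.card := mul_comm _ _
    rw [mul_comm] at h3
    omega
  refine ⟨g R, Finset.filter_subset _ _, R, Finset.mem_powerset.1 hR, hRg, ?_, ?_⟩
  · intro t ht
    exact (Finset.mem_filter.1 ht).2.1
  · intro t ht
    exact (Finset.mem_filter.1 ht).2.2

section

variable {M : Matroid α} {S : Set α} {ends : α → Sym2 V}

/-- Elements with at most two locations in `I`. -/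
lemma two_eq {I : Finset V} {L : Set V} (h2 : (L ∩ (I : Set V)).ncard ≤ 2) {a x y : V}
    (ha : a ∈ L) (haI : a ∈ I) (hx : x ∈ L) (hxI : x ∈ I) (hy : y ∈ L) (hyI : y ∈ I)
    (hxa : x ≠ a) (hya : y ≠ a) : x = y := by
  classical
  by_contra hxy
  have h3 : (({a, x, y} : Finset V) : Set V) ⊆ L ∩ (I : Set V) := by
    intro v hv
    simp only [Finset.coe_insert, Finset.coe_singleton, mem_insert_iff, mem_singleton_iff] at hv
    rcases hv with rfl | rfl | rfl
    · exact ⟨ha, haI⟩
    · exact ⟨hx, hxI⟩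
    · exact ⟨hy, hyI⟩
  have h4 := Set.ncard_le_ncard h3 (I.finite_toSet.subset inter_subset_right)
  rw [Set.ncard_coe_finset] at h4
  have h5 : ({a, x, y} : Finset V).card = 3 := by
    rw [Finset.card_insert_of_notMem, Finset.card_pair hxy]
    simp only [Finset.mem_insert, Finset.mem_singleton, not_or]
    exact ⟨fun h => hxa h.symm, fun h => hya h.symm⟩
  omega

/-- An element with a location outside of `I` is not spanned by the part on `I`. -/
lemma nl_of_loc {I : Finset V} {t : α} {y : V} (hy : y ∈ CWL.Loc M S ends t)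
    (hyI : y ∉ I) : t ∉ M.closure (ins S ends (I : Set V)) := by
  intro h
  refine hy (M.closure_subset_closure ?_ h)
  intro e he
  refine ⟨he.1, fun v hv => ?_⟩
  have h1 := he.2 v hv
  simp only [Set.mem_compl_iff, Set.mem_singleton_iff]
  rintro rfl
  exact hyI h1

/-- **The matching**, with the random half in every block. -/
theorem blocks [M.Finite] (hB : Bic M S ends) {A I Y : Finset V} (hA : ConnF S ends A)
    (hSA : ∀ e ∈ S, ∀ v ∈ ends e, v ∈ A) (hIA : I ⊆ A) (hYA : Y ⊆ A) (hd : Disjoint I Y)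
    (hI : I.Nonempty) (hfull : rk M (ins S ends (I : Set V)) = I.card)
    (T : Finset α) (hT : M.Indep (T : Set α)) (hcl : ∀ t ∈ T, t ∈ M.closure S)
    (hloc : ∀ t ∈ T, CWL.Loc M S ends t ⊆ (I : Set V) ∪ Y)
    (hY : ∀ t ∈ T, ∃ y ∈ Y, y ∈ CWL.Loc M S ends t)
    (h2 : ∀ t ∈ T, (CWL.Loc M S ends t ∩ (I : Set V)).ncard ≤ 2) :
    ∃ T₂ ⊆ T, ∃ σ : α → V, T.card ≤ T₂.card + Y.card ∧
      (∀ t ∈ T₂, ∀ t' ∈ T₂, σ t = σ t' → t = t') ∧
      (∀ t ∈ T₂, σ t ∈ I ∧ σ t ∈ CWL.Loc M S ends t) ∧
      ∀ D ⊆ I, ∀ T₃ ⊆ T₂, (∀ t ∈ T₃, σ t ∈ D) → ∃ T' ⊆ T₃, ∃ R : Set V, R ⊆ (I : Set V) ∧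
        (∀ v ∈ I, v ∉ D → v ∈ R) ∧ T₃.card ≤ 4 * T'.card ∧ Win M S ends A I Y T' σ R := by
  classical
  obtain ⟨T₂, hT₂, σ, _, hc, hinj, hσ⟩ := hall hB hA hSA hIA hYA hI T hT hcl hloc
  refine ⟨T₂, hT₂, σ, hc (fun t ht => ?_), hinj, hσ, ?_⟩
  · obtain ⟨y, _, hy⟩ := hY t ht
    exact ⟨y, hy⟩
  · intro D hD T₃ hT₃ hσD
    obtain ⟨T', hT', R, hR, hcard, hR1, hR2⟩ := quarter_set D T₃ σ hσD
      (fun t => CWL.Loc M S ends t) (by
        intro t ht x hx y hy hxD hyD hxa hya
        exact two_eq (h2 t (hT₂ (hT₃ ht))) (hσ t (hT₃ ht)).2 (hσ t (hT₃ ht)).1 hx (hD hxD) hy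
          (hD hyD) hxa hya)
    refine ⟨T', hT', ((I \ D : Finset V) : Set V) ∪ R, ?_, ?_, hcard, ?_⟩
    · rintro v (hv | hv)
      · exact Finset.mem_coe.2 (Finset.mem_sdiff.1 (Finset.mem_coe.1 hv)).1
      · exact Finset.mem_coe.2 (hD (hR (Finset.mem_coe.1 hv)))
    · intro v hvI hvD
      exact Or.inl (Finset.mem_coe.2 (Finset.mem_sdiff.2 ⟨hvI, hvD⟩))
    · refine ⟨hB, hA, hSA, hIA, hYA, hd, hI, hfull, ?_, ?_, ?_, ?_, ?_, ?_⟩
      · exact fun t ht => hcl t (hT₂ (hT₃ (hT' ht)))
      · exact fun t ht => hloc t (hT₂ (hT₃ (hT' ht)))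
      · exact fun t ht t' ht' => hinj t (hT₃ (hT' ht)) t' (hT₃ (hT' ht'))
      · intro t ht
        refine ⟨(hσ t (hT₃ (hT' ht))).1, ?_, (hσ t (hT₃ (hT' ht))).2⟩
        rintro (h | h)
        · exact (Finset.mem_sdiff.1 (Finset.mem_coe.1 h)).2 (hσD t (hT' ht))
        · exact hR1 t ht (Finset.mem_coe.1 h)
      · intro t ht v hv hvI
        by_cases hvD : v ∈ D
        · rcases hR2 t ht v hv hvD with h | h
          · exact Or.inl h
          · exact Or.inr (Or.inr (Finset.mem_coe.2 h))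
        · exact Or.inr (Or.inl (Finset.mem_coe.2 (Finset.mem_sdiff.2 ⟨hvI, hvD⟩)))
      · intro t ht
        obtain ⟨y, hyY, hy⟩ := hY t (hT₂ (hT₃ (hT' ht)))
        refine nl_of_loc hy (fun h => ?_)
        exact Finset.disjoint_left.1 hd h hyY

/-- **The matching**, one block. -/
theorem matching [M.Finite] (hB : Bic M S ends) {A I Y : Finset V} (hA : ConnF S ends A)
    (hSA : ∀ e ∈ S, ∀ v ∈ ends e, v ∈ A) (hIA : I ⊆ A) (hYA : Y ⊆ A) (hI : I.Nonempty)
    (T : Finset α) (hT : M.Indep (T : Set α)) (hcl : ∀ t ∈ T, t ∈ M.closure S)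
    (hloc : ∀ t ∈ T, CWL.Loc M S ends t ⊆ (I : Set V) ∪ Y)
    (h2 : ∀ t ∈ T, (CWL.Loc M S ends t ∩ (I : Set V)).ncard ≤ 2) :
    ∃ T' ⊆ T, ∃ (σ : α → V) (R : Set V), R ⊆ (I : Set V) ∧
      T.card ≤ 4 * T'.card + Y.card + 1 ∧
      (∀ t ∈ T', ∀ t' ∈ T', σ t = σ t' → t = t') ∧
      (∀ t ∈ T', σ t ∈ I ∧ σ t ∉ R ∧ σ t ∈ CWL.Loc M S ends t) ∧
      ∀ t ∈ T', ∀ v ∈ CWL.Loc M S ends t, v ∈ I → v = σ t ∨ v ∈ R := by
  classical
  obtain ⟨T₂, hT₂, σ, hc, _, hinj, hσ⟩ := hall hB hA hSA hIA hYA hI T hT hcl hloc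
  obtain ⟨T', hT', R, hR, hcard, hR1, hR2⟩ := quarter_set I T₂ σ (fun t ht => (hσ t ht).1)
    (fun t => CWL.Loc M S ends t) (by
      intro t ht x hx y hy hxD hyD hxa hya
      exact two_eq (h2 t (hT₂ ht)) (hσ t ht).2 (hσ t ht).1 hx hxD hy hyD hxa hya)
  refine ⟨T', hT'.trans hT₂, σ, (R : Set V), by exact_mod_cast hR, by omega, ?_, ?_, ?_⟩
  · exact fun t ht t' ht' => hinj t (hT' ht) t' (hT' ht')
  · intro t ht
    exact ⟨(hσ t (hT' ht)).1, fun h => hR1 t ht (Finset.mem_coe.1 h), (hσ t (hT' ht)).2⟩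
  · intro t ht v hv hvI
    rcases hR2 t ht v hv hvI with h | h
    · exact Or.inl h
    · exact Or.inr (Finset.mem_coe.2 h)

end

/-- A digraph with out-degrees at most `d` on at least `(2 d + 1) m` vertices contains `m`
independent vertices. -/
theorem indep_of_out {ι : Type*} (d : ℕ) (r : ι → ι → Prop) (m : ℕ) :
    ∀ B : Finset ι, (∀ i ∈ B, {j | j ∈ B ∧ r i j}.ncard ≤ d) → (2 * d + 1) * m ≤ B.card →
      ∃ C ⊆ B, C.card = m ∧ ∀ i ∈ C, ∀ j ∈ C, i ≠ j → ¬ r i j := by
  classical
  induction m with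
  | zero =>
    intro B _ _
    exact ⟨∅, Finset.empty_subset _, rfl, by simp⟩
  | succ m ih =>
    intro B hd hB
    have hout : ∀ i ∈ B, (B.filter (fun j => r i j)).card ≤ d := by
      intro i hi
      have h1 := hd i hi
      rw [← Set.ncard_coe_finset]
      refine le_trans (le_of_eq (congrArg Set.ncard ?_)) h1
      ext j
      simp
    have hBpos : 0 < B.card := by
      have : 0 < (2 * d + 1) * (m + 1) := Nat.mul_pos (by omega) (by omega)
      omega
    -- a vertex of small in-degree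
    obtain ⟨j, hj, hjd⟩ : ∃ j ∈ B, (B.filter (fun i => r i j)).card ≤ d := by
      by_contra hcon
      push Not at hcon
      have h1 : ∑ j ∈ B, d < ∑ j ∈ B, (B.filter (fun i => r i j)).card :=
        Finset.sum_lt_sum_of_nonempty (Finset.card_pos.1 hBpos) hcon
      have h2 : ∑ j ∈ B, (B.filter (fun i => r i j)).card =
          ∑ i ∈ B, (B.filter (fun j => r i j)).card := by
        simp only [Finset.card_filter]
        exact Finset.sum_comm
      have h3 : ∑ i ∈ B, (B.filter (fun j => r i j)).card ≤ ∑ i ∈ B, d :=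
        Finset.sum_le_sum hout
      omega
    set B' := B.filter (fun i => i ≠ j ∧ ¬ r i j ∧ ¬ r j i) with hB'
    have hcov : B ⊆ B' ∪ ({j} ∪ (B.filter (fun i => r i j) ∪ B.filter (fun i => r j i))) := by
      intro i hi
      simp only [hB', Finset.mem_union, Finset.mem_filter, Finset.mem_singleton]
      by_cases h1 : i = j
      · exact Or.inr (Or.inl h1)
      · by_cases h2 : r i j
        · exact Or.inr (Or.inr (Or.inl ⟨hi, h2⟩))
        · by_cases h3 : r j i
          · exact Or.inr (Or.inr (Or.inr ⟨hi, h3⟩))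
          · exact Or.inl ⟨hi, h1, h2, h3⟩
    have h1 := Finset.card_le_card hcov
    have h2 := Finset.card_union_le B'
      ({j} ∪ (B.filter (fun i => r i j) ∪ B.filter (fun i => r j i)))
    have h3 := Finset.card_union_le {j} (B.filter (fun i => r i j) ∪ B.filter (fun i => r j i))
    have h4 := Finset.card_union_le (B.filter (fun i => r i j)) (B.filter (fun i => r j i))
    have h5 := hout j hj
    rw [Finset.card_singleton] at h3
    have h6 : (2 * d + 1) * (m + 1) = (2 * d + 1) * m + (2 * d + 1) := by ring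
    obtain ⟨C, hC, hCm, hCi⟩ := ih B' (by
      intro i hi
      refine le_trans (Set.ncard_le_ncard ?_ ?_) (hd i (Finset.mem_filter.1 hi).1)
      · intro x hx
        exact ⟨(Finset.mem_filter.1 hx.1).1, hx.2⟩
      · exact B.finite_toSet.subset (fun x hx => hx.1)) (by omega)
    have hjC : j ∉ C := fun h => (Finset.mem_filter.1 (hC h)).2.1 rfl
    refine ⟨insert j C, ?_, ?_, ?_⟩
    · refine Finset.insert_subset hj (hC.trans (Finset.filter_subset _ _))
    · rw [Finset.card_insert_of_notMem hjC, hCm]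
    · intro a ha b hb hab
      rw [Finset.mem_insert] at ha hb
      rcases ha with rfl | ha
      · rcases hb with rfl | hb
        · exact absurd rfl hab
        · exact (Finset.mem_filter.1 (hC hb)).2.2.2
      · rcases hb with rfl | hb
        · exact (Finset.mem_filter.1 (hC ha)).2.2.1
        · exact hCi a ha b hb hab

/-- **Many blocks.** Among many blocks with `2 q` private locations each one can choose `m`
blocks, such that every chosen block contains the private locations of `q` elements without a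
location in another chosen block. -/
theorem spread {ι : Type*} (D : ι → Finset V) (B : Finset ι)
    (hD : ∀ i ∈ B, ∀ j ∈ B, i ≠ j → Disjoint (D i) (D j)) (T : Finset α) (σ : α → V)
    (L : α → Set V) (m q : ℕ)
    (h2 : ∀ t ∈ T, ∀ x ∈ L t, ∀ y ∈ L t, ∀ i ∈ B, ∀ j ∈ B, x ∈ D i → y ∈ D j → x ≠ σ t →
      y ≠ σ t → x = y)
    (hq : ∀ i ∈ B, 2 * q ≤ {t | t ∈ T ∧ σ t ∈ D i}.ncard) (hB : (4 * m + 1) * m ≤ B.card) :
    ∃ C ⊆ B, C.card = m ∧ ∀ i ∈ C,
      q ≤ {t | t ∈ T ∧ σ t ∈ D i ∧ ∀ j ∈ C, j ≠ i → ∀ v ∈ L t, v ∉ D j}.ncard := by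
  classical
  set w : ι → ι → Finset α := fun i j => T.filter (fun t => σ t ∈ D i ∧ ∃ v ∈ L t, v ∈ D j) with hw
  set N : ι → Finset α := fun i => T.filter (fun t => σ t ∈ D i) with hN
  have hNq : ∀ i ∈ B, 2 * q ≤ (N i).card := by
    intro i hi
    refine (hq i hi).trans (le_of_eq ?_)
    rw [← Set.ncard_coe_finset]
    refine congrArg Set.ncard ?_
    ext t
    simp [hN]
  -- an element meets at most one other block
  have hone : ∀ i ∈ B, ∀ J ⊆ B, i ∉ J → ∑ j ∈ J, (w i j).card ≤ (N i).card := by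
    intro i hi J hJ hiJ
    rw [← Finset.card_biUnion]
    · refine Finset.card_le_card ?_
      intro t ht
      obtain ⟨j, _, ht⟩ := Finset.mem_biUnion.1 ht
      obtain ⟨htT, hti, _⟩ := Finset.mem_filter.1 ht
      exact Finset.mem_filter.2 ⟨htT, hti⟩
    · intro j hj j' hj' hjj
      rw [Function.onFun, Finset.disjoint_left]
      intro t ht ht'
      obtain ⟨htT, hti, v, hv, hvj⟩ := Finset.mem_filter.1 ht
      obtain ⟨_, _, v', hv', hvj'⟩ := Finset.mem_filter.1 ht'
      have hji : j ≠ i := fun h => hiJ (h ▸ hj)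
      have hji' : j' ≠ i := fun h => hiJ (h ▸ hj')
      have h3 : v ≠ σ t := by
        rintro rfl
        exact Finset.disjoint_left.1 (hD j (hJ hj) i hi hji) hvj hti
      have h4 : v' ≠ σ t := by
        rintro rfl
        exact Finset.disjoint_left.1 (hD j' (hJ hj') i hi hji') hvj' hti
      have h5 := h2 t htT v hv v' hv' j (hJ hj) j' (hJ hj') hvj hvj' h3 h4
      subst h5
      exact Finset.disjoint_left.1 (hD j (hJ hj) j' (hJ hj') hjj) hvj hvj'
  -- independent blocks
  obtain ⟨C, hCB, hCm, hCi⟩ := indep_of_out (2 * m)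
    (fun i j => i ≠ j ∧ (N i).card < 2 * m * (w i j).card) m B (by
      intro i hi
      set J := B.filter (fun j => i ≠ j ∧ (N i).card < 2 * m * (w i j).card) with hJ
      have h1 : {j | j ∈ B ∧ i ≠ j ∧ (N i).card < 2 * m * (w i j).card}.ncard = J.card := by
        rw [← Set.ncard_coe_finset J]
        refine congrArg Set.ncard ?_
        ext j
        simp [hJ]
      rw [h1]
      have h3 := hone i hi J (Finset.filter_subset _ _)
        (fun h => (Finset.mem_filter.1 h).2.1 rfl)
      have h4 : ∑ j ∈ J, ((N i).card + 1) ≤ ∑ j ∈ J, 2 * m * (w i j).card :=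
        Finset.sum_le_sum (fun j hj => (Finset.mem_filter.1 hj).2.2)
      rw [← Finset.mul_sum, Finset.sum_const, smul_eq_mul] at h4
      have h5 := h4.trans (Nat.mul_le_mul_left (2 * m) h3)
      by_contra hcon
      push Not at hcon
      have h6 : 2 * m * (N i).card ≤ J.card * (N i).card := Nat.mul_le_mul_right _ hcon.le
      have h7 : J.card * ((N i).card + 1) = J.card * (N i).card + J.card := by ring
      omega) (by
      have h1 : 2 * (2 * m) + 1 = 4 * m + 1 := by ring
      rw [h1]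
      exact hB)
  refine ⟨C, hCB, hCm, ?_⟩
  intro i hi
  set G := T.filter (fun t => σ t ∈ D i ∧ ∀ j ∈ C, j ≠ i → ∀ v ∈ L t, v ∉ D j) with hG
  have h0 : {t | t ∈ T ∧ σ t ∈ D i ∧ ∀ j ∈ C, j ≠ i → ∀ v ∈ L t, v ∉ D j}.ncard = G.card := by
    rw [← Set.ncard_coe_finset]
    refine congrArg Set.ncard ?_
    ext t
    simp [hG]
  rw [h0]
  have h1 : N i ⊆ G ∪ (C.erase i).biUnion (fun j => w i j) := by
    intro t ht
    obtain ⟨htT, hti⟩ := Finset.mem_filter.1 ht
    rw [Finset.mem_union]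
    by_cases h3 : ∀ j ∈ C, j ≠ i → ∀ v ∈ L t, v ∉ D j
    · exact Or.inl (Finset.mem_filter.2 ⟨htT, hti, h3⟩)
    · right
      push Not at h3
      obtain ⟨j, hj, hji, v, hv, hvj⟩ := h3
      exact Finset.mem_biUnion.2 ⟨j, Finset.mem_erase.2 ⟨hji, hj⟩,
        Finset.mem_filter.2 ⟨htT, hti, v, hv, hvj⟩⟩
  have h3 := (Finset.card_le_card h1).trans (Finset.card_union_le _ _)
  have h4 : ((C.erase i).biUnion (fun j => w i j)).card ≤ ∑ j ∈ C.erase i, (w i j).card :=
    Finset.card_biUnion_le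
  have h5 : ∑ j ∈ C.erase i, 2 * m * (w i j).card ≤ ∑ j ∈ C.erase i, (N i).card := by
    refine Finset.sum_le_sum ?_
    intro j hj
    obtain ⟨hji, hjC⟩ := Finset.mem_erase.1 hj
    have h6 := hCi i hi j hjC (fun h => hji h.symm)
    push Not at h6
    exact h6 (fun h => hji h.symm)
  rw [← Finset.mul_sum, Finset.sum_const, smul_eq_mul, Finset.card_erase_of_mem hi, hCm] at h5
  have hm : 0 < m := by
    rw [← hCm]
    exact Finset.card_pos.2 ⟨i, hi⟩
  set s := ∑ j ∈ C.erase i, (w i j).card with hs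
  have h6 : 2 * s ≤ (N i).card := by
    have h7 : m * (2 * s) ≤ m * (N i).card := by
      calc m * (2 * s) = 2 * m * s := by ring
        _ ≤ (m - 1) * (N i).card := h5
        _ ≤ m * (N i).card := Nat.mul_le_mul_right _ (by omega)
    exact Nat.le_of_mul_le_mul_left h7 hm
  have h7 := hNq i (hCB hi)
  omega

end DA
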