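import Pool.Agent.DA.Rob
import Pool.Agent.DA.Match

/-!
# The bounded set `Om`: subdivided rows with free representatives
-/

open Set BIC BICS
open scoped Matroid

namespace DA

open Gad

universe u

/-- `S` consists of the rows of the grid on `U`, `row e` is the row (an edge of the grid) of the
element `e`; for every choice of one representative of every row, the contraction of all other
elements is the bicircular matroid of the grid. -/
structure RGrd {α : Type*} (P : Matroid α) (S : Set α) (row : α → Sym2 (ℕ × ℕ))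
    (U : Set (ℕ × ℕ)) : Prop where
  sub : S ⊆ P.E
  mem : ∀ e ∈ S, ∃ p q, row e = s(p, q) ∧ adj p q ∧ p ∈ U ∧ q ∈ U
  surj : ∀ p q, adj p q → p ∈ U → q ∈ U → ∃ e ∈ S, row e = s(p, q)
  bic : ∀ c, c ⊆ S → CWL.GrdU c row U → Bic (P ／ (S \ c)) c row

/-- `c` contains exactly one element of every row. -/
def Rep {α : Type*} (S : Set α) (row : α → Sym2 (ℕ × ℕ)) (U : Set (ℕ × ℕ)) (c : Set α) : Prop :=
  c ⊆ S ∧ CWL.GrdU c row U

/-- the locations of `z` for the representatives `c` -/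
def LocR {α : Type*} (P : Matroid α) (S : Set α) (row : α → Sym2 (ℕ × ℕ)) (c : Set α) (z : α) :
    Set (ℕ × ℕ) :=
  {v | z ∉ P.closure (S \ {e | e ∈ c ∧ v ∈ row e})}

/-- `z` sees the row `a`: it is not spanned by the other rows. -/
def Seen {α : Type*} (P : Matroid α) (S : Set α) (row : α → Sym2 (ℕ × ℕ)) (z : α)
    (a : Sym2 (ℕ × ℕ)) : Prop :=
  z ∉ P.closure (S \ {e | e ∈ S ∧ row e = a})

section

variable {α : Type*} {P : Matroid α} {S : Set α} {row : α → Sym2 (ℕ × ℕ)} {U : Set (ℕ × ℕ)}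

lemma exists_rep (h : RGrd P S row U) : ∃ c, Rep S row U c := by
  classical
  have hg : ∀ s : Sym2 (ℕ × ℕ), ∃ e : Option α, ∀ x ∈ S, row x = s → ∃ y, e = some y ∧ y ∈ S ∧
      row y = s := by
    intro s
    by_cases hs : ∃ x ∈ S, row x = s
    · obtain ⟨x, hx, hxs⟩ := hs
      exact ⟨some x, fun _ _ _ => ⟨x, rfl, hx, hxs⟩⟩
    · exact ⟨none, fun x hx hxs => absurd ⟨x, hx, hxs⟩ hs⟩
  choose g hg using hg
  refine ⟨{e | e ∈ S ∧ g (row e) = some e}, fun e he => he.1, ?_, ?_, ?_⟩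
  · intro e he e' he' hee
    have h1 := he.2
    have h2 := he'.2
    rw [hee] at h1
    rw [h1] at h2
    exact Option.some.inj h2
  · intro e he
    exact h.mem e he.1
  · intro p q hpq hp hq
    obtain ⟨e, he, h1⟩ := h.surj p q hpq hp hq
    obtain ⟨y, h2, h3, h4⟩ := hg _ e he h1
    exact ⟨y, ⟨h3, by rw [h4]; exact h2⟩, h4⟩

lemma ins_union_eq {c : Set α} (hc : c ⊆ S) (v : ℕ × ℕ) :
    ins c row {v}ᶜ ∪ (S \ c) = S \ {e | e ∈ c ∧ v ∈ row e} := by
  ext e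
  simp only [mem_union, mem_sdiff, mem_setOf_eq, ins]
  constructor
  · rintro (⟨h1, h2⟩ | ⟨h1, h2⟩)
    · exact ⟨hc h1, fun h3 => h2 v h3.2 rfl⟩
    · exact ⟨h1, fun h3 => h2 h3.1⟩
  · rintro ⟨h1, h2⟩
    by_cases h3 : e ∈ c
    · left
      refine ⟨h3, fun w hw hwv => ?_⟩
      rw [mem_singleton_iff] at hwv
      subst hwv
      exact h2 ⟨h3, hw⟩
    · exact Or.inr ⟨h1, h3⟩

lemma loc_eq_locR {c : Set α} (hc : c ⊆ S) {z : α} (hzS : z ∉ S) :
    CWL.Loc (P ／ (S \ c)) c row z = LocR P S row c z := by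
  ext v
  unfold CWL.Loc LocR
  simp only [mem_setOf_eq]
  rw [Matroid.contract_closure_eq, ins_union_eq hc v]
  constructor
  · intro h1 h2
    exact h1 ⟨h2, fun h3 => hzS h3.1⟩
  · intro h1 h2
    exact h1 h2.1

lemma cl_rep {c : Set α} (hc : c ⊆ S) {z : α} (hz : z ∈ P.closure S) (hzS : z ∉ S) :
    z ∈ (P ／ (S \ c)).closure c ∧ z ∉ c := by
  rw [Matroid.contract_closure_eq, union_sdiff_cancel hc]
  exact ⟨⟨hz, fun h => hzS h.1⟩, fun h => hzS (hc h)⟩

/-- Different representatives near different far apart vertices. -/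
lemma combine {ι : Type*} (C : Finset ι) {c₀ : Set α} (h₀ : Rep S row U c₀) (c : ι → Set α)
    (hc : ∀ i ∈ C, Rep S row U (c i)) (A : ι → Finset (ℕ × ℕ))
    (hfar : ∀ i ∈ C, ∀ j ∈ C, i ≠ j → ∀ v ∈ A i, ∀ w ∈ A j, Apart 2 v w) :
    ∃ c', Rep S row U c' ∧ ∀ i ∈ C, ∀ v ∈ A i,
      {e | e ∈ c' ∧ v ∈ row e} = {e | e ∈ c i ∧ v ∈ row e} := by
  classical
  have huniq : ∀ e ∈ S, (∃ p q, row e = s(p, q) ∧ adj p q) → ∀ i ∈ C, ∀ j ∈ C, ∀ v ∈ A i,
      ∀ w ∈ A j, v ∈ row e → w ∈ row e → i = j := by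
    rintro e _ ⟨p, q, h1, h2⟩ i hi j hj v hv w hw hve hwe
    by_contra hne
    have h3 := hfar i hi j hj hne v hv w hw
    rw [h1, Sym2.mem_iff] at hve hwe
    unfold adj at h2
    unfold Apart at h3
    rcases hve with rfl | rfl <;> rcases hwe with rfl | rfl <;> omega
  have hmem : ∀ e, (e ∈ c₀ ∨ ∃ i ∈ C, e ∈ c i) → e ∈ S ∧
      ∃ p q, row e = s(p, q) ∧ adj p q ∧ p ∈ U ∧ q ∈ U := by
    rintro e (he | ⟨i, hi, he⟩)
    · exact ⟨h₀.1 he, h₀.2.mem e he⟩
    · exact ⟨(hc i hi).1 he, (hc i hi).2.mem e he⟩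
  refine ⟨{e | (∃ i ∈ C, e ∈ c i ∧ ∃ v ∈ A i, v ∈ row e) ∨
    (e ∈ c₀ ∧ ∀ i ∈ C, ∀ v ∈ A i, v ∉ row e)}, ⟨?_, ?_, ?_, ?_⟩, ?_⟩
  · rintro e (⟨i, hi, he, _⟩ | ⟨he, _⟩)
    · exact (hc i hi).1 he
    · exact h₀.1 he
  · rintro e (⟨i, hi, he, v, hv, hve⟩ | ⟨he, h1⟩) e' (⟨i', hi', he', v', hv', hve'⟩ | ⟨he', h1'⟩)
      hee
    · have h2 := (hmem e (Or.inr ⟨i, hi, he⟩))
      obtain ⟨h2, p, q, h3, h4, _⟩ := h2
      have h5 := huniq e h2 ⟨p, q, h3, h4⟩ i hi i' hi' v hv v' hv' hve (by rw [hee]; exact hve')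
      subst h5
      exact (hc i hi).2.inj he he' hee
    · exact absurd (hee ▸ hve) (h1' i hi v hv)
    · exact absurd (hee ▸ hve') (h1 i' hi' v' hv')
    · exact h₀.2.inj he he' hee
  · rintro e (⟨i, hi, he, _⟩ | ⟨he, _⟩)
    · exact (hmem e (Or.inr ⟨i, hi, he⟩)).2
    · exact (hmem e (Or.inl he)).2
  · intro p q hpq hp hq
    by_cases hex : ∃ i ∈ C, ∃ v ∈ A i, v ∈ s(p, q)
    · obtain ⟨i, hi, v, hv, hvp⟩ := hex
      obtain ⟨e, he, h1⟩ := (hc i hi).2.surj p q hpq hp hq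
      exact ⟨e, Or.inl ⟨i, hi, he, v, hv, by rw [h1]; exact hvp⟩, h1⟩
    · push Not at hex
      obtain ⟨e, he, h1⟩ := h₀.2.surj p q hpq hp hq
      exact ⟨e, Or.inr ⟨he, fun i hi v hv => by rw [h1]; exact hex i hi v hv⟩, h1⟩
  · intro i hi v hv
    ext e
    simp only [mem_setOf_eq]
    constructor
    · rintro ⟨⟨j, hj, he, w, hw, hwe⟩ | ⟨_, h1⟩, hve⟩
      · obtain ⟨h2, p, q, h3, h4, _⟩ := hmem e (Or.inr ⟨j, hj, he⟩)
        have h5 := huniq e h2 ⟨p, q, h3, h4⟩ i hi j hj v hv w hw hve hwe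
        subst h5
        exact ⟨he, hve⟩
      · exact absurd hve (h1 i hi v hv)
    · rintro ⟨he, hve⟩
      exact ⟨Or.inl ⟨i, hi, he, v, hv, hve⟩, hve⟩

end

/-- **B2.** Outside of a bounded set `Om` and of the outer layer every element of bounded support
has at most two locations, for every choice of the representatives. -/
theorem setOmR (k β D : ℕ) : ∃ r δ : ℕ, ∀ {α : Type u} (P : Matroid α) [P.Finite] (S : Set α)
    (row : α → Sym2 (ℕ × ℕ)) (X : ℕ × ℕ) (n : ℕ), RGrd P S row (rect X.1 X.2 n n) →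
    HasUniformMinor P k ∨ ∃ Om : Finset (ℕ × ℕ), Om.card ≤ r ∧ ∀ z ∈ P.closure S, z ∉ S →
      (∃ N : Finset (ℕ × ℕ), N.card ≤ β ∧ ∀ c, Rep S row (rect X.1 X.2 n n) c →
        ∀ v ∈ LocR P S row c z, Deep X n D v → v ∈ N) →
      ∀ c, Rep S row (rect X.1 X.2 n n) c → ∀ A : Finset (ℕ × ℕ),
        (∀ v ∈ A, v ∈ LocR P S row c z ∧ Deep X n δ v ∧ ∀ w ∈ Om, Apart δ v w) →
        A.card ≤ 2 := by
  classical
  obtain ⟨m, δB, hglb⟩ := glB.{u} k β 0 D
  obtain ⟨R, hR⟩ : ∃ R, R = (2 * β + 1) * m := ⟨_, rfl⟩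
  obtain ⟨δ, hδ⟩ : ∃ δ, δ = D + 2 * δB + 2 := ⟨_, rfl⟩
  refine ⟨R * β, δ, ?_⟩
  intro α P _ S row X n hG
  by_contra hcon
  push Not at hcon
  obtain ⟨hhum, hno⟩ := hcon
  obtain ⟨c₀, hc₀⟩ := exists_rep hG
  -- good quadruples
  obtain ⟨Good, hGood⟩ : ∃ Good : α × Finset (ℕ × ℕ) × Set α × Finset (ℕ × ℕ) → Prop,
      ∀ d, Good d ↔ (d.1 ∈ P.closure S ∧ d.1 ∉ S ∧ d.2.1.card ≤ β ∧
        (∀ c, Rep S row (rect X.1 X.2 n n) c → ∀ v ∈ LocR P S row c d.1, Deep X n D v →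
          v ∈ d.2.1) ∧ Rep S row (rect X.1 X.2 n n) d.2.2.1 ∧ 3 ≤ d.2.2.2.card ∧
        ∀ v ∈ d.2.2.2, v ∈ LocR P S row d.2.2.1 d.1 ∧ Deep X n δ v) := ⟨_, fun _ => Iff.rfl⟩
  have hseq : ∀ i ≤ R, ∃ d : ℕ → α × Finset (ℕ × ℕ) × Set α × Finset (ℕ × ℕ),
      (∀ j < i, Good (d j)) ∧ ∀ j j', j < j' → j' < i → ∀ v ∈ (d j').2.2.2, ∀ w ∈ (d j).2.1,
        Apart δ v w := by
    intro i
    induction i with
    | zero =>
      intro _
      by_cases hα : Nonempty α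
      · obtain ⟨x⟩ := hα
        exact ⟨fun _ => (x, ∅, ∅, ∅), fun j hj => absurd hj (Nat.not_lt_zero _),
          fun j j' _ hj' => absurd hj' (Nat.not_lt_zero _)⟩
      · exfalso
        obtain ⟨z, _, _⟩ := hno ∅ (Nat.zero_le _)
        exact hα ⟨z⟩
    | succ i ih =>
      intro hi
      obtain ⟨d, hd1, hd2⟩ := ih (by omega)
      obtain ⟨z, hz, hzS, ⟨N, hNc, hN⟩, c, hc, A, hA, hAc⟩ :=
        hno ((Finset.range i).biUnion fun j => (d j).2.1) (by
          refine (Finset.card_biUnion_le_card_mul _ _ β ?_).trans ?_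
          · intro j hj
            exact ((hGood _).1 (hd1 j (Finset.mem_range.1 hj))).2.2.1
          · rw [Finset.card_range]
            exact Nat.mul_le_mul_right _ (by omega))
      refine ⟨fun j => if j < i then d j else (z, N, c, A), ?_, ?_⟩
      · intro j hj
        by_cases hji : j < i
        · simp only [if_pos hji]
          exact hd1 j hji
        · simp only [if_neg hji]
          rw [hGood]
          exact ⟨hz, hzS, hNc, hN, hc, hAc, fun v hv => ⟨(hA v hv).1, (hA v hv).2.1⟩⟩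
      · intro j j' hjj hj' v hv w hw
        have hji : j < i := by omega
        simp only [if_pos hji] at hw
        by_cases hji' : j' < i
        · simp only [if_pos hji'] at hv
          exact hd2 j j' hjj hji' v hv w hw
        · simp only [if_neg hji'] at hv
          exact (hA v hv).2.2 w (Finset.mem_biUnion.2 ⟨j, Finset.mem_range.2 hji, hw⟩)
  obtain ⟨d, hd1, hd2⟩ := hseq R le_rfl
  have hd1' : ∀ j < R, _ := fun j hj => (hGood (d j)).1 (hd1 j hj)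
  -- the triples are in the supports
  have hAN : ∀ j < R, ∀ v ∈ (d j).2.2.2, v ∈ (d j).2.1 := by
    intro j hj v hv
    obtain ⟨_, _, _, h4, h5, _, h7⟩ := hd1' j hj
    obtain ⟨h8, h9⟩ := h7 v hv
    refine h4 _ h5 v h8 ?_
    unfold Deep at h9 ⊢
    omega
  obtain ⟨C, hCR, hCm, hCi⟩ := indep_of_out β
    (fun j i : ℕ => i < j ∧ ∃ v ∈ (d i).2.2.2, ∃ w ∈ (d j).2.1, ¬ Apart δB v w) m
    (Finset.range R) (by
      intro j hj
      rw [Finset.mem_range] at hj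
      have hch : ∀ i, ∃ w : ℕ × ℕ, (i ∈ Finset.range R ∧ i < j ∧ ∃ v ∈ (d i).2.2.2,
          ∃ w ∈ (d j).2.1, ¬ Apart δB v w) → w ∈ (d j).2.1 ∧ ∃ v ∈ (d i).2.2.2,
          ¬ Apart δB v w := by
        intro i
        by_cases hi : (i ∈ Finset.range R ∧ i < j ∧ ∃ v ∈ (d i).2.2.2,
          ∃ w ∈ (d j).2.1, ¬ Apart δB v w)
        · obtain ⟨_, _, v, hv, w, hw, hvw⟩ := hi
          exact ⟨w, fun _ => ⟨hw, v, hv, hvw⟩⟩
        · exact ⟨(0, 0), fun h => absurd h hi⟩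
      choose f hf using hch
      have h1 := (hd1' j hj).2.2.1
      refine le_trans ?_ h1
      rw [← Set.ncard_coe_finset]
      refine Set.ncard_le_ncard_of_injOn f (fun i hi => (hf i hi).1) ?_ (Finset.finite_toSet _)
      intro i hi i' hi' hii
      by_contra hne
      obtain ⟨_, v, hv, hvw⟩ := hf i hi
      obtain ⟨_, v', hv', hvw'⟩ := hf i' hi'
      rw [← hii] at hvw'
      have hiR := Finset.mem_range.1 hi.1
      have hiR' := Finset.mem_range.1 hi'.1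
      have h2 : Apart δ v v' ∨ Apart δ v' v := by
        rcases Nat.lt_or_gt_of_ne hne with h3 | h3
        · exact Or.inr (hd2 i i' h3 hiR' v' hv' v (hAN i hiR v hv))
        · exact Or.inl (hd2 i' i h3 hiR v hv v' (hAN i' hiR' v' hv'))
      unfold Apart at h2 hvw hvw'
      omega) (by rw [Finset.card_range, hR])
  have hCR' : ∀ i ∈ C, i < R := fun i hi => Finset.mem_range.1 (hCR hi)
  -- far apart
  have hfarAN : ∀ i ∈ C, ∀ j ∈ C, i ≠ j → ∀ v ∈ (d i).2.2.2, ∀ w ∈ (d j).2.1,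
      Apart δB v w := by
    intro i hi j hj hne v hv w hw
    rcases Nat.lt_or_gt_of_ne hne with h3 | h3
    · by_contra hcon
      exact hCi j hj i hi (Ne.symm hne) ⟨h3, v, hv, w, hw, hcon⟩
    · have h4 := hd2 j i h3 (hCR' i hi) v hv w hw
      unfold Apart at h4 ⊢
      omega
  have hfarAA : ∀ i ∈ C, ∀ j ∈ C, i ≠ j → ∀ v ∈ (d i).2.2.2, ∀ w ∈ (d j).2.2.2,
      Apart 2 v w := by
    intro i hi j hj hne v hv w hw
    rcases Nat.lt_or_gt_of_ne hne with h3 | h3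
    · have h4 := hd2 i j h3 (hCR' j hj) w hw v (hAN i (hCR' i hi) v hv)
      unfold Apart at h4 ⊢
      omega
    · have h4 := hd2 j i h3 (hCR' i hi) v hv w (hAN j (hCR' j hj) w hw)
      unfold Apart at h4 ⊢
      omega
  obtain ⟨c, hc, hceq⟩ := combine C hc₀ (fun i => (d i).2.2.1)
    (fun i hi => (hd1' i (hCR' i hi)).2.2.2.2.1) (fun i => (d i).2.2.2) hfarAA
  -- enumerate `C`
  obtain ⟨e⟩ : Nonempty (Fin m ≃ C) := by
    refine ⟨(Fintype.equivFinOfCardEq ?_).symm⟩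
    rw [Fintype.card_coe, hCm]
  have : (P ／ (S \ c)).Finite := BQ.fin_contract _
  have hmain := hglb (P ／ (S \ c)) c row X n ∅ (hG.bic c hc.1 hc.2) (by simpa using hc.2)
    (by simp) (by intro v hv; simp at hv) (by simp) (fun t => (d (e t)).1)
    (fun t => (d (e t)).2.2.2) (by
      intro t
      obtain ⟨h1, h2, _⟩ := hd1' _ (hCR' _ (e t).2)
      exact cl_rep hc.1 h1 h2) (by
      intro t
      obtain ⟨h1, h2, h3, h4, _⟩ := hd1' _ (hCR' _ (e t).2)
      refine ⟨_, h3, ?_⟩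
      rw [loc_eq_locR hc.1 h2]
      exact h4 c hc) (by
      intro t
      obtain ⟨h1, h2, h3, h4, h5, h6, h7⟩ := hd1' _ (hCR' _ (e t).2)
      refine ⟨h6, fun v hv => ?_⟩
      rw [loc_eq_locR hc.1 h2]
      have h8 := (h7 v hv).1
      unfold LocR at h8 ⊢
      simp only [mem_setOf_eq] at h8 ⊢
      rw [hceq _ (e t).2 v hv]
      exact h8) (by
      intro t v hv
      obtain ⟨h1, h2, h3, h4, h5, h6, h7⟩ := hd1' _ (hCR' _ (e t).2)
      have h8 := (h7 v hv).2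
      unfold Deep at h8 ⊢
      omega) (by simp) (by
      intro t t' hne v hv w hw
      obtain ⟨h1, h2, h3, h4, h5, h6, h7⟩ := hd1' _ (hCR' _ (e t).2)
      obtain ⟨k1, k2, k3, k4, _⟩ := hd1' _ (hCR' _ (e t').2)
      rw [loc_eq_locR hc.1 k2] at hw
      by_cases hwD : Deep X n D w
      · refine hfarAN _ (e t).2 _ (e t').2 ?_ v hv w (k4 c hc w hw hwD)
        intro h
        exact hne (e.injective (Subtype.ext h))
      · have h8 := (h7 v hv).2
        unfold Deep at h8 hwD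
        unfold Apart
        omega)
  exact hhum (HasUniformMinor_mono hmain (con_minor P _))

end DA
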