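import Pool.Agent.DA.ExtS
import Pool.Agent.DA.SetOm

/-!
# Many far apart groups of vertices which see the same elements, row version
-/

open Set BIC BICS
open scoped Matroid

namespace DA

open Gad

universe u

/-- Lanes for the `ext_flat`: colours are given on the vertices. -/
lemma lanes_vert (k : ℕ) (hk : 1 ≤ k) : ∃ w : ℕ, 1 ≤ w ∧ ∀ (h : ℕ), 1 ≤ h →
    ∀ (X : ℕ × ℕ) (N : ℕ) (r : ℕ × ℕ) (V : Fin k → Finset (ℕ × ℕ)),
    (∀ i, ∀ v ∈ V i, X.1 ≤ v.1 ∧ X.2 ≤ v.2 ∧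
      3 * w ≤ (v.1 - X.1) / h ∧ (v.1 - X.1) / h + 3 * w ≤ N ∧
      3 * w ≤ (v.2 - X.2) / h ∧ (v.2 - X.2) / h + 3 * w ≤ N) →
    (∀ i, ∀ v ∈ V i, ((v.1 - X.1) / h % w, (v.2 - X.2) / h % w) = r) →
    (∀ i j, ∀ v ∈ V i, ∀ v' ∈ V j, (v.1 - X.1) / h = (v'.1 - X.1) / h →
      (v.2 - X.2) / h = (v'.2 - X.2) / h → v = v' ∧ i = j) →
    (∀ i, 2 ≤ (V i).card) →
    ∃ (len : Fin k → ℕ) (p : Fin k → ℕ → ℕ × ℕ),
      (∀ i, ∀ z ≤ len i, (p i z).1 < N ∧ (p i z).2 < N) ∧
      (∀ i, ∀ z < len i, adj (p i z) (p i (z + 1))) ∧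
      (∀ i j, i ≠ j → ∀ z ≤ len i, ∀ z' ≤ len j, p i z ≠ p j z') ∧
      ∀ i, ∃ v₀ : ℕ × ℕ, ∀ v ∈ V i, v ≠ v₀ →
        ∃ z ≤ len i, p i z = ((v.1 - X.1) / h, (v.2 - X.2) / h) := by
  classical
  obtain ⟨w, o, o', hw, ho, ho', hL⟩ := laneP k hk
  refine ⟨w, by omega, ?_⟩
  intro h hh X N r V hpos hres hinj hcard
  -- there is a vertex
  have hex : ∃ i, ∃ v, v ∈ V i := by
    have h1 := hcard ⟨0, hk⟩
    have h2 : 0 < (V ⟨0, hk⟩).card := by omega
    obtain ⟨v, hv⟩ := Finset.card_pos.1 h2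
    exact ⟨_, v, hv⟩
  obtain ⟨x, hx⟩ : ∃ x, x = (r.1 + (w - o % w)) % w := ⟨_, rfl⟩
  obtain ⟨y, hy⟩ : ∃ y, y = (r.2 + (w - o' % w)) % w := ⟨_, rfl⟩
  have hxw : x < w := by rw [hx]; exact Nat.mod_lt _ (by omega)
  have hyw : y < w := by rw [hy]; exact Nat.mod_lt _ (by omega)
  have key : ∀ (C r o x : ℕ), C % w = r → x = (r + (w - o % w)) % w → o + 2 ≤ 2 * w →
      3 * w ≤ C → x + (C - x - o) / w * w + o = C := by
    intro C r o x h1 h2 h3 h4
    have h5 : x < w := by rw [h2]; exact Nat.mod_lt _ (by omega)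
    have h6 : w ∣ (C - x - o) := by
      have h7 : (C - x - o) + (x + o) = C := by omega
      have h8 : (x + o) % w = C % w := by
        rw [h1, h2]
        have h9 : o % w < w := Nat.mod_lt _ (by omega)
        have h10 : r < w := by rw [← h1]; exact Nat.mod_lt _ (by omega)
        rw [Nat.add_mod, Nat.mod_mod, ← Nat.add_mod]
        have h11 : r + (w - o % w) + o = r + w + (o - o % w) := by
          have := Nat.mod_le o w
          omega
        rw [h11]
        have h12 : w ∣ (o - o % w) := Nat.dvd_sub_mod o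
        obtain ⟨q, hq⟩ := h12
        rw [hq, add_assoc]
        have h13 : r + (w + w * q) = r + w * (1 + q) := by ring
        rw [h13, Nat.add_mul_mod_self_left]
        exact Nat.mod_eq_of_lt h10
      have h9 : (x + o) ≡ (C - x - o) + (x + o) [MOD w] := by
        unfold Nat.ModEq
        rw [h7]
        exact h8
      have h10 : 0 + (x + o) ≡ (C - x - o) + (x + o) [MOD w] := by
        rw [zero_add]
        exact h9
      have h11 := Nat.ModEq.add_right_cancel' _ h10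
      exact (Nat.modEq_zero_iff_dvd).1 h11.symm
    rw [Nat.div_mul_cancel h6]
    omega
  obtain ⟨T, hT⟩ : ∃ T, T = N / w - 2 := ⟨_, rfl⟩
  have hNw : 6 * w ≤ N := by
    obtain ⟨i, v, hv⟩ := hex
    have := hpos i v hv
    omega
  have hT1 : (N / w) * w ≤ N := Nat.div_mul_le_self N w
  have hT2 : N < (N / w + 1) * w := by
    have := Nat.lt_div_mul_add (a := N) (b := w) (by omega)
    rw [add_mul, one_mul]
    exact this
  have hT6 : 6 ≤ N / w := (Nat.le_div_iff_mul_le (by omega)).2 hNw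
  have hT3 : (T + 2) * w ≤ N := by
    have : T + 2 = N / w := by omega
    rw [this]
    exact hT1
  have hT4 : N < (T + 3) * w := by
    have : T + 3 = N / w + 1 := by omega
    rw [this]
    exact hT2
  -- the super cells
  obtain ⟨cc, hcc⟩ : ∃ cc : ℕ × ℕ → ℕ × ℕ, ∀ v, cc v = (((v.1 - X.1) / h - x - o) / w,
    ((v.2 - X.2) / h - y - o') / w) := ⟨_, fun _ => rfl⟩
  have hccpos : ∀ i, ∀ v ∈ V i, x + (cc v).1 * w + o = (v.1 - X.1) / h ∧
      y + (cc v).2 * w + o' = (v.2 - X.2) / h := by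
    intro i v hv
    have h1 := hpos i v hv
    have h2 := hres i v hv
    rw [hcc]
    simp only
    rw [Prod.ext_iff] at h2
    simp only at h2
    exact ⟨key _ _ o x h2.1 hx ho h1.2.2.1, key _ _ o' y h2.2 hy ho' h1.2.2.2.2.1⟩
  have hccT : ∀ i, ∀ v ∈ V i, cc v ∈ cells T := by
    intro i v hv
    have h1 := hpos i v hv
    obtain ⟨h2, h3⟩ := hccpos i v hv
    unfold cells
    rw [Finset.mem_product, Finset.mem_range, Finset.mem_range]
    have h4 : (T + 3) * w = T * w + 3 * w := by ring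
    constructor
    · by_contra hcon
      push Not at hcon
      have := Nat.mul_le_mul_right w hcon
      omega
    · by_contra hcon
      push Not at hcon
      have := Nat.mul_le_mul_right w hcon
      omega
  have hccinj : ∀ i j, ∀ v ∈ V i, ∀ v' ∈ V j, cc v = cc v' → v = v' ∧ i = j := by
    intro i j v hv v' hv' he
    obtain ⟨h1, h2⟩ := hccpos i v hv
    obtain ⟨h3, h4⟩ := hccpos j v' hv'
    rw [he] at h1 h2
    exact hinj i j v hv v' hv' (by rw [← h1, ← h3]) (by rw [← h2, ← h4])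
  obtain ⟨g, hg⟩ : ∃ g : ℕ × ℕ → Option (Fin k), ∀ i, ∀ v ∈ V i, g (cc v) = some i := by
    refine ⟨fun c => if hc : ∃ i, ∃ v ∈ V i, cc v = c then some hc.choose else none, ?_⟩
    intro i v hv
    have hc : ∃ i, ∃ v' ∈ V i, cc v' = cc v := ⟨i, v, hv, rfl⟩
    simp only [dif_pos hc, Option.some.injEq]
    obtain ⟨v', hv', he⟩ := hc.choose_spec
    exact (hccinj _ _ v' hv' v hv he).2
  obtain ⟨len, p, hp1, hp2, hp3, hp4⟩ := hL x y ((T + 1) * w) T le_rfl g (by
    intro i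
    have h1 := hcard i
    obtain ⟨v, v', hv, hv', hne⟩ := Finset.one_lt_card_iff.1 (show 1 < (V i).card by omega)
    refine ⟨cc v, hccT i v hv, cc v', hccT i v' hv', ?_, hg i v hv, hg i v' hv'⟩
    intro he
    exact hne (hccinj i i v hv v' hv' he).1)
  refine ⟨len, p, ?_, hp2, hp3, ?_⟩
  · intro i z hz
    have h1 := hp1 i z hz
    rw [Gad.mem_rct] at h1
    have h4 : (T + 2) * w = (T + 1) * w + w := by ring
    omega
  · intro i
    obtain ⟨c₀, hc₀⟩ := hp4 i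
    by_cases hex0 : ∃ v ∈ V i, cc v = c₀
    · obtain ⟨v₀, hv₀, he₀⟩ := hex0
      refine ⟨v₀, ?_⟩
      intro v hv hne
      obtain ⟨z, hz, hpz⟩ := hc₀ (cc v) (hccT i v hv) (hg i v hv) (by
        intro he
        exact hne (hccinj i i v hv v₀ hv₀ (he.trans he₀.symm)).1)
      refine ⟨z, hz, ?_⟩
      rw [hpz]
      obtain ⟨h1, h2⟩ := hccpos i v hv
      rw [h1, h2]
    · push Not at hex0
      refine ⟨(0, 0), ?_⟩
      intro v hv _
      obtain ⟨z, hz, hpz⟩ := hc₀ (cc v) (hccT i v hv) (hg i v hv) (hex0 v hv)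
      refine ⟨z, hz, ?_⟩
      rw [hpz]
      obtain ⟨h1, h2⟩ := hccpos i v hv
      rw [h1, h2]

/-- Pigeonhole: a big fibre contains an injective table. -/
lemma table (k q : ℕ) {Q : ℕ} {β : Type*} [DecidableEq β] (t : Finset β) (f : Fin Q → β)
    (hf : ∀ a, f a ∈ t) (hQ : t.card * (k * q) < Q) :
    ∃ y ∈ t, ∃ a : Fin k → Fin q → Fin Q, (∀ i j i' j', a i j = a i' j' → i = i' ∧ j = j') ∧
      ∀ i j, f (a i j) = y := by
  classical
  obtain ⟨y, hy, hc⟩ := Finset.exists_lt_card_fiber_of_mul_lt_card_of_maps_to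
    (s := (Finset.univ : Finset (Fin Q))) (t := t) (f := f) (n := k * q) (fun a _ => hf a)
    (by rw [Finset.card_univ, Fintype.card_fin]; exact hQ)
  refine ⟨y, hy, ?_⟩
  obtain ⟨T, hT⟩ : ∃ T, T = Finset.univ.filter (fun a => f a = y) := ⟨_, rfl⟩
  rw [← hT] at hc
  have hc' : Fintype.card (Fin k × Fin q) ≤ Fintype.card T := by
    rw [Fintype.card_prod, Fintype.card_fin, Fintype.card_fin, Fintype.card_coe]
    exact hc.le
  obtain ⟨e⟩ := Function.Embedding.nonempty_of_card_le hc'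
  refine ⟨fun i j => (e (i, j)).1, ?_, ?_⟩
  · intro i j i' j' h
    have h1 := e.injective (Subtype.ext h)
    exact ⟨(Prod.ext_iff.1 h1).1, (Prod.ext_iff.1 h1).2⟩
  · intro i j
    have h1 : ∀ x ∈ T, f x = y := by
      intro x hx
      rw [hT] at hx
      exact (Finset.mem_filter.1 hx).2
    exact h1 _ (e (i, j)).2

/-- **EXT-ROW.**  Many far apart groups of vertices which see the same `K` elements completely. -/
theorem ext_row (k : ℕ) : ∃ K Q D δ : ℕ, ∀ {α : Type u} (P : Matroid α) [P.Finite] (S : Set α)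
    (row : α → Sym2 (ℕ × ℕ)) (X : ℕ × ℕ) (n : ℕ), RGrd P S row (rect X.1 X.2 n n) →
    ∀ c, Rep S row (rect X.1 X.2 n n) c → ∀ B : Finset α, (B : Set α) ⊆ P.closure S →
    Disjoint (B : Set α) S → B.card = K → ∀ G : Fin Q → Finset (ℕ × ℕ),
    (∀ a, ∀ v ∈ G a, Deep X n D v) →
    (∀ a b, ∀ v ∈ G a, ∀ w ∈ G b, (a, v) ≠ (b, w) → Apart δ v w) →
    (∀ a, rk P (S \ {e | e ∈ c ∧ ∃ v ∈ G a, v ∈ row e} ∪ (B : Set α)) =
      rk P (S \ {e | e ∈ c ∧ ∃ v ∈ G a, v ∈ row e}) + K) → HasUniformMinor P k := by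
  classical
  rcases Nat.eq_zero_or_pos k with rfl | hk
  · exact ⟨0, 0, 0, 0, fun P _ _ _ _ _ _ _ _ _ _ _ _ _ _ _ _ => C1Q.uniform_zero P⟩
  obtain ⟨w, hw, hL⟩ := lanes_vert k hk
  obtain ⟨h, hh⟩ : ∃ h, h = 2 * 4 ^ k := ⟨_, rfl⟩
  have hh1 : 8 ≤ h := by
    have : 4 ^ 1 ≤ 4 ^ k := Nat.pow_le_pow_right (by norm_num) hk
    omega
  obtain ⟨K, hK⟩ : ∃ K, K = w * w * k := ⟨_, rfl⟩
  obtain ⟨Q, hQ⟩ : ∃ Q, Q = w * w * 2 ^ K * (k * (k + 1)) + 1 := ⟨_, rfl⟩
  obtain ⟨D, hD⟩ : ∃ D, D = (3 * w + 3) * h + 3 := ⟨_, rfl⟩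
  refine ⟨K, Q, D, h, ?_⟩
  intro α P _ S row X n hG c hc B hB hBS hBc G hGd hGa hvis
  -- the contraction
  have hPF : (P ／ (S \ c)).Finite := BQ.fin_contract _
  have hbic := hG.bic c hc.1 hc.2
  have hcE : S ⊆ P.E := hG.sub
  have hBE : (B : Set α) ⊆ P.E := hB.trans (P.closure_subset_ground _)
  have hBcl : (B : Set α) ⊆ (P ／ (S \ c)).closure c := fun e he =>
    (cl_rep hc.1 (hB he) (Set.disjoint_left.1 hBS he)).1
  have hBdc : Disjoint (B : Set α) c := hBS.mono_right hc.1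
  have hins : ∀ Z : Set (ℕ × ℕ), ins c row Zᶜ ∪ (S \ c) =
      S \ {e | e ∈ c ∧ ∃ v ∈ Z, v ∈ row e} := by
    intro Z
    ext e
    simp only [mem_union, mem_sdiff, mem_ofPred_eq, ins]
    constructor
    · rintro (⟨h1, h2⟩ | ⟨h1, h2⟩)
      · exact ⟨hc.1 h1, fun ⟨_, v, hv, hve⟩ => h2 v hve hv⟩
      · exact ⟨h1, fun h3 => h2 h3.1⟩
    · rintro ⟨h1, h2⟩
      by_cases h3 : e ∈ c
      · exact Or.inl ⟨h3, fun v hve hv => h2 ⟨h3, v, hv, hve⟩⟩
      · exact Or.inr ⟨h1, h3⟩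
  have hrk : ∀ (Z : Set (ℕ × ℕ)) (J : Set α), J ⊆ (B : Set α) →
      rk (P ／ (S \ c)) (ins c row Zᶜ ∪ J) + rk P (S \ c) =
        rk P (S \ {e | e ∈ c ∧ ∃ v ∈ Z, v ∈ row e} ∪ J) := by
    intro Z J hJ
    rw [BQ.rk_con (sdiff_subset.trans hcE)]
    · rw [union_assoc, union_comm J, ← union_assoc, hins Z]
    · rintro e (he | he)
      · exact ⟨hcE (hc.1 he.1), fun h1 => h1.2 he.1⟩
      · exact ⟨hBE (hJ he), fun h1 => Set.disjoint_left.1 hBS (hJ he) h1.1⟩
  -- the classes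
  obtain ⟨ρ, hρ⟩ : ∃ ρ : ℕ × ℕ → ℕ × ℕ, ∀ v, ρ v = ((v.1 - X.1) / h % w, (v.2 - X.2) / h % w) :=
    ⟨_, fun _ => rfl⟩
  have hρm : ∀ v, ρ v ∈ Finset.range w ×ˢ Finset.range w := by
    intro v
    rw [hρ, Finset.mem_product, Finset.mem_range, Finset.mem_range]
    exact ⟨Nat.mod_lt _ (by omega), Nat.mod_lt _ (by omega)⟩
  have hn2 : ∀ a : Fin Q, 2 ≤ n := by
    intro a
    have h1 := hvis a
    have h2 : ∃ v, v ∈ G a := by
      by_contra hcon
      push Not at hcon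
      have h3 : {e | e ∈ c ∧ ∃ v ∈ G a, v ∈ row e} = ∅ := by
        ext e
        simp only [mem_ofPred_eq, mem_empty_iff_false, iff_false, not_and]
        rintro _ ⟨v, hv, _⟩
        exact hcon v hv
      rw [h3, sdiff_empty, rk_sub_cl hcE hB] at h1
      have : 0 < K := by rw [hK]; positivity
      omega
    obtain ⟨v, hv⟩ := h2
    have h3 := hGd a v hv
    unfold Deep at h3
    omega
  have hmk : ∀ a, ∃ d : (ℕ × ℕ) × Finset α, d ∈ (Finset.range w ×ˢ Finset.range w) ×ˢ B.powerset ∧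
      d.2.card = k ∧ rk (P ／ (S \ c)) (ins c row (((G a).filter (fun v => ρ v = d.1) :
        Finset (ℕ × ℕ)) : Set (ℕ × ℕ))ᶜ ∪ (d.2 : Set α)) =
      rk (P ／ (S \ c)) (ins c row (((G a).filter (fun v => ρ v = d.1) :
        Finset (ℕ × ℕ)) : Set (ℕ × ℕ))ᶜ) + k := by
    intro a
    have h1 : ∃ r ∈ Finset.range w ×ˢ Finset.range w,
        rk (P ／ (S \ c)) (ins c row (((G a).filter (fun v => ρ v = r) :
        Finset (ℕ × ℕ)) : Set (ℕ × ℕ))ᶜ) + (k - 1) < rk (P ／ (S \ c)) (ins c row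
        (((G a).filter (fun v => ρ v = r) : Finset (ℕ × ℕ)) : Set (ℕ × ℕ))ᶜ ∪ (B : Set α)) := by
      by_contra hcon
      push Not at hcon
      have h2 := vis_res hbic hc.2 (hn2 a) hBcl ρ (G a) (by
        intro v hv v' hv' hne
        have := hGa a a v hv v' hv' (by simpa using hne)
        unfold Apart at this ⊢
        omega) (by
        intro v hv
        have := hGd a v hv
        unfold Deep at this ⊢
        omega) (k - 1) (Finset.range w ×ˢ Finset.range w) hcon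
      have h3 : (G a).filter (fun v => ρ v ∈ Finset.range w ×ˢ Finset.range w) = G a :=
        Finset.filter_true_of_mem (fun v _ => hρm v)
      rw [h3] at h2
      have h4 := hrk (G a : Set (ℕ × ℕ)) (B : Set α) subset_rfl
      have h5 := hrk (G a : Set (ℕ × ℕ)) ∅ (empty_subset _)
      rw [union_empty, union_empty] at h5
      have h6 := hvis a
      simp only [Finset.mem_coe] at h4 h5
      rw [Finset.card_product, Finset.card_range] at h2
      have h7 : w * w * (k - 1) < K := by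
        rw [hK]
        exact Nat.mul_lt_mul_of_pos_left (by omega) (by positivity)
      omega
    obtain ⟨r, hr, h2⟩ := h1
    have hBE' : (B : Set α) ⊆ (P ／ (S \ c)).E := hBcl.trans (Matroid.closure_subset_ground _ _)
    obtain ⟨J, hJB, hJc, hJr⟩ := pick hBE' k (ins c row (((G a).filter (fun v => ρ v = r) :
        Finset (ℕ × ℕ)) : Set (ℕ × ℕ))ᶜ) (fun e he => hbic.sub he.1) (by omega)
    exact ⟨(r, J), by
      rw [Finset.mem_product]
      exact ⟨hr, Finset.mem_powerset.2 hJB⟩, hJc, hJr⟩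
  choose d hd1 hd2 hd3 using hmk
  obtain ⟨⟨r, J⟩, hrJ, a, ha1, ha2⟩ := table k (k + 1) _ d hd1 (by
    rw [Finset.card_product, Finset.card_product, Finset.card_range, Finset.card_powerset, hBc, hQ]
    omega)
  rw [Finset.mem_product, Finset.mem_powerset] at hrJ
  have hJB := hrJ.2
  -- the filtered groups
  obtain ⟨H, hH⟩ : ∃ H : Fin k → Fin (k + 1) → Finset (ℕ × ℕ), ∀ i j, H i j =
      (G (a i j)).filter (fun v => ρ v = r) := ⟨_, fun _ _ => rfl⟩
  have hHG : ∀ i j, ∀ v ∈ H i j, v ∈ G (a i j) ∧ ρ v = r := by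
    intro i j v hv
    rw [hH] at hv
    exact Finset.mem_filter.1 hv
  have hHr : ∀ i j, rk (P ／ (S \ c)) (ins c row ((H i j : Finset (ℕ × ℕ)) : Set (ℕ × ℕ))ᶜ ∪
      (J : Set α)) = rk (P ／ (S \ c)) (ins c row ((H i j : Finset (ℕ × ℕ)) :
        Set (ℕ × ℕ))ᶜ) + k := by
    intro i j
    have h1 := hd3 (a i j)
    rw [ha2 i j] at h1
    rw [hH]
    exact h1
  have hJc : J.card = k := by
    have h1 := hd2 (a ⟨0, hk⟩ 0)
    rw [ha2] at h1
    exact h1
  have hHne : ∀ i j, ∃ v, v ∈ H i j := by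
    intro i j
    by_contra hcon
    push Not at hcon
    have h1 : H i j = ∅ := Finset.eq_empty_of_forall_notMem hcon
    have h2 := hHr i j
    rw [h1] at h2
    have h3 : ins c row ((∅ : Finset (ℕ × ℕ)) : Set (ℕ × ℕ))ᶜ = c := by
      ext e
      simp [ins]
    rw [h3, rk_sub_cl hbic.sub ((Finset.coe_subset.2 hJB).trans hBcl)] at h2
    omega
  -- the numbers
  obtain ⟨N, hN⟩ : ∃ N, N = (n - 2) / h := ⟨_, rfl⟩
  have hdiv : ∀ x : ℕ, (x / h) * h ≤ x ∧ x < (x / h) * h + h := by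
    intro x
    exact ⟨Nat.div_mul_le_self x h, Nat.lt_div_mul_add (by omega)⟩
  have hpos1 : ∀ (x X₀ : ℕ), X₀ + D ≤ x → x + D ≤ X₀ + n → 3 * w ≤ (x - X₀) / h ∧
      (x - X₀) / h + 3 * w ≤ N := by
    intro x X₀ h1 h2
    have h3 := hdiv (x - X₀)
    have h4 := hdiv (n - 2)
    rw [← hN] at h4
    rw [hD] at h1 h2
    have e1 : (3 * w + 3) * h = 3 * w * h + 3 * h := by ring
    constructor
    · rw [Nat.le_div_iff_mul_le (by omega)]
      omega
    · by_contra hcon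
      push Not at hcon
      have h5 := Nat.mul_le_mul_right h (show N + 1 ≤ (x - X₀) / h + 3 * w by omega)
      rw [add_mul, add_mul] at h5
      omega
  have hpos : ∀ v, Deep X n D v → X.1 ≤ v.1 ∧ X.2 ≤ v.2 ∧
      3 * w ≤ (v.1 - X.1) / h ∧ (v.1 - X.1) / h + 3 * w ≤ N ∧
      3 * w ≤ (v.2 - X.2) / h ∧ (v.2 - X.2) / h + 3 * w ≤ N := by
    intro v hv
    unfold Deep at hv
    obtain ⟨h1, h2, h3, h4⟩ := hv
    obtain ⟨g1, g2⟩ := hpos1 v.1 X.1 h1 h3
    obtain ⟨g3, g4⟩ := hpos1 v.2 X.2 h2 h4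
    exact ⟨by omega, by omega, g1, g2, g3, g4⟩
  -- different vertices are in different cells
  have hcelne : ∀ v w : ℕ × ℕ, Deep X n D v → Deep X n D w → Apart h v w →
      (v.1 - X.1) / h = (w.1 - X.1) / h → (v.2 - X.2) / h = (w.2 - X.2) / h → False := by
    intro v w' hv hw' hA h1 h2
    obtain ⟨g1, g2, _⟩ := hpos v hv
    obtain ⟨g3, g4, _⟩ := hpos w' hw'
    have e1 := hdiv (v.1 - X.1)
    have e2 := hdiv (v.2 - X.2)
    have e3 := hdiv (w'.1 - X.1)
    have e4 := hdiv (w'.2 - X.2)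
    rw [h1] at e1
    rw [h2] at e2
    unfold Apart at hA
    omega
  have hidx : ∀ i j i' j' v v', v ∈ H i j → v' ∈ H i' j' →
      (v.1 - X.1) / h = (v'.1 - X.1) / h → (v.2 - X.2) / h = (v'.2 - X.2) / h →
      v = v' ∧ i = i' ∧ j = j' := by
    intro i j i' j' v v' hv hv' h1 h2
    have g1 := (hHG i j v hv).1
    have g2 := (hHG i' j' v' hv').1
    by_cases he : (a i j, v) = (a i' j', v')
    · rw [Prod.ext_iff] at he
      simp only at he
      exact ⟨he.2, ha1 _ _ _ _ he.1⟩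
    · exact absurd (hcelne v v' (hGd _ v g1) (hGd _ v' g2) (hGa _ _ v g1 v' g2 he) h1 h2) id
  obtain ⟨len, p, hp1, hp2, hp3, hp4⟩ := hL h (by omega) X N r
    (fun i => Finset.univ.biUnion fun j => H i j) (by
      intro i v hv
      rw [Finset.mem_biUnion] at hv
      obtain ⟨j, _, hv⟩ := hv
      exact hpos v (hGd _ v (hHG i j v hv).1)) (by
      intro i v hv
      rw [Finset.mem_biUnion] at hv
      obtain ⟨j, _, hv⟩ := hv
      rw [← hρ]
      exact (hHG i j v hv).2) (by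
      intro i i' v hv v' hv' h1 h2
      rw [Finset.mem_biUnion] at hv hv'
      obtain ⟨j, _, hv⟩ := hv
      obtain ⟨j', _, hv'⟩ := hv'
      obtain ⟨g1, g2, _⟩ := hidx i j i' j' v v' hv hv' h1 h2
      exact ⟨g1, g2⟩) (by
      intro i
      obtain ⟨v, hv⟩ := hHne i 0
      obtain ⟨v', hv'⟩ := hHne i (Fin.last k)
      refine Finset.one_lt_card_iff.2 ⟨v, v', Finset.mem_biUnion.2 ⟨_, Finset.mem_univ _, hv⟩,
        Finset.mem_biUnion.2 ⟨_, Finset.mem_univ _, hv'⟩, ?_⟩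
      rintro rfl
      have h1 := (hidx i 0 i (Fin.last k) v v hv hv' rfl rfl).2.2
      have h2 := congrArg Fin.val h1
      simp at h2
      omega)
  choose v₀ hv₀ using hp4
  -- the bad group of a lane
  have hbad : ∀ i : Fin k, ∃ j₀ : Fin (k + 1), ∀ j, j ≠ j₀ → v₀ i ∉ H i j := by
    intro i
    by_cases hex : ∃ j, v₀ i ∈ H i j
    · obtain ⟨j₀, hj₀⟩ := hex
      refine ⟨j₀, ?_⟩
      intro j hj hcon
      exact hj (hidx i j i j₀ _ _ hcon hj₀ rfl rfl).2.2
    · push Not at hex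
      exact ⟨0, fun j _ => hex j⟩
  choose j₀ hj₀ using hbad
  obtain ⟨R, hR⟩ : ∃ R : ℕ → ℕ → Finset (ℕ × ℕ), ∀ x y, R x y = if hx : x < k ∧ y < k then
      H ⟨x, hx.1⟩ ((j₀ ⟨x, hx.1⟩).succAbove ⟨y, hx.2⟩) else ∅ := ⟨_, fun _ _ => rfl⟩
  have hR' : ∀ x (hx : x < k) y (hy : y < k), R x y =
      H ⟨x, hx⟩ ((j₀ ⟨x, hx⟩).succAbove ⟨y, hy⟩) := by
    intro x hx y hy
    rw [hR, dif_pos ⟨hx, hy⟩]
  have hnpos : ∃ v, Deep X n D v := by
    obtain ⟨v, hv⟩ := hHne ⟨0, hk⟩ 0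
    exact ⟨v, hGd _ v (hHG _ _ v hv).1⟩
  have hN1 : 6 * w ≤ N ∧ h * N + 2 ≤ n ∧ n < h * N + h + 2 := by
    obtain ⟨v, hv⟩ := hnpos
    have h1 := hpos v hv
    have h2 := hdiv (n - 2)
    rw [← hN, mul_comm] at h2
    unfold Deep at hv
    omega
  have hJcl : (J : Set α) ⊆ (P ／ (S \ c)).closure c := (Finset.coe_subset.2 hJB).trans hBcl
  have hmain := ext_flat k (P ／ (S \ c)) c row X n (h * N) N (by rw [hh]) (by omega) (by
      have := Nat.mul_le_mul_left h (show 1 ≤ N by omega)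
      omega) hN1.2.1 hbic hc.2 J hJcl (hBdc.mono_left (Finset.coe_subset.2 hJB)) hJc R
    (by
      intro x hx y hy v hv
      rw [hR' x hx y hy] at hv
      have h1 := hGd _ v (hHG _ _ v hv).1
      have e1 : (3 * w + 3) * h = 3 * w * h + 3 * h := by ring
      unfold Deep at h1 ⊢
      rw [hD] at h1
      have := hN1.2.2
      omega)
    (by
      intro x hx y hy v hv v' hv' hne
      rw [Finset.mem_coe, hR' x hx y hy] at hv hv'
      have h1 := hGa _ _ v (hHG _ _ v hv).1 v' (hHG _ _ v' hv').1 (by simpa using hne)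
      unfold Apart at h1 ⊢
      omega)
    (by
      intro x hx y hy
      rw [hR' x hx y hy]
      exact hHr _ _)
    (by
      intro x hx y hy x' hx' y' hy' v hv v' hv' he
      rw [hR' x hx y hy] at hv
      rw [hR' x' hx' y' hy'] at hv'
      unfold cel at he
      rw [← hh, Prod.ext_iff] at he
      simp only at he
      obtain ⟨_, h2, h3⟩ := hidx _ _ _ _ v v' hv hv' he.1 he.2
      have h4 : x = x' := congrArg Fin.val h2
      subst h4
      have h5 := Fin.succAbove_right_injective h3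
      exact ⟨rfl, congrArg Fin.val h5⟩)
    (fun x z => if hx : x < k then p ⟨x, hx⟩ z else (0, 0))
    (fun x => if hx : x < k then len ⟨x, hx⟩ else 0)
    (by
      intro x hx z hz
      simp only [dif_pos hx] at hz ⊢
      exact hp1 _ z hz)
    (by
      intro x hx z hz
      simp only [dif_pos hx] at hz ⊢
      exact hp2 _ z hz)
    (by
      intro x hx x' hx' hne z hz z' hz'
      simp only [dif_pos hx] at hz ⊢
      simp only [dif_pos hx'] at hz' ⊢
      refine hp3 _ _ ?_ z hz z' hz'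
      intro h1
      exact hne (congrArg Fin.val h1))
    (by
      intro x hx y hy v hv
      rw [hR' x hx y hy] at hv
      simp only [dif_pos hx]
      obtain ⟨z, hz, h1⟩ := hv₀ ⟨x, hx⟩ v (Finset.mem_biUnion.2 ⟨_, Finset.mem_univ _, hv⟩) (by
        intro h1
        rw [h1] at hv
        exact hj₀ ⟨x, hx⟩ _ (Fin.succAbove_ne _ _) hv)
      refine ⟨z, hz, ?_⟩
      rw [h1]
      unfold cel
      rw [← hh])
  exact HasUniformMinor_mono hmain (con_minor P _)

end DA
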