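import Pool.Agent.Helper34.DS.Scat

/-!
# Disjoint paths of cells through prescribed cells
-/

open Set BIC BICS

namespace DA

/-- The edges of the grid on a square, as unordered pairs. -/
def gE (x y m : ℕ) : Set (Sym2 (ℕ × ℕ)) :=
  {e | ∃ p q, e = s(p, q) ∧ adj p q ∧ p ∈ rect x y m m ∧ q ∈ rect x y m m}

lemma grd_gE (x y m : ℕ) : Grd (gE x y m) id x y m m where
  inj := fun _ _ _ _ h => h
  mem := by
    rintro e ⟨p, q, h1, h2, h3, h4⟩
    exact ⟨p, q, h1, h2, h3, h4⟩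
  surj := by
    intro p q h1 h2 h3
    exact ⟨s(p, q), ⟨p, q, rfl, h1, h2, h3⟩, rfl⟩

/-- **Disjoint paths of cells.**  The path number `i` visits the positions of all cells `c` with
`g c = some i`, but one. -/
theorem laneP (k : ℕ) (hk : 1 ≤ k) : ∃ w o o' : ℕ, 2 < w ∧ o + 2 ≤ 2 * w ∧ o' + 2 ≤ 2 * w ∧
    ∀ x y m T : ℕ, (T + 1) * w ≤ m → ∀ g : ℕ × ℕ → Option (Fin k),
    (∀ i, ∃ c ∈ cells T, ∃ c' ∈ cells T, c ≠ c' ∧ g c = some i ∧ g c' = some i) →
    ∃ (len : Fin k → ℕ) (p : Fin k → ℕ → ℕ × ℕ),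
      (∀ i, ∀ z ≤ len i, p i z ∈ rect x y m m) ∧
      (∀ i, ∀ z < len i, adj (p i z) (p i (z + 1))) ∧
      (∀ i j, i ≠ j → ∀ z ≤ len i, ∀ z' ≤ len j, p i z ≠ p j z') ∧
      ∀ i, ∃ c₀ : ℕ × ℕ, ∀ c ∈ cells T, g c = some i → c ≠ c₀ →
        ∃ z ≤ len i, p i z = (x + c.1 * w + o, y + c.2 * w + o') := by
  obtain ⟨w, o, o', hw, ho, ho', hL⟩ := lanesStmt.{0} k (k + 2) 2 hk (by omega) (by omega)
    (by omega)
  refine ⟨w, o, o', hw, ho, ho', ?_⟩
  intro x y m T hm g hg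
  obtain ⟨W, hW1, _, hW3⟩ := hL (grd_gE x y m) hm g
  have hone : ∀ i, ∃ (len : ℕ) (p : ℕ → ℕ × ℕ), (∀ z ≤ len, p z ∈ rect x y m m ∧ p z ∈ W i) ∧
      (∀ z < len, adj (p z) (p (z + 1))) ∧ ∃ c₀ : ℕ × ℕ, ∀ c ∈ cells T, g c = some i → c ≠ c₀ →
        ∃ z ≤ len, p z = (x + c.1 * w + o, y + c.2 * w + o') := by
    intro i
    obtain ⟨N, c, hbij, hlane⟩ := hW3 i
    obtain ⟨c₁, hc₁, c₂, hc₂, hne, hg₁, hg₂⟩ := hg i
    obtain ⟨t₁, ht₁, he₁⟩ := hbij.surjOn ⟨hc₁, hg₁⟩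
    obtain ⟨t₂, ht₂, he₂⟩ := hbij.surjOn ⟨hc₂, hg₂⟩
    have ht₁' : t₁ < N := ht₁
    have ht₂' : t₂ < N := ht₂
    have htne : t₁ ≠ t₂ := by
      rintro rfl
      exact hne (he₁.symm.trans he₂)
    obtain ⟨N', hN'⟩ : ∃ N', N = N' + 1 := ⟨N - 1, by omega⟩
    obtain ⟨pos, el, L, a, R, hpos, hsn, ha1, ha2, ha3⟩ := hlane N' hN'
    have hLbig : 2 ≤ L := by
      have := (ha1 0 (by omega)).1
      omega
    -- the two ends of an edge of the path
    have hedge : ∀ z, z + 1 < L → ∃ p q, pos p = z ∧ pos q = z + 1 ∧ adj p q ∧ p ∈ W i ∧ q ∈ W i ∧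
        p ∈ rect x y m m ∧ q ∈ rect x y m m := by
      intro z hz
      obtain ⟨⟨p, q, h1, h2, h3, h4⟩, h5⟩ := hsn.mem z hz
      have h6 := hsn.en z hz
      simp only [id] at h5 h6
      rw [h1, Sym2.map_mk] at h6
      have hpW : p ∈ W i := h5 p (by rw [h1]; exact Sym2.mem_mk_left _ _)
      have hqW : q ∈ W i := h5 q (by rw [h1]; exact Sym2.mem_mk_right _ _)
      rcases Sym2.eq_iff.1 h6 with ⟨h7, h8⟩ | ⟨h7, h8⟩
      · exact ⟨p, q, h7, h8, h2, hpW, hqW, h3, h4⟩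
      · refine ⟨q, p, h8, h7, ?_, hqW, hpW, h4, h3⟩
        unfold adj at h2 ⊢
        omega
    have hvert : ∀ z, ∃ p, z < L → pos p = z ∧ p ∈ W i ∧ p ∈ rect x y m m := by
      intro z
      by_cases hz : z < L
      · by_cases hz1 : z + 1 < L
        · obtain ⟨p, q, h1, h2, h3, h4, h5, h6, h7⟩ := hedge z hz1
          exact ⟨p, fun _ => ⟨h1, h4, h6⟩⟩
        · obtain ⟨p, q, h1, h2, h3, h4, h5, h6, h7⟩ := hedge (z - 1) (by omega)
          exact ⟨q, fun _ => ⟨by omega, h5, h7⟩⟩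
      · exact ⟨(0, 0), fun h => absurd h hz⟩
    choose p hp using hvert
    refine ⟨L - 1, p, ?_, ?_, c N', ?_⟩
    · intro z hz
      obtain ⟨h1, h2, h3⟩ := hp z (by omega)
      exact ⟨h3, h2⟩
    · intro z hz
      obtain ⟨p', q', h1, h2, h3, h4, h5, _, _⟩ := hedge z (by omega)
      obtain ⟨g1, g2, _⟩ := hp z (by omega)
      obtain ⟨g3, g4, _⟩ := hp (z + 1) (by omega)
      have e1 : p' = p z := hpos h4 g2 (by rw [h1, g1])
      have e2 : q' = p (z + 1) := hpos h5 g4 (by rw [h2, g3])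
      rw [← e1, ← e2]
      exact h3
    · intro c' hc' hgc hcne
      obtain ⟨t, ht, hte⟩ := hbij.surjOn ⟨hc', hgc⟩
      have ht' : t < N := ht
      have htN : t < N' := by
        by_contra hcon
        have : t = N' := by omega
        exact hcne (by rw [← hte, this])
      have hcT : c'.1 < T ∧ c'.2 < T := by
        unfold cells at hc'
        rw [Finset.mem_product, Finset.mem_range, Finset.mem_range] at hc'
        exact hc'
      have hb1 : c'.1 * w + 2 * w ≤ m := by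
        refine le_trans ?_ hm
        have : (c'.1 + 2) * w ≤ (T + 1) * w := Nat.mul_le_mul_right _ (by omega)
        rw [add_mul] at this
        exact this
      have hb2 : c'.2 * w + 2 * w ≤ m := by
        refine le_trans ?_ hm
        have : (c'.2 + 2) * w ≤ (T + 1) * w := Nat.mul_le_mul_right _ (by omega)
        rw [add_mul] at this
        exact this
      have h1 : s((x + c'.1 * w + o, y + c'.2 * w + o'), (x + c'.1 * w + o + 1,
          y + c'.2 * w + o')) ∈ ins (gE x y m) id (tl x y w o o' 2 (c t)) := by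
        rw [hte]
        refine ⟨⟨_, _, rfl, ?_, ?_, ?_⟩, ?_⟩
        · exact Or.inr ⟨rfl, Or.inl rfl⟩
        · refine ⟨?_, ?_, ?_, ?_⟩ <;> simp only <;> omega
        · refine ⟨?_, ?_, ?_, ?_⟩ <;> simp only <;> omega
        · intro v hv
          simp only [id, Sym2.mem_iff] at hv
          rcases hv with rfl | rfl
          · refine ⟨?_, ?_, ?_, ?_⟩ <;> simp only <;> omega
          · refine ⟨?_, ?_, ?_, ?_⟩ <;> simp only <;> omega
      obtain ⟨⟨_, h2⟩, h3⟩ := ha3 t htN h1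
      have h4 := h2 (x + c'.1 * w + o, y + c'.2 * w + o') (Sym2.mem_mk_left _ _)
      have h5 := h3 (pos (x + c'.1 * w + o, y + c'.2 * w + o')) (by
        simp only [id, Sym2.map_mk]
        exact Sym2.mem_mk_left _ _)
      rw [mem_Ico] at h5
      have h6 := (ha1 (t + 1) (by omega)).1
      obtain ⟨g1, g2, _⟩ := hp (pos (x + c'.1 * w + o, y + c'.2 * w + o')) (by omega)
      exact ⟨_, by omega, hpos g2 h4 g1⟩
  choose len p hp1 hp2 c₀ hp3 using hone
  refine ⟨len, p, fun i z hz => (hp1 i z hz).1, hp2, ?_, fun i => ⟨c₀ i, hp3 i⟩⟩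
  intro i j hij z hz z' hz' heq
  exact Set.disjoint_left.1 (hW1 i j hij) (hp1 i z hz).2 (heq ▸ (hp1 j z' hz').2)

end DA
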