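import Pool.Agent.DA.Rob
import Pool.Agent.DA.ExtG
import Pool.Agent.DA.LaneP

/-!
# Many far apart groups of vertices which see the same elements
-/

open Set BIC BICS
open scoped Matroid

namespace DA

open Gad

universe u

lemma rk_eq_of_cl {α : Type*} {P : Matroid α} [P.Finite] {A B J : Set α} (hA : A ⊆ B)
    (hB : B ⊆ P.closure A) (hJ : J ⊆ P.E) (hBE : B ⊆ P.E) : rk P (A ∪ J) = rk P (B ∪ J) := by
  refine le_antisymm (rk_mono P (union_subset_union_left _ hA)) ?_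
  rw [← rk_closure (A ∪ J)]
  refine rk_mono P (union_subset ?_ ?_)
  · exact hB.trans (P.closure_subset_closure subset_union_left)
  · exact subset_union_right.trans (P.subset_closure (A ∪ J) (union_subset (hA.trans hBE) hJ))

lemma FullB.mono_S {α V : Type*} {S S' : Set α} {ends : α → Sym2 V} {U : Set V} {F : Set α}
    (h : FullB S' ends U F) (hS : S' ⊆ S) : FullB S ends U F :=
  ⟨fun _ he => ⟨hS (h.1 he).1, (h.1 he).2⟩, h.2⟩

/-- `ext_gen` with a margin. -/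
theorem ext_flat (k : ℕ) {α : Type u} (P : Matroid α) [P.Finite] (S : Set α)
    (ends : α → Sym2 (ℕ × ℕ)) (X : ℕ × ℕ) (n m N : ℕ) (hm : m = 2 * 4 ^ k * N)
    (hN1 : 1 ≤ N) (hm2 : 2 ≤ m) (hmn : m + 2 ≤ n) (hB : Bic P S ends)
    (hG : CWL.GrdU S ends (rect X.1 X.2 n n))
    (J : Finset α) (hJ : (J : Set α) ⊆ P.closure S) (hJS : Disjoint (J : Set α) S)
    (hJc : J.card = k) (G : ℕ → ℕ → Finset (ℕ × ℕ))
    (hGr : ∀ a < k, ∀ i < k, ∀ v ∈ G a i, Deep X m 3 v)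
    (hsp : ∀ a < k, ∀ i < k, Spr 3 ((G a i : Finset (ℕ × ℕ)) : Set (ℕ × ℕ)))
    (hrob : ∀ a < k, ∀ i < k,
      rk P (ins S ends ((G a i : Finset (ℕ × ℕ)) : Set (ℕ × ℕ))ᶜ ∪ (J : Set α)) =
      rk P (ins S ends ((G a i : Finset (ℕ × ℕ)) : Set (ℕ × ℕ))ᶜ) + k)
    (hGd : ∀ a < k, ∀ i < k, ∀ a' < k, ∀ i' < k, ∀ v ∈ G a i, ∀ v' ∈ G a' i',
      cel k X.1 X.2 v = cel k X.1 X.2 v' → a = a' ∧ i = i')
    (p : ℕ → ℕ → ℕ × ℕ) (len : ℕ → ℕ)
    (hp1 : ∀ a < k, ∀ z ≤ len a, (p a z).1 < N ∧ (p a z).2 < N)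
    (hp2 : ∀ a < k, ∀ z < len a, adj (p a z) (p a (z + 1)))
    (hp3 : ∀ a < k, ∀ a' < k, a ≠ a' → ∀ z ≤ len a, ∀ z' ≤ len a', p a z ≠ p a' z')
    (hGQ : ∀ a < k, ∀ i < k, ∀ v ∈ G a i, ∃ z ≤ len a, p a z = cel k X.1 X.2 v) :
    HasUniformMinor P k := by
  classical
  have hJE : (J : Set α) ⊆ P.E := hJ.trans (P.closure_subset_ground _)
  obtain ⟨U, hU⟩ : ∃ U : Set (ℕ × ℕ), U = rect X.1 X.2 n n \ rect X.1 X.2 m m := ⟨_, rfl⟩
  have hUf : U.Finite := by rw [hU]; exact (rect_finite _ _ _ _).subset sdiff_subset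
  have hmn' : ∀ v : ℕ × ℕ, v ∈ rect X.1 X.2 m m → v ∈ rect X.1 X.2 n n := by
    intro v hv
    rw [Gad.mem_rct] at hv ⊢
    omega
  have hmemU : ∀ v : ℕ × ℕ, v ∈ U ↔ (X.1 ≤ v.1 ∧ v.1 < X.1 + n ∧ X.2 ≤ v.2 ∧ v.2 < X.2 + n) ∧
      (X.1 + m ≤ v.1 ∨ X.2 + m ≤ v.2) := by
    intro v
    rw [hU, mem_sdiff, Gad.mem_rct, Gad.mem_rct]
    omega
  -- the margin is full
  obtain ⟨F, hF⟩ : ∃ F, FullB S ends U F := by
    refine full_of_fat (U := rect X.1 X.2 n n) (fun p q hpq hp hq => hG.surj p q hpq hp hq) _ _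
      hUf rfl (by rw [hU]; exact sdiff_subset) ?_
    rintro ⟨u1, u2⟩ hu
    rw [hmemU] at hu
    simp only at hu
    refine fat_corner (x := if u1 + 1 < X.1 + n then u1 else u1 - 1)
      (y := if u2 + 1 < X.2 + n then u2 else u2 - 1) ?_ ?_ ?_
    · split_ifs <;> omega
    · split_ifs <;> omega
    · intro s t h1 h2 h3 h4
      rw [hmemU]
      simp only
      split_ifs at h1 h2 h3 h4 <;> omega
  have hFE : F ⊆ P.E := fun e he => hB.sub (hF.1 he).1
  obtain ⟨S', hS'⟩ : ∃ S', S' = ins S ends Uᶜ := ⟨_, rfl⟩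
  have hS'S : S' ⊆ S := by rw [hS']; exact fun e he => he.1
  have hS'm : ∀ e ∈ S', ∀ v ∈ ends e, v ∈ rect X.1 X.2 m m := by
    intro e he v hv
    rw [hS'] at he
    by_contra hcon
    refine he.2 v hv ?_
    rw [hU]
    exact ⟨grd_end hG he.1 hv, hcon⟩
  have hG' : CWL.GrdU S' ends (rect X.1 X.2 m m) := by
    refine ⟨fun a ha b hb hab => hG.inj (hS'S ha) (hS'S hb) hab, ?_, ?_⟩
    · intro e he
      obtain ⟨p, q, h1, h2, _, _⟩ := hG.mem e (hS'S he)
      refine ⟨p, q, h1, h2, hS'm e he p (by rw [h1]; simp), hS'm e he q (by rw [h1]; simp)⟩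
    · intro p q hpq hp hq
      obtain ⟨e, he, h1⟩ := hG.surj p q hpq (hmn' p hp) (hmn' q hq)
      refine ⟨e, ?_, h1⟩
      rw [hS']
      refine ⟨he, ?_⟩
      intro v hv
      rw [h1, Sym2.mem_iff] at hv
      rw [hU]
      rcases hv with rfl | rfl
      · exact fun h => h.2 hp
      · exact fun h => h.2 hq
  have hPF : (P ／ F).Finite := BQ.fin_contract F
  have hB' : Bic (P ／ F) S' ends := by
    rw [hS']
    exact (Elim.of_full hF).bic hB
  have hJF : Disjoint (J : Set α) F := hJS.mono_right (fun e he => (hF.1 he).1)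
  have hS'F : Disjoint S' F := by
    rw [Set.disjoint_left]
    intro e he heF
    have h1 := (hF.1 heF).2
    obtain ⟨v, hv⟩ := exists_mem_ends ends e
    have h2 := h1 v hv
    rw [hU] at h2
    exact h2.2 (hS'm e he v hv)
  have hTE : S' ∪ (J : Set α) ⊆ (P ／ F).E := by
    rintro e (he | he)
    · exact ⟨hB.sub (hS'S he), Set.disjoint_left.1 hS'F he⟩
    · exact ⟨hJE he, Set.disjoint_left.1 hJF he⟩
  -- the closures
  have hcl : ∀ Y : Set (ℕ × ℕ), Spr 3 Y → (∀ v ∈ Y, Deep X m 3 v) →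
      ins S ends Yᶜ ⊆ P.closure (ins S' ends Yᶜ ∪ F) ∧ ins S' ends Yᶜ ∪ F ⊆ ins S ends Yᶜ := by
    intro Y hY hYd
    have hYm : ∀ v ∈ Y, v ∈ rect X.1 X.2 m m := by
      intro v hv
      have := hYd v hv
      unfold Deep at this
      rw [Gad.mem_rct]
      omega
    obtain ⟨F1, hF1⟩ := full_sparse hG' hm2 hY hYd
    have h1 := (FullB.mono_S hF1 hS'S).union hF (by
      rw [Set.disjoint_left, hU]
      rintro v ⟨hv, _⟩ hv'
      exact hv'.2 hv)
    have h2 : rect X.1 X.2 m m \ Y ∪ U = rect X.1 X.2 n n \ Y := by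
      rw [hU]
      ext v
      constructor
      · rintro (⟨h3, h4⟩ | ⟨h3, h4⟩)
        · exact ⟨hmn' v h3, h4⟩
        · exact ⟨h3, fun h => h4 (hYm v h)⟩
      · rintro ⟨h3, h4⟩
        by_cases h5 : v ∈ rect X.1 X.2 m m
        · exact Or.inl ⟨h5, h4⟩
        · exact Or.inr ⟨h3, h5⟩
    rw [h2] at h1
    have h3 := h1.closure hB ((rect_finite _ _ _ _).subset sdiff_subset)
    rw [← ins_compl hG] at h3
    constructor
    · have h4 : ins S ends Yᶜ ⊆ P.closure (ins S ends Yᶜ) :=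
        P.subset_closure _ (fun e he => hB.sub he.1)
      rw [← h3] at h4
      refine h4.trans (P.closure_subset_closure (union_subset_union_left _ ?_))
      intro e he
      have h5 := hF1.1 he
      exact ⟨h5.1, fun v hv => (h5.2 v hv).2⟩
    · rintro e (he | he)
      · exact ⟨hS'S he.1, he.2⟩
      · refine ⟨(hF.1 he).1, fun v hv hvY => ?_⟩
        have h5 := (hF.1 he).2 v hv
        rw [hU] at h5
        exact h5.2 (hYm v hvY)
  -- the ranks
  have hrkJ : ∀ Y : Set (ℕ × ℕ), Spr 3 Y → (∀ v ∈ Y, Deep X m 3 v) → ∀ J' : Set α,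
      J' ⊆ (J : Set α) → rk ((P ／ F) ↾ (S' ∪ (J : Set α))) (ins S' ends Yᶜ ∪ J') + rk P F =
        rk P (ins S ends Yᶜ ∪ J') := by
    intro Y hY hYd J' hJ'
    obtain ⟨h1, h2⟩ := hcl Y hY hYd
    have h3 : ins S' ends Yᶜ ∪ J' ⊆ S' ∪ (J : Set α) :=
      union_subset_union (fun e he => he.1) hJ'
    rw [BQ.rk_rest _ (h3.trans hTE) _ h3, BQ.rk_con hFE (h3.trans hTE)]
    have h4 : ins S' ends Yᶜ ∪ J' ∪ F = ins S' ends Yᶜ ∪ F ∪ J' := by
      rw [union_assoc, union_comm J' F, ← union_assoc]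
    rw [h4]
    exact rk_eq_of_cl h2 h1 (hJ'.trans hJE) (fun e he => hB.sub he.1)
  have hfinM : ((P ／ F) ↾ (S' ∪ (J : Set α))).Finite :=
    ⟨P.ground_finite.subset (by
      rw [Matroid.restrict_ground_eq]
      exact union_subset (hS'S.trans hB.sub) hJE)⟩
  have hBM : Bic ((P ／ F) ↾ (S' ∪ (J : Set α))) S' ends := by
    refine ⟨subset_union_left, ?_, ?_⟩
    · intro F2 φ h1 h2 h3
      rw [Matroid.restrict_indep_iff]
      exact ⟨hB'.ind F2 φ h1 h2 h3, h1.trans subset_union_left⟩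
    · intro W
      rw [Matroid.restrict_eRk_eq (P ／ F)
        (subset_trans (b := S') (fun e he => he.1) subset_union_left)]
      exact hB'.rk W
  have hemp : ∀ T' : Set α, ins T' ends (∅ : Set (ℕ × ℕ))ᶜ = T' := by
    intro T'
    ext e
    simp [ins]
  have hminor : (P ／ F) ↾ (S' ∪ (J : Set α)) ≤m P := by
    rw [← Matroid.delete_compl hTE]
    exact Matroid.contract_delete_isMinor P F _
  refine HasUniformMinor_mono (ext_gen k ((P ／ F) ↾ (S' ∪ (J : Set α))) S' (J : Set α) ends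
    X.1 X.2 m N hm hN1 (hJS.symm.mono_left hS'S) rfl hBM ⟨hG'.inj, hG'.mem, hG'.surj⟩
    (by rw [Set.ncard_coe_finset]; exact hJc) ?_ G ?_ ?_ hGd p len hp1 hp2 hp3 hGQ) hminor
  · have h1 := hrkJ ∅ (by intro v hv; exact absurd hv (by simp)) (by simp) (J : Set α) subset_rfl
    have h2 := hrkJ ∅ (by intro v hv; exact absurd hv (by simp)) (by simp) ∅ (empty_subset _)
    rw [hemp, hemp] at h1 h2
    rw [union_empty, union_empty] at h2
    rw [rk_sub_cl hB.sub hJ] at h1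
    omega
  · intro a ha i hi v hv
    have := hGr a ha i hi v hv
    unfold Deep at this
    rw [Gad.mem_rct]
    omega
  · intro a ha i hi
    have h1 := hrkJ _ (hsp a ha i hi) (hGr a ha i hi) (J : Set α) subset_rfl
    have h2 := hrkJ _ (hsp a ha i hi) (hGr a ha i hi) ∅ (empty_subset _)
    rw [union_empty, union_empty] at h2
    have h3 := hrob a ha i hi
    omega

end DA
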