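import Pool.Agent.DA.GlB

/-!
# Ranks of a grid without a sparse set of vertices, visibility
-/

open Set BIC BICS
open scoped Matroid

namespace DA

open Gad

section

variable {α : Type*} {P : Matroid α}

/-- A subset of a skew set is skew. -/
lemma skew_mono [P.Finite] {Y Y' B : Set α} {c : ℕ} (h : rk P Y + c ≤ rk P (Y ∪ B))
    (hY : Y' ⊆ Y) : rk P Y' + c ≤ rk P (Y' ∪ B) := by
  have h1 := rk_submod P Y (Y' ∪ B)
  have h2 : rk P Y' ≤ rk P (Y ∩ (Y' ∪ B)) := rk_mono P (subset_inter hY subset_union_left)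
  have h3 : rk P (Y ∪ B) ≤ rk P (Y ∪ (Y' ∪ B)) :=
    rk_mono P (union_subset_union_right _ subset_union_right)
  omega

lemma rk_insert_notMem [P.Finite] {Y : Set α} {e : α} (he : e ∈ P.E) (h : e ∉ P.closure Y) :
    rk P (insert e Y) = rk P Y + 1 := by
  have h5 := P.eRk_insert_eq_add_one (X := Y) (e := e) ⟨he, h⟩
  rw [← cast_rk, ← cast_rk] at h5
  exact_mod_cast h5

lemma rk_sub_cl [P.Finite] {Y I : Set α} (hY : Y ⊆ P.E) (h : I ⊆ P.closure Y) :
    rk P (Y ∪ I) = rk P Y := by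
  refine le_antisymm ?_ (rk_mono P subset_union_left)
  rw [← rk_closure Y]
  exact rk_mono P (union_subset (P.subset_closure Y hY) h)

/-- From a lower bound of the rank to an independent set. -/
lemma pick [P.Finite] {I : Finset α} (hI : (I : Set α) ⊆ P.E) : ∀ (k : ℕ) (Y : Set α), Y ⊆ P.E →
    rk P Y + k ≤ rk P (Y ∪ (I : Set α)) → ∃ J ⊆ I, J.card = k ∧
      rk P (Y ∪ (J : Set α)) = rk P Y + k := by
  classical
  intro k
  induction k with
  | zero =>
    intro Y hY h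
    exact ⟨∅, Finset.empty_subset _, rfl, by simp⟩
  | succ k ih =>
    intro Y hY h
    obtain ⟨e, heI, heY⟩ : ∃ e ∈ I, e ∉ P.closure Y := by
      by_contra hcon
      push Not at hcon
      rw [rk_sub_cl hY (fun e he => hcon e he)] at h
      omega
    have h1 := rk_insert_notMem (hI heI) heY
    have h2 : insert e Y ∪ (I : Set α) = Y ∪ (I : Set α) := by
      rw [insert_union, insert_eq_of_mem]
      exact Or.inr heI
    obtain ⟨J, hJI, hJc, hJr⟩ := ih (insert e Y) (insert_subset (hI heI) hY) (by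
      rw [h1, h2]
      omega)
    have heJ : e ∉ J := by
      intro heJ
      have h3 : insert e Y ∪ (J : Set α) = Y ∪ (J : Set α) := by
        rw [insert_union, insert_eq_of_mem]
        exact Or.inr heJ
      have h4 := rk_union_le P (X := Y) (Y := (J : Set α)) J.finite_toSet
      rw [Set.ncard_coe_finset] at h4
      rw [h3] at hJr
      omega
    refine ⟨insert e J, Finset.insert_subset heI hJI, ?_, ?_⟩
    · rw [Finset.card_insert_of_notMem heJ, hJc]
    · rw [Finset.coe_insert, union_insert, ← insert_union, hJr, h1]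
      omega

/-- Contraction of a skew set keeps the ranks. -/
lemma rk_con_skew [P.Finite] {Y : Set α} {B : Finset α} (hYE : Y ⊆ P.E) (hBE : (B : Set α) ⊆ P.E)
    (hd : Disjoint Y (B : Set α)) (h : rk P (Y ∪ (B : Set α)) = rk P Y + B.card) :
    ∀ X ⊆ Y, rk (P ／ (B : Set α)) X = rk P X := by
  intro X hX
  have h1 : rk P (B : Set α) = B.card := by
    have h2 := rk_union_le P (X := Y) (Y := (B : Set α)) B.finite_toSet
    have h3 := skew_mono (Y' := ∅) h.ge (empty_subset _)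
    have h4 := rk_le_ncard P B.finite_toSet
    rw [Set.ncard_coe_finset] at h4
    rw [empty_union] at h3
    omega
  have h2 := BQ.rk_con (M := P) hBE (X := X) (by
    intro e he
    exact ⟨hYE (hX he), Set.disjoint_left.1 hd (hX he)⟩)
  have h3 := skew_mono h.ge hX
  have h4 := rk_union_le P (X := X) (Y := (B : Set α)) B.finite_toSet
  rw [Set.ncard_coe_finset] at h4
  omega

lemma bic_con_skew [P.Finite] {V : Type*} {S : Set α} {ends : α → Sym2 V} {Y : Set α}
    {B : Finset α} (hB : Bic P S ends) (hY : Y ⊆ S) (hBE : (B : Set α) ⊆ P.E)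
    (hd : Disjoint Y (B : Set α)) (h : rk P (Y ∪ (B : Set α)) = rk P Y + B.card) :
    Bic (P ／ (B : Set α)) Y ends := by
  have hrk := rk_con_skew (hY.trans hB.sub) hBE hd h
  haveI := BQ.fin_contract (M := P) (B : Set α)
  have hsub : Y ⊆ (P ／ (B : Set α)).E := by
    intro e he
    exact ⟨hB.sub (hY he), Set.disjoint_left.1 hd he⟩
  refine ⟨hsub, ?_, ?_⟩
  · intro F φ hF hφ hφe
    have h1 := hB.ind F φ (hF.trans hY) hφ hφe
    have h2 := hrk F hF
    have hFf : F.Finite := P.ground_finite.subset h1.subset_ground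
    rw [rk_indep h1] at h2
    rw [Matroid.indep_iff_eRk_eq_encard_of_finite hFf, ← cast_rk, h2]
    exact hFf.cast_ncard_eq
  · intro W
    have h1 := hrk (ins Y ends W) (fun e he => he.1)
    rw [← cast_rk, h1, cast_rk]
    refine (P.eRk_mono ?_).trans (hB.rk W)
    exact fun e he => ⟨hY he.1, he.2⟩

end

section

variable {α : Type*} {P : Matroid α} {S : Set α} {ends : α → Sym2 (ℕ × ℕ)} {X : ℕ × ℕ} {n : ℕ}

lemma ins_compl (hG : CWL.GrdU S ends (rect X.1 X.2 n n)) (Z : Set (ℕ × ℕ)) :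
    ins S ends Zᶜ = ins S ends (rect X.1 X.2 n n \ Z) := by
  ext e
  constructor
  · rintro ⟨h1, h2⟩
    exact ⟨h1, fun v hv => ⟨grd_end hG h1 hv, h2 v hv⟩⟩
  · rintro ⟨h1, h2⟩
    exact ⟨h1, fun v hv => (h2 v hv).2⟩

lemma full_sparse (hG : CWL.GrdU S ends (rect X.1 X.2 n n)) (hn : 2 ≤ n) {Z : Set (ℕ × ℕ)}
    (hsp : Spr 3 Z) (hd : ∀ v ∈ Z, Deep X n 3 v) :
    ∃ F, FullB S ends (rect X.1 X.2 n n \ Z) F := by
  refine full_of_fat (U := rect X.1 X.2 n n) (fun p q hpq hp hq => hG.surj p q hpq hp hq) _ _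
    ((rect_finite _ _ _ _).subset sdiff_subset) rfl sdiff_subset ?_
  rintro v ⟨hv, hvZ⟩
  refine fat_rect hn hn hsp ?_ subset_rfl v hv hvZ
  intro w hw _
  have := hd w hw
  unfold Deep at this
  omega

/-- The rank of a grid without a sparse set of vertices. -/
lemma rk_sparse [P.Finite] (hB : Bic P S ends) (hG : CWL.GrdU S ends (rect X.1 X.2 n n))
    (hn : 2 ≤ n) (Z : Finset (ℕ × ℕ)) (hsp : Spr 3 (Z : Set (ℕ × ℕ)))
    (hd : ∀ v ∈ Z, Deep X n 3 v) :
    rk P (ins S ends (Z : Set (ℕ × ℕ))ᶜ) + Z.card = (rect X.1 X.2 n n).ncard := by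
  obtain ⟨F, hF⟩ := full_sparse hG hn hsp hd
  have hf := rect_finite X.1 X.2 n n
  have h1 := hF.indep hB
  have h2 := hF.encard
  have h3 := hF.closure hB (hf.subset sdiff_subset)
  have h4 : rk P (ins S ends (Z : Set (ℕ × ℕ))ᶜ) = F.ncard := by
    rw [ins_compl hG, ← rk_closure, ← h3, rk_closure, rk_indep h1]
  have h5 : F.ncard = (rect X.1 X.2 n n \ (Z : Set (ℕ × ℕ))).ncard := by
    rw [Set.ncard_def, h2, ← Set.ncard_def]
  have h6 : (Z : Set (ℕ × ℕ)) ⊆ rect X.1 X.2 n n := by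
    intro v hv
    have := hd v hv
    unfold Deep at this
    rw [Gad.mem_rct]
    omega
  have h7 := Set.ncard_sdiff_add_ncard_of_subset h6 hf
  rw [Set.ncard_coe_finset] at h7
  omega

lemma rk_all [P.Finite] (hB : Bic P S ends) (hG : CWL.GrdU S ends (rect X.1 X.2 n n))
    (hn : 2 ≤ n) : rk P S = (rect X.1 X.2 n n).ncard := by
  have h1 := rk_sparse hB hG hn ∅ (by intro v hv; simp at hv) (by simp)
  have h2 : ins S ends ((∅ : Finset (ℕ × ℕ)) : Set (ℕ × ℕ))ᶜ = S := by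
    ext e
    simp [ins]
  rw [h2, Finset.card_empty] at h1
  omega

/-- Visibility is subadditive. -/
lemma vis_sub [P.Finite] {I : Set α} {Z Z' : Set (ℕ × ℕ)} (hG : CWL.GrdU S ends (rect X.1 X.2 n n))
    (hZ : ∀ v ∈ Z, ∀ w ∈ Z', v ≠ w ∧ ¬ adj v w) :
    rk P (ins S ends (Z ∪ Z')ᶜ ∪ I) + rk P S ≤
      rk P (ins S ends Zᶜ ∪ I) + rk P (ins S ends Z'ᶜ ∪ I) := by
  have h1 := rk_submod P (ins S ends Zᶜ ∪ I) (ins S ends Z'ᶜ ∪ I)
  have h2 : rk P (ins S ends (Z ∪ Z')ᶜ ∪ I) ≤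
      rk P ((ins S ends Zᶜ ∪ I) ∩ (ins S ends Z'ᶜ ∪ I)) := by
    refine rk_mono P ?_
    rintro e (he | he)
    · exact ⟨Or.inl ⟨he.1, fun v hv h => he.2 v hv (Or.inl h)⟩,
        Or.inl ⟨he.1, fun v hv h => he.2 v hv (Or.inr h)⟩⟩
    · exact ⟨Or.inr he, Or.inr he⟩
  have h3 : rk P S ≤ rk P ((ins S ends Zᶜ ∪ I) ∪ (ins S ends Z'ᶜ ∪ I)) := by
    refine rk_mono P ?_
    intro e he
    by_cases h4 : e ∈ ins S ends Zᶜ
    · exact Or.inl (Or.inl h4)
    by_cases h5 : e ∈ ins S ends Z'ᶜ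
    · exact Or.inr (Or.inl h5)
    exfalso
    obtain ⟨v, hv, hvZ⟩ : ∃ v ∈ ends e, v ∈ Z := by
      by_contra hcon
      push Not at hcon
      exact h4 ⟨he, fun v hv => hcon v hv⟩
    obtain ⟨w, hw, hwZ⟩ : ∃ w ∈ ends e, w ∈ Z' := by
      by_contra hcon
      push Not at hcon
      exact h5 ⟨he, fun v hv => hcon v hv⟩
    obtain ⟨hne, hna⟩ := hZ v hvZ w hwZ
    obtain ⟨p, q, h6, h7, _, _⟩ := hG.mem e he
    rw [h6, Sym2.mem_iff] at hv hw
    have hsym : adj q p := by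
      unfold adj at h7 ⊢
      omega
    rcases hv with rfl | rfl <;> rcases hw with rfl | rfl
    · exact hne rfl
    · exact hna h7
    · exact hna hsym
    · exact hne rfl
  omega

/-- Some residue class sees enough. -/
lemma vis_res [P.Finite] (hB : Bic P S ends) (hG : CWL.GrdU S ends (rect X.1 X.2 n n))
    (hn : 2 ≤ n) {I : Set α} (hI : I ⊆ P.closure S) {R : Type*} [DecidableEq R]
    (c : ℕ × ℕ → R) (Z : Finset (ℕ × ℕ)) (hsp : Spr 3 (Z : Set (ℕ × ℕ)))
    (hd : ∀ v ∈ Z, Deep X n 3 v) (k : ℕ) (Rs : Finset R)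
    (hlow : ∀ ρ ∈ Rs, rk P (ins S ends ((Z.filter (fun v => c v = ρ) : Finset (ℕ × ℕ)) :
      Set (ℕ × ℕ))ᶜ ∪ I) ≤ rk P (ins S ends ((Z.filter (fun v => c v = ρ) : Finset (ℕ × ℕ)) :
      Set (ℕ × ℕ))ᶜ) + k) :
    rk P (ins S ends ((Z.filter (fun v => c v ∈ Rs) : Finset (ℕ × ℕ)) : Set (ℕ × ℕ))ᶜ ∪ I) ≤
      rk P (ins S ends ((Z.filter (fun v => c v ∈ Rs) : Finset (ℕ × ℕ)) : Set (ℕ × ℕ))ᶜ) +
        Rs.card * k := by
  classical
  have hsub : ∀ Y ⊆ Z, rk P (ins S ends (Y : Set (ℕ × ℕ))ᶜ) + Y.card =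
      (rect X.1 X.2 n n).ncard := fun Y hY =>
    rk_sparse hB hG hn Y (fun v hv w hw => hsp v (hY hv) w (hY hw)) (fun v hv => hd v (hY hv))
  have hall := rk_all hB hG hn
  induction Rs using Finset.induction_on with
  | empty =>
    have e : (Z.filter (fun v => c v ∈ (∅ : Finset R))) = ∅ := by
      simp
    rw [e]
    have h2 : ins S ends ((∅ : Finset (ℕ × ℕ)) : Set (ℕ × ℕ))ᶜ = S := by
      ext e
      simp [ins]
    rw [h2, rk_sub_cl hB.sub hI]
    omega
  | @insert ρ Rs hρ ih =>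
    have h1 := ih (fun ρ' hρ' => hlow ρ' (Finset.mem_insert_of_mem hρ'))
    have h2 := hlow ρ (Finset.mem_insert_self _ _)
    have e : (Z.filter (fun v => c v ∈ insert ρ Rs)) =
        Z.filter (fun v => c v = ρ) ∪ Z.filter (fun v => c v ∈ Rs) := by
      ext v
      simp only [Finset.mem_filter, Finset.mem_insert, Finset.mem_union]
      tauto
    have hdj : Disjoint (Z.filter (fun v => c v = ρ)) (Z.filter (fun v => c v ∈ Rs)) := by
      rw [Finset.disjoint_left]
      intro v hv hv'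
      rw [Finset.mem_filter] at hv hv'
      exact hρ (hv.2 ▸ hv'.2)
    have h3 := vis_sub (P := P) (I := I)
      (Z := ((Z.filter (fun v => c v = ρ) : Finset (ℕ × ℕ)) : Set (ℕ × ℕ)))
      (Z' := ((Z.filter (fun v => c v ∈ Rs) : Finset (ℕ × ℕ)) : Set (ℕ × ℕ))) hG (by
      intro v hv w hw
      have hv' := Finset.mem_coe.1 hv
      have hw' := Finset.mem_coe.1 hw
      have hne : v ≠ w := by
        rintro rfl
        exact Finset.disjoint_left.1 hdj hv' hw'
      refine ⟨hne, ?_⟩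
      have h4 := hsp v (Finset.mem_filter.1 hv').1 w (Finset.mem_filter.1 hw').1 hne
      unfold Apart at h4
      unfold adj
      omega)
    have g1 := hsub (Z.filter (fun v => c v = ρ)) (Finset.filter_subset _ _)
    have g2 := hsub (Z.filter (fun v => c v ∈ Rs)) (Finset.filter_subset _ _)
    have g3 := hsub (Z.filter (fun v => c v = ρ) ∪ Z.filter (fun v => c v ∈ Rs))
      (Finset.union_subset (Finset.filter_subset _ _) (Finset.filter_subset _ _))
    have g4 := Finset.card_union_of_disjoint hdj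
    rw [e, Finset.card_insert_of_notMem hρ]
    rw [Finset.coe_union] at g3 ⊢
    have e2 : (Rs.card + 1) * k = Rs.card * k + k := by ring
    omega

end

end DA
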