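import Pool.Agent.DA.StarC
import Pool.Agent.DA.Rob

/-!
# Three options for a triple of vertices

Four consecutive elements `a, b, c, d` through the vertices `x₀, x₁, x₂`; outside of the triples
there is a full set `O`.
-/

open Set BIC BICS
open scoped Matroid

namespace DA

open Gad

variable {α V ι : Type*}

/-- `a, b, c, d` is a path through `x 0`, `x 1`, `x 2`, which starts and ends in `O`. -/
structure Quad (S : Set α) (ends : α → Sym2 V) (O : Set V) (a b c d : α) (x : Fin 3 → V) :
    Prop where
  a : a ∈ S ∧ ∃ p ∈ O, ends a = s(p, x 0)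
  b : b ∈ S ∧ ends b = s(x 0, x 1)
  c : c ∈ S ∧ ends c = s(x 1, x 2)
  d : d ∈ S ∧ ∃ p ∈ O, ends d = s(x 2, p)
  x01 : x 0 ≠ x 1
  x02 : x 0 ≠ x 2
  x12 : x 1 ≠ x 2
  out : ∀ j, x j ∉ O

section

variable {S : Set α} {ends : α → Sym2 V} {O : Set V} {a b c d : α} {x : Fin 3 → V}

open Classical in
lemma Quad.facts (h : Quad S ends O a b c d x) :
    (∀ e, (e = a ∨ e = b ∨ e = c ∨ e = d) → e ∈ ins S ends (O ∪ {x 0, x 1, x 2})) ∧
      a ≠ b ∧ a ≠ c ∧ a ≠ d ∧ b ≠ c ∧ b ≠ d ∧ c ≠ d ∧
      x 0 ∈ ends a ∧ x 0 ∈ ends b ∧ x 1 ∈ ends b ∧ x 1 ∈ ends c ∧ x 2 ∈ ends c ∧ x 2 ∈ ends d := by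
  obtain ⟨ha, p, hp, hae⟩ := h.a
  obtain ⟨hb, hbe⟩ := h.b
  obtain ⟨hc, hce⟩ := h.c
  obtain ⟨hd, q, hq, hde⟩ := h.d
  have h01 := h.x01
  have h02 := h.x02
  have h12 := h.x12
  have hpx : ∀ j, p ≠ x j := fun j hj => h.out j (hj ▸ hp)
  have hqx : ∀ j, q ≠ x j := fun j hj => h.out j (hj ▸ hq)
  refine ⟨?_, ?_, ?_, ?_, ?_, ?_, ?_, by rw [hae]; simp, by rw [hbe]; simp, by rw [hbe]; simp,
    by rw [hce]; simp, by rw [hce]; simp, by rw [hde]; simp⟩
  · rintro e (rfl | rfl | rfl | rfl)
    · refine ⟨ha, fun v hv => ?_⟩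
      rw [hae, Sym2.mem_iff] at hv
      rcases hv with rfl | rfl
      · exact Or.inl hp
      · exact Or.inr (by simp)
    · refine ⟨hb, fun v hv => ?_⟩
      rw [hbe, Sym2.mem_iff] at hv
      rcases hv with rfl | rfl <;> exact Or.inr (by simp)
    · refine ⟨hc, fun v hv => ?_⟩
      rw [hce, Sym2.mem_iff] at hv
      rcases hv with rfl | rfl <;> exact Or.inr (by simp)
    · refine ⟨hd, fun v hv => ?_⟩
      rw [hde, Sym2.mem_iff] at hv
      rcases hv with rfl | rfl
      · exact Or.inr (by simp)
      · exact Or.inl hq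
  all_goals
    rintro rfl
    first
      | (rw [hae, Sym2.eq_iff] at hbe
         rcases hbe with ⟨h1, h2⟩ | ⟨h1, h2⟩
         · exact hpx _ h1
         · exact hpx _ h1)
      | (rw [hae, Sym2.eq_iff] at hce
         rcases hce with ⟨h1, h2⟩ | ⟨h1, h2⟩
         · exact hpx _ h1
         · exact hpx _ h1)
      | (rw [hae, Sym2.eq_iff] at hde
         rcases hde with ⟨h1, h2⟩ | ⟨h1, h2⟩
         · exact hpx _ h1
         · exact h02 h2)
      | (rw [hbe, Sym2.eq_iff] at hce
         rcases hce with ⟨h1, h2⟩ | ⟨h1, h2⟩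
         · exact h01 h1
         · exact h02 h1)
      | (rw [hbe, Sym2.eq_iff] at hde
         rcases hde with ⟨h1, h2⟩ | ⟨h1, h2⟩
         · exact h02 h1
         · exact hqx _ h1.symm)
      | (rw [hce, Sym2.eq_iff] at hde
         rcases hde with ⟨h1, h2⟩ | ⟨h1, h2⟩
         · exact h12 h1
         · exact hqx _ h1.symm)

/-- A local set with an injective orientation into the triple. -/
def Ori (ends : α → Sym2 V) (x : Fin 3 → V) (L : Finset α) : Prop :=
  ∃ φ : α → V, InjOn φ L ∧ ∀ e ∈ L, φ e ∈ ends e ∧ φ e ∈ ({x 0, x 1, x 2} : Set V)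

open Classical in
lemma ori_two {e f : α} {i j : Fin 3} (hij : x i ≠ x j) (he : x i ∈ ends e) (hf : x j ∈ ends f)
    (hef : e ≠ f) : Ori ends x {e, f} := by
  refine ⟨fun y => if y = e then x i else x j, ?_, ?_⟩
  · intro y hy y' hy' h
    simp only [Finset.coe_insert, Finset.coe_singleton, mem_insert_iff, mem_singleton_iff] at hy hy'
    rcases hy with rfl | rfl <;> rcases hy' with rfl | rfl
    · rfl
    · simp only [if_pos, if_neg hef.symm] at h
      exact absurd h hij
    · simp only [if_pos, if_neg hef.symm] at h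
      exact absurd h.symm hij
    · rfl
  · intro y hy
    rw [Finset.mem_insert, Finset.mem_singleton] at hy
    have hm : ∀ j : Fin 3, x j ∈ ({x 0, x 1, x 2} : Set V) := by
      intro j
      fin_cases j <;> simp
    rcases hy with rfl | rfl
    · simp only [if_pos]
      exact ⟨he, hm i⟩
    · simp only [if_neg hef.symm]
      exact ⟨hf, hm j⟩

open Classical in
lemma Quad.ori_abc (h : Quad S ends O a b c d x) : Ori ends x {a, b, c} := by
  obtain ⟨_, hab, hac, had, hbc, hbd, hcd, h1, h2, h3, h4, h5, h6⟩ := h.facts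
  refine ⟨fun y => if y = a then x 0 else if y = b then x 1 else x 2, ?_, ?_⟩
  · intro y hy y' hy' hh
    simp only [Finset.coe_insert, Finset.coe_singleton, mem_insert_iff, mem_singleton_iff] at hy hy'
    have h01 := h.x01
    have h02 := h.x02
    have h12 := h.x12
    rcases hy with rfl | rfl | rfl <;> rcases hy' with rfl | rfl | rfl <;>
      simp only [if_pos, if_neg hab.symm, if_neg hac.symm, if_neg hbc.symm] at hh <;>
      first
        | rfl
        | exact absurd hh h01
        | exact absurd hh h02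
        | exact absurd hh h12
        | exact absurd hh.symm h01
        | exact absurd hh.symm h02
        | exact absurd hh.symm h12
  · intro y hy
    rw [Finset.mem_insert, Finset.mem_insert, Finset.mem_singleton] at hy
    rcases hy with rfl | rfl | rfl
    · simp only [if_pos]
      exact ⟨h1, by simp⟩
    · simp only [if_pos, if_neg hab.symm]
      exact ⟨h3, by simp⟩
    · simp only [if_neg hac.symm, if_neg hbc.symm]
      exact ⟨h5, by simp⟩

end

section

variable {P : Matroid α} {S : Set α} {ends : α → Sym2 V} {O : Set V}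

open Classical in
/-- Lower bound of the rank. -/
lemma rk_loc_ge [P.Finite] (hB : Bic P S ends) {F : Set α} (hF : FullB S ends O F)
    (hOf : O.Finite) (I : Finset ι) (x : ι → Fin 3 → V) (L : ι → Finset α)
    (hxO : ∀ i ∈ I, ∀ j, x i j ∉ O)
    (hxx : ∀ i ∈ I, ∀ i' ∈ I, i ≠ i' → ∀ j j', x i j ≠ x i' j')
    (hL : ∀ i ∈ I, ∀ e ∈ L i, e ∈ ins S ends (O ∪ {x i 0, x i 1, x i 2}))
    (hori : ∀ i ∈ I, Ori ends (x i) (L i)) :
    O.ncard + ∑ i ∈ I, (L i).card ≤ rk P (ins S ends O ∪ ((I.biUnion L : Finset α) : Set α)) := by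
  have h3 : ∀ i, ∃ φ : α → V, i ∈ I → InjOn φ (L i) ∧ ∀ e ∈ L i, φ e ∈ ends e ∧
      φ e ∈ ({x i 0, x i 1, x i 2} : Set V) := by
    intro i
    by_cases hi : i ∈ I
    · obtain ⟨φ, h1, h2⟩ := hori i hi
      exact ⟨φ, fun _ => ⟨h1, h2⟩⟩
    · rcases I.eq_empty_or_nonempty with rfl | ⟨i₀, hi₀⟩
      · obtain ⟨_, φ, _⟩ := hF
        exact ⟨φ, fun h => absurd h hi⟩
      · obtain ⟨φ, h1, h2⟩ := hori i₀ hi₀
        exact ⟨φ, fun h => absurd h hi⟩
  choose φ hφ using h3
  have hmem : ∀ i ∈ I, ∀ e ∈ L i, ∃ j, φ i e = x i j := by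
    intro i hi e he
    have h1 := ((hφ i hi).2 e he).2
    rcases h1 with h1 | h1 | h1
    · exact ⟨0, h1⟩
    · exact ⟨1, h1⟩
    · exact ⟨2, h1⟩
  have hdis : ∀ i ∈ I, ∀ i' ∈ I, ∀ e, e ∈ L i → e ∈ L i' → i = i' := by
    intro i hi i' hi' e he he'
    by_contra hne
    obtain ⟨j, hj⟩ := hmem i hi e he
    have h1 := (hL i' hi' e he').2 _ ((hφ i hi).2 e he).1
    rw [hj] at h1
    rcases h1 with h1 | h1 | h1 | h1
    · exact hxO i hi j h1
    · exact hxx i hi i' hi' hne j 0 h1
    · exact hxx i hi i' hi' hne j 1 h1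
    · exact hxx i hi i' hi' hne j 2 h1
  obtain ⟨hF1, φF, hF2, hF3⟩ := hF
  have hFL : ∀ e ∈ F, ∀ i ∈ I, e ∉ L i := by
    intro e he i hi heL
    obtain ⟨j, hj⟩ := hmem i hi e heL
    have h1 := (hF1 he).2 _ ((hφ i hi).2 e heL).1
    rw [hj] at h1
    exact hxO i hi j h1
  have hsel : ∀ e, ∃ i : Option ι, ∀ i' ∈ I, e ∈ L i' → i = some i' := by
    intro e
    by_cases h1 : ∃ i' ∈ I, e ∈ L i'
    · obtain ⟨i, hi, he⟩ := h1
      exact ⟨some i, fun i' hi' he' => by rw [hdis i hi i' hi' e he he']⟩
    · exact ⟨none, fun i' hi' he' => absurd ⟨i', hi', he'⟩ h1⟩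
  choose sel hselp using hsel
  obtain ⟨ψ, hψ⟩ : ∃ ψ : α → V, ∀ e, ψ e = if e ∈ F then φF e else
      (sel e).elim (φF e) (fun i => φ i e) := ⟨_, fun _ => rfl⟩
  have hψF : ∀ e ∈ F, ψ e = φF e := fun e he => by rw [hψ, if_pos he]
  have hψL : ∀ i ∈ I, ∀ e ∈ L i, ψ e = φ i e := by
    intro i hi e he
    rw [hψ, if_neg (fun h => hFL e h i hi he), hselp e i hi he]
    rfl
  have hFfin : F.Finite := by
    rw [← Set.encard_lt_top_iff, show F.encard = O.encard from by
      rw [← hF2.image_eq, hF2.injOn.encard_image]]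
    exact hOf.encard_lt_top
  have hind : P.Indep (F ∪ ((I.biUnion L : Finset α) : Set α)) := by
    refine hB.ind _ ψ ?_ ?_ ?_
    · rintro e (he | he)
      · exact (hF1 he).1
      · obtain ⟨i, hi, he⟩ := Finset.mem_biUnion.1 (Finset.mem_coe.1 he)
        exact (hL i hi e he).1
    · rintro e (he | he) e' (he' | he') hee
      · rw [hψF e he, hψF e' he'] at hee
        exact hF2.injOn he he' hee
      · obtain ⟨i, hi, he'⟩ := Finset.mem_biUnion.1 (Finset.mem_coe.1 he')
        obtain ⟨j, hj⟩ := hmem i hi e' he'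
        rw [hψF e he, hψL i hi e' he', hj] at hee
        exact absurd (hee ▸ hF2.mapsTo he) (hxO i hi j)
      · obtain ⟨i, hi, he⟩ := Finset.mem_biUnion.1 (Finset.mem_coe.1 he)
        obtain ⟨j, hj⟩ := hmem i hi e he
        rw [hψF e' he', hψL i hi e he, hj] at hee
        exact absurd (hee ▸ hF2.mapsTo he') (hxO i hi j)
      · obtain ⟨i, hi, he⟩ := Finset.mem_biUnion.1 (Finset.mem_coe.1 he)
        obtain ⟨i', hi', he'⟩ := Finset.mem_biUnion.1 (Finset.mem_coe.1 he')
        rw [hψL i hi e he, hψL i' hi' e' he'] at hee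
        by_cases hii : i = i'
        · subst hii
          exact (hφ i hi).1 he he' hee
        · obtain ⟨j, hj⟩ := hmem i hi e he
          obtain ⟨j', hj'⟩ := hmem i' hi' e' he'
          rw [hj, hj'] at hee
          exact absurd hee (hxx i hi i' hi' hii j j')
    · rintro e (he | he)
      · rw [hψF e he]
        exact hF3 e he
      · obtain ⟨i, hi, he⟩ := Finset.mem_biUnion.1 (Finset.mem_coe.1 he)
        rw [hψL i hi e he]
        exact ((hφ i hi).2 e he).1
  have hcardF : F.ncard = O.ncard := by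
    rw [← hF2.image_eq, hF2.injOn.ncard_image]
  have hcardL : (I.biUnion L).card = ∑ i ∈ I, (L i).card := by
    refine Finset.card_biUnion ?_
    intro i hi i' hi' hne
    rw [Function.onFun, Finset.disjoint_left]
    intro e he he'
    exact hne (hdis i hi i' hi' e he he')
  have h4 : (F ∪ ((I.biUnion L : Finset α) : Set α)).ncard =
      F.ncard + (I.biUnion L).card := by
    rw [Set.ncard_union_eq ?_ hFfin (Finset.finite_toSet _), Set.ncard_coe_finset]
    rw [Set.disjoint_left]
    intro e he he'
    obtain ⟨i, hi, he'⟩ := Finset.mem_biUnion.1 (Finset.mem_coe.1 he')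
    exact hFL e he i hi he'
  rw [← hcardF, ← hcardL, ← h4, ← rk_indep hind]
  exact rk_mono P (union_subset_union_left _ hF1)

/-- Equal rank and inclusion: adding a set. -/
lemma rk_add_eq [P.Finite] {X Y B : Set α} (h : X ⊆ Y) (hr : rk P Y ≤ rk P X) :
    rk P (Y ∪ B) ≤ rk P (X ∪ B) := by
  have h1 := rk_submod P (X ∪ B) Y
  have h2 : rk P X ≤ rk P ((X ∪ B) ∩ Y) := rk_mono P (subset_inter subset_union_left h)
  have h3 : rk P (Y ∪ B) ≤ rk P (X ∪ B ∪ Y) :=
    rk_mono P (union_subset subset_union_right (subset_union_right.trans subset_union_left))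
  omega

/-- The step: one of three pairs out of four elements. -/
lemma four_step [P.Finite] {T : Set α} {a b c d : α} {N : ℕ}
    (hcd : N ≤ rk P (T ∪ {c, d})) (hbcd : N ≤ rk P (T ∪ {b, c, d}))
    (habc : N ≤ rk P (T ∪ {a, b, c})) :
    N ≤ rk P (T ∪ {b, d}) ∨ N ≤ rk P (T ∪ {a, c}) ∨ N ≤ rk P (T ∪ {b, c}) := by
  by_contra hcon
  push Not at hcon
  obtain ⟨h1, h2, h3⟩ := hcon
  have k0 : rk P (T ∪ {c, d}) ≤ rk P T + 2 := by
    refine (rk_union_le P (Set.toFinite _)).trans ?_
    have := Set.ncard_insert_le c {d}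
    rw [Set.ncard_singleton] at this
    omega
  have k1 := rk_submod P (T ∪ {b, c}) (T ∪ {b, d})
  have k2 := rk_submod P (T ∪ {b, c}) (T ∪ {a, c})
  have k3 := rk_submod P (T ∪ {b}) (T ∪ {c})
  have e1 : rk P (T ∪ {b, c, d}) ≤ rk P (T ∪ {b, c} ∪ (T ∪ {b, d})) := by
    refine rk_mono P ?_
    rintro e (he | he | he | he)
    · exact Or.inl (Or.inl he)
    · exact Or.inl (Or.inr (Or.inl he))
    · exact Or.inl (Or.inr (Or.inr he))
    · exact Or.inr (Or.inr (Or.inr he))
  have e2 : rk P (T ∪ {b}) ≤ rk P ((T ∪ {b, c}) ∩ (T ∪ {b, d})) := by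
    refine rk_mono P ?_
    rintro e (he | he)
    · exact ⟨Or.inl he, Or.inl he⟩
    · exact ⟨Or.inr (Or.inl he), Or.inr (Or.inl he)⟩
  have e3 : rk P (T ∪ {a, b, c}) ≤ rk P (T ∪ {b, c} ∪ (T ∪ {a, c})) := by
    refine rk_mono P ?_
    rintro e (he | he | he | he)
    · exact Or.inl (Or.inl he)
    · exact Or.inr (Or.inr (Or.inl he))
    · exact Or.inl (Or.inr (Or.inl he))
    · exact Or.inl (Or.inr (Or.inr he))
  have e4 : rk P (T ∪ {c}) ≤ rk P ((T ∪ {b, c}) ∩ (T ∪ {a, c})) := by
    refine rk_mono P ?_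
    rintro e (he | he)
    · exact ⟨Or.inl he, Or.inl he⟩
    · exact ⟨Or.inr (Or.inr he), Or.inr (Or.inr he)⟩
  have e5 : rk P (T ∪ {b, c}) ≤ rk P (T ∪ {b} ∪ (T ∪ {c})) := by
    refine rk_mono P ?_
    rintro e (he | he | he)
    · exact Or.inl (Or.inl he)
    · exact Or.inl (Or.inr he)
    · exact Or.inr (Or.inr he)
  have e6 : rk P T ≤ rk P ((T ∪ {b}) ∩ (T ∪ {c})) :=
    rk_mono P (subset_inter subset_union_left subset_union_left)
  have e7 : rk P (T ∪ {b, c, d}) ≤ rk P (T ∪ {b, c}) + 1 := by
    have h4 : T ∪ {b, c, d} ⊆ (T ∪ {b, c}) ∪ {d} := by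
      rintro e (he | he | he | he)
      · exact Or.inl (Or.inl he)
      · exact Or.inl (Or.inr (Or.inl he))
      · exact Or.inl (Or.inr (Or.inr he))
      · exact Or.inr he
    have h5 := rk_union_le P (X := T ∪ {b, c}) (Y := {d}) (Set.toFinite _)
    rw [Set.ncard_singleton] at h5
    exact (rk_mono P h4).trans h5
  omega

open Classical in
/-- **All triples at once.** -/
theorem four_modes [P.Finite] (hB : Bic P S ends) {F : Set α} (hF : FullB S ends O F)
    (hOf : O.Finite) (I : Finset ι) (a b c d : ι → α) (x : ι → Fin 3 → V)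
    (hq : ∀ i ∈ I, Quad S ends O (a i) (b i) (c i) (d i) (x i))
    (hxx : ∀ i ∈ I, ∀ i' ∈ I, i ≠ i' → ∀ j j', x i j ≠ x i' j') (B : Set α)
    (h0 : O.ncard + 3 * I.card ≤ rk P (ins S ends O ∪
      ((I.biUnion fun i => {c i, d i} : Finset α) : Set α) ∪ B)) :
    ∃ L : ι → Finset α, (∀ i ∈ I, L i = {b i, d i} ∨ L i = {a i, c i} ∨ L i = {b i, c i}) ∧
      O.ncard + 3 * I.card ≤ rk P (ins S ends O ∪ ((I.biUnion L : Finset α) : Set α) ∪ B) := by
  have key : ∀ J ⊆ I, ∃ L : ι → Finset α, (∀ i ∈ J, L i = {b i, d i} ∨ L i = {a i, c i} ∨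
      L i = {b i, c i}) ∧ (∀ i ∉ J, L i = {c i, d i}) ∧
      O.ncard + 3 * I.card ≤ rk P (ins S ends O ∪ ((I.biUnion L : Finset α) : Set α) ∪ B) := by
    intro J
    induction J using Finset.induction_on with
    | empty =>
      intro _
      exact ⟨fun i => {c i, d i}, by simp, fun _ _ => rfl, h0⟩
    | insert i J hiJ ih =>
      intro hJ
      obtain ⟨L, hL1, hL2, hL3⟩ := ih ((Finset.subset_insert i J).trans hJ)
      have hi : i ∈ I := hJ (Finset.mem_insert_self i J)
      obtain ⟨T, hT⟩ : ∃ T, T = ins S ends O ∪ (((I.erase i).biUnion L : Finset α) : Set α) :=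
        ⟨_, rfl⟩
      -- the sets
      have hsplit : ∀ (X : Finset α) (L' : ι → Finset α), L' i = X → (∀ u ∈ I, u ≠ i → L' u = L u) →
          ins S ends O ∪ ((I.biUnion L' : Finset α) : Set α) ∪ B = (T ∪ B) ∪ (X : Set α) := by
        intro X L' h1 h2
        rw [hT]
        ext e
        simp only [mem_union, Finset.coe_biUnion, Finset.mem_coe, mem_iUnion, Finset.mem_erase,
          exists_prop]
        constructor
        · rintro ((h | ⟨u, hu, h⟩) | h)
          · exact Or.inl (Or.inl (Or.inl h))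
          · by_cases hui : u = i
            · subst hui
              exact Or.inr (h1 ▸ h)
            · exact Or.inl (Or.inl (Or.inr ⟨u, ⟨hui, hu⟩, h2 u hu hui ▸ h⟩))
          · exact Or.inl (Or.inr h)
        · rintro (((h | ⟨u, ⟨hui, hu⟩, h⟩) | h) | h)
          · exact Or.inl (Or.inl h)
          · exact Or.inl (Or.inr ⟨u, hu, (h2 u hu hui).symm ▸ h⟩)
          · exact Or.inr h
          · exact Or.inl (Or.inr ⟨i, hi, h1.symm ▸ h⟩)
      obtain ⟨_, hab, hac, had, hbc, hbd, hcd, m1, m2, m3, m4, m5, m6⟩ := (hq i hi).facts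
      have hins := (hq i hi).facts.1
      have hcard : ∀ u ∈ I, (L u).card = 2 ∧ (∀ e ∈ L u, e ∈ ins S ends
          (O ∪ {x u 0, x u 1, x u 2})) ∧ Ori ends (x u) (L u) := by
        intro u hu
        obtain ⟨g0, gab, gac, gad, gbc, gbd, gcd, g1, g2, g3, g4, g5, g6⟩ := (hq u hu).facts
        have g01 := (hq u hu).x01
        have g02 := (hq u hu).x02
        have g12 := (hq u hu).x12
        by_cases huJ : u ∈ J
        · rcases hL1 u huJ with h | h | h <;> rw [h]
          · refine ⟨Finset.card_pair gbd, ?_, ori_two g02 g2 g6 gbd⟩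
            intro e he
            rw [Finset.mem_insert, Finset.mem_singleton] at he
            exact g0 e (by tauto)
          · refine ⟨Finset.card_pair gac, ?_, ori_two g01 g1 g4 gac⟩
            intro e he
            rw [Finset.mem_insert, Finset.mem_singleton] at he
            exact g0 e (by tauto)
          · refine ⟨Finset.card_pair gbc, ?_, ori_two g01 g2 g4 gbc⟩
            intro e he
            rw [Finset.mem_insert, Finset.mem_singleton] at he
            exact g0 e (by tauto)
        · rw [hL2 u huJ]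
          refine ⟨Finset.card_pair gcd, ?_, ori_two g12 g4 g6 gcd⟩
          intro e he
          rw [Finset.mem_insert, Finset.mem_singleton] at he
          exact g0 e (by tauto)
      have hcd0 : O.ncard + 3 * I.card ≤ rk P ((T ∪ B) ∪ {c i, d i}) := by
        have h1 := hsplit {c i, d i} L (hL2 i hiJ) (fun _ _ _ => rfl)
        rw [h1] at hL3
        simpa using hL3
      have hbcd0 : O.ncard + 3 * I.card ≤ rk P ((T ∪ B) ∪ {b i, c i, d i}) := by
        refine hcd0.trans (rk_mono P ?_)
        rintro e (he | he | he)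
        · exact Or.inl he
        · exact Or.inr (Or.inr (Or.inl he))
        · exact Or.inr (Or.inr (Or.inr he))
      have habc0 : O.ncard + 3 * I.card ≤ rk P ((T ∪ B) ∪ {a i, b i, c i}) := by
        -- lower bound
        have h1 := rk_loc_ge hB hF hOf I x (fun u => if u = i then {a i, b i, c i} else L u)
          (fun u hu => (hq u hu).out) hxx (by
            intro u hu e he
            by_cases hui : u = i
            · subst hui
              simp only [if_pos] at he
              rw [Finset.mem_insert, Finset.mem_insert, Finset.mem_singleton] at he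
              exact hins e (by tauto)
            · rw [if_neg hui] at he
              exact (hcard u hu).2.1 e he) (by
            intro u hu
            by_cases hui : u = i
            · subst hui
              simp only [if_pos]
              exact (hq u hu).ori_abc
            · rw [if_neg hui]
              exact (hcard u hu).2.2)
        have h2 : ∑ u ∈ I, (if u = i then {a i, b i, c i} else L u : Finset α).card =
            2 * I.card + 1 := by
          have h3 : ∀ u ∈ I, (if u = i then {a i, b i, c i} else L u : Finset α).card =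
              2 + (if u = i then 1 else 0) := by
            intro u hu
            by_cases hui : u = i
            · rw [if_pos hui, if_pos hui]
              rw [Finset.card_eq_three.2 ⟨a i, b i, c i, hab, hac, hbc, rfl⟩]
            · rw [if_neg hui, if_neg hui, (hcard u hu).1]
          rw [Finset.sum_congr rfl h3, Finset.sum_add_distrib, Finset.sum_const, smul_eq_mul,
            Finset.sum_ite_eq' I i, if_pos hi]
          ring
        rw [h2] at h1
        have h4 : ins S ends O ∪ ((I.biUnion (fun u => if u = i then {a i, b i, c i} else L u) :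
            Finset α) : Set α) ⊆ T ∪ {a i, b i, c i} := by
          rw [hT]
          rintro e (he | he)
          · exact Or.inl (Or.inl he)
          · obtain ⟨u, hu, he⟩ := Finset.mem_biUnion.1 (Finset.mem_coe.1 he)
            by_cases hui : u = i
            · rw [if_pos hui] at he
              exact Or.inr (by simpa using he)
            · rw [if_neg hui] at he
              exact Or.inl (Or.inr (Finset.mem_coe.2 (Finset.mem_biUnion.2
                ⟨u, Finset.mem_erase.2 ⟨hui, hu⟩, he⟩)))
        -- upper bound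
        have h5 : rk P (T ∪ {a i, b i, c i, d i}) ≤ O.ncard + 3 + 2 * (I.card - 1) := by
          have h6 : T ∪ {a i, b i, c i, d i} ⊆ ins S ends (O ∪ {x i 0, x i 1, x i 2}) ∪
              (((I.erase i).biUnion L : Finset α) : Set α) := by
            rw [hT]
            rintro e ((he | he) | he)
            · exact Or.inl ⟨he.1, fun v hv => Or.inl (he.2 v hv)⟩
            · exact Or.inr he
            · simp only [mem_insert_iff, mem_singleton_iff] at he
              exact Or.inl (hins e (by tauto))
          have h7 := rk_union_le P (X := ins S ends (O ∪ {x i 0, x i 1, x i 2}))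
            (Y := (((I.erase i).biUnion L : Finset α) : Set α)) (Finset.finite_toSet _)
          rw [Set.ncard_coe_finset] at h7
          have h8 : ((I.erase i).biUnion L).card ≤ (I.erase i).card * 2 :=
            Finset.card_biUnion_le_card_mul _ _ 2 (fun u hu =>
              ((hcard u (Finset.mem_of_mem_erase hu)).1).le)
          rw [Finset.card_erase_of_mem hi] at h8
          have h9 : rk P (ins S ends (O ∪ {x i 0, x i 1, x i 2})) ≤ O.ncard + 3 := by
            have hf : (O ∪ {x i 0, x i 1, x i 2} : Set V).Finite := hOf.union (Set.toFinite _)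
            have h10 := hB.rk (O ∪ {x i 0, x i 1, x i 2})
            rw [← cast_rk, ← hf.cast_ncard_eq] at h10
            have h11 : rk P (ins S ends (O ∪ {x i 0, x i 1, x i 2})) ≤
                (O ∪ {x i 0, x i 1, x i 2} : Set V).ncard := by exact_mod_cast h10
            have h12 := Set.ncard_union_le O {x i 0, x i 1, x i 2}
            have h13 : ({x i 0, x i 1, x i 2} : Set V).ncard ≤ 3 := by
              have g1 := Set.ncard_insert_le (x i 0) {x i 1, x i 2}
              have g2 := Set.ncard_insert_le (x i 1) {x i 2}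
              rw [Set.ncard_singleton] at g2
              omega
            omega
          have := rk_mono P h6
          omega
        have hI1 : 1 ≤ I.card := Finset.card_pos.2 ⟨i, hi⟩
        have h14 := rk_mono P h4
        have h15 : T ∪ {a i, b i, c i} ⊆ T ∪ {a i, b i, c i, d i} := by
          rintro e (he | he | he | he)
          · exact Or.inl he
          · exact Or.inr (Or.inl he)
          · exact Or.inr (Or.inr (Or.inl he))
          · exact Or.inr (Or.inr (Or.inr (Or.inl he)))
        have h16 := rk_add_eq (P := P) (B := B) h15 (by omega)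
        have h17 : rk P ((T ∪ B) ∪ {c i, d i}) ≤ rk P (T ∪ {a i, b i, c i, d i} ∪ B) := by
          refine rk_mono P ?_
          rintro e ((he | he) | he | he)
          · exact Or.inl (Or.inl he)
          · exact Or.inr he
          · exact Or.inl (Or.inr (Or.inr (Or.inr (Or.inl he))))
          · exact Or.inl (Or.inr (Or.inr (Or.inr (Or.inr he))))
        have h18 : T ∪ {a i, b i, c i} ∪ B = T ∪ B ∪ {a i, b i, c i} := by
          rw [union_assoc, union_comm {a i, b i, c i} B, ← union_assoc]
        rw [h18] at h16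
        exact hcd0.trans (h17.trans h16)
      -- the choice
      have hchoice : ∃ X : Finset α, (X = {b i, d i} ∨ X = {a i, c i} ∨ X = {b i, c i}) ∧
          O.ncard + 3 * I.card ≤ rk P ((T ∪ B) ∪ (X : Set α)) := by
        rcases four_step hcd0 hbcd0 habc0 with h | h | h
        · exact ⟨{b i, d i}, Or.inl rfl, by simpa using h⟩
        · exact ⟨{a i, c i}, Or.inr (Or.inl rfl), by simpa using h⟩
        · exact ⟨{b i, c i}, Or.inr (Or.inr rfl), by simpa using h⟩
      obtain ⟨X, hX, hXr⟩ := hchoice
      refine ⟨fun u => if u = i then X else L u, ?_, ?_, ?_⟩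
      · intro u hu
        by_cases hui : u = i
        · subst hui
          simp only [if_pos]
          exact hX
        · simp only [if_neg hui]
          exact hL1 u (Finset.mem_of_mem_insert_of_ne hu hui)
      · intro u hu
        rw [Finset.mem_insert, not_or] at hu
        simp only [if_neg hu.1]
        exact hL2 u hu.2
      · rw [hsplit X (fun u => if u = i then X else L u) (by simp) (fun u _ hui => if_neg hui)]
        exact hXr
  obtain ⟨L, h1, _, h3⟩ := key I subset_rfl
  exact ⟨L, h1, h3⟩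

end

end DA
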