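import Pool.Agent.DA.WallFull

/-!
# A brick wall without far apart horizontal intervals is full
-/

open Set BIC BICS
open scoped Matroid

namespace DA

open Gad

universe u

lemma nbw_cases' (w : ℕ) (B : Set (ℕ × ℕ))
    (hB : ∀ v ∈ B, 1 ≤ v.2 ∧ v.2 + 3 ≤ w ∧ v.1 + 4 ≤ w) (v : ℕ × ℕ) (hv : v.1 ≤ w ∧ v.2 ≤ w) :
    (v.2 = w ∧ v.1 + 3 = w ∧ nbw w B v = (v.1, v.2 - 1)) ∨
    (v.2 = w ∧ v.1 + 3 < w ∧ nbw w B v = (v.1 + 1, v.2)) ∨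
    (v.2 = w ∧ w < v.1 + 3 ∧ nbw w B v = (v.1 - 1, v.2)) ∨
    (v.2 < w ∧ v.1 = w ∧ (w + v.2) % 2 = 0 ∧ nbw w B v = (v.1, v.2 + 1)) ∨
    (v.2 < w ∧ v.1 + 1 = w ∧ (w + v.2) % 2 = 1 ∧ nbw w B v = (v.1, v.2 + 1)) ∨
    (v.2 < w ∧ v.1 = w ∧ (w + v.2) % 2 = 1 ∧ nbw w B v = (v.1 - 1, v.2)) ∨
    ((1 ≤ v.2 ∧ v.2 + 3 ≤ w ∧ v.1 + 4 ≤ w) ∧ v ∈ B ∧ (v.1 + v.2) % 2 = 0 ∧
      nbw w B v = (v.1, v.2 + 1)) ∨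
    ((1 ≤ v.2 ∧ v.2 + 3 ≤ w ∧ v.1 + 4 ≤ w) ∧ v ∈ B ∧ (v.1 + v.2) % 2 = 1 ∧
      nbw w B v = (v.1, v.2 - 1)) ∨
    (v.2 < w ∧ v.1 < w ∧ (v.1 + 1 = w → (w + v.2) % 2 = 0) ∧ v ∉ B ∧
      nbw w B v = (v.1 + 1, v.2)) := by
  unfold nbw
  split_ifs with g1 g2 g3 g4 g5 g6
  · exact Or.inl ⟨g1, g2, rfl⟩
  · exact Or.inr (Or.inl ⟨g1, g3, rfl⟩)
  · exact Or.inr (Or.inr (Or.inl ⟨g1, by omega, rfl⟩))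
  · rcases g4 with ⟨h1, h2⟩ | ⟨h1, h2⟩
    · exact Or.inr (Or.inr (Or.inr (Or.inl ⟨by omega, h1, h2, rfl⟩)))
    · exact Or.inr (Or.inr (Or.inr (Or.inr (Or.inl ⟨by omega, h1, h2, rfl⟩))))
  · exact Or.inr (Or.inr (Or.inr (Or.inr (Or.inr (Or.inl ⟨by omega, g5, by omega, rfl⟩)))))
  · have h1 := hB v g6
    unfold vn
    split_ifs with g7
    · exact Or.inr (Or.inr (Or.inr (Or.inr (Or.inr (Or.inr (Or.inl ⟨h1, g6, g7, rfl⟩))))))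
    · exact Or.inr (Or.inr (Or.inr (Or.inr (Or.inr (Or.inr (Or.inr (Or.inl
        ⟨h1, g6, by omega, rfl⟩)))))))
  · exact Or.inr (Or.inr (Or.inr (Or.inr (Or.inr (Or.inr (Or.inr (Or.inr
        ⟨by omega, by omega, by omega, g6, rfl⟩)))))))

/-- A brick wall without deep, far apart horizontal intervals is full. -/
theorem wall_holes {α : Type*} {S : Set α} {ends : α → Sym2 (ℕ × ℕ)} {w : ℕ} (hw : 4 ≤ w)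
    (Z : Set (ℕ × ℕ))
    (hZ : ∀ v ∈ Z, 1 ≤ v.1 ∧ v.1 + 3 ≤ w ∧ 1 ≤ v.2 ∧ v.2 + 3 ≤ w)
    (hV : ∀ x y, (x + 1, y) ∈ Z → (x, y) ∉ Z → ∀ y', (y' = y + 1 ∨ y' + 1 = y) →
      (x, y') ∉ Z ∧ (x + 1, y') ∉ Z)
    (hS : ∀ p q, wadj p q → p ∈ rect 0 0 (w + 1) (w + 1) \ Z →
      q ∈ rect 0 0 (w + 1) (w + 1) \ Z → ∃ e ∈ S, ends e = s(p, q)) :
    ∃ F, FullB S ends (rect 0 0 (w + 1) (w + 1) \ Z) F := by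
  obtain ⟨B, hBd⟩ : ∃ B : Set (ℕ × ℕ), B = {u | u ∉ Z ∧ (u.1 + 1, u.2) ∈ Z} := ⟨_, rfl⟩
  have hB : ∀ x z, (x, z) ∈ B ↔ (x, z) ∉ Z ∧ (x + 1, z) ∈ Z := by
    intro x z
    rw [hBd]
    rfl
  have hBc : ∀ x z, (x, z) ∈ B → 1 ≤ z ∧ z + 3 ≤ w ∧ x + 4 ≤ w := by
    intro x z h
    have := hZ _ ((hB x z).1 h).2
    simp only at this
    omega
  have hBv : ∀ v ∈ B, 1 ≤ v.2 ∧ v.2 + 3 ≤ w ∧ v.1 + 4 ≤ w := fun v hv => hBc v.1 v.2 hv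
  have hZc : ∀ x z, (x, z) ∈ Z → 1 ≤ x ∧ x + 3 ≤ w ∧ 1 ≤ z ∧ z + 3 ≤ w := fun x z h => hZ _ h
  have hin : ∀ v ∈ rect 0 0 (w + 1) (w + 1) \ Z, nbw w B v ∈ rect 0 0 (w + 1) (w + 1) \ Z ∧
      wadj v (nbw w B v) := by
    rintro ⟨x, z⟩ ⟨hv, hvZ⟩
    rw [Gad.mem_rct] at hv
    simp only at hv
    have h1 := nbw_cases' w B hBv (x, z) (by simp only; omega)
    simp only at h1
    rcases h1 with ⟨a1, a2, a3⟩ | ⟨a1, a2, a3⟩ | ⟨a1, a2, a3⟩ | ⟨a1, a2, a4, a3⟩ |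
      ⟨a1, a2, a4, a3⟩ | ⟨a1, a2, a4, a3⟩ | ⟨a1, a5, a4, a3⟩ | ⟨a1, a5, a4, a3⟩ |
      ⟨a1, a2, a4, a5, a3⟩ <;> rw [a3] <;>
    refine ⟨⟨by rw [Gad.mem_rct]; simp only; omega, fun h => ?_⟩, ?_⟩
    all_goals first
      | (unfold wadj; dsimp only; omega)
      | (have h5 := hZc _ _ h; omega)
      | exact a5 ((hB _ _).2 ⟨hvZ, h⟩)
      | (have h6 := (hB _ _).1 a5
         exact (hV _ _ h6.2 h6.1 _ (by omega)).1 h)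
  refine full_of_nb (nbw w B) (fun v hv => ⟨(hin v hv).1, hS v _ (hin v hv).2 hv (hin v hv).1⟩) ?_
  rintro ⟨x, z⟩ hv heq
  have hv' := (hin _ hv).1.1
  have hv0 := hv.1
  rw [Gad.mem_rct] at hv' hv0
  have k1 := nbw_cases' w B hBv (x, z) (by simp only at hv0 ⊢; omega)
  obtain ⟨⟨x', z'⟩, hx'⟩ : ∃ v', nbw w B (x, z) = v' := ⟨_, rfl⟩
  have k2 := nbw_cases' w B hBv (x', z') (by rw [hx'] at hv'; simp only at hv' ⊢; omega)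
  rw [hx'] at k1 heq
  rw [heq] at k2
  simp only [Prod.mk.injEq] at k1 k2
  have key : (x, z) ∈ B → (x', z') ∈ B → x' = x → (z' = z + 1 ∨ z' + 1 = z) → False := by
    intro h1 h2 h3 h4
    have h5 := (hB _ _).1 h1
    have h6 := (hB _ _).1 h2
    subst h3
    exact (hV _ _ h5.2 h5.1 z' h4).2 h6.2
  rcases k1 with ⟨a1, a2, a3, a3'⟩ | ⟨a1, a2, a3, a3'⟩ | ⟨a1, a2, a3, a3'⟩ |
    ⟨a1, a2, a4, a3, a3'⟩ | ⟨a1, a2, a4, a3, a3'⟩ | ⟨a1, a2, a4, a3, a3'⟩ |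
    ⟨a1, a5, a4, a3, a3'⟩ | ⟨a1, a5, a4, a3, a3'⟩ | ⟨a1, a2, a4, a5, a3, a3'⟩ <;>
  rcases k2 with ⟨b1, b2, b3, b3'⟩ | ⟨b1, b2, b3, b3'⟩ | ⟨b1, b2, b3, b3'⟩ |
    ⟨b1, b2, b4, b3, b3'⟩ | ⟨b1, b2, b4, b3, b3'⟩ | ⟨b1, b2, b4, b3, b3'⟩ |
    ⟨b1, b5, b4, b3, b3'⟩ | ⟨b1, b5, b4, b3, b3'⟩ | ⟨b1, b2, b4, b5, b3, b3'⟩ <;>
  first
    | omega
    | exact key a5 b5 (by omega) (by omega)

end DA
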