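import Pool.Agent.DA.Blk5
import Pool.Agent.DA.Four
import Pool.Agent.DA.WHoles
import Pool.Agent.DA.B1

/-!
# Many far apart groups of vertices of the brick wall which see the same elements
-/

open Set BIC BICS
open scoped Matroid

namespace DA

open Gad

universe u

section

variable {w n : ℕ} {σ : ℕ → ℕ → ℕ} {α : Type*} {S : Set α} {ends : α → Sym2 (ℕ × ℕ)}
  {P : Matroid α}

/-- Elements inside an interval are contracted. -/
lemma Blk.inner (hb : Blk w n σ) (hW : WallE S ends w ∅) {ζ : ℕ × ℕ → α}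
    (hζ : Star S ends (rect 0 0 (w + 1) (w + 1)) (rB n σ) (cB σ) ζ) {e : α} (he : e ∈ S)
    {x y X : ℕ} (hy : y ≤ w) (hX : X < n) (hee : ends e = s((x, y), (x + 1, y)))
    (h1 : InB w n σ y X x) (h2 : InB w n σ y X (x + 1)) :
    e ∈ ζ '' lvs (rect 0 0 (w + 1) (w + 1)) (rB n σ) (cB σ) := by
  have e1 := hb.rB_eq hy hX h1
  have e2 := hb.rB_eq hy hX h2
  have hc : cB σ (X, y) = (σ y X + 1, y) := rfl
  have n1 := hb.near hy h1
  have n2 := hb.near hy h2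
  have m1 : (x, y) ∈ rect 0 0 (w + 1) (w + 1) := mem_wall.2 ⟨h1.1, hy⟩
  have m2 : (x + 1, y) ∈ rect 0 0 (w + 1) (w + 1) := mem_wall.2 ⟨h2.1, hy⟩
  have h3 : x = σ y X ∨ x = σ y X + 1 := by omega
  rcases h3 with h3 | h3
  · have hne : (x, y) ≠ cB σ (rB n σ (x, y)) := by
      rw [e1, hc, ne_eq, Prod.mk.injEq]
      omega
    refine ⟨(x, y), ⟨m1, hne⟩, ?_⟩
    apply hW.inj (hζ.ζS _ m1 hne) he
    rw [hζ.ζe _ m1 hne, hee, e1, hc, h3]
  · have hne : (x + 1, y) ≠ cB σ (rB n σ (x + 1, y)) := by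
      rw [e2, hc, ne_eq, Prod.mk.injEq]
      omega
    refine ⟨(x + 1, y), ⟨m2, hne⟩, ?_⟩
    apply hW.inj (hζ.ζS _ m2 hne) he
    rw [hζ.ζe _ m2 hne, hee, e2, hc, ← h3]
    exact Sym2.eq_swap

/-- The rank of the rows without some blocks. -/
lemma Blk.rk_le [P.Finite] (hb : Blk w n σ) (hB : Bic P S ends) {ζ : ℕ × ℕ → α}
    (hζ : Star S ends (rect 0 0 (w + 1) (w + 1)) (rB n σ) (cB σ) ζ) {S' : Set α}
    (hS' : S' ⊆ S \ (ζ '' lvs (rect 0 0 (w + 1) (w + 1)) (rB n σ) (cB σ)))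
    (hB' : Bic (P ／ (ζ '' lvs (rect 0 0 (w + 1) (w + 1)) (rB n σ) (cB σ))) S'
      (fun e => (ends e).map (rB n σ)))
    (hG' : CWL.GrdU S' (fun e => (ends e).map (rB n σ)) (rect 0 0 n (w + 1)))
    (J : Finset (ℕ × ℕ)) (hJ : (J : Set (ℕ × ℕ)) ⊆ rect 0 0 n (w + 1)) :
    rk P (ins S' (fun e => (ends e).map (rB n σ)) (J : Set (ℕ × ℕ))ᶜ ∪
      ζ '' lvs (rect 0 0 (w + 1) (w + 1)) (rB n σ) (cB σ)) + J.card ≤
      (rect 0 0 (w + 1) (w + 1)).ncard := by
  obtain ⟨Z, hZ⟩ : ∃ Z, Z = ζ '' lvs (rect 0 0 (w + 1) (w + 1)) (rB n σ) (cB σ) := ⟨_, rfl⟩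
  rw [← hZ] at hS' hB' ⊢
  have hAf := rect_finite 0 0 (w + 1) (w + 1)
  have hRf := rect_finite 0 0 n (w + 1)
  have hZS : Z ⊆ S := by rw [hZ]; exact hζ.sub
  have : (P ／ Z).Finite := BQ.fin_contract _
  have h1 := BQ.rk_con (M := P) (C := Z) (X := ins S' (fun e => (ends e).map (rB n σ))
    (J : Set (ℕ × ℕ))ᶜ) (hZS.trans hB.sub) (fun e he => ⟨hB.sub (hS' he.1).1, (hS' he.1).2⟩)
  have h2 : ins S' (fun e => (ends e).map (rB n σ)) (J : Set (ℕ × ℕ))ᶜ ⊆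
      ins S' (fun e => (ends e).map (rB n σ)) (rect 0 0 n (w + 1) \ (J : Set (ℕ × ℕ))) :=
    fun e he => ⟨he.1, fun v hv => ⟨grd_end hG' he.1 hv, he.2 v hv⟩⟩
  have h3 : rk (P ／ Z) (ins S' (fun e => (ends e).map (rB n σ)) (J : Set (ℕ × ℕ))ᶜ) ≤
      (rect 0 0 n (w + 1) \ (J : Set (ℕ × ℕ))).ncard := by
    refine (rk_mono _ h2).trans ?_
    have h4 := hB'.rk (rect 0 0 n (w + 1) \ (J : Set (ℕ × ℕ)))
    rw [← cast_rk, ← (hRf.subset sdiff_subset).cast_ncard_eq] at h4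
    exact_mod_cast h4
  have h5 := Set.ncard_sdiff_add_ncard_of_subset hJ hRf
  rw [Set.ncard_coe_finset] at h5
  -- leaves and centres
  have h6 : rk P Z ≤ (lvs (rect 0 0 (w + 1) (w + 1)) (rB n σ) (cB σ)).ncard := by
    have hlf : (lvs (rect 0 0 (w + 1) (w + 1)) (rB n σ) (cB σ)).Finite :=
      hAf.subset (fun v hv => hv.1)
    refine (rk_le_ncard P (by rw [hZ]; exact hlf.image _)).trans ?_
    rw [hZ]
    exact Set.ncard_image_le hlf
  have h7 : (cB σ '' (rect 0 0 n (w + 1))).ncard = (rect 0 0 n (w + 1)).ncard := by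
    apply Set.InjOn.ncard_image
    rintro ⟨X, y⟩ hv ⟨X', y'⟩ hv' he
    rw [Gad.mem_rct] at hv hv'
    simp only at hv hv'
    unfold cB at he
    simp only [Prod.mk.injEq] at he
    obtain ⟨he1, rfl⟩ := he
    have := (sig_mono fun X => (hb.st y (by omega) X).1).injective (by omega : σ y X = σ y X')
    rw [this]
  have h8 : lvs (rect 0 0 (w + 1) (w + 1)) (rB n σ) (cB σ) ∪ cB σ '' (rect 0 0 n (w + 1)) ⊆
      rect 0 0 (w + 1) (w + 1) := by
    rintro v (hv | ⟨⟨X, y⟩, hb', rfl⟩)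
    · exact hv.1
    · rw [Gad.mem_rct] at hb'
      simp only at hb'
      exact mem_wall.2 ⟨(hb.cen (by omega) (by omega)).1, by omega⟩
  have h9 : Disjoint (lvs (rect 0 0 (w + 1) (w + 1)) (rB n σ) (cB σ))
      (cB σ '' (rect 0 0 n (w + 1))) := by
    rw [Set.disjoint_left]
    rintro v hv ⟨⟨X, y⟩, hb', rfl⟩
    rw [Gad.mem_rct] at hb'
    simp only at hb'
    apply hv.2
    have h10 := hb.rB_eq (X := X) (y := y) (by omega) (by omega) (hb.cen (by omega) (by omega))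
    have h11 : cB σ (X, y) = (σ y X + 1, y) := rfl
    rw [h11, h10, h11]
  have h12 := Set.ncard_le_ncard h8 hAf
  rw [Set.ncard_union_eq h9 (hAf.subset (fun v hv => hv.1)) (hRf.image _), h7] at h12
  rw [← h1]
  omega

end


lemma sg_pos {a m w X x D : ℕ} (h : 2 * a + 3 * m + 1 ≤ w)
    (hx : sg a m X = x ∨ sg a m X = x + 1) (h1 : D ≤ x) (h2 : x + D ≤ w + 1) (hD : 10 ≤ D) :
    D ≤ 3 * X ∧ 3 * X + D ≤ 3 * nb5 a m w + 1 ∧ X + 1 < nb5 a m w := by
  have hb := sg_bd a m X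
  have hl := sg_last h
  have hn : 1 ≤ nb5 a m w := by unfold nb5; omega
  have hX : X ≤ nb5 a m w - 1 := by
    by_contra hcon
    push Not at hcon
    have := (sig_mono fun X => (sg_step a m X).1).monotone hcon.le
    omega
  have hd := sg_diff a m hX
  omega

lemma sg_far {a m X X' x x' δ : ℕ} (hx : sg a m X = x ∨ sg a m X = x + 1)
    (hx' : sg a m X' = x' ∨ sg a m X' = x' + 1) (h : x + δ ≤ x') (hδ : 4 ≤ δ) :
    3 * X + δ ≤ 3 * X' + 1 := by
  have hX : X ≤ X' := by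
    by_contra hcon
    push Not at hcon
    have := (sig_mono fun X => (sg_step a m X).1).monotone hcon.le
    omega
  have hd := sg_diff a m hX
  omega

/-- the set which is left after the deletion of the blocks `J` -/
def YJ {α : Type*} (S' : Set α) (ends : α → Sym2 (ℕ × ℕ)) (w n : ℕ) (σ : ℕ → ℕ → ℕ)
    (ζ : ℕ × ℕ → α) (J : Set (ℕ × ℕ)) : Set α :=
  ins S' (fun e => (ends e).map (rB n σ)) Jᶜ ∪
    ζ '' lvs (rect 0 0 (w + 1) (w + 1)) (rB n σ) (cB σ)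

open Classical in
/-- One group. -/
theorem one_group {α : Type*} {P : Matroid α} [P.Finite] {S : Set α} {ends : α → Sym2 (ℕ × ℕ)}
    {w : ℕ} (hB : Bic P S ends) (hW : WallE S ends w ∅) (ζ : Fin 5 → ℕ × ℕ → α)
    (S' : Fin 5 → Set α)
    (hq : ∀ τ, Star S ends (rect 0 0 (w + 1) (w + 1)) (rB (nb5 (tyA τ) (tyM w τ) w)
        (fun _ => sg (tyA τ) (tyM w τ))) (cB (fun _ => sg (tyA τ) (tyM w τ))) (ζ τ) ∧
      S' τ ⊆ S \ (ζ τ '' lvs (rect 0 0 (w + 1) (w + 1)) (rB (nb5 (tyA τ) (tyM w τ) w)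
        (fun _ => sg (tyA τ) (tyM w τ))) (cB (fun _ => sg (tyA τ) (tyM w τ)))) ∧
      Bic (P ／ (ζ τ '' lvs (rect 0 0 (w + 1) (w + 1)) (rB (nb5 (tyA τ) (tyM w τ) w)
        (fun _ => sg (tyA τ) (tyM w τ))) (cB (fun _ => sg (tyA τ) (tyM w τ))))) (S' τ)
        (fun e => (ends e).map (rB (nb5 (tyA τ) (tyM w τ) w) (fun _ => sg (tyA τ) (tyM w τ)))) ∧
      CWL.GrdU (S' τ) (fun e => (ends e).map (rB (nb5 (tyA τ) (tyM w τ) w)
        (fun _ => sg (tyA τ) (tyM w τ)))) (rect 0 0 (nb5 (tyA τ) (tyM w τ) w) (w + 1)))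
    (B : Finset α) (hBE : (B : Set α) ⊆ P.E) (G : Finset (ℕ × ℕ)) (D₀ K₀ : ℕ)
    (hK : 50 * (K₀ + 1) ≤ G.card)
    (hD : ∀ v ∈ G, DeepR (0, 0) (w + 1) (w + 1) (12 * D₀ + 60) v)
    (hfar : ∀ v ∈ G, ∀ v' ∈ G, v ≠ v' → Apart 20 v v')
    (hvis : rk P (ins S ends (G : Set (ℕ × ℕ))ᶜ ∪ (B : Set α)) =
      rk P (ins S ends (G : Set (ℕ × ℕ))ᶜ) + G.card) :
    ∃ (τ : Fin 5) (χ : ℕ) (J : Finset (ℕ × ℕ)) (Ba : Finset α), χ < 10 ∧ J.card = K₀ ∧
      Ba ⊆ B ∧ Ba.card = K₀ ∧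
      (∀ u ∈ J, ∃ v ∈ G, u.2 = v.2 ∧ (sg (tyA τ) (tyM w τ) u.1 = v.1 ∨
        sg (tyA τ) (tyM w τ) u.1 = v.1 + 1) ∧ (v.2 - (D₀ + 2)) / ((w + 1) / 8) = χ) ∧
      rk P (YJ (S' τ) ends w (nb5 (tyA τ) (tyM w τ) w) (fun _ => sg (tyA τ) (tyM w τ)) (ζ τ)
        (J : Set (ℕ × ℕ)) ∪ (Ba : Set α)) =
      rk P (YJ (S' τ) ends w (nb5 (tyA τ) (tyM w τ) w) (fun _ => sg (tyA τ) (tyM w τ)) (ζ τ)
        (J : Set (ℕ × ℕ))) + K₀ := by
  obtain ⟨D, hDd⟩ : ∃ D, D = 12 * D₀ + 60 := ⟨_, rfl⟩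
  rw [← hDd] at hD
  have hDc : ∀ v ∈ G, D ≤ v.1 ∧ D ≤ v.2 ∧ v.1 + D ≤ w + 1 ∧ v.2 + D ≤ w + 1 := by
    intro v hv
    have := hD v hv
    unfold DeepR at this
    simp only at this
    omega
  have hfarc : ∀ v ∈ G, ∀ v' ∈ G, v ≠ v' → v.1 + 20 ≤ v'.1 ∨ v'.1 + 20 ≤ v.1 ∨
      v.2 + 20 ≤ v'.2 ∨ v'.2 + 20 ≤ v.2 := fun v hv v' hv' hne => hfar v hv v' hv' hne
  obtain ⟨v₀, hv₀⟩ : G.Nonempty := Finset.card_pos.1 (by omega)
  have hw : 2 * D ≤ w + 1 := by
    have := hDc v₀ hv₀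
    omega
  -- the elements of the quads
  have hwe : ∀ x y, x + 1 ≤ w → y ≤ w → ∃ e ∈ S, ends e = s((x, y), (x + 1, y)) := by
    intro x y hx hy
    exact hW.surj _ _ (wadj_h (Or.inl rfl)) (mem_wall.2 ⟨by omega, hy⟩) (mem_wall.2 ⟨hx, hy⟩)
      (notMem_empty _)
  obtain ⟨e₀, _, _⟩ := hwe 0 0 (by omega) (by omega)
  have hwe' : ∀ v : ℕ × ℕ, ∃ e : α, v.1 + 1 ≤ w → v.2 ≤ w → e ∈ S ∧
      ends e = s(v, (v.1 + 1, v.2)) := by
    intro v
    by_cases hv : v.1 + 1 ≤ w ∧ v.2 ≤ w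
    · obtain ⟨e, he, hee⟩ := hwe v.1 v.2 hv.1 hv.2
      exact ⟨e, fun _ _ => ⟨he, hee⟩⟩
    · exact ⟨e₀, fun h1 h2 => absurd ⟨h1, h2⟩ hv⟩
  choose g hg using hwe'
  obtain ⟨a, ha⟩ : ∃ a : ℕ × ℕ → α, ∀ v, a v = g (v.1 - 1, v.2) := ⟨_, fun _ => rfl⟩
  obtain ⟨b, hb⟩ : ∃ b : ℕ × ℕ → α, ∀ v, b v = g v := ⟨_, fun _ => rfl⟩
  obtain ⟨c, hc⟩ : ∃ c : ℕ × ℕ → α, ∀ v, c v = g (v.1 + 1, v.2) := ⟨_, fun _ => rfl⟩
  obtain ⟨d, hd⟩ : ∃ d : ℕ × ℕ → α, ∀ v, d v = g (v.1 + 2, v.2) := ⟨_, fun _ => rfl⟩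
  have hae : ∀ v ∈ G, a v ∈ S ∧ ends (a v) = s((v.1 - 1, v.2), v) := by
    intro v hv
    have h1 := hDc v hv
    have h2 := hg (v.1 - 1, v.2) (by simp only; omega) (by simp only; omega)
    simp only at h2
    rw [Nat.sub_add_cancel (by omega)] at h2
    rw [ha]
    exact h2
  have hbe : ∀ v ∈ G, b v ∈ S ∧ ends (b v) = s(v, (v.1 + 1, v.2)) := by
    intro v hv
    have h1 := hDc v hv
    rw [hb]
    exact hg v (by omega) (by omega)
  have hce : ∀ v ∈ G, c v ∈ S ∧ ends (c v) = s((v.1 + 1, v.2), (v.1 + 2, v.2)) := by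
    intro v hv
    have h1 := hDc v hv
    rw [hc]
    exact hg (v.1 + 1, v.2) (by simp only; omega) (by simp only; omega)
  have hde : ∀ v ∈ G, d v ∈ S ∧ ends (d v) = s((v.1 + 2, v.2), (v.1 + 3, v.2)) := by
    intro v hv
    have h1 := hDc v hv
    rw [hd]
    exact hg (v.1 + 2, v.2) (by simp only; omega) (by simp only; omega)
  -- the holes
  obtain ⟨H, hH⟩ : ∃ H : Set (ℕ × ℕ), ∀ u, u ∈ H ↔ ∃ v ∈ G, u.2 = v.2 ∧ v.1 ≤ u.1 ∧
      u.1 ≤ v.1 + 2 := ⟨{u | ∃ v ∈ G, u.2 = v.2 ∧ v.1 ≤ u.1 ∧ u.1 ≤ v.1 + 2}, fun _ => Iff.rfl⟩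
  obtain ⟨O, hO⟩ : ∃ O, O = rect 0 0 (w + 1) (w + 1) \ H := ⟨_, rfl⟩
  have hOf : O.Finite := by rw [hO]; exact (rect_finite _ _ _ _).subset sdiff_subset
  have hHc : ∀ x y, (x, y) ∈ H → 1 ≤ x ∧ x + 3 ≤ w ∧ 1 ≤ y ∧ y + 3 ≤ w := by
    intro x y h
    obtain ⟨v, hv, h1, h2, h3⟩ := (hH _).1 h
    have := hDc v hv
    simp only at h1 h2 h3
    omega
  obtain ⟨F, hF⟩ := wall_holes (S := S) (ends := ends) (w := w) (by omega) H
    (fun v hv => hHc v.1 v.2 hv) (by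
      intro x y h1 h2 y' hy'
      obtain ⟨v, hv, h3, h4, h5⟩ := (hH _).1 h1
      simp only at h3 h4 h5
      have key : ∀ x'', x ≤ x'' → x'' ≤ x + 1 → (x'', y') ∉ H := by
        intro x'' hx1 hx2 h6
        obtain ⟨v', hv', h7, h8, h9⟩ := (hH _).1 h6
        simp only at h7 h8 h9
        by_cases hvv : v = v'
        · subst hvv
          omega
        · have := hfarc v hv v' hv' hvv
          omega
      exact ⟨key x le_rfl (by omega), key (x + 1) (by omega) le_rfl⟩) (by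
      intro p q hpq hp hq'
      exact hW.surj p q hpq hp.1 hq'.1 (notMem_empty _))
  rw [← hO] at hF
  have hmO : ∀ x y, x ≤ w → y ≤ w → (x, y) ∉ H → (x, y) ∈ O := by
    intro x y hx hy h
    rw [hO]
    exact ⟨mem_wall.2 ⟨hx, hy⟩, h⟩
  have hnH : ∀ v ∈ G, ∀ x, v.1 ≤ x + 10 → x ≤ v.1 + 10 → (x < v.1 ∨ v.1 + 2 < x) →
      (x, v.2) ∉ H := by
    intro v hv x h1 h2 h3 h4
    obtain ⟨v', hv', h5, h6, h7⟩ := (hH _).1 h4
    simp only at h5 h6 h7
    by_cases hvv : v = v'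
    · subst hvv
      omega
    · have := hfarc v hv v' hv' hvv
      omega
  -- the quads
  obtain ⟨xx, hxx⟩ : ∃ xx : ℕ × ℕ → Fin 3 → ℕ × ℕ, ∀ v j, xx v j = (v.1 + j, v.2) :=
    ⟨_, fun _ _ => rfl⟩
  have hx0 : ∀ v, xx v 0 = v := fun v => by rw [hxx]; simp
  have hx1 : ∀ v, xx v 1 = (v.1 + 1, v.2) := fun v => by rw [hxx]; simp
  have hx2 : ∀ v, xx v 2 = (v.1 + 2, v.2) := fun v => by rw [hxx]; simp
  have hquad : ∀ v ∈ G, Quad S ends O (a v) (b v) (c v) (d v) (xx v) := by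
    intro v hv
    have h1 := hDc v hv
    refine ⟨⟨(hae v hv).1, (v.1 - 1, v.2), hmO _ _ (by omega) (by omega)
      (hnH v hv _ (by omega) (by omega) (by omega)), by rw [hx0]; exact (hae v hv).2⟩,
      ⟨(hbe v hv).1, by rw [hx0, hx1]; exact (hbe v hv).2⟩,
      ⟨(hce v hv).1, by rw [hx2, hx1]; exact (hce v hv).2⟩,
      ⟨(hde v hv).1, (v.1 + 3, v.2), hmO _ _ (by omega) (by omega)
      (hnH v hv _ (by omega) (by omega) (by omega)), by rw [hx2]; exact (hde v hv).2⟩,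
      ?_, ?_, ?_, ?_⟩
    · rw [hxx, hxx, ne_eq, Prod.mk.injEq]
      simp
    · rw [hxx, hxx, ne_eq, Prod.mk.injEq]
      simp
    · rw [hxx, hxx, ne_eq, Prod.mk.injEq]
      simp
    · intro j h
      rw [hO] at h
      apply h.2
      rw [hH]
      have hj2 := j.2
      refine ⟨v, hv, ?_, ?_, ?_⟩
      · rw [hxx]
      · rw [hxx]
        exact Nat.le_add_right _ _
      · rw [hxx]
        exact Nat.add_le_add_left (Nat.le_of_lt_succ hj2) _
  have hxdis : ∀ v ∈ G, ∀ v' ∈ G, v ≠ v' → ∀ j j', xx v j ≠ xx v' j' := by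
    intro v hv v' hv' hne j j' h
    rw [hxx, hxx, Prod.mk.injEq] at h
    have h1 := hfarc v hv v' hv' hne
    have h2 := j.2
    have h3 := j'.2
    omega
  have hGO : (rect 0 0 (w + 1) (w + 1)).ncard ≤ O.ncard + 3 * G.card := by
    have h1 : rect 0 0 (w + 1) (w + 1) ⊆ O ∪ ((G.biUnion fun v =>
        {xx v 0, xx v 1, xx v 2} : Finset (ℕ × ℕ)) : Set (ℕ × ℕ)) := by
      rintro ⟨x, y⟩ hv
      by_cases h : (x, y) ∈ H
      · right
        obtain ⟨v, hv, h1, h2, h3⟩ := (hH _).1 h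
        simp only at h1 h2 h3
        rw [Finset.mem_coe, Finset.mem_biUnion]
        refine ⟨v, hv, ?_⟩
        rw [Finset.mem_insert, Finset.mem_insert, Finset.mem_singleton, hx0, hx1, hx2]
        have h4 : x = v.1 ∨ x = v.1 + 1 ∨ x = v.1 + 2 := by omega
        rcases h4 with rfl | rfl | rfl
        · left; rw [h1]
        · right; left; rw [h1]
        · right; right; rw [h1]
      · left
        rw [hO]
        exact ⟨hv, h⟩
    have h2 := Set.ncard_le_ncard h1 (hOf.union (Finset.finite_toSet _))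
    have h3 := Set.ncard_union_le O ((G.biUnion fun v =>
        {xx v 0, xx v 1, xx v 2} : Finset (ℕ × ℕ)) : Set (ℕ × ℕ))
    rw [Set.ncard_coe_finset] at h3
    have h4 : (G.biUnion fun v => ({xx v 0, xx v 1, xx v 2} : Finset (ℕ × ℕ))).card ≤
        G.card * 3 := Finset.card_biUnion_le_card_mul _ _ 3 (fun v _ => Finset.card_le_three)
    omega
  -- the start
  have h0 : O.ncard + 3 * G.card ≤ rk P (ins S ends O ∪
      ((G.biUnion fun v => {c v, d v} : Finset α) : Set α) ∪ (B : Set α)) := by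
    have h1 := rk_loc_ge hB hF hOf G xx (fun v => {c v, d v}) (fun v hv => (hquad v hv).out)
      hxdis (by
        intro v hv e he
        rw [Finset.mem_insert, Finset.mem_singleton] at he
        exact (hquad v hv).facts.1 e (by tauto)) (by
        intro v hv
        obtain ⟨g0, gab, gac, gad, gbc, gbd, gcd, g1, g2, g3, g4, g5, g6⟩ := (hquad v hv).facts
        exact ori_two (hquad v hv).x12 g4 g6 gcd)
    have h2 : ∑ v ∈ G, ({c v, d v} : Finset α).card = G.card * 2 := by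
      rw [Finset.sum_congr rfl (g := fun _ => 2), Finset.sum_const, smul_eq_mul]
      intro v hv
      obtain ⟨g0, gab, gac, gad, gbc, gbd, gcd, _⟩ := (hquad v hv).facts
      exact Finset.card_pair gcd
    rw [h2] at h1
    have h3 : ins S ends O ∪ ((G.biUnion fun v => {c v, d v} : Finset α) : Set α) ⊆
        ins S ends (G : Set (ℕ × ℕ))ᶜ := by
      rintro e (he | he)
      · refine ⟨he.1, fun u hu huG => ?_⟩
        have h4 := he.2 u hu
        rw [hO] at h4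
        exact h4.2 ((hH _).2 ⟨u, huG, rfl, le_rfl, by omega⟩)
      · obtain ⟨v, hv, he⟩ := Finset.mem_biUnion.1 (Finset.mem_coe.1 he)
        have key : ∀ k, 1 ≤ k → k ≤ 3 → (v.1 + k, v.2) ∉ (G : Set (ℕ × ℕ)) := by
          intro k hk1 hk2 hmem
          have hne : v ≠ (v.1 + k, v.2) := by
            intro h
            have := congrArg Prod.fst h
            simp only at this
            omega
          have := hfarc v hv _ hmem hne
          simp only at this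
          omega
        rw [Finset.mem_insert, Finset.mem_singleton] at he
        rcases he with rfl | rfl
        · refine ⟨(hce v hv).1, fun u hu => ?_⟩
          rw [(hce v hv).2, Sym2.mem_iff] at hu
          rcases hu with rfl | rfl
          · exact key 1 le_rfl (by omega)
          · exact key 2 (by omega) (by omega)
        · refine ⟨(hde v hv).1, fun u hu => ?_⟩
          rw [(hde v hv).2, Sym2.mem_iff] at hu
          rcases hu with rfl | rfl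
          · exact key 2 (by omega) (by omega)
          · exact key 3 (by omega) le_rfl
    have h4 := skew_mono hvis.ge h3
    omega
  obtain ⟨L, hL, hLr⟩ := four_modes hB hF hOf G a b c d xx hquad hxdis (B : Set α) h0
  -- the types
  have hty : ∀ v : ℕ × ℕ, ∃ (τ : Fin 5) (X : ℕ), v ∈ G →
      (sg (tyA τ) (tyM w τ) X = v.1 ∧ sg (tyA τ) (tyM w τ) (X + 1) = v.1 + 2 ∧
        L v = {b v, d v}) ∨
      (sg (tyA τ) (tyM w τ) X = v.1 + 1 ∧ sg (tyA τ) (tyM w τ) (X + 1) = v.1 + 3 ∧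
        L v = {a v, c v}) ∨
      (sg (tyA τ) (tyM w τ) X = v.1 ∧ sg (tyA τ) (tyM w τ) (X + 1) = v.1 + 3 ∧
        L v = {b v, c v}) := by
    intro v
    by_cases hv : v ∈ G
    · have h1 := hDc v hv
      rcases hL v hv with h | h | h
      · obtain ⟨τ, X, h2, h3⟩ := exists_type (w := w) (x := v.1) (l := 2) (by omega) (by omega)
          (Or.inl rfl)
        exact ⟨τ, X, fun _ => Or.inl ⟨h2, h3, h⟩⟩
      · obtain ⟨τ, X, h2, h3⟩ := exists_type (w := w) (x := v.1 + 1) (l := 2) (by omega) (by omega)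
          (Or.inl rfl)
        exact ⟨τ, X, fun _ => Or.inr (Or.inl ⟨h2, h3, h⟩)⟩
      · obtain ⟨τ, X, h2, h3⟩ := exists_type (w := w) (x := v.1) (l := 3) (by omega) (by omega)
          (Or.inr rfl)
        exact ⟨τ, X, fun _ => Or.inr (Or.inr ⟨h2, h3, h⟩)⟩
    · exact ⟨0, 0, fun h => absurd h hv⟩
  choose τv Xv hXv using hty
  -- the classes
  obtain ⟨h8, hh8⟩ : ∃ h8, h8 = (w + 1) / 8 := ⟨_, rfl⟩
  have hfib := Finset.exists_lt_card_fiber_of_mul_lt_card_of_maps_to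
    (s := G) (t := (Finset.univ : Finset (Fin 5)) ×ˢ Finset.range 10)
    (f := fun v => (τv v, (v.2 - (D₀ + 2)) / h8)) (n := K₀) (by
      intro v hv
      have h1 := hDc v hv
      rw [Finset.mem_product, Finset.mem_range]
      refine ⟨Finset.mem_univ _, ?_⟩
      apply Nat.div_lt_of_lt_mul
      omega) (by
      rw [Finset.card_product, Finset.card_range, Finset.card_univ, Fintype.card_fin]
      omega)
  obtain ⟨⟨τ, χ⟩, hτχ, hfc⟩ := hfib
  rw [Finset.mem_product, Finset.mem_range] at hτχ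
  obtain ⟨J₀, hJ₀, hJ₀c⟩ := Finset.exists_subset_card_eq hfc.le
  have hJG : ∀ v ∈ J₀, v ∈ G ∧ τv v = τ ∧ (v.2 - (D₀ + 2)) / h8 = χ := by
    intro v hv
    have h1 := Finset.mem_filter.1 (hJ₀ hv)
    rw [Prod.mk.injEq] at h1
    exact ⟨h1.1, h1.2.1, h1.2.2⟩
  obtain ⟨n, hn⟩ : ∃ n, n = nb5 (tyA τ) (tyM w τ) w := ⟨_, rfl⟩
  obtain ⟨sgt, hsgt⟩ : ∃ sgt : ℕ → ℕ, sgt = sg (tyA τ) (tyM w τ) := ⟨_, rfl⟩
  have hty2 := ty_ok (w := w) (by omega) τ
  have hblk := blk_sg hty2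
  obtain ⟨hst, hS's, hbq, hgq⟩ := hq τ
  rw [← hn, ← hsgt] at hst hS's hbq hgq hblk
  have hXc : ∀ v ∈ J₀, (sgt (Xv v) = v.1 ∧ sgt (Xv v + 1) = v.1 + 2 ∧ L v = {b v, d v}) ∨
      (sgt (Xv v) = v.1 + 1 ∧ sgt (Xv v + 1) = v.1 + 3 ∧ L v = {a v, c v}) ∨
      (sgt (Xv v) = v.1 ∧ sgt (Xv v + 1) = v.1 + 3 ∧ L v = {b v, c v}) := by
    intro v hv
    have h1 := hXv v (hJG v hv).1
    rw [(hJG v hv).2.1, ← hsgt] at h1
    exact h1
  have hXs : ∀ v ∈ J₀, sg (tyA τ) (tyM w τ) (Xv v) = v.1 ∨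
      sg (tyA τ) (tyM w τ) (Xv v) = v.1 + 1 := by
    intro v hv
    rw [← hsgt]
    rcases hXc v hv with h | h | h
    · exact Or.inl h.1
    · exact Or.inr h.1
    · exact Or.inl h.1
  have hpos : ∀ v ∈ J₀, D ≤ 3 * Xv v ∧ 3 * Xv v + D ≤ 3 * n + 1 ∧ Xv v + 1 < n := by
    intro v hv
    have h1 := hDc v (hJG v hv).1
    rw [hn]
    exact sg_pos hty2 (hXs v hv) h1.1 h1.2.2.1 (by omega)
  have hXfar : ∀ v ∈ J₀, ∀ v' ∈ J₀, v ≠ v' → 6 ≤ sd (Xv v, v.2) (Xv v', v'.2) := by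
    intro v hv v' hv' hne
    unfold sd
    simp only
    rcases hfarc v (hJG v hv).1 v' (hJG v' hv').1 hne with h | h | h | h
    · have := sg_far (hXs v hv) (hXs v' hv') h (by omega)
      omega
    · have := sg_far (hXs v' hv') (hXs v hv) h (by omega)
      omega
    · omega
    · omega
  obtain ⟨J, hJ⟩ : ∃ J, J = J₀.image (fun v => (Xv v, v.2)) := ⟨_, rfl⟩
  have hJm : ∀ u, u ∈ J ↔ ∃ v ∈ J₀, (Xv v, v.2) = u := by
    intro u
    rw [hJ, Finset.mem_image]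
  have hJc : J.card = K₀ := by
    rw [hJ, Finset.card_image_of_injOn, hJ₀c]
    intro v hv v' hv' he
    by_contra hne
    have h1 := hXfar v hv v' hv' hne
    simp only at he
    rw [he] at h1
    unfold sd at h1
    simp at h1
  have hJr : (J : Set (ℕ × ℕ)) ⊆ rect 0 0 n (w + 1) := by
    intro u hu
    obtain ⟨v, hv, rfl⟩ := (hJm u).1 hu
    have h1 := hpos v hv
    have h2 := hDc v (hJG v hv).1
    rw [Gad.mem_rct]
    simp only
    omega
  obtain ⟨Z, hZ⟩ : ∃ Z, Z = ζ τ '' lvs (rect 0 0 (w + 1) (w + 1)) (rB n (fun _ => sgt))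
    (cB (fun _ => sgt)) := ⟨_, rfl⟩
  obtain ⟨Y, hY⟩ : ∃ Y, Y = YJ (S' τ) ends w n (fun _ => sgt) (ζ τ) (J : Set (ℕ × ℕ)) := ⟨_, rfl⟩
  have hYZ : Y = ins (S' τ) (fun e => (ends e).map (rB n (fun _ => sgt)))
      (J : Set (ℕ × ℕ))ᶜ ∪ Z := by
    rw [hY, hZ]
    rfl
  -- the quotient without the blocks is full
  obtain ⟨F', hF'⟩ := full_holes (S := S' τ) (ends := fun e => (ends e).map (rB n (fun _ => sgt)))
    (a := n) (b := w + 1) (T := (J : Set (ℕ × ℕ)))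
    (fun p q hpq hp hq' => hgq.surj p q hpq hp.1 hq'.1) (by
      have h1 := hblk.e3 0 (Nat.zero_le _)
      have h2 := (sg_bd (tyA τ) (tyM w τ) (n - 1)).2
      rw [← hsgt] at h2
      omega) (by omega) (by
      intro u hu
      obtain ⟨v, hv, rfl⟩ := (hJm u).1 hu
      have h1 := hpos v hv
      have h2 := hDc v (hJG v hv).1
      simp only
      omega) (by
      intro t₁ ht₁ t₂ ht₂ t₃ _ hne _ _ hsd _ _
      obtain ⟨v, hv, rfl⟩ := (hJm t₁).1 ht₁
      obtain ⟨v', hv', rfl⟩ := (hJm t₂).1 ht₂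
      have hvv : v ≠ v' := fun h => hne (by rw [h])
      have := hXfar v hv v' hv' hvv
      omega)
  have hspan := hst.span hB (rect_finite _ _ _ _) (wall_end hW) hS's
    ((rect_finite 0 0 n (w + 1)).subset sdiff_subset) hF'
  rw [← hZ] at hspan
  have hF'Y : F' ∪ Z ⊆ Y := by
    rw [hYZ]
    refine union_subset_union_left _ ?_
    intro e he
    exact ⟨(hF'.1 he).1, fun v hv => ((hF'.1 he).2 v hv).2⟩
  -- elements without ends in the blocks
  have hout : ∀ e ∈ S, (∀ p ∈ ends e, ∀ v ∈ J₀, ¬ (p.2 = v.2 ∧ sgt (Xv v) ≤ p.1 ∧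
      p.1 < sgt (Xv v + 1))) → e ∈ P.closure Y := by
    intro e he hp
    refine P.closure_subset_closure hF'Y (hspan ⟨he, ?_⟩)
    rintro ⟨x, y⟩ hpe
    have hpw := wall_end hW e he _ hpe
    rw [mem_wall] at hpw
    obtain ⟨X, hX, h1, h2⟩ := hblk.rB_spec hpw.2 hpw.1
    rw [mem_preimage, h1]
    refine ⟨by rw [Gad.mem_rct]; simp only; omega, fun h3 => ?_⟩
    obtain ⟨v, hv, h4⟩ := (hJm _).1 h3
    rw [Prod.mk.injEq] at h4
    have h5 := hpos v hv
    refine hp _ hpe v hv ⟨h4.2.symm, ?_, ?_⟩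
    · rw [h4.1]; exact h2.2.1
    · rw [h4.1]
      rcases h2.2.2 with h6 | h6
      · exact h6
      · omega
  have hinn : ∀ v ∈ J₀, ∀ e ∈ S, ∀ x, ends e = s((x, v.2), (x + 1, v.2)) → sgt (Xv v) ≤ x →
      x + 1 < sgt (Xv v + 1) → e ∈ P.closure Y := by
    intro v hv e he x hee h1 h2
    have h3 := hDc v (hJG v hv).1
    have h4 := hpos v hv
    have h5 : sgt (Xv v + 1) ≤ v.1 + 3 := by
      rcases hXc v hv with h | h | h <;> omega
    have h6 := hblk.inner hW hst he (x := x) (y := v.2) (X := Xv v) (by omega) (by omega) hee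
      ⟨by omega, h1, Or.inl (by simp only; omega)⟩ ⟨by omega, by simp only; omega,
        Or.inl (by simp only; omega)⟩
    rw [← hZ] at h6
    refine P.mem_closure_of_mem' ?_ (hB.sub he)
    rw [hYZ]
    exact Or.inr h6
  have hblkH : ∀ v ∈ J₀, ∀ x, sgt (Xv v) ≤ x → x < sgt (Xv v + 1) → (x, v.2) ∈ H := by
    intro v hv x h1 h2
    rw [hH]
    refine ⟨v, (hJG v hv).1, rfl, ?_⟩
    simp only
    rcases hXc v hv with h | h | h <;> omega
  -- ends near a vertex of the group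
  have hnear : ∀ v ∈ G, ∀ x, v.1 ≤ x + 1 → x ≤ v.1 + 3 → ∀ v' ∈ J₀,
      (v.2 = v'.2 ∧ sgt (Xv v') ≤ x ∧ x < sgt (Xv v' + 1)) → v' = v := by
    intro v hv x h1 h2 v' hv' ⟨h3, h4, h5⟩
    by_contra hne
    have h6 := hfarc v' (hJG v' hv').1 v hv hne
    have h7 := hXc v' hv'
    rcases h7 with h | h | h <;> omega
  have hTL : ins S ends O ∪ ((G.biUnion L : Finset α) : Set α) ⊆ P.closure Y := by
    rintro e (he | he)
    · refine hout e he.1 ?_
      rintro ⟨x, y⟩ hp v hv ⟨h1, h2, h3⟩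
      have h4 := he.2 _ hp
      rw [hO] at h4
      apply h4.2
      simp only at h1
      rw [h1]
      exact hblkH v hv x h2 h3
    · obtain ⟨v, hv, he⟩ := Finset.mem_biUnion.1 (Finset.mem_coe.1 he)
      have h1 := hDc v hv
      -- an element with ends (x, v.2), (x + 1, v.2)
      have hgen : ∀ e ∈ S, ∀ x, ends e = s((x, v.2), (x + 1, v.2)) → v.1 ≤ x + 1 → x ≤ v.1 + 2 →
          (v ∈ J₀ → (sgt (Xv v) ≤ x ∧ x + 1 < sgt (Xv v + 1)) ∨ (x + 1 < sgt (Xv v) ∨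
            sgt (Xv v + 1) ≤ x)) → e ∈ P.closure Y := by
        intro e he x hee h2 h3 h4
        by_cases hin : v ∈ J₀ ∧ (sgt (Xv v) ≤ x ∧ x + 1 < sgt (Xv v + 1))
        · exact hinn v hin.1 e he x hee hin.2.1 hin.2.2
        · refine hout e he ?_
          intro p hp v' hv' ⟨h5, h6, h7⟩
          rw [hee, Sym2.mem_iff] at hp
          have h8 : v' = v := by
            rcases hp with rfl | rfl
            · exact hnear v hv x h2 (by omega) v' hv' ⟨h5, h6, h7⟩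
            · exact hnear v hv (x + 1) (by omega) (by omega) v' hv' ⟨h5, h6, h7⟩
          subst h8
          have h9 := h4 hv'
          rcases h9 with h9 | h9
          · exact hin ⟨hv', h9⟩
          · rcases hp with rfl | rfl <;> simp only at h6 h7 <;> omega
      have ea : a v ∈ S ∧ ends (a v) = s((v.1 - 1, v.2), (v.1 - 1 + 1, v.2)) := by
        rw [Nat.sub_add_cancel (by omega)]
        exact hae v hv
      have eb := hbe v hv
      have ec := hce v hv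
      have ed := hde v hv
      by_cases hvJ : v ∈ J₀
      · rcases hXc v hvJ with ⟨g1, g2, g3⟩ | ⟨g1, g2, g3⟩ | ⟨g1, g2, g3⟩ <;>
          rw [g3, Finset.mem_insert, Finset.mem_singleton] at he <;> rcases he with rfl | rfl
        · exact hgen _ eb.1 v.1 eb.2 (by omega) (by omega) (fun _ => by omega)
        · exact hgen _ ed.1 (v.1 + 2) ed.2 (by omega) (by omega) (fun _ => by omega)
        · exact hgen _ ea.1 (v.1 - 1) ea.2 (by omega) (by omega) (fun _ => by omega)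
        · exact hgen _ ec.1 (v.1 + 1) ec.2 (by omega) (by omega) (fun _ => by omega)
        · exact hgen _ eb.1 v.1 eb.2 (by omega) (by omega) (fun _ => by omega)
        · exact hgen _ ec.1 (v.1 + 1) ec.2 (by omega) (by omega) (fun _ => by omega)
      · rcases hL v hv with g3 | g3 | g3 <;>
          rw [g3, Finset.mem_insert, Finset.mem_singleton] at he <;> rcases he with rfl | rfl
        · exact hgen _ eb.1 v.1 eb.2 (by omega) (by omega) (fun h => absurd h hvJ)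
        · exact hgen _ ed.1 (v.1 + 2) ed.2 (by omega) (by omega) (fun h => absurd h hvJ)
        · exact hgen _ ea.1 (v.1 - 1) ea.2 (by omega) (by omega) (fun h => absurd h hvJ)
        · exact hgen _ ec.1 (v.1 + 1) ec.2 (by omega) (by omega) (fun h => absurd h hvJ)
        · exact hgen _ eb.1 v.1 eb.2 (by omega) (by omega) (fun h => absurd h hvJ)
        · exact hgen _ ec.1 (v.1 + 1) ec.2 (by omega) (by omega) (fun h => absurd h hvJ)
  -- the rank
  have hYE : Y ⊆ P.E := by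
    rw [hYZ]
    rintro e (he | he)
    · exact hB.sub (hS's he.1).1
    · rw [hZ] at he
      exact hB.sub (hst.sub he)
  have hYB : (rect 0 0 (w + 1) (w + 1)).ncard ≤ rk P (Y ∪ (B : Set α)) := by
    refine hGO.trans (hLr.trans ?_)
    rw [← rk_closure (Y ∪ (B : Set α))]
    refine rk_mono P (union_subset ?_ ?_)
    · exact hTL.trans (P.closure_subset_closure subset_union_left)
    · exact fun e he => P.mem_closure_of_mem' (Or.inr he) (hBE he)
  have hYr := hblk.rk_le hB hst hS's hbq hgq J hJr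
  rw [← hZ, ← hYZ, hJc] at hYr
  obtain ⟨Ba, hBa, hBac, hBar⟩ := pick hBE K₀ Y hYE (by omega)
  refine ⟨τ, χ, J, Ba, hτχ.2, hJc, hBa, hBac, ?_, ?_⟩
  · intro u hu
    obtain ⟨v, hv, rfl⟩ := (hJm u).1 hu
    exact ⟨v, (hJG v hv).1, rfl, hXs v hv, by rw [← hh8]; exact (hJG v hv).2.2⟩
  · rw [← hn, ← hsgt, ← hY]
    exact hBar

end DA
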