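import Pool.Agent.DA.Holes
import Pool.Agent.DA.CfgE
import Pool.Agent.DA.GDefs
import Pool.Agent.GL.NearH
import Pool.Agent.BICS.Asm

/-!
# Families of elements with locations in far apart squares
-/

open Set BIC BICS
open scoped Matroid

namespace DA

open Gad

/-- Elements `z t` whose locations are in the squares with corners `Qs t`. -/
structure Fam {α ι : Type*} (P : Matroid α) (S : Set α) (ends : α → Sym2 (ℕ × ℕ)) (X : ℕ × ℕ)
    (n L δ : ℕ) (z : ι → α) (Qs : ι → Finset (ℕ × ℕ)) : Prop where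
  bic : Bic P S ends
  grd : CWL.GrdU S ends (rect X.1 X.2 n n)
  zc : ∀ t, z t ∈ P.closure S ∧ z t ∉ S
  ne : ∀ t, (Qs t).Nonempty
  dis : ∀ t t', t ≠ t' → Disjoint (Qs t) (Qs t')
  far : ∀ t, ∀ c ∈ Qs t, ∀ t', ∀ c' ∈ Qs t', c ≠ c' → CWL.Far δ c L c' L
  bd : ∀ t, ∀ c ∈ Qs t, X.1 + δ ≤ c.1 ∧ X.2 + δ ≤ c.2 ∧ c.1 + L + δ ≤ X.1 + n ∧
    c.2 + L + δ ≤ X.2 + n
  loc : ∀ t, CWL.Loc P S ends (z t) ⊆ hls (Qs t) L
  inn : ∀ t, ∀ c ∈ Qs t, ∀ v ∈ CWL.Loc P S ends (z t) ∩ rect c.1 c.2 L L, Inn c L v.1 v.2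

section

variable {α ι : Type*} {P : Matroid α} {S : Set α} {ends : α → Sym2 (ℕ × ℕ)} {X : ℕ × ℕ}
  {n L δ : ℕ} {z : ι → α} {Qs : ι → Finset (ℕ × ℕ)}

theorem Fam.reduce [P.Finite] [Fintype ι] [DecidableEq ι] [Nonempty ι] [Nonempty α]
    (h : Fam P S ends X n L δ z Qs) (hδ : 10 ≤ δ) (hL : 2 ≤ L) (τ : ι → ℕ × ℕ → ℕ)
    (s : ι → ℕ × ℕ → ℕ → ℕ × ℕ)
    (hok : ∀ t, ∀ c ∈ Qs t, Ok c L (τ t c) (CWL.Loc P S ends (z t) ∩ rect c.1 c.2 L L) (s t c)) :
    ∃ F : Set α, Elim S ends (hls (Finset.univ.biUnion Qs) L) F ∧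
      CWL.GrdU (ins S ends (hls (Finset.univ.biUnion Qs) L)ᶜ) ends
        (rect X.1 X.2 n n \ hls (Finset.univ.biUnion Qs) L) ∧
      ∀ t, CWL.Loc (P ／ F) (ins S ends (hls (Finset.univ.biUnion Qs) L)ᶜ) ends (z t) =
          {w | ∃ c ∈ Qs t, ∃ i < τ t c, fo c L i (s t c i) = w} ∧
        z t ∈ (P ／ F).closure (ins S ends (hls (Finset.univ.biUnion Qs) L)ᶜ) ∧
        z t ∉ ins S ends (hls (Finset.univ.biUnion Qs) L)ᶜ := by
  classical
  have hown : ∀ c : ℕ × ℕ, ∃ t : ι, c ∈ Finset.univ.biUnion Qs → c ∈ Qs t := by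
    intro c
    by_cases hc : c ∈ Finset.univ.biUnion Qs
    · obtain ⟨t, _, ht⟩ := Finset.mem_biUnion.1 hc
      exact ⟨t, fun _ => ht⟩
    · exact ⟨Classical.arbitrary ι, fun h => absurd h hc⟩
  choose own hown using hown
  have hownt : ∀ t, ∀ c ∈ Qs t, own c = t := by
    intro t c hc
    by_contra hne
    have h1 := hown c (Finset.mem_biUnion.2 ⟨t, Finset.mem_univ _, hc⟩)
    exact Finset.disjoint_left.1 (h.dis _ _ hne) h1 hc
  have hfar : ∀ q ∈ Finset.univ.biUnion Qs, ∀ q' ∈ Finset.univ.biUnion Qs, q ≠ q' →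
      CWL.Far 10 q L q' L := by
    intro q hq q' hq' hne
    have h1 := h.far _ q (hown q hq) _ q' (hown q' hq') hne
    unfold CWL.Far at h1 ⊢
    omega
  obtain ⟨F, h1, h2, h3⟩ := clean_all h.bic h.grd (Finset.univ.biUnion Qs) hL hfar (by
      intro q hq
      have h1 := h.bd _ q (hown q hq)
      omega) (fun c => τ (own c) c) (fun c => s (own c) c) (by
      intro q hq
      exact (hok _ q (hown q hq)).1)
  refine ⟨F, h1, h2, fun t => ?_⟩
  have hsub : Qs t ⊆ Finset.univ.biUnion Qs := fun c hc =>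
    Finset.mem_biUnion.2 ⟨t, Finset.mem_univ _, hc⟩
  have h4 := h3 (z t) (h.zc t).1 (h.zc t).2 (Qs t) hsub (h.ne t) (h.loc t) (by
    intro q hq i hi
    simp only [hownt t q hq] at hi ⊢
    obtain ⟨g1, g2⟩ := hok t q hq
    obtain ⟨g3, g4⟩ := g2 i hi
    refine ⟨g3.1, fun j hj1 hj2 hcon => ?_⟩
    obtain ⟨q', hq', g5⟩ := mem_hls.1 (h.loc t hcon)
    by_cases hne : q = q'
    · subst hne
      exact g4 j hj1 hj2 ⟨hcon, by rw [Gad.mem_rct]; exact g5⟩
    · have g6 := h.far t q hq t q' hq' hne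
      have g7 := h.bd t q hq
      have g8 := xp_mem_Iic (i := i) (by have := g1.t3; omega) (by omega) (g1.inn i hi)
        (v := xp i (s t q i) j) ⟨j, hj2, rfl⟩
      obtain ⟨k1, k2, k3, k4⟩ := g1.inn i hi
      unfold CWL.Far at g6
      omega)
  obtain ⟨h5, h6, h7⟩ := h4
  refine ⟨?_, h6, h7⟩
  rw [h5]
  ext w
  constructor
  · rintro ⟨c, hc, i, hi, rfl⟩
    simp only [hownt t c hc] at hi ⊢
    exact ⟨c, hc, i, hi, rfl⟩
  · rintro ⟨c, hc, i, hi, rfl⟩
    refine ⟨c, hc, i, ?_, ?_⟩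
    · simp only [hownt t c hc]; exact hi
    · simp only [hownt t c hc]

lemma con_minor {α : Type*} (P : Matroid α) (F : Set α) : P ／ F ≤m P := by
  have h := P.contract_delete_isMinor F ∅
  rwa [Matroid.delete_empty] at h

/-- The locations in one square, as a finset. -/
lemma lam_fin (c : ℕ × ℕ) (L : ℕ) (U : Set (ℕ × ℕ)) : (U ∩ rect c.1 c.2 L L).Finite :=
  (rect_finite _ _ _ _).subset inter_subset_right

lemma ok0 {c : ℕ × ℕ} {L : ℕ} {Λ : Set (ℕ × ℕ)} {s : ℕ → ℕ × ℕ} : Ok c L 0 Λ s :=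
  ⟨⟨by omega, fun i hi => absurd hi (by omega), fun h => absurd h (by omega),
    fun h => absurd h (by omega)⟩, fun i hi => absurd hi (by omega)⟩

lemma fo_foot0 {c : ℕ × ℕ} {s : ℕ × ℕ} (hs : Inn c L s.1 s.2) :
    s.2 - c.2 < L ∧ fo c L 0 s = CWL.foot L c 0 (s.2 - c.2) := by
  obtain ⟨h1, h2, h3, h4⟩ := hs
  refine ⟨by omega, ?_⟩
  change (c.1 - 1, s.2) = (c.1 - 1, c.2 + (s.2 - c.2))
  rw [Prod.mk.injEq]
  omega

lemma fo_foot1 {c : ℕ × ℕ} {s : ℕ × ℕ} (hs : Inn c L s.1 s.2) :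
    s.2 - c.2 < L ∧ fo c L 1 s = CWL.foot L c 1 (s.2 - c.2) := by
  obtain ⟨h1, h2, h3, h4⟩ := hs
  refine ⟨by omega, ?_⟩
  change (c.1 + L, s.2) = (c.1 + L, c.2 + (s.2 - c.2))
  rw [Prod.mk.injEq]
  omega

end

universe u

/-- **Class 3**: at least three squares for every element. -/
theorem cls_far {k : ℕ} (hrow : GlFarH.{u} k) (L : ℕ) (hL : 2 ≤ L) :
    ∃ m δ : ℕ, ∀ {α : Type u} (P : Matroid α) [P.Finite] (S : Set α)
      (ends : α → Sym2 (ℕ × ℕ)) (X : ℕ × ℕ) (n : ℕ) (z : Fin m → α)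
      (Qs : Fin m → Finset (ℕ × ℕ)), Fam P S ends X n L δ z Qs → (∀ t, 3 ≤ (Qs t).card) →
      (∀ t, ∀ c ∈ Qs t, (CWL.Loc P S ends (z t) ∩ rect c.1 c.2 L L).Nonempty) →
      HasUniformMinor P k := by
  classical
  obtain ⟨m₀, δ₀, hrow⟩ := hrow L (by omega)
  refine ⟨m₀ + 1, δ₀ + 10, ?_⟩
  intro α P _ S ends X n z Qs h h3 hhit
  have : Nonempty α := ⟨z 0⟩
  have hch : ∀ t, ∃ f : Fin 3 → ℕ × ℕ, (∀ i, f i ∈ Qs t) ∧ Function.Injective f := by
    intro t
    obtain ⟨a, ha, b, hb, c, hc, hab, hac, hbc⟩ := Finset.two_lt_card.1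
      (show 2 < (Qs t).card from h3 t)
    refine ⟨![a, b, c], ?_, ?_⟩
    · intro i
      fin_cases i
      · exact ha
      · exact hb
      · exact hc
    · intro i j hij
      fin_cases i <;> fin_cases j <;> simp at hij ⊢
      · exact hab hij
      · exact hac hij
      · exact hab hij.symm
      · exact hbc hij
      · exact hac hij.symm
      · exact hbc hij.symm
  choose f hf hfi using hch
  have hs : ∀ (t : Fin (m₀ + 1)) (c : ℕ × ℕ), ∃ s : ℕ → ℕ × ℕ, c ∈ Qs t →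
      Ok c L 1 (CWL.Loc P S ends (z t) ∩ rect c.1 c.2 L L) s := by
    intro t c
    by_cases hc : c ∈ Qs t
    · have h4 := h.bd t c hc
      obtain ⟨s, hs⟩ := ok1 (q := c) (L := L) (Λ := (lam_fin c L (CWL.Loc P S ends (z t))).toFinset)
        (by omega) (by
          intro v hv
          exact h.inn t c hc v (by simpa using hv)) (by
          obtain ⟨v, hv⟩ := hhit t c hc
          exact ⟨v, by simpa using hv⟩)
      rw [Set.Finite.coe_toFinset] at hs
      exact ⟨s, fun _ => hs⟩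
    · exact ⟨fun _ => c, fun h => absurd h hc⟩
  choose s hs using hs
  obtain ⟨F, h4, h5, h6⟩ := h.reduce (by omega) hL
    (fun t c => if c ∈ Set.range (f t) then 1 else 0) s (by
      intro t c hc
      by_cases hcr : c ∈ Set.range (f t)
      · simp only [if_pos hcr]; exact hs t c hc
      · simp only [if_neg hcr]; exact ok0)
  have hPF : (P ／ F).Finite := BQ.fin_contract F
  refine HasUniformMinor_mono (hrow (P ／ F) _ ends X n (Finset.univ.biUnion Qs)
    (h4.bic h.bic) h5 ?_ (fun t => z t.castSucc) (fun ti => f ti.1.castSucc ti.2) ?_ ?_ ?_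
    (fun t => (h6 _).2) ?_) (con_minor P F)
  · intro q hq q' hq' hne
    obtain ⟨t, _, ht⟩ := Finset.mem_biUnion.1 hq
    obtain ⟨t', _, ht'⟩ := Finset.mem_biUnion.1 hq'
    have h7 := h.far t q ht t' q' ht' hne
    unfold CWL.Far at h7 ⊢
    omega
  · intro ti
    exact Finset.mem_biUnion.2 ⟨_, Finset.mem_univ _, hf _ _⟩
  · rintro ⟨t, i⟩ ⟨t', i'⟩ heq
    simp only at heq
    have htt : t.castSucc = t'.castSucc := by
      by_contra hne
      exact Finset.disjoint_left.1 (h.dis _ _ hne) (hf t.castSucc i) (heq ▸ hf t'.castSucc i')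
    have ht : t = t' := Fin.castSucc_injective _ htt
    subst ht
    rw [Prod.mk.injEq]
    exact ⟨rfl, hfi _ heq⟩
  · intro ti
    have h7 := h.bd _ _ (hf ti.1.castSucc ti.2)
    omega
  · intro t
    have hin : ∀ i, Inn (f t.castSucc i) L (s t.castSucc (f t.castSucc i) 0).1
        (s t.castSucc (f t.castSucc i) 0).2 := fun i =>
      (hs _ _ (hf t.castSucc i)).1.inn 0 (by omega)
    refine ⟨_, (fo_foot0 (hin 0)).1, _, (fo_foot0 (hin 1)).1, _, (fo_foot0 (hin 2)).1, ?_⟩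
    simp only
    rw [(h6 t.castSucc).1, ← (fo_foot0 (hin 0)).2, ← (fo_foot0 (hin 1)).2, ← (fo_foot0 (hin 2)).2]
    ext w
    simp only [mem_ofPred_eq, mem_insert_iff, mem_singleton_iff]
    constructor
    · rintro ⟨c, hc, i, hi, rfl⟩
      by_cases hcr : c ∈ Set.range (f t.castSucc)
      · rw [if_pos hcr] at hi
        have hi0 : i = 0 := by omega
        subst hi0
        obtain ⟨j, rfl⟩ := hcr
        fin_cases j
        · exact Or.inl rfl
        · exact Or.inr (Or.inl rfl)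
        · exact Or.inr (Or.inr rfl)
      · rw [if_neg hcr] at hi
        omega
    · rintro (rfl | rfl | rfl)
      · exact ⟨_, hf _ 0, 0, by rw [if_pos ⟨0, rfl⟩]; omega, rfl⟩
      · exact ⟨_, hf _ 1, 0, by rw [if_pos ⟨1, rfl⟩]; omega, rfl⟩
      · exact ⟨_, hf _ 2, 0, by rw [if_pos ⟨2, rfl⟩]; omega, rfl⟩

/-- **Class 2**: two squares for every element, at least three locations. -/
theorem cls_mix {k : ℕ} (hrow : GlMixH3.{u} k) (L : ℕ) (hL : 2 ≤ L) :
    ∃ m δ : ℕ, ∀ {α : Type u} (P : Matroid α) [P.Finite] (S : Set α)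
      (ends : α → Sym2 (ℕ × ℕ)) (X : ℕ × ℕ) (n : ℕ) (z : Fin m → α)
      (Qs : Fin m → Finset (ℕ × ℕ)), Fam P S ends X n L δ z Qs → (∀ t, (Qs t).card = 2) →
      (∀ t, ∀ c ∈ Qs t, (CWL.Loc P S ends (z t) ∩ rect c.1 c.2 L L).Nonempty) →
      (∀ t, 3 ≤ (CWL.Loc P S ends (z t)).ncard) → HasUniformMinor P k := by
  classical
  obtain ⟨m₀, δ₀, hrow⟩ := hrow L (by omega)
  refine ⟨m₀ + 1, δ₀ + 10, ?_⟩
  intro α P _ S ends X n z Qs h h2 hhit h3
  have : Nonempty α := ⟨z 0⟩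
  set Λ : Fin (m₀ + 1) → ℕ × ℕ → Finset (ℕ × ℕ) := fun t c =>
    (lam_fin c L (CWL.Loc P S ends (z t))).toFinset with hΛ
  have hΛc : ∀ t c, (Λ t c : Set (ℕ × ℕ)) = CWL.Loc P S ends (z t) ∩ rect c.1 c.2 L L := by
    intro t c
    simp only [hΛ, Set.Finite.coe_toFinset]
  have hΛin : ∀ t, ∀ c ∈ Qs t, ∀ v ∈ Λ t c, Inn c L v.1 v.2 := by
    intro t c hc v hv
    refine h.inn t c hc v ?_
    rw [← hΛc]
    exact hv
  have hch : ∀ t, ∃ f : Fin 2 → ℕ × ℕ, (∀ i, f i ∈ Qs t) ∧ f 0 ≠ f 1 ∧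
      (∀ c ∈ Qs t, c = f 0 ∨ c = f 1) ∧ 2 ≤ (Λ t (f 0)).card := by
    intro t
    obtain ⟨a, b, hab, hQ⟩ := Finset.card_eq_two.1 (h2 t)
    have hsub : CWL.Loc P S ends (z t) ⊆ ((Λ t a ∪ Λ t b : Finset (ℕ × ℕ)) : Set (ℕ × ℕ)) := by
      intro v hv
      obtain ⟨c, hc, h4⟩ := mem_hls.1 (h.loc t hv)
      rw [hQ, Finset.mem_insert, Finset.mem_singleton] at hc
      rw [Finset.coe_union, hΛc, hΛc]
      rcases hc with rfl | rfl
      · exact Or.inl ⟨hv, by rw [Gad.mem_rct]; exact h4⟩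
      · exact Or.inr ⟨hv, by rw [Gad.mem_rct]; exact h4⟩
    have hcard : 3 ≤ (Λ t a).card + (Λ t b).card := by
      have h5 := Set.ncard_le_ncard hsub (Finset.finite_toSet _)
      rw [Set.ncard_coe_finset] at h5
      have h6 := Finset.card_union_le (Λ t a) (Λ t b)
      have h7 := h3 t
      omega
    have ha : a ∈ Qs t := by rw [hQ]; exact Finset.mem_insert_self _ _
    have hb : b ∈ Qs t := by rw [hQ]; exact Finset.mem_insert_of_mem (Finset.mem_singleton_self _)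
    by_cases h8 : 2 ≤ (Λ t a).card
    · refine ⟨![a, b], ?_, hab, ?_, h8⟩
      · intro i
        fin_cases i
        · exact ha
        · exact hb
      · intro c hc
        rw [hQ, Finset.mem_insert, Finset.mem_singleton] at hc
        exact hc
    · refine ⟨![b, a], ?_, hab.symm, ?_, ?_⟩
      · intro i
        fin_cases i
        · exact hb
        · exact ha
      · intro c hc
        rw [hQ, Finset.mem_insert, Finset.mem_singleton] at hc
        exact hc.symm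
      · change 2 ≤ (Λ t b).card
        omega
  choose f hf hfne hfall hf2 using hch
  have hs1 : ∀ t, ∃ s : ℕ → ℕ × ℕ, Ok (f t 1) L 1 (Λ t (f t 1)) s := by
    intro t
    have h4 := h.bd t _ (hf t 1)
    refine ok1 (by omega) (hΛin t _ (hf t 1)) ?_
    obtain ⟨v, hv⟩ := hhit t _ (hf t 1)
    rw [← hΛc] at hv
    exact ⟨v, hv⟩
  have hs0 : ∀ t, ∃ s : ℕ → ℕ × ℕ, Ok (f t 0) L 2 (Λ t (f t 0)) s := by
    intro t
    have h4 := h.bd t _ (hf t 0)
    exact ok2 (by omega) (hΛin t _ (hf t 0)) (hf2 t)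
  choose s1 hs1 using hs1
  choose s0 hs0 using hs0
  obtain ⟨F, h4, h5, h6⟩ := h.reduce (by omega) hL
    (fun t c => if c = f t 0 then 2 else 1) (fun t c => if c = f t 0 then s0 t else s1 t) (by
      intro t c hc
      by_cases hcr : c = f t 0
      · simp only [if_pos hcr]
        rw [← hΛc, hcr]
        exact hs0 t
      · simp only [if_neg hcr]
        have : c = f t 1 := (hfall t c hc).resolve_left hcr
        rw [← hΛc, this]
        exact hs1 t)
  have hPF : (P ／ F).Finite := BQ.fin_contract F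
  refine HasUniformMinor_mono (hrow (P ／ F) _ ends X n (Finset.univ.biUnion Qs)
    (h4.bic h.bic) h5 ?_ (fun t => z t.castSucc) (fun ti => f ti.1.castSucc ti.2) ?_ ?_ ?_
    (fun t => (h6 _).2) ?_) (con_minor P F)
  · intro q hq q' hq' hne
    obtain ⟨t, _, ht⟩ := Finset.mem_biUnion.1 hq
    obtain ⟨t', _, ht'⟩ := Finset.mem_biUnion.1 hq'
    have h7 := h.far t q ht t' q' ht' hne
    unfold CWL.Far at h7 ⊢
    omega
  · intro ti
    exact Finset.mem_biUnion.2 ⟨_, Finset.mem_univ _, hf _ _⟩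
  · rintro ⟨t, i⟩ ⟨t', i'⟩ heq
    simp only at heq
    have htt : t.castSucc = t'.castSucc := by
      by_contra hne
      exact Finset.disjoint_left.1 (h.dis _ _ hne) (hf t.castSucc i) (heq ▸ hf t'.castSucc i')
    have ht : t = t' := Fin.castSucc_injective _ htt
    subst ht
    rw [Prod.mk.injEq]
    refine ⟨rfl, ?_⟩
    fin_cases i <;> fin_cases i'
    · rfl
    · exact absurd heq (hfne _)
    · exact absurd heq.symm (hfne _)
    · rfl
  · intro ti
    have h7 := h.bd _ _ (hf ti.1.castSucc ti.2)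
    omega
  · intro t
    have g0 := (hs0 t.castSucc).1.inn 0 (by omega)
    have g1 := (hs0 t.castSucc).1.inn 1 (by omega)
    have g2 := (hs1 t.castSucc).1.inn 0 (by omega)
    refine ⟨_, (fo_foot0 g0).1, _, (fo_foot1 g1).1, _, (fo_foot0 g2).1, ?_⟩
    simp only
    rw [(h6 t.castSucc).1, ← (fo_foot0 g0).2, ← (fo_foot1 g1).2, ← (fo_foot0 g2).2]
    ext w
    simp only [mem_ofPred_eq, mem_insert_iff, mem_singleton_iff]
    constructor
    · rintro ⟨c, hc, i, hi, rfl⟩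
      by_cases hcr : c = f t.castSucc 0
      · rw [if_pos hcr] at hi ⊢
        rw [hcr]
        have hi0 : i = 0 ∨ i = 1 := by omega
        rcases hi0 with rfl | rfl
        · exact Or.inl rfl
        · exact Or.inr (Or.inl rfl)
      · rw [if_neg hcr] at hi ⊢
        have hi0 : i = 0 := by omega
        have : c = f t.castSucc 1 := (hfall _ c hc).resolve_left hcr
        rw [this, hi0]
        exact Or.inr (Or.inr rfl)
    · have hne := (hfne t.castSucc).symm
      rintro (rfl | rfl | rfl)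
      · exact ⟨_, hf _ 0, 0, by rw [if_pos rfl]; omega, by rw [if_pos rfl]⟩
      · exact ⟨_, hf _ 0, 1, by rw [if_pos rfl]; omega, by rw [if_pos rfl]⟩
      · exact ⟨_, hf _ 1, 0, by rw [if_neg hne]; omega, by rw [if_neg hne]⟩

/-- **Class 1**: one square for every element, three rays. -/
theorem cls_one (k L : ℕ) (hL : 2 ≤ L) :
    ∃ m δ : ℕ, ∀ {α : Type u} (P : Matroid α) [P.Finite] (S : Set α)
      (ends : α → Sym2 (ℕ × ℕ)) (X : ℕ × ℕ) (n : ℕ) (z : Fin m → α)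
      (q : Fin m → ℕ × ℕ), Fam P S ends X n L δ z (fun t => {q t}) →
      (∀ t, ∃ s, Ok (q t) L 3 (CWL.Loc P S ends (z t)) s) → HasUniformMinor P k := by
  classical
  obtain ⟨m₀, δ₀, hrow⟩ := glNear3.{u} k L (by omega)
  refine ⟨m₀ + 1, δ₀ + 10, ?_⟩
  intro α P _ S ends X n z q h hs
  have : Nonempty α := ⟨z 0⟩
  have hlr : ∀ t, CWL.Loc P S ends (z t) ∩ rect (q t).1 (q t).2 L L =
      CWL.Loc P S ends (z t) := by
    intro t
    refine inter_eq_left.2 fun v hv => ?_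
    obtain ⟨c, hc, h4⟩ := mem_hls.1 (h.loc t hv)
    rw [Finset.mem_singleton] at hc
    subst hc
    rw [Gad.mem_rct]
    exact h4
  choose s hs using hs
  obtain ⟨F, h4, h5, h6⟩ := h.reduce (by omega) hL (fun _ _ => 3) (fun t _ => s t) (by
      intro t c hc
      rw [Finset.mem_singleton] at hc
      subst hc
      rw [hlr]
      exact hs t)
  have hPF : (P ／ F).Finite := BQ.fin_contract F
  have hmem : ∀ t, q t ∈ ({q t} : Finset (ℕ × ℕ)) := fun t => Finset.mem_singleton_self _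
  refine HasUniformMinor_mono (hrow (P ／ F) _ ends X n _
    (h4.bic h.bic) h5 ?_ (fun t => z t.castSucc) (fun t => q t.castSucc) ?_ ?_ ?_
    (fun t => (h6 _).2) ?_) (con_minor P F)
  · intro q hq q' hq' hne
    obtain ⟨t, _, ht⟩ := Finset.mem_biUnion.1 hq
    obtain ⟨t', _, ht'⟩ := Finset.mem_biUnion.1 hq'
    have h7 := h.far t q ht t' q' ht' hne
    unfold CWL.Far at h7 ⊢
    omega
  · intro t
    exact Finset.mem_biUnion.2 ⟨_, Finset.mem_univ _, hmem _⟩
  · intro t t' heq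
    simp only at heq
    by_contra hne
    refine Finset.disjoint_left.1 (h.dis t.castSucc t'.castSucc
      (fun h => hne (Fin.castSucc_injective _ h))) (hmem _) ?_
    rw [heq]
    exact hmem _
  · intro t
    have h7 := h.bd t.castSucc _ (hmem _)
    omega
  · intro t
    have g0 := (hs t.castSucc).1.inn 0 (by omega)
    have g1 := (hs t.castSucc).1.inn 1 (by omega)
    have g2 := (hs t.castSucc).1.inn 2 (by omega)
    have hbd := h.bd t.castSucc _ (hmem _)
    rw [(h6 t.castSucc).1]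
    set c := q t.castSucc
    set σ := s t.castSucc
    obtain ⟨a1, a2, a3, a4⟩ := g0
    obtain ⟨b1, b2, b3, b4⟩ := g1
    obtain ⟨c1, c2, c3, c4⟩ := g2
    have e0 : ftD L (c.1 - 1) (c.2 - 1) 0 ((σ 0).2 - c.2) = fo c L 0 (σ 0) := by
      change (c.1 - 1, c.2 - 1 + 1 + ((σ 0).2 - c.2)) = (c.1 - 1, (σ 0).2)
      rw [Prod.mk.injEq]
      omega
    have e1 : ftD L (c.1 - 1) (c.2 - 1) 1 ((σ 1).2 - c.2) = fo c L 1 (σ 1) := by
      change (c.1 - 1 + 1 + L, c.2 - 1 + 1 + ((σ 1).2 - c.2)) = (c.1 + L, (σ 1).2)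
      rw [Prod.mk.injEq]
      omega
    have e2 : ftD L (c.1 - 1) (c.2 - 1) 2 ((σ 2).1 - c.1) = fo c L 2 (σ 2) := by
      change (c.1 - 1 + 1 + ((σ 2).1 - c.1), c.2 - 1 + 1 + L) = ((σ 2).1, c.2 + L)
      rw [Prod.mk.injEq]
      omega
    refine ⟨3, by omega, fun d => if d = 0 then (σ 0).2 - c.2 else if d = 1 then (σ 1).2 - c.2
      else (σ 2).1 - c.1, ?_, ?_⟩
    · intro d
      simp only
      split_ifs <;> omega
    · ext w
      simp only [mem_ofPred_eq]
      constructor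
      · rintro ⟨c', hc', i, hi, rfl⟩
        rw [Finset.mem_singleton] at hc'
        subst hc'
        have hi0 : i = 0 ∨ i = 1 ∨ i = 2 := by omega
        rcases hi0 with rfl | rfl | rfl
        · exact ⟨0, by omega, by omega, e0⟩
        · exact ⟨1, by omega, by omega, e1⟩
        · exact ⟨2, by omega, by omega, e2⟩
      · rintro ⟨d, hd, hd3, rfl⟩
        have hi0 : d = 0 ∨ d = 1 ∨ d = 2 := by omega
        rcases hi0 with rfl | rfl | rfl
        · exact ⟨c, hmem _, 0, by omega, e0.symm⟩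
        · exact ⟨c, hmem _, 1, by omega, e1.symm⟩
        · exact ⟨c, hmem _, 2, by omega, e2.symm⟩

end DA
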