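import Pool.Agent.GL.FarH
import Pool.Agent.DA.GDefs

/-!
# Rows C3 and A3 of the general gadget lemma
-/

namespace DA

universe u

theorem glMixH3 (k : ℕ) : GlMixH3.{u} k := CWL.glMixH3.{u} k

theorem glFarH (k : ℕ) : GlFarH.{u} k := Gad.glFarH3.{u} k

end DA
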