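import Pool.Agent.DA.Reduce
import Pool.Agent.DA.Rows77
import Pool.Agent.CW.Cluster

/-!
# The general gadget lemma
-/

open Set BIC BICS
open scoped Matroid

namespace DA

open Gad

universe u

section

variable {α ι : Type*} {P : Matroid α} {S : Set α} {ends : α → Sym2 (ℕ × ℕ)} {X : ℕ × ℕ}
  {n L δ : ℕ} {z : ι → α}

lemma inn_swap {q : ℕ × ℕ} {v : ℕ × ℕ} (h : Inn q L v.1 v.2) :
    Inn q.swap L v.swap.1 v.swap.2 := by
  unfold Inn at h ⊢
  simp only [Prod.fst_swap, Prod.snd_swap]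
  omega

/-- Transposition of a family with one square for every element. -/
lemma Fam.tr {q : ι → ℕ × ℕ} (h : Fam P S ends X n L δ z (fun t => {q t})) :
    Fam P S (trE ends) X.swap n L δ z (fun t => {(q t).swap}) where
  bic := bic_trE h.bic
  grd := by
    have h1 := grdU_trE h.grd
    rw [rect_swap] at h1
    exact h1
  zc := h.zc
  ne := fun t => Finset.singleton_nonempty _
  dis := by
    intro t t' hne
    rw [Finset.disjoint_singleton]
    intro heq
    have h1 := h.dis t t' hne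
    rw [Finset.disjoint_singleton] at h1
    exact h1 (Prod.swap_injective heq)
  far := by
    intro t c hc t' c' hc' hne
    rw [Finset.mem_singleton] at hc hc'
    subst hc
    subst hc'
    exact far_swap (h.far t _ (Finset.mem_singleton_self _) t' _ (Finset.mem_singleton_self _)
      (fun h => hne (by rw [h])))
  bd := by
    intro t c hc
    rw [Finset.mem_singleton] at hc
    subst hc
    have h1 := h.bd t _ (Finset.mem_singleton_self _)
    simp only [Prod.fst_swap, Prod.snd_swap]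
    omega
  loc := by
    intro t v hv
    rw [loc_trE, mem_preimage] at hv
    obtain ⟨c, hc, h1⟩ := mem_hls.1 (h.loc t hv)
    rw [Finset.mem_singleton] at hc
    subst hc
    refine mem_hls.2 ⟨_, Finset.mem_singleton_self _, ?_⟩
    simp only [Prod.fst_swap, Prod.snd_swap] at h1 ⊢
    omega
  inn := by
    intro t c hc v hv
    rw [Finset.mem_singleton] at hc
    subst hc
    rw [loc_trE] at hv
    have h1 := h.inn t (q t) (Finset.mem_singleton_self _) v.swap ⟨hv.1, by
      have h2 := hv.2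
      rw [Gad.mem_rct] at h2 ⊢
      simp only [Prod.fst_swap, Prod.snd_swap] at h2 ⊢
      omega⟩
    exact inn_swap h1

/-- Restriction of a family. -/
lemma Fam.comp {κ : Type*} {Qs : ι → Finset (ℕ × ℕ)} (h : Fam P S ends X n L δ z Qs)
    (g : κ → ι) (hg : Function.Injective g) : Fam P S ends X n L δ (z ∘ g) (Qs ∘ g) where
  bic := h.bic
  grd := h.grd
  zc := fun t => h.zc _
  ne := fun t => h.ne _
  dis := fun t t' hne => h.dis _ _ (fun h => hne (hg h))
  far := fun t c hc t' c' hc' hne => h.far _ c hc _ c' hc' hne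
  bd := fun t c hc => h.bd _ c hc
  loc := fun t => h.loc _
  inn := fun t c hc v hv => h.inn _ c hc v hv

lemma Fam.mono {Qs : ι → Finset (ℕ × ℕ)} {δ' : ℕ} (h : Fam P S ends X n L δ z Qs)
    (hd : δ' ≤ δ) : Fam P S ends X n L δ' z Qs where
  bic := h.bic
  grd := h.grd
  zc := h.zc
  ne := h.ne
  dis := h.dis
  far := by
    intro t c hc t' c' hc' hne
    have h1 := h.far t c hc t' c' hc' hne
    unfold CWL.Far at h1 ⊢
    omega
  bd := by
    intro t c hc
    have h1 := h.bd t c hc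
    omega
  loc := h.loc
  inn := h.inn

end

/-- One scale: a family with at least three locations for every element. -/
theorem fam_hum (k L : ℕ) (hL : 2 ≤ L) :
    ∃ m δ : ℕ, ∀ {α : Type u} (P : Matroid α) [P.Finite] (S : Set α)
      (ends : α → Sym2 (ℕ × ℕ)) (X : ℕ × ℕ) (n : ℕ) (z : Fin m → α)
      (Qs : Fin m → Finset (ℕ × ℕ)), Fam P S ends X n L δ z Qs →
      (∀ t, ∀ c ∈ Qs t, (CWL.Loc P S ends (z t) ∩ rect c.1 c.2 L L).Nonempty) →
      (∀ t, 3 ≤ (CWL.Loc P S ends (z t)).ncard) → HasUniformMinor P k := by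
  classical
  obtain ⟨m₁, δ₁, h₁⟩ := cls_one.{u} k L hL
  obtain ⟨m₂, δ₂, h₂⟩ := cls_mix.{u} (glMixH3 k) L hL
  obtain ⟨m₃, δ₃, h₃⟩ := cls_far.{u} (glFarH k) L hL
  obtain ⟨m₀, hm₀⟩ : ∃ m₀, m₀ = m₁ + m₂ + m₃ := ⟨_, rfl⟩
  refine ⟨4 * m₀ + 4, δ₁ + δ₂ + δ₃ + 1, ?_⟩
  intro α P _ S ends X n z Qs h hhit h3
  -- the class of an element
  set cl : Fin (4 * m₀ + 4) → ℕ := fun t =>
    if 3 ≤ (Qs t).card then 3 else if (Qs t).card = 2 then 2 else
      if ∃ q s, Qs t = {q} ∧ Ok q L 3 (CWL.Loc P S ends (z t)) s then 1 else 0 with hcl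
  obtain ⟨y, hy, hyc⟩ := Finset.exists_le_card_fiber_of_mul_le_card_of_maps_to
    (s := (Finset.univ : Finset (Fin (4 * m₀ + 4)))) (t := Finset.range 4) (f := cl) (n := m₀)
    (by
      intro t _
      rw [Finset.mem_range]
      simp only [hcl]
      split_ifs <;> omega)
    ⟨0, by simp⟩ (by
      rw [Finset.card_range, Finset.card_univ, Fintype.card_fin]
      omega)
  have hemb : ∀ m ≤ m₀, ∃ g : Fin m → Fin (4 * m₀ + 4), Function.Injective g ∧
      ∀ i, cl (g i) = y := by
    intro m hm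
    have hc : Fintype.card (Fin m) ≤ Fintype.card {t // cl t = y} := by
      rw [Fintype.card_fin, Fintype.card_subtype]
      omega
    obtain ⟨emb⟩ := Function.Embedding.nonempty_of_card_le hc
    exact ⟨fun i => (emb i).1, fun i j hij => emb.injective (Subtype.ext hij),
      fun i => (emb i).2⟩
  rw [Finset.mem_range] at hy
  have hy' : y = 3 ∨ y = 2 ∨ y = 1 ∨ y = 0 := by omega
  rcases hy' with rfl | rfl | rfl | rfl
  · obtain ⟨g, hg, hgy⟩ := hemb m₃ (by omega)
    refine h₃ P S ends X n (z ∘ g) (Qs ∘ g) ((h.comp g hg).mono (by omega)) ?_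
      (fun t c hc => hhit _ c hc)
    intro t
    have h4 := hgy t
    simp only [hcl] at h4
    by_contra hcon
    have hcon' : ¬ 3 ≤ (Qs (g t)).card := hcon
    rw [if_neg hcon'] at h4
    split_ifs at h4 <;> omega
  · obtain ⟨g, hg, hgy⟩ := hemb m₂ (by omega)
    refine h₂ P S ends X n (z ∘ g) (Qs ∘ g) ((h.comp g hg).mono (by omega)) ?_
      (fun t c hc => hhit _ c hc) (fun t => h3 _)
    intro t
    have h4 := hgy t
    simp only [hcl] at h4
    by_contra hcon
    have hcon' : ¬ (Qs (g t)).card = 2 := hcon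
    split_ifs at h4 <;> omega
  · obtain ⟨g, hg, hgy⟩ := hemb m₁ (by omega)
    have h4 : ∀ t, ∃ q s, Qs (g t) = {q} ∧ Ok q L 3 (CWL.Loc P S ends (z (g t))) s := by
      intro t
      have h4 := hgy t
      simp only [hcl] at h4
      by_contra hcon
      rw [if_neg hcon] at h4
      split_ifs at h4 <;> omega
    choose q s hq hs using h4
    refine h₁ P S ends X n (z ∘ g) q ?_ (fun t => ⟨s t, hs t⟩)
    have h5 := (h.comp g hg).mono (show δ₁ ≤ δ₁ + δ₂ + δ₃ + 1 by omega)
    have h6 : Qs ∘ g = fun t => {q t} := funext fun t => hq t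
    rw [h6] at h5
    exact h5
  · obtain ⟨g, hg, hgy⟩ := hemb m₁ (by omega)
    have h4 : ∀ t, ∃ q, Qs (g t) = {q} ∧ ∃ s, Ok q.swap L 3
        (Prod.swap ⁻¹' CWL.Loc P S ends (z (g t))) s := by
      intro t
      have h4 := hgy t
      simp only [hcl] at h4
      have hne := h.ne (g t)
      rw [← Finset.card_pos] at hne
      have hc1 : (Qs (g t)).card = 1 := by
        by_contra hcon
        have h5 : ¬ 3 ≤ (Qs (g t)).card := fun h => by rw [if_pos h] at h4; omega
        rw [if_neg h5] at h4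
        have h6 : ¬ (Qs (g t)).card = 2 := fun h => by rw [if_pos h] at h4; omega
        omega
      obtain ⟨q, hq⟩ := Finset.card_eq_one.1 hc1
      refine ⟨q, hq, ?_⟩
      have hno : ¬ ∃ q s, Qs (g t) = {q} ∧ Ok q L 3 (CWL.Loc P S ends (z (g t))) s := by
        intro hcon
        rw [if_pos hcon] at h4
        split_ifs at h4
      have hqm : q ∈ Qs (g t) := by rw [hq]; exact Finset.mem_singleton_self _
      have hsub : CWL.Loc P S ends (z (g t)) ⊆ rect q.1 q.2 L L := by
        intro v hv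
        obtain ⟨c, hc, h1⟩ := mem_hls.1 (h.loc (g t) hv)
        rw [hq, Finset.mem_singleton] at hc
        subst hc
        rw [Gad.mem_rct]
        exact h1
      have hfin : (CWL.Loc P S ends (z (g t))).Finite := (rect_finite _ _ _ _).subset hsub
      have hbd := h.bd _ q hqm
      have hcard : hfin.toFinset.card = (CWL.Loc P S ends (z (g t))).ncard :=
        (Set.ncard_eq_toFinset_card _ hfin).symm
      rcases ok3 (q := q) (L := L) (Λ := hfin.toFinset) (by omega) (by omega) (by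
          intro v hv
          have hv' : v ∈ CWL.Loc P S ends (z (g t)) := by simpa using hv
          exact h.inn _ q hqm v ⟨hv', hsub hv'⟩) (by
          rw [hcard]
          exact h3 _) with ⟨s, hs⟩ | ⟨s, hs⟩
      · rw [Set.Finite.coe_toFinset] at hs
        exact absurd ⟨q, s, hq, hs⟩ hno
      · refine ⟨s, ?_⟩
        rw [Finset.coe_image, Set.Finite.coe_toFinset] at hs
        have e : Prod.swap '' CWL.Loc P S ends (z (g t)) =
            Prod.swap ⁻¹' CWL.Loc P S ends (z (g t)) := by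
          ext v
          constructor
          · rintro ⟨w, hw, rfl⟩
            rw [mem_preimage, Prod.swap_swap]
            exact hw
          · intro hv
            exact ⟨v.swap, hv, Prod.swap_swap v⟩
        rw [e] at hs
        exact hs
    choose q hq hs using h4
    have h5 := (h.comp g hg).mono (show δ₁ ≤ δ₁ + δ₂ + δ₃ + 1 by omega)
    have h6 : Qs ∘ g = fun t => {q t} := funext fun t => hq t
    rw [h6] at h5
    refine h₁ P S (trE ends) X.swap n (z ∘ g) (fun t => (q t).swap) h5.tr ?_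
    intro t
    rw [loc_trE]
    exact hs t

/-- **THE GENERAL GADGET LEMMA.** -/
theorem glAll (k : ℕ) : GlAll.{u} k := by
  classical
  intro β
  choose mL δL hfam using fun s : ℕ => fam_hum.{u} k (s + 7) (by omega)
  obtain ⟨sc, hsc, hclus⟩ := CWL.cluster β (fun s => δL s + 20)
  obtain ⟨m₀, hm₀⟩ : ∃ m₀, m₀ = (Finset.range (β + 1)).sup (fun j => mL (sc j)) := ⟨_, rfl⟩
  obtain ⟨δ₀, hδ₀⟩ : ∃ δ₀, δ₀ = (Finset.range (β + 1)).sup (fun j => 2 * sc j + δL (sc j)) :=
    ⟨_, rfl⟩
  have hm : ∀ j ≤ β, mL (sc j) ≤ m₀ := by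
    intro j hj
    rw [hm₀]
    exact Finset.le_sup (f := fun j => mL (sc j)) (Finset.mem_range.2 (by omega))
  have hδ : ∀ j ≤ β, 2 * sc j + δL (sc j) ≤ δ₀ := by
    intro j hj
    rw [hδ₀]
    exact Finset.le_sup (f := fun j => 2 * sc j + δL (sc j)) (Finset.mem_range.2 (by omega))
  refine ⟨(β + 1) * m₀ + 1, δ₀ + 30, ?_⟩
  intro α P _ S ends X n hB hG z hz hcard hint hfar
  -- clusters
  have hA : ∀ t, ((hcard t).1.toFinset).card ≤ β := by
    intro t
    rw [← Set.ncard_eq_toFinset_card _ (hcard t).1]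
    exact (hcard t).2.2
  have hch : ∀ t, ∃ j ≤ β, ∃ Q : Finset (ℕ × ℕ),
      (∀ q ∈ Q, ∀ r ∈ Q, q ≠ r → CWL.Far (δL (sc j) + 20) q (sc j) r (sc j)) ∧
      (∀ v ∈ CWL.Loc P S ends (z t), ∃ q ∈ Q, v ∈ rect q.1 q.2 (sc j) (sc j)) ∧
      ∀ q ∈ Q, ∃ v ∈ CWL.Loc P S ends (z t), v ∈ rect q.1 q.2 (sc j) (sc j) := by
    intro t
    obtain ⟨j, hj, Q, _, h1, h2⟩ := hclus _ (hA t)
    refine ⟨j, hj, Q.filter (fun q => ∃ v ∈ CWL.Loc P S ends (z t),
      v ∈ rect q.1 q.2 (sc j) (sc j)), ?_, ?_, ?_⟩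
    · intro q hq r hr hne
      exact h1 q (Finset.mem_filter.1 hq).1 r (Finset.mem_filter.1 hr).1 hne
    · intro v hv
      obtain ⟨q, hq, h3⟩ := h2 v (by simpa using hv)
      exact ⟨q, Finset.mem_filter.2 ⟨hq, v, hv, h3⟩, h3⟩
    · intro q hq
      exact (Finset.mem_filter.1 hq).2
  choose j hj Q hQ1 hQ2 hQ3 using hch
  obtain ⟨y, hy, hyc⟩ := Finset.exists_le_card_fiber_of_mul_le_card_of_maps_to
    (s := (Finset.univ : Finset (Fin ((β + 1) * m₀ + 1)))) (t := Finset.range (β + 1))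
    (f := j) (n := m₀) (fun t _ => Finset.mem_range.2 (by have := hj t; omega))
    ⟨0, by simp⟩ (by
      rw [Finset.card_range, Finset.card_univ, Fintype.card_fin]
      omega)
  rw [Finset.mem_range] at hy
  obtain ⟨s, hs⟩ : ∃ s, s = sc y := ⟨_, rfl⟩
  have hs1 : 1 ≤ s := by rw [hs]; exact hsc y
  have hδs := hδ y (by omega)
  rw [← hs] at hδs
  have hc : Fintype.card (Fin (mL s)) ≤ Fintype.card {t // j t = y} := by
    rw [Fintype.card_fin, Fintype.card_subtype, hs]
    exact (hm y (by omega)).trans hyc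
  obtain ⟨emb⟩ := Function.Embedding.nonempty_of_card_le hc
  obtain ⟨g, hg⟩ : ∃ g : Fin (mL s) → Fin ((β + 1) * m₀ + 1), g = fun i => (emb i).1 := ⟨_, rfl⟩
  have hgi : Function.Injective g := by
    intro a b hab
    rw [hg] at hab
    exact emb.injective (Subtype.ext hab)
  have hgy : ∀ i, j (g i) = y := by
    intro i
    rw [hg]
    exact (emb i).2
  -- positions of the squares
  have hpos : ∀ i, ∀ q ∈ Q (g i), ∃ v ∈ CWL.Loc P S ends (z (g i)),
      q.1 ≤ v.1 ∧ v.1 < q.1 + s ∧ q.2 ≤ v.2 ∧ v.2 < q.2 + s ∧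
      X.1 + (δ₀ + 30) ≤ v.1 ∧ X.2 + (δ₀ + 30) ≤ v.2 ∧ v.1 + (δ₀ + 30) ≤ X.1 + n ∧
      v.2 + (δ₀ + 30) ≤ X.2 + n := by
    intro i q hq
    obtain ⟨v, hv, h1⟩ := hQ3 _ q hq
    rw [hgy, ← hs, Gad.mem_rct] at h1
    have h2 := hint _ v hv
    exact ⟨v, hv, h1.1, h1.2.1, h1.2.2.1, h1.2.2.2, h2.1, h2.2.1, h2.2.2.1, h2.2.2.2⟩
  have hbig : ∀ i, ∀ q ∈ Q (g i), X.1 + δL s + 10 ≤ q.1 ∧ X.2 + δL s + 10 ≤ q.2 ∧
      q.1 + s + δL s + 20 ≤ X.1 + n ∧ q.2 + s + δL s + 20 ≤ X.2 + n := by
    intro i q hq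
    obtain ⟨v, hv, h1⟩ := hpos i q hq
    omega
  set sh : ℕ × ℕ → ℕ × ℕ := fun q => (q.1 - 3, q.2 - 3) with hsh
  have hsame : ∀ i, ∀ q ∈ Q (g i), ∀ r ∈ Q (g i), q ≠ r → CWL.Far (δL s + 20) q s r s := by
    intro i q hq r hr hne
    have h1 := hQ1 _ q hq r hr hne
    rw [hgy, ← hs] at h1
    exact h1
  have hdiff : ∀ i i', i ≠ i' → ∀ q ∈ Q (g i), ∀ r ∈ Q (g i'), CWL.Far (δL s + 20) q s r s := by
    intro i i' hne q hq r hr
    obtain ⟨v, hv, h1⟩ := hpos i q hq
    obtain ⟨w, hw, h2⟩ := hpos i' r hr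
    have h3 := hfar _ _ (fun h => hne (hgi h)) v hv w hw
    unfold Apart at h3
    unfold CWL.Far
    omega
  refine hfam s P S ends X n (z ∘ g) (fun i => (Q (g i)).image sh) ?_ ?_ ?_
  · refine ⟨hB, hG, fun i => hz _, ?_, ?_, ?_, ?_, ?_, ?_⟩
    · intro i
      obtain ⟨v, hv⟩ : (CWL.Loc P S ends (z (g i))).Nonempty := by
        rw [← Set.ncard_pos (hcard _).1]
        have := (hcard (g i)).2.1
        omega
      obtain ⟨q, hq, _⟩ := hQ2 _ v hv
      exact ⟨_, Finset.mem_image_of_mem _ hq⟩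
    · intro i i' hne
      rw [Finset.disjoint_left]
      intro c hc hc'
      obtain ⟨q, hq, rfl⟩ := Finset.mem_image.1 hc
      obtain ⟨r, hr, h1⟩ := Finset.mem_image.1 hc'
      have h2 := hdiff i i' hne q hq r hr
      have h3 := hbig i q hq
      have h4 := hbig i' r hr
      simp only [hsh, Prod.mk.injEq] at h1
      unfold CWL.Far at h2
      omega
    · intro i c hc i' c' hc' hne
      obtain ⟨q, hq, rfl⟩ := Finset.mem_image.1 hc
      obtain ⟨r, hr, rfl⟩ := Finset.mem_image.1 hc'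
      have h1 : CWL.Far (δL s + 20) q s r s := by
        by_cases hii : i = i'
        · subst hii
          exact hsame i q hq r hr (fun h => hne (by rw [h]))
        · exact hdiff i i' hii q hq r hr
      have h3 := hbig i q hq
      have h4 := hbig i' r hr
      unfold CWL.Far at h1 ⊢
      simp only [hsh]
      omega
    · intro i c hc
      obtain ⟨q, hq, rfl⟩ := Finset.mem_image.1 hc
      have h3 := hbig i q hq
      simp only [hsh]
      omega
    · intro i v hv
      obtain ⟨q, hq, h1⟩ := hQ2 _ v hv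
      rw [hgy, ← hs, Gad.mem_rct] at h1
      refine mem_hls.2 ⟨_, Finset.mem_image_of_mem _ hq, ?_⟩
      simp only [hsh]
      omega
    · intro i c hc v hv
      obtain ⟨q, hq, rfl⟩ := Finset.mem_image.1 hc
      obtain ⟨hv1, hv2⟩ := hv
      obtain ⟨r, hr, h1⟩ := hQ2 _ v hv1
      rw [hgy, ← hs, Gad.mem_rct] at h1
      have h3 := hbig i q hq
      rw [Gad.mem_rct] at hv2
      simp only [hsh] at hv2
      have hqr : q = r := by
        by_contra hne
        have h2 := hsame i q hq r hr hne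
        unfold CWL.Far at h2
        omega
      subst hqr
      unfold Inn
      simp only [hsh]
      omega
  · intro i c hc
    obtain ⟨q, hq, rfl⟩ := Finset.mem_image.1 hc
    obtain ⟨v, hv, h1⟩ := hpos i q hq
    refine ⟨v, hv, ?_⟩
    rw [Gad.mem_rct]
    simp only [hsh]
    omega
  · intro i
    exact (hcard _).2.1

end DA
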