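import Pool.Agent.DA.FamG
import Pool.Agent.DA.GlAll

/-!
# Families over a grid with a grounded region: one scale
-/

open Set BIC BICS
open scoped Matroid

namespace DA

open Gad

universe u

section

variable {α : Type u} {ι : Type} {P : Matroid α} {S : Set α} {ends : α → Sym2 (ℕ × ℕ)}
  {A Gr : Set (ℕ × ℕ)} {X : ℕ × ℕ} {n L δ : ℕ} {E : Finset (ℕ × ℕ)} {z : ι → α}

lemma full_trE {U : Set (ℕ × ℕ)} {F : Set α} (h : FullB S ends U F) :
    FullB S (trE ends) (Prod.swap ⁻¹' U) F := by
  obtain ⟨h1, φ, h2, h3⟩ := h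
  refine ⟨?_, fun e => (φ e).swap, ⟨?_, ?_, ?_⟩, ?_⟩
  · rw [ins_trE, ← preimage_comp, Prod.swap_swap_eq, preimage_id]
    exact h1
  · intro e he
    rw [mem_preimage, Prod.swap_swap]
    exact h2.mapsTo he
  · intro e he e' he' heq
    exact h2.injOn he he' (Prod.swap_injective heq)
  · intro v hv
    obtain ⟨e, he, h4⟩ := h2.surjOn hv
    exact ⟨e, he, by simp only [h4, Prod.swap_swap]⟩
  · intro e he
    simp only [trE, Sym2.mem_map]
    exact ⟨_, h3 e he, rfl⟩

lemma vconn_trE {U : Set (ℕ × ℕ)} (h : VConn S ends U) :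
    VConn S (trE ends) (Prod.swap ⁻¹' U) := by
  intro u hu v hv
  have h1 := h u.swap hu v.swap hv
  have h2 : ∀ a b : ℕ × ℕ, Relation.ReflTransGen (fun x y => GAdj S ends x y ∧ x ∈ U ∧ y ∈ U) a b →
      Relation.ReflTransGen (fun x y => GAdj S (trE ends) x y ∧ x ∈ Prod.swap ⁻¹' U ∧
        y ∈ Prod.swap ⁻¹' U) a.swap b.swap := by
    intro a b hab
    induction hab with
    | refl => exact Relation.ReflTransGen.refl
    | tail _ h3 ih =>
      obtain ⟨⟨e, he, hee⟩, h4, h5⟩ := h3
      refine ih.tail ⟨⟨e, he, ?_⟩, ?_, ?_⟩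
      · simp only [trE, hee, Sym2.map_mk]
      · rw [mem_preimage, Prod.swap_swap]; exact h4
      · rw [mem_preimage, Prod.swap_swap]; exact h5
  have h3 := h2 _ _ h1
  rwa [Prod.swap_swap, Prod.swap_swap] at h3

/-- Transposition of a family with one square for every element. -/
lemma FamG.tr {q : ι → ℕ × ℕ} (h : FamG P S ends A Gr X n L δ E z (fun t => {q t})) :
    FamG P S (trE ends) (Prod.swap ⁻¹' A) (Prod.swap ⁻¹' Gr) X.swap n L δ (E.image Prod.swap) z
      (fun t => {(q t).swap}) where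
  bic := bic_trE h.bic
  Af := h.Af.preimage Prod.swap_injective.injOn
  grd := grdU_trE h.grd
  con := vconn_trE h.con
  GrA := preimage_mono h.GrA
  full := by
    obtain ⟨FG, hFG⟩ := h.full
    exact ⟨FG, full_trE hFG⟩
  reg := by
    rw [← preimage_sdiff, h.reg, preimage_sdiff, rect_swap, hls_swap]
    rfl
  zc := h.zc
  ne := fun t => Finset.singleton_nonempty _
  dis := by
    intro t t' hne
    rw [Finset.disjoint_singleton]
    intro heq
    have h1 := h.dis t t' hne
    rw [Finset.disjoint_singleton] at h1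
    exact h1 (Prod.swap_injective heq)
  disE := by
    intro t
    rw [Finset.disjoint_singleton_left]
    intro hcon
    obtain ⟨c, hc, h1⟩ := Finset.mem_image.1 hcon
    have h2 := h.disE t
    rw [Finset.disjoint_singleton_left] at h2
    exact h2 (Prod.swap_injective h1 ▸ hc)
  far := by
    have hm : ∀ c, (c ∈ E.image Prod.swap ∨ ∃ t, c ∈ ({(q t).swap} : Finset (ℕ × ℕ))) →
        (c.swap ∈ E ∨ ∃ t, c.swap ∈ ({q t} : Finset (ℕ × ℕ))) := by
      rintro c (hc | ⟨t, hc⟩)
      · obtain ⟨c', hc', rfl⟩ := Finset.mem_image.1 hc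
        exact Or.inl (by rw [Prod.swap_swap]; exact hc')
      · rw [Finset.mem_singleton] at hc
        subst hc
        exact Or.inr ⟨t, by rw [Prod.swap_swap]; exact Finset.mem_singleton_self _⟩
    intro c c' hc hc' hne
    have h1 := far_swap (h.far _ _ (hm c hc) (hm c' hc') (fun h => hne (Prod.swap_injective h)))
    rwa [Prod.swap_swap, Prod.swap_swap] at h1
  bd := by
    have hm : ∀ c, (c ∈ E.image Prod.swap ∨ ∃ t, c ∈ ({(q t).swap} : Finset (ℕ × ℕ))) →
        (c.swap ∈ E ∨ ∃ t, c.swap ∈ ({q t} : Finset (ℕ × ℕ))) := by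
      rintro c (hc | ⟨t, hc⟩)
      · obtain ⟨c', hc', rfl⟩ := Finset.mem_image.1 hc
        exact Or.inl (by rw [Prod.swap_swap]; exact hc')
      · rw [Finset.mem_singleton] at hc
        subst hc
        exact Or.inr ⟨t, by rw [Prod.swap_swap]; exact Finset.mem_singleton_self _⟩
    intro c hc
    have h1 := h.bd _ (hm c hc)
    simp only [Prod.fst_swap, Prod.snd_swap] at h1 ⊢
    omega
  loc := by
    intro t v hv
    rw [loc_trE, mem_preimage] at hv
    rcases h.loc t hv with h1 | h1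
    · left
      obtain ⟨c, hc, h2⟩ := mem_hls.1 h1
      rw [Finset.mem_singleton] at hc
      subst hc
      refine mem_hls.2 ⟨_, Finset.mem_singleton_self _, ?_⟩
      simp only [Prod.fst_swap, Prod.snd_swap] at h2 ⊢
      omega
    · right
      exact h1
  inn := by
    intro t c hc v hv
    rw [Finset.mem_singleton] at hc
    subst hc
    rw [loc_trE] at hv
    have h1 := h.inn t (q t) (Finset.mem_singleton_self _) v.swap ⟨hv.1, by
      have h2 := hv.2
      rw [Gad.mem_rct] at h2 ⊢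
      simp only [Prod.fst_swap, Prod.snd_swap] at h2 ⊢
      omega⟩
    exact inn_swap h1

/-- Restriction of a family. -/
lemma FamG.comp {κ : Type} {Qs : ι → Finset (ℕ × ℕ)} (h : FamG P S ends A Gr X n L δ E z Qs)
    (g : κ → ι) (hg : Function.Injective g)
    (hloc : ∀ t, CWL.Loc P S ends (z (g t)) ⊆ hls (Qs (g t)) L ∪ Gr) :
    FamG P S ends A Gr X n L δ E (z ∘ g) (Qs ∘ g) where
  bic := h.bic
  Af := h.Af
  grd := h.grd
  con := h.con
  GrA := h.GrA
  full := h.full
  reg := h.reg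
  zc := fun t => h.zc _
  ne := fun t => h.ne _
  dis := fun t t' hne => h.dis _ _ (fun h => hne (hg h))
  disE := fun t => h.disE _
  far := by
    have hm : ∀ c, (c ∈ E ∨ ∃ t, c ∈ (Qs ∘ g) t) → (c ∈ E ∨ ∃ t, c ∈ Qs t) := by
      rintro c (hc | ⟨t, hc⟩)
      · exact Or.inl hc
      · exact Or.inr ⟨_, hc⟩
    exact fun c c' hc hc' hne => h.far c c' (hm c hc) (hm c' hc') hne
  bd := by
    rintro c (hc | ⟨t, hc⟩)
    · exact h.bd c (Or.inl hc)
    · exact h.bd c (Or.inr ⟨_, hc⟩)
  loc := hloc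
  inn := fun t c hc v hv => h.inn _ c hc v hv

lemma FamG.mono {Qs : ι → Finset (ℕ × ℕ)} {δ' : ℕ} (h : FamG P S ends A Gr X n L δ E z Qs)
    (hd : δ' ≤ δ) : FamG P S ends A Gr X n L δ' E z Qs where
  bic := h.bic
  Af := h.Af
  grd := h.grd
  con := h.con
  GrA := h.GrA
  full := h.full
  reg := h.reg
  zc := h.zc
  ne := h.ne
  dis := h.dis
  disE := h.disE
  far := by
    intro c c' hc hc' hne
    have h1 := h.far c c' hc hc' hne
    unfold CWL.Far at h1 ⊢
    omega
  bd := by
    intro c hc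
    have h1 := h.bd c hc
    omega
  loc := h.loc
  inn := h.inn

end

/-- One scale: a family with at least three locations for every element. -/
theorem famG_hum (k L : ℕ) (hL : 2 ≤ L) :
    ∃ m δ : ℕ, ∀ {α : Type u} (P : Matroid α) [P.Finite] (S : Set α)
      (ends : α → Sym2 (ℕ × ℕ)) (A Gr : Set (ℕ × ℕ)) (X : ℕ × ℕ) (n : ℕ)
      (E : Finset (ℕ × ℕ)) (z : Fin m → α) (Qs : Fin m → Finset (ℕ × ℕ)),
      FamG P S ends A Gr X n L δ E z Qs →
      (∀ t, ∀ c ∈ Qs t, (CWL.Loc P S ends (z t) ∩ rect c.1 c.2 L L).Nonempty) →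
      (∀ t, 3 ≤ (CWL.Loc P S ends (z t) ∩ hls (Qs t) L).ncard) → HasUniformMinor P k := by
  classical
  obtain ⟨m₁, δ₁, h₁⟩ := clsG_one.{u} k L hL
  obtain ⟨m₂, δ₂, h₂⟩ := clsG_mix.{u} (glMixH3 k) L hL
  obtain ⟨m₃, δ₃, h₃⟩ := clsG_far.{u} (glFarH k) L hL
  obtain ⟨m₀, hm₀⟩ : ∃ m₀, m₀ = m₁ + m₂ + m₃ := ⟨_, rfl⟩
  refine ⟨4 * m₀ + 4, δ₁ + δ₂ + δ₃ + 1, ?_⟩
  intro α P _ S ends A Gr X n E z Qs h hhit h3
  -- the class of an element
  set Λ : Fin (4 * m₀ + 4) → ℕ × ℕ → Set (ℕ × ℕ) := fun t q =>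
    CWL.Loc P S ends (z t) ∩ rect q.1 q.2 L L with hΛ
  set cl : Fin (4 * m₀ + 4) → ℕ := fun t =>
    if 3 ≤ (Qs t).card then 3 else if (Qs t).card = 2 then 2 else
      if ∃ q s, Qs t = {q} ∧ Ok q L 3 (Λ t q) s then 1 else 0 with hcl
  obtain ⟨y, hy, hyc⟩ := Finset.exists_le_card_fiber_of_mul_le_card_of_maps_to
    (s := (Finset.univ : Finset (Fin (4 * m₀ + 4)))) (t := Finset.range 4) (f := cl) (n := m₀)
    (by
      intro t _
      rw [Finset.mem_range]
      simp only [hcl]
      split_ifs <;> omega)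
    ⟨0, by simp⟩ (by
      rw [Finset.card_range, Finset.card_univ, Fintype.card_fin]
      omega)
  have hemb : ∀ m ≤ m₀, ∃ g : Fin m → Fin (4 * m₀ + 4), Function.Injective g ∧
      ∀ i, cl (g i) = y := by
    intro m hm
    have hc : Fintype.card (Fin m) ≤ Fintype.card {t // cl t = y} := by
      rw [Fintype.card_fin, Fintype.card_subtype]
      omega
    obtain ⟨emb⟩ := Function.Embedding.nonempty_of_card_le hc
    exact ⟨fun i => (emb i).1, fun i j hij => emb.injective (Subtype.ext hij),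
      fun i => (emb i).2⟩
  rw [Finset.mem_range] at hy
  have hy' : y = 3 ∨ y = 2 ∨ y = 1 ∨ y = 0 := by omega
  rcases hy' with rfl | rfl | rfl | rfl
  · obtain ⟨g, hg, hgy⟩ := hemb m₃ (by omega)
    refine h₃ P S ends A Gr X n E (z ∘ g) (Qs ∘ g) ((h.comp g hg (fun t => h.loc _)).mono
      (by omega)) ?_ (fun t c hc => hhit _ c hc)
    intro t
    have h4 := hgy t
    simp only [hcl] at h4
    by_contra hcon
    have hcon' : ¬ 3 ≤ (Qs (g t)).card := hcon
    rw [if_neg hcon'] at h4
    split_ifs at h4 <;> omega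
  · obtain ⟨g, hg, hgy⟩ := hemb m₂ (by omega)
    refine h₂ P S ends A Gr X n E (z ∘ g) (Qs ∘ g) ((h.comp g hg (fun t => h.loc _)).mono
      (by omega)) ?_ (fun t c hc => hhit _ c hc) (fun t => h3 _)
    intro t
    have h4 := hgy t
    simp only [hcl] at h4
    by_contra hcon
    have hcon' : ¬ (Qs (g t)).card = 2 := hcon
    split_ifs at h4 <;> omega
  · obtain ⟨g, hg, hgy⟩ := hemb m₁ (by omega)
    have h4 : ∀ t, ∃ q s, Qs (g t) = {q} ∧ Ok q L 3 (Λ (g t) q) s := by
      intro t
      have h4 := hgy t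
      simp only [hcl] at h4
      by_contra hcon
      rw [if_neg hcon] at h4
      split_ifs at h4 <;> omega
    choose q s hq hs using h4
    refine h₁ P S ends A Gr X n E (z ∘ g) q ?_ (fun t => ⟨s t, hs t⟩)
    have h5 := (h.comp g hg (fun t => h.loc _)).mono (show δ₁ ≤ δ₁ + δ₂ + δ₃ + 1 by omega)
    have h6 : Qs ∘ g = fun t => {q t} := funext fun t => hq t
    rw [h6] at h5
    exact h5
  · obtain ⟨g, hg, hgy⟩ := hemb m₁ (by omega)
    have h4 : ∀ t, ∃ q, Qs (g t) = {q} ∧ ∃ s, Ok q.swap L 3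
        (Prod.swap ⁻¹' Λ (g t) q) s := by
      intro t
      have h4 := hgy t
      simp only [hcl] at h4
      have hne := h.ne (g t)
      rw [← Finset.card_pos] at hne
      have hc1 : (Qs (g t)).card = 1 := by
        by_contra hcon
        have h5 : ¬ 3 ≤ (Qs (g t)).card := fun h => by rw [if_pos h] at h4; omega
        rw [if_neg h5] at h4
        have h6 : ¬ (Qs (g t)).card = 2 := fun h => by rw [if_pos h] at h4; omega
        omega
      obtain ⟨q, hq⟩ := Finset.card_eq_one.1 hc1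
      refine ⟨q, hq, ?_⟩
      have hno : ¬ ∃ q s, Qs (g t) = {q} ∧ Ok q L 3 (Λ (g t) q) s := by
        intro hcon
        rw [if_pos hcon] at h4
        split_ifs at h4
      have hqm : q ∈ Qs (g t) := by rw [hq]; exact Finset.mem_singleton_self _
      have hhls : hls (Qs (g t)) L = rect q.1 q.2 L L := by
        ext v
        rw [mem_hls, hq, Gad.mem_rct]
        simp
      have hfin : (Λ (g t) q).Finite := lam_fin _ _ _
      have hbd := h.bd q (Or.inr ⟨_, hqm⟩)
      have hcard : hfin.toFinset.card = (Λ (g t) q).ncard :=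
        (Set.ncard_eq_toFinset_card _ hfin).symm
      rcases ok3 (q := q) (L := L) (Λ := hfin.toFinset) (by omega) (by omega) (by
          intro v hv
          have hv' : v ∈ Λ (g t) q := by simpa using hv
          exact h.inn _ q hqm v hv') (by
          rw [hcard]
          have h7 := h3 (g t)
          rw [hhls] at h7
          exact h7) with ⟨s, hs⟩ | ⟨s, hs⟩
      · rw [Set.Finite.coe_toFinset] at hs
        exact absurd ⟨q, s, hq, hs⟩ hno
      · refine ⟨s, ?_⟩
        rw [Finset.coe_image, Set.Finite.coe_toFinset] at hs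
        have e : Prod.swap '' Λ (g t) q = Prod.swap ⁻¹' Λ (g t) q := by
          ext v
          constructor
          · rintro ⟨w, hw, rfl⟩
            rw [mem_preimage, Prod.swap_swap]
            exact hw
          · intro hv
            exact ⟨v.swap, hv, Prod.swap_swap v⟩
        rw [e] at hs
        exact hs
    choose q hq hs using h4
    have h5 := (h.comp g hg (fun t => h.loc _)).mono (show δ₁ ≤ δ₁ + δ₂ + δ₃ + 1 by omega)
    have h6 : Qs ∘ g = fun t => {q t} := funext fun t => hq t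
    rw [h6] at h5
    refine h₁ P S (trE ends) _ _ X.swap n _ (z ∘ g) (fun t => (q t).swap) h5.tr ?_
    intro t
    rw [loc_trE]
    have e : Prod.swap ⁻¹' CWL.Loc P S ends ((z ∘ g) t) ∩
        rect (q t).swap.1 (q t).swap.2 L L = Prod.swap ⁻¹' Λ (g t) (q t) := by
      simp only [hΛ, preimage_inter, rect_swap, Prod.fst_swap, Prod.snd_swap]
      rfl
    rw [e]
    exact hs t

end DA
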