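import Pool.Agent.DA.GlB

/-!
# Gadgets next to a missing vertex: definitions
-/

open Set BIC BICS
open scoped Matroid

namespace DA

universe u

/-- The closed ray from `s` in the direction `d` (`0` left, `1` right, `2` up, `3` down). -/
def ray (d : ℕ) (s v : ℕ × ℕ) : Prop :=
  (d = 0 ∧ v.2 = s.2 ∧ v.1 ≤ s.1) ∨ (d = 1 ∧ v.2 = s.2 ∧ s.1 ≤ v.1) ∨
    (d = 2 ∧ v.1 = s.1 ∧ s.2 ≤ v.2) ∨ (d = 3 ∧ v.1 = s.1 ∧ v.2 ≤ s.2)

/-- One step in the direction `d`. -/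
def stp (d : ℕ) (s : ℕ × ℕ) : ℕ × ℕ :=
  if d = 0 then (s.1 - 1, s.2) else if d = 1 then (s.1 + 1, s.2) else
    if d = 2 then (s.1, s.2 + 1) else (s.1, s.2 - 1)

open Classical in
/-- The first vertex of the ray from `s` which is not missing. -/
noncomputable def real (K : Set (ℕ × ℕ)) (d : ℕ) (s : ℕ × ℕ) : ℕ × ℕ :=
  if s ∈ K then stp d s else s

/-- The directions of `T` have legs: disjoint rays, the first vertex of the ray from `st d` which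
is not missing is in `Λ`, the rest of the ray (inside the ball of radius `s` around `c`) is not in
`Λ` and not missing; all missing vertices of the ball are starts. -/
structure Legs (K Λ : Set (ℕ × ℕ)) (c : ℕ × ℕ) (s : ℕ) (T : ℕ → Prop) (st : ℕ → ℕ × ℕ) :
    Prop where
  near : ∀ d < 4, T d → sd (st d) c ≤ s + 1
  dis : ∀ d < 4, ∀ d' < 4, T d → T d' → d ≠ d' → ∀ v, ray d (st d) v → ¬ ray d' (st d') v
  start : ∀ d < 4, T d → real K d (st d) ∈ Λ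
  clean : ∀ d < 4, T d → ∀ v ∈ Λ, sd v c ≤ s → ray d (st d) v → v = real K d (st d)
  kray : ∀ d < 4, T d → ∀ v ∈ K, sd v c ≤ s → ray d (st d) v → v = st d
  kst : ∀ v ∈ K, sd v c ≤ s → ∃ d < 4, T d ∧ st d = v

/-- Depth in a rectangle. -/
def DeepR (X : ℕ × ℕ) (a b D : ℕ) (v : ℕ × ℕ) : Prop :=
  X.1 + D ≤ v.1 ∧ X.2 + D ≤ v.2 ∧ v.1 + D ≤ X.1 + a ∧ v.2 + D ≤ X.2 + b

/-- The element has three legs at the scale `s`: three directions at one place, or left and right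
at one place and left at another place. -/
def HasLegs (K Λ : Set (ℕ × ℕ)) (A : Finset (ℕ × ℕ)) (s : ℕ) : Prop :=
  (∃ c ∈ A, ∃ m < 4, ∃ st, Legs K Λ c s (fun d => d ≠ m) st) ∨
    ∃ c ∈ A, ∃ c' ∈ A, s < sd c c' ∧ (∃ st, Legs K Λ c s (fun d => d = 0 ∨ d = 1) st) ∧
      ∃ st, Legs K Λ c' s (fun d => d = 0) st

/-- STATEMENT glM: gadgets next to missing vertices, over a square grid. -/
def GlM (k : ℕ) : Prop :=
  ∀ β D : ℕ, ∃ m δ : ℕ, ∀ {α : Type u} (P : Matroid α) [P.Finite] (S : Set α)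
    (ends : α → Sym2 (ℕ × ℕ)) (X : ℕ × ℕ) (n : ℕ) (K : Finset (ℕ × ℕ)), Bic P S ends →
    CWL.GrdU S ends (rect X.1 X.2 n n \ (K : Set (ℕ × ℕ))) →
    ∀ (z : Fin m → α) (N A : Fin m → Finset (ℕ × ℕ)), (∀ t, z t ∈ P.closure S ∧ z t ∉ S) →
    (∀ t, (N t).card ≤ β ∧ ∀ v ∈ CWL.Loc P S ends (z t), Deep X n D v → v ∈ N t) →
    -- the points used by the legs and the missing vertices
    (∀ t, A t ⊆ N t ∧ ∀ v ∈ A t, Deep X n δ v) → (∀ v ∈ K, ∃ t, v ∈ A t) →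
    (∀ t, ∀ v ∈ K, ∀ w ∈ K, v ∈ A t → w ∈ A t → v = w) →
    (∀ t t', t ≠ t' → ∀ v ∈ A t, ∀ w ∈ N t', Apart δ v w) →
    (∀ t s, s + D + 2 ≤ δ → (∀ v ∈ N t, ∀ w ∈ N t, sd v w ≤ s ∨ 2 * s + 10 < sd v w) →
      HasLegs (K : Set (ℕ × ℕ)) (CWL.Loc P S ends (z t)) (A t) s) → HasUniformMinor P k

end DA
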