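import Pool.Agent.DA.CleanK
import Pool.Agent.DA.MDefs
import Pool.Agent.DA.FamG2

/-!
# Families of elements next to missing vertices
-/

open Set BIC BICS
open scoped Matroid

namespace DA

open Gad

/-- Elements `z t` whose locations are in the squares with corners `Qs t` or in the grounded
region `Gr`; the squares with corners in `E` and the outer part are grounded; the vertices of `K`
are missing. -/
structure FamK {α ι : Type*} (P : Matroid α) (S : Set α) (ends : α → Sym2 (ℕ × ℕ))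
    (A Gr : Set (ℕ × ℕ)) (X : ℕ × ℕ) (n L δ : ℕ) (E : Finset (ℕ × ℕ)) (z : ι → α)
    (Qs : ι → Finset (ℕ × ℕ)) (K : Set (ℕ × ℕ)) : Prop where
  bic : Bic P S ends
  Af : A.Finite
  grd : CWL.GrdU S ends A
  con : VConn S ends A
  GrA : Gr ⊆ A
  full : ∃ FG, FullB S ends Gr FG
  reg : A \ Gr = (rect X.1 X.2 n n \ hls E L) \ K
  zc : ∀ t, z t ∈ P.closure S ∧ z t ∉ S
  ne : ∀ t, (Qs t).Nonempty
  dis : ∀ t t', t ≠ t' → Disjoint (Qs t) (Qs t')
  disE : ∀ t, Disjoint (Qs t) E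
  far : ∀ c c', (c ∈ E ∨ ∃ t, c ∈ Qs t) → (c' ∈ E ∨ ∃ t, c' ∈ Qs t) → c ≠ c' →
    CWL.Far δ c L c' L
  bd : ∀ c, (c ∈ E ∨ ∃ t, c ∈ Qs t) → X.1 + δ ≤ c.1 ∧ X.2 + δ ≤ c.2 ∧ c.1 + L + δ ≤ X.1 + n ∧
    c.2 + L + δ ≤ X.2 + n
  loc : ∀ t, CWL.Loc P S ends (z t) ⊆ hls (Qs t) L ∪ Gr
  kA : ∀ v ∈ K, v ∉ A
  ksp : Spr 3 K
  kin : ∀ v ∈ K, ∃ t, ∃ c ∈ Qs t, v ∈ rect c.1 c.2 L L

/-- Disjoint rays next to missing vertices. -/
def OkK (q : ℕ × ℕ) (L τ : ℕ) (Λ K : Set (ℕ × ℕ)) (s : ℕ → ℕ × ℕ) : Prop :=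
  CfgG q L τ s ∧ (∀ i < τ, xp i (s i) (off K (s i)) ∈ Λ ∧ ∀ j, off K (s i) < j →
    j ≤ rp q L i (s i) → xp i (s i) j ∉ Λ) ∧
  (∀ v ∈ K, v ∈ rect q.1 q.2 L L → ∃ i < τ, s i = v) ∧
  ∀ i < τ, ∀ v ∈ K, v ∈ xp i (s i) '' Iic (rp q L i (s i)) → v = s i

section

variable {α ι : Type*} {P : Matroid α} {S : Set α} {ends : α → Sym2 (ℕ × ℕ)}
  {A Gr K : Set (ℕ × ℕ)} {X : ℕ × ℕ} {n L δ : ℕ} {E : Finset (ℕ × ℕ)} {z : ι → α}
  {Qs : ι → Finset (ℕ × ℕ)}

theorem FamK.reduce [P.Finite] [Fintype ι] [DecidableEq ι] [Nonempty ι] [Nonempty α]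
    (h : FamK P S ends A Gr X n L δ E z Qs K) (hδ : 10 ≤ δ) (hL : 2 ≤ L) (τ : ι → ℕ × ℕ → ℕ)
    (s : ι → ℕ × ℕ → ℕ → ℕ × ℕ)
    (hok : ∀ t, ∀ c ∈ Qs t, OkK c L (τ t c) (CWL.Loc P S ends (z t) ∩ rect c.1 c.2 L L) K
      (s t c)) :
    ∃ (F S' : Set α), F ⊆ P.E ∧ Bic (P ／ F) S' ends ∧
      CWL.GrdU S' ends (rect X.1 X.2 n n \ hls (Finset.univ.biUnion Qs ∪ E) L) ∧
      ∀ t, CWL.Loc (P ／ F) S' ends (z t) =
          {w | ∃ c ∈ Qs t, ∃ i < τ t c, fo c L i (s t c i) = w} ∧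
        z t ∈ (P ／ F).closure S' ∧ z t ∉ S' := by
  classical
  have hown : ∀ c : ℕ × ℕ, ∃ t : ι, c ∈ Finset.univ.biUnion Qs → c ∈ Qs t := by
    intro c
    by_cases hc : c ∈ Finset.univ.biUnion Qs
    · obtain ⟨t, _, ht⟩ := Finset.mem_biUnion.1 hc
      exact ⟨t, fun _ => ht⟩
    · exact ⟨Classical.arbitrary ι, fun h => absurd h hc⟩
  choose own hown using hown
  have hownt : ∀ t, ∀ c ∈ Qs t, own c = t := by
    intro t c hc
    by_contra hne
    have h1 := hown c (Finset.mem_biUnion.2 ⟨t, Finset.mem_univ _, hc⟩)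
    exact Finset.disjoint_left.1 (h.dis _ _ hne) h1 hc
  have hfar : ∀ q ∈ Finset.univ.biUnion Qs, ∀ q' ∈ Finset.univ.biUnion Qs, q ≠ q' →
      CWL.Far 10 q L q' L := by
    intro q hq q' hq' hne
    have h1 := h.far q q' (Or.inr ⟨_, hown q hq⟩) (Or.inr ⟨_, hown q' hq'⟩) hne
    unfold CWL.Far at h1 ⊢
    omega
  obtain ⟨FG, hFG⟩ := h.full
  have hKH : ∀ v ∈ K, v ∈ hls (Finset.univ.biUnion Qs) L := by
    intro v hv
    obtain ⟨t, c, hc, h1⟩ := h.kin v hv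
    rw [Gad.mem_rct] at h1
    exact mem_hls.2 ⟨c, Finset.mem_biUnion.2 ⟨t, Finset.mem_univ _, hc⟩, h1⟩
  obtain ⟨F, h1, h2, h3⟩ := clean_K h.bic h.Af h.grd h.con h.GrA hFG
    (Finset.univ.biUnion Qs) hL hfar (by
      intro q hq
      have h1 := h.bd q (Or.inr ⟨_, hown q hq⟩)
      omega) (by
      intro q hq v v1 v2 v3 v4
      have h1 := h.bd q (Or.inr ⟨_, hown q hq⟩)
      by_cases hvK : v ∈ K
      · exact ⟨Or.inr hvK, fun hG => h.kA v hvK (h.GrA hG)⟩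
      have h2 : v ∈ A \ Gr := by
        rw [h.reg]
        refine ⟨⟨by rw [Gad.mem_rct]; omega, fun hv => ?_⟩, hvK⟩
        obtain ⟨q', hq', h5⟩ := mem_hls.1 hv
        have hne : q ≠ q' := by
          rintro rfl
          exact Finset.disjoint_left.1 (h.disE _) (hown q hq) hq'
        have h6 := h.far q q' (Or.inr ⟨_, hown q hq⟩) (Or.inl hq') hne
        unfold CWL.Far at h6
        omega
      exact ⟨Or.inl h2.1, h2.2⟩) h.kA hKH h.ksp (fun c => τ (own c) c) (fun c => s (own c) c) (by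
      intro q hq
      exact (hok _ q (hown q hq)).1) (by
      intro q hq
      exact (hok _ q (hown q hq)).2.2.1) (by
      intro q hq
      exact (hok _ q (hown q hq)).2.2.2)
  have hreg : A \ (hls (Finset.univ.biUnion Qs) L ∪ Gr) =
      rect X.1 X.2 n n \ hls (Finset.univ.biUnion Qs ∪ E) L := by
    have h4 := h.reg
    ext v
    have h5 : v ∈ A \ Gr ↔ v ∈ (rect X.1 X.2 n n \ hls E L) \ K := by rw [h4]
    simp only [hls_union, mem_sdiff, mem_union, not_or] at h5 ⊢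
    constructor
    · rintro ⟨g1, g2, g3⟩
      obtain ⟨⟨g4, g5⟩, g6⟩ := h5.1 ⟨g1, g3⟩
      exact ⟨g4, g2, g5⟩
    · rintro ⟨g1, g2, g3⟩
      obtain ⟨g4, g5⟩ := h5.2 ⟨⟨g1, g3⟩, fun hK => g2 (hKH v hK)⟩
      exact ⟨g4, g2, g5⟩
  refine ⟨F, _, h1.1.trans h.bic.sub, h1.bic h.bic, hreg ▸ h2, fun t => ?_⟩
  have hsub : Qs t ⊆ Finset.univ.biUnion Qs := fun c hc =>
    Finset.mem_biUnion.2 ⟨t, Finset.mem_univ _, hc⟩
  have h4 := h3 (z t) (h.zc t).1 (h.zc t).2 (Qs t) hsub (h.ne t) (h.loc t) (by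
    intro q hq i hi
    simp only [hownt t q hq] at hi ⊢
    obtain ⟨g1, g2, gk1, gk2⟩ := hok t q hq
    obtain ⟨g3, g4⟩ := g2 i hi
    refine ⟨g3.1, fun j hj1 hj2 hcon => ?_⟩
    have g7 := h.bd q (Or.inr ⟨t, hq⟩)
    have g8 := xp_mem_Iic (i := i) (by have := g1.t3; omega) (by omega) (g1.inn i hi)
      (v := xp i (s t q i) j) ⟨j, hj2, rfl⟩
    obtain ⟨k1, k2, k3, k4⟩ := g1.inn i hi
    rcases h.loc t hcon with hcon' | hcon'
    · obtain ⟨q', hq', g5⟩ := mem_hls.1 hcon'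
      by_cases hne : q = q'
      · subst hne
        exact g4 j hj1 hj2 ⟨hcon, by rw [Gad.mem_rct]; exact g5⟩
      · have g6 := h.far q q' (Or.inr ⟨t, hq⟩) (Or.inr ⟨t, hq'⟩) hne
        unfold CWL.Far at g6
        omega
    · by_cases hvK : xp i (s t q i) j ∈ K
      · exact h.kA _ hvK (h.GrA hcon')
      have h2 : xp i (s t q i) j ∈ A \ Gr := by
        rw [h.reg]
        refine ⟨⟨by rw [Gad.mem_rct]; omega, fun hv => ?_⟩, hvK⟩
        obtain ⟨q', hq', h5⟩ := mem_hls.1 hv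
        have hne : q ≠ q' := by
          rintro rfl
          exact Finset.disjoint_left.1 (h.disE _) hq hq'
        have h6 := h.far q q' (Or.inr ⟨t, hq⟩) (Or.inl hq') hne
        unfold CWL.Far at h6
        omega
      exact h2.2 hcon')
  obtain ⟨h5, h6, h7⟩ := h4
  refine ⟨?_, h6, h7⟩
  rw [h5]
  ext w
  constructor
  · rintro ⟨c, hc, i, hi, rfl⟩
    simp only [hownt t c hc] at hi ⊢
    exact ⟨c, hc, i, hi, rfl⟩
  · rintro ⟨c, hc, i, hi, rfl⟩
    refine ⟨c, hc, i, ?_, ?_⟩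
    · simp only [hownt t c hc]; exact hi
    · simp only [hownt t c hc]

lemma FamK.far_all (h : FamK P S ends A Gr X n L δ E z Qs K) [Fintype ι] [DecidableEq ι]
    {δ₀ : ℕ} (hδ : δ₀ ≤ δ) : ∀ q ∈ Finset.univ.biUnion Qs ∪ E, ∀ q' ∈ Finset.univ.biUnion Qs ∪ E,
      q ≠ q' → CWL.Far δ₀ q L q' L := by
  classical
  intro q hq q' hq' hne
  have hm : ∀ c ∈ Finset.univ.biUnion Qs ∪ E, c ∈ E ∨ ∃ t, c ∈ Qs t := by
    intro c hc
    rcases Finset.mem_union.1 hc with hc | hc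
    · obtain ⟨t, _, ht⟩ := Finset.mem_biUnion.1 hc
      exact Or.inr ⟨t, ht⟩
    · exact Or.inl hc
  have h7 := h.far q q' (hm q hq) (hm q' hq') hne
  unfold CWL.Far at h7 ⊢
  omega

end

universe u

/-- **Near**: one square for every element, three legs. -/
theorem clsK_one (k L : ℕ) (hL : 2 ≤ L) :
    ∃ m δ : ℕ, ∀ {α : Type u} (P : Matroid α) [P.Finite] (S : Set α)
      (ends : α → Sym2 (ℕ × ℕ)) (A Gr : Set (ℕ × ℕ)) (X : ℕ × ℕ) (n : ℕ)
      (E : Finset (ℕ × ℕ)) (z : Fin m → α) (q : Fin m → ℕ × ℕ) (K : Set (ℕ × ℕ)),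
      FamK P S ends A Gr X n L δ E z (fun t => {q t}) K →
      (∀ t, ∃ s, OkK (q t) L 3 (CWL.Loc P S ends (z t) ∩ rect (q t).1 (q t).2 L L) K s) →
      HasUniformMinor P k := by
  classical
  obtain ⟨m₀, δ₀, hrow⟩ := glNear3.{u} k L (by omega)
  refine ⟨m₀ + 1, δ₀ + 10, ?_⟩
  intro α P _ S ends A Gr X n E z q K h hs
  have : Nonempty α := ⟨z 0⟩
  choose s hs using hs
  obtain ⟨F, S', h4, h4', h5, h6⟩ := h.reduce (by omega) hL (fun _ _ => 3) (fun t _ => s t) (by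
      intro t c hc
      rw [Finset.mem_singleton] at hc
      subst hc
      exact hs t)
  have hPF : (P ／ F).Finite := BQ.fin_contract F
  have hmem : ∀ t, q t ∈ ({q t} : Finset (ℕ × ℕ)) := fun t => Finset.mem_singleton_self _
  refine HasUniformMinor_mono (hrow (P ／ F) S' ends X n _
    h4' h5 (h.far_all (by omega)) (fun t => z t.castSucc) (fun t => q t.castSucc) ?_ ?_ ?_
    (fun t => (h6 _).2) ?_) (con_minor P F)
  · intro t
    exact Finset.mem_union_left _ (Finset.mem_biUnion.2 ⟨_, Finset.mem_univ _, hmem _⟩)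
  · intro t t' heq
    simp only at heq
    by_contra hne
    refine Finset.disjoint_left.1 (h.dis t.castSucc t'.castSucc
      (fun h => hne (Fin.castSucc_injective _ h))) (hmem _) ?_
    rw [heq]
    exact hmem _
  · intro t
    have h7 := h.bd _ (Or.inr ⟨t.castSucc, hmem _⟩)
    omega
  · intro t
    have g0 := (hs t.castSucc).1.inn 0 (by omega)
    have g1 := (hs t.castSucc).1.inn 1 (by omega)
    have g2 := (hs t.castSucc).1.inn 2 (by omega)
    have hbd := h.bd _ (Or.inr ⟨t.castSucc, hmem _⟩)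
    rw [(h6 t.castSucc).1]
    set c := q t.castSucc
    set σ := s t.castSucc
    obtain ⟨a1, a2, a3, a4⟩ := g0
    obtain ⟨b1, b2, b3, b4⟩ := g1
    obtain ⟨c1, c2, c3, c4⟩ := g2
    have e0 : ftD L (c.1 - 1) (c.2 - 1) 0 ((σ 0).2 - c.2) = fo c L 0 (σ 0) := by
      change (c.1 - 1, c.2 - 1 + 1 + ((σ 0).2 - c.2)) = (c.1 - 1, (σ 0).2)
      rw [Prod.mk.injEq]
      omega
    have e1 : ftD L (c.1 - 1) (c.2 - 1) 1 ((σ 1).2 - c.2) = fo c L 1 (σ 1) := by
      change (c.1 - 1 + 1 + L, c.2 - 1 + 1 + ((σ 1).2 - c.2)) = (c.1 + L, (σ 1).2)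
      rw [Prod.mk.injEq]
      omega
    have e2 : ftD L (c.1 - 1) (c.2 - 1) 2 ((σ 2).1 - c.1) = fo c L 2 (σ 2) := by
      change (c.1 - 1 + 1 + ((σ 2).1 - c.1), c.2 - 1 + 1 + L) = ((σ 2).1, c.2 + L)
      rw [Prod.mk.injEq]
      omega
    refine ⟨3, by omega, fun d => if d = 0 then (σ 0).2 - c.2 else if d = 1 then (σ 1).2 - c.2
      else (σ 2).1 - c.1, ?_, ?_⟩
    · intro d
      simp only
      split_ifs <;> omega
    · ext w
      simp only [mem_ofPred_eq]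
      constructor
      · rintro ⟨c', hc', i, hi, rfl⟩
        rw [Finset.mem_singleton] at hc'
        subst hc'
        have hi0 : i = 0 ∨ i = 1 ∨ i = 2 := by omega
        rcases hi0 with rfl | rfl | rfl
        · exact ⟨0, by omega, by omega, e0⟩
        · exact ⟨1, by omega, by omega, e1⟩
        · exact ⟨2, by omega, by omega, e2⟩
      · rintro ⟨d, hd, hd3, rfl⟩
        have hi0 : d = 0 ∨ d = 1 ∨ d = 2 := by omega
        rcases hi0 with rfl | rfl | rfl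
        · exact ⟨c, hmem _, 0, by omega, e0.symm⟩
        · exact ⟨c, hmem _, 1, by omega, e1.symm⟩
        · exact ⟨c, hmem _, 2, by omega, e2.symm⟩

/-- **Mix**: two squares for every element, two legs in one and one leg in the other. -/
theorem clsK_mix (k L : ℕ) (hL : 2 ≤ L) :
    ∃ m δ : ℕ, ∀ {α : Type u} (P : Matroid α) [P.Finite] (S : Set α)
      (ends : α → Sym2 (ℕ × ℕ)) (A Gr : Set (ℕ × ℕ)) (X : ℕ × ℕ) (n : ℕ)
      (E : Finset (ℕ × ℕ)) (z : Fin m → α) (f : Fin m → Fin 2 → ℕ × ℕ) (K : Set (ℕ × ℕ)),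
      FamK P S ends A Gr X n L δ E z (fun t => {f t 0, f t 1}) K → (∀ t, f t 0 ≠ f t 1) →
      (∀ t, ∃ s, OkK (f t 0) L 2 (CWL.Loc P S ends (z t) ∩ rect (f t 0).1 (f t 0).2 L L) K s) →
      (∀ t, ∃ s, OkK (f t 1) L 1 (CWL.Loc P S ends (z t) ∩ rect (f t 1).1 (f t 1).2 L L) K s) →
      HasUniformMinor P k := by
  classical
  obtain ⟨m₀, δ₀, hrow⟩ := glMixH3.{u} k L (by omega)
  refine ⟨m₀ + 1, δ₀ + 10, ?_⟩
  intro α P _ S ends A Gr X n E z f K h hfne hs0 hs1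
  have : Nonempty α := ⟨z 0⟩
  choose s1 hs1 using hs1
  choose s0 hs0 using hs0
  have hf : ∀ t i, f t i ∈ ({f t 0, f t 1} : Finset (ℕ × ℕ)) := by
    intro t i
    fin_cases i
    · exact Finset.mem_insert_self _ _
    · exact Finset.mem_insert_of_mem (Finset.mem_singleton_self _)
  have hfall : ∀ t, ∀ c ∈ ({f t 0, f t 1} : Finset (ℕ × ℕ)), c = f t 0 ∨ c = f t 1 := by
    intro t c hc
    rw [Finset.mem_insert, Finset.mem_singleton] at hc
    exact hc
  obtain ⟨F, S', h4, h4', h5, h6⟩ := h.reduce (by omega) hL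
    (fun t c => if c = f t 0 then 2 else 1) (fun t c => if c = f t 0 then s0 t else s1 t) (by
      intro t c hc
      by_cases hcr : c = f t 0
      · simp only [if_pos hcr]
        rw [hcr]
        exact hs0 t
      · simp only [if_neg hcr]
        have : c = f t 1 := (hfall t c hc).resolve_left hcr
        rw [this]
        exact hs1 t)
  have hPF : (P ／ F).Finite := BQ.fin_contract F
  refine HasUniformMinor_mono (hrow (P ／ F) S' ends X n _
    h4' h5 (h.far_all (by omega)) (fun t => z t.castSucc) (fun ti => f ti.1.castSucc ti.2)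
    ?_ ?_ ?_ (fun t => (h6 _).2) ?_) (con_minor P F)
  · intro ti
    exact Finset.mem_union_left _ (Finset.mem_biUnion.2 ⟨_, Finset.mem_univ _, hf _ _⟩)
  · rintro ⟨t, i⟩ ⟨t', i'⟩ heq
    simp only at heq
    have htt : t.castSucc = t'.castSucc := by
      by_contra hne
      exact Finset.disjoint_left.1 (h.dis _ _ hne) (hf t.castSucc i) (heq ▸ hf t'.castSucc i')
    have ht : t = t' := Fin.castSucc_injective _ htt
    subst ht
    rw [Prod.mk.injEq]
    refine ⟨rfl, ?_⟩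
    fin_cases i <;> fin_cases i'
    · rfl
    · exact absurd heq (hfne _)
    · exact absurd heq.symm (hfne _)
    · rfl
  · intro ti
    have h7 := h.bd _ (Or.inr ⟨_, hf ti.1.castSucc ti.2⟩)
    omega
  · intro t
    have g0 := (hs0 t.castSucc).1.inn 0 (by omega)
    have g1 := (hs0 t.castSucc).1.inn 1 (by omega)
    have g2 := (hs1 t.castSucc).1.inn 0 (by omega)
    refine ⟨_, (fo_foot0 g0).1, _, (fo_foot1 g1).1, _, (fo_foot0 g2).1, ?_⟩
    simp only
    rw [(h6 t.castSucc).1, ← (fo_foot0 g0).2, ← (fo_foot1 g1).2, ← (fo_foot0 g2).2]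
    ext w
    simp only [mem_ofPred_eq, mem_insert_iff, mem_singleton_iff]
    constructor
    · rintro ⟨c, hc, i, hi, rfl⟩
      by_cases hcr : c = f t.castSucc 0
      · rw [if_pos hcr] at hi ⊢
        rw [hcr]
        have hi0 : i = 0 ∨ i = 1 := by omega
        rcases hi0 with rfl | rfl
        · exact Or.inl rfl
        · exact Or.inr (Or.inl rfl)
      · rw [if_neg hcr] at hi ⊢
        have hi0 : i = 0 := by omega
        have : c = f t.castSucc 1 := (hfall _ c hc).resolve_left hcr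
        rw [this, hi0]
        exact Or.inr (Or.inr rfl)
    · have hne := (hfne t.castSucc).symm
      rintro (rfl | rfl | rfl)
      · exact ⟨_, hf _ 0, 0, by rw [if_pos rfl]; omega, by rw [if_pos rfl]⟩
      · exact ⟨_, hf _ 0, 1, by rw [if_pos rfl]; omega, by rw [if_pos rfl]⟩
      · exact ⟨_, hf _ 1, 0, by rw [if_neg hne]; omega, by rw [if_neg hne]⟩

end DA
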