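import Pool.Agent.DA.NearK

/-!
# The family at a free scale, next to missing vertices
-/

open Set BIC BICS
open scoped Matroid

namespace DA

open Gad

universe u

/-- Legs in a square, directions of `T`. -/
structure LegsP (q : ℕ × ℕ) (L : ℕ) (T : ℕ → Prop) (Λ K : Set (ℕ × ℕ)) (st : ℕ → ℕ × ℕ) :
    Prop where
  inn : ∀ d < 4, T d → Inn q L (st d).1 (st d).2
  dis : ∀ d < 4, ∀ d' < 4, T d → T d' → d ≠ d' → ∀ v, ray d (st d) v → ¬ ray d' (st d') v
  start : ∀ d < 4, T d → real K d (st d) ∈ Λ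
  clean : ∀ d < 4, T d → ∀ v ∈ Λ, ray d (st d) v → v = real K d (st d)
  kray : ∀ d < 4, T d → ∀ v ∈ K, v ∈ rect q.1 q.2 L L → ray d (st d) v → v = st d
  kst : ∀ v ∈ K, v ∈ rect q.1 q.2 L L → ∃ d < 4, T d ∧ st d = v

lemma LegsP.legsQ {q : ℕ × ℕ} {L m : ℕ} {Λ K : Set (ℕ × ℕ)} {st : ℕ → ℕ × ℕ}
    (h : LegsP q L (fun d => d ≠ m) Λ K st) : LegsQ q L m Λ K st :=
  ⟨h.inn, h.dis, h.start, h.clean, h.kray, h.kst⟩

/-- Left and right, or left only. -/
lemma LegsP.ok {q : ℕ × ℕ} {L τ : ℕ} {Λ K : Set (ℕ × ℕ)} {st : ℕ → ℕ × ℕ} (hq : 1 ≤ q.1)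
    (hτ : τ ≤ 2) {T : ℕ → Prop} (hT : ∀ d < 4, T d ↔ d < τ) (h : LegsP q L T Λ K st)
    (hKb : ∀ v ∈ K, v ∈ rect (q.1 - 1) (q.2 - 1) (L + 2) (L + 2) → v ∈ rect q.1 q.2 L L) :
    OkK q L τ Λ K st := by
  classical
  have hreal : ∀ i < 3, real K i (st i) = xp i (st i) (off K (st i)) := by
    intro i hi
    have h3 : i = 0 ∨ i = 1 ∨ i = 2 := by omega
    unfold real off stp xp
    rcases h3 with rfl | rfl | rfl
    · by_cases hK : st 0 ∈ K <;> simp [hK]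
    · by_cases hK : st 1 ∈ K <;> simp [hK]
    · by_cases hK : st 2 ∈ K <;> simp [hK]
  have hoff : ∀ v, off K v ≤ 1 := by
    intro v
    unfold off
    split_ifs <;> omega
  have hTi : ∀ i < τ, T i := fun i hi => (hT i (by omega)).2 hi
  refine ⟨⟨by omega, fun i hi => h.inn i (by omega) (hTi i hi), ?_, ?_, ?_⟩, ?_, ?_, ?_⟩
  · intro h2 h1
    by_contra hcon
    refine h.dis 0 (by omega) 1 (by omega) (hTi 0 (by omega)) (hTi 1 (by omega)) (by omega)
      (st 0) ?_ ?_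
    · unfold ray; omega
    · unfold ray; omega
  · intro h2
    omega
  · intro h2
    omega
  · intro i hi
    rw [← hreal i (by omega)]
    refine ⟨h.start i (by omega) (hTi i hi), fun j hj1 hj2 hcon => ?_⟩
    have g := h.inn i (by omega) (hTi i hi)
    have h1 : i = 0 → j ≤ (st i).1 := by
      intro h0
      obtain ⟨g1, g2, g3, g4⟩ := g
      unfold rp at hj2
      rw [if_pos h0] at hj2
      omega
    have h2 := h.clean i (by omega) (hTi i hi) _ hcon (xp_ray (by omega) h1)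
    rw [hreal i (by omega)] at h2
    have h3 := xp_inj hq g (show j ∈ Iic _ from hj2)
      (show off K (st i) ∈ Iic _ by
        have h5 := hoff (st i)
        rw [mem_Iic]
        omega) h2
    omega
  · intro v hv hvr
    obtain ⟨d, hd, hdm, h1⟩ := h.kst v hv hvr
    exact ⟨d, (hT d hd).1 hdm, h1⟩
  · intro i hi v hv hvx
    have g := h.inn i (by omega) (hTi i hi)
    have h4 := xp_mem_Iic (i := i) (by omega) hq g hvx
    obtain ⟨g1, g2, g3, g4⟩ := g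
    refine h.kray i (by omega) (hTi i hi) v hv ?_ ?_
    · refine hKb v hv ?_
      rw [Gad.mem_rct]
      omega
    · unfold ray
      omega

section

variable {α : Type u} {ι : Type} {P : Matroid α} {S : Set α} {ends : α → Sym2 (ℕ × ℕ)}
  {X : ℕ × ℕ} {n : ℕ}

/-- **The family at a free scale.** -/
theorem famK_of [Fintype ι] {K : Finset (ℕ × ℕ)}
    (hB : Bic P S ends)
    (hG : CWL.GrdU S ends (rect X.1 X.2 n n \ (K : Set (ℕ × ℕ))))
    {D δ₀ s s' L w₀ : ℕ} (hL : L = 2 * (s + 6) + 1)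
    (hs' : 2 * s ≤ s') (hs'' : L + δ₀ + s + 20 ≤ s') (N : ι → Finset (ℕ × ℕ)) (z : ι → α)
    (B : ι → Finset (ℕ × ℕ)) (hz : ∀ t, z t ∈ P.closure S ∧ z t ∉ S)
    (hNl : ∀ t, ∀ v ∈ CWL.Loc P S ends (z t), Deep X n D v → v ∈ N t)
    (hBN : ∀ t, (B t).Nonempty ∧ ∀ v ∈ B t, v ∈ N t ∧ Deep X n (w₀ + s') v)
    (hKd : ∀ v ∈ K, Deep X n (w₀ + s') v)
    (hKs : ∀ v ∈ K, ∀ w ∈ K, v ≠ w → s' < sd v w)
    (hgap : ∀ p q, (p ∈ K ∨ ∃ t, p ∈ N t) → (q ∈ K ∨ ∃ t, q ∈ N t) →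
      sd p q ≤ s ∨ s' < sd p q)
    (hw : D + 12 ≤ w₀) (hn2 : 2 * (w₀ + s') ≤ n) (hzone : ∀ p, (∃ t, p ∈ N t) →
      (p.1 < X.1 + w₀ ∨ X.1 + w₀ + s' ≤ p.1) ∧ (p.2 < X.2 + w₀ ∨ X.2 + w₀ + s' ≤ p.2) ∧
      (X.1 + n < p.1 + w₀ ∨ p.1 + w₀ + s' ≤ X.1 + n) ∧
      (X.2 + n < p.2 + w₀ ∨ p.2 + w₀ + s' ≤ X.2 + n))
    (hpriv : ∀ t t', t ≠ t' → ∀ v ∈ B t, ∀ w ∈ N t', s' < sd v w) :
    ∃ (Gr : Set (ℕ × ℕ)) (X' : ℕ × ℕ) (n' : ℕ) (E : Finset (ℕ × ℕ)) (sq : ℕ × ℕ → ℕ × ℕ)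
      (K' : Set (ℕ × ℕ)),
      FamK P S ends (rect X.1 X.2 n n \ (K : Set (ℕ × ℕ))) Gr X' n' L δ₀ E z
        (fun t => (B t).image sq) K' ∧
      (∀ v ∈ rect X.1 X.2 n n \ (K : Set (ℕ × ℕ)), v.1 < 2 * X'.1 + n' ∧ v.2 < 2 * X'.2 + n') ∧
      (∀ t, ∀ c ∈ B t, ∀ T st, Legs (K : Set (ℕ × ℕ)) (CWL.Loc P S ends (z t)) c s T st →
        LegsP (sq c) L T (CWL.Loc P S ends (z t) ∩ rect (sq c).1 (sq c).2 L L) K' st) ∧
      ∀ t, ∀ c ∈ B t, ∀ c' ∈ B t, s < sd c c' → sq c ≠ sq c' := by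
  classical
  obtain ⟨Ns, hNs⟩ : ∃ Ns : Finset (ℕ × ℕ), ∀ p, p ∈ Ns ↔ (p ∈ K ∨ ∃ t, p ∈ N t) :=
    ⟨K ∪ Finset.univ.biUnion N, fun p => by
      simp only [Finset.mem_union, Finset.mem_biUnion, Finset.mem_univ, true_and]⟩
  obtain ⟨rep, hrep1, hrep2, hrep3⟩ := classes Ns s s' hs' (fun p hp q hq =>
    hgap p q ((hNs p).1 hp) ((hNs q).1 hq))
  have hsp : Spr 3 (K : Set (ℕ × ℕ)) := by
    intro v hv w hw hne
    have h1 := hKs v hv w hw hne
    rw [apart_iff]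
    omega
  have hAN : ∀ t, ∀ a ∈ B t, a ∈ Ns := fun t a ha => (hNs a).2 (Or.inr ⟨t, ((hBN t).2 a ha).1⟩)
  have hAd : ∀ t, ∀ a ∈ B t, Deep X n (w₀ + s') a := fun t a ha => ((hBN t).2 a ha).2
  -- the square of a point
  obtain ⟨sq, hsq⟩ : ∃ sq : ℕ × ℕ → ℕ × ℕ, ∀ p, sq p = ((rep p).1 - (s + 6), (rep p).2 - (s + 6)) :=
    ⟨_, fun _ => rfl⟩
  have hint : ∀ p ∈ Ns, Deep X n (w₀ + s') p → X.1 + w₀ + s' ≤ (rep p).1 + s ∧
      X.2 + w₀ + s' ≤ (rep p).2 + s ∧ (rep p).1 + w₀ + s' ≤ X.1 + n + s ∧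
      (rep p).2 + w₀ + s' ≤ X.2 + n + s := by
    intro p hp hd
    have h1 := sd_le.1 (hrep1 p hp).2
    unfold Deep at hd
    omega
  have hsqi : ∀ p ∈ Ns, ∀ q ∈ Ns, Deep X n (w₀ + s') p → Deep X n (w₀ + s') q → sq p = sq q →
      rep p = rep q := by
    intro p hp q hq hdp hdq heq
    have h1 := hint p hp hdp
    have h2 := hint q hq hdq
    rw [hsq, hsq, Prod.mk.injEq] at heq
    exact Prod.ext (by omega) (by omega)
  -- points of a square
  have hin : ∀ p ∈ Ns, Deep X n (w₀ + s') p → ∀ v ∈ Ns, v ∈ rect (sq p).1 (sq p).2 L L →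
      rep v = rep p ∧ sd v (rep p) ≤ s := by
    intro p hp hd v hv hvs
    have h1 := hint p hp hd
    rw [hsq, Gad.mem_rct] at hvs
    simp only at hvs
    have h2 : sd v (rep p) ≤ s' := sd_le.2 (by omega)
    have h3 := hrep2 v hv _ (hrep1 p hp).1 h2
    have h4 := hrep2 p hp _ (hrep1 p hp).1 (by have := (hrep1 p hp).2; omega)
    refine ⟨h3.trans h4.symm, ?_⟩
    rcases hgap v (rep p) ((hNs v).1 hv) ((hNs _).1 (hrep1 p hp).1) with h5 | h5
    · exact h5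
    · omega
  have hown : ∀ p ∈ Ns, Deep X n (w₀ + s') p → p ∈ rect (sq p).1 (sq p).2 L L := by
    intro p hp hd
    have h1 := hint p hp hd
    have h2 := sd_le.1 (hrep1 p hp).2
    rw [hsq, Gad.mem_rct]
    simp only
    omega
  have hdepth : ∀ p ∈ Ns, Deep X n (w₀ + s') p → ∀ v ∈ Ns, v ∈ rect (sq p).1 (sq p).2 L L →
      (sq p).1 + 6 ≤ v.1 ∧ v.1 + 7 ≤ (sq p).1 + L ∧ (sq p).2 + 6 ≤ v.2 ∧
        v.2 + 7 ≤ (sq p).2 + L := by
    intro p hp hd v hv hvs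
    have h1 := hint p hp hd
    have h2 := sd_le.1 (hin p hp hd v hv hvs).2
    rw [hsq]
    simp only
    omega
  have hfar : ∀ p ∈ Ns, ∀ q ∈ Ns, Deep X n (w₀ + s') p → Deep X n (w₀ + s') q →
      rep p ≠ rep q → CWL.Far δ₀ (sq p) L (sq q) L := by
    intro p hp q hq hdp hdq hne
    have h1 := hint p hp hdp
    have h2 := hint q hq hdq
    have h3 := hrep3 p hp q hq hne
    have h4 : ¬ (sd (rep p) (rep q) ≤ s') := by omega
    rw [sd_le] at h4
    rw [hsq, hsq]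
    unfold CWL.Far
    simp only
    omega
  have hbd : ∀ p ∈ Ns, Deep X n (w₀ + s') p → X.1 + (w₀ + 3) + δ₀ ≤ (sq p).1 ∧
      X.2 + (w₀ + 3) + δ₀ ≤ (sq p).2 ∧ (sq p).1 + L + δ₀ + (w₀ + 3) ≤ X.1 + n ∧
      (sq p).2 + L + δ₀ + (w₀ + 3) ≤ X.2 + n := by
    intro p hp hd
    have h1 := hint p hp hd
    rw [hsq]
    simp only
    omega
  -- the common squares
  obtain ⟨E, hE⟩ : ∃ E : Finset (ℕ × ℕ), ∀ c, c ∈ E ↔ ∃ p ∈ Ns, Deep X n (w₀ + s') p ∧
      (∀ t, ∀ a ∈ B t, rep a ≠ rep p) ∧ sq p = c := by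
    refine ⟨(Ns.filter (fun p => Deep X n (w₀ + s') p ∧ ∀ t, ∀ a ∈ B t, rep a ≠ rep p)).image sq,
      fun c => ?_⟩
    simp only [Finset.mem_image, Finset.mem_filter]
    constructor
    · rintro ⟨p, ⟨h1, h2, h3⟩, h4⟩
      exact ⟨p, h1, h2, h3, h4⟩
    · rintro ⟨p, h1, h2, h3, h4⟩
      exact ⟨p, ⟨h1, h2, h3⟩, h4⟩
  obtain ⟨Qs, hQs'⟩ : ∃ Qs : ι → Finset (ℕ × ℕ), Qs = fun t => (B t).image sq := ⟨_, rfl⟩
  have hQs : ∀ t c, c ∈ Qs t ↔ ∃ a ∈ B t, sq a = c := by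
    intro t c
    rw [hQs']
    exact Finset.mem_image
  have hall : ∀ c, (c ∈ E ∨ ∃ t, c ∈ Qs t) → ∃ p ∈ Ns, Deep X n (w₀ + s') p ∧ sq p = c := by
    rintro c (hc | ⟨t, hc⟩)
    · obtain ⟨p, h1, h2, _, h4⟩ := (hE c).1 hc
      exact ⟨p, h1, h2, h4⟩
    · obtain ⟨a, ha, h1⟩ := (hQs t c).1 hc
      exact ⟨a, hAN t a ha, hAd t a ha, h1⟩
  have hMN : ∀ v ∈ K, v ∈ Ns := fun v hv => (hNs v).2 (Or.inl hv)
  obtain ⟨W, hW⟩ : ∃ W, W = w₀ + 3 := ⟨_, rfl⟩
  obtain ⟨K', hK'⟩ : ∃ K' : Set (ℕ × ℕ), ∀ v, v ∈ K' ↔ v ∈ K ∧ ∃ t, ∃ c ∈ Qs t,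
      v ∈ rect c.1 c.2 L L := ⟨{v | v ∈ K ∧ ∃ t, ∃ c ∈ Qs t, v ∈ rect c.1 c.2 L L}, fun v => Iff.rfl⟩
  -- a missing vertex is in a common square or in a square of an element
  have hME : ∀ v ∈ K, v ∈ hls E L ∨ v ∈ K' := by
    intro v hv
    have hd := hKd v hv
    have h1 := hown v (hMN v hv) hd
    by_cases hex : ∃ t, ∃ a ∈ B t, rep a = rep v
    · obtain ⟨t, a, ha, heq⟩ := hex
      right
      refine (hK' v).2 ⟨hv, t, sq v, (hQs t _).2 ⟨a, ha, ?_⟩, h1⟩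
      rw [hsq, hsq, heq]
    · push Not at hex
      left
      refine mem_hls.2 ⟨sq v, (hE _).2 ⟨v, hMN v hv, hd, hex, rfl⟩, ?_⟩
      rw [Gad.mem_rct] at h1
      exact h1
  have hrr : ∀ v : ℕ × ℕ, v ∈ rect (X.1 + W) (X.2 + W) (n - 2 * W) (n - 2 * W) →
      v ∈ rect X.1 X.2 n n := by
    intro v hv
    rw [Gad.mem_rct] at hv ⊢
    omega
  have hEr : ∀ c, (c ∈ E ∨ ∃ t, c ∈ Qs t) → ∀ v ∈ rect c.1 c.2 L L,
      v ∈ rect (X.1 + W) (X.2 + W) (n - 2 * W) (n - 2 * W) := by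
    intro c hc v hv
    obtain ⟨p, h1, h2, rfl⟩ := hall c hc
    have h3 := hbd p h1 h2
    rw [Gad.mem_rct] at hv ⊢
    omega
  obtain ⟨Gr, hGr⟩ : ∃ Gr : Set (ℕ × ℕ), Gr = (rect X.1 X.2 n n \
      rect (X.1 + W) (X.2 + W) (n - 2 * W) (n - 2 * W) ∪ hls E L) \ (K : Set (ℕ × ℕ)) := ⟨_, rfl⟩
  have hGrm : ∀ v, v ∈ Gr ↔ ((v ∈ rect X.1 X.2 n n ∧
      v ∉ rect (X.1 + W) (X.2 + W) (n - 2 * W) (n - 2 * W)) ∨ v ∈ hls E L) ∧ v ∉ K := by
    intro v
    rw [hGr]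
    rfl
  have hP : Pres S ends (rect X.1 X.2 n n \ (K : Set (ℕ × ℕ))) :=
    fun p q hpq hp hq => hG.surj p q hpq hp hq
  have hGrA : Gr ⊆ rect X.1 X.2 n n \ (K : Set (ℕ × ℕ)) := by
    intro v hv
    obtain ⟨h1 | h1, h2⟩ := (hGrm v).1 hv
    · exact ⟨h1.1, h2⟩
    · obtain ⟨c, hc, h3⟩ := mem_hls.1 h1
      exact ⟨hrr v (hEr c (Or.inl hc) v (by rw [Gad.mem_rct]; exact h3)), h2⟩
  have hAf : (rect X.1 X.2 n n \ (K : Set (ℕ × ℕ))).Finite :=
    (rect_finite _ _ _ _).subset sdiff_subset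
  -- the grounded region is full
  have hfat : ∀ v ∈ Gr, Fat Gr v := by
    intro v hv
    obtain ⟨h1, h2⟩ := (hGrm v).1 hv
    have hstrip : ∀ a b c d, 2 ≤ c → 2 ≤ d → (∀ w ∈ rect a b c d, w ∈ rect X.1 X.2 n n ∧
        w ∉ rect (X.1 + W) (X.2 + W) (n - 2 * W) (n - 2 * W)) → v ∈ rect a b c d → Fat Gr v := by
      intro a b c d hc hd hsub hvr
      refine fat_rect hc hd hsp ?_ ?_ v hvr h2
      · intro w hw hwr
        obtain ⟨h4, h5⟩ := hsub w hwr
        have h6 := hKd w hw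
        exfalso
        apply h5
        unfold Deep at h6
        rw [Gad.mem_rct]
        omega
      · rintro w ⟨hw1, hw2⟩
        exact (hGrm w).2 ⟨Or.inl (hsub w hw1), hw2⟩
    rcases h1 with ⟨h1, h3⟩ | h1
    · rw [Gad.mem_rct] at h1 h3
      have hcase : v.1 < X.1 + W ∨ v.2 < X.2 + W ∨ X.1 + n ≤ v.1 + W ∨ X.2 + n ≤ v.2 + W := by
        omega
      rcases hcase with hc | hc | hc | hc
      · refine hstrip X.1 X.2 W n (by omega) (by omega) ?_ (by rw [Gad.mem_rct]; omega)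
        intro w hw
        rw [Gad.mem_rct] at hw ⊢
        rw [Gad.mem_rct]
        omega
      · refine hstrip X.1 X.2 n W (by omega) (by omega) ?_ (by rw [Gad.mem_rct]; omega)
        intro w hw
        rw [Gad.mem_rct] at hw ⊢
        rw [Gad.mem_rct]
        omega
      · refine hstrip (X.1 + n - W) X.2 W n (by omega) (by omega) ?_
          (by rw [Gad.mem_rct]; omega)
        intro w hw
        rw [Gad.mem_rct] at hw ⊢
        rw [Gad.mem_rct]
        omega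
      · refine hstrip X.1 (X.2 + n - W) n W (by omega) (by omega) ?_
          (by rw [Gad.mem_rct]; omega)
        intro w hw
        rw [Gad.mem_rct] at hw ⊢
        rw [Gad.mem_rct]
        omega
    · obtain ⟨c, hc, h3⟩ := mem_hls.1 h1
      obtain ⟨p, hp1, hp2, rfl⟩ := hall c (Or.inl hc)
      refine fat_rect (a := (sq p).1) (b := (sq p).2) (c := L) (d := L) (by omega) (by omega)
        hsp ?_ ?_ v (by rw [Gad.mem_rct]; exact h3) h2
      · intro w hw hwr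
        have h4 := hdepth p hp1 hp2 w (hMN w hw) hwr
        omega
      · rintro w ⟨hw1, hw2⟩
        refine (hGrm w).2 ⟨Or.inr (mem_hls.2 ⟨_, hc, ?_⟩), hw2⟩
        rw [Gad.mem_rct] at hw1
        exact hw1
  -- locations in a square
  have hlocN : ∀ t, ∀ c, (c ∈ E ∨ ∃ t, c ∈ Qs t) → ∀ v ∈ CWL.Loc P S ends (z t),
      v ∈ rect c.1 c.2 L L → v ∈ Ns ∧ v ∈ N t := by
    intro t c hc v hv hvr
    have h1 := hEr c hc v hvr
    have hvD : Deep X n D v := by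
      rw [Gad.mem_rct] at h1
      unfold Deep
      omega
    have h2 := hNl t v hv hvD
    exact ⟨(hNs v).2 (Or.inr ⟨t, h2⟩), h2⟩
  refine ⟨Gr, (X.1 + W, X.2 + W), n - 2 * W, E, sq, K', ?_, ?_, ?_, ?_⟩
  · rw [← hQs']
    refine ⟨hB, hAf, hG, ?_, hGrA, ?_, ?_, hz, ?_, ?_, ?_, ?_, ?_, ?_, ?_, ?_, ?_⟩
    · refine vconn_of_rch hG (rch_sparse (by omega) (by omega) K hsp ?_)
      intro m hm
      have := hKd m hm
      unfold Deep at this
      omega
    · exact full_of_fat hP _ Gr (hAf.subset hGrA) rfl hGrA hfat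
    · ext v
      constructor
      · rintro ⟨⟨h1, h2⟩, h3⟩
        rw [hGrm] at h3
        refine ⟨⟨?_, fun h4 => h3 ⟨Or.inr h4, h2⟩⟩, fun h4 => h2 ((hK' v).1 h4).1⟩
        by_contra h4
        exact h3 ⟨Or.inl ⟨h1, h4⟩, h2⟩
      · rintro ⟨⟨h1, h2⟩, h3⟩
        refine ⟨⟨hrr v h1, fun h4 => ?_⟩, ?_⟩
        · rcases hME v h4 with h5 | h5
          · exact h2 h5
          · exact h3 h5
        · rw [hGrm]
          rintro ⟨h4 | h4, _⟩
          · exact h4.2 h1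
          · exact h2 h4
    · intro t
      obtain ⟨a, ha⟩ := (hBN t).1
      exact ⟨sq a, (hQs t _).2 ⟨a, ha, rfl⟩⟩
    · intro t t' hne
      rw [Finset.disjoint_left]
      intro c hc hc'
      obtain ⟨a, ha, rfl⟩ := (hQs t c).1 hc
      obtain ⟨a', ha', h1⟩ := (hQs t' _).1 hc'
      have h2 := hsqi a' (hAN t' a' ha') a (hAN t a ha) (hAd t' a' ha') (hAd t a ha) h1
      have h3 := hpriv t t' hne a ha a' ((hBN t').2 a' ha').1
      have h4 := (hrep1 a (hAN t a ha)).2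
      have h5 := (hrep1 a' (hAN t' a' ha')).2
      rw [h2] at h5
      have h6 := sd_tri (p := a) (q := rep a) (r := a')
      rw [sd_comm (p := rep a)] at h6
      omega
    · intro t
      rw [Finset.disjoint_left]
      intro c hc hc'
      obtain ⟨a, ha, rfl⟩ := (hQs t c).1 hc
      obtain ⟨p, hp1, hp2, hp3, hp4⟩ := (hE _).1 hc'
      exact hp3 t a ha (hsqi p hp1 a (hAN t a ha) hp2 (hAd t a ha) hp4).symm
    · intro c c' hc hc' hne
      obtain ⟨p, hp1, hp2, rfl⟩ := hall c hc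
      obtain ⟨q, hq1, hq2, rfl⟩ := hall c' hc'
      refine hfar p hp1 q hq1 hp2 hq2 ?_
      intro heq
      apply hne
      rw [hsq, hsq, heq]
    · intro c hc
      obtain ⟨p, hp1, hp2, rfl⟩ := hall c hc
      have h3 := hbd p hp1 hp2
      simp only
      omega
    · intro t v hv
      obtain ⟨e, he, hve⟩ := loc_end (hz t).1 hv
      have hvA := grd_end hG he hve
      by_cases hvr : v ∈ rect (X.1 + W) (X.2 + W) (n - 2 * W) (n - 2 * W)
      · have hvD : Deep X n D v := by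
          rw [Gad.mem_rct] at hvr
          unfold Deep
          omega
        have hvN : v ∈ N t := hNl t v hv hvD
        have hvNs : v ∈ Ns := (hNs v).2 (Or.inr ⟨t, hvN⟩)
        have hvd : Deep X n (w₀ + s') v := by
          rw [Gad.mem_rct] at hvr
          have h1 := hzone v ⟨t, hvN⟩
          unfold Deep
          omega
        have hvo := hown v hvNs hvd
        by_cases hex : ∃ t', ∃ a ∈ B t', rep a = rep v
        · obtain ⟨t', a, ha, heq⟩ := hex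
          have htt : t' = t := by
            by_contra hne
            have h3 := hpriv t' t hne a ha v hvN
            have h4 := (hrep1 a (hAN t' a ha)).2
            have h5 := (hrep1 v hvNs).2
            rw [heq] at h4
            have h6 := sd_tri (p := a) (q := rep v) (r := v)
            rw [sd_comm (p := rep v)] at h6
            omega
          subst htt
          left
          refine mem_hls.2 ⟨sq v, (hQs t' _).2 ⟨a, ha, ?_⟩, ?_⟩
          · rw [hsq, hsq, heq]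
          · rw [Gad.mem_rct] at hvo
            exact hvo
        · push Not at hex
          right
          refine (hGrm v).2 ⟨Or.inr (mem_hls.2 ⟨sq v, (hE _).2 ⟨v, hvNs, hvd, hex, rfl⟩, ?_⟩),
            fun h => hvA.2 h⟩
          rw [Gad.mem_rct] at hvo
          exact hvo
      · right
        exact (hGrm v).2 ⟨Or.inl ⟨hvA.1, hvr⟩, fun h => hvA.2 h⟩
    · intro v hv hvA
      exact hvA.2 ((hK' v).1 hv).1
    · intro v hv w hw hne
      exact hsp v ((hK' v).1 hv).1 w ((hK' w).1 hw).1 hne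
    · intro v hv
      exact ((hK' v).1 hv).2
  · rintro v ⟨hv, _⟩
    rw [Gad.mem_rct] at hv
    simp only
    omega
  · intro t c hc T st h
    have hcN := hAN t c hc
    have hcd := hAd t c hc
    have hcr := hint c hcN hcd
    have hcQ : sq c ∈ E ∨ ∃ t, sq c ∈ Qs t := Or.inr ⟨t, (hQs t _).2 ⟨c, hc, rfl⟩⟩
    -- points near the centre
    have hnear : ∀ v ∈ Ns, sd v c ≤ s' → sd v (rep c) ≤ s := by
      intro v hv hvc
      have h1 := hrep2 v hv c hcN hvc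
      have h2 := (hrep1 v hv).2
      rwa [h1] at h2
    have hback : ∀ v ∈ Ns, v ∈ rect (sq c).1 (sq c).2 L L → sd v c ≤ s := by
      intro v hv hvr
      have h1 := (hin c hcN hcd v hv hvr).2
      have h2 := (hrep1 c hcN).2
      have h3 := sd_tri (p := v) (q := rep c) (r := c)
      rw [sd_comm (p := rep c)] at h3
      rcases hgap v c ((hNs v).1 hv) ((hNs c).1 hcN) with h4 | h4
      · exact h4
      · omega
    have hsq1 : ∀ v, sd v (rep c) ≤ s + 1 → v ∈ rect (sq c).1 (sq c).2 L L := by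
      intro v hv
      rw [sd_le] at hv
      rw [hsq, Gad.mem_rct]
      simp only
      omega
    have hKK : ∀ v ∈ rect (sq c).1 (sq c).2 L L, v ∈ K' ↔ v ∈ K := by
      intro v hv
      rw [hK']
      exact ⟨fun h => h.1, fun h => ⟨h, t, sq c, (hQs t _).2 ⟨c, hc, rfl⟩, hv⟩⟩
    -- the starts
    have hst : ∀ d < 4, T d → sd (st d) (rep c) ≤ s := by
      intro d hd hTd
      have h1 := h.near d hd hTd
      by_cases hK : st d ∈ (K : Set (ℕ × ℕ))
      · exact hnear _ (hMN _ hK) (by omega)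
      · have h2 := h.start d hd hTd
        unfold real at h2
        rw [if_neg hK] at h2
        refine hnear _ ?_ (by omega)
        refine (hNs _).2 (Or.inr ⟨t, hNl t _ h2 ?_⟩)
        have h3 := sd_le.1 h1
        unfold Deep at hcd ⊢
        omega
    have hstr : ∀ d < 4, T d → st d ∈ rect (sq c).1 (sq c).2 L L := fun d hd hTd =>
      hsq1 _ (by have := hst d hd hTd; omega)
    have hreal : ∀ d < 4, T d → real K' d (st d) = real (K : Set (ℕ × ℕ)) d (st d) := by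
      intro d hd hTd
      unfold real
      have h1 := hKK _ (hstr d hd hTd)
      by_cases hK : st d ∈ (K : Set (ℕ × ℕ))
      · rw [if_pos hK, if_pos (h1.2 hK)]
      · rw [if_neg hK, if_neg (fun h => hK (h1.1 h))]
    refine ⟨?_, h.dis, ?_, ?_, ?_, ?_⟩
    · intro d hd hTd
      have h1 := sd_le.1 (hst d hd hTd)
      unfold Inn
      rw [hsq]
      simp only
      omega
    · intro d hd hTd
      rw [hreal d hd hTd]
      refine ⟨h.start d hd hTd, hsq1 _ ?_⟩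
      have h1 := sd_le.1 (hst d hd hTd)
      rw [sd_le]
      unfold real stp
      split_ifs <;> omega
    · rintro d hd hTd v ⟨hv, hvr⟩ hray
      rw [hreal d hd hTd]
      exact h.clean d hd hTd v hv (hback v (hlocN t _ hcQ v hv hvr).1 hvr) hray
    · intro d hd hTd v hv hvr hray
      have h1 := (hKK v hvr).1 hv
      exact h.kray d hd hTd v h1 (hback v (hMN v h1) hvr) hray
    · intro v hv hvr
      have h1 := (hKK v hvr).1 hv
      exact h.kst v h1 (hback v (hMN v h1) hvr)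
  · intro t c hc c' hc' hcc heq
    have h1 := hsqi c (hAN t c hc) c' (hAN t c' hc') (hAd t c hc) (hAd t c' hc') heq
    have h2 := (hrep1 c (hAN t c hc)).2
    have h3 := (hrep1 c' (hAN t c' hc')).2
    rw [← h1] at h3
    have h4 := sd_tri (p := c) (q := rep c) (r := c')
    rw [sd_comm (p := rep c)] at h4
    rcases hgap c c' ((hNs c).1 (hAN t c hc)) ((hNs c').1 (hAN t c' hc')) with h5 | h5
    · omega
    · omega

end

end DA
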