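import Pool.Agent.DA.Sparse
import Pool.Agent.DA.StarC
import Pool.Agent.DA.WStat

/-!
# Regions with at most two missing vertices near every vertex
-/

open Set BIC BICS
open scoped Matroid

namespace DA

open Gad

/-- A vertex with at most two missing vertices in its neighbourhood can reach a unit face. -/
lemma fat_two {a b c d : ℕ} {W : Set (ℕ × ℕ)} (hc : 2 ≤ c) (hd : 2 ≤ d) {m₁ m₂ u : ℕ × ℕ}
    (hu : u ∈ rect a b c d) (h1 : u ≠ m₁) (h2 : u ≠ m₂)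
    (hW : ∀ v ∈ rect a b c d, sd v u ≤ 3 → v ≠ m₁ → v ≠ m₂ → v ∈ W)
    (hd1 : sd m₁ u ≤ 3 → a + 3 ≤ u.1 ∧ u.1 + 4 ≤ a + c ∧ b + 3 ≤ u.2 ∧ u.2 + 4 ≤ b + d)
    (hd2 : sd m₂ u ≤ 3 → a + 3 ≤ u.1 ∧ u.1 + 4 ≤ a + c ∧ b + 3 ≤ u.2 ∧ u.2 + 4 ≤ b + d) :
    Fat W u := by
  obtain ⟨u1, u2⟩ := u
  obtain ⟨p1, p2⟩ := m₁
  obtain ⟨q1, q2⟩ := m₂
  rw [Gad.mem_rct] at hu
  rw [sd_le] at hd1 hd2
  simp only at hu hd1 hd2
  have h1' : u1 ≠ p1 ∨ u2 ≠ p2 := by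
    by_contra hcon
    push Not at hcon
    exact h1 (by rw [hcon.1, hcon.2])
  have h2' : u1 ≠ q1 ∨ u2 ≠ q2 := by
    by_contra hcon
    push Not at hcon
    exact h2 (by rw [hcon.1, hcon.2])
  have hW' : ∀ s t : ℕ, a ≤ s → s < a + c → b ≤ t → t < b + d → s ≤ u1 + 3 → u1 ≤ s + 3 →
      t ≤ u2 + 3 → u2 ≤ t + 3 → (s ≠ p1 ∨ t ≠ p2) → (s ≠ q1 ∨ t ≠ q2) → (s, t) ∈ W := by
    intro s t g1 g2 g3 g4 g5 g6 g7 g8 g9 g10
    refine hW (s, t) (by rw [Gad.mem_rct]; exact ⟨g1, g2, g3, g4⟩) (by rw [sd_le]; simp only; omega)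
      ?_ ?_
    · intro h
      rw [Prod.mk.injEq] at h
      omega
    · intro h
      rw [Prod.mk.injEq] at h
      omega
  -- a free quadrant
  have hface : ∀ x y : ℕ, (x = u1 ∨ x + 1 = u1) → (y = u2 ∨ y + 1 = u2) → a ≤ x → x + 2 ≤ a + c →
      b ≤ y → y + 2 ≤ b + d → ¬ (x ≤ p1 ∧ p1 ≤ x + 1 ∧ y ≤ p2 ∧ p2 ≤ y + 1) →
      ¬ (x ≤ q1 ∧ q1 ≤ x + 1 ∧ y ≤ q2 ∧ q2 ≤ y + 1) → Fat W (u1, u2) := by
    intro x y g1 g2 g3 g4 g5 g6 g7 g8
    refine fat_corner g1 g2 (fun s t k1 k2 k3 k4 => ?_)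
    exact hW' s t (by omega) (by omega) (by omega) (by omega) (by omega) (by omega) (by omega)
      (by omega) (by omega) (by omega)
  by_cases hdeep : a + 3 ≤ u1 ∧ u1 + 4 ≤ a + c ∧ b + 3 ≤ u2 ∧ u2 + 4 ≤ b + d
  · by_cases k1 : ¬ (u1 ≤ p1 ∧ p1 ≤ u1 + 1 ∧ u2 ≤ p2 ∧ p2 ≤ u2 + 1) ∧
        ¬ (u1 ≤ q1 ∧ q1 ≤ u1 + 1 ∧ u2 ≤ q2 ∧ q2 ≤ u2 + 1)
    · exact hface u1 u2 (Or.inl rfl) (Or.inl rfl) (by omega) (by omega) (by omega) (by omega)
        k1.1 k1.2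
    by_cases k2 : ¬ (u1 - 1 ≤ p1 ∧ p1 ≤ u1 - 1 + 1 ∧ u2 ≤ p2 ∧ p2 ≤ u2 + 1) ∧
        ¬ (u1 - 1 ≤ q1 ∧ q1 ≤ u1 - 1 + 1 ∧ u2 ≤ q2 ∧ q2 ≤ u2 + 1)
    · exact hface (u1 - 1) u2 (Or.inr (by omega)) (Or.inl rfl) (by omega) (by omega) (by omega)
        (by omega) k2.1 k2.2
    by_cases k3 : ¬ (u1 ≤ p1 ∧ p1 ≤ u1 + 1 ∧ u2 - 1 ≤ p2 ∧ p2 ≤ u2 - 1 + 1) ∧
        ¬ (u1 ≤ q1 ∧ q1 ≤ u1 + 1 ∧ u2 - 1 ≤ q2 ∧ q2 ≤ u2 - 1 + 1)
    · exact hface u1 (u2 - 1) (Or.inl rfl) (Or.inr (by omega)) (by omega) (by omega) (by omega)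
        (by omega) k3.1 k3.2
    by_cases k4 : ¬ (u1 - 1 ≤ p1 ∧ p1 ≤ u1 - 1 + 1 ∧ u2 - 1 ≤ p2 ∧ p2 ≤ u2 - 1 + 1) ∧
        ¬ (u1 - 1 ≤ q1 ∧ q1 ≤ u1 - 1 + 1 ∧ u2 - 1 ≤ q2 ∧ q2 ≤ u2 - 1 + 1)
    · exact hface (u1 - 1) (u2 - 1) (Or.inr (by omega)) (Or.inr (by omega)) (by omega) (by omega)
        (by omega) (by omega) k4.1 k4.2
    -- two opposite neighbours are missing
    have hcase : (p2 = u2 ∧ q2 = u2) ∨ (p1 = u1 ∧ q1 = u1) := by omega
    rcases hcase with ⟨e1, e2⟩ | ⟨e1, e2⟩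
    · refine ⟨u1, u2 + 1, ?_, ?_, ?_, ?_, ?_⟩
      · exact hW' _ _ (by omega) (by omega) (by omega) (by omega) (by omega) (by omega) (by omega)
          (by omega) (by omega) (by omega)
      · exact hW' _ _ (by omega) (by omega) (by omega) (by omega) (by omega) (by omega) (by omega)
          (by omega) (by omega) (by omega)
      · exact hW' _ _ (by omega) (by omega) (by omega) (by omega) (by omega) (by omega) (by omega)
          (by omega) (by omega) (by omega)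
      · exact hW' _ _ (by omega) (by omega) (by omega) (by omega) (by omega) (by omega) (by omega)
          (by omega) (by omega) (by omega)
      · refine rch_col (fun t k5 k6 => ?_)
        exact hW' _ _ (by omega) (by omega) (by omega) (by omega) (by omega) (by omega) (by omega)
          (by omega) (by omega) (by omega)
    · refine ⟨u1 + 1, u2, ?_, ?_, ?_, ?_, ?_⟩
      · exact hW' _ _ (by omega) (by omega) (by omega) (by omega) (by omega) (by omega) (by omega)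
          (by omega) (by omega) (by omega)
      · exact hW' _ _ (by omega) (by omega) (by omega) (by omega) (by omega) (by omega) (by omega)
          (by omega) (by omega) (by omega)
      · exact hW' _ _ (by omega) (by omega) (by omega) (by omega) (by omega) (by omega) (by omega)
          (by omega) (by omega) (by omega)
      · exact hW' _ _ (by omega) (by omega) (by omega) (by omega) (by omega) (by omega) (by omega)
          (by omega) (by omega) (by omega)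
      · refine rch_row (fun t k5 k6 => ?_)
        exact hW' _ _ (by omega) (by omega) (by omega) (by omega) (by omega) (by omega) (by omega)
          (by omega) (by omega) (by omega)
  · -- nothing is missing nearby
    have g1 : ¬ (p1 ≤ u1 + 3 ∧ u1 ≤ p1 + 3 ∧ p2 ≤ u2 + 3 ∧ u2 ≤ p2 + 3) :=
      fun h => hdeep (hd1 h)
    have g2 : ¬ (q1 ≤ u1 + 3 ∧ u1 ≤ q1 + 3 ∧ q2 ≤ u2 + 3 ∧ u2 ≤ q2 + 3) :=
      fun h => hdeep (hd2 h)
    by_cases k1 : u1 + 1 < a + c <;> by_cases k2 : u2 + 1 < b + d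
    · exact hface u1 u2 (Or.inl rfl) (Or.inl rfl) (by omega) (by omega) (by omega) (by omega)
        (by omega) (by omega)
    · exact hface u1 (u2 - 1) (Or.inl rfl) (Or.inr (by omega)) (by omega) (by omega) (by omega)
        (by omega) (by omega) (by omega)
    · exact hface (u1 - 1) u2 (Or.inr (by omega)) (Or.inl rfl) (by omega) (by omega) (by omega)
        (by omega) (by omega) (by omega)
    · exact hface (u1 - 1) (u2 - 1) (Or.inr (by omega)) (Or.inr (by omega)) (by omega) (by omega)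
        (by omega) (by omega) (by omega) (by omega)

/-- A rectangle without a sparse set `K` and without one more vertex or two vertices far from `K`
is full. -/
theorem full_two {α : Type*} {S : Set α} {ends : α → Sym2 (ℕ × ℕ)} {a b c d : ℕ}
    {K P : Set (ℕ × ℕ)} (hc : 2 ≤ c) (hd : 2 ≤ d)
    (hG : CWL.GrdU S ends (rect a b c d \ K)) (hK : ∀ v ∈ K, DeepR (a, b) c d 8 v)
    (hP : ∀ v ∈ P, DeepR (a, b) c d 8 v)
    (hKs : ∀ v ∈ K, ∀ v' ∈ K, v ≠ v' → 6 < sd v v')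
    (hloc : ∀ u, (∃ w, ∀ v ∈ P, sd v u ≤ 3 → v = w) ∨
      ((∀ v ∈ K, 3 < sd v u) ∧ ∃ w w', ∀ v ∈ P, sd v u ≤ 3 → v = w ∨ v = w')) :
    ∃ F, FullB S ends ((rect a b c d \ K) \ P) F := by
  classical
  refine full_of_fat (U := rect a b c d \ K) (fun p q hpq hp hq => hG.surj p q hpq hp hq) _ _
    (((rect_finite _ _ _ _).subset sdiff_subset).subset sdiff_subset) rfl sdiff_subset ?_
  rintro u ⟨⟨hu, huK⟩, huP⟩
  -- a dummy vertex
  have hdum : ∀ v : ℕ × ℕ, sd v u ≤ 3 → v ≠ (u.1 + 10, u.2) := by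
    rintro v hv rfl
    rw [sd_le] at hv
    simp only at hv
    omega
  have hdum' : ¬ sd (u.1 + 10, u.2) u ≤ 3 := fun h => hdum _ h rfl
  have hune : u ≠ (u.1 + 10, u.2) := hdum u (by rw [sd_self]; omega)
  have hdeep : ∀ v, DeepR (a, b) c d 8 v → sd v u ≤ 3 →
      a + 3 ≤ u.1 ∧ u.1 + 4 ≤ a + c ∧ b + 3 ≤ u.2 ∧ u.2 + 4 ≤ b + d := by
    intro v hv hs
    rw [sd_le] at hs
    unfold DeepR at hv
    simp only at hv
    omega
  -- at most one element of a set nearby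
  have hone : ∀ Q : Set (ℕ × ℕ), (∀ v ∈ Q, DeepR (a, b) c d 8 v) → u ∉ Q →
      (∃ w, ∀ v ∈ Q, sd v u ≤ 3 → v = w) → ∃ m, u ≠ m ∧ (∀ v ∈ Q, sd v u ≤ 3 → v = m) ∧
        (sd m u ≤ 3 → a + 3 ≤ u.1 ∧ u.1 + 4 ≤ a + c ∧ b + 3 ≤ u.2 ∧ u.2 + 4 ≤ b + d) := by
    intro Q hQ huQ hw
    by_cases hex : ∃ v ∈ Q, sd v u ≤ 3
    · obtain ⟨v, hv, hvs⟩ := hex
      obtain ⟨w, hw⟩ := hw
      refine ⟨v, ?_, ?_, fun _ => hdeep v (hQ v hv) hvs⟩
      · rintro rfl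
        exact huQ hv
      · intro v' hv' hvs'
        rw [hw v' hv' hvs', hw v hv hvs]
    · refine ⟨(u.1 + 10, u.2), hune, ?_, fun h => absurd h hdum'⟩
      intro v hv hvs
      exact absurd ⟨v, hv, hvs⟩ hex
  rcases hloc u with h1 | ⟨h1, w, w', h2⟩
  · obtain ⟨m, g1, g2, g3⟩ := hone P hP huP h1
    obtain ⟨m', g1', g2', g3'⟩ := hone K hK huK (by
      by_cases hex : ∃ v ∈ K, sd v u ≤ 3
      · obtain ⟨v, hv, hvs⟩ := hex
        refine ⟨v, fun v' hv' hvs' => ?_⟩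
        by_contra hne
        have h4 := hKs v' hv' v hv hne
        have h5 := sd_tri (p := v') (q := u) (r := v)
        rw [sd_comm] at hvs
        omega
      · exact ⟨u, fun v hv hvs => absurd ⟨v, hv, hvs⟩ hex⟩)
    refine fat_two hc hd hu g1 g1' ?_ g3 g3'
    intro v hv hvs h4 h5
    exact ⟨⟨hv, fun h => h5 (g2' v h hvs)⟩, fun h => h4 (g2 v h hvs)⟩
  · -- two vertices, `K` is far
    have hpt : ∀ w, ∃ m, u ≠ m ∧ (∀ v ∈ P, sd v u ≤ 3 → v = w → v = m) ∧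
        (sd m u ≤ 3 → a + 3 ≤ u.1 ∧ u.1 + 4 ≤ a + c ∧ b + 3 ≤ u.2 ∧ u.2 + 4 ≤ b + d) := by
      intro w
      by_cases hw : w ∈ P ∧ sd w u ≤ 3
      · refine ⟨w, ?_, fun v _ _ h => h, fun _ => hdeep w (hP w hw.1) hw.2⟩
        rintro rfl
        exact huP hw.1
      · refine ⟨(u.1 + 10, u.2), hune, ?_, fun h => absurd h hdum'⟩
        rintro v hv hvs rfl
        exact absurd ⟨hv, hvs⟩ hw
    obtain ⟨m, g1, g2, g3⟩ := hpt w
    obtain ⟨m', g1', g2', g3'⟩ := hpt w'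
    refine fat_two hc hd hu g1 g1' ?_ g3 g3'
    intro v hv hvs h4 h5
    refine ⟨⟨hv, fun h => ?_⟩, fun h => ?_⟩
    · have := h1 v h
      omega
    · rcases h2 v h hvs with h6 | h6
      · exact h4 (g2 v h hvs h6)
      · exact h5 (g2' v h hvs h6)

end DA
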