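import Pool.Agent.DA.Holes

/-!
# Two and three disjoint straight rays in a square, general position
-/

open Set BIC BICS
open scoped Matroid

namespace DA

open Gad

section

variable {q : ℕ × ℕ} {L : ℕ}

/-- Two disjoint rays. -/
lemma fat2g {a₀ b₀ a₁ b₁ : ℕ} (h0 : Inn q L a₀ b₀) (h1 : Inn q L a₁ b₁)
    (h01 : b₀ = b₁ → a₀ < a₁) :
    ∀ v ∈ rect q.1 q.2 L L \ (R0 q a₀ b₀ ∪ R1 q L a₁ b₁),
      Fat (rect q.1 q.2 L L \ (R0 q a₀ b₀ ∪ R1 q L a₁ b₁)) v := by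
  obtain ⟨W, hW⟩ : ∃ W, W = rect q.1 q.2 L L \ (R0 q a₀ b₀ ∪ R1 q L a₁ b₁) := ⟨_, rfl⟩
  have hm : ∀ x y, (x, y) ∈ W ↔ (q.1 ≤ x ∧ x < q.1 + L ∧ q.2 ≤ y ∧ y < q.2 + L) ∧
      (y = b₀ → a₀ < x) ∧ (y = b₁ → x < a₁) := by
    intro x y
    rw [hW, mem_sdiff, mem_union, Gad.mem_rct, R0, R1, mem_ofPred_eq, mem_ofPred_eq]
    simp only
    omega
  rw [← hW]
  clear hW
  obtain ⟨g1, g2, g3, g4⟩ := h0
  obtain ⟨k1, k2, k3, k4⟩ := h1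
  rintro ⟨x, y⟩ hv
  rw [hm] at hv
  by_cases c1 : x ≤ a₀ ∧ b₀ < y
  · -- blocked by the left ray: go left
    refine fat_l (a := q.1) (c := q.2 + L - 2) (by omega) ?_ ?_ ?_ ?_ ?_ <;> intros <;>
      rw [hm] <;> omega
  · by_cases c2 : a₁ ≤ x ∧ b₁ < y
    · by_cases c5 : x = q.1 + L - 1
      · refine fat_ur (a := q.1 + L - 2) (b := q.2 + L - 2) (by omega) (by omega)
          ?_ ?_ ?_ ?_ ?_ <;> intros <;> rw [hm] <;> omega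
      · refine fat_r (a := q.1 + L - 2) (c := q.2 + L - 2) (by omega) ?_ ?_ ?_ ?_ ?_ <;>
          intros <;> rw [hm] <;> omega
    · refine fat_dn (a := q.1) (b := q.2) (by omega) (by omega) ?_ ?_ ?_ ?_ ?_ <;> intros <;>
        rw [hm] <;> omega

/-- Three disjoint rays. -/
lemma fat3g {a₀ b₀ a₁ b₁ a₂ b₂ : ℕ} (h0 : Inn q L a₀ b₀) (h1 : Inn q L a₁ b₁)
    (h2 : Inn q L a₂ b₂) (h01 : b₀ = b₁ → a₀ < a₁) (h02 : a₂ ≤ a₀ → b₀ < b₂)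
    (h12 : a₁ ≤ a₂ → b₁ < b₂) :
    ∀ v ∈ rect q.1 q.2 L L \ (R0 q a₀ b₀ ∪ R1 q L a₁ b₁ ∪ R2 q L a₂ b₂),
      Fat (rect q.1 q.2 L L \ (R0 q a₀ b₀ ∪ R1 q L a₁ b₁ ∪ R2 q L a₂ b₂)) v := by
  obtain ⟨W, hW⟩ : ∃ W, W = rect q.1 q.2 L L \ (R0 q a₀ b₀ ∪ R1 q L a₁ b₁ ∪ R2 q L a₂ b₂) :=
    ⟨_, rfl⟩
  have hm : ∀ x y, (x, y) ∈ W ↔ (q.1 ≤ x ∧ x < q.1 + L ∧ q.2 ≤ y ∧ y < q.2 + L) ∧
      (y = b₀ → a₀ < x) ∧ (y = b₁ → x < a₁) ∧ (x = a₂ → y < b₂) := by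
    intro x y
    rw [hW, mem_sdiff, mem_union, mem_union, Gad.mem_rct, R0, R1, R2, mem_ofPred_eq, mem_ofPred_eq,
      mem_ofPred_eq]
    simp only
    omega
  rw [← hW]
  clear hW
  obtain ⟨g1, g2, g3, g4⟩ := h0
  obtain ⟨k1, k2, k3, k4⟩ := h1
  obtain ⟨l1, l2, l3, l4⟩ := h2
  rintro ⟨x, y⟩ hv
  rw [hm] at hv
  by_cases c1 : x ≤ a₀ ∧ b₀ < y
  · by_cases c2 : a₂ < x ∧ b₂ ≤ y
    · by_cases c3 : y = b₁
      · refine fat_ur (a := q.1 + L - 2) (b := q.2 + L - 2) (by omega) (by omega)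
          ?_ ?_ ?_ ?_ ?_ <;> intros <;> rw [hm] <;> omega
      · by_cases c4 : b₁ < y
        · refine fat_r (a := q.1 + L - 2) (c := q.2 + L - 2) (by omega) ?_ ?_ ?_ ?_ ?_ <;>
            intros <;> rw [hm] <;> omega
        · refine fat_r (a := q.1 + L - 2) (c := q.2) (by omega) ?_ ?_ ?_ ?_ ?_ <;>
            intros <;> rw [hm] <;> omega
    · refine fat_l (a := q.1) (c := q.2 + L - 2) (by omega) ?_ ?_ ?_ ?_ ?_ <;> intros <;>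
        rw [hm] <;> omega
  · by_cases c2 : a₁ ≤ x ∧ b₁ < y
    · by_cases c3 : x < a₂ ∧ b₂ ≤ y
      · by_cases c4 : y = b₀
        · refine fat_ul (a := q.1) (b := q.2 + L - 2) (by omega) (by omega) ?_ ?_ ?_ ?_ ?_ <;>
            intros <;> rw [hm] <;> omega
        · by_cases c5 : b₀ < y
          · refine fat_l (a := q.1) (c := q.2 + L - 2) (by omega) ?_ ?_ ?_ ?_ ?_ <;> intros <;>
              rw [hm] <;> omega
          · refine fat_l (a := q.1) (c := q.2) (by omega) ?_ ?_ ?_ ?_ ?_ <;> intros <;>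
              rw [hm] <;> omega
      · by_cases c5 : x = q.1 + L - 1
        · refine fat_ur (a := q.1 + L - 2) (b := q.2 + L - 2) (by omega) (by omega)
            ?_ ?_ ?_ ?_ ?_ <;> intros <;> rw [hm] <;> omega
        · refine fat_r (a := q.1 + L - 2) (c := q.2 + L - 2) (by omega) ?_ ?_ ?_ ?_ ?_ <;>
            intros <;> rw [hm] <;> omega
    · refine fat_dn (a := q.1) (b := q.2) (by omega) (by omega) ?_ ?_ ?_ ?_ ?_ <;> intros <;>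
        rw [hm] <;> omega

end

end DA
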