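import Pool.Agent.DA.Gam74H
import Pool.Agent.EN.LinkF0

/-!
# Gamma elements: final form (row B4, section 3 of LIFT+, problem MP_5165fa_co)

`kge_hub`: a picture which lies in the span of `Λ ⊆ Q` and of the contracted set, up to rank
`k - 1`, is linked to `Q`.
`gamma`: without a `U_{k,2k}`-minor, and with the dual grid on `Q ⊇ Λ`, all but `C h` labels are
fixed.
-/

open Set BIC BICS
open scoped Matroid

namespace DA
namespace Gam

universe u v w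

variable {α σ ι : Type*} {M : Matroid α}

lemma rk_jgrid_ge {S : Set α} {t : ℕ} {j : ℕ × ℕ → α} {ed : ℕ × ℕ → ℕ × ℕ → α}
    (h : Gad.JGrid M S t j ed) : rk M S = t * t := by
  have h1 : rk M S = (j '' Gad.Cl t).ncard := by
    unfold rk
    rw [← h.basis.encard_eq_eRk]; rfl
  rw [h1, h.inj.ncard_image, ← coe_ClF, Set.ncard_coe_finset]
  simp [ClF]

/-- **Linking without paths.** -/
theorem kge_hub [M.Finite] {C S Λ Q : Set α} {t d K : ℕ} {j : ℕ × ℕ → α}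
    {ed : ℕ × ℕ → ℕ × ℕ → α} (hJ : Gad.JGrid (M ／ C) S t j ed) (hC : C ⊆ M.E)
    (hQ : Q ⊆ M.E) (hCQ : Disjoint C Q) (hΛ : Λ ⊆ Q)
    (hr : rk M (S ∪ (Λ ∪ C)) ≤ rk M (Λ ∪ C) + d) (hK : K + d ≤ t * t) : KGe (M ／ C) S Q K := by
  have hfin : (M ／ C).Finite := ⟨M.ground_finite.subset sdiff_subset⟩
  have hSE : S ⊆ M.E \ C := hJ.basis.subset_ground
  have hQC : Q ⊆ M.E \ C := fun x hx => ⟨hQ hx, fun h => Set.disjoint_left.1 hCQ h hx⟩
  have hΛC : Λ ⊆ M.E \ C := hΛ.trans hQC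
  have hrS := rk_jgrid_ge hJ
  have h1 := BQ.rk_con (M := M) hC hΛC
  have h2 := BQ.rk_con (M := M) hC (union_subset hSE hΛC)
  rw [union_assoc] at h2
  have h3 : rk (M ／ C) (S ∪ Λ) ≤ rk (M ／ C) Λ + d := by omega
  intro X hSX hX
  have hΛX : Λ ⊆ (M ／ C).E \ X := fun x hx =>
    ⟨hΛC hx, fun h => (hX h).2 (hΛ hx)⟩
  have h4 : rk (M ／ C) S + rk (M ／ C) (M ／ C).E ≤
      rk (M ／ C) X + rk (M ／ C) (S ∪ ((M ／ C).E \ X)) := by
    refine rk_sub' (subset_inter hSX subset_union_left) ?_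
    intro x hx
    by_cases h : x ∈ X
    · exact Or.inl h
    · exact Or.inr (Or.inr ⟨hx, h⟩)
  have h5 : rk (M ／ C) Λ + rk (M ／ C) (S ∪ ((M ／ C).E \ X)) ≤
      rk (M ／ C) ((M ／ C).E \ X) + rk (M ／ C) (S ∪ Λ) := by
    refine rk_sub' (subset_inter hΛX subset_union_right) ?_
    rintro x (hx | hx)
    · exact Or.inr (Or.inl hx)
    · exact Or.inl hx
  omega

/-- **Gamma elements are fixed.**  `Q`, `D₂`: the dual grid in the tile `u`; `Λ ⊆ Q` the elements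
of the wall in the tile `u`. -/
theorem gamma (k : ℕ) (hk : 2 ≤ k) : ∃ C y₀ : ℕ, ∀ h l R n' : ℕ, ∃ n : ℕ, ∀ {α : Type u}
    {σ : Type v} {ι : Type w} (M : Matroid α) [M.Finite] (S Λ Q D₂ : Set α) (H : Finset σ)
    (c : σ → ℕ → α) (Lab : Finset ι) (E D : ι → Set α) (y : ℕ), Gm M S Λ H c n Lab E D →
    rk M Λ ≤ R → H.card ≤ h → Lab.card ≤ l → Q ⊆ M.E → D₂ ⊆ M.E \ Q → Λ ⊆ Q →
    Disjoint (S \ Λ) (Q ∪ D₂) → (∀ a ∈ Lab, Disjoint (E a) (Q ∪ D₂)) → y₀ ≤ y →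
    PGrid (M✶ ／ D₂) Q y →
    HasUniformMinor M k ∨
    ∃ B ⊆ Finset.Icc 1 n, B.card = n' ∧ ∃ Mov ⊆ Lab, Mov.card ≤ C * H.card ∧
      rk M ((⋃ a ∈ (Lab : Set ι) \ Mov, E a) ∪ (S \ ZH H c B)) ≤
        rk M (S \ ZH H c B) + H.card * k := by
  obtain ⟨K, t₀, hK⟩ := EN.thmFpp.{u} k
  obtain ⟨t, ht⟩ : ∃ t, t = max t₀ (K + k) := ⟨_, rfl⟩
  obtain ⟨y₀, hy₀⟩ := hK t (by rw [ht]; exact le_max_left _ _)
  refine ⟨3 * k * CC (t * t) (k - 1), y₀, ?_⟩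
  intro h l R n'
  obtain ⟨n, hn⟩ := gam.{u, v, w} k hk t h l R n'
  refine ⟨n, ?_⟩
  intro α σ ι M _ S Λ Q D₂ H c Lab E D y hG hΛR hH hl hQ hD₂ hΛQ hSQ hEQ hy hP
  rcases hn M S Λ H c Lab E D hG hΛR hH hl with h1 | ⟨C', S', j, ed, h1, h2, h3, h4⟩ |
    ⟨B, h1, h2, Mov, h3, h4, h5⟩
  · exact Or.inl h1
  · left
    have hUE : Disjoint (⋃ a ∈ Lab, E a) (Q ∪ D₂) := by
      rw [Set.disjoint_left]
      intro x hx
      obtain ⟨a, ha, h5⟩ := mem_iUnion₂.1 hx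
      exact Set.disjoint_left.1 (hEQ a ha) h5
    have hC'Q : Disjoint C' (Q ∪ D₂) := (Set.disjoint_union_left.2 ⟨hSQ, hUE⟩).mono_left h1
    have hC'E : C' ⊆ M.E := by
      refine h1.trans (union_subset (sdiff_subset.trans hG.subS) ?_)
      exact iUnion₂_subset fun a ha => (hG.subE a ha).trans (M.closure_subset_ground _)
    have hS'Q : Disjoint S' Q := (hUE.mono_left h2).mono_right subset_union_left
    have hkt : K + (k - 1) ≤ t * t := by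
      have g1 : K + k ≤ t := by rw [ht]; exact le_max_right _ _
      have g2 : t ≤ t * t := Nat.le_mul_of_pos_left _ (by omega)
      omega
    have hKG := kge_hub h3 hC'E hQ (hC'Q.mono_right subset_union_left) hΛQ h4 hkt
    have hfin : (M ／ C').Finite := ⟨M.ground_finite.subset sdiff_subset⟩
    have hP' := EN.pgrid_contract hQ hD₂ hC'Q hP
    have h5 := hy₀ y hy (M ／ C') S' Q D₂ j ed h3
      (fun x hx => ⟨hQ hx, fun h => Set.disjoint_left.1 hC'Q h (Or.inl hx)⟩) hS'Q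
      (fun x hx => ⟨⟨(hD₂ hx).1, fun h => Set.disjoint_left.1 hC'Q h (Or.inr hx)⟩, (hD₂ hx).2⟩)
      hP' hKG
    obtain ⟨N', g1, g2⟩ := h5
    exact ⟨N', g1.trans (by simpa using M.contract_delete_isMinor C' ∅), g2⟩
  · refine Or.inr ⟨B, h1, h2, Mov, h3, ?_, h5⟩
    rw [mul_comm]
    exact h4

end Gam
end DA
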