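import Pool.Agent.Helper91.SR.Ramsey
import Pool.Agent.BICS.Base
import Pool.Agent.GL.Comb

/-!
# All windows at once (row W of LIFT+)

`ramsey_col`: Ramsey's theorem for hypergraphs with finitely many colours.
`liftW`: a rank bound over all `ρ`-sets of tiles gives the same bound over many tiles.
-/

open Set
open scoped Matroid

namespace DA

open BIC BICS

/-- Ramsey for `d`-sets and finitely many colours. -/
theorem ramsey_col (d : ℕ) : ∀ (C : ℕ) (m : ℕ), ∃ N : ℕ, ∀ (I : Finset ℕ), N ≤ I.card →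
    ∀ c : Finset ℕ → ℕ, (∀ e ⊆ I, e.card = d → c e < C + 1) →
      ∃ T ⊆ I, T.card = m ∧ ∃ a < C + 1, ∀ e ⊆ T, e.card = d → c e = a := by
  intro C
  induction C with
  | zero =>
    intro m
    refine ⟨m, fun I hI c hc => ?_⟩
    obtain ⟨T, hT, hTm⟩ := Finset.exists_subset_card_eq hI
    exact ⟨T, hT, hTm, 0, by omega, fun e he hd => by
      have := hc e (he.trans hT) hd
      omega⟩
  | succ C ih =>
    intro m
    obtain ⟨N₁, h1⟩ := ih m
    obtain ⟨N₂, h2⟩ := Pool.Agent.Helper91.SR.ramsey_exists d m N₁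
    refine ⟨N₂, fun I hI c hc => ?_⟩
    rcases h2 ℕ I (fun e => decide (c e = C + 1)) hI with ⟨T, g1, g2, g3⟩ | ⟨T, g1, g2, g3⟩
    · exact ⟨T, g1, g2, C + 1, by omega, fun e he hd => by simpa using g3 e he hd⟩
    · obtain ⟨T', k1, k2, a, ha, k3⟩ := h1 T (by omega) c fun e he hd => by
        have h5 := hc e (he.trans g1) hd
        have h6 : c e ≠ C + 1 := by simpa using g3 e he hd
        omega
      exact ⟨T', k1.trans g1, k2, a, by omega, k3⟩

/-- The same with a finite set of colours, one of which is allowed for every `d`-set. -/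
theorem ramsey_type (d : ℕ) (C m : ℕ) : ∃ N : ℕ, ∀ {Γ : Type*} [Finite Γ], Nat.card Γ ≤ C →
    ∀ (I : Finset ℕ), N ≤ I.card → ∀ p : Finset ℕ → Γ → Prop,
      (∀ e ⊆ I, e.card = d → ∃ R, p e R) →
      ∃ T ⊆ I, T.card = m ∧ ∃ R, ∀ e ⊆ T, e.card = d → p e R := by
  obtain ⟨N, hN⟩ := ramsey_col d C (max m d)
  refine ⟨N, ?_⟩
  intro Γ _ hC I hI p hp
  classical
  have hf := Fintype.ofFinite Γ
  obtain ⟨φ⟩ : Nonempty (Γ ≃ Fin (Nat.card Γ)) := ⟨Finite.equivFin Γ⟩
  obtain ⟨T, h1, h2, a, ha, h3⟩ := hN I hI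
    (fun e => if h : ∃ R, p e R then (φ h.choose).val else 0) (fun e he hd => by
      rw [dif_pos (hp e he hd)]
      have := (φ (hp e he hd).choose).isLt
      omega)
  obtain ⟨T', k1, k2⟩ := Finset.exists_subset_card_eq (s := T) (n := m) (by omega)
  obtain ⟨e₀, e1, e2⟩ := Finset.exists_subset_card_eq (s := T) (n := d) (by omega)
  have h4 := h3 e₀ e1 e2
  rw [dif_pos (hp e₀ (e1.trans h1) e2)] at h4
  refine ⟨T', k1.trans h1, k2, (hp e₀ (e1.trans h1) e2).choose, fun e he hd => ?_⟩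
  have h5 := h3 e (he.trans k1) hd
  have hpe := hp e (he.trans (k1.trans h1)) hd
  rw [dif_pos hpe] at h5
  have h6 : hpe.choose = (hp e₀ (e1.trans h1) e2).choose := by
    apply φ.injective
    ext
    rw [h5, h4]
  rw [← h6]
  exact hpe.choose_spec

variable {α : Type*}

/-- Exchange: `A` independent, inside of the span of the independent set `O`. -/
lemma exchW {N : Matroid α} [N.Finite] {A O : Set α} (hA : N.Indep A) (hO : N.Indep O)
    (hAO : A ⊆ N.closure O) : ∃ Z ⊆ O, Z.ncard ≤ (A \ O).ncard ∧ N.Indep (A ∪ (O \ Z)) := by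
  have hfO : O.Finite := N.ground_finite.subset hO.subset_ground
  have hfA : A.Finite := N.ground_finite.subset hA.subset_ground
  obtain ⟨I, hI, hAI⟩ := hA.subset_isBasis_of_subset (X := A ∪ O) subset_union_left
    (union_subset hA.subset_ground hO.subset_ground)
  have hIf : I.Finite := N.ground_finite.subset hI.indep.subset_ground
  have h1 : I.ncard ≤ O.ncard := by
    have h2 : I ⊆ N.closure O := hI.subset.trans (union_subset hAO
      (N.subset_closure O hO.subset_ground))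
    have h3 := rk_mono N h2
    rw [rk_indep hI.indep, rk_closure, rk_indep hO] at h3
    exact h3
  have h1' : O.ncard ≤ I.ncard := by
    have h2 : O ⊆ N.closure I := by
      rw [hI.closure_eq_closure]
      exact subset_union_right.trans (N.subset_closure _
        (union_subset hA.subset_ground hO.subset_ground))
    have h3 := rk_mono N h2
    rw [rk_indep hO, rk_closure, rk_indep hI.indep] at h3
    exact h3
  refine ⟨O \ I, sdiff_subset, ?_, hI.indep.subset ?_⟩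
  · have h4 := Set.ncard_sdiff_add_ncard I O hIf hfO
    have h5 := Set.ncard_sdiff_add_ncard O I hfO hIf
    rw [union_comm] at h5
    have h6 : (I \ O).ncard ≤ (A \ O).ncard := by
      refine Set.ncard_le_ncard (fun e he => ⟨?_, he.2⟩) (hfA.subset sdiff_subset)
      rcases hI.subset he.1 with h | h
      · exact h
      · exact absurd h he.2
    omega
  · rintro e (he | ⟨he, he'⟩)
    · exact hAI he
    · by_contra h
      exact he' ⟨he, h⟩

/-- The union of the sets `K b`, `b ∈ I`. -/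
def KU (K : ℕ → Set α) (I : Finset ℕ) : Set α := ⋃ b ∈ I, K b

lemma mem_KU {K : ℕ → Set α} {I : Finset ℕ} {e : α} : e ∈ KU K I ↔ ∃ b ∈ I, e ∈ K b := by
  unfold KU
  rw [mem_iUnion₂]
  exact ⟨fun ⟨b, hb, h⟩ => ⟨b, hb, h⟩, fun ⟨b, hb, h⟩ => ⟨b, hb, h⟩⟩

/-- **All windows at once.**  If for every `ρ`-set `w` of tiles there is a colour `R` with
`r(TT R ∪ S) < r(S) + ρ` after the contraction of `K b`, `b ∉ w`, then this is true for a large set
`B` of tiles instead of `w`, with one colour. -/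
theorem liftW (ρ C m : ℕ) (hm : ρ ≤ m) : ∃ n₀ : ℕ, ∀ {α Γ : Type*} [Finite Γ],
    Nat.card Γ ≤ C → ∀ (M : Matroid α) [M.Finite] (S Y : Set α) (K : ℕ → Set α)
      (TT : Γ → Set α) (p : Γ → Prop) (I : Finset ℕ), n₀ ≤ I.card → S ⊆ M.E → Y ⊆ M.E →
      rk M (S ∪ Y) = rk M S + rk M Y → (∀ R, TT R ⊆ M.closure (S ∪ Y)) →
      (∀ b ∈ I, K b ⊆ Y) → M.Indep (KU K I) →
      (∀ b ∈ I, ∀ b' ∈ I, b ≠ b' → Disjoint (K b) (K b')) →
      (∀ w ⊆ I, w.card = ρ → ∃ R, p R ∧
        rk M (TT R ∪ (S ∪ KU K (I \ w))) < rk M (S ∪ KU K (I \ w)) + ρ) →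
      ∃ B ⊆ I, B.card = m ∧ ∃ R, p R ∧
        rk M (TT R ∪ (S ∪ KU K (I \ B))) < rk M (S ∪ KU K (I \ B)) + ρ := by
  obtain ⟨n₀, hn₀⟩ := ramsey_type ρ C m
  refine ⟨n₀, ?_⟩
  intro α Γ _ hC M _ S Y K TT p I hI hS hY hSY hT hKY hKi hKd h
  classical
  obtain ⟨B, hB, hBm, R, hR⟩ := hn₀ hC I hI
    (fun w R => p R ∧ rk M (TT R ∪ (S ∪ KU K (I \ w))) < rk M (S ∪ KU K (I \ w)) + ρ)
    (fun w hw hc => h w hw hc)
  have hpR : p R := by
    obtain ⟨w, hw, hc⟩ := Finset.exists_subset_card_eq (s := B) (n := ρ) (by omega)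
    exact (hR w hw hc).1
  refine ⟨B, hB, hBm, R, hpR, ?_⟩
  by_contra hcon
  rw [not_lt] at hcon
  obtain ⟨C₀, hC₀⟩ : ∃ C₀, C₀ = S ∪ KU K (I \ B) := ⟨_, rfl⟩
  rw [← hC₀] at hcon
  have hKUY : ∀ J ⊆ I, KU K J ⊆ Y := by
    intro J hJ e he
    obtain ⟨b, hb, h1⟩ := mem_KU.1 he
    exact hKY b (hJ hb) h1
  have hKUm : ∀ J ⊆ I, KU K J ⊆ KU K I := by
    intro J hJ e he
    obtain ⟨b, hb, h1⟩ := mem_KU.1 he
    exact mem_KU.2 ⟨b, hJ hb, h1⟩
  have hsum : ∀ X ⊆ KU K I, rk M (S ∪ X) = rk M S + X.ncard := by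
    intro X hX
    have hXi : M.Indep X := hKi.subset hX
    have hXf : X.Finite := M.ground_finite.subset hXi.subset_ground
    have h1 := rk_submod M (S ∪ X) Y
    have h2 : S ∪ X ∪ Y = S ∪ Y := by
      rw [union_assoc, union_eq_self_of_subset_left (hX.trans (hKUY I (Finset.Subset.refl _)))]
    have h3 : rk M X ≤ rk M ((S ∪ X) ∩ Y) := rk_mono M (subset_inter subset_union_right
      (hX.trans (hKUY I (Finset.Subset.refl _))))
    rw [h2, hSY] at h1
    rw [rk_indep hXi] at h3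
    have h4 := rk_union_le M (X := S) hXf
    omega
  have hKS : Disjoint (KU K I) S := by
    rw [Set.disjoint_left]
    intro e he heS
    have h1 := hsum {e} (singleton_subset_iff.2 he)
    rw [union_eq_self_of_subset_right (singleton_subset_iff.2 heS), ncard_singleton] at h1
    omega
  have hC₀E : C₀ ⊆ M.E := by
    rw [hC₀]
    exact union_subset hS ((hKUY _ Finset.sdiff_subset).trans hY)
  have hKB : KU K B ⊆ M.E \ C₀ := by
    intro e he
    refine ⟨hY (hKUY B hB he), ?_⟩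
    rw [hC₀]
    rintro (h1 | h1)
    · exact Set.disjoint_left.1 hKS (hKUm B hB he) h1
    · obtain ⟨b, hb, h2⟩ := mem_KU.1 he
      obtain ⟨b', hb', h3⟩ := mem_KU.1 h1
      rw [Finset.mem_sdiff] at hb'
      exact Set.disjoint_left.1 (hKd b (hB hb) b' hb'.1 fun e' => hb'.2 (e' ▸ hb)) h2 h3
  have hfin : (M ／ C₀).Finite := ⟨M.ground_finite.subset sdiff_subset⟩
  have hKBi : (M ／ C₀).Indep (KU K B) := by
    have hKBf : (KU K B).Finite := M.ground_finite.subset (hKB.trans sdiff_subset)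
    have h1 := rk_contract_set hC₀E hKB
    have h2 : KU K B ∪ C₀ = S ∪ (KU K B ∪ KU K (I \ B)) := by
      rw [hC₀]
      ext e
      simp only [mem_union]
      tauto
    have h3 : Disjoint (KU K B) (KU K (I \ B)) := by
      rw [Set.disjoint_left]
      intro e he he'
      exact (hKB he).2 (by rw [hC₀]; exact Or.inr he')
    have hKBf' : (KU K (I \ B)).Finite := M.ground_finite.subset
      ((hKUY _ Finset.sdiff_subset).trans hY)
    rw [h2, hsum _ (union_subset (hKUm B hB) (hKUm _ Finset.sdiff_subset)),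
      Set.ncard_union_eq h3 hKBf hKBf', hC₀, hsum _ (hKUm _ Finset.sdiff_subset), ← hC₀] at h1
    have h4 : rk (M ／ C₀) (KU K B) = (KU K B).ncard := by omega
    rw [Matroid.indep_iff_eRk_eq_encard_of_finite hKBf]
    rw [← cast_rk, h4, hKBf.cast_ncard_eq]
  obtain ⟨O, hO, hKO⟩ := hKBi.subset_isBasis_of_subset (X := Y \ C₀)
    (fun e he => ⟨hKUY B hB he, (hKB he).2⟩) (sdiff_subset_sdiff_left hY)
  obtain ⟨J, hJ⟩ := (M ／ C₀).exists_isBasis (TT R \ C₀)
    (sdiff_subset_sdiff_left ((hT R).trans (M.closure_subset_ground _)))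
  have hJρ : ρ ≤ J.ncard := by
    have h1 := rk_contract_set hC₀E (X := TT R \ C₀)
      (sdiff_subset_sdiff_left ((hT R).trans (M.closure_subset_ground _)))
    rw [sdiff_union_self] at h1
    have h2 : rk (M ／ C₀) (TT R \ C₀) = J.ncard := by
      unfold BIC.rk
      rw [← hJ.encard_eq_eRk]
      rfl
    omega
  obtain ⟨A, hAJ, hAρ⟩ := Set.exists_subset_card_eq hJρ
  have hAi := hJ.indep.subset hAJ
  have hAcl : A ⊆ (M ／ C₀).closure O := by
    rw [hO.closure_eq_closure, Matroid.contract_closure_eq]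
    intro e he
    have h1 := hJ.subset (hAJ he)
    refine ⟨M.closure_subset_closure ?_ (hT R h1.1), h1.2⟩
    intro x hx
    by_cases h2 : x ∈ C₀
    · exact Or.inr h2
    · refine Or.inl ⟨?_, h2⟩
      rcases hx with hx | hx
      · exact absurd (by rw [hC₀]; exact Or.inl hx) h2
      · exact hx
  obtain ⟨Z, hZO, hZ, hind⟩ := exchW hAi hO.indep hAcl
  have hAf : A.Finite := (M ／ C₀).ground_finite.subset hAi.subset_ground
  have hOf : O.Finite := (M ／ C₀).ground_finite.subset hO.indep.subset_ground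
  have hW : (Z ∪ (A ∩ O)).ncard ≤ ρ := by
    have h1 := Set.ncard_union_le Z (A ∩ O)
    have h2 := Set.ncard_inter_add_ncard_sdiff_eq_ncard A O hAf
    omega
  obtain ⟨w₀, hw₀⟩ : ∃ w₀, w₀ = B.filter fun b => (K b ∩ (Z ∪ (A ∩ O))).Nonempty := ⟨_, rfl⟩
  have hw₀c : w₀.card ≤ ρ := by
    have h1 : ∀ b ∈ w₀, ∃ e, e ∈ K b ∧ e ∈ Z ∪ (A ∩ O) := by
      intro b hb
      rw [hw₀, Finset.mem_filter] at hb
      obtain ⟨e, h1, h2⟩ := hb.2
      exact ⟨e, h1, h2⟩
    rcases w₀.eq_empty_or_nonempty with h2 | ⟨b₁, hb₁⟩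
    · rw [h2, Finset.card_empty]
      exact Nat.zero_le _
    have hne : Nonempty α := ⟨(h1 b₁ hb₁).choose⟩
    choose! f hf using h1
    have hf1 : ∀ b ∈ w₀, f b ∈ K b := fun b hb => (hf b hb).1
    have hf2 : ∀ b ∈ w₀, f b ∈ Z ∪ (A ∩ O) := fun b hb => (hf b hb).2
    have hinj : Set.InjOn f (w₀ : Set ℕ) := by
      intro b hb b' hb' e
      by_contra hne
      have hb1 : b ∈ I := by
        have hb2 := Finset.mem_coe.1 hb
        rw [hw₀] at hb2
        exact hB (Finset.mem_filter.1 hb2).1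
      have hb1' : b' ∈ I := by
        have hb2 := Finset.mem_coe.1 hb'
        rw [hw₀] at hb2
        exact hB (Finset.mem_filter.1 hb2).1
      exact Set.disjoint_left.1 (hKd b hb1 b' hb1' hne) (hf1 b hb) (e ▸ hf1 b' hb')
    have h2 : (f '' (w₀ : Set ℕ)).ncard = w₀.card := by
      rw [hinj.ncard_image, Set.ncard_coe_finset]
    rw [← h2]
    refine (Set.ncard_le_ncard ?_ ((hOf.subset hZO).union (hAf.subset inter_subset_left))).trans hW
    rintro _ ⟨b, hb, rfl⟩
    exact hf2 b hb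
  obtain ⟨w, hw1, hw2, hw3⟩ := Finset.exists_subsuperset_card_eq (s := w₀) (t := B) (n := ρ)
    (by rw [hw₀]; exact Finset.filter_subset _ _) hw₀c (by omega)
  have h5 := (hR w hw2 hw3).2
  have hKw : KU K (B \ w) ⊆ O \ Z := by
    intro e he
    obtain ⟨b, hb, h6⟩ := mem_KU.1 he
    rw [Finset.mem_sdiff] at hb
    refine ⟨hKO (mem_KU.2 ⟨b, hb.1, h6⟩), fun h7 => hb.2 (hw1 ?_)⟩
    rw [hw₀, Finset.mem_filter]
    exact ⟨hb.1, e, h6, Or.inl h7⟩
  have hKA : Disjoint A (KU K (B \ w)) := by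
    rw [Set.disjoint_left]
    intro e heA he
    obtain ⟨b, hb, h6⟩ := mem_KU.1 he
    rw [Finset.mem_sdiff] at hb
    refine hb.2 (hw1 ?_)
    rw [hw₀, Finset.mem_filter]
    exact ⟨hb.1, e, h6, Or.inr ⟨heA, (hKw he).1⟩⟩
  have hKwf : (KU K (B \ w)).Finite := hOf.subset (hKw.trans sdiff_subset)
  have h6 : (M ／ C₀).Indep (A ∪ KU K (B \ w)) := hind.subset
    (union_subset_union_right A hKw)
  have h7 := rk_indep h6
  rw [Set.ncard_union_eq hKA hAf hKwf, hAρ] at h7
  have h8 := rk_contract_set hC₀E (X := A ∪ KU K (B \ w)) h6.subset_ground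
  have h9 : KU K (I \ w) = KU K (B \ w) ∪ KU K (I \ B) := by
    ext e
    rw [mem_union, mem_KU, mem_KU, mem_KU]
    constructor
    · rintro ⟨b, hb, h10⟩
      rw [Finset.mem_sdiff] at hb
      by_cases h11 : b ∈ B
      · exact Or.inl ⟨b, Finset.mem_sdiff.2 ⟨h11, hb.2⟩, h10⟩
      · exact Or.inr ⟨b, Finset.mem_sdiff.2 ⟨hb.1, h11⟩, h10⟩
    · rintro (⟨b, hb, h10⟩ | ⟨b, hb, h10⟩)
      · rw [Finset.mem_sdiff] at hb
        exact ⟨b, Finset.mem_sdiff.2 ⟨hB hb.1, hb.2⟩, h10⟩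
      · rw [Finset.mem_sdiff] at hb
        exact ⟨b, Finset.mem_sdiff.2 ⟨hb.1, fun h11 => hb.2 (hw2 h11)⟩, h10⟩
  have h10 : rk M (A ∪ KU K (B \ w) ∪ C₀) ≤ rk M (TT R ∪ (S ∪ KU K (I \ w))) := by
    refine rk_mono M ?_
    rw [h9, hC₀]
    rintro e ((h | h) | (h | h))
    · exact Or.inl (hJ.subset (hAJ h)).1
    · exact Or.inr (Or.inr (Or.inl h))
    · exact Or.inr (Or.inl h)
    · exact Or.inr (Or.inr (Or.inr h))
  have h11 : rk M (S ∪ KU K (I \ w)) ≤ rk M C₀ + (KU K (B \ w)).ncard := by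
    have e1 : S ∪ KU K (I \ w) = C₀ ∪ KU K (B \ w) := by
      rw [h9, hC₀]
      ext e
      simp only [mem_union]
      tauto
    rw [e1]
    exact rk_union_le M hKwf
  omega

end DA
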