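import Pool.Agent.DA.HubStar74
import Pool.Agent.DA.LiftW

/-!
# Gamma elements, part A: visibility of rows (row B4 of cell G, problem MP_5165fa_co)

`z i`, `i ∈ I`: rows, independent over `Y`.  `vis F J`: the rank of `F` modulo `Y` and all rows
outside of `J`.
-/

open Set BIC BICS
open scoped Matroid

namespace DA
namespace Gam

universe u v

variable {α β : Type*} {M : Matroid α}

/-- The rows `I` are independent over `Y`. -/
structure Row (M : Matroid α) (Y : Set α) (z : ℕ → α) (I : Finset ℕ) : Prop where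
  subY : Y ⊆ M.E
  mem : ∀ i ∈ I, z i ∈ M.E
  ind : rk M (Y ∪ z '' I) = rk M Y + I.card

/-- `Y` and the rows outside of `J`. -/
def off (Y : Set α) (z : ℕ → α) (I J : Finset ℕ) : Set α := Y ∪ z '' ((I \ J : Finset ℕ) : Set ℕ)

/-- Visibility of the rows `J` from `F`. -/
noncomputable def vis (M : Matroid α) (Y : Set α) (z : ℕ → α) (I : Finset ℕ) (F : Set α)
    (J : Finset ℕ) : ℕ := rk M (off Y z I J ∪ F) - rk M (off Y z I J)

variable {Y : Set α} {z : ℕ → α} {I : Finset ℕ}

lemma off_anti {J J' : Finset ℕ} (h : J ⊆ J') : off Y z I J' ⊆ off Y z I J := by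
  refine union_subset_union_right _ (image_mono ?_)
  intro i hi
  rw [Finset.mem_coe, Finset.mem_sdiff] at hi ⊢
  exact ⟨hi.1, fun h' => hi.2 (h h')⟩

lemma Row.off_sub (hR : Row M Y z I) (J : Finset ℕ) : off Y z I J ⊆ M.E := by
  refine union_subset hR.subY ?_
  rintro _ ⟨i, hi, rfl⟩
  exact hR.mem i (Finset.sdiff_subset (Finset.mem_coe.1 hi))

lemma off_full (J : Finset ℕ) : off Y z I J ⊆ Y ∪ z '' (I : Set ℕ) :=
  union_subset_union_right _ (image_mono (by exact_mod_cast Finset.sdiff_subset))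

lemma Row.rk_off [M.Finite] (hR : Row M Y z I) {J : Finset ℕ} (hJ : J ⊆ I) :
    rk M (off Y z I J) + J.card = rk M Y + I.card := by
  have h1 := rk_sub_eq hR.ind (Finset.sdiff_subset : I \ J ⊆ I)
  have h2 := Finset.card_sdiff_add_card_eq_card hJ
  unfold off
  omega

lemma vis_add (M : Matroid α) [M.Finite] (F : Set α) (J : Finset ℕ) :
    vis M Y z I F J + rk M (off Y z I J) = rk M (off Y z I J ∪ F) := by
  have h := rk_mono M (show off Y z I J ⊆ off Y z I J ∪ F from subset_union_left)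
  unfold vis
  omega

lemma vis_mono_left [M.Finite] {F F' : Set α} (h : F ⊆ F') (J : Finset ℕ) :
    vis M Y z I F J ≤ vis M Y z I F' J := by
  have h1 := vis_add (Y := Y) (z := z) (I := I) M F J
  have h2 := vis_add (Y := Y) (z := z) (I := I) M F' J
  have h3 := rk_mono M (union_subset_union_right (off Y z I J) h)
  omega

lemma vis_mono [M.Finite] (F : Set α) {J J' : Finset ℕ} (h : J ⊆ J') :
    vis M Y z I F J ≤ vis M Y z I F J' := by
  have h1 := vis_add (Y := Y) (z := z) (I := I) M F J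
  have h2 := vis_add (Y := Y) (z := z) (I := I) M F J'
  have h3 : rk M (off Y z I J') + rk M (off Y z I J ∪ F) ≤
      rk M (off Y z I J) + rk M (off Y z I J' ∪ F) := by
    refine rk_sub' (subset_inter (off_anti h) subset_union_left) ?_
    rintro x (hx | hx)
    · exact Or.inl hx
    · exact Or.inr (Or.inr hx)
  omega

lemma vis_le_card_left [M.Finite] (p : β → α) (D : Finset β) (J : Finset ℕ) :
    vis M Y z I (p '' D) J ≤ D.card := by
  have h1 := vis_add (Y := Y) (z := z) (I := I) M (p '' (D : Set β)) J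
  have h2 := rk_add_le (M := M) (off Y z I J) p D
  omega

lemma Row.rk_le_full [M.Finite] (hR : Row M Y z I) {F : Set α}
    (hF : F ⊆ M.closure (Y ∪ z '' (I : Set ℕ))) (J : Finset ℕ) :
    rk M (off Y z I J ∪ F) ≤ rk M Y + I.card := by
  have h1 : off Y z I J ∪ F ⊆ M.closure (Y ∪ z '' (I : Set ℕ)) := by
    refine union_subset ?_ hF
    refine (off_full J).trans (M.subset_closure _ ?_)
    refine union_subset hR.subY ?_
    rintro _ ⟨i, hi, rfl⟩
    exact hR.mem i hi
  have h2 := rk_mono M h1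
  rw [rk_closure, hR.ind] at h2
  exact h2

lemma Row.vis_le_card [M.Finite] (hR : Row M Y z I) {F : Set α}
    (hF : F ⊆ M.closure (Y ∪ z '' (I : Set ℕ))) {J : Finset ℕ} (hJ : J ⊆ I) :
    vis M Y z I F J ≤ J.card := by
  have h1 := vis_add (Y := Y) (z := z) (I := I) M F J
  have h2 := hR.rk_le_full hF J
  have h3 := hR.rk_off hJ
  omega

/-- Visibility is subadditive in the rows. -/
lemma Row.vis_union [M.Finite] (hR : Row M Y z I) (F : Set α) {J J' : Finset ℕ} (hJ : J ⊆ I)
    (hJ' : J' ⊆ I) : vis M Y z I F (J ∪ J') ≤ vis M Y z I F J + vis M Y z I F J' := by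
  classical
  have h1 := vis_add (Y := Y) (z := z) (I := I) M F J
  have h2 := vis_add (Y := Y) (z := z) (I := I) M F J'
  have h3 := vis_add (Y := Y) (z := z) (I := I) M F (J ∪ J')
  have h4 := hR.rk_off hJ
  have h5 := hR.rk_off hJ'
  have h6 := hR.rk_off (Finset.union_subset hJ hJ')
  have h7 := hR.rk_off ((Finset.inter_subset_left : J ∩ J' ⊆ J).trans hJ)
  have h8 := Finset.card_union_add_card_inter J J'
  have h9 : rk M (off Y z I (J ∪ J') ∪ F) + rk M (off Y z I (J ∩ J')) ≤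
      rk M (off Y z I J ∪ F) + rk M (off Y z I J' ∪ F) := by
    refine rk_sub' (subset_inter (union_subset_union_left _ (off_anti Finset.subset_union_left))
      (union_subset_union_left _ (off_anti Finset.subset_union_right))) ?_
    rintro x (hx | ⟨i, hi, rfl⟩)
    · exact Or.inl (Or.inl (Or.inl hx))
    · rw [Finset.mem_coe, Finset.mem_sdiff, Finset.mem_inter] at hi
      by_cases hiJ : i ∈ J
      · exact Or.inr (Or.inl (Or.inr ⟨i, by
          rw [Finset.mem_coe, Finset.mem_sdiff]; exact ⟨hi.1, fun h => hi.2 ⟨hiJ, h⟩⟩, rfl⟩))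
      · exact Or.inl (Or.inl (Or.inr ⟨i, by
          rw [Finset.mem_coe, Finset.mem_sdiff]; exact ⟨hi.1, hiJ⟩, rfl⟩))
  omega

/-- `q` points which are independent modulo `X`. -/
lemma ext_idx [M.Finite] (X : Set α) (p : β → α) (B : Finset β) {q : ℕ}
    (hp : ∀ b ∈ B, p b ∈ M.E) (h : rk M X + q ≤ rk M (X ∪ p '' B)) :
    ∃ B' ⊆ B, B'.card = q ∧ rk M (X ∪ p '' B') = rk M X + q := by
  obtain ⟨D, hD, h1, h2⟩ := exists_basis_sub (M := M) X p B hp
  obtain ⟨B', h3, h4⟩ := Finset.exists_subset_card_eq (s := D) (n := q) (by omega)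
  refine ⟨B', h3.trans hD, h4, ?_⟩
  rw [rk_sub_eq h1 h3, h4]

/-- Exchange of rows with elements. -/
lemma Row.exchange [M.Finite] (hR : Row M Y z I) (p : β → α) (B : Finset β)
    (hB : ∀ b ∈ B, p b ∈ M.closure (Y ∪ z '' (I : Set ℕ))) {J : Finset ℕ} (hJ : J ⊆ I) {q : ℕ}
    (h : q ≤ vis M Y z I (p '' B) J) :
    ∃ J' ⊆ J, J'.card = q ∧ ∃ D ⊆ B, D.card = q ∧ q ≤ vis M Y z I (p '' D) J' := by
  classical
  have hBE : ∀ b ∈ B, p b ∈ M.E := fun b hb => M.closure_subset_ground _ (hB b hb)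
  have h1 := vis_add (Y := Y) (z := z) (I := I) M (p '' (B : Set β)) J
  obtain ⟨D, hD, hDc, hDr⟩ := ext_idx (M := M) (off Y z I J) p B hBE (q := q) (by omega)
  have h2 := hR.rk_off hJ
  -- the whole rank
  have h3 : rk M (Y ∪ z '' (I : Set ℕ)) ≤ rk M (off Y z I J ∪ p '' (D : Set β) ∪ z '' (J : Set ℕ)) := by
    refine rk_mono M ?_
    rintro x (hx | ⟨i, hi, rfl⟩)
    · exact Or.inl (Or.inl (Or.inl hx))
    · by_cases hiJ : i ∈ J
      · exact Or.inr ⟨i, hiJ, rfl⟩
      · exact Or.inl (Or.inl (Or.inr ⟨i, by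
          rw [Finset.mem_coe, Finset.mem_sdiff]; exact ⟨hi, hiJ⟩, rfl⟩))
  have h4 := hR.ind
  have hqJ : q ≤ J.card := by
    have h5 := hR.vis_le_card (F := p '' (B : Set β)) (by
      rintro _ ⟨b, hb, rfl⟩
      exact hB b hb) hJ
    omega
  obtain ⟨J'', hJ'', hJ''c, hJ''r⟩ := ext_idx (M := M) (off Y z I J ∪ p '' (D : Set β)) z J
    (q := J.card - q) (fun i hi => hR.mem i (hJ hi)) (by omega)
  have h5 := Finset.card_sdiff_add_card_eq_card hJ''
  refine ⟨J \ J'', Finset.sdiff_subset, by omega, D, hD, hDc, ?_⟩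
  have h6 := vis_add (Y := Y) (z := z) (I := I) M (p '' (D : Set β)) (J \ J'')
  have h7 := hR.rk_off ((Finset.sdiff_subset : J \ J'' ⊆ J).trans hJ)
  have h8 : rk M (off Y z I J ∪ p '' (D : Set β) ∪ z '' (J'' : Set ℕ)) ≤
      rk M (off Y z I (J \ J'') ∪ p '' (D : Set β)) := by
    refine rk_mono M ?_
    rintro x ((hx | hx) | ⟨i, hi, rfl⟩)
    · exact Or.inl (off_anti Finset.sdiff_subset hx)
    · exact Or.inr hx
    · refine Or.inl (Or.inr ⟨i, ?_, rfl⟩)
      rw [Finset.mem_coe, Finset.mem_sdiff, Finset.mem_sdiff]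
      exact ⟨hJ (hJ'' hi), fun h => h.2 hi⟩
  omega

/-- Restriction of the rows. -/
lemma Row.restrict [M.Finite] (hR : Row M Y z I) {I' : Finset ℕ} (hI' : I' ⊆ I) :
    Row M (off Y z I I') z I' where
  subY := hR.off_sub I'
  mem := fun i hi => hR.mem i (hI' hi)
  ind := by
    classical
    have h1 := hR.rk_off hI'
    have h2 : off Y z I I' ∪ z '' (I' : Set ℕ) = Y ∪ z '' (I : Set ℕ) := by
      unfold off
      rw [union_assoc, ← image_union]
      congr 2
      ext i
      simp only [mem_union, Finset.mem_coe, Finset.mem_sdiff]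
      constructor
      · rintro (h | h)
        · exact h.1
        · exact hI' h
      · intro h
        by_cases hi : i ∈ I'
        · exact Or.inr hi
        · exact Or.inl ⟨h, hi⟩
    rw [h2, hR.ind]
    omega

lemma off_off {I' J : Finset ℕ} (hI' : I' ⊆ I) (hJ : J ⊆ I') :
    off (off Y z I I') z I' J = off Y z I J := by
  classical
  unfold off
  rw [union_assoc, ← image_union]
  congr 2
  ext i
  simp only [mem_union, Finset.mem_coe, Finset.mem_sdiff]
  constructor
  · rintro (h | h)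
    · exact ⟨h.1, fun h' => h.2 (hJ h')⟩
    · exact ⟨hI' h.1, h.2⟩
  · rintro ⟨h1, h2⟩
    by_cases hi : i ∈ I'
    · exact Or.inr ⟨hi, h2⟩
    · exact Or.inl ⟨h1, hi⟩

lemma vis_off {I' J : Finset ℕ} (hI' : I' ⊆ I) (hJ : J ⊆ I') (F : Set α) :
    vis M (off Y z I I') z I' F J = vis M Y z I F J := by
  unfold vis
  rw [off_off hI' hJ]

/-- **Uniform minor.**  A fixed set of `k` elements which exchanges with all `k`-subsets of `2 k`
rows. -/
theorem Row.unif [M.Finite] (hR : Row M Y z I) {k : ℕ} (hk : 2 ≤ k) (p : β → α) (D : Finset β)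
    (hD : ∀ b ∈ D, p b ∈ M.closure (Y ∪ z '' (I : Set ℕ))) (hDc : D.card = k) {I' : Finset ℕ}
    (hI' : I' ⊆ I) (hI'c : 2 * k ≤ I'.card)
    (h : ∀ J ⊆ I', J.card = k → k ≤ vis M Y z I (p '' D) J) : HasUniformMinor M k := by
  classical
  obtain ⟨T, hT, hTc⟩ := Finset.exists_subset_card_eq hI'c
  have hTI : T ⊆ I := hT.trans hI'
  have hDcl : p '' (D : Set β) ⊆ M.closure (Y ∪ z '' (I : Set ℕ)) := by
    rintro _ ⟨b, hb, rfl⟩
    exact hD b hb
  obtain ⟨X, hX⟩ : ∃ X, X = off Y z I T ∪ p '' (D : Set β) := ⟨_, rfl⟩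
  obtain ⟨J₀, hJ₀, hJ₀c⟩ := Finset.exists_subset_card_eq (s := T) (n := k) (by omega)
  have h1 := h J₀ (hJ₀.trans hT) hJ₀c
  have h2 := vis_mono (M := M) (Y := Y) (z := z) (I := I) (p '' (D : Set β)) hJ₀
  have h3 := vis_le_card_left (M := M) (Y := Y) (z := z) (I := I) p D T
  have h4 := vis_add (Y := Y) (z := z) (I := I) M (p '' (D : Set β)) T
  have h5 := hR.rk_off hTI
  have hXr : rk M X + k = rk M Y + I.card := by
    rw [hX]
    omega
  have hXE : X ⊆ M.E := by
    rw [hX]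
    exact union_subset (hR.off_sub T) (hDcl.trans (M.closure_subset_ground _))
  have hsub : ∀ Q ⊆ T, X ∪ z '' (Q : Set ℕ) = off Y z I (T \ Q) ∪ p '' (D : Set β) := by
    intro Q hQ
    rw [hX]
    ext x
    constructor
    · rintro ((hx | hx) | ⟨i, hi, rfl⟩)
      · exact Or.inl (off_anti Finset.sdiff_subset hx)
      · exact Or.inr hx
      · refine Or.inl (Or.inr ⟨i, ?_, rfl⟩)
        rw [Finset.mem_coe, Finset.mem_sdiff, Finset.mem_sdiff]
        exact ⟨hTI (hQ hi), fun h => h.2 hi⟩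
    · rintro ((hx | ⟨i, hi, rfl⟩) | hx)
      · exact Or.inl (Or.inl (Or.inl hx))
      · rw [Finset.mem_coe, Finset.mem_sdiff, Finset.mem_sdiff] at hi
        by_cases hiQ : i ∈ Q
        · exact Or.inr ⟨i, hiQ, rfl⟩
        · refine Or.inl (Or.inl (Or.inr ⟨i, ?_, rfl⟩))
          rw [Finset.mem_coe, Finset.mem_sdiff]
          exact ⟨hi.1, fun h => hi.2 ⟨h, hiQ⟩⟩
      · exact Or.inl (Or.inr hx)
  refine hum_gp (M := M) hXE (p := z) (T := T) (fun i hi => hR.mem i (hTI hi)) (r := k) hk le_rfl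
    (by omega) ?_ ?_
  · rw [hsub T (Finset.Subset.refl _)]
    have h6 := hR.rk_le_full hDcl (T \ T)
    omega
  · intro Q hQ hQc
    obtain ⟨Q', hQQ', hQ'T, hQ'c⟩ := Finset.exists_subsuperset_card_eq hQ hQc
      (show k ≤ T.card by omega)
    have h6 : rk M (X ∪ z '' (Q' : Set ℕ)) = rk M X + Q'.card := by
      rw [hsub Q' hQ'T]
      have h7 := Finset.card_sdiff_add_card_eq_card hQ'T
      have h8 := h (T \ Q') (Finset.sdiff_subset.trans hT) (by omega)
      have h9 := vis_add (Y := Y) (z := z) (I := I) M (p '' (D : Set β)) (T \ Q')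
      have h10 := hR.rk_off (Finset.sdiff_subset.trans hTI : T \ Q' ⊆ I)
      have h11 := hR.rk_le_full hDcl (T \ Q')
      omega
    exact rk_sub_eq h6 hQQ'

end Gam
end DA
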