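import Pool.Agent.DA.Gam74B

/-!
# Gamma elements, part C: homogeneous block systems (row B4 of cell G, problem MP_5165fa_co)
-/

open Set BIC BICS
open scoped Matroid

namespace DA
namespace Gam

universe u v

variable {α : Type*} {M : Matroid α}

section blocks

/-- The `p`-th block of `k` elements of `K`. -/
def blk (k : ℕ) (K : Finset ℕ) (p : ℕ) : Finset ℕ :=
  K.filter (fun x => p * k ≤ (K.filter (fun y => y < x)).card ∧
    (K.filter (fun y => y < x)).card < (p + 1) * k)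

/-- `g i`, `i ∈ s`: blocks of `k` elements of `T`, in increasing order. -/
structure BS (k : ℕ) (T s : Finset ℕ) (g : ℕ → Finset ℕ) : Prop where
  sub : ∀ i ∈ s, g i ⊆ T
  card : ∀ i ∈ s, (g i).card = k
  lt : ∀ i ∈ s, ∀ j ∈ s, i < j → ∀ x ∈ g i, ∀ y ∈ g j, x < y

variable {k : ℕ} {T s : Finset ℕ} {g : ℕ → Finset ℕ}

lemma BS.disj (h : BS k T s g) {i j : ℕ} (hi : i ∈ s) (hj : j ∈ s) (hij : i ≠ j) :
    Disjoint (g i) (g j) := by
  rw [Finset.disjoint_left]
  intro x hx hx'
  rcases lt_or_gt_of_ne hij with h1 | h1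
  · exact lt_irrefl _ (h.lt i hi j hj h1 x hx x hx')
  · exact lt_irrefl _ (h.lt j hj i hi h1 x hx' x hx)

lemma BS.card_union (h : BS k T s g) : (s.biUnion g).card = s.card * k := by
  rw [Finset.card_biUnion (fun i hi j hj hij => h.disj hi hj hij),
    Finset.sum_congr rfl (fun i hi => h.card i hi), Finset.sum_const, smul_eq_mul]

lemma BS.card_lt (h : BS k T s g) {i : ℕ} (hi : i ∈ s) {x : ℕ} (hx : x ∈ g i) :
    ((s.biUnion g).filter (fun y => y < x)).card =
      (s.filter (fun j => j < i)).card * k + ((g i).filter (fun y => y < x)).card := by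
  classical
  have e1 : (s.biUnion g).filter (fun y => y < x) =
      (s.filter (fun j => j < i)).biUnion g ∪ (g i).filter (fun y => y < x) := by
    ext y
    simp only [Finset.mem_filter, Finset.mem_biUnion, Finset.mem_union]
    constructor
    · rintro ⟨⟨j, hj, hy⟩, hyx⟩
      rcases lt_trichotomy j i with h1 | h1 | h1
      · exact Or.inl ⟨j, ⟨hj, h1⟩, hy⟩
      · subst h1
        exact Or.inr ⟨hy, hyx⟩
      · exact absurd (h.lt i hi j hj h1 x hx y hy) (by omega)
    · rintro (⟨j, ⟨hj, h1⟩, hy⟩ | ⟨hy, hyx⟩)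
      · exact ⟨⟨j, hj, hy⟩, h.lt j hj i hi h1 y hy x hx⟩
      · exact ⟨⟨i, hi, hy⟩, hyx⟩
  have e2 : Disjoint ((s.filter (fun j => j < i)).biUnion g) ((g i).filter (fun y => y < x)) := by
    rw [Finset.disjoint_left]
    intro y hy hy'
    obtain ⟨j, hj, hyj⟩ := Finset.mem_biUnion.1 hy
    obtain ⟨hj1, hj2⟩ := Finset.mem_filter.1 hj
    exact Finset.disjoint_left.1 (h.disj hj1 hi hj2.ne) hyj (Finset.mem_filter.1 hy').1
  rw [e1, Finset.card_union_of_disjoint e2,
    Finset.card_biUnion (fun a ha b hb hab => h.disj (Finset.mem_filter.1 ha).1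
      (Finset.mem_filter.1 hb).1 hab),
    Finset.sum_congr rfl (fun a ha => h.card a (Finset.mem_filter.1 ha).1), Finset.sum_const,
    smul_eq_mul]

lemma BS.blk_eq (h : BS k T s g) {i : ℕ} (hi : i ∈ s) :
    blk k (s.biUnion g) (s.filter (fun j => j < i)).card = g i := by
  classical
  ext x
  unfold blk
  rw [Finset.mem_filter]
  constructor
  · rintro ⟨hx, h1, h2⟩
    obtain ⟨j, hj, hxj⟩ := Finset.mem_biUnion.1 hx
    rw [h.card_lt hj hxj] at h1 h2
    have h3 : ((g j).filter (fun y => y < x)).card < k := by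
      rw [← h.card j hj]
      refine Finset.card_lt_card (Finset.filter_ssubset.2 ⟨x, hxj, lt_irrefl _⟩)
    have hk : 0 < k := by omega
    have key : ∀ a b : ℕ, a ∈ s → a < b →
        (s.filter (fun c => c < a)).card + 1 ≤ (s.filter (fun c => c < b)).card := by
      intro a b ha hab
      rw [← Finset.card_insert_of_notMem (s := s.filter (fun c => c < a)) (a := a)
        (fun hcon => lt_irrefl _ (Finset.mem_filter.1 hcon).2)]
      refine Finset.card_le_card ?_
      intro c hc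
      rcases Finset.mem_insert.1 hc with rfl | hc
      · exact Finset.mem_filter.2 ⟨ha, hab⟩
      · obtain ⟨h4, h5⟩ := Finset.mem_filter.1 hc
        exact Finset.mem_filter.2 ⟨h4, by omega⟩
    rcases lt_trichotomy j i with h4 | h4 | h4
    · exfalso
      have h5 := Nat.mul_le_mul_right k (key j i hj h4)
      rw [Nat.add_mul, Nat.one_mul] at h5
      omega
    · subst h4
      exact hxj
    · exfalso
      have h5 := Nat.mul_le_mul_right k (key i j hi h4)
      omega
  · intro hx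
    have h3 : ((g i).filter (fun y => y < x)).card < k := by
      rw [← h.card i hi]
      refine Finset.card_lt_card (Finset.filter_ssubset.2 ⟨x, hx, lt_irrefl _⟩)
    refine ⟨Finset.mem_biUnion.2 ⟨i, hi, hx⟩, ?_, ?_⟩
    · rw [h.card_lt hi hx]
      omega
    · rw [h.card_lt hi hx, Nat.add_mul, Nat.one_mul]
      omega

end blocks

section ramsey

/-- Ramsey for finitely many sizes at once. -/
lemma ramsey_levels {Γ : Type*} [Finite Γ] (d : ℕ → ℕ) (m : ℕ) : ∀ q : ℕ, ∃ N : ℕ,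
    ∀ (I : Finset ℕ), N ≤ I.card → ∀ f : Finset ℕ → Γ,
      ∃ T ⊆ I, T.card = m ∧ ∀ i < q, ∀ e ⊆ T, ∀ e' ⊆ T, e.card = d i → e'.card = d i →
        f e = f e' := by
  intro q
  induction q with
  | zero =>
    refine ⟨m, fun I hI f => ?_⟩
    obtain ⟨T, hT, hTm⟩ := Finset.exists_subset_card_eq hI
    exact ⟨T, hT, hTm, fun i hi => absurd hi (Nat.not_lt_zero _)⟩
  | succ q ih =>
    obtain ⟨N₁, hN₁⟩ := ih
    obtain ⟨N₂, hN₂⟩ := ramsey_type (d q) (Nat.card Γ) N₁
    refine ⟨N₂, fun I hI f => ?_⟩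
    obtain ⟨T, hT, hTc, R, hR⟩ := hN₂ (Γ := Γ) le_rfl I hI (fun e R => f e = R)
      (fun e _ _ => ⟨f e, rfl⟩)
    obtain ⟨T', hT', hT'm, h⟩ := hN₁ T (by omega) f
    refine ⟨T', hT'.trans hT, hT'm, ?_⟩
    intro i hi e he e' he' hec hec'
    rcases Nat.lt_succ_iff_lt_or_eq.1 hi with h1 | rfl
    · exact h i h1 e he e' he' hec hec'
    · rw [hR e (he.trans hT') hec, hR e' (he'.trans hT') hec']

end ramsey

section hom

variable {c k : ℕ}

/-- The points with labels in `D`, in the blocks `g`. -/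
def pt (T₀ : Fin c → Finset ℕ → Fin k → α) (g : ℕ → Finset ℕ) (D : Finset (Fin c × ℕ × Fin k)) :
    Set α := (fun x : Fin c × ℕ × Fin k => T₀ x.1 (g x.2.1) x.2.2) '' (D : Set _)

/-- Homogeneous for the exchange of points of at most `k` blocks with another block. -/
def Hom (M : Matroid α) (Y : Set α) (z : ℕ → α) (I : Finset ℕ) (k : ℕ)
    (T₀ : Fin c → Finset ℕ → Fin k → α) (T : Finset ℕ) : Prop :=
  ∀ (s : Finset ℕ) (g g' : ℕ → Finset ℕ), s.card ≤ k + 1 → BS k T s g → BS k T s g' →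
    ∀ p ∈ s, ∀ D : Finset (Fin c × ℕ × Fin k), (∀ x ∈ D, x.2.1 ∈ s) →
      k ≤ vis M Y z I (pt T₀ g D) (g p) → k ≤ vis M Y z I (pt T₀ g' D) (g' p)

/-- Homogeneous sets exist. -/
theorem hom_exists (c k m : ℕ) : ∃ N : ℕ, ∀ {α : Type u} (M : Matroid α) (Y : Set α)
    (z : ℕ → α) (I : Finset ℕ) (T₀ : Fin c → Finset ℕ → Fin k → α), N ≤ I.card →
    ∃ T ⊆ I, T.card = m ∧ Hom M Y z I k T₀ T := by
  classical
  obtain ⟨N, hN⟩ := ramsey_levels
    (Γ := Set (Fin (k + 1) × Finset (Fin c × Fin (k + 1) × Fin k))) (fun i => i * k) m (k + 2)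
  refine ⟨N, ?_⟩
  intro α M Y z I T₀ hI
  obtain ⟨T, hT, hTm, h⟩ := hN I hI (fun K => {x | k ≤ vis M Y z I
    ((fun y : Fin c × Fin (k + 1) × Fin k => T₀ y.1 (blk k K y.2.1) y.2.2) '' (x.2 : Set _))
    (blk k K x.1)})
  refine ⟨T, hT, hTm, ?_⟩
  intro s g g' hs hg hg' p hp D hD hvis
  have hrk : ∀ i ∈ s, (s.filter (fun j => j < i)).card < k + 1 := by
    intro i hi
    refine lt_of_lt_of_le ?_ hs
    exact Finset.card_lt_card (Finset.filter_ssubset.2 ⟨i, hi, lt_irrefl _⟩)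
  set φ : ℕ → Fin (k + 1) := fun i =>
    if hi : (s.filter (fun j => j < i)).card < k + 1 then ⟨_, hi⟩ else 0 with hφ
  have hφv : ∀ i ∈ s, ((φ i : Fin (k + 1)) : ℕ) = (s.filter (fun j => j < i)).card := by
    intro i hi
    simp only [hφ, dif_pos (hrk i hi)]
  set D' : Finset (Fin c × Fin (k + 1) × Fin k) := D.image (fun x => (x.1, φ x.2.1, x.2.2)) with hD'
  have hcol : ∀ g : ℕ → Finset ℕ, BS k T s g →
      ((k ≤ vis M Y z I (pt T₀ g D) (g p)) ↔
      ((φ p, D') : Fin (k + 1) × Finset (Fin c × Fin (k + 1) × Fin k)) ∈ {x :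
        Fin (k + 1) × Finset (Fin c × Fin (k + 1) × Fin k) | k ≤ vis M Y z I
        ((fun y : Fin c × Fin (k + 1) × Fin k => T₀ y.1 (blk k (s.biUnion g) y.2.1) y.2.2) ''
          (x.2 : Set _)) (blk k (s.biUnion g) x.1)}) := by
    intro g hg
    rw [Set.mem_ofPred_eq]
    have e1 : blk k (s.biUnion g) (φ p : ℕ) = g p := by
      rw [hφv p hp, hg.blk_eq hp]
    have e2 : (fun y : Fin c × Fin (k + 1) × Fin k =>
        T₀ y.1 (blk k (s.biUnion g) y.2.1) y.2.2) '' (D' : Set _) = pt T₀ g D := by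
      rw [hD', Finset.coe_image, image_image]
      refine image_congr ?_
      intro x hx
      have hxs := hD x (Finset.mem_coe.1 hx)
      simp only
      rw [hφv _ hxs, hg.blk_eq hxs]
    rw [e1, e2]
  rw [hcol g hg] at hvis
  rw [hcol g' hg']
  have hsub : ∀ g : ℕ → Finset ℕ, BS k T s g → s.biUnion g ⊆ T := by
    intro g hg x hx
    obtain ⟨i, hi, hxi⟩ := Finset.mem_biUnion.1 hx
    exact hg.sub i hi hxi
  have h1 := h s.card (by omega) (s.biUnion g) (hsub g hg) (s.biUnion g') (hsub g' hg')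
    hg.card_union hg'.card_union
  rw [← h1]
  exact hvis

end hom

end Gam
end DA
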