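import Pool.Agent.DA.Gam74A

/-!
# Gamma elements, part D (row B4 of cell G, problem MP_5165fa_co)

`sum_strands`: an element set which is small modulo the complement of each of several series
classes (strands) is small modulo the complement of their union.
`row_of_star`: a star gives rows which are independent over the rest of the wall.
-/

open Set BIC BICS
open scoped Matroid

namespace DA
namespace Gam

universe u v

variable {α σ : Type*} {M : Matroid α}

/-- **(D1)** -/
theorem sum_strands [M.Finite] {S F : Set α} (hS : S ⊆ M.E) (hF : F ⊆ M.closure S)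
    (H : Finset σ) (Zs : σ → Set α) (hZ : ∀ y ∈ H, Zs y ⊆ S)
    (hd : ∀ y ∈ H, ∀ y' ∈ H, y ≠ y' → Disjoint (Zs y) (Zs y'))
    (hst : ∀ y ∈ H, rk M (S \ Zs y) + (Zs y).ncard ≤ rk M S + 1) (m : ℕ)
    (hm : ∀ y ∈ H, rk M (F ∪ (S \ Zs y)) ≤ rk M (S \ Zs y) + m) :
    rk M (F ∪ (S \ ⋃ y ∈ H, Zs y)) ≤ rk M (S \ ⋃ y ∈ H, Zs y) + H.card * (m + 1) := by
  classical
  induction H using Finset.induction_on with
  | empty =>
    have h1 : rk M (F ∪ S) ≤ rk M S := by
      rw [← rk_closure (M := M) S]
      exact rk_mono M (union_subset hF (M.subset_closure S hS))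
    simpa using h1
  | insert y H hy ih =>
    have hyI : y ∈ insert y H := Finset.mem_insert_self y H
    have ih' := ih (fun z hz => hZ z (Finset.mem_insert_of_mem hz))
      (fun z hz z' hz' => hd z (Finset.mem_insert_of_mem hz) z' (Finset.mem_insert_of_mem hz'))
      (fun z hz => hst z (Finset.mem_insert_of_mem hz))
      (fun z hz => hm z (Finset.mem_insert_of_mem hz))
    obtain ⟨R, hR⟩ : ∃ R, R = S \ ⋃ z ∈ H, Zs z := ⟨_, rfl⟩
    have hRy : S \ ⋃ z ∈ insert y H, Zs z = R \ Zs y := by
      rw [hR]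
      ext x
      simp only [mem_sdiff, mem_iUnion, Finset.mem_insert, exists_prop]
      constructor
      · rintro ⟨h1, h2⟩
        exact ⟨⟨h1, fun ⟨z, hz, hx⟩ => h2 ⟨z, Or.inr hz, hx⟩⟩, fun hx => h2 ⟨y, Or.inl rfl, hx⟩⟩
      · rintro ⟨⟨h1, h2⟩, h3⟩
        refine ⟨h1, ?_⟩
        rintro ⟨z, rfl | hz, hx⟩
        · exact h3 hx
        · exact h2 ⟨z, hz, hx⟩
    have hZR : Zs y ⊆ R := by
      intro x hx
      rw [hR]
      refine ⟨hZ y hyI hx, ?_⟩
      rw [mem_iUnion₂]
      rintro ⟨z, hz, hxz⟩
      refine Set.disjoint_left.1 (hd y hyI z (Finset.mem_insert_of_mem hz) ?_) hx hxz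
      rintro rfl
      exact hy hz
    have hRS : R ⊆ S := by rw [hR]; exact sdiff_subset
    rw [hRy, Finset.card_insert_of_notMem hy]
    rw [← hR] at ih'
    have hfin : (Zs y).Finite := M.ground_finite.subset ((hZ y hyI).trans hS)
    have h1 : rk M (F ∪ (R \ Zs y)) + rk M S ≤ rk M (F ∪ (S \ Zs y)) + rk M (F ∪ R) := by
      refine rk_sub' ?_ ?_
      · rintro x (hx | hx)
        · exact ⟨Or.inl hx, Or.inl hx⟩
        · exact ⟨Or.inr ⟨hRS hx.1, hx.2⟩, Or.inr hx.1⟩
      · intro x hx
        by_cases hxy : x ∈ Zs y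
        · exact Or.inr (Or.inr (hZR hxy))
        · exact Or.inl (Or.inr ⟨hx, hxy⟩)
    have h2 := hst y hyI
    have h3 := hm y hyI
    have h4 : rk M R ≤ rk M (R \ Zs y) + (Zs y).ncard := by
      refine (rk_mono M ?_).trans (rk_union_le M hfin)
      intro x hx
      by_cases hxy : x ∈ Zs y
      · exact Or.inr hxy
      · exact Or.inl ⟨hx, hxy⟩
    have h5 : (H.card + 1) * (m + 1) = H.card * (m + 1) + (m + 1) := by ring
    omega

/-- **(D2)** -/
theorem row_of_star [M.Finite] {S : Set α} (hS : S ⊆ M.E) {c : ℕ → α} {n : ℕ}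
    (hc : ∀ i ≤ n, c i ∈ S) (hinj : ∀ i ≤ n, ∀ j ≤ n, c i = c j → i = j)
    (hst : ∀ i ≤ n, ∀ j ≤ n, i ≠ j → c i ∉ M.closure (S \ {c i, c j})) :
    (∃ Y, S \ c '' ((Finset.range (n + 1) : Finset ℕ) : Set ℕ) ⊆ Y ∧
      Y ⊆ S \ c '' ((Finset.Icc 1 n : Finset ℕ) : Set ℕ) ∧ Row M Y c (Finset.Icc 1 n) ∧
      S ⊆ M.closure (Y ∪ c '' ((Finset.Icc 1 n : Finset ℕ) : Set ℕ))) ∧
    ∀ J ⊆ Finset.Icc 1 n, rk M (S \ c '' (J : Set ℕ)) + J.card ≤ rk M S + 1 := by
  classical
  -- the rows are independent over the rest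
  have key : ∀ J ⊆ Finset.Icc 1 n,
      rk M (S \ c '' ((insert 0 J : Finset ℕ) : Set ℕ)) + J.card = rk M (S \ {c 0}) := by
    intro J
    induction J using Finset.induction_on with
    | empty =>
      intro _
      rw [Finset.coe_insert, Finset.coe_empty, image_insert_eq, image_empty]
      simp
    | insert j J hj ih =>
      intro hJ
      have hjn := Finset.mem_Icc.1 (hJ (Finset.mem_insert_self j J))
      have hJ' : J ⊆ Finset.Icc 1 n := fun i hi => hJ (Finset.mem_insert_of_mem hi)
      have ih' := ih hJ'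
      have h1 : c j ∉ M.closure (S \ c '' ((insert 0 (insert j J) : Finset ℕ) : Set ℕ)) := by
        intro h
        refine hst j hjn.2 0 (Nat.zero_le _) (by omega) (M.closure_subset_closure ?_ h)
        rintro x ⟨hx, hxn⟩
        refine ⟨hx, ?_⟩
        rintro (rfl | rfl)
        · exact hxn ⟨j, by simp, rfl⟩
        · exact hxn ⟨0, by simp, rfl⟩
      have h2 : S \ c '' ((insert 0 J : Finset ℕ) : Set ℕ) =
          insert (c j) (S \ c '' ((insert 0 (insert j J) : Finset ℕ) : Set ℕ)) := by
        ext x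
        constructor
        · rintro ⟨hx, hxn⟩
          by_cases hxj : x = c j
          · exact Or.inl hxj
          · refine Or.inr ⟨hx, ?_⟩
            rintro ⟨i, hi, rfl⟩
            rw [Finset.mem_coe, Finset.mem_insert, Finset.mem_insert] at hi
            rcases hi with rfl | rfl | hi
            · exact hxn ⟨0, by simp, rfl⟩
            · exact hxj rfl
            · exact hxn ⟨i, by simp [hi], rfl⟩
        · rintro (rfl | ⟨hx, hxn⟩)
          · refine ⟨hc j hjn.2, ?_⟩
            rintro ⟨i, hi, hij⟩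
            rw [Finset.mem_coe, Finset.mem_insert] at hi
            have hin : i ≤ n := by
              rcases hi with rfl | hi
              · exact Nat.zero_le _
              · exact (Finset.mem_Icc.1 (hJ' hi)).2
            have := hinj i hin j hjn.2 hij
            subst this
            rcases hi with rfl | hi
            · omega
            · exact hj hi
          · refine ⟨hx, ?_⟩
            rintro ⟨i, hi, rfl⟩
            rw [Finset.mem_coe, Finset.mem_insert] at hi
            refine hxn ⟨i, ?_, rfl⟩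
            rw [Finset.mem_coe, Finset.mem_insert, Finset.mem_insert]
            rcases hi with rfl | hi
            · exact Or.inl rfl
            · exact Or.inr (Or.inr hi)
      have h3 : rk M (S \ c '' ((insert 0 J : Finset ℕ) : Set ℕ)) =
          rk M (S \ c '' ((insert 0 (insert j J) : Finset ℕ) : Set ℕ)) + 1 := by
        rw [h2]
        exact rk_ins_not (hS (hc j hjn.2)) h1
      rw [Finset.card_insert_of_notMem hj]
      omega
  have hIc : (Finset.Icc 1 n).card = n := by rw [Nat.card_Icc]; omega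
  have hIns : insert 0 (Finset.Icc 1 n) = Finset.range (n + 1) := by
    ext i
    rw [Finset.mem_insert, Finset.mem_Icc, Finset.mem_range]
    omega
  have hfull := key (Finset.Icc 1 n) (Finset.Subset.refl _)
  rw [hIns, hIc] at hfull
  have hS0 : rk M (S \ {c 0}) ≤ rk M S := rk_mono M sdiff_subset
  constructor
  · -- the rest
    obtain ⟨X, hX⟩ : ∃ X, X = S \ c '' ((Finset.range (n + 1) : Finset ℕ) : Set ℕ) := ⟨_, rfl⟩
    rw [← hX] at hfull ⊢
    have hXc : X ∪ c '' ((Finset.Icc 1 n : Finset ℕ) : Set ℕ) = S \ {c 0} := by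
      rw [hX]
      ext x
      constructor
      · rintro (⟨hx, hxn⟩ | ⟨i, hi, rfl⟩)
        · refine ⟨hx, ?_⟩
          rintro rfl
          exact hxn ⟨0, by simp, rfl⟩
        · rw [Finset.mem_coe, Finset.mem_Icc] at hi
          refine ⟨hc i hi.2, fun h => ?_⟩
          have := hinj i hi.2 0 (Nat.zero_le _) h
          omega
      · rintro ⟨hx, hxn⟩
        by_cases h : x ∈ c '' ((Finset.range (n + 1) : Finset ℕ) : Set ℕ)
        · obtain ⟨i, hi, rfl⟩ := h
          rw [Finset.mem_coe, Finset.mem_range] at hi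
          refine Or.inr ⟨i, ?_, rfl⟩
          rw [Finset.mem_coe, Finset.mem_Icc]
          refine ⟨?_, by omega⟩
          rcases Nat.eq_zero_or_pos i with rfl | h0
          · exact absurd rfl hxn
          · exact h0
        · exact Or.inl ⟨hx, h⟩
    have hXS : X ⊆ S := by rw [hX]; exact sdiff_subset
    have hX1 : X ⊆ S \ c '' ((Finset.Icc 1 n : Finset ℕ) : Set ℕ) := by
      rw [hX]
      refine sdiff_subset_sdiff_right (image_mono ?_)
      intro i hi
      rw [Finset.mem_coe, Finset.mem_Icc] at hi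
      rw [Finset.mem_coe, Finset.mem_range]
      omega
    by_cases h0 : c 0 ∈ M.closure (S \ {c 0})
    · refine ⟨X, Subset.refl _, hX1, ⟨hXS.trans hS, ?_, ?_⟩, ?_⟩
      · intro i hi
        exact hS (hc i (Finset.mem_Icc.1 hi).2)
      · rw [hXc, hIc, hfull]
      · rw [hXc]
        intro x hx
        by_cases hx0 : x = c 0
        · rw [hx0]; exact h0
        · exact M.subset_closure _ (sdiff_subset.trans hS) ⟨hx, hx0⟩
    · have hr : rk M S = rk M (S \ {c 0}) + 1 := by
        have h1 : S = insert (c 0) (S \ {c 0}) := by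
          rw [insert_sdiff_singleton, insert_eq_of_mem (hc 0 (Nat.zero_le _))]
        conv_lhs => rw [h1]
        exact rk_ins_not (hS (hc 0 (Nat.zero_le _))) h0
      have hYc : insert (c 0) X ∪ c '' ((Finset.Icc 1 n : Finset ℕ) : Set ℕ) = S := by
        rw [insert_union, hXc, insert_sdiff_singleton, insert_eq_of_mem (hc 0 (Nat.zero_le _))]
      refine ⟨insert (c 0) X, subset_insert _ _, ?_, ⟨?_, ?_, ?_⟩, ?_⟩
      · refine insert_subset ⟨hc 0 (Nat.zero_le _), ?_⟩ hX1
        rintro ⟨i, hi, h⟩
        rw [Finset.mem_coe, Finset.mem_Icc] at hi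
        have := hinj i hi.2 0 (Nat.zero_le _) h
        omega
      · exact insert_subset (hS (hc 0 (Nat.zero_le _))) (hXS.trans hS)
      · intro i hi
        exact hS (hc i (Finset.mem_Icc.1 hi).2)
      · rw [hYc, hIc]
        have h1 := rk_insert_le (M := M) (c 0) X
        have h2 := rk_add_le (M := M) (insert (c 0) X) c (Finset.Icc 1 n)
        rw [hYc, hIc] at h2
        omega
      · rw [hYc]
        exact M.subset_closure _ hS
  · intro J hJ
    have h1 := key J hJ
    have h2 : rk M (S \ c '' (J : Set ℕ)) ≤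
        rk M (S \ c '' ((insert 0 J : Finset ℕ) : Set ℕ)) + 1 := by
      refine (rk_mono M ?_).trans (rk_insert_le (M := M) (c 0) _)
      rintro x ⟨hx, hxn⟩
      by_cases hx0 : x = c 0
      · exact Or.inl hx0
      · refine Or.inr ⟨hx, ?_⟩
        rintro ⟨i, hi, rfl⟩
        rw [Finset.mem_coe, Finset.mem_insert] at hi
        rcases hi with rfl | hi
        · exact hx0 rfl
        · exact hxn ⟨i, hi, rfl⟩
    omega

end Gam
end DA
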