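import Pool.Agent.DA.SkewRed
import Pool.Agent.BICS.Asm
import Pool.Agent.Helper53.BQ.Rk
import Pool.Agent.Helper91.SR.Ramsey

/-!
# The noise bound (row (N) of LIFT+, row B4 of cell G, problem MP_5165fa_co)

`noise`: `c i b`, `i ∈ H`, `b ∈ B`, are independent coordinates, `T b` is a set of bounded rank for
every window `b`.  Without a `U_{k,2k}`-minor there is a large set `W` of windows such that, after
the contraction of the coordinates outside of `W`, the rank of `T b` is larger by at most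
`2 (k - 1) |H|` than the rank after the contraction of the coordinates of all windows except `b`.

`moving`: every label is fixed (its elements in all windows lie in the span of any `k - 1` of them)
or moving (in a large set of windows it is not in the span of the elements of the other windows).
-/

open Set BIC BICS
open scoped Matroid

namespace DA

universe u v

set_option maxHeartbeats 4000000

variable {α ι : Type*} {M : Matroid α}

section gen

/-- No independent `k`-set: the rank is less than `k`. -/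
lemma rk_lt_of_dep [M.Finite] {X : Set α} {β : Type*} {p : β → α} {B : Finset β} {k : ℕ}
    (hk : 1 ≤ k) (hp : ∀ b ∈ B, p b ∈ M.E)
    (h : ∀ Q ⊆ B, Q.card = k → rk M (X ∪ p '' Q) ≠ rk M X + k) :
    rk M (X ∪ p '' B) ≤ rk M X + (k - 1) := by
  obtain ⟨D, hD, h1, h2⟩ := exists_basis_sub X p B hp
  by_contra hcon
  push Not at hcon
  obtain ⟨Q, hQ, hQc⟩ := Finset.exists_subset_card_eq (show k ≤ D.card by omega)
  have h3 := rk_sub_eq h1 hQ
  rw [hQc] at h3
  exact h Q (hQ.trans hD) hQc h3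

/-- **LEMMA C**, homogeneous form: many points of bounded rank, all `k`-subsets independent. -/
theorem lemC (k : ℕ) (hk : 2 ≤ k) (r : ℕ) : ∃ N : ℕ, ∀ {α : Type*} (M : Matroid α) [M.Finite]
    (X : Set α) (p : ℕ → α) (B : Finset ℕ), X ⊆ M.E → (∀ b ∈ B, p b ∈ M.E) → N ≤ B.card →
    rk M (X ∪ p '' B) ≤ rk M X + r →
    (∀ Q ⊆ B, Q.card = k → rk M (X ∪ p '' Q) = rk M X + k) → HasUniformMinor M k := by
  obtain ⟨N, hN⟩ := low k hk k r
  refine ⟨N, ?_⟩
  intro α M _ X p B hX hp hB hr hind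
  rcases hN M X p B hX hp hB hr with h | ⟨B', h1, h2, h3⟩
  · exact h
  · exfalso
    obtain ⟨Q, hQ, hQc⟩ := Finset.exists_subset_card_eq h2
    have h4 := hind Q (hQ.trans h1) hQc
    have h5 := rk_mono M (show X ∪ p '' (Q : Set ℕ) ⊆ X ∪ p '' (B' : Set ℕ) from
      union_subset_union_right _ (image_mono (by exact_mod_cast hQ)))
    omega

/-- Ramsey's theorem for finitely many properties. -/
theorem ramseyT {J : Type*} [DecidableEq J] (d : J → ℕ) (I : Finset J) : ∀ m : ℕ, ∃ N : ℕ,
    ∀ (B : Finset ℕ), N ≤ B.card → ∀ χ : J → Finset ℕ → Prop, ∃ W ⊆ B, W.card = m ∧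
      ∀ j ∈ I, (∀ e ⊆ W, e.card = d j → χ j e) ∨ (∀ e ⊆ W, e.card = d j → ¬ χ j e) := by
  classical
  induction I using Finset.induction_on with
  | empty =>
    intro m
    refine ⟨m, ?_⟩
    intro B hB χ
    obtain ⟨W, h1, h2⟩ := Finset.exists_subset_card_eq hB
    exact ⟨W, h1, h2, fun j hj => absurd hj (Finset.notMem_empty j)⟩
  | insert j I hj ih =>
    intro m
    obtain ⟨N₁, hN₁⟩ := Pool.Agent.Helper91.SR.ramsey_exists (d j) m m
    obtain ⟨N, hN⟩ := ih N₁
    refine ⟨N, ?_⟩
    intro B hB χ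
    obtain ⟨W₁, h1, h2, h3⟩ := hN B hB χ
    rcases hN₁ ℕ W₁ (fun e => decide (χ j e)) h2.symm.le with ⟨W, h4, h5, h6⟩ | ⟨W, h4, h5, h6⟩
    · refine ⟨W, h4.trans h1, h5, ?_⟩
      intro i hi
      rcases Finset.mem_insert.1 hi with rfl | hi
      · exact Or.inl fun e he hc => by simpa using h6 e he hc
      · rcases h3 i hi with h7 | h7
        · exact Or.inl fun e he hc => h7 e (he.trans h4) hc
        · exact Or.inr fun e he hc => h7 e (he.trans h4) hc
    · refine ⟨W, h4.trans h1, h5, ?_⟩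
      intro i hi
      rcases Finset.mem_insert.1 hi with rfl | hi
      · exact Or.inr fun e he hc => by simpa using h6 e he hc
      · rcases h3 i hi with h7 | h7
        · exact Or.inl fun e he hc => h7 e (he.trans h4) hc
        · exact Or.inr fun e he hc => h7 e (he.trans h4) hc

end gen

section noise

/-- The dual rank of some coordinates. -/
lemma dual_gain [M.Finite] {β : Type*} [DecidableEq β] {T : Set α} {p : β → α} {Z K : Finset β}
    (hT : T ⊆ M.E) (hp : p '' (Z : Set β) ⊆ M.E) (hZ : rk M (p '' (Z : Set β)) = Z.card)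
    (hd : Disjoint T (p '' (Z : Set β))) (hK : K ⊆ Z) :
    rk M✶ (M.E \ (T ∪ p '' (Z : Set β)) ∪ p '' (K : Set β)) + rk M (T ∪ p '' (Z : Set β)) =
      rk M✶ (M.E \ (T ∪ p '' (Z : Set β))) + rk M (T ∪ p '' ((Z \ K : Finset β) : Set β)) +
        K.card := by
  have hKZ : (K : Set β) ⊆ (Z : Set β) := by exact_mod_cast hK
  have hinj : InjOn p (Z : Set β) := by
    have h1 := rk_le_ncard M (X := p '' (Z : Set β)) (Z.finite_toSet.image p)
    have h2 := Set.ncard_image_le (f := p) Z.finite_toSet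
    have h3 : (p '' (Z : Set β)).ncard = (Z : Set β).ncard := by
      rw [Set.ncard_coe_finset] at h2 ⊢
      omega
    exact (Set.ncard_image_iff Z.finite_toSet).1 h3
  have hKE : p '' (K : Set β) ⊆ M.E := (image_mono hKZ).trans hp
  have e1 := rk_dual (M := M) (X := M.E \ (T ∪ p '' (Z : Set β))) sdiff_subset
  have e2 := rk_dual (M := M) (X := M.E \ (T ∪ p '' (Z : Set β)) ∪ p '' (K : Set β))
    (union_subset sdiff_subset hKE)
  have e3 : M.E \ (M.E \ (T ∪ p '' (Z : Set β))) = T ∪ p '' (Z : Set β) :=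
    Set.sdiff_sdiff_cancel_left (union_subset hT hp)
  have e4 : M.E \ (M.E \ (T ∪ p '' (Z : Set β)) ∪ p '' (K : Set β)) =
      T ∪ p '' ((Z \ K : Finset β) : Set β) := by
    ext x
    constructor
    · rintro ⟨hx, hx'⟩
      have h1 : x ∈ T ∪ p '' (Z : Set β) := by
        by_contra h
        exact hx' (Or.inl ⟨hx, h⟩)
      rcases h1 with h1 | ⟨b, hb, rfl⟩
      · exact Or.inl h1
      · refine Or.inr ⟨b, ?_, rfl⟩
        rw [Finset.mem_coe, Finset.mem_sdiff]
        exact ⟨hb, fun h => hx' (Or.inr ⟨b, h, rfl⟩)⟩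
    · rintro (hx | ⟨b, hb, rfl⟩)
      · refine ⟨hT hx, ?_⟩
        rintro (h | h)
        · exact h.2 (Or.inl hx)
        · exact Set.disjoint_left.1 hd hx (image_mono hKZ h)
      · rw [Finset.mem_coe, Finset.mem_sdiff] at hb
        refine ⟨hp ⟨b, hb.1, rfl⟩, ?_⟩
        rintro (h | ⟨b', hb', h⟩)
        · exact h.2 (Or.inr ⟨b, hb.1, rfl⟩)
        · have := hinj (hKZ hb') hb.1 h
          subst this
          exact hb.2 hb'
  have e5 : (M.E \ (T ∪ p '' (Z : Set β)) ∪ p '' (K : Set β)).ncard =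
      (M.E \ (T ∪ p '' (Z : Set β))).ncard + K.card := by
    rw [Set.ncard_union_eq ?_ (M.ground_finite.subset sdiff_subset) (K.finite_toSet.image p),
      (hinj.mono hKZ).ncard_image, Set.ncard_coe_finset]
    rw [Set.disjoint_left]
    rintro x hx ⟨b, hb, rfl⟩
    exact hx.2 (Or.inr ⟨b, hKZ hb, rfl⟩)
  rw [e3] at e1
  rw [e4, e5] at e2
  omega

/-- before, after -/
def Bef (s : Bool) (b' b : ℕ) : Prop := if s then b' < b else b < b'

lemma exists_top (s : Bool) {W : Finset ℕ} (hW : W.Nonempty) :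
    ∃ b ∈ W, ∀ b' ∈ W.erase b, Bef s b' b := by
  cases s with
  | true =>
    refine ⟨W.max' hW, W.max'_mem hW, ?_⟩
    intro b' hb'
    obtain ⟨h1, h2⟩ := Finset.mem_erase.1 hb'
    have := W.le_max' b' h2
    show b' < W.max' hW
    omega
  | false =>
    refine ⟨W.min' hW, W.min'_mem hW, ?_⟩
    intro b' hb'
    obtain ⟨h1, h2⟩ := Finset.mem_erase.1 hb'
    have := W.min'_le b' h2
    show W.min' hW < b'
    omega

lemma bef_asymm {s : Bool} {b b' : ℕ} (h : Bef s b b') (h' : Bef s b' b) : False := by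
  cases s with
  | true =>
    have h1 : b < b' := h
    have h2 : b' < b := h'
    omega
  | false =>
    have h1 : b' < b := h
    have h2 : b < b' := h'
    omega

lemma bef_total {b b' : ℕ} (h : b' ≠ b) : ∃ s, Bef s b' b := by
  rcases Nat.lt_or_gt_of_ne h with h | h
  · exact ⟨true, h⟩
  · exact ⟨false, h⟩

/-- An index for the elements of a finite set. -/
lemma exists_idx {κ : Type*} (H : Finset κ) :
    ∃ f : κ → ℕ, (∀ x ∈ H, f x < H.card) ∧ ∀ x ∈ H, ∀ y ∈ H, f x = f y → x = y := by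
  classical
  refine ⟨fun x => if hx : x ∈ H then (H.equivFin ⟨x, hx⟩ : ℕ) else 0, ?_, ?_⟩
  · intro x hx
    simp only [dif_pos hx]
    exact (H.equivFin ⟨x, hx⟩).2
  · intro x hx y hy h
    simp only [dif_pos hx, dif_pos hy] at h
    have h1 : H.equivFin ⟨x, hx⟩ = H.equivFin ⟨y, hy⟩ := Fin.ext h
    have h2 := H.equivFin.injective h1
    simpa using h2

/-- **NOISE BOUND**, in terms of the rank function. -/
theorem noise_rk (k : ℕ) (hk : 2 ≤ k) (h r m : ℕ) : ∃ N₀ : ℕ, ∀ {α : Type u} {κ : Type v}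
    (M : Matroid α) [M.Finite] (T : ℕ → Set α) (c : κ → ℕ → α) (H : Finset κ) (B : Finset ℕ),
    ¬ HasUniformMinor M k → H.card ≤ h → N₀ ≤ B.card →
    (∀ b ∈ B, T b ⊆ M.E ∧ rk M (T b) ≤ r ∧ Disjoint (T b) (pts c (H ×ˢ B))) →
    pts c (H ×ˢ B) ⊆ M.E → rk M (pts c (H ×ˢ B)) = H.card * B.card →
    ∃ W ⊆ B, W.card = m ∧ ∀ W' ⊆ W, ∀ b ∈ W',
      rk M (T b ∪ pts c (H ×ˢ (B \ W'))) + H.card * (W'.card - 1) ≤
        rk M (T b ∪ pts c (H ×ˢ B.erase b)) + 2 * (h * (k - 1)) := by
  classical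
  obtain ⟨N, hN⟩ := lemC k hk r
  obtain ⟨N₀, hN₀⟩ := ramseyT (J := ℕ × Bool) (fun _ => k + 1)
    (Finset.range h ×ˢ Finset.univ) (max m (N + 1))
  refine ⟨N₀, ?_⟩
  intro α κ M _ T c H B hU hH hB hT hc hrk
  obtain ⟨idx, hidx, hinj⟩ := exists_idx H
  set D : ℕ → Set α := fun b => T b ∪ pts c (H ×ˢ B.erase b) with hD
  set R : ℕ → Set α := fun b => M.E \ D b with hR
  obtain ⟨W₀, hW₀B, hW₀c, hW₀⟩ := hN₀ B hB (fun j e => ∀ x ∈ H, idx x = j.1 → ∀ b ∈ e,
    (∀ b' ∈ e.erase b, Bef j.2 b' b) →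
      rk M✶ (R b ∪ c x '' ((e.erase b : Finset ℕ) : Set ℕ)) = rk M✶ (R b) + k)
  -- the rank of the coordinates is at most `r`
  have hrkZ : ∀ b ∈ B, rk M (pts c (H ×ˢ B.erase b)) = (H ×ˢ B.erase b).card := by
    intro b hb
    have h1 : rk M (∅ ∪ (fun q : κ × ℕ => c q.1 q.2) '' ((H ×ˢ B : Finset (κ × ℕ)) : Set (κ × ℕ)))
        = rk M ∅ + (H ×ˢ B).card := by
      have h2 := rk_le_ncard M (X := (∅ : Set α)) finite_empty
      rw [ncard_empty] at h2
      rw [empty_union, Finset.card_product]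
      have h3 : rk M ((fun q : κ × ℕ => c q.1 q.2) ''
        ((H ×ˢ B : Finset (κ × ℕ)) : Set (κ × ℕ))) = H.card * B.card := hrk
      rw [h3]
      omega
    have h2 := rk_sub_eq h1 (Finset.product_subset_product_right (Finset.erase_subset b B))
    have h3 := rk_le_ncard M (X := (∅ : Set α)) finite_empty
    rw [ncard_empty] at h3
    rw [empty_union] at h2
    show rk M ((fun q : κ × ℕ => c q.1 q.2) '' _) = _
    rw [h2]
    omega
  have hZsub : ∀ b, pts c (H ×ˢ B.erase b) ⊆ pts c (H ×ˢ B) := by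
    intro b
    exact image_mono (Finset.coe_subset.2
      (Finset.product_subset_product_right (Finset.erase_subset b B)))
  have hgain : ∀ b ∈ B, ∀ K ⊆ H ×ˢ B.erase b,
      rk M✶ (R b ∪ pts c K) + rk M (D b) =
        rk M✶ (R b) + rk M (T b ∪ pts c ((H ×ˢ B.erase b) \ K)) + K.card := by
    intro b hb K hK
    obtain ⟨h1, h2, h3⟩ := hT b hb
    exact dual_gain (M := M) (T := T b) (p := fun q : κ × ℕ => c q.1 q.2) (Z := H ×ˢ B.erase b)
      h1 ((hZsub b).trans hc) (hrkZ b hb) (h3.mono_right (hZsub b)) hK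
  have hbd : ∀ b ∈ B, ∀ K ⊆ H ×ˢ B.erase b, rk M✶ (R b ∪ pts c K) ≤ rk M✶ (R b) + r := by
    intro b hb K hK
    have h1 := hgain b hb K hK
    obtain ⟨h2, h3, h4⟩ := hT b hb
    have h5 := rk_add_le (M := M) (T b) (fun q : κ × ℕ => c q.1 q.2) ((H ×ˢ B.erase b) \ K)
    have h6 := rk_mono M (show pts c (H ×ˢ B.erase b) ⊆ D b from subset_union_right)
    rw [hrkZ b hb] at h6
    have h7 := Finset.card_sdiff_add_card_eq_card hK
    have h8 : rk M (T b ∪ pts c ((H ×ˢ B.erase b) \ K)) ≤
      rk M (T b) + ((H ×ˢ B.erase b) \ K).card := h5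
    omega
  -- no independent `k`-sets
  have key : ∀ x ∈ H, ∀ s : Bool, ∀ b ∈ W₀, ∀ Q ⊆ W₀.erase b, (∀ b' ∈ Q, Bef s b' b) →
      Q.card = k → rk M✶ (R b ∪ c x '' (Q : Set ℕ)) ≠ rk M✶ (R b) + k := by
    intro x hx s b hb Q hQ hQb hQc
    have hj : (idx x, s) ∈ Finset.range h ×ˢ (Finset.univ : Finset Bool) := by
      rw [Finset.mem_product, Finset.mem_range]
      exact ⟨(hidx x hx).trans_le hH, Finset.mem_univ _⟩
    rcases hW₀ (idx x, s) hj with hall | hall
    · exfalso
      have hne : W₀.Nonempty := ⟨b, hb⟩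
      obtain ⟨b₀, hb₀, htop⟩ := exists_top s hne
      have hcard : N ≤ (W₀.erase b₀).card := by
        have h1 := Finset.card_erase_add_one hb₀
        have h2 := le_max_right m (N + 1)
        omega
      have hb₀B := hW₀B hb₀
      have hsub : ∀ Q' ⊆ W₀.erase b₀, c x '' (Q' : Set ℕ) = pts c ({x} ×ˢ Q') := by
        intro Q' _
        ext y
        simp [pts]
      have hin : ∀ Q' ⊆ W₀.erase b₀, ({x} ×ˢ Q' : Finset (κ × ℕ)) ⊆ H ×ˢ B.erase b₀ := by
        intro Q' hQ'
        refine Finset.product_subset_product (Finset.singleton_subset_iff.2 hx) ?_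
        exact hQ'.trans (Finset.erase_subset_erase _ hW₀B)
      refine hU (HasUniformMinor_dual (hN M✶ (R b₀) (c x) (W₀.erase b₀) ?_ ?_ hcard ?_ ?_))
      · exact sdiff_subset
      · intro b' hb'
        rw [Matroid.dual_ground]
        refine hc ⟨(x, b'), ?_, rfl⟩
        rw [Finset.mem_coe, Finset.mem_product]
        exact ⟨hx, hW₀B (Finset.mem_of_mem_erase hb')⟩
      · rw [hsub _ subset_rfl]
        exact hbd b₀ hb₀B _ (hin _ subset_rfl)
      · intro Q' hQ' hQ'c
        have hb₀Q : b₀ ∉ Q' := fun h => (Finset.mem_erase.1 (hQ' h)).1 rfl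
        have h1 := hall (insert b₀ Q') (Finset.insert_subset hb₀
          (hQ'.trans (Finset.erase_subset _ _))) (by
            rw [Finset.card_insert_of_notMem hb₀Q, hQ'c]) x hx rfl b₀
          (Finset.mem_insert_self _ _) (by
            intro b' hb'
            rw [Finset.erase_insert hb₀Q] at hb'
            exact htop b' (hQ' hb'))
        rw [Finset.erase_insert hb₀Q] at h1
        exact h1
    · intro hcon
      have hbQ : b ∉ Q := fun h => (Finset.mem_erase.1 (hQ h)).1 rfl
      refine hall (insert b Q) (Finset.insert_subset hb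
          (hQ.trans (Finset.erase_subset _ _))) (by
            rw [Finset.card_insert_of_notMem hbQ, hQc]) ?_
      intro x' hx' hxx b₁ hb₁ htop
      have hx1 : x' = x := hinj x' hx' x hx hxx
      subst hx1
      have hb1 : b₁ = b := by
        by_contra hne
        have h1 : b₁ ∈ Q := by
          rcases Finset.mem_insert.1 hb₁ with h1 | h1
          · exact absurd h1 hne
          · exact h1
        exact bef_asymm (hQb b₁ h1) (htop b (Finset.mem_erase.2
          ⟨fun h => hne h.symm, Finset.mem_insert_self _ _⟩))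
      subst hb1
      rw [Finset.erase_insert hbQ]
      exact hcon
  obtain ⟨W, hWW₀, hWc⟩ := Finset.exists_subset_card_eq (show m ≤ W₀.card by
    rw [hW₀c]; exact le_max_left _ _)
  refine ⟨W, hWW₀.trans hW₀B, hWc, ?_⟩
  intro W' hW' b hb
  have hbW₀ : b ∈ W₀ := hWW₀ (hW' hb)
  have hbB : b ∈ B := hW₀B hbW₀
  have hW'W₀ : W' ⊆ W₀ := hW'.trans hWW₀
  have hW'B : W' ⊆ B := hW'W₀.trans hW₀B
  -- the parts
  have hpart : ∀ x ∈ H, ∀ s : Bool,
      rk M✶ (R b ∪ c x '' ((W'.filter (fun b' => Bef s b' b) : Finset ℕ) : Set ℕ)) ≤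
        rk M✶ (R b) + (k - 1) := by
    intro x hx s
    refine rk_lt_of_dep (by omega) ?_ ?_
    · intro b' hb'
      rw [Matroid.dual_ground]
      refine hc ⟨(x, b'), ?_, rfl⟩
      rw [Finset.mem_coe, Finset.mem_product]
      exact ⟨hx, hW'B (Finset.mem_filter.1 hb').1⟩
    · intro Q hQ hQc
      refine key x hx s b hbW₀ Q ?_ (fun b' hb' => (Finset.mem_filter.1 (hQ hb')).2) hQc
      intro b' hb'
      obtain ⟨h1, h2⟩ := Finset.mem_filter.1 (hQ hb')
      refine Finset.mem_erase.2 ⟨?_, hW'W₀ h1⟩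
      rintro rfl
      exact bef_asymm h2 h2
  have hfam := rk_family_le (M := M✶) (R b)
    (fun j : κ × Bool => c j.1 '' ((W'.filter (fun b' => Bef j.2 b' b) : Finset ℕ) : Set ℕ))
    (H ×ˢ (Finset.univ : Finset Bool))
  have hsum : ∑ j ∈ H ×ˢ (Finset.univ : Finset Bool), (rk M✶ (R b ∪
      (fun j : κ × Bool => c j.1 '' ((W'.filter (fun b' => Bef j.2 b' b) : Finset ℕ) : Set ℕ)) j) -
        rk M✶ (R b)) ≤ 2 * (h * (k - 1)) := by
    calc _ ≤ ∑ j ∈ H ×ˢ (Finset.univ : Finset Bool), (k - 1) := by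
          refine Finset.sum_le_sum fun j hj => ?_
          have := hpart j.1 (Finset.mem_product.1 hj).1 j.2
          show rk M✶ (R b ∪ c j.1 '' ((W'.filter (fun b' => Bef j.2 b' b) : Finset ℕ) : Set ℕ)) -
            rk M✶ (R b) ≤ k - 1
          omega
      _ = H.card * 2 * (k - 1) := by
          rw [Finset.sum_const, smul_eq_mul, Finset.card_product]
          simp
      _ ≤ h * 2 * (k - 1) := Nat.mul_le_mul_right _ (Nat.mul_le_mul_right _ hH)
      _ = 2 * (h * (k - 1)) := by ring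
  have hcov : R b ∪ pts c (H ×ˢ W'.erase b) ⊆ R b ∪ ⋃ j ∈ H ×ˢ (Finset.univ : Finset Bool),
      c j.1 '' ((W'.filter (fun b' => Bef j.2 b' b) : Finset ℕ) : Set ℕ) := by
    refine union_subset_union_right _ ?_
    rintro y ⟨⟨x, b'⟩, hq, rfl⟩
    rw [Finset.mem_coe, Finset.mem_product] at hq
    obtain ⟨h1, h2⟩ := hq
    obtain ⟨h3, h4⟩ := Finset.mem_erase.1 h2
    obtain ⟨s, hs⟩ := bef_total h3
    simp only [mem_iUnion]
    refine ⟨(x, s), Finset.mem_product.2 ⟨h1, Finset.mem_univ _⟩, b', ?_, rfl⟩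
    rw [Finset.mem_coe, Finset.mem_filter]
    exact ⟨h4, hs⟩
  have h1 := (rk_mono M✶ hcov).trans (hfam.trans (Nat.add_le_add_left hsum _))
  have h2 := hgain b hbB (H ×ˢ W'.erase b)
    (Finset.product_subset_product_right (Finset.erase_subset_erase _ hW'B))
  have h3 : (H ×ˢ B.erase b) \ (H ×ˢ W'.erase b) = H ×ˢ (B \ W') := by
    ext ⟨x, b'⟩
    simp only [Finset.mem_sdiff, Finset.mem_product, Finset.mem_erase]
    constructor
    · rintro ⟨⟨h1, h2, h3⟩, h4⟩
      exact ⟨h1, h3, fun h => h4 ⟨h1, h2, h⟩⟩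
    · rintro ⟨h1, h2, h3⟩
      exact ⟨⟨h1, fun h => h3 (h ▸ hb), h2⟩, fun h => h3 h.2.2⟩
  rw [h3, Finset.card_product, Finset.card_erase_of_mem hb] at h2
  show rk M (T b ∪ pts c (H ×ˢ (B \ W'))) + H.card * (W'.card - 1) ≤ rk M (D b) + _
  omega

/-- **NOISE BOUND** (row (N) of LIFT+).  `c x b`, `x ∈ H`, are the kept conflicts of the window
`b`, all of them independent; `T b` has bounded rank.  Then for every set `W'` of windows
inside of `W` the set `T b`, `b ∈ W'`, has, after the contraction of the coordinates outside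
of `W'`, a rank which is larger by at most `2 (k - 1) h` than the rank after the contraction of the
coordinates of all windows except `b`. -/
theorem noise (k : ℕ) (hk : 2 ≤ k) (h r m : ℕ) : ∃ N₀ : ℕ, ∀ {α : Type u} {κ : Type v}
    (M : Matroid α) [M.Finite] (T : ℕ → Set α) (c : κ → ℕ → α) (H : Finset κ) (B : Finset ℕ),
    ¬ HasUniformMinor M k → H.card ≤ h → N₀ ≤ B.card →
    (∀ b ∈ B, T b ⊆ M.E ∧ rk M (T b) ≤ r ∧ Disjoint (T b) (pts c (H ×ˢ B))) →
    pts c (H ×ˢ B) ⊆ M.E → rk M (pts c (H ×ˢ B)) = H.card * B.card →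
    ∃ W ⊆ B, W.card = m ∧ ∀ W' ⊆ W, ∀ b ∈ W',
      rk (M ／ pts c (H ×ˢ (B \ W'))) (T b) ≤
        rk (M ／ pts c (H ×ˢ B.erase b)) (T b) + 2 * (h * (k - 1)) := by
  classical
  obtain ⟨N₀, hN₀⟩ := noise_rk.{u, v} k hk h r m
  refine ⟨N₀, ?_⟩
  intro α κ M _ T c H B hU hH hB hT hc hrk
  obtain ⟨W, hWB, hWc, hW⟩ := hN₀ M T c H B hU hH hB hT hc hrk
  refine ⟨W, hWB, hWc, ?_⟩
  intro W' hW' b hb
  have h1 := hW W' hW' b hb
  have hW'B : W' ⊆ B := hW'.trans hWB
  have hbB : b ∈ B := hW'B hb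
  obtain ⟨hTE, _, hTd⟩ := hT b hbB
  have hsub : ∀ B' ⊆ B, pts c (H ×ˢ B') ⊆ pts c (H ×ˢ B) ∧
      rk M (pts c (H ×ˢ B')) = H.card * B'.card := by
    intro B' hB'
    have h0 := rk_le_ncard M (X := (∅ : Set α)) finite_empty
    rw [ncard_empty] at h0
    refine ⟨image_mono (Finset.coe_subset.2 (Finset.product_subset_product_right hB')), ?_⟩
    have h2 : rk M (∅ ∪ (fun q : κ × ℕ => c q.1 q.2) '' ((H ×ˢ B : Finset (κ × ℕ)) : Set (κ × ℕ)))
        = rk M ∅ + (H ×ˢ B).card := by
      rw [empty_union, Finset.card_product]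
      have h3 : rk M ((fun q : κ × ℕ => c q.1 q.2) ''
        ((H ×ˢ B : Finset (κ × ℕ)) : Set (κ × ℕ))) = H.card * B.card := hrk
      rw [h3]
      omega
    have h4 := rk_sub_eq h2 (Finset.product_subset_product_right (s := H) hB')
    rw [empty_union, Finset.card_product] at h4
    show rk M ((fun q : κ × ℕ => c q.1 q.2) '' _) = _
    rw [h4]
    omega
  obtain ⟨s1, s2⟩ := hsub (B \ W') Finset.sdiff_subset
  obtain ⟨s3, s4⟩ := hsub (B.erase b) (Finset.erase_subset _ _)
  have e1 := BQ.rk_con (M := M) (C := pts c (H ×ˢ (B \ W'))) (X := T b) (s1.trans hc)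
    (subset_sdiff.2 ⟨hTE, hTd.mono_right s1⟩)
  have e2 := BQ.rk_con (M := M) (C := pts c (H ×ˢ B.erase b)) (X := T b) (s3.trans hc)
    (subset_sdiff.2 ⟨hTE, hTd.mono_right s3⟩)
  rw [s2] at e1
  rw [s4] at e2
  have e3 : H.card * (B \ W').card + H.card * (W'.card - 1) = H.card * (B.erase b).card := by
    rw [← Nat.mul_add]
    congr 1
    have e4 := Finset.card_sdiff_add_card_eq_card hW'B
    have e5 := Finset.card_erase_add_one hbB
    have e6 := Finset.card_pos.2 ⟨b, hb⟩
    omega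
  omega

end noise

section moving

/-- A sparse subset with long gaps. -/
lemma exists_gaps (g : ℕ) (hg : 1 ≤ g) (q : ℕ) (W : Finset ℕ) (hW : q * g ≤ W.card) :
    ∃ W' ⊆ W, W'.card = q ∧ ∀ b ∈ W', ∃ L ⊆ W, L.card = g ∧
      ∀ b' ∈ L, b' ≤ b ∧ ∀ s ∈ W', s < b → s < b' := by
  classical
  set n := W.card with hn
  set φ : ℕ → ℕ := fun i => if hi : i < n then W.orderEmbOfFin rfl ⟨i, hi⟩ else 0 with hφ
  have hφW : ∀ i < n, φ i ∈ W := by
    intro i hi
    simp only [hφ, dif_pos hi]
    exact Finset.orderEmbOfFin_mem _ _ _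
  have hφlt : ∀ i < n, ∀ j < n, i < j → φ i < φ j := by
    intro i hi j hj hij
    simp only [hφ, dif_pos hi, dif_pos hj]
    exact (W.orderEmbOfFin rfl).strictMono hij
  have hφinj : ∀ i < n, ∀ j < n, φ i = φ j → i = j := by
    intro i hi j hj h
    rcases Nat.lt_trichotomy i j with h1 | h1 | h1
    · have := hφlt i hi j hj h1
      omega
    · exact h1
    · have := hφlt j hj i hi h1
      omega
  have hidx : ∀ i < q, ∀ t < g, i * g + t < n := by
    intro i hi t ht
    have h1 : (i + 1) * g ≤ q * g := Nat.mul_le_mul_right _ hi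
    rw [Nat.add_mul, one_mul] at h1
    omega
  refine ⟨(Finset.range q).image fun i => φ (i * g + (g - 1)), ?_, ?_, ?_⟩
  · intro x hx
    obtain ⟨i, hi, rfl⟩ := Finset.mem_image.1 hx
    exact hφW _ (hidx i (Finset.mem_range.1 hi) _ (by omega))
  · rw [Finset.card_image_of_injOn, Finset.card_range]
    intro i hi j hj h
    have hi' := Finset.mem_range.1 (Finset.mem_coe.1 hi)
    have hj' := Finset.mem_range.1 (Finset.mem_coe.1 hj)
    have h1 := hφinj _ (hidx i hi' (g - 1) (by omega)) _ (hidx j hj' (g - 1) (by omega)) h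
    have h2 : i * g = j * g := by omega
    exact Nat.eq_of_mul_eq_mul_right (by omega) h2
  · intro b hb
    obtain ⟨i, hi, rfl⟩ := Finset.mem_image.1 hb
    have hi' := Finset.mem_range.1 hi
    refine ⟨(Finset.range g).image fun t => φ (i * g + t), ?_, ?_, ?_⟩
    · intro x hx
      obtain ⟨t, ht, rfl⟩ := Finset.mem_image.1 hx
      exact hφW _ (hidx i hi' t (Finset.mem_range.1 ht))
    · rw [Finset.card_image_of_injOn, Finset.card_range]
      intro t ht t' ht' h
      have h1 := hφinj _ (hidx i hi' t (Finset.mem_range.1 (Finset.mem_coe.1 ht))) _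
        (hidx i hi' t' (Finset.mem_range.1 (Finset.mem_coe.1 ht'))) h
      omega
    · intro b' hb'
      obtain ⟨t, ht, rfl⟩ := Finset.mem_image.1 hb'
      have ht' := Finset.mem_range.1 ht
      constructor
      · rcases Nat.lt_or_ge t (g - 1) with h1 | h1
        · exact (hφlt _ (hidx i hi' t ht') _ (hidx i hi' (g - 1) (by omega)) (by omega)).le
        · have : t = g - 1 := by omega
          rw [this]
      · intro s hs hsb
        obtain ⟨j, hj, rfl⟩ := Finset.mem_image.1 hs
        have hj' := Finset.mem_range.1 hj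
        have hji : j < i := by
          by_contra hcon
          push Not at hcon
          have h1 : i * g ≤ j * g := Nat.mul_le_mul_right _ hcon
          rcases Nat.eq_or_lt_of_le h1 with h2 | h2
          · rw [← h2] at hsb
            exact lt_irrefl _ hsb
          · have := hφlt _ (hidx i hi' (g - 1) (by omega)) _ (hidx j hj' (g - 1) (by omega))
              (by omega)
            omega
        have h1 : (j + 1) * g ≤ i * g := Nat.mul_le_mul_right _ hji
        rw [Nat.add_mul, one_mul] at h1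
        exact hφlt _ (hidx j hj' (g - 1) (by omega)) _ (hidx i hi' t ht') (by omega)

/-- Homogeneous points without an independent `k`-set: any `k - 1` of them span all. -/
lemma span_of_hom [M.Finite] {X : Set α} {p : ℕ → α} {W : Finset ℕ} {k : ℕ}
    (hp : ∀ b ∈ W, p b ∈ M.E)
    (hhom : ∀ i ≤ k, (∀ Q ⊆ W, Q.card = i → rk M (X ∪ p '' Q) = rk M X + i) ∨
      (∀ Q ⊆ W, Q.card = i → rk M (X ∪ p '' Q) ≠ rk M X + i))
    (hnot : ∀ Q ⊆ W, Q.card = k → rk M (X ∪ p '' Q) ≠ rk M X + k) :
    ∀ Q ⊆ W, Q.card = k - 1 → p '' (W : Set ℕ) ⊆ M.closure (X ∪ p '' (Q : Set ℕ)) := by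
  classical
  have hex : ∃ i, ∀ Q ⊆ W, Q.card = i → rk M (X ∪ p '' Q) ≠ rk M X + i := ⟨k, hnot⟩
  obtain ⟨i, hi, hmin⟩ : ∃ i, (∀ Q ⊆ W, Q.card = i → rk M (X ∪ p '' Q) ≠ rk M X + i) ∧
      ∀ j < i, ¬ ∀ Q ⊆ W, Q.card = j → rk M (X ∪ p '' Q) ≠ rk M X + j :=
    ⟨Nat.find hex, Nat.find_spec hex, fun j hj => Nat.find_min hex hj⟩
  have hik : i ≤ k := by
    by_contra hcon
    push Not at hcon
    exact hmin k hcon hnot
  have hi0 : 1 ≤ i := by
    by_contra hcon
    have h0 : i = 0 := by omega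
    refine hi ∅ (Finset.empty_subset _) (by rw [Finset.card_empty, h0]) ?_
    simp [h0]
  have hall : ∀ Q ⊆ W, Q.card = i - 1 → rk M (X ∪ p '' Q) = rk M X + (i - 1) := by
    rcases hhom (i - 1) (by omega) with h1 | h1
    · exact h1
    · exact absurd h1 (hmin (i - 1) (by omega))
  intro Q hQ hQc
  obtain ⟨Q', hQ', hQ'c⟩ := Finset.exists_subset_card_eq (show i - 1 ≤ Q.card by omega)
  rintro _ ⟨b, hb, rfl⟩
  refine M.closure_subset_closure (union_subset_union_right X (image_mono
    (Finset.coe_subset.2 hQ'))) ?_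
  by_contra hcon
  have hbQ : b ∉ Q' := by
    intro h
    exact hcon (M.mem_closure_of_mem' (Or.inr ⟨b, h, rfl⟩) (hp b hb))
  have h1 := rk_ins_not (hp b hb) hcon
  refine hi (insert b Q') (Finset.insert_subset hb (hQ'.trans hQ)) (by
    rw [Finset.card_insert_of_notMem hbQ]; omega) ?_
  rw [Finset.coe_insert, image_insert_eq, union_insert, h1, hall Q' (hQ'.trans hQ) hQ'c]
  omega

/-- **FIXED / MOVING.**  `τ a b` are elements with labels `a ∈ A` in windows `b ∈ B`, the rank
of every window is at most `h`.  There are a large set `W` of windows and a set `F` of labels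
(the fixed ones) such that the elements of `F` in `W` are spanned by those in any `k - 1` windows,
and in a set `W' ⊆ W` of windows no element of the other labels is in the span of the
elements of the other windows. -/
theorem moving (k : ℕ) (hk : 2 ≤ k) (p h m q : ℕ) : ∃ N₀ : ℕ, ∀ {α : Type u} {ι : Type v}
    (M : Matroid α) [M.Finite] (τ : ι → ℕ → α) (A : Finset ι) (B : Finset ℕ),
    ¬ HasUniformMinor M k → A.card ≤ p → N₀ ≤ B.card → (∀ a ∈ A, ∀ b ∈ B, τ a b ∈ M.E) →
    (∀ b ∈ B, rk M (pts τ (A ×ˢ {b})) ≤ h) →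
    ∃ W ⊆ B, m ≤ W.card ∧ ∃ F ⊆ A,
      (∀ Q ⊆ W, Q.card = k - 1 → pts τ (F ×ˢ W) ⊆ M.closure (pts τ (F ×ˢ Q))) ∧
      ∃ W' ⊆ W, W'.card = q ∧
        ∀ a ∈ A, a ∉ F → ∀ b ∈ W', τ a b ∉ M.closure (pts τ (A ×ˢ W'.erase b)) := by
  classical
  obtain ⟨N, hN⟩ := lemC k hk (q * h)
  set g := N + 1 with hg
  obtain ⟨N₀, hN₀⟩ := ramseyT (J := ℕ × ℕ × Bool)
    (fun j => if j.2.2 then j.2.1 else q)
    (Finset.range p ×ˢ (Finset.range (max (k + 1) q) ×ˢ Finset.univ)) (max m (max k (q * g)))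
  refine ⟨N₀, ?_⟩
  intro α ι M _ τ A B hU hA hB hτ hrk
  obtain ⟨idx, hidx, hinj⟩ := exists_idx A
  obtain ⟨W, hWB, hWc, hW⟩ := hN₀ B hB (fun j e => ∀ a ∈ A, idx a = j.1 →
    if j.2.2 then rk M (∅ ∪ τ a '' (e : Set ℕ)) = rk M ∅ + j.2.1
    else ∀ b ∈ e, (e.filter (fun s => s < b)).card = j.2.1 →
      τ a b ∈ M.closure (pts τ (A ×ˢ e.erase b)))
  have hWm : m ≤ W.card := by rw [hWc]; exact le_max_left _ _
  have hWq : q * g ≤ W.card := by rw [hWc]; exact (le_max_right _ _).trans (le_max_right _ _)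
  have hτW : ∀ a ∈ A, ∀ b ∈ W, τ a b ∈ M.E := fun a ha b hb => hτ a ha b (hWB hb)
  -- homogeneity
  have hhom : ∀ a ∈ A, ∀ i ≤ k,
      (∀ Q ⊆ W, Q.card = i → rk M (∅ ∪ τ a '' (Q : Set ℕ)) = rk M ∅ + i) ∨
      (∀ Q ⊆ W, Q.card = i → rk M (∅ ∪ τ a '' (Q : Set ℕ)) ≠ rk M ∅ + i) := by
    intro a ha i hi
    have hj : (idx a, i, true) ∈
        Finset.range p ×ˢ (Finset.range (max (k + 1) q) ×ˢ (Finset.univ : Finset Bool)) := by
      rw [Finset.mem_product, Finset.mem_product, Finset.mem_range, Finset.mem_range]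
      exact ⟨(hidx a ha).trans_le hA, lt_of_lt_of_le (Nat.lt_succ_of_le hi) (le_max_left _ _),
        Finset.mem_univ _⟩
    rcases hW _ hj with h1 | h1
    · left
      intro Q hQ hQc
      have := h1 Q hQ (by simpa using hQc) a ha rfl
      simpa using this
    · right
      intro Q hQ hQc hcon
      refine h1 Q hQ (by simpa using hQc) ?_
      intro a' ha' haa
      have := hinj a' ha' a ha haa
      subst this
      simpa using hcon
  have hpos : ∀ a ∈ A, ∀ i < q,
      (∀ e ⊆ W, e.card = q → ∀ b ∈ e, (e.filter (fun s => s < b)).card = i →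
        τ a b ∈ M.closure (pts τ (A ×ˢ e.erase b))) ∨
      (∀ e ⊆ W, e.card = q → ∀ b ∈ e, (e.filter (fun s => s < b)).card = i →
        τ a b ∉ M.closure (pts τ (A ×ˢ e.erase b))) := by
    intro a ha i hi
    have hj : (idx a, i, false) ∈
        Finset.range p ×ˢ (Finset.range (max (k + 1) q) ×ˢ (Finset.univ : Finset Bool)) := by
      rw [Finset.mem_product, Finset.mem_product, Finset.mem_range, Finset.mem_range]
      exact ⟨(hidx a ha).trans_le hA, lt_of_lt_of_le hi (le_max_right _ _), Finset.mem_univ _⟩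
    rcases hW _ hj with h1 | h1
    · left
      intro e he hec b hb hbi
      have := h1 e he (by simpa using hec) a ha rfl
      simp only [Bool.false_eq_true, if_false] at this
      exact this b hb hbi
    · right
      intro e he hec b hb hbi hcon
      refine h1 e he (by simpa using hec) ?_
      intro a' ha' haa
      have := hinj a' ha' a ha haa
      subst this
      simp only [Bool.false_eq_true, if_false]
      intro b' hb' hb'i
      have hbb : b' = b := by
        rcases Nat.lt_trichotomy b' b with h2 | h2 | h2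
        · exfalso
          have h3 : e.filter (fun s => s < b') ⊂ e.filter (fun s => s < b) := by
            refine Finset.ssubset_iff_subset_ne.2 ⟨?_, ?_⟩
            · intro s hs
              rw [Finset.mem_filter] at hs ⊢
              exact ⟨hs.1, hs.2.trans h2⟩
            · intro h4
              have h5 : b' ∈ e.filter (fun s => s < b) := Finset.mem_filter.2 ⟨hb', h2⟩
              rw [← h4, Finset.mem_filter] at h5
              exact lt_irrefl _ h5.2
          have := Finset.card_lt_card h3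
          omega
        · exact h2
        · exfalso
          have h3 : e.filter (fun s => s < b) ⊂ e.filter (fun s => s < b') := by
            refine Finset.ssubset_iff_subset_ne.2 ⟨?_, ?_⟩
            · intro s hs
              rw [Finset.mem_filter] at hs ⊢
              exact ⟨hs.1, hs.2.trans h2⟩
            · intro h4
              have h5 : b ∈ e.filter (fun s => s < b') := Finset.mem_filter.2 ⟨hb, h2⟩
              rw [← h4, Finset.mem_filter] at h5
              exact lt_irrefl _ h5.2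
          have := Finset.card_lt_card h3
          omega
      rw [hbb]
      exact hcon
  set F : Finset ι := A.filter (fun a => ∀ Q ⊆ W, Q.card = k →
    rk M (∅ ∪ τ a '' (Q : Set ℕ)) ≠ rk M ∅ + k) with hF
  have hFA : F ⊆ A := Finset.filter_subset _ _
  refine ⟨W, hWB, hWm, F, hFA, ?_, ?_⟩
  · -- the fixed labels
    intro Q hQ hQc
    rintro _ ⟨⟨a, b⟩, hab, rfl⟩
    rw [Finset.mem_coe, Finset.mem_product] at hab
    obtain ⟨haF, hbW⟩ := hab
    obtain ⟨haA, hadep⟩ := Finset.mem_filter.1 haF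
    have h1 := span_of_hom (M := M) (X := ∅) (p := τ a)
      (fun b hb => hτW a haA b hb) (hhom a haA) hadep Q hQ hQc
    rw [empty_union] at h1
    refine M.closure_subset_closure ?_ (h1 ⟨b, hbW, rfl⟩)
    rintro _ ⟨b', hb', rfl⟩
    refine ⟨(a, b'), ?_, rfl⟩
    rw [Finset.mem_coe, Finset.mem_product]
    exact ⟨haF, hb'⟩
  · -- the moving labels
    obtain ⟨W', hW'W, hW'c, hgap⟩ := exists_gaps g (by omega) q W hWq
    refine ⟨W', hW'W, hW'c, ?_⟩
    intro a haA haF b hb hcon
    have hmov : ∀ Q ⊆ W, Q.card = k → rk M (∅ ∪ τ a '' (Q : Set ℕ)) = rk M ∅ + k := by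
      rcases hhom a haA k le_rfl with h1 | h1
      · exact h1
      · exact absurd (Finset.mem_filter.2 ⟨haA, h1⟩) haF
    obtain ⟨L, hLW, hLc, hL⟩ := hgap b hb
    have hiq : (W'.filter (fun s => s < b)).card < q := by
      rw [← hW'c]
      refine Finset.card_lt_card (Finset.ssubset_iff_subset_ne.2 ⟨Finset.filter_subset _ _, ?_⟩)
      intro h1
      have h2 : b ∈ W'.filter (fun s => s < b) := by rw [h1]; exact hb
      exact lt_irrefl _ (Finset.mem_filter.1 h2).2
    have hall : ∀ e ⊆ W, e.card = q → ∀ b' ∈ e,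
        (e.filter (fun s => s < b')).card = (W'.filter (fun s => s < b)).card →
        τ a b' ∈ M.closure (pts τ (A ×ˢ e.erase b')) := by
      rcases hpos a haA _ hiq with h1 | h1
      · exact h1
      · exact absurd hcon (h1 W' hW'W hW'c b hb rfl)
    -- all elements of the gap
    have hLcl : ∀ b' ∈ L, τ a b' ∈ M.closure (pts τ (A ×ˢ W'.erase b)) := by
      intro b' hb'
      obtain ⟨h1, h2⟩ := hL b' hb'
      have hb'S : b' ∉ W'.erase b := by
        intro h3
        obtain ⟨h4, h5⟩ := Finset.mem_erase.1 h3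
        exact lt_irrefl _ (h2 b' h5 (lt_of_le_of_ne h1 h4))
      have hcard : (insert b' (W'.erase b)).card = q := by
        rw [Finset.card_insert_of_notMem hb'S, Finset.card_erase_add_one hb, hW'c]
      have h3 := hall (insert b' (W'.erase b)) (Finset.insert_subset (hLW hb')
        ((Finset.erase_subset _ _).trans hW'W)) hcard b' (Finset.mem_insert_self _ _) (by
          congr 1
          ext s
          simp only [Finset.mem_filter, Finset.mem_insert, Finset.mem_erase]
          constructor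
          · rintro ⟨rfl | ⟨h4, h5⟩, h6⟩
            · exact absurd h6 (lt_irrefl _)
            · exact ⟨h5, lt_of_lt_of_le h6 h1⟩
          · rintro ⟨h4, h5⟩
            exact ⟨Or.inr ⟨h5.ne, h4⟩, h2 s h4 h5⟩)
      rw [Finset.erase_insert hb'S] at h3
      exact h3
    -- the rank of the other windows
    have hrkS : rk M (pts τ (A ×ˢ W'.erase b)) ≤ q * h := by
      have h1 := rk_family_le (M := M) ∅ (fun b' => pts τ (A ×ˢ {b'})) (W'.erase b)
      have h0 := rk_le_ncard M (X := (∅ : Set α)) finite_empty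
      rw [ncard_empty] at h0
      have h2 : ∑ b' ∈ W'.erase b, (rk M (∅ ∪ pts τ (A ×ˢ {b'})) - rk M ∅) ≤
          ∑ _b' ∈ W'.erase b, h := by
        refine Finset.sum_le_sum fun b' hb' => ?_
        have h3 := hrk b' (hWB (hW'W (Finset.mem_of_mem_erase hb')))
        rw [empty_union]
        omega
      rw [Finset.sum_const, smul_eq_mul] at h2
      have h3 : (W'.erase b).card * h ≤ q * h := Nat.mul_le_mul_right _ (by
        rw [← hW'c]; exact Finset.card_le_card (Finset.erase_subset _ _))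
      have h4 : pts τ (A ×ˢ W'.erase b) ⊆ ∅ ∪ ⋃ b' ∈ W'.erase b, pts τ (A ×ˢ {b'}) := by
        rintro _ ⟨⟨a', b'⟩, hab, rfl⟩
        rw [Finset.mem_coe, Finset.mem_product] at hab
        refine Or.inr ?_
        simp only [mem_iUnion]
        refine ⟨b', hab.2, (a', b'), ?_, rfl⟩
        rw [Finset.mem_coe, Finset.mem_product]
        exact ⟨hab.1, Finset.mem_singleton_self _⟩
      have h5 := rk_mono M h4
      omega
    refine hU (hN M ∅ (τ a) L (empty_subset _) (fun b' hb' => hτW a haA b' (hLW hb')) (by omega)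
      ?_ (fun Q hQ hQc => hmov Q (hQ.trans hLW) hQc))
    have h1 : (∅ : Set α) ∪ τ a '' (L : Set ℕ) ⊆ M.closure (pts τ (A ×ˢ W'.erase b)) := by
      rw [empty_union]
      rintro _ ⟨b', hb', rfl⟩
      exact hLcl b' hb'
    have h2 := rk_mono M h1
    rw [rk_closure] at h2
    omega

end moving

end DA
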