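import Pool.Agent.DA.Gam74A
import Pool.Agent.DA.Noise

/-!
# Gamma elements, part D: rows with bounded visibility, dichotomy (row B4 of cell G,
problem MP_5165fa_co)

`few_all`: bounded visibility becomes visibility less than `k` on many rows.
`dichotomy`: after the choice of many rows every label sees either all `k`-sets of rows completely
or the set of all rows with rank less than `k`.
-/

open Set BIC BICS
open scoped Matroid

namespace DA
namespace Gam

universe u v w

variable {α β : Type*} {M : Matroid α} {Y : Set α} {z : ℕ → α} {I : Finset ℕ}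

/-- If no `k`-set of rows is visible completely then the visibility is less than `k`. -/
lemma Row.vis_lt [M.Finite] (hR : Row M Y z I) {F : Set α}
    (hF : F ⊆ M.closure (Y ∪ z '' (I : Set ℕ))) {T : Finset ℕ} (hT : T ⊆ I) {k : ℕ}
    (h : ∀ J ⊆ T, J.card = k → ¬ k ≤ vis M Y z I F J) : vis M Y z I F T < k := by
  classical
  by_contra hcon
  push Not at hcon
  have hFfin : F.Finite := M.ground_finite.subset (hF.trans (M.closure_subset_ground _))
  have hFi : (fun x : α => x) '' (hFfin.toFinset : Set α) = F := by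
    rw [Set.Finite.coe_toFinset, image_id']
  obtain ⟨J', h1, h2, D, h3, _, h5⟩ := hR.exchange (fun x : α => x) hFfin.toFinset (by
    intro b hb
    exact hF ((Set.Finite.mem_toFinset hFfin).1 hb)) hT (q := k) (by rw [hFi]; exact hcon)
  refine h J' h1 h2 (h5.trans (vis_mono_left ?_ J'))
  rw [← hFi]
  exact image_mono (by exact_mod_cast h3)

/-- One strand. -/
theorem few_one (k : ℕ) (hk : 2 ≤ k) (q m : ℕ) : ∃ N : ℕ, ∀ {α : Type u} (M : Matroid α)
    [M.Finite], ¬ HasUniformMinor M k → ∀ (Y : Set α) (z : ℕ → α) (I : Finset ℕ) (F : Set α),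
    Row M Y z I → F ⊆ M.closure (Y ∪ z '' (I : Set ℕ)) → ∀ I' ⊆ I, N ≤ I'.card →
    vis M Y z I F I' ≤ q → ∃ I'' ⊆ I', I''.card = m ∧ vis M Y z I F I'' < k := by
  classical
  obtain ⟨N, hN⟩ := ramsey_type.{0} k (2 ^ q + 1) (max m (2 * k))
  refine ⟨N, ?_⟩
  intro α M _ hU Y z I F hR hF I' hI' hI'c hq
  have hFE : F ⊆ M.E := hF.trans (M.closure_subset_ground _)
  have hFfin : F.Finite := M.ground_finite.subset hFE
  have hFi : (fun x : α => x) '' (hFfin.toFinset : Set α) = F := by
    rw [Set.Finite.coe_toFinset, image_id']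
  -- a basis of `F` modulo the rows outside of `I'`
  obtain ⟨C, hC, hC1, hC2⟩ := exists_basis_sub (M := M) (off Y z I I') (fun x : α => x)
    hFfin.toFinset (fun b hb => hFE ((Set.Finite.mem_toFinset hFfin).1 hb))
  rw [hFi] at hC2
  rw [image_id'] at hC1 hC2
  have hCF : (C : Set α) ⊆ F := by
    intro x hx
    exact (Set.Finite.mem_toFinset hFfin).1 (hC hx)
  have hCq : C.card ≤ q := by
    have h1 := vis_add (Y := Y) (z := z) (I := I) M F I'
    omega
  have hspan : F ⊆ M.closure (off Y z I I' ∪ (C : Set α)) := by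
    intro x hx
    by_contra hcon
    have h1 := rk_ins_not (hFE hx) hcon
    have h2 : insert x (off Y z I I' ∪ (C : Set α)) ⊆ off Y z I I' ∪ F :=
      insert_subset (Or.inr hx) (union_subset_union_right _ hCF)
    have h3 := rk_mono M h2
    omega
  -- an enumeration of `C`
  set f : Fin C.card → α := fun i => (C.equivFin.symm i : α) with hf
  have hfC : f '' ((Finset.univ : Finset (Fin C.card)) : Set (Fin C.card)) = (C : Set α) := by
    ext x
    constructor
    · rintro ⟨i, _, rfl⟩
      exact (C.equivFin.symm i).2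
    · intro hx
      refine ⟨C.equivFin ⟨x, hx⟩, Finset.mem_coe.2 (Finset.mem_univ _), ?_⟩
      simp [hf]
  have hcard : Nat.card (Option (Finset (Fin C.card))) ≤ 2 ^ q + 1 := by
    rw [Nat.card_eq_fintype_card, Fintype.card_option, Fintype.card_finset, Fintype.card_fin]
    have := Nat.pow_le_pow_right (show 0 < 2 by norm_num) hCq
    omega
  obtain ⟨T, hT, hTc, R, hTR⟩ := hN hcard I' hI'c (fun e R => match R with
    | none => ¬ k ≤ vis M Y z I F e
    | some D => D.card = k ∧ k ≤ vis M Y z I (f '' (D : Set (Fin C.card))) e) (by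
      intro e he hec
      by_cases hfull : k ≤ vis M Y z I F e
      · have h1 : vis M Y z I F e ≤ vis M Y z I (f '' ((Finset.univ : Finset (Fin C.card)) :
            Set (Fin C.card))) e := by
          rw [hfC]
          have h2 := vis_add (Y := Y) (z := z) (I := I) M F e
          have h3 := vis_add (Y := Y) (z := z) (I := I) M (C : Set α) e
          have h4 : off Y z I e ∪ F ⊆ M.closure (off Y z I e ∪ (C : Set α)) := by
            refine union_subset ?_ (hspan.trans (M.closure_subset_closure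
              (union_subset_union_left _ (off_anti he))))
            exact subset_union_left.trans (M.subset_closure _ (union_subset
              (hR.off_sub e) (hCF.trans hFE)))
          have h5 := rk_mono M h4
          rw [rk_closure] at h5
          omega
        obtain ⟨J', g1, g2, D, _, g4, g5⟩ := hR.exchange f Finset.univ (by
          intro b _
          exact hF (hCF (C.equivFin.symm b).2)) (he.trans hI') (hfull.trans h1)
        have g6 : J' = e := Finset.eq_of_subset_of_card_le g1 (by omega)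
        subst g6
        exact ⟨some D, g4, g5⟩
      · exact ⟨none, hfull⟩)
  have hTI : T ⊆ I := hT.trans hI'
  obtain ⟨T', hT', hT'c⟩ := Finset.exists_subset_card_eq (show m ≤ T.card by
    rw [hTc]; exact le_max_left _ _)
  refine ⟨T', hT'.trans hT, hT'c, ?_⟩
  cases R with
  | none =>
    refine hR.vis_lt hF (hT'.trans hTI) ?_
    intro J hJ hJc
    exact hTR J (hJ.trans hT') hJc
  | some D =>
    exfalso
    obtain ⟨J₀, hJ₀, hJ₀c⟩ := Finset.exists_subset_card_eq (s := T) (n := k) (by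
      have := le_max_right m (2 * k)
      omega)
    refine hU (hR.unif hk f D (fun b _ => hF (hCF (C.equivFin.symm b).2))
      (hTR J₀ hJ₀ hJ₀c).1 hTI (by rw [hTc]; exact le_max_right _ _) ?_)
    intro J hJ hJc
    exact (hTR J hJ hJc).2

/-- **(D3)** -/
theorem few_all (k : ℕ) (hk : 2 ≤ k) (h q m : ℕ) : ∃ N : ℕ, ∀ {α : Type u} {σ : Type v}
    (M : Matroid α) [M.Finite], ¬ HasUniformMinor M k → ∀ (H : Finset σ) (Y : σ → Set α)
    (z : σ → ℕ → α) (I : Finset ℕ) (F : σ → Set α), H.card ≤ h →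
    (∀ y ∈ H, Row M (Y y) (z y) I) →
    (∀ y ∈ H, F y ⊆ M.closure (Y y ∪ z y '' (I : Set ℕ))) → ∀ I' ⊆ I, N ≤ I'.card →
    (∀ y ∈ H, vis M (Y y) (z y) I (F y) I' ≤ q) →
    ∃ I'' ⊆ I', I''.card = m ∧ ∀ y ∈ H, vis M (Y y) (z y) I (F y) I'' < k := by
  classical
  induction h with
  | zero =>
    refine ⟨m, ?_⟩
    intro α σ M _ _ H Y z I F hH _ _ I' _ hI'c _
    obtain ⟨I'', h1, h2⟩ := Finset.exists_subset_card_eq hI'c
    have hH0 : H = ∅ := Finset.card_eq_zero.1 (Nat.le_zero.1 hH)
    refine ⟨I'', h1, h2, ?_⟩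
    intro y hy
    rw [hH0] at hy
    exact absurd hy (Finset.notMem_empty y)
  | succ h ih =>
    obtain ⟨N₁, hN₁⟩ := ih
    obtain ⟨N₂, hN₂⟩ := few_one.{u} k hk q (max N₁ m)
    refine ⟨max N₂ m, ?_⟩
    intro α σ M _ hU H Y z I F hH hR hF I' hI' hI'c hq
    rcases H.eq_empty_or_nonempty with hH0 | ⟨y₀, hy₀⟩
    · obtain ⟨I'', h1, h2⟩ := Finset.exists_subset_card_eq (show m ≤ I'.card from
        (le_max_right _ _).trans hI'c)
      refine ⟨I'', h1, h2, ?_⟩
      intro y hy
      rw [hH0] at hy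
      exact absurd hy (Finset.notMem_empty y)
    · obtain ⟨I₁, g1, g2, g3⟩ := hN₂ M hU (Y y₀) (z y₀) I (F y₀) (hR y₀ hy₀) (hF y₀ hy₀) I' hI'
        ((le_max_left _ _).trans hI'c) (hq y₀ hy₀)
      have hc := Finset.card_erase_add_one hy₀
      obtain ⟨I'', k1, k2, k3⟩ := hN₁ M hU (H.erase y₀) Y z I F (by omega)
        (fun y hy => hR y (Finset.mem_of_mem_erase hy))
        (fun y hy => hF y (Finset.mem_of_mem_erase hy)) I₁ (g1.trans hI')
        (by rw [g2]; exact le_max_left _ _)
        (fun y hy => (vis_mono (F y) g1).trans (hq y (Finset.mem_of_mem_erase hy)))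
      refine ⟨I'', k1.trans g1, k2, ?_⟩
      intro y hy
      by_cases hyy : y = y₀
      · subst hyy
        exact lt_of_le_of_lt (vis_mono (F y) k1) g3
      · exact k3 y (Finset.mem_erase.2 ⟨hyy, hy⟩)

/-- **(D4)** -/
theorem dichotomy (k h l m : ℕ) : ∃ N : ℕ, ∀ {α : Type u} {σ : Type v} {ι : Type w}
    (M : Matroid α) [M.Finite] (H : Finset σ) (Lab : Finset ι) (Y : σ → Set α) (z : σ → ℕ → α)
    (I : Finset ℕ) (E : ι → Set α), H.card ≤ h → Lab.card ≤ l →
    (∀ y ∈ H, Row M (Y y) (z y) I) →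
    (∀ a ∈ Lab, ∀ y ∈ H, E a ⊆ M.closure (Y y ∪ z y '' (I : Set ℕ))) → N ≤ I.card →
    ∃ I' ⊆ I, I'.card = m ∧ ∀ y ∈ H, ∀ a ∈ Lab,
      (∀ J ⊆ I', J.card = k → k ≤ vis M (Y y) (z y) I (E a) J) ∨
      vis M (Y y) (z y) I (E a) I' < k := by
  classical
  obtain ⟨N, hN⟩ := ramseyT (J := ℕ × ℕ) (fun _ => k) (Finset.range h ×ˢ Finset.range l) m
  refine ⟨N, ?_⟩
  intro α σ ι M _ H Lab Y z I E hH hL hR hE hI
  obtain ⟨f, hf, hfi⟩ := exists_idx H
  obtain ⟨g, hg, hgi⟩ := exists_idx Lab
  obtain ⟨I', hI', hI'c, hI'h⟩ := hN I hI (fun j e => ∀ y ∈ H, f y = j.1 → ∀ a ∈ Lab, g a = j.2 →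
    k ≤ vis M (Y y) (z y) I (E a) e)
  refine ⟨I', hI', hI'c, ?_⟩
  intro y hy a ha
  have hj : (f y, g a) ∈ Finset.range h ×ˢ Finset.range l := by
    rw [Finset.mem_product, Finset.mem_range, Finset.mem_range]
    exact ⟨(hf y hy).trans_le hH, (hg a ha).trans_le hL⟩
  rcases hI'h _ hj with h1 | h1
  · left
    intro J hJ hJc
    exact h1 J hJ hJc y hy rfl a ha rfl
  · right
    refine (hR y hy).vis_lt (hE a ha y hy) hI' ?_
    intro J hJ hJc hcon
    refine h1 J hJ hJc ?_
    intro y' hy' hyy a' ha' haa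
    have e1 := hfi y' hy' y hy hyy
    have e2 := hgi a' ha' a ha haa
    subst e1
    subst e2
    exact hcon

end Gam
end DA
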