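import Pool.Agent.DA.Gam74F

/-!
# Gamma elements, part G: one light strand, general form (row B4, problem MP_5165fa_co)
-/

open Set BIC BICS
open scoped Matroid

namespace DA
namespace Gam

universe u v

section reindex

variable {α : Type*} {M : Matroid α} {Y : Set α} {z : ℕ → α} {I T : Finset ℕ} {n : ℕ}
  {e : ℕ → ℕ}

lemma exists_enum {T : Finset ℕ} {n : ℕ} (hT : T.card = n) : ∃ e : ℕ → ℕ,
    (∀ i < n, ∀ j < n, i < j → e i < e j) ∧ (Finset.range n).image e = T := by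
  classical
  refine ⟨fun i => if h : i < n then (T.orderEmbOfFin hT ⟨i, h⟩ : ℕ) else 0, ?_, ?_⟩
  · intro i hi j hj hij
    simp only [dif_pos hi, dif_pos hj]
    exact (T.orderEmbOfFin hT).strictMono hij
  · ext x
    rw [Finset.mem_image]
    constructor
    · rintro ⟨i, hi, rfl⟩
      rw [Finset.mem_range] at hi
      simp only [dif_pos hi]
      exact Finset.orderEmbOfFin_mem _ _ _
    · intro hx
      have h1 : x ∈ Set.range (T.orderEmbOfFin hT) := by
        rw [Finset.range_orderEmbOfFin]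
        exact hx
      obtain ⟨i, rfl⟩ := h1
      refine ⟨i, Finset.mem_range.2 i.2, ?_⟩
      simp only [dif_pos i.2]

lemma enum_inj (he : ∀ i < n, ∀ j < n, i < j → e i < e j) {i j : ℕ} (hi : i < n) (hj : j < n)
    (h : e i = e j) : i = j := by
  rcases lt_trichotomy i j with h1 | h1 | h1
  · have := he i hi j hj h1
    omega
  · exact h1
  · have := he j hj i hi h1
    omega

lemma off_reindex (he : ∀ i < n, ∀ j < n, i < j → e i < e j) (hT : (Finset.range n).image e = T)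
    (hTI : T ⊆ I) {J : Finset ℕ} (hJ : J ⊆ Finset.range n) :
    off (off Y z I T) (z ∘ e) (Finset.range n) J = off Y z I (J.image e) := by
  classical
  unfold off
  ext x
  simp only [mem_union, mem_image, Finset.mem_coe, Finset.mem_sdiff, Function.comp,
    Finset.mem_image]
  constructor
  · rintro ((hx | ⟨i, ⟨hi, hi'⟩, rfl⟩) | ⟨i, ⟨hi, hi'⟩, rfl⟩)
    · exact Or.inl hx
    · refine Or.inr ⟨i, ⟨hi, ?_⟩, rfl⟩
      rintro ⟨j, hj, rfl⟩
      apply hi'
      rw [← hT]
      exact Finset.mem_image.2 ⟨j, hJ hj, rfl⟩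
    · refine Or.inr ⟨e i, ⟨hTI ?_, ?_⟩, rfl⟩
      · rw [← hT]
        exact Finset.mem_image.2 ⟨i, hi, rfl⟩
      · rintro ⟨j, hj, hji⟩
        have := enum_inj he (Finset.mem_range.1 (hJ hj)) (Finset.mem_range.1 hi) hji
        subst this
        exact hi' hj
  · rintro (hx | ⟨i, ⟨hi, hi'⟩, rfl⟩)
    · exact Or.inl (Or.inl hx)
    · by_cases h : i ∈ T
      · rw [← hT] at h
        obtain ⟨j, hj, rfl⟩ := Finset.mem_image.1 h
        exact Or.inr ⟨j, ⟨hj, fun h' => hi' ⟨j, h', rfl⟩⟩, rfl⟩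
      · exact Or.inl (Or.inr ⟨i, ⟨hi, h⟩, rfl⟩)

lemma full_reindex (hT : (Finset.range n).image e = T) (hTI : T ⊆ I) (P : Set α) :
    (P ∪ z '' ((I \ T : Finset ℕ) : Set ℕ)) ∪ (z ∘ e) '' (Finset.range n : Set ℕ) =
      P ∪ z '' (I : Set ℕ) := by
  classical
  ext x
  simp only [mem_union, mem_image, Finset.mem_coe, Finset.mem_sdiff, Function.comp]
  constructor
  · rintro ((hx | ⟨i, ⟨hi, hi'⟩, rfl⟩) | ⟨i, hi, rfl⟩)
    · exact Or.inl hx
    · exact Or.inr ⟨i, hi, rfl⟩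
    · refine Or.inr ⟨e i, hTI ?_, rfl⟩
      rw [← hT]
      exact Finset.mem_image.2 ⟨i, hi, rfl⟩
  · rintro (hx | ⟨i, hi, rfl⟩)
    · exact Or.inl (Or.inl hx)
    · by_cases h : i ∈ T
      · rw [← hT] at h
        obtain ⟨j, hj, rfl⟩ := Finset.mem_image.1 h
        exact Or.inr ⟨j, hj, rfl⟩
      · exact Or.inl (Or.inr ⟨i, ⟨hi, h⟩, rfl⟩)

lemma vis_reindex (he : ∀ i < n, ∀ j < n, i < j → e i < e j) (hT : (Finset.range n).image e = T)
    (hTI : T ⊆ I) {J : Finset ℕ} (hJ : J ⊆ Finset.range n) (F : Set α) :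
    vis M (off Y z I T) (z ∘ e) (Finset.range n) F J = vis M Y z I F (J.image e) := by
  unfold vis
  rw [off_reindex he hT hTI hJ]

lemma card_reindex (he : ∀ i < n, ∀ j < n, i < j → e i < e j) {J : Finset ℕ}
    (hJ : J ⊆ Finset.range n) : (J.image e).card = J.card :=
  Finset.card_image_of_injOn fun _ hi _ hj h =>
    enum_inj he (Finset.mem_range.1 (hJ hi)) (Finset.mem_range.1 (hJ hj)) h

lemma hom_reindex {c k : ℕ} {T₀ : Fin c → Finset ℕ → Fin k → α}
    (he : ∀ i < n, ∀ j < n, i < j → e i < e j) (hT : (Finset.range n).image e = T)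
    (hTI : T ⊆ I) (hH : Hom M Y z I k T₀ T) :
    Hom M (off Y z I T) (z ∘ e) (Finset.range n) k (fun a J => T₀ a (J.image e))
      (Finset.range n) := by
  classical
  intro s g g' hs hg hg' p hp D hD hv
  have key : ∀ g : ℕ → Finset ℕ, BS k (Finset.range n) s g →
      BS k T s (fun i => (g i).image e) := by
    intro g hg
    refine ⟨?_, ?_, ?_⟩
    · intro i hi x hx
      obtain ⟨y, hy, rfl⟩ := Finset.mem_image.1 hx
      rw [← hT]
      exact Finset.mem_image.2 ⟨y, hg.sub i hi hy, rfl⟩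
    · intro i hi
      rw [card_reindex he (hg.sub i hi), hg.card i hi]
    · intro i hi j hj hij x hx y hy
      obtain ⟨x', hx', rfl⟩ := Finset.mem_image.1 hx
      obtain ⟨y', hy', rfl⟩ := Finset.mem_image.1 hy
      exact he _ (Finset.mem_range.1 (hg.sub i hi hx')) _ (Finset.mem_range.1 (hg.sub j hj hy'))
        (hg.lt i hi j hj hij x' hx' y' hy')
  have e1 : ∀ g : ℕ → Finset ℕ, pt (fun a J => T₀ a (J.image e)) g D =
      pt T₀ (fun i => (g i).image e) D := fun g => rfl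
  rw [e1, vis_reindex he hT hTI (hg.sub p hp)] at hv
  rw [e1, vis_reindex he hT hTI (hg'.sub p hp)]
  exact hH s _ _ hs (key g hg) (key g' hg') p hp D hD hv

end reindex

/-- **One strand.**  More than `3 k CC(t²)(k-1)` labels all of whose elements see every `k`-subset
of the rows with rank `k`: a uniform minor or an array which is in the span of `Λ` and of the
contracted set, up to rank `k - 1`. -/
theorem hubZ (k : ℕ) (hk : 2 ≤ k) (t c R : ℕ) (hc : (3 * k) * CC (t * t) (k - 1) < c) :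
    ∃ n : ℕ, ∀ {α : Type u} (M : Matroid α) [M.Finite] (P Λ : Set α) (z : ℕ → α)
      (I : Finset ℕ) (E : Fin c → Set α), ¬ HasUniformMinor M k →
      Row M (P ∪ Λ) z I → n ≤ I.card → Disjoint P Λ → rk M (P ∪ Λ) ≤ rk M P + R →
      (∀ a, E a ⊆ M.closure (P ∪ Λ ∪ z '' (I : Set ℕ))) →
      (∀ a, ∀ J ⊆ I, J.card = k → k ≤ vis M (P ∪ Λ) z I (E a) J) →
      (∀ a, ∀ x ∈ E a, x ∉ M.closure (P ∪ z '' (I : Set ℕ) ∪ ⋃ a' ∈ {a' | a' ≠ a}, E a')) →
      ∃ (C S : Set α) (j : ℕ × ℕ → α) (ed : ℕ × ℕ → ℕ × ℕ → α), P ⊆ C ∧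
        C ⊆ P ∪ z '' (I : Set ℕ) ∪ (⋃ a, E a) ∧ S ⊆ (⋃ a, E a) ∧
        Gad.JGrid (M ／ C) S t j ed ∧ rk M (S ∪ (Λ ∪ C)) ≤ rk M (Λ ∪ C) + (k - 1) := by
  classical
  obtain ⟨n, hn⟩ := hubZ₀.{u} k hk t c R hc
  obtain ⟨N, hN⟩ := hom_exists.{u} c k n
  refine ⟨N, ?_⟩
  intro α M _ P Λ z I E hU hR hI hPΛ hΛR hE hvis hline
  have hEM : ∀ a, E a ⊆ M.E := fun a => (hE a).trans (M.closure_subset_ground _)
  -- the chosen elements
  have hch : ∀ (a : Fin c) (J : Finset ℕ), ∃ f : Fin k → α, J ⊆ I → J.card = k →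
      (∀ q, f q ∈ E a) ∧ k ≤ vis M (P ∪ Λ) z I (Set.range f) J := by
    intro a J
    by_cases hJ : J ⊆ I ∧ J.card = k
    · obtain ⟨hJI, hJc⟩ := hJ
      have hEf : (E a).Finite := M.ground_finite.subset (hEM a)
      obtain ⟨J', hJ', hJ'c, D, hD, hDc, hv⟩ := hR.exchange (id : α → α) hEf.toFinset
        (fun b hb => hE a (hEf.mem_toFinset.1 hb)) hJI (q := k) (by
          rw [image_id, Set.Finite.coe_toFinset]
          exact hvis a J hJI hJc)
      have hJJ : J' = J := Finset.eq_of_subset_of_card_le hJ' (by omega)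
      subst hJJ
      have eq := (D.equivFin).symm
      rw [hDc] at eq
      refine ⟨fun q => (eq q : α), fun _ _ => ⟨?_, ?_⟩⟩
      · intro q
        exact hEf.mem_toFinset.1 (hD (eq q).2)
      · refine hv.trans (vis_mono_left ?_ _)
        rintro _ ⟨x, hx, rfl⟩
        exact ⟨eq.symm ⟨x, hx⟩, by simp⟩
    · exact ⟨fun _ => z 0, fun h1 h2 => absurd ⟨h1, h2⟩ hJ⟩
  choose T₀ hT₀ using hch
  obtain ⟨T, hTI, hTc, hH⟩ := hN M (P ∪ Λ) z I T₀ hI
  obtain ⟨e, he, heT⟩ := exists_enum hTc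
  obtain ⟨P', hP'⟩ : ∃ P', P' = P ∪ z '' ((I \ T : Finset ℕ) : Set ℕ) := ⟨_, rfl⟩
  have hoff : P' ∪ Λ = off (P ∪ Λ) z I T := by
    rw [hP']
    unfold off
    rw [union_assoc, union_assoc, union_comm Λ]
  have hfull : P' ∪ (z ∘ e) '' (Finset.range n : Set ℕ) = P ∪ z '' (I : Set ℕ) := by
    rw [hP']
    exact full_reindex heT hTI P
  have hfull2 : P' ∪ Λ ∪ (z ∘ e) '' (Finset.range n : Set ℕ) = P ∪ Λ ∪ z '' (I : Set ℕ) := by
    rw [union_assoc, union_comm Λ, ← union_assoc, hfull, union_assoc, union_comm _ Λ, union_assoc]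
  have hR' : Row M (P' ∪ Λ) (z ∘ e) (Finset.range n) := by
    have h1 := hR.restrict hTI
    rw [← hoff] at h1
    refine ⟨h1.subY, ?_, ?_⟩
    · intro i hi
      refine h1.mem (e i) ?_
      rw [← heT]
      exact Finset.mem_image.2 ⟨i, hi, rfl⟩
    · have h2 : (z ∘ e) '' (Finset.range n : Set ℕ) = z '' (T : Set ℕ) := by
        rw [image_comp, ← heT, Finset.coe_image]
      rw [h2, h1.ind, hTc, Finset.card_range]
  obtain ⟨C, S, j, ed, h1, h2, h3, h4, h5⟩ := hn M P' Λ (z ∘ e) (fun a J => T₀ a (J.image e)) E hU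
    hR' (by
      rw [hP', Set.disjoint_left]
      rintro x (hx | ⟨i, hi, rfl⟩) hx'
      · exact Set.disjoint_left.1 hPΛ hx hx'
      · exact hR.notin (Finset.mem_sdiff.1 (Finset.mem_coe.1 hi)).1 (Or.inr hx')) (by
      have g1 : rk M P + rk M (P' ∪ Λ) ≤ rk M (P ∪ Λ) + rk M P' := by
        refine rk_sub' (subset_inter subset_union_left ?_) ?_
        · rw [hP']; exact subset_union_left
        · rintro x (hx | hx)
          · exact Or.inr hx
          · exact Or.inl (Or.inr hx)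
      omega) (by
      rw [hoff]
      exact hom_reindex he heT hTI hH) (by
      intro a
      rw [hfull2]
      exact hE a) (by
      intro a J hJ hJc q
      refine (hT₀ a (J.image e) ?_ ?_).1 q
      · intro x hx
        obtain ⟨y, hy, rfl⟩ := Finset.mem_image.1 hx
        refine hTI ?_
        rw [← heT]
        exact Finset.mem_image.2 ⟨y, hJ hy, rfl⟩
      · rw [card_reindex he hJ, hJc]) (by
      intro a J hJ hJc
      rw [hoff, vis_reindex he heT hTI hJ]
      refine (hT₀ a (J.image e) ?_ ?_).2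
      · intro x hx
        obtain ⟨y, hy, rfl⟩ := Finset.mem_image.1 hx
        refine hTI ?_
        rw [← heT]
        exact Finset.mem_image.2 ⟨y, hJ hy, rfl⟩
      · rw [card_reindex he hJ, hJc]) (by
      intro a x hx
      rw [hfull]
      exact hline a x hx)
  refine ⟨C, S, j, ed, ?_, ?_, h3, h4, h5⟩
  · refine Subset.trans ?_ h1
    rw [hP']
    exact subset_union_left
  · rw [hfull] at h2
    exact h2

end Gam
end DA
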