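import Pool.Agent.DA.Gam74G
import Pool.Agent.DA.Gam74D
import Pool.Agent.DA.Gam74E

/-!
# Gamma elements: fixed and moving labels (row B4, section 3 of LIFT+, problem MP_5165fa_co)

`S`: the elements of the wall.  `Λ ⊆ S`: the elements of the wall in the tile `u`.
`H`: light strands `y` with conflicts `c y i`, `i ≤ n`, outside of the tile `u`.
`Lab`: labels (wall vertices `a`) with `D a ⊆ Λ` (the representatives of the rows at `a` in the
tile `u`) and `E a` (the elements which see `a` only, and an arbitrary part in `H`).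
-/

open Set BIC BICS
open scoped Matroid

namespace DA
namespace Gam

universe u v w

variable {α σ ι : Type*} {M : Matroid α}

/-- The hypotheses of `gam`. -/
structure Gm (M : Matroid α) (S Λ : Set α) (H : Finset σ) (c : σ → ℕ → α) (n : ℕ)
    (Lab : Finset ι) (E D : ι → Set α) : Prop where
  subS : S ⊆ M.E
  subΛ : Λ ⊆ S
  memc : ∀ y ∈ H, ∀ i ≤ n, c y i ∈ S ∧ c y i ∉ Λ
  injc : ∀ y ∈ H, ∀ y' ∈ H, ∀ i ≤ n, ∀ j ≤ n, c y i = c y' j → y = y' ∧ i = j
  star : ∀ y ∈ H, ∀ i ≤ n, ∀ j ≤ n, i ≠ j → c y i ∉ M.closure (S \ {c y i, c y j})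
  subE : ∀ a ∈ Lab, E a ⊆ M.closure S
  subD : ∀ a ∈ Lab, D a ⊆ Λ
  out : ∀ a ∈ Lab, ∀ x ∈ E a, x ∉ M.closure (S \ D a)
  other : ∀ a ∈ Lab, ∀ a' ∈ Lab, a ≠ a' → E a' ⊆ M.closure (S \ D a)

/-- the conflicts of the light strands in the windows `B` -/
def ZH (H : Finset σ) (c : σ → ℕ → α) (B : Finset ℕ) : Set α := ⋃ y ∈ H, c y '' (B : Set ℕ)

lemma vis_union_left {Y : Set α} {z : ℕ → α} {I : Finset ℕ} [M.Finite] (F F' : Set α)
    (J : Finset ℕ) : vis M Y z I (F ∪ F') J ≤ vis M Y z I F J + vis M Y z I F' J := by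
  have h1 := vis_add (Y := Y) (z := z) (I := I) M F J
  have h2 := vis_add (Y := Y) (z := z) (I := I) M F' J
  have h3 := vis_add (Y := Y) (z := z) (I := I) M (F ∪ F') J
  have h4 := rk_rel (M := M) (off Y z I J) F F'
  omega

lemma vis_biUnion {Y : Set α} {z : ℕ → α} {I : Finset ℕ} [M.Finite] (F : ι → Set α)
    (J : Finset ℕ) {q : ℕ} (L : Finset ι) (h : ∀ a ∈ L, vis M Y z I (F a) J ≤ q) :
    vis M Y z I (⋃ a ∈ L, F a) J ≤ L.card * q := by
  classical
  induction L using Finset.induction_on with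
  | empty =>
    simp [vis]
  | insert a L ha ih =>
    rw [Finset.set_biUnion_insert, Finset.card_insert_of_notMem ha, Nat.add_mul, Nat.one_mul]
    have h1 := vis_union_left (M := M) (Y := Y) (z := z) (I := I) (F a) (⋃ b ∈ L, F b) J
    have h2 := h a (Finset.mem_insert_self _ _)
    have h3 := ih fun b hb => h b (Finset.mem_insert_of_mem hb)
    omega

/-- **Fixed and moving labels.** -/
theorem gam (k : ℕ) (hk : 2 ≤ k) (t h l R n' : ℕ) : ∃ n : ℕ, ∀ {α : Type u} {σ : Type v}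
    {ι : Type w} (M : Matroid α) [M.Finite] (S Λ : Set α) (H : Finset σ) (c : σ → ℕ → α)
    (Lab : Finset ι) (E D : ι → Set α), Gm M S Λ H c n Lab E D → rk M Λ ≤ R → H.card ≤ h →
    Lab.card ≤ l →
    HasUniformMinor M k ∨
    (∃ (C S' : Set α) (j : ℕ × ℕ → α) (ed : ℕ × ℕ → ℕ × ℕ → α), C ⊆ (S \ Λ) ∪ (⋃ a ∈ Lab, E a) ∧
      S' ⊆ (⋃ a ∈ Lab, E a) ∧ Gad.JGrid (M ／ C) S' t j ed ∧
      rk M (S' ∪ (Λ ∪ C)) ≤ rk M (Λ ∪ C) + (k - 1)) ∨
    ∃ B ⊆ Finset.Icc 1 n, B.card = n' ∧ ∃ Mov ⊆ Lab,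
      Mov.card ≤ H.card * (3 * k * CC (t * t) (k - 1)) ∧
      rk M ((⋃ a ∈ (Lab : Set ι) \ Mov, E a) ∪ (S \ ZH H c B)) ≤
        rk M (S \ ZH H c B) + H.card * k := by
  classical
  obtain ⟨cc, hcc⟩ : ∃ cc, cc = 3 * k * CC (t * t) (k - 1) + 1 := ⟨_, rfl⟩
  obtain ⟨N₁, hN₁⟩ := hubZ.{u} k hk t cc R (by omega)
  obtain ⟨N₂, hN₂⟩ := few_all.{u, v} k hk h (l * k) n'
  obtain ⟨n, hn⟩ := dichotomy.{u, v, w} k h l (max N₁ N₂)
  refine ⟨n, ?_⟩
  intro α σ ι M _ S Λ H c Lab E D hG hΛR hH hl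
  by_cases hU : HasUniformMinor M k
  · exact Or.inl hU
  right
  -- rows
  have hrow : ∀ y, ∃ Y : Set α, y ∈ H → S \ c y '' ((Finset.range (n + 1) : Finset ℕ) : Set ℕ) ⊆ Y ∧
      Y ⊆ S \ c y '' ((Finset.Icc 1 n : Finset ℕ) : Set ℕ) ∧ Row M Y (c y) (Finset.Icc 1 n) ∧
      S ⊆ M.closure (Y ∪ c y '' ((Finset.Icc 1 n : Finset ℕ) : Set ℕ)) := by
    intro y
    by_cases hy : y ∈ H
    · obtain ⟨⟨Y, h1, h2, h3, h4⟩, -⟩ := row_of_star (M := M) hG.subS (c := c y) (n := n)
        (fun i hi => (hG.memc y hy i hi).1) (fun i hi j hj h => (hG.injc y hy y hy i hi j hj h).2)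
        (hG.star y hy)
      exact ⟨Y, fun _ => ⟨h1, h2, h3, h4⟩⟩
    · exact ⟨∅, fun h => absurd h hy⟩
  choose Y hY using hrow
  have hcard : ∀ y ∈ H, ∀ J ⊆ Finset.Icc 1 n, rk M (S \ c y '' (J : Set ℕ)) + J.card ≤
      rk M S + 1 := by
    intro y hy
    exact (row_of_star (M := M) hG.subS (c := c y) (n := n)
        (fun i hi => (hG.memc y hy i hi).1) (fun i hi j hj h => (hG.injc y hy y hy i hi j hj h).2)
        (hG.star y hy)).2
  have hclS : ∀ y ∈ H, M.closure S ⊆
      M.closure (Y y ∪ c y '' ((Finset.Icc 1 n : Finset ℕ) : Set ℕ)) := fun y hy =>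
    M.closure_subset_closure_of_subset_closure (hY y hy).2.2.2
  have hIcc : ∀ i ∈ Finset.Icc 1 n, i ≤ n := fun i hi => (Finset.mem_Icc.1 hi).2
  obtain ⟨I', hI', hI'c, hdich⟩ := hn M H Lab Y c (Finset.Icc 1 n) E hH hl
    (fun y hy => (hY y hy).2.2.1) (fun a ha y hy => (hG.subE a ha).trans (hclS y hy)) (by simp)
  set MovY : σ → Finset ι := fun y => Lab.filter (fun a => ∀ J ⊆ I', J.card = k →
    k ≤ vis M (Y y) (c y) (Finset.Icc 1 n) (E a) J) with hMovY
  by_cases hcase : ∃ y ∈ H, cc ≤ (MovY y).card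
  · -- many moving labels at one strand
    left
    obtain ⟨y, hy, hyc⟩ := hcase
    obtain ⟨A, hA, hAc⟩ := Finset.exists_subset_card_eq hyc
    have eq := (A.equivFin).symm
    rw [hAc] at eq
    have hAL : ∀ i : Fin cc, (eq i : ι) ∈ Lab := fun i => (Finset.mem_filter.1 (hA (eq i).2)).1
    have hAv : ∀ i : Fin cc, ∀ J ⊆ I', J.card = k →
      k ≤ vis M (Y y) (c y) (Finset.Icc 1 n) (E (eq i)) J := fun i =>
        (Finset.mem_filter.1 (hA (eq i).2)).2
    obtain ⟨h1, h2, h3, h4⟩ := hY y hy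
    have hΛY : Λ ⊆ Y y := by
      intro x hx
      refine h1 ⟨hG.subΛ hx, ?_⟩
      rintro ⟨i, hi, rfl⟩
      exact (hG.memc y hy i (Nat.lt_succ_iff.1 (Finset.mem_range.1 hi))).2 hx
    obtain ⟨P, hP⟩ : ∃ P, P = (Y y \ Λ) ∪ c y '' ((Finset.Icc 1 n \ I' : Finset ℕ) : Set ℕ) :=
      ⟨_, rfl⟩
    have hcΛ : ∀ i ∈ Finset.Icc 1 n, c y i ∉ Λ := fun i hi => (hG.memc y hy i (hIcc i hi)).2
    have hPΛ : P ∪ Λ = off (Y y) (c y) (Finset.Icc 1 n) I' := by
      rw [hP]
      unfold off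
      rw [union_assoc, union_comm _ Λ, ← union_assoc, sdiff_union_of_subset hΛY]
    have hdis : Disjoint P Λ := by
      rw [hP, Set.disjoint_left]
      rintro x (hx | ⟨i, hi, rfl⟩) hx'
      · exact hx.2 hx'
      · exact hcΛ i (Finset.mem_sdiff.1 (Finset.mem_coe.1 hi)).1 hx'
    have hfull : P ∪ Λ ∪ c y '' (I' : Set ℕ) =
        Y y ∪ c y '' ((Finset.Icc 1 n : Finset ℕ) : Set ℕ) := by
      rw [hPΛ]
      unfold off
      rw [union_assoc, ← image_union]
      congr 2
      ext i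
      simp only [mem_union, Finset.mem_coe, Finset.mem_sdiff]
      constructor
      · rintro (h | h)
        · exact h.1
        · exact hI' h
      · intro h
        by_cases hi : i ∈ I'
        · exact Or.inr hi
        · exact Or.inl ⟨h, hi⟩
    have hPS : P ∪ c y '' (I' : Set ℕ) ⊆ S \ Λ := by
      rw [hP]
      rintro x ((hx | ⟨i, hi, rfl⟩) | ⟨i, hi, rfl⟩)
      · exact ⟨(h2 hx.1).1, hx.2⟩
      · exact hG.memc y hy i (hIcc i (Finset.mem_sdiff.1 (Finset.mem_coe.1 hi)).1)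
      · exact hG.memc y hy i (hIcc i (hI' hi))
    obtain ⟨C, S', j, ed, g1, g2, g3, g4, g5⟩ := hN₁ M P Λ (c y) I' (fun i => E (eq i)) hU (by
        rw [hPΛ]
        exact h3.restrict hI') (by rw [hI'c]; exact le_max_left _ _) hdis (by
        have g1 := rk_submod M P Λ
        omega) (by
        intro i
        rw [hfull]
        exact (hG.subE _ (hAL i)).trans (hclS y hy)) (by
        intro i J hJ hJc
        rw [hPΛ, vis_off hI' hJ]
        exact hAv i J hJ hJc) (by
        intro i x hx hcl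
        refine hG.out _ (hAL i) x hx (M.closure_subset_closure_of_subset_closure ?_ hcl)
        refine union_subset ?_ ?_
        · have g1 : P ∪ c y '' (I' : Set ℕ) ⊆ S \ D (eq i) := fun x hx =>
            ⟨(hPS hx).1, fun h => (hPS hx).2 (hG.subD _ (hAL i) h)⟩
          exact g1.trans (M.subset_closure _ (sdiff_subset.trans hG.subS))
        · refine iUnion₂_subset fun i' hi' => ?_
          refine hG.other _ (hAL i) _ (hAL i') ?_
          intro h
          exact hi' (eq.injective (Subtype.ext h.symm)))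
    have hUE : (⋃ i : Fin cc, E (eq i)) ⊆ ⋃ a ∈ Lab, E a :=
      iUnion_subset fun i => subset_biUnion_of_mem (u := E) (hAL i)
    refine ⟨C, S', j, ed, ?_, g3.trans hUE, g4, g5⟩
    exact g2.trans (union_subset_union hPS hUE)
  · -- few moving labels
    right
    push Not at hcase
    set Mov : Finset ι := H.biUnion MovY with hMov
    have hMovL : Mov ⊆ Lab := by
      intro a ha
      obtain ⟨y, hy, h1⟩ := Finset.mem_biUnion.1 ha
      exact (Finset.mem_filter.1 h1).1
    have hfix : ∀ y ∈ H, ∀ a ∈ Lab \ Mov,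
        vis M (Y y) (c y) (Finset.Icc 1 n) (E a) I' ≤ k := by
      intro y hy a ha
      obtain ⟨ha1, ha2⟩ := Finset.mem_sdiff.1 ha
      rcases hdich y hy a ha1 with h1 | h1
      · exact absurd (Finset.mem_biUnion.2 ⟨y, hy, Finset.mem_filter.2 ⟨ha1, h1⟩⟩) ha2
      · exact h1.le
    obtain ⟨B, hB, hBc, hBv⟩ := hN₂ M hU H Y c (Finset.Icc 1 n) (fun _ => ⋃ a ∈ Lab \ Mov, E a)
      hH (fun y hy => (hY y hy).2.2.1) (by
        intro y hy
        refine iUnion₂_subset fun a ha => ?_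
        exact (hG.subE a (Finset.mem_sdiff.1 ha).1).trans (hclS y hy)) I' hI'
      (by rw [hI'c]; exact le_max_right _ _) (by
        intro y hy
        refine (vis_biUnion (M := M) (Y := Y y) (z := c y) (I := Finset.Icc 1 n) E I'
          (Lab \ Mov) (hfix y hy)).trans (Nat.mul_le_mul_right _ ?_)
        exact (Finset.card_le_card Finset.sdiff_subset).trans hl)
    have hBI := hB.trans hI'
    refine ⟨B, hBI, hBc, Mov, hMovL, ?_, ?_⟩
    · refine Finset.card_biUnion_le.trans ?_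
      rw [← smul_eq_mul, ← Finset.sum_const]
      refine Finset.sum_le_sum fun y hy => ?_
      have := hcase y hy
      omega
    · have h1 := sum_strands (M := M) hG.subS (F := ⋃ a ∈ Lab \ Mov, E a)
        (iUnion₂_subset fun a ha => hG.subE a (Finset.mem_sdiff.1 ha).1) H
        (fun y => c y '' (B : Set ℕ)) (by
          rintro y hy _ ⟨i, hi, rfl⟩
          exact (hG.memc y hy i (hIcc i (hBI hi))).1) (by
          intro y hy y' hy' hne
          rw [Set.disjoint_left]
          rintro _ ⟨i, hi, rfl⟩ ⟨i', hi', h⟩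
          exact hne (hG.injc y' hy' y hy i' (hIcc i' (hBI hi')) i (hIcc i (hBI hi)) h).1.symm) (by
          intro y hy
          have h2 := hcard y hy B hBI
          have h3 := Set.ncard_image_le (f := c y) B.finite_toSet
          rw [Set.ncard_coe_finset] at h3
          omega) (k - 1) (by
          intro y hy
          have h2 := hBv y hy
          have h3 := vis_add (Y := Y y) (z := c y) (I := Finset.Icc 1 n) M
            (⋃ a ∈ Lab \ Mov, E a) B
          have h4 : off (Y y) (c y) (Finset.Icc 1 n) B ⊆ S \ c y '' (B : Set ℕ) := by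
            rintro x (hx | ⟨i, hi, rfl⟩)
            · have h5 := (hY y hy).2.1 hx
              exact ⟨h5.1, fun h6 => h5.2 (image_mono (by exact_mod_cast hBI) h6)⟩
            · obtain ⟨h5, h6⟩ := Finset.mem_sdiff.1 (Finset.mem_coe.1 hi)
              refine ⟨(hG.memc y hy i (hIcc i h5)).1, ?_⟩
              rintro ⟨i', hi', h7⟩
              have h8 := (hG.injc y hy y hy i' (hIcc i' (hBI hi')) i (hIcc i h5) h7).2
              subst h8
              exact h6 hi'
          have h5 : rk M (off (Y y) (c y) (Finset.Icc 1 n) B) +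
              rk M ((⋃ a ∈ Lab \ Mov, E a) ∪ (S \ c y '' (B : Set ℕ))) ≤
              rk M (off (Y y) (c y) (Finset.Icc 1 n) B ∪ ⋃ a ∈ Lab \ Mov, E a) +
                rk M (S \ c y '' (B : Set ℕ)) := by
            refine rk_sub' (subset_inter subset_union_left h4) ?_
            rintro x (hx | hx)
            · exact Or.inl (Or.inr hx)
            · exact Or.inr hx
          omega)
      have h2 : k - 1 + 1 = k := by omega
      have h3 : (⋃ a ∈ (Lab : Set ι) \ (Mov : Set ι), E a) = ⋃ a ∈ Lab \ Mov, E a := by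
        ext x
        simp only [mem_iUnion, mem_sdiff, Finset.mem_coe, Finset.mem_sdiff]
      rw [h2] at h1
      rw [h3]
      exact h1

end Gam
end DA
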