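import Pool.Agent.DA.Strand74
import Pool.Agent.DA.Gam74H

/-!
# Gamma elements, second version: few moving rows (row B4 of cell G, problem MP_5165fa_co)

`gam2`: every label `a` has a row `ρ a`.  Either a uniform minor, or a hub picture with at most one
label for each row, or all labels outside of few rows are fixed.
-/

open Set BIC BICS
open scoped Matroid

namespace DA
namespace Gam

universe u v w x

variable {α σ ι β : Type*} {M : Matroid α}

lemma exists_inj_sub [DecidableEq β] (A : Finset ι) (ρ : ι → β) {c : ℕ}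
    (h : c ≤ (A.image ρ).card) : ∃ A' ⊆ A, A'.card = c ∧ Set.InjOn ρ A' := by
  classical
  obtain ⟨R, hR, hRc⟩ := Finset.exists_subset_card_eq h
  have hex : ∀ r ∈ R, ∃ a ∈ A, ρ a = r := fun r hr => Finset.mem_image.1 (hR hr)
  rcases isEmpty_or_nonempty ι with hι | hι
  · have hRe : R = ∅ := by
      rw [Finset.eq_empty_iff_forall_notMem]
      intro r hr
      obtain ⟨a, _, _⟩ := hex r hr
      exact hι.elim a
    rw [hRe, Finset.card_empty] at hRc
    exact ⟨∅, Finset.empty_subset _, by simpa using hRc, by simp⟩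
  · choose! g hg1 hg2 using hex
    have hinj : Set.InjOn g R := by
      intro r hr r' hr' h'
      rw [← hg2 r hr, ← hg2 r' hr', h']
    refine ⟨R.image g, ?_, ?_, ?_⟩
    · intro a ha
      obtain ⟨r, hr, rfl⟩ := Finset.mem_image.1 ha
      exact hg1 r hr
    · rw [Finset.card_image_of_injOn hinj, hRc]
    · intro a ha a' ha' h'
      obtain ⟨r, hr, rfl⟩ := Finset.mem_image.1 (Finset.mem_coe.1 ha)
      obtain ⟨r', hr', rfl⟩ := Finset.mem_image.1 (Finset.mem_coe.1 ha')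
      rw [hg2 r hr, hg2 r' hr'] at h'
      rw [h']

/-- light strands `c y`, labels `a ∈ Lab` with the rows `ρ a`, elements `E a` which are invisible for
the stars `D a'` of the labels of other rows. -/
structure GmR (M : Matroid α) (S Λ : Set α) (H : Finset σ) (c : σ → ℕ → α) (n : ℕ)
    (Lab : Finset ι) (E D : ι → Set α) (ρ : ι → β) : Prop where
  subS : S ⊆ M.E
  subΛ : Λ ⊆ S
  memc : ∀ y ∈ H, ∀ i ≤ n, c y i ∈ S ∧ c y i ∉ Λ
  injc : ∀ y ∈ H, ∀ y' ∈ H, ∀ i ≤ n, ∀ j ≤ n, c y i = c y' j → y = y' ∧ i = j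
  star : ∀ y ∈ H, ∀ i ≤ n, ∀ j ≤ n, i ≠ j → c y i ∉ M.closure (S \ {c y i, c y j})
  subE : ∀ a ∈ Lab, E a ⊆ M.closure S
  subD : ∀ a ∈ Lab, D a ⊆ Λ
  out : ∀ a ∈ Lab, ∀ x ∈ E a, x ∉ M.closure (S \ D a)
  other : ∀ a ∈ Lab, ∀ a' ∈ Lab, ρ a ≠ ρ a' → E a' ⊆ M.closure (S \ D a)

/-- The hub picture at the strand `z` in the wall `S`. -/
structure Pic (M : Matroid α) (S Λ : Set α) (z : ℕ → α) (n k t : ℕ) (A Lab : Finset ι)
    (E D : ι → Set α) (C₀ X S' : Set α) (j : ℕ × ℕ → α) (ed : ℕ × ℕ → ℕ × ℕ → α) : Prop where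
  C₀_sub : C₀ ⊆ S \ Λ
  C₀_sup : S \ z '' ((Finset.range (n + 1) : Finset ℕ) : Set ℕ) ⊆ C₀ ∪ Λ
  X_sub : X ⊆ ⋃ a ∈ A, E a
  S_sub : S' ⊆ ⋃ a ∈ A, E a
  grid : Gad.JGrid (M ／ (C₀ ∪ X)) S' t j ed
  span : rk M (S' ∪ (Λ ∪ (C₀ ∪ X))) ≤ rk M (Λ ∪ (C₀ ∪ X)) + (k - 1)
  skew : rk M (Λ ∪ C₀) + rk M (C₀ ∪ X) ≤ rk M (Λ ∪ (C₀ ∪ X)) + rk M C₀ + QQ k
  joints : ∀ Ω ⊆ Λ, (∀ a ∈ Lab, Disjoint (D a) Ω) →
    rk M (Ω ∪ (C₀ ∪ X)) + t * t ≤ rk M (S' ∪ (Ω ∪ (C₀ ∪ X))) + QQ k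

/-- **Fixed and moving labels**, second version. -/
theorem gam2 (k : ℕ) (hk : 2 ≤ k) (t h l R n' : ℕ) : ∃ n : ℕ, ∀ {α : Type u} {σ : Type v}
    {ι : Type w} {β : Type x} [DecidableEq β] (M : Matroid α) [M.Finite] (S Λ : Set α) (H : Finset σ)
    (c : σ → ℕ → α) (Lab : Finset ι) (E D : ι → Set α) (ρ : ι → β), GmR M S Λ H c n Lab E D ρ →
    rk M Λ ≤ R → H.card ≤ h → Lab.card ≤ l →
    HasUniformMinor M k ∨
    (∃ y ∈ H, ∃ A ⊆ Lab, Set.InjOn ρ A ∧ ∃ (C₀ X S' : Set α) (j : ℕ × ℕ → α)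
      (ed : ℕ × ℕ → ℕ × ℕ → α), Pic M S Λ (c y) n k t A Lab E D C₀ X S' j ed) ∨
    ∃ B ⊆ Finset.Icc 1 n, B.card = n' ∧ ∃ Mv : Finset β,
      Mv.card ≤ H.card * (3 * k * (t * t + QQ k)) ∧ ∀ y ∈ H,
      rk M ((⋃ a ∈ {a | a ∈ Lab ∧ ρ a ∉ Mv}, E a) ∪ (S \ c y '' (B : Set ℕ))) ≤
        rk M (S \ c y '' (B : Set ℕ)) + (k - 1) := by
  classical
  obtain ⟨cc, hcc⟩ : ∃ cc, cc = 3 * k * (t * t + QQ k) + 1 := ⟨_, rfl⟩
  obtain ⟨N₁, hN₁⟩ := hubZ'.{u} k hk t cc R (by omega)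
  obtain ⟨N₂, hN₂⟩ := few_all.{u, v} k hk h (l * k) n'
  obtain ⟨n, hn⟩ := dichotomy.{u, v, w} k h l (max N₁ N₂)
  refine ⟨n, ?_⟩
  intro α σ ι β decβ M _ S Λ H c Lab E D ρ hG hΛR hH hl
  by_cases hU : HasUniformMinor M k
  · exact Or.inl hU
  right
  -- rows
  have hrow : ∀ y, ∃ Y : Set α, y ∈ H → S \ c y '' ((Finset.range (n + 1) : Finset ℕ) : Set ℕ) ⊆ Y ∧
      Y ⊆ S \ c y '' ((Finset.Icc 1 n : Finset ℕ) : Set ℕ) ∧ Row M Y (c y) (Finset.Icc 1 n) ∧
      S ⊆ M.closure (Y ∪ c y '' ((Finset.Icc 1 n : Finset ℕ) : Set ℕ)) := by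
    intro y
    by_cases hy : y ∈ H
    · obtain ⟨⟨Y, h1, h2, h3, h4⟩, -⟩ := row_of_star (M := M) hG.subS (c := c y) (n := n)
        (fun i hi => (hG.memc y hy i hi).1) (fun i hi j hj h => (hG.injc y hy y hy i hi j hj h).2)
        (hG.star y hy)
      exact ⟨Y, fun _ => ⟨h1, h2, h3, h4⟩⟩
    · exact ⟨∅, fun h => absurd h hy⟩
  choose Y hY using hrow
  have hclS : ∀ y ∈ H, M.closure S ⊆
      M.closure (Y y ∪ c y '' ((Finset.Icc 1 n : Finset ℕ) : Set ℕ)) := fun y hy =>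
    M.closure_subset_closure_of_subset_closure (hY y hy).2.2.2
  have hIcc : ∀ i ∈ Finset.Icc 1 n, i ≤ n := fun i hi => (Finset.mem_Icc.1 hi).2
  obtain ⟨I', hI', hI'c, hdich⟩ := hn M H Lab Y c (Finset.Icc 1 n) E hH hl
    (fun y hy => (hY y hy).2.2.1) (fun a ha y hy => (hG.subE a ha).trans (hclS y hy)) (by simp)
  set MovY : σ → Finset ι := fun y => Lab.filter (fun a => ∀ J ⊆ I', J.card = k →
    k ≤ vis M (Y y) (c y) (Finset.Icc 1 n) (E a) J) with hMovY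
  by_cases hcase : ∃ y ∈ H, cc ≤ ((MovY y).image ρ).card
  · -- many moving labels at one strand
    left
    obtain ⟨y, hy, hyc⟩ := hcase
    obtain ⟨A, hA, hAc, hAinj⟩ := exists_inj_sub (MovY y) ρ hyc
    have eq := (A.equivFin).symm
    rw [hAc] at eq
    have hAL' : A ⊆ Lab := hA.trans (Finset.filter_subset _ _)
    have hAL : ∀ i : Fin cc, (eq i : ι) ∈ Lab := fun i => hAL' (eq i).2
    have hAv : ∀ i : Fin cc, ∀ J ⊆ I', J.card = k →
      k ≤ vis M (Y y) (c y) (Finset.Icc 1 n) (E (eq i)) J := fun i =>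
        (Finset.mem_filter.1 (hA (eq i).2)).2
    obtain ⟨h1, h2, h3, h4⟩ := hY y hy
    have hΛY : Λ ⊆ Y y := by
      intro x hx
      refine h1 ⟨hG.subΛ hx, ?_⟩
      rintro ⟨i, hi, rfl⟩
      exact (hG.memc y hy i (Nat.lt_succ_iff.1 (Finset.mem_range.1 hi))).2 hx
    obtain ⟨P, hP⟩ : ∃ P, P = (Y y \ Λ) ∪ c y '' ((Finset.Icc 1 n \ I' : Finset ℕ) : Set ℕ) :=
      ⟨_, rfl⟩
    have hcΛ : ∀ i ∈ Finset.Icc 1 n, c y i ∉ Λ := fun i hi => (hG.memc y hy i (hIcc i hi)).2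
    have hPΛ : P ∪ Λ = off (Y y) (c y) (Finset.Icc 1 n) I' := by
      rw [hP]
      unfold off
      rw [union_assoc, union_comm _ Λ, ← union_assoc, sdiff_union_of_subset hΛY]
    have hdis : Disjoint P Λ := by
      rw [hP, Set.disjoint_left]
      rintro x (hx | ⟨i, hi, rfl⟩) hx'
      · exact hx.2 hx'
      · exact hcΛ i (Finset.mem_sdiff.1 (Finset.mem_coe.1 hi)).1 hx'
    have hfull : P ∪ Λ ∪ c y '' (I' : Set ℕ) =
        Y y ∪ c y '' ((Finset.Icc 1 n : Finset ℕ) : Set ℕ) := by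
      rw [hPΛ]
      unfold off
      rw [union_assoc, ← image_union]
      congr 2
      ext i
      simp only [mem_union, Finset.mem_coe, Finset.mem_sdiff]
      constructor
      · rintro (h | h)
        · exact h.1
        · exact hI' h
      · intro h
        by_cases hi : i ∈ I'
        · exact Or.inr hi
        · exact Or.inl ⟨h, hi⟩
    have hPS : P ∪ c y '' (I' : Set ℕ) ⊆ S \ Λ := by
      rw [hP]
      rintro x ((hx | ⟨i, hi, rfl⟩) | ⟨i, hi, rfl⟩)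
      · exact ⟨(h2 hx.1).1, hx.2⟩
      · exact hG.memc y hy i (hIcc i (Finset.mem_sdiff.1 (Finset.mem_coe.1 hi)).1)
      · exact hG.memc y hy i (hIcc i (hI' hi))
    -- privacy over a part of `Λ`
    have hpriv : ∀ Ω ⊆ Λ, (∀ a ∈ Lab, Disjoint (D a) Ω) → ∀ i : Fin cc, ∀ x ∈ E (eq i),
        x ∉ M.closure (Ω ∪ (P ∪ c y '' (I' : Set ℕ)) ∪ ⋃ i' ∈ {i' | i' ≠ i}, E (eq i')) := by
      intro Ω hΩ hΩD i x hx hcl
      refine hG.out _ (hAL i) x hx (M.closure_subset_closure_of_subset_closure ?_ hcl)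
      refine union_subset ?_ ?_
      · have g1 : Ω ∪ (P ∪ c y '' (I' : Set ℕ)) ⊆ S \ D (eq i) := by
          rintro x (hx | hx)
          · exact ⟨hG.subΛ (hΩ hx), fun h => Set.disjoint_left.1 (hΩD _ (hAL i)) h hx⟩
          · exact ⟨(hPS hx).1, fun h => (hPS hx).2 (hG.subD _ (hAL i) h)⟩
        exact g1.trans (M.subset_closure _ (sdiff_subset.trans hG.subS))
      · refine iUnion₂_subset fun i' hi' => ?_
        refine hG.other _ (hAL i) _ (hAL i') ?_
        intro h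
        exact hi' (eq.injective (Subtype.ext (hAinj (eq i).2 (eq i').2 h).symm))
    obtain ⟨C₀, X, S', j, ed, g1, g2, g3, g4, g5, g6, g7, g8⟩ := hN₁ M P Λ (c y) I'
      (fun i => E (eq i)) hU (by
        rw [hPΛ]
        exact h3.restrict hI') (by rw [hI'c]; exact le_max_left _ _) hdis (by
        have g1 := rk_submod M P Λ
        omega) (by
        intro i
        rw [hfull]
        exact (hG.subE _ (hAL i)).trans (hclS y hy)) (by
        intro i J hJ hJc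
        rw [hPΛ, vis_off hI' hJ]
        exact hAv i J hJ hJc) (by
        intro i x hx
        have := hpriv ∅ (empty_subset _) (fun _ _ => disjoint_empty _) i x hx
        rwa [empty_union] at this)
    have hUE : (⋃ i : Fin cc, E (eq i)) ⊆ ⋃ a ∈ A, E a :=
      iUnion_subset fun i => subset_biUnion_of_mem (u := E) (eq i).2
    refine ⟨y, hy, A, hAL', hAinj, C₀, X, S', j, ed, ?_⟩
    refine ⟨g2.trans hPS, ?_, g3.trans hUE, g4.trans hUE, g5, g6, g7, fun Ω hΩ hΩD =>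
      g8 Ω hΩ (hpriv Ω hΩ hΩD)⟩
    intro x hx
    have hxY := h1 hx
    by_cases hxΛ : x ∈ Λ
    · exact Or.inr hxΛ
    · refine Or.inl (g1 ?_)
      rw [hP]
      exact Or.inl ⟨hxY, hxΛ⟩
  · -- few moving labels
    right
    push Not at hcase
    set Mv : Finset β := H.biUnion (fun y => (MovY y).image ρ) with hMv
    set Fx : Finset ι := Lab.filter (fun a => ρ a ∉ Mv) with hFx
    have hfix : ∀ y ∈ H, ∀ a ∈ Fx, vis M (Y y) (c y) (Finset.Icc 1 n) (E a) I' ≤ k := by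
      intro y hy a ha
      obtain ⟨ha1, ha2⟩ := Finset.mem_filter.1 ha
      rcases hdich y hy a ha1 with h1 | h1
      · exact absurd (Finset.mem_biUnion.2 ⟨y, hy, Finset.mem_image.2
          ⟨a, Finset.mem_filter.2 ⟨ha1, h1⟩, rfl⟩⟩) ha2
      · exact h1.le
    obtain ⟨B, hB, hBc, hBv⟩ := hN₂ M hU H Y c (Finset.Icc 1 n) (fun _ => ⋃ a ∈ Fx, E a)
      hH (fun y hy => (hY y hy).2.2.1) (by
        intro y hy
        refine iUnion₂_subset fun a ha => ?_
        exact (hG.subE a (Finset.mem_filter.1 ha).1).trans (hclS y hy)) I' hI'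
      (by rw [hI'c]; exact le_max_right _ _) (by
        intro y hy
        refine (vis_biUnion (M := M) (Y := Y y) (z := c y) (I := Finset.Icc 1 n) E I'
          Fx (hfix y hy)).trans (Nat.mul_le_mul_right _ ?_)
        exact (Finset.card_le_card (Finset.filter_subset _ _)).trans hl)
    have hBI := hB.trans hI'
    refine ⟨B, hBI, hBc, Mv, ?_, ?_⟩
    · refine Finset.card_biUnion_le.trans ?_
      rw [← smul_eq_mul, ← Finset.sum_const]
      refine Finset.sum_le_sum fun y hy => ?_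
      have := hcase y hy
      omega
    · intro y hy
      have hset : (⋃ a ∈ {a | a ∈ Lab ∧ ρ a ∉ Mv}, E a) = ⋃ a ∈ Fx, E a := by
        ext x
        simp only [mem_iUnion, hFx, Finset.mem_filter]
        rfl
      rw [hset]
      have h2 := hBv y hy
      have h3 := vis_add (Y := Y y) (z := c y) (I := Finset.Icc 1 n) M
        (⋃ a ∈ Fx, E a) B
      have h4 : off (Y y) (c y) (Finset.Icc 1 n) B ⊆ S \ c y '' (B : Set ℕ) := by
        rintro x (hx | ⟨i, hi, rfl⟩)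
        · have h5 := (hY y hy).2.1 hx
          exact ⟨h5.1, fun h6 => h5.2 (image_mono (by exact_mod_cast hBI) h6)⟩
        · obtain ⟨h5, h6⟩ := Finset.mem_sdiff.1 (Finset.mem_coe.1 hi)
          refine ⟨(hG.memc y hy i (hIcc i h5)).1, ?_⟩
          rintro ⟨i', hi', h7⟩
          have h8 := (hG.injc y hy y hy i' (hIcc i' (hBI hi')) i (hIcc i h5) h7).2
          subst h8
          exact h6 hi'
      have h5 : rk M (off (Y y) (c y) (Finset.Icc 1 n) B) +
          rk M ((⋃ a ∈ Fx, E a) ∪ (S \ c y '' (B : Set ℕ))) ≤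
          rk M (off (Y y) (c y) (Finset.Icc 1 n) B ∪ ⋃ a ∈ Fx, E a) +
            rk M (S \ c y '' (B : Set ℕ)) := by
        refine rk_sub' (subset_inter subset_union_left h4) ?_
        rintro x (hx | hx)
        · exact Or.inl (Or.inr hx)
        · exact Or.inr hx
      omega

end Gam
end DA
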