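import Pool.Agent.DA.LinkB74

/-!
# Gamma elements: few moving rows (row P5 of Claim F, problem MP_5165fa_co)

`gamma2`: rows `crr L₁ (Seg w)` of `M`, columns `crr L₂ (Seg s)` of `M✶` (one tile), hot blocks.
`Λ` = the wall of the tile `u` (anchors and conflicts of one tile); labels `a` = places of `Λ` with a
row `ρ a`; `E a` = elements with exactly one place `a` outside of the light rows `LR`.  Without
`U_{k,2k}`-minor all labels outside of `C * |H|` rows are fixed: after choice of `n'` tiles their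
elements have rank at most `k - 1` over the complement of the conflicts of every light row of `H`.
-/

open Set BIC BICS CWL
open scoped Matroid

namespace DA
namespace Gam

universe u v w

theorem gamma2 (k : ℕ) (hk : 2 ≤ k) (κ q₀ : ℕ) : ∃ C : ℕ, ∀ ρh : ℕ, ∃ w₁ s₁ : ℕ,
    ∀ h l R n' : ℕ, ∃ n : ℕ, ∀ {α : Type u} {σ : Type v} {ι : Type w} (M : Matroid α) [M.Finite]
    (w s : ℕ) (L₁ L₂ : Bool × ℕ × ℕ → List α) (f₁ f₂ : α → Sym2 ((ℕ × ℕ) ⊕ α))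
    (e₁ e₂ : Bool × ℕ × ℕ → α) (Λ : Set α) (H : Finset σ) (c : σ → ℕ → α) (Lab : Finset ι)
    (E D : ι → Set α) (rr : σ → Bool × ℕ × ℕ) (ρ : ι → Bool × ℕ × ℕ)
    (LR : Set (Bool × ℕ × ℕ)), w₁ ≤ w → s₁ ≤ s →
    GSide M (Seg w) L₁ f₁ e₁ κ → GSide M✶ (Seg s) L₂ f₂ e₂ κ →
    (∀ i j a b : ℕ, shS i j '' Seg ρh ⊆ Seg w → shS a b '' Seg ρh ⊆ Seg s →
      ∃ r ∈ shS i j '' Seg ρh, ∃ x ∈ L₁ r, x ∈ crr L₂ (shS a b '' Seg ρh)) →
    GmR M (crr L₁ (Seg w)) Λ H c n Lab E D ρ →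
    rk M Λ ≤ R → H.card ≤ h → Lab.card ≤ l →
    (∀ r ∈ Seg w, ∃ x ∈ L₁ r, x ∈ Λ) →
    crr L₁ (Seg w) ∩ crr L₂ (Seg s) ⊆ Λ →
    (∀ y ∈ H, rr y ∈ Seg w ∧ ∀ i ≤ n, c y i ∈ L₁ (rr y)) →
    (∀ a ∈ Lab, Disjoint (E a) (crr L₁ (Seg w))) →
    (∀ a ∈ Lab, Disjoint (E a) (crr L₂ (Seg s))) →
    (∀ a ∈ Lab, Disjoint (D a) (crr L₁ LR)) →
    (∀ a ∈ Lab, ∀ r ∈ Seg w, r ∉ LR → ρ a ≠ r →
      E a ⊆ M.closure (crr L₁ (Seg w) \ rowΛ L₁ Λ r)) →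
    (∀ a ∈ Lab, ∀ r ∈ Seg w, r ∉ LR → ρ a = r →
      rk M (E a ∪ (crr L₁ (Seg w) \ rowΛ L₁ Λ r)) ≤
        rk M (crr L₁ (Seg w) \ rowΛ L₁ Λ r) + q₀) →
    HasUniformMinor M k ∨
    ∃ B ⊆ Finset.Icc 1 n, B.card = n' ∧ ∃ Mv : Finset (Bool × ℕ × ℕ), Mv.card ≤ C * H.card ∧
      (∀ y ∈ H, rk M ((⋃ a ∈ {a | a ∈ Lab ∧ ρ a ∉ Mv}, E a) ∪
          (crr L₁ (Seg w) \ c y '' (B : Set ℕ))) ≤
        rk M (crr L₁ (Seg w) \ c y '' (B : Set ℕ)) + (k - 1)) ∧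
      rk M ((⋃ a ∈ {a | a ∈ Lab ∧ ρ a ∉ Mv}, E a) ∪ (crr L₁ (Seg w) \ ZH H c B)) ≤
        rk M (crr L₁ (Seg w) \ ZH H c B) + H.card * k := by
  classical
  obtain ⟨K, t₀, hK⟩ := EN.thmFpp.{u} k
  obtain ⟨m, hm⟩ : ∃ m, m = cW (K + 2 * QQ k + 1 + κ) := ⟨_, rfl⟩
  obtain ⟨t, ht⟩ : ∃ t, t = max t₀ (K + QQ k + k + (2 * m + 1) * (q₀ + 1)) := ⟨_, rfl⟩
  obtain ⟨y₀, hy₀⟩ := hK t (by rw [ht]; exact le_max_left _ _)
  obtain ⟨y₁, hy₁⟩ : ∃ y₁, y₁ = max y₀ (2 * m + 2) := ⟨_, rfl⟩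
  refine ⟨3 * k * (t * t + QQ k), ?_⟩
  intro ρh
  refine ⟨2 * (ρh + 1) * (m + 1), max (2 * (ρh + 1) * (m + 1)) ((κ + 1) * (2 * y₁ + 2)), ?_⟩
  intro h l R n'
  obtain ⟨n, hn⟩ := gam2.{u, v, w, 0} k hk t h l R n'
  refine ⟨n, ?_⟩
  intro α σ ι M _ w s L₁ L₂ f₁ f₂ e₁ e₂ Λ H c Lab E D rr ρ LR hw hs h₁ h₂ hhot hG hΛR hH hl
    hΛr hΛc hrr hE1 hE2 hD hown hown2
  rcases hn M (crr L₁ (Seg w)) Λ H c Lab E D ρ hG hΛR hH hl with
    hU | ⟨y, hy, A, hA, hρA, C₀, X, S', j, ed, hP⟩ | ⟨B, hB, hBc, Mv, hMv, hrk⟩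
  · exact Or.inl hU
  · left
    obtain ⟨D₂, Q, hD₂, hQ, hQD, hPG⟩ := h₂.pgrid (s := y₁) ((le_max_right _ _).trans hs)
    have hR₂E : crr L₂ (Seg s) ⊆ M.E := by
      have := h₂.sub_ground
      rwa [Matroid.dual_ground] at this
    have hQR : Q ⊆ crr L₂ (Seg s) := hQ.trans h₂.e_sub
    have hSE : crr L₁ (Seg w) ⊆ M.E := hG.subS
    have hUE1 : Disjoint (⋃ a ∈ A, E a) (crr L₂ (Seg s)) := by
      rw [Set.disjoint_left]
      intro x hx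
      obtain ⟨a, ha, h5⟩ := mem_iUnion₂.1 hx
      exact Set.disjoint_left.1 (hE2 a (hA ha)) h5
    have hUE2 : (⋃ a ∈ A, E a) ⊆ M.E := iUnion₂_subset fun a ha =>
      (hG.subE a (hA ha)).trans (M.closure_subset_ground _)
    have hCR : Disjoint (C₀ ∪ X) (crr L₂ (Seg s)) := by
      rw [Set.disjoint_union_left]
      refine ⟨?_, hUE1.mono_left hP.X_sub⟩
      rw [Set.disjoint_left]
      intro x hx hx'
      exact (hP.C₀_sub hx).2 (hΛc ⟨(hP.C₀_sub hx).1, hx'⟩)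
    have hQc : 2 * m + 1 < Q.ncard := by
      have hf1 : (M✶).Finite := inferInstance
      have hf2 : (M✶ ／ D₂).Finite := BQ.fin_contract D₂
      have h3 : 2 * m + 2 ≤ y₁ := by rw [hy₁]; exact le_max_right _ _
      have h4 := pgrid_ncard hPG (by omega)
      have h5 : y₁ ≤ y₁ * y₁ := Nat.le_mul_self _
      omega
    have htt : K + QQ k + k + (2 * m + 1) * (q₀ + 1) ≤ t * t := by
      have h3 : K + QQ k + k + (2 * m + 1) * (q₀ + 1) ≤ t := by rw [ht]; exact le_max_right _ _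
      exact h3.trans (Nat.le_mul_self _)
    have hKG : KGe (M ／ (C₀ ∪ X)) S' Q K := by
      refine Pic.kge (ρh := ρh) (q₀ := q₀) h₁ h₂ hhot hm hw ((le_max_left _ _).trans hs) htt
        (by omega) hP hG.subΛ hΛr hΛc ⟨rr y, (hrr y hy).1, (hrr y hy).2⟩
        (fun a ha => hG.subE a (hA ha)) (fun a ha => hE1 a (hA ha)) (fun a ha => hE2 a (hA ha))
        LR hD ρ hρA (fun a ha => hown a (hA ha)) (fun a ha => hown2 a (hA ha)) hQ hQc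
    have hP' := EN.pgrid_contract (hQR.trans hR₂E)
      (fun x hx => ⟨hR₂E (hD₂ hx), fun h => Set.disjoint_left.1 hQD h hx⟩)
      (hCR.mono_right (union_subset hQR hD₂)) hPG
    have hfin : (M ／ (C₀ ∪ X)).Finite := ⟨M.ground_finite.subset sdiff_subset⟩
    have h5 := hy₀ y₁ (by rw [hy₁]; exact le_max_left _ _) (M ／ (C₀ ∪ X)) S' Q D₂ j ed hP.grid
      (fun x hx => ⟨hR₂E (hQR hx), fun h => Set.disjoint_left.1 hCR h (hQR hx)⟩)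
      ((hUE1.mono_left hP.S_sub).mono_right hQR)
      (fun x hx => ⟨⟨hR₂E (hD₂ hx), fun h => Set.disjoint_left.1 hCR h (hD₂ hx)⟩,
        fun h => Set.disjoint_left.1 hQD h hx⟩) hP' hKG
    obtain ⟨N', g1, g2⟩ := h5
    exact ⟨N', g1.trans (by simpa using M.contract_delete_isMinor (C₀ ∪ X) ∅), g2⟩
  · refine Or.inr ⟨B, hB, hBc, Mv, ?_, hrk, ?_⟩
    · rw [mul_comm]
      exact hMv
    · have hIcc : ∀ i ∈ B, i ≤ n := fun i hi => (Finset.mem_Icc.1 (hB hi)).2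
      have h3 := sum_strands (M := M) hG.subS (F := ⋃ a ∈ {a | a ∈ Lab ∧ ρ a ∉ Mv}, E a)
        (iUnion₂_subset fun a ha => hG.subE a ha.1) H (fun y => c y '' (B : Set ℕ)) (by
          rintro y hy _ ⟨i, hi, rfl⟩
          exact (hG.memc y hy i (hIcc i hi)).1) (by
          intro y hy y' hy' hne
          rw [Set.disjoint_left]
          rintro _ ⟨i, hi, rfl⟩ ⟨i', hi', h⟩
          exact hne (hG.injc y' hy' y hy i' (hIcc i' hi') i (hIcc i hi) h).1.symm) (by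
          intro y hy
          refine cut_row h₁ (hrr y hy).1 ?_
          rintro _ ⟨i, hi, rfl⟩
          exact (hrr y hy).2 i (hIcc i hi)) (k - 1) hrk
      have h4 : k - 1 + 1 = k := by omega
      rw [h4] at h3
      exact h3

end Gam
end DA
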