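import Pool.Agent.DA.Rays

/-!
# A square with up to three straight legs
-/

open Set BIC BICS
open scoped Matroid

namespace DA

open Gad

/-- The straight path number `i` (`0` left, `1` right, `2` up) from `s`. -/
def xp (i : ℕ) (s : ℕ × ℕ) (j : ℕ) : ℕ × ℕ :=
  if i = 0 then (s.1 - j, s.2) else if i = 1 then (s.1 + j, s.2) else (s.1, s.2 + j)

/-- Its length up to the foot outside of the square. -/
def rp (q : ℕ × ℕ) (L i : ℕ) (s : ℕ × ℕ) : ℕ :=
  if i = 0 then s.1 - q.1 + 1 else if i = 1 then q.1 + L - s.1 else q.2 + L - s.2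

/-- The ray number `i` in the square. -/
def Ri (q : ℕ × ℕ) (L i : ℕ) (s : ℕ × ℕ) : Set (ℕ × ℕ) :=
  if i = 0 then R0 q s.1 s.2 else if i = 1 then R1 q L s.1 s.2 else R2 q L s.1 s.2

section

variable {q : ℕ × ℕ} {L i : ℕ} {s : ℕ × ℕ}

lemma xp_inj (hq : 1 ≤ q.1) (hs : Inn q L s.1 s.2) :
    InjOn (xp i s) (Iic (rp q L i s)) := by
  obtain ⟨h1, h2, h3, h4⟩ := hs
  intro j hj j' hj' h
  rw [mem_Iic] at hj hj'
  unfold xp at h
  unfold rp at hj hj'
  split_ifs at * <;> rw [Prod.mk.injEq] at h <;> omega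

lemma xp_adj (hq : 1 ≤ q.1) (hs : Inn q L s.1 s.2) {j : ℕ} (hj : j < rp q L i s) :
    Adj (xp i s j) (xp i s (j + 1)) := by
  obtain ⟨h1, h2, h3, h4⟩ := hs
  unfold rp at hj
  unfold xp Adj
  split_ifs at * <;> simp only [true_and] <;> omega

lemma xp_mem (hq : 1 ≤ q.1) (hs : Inn q L s.1 s.2) {j : ℕ} (hj : j < rp q L i s) :
    xp i s j ∈ Ri q L i s := by
  obtain ⟨h1, h2, h3, h4⟩ := hs
  unfold rp at hj
  unfold xp Ri R0 R1 R2
  split_ifs at * <;> rw [mem_ofPred_eq] <;> simp only [true_and] <;> omega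

lemma Ri_sub (hs : Inn q L s.1 s.2) : Ri q L i s ⊆ rect q.1 q.2 L L := by
  obtain ⟨h1, h2, h3, h4⟩ := hs
  intro v hv
  rw [Gad.mem_rct]
  unfold Ri R0 R1 R2 at hv
  split_ifs at hv <;> rw [mem_ofPred_eq] at hv <;> omega

lemma xp_im (hq : 1 ≤ q.1) (hs : Inn q L s.1 s.2) :
    xp i s '' Iio (rp q L i s) = Ri q L i s := by
  apply Subset.antisymm
  · rintro _ ⟨j, hj, rfl⟩
    exact xp_mem hq hs hj
  · obtain ⟨h1, h2, h3, h4⟩ := hs
    intro v hv
    unfold Ri R0 R1 R2 at hv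
    unfold xp rp
    by_cases hi : i = 0
    · simp only [if_pos hi] at hv ⊢
      rw [mem_ofPred_eq] at hv
      exact ⟨s.1 - v.1, by rw [mem_Iio]; omega, by ext <;> simp only <;> omega⟩
    · by_cases hi' : i = 1
      · simp only [if_neg hi, if_pos hi'] at hv ⊢
        rw [mem_ofPred_eq] at hv
        exact ⟨v.1 - s.1, by rw [mem_Iio]; omega, by ext <;> simp only <;> omega⟩
      · simp only [if_neg hi, if_neg hi'] at hv ⊢
        rw [mem_ofPred_eq] at hv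
        exact ⟨v.2 - s.2, by rw [mem_Iio]; omega, by ext <;> simp only <;> omega⟩

/-- The foot. -/
lemma xp_foot (hi : i < 3) (hq : 1 ≤ q.1) (hs : Inn q L s.1 s.2) :
    xp i s (rp q L i s) = (if i = 0 then (q.1 - 1, s.2) else
      if i = 1 then (q.1 + L, s.2) else (s.1, q.2 + L)) := by
  obtain ⟨h1, h2, h3, h4⟩ := hs
  unfold xp rp
  split_ifs <;> rw [Prod.mk.injEq] <;> omega

lemma xp_mem_Iic (hi : i < 3) (hq : 1 ≤ q.1) (hs : Inn q L s.1 s.2) {v : ℕ × ℕ}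
    (hv : v ∈ xp i s '' Iic (rp q L i s)) :
    (i = 0 ∧ v.2 = s.2 ∧ q.1 ≤ v.1 + 1 ∧ v.1 ≤ s.1) ∨
    (i = 1 ∧ v.2 = s.2 ∧ s.1 ≤ v.1 ∧ v.1 ≤ q.1 + L) ∨
    (i = 2 ∧ v.1 = s.1 ∧ s.2 ≤ v.2 ∧ v.2 ≤ q.2 + L) := by
  obtain ⟨h1, h2, h3, h4⟩ := hs
  obtain ⟨j, hj, rfl⟩ := hv
  rw [mem_Iic] at hj
  unfold rp at hj
  unfold xp
  split_ifs at * <;> simp only [true_and] <;> omega

end

/-- The configurations of `τ` rays. -/
structure Cfg (q : ℕ × ℕ) (L τ : ℕ) (s : ℕ → ℕ × ℕ) : Prop where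
  t3 : τ ≤ 3
  inn : ∀ i < τ, Inn q L (s i).1 (s i).2
  two : 2 ≤ τ → (s 0).1 ≤ (s 1).1 ∧ ((s 0).1 = (s 1).1 → (s 0).2 ≠ (s 1).2)
  three : τ = 3 → (s 0).1 < (s 1).1 ∧ (s 0).1 ≤ (s 2).1 ∧ (s 2).1 ≤ (s 1).1 ∧
    ((s 2).1 = (s 0).1 → (s 0).2 < (s 2).2) ∧ ((s 2).1 = (s 1).1 → (s 1).2 < (s 2).2)

lemma Cfg.disj {q : ℕ × ℕ} {L τ : ℕ} {s : ℕ → ℕ × ℕ} (hq : 1 ≤ q.1) (h : Cfg q L τ s) :
    ∀ i < τ, ∀ i' < τ, i ≠ i' → Disjoint (xp i (s i) '' Iic (rp q L i (s i)))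
      (xp i' (s i') '' Iic (rp q L i' (s i'))) := by
  have key : ∀ i < τ, ∀ i' < τ, i < i' → Disjoint (xp i (s i) '' Iic (rp q L i (s i)))
      (xp i' (s i') '' Iic (rp q L i' (s i'))) := by
    intro i hi i' hi' hlt
    rw [Set.disjoint_left]
    intro v hv hv'
    have h3 := h.t3
    have h4 := xp_mem_Iic (by omega) hq (h.inn i hi) hv
    have h5 := xp_mem_Iic (by omega) hq (h.inn i' hi') hv'
    have h6 := h.two (by omega)
    have hii : (i = 0 ∧ i' = 1) ∨ (i = 0 ∧ i' = 2 ∧ τ = 3) ∨ (i = 1 ∧ i' = 2 ∧ τ = 3) := by omega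
    rcases hii with ⟨rfl, rfl⟩ | ⟨rfl, rfl, ht⟩ | ⟨rfl, rfl, ht⟩
    · omega
    · have h7 := h.three ht
      omega
    · have h7 := h.three ht
      omega
  intro i hi i' hi' hne
  rcases Nat.lt_or_gt_of_ne hne with h1 | h1
  · exact key i hi i' hi' h1
  · exact (key i' hi' i hi h1).symm

lemma iUnion_lt {τ : ℕ} {f : ℕ → Set (ℕ × ℕ)} (hτ : τ ≤ 3) :
    (τ = 0 ∧ ⋃ i ∈ Finset.range τ, f i = ∅) ∨ (τ = 1 ∧ ⋃ i ∈ Finset.range τ, f i = f 0) ∨
    (τ = 2 ∧ ⋃ i ∈ Finset.range τ, f i = f 0 ∪ f 1) ∨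
    (τ = 3 ∧ ⋃ i ∈ Finset.range τ, f i = f 0 ∪ f 1 ∪ f 2) := by
  have : τ = 0 ∨ τ = 1 ∨ τ = 2 ∨ τ = 3 := by omega
  rcases this with rfl | rfl | rfl | rfl
  · left; simp
  · right; left; simp
  · right; right; left
    refine ⟨rfl, ?_⟩
    ext v
    simp only [mem_iUnion, Finset.mem_range, exists_prop, mem_union]
    constructor
    · rintro ⟨i, hi, hv⟩
      have : i = 0 ∨ i = 1 := by omega
      rcases this with rfl | rfl
      · exact Or.inl hv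
      · exact Or.inr hv
    · rintro (hv | hv)
      · exact ⟨0, by omega, hv⟩
      · exact ⟨1, by omega, hv⟩
  · right; right; right
    refine ⟨rfl, ?_⟩
    ext v
    simp only [mem_iUnion, Finset.mem_range, exists_prop, mem_union]
    constructor
    · rintro ⟨i, hi, hv⟩
      have : i = 0 ∨ i = 1 ∨ i = 2 := by omega
      rcases this with rfl | rfl | rfl
      · exact Or.inl (Or.inl hv)
      · exact Or.inl (Or.inr hv)
      · exact Or.inr hv
    · rintro ((hv | hv) | hv)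
      · exact ⟨0, by omega, hv⟩
      · exact ⟨1, by omega, hv⟩
      · exact ⟨2, by omega, hv⟩

section

variable {α : Type*} {S : Set α} {ends : α → Sym2 (ℕ × ℕ)}

/-- **A square with `τ` straight legs.** -/
theorem geo [Nonempty α] {R : Set (ℕ × ℕ)} (hP : Pres S ends R) {q : ℕ × ℕ} {L τ : ℕ}
    (hq : 1 ≤ q.1) (hL : 2 ≤ L) (hR : rect (q.1 - 1) q.2 (L + 2) (L + 1) ⊆ R) {s : ℕ → ℕ × ℕ}
    (h : Cfg q L τ s) :
    ∃ F, Elim S ends (rect q.1 q.2 L L) F ∧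
      (∀ e ∈ F, ∀ v ∈ ends e, v ∈ rect q.1 q.2 L L ∪
        {w | ∃ i < τ, xp i (s i) (rp q L i (s i)) = w}) ∧
      ∀ i < τ, Leg S ends (rect q.1 q.2 L L) F (rp q L i (s i)) (xp i (s i)) := by
  classical
  have hft : ∀ i < τ, xp i (s i) (rp q L i (s i)) ∉ rect q.1 q.2 L L := by
    intro i hi
    have h3 := h.t3
    obtain ⟨g1, g2, g3, g4⟩ := h.inn i hi
    rw [xp_foot (by omega) hq (h.inn i hi), Gad.mem_rct]
    split_ifs <;> simp only <;> omega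
  have hftR : ∀ i < τ, xp i (s i) (rp q L i (s i)) ∈ R := by
    intro i hi
    have h3 := h.t3
    obtain ⟨g1, g2, g3, g4⟩ := h.inn i hi
    refine hR ?_
    rw [xp_foot (by omega) hq (h.inn i hi), Gad.mem_rct]
    split_ifs <;> simp only <;> omega
  have hsqR : rect q.1 q.2 L L ⊆ R := by
    refine subset_trans ?_ hR
    intro v hv
    rw [Gad.mem_rct] at hv ⊢
    omega
  have hin : ∀ i < τ, ∀ j < rp q L i (s i), xp i (s i) j ∈ rect q.1 q.2 L L := fun i hi j hj =>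
    Ri_sub (h.inn i hi) (xp_mem hq (h.inn i hi) hj)
  have hch : ∀ i j, ∃ e : α, i < τ → j < rp q L i (s i) →
      e ∈ S ∧ ends e = s(xp i (s i) j, xp i (s i) (j + 1)) := by
    intro i j
    by_cases hi : i < τ ∧ j < rp q L i (s i)
    · obtain ⟨hi, hj⟩ := hi
      have h1 : xp i (s i) (j + 1) ∈ R := by
        by_cases hj' : j + 1 < rp q L i (s i)
        · exact hsqR (hin i hi _ hj')
        · have : j + 1 = rp q L i (s i) := by omega
          rw [this]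
          exact hftR i hi
      obtain ⟨e, h2, h3⟩ := hP _ _ (xp_adj hq (h.inn i hi) hj) (hsqR (hin i hi j hj)) h1
      exact ⟨e, fun _ _ => ⟨h2, h3⟩⟩
    · exact ⟨Classical.arbitrary α, fun h1 h2 => absurd ⟨h1, h2⟩ hi⟩
  choose e he using hch
  have hW : ∃ FW, FullB S ends (rect q.1 q.2 L L \
      ⋃ i ∈ Finset.range τ, xp i (s i) '' Iio (rp q L i (s i))) FW := by
    have e1 : (⋃ i ∈ Finset.range τ, xp i (s i) '' Iio (rp q L i (s i))) =
        ⋃ i ∈ Finset.range τ, Ri q L i (s i) := by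
      refine iUnion₂_congr fun i hi => ?_
      exact xp_im hq (h.inn i (Finset.mem_range.1 hi))
    rw [e1]
    refine full_of_fat hP _ _ ((rect_finite _ _ _ _).subset sdiff_subset) rfl
      (sdiff_subset.trans hsqR) ?_
    rcases iUnion_lt (f := fun i => Ri q L i (s i)) h.t3 with ⟨ht, h1⟩ | ⟨ht, h1⟩ | ⟨ht, h1⟩ |
      ⟨ht, h1⟩
    · rw [h1, sdiff_empty]
      exact fat0 hL
    · rw [h1]
      exact fat1 (h.inn 0 (by omega))
    · rw [h1]
      have h2 := h.two (by omega)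
      exact fat2 (h.inn 0 (by omega)) (h.inn 1 (by omega)) h2.1 h2.2
    · rw [h1]
      have h2 := h.three ht
      exact fat3 (h.inn 0 (by omega)) (h.inn 1 (by omega)) (h.inn 2 (by omega)) h2.1 h2.2.1
        h2.2.2.1
  obtain ⟨FW, hFW⟩ := hW
  obtain ⟨F, h1, h2, h3⟩ := hole_legs (S := S) (ends := ends) (Finset.range τ)
    (U := rect q.1 q.2 L L) (fun i => xp i (s i)) (fun i => rp q L i (s i)) e
    (fun i hi j hj => he i j (Finset.mem_range.1 hi) hj)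
    (fun i hi => xp_inj hq (h.inn i (Finset.mem_range.1 hi)))
    (fun i hi j hj => hin i (Finset.mem_range.1 hi) j hj)
    (fun i hi => hft i (Finset.mem_range.1 hi))
    (fun i hi i' hi' hne => h.disj hq i (Finset.mem_range.1 hi) i' (Finset.mem_range.1 hi') hne)
    hFW
  refine ⟨F, h1, ?_, fun i hi => h3 i (Finset.mem_range.2 hi)⟩
  intro a ha v hv
  rcases h2 a ha v hv with h4 | ⟨i, hi, h4⟩
  · exact Or.inl h4
  · exact Or.inr ⟨i, Finset.mem_range.1 hi, h4⟩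

end

end DA
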