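import Pool.Agent.DA.FatG

/-!
# A square with up to three straight legs, next to missing vertices
-/

open Set BIC BICS
open scoped Matroid

namespace DA

open Gad

/-- The configurations of `τ` disjoint rays. -/
structure CfgG (q : ℕ × ℕ) (L τ : ℕ) (s : ℕ → ℕ × ℕ) : Prop where
  t3 : τ ≤ 3
  inn : ∀ i < τ, Inn q L (s i).1 (s i).2
  d01 : 2 ≤ τ → (s 0).2 = (s 1).2 → (s 0).1 < (s 1).1
  d02 : τ = 3 → (s 2).1 ≤ (s 0).1 → (s 0).2 < (s 2).2
  d12 : τ = 3 → (s 1).1 ≤ (s 2).1 → (s 1).2 < (s 2).2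

lemma CfgG.disj {q : ℕ × ℕ} {L τ : ℕ} {s : ℕ → ℕ × ℕ} (hq : 1 ≤ q.1) (h : CfgG q L τ s) :
    ∀ i < τ, ∀ i' < τ, i ≠ i' → Disjoint (xp i (s i) '' Iic (rp q L i (s i)))
      (xp i' (s i') '' Iic (rp q L i' (s i'))) := by
  have key : ∀ i < τ, ∀ i' < τ, i < i' → Disjoint (xp i (s i) '' Iic (rp q L i (s i)))
      (xp i' (s i') '' Iic (rp q L i' (s i'))) := by
    intro i hi i' hi' hlt
    rw [Set.disjoint_left]
    intro v hv hv'
    have h3 := h.t3
    have h4 := xp_mem_Iic (by omega) hq (h.inn i hi) hv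
    have h5 := xp_mem_Iic (by omega) hq (h.inn i' hi') hv'
    have h6 := h.d01 (by omega)
    have hii : (i = 0 ∧ i' = 1) ∨ (i = 0 ∧ i' = 2 ∧ τ = 3) ∨ (i = 1 ∧ i' = 2 ∧ τ = 3) := by omega
    rcases hii with ⟨rfl, rfl⟩ | ⟨rfl, rfl, ht⟩ | ⟨rfl, rfl, ht⟩
    · omega
    · have h7 := h.d02 ht
      omega
    · have h7 := h.d12 ht
      omega
  intro i hi i' hi' hne
  rcases Nat.lt_or_gt_of_ne hne with h1 | h1
  · exact key i hi i' hi' h1
  · exact (key i' hi' i hi h1).symm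

lemma CfgG.of_cfg {q : ℕ × ℕ} {L τ : ℕ} {s : ℕ → ℕ × ℕ} (h : Cfg q L τ s) : CfgG q L τ s := by
  refine ⟨h.t3, h.inn, ?_, ?_, ?_⟩
  · intro h2 h3
    have h4 := h.two h2
    omega
  · intro h2 h3
    have h4 := h.three h2
    omega
  · intro h2 h3
    have h4 := h.three h2
    omega

section

variable {α : Type*} {S : Set α} {ends : α → Sym2 (ℕ × ℕ)}

/-- **A square with `τ` straight legs and missing vertices.** -/
theorem geoK [Nonempty α] {R K : Set (ℕ × ℕ)} (hP : Pres S ends R) {q : ℕ × ℕ} {L τ : ℕ}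
    (hq : 1 ≤ q.1) (hL : 2 ≤ L)
    (hR : ∀ v ∈ rect (q.1 - 1) q.2 (L + 2) (L + 1), v ∉ K → v ∈ R) {s : ℕ → ℕ × ℕ}
    (h : CfgG q L τ s) (hK1 : ∀ v ∈ K, v ∈ rect q.1 q.2 L L → ∃ i < τ, s i = v)
    (hK2 : ∀ i < τ, ∀ v ∈ K, v ∈ xp i (s i) '' Iic (rp q L i (s i)) → v = s i)
    (o : ℕ → ℕ) (ho : ∀ i < τ, (s i ∈ K → o i = 1) ∧ (s i ∉ K → o i = 0)) :
    ∃ F, Elim S ends (rect q.1 q.2 L L \ K) F ∧
      (∀ e ∈ F, ∀ v ∈ ends e, v ∈ (rect q.1 q.2 L L \ K) ∪
        {w | ∃ i < τ, xp i (s i) (rp q L i (s i)) = w}) ∧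
      ∀ i < τ, Leg S ends (rect q.1 q.2 L L \ K) F (rp q L i (s i) - o i)
        (fun j => xp i (s i) (j + o i)) := by
  classical
  have ho1 : ∀ i < τ, o i ≤ 1 := by
    intro i hi
    by_cases h1 : s i ∈ K
    · rw [(ho i hi).1 h1]
    · rw [(ho i hi).2 h1]
      omega
  have hrp : ∀ i < τ, 3 ≤ rp q L i (s i) := by
    intro i hi
    obtain ⟨g1, g2, g3, g4⟩ := h.inn i hi
    unfold rp
    split_ifs <;> omega
  have hft : ∀ i < τ, xp i (s i) (rp q L i (s i)) ∉ rect q.1 q.2 L L := by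
    intro i hi
    have h3 := h.t3
    obtain ⟨g1, g2, g3, g4⟩ := h.inn i hi
    rw [xp_foot (by omega) hq (h.inn i hi), Gad.mem_rct]
    split_ifs <;> simp only <;> omega
  have hinj0 : ∀ i < τ, InjOn (xp i (s i)) (Iic (rp q L i (s i))) := fun i hi =>
    xp_inj hq (h.inn i hi)
  have hxK : ∀ i < τ, ∀ j, o i ≤ j → j ≤ rp q L i (s i) → xp i (s i) j ∉ K := by
    intro i hi j hj1 hj2 hcon
    have h1 := hK2 i hi _ hcon ⟨j, hj2, rfl⟩
    have e0 : xp i (s i) 0 = s i := by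
      unfold xp
      split_ifs <;> simp
    have h2 := hinj0 i hi (show j ∈ Iic _ from hj2) (show (0 : ℕ) ∈ Iic _ from Nat.zero_le _)
      (h1.trans e0.symm)
    subst h2
    rw [e0] at hcon
    have := (ho i hi).1 hcon
    omega
  have hin : ∀ i < τ, ∀ j < rp q L i (s i), xp i (s i) j ∈ rect q.1 q.2 L L := fun i hi j hj =>
    Ri_sub (h.inn i hi) (xp_mem hq (h.inn i hi) hj)
  have hxR : ∀ i < τ, ∀ j, o i ≤ j → j ≤ rp q L i (s i) → xp i (s i) j ∈ R := by
    intro i hi j hj1 hj2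
    refine hR _ ?_ (hxK i hi j hj1 hj2)
    by_cases hj' : j < rp q L i (s i)
    · have h1 := hin i hi j hj'
      rw [Gad.mem_rct] at h1 ⊢
      omega
    · have : j = rp q L i (s i) := by omega
      rw [this]
      have h3 := h.t3
      obtain ⟨g1, g2, g3, g4⟩ := h.inn i hi
      rw [xp_foot (by omega) hq (h.inn i hi), Gad.mem_rct]
      split_ifs <;> simp only <;> omega
  have hch : ∀ i j, ∃ e : α, i < τ → j < rp q L i (s i) - o i →
      e ∈ S ∧ ends e = s(xp i (s i) (j + o i), xp i (s i) (j + 1 + o i)) := by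
    intro i j
    by_cases hi : i < τ ∧ j < rp q L i (s i) - o i
    · obtain ⟨hi, hj⟩ := hi
      have h1 := hxR i hi (j + o i) (by omega) (by omega)
      have h2 := hxR i hi (j + 1 + o i) (by omega) (by omega)
      have h3 : Adj (xp i (s i) (j + o i)) (xp i (s i) (j + 1 + o i)) := by
        have := xp_adj (i := i) hq (h.inn i hi) (j := j + o i) (by omega)
        rwa [show j + o i + 1 = j + 1 + o i by omega] at this
      obtain ⟨e, h4, h5⟩ := hP _ _ h3 h1 h2
      exact ⟨e, fun _ _ => ⟨h4, h5⟩⟩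
    · exact ⟨Classical.arbitrary α, fun h1 h2 => absurd ⟨h1, h2⟩ hi⟩
  choose e he using hch
  have himg : ∀ i < τ, (fun j => xp i (s i) (j + o i)) '' Iic (rp q L i (s i) - o i) ⊆
      xp i (s i) '' Iic (rp q L i (s i)) := by
    rintro i hi _ ⟨j, hj, rfl⟩
    rw [mem_Iic] at hj
    have := hrp i hi
    have := ho1 i hi
    exact ⟨j + o i, by rw [mem_Iic]; omega, rfl⟩
  have hRi : ∀ i < τ, ∀ v, v ∉ K → (v ∈ Ri q L i (s i) ↔
      v ∈ (fun j => xp i (s i) (j + o i)) '' Iio (rp q L i (s i) - o i)) := by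
    intro i hi v hvK
    rw [← xp_im hq (h.inn i hi)]
    constructor
    · rintro ⟨j, hj, rfl⟩
      rw [mem_Iio] at hj
      have hjo : o i ≤ j := by
        by_contra hcon
        have h1 := ho1 i hi
        have hj0 : j = 0 := by omega
        subst hj0
        have e0 : xp i (s i) 0 = s i := by
          unfold xp
          split_ifs <;> simp
        rw [e0] at hvK
        have := (ho i hi).2 hvK
        omega
      exact ⟨j - o i, by rw [mem_Iio]; omega, by simp only; rw [Nat.sub_add_cancel hjo]⟩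
    · rintro ⟨j, hj, rfl⟩
      rw [mem_Iio] at hj
      exact ⟨j + o i, by rw [mem_Iio]; omega, rfl⟩
  have hW : ∃ FW, FullB S ends ((rect q.1 q.2 L L \ K) \
      ⋃ i ∈ Finset.range τ, (fun j => xp i (s i) (j + o i)) '' Iio (rp q L i (s i) - o i)) FW := by
    have e1 : (rect q.1 q.2 L L \ K) \
        ⋃ i ∈ Finset.range τ, (fun j => xp i (s i) (j + o i)) '' Iio (rp q L i (s i) - o i) =
        rect q.1 q.2 L L \ ⋃ i ∈ Finset.range τ, Ri q L i (s i) := by
      ext v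
      simp only [mem_sdiff, mem_iUnion, Finset.mem_range, exists_prop, not_exists, not_and]
      constructor
      · rintro ⟨⟨h1, h2⟩, h3⟩
        refine ⟨h1, fun i hi hcon => h3 i hi ?_⟩
        exact (hRi i hi v h2).1 hcon
      · rintro ⟨h1, h2⟩
        have h3 : v ∉ K := by
          intro hcon
          obtain ⟨i, hi, h4⟩ := hK1 v hcon h1
          apply h2 i hi
          rw [← xp_im hq (h.inn i hi), ← h4]
          refine ⟨0, by rw [mem_Iio]; have := hrp i hi; omega, ?_⟩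
          unfold xp
          split_ifs <;> simp
        exact ⟨⟨h1, h3⟩, fun i hi hcon => h2 i hi ((hRi i hi v h3).2 hcon)⟩
    rw [e1]
    have hsub : rect q.1 q.2 L L \ ⋃ i ∈ Finset.range τ, Ri q L i (s i) ⊆ R := by
      rw [← e1]
      rintro v ⟨⟨h1, h2⟩, _⟩
      refine hR v ?_ h2
      rw [Gad.mem_rct] at h1 ⊢
      omega
    refine full_of_fat hP _ _ ((rect_finite _ _ _ _).subset sdiff_subset) rfl hsub ?_
    rcases iUnion_lt (f := fun i => Ri q L i (s i)) h.t3 with ⟨ht, h1⟩ | ⟨ht, h1⟩ | ⟨ht, h1⟩ |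
      ⟨ht, h1⟩
    · rw [h1, sdiff_empty]
      exact fat0 hL
    · rw [h1]
      exact fat1 (h.inn 0 (by omega))
    · rw [h1]
      exact fat2g (h.inn 0 (by omega)) (h.inn 1 (by omega)) (h.d01 (by omega))
    · rw [h1]
      exact fat3g (h.inn 0 (by omega)) (h.inn 1 (by omega)) (h.inn 2 (by omega))
        (h.d01 (by omega)) (h.d02 ht) (h.d12 ht)
  obtain ⟨FW, hFW⟩ := hW
  obtain ⟨F, h1, h2, h3⟩ := hole_legs (S := S) (ends := ends) (Finset.range τ)
    (U := rect q.1 q.2 L L \ K) (fun i j => xp i (s i) (j + o i))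
    (fun i => rp q L i (s i) - o i) e
    (fun i hi j hj => he i j (Finset.mem_range.1 hi) hj)
    (fun i hi => by
      have hi' := Finset.mem_range.1 hi
      intro j hj j' hj' hjj
      rw [mem_Iic] at hj hj'
      have h5 := hrp i hi'
      have h6 := ho1 i hi'
      have h4 := hinj0 i hi' (show j + o i ∈ Iic _ by rw [mem_Iic]; omega)
        (show j' + o i ∈ Iic _ by rw [mem_Iic]; omega) hjj
      omega)
    (fun i hi j hj => by
      have hi' := Finset.mem_range.1 hi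
      exact ⟨hin i hi' _ (by omega), hxK i hi' _ (by omega) (by omega)⟩)
    (fun i hi => by
      have hi' := Finset.mem_range.1 hi
      have h5 := hrp i hi'
      have h6 := ho1 i hi'
      rw [Nat.sub_add_cancel (by omega)]
      exact fun hcon => hft i hi' hcon.1)
    (fun i hi i' hi' hne => (h.disj hq i (Finset.mem_range.1 hi) i' (Finset.mem_range.1 hi')
      hne).mono (himg i (Finset.mem_range.1 hi)) (himg i' (Finset.mem_range.1 hi')))
    hFW
  refine ⟨F, h1, ?_, fun i hi => h3 i (Finset.mem_range.2 hi)⟩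
  intro a ha v hv
  rcases h2 a ha v hv with h4 | ⟨i, hi, h4⟩
  · exact Or.inl h4
  · have hi' := Finset.mem_range.1 hi
    have h5 := hrp i hi'
    have h6 := ho1 i hi'
    rw [Nat.sub_add_cancel (by omega)] at h4
    exact Or.inr ⟨i, hi', h4⟩

end

end DA
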