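import Pool.Agent.DA.GDefs
import Pool.Agent.GL.RamseyP

/-!
# A free scale for finitely many point sets
-/

namespace DA

open Finset

/-- The distance of two vertices. -/
def sd (p q : ℕ × ℕ) : ℕ := max (p.1 - q.1 + (q.1 - p.1)) (p.2 - q.2 + (q.2 - p.2))

lemma apart_iff {δ : ℕ} {p q : ℕ × ℕ} : Apart δ p q ↔ δ ≤ sd p q := by
  unfold Apart sd
  omega

lemma sd_le {p q : ℕ × ℕ} {s : ℕ} : sd p q ≤ s ↔ p.1 ≤ q.1 + s ∧ q.1 ≤ p.1 + s ∧
    p.2 ≤ q.2 + s ∧ q.2 ≤ p.2 + s := by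
  unfold sd
  omega

lemma sd_self {p : ℕ × ℕ} : sd p p = 0 := by
  unfold sd
  omega

lemma sd_comm {p q : ℕ × ℕ} : sd p q = sd q p := by
  unfold sd
  rw [add_comm (p.1 - q.1), add_comm (p.2 - q.2)]

lemma sd_tri {p q r : ℕ × ℕ} : sd p r ≤ sd p q + sd q r := by
  have h1 := sd_le.1 (le_refl (sd p q))
  have h2 := sd_le.1 (le_refl (sd q r))
  refine sd_le.2 ?_
  omega

/-- A value avoided by a finite set of numbers, with a gap. -/
lemma zone (T : Finset ℕ) (D₀ gap : ℕ) (hgap : 1 ≤ gap) : ∃ w₀, D₀ ≤ w₀ ∧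
    w₀ ≤ D₀ + T.card * gap ∧ ∀ c ∈ T, ¬ (w₀ ≤ c ∧ c < w₀ + gap) := by
  classical
  obtain ⟨i, hi, hiT⟩ : ∃ i ∈ Finset.range (T.card + 1),
      i ∉ T.image (fun c => (c - D₀) / gap) := by
    by_contra hcon
    push Not at hcon
    have h1 : Finset.range (T.card + 1) ⊆ T.image (fun c => (c - D₀) / gap) := hcon
    have h2 := (Finset.card_le_card h1).trans Finset.card_image_le
    rw [Finset.card_range] at h2
    omega
  rw [Finset.mem_range] at hi
  refine ⟨D₀ + i * gap, by omega, ?_, ?_⟩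
  · have : i * gap ≤ T.card * gap := Nat.mul_le_mul_right _ (by omega)
    omega
  · rintro c hc ⟨h1, h2⟩
    apply hiT
    refine Finset.mem_image.2 ⟨c, hc, ?_⟩
    have h3 : i * gap ≤ c - D₀ := by omega
    have h4 : c - D₀ < (i + 1) * gap := by
      rw [add_mul, one_mul]
      omega
    have h5 := (Nat.le_div_iff_mul_le hgap).2 h3
    have h6 := (Nat.div_lt_iff_lt_mul hgap).2 h4
    omega

/-- Representatives of the classes at a free scale. -/
lemma classes (N : Finset (ℕ × ℕ)) (s s' : ℕ) (hs : 2 * s ≤ s')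
    (hgap : ∀ p ∈ N, ∀ q ∈ N, sd p q ≤ s ∨ s' < sd p q) :
    ∃ rep : ℕ × ℕ → ℕ × ℕ, (∀ p ∈ N, rep p ∈ N ∧ sd p (rep p) ≤ s) ∧
      (∀ p ∈ N, ∀ q ∈ N, sd p q ≤ s' → rep p = rep q) ∧
      ∀ p ∈ N, ∀ q ∈ N, rep p ≠ rep q → s' < sd (rep p) (rep q) := by
  classical
  set cls : ℕ × ℕ → Finset (ℕ × ℕ) := fun p => N.filter (fun q => sd p q ≤ s) with hcls
  set R : Finset (ℕ × ℕ) → ℕ × ℕ := fun T => if h : T.Nonempty then h.choose else (0, 0) with hR
  have hRm : ∀ T : Finset (ℕ × ℕ), T.Nonempty → R T ∈ T := by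
    intro T hT
    simp only [hR, dif_pos hT]
    exact hT.choose_spec
  have hself : ∀ p ∈ N, p ∈ cls p := by
    intro p hp
    refine Finset.mem_filter.2 ⟨hp, ?_⟩
    rw [sd_self]
    exact Nat.zero_le _
  have hrep : ∀ p ∈ N, R (cls p) ∈ N ∧ sd p (R (cls p)) ≤ s := fun p hp =>
    Finset.mem_filter.1 (hRm _ ⟨p, hself p hp⟩)
  have hsub : ∀ p ∈ N, ∀ q ∈ N, sd p q ≤ s → cls p ⊆ cls q := by
    intro p hp q hq hpq r hr
    obtain ⟨h1, h2⟩ := Finset.mem_filter.1 hr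
    refine Finset.mem_filter.2 ⟨h1, ?_⟩
    have h3 := sd_tri (p := q) (q := p) (r := r)
    rw [sd_comm (p := q) (q := p)] at h3
    have h4 := hgap q hq r h1
    omega
  have heq : ∀ p ∈ N, ∀ q ∈ N, sd p q ≤ s' → cls p = cls q := by
    intro p hp q hq hpq
    have h1 : sd p q ≤ s := (hgap p hp q hq).resolve_right (by omega)
    exact Finset.Subset.antisymm (hsub p hp q hq h1) (hsub q hq p hp (by rw [sd_comm]; exact h1))
  refine ⟨fun p => R (cls p), hrep, ?_, ?_⟩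
  · intro p hp q hq hpq
    simp only
    rw [heq p hp q hq hpq]
  · intro p hp q hq hne
    simp only at hne ⊢
    by_contra hcon
    push Not at hcon
    apply hne
    have h1 := hrep p hp
    have h2 := hrep q hq
    rw [heq p hp _ h1.1 (by omega), heq q hq _ h2.1 (by omega), heq _ h1.1 _ h2.1 hcon]

/-- **A free scale.** -/
theorem scales (β h : ℕ) (G : ℕ → ℕ) : ∃ (J : ℕ) (sc : ℕ → ℕ), Monotone sc ∧
    (∀ j, 2 * sc j ≤ sc (j + 1) ∧ G (sc j) ≤ sc (j + 1)) ∧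
    ∀ Nm, 2 ≤ Nm → ∃ m : ℕ, ∀ (N : ℕ → Finset (ℕ × ℕ)) (M : Finset (ℕ × ℕ)),
      (∀ t, t < m → (N t).card ≤ β) → M.card ≤ h → ∃ j < J, ∃ f : ℕ → ℕ,
        (∀ i < Nm, f i < m) ∧ (∀ i i', i < i' → i' < Nm → f i < f i') ∧
        ∀ p q, (p ∈ M ∨ ∃ i < Nm, p ∈ N (f i)) → (q ∈ M ∨ ∃ i < Nm, q ∈ N (f i)) →
          sd p q ≤ sc j ∨ sc (j + 1) < sd p q := by
  classical
  set J := (2 * β + h) * (2 * β + h) + 1 with hJ
  obtain ⟨sc, hsc0, hscS⟩ : ∃ sc : ℕ → ℕ, sc 0 = 0 ∧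
      ∀ j, sc (j + 1) = 2 * sc j + G (sc j) + 1 :=
    ⟨fun j => Nat.rec 0 (fun _ x => 2 * x + G x + 1) j, rfl, fun _ => rfl⟩
  have hmono : Monotone sc := monotone_nat_of_le_succ fun j => by rw [hscS]; omega
  refine ⟨J, sc, hmono, fun j => by rw [hscS]; omega, ?_⟩
  intro Nm hNm
  obtain ⟨m, hm⟩ := RamP.ramsey_pairs (Finset (Fin J)) Nm
  refine ⟨m, ?_⟩
  intro N M hN hM
  -- the index of a distance
  have hidx : ∀ d : ℕ, ∃ i : ℕ, ∀ j, sc j < d → d ≤ sc (j + 1) → i = j := by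
    intro d
    by_cases hd : ∃ j, sc j < d ∧ d ≤ sc (j + 1)
    · obtain ⟨j, h1, h2⟩ := hd
      refine ⟨j, fun j' h3 h4 => ?_⟩
      by_contra hne
      rcases Nat.lt_or_gt_of_ne hne with h5 | h5
      · have := hmono (show j + 1 ≤ j' by omega)
        omega
      · have := hmono (show j' + 1 ≤ j by omega)
        omega
    · exact ⟨0, fun j h1 h2 => absurd ⟨j, h1, h2⟩ hd⟩
  choose idx hidx using hidx
  set U : ℕ → ℕ → Finset (ℕ × ℕ) := fun t t' => N t ∪ N t' ∪ M with hU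
  set I : ℕ → ℕ → Finset ℕ := fun t t' => (U t t' ×ˢ U t t').image (fun pq => idx (sd pq.1 pq.2))
    with hI
  set col : ℕ → ℕ → Finset (Fin J) := fun t t' => Finset.univ.filter (fun j => (j : ℕ) ∈ I t t')
    with hcol
  obtain ⟨f, c, hf1, hf2, hf3⟩ := hm col
  have hcard : ∀ t t', t < m → t' < m → (I t t').card < J := by
    intro t t' ht ht'
    have h1 : (U t t').card ≤ 2 * β + h := by
      have h2 := Finset.card_union_le (N t ∪ N t') M
      have h3 := Finset.card_union_le (N t) (N t')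
      have h4 := hN t ht
      have h5 := hN t' ht'
      change (N t ∪ N t' ∪ M).card ≤ 2 * β + h
      omega
    have h2 : (I t t').card ≤ (U t t').card * (U t t').card := by
      refine Finset.card_image_le.trans ?_
      rw [Finset.card_product]
    have h3 := Nat.mul_le_mul h1 h1
    omega
  obtain ⟨j, hj, hjI⟩ : ∃ j < J, j ∉ I (f 0) (f 1) := by
    by_contra hcon
    push Not at hcon
    have h1 : Finset.range J ⊆ I (f 0) (f 1) := fun j hj => hcon j (Finset.mem_range.1 hj)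
    have h2 := Finset.card_le_card h1
    rw [Finset.card_range] at h2
    have h3 := hcard _ _ (hf1 0 (by omega)) (hf1 1 (by omega))
    omega
  have hjc : ∀ i i', i < i' → i' < Nm → j ∉ I (f i) (f i') := by
    intro i i' h1 h2 hcon
    apply hjI
    have h3 : (⟨j, hj⟩ : Fin J) ∈ col (f i) (f i') := Finset.mem_filter.2 ⟨Finset.mem_univ _, hcon⟩
    rw [hf3 i i' h1 h2, ← hf3 0 1 (by omega) (by omega)] at h3
    exact (Finset.mem_filter.1 h3).2
  refine ⟨j, hj, f, hf1, hf2, ?_⟩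
  -- two points of one pair
  have hpair : ∀ i i', i < i' → i' < Nm → ∀ p ∈ U (f i) (f i'), ∀ q ∈ U (f i) (f i'),
      sd p q ≤ sc j ∨ sc (j + 1) < sd p q := by
    intro i i' h1 h2 p hp q hq
    by_contra hcon
    push Not at hcon
    apply hjc i i' h1 h2
    refine Finset.mem_image.2 ⟨(p, q), Finset.mem_product.2 ⟨hp, hq⟩, ?_⟩
    exact hidx _ j hcon.1 hcon.2
  intro p q hp hq
  obtain ⟨i, i', h1, h2, h3, h4⟩ : ∃ i i', i < i' ∧ i' < Nm ∧ p ∈ U (f i) (f i') ∧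
      q ∈ U (f i) (f i') := by
    have hM' : ∀ v ∈ M, ∀ t t', v ∈ U t t' := fun v hv t t' => by
      simp only [hU, Finset.mem_union]
      exact Or.inr hv
    have hN1 : ∀ t t', ∀ v ∈ N t, v ∈ U t t' := fun t t' v hv => by
      simp only [hU, Finset.mem_union]
      exact Or.inl (Or.inl hv)
    have hN2 : ∀ t t', ∀ v ∈ N t', v ∈ U t t' := fun t t' v hv => by
      simp only [hU, Finset.mem_union]
      exact Or.inl (Or.inr hv)
    have hone : ∀ i < Nm, ∃ a b, a < b ∧ b < Nm ∧ (i = a ∨ i = b) := by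
      intro i hi
      rcases Nat.eq_zero_or_pos i with rfl | h0
      · exact ⟨0, 1, by omega, by omega, Or.inl rfl⟩
      · exact ⟨0, i, h0, hi, Or.inr rfl⟩
    rcases hp with hp | ⟨a, ha, hp⟩
    · rcases hq with hq | ⟨b, hb, hq⟩
      · exact ⟨0, 1, by omega, by omega, hM' _ hp _ _, hM' _ hq _ _⟩
      · obtain ⟨c, d, h5, h6, h7⟩ := hone b hb
        refine ⟨c, d, h5, h6, hM' _ hp _ _, ?_⟩
        rcases h7 with rfl | rfl
        · exact hN1 _ _ _ hq
        · exact hN2 _ _ _ hq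
    · rcases hq with hq | ⟨b, hb, hq⟩
      · obtain ⟨c, d, h5, h6, h7⟩ := hone a ha
        refine ⟨c, d, h5, h6, ?_, hM' _ hq _ _⟩
        rcases h7 with rfl | rfl
        · exact hN1 _ _ _ hp
        · exact hN2 _ _ _ hp
      · rcases Nat.lt_trichotomy a b with h | rfl | h
        · exact ⟨a, b, h, hb, hN1 _ _ _ hp, hN2 _ _ _ hq⟩
        · obtain ⟨c, d, h5, h6, h7⟩ := hone a ha
          refine ⟨c, d, h5, h6, ?_, ?_⟩
          · rcases h7 with rfl | rfl
            · exact hN1 _ _ _ hp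
            · exact hN2 _ _ _ hp
          · rcases h7 with rfl | rfl
            · exact hN1 _ _ _ hq
            · exact hN2 _ _ _ hq
        · exact ⟨b, a, h, ha, hN2 _ _ _ hp, hN1 _ _ _ hq⟩
  exact hpair i i' h1 h2 p h3 q h4

end DA
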