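import Pool.Agent.DA.FamG2
import Pool.Agent.DA.Sparse
import Pool.Agent.DA.Scale

/-!
# Gadgets with a bounded number of other locations
-/

open Set BIC BICS
open scoped Matroid

namespace DA

open Gad

universe u

/-- `v` is at depth `D` in the square with corner `X` and side `n`. -/
def Deep (X : ℕ × ℕ) (n D : ℕ) (v : ℕ × ℕ) : Prop :=
  X.1 + D ≤ v.1 ∧ X.2 + D ≤ v.2 ∧ v.1 + D ≤ X.1 + n ∧ v.2 + D ≤ X.2 + n

lemma loc_end {α V : Type*} {P : Matroid α} {S : Set α} {ends : α → Sym2 V} {z : α}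
    (hz : z ∈ P.closure S) {v : V} (hv : v ∈ CWL.Loc P S ends z) : ∃ e ∈ S, v ∈ ends e := by
  by_contra hcon
  push Not at hcon
  apply hv
  have e : ins S ends {v}ᶜ = S := by
    ext f
    refine ⟨fun h => h.1, fun h => ⟨h, fun w hw => ?_⟩⟩
    rintro rfl
    exact hcon f h hw
  rw [e]
  exact hz

lemma grd_end {α : Type*} {S : Set α} {ends : α → Sym2 (ℕ × ℕ)} {A : Set (ℕ × ℕ)}
    (hG : CWL.GrdU S ends A) {e : α} (he : e ∈ S) {v : ℕ × ℕ} (hv : v ∈ ends e) : v ∈ A := by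
  obtain ⟨p, q, h1, _, h3, h4⟩ := hG.mem e he
  rw [h1, Sym2.mem_iff] at hv
  rcases hv with rfl | rfl
  · exact h3
  · exact h4

section

variable {α : Type u} {ι : Type} {P : Matroid α} {S : Set α} {ends : α → Sym2 (ℕ × ℕ)}
  {X : ℕ × ℕ} {n : ℕ}

/-- **The family at a free scale.** -/
theorem famG_of [Fintype ι] [DecidableEq ι] [Nonempty ι] {M : Finset (ℕ × ℕ)}
    (hB : Bic P S ends)
    (hG : CWL.GrdU S ends (rect X.1 X.2 n n \ (M : Set (ℕ × ℕ)))) (hsp : Spr 3 (M : Set (ℕ × ℕ)))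
    (hMin : ∀ v ∈ M, Deep X n 6 v) {D δ₀ s s' L w₀ : ℕ} (hL : L = 2 * (s + 6) + 1)
    (hs' : 2 * s ≤ s') (hs'' : L + δ₀ + s + 20 ≤ s') (N : ι → Finset (ℕ × ℕ)) (z : ι → α)
    (A : ι → Finset (ℕ × ℕ)) (hz : ∀ t, z t ∈ P.closure S ∧ z t ∉ S)
    (hNl : ∀ t, ∀ v ∈ CWL.Loc P S ends (z t), Deep X n D v → v ∈ N t)
    (hA : ∀ t, 3 ≤ (A t).card ∧ ∀ v ∈ A t, v ∈ CWL.Loc P S ends (z t))
    (hgap : ∀ p q, (p ∈ M ∨ ∃ t, p ∈ N t) → (q ∈ M ∨ ∃ t, q ∈ N t) →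
      sd p q ≤ s ∨ s' < sd p q)
    (hw : D + 12 ≤ w₀) (hzone : ∀ p, (p ∈ M ∨ ∃ t, p ∈ N t) →
      (p.1 < X.1 + w₀ ∨ X.1 + w₀ + s' ≤ p.1) ∧ (p.2 < X.2 + w₀ ∨ X.2 + w₀ + s' ≤ p.2) ∧
      (X.1 + n < p.1 + w₀ ∨ p.1 + w₀ + s' ≤ X.1 + n) ∧
      (X.2 + n < p.2 + w₀ ∨ p.2 + w₀ + s' ≤ X.2 + n))
    (hAd : ∀ t, ∀ v ∈ A t, Deep X n (w₀ + s') v)
    (hAM : ∀ t, ∀ v ∈ A t, ∀ w ∈ M, s' < sd v w)
    (hpriv : ∀ t t', t ≠ t' → ∀ v ∈ A t, ∀ w ∈ CWL.Loc P S ends (z t'), s' < sd v w) :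
    ∃ (Gr : Set (ℕ × ℕ)) (X' : ℕ × ℕ) (n' : ℕ) (E : Finset (ℕ × ℕ)) (Qs : ι → Finset (ℕ × ℕ)),
      FamG P S ends (rect X.1 X.2 n n \ (M : Set (ℕ × ℕ))) Gr X' n' L δ₀ E z Qs ∧
      (∀ t, ∀ c ∈ Qs t, (CWL.Loc P S ends (z t) ∩ rect c.1 c.2 L L).Nonempty) ∧
      ∀ t, 3 ≤ (CWL.Loc P S ends (z t) ∩ hls (Qs t) L).ncard := by
  classical
  obtain ⟨Ns, hNs⟩ : ∃ Ns : Finset (ℕ × ℕ), ∀ p, p ∈ Ns ↔ (p ∈ M ∨ ∃ t, p ∈ N t) :=
    ⟨M ∪ Finset.univ.biUnion N, fun p => by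
      simp only [Finset.mem_union, Finset.mem_biUnion, Finset.mem_univ, true_and]⟩
  obtain ⟨rep, hrep1, hrep2, hrep3⟩ := classes Ns s s' hs' (fun p hp q hq =>
    hgap p q ((hNs p).1 hp) ((hNs q).1 hq))
  have hAN : ∀ t, ∀ a ∈ A t, a ∈ Ns := by
    intro t a ha
    have h1 := hAd t a ha
    refine (hNs a).2 (Or.inr ⟨t, hNl t a ((hA t).2 a ha) ?_⟩)
    unfold Deep at h1 ⊢
    omega
  -- the square of a point
  obtain ⟨sq, hsq⟩ : ∃ sq : ℕ × ℕ → ℕ × ℕ, ∀ p, sq p = ((rep p).1 - (s + 6), (rep p).2 - (s + 6)) :=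
    ⟨_, fun _ => rfl⟩
  have hint : ∀ p ∈ Ns, Deep X n (w₀ + s') p → X.1 + w₀ + s' ≤ (rep p).1 + s ∧
      X.2 + w₀ + s' ≤ (rep p).2 + s ∧ (rep p).1 + w₀ + s' ≤ X.1 + n + s ∧
      (rep p).2 + w₀ + s' ≤ X.2 + n + s := by
    intro p hp hd
    have h1 := sd_le.1 (hrep1 p hp).2
    unfold Deep at hd
    omega
  have hsqi : ∀ p ∈ Ns, ∀ q ∈ Ns, Deep X n (w₀ + s') p → Deep X n (w₀ + s') q → sq p = sq q →
      rep p = rep q := by
    intro p hp q hq hdp hdq heq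
    have h1 := hint p hp hdp
    have h2 := hint q hq hdq
    rw [hsq, hsq, Prod.mk.injEq] at heq
    exact Prod.ext (by omega) (by omega)
  -- points of a square
  have hin : ∀ p ∈ Ns, Deep X n (w₀ + s') p → ∀ v ∈ Ns, v ∈ rect (sq p).1 (sq p).2 L L →
      rep v = rep p ∧ sd v (rep p) ≤ s := by
    intro p hp hd v hv hvs
    have h1 := hint p hp hd
    rw [hsq, Gad.mem_rct] at hvs
    simp only at hvs
    have h2 : sd v (rep p) ≤ s' := sd_le.2 (by omega)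
    have h3 := hrep2 v hv _ (hrep1 p hp).1 h2
    have h4 := hrep2 p hp _ (hrep1 p hp).1 (by have := (hrep1 p hp).2; omega)
    refine ⟨h3.trans h4.symm, ?_⟩
    rcases hgap v (rep p) ((hNs v).1 hv) ((hNs _).1 (hrep1 p hp).1) with h5 | h5
    · exact h5
    · omega
  have hown : ∀ p ∈ Ns, Deep X n (w₀ + s') p → p ∈ rect (sq p).1 (sq p).2 L L := by
    intro p hp hd
    have h1 := hint p hp hd
    have h2 := sd_le.1 (hrep1 p hp).2
    rw [hsq, Gad.mem_rct]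
    simp only
    omega
  have hdepth : ∀ p ∈ Ns, Deep X n (w₀ + s') p → ∀ v ∈ Ns, v ∈ rect (sq p).1 (sq p).2 L L →
      (sq p).1 + 6 ≤ v.1 ∧ v.1 + 7 ≤ (sq p).1 + L ∧ (sq p).2 + 6 ≤ v.2 ∧
        v.2 + 7 ≤ (sq p).2 + L := by
    intro p hp hd v hv hvs
    have h1 := hint p hp hd
    have h2 := sd_le.1 (hin p hp hd v hv hvs).2
    rw [hsq]
    simp only
    omega
  have hfar : ∀ p ∈ Ns, ∀ q ∈ Ns, Deep X n (w₀ + s') p → Deep X n (w₀ + s') q →
      rep p ≠ rep q → CWL.Far δ₀ (sq p) L (sq q) L := by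
    intro p hp q hq hdp hdq hne
    have h1 := hint p hp hdp
    have h2 := hint q hq hdq
    have h3 := hrep3 p hp q hq hne
    have h4 : ¬ (sd (rep p) (rep q) ≤ s') := by omega
    rw [sd_le] at h4
    rw [hsq, hsq]
    unfold CWL.Far
    simp only
    omega
  have hbd : ∀ p ∈ Ns, Deep X n (w₀ + s') p → X.1 + (w₀ + 3) + δ₀ ≤ (sq p).1 ∧
      X.2 + (w₀ + 3) + δ₀ ≤ (sq p).2 ∧ (sq p).1 + L + δ₀ + (w₀ + 3) ≤ X.1 + n ∧
      (sq p).2 + L + δ₀ + (w₀ + 3) ≤ X.2 + n := by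
    intro p hp hd
    have h1 := hint p hp hd
    rw [hsq]
    simp only
    omega
  -- the common squares
  obtain ⟨E, hE⟩ : ∃ E : Finset (ℕ × ℕ), ∀ c, c ∈ E ↔ ∃ p ∈ Ns, Deep X n (w₀ + s') p ∧
      (∀ t, ∀ a ∈ A t, rep a ≠ rep p) ∧ sq p = c := by
    refine ⟨(Ns.filter (fun p => Deep X n (w₀ + s') p ∧ ∀ t, ∀ a ∈ A t, rep a ≠ rep p)).image sq,
      fun c => ?_⟩
    simp only [Finset.mem_image, Finset.mem_filter]
    constructor
    · rintro ⟨p, ⟨h1, h2, h3⟩, h4⟩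
      exact ⟨p, h1, h2, h3, h4⟩
    · rintro ⟨p, h1, h2, h3, h4⟩
      exact ⟨p, ⟨h1, h2, h3⟩, h4⟩
  obtain ⟨Qs, hQs⟩ : ∃ Qs : ι → Finset (ℕ × ℕ), ∀ t c, c ∈ Qs t ↔ ∃ a ∈ A t, sq a = c :=
    ⟨fun t => (A t).image sq, fun t c => Finset.mem_image⟩
  have hall : ∀ c, (c ∈ E ∨ ∃ t, c ∈ Qs t) → ∃ p ∈ Ns, Deep X n (w₀ + s') p ∧ sq p = c := by
    rintro c (hc | ⟨t, hc⟩)
    · obtain ⟨p, h1, h2, _, h4⟩ := (hE c).1 hc
      exact ⟨p, h1, h2, h4⟩
    · obtain ⟨a, ha, h1⟩ := (hQs t c).1 hc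
      exact ⟨a, hAN t a ha, hAd t a ha, h1⟩
  have hMN : ∀ v ∈ M, v ∈ Ns := fun v hv => (hNs v).2 (Or.inl hv)
  have hn2 : 2 * (w₀ + s') ≤ n := by
    obtain ⟨t⟩ := (inferInstance : Nonempty ι)
    have h1 : 0 < (A t).card := by have := (hA t).1; omega
    obtain ⟨a, ha⟩ := Finset.card_pos.1 h1
    have h2 := hAd t a ha
    unfold Deep at h2
    omega
  obtain ⟨W, hW⟩ : ∃ W, W = w₀ + 3 := ⟨_, rfl⟩
  -- a missing vertex inside is in a common square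
  have hME : ∀ v ∈ M, v ∈ rect (X.1 + W) (X.2 + W) (n - 2 * W) (n - 2 * W) → v ∈ hls E L := by
    intro v hv hvr
    rw [Gad.mem_rct] at hvr
    have h1 := hzone v (Or.inl hv)
    have hd : Deep X n (w₀ + s') v := by
      unfold Deep
      omega
    refine mem_hls.2 ⟨sq v, (hE _).2 ⟨v, hMN v hv, hd, ?_, rfl⟩, ?_⟩
    · intro t a ha heq
      have h2 := hAM t a ha v hv
      have h3 := (hrep1 a (hAN t a ha)).2
      have h4 := (hrep1 v (hMN v hv)).2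
      rw [heq] at h3
      have h5 := sd_tri (p := a) (q := rep v) (r := v)
      rw [sd_comm (p := rep v)] at h5
      omega
    · have := hown v (hMN v hv) hd
      rw [Gad.mem_rct] at this
      exact this
  have hrr : ∀ v : ℕ × ℕ, v ∈ rect (X.1 + W) (X.2 + W) (n - 2 * W) (n - 2 * W) →
      v ∈ rect X.1 X.2 n n := by
    intro v hv
    rw [Gad.mem_rct] at hv ⊢
    omega
  have hEr : ∀ c, (c ∈ E ∨ ∃ t, c ∈ Qs t) → ∀ v ∈ rect c.1 c.2 L L,
      v ∈ rect (X.1 + W) (X.2 + W) (n - 2 * W) (n - 2 * W) := by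
    intro c hc v hv
    obtain ⟨p, h1, h2, rfl⟩ := hall c hc
    have h3 := hbd p h1 h2
    rw [Gad.mem_rct] at hv ⊢
    omega
  obtain ⟨Gr, hGr⟩ : ∃ Gr : Set (ℕ × ℕ), Gr = (rect X.1 X.2 n n \
      rect (X.1 + W) (X.2 + W) (n - 2 * W) (n - 2 * W) ∪ hls E L) \ (M : Set (ℕ × ℕ)) := ⟨_, rfl⟩
  have hGrm : ∀ v, v ∈ Gr ↔ ((v ∈ rect X.1 X.2 n n ∧
      v ∉ rect (X.1 + W) (X.2 + W) (n - 2 * W) (n - 2 * W)) ∨ v ∈ hls E L) ∧ v ∉ M := by
    intro v
    rw [hGr]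
    rfl
  have hP : Pres S ends (rect X.1 X.2 n n \ (M : Set (ℕ × ℕ))) :=
    fun p q hpq hp hq => hG.surj p q hpq hp hq
  have hGrA : Gr ⊆ rect X.1 X.2 n n \ (M : Set (ℕ × ℕ)) := by
    intro v hv
    obtain ⟨h1 | h1, h2⟩ := (hGrm v).1 hv
    · exact ⟨h1.1, h2⟩
    · obtain ⟨c, hc, h3⟩ := mem_hls.1 h1
      exact ⟨hrr v (hEr c (Or.inl hc) v (by rw [Gad.mem_rct]; exact h3)), h2⟩
  have hAf : (rect X.1 X.2 n n \ (M : Set (ℕ × ℕ))).Finite :=
    (rect_finite _ _ _ _).subset sdiff_subset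
  -- the grounded region is full
  have hfat : ∀ v ∈ Gr, Fat Gr v := by
    intro v hv
    obtain ⟨h1, h2⟩ := (hGrm v).1 hv
    have hstrip : ∀ a b c d, 2 ≤ c → 2 ≤ d → (∀ w ∈ rect a b c d, w ∈ rect X.1 X.2 n n ∧
        w ∉ rect (X.1 + W) (X.2 + W) (n - 2 * W) (n - 2 * W)) →
        (∀ w ∈ M, w ∈ rect a b c d → a + 2 ≤ w.1 ∧ w.1 + 3 ≤ a + c ∧ b + 2 ≤ w.2 ∧
          w.2 + 3 ≤ b + d) → v ∈ rect a b c d → Fat Gr v := by
      intro a b c d hc hd hsub hdeep hvr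
      refine fat_rect hc hd hsp hdeep ?_ v hvr h2
      rintro w ⟨hw1, hw2⟩
      exact (hGrm w).2 ⟨Or.inl (hsub w hw1), hw2⟩
    have hMz : ∀ w ∈ M, _ := fun w hw => hzone w (Or.inl hw)
    rcases h1 with ⟨h1, h3⟩ | h1
    · rw [Gad.mem_rct] at h1 h3
      have hcase : v.1 < X.1 + W ∨ v.2 < X.2 + W ∨ X.1 + n ≤ v.1 + W ∨ X.2 + n ≤ v.2 + W := by
        omega
      rcases hcase with hc | hc | hc | hc
      · refine hstrip X.1 X.2 W n (by omega) (by omega) ?_ ?_ (by rw [Gad.mem_rct]; omega)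
        · intro w hw
          rw [Gad.mem_rct] at hw ⊢
          rw [Gad.mem_rct]
          omega
        · intro w hw hwr
          rw [Gad.mem_rct] at hwr
          have h4 := hMz w hw
          have h5 := hMin w hw
          unfold Deep at h5
          omega
      · refine hstrip X.1 X.2 n W (by omega) (by omega) ?_ ?_ (by rw [Gad.mem_rct]; omega)
        · intro w hw
          rw [Gad.mem_rct] at hw ⊢
          rw [Gad.mem_rct]
          omega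
        · intro w hw hwr
          rw [Gad.mem_rct] at hwr
          have h4 := hMz w hw
          have h5 := hMin w hw
          unfold Deep at h5
          omega
      · refine hstrip (X.1 + n - W) X.2 W n (by omega) (by omega) ?_ ?_
          (by rw [Gad.mem_rct]; omega)
        · intro w hw
          rw [Gad.mem_rct] at hw ⊢
          rw [Gad.mem_rct]
          omega
        · intro w hw hwr
          rw [Gad.mem_rct] at hwr
          have h4 := hMz w hw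
          have h5 := hMin w hw
          unfold Deep at h5
          omega
      · refine hstrip X.1 (X.2 + n - W) n W (by omega) (by omega) ?_ ?_
          (by rw [Gad.mem_rct]; omega)
        · intro w hw
          rw [Gad.mem_rct] at hw ⊢
          rw [Gad.mem_rct]
          omega
        · intro w hw hwr
          rw [Gad.mem_rct] at hwr
          have h4 := hMz w hw
          have h5 := hMin w hw
          unfold Deep at h5
          omega
    · obtain ⟨c, hc, h3⟩ := mem_hls.1 h1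
      obtain ⟨p, hp1, hp2, rfl⟩ := hall c (Or.inl hc)
      refine fat_rect (a := (sq p).1) (b := (sq p).2) (c := L) (d := L) (by omega) (by omega)
        hsp ?_ ?_ v (by rw [Gad.mem_rct]; exact h3) h2
      · intro w hw hwr
        have h4 := hdepth p hp1 hp2 w (hMN w hw) hwr
        omega
      · rintro w ⟨hw1, hw2⟩
        refine (hGrm w).2 ⟨Or.inr (mem_hls.2 ⟨_, hc, ?_⟩), hw2⟩
        rw [Gad.mem_rct] at hw1
        exact hw1
  refine ⟨Gr, (X.1 + W, X.2 + W), n - 2 * W, E, Qs, ⟨hB, hAf, hG, ?_, hGrA, ?_, ?_, hz, ?_, ?_,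
    ?_, ?_, ?_, ?_, ?_⟩, ?_, ?_⟩
  · refine vconn_of_rch hG (rch_sparse (by omega) (by omega) M hsp ?_)
    intro m hm
    have := hMin m hm
    unfold Deep at this
    omega
  · exact full_of_fat hP _ Gr (hAf.subset hGrA) rfl hGrA hfat
  · ext v
    constructor
    · rintro ⟨⟨h1, h2⟩, h3⟩
      rw [hGrm] at h3
      refine ⟨?_, fun h4 => h3 ⟨Or.inr h4, h2⟩⟩
      by_contra h4
      exact h3 ⟨Or.inl ⟨h1, h4⟩, h2⟩
    · rintro ⟨h1, h2⟩
      refine ⟨⟨hrr v h1, fun h3 => h2 (hME v h3 h1)⟩, ?_⟩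
      rw [hGrm]
      rintro ⟨h3 | h3, _⟩
      · exact h3.2 h1
      · exact h2 h3
  · intro t
    have h1 : 0 < (A t).card := by have := (hA t).1; omega
    obtain ⟨a, ha⟩ := Finset.card_pos.1 h1
    exact ⟨sq a, (hQs t _).2 ⟨a, ha, rfl⟩⟩
  · intro t t' hne
    rw [Finset.disjoint_left]
    intro c hc hc'
    obtain ⟨a, ha, rfl⟩ := (hQs t c).1 hc
    obtain ⟨a', ha', h1⟩ := (hQs t' _).1 hc'
    have h2 := hsqi a' (hAN t' a' ha') a (hAN t a ha) (hAd t' a' ha') (hAd t a ha) h1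
    have h3 := hpriv t t' hne a ha a' ((hA t').2 a' ha')
    have h4 := (hrep1 a (hAN t a ha)).2
    have h5 := (hrep1 a' (hAN t' a' ha')).2
    rw [h2] at h5
    have h6 := sd_tri (p := a) (q := rep a) (r := a')
    rw [sd_comm (p := rep a)] at h6
    omega
  · intro t
    rw [Finset.disjoint_left]
    intro c hc hc'
    obtain ⟨a, ha, rfl⟩ := (hQs t c).1 hc
    obtain ⟨p, hp1, hp2, hp3, hp4⟩ := (hE _).1 hc'
    exact hp3 t a ha (hsqi p hp1 a (hAN t a ha) hp2 (hAd t a ha) hp4).symm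
  · intro c c' hc hc' hne
    obtain ⟨p, hp1, hp2, rfl⟩ := hall c hc
    obtain ⟨q, hq1, hq2, rfl⟩ := hall c' hc'
    refine hfar p hp1 q hq1 hp2 hq2 ?_
    intro heq
    apply hne
    rw [hsq, hsq, heq]
  · intro c hc
    obtain ⟨p, hp1, hp2, rfl⟩ := hall c hc
    have h3 := hbd p hp1 hp2
    simp only
    omega
  · intro t v hv
    obtain ⟨e, he, hve⟩ := loc_end (hz t).1 hv
    have hvA := grd_end hG he hve
    by_cases hvr : v ∈ rect (X.1 + W) (X.2 + W) (n - 2 * W) (n - 2 * W)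
    · have hvD : Deep X n D v := by
        rw [Gad.mem_rct] at hvr
        unfold Deep
        omega
      have hvN : v ∈ N t := hNl t v hv hvD
      have hvNs : v ∈ Ns := (hNs v).2 (Or.inr ⟨t, hvN⟩)
      have hvd : Deep X n (w₀ + s') v := by
        rw [Gad.mem_rct] at hvr
        have h1 := hzone v (Or.inr ⟨t, hvN⟩)
        unfold Deep
        omega
      have hvo := hown v hvNs hvd
      by_cases hex : ∃ t', ∃ a ∈ A t', rep a = rep v
      · obtain ⟨t', a, ha, heq⟩ := hex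
        have htt : t' = t := by
          by_contra hne
          have h3 := hpriv t' t hne a ha v hv
          have h4 := (hrep1 a (hAN t' a ha)).2
          have h5 := (hrep1 v hvNs).2
          rw [heq] at h4
          have h6 := sd_tri (p := a) (q := rep v) (r := v)
          rw [sd_comm (p := rep v)] at h6
          omega
        subst htt
        left
        refine mem_hls.2 ⟨sq v, (hQs t' _).2 ⟨a, ha, ?_⟩, ?_⟩
        · rw [hsq, hsq, heq]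
        · rw [Gad.mem_rct] at hvo
          exact hvo
      · push Not at hex
        right
        refine (hGrm v).2 ⟨Or.inr (mem_hls.2 ⟨sq v, (hE _).2 ⟨v, hvNs, hvd, hex, rfl⟩, ?_⟩),
          fun h => hvA.2 h⟩
        rw [Gad.mem_rct] at hvo
        exact hvo
    · right
      exact (hGrm v).2 ⟨Or.inl ⟨hvA.1, hvr⟩, fun h => hvA.2 h⟩
  · rintro t c hc v ⟨hv, hvr⟩
    obtain ⟨a, ha, rfl⟩ := (hQs t c).1 hc
    have h1 := hEr (sq a) (Or.inr ⟨t, hc⟩) v hvr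
    have hvD : Deep X n D v := by
      rw [Gad.mem_rct] at h1
      unfold Deep
      omega
    have h2 := hdepth a (hAN t a ha) (hAd t a ha) v ((hNs v).2 (Or.inr ⟨t, hNl t v hv hvD⟩)) hvr
    unfold Inn
    omega
  · intro t c hc
    obtain ⟨a, ha, rfl⟩ := (hQs t c).1 hc
    exact ⟨a, (hA t).2 a ha, hown a (hAN t a ha) (hAd t a ha)⟩
  · intro t
    have h1 : ((A t : Finset (ℕ × ℕ)) : Set (ℕ × ℕ)) ⊆ CWL.Loc P S ends (z t) ∩ hls (Qs t) L := by
      intro a ha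
      have h2 := hown a (hAN t a ha) (hAd t a ha)
      rw [Gad.mem_rct] at h2
      exact ⟨(hA t).2 a ha, mem_hls.2 ⟨sq a, (hQs t _).2 ⟨a, ha, rfl⟩, h2⟩⟩
    have h2 : (CWL.Loc P S ends (z t) ∩ hls (Qs t) L).Finite := by
      refine Set.Finite.subset ?_ inter_subset_right
      unfold hls
      exact Set.Finite.biUnion (Finset.finite_toSet _) (fun q _ => rect_finite _ _ _ _)
    have h3 := Set.ncard_le_ncard h1 h2
    rw [Set.ncard_coe_finset] at h3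
    exact (hA t).1.trans h3

end

/-- **Gadgets with a bounded number of other locations**, over a grid with few missing
vertices. -/
theorem glB (k β h D : ℕ) : ∃ m δ : ℕ, ∀ {α : Type u} (P : Matroid α) [P.Finite] (S : Set α)
    (ends : α → Sym2 (ℕ × ℕ)) (X : ℕ × ℕ) (n : ℕ) (M : Finset (ℕ × ℕ)), Bic P S ends →
    CWL.GrdU S ends (rect X.1 X.2 n n \ (M : Set (ℕ × ℕ))) → M.card ≤ h →
    Spr 3 (M : Set (ℕ × ℕ)) → (∀ v ∈ M, Deep X n 6 v) →
    ∀ (z : Fin m → α) (A : Fin m → Finset (ℕ × ℕ)), (∀ t, z t ∈ P.closure S ∧ z t ∉ S) →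
    (∀ t, ∃ N : Finset (ℕ × ℕ), N.card ≤ β ∧ ∀ v ∈ CWL.Loc P S ends (z t), Deep X n D v →
      v ∈ N) →
    (∀ t, 3 ≤ (A t).card ∧ ∀ v ∈ A t, v ∈ CWL.Loc P S ends (z t)) →
    (∀ t, ∀ v ∈ A t, Deep X n δ v) → (∀ t, ∀ v ∈ A t, ∀ w ∈ M, Apart δ v w) →
    (∀ t t', t ≠ t' → ∀ v ∈ A t, ∀ w ∈ CWL.Loc P S ends (z t'), Apart δ v w) →
    HasUniformMinor P k := by
  classical
  choose mL δL hfam using fun s : ℕ => famG_hum.{u} k (2 * (s + 6) + 1) (by omega)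
  obtain ⟨J, sc, hmono, hsc, hscale⟩ := scales β h (fun s => 2 * (s + 6) + 1 + δL s + s + 20)
  obtain ⟨Nm, hNm⟩ : ∃ Nm, Nm = (Finset.range J).sup (fun j => mL (sc j)) + 2 := ⟨_, rfl⟩
  obtain ⟨m, hm⟩ := hscale Nm (by omega)
  obtain ⟨δ, hδ⟩ : ∃ δ, δ = D + 12 + 4 * (h + Nm * β) * sc J + sc J + 1 := ⟨_, rfl⟩
  refine ⟨m, δ, ?_⟩
  intro α P _ S ends X n M hB hG hMc hMs hMi z A hz hNex hA hAd hAM hpriv
  choose N₀ hN₀c hN₀ using hNex
  obtain ⟨N, hN⟩ : ∃ N : ℕ → Finset (ℕ × ℕ), ∀ t (ht : t < m), N t =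
      (N₀ ⟨t, ht⟩).filter (fun v => v ∈ CWL.Loc P S ends (z ⟨t, ht⟩)) :=
    ⟨fun t => if ht : t < m then
      (N₀ ⟨t, ht⟩).filter (fun v => v ∈ CWL.Loc P S ends (z ⟨t, ht⟩)) else ∅,
      fun t ht => by simp only [dif_pos ht]⟩
  have hNc : ∀ t, t < m → (N t).card ≤ β := by
    intro t ht
    rw [hN t ht]
    exact (Finset.card_filter_le _ _).trans (hN₀c _)
  obtain ⟨j, hj, f, hf1, hf2, hf3⟩ := hm N M hNc hMc
  obtain ⟨s, hs⟩ : ∃ s, s = sc j := ⟨_, rfl⟩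
  obtain ⟨s', hs'⟩ : ∃ s', s' = sc (j + 1) := ⟨_, rfl⟩
  have hss := hsc j
  rw [← hs, ← hs'] at hss
  have hs'J : s' ≤ sc J := by rw [hs']; exact hmono (by omega)
  have hmL : mL s + 2 ≤ Nm := by
    have h1 : mL (sc j) ≤ (Finset.range J).sup (fun j => mL (sc j)) :=
      Finset.le_sup (f := fun j => mL (sc j)) (Finset.mem_range.2 hj)
    rw [hs, hNm]
    omega
  -- the subfamily
  obtain ⟨g, hg⟩ : ∃ g : Fin (mL s + 1) → Fin m, ∀ i, (g i : ℕ) = f i :=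
    ⟨fun i => ⟨f i, hf1 _ (by have := i.2; omega)⟩, fun i => rfl⟩
  have hgi : Function.Injective g := by
    intro a b hab
    have h1 : f a = f b := by rw [← hg, ← hg, hab]
    by_contra hne
    have ha := a.2
    have hb := b.2
    rcases Nat.lt_or_gt_of_ne (fun h => hne (Fin.ext h)) with h2 | h2
    · have := hf2 _ _ h2 (by omega)
      omega
    · have := hf2 _ _ h2 (by omega)
      omega
  have hgN : ∀ i, N (g i) = (N₀ (g i)).filter (fun v => v ∈ CWL.Loc P S ends (z (g i))) :=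
    fun i => hN _ (g i).2
  have hmem : ∀ p, (p ∈ M ∨ ∃ i, p ∈ N (g i)) → (p ∈ M ∨ ∃ i < Nm, p ∈ N (f i)) := by
    rintro p (hp | ⟨i, hp⟩)
    · exact Or.inl hp
    · rw [hg] at hp
      exact Or.inr ⟨i, by have := i.2; omega, hp⟩
  -- the frame
  obtain ⟨T, hT⟩ : ∃ T : Finset ℕ, T = (M ∪ Finset.univ.biUnion fun i => N (g i)).biUnion
      fun p => {p.1 - X.1, p.2 - X.2, X.1 + n - p.1, X.2 + n - p.2} := ⟨_, rfl⟩
  have hTc : T.card ≤ 4 * (h + Nm * β) := by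
    rw [hT]
    refine (Finset.card_biUnion_le_card_mul _ _ 4 ?_).trans ?_
    · intro p _
      exact Finset.card_le_four
    · rw [mul_comm]
      refine Nat.mul_le_mul_left _ ?_
      refine (Finset.card_union_le _ _).trans (Nat.add_le_add hMc ?_)
      refine (Finset.card_biUnion_le_card_mul _ _ β (fun i _ => hNc _ (g i).2)).trans ?_
      rw [Finset.card_univ, Fintype.card_fin]
      exact Nat.mul_le_mul_right _ (by omega)
  have hs'1 : 1 ≤ s' := by omega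
  obtain ⟨w₀, hw1, hw2, hw3⟩ := zone T (D + 12) s' hs'1
  have hw4 : w₀ + s' ≤ δ := by
    have h1 : T.card * s' ≤ 4 * (h + Nm * β) * sc J := Nat.mul_le_mul hTc hs'J
    omega
  have hzone : ∀ p, (p ∈ M ∨ ∃ i, p ∈ N (g i)) →
      (p.1 < X.1 + w₀ ∨ X.1 + w₀ + s' ≤ p.1) ∧ (p.2 < X.2 + w₀ ∨ X.2 + w₀ + s' ≤ p.2) ∧
      (X.1 + n < p.1 + w₀ ∨ p.1 + w₀ + s' ≤ X.1 + n) ∧
      (X.2 + n < p.2 + w₀ ∨ p.2 + w₀ + s' ≤ X.2 + n) := by
    intro p hp
    have hpT : ∀ c ∈ ({p.1 - X.1, p.2 - X.2, X.1 + n - p.1, X.2 + n - p.2} : Finset ℕ),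
        ¬ (w₀ ≤ c ∧ c < w₀ + s') := by
      intro c hc
      refine hw3 c ?_
      rw [hT]
      refine Finset.mem_biUnion.2 ⟨p, ?_, hc⟩
      rcases hp with hp | ⟨i, hp⟩
      · exact Finset.mem_union_left _ hp
      · exact Finset.mem_union_right _ (Finset.mem_biUnion.2 ⟨i, Finset.mem_univ _, hp⟩)
    have h1 := hpT (p.1 - X.1) (by simp)
    have h2 := hpT (p.2 - X.2) (by simp)
    have h3 := hpT (X.1 + n - p.1) (by simp)
    have h4 := hpT (X.2 + n - p.2) (by simp)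
    omega
  obtain ⟨Gr, X', n', E, Qs, h1, h2, h3⟩ := famG_of (ι := Fin (mL s + 1)) (D := D) (δ₀ := δL s)
    (s := s) (s' := s') (L := 2 * (s + 6) + 1) (w₀ := w₀) hB hG hMs hMi rfl hss.1
    (by omega) (fun i => N (g i)) (fun i => z (g i)) (fun i => A (g i)) (fun i => hz _)
    (by
      intro i v hv hvd
      rw [hgN]
      exact Finset.mem_filter.2 ⟨hN₀ _ v hv hvd, hv⟩) (fun i => hA _)
    (by
      intro p q hp hq
      rw [hs, hs']
      exact hf3 p q (hmem p hp) (hmem q hq)) (by omega) hzone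
    (by
      intro i v hv
      have h5 := hAd _ v hv
      unfold Deep at h5 ⊢
      omega)
    (by
      intro i v hv w hw
      have h5 := apart_iff.1 (hAM _ v hv w hw)
      omega)
    (by
      intro i i' hne v hv w hw
      have h5 := apart_iff.1 (hpriv _ _ (fun h => hne (hgi h)) v hv w hw)
      omega)
  exact hfam s P S ends _ Gr X' n' E (fun i => z (g i.castSucc)) (fun i => Qs i.castSucc)
    (h1.comp Fin.castSucc (Fin.castSucc_injective _) (fun i => h1.loc _))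
    (fun i => h2 _) (fun i => h3 _)

end DA
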