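import Pool.Agent.DA.FamKOf

/-!
# Gadgets next to missing vertices
-/

open Set BIC BICS
open scoped Matroid

namespace DA

open Gad

universe u

section

variable {α ι : Type*} {P : Matroid α} {S : Set α} {ends : α → Sym2 (ℕ × ℕ)}
  {A Gr K : Set (ℕ × ℕ)} {X : ℕ × ℕ} {n L δ : ℕ} {E : Finset (ℕ × ℕ)} {z : ι → α}
  {Qs : ι → Finset (ℕ × ℕ)}

lemma FamK.mono {δ' : ℕ} (h : FamK P S ends A Gr X n L δ E z Qs K) (hδ : δ' ≤ δ) :
    FamK P S ends A Gr X n L δ' E z Qs K := by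
  refine ⟨h.bic, h.Af, h.grd, h.con, h.GrA, h.full, h.reg, h.zc, h.ne, h.dis, h.disE, ?_, ?_,
    h.loc, h.kA, h.ksp, h.kin⟩
  · intro c c' hc hc' hne
    have h1 := h.far c c' hc hc' hne
    unfold CWL.Far at h1 ⊢
    omega
  · intro c hc
    have h1 := h.bd c hc
    omega

/-- Missing vertices next to a square of an element are in the square. -/
lemma FamK.kb (h : FamK P S ends A Gr X n L δ E z Qs K) (hδ : 2 ≤ δ) {t : ι} {c : ℕ × ℕ}
    (hc : c ∈ Qs t) : ∀ v ∈ K, v ∈ rect (c.1 - 1) (c.2 - 1) (L + 2) (L + 2) →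
      v ∈ rect c.1 c.2 L L := by
  intro v hv hvr
  obtain ⟨t', c', hc', h1⟩ := h.kin v hv
  by_cases hne : c = c'
  · rw [hne]
    exact h1
  · have h2 := h.far c c' (Or.inr ⟨t, hc⟩) (Or.inr ⟨t', hc'⟩) hne
    have h3 := h.bd c (Or.inr ⟨t, hc⟩)
    rw [Gad.mem_rct] at hvr h1
    unfold CWL.Far at h2
    omega

end

/-- An injection into a fibre. -/
lemma fibre (N r : ℕ) (col : ℕ → ℕ) (hcol : ∀ i < r * N, col i < r) (hr : 0 < r) :
    ∃ y < r, ∀ N' ≤ N, ∃ g : Fin N' → ℕ, Function.Injective g ∧ ∀ i, g i < r * N ∧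
      col (g i) = y := by
  classical
  obtain ⟨y, hy, h1⟩ := Finset.exists_le_card_fiber_of_mul_le_card_of_maps_to
    (s := Finset.range (r * N)) (t := Finset.range r) (f := col) (n := N)
    (fun i hi => Finset.mem_range.2 (hcol i (Finset.mem_range.1 hi))) ⟨0, Finset.mem_range.2 hr⟩
    (by rw [Finset.card_range, Finset.card_range])
  refine ⟨y, Finset.mem_range.1 hy, fun N' hN' => ?_⟩
  obtain ⟨T, hT, hTc⟩ := Finset.exists_subset_card_eq (hN'.trans h1)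
  refine ⟨fun i => (T.orderEmbOfFin hTc i), fun a b hab => (T.orderEmbOfFin hTc).injective hab,
    fun i => ?_⟩
  have h2 := hT (Finset.orderEmbOfFin_mem T hTc i)
  rw [Finset.mem_filter, Finset.mem_range] at h2
  exact h2

/-- **Gadgets next to missing vertices.** -/
theorem glM (k : ℕ) : GlM.{u} k := by
  classical
  intro β D
  choose mM δM hM using fun (sm : ℕ × Fin 4) =>
    clsK_dir.{u} k (2 * (sm.1 + 6) + 1) sm.2 (by omega) sm.2.2
  choose mX δX hX using fun s : ℕ => clsK_mix.{u} k (2 * (s + 6) + 1) (by omega)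
  obtain ⟨mL, hmL1, hmL2⟩ : ∃ mL : ℕ → ℕ, (∀ s, ∀ m : Fin 4, mM (s, m) ≤ mL s) ∧
      ∀ s, mX s ≤ mL s := by
    refine ⟨fun s => mX s + ∑ m : Fin 4, mM (s, m), fun s m => ?_, fun s => Nat.le_add_right _ _⟩
    have h1 := Finset.single_le_sum (f := fun m : Fin 4 => mM (s, m))
      (fun _ _ => Nat.zero_le _) (Finset.mem_univ m)
    simp only at h1 ⊢
    omega
  obtain ⟨δL, hδL1, hδL2⟩ : ∃ δL : ℕ → ℕ, (∀ s, ∀ m : Fin 4, δM (s, m) + 2 ≤ δL s) ∧
      ∀ s, δX s + 2 ≤ δL s := by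
    refine ⟨fun s => δX s + 2 + ∑ m : Fin 4, δM (s, m), fun s m => ?_,
      fun s => Nat.le_add_right _ _⟩
    have h1 := Finset.single_le_sum (f := fun m : Fin 4 => δM (s, m))
      (fun _ _ => Nat.zero_le _) (Finset.mem_univ m)
    simp only at h1 ⊢
    omega
  obtain ⟨J, sc, hmono, hsc, hscale⟩ := scales β 0 (fun s => 2 * (s + 6) + 1 + δL s + s + 20)
  obtain ⟨Nm, hNm⟩ : ∃ Nm, Nm = (Finset.range J).sup (fun j => 5 * mL (sc j)) + 2 := ⟨_, rfl⟩
  obtain ⟨m, hm⟩ := hscale Nm (by omega)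
  obtain ⟨δ, hδ⟩ : ∃ δ, δ = D + 12 + 4 * (Nm * β) * sc J + sc J + 1 := ⟨_, rfl⟩
  refine ⟨m, δ, ?_⟩
  intro α P _ S ends X n K hB hG z N₀ A hz hN₀ hAd hKA hKu hpriv hlegs
  obtain ⟨N, hN⟩ : ∃ N : ℕ → Finset (ℕ × ℕ), ∀ t (ht : t < m), N t = N₀ ⟨t, ht⟩ :=
    ⟨fun t => if ht : t < m then N₀ ⟨t, ht⟩ else ∅, fun t ht => by simp only [dif_pos ht]⟩
  have hNc : ∀ t, t < m → (N t).card ≤ β := by
    intro t ht
    rw [hN t ht]
    exact (hN₀ _).1
  obtain ⟨j, hj, f, hf1, hf2, hf3⟩ := hm N ∅ hNc (by simp)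
  obtain ⟨s, hs⟩ : ∃ s, s = sc j := ⟨_, rfl⟩
  obtain ⟨s', hs'⟩ : ∃ s', s' = sc (j + 1) := ⟨_, rfl⟩
  have hss := hsc j
  rw [← hs, ← hs'] at hss
  have hs'J : s' ≤ sc J := by rw [hs']; exact hmono (by omega)
  have hmL : 5 * mL s + 2 ≤ Nm := by
    have h1 : 5 * mL (sc j) ≤ (Finset.range J).sup (fun j => 5 * mL (sc j)) :=
      Finset.le_sup (f := fun j => 5 * mL (sc j)) (Finset.mem_range.2 hj)
    rw [hs, hNm]
    omega
  have hfi : ∀ i i', i < Nm → i' < Nm → f i = f i' → i = i' := by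
    intro i i' hi hi' heq
    by_contra hne
    rcases Nat.lt_or_gt_of_ne hne with h2 | h2
    · have := hf2 _ _ h2 hi'
      omega
    · have := hf2 _ _ h2 hi
      omega
  -- the frame
  obtain ⟨T, hT⟩ : ∃ T : Finset ℕ, T = ((Finset.range Nm).biUnion fun i => N (f i)).biUnion
      fun p => {p.1 - X.1, p.2 - X.2, X.1 + n - p.1, X.2 + n - p.2} := ⟨_, rfl⟩
  have hTc : T.card ≤ 4 * (Nm * β) := by
    rw [hT]
    refine (Finset.card_biUnion_le_card_mul _ _ 4 ?_).trans ?_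
    · intro p _
      exact Finset.card_le_four
    · rw [mul_comm]
      refine Nat.mul_le_mul_left _ ?_
      refine (Finset.card_biUnion_le_card_mul _ _ β (fun i hi => hNc _ (hf1 i
        (Finset.mem_range.1 hi)))).trans ?_
      rw [Finset.card_range]
  have hs'1 : 1 ≤ s' := by omega
  obtain ⟨w₀, hw1, hw2, hw3⟩ := zone T (D + 12) s' hs'1
  have hw4 : w₀ + s' ≤ δ := by
    have h1 : T.card * s' ≤ 4 * (Nm * β) * sc J := Nat.mul_le_mul hTc hs'J
    omega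
  have hzone : ∀ p, (∃ i < Nm, p ∈ N (f i)) →
      (p.1 < X.1 + w₀ ∨ X.1 + w₀ + s' ≤ p.1) ∧ (p.2 < X.2 + w₀ ∨ X.2 + w₀ + s' ≤ p.2) ∧
      (X.1 + n < p.1 + w₀ ∨ p.1 + w₀ + s' ≤ X.1 + n) ∧
      (X.2 + n < p.2 + w₀ ∨ p.2 + w₀ + s' ≤ X.2 + n) := by
    rintro p ⟨i, hi, hp⟩
    have hpT : ∀ c ∈ ({p.1 - X.1, p.2 - X.2, X.1 + n - p.1, X.2 + n - p.2} : Finset ℕ),
        ¬ (w₀ ≤ c ∧ c < w₀ + s') := by
      intro c hc
      refine hw3 c ?_
      rw [hT]
      exact Finset.mem_biUnion.2 ⟨p, Finset.mem_biUnion.2 ⟨i, Finset.mem_range.2 hi, hp⟩, hc⟩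
    have h1 := hpT (p.1 - X.1) (by simp)
    have h2 := hpT (p.2 - X.2) (by simp)
    have h3 := hpT (X.1 + n - p.1) (by simp)
    have h4 := hpT (X.2 + n - p.2) (by simp)
    omega
  -- legs at the scale
  have hlegs' : ∀ i (hi : i < Nm), HasLegs (K : Set (ℕ × ℕ))
      (CWL.Loc P S ends (z ⟨f i, hf1 i hi⟩)) (A ⟨f i, hf1 i hi⟩) s := by
    intro i hi
    refine hlegs _ s (by omega) ?_
    intro v hv w hw
    rw [← hN _ (hf1 i hi)] at hv hw
    rcases hf3 v w (Or.inr ⟨i, hi, hv⟩) (Or.inr ⟨i, hi, hw⟩) with h1 | h1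
    · left
      rw [hs]
      exact h1
    · right
      rw [← hs'] at h1
      omega
  have hn2 : 2 * (w₀ + s') ≤ n := by
    have h1 : ∀ c ∈ A ⟨f 0, hf1 0 (by omega)⟩, 2 * (w₀ + s') ≤ n := by
      intro c hc
      have h2 := (hAd _).2 c hc
      unfold Deep at h2
      omega
    rcases hlegs' 0 (by omega) with ⟨c, hc, _⟩ | ⟨c, hc, _⟩
    · exact h1 c hc
    · exact h1 c hc
  have hKd : ∀ v ∈ K, Deep X n (w₀ + s') v := by
    intro v hv
    obtain ⟨t, ht⟩ := hKA v hv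
    have h2 := (hAd _).2 v ht
    unfold Deep at h2 ⊢
    omega
  have hKs : ∀ v ∈ K, ∀ w ∈ K, v ≠ w → s' < sd v w := by
    intro v hv w hw hne
    obtain ⟨t, ht⟩ := hKA v hv
    obtain ⟨t', ht'⟩ := hKA w hw
    by_cases htt : t = t'
    · subst htt
      exact absurd (hKu t v hv w hw ht ht') hne
    · have h1 := apart_iff.1 (hpriv t t' htt v ht w ((hAd t').1 ht'))
      omega
  -- the family at the scale, for every subfamily
  have key : ∀ (N' : ℕ) (g : Fin N' → ℕ) (hg : Function.Injective g) (hgN : ∀ i, g i < Nm)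
      (Bs : Fin N' → Finset (ℕ × ℕ)) (δ₀ : ℕ), δ₀ ≤ δL s →
      (∀ i, (Bs i).Nonempty ∧ Bs i ⊆ A ⟨f (g i), hf1 _ (hgN i)⟩) →
      ∃ (Gr : Set (ℕ × ℕ)) (X' : ℕ × ℕ) (n' : ℕ) (E : Finset (ℕ × ℕ)) (sq : ℕ × ℕ → ℕ × ℕ)
        (K' : Set (ℕ × ℕ)),
        FamK P S ends (rect X.1 X.2 n n \ (K : Set (ℕ × ℕ))) Gr X' n' (2 * (s + 6) + 1) δ₀ E
          (fun i => z ⟨f (g i), hf1 _ (hgN i)⟩) (fun t => (Bs t).image sq) K' ∧
        (∀ v ∈ rect X.1 X.2 n n \ (K : Set (ℕ × ℕ)),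
          v.1 < 2 * X'.1 + n' ∧ v.2 < 2 * X'.2 + n') ∧
        (∀ t, ∀ c ∈ Bs t, ∀ T st, Legs (K : Set (ℕ × ℕ))
          (CWL.Loc P S ends (z ⟨f (g t), hf1 _ (hgN t)⟩)) c s T st →
          LegsP (sq c) (2 * (s + 6) + 1) T (CWL.Loc P S ends (z ⟨f (g t), hf1 _ (hgN t)⟩) ∩
            rect (sq c).1 (sq c).2 (2 * (s + 6) + 1) (2 * (s + 6) + 1)) K' st) ∧
        ∀ t, ∀ c ∈ Bs t, ∀ c' ∈ Bs t, s < sd c c' → sq c ≠ sq c' := by
    intro N' g hg hgN Bs δ₀ hδ₀ hBs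
    have hNN : ∀ i, N (f (g i)) = N₀ ⟨f (g i), hf1 _ (hgN i)⟩ := fun i => hN _ _
    have hBA : ∀ i, ∀ v ∈ Bs i, v ∈ A ⟨f (g i), hf1 _ (hgN i)⟩ := fun i v hv => (hBs i).2 hv
    have hmix : ∀ p ∈ K, ∀ i, ∀ q ∈ N (f (g i)), sd p q ≤ s ∨ s' < sd p q := by
      intro p hp i q hq
      obtain ⟨t, ht⟩ := hKA p hp
      by_cases htt : t = ⟨f (g i), hf1 _ (hgN i)⟩
      · subst htt
        have h1 : p ∈ N (f (g i)) := by
          rw [hNN]
          exact (hAd _).1 ht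
        rw [hs, hs']
        exact hf3 p q (Or.inr ⟨g i, hgN i, h1⟩) (Or.inr ⟨g i, hgN i, hq⟩)
      · rw [hNN] at hq
        have h1 := apart_iff.1 (hpriv t _ htt p ht q hq)
        right
        omega
    refine famK_of (ι := Fin N') (D := D) (s := s) (s' := s') (w₀ := w₀) hB hG rfl hss.1
      (by omega) (fun i => N (f (g i))) (fun i => z ⟨f (g i), hf1 _ (hgN i)⟩) Bs
      (fun i => hz _) ?_ ?_ hKd hKs ?_ (by omega) hn2 ?_ ?_
    · intro i v hv hvd
      rw [hNN]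
      exact (hN₀ _).2 v hv hvd
    · intro i
      refine ⟨(hBs i).1, fun v hv => ?_⟩
      have h1 := hBA i v hv
      refine ⟨?_, ?_⟩
      · rw [hNN]
        exact (hAd _).1 h1
      · have h2 := (hAd _).2 v h1
        unfold Deep at h2 ⊢
        omega
    · rintro p q (hp | ⟨i, hp⟩) (hq | ⟨i', hq⟩)
      · by_cases hpq : p = q
        · left
          rw [hpq, sd_self]
          omega
        · right
          exact hKs p hp q hq hpq
      · exact hmix p hp i' q hq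
      · rw [sd_comm]
        exact hmix q hq i p hp
      · rw [hs, hs']
        exact hf3 p q (Or.inr ⟨g i, hgN i, hp⟩) (Or.inr ⟨g i', hgN i', hq⟩)
    · rintro p ⟨i, hp⟩
      exact hzone p ⟨g i, hgN i, hp⟩
    · intro i i' hne v hv w hw
      rw [hNN] at hw
      have h1 := apart_iff.1 (hpriv _ _ (fun h => hne (hg (hfi _ _ (hgN i) (hgN i')
        (congrArg Fin.val h)))) v (hBA i v hv) w hw)
      omega
  -- the types
  have htype : ∀ i, ∃ y < 5, ∀ hi : i < Nm,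
      (y < 4 → ∃ c ∈ A ⟨f i, hf1 i hi⟩, ∃ st, Legs (K : Set (ℕ × ℕ))
        (CWL.Loc P S ends (z ⟨f i, hf1 i hi⟩)) c s (fun d => d ≠ y) st) ∧
      (y = 4 → ∃ c ∈ A ⟨f i, hf1 i hi⟩, ∃ c' ∈ A ⟨f i, hf1 i hi⟩, s < sd c c' ∧
        (∃ st, Legs (K : Set (ℕ × ℕ)) (CWL.Loc P S ends (z ⟨f i, hf1 i hi⟩)) c s
          (fun d => d = 0 ∨ d = 1) st) ∧
        ∃ st, Legs (K : Set (ℕ × ℕ)) (CWL.Loc P S ends (z ⟨f i, hf1 i hi⟩)) c' s
          (fun d => d = 0) st) := by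
    intro i
    by_cases hi : i < Nm
    · rcases hlegs' i hi with ⟨c, hc, y, hy, st, h1⟩ | h1
      · exact ⟨y, by omega, fun _ => ⟨fun _ => ⟨c, hc, st, h1⟩, fun h => by omega⟩⟩
      · exact ⟨4, by omega, fun _ => ⟨fun h => by omega, fun _ => h1⟩⟩
    · exact ⟨0, by omega, fun h => absurd h hi⟩
  choose col hcol1 hcol2 using htype
  obtain ⟨y, hy, hfib⟩ := fibre (mL s) 5 col (fun i _ => hcol1 i) (by omega)
  by_cases hy4 : y = 4
  · -- mix
    obtain ⟨g, hg1, hg2⟩ := hfib (mX s) (hmL2 s)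
    have hgN : ∀ i, g i < Nm := fun i => by have := (hg2 i).1; omega
    have h1 := fun i => (hcol2 (g i) (hgN i)).2 ((hg2 i).2.trans hy4)
    choose c hc c' hc' hcc hst hst' using h1
    obtain ⟨Gr, X', n', E, sq, K', h2, h3, h4, h5⟩ := key (mX s) g hg1 hgN
      (fun i => {c i, c' i}) (δX s + 2) (hδL2 s) (fun i => ⟨⟨c i, Finset.mem_insert_self _ _⟩, by
        intro v hv
        rw [Finset.mem_insert, Finset.mem_singleton] at hv
        rcases hv with rfl | rfl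
        · exact hc i
        · exact hc' i⟩)
    have hm1 : ∀ i, c i ∈ ({c i, c' i} : Finset (ℕ × ℕ)) := fun i => Finset.mem_insert_self _ _
    have hm2 : ∀ i, c' i ∈ ({c i, c' i} : Finset (ℕ × ℕ)) := fun i =>
      Finset.mem_insert_of_mem (Finset.mem_singleton_self _)
    have hqs : (fun t => (({c t, c' t} : Finset (ℕ × ℕ)).image sq)) =
        fun t => ({sq (c t), sq (c' t)} : Finset (ℕ × ℕ)) := by
      funext t
      rw [Finset.image_insert, Finset.image_singleton]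
    rw [hqs] at h2
    have hb := fun c' hc' => h2.bd c' (Or.inr hc')
    refine hX s P S ends _ Gr X' n' E _
      (fun t i => if i = 0 then sq (c t) else sq (c' t)) K' (h2.mono (by omega))
      (fun t => ?_) (fun t => ?_) (fun t => ?_)
    · simp only [Fin.isValue, ↓reduceIte, one_ne_zero]
      exact h5 t _ (hm1 t) _ (hm2 t) (hcc t)
    · simp only [Fin.isValue, ↓reduceIte]
      obtain ⟨st, h6⟩ := hst t
      have h7 := h4 t _ (hm1 t) _ _ h6
      have h8 := hb (sq (c t)) ⟨t, Finset.mem_insert_self _ _⟩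
      refine ⟨st, h7.ok (by omega) le_rfl (fun d _ => by omega) ?_⟩
      exact h2.kb (by omega) (t := t) (Finset.mem_insert_self _ _)
    · simp only [Fin.isValue, one_ne_zero, ↓reduceIte]
      obtain ⟨st, h6⟩ := hst' t
      have h7 := h4 t _ (hm2 t) _ _ h6
      have h8 := hb (sq (c' t)) ⟨t, Finset.mem_insert_of_mem (Finset.mem_singleton_self _)⟩
      refine ⟨st, h7.ok (by omega) (by omega) (fun d _ => by omega) ?_⟩
      exact h2.kb (by omega) (t := t) (Finset.mem_insert_of_mem (Finset.mem_singleton_self _))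
  · -- near
    have hy' : y < 4 := by omega
    obtain ⟨g, hg1, hg2⟩ := hfib (mM (s, ⟨y, hy'⟩)) (hmL1 s _)
    have hgN : ∀ i, g i < Nm := fun i => by have := (hg2 i).1; omega
    have h1 := fun i => (hcol2 (g i) (hgN i)).1 (by rw [(hg2 i).2]; exact hy')
    choose c hc hst using h1
    obtain ⟨Gr, X', n', E, sq, K', h2, h3, h4, h5⟩ := key _ g hg1 hgN
      (fun i => {c i}) (δM (s, ⟨y, hy'⟩)) (by have := hδL1 s ⟨y, hy'⟩; omega)
      (fun i => ⟨⟨c i, Finset.mem_singleton_self _⟩, by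
        intro v hv
        rw [Finset.mem_singleton] at hv
        subst hv
        exact hc i⟩)
    have hqs : (fun t => (({c t} : Finset (ℕ × ℕ)).image sq)) =
        fun t => ({sq (c t)} : Finset (ℕ × ℕ)) := by
      funext t
      rw [Finset.image_singleton]
    rw [hqs] at h2
    refine hM (s, ⟨y, hy'⟩) P S ends _ Gr X' n' E _ (fun t => sq (c t)) K' h2 h3 ?_
    intro t
    obtain ⟨st, h6⟩ := hst t
    rw [(hg2 t).2] at h6
    exact ⟨st, (h4 t _ (Finset.mem_singleton_self _) _ _ h6).legsQ⟩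

end DA
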