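import Pool.Agent.DA.GlM

/-!
# Gadgets next to missing vertices, at a fixed scale
-/

open Set BIC BICS
open scoped Matroid

namespace DA

open Gad

universe u

/-- STATEMENT glMs: gadgets next to missing vertices, over a square grid, at the fixed scale `s`:
the points of all `N t` are at distance at most `s` or more than `s'`. -/
def GlMs (k : ℕ) : Prop :=
  ∀ β D s : ℕ, ∃ m s₀ : ℕ, ∀ s', s₀ ≤ s' → ∃ δ : ℕ, ∀ {α : Type u} (P : Matroid α) [P.Finite]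
    (S : Set α) (ends : α → Sym2 (ℕ × ℕ)) (X : ℕ × ℕ) (n : ℕ) (K : Finset (ℕ × ℕ)),
    Bic P S ends → CWL.GrdU S ends (rect X.1 X.2 n n \ (K : Set (ℕ × ℕ))) →
    ∀ (z : Fin m → α) (N A : Fin m → Finset (ℕ × ℕ)), (∀ t, z t ∈ P.closure S ∧ z t ∉ S) →
    (∀ t, (N t).card ≤ β ∧ ∀ v ∈ CWL.Loc P S ends (z t), Deep X n D v → v ∈ N t) →
    (∀ t t', ∀ v ∈ N t, ∀ w ∈ N t', sd v w ≤ s ∨ s' < sd v w) →
    (∀ t, A t ⊆ N t ∧ ∀ v ∈ A t, Deep X n δ v) → (∀ v ∈ K, ∃ t, v ∈ A t) →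
    (∀ t, ∀ v ∈ K, ∀ w ∈ K, v ∈ A t → w ∈ A t → v = w) →
    (∀ t t', t ≠ t' → ∀ v ∈ A t, ∀ w ∈ N t', s' < sd v w) →
    (∀ t, HasLegs (K : Set (ℕ × ℕ)) (CWL.Loc P S ends (z t)) (A t) s) → HasUniformMinor P k

/-- **Gadgets next to missing vertices, at a fixed scale.** -/
theorem glMs (k : ℕ) : GlMs.{u} k := by
  classical
  intro β D s
  choose mM δM hM using fun (sm : ℕ × Fin 4) =>
    clsK_dir.{u} k (2 * (sm.1 + 6) + 1) sm.2 (by omega) sm.2.2
  choose mX δX hX using fun s : ℕ => clsK_mix.{u} k (2 * (s + 6) + 1) (by omega)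
  obtain ⟨mL, hmL1, hmL2⟩ : ∃ mL : ℕ → ℕ, (∀ s, ∀ m : Fin 4, mM (s, m) ≤ mL s) ∧
      ∀ s, mX s ≤ mL s := by
    refine ⟨fun s => mX s + ∑ m : Fin 4, mM (s, m), fun s m => ?_, fun s => Nat.le_add_right _ _⟩
    have h1 := Finset.single_le_sum (f := fun m : Fin 4 => mM (s, m))
      (fun _ _ => Nat.zero_le _) (Finset.mem_univ m)
    simp only at h1 ⊢
    omega
  obtain ⟨δL, hδL1, hδL2⟩ : ∃ δL : ℕ → ℕ, (∀ s, ∀ m : Fin 4, δM (s, m) + 2 ≤ δL s) ∧
      ∀ s, δX s + 2 ≤ δL s := by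
    refine ⟨fun s => δX s + 2 + ∑ m : Fin 4, δM (s, m), fun s m => ?_,
      fun s => Nat.le_add_right _ _⟩
    have h1 := Finset.single_le_sum (f := fun m : Fin 4 => δM (s, m))
      (fun _ _ => Nat.zero_le _) (Finset.mem_univ m)
    simp only at h1 ⊢
    omega
  obtain ⟨Nm, hNm⟩ : ∃ Nm, Nm = 5 * mL s + 1 := ⟨_, rfl⟩
  refine ⟨Nm, 2 * (s + 6) + 1 + δL s + 2 * s + 20, ?_⟩
  intro s' hs'
  obtain ⟨δ, hδ⟩ : ∃ δ, δ = D + 12 + 4 * (Nm * β) * s' + s' + 1 := ⟨_, rfl⟩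
  refine ⟨δ, ?_⟩
  intro α P _ S ends X n K hB hG z N A hz hN hgap0 hAd hKA hKu hpriv hlegs
  -- the frame
  obtain ⟨T, hT⟩ : ∃ T : Finset ℕ, T = (Finset.univ.biUnion N).biUnion
      fun p => {p.1 - X.1, p.2 - X.2, X.1 + n - p.1, X.2 + n - p.2} := ⟨_, rfl⟩
  have hTc : T.card ≤ 4 * (Nm * β) := by
    rw [hT]
    refine (Finset.card_biUnion_le_card_mul _ _ 4 ?_).trans ?_
    · intro p _
      exact Finset.card_le_four
    · rw [mul_comm]
      refine Nat.mul_le_mul_left _ ?_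
      refine (Finset.card_biUnion_le_card_mul _ _ β (fun i _ => (hN i).1)).trans ?_
      rw [Finset.card_univ, Fintype.card_fin]
  have hs'1 : 1 ≤ s' := by omega
  obtain ⟨w₀, hw1, hw2, hw3⟩ := zone T (D + 12) s' hs'1
  have hw4 : w₀ + s' ≤ δ := by
    have h1 : T.card * s' ≤ 4 * (Nm * β) * s' := Nat.mul_le_mul hTc le_rfl
    omega
  have hzone : ∀ p, (∃ i, p ∈ N i) →
      (p.1 < X.1 + w₀ ∨ X.1 + w₀ + s' ≤ p.1) ∧ (p.2 < X.2 + w₀ ∨ X.2 + w₀ + s' ≤ p.2) ∧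
      (X.1 + n < p.1 + w₀ ∨ p.1 + w₀ + s' ≤ X.1 + n) ∧
      (X.2 + n < p.2 + w₀ ∨ p.2 + w₀ + s' ≤ X.2 + n) := by
    rintro p ⟨i, hp⟩
    have hpT : ∀ c ∈ ({p.1 - X.1, p.2 - X.2, X.1 + n - p.1, X.2 + n - p.2} : Finset ℕ),
        ¬ (w₀ ≤ c ∧ c < w₀ + s') := by
      intro c hc
      refine hw3 c ?_
      rw [hT]
      exact Finset.mem_biUnion.2 ⟨p, Finset.mem_biUnion.2 ⟨i, Finset.mem_univ _, hp⟩, hc⟩
    have h1 := hpT (p.1 - X.1) (by simp)
    have h2 := hpT (p.2 - X.2) (by simp)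
    have h3 := hpT (X.1 + n - p.1) (by simp)
    have h4 := hpT (X.2 + n - p.2) (by simp)
    omega
  have hn2 : 2 * (w₀ + s') ≤ n := by
    have h1 : ∀ c ∈ A ⟨0, by omega⟩, 2 * (w₀ + s') ≤ n := by
      intro c hc
      have h2 := (hAd _).2 c hc
      unfold Deep at h2
      omega
    rcases hlegs ⟨0, by omega⟩ with ⟨c, hc, _⟩ | ⟨c, hc, _⟩
    · exact h1 c hc
    · exact h1 c hc
  have hKd : ∀ v ∈ K, Deep X n (w₀ + s') v := by
    intro v hv
    obtain ⟨t, ht⟩ := hKA v hv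
    have h2 := (hAd _).2 v ht
    unfold Deep at h2 ⊢
    omega
  have hKs : ∀ v ∈ K, ∀ w ∈ K, v ≠ w → s' < sd v w := by
    intro v hv w hw hne
    obtain ⟨t, ht⟩ := hKA v hv
    obtain ⟨t', ht'⟩ := hKA w hw
    by_cases htt : t = t'
    · subst htt
      exact absurd (hKu t v hv w hw ht ht') hne
    · exact hpriv t t' htt v ht w ((hAd t').1 ht')
  -- the family at the scale, for every subfamily
  have key : ∀ (N' : ℕ) (g : Fin N' → Fin Nm) (hg : Function.Injective g)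
      (Bs : Fin N' → Finset (ℕ × ℕ)) (δ₀ : ℕ), δ₀ ≤ δL s →
      (∀ i, (Bs i).Nonempty ∧ Bs i ⊆ A (g i)) →
      ∃ (Gr : Set (ℕ × ℕ)) (X' : ℕ × ℕ) (n' : ℕ) (E : Finset (ℕ × ℕ)) (sq : ℕ × ℕ → ℕ × ℕ)
        (K' : Set (ℕ × ℕ)),
        FamK P S ends (rect X.1 X.2 n n \ (K : Set (ℕ × ℕ))) Gr X' n' (2 * (s + 6) + 1) δ₀ E
          (fun i => z (g i)) (fun t => (Bs t).image sq) K' ∧
        (∀ v ∈ rect X.1 X.2 n n \ (K : Set (ℕ × ℕ)),
          v.1 < 2 * X'.1 + n' ∧ v.2 < 2 * X'.2 + n') ∧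
        (∀ t, ∀ c ∈ Bs t, ∀ T st, Legs (K : Set (ℕ × ℕ))
          (CWL.Loc P S ends (z (g t))) c s T st →
          LegsP (sq c) (2 * (s + 6) + 1) T (CWL.Loc P S ends (z (g t)) ∩
            rect (sq c).1 (sq c).2 (2 * (s + 6) + 1) (2 * (s + 6) + 1)) K' st) ∧
        ∀ t, ∀ c ∈ Bs t, ∀ c' ∈ Bs t, s < sd c c' → sq c ≠ sq c' := by
    intro N' g hg Bs δ₀ hδ₀ hBs
    have hBA : ∀ i, ∀ v ∈ Bs i, v ∈ A (g i) := fun i v hv => (hBs i).2 hv
    have hmix : ∀ p ∈ K, ∀ i, ∀ q ∈ N (g i), sd p q ≤ s ∨ s' < sd p q := by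
      intro p hp i q hq
      obtain ⟨t, ht⟩ := hKA p hp
      exact hgap0 t (g i) p ((hAd t).1 ht) q hq
    refine famK_of (ι := Fin N') (D := D) (s := s) (s' := s') (w₀ := w₀) hB hG rfl (by omega)
      (by omega) (fun i => N (g i)) (fun i => z (g i)) Bs
      (fun i => hz _) ?_ ?_ hKd hKs ?_ (by omega) hn2 ?_ ?_
    · intro i v hv hvd
      exact (hN _).2 v hv hvd
    · intro i
      refine ⟨(hBs i).1, fun v hv => ?_⟩
      have h1 := hBA i v hv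
      refine ⟨(hAd _).1 h1, ?_⟩
      have h2 := (hAd _).2 v h1
      unfold Deep at h2 ⊢
      omega
    · rintro p q (hp | ⟨i, hp⟩) (hq | ⟨i', hq⟩)
      · by_cases hpq : p = q
        · left
          rw [hpq, sd_self]
          omega
        · right
          exact hKs p hp q hq hpq
      · exact hmix p hp i' q hq
      · rw [sd_comm]
        exact hmix q hq i p hp
      · exact hgap0 _ _ p hp q hq
    · rintro p ⟨i, hp⟩
      exact hzone p ⟨g i, hp⟩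
    · intro i i' hne v hv w hw
      exact hpriv _ _ (fun h => hne (hg h)) v (hBA i v hv) w hw
  -- the types
  have htype : ∀ i, ∃ y < 5, ∀ hi : i < Nm,
      (y < 4 → ∃ c ∈ A ⟨i, hi⟩, ∃ st, Legs (K : Set (ℕ × ℕ))
        (CWL.Loc P S ends (z ⟨i, hi⟩)) c s (fun d => d ≠ y) st) ∧
      (y = 4 → ∃ c ∈ A ⟨i, hi⟩, ∃ c' ∈ A ⟨i, hi⟩, s < sd c c' ∧
        (∃ st, Legs (K : Set (ℕ × ℕ)) (CWL.Loc P S ends (z ⟨i, hi⟩)) c s
          (fun d => d = 0 ∨ d = 1) st) ∧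
        ∃ st, Legs (K : Set (ℕ × ℕ)) (CWL.Loc P S ends (z ⟨i, hi⟩)) c' s
          (fun d => d = 0) st) := by
    intro i
    by_cases hi : i < Nm
    · rcases hlegs ⟨i, hi⟩ with ⟨c, hc, y, hy, st, h1⟩ | h1
      · exact ⟨y, by omega, fun _ => ⟨fun _ => ⟨c, hc, st, h1⟩, fun h => by omega⟩⟩
      · exact ⟨4, by omega, fun _ => ⟨fun h => by omega, fun _ => h1⟩⟩
    · exact ⟨0, by omega, fun h => absurd h hi⟩
  choose col hcol1 hcol2 using htype
  obtain ⟨y, hy, hfib⟩ := fibre (mL s) 5 col (fun i _ => hcol1 i) (by omega)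
  by_cases hy4 : y = 4
  · -- mix
    obtain ⟨g0, hg01, hg02⟩ := hfib (mX s) (hmL2 s)
    have hgN : ∀ i, g0 i < Nm := fun i => by have := (hg02 i).1; omega
    obtain ⟨g, hg⟩ : ∃ g : Fin (mX s) → Fin Nm, g = fun i => ⟨g0 i, hgN i⟩ := ⟨_, rfl⟩
    have hg1 : Function.Injective g := by
      intro a b hab
      rw [hg] at hab
      exact hg01 (congrArg Fin.val hab)
    have h1 : ∀ i, _ := fun i => (hcol2 (g0 i) (hgN i)).2 ((hg02 i).2.trans hy4)
    have hgi : ∀ i, (⟨g0 i, hgN i⟩ : Fin Nm) = g i := fun i => by rw [hg]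
    simp only [hgi] at h1
    choose c hc c' hc' hcc hst hst' using h1
    obtain ⟨Gr, X', n', E, sq, K', h2, h3, h4, h5⟩ := key (mX s) g hg1
      (fun i => {c i, c' i}) (δX s + 2) (hδL2 s) (fun i => ⟨⟨c i, Finset.mem_insert_self _ _⟩, by
        intro v hv
        rw [Finset.mem_insert, Finset.mem_singleton] at hv
        rcases hv with rfl | rfl
        · exact hc i
        · exact hc' i⟩)
    have hm1 : ∀ i, c i ∈ ({c i, c' i} : Finset (ℕ × ℕ)) := fun i => Finset.mem_insert_self _ _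
    have hm2 : ∀ i, c' i ∈ ({c i, c' i} : Finset (ℕ × ℕ)) := fun i =>
      Finset.mem_insert_of_mem (Finset.mem_singleton_self _)
    have hqs : (fun t => (({c t, c' t} : Finset (ℕ × ℕ)).image sq)) =
        fun t => ({sq (c t), sq (c' t)} : Finset (ℕ × ℕ)) := by
      funext t
      rw [Finset.image_insert, Finset.image_singleton]
    rw [hqs] at h2
    have hb := fun c' hc' => h2.bd c' (Or.inr hc')
    refine hX s P S ends _ Gr X' n' E _
      (fun t i => if i = 0 then sq (c t) else sq (c' t)) K' (h2.mono (by omega))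
      (fun t => ?_) (fun t => ?_) (fun t => ?_)
    · simp only [Fin.isValue, ↓reduceIte, one_ne_zero]
      exact h5 t _ (hm1 t) _ (hm2 t) (hcc t)
    · simp only [Fin.isValue, ↓reduceIte]
      obtain ⟨st, h6⟩ := hst t
      have h7 := h4 t _ (hm1 t) _ _ h6
      have h8 := hb (sq (c t)) ⟨t, Finset.mem_insert_self _ _⟩
      refine ⟨st, h7.ok (by omega) le_rfl (fun d _ => by omega) ?_⟩
      exact h2.kb (by omega) (t := t) (Finset.mem_insert_self _ _)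
    · simp only [Fin.isValue, one_ne_zero, ↓reduceIte]
      obtain ⟨st, h6⟩ := hst' t
      have h7 := h4 t _ (hm2 t) _ _ h6
      have h8 := hb (sq (c' t)) ⟨t, Finset.mem_insert_of_mem (Finset.mem_singleton_self _)⟩
      refine ⟨st, h7.ok (by omega) (by omega) (fun d _ => by omega) ?_⟩
      exact h2.kb (by omega) (t := t) (Finset.mem_insert_of_mem (Finset.mem_singleton_self _))
  · -- near
    have hy' : y < 4 := by omega
    obtain ⟨g0, hg01, hg02⟩ := hfib (mM (s, ⟨y, hy'⟩)) (hmL1 s _)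
    have hgN : ∀ i, g0 i < Nm := fun i => by have := (hg02 i).1; omega
    obtain ⟨g, hg⟩ : ∃ g : Fin (mM (s, ⟨y, hy'⟩)) → Fin Nm, g = fun i => ⟨g0 i, hgN i⟩ := ⟨_, rfl⟩
    have hg1 : Function.Injective g := by
      intro a b hab
      rw [hg] at hab
      exact hg01 (congrArg Fin.val hab)
    have h1 : ∀ i, _ := fun i => (hcol2 (g0 i) (hgN i)).1 (by rw [(hg02 i).2]; exact hy')
    have hgi : ∀ i, (⟨g0 i, hgN i⟩ : Fin Nm) = g i := fun i => by rw [hg]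
    simp only [hgi] at h1
    choose c hc hst using h1
    obtain ⟨Gr, X', n', E, sq, K', h2, h3, h4, h5⟩ := key _ g hg1
      (fun i => {c i}) (δM (s, ⟨y, hy'⟩)) (by have := hδL1 s ⟨y, hy'⟩; omega)
      (fun i => ⟨⟨c i, Finset.mem_singleton_self _⟩, by
        intro v hv
        rw [Finset.mem_singleton] at hv
        subst hv
        exact hc i⟩)
    have hqs : (fun t => (({c t} : Finset (ℕ × ℕ)).image sq)) =
        fun t => ({sq (c t)} : Finset (ℕ × ℕ)) := by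
      funext t
      rw [Finset.image_singleton]
    rw [hqs] at h2
    refine hM (s, ⟨y, hy'⟩) P S ends _ Gr X' n' E _ (fun t => sq (c t)) K' h2 h3 ?_
    intro t
    obtain ⟨st, h6⟩ := hst t
    rw [(hg02 t).2] at h6
    exact ⟨st, (h4 t _ (Finset.mem_singleton_self _) _ _ h6).legsQ⟩

end DA
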