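import Pool.Agent.DA.RowS

/-!
# Merging rows of a rectangle
-/

open Set BIC BICS
open scoped Matroid

namespace DA

open Gad

universe u

lemma gq_mono (q : ℕ) : Monotone (gq q) := by
  intro x y h
  unfold gq
  split_ifs <;> omega

/-- **Row RM.** -/
theorem rowMerge : RowMerge.{u} := by
  intro h M
  refine ⟨3 * (M + 20) + h * (2 * (M + 20) + 1) + 60, ?_⟩
  suffices H : ∀ (n : ℕ) {α : Type u} (P : Matroid α) [P.Finite] (S : Set α)
      (ends : α → Sym2 (ℕ × ℕ)) (X : ℕ × ℕ) (a b b' : ℕ) (K : Finset (ℕ × ℕ)) (T : Finset ℕ),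
      b = b' + n →
      Bic P S ends → CWL.GrdU S ends (rect X.1 X.2 a b \ (K : Set (ℕ × ℕ))) → T.card ≤ h →
      (∀ v ∈ K, v.2 ∈ T) → (∀ v ∈ K, DeepR X a b 10 v) →
      (∀ v ∈ K, ∀ v' ∈ K, v ≠ v' → 10 < sd v v') →
      2 ≤ a → 3 * (M + 20) + h * (2 * (M + 20) + 1) + 60 ≤ b' →
      ∃ (Z S' : Set α) (g : ℕ → ℕ), Z ⊆ S ∧ S' ⊆ S ∧ Monotone g ∧ (∀ y, g (y + 1) ≤ g y + 1) ∧
        (∀ y ≤ X.2 + (M + 20), g y = y) ∧ (∀ y, X.2 + b ≤ y + (M + 20) → g y + b = y + b') ∧
        (∀ t ∈ T, ∀ y, t ≤ y + (M + 20) → y ≤ t + (M + 20) → g (y + 1) = g y + 1) ∧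
        Bic (P ／ Z) S' (fun e => (ends e).map (fun v => (v.1, g v.2))) ∧
        CWL.GrdU S' (fun e => (ends e).map (fun v => (v.1, g v.2)))
          (rect X.1 X.2 a b' \ (fun v : ℕ × ℕ => (v.1, g v.2)) '' (K : Set (ℕ × ℕ))) ∧
        ∀ z ∈ P.closure S, z ∉ S → z ∈ (P ／ Z).closure S' ∧ z ∉ S' ∧
          ∀ v : ℕ × ℕ, DeepR X a b' 10 v →
            v ∉ (fun v : ℕ × ℕ => (v.1, g v.2)) '' (K : Set (ℕ × ℕ)) →
            ((∀ p : ℕ × ℕ, (p.1, g p.2) = v → p ∉ CWL.Loc P S ends z) →
              v ∉ CWL.Loc (P ／ Z) S' (fun e => (ends e).map (fun v => (v.1, g v.2))) z) ∧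
            ∀ p : ℕ × ℕ, (p.1, g p.2) = v → p ∈ CWL.Loc P S ends z →
              (∀ p' : ℕ × ℕ, (p'.1, g p'.2) = v → p' ≠ p → p' ∉ CWL.Loc P S ends z) →
              v ∈ CWL.Loc (P ／ Z) S' (fun e => (ends e).map (fun v => (v.1, g v.2))) z by
    intro α P _ S ends X a b b' K T hB hG hT hKT hKd hKs ha hb' hbb
    obtain ⟨Z, S', g, h1, h2, h3, h4, h5, h6, h7, h8, h9, h10⟩ := H (b - b') P S ends X a b b' K T
      (by omega) hB hG hT hKT hKd hKs (by omega) hb'
    exact ⟨Z, S', g, h1, h2, h3, h4, fun y hy => h5 y (by omega), fun y hy => h6 y (by omega),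
      fun t ht y k1 k2 => h7 t ht y (by omega) (by omega), h8, h9, h10⟩
  intro n
  induction n with
  | zero =>
    intro α P _ S ends X a b b' K T hbb hB hG hT hKT hKd hKs ha hb'
    have hb : b = b' := by omega
    subst hb
    have e1 : (fun e => (ends e).map (fun v : ℕ × ℕ => (v.1, v.2))) = ends := by
      funext e
      change Sym2.map (fun v => v) (ends e) = ends e
      rw [Sym2.map_id']
      rfl
    have e2 : (fun v : ℕ × ℕ => (v.1, v.2)) '' (K : Set (ℕ × ℕ)) = K := image_id' _
    refine ⟨∅, S, fun y => y, empty_subset _, Subset.rfl, monotone_id, fun y => le_refl _,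
      fun y _ => rfl, fun y _ => rfl, fun t _ y _ _ => rfl, ?_, ?_, ?_⟩
    · simp only [e1, Matroid.contract_empty]
      exact hB
    · simp only [e1, e2]
      exact hG
    · intro z hz hzS
      simp only [e1, e2, Matroid.contract_empty]
      refine ⟨hz, hzS, fun v _ _ => ⟨fun hno => hno v rfl, ?_⟩⟩
      intro p hp hpl _
      have hpv : p = v := hp
      rw [← hpv]
      exact hpl
  | succ n ih =>
    intro α P _ S ends X a b b' K T hbb hB hG hT hKT hKd hKs ha hb'
    classical
    -- the position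
    obtain ⟨w₀, hw1, hw2, hw3⟩ := zone T (X.2 + (M + 20)) (2 * (M + 20) + 1) (by omega)
    have hTc : T.card * (2 * (M + 20) + 1) ≤ h * (2 * (M + 20) + 1) := Nat.mul_le_mul_right _ hT
    set q := w₀ + (M + 20) with hq
    have hqT : ∀ t ∈ T, t + (M + 20) < q ∨ q + (M + 20) < t := by
      intro t ht
      have := hw3 t ht
      omega
    have hq1 : X.2 + 10 ≤ q := by omega
    have hq2 : q + (M + 20) + 20 ≤ X.2 + b := by omega
    obtain ⟨Z, S', h1, h2, h3, h5, h6⟩ := row_step (P := P) (S := S) (ends := ends) (X := X)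
      (a := a) (b := b) (q := q) (K := (K : Set (ℕ × ℕ))) hB hG ha hq1 (by omega) (by
        intro v hv
        have := hqT v.2 (hKT v hv)
        omega) K.finite_toSet hKd hKs
    have hPZ : (P ／ Z).Finite := BQ.fin_contract Z
    have hKimg : ((K.image (rq q) : Finset (ℕ × ℕ)) : Set (ℕ × ℕ)) = rq q '' (K : Set (ℕ × ℕ)) := by
      rw [Finset.coe_image]
    have hgl : ∀ y, gq q y ≤ y ∧ y ≤ gq q y + 1 := by
      intro y
      unfold gq
      split_ifs <;> omega
    obtain ⟨Z', S'', g, i1, i2, i3, i4, i5, i6, i7, i8, i9, i10⟩ := ih (P ／ Z) S'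
      (fun e => (ends e).map (rq q)) X a (b - 1) b' (K.image (rq q)) (T.image (gq q)) (by omega)
      h3 (by rw [hKimg]; exact h5) (Finset.card_image_le.trans hT) (by
        intro v hv
        obtain ⟨k, hk, rfl⟩ := Finset.mem_image.1 hv
        exact Finset.mem_image_of_mem _ (hKT k hk)) (by
        intro v hv
        obtain ⟨⟨k1, k2⟩, hk, rfl⟩ := Finset.mem_image.1 hv
        have g1 := hKd _ hk
        have g2 := hqT _ (hKT _ hk)
        unfold DeepR at g1 ⊢
        simp only [rq, gq] at g1 g2 ⊢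
        split_ifs <;> omega) (by
        intro v hv v' hv' hne
        obtain ⟨⟨k1, k2⟩, hk, rfl⟩ := Finset.mem_image.1 hv
        obtain ⟨⟨l1, l2⟩, hl, rfl⟩ := Finset.mem_image.1 hv'
        have g1 := hKs _ hk _ hl (by rintro h; exact hne (by rw [h]))
        have g2 := hqT _ (hKT _ hk)
        have g3 := hqT _ (hKT _ hl)
        rw [← not_le, sd_le] at g1 ⊢
        simp only [rq, gq] at g1 g2 g3 ⊢
        split_ifs <;> omega) ha hb'
    rw [hKimg] at i9
    have e1 : (fun e => (ends e).map (fun v : ℕ × ℕ => (v.1, g (gq q v.2)))) =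
        fun e => ((ends e).map (rq q)).map (fun v : ℕ × ℕ => (v.1, g v.2)) := by
      funext e
      rw [Sym2.map_map]
      rfl
    have e2 : (fun v : ℕ × ℕ => (v.1, g (gq q v.2))) '' (K : Set (ℕ × ℕ)) =
        (fun v : ℕ × ℕ => (v.1, g v.2)) '' (rq q '' (K : Set (ℕ × ℕ))) := by
      rw [image_image]
      rfl
    refine ⟨Z ∪ Z', S'', fun y => g (gq q y), union_subset h1 (i1.trans h2), i2.trans h2,
      i3.comp (gq_mono q), ?_, ?_, ?_, ?_, ?_, ?_, ?_⟩
    · intro y
      have g1 := i4 (gq q y)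
      have g2 : gq q (y + 1) = gq q y ∨ gq q (y + 1) = gq q y + 1 := by
        unfold gq
        split_ifs <;> omega
      simp only
      rcases g2 with g2 | g2
      · rw [g2]; omega
      · rw [g2]; exact g1
    · intro y hy
      simp only
      rw [gq_le (show y ≤ q by omega)]
      exact i5 y hy
    · intro y hy
      simp only
      rw [gq_gt (show q < y by omega)]
      have := i6 (y - 1) (by omega)
      omega
    · intro t ht y k1 k2
      simp only
      have g1 := hqT t ht
      have g2 : gq q (y + 1) = gq q y + 1 := by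
        unfold gq
        split_ifs <;> omega
      rw [g2]
      refine i7 (gq q t) (Finset.mem_image_of_mem _ ht) (gq q y) ?_ ?_
      · unfold gq
        split_ifs <;> omega
      · unfold gq
        split_ifs <;> omega
    · simp only [e1]
      rw [← Matroid.contract_contract]
      exact i8
    · simp only [e1, e2]
      exact i9
    · intro z hz hzS
      obtain ⟨j1, j2, j3⟩ := h6 z hz hzS
      obtain ⟨k1, k2, k3⟩ := i10 z j1 j2
      rw [hKimg] at k3
      refine ⟨?_, k2, ?_⟩
      · rw [← Matroid.contract_contract]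
        exact k1
      intro w hw hwK
      simp only [e2] at hwK
      obtain ⟨l1, l2⟩ := k3 w hw hwK
      -- the classes of the last map are deep
      have hdp : ∀ u : ℕ × ℕ, (u.1, g u.2) = w → DeepR X a (b - 1) 10 u ∧
          u ∉ rq q '' (K : Set (ℕ × ℕ)) := by
        rintro ⟨u1, u2⟩ hu
        subst hu
        refine ⟨?_, fun hk => hwK ⟨_, hk, rfl⟩⟩
        unfold DeepR at hw ⊢
        simp only at hw ⊢
        refine ⟨hw.1, ?_, hw.2.2.1, ?_⟩
        · by_contra hcon
          have := i5 u2 (by omega)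
          omega
        · by_contra hcon
          have := i6 u2 (by omega)
          omega
      simp only [e1]
      rw [← Matroid.contract_contract]
      constructor
      · intro hno
        apply l1
        intro u hu
        obtain ⟨d1, d2⟩ := hdp u hu
        apply (j3 u d1 d2).1
        intro p hp
        apply hno p
        rw [← hu, ← hp]
        rfl
      · intro p hp hpl hno
        obtain ⟨d1, d2⟩ := hdp (rq q p) hp
        refine l2 (rq q p) hp ?_ ?_
        · refine (j3 _ d1 d2).2 p rfl hpl ?_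
          intro p' hp' hne
          exact hno p' ((congrArg (fun v : ℕ × ℕ => (v.1, g v.2)) hp').trans hp) hne
        · intro u hu hne
          obtain ⟨c1, c2⟩ := hdp u hu
          apply (j3 u c1 c2).1
          intro p' hp'
          apply hno p'
          · rw [← hu, ← hp']
            rfl
          · rintro rfl
            exact hne hp'.symm

end DA
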