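import Pool.Agent.DA.GlW

/-!
# The pipeline without missing rows: three blobs are enough
-/

open Set BIC BICS
open scoped Matroid

namespace DA

open Gad

universe u

open Classical in
/-- **The pipeline, plain detection.** Elements with three locations in the quotient of the whole
wall. -/
theorem glWB {k : ℕ} (hQ : WQuotX.{u}) (hR : RowMerge.{u}) :
    ∀ β D : ℕ, ∃ m δ : ℕ, ∀ {α : Type u} (P : Matroid α) [P.Finite] (S : Set α)
      (ends : α → Sym2 (ℕ × ℕ)) (w i : ℕ) (τ : ℕ × ℕ → ℕ × ℕ), i ≤ 1 → Bic P S ends →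
      WallE S ends w ∅ →
      ∀ (z : Fin m → α) (N A : Fin m → Finset (ℕ × ℕ)), (∀ t, z t ∈ P.closure S ∧ z t ∉ S) →
      (∀ t, (N t).card ≤ β) →
      (∀ t, ∀ v ∈ CWL.Loc P S ends (z t), DeepR (0, 0) (w + 1) (w + 1) D v → v ∈ N t) →
      (∀ t, 3 ≤ (A t).card ∧ ∀ b ∈ A t, b ∈ BL P S ends i ∅ τ (z t)) →
      (∀ t, ∀ b ∈ A t, DeepR (0, 0) ((w + 1 - i) / 2) (w + 1) δ b) →
      (∀ t t', t ≠ t' → ∀ b ∈ A t, ∀ b' ∈ (N t').image (pw i), δ ≤ sd b b') →
      HasUniformMinor P k := by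
  intro β D
  obtain ⟨m, δ₀, hM'⟩ := glB.{u} k (2 * β + 3) 0 (D + 12)
  obtain ⟨M, hMd⟩ : ∃ M, M = 2 * δ₀ + D + 50 := ⟨_, rfl⟩
  obtain ⟨δR, hR'⟩ := hR (m * (β + 3)) M
  obtain ⟨δ, hδ⟩ : ∃ δ, δ = M + δR + 50 := ⟨_, rfl⟩
  refine ⟨m, δ, ?_⟩
  intro α P _ S ends w i τ hi hB hW z N A₀ hz hcard hN hA₀ hAd₀ hfar₀
  by_cases hm0 : m = 0
  · subst hm0
    refine hM' P ∅ ends (0, 0) 0 ∅ ?_ ?_ (by simp) (by intro v hv; simp at hv) (by simp) z
      (fun _ => ∅) (fun t => t.elim0) (fun t => t.elim0) (fun t => t.elim0) (fun t => t.elim0)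
      (fun t => t.elim0) (fun t => t.elim0)
    · refine ⟨empty_subset _, ?_, ?_⟩
      · intro F φ hF _ _
        rw [subset_empty_iff.1 hF]
        exact P.empty_indep
      · intro W
        have : ins (∅ : Set α) ends W = ∅ := by ext; simp [ins]
        rw [this]
        simp
    · refine ⟨injOn_empty _, fun e he => absurd he (notMem_empty e), ?_⟩
      rintro p q _ ⟨hp, _⟩ _
      rw [Gad.mem_rct] at hp
      omega
  have hmpos : 0 < m := Nat.pos_of_ne_zero hm0
  -- three blobs per unit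
  have hsub : ∀ t, ∃ B ⊆ A₀ t, B.card = 3 := fun t =>
    Finset.exists_subset_card_eq (hA₀ t).1
  choose A hAA hA3 using hsub
  have hAB : ∀ t, ∀ b ∈ A t, b ∈ BL P S ends i ∅ τ (z t) := fun t b hb =>
    (hA₀ t).2 b (hAA t hb)
  have hAd : ∀ t, ∀ b ∈ A t, DeepR (0, 0) ((w + 1 - i) / 2) (w + 1) δ b := fun t b hb =>
    hAd₀ t b (hAA t hb)
  have hfar : ∀ t t', t ≠ t' → ∀ b ∈ A t, ∀ b' ∈ (N t').image (pw i), δ ≤ sd b b' :=
    fun t t' hne b hb => hfar₀ t t' hne b (hAA t hb)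
  have hAne : ∀ t, (A t).Nonempty := fun t => Finset.card_pos.1 (by rw [hA3 t]; omega)
  -- the size of the wall
  obtain ⟨b₀, hb₀⟩ := hAne ⟨0, hmpos⟩
  have hb₀d := hAd _ b₀ hb₀
  obtain ⟨a, ha⟩ : ∃ a, a = (w + 1 - i) / 2 := ⟨_, rfl⟩
  rw [← ha] at hAd hb₀d
  have haδ : 2 * δ ≤ a := by
    have h1 := hb₀d
    unfold DeepR at h1
    simp only at h1
    omega
  obtain ⟨Z, S', hZ, hS', hB', hG', hloc⟩ := hQ P S ends w i ∅ τ ∅ hi (by omega) hB hW
    (by intro p hp; simp at hp) (by intro v hv; simp at hv) (by intro v hv; simp at hv)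
    (by intro p q hp; exact absurd hp (notMem_empty _))
  rw [← ha] at hG' hloc
  rw [Finset.coe_empty] at hG' hloc
  have hP1 : (P ／ Z).Finite := BQ.fin_contract _
  obtain ⟨T, hTdef⟩ : ∃ T : Finset ℕ, T = (Finset.univ : Finset (Fin m)).biUnion
      (fun t => (A t ∪ (N t).image (pw i)).image Prod.snd) := ⟨_, rfl⟩
  have hTm : ∀ t, ∀ v ∈ A t ∪ (N t).image (pw i), v.2 ∈ T := by
    intro t v hv
    rw [hTdef]
    exact Finset.mem_biUnion.2 ⟨t, Finset.mem_univ _, Finset.mem_image_of_mem _ hv⟩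
  have hTA : ∀ t, ∀ v ∈ A t, v.2 ∈ T := fun t v hv => hTm t v (Finset.mem_union_left _ hv)
  have hTc : T.card ≤ m * (β + 3) := by
    rw [hTdef]
    refine (Finset.card_biUnion_le_card_mul _ _ (β + 3) ?_).trans ?_
    · intro t _
      refine Finset.card_image_le.trans ((Finset.card_union_le _ _).trans ?_)
      have h1 := hcard t
      have h2 : ((N t).image (pw i)).card ≤ (N t).card := Finset.card_image_le
      have h3 := hA3 t
      omega
    · rw [Finset.card_univ, Fintype.card_fin]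
  obtain ⟨Z2, S2, g, hZ2, hS2, gm, gs, g1, g2, g3, hB2, hG2, hloc2⟩ :=
    hR' (P ／ Z) S' (fun e => (ends e).map (pw i)) (0, 0) a (w + 1) a ∅ T hB'
    (by rw [Finset.coe_empty]; exact hG') hTc (by intro v hv; simp at hv)
    (by intro v hv; simp at hv) (by intro v hv; simp at hv) (by omega) (by omega) (by omega)
  have hP2 : (P ／ Z ／ Z2).Finite := BQ.fin_contract _
  simp only [Nat.zero_add] at g1 g2
  rw [Finset.coe_empty, image_empty] at hG2 hloc2
  have g0 : g 0 = 0 := g1 0 (by omega)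
  have gle : ∀ y, g y ≤ y := mrg_le gs g0
  have gtop : g (w + 1) = a := by
    have := g2 (w + 1) (by omega)
    omega
  have dG : ∀ (d : ℕ) (v : ℕ × ℕ), d ≤ M → DeepR (0, 0) a (w + 1) d v →
      DeepR (0, 0) a a d (Gm g v) := by
    intro d v hd hv
    unfold DeepR at hv ⊢
    unfold Gm
    simp only at hv ⊢
    have h1 := gm (show d ≤ v.2 by omega)
    rw [g1 d hd] at h1
    have h2 := gm (show v.2 ≤ w + 1 - d by omega)
    have h3 := g2 (w + 1 - d) (by omega)
    omega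
  have dG' : ∀ (d : ℕ) (v : ℕ × ℕ), 1 ≤ d → DeepR (0, 0) a a d (Gm g v) →
      DeepR (0, 0) a (w + 1) d v := by
    intro d v hd hv
    unfold DeepR at hv ⊢
    unfold Gm at hv
    simp only at hv ⊢
    have h1 := gle v.2
    by_cases h2 : v.2 ≤ w + 1
    · have h3 := mrg_sub gs v.2 (w + 1 - v.2)
      rw [show v.2 + (w + 1 - v.2) = w + 1 by omega, gtop] at h3
      omega
    · have h3 := gm (show w + 1 ≤ v.2 by omega)
      rw [gtop] at h3
      omega
  have hMM : 1 ≤ M := by omega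
  have hz1 := fun t => hloc (z t) (hz t).1 (hz t).2
  have hz2 := fun t => hloc2 (z t) (hz1 t).1 (hz1 t).2.1
  -- every deep location of the square comes from a vertex of `N`
  have hback : ∀ t (v : ℕ × ℕ), DeepR (0, 0) a a (D + 12) v → v ∈ CWL.Loc (P ／ Z ／ Z2) S2
      (fun e => ((ends e).map (pw i)).map (fun v : ℕ × ℕ => (v.1, g v.2))) (z t) →
      v ∈ ((N t).image (pw i)).image (Gm g) := by
    intro t v hv hvL
    have hv10 : DeepR (0, 0) a a 10 v := by
      unfold DeepR at hv ⊢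
      simp only at hv ⊢
      omega
    have h1 := (hz2 t).2.2 v hv10 (notMem_empty _)
    obtain ⟨p, hpG, hpL⟩ : ∃ p : ℕ × ℕ, (p.1, g p.2) = v ∧
        p ∈ CWL.Loc (P ／ Z) S' (fun e => (ends e).map (pw i)) (z t) := by
      by_contra hcon
      push Not at hcon
      exact h1.1 hcon hvL
    have hpG' : Gm g p = v := hpG
    have hpd := dG' (D + 12) p (by omega) (by
      rw [hpG']
      exact hv)
    have hpd10 : DeepR (0, 0) a (w + 1) 10 p := by
      unfold DeepR at hpd ⊢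
      simp only at hpd ⊢
      omega
    obtain ⟨q, hq, hqL⟩ : ∃ q ∈ blob i ∅ τ p, q ∈ CWL.Loc P S ends (z t) := by
      by_contra hcon
      push Not at hcon
      exact ((hz1 t).2.2 p hpd10 (by simp)).2 (by simpa using hcon) hpL
    have hq2 : pw i q = p := by
      rcases hq with ⟨_, h2⟩ | ⟨h2, _⟩
      · exact h2
      · exact absurd h2 (notMem_empty _)
    refine Finset.mem_image.2 ⟨p, Finset.mem_image.2 ⟨q, hN t q hqL ?_, hq2⟩, hpG'⟩
    unfold pw at hq2
    rw [Prod.ext_iff] at hq2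
    unfold DeepR at hpd ⊢
    simp only at hpd hq2 ⊢
    omega
  have hdd : ∀ (D : ℕ) (v : ℕ × ℕ), DeepR (0, 0) a a D v ↔ Deep (0, 0) a D v := by
    intro D v
    unfold DeepR Deep
    simp only
  refine HasUniformMinor_mono (HasUniformMinor_mono
    (hM' (P ／ Z ／ Z2) S2 _ (0, 0) a ∅ hB2 (by rw [Finset.coe_empty]; exact hG2) (by simp)
      (by intro v hv; simp at hv) (by simp) z (fun t => (A t).image (Gm g))
      (fun t => ⟨(hz2 t).1, (hz2 t).2.1⟩) ?_ ?_ ?_ ?_ ?_) (con_minor _ _)) (con_minor _ _)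
  · intro t
    refine ⟨((N t).image (pw i)).image (Gm g), ?_, ?_⟩
    · refine Finset.card_image_le.trans (Finset.card_image_le.trans ?_)
      have := hcard t
      omega
    · intro v hv hvd
      exact hback t v ((hdd _ _).2 hvd) hv
  · intro t
    refine ⟨?_, ?_⟩
    · rw [Finset.card_image_of_injOn, hA3 t]
      intro b hb b' hb' hbb
      exact Gm_inj gm g3 hMM (hTA t b (Finset.mem_coe.1 hb)) hbb
    · intro v hv
      obtain ⟨b, hb, rfl⟩ := Finset.mem_image.1 hv
      have hbd := hAd t b hb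
      have hbd10 : DeepR (0, 0) a (w + 1) 10 b := by
        unfold DeepR at hbd ⊢
        simp only at hbd ⊢
        omega
      have hb1 := ((hz1 t).2.2 b hbd10 (by simp)).1.2 (hAB t b hb)
      refine ((hz2 t).2.2 (Gm g b) (dG 10 b (by omega) hbd10) (notMem_empty _)).2 b rfl hb1 ?_
      intro p hp hpb
      exact absurd (Gm_inj gm g3 hMM (hTA t b hb) (show Gm g b = Gm g p from hp.symm)).symm hpb
  · intro t v hv
    obtain ⟨b, hb, rfl⟩ := Finset.mem_image.1 hv
    refine (hdd _ _).1 (dG δ₀ b (by omega) ?_)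
    have hbd := hAd t b hb
    unfold DeepR at hbd ⊢
    simp only at hbd ⊢
    omega
  · intro t v hv w' hw'
    simp at hw'
  · intro t t' hne v hv v' hv'
    obtain ⟨b, hb, rfl⟩ := Finset.mem_image.1 hv
    by_cases hdp : DeepR (0, 0) a a (D + 12) v'
    · obtain ⟨b', hb', rfl⟩ := Finset.mem_image.1 (hback t' v' hdp hv')
      rw [apart_iff]
      by_contra hcon
      have h1 := sd_Gm gm g3 (hTA t b hb) (v' := b') (Or.inl (by omega))
      have h2 := hfar t t' hne b hb b' hb'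
      omega
    · have h1 := dG (2 * δ₀ + D + 12) b (by omega) (by
        have hbd := hAd t b hb
        unfold DeepR at hbd ⊢
        simp only at hbd ⊢
        omega)
      unfold DeepR at h1 hdp
      unfold Apart
      simp only at h1 hdp
      omega

end DA
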