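import Mathlib.Data.Set.Card
import Mathlib.Tactic

/-!
# Location systems (helper77)

`LocS`: abstract location systems (`Y c` = locations for the representatives `c`, `Sn a` = the row `a`
is seen).  `cls_row`, `cls_star`: an element which sees the row `u v` is local on this row, or an exit
of this row, or a degenerate tripod; the same for the star of `u`.
-/

open Set

namespace DA

/-- neighbourhood -/
def nst {V : Type*} (adj : V → V → Prop) (u : V) : Set V := {x | x = u ∨ adj u x}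

/-- **Location system.**  `Reg` = region in which locations are counted, `Vis` = visible vertices. -/
structure LocS {V Ch : Type*} (adj : V → V → Prop) (Reg Vis : V → Prop) (Y : Ch → Set V)
    (Sn : V → V → Prop) : Prop where
  ne : Nonempty Ch
  symm : ∀ p q, adj p q → adj q p
  irr : ∀ p, ¬ adj p p
  tri : ∀ p q r, adj p q → adj q r → adj p r → False
  c4 : ∀ p q r t, adj p q → adj q r → adj r t → adj t p → p ≠ r → q ≠ t → False
  snsymm : ∀ p q, Sn p q → Sn q p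
  snreg : ∀ p q, Sn p q → Reg p ∨ Reg q
  vis : ∀ u, Vis u → Reg u
  vis₂ : ∀ u p q, Vis u → adj u p → adj p q → Reg p ∧ Reg q
  tog : ∀ p q, adj p q → Reg p → Sn p q → ∀ c, ∃ c', p ∈ Y c' ∧
    ∀ v, v ≠ p → v ≠ q → (v ∈ Y c' ↔ v ∈ Y c)
  two : ∀ c u, Vis u → u ∈ Y c → (∃ a b, Y c ⊆ {a, b}) ∨ ∃ v₀, Y c = nst adj v₀
  path : ∀ Φ : Set V → Prop, (∀ c c' p q, adj p q → Sn p q →
    (∀ v, v ≠ p → v ≠ q → (v ∈ Y c ↔ v ∈ Y c')) → Φ (Y c) → Φ (Y c')) → ∀ c c', Φ (Y c) → Φ (Y c')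

section

variable {V Ch : Type*} {adj : V → V → Prop} {Reg Vis : V → Prop} {Y : Ch → Set V}
  {Sn : V → V → Prop}

/-- at least two elements -/
def Big {V : Type*} (A : Set V) : Prop := ∃ a ∈ A, ∃ b ∈ A, a ≠ b

/-- exactly one element -/
def Uni {V : Type*} (A : Set V) : Prop := ∃ a, A = {a}

lemma uni_or {A : Set V} (h : A.Nonempty) : Uni A ∨ Big A := by
  by_cases hA : ∃ a ∈ A, ∃ b ∈ A, a ≠ b
  · exact Or.inr hA
  · left
    push Not at hA
    obtain ⟨a, ha⟩ := h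
    exact ⟨a, Subset.antisymm (fun x hx => mem_singleton_iff.2 (hA x hx a ha)) (by
      rintro x rfl
      exact ha)⟩

lemma not_sub_two {A : Set V} {x y z : V} (hx : x ∈ A) (hy : y ∈ A) (hz : z ∈ A) (hxy : x ≠ y)
    (hxz : x ≠ z) (hyz : y ≠ z) : ¬ ∃ a b, A ⊆ {a, b} := by
  rintro ⟨a, b, h⟩
  have h1 := h hx
  have h2 := h hy
  have h3 := h hz
  simp only [mem_insert_iff, mem_singleton_iff] at h1 h2 h3
  grind

namespace LocS

variable (h : LocS adj Reg Vis Y Sn)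
include h

lemma adj_ne {p q : V} (hpq : adj p q) : p ≠ q := by
  rintro rfl
  exact h.irr _ hpq

/-- the case of at least two locations off the row -/
lemma big_row {u v : V} (huv : adj u v) (hu : Vis u) (hv : Vis v) (hs : Sn u v) {c : Ch} (hb : Big (Y c \ {u, v})) :
    Y c \ {u, v} = nst adj u \ {u, v} ∨ Y c \ {u, v} = nst adj v \ {u, v} := by
  obtain ⟨a, ⟨ha, ha'⟩, b, ⟨hb, hb'⟩, hab⟩ := hb
  simp only [mem_insert_iff, mem_singleton_iff, not_or] at ha' hb'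
  obtain ⟨c₁, h1, e1⟩ := h.tog u v huv (h.vis u hu) hs c
  obtain ⟨c₂, h2, e2⟩ := h.tog v u (h.symm _ _ huv) (h.vis v hv) (h.snsymm _ _ hs) c
  have ha1 := (e1 a ha'.1 ha'.2).2 ha
  have hb1 := (e1 b hb'.1 hb'.2).2 hb
  have ha2 := (e2 a ha'.2 ha'.1).2 ha
  have hb2 := (e2 b hb'.2 hb'.1).2 hb
  rcases h.two c₁ u hu h1 with h3 | ⟨v₁, h3⟩
  · exact absurd h3 (not_sub_two h1 ha1 hb1 (Ne.symm ha'.1) (Ne.symm hb'.1) hab)
  rcases h.two c₂ v hv h2 with h4 | ⟨v₂, h4⟩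
  · exact absurd h4 (not_sub_two h2 ha2 hb2 (Ne.symm ha'.2) (Ne.symm hb'.2) hab)
  have e1' : Y c \ {u, v} = Y c₁ \ {u, v} := by
    ext x
    simp only [mem_sdiff, mem_insert_iff, mem_singleton_iff, not_or]
    exact ⟨fun hx => ⟨(e1 x hx.2.1 hx.2.2).2 hx.1, hx.2⟩,
      fun hx => ⟨(e1 x hx.2.1 hx.2.2).1 hx.1, hx.2⟩⟩
  have e2' : Y c \ {u, v} = Y c₂ \ {u, v} := by
    ext x
    simp only [mem_sdiff, mem_insert_iff, mem_singleton_iff, not_or]
    exact ⟨fun hx => ⟨(e2 x hx.2.2 hx.2.1).2 hx.1, hx.2⟩,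
      fun hx => ⟨(e2 x hx.2.2 hx.2.1).1 hx.1, hx.2⟩⟩
  rw [h3] at h1 ha1 hb1
  rw [h4] at h2 ha2 hb2
  rcases h1 with h1 | h1
  · left
    rw [e1', h3, h1]
  rcases h2 with h2 | h2
  · right
    rw [e2', h4, h2]
  -- `v₁ ~ u`, `v₂ ~ v`
  by_cases h5 : v₁ = v
  · right
    rw [e1', h3, h5]
  by_cases h6 : v₂ = u
  · left
    rw [e2', h4, h6]
  exfalso
  have h7 : v₁ ∈ Y c₁ \ {u, v} := by
    rw [h3]
    refine ⟨Or.inl rfl, ?_⟩
    simp only [mem_insert_iff, mem_singleton_iff, not_or]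
    exact ⟨h.adj_ne h1, h5⟩
  rw [← e1', e2', h4] at h7
  rcases h7.1 with h8 | h8
  · rw [h8] at h1
    exact h.tri v₂ u v h1 huv h2
  · exact h.c4 v₁ u v v₂ h1 huv (h.symm _ _ h2) h8 h5 (Ne.symm h6)

/-- **Rows.** -/
theorem cls_row {u v : V} (huv : adj u v) (hu : Vis u) (hv : Vis v) (hs : Sn u v) :
    (∀ c, Y c ⊆ {u, v}) ∨ (∃ c y, y ∉ ({u, v} : Set V) ∧ y ∈ Y c ∧ Y c ⊆ {u, v, y}) ∨
      (∀ c, Y c \ {u, v} = nst adj u \ {u, v}) ∨ ∀ c, Y c \ {u, v} = nst adj v \ {u, v} := by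
  by_cases h1 : ∀ c, Y c ⊆ {u, v}
  · exact Or.inl h1
  by_cases h2 : ∃ c y, y ∉ ({u, v} : Set V) ∧ y ∈ Y c ∧ Y c ⊆ {u, v, y}
  · exact Or.inr (Or.inl h2)
  right
  right
  push Not at h1
  obtain ⟨c₀, h1⟩ := h1
  have hne : (Y c₀ \ {u, v}).Nonempty := by
    obtain ⟨x, hx, hx'⟩ := Set.not_subset.1 h1
    exact ⟨x, hx, hx'⟩
  have hU : ∀ c, ¬ Uni (Y c \ {u, v}) := by
    rintro c ⟨y, hy⟩
    have hy' : y ∈ Y c \ {u, v} := by rw [hy]; rfl
    refine h2 ⟨c, y, hy'.2, hy'.1, fun x hx => ?_⟩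
    by_cases hx' : x ∈ ({u, v} : Set V)
    · rcases hx' with h3 | h3
      · exact Or.inl h3
      · exact Or.inr (Or.inl h3)
    · have : x ∈ Y c \ {u, v} := ⟨hx, hx'⟩
      rw [hy] at this
      exact Or.inr (Or.inr this)
  have hB : ∀ c, (Y c \ {u, v}).Nonempty → Big (Y c \ {u, v}) := fun c hc =>
    (uni_or hc).resolve_left (hU c)
  -- the property is kept by changes of one row
  have key : ∀ a : V, (a = u ∨ a = v) → Big (nst adj a \ {u, v}) →
      ∀ c c' p q, adj p q → Sn p q → (∀ x, x ≠ p → x ≠ q → (x ∈ Y c ↔ x ∈ Y c')) →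
      Y c \ {u, v} = nst adj a \ {u, v} → Y c' \ {u, v} = nst adj a \ {u, v} := by
    rintro a ha hbig c c' p q hpq _ hk hc
    obtain ⟨x, hx, y, hy, hxy⟩ := hbig
    have hadj : ∀ z ∈ nst adj a \ {u, v}, adj a z := by
      rintro z ⟨h3 | h3, h4⟩
      · exfalso
        apply h4
        rw [h3]
        rcases ha with h5 | h5
        · exact Or.inl h5
        · exact Or.inr h5
      · exact h3
    -- one of `x`, `y` is still a location
    obtain ⟨z, hz, hz'⟩ : ∃ z ∈ nst adj a \ {u, v}, z ∈ Y c' := by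
      by_contra hcon
      push Not at hcon
      have hx' : x = p ∨ x = q := by
        by_contra h3
        push Not at h3
        rw [← hc] at hx
        refine hcon x (hc ▸ hx) ((hk x h3.1 h3.2).1 hx.1)
      have hy' : y = p ∨ y = q := by
        by_contra h3
        push Not at h3
        rw [← hc] at hy
        refine hcon y (hc ▸ hy) ((hk y h3.1 h3.2).1 hy.1)
      have h3 := hadj x hx
      have h4 := hadj y hy
      rcases hx' with rfl | rfl <;> rcases hy' with rfl | rfl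
      · exact hxy rfl
      · exact h.tri a x y h3 hpq h4
      · exact h.tri a y x h4 hpq h3
      · exact hxy rfl
    have hzc : z ∈ Y c' \ {u, v} := ⟨hz', hz.2⟩
    have hza := hadj z hz
    rcases h.big_row huv hu hv hs (hB c' ⟨z, hzc⟩) with h5 | h5
    · rcases ha with rfl | rfl
      · exact h5
      · exfalso
        rw [h5] at hzc
        rcases hzc.1 with h6 | h6
        · exact hzc.2 (Or.inl h6)
        · exact h.tri u a z huv hza h6
    · rcases ha with rfl | rfl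
      · exfalso
        rw [h5] at hzc
        rcases hzc.1 with h6 | h6
        · exact hzc.2 (Or.inr h6)
        · exact h.tri a v z huv h6 hza
      · exact h5
  have hb₀ := hB c₀ hne
  rcases h.big_row huv hu hv hs hb₀ with h3 | h3
  · left
    intro c
    exact h.path (fun A => A \ {u, v} = nst adj u \ {u, v})
      (key u (Or.inl rfl) (by rw [← h3]; exact hb₀)) c₀ c h3
  · right
    intro c
    exact h.path (fun A => A \ {u, v} = nst adj v \ {u, v})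
      (key v (Or.inr rfl) (by rw [← h3]; exact hb₀)) c₀ c h3

/-- at least two locations outside of the star of `u` -/
lemma big_star {u v : V} (huv : adj u v) (hu : Vis u) (hv : Vis v) (hs : Sn u v) {c : Ch} (hb : Big (Y c \ nst adj u)) :
    Y c \ {u, v} = nst adj v \ {u, v} := by
  obtain ⟨a, ⟨ha, ha'⟩, b, ⟨hb, hb'⟩, hab⟩ := hb
  have hsub : ∀ x, x ∉ nst adj u → x ≠ u ∧ x ≠ v := by
    intro x hx
    constructor
    · rintro rfl
      exact hx (Or.inl rfl)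
    · rintro rfl
      exact hx (Or.inr huv)
  have hbig : Big (Y c \ {u, v}) := by
    refine ⟨a, ⟨ha, ?_⟩, b, ⟨hb, ?_⟩, hab⟩
    · simp only [mem_insert_iff, mem_singleton_iff, not_or]
      exact hsub a ha'
    · simp only [mem_insert_iff, mem_singleton_iff, not_or]
      exact hsub b hb'
  rcases h.big_row huv hu hv hs hbig with h1 | h1
  · exfalso
    have h2 : a ∈ Y c \ {u, v} := by
      refine ⟨ha, ?_⟩
      simp only [mem_insert_iff, mem_singleton_iff, not_or]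
      exact hsub a ha'
    rw [h1] at h2
    exact ha' h2.1
  · exact h1

/-- **Stars.** -/
theorem cls_star {u v : V} (huv : adj u v) (hu : Vis u) (hv : Vis v) (hs : Sn u v) :
    (∀ c, Y c ⊆ nst adj u) ∨ (∃ c y, y ∉ nst adj u ∧ y ∈ Y c ∧ Y c ⊆ insert y (nst adj u)) ∨
      ∀ c, Y c \ {u, v} = nst adj v \ {u, v} := by
  by_cases h1 : ∀ c, Y c ⊆ nst adj u
  · exact Or.inl h1
  by_cases h2 : ∃ c y, y ∉ nst adj u ∧ y ∈ Y c ∧ Y c ⊆ insert y (nst adj u)
  · exact Or.inr (Or.inl h2)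
  right
  right
  push Not at h1
  obtain ⟨c₀, h1⟩ := h1
  have hU : ∀ c, ¬ Uni (Y c \ nst adj u) := by
    rintro c ⟨y, hy⟩
    have hy' : y ∈ Y c \ nst adj u := by rw [hy]; rfl
    refine h2 ⟨c, y, hy'.2, hy'.1, fun x hx => ?_⟩
    by_cases hx' : x ∈ nst adj u
    · exact Or.inr hx'
    · have : x ∈ Y c \ nst adj u := ⟨hx, hx'⟩
      rw [hy] at this
      exact Or.inl this
  have hB : ∀ c, (Y c \ nst adj u).Nonempty → Big (Y c \ nst adj u) := fun c hc =>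
    (uni_or hc).resolve_left (hU c)
  have hb₀ := hB c₀ (by
    obtain ⟨x, hx, hx'⟩ := Set.not_subset.1 h1
    exact ⟨x, hx, hx'⟩)
  have h0 := h.big_star huv hu hv hs hb₀
  obtain ⟨a, ha, b, hb, hab⟩ := hb₀
  have hQ : ∀ x, x ∉ nst adj u → x ∈ Y c₀ → x ∈ nst adj v \ {u, v} := by
    intro x hx hx'
    rw [← h0]
    refine ⟨hx', ?_⟩
    rintro (h3 | h3)
    · exact hx (Or.inl h3)
    · rw [mem_singleton_iff] at h3
      rw [h3] at hx
      exact hx (Or.inr huv)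
  have haQ := hQ a ha.2 ha.1
  have hbQ := hQ b hb.2 hb.1
  intro c
  refine h.path (fun A => A \ {u, v} = nst adj v \ {u, v}) ?_ c₀ c h0
  intro c c' p q hpq _ hk hc
  have hadj : ∀ z ∈ nst adj v \ {u, v}, adj v z := by
    rintro z ⟨h3 | h3, h4⟩
    · exact absurd (Or.inr h3) h4
    · exact h3
  obtain ⟨z, hz, hz'⟩ : ∃ z ∈ nst adj v \ {u, v}, z ∈ Y c' := by
    by_contra hcon
    push Not at hcon
    have hx' : a = p ∨ a = q := by
      by_contra h3
      push Not at h3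
      rw [← hc] at haQ
      exact hcon a (hc ▸ haQ) ((hk a h3.1 h3.2).1 haQ.1)
    have hy' : b = p ∨ b = q := by
      by_contra h3
      push Not at h3
      rw [← hc] at hbQ
      exact hcon b (hc ▸ hbQ) ((hk b h3.1 h3.2).1 hbQ.1)
    have h3 := hadj a haQ
    have h4 := hadj b hbQ
    rcases hx' with rfl | rfl <;> rcases hy' with rfl | rfl
    · exact hab rfl
    · exact h.tri v a b h3 hpq h4
    · exact h.tri v b a h4 hpq h3
    · exact hab rfl
  have hzu : z ∉ nst adj u := by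
    rintro (h5 | h5)
    · exact hz.2 (Or.inl h5)
    · exact h.tri u v z huv (hadj z hz) h5
  exact h.big_star huv hu hv hs (hB c' ⟨z, hz', hzu⟩)

/-- the centre of a star which contains two neighbours of `u` -/
lemma ctr {u v v' v₁ : V} (huv : adj u v) (huv' : adj u v') (hne : v ≠ v') (h1 : v ∈ nst adj v₁)
    (h2 : v' ∈ nst adj v₁) : v₁ = u := by
  by_contra h3
  rcases h1 with rfl | h1
  · rcases h2 with h2 | h2
    · exact hne h2.symm
    · exact h.tri u v v' huv h2 huv'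
  · rcases h2 with rfl | h2
    · exact h.tri u v' v huv' h1 huv
    · exact h.c4 u v v₁ v' huv (h.symm _ _ h1) h2 (h.symm _ _ huv') (Ne.symm h3) hne

/-- **Two rows at `u`.** -/
theorem near_of_two {u v v' : V} (huv : adj u v) (hu : Vis u) (hv : Vis v) (hs : Sn u v)
    (huv' : adj u v') (hs' : Sn u v') (hne : v ≠ v') : ∀ c, Y c ⊆ nst adj u := by
  intro c x hx
  by_contra hxu
  have hxn : x ≠ u ∧ x ≠ v ∧ x ≠ v' := by
    refine ⟨?_, ?_, ?_⟩
    · rintro rfl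
      exact hxu (Or.inl rfl)
    · rintro rfl
      exact hxu (Or.inr huv)
    · rintro rfl
      exact hxu (Or.inr huv')
  obtain ⟨c₁, h1, e1⟩ := h.tog v u (h.symm _ _ huv) (h.vis v hv) (h.snsymm _ _ hs) c
  obtain ⟨c₂, h2, e2⟩ := h.tog v' u (h.symm _ _ huv') (h.vis₂ u v' u hu huv' (h.symm _ _ huv')).1
    (h.snsymm _ _ hs') c₁
  have hx1 := (e1 x hxn.2.1 hxn.1).2 hx
  have hx2 := (e2 x hxn.2.2 hxn.1).2 hx1
  have hv2 := (e2 v hne (Ne.symm (h.adj_ne huv))).2 h1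
  rcases h.two c₂ v hv hv2 with h3 | ⟨v₁, h3⟩
  · exact not_sub_two hx2 hv2 h2 hxn.2.1 hxn.2.2 hne h3
  · rw [h3] at hx2 hv2 h2
    rw [h.ctr huv huv' hne hv2 h2] at hx2
    exact hxu hx2

/-- **Two disjoint rows**: all locations are at the ends. -/
theorem supp_far {u v p q : V} (huv : adj u v) (hu : Vis u) (hv : Vis v) (hs : Sn u v)
    (hpq : adj p q) (hs' : Sn p q) (hpn : p ∉ ({u, v} : Set V)) (hqn : q ∉ ({u, v} : Set V)) :
    ∀ c, Y c ⊆ {u, v, p, q} := by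
  wlog hp : Reg p with H
  · have hq := (h.snreg p q hs').resolve_left hp
    intro c x hx
    have := H h huv hu hv hs (h.symm _ _ hpq) (h.snsymm _ _ hs') hqn hpn hq c hx
    simp only [mem_insert_iff, mem_singleton_iff] at this ⊢
    tauto
  intro c x hx
  by_contra hxn
  simp only [mem_insert_iff, mem_singleton_iff, not_or] at hxn hpn hqn
  have hkey : ∀ (y z : V) (c : Ch), y ∈ Y c → z ∈ Y c → y ≠ u → y ≠ v → z ≠ u → z ≠ v → y ≠ z →
      (adj u y ∧ adj u z) ∨ (adj v y ∧ adj v z) := by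
    intro y z c hy hz k1 k2 k3 k4 k5
    have hy' : y ∈ Y c \ {u, v} := ⟨hy, by simp [k1, k2]⟩
    have hz' : z ∈ Y c \ {u, v} := ⟨hz, by simp [k3, k4]⟩
    rcases h.big_row huv hu hv hs ⟨y, hy', z, hz', k5⟩ with h3 | h3
    · rw [h3] at hy' hz'
      exact Or.inl ⟨hy'.1.resolve_left k1, hz'.1.resolve_left k3⟩
    · rw [h3] at hy' hz'
      exact Or.inr ⟨hy'.1.resolve_left k2, hz'.1.resolve_left k4⟩
  obtain ⟨c₁, h1, e1⟩ := h.tog p q hpq hp hs' c
  have hx1 := (e1 x hxn.2.2.1 hxn.2.2.2).2 hx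
  have hfin : ∀ a b, adj a b → Vis a → (a = u ∨ a = v) → (b = u ∨ b = v) → adj a p → adj a x →
      False := by
    intro a b hab hva ha hb hap hax
    have hq := (h.vis₂ a p q hva hap hpq).2
    obtain ⟨c₂, h2, e2⟩ := h.tog q p (h.symm _ _ hpq) hq (h.snsymm _ _ hs') c
    have hx2 := (e2 x hxn.2.2.2 hxn.2.2.1).2 hx
    rcases hkey q x c₂ h2 hx2 hqn.1 hqn.2 hxn.1 hxn.2.1 (Ne.symm hxn.2.2.2) with h3 | h3
    · rcases ha with rfl | rfl
      · exact h.tri a p q hap hpq h3.1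
      · exact h.tri u a x huv hax h3.2
    · rcases ha with rfl | rfl
      · exact h.tri a v x huv h3.2 hax
      · exact h.tri a p q hap hpq h3.1
  rcases hkey p x c₁ h1 hx1 hpn.1 hpn.2 hxn.1 hxn.2.1 (Ne.symm hxn.2.2.1) with h3 | h3
  · exact hfin u v huv hu (Or.inl rfl) (Or.inr rfl) h3.1 h3.2
  · exact hfin v u (h.symm _ _ huv) hv (Or.inr rfl) (Or.inl rfl) h3.1 h3.2

/-- **Support.** -/
theorem cls_supp {u v : V} (huv : adj u v) (hu : Vis u) (hv : Vis v) (hs : Sn u v) :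
    (∃ p q, adj p q ∧ Sn p q ∧ p ∉ ({u, v} : Set V) ∧ q ∉ ({u, v} : Set V) ∧
      ∀ c, Y c ⊆ {u, v, p, q}) ∨ (∀ c, Y c ⊆ nst adj u) ∨ (∀ c, Y c ⊆ nst adj v) ∨
      ∃ y, y ∉ ({u, v} : Set V) ∧ ∀ c, Y c \ {u, v} = {y} := by
  by_cases hf : ∃ p q, adj p q ∧ Sn p q ∧ p ∉ ({u, v} : Set V) ∧ q ∉ ({u, v} : Set V)
  · obtain ⟨p, q, h1, h2, h3, h4⟩ := hf
    exact Or.inl ⟨p, q, h1, h2, h3, h4, h.supp_far huv hu hv hs h1 h2 h3 h4⟩
  right
  by_cases h1 : ∃ v', adj u v' ∧ Sn u v' ∧ v ≠ v'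
  · obtain ⟨v', h2, h3, h4⟩ := h1
    exact Or.inl (h.near_of_two huv hu hv hs h2 h3 h4)
  by_cases h2 : ∃ u', adj v u' ∧ Sn v u' ∧ u ≠ u'
  · obtain ⟨u', h3, h4, h5⟩ := h2
    exact Or.inr (Or.inl (h.near_of_two (h.symm _ _ huv) hv hu (h.snsymm _ _ hs) h3 h4 h5))
  -- only the row `u v` is seen
  have hon : ∀ p q, adj p q → Sn p q → (p = u ∧ q = v) ∨ (p = v ∧ q = u) := by
    intro p q hpq hsn
    by_contra hcon
    push Not at hcon hf h1 h2
    by_cases hpu : p = u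
    · subst hpu
      exact hcon.1 rfl (h1 q hpq hsn).symm
    by_cases hpv : p = v
    · subst hpv
      exact hcon.2 rfl (h2 q hpq hsn).symm
    by_cases hqu : q = u
    · subst hqu
      exact hpv (h1 p (h.symm _ _ hpq) (h.snsymm _ _ hsn)).symm
    by_cases hqv : q = v
    · subst hqv
      exact hpu (h2 p (h.symm _ _ hpq) (h.snsymm _ _ hsn)).symm
    exact hqu (by
      have := hf p q hpq hsn (by simp [hpu, hpv])
      simp only [mem_insert_iff, mem_singleton_iff] at this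
      tauto)
  obtain ⟨c₀⟩ := h.ne
  have hconst : ∀ c, Y c \ {u, v} = Y c₀ \ {u, v} := by
    intro c
    refine h.path (fun A => A \ {u, v} = Y c₀ \ {u, v}) ?_ c₀ c rfl
    intro c₁ c₂ p q hpq hsn hk h3
    rw [← h3]
    have hk' : ∀ x, x ≠ u → x ≠ v → (x ∈ Y c₁ ↔ x ∈ Y c₂) := by
      intro x hxu hxv
      rcases hon p q hpq hsn with ⟨rfl, rfl⟩ | ⟨rfl, rfl⟩
      · exact hk x hxu hxv
      · exact hk x hxv hxu
    ext x
    simp only [mem_sdiff, mem_insert_iff, mem_singleton_iff, not_or]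
    exact ⟨fun hx => ⟨(hk' x hx.2.1 hx.2.2).2 hx.1, hx.2⟩,
      fun hx => ⟨(hk' x hx.2.1 hx.2.2).1 hx.1, hx.2⟩⟩
  by_cases hne : (Y c₀ \ {u, v}).Nonempty
  · rcases uni_or hne with ⟨y, hy⟩ | hb
    · right
      right
      have hy' : y ∈ Y c₀ \ {u, v} := by rw [hy]; rfl
      exact ⟨y, hy'.2, fun c => by rw [hconst c, hy]⟩
    · rcases h.big_row huv hu hv hs hb with h3 | h3
      · left
        intro c x hx
        by_cases hx' : x ∈ ({u, v} : Set V)
        · rcases hx' with rfl | hx'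
          · exact Or.inl rfl
          · rw [mem_singleton_iff] at hx'
            subst hx'
            exact Or.inr huv
        · have h4 : x ∈ Y c \ {u, v} := ⟨hx, hx'⟩
          rw [hconst c, h3] at h4
          exact h4.1
      · right
        left
        intro c x hx
        by_cases hx' : x ∈ ({u, v} : Set V)
        · rcases hx' with rfl | hx'
          · exact Or.inr (h.symm _ _ huv)
          · exact Or.inl hx'
        · have h4 : x ∈ Y c \ {u, v} := ⟨hx, hx'⟩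
          rw [hconst c, h3] at h4
          exact h4.1
  · left
    intro c x hx
    by_cases hx' : x ∈ ({u, v} : Set V)
    · rcases hx' with rfl | hx'
      · exact Or.inl rfl
      · rw [mem_singleton_iff] at hx'
        subst hx'
        exact Or.inr huv
    · exact absurd ⟨x, by rw [← hconst c]; exact ⟨hx, hx'⟩⟩ hne

/-- a degenerate tripod sees no row outside of its star -/
lemma not_dt {u v a p q : V} (hpq : adj p q) (hp : Reg p) (hq : Reg q)
    (hs' : Sn p q) (hpn : p ∉ ({u, v} : Set V)) (hqn : q ∉ ({u, v} : Set V))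
    (ha : a = u ∨ a = v) : ¬ ∀ c, Y c \ {u, v} = nst adj a \ {u, v} := by
  intro hc
  obtain ⟨c₀⟩ := h.ne
  obtain ⟨c₁, h1, _⟩ := h.tog p q hpq hp hs' c₀
  obtain ⟨c₂, h2, _⟩ := h.tog q p (h.symm _ _ hpq) hq (h.snsymm _ _ hs') c₀
  have h3 : p ∈ nst adj a \ {u, v} := by
    rw [← hc c₁]
    exact ⟨h1, hpn⟩
  have h4 : q ∈ nst adj a \ {u, v} := by
    rw [← hc c₂]
    exact ⟨h2, hqn⟩
  rcases h3.1 with h5 | h5
  · exact hpn (by rcases ha with h6 | h6 <;> rw [h5, h6] <;> simp)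
  · rcases h4.1 with h6 | h6
    · exact hqn (by rcases ha with h7 | h7 <;> rw [h6, h7] <;> simp)
    · exact h.tri a p q h5 hpq h6

/-- **Two disjoint rows**: an exit of the row `u v`. -/
theorem exit_of_far {u v p q : V} (huv : adj u v) (hu : Vis u) (hv : Vis v) (hs : Sn u v)
    (hpq : adj p q) (hp : Reg p) (hq : Reg q) (hs' : Sn p q)
    (hpn : p ∉ ({u, v} : Set V)) (hqn : q ∉ ({u, v} : Set V)) :
    ∃ c y, y ∉ ({u, v} : Set V) ∧ y ∈ Y c ∧ Y c ⊆ {u, v, y} := by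
  rcases h.cls_row huv hu hv hs with h1 | h1 | h1 | h1
  · exfalso
    obtain ⟨c₀⟩ := h.ne
    obtain ⟨c₁, h2, _⟩ := h.tog p q hpq hp hs' c₀
    exact hpn (h1 c₁ h2)
  · exact h1
  · exact absurd h1 (h.not_dt hpq hp hq hs' hpn hqn (Or.inl rfl))
  · exact absurd h1 (h.not_dt hpq hp hq hs' hpn hqn (Or.inr rfl))

/-- **Two disjoint rows**: an exit of the star of `u`. -/
theorem exit_star_of_far {u v p q : V} (huv : adj u v) (hu : Vis u) (hv : Vis v) (hs : Sn u v)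
    (hpq : adj p q) (hp : Reg p) (hq : Reg q) (hs' : Sn p q)
    (hpn : p ∉ ({u, v} : Set V)) (hqn : q ∉ ({u, v} : Set V)) :
    ∃ c y, y ∉ nst adj u ∧ y ∈ Y c ∧ Y c ⊆ insert y (nst adj u) := by
  rcases h.cls_star huv hu hv hs with h1 | h1 | h1
  · exfalso
    obtain ⟨c₀⟩ := h.ne
    obtain ⟨c₁, h2, _⟩ := h.tog p q hpq hp hs' c₀
    obtain ⟨c₂, h3, _⟩ := h.tog q p (h.symm _ _ hpq) hq (h.snsymm _ _ hs') c₀
    rcases h1 c₁ h2 with h4 | h4
    · exact hpn (Or.inl h4)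
    · rcases h1 c₂ h3 with h5 | h5
      · exact hqn (Or.inl h5)
      · exact h.tri u p q h4 hpq h5
  · exact h1
  · exact absurd h1 (h.not_dt hpq hp hq hs' hpn hqn (Or.inr rfl))

/-- **Two rows at `u`**: an exit of the row `u v` (or always a location at the two other
neighbours). -/
theorem exit_of_near {u v v' : V} (huv : adj u v) (hu : Vis u) (hv : Vis v) (hs : Sn u v)
    (huv' : adj u v') (hs' : Sn u v') (hne : v ≠ v') :
    (∃ c y, y ∉ ({u, v} : Set V) ∧ y ∈ Y c ∧ Y c ⊆ {u, v, y}) ∨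
      ∀ c, Y c \ {u, v} = nst adj u \ {u, v} := by
  have hvn : v' ∉ ({u, v} : Set V) := by
    rintro (h1 | h1)
    · exact h.adj_ne huv' h1.symm
    · exact hne h1.symm
  obtain ⟨c₀⟩ := h.ne
  obtain ⟨c₁, h2, _⟩ := h.tog v' u (h.symm _ _ huv') (h.vis₂ u v' u hu huv' (h.symm _ _ huv')).1
    (h.snsymm _ _ hs') c₀
  rcases h.cls_row huv hu hv hs with h1 | h1 | h1 | h1
  · exact absurd (h1 c₁ h2) hvn
  · exact Or.inl h1
  · exact Or.inr h1
  · exfalso
    have h3 : v' ∈ nst adj v \ {u, v} := by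
      rw [← h1 c₁]
      exact ⟨h2, hvn⟩
    rcases h3.1 with h4 | h4
    · exact hne h4.symm
    · exact h.tri u v v' huv h4 huv'

/-- **Two rows at `u`**: an exit of the star of `v`. -/
theorem exit_star_of_near {u v v' : V} (huv : adj u v) (hu : Vis u) (hv : Vis v) (hs : Sn u v)
    (huv' : adj u v') (hs' : Sn u v') (hne : v ≠ v') :
    (∃ c y, y ∉ nst adj v ∧ y ∈ Y c ∧ Y c ⊆ insert y (nst adj v)) ∨
      ∀ c, Y c \ {u, v} = nst adj u \ {u, v} := by
  obtain ⟨c₀⟩ := h.ne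
  obtain ⟨c₁, h2, _⟩ := h.tog v' u (h.symm _ _ huv') (h.vis₂ u v' u hu huv' (h.symm _ _ huv')).1
    (h.snsymm _ _ hs') c₀
  rcases h.cls_star (h.symm _ _ huv) hv hu (h.snsymm _ _ hs) with h1 | h1 | h1
  · exfalso
    rcases h1 c₁ h2 with h4 | h4
    · exact hne h4.symm
    · exact h.tri u v v' huv h4 huv'
  · exact Or.inl h1
  · right
    intro c
    have h3 := h1 c
    rwa [pair_comm] at h3

/-- not both ends of a far row -/
lemma not_both {u v p q : V} (huv : adj u v) (hu : Vis u) (hv : Vis v) (hs : Sn u v)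
    (hpq : adj p q) (hpn : p ∉ ({u, v} : Set V)) (hqn : q ∉ ({u, v} : Set V)) {c : Ch}
    (hp : p ∈ Y c) (hq : q ∈ Y c) : False := by
  have hp' : p ∈ Y c \ {u, v} := ⟨hp, hpn⟩
  have hq' : q ∈ Y c \ {u, v} := ⟨hq, hqn⟩
  simp only [mem_insert_iff, mem_singleton_iff, not_or] at hpn hqn
  rcases h.big_row huv hu hv hs ⟨p, hp', q, hq', h.adj_ne hpq⟩ with h1 | h1
  · rw [h1] at hp' hq'
    exact h.tri u p q (hp'.1.resolve_left hpn.1) hpq (hq'.1.resolve_left hqn.1)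
  · rw [h1] at hp' hq'
    exact h.tri v p q (hp'.1.resolve_left hpn.2) hpq (hq'.1.resolve_left hqn.2)

/-- a location at an end of the far row: an exit -/
lemma far_exit {u v p q : V} (huv : adj u v) (hu : Vis u) (hv : Vis v) (hs : Sn u v)
    (hpq : adj p q) (hs' : Sn p q) (hpn : p ∉ ({u, v} : Set V)) (hqn : q ∉ ({u, v} : Set V))
    {c : Ch} (hp : p ∈ Y c) : Y c ⊆ {u, v, p} := by
  intro x hx
  have h1 := h.supp_far huv hu hv hs hpq hs' hpn hqn c hx
  simp only [mem_insert_iff, mem_singleton_iff] at h1 ⊢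
  rcases h1 with h1 | h1 | h1 | h1
  · exact Or.inl h1
  · exact Or.inr (Or.inl h1)
  · exact Or.inr (Or.inr h1)
  · subst h1
    exact absurd hx fun h2 => h.not_both huv hu hv hs hpq hpn hqn hp h2

/-- the end of a far row which is not adjacent to the row -/
lemma far_end {u v p q : V} (huv : adj u v) (hpq : adj p q) (hpn : p ∉ ({u, v} : Set V))
    (hqn : q ∉ ({u, v} : Set V)) : (¬ adj u p ∧ ¬ adj v p) ∨ (¬ adj u q ∧ ¬ adj v q) := by
  simp only [mem_insert_iff, mem_singleton_iff, not_or] at hpn hqn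
  by_contra hcon
  rw [not_or, not_and_or, not_and_or, not_not, not_not, not_not, not_not] at hcon
  rcases hcon with ⟨h1 | h1, h2 | h2⟩
  · exact h.tri u p q h1 hpq h2
  · exact h.c4 u p q v h1 hpq (h.symm _ _ h2) (h.symm _ _ huv) (Ne.symm hqn.1) hpn.2
  · exact h.c4 v p q u h1 hpq (h.symm _ _ h2) huv (Ne.symm hqn.2) hpn.1
  · exact h.tri v p q h1 hpq h2

end LocS

/-- **Location system** with the changes of one representative. -/
structure LocT {V Ch : Type*} (adj : V → V → Prop) (Reg Vis : V → Prop) (Y : Ch → Set V)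
    (Sn : V → V → Prop) (Rel : Ch → Ch → V → V → Prop) : Prop extends LocS adj Reg Vis Y Sn where
  togR : ∀ p q, adj p q → Reg p → Sn p q → ∀ c, ∃ c', Rel c c' p q ∧ p ∈ Y c'
  relR : ∀ c c' p q, Rel c c' p q → ∀ v, v ≠ p → v ≠ q → (v ∈ Y c' ↔ v ∈ Y c)
  unsR : ∀ c c' p q, Rel c c' p q → ¬ Sn p q → Y c' = Y c
  symR : ∀ c c' p q, Rel c c' p q → Rel c c' q p

/-- the hypotheses on the second nodes of two exits of the row `u v` (for IN2b) -/
def Pr2 {V Ch : Type*} (adj : V → V → Prop) (u v : V) (Y Y' : Ch → Set V) : Prop :=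
  ∃ c y y', (y ∉ ({u, v} : Set V) ∧ y ∈ Y c ∧ Y c ⊆ {u, v, y}) ∧
    (y' ∉ ({u, v} : Set V) ∧ y' ∈ Y' c ∧ Y' c ⊆ {u, v, y'}) ∧ y ≠ y' ∧
    ¬ (adj u y ∧ adj u y') ∧ ¬ (adj v y ∧ adj v y')

lemma Pr2.symm {adj : V → V → Prop} {u v : V} {Y Y' : Ch → Set V} (h : Pr2 adj u v Y Y') :
    Pr2 adj u v Y' Y := by
  obtain ⟨c, y, y', h1, h2, h3, h4, h5⟩ := h
  exact ⟨c, y', y, h2, h1, h3.symm, fun h6 => h4 ⟨h6.2, h6.1⟩, fun h6 => h5 ⟨h6.2, h6.1⟩⟩

section

variable {Y' : Ch → Set V} {Sn' : V → V → Prop} {Rel : Ch → Ch → V → V → Prop}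

/-- **A far rung and an exit with a fixed second node.** -/
theorem LocT.pair_fix (h : LocT adj Reg Vis Y Sn Rel)
    {u v p q y' : V} (huv : adj u v) (hu : Vis u) (hv : Vis v) (hs : Sn u v)
    (hpq : adj p q) (hs' : Sn p q) (hp : Reg p) (hq : Reg q) (hpn : p ∉ ({u, v} : Set V))
    (hqn : q ∉ ({u, v} : Set V)) (hy' : y' ∉ ({u, v} : Set V)) (hfix : ∀ c, Y' c \ {u, v} = {y'}) :
    Pr2 adj u v Y Y' := by
  obtain ⟨c₀⟩ := h.ne
  have hY' : ∀ c, y' ∈ Y' c ∧ Y' c ⊆ {u, v, y'} := by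
    intro c
    have h1 : y' ∈ Y' c \ {u, v} := by rw [hfix c]; rfl
    refine ⟨h1.1, fun x hx => ?_⟩
    by_cases hx' : x ∈ ({u, v} : Set V)
    · rcases hx' with h3 | h3
      · exact Or.inl h3
      · exact Or.inr (Or.inl h3)
    · have : x ∈ Y' c \ {u, v} := ⟨hx, hx'⟩
      rw [hfix c] at this
      exact Or.inr (Or.inr this)
  have key : ∀ p q, adj p q → Sn p q → Reg p → Reg q → p ∉ ({u, v} : Set V) →
      q ∉ ({u, v} : Set V) → (¬ adj u p ∧ ¬ adj v p) → Pr2 adj u v Y Y' := by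
    intro p q hpq hs' hp hq hpn hqn hnad
    by_cases hpy : p = y'
    · obtain ⟨c, _, h2⟩ := h.togR q p (h.symm _ _ hpq) hq (h.snsymm _ _ hs') c₀
      refine ⟨c, q, y', ⟨hqn, h2, h.far_exit huv hu hv hs (h.symm _ _ hpq) (h.snsymm _ _ hs') hqn hpn
        h2⟩, ⟨hy', hY' c⟩, ?_, ?_, ?_⟩
      · rw [← hpy]
        exact (h.adj_ne hpq).symm
      · rw [← hpy]
        exact fun h3 => hnad.1 h3.2
      · rw [← hpy]
        exact fun h3 => hnad.2 h3.2
    · obtain ⟨c, _, h2⟩ := h.togR p q hpq hp hs' c₀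
      exact ⟨c, p, y', ⟨hpn, h2, h.far_exit huv hu hv hs hpq hs' hpn hqn h2⟩, ⟨hy', hY' c⟩, hpy,
        fun h3 => hnad.1 h3.1, fun h3 => hnad.2 h3.1⟩
  rcases h.far_end huv hpq hpn hqn with h1 | h1
  · exact key p q hpq hs' hp hq hpn hqn h1
  · exact key q p (h.symm _ _ hpq) (h.snsymm _ _ hs') hq hp hqn hpn h1

/-- **Two exits with different second rows.** -/
theorem LocT.pair_far (h : LocT adj Reg Vis Y Sn Rel) (h' : LocT adj Reg Vis Y' Sn' Rel)
    {u v p q p' q' : V} (huv : adj u v) (hu : Vis u) (hv : Vis v) (hs : Sn u v) (hs₁ : Sn' u v)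
    (hpq : adj p q) (hs' : Sn p q) (hp : Reg p) (hq : Reg q) (hpn : p ∉ ({u, v} : Set V))
    (hqn : q ∉ ({u, v} : Set V)) (hpq' : adj p' q') (hs₁' : Sn' p' q')
    (hpn' : p' ∉ ({u, v} : Set V)) (hqn' : q' ∉ ({u, v} : Set V)) (hno : ¬ Sn p' q')
    (hno' : ¬ Sn' p q) : Pr2 adj u v Y Y' := by
  wlog hp' : Reg p' with H
  · have hq' := (h'.snreg p' q' hs₁').resolve_left hp'
    exact H h h' huv hu hv hs hs₁ hpq hs' hp hq hpn hqn (h.symm _ _ hpq') (h'.snsymm _ _ hs₁') hqn'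
      hpn' (fun h1 => hno (h.snsymm _ _ h1)) hno' hq'
  obtain ⟨c₀⟩ := h.ne
  -- `z'` has the location `p'`
  obtain ⟨c₁, _, h1⟩ := h'.togR p' q' hpq' hp' hs₁' c₀
  have key : ∀ p q, adj p q → Sn p q → ¬ Sn' p q → Reg p → Reg q → p ∉ ({u, v} : Set V) →
      q ∉ ({u, v} : Set V) → (¬ adj u p ∧ ¬ adj v p) → Pr2 adj u v Y Y' := by
    intro p q hpq hs' hno' hp hq hpn hqn hnad
    have hno₁ : ¬ Sn' q p := fun h3 => hno' (h'.snsymm _ _ h3)
    by_cases hpp : p = p'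
    · obtain ⟨c, h2, h3⟩ := h.togR q p (h.symm _ _ hpq) hq (h.snsymm _ _ hs') c₁
      have h4 := h'.unsR c₁ c q p h2 hno₁
      rw [← h4] at h1
      refine ⟨c, q, p', ⟨hqn, h3, h.far_exit huv hu hv hs (h.symm _ _ hpq) (h.snsymm _ _ hs') hqn hpn
        h3⟩, ⟨hpn', h1, h'.far_exit huv hu hv hs₁ hpq' hs₁' hpn' hqn' h1⟩, ?_, ?_, ?_⟩
      · rw [← hpp]
        exact (h.adj_ne hpq).symm
      · rw [← hpp]
        exact fun h3 => hnad.1 h3.2
      · rw [← hpp]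
        exact fun h3 => hnad.2 h3.2
    · obtain ⟨c, h2, h3⟩ := h.togR p q hpq hp hs' c₁
      have h4 := h'.unsR c₁ c p q h2 hno'
      rw [← h4] at h1
      exact ⟨c, p, p', ⟨hpn, h3, h.far_exit huv hu hv hs hpq hs' hpn hqn h3⟩,
        ⟨hpn', h1, h'.far_exit huv hu hv hs₁ hpq' hs₁' hpn' hqn' h1⟩, hpp,
        fun h3 => hnad.1 h3.1, fun h3 => hnad.2 h3.1⟩
  rcases h.far_end huv hpq hpn hqn with h2 | h2
  · exact key p q hpq hs' hno' hp hq hpn hqn h2
  · exact key q p (h.symm _ _ hpq) (h.snsymm _ _ hs') (fun h3 => hno' (h'.snsymm _ _ h3)) hq hp hqn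
      hpn h2

/-- **Two exits with the same second row**, with locations at different ends. -/
theorem LocT.pair_same (h : LocT adj Reg Vis Y Sn Rel) (h' : LocT adj Reg Vis Y' Sn' Rel)
    {u v p q : V} (huv : adj u v) (hu : Vis u) (hv : Vis v) (hs : Sn u v) (hs₁ : Sn' u v)
    (hpq : adj p q) (hs' : Sn p q) (hs₁' : Sn' p q) (hpn : p ∉ ({u, v} : Set V))
    (hqn : q ∉ ({u, v} : Set V)) {c : Ch} (hp : p ∈ Y c) (hq : q ∈ Y' c) : Pr2 adj u v Y Y' := by
  refine ⟨c, p, q, ⟨hpn, hp, h.far_exit huv hu hv hs hpq hs' hpn hqn hp⟩,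
    ⟨hqn, hq, h'.far_exit huv hu hv hs₁ (h.symm _ _ hpq) (h'.snsymm _ _ hs₁') hqn hpn hq⟩,
    h.adj_ne hpq, fun h3 => h.tri u p q h3.1 hpq h3.2, fun h3 => h.tri v p q h3.1 hpq h3.2⟩

/-- **A far exit (with a far row) and a near exit at `u`.** -/
theorem LocT.pair_near (h : LocT adj Reg Vis Y Sn Rel) (h' : LocT adj Reg Vis Y' Sn' Rel)
    {u v p q v' : V} (huv : adj u v) (hu : Vis u) (hv : Vis v) (hs : Sn u v)
    (hpq : adj p q) (hs' : Sn p q) (hp : Reg p) (hq : Reg q) (hpn : p ∉ ({u, v} : Set V))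
    (hqn : q ∉ ({u, v} : Set V)) (huv' : adj u v') (hne : v ≠ v') (hs₁' : Sn' u v')
    (hY' : ∀ c, Y' c ⊆ {u, v, v'}) : Pr2 adj u v Y Y' := by
  have hv'r : Reg v' := (h.vis₂ u v' u hu huv' (h.symm _ _ huv')).1
  have hno' : ¬ Sn' p q := by
    intro h1
    obtain ⟨c₀⟩ := h.ne
    obtain ⟨c₁, _, h2⟩ := h'.togR p q hpq hp h1 c₀
    obtain ⟨c₂, _, h3⟩ := h'.togR q p (h.symm _ _ hpq) hq (h'.snsymm _ _ h1) c₀
    have h4 := hY' c₁ h2
    have h5 := hY' c₂ h3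
    simp only [mem_insert_iff, mem_singleton_iff, not_or] at h4 h5 hpn hqn
    have h6 : p = v' := (h4.resolve_left hpn.1).resolve_left hpn.2
    have h7 : q = v' := (h5.resolve_left hqn.1).resolve_left hqn.2
    exact h.adj_ne hpq (h6.trans h7.symm)
  have hv'n : v' ∉ ({u, v} : Set V) := by
    rintro (h1 | h1)
    · exact h.adj_ne huv' h1.symm
    · exact hne h1.symm
  obtain ⟨c₀⟩ := h.ne
  obtain ⟨c₁, _, h1⟩ := h'.togR v' u (h.symm _ _ huv') hv'r (h'.snsymm _ _ hs₁') c₀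
  have key : ∀ p q, adj p q → Sn p q → ¬ Sn' p q → Reg p → p ∉ ({u, v} : Set V) →
      q ∉ ({u, v} : Set V) → (¬ adj u p ∧ ¬ adj v p) → Pr2 adj u v Y Y' := by
    intro p q hpq hs' hno' hp hpn hqn hnad
    obtain ⟨c, h2, h3⟩ := h.togR p q hpq hp hs' c₁
    have h4 := h'.unsR c₁ c p q h2 hno'
    rw [← h4] at h1
    refine ⟨c, p, v', ⟨hpn, h3, h.far_exit huv hu hv hs hpq hs' hpn hqn h3⟩,
      ⟨hv'n, h1, hY' c⟩, ?_, fun h3 => hnad.1 h3.1, fun h3 => hnad.2 h3.1⟩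
    rintro rfl
    exact hnad.1 huv'
  rcases h.far_end huv hpq hpn hqn with h2 | h2
  · exact key p q hpq hs' hno' hp hpn hqn h2
  · exact key q p (h.symm _ _ hpq) (h.snsymm _ _ hs') (fun h3 => hno' (h'.snsymm _ _ h3)) hq hqn hpn
      h2

/-- **A near exit at `u` and an exit with a fixed second node which is no neighbour of `u`.** -/
theorem LocT.pair_near_fix (h : LocT adj Reg Vis Y Sn Rel)
    {u v v' y' : V} (huv : adj u v) (hu : Vis u) (huv' : adj u v') (hne : v ≠ v')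
    (hs' : Sn u v') (hY : ∀ c, Y c ⊆ {u, v, v'}) (hy' : y' ∉ ({u, v} : Set V))
    (hfix : ∀ c, Y' c \ {u, v} = {y'}) (hyu : ¬ adj u y') : Pr2 adj u v Y Y' := by
  have hv'r : Reg v' := (h.vis₂ u v' u hu huv' (h.symm _ _ huv')).1
  have hv'n : v' ∉ ({u, v} : Set V) := by
    rintro (h1 | h1)
    · exact h.adj_ne huv' h1.symm
    · exact hne h1.symm
  obtain ⟨c₀⟩ := h.ne
  obtain ⟨c, _, h1⟩ := h.togR v' u (h.symm _ _ huv') hv'r (h.snsymm _ _ hs') c₀
  have hY' : y' ∈ Y' c ∧ Y' c ⊆ {u, v, y'} := by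
    have h1 : y' ∈ Y' c \ {u, v} := by rw [hfix c]; rfl
    refine ⟨h1.1, fun x hx => ?_⟩
    by_cases hx' : x ∈ ({u, v} : Set V)
    · rcases hx' with h3 | h3
      · exact Or.inl h3
      · exact Or.inr (Or.inl h3)
    · have : x ∈ Y' c \ {u, v} := ⟨hx, hx'⟩
      rw [hfix c] at this
      exact Or.inr (Or.inr this)
  refine ⟨c, v', y', ⟨hv'n, h1, hY c⟩, ⟨hy', hY'⟩, ?_, fun h3 => hyu h3.2, fun h3 => ?_⟩
  · rintro rfl
    exact hyu huv'
  · exact h.tri u v v' huv h3.1 huv'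

/-- **Near exits at `u` and at `v`.** -/
theorem LocT.pair_near_near (h : LocT adj Reg Vis Y Sn Rel) (h' : LocT adj Reg Vis Y' Sn' Rel)
    {u v v' u' : V} (huv : adj u v) (hu : Vis u) (hv : Vis v) (huv' : adj u v') (hne : v ≠ v')
    (hs : Sn u v') (hY : ∀ c, Y c ⊆ {u, v, v'}) (hvu' : adj v u') (hne' : u ≠ u')
    (hs' : Sn' v u') (hY' : ∀ c, Y' c ⊆ {u, v, u'}) : Pr2 adj u v Y Y' := by
  have hv'r : Reg v' := (h.vis₂ u v' u hu huv' (h.symm _ _ huv')).1
  have hu'r : Reg u' := (h.vis₂ v u' v hv hvu' (h.symm _ _ hvu')).1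
  have hv'n : v' ∉ ({u, v} : Set V) := by
    rintro (h1 | h1)
    · exact h.adj_ne huv' h1.symm
    · exact hne h1.symm
  have hu'n : u' ∉ ({u, v} : Set V) := by
    rintro (h1 | h1)
    · exact hne' h1.symm
    · exact h.adj_ne hvu' h1.symm
  have hvu : v' ≠ u' := by
    rintro rfl
    exact h.tri u v v' huv hvu' huv'
  obtain ⟨c₀⟩ := h.ne
  have hno : ¬ Sn' u v' := by
    intro h1
    obtain ⟨c₁, _, h2⟩ := h'.togR v' u (h.symm _ _ huv') hv'r (h'.snsymm _ _ h1) c₀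
    have h4 := hY' c₁ h2
    simp only [mem_insert_iff, mem_singleton_iff, not_or] at h4 hv'n
    exact hvu ((h4.resolve_left hv'n.1).resolve_left hv'n.2)
  obtain ⟨c₁, _, h1⟩ := h'.togR u' v (h.symm _ _ hvu') hu'r (h'.snsymm _ _ hs') c₀
  obtain ⟨c, h2, h3⟩ := h.togR v' u (h.symm _ _ huv') hv'r (h.snsymm _ _ hs) c₁
  have h4 := h'.unsR c₁ c v' u h2 (fun h5 => hno (h'.snsymm _ _ h5))
  rw [← h4] at h1
  refine ⟨c, v', u', ⟨hv'n, h3, hY c⟩, ⟨hu'n, h1, hY' c⟩, hvu, fun h5 => ?_, fun h5 => ?_⟩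
  · exact h.tri u v u' huv hvu' h5.2
  · exact h.tri u v v' huv h5.1 huv'

end

end

end DA
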