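import Pool.Agent.DA.RowRel
import Pool.Agent.DA.LocSys

/-!
# Location systems of walls (helper77)

`togV`: toggle from the cocircuits at a vertex.  `locS_of`: for an element of the closure of a wall
with at most two locations (or a star) the locations form a location system.
-/

open Set BIC BICS
open scoped Matroid

namespace DA

open Gad TST

universe u

section

variable {α : Type*} {P : Matroid α} {S : Set α} {row : α → Sym2 (ℕ × ℕ)} {w : ℕ}

/-- **Toggle.** If `z` sees a row then some representative of this row makes the end `p` a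
location. -/
theorem togV [P.Finite] (hS : S ⊆ P.E) {z : α} (hz : z ∈ P.closure S) {p q : ℕ × ℕ}
    (hp : VC P S row w p) (hsurj : ∃ e ∈ S, row e = s(p, q)) (hs : Seen P S row z s(p, q))
    {c : Set α} (hc : c ⊆ S) (hcW : WallE c row w ∅) (hex : ∃ e ∈ c, row e = s(p, q)) :
    ∃ f ∈ S, row f = s(p, q) ∧ p ∈ LocR P S row (swp row c f) z := by
  classical
  by_contra hcon
  push Not at hcon
  have hrep : ∀ f ∈ S, row f = s(p, q) → swp row c f ⊆ S ∧ WallE (swp row c f) row w ∅ := by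
    intro f hf hfr
    obtain ⟨e, he, hee⟩ := hex
    exact swp_rep hc hcW hf ⟨e, he, by rw [hee, hfr]⟩
  obtain ⟨Q, hQ⟩ : ∃ Q : Set α, Q = {e | e ∈ c ∧ row e ≠ s(p, q) ∧ p ∈ row e} := ⟨_, rfl⟩
  have hQf : ∀ f ∈ S, row f = s(p, q) → {e | e ∈ swp row c f ∧ p ∈ row e} = insert f Q := by
    intro f hf hfr
    rw [hQ]
    ext e
    constructor
    · rintro ⟨h1 | h1, h2⟩
      · exact Or.inr ⟨h1.1, by rw [← hfr]; exact h1.2, h2⟩
      · exact Or.inl h1
    · rintro (rfl | ⟨h1, h2, h3⟩)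
      · exact ⟨Or.inr rfl, by rw [hfr]; simp⟩
      · exact ⟨Or.inl ⟨h1, by rw [hfr]; exact h2⟩, h3⟩
  have hH : ∀ f ∈ S, row f = s(p, q) → z ∈ P.closure (S \ insert f Q) := by
    intro f hf hfr
    have h1 := hcon f hf hfr
    unfold LocR at h1
    rw [mem_ofPred_eq, not_not, hQf f hf hfr] at h1
    exact h1
  -- the row
  have hRf : {f | f ∈ S ∧ row f = s(p, q)}.Finite :=
    P.ground_finite.subset fun f hf => hS hf.1
  obtain ⟨Ra, hRa⟩ : ∃ Ra : Finset α, ∀ f, f ∈ Ra ↔ (f ∈ S ∧ row f = s(p, q)) :=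
    ⟨hRf.toFinset, fun f => by rw [Set.Finite.mem_toFinset]; rfl⟩
  have hpr : ∀ f, row f = s(p, q) → p ∈ row f := by
    intro f hf
    rw [hf]
    exact Sym2.mem_mk_left _ _
  have hnot : ∀ f ∈ S, row f = s(p, q) → f ∉ P.closure (S \ insert f Q) := by
    intro f hf hfr h1
    have h2 := hp.nms _ (hrep f hf hfr).1 (hrep f hf hfr).2 f (Or.inr rfl) (hpr f hfr)
    rw [hQf f hf hfr] at h2
    exact h2 h1
  have hfl : ∀ Y ⊆ Ra, rk P (P.closure S ∩ ⋂ f ∈ Y, P.closure (S \ insert f Q)) + Y.card ≤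
      rk P S := by
    intro Y
    induction Y using Finset.induction_on with
    | empty =>
      intro _
      have h1 : rk P (P.closure S ∩ ⋂ f ∈ (∅ : Finset α), P.closure (S \ insert f Q)) ≤
          rk P (P.closure S) := rk_mono P inter_subset_left
      rw [rk_closure] at h1
      rw [Finset.card_empty]
      omega
    | @insert f Y hf ih =>
      intro hY
      have h1 := ih (fun g hg => hY (Finset.mem_insert_of_mem hg))
      have hfR := (hRa f).1 (hY (Finset.mem_insert_self _ _))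
      set F := P.closure S ∩ ⋂ g ∈ Y, P.closure (S \ insert g Q) with hF
      have h2 : P.closure S ∩ ⋂ g ∈ insert f Y, P.closure (S \ insert g Q) =
          F ∩ P.closure (S \ insert f Q) := by
        rw [Finset.set_biInter_insert, hF]
        ext e
        simp only [mem_inter_iff]
        tauto
      have hfF : f ∈ F := by
        refine ⟨P.mem_closure_of_mem' hfR.1 (hS hfR.1), ?_⟩
        simp only [mem_iInter]
        intro g hg
        refine P.mem_closure_of_mem' ⟨hfR.1, ?_⟩ (hS hfR.1)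
        rintro (rfl | h3)
        · exact hf hg
        · rw [hQ] at h3
          exact h3.2.1 hfR.2
      have h3 : f ∉ P.closure (F ∩ P.closure (S \ insert f Q)) := by
        intro h4
        have h5 := P.closure_subset_closure (inter_subset_right (s := F)) h4
        rw [P.closure_closure] at h5
        exact hnot f hfR.1 hfR.2 h5
      have h4 := rk_insert_notMem (hS hfR.1) h3
      have h5 : rk P (insert f (F ∩ P.closure (S \ insert f Q))) ≤ rk P F :=
        rk_mono P (insert_subset hfF inter_subset_left)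
      rw [h2, Finset.card_insert_of_notMem hf]
      omega
  have h1 := hfl Ra Finset.Subset.rfl
  obtain ⟨f₀, hf₀, hf₀r⟩ := hsurj
  -- the rank of everything but the star of `p`
  have h2 : rk P S ≤ rk P (S \ insert f₀ Q) + 1 := by
    have hr := hrep f₀ hf₀ hf₀r
    have g1 := hp.star _ hr.1 hr.2
    rw [hQf f₀ hf₀ hf₀r] at g1
    omega
  have hf₀R : f₀ ∈ Ra := (hRa f₀).2 ⟨hf₀, hf₀r⟩
  obtain ⟨K, hK⟩ : ∃ K, K = S \ ({f | f ∈ S ∧ row f = s(p, q)} ∪ Q) := ⟨_, rfl⟩
  have h3 : rk P (S \ insert f₀ Q) ≤ rk P K + (Ra.erase f₀).card := by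
    have h4 := rk_union_le P (X := K) (Y := ((Ra.erase f₀ : Finset α) : Set α))
      (Finset.finite_toSet _)
    rw [Set.ncard_coe_finset] at h4
    refine le_trans (rk_mono P ?_) h4
    rintro e ⟨he, heQ⟩
    by_cases h5 : e ∈ Ra
    · refine Or.inr (Finset.mem_coe.2 (Finset.mem_erase.2 ⟨?_, h5⟩))
      rintro rfl
      exact heQ (Or.inl rfl)
    · left
      rw [hK]
      refine ⟨he, ?_⟩
      rintro (h6 | h6)
      · exact h5 ((hRa e).2 h6)
      · exact heQ (Or.inr h6)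
  rw [Finset.card_erase_of_mem hf₀R] at h3
  have hpos : 0 < Ra.card := Finset.card_pos.2 ⟨f₀, hf₀R⟩
  have h4 : P.closure S ∩ ⋂ f ∈ Ra, P.closure (S \ insert f Q) ⊆ P.closure K := by
    refine sub_cl_of_rk ?_ (inter_subset_left.trans (P.closure_subset_ground _)) (by omega)
    intro e he
    rw [hK] at he
    refine ⟨P.mem_closure_of_mem' he.1 (hS he.1), ?_⟩
    simp only [mem_iInter]
    intro f hf
    refine P.mem_closure_of_mem' ⟨he.1, ?_⟩ (hS he.1)
    rintro (rfl | h6)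
    · exact he.2 (Or.inl ((hRa _).1 hf))
    · exact he.2 (Or.inr h6)
  have h5 : z ∈ P.closure K := by
    refine h4 ⟨hz, ?_⟩
    simp only [mem_iInter]
    intro f hf
    exact hH f ((hRa f).1 hf).1 ((hRa f).1 hf).2
  refine hs (P.closure_subset_closure ?_ h5)
  rw [hK]
  exact fun e he => ⟨he.1, fun h => he.2 (Or.inl h)⟩

/-- locations away from the changed row -/
lemma locR_swp {z : α} {c : Set α} {f : α} {v : ℕ × ℕ} (hv : v ∉ row f) :
    v ∈ LocR P S row (swp row c f) z ↔ v ∈ LocR P S row c z := by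
  unfold LocR
  have e1 : {e | e ∈ swp row c f ∧ v ∈ row e} = {e | e ∈ c ∧ v ∈ row e} := by
    ext e
    constructor
    · rintro ⟨h1 | h1, h2⟩
      · exact ⟨h1.1, h2⟩
      · rw [mem_singleton_iff] at h1
        exact absurd (h1 ▸ h2) hv
    · rintro ⟨h1, h2⟩
      exact ⟨Or.inl ⟨h1, fun h3 => hv (h3 ▸ h2)⟩, h2⟩
  rw [mem_ofPred_eq, mem_ofPred_eq, e1]

/-- an unseen row does not matter -/
lemma locR_unseen [P.Finite] (hS : S ⊆ P.E) {z : α} {c : Set α} (hc : c ⊆ S)
    (hW : WallE c row w ∅) {f : α} (hf : f ∈ S) (hfc : ∃ e ∈ c, row e = row f)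
    (hs : ¬ Seen P S row z (row f)) {v : ℕ × ℕ} (hv : VC P S row w v) :
    v ∈ LocR P S row (swp row c f) z ↔ v ∈ LocR P S row c z := by
  by_cases hvf : v ∉ row f
  · exact locR_swp hvf
  rw [not_not] at hvf
  obtain ⟨a, ha, haf⟩ := hfc
  by_cases hfa : f = a
  · subst hfa
    have e1 : swp row c f = c := by
      ext e
      constructor
      · rintro (h1 | h1)
        · exact h1.1
        · exact h1 ▸ ha
      · intro h1
        by_cases h2 : row e = row f
        · exact Or.inr (hW.inj h1 ha h2)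
        · exact Or.inl ⟨h1, h2⟩
    rw [e1]
  have hsep : ∀ x y, row x = row f → row y = row f → z ∈ P.closure (S \ {x, y}) := by
    intro x y hx hy
    unfold Seen at hs
    rw [not_not] at hs
    refine P.closure_subset_closure ?_ hs
    rintro e ⟨he, he'⟩
    refine ⟨he, ?_⟩
    rintro (rfl | rfl)
    · exact he' ⟨he, hx⟩
    · exact he' ⟨he, hy⟩
  obtain ⟨hc', hW'⟩ := swp_rep hc hW hf ⟨a, ha, haf⟩
  unfold LocR
  rw [mem_ofPred_eq, mem_ofPred_eq, not_iff_not]
  constructor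
  · intro h1
    have h2 := hv.swap hS hc' hW' (a := f) (a' := a) (Or.inr rfl) (hc ha) haf hvf (Ne.symm hfa)
      (hsep f a rfl haf) h1
    have e1 : swp row (swp row c f) a = c := by
      ext e
      constructor
      · rintro (⟨h3 | h3, h4⟩ | h3)
        · exact h3.1
        · rw [mem_singleton_iff] at h3
          exact absurd (by rw [h3, haf]) h4
        · rw [mem_singleton_iff] at h3
          exact h3 ▸ ha
      · intro h3
        by_cases h4 : row e = row a
        · exact Or.inr (hW.inj h3 ha h4)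
        · exact Or.inl ⟨Or.inl ⟨h3, by rw [← haf]; exact h4⟩, h4⟩
    rwa [e1] at h2
  · intro h1
    exact hv.swap hS hc hW ha hf haf.symm (haf ▸ hvf) hfa (hsep a f haf rfl) h1

/-- the region in which locations are counted -/
def RegW (w D : ℕ) (Hs : Finset (ℕ × ℕ)) (v : ℕ × ℕ) : Prop :=
  DeepR (0, 0) (w + 1) (w + 1) D v ∧ v ∉ Hs

/-- representatives -/
abbrev ChW {α : Type*} (S : Set α) (row : α → Sym2 (ℕ × ℕ)) (w : ℕ) : Type _ :=
  {c : Set α // c ⊆ S ∧ WallE c row w ∅}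

/-- the deep locations off the windows -/
def YW {α : Type*} (P : Matroid α) (S : Set α) (row : α → Sym2 (ℕ × ℕ)) (w D : ℕ)
    (Hs : Finset (ℕ × ℕ)) (z : α) (c : ChW S row w) : Set (ℕ × ℕ) :=
  {v | v ∈ LocR P S row c.1 z ∧ RegW w D Hs v}

/-- the rows which are seen -/
def SnW {α : Type*} (P : Matroid α) (S : Set α) (row : α → Sym2 (ℕ × ℕ)) (w D : ℕ)
    (Hs : Finset (ℕ × ℕ)) (z : α) (p q : ℕ × ℕ) : Prop :=
  Seen P S row z s(p, q) ∧ (RegW w D Hs p ∨ RegW w D Hs q)

/-- two representative systems which contain each other are equal -/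
lemma rep_eq {c c' : Set α} (hW : WallE c row w ∅) (hW' : WallE c' row w ∅) (h : c' ⊆ c) :
    c' = c := by
  refine h.antisymm fun e he => ?_
  obtain ⟨p, q, h1, h2, h3, h4⟩ := hW.mem e he
  obtain ⟨e', he', h5⟩ := hW'.surj p q h2 h3 h4 (notMem_empty _)
  rw [hW.inj he (h he') (by rw [h1, h5])]
  exact he'

/-- **Induction over the changes of single representatives.** -/
theorem rep_path [P.Finite] (hS : S ⊆ P.E) {Φ : Set α → Prop}
    (hΦ : ∀ c, c ⊆ S → WallE c row w ∅ → ∀ f ∈ S, (∃ e ∈ c, row e = row f) → Φ c →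
      Φ (swp row c f)) {c c' : Set α} (hc : c ⊆ S) (hW : WallE c row w ∅) (hc' : c' ⊆ S)
    (hW' : WallE c' row w ∅) (h : Φ c) : Φ c' := by
  obtain ⟨n, hn⟩ : ∃ n, (c' \ c).ncard = n := ⟨_, rfl⟩
  induction n using Nat.strong_induction_on generalizing c with
  | _ n ih =>
    have hfin : (c' \ c).Finite := (P.ground_finite.subset (hc'.trans hS)).subset sdiff_subset
    by_cases hne : (c' \ c).Nonempty
    · obtain ⟨f, hf, hfc⟩ := hne
      obtain ⟨p, q, h1, h2, h3, h4⟩ := hW'.mem f hf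
      obtain ⟨e, he, hee⟩ := hW.surj p q h2 h3 h4 (notMem_empty _)
      have hex : ∃ e ∈ c, row e = row f := ⟨e, he, by rw [hee, h1]⟩
      obtain ⟨hc₁, hW₁⟩ := swp_rep hc hW (hc' hf) hex
      refine ih _ ?_ hc₁ hW₁ (hΦ c hc hW f (hc' hf) hex h) rfl
      rw [← hn]
      refine ncard_lt_ncard ?_ hfin
      refine ⟨?_, ?_⟩
      · rintro x ⟨hx, hx'⟩
        refine ⟨hx, fun hxc => hx' ?_⟩
        by_cases h5 : row x = row f
        · exact Or.inr (hW'.inj hx hf h5)
        · exact Or.inl ⟨hxc, h5⟩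
      · intro h5
        exact (h5 ⟨hf, hfc⟩).2 (Or.inr rfl)
    · have h5 : c' ⊆ c := by
        intro x hx
        by_contra hx'
        exact hne ⟨x, hx, hx'⟩
      rw [rep_eq hW hW' h5]
      exact h

lemma wadj_tri {p q r : ℕ × ℕ} (h1 : wadj p q) (h2 : wadj q r) (h3 : wadj p r) : False := by
  have h4 := wadj_par h1
  have h5 := wadj_par h2
  have h6 := wadj_par h3
  omega

lemma mem_star_of_wadj {v₀ x : ℕ × ℕ} (h : wadj v₀ x) : x ∈ star v₀ := by
  obtain ⟨a, b⟩ := v₀
  obtain ⟨c, d⟩ := x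
  have h1 := vn_cases (a, b)
  unfold wadj at h
  unfold star
  simp only [mem_insert_iff, mem_singleton_iff, Prod.mk.injEq] at h h1 ⊢
  rcases h with ⟨h2, h3 | h3⟩ | ⟨h2, ⟨h3, h4⟩ | ⟨h3, h4⟩⟩
  · right; right; left
    exact ⟨h3.symm, h2.symm⟩
  · right; left
    omega
  · right; right; right
    rcases h1 with ⟨h5, h6⟩ | ⟨h5, h6⟩
    · rw [h6, Prod.mk.injEq]
      omega
    · omega
  · right; right; right
    rcases h1 with ⟨h5, h6⟩ | ⟨h5, h6⟩
    · subst h2
      omega
    · rw [h6, Prod.mk.injEq]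
      omega

lemma star_eq_nst (v₀ : ℕ × ℕ) : nst wadj v₀ = insert v₀ (star v₀) := by
  ext x
  constructor
  · rintro (h | h)
    · exact Or.inl h
    · exact Or.inr (mem_star_of_wadj h)
  · rintro (h | h)
    · exact Or.inl h
    · exact star_cases h

lemma self_mem_star (v₀ : ℕ × ℕ) : v₀ ∈ star v₀ := Or.inl rfl

/-- **Locations of an element of the closure of a wall.** -/
theorem locS_of [P.Finite] {Hm : Finset (ℕ × ℕ)} (hL : LWal P S row w Hm) {D : ℕ} (hD : 1 ≤ D)
    {Hs : Finset (ℕ × ℕ)} (hvc : ∀ v, RegW w D Hs v → VC P S row w v) {Vis : ℕ × ℕ → Prop}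
    (hvis : ∀ v, Vis v → ∀ x, sd v x ≤ 6 → RegW w D Hs x) {z : α} (hz : z ∈ P.closure S)
    (htwo : ∀ c, c ⊆ S → WallE c row w ∅ → ∀ A : Finset (ℕ × ℕ),
      (∀ v ∈ A, v ∈ LocR P S row c z ∧ RegW w D Hs v) →
      A.card ≤ 2 ∨ ∃ v₀, (A : Set (ℕ × ℕ)) ⊆ star v₀ ∧ star v₀ ⊆ LocR P S row c z) :
    LocS wadj (RegW w D Hs) Vis (YW P S row w D Hs z) (SnW P S row w D Hs z) := by
  classical
  have hS := hL.sub
  have hsd : ∀ {p q : ℕ × ℕ}, wadj p q → sd p q ≤ 1 := fun h => (wadj_sd h).1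
  have hseen : ∀ {a : Sym2 (ℕ × ℕ)}, Seen P S row z a → ∃ e ∈ S, row e = a := by
    intro a ha
    by_contra hcon
    push Not at hcon
    refine ha ?_
    have e1 : S \ {e | e ∈ S ∧ row e = a} = S := by
      ext e
      exact ⟨fun h => h.1, fun h => ⟨h, fun h' => hcon e h h'.2⟩⟩
    rw [e1]
    exact hz
  have hexc : ∀ {c : Set α}, WallE c row w ∅ → ∀ e ∈ S, ∃ e' ∈ c, row e' = row e := by
    intro c hW e he
    obtain ⟨p, q, h1, h2, h3, h4⟩ := hL.mem e he
    obtain ⟨e', he', h5⟩ := hW.surj p q h2 h3 h4 (notMem_empty _)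
    exact ⟨e', he', by rw [h5, h1]⟩
  refine ⟨?_, fun p q => wadj_symm, ?_, fun p q r => wadj_tri, ?_, ?_, ?_, ?_, ?_, ?_, ?_, ?_⟩
  · obtain ⟨c, h1, h2⟩ := hL.exists_rep
    exact ⟨⟨c, h1, h2⟩⟩
  · intro p hp
    exact wadj_par hp rfl
  · intro p q r t h1 h2 h3 h4 h5 h6
    exact h6 (wadj_c4 h1 (wadj_symm h4) (wadj_symm h2) h3 h5)
  · rintro p q ⟨h1, h2⟩
    rw [Sym2.eq_swap] at h1
    exact ⟨h1, h2.symm⟩
  · exact fun p q h => h.2
  · intro u hu
    exact hvis u hu u (by rw [sd_self]; omega)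
  · intro u p q hu h1 h2
    have h3 := hsd h1
    have h4 := hsd h2
    have h5 : sd u q ≤ sd u p + sd p q := sd_tri
    exact ⟨hvis u hu p (by omega), hvis u hu q (by omega)⟩
  · rintro p q hpq hp ⟨hs, _⟩ ⟨c, hc, hW⟩
    obtain ⟨e, he, hee⟩ := hseen hs
    obtain ⟨e', he', hee'⟩ := hexc hW e he
    obtain ⟨f, hf, hfr, hfl⟩ := togV hS hz (hvc p hp) ⟨e, he, hee⟩ hs hc hW
      ⟨e', he', by rw [hee', hee]⟩
    obtain ⟨hc', hW'⟩ := swp_rep hc hW hf ⟨e', he', by rw [hee', hee, hfr]⟩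
    refine ⟨⟨_, hc', hW'⟩, ⟨hfl, hp⟩, ?_⟩
    intro v hvp hvq
    have hv : v ∉ row f := by
      rw [hfr, Sym2.mem_iff]
      rintro (h1 | h1)
      · exact hvp h1
      · exact hvq h1
    show (v ∈ LocR P S row (swp row c f) z ∧ RegW w D Hs v) ↔ (v ∈ LocR P S row c z ∧ RegW w D Hs v)
    rw [locR_swp hv]
  · rintro ⟨c, hc, hW⟩ u hu huY
    have hfin : (YW P S row w D Hs z ⟨c, hc, hW⟩).Finite := by
      refine (Gad.rect_finite 0 0 (w + 1) (w + 1)).subset ?_
      rintro v ⟨_, hv, _⟩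
      unfold DeepR at hv
      simp only at hv
      rw [Gad.mem_rct]
      omega
    rcases htwo c hc hW hfin.toFinset (by
      intro v hv
      rw [Set.Finite.mem_toFinset] at hv
      exact hv) with h1 | ⟨v₀, h1, h2⟩
    · left
      have hsub : ∀ x ∈ YW P S row w D Hs z ⟨c, hc, hW⟩, x ∈ hfin.toFinset := fun x hx =>
        hfin.mem_toFinset.2 hx
      obtain ⟨n, hn⟩ : ∃ n, hfin.toFinset.card = n := ⟨_, rfl⟩
      rw [hn] at h1
      interval_cases n
      · rw [Finset.card_eq_zero] at hn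
        refine ⟨u, u, fun x hx => ?_⟩
        have := hsub x hx
        rw [hn] at this
        simp at this
      · obtain ⟨a, ha⟩ := Finset.card_eq_one.1 hn
        refine ⟨a, a, fun x hx => ?_⟩
        have := hsub x hx
        rw [ha, Finset.mem_singleton] at this
        exact Or.inl this
      · obtain ⟨a, b, _, ha⟩ := Finset.card_eq_two.1 hn
        refine ⟨a, b, fun x hx => ?_⟩
        have := hsub x hx
        rw [ha, Finset.mem_insert, Finset.mem_singleton] at this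
        exact this
    · right
      rw [Set.Finite.coe_toFinset] at h1
      have hus := h1 huY
      have e1 : nst wadj v₀ = star v₀ := by
        rw [star_eq_nst, insert_eq_of_mem (self_mem_star v₀)]
      refine ⟨v₀, ?_⟩
      rw [e1]
      refine h1.antisymm fun x hx => ⟨h2 hx, hvis u hu x ?_⟩
      have := star_near hx hus
      omega
  · rintro Φ hΦ ⟨c, hc, hW⟩ ⟨c', hc', hW'⟩ h1
    have h2 := rep_path (P := P) (row := row) (w := w) hS
      (Φ := fun c => ∀ h : c ⊆ S ∧ WallE c row w ∅, Φ (YW P S row w D Hs z ⟨c, h⟩)) ?_ hc hW hc' hW'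
      (fun _ => h1)
    · exact h2 ⟨hc', hW'⟩
    · intro c₁ hc₁ hW₁ f hf hfc h3 hh
      have h4 := h3 ⟨hc₁, hW₁⟩
      obtain ⟨p, q, e1, e2, e3, e4⟩ := hL.mem f hf
      by_cases hs : Seen P S row z (row f)
      · by_cases hr : RegW w D Hs p ∨ RegW w D Hs q
        · refine hΦ _ _ p q e2 ⟨e1 ▸ hs, hr⟩ ?_ h4
          intro v hvp hvq
          have hv : v ∉ row f := by
            rw [e1, Sym2.mem_iff]
            rintro (h5 | h5)
            · exact hvp h5
            · exact hvq h5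
          show (v ∈ LocR P S row c₁ z ∧ RegW w D Hs v) ↔
            (v ∈ LocR P S row (swp row c₁ f) z ∧ RegW w D Hs v)
          rw [locR_swp hv]
        · have e5 : YW P S row w D Hs z ⟨swp row c₁ f, hh⟩ = YW P S row w D Hs z ⟨c₁, hc₁, hW₁⟩ := by
            ext v
            show (v ∈ LocR P S row (swp row c₁ f) z ∧ RegW w D Hs v) ↔
              (v ∈ LocR P S row c₁ z ∧ RegW w D Hs v)
            by_cases hv : v ∈ row f
            · constructor
              · rintro ⟨_, h5⟩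
                exfalso
                rw [e1, Sym2.mem_iff] at hv
                rcases hv with rfl | rfl
                · exact hr (Or.inl h5)
                · exact hr (Or.inr h5)
              · rintro ⟨_, h5⟩
                exfalso
                rw [e1, Sym2.mem_iff] at hv
                rcases hv with rfl | rfl
                · exact hr (Or.inl h5)
                · exact hr (Or.inr h5)
            · rw [locR_swp hv]
          rw [e5]
          exact h4
      · have e5 : YW P S row w D Hs z ⟨swp row c₁ f, hh⟩ = YW P S row w D Hs z ⟨c₁, hc₁, hW₁⟩ := by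
          ext v
          show (v ∈ LocR P S row (swp row c₁ f) z ∧ RegW w D Hs v) ↔
            (v ∈ LocR P S row c₁ z ∧ RegW w D Hs v)
          constructor
          · rintro ⟨h5, h6⟩
            exact ⟨(locR_unseen hS hc₁ hW₁ hf hfc hs (hvc v h6)).1 h5, h6⟩
          · rintro ⟨h5, h6⟩
            exact ⟨(locR_unseen hS hc₁ hW₁ hf hfc hs (hvc v h6)).2 h5, h6⟩
        rw [e5]
        exact h4

/-- change of one representative -/
def RelW {α : Type*} (S : Set α) (row : α → Sym2 (ℕ × ℕ)) (w : ℕ) (c c' : ChW S row w)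
    (p q : ℕ × ℕ) : Prop := ∃ f ∈ S, row f = s(p, q) ∧ c'.1 = swp row c.1 f

/-- unseen changes -/
lemma yw_unseen [P.Finite] (hS : S ⊆ P.E) {D : ℕ} {Hs : Finset (ℕ × ℕ)}
    (hmem : ∀ e ∈ S, ∃ p q, row e = s(p, q) ∧ wadj p q ∧ p ∈ rect 0 0 (w + 1) (w + 1) ∧
      q ∈ rect 0 0 (w + 1) (w + 1))
    (hvc : ∀ v, RegW w D Hs v → VC P S row w v) {z : α} {c c' : ChW S row w} {p q : ℕ × ℕ}
    (h : RelW S row w c c' p q) (hn : ¬ SnW P S row w D Hs z p q) :
    YW P S row w D Hs z c' = YW P S row w D Hs z c := by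
  obtain ⟨f, hf, hfr, hc'⟩ := h
  obtain ⟨c, hc, hW⟩ := c
  obtain ⟨c', hc₁, hW₁⟩ := c'
  simp only at hc'
  subst hc'
  ext v
  show (v ∈ LocR P S row (swp row c f) z ∧ RegW w D Hs v) ↔ (v ∈ LocR P S row c z ∧ RegW w D Hs v)
  refine and_congr_left fun hv => ?_
  by_cases hvf : v ∈ row f
  · refine locR_unseen hS hc hW hf ?_ ?_ (hvc v hv)
    · obtain ⟨p', q', h1, h2, h3, h4⟩ := hmem f hf
      obtain ⟨e, he, h5⟩ := hW.surj p' q' h2 h3 h4 (notMem_empty _)
      exact ⟨e, he, by rw [h5, h1]⟩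
    · intro hs
      rw [hfr] at hs hvf
      refine hn ⟨hs, ?_⟩
      rw [Sym2.mem_iff] at hvf
      rcases hvf with rfl | rfl
      · exact Or.inl hv
      · exact Or.inr hv
  · exact locR_swp hvf

/-- **Location systems of walls.** -/
theorem locT_of [P.Finite] {Hm : Finset (ℕ × ℕ)} (hL : LWal P S row w Hm) {D : ℕ} (hD : 1 ≤ D)
    {Hs : Finset (ℕ × ℕ)} (hvc : ∀ v, RegW w D Hs v → VC P S row w v) {Vis : ℕ × ℕ → Prop}
    (hvis : ∀ v, Vis v → ∀ x, sd v x ≤ 6 → RegW w D Hs x) {z : α} (hz : z ∈ P.closure S)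
    (htwo : ∀ c, c ⊆ S → WallE c row w ∅ → ∀ A : Finset (ℕ × ℕ),
      (∀ v ∈ A, v ∈ LocR P S row c z ∧ RegW w D Hs v) →
      A.card ≤ 2 ∨ ∃ v₀, (A : Set (ℕ × ℕ)) ⊆ star v₀ ∧ star v₀ ⊆ LocR P S row c z) :
    LocT wadj (RegW w D Hs) Vis (YW P S row w D Hs z) (SnW P S row w D Hs z) (RelW S row w) := by
  have hS := hL.sub
  refine ⟨locS_of hL hD hvc hvis hz htwo, ?_, ?_, ?_, ?_⟩
  · rintro p q hpq hp ⟨hs, _⟩ ⟨c, hc, hW⟩
    have hex : ∃ e ∈ S, row e = s(p, q) := by
      by_contra hcon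
      push Not at hcon
      refine hs ?_
      have e1 : S \ {e | e ∈ S ∧ row e = s(p, q)} = S := by
        ext e
        exact ⟨fun h => h.1, fun h => ⟨h, fun h' => hcon e h h'.2⟩⟩
      rw [e1]
      exact hz
    obtain ⟨e, he, hee⟩ := hex
    obtain ⟨p', q', h1, h2, h3, h4⟩ := hL.mem e he
    obtain ⟨e', he', h5⟩ := hW.surj p' q' h2 h3 h4 (notMem_empty _)
    have hee' : row e' = s(p, q) := by rw [h5, ← h1, hee]
    obtain ⟨f, hf, hfr, hfl⟩ := togV hS hz (hvc p hp) ⟨e, he, hee⟩ hs hc hW ⟨e', he', hee'⟩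
    obtain ⟨hc', hW'⟩ := swp_rep hc hW hf ⟨e', he', by rw [hee', hfr]⟩
    exact ⟨⟨_, hc', hW'⟩, ⟨f, hf, hfr, rfl⟩, hfl, hp⟩
  · rintro ⟨c, hc, hW⟩ ⟨c', hc', hW'⟩ p q ⟨f, hf, hfr, hcc⟩ v hvp hvq
    simp only at hcc
    subst hcc
    have hv : v ∉ row f := by
      rw [hfr, Sym2.mem_iff]
      rintro (h1 | h1)
      · exact hvp h1
      · exact hvq h1
    show (v ∈ LocR P S row (swp row c f) z ∧ RegW w D Hs v) ↔ (v ∈ LocR P S row c z ∧ RegW w D Hs v)
    rw [locR_swp hv]
  · exact fun c c' p q h hn => yw_unseen hS hL.mem hvc h hn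
  · rintro c c' p q ⟨f, hf, hfr, hcc⟩
    exact ⟨f, hf, by rw [hfr, Sym2.eq_swap], hcc⟩

end

end DA
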