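import Pool.Agent.GL.Full
import Pool.Agent.BICS.Base
import Pool.Agent.TST.SGDefs

/-!
# Grounding (helper14): contraction of a full vertex set of a bicircular matroid

The elements inside of `Hs` are contracted; an element with exactly one end in `Hs` becomes a loop
at its other end.
-/

open Set
open scoped Matroid

namespace DA

open BIC Gad BICS TST

variable {α V : Type*}

section

variable {S : Set α} {ends : α → Sym2 V} {Hs : Set V}

/-- the ends after the grounding -/
lemma mem_eQ_iff {e : α} (he : e ∈ SQ Hs S ends) {v : V} :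
    v ∈ eQ Hs ends e ↔ v ∈ ends e ∧ v ∉ Hs := by
  obtain ⟨_, x, hx, hxH⟩ := he
  unfold eQ
  split_ifs with h
  · have h2 := h.choose_spec.choose_spec
    set a := h.choose with ha
    set b := h.choose_spec.choose with hb
    rw [h2.1, Sym2.mem_iff, Sym2.mem_iff]
    constructor
    · rintro (rfl | rfl) <;> exact ⟨Or.inl rfl, h2.2.1⟩
    · rintro ⟨rfl | rfl, h3⟩
      · exact Or.inl rfl
      · exact absurd h2.2.2 h3
  · constructor
    · intro hv
      refine ⟨hv, fun hvH => h ?_⟩
      by_cases hxv : x = v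
      · exact absurd hvH (hxv ▸ hxH)
      · exact ⟨x, v, (Sym2.mem_and_mem_iff hxv).1 ⟨hx, hv⟩, hxH, hvH⟩
    · exact fun hv => hv.1

/-- elements without an end in `Hs` do not change -/
lemma eQ_same {e : α} (h : ∀ v ∈ ends e, v ∉ Hs) : eQ Hs ends e = ends e := by
  unfold eQ
  rw [dif_neg]
  rintro ⟨v, w, h1, _, h3⟩
  exact h w (by rw [h1]; exact Sym2.mem_mk_right _ _) h3

/-- **Grounding.** -/
theorem bic_ground {P : Matroid α} [P.Finite] (hB : Bic P S ends) {F : Set α}
    (hF : FullB S ends Hs F) : Bic (P ／ ins S ends Hs) (SQ Hs S ends) (eQ Hs ends) := by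
  classical
  obtain ⟨hFi, φ₀, hφ₀, hφ₀e⟩ := hF
  have hCE : ins S ends Hs ⊆ P.E := fun e he => hB.sub he.1
  have hFI : P.Indep F := FullB.indep hB ⟨hFi, φ₀, hφ₀, hφ₀e⟩
  have hFf : F.Finite := P.ground_finite.subset hFI.subset_ground
  have hHf : Hs.Finite := by
    rw [← hφ₀.image_eq]
    exact hFf.image _
  have hFc : F.ncard = Hs.ncard := by
    rw [← hφ₀.image_eq, hφ₀.injOn.ncard_image]
  -- `F` is a basis of the elements inside of `Hs`
  have hbas : P.IsBasis F (ins S ends Hs) := by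
    refine hFI.isBasis_of_subset_of_subset_closure hFi ?_
    intro e he
    by_contra hcl
    have h1 : P.Indep (insert e F) := by
      have h2 : e ∉ F := fun h3 => hcl (P.subset_closure _ hFI.subset_ground h3)
      exact (hFI.notMem_closure_iff_of_notMem h2 (hCE he)).1 hcl
    have h2 : (insert e F).encard ≤ Hs.encard := by
      rw [← h1.eRk_eq_encard]
      exact (P.eRk_mono (insert_subset he hFi)).trans (hB.rk Hs)
    have h3 : e ∉ F := fun h3 => hcl (P.subset_closure _ hFI.subset_ground h3)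
    rw [encard_insert_of_notMem h3, ← hFf.cast_ncard_eq, ← hHf.cast_ncard_eq, hFc] at h2
    have h4 : Hs.ncard + 1 ≤ Hs.ncard := by exact_mod_cast h2
    omega
  refine ⟨?_, ?_, ?_⟩
  · rintro e ⟨he, v, hv, hvH⟩
    exact ⟨hB.sub he, fun h => hvH (h.2 v hv)⟩
  · intro F' φ hF' hφ hφe
    have h1 : ∀ e ∈ F', φ e ∈ ends e ∧ φ e ∉ Hs := fun e he => (mem_eQ_iff (hF' he)).1 (hφe e he)
    rw [hbas.contract_indep_iff]
    constructor
    · refine hB.ind _ (fun e => if e ∈ F then φ₀ e else φ e) ?_ ?_ ?_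
      · rintro e (he | he)
        · exact (hF' he).1
        · exact (hFi he).1
      · intro e he e' he' hee
        dsimp only at hee
        by_cases g1 : e ∈ F <;> by_cases g2 : e' ∈ F
        · rw [if_pos g1, if_pos g2] at hee
          exact hφ₀.injOn g1 g2 hee
        · rw [if_pos g1, if_neg g2] at hee
          exact absurd (hee ▸ hφ₀.mapsTo g1) (h1 e' (he'.resolve_right g2)).2
        · rw [if_neg g1, if_pos g2] at hee
          exact absurd (hee ▸ hφ₀.mapsTo g2) (h1 e (he.resolve_right g1)).2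
        · rw [if_neg g1, if_neg g2] at hee
          exact hφ (he.resolve_right g1) (he'.resolve_right g2) hee
      · intro e he
        split_ifs with g1
        · exact hφ₀e e g1
        · exact (h1 e (he.resolve_right g1)).1
    · rw [Set.disjoint_left]
      intro e he he'
      exact (h1 e he').2 (he.2 _ (h1 e he').1)
  · intro W
    rcases W.finite_or_infinite with hW | hW
    swap
    · rw [hW.encard_eq]
      exact le_top
    set X := ins (SQ Hs S ends) (eQ Hs ends) W with hX
    have hXE : X ⊆ P.E \ ins S ends Hs := by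
      rintro e ⟨⟨he, v, hv, hvH⟩, _⟩
      exact ⟨hB.sub he, fun h => hvH (h.2 v hv)⟩
    have h1 := BICS.rk_contract_set (M := P) hCE hXE
    have h2 : rk P (X ∪ ins S ends Hs) ≤ (W \ Hs).ncard + Hs.ncard := by
      have h3 : X ∪ ins S ends Hs ⊆ ins S ends ((W \ Hs) ∪ Hs) := by
        rintro e (he | he)
        · refine ⟨he.1.1, fun v hv => ?_⟩
          by_cases hvH : v ∈ Hs
          · exact Or.inr hvH
          · exact Or.inl ⟨he.2 v ((mem_eQ_iff he.1).2 ⟨hv, hvH⟩), hvH⟩
        · exact ⟨he.1, fun v hv => Or.inr (he.2 v hv)⟩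
      have h4 := (P.eRk_mono h3).trans (hB.rk _)
      have h5 : ((W \ Hs) ∪ Hs).encard = ((W \ Hs).ncard + Hs.ncard : ℕ) := by
        rw [← ncard_union_eq disjoint_sdiff_left (hW.subset sdiff_subset) hHf,
          ((hW.subset sdiff_subset).union hHf).cast_ncard_eq]
      rw [h5, ← cast_rk] at h4
      exact_mod_cast h4
    have h3 : rk P (ins S ends Hs) = Hs.ncard := by
      have h4 := hbas.eRk_eq_eRk
      rw [← cast_rk, ← cast_rk] at h4
      have h5 : rk P F = rk P (ins S ends Hs) := by exact_mod_cast h4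
      rw [← h5, rk_indep hFI, hFc]
    have h4 : rk (P ／ ins S ends Hs) X ≤ W.ncard := by
      have := ncard_le_ncard (sdiff_subset : W \ Hs ⊆ W) hW
      omega
    rw [← cast_rk, ← hW.cast_ncard_eq]
    exact_mod_cast h4

/-- full sets outside of `Hs` stay full -/
theorem FullB.ground {U : Set V} (hU : Disjoint U Hs) {F : Set α} (hF : FullB S ends U F) :
    FullB (SQ Hs S ends) (eQ Hs ends) U F := by
  obtain ⟨hFi, φ, hφ, hφe⟩ := hF
  have h1 : ∀ e ∈ F, e ∈ SQ Hs S ends := fun e he =>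
    ⟨(hFi he).1, φ e, hφe e he, Set.disjoint_left.1 hU (hφ.mapsTo he)⟩
  refine ⟨fun e he => ⟨h1 e he, fun v hv => ?_⟩, φ, hφ, fun e he => ?_⟩
  · exact (hFi he).2 v ((mem_eQ_iff (h1 e he)).1 hv).1
  · exact (mem_eQ_iff (h1 e he)).2 ⟨hφe e he, Set.disjoint_left.1 hU (hφ.mapsTo he)⟩

/-- a half edge gives a full set: `U` connected outside of `Hs` and an element from `U` to `Hs` -/
lemma loop_ground {e : α} (he : e ∈ S) {v w : V} (hvw : ends e = s(v, w)) (hv : v ∉ Hs)
    (hw : w ∈ Hs) : e ∈ SQ Hs S ends ∧ eQ Hs ends e = s(v, v) := by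
  refine ⟨⟨he, v, by rw [hvw]; exact Sym2.mem_mk_left _ _, hv⟩, ?_⟩
  unfold eQ
  have h : ∃ v w, ends e = s(v, w) ∧ v ∉ Hs ∧ w ∈ Hs := ⟨v, w, hvw, hv, hw⟩
  rw [dif_pos h]
  have h2 := h.choose_spec.choose_spec
  have h3 : h.choose = v := by
    have h4 := hvw.symm.trans h2.1
    rcases Sym2.eq_iff.1 h4 with ⟨h5, _⟩ | ⟨h5, _⟩
    · exact h5.symm
    · exact absurd h2.2.2 (h5 ▸ hv)
  rw [h3]

/-- adjacency outside of `Hs` does not change -/
lemma gadj_ground {v w : V} (hv : v ∉ Hs) (hw : w ∉ Hs) :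
    GAdj S ends v w → GAdj (SQ Hs S ends) (eQ Hs ends) v w := by
  rintro ⟨e, he, hvw⟩
  have h1 : ∀ x ∈ ends e, x ∉ Hs := by
    intro x hx
    rw [hvw, Sym2.mem_iff] at hx
    rcases hx with rfl | rfl
    · exact hv
    · exact hw
  exact ⟨e, ⟨he, v, by rw [hvw]; exact Sym2.mem_mk_left _ _, hv⟩, (eQ_same h1).trans hvw⟩

end

end DA
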