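import Pool.Agent.DA.MapM
import Pool.Agent.DA.CrossDef

/-!
# HEAL: lifted walls and walls with windows become exact full walls

`GHol P S Λ row w Hs`: a brick wall with rows outside of the windows `Hs`, the elements of `Λ` are
half edges, one for every row which leaves a window.
`healG`: the windows are filled by coloops and principal extensions: `P'` carries a full wall
(`RWal`), `P' ＼ New` is a copy of `P`, and `New` has at most `4 |Hs|` elements.
`LWal P S row w Hs`: a (lifted) brick wall with rows which is exact after the contraction of the rows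
inside of the windows; `LWal.gHol`, `heal`.
-/

open Set BIC BICS
open scoped Matroid

namespace DA

open Gad

universe u v

section

variable {α V : Type*}

/-- an element with exactly one end in `Hs` becomes a half edge -/
noncomputable def hen (Hs : Set V) (row : α → Sym2 V) (e : α) : Sym2 V := by
  classical
  exact if h : ∃ x y, row e = s(x, y) ∧ x ∉ Hs ∧ y ∈ Hs then s(h.choose, h.choose) else row e

lemma hen_half {Hs : Set V} {row : α → Sym2 V} {e : α} {x y : V} (h : row e = s(x, y))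
    (hx : x ∉ Hs) (hy : y ∈ Hs) : hen Hs row e = s(x, x) := by
  classical
  have hex : ∃ x y, row e = s(x, y) ∧ x ∉ Hs ∧ y ∈ Hs := ⟨x, y, h, hx, hy⟩
  unfold hen
  rw [dif_pos hex]
  obtain ⟨y', h1, h2, h3⟩ := hex.choose_spec
  have h5 := Sym2.eq_iff.1 (h.symm.trans h1)
  rcases h5 with ⟨h5, _⟩ | ⟨h5, h4⟩
  · rw [← h5]
  · exact absurd (h5 ▸ h3) hx

lemma hen_out {Hs : Set V} {row : α → Sym2 V} {e : α} (h : ∀ v ∈ row e, v ∉ Hs) :
    hen Hs row e = row e := by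
  classical
  unfold hen
  rw [dif_neg]
  rintro ⟨x, y, h1, _, h3⟩
  exact h y (by rw [h1]; exact Sym2.mem_mk_right _ _) h3

/-- the elements whose row has an end in `Hs` -/
def Tch (S : Set α) (row : α → Sym2 V) (Hs : Set V) : Set α := {e | e ∈ S ∧ ∃ v ∈ row e, v ∈ Hs}

end

/-- A brick wall with rows outside of the windows `Hs`; the elements of `Λ` are half edges, one (or
more) for every row which leaves a window. -/
structure GHol {α : Type*} (P : Matroid α) (S Λ : Set α) (row : α → Sym2 (ℕ × ℕ)) (w : ℕ)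
    (Hs : Finset (ℕ × ℕ)) : Prop where
  sub : S ⊆ P.E
  subL : Λ ⊆ P.E
  disj : Disjoint S Λ
  mem : ∀ e ∈ S, ∃ p q, row e = s(p, q) ∧ wadj p q ∧
    p ∈ rect 0 0 (w + 1) (w + 1) \ (Hs : Set (ℕ × ℕ)) ∧
    q ∈ rect 0 0 (w + 1) (w + 1) \ (Hs : Set (ℕ × ℕ))
  surj : ∀ p q, wadj p q → p ∈ rect 0 0 (w + 1) (w + 1) \ (Hs : Set (ℕ × ℕ)) →
    q ∈ rect 0 0 (w + 1) (w + 1) \ (Hs : Set (ℕ × ℕ)) → ∃ e ∈ S, row e = s(p, q)
  lmem : ∀ e ∈ Λ, ∃ x y, row e = s(x, y) ∧ x ∉ Hs ∧ y ∈ Hs ∧ wadj x y ∧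
    x ∈ rect 0 0 (w + 1) (w + 1)
  lsurj : ∀ x y, wadj x y → x ∈ rect 0 0 (w + 1) (w + 1) → x ∉ Hs → y ∈ Hs →
    ∃ e ∈ Λ, row e = s(x, y)
  hs : ∀ v ∈ Hs, v.1 ≤ w ∧ v.2 ≤ w ∧ ∃ a ≤ w, (a, v.2) ∉ Hs
  bic : ∀ c, c ⊆ S → WallH c row w (Hs : Set (ℕ × ℕ)) →
    Bic (P ／ (S \ c)) (c ∪ Λ) (hen (Hs : Set (ℕ × ℕ)) row)

/-- The output of `healG`. -/
structure HealG {α : Type u} {β : Type v} (P : Matroid α) (S Λ : Set α) (row : α → Sym2 (ℕ × ℕ)) (w : ℕ)
    (Hs : Finset (ℕ × ℕ)) (P' : Matroid β) (j : α → β) (S' New : Set β)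
    (row' : β → Sym2 (ℕ × ℕ)) : Prop where
  fin : P'.Finite
  inj : Function.Injective j
  new : ∀ e, j e ∉ New
  newf : New.Finite
  newc : New.ncard ≤ 4 * Hs.card
  ground : P'.E = j '' P.E ∪ New
  S_eq : S' = j '' S ∪ New
  row_old : ∀ e ∈ S, row' (j e) = row e
  row_new : ∀ e ∈ New, ∃ v ∈ row' e, v ∈ Hs
  inj_new : InjOn row' New
  lrow : ∀ e ∈ Λ, ∀ x y, row e = s(x, y) → x ∉ Hs → y ∈ Hs → row' (j e) = s(x, x)
  wal : RWal P' S' row' w
  bic : ∀ c, c ⊆ S' → WallE c row' w ∅ → Bic (P' ／ (S' \ c)) (c ∪ j '' Λ) row'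
  /-- the subdivided wall (all elements of the rows) -/
  bicV : ∀ (V : Type u) (nd : ℕ × ℕ → V) (en : β → Sym2 V), Function.Injective nd →
    Bic P (S ∪ Λ) (fun e => en (j e)) →
    (∀ e ∈ Λ, ∀ x y, row e = s(x, y) → x ∉ Hs → y ∈ Hs → en (j e) = s(nd x, nd x)) →
    (∀ e ∈ S, ∀ h ∈ Hs, nd h ∉ en (j e)) →
    (∀ e ∈ New, ∀ x y, row' e = s(x, y) → en e = s(nd x, nd y)) → Bic P' S' en
  rk : ∀ X ⊆ P.E, BIC.rk P' (j '' (X ∪ Λ) ∪ New) = BIC.rk P (X ∪ Λ) + Hs.card
  del : P' ＼ New = P.map j inj.injOn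

lemma wadj_ne {p q : ℕ × ℕ} (h : wadj p q) : p ≠ q := by
  rintro rfl
  unfold wadj at h
  omega

lemma wadj_symm' {p q : ℕ × ℕ} (h : wadj p q) : wadj q p := by
  unfold wadj at h ⊢
  omega

/-- The edges of the wall with an end in `Hs`. -/
lemma exists_edges (w : ℕ) (Hs : Finset (ℕ × ℕ)) : ∃ E : Finset (Sym2 (ℕ × ℕ)),
    E.card ≤ 4 * Hs.card ∧ ∀ s, s ∈ E ↔ (∃ v ∈ s, v ∈ Hs) ∧ ∃ p q, s = s(p, q) ∧ wadj p q ∧
      p ∈ rect 0 0 (w + 1) (w + 1) ∧ q ∈ rect 0 0 (w + 1) (w + 1) := by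
  classical
  obtain ⟨dir, hdir⟩ : ∃ dir : ℕ × ℕ → ℕ → ℕ × ℕ, ∀ v i, dir v i = if i = 0 then (v.1 + 1, v.2)
      else if i = 1 then (v.1 - 1, v.2) else if i = 2 then (v.1, v.2 + 1) else (v.1, v.2 - 1) :=
    ⟨_, fun _ _ => rfl⟩
  refine ⟨((Hs ×ˢ Finset.range 4).image fun x => s(x.1, dir x.1 x.2)).filter fun s =>
    (∃ v ∈ s, v ∈ Hs) ∧ ∃ p q, s = s(p, q) ∧ wadj p q ∧
      p ∈ rect 0 0 (w + 1) (w + 1) ∧ q ∈ rect 0 0 (w + 1) (w + 1), ?_, ?_⟩
  · refine (Finset.card_filter_le _ _).trans (Finset.card_image_le.trans ?_)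
    rw [Finset.card_product, Finset.card_range, mul_comm]
  · intro s
    rw [Finset.mem_filter]
    refine ⟨fun h => h.2, fun h => ⟨?_, h⟩⟩
    obtain ⟨⟨v, hv, hvH⟩, p, q, rfl, hpq, _, _⟩ := h
    rw [Finset.mem_image]
    have key : ∀ p q : ℕ × ℕ, wadj p q → ∃ i < 4, dir p i = q := by
      rintro ⟨p1, p2⟩ ⟨q1, q2⟩ h
      unfold wadj at h
      simp only at h
      rcases h with ⟨h1, h2 | h2⟩ | ⟨h1, ⟨h2, _⟩ | ⟨h2, _⟩⟩
      · refine ⟨0, by omega, ?_⟩
        rw [hdir, if_pos rfl, Prod.mk.injEq]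
        exact ⟨h2, h1⟩
      · refine ⟨1, by omega, ?_⟩
        rw [hdir, if_neg (by omega), if_pos rfl, Prod.mk.injEq]
        exact ⟨by simp only; omega, h1⟩
      · refine ⟨2, by omega, ?_⟩
        rw [hdir, if_neg (by omega), if_neg (by omega), if_pos rfl, Prod.mk.injEq]
        exact ⟨h1, h2⟩
      · refine ⟨3, by omega, ?_⟩
        rw [hdir, if_neg (by omega), if_neg (by omega), if_neg (by omega), Prod.mk.injEq]
        exact ⟨h1, by simp only; omega⟩
    rw [Sym2.mem_iff] at hv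
    rcases hv with rfl | rfl
    · obtain ⟨i, hi, hd⟩ := key _ _ hpq
      exact ⟨(v, i), Finset.mem_product.2 ⟨hvH, Finset.mem_range.2 hi⟩, by simp only [hd]⟩
    · obtain ⟨i, hi, hd⟩ := key _ _ (wadj_symm' hpq)
      exact ⟨(v, i), Finset.mem_product.2 ⟨hvH, Finset.mem_range.2 hi⟩, by
        simp only [hd]
        exact Sym2.eq_swap⟩

/-- The type of the healed matroid. -/
abbrev HT (α : Type u) : Type u := α ⊕ ULift.{u} ((ℕ × ℕ) ⊕ Sym2 (ℕ × ℕ))

/-- **HEAL.** -/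
theorem healG {α : Type u} (P : Matroid α) [P.Finite] (S Λ : Set α) (row : α → Sym2 (ℕ × ℕ))
    (w : ℕ) (Hs : Finset (ℕ × ℕ)) (h : GHol P S Λ row w Hs) :
    ∃ (P' : Matroid (HT α)) (S' New : Set (HT α)) (row' : HT α → Sym2 (ℕ × ℕ)),
      HealG P S Λ row w Hs P' Sum.inl S' New row' := by
  classical
  have hΛE : Λ ⊆ P.E := h.subL
  have hΛrow : ∀ e ∈ Λ, ∃ x y, row e = s(x, y) ∧ x ∉ Hs ∧ y ∈ Hs := by
    intro e he
    obtain ⟨x, y, h1, h2, h3, _⟩ := h.lmem e he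
    exact ⟨x, y, h1, h2, h3⟩
  have hSrow : ∀ e ∈ S, ∀ v ∈ row e, v ∉ Hs := by
    intro e he v hv
    obtain ⟨p, q, h1, _, h2, h3⟩ := h.mem e he
    rw [h1, Sym2.mem_iff] at hv
    rcases hv with rfl | rfl
    · exact fun h4 => h2.2 (by exact_mod_cast h4)
    · exact fun h4 => h3.2 (by exact_mod_cast h4)
  -- the edges
  obtain ⟨Ed, hEdc, hEd⟩ := exists_edges w Hs
  -- the ends of an edge, and the element of `Λ` of a row
  have hch : ∀ s : Sym2 (ℕ × ℕ), ∃ (x y : ℕ × ℕ) (l : Option α), s ∈ Ed → s = s(x, y) ∧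
      wadj x y ∧ x ∈ rect 0 0 (w + 1) (w + 1) ∧ y ∈ rect 0 0 (w + 1) (w + 1) ∧ (x ∈ Hs ∨ y ∈ Hs) ∧
      ((x ∉ Hs ∨ y ∉ Hs) → ∃ a ∈ Λ, row a = s ∧ l = some a) := by
    intro s
    by_cases hs : s ∈ Ed
    · obtain ⟨⟨v, hv, hvH⟩, x, y, rfl, hxy, hx, hy⟩ := (hEd s).1 hs
      have hvxy : x ∈ Hs ∨ y ∈ Hs := by
        rw [Sym2.mem_iff] at hv
        rcases hv with rfl | rfl
        · exact Or.inl hvH
        · exact Or.inr hvH
      by_cases hout : x ∉ Hs ∨ y ∉ Hs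
      · obtain ⟨a, ha, har⟩ : ∃ a ∈ Λ, row a = s(x, y) := by
          rcases hout with h1 | h1
          · exact h.lsurj x y hxy hx h1 (hvxy.resolve_left h1)
          · obtain ⟨a, ha, har⟩ := h.lsurj y x (wadj_symm' hxy) hy h1 (hvxy.resolve_right h1)
            exact ⟨a, ha, by rw [har]; exact Sym2.eq_swap⟩
        exact ⟨x, y, some a, fun _ => ⟨rfl, hxy, hx, hy, hvxy, fun _ => ⟨a, ha, har, rfl⟩⟩⟩
      · exact ⟨x, y, none, fun _ => ⟨rfl, hxy, hx, hy, hvxy, fun h' => absurd h' hout⟩⟩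
    · exact ⟨(0, 0), (0, 0), none, fun h' => absurd h' hs⟩
  choose xs ys ls hxy using hch
  -- the new elements
  obtain ⟨bh, hbh⟩ : ∃ bh : ℕ × ℕ → HT α, ∀ v, bh v = Sum.inr (ULift.up (Sum.inl v)) :=
    ⟨_, fun _ => rfl⟩
  obtain ⟨ed, hed⟩ : ∃ ed : Sym2 (ℕ × ℕ) → HT α, ∀ s, ed s = Sum.inr (ULift.up (Sum.inr s)) :=
    ⟨_, fun _ => rfl⟩
  have hbhi : Function.Injective bh := by
    intro v v' hv
    rw [hbh, hbh] at hv
    simpa using hv
  have hedi : Function.Injective ed := by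
    intro v v' hv
    rw [hed, hed] at hv
    simpa using hv
  have hbe : ∀ v s, bh v ≠ ed s := by
    intro v s hv
    rw [hbh, hed] at hv
    simp at hv
  have hbl : ∀ v (a : α), bh v ≠ Sum.inl a := by
    intro v s hv
    rw [hbh] at hv
    simp at hv
  have hel : ∀ s (a : α), ed s ≠ Sum.inl a := by
    intro v s hv
    rw [hed] at hv
    simp at hv
  obtain ⟨row', hr1, hr2, hr3⟩ : ∃ row' : HT α → Sym2 (ℕ × ℕ),
      (∀ a : α, row' (Sum.inl a) = hen (Hs : Set (ℕ × ℕ)) row a) ∧ (∀ v, row' (bh v) = s(v, v)) ∧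
      ∀ s, row' (ed s) = s := by
    refine ⟨Sum.elim (hen (Hs : Set (ℕ × ℕ)) row) fun x => Sum.elim (fun v => s(v, v)) id x.down,
      fun a => rfl, fun v => ?_, fun s => ?_⟩
    · rw [hbh]
      rfl
    · rw [hed]
      rfl
  -- the matroids
  have hji : Function.Injective (Sum.inl : α → HT α) := Sum.inl_injective
  have hP₀f : (P.map (Sum.inl : α → HT α) hji.injOn).Finite := ⟨by
    rw [Matroid.map_ground]
    exact P.ground_finite.image _⟩
  obtain ⟨P₀, hP₀⟩ : ∃ P₀, P₀ = P.map (Sum.inl : α → HT α) hji.injOn := ⟨_, rfl⟩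
  rw [← hP₀] at hP₀f
  have hP₀E : P₀.E = Sum.inl '' P.E := by
    rw [hP₀, Matroid.map_ground]
  obtain ⟨B, hB⟩ : ∃ B : Finset (HT α), B = Hs.image bh := ⟨_, rfl⟩
  have hmB : ∀ e, e ∈ B ↔ ∃ v ∈ Hs, bh v = e := by
    intro e
    rw [hB, Finset.mem_image]
  have hBc : B.card = Hs.card := by
    rw [hB, Finset.card_image_of_injective _ hbhi]
  obtain ⟨A, hA⟩ : ∃ A : Finset (HT α), A = Ed.image ed := ⟨_, rfl⟩
  have hmA : ∀ e, e ∈ A ↔ ∃ s ∈ Ed, ed s = e := by
    intro e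
    rw [hA, Finset.mem_image]
  have hAc : A.card = Ed.card := by
    rw [hA, Finset.card_image_of_injective _ hedi]
  obtain ⟨Pb, hPbf, hPbE, hPbd, hPbr, hPbB, hPbV⟩ := pex_coloops.{u, u} B P₀ (by
    intro p hp hpE
    obtain ⟨v, _, rfl⟩ := (hmB p).1 hp
    rw [hP₀E] at hpE
    obtain ⟨a, _, ha⟩ := hpE
    exact hbl v a ha.symm)
  -- half edges
  obtain ⟨hf, hhf⟩ : ∃ hf : Sym2 (ℕ × ℕ) → ℕ × ℕ → HT α, ∀ s x, hf s x = if x ∈ Hs then bh x
      else (match ls s with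
        | some a => Sum.inl a
        | none => bh x) := ⟨_, fun _ _ => rfl⟩
  have hfin : ∀ s x, x ∈ Hs → hf s x = bh x := by
    intro s x hx
    rw [hhf, if_pos hx]
  have hfout : ∀ s ∈ Ed, ∀ x, (x = xs s ∨ x = ys s) → x ∉ Hs → ∃ a ∈ Λ, row a = s ∧
      hf s x = Sum.inl a := by
    intro s hs x hx hxH
    obtain ⟨_, _, _, _, _, h2⟩ := hxy s hs
    obtain ⟨a, ha, har, hls⟩ := h2 (by
      rcases hx with rfl | rfl
      · exact Or.inl hxH
      · exact Or.inr hxH)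
    refine ⟨a, ha, har, ?_⟩
    rw [hhf, if_neg hxH, hls]
  have hfrow : ∀ s ∈ Ed, ∀ x, (x = xs s ∨ x = ys s) → row' (hf s x) = s(x, x) := by
    intro s hs x hx
    by_cases hxH : x ∈ Hs
    · rw [hfin s x hxH, hr2]
    · obtain ⟨a, ha, har, h2⟩ := hfout s hs x hx hxH
      rw [h2, hr1]
      obtain ⟨h3, _, _, _, h4, _⟩ := hxy s hs
      rcases hx with rfl | rfl
      · have h5 : ys s ∈ Hs := h4.resolve_left hxH
        exact hen_half (by rw [har]; exact h3) (by exact_mod_cast hxH) (by exact_mod_cast h5)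
      · have h5 : xs s ∈ Hs := h4.resolve_right hxH
        exact hen_half (by rw [har, Sym2.eq_swap]; exact h3) (by exact_mod_cast hxH)
          (by exact_mod_cast h5)
  have hfE : ∀ s ∈ Ed, ∀ x, (x = xs s ∨ x = ys s) → hf s x ∈ (Sum.inl '' Λ ∪ B : Set (HT α)) := by
    intro s hs x hx
    by_cases hxH : x ∈ Hs
    · rw [hfin s x hxH]
      exact Or.inr ((hmB _).2 ⟨x, hxH, rfl⟩)
    · obtain ⟨a, ha, har, h2⟩ := hfout s hs x hx hxH
      rw [h2]
      exact Or.inl ⟨a, ha, rfl⟩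
  have hLBE : (Sum.inl '' Λ ∪ B : Set (HT α)) ⊆ Pb.E := by
    rw [hPbE, hP₀E]
    exact union_subset_union_left _ (image_mono hΛE)
  -- the maps `a`, `b`
  obtain ⟨sq, hsq⟩ : ∃ sq : HT α → Sym2 (ℕ × ℕ), ∀ s, sq (ed s) = s :=
    ⟨row', hr3⟩
  obtain ⟨P₂, hP₂f, hP₂E, hP₂d, hP₂c, hP₂B, hP₂V⟩ := pex_edges.{u, u} A Pb (by
    intro p hp hpE
    obtain ⟨s, _, rfl⟩ := (hmA p).1 hp
    rw [hPbE, hP₀E] at hpE
    rcases hpE with ⟨a, _, ha⟩ | hpB
    · exact hel s a ha.symm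
    · obtain ⟨v, _, hv⟩ := (hmB _).1 hpB
      exact hbe v s hv) (fun p => hf (sq p) (xs (sq p))) (fun p => hf (sq p) (ys (sq p)))
    (by
      intro p hp
      obtain ⟨s, hs, rfl⟩ := (hmA p).1 hp
      simp only [hsq]
      exact hLBE (hfE s hs _ (Or.inl rfl)))
    (by
      intro p hp
      obtain ⟨s, hs, rfl⟩ := (hmA p).1 hp
      simp only [hsq]
      exact hLBE (hfE s hs _ (Or.inr rfl)))
  have hcl : ∀ s ∈ Ed, ∀ X ⊆ Pb.E, (ed s ∈ P₂.closure X ↔
      {hf s (xs s), hf s (ys s)} ⊆ Pb.closure X) := by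
    intro s hs X hX
    have h1 := hP₂c (ed s) ((hmA _).2 ⟨s, hs, rfl⟩) X hX
    simp only [hsq] at h1
    exact h1
  have hPb2 : Pb.E ⊆ P₂.E := by
    rw [hP₂E]
    exact subset_union_left
  have hAE : (A : Set (HT α)) ⊆ P₂.E := by
    rw [hP₂E]
    exact subset_union_right
  -- `b_v` is not in the closure of the rest
  have hbco : ∀ v ∈ Hs, ∀ X ⊆ P₀.E, bh v ∉ Pb.closure (X ∪ (B.erase (bh v) : Finset (HT α))) := by
    intro v hv X hX hcon
    have h1 := hPbr X hX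
    have h2 : (X ∪ B : Set (HT α)) ⊆ Pb.closure (X ∪ (B.erase (bh v) : Finset (HT α))) := by
      have h3 : (X ∪ (B.erase (bh v) : Finset (HT α)) : Set (HT α)) ⊆ Pb.E := by
        rw [hPbE]
        refine union_subset_union hX ?_
        exact_mod_cast Finset.erase_subset _ _
      intro e he
      by_cases hev : e = bh v
      · rw [hev]
        exact hcon
      · refine Pb.subset_closure _ h3 ?_
        rcases he with he | he
        · exact Or.inl he
        · exact Or.inr (by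
            rw [Finset.coe_erase]
            exact ⟨he, hev⟩)
    have h3 : rk Pb (X ∪ B : Set (HT α)) ≤ rk Pb (X ∪ (B.erase (bh v) : Finset (HT α))) := by
      calc rk Pb (X ∪ B : Set (HT α)) ≤ rk Pb (Pb.closure (X ∪ (B.erase (bh v) :
            Finset (HT α)))) := rk_mono _ h2
        _ = _ := rk_closure _
    have h4 := rk_union_le Pb (X := X) (Finset.finite_toSet (B.erase (bh v)))
    have h5 : rk Pb X = rk P₀ X := by
      conv_rhs => rw [← hPbd]
      rw [rk_delete]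
      intro x hx
      refine ⟨by rw [hPbE]; exact Or.inl (hX hx), fun hxB => ?_⟩
      obtain ⟨u, _, hu⟩ := (hmB x).1 hxB
      have h6 := hX hx
      rw [hP₀E] at h6
      obtain ⟨a, _, ha⟩ := h6
      rw [← hu] at ha
      exact hbl u a ha.symm
    rw [Set.ncard_coe_finset, Finset.card_erase_of_mem ((hmB _).2 ⟨v, hv, rfl⟩)] at h4
    have h6 : 0 < B.card := Finset.card_pos.2 ⟨_, (hmB _).2 ⟨v, hv, rfl⟩⟩
    omega
  -- `b_v` is in the closure of `Λ` and the edges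
  have hstep : ∀ v ∈ Hs, ∀ u, wadj v u → u ∈ rect 0 0 (w + 1) (w + 1) →
      (u ∈ Hs → bh u ∈ P₂.closure (Sum.inl '' Λ ∪ A)) →
      bh v ∈ P₂.closure (Sum.inl '' Λ ∪ A) := by
    intro v hv u hvu huR ih
    have hvw := h.hs v hv
    have hsE : s(v, u) ∈ Ed := by
      rw [hEd]
      refine ⟨⟨v, Sym2.mem_mk_left _ _, hv⟩, v, u, rfl, hvu, ?_, huR⟩
      rw [Gad.mem_rct]
      omega
    obtain ⟨h1, _, _, _, _, _⟩ := hxy _ hsE
    have hends : ∀ x, x = v ∨ x = u → (x = xs s(v, u) ∨ x = ys s(v, u)) := by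
      rw [Sym2.eq_iff] at h1
      rintro x (rfl | rfl)
      · rcases h1 with ⟨h1, _⟩ | ⟨h1, _⟩
        · exact Or.inl h1
        · exact Or.inr h1
      · rcases h1 with ⟨_, h1⟩ | ⟨_, h1⟩
        · exact Or.inr h1
        · exact Or.inl h1
    have hpair : ({hf s(v, u) (xs s(v, u)), hf s(v, u) (ys s(v, u))} : Set (HT α)) =
        {bh v, hf s(v, u) u} := by
      rw [Sym2.eq_iff] at h1
      rcases h1 with ⟨h1, h2⟩ | ⟨h1, h2⟩
      · rw [← h1, ← h2, hfin _ _ hv]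
      · rw [← h1, ← h2, hfin _ _ hv, Set.pair_comm]
    have hcl' : ∀ X ⊆ Pb.E, (ed s(v, u) ∈ P₂.closure X ↔
        ({bh v, hf s(v, u) u} : Set (HT α)) ⊆ Pb.closure X) := by
      intro X hX
      rw [hcl _ hsE X hX, hpair]
    -- the half edge at `u`
    have hgLB := hfE _ hsE u (hends u (Or.inr rfl))
    have hgE : hf s(v, u) u ∈ Pb.E := hLBE hgLB
    have hbE : bh v ∈ Pb.E := by
      rw [hPbE]
      exact Or.inr ((hmB _).2 ⟨v, hv, rfl⟩)
    have hgcl : hf s(v, u) u ∈ P₂.closure (Sum.inl '' Λ ∪ A) := by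
      by_cases huH : u ∈ Hs
      · rw [hfin _ _ huH]
        exact ih huH
      · obtain ⟨a, ha, _, h2⟩ := hfout _ hsE u (hends u (Or.inr rfl)) huH
        rw [h2]
        refine P₂.subset_closure _ (union_subset ((image_mono hΛE).trans ?_) hAE)
          (Or.inl ⟨a, ha, rfl⟩)
        rw [← hP₀E]
        exact (by rw [hPbE]; exact subset_union_left : P₀.E ⊆ Pb.E).trans hPb2
    have hnb : bh v ∉ Pb.closure {hf s(v, u) u} := by
      intro h2
      by_cases huH : u ∈ Hs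
      · rw [hfin _ _ huH] at h2
        refine hbco v hv ∅ (empty_subset _) (Pb.closure_subset_closure ?_ h2)
        rintro e rfl
        refine Or.inr ?_
        rw [Finset.coe_erase]
        refine ⟨(hmB _).2 ⟨u, huH, rfl⟩, fun h3 => ?_⟩
        exact wadj_ne hvu (hbhi h3).symm
      · obtain ⟨a, ha, _, h3⟩ := hfout _ hsE u (hends u (Or.inr rfl)) huH
        rw [h3] at h2
        refine hbco v hv {Sum.inl a} ?_ (Pb.closure_subset_closure subset_union_left h2)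
        rw [hP₀E]
        rintro e rfl
        exact ⟨a, hΛE ha, rfl⟩
    have hp1 : ed s(v, u) ∈ P₂.closure (insert (bh v) {hf s(v, u) u}) := by
      rw [hcl' _ (insert_subset hbE (singleton_subset_iff.2 hgE))]
      exact Pb.subset_closure _ (insert_subset hbE (singleton_subset_iff.2 hgE))
    have hp2 : ed s(v, u) ∉ P₂.closure {hf s(v, u) u} := by
      rw [hcl' _ (singleton_subset_iff.2 hgE)]
      exact fun h2 => hnb (h2 (Or.inl rfl))
    have hp3 := (P₂.closure_exchange ⟨hp1, hp2⟩).1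
    refine P₂.closure_subset_closure_of_subset_closure ?_ hp3
    rintro e (rfl | he)
    · refine P₂.subset_closure _ (union_subset ((image_mono hΛE).trans ?_) hAE)
        (Or.inr ((hmA _).2 ⟨_, hsE, rfl⟩))
      rw [← hP₀E]
      exact (by rw [hPbE]; exact subset_union_left : P₀.E ⊆ Pb.E).trans hPb2
    · rw [mem_singleton_iff.1 he]
      exact hgcl
  have hbcl : ∀ n : ℕ, ∀ v ∈ Hs, ∀ a ≤ w, (a, v.2) ∉ Hs → (a = v.1 + n ∨ v.1 = a + n) →
      bh v ∈ P₂.closure (Sum.inl '' Λ ∪ A) := by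
    intro n
    induction n with
    | zero =>
      rintro ⟨v1, v2⟩ hv a ha haH hn
      simp only [Nat.add_zero] at hn haH
      rcases hn with rfl | rfl
      · exact absurd hv haH
      · exact absurd hv haH
    | succ n ih =>
      rintro ⟨v1, v2⟩ hv a ha haH hn
      obtain ⟨hw1, hw2, _⟩ := h.hs _ hv
      simp only at hn haH hw1 hw2
      rcases hn with hn | hn
      · refine hstep (v1, v2) hv (v1 + 1, v2) (Or.inl ⟨rfl, Or.inl rfl⟩) (by
          rw [Gad.mem_rct]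
          simp only
          omega) fun huH => ih (v1 + 1, v2) huH a ha haH (Or.inl (by simp only; omega))
      · refine hstep (v1, v2) hv (v1 - 1, v2) (Or.inl ⟨rfl, Or.inr (by simp only; omega)⟩) (by
          rw [Gad.mem_rct]
          simp only
          omega) fun huH => ih (v1 - 1, v2) huH a ha haH (Or.inr (by simp only; omega))
  have hbcl' : (B : Set (HT α)) ⊆ P₂.closure (Sum.inl '' Λ ∪ A) := by
    intro e he
    obtain ⟨v, hv, rfl⟩ := (hmB e).1 he
    obtain ⟨_, _, a, ha, haH⟩ := h.hs v hv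
    rcases le_total v.1 a with h1 | h1
    · exact hbcl (a - v.1) v hv a ha haH (Or.inl (by omega))
    · exact hbcl (v.1 - a) v hv a ha haH (Or.inr (by omega))
  -- the final matroid
  have hBA : Disjoint (B : Set (HT α)) A := by
    rw [Set.disjoint_left]
    intro e he he'
    obtain ⟨v, _, rfl⟩ := (hmB e).1 he
    obtain ⟨s, _, hs⟩ := (hmA _).1 he'
    exact hbe v s hs.symm
  have hBl : ∀ a : α, (Sum.inl a : HT α) ∉ (B : Set (HT α)) := by
    intro a ha
    obtain ⟨v, _, hv⟩ := (hmB _).1 ha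
    exact hbl v a hv
  have hAl : ∀ a : α, (Sum.inl a : HT α) ∉ (A : Set (HT α)) := by
    intro a ha
    obtain ⟨v, _, hv⟩ := (hmA _).1 ha
    exact hel v a hv
  obtain ⟨S', hS'⟩ : ∃ S' : Set (HT α), S' = Sum.inl '' S ∪ A := ⟨_, rfl⟩
  have hrold : ∀ e ∈ S, row' (Sum.inl e) = row e := by
    intro e he
    rw [hr1, hen_out]
    intro v hv hvH
    exact hSrow e he v hv (by exact_mod_cast hvH)
  have hrnew : ∀ e ∈ (A : Set (HT α)), row' e ∈ Ed ∧ ed (row' e) = e := by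
    intro e he
    obtain ⟨s, hs, rfl⟩ := (hmA _).1 he
    rw [hr3]
    exact ⟨hs, rfl⟩
  have hold_ne : ∀ e ∈ S, row e ∉ Ed := by
    intro e he h1
    obtain ⟨⟨v, hv, hvH⟩, _⟩ := (hEd _).1 h1
    exact hSrow e he v hv hvH
  have hBic : ∀ c, c ⊆ S' → WallE c row' w ∅ →
      Bic (P₂ ＼ (B : Set (HT α)) ／ (S' \ c)) (c ∪ Sum.inl '' Λ) row' := by
    intro c hc hW
    obtain ⟨c₁, hc₁⟩ : ∃ c₁ : Set α, c₁ = {e | e ∈ S ∧ Sum.inl e ∈ c} := ⟨_, rfl⟩
    have hAc : (A : Set (HT α)) ⊆ c := by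
      intro e he
      obtain ⟨h1, h2⟩ := hrnew e he
      obtain ⟨_, p, q, h3, hpq, hp, hq⟩ := (hEd _).1 h1
      obtain ⟨e', he', h4⟩ := hW.surj p q hpq hp hq (notMem_empty _)
      have h5 := hc he'
      rw [hS'] at h5
      rcases h5 with ⟨a, ha, rfl⟩ | h5
      · rw [hrold a ha, ← h3] at h4
        exact absurd (h4 ▸ h1) (hold_ne a ha)
      · obtain ⟨h6, h7⟩ := hrnew e' h5
        rw [← h7, h4, ← h3, h2] at he'
        exact he'
    have hc_eq : c = Sum.inl '' c₁ ∪ A := by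
      ext e
      constructor
      · intro he
        have h1 := hc he
        rw [hS'] at h1
        rcases h1 with ⟨a, ha, rfl⟩ | h1
        · exact Or.inl ⟨a, by rw [hc₁]; exact ⟨ha, he⟩, rfl⟩
        · exact Or.inr h1
      · rintro (⟨a, ha, rfl⟩ | he)
        · rw [hc₁] at ha
          exact ha.2
        · exact hAc he
    obtain ⟨Y, hY⟩ : ∃ Y, Y = S \ c₁ := ⟨_, rfl⟩
    have hScY : S' \ c = Sum.inl '' Y := by
      rw [hS', hc_eq, hY]
      ext e
      constructor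
      · rintro ⟨⟨a, ha, rfl⟩ | he, h2⟩
        · exact ⟨a, ⟨ha, fun h3 => h2 (Or.inl ⟨a, h3, rfl⟩)⟩, rfl⟩
        · exact absurd (Or.inr he) h2
      · rintro ⟨a, ⟨ha, ha'⟩, rfl⟩
        refine ⟨Or.inl ⟨a, ha, rfl⟩, ?_⟩
        rintro (⟨b, hb, h3⟩ | h3)
        · exact ha' (by rw [← hji h3]; exact hb)
        · exact hAl a h3
    have hc₁S : c₁ ⊆ S := by
      rw [hc₁]
      exact fun e he => he.1
    have hW₁ : WallH c₁ row w (Hs : Set (ℕ × ℕ)) := by
      refine ⟨?_, fun e he => h.mem e (hc₁S he), ?_⟩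
      · intro e he e' he' hee
        rw [hc₁] at he he'
        exact hji (hW.inj he.2 he'.2 (by rw [hrold e he.1, hrold e' he'.1, hee]))
      · intro p q hpq hp hq
        obtain ⟨e, he, h1⟩ := hW.surj p q hpq hp.1 hq.1 (notMem_empty _)
        have h2 : e ∉ (A : Set (HT α)) := by
          intro h2
          obtain ⟨h3, _⟩ := hrnew e h2
          rw [h1] at h3
          obtain ⟨⟨v, hv, hvH⟩, _⟩ := (hEd _).1 h3
          rw [Sym2.mem_iff] at hv
          rcases hv with rfl | rfl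
          · exact hp.2 (by exact_mod_cast hvH)
          · exact hq.2 (by exact_mod_cast hvH)
        have h3 := he
        rw [hc_eq] at h3
        rcases h3 with ⟨a, ha, rfl⟩ | h3
        · exact ⟨a, ha, by rw [← h1, hrold a (hc₁S ha)]⟩
        · exact absurd h3 h2
    have hb := h.bic c₁ hc₁S hW₁
    rw [← hY] at hb
    have hb1 : Bic ((P ／ Y).map (Sum.inl : α → HT α) hji.injOn) (Sum.inl '' (c₁ ∪ Λ)) row' :=
      bicM_map hji hb fun e _ => hr1 e
    rw [← map_contract P hji, ← hP₀] at hb1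
    have hYP₀ : Sum.inl '' Y ⊆ P₀.E := by
      rw [hP₀E]
      refine image_mono ?_
      rw [hY]
      exact fun e he => h.sub he.1
    have hb2 := hPbB (ℕ × ℕ) (Sum.inl '' Y) hYP₀ (Sum.inl '' (c₁ ∪ Λ)) row' (by
      intro p hp
      obtain ⟨v, hv, rfl⟩ := (hmB p).1 hp
      refine ⟨v, hr2 v, ?_⟩
      rintro e ⟨a, ha, rfl⟩ hva
      rw [hr1] at hva
      rcases ha with ha | ha
      · have h1 := hc₁S ha
        rw [← hr1, hrold a h1] at hva
        exact hSrow a h1 v hva hv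
      · obtain ⟨x, y, h1, h2, h3⟩ := hΛrow a ha
        rw [hen_half h1 (by exact_mod_cast h2) (by exact_mod_cast h3), Sym2.mem_iff, or_self] at hva
        exact h2 (hva ▸ hv)) (by
      intro p hp q hq hpq
      obtain ⟨v, hv, rfl⟩ := (hmB p).1 hp
      obtain ⟨u, hu, rfl⟩ := (hmB q).1 hq
      rw [hr2, hr2, Sym2.eq_iff] at hpq
      rcases hpq with ⟨h1, _⟩ | ⟨h1, _⟩ <;> rw [h1]) hb1
    have hYPb : Sum.inl '' Y ⊆ Pb.E := by
      rw [hPbE]
      exact hYP₀.trans subset_union_left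
    have hYL : ∀ e ∈ (Sum.inl '' Λ ∪ B : Set (HT α)), e ∉ Sum.inl '' Y := by
      rintro e (⟨a, ha, rfl⟩ | he) ⟨b, hb', h1⟩
      · rw [hji h1] at hb'
        rw [hY] at hb'
        exact Set.disjoint_left.1 h.disj hb'.1 ha
      · obtain ⟨v, _, rfl⟩ := (hmB e).1 he
        exact hbl v b h1.symm
    have hb3 := hP₂B (ℕ × ℕ) (Sum.inl '' Y) hYPb (Sum.inl '' (c₁ ∪ Λ) ∪ B) row' (by
      intro p hp
      obtain ⟨s, hs, rfl⟩ := (hmA p).1 hp
      simp only [hsq]
      have hx := hfE s hs (xs s) (Or.inl rfl)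
      have hy := hfE s hs (ys s) (Or.inr rfl)
      have hmono : (Sum.inl '' Λ ∪ B : Set (HT α)) ⊆ Sum.inl '' (c₁ ∪ Λ) ∪ B :=
        union_subset_union_left _ (image_mono subset_union_right)
      refine ⟨hmono hx, hmono hy, hYL _ hx, hYL _ hy, xs s, ys s, hfrow s hs _ (Or.inl rfl),
        hfrow s hs _ (Or.inr rfl), ?_⟩
      rw [hr3]
      exact (hxy s hs).1) hb2
    have hBY : Disjoint (B : Set (HT α)) (Sum.inl '' Y) := by
      rw [Set.disjoint_left]
      exact fun e he => hYL e (Or.inr he)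
    have e3 : P₂ ＼ (B : Set (HT α)) ／ (S' \ c) = P₂ ／ (Sum.inl '' Y) ＼ (B : Set (HT α)) := by
      rw [hScY, P₂.contract_delete_comm hBY.symm]
    rw [e3]
    refine bicM_delete (bicM_mono hb3 ?_) ?_
    · rw [hc_eq]
      rintro e ((⟨a, ha, rfl⟩ | he) | ⟨a, ha, rfl⟩)
      · exact Or.inl (Or.inl ⟨a, Or.inl ha, rfl⟩)
      · exact Or.inr he
      · exact Or.inl (Or.inl ⟨a, Or.inr ha, rfl⟩)
    · rw [hc_eq, Set.disjoint_left]
      rintro e ((⟨a, ha, rfl⟩ | he) | ⟨a, ha, rfl⟩) heB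
      · exact hBl a heB
      · exact Set.disjoint_left.1 hBA heB he
      · exact hBl a heB
  have hPE' : (P₂ ＼ (B : Set (HT α))).E = Sum.inl '' P.E ∪ A := by
    rw [Matroid.delete_ground, hP₂E, hPbE, hP₀E]
    ext e
    constructor
    · rintro ⟨(he | he) | he, hB'⟩
      · exact Or.inl he
      · exact absurd he hB'
      · exact Or.inr he
    · rintro (he | he)
      · refine ⟨Or.inl (Or.inl he), ?_⟩
        obtain ⟨a, _, rfl⟩ := he
        exact hBl a
      · exact ⟨Or.inr he, fun h1 => Set.disjoint_left.1 hBA h1 he⟩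
  have hfin' : (P₂ ＼ (B : Set (HT α))).Finite := BQ.fin_delete _
  have hBicV : ∀ (V : Type u) (nd : ℕ × ℕ → V) (en : HT α → Sym2 V), Function.Injective nd →
      Bic P (S ∪ Λ) (fun e => en (Sum.inl e)) →
      (∀ e ∈ Λ, ∀ x y, row e = s(x, y) → x ∉ Hs → y ∈ Hs → en (Sum.inl e) = s(nd x, nd x)) →
      (∀ e ∈ S, ∀ h ∈ Hs, nd h ∉ en (Sum.inl e)) →
      (∀ e ∈ (A : Set (HT α)), ∀ x y, row' e = s(x, y) → en e = s(nd x, nd y)) →
      Bic (P₂ ＼ (B : Set (HT α))) S' en := by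
    intro V nd en hnd hb hL hS hN
    obtain ⟨en', hen1, hen2⟩ : ∃ en' : HT α → Sym2 V, (∀ v ∈ Hs, en' (bh v) = s(nd v, nd v)) ∧
        ∀ e, e ∉ (B : Set (HT α)) → en' e = en e := by
      refine ⟨fun e => if hx : ∃ v ∈ Hs, bh v = e then s(nd hx.choose, nd hx.choose) else en e,
        ?_, ?_⟩
      · intro v hv
        have hx : ∃ u ∈ Hs, bh u = bh v := ⟨v, hv, rfl⟩
        simp only
        rw [dif_pos hx, hbhi hx.choose_spec.2]
      · intro e he
        simp only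
        rw [dif_neg]
        exact fun hx => he ((hmB e).2 hx)
    have hb1 : Bic P₀ (Sum.inl '' (S ∪ Λ)) en' := by
      rw [hP₀]
      exact bicM_map hji hb fun e _ => hen2 _ (hBl e)
    have hb2 := hPbV V ∅ (empty_subset _) (Sum.inl '' (S ∪ Λ)) en' (by
      intro p hp
      obtain ⟨v, hv, rfl⟩ := (hmB p).1 hp
      refine ⟨nd v, hen1 v hv, ?_⟩
      rintro e ⟨a, ha, rfl⟩ hva
      rw [hen2 _ (hBl a)] at hva
      rcases ha with ha | ha
      · exact hS a ha v hv hva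
      · obtain ⟨x, y, h1, h2, h3⟩ := hΛrow a ha
        rw [hL a ha x y h1 h2 h3, Sym2.mem_iff, or_self] at hva
        exact h2 (hnd hva ▸ hv)) (by
      intro p hp q hq hpq
      obtain ⟨v, hv, rfl⟩ := (hmB p).1 hp
      obtain ⟨u, hu, rfl⟩ := (hmB q).1 hq
      rw [hen1 v hv, hen1 u hu, Sym2.eq_iff] at hpq
      rcases hpq with ⟨h1, _⟩ | ⟨h1, _⟩ <;> rw [hnd h1]) (by
      rw [Matroid.contract_empty]
      exact hb1)
    have hrowV : ∀ s ∈ Ed, ∀ x, (x = xs s ∨ x = ys s) → en' (hf s x) = s(nd x, nd x) := by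
      intro s hs x hx
      by_cases hxH : x ∈ Hs
      · rw [hfin s x hxH, hen1 x hxH]
      · obtain ⟨a, ha, har, h2⟩ := hfout s hs x hx hxH
        rw [h2, hen2 _ (hBl a)]
        obtain ⟨h3, _, _, _, h4, _⟩ := hxy s hs
        rcases hx with rfl | rfl
        · exact hL a ha _ (ys s) (by rw [har]; exact h3) hxH (h4.resolve_left hxH)
        · exact hL a ha _ (xs s) (by rw [har, Sym2.eq_swap]; exact h3) hxH (h4.resolve_right hxH)
    have hb3 := hP₂V V ∅ (empty_subset _) (Sum.inl '' (S ∪ Λ) ∪ B) en' (by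
      intro p hp
      obtain ⟨s, hs, rfl⟩ := (hmA p).1 hp
      simp only [hsq]
      have hx := hfE s hs (xs s) (Or.inl rfl)
      have hy := hfE s hs (ys s) (Or.inr rfl)
      have hmono : (Sum.inl '' Λ ∪ B : Set (HT α)) ⊆ Sum.inl '' (S ∪ Λ) ∪ B :=
        union_subset_union_left _ (image_mono subset_union_right)
      refine ⟨hmono hx, hmono hy, notMem_empty _, notMem_empty _, nd (xs s), nd (ys s),
        hrowV s hs _ (Or.inl rfl), hrowV s hs _ (Or.inr rfl), ?_⟩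
      rw [hen2 _ (fun h1 => Set.disjoint_left.1 hBA h1 hp)]
      exact hN _ hp _ _ (by rw [hr3]; exact (hxy s hs).1)) hb2
    rw [Matroid.contract_empty] at hb3
    have hSB : Disjoint S' (B : Set (HT α)) := by
      rw [hS', Set.disjoint_left]
      rintro e (⟨a, ha, rfl⟩ | he) heB
      · exact hBl a heB
      · exact Set.disjoint_left.1 hBA heB he
    refine bicM_congr (bicM_delete (bicM_mono hb3 ?_) hSB) ?_
    · rw [hS']
      rintro e (⟨a, ha, rfl⟩ | he)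
      · exact Or.inl (Or.inl ⟨a, Or.inl ha, rfl⟩)
      · exact Or.inr he
    · intro e he
      rw [hen2 _ fun h1 => Set.disjoint_left.1 hSB he h1]
  refine ⟨P₂ ＼ (B : Set (HT α)), S', A, row', ⟨hfin', hji, hAl, A.finite_toSet, ?_, hPE', hS',
    hrold, ?_, ?_, ?_, ?_, hBic, hBicV, ?_, ?_⟩⟩
  · rw [Set.ncard_coe_finset, hAc]
    exact hEdc
  · intro e he
    exact ((hEd _).1 (hrnew e he).1).1
  · intro e he e' he' hee
    rw [← (hrnew e he).2, ← (hrnew e' he').2, hee]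
  · intro e he x y h1 h2 h3
    rw [hr1]
    exact hen_half h1 (by exact_mod_cast h2) (by exact_mod_cast h3)
  · refine ⟨?_, ?_, ?_, fun c hc hW => bicM_mono (hBic c hc hW) subset_union_left⟩
    · rw [hPE', hS']
      exact union_subset_union_left _ (image_mono h.sub)
    · intro e he
      rw [hS'] at he
      rcases he with ⟨a, ha, rfl⟩ | he
      · rw [hrold a ha]
        obtain ⟨p, q, h1, h2, h3, h4⟩ := h.mem a ha
        exact ⟨p, q, h1, h2, h3.1, h4.1⟩
      · exact ((hEd _).1 (hrnew e he).1).2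
    · intro p q hpq hp hq
      by_cases hs : s(p, q) ∈ Ed
      · refine ⟨ed s(p, q), ?_, hr3 _⟩
        rw [hS']
        exact Or.inr ((hmA _).2 ⟨_, hs, rfl⟩)
      · have h0 : ∀ v ∈ s(p, q), v ∉ Hs := by
          intro v hv hvH
          exact hs ((hEd _).2 ⟨⟨v, hv, hvH⟩, p, q, rfl, hpq, hp, hq⟩)
        obtain ⟨e, he, h1⟩ := h.surj p q hpq
          ⟨hp, fun h1 => h0 p (Sym2.mem_mk_left _ _) (by exact_mod_cast h1)⟩
          ⟨hq, fun h1 => h0 q (Sym2.mem_mk_right _ _) (by exact_mod_cast h1)⟩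
        refine ⟨Sum.inl e, ?_, ?_⟩
        · rw [hS']
          exact Or.inl ⟨e, he, rfl⟩
        · rw [hrold e he, h1]
  · intro X hX
    have hXE : X ∪ Λ ⊆ P.E := union_subset hX hΛE
    have hXP₀ : Sum.inl '' (X ∪ Λ) ⊆ P₀.E := by
      rw [hP₀E]
      exact image_mono hXE
    have hXPb : Sum.inl '' (X ∪ Λ) ∪ (B : Set (HT α)) ⊆ Pb.E := by
      rw [hPbE]
      exact union_subset_union_left _ hXP₀
    have r1 : rk (P₂ ＼ (B : Set (HT α))) (Sum.inl '' (X ∪ Λ) ∪ A) =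
        rk P₂ (Sum.inl '' (X ∪ Λ) ∪ A) := by
      refine rk_delete ?_
      rintro e (he | he)
      · refine ⟨hPb2 (hXPb (Or.inl he)), ?_⟩
        obtain ⟨a, _, rfl⟩ := he
        exact hBl a
      · exact ⟨hAE he, fun h1 => Set.disjoint_left.1 hBA h1 he⟩
    have r2 : rk P₂ (Sum.inl '' (X ∪ Λ) ∪ A) = rk P₂ (Sum.inl '' (X ∪ Λ) ∪ B) := by
      refine le_antisymm ?_ ?_
      · calc rk P₂ (Sum.inl '' (X ∪ Λ) ∪ A) ≤
            rk P₂ (P₂.closure (Sum.inl '' (X ∪ Λ) ∪ B)) := by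
              refine rk_mono _ (union_subset ?_ ?_)
              · exact subset_union_left.trans (P₂.subset_closure _ (hXPb.trans hPb2))
              · intro e he
                obtain ⟨s, hs, rfl⟩ := (hmA e).1 he
                rw [hcl s hs _ hXPb]
                have hmono : (Sum.inl '' Λ ∪ B : Set (HT α)) ⊆ Sum.inl '' (X ∪ Λ) ∪ B :=
                  union_subset_union_left _ (image_mono subset_union_right)
                rintro g (rfl | hg)
                · exact Pb.subset_closure _ hXPb (hmono (hfE s hs _ (Or.inl rfl)))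
                · rw [mem_singleton_iff.1 hg]
                  exact Pb.subset_closure _ hXPb (hmono (hfE s hs _ (Or.inr rfl)))
          _ = _ := rk_closure _
      · calc rk P₂ (Sum.inl '' (X ∪ Λ) ∪ B) ≤
            rk P₂ (P₂.closure (Sum.inl '' (X ∪ Λ) ∪ A)) := by
              refine rk_mono _ (union_subset ?_ ?_)
              · refine subset_union_left.trans (P₂.subset_closure _ (union_subset ?_ hAE))
                exact (subset_union_left.trans hXPb).trans hPb2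
              · refine hbcl'.trans (P₂.closure_subset_closure ?_)
                exact union_subset_union_left _ (image_mono subset_union_right)
          _ = _ := rk_closure _
    have r3 : rk P₂ (Sum.inl '' (X ∪ Λ) ∪ B) = rk Pb (Sum.inl '' (X ∪ Λ) ∪ B) := by
      conv_rhs => rw [← hP₂d]
      rw [rk_delete]
      intro e he
      refine ⟨hPb2 (hXPb he), ?_⟩
      rcases he with ⟨a, _, rfl⟩ | he
      · exact hAl a
      · exact Set.disjoint_left.1 hBA he
    have r4 := hPbr _ hXP₀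
    have r5 : rk P₀ (Sum.inl '' (X ∪ Λ)) = rk P (X ∪ Λ) := by
      rw [hP₀]
      exact rkM_map P hji hXE
    rw [r1, r2, r3]
    omega
  · have h1 : P₂ ＼ (B : Set (HT α)) ＼ (A : Set (HT α)) = (P₂ ＼ (A : Set (HT α))) ＼
        (B : Set (HT α)) := by
      rw [Matroid.delete_delete, Matroid.delete_delete, union_comm]
    rw [h1, hP₂d, hPbd, hP₀]

/-- Uniform minors of the healed matroid. -/
theorem healG_hum (k n : ℕ) : ∃ K : ℕ, ∀ {α β : Type u} (P : Matroid α) [P.Finite] (S Λ : Set α)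
    (row : α → Sym2 (ℕ × ℕ)) (w : ℕ) (Hs : Finset (ℕ × ℕ)) (P' : Matroid β) (j : α → β)
    (S' New : Set β) (row' : β → Sym2 (ℕ × ℕ)), Hs.card ≤ n →
    HealG P S Λ row w Hs P' j S' New row' → HasUniformMinor P' K → HasUniformMinor P k := by
  obtain ⟨K, hK⟩ := hum_dels.{u} k (4 * n)
  refine ⟨K, ?_⟩
  intro α β P _ S Λ row w Hs P' j S' New row' hn h hU
  have hf := h.fin
  have h1 := hK P' h.newf.toFinset (by
    rw [← Set.ncard_eq_toFinset_card _ h.newf]
    exact h.newc.trans (by omega)) hU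
  rw [Set.Finite.coe_toFinset, h.del] at h1
  exact hum_of_map _ h.inj h1

lemma mem_closure_iff_rk {γ : Type*} {M : Matroid γ} [M.Finite] {X : Set γ} {z : γ} (hX : X ⊆ M.E)
    (hz : z ∈ M.E) : z ∈ M.closure X ↔ BIC.rk M (insert z X) = BIC.rk M X := by
  constructor
  · intro h
    refine le_antisymm ?_ (rk_mono _ (subset_insert _ _))
    calc BIC.rk M (insert z X) ≤ BIC.rk M (M.closure X) :=
          rk_mono _ (insert_subset h (M.subset_closure X hX))
      _ = _ := rk_closure _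
  · intro h
    obtain ⟨B, hB⟩ := M.exists_isBasis X hX
    rw [← hB.closure_eq_closure]
    by_contra hcon
    have hzB : z ∉ B := fun h1 => hcon (M.subset_closure B hB.indep.subset_ground h1)
    have h1 : M.Indep (insert z B) := (hB.indep.insert_indep_iff_of_notMem hzB).2 ⟨hz, hcon⟩
    have h2 : BIC.rk M (insert z B) ≤ BIC.rk M (insert z X) :=
      rk_mono _ (insert_subset_insert hB.subset)
    have h3 : BIC.rk M X = B.ncard := by
      rw [← rk_indep hB.indep, ← rk_closure X, ← hB.closure_eq_closure, rk_closure]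
    rw [rk_indep h1, Set.ncard_insert_of_notMem hzB
      (M.ground_finite.subset hB.indep.subset_ground)] at h2
    omega

section

variable {α : Type u} {β : Type v} {P : Matroid α} {S Λ : Set α} {row : α → Sym2 (ℕ × ℕ)} {w : ℕ}
  {Hs : Finset (ℕ × ℕ)} {P' : Matroid β} {j : α → β} {S' New : Set β}
  {row' : β → Sym2 (ℕ × ℕ)}

lemma HealG.sub_E (h : HealG P S Λ row w Hs P' j S' New row') {X : Set α} (hX : X ⊆ P.E) :
    j '' X ∪ New ⊆ P'.E := by
  rw [h.ground]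
  exact union_subset_union_left _ (image_mono hX)

/-- Ranks without `Λ`. -/
lemma HealG.rk' (h : HealG P S Λ row w Hs P' j S' New row') {X : Set α}
    (hX : X ⊆ P.E) (hL : j '' Λ ⊆ P'.closure (j '' X ∪ New)) :
    BIC.rk P' (j '' X ∪ New) = BIC.rk P (X ∪ Λ) + Hs.card := by
  have hf := h.fin
  rw [← h.rk X hX]
  refine le_antisymm (rk_mono _ ?_) ?_
  · exact union_subset_union_left _ (image_mono subset_union_left)
  · calc BIC.rk P' (j '' (X ∪ Λ) ∪ New) ≤ BIC.rk P' (P'.closure (j '' X ∪ New)) := by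
          refine rk_mono _ ?_
          have h1 : j '' X ∪ New ⊆ P'.closure (j '' X ∪ New) :=
            P'.subset_closure _ (h.sub_E hX)
          rw [image_union]
          rintro e ((he | he) | he)
          · exact h1 (Or.inl he)
          · exact hL he
          · exact h1 (Or.inr he)
      _ = _ := rk_closure _

/-- **Dictionary.** Closures of sets with `Λ` and all new elements. -/
theorem HealG.clo' [P.Finite] (h : HealG P S Λ row w Hs P' j S' New row') (hLE : Λ ⊆ P.E)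
    {X : Set α} (hX : X ⊆ P.E) {z : α} (hz : z ∈ P.E) :
    j z ∈ P'.closure (j '' (X ∪ Λ) ∪ New) ↔ z ∈ P.closure (X ∪ Λ) := by
  have hf := h.fin
  have hzE : j z ∈ P'.E := by
    rw [h.ground]
    exact Or.inl ⟨z, hz, rfl⟩
  rw [mem_closure_iff_rk (h.sub_E (union_subset hX hLE)) hzE,
    mem_closure_iff_rk (union_subset hX hLE) hz]
  have h1 := h.rk X hX
  have h2 := h.rk (insert z X) (insert_subset hz hX)
  have e1 : insert (j z) (j '' (X ∪ Λ) ∪ New) = j '' (insert z X ∪ Λ) ∪ New := by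
    rw [insert_union, image_insert_eq, insert_union]
  rw [e1]
  rw [insert_union] at h2 ⊢
  omega

/-- **Dictionary.** Closures of sets with all new elements. -/
theorem HealG.clo [P.Finite] (h : HealG P S Λ row w Hs P' j S' New row') (hLE : Λ ⊆ P.E)
    {X : Set α} (hX : X ⊆ P.E) (hL : j '' Λ ⊆ P'.closure (j '' X ∪ New)) {z : α} (hz : z ∈ P.E) :
    j z ∈ P'.closure (j '' X ∪ New) ↔ z ∈ P.closure (X ∪ Λ) := by
  have hf := h.fin
  rw [← h.clo' hLE hX hz]
  constructor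
  · intro h1
    exact P'.closure_subset_closure (union_subset_union_left _ (image_mono subset_union_left)) h1
  · intro h1
    refine P'.closure_subset_closure_of_subset_closure ?_ h1
    have h2 : j '' X ∪ New ⊆ P'.closure (j '' X ∪ New) := P'.subset_closure _ (h.sub_E hX)
    rw [image_union]
    rintro e ((he | he) | he)
    · exact h2 (Or.inl he)
    · exact hL he
    · exact h2 (Or.inr he)

/-- `Λ` is in the closure of a full set around the windows. -/
theorem HealG.lam (h : HealG P S Λ row w Hs P' j S' New row')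
    (hl : ∀ e ∈ Λ, ∃ x y, row e = s(x, y) ∧ x ∉ Hs ∧ y ∈ Hs ∧ wadj x y ∧
      x ∈ rect 0 0 (w + 1) (w + 1)) {c : Set β} (hc : c ⊆ S')
    (hW : WallE c row' w ∅) {U : Set (ℕ × ℕ)} (hU : U.Finite) {F : Set β}
    (hF : FullB c row' U F) (hx : ∀ x ∉ Hs, (∃ y ∈ Hs, wadj x y) →
      x ∈ rect 0 0 (w + 1) (w + 1) → x ∈ U) : j '' Λ ⊆ P'.closure ((S' \ c) ∪ F) := by
  have hb := h.bic c hc hW
  have hF' : FullB (c ∪ j '' Λ) row' U F :=
    ⟨fun e he => ⟨Or.inl (hF.1 he).1, (hF.1 he).2⟩, hF.2⟩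
  have hcl := hF'.closure hb hU
  rintro _ ⟨a, ha, rfl⟩
  obtain ⟨x, y, h1, h2, h3, h7, h8⟩ := hl a ha
  have hxU : x ∈ U := hx x h2 ⟨y, h3, h7⟩ h8
  have h5 : j a ∈ ins (c ∪ j '' Λ) row' U := by
    refine ⟨Or.inr ⟨a, ha, rfl⟩, ?_⟩
    intro v hv
    rw [h.lrow a ha x y h1 h2 h3, Sym2.mem_iff, or_self] at hv
    rw [hv]
    exact hxU
  have h6 : j a ∈ (P' ／ (S' \ c)).closure F := by
    rw [hcl]
    exact (P' ／ (S' \ c)).subset_closure _ (fun e he => hb.sub he.1) h5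
  rw [Matroid.contract_closure_eq] at h6
  rw [union_comm]
  exact h6.1

end

/-- A (lifted) brick wall with rows and windows `Hs`: for every choice `c` of one representative
of every row the wall is exact after the contraction of all other elements and of the
representatives inside of the windows. -/
structure LWal {α : Type*} (P : Matroid α) (S : Set α) (row : α → Sym2 (ℕ × ℕ)) (w : ℕ)
    (Hs : Finset (ℕ × ℕ)) : Prop where
  sub : S ⊆ P.E
  mem : ∀ e ∈ S, ∃ p q, row e = s(p, q) ∧ wadj p q ∧ p ∈ rect 0 0 (w + 1) (w + 1) ∧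
    q ∈ rect 0 0 (w + 1) (w + 1)
  surj : ∀ p q, wadj p q → p ∈ rect 0 0 (w + 1) (w + 1) → q ∈ rect 0 0 (w + 1) (w + 1) →
    ∃ e ∈ S, row e = s(p, q)
  hs : ∀ v ∈ Hs, v.1 ≤ w ∧ v.2 ≤ w ∧ ∃ a ≤ w, (a, v.2) ∉ Hs
  bic : ∀ c, c ⊆ S → WallE c row w ∅ →
    Bic (P ／ ((S \ c) ∪ {e | e ∈ c ∧ ∀ v ∈ row e, v ∈ Hs})) {e | e ∈ c ∧ ∃ v ∈ row e, v ∉ Hs}
      (hen (Hs : Set (ℕ × ℕ)) row)

lemma exists_repL {α : Type*} {S : Set α} {row : α → Sym2 (ℕ × ℕ)} {w : ℕ}
    (hmem : ∀ e ∈ S, ∃ p q, row e = s(p, q) ∧ wadj p q ∧ p ∈ rect 0 0 (w + 1) (w + 1) ∧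
      q ∈ rect 0 0 (w + 1) (w + 1))
    (hsurj : ∀ p q, wadj p q → p ∈ rect 0 0 (w + 1) (w + 1) → q ∈ rect 0 0 (w + 1) (w + 1) →
      ∃ e ∈ S, row e = s(p, q)) : ∃ c, c ⊆ S ∧ WallE c row w ∅ := by
  classical
  have hg : ∀ s : Sym2 (ℕ × ℕ), ∃ e : Option α, ∀ x ∈ S, row x = s → ∃ y, e = some y ∧ y ∈ S ∧
      row y = s := by
    intro s
    by_cases hs : ∃ x ∈ S, row x = s
    · obtain ⟨x, hx, hxs⟩ := hs
      exact ⟨some x, fun _ _ _ => ⟨x, rfl, hx, hxs⟩⟩
    · exact ⟨none, fun x hx hxs => absurd ⟨x, hx, hxs⟩ hs⟩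
  choose g hg using hg
  refine ⟨{e | e ∈ S ∧ g (row e) = some e}, fun e he => he.1, ?_, ?_, ?_⟩
  · intro e he e' he' hee
    have h1 := he.2
    have h2 := he'.2
    rw [hee] at h1
    rw [h1] at h2
    exact Option.some.inj h2
  · intro e he
    exact hmem e he.1
  · intro p q hpq hp hq _
    obtain ⟨e, he, h1⟩ := hsurj p q hpq hp hq
    obtain ⟨y, h2, h3, h4⟩ := hg _ e he h1
    exact ⟨y, ⟨h3, by rw [h4]; exact h2⟩, h4⟩

/-- From a lifted wall to a wall with holes and half edges. -/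
theorem LWal.gHol {α : Type*} {P : Matroid α} {S : Set α} {row : α → Sym2 (ℕ × ℕ)} {w : ℕ}
    {Hs : Finset (ℕ × ℕ)} (h : LWal P S row w Hs) :
    ∃ Λ ⊆ Tch S row (Hs : Set (ℕ × ℕ)), InjOn row Λ ∧
      GHol (P ／ (Tch S row (Hs : Set (ℕ × ℕ)) \ Λ))
        (S \ Tch S row (Hs : Set (ℕ × ℕ))) Λ row w Hs := by
  classical
  obtain ⟨c₀, hc₀, hW₀⟩ := exists_repL h.mem h.surj
  obtain ⟨Tc, hTc⟩ : ∃ Tc, Tc = Tch S row (Hs : Set (ℕ × ℕ)) := ⟨_, rfl⟩
  have hTcS : Tc ⊆ S := by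
    rw [hTc]
    exact fun e he => he.1
  obtain ⟨Λ, hΛ⟩ : ∃ Λ : Set α, Λ = {e | e ∈ c₀ ∧ (∃ v ∈ row e, v ∈ Hs) ∧ ∃ v ∈ row e, v ∉ Hs} :=
    ⟨_, rfl⟩
  have hΛT : Λ ⊆ Tc := by
    rw [hΛ, hTc]
    exact fun e he => ⟨hc₀ he.1, he.2.1⟩
  have hTcrow : ∀ e ∈ S, (e ∈ Tc ↔ ∃ v ∈ row e, v ∈ Hs) := by
    intro e he
    rw [hTc]
    exact ⟨fun h1 => h1.2, fun h1 => ⟨he, h1⟩⟩
  rw [← hTc]
  refine ⟨Λ, hΛT, ?_, ?_, ?_, ?_, ?_, ?_, ?_, ?_, h.hs, ?_⟩
  · refine hW₀.inj.mono ?_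
    rw [hΛ]
    exact fun e he => he.1
  · exact fun e he => ⟨h.sub he.1, fun h1 => he.2 h1.1⟩
  · exact fun e he => ⟨h.sub (hTcS (hΛT he)), fun h1 => h1.2 he⟩
  · rw [Set.disjoint_left]
    exact fun e he he' => he.2 (hΛT he')
  · intro e he
    obtain ⟨p, q, h1, h2, h3, h4⟩ := h.mem e he.1
    have h5 : ∀ v ∈ row e, v ∉ (Hs : Set (ℕ × ℕ)) := fun v hv hvH =>
      he.2 ((hTcrow e he.1).2 ⟨v, hv, by exact_mod_cast hvH⟩)
    exact ⟨p, q, h1, h2, ⟨h3, h5 p (by rw [h1]; exact Sym2.mem_mk_left _ _)⟩,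
      ⟨h4, h5 q (by rw [h1]; exact Sym2.mem_mk_right _ _)⟩⟩
  · intro p q hpq hp hq
    obtain ⟨e, he, h1⟩ := h.surj p q hpq hp.1 hq.1
    refine ⟨e, ⟨he, fun h2 => ?_⟩, h1⟩
    rw [hTcrow e he, h1] at h2
    obtain ⟨v, hv, hvH⟩ := h2
    rw [Sym2.mem_iff] at hv
    rcases hv with rfl | rfl
    · exact hp.2 (by exact_mod_cast hvH)
    · exact hq.2 (by exact_mod_cast hvH)
  · intro e he
    have he' := he
    rw [hΛ] at he'
    obtain ⟨hec, ⟨v, hv, hvH⟩, u, hu, huH⟩ := he'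
    have hne : u ≠ v := fun h' => huH (h' ▸ hvH)
    have h1 := (Sym2.mem_and_mem_iff hne).1 ⟨hu, hv⟩
    obtain ⟨p, q, h4, h5, h6, h7⟩ := h.mem e (hc₀ hec)
    have h8 : wadj u v ∧ u ∈ rect 0 0 (w + 1) (w + 1) := by
      rcases Sym2.eq_iff.1 (h1.symm.trans h4) with ⟨rfl, rfl⟩ | ⟨rfl, rfl⟩
      · exact ⟨h5, h6⟩
      · exact ⟨wadj_symm' h5, h7⟩
    exact ⟨u, v, h1, huH, hvH, h8.1, h8.2⟩
  · intro x y hxy hx hxH hyH
    obtain ⟨hy1, hy2, _⟩ := h.hs y hyH
    obtain ⟨a, ha, har⟩ := hW₀.surj x y hxy hx (by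
      rw [Gad.mem_rct]
      omega) (notMem_empty _)
    refine ⟨a, ?_, har⟩
    rw [hΛ]
    exact ⟨ha, ⟨y, by rw [har]; exact Sym2.mem_mk_right _ _, hyH⟩, x, by
      rw [har]
      exact Sym2.mem_mk_left _ _, hxH⟩
  · intro c₁ hc₁S hW₁
    obtain ⟨c₂, hc₂⟩ : ∃ c₂, c₂ = c₁ ∪ {e | e ∈ c₀ ∧ e ∈ Tc} := ⟨_, rfl⟩
    have hc₂S : c₂ ⊆ S := by
      rw [hc₂]
      exact union_subset (hc₁S.trans sdiff_subset) fun e he => hc₀ he.1
    have hW₂ : WallE c₂ row w ∅ := by
      refine ⟨?_, ?_, ?_⟩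
      · intro e he e' he' hee
        have hT : e ∈ Tc ↔ e' ∈ Tc := by
          rw [hTcrow e (hc₂S he), hTcrow e' (hc₂S he'), hee]
        rw [hc₂] at he he'
        rcases he with he | he <;> rcases he' with he' | he'
        · exact hW₁.inj he he' hee
        · exact absurd (hT.2 he'.2) (hc₁S he).2
        · exact absurd (hT.1 he.2) (hc₁S he').2
        · exact hW₀.inj he.1 he'.1 hee
      · exact fun e he => h.mem e (hc₂S he)
      · intro p q hpq hp hq _
        by_cases hT : ∃ v ∈ s(p, q), v ∈ Hs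
        · obtain ⟨e, he, h1⟩ := hW₀.surj p q hpq hp hq (notMem_empty _)
          refine ⟨e, ?_, h1⟩
          rw [hc₂]
          refine Or.inr ⟨he, ?_⟩
          rw [hTcrow e (hc₀ he), h1]
          exact hT
        · push Not at hT
          obtain ⟨e, he, h1⟩ := hW₁.surj p q hpq
            ⟨hp, fun h2 => hT p (Sym2.mem_mk_left _ _) (by exact_mod_cast h2)⟩
            ⟨hq, fun h2 => hT q (Sym2.mem_mk_right _ _) (by exact_mod_cast h2)⟩
          exact ⟨e, by rw [hc₂]; exact Or.inl he, h1⟩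
    have hb := h.bic c₂ hc₂S hW₂
    have e1 : (S \ c₂) ∪ {e | e ∈ c₂ ∧ ∀ v ∈ row e, v ∈ Hs} = (Tc \ Λ) ∪ ((S \ Tc) \ c₁) := by
      ext e
      constructor
      · rintro (⟨he, he2⟩ | ⟨he, hv⟩)
        · by_cases hT : e ∈ Tc
          · refine Or.inl ⟨hT, fun hL => he2 ?_⟩
            rw [hc₂]
            rw [hΛ] at hL
            exact Or.inr ⟨hL.1, hT⟩
          · refine Or.inr ?_
            exact ⟨⟨he, hT⟩, fun h1 => he2 (by rw [hc₂]; exact Or.inl h1)⟩
        · refine Or.inl ⟨?_, ?_⟩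
          · rw [hTcrow e (hc₂S he)]
            obtain ⟨v, hv'⟩ := exists_mem_ends row e
            exact ⟨v, hv', hv v hv'⟩
          · intro hL
            rw [hΛ] at hL
            obtain ⟨_, _, u, hu, huH⟩ := hL
            exact huH (hv u hu)
      · rintro (⟨hT, hL⟩ | he)
        · have heS := hTcS hT
          by_cases he2 : e ∈ c₂
          · refine Or.inr ⟨he2, ?_⟩
            intro v hv
            by_contra hvH
            apply hL
            rw [hΛ]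
            rw [hc₂] at he2
            rcases he2 with h1 | h1
            · exact absurd hT (hc₁S h1).2
            · refine ⟨h1.1, ?_, v, hv, hvH⟩
              rw [hTcrow e heS] at hT
              exact hT
          · exact Or.inl ⟨heS, he2⟩
        · refine Or.inl ⟨he.1.1, fun h1 => ?_⟩
          rw [hc₂] at h1
          rcases h1 with h1 | h1
          · exact he.2 h1
          · exact he.1.2 h1.2
    have e2 : {e | e ∈ c₂ ∧ ∃ v ∈ row e, v ∉ Hs} = c₁ ∪ Λ := by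
      ext e
      constructor
      · rintro ⟨he, v, hv, hvH⟩
        rw [hc₂] at he
        rcases he with he | he
        · exact Or.inl he
        · refine Or.inr ?_
          rw [hΛ]
          refine ⟨he.1, ?_, v, hv, hvH⟩
          have h1 := he.2
          rw [hTcrow e (hc₀ he.1)] at h1
          exact h1
      · rintro (he | he)
        · refine ⟨by rw [hc₂]; exact Or.inl he, ?_⟩
          obtain ⟨v, hv⟩ := exists_mem_ends row e
          refine ⟨v, hv, fun hvH => ?_⟩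
          exact (hc₁S he).2 ((hTcrow e (hc₁S he).1).2 ⟨v, hv, hvH⟩)
        · refine ⟨by
            rw [hc₂]
            refine Or.inr ⟨?_, hΛT he⟩
            rw [hΛ] at he
            exact he.1, ?_⟩
          rw [hΛ] at he
          exact he.2.2
    rw [e1, e2, ← Matroid.contract_contract] at hb
    exact hb

/-- The output of `heal`. -/
structure Healed {α : Type u} {β : Type v} (P : Matroid α) (S : Set α) (row : α → Sym2 (ℕ × ℕ))
    (w : ℕ) (Hs : Finset (ℕ × ℕ)) (P' : Matroid β) (j : α → β) (S' New : Set β)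
    (row' : β → Sym2 (ℕ × ℕ)) (Λ : Set α) : Prop where
  fin : P'.Finite
  inj : Function.Injective j
  new : ∀ e, j e ∉ New
  newf : New.Finite
  newc : New.ncard ≤ 4 * Hs.card
  ground : P'.E = j '' (P.E \ (Tch S row Hs \ Λ)) ∪ New
  S_eq : S' = j '' (S \ Tch S row Hs) ∪ New
  row_old : ∀ e ∈ S \ Tch S row Hs, row' (j e) = row e
  row_new : ∀ e ∈ New, ∃ v ∈ row' e, v ∈ Hs
  inj_new : InjOn row' New
  lsub : Λ ⊆ Tch S row Hs
  linj : InjOn row Λ
  lrow : ∀ e ∈ Λ, ∃ x y, row e = s(x, y) ∧ x ∉ Hs ∧ y ∈ Hs ∧ wadj x y ∧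
    x ∈ rect 0 0 (w + 1) (w + 1) ∧ row' (j e) = s(x, x)
  wal : RWal P' S' row' w
  bic : ∀ c, c ⊆ S' → WallE c row' w ∅ → Bic (P' ／ (S' \ c)) (c ∪ j '' Λ) row'
  rk : ∀ X ⊆ P.E, BIC.rk P' (j '' (X \ Tch S row Hs) ∪ j '' Λ ∪ New) +
    BIC.rk P (Tch S row Hs \ Λ) = BIC.rk P (X ∪ Tch S row Hs) + Hs.card
  del : P' ＼ New = (P ／ (Tch S row Hs \ Λ)).map j inj.injOn
  gh : GHol (P ／ (Tch S row (Hs : Set (ℕ × ℕ)) \ Λ)) (S \ Tch S row (Hs : Set (ℕ × ℕ))) Λ row w Hs
  hg : HealG (P ／ (Tch S row (Hs : Set (ℕ × ℕ)) \ Λ)) (S \ Tch S row (Hs : Set (ℕ × ℕ))) Λ row w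
    Hs P' j S' New row'

/-- **HEAL** for lifted walls. -/
theorem heal {α : Type u} (P : Matroid α) [P.Finite] (S : Set α) (row : α → Sym2 (ℕ × ℕ)) (w : ℕ)
    (Hs : Finset (ℕ × ℕ)) (h : LWal P S row w Hs) :
    ∃ (P' : Matroid (HT α)) (S' New : Set (HT α)) (row' : HT α → Sym2 (ℕ × ℕ)) (Λ : Set α),
      Healed P S row w Hs P' Sum.inl S' New row' Λ := by
  obtain ⟨Λ, hΛ, hLi, hG⟩ := h.gHol
  have hf : (P ／ (Tch S row (Hs : Set (ℕ × ℕ)) \ Λ)).Finite := BQ.fin_contract _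
  obtain ⟨P', S', New, row', hH⟩ := healG _ _ _ _ _ _ hG
  refine ⟨P', S', New, row', Λ, hH.fin, hH.inj, hH.new, hH.newf, hH.newc, hH.ground, hH.S_eq,
    hH.row_old, hH.row_new, hH.inj_new, hΛ, hLi, ?_, hH.wal, hH.bic, ?_, hH.del, hG, hH⟩
  · intro e he
    obtain ⟨x, y, h1, h2, h3, h4, h5⟩ := hG.lmem e he
    exact ⟨x, y, h1, h2, h3, h4, h5, hH.lrow e he x y h1 h2 h3⟩
  · intro X hX
    have h1 := hH.rk (X \ Tch S row (Hs : Set (ℕ × ℕ)))
      (fun e he => ⟨hX he.1, fun h1 => he.2 h1.1⟩)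
    have hTE : Tch S row (Hs : Set (ℕ × ℕ)) \ Λ ⊆ P.E := fun e he => h.sub he.1.1
    have r6 := BQ.rk_con (M := P) (C := Tch S row (Hs : Set (ℕ × ℕ)) \ Λ)
      (X := (X \ Tch S row (Hs : Set (ℕ × ℕ))) ∪ Λ) hTE (union_subset
        (fun e he => ⟨hX he.1, fun h1 => he.2 h1.1⟩)
        (fun e he => ⟨h.sub (hΛ he).1, fun h1 => h1.2 he⟩))
    have r7 : (X \ Tch S row (Hs : Set (ℕ × ℕ))) ∪ Λ ∪ (Tch S row (Hs : Set (ℕ × ℕ)) \ Λ) =
        X ∪ Tch S row (Hs : Set (ℕ × ℕ)) := by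
      ext e
      simp only [mem_union, mem_sdiff]
      constructor
      · rintro ((h1 | h1) | h1)
        · exact Or.inl h1.1
        · exact Or.inr (hΛ h1)
        · exact Or.inr h1.1
      · rintro (h1 | h1)
        · by_cases h2 : e ∈ Tch S row (Hs : Set (ℕ × ℕ))
          · by_cases h3 : e ∈ Λ
            · exact Or.inl (Or.inr h3)
            · exact Or.inr ⟨h2, h3⟩
          · exact Or.inl (Or.inl ⟨h1, h2⟩)
        · by_cases h3 : e ∈ Λ
          · exact Or.inl (Or.inr h3)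
          · exact Or.inr ⟨h1, h3⟩
    rw [r7] at r6
    rw [← image_union]
    omega

/-- Uniform minors of the healed matroid. -/
theorem heal_hum (k n : ℕ) : ∃ K : ℕ, ∀ {α β : Type u} (P : Matroid α) [P.Finite] (S : Set α)
    (row : α → Sym2 (ℕ × ℕ)) (w : ℕ) (Hs : Finset (ℕ × ℕ)) (P' : Matroid β) (j : α → β)
    (S' New : Set β) (row' : β → Sym2 (ℕ × ℕ)) (Λ : Set α), Hs.card ≤ n →
    Healed P S row w Hs P' j S' New row' Λ → HasUniformMinor P' K → HasUniformMinor P k := by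
  obtain ⟨K, hK⟩ := hum_dels.{u} k (4 * n)
  refine ⟨K, ?_⟩
  intro α β P _ S row w Hs P' j S' New row' Λ hn h hU
  have hf := h.fin
  have h1 := hK P' h.newf.toFinset (by
    rw [← Set.ncard_eq_toFinset_card _ h.newf]
    exact h.newc.trans (by omega)) hU
  rw [Set.Finite.coe_toFinset, h.del] at h1
  exact HasUniformMinor_mono (hum_of_map _ h.inj h1) (con_minor _ _)

section

variable {α : Type u} {β : Type v} {P : Matroid α} {S : Set α} {row : α → Sym2 (ℕ × ℕ)} {w : ℕ}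
  {Hs : Finset (ℕ × ℕ)} {P' : Matroid β} {j : α → β} {S' New : Set β}
  {row' : β → Sym2 (ℕ × ℕ)} {Λ : Set α}

lemma Healed.sub_E (h : Healed P S row w Hs P' j S' New row' Λ) (hS : S ⊆ P.E) {X : Set α}
    (hX : X ⊆ P.E) : j '' (X \ Tch S row Hs) ∪ j '' Λ ∪ New ⊆ P'.E := by
  rw [h.ground]
  rintro e ((⟨a, ha, rfl⟩ | ⟨a, ha, rfl⟩) | he)
  · exact Or.inl ⟨a, ⟨hX ha.1, fun h1 => ha.2 h1.1⟩, rfl⟩
  · exact Or.inl ⟨a, ⟨hS (h.lsub ha).1, fun h1 => h1.2 ha⟩, rfl⟩
  · exact Or.inr he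

/-- Ranks without `Λ`. -/
lemma Healed.rk' (h : Healed P S row w Hs P' j S' New row' Λ) (hS : S ⊆ P.E) {X : Set α}
    (hX : X ⊆ P.E) (hL : j '' Λ ⊆ P'.closure (j '' (X \ Tch S row Hs) ∪ New)) :
    BIC.rk P' (j '' (X \ Tch S row Hs) ∪ New) +
    BIC.rk P (Tch S row Hs \ Λ) = BIC.rk P (X ∪ Tch S row Hs) + Hs.card := by
  have hf := h.fin
  rw [← h.rk X hX]
  congr 1
  refine le_antisymm (rk_mono _ ?_) ?_
  · rintro e (he | he)
    · exact Or.inl (Or.inl he)
    · exact Or.inr he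
  · calc BIC.rk P' (j '' (X \ Tch S row Hs) ∪ j '' Λ ∪ New) ≤
        BIC.rk P' (P'.closure (j '' (X \ Tch S row Hs) ∪ New)) := by
          refine rk_mono _ ?_
          have h1 : j '' (X \ Tch S row Hs) ∪ New ⊆ P'.closure (j '' (X \ Tch S row Hs) ∪ New) := by
            refine P'.subset_closure _ (Subset.trans ?_ (h.sub_E hS hX))
            rintro e (he | he)
            · exact Or.inl (Or.inl he)
            · exact Or.inr he
          rintro e ((he | he) | he)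
          · exact h1 (Or.inl he)
          · exact hL he
          · exact h1 (Or.inr he)
      _ = _ := rk_closure _

lemma mem_closure_iff_rk₀ {γ : Type*} {M : Matroid γ} [M.Finite] {X : Set γ} {z : γ} (hX : X ⊆ M.E)
    (hz : z ∈ M.E) : z ∈ M.closure X ↔ BIC.rk M (insert z X) = BIC.rk M X := by
  constructor
  · intro h
    refine le_antisymm ?_ (rk_mono _ (subset_insert _ _))
    calc BIC.rk M (insert z X) ≤ BIC.rk M (M.closure X) :=
          rk_mono _ (insert_subset h (M.subset_closure X hX))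
      _ = _ := rk_closure _
  · intro h
    obtain ⟨B, hB⟩ := M.exists_isBasis X hX
    rw [← hB.closure_eq_closure]
    by_contra hcon
    have hzB : z ∉ B := fun h1 => hcon (M.subset_closure B hB.indep.subset_ground h1)
    have h1 : M.Indep (insert z B) := (hB.indep.insert_indep_iff_of_notMem hzB).2 ⟨hz, hcon⟩
    have h2 : BIC.rk M (insert z B) ≤ BIC.rk M (insert z X) :=
      rk_mono _ (insert_subset_insert hB.subset)
    have h3 : BIC.rk M X = B.ncard := by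
      rw [← rk_indep hB.indep, ← rk_closure X, ← hB.closure_eq_closure, rk_closure]
    rw [rk_indep h1, Set.ncard_insert_of_notMem hzB
      (M.ground_finite.subset hB.indep.subset_ground)] at h2
    omega

/-- **Dictionary.** Closures of sets with all new elements. -/
theorem Healed.clo [P.Finite] (h : Healed P S row w Hs P' j S' New row' Λ) (hS : S ⊆ P.E)
    {X : Set α} (hX : X ⊆ P.E) (hL : j '' Λ ⊆ P'.closure (j '' (X \ Tch S row Hs) ∪ New)) {z : α}
    (hz : z ∈ P.E) (hzT : z ∉ Tch S row Hs) :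
    j z ∈ P'.closure (j '' (X \ Tch S row Hs) ∪ New) ↔ z ∈ P.closure (X ∪ Tch S row Hs) := by
  have hf := h.fin
  have hTE : Tch S row Hs ⊆ P.E := fun e he => hS he.1
  have hsub : j '' (X \ Tch S row Hs) ∪ New ⊆ P'.E := by
    refine Subset.trans ?_ (h.sub_E hS hX)
    rintro e (he | he)
    · exact Or.inl (Or.inl he)
    · exact Or.inr he
  have hzE : j z ∈ P'.E := by
    rw [h.ground]
    exact Or.inl ⟨z, ⟨hz, fun h1 => hzT h1.1⟩, rfl⟩
  rw [mem_closure_iff_rk hsub hzE, mem_closure_iff_rk (union_subset hX hTE) hz]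
  have h1 := h.rk' hS hX hL
  have e1 : insert (j z) (j '' (X \ Tch S row Hs) ∪ New) =
      j '' (insert z X \ Tch S row Hs) ∪ New := by
    ext e
    constructor
    · rintro (rfl | ⟨a, ha, rfl⟩ | he)
      · exact Or.inl ⟨z, ⟨Or.inl rfl, hzT⟩, rfl⟩
      · exact Or.inl ⟨a, ⟨Or.inr ha.1, ha.2⟩, rfl⟩
      · exact Or.inr he
    · rintro (⟨a, ⟨rfl | ha, haT⟩, rfl⟩ | he)
      · exact Or.inl rfl
      · exact Or.inr (Or.inl ⟨a, ⟨ha, haT⟩, rfl⟩)
      · exact Or.inr (Or.inr he)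
  have h2 := h.rk' hS (X := insert z X) (insert_subset hz hX) (by
    refine hL.trans (P'.closure_subset_closure ?_)
    rw [← e1]
    exact subset_insert _ _)
  rw [e1, ← insert_union]
  rw [insert_union] at h2 ⊢
  omega

/-- One direction without the condition on `Λ`. -/
theorem Healed.clo' [P.Finite] (h : Healed P S row w Hs P' j S' New row' Λ) (hS : S ⊆ P.E)
    {X : Set α} (hX : X ⊆ P.E) {z : α} (hz : z ∈ P.E) (hzT : z ∉ Tch S row Hs)
    (hzc : j z ∈ P'.closure (j '' (X \ Tch S row Hs) ∪ j '' Λ ∪ New)) :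
    z ∈ P.closure (X ∪ Tch S row Hs) := by
  have hf := h.fin
  have hTE : Tch S row Hs ⊆ P.E := fun e he => hS he.1
  have hzE : j z ∈ P'.E := by
    rw [h.ground]
    exact Or.inl ⟨z, ⟨hz, fun h1 => hzT h1.1⟩, rfl⟩
  rw [mem_closure_iff_rk (union_subset hX hTE) hz]
  rw [mem_closure_iff_rk (h.sub_E hS hX) hzE] at hzc
  have h1 := h.rk X hX
  have h2 := h.rk (insert z X) (insert_subset hz hX)
  have e1 : insert (j z) (j '' (X \ Tch S row Hs) ∪ j '' Λ ∪ New) =
      j '' (insert z X \ Tch S row Hs) ∪ j '' Λ ∪ New := by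
    ext e
    constructor
    · rintro (rfl | (⟨a, ha, rfl⟩ | he) | he)
      · exact Or.inl (Or.inl ⟨z, ⟨Or.inl rfl, hzT⟩, rfl⟩)
      · exact Or.inl (Or.inl ⟨a, ⟨Or.inr ha.1, ha.2⟩, rfl⟩)
      · exact Or.inl (Or.inr he)
      · exact Or.inr he
    · rintro ((⟨a, ⟨rfl | ha, haT⟩, rfl⟩ | he) | he)
      · exact Or.inl rfl
      · exact Or.inr (Or.inl (Or.inl ⟨a, ⟨ha, haT⟩, rfl⟩))
      · exact Or.inr (Or.inl (Or.inr he))
      · exact Or.inr (Or.inr he)
  rw [e1] at hzc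
  rw [insert_union] at h2
  omega

/-- `Λ` is in the closure of a full set around the windows. -/
theorem Healed.lam (h : Healed P S row w Hs P' j S' New row' Λ) {c : Set β} (hc : c ⊆ S')
    (hW : WallE c row' w ∅) {U : Set (ℕ × ℕ)} (hU : U.Finite) {F : Set β}
    (hF : FullB c row' U F) (hx : ∀ x ∉ Hs, (∃ y ∈ Hs, wadj x y) →
      x ∈ rect 0 0 (w + 1) (w + 1) → x ∈ U) : j '' Λ ⊆ P'.closure ((S' \ c) ∪ F) := by
  have hb := h.bic c hc hW
  have hF' : FullB (c ∪ j '' Λ) row' U F :=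
    ⟨fun e he => ⟨Or.inl (hF.1 he).1, (hF.1 he).2⟩, hF.2⟩
  have hcl := hF'.closure hb hU
  rintro _ ⟨a, ha, rfl⟩
  obtain ⟨x, y, h1, h2, h3, h7, h8, h4⟩ := h.lrow a ha
  have hxU : x ∈ U := hx x h2 ⟨y, h3, h7⟩ h8
  have h5 : j a ∈ ins (c ∪ j '' Λ) row' U := by
    refine ⟨Or.inr ⟨a, ha, rfl⟩, ?_⟩
    intro v hv
    rw [h4, Sym2.mem_iff, or_self] at hv
    rw [hv]
    exact hxU
  have h6 : j a ∈ (P' ／ (S' \ c)).closure F := by
    rw [hcl]
    exact (P' ／ (S' \ c)).subset_closure _ (fun e he => hb.sub he.1) h5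
  rw [Matroid.contract_closure_eq] at h6
  rw [union_comm]
  exact h6.1

end

end DA
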