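import Pool.Agent.DA.LocRank

/-!
# The star matroid is a theta (STH, helper64)

`N_u = P ／ FStar`: the rows at `u` with one end at every neighbour form a theta which spans.
-/

set_option autoImplicit false

open Set BIC BICS
open scoped Matroid

namespace DA

open Gad TST

universe u

section

variable {α : Type*} {P : Matroid α} {S : Set α} {row : α → Sym2 (ℕ × ℕ)} {w : ℕ}
  {c : Set α} {u : ℕ × ℕ} {v : Fin 3 → ℕ × ℕ} {o : Fin 3 → α}

/-- the frame of a star -/
structure SF (S : Set α) (row : α → Sym2 (ℕ × ℕ)) (w : ℕ) (c : Set α) (u : ℕ × ℕ)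
    (v : Fin 3 → ℕ × ℕ) (o : Fin 3 → α) : Prop where
  hc : c ⊆ S
  hW : WallE c row w ∅
  hu : 8 ≤ u.1 ∧ u.1 + 8 ≤ w ∧ 8 ≤ u.2 ∧ u.2 + 8 ≤ w
  hnb : Nb3 u (v 0) (v 1) (v 2)
  ho : ∀ i, o i ∈ c ∧ v i ∈ row (o i) ∧ u ∉ row (o i)

/-- the rows at `u` -/
def sX (S : Set α) (row : α → Sym2 (ℕ × ℕ)) (u : ℕ × ℕ) (v : Fin 3 → ℕ × ℕ) (i : Fin 3) : Set α :=
  {f | f ∈ S ∧ row f = s(u, v i)}

namespace SF

lemma adj (h : SF S row w c u v o) (i : Fin 3) : wadj u (v i) := by
  obtain ⟨h1, h2, h3, _⟩ := h.hnb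
  fin_cases i
  exacts [h1, h2, h3]

lemma vne (h : SF S row w c u v o) {i j : Fin 3} (hij : i ≠ j) : v i ≠ v j := by
  obtain ⟨-, -, -, h1, h2, h3⟩ := h.hnb
  fin_cases i <;> fin_cases j
  exacts [absurd rfl hij, h1, h2, h1.symm, absurd rfl hij, h3, h2.symm, h3.symm, absurd rfl hij]

lemma une (h : SF S row w c u v o) (i : Fin 3) : u ≠ v i := by
  intro h1
  have h2 := wadj_par' (h.adj i)
  rw [← h1] at h2
  omega

lemma nb (h : SF S row w c u v o) {q : ℕ × ℕ} (hq : wadj u q) : ∃ i, q = v i := by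
  have hu := h.hu
  rcases nb3_mem ⟨by omega, by omega⟩ h.hnb hq with h1 | h1 | h1
  exacts [⟨0, h1⟩, ⟨1, h1⟩, ⟨2, h1⟩]

lemma bd (h : SF S row w c u v o) (i : Fin 3) : 7 ≤ (v i).1 ∧ (v i).1 + 7 ≤ w ∧ 7 ≤ (v i).2 ∧
    (v i).2 + 7 ≤ w := by
  have hu := h.hu
  have h1 := h.adj i
  unfold wadj at h1
  omega

lemma uV (h : SF S row w c u v o) : u ∈ rect 0 0 (w + 1) (w + 1) := by
  have hu := h.hu
  rw [Gad.mem_rct]
  omega

lemma vV (h : SF S row w c u v o) (i : Fin 3) : v i ∈ rect 0 0 (w + 1) (w + 1) := by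
  have hu := h.bd i
  rw [Gad.mem_rct]
  omega

/-- the other end of an end element -/
lemma oend (h : SF S row w c u v o) (i : Fin 3) {q : ℕ × ℕ} (hq : q ∈ row (o i)) :
    q = v i ∨ (q ∈ rect 0 0 (w + 1) (w + 1) ∧ q ≠ u ∧ ∀ j, q ≠ v j) := by
  obtain ⟨p, p', hpq, hw, h5, h6⟩ := h.hW.mem _ (h.ho i).1
  have h1 := (h.ho i).2.1
  have h2 := (h.ho i).2.2
  have h3 := wadj_par' (h.adj i)
  have h4 := wadj_par' hw
  have key : ∀ j, v j = q → q = v i ∨ False := by
    intro j hj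
    left
    have h7 := wadj_par' (h.adj j)
    rw [hpq, Sym2.mem_iff] at h1 hq
    rcases h1 with h1 | h1 <;> rcases hq with hq | hq
    · rw [h1, hq]
    · rw [hj, hq] at h7
      rw [h1] at h3
      omega
    · rw [hj, hq] at h7
      rw [h1] at h3
      omega
    · rw [h1, hq]
  by_cases hqi : q = v i
  · exact Or.inl hqi
  right
  refine ⟨?_, ?_, fun j hj => ?_⟩
  · rw [hpq, Sym2.mem_iff] at hq
    rcases hq with hq | hq
    · rw [hq]; exact h5
    · rw [hq]; exact h6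
  · rintro rfl
    exact h2 hq
  · rcases key j hj.symm with h8 | h8
    · exact hqi h8
    · exact h8

/-- representatives of the rows at `u` -/
lemma exe (h : SF S row w c u v o) : ∃ e : Fin 3 → α, ∀ i, e i ∈ c ∧ row (e i) = s(u, v i) := by
  choose e he using fun i => h.hW.surj u (v i) (h.adj i) h.uV (h.vV i) (notMem_empty _)
  exact ⟨e, he⟩

/-- the hole -/
abbrev hT (u : ℕ × ℕ) (v : Fin 3 → ℕ × ℕ) : Set (ℕ × ℕ) := insert u (range v)

lemma hTV (h : SF S row w c u v o) : hT u v ⊆ rect 0 0 (w + 1) (w + 1) := by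
  rintro q (hq | ⟨i, hq⟩)
  · rw [hq]; exact h.uV
  · rw [← hq]; exact h.vV i

lemma hTc (h : SF S row w c u v o) : (hT u v).ncard = 4 := by
  have h1 : (range v).ncard = 3 := by
    rw [← image_univ, ncard_image_of_injective]
    · rw [ncard_univ, Nat.card_eq_fintype_card, Fintype.card_fin]
    · intro i j hij
      by_contra hne
      exact h.vne hne hij
  rw [ncard_insert_of_notMem ?_ (finite_range v), h1]
  rintro ⟨i, hi⟩
  exact h.une i hi.symm

lemma om (h : SF S row w c u v o) {a : Sym2 (ℕ × ℕ)} : a ∈ ωS u ↔ ∃ i, a = s(u, v i) := by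
  constructor
  · rintro ⟨q, hq, rfl⟩
    obtain ⟨i, rfl⟩ := h.nb hq
    exact ⟨i, rfl⟩
  · rintro ⟨i, rfl⟩
    exact ⟨v i, h.adj i, rfl⟩

/-- the wall without the star is full -/
lemma full0 (h : SF S row w c u v o) :
    ∃ G, FullB {e | e ∈ c ∧ row e ∉ ωS u} row (rect 0 0 (w + 1) (w + 1) \ hT u v) G := by
  have hu := h.hu
  have hu1 : 1 ≤ u.1 ∧ 1 ≤ u.2 := by omega
  have hstar : hT u v ⊆ star u := by
    rintro q (hq | ⟨i, hq⟩)
    · rw [hq]
      unfold star
      simp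
    · rw [← hq]
      unfold star
      rcases wadj_nb hu1 (h.adj i) with h | h | h <;> rw [h] <;> simp
  refine full_local h.hW (o := u) (ρ := 1) (by omega) ?_ ?_ ?_
  · rintro p q ⟨q', hq', h1⟩
    have h2 := wadj_sd hq'
    have h3 : sd u u ≤ 1 := by
      rw [sd_le]
      omega
    rw [Sym2.eq_iff] at h1
    rcases h1 with ⟨rfl, rfl⟩ | ⟨rfl, rfl⟩
    · exact ⟨h3, h2.2⟩
    · exact ⟨h2.2, h3⟩
  · rintro q (hq | ⟨i, hq⟩)
    · rw [hq, sd_le]
      omega
    · rw [← hq]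
      exact (wadj_sd (h.adj i)).2
  · intro x y hs hxy
    have hy : 1 ≤ y := by
      rw [sd_le] at hs
      simp only at hs
      omega
    have h1 := star_esc (x₀ := u.1) (y₀ := u.2) hu1 (T := hT u v) (Or.inl hstar) (Or.inl rfl) x y
      hy hxy
    rcases h1 with h1 | h1 | ⟨h1, h2, h3⟩
    · exact Or.inl (h1.mono fun a ha => ωS_sub ha)
    · exact Or.inr (Or.inl (h1.mono fun a ha => ωS_sub ha))
    · exact Or.inr (Or.inr ⟨fun h4 => h1 (ωS_sub h4), h2, h3.mono fun a ha => ωS_sub ha⟩)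

/-- add the vertices `v k`, `u`, `v i` -/
lemma full1 (h : SF S row w c u v o) {e : Fin 3 → α} (he : ∀ i, e i ∈ c ∧ row (e i) = s(u, v i))
    {c' : Set α} (hc' : ∀ f ∈ c, row f ∉ ωS u → (∀ j, v j ∉ row f) → f ∈ c') {i k : Fin 3}
    (hik : i ≠ k) (hk : o k ∈ c') (hk' : e k ∈ c') (hi : o i ∈ c' ∨ e i ∈ c') :
    ∃ G, FullB c' row (insert (v i) (insert u (insert (v k)
      (rect 0 0 (w + 1) (w + 1) \ hT u v)))) G := by
  obtain ⟨G₀, hG₀⟩ := h.full0
  have f0 : FullB c' row (rect 0 0 (w + 1) (w + 1) \ hT u v) G₀ := by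
    refine fullB_sub hG₀ ?_
    rintro f ⟨hf, hf2⟩ hfU
    exact hc' f hf hf2 fun j hj => (hfU _ hj).2 (Or.inr ⟨j, rfl⟩)
  have hoe : ∀ i, ∀ q ∈ row (o i), q ∈ insert (v i) (rect 0 0 (w + 1) (w + 1) \ hT u v) := by
    intro i q hq
    rcases h.oend i hq with h1 | ⟨h1, h2, h3⟩
    · exact Or.inl h1
    · refine Or.inr ⟨h1, ?_⟩
      rintro (h4 | ⟨j, h4⟩)
      · exact h2 h4
      · exact h3 j h4.symm
  have f1 := fullB_add f0 hk (h.ho k).2.1 (fun h1 => h1.2 (Or.inr ⟨k, rfl⟩)) (hoe k)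
  have hun : u ∉ insert (v k) (rect 0 0 (w + 1) (w + 1) \ hT u v) := by
    rintro (h1 | h1)
    · exact h.une k h1
    · exact h1.2 (Or.inl rfl)
  have f2 := fullB_add f1 hk' (v := u) (by rw [(he k).2]; exact Sym2.mem_mk_left _ _) hun (by
    intro q hq
    rw [(he k).2, Sym2.mem_iff] at hq
    rcases hq with hq | hq
    · exact Or.inl hq
    · exact Or.inr (Or.inl hq))
  have hvn : v i ∉ insert u (insert (v k) (rect 0 0 (w + 1) (w + 1) \ hT u v)) := by
    rintro (h1 | h1 | h1)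
    · exact h.une i h1.symm
    · exact h.vne hik h1
    · exact h1.2 (Or.inr ⟨i, rfl⟩)
  rcases hi with hi | hi
  · refine ⟨_, fullB_add f2 hi (h.ho i).2.1 hvn ?_⟩
    intro q hq
    rcases hoe i q hq with h1 | h1
    · exact Or.inl h1
    · exact Or.inr (Or.inr (Or.inr h1))
  · refine ⟨_, fullB_add f2 hi (v := v i) (by rw [(he i).2]; exact Sym2.mem_mk_right _ _) hvn ?_⟩
    intro q hq
    rw [(he i).2, Sym2.mem_iff] at hq
    rcases hq with hq | hq
    · exact Or.inr (Or.inl hq)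
    · exact Or.inl hq

/-- add the last vertex -/
lemma full2 (h : SF S row w c u v o) {e : Fin 3 → α} (he : ∀ i, e i ∈ c ∧ row (e i) = s(u, v i))
    {c' : Set α} (hc' : ∀ f ∈ c, row f ∉ ωS u → (∀ j, v j ∉ row f) → f ∈ c') {i j k : Fin 3}
    (hij : i ≠ j) (hik : i ≠ k) (hjk : j ≠ k) (hk : o k ∈ c') (hk' : e k ∈ c')
    (hi : o i ∈ c' ∨ e i ∈ c') (hj : o j ∈ c' ∨ e j ∈ c') :
    ∃ G, FullB c' row (rect 0 0 (w + 1) (w + 1)) G := by
  obtain ⟨G, hG⟩ := h.full1 he hc' hik hk hk' hi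
  have hvn : v j ∉ insert (v i) (insert u (insert (v k)
      (rect 0 0 (w + 1) (w + 1) \ hT u v))) := by
    rintro (h1 | h1 | h1 | h1)
    · exact h.vne hij h1.symm
    · exact h.une j h1.symm
    · exact h.vne hjk h1
    · exact h1.2 (Or.inr ⟨j, rfl⟩)
  have hV : insert (v j) (insert (v i) (insert u (insert (v k)
      (rect 0 0 (w + 1) (w + 1) \ hT u v)))) = rect 0 0 (w + 1) (w + 1) := by
    ext q
    constructor
    · rintro (h1 | h1 | h1 | h1 | h1)
      · rw [h1]; exact h.vV j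
      · rw [h1]; exact h.vV i
      · rw [h1]; exact h.uV
      · rw [h1]; exact h.vV k
      · exact h1.1
    · intro h1
      by_cases h2 : q ∈ hT u v
      · rcases h2 with h2 | ⟨l, h2⟩
        · exact Or.inr (Or.inr (Or.inl h2))
        · have h3 : ∀ i j k l : Fin 3, i ≠ j → i ≠ k → j ≠ k → l = i ∨ l = j ∨ l = k := by decide
          rcases h3 i j k l hij hik hjk with rfl | rfl | rfl
          · exact Or.inr (Or.inl h2.symm)
          · exact Or.inl h2.symm
          · exact Or.inr (Or.inr (Or.inr (Or.inl h2.symm)))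
      · exact Or.inr (Or.inr (Or.inr (Or.inr ⟨h1, h2⟩)))
  rw [← hV]
  rcases hj with hj | hj
  · refine ⟨_, fullB_add hG hj (h.ho j).2.1 hvn ?_⟩
    intro q hq
    rw [hV]
    exact wall_mem h.hW (h.ho j).1 hq
  · refine ⟨_, fullB_add hG hj (v := v j) (by rw [(he j).2]; exact Sym2.mem_mk_right _ _) hvn ?_⟩
    intro q hq
    rw [hV]
    exact wall_mem h.hW (he j).1 hq


/-! ### the theta -/

lemma mem_X (h : SF S row w c u v o) {i : Fin 3} {f : α} (hf : f ∈ sX S row u v i) :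
    row f ∈ ωS u := h.om.2 ⟨i, hf.2⟩

lemma mem_leg {i : Fin 3} {f : α} :
    f ∈ leg (sX S row u v) o i ↔ f = o i ∨ (f ∈ S ∧ row f = s(u, v i)) := Iff.rfl

lemma mem_K (h : SF S row w c u v o) {f : α} : f ∈ TK (sX S row u v) o ↔
    (f ∈ S ∧ row f ∈ ωS u) ∨ ∃ i, f = o i := by
  constructor
  · rintro (((h1 | h1) | (h1 | h1)) | (h1 | h1))
    · exact Or.inr ⟨_, h1⟩
    · exact Or.inl ⟨h1.1, h.mem_X h1⟩
    · exact Or.inr ⟨_, h1⟩
    · exact Or.inl ⟨h1.1, h.mem_X h1⟩
    · exact Or.inr ⟨_, h1⟩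
    · exact Or.inl ⟨h1.1, h.mem_X h1⟩
  · rintro (⟨h1, h2⟩ | ⟨i, h1⟩)
    · obtain ⟨i, hi⟩ := h.om.1 h2
      fin_cases i
      · exact Or.inl (Or.inl (Or.inr ⟨h1, hi⟩))
      · exact Or.inl (Or.inr (Or.inr ⟨h1, hi⟩))
      · exact Or.inr (Or.inr ⟨h1, hi⟩)
    · fin_cases i
      · exact Or.inl (Or.inl (Or.inl h1))
      · exact Or.inl (Or.inr (Or.inl h1))
      · exact Or.inr (Or.inl h1)

lemma leg_sub {i : Fin 3} : leg (sX S row u v) o i ⊆ TK (sX S row u v) o := by
  fin_cases i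
  · exact fun f hf => Or.inl (Or.inl hf)
  · exact fun f hf => Or.inl (Or.inr hf)
  · exact fun f hf => Or.inr hf

lemma K_ij {i j k : Fin 3} (hij : i ≠ j) (hik : i ≠ k) (hjk : j ≠ k) :
    TK (sX S row u v) o ⊆ leg (sX S row u v) o i ∪ leg (sX S row u v) o j ∪
      leg (sX S row u v) o k := by
  have h3 : ∀ i j k l : Fin 3, i ≠ j → i ≠ k → j ≠ k → l = i ∨ l = j ∨ l = k := by decide
  have key : ∀ l, leg (sX S row u v) o l ⊆ leg (sX S row u v) o i ∪ leg (sX S row u v) o j ∪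
      leg (sX S row u v) o k := by
    intro l
    rcases h3 i j k l hij hik hjk with rfl | rfl | rfl
    · exact fun f hf => Or.inl (Or.inl hf)
    · exact fun f hf => Or.inl (Or.inr hf)
    · exact fun f hf => Or.inr hf
  rintro f ((hf | hf) | hf)
  · exact key 0 hf
  · exact key 1 hf
  · exact key 2 hf

lemma oX (h : SF S row w c u v o) (i j : Fin 3) : o i ∉ sX S row u v j := by
  rintro ⟨-, h1⟩
  refine (h.ho i).2.2 ?_
  rw [h1]
  exact Sym2.mem_mk_left _ _

lemma one_ne (h : SF S row w c u v o) {i j : Fin 3} (hij : i ≠ j) : o i ≠ o j := by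
  intro h1
  have h2 := (h.ho j).2.1
  rw [← h1] at h2
  rcases h.oend i h2 with h3 | h3
  · exact h.vne hij h3.symm
  · exact h3.2.2 j rfl

lemma dis (h : SF S row w c u v o) {i j : Fin 3} (hij : i ≠ j) :
    Disjoint (leg (sX S row u v) o i) (leg (sX S row u v) o j) := by
  rw [Set.disjoint_left]
  rintro f (h1 | h1) (h2 | h2)
  · exact h.one_ne hij (h1.symm.trans h2)
  · rw [h1] at h2
    exact h.oX i j h2
  · rw [h2] at h1
    exact h.oX j i h1
  · have h3 := h1.2.symm.trans h2.2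
    rw [Sym2.eq_iff] at h3
    rcases h3 with ⟨-, h3⟩ | ⟨h3, -⟩
    · exact h.vne hij h3
    · exact h.une j h3

lemma FLc {f : α} (hf : f ∈ FL S row c (ωS u) (range v)) (hfc : f ∈ c)
    (i : Fin 3) : v i ∉ row f := fun h1 => hf.2 ⟨hfc, v i, ⟨i, rfl⟩, h1⟩

lemma disFL (h : SF S row w c u v o) {f : α} (hf : f ∈ FL S row c (ωS u) (range v))
    (hf' : f ∈ TK (sX S row u v) o) : False := by
  rcases h.mem_K.1 hf' with h1 | ⟨i, rfl⟩
  · exact hf.1.2 h1.2
  · exact FLc hf (h.ho i).1 i (h.ho i).2.1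

/-- all elements -/
lemma S_eq (h : SF S row w c u v o) {f : α} (hf : f ∈ S) (hfc : f ∉ c) :
    f ∈ FL S row c (ωS u) (range v) ∪ TK (sX S row u v) o := by
  by_cases h1 : row f ∈ ωS u
  · exact Or.inr (h.mem_K.2 (Or.inl ⟨hf, h1⟩))
  · exact Or.inl ⟨⟨hf, h1⟩, fun h2 => hfc h2.1⟩

lemma K_c (h : SF S row w c u v o) {e : Fin 3 → α} (he : ∀ i, e i ∈ c ∧ row (e i) = s(u, v i)) :
    TK (sX S row u v) o ∩ c = range e ∪ range o := by
  ext f
  constructor
  · rintro ⟨h1, h2⟩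
    rcases h.mem_K.1 h1 with ⟨h3, h4⟩ | ⟨i, rfl⟩
    · obtain ⟨i, hi⟩ := h.om.1 h4
      left
      exact ⟨i, h.hW.inj (he i).1 h2 ((he i).2.trans hi.symm)⟩
    · exact Or.inr ⟨i, rfl⟩
  · rintro (⟨i, rfl⟩ | ⟨i, rfl⟩)
    · exact ⟨h.mem_K.2 (Or.inl ⟨h.hc (he i).1, h.om.2 ⟨i, (he i).2⟩⟩), (he i).1⟩
    · exact ⟨h.mem_K.2 (Or.inr ⟨i, rfl⟩), (h.ho i).1⟩

lemma eo (h : SF S row w c u v o) {e : Fin 3 → α} (he : ∀ i, e i ∈ c ∧ row (e i) = s(u, v i))
    (i j : Fin 3) : e i ≠ o j := by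
  intro h1
  refine (h.ho j).2.2 ?_
  rw [← h1, (he i).2]
  exact Sym2.mem_mk_left _ _

lemma ee (h : SF S row w c u v o) {e : Fin 3 → α} (he : ∀ i, e i ∈ c ∧ row (e i) = s(u, v i))
    {i j : Fin 3} (hij : i ≠ j) : e i ≠ e j := by
  intro h1
  have h3 := (he i).2.symm.trans ((congrArg row h1).trans (he j).2)
  rw [Sym2.eq_iff] at h3
  rcases h3 with ⟨-, h3⟩ | ⟨h3, -⟩
  · exact h.vne hij h3
  · exact h.une j h3

lemma K_card (h : SF S row w c u v o) (hSf : S.Finite) {e : Fin 3 → α}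
    (he : ∀ i, e i ∈ c ∧ row (e i) = s(u, v i)) :
    (TK (sX S row u v) o).ncard = (TK (sX S row u v) o \ c).ncard + 6 := by
  have hKS : TK (sX S row u v) o ⊆ S := by
    intro f hf
    rcases h.mem_K.1 hf with h1 | ⟨i, rfl⟩
    · exact h1.1
    · exact h.hc (h.ho i).1
  have h1 := ncard_inter_add_ncard_sdiff_eq_ncard (TK (sX S row u v) o) c (hSf.subset hKS)
  rw [h.K_c he] at h1
  have h2 : (range e ∪ range o).ncard = 6 := by
    rw [ncard_union_eq ?_ (finite_range e) (finite_range o)]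
    · have h3 : (range e).ncard = 3 := by
        rw [← image_univ, ncard_image_of_injective]
        · rw [ncard_univ, Nat.card_eq_fintype_card, Fintype.card_fin]
        · intro i j hij
          by_contra hne
          exact h.ee he hne hij
      have h4 : (range o).ncard = 3 := by
        rw [← image_univ, ncard_image_of_injective]
        · rw [ncard_univ, Nat.card_eq_fintype_card, Fintype.card_fin]
        · intro i j hij
          by_contra hne
          exact h.one_ne hne hij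
      omega
    · rw [Set.disjoint_left]
      rintro f ⟨i, hi⟩ ⟨j, hj⟩
      exact h.eo he i j (hi.trans hj.symm)
  omega


lemma KS (h : SF S row w c u v o) : TK (sX S row u v) o ⊆ S := by
  intro f hf
  rcases h.mem_K.1 hf with h1 | ⟨i, rfl⟩
  · exact h1.1
  · exact h.hc (h.ho i).1

lemma T_row (hG : RWx P S row w) :
    ∀ f ∈ S, ∀ x ∈ hT u v, x ∉ range v → x ∈ row f → row f ∈ ωS u := by
  rintro f hf x (hx | hx) hxv hxf
  · rw [hx] at hxf
    obtain ⟨p, q, h1, h2, _⟩ := hG.mem f hf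
    rw [h1] at hxf ⊢
    rw [mem_ωS h2]
    rw [Sym2.mem_iff] at hxf
    rcases hxf with h4 | h4
    · exact Or.inl h4.symm
    · exact Or.inr h4.symm
  · exact absurd hx hxv

lemma rk_F [P.Finite] (h : SF S row w c u v o) (hG : RWx P S row w) :
    rk P (FL S row c (ωS u) (range v)) = (FL S row c (ωS u) (range v) \ c).ncard +
      (rect 0 0 (w + 1) (w + 1) \ hT u v).ncard := by
  obtain ⟨G, hG0⟩ := h.full0
  exact rk_FL hG h.hc h.hW (fun x hx => Or.inr hx) (T_row hG) hG0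

/-- subsets of the theta with full rank -/
lemma rk_good [P.Finite] (h : SF S row w c u v o) (hG : RWx P S row w) {e : Fin 3 → α}
    (he : ∀ i, e i ∈ c ∧ row (e i) = s(u, v i)) {Z : Set α} (hZ : Z ⊆ TK (sX S row u v) o)
    (hcl : ∀ f ∈ Z, f ∈ c → row f ∈ ωS u → ∀ f' ∈ S, row f' = row f → f' ∈ Z) {i j k : Fin 3}
    (hij : i ≠ j) (hik : i ≠ k) (hjk : j ≠ k) (hk : o k ∈ Z) (hk' : e k ∈ Z)
    (hi : o i ∈ Z ∨ e i ∈ Z) (hj : o j ∈ Z ∨ e j ∈ Z) :
    rk (P ／ FL S row c (ωS u) (range v)) Z = (Z \ c).ncard + 4 := by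
  obtain ⟨G₀, hG0⟩ := h.full0
  obtain ⟨G, hG1⟩ := h.full2 he (c' := {f | f ∈ c ∧ f ∈ FL S row c (ωS u) (range v) ∪ Z}) (by
    intro f hf h1 h2
    refine ⟨hf, Or.inl ⟨⟨h.hc hf, h1⟩, ?_⟩⟩
    rintro ⟨_, a, ⟨l, rfl⟩, ha⟩
    exact h2 l ha) hij hik hjk ⟨(h.ho k).1, Or.inr hk⟩ ⟨(he k).1, Or.inr hk'⟩
    (hi.imp (fun h1 => ⟨(h.ho i).1, Or.inr h1⟩) fun h1 => ⟨(he i).1, Or.inr h1⟩)
    (hj.imp (fun h1 => ⟨(h.ho j).1, Or.inr h1⟩) fun h1 => ⟨(he j).1, Or.inr h1⟩)
  rw [rk_locN (T := hT u v) hG h.hc h.hW (fun x hx => Or.inr hx) (T_row hG) h.hTV hG0 ?_ hcl hG1,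
    h.hTc]
  intro f hf
  rcases h.mem_K.1 (hZ hf) with h1 | ⟨l, rfl⟩
  · exact ⟨h1.1, Or.inl h1.2⟩
  · exact ⟨h.hc (h.ho l).1, Or.inr ⟨(h.ho l).1, v l, ⟨l, rfl⟩, (h.ho l).2.1⟩⟩

/-- the representative of an element -/
lemma rep (h : SF S row w c u v o) {e : Fin 3 → α}
    (he : ∀ i, e i ∈ c ∧ row (e i) = s(u, v i)) {i : Fin 3} {x : α}
    (hx : x ∈ leg (sX S row u v) o i) : ∃ x' ∈ leg (sX S row u v) o i, x' ∈ c ∧ row x' = row x ∧
      ((x' = o i ∧ e i ≠ x') ∨ (x' = e i ∧ o i ≠ x')) := by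
  rcases hx with hx | hx
  · exact ⟨o i, Or.inl rfl, (h.ho i).1, by rw [hx], Or.inl ⟨rfl, h.eo he i i⟩⟩
  · exact ⟨e i, Or.inr ⟨h.hc (he i).1, (he i).2⟩, (he i).1, (he i).2.trans hx.2.symm,
      Or.inr ⟨rfl, (h.eo he i i).symm⟩⟩

/-- `K` without two elements of different legs is independent -/
lemma ind [P.Finite] (h : SF S row w c u v o) (hG : RWx P S row w) {i j : Fin 3} (hij : i ≠ j)
    {x y : α} (hx : x ∈ leg (sX S row u v) o i) (hy : y ∈ leg (sX S row u v) o j) :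
    (P ／ FL S row c (ωS u) (range v)).Indep (TK (sX S row u v) o \ {x, y}) := by
  obtain ⟨e, he⟩ := h.exe
  have hSf : S.Finite := P.ground_finite.subset hG.sub
  have hKf : (TK (sX S row u v) o).Finite := hSf.subset h.KS
  obtain ⟨x', hx'l, hx'c, hx'r, hx'⟩ := h.rep he hx
  obtain ⟨y', hy'l, hy'c, hy'r, hy'⟩ := h.rep he hy
  have hxy : x ≠ y := fun h1 => (h.dis hij).ne_of_mem hx hy h1
  have hxy' : x' ≠ y' := fun h1 => (h.dis hij).ne_of_mem hx'l hy'l h1
  obtain ⟨k, hik, hjk⟩ : ∃ k, i ≠ k ∧ j ≠ k := by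
    have h3 : ∀ i j : Fin 3, ∃ k, i ≠ k ∧ j ≠ k := by decide
    exact h3 i j
  have : (P ／ FL S row c (ωS u) (range v)).Finite := BQ.fin_contract _
  have hFE : FL S row c (ωS u) (range v) ⊆ P.E := FL_sub.trans hG.sub
  have hKE : TK (sX S row u v) o ⊆ P.E \ FL S row c (ωS u) (range v) := fun f hf =>
    ⟨hG.sub (h.KS hf), fun h1 => h.disFL h1 hf⟩
  have hko : o k ∈ leg (sX S row u v) o k := Or.inl rfl
  have hke : e k ∈ leg (sX S row u v) o k := Or.inr ⟨h.hc (he k).1, (he k).2⟩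
  have hio : o i ∈ leg (sX S row u v) o i := Or.inl rfl
  have hie : e i ∈ leg (sX S row u v) o i := Or.inr ⟨h.hc (he i).1, (he i).2⟩
  have hjo : o j ∈ leg (sX S row u v) o j := Or.inl rfl
  have hje : e j ∈ leg (sX S row u v) o j := Or.inr ⟨h.hc (he j).1, (he j).2⟩
  have hnp : ∀ f a b l, f ∈ leg (sX S row u v) o l → f ≠ a → f ≠ b →
      f ∈ TK (sX S row u v) o \ {a, b} := by
    rintro f a b l hf h1 h2
    refine ⟨leg_sub hf, ?_⟩
    rintro (h3 | h3)
    · exact h1 h3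
    · exact h2 h3
  have hc2 : ∀ a b, a ∈ TK (sX S row u v) o → b ∈ TK (sX S row u v) o → a ≠ b →
      (TK (sX S row u v) o \ {a, b}).ncard + 2 = (TK (sX S row u v) o).ncard := by
    intro a b ha hb hab
    have h1 := ncard_sdiff_add_ncard_of_subset (s := {a, b}) (t := TK (sX S row u v) o)
      (by rintro f (hf | hf) <;> rw [hf] <;> assumption) hKf
    rwa [ncard_pair hab] at h1
  have r1 : rk (P ／ FL S row c (ωS u) (range v)) (TK (sX S row u v) o \ {x', y'}) =
      ((TK (sX S row u v) o \ {x', y'}) \ c).ncard + 4 := by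
    refine h.rk_good hG he sdiff_subset ?_ hij hik hjk ?_ ?_ ?_ ?_
    · rintro f ⟨hf, hf2⟩ hfc hfω f' hf' hff
      refine ⟨h.mem_K.2 (Or.inl ⟨hf', by rw [hff]; exact hfω⟩), ?_⟩
      rintro (h1 | h1)
      · refine hf2 (Or.inl ?_)
        rw [h1] at hff
        exact h.hW.inj hfc hx'c hff.symm
      · refine hf2 (Or.inr ?_)
        rw [h1] at hff
        exact h.hW.inj hfc hy'c hff.symm
    · exact hnp _ _ _ k hko ((h.dis hik).ne_of_mem hx'l hko).symm
        ((h.dis hjk).ne_of_mem hy'l hko).symm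
    · exact hnp _ _ _ k hke ((h.dis hik).ne_of_mem hx'l hke).symm
        ((h.dis hjk).ne_of_mem hy'l hke).symm
    · rcases hx' with ⟨-, h1⟩ | ⟨-, h1⟩
      · exact Or.inr (hnp _ _ _ i hie h1 ((h.dis hij).ne_of_mem hie hy'l))
      · exact Or.inl (hnp _ _ _ i hio h1 ((h.dis hij).ne_of_mem hio hy'l))
    · rcases hy' with ⟨-, h1⟩ | ⟨-, h1⟩
      · exact Or.inr (hnp _ _ _ j hje ((h.dis hij).ne_of_mem hx'l hje).symm h1)
      · exact Or.inl (hnp _ _ _ j hjo ((h.dis hij).ne_of_mem hx'l hjo).symm h1)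
  have hcc : (TK (sX S row u v) o \ {x', y'}) \ c = TK (sX S row u v) o \ c := by
    ext f
    constructor
    · rintro ⟨⟨h1, _⟩, h2⟩
      exact ⟨h1, h2⟩
    · rintro ⟨h1, h2⟩
      refine ⟨⟨h1, ?_⟩, h2⟩
      rintro (h3 | h3)
      · rw [h3] at h2; exact h2 hx'c
      · rw [h3] at h2; exact h2 hy'c
  rw [hcc] at r1
  have hKc := h.K_card hSf he
  have hBD : ∀ a b, a ∈ TK (sX S row u v) o → b ∈ TK (sX S row u v) o →
      (FL S row c (ωS u) (range v) ∪ TK (sX S row u v) o) \ {a, b} =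
        (TK (sX S row u v) o \ {a, b}) ∪ FL S row c (ωS u) (range v) := by
    intro a b ha hb
    ext f
    constructor
    · rintro ⟨h1 | h1, h2⟩
      · exact Or.inr h1
      · exact Or.inl ⟨h1, h2⟩
    · rintro (⟨h1, h2⟩ | h1)
      · exact ⟨Or.inr h1, h2⟩
      · refine ⟨Or.inl h1, ?_⟩
        rintro (h3 | h3)
        · rw [h3] at h1; exact h.disFL h1 ha
        · rw [h3] at h1; exact h.disFL h1 hb
  have hxK := leg_sub hx
  have hyK := leg_sub hy
  have hxK' := leg_sub hx'l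
  have hyK' := leg_sub hy'l
  have n1 := nul_eq hG (B := FL S row c (ωS u) (range v) ∪ TK (sX S row u v) o)
    (D := {x, y}) (D' := {x', y'}) (union_subset FL_sub h.KS) (by
      rintro f (hf | hf)
      · rw [hf]; exact h.KS hxK
      · rw [hf]; exact h.KS hyK) (by
      rintro f (hf | hf)
      · rw [hf]; exact h.KS hxK'
      · rw [hf]; exact h.KS hyK') (by
      rw [image_pair, image_pair, hx'r, hy'r])
  have hFf : (FL S row c (ωS u) (range v)).Finite := hSf.subset FL_sub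
  have hU : ∀ a b, ((TK (sX S row u v) o \ {a, b}) ∪ FL S row c (ωS u) (range v)).ncard =
      (TK (sX S row u v) o \ {a, b}).ncard + (FL S row c (ωS u) (range v)).ncard := by
    intro a b
    refine ncard_union_eq ?_ (hKf.subset sdiff_subset) hFf
    rw [Set.disjoint_left]
    exact fun f hf hf' => h.disFL hf' hf.1
  rw [hBD _ _ hxK hyK, hBD _ _ hxK' hyK', hU, hU] at n1
  have c1 := BQ.rk_con hFE (X := TK (sX S row u v) o \ {x, y}) (sdiff_subset.trans hKE)
  have c2 := BQ.rk_con hFE (X := TK (sX S row u v) o \ {x', y'}) (sdiff_subset.trans hKE)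
  have m1 := hc2 _ _ hxK hyK hxy
  have m2 := hc2 _ _ hxK' hyK' hxy'
  refine C1Q.indep_of_rk ?_ ?_
  · exact sdiff_subset.trans hKE
  · omega


/-- two legs are dependent -/
lemma dep_rk [P.Finite] (h : SF S row w c u v o) (hG : RWx P S row w) {i j k : Fin 3}
    (hij : i ≠ j) (hik : i ≠ k) (hjk : j ≠ k) :
    rk (P ／ FL S row c (ωS u) (range v)) (leg (sX S row u v) o i ∪ leg (sX S row u v) o j) + 1 ≤
      (leg (sX S row u v) o i ∪ leg (sX S row u v) o j).ncard := by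
  obtain ⟨e, he⟩ := h.exe
  have hSf : S.Finite := P.ground_finite.subset hG.sub
  have hKf : (TK (sX S row u v) o).Finite := hSf.subset h.KS
  have hFf : (FL S row c (ωS u) (range v)).Finite := hSf.subset FL_sub
  have hFE : FL S row c (ωS u) (range v) ⊆ P.E := FL_sub.trans hG.sub
  have hKE : TK (sX S row u v) o ⊆ P.E \ FL S row c (ωS u) (range v) := fun f hf =>
    ⟨hG.sub (h.KS hf), fun h1 => h.disFL h1 hf⟩
  have hko : o k ∈ leg (sX S row u v) o k := Or.inl rfl
  have hke : e k ∈ leg (sX S row u v) o k := Or.inr ⟨h.hc (he k).1, (he k).2⟩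
  have hLK : leg (sX S row u v) o k ⊆ TK (sX S row u v) o := leg_sub
  have hZK : leg (sX S row u v) o i ∪ leg (sX S row u v) o j ⊆ TK (sX S row u v) o :=
    union_subset leg_sub leg_sub
  -- the first set
  have e1 : (FL S row c (ωS u) (range v) ∪ TK (sX S row u v) o) \ leg (sX S row u v) o k =
      (leg (sX S row u v) o i ∪ leg (sX S row u v) o j) ∪ FL S row c (ωS u) (range v) := by
    ext f
    constructor
    · rintro ⟨h1 | h1, h2⟩
      · exact Or.inr h1
      · rcases K_ij hij hik hjk h1 with h3 | h3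
        · exact Or.inl h3
        · exact absurd h3 h2
    · rintro ((h1 | h1) | h1)
      · exact ⟨Or.inr (leg_sub h1), fun h2 => (h.dis hik).ne_of_mem h1 h2 rfl⟩
      · exact ⟨Or.inr (leg_sub h1), fun h2 => (h.dis hjk).ne_of_mem h1 h2 rfl⟩
      · exact ⟨Or.inl h1, fun h2 => h.disFL h1 (hLK h2)⟩
  have n1 := nul_eq hG (B := FL S row c (ωS u) (range v) ∪ TK (sX S row u v) o)
    (D := leg (sX S row u v) o k) (D' := {e k, o k}) (union_subset FL_sub h.KS)
    (hLK.trans h.KS) (by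
      rintro f (hf | hf)
      · rw [hf]; exact h.hc (he k).1
      · rw [hf]; exact h.hc (h.ho k).1) (by
      rw [image_pair, (he k).2]
      ext a
      constructor
      · rintro ⟨f, hf | hf, rfl⟩
        · rw [hf]; exact Or.inr rfl
        · exact Or.inl hf.2
      · rintro (h1 | h1)
        · rw [h1]; exact ⟨e k, hke, (he k).2⟩
        · rw [h1]; exact ⟨o k, hko, rfl⟩)
  -- the rank without the representatives at `v k`
  have e2 : rk P ((FL S row c (ωS u) (range v) ∪ TK (sX S row u v) o) \ {e k, o k}) ≤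
      ((FL S row c (ωS u) (range v) ∪ TK (sX S row u v) o) \ c).ncard +
        ((rect 0 0 (w + 1) (w + 1)).ncard - 1) := by
    have a1 : v k ∉ row (o j) := by
      intro h1
      rcases h.oend j h1 with h9 | h9
      · exact h.vne hjk h9.symm
      · exact h9.2.2 k rfl
    have a2 : v k ∉ row (e j) := by
      intro h1
      rw [(he j).2, Sym2.mem_iff] at h1
      rcases h1 with h1 | h1
      · exact h.une k h1.symm
      · exact h.vne hjk h1.symm
    have a3 : v k ∉ row (o i) := by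
      intro h1
      rcases h.oend i h1 with h9 | h9
      · exact h.vne hik h9.symm
      · exact h9.2.2 k rfl
    obtain ⟨G, hG1⟩ := h.full1 he (c' := {f | f ∈ c ∧ v k ∉ row f}) (i := i) (k := j)
      (fun f hf _ h2 => ⟨hf, h2 k⟩) hij ⟨(h.ho j).1, a1⟩ ⟨(he j).1, a2⟩ (Or.inl ⟨(h.ho i).1, a3⟩)
    · have hV : insert (v i) (insert u (insert (v j) (rect 0 0 (w + 1) (w + 1) \ hT u v))) =
          rect 0 0 (w + 1) (w + 1) \ {v k} := by
        ext q
        constructor
        · rintro (h1 | h1 | h1 | h1)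
          · rw [h1]; exact ⟨h.vV i, fun h2 => h.vne hik h2⟩
          · rw [h1]; exact ⟨h.uV, fun h2 => h.une k h2⟩
          · rw [h1]; exact ⟨h.vV j, fun h2 => h.vne hjk h2⟩
          · exact ⟨h1.1, fun h2 => h1.2 (Or.inr ⟨k, Eq.symm h2⟩)⟩
        · rintro ⟨h1, h0⟩
          by_cases h2 : q ∈ hT u v
          · rcases h2 with h2 | ⟨l, h2⟩
            · exact Or.inr (Or.inl h2)
            · have h3 : ∀ i j k l : Fin 3, i ≠ j → i ≠ k → j ≠ k → l = i ∨ l = j ∨ l = k := by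
                decide
              rcases h3 i j k l hij hik hjk with rfl | rfl | rfl
              · exact Or.inl h2.symm
              · exact Or.inr (Or.inr (Or.inl h2.symm))
              · exact absurd h2.symm h0
          · exact Or.inr (Or.inr (Or.inr ⟨h1, h2⟩))
      rw [hV] at hG1
      have h5 := hG.rk_hole h.hc h.hW (ω := ∅) (T := {v k}) (F := G) (by
        refine fullB_sub hG1 ?_
        rintro f ⟨hf, hf2⟩ _
        exact ⟨hf, notMem_empty _⟩)
      have h6 : (rect 0 0 (w + 1) (w + 1) \ {v k}).ncard = (rect 0 0 (w + 1) (w + 1)).ncard - 1 :=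
        ncard_sdiff_singleton_of_mem (h.vV k)
      have h7 : (S \ {e | row e ∈ (∅ : Set (Sym2 (ℕ × ℕ)))}) \ c =
          (FL S row c (ωS u) (range v) ∪ TK (sX S row u v) o) \ c := by
        ext f
        constructor
        · rintro ⟨⟨h1, _⟩, h2⟩
          exact ⟨h.S_eq h1 h2, h2⟩
        · rintro ⟨h1 | h1, h2⟩
          · exact ⟨⟨FL_sub h1, fun h3 => h3⟩, h2⟩
          · exact ⟨⟨h.KS h1, fun h3 => h3⟩, h2⟩
      rw [h6, h7] at h5
      rw [← h5]
      refine rk_mono P ?_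
      rintro f ⟨hf, hf2⟩
      refine ⟨⟨?_, fun h3 => h3⟩, ?_⟩
      · rcases hf with hf | hf
        · exact FL_sub hf
        · exact h.KS hf
      · rintro ⟨h8, a, ha, haf⟩
        rw [mem_singleton_iff] at ha
        rw [ha] at haf
        rcases hf with hf | hf
        · exact FLc hf h8 k haf
        · rcases h.mem_K.1 hf with h9 | ⟨l, rfl⟩
          · obtain ⟨l, hl⟩ := h.om.1 h9.2
            rw [hl, Sym2.mem_iff] at haf
            rcases haf with haf | haf
            · exact h.une k haf.symm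
            · by_cases hlk : l = k
              · rw [hlk] at hl
                exact hf2 (Or.inl (h.hW.inj h8 (he k).1 (hl.trans (he k).2.symm)))
              · exact h.vne hlk haf.symm
          · rcases h.oend l haf with h9 | h9
            · by_cases hlk : l = k
              · rw [hlk] at hf2
                exact hf2 (Or.inr rfl)
              · exact h.vne hlk h9.symm
            · exact h9.2.2 k rfl
  have hVc : 4 ≤ (rect 0 0 (w + 1) (w + 1)).ncard := by
    rw [← h.hTc]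
    exact ncard_le_ncard h.hTV (Gad.rect_finite _ _ _ _)
  -- cardinals
  have k1 : (FL S row c (ωS u) (range v) ∪ TK (sX S row u v) o).ncard =
      (FL S row c (ωS u) (range v)).ncard + (TK (sX S row u v) o).ncard := by
    refine ncard_union_eq ?_ hFf hKf
    rw [Set.disjoint_left]
    exact fun f hf hf' => h.disFL hf hf'
  have k2 : ((FL S row c (ωS u) (range v) ∪ TK (sX S row u v) o) \ c).ncard =
      (FL S row c (ωS u) (range v) \ c).ncard + (TK (sX S row u v) o \ c).ncard := by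
    rw [union_sdiff_distrib]
    refine ncard_union_eq ?_ (hFf.subset sdiff_subset) (hKf.subset sdiff_subset)
    rw [Set.disjoint_left]
    exact fun f hf hf' => h.disFL hf.1 hf'.1
  have k3 : ((FL S row c (ωS u) (range v) ∪ TK (sX S row u v) o) \ {e k, o k}).ncard + 2 =
      (FL S row c (ωS u) (range v) ∪ TK (sX S row u v) o).ncard := by
    have h1 := ncard_sdiff_add_ncard_of_subset (s := {e k, o k})
      (t := FL S row c (ωS u) (range v) ∪ TK (sX S row u v) o) (by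
        rintro f (hf | hf)
        · rw [hf]; exact Or.inr (hLK hke)
        · rw [hf]; exact Or.inr (hLK hko)) (hFf.union hKf)
    rwa [ncard_pair (h.eo he k k)] at h1
  have k4 : ((leg (sX S row u v) o i ∪ leg (sX S row u v) o j) ∪
      FL S row c (ωS u) (range v)).ncard = (leg (sX S row u v) o i ∪
        leg (sX S row u v) o j).ncard + (FL S row c (ωS u) (range v)).ncard := by
    refine ncard_union_eq ?_ (hKf.subset hZK) hFf
    rw [Set.disjoint_left]
    exact fun f hf hf' => h.disFL hf' (hZK hf)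
  have hKc := h.K_card hSf he
  have hF := h.rk_F hG
  have hTV := ncard_sdiff_add_ncard_of_subset h.hTV (Gad.rect_finite _ _ _ _)
  rw [h.hTc] at hTV
  have c1 := BQ.rk_con hFE (X := leg (sX S row u v) o i ∪ leg (sX S row u v) o j)
    (hZK.trans hKE)
  rw [e1] at n1
  omega

/-- **The star matroid is a theta.** -/
theorem theta [P.Finite] (h : SF S row w c u v o) (hG : RWx P S row w) :
    Theta (P ／ FL S row c (ωS u) (range v)) (TK (sX S row u v) o) (leg (sX S row u v) o 0)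
      (leg (sX S row u v) o 1) (leg (sX S row u v) o 2) := by
  have hKE : TK (sX S row u v) o ⊆ P.E \ FL S row c (ωS u) (range v) := fun f hf =>
    ⟨hG.sub (h.KS hf), fun h1 => h.disFL h1 hf⟩
  have : (P ／ FL S row c (ωS u) (range v)).Finite := BQ.fin_contract _
  have hcir : ∀ i j k : Fin 3, i ≠ j → i ≠ k → j ≠ k →
      (P ／ FL S row c (ωS u) (range v)).IsCircuit
        (leg (sX S row u v) o i ∪ leg (sX S row u v) o j) := by
    intro i j k hij hik hjk
    have hZK : leg (sX S row u v) o i ∪ leg (sX S row u v) o j ⊆ TK (sX S row u v) o :=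
      union_subset leg_sub leg_sub
    rw [Matroid.isCircuit_iff_dep_forall_sdiff_singleton_indep]
    constructor
    · rw [← Matroid.not_indep_iff (hZK.trans hKE)]
      intro h1
      have h2 := rk_indep h1
      have h3 := h.dep_rk hG hij hik hjk
      omega
    · rintro x (hx | hx)
      · refine (h.ind hG hik hx (y := o k) (Or.inl rfl)).subset ?_
        rintro f ⟨hf, hfx⟩
        refine ⟨hZK hf, ?_⟩
        rintro (h3 | h3)
        · exact hfx h3
        · rcases hf with hf | hf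
          · exact (h.dis hik).ne_of_mem hf (Or.inl rfl) h3
          · exact (h.dis hjk).ne_of_mem hf (Or.inl rfl) h3
      · refine (h.ind hG hjk hx (y := o k) (Or.inl rfl)).subset ?_
        rintro f ⟨hf, hfx⟩
        refine ⟨hZK hf, ?_⟩
        rintro (h3 | h3)
        · exact hfx h3
        · rcases hf with hf | hf
          · exact (h.dis hik).ne_of_mem hf (Or.inl rfl) h3
          · exact (h.dis hjk).ne_of_mem hf (Or.inl rfl) h3
  exact ⟨rfl, h.dis (by decide), h.dis (by decide), h.dis (by decide),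
    hcir 0 1 2 (by decide) (by decide) (by decide),
    hcir 0 2 1 (by decide) (by decide) (by decide),
    hcir 1 2 0 (by decide) (by decide) (by decide),
    fun x hx y hy => h.ind hG (by decide) hx hy,
    fun x hx y hy => h.ind hG (by decide) hx hy,
    fun x hx y hy => h.ind hG (by decide) hx hy⟩

/-- the theta and the contracted rows have the rank of the wall -/
lemma rk_FK [P.Finite] (h : SF S row w c u v o) (hG : RWx P S row w) :
    rk P (FL S row c (ωS u) (range v) ∪ TK (sX S row u v) o) = rk P S := by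
  obtain ⟨e, he⟩ := h.exe
  obtain ⟨G, hG1⟩ := h.full2 he (c' := {f | f ∈ c ∧ f ∈ FL S row c (ωS u) (range v) ∪
    TK (sX S row u v) o}) (i := 0) (j := 1) (k := 2) (by
    intro f hf h1 h2
    refine ⟨hf, Or.inl ⟨⟨h.hc hf, h1⟩, ?_⟩⟩
    rintro ⟨_, a, ⟨l, rfl⟩, ha⟩
    exact h2 l ha) (by decide) (by decide) (by decide)
    ⟨(h.ho 2).1, Or.inr (leg_sub (i := 2) (Or.inl rfl))⟩
    ⟨(he 2).1, Or.inr (leg_sub (i := 2) (Or.inr ⟨h.hc (he 2).1, (he 2).2⟩))⟩
    (Or.inl ⟨(h.ho 0).1, Or.inr (leg_sub (i := 0) (Or.inl rfl))⟩)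
    (Or.inl ⟨(h.ho 1).1, Or.inr (leg_sub (i := 1) (Or.inl rfl))⟩)
  have h1 := rk_loc hG h.hc h.hW (Z := TK (sX S row u v) o) (ω := ωS u) (A := range v) (by
    intro f hf
    refine ⟨h.KS hf, ?_⟩
    rcases h.mem_K.1 hf with h1 | ⟨l, rfl⟩
    · exact Or.inl h1.2
    · exact Or.inr (h.ho l).1) (by
    intro f hf _ hfω f' hf' hff
    exact h.mem_K.2 (Or.inl ⟨hf', by rw [hff]; exact hfω⟩)) hG1
  have h2 := hG.rk_hole h.hc h.hW (ω := ∅) (T := ∅) (F := G) (by
    rw [sdiff_empty]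
    refine fullB_sub hG1 ?_
    rintro f ⟨hf, hf2⟩ _
    exact ⟨hf, notMem_empty _⟩)
  have h3 : (S \ {e | row e ∈ (∅ : Set (Sym2 (ℕ × ℕ)))}) \ {e | e ∈ c ∧ ∃ v ∈
      (∅ : Set (ℕ × ℕ)), v ∈ row e} = S := by
    ext f
    constructor
    · exact fun h => h.1.1
    · exact fun h => ⟨⟨h, fun h => h⟩, fun ⟨_, a, ha, _⟩ => ha⟩
  have h7 : (S \ {e | row e ∈ (∅ : Set (Sym2 (ℕ × ℕ)))}) \ c =
      (FL S row c (ωS u) (range v) ∪ TK (sX S row u v) o) \ c := by
    ext f
    constructor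
    · rintro ⟨⟨h1, _⟩, h2⟩
      exact ⟨h.S_eq h1 h2, h2⟩
    · rintro ⟨h1 | h1, h2⟩
      · exact ⟨⟨FL_sub h1, fun h3 => h3⟩, h2⟩
      · exact ⟨⟨h.KS h1, fun h3 => h3⟩, h2⟩
  rw [h3, h7, sdiff_empty] at h2
  rw [h1, h2]

/-- **The theta spans.** -/
theorem span [P.Finite] (h : SF S row w c u v o) (hG : RWx P S row w) {x : α}
    (hx : x ∈ P.closure S) (hxF : x ∉ FL S row c (ωS u) (range v)) :
    x ∈ (P ／ FL S row c (ωS u) (range v)).closure (TK (sX S row u v) o) := by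
  rw [Matroid.contract_closure_eq]
  refine ⟨?_, hxF⟩
  have hxE : x ∈ P.E := P.closure_subset_ground S hx
  have h1 : x ∈ P.closure (FL S row c (ωS u) (range v) ∪ TK (sX S row u v) o) := by
    refine mem_of_rk hxE ?_
    rw [h.rk_FK hG, ← rk_closure S]
    refine rk_mono P (insert_subset hx ?_)
    exact (union_subset FL_sub h.KS).trans (P.subset_closure S hG.sub)
  rwa [union_comm] at h1

end SF

end

end DA
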