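import Pool.Agent.DA.RowSpan
import Pool.Agent.DA.StarTheta

/-!
# Contractions off the windows (T-star, helper94)

`RkEmb M M' j`: `M` and `M'` have the same ranks along `j`.  `Healed.emb`: the star matroids and the
row matroids off the windows.  `Healed.theta`: the theta of a star.
-/

open Set BIC BICS
open scoped Matroid

namespace DA

open Gad TST

universe u v

/-- the same ranks along `j` -/
structure RkEmb {α β : Type*} (M : Matroid α) (M' : Matroid β) (j : α → β) : Prop where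
  inj : Function.Injective j
  fin : M.Finite
  fin' : M'.Finite
  sub : ∀ x ∈ M.E, j x ∈ M'.E
  rk : ∀ X ⊆ M.E, BIC.rk M' (j '' X) = BIC.rk M X

namespace RkEmb

variable {α β : Type*} {M : Matroid α} {M' : Matroid β} {j : α → β} {X C K F G H : Set α} {x : α}

lemma indep (h : RkEmb M M' j) (hX : X ⊆ M.E) : M'.Indep (j '' X) ↔ M.Indep X := by
  have := h.fin
  have := h.fin'
  have h1 := h.rk X hX
  have h2 : (j '' X).ncard = X.ncard := ncard_image_of_injective _ h.inj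
  constructor
  · intro h3
    have h4 := rk_indep h3
    exact indep_of_rk hX (by omega)
  · intro h3
    have h4 := rk_indep h3
    refine indep_of_rk ?_ (by omega)
    rintro _ ⟨x, hx, rfl⟩
    exact h.sub x (hX hx)

lemma circ (h : RkEmb M M' j) (hC : C ⊆ M.E) : M'.IsCircuit (j '' C) ↔ M.IsCircuit C := by
  have hjC : j '' C ⊆ M'.E := by
    rintro _ ⟨x, hx, rfl⟩
    exact h.sub x (hC hx)
  have hd : ∀ e, j '' C \ {j e} = j '' (C \ {e}) := by
    intro e
    rw [image_sdiff h.inj, image_singleton]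
  rw [Matroid.isCircuit_iff_dep_forall_sdiff_singleton_indep,
    Matroid.isCircuit_iff_dep_forall_sdiff_singleton_indep, ← Matroid.not_indep_iff hjC,
    ← Matroid.not_indep_iff hC, h.indep hC]
  constructor
  · rintro ⟨h1, h2⟩
    refine ⟨h1, fun e he => ?_⟩
    rw [← h.indep (sdiff_subset.trans hC), ← hd]
    exact h2 _ ⟨e, he, rfl⟩
  · rintro ⟨h1, h2⟩
    refine ⟨h1, ?_⟩
    rintro _ ⟨e, he, rfl⟩
    rw [hd, h.indep (sdiff_subset.trans hC)]
    exact h2 e he

lemma cl (h : RkEmb M M' j) (hX : X ⊆ M.E) (hx : x ∈ M.E) :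
    j x ∈ M'.closure (j '' X) ↔ x ∈ M.closure X := by
  have := h.fin
  have := h.fin'
  have h1 := h.rk X hX
  have h2 := h.rk (insert x X) (insert_subset hx hX)
  rw [image_insert_eq] at h2
  constructor
  · intro h3
    have h4 := rk_ins_of_mem h3
    exact mem_of_rk hx (by omega)
  · intro h3
    have h4 := rk_ins_of_mem h3
    exact mem_of_rk (h.sub x hx) (by omega)

lemma theta (h : RkEmb M M' j) (hK : K ⊆ M.E)
    (ht : Theta M' (j '' K) (j '' F) (j '' G) (j '' H)) (hKU : K = F ∪ G ∪ H) :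
    Theta M K F G H := by
  have hF : F ⊆ M.E := (subset_union_left.trans subset_union_left).trans (hKU ▸ hK)
  have hG : G ⊆ M.E := (subset_union_right.trans subset_union_left).trans (hKU ▸ hK)
  have hH : H ⊆ M.E := subset_union_right.trans (hKU ▸ hK)
  have hd : ∀ x y, j '' K \ {j x, j y} = j '' (K \ {x, y}) := by
    intro x y
    rw [image_sdiff h.inj, image_pair]
  have hdis : ∀ A B : Set α, Disjoint (j '' A) (j '' B) → Disjoint A B := by
    intro A B h1
    rw [Set.disjoint_left] at h1 ⊢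
    intro x hx hx'
    exact h1 ⟨x, hx, rfl⟩ ⟨x, hx', rfl⟩
  have hi : ∀ x y, M'.Indep (j '' K \ {j x, j y}) → M.Indep (K \ {x, y}) := by
    intro x y h1
    rw [hd] at h1
    exact (h.indep (sdiff_subset.trans hK)).1 h1
  refine ⟨hKU, hdis _ _ ht.dFG, hdis _ _ ht.dFH, hdis _ _ ht.dGH, ?_, ?_, ?_, ?_, ?_, ?_⟩
  · rw [← h.circ (union_subset hF hG), image_union]
    exact ht.cFG
  · rw [← h.circ (union_subset hF hH), image_union]
    exact ht.cFH
  · rw [← h.circ (union_subset hG hH), image_union]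
    exact ht.cGH
  · exact fun x hx y hy => hi x y (ht.iFG _ ⟨x, hx, rfl⟩ _ ⟨y, hy, rfl⟩)
  · exact fun x hx y hy => hi x y (ht.iFH _ ⟨x, hx, rfl⟩ _ ⟨y, hy, rfl⟩)
  · exact fun x hx y hy => hi x y (ht.iGH _ ⟨x, hx, rfl⟩ _ ⟨y, hy, rfl⟩)

end RkEmb

section healed

variable {α β : Type*} {P : Matroid α} {S : Set α} {row : α → Sym2 (ℕ × ℕ)} {w : ℕ}
  {Hs : Finset (ℕ × ℕ)} {P' : Matroid β} {j : α → β} {S' New : Set β}
  {row' : β → Sym2 (ℕ × ℕ)} {Λ : Set α} {c : Set α} {u : ℕ × ℕ}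

/-- **Contractions off the windows.** -/
theorem Healed.emb [P.Finite] (hL : LWal P S row w Hs)
    (h : Healed P S row w Hs P' j S' New row' Λ)
    (hoff : ∀ v, sd v u ≤ 1 → Off Hs v) (hu : DeepR (0, 0) (w + 1) (w + 1) 8 u)
    {A B : Sym2 (ℕ × ℕ) → Prop} (hAu : ∀ s, A s → ∃ v ∈ s, sd v u ≤ 1)
    (hBu : ∀ s, B s → ∃ v ∈ s, sd v u ≤ 1) :
    RkEmb (P ／ FG S row c A B) (P' ／ FG S' row' (tr S row Hs j New c) A B) j := by
  have hf := h.fin
  have hS := hL.sub
  have hAB : ∀ p q, wadj p q → (∃ x ∈ s(p, q), x ∈ Hs) → ¬ A s(p, q) ∧ ¬ B s(p, q) := by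
    rintro p q hpq ⟨x, hx, hxH⟩
    have key : ∀ v ∈ s(p, q), ¬ sd v u ≤ 1 := fun v hv hvu =>
      off_row rfl hpq hv (hoff v hvu) x hx hxH
    constructor
    · intro h1
      obtain ⟨v, hv, hvu⟩ := hAu _ h1
      exact key v hv hvu
    · intro h1
      obtain ⟨v, hv, hvu⟩ := hBu _ h1
      exact key v hv hvu
  obtain ⟨hF, hTF⟩ := h.fg (c := c) hAB hL
  obtain ⟨F, hFd⟩ : ∃ F, F = FG S row c A B := ⟨_, rfl⟩
  obtain ⟨F', hFd'⟩ : ∃ F', F' = FG S' row' (tr S row Hs j New c) A B := ⟨_, rfl⟩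
  rw [← hFd] at hF hTF ⊢
  rw [← hFd'] at hF ⊢
  have hFS : F ⊆ S := by
    rw [hFd]
    exact sdiff_subset.trans sdiff_subset
  have hFE : F ⊆ P.E := hFS.trans hS
  have hFS' : F' ⊆ S' := by
    rw [hFd']
    exact sdiff_subset.trans sdiff_subset
  have hFE' : F' ⊆ P'.E := hFS'.trans h.wal.sub
  unfold DeepR at hu
  simp only at hu
  -- the half edges
  have hΛ : j '' Λ ⊆ P'.closure F' := by
    have hQ : HQ w ({(u, 1)} : Set ((ℕ × ℕ) × ℕ)) := by
      refine ⟨?_, ?_⟩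
      · intro q hq
        rw [mem_singleton_iff] at hq
        subst hq
        dsimp only
        omega
      · intro q hq q' hq' hne
        rw [mem_singleton_iff] at hq hq'
        exact absurd (hq.trans hq'.symm) hne
    have hbx : ∀ v, v ∈ BX ({(u, 1)} : Set ((ℕ × ℕ) × ℕ)) ↔ sd v u ≤ 1 := by
      intro v
      constructor
      · rintro ⟨q, hq, h1⟩
        rw [mem_singleton_iff] at hq
        subst hq
        exact h1
      · exact fun h1 => ⟨_, mem_singleton _, h1⟩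
    have hdp : ∀ v, sd v u ≤ 1 → DeepR (0, 0) (w + 1) (w + 1) 4 v := by
      intro v hv
      rw [sd_le] at hv
      unfold DeepR
      simp only
      omega
    have hsub : S' \ RS S' row' (BX ({(u, 1)} : Set ((ℕ × ℕ) × ℕ))) ⊆ F' := by
      rw [hFd']
      rintro e ⟨he, h1⟩
      have h2 : ∀ v ∈ row' e, ¬ sd v u ≤ 1 := fun v hv hvu => h1 ⟨he, v, (hbx v).2 hvu, hv⟩
      refine ⟨⟨he, fun h3 => ?_⟩, fun h3 => ?_⟩
      · obtain ⟨v, hv, hvu⟩ := hAu _ h3
        exact h2 v hv hvu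
      · obtain ⟨v, hv, hvu⟩ := hBu _ h3.2
        exact h2 v hv hvu
    intro e he
    refine P'.closure_subset_closure hsub ?_
    obtain ⟨c₁, hc₁, hW₁⟩ := exists_repW h.wal
    have hu0 : sd u u ≤ 1 := by
      rw [sd_le]
      omega
    refine h.wal.noloc_bx (by omega) hQ ?_ ?_
    · exact P'.closure_subset_closure sdiff_subset
        (h.lam_star hc₁ hW₁ (hoff u hu0) (hdp u hu0) he)
    · intro c₂ hc₂ hW₂ v hv hloc
      rw [hbx] at hv
      exact hloc (h.lam_star hc₂ hW₂ (hoff v hv) (hdp v hv) he)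
  have hjF : ∀ x ∈ P.E \ F, j x ∈ P'.E \ F' := by
    intro x hx
    refine ⟨?_, ?_⟩
    · rw [h.ground]
      exact Or.inl ⟨x, ⟨hx.1, fun h1 => hx.2 (hTF h1.1)⟩, rfl⟩
    · rw [hF]
      rintro (⟨a, ha, h1⟩ | h1)
      · rw [h.inj h1] at ha
        exact hx.2 ha.1
      · exact h.new x h1
  -- ranks
  have hrk : ∀ X, X ⊆ P.E \ F → BIC.rk P' (j '' X ∪ F') + BIC.rk P (Tch S row Hs \ Λ) =
      BIC.rk P (X ∪ F) + Hs.card := by
    intro X hX
    have e1 : j '' ((X ∪ F) \ Tch S row Hs) ∪ New = j '' X ∪ F' := by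
      rw [hF]
      ext e
      constructor
      · rintro (⟨a, ⟨ha | ha, haT⟩, rfl⟩ | he)
        · exact Or.inl ⟨a, ha, rfl⟩
        · exact Or.inr (Or.inl ⟨a, ⟨ha, haT⟩, rfl⟩)
        · exact Or.inr (Or.inr he)
      · rintro (⟨a, ha, rfl⟩ | ⟨a, ha, rfl⟩ | he)
        · exact Or.inl ⟨a, ⟨Or.inl ha, fun h1 => (hX ha).2 (hTF h1)⟩, rfl⟩
        · exact Or.inl ⟨a, ⟨Or.inr ha.1, ha.2⟩, rfl⟩
        · exact Or.inr he
    have h1 := h.rk' hS (X := X ∪ F) (union_subset (hX.trans sdiff_subset) hFE) (by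
      rw [e1]
      exact hΛ.trans (P'.closure_subset_closure subset_union_right))
    rw [e1] at h1
    have e2 : X ∪ F ∪ Tch S row Hs = X ∪ F := union_eq_left.2 (hTF.trans subset_union_right)
    rw [e2] at h1
    exact h1
  have hrk0 := hrk ∅ (empty_subset _)
  rw [image_empty, empty_union, empty_union] at hrk0
  refine ⟨h.inj, BQ.fin_contract _, BQ.fin_contract _, hjF, ?_⟩
  intro X hX
  have h1 := BQ.rk_con (M := P) hFE (X := X) hX
  have h2 := BQ.rk_con (M := P') hFE' (X := j '' X) (by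
    rintro _ ⟨x, hx, rfl⟩
    exact hjF x (hX hx))
  have h3 := hrk X hX
  omega

/-- the star matroids off the windows -/
theorem Healed.emb_star [P.Finite] (hL : LWal P S row w Hs)
    (h : Healed P S row w Hs P' j S' New row' Λ) {v₁ v₂ v₃ : ℕ × ℕ} (hnb : Nb3 u v₁ v₂ v₃)
    (hoff : ∀ v, sd v u ≤ 1 → Off Hs v) (hu : DeepR (0, 0) (w + 1) (w + 1) 8 u) :
    RkEmb (P ／ FStar S row c u v₁ v₂ v₃)
      (P' ／ FStar S' row' (tr S row Hs j New c) u v₁ v₂ v₃) j := by
  refine h.emb hL (c := c) hoff hu (A := fun s => u ∈ s)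
    (B := fun s => v₁ ∈ s ∨ v₂ ∈ s ∨ v₃ ∈ s) ?_ ?_
  · intro s hs
    exact ⟨u, hs, by rw [sd_le]; omega⟩
  · rintro s (hs | hs | hs)
    · exact ⟨_, hs, (wadj_sd hnb.1).2⟩
    · exact ⟨_, hs, (wadj_sd hnb.2.1).2⟩
    · exact ⟨_, hs, (wadj_sd hnb.2.2.1).2⟩

/-- the row matroids off the windows -/
theorem Healed.emb_row [P.Finite] (hL : LWal P S row w Hs)
    (h : Healed P S row w Hs P' j S' New row' Λ) {v : ℕ × ℕ} (huv : wadj u v)
    (hoff : ∀ v, sd v u ≤ 1 → Off Hs v) (hu : DeepR (0, 0) (w + 1) (w + 1) 8 u) :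
    RkEmb (P ／ FRow S row c u v) (P' ／ FRow S' row' (tr S row Hs j New c) u v) j := by
  have hu0 : sd u u ≤ 1 := by
    rw [sd_le]
    omega
  refine h.emb hL (c := c) hoff hu (A := fun s => s = s(u, v))
    (B := fun s => u ∈ s ∨ v ∈ s) ?_ ?_
  · rintro s rfl
    exact ⟨u, Sym2.mem_mk_left _ _, hu0⟩
  · rintro s (hs | hs)
    · exact ⟨u, hs, hu0⟩
    · exact ⟨v, hs, (wadj_sd huv).2⟩

/-- the elements of a row off the windows -/
lemma Healed.rx (h : Healed P S row w Hs P' j S' New row' Λ)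
    {v : ℕ × ℕ} (huv : wadj u v) (hoff : Off Hs u) :
    RX S' row' u v = j '' RX S row u v := by
  have hno : ∀ x ∈ s(u, v), x ∉ Hs := off_row rfl huv (Sym2.mem_mk_left _ _) hoff
  ext e
  constructor
  · rintro ⟨he, hr⟩
    rw [h.S_eq] at he
    rcases he with ⟨a, ha, rfl⟩ | he
    · exact ⟨a, ⟨ha.1, by rw [← h.row_old a ha]; exact hr⟩, rfl⟩
    · obtain ⟨x, hx, hxH⟩ := h.row_new e he
      rw [hr] at hx
      exact absurd hxH (hno x hx)
  · rintro ⟨a, ha, rfl⟩
    have haT : a ∉ Tch S row Hs := by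
      rintro ⟨_, x, hx, hxH⟩
      rw [ha.2] at hx
      exact hno x hx hxH
    refine ⟨?_, ?_⟩
    · rw [h.S_eq]
      exact Or.inl ⟨a, ⟨ha.1, haT⟩, rfl⟩
    · rw [h.row_old a ⟨ha.1, haT⟩]
      exact ha.2

/-- **The theta of a star off the windows.** -/
theorem Healed.theta [P.Finite] (hL : LWal P S row w Hs)
    (h : Healed P S row w Hs P' j S' New row' Λ) (hR : RWx P' S' row' w)
    {V : Fin 3 → ℕ × ℕ} {o : Fin 3 → α} (hF : SF S row w c u V o)
    (hoff : ∀ v, sd v u ≤ 1 → Off Hs v) :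
    Theta (P ／ FStar S row c u (V 0) (V 1) (V 2)) (TK (SX S row u V) o) (leg (SX S row u V) o 0)
      (leg (SX S row u V) o 1) (leg (SX S row u V) o 2) := by
  have hf := h.fin
  have hu := hF.hu
  have hu8 : DeepR (0, 0) (w + 1) (w + 1) 8 u := by
    unfold DeepR
    simp only
    omega
  have hu0 : Off Hs u := hoff u (by rw [sd_le]; omega)
  have hVo : ∀ i, Off Hs (V i) := fun i => hoff _ (wadj_sd (hF.adj i)).2
  have hoT : ∀ i, o i ∉ Tch S row Hs := by
    rintro i ⟨_, x, hx, hxH⟩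
    obtain ⟨p, q, h3, h4, _⟩ := hL.mem _ (hF.hc (hF.ho i).1)
    exact off_row h3 h4 (hF.ho i).2.1 (hVo i) x hx hxH
  have hro : ∀ i, row' (j (o i)) = row (o i) := fun i =>
    h.row_old _ ⟨hF.hc (hF.ho i).1, hoT i⟩
  have hF' : SF S' row' w (tr S row Hs j New c) u V (fun i => j (o i)) := by
    refine ⟨h.tr_sub hF.hc, h.tr_wall hF.hc hF.hW, hF.hu, hF.hnb, fun i => ⟨?_, ?_, ?_⟩⟩
    · exact Or.inl ⟨_, ⟨(hF.ho i).1, hoT i⟩, rfl⟩
    · rw [hro]
      exact (hF.ho i).2.1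
    · rw [hro]
      exact (hF.ho i).2.2
  have hE := h.emb_star hL (c := c) hF.hnb hoff hu8
  have hX : ∀ i, sX S' row' u V i = j '' SX S row u V i := fun i => h.rx (hF.adj i) hu0
  have hleg : ∀ i, leg (sX S' row' u V) (fun i => j (o i)) i = j '' leg (SX S row u V) o i := by
    intro i
    unfold leg
    rw [hX, image_insert_eq]
  have hTK : TK (sX S' row' u V) (fun i => j (o i)) = j '' TK (SX S row u V) o := by
    unfold TK
    rw [hleg, hleg, hleg, image_union, image_union]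
  have hmem' : ∀ e ∈ S', ∃ p q, row' e = s(p, q) ∧ wadj p q := by
    intro e he
    obtain ⟨p, q, h3, h4, _⟩ := h.wal.mem e he
    exact ⟨p, q, h3, h4⟩
  have hFF : FL S' row' (tr S row Hs j New c) (ωS u) (range V) =
      FStar S' row' (tr S row Hs j New c) u (V 0) (V 1) (V 2) := by
    rw [fstar_eq hmem']
    unfold FL
    congr 1
    ext f
    simp only [mem_ofPred_eq, mem_range, exists_exists_eq_and, Finset.mem_insert,
      Finset.mem_singleton, exists_eq_or_imp, exists_eq_left]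
    constructor
    · rintro ⟨h1, i, hi⟩
      refine ⟨h1, ?_⟩
      fin_cases i
      exacts [Or.inl hi, Or.inr (Or.inl hi), Or.inr (Or.inr hi)]
    · rintro ⟨h1, h2 | h2 | h2⟩
      exacts [⟨h1, 0, h2⟩, ⟨h1, 1, h2⟩, ⟨h1, 2, h2⟩]
  have ht := hF'.theta hR
  rw [hFF, hTK, hleg, hleg, hleg] at ht
  refine hE.theta ?_ ht rfl
  intro e he
  refine ⟨?_, ?_⟩
  · obtain ⟨i, rfl | hi⟩ := mem_TK.1 he
    · exact hL.sub (hF.hc (hF.ho i).1)
    · exact hL.sub hi.1
  · intro h1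
    obtain ⟨i, rfl | hi⟩ := mem_TK.1 he
    · refine h1.2 ⟨(hF.ho i).1, ?_⟩
      rw [mem_V3]
      exact ⟨i, (hF.ho i).2.1⟩
    · refine h1.1.2 ?_
      show u ∈ row e
      rw [hi.2]
      exact Sym2.mem_mk_left _ _

end healed

end DA
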