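import Pool.Agent.DA.WGeo

/-!
# Linked gadgets over a wall with holes: statement
-/

open Set BIC BICS
open scoped Matroid

namespace DA

universe u

/-- the edges of the brick wall on `[0, w] × [0, w]` outside of `miss` -/
def wr (w : ℕ) (miss : Set (Sym2 (ℕ × ℕ))) (p q : ℕ × ℕ) : Prop :=
  wadj p q ∧ p ∈ rect 0 0 (w + 1) (w + 1) ∧ q ∈ rect 0 0 (w + 1) (w + 1) ∧ s(p, q) ∉ miss

/-- **Linked gadgets.** `S` carries the wall without the edges of `miss t` (near `o t`); the deep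
locations of `z t` are exactly the three or four vertices of `Λ t`, and no fewer than `|Λ t|`
vertices separate `Λ t` from vertices far away in the wall without `miss t`. -/
def LinkFam (k R D : ℕ) : Prop :=
  ∃ m δ : ℕ, ∀ {α : Type u} (P : Matroid α) [P.Finite] (S : Set α)
    (ends : α → Sym2 (ℕ × ℕ)) (w : ℕ) (miss : Fin m → Set (Sym2 (ℕ × ℕ)))
    (o : Fin m → ℕ × ℕ) (z : Fin m → α) (Λ : Fin m → Finset (ℕ × ℕ)),
    Bic P S ends → WallE S ends w (⋃ t, miss t) → (∀ e ∈ S, ∀ t, ends e ∉ miss t) →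
    (∀ t, ∀ p q, s(p, q) ∈ miss t → sd p (o t) ≤ R ∧ sd q (o t) ≤ R) →
    (∀ t, z t ∈ P.closure S ∧ z t ∉ S) →
    (∀ t, 3 ≤ (Λ t).card ∧ (Λ t).card ≤ 4) →
    (∀ t v, DeepR (0, 0) (w + 1) (w + 1) D v → (v ∈ CWL.Loc P S ends (z t) ↔ v ∈ Λ t)) →
    (∀ t, ∀ p ∈ insert (o t) (Λ t), DeepR (0, 0) (w + 1) (w + 1) δ p) →
    (∀ t t', t ≠ t' → ∀ p ∈ insert (o t) (Λ t), ∀ q ∈ insert (o t') (Λ t'), Apart δ p q) →
    -- (HC)
    (∀ t, ∀ p, sd p (o t) ≤ R → (∃ q, wr w (miss t) p q) →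
      ∃ x, RE R ≤ sd x p ∧ Cn (wr w (miss t)) univ p x) →
    -- (LC)
    (∀ t, ∀ C : Finset (ℕ × ℕ), C.card < (Λ t).card → ∃ l ∈ Λ t, l ∉ C ∧
      ∃ x, RE R ≤ sd x l ∧ Cn (wr w (miss t)) (C : Set (ℕ × ℕ))ᶜ l x) →
    HasUniformMinor P k

end DA
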