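import Pool.Agent.DA.SetOmW
import Pool.Agent.DA.SetOmRows

/-!
# The bounded set `Om` of the brick wall, rows
-/

open Set BIC BICS
open scoped Matroid

namespace DA

open Gad

universe u

/-! ### Combinatorics -/

lemma wadj_symm {p q : ℕ × ℕ} (h : wadj p q) : wadj q p := by
  unfold wadj at h ⊢
  omega

lemma wadj_par {p q : ℕ × ℕ} (h : wadj p q) : (p.1 + p.2) % 2 ≠ (q.1 + q.2) % 2 := by
  unfold wadj at h
  omega

lemma wadj_c4 {a b x y : ℕ × ℕ} (h1 : wadj a x) (h2 : wadj a y) (h3 : wadj b x) (h4 : wadj b y)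
    (hab : a ≠ b) : x = y := by
  obtain ⟨a1, a2⟩ := a
  obtain ⟨b1, b2⟩ := b
  obtain ⟨x1, x2⟩ := x
  obtain ⟨y1, y2⟩ := y
  unfold wadj at h1 h2 h3 h4
  simp only [ne_eq, Prod.mk.injEq] at *
  by_contra hxy
  rcases h1 with h1 | h1 <;> rcases h2 with h2 | h2 <;> rcases h3 with h3 | h3 <;>
    rcases h4 with h4 | h4 <;> omega

lemma star_cases {v₀ v : ℕ × ℕ} (h : v ∈ star v₀) : v = v₀ ∨ wadj v₀ v := by
  unfold star at h
  simp only [mem_insert_iff, mem_singleton_iff] at h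
  obtain ⟨x, y⟩ := v₀
  rcases h with rfl | rfl | rfl | rfl
  · exact Or.inl rfl
  · by_cases hx : x = 0
    · subst hx
      exact Or.inl rfl
    · exact Or.inr (Or.inl ⟨rfl, Or.inr (Nat.sub_add_cancel (Nat.one_le_iff_ne_zero.2 hx))⟩)
  · exact Or.inr (Or.inl ⟨rfl, Or.inl rfl⟩)
  · rcases vn_cases (x, y) with ⟨h1, h2⟩ | ⟨h1, h2⟩
    · rw [h2]
      exact Or.inr (Or.inr ⟨rfl, Or.inl ⟨rfl, h1⟩⟩)
    · rw [h2]
      by_cases hy : y = 0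
      · subst hy
        exact Or.inl rfl
      · refine Or.inr (Or.inr ⟨rfl, Or.inr ⟨Nat.sub_add_cancel (Nat.one_le_iff_ne_zero.2 hy), ?_⟩⟩)
        have h3 : 1 ≤ y := Nat.one_le_iff_ne_zero.2 hy
        have h4 : (x + y) % 2 = 1 := h1
        show (x + (y - 1)) % 2 = 0
        omega

/-- two vertices of one colour and one of the other colour in a star -/
lemma star_ctr {v₀ x y u : ℕ × ℕ} (hx : x ∈ star v₀) (hy : y ∈ star v₀) (hu : u ∈ star v₀)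
    (hxy : x ≠ y) (h1 : (x.1 + x.2) % 2 = (y.1 + y.2) % 2)
    (h2 : (u.1 + u.2) % 2 ≠ (x.1 + x.2) % 2) : wadj u x ∧ wadj u y := by
  have hx' : wadj v₀ x := by
    rcases star_cases hx with rfl | h3
    · rcases star_cases hy with rfl | h4
      · exact absurd rfl hxy
      · exact absurd h1 (wadj_par h4)
    · exact h3
  have hy' : wadj v₀ y := by
    rcases star_cases hy with rfl | h3
    · exact absurd h1.symm (wadj_par hx')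
    · exact h3
  have hu' : u = v₀ := by
    rcases star_cases hu with h3 | h3
    · exact h3
    · have h4 := wadj_par h3
      have h5 := wadj_par hx'
      omega
  rw [hu']
  exact ⟨hx', hy'⟩

section

variable {A : Finset (Sym2 (ℕ × ℕ))}

/-- three locations at three rows, in a leaf order, are in a star -/
def LfS (A : Finset (Sym2 (ℕ × ℕ))) : Prop :=
  ∀ b₁ ∈ A, ∀ b₂ ∈ A, ∀ b₃ ∈ A, ∀ v₁ ∈ b₁, ∀ v₂ ∈ b₂, ∀ v₃ ∈ b₃, v₁ ∉ b₂ → v₁ ∉ b₃ → v₂ ∉ b₃ →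
    ∃ v₀, v₁ ∈ star v₀ ∧ v₂ ∈ star v₀ ∧ v₃ ∈ star v₀

lemma not_mem_pr {E O v : ℕ × ℕ} (k1 : v ≠ E) (k2 : v ≠ O) : v ∉ s(E, O) := by
  rw [Sym2.mem_iff]
  tauto

lemma lf_one (h : LfS A) {E₁ O₁ E₂ O₂ E₃ O₃ : ℕ × ℕ} (h1 : s(E₁, O₁) ∈ A) (h2 : s(E₂, O₂) ∈ A)
    (h3 : s(E₃, O₃) ∈ A) (_a1 : wadj E₁ O₁) (a2 : wadj E₂ O₂) (a3 : wadj E₃ O₃)
    (p2 : (E₁.1 + E₁.2) % 2 = (E₂.1 + E₂.2) % 2) (p3 : (E₁.1 + E₁.2) % 2 = (E₃.1 + E₃.2) % 2)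
    (e12 : E₁ ≠ E₂) (e13 : E₁ ≠ E₃) (e23 : E₂ ≠ E₃) (_o12 : O₁ ≠ O₂) (_o13 : O₁ ≠ O₃)
    (o23 : O₂ ≠ O₃) : False := by
  have q1 := wadj_par _a1
  have q2 := wadj_par a2
  have q3 := wadj_par a3
  have hne : ∀ {x y : ℕ × ℕ}, (x.1 + x.2) % 2 ≠ (y.1 + y.2) % 2 → x ≠ y := by
    rintro x y hxy rfl
    exact hxy rfl
  obtain ⟨c, k1, k2, k3⟩ := h _ h1 _ h2 _ h3 E₁ (by simp) E₂ (by simp) O₃ (by simp)
    (not_mem_pr e12 (hne (by omega))) (not_mem_pr e13 (hne (by omega)))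
    (not_mem_pr e23 (hne (by omega)))
  obtain ⟨c', k1', k2', k3'⟩ := h _ h1 _ h2 _ h3 E₁ (by simp) O₂ (by simp) E₃ (by simp)
    (not_mem_pr e12 (hne (by omega))) (not_mem_pr e13 (hne (by omega)))
    (not_mem_pr (hne (by omega)) o23)
  have l1 := star_ctr k1 k2 k3 e12 p2 (by omega)
  have l2 := star_ctr k1' k3' k2' e13 p3 (by omega)
  exact e12 (wadj_c4 l1.1 l1.2 l2.1 (wadj_symm a2) (fun h => o23 h.symm))

lemma lf_two (h : LfS A) {E O₁ O₂ E₃ O₃ : ℕ × ℕ} (h1 : s(E, O₁) ∈ A) (h2 : s(E, O₂) ∈ A)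
    (h3 : s(E₃, O₃) ∈ A) (a1 : wadj E O₁) (a2 : wadj E O₂) (_a3 : wadj E₃ O₃)
    (p3 : (E.1 + E.2) % 2 = (E₃.1 + E₃.2) % 2)
    (e3 : E ≠ E₃) (o12 : O₁ ≠ O₂) (o13 : O₁ ≠ O₃) (o23 : O₂ ≠ O₃) : False := by
  have q1 := wadj_par a1
  have q2 := wadj_par a2
  have hne : ∀ {x y : ℕ × ℕ}, (x.1 + x.2) % 2 ≠ (y.1 + y.2) % 2 → x ≠ y := by
    rintro x y hxy rfl
    exact hxy rfl
  obtain ⟨c, k1, k2, k3⟩ := h _ h1 _ h2 _ h3 O₁ (by simp) O₂ (by simp) E₃ (by simp)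
    (not_mem_pr (hne (by omega)) o12) (not_mem_pr (hne (by omega)) o13)
    (not_mem_pr (hne (by omega)) o23)
  have l1 := star_ctr k1 k2 k3 o12 (by omega) (by omega)
  exact o12 (wadj_c4 l1.1 l1.2 a1 a2 (fun h => e3 h.symm))

lemma lf_three (h : LfS A) {E₁ O₁ O₂ E₃ : ℕ × ℕ} (h1 : s(E₁, O₁) ∈ A) (h2 : s(E₁, O₂) ∈ A)
    (h3 : s(E₃, O₂) ∈ A) (a1 : wadj E₁ O₁) (a2 : wadj E₁ O₂) (a3 : wadj E₃ O₂)
    (e3 : E₁ ≠ E₃) (o12 : O₁ ≠ O₂) : False := by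
  have q1 := wadj_par a1
  have q2 := wadj_par a2
  have q3 := wadj_par a3
  have hne : ∀ {x y : ℕ × ℕ}, (x.1 + x.2) % 2 ≠ (y.1 + y.2) % 2 → x ≠ y := by
    rintro x y hxy rfl
    exact hxy rfl
  obtain ⟨c, k1, k2, k3⟩ := h _ h1 _ h2 _ h3 O₁ (by simp) E₁ (by simp) E₃ (by simp)
    (not_mem_pr (hne (by omega)) o12) (not_mem_pr (hne (by omega)) o12)
    (not_mem_pr e3 (hne (by omega)))
  have l1 := star_ctr k2 k3 k1 e3 (by omega) (by omega)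
  exact e3 (wadj_c4 l1.1 l1.2 (wadj_symm a2) (wadj_symm a3) o12)

lemma par_endsW {a : Sym2 (ℕ × ℕ)} {p q : ℕ × ℕ} (ha : a = s(p, q)) (hpq : wadj p q) :
    ∃ E O : ℕ × ℕ, a = s(E, O) ∧ wadj E O ∧ (E.1 + E.2) % 2 = 0 ∧ (O.1 + O.2) % 2 = 1 := by
  have h := wadj_par hpq
  by_cases h0 : (p.1 + p.2) % 2 = 0
  · exact ⟨p, q, ha, hpq, h0, by omega⟩
  · exact ⟨q, p, by rw [ha, Sym2.eq_swap], wadj_symm hpq, by omega, by omega⟩

/-- three different rows without common vertex -/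
lemma lf_core (h : LfS A) {E₁ O₁ E₂ O₂ E₃ O₃ : ℕ × ℕ} (h1 : s(E₁, O₁) ∈ A) (h2 : s(E₂, O₂) ∈ A)
    (h3 : s(E₃, O₃) ∈ A) (a1 : wadj E₁ O₁) (a2 : wadj E₂ O₂) (a3 : wadj E₃ O₃)
    (p1 : (E₁.1 + E₁.2) % 2 = 0) (p2 : (E₂.1 + E₂.2) % 2 = 0) (p3 : (E₃.1 + E₃.2) % 2 = 0)
    (n12 : ¬ (E₁ = E₂ ∧ O₁ = O₂)) (n13 : ¬ (E₁ = E₃ ∧ O₁ = O₃)) (n23 : ¬ (E₂ = E₃ ∧ O₂ = O₃))
    (nE : ¬ (E₁ = E₂ ∧ E₂ = E₃)) (nO : ¬ (O₁ = O₂ ∧ O₂ = O₃)) : False := by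
  have q1 := wadj_par a1
  have q2 := wadj_par a2
  have q3 := wadj_par a3
  have sw : ∀ {x y : ℕ × ℕ}, s(x, y) ∈ A → s(y, x) ∈ A := by
    intro x y hxy
    rwa [Sym2.eq_swap]
  by_cases e12 : E₁ = E₂
  · subst e12
    have o12 : O₁ ≠ O₂ := fun h => n12 ⟨rfl, h⟩
    have e13 : E₁ ≠ E₃ := fun h => nE ⟨rfl, h⟩
    by_cases o13 : O₁ = O₃
    · subst o13
      exact lf_three h h2 h1 h3 a2 a1 a3 e13 (Ne.symm o12)
    · by_cases o23 : O₂ = O₃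
      · subst o23
        exact lf_three h h1 h2 h3 a1 a2 a3 e13 o12
      · exact lf_two h h1 h2 h3 a1 a2 a3 (by omega) e13 o12 o13 o23
  by_cases e13 : E₁ = E₃
  · subst e13
    have o13 : O₁ ≠ O₃ := fun h => n13 ⟨rfl, h⟩
    by_cases o12 : O₁ = O₂
    · subst o12
      exact lf_three h h3 h1 h2 a3 a1 a2 e12 (Ne.symm o13)
    · by_cases o23 : O₂ = O₃
      · subst o23
        exact lf_three h h1 h3 h2 a1 a3 a2 e12 o13
      · exact lf_two h h1 h3 h2 a1 a3 a2 (by omega) e12 o13 o12 (Ne.symm o23)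
  by_cases e23 : E₂ = E₃
  · subst e23
    have o23 : O₂ ≠ O₃ := fun h => n23 ⟨rfl, h⟩
    by_cases o12 : O₁ = O₂
    · subst o12
      exact lf_three h h3 h2 h1 a3 a2 a1 (Ne.symm e12) (Ne.symm o23)
    · by_cases o13 : O₁ = O₃
      · subst o13
        exact lf_three h h2 h3 h1 a2 a3 a1 (Ne.symm e12) o23
      · exact lf_two h h2 h3 h1 a2 a3 a1 (by omega) (Ne.symm e12) o23 (Ne.symm o12)
          (Ne.symm o13)
  -- the even ends are different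
  by_cases o12 : O₁ = O₂
  · subst o12
    have o13 : O₁ ≠ O₃ := fun h => nO ⟨rfl, h⟩
    exact lf_two h (sw h1) (sw h2) (sw h3) (wadj_symm a1) (wadj_symm a2) (wadj_symm a3)
      (by omega) o13 e12 e13 e23
  by_cases o13 : O₁ = O₃
  · subst o13
    exact lf_two h (sw h1) (sw h3) (sw h2) (wadj_symm a1) (wadj_symm a3) (wadj_symm a2)
      (by omega) o12 e13 e12 (Ne.symm e23)
  by_cases o23 : O₂ = O₃
  · subst o23
    exact lf_two h (sw h2) (sw h3) (sw h1) (wadj_symm a2) (wadj_symm a3) (wadj_symm a1)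
      (by omega) (Ne.symm o12) e23 (Ne.symm e12) (Ne.symm e13)
  exact lf_one h h1 h2 h3 a1 a2 a3 (by omega) (by omega) e12 e13 e23 o12 o13 o23

/-- **Rows.** At least three rows such that all leaf ordered triples are in a star have a common
vertex. -/
lemma lf_common (h : LfS A) (hA : ∀ a ∈ A, ∃ p q, a = s(p, q) ∧ wadj p q) (h3 : 2 < A.card) :
    ∃ v₀, ∀ a ∈ A, v₀ ∈ a := by
  obtain ⟨a₁, a₂, a₃, h1, h2, h3, h12, h13, h23⟩ := Finset.two_lt_card_iff.1 h3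
  by_contra hcon
  push Not at hcon
  -- three rows without a common vertex
  have hsub : ∀ a ∈ A, ∀ b ∈ A, a ≠ b → ∀ u v, u ∈ a → u ∈ b → v ∈ a → v ∈ b → u = v := by
    intro a ha b hb hab u v k1 k2 k3 k4
    by_contra hne
    apply hab
    have e1 : a = s(u, v) := ((Sym2.mem_and_mem_iff hne).1 ⟨k1, k3⟩)
    have e2 : b = s(u, v) := ((Sym2.mem_and_mem_iff hne).1 ⟨k2, k4⟩)
    rw [e1, e2]
  have hT : ∃ b₁ ∈ A, ∃ b₂ ∈ A, ∃ b₃ ∈ A, b₁ ≠ b₂ ∧ b₁ ≠ b₃ ∧ b₂ ≠ b₃ ∧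
      ∀ v, ¬ (v ∈ b₁ ∧ v ∈ b₂ ∧ v ∈ b₃) := by
    by_cases hc : ∃ v, v ∈ a₁ ∧ v ∈ a₂ ∧ v ∈ a₃
    · obtain ⟨v, k1, k2, k3⟩ := hc
      obtain ⟨b, hb, hvb⟩ := hcon v
      refine ⟨a₁, h1, a₂, h2, b, hb, h12, ?_, ?_, ?_⟩
      · rintro rfl
        exact hvb k1
      · rintro rfl
        exact hvb k2
      · rintro u ⟨l1, l2, l3⟩
        have := hsub a₁ h1 a₂ h2 h12 u v l1 l2 k1 k2
        subst this
        exact hvb l3
    · push Not at hc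
      exact ⟨a₁, h1, a₂, h2, a₃, h3, h12, h13, h23, fun v hv => hc v hv.1 hv.2.1 hv.2.2⟩
  obtain ⟨b₁, g1, b₂, g2, b₃, g3, n12, n13, n23, hno⟩ := hT
  obtain ⟨_, _, r1, r2⟩ := hA b₁ g1
  obtain ⟨_, _, r3, r4⟩ := hA b₂ g2
  obtain ⟨_, _, r5, r6⟩ := hA b₃ g3
  obtain ⟨E₁, O₁, e1, a1, p1, _⟩ := par_endsW r1 r2
  obtain ⟨E₂, O₂, e2, a2, p2, _⟩ := par_endsW r3 r4
  obtain ⟨E₃, O₃, e3, a3, p3, _⟩ := par_endsW r5 r6
  clear r1 r2 r3 r4 r5 r6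
  subst e1
  subst e2
  subst e3
  refine lf_core h g1 g2 g3 a1 a2 a3 p1 p2 p3 ?_ ?_ ?_ ?_ ?_
  · rintro ⟨rfl, rfl⟩
    exact n12 rfl
  · rintro ⟨rfl, rfl⟩
    exact n13 rfl
  · rintro ⟨rfl, rfl⟩
    exact n23 rfl
  · rintro ⟨rfl, rfl⟩
    exact hno E₁ ⟨by simp, by simp, by simp⟩
  · rintro ⟨rfl, rfl⟩
    exact hno O₁ ⟨by simp, by simp, by simp⟩

end


/-! ### Toggle -/

section

variable {α : Type*} {P : Matroid α} {S : Set α} {row : α → Sym2 (ℕ × ℕ)} {w : ℕ}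

/-- **Toggle.** If `z` sees a row then some representative of this row makes the end `p` a
location. -/
theorem togW [P.Finite] (hG : RWal P S row w) {z : α}
    (hz : z ∈ P.closure S) {p q : ℕ × ℕ} (hpq : wadj p q) (hp1 : 1 ≤ p.1 ∧ p.1 + 3 ≤ w)
    (hp2 : 1 ≤ p.2 ∧ p.2 + 3 ≤ w) (hs : Seen P S row z s(p, q)) {c : Set α}
    (hc : c ⊆ S) (hcW : WallE c row w ∅) :
    ∃ c', c' ⊆ S ∧ WallE c' row w ∅ ∧ (∀ e ∈ S, row e ≠ s(p, q) → (e ∈ c' ↔ e ∈ c)) ∧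
      p ∈ LocR P S row c' z := by
  classical
  have hpr : p ∈ rect 0 0 (w + 1) (w + 1) := by
    rw [Gad.mem_rct]
    omega
  have hq : q ∈ rect 0 0 (w + 1) (w + 1) := by
    rw [Gad.mem_rct]
    unfold wadj at hpq
    omega
  obtain ⟨cf, hcf⟩ : ∃ cf : α → Set α, ∀ f, cf f = {e | e ∈ c ∧ row e ≠ s(p, q)} ∪ {f} :=
    ⟨_, fun _ => rfl⟩
  have hrep : ∀ f ∈ S, row f = s(p, q) → cf f ⊆ S ∧ WallE (cf f) row w ∅ := by
    intro f hf hfr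
    rw [hcf]
    refine ⟨?_, ?_, ?_, ?_⟩
    · rintro e (he | rfl)
      · exact hc he.1
      · exact hf
    · rintro e (he | rfl) e' (he' | rfl) hee
      · exact hcW.inj he.1 he'.1 hee
      · exact absurd (hee.trans hfr) he.2
      · exact absurd (hee.symm.trans hfr) he'.2
      · rfl
    · rintro e (he | rfl)
      · exact hcW.mem e he.1
      · exact hG.mem e hf
    · intro p' q' h1 h2 h3 _
      by_cases h4 : s(p', q') = s(p, q)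
      · exact ⟨f, Or.inr rfl, hfr.trans h4.symm⟩
      · obtain ⟨e, he, h5⟩ := hcW.surj p' q' h1 h2 h3 (notMem_empty _)
        exact ⟨e, Or.inl ⟨he, by rw [h5]; exact h4⟩, h5⟩
  by_contra hcon
  push Not at hcon
  obtain ⟨Q, hQ⟩ : ∃ Q : Set α, Q = {e | e ∈ c ∧ row e ≠ s(p, q) ∧ p ∈ row e} := ⟨_, rfl⟩
  have hQf : ∀ f ∈ S, row f = s(p, q) → {e | e ∈ cf f ∧ p ∈ row e} = insert f Q := by
    intro f hf hfr
    rw [hcf, hQ]
    ext e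
    constructor
    · rintro ⟨h1 | h1, h2⟩
      · exact Or.inr ⟨h1.1, h1.2, h2⟩
      · exact Or.inl h1
    · rintro (rfl | ⟨h1, h2, h3⟩)
      · exact ⟨Or.inr rfl, by rw [hfr]; simp⟩
      · exact ⟨Or.inl ⟨h1, h2⟩, h3⟩
  have hH : ∀ f ∈ S, row f = s(p, q) → z ∈ P.closure (S \ insert f Q) := by
    intro f hf hfr
    have h1 := hcon (cf f) (hrep f hf hfr).1 (hrep f hf hfr).2 (by
      intro e heS her
      rw [hcf]
      constructor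
      · rintro (h2 | h2)
        · exact h2.1
        · rw [mem_singleton_iff] at h2
          subst h2
          exact absurd hfr her
      · exact fun h2 => Or.inl ⟨h2, her⟩)
    unfold LocR at h1
    rw [mem_ofPred_eq, not_not, hQf f hf hfr] at h1
    exact h1
  -- the row
  have hRf : {f | f ∈ S ∧ row f = s(p, q)}.Finite :=
    P.ground_finite.subset fun f hf => hG.sub hf.1
  obtain ⟨Ra, hRa⟩ : ∃ Ra : Finset α, ∀ f, f ∈ Ra ↔ (f ∈ S ∧ row f = s(p, q)) :=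
    ⟨hRf.toFinset, fun f => by rw [Set.Finite.mem_toFinset]; rfl⟩
  have hnot : ∀ f ∈ S, row f = s(p, q) → f ∉ P.closure (S \ insert f Q) := by
    intro f hf hfr h1
    have h2 := hG.bic _ (hrep f hf hfr).1 (hrep f hf hfr).2
    have h3 : f ∈ cf f := by rw [hcf]; exact Or.inr rfl
    refine Gad.not_mem_Hx' h2 h3 (w := p) (by rw [hfr]; simp) ?_
    unfold Gad.Hx
    rw [Matroid.contract_closure_eq, ins_union_eq (hrep f hf hfr).1, hQf f hf hfr]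
    exact ⟨h1, fun h4 => h4.2 h3⟩
  have hfl : ∀ Y ⊆ Ra, rk P (P.closure S ∩ ⋂ f ∈ Y, P.closure (S \ insert f Q)) + Y.card ≤
      rk P S := by
    intro Y
    induction Y using Finset.induction_on with
    | empty =>
      intro _
      have h1 : rk P (P.closure S ∩ ⋂ f ∈ (∅ : Finset α), P.closure (S \ insert f Q)) ≤
          rk P (P.closure S) := rk_mono P inter_subset_left
      rw [rk_closure] at h1
      rw [Finset.card_empty]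
      omega
    | @insert f Y hf ih =>
      intro hY
      have h1 := ih (fun g hg => hY (Finset.mem_insert_of_mem hg))
      have hfR := (hRa f).1 (hY (Finset.mem_insert_self _ _))
      set F := P.closure S ∩ ⋂ g ∈ Y, P.closure (S \ insert g Q) with hF
      have h2 : P.closure S ∩ ⋂ g ∈ insert f Y, P.closure (S \ insert g Q) =
          F ∩ P.closure (S \ insert f Q) := by
        rw [Finset.set_biInter_insert, hF]
        ext e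
        simp only [mem_inter_iff]
        tauto
      have hfF : f ∈ F := by
        refine ⟨P.mem_closure_of_mem' hfR.1 (hG.sub hfR.1), ?_⟩
        simp only [mem_iInter]
        intro g hg
        refine P.mem_closure_of_mem' ⟨hfR.1, ?_⟩ (hG.sub hfR.1)
        rintro (rfl | h3)
        · exact hf hg
        · rw [hQ] at h3
          exact h3.2.1 hfR.2
      have h3 : f ∉ P.closure (F ∩ P.closure (S \ insert f Q)) := by
        intro h4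
        have h5 := P.closure_subset_closure (inter_subset_right (s := F)) h4
        rw [P.closure_closure] at h5
        exact hnot f hfR.1 hfR.2 h5
      have h4 := rk_insert_notMem (hG.sub hfR.1) h3
      have h5 : rk P (insert f (F ∩ P.closure (S \ insert f Q))) ≤ rk P F :=
        rk_mono P (insert_subset hfF inter_subset_left)
      rw [h2, Finset.card_insert_of_notMem hf]
      omega
  have h1 := hfl Ra Finset.Subset.rfl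
  obtain ⟨f₀, hf₀, hf₀r⟩ := hG.surj p q hpq hpr hq
  -- the rank of everything but the star of `p`
  have h2 : rk P S ≤ rk P (S \ insert f₀ Q) + 1 := by
    have hr := hrep f₀ hf₀ hf₀r
    have g1 := hG.rk_star hr.1 hr.2 {p} p.2 hp2 (by
      intro v hv
      rw [Finset.mem_singleton] at hv
      subst hv
      exact ⟨rfl, hp1⟩)
    have g2 : {e | e ∈ cf f₀ ∧ ∃ v ∈ ({p} : Finset (ℕ × ℕ)), v ∈ row e} = insert f₀ Q := by
      rw [← hQf f₀ hf₀ hf₀r]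
      ext e
      simp
    rw [g2, Finset.card_singleton] at g1
    omega
  have hf₀R : f₀ ∈ Ra := (hRa f₀).2 ⟨hf₀, hf₀r⟩
  obtain ⟨K, hK⟩ : ∃ K, K = S \ ({f | f ∈ S ∧ row f = s(p, q)} ∪ Q) := ⟨_, rfl⟩
  have h3 : rk P (S \ insert f₀ Q) ≤ rk P K + (Ra.erase f₀).card := by
    have h4 := rk_union_le P (X := K) (Y := ((Ra.erase f₀ : Finset α) : Set α))
      (Finset.finite_toSet _)
    rw [Set.ncard_coe_finset] at h4
    refine le_trans (rk_mono P ?_) h4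
    rintro e ⟨he, heQ⟩
    by_cases h5 : e ∈ Ra
    · refine Or.inr (Finset.mem_coe.2 (Finset.mem_erase.2 ⟨?_, h5⟩))
      rintro rfl
      exact heQ (Or.inl rfl)
    · left
      rw [hK]
      refine ⟨he, ?_⟩
      rintro (h6 | h6)
      · exact h5 ((hRa e).2 h6)
      · exact heQ (Or.inr h6)
  rw [Finset.card_erase_of_mem hf₀R] at h3
  have hpos : 0 < Ra.card := Finset.card_pos.2 ⟨f₀, hf₀R⟩
  have h4 : P.closure S ∩ ⋂ f ∈ Ra, P.closure (S \ insert f Q) ⊆ P.closure K := by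
    refine sub_cl_of_rk ?_ (inter_subset_left.trans (P.closure_subset_ground _)) (by omega)
    intro e he
    rw [hK] at he
    refine ⟨P.mem_closure_of_mem' he.1 (hG.sub he.1), ?_⟩
    simp only [mem_iInter]
    intro f hf
    refine P.mem_closure_of_mem' ⟨he.1, ?_⟩ (hG.sub he.1)
    rintro (rfl | h6)
    · exact he.2 (Or.inl ((hRa _).1 hf))
    · exact he.2 (Or.inr h6)
  have h5 : z ∈ P.closure K := by
    refine h4 ⟨hz, ?_⟩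
    simp only [mem_iInter]
    intro f hf
    exact hH f ((hRa f).1 hf).1 ((hRa f).1 hf).2
  refine hs (P.closure_subset_closure ?_ h5)
  rw [hK]
  exact fun e he => ⟨he.1, fun h => he.2 (Or.inl h)⟩

/-- a change of the representative of one row does not touch the locations elsewhere -/
lemma locR_keep {z : α} {c c' : Set α} {b : Sym2 (ℕ × ℕ)} {v : ℕ × ℕ} (hc : c ⊆ S) (hc' : c' ⊆ S)
    (hm : ∀ e ∈ S, row e ≠ b → (e ∈ c' ↔ e ∈ c)) (hv : v ∉ b) (hl : v ∈ LocR P S row c z) :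
    v ∈ LocR P S row c' z := by
  unfold LocR at hl ⊢
  rw [mem_ofPred_eq] at hl ⊢
  have e : {e | e ∈ c' ∧ v ∈ row e} = {e | e ∈ c ∧ v ∈ row e} := by
    ext e
    constructor
    · rintro ⟨g1, g2⟩
      exact ⟨(hm e (hc' g1) (fun h => hv (h ▸ g2))).1 g1, g2⟩
    · rintro ⟨g1, g2⟩
      exact ⟨(hm e (hc g1) (fun h => hv (h ▸ g2))).2 g1, g2⟩
  rw [e]
  exact hl

/-- three seen rows in a leaf order: locations at the leaves at the same time -/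
lemma tog_three [P.Finite] (hG : RWal P S row w) {z : α} (hz : z ∈ P.closure S)
    {b₁ b₂ b₃ : Sym2 (ℕ × ℕ)} {v₁ v₂ v₃ : ℕ × ℕ}
    (hb₁ : ∃ p q, b₁ = s(p, q) ∧ wadj p q ∧ Seen P S row z b₁)
    (hb₂ : ∃ p q, b₂ = s(p, q) ∧ wadj p q ∧ Seen P S row z b₂)
    (hb₃ : ∃ p q, b₃ = s(p, q) ∧ wadj p q ∧ Seen P S row z b₃)
    (hv₁ : v₁ ∈ b₁) (hv₂ : v₂ ∈ b₂) (hv₃ : v₃ ∈ b₃)
    (d₁ : 1 ≤ v₁.1 ∧ v₁.1 + 3 ≤ w ∧ 1 ≤ v₁.2 ∧ v₁.2 + 3 ≤ w)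
    (d₂ : 1 ≤ v₂.1 ∧ v₂.1 + 3 ≤ w ∧ 1 ≤ v₂.2 ∧ v₂.2 + 3 ≤ w)
    (d₃ : 1 ≤ v₃.1 ∧ v₃.1 + 3 ≤ w ∧ 1 ≤ v₃.2 ∧ v₃.2 + 3 ≤ w)
    (k1 : v₁ ∉ b₂) (k2 : v₁ ∉ b₃) (k3 : v₂ ∉ b₃) {c : Set α} (hc : c ⊆ S)
    (hcW : WallE c row w ∅) :
    ∃ c', c' ⊆ S ∧ WallE c' row w ∅ ∧
      (∀ e ∈ S, row e ≠ b₁ → row e ≠ b₂ → row e ≠ b₃ → (e ∈ c' ↔ e ∈ c)) ∧
      v₁ ∈ LocR P S row c' z ∧ v₂ ∈ LocR P S row c' z ∧ v₃ ∈ LocR P S row c' z := by
  have hstep : ∀ (b : Sym2 (ℕ × ℕ)) (v : ℕ × ℕ), (∃ p q, b = s(p, q) ∧ wadj p q ∧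
      Seen P S row z b) → v ∈ b → (1 ≤ v.1 ∧ v.1 + 3 ≤ w ∧ 1 ≤ v.2 ∧ v.2 + 3 ≤ w) →
      ∀ c, c ⊆ S → WallE c row w ∅ → ∃ c', c' ⊆ S ∧ WallE c' row w ∅ ∧
        (∀ e ∈ S, row e ≠ b → (e ∈ c' ↔ e ∈ c)) ∧ v ∈ LocR P S row c' z := by
    rintro b v ⟨p, q, rfl, hpq, hs⟩ hv hd c hc hcW
    rw [Sym2.mem_iff] at hv
    rcases hv with rfl | rfl
    · exact togW hG hz hpq ⟨hd.1, hd.2.1⟩ hd.2.2 hs hc hcW
    · rw [Sym2.eq_swap] at hs ⊢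
      exact togW hG hz (wadj_symm hpq) ⟨hd.1, hd.2.1⟩ hd.2.2 hs hc hcW
  obtain ⟨c₁, hc₁, hW₁, m1, l1⟩ := hstep b₁ v₁ hb₁ hv₁ d₁ c hc hcW
  obtain ⟨c₂, hc₂, hW₂, m2, l2⟩ := hstep b₂ v₂ hb₂ hv₂ d₂ c₁ hc₁ hW₁
  obtain ⟨c₃, hc₃, hW₃, m3, l3⟩ := hstep b₃ v₃ hb₃ hv₃ d₃ c₂ hc₂ hW₂
  refine ⟨c₃, hc₃, hW₃, ?_, ?_, ?_, l3⟩
  · intro e he g1 g2 g3
    rw [m3 e he g3, m2 e he g2, m1 e he g1]
  · exact locR_keep hc₂ hc₃ m3 k2 (locR_keep hc₁ hc₂ m2 k1 l1)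
  · exact locR_keep hc₂ hc₃ m3 k3 l2

end

/-- **B2 over the brick wall, vertices and rows.** Outside of a bounded set `Om` and of the outer
layer, for every element `z` of bounded support: (1) for all representatives, at most two
locations, or all locations are in one closed neighbourhood which consists of locations;
(2) at most two rows are seen, or all rows seen are at one vertex `v₀`; in this case, for all
representatives, the representatives of the rows at `v₀` can be changed in such a way that the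
closed neighbourhood of `v₀` consists of locations. -/
theorem setOmRowsW (k β D : ℕ) : ∃ r δ : ℕ, ∀ {α : Type u} (P : Matroid α) [P.Finite] (S : Set α)
    (row : α → Sym2 (ℕ × ℕ)) (w : ℕ), RWal P S row w →
    HasUniformMinor P k ∨ ∃ Om : Finset (ℕ × ℕ), Om.card ≤ r ∧ ∀ z ∈ P.closure S, z ∉ S →
      (∃ N : Finset (ℕ × ℕ), N.card ≤ β ∧ ∀ c, c ⊆ S → WallE c row w ∅ →
        ∀ v ∈ LocR P S row c z, DeepR (0, 0) (w + 1) (w + 1) D v → v ∈ N) →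
      (∀ c, c ⊆ S → WallE c row w ∅ → ∀ A : Finset (ℕ × ℕ),
        (∀ v ∈ A, v ∈ LocR P S row c z ∧ DeepR (0, 0) (w + 1) (w + 1) δ v ∧
          ∀ u ∈ Om, Apart δ v u) →
        A.card ≤ 2 ∨ ∃ v₀, (A : Set (ℕ × ℕ)) ⊆ star v₀ ∧ star v₀ ⊆ LocR P S row c z) ∧
      ∀ A : Finset (Sym2 (ℕ × ℕ)), (∀ a ∈ A, ∃ p q, a = s(p, q) ∧ wadj p q ∧ Seen P S row z a ∧
        DeepR (0, 0) (w + 1) (w + 1) δ p ∧ DeepR (0, 0) (w + 1) (w + 1) δ q ∧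
        ∀ u ∈ Om, Apart δ p u ∧ Apart δ q u) →
        A.card ≤ 2 ∨ ∃ v₀, (∀ a ∈ A, v₀ ∈ a) ∧ ∀ c, c ⊆ S → WallE c row w ∅ →
          ∃ c', c' ⊆ S ∧ WallE c' row w ∅ ∧ (∀ e ∈ S, v₀ ∉ row e → (e ∈ c' ↔ e ∈ c)) ∧
            star v₀ ⊆ LocR P S row c' z := by
  classical
  obtain ⟨r, δ, h⟩ := setOmW.{u} k β D
  refine ⟨r, δ + 4, ?_⟩
  intro α P _ S row w hG
  rcases h P S row w hG with h1 | ⟨Om, hOm, h1⟩
  · exact Or.inl h1
  refine Or.inr ⟨Om, hOm, ?_⟩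
  intro z hz hzS hN
  have hwk : ∀ v, (DeepR (0, 0) (w + 1) (w + 1) (δ + 4) v ∧ ∀ u ∈ Om, Apart (δ + 4) v u) →
      DeepR (0, 0) (w + 1) (w + 1) δ v ∧ ∀ u ∈ Om, Apart δ v u := by
    rintro v ⟨g1, g2⟩
    refine ⟨?_, fun u hu => ?_⟩
    · unfold DeepR at g1 ⊢
      omega
    · have := g2 u hu
      unfold Apart at this ⊢
      omega
  refine ⟨?_, ?_⟩
  · intro c hc hcW A hA
    exact h1 z hz hzS hN c hc hcW A fun v hv => ⟨(hA v hv).1, hwk v (hA v hv).2⟩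
  intro A hA
  by_cases h2 : A.card ≤ 2
  · exact Or.inl h2
  right
  push Not at h2
  have hA' : ∀ a ∈ A, ∃ p q, a = s(p, q) ∧ wadj p q := by
    intro a ha
    obtain ⟨p, q, g1, g2, _⟩ := hA a ha
    exact ⟨p, q, g1, g2⟩
  have hAs : ∀ a ∈ A, ∃ p q, a = s(p, q) ∧ wadj p q ∧ Seen P S row z a := by
    intro a ha
    obtain ⟨p, q, g1, g2, g3, _⟩ := hA a ha
    exact ⟨p, q, g1, g2, g3⟩
  have hend : ∀ a ∈ A, ∀ v ∈ a, DeepR (0, 0) (w + 1) (w + 1) (δ + 4) v ∧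
      ∀ u ∈ Om, Apart (δ + 4) v u := by
    intro a ha v hv
    obtain ⟨p, q, rfl, g2, g3, g4, g5, g6⟩ := hA a ha
    rw [Sym2.mem_iff] at hv
    rcases hv with rfl | rfl
    · exact ⟨g4, fun u hu => (g6 u hu).1⟩
    · exact ⟨g5, fun u hu => (g6 u hu).2⟩
  have hd : ∀ a ∈ A, ∀ v ∈ a, 1 ≤ v.1 ∧ v.1 + 3 ≤ w ∧ 1 ≤ v.2 ∧ v.2 + 3 ≤ w := by
    intro a ha v hv
    have := (hend a ha v hv).1
    unfold DeepR at this
    omega
  -- three rows in a leaf order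
  have hthree : ∀ b₁ ∈ A, ∀ b₂ ∈ A, ∀ b₃ ∈ A, ∀ v₁ ∈ b₁, ∀ v₂ ∈ b₂, ∀ v₃ ∈ b₃, v₁ ∉ b₂ →
      v₁ ∉ b₃ → v₂ ∉ b₃ → ∀ c, c ⊆ S → WallE c row w ∅ → ∃ c', c' ⊆ S ∧ WallE c' row w ∅ ∧
      (∀ e ∈ S, row e ≠ b₁ → row e ≠ b₂ → row e ≠ b₃ → (e ∈ c' ↔ e ∈ c)) ∧
      ∃ v₀, v₁ ∈ star v₀ ∧ v₂ ∈ star v₀ ∧ v₃ ∈ star v₀ ∧ star v₀ ⊆ LocR P S row c' z := by
    intro b₁ hb₁ b₂ hb₂ b₃ hb₃ v₁ hv₁ v₂ hv₂ v₃ hv₃ k1 k2 k3 c hc hcW
    obtain ⟨c', hc', hW', m, l1, l2, l3⟩ := tog_three hG hz (hAs b₁ hb₁) (hAs b₂ hb₂)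
      (hAs b₃ hb₃) hv₁ hv₂ hv₃ (hd b₁ hb₁ v₁ hv₁) (hd b₂ hb₂ v₂ hv₂) (hd b₃ hb₃ v₃ hv₃)
      k1 k2 k3 hc hcW
    refine ⟨c', hc', hW', m, ?_⟩
    have n12 : v₁ ≠ v₂ := by rintro rfl; exact k1 hv₂
    have n13 : v₁ ≠ v₃ := by rintro rfl; exact k2 hv₃
    have n23 : v₂ ≠ v₃ := by rintro rfl; exact k3 hv₃
    have hfin := h1 z hz hzS hN c' hc' hW' {v₁, v₂, v₃} (by
      intro v hv
      simp only [Finset.mem_insert, Finset.mem_singleton] at hv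
      rcases hv with rfl | rfl | rfl
      · exact ⟨l1, hwk _ (hend b₁ hb₁ _ hv₁)⟩
      · exact ⟨l2, hwk _ (hend b₂ hb₂ _ hv₂)⟩
      · exact ⟨l3, hwk _ (hend b₃ hb₃ _ hv₃)⟩)
    rw [Finset.card_eq_three.2 ⟨v₁, v₂, v₃, n12, n13, n23, rfl⟩] at hfin
    rcases hfin with h3 | ⟨v₀, h3, h4⟩
    · omega
    · refine ⟨v₀, h3 ?_, h3 ?_, h3 ?_, h4⟩ <;> simp
  obtain ⟨c₀, hc₀, hW₀⟩ := exists_repW hG
  have hlf : LfS A := by
    intro b₁ hb₁ b₂ hb₂ b₃ hb₃ v₁ hv₁ v₂ hv₂ v₃ hv₃ k1 k2 k3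
    obtain ⟨_, _, _, _, v₀, g1, g2, g3, _⟩ := hthree b₁ hb₁ b₂ hb₂ b₃ hb₃ v₁ hv₁ v₂ hv₂ v₃ hv₃
      k1 k2 k3 c₀ hc₀ hW₀
    exact ⟨v₀, g1, g2, g3⟩
  obtain ⟨v₀, hv₀⟩ := lf_common hlf hA' h2
  refine ⟨v₀, hv₀, ?_⟩
  intro c hc hcW
  -- three rows at `v₀`
  obtain ⟨b₁, b₂, b₃, hb₁, hb₂, hb₃, h12, h13, h23⟩ := Finset.two_lt_card_iff.1 h2
  have hleaf : ∀ b ∈ A, ∃ x, b = s(v₀, x) ∧ wadj v₀ x := by
    intro b hb
    obtain ⟨p, q, g1, g2⟩ := hA' b hb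
    have g3 := hv₀ b hb
    rw [g1, Sym2.mem_iff] at g3
    rcases g3 with rfl | rfl
    · exact ⟨q, g1, g2⟩
    · exact ⟨p, by rw [g1, Sym2.eq_swap], wadj_symm g2⟩
  obtain ⟨x₁, e1, a1⟩ := hleaf b₁ hb₁
  obtain ⟨x₂, e2, a2⟩ := hleaf b₂ hb₂
  obtain ⟨x₃, e3, a3⟩ := hleaf b₃ hb₃
  have n12 : x₁ ≠ x₂ := by
    rintro rfl
    exact h12 (by rw [e1, e2])
  have n13 : x₁ ≠ x₃ := by
    rintro rfl
    exact h13 (by rw [e1, e3])
  have n23 : x₂ ≠ x₃ := by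
    rintro rfl
    exact h23 (by rw [e2, e3])
  have hne : ∀ {x}, wadj v₀ x → x ≠ v₀ := by
    rintro x hx rfl
    exact wadj_par hx rfl
  obtain ⟨c', hc', hW', m, v, g1, g2, g3, g4⟩ := hthree b₁ hb₁ b₂ hb₂ b₃ hb₃ x₁
    (by rw [e1]; simp) x₂ (by rw [e2]; simp) x₃ (by rw [e3]; simp)
    (by rw [e2]; exact not_mem_pr (hne a1) n12) (by rw [e3]; exact not_mem_pr (hne a1) n13)
    (by rw [e3]; exact not_mem_pr (hne a2) n23) c hc hcW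
  have hv : v = v₀ := by
    have p1 := wadj_par a1
    have p2 := wadj_par a2
    have hx1 : wadj v x₁ := by
      rcases star_cases g1 with rfl | h3
      · rcases star_cases g2 with h4 | h4
        · exact absurd h4.symm n12
        · have := wadj_par h4
          omega
      · exact h3
    have hx2 : wadj v x₂ := by
      rcases star_cases g2 with rfl | h3
      · have := wadj_par hx1
        omega
      · exact h3
    by_contra hcon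
    exact n12 (wadj_c4 hx1 hx2 a1 a2 hcon)
  subst hv
  refine ⟨c', hc', hW', ?_, g4⟩
  intro e he hve
  refine m e he ?_ ?_ ?_
  · intro h
    rw [h] at hve
    exact hve (hv₀ b₁ hb₁)
  · intro h
    rw [h] at hve
    exact hve (hv₀ b₂ hb₂)
  · intro h
    rw [h] at hve
    exact hve (hv₀ b₃ hb₃)

end DA
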