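import Pool.Agent.DA.WHoles
import Pool.Agent.DA.WStat

/-!
# A brick wall without far apart deep rectangles is full
-/

open Set BIC BICS
open scoped Matroid

namespace DA

open Gad

universe u

/-- A brick wall without deep holes with free space on the left is full. -/
theorem wall_rects {α : Type*} {S : Set α} {ends : α → Sym2 (ℕ × ℕ)} {w : ℕ} (hw : 4 ≤ w)
    (Z : Set (ℕ × ℕ))
    (hZ : ∀ v ∈ Z, 3 ≤ v.1 ∧ v.1 + 3 ≤ w ∧ 1 ≤ v.2 ∧ v.2 + 3 ≤ w)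
    (hL : ∀ x y, (x + 2, y) ∈ Z → (x + 1, y) ∉ Z →
      (x, y) ∉ Z ∧ (x + 1, y + 1) ∉ Z ∧ (x, y + 1) ∉ Z)
    (hS : ∀ p q, wadj p q → p ∈ rect 0 0 (w + 1) (w + 1) \ Z →
      q ∈ rect 0 0 (w + 1) (w + 1) \ Z → ∃ e ∈ S, ends e = s(p, q)) :
    ∃ F, FullB S ends (rect 0 0 (w + 1) (w + 1) \ Z) F := by
  classical
  obtain ⟨B, hBd⟩ : ∃ B : Set (ℕ × ℕ), B = {v | (v.1 + v.2) % 2 = 0 ∧ v ∉ Z ∧
    ((v.1 + 1, v.2) ∈ Z ∨ ((v.1 + 1, v.2) ∉ Z ∧ (v.1 + 2, v.2) ∈ Z))} := ⟨_, rfl⟩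
  have hB : ∀ x z, (x, z) ∈ B ↔ (x + z) % 2 = 0 ∧ (x, z) ∉ Z ∧
      ((x + 1, z) ∈ Z ∨ ((x + 1, z) ∉ Z ∧ (x + 2, z) ∈ Z)) := by
    intro x z
    rw [hBd]
    rfl
  obtain ⟨nb, hnb⟩ : ∃ nb : ℕ × ℕ → ℕ × ℕ, ∀ x z, nb (x, z) =
      if (x + z) % 2 = 1 ∧ (x, z) ∉ Z ∧ (x + 1, z) ∈ Z then (x - 1, z) else nbw w B (x, z) :=
    ⟨fun v => if (v.1 + v.2) % 2 = 1 ∧ v ∉ Z ∧ (v.1 + 1, v.2) ∈ Z then (v.1 - 1, v.2)
      else nbw w B v, fun _ _ => rfl⟩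
  have hZc : ∀ x z, (x, z) ∈ Z → 3 ≤ x ∧ x + 3 ≤ w ∧ 1 ≤ z ∧ z + 3 ≤ w := fun x z h => hZ _ h
  have hBc : ∀ x z, (x, z) ∈ B → 1 ≤ z ∧ z + 3 ≤ w ∧ x + 4 ≤ w ∧ 1 ≤ x := by
    intro x z h
    rcases ((hB x z).1 h).2.2 with h1 | ⟨_, h1⟩
    · have := hZc _ _ h1
      omega
    · have := hZc _ _ h1
      omega
  have hBv : ∀ v ∈ B, 1 ≤ v.2 ∧ v.2 + 3 ≤ w ∧ v.1 + 4 ≤ w := fun v hv => by
    have := hBc v.1 v.2 hv
    omega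
  -- the free space
  have f1 : ∀ x z, (x + 1, z) ∈ Z → (x, z) ∉ Z → (x - 1, z) ∉ Z ∧ (x, z + 1) ∉ Z ∧
      (x - 1, z + 1) ∉ Z ∧ 2 ≤ x := by
    intro x z h1 h2
    have h3 := hZc _ _ h1
    obtain ⟨x', rfl⟩ : ∃ x', x = x' + 1 := ⟨x - 1, by omega⟩
    have h4 := hL x' z h1 h2
    rw [Nat.add_sub_cancel]
    exact ⟨h4.1, h4.2.1, h4.2.2, by omega⟩
  have f2 : ∀ x z, (x, z) ∈ B → (x, z + 1) ∉ Z := by
    intro x z h
    obtain ⟨_, h2, h3 | ⟨h3, h4⟩⟩ := (hB x z).1 h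
    · exact (f1 x z h3 h2).2.1
    · have := (f1 (x + 1) z h4 h3).2.2.1
      rwa [Nat.add_sub_cancel] at this
  -- cases
  have hcs : ∀ x z, x ≤ w → z ≤ w → (x, z) ∉ Z →
      (((x + z) % 2 = 1 ∧ (x + 1, z) ∈ Z ∧ nb (x, z) = (x - 1, z)) ∨
      (¬ ((x + z) % 2 = 1 ∧ (x + 1, z) ∈ Z) ∧ nb (x, z) = nbw w B (x, z))) := by
    intro x z _ _ h3
    by_cases h4 : (x + z) % 2 = 1 ∧ (x + 1, z) ∈ Z
    · left
      refine ⟨h4.1, h4.2, ?_⟩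
      rw [hnb, if_pos ⟨h4.1, h3, h4.2⟩]
    · right
      refine ⟨h4, ?_⟩
      rw [hnb, if_neg fun h => h4 ⟨h.1, h.2.2⟩]
  have hin : ∀ v ∈ rect 0 0 (w + 1) (w + 1) \ Z, nb v ∈ rect 0 0 (w + 1) (w + 1) \ Z ∧
      wadj v (nb v) := by
    rintro ⟨x, z⟩ ⟨hv, hvZ⟩
    rw [Gad.mem_rct] at hv
    simp only at hv
    rcases hcs x z (by omega) (by omega) hvZ with ⟨c1, c2, c3⟩ | ⟨c1, c3⟩
    · obtain ⟨g1, _, _, g4⟩ := f1 x z c2 hvZ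
      rw [c3]
      refine ⟨⟨by rw [Gad.mem_rct]; simp only; omega, g1⟩, ?_⟩
      unfold wadj
      dsimp only
      omega
    rw [c3]
    have h1 := nbw_cases' w B hBv (x, z) (by simp only; omega)
    simp only at h1
    rcases h1 with ⟨a1, a2, a3⟩ | ⟨a1, a2, a3⟩ | ⟨a1, a2, a3⟩ | ⟨a1, a2, a4, a3⟩ |
      ⟨a1, a2, a4, a3⟩ | ⟨a1, a2, a4, a3⟩ | ⟨a1, a5, a4, a3⟩ | ⟨a1, a5, a4, a3⟩ |
      ⟨a1, a2, a4, a5, a3⟩ <;> rw [a3] <;>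
    refine ⟨⟨by rw [Gad.mem_rct]; simp only; omega, fun h => ?_⟩, ?_⟩
    all_goals first
      | (unfold wadj; dsimp only; omega)
      | (have h5 := hZc _ _ h; omega)
      | exact f2 _ _ a5 h
      | (have h6 := (hB _ _).1 a5; omega)
      | (rcases Nat.mod_two_eq_zero_or_one (x + z) with h7 | h7
         · exact a5 ((hB _ _).2 ⟨h7, hvZ, Or.inl h⟩)
         · exact c1 ⟨h7, h⟩)
  refine full_of_nb nb (fun v hv => ⟨(hin v hv).1, hS v _ (hin v hv).2 hv (hin v hv).1⟩) ?_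
  rintro ⟨x, z⟩ hv heq
  have hv' := (hin _ hv).1
  have hv0 := hv.1
  have hvZ := hv.2
  obtain ⟨⟨x', z'⟩, hx'⟩ : ∃ v', nb (x, z) = v' := ⟨_, rfl⟩
  rw [hx'] at hv' heq
  have hv'Z := hv'.2
  have hv'0 := hv'.1
  rw [Gad.mem_rct] at hv'0 hv0
  simp only at hv'0 hv0
  have k1 := hcs x z (by omega) (by omega) hvZ
  have k2 := hcs x' z' (by omega) (by omega) hv'Z
  rw [hx'] at k1
  rw [heq] at k2
  have h1 := nbw_cases' w B hBv (x, z) (by simp only; omega)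
  have h2 := nbw_cases' w B hBv (x', z') (by simp only; omega)
  rcases k1 with ⟨a1, a2, a3⟩ | ⟨a1, a3⟩
  · -- `v` goes to the left
    obtain ⟨g1, g2, g3, g4⟩ := f1 x z a2 hvZ
    have g5 := hZc _ _ a2
    rw [Prod.mk.injEq] at a3
    obtain ⟨rfl, rfl⟩ := a3
    rcases k2 with ⟨b1, b2, b3⟩ | ⟨b1, b3⟩
    · omega
    · have hmB : (x - 1, z') ∈ B := by
        refine (hB _ _).2 ⟨by omega, g1, Or.inr ⟨?_, ?_⟩⟩
        · have : x - 1 + 1 = x := by omega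
          rw [this]
          exact hvZ
        · have : x - 1 + 2 = x + 1 := by omega
          rw [this]
          exact a2
      rw [← b3] at h2
      simp only [Prod.mk.injEq] at h2
      rcases h2 with h | h | h | h | h | h | h | h | h
      all_goals first
        | exact h.2.2.2.1 hmB
        | omega
  · rw [← a3] at h1
    simp only [Prod.mk.injEq] at h1
    rcases k2 with ⟨b1, b2, b3⟩ | ⟨b1, b3⟩
    · obtain ⟨g1, g2, g3, g4⟩ := f1 x' z' b2 hv'Z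
      have g5 := hZc _ _ b2
      rw [Prod.mk.injEq] at b3
      obtain ⟨rfl, rfl⟩ := b3
      have hmB : (x' - 1, z) ∈ B := by
        refine (hB _ _).2 ⟨by omega, g1, Or.inr ⟨?_, ?_⟩⟩
        · have : x' - 1 + 1 = x' := by omega
          rw [this]
          exact hv'Z
        · have : x' - 1 + 2 = x' + 1 := by omega
          rw [this]
          exact b2
      rcases h1 with h | h | h | h | h | h | h | h | h
      all_goals first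
        | exact h.2.2.2.1 hmB
        | omega
    · rw [← b3] at h2
      simp only [Prod.mk.injEq] at h2
      have hBp : ∀ x z, (x, z) ∈ B → (x + z) % 2 = 0 := fun x z h => ((hB x z).1 h).1
      rcases h1 with ⟨a1, a2, a3, a3'⟩ | ⟨a1, a2, a3, a3'⟩ | ⟨a1, a2, a3, a3'⟩ |
        ⟨a1, a2, a4, a3, a3'⟩ | ⟨a1, a2, a4, a3, a3'⟩ | ⟨a1, a2, a4, a3, a3'⟩ |
        ⟨a1, a5, a4, a3, a3'⟩ | ⟨a1, a5, a4, a3, a3'⟩ | ⟨a1, a2, a4, a5, a3, a3'⟩ <;>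
      rcases h2 with ⟨b1, b2, b3, b3'⟩ | ⟨b1, b2, b3, b3'⟩ | ⟨b1, b2, b3, b3'⟩ |
        ⟨b1, b2, b4, b3, b3'⟩ | ⟨b1, b2, b4, b3, b3'⟩ | ⟨b1, b2, b4, b3, b3'⟩ |
        ⟨b1, b5, b4, b3, b3'⟩ | ⟨b1, b5, b4, b3, b3'⟩ | ⟨b1, b2, b4, b5, b3, b3'⟩ <;>
      first
        | omega
        | (have k5 := hBp _ _ a5; omega)
        | (have k5 := hBp _ _ b5; omega)

end DA
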