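import Pool.Agent.DA.RWal
import Pool.Agent.DA.WRect
import Pool.Agent.DA.SetOmRowsW
import Pool.Agent.DA.LinkDef
import Pool.Agent.TST.Move

/-!
# Exact walls with rows: ranks, invisible holes, decoupling of far apart holes
-/

open Set BIC BICS
open scoped Matroid

namespace DA

open Gad

universe u

/-- An exact wall with rows: in addition to `RWal` all ranks are those of a subdivided graph
(`ν` is the nullity of the set of the full rows). -/
structure RWx {α : Type*} (P : Matroid α) (S : Set α) (row : α → Sym2 (ℕ × ℕ)) (w : ℕ) : Prop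
    extends RWal P S row w where
  nul : ∃ ν : Set (Sym2 (ℕ × ℕ)) → ℕ, ∀ X ⊆ S,
    BIC.rk P X + ν {a | (∃ e ∈ S, row e = a) ∧ ∀ e ∈ S, row e = a → e ∈ X} = X.ncard

/-- the elements of the rows which meet `Z` -/
def RS {α : Type*} (S : Set α) (row : α → Sym2 (ℕ × ℕ)) (Z : Set (ℕ × ℕ)) : Set α :=
  {e | e ∈ S ∧ ∃ v ∈ Z, v ∈ row e}

/-! ### Matroid lemmas -/

section

variable {α : Type*} {P : Matroid α}

lemma mem_of_rk [P.Finite] {X : Set α} {x : α} (hx : x ∈ P.E)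
    (h : rk P (insert x X) ≤ rk P X) : x ∈ P.closure X := by
  by_contra hn
  have := rk_insert_notMem hx hn
  omega

lemma rk_ins_of_mem [P.Finite] {X : Set α} {x : α} (hx : x ∈ P.closure X) :
    rk P (insert x X) = rk P X := by
  refine le_antisymm ?_ (rk_mono P (subset_insert _ _))
  rw [← rk_closure (insert x X), ← rk_closure X]
  rw [P.closure_insert_eq_of_mem_closure hx]

/-- the rank of `T ∪ A` is the rank of `A` if `T` is in the closure of `A` -/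
lemma rk_un_cl [P.Finite] {A T : Set α} (hA : A ⊆ P.E) (hT : T ⊆ P.closure A) :
    rk P (T ∪ A) = rk P A := by
  rw [union_comm]
  exact rk_sub_cl hA hT

/-- **Drop.** `A' ∪ G` and `A' ∩ G` are modular, `T ∪ {z}` is spanned by `G` and `z` by `T ∪ A'`:
then `z` is spanned by `T ∪ (A' ∩ G)`. -/
lemma mod_drop [P.Finite] {A' G T : Set α} {z : α} (hG : G ⊆ P.E)
    (hmod : rk P A' + rk P G ≤ rk P (A' ∪ G) + rk P (A' ∩ G)) (hT : T ⊆ P.closure G)
    (hz : z ∈ P.closure G) (h : z ∈ P.closure (T ∪ A')) : z ∈ P.closure (T ∪ (A' ∩ G)) := by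
  have hzE : z ∈ P.E := P.closure_subset_ground _ hz
  refine mem_of_rk hzE ?_
  -- lower bound for `T ∪ A'`
  have h1 : rk P (insert z (T ∪ A')) = rk P (T ∪ A') := rk_ins_of_mem h
  have h2 := rk_submod P (insert z (T ∪ A')) (insert z T ∪ G)
  have h3 : rk P (insert z T ∪ G) = rk P G := rk_un_cl hG (insert_subset hz hT)
  have h4 : rk P (A' ∪ G) ≤ rk P (insert z (T ∪ A') ∪ (insert z T ∪ G)) := by
    refine rk_mono P ?_
    rintro x (hx | hx)
    · exact Or.inl (Or.inr (Or.inr hx))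
    · exact Or.inr (Or.inr hx)
  have h5 : rk P (insert z (T ∪ A' ∩ G)) ≤
      rk P (insert z (T ∪ A') ∩ (insert z T ∪ G)) := by
    refine rk_mono P ?_
    rintro x (rfl | hx | hx)
    · exact ⟨Or.inl rfl, Or.inl (Or.inl rfl)⟩
    · exact ⟨Or.inr (Or.inl hx), Or.inl (Or.inr hx)⟩
    · exact ⟨Or.inr (Or.inr hx.1), Or.inr hx.2⟩
  -- upper bound for `T ∪ A'`
  have h6 := rk_submod P (T ∪ A' ∩ G) A'
  have h7 : rk P (T ∪ A') ≤ rk P (T ∪ A' ∩ G ∪ A') := by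
    refine rk_mono P ?_
    rintro x (hx | hx)
    · exact Or.inl (Or.inl hx)
    · exact Or.inr hx
  have h8 : rk P (A' ∩ G) ≤ rk P ((T ∪ A' ∩ G) ∩ A') :=
    rk_mono P fun x hx => ⟨Or.inr hx, hx.1⟩
  omega

end

/-! ### Connected and full walls -/

section

variable {α : Type*} {P : Matroid α} {S : Set α} {row : α → Sym2 (ℕ × ℕ)} {w : ℕ}

lemma wall_mem {c : Set α} (hW : WallE c row w ∅) {e : α} (he : e ∈ c) {v : ℕ × ℕ}
    (hv : v ∈ row e) : v ∈ rect 0 0 (w + 1) (w + 1) := by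
  obtain ⟨p, q, h3, _, h5, h6⟩ := hW.mem e he
  rw [h3, Sym2.mem_iff] at hv
  rcases hv with rfl | rfl
  · exact h5
  · exact h6

/-- a wall is connected -/
lemma wall_vconn {c : Set α} (hW : WallE c row w ∅) :
    VConn c row (rect 0 0 (w + 1) (w + 1)) := by
  have hs : ∀ p q, GAdj c row p q → GAdj c row q p := fun p q h => h.symm
  have hr : ∀ p q, wadj p q → p ∈ rect 0 0 (w + 1) (w + 1) → q ∈ rect 0 0 (w + 1) (w + 1) →
      GAdj c row p q := fun p q h1 h2 h3 => hW.surj p q h1 h2 h3 (notMem_empty _)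
  have hrow : ∀ y, y ≤ w → CRow (GAdj c row) (rect 0 0 (w + 1) (w + 1)) 0 (w + 1) y := by
    intro y hy x _ hx
    refine ⟨by rw [Gad.mem_rct]; omega, fun hx' => hr _ _ wadj_r ?_ ?_⟩
    · rw [Gad.mem_rct]; omega
    · rw [Gad.mem_rct]; omega
  have hdown : ∀ y, y ≤ w → Cn (GAdj c row) (rect 0 0 (w + 1) (w + 1)) (0, y) (0, 0) := by
    intro y
    induction y with
    | zero => intro _; exact Cn.refl
    | succ y ih =>
      intro hy
      refine Cn.trans ?_ (ih (by omega))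
      rcases Nat.mod_two_eq_zero_or_one y with h1 | h1
      · refine Cn.step (hs _ _ (hr _ _ (wadj_u (by omega)) ?_ ?_)) ?_ ?_ <;>
        · rw [Gad.mem_rct]; omega
      · by_cases hw1 : 1 ≤ w
        · refine (crow_conn hs (hrow (y + 1) hy) (x := 0) (x' := 1) (by omega) (by omega) (by omega)
            (by omega)).trans (Cn.trans ?_ (crow_conn hs (hrow y (by omega)) (x := 1) (x' := 0)
            (by omega) (by omega) (by omega) (by omega)))
          refine Cn.step (hs _ _ (hr _ _ (wadj_u (by omega)) ?_ ?_)) ?_ ?_ <;>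
          · rw [Gad.mem_rct]; omega
        · omega
  have hall : ∀ v ∈ rect 0 0 (w + 1) (w + 1),
      Cn (GAdj c row) (rect 0 0 (w + 1) (w + 1)) v (0, 0) := by
    rintro ⟨x, y⟩ hv
    rw [Gad.mem_rct] at hv
    simp only at hv
    exact (crow_conn hs (hrow y (by omega)) (x := x) (x' := 0) (by omega) (by omega) (by omega)
      (by omega)).trans (hdown y (by omega))
  intro u hu v hv
  exact (hall u hu).trans ((hall v hv).symm hs)

/-! ### Invisible holes -/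

lemma not_mem_star [P.Finite] (h : RWal P S row w) {c : Set α} (hc : c ⊆ S)
    (hW : WallE c row w ∅) {e : α} (he : e ∈ c) {v : ℕ × ℕ} (hv : v ∈ row e) :
    e ∉ P.closure (S \ {e | e ∈ c ∧ v ∈ row e}) := by
  intro hcl
  refine not_mem_Hx' (h.bic c hc hW) he hv ?_
  rw [Hx, Matroid.contract_closure_eq, ins_union_eq hc v]
  exact ⟨hcl, fun h1 => h1.2 he⟩

/-- change one representative -/
lemma rep_swap {c : Set α} (hc : c ⊆ S) (hW : WallE c row w ∅) (h : RWal P S row w) {x : α}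
    (hx : x ∈ S) : ({e | e ∈ c ∧ row e ≠ row x} ∪ {x}) ⊆ S ∧
      WallE ({e | e ∈ c ∧ row e ≠ row x} ∪ {x}) row w ∅ := by
  refine ⟨?_, ?_, ?_, ?_⟩
  · rintro e (he | rfl)
    · exact hc he.1
    · exact hx
  · rintro e (he | rfl) e' (he' | rfl) hee
    · exact hW.inj he.1 he'.1 hee
    · exact absurd hee he.2
    · exact absurd hee.symm he'.2
    · rfl
  · rintro e (he | rfl)
    · exact hW.mem e he.1
    · exact h.mem _ hx
  · intro p q hpq hp hq hm
    obtain ⟨e, he, hee⟩ := hW.surj p q hpq hp hq hm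
    by_cases h1 : row e = row x
    · exact ⟨x, Or.inr rfl, by rw [← h1, hee]⟩
    · exact ⟨e, Or.inl ⟨he, h1⟩, hee⟩

/-- **An invisible hole can be removed.**  If `x` has no location in `Z` (for all representatives)
and the wall without `Z` is full then `x` is spanned by the rows which do not meet `Z`. -/
theorem RWal.noloc [P.Finite] (h : RWal P S row w) {Z : Set (ℕ × ℕ)}
    (hfull : ∀ c, c ⊆ S → WallE c row w ∅ →
      ∃ F, FullB c row (rect 0 0 (w + 1) (w + 1) \ Z) F)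
    (hne : (rect 0 0 (w + 1) (w + 1) \ Z).Nonempty) {x : α} (hx : x ∈ P.closure S)
    (hloc : ∀ c, c ⊆ S → WallE c row w ∅ → ∀ v ∈ Z, v ∉ LocR P S row c x) :
    x ∈ P.closure (S \ RS S row Z) := by
  classical
  have hcl : ∀ X ⊆ S, X ⊆ P.closure X := fun X hX => P.subset_closure X (hX.trans h.sub)
  -- step A
  have hA : ∀ c, c ⊆ S → WallE c row w ∅ →
      x ∈ P.closure (S \ {e | e ∈ c ∧ ∃ v ∈ Z, v ∈ row e}) := by
    intro c hc hW
    by_cases hxS : x ∈ S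
    · refine hcl _ sdiff_subset ⟨hxS, ?_⟩
      rintro ⟨hxc, v, hv, hvx⟩
      exact hloc c hc hW v hv (not_mem_star h hc hW hxc hvx)
    have : (P ／ (S \ c)).Finite := BQ.fin_contract _
    obtain ⟨F, hF⟩ := hfull c hc hW
    have h1 := cl_rep hc hx hxS
    have h2 := loc_closure (h.bic c hc hW) (Gad.rect_finite 0 0 (w + 1) (w + 1))
      (fun e he v hv => wall_mem hW he hv) (wall_vconn hW) h1.1 _ _ F rfl sdiff_subset hne hF (by
        intro v hv hvU
        have hvZ : v ∈ Z := by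
          by_contra hvZ
          exact hvU ⟨hv, hvZ⟩
        have h3 : v ∉ CWL.Loc (P ／ (S \ c)) c row x := by
          rw [loc_eq_locR hc hxS]
          exact hloc c hc hW v hvZ
        exact not_not.1 h3)
    rw [Matroid.contract_closure_eq] at h2
    refine P.closure_subset_closure ?_ h2.1
    rintro e (he | he)
    · exact ⟨hc he.1, fun h3 => by
        obtain ⟨_, v, hvZ, hve⟩ := h3
        exact (he.2 v hve).2 hvZ⟩
    · exact ⟨he.1, fun h3 => he.2 h3.1⟩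
  -- step B
  obtain ⟨c, hc, hW⟩ := exists_repW h
  have hQf : (RS S row Z \ c).Finite :=
    P.ground_finite.subset fun e he => h.sub he.1.1
  refine TST.drops hQf ?_ ?_
  · rintro y ⟨hy, hyc⟩
    obtain ⟨hc', hW'⟩ := rep_swap hc hW h hy.1
    obtain ⟨v, hvZ, hvy⟩ := hy.2
    refine ⟨S \ {e | e ∈ ({e | e ∈ c ∧ row e ≠ row y} ∪ {y} : Set α) ∧ ∃ v ∈ Z, v ∈ row e},
      ?_, sdiff_subset.trans h.sub, hA _ hc' hW', ?_⟩
    · rintro e (he | he)
      · exact ⟨he.1, fun h3 => he.2 ⟨he.1, h3.2⟩⟩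
      · refine ⟨he.1.1.1, ?_⟩
        rintro ⟨h3 | h3, _⟩
        · exact he.1.2 h3.1
        · exact he.2 h3
    · intro h3
      refine not_mem_star h hc' hW' (Or.inr rfl) hvy (P.closure_subset_closure ?_ h3)
      rintro e ⟨he, he'⟩
      exact ⟨he, fun h4 => he' ⟨h4.1, v, hvZ, h4.2⟩⟩
  · refine P.closure_subset_closure ?_ (hA c hc hW)
    rintro e ⟨he, he'⟩
    by_cases h3 : e ∈ RS S row Z
    · exact Or.inr ⟨h3, fun h4 => he' ⟨h4, h3.2⟩⟩
    · exact Or.inl ⟨he, h3⟩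

/-! ### Ranks -/

/-- the rank formula -/
lemma RWx.rk_gen [P.Finite] (h : RWx P S row w) {c : Set α} (hc : c ⊆ S) (hW : WallE c row w ∅)
    {Y c' : Set α} (hY : Y ⊆ S \ c) (hc' : c' ⊆ c)
    (hYc : ∀ e ∈ c', ∀ e' ∈ S, row e' = row e → e' ∈ c' ∨ e' ∈ Y) :
    rk P (Y ∪ c') = Y.ncard + rk (P ／ (S \ c)) c' := by
  obtain ⟨ν, hν⟩ := h.nul
  have hSf : S.Finite := P.ground_finite.subset h.sub
  have hfull : ∀ Y' ⊆ S \ c, ∀ c'' ⊆ c, (∀ e ∈ c'', ∀ e' ∈ S, row e' = row e → e' ∈ c'' ∨ e' ∈ Y') →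
      {a | (∃ e ∈ S, row e = a) ∧ ∀ e ∈ S, row e = a → e ∈ Y' ∪ c''} = row '' c'' := by
    intro Y' hY' c'' hc'' hcl
    ext a
    constructor
    · rintro ⟨⟨e, he, hea⟩, h1⟩
      obtain ⟨p, q, h3, h4, h5, h6⟩ := h.mem e he
      obtain ⟨f, hf, hfe⟩ := hW.surj p q h4 h5 h6 (notMem_empty _)
      have h7 := h1 f (hc hf) (by rw [hfe, ← h3, hea])
      rcases h7 with h7 | h7
      · exact absurd hf (hY' h7).2
      · exact ⟨f, h7, by rw [hfe, ← h3, hea]⟩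
    · rintro ⟨e, he, rfl⟩
      refine ⟨⟨e, hc (hc'' he), rfl⟩, fun e' he' hee => ?_⟩
      rcases hcl e he e' he' hee with h1 | h1
      · exact Or.inr h1
      · exact Or.inl h1
  have hdis : ∀ Y' ⊆ S \ c, ∀ c'' ⊆ c, (Y' ∪ c'').ncard = Y'.ncard + c''.ncard := by
    intro Y' hY' c'' hc''
    refine ncard_union_eq ?_ (hSf.subset (hY'.trans sdiff_subset)) (hSf.subset (hc''.trans hc))
    rw [Set.disjoint_left]
    exact fun e he he' => (hY' he).2 (hc'' he')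
  have h1 := hν (Y ∪ c') (union_subset (hY.trans sdiff_subset) (hc'.trans hc))
  rw [hfull Y hY c' hc' hYc, hdis Y hY c' hc'] at h1
  have h2 := hν (S \ c ∪ c') (union_subset sdiff_subset (hc'.trans hc))
  rw [hfull _ (Subset.refl _) c' hc' (by
    intro e he e' he' hee
    by_cases h3 : e' ∈ c
    · exact Or.inl (hW.inj (hc' he) h3 hee.symm ▸ he)
    · exact Or.inr ⟨he', h3⟩), hdis _ (Subset.refl _) c' hc'] at h2
  have h3 := hν (S \ c ∪ ∅) (union_subset sdiff_subset (empty_subset _))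
  rw [hfull _ (Subset.refl _) ∅ (empty_subset _) (by
    intro e he
    exact absurd he (notMem_empty _)), hdis _ (Subset.refl _) ∅ (empty_subset _)] at h3
  have h4 := hν (∅ ∪ ∅) (union_subset (empty_subset _) (empty_subset _))
  rw [hfull ∅ (empty_subset _) ∅ (empty_subset _) (by
    intro e he
    exact absurd he (notMem_empty _)), hdis ∅ (empty_subset _) ∅ (empty_subset _)] at h4
  rw [union_empty, ncard_empty] at h3 h4
  have h5 := BQ.rk_con (M := P) (C := S \ c) (X := c') (sdiff_subset.trans h.sub) (by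
    intro e he
    exact ⟨h.sub (hc (hc' he)), fun h6 => h6.2 (hc' he)⟩)
  rw [union_comm c' (S \ c)] at h5
  omega

/-- the rank of a union of a part of the rows and of a full set of representatives -/
lemma RWx.rk_full [P.Finite] (h : RWx P S row w) {c : Set α} (hc : c ⊆ S) (hW : WallE c row w ∅)
    {Y c' : Set α} (hY : Y ⊆ S \ c) (hc' : c' ⊆ c)
    (hYc : ∀ e ∈ c', ∀ e' ∈ S, row e' = row e → e' ∈ c' ∨ e' ∈ Y) {U : Set (ℕ × ℕ)}
    (hU : U.Finite) (hcU : ∀ e ∈ c', ∀ v ∈ row e, v ∈ U) {F : Set α}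
    (hF : FullB c' row U F) : rk P (Y ∪ c') = Y.ncard + U.ncard := by
  rw [h.rk_gen hc hW hY hc' hYc]
  have : (P ／ (S \ c)).Finite := BQ.fin_contract _
  have hB := h.bic c hc hW
  have hB' : Bic (P ／ (S \ c)) c' row := by
    refine ⟨hc'.trans hB.sub, ?_, ?_⟩
    · intro F φ hF hφ hφe
      exact hB.ind F φ (hF.trans hc') hφ hφe
    · intro W
      refine ((P ／ (S \ c)).eRk_mono ?_).trans (hB.rk W)
      exact fun e he => ⟨hc' he.1, he.2⟩
  have h1 := rk_of_full hB' hU hF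
  have h2 : ins c' row U = c' := by
    ext e
    exact ⟨fun he => he.1, fun he => ⟨he, hcU e he⟩⟩
  rw [h2] at h1
  rw [h1]

lemma fullB_sub {c c' : Set α} {U : Set (ℕ × ℕ)} {F : Set α} (hF : FullB c row U F)
    (hc' : ∀ e ∈ c, (∀ v ∈ row e, v ∈ U) → e ∈ c') : FullB c' row U F := by
  obtain ⟨h1, φ, h2, h3⟩ := hF
  exact ⟨fun e he => ⟨hc' e (h1 he).1 (h1 he).2, (h1 he).2⟩, φ, h2, h3⟩

/-- the rank of the rows which do not meet `Z` -/
lemma RWx.rk_RS [P.Finite] (h : RWx P S row w) {c : Set α} (hc : c ⊆ S) (hW : WallE c row w ∅)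
    {Z : Set (ℕ × ℕ)} {F : Set α} (hF : FullB c row (rect 0 0 (w + 1) (w + 1) \ Z) F) :
    rk P (S \ RS S row Z) = ((S \ c) \ RS S row Z).ncard +
      (rect 0 0 (w + 1) (w + 1) \ Z).ncard := by
  have h1 : S \ RS S row Z = ((S \ c) \ RS S row Z) ∪ (c \ RS S row Z) := by
    ext e
    simp only [mem_sdiff, mem_union]
    constructor
    · rintro ⟨h1, h2⟩
      by_cases h3 : e ∈ c
      · exact Or.inr ⟨h3, h2⟩
      · exact Or.inl ⟨⟨h1, h3⟩, h2⟩
    · rintro (⟨⟨h1, _⟩, h2⟩ | ⟨h1, h2⟩)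
      · exact ⟨h1, h2⟩
      · exact ⟨hc h1, h2⟩
  rw [h1]
  refine h.rk_full hc hW sdiff_subset sdiff_subset ?_
    ((Gad.rect_finite _ _ _ _).subset sdiff_subset) ?_ (fullB_sub hF ?_)
  · rintro e ⟨he, he2⟩ e' he' hee
    have h2 : e' ∉ RS S row Z := by
      rintro ⟨_, v, hv, hve⟩
      rw [hee] at hve
      exact he2 ⟨hc he, v, hv, hve⟩
    by_cases h3 : e' ∈ c
    · exact Or.inl ⟨h3, h2⟩
    · exact Or.inr ⟨⟨he', h3⟩, h2⟩
  · rintro e ⟨he, he2⟩ v hv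
    exact ⟨wall_mem hW he hv, fun hvZ => he2 ⟨hc he, v, hvZ, hv⟩⟩
  · intro e he hU
    exact ⟨he, fun h2 => by
      obtain ⟨_, v, hvZ, hv⟩ := h2
      exact (hU v hv).2 hvZ⟩

/-- **Decoupling.** Removing all rows at `W` and removing a part of the rows at `Y` are
independent. -/
lemma RWx.dec [P.Finite] (h : RWx P S row w) {c : Set α} (hc : c ⊆ S) (hW : WallE c row w ∅)
    {W Y : Set (ℕ × ℕ)} (hWV : W ⊆ rect 0 0 (w + 1) (w + 1)) (hYV : Y ⊆ rect 0 0 (w + 1) (w + 1))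
    (hWY : Disjoint W Y) (hrow : ∀ e ∈ S, ∀ v ∈ W, ∀ u ∈ Y, v ∈ row e → u ∉ row e)
    (f0 : ∃ F, FullB c row (rect 0 0 (w + 1) (w + 1) \ (∅ : Set (ℕ × ℕ))) F)
    (f1 : ∃ F, FullB c row (rect 0 0 (w + 1) (w + 1) \ W) F)
    (f2 : ∃ F, FullB c row (rect 0 0 (w + 1) (w + 1) \ Y) F)
    (f3 : ∃ F, FullB c row (rect 0 0 (w + 1) (w + 1) \ (W ∪ Y)) F) {D : Set α}
    (hD : D ⊆ RS S row Y) :
    rk P (S \ D) + rk P (S \ RS S row W) ≤ rk P S + rk P ((S \ D) \ RS S row W) := by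
  obtain ⟨F0, f0⟩ := f0
  obtain ⟨F1, f1⟩ := f1
  obtain ⟨F2, f2⟩ := f2
  obtain ⟨F3, f3⟩ := f3
  have hSf : S.Finite := P.ground_finite.subset h.sub
  have hVf := Gad.rect_finite 0 0 (w + 1) (w + 1)
  have r0 := h.rk_RS hc hW f0
  have r1 := h.rk_RS hc hW f1
  have r2 := h.rk_RS hc hW f2
  have r3 := h.rk_RS hc hW f3
  have e0 : RS S row (∅ : Set (ℕ × ℕ)) = ∅ := by
    ext e
    simp [RS]
  have e3 : RS S row (W ∪ Y) = RS S row W ∪ RS S row Y := by
    ext e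
    constructor
    · rintro ⟨h1, v, hv | hv, h2⟩
      · exact Or.inl ⟨h1, v, hv, h2⟩
      · exact Or.inr ⟨h1, v, hv, h2⟩
    · rintro (⟨h1, v, hv, h2⟩ | ⟨h1, v, hv, h2⟩)
      · exact ⟨h1, v, Or.inl hv, h2⟩
      · exact ⟨h1, v, Or.inr hv, h2⟩
  have hdis : Disjoint (RS S row W) (RS S row Y) := by
    rw [Set.disjoint_left]
    rintro e ⟨he, v, hv, hve⟩ ⟨_, u, hu, hue⟩
    exact hrow e he v hv u hu hve hue
  rw [e0, sdiff_empty] at r0
  -- cardinalities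
  have c1 : ((S \ c) \ RS S row W).ncard + ((S \ c) ∩ RS S row W).ncard = (S \ c).ncard := by
    rw [add_comm]
    exact ncard_inter_add_ncard_sdiff_eq_ncard _ _ (hSf.subset sdiff_subset)
  have c2 : ((S \ c) \ RS S row Y).ncard + ((S \ c) ∩ RS S row Y).ncard = (S \ c).ncard := by
    rw [add_comm]
    exact ncard_inter_add_ncard_sdiff_eq_ncard _ _ (hSf.subset sdiff_subset)
  have c3 : ((S \ c) \ RS S row (W ∪ Y)).ncard + ((S \ c) ∩ RS S row (W ∪ Y)).ncard =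
      (S \ c).ncard := by
    rw [add_comm]
    exact ncard_inter_add_ncard_sdiff_eq_ncard _ _ (hSf.subset sdiff_subset)
  have c4 : ((S \ c) ∩ RS S row (W ∪ Y)).ncard = ((S \ c) ∩ RS S row W).ncard +
      ((S \ c) ∩ RS S row Y).ncard := by
    rw [e3, inter_union_distrib_left]
    refine ncard_union_eq ?_ (hSf.subset (inter_subset_left.trans sdiff_subset))
      (hSf.subset (inter_subset_left.trans sdiff_subset))
    exact hdis.mono inter_subset_right inter_subset_right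
  have d1 := ncard_sdiff_add_ncard_of_subset hWV hVf
  have d2 := ncard_sdiff_add_ncard_of_subset hYV hVf
  have d3 := ncard_sdiff_add_ncard_of_subset (union_subset hWV hYV) hVf
  have d4 : (W ∪ Y).ncard = W.ncard + Y.ncard :=
    ncard_union_eq hWY (hVf.subset hWV) (hVf.subset hYV)
  rw [sdiff_empty, sdiff_empty] at r0
  -- submodularity
  have s1 := rk_submod P ((S \ D) \ RS S row W) (S \ RS S row Y)
  have s2 : rk P (S \ RS S row (W ∪ Y)) ≤
      rk P ((S \ D) \ RS S row W ∩ (S \ RS S row Y)) := by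
    refine rk_mono P ?_
    rw [e3]
    rintro e ⟨he, he2⟩
    exact ⟨⟨⟨he, fun h1 => he2 (Or.inr (hD h1))⟩, fun h1 => he2 (Or.inl h1)⟩, he,
      fun h1 => he2 (Or.inr h1)⟩
  have s3 : rk P (S \ D) ≤ rk P ((S \ D) \ RS S row W ∪ (S \ RS S row Y)) := by
    refine rk_mono P ?_
    rintro e ⟨he, he2⟩
    by_cases h1 : e ∈ RS S row W
    · exact Or.inr ⟨he, Set.disjoint_left.1 hdis h1⟩
    · exact Or.inl ⟨⟨he, he2⟩, h1⟩
  omega

/-! ### Far apart boxes -/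

/-- the union of the boxes `q` (centre and radius) -/
def BX (Q : Set ((ℕ × ℕ) × ℕ)) : Set (ℕ × ℕ) := {v | ∃ q ∈ Q, sd v q.1 ≤ q.2}

/-- deep, far apart boxes -/
structure HQ (w : ℕ) (Q : Set ((ℕ × ℕ) × ℕ)) : Prop where
  deep : ∀ q ∈ Q, q.2 + 3 ≤ q.1.1 ∧ q.1.1 + q.2 + 3 ≤ w ∧ q.2 + 3 ≤ q.1.2 ∧ q.1.2 + q.2 + 3 ≤ w
  far : ∀ q ∈ Q, ∀ q' ∈ Q, q ≠ q' → q.2 + q'.2 + 3 ≤ sd q.1 q'.1

lemma HQ.mono {Q Q' : Set ((ℕ × ℕ) × ℕ)} (h : HQ w Q) (hQ : Q' ⊆ Q) : HQ w Q' :=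
  ⟨fun q hq => h.deep q (hQ hq), fun q hq q' hq' => h.far q (hQ hq) q' (hQ hq')⟩

lemma HQ.bd {Q : Set ((ℕ × ℕ) × ℕ)} (h : HQ w Q) {v : ℕ × ℕ} (hv : v ∈ BX Q) :
    3 ≤ v.1 ∧ v.1 + 3 ≤ w ∧ 3 ≤ v.2 ∧ v.2 + 3 ≤ w := by
  obtain ⟨q, hq, hvq⟩ := hv
  have h1 := h.deep q hq
  rw [sd_le] at hvq
  omega

lemma HQ.sub {Q : Set ((ℕ × ℕ) × ℕ)} (h : HQ w Q) : BX Q ⊆ rect 0 0 (w + 1) (w + 1) := by
  intro v hv
  have := h.bd hv
  rw [Gad.mem_rct]
  omega

lemma HQ.full {Q : Set ((ℕ × ℕ) × ℕ)} (h : HQ w Q) (hw : 4 ≤ w) {c : Set α}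
    (hW : WallE c row w ∅) : ∃ F, FullB c row (rect 0 0 (w + 1) (w + 1) \ BX Q) F := by
  refine wall_rects hw (BX Q) (fun v hv => ?_) ?_ ?_
  · have := h.bd hv
    omega
  · rintro x y ⟨q, hq, hvq⟩ h2
    have h1 : ¬ sd (x + 1, y) q.1 ≤ q.2 := fun h3 => h2 ⟨q, hq, h3⟩
    rw [sd_le] at hvq h1
    simp only at hvq h1
    refine ⟨?_, ?_, ?_⟩ <;> rintro ⟨q', hq', hvq'⟩ <;> rw [sd_le] at hvq' <;>
      simp only at hvq' <;> by_cases h3 : q = q'
    all_goals first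
      | (subst h3; omega)
      | (have h4 := h.far q hq q' hq' h3
         have h5 : sd q.1 q'.1 ≤ q.2 + q'.2 + 2 := by
           rw [sd_le]
           omega
         omega)
  · intro p q hpq hp hq
    exact hW.surj p q hpq hp.1 hq.1 (notMem_empty _)

/-- invisible boxes -/
theorem RWal.noloc_bx [P.Finite] (h : RWal P S row w) (hw : 4 ≤ w) {Q : Set ((ℕ × ℕ) × ℕ)}
    (hQ : HQ w Q) {x : α} (hx : x ∈ P.closure S)
    (hloc : ∀ c, c ⊆ S → WallE c row w ∅ → ∀ v ∈ BX Q, v ∉ LocR P S row c x) :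
    x ∈ P.closure (S \ RS S row (BX Q)) := by
  refine h.noloc (fun c _ hW => hQ.full hw hW) ⟨(0, 0), ?_, fun h0 => ?_⟩ hx hloc
  · rw [Gad.mem_rct]
    simp
  · have := (hQ.bd h0).1
    simp at this

/-- **Decoupling** of boxes. -/
theorem RWx.dec_bx [P.Finite] (h : RWx P S row w) (hw : 4 ≤ w) {Q₁ Q₂ : Set ((ℕ × ℕ) × ℕ)}
    (hQ : HQ w (Q₁ ∪ Q₂)) (hd : Disjoint Q₁ Q₂) {D : Set α} (hD : D ⊆ RS S row (BX Q₂)) :
    rk P (S \ D) + rk P (S \ RS S row (BX Q₁)) ≤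
      rk P S + rk P ((S \ D) \ RS S row (BX Q₁)) := by
  obtain ⟨c, hc, hW⟩ := exists_repW h.toRWal
  have h1 : HQ w Q₁ := hQ.mono subset_union_left
  have h2 : HQ w Q₂ := hQ.mono subset_union_right
  have h0 : HQ w (∅ : Set ((ℕ × ℕ) × ℕ)) := hQ.mono (empty_subset _)
  have e0 : BX (∅ : Set ((ℕ × ℕ) × ℕ)) = ∅ := by
    ext v
    simp [BX]
  have e3 : BX (Q₁ ∪ Q₂) = BX Q₁ ∪ BX Q₂ := by
    ext v
    constructor
    · rintro ⟨q, hq | hq, hv⟩
      · exact Or.inl ⟨q, hq, hv⟩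
      · exact Or.inr ⟨q, hq, hv⟩
    · rintro (⟨q, hq, hv⟩ | ⟨q, hq, hv⟩)
      · exact ⟨q, Or.inl hq, hv⟩
      · exact ⟨q, Or.inr hq, hv⟩
  have hfar : ∀ v ∈ BX Q₁, ∀ u ∈ BX Q₂, ¬ sd v u ≤ 1 := by
    rintro v ⟨q, hq, hv⟩ u ⟨q', hq', hu⟩ huv
    have hne : q ≠ q' := fun h3 => Set.disjoint_left.1 hd hq (h3 ▸ hq')
    have h4 := hQ.far q (Or.inl hq) q' (Or.inr hq') hne
    have h5 : sd q.1 q'.1 ≤ q.2 + q'.2 + 2 := by
      rw [sd_le] at hv hu huv ⊢
      omega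
    omega
  refine h.dec hc hW h1.sub h2.sub ?_ ?_ (e0 ▸ h0.full hw hW) (h1.full hw hW) (h2.full hw hW)
    (e3 ▸ hQ.full hw hW) hD
  · rw [Set.disjoint_left]
    intro v hv hv'
    refine hfar v hv v hv' ?_
    rw [sd_le]
    omega
  · intro e he v hv u hu hve hue
    refine hfar v hv u hu ?_
    obtain ⟨p, q, h3, h4, _⟩ := h.mem e he
    rw [h3, Sym2.mem_iff] at hve hue
    unfold wadj at h4
    rw [sd_le]
    rcases hve with rfl | rfl <;> rcases hue with rfl | rfl <;> omega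

end

end DA
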