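import Pool.Agent.DA.Heal
import Pool.Agent.DA.SetOmRowsW
import Pool.Agent.DA.RWx

/-!
# Locations in a healed wall
-/

open Set BIC BICS
open scoped Matroid

namespace DA

open Gad

universe u

/-- no vertex of `Hs` is at distance at most `1` -/
def Off (Hs : Finset (ℕ × ℕ)) (v : ℕ × ℕ) : Prop := ∀ x ∈ Hs, 1 < sd v x

section

variable {α β : Type*} {P : Matroid α} {S : Set α} {row : α → Sym2 (ℕ × ℕ)} {w : ℕ}
  {Hs : Finset (ℕ × ℕ)} {P' : Matroid β} {j : α → β} {S' New : Set β}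
  {row' : β → Sym2 (ℕ × ℕ)} {Λ : Set α}

/-- the representatives in the healed wall -/
def tr (S : Set α) (row : α → Sym2 (ℕ × ℕ)) (Hs : Finset (ℕ × ℕ)) (j : α → β) (New : Set β)
    (c : Set α) : Set β := j '' (c \ Tch S row Hs) ∪ New

lemma Healed.new_iff (h : Healed P S row w Hs P' j S' New row' Λ) {e : β} (he : e ∈ S') :
    e ∈ New ↔ ∃ v ∈ row' e, v ∈ Hs := by
  refine ⟨h.row_new e, ?_⟩
  rintro ⟨v, hv, hvH⟩
  rw [h.S_eq] at he
  rcases he with ⟨a, ha, rfl⟩ | he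
  · rw [h.row_old a ha] at hv
    exact absurd ⟨ha.1, v, hv, hvH⟩ ha.2
  · exact he

lemma Healed.tr_sub (h : Healed P S row w Hs P' j S' New row' Λ) {c : Set α} (hc : c ⊆ S) :
    tr S row Hs j New c ⊆ S' := by
  rw [h.S_eq]
  exact union_subset_union_left _ (image_mono (sdiff_subset_sdiff_left hc))

lemma Healed.new_sub (h : Healed P S row w Hs P' j S' New row' Λ) : New ⊆ S' := by
  rw [h.S_eq]
  exact subset_union_right

lemma Healed.tr_wall (h : Healed P S row w Hs P' j S' New row' Λ) {c : Set α} (hc : c ⊆ S)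
    (hW : WallE c row w ∅) : WallE (tr S row Hs j New c) row' w ∅ := by
  have hold : ∀ a ∈ c \ Tch S row Hs, row' (j a) = row a ∧ ∀ v ∈ row' (j a), v ∉ Hs := by
    intro a ha
    have h1 := h.row_old a ⟨hc ha.1, ha.2⟩
    refine ⟨h1, fun v hv hvH => ha.2 ⟨hc ha.1, v, ?_, hvH⟩⟩
    rw [← h1]
    exact hv
  refine ⟨?_, fun e he => h.wal.mem e (h.tr_sub hc he), ?_⟩
  · rintro e he e' he' hee
    rcases he with ⟨a, ha, rfl⟩ | he <;> rcases he' with ⟨a', ha', rfl⟩ | he'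
    · rw [(hold a ha).1, (hold a' ha').1] at hee
      rw [hW.inj ha.1 ha'.1 hee]
    · obtain ⟨v, hv, hvH⟩ := h.row_new _ he'
      rw [← hee] at hv
      exact absurd hvH ((hold a ha).2 v hv)
    · obtain ⟨v, hv, hvH⟩ := h.row_new _ he
      rw [hee] at hv
      exact absurd hvH ((hold a' ha').2 v hv)
    · exact h.inj_new he he' hee
  · intro p q hpq hp hq _
    obtain ⟨e, he, hee⟩ := h.wal.surj p q hpq hp hq
    by_cases hN : e ∈ New
    · exact ⟨e, Or.inr hN, hee⟩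
    · rw [h.S_eq] at he
      rcases he with ⟨a, ha, rfl⟩ | he
      · rw [h.row_old a ha] at hee
        obtain ⟨b, hb, hbe⟩ := hW.surj p q hpq hp hq (notMem_empty _)
        have hbT : b ∉ Tch S row Hs := by
          rintro ⟨_, v, hv, hvH⟩
          rw [hbe, ← hee] at hv
          exact ha.2 ⟨ha.1, v, hv, hvH⟩
        refine ⟨j b, Or.inl ⟨b, ⟨hb, hbT⟩, rfl⟩, ?_⟩
        rw [h.row_old b ⟨hc hb, hbT⟩, hbe]
      · exact absurd he hN

lemma Healed.tr_back (h : Healed P S row w Hs P' j S' New row' Λ) {c' : Set β} (hc' : c' ⊆ S')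
    (hW' : WallE c' row' w ∅) {c₀ : Set α} (hc₀ : c₀ ⊆ S) (hW₀ : WallE c₀ row w ∅) :
    ∃ c, c ⊆ S ∧ WallE c row w ∅ ∧ tr S row Hs j New c = c' ∧
      (∀ e ∈ Tch S row Hs, (e ∈ c ↔ e ∈ c₀)) ∧ ∀ e ∈ S \ Tch S row Hs, (e ∈ c ↔ j e ∈ c') := by
  have hT : ∀ a ∈ S \ Tch S row (Hs : Set (ℕ × ℕ)), ∀ v ∈ row a, v ∉ Hs := fun a ha v hv hvH =>
    ha.2 ⟨ha.1, v, hv, hvH⟩
  obtain ⟨c, hcd⟩ : ∃ c : Set α, c = {a | (a ∈ S \ Tch S row Hs ∧ j a ∈ c') ∨
      (a ∈ Tch S row Hs ∧ a ∈ c₀)} := ⟨_, rfl⟩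
  have hcS : c ⊆ S := by
    rw [hcd]
    rintro a (ha | ha)
    · exact ha.1.1
    · exact ha.1.1
  have hNew : New ⊆ c' := by
    intro e he
    obtain ⟨p, q, h1, h2, h3, h4⟩ := h.wal.mem e (h.new_sub he)
    obtain ⟨e', he', hee⟩ := hW'.surj p q h2 h3 h4 (notMem_empty _)
    have h5 : e' ∈ New := by
      rw [h.new_iff (hc' he'), hee, ← h1]
      exact h.row_new e he
    rw [h.inj_new he h5 (by rw [h1, hee])]
    exact he'
  have hT1 : ∀ e ∈ Tch S row Hs, (e ∈ c ↔ e ∈ c₀) := by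
    intro e he
    rw [hcd]
    exact ⟨fun h1 => h1.elim (fun h2 => absurd he h2.1.2) (fun h2 => h2.2), fun h1 =>
      Or.inr ⟨he, h1⟩⟩
  have hT2 : ∀ e ∈ S \ Tch S row Hs, (e ∈ c ↔ j e ∈ c') := by
    intro e he
    rw [hcd]
    exact ⟨fun h1 => h1.elim (fun h2 => h2.2) (fun h2 => absurd h2.1 he.2), fun h1 =>
      Or.inl ⟨he, h1⟩⟩
  refine ⟨c, hcS, ⟨?_, ?_, ?_⟩, ?_, hT1, hT2⟩
  · intro a ha b hb hab
    by_cases haT : a ∈ Tch S row Hs
    · have hbT : b ∈ Tch S row Hs := by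
        obtain ⟨_, v, hv, hvH⟩ := haT
        exact ⟨hcS hb, v, by rw [← hab]; exact hv, hvH⟩
      exact hW₀.inj ((hT1 a haT).1 ha) ((hT1 b hbT).1 hb) hab
    · have hbT : b ∉ Tch S row Hs := by
        rintro ⟨_, v, hv, hvH⟩
        exact haT ⟨hcS ha, v, by rw [hab]; exact hv, hvH⟩
      refine h.inj (hW'.inj ((hT2 a ⟨hcS ha, haT⟩).1 ha) ((hT2 b ⟨hcS hb, hbT⟩).1 hb) ?_)
      rw [h.row_old a ⟨hcS ha, haT⟩, h.row_old b ⟨hcS hb, hbT⟩, hab]
  · intro a ha
    by_cases haT : a ∈ Tch S row Hs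
    · exact hW₀.mem a ((hT1 a haT).1 ha)
    · have h1 := hW'.mem _ ((hT2 a ⟨hcS ha, haT⟩).1 ha)
      rw [h.row_old a ⟨hcS ha, haT⟩] at h1
      exact h1
  · intro p q hpq hp hq _
    obtain ⟨a, ha, hae⟩ := hW₀.surj p q hpq hp hq (notMem_empty _)
    by_cases haT : a ∈ Tch S row Hs
    · exact ⟨a, (hT1 a haT).2 ha, hae⟩
    · obtain ⟨e, he, hee⟩ := hW'.surj p q hpq hp hq (notMem_empty _)
      have heS := hc' he
      rw [h.S_eq] at heS
      rcases heS with ⟨b, hb, rfl⟩ | heS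
      · rw [h.row_old b hb] at hee
        exact ⟨b, (hT2 b hb).2 he, hee⟩
      · obtain ⟨v, hv, hvH⟩ := h.row_new _ heS
        rw [hee, ← hae] at hv
        exact absurd ⟨hc₀ ha, v, hv, hvH⟩ haT
  · ext e
    constructor
    · rintro (⟨a, ha, rfl⟩ | he)
      · exact (hT2 a ⟨hcS ha.1, ha.2⟩).1 ha.1
      · exact hNew he
    · intro he
      have heS := hc' he
      rw [h.S_eq] at heS
      rcases heS with ⟨b, hb, rfl⟩ | heS
      · exact Or.inl ⟨b, ⟨(hT2 b hb).2 he, hb.2⟩, rfl⟩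
      · exact Or.inr heS

/-- a row at a vertex off the windows does not touch them -/
lemma off_row {s : Sym2 (ℕ × ℕ)} {p q v : ℕ × ℕ} (hs : s = s(p, q)) (hpq : wadj p q)
    (hv : v ∈ s) (hoff : Off Hs v) : ∀ x ∈ s, x ∉ Hs := by
  intro x hx hxH
  have h1 := hoff x hxH
  have h2 : sd p q ≤ 1 := by
    rw [sd_le]
    unfold wadj at hpq
    omega
  rw [hs, Sym2.mem_iff] at hv hx
  rcases hv with rfl | rfl <;> rcases hx with rfl | rfl
  · rw [sd_self] at h1
    omega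
  · omega
  · rw [sd_comm] at h1
    omega
  · rw [sd_self] at h1
    omega

lemma Healed.star_eq (h : Healed P S row w Hs P' j S' New row' Λ) {c : Set α}
    (hW : WallE c row w ∅) {v : ℕ × ℕ} (hoff : Off Hs v) :
    S' \ {e | e ∈ tr S row Hs j New c ∧ v ∈ row' e} =
      j '' ((S \ {e | e ∈ c ∧ v ∈ row e}) \ Tch S row Hs) ∪ New ∧
    Tch S row Hs ⊆ S \ {e | e ∈ c ∧ v ∈ row e} := by
  constructor
  · rw [h.S_eq]
    ext e
    constructor
    · rintro ⟨⟨a, ha, rfl⟩ | he, h1⟩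
      · refine Or.inl ⟨a, ⟨⟨ha.1, fun h2 => h1 ⟨Or.inl ⟨a, ⟨h2.1, ha.2⟩, rfl⟩, ?_⟩⟩, ha.2⟩, rfl⟩
        rw [h.row_old a ha]
        exact h2.2
      · exact Or.inr he
    · rintro (⟨a, ha, rfl⟩ | he)
      · refine ⟨Or.inl ⟨a, ⟨ha.1.1, ha.2⟩, rfl⟩, ?_⟩
        rintro ⟨⟨b, hb, hba⟩ | h1, h2⟩
        · have hab := h.inj hba
          subst hab
          rw [h.row_old b ⟨ha.1.1, ha.2⟩] at h2
          exact ha.1.2 ⟨hb.1, h2⟩
        · exact h.new a h1
      · refine ⟨Or.inr he, ?_⟩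
        rintro ⟨_, h2⟩
        obtain ⟨p, q, h3, h4, _⟩ := h.wal.mem e (h.new_sub he)
        obtain ⟨x, hx, hxH⟩ := h.row_new e he
        exact off_row h3 h4 h2 hoff x hx hxH
  · intro e he
    refine ⟨he.1, fun h1 => ?_⟩
    obtain ⟨p, q, h3, h4, _⟩ := hW.mem e h1.1
    obtain ⟨_, x, hx, hxH⟩ := he
    exact off_row h3 h4 h1.2 hoff x hx hxH

/-- The half edges have no location off the windows. -/
lemma Healed.lam_star (h : Healed P S row w Hs P' j S' New row' Λ) {c' : Set β} (hc' : c' ⊆ S')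
    (hW' : WallE c' row' w ∅) {v : ℕ × ℕ} (hoff : Off Hs v)
    (hv : DeepR (0, 0) (w + 1) (w + 1) 4 v) :
    j '' Λ ⊆ P'.closure (S' \ {e | e ∈ c' ∧ v ∈ row' e}) := by
  unfold DeepR at hv
  simp only at hv
  obtain ⟨F, hF⟩ := wall_full (S := c') (ends := row') (w := w)
    {x | (x.1 + 1, x.2) = v} {v} v.2 (by
      intro x hx
      have h1 := congrArg Prod.fst (show (x.1 + 1, x.2) = v from hx)
      have h2 := congrArg Prod.snd (show (x.1 + 1, x.2) = v from hx)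
      simp only at h1 h2
      omega) (by omega) (by
      intro x hx
      rw [mem_singleton_iff] at hx
      subst hx
      omega) (fun x y hxy => hxy) (by
      intro p q hpq hp hq _ _
      exact hW'.surj p q hpq hp.1 hq.1 (notMem_empty _))
  have hΛ := h.lam hc' hW' ((Gad.rect_finite _ _ _ _).subset sdiff_subset) hF (by
    rintro x _ ⟨y, hy, hxy⟩ hx
    refine ⟨hx, ?_⟩
    rw [mem_singleton_iff]
    rintro rfl
    have h1 := hoff y hy
    have h2 : sd x y ≤ 1 := by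
      rw [sd_le]
      unfold wadj at hxy
      omega
    omega)
  refine hΛ.trans (P'.closure_subset_closure ?_)
  rintro e (he | he)
  · exact ⟨he.1, fun h1 => he.2 h1.1⟩
  · have h1 := hF.1 he
    refine ⟨hc' h1.1, fun h2 => ?_⟩
    exact (h1.2 v h2.2).2 rfl

/-- **Locations off the windows are the same.** -/
theorem Healed.loc [P.Finite] (h : Healed P S row w Hs P' j S' New row' Λ) (hS : S ⊆ P.E)
    {c : Set α} (hc : c ⊆ S) (hW : WallE c row w ∅) {v : ℕ × ℕ} (hoff : Off Hs v)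
    (hv : DeepR (0, 0) (w + 1) (w + 1) 4 v) {z : α} (hz : z ∈ P.E) (hzT : z ∉ Tch S row Hs) :
    v ∈ LocR P' S' row' (tr S row Hs j New c) (j z) ↔ v ∈ LocR P S row c z := by
  have hf := h.fin
  obtain ⟨e1, e2⟩ := h.star_eq hW hoff
  have hc' := h.tr_sub (c := c) hc
  have hW' := h.tr_wall hc hW
  have hΛ' := h.lam_star hc' hW' hoff hv
  rw [e1] at hΛ'
  have key := h.clo hS (X := S \ {e | e ∈ c ∧ v ∈ row e}) (sdiff_subset.trans hS) hΛ' hz hzT
  rw [union_eq_self_of_subset_right e2] at key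
  show j z ∉ P'.closure (S' \ {e | e ∈ tr S row Hs j New c ∧ v ∈ row' e}) ↔
    z ∉ P.closure (S \ {e | e ∈ c ∧ v ∈ row e})
  rw [e1, key]

/-- **Rows off the windows which are seen are the same.** -/
theorem Healed.seen [P.Finite] (h : Healed P S row w Hs P' j S' New row' Λ) (hS : S ⊆ P.E)
    {c : Set α} (hc : c ⊆ S) (hW : WallE c row w ∅) {p q : ℕ × ℕ} (hpq : wadj p q)
    (hoff : Off Hs p) (hp : DeepR (0, 0) (w + 1) (w + 1) 4 p) {z : α} (hz : z ∈ P.E)
    (hzT : z ∉ Tch S row Hs) :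
    Seen P' S' row' (j z) s(p, q) ↔ Seen P S row z s(p, q) := by
  have hf := h.fin
  have hc' := h.tr_sub (c := c) hc
  have hW' := h.tr_wall hc hW
  have hno : ∀ x ∈ s(p, q), x ∉ Hs := off_row rfl hpq (Sym2.mem_mk_left _ _) hoff
  have e1 : S' \ {e | e ∈ S' ∧ row' e = s(p, q)} =
      j '' ((S \ {e | e ∈ S ∧ row e = s(p, q)}) \ Tch S row Hs) ∪ New := by
    ext e
    constructor
    · rintro ⟨he, h1⟩
      have he' := he
      rw [h.S_eq] at he'
      rcases he' with ⟨a, ha, rfl⟩ | he'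
      · refine Or.inl ⟨a, ⟨⟨ha.1, fun h2 => h1 ⟨he, ?_⟩⟩, ha.2⟩, rfl⟩
        rw [h.row_old a ha]
        exact h2.2
      · exact Or.inr he'
    · rintro (⟨a, ha, rfl⟩ | he)
      · refine ⟨by rw [h.S_eq]; exact Or.inl ⟨a, ⟨ha.1.1, ha.2⟩, rfl⟩, ?_⟩
        rintro ⟨_, h2⟩
        rw [h.row_old a ⟨ha.1.1, ha.2⟩] at h2
        exact ha.1.2 ⟨ha.1.1, h2⟩
      · refine ⟨h.new_sub he, ?_⟩
        rintro ⟨_, h2⟩
        obtain ⟨x, hx, hxH⟩ := h.row_new e he
        rw [h2] at hx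
        exact hno x hx hxH
  have e2 : Tch S row Hs ⊆ S \ {e | e ∈ S ∧ row e = s(p, q)} := by
    rintro e ⟨he, x, hx, hxH⟩
    refine ⟨he, fun h1 => ?_⟩
    rw [h1.2] at hx
    exact hno x hx hxH
  have hpr : p ∈ rect 0 0 (w + 1) (w + 1) := by
    unfold DeepR at hp
    simp only at hp
    rw [Gad.mem_rct]
    omega
  have hΛ : j '' Λ ⊆ P'.closure (S' \ {e | e ∈ S' ∧ row' e = s(p, q)}) := by
    rintro x hx
    have h1 : x ∈ P'.closure (S' \ RS S' row' {p}) := by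
      refine h.wal.noloc ?_ ?_ ?_ ?_
      · intro c₁ hc₁ hW₁
        unfold DeepR at hp
        simp only at hp
        exact wall_full (S := c₁) (ends := row') (w := w)
          {x | (x.1 + 1, x.2) = p} {p} p.2 (by
            intro x hx
            have h1 := congrArg Prod.fst (show (x.1 + 1, x.2) = p from hx)
            have h2 := congrArg Prod.snd (show (x.1 + 1, x.2) = p from hx)
            simp only at h1 h2
            omega) (by omega) (by
            intro x hx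
            rw [mem_singleton_iff] at hx
            subst hx
            omega) (fun x y hxy => hxy) (by
            intro p q hpq hp hq _ _
            exact hW₁.surj p q hpq hp.1 hq.1 (notMem_empty _))
      · refine ⟨(0, 0), ?_, ?_⟩
        · rw [Gad.mem_rct]
          omega
        · rw [mem_singleton_iff]
          rintro rfl
          unfold DeepR at hp
          simp only at hp
          omega
      · exact P'.closure_subset_closure sdiff_subset (h.lam_star hc' hW' hoff hp hx)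
      · intro c₁ hc₁ hW₁ v hv hloc
        rw [mem_singleton_iff] at hv
        subst hv
        exact hloc (h.lam_star hc₁ hW₁ hoff hp hx)
    refine P'.closure_subset_closure ?_ h1
    rintro e ⟨he, he'⟩
    refine ⟨he, fun h2 => he' ⟨he, p, rfl, ?_⟩⟩
    rw [h2.2]
    exact Sym2.mem_mk_left _ _
  rw [e1] at hΛ
  have key := h.clo hS (X := S \ {e | e ∈ S ∧ row e = s(p, q)}) (sdiff_subset.trans hS) hΛ hz hzT
  rw [union_eq_self_of_subset_right e2] at key
  show j z ∉ P'.closure (S' \ {e | e ∈ S' ∧ row' e = s(p, q)}) ↔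
    z ∉ P.closure (S \ {e | e ∈ S ∧ row e = s(p, q)})
  rw [e1, key]

/-- the closure of the wall -/
theorem Healed.clS [P.Finite] (h : Healed P S row w Hs P' j S' New row' Λ) (hS : S ⊆ P.E)
    {c : Set α} (hc : c ⊆ S) (hW : WallE c row w ∅) {v : ℕ × ℕ} (hoff : Off Hs v)
    (hv : DeepR (0, 0) (w + 1) (w + 1) 4 v) {z : α} (hz : z ∈ P.E) (hzT : z ∉ Tch S row Hs) :
    j z ∈ P'.closure S' ↔ z ∈ P.closure S := by
  have hf := h.fin
  have hΛ := (h.lam_star (h.tr_sub hc) (h.tr_wall hc hW) hoff hv).trans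
    (P'.closure_subset_closure sdiff_subset)
  rw [h.S_eq] at hΛ
  have key := h.clo hS (X := S) hS hΛ hz hzT
  have e2 : S ∪ Tch S row (Hs : Set (ℕ × ℕ)) = S := union_eq_self_of_subset_right fun e he => he.1
  rw [e2] at key
  rw [h.S_eq, key]

end

end DA
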