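import Pool.Agent.DA.HealLoc

/-!
# Two locations outside of a bounded set: lifted walls and walls with windows
-/

open Set BIC BICS
open scoped Matroid

namespace DA

open Gad

universe u

/-- the vertices near the windows -/
lemma near_fin (Hs : Finset (ℕ × ℕ)) : ∃ N : Finset (ℕ × ℕ), N.card ≤ 9 * Hs.card ∧
    ∀ v, ¬ Off Hs v → v ∈ N := by
  classical
  refine ⟨Hs.biUnion fun x => Finset.Icc (x.1 - 1) (x.1 + 1) ×ˢ Finset.Icc (x.2 - 1) (x.2 + 1),
    ?_, ?_⟩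
  · refine (Finset.card_biUnion_le_card_mul _ _ 9 ?_).trans (by omega)
    intro x _
    rw [Finset.card_product, Nat.card_Icc, Nat.card_Icc]
    have h1 : x.1 + 1 + 1 - (x.1 - 1) ≤ 3 := by omega
    have h2 : x.2 + 1 + 1 - (x.2 - 1) ≤ 3 := by omega
    exact Nat.mul_le_mul h1 h2
  · intro v hv
    unfold Off at hv
    push Not at hv
    obtain ⟨x, hx, h1⟩ := hv
    rw [sd_le] at h1
    rw [Finset.mem_biUnion]
    refine ⟨x, hx, ?_⟩
    rw [Finset.mem_product, Finset.mem_Icc, Finset.mem_Icc]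
    omega

/-- representatives -/
lemma LWal.exists_rep {α : Type*} {P : Matroid α} {S : Set α} {row : α → Sym2 (ℕ × ℕ)} {w : ℕ}
    {Hs : Finset (ℕ × ℕ)} (hL : LWal P S row w Hs) : ∃ c, c ⊆ S ∧ WallE c row w ∅ := by
  classical
  have hg : ∀ s : Sym2 (ℕ × ℕ), ∃ e : Option α, ∀ x ∈ S, row x = s →
      ∃ y, e = some y ∧ y ∈ S ∧ row y = s := by
    intro s
    by_cases hs : ∃ x ∈ S, row x = s
    · obtain ⟨x, hx, hxs⟩ := hs
      exact ⟨some x, fun _ _ _ => ⟨x, rfl, hx, hxs⟩⟩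
    · exact ⟨none, fun x hx hxs => absurd ⟨x, hx, hxs⟩ hs⟩
  choose g hg using hg
  refine ⟨{e | e ∈ S ∧ g (row e) = some e}, fun e he => he.1, ?_, ?_, ?_⟩
  · intro e he e' he' hee
    have h1 := he.2
    have h2 := he'.2
    rw [hee] at h1
    rw [h1] at h2
    exact Option.some.inj h2
  · intro e he
    exact hL.mem e he.1
  · intro p q hpq hp hq _
    obtain ⟨e, he, h1⟩ := hL.surj p q hpq hp hq
    obtain ⟨y, h2, h3, h4⟩ := hg _ e he h1
    exact ⟨y, ⟨h3, by rw [h4]; exact h2⟩, h4⟩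

/-- **Two locations outside of a bounded set, for lifted walls and walls with windows.** -/
theorem setOmRowsL (k β D h : ℕ) : ∃ r δ : ℕ, ∀ {α : Type u} (P : Matroid α) [P.Finite]
    (S : Set α) (row : α → Sym2 (ℕ × ℕ)) (w : ℕ) (Hs : Finset (ℕ × ℕ)), Hs.card ≤ h →
    LWal P S row w Hs →
    HasUniformMinor P k ∨ ∃ Om : Finset (ℕ × ℕ), Hs ⊆ Om ∧ Om.card ≤ r ∧
      ∀ z ∈ P.closure S, z ∉ S →
      (∃ N : Finset (ℕ × ℕ), N.card ≤ β ∧ ∀ c, c ⊆ S → WallE c row w ∅ →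
        ∀ v ∈ LocR P S row c z, DeepR (0, 0) (w + 1) (w + 1) D v → Off Hs v → v ∈ N) →
      (∀ c, c ⊆ S → WallE c row w ∅ → ∀ A : Finset (ℕ × ℕ),
        (∀ v ∈ A, v ∈ LocR P S row c z ∧ DeepR (0, 0) (w + 1) (w + 1) δ v ∧
          ∀ u ∈ Om, Apart δ v u) →
        A.card ≤ 2 ∨ ∃ v₀, (A : Set (ℕ × ℕ)) ⊆ star v₀ ∧ star v₀ ⊆ LocR P S row c z) ∧
      ∀ A : Finset (Sym2 (ℕ × ℕ)), (∀ a ∈ A, ∃ p q, a = s(p, q) ∧ wadj p q ∧ Seen P S row z a ∧
        DeepR (0, 0) (w + 1) (w + 1) δ p ∧ DeepR (0, 0) (w + 1) (w + 1) δ q ∧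
        ∀ u ∈ Om, Apart δ p u ∧ Apart δ q u) →
        A.card ≤ 2 ∨ ∃ v₀, (∀ a ∈ A, v₀ ∈ a) ∧ ∀ c, c ⊆ S → WallE c row w ∅ →
          ∃ c', c' ⊆ S ∧ WallE c' row w ∅ ∧ (∀ e ∈ S, v₀ ∉ row e → (e ∈ c' ↔ e ∈ c)) ∧
            star v₀ ⊆ LocR P S row c' z := by
  classical
  obtain ⟨K, hK⟩ := heal_hum.{u} k h
  obtain ⟨r, δ, hB2⟩ := setOmRowsW.{u} K (β + 9 * h) (D + 4)
  refine ⟨r + h, δ + 10, ?_⟩
  intro α P _ S row w Hs hHs hL
  obtain ⟨P', S', New, row', Λ, hH⟩ := heal P S row w Hs hL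
  have hf := hH.fin
  have hSE := hL.sub
  rcases hB2 P' S' row' w hH.wal with h1 | ⟨Om, hOm, h1⟩
  · exact Or.inl (hK P S row w Hs P' Sum.inl S' New row' Λ hHs hH h1)
  refine Or.inr ⟨Hs ∪ Om, Finset.subset_union_left, ?_, ?_⟩
  · have := Finset.card_union_le Hs Om
    omega
  obtain ⟨N₀, hN₀c, hN₀⟩ := near_fin Hs
  obtain ⟨c₀, hc₀, hW₀⟩ := hL.exists_rep
  intro z hz hzS hN
  have hzE : z ∈ P.E := P.closure_subset_ground _ hz
  have hzT : z ∉ Tch S row (Hs : Set (ℕ × ℕ)) := fun h2 => hzS h2.1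
  have hjS : (Sum.inl z : HT α) ∉ S' := by
    rw [hH.S_eq]
    rintro (⟨a, ha, hja⟩ | h2)
    · rw [hH.inj hja] at ha
      exact hzS ha.1
    · exact hH.new z h2
  -- vertices away from `Om` and the windows
  have hoff : ∀ v, (∀ u ∈ Hs ∪ Om, Apart (δ + 10) v u) → ∀ u, sd v u ≤ 6 → Off Hs u := by
    intro v h2 u h3 x hx
    have h4 := h2 x (Finset.mem_union_left _ hx)
    rw [apart_iff] at h4
    have h5 : sd v x ≤ sd v u + sd u x := sd_tri
    omega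
  have hdeep : ∀ v u, DeepR (0, 0) (w + 1) (w + 1) (δ + 10) v → sd v u ≤ 6 →
      DeepR (0, 0) (w + 1) (w + 1) 4 u := by
    intro v u h2 h3
    rw [sd_le] at h3
    unfold DeepR at h2 ⊢
    simp only at h2 ⊢
    omega
  have hstar : ∀ v₀ v u : ℕ × ℕ, v ∈ star v₀ → u ∈ star v₀ → sd v u ≤ 6 := by
    intro v₀ v u h2 h3
    have := star_near (v₀ := v₀) h3 h2
    omega
  -- the support in the healed wall
  obtain ⟨N, hNc, hN⟩ := hN
  have hN' : ∃ N' : Finset (ℕ × ℕ), N'.card ≤ β + 9 * h ∧ ∀ c, c ⊆ S' → WallE c row' w ∅ →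
      ∀ v ∈ LocR P' S' row' c (Sum.inl z), DeepR (0, 0) (w + 1) (w + 1) (D + 4) v → v ∈ N' := by
    refine ⟨N ∪ N₀, ?_, ?_⟩
    · have := Finset.card_union_le N N₀
      have : 9 * Hs.card ≤ 9 * h := Nat.mul_le_mul le_rfl hHs
      omega
    · intro c' hc' hW' v hv hvd
      rw [Finset.mem_union]
      by_cases hvo : Off Hs v
      · left
        obtain ⟨c, hc, hW, rfl, _⟩ := hH.tr_back hc' hW' hc₀ hW₀
        rw [hH.loc hSE hc hW hvo (by
          unfold DeepR at hvd ⊢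
          omega) hzE hzT] at hv
        refine hN c hc hW v hv ?_ hvo
        unfold DeepR at hvd ⊢
        omega
      · exact Or.inr (hN₀ v hvo)
  refine ⟨?_, ?_⟩
  · intro c hc hW A hA
    by_cases hA2 : A.card ≤ 2
    · exact Or.inl hA2
    obtain ⟨v, hv⟩ : A.Nonempty := by
      rw [← Finset.card_pos]
      omega
    have hvA := hA v hv
    have hzc := (hH.clS hSE hc hW (hoff v hvA.2.2 v (by rw [sd_self]; omega))
      (hdeep v v hvA.2.1 (by rw [sd_self]; omega)) hzE hzT).2 hz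
    have h2 := (h1 _ hzc hjS hN').1 _ (hH.tr_sub hc) (hH.tr_wall hc hW) A (by
      intro x hx
      obtain ⟨g1, g2, g3⟩ := hA x hx
      refine ⟨(hH.loc hSE hc hW (hoff x g3 x (by rw [sd_self]; omega))
        (hdeep x x g2 (by rw [sd_self]; omega)) hzE hzT).2 g1, ?_, fun u hu => ?_⟩
      · unfold DeepR at g2 ⊢
        omega
      · have g4 := g3 u (Finset.mem_union_right _ hu)
        rw [apart_iff] at g4 ⊢
        omega)
    rcases h2 with h2 | ⟨v₀, h2, h3⟩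
    · exact Or.inl h2
    · refine Or.inr ⟨v₀, h2, fun u hu => ?_⟩
      have h4 := hstar v₀ v u (h2 hv) hu
      exact (hH.loc hSE hc hW (hoff v hvA.2.2 u h4) (hdeep v u hvA.2.1 h4) hzE hzT).1 (h3 hu)
  · intro A hA
    by_cases hA2 : A.card ≤ 2
    · exact Or.inl hA2
    obtain ⟨a, ha⟩ : A.Nonempty := by
      rw [← Finset.card_pos]
      omega
    obtain ⟨p, q, hapq, hpq, _, hpd, _, hpf⟩ := hA a ha
    have hpo : ∀ u, sd p u ≤ 6 → Off Hs u := hoff p fun u hu => (hpf u hu).1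
    have hzc := (hH.clS hSE hc₀ hW₀ (hpo p (by rw [sd_self]; omega))
      (hdeep p p hpd (by rw [sd_self]; omega)) hzE hzT).2 hz
    have h2 := (h1 _ hzc hjS hN').2 A (by
      intro b hb
      obtain ⟨x, y, hbxy, hxy, g1, g2, g3, g4⟩ := hA b hb
      refine ⟨x, y, hbxy, hxy, ?_, ?_, ?_, fun u hu => ?_⟩
      · rw [hbxy] at g1 ⊢
        exact (hH.seen hSE hc₀ hW₀ hxy (hoff x (fun u hu => (g4 u hu).1) x
          (by rw [sd_self]; omega)) (hdeep x x g2 (by rw [sd_self]; omega)) hzE hzT).2 g1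
      · unfold DeepR at g2 ⊢
        omega
      · unfold DeepR at g3 ⊢
        omega
      · have g5 := g4 u (Finset.mem_union_right _ hu)
        rw [apart_iff, apart_iff] at g5 ⊢
        omega)
    rcases h2 with h2 | ⟨v₀, h2, h3⟩
    · exact Or.inl h2
    refine Or.inr ⟨v₀, h2, fun c hc hW => ?_⟩
    obtain ⟨c₁', hc₁', hW₁', h4, h5⟩ := h3 _ (hH.tr_sub hc) (hH.tr_wall hc hW)
    obtain ⟨c₁, hc₁, hW₁, rfl, h6, h7⟩ := hH.tr_back hc₁' hW₁' hc hW
    refine ⟨c₁, hc₁, hW₁, ?_, ?_⟩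
    · intro e he hve
      by_cases heT : e ∈ Tch S row (Hs : Set (ℕ × ℕ))
      · exact h6 e heT
      · rw [h7 e ⟨he, heT⟩, h4 (Sum.inl e) (by rw [hH.S_eq]; exact Or.inl ⟨e, ⟨he, heT⟩, rfl⟩)
          (by rw [hH.row_old e ⟨he, heT⟩]; exact hve)]
        constructor
        · rintro (⟨b, hb, hbe⟩ | h8)
          · rw [← hH.inj hbe]
            exact hb.1
          · exact absurd h8 (hH.new e)
        · intro h8
          exact Or.inl ⟨e, ⟨h8, heT⟩, rfl⟩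
    · have hv₀ : sd p v₀ ≤ 1 := by
        have h8 := h2 a ha
        rw [hapq, Sym2.mem_iff] at h8
        rcases h8 with rfl | rfl
        · rw [sd_self]
          omega
        · rw [sd_le]
          unfold wadj at hpq
          omega
      intro u hu
      have h8 : v₀ ∈ star v₀ := by
        unfold star
        simp
      have h9 := hstar v₀ v₀ u h8 hu
      have h10 : sd v₀ u ≤ 2 := star_near hu h8
      have h11 : sd p u ≤ sd p v₀ + sd v₀ u := sd_tri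
      exact (hH.loc hSE hc₁ hW₁ (hpo u (by omega)) (hdeep p u hpd (by omega)) hzE hzT).1 (h5 hu)

end DA
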