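import Pool.Agent.DA.In12
import Pool.Agent.DA.SetOmL

/-!
# IN0, IN1, IN2 for walls with windows

Transport of circuits of the star matroids and of the row matroids along `Healed`.
-/

open Set BIC BICS
open scoped Matroid

namespace DA

open Gad

universe u

/-- circuits are determined by ranks -/
lemma circ_of_rk {α β : Type*} {M : Matroid α} {M' : Matroid β} [M.Finite] [M'.Finite]
    {j : α → β} (hj : Function.Injective j) (hE : j '' M.E ⊆ M'.E)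
    (h : ∀ X ⊆ M.E, rk M' (j '' X) = rk M X) {C : Set α} (hC : M.IsCircuit C) :
    M'.IsCircuit (j '' C) := by
  have hind : ∀ X ⊆ M.E, (M'.Indep (j '' X) ↔ M.Indep X) := by
    intro X hX
    have h1 := h X hX
    have h2 : (j '' X).ncard = X.ncard := ncard_image_of_injective _ hj
    constructor
    · intro h3
      have h4 := rk_indep h3
      exact indep_of_rk hX (by omega)
    · intro h3
      have h4 := rk_indep h3
      exact indep_of_rk ((image_mono hX).trans hE) (by omega)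
  rw [Matroid.isCircuit_iff_dep_forall_sdiff_singleton_indep]
  refine ⟨⟨fun h1 => hC.dep.1 ((hind C hC.subset_ground).1 h1),
    (image_mono hC.subset_ground).trans hE⟩, ?_⟩
  rintro _ ⟨e, he, rfl⟩
  have h1 : j '' C \ {j e} = j '' (C \ {e}) := by
    rw [image_sdiff hj, image_singleton]
  rw [h1, hind _ (sdiff_subset.trans hC.subset_ground)]
  exact hC.sdiff_singleton_indep he

/-- the contracted rows, general form -/
def FG {α : Type*} (S : Set α) (row : α → Sym2 (ℕ × ℕ)) (c : Set α)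
    (A B : Sym2 (ℕ × ℕ) → Prop) : Set α :=
  (S \ {e | A (row e)}) \ {e | e ∈ c ∧ B (row e)}

section

variable {α β : Type*} {P : Matroid α} {S : Set α} {row : α → Sym2 (ℕ × ℕ)} {w : ℕ}
  {Hs : Finset (ℕ × ℕ)} {P' : Matroid β} {j : α → β} {S' New : Set β}
  {row' : β → Sym2 (ℕ × ℕ)} {Λ : Set α}

/-- A half edge has no location at a vertex which is not its end. -/
lemma Healed.lam_one (h : Healed P S row w Hs P' j S' New row' Λ) {c' : Set β} (hc' : c' ⊆ S')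
    (hW' : WallE c' row' w ∅) {v : ℕ × ℕ} (hv : DeepR (0, 0) (w + 1) (w + 1) 4 v) {a : α}
    (ha : a ∈ Λ) (hva : v ∈ Hs ∨ v ∉ row a) :
    j a ∈ P'.closure (S' \ {e | e ∈ c' ∧ v ∈ row' e}) := by
  unfold DeepR at hv
  simp only at hv
  obtain ⟨F, hF⟩ := wall_full (S := c') (ends := row') (w := w)
    {x | (x.1 + 1, x.2) = v} {v} v.2 (by
      intro x hx
      have h1 := congrArg Prod.fst (show (x.1 + 1, x.2) = v from hx)
      have h2 := congrArg Prod.snd (show (x.1 + 1, x.2) = v from hx)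
      simp only at h1 h2
      omega) (by omega) (by
      intro x hx
      rw [mem_singleton_iff] at hx
      subst hx
      omega) (fun x y hxy => hxy) (by
      intro p q hpq hp hq _ _
      exact hW'.surj p q hpq hp.1 hq.1 (notMem_empty _))
  have hb := h.bic c' hc' hW'
  have hF' : FullB (c' ∪ j '' Λ) row' (rect 0 0 (w + 1) (w + 1) \ {v}) F :=
    ⟨fun e he => ⟨Or.inl (hF.1 he).1, (hF.1 he).2⟩, hF.2⟩
  have hcl := hF'.closure hb ((Gad.rect_finite _ _ _ _).subset sdiff_subset)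
  obtain ⟨x, y, h1, h2, h3, h7, h8, h4⟩ := h.lrow a ha
  have hxv : x ≠ v := by
    rintro rfl
    rcases hva with hva | hva
    · exact h2 hva
    · exact hva (by rw [h1]; exact Sym2.mem_mk_left _ _)
  have h5 : j a ∈ ins (c' ∪ j '' Λ) row' (rect 0 0 (w + 1) (w + 1) \ {v}) := by
    refine ⟨Or.inr ⟨a, ha, rfl⟩, ?_⟩
    intro v' hv'
    rw [h4, Sym2.mem_iff, or_self] at hv'
    rw [hv']
    exact ⟨h8, hxv⟩
  have h6 : j a ∈ (P' ／ (S' \ c')).closure F := by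
    rw [hcl]
    exact (P' ／ (S' \ c')).subset_closure _ (fun e he => hb.sub he.1) h5
  rw [Matroid.contract_closure_eq] at h6
  refine P'.closure_subset_closure ?_ h6.1
  rintro e (he | he)
  · have h1 := hF.1 he
    refine ⟨hc' h1.1, fun h2 => ?_⟩
    exact (h1.2 v h2.2).2 rfl
  · exact ⟨he.1, fun h1 => he.2 h1.1⟩

/-- representatives which contain the half edges -/
lemma exists_repLam (hL : LWal P S row w Hs) (h : Healed P S row w Hs P' j S' New row' Λ)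
    (hlin : InjOn row Λ) : ∃ c, c ⊆ S ∧ WallE c row w ∅ ∧ Λ ⊆ c := by
  obtain ⟨c, hc, hW⟩ := hL.exists_rep
  have hΛS : Λ ⊆ S := fun e he => (h.lsub he).1
  refine ⟨Λ ∪ {e | e ∈ c ∧ row e ∉ row '' Λ}, ?_, ⟨?_, ?_, ?_⟩, subset_union_left⟩
  · rintro e (he | he)
    · exact hΛS he
    · exact hc he.1
  · rintro e (he | he) e' (he' | he') hee
    · exact hlin he he' hee
    · exact absurd ⟨e, he, hee⟩ he'.2
    · exact absurd ⟨e', he', hee.symm⟩ he.2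
    · exact hW.inj he.1 he'.1 hee
  · rintro e (he | he)
    · exact hL.mem e (hΛS he)
    · exact hW.mem e he.1
  · intro p q hpq hp hq hm
    obtain ⟨e, he, hee⟩ := hW.surj p q hpq hp hq hm
    by_cases h1 : row e ∈ row '' Λ
    · obtain ⟨e', he', h2⟩ := h1
      exact ⟨e', Or.inl he', by rw [h2, hee]⟩
    · exact ⟨e, Or.inr ⟨he, h1⟩, hee⟩

/-- closures without new elements -/
lemma Healed.clo_old (h : Healed P S row w Hs P' j S' New row' Λ) {X : Set α} {z : α}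
    (hz : z ∈ P.closure X) (hzT : z ∉ Tch S row Hs) :
    j z ∈ P'.closure (j '' (X \ (Tch S row Hs \ Λ))) := by
  have h1 : z ∈ (P ／ (Tch S row Hs \ Λ)).closure (X \ (Tch S row Hs \ Λ)) := by
    rw [Matroid.contract_closure_eq]
    refine ⟨P.closure_subset_closure ?_ hz, fun h2 => hzT h2.1⟩
    intro e he
    by_cases h2 : e ∈ Tch S row Hs \ Λ
    · exact Or.inr h2
    · exact Or.inl ⟨he, h2⟩
  have h2 : j z ∈ (P' ＼ New).closure (j '' (X \ (Tch S row Hs \ Λ))) := by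
    rw [h.del, Matroid.map_closure_eq, h.inj.preimage_image]
    exact ⟨z, h1, rfl⟩
  rw [Matroid.delete_closure_eq] at h2
  exact P'.closure_subset_closure sdiff_subset h2.1

/-- **There are no new locations.** -/
theorem Healed.locIn [P.Finite] (hL : LWal P S row w Hs)
    (h : Healed P S row w Hs P' j S' New row' Λ) (hlin : InjOn row Λ) {D : ℕ} (hD : 4 ≤ D)
    {U : Set (ℕ × ℕ)} {x : α} (hx : x ∈ P.closure S) (hxT : x ∉ Tch S row Hs)
    (hl : LocIn P S row w D U x) : LocIn P' S' row' w D U (j x) := by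
  intro c' hc' hW' v hv hvD
  have hv4 : DeepR (0, 0) (w + 1) (w + 1) 4 v := by
    unfold DeepR at hvD ⊢
    simp only at hvD ⊢
    omega
  have hjS : ∀ a ∈ S \ Tch S row Hs, j a ∈ S' := by
    intro a ha
    rw [h.S_eq]
    exact Or.inl ⟨a, ha, rfl⟩
  by_cases hvH : v ∈ Hs
  · exfalso
    refine hv ?_
    have h1 := h.clo_old hx hxT
    refine P'.closure_subset_closure_of_subset_closure ?_ h1
    rintro _ ⟨a, ⟨haS, ha⟩, rfl⟩
    by_cases haT : a ∈ Tch S row Hs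
    · have haΛ : a ∈ Λ := by
        by_contra h2
        exact ha ⟨haT, h2⟩
      exact h.lam_one hc' hW' hv4 haΛ (Or.inl hvH)
    · refine P'.subset_closure _ (sdiff_subset.trans h.wal.sub) ⟨hjS a ⟨haS, haT⟩, ?_⟩
      rintro ⟨_, h2⟩
      rw [h.row_old a ⟨haS, haT⟩] at h2
      exact haT ⟨haS, v, h2, hvH⟩
  · obtain ⟨c₀, hc₀, hW₀, hΛ₀⟩ := exists_repLam hL h hlin
    obtain ⟨c, hc, hW, hcc, hcT, hcO⟩ := h.tr_back hc' hW' hc₀ hW₀
    refine hl c hc hW v ?_ hvD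
    intro h1
    refine hv ?_
    have h2 := h.clo_old h1 hxT
    refine P'.closure_subset_closure_of_subset_closure ?_ h2
    rintro _ ⟨a, ⟨⟨haS, hac⟩, ha⟩, rfl⟩
    by_cases haT : a ∈ Tch S row Hs
    · have haΛ : a ∈ Λ := by
        by_contra h2
        exact ha ⟨haT, h2⟩
      refine h.lam_one hc' hW' hv4 haΛ (Or.inr fun h3 => hac ⟨?_, h3⟩)
      exact (hcT a haT).2 (hΛ₀ haΛ)
    · refine P'.subset_closure _ (sdiff_subset.trans h.wal.sub) ⟨hjS a ⟨haS, haT⟩, ?_⟩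
      rintro ⟨h4, h5⟩
      rw [h.row_old a ⟨haS, haT⟩] at h5
      exact hac ⟨(hcO a ⟨haS, haT⟩).2 h4, h5⟩

/-- the contracted rows of the healed wall -/
lemma Healed.fg (h : Healed P S row w Hs P' j S' New row' Λ) {c : Set α}
    {A B : Sym2 (ℕ × ℕ) → Prop} (hAB : ∀ p q, wadj p q → (∃ x ∈ s(p, q), x ∈ Hs) →
      ¬ A s(p, q) ∧ ¬ B s(p, q)) (hL : LWal P S row w Hs) :
    FG S' row' (tr S row Hs j New c) A B = j '' (FG S row c A B \ Tch S row Hs) ∪ New ∧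
      Tch S row Hs ⊆ FG S row c A B := by
  constructor
  · unfold FG
    ext e
    constructor
    · rintro ⟨⟨he, h1⟩, h2⟩
      have he' := he
      rw [h.S_eq] at he'
      rcases he' with ⟨a, ha, rfl⟩ | he'
      · refine Or.inl ⟨a, ⟨⟨⟨ha.1, fun h3 => h1 ?_⟩, fun h3 => h2 ⟨Or.inl ⟨a, ⟨h3.1, ha.2⟩, rfl⟩, ?_⟩⟩,
          ha.2⟩, rfl⟩
        · show A (row' (j a))
          rw [h.row_old a ha]
          exact h3
        · rw [h.row_old a ha]
          exact h3.2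
      · exact Or.inr he'
    · rintro (⟨a, ⟨⟨⟨ha, h1⟩, h2⟩, haT⟩, rfl⟩ | he)
      · refine ⟨⟨by rw [h.S_eq]; exact Or.inl ⟨a, ⟨ha, haT⟩, rfl⟩, fun h3 => h1 ?_⟩, ?_⟩
        · have h4 : A (row' (j a)) := h3
          rw [h.row_old a ⟨ha, haT⟩] at h4
          exact h4
        · rintro ⟨h3, h4⟩
          rw [h.row_old a ⟨ha, haT⟩] at h4
          refine h2 ⟨?_, h4⟩
          rcases h3 with ⟨b, hb, h5⟩ | h5
          · rw [← h.inj h5]
            exact hb.1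
          · exact absurd h5 (h.new a)
      · have he' := h.new_sub he
        obtain ⟨p, q, h3, h4, _, _⟩ := h.wal.mem e he'
        have h5 := h.row_new e he
        rw [h3] at h5
        obtain ⟨h6, h7⟩ := hAB p q h4 h5
        refine ⟨⟨he', fun h8 => h6 ?_⟩, fun h8 => h7 ?_⟩
        · rw [← h3]
          exact h8
        · rw [← h3]
          exact h8.2
  · rintro e ⟨he, x, hx, hxH⟩
    obtain ⟨p, q, h3, h4, _, _⟩ := hL.mem e he
    rw [h3] at hx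
    obtain ⟨h6, h7⟩ := hAB p q h4 ⟨x, hx, hxH⟩
    refine ⟨⟨he, fun h8 => h6 ?_⟩, fun h8 => h7 ?_⟩
    · rw [← h3]
      exact h8
    · rw [← h3]
      exact h8.2

/-- **Circuits off the windows are the same.** -/
theorem Healed.circ [P.Finite] (hL : LWal P S row w Hs)
    (h : Healed P S row w Hs P' j S' New row' Λ) {c : Set α} {u : ℕ × ℕ}
    (hoff : ∀ v, sd v u ≤ 1 → Off Hs v) (hu : DeepR (0, 0) (w + 1) (w + 1) 8 u)
    {A B : Sym2 (ℕ × ℕ) → Prop} (hAu : ∀ s, A s → ∃ v ∈ s, sd v u ≤ 1)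
    (hBu : ∀ s, B s → ∃ v ∈ s, sd v u ≤ 1) {C : Set α}
    (hC : (P ／ FG S row c A B).IsCircuit C) :
    (P' ／ FG S' row' (tr S row Hs j New c) A B).IsCircuit (j '' C) ∧ ∀ x ∈ C, x ∉ Tch S row Hs := by
  have hf := h.fin
  have hS := hL.sub
  have hAB : ∀ p q, wadj p q → (∃ x ∈ s(p, q), x ∈ Hs) → ¬ A s(p, q) ∧ ¬ B s(p, q) := by
    rintro p q hpq ⟨x, hx, hxH⟩
    have key : ∀ v ∈ s(p, q), ¬ sd v u ≤ 1 := fun v hv hvu =>
      off_row rfl hpq hv (hoff v hvu) x hx hxH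
    constructor
    · intro h1
      obtain ⟨v, hv, hvu⟩ := hAu _ h1
      exact key v hv hvu
    · intro h1
      obtain ⟨v, hv, hvu⟩ := hBu _ h1
      exact key v hv hvu
  obtain ⟨hF, hTF⟩ := h.fg (c := c) hAB hL
  obtain ⟨F, hFd⟩ : ∃ F, F = FG S row c A B := ⟨_, rfl⟩
  obtain ⟨F', hFd'⟩ : ∃ F', F' = FG S' row' (tr S row Hs j New c) A B := ⟨_, rfl⟩
  rw [← hFd] at hC hF hTF
  rw [← hFd'] at hF ⊢
  have hFS : F ⊆ S := by
    rw [hFd]
    exact sdiff_subset.trans sdiff_subset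
  have hFE : F ⊆ P.E := hFS.trans hS
  have hFS' : F' ⊆ S' := by
    rw [hFd']
    exact sdiff_subset.trans sdiff_subset
  have hFE' : F' ⊆ P'.E := hFS'.trans h.wal.sub
  unfold DeepR at hu
  simp only at hu
  -- the half edges
  have hΛ : j '' Λ ⊆ P'.closure F' := by
    have hQ : HQ w ({(u, 1)} : Set ((ℕ × ℕ) × ℕ)) := by
      refine ⟨?_, ?_⟩
      · intro q hq
        rw [mem_singleton_iff] at hq
        subst hq
        dsimp only
        omega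
      · intro q hq q' hq' hne
        rw [mem_singleton_iff] at hq hq'
        exact absurd (hq.trans hq'.symm) hne
    have hbx : ∀ v, v ∈ BX ({(u, 1)} : Set ((ℕ × ℕ) × ℕ)) ↔ sd v u ≤ 1 := by
      intro v
      constructor
      · rintro ⟨q, hq, h1⟩
        rw [mem_singleton_iff] at hq
        subst hq
        exact h1
      · exact fun h1 => ⟨_, mem_singleton _, h1⟩
    have hdp : ∀ v, sd v u ≤ 1 → DeepR (0, 0) (w + 1) (w + 1) 4 v := by
      intro v hv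
      rw [sd_le] at hv
      unfold DeepR
      simp only
      omega
    have hsub : S' \ RS S' row' (BX ({(u, 1)} : Set ((ℕ × ℕ) × ℕ))) ⊆ F' := by
      rw [hFd']
      rintro e ⟨he, h1⟩
      have h2 : ∀ v ∈ row' e, ¬ sd v u ≤ 1 := fun v hv hvu => h1 ⟨he, v, (hbx v).2 hvu, hv⟩
      refine ⟨⟨he, fun h3 => ?_⟩, fun h3 => ?_⟩
      · obtain ⟨v, hv, hvu⟩ := hAu _ h3
        exact h2 v hv hvu
      · obtain ⟨v, hv, hvu⟩ := hBu _ h3.2
        exact h2 v hv hvu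
    intro e he
    refine P'.closure_subset_closure hsub ?_
    obtain ⟨c₁, hc₁, hW₁⟩ := exists_repW h.wal
    have hu0 : sd u u ≤ 1 := by
      rw [sd_le]
      omega
    refine h.wal.noloc_bx (by omega) hQ ?_ ?_
    · exact P'.closure_subset_closure sdiff_subset
        (h.lam_star hc₁ hW₁ (hoff u hu0) (hdp u hu0) he)
    · intro c₂ hc₂ hW₂ v hv hloc
      rw [hbx] at hv
      exact hloc (h.lam_star hc₂ hW₂ (hoff v hv) (hdp v hv) he)
  have hcE : (P ／ F).E = P.E \ F := rfl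
  have hcE' : (P' ／ F').E = P'.E \ F' := rfl
  have hjF : ∀ x ∈ P.E \ F, j x ∈ P'.E \ F' := by
    intro x hx
    refine ⟨?_, ?_⟩
    · rw [h.ground]
      exact Or.inl ⟨x, ⟨hx.1, fun h1 => hx.2 (hTF h1.1)⟩, rfl⟩
    · rw [hF]
      rintro (⟨a, ha, h1⟩ | h1)
      · rw [h.inj h1] at ha
        exact hx.2 ha.1
      · exact h.new x h1
  -- ranks
  have hrk : ∀ X, X ⊆ P.E \ F → BIC.rk P' (j '' X ∪ F') + BIC.rk P (Tch S row Hs \ Λ) =
      BIC.rk P (X ∪ F) + Hs.card := by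
    intro X hX
    have e1 : j '' ((X ∪ F) \ Tch S row Hs) ∪ New = j '' X ∪ F' := by
      rw [hF]
      ext e
      constructor
      · rintro (⟨a, ⟨ha | ha, haT⟩, rfl⟩ | he)
        · exact Or.inl ⟨a, ha, rfl⟩
        · exact Or.inr (Or.inl ⟨a, ⟨ha, haT⟩, rfl⟩)
        · exact Or.inr (Or.inr he)
      · rintro (⟨a, ha, rfl⟩ | ⟨a, ha, rfl⟩ | he)
        · exact Or.inl ⟨a, ⟨Or.inl ha, fun h1 => (hX ha).2 (hTF h1)⟩, rfl⟩
        · exact Or.inl ⟨a, ⟨Or.inr ha.1, ha.2⟩, rfl⟩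
        · exact Or.inr he
    have h1 := h.rk' hS (X := X ∪ F) (union_subset (hX.trans sdiff_subset) hFE) (by
      rw [e1]
      exact hΛ.trans (P'.closure_subset_closure subset_union_right))
    rw [e1] at h1
    have e2 : X ∪ F ∪ Tch S row Hs = X ∪ F := union_eq_left.2 (hTF.trans subset_union_right)
    rw [e2] at h1
    exact h1
  have hrk0 := hrk ∅ (empty_subset _)
  rw [image_empty, empty_union, empty_union] at hrk0
  have hfin1 : (P ／ F).Finite := BQ.fin_contract _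
  have hfin2 : (P' ／ F').Finite := BQ.fin_contract _
  refine ⟨circ_of_rk h.inj ?_ ?_ hC, fun x hx hxT => (hC.subset_ground hx).2 (hTF hxT)⟩
  · rintro _ ⟨x, hx, rfl⟩
    exact hjF x hx
  · intro X hX
    have h1 := BQ.rk_con (M := P) hFE (X := X) hX
    have h2 := BQ.rk_con (M := P') hFE' (X := j '' X) (by
      rintro _ ⟨x, hx, rfl⟩
      exact hjF x (hX hx))
    have h3 := hrk X hX
    omega

/-- local elements -/
theorem Healed.locE [P.Finite] (hL : LWal P S row w Hs)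
    (h : Healed P S row w Hs P' j S' New row' Λ) (hlin : InjOn row Λ) {D : ℕ} (hD : 4 ≤ D)
    {v₀ : ℕ × ℕ} (hoff : Off Hs v₀) (hv₀ : DeepR (0, 0) (w + 1) (w + 1) 4 v₀)
    {ω : Set (Sym2 (ℕ × ℕ))} {U : Set (ℕ × ℕ)} {x : α} (hxT : x ∉ Tch S row Hs)
    (hx : LocE P S row w D ω U x) : LocE P' S' row' w D ω U (j x) := by
  obtain ⟨c, hc, hW⟩ := hL.exists_rep
  rcases hx with ⟨h1, h2⟩ | ⟨h1, h2, h3⟩
  · left
    refine ⟨?_, ?_⟩
    · rw [h.S_eq]
      exact Or.inl ⟨x, ⟨h1, hxT⟩, rfl⟩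
    · rw [h.row_old x ⟨h1, hxT⟩]
      exact h2
  · right
    refine ⟨?_, ?_, h.locIn hL hlin hD h1 hxT h3⟩
    · exact (h.clS hL.sub hc hW hoff hv₀ (P.closure_subset_ground _ h1) hxT).2 h1
    · rw [h.S_eq]
      rintro (⟨a, ha, h4⟩ | h4)
      · rw [h.inj h4] at ha
        exact h2 ha.1
      · exact h.new x h4

/-- exits -/
theorem Healed.exitE [P.Finite] (hL : LWal P S row w Hs)
    (h : Healed P S row w Hs P' j S' New row' Λ) (hlin : InjOn row Λ) {D : ℕ} (hD : 4 ≤ D)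
    {v₀ : ℕ × ℕ} (hoff : Off Hs v₀) (hv₀ : DeepR (0, 0) (w + 1) (w + 1) 4 v₀)
    {β' δ : ℕ} {Om : Finset (ℕ × ℕ)} (hδ : 4 ≤ δ) (hOm : Hs ⊆ Om) {U : Set (ℕ × ℕ)}
    {c : Set α} (hc : c ⊆ S) (hW : WallE c row w ∅) {y : ℕ × ℕ} {b : α}
    (hb : ExitE P S row w D β' δ Om U c y b) :
    ExitE P' S' row' w D β' δ Om U (tr S row Hs j New c) y (j b) := by
  have hbT : b ∉ Tch S row Hs := fun h1 => hb.cl.2 h1.1
  have hbE : b ∈ P.E := P.closure_subset_ground _ hb.cl.1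
  have hOff : ∀ v, OutW δ w Om v → Off Hs v ∧ DeepR (0, 0) (w + 1) (w + 1) 4 v := by
    intro v hv
    refine ⟨fun x hx => ?_, (hv.mono hδ).1⟩
    have h1 := apart_iff.1 (hv.2 x (hOm hx))
    omega
  obtain ⟨N, hN, hlN, hNo⟩ := hb.supp
  have hlN' := h.locIn hL hlin hD hb.cl.1 hbT hlN
  have hyN : y ∈ N := hlN c hc hW y hb.y_loc hb.y_deep
  refine ⟨⟨?_, ?_⟩, ⟨N, hN, hlN', hNo⟩, ?_, hb.y_deep, hb.y_out, ?_⟩
  · exact (h.clS hL.sub hc hW hoff hv₀ hbE hbT).2 hb.cl.1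
  · rw [h.S_eq]
    rintro (⟨a, ha, h4⟩ | h4)
    · rw [h.inj h4] at ha
      exact hb.cl.2 ha.1
    · exact h.new b h4
  · obtain ⟨h1, h2⟩ := hOff y (hNo y hyN)
    exact (h.loc hL.sub hc hW h1 h2 hbE hbT).2 hb.y_loc
  · intro v hv hvD
    have hvN : v ∈ N := hlN' _ (h.tr_sub hc) (h.tr_wall hc hW) v hv hvD
    obtain ⟨h1, h2⟩ := hOff v (hNo v hvN)
    exact hb.loc v ((h.loc hL.sub hc hW h1 h2 hbE hbT).1 hv) hvD

/-- ends -/
lemma Healed.endE (h : Healed P S row w Hs P' j S' New row' Λ) {c : Set α} (hc : c ⊆ S)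
    (hW : WallE c row w ∅) {p q : ℕ × ℕ} (hoff : Off Hs p) {o : α}
    (ho : o ∈ c ∧ p ∈ row o ∧ q ∉ row o) :
    j o ∈ tr S row Hs j New c ∧ p ∈ row' (j o) ∧ q ∉ row' (j o) := by
  obtain ⟨p', q', h3, h4, _, _⟩ := hW.mem o ho.1
  have hoT : o ∉ Tch S row Hs := by
    rintro ⟨_, x, hx, hxH⟩
    exact off_row h3 h4 ho.2.1 hoff x hx hxH
  rw [h.row_old o ⟨hc ho.1, hoT⟩]
  exact ⟨Or.inl ⟨o, ⟨ho.1, hoT⟩, rfl⟩, ho.2⟩

end

/-- the healed wall is exact, with the nullity formula -/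
def HealX {α : Type u} (P : Matroid α) (S : Set α) (row : α → Sym2 (ℕ × ℕ)) (w : ℕ)
    (Hs : Finset (ℕ × ℕ)) : Prop :=
  ∃ (P' : Matroid (HT α)) (S' New : Set (HT α)) (row' : HT α → Sym2 (ℕ × ℕ)) (Λ : Set α),
    Healed P S row w Hs P' Sum.inl S' New row' Λ ∧ RWx P' S' row' w ∧ InjOn row Λ

lemma OutW.sub {δ w : ℕ} {Om Om' : Finset (ℕ × ℕ)} {p : ℕ × ℕ} (h : OutW δ w Om' p)
    (hO : Om ⊆ Om') : OutW δ w Om p := ⟨h.1, fun q hq => h.2 q (hO hq)⟩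

lemma NoConf.sub {α : Type*} {P : Matroid α} {S : Set α} {row : α → Sym2 (ℕ × ℕ)}
    {w D β δ : ℕ} {Om Om' : Finset (ℕ × ℕ)} (h : NoConf P S row w D β δ Om) (hO : Om ⊆ Om') :
    NoConf P S row w D β δ Om' := fun o ω Z z c N Λ hp =>
  h o ω Z z c N Λ fun p hpm => ⟨(hp p hpm).1, fun q hq => (hp p hpm).2 q (hO hq)⟩

/-- **Outside of a bounded set the healed wall has no local configuration.** -/
theorem noConfL (k D β h : ℕ) (hD : 4 ≤ D) : ∃ r δ : ℕ,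
    ∀ {α : Type u} (P : Matroid α) [P.Finite] (S : Set α) (row : α → Sym2 (ℕ × ℕ)) (w : ℕ)
      (Hs : Finset (ℕ × ℕ)), Hs.card ≤ h → HealX P S row w Hs → HasUniformMinor P k ∨
      ∃ Om : Finset (ℕ × ℕ), Hs ⊆ Om ∧ Om.card ≤ r ∧
        ∃ (P' : Matroid (HT α)) (S' New : Set (HT α)) (row' : HT α → Sym2 (ℕ × ℕ)) (Λ : Set α),
          Healed P S row w Hs P' Sum.inl S' New row' Λ ∧ RWx P' S' row' w ∧ InjOn row Λ ∧
          NoConf P' S' row' w D β δ Om := by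
  classical
  obtain ⟨K, hK⟩ := heal_hum.{u} k h
  obtain ⟨r, δ, hlk⟩ := linkOm.{u} (linkFam.{u} K 1 D) hD β
  refine ⟨r + h, δ, ?_⟩
  intro α P _ S row w Hs hHs hX
  obtain ⟨P', S', New, row', Λ, hH, hR, hlin⟩ := hX
  have hf := hH.fin
  rcases hlk P' S' row' w hR with h1 | ⟨Om, hOm, hno⟩
  · exact Or.inl (hK P S row w Hs P' Sum.inl S' New row' Λ hHs hH h1)
  refine Or.inr ⟨Om ∪ Hs, Finset.subset_union_right, ?_, P', S', New, row', Λ, hH, hR, hlin, ?_⟩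
  · exact (Finset.card_union_le _ _).trans (by omega)
  · have hno' : NoConf P' S' row' w D β δ Om := hno
    exact hno'.sub Finset.subset_union_left

/-- **IN0, IN1, IN2 for walls with windows.** -/
theorem in012L (k D β h : ℕ) (hD : 4 ≤ D) : ∃ r δ : ℕ,
    ∀ {α : Type u} (P : Matroid α) [P.Finite] (S : Set α) (row : α → Sym2 (ℕ × ℕ)) (w : ℕ)
      (Hs : Finset (ℕ × ℕ)), Hs.card ≤ h → LWal P S row w Hs → HealX P S row w Hs →
      HasUniformMinor P k ∨ ∃ Om : Finset (ℕ × ℕ), Hs ⊆ Om ∧ Om.card ≤ r ∧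
        ∀ c, c ⊆ S → WallE c row w ∅ →
        -- IN0: no circuit of `N_u` of local elements contains the three ends
        (∀ u v₁ v₂ v₃ o₁ o₂ o₃ C, Nb3 u v₁ v₂ v₃ → OutW δ w Om u →
          (o₁ ∈ c ∧ v₁ ∈ row o₁ ∧ u ∉ row o₁) → (o₂ ∈ c ∧ v₂ ∈ row o₂ ∧ u ∉ row o₂) →
          (o₃ ∈ c ∧ v₃ ∈ row o₃ ∧ u ∉ row o₃) → (P ／ FStar S row c u v₁ v₂ v₃).IsCircuit C →
          o₁ ∈ C → o₂ ∈ C → o₃ ∈ C → (∀ x ∈ C, x = o₁ ∨ x = o₂ ∨ x = o₃ ∨
            LocE P S row w D {a | u ∈ a} {u, v₁, v₂, v₃} x) → False) ∧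
        -- IN1: no circuit of `N_u` of local elements and one exit `b` contains `b` and two ends
        (∀ u v₁ v₂ v₃ o₁ o₂ o₃ C y b, Nb3 u v₁ v₂ v₃ → OutW δ w Om u →
          (o₁ ∈ c ∧ v₁ ∈ row o₁ ∧ u ∉ row o₁) → (o₂ ∈ c ∧ v₂ ∈ row o₂ ∧ u ∉ row o₂) →
          (o₃ ∈ c ∧ v₃ ∈ row o₃ ∧ u ∉ row o₃) → (P ／ FStar S row c u v₁ v₂ v₃).IsCircuit C →
          ExitE P S row w D β δ Om {u, v₁, v₂, v₃} c y b → b ∈ C → o₁ ∈ C → o₂ ∈ C →
          (∀ x ∈ C, x = b ∨ x = o₁ ∨ x = o₂ ∨ x = o₃ ∨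
            LocE P S row w D {a | u ∈ a} {u, v₁, v₂, v₃} x) → False) ∧
        -- IN2, one exit
        (∀ u v o₁ o₂ C y b, wadj u v → OutW δ w Om u →
          (o₁ ∈ c ∧ u ∈ row o₁ ∧ v ∉ row o₁) → (o₂ ∈ c ∧ v ∈ row o₂ ∧ u ∉ row o₂) →
          (P ／ FRow S row c u v).IsCircuit C → ExitE P S row w D β δ Om {u, v} c y b →
          b ∈ C → o₁ ∈ C → o₂ ∈ C → (∀ x ∈ C, x = b ∨ x = o₁ ∨ x = o₂ ∨
            LocE P S row w D {s(u, v)} {u, v} x) → False) ∧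
        -- IN2, two exits with different second nodes
        (∀ u v o₁ o₂ C y b y' b', wadj u v → OutW δ w Om u →
          (o₁ ∈ c ∧ u ∈ row o₁ ∧ v ∉ row o₁) → (o₂ ∈ c ∧ v ∈ row o₂ ∧ u ∉ row o₂) →
          (P ／ FRow S row c u v).IsCircuit C → ExitE P S row w D β δ Om {u, v} c y b →
          ExitE P S row w D β δ Om {u, v} c y' b' → y ≠ y' →
          ¬ (wadj u y ∧ wadj u y') → ¬ (wadj v y ∧ wadj v y') →
          b ∈ C → b' ∈ C → o₁ ∈ C → o₂ ∈ C → (∀ x ∈ C, x = b ∨ x = b' ∨ x = o₁ ∨ x = o₂ ∨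
            LocE P S row w D {s(u, v)} {u, v} x) → False) := by
  classical
  obtain ⟨r, δ₀, hnc⟩ := noConfL.{u} k D (2 * β + 4) h hD
  refine ⟨r, δ₀ + D + 60, ?_⟩
  intro α P _ S row w Hs hHs hL hX
  rcases hnc P S row w Hs hHs hX with h1 | ⟨Om, hHO, hOm, P', S', New, row', Λ, hH, hR, hlin, hno⟩
  · exact Or.inl h1
  refine Or.inr ⟨Om, hHO, hOm, ?_⟩
  have hf := hH.fin
  intro c hc hW
  have hc' := hH.tr_sub (c := c) hc
  have hW' := hH.tr_wall hc hW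
  -- geometry
  have hoff : ∀ u, OutW (δ₀ + D + 60) w Om u → ∀ v, sd v u ≤ 1 → Off Hs v := by
    intro u hu v hv x hx
    have h1 := apart_iff.1 (hu.2 x (hHO hx))
    have h2 : sd u x ≤ sd v u + sd v x := by
      unfold sd
      omega
    omega
  have hdp8 : ∀ u, OutW (δ₀ + D + 60) w Om u → DeepR (0, 0) (w + 1) (w + 1) 8 u := fun u hu =>
    (hu.mono (δ' := 8) (by omega)).1
  have hdp4 : ∀ u, OutW (δ₀ + D + 60) w Om u → DeepR (0, 0) (w + 1) (w + 1) 4 u := fun u hu =>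
    (hu.mono (δ' := 4) (by omega)).1
  have hself : ∀ u : ℕ × ℕ, sd u u ≤ 1 := by
    intro u
    rw [sd_le]
    omega
  -- stars
  have hstar : ∀ u v₁ v₂ v₃ C, Nb3 u v₁ v₂ v₃ → OutW (δ₀ + D + 60) w Om u →
      (P ／ FStar S row c u v₁ v₂ v₃).IsCircuit C →
      (P' ／ FStar S' row' (tr S row Hs Sum.inl New c) u v₁ v₂ v₃).IsCircuit (Sum.inl '' C) ∧
        ∀ x ∈ C, x ∉ Tch S row Hs := by
    intro u v₁ v₂ v₃ C hnb hu hC
    refine hH.circ hL (u := u) (hoff u hu) (hdp8 u hu) (A := fun s => u ∈ s)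
      (B := fun s => v₁ ∈ s ∨ v₂ ∈ s ∨ v₃ ∈ s) (fun s hs => ⟨u, hs, hself u⟩) ?_ hC
    rintro s (hs | hs | hs)
    · exact ⟨v₁, hs, (wadj_sd hnb.1).2⟩
    · exact ⟨v₂, hs, (wadj_sd hnb.2.1).2⟩
    · exact ⟨v₃, hs, (wadj_sd hnb.2.2.1).2⟩
  have hrow : ∀ u v C, wadj u v → OutW (δ₀ + D + 60) w Om u →
      (P ／ FRow S row c u v).IsCircuit C →
      (P' ／ FRow S' row' (tr S row Hs Sum.inl New c) u v).IsCircuit (Sum.inl '' C) ∧
        ∀ x ∈ C, x ∉ Tch S row Hs := by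
    intro u v C huv hu hC
    refine hH.circ hL (u := u) (hoff u hu) (hdp8 u hu) (A := fun s => s = s(u, v))
      (B := fun s => u ∈ s ∨ v ∈ s) (fun s hs => ⟨u, ?_, hself u⟩) ?_ hC
    · rw [hs]
      exact Sym2.mem_mk_left _ _
    · rintro s (hs | hs)
      · exact ⟨u, hs, hself u⟩
      · exact ⟨v, hs, (wadj_sd huv).2⟩
  have hend : ∀ u, OutW (δ₀ + D + 60) w Om u → ∀ p q o, sd p u ≤ 1 →
      (o ∈ c ∧ p ∈ row o ∧ q ∉ row o) → (Sum.inl o ∈ tr S row Hs Sum.inl New c ∧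
        p ∈ row' (Sum.inl o) ∧ q ∉ row' (Sum.inl o)) := fun u hu p q o hp ho =>
    hH.endE hc hW (hoff u hu p hp) ho
  have hexit : ∀ u, OutW (δ₀ + D + 60) w Om u → ∀ U y b,
      ExitE P S row w D β (δ₀ + D + 60) Om U c y b →
      ExitE P' S' row' w D β (δ₀ + D + 60) Om U (tr S row Hs Sum.inl New c) y (Sum.inl b) :=
    fun u hu U y b hb => hH.exitE hL hlin hD (hoff u hu u (hself u)) (hdp4 u hu) (by omega) hHO
      hc hW hb
  have hloc : ∀ u, OutW (δ₀ + D + 60) w Om u → ∀ (ω : Set (Sym2 (ℕ × ℕ))) U x,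
      x ∉ Tch S row Hs → LocE P S row w D ω U x → LocE P' S' row' w D ω U (Sum.inl x) :=
    fun u hu ω U x hxT hx => hH.locE hL hlin hD (hoff u hu u (hself u)) (hdp4 u hu) hxT hx
  refine ⟨?_, ?_, ?_, ?_⟩
  · intro u v₁ v₂ v₃ o₁ o₂ o₃ C hnb hu h₁ h₂ h₃ hC k₁ k₂ k₃ hl
    obtain ⟨hC', hCT⟩ := hstar u v₁ v₂ v₃ C hnb hu hC
    refine in0 hR hD le_rfl hno hc' hW' hnb hu (hend u hu _ _ _ (wadj_sd hnb.1).2 h₁)
      (hend u hu _ _ _ (wadj_sd hnb.2.1).2 h₂) (hend u hu _ _ _ (wadj_sd hnb.2.2.1).2 h₃) hC'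
      ⟨_, k₁, rfl⟩ ⟨_, k₂, rfl⟩ ⟨_, k₃, rfl⟩ ?_
    rintro _ ⟨x, hx, rfl⟩
    rcases hl x hx with rfl | rfl | rfl | h1
    · exact Or.inl rfl
    · exact Or.inr (Or.inl rfl)
    · exact Or.inr (Or.inr (Or.inl rfl))
    · exact Or.inr (Or.inr (Or.inr (hloc u hu _ _ x (hCT x hx) h1)))
  · intro u v₁ v₂ v₃ o₁ o₂ o₃ C y b hnb hu h₁ h₂ h₃ hC hb hbC k₁ k₂ hl
    obtain ⟨hC', hCT⟩ := hstar u v₁ v₂ v₃ C hnb hu hC
    refine in1 hR hD le_rfl hno hc' hW' hnb hu (hend u hu _ _ _ (wadj_sd hnb.1).2 h₁)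
      (hend u hu _ _ _ (wadj_sd hnb.2.1).2 h₂) (hend u hu _ _ _ (wadj_sd hnb.2.2.1).2 h₃) hC'
      (hexit u hu _ _ _ hb) ⟨_, hbC, rfl⟩ ⟨_, k₁, rfl⟩ ⟨_, k₂, rfl⟩ ?_
    rintro _ ⟨x, hx, rfl⟩
    rcases hl x hx with rfl | rfl | rfl | rfl | h1
    · exact Or.inl rfl
    · exact Or.inr (Or.inl rfl)
    · exact Or.inr (Or.inr (Or.inl rfl))
    · exact Or.inr (Or.inr (Or.inr (Or.inl rfl)))
    · exact Or.inr (Or.inr (Or.inr (Or.inr (hloc u hu _ _ x (hCT x hx) h1))))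
  · intro u v o₁ o₂ C y b huv hu h₁ h₂ hC hb hbC k₁ k₂ hl
    obtain ⟨hC', hCT⟩ := hrow u v C huv hu hC
    refine in2a hR hD le_rfl hno hc' hW' huv hu (hend u hu _ _ _ (hself u) h₁)
      (hend u hu _ _ _ (wadj_sd huv).2 h₂) hC'
      (hexit u hu _ _ _ hb) ⟨_, hbC, rfl⟩ ⟨_, k₁, rfl⟩ ⟨_, k₂, rfl⟩ ?_
    rintro _ ⟨x, hx, rfl⟩
    rcases hl x hx with rfl | rfl | rfl | h1
    · exact Or.inl rfl
    · exact Or.inr (Or.inl rfl)
    · exact Or.inr (Or.inr (Or.inl rfl))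
    · exact Or.inr (Or.inr (Or.inr (hloc u hu _ _ x (hCT x hx) h1)))
  · intro u v o₁ o₂ C y b y' b' huv hu h₁ h₂ hC hb hb' hyy hbu hbv hbC hbC' k₁ k₂ hl
    obtain ⟨hC', hCT⟩ := hrow u v C huv hu hC
    refine in2b hR hD le_rfl hno hc' hW' huv hu (hend u hu _ _ _ (hself u) h₁)
      (hend u hu _ _ _ (wadj_sd huv).2 h₂) hC'
      (hexit u hu _ _ _ hb) (hexit u hu _ _ _ hb') hyy hbu hbv ⟨_, hbC, rfl⟩ ⟨_, hbC', rfl⟩
      ⟨_, k₁, rfl⟩ ⟨_, k₂, rfl⟩ ?_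
    rintro _ ⟨x, hx, rfl⟩
    rcases hl x hx with rfl | rfl | rfl | rfl | h1
    · exact Or.inl rfl
    · exact Or.inr (Or.inl rfl)
    · exact Or.inr (Or.inr (Or.inl rfl))
    · exact Or.inr (Or.inr (Or.inr (Or.inl rfl)))
    · exact Or.inr (Or.inr (Or.inr (Or.inr (hloc u hu _ _ x (hCT x hx) h1))))

end DA
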