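import Pool.Agent.DA.LWalK
import Pool.Agent.DA.RWx
import Pool.Agent.DA.InL
import Pool.Agent.CW.GSide

/-!
# The series property of the rows and the nullity formula of healed walls
-/

open Set BIC BICS
open scoped Matroid

namespace DA

open CWL TST Gad

universe u v

/-- the circuits inside of `S` are unions of rows -/
def SerC {α : Type*} (P : Matroid α) (S : Set α) (row : α → Sym2 (ℕ × ℕ)) : Prop :=
  ∀ C, P.IsCircuit C → C ⊆ S → ∀ a ∈ C, ∀ b ∈ S, row a = row b → b ∈ C

section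

variable {α : Type*} {P : Matroid α} {S : Set α} {row : α → Sym2 (ℕ × ℕ)} {w : ℕ}

/-- **Nullity.** -/
theorem nul_of_ser [P.Finite] (hS : S ⊆ P.E) (h : SerC P S row) :
    ∃ ν : Set (Sym2 (ℕ × ℕ)) → ℕ, ∀ X ⊆ S,
      BIC.rk P X + ν {a | (∃ e ∈ S, row e = a) ∧ ∀ e ∈ S, row e = a → e ∈ X} = X.ncard := by
  classical
  have hSf : S.Finite := P.ground_finite.subset hS
  refine ⟨fun F => {e | e ∈ S ∧ row e ∈ F}.ncard - BIC.rk P {e | e ∈ S ∧ row e ∈ F}, ?_⟩
  intro X hX
  obtain ⟨F, hF⟩ : ∃ F, F = {a | (∃ e ∈ S, row e = a) ∧ ∀ e ∈ S, row e = a → e ∈ X} := ⟨_, rfl⟩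
  rw [← hF]
  obtain ⟨Y, hY⟩ : ∃ Y, Y = {e | e ∈ S ∧ row e ∈ F} := ⟨_, rfl⟩
  simp only
  rw [← hY]
  have hYX : Y ⊆ X := by
    rw [hY, hF]
    rintro e ⟨he, _, h2⟩
    exact h2 e he rfl
  have hXf : X.Finite := hSf.subset hX
  have hYf : Y.Finite := hXf.subset hYX
  obtain ⟨I, hI⟩ := P.exists_isBasis Y ((hYX.trans hX).trans hS)
  have hrY : BIC.rk P Y = I.ncard := by
    rw [← rk_indep hI.indep, ← rk_closure Y, ← hI.closure_eq_closure, rk_closure]
  have hind : P.Indep (I ∪ (X \ Y)) := by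
    have hsub : I ∪ (X \ Y) ⊆ X := union_subset (hI.subset.trans hYX) sdiff_subset
    by_contra hdep
    have hdep' : P.Dep (I ∪ (X \ Y)) := ⟨hdep, hsub.trans (hX.trans hS)⟩
    obtain ⟨C, hCs, hC⟩ := hdep'.exists_isCircuit_subset
    have hCI : C ⊆ I := by
      intro x hx
      rcases hCs hx with h1 | h1
      · exact h1
      · exfalso
        apply h1.2
        rw [hY, hF]
        refine ⟨hX h1.1, ⟨x, hX h1.1, rfl⟩, fun e he hex => ?_⟩
        exact hsub (hCs (h C hC ((hCs.trans hsub).trans hX) x hx e he hex.symm))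
    exact hC.not_indep (hI.indep.subset hCI)
  have hcl : X ⊆ P.closure (I ∪ (X \ Y)) := by
    intro x hx
    by_cases hxY : x ∈ Y
    · have h1 : x ∈ P.closure Y := P.subset_closure _ ((hYX.trans hX).trans hS) hxY
      rw [← hI.closure_eq_closure] at h1
      exact P.closure_subset_closure subset_union_left h1
    · exact P.subset_closure _ hind.subset_ground (Or.inr ⟨hx, hxY⟩)
  have hrX : BIC.rk P X = (I ∪ (X \ Y)).ncard := by
    rw [← rk_indep hind]
    refine le_antisymm ?_ (rk_mono _ (union_subset (hI.subset.trans hYX) sdiff_subset))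
    calc BIC.rk P X ≤ BIC.rk P (P.closure (I ∪ (X \ Y))) := rk_mono _ hcl
      _ = _ := rk_closure _
  have hc1 : (I ∪ (X \ Y)).ncard = I.ncard + (X \ Y).ncard := by
    refine ncard_union_eq ?_ (hYf.subset hI.subset) (hXf.subset sdiff_subset)
    rw [Set.disjoint_left]
    exact fun x hx hx' => hx'.2 (hI.subset hx)
  have hc2 := Set.ncard_sdiff_add_ncard_of_subset hYX hXf
  have hc3 : I.ncard ≤ Y.ncard := Set.ncard_le_ncard hI.subset hYf
  show BIC.rk P X + (Y.ncard - BIC.rk P Y) = X.ncard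
  omega

lemma RWal.rwx [P.Finite] (h : RWal P S row w) (hs : SerC P S row) : RWx P S row w :=
  ⟨h, nul_of_ser h.sub hs⟩

/-- from closures to circuits -/
lemma serC_of_cl
    (h : ∀ a ∈ S, ∀ b ∈ S, a ≠ b → row a = row b → a ∉ P.closure (S \ {a, b})) :
    SerC P S row := by
  intro C hC hCS a ha b hb hab
  by_contra hbC
  have hne : a ≠ b := fun h' => hbC (h' ▸ ha)
  refine h a (hCS ha) b hb hne hab ?_
  refine P.closure_subset_closure ?_ (hC.mem_closure_sdiff_singleton_of_mem ha)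
  rintro x ⟨hx, hxa⟩
  refine ⟨hCS hx, ?_⟩
  rintro (h1 | h1)
  · exact hxa h1
  · exact hbC (h1 ▸ hx)

/-- from circuits to closures -/
lemma SerC.cl (h : SerC P S row) {a b : α} (ha : a ∈ S) (hb : b ∈ S) (hab : a ≠ b)
    (hr : row a = row b) : a ∉ P.closure (S \ {a, b}) := by
  intro hcl
  have hn : a ∉ S \ {a, b} := fun h1 => h1.2 (Or.inl rfl)
  obtain ⟨C, hCs, hC, haC⟩ := P.exists_isCircuit_of_mem_closure hcl hn
  have h1 : C ⊆ S := by
    intro x hx
    rcases hCs hx with h2 | h2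
    · rw [h2]
      exact ha
    · exact h2.1
  have h2 := h C hC h1 a haC b hb hr
  rcases hCs h2 with h3 | h3
  · exact hab h3.symm
  · exact h3.2 (Or.inr rfl)

end

section

variable {α : Type u} {β : Type v} {P : Matroid α} {S : Set α} {row : α → Sym2 (ℕ × ℕ)} {w : ℕ}
  {Hs : Finset (ℕ × ℕ)} {P' : Matroid β} {j : α → β} {S' New : Set β}
  {row' : β → Sym2 (ℕ × ℕ)} {Λ : Set α}

/-- **The series property of the healed wall.** -/
theorem Healed.serC [P.Finite] (h : Healed P S row w Hs P' j S' New row' Λ) (hS : S ⊆ P.E)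
    (hs : SerC P S row) : SerC P' S' row' := by
  classical
  have hf := h.fin
  refine serC_of_cl ?_
  intro a' ha' b' hb' hne hab hcl
  have hold : ∀ e ∈ S \ Tch S row Hs, ∀ v ∈ row' (j e), v ∉ Hs := by
    intro e he v hv hvH
    rw [h.row_old e he] at hv
    exact he.2 ⟨he.1, v, hv, by exact_mod_cast hvH⟩
  rw [h.S_eq] at ha' hb'
  rcases ha' with ⟨a, ha, rfl⟩ | ha' <;> rcases hb' with ⟨b, hb, rfl⟩ | hb'
  · -- both are old
    have hab' : a ≠ b := fun h' => hne (by rw [h'])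
    have hrow : row a = row b := by
      rw [← h.row_old a ha, ← h.row_old b hb, hab]
    obtain ⟨X, hX⟩ : ∃ X, X = S \ {a, b} := ⟨_, rfl⟩
    have hXE : X ⊆ P.E := by
      rw [hX]
      exact sdiff_subset.trans hS
    have hTX : Tch S row Hs ⊆ X := by
      rw [hX]
      intro e he
      refine ⟨he.1, ?_⟩
      rintro (h1 | h1)
      · rw [h1] at he
        exact ha.2 he
      · rw [h1] at he
        exact hb.2 he
    obtain ⟨Y, hY⟩ : ∃ Y, Y = j '' (X \ Tch S row Hs) ∪ j '' Λ ∪ New := ⟨_, rfl⟩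
    have hYE : Y ⊆ P'.E := by
      rw [hY]
      exact h.sub_E hS hXE
    have h1 : S' \ {j a, j b} ⊆ Y := by
      rw [hY, h.S_eq]
      rintro e ⟨⟨x, hx, rfl⟩ | he, he2⟩
      · refine Or.inl (Or.inl ⟨x, ⟨?_, hx.2⟩, rfl⟩)
        rw [hX]
        refine ⟨hx.1, ?_⟩
        rintro (h3 | h3)
        · exact he2 (Or.inl (by rw [h3]))
        · exact he2 (Or.inr (by rw [mem_singleton_iff.1 h3]; rfl))
      · exact Or.inr he
    have h2 : j a ∈ P'.closure Y := P'.closure_subset_closure h1 hcl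
    have h3 : BIC.rk P' (insert (j a) Y) = BIC.rk P' Y := rk_ins_of_mem h2
    have h4 := h.rk X hXE
    have h5 := h.rk (insert a X) (insert_subset (hS ha.1) hXE)
    have e1 : j '' (insert a X \ Tch S row Hs) ∪ j '' Λ ∪ New = insert (j a) Y := by
      have e2 : insert a X \ Tch S row Hs = insert a (X \ Tch S row Hs) := by
        ext x
        simp only [mem_sdiff, mem_insert_iff]
        constructor
        · rintro ⟨h6 | h6, h7⟩
          · exact Or.inl h6
          · exact Or.inr ⟨h6, h7⟩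
        · rintro (h6 | h6)
          · exact ⟨Or.inl h6, by rw [h6]; exact ha.2⟩
          · exact ⟨Or.inr h6.1, h6.2⟩
      rw [e2, image_insert_eq, insert_union, insert_union, hY]
    rw [e1, h3] at h5
    rw [← hY] at h4
    have e3 : insert a X ∪ Tch S row Hs = insert a X :=
      union_eq_self_of_subset_right (hTX.trans (subset_insert _ _))
    have e4 : X ∪ Tch S row Hs = X := union_eq_self_of_subset_right hTX
    rw [e3] at h5
    rw [e4] at h4
    have h6 : a ∈ P.closure X := mem_of_rk (hS ha.1) (by omega)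
    rw [hX] at h6
    exact hs.cl ha.1 hb.1 hab' hrow h6
  · obtain ⟨v, hv, hvH⟩ := h.row_new b' hb'
    rw [← hab] at hv
    exact hold a ha v hv hvH
  · obtain ⟨v, hv, hvH⟩ := h.row_new a' ha'
    rw [hab] at hv
    exact hold b hb v hv hvH
  · exact hne (h.inj_new ha' hb' hab)

/-- **The healed wall is exact with the nullity formula.** -/
theorem Healed.rwx [P.Finite] (h : Healed P S row w Hs P' j S' New row' Λ) (hS : S ⊆ P.E)
    (hs : SerC P S row) : RWx P' S' row' w := by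
  have hf := h.fin
  exact h.wal.rwx (h.serC hS hs)

end

section

variable {α : Type u} {M : Matroid α} {w u : ℕ} {L : Bool × ℕ × ℕ → List α}
  {f : α → Sym2 ((ℕ × ℕ) ⊕ α)} {e : Bool × ℕ × ℕ → α} {row : α → Sym2 (ℕ × ℕ)}

/-- **The series property of a side.** -/
theorem GSide.serC [M.Finite] (h : GSide M (Seg w) L f e u)
    (hrow : ∀ s ∈ Seg w, ∀ x ∈ L s, row x = srow s) : SerC M (crr L (Seg w)) row := by
  classical
  intro C hC hCS a ha b hb hab
  have hsw : SubWall (crr L (Seg w)) f L w :=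
    ⟨fun s hs hn => by have := h.last s hs; rw [hn] at this; simp at this, h.nodup, h.disj,
      fun _ => Iff.rfl, h.end_eq⟩
  obtain ⟨s, hs, has⟩ := hCS ha
  obtain ⟨s', hs', hbs⟩ := hb
  have hss : s' = s := srow_inj (by rw [← hrow s hs a has, ← hrow s' hs' b hbs, hab])
  subst hss
  -- neighbours
  have hstep : ∀ i (hi : i + 1 < (L s').length), ((L s')[i] ∈ C ↔ (L s')[i + 1] ∈ C) := by
    intro i hi
    obtain ⟨c, hc⟩ : ∃ c, c = (L s')[i] := ⟨_, rfl⟩
    obtain ⟨c', hc'⟩ : ∃ c', c' = (L s')[i + 1] := ⟨_, rfl⟩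
    rw [← hc, ← hc']
    have hcR : c ∈ crr L (Seg w) := ⟨s', hs', by rw [hc]; exact List.getElem_mem _⟩
    have hcR' : c' ∈ crr L (Seg w) := ⟨s', hs', by rw [hc']; exact List.getElem_mem _⟩
    have hcc : c ≠ c' := by
      intro h1
      rw [hc, hc'] at h1
      have := (List.Nodup.getElem_inj_iff (h.nodup s' hs')).1 h1
      omega
    have hv1 : (Sum.inr c : (ℕ × ℕ) ⊕ α) ∈ f c := by
      have h1 := h.end_eq s' hs' i (by omega)
      rw [← hc] at h1
      rw [h1, node_mid s' (i := i + 1) (by omega) hi]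
      simp only [Nat.add_sub_cancel, ← hc]
      exact Sym2.mem_mk_right _ _
    have hv2 : (Sum.inr c : (ℕ × ℕ) ⊕ α) ∈ f c' := by
      have h1 := h.end_eq s' hs' (i + 1) hi
      rw [← hc'] at h1
      rw [h1, node_mid s' (i := i + 1) (by omega) hi]
      simp only [Nat.add_sub_cancel, ← hc]
      exact Sym2.mem_mk_left _ _
    have hsub : ∀ x ∈ crr L (Seg w), x ≠ c → x ≠ c' →
        x ∈ ins (crr L (Seg w)) f {(Sum.inr c : (ℕ × ℕ) ⊕ α)}ᶜ := by
      intro x hx h1 h2
      refine ⟨hx, fun v hv hvc => ?_⟩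
      rw [mem_singleton_iff.1 hvc] at hv
      rcases inner_mem hsw hs' hi hc.symm hx hv with h3 | h3
      · exact h1 h3
      · exact h2 (h3.trans hc'.symm)
    constructor
    · intro h1
      by_contra h2
      refine h.star _ c hcR hv1 (M.closure_subset_closure ?_
        (hC.mem_closure_sdiff_singleton_of_mem h1))
      exact fun x hx => hsub x (hCS hx.1) hx.2 fun h3 => h2 (h3 ▸ hx.1)
    · intro h1
      by_contra h2
      refine h.star _ c' hcR' hv2 (M.closure_subset_closure ?_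
        (hC.mem_closure_sdiff_singleton_of_mem h1))
      exact fun x hx => hsub x (hCS hx.1) (fun h3 => h2 (h3 ▸ hx.1)) hx.2
  have hall : ∀ i (hi : i < (L s').length), ((L s')[0]'(by omega) ∈ C ↔ (L s')[i] ∈ C) := by
    intro i
    induction i with
    | zero => exact fun _ => Iff.rfl
    | succ i ih => exact fun hi => (ih (by omega)).trans (hstep i hi)
  obtain ⟨i, hi, rfl⟩ := List.mem_iff_getElem.1 has
  obtain ⟨k, hk, rfl⟩ := List.mem_iff_getElem.1 hbs
  exact (hall k hk).1 ((hall i hi).2 ha)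

end

/-- **HealX** from the series property. -/
theorem LWal.healX {α : Type u} {P : Matroid α} [P.Finite] {S : Set α} {row : α → Sym2 (ℕ × ℕ)}
    {w : ℕ} {Hs : Finset (ℕ × ℕ)} (h : LWal P S row w Hs) (hs : SerC P S row) :
    HealX P S row w Hs := by
  obtain ⟨P', S', New, row', Λ, hH⟩ := heal P S row w Hs h
  exact ⟨P', S', New, row', Λ, hH, hH.rwx h.sub hs, hH.linj⟩

/-- **LWal and HealX from a clean side.** -/
theorem GSide.healX {α : Type u} {M : Matroid α} [M.Finite] {w u : ℕ}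
    {L : Bool × ℕ × ℕ → List α} {f : α → Sym2 ((ℕ × ℕ) ⊕ α)} {e : Bool × ℕ × ℕ → α}
    {row : α → Sym2 (ℕ × ℕ)} (h : GSide M (Seg w) L f e u) (hw : 5 * u + 4 ≤ w)
    (hrow : ∀ s ∈ Seg w, ∀ x ∈ L s, row x = srow s) :
    ∃ Hs : Finset (ℕ × ℕ), Hs.card ≤ 25 * u ∧ LWal M (crr L (Seg w)) row w Hs ∧
      HealX M (crr L (Seg w)) row w Hs := by
  obtain ⟨Hs, h1, h2⟩ := GSide.lwal h hw hrow
  exact ⟨Hs, h1, h2, h2.healX (GSide.serC h hrow)⟩

end DA
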