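import Pool.Agent.CW.KillH
import Pool.Agent.DA.HealXK
import Pool.Agent.TST.FDef

/-!
# The kill rows of a square with holes inside of a wall (row R8 of T-star, helper34)

`holK`: for the rows of an inner square off the squares around few points there is a set `W` of rows
(annuli and at most `u` windows of side 4) such that the lift is exact over every set which
contains `W` (CORE), and closures of the lower matroid are closures of `M` (CLO).
-/

open Set BIC BICS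
open scoped Matroid

namespace DA

open CWL TST Gad

universe u v

section

variable {α : Type u} {V : Type v} {N N' : Matroid α} {S : Set α} {f f' : α → Sym2 V}

/-- two bicircular matroids of the same graph have the same ranks -/
lemma bic_rk_le [N.Finite] [N'.Finite] (h : Bic N S f) (h' : Bic N' S f')
    (hf : ∀ x ∈ S, f x = f' x) {X : Set α} (hX : X ⊆ S) : rk N X ≤ rk N' X := by
  obtain ⟨I, hI, hIi, hIc⟩ := exists_basis_rk (N := N) X (hX.trans h.sub)
  have hIf : I.Finite := N.ground_finite.subset hIi.subset_ground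
  obtain ⟨φ, h1, h2⟩ := Bic_choice h hIi (hI.trans hX) hIf
  have h3 := h'.ind I φ (hI.trans hX) h1 fun x hx => by
    rw [← hf x (hX (hI hx))]
    exact h2 x hx
  rw [← hIc, ← rk_indep h3]
  exact rk_mono _ hI

/-- the union of two independent sets without a common vertex -/
lemma bic_indep_disj [N.Finite] (h : Bic N S f) {I J : Set α} (hI : N.Indep I) (hJ : N.Indep J)
    (hIS : I ⊆ S) (hJS : J ⊆ S) (hd : ∀ x ∈ I, ∀ y ∈ J, ∀ v, v ∈ f x → v ∉ f y) :
    N.Indep (I ∪ J) := by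
  classical
  obtain ⟨φ, h1, h2⟩ := Bic_choice h hI hIS (N.ground_finite.subset hI.subset_ground)
  obtain ⟨ψ, h3, h4⟩ := Bic_choice h hJ hJS (N.ground_finite.subset hJ.subset_ground)
  refine h.ind _ (fun x => if x ∈ I then φ x else ψ x) (union_subset hIS hJS) ?_ ?_
  · rintro x hx y hy hxy
    by_cases hxI : x ∈ I <;> by_cases hyI : y ∈ I
    · simp only [if_pos hxI, if_pos hyI] at hxy
      exact h1 hxI hyI hxy
    · simp only [if_pos hxI, if_neg hyI] at hxy
      have hyJ := hy.resolve_left hyI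
      exact absurd (hxy ▸ h4 y hyJ) (hd x hxI y hyJ _ (h2 x hxI))
    · simp only [if_neg hxI, if_pos hyI] at hxy
      have hxJ := hx.resolve_left hxI
      exact absurd (hxy ▸ h4 x hxJ) (hd y hyI x hxJ _ (h2 y hyI))
    · simp only [if_neg hxI, if_neg hyI] at hxy
      exact h3 (hx.resolve_left hxI) (hy.resolve_left hyI) hxy
  · intro x hx
    by_cases hxI : x ∈ I
    · simp only [if_pos hxI]
      exact h2 x hxI
    · simp only [if_neg hxI]
      exact h4 x (hx.resolve_left hxI)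

end

section

variable {α : Type u} {M N : Matroid α} {w u : ℕ} {L : Bool × ℕ × ℕ → List α}
  {f : α → Sym2 ((ℕ × ℕ) ⊕ α)} {e : Bool × ℕ × ℕ → α} {R₀ : Set (Bool × ℕ × ℕ)}

/-- the lower matroid of a side is a side -/
lemma gside_low [hf : N.Finite] (h : GSide M R₀ L f e u) (hN : Bic N (crr L R₀) f) :
    GSide N R₀ L f e 0 :=
  ⟨h.nodup, h.disj, h.end_eq, ⟨hN.sub, N, hf, hN, fun X Y _ _ => by omega, fun X _ => by omega⟩,
    h.last⟩

/-- the nodes of the elements of a row -/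
lemma gside_node (h : GSide M R₀ L f e u) {s : Bool × ℕ × ℕ} (hs : s ∈ R₀) {x : α} (hx : x ∈ L s)
    {v : (ℕ × ℕ) ⊕ α} (hv : v ∈ f x) :
    v = Sum.inl (segNear s) ∨ v = Sum.inl (segFar s) ∨ ∃ c ∈ L s, v = Sum.inr c := by
  have hne : L s ≠ [] := List.ne_nil_of_mem hx
  obtain ⟨i, hi, rfl⟩ := List.mem_iff_getElem.1 hx
  rw [h.end_eq s hs i hi, Sym2.mem_iff] at hv
  rcases hv with rfl | rfl
  · exact node_cases s hne hi.le
  · exact node_cases s hne hi

/-- rows inside of `A` and rows outside of `A` have no common node -/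
lemma gside_apart (h : GSide M R₀ L f e u) {A : Set (ℕ × ℕ)} {s s' : Bool × ℕ × ℕ} (hs : s ∈ R₀)
    (hs' : s' ∈ R₀) (h1 : segNear s ∈ A) (h2 : segFar s ∈ A) (h3 : segNear s' ∉ A)
    (h4 : segFar s' ∉ A) {x y : α} (hx : x ∈ L s) (hy : y ∈ L s') {v : (ℕ × ℕ) ⊕ α}
    (hv : v ∈ f x) : v ∉ f y := by
  intro hv'
  rcases gside_node h hs hx hv with rfl | rfl | ⟨c, hc, rfl⟩ <;>
    rcases gside_node h hs' hy hv' with k | k | ⟨c', hc', k⟩
  · exact h3 (Sum.inl_injective k ▸ h1)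
  · exact h4 (Sum.inl_injective k ▸ h1)
  · cases k
  · exact h3 (Sum.inl_injective k ▸ h2)
  · exact h4 (Sum.inl_injective k ▸ h2)
  · cases k
  · cases k
  · cases k
  · obtain rfl := Sum.inr_injective k
    have := h.uniq hs hs' hc hc'
    subst this
    exact h3 h1

/-- the rows of the wall inside of `A` -/
def RA (w : ℕ) (A : Set (ℕ × ℕ)) : Set (Bool × ℕ × ℕ) :=
  {s | s ∈ Seg w ∧ segNear s ∈ A ∧ segFar s ∈ A}

/-- **Additivity in the exact wall**: `X` on rows inside of `A`; `G` without elements of these rows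
and with a missing element on every row which leaves `A`. -/
theorem gside_add [N.Finite] (h : GSide N (Seg w) L f e 0) (hN : Bic N (crr L (Seg w)) f)
    {A : Set (ℕ × ℕ)} {X G : Set α} (hX : X ⊆ crr L (RA w A)) (hG : G ⊆ crr L (Seg w))
    (hd : Disjoint G (crr L (RA w A)))
    (hl : ∀ s ∈ Seg w, (segNear s ∈ A ↔ segFar s ∉ A) → ∃ x ∈ L s, x ∉ G) :
    rk N (X ∪ G) = rk N X + rk N G := by
  classical
  have hRS : crr L (RA w A) ⊆ crr L (Seg w) := crr_mono fun s hs => hs.1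
  have hXS := hX.trans hRS
  obtain ⟨row, hrow⟩ := GSide.exists_row h
  have hser := GSide.serC h hrow
  refine le_antisymm ?_ ?_
  · have := rk_submod N X G
    omega
  obtain ⟨I, hIX, hI, hIc⟩ := exists_basis_rk (N := N) X (hXS.trans hN.sub)
  obtain ⟨J, hJG, hJ, hJc⟩ := exists_basis_rk (N := N) G (hG.trans hN.sub)
  have hIS := hIX.trans hXS
  have hJS := hJG.trans hG
  have hIJ : Disjoint I J := by
    rw [Set.disjoint_left]
    exact fun x hx hx' => Set.disjoint_left.1 hd (hJG hx') (hX (hIX hx))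
  have hind : N.Indep (I ∪ J) := by
    by_contra hdep
    have hdep' : N.Dep (I ∪ J) := ⟨hdep, union_subset hI.subset_ground hJ.subset_ground⟩
    obtain ⟨C, hCs, hC⟩ := hdep'.exists_isCircuit_subset
    have hCS : C ⊆ crr L (Seg w) := hCs.trans (union_subset hIS hJS)
    have e1 : C ∩ I ∪ C ∩ J = C := by
      rw [← inter_union_distrib_left, inter_eq_self_of_subset_left hCs]
    have key : N.Indep (C ∩ I ∪ C ∩ J) := by
      refine bic_indep_disj hN (hI.subset inter_subset_right) (hJ.subset inter_subset_right)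
        (inter_subset_right.trans hIS) (inter_subset_right.trans hJS) ?_
      rintro x ⟨_, hxI⟩ y ⟨hyC, hyJ⟩ v hv
      obtain ⟨s, hs, hxs⟩ := hX (hIX hxI)
      obtain ⟨s', hs', hys⟩ := hJS hyJ
      -- the row of `y` is contained in the circuit
      have hrowC : ∀ b ∈ L s', b ∈ C := fun b hb =>
        hser C hC hCS y hyC b ⟨s', hs', hb⟩ (by rw [hrow s' hs' y hys, hrow s' hs' b hb])
      have hnot : s' ∉ RA w A := fun h' => Set.disjoint_left.1 hd (hJG hyJ) ⟨s', h', hys⟩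
      have hnl : ¬ (segNear s' ∈ A ↔ segFar s' ∉ A) := by
        intro h'
        obtain ⟨b, hb, hbG⟩ := hl s' hs' h'
        rcases hCs (hrowC b hb) with h5 | h5
        · obtain ⟨s'', hs'', hbs⟩ := hX (hIX h5)
          have := h.uniq hs''.1 hs' hbs hb
          subst this
          exact hnot hs''
        · exact hbG (hJG h5)
      have h3 : segNear s' ∉ A ∧ segFar s' ∉ A := by
        by_cases k1 : segNear s' ∈ A <;> by_cases k2 : segFar s' ∈ A
        · exact absurd ⟨hs', k1, k2⟩ hnot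
        · exact absurd ⟨fun _ => k2, fun _ => k1⟩ hnl
        · exact absurd ⟨fun h' => absurd h' k1, fun h' => absurd k2 h'⟩ hnl
        · exact ⟨k1, k2⟩
      exact gside_apart h hs.1 hs' hs.2.1 hs.2.2 h3.1 h3.2 hxs hys hv
    rw [e1] at key
    exact hC.not_indep key
  have hIf : I.Finite := N.ground_finite.subset hI.subset_ground
  have hJf : J.Finite := N.ground_finite.subset hJ.subset_ground
  have h1 : (I ∪ J).ncard = I.ncard + J.ncard := ncard_union_eq hIJ hIf hJf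
  rw [← hIc, ← hJc, ← h1, ← rk_indep hind]
  exact rk_mono _ (union_subset_union hIX hJG)

end

/-! ### Squares in a box -/

/-- the rows of the inner square off the squares of radius `r` around the points of `Q` -/
def BR (w a n₀ r : ℕ) (Q : Finset (ℕ × ℕ)) : Set (Bool × ℕ × ℕ) :=
  {s | s ∈ Seg w ∧ (segNear s ∈ TSH.Box a n₀ ∧ segFar s ∈ TSH.Box a n₀) ∧
    ∀ c ∈ Q, r < sd (segNear s) c ∧ r < sd (segFar s) c}

/-- the points in the coordinates of the box -/
def shQ (a : ℕ) (Q : Finset (ℕ × ℕ)) : Finset (ℕ × ℕ) :=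
  open Classical in Q.image fun c => (c.1 - a, c.2 - a)

section

variable {w a n₀ r : ℕ} {Q : Finset (ℕ × ℕ)}

lemma mem_shQ {c' : ℕ × ℕ} : c' ∈ shQ a Q ↔ ∃ c ∈ Q, (c.1 - a, c.2 - a) = c' := by
  classical
  unfold shQ
  exact Finset.mem_image

lemma sd_sh {v c : ℕ × ℕ} (h1 : a ≤ c.1) (h2 : a ≤ c.2) :
    sd (v.1 + a, v.2 + a) c = sd v (c.1 - a, c.2 - a) := by
  unfold sd
  simp only
  omega

lemma shS_sub (hn : 1 ≤ n₀) (haw : a + (2 * n₀ - 1) ≤ w) :
    shS a a '' Seg (2 * n₀ - 1) ⊆ Seg w := by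
  rintro _ ⟨⟨t, x, y⟩, hs, rfl⟩
  cases t <;> simp only [Seg, shS, mem_ofPred_eq, Bool.false_eq_true, false_and, true_and,
    or_false, false_or, reduceCtorEq] at hs ⊢ <;> omega

/-- the rows of the box are the shifted rows of a small wall -/
lemma sh_RH (hn : 1 ≤ n₀) (haw : a + (2 * n₀ - 1) ≤ w) (hQ : ∀ c ∈ Q, a ≤ c.1 ∧ a ≤ c.2) :
    shS a a '' RH (2 * n₀ - 1) r (shQ a Q) = BR w a n₀ r Q := by
  ext s
  constructor
  · rintro ⟨s', ⟨h1, h2, h3⟩, rfl⟩
    refine ⟨shS_sub hn haw ⟨s', h1, rfl⟩, ?_, ?_⟩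
    · rw [segNear_shS, segFar_shS]
      have h4 := wadj_srow h1
      have h5 := h4.2.1
      have h6 := h4.2.2
      rw [Gad.mem_rct] at h5 h6
      simp only [TSH.Box, mem_ofPred_eq]
      omega
    · intro c hc
      obtain ⟨k1, k2⟩ := hQ c hc
      rw [segNear_shS, segFar_shS, sd_sh k1 k2, sd_sh k1 k2]
      have hm : (c.1 - a, c.2 - a) ∈ shQ a Q := mem_shQ.2 ⟨c, hc, rfl⟩
      constructor
      · by_contra hcon
        exact h2 ⟨_, hm, by omega⟩
      · by_contra hcon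
        exact h3 ⟨_, hm, by omega⟩
  · rintro ⟨h1, ⟨h2, h3⟩, h4⟩
    obtain ⟨t, x, y⟩ := s
    have hxy : a ≤ x ∧ a ≤ y := by
      simp only [TSH.Box, segNear, mem_ofPred_eq] at h2
      omega
    have hes : shS a a (t, x - a, y - a) = (t, x, y) := by
      simp only [shS, Prod.mk.injEq]
      exact ⟨trivial, by omega, by omega⟩
    refine ⟨(t, x - a, y - a), ⟨?_, ?_, ?_⟩, hes⟩
    · cases t
      · simp only [TSH.Box, segNear, segFar, mem_ofPred_eq, Bool.false_eq_true, if_false] at h2 h3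
        simp only [Seg, mem_ofPred_eq, Bool.false_eq_true, false_and, true_and, false_or] at h1 ⊢
        omega
      · simp only [TSH.Box, segNear, segFar, mem_ofPred_eq, if_true] at h2 h3
        simp only [Seg, mem_ofPred_eq, true_and, or_false, false_and, reduceCtorEq] at h1 ⊢
        omega
    · rintro ⟨c', hc', h5⟩
      obtain ⟨c, hc, rfl⟩ := mem_shQ.1 hc'
      obtain ⟨k1, k2⟩ := hQ c hc
      have h6 := (h4 c hc).1
      rw [← hes, segNear_shS, sd_sh k1 k2] at h6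
      omega
    · rintro ⟨c', hc', h5⟩
      obtain ⟨c, hc, rfl⟩ := mem_shQ.1 hc'
      obtain ⟨k1, k2⟩ := hQ c hc
      have h6 := (h4 c hc).2
      rw [← hes, segFar_shS, sd_sh k1 k2] at h6
      omega

end

/-- **Kill rows of a square with holes.** -/
theorem holK {α : Type u} {M : Matroid α} [M.Finite] {L : Bool × ℕ × ℕ → List α}
    {f : α → Sym2 ((ℕ × ℕ) ⊕ α)} {e : Bool × ℕ × ℕ → α} {u w a n₀ r : ℕ} {Q : Finset (ℕ × ℕ)}
    (h : GSide M (Seg w) L f e u) (hn : 4 ≤ n₀) (haw : a + (2 * n₀ - 1) ≤ w)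
    (hdeep : ∀ c ∈ Q, a + r + 8 ≤ c.1 ∧ c.1 + r + 8 ≤ a + (2 * n₀ - 1) ∧ a + r + 8 ≤ c.2 ∧
      c.2 + r + 8 ≤ a + (2 * n₀ - 1))
    (hfar : ∀ c ∈ Q, ∀ c' ∈ Q, c ≠ c' → 2 * r + 18 ≤ sd c c') :
    ∃ (N : Matroid α) (J : Finset (ℕ × ℕ)) (W : Set (Bool × ℕ × ℕ)), N.Finite ∧
      Bic N (crr L (Seg w)) f ∧ Quo M N (crr L (Seg w)) ∧ J.card ≤ u ∧ W ⊆ BR w a n₀ r Q ∧
      (∀ j ∈ J, a ≤ j.1 ∧ j.1 + 4 ≤ a + (2 * n₀ - 1) ∧ a ≤ j.2 ∧ j.2 + 4 ≤ a + (2 * n₀ - 1)) ∧
      (∀ s ∈ W, (∃ c ∈ Q, sd (segNear s) c ≤ r + 8 ∧ sd (segFar s) c ≤ r + 8) ∨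
        ∃ j ∈ J, (j.1 ≤ (segNear s).1 ∧ (segNear s).1 ≤ j.1 + 4 ∧ j.2 ≤ (segNear s).2 ∧
          (segNear s).2 ≤ j.2 + 4) ∧ j.1 ≤ (segFar s).1 ∧ (segFar s).1 ≤ j.1 + 4 ∧
          j.2 ≤ (segFar s).2 ∧ (segFar s).2 ≤ j.2 + 4) ∧
      (∀ B ⊆ crr L (BR w a n₀ r Q), crr L W ⊆ B → ∀ X ⊆ crr L (BR w a n₀ r Q),
        rk M (X ∪ B) + rk N B = rk N (X ∪ B) + rk M B) ∧
      -- CORE
      (∀ A : Set (ℕ × ℕ), (∀ v ∈ A, v ∈ TSH.Box a n₀ ∧ ∀ c ∈ Q, r < sd v c) →
        ∀ G ⊆ crr L (Seg w), crr L W ⊆ G → Disjoint G (crr L (RA w A)) →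
        (∀ s ∈ Seg w, (segNear s ∈ A ↔ segFar s ∉ A) → ∃ x ∈ L s, x ∉ G) →
        ∀ X ⊆ crr L (RA w A), rk M (X ∪ G) = rk M G + rk N X) ∧
      -- CLO
      (∀ B ⊆ crr L (BR w a n₀ r Q), crr L W ⊆ B → ∀ x ∈ crr L (BR w a n₀ r Q),
        x ∈ N.closure B → x ∈ M.closure B) := by
  classical
  obtain ⟨w', hw'⟩ : ∃ w', w' = 2 * n₀ - 1 := ⟨_, rfl⟩
  obtain ⟨Q', hQ'⟩ : ∃ Q', Q' = shQ a Q := ⟨_, rfl⟩
  have hQa : ∀ c ∈ Q, a ≤ c.1 ∧ a ≤ c.2 := fun c hc => by
    have := hdeep c hc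
    omega
  have hBR : shS a a '' RH w' r Q' = BR w a n₀ r Q := by
    rw [hw', hQ']
    exact sh_RH (by omega) haw hQa
  have hRHw : RH w' r Q' ⊆ Seg w' := fun s hs => hs.1
  have hshS : shS a a '' RH w' r Q' ⊆ Seg w := by
    rw [hBR]
    exact fun s hs => hs.1
  obtain ⟨hsub, N, hNf, hN, hQuo, hup⟩ := h.lift
  have hlow := gside_low h hN
  -- the side in the coordinates of the box
  obtain ⟨f', h'⟩ := h.shift (S' := RH w' r Q') hshS
  obtain ⟨f'', h''⟩ := hlow.shift (S' := RH w' r Q') hshS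
  obtain ⟨N', J', hN'f, hN', hQ'', hJ', hJw, hkill⟩ := h'.killH (by omega) (by
    intro c' hc'
    rw [hQ'] at hc'
    obtain ⟨c, hc, rfl⟩ := mem_shQ.1 hc'
    have := hdeep c hc
    simp only
    omega) (by
    intro c₁ hc₁ c₂ hc₂ hne
    rw [hQ'] at hc₁ hc₂
    obtain ⟨c, hc, rfl⟩ := mem_shQ.1 hc₁
    obtain ⟨d, hd, rfl⟩ := mem_shQ.1 hc₂
    have hcd : c ≠ d := fun h5 => hne (by rw [h5])
    have h5 := hfar c hc d hd hcd
    have h6 := hQa c hc
    have h7 := hQa d hd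
    have h8 : sd (c.1 - a, c.2 - a) (d.1 - a, d.2 - a) = sd c d := by
      unfold sd
      simp only
      omega
    rw [h8]
    exact h5)
  obtain ⟨S', hS'⟩ : ∃ S', S' = crr (fun s => L (shS a a s)) (RH w' r Q') := ⟨_, rfl⟩
  have hS'B : S' = crr L (BR w a n₀ r Q) := by rw [hS', crr_shift, hBR]
  -- the ranks of the lower matroids agree
  obtain ⟨_, N₂, hN₂f, hN₂, hQ₂, hr₂⟩ := h''.lift
  have hff : ∀ x ∈ crr (fun s => L (shS a a s)) (RH w' r Q'), f' x = f'' x := by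
    rintro x ⟨s, hs, hx⟩
    obtain ⟨k, hk, rfl⟩ := List.mem_iff_getElem.1 hx
    rw [h'.end_eq s hs k hk, h''.end_eq s hs k hk]
  have hrk : ∀ X ⊆ crr L (BR w a n₀ r Q), rk N' X = rk N X := by
    intro X hX
    rw [← hS'B, hS'] at hX
    have h1 := bic_rk_le hN' hN₂ hff hX
    have h2 := bic_rk_le hN₂ hN' (fun x hx => (hff x hx).symm) hX
    have h3 := hr₂ X hX
    have h4 := hQ₂ ∅ X (empty_subset _) hX
    rw [rk_empty, rk_empty] at h4
    omega
  have hkill' : ∀ B ⊆ crr L (BR w a n₀ r Q),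
      crr L (shS a a '' (Wn J' ∪ AnH w' r Q')) ⊆ B → ∀ X ⊆ crr L (BR w a n₀ r Q),
      rk M (X ∪ B) + rk N B = rk N (X ∪ B) + rk M B := by
    intro B hB hWB X hX
    have h1 := hkill B (by rw [crr_shift]; exact hWB) (by rw [← hS', hS'B]; exact hB) X
      (by rw [← hS', hS'B]; exact hX)
    rw [hrk B hB, hrk (X ∪ B) (union_subset hX hB)] at h1
    exact h1
  obtain ⟨W, hW⟩ : ∃ W, W = shS a a '' (Wn J' ∪ AnH w' r Q') := ⟨_, rfl⟩
  rw [← hW] at hkill'
  have hWn : Wn J' ⊆ RH w' r Q' := by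
    rintro s ⟨j, hj, hs⟩
    exact (hJw j hj).2.2 hs
  have hWB : W ⊆ BR w a n₀ r Q := by
    rw [hW, ← hBR]
    exact image_mono (union_subset hWn fun s hs => hs.1)
  obtain ⟨J, hJ⟩ : ∃ J : Finset (ℕ × ℕ), J = J'.image fun j => (j.1 + a, j.2 + a) := ⟨_, rfl⟩
  have hseg : BR w a n₀ r Q ⊆ Seg w := fun s hs => hs.1
  refine ⟨N, J, W, hNf, hN, hQuo, ?_, hWB, ?_, ?_, hkill', ?_, ?_⟩
  · rw [hJ]
    exact Finset.card_image_le.trans hJ'
  · intro j hj
    rw [hJ, Finset.mem_image] at hj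
    obtain ⟨j', hj', rfl⟩ := hj
    have h1 := (hJw j' hj').1
    have h2 := (hJw j' hj').2.1
    simp only
    omega
  · intro s hs
    rw [hW] at hs
    obtain ⟨t, ht, rfl⟩ := hs
    rw [segNear_shS, segFar_shS]
    rcases ht with ⟨j, hj, ht⟩ | ht
    · right
      refine ⟨(j.1 + a, j.2 + a), ?_, ?_⟩
      · rw [hJ]
        exact Finset.mem_image_of_mem _ hj
      · obtain ⟨b, x, y⟩ := t
        cases b <;> simp only [Rg, segNear, segFar, mem_ofPred_eq, Bool.false_eq_true, false_and,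
          true_and, or_false, false_or, reduceCtorEq, if_true, if_false] at ht ⊢ <;> omega
    · left
      obtain ⟨ht0, ⟨c₁, hc₁, h1⟩, ⟨c₂, hc₂, h2⟩⟩ := ht
      rw [hQ'] at hc₁ hc₂
      obtain ⟨c, hc, rfl⟩ := mem_shQ.1 hc₁
      obtain ⟨d, hd, rfl⟩ := mem_shQ.1 hc₂
      obtain ⟨k1, k2⟩ := hQa c hc
      obtain ⟨k3, k4⟩ := hQa d hd
      have hcd : c = d := by
        by_contra hne
        have h3 := hfar c hc d hd hne
        have h4 : sd c d ≤ 2 * r + 17 := by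
          obtain ⟨b, x, y⟩ := t
          rw [sd_le] at h1 h2 ⊢
          cases b <;> simp only [segNear, segFar, Bool.false_eq_true, if_true, if_false] at h1 h2
            <;> omega
        omega
      subst hcd
      refine ⟨c, hc, ?_, ?_⟩
      · rw [sd_sh k1 k2]
        exact h1
      · rw [sd_sh k1 k2]
        exact h2
  · -- CORE
    intro A hA G hG hWG hGA hl X hX
    have hAB : RA w A ⊆ BR w a n₀ r Q := fun s hs =>
      ⟨hs.1, ⟨(hA _ hs.2.1).1, (hA _ hs.2.2).1⟩, fun c hc => ⟨(hA _ hs.2.1).2 c hc,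
        (hA _ hs.2.2).2 c hc⟩⟩
    have hXB : X ⊆ crr L (BR w a n₀ r Q) := hX.trans (crr_mono hAB)
    have hXS : X ⊆ crr L (Seg w) := hXB.trans (crr_mono hseg)
    have h1 := gside_add hlow hN hX hG hGA hl
    have h2 := hQuo G (X ∪ G) subset_union_right (union_subset hXS hG)
    have h3 := hkill' (crr L W) (crr_mono hWB) subset_rfl X hXB
    have h4 := rk_submod N X (crr L W)
    have h5 : rk M (crr L W) + rk M (X ∪ G) ≤ rk M (X ∪ crr L W) + rk M G := by
      refine rk_sub' (subset_inter subset_union_right hWG) ?_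
      rintro x (hx | hx)
      · exact Or.inl (Or.inl hx)
      · exact Or.inr hx
    omega
  · -- CLO
    intro B hB hWB' x hx hxN
    have h1 := hkill' B hB hWB' {x} (singleton_subset_iff.2 hx)
    have h2 : rk N ({x} ∪ B) = rk N B := by
      rw [singleton_union]
      exact rk_ins_of_mem hxN
    refine mem_of_rk (h.sub_ground (crr_mono hseg hx)) ?_
    rw [singleton_union] at h1 h2
    omega

end DA
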