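import Pool.Agent.DA.WRule6
import Pool.Agent.DA.WStat

/-!
# The combinatorics of the legs on the brick wall
-/

open Set
open scoped Matroid

namespace DA

/-- The closed neighbourhood of a vertex of the wall. -/
def star (w : ℕ × ℕ) : Set (ℕ × ℕ) := {w, (w.1 - 1, w.2), (w.1 + 1, w.2), vn w}

/-- `p` is the only location of its pair. -/
def Sg (Λ : Set (ℕ × ℕ)) (i : ℕ) (p : ℕ × ℕ) : Prop :=
  p ∈ Λ ∧ ∀ p' ∈ Λ, (p'.1 - i) / 2 = (p.1 - i) / 2 → p'.2 = p.2 → p' = p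

/-- Three locations which are alone in their pairs. -/
def Det (Λ : Set (ℕ × ℕ)) : Prop :=
  ∃ i ≤ 1, ∃ p q r, p ≠ q ∧ p ≠ r ∧ q ≠ r ∧ Sg Λ i p ∧ Sg Λ i q ∧ Sg Λ i r

/-- A pair can be split. -/
def Plan (Λ : Set (ℕ × ℕ)) : Prop :=
  ∃ (i : ℕ) (κ : ℕ × ℕ) (hu hv : ℕ) (A : Finset (ℕ × ℕ)), i ≤ 1 ∧ hu ≤ 1 ∧ hv ≤ 1 ∧ κ ∈ A ∧
    A.card ≤ 2 ∧ (∀ c ∈ A, ∃ p ∈ Λ, ((p.1 - i) / 2, p.2) = c) ∧
    ∀ (B K : Set (ℕ × ℕ)) (ρ : ℕ × ℕ → ℕ × ℕ) (s : ℕ), Ctx i κ hu hv Λ B K ρ A s →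
      HasLegs K B A s

/-- A maximal horizontal run. -/
structure Run (Λ : Set (ℕ × ℕ)) (a b y : ℕ) : Prop where
  le : a ≤ b
  pos : 10 ≤ a
  mem : ∀ x, a ≤ x → x ≤ b → (x, y) ∈ Λ
  l : (a - 1, y) ∉ Λ
  r : (b + 1, y) ∉ Λ

variable {Λ : Set (ℕ × ℕ)}

lemma run_of (hf : Λ.Finite) (hpos : ∀ p ∈ Λ, 10 ≤ p.1 ∧ 10 ≤ p.2) {p : ℕ × ℕ} (hp : p ∈ Λ) :
    ∃ a b, Run Λ a b p.2 ∧ a ≤ p.1 ∧ p.1 ≤ b := by
  classical
  have e1 : ∃ n, ∀ x, n ≤ x → x ≤ p.1 → (x, p.2) ∈ Λ := by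
    refine ⟨p.1, fun x h1 h2 => ?_⟩
    have : x = p.1 := by omega
    rw [this]
    exact hp
  have e2 : ∃ n, p.1 < n ∧ (n, p.2) ∉ Λ := by
    by_contra hcon
    push Not at hcon
    refine (Set.infinite_of_injective_forall_mem (f := fun n : ℕ => (p.1 + 1 + n, p.2)) ?_ ?_) hf
    · intro n m hnm
      simp only [Prod.mk.injEq] at hnm
      omega
    · intro n
      exact hcon _ (by omega)
  obtain ⟨h1, h2⟩ := Nat.find_spec e2
  have h3 := Nat.find_spec e1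
  have h4 : Nat.find e1 ≤ p.1 := by
    refine Nat.find_min' e1 ?_
    intro x h1 h2
    have : x = p.1 := by omega
    rw [this]
    exact hp
  have h5 : 10 ≤ Nat.find e1 := (hpos _ (h3 _ le_rfl h4)).1
  refine ⟨Nat.find e1, Nat.find e2 - 1, ⟨by omega, h5, ?_, ?_, ?_⟩, h4, by omega⟩
  · intro x hx1 hx2
    rcases Nat.lt_or_ge p.1 x with h6 | h6
    · have h7 := Nat.find_min e2 (m := x) (by omega)
      by_contra h8
      exact h7 ⟨h6, h8⟩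
    · exact h3 x hx1 h6
  · intro h6
    refine Nat.find_min e1 (m := Nat.find e1 - 1) (by omega) ?_
    intro x hx1 hx2
    rcases Nat.lt_or_ge x (Nat.find e1) with h7 | h7
    · have : x = Nat.find e1 - 1 := by omega
      rw [this]
      exact h6
    · exact h3 x h7 hx2
  · rw [show Nat.find e2 - 1 + 1 = Nat.find e2 by omega]
    exact h2

lemma Run.sgl {a b y i : ℕ} (h : Run Λ a b y) (hi : i ≤ 1) (ha : (a + i) % 2 = 1) :
    Sg Λ i (a, y) := by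
  refine ⟨h.mem a le_rfl h.le, ?_⟩
  intro p' hp' h1 h2
  simp only at h1 h2
  have h3 := h.pos
  have h4 : p'.1 = a ∨ p'.1 = a - 1 := by omega
  rcases h4 with h4 | h4
  · exact Prod.ext h4 h2
  · exact absurd hp' (by rw [show p' = (a - 1, y) from Prod.ext h4 h2]; exact h.l)

lemma Run.sgr {a b y i : ℕ} (h : Run Λ a b y) (hi : i ≤ 1) (hb : (b + i) % 2 = 0) :
    Sg Λ i (b, y) := by
  refine ⟨h.mem b h.le le_rfl, ?_⟩
  intro p' hp' h1 h2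
  simp only at h1 h2
  have h3 := h.pos
  have h3' := h.le
  have h4 : p'.1 = b ∨ p'.1 = b + 1 := by omega
  rcases h4 with h4 | h4
  · exact Prod.ext h4 h2
  · exact absurd hp' (by rw [show p' = (b + 1, y) from Prod.ext h4 h2]; exact h.r)

/-- Two different runs are apart. -/
lemma Run.dis {a b y a' b' y' x : ℕ} (h : Run Λ a b y) (h' : Run Λ a' b' y')
    (hx : a' ≤ x ∧ x ≤ b') (hne : ¬ (y' = y ∧ a ≤ x ∧ x ≤ b)) :
    y ≠ y' ∨ b + 1 < a' ∨ b' + 1 < a := by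
  by_contra hcon
  push Not at hcon
  obtain ⟨h1, h2, h3⟩ := hcon
  subst h1
  have h4 := h.pos
  have h5 := h.le
  rcases Nat.lt_or_ge x a with h6 | h6
  · exact h.l (h'.mem (a - 1) (by omega) (by omega))
  · exact h.r (h'.mem (b + 1) (by omega) (by omega))

/-- The single of an odd run. -/
lemma Run.odd {a b y : ℕ} (h : Run Λ a b y) (hl : (a + b) % 2 = 0) {i : ℕ} (hi : i ≤ 1) :
    ∃ x, a ≤ x ∧ x ≤ b ∧ Sg Λ i (x, y) ∧
      (∀ x', a ≤ x' → x' ≤ b → (x' - i) / 2 = (x - i) / 2 → x' = x) ∧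
      ((x = a ∧ (a + i) % 2 = 1) ∨ (x = b ∧ (b + i) % 2 = 0)) := by
  have h1 := h.le
  have h2 := h.pos
  by_cases ha : (a + i) % 2 = 1
  · exact ⟨a, le_rfl, h.le, h.sgl hi ha, fun x' _ _ _ => by omega, Or.inl ⟨rfl, ha⟩⟩
  · exact ⟨b, h.le, le_rfl, h.sgr hi (by omega), fun x' _ _ _ => by omega,
      Or.inr ⟨rfl, by omega⟩⟩

/-- **Two runs.** -/
lemma two_runs {a b y a' b' y' : ℕ} (h : Run Λ a b y) (h' : Run Λ a' b' y')
    (hd : y ≠ y' ∨ b + 1 < a' ∨ b' + 1 < a) : Det Λ ∨ ((a + b) % 2 = 0 ∧ (a' + b') % 2 = 0) ∨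
      ((a + b) % 2 = 1 ∧ (a' + b') % 2 = 1 ∧ (a + a') % 2 = 1) := by
  have l1 := h.le
  have l2 := h'.le
  have key : ∀ {a b y a' b' y' : ℕ}, Run Λ a b y → Run Λ a' b' y' →
      (y ≠ y' ∨ b + 1 < a' ∨ b' + 1 < a) → (a + b) % 2 = 1 → (a' + b') % 2 = 0 → Det Λ := by
    intro a b y a' b' y' h h' hd h1 h2
    have l1 := h.le
    have l2 := h'.le
    obtain ⟨x, hx1, hx2, hx3, _⟩ := h'.odd h2 (i := (a + 1) % 2) (by omega)
    refine ⟨(a + 1) % 2, by omega, (a, y), (b, y), (x, y'), ?_, ?_, ?_, h.sgl (by omega)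
      (by omega), h.sgr (by omega) (by omega), hx3⟩
    · intro h3
      rw [Prod.mk.injEq] at h3
      omega
    · intro h3
      rw [Prod.mk.injEq] at h3
      omega
    · intro h3
      rw [Prod.mk.injEq] at h3
      omega
  by_cases h1 : (a + b) % 2 = 0
  · by_cases h2 : (a' + b') % 2 = 0
    · exact Or.inr (Or.inl ⟨h1, h2⟩)
    · exact Or.inl (key h' h (by omega) (by omega) h1)
  · by_cases h2 : (a' + b') % 2 = 0
    · exact Or.inl (key h h' hd (by omega) h2)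
    · by_cases h3 : (a + a') % 2 = 1
      · exact Or.inr (Or.inr ⟨by omega, by omega, h3⟩)
      · left
        refine ⟨(a + 1) % 2, by omega, (a, y), (b, y), (a', y'), ?_, ?_, ?_, h.sgl (by omega)
          (by omega), h.sgr (by omega) (by omega), h'.sgl (by omega) (by omega)⟩
        · intro h3
          rw [Prod.mk.injEq] at h3
          omega
        · intro h3
          rw [Prod.mk.injEq] at h3
          omega
        · intro h3
          rw [Prod.mk.injEq] at h3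
          omega

/-- **Three runs.** -/
lemma three_runs {a b y a' b' y' a2 b2 y2 : ℕ} (h : Run Λ a b y) (h' : Run Λ a' b' y')
    (h2 : Run Λ a2 b2 y2) (hd : y ≠ y' ∨ b + 1 < a' ∨ b' + 1 < a)
    (hd2 : y ≠ y2 ∨ b + 1 < a2 ∨ b2 + 1 < a) (hd3 : y' ≠ y2 ∨ b' + 1 < a2 ∨ b2 + 1 < a') :
    Det Λ := by
  have l1 := h.le
  have l2 := h'.le
  have l3 := h2.le
  rcases two_runs h h' hd with h3 | h3
  · exact h3
  rcases two_runs h h2 hd2 with h4 | h4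
  · exact h4
  rcases two_runs h' h2 hd3 with h5 | h5
  · exact h5
  have h6 : (a + b) % 2 = 0 ∧ (a' + b') % 2 = 0 ∧ (a2 + b2) % 2 = 0 := by omega
  obtain ⟨x, g1, g2, g3, _⟩ := h.odd h6.1 (i := 0) (by omega)
  obtain ⟨x', g1', g2', g3', _⟩ := h'.odd h6.2.1 (i := 0) (by omega)
  obtain ⟨x2, k1, k2, k3, _⟩ := h2.odd h6.2.2 (i := 0) (by omega)
  refine ⟨0, by omega, (x, y), (x', y'), (x2, y2), ?_, ?_, ?_, g3, g3', k3⟩
  · intro h3
    rw [Prod.mk.injEq] at h3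
    omega
  · intro h3
    rw [Prod.mk.injEq] at h3
    omega
  · intro h3
    rw [Prod.mk.injEq] at h3
    omega

/-- plans with one centre -/
lemma plan_one {i hu hv : ℕ} {x y : ℕ} (hi : i ≤ 1) (h1 : hu ≤ 1) (h2 : hv ≤ 1)
    (hx : (x, y) ∈ Λ) (h : ∀ (B K : Set (ℕ × ℕ)) (ρ : ℕ × ℕ → ℕ × ℕ) (s : ℕ),
      Ctx i ((x - i) / 2, y) hu hv Λ B K ρ {((x - i) / 2, y)} s →
      HasLegs K B {((x - i) / 2, y)} s) : Plan Λ := by
  refine ⟨i, ((x - i) / 2, y), hu, hv, {((x - i) / 2, y)}, hi, h1, h2,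
    Finset.mem_singleton_self _, by simp, ?_, h⟩
  intro c hc
  rw [Finset.mem_singleton] at hc
  exact ⟨(x, y), hx, hc.symm⟩

/-- plans with two centres -/
lemma plan_two {i hu hv : ℕ} {x y x' y' : ℕ} (hi : i ≤ 1) (h1 : hu ≤ 1) (h2 : hv ≤ 1)
    (hx : (x, y) ∈ Λ) (hx' : (x', y') ∈ Λ)
    (h : ∀ (B K : Set (ℕ × ℕ)) (ρ : ℕ × ℕ → ℕ × ℕ) (s : ℕ),
      Ctx i ((x - i) / 2, y) hu hv Λ B K ρ {((x - i) / 2, y), ((x' - i) / 2, y')} s →
      HasLegs K B {((x - i) / 2, y), ((x' - i) / 2, y')} s) : Plan Λ := by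
  classical
  refine ⟨i, ((x - i) / 2, y), hu, hv, {((x - i) / 2, y), ((x' - i) / 2, y')}, hi, h1, h2,
    Finset.mem_insert_self _ _, Finset.card_le_two, ?_, h⟩
  intro c hc
  rw [Finset.mem_insert, Finset.mem_singleton] at hc
  rcases hc with hc | hc
  · exact ⟨(x, y), hx, hc.symm⟩
  · exact ⟨(x', y'), hx', hc.symm⟩

end DA
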