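import Pool.Agent.DA.LocFull
import Pool.Agent.DA.WComb

/-!
# Free ways near a missing row and near a missing star
-/

open Set BIC BICS
open scoped Matroid

namespace DA

open Gad

universe u

/-- free ways near a missing star -/
lemma star_esc {x₀ y₀ : ℕ} (hu : 1 ≤ x₀ ∧ 1 ≤ y₀) {T : Set (ℕ × ℕ)}
    (hT : T ⊆ star (x₀, y₀) ∨ ∃ a, T ⊆ {(x₀, y₀), a}) (huT : (x₀, y₀) ∈ T) (x y : ℕ) (hy : 1 ≤ y)
    (hxy : (x, y) ∉ T) : RunR {a | (x₀, y₀) ∈ a} T x y ∨ RunL {a | (x₀, y₀) ∈ a} T x y ∨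
      (s((x, y), vn (x, y)) ∉ {a : Sym2 (ℕ × ℕ) | (x₀, y₀) ∈ a} ∧ vn (x, y) ∉ T ∧
        RunR {a | (x₀, y₀) ∈ a} T x (vn (x, y)).2) := by
  have hne : ¬ (x = x₀ ∧ y = y₀) := by
    rintro ⟨rfl, rfl⟩
    exact hxy huT
  have hed : ∀ a b c d : ℕ, ¬ (a = x₀ ∧ b = y₀) → ¬ (c = x₀ ∧ d = y₀) →
      s((a, b), (c, d)) ∉ {a : Sym2 (ℕ × ℕ) | (x₀, y₀) ∈ a} := by
    intro a b c d h1 h2 h3
    rw [mem_ofPred_eq, Sym2.mem_iff, Prod.mk.injEq, Prod.mk.injEq] at h3
    omega
  rcases hT with hT | ⟨⟨a₁, a₂⟩, hT⟩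
  · have hT' : ∀ a b, (a, b) ∈ T → (b = y₀ ∧ a ≤ x₀ + 1 ∧ x₀ ≤ a + 1) ∨ (b ≠ y₀ ∧ a = x₀) := by
      intro a b h
      have h1 := hT h
      have h2 := vn_cases (x₀, y₀)
      unfold star at h1
      simp only [mem_insert_iff, mem_singleton_iff, Prod.mk.injEq] at h1
      rcases h1 with h1 | h1 | h1 | h1
      · omega
      · omega
      · omega
      · rw [← h1] at h2
        simp only [Prod.mk.injEq] at h2
        omega
    by_cases h1 : x₀ < x ∨ (x = x₀ ∧ y ≠ y₀)
    · left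
      intro x' hx'
      refine ⟨fun h => ?_, hed _ _ _ _ (by omega) (by omega)⟩
      have := hT' _ _ h
      omega
    · right; left
      intro x' hx'
      refine ⟨fun h => ?_, hed _ _ _ _ (by omega) (by omega)⟩
      have h2 := hT' _ _ h
      by_cases h3 : x + 1 = x₀
      · omega
      · omega
  · have hT' : ∀ a b, (a, b) ∈ T → (a = x₀ ∧ b = y₀) ∨ (a = a₁ ∧ b = a₂) := by
      intro a b h
      have h1 := hT h
      simp only [mem_insert_iff, mem_singleton_iff, Prod.mk.injEq] at h1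
      exact h1
    by_cases haT : (a₁, a₂) ∈ T
    · have hne2 : ¬ (x = a₁ ∧ y = a₂) := by
        rintro ⟨rfl, rfl⟩
        exact hxy haT
      by_cases h1 : (y = y₀ → x₀ < x) ∧ (y = a₂ → a₁ < x)
      · left
        intro x' hx'
        refine ⟨fun h => ?_, hed _ _ _ _ (by omega) (by omega)⟩
        have := hT' _ _ h
        omega
      · by_cases h2 : (y = y₀ → x < x₀) ∧ (y = a₂ → x < a₁)
        · right; left
          intro x' hx'
          refine ⟨fun h => ?_, hed _ _ _ _ (by omega) (by omega)⟩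
          have := hT' _ _ h
          omega
        · right; right
          have h3 : y = y₀ ∧ y = a₂ := by omega
          obtain ⟨⟨v1, v2⟩, hvn⟩ : ∃ v', vn (x, y) = v' := ⟨_, rfl⟩
          have h4 := vn_cases (x, y)
          rw [hvn] at h4 ⊢
          simp only [Prod.mk.injEq] at h4
          refine ⟨hed _ _ _ _ (by omega) (by omega), fun h => ?_, ?_⟩
          · have := hT' _ _ h
            omega
          · intro x' hx'
            dsimp only
            refine ⟨fun h => ?_, hed _ _ _ _ (by omega) (by omega)⟩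
            have := hT' _ _ h
            omega
    · have hT2 : ∀ a b, (a, b) ∈ T → (a = x₀ ∧ b = y₀) := by
        intro a b h
        rcases hT' a b h with h1 | ⟨rfl, rfl⟩
        · exact h1
        · exact absurd h haT
      by_cases h1 : y = y₀ → x₀ < x
      · left
        intro x' hx'
        refine ⟨fun h => ?_, hed _ _ _ _ (by omega) (by omega)⟩
        have := hT2 _ _ h
        omega
      · right; left
        intro x' hx'
        refine ⟨fun h => ?_, hed _ _ _ _ (by omega) (by omega)⟩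
        have := hT2 _ _ h
        omega

/-- free ways near a missing row -/
lemma row_esc {u v : ℕ × ℕ} (huv : wadj u v) {T : Set (ℕ × ℕ)}
    (hT : T ⊆ {u, v} ∨ ∃ a, T ⊆ {a}) (x y : ℕ) (hy : 1 ≤ y)
    (hxy : (x, y) ∉ T) : RunR {s(u, v)} T x y ∨ RunL {s(u, v)} T x y ∨
      (s((x, y), vn (x, y)) ∉ ({s(u, v)} : Set (Sym2 (ℕ × ℕ))) ∧ vn (x, y) ∉ T ∧
        RunR {s(u, v)} T x (vn (x, y)).2) := by
  obtain ⟨u₁, u₂⟩ := u
  obtain ⟨v₁, v₂⟩ := v
  have hw := huv
  unfold wadj at hw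
  dsimp only at hw
  have hed : ∀ a b c d : ℕ, ¬ (a = u₁ ∧ b = u₂ ∧ c = v₁ ∧ d = v₂) →
      ¬ (a = v₁ ∧ b = v₂ ∧ c = u₁ ∧ d = u₂) →
      s((a, b), (c, d)) ∉ ({s((u₁, u₂), (v₁, v₂))} : Set (Sym2 (ℕ × ℕ))) := by
    intro a b c d h1 h2 h3
    rw [mem_singleton_iff, Sym2.eq_iff, Prod.mk.injEq, Prod.mk.injEq, Prod.mk.injEq,
      Prod.mk.injEq] at h3
    omega
  rcases hT with hT | ⟨⟨a₁, a₂⟩, hT⟩
  · have hT' : ∀ a b, (a, b) ∈ T → (a = u₁ ∧ b = u₂) ∨ (a = v₁ ∧ b = v₂) := by
      intro a b h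
      have h1 := hT h
      simp only [mem_insert_iff, mem_singleton_iff, Prod.mk.injEq] at h1
      exact h1
    by_cases h1 : (y = u₂ → y = v₂ → (u₁ ≤ x ∧ v₁ ≤ x)) ∧ (y = u₂ → y ≠ v₂ → u₁ ≤ x) ∧
        (y = v₂ → y ≠ u₂ → v₁ ≤ x)
    · left
      intro x' hx'
      refine ⟨fun h => ?_, hed _ _ _ _ (by omega) (by omega)⟩
      have := hT' _ _ h
      omega
    · right; left
      intro x' hx'
      refine ⟨fun h => ?_, hed _ _ _ _ (by omega) (by omega)⟩
      have := hT' _ _ h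
      omega
  · have hT' : ∀ a b, (a, b) ∈ T → (a = a₁ ∧ b = a₂) := by
      intro a b h
      have h1 := hT h
      simp only [mem_singleton_iff, Prod.mk.injEq] at h1
      exact h1
    by_cases haT : (a₁, a₂) ∈ T
    · have hne2 : ¬ (x = a₁ ∧ y = a₂) := by
        rintro ⟨rfl, rfl⟩
        exact hxy haT
      by_cases h1 : (y = u₂ → y = v₂ → (u₁ ≤ x ∧ v₁ ≤ x)) ∧ (y = a₂ → a₁ < x)
      · left
        intro x' hx'
        refine ⟨fun h => ?_, hed _ _ _ _ (by omega) (by omega)⟩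
        have := hT' _ _ h
        omega
      · by_cases h2 : (y = u₂ → y = v₂ → (x ≤ u₁ ∧ x ≤ v₁)) ∧ (y = a₂ → x < a₁)
        · right; left
          intro x' hx'
          refine ⟨fun h => ?_, hed _ _ _ _ (by omega) (by omega)⟩
          have := hT' _ _ h
          omega
        · right; right
          have h3 : y = u₂ ∧ y = v₂ ∧ y = a₂ := by omega
          obtain ⟨⟨w1, w2⟩, hvn⟩ : ∃ v', vn (x, y) = v' := ⟨_, rfl⟩
          have h4 := vn_cases (x, y)
          rw [hvn] at h4 ⊢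
          simp only [Prod.mk.injEq] at h4
          refine ⟨hed _ _ _ _ (by omega) (by omega), fun h => ?_, ?_⟩
          · have := hT' _ _ h
            omega
          · intro x' hx'
            dsimp only
            refine ⟨fun h => ?_, hed _ _ _ _ (by omega) (by omega)⟩
            have := hT' _ _ h
            omega
    · have hT2 : ∀ a b, (a, b) ∉ T := by
        intro a b h
        obtain ⟨rfl, rfl⟩ := hT' a b h
        exact haT h
      by_cases h1 : y = u₂ → y = v₂ → (u₁ ≤ x ∧ v₁ ≤ x)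
      · left
        intro x' hx'
        exact ⟨hT2 _ _, hed _ _ _ _ (by omega) (by omega)⟩
      · right; left
        intro x' hx'
        exact ⟨hT2 _ _, hed _ _ _ _ (by omega) (by omega)⟩

end DA
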