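import Pool.Agent.DA.Geo

/-!
# Contracting all holes of a grid
-/

open Set BIC BICS
open scoped Matroid

namespace DA

open Gad

/-- A foot at a vertical side stays fat when one other vertex is removed. -/
lemma fat_vert {A : Set (ℕ × ℕ)} {x y c : ℕ} {w : ℕ × ℕ} (hc : c = x ∨ c + 1 = x) (hy : 2 ≤ y)
    (hA : ∀ u t, (u = c ∨ u = c + 1) → y ≤ t + 2 → t ≤ y + 2 → (u, t) ∈ A) (hw : w ≠ (x, y)) :
    Fat (A \ {w}) (x, y) := by
  obtain ⟨W, hW⟩ : ∃ W, W = A \ {w} := ⟨_, rfl⟩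
  have hm : ∀ u t, (u = c ∨ u = c + 1) → y ≤ t + 2 → t ≤ y + 2 → (w.1 ≠ u ∨ w.2 ≠ t) →
      (u, t) ∈ W := by
    intro u t h1 h2 h3 h4
    rw [hW]
    refine ⟨hA u t h1 h2 h3, ?_⟩
    rintro rfl
    simp at h4
  have hw' : w.1 ≠ x ∨ w.2 ≠ y := by
    by_contra hcon
    push Not at hcon
    exact hw (Prod.ext hcon.1 hcon.2)
  rw [← hW]
  clear hW
  by_cases h : y + 1 ≤ w.2
  · refine ⟨c, y - 2, hm _ _ (by omega) (by omega) (by omega) (by omega),
      hm _ _ (by omega) (by omega) (by omega) (by omega),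
      hm _ _ (by omega) (by omega) (by omega) (by omega),
      hm _ _ (by omega) (by omega) (by omega) (by omega), ?_⟩
    refine (rch_col (y' := y - 2) (fun t h1 h2 => ?_)).trans (rch_row (fun t h1 h2 => ?_))
    · exact hm _ _ (by omega) (by omega) (by omega) (by omega)
    · exact hm _ _ (by omega) (by omega) (by omega) (by omega)
  · refine ⟨c, y + 1, hm _ _ (by omega) (by omega) (by omega) (by omega),
      hm _ _ (by omega) (by omega) (by omega) (by omega),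
      hm _ _ (by omega) (by omega) (by omega) (by omega),
      hm _ _ (by omega) (by omega) (by omega) (by omega), ?_⟩
    refine (rch_col (y' := y + 1) (fun t h1 h2 => ?_)).trans (rch_row (fun t h1 h2 => ?_))
    · exact hm _ _ (by omega) (by omega) (by omega) (by omega)
    · exact hm _ _ (by omega) (by omega) (by omega) (by omega)

/-- A foot at the upper side. -/
lemma fat_horz {A : Set (ℕ × ℕ)} {x y : ℕ} {w : ℕ × ℕ} (hx : 2 ≤ x)
    (hA : ∀ u t, (t = y ∨ t = y + 1) → x ≤ u + 2 → u ≤ x + 2 → (u, t) ∈ A) (hw : w ≠ (x, y)) :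
    Fat (A \ {w}) (x, y) := by
  obtain ⟨W, hW⟩ : ∃ W, W = A \ {w} := ⟨_, rfl⟩
  have hm : ∀ u t, (t = y ∨ t = y + 1) → x ≤ u + 2 → u ≤ x + 2 → (w.1 ≠ u ∨ w.2 ≠ t) →
      (u, t) ∈ W := by
    intro u t h1 h2 h3 h4
    rw [hW]
    refine ⟨hA u t h1 h2 h3, ?_⟩
    rintro rfl
    simp at h4
  have hw' : w.1 ≠ x ∨ w.2 ≠ y := by
    by_contra hcon
    push Not at hcon
    exact hw (Prod.ext hcon.1 hcon.2)
  rw [← hW]
  clear hW
  by_cases h : x + 1 ≤ w.1
  · refine ⟨x - 2, y, hm _ _ (by omega) (by omega) (by omega) (by omega),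
      hm _ _ (by omega) (by omega) (by omega) (by omega),
      hm _ _ (by omega) (by omega) (by omega) (by omega),
      hm _ _ (by omega) (by omega) (by omega) (by omega), ?_⟩
    refine rch_row (fun t h1 h2 => ?_)
    exact hm _ _ (by omega) (by omega) (by omega) (by omega)
  · refine ⟨x + 1, y, hm _ _ (by omega) (by omega) (by omega) (by omega),
      hm _ _ (by omega) (by omega) (by omega) (by omega),
      hm _ _ (by omega) (by omega) (by omega) (by omega),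
      hm _ _ (by omega) (by omega) (by omega) (by omega), ?_⟩
    refine rch_row (fun t h1 h2 => ?_)
    exact hm _ _ (by omega) (by omega) (by omega) (by omega)

/-- The foot number `i` of the hole `q`. -/
def fo (q : ℕ × ℕ) (L i : ℕ) (s : ℕ × ℕ) : ℕ × ℕ :=
  if i = 0 then (q.1 - 1, s.2) else if i = 1 then (q.1 + L, s.2) else (s.1, q.2 + L)

lemma mem_hls {H : Finset (ℕ × ℕ)} {L : ℕ} {v : ℕ × ℕ} : v ∈ hls H L ↔
    ∃ q ∈ H, q.1 ≤ v.1 ∧ v.1 < q.1 + L ∧ q.2 ≤ v.2 ∧ v.2 < q.2 + L := by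
  unfold hls
  simp only [mem_iUnion, exists_prop, Gad.mem_rct]

section

variable {α : Type*} {S : Set α} {ends : α → Sym2 (ℕ × ℕ)}

lemma foot_fat {X : ℕ × ℕ} {n L i : ℕ} {H : Finset (ℕ × ℕ)} (hi : i < 3) {q : ℕ × ℕ}
    (hq : q ∈ H) {s : ℕ × ℕ} (hs : Inn q L s.1 s.2)
    (hfar : ∀ q ∈ H, ∀ q' ∈ H, q ≠ q' → CWL.Far 10 q L q' L)
    (hb : X.1 + 5 ≤ q.1 ∧ X.2 + 5 ≤ q.2 ∧ q.1 + L + 5 ≤ X.1 + n ∧ q.2 + L + 5 ≤ X.2 + n)
    {w : ℕ × ℕ} (hw : w ≠ fo q L i s) :
    Fat ((rect X.1 X.2 n n \ hls H L) \ {w}) (fo q L i s) := by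
  obtain ⟨g1, g2, g3, g4⟩ := hs
  have hmem : ∀ u t, (q.1 ≤ u + 2 ∧ u ≤ q.1 + L + 1 ∧ q.2 ≤ t + 2 ∧ t ≤ q.2 + L + 1) →
      (u < q.1 ∨ q.1 + L ≤ u ∨ t < q.2 ∨ q.2 + L ≤ t) → (u, t) ∈ rect X.1 X.2 n n \ hls H L := by
    intro u t h1 h2
    refine ⟨by rw [Gad.mem_rct]; simp only; omega, ?_⟩
    rw [mem_hls]
    rintro ⟨q', hq', h3⟩
    simp only at h3
    by_cases hne : q = q'
    · subst hne; omega
    · have h4 := hfar q hq q' hq' hne
      unfold CWL.Far at h4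
      omega
  have hi' : i = 0 ∨ i = 1 ∨ i = 2 := by omega
  rcases hi' with rfl | rfl | rfl
  · have e : fo q L 0 s = (q.1 - 1, s.2) := rfl
    rw [e] at hw ⊢
    refine fat_vert (c := q.1 - 2) (by omega) (by omega) ?_ hw
    intro u t h1 h2 h3
    exact hmem u t (by omega) (by omega)
  · have e : fo q L 1 s = (q.1 + L, s.2) := rfl
    rw [e] at hw ⊢
    refine fat_vert (c := q.1 + L) (by omega) (by omega) ?_ hw
    intro u t h1 h2 h3
    exact hmem u t (by omega) (by omega)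
  · have e : fo q L 2 s = (s.1, q.2 + L) := rfl
    rw [e] at hw ⊢
    refine fat_horz (by omega) ?_ hw
    intro u t h1 h2 h3
    exact hmem u t (by omega) (by omega)

/-- Fat vertices form a full region. -/
lemma fat_full {R W : Set (ℕ × ℕ)} (hP : Pres S ends R) (hWR : W ⊆ R) (hWf : W.Finite) :
    ∃ G, FullB S ends {v | v ∈ W ∧ Fat W v} G := by
  refine full_of_fat hP _ _ (hWf.subset fun v hv => hv.1) rfl (fun v hv => hWR hv.1) ?_
  rintro v ⟨hv, x, y, h00, h10, h01, h11, hr⟩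
  have hfat : ∀ u, Rch W v u → Fat W u := by
    intro u hu
    exact ⟨x, y, h00, h10, h01, h11, hu.symm.trans hr⟩
  have hstep : ∀ u, Rch W v u → Rch {v | v ∈ W ∧ Fat W v} v u := by
    intro u hu
    induction hu with
    | refl => exact Relation.ReflTransGen.refl
    | tail h1 h2 ih =>
      exact ih.tail ⟨h2.1, ⟨h2.2.1, hfat _ h1⟩, ⟨h2.2.2, hfat _ (h1.tail h2)⟩⟩
  have h10' : Rch W v (x + 1, y) := hr.tail ⟨by unfold Adj; simp, h00, h10⟩
  have h01' : Rch W v (x, y + 1) := hr.tail ⟨by unfold Adj; simp, h00, h01⟩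
  have h11' : Rch W v (x + 1, y + 1) := h10'.tail ⟨by unfold Adj; simp, h10, h11⟩
  exact ⟨x, y, ⟨h00, hfat _ hr⟩, ⟨h10, hfat _ h10'⟩, ⟨h01, hfat _ h01'⟩, ⟨h11, hfat _ h11'⟩,
    hstep _ hr⟩

/-- **All holes of a grid are contracted.** -/
theorem clean_all {M : Matroid α} [M.Finite] (hB : Bic M S ends) {X : ℕ × ℕ} {n L : ℕ}
    (hG : CWL.GrdU S ends (rect X.1 X.2 n n)) [Nonempty α] (H : Finset (ℕ × ℕ)) (hL : 2 ≤ L)
    (hfar : ∀ q ∈ H, ∀ q' ∈ H, q ≠ q' → CWL.Far 10 q L q' L)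
    (hb : ∀ q ∈ H, X.1 + 5 ≤ q.1 ∧ X.2 + 5 ≤ q.2 ∧ q.1 + L + 5 ≤ X.1 + n ∧
      q.2 + L + 5 ≤ X.2 + n)
    (τ : ℕ × ℕ → ℕ) (s : ℕ × ℕ → ℕ → ℕ × ℕ) (hc : ∀ q ∈ H, Cfg q L (τ q) (s q)) :
    ∃ F : Set α, Elim S ends (hls H L) F ∧
      CWL.GrdU (ins S ends (hls H L)ᶜ) ends (rect X.1 X.2 n n \ hls H L) ∧
      ∀ z ∈ M.closure S, z ∉ S → ∀ Hz ⊆ H, Hz.Nonempty →
        CWL.Loc M S ends z ⊆ hls Hz L →
        (∀ q ∈ Hz, ∀ i < τ q, s q i ∈ CWL.Loc M S ends z ∧ ∀ j, 1 ≤ j →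
          j ≤ rp q L i (s q i) → xp i (s q i) j ∉ CWL.Loc M S ends z) →
        CWL.Loc (M ／ F) (ins S ends (hls H L)ᶜ) ends z =
            {w | ∃ q ∈ Hz, ∃ i < τ q, fo q L i (s q i) = w} ∧
          z ∈ (M ／ F).closure (ins S ends (hls H L)ᶜ) ∧ z ∉ ins S ends (hls H L)ᶜ := by
  classical
  have hP : Pres S ends (rect X.1 X.2 n n) := fun p q hpq hp hq => hG.surj p q hpq hp hq
  have hch : ∀ q : ℕ × ℕ, ∃ F : Set α, q ∈ H → (Elim S ends (rect q.1 q.2 L L) F ∧
      (∀ e ∈ F, ∀ v ∈ ends e, v ∈ rect q.1 q.2 L L ∪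
        {w | ∃ i < τ q, xp i (s q i) (rp q L i (s q i)) = w}) ∧
      ∀ i < τ q, Leg S ends (rect q.1 q.2 L L) F (rp q L i (s q i)) (xp i (s q i))) := by
    intro q
    by_cases hq : q ∈ H
    · have h1 := hb q hq
      obtain ⟨F, hF⟩ := geo hP (q := q) (L := L) (τ := τ q) (by omega) hL (by
        intro v hv
        rw [Gad.mem_rct] at hv ⊢
        omega) (hc q hq)
      exact ⟨F, fun _ => hF⟩
    · exact ⟨∅, fun h => absurd h hq⟩
  choose Fq hFq using hch
  have hfoeq : ∀ q ∈ H, ∀ i < τ q, xp i (s q i) (rp q L i (s q i)) = fo q L i (s q i) := by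
    intro q hq i hi
    have h3 := (hc q hq).t3
    have h1 := hb q hq
    exact xp_foot (by omega) (by omega) ((hc q hq).inn i hi)
  -- the box of a hole
  have hboxx : ∀ q ∈ H, ∀ i < τ q, ∀ v ∈ xp i (s q i) '' Iic (rp q L i (s q i)),
      q.1 ≤ v.1 + 1 ∧ v.1 ≤ q.1 + L ∧ q.2 ≤ v.2 ∧ v.2 ≤ q.2 + L := by
    intro q hq i hi v hv
    have h3 := (hc q hq).t3
    have h1 := hb q hq
    have h4 := xp_mem_Iic (by omega) (by omega) ((hc q hq).inn i hi) hv
    obtain ⟨g1, g2, g3, g4⟩ := (hc q hq).inn i hi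
    omega
  have hbox : ∀ q ∈ H, ∀ e ∈ Fq q, ∀ v ∈ ends e,
      q.1 ≤ v.1 + 1 ∧ v.1 ≤ q.1 + L ∧ q.2 ≤ v.2 ∧ v.2 ≤ q.2 + L := by
    intro q hq e he v hv
    rcases (hFq q hq).2.1 e he v hv with h1 | ⟨i, hi, rfl⟩
    · rw [Gad.mem_rct] at h1
      omega
    · exact hboxx q hq i hi _ ⟨_, mem_Iic.2 le_rfl, rfl⟩
  have hfoot : ∀ q ∈ H, ∀ i < τ q, fo q L i (s q i) ∉ hls H L := by
    intro q hq i hi hcon
    obtain ⟨q', hq', h1⟩ := mem_hls.1 hcon
    rw [← hfoeq q hq i hi] at h1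
    by_cases hne : q = q'
    · subst hne
      obtain ⟨e, _, _, _, h5, _⟩ := (hFq q hq).2.2 i hi
      exact h5 (by rw [Gad.mem_rct]; exact h1)
    · have h2 := hboxx q hq i hi _ ⟨_, mem_Iic.2 le_rfl, rfl⟩
      have h4 := hfar q hq q' hq' hne
      unfold CWL.Far at h4
      omega
  have hElim : ∀ H' ⊆ H, Elim S ends (hls H' L) (⋃ q ∈ H', Fq q) := by
    intro H' hH'
    refine Elim.biUnion H' (fun q => rect q.1 q.2 L L) Fq (fun q hq => (hFq q (hH' hq)).1) ?_ ?_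
    · intro q hq q' hq' hne e he v hv hv'
      have h1 := hbox q (hH' hq) e he v hv
      have h4 := hfar q (hH' hq) q' (hH' hq') hne
      rw [Gad.mem_rct] at hv'
      unfold CWL.Far at h4
      omega
    · intro q hq q' hq' hne
      rw [Set.disjoint_left]
      intro v hv hv'
      have h4 := hfar q (hH' hq) q' (hH' hq') hne
      rw [Gad.mem_rct] at hv hv'
      unfold CWL.Far at h4
      omega
  refine ⟨⋃ q ∈ H, Fq q, hElim H Finset.Subset.rfl, ?_, ?_⟩
  · refine ⟨hG.inj.mono fun e he => he.1, ?_, ?_⟩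
    · intro e he
      obtain ⟨p, q, h1, h2, h3, h4⟩ := hG.mem e he.1
      refine ⟨p, q, h1, h2, ⟨h3, fun h => he.2 p (by rw [h1]; simp) h⟩,
        ⟨h4, fun h => he.2 q (by rw [h1]; simp) h⟩⟩
    · intro p q hpq hp hq
      obtain ⟨e, he, h1⟩ := hG.surj p q hpq hp.1 hq.1
      refine ⟨e, ⟨he, fun v hv => ?_⟩, h1⟩
      rw [h1, Sym2.mem_iff] at hv
      rcases hv with rfl | rfl
      · exact hp.2
      · exact hq.2
  · intro z hz hzS Hz hHz hHzne hloc hray
    have hsub : hls Hz L ⊆ hls H L := by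
      intro v hv
      rw [mem_hls] at hv ⊢
      obtain ⟨q, hq, h1⟩ := hv
      exact ⟨q, hHz hq, h1⟩
    have hHR : hls H L ⊆ rect X.1 X.2 n n := by
      intro v hv
      rw [mem_hls] at hv
      obtain ⟨q, hq, h1⟩ := hv
      have h2 := hb q hq
      rw [Gad.mem_rct]
      omega
    obtain ⟨q₀, hq₀⟩ := hHzne
    have hn : 1 ≤ n := by
      have := hb q₀ (hHz hq₀)
      omega
    -- the squares are full
    have hsq : ∀ q, ∃ G, q ∈ H → FullB S ends (rect q.1 q.2 L L) G := by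
      intro q
      by_cases hq : q ∈ H
      · obtain ⟨G, hG'⟩ := full_of_fat hP _ (rect q.1 q.2 L L) (rect_finite _ _ _ _) rfl (by
          intro v hv
          refine hHR (mem_hls.2 ⟨q, hq, ?_⟩)
          rw [Gad.mem_rct] at hv
          omega) (fat0 hL)
        exact ⟨G, fun _ => hG'⟩
      · exact ⟨∅, fun h => absurd h hq⟩
    choose G0 hG0 using hsq
    have hfull : FullB S ends (hls Hz L) (⋃ q ∈ Hz, G0 q) := by
      refine FullB.biUnion Hz (fun q => rect q.1 q.2 L L) G0 (fun q hq => hG0 q (hHz hq)) ?_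
      intro q hq q' hq' hne
      rw [Set.disjoint_left]
      intro v hv hv'
      have h4 := hfar q (hHz hq) q' (hHz hq') hne
      rw [Gad.mem_rct] at hv hv'
      unfold CWL.Far at h4
      omega
    have hvs : ∀ e ∈ S, ∀ v ∈ ends e, v ∈ rect X.1 X.2 n n := by
      intro e he v hv
      obtain ⟨p, q, h1, h2, h3, h4⟩ := hG.mem e he
      rw [h1, Sym2.mem_iff] at hv
      rcases hv with rfl | rfl
      · exact h3
      · exact h4
    refine clean_loc hB (rect_finite _ _ _ _) hvs ((rect_conn hn hn).vconn hP Subset.rfl)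
      (hElim H Finset.Subset.rfl) hz hzS (Uz := hls Hz L) (Fz := ⋃ q ∈ Hz, Fq q)
      (hsub.trans hHR) hsub ?_ hfull ?_ (hElim Hz hHz) ?_
      (Φ := {w | ∃ q ∈ Hz, ∃ i < τ q, fo q L i (s q i) = w}) ?_ ?_ ?_
    · refine ⟨q₀, mem_hls.2 ⟨q₀, hq₀, ?_⟩⟩
      omega
    · refine iUnion₂_subset fun q hq => ?_
      exact subset_iUnion₂ (s := fun q (_ : q ∈ H) => Fq q) q (hHz hq)
    · intro v _ hv
      by_contra hcon
      exact hv (hloc hcon)
    · intro e he v hv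
      obtain ⟨q, hq, heq⟩ := mem_iUnion₂.1 he
      rcases (hFq q (hHz hq)).2.1 e heq v hv with h1 | ⟨i, hi, rfl⟩
      · left
        rw [Gad.mem_rct] at h1
        exact mem_hls.2 ⟨q, hq, h1⟩
      · right
        exact ⟨q, hq, i, hi, (hfoeq q (hHz hq) i hi).symm⟩
    · intro w hw
      obtain ⟨G, hGf⟩ := fat_full hP (W := (rect X.1 X.2 n n \ hls H L) \ {w})
        (sdiff_subset.trans sdiff_subset)
        ((rect_finite _ _ _ _).subset (sdiff_subset.trans sdiff_subset))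
      refine ⟨_, G, hGf, ?_, ?_, ?_, ?_⟩
      · exact (rect_finite X.1 X.2 n n).subset fun v hv => hv.1.1.1
      · rintro _ ⟨q, hq, i, hi, rfl⟩
        have h3 := (hc q (hHz hq)).t3
        have hfat := foot_fat (X := X) (n := n) (i := i) (by omega) (hHz hq)
          ((hc q (hHz hq)).inn i hi) hfar (hb q (hHz hq)) (w := w) (by
            rintro rfl
            exact hw ⟨q, hq, i, hi, rfl⟩)
        refine ⟨?_, hfat⟩
        obtain ⟨x, y, h00, _, _, _, hr⟩ := hfat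
        exact Rch.mem_left hr h00
      · rw [Set.disjoint_left]
        intro v hv hv'
        exact hv.1.1.2 hv'
      · intro hcon
        exact hcon.1.2 rfl
    · rintro _ ⟨q, hq, i, hi, rfl⟩
      obtain ⟨h1, h2⟩ := hray q hq i hi
      refine ⟨rp q L i (s q i), xp i (s q i), hfoeq q (hHz hq) i hi, ?_, ?_, ?_⟩
      · refine ((hFq q (hHz hq)).2.2 i hi).mono ?_ ?_ ?_
        · intro v hv
          rw [Gad.mem_rct] at hv
          exact mem_hls.2 ⟨q, hHz hq, hv⟩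
        · rw [hfoeq q (hHz hq) i hi]
          exact hfoot q (hHz hq) i hi
        · intro f hf hfq v hv hvx
          obtain ⟨q', hq', hfq'⟩ := mem_iUnion₂.1 hf
          have hne : q ≠ q' := by
            rintro rfl
            exact hfq hfq'
          have h3 := hbox q' hq' f hfq' v hv
          have h4 := hboxx q (hHz hq) i hi v hvx
          have h5 := hfar q (hHz hq) q' hq' hne
          unfold CWL.Far at h5
          omega
      · have e0 : xp i (s q i) 0 = s q i := by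
          unfold xp
          split_ifs <;> simp
        rw [e0]
        exact h1
      · intro j hj1 hj2
        by_contra hcon
        exact h2 j hj1 hj2 hcon

end

end DA
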