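import Pool.Agent.DA.HubPic

/-!
# HUB* (row B4 of cell G, problem MP_5165fa_co)

`L` is a set of bounded rank (the lines), `G b` is private for the window `b`, the elements
`τ a b` lie in the span of `L` and `G b`, not in the span of `L`, and are independent modulo `G b`.
If there are more than `C h` labels, `h` the bound for the rank of the `G b`, and enough windows,
then there is a `U_{k,2k}`-minor or a `t × t` array with a joint at every vertex, all of whose
elements are among the `τ a b` and which lies in the span of `L`.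
-/

open Set BIC BICS
open scoped Matroid

namespace DA

universe u v

set_option maxHeartbeats 4000000

variable {α ι : Type*} {M : Matroid α}

section one

/-- The fundamental hyperplanes of a basis modulo `L` have intersection `closure L`. -/
lemma exists_hyper [M.Finite] {L : Set α} (hL : L ⊆ M.E) {β : Type*} [DecidableEq β] {p : β → α}
    {Z : Finset β} (hZ : rk M (L ∪ p '' Z) = rk M L + Z.card) {x : α}
    (hx : x ∈ M.closure (L ∪ p '' Z)) (hxL : x ∉ M.closure L) :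
    ∃ i ∈ Z, x ∉ M.closure (L ∪ p '' ((Z.erase i : Finset β) : Set β)) := by
  classical
  have hxE : x ∈ M.E := M.closure_subset_ground _ hx
  obtain ⟨D, hD, hDmin⟩ : ∃ D ∈ Z.powerset.filter
      (fun D : Finset β => x ∈ M.closure (L ∪ p '' (D : Set β))),
      ∀ D' ∈ Z.powerset.filter (fun D : Finset β => x ∈ M.closure (L ∪ p '' (D : Set β))),
        D.card ≤ D'.card := by
    refine Finset.exists_min_image _ Finset.card ⟨Z, ?_⟩
    exact Finset.mem_filter.2 ⟨Finset.mem_powerset_self _, hx⟩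
  obtain ⟨hDZ, hxD⟩ := Finset.mem_filter.1 hD
  rw [Finset.mem_powerset] at hDZ
  have hDne : D.Nonempty := by
    rw [Finset.nonempty_iff_ne_empty]
    rintro rfl
    rw [Finset.coe_empty, image_empty, union_empty] at hxD
    exact hxL hxD
  obtain ⟨i, hi⟩ := hDne
  refine ⟨i, hDZ hi, fun hcon => ?_⟩
  have hDi : (D.erase i).card + 1 = D.card := Finset.card_erase_add_one hi
  have hZi : (Z.erase i).card + 1 = Z.card := Finset.card_erase_add_one (hDZ hi)
  have h1 : x ∉ M.closure (L ∪ p '' ((D.erase i : Finset β) : Set β)) := by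
    intro h
    have := hDmin (D.erase i) (Finset.mem_filter.2 ⟨Finset.mem_powerset.2
      ((Finset.erase_subset _ _).trans hDZ), h⟩)
    omega
  have r1 := rk_sub_eq hZ hDZ
  have r2 := rk_sub_eq hZ (Finset.erase_subset i Z)
  have r3 := rk_sub_eq hZ ((Finset.erase_subset i D).trans hDZ)
  have h2 := rk_submod M (M.closure (L ∪ p '' (D : Set β)))
    (M.closure (L ∪ p '' ((Z.erase i : Finset β) : Set β)))
  have hpE : L ∪ p '' (Z : Set β) ⊆ M.closure (L ∪ p '' (Z : Set β)) ∪ p '' (Z : Set β) := by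
    rintro z (hz | hz)
    · exact Or.inl (M.mem_closure_of_mem' (Or.inl hz) (hL hz))
    · exact Or.inr hz
  -- the points of `Z` lie in the ground set
  have hZE : ∀ b ∈ Z, p b ∈ M.E := by
    intro b hb
    by_contra h
    have e1 := rk_sub_eq hZ (Finset.singleton_subset_iff.2 hb)
    rw [Finset.coe_singleton, image_singleton, Finset.card_singleton] at e1
    have e2 : M.closure (L ∪ {p b}) = M.closure L := by
      rw [← M.closure_inter_ground (L ∪ {p b}), ← M.closure_inter_ground L]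
      congr 1
      ext z
      constructor
      · rintro ⟨hz | hz, hzE⟩
        · exact ⟨hz, hzE⟩
        · rw [mem_singleton_iff.1 hz] at hzE
          exact absurd hzE h
      · exact fun hz => ⟨Or.inl hz.1, hz.2⟩
    have e3 : rk M (L ∪ {p b}) = rk M L := by
      rw [← rk_closure (M := M) (L ∪ {p b}), e2, rk_closure]
    omega
  have h3 : insert x (L ∪ p '' ((D.erase i : Finset β) : Set β)) ⊆
      M.closure (L ∪ p '' (D : Set β)) ∩
        M.closure (L ∪ p '' ((Z.erase i : Finset β) : Set β)) := by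
    refine insert_subset ⟨hxD, hcon⟩ (subset_inter ?_ ?_)
    · rintro z (hz | ⟨b, hb, rfl⟩)
      · exact M.mem_closure_of_mem' (Or.inl hz) (hL hz)
      · exact M.mem_closure_of_mem' (Or.inr ⟨b, Finset.mem_of_mem_erase hb, rfl⟩)
          (hZE b (hDZ (Finset.mem_of_mem_erase hb)))
    · rintro z (hz | ⟨b, hb, rfl⟩)
      · exact M.mem_closure_of_mem' (Or.inl hz) (hL hz)
      · have hb' := Finset.mem_erase.1 (Finset.mem_coe.1 hb)
        exact M.mem_closure_of_mem' (Or.inr ⟨b, Finset.mem_coe.2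
          (Finset.mem_erase.2 ⟨hb'.1, hDZ hb'.2⟩), rfl⟩) (hZE b (hDZ hb'.2))
  have h4 := rk_mono M h3
  rw [rk_ins_not hxE h1] at h4
  have h5 : L ∪ p '' (Z : Set β) ⊆ M.closure (L ∪ p '' (D : Set β)) ∪
      M.closure (L ∪ p '' ((Z.erase i : Finset β) : Set β)) := by
    rintro z (hz | ⟨b, hb, rfl⟩)
    · exact Or.inl (M.mem_closure_of_mem' (Or.inl hz) (hL hz))
    · by_cases hbi : b = i
      · subst hbi
        exact Or.inl (M.mem_closure_of_mem' (Or.inr ⟨b, hi, rfl⟩) (hZE b hb))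
      · exact Or.inr (M.mem_closure_of_mem' (Or.inr ⟨b, Finset.mem_coe.2
          (Finset.mem_erase.2 ⟨hbi, hb⟩), rfl⟩) (hZE b hb))
  have h6 := rk_mono M h5
  rw [rk_closure, rk_closure] at h2
  omega

/-- A cocircuit with many labels: a basis `Z` modulo `L`, an element `i₀` of it and many labels
outside the hyperplane of `i₀`. -/
lemma exists_cocircuit [M.Finite] {L : Set α} (hL : L ⊆ M.E) {β : Type*} [DecidableEq β] {p : β → α}
    {A : Finset β} (hp : ∀ a ∈ A, p a ∈ M.E) (hpL : ∀ a ∈ A, p a ∉ M.closure L) {h q : ℕ}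
    (hr : rk M (L ∪ p '' A) ≤ rk M L + h) (hq : h * q < A.card) :
    ∃ Z ⊆ A, ∃ i₀ ∈ Z, ∃ V ⊆ A, V.card = q ∧ i₀ ∉ V ∧ Disjoint V Z ∧
      rk M (L ∪ p '' Z) = rk M L + Z.card ∧
      (∀ a ∈ A, p a ∈ M.closure (L ∪ p '' Z)) ∧
      ∀ a ∈ V, p a ∉ M.closure (L ∪ p '' ((Z.erase i₀ : Finset β) : Set β)) := by
  classical
  obtain ⟨Z, hZA, hZr, hZe⟩ := exists_basis_sub (M := M) L p A hp
  have hspan : ∀ a ∈ A, p a ∈ M.closure (L ∪ p '' (Z : Set β)) := by
    intro a ha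
    by_contra hcon
    have h1 := rk_ins_not (hp a ha) hcon
    have h2 := rk_mono M (show insert (p a) (L ∪ p '' (Z : Set β)) ⊆ L ∪ p '' (A : Set β) from
      insert_subset (Or.inr ⟨a, ha, rfl⟩) (union_subset_union_right _ (image_mono (by
        exact_mod_cast hZA))))
    omega
  have hZh : Z.card ≤ h := by omega
  have hch : ∀ a, ∃ i, a ∈ A → i ∈ Z ∧
      p a ∉ M.closure (L ∪ p '' ((Z.erase i : Finset β) : Set β)) := by
    intro a
    by_cases ha : a ∈ A
    · obtain ⟨i, h1, h2⟩ := exists_hyper hL hZr (hspan a ha) (hpL a ha)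
      exact ⟨i, fun _ => ⟨h1, h2⟩⟩
    · exact ⟨a, fun h => absurd h ha⟩
  choose f hf using hch
  obtain ⟨i₀, hi₀, hic⟩ := Finset.exists_lt_card_fiber_of_mul_lt_card_of_maps_to
    (s := A) (t := Z) (f := f) (n := q) (fun a ha => (hf a ha).1)
    (lt_of_le_of_lt (Nat.mul_le_mul_right q hZh) hq)
  set W := (A.filter (fun a => f a = i₀)).erase i₀ with hW
  have hWc : q ≤ W.card := by
    have h1 := Finset.pred_card_le_card_erase (s := A.filter (fun a => f a = i₀)) (a := i₀)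
    rw [← hW] at h1
    omega
  obtain ⟨V, hVW, hVc⟩ := Finset.exists_subset_card_eq hWc
  have hV : ∀ a ∈ V, a ∈ A ∧ a ≠ i₀ ∧
      p a ∉ M.closure (L ∪ p '' ((Z.erase i₀ : Finset β) : Set β)) := by
    intro a ha
    obtain ⟨h1, h2⟩ := Finset.mem_erase.1 (hVW ha)
    obtain ⟨h3, h4⟩ := Finset.mem_filter.1 h2
    have h5 := (hf a h3).2
    rw [h4] at h5
    exact ⟨h3, h1, h5⟩
  refine ⟨Z, hZA, i₀, hi₀, V, fun a ha => (hV a ha).1, hVc, fun h => (hV _ h).2.1 rfl, ?_, hZr,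
    hspan, fun a ha => (hV a ha).2.2⟩
  rw [Finset.disjoint_left]
  intro a ha haZ
  obtain ⟨h1, h2, h3⟩ := hV a ha
  refine h3 (M.mem_closure_of_mem' (Or.inr ⟨a, ?_, rfl⟩) (hp a h1))
  exact Finset.mem_coe.2 (Finset.mem_erase.2 ⟨h2, haZ⟩)

end one

section skewfam

/-- Skewness of a family gives skewness of all subsets of the spans. -/
lemma span_skew [M.Finite] {L : Set α} {G : ℕ → Set α} {B : Finset ℕ}
    (hL : L ⊆ M.E) (hG : ∀ b ∈ B, G b ⊆ M.E)
    (hsk : rk M (L ∪ ⋃ b ∈ B, G b) = rk M L + ∑ b ∈ B, (rk M (L ∪ G b) - rk M L)) :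
    ∀ F : ℕ → Set α, (∀ b ∈ B, F b ⊆ M.closure (L ∪ G b)) →
      rk M (L ∪ ⋃ b ∈ B, F b) = rk M L + ∑ b ∈ B, (rk M (L ∪ F b) - rk M L) := by
  classical
  intro F hF
  refine skew_sub (M := M) L (fun b => M.closure (L ∪ G b)) F B hF ?_
  have hc : ∀ b ∈ B, L ∪ G b ⊆ M.closure (L ∪ G b) := fun b hb =>
    M.subset_closure _ (union_subset hL (hG b hb))
  have e1 : ∀ b ∈ B, rk M (L ∪ M.closure (L ∪ G b)) = rk M (L ∪ G b) := by
    intro b hb
    rw [union_eq_self_of_subset_left (subset_union_left.trans (hc b hb)), rk_closure]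
  have e2 : rk M (L ∪ ⋃ b ∈ B, M.closure (L ∪ G b)) = rk M (L ∪ ⋃ b ∈ B, G b) := by
    apply le_antisymm
    · have h2 : L ∪ ⋃ b ∈ B, M.closure (L ∪ G b) ⊆ M.closure (L ∪ ⋃ b ∈ B, G b) := by
        refine union_subset (fun z hz => M.mem_closure_of_mem' (Or.inl hz) (hL hz)) ?_
        refine iUnion₂_subset fun b hb => M.closure_subset_closure ?_
        exact union_subset_union_right _ (subset_biUnion_of_mem (u := G) hb)
      have h3 := rk_mono M h2
      rwa [rk_closure] at h3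
    · refine rk_mono M (union_subset_union_right _ ?_)
      exact iUnion₂_mono fun b hb => subset_union_right.trans (hc b hb)
  rw [e2, hsk]
  congr 1
  refine Finset.sum_congr rfl fun b hb => ?_
  rw [e1 b hb]

/-- The hypotheses on the private sets give skewness of all subsets of the spans. -/
lemma private_skew [M.Finite] {L : Set α} {G : ℕ → Set α} {B : Finset ℕ}
    (hL : L ⊆ M.E) (hG : ∀ b ∈ B, G b ⊆ M.E)
    (hsk : rk M (L ∪ ⋃ b ∈ B, G b) = rk M L + ∑ b ∈ B, rk M (G b)) :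
    (∀ b ∈ B, rk M (L ∪ G b) = rk M L + rk M (G b)) ∧
    ∀ F : ℕ → Set α, (∀ b ∈ B, F b ⊆ M.closure (L ∪ G b)) →
      rk M (L ∪ ⋃ b ∈ B, F b) = rk M L + ∑ b ∈ B, (rk M (L ∪ F b) - rk M L) := by
  classical
  have h1 := rk_family_le (M := M) L G B
  have hle : ∀ b ∈ B, rk M (L ∪ G b) - rk M L ≤ rk M (G b) := by
    intro b _
    have h2 := rk_submod M L (G b)
    omega
  have hge : ∀ b, rk M L ≤ rk M (L ∪ G b) := fun b => rk_mono M subset_union_left
  have heq : ∀ b ∈ B, rk M (L ∪ G b) - rk M L = rk M (G b) := by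
    by_contra hcon
    push Not at hcon
    obtain ⟨b, hb, hne⟩ := hcon
    have h2 : ∑ b ∈ B, (rk M (L ∪ G b) - rk M L) < ∑ b ∈ B, rk M (G b) :=
      Finset.sum_lt_sum hle ⟨b, hb, lt_of_le_of_ne (hle b hb) hne⟩
    omega
  refine ⟨fun b hb => ?_, ?_⟩
  · have h2 := heq b hb
    have h3 := hge b
    omega
  · intro F hF
    refine skew_sub (M := M) L (fun b => M.closure (L ∪ G b)) F B hF ?_
    have hc : ∀ b ∈ B, L ∪ G b ⊆ M.closure (L ∪ G b) := fun b hb =>
      M.subset_closure _ (union_subset hL (hG b hb))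
    have e1 : ∀ b ∈ B, rk M (L ∪ M.closure (L ∪ G b)) = rk M (L ∪ G b) := by
      intro b hb
      rw [union_eq_self_of_subset_left (subset_union_left.trans (hc b hb)), rk_closure]
    have e2 : rk M (L ∪ ⋃ b ∈ B, M.closure (L ∪ G b)) = rk M (L ∪ ⋃ b ∈ B, G b) := by
      apply le_antisymm
      · have h2 : L ∪ ⋃ b ∈ B, M.closure (L ∪ G b) ⊆ M.closure (L ∪ ⋃ b ∈ B, G b) := by
          refine union_subset (fun z hz => M.mem_closure_of_mem' (Or.inl hz) (hL hz)) ?_
          refine iUnion₂_subset fun b hb => M.closure_subset_closure ?_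
          exact union_subset_union_right _ (subset_biUnion_of_mem (u := G) hb)
        have h3 := rk_mono M h2
        rwa [rk_closure] at h3
      · refine rk_mono M (union_subset_union_right _ ?_)
        exact iUnion₂_mono fun b hb => subset_union_right.trans (hc b hb)
    rw [e2, hsk]
    congr 1
    refine Finset.sum_congr rfl fun b hb => ?_
    rw [e1 b hb, heq b hb]

end skewfam

section asm

/-- The span of some points only grows with the set. -/
lemma pts_mono {z : ι → ℕ → α} {Q Q' : Finset (ι × ℕ)} (h : Q ⊆ Q') : pts z Q ⊆ pts z Q' :=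
  image_mono (by exact_mod_cast h)

/-- **HUB\***, after the pigeonhole over the windows: the same `Z`, `i₀`, `V` in every window. -/
theorem hub_core [M.Finite] {L : Set α} {τ : ι → ℕ → α} {A : Finset ι}
    {B : Finset ℕ} {t : ℕ} [DecidableEq ι]
    (hL : L ⊆ M.E) (hτE : ∀ a ∈ A, ∀ b ∈ B, τ a b ∈ M.E)
    (hskew : ∀ F : ℕ → Set α, (∀ b ∈ B, F b ⊆ M.closure (L ∪ (fun a => τ a b) '' (A : Set ι))) →
      rk M (L ∪ ⋃ b ∈ B, F b) = rk M L + ∑ b ∈ B, (rk M (L ∪ F b) - rk M L))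
    {Z V : Finset ι} {i₀ : ι} (hZA : Z ⊆ A) (hi₀ : i₀ ∈ Z) (hVA : V ⊆ A) (hVZ : Disjoint V Z)
    (hZr : ∀ b ∈ B, rk M (L ∪ (fun a => τ a b) '' Z) = rk M L + Z.card)
    (hspan : ∀ b ∈ B, ∀ a ∈ A, τ a b ∈ M.closure (L ∪ (fun a => τ a b) '' Z))
    (hout : ∀ b ∈ B, ∀ a ∈ V, τ a b ∉
      M.closure (L ∪ (fun a => τ a b) '' ((Z.erase i₀ : Finset ι) : Set ι)))
    {A' : Finset ι} (hA' : A' ⊆ V) (hA'c : A'.card = t * t) {B' : Finset ℕ} (hB' : B' ⊆ B)
    (hB'c : t * t + (EdF t).card ≤ B'.card) {Q : Finset (ι × ℕ)}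
    (hQ : ∀ q ∈ Q, q.1 ∈ V ∧ q.2 ∈ B ∧ q.2 ∉ B')
    (hQr : rk M (pts τ (Z ×ˢ B) ∪ pts τ Q) = rk M (pts τ (Z ×ˢ B)) + Q.card)
    (h1 : ∀ a ∈ A', rk M (pts τ (Z ×ˢ B) ∪ pts τ Q ∪ τ a '' B') ≤
      rk M (pts τ (Z ×ˢ B) ∪ pts τ Q) + 1)
    (h2 : ∀ g : ι → ℕ, (∀ a ∈ A', g a ∈ B') →
      rk M (pts τ (Z ×ˢ B) ∪ pts τ Q ∪ (fun a => τ a (g a)) '' A') =
        rk M (pts τ (Z ×ˢ B) ∪ pts τ Q) + t * t) :
    ∃ X S : Set α, ∃ j : ℕ × ℕ → α, ∃ ed : ℕ × ℕ → ℕ × ℕ → α,
      X ⊆ pts τ (A ×ˢ B) ∧ S ⊆ pts τ (A ×ˢ B) ∧ Gad.JGrid (M ／ X) S t j ed ∧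
      S ⊆ M.closure (L ∪ X) := by
  classical
  have hVA' : ∀ a ∈ A', a ∈ A := fun a ha => hVA (hA' ha)
  -- pairs `Z × B` are independent over `L`
  have hpair : ∀ B₀ ⊆ B, rk M (L ∪ pts τ (Z ×ˢ B₀)) = rk M L + (Z ×ˢ B₀).card := by
    intro B₀ hB₀
    have e1 := hskew (fun b => if b ∈ B₀ then (fun a => τ a b) '' (Z : Set ι) else ∅) (by
      intro b hb
      split_ifs with h
      · rintro _ ⟨a, ha, rfl⟩
        exact M.mem_closure_of_mem' (Or.inr ⟨a, hZA ha, rfl⟩) (hτE a (hZA ha) b hb)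
      · exact empty_subset _)
    have e2 : (⋃ b ∈ B, if b ∈ B₀ then (fun a => τ a b) '' (Z : Set ι) else ∅) =
        pts τ (Z ×ˢ B₀) := by
      ext x
      simp only [mem_iUnion, pts, mem_image, Finset.mem_coe, Finset.mem_product, Prod.exists]
      constructor
      · rintro ⟨b, hb, hx⟩
        by_cases h : b ∈ B₀
        · rw [if_pos h] at hx
          obtain ⟨a, ha, rfl⟩ := hx
          exact ⟨a, b, ⟨ha, h⟩, rfl⟩
        · rw [if_neg h] at hx
          exact absurd hx (notMem_empty _)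
      · rintro ⟨a, b, ⟨ha, hb⟩, rfl⟩
        refine ⟨b, hB₀ hb, ?_⟩
        rw [if_pos hb]
        exact ⟨a, ha, rfl⟩
    have e3 : ∑ b ∈ B, (rk M (L ∪ if b ∈ B₀ then (fun a => τ a b) '' (Z : Set ι) else ∅) -
        rk M L) = B₀.card * Z.card := by
      have e4 : ∀ b ∈ B, (rk M (L ∪ if b ∈ B₀ then (fun a => τ a b) '' (Z : Set ι) else ∅) -
          rk M L) = if b ∈ B₀ then Z.card else 0 := by
        intro b hb
        by_cases h : b ∈ B₀
        · rw [if_pos h, if_pos h, hZr b hb]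
          omega
        · rw [if_neg h, if_neg h, union_empty]
          omega
      rw [Finset.sum_congr rfl e4, ← Finset.sum_filter, Finset.sum_const, smul_eq_mul]
      congr 2
      ext b
      rw [Finset.mem_filter]
      exact ⟨fun h => h.2, fun h => ⟨hB₀ h, h⟩⟩
    rw [e2, e3] at e1
    rw [e1, Finset.card_product, mul_comm]
  -- labels and windows of the picture
  have hne : Nonempty (ClF t ≃ A') := by
    refine ⟨Finset.equivOfCardEq ?_⟩
    rw [hA'c]
    simp [ClF]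
  obtain ⟨ea⟩ := hne
  set lab : ℕ × ℕ → ι := fun c => if h : c ∈ ClF t then (ea ⟨c, h⟩ : ι) else i₀ with hlab
  have hlabA : ∀ c ∈ ClF t, lab c ∈ A' := by
    intro c hc
    simp only [hlab, dif_pos hc]
    exact (ea ⟨c, hc⟩).2
  have hlabinj : ∀ c ∈ ClF t, ∀ c' ∈ ClF t, lab c = lab c' → c = c' := by
    intro c hc c' hc' h
    simp only [hlab, dif_pos hc, dif_pos hc'] at h
    have := ea.injective (Subtype.ext h)
    simpa using this
  have hlabsurj : ∀ a ∈ A', ∃ c ∈ ClF t, lab c = a := by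
    intro a ha
    obtain ⟨⟨c, hc⟩, h⟩ := ea.surjective ⟨a, ha⟩
    refine ⟨c, hc, ?_⟩
    simp only [hlab, dif_pos hc, h]
  set TT : Finset ((ℕ × ℕ) ⊕ ((ℕ × ℕ) × (ℕ × ℕ))) := (ClF t).disjSum (EdF t) with hTT
  have hTTc : TT.card = t * t + (EdF t).card := by
    rw [hTT, Finset.card_disjSum]
    simp [ClF]
  obtain ⟨B'', hB'', hB''c⟩ := Finset.exists_subset_card_eq hB'c
  obtain ⟨ew⟩ : Nonempty (TT ≃ B'') := ⟨Finset.equivOfCardEq (by rw [hTTc, hB''c])⟩
  set win : (ℕ × ℕ) ⊕ ((ℕ × ℕ) × (ℕ × ℕ)) → ℕ := fun s =>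
    if h : s ∈ TT then (ew ⟨s, h⟩ : ℕ) else 0 with hwin
  have hwinB : ∀ s ∈ TT, win s ∈ B' := by
    intro s hs
    simp only [hwin, dif_pos hs]
    exact hB'' (ew ⟨s, hs⟩).2
  have hwininj : ∀ s ∈ TT, ∀ s' ∈ TT, win s = win s' → s = s' := by
    intro s hs s' hs' h
    simp only [hwin, dif_pos hs, dif_pos hs'] at h
    have := ew.injective (Subtype.ext h)
    simpa using this
  have hmemC : ∀ c, c ∈ ClF t → (Sum.inl c : (ℕ × ℕ) ⊕ ((ℕ × ℕ) × (ℕ × ℕ))) ∈ TT :=
    fun c hc => Finset.inl_mem_disjSum.2 hc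
  have hmemE : ∀ p, p ∈ EdF t → (Sum.inr p : (ℕ × ℕ) ⊕ ((ℕ × ℕ) × (ℕ × ℕ))) ∈ TT :=
    fun p hp => Finset.inr_mem_disjSum.2 hp
  set wv : ℕ × ℕ → ℕ := fun c => win (Sum.inl c) with hwv
  set we : (ℕ × ℕ) × (ℕ × ℕ) → ℕ := fun p => win (Sum.inr p) with hwe
  have hwvB : ∀ c ∈ ClF t, wv c ∈ B' := fun c hc => hwinB _ (hmemC c hc)
  have hweB : ∀ p ∈ EdF t, we p ∈ B' := fun p hp => hwinB _ (hmemE p hp)
  have hweinj : ∀ p ∈ EdF t, ∀ p' ∈ EdF t, we p = we p' → p = p' := by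
    intro p hp p' hp' h
    exact Sum.inr.inj (hwininj _ (hmemE p hp) _ (hmemE p' hp') h)
  have hvne : ∀ c ∈ ClF t, ∀ p ∈ EdF t, wv c ≠ we p := by
    intro c hc p hp h
    have := hwininj _ (hmemC c hc) _ (hmemE p hp) h
    exact absurd this (by simp)
  -- the windows of the edges
  set WE : Finset ℕ := (EdF t).image we with hWE
  have hWEB' : WE ⊆ B' := by
    intro b hb
    obtain ⟨p, hp, rfl⟩ := Finset.mem_image.1 hb
    exact hweB p hp
  have hWEc : WE.card = (EdF t).card := Finset.card_image_of_injOn fun p hp p' hp' h =>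
    hweinj p hp p' hp' h
  set P : Finset (ι × ℕ) := (Z ×ˢ B).filter (fun q => ¬ (q.1 = i₀ ∧ q.2 ∈ WE)) with hP
  have hPsub : P ⊆ Z ×ˢ B := Finset.filter_subset _ _
  set X : Set α := pts τ P ∪ pts τ Q with hX
  set X₁ : Set α := pts τ (Z ×ˢ B) ∪ pts τ Q with hX₁
  set y : (ℕ × ℕ) × (ℕ × ℕ) → α := fun p => τ i₀ (we p) with hy
  set x : (ℕ × ℕ) × (ℕ × ℕ) → α := fun p => τ (lab p.1) (we p) with hx
  set e : (ℕ × ℕ) × (ℕ × ℕ) → α := fun p => τ (lab p.2) (we p) with he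
  set j : ℕ × ℕ → α := fun c => τ (lab c) (wv c) with hj
  have hEd : ∀ p ∈ EdF t, p.1 ∈ ClF t ∧ p.2 ∈ ClF t := fun p hp =>
    ⟨mem_ClF.2 (mem_EdF.1 hp).1.1, mem_ClF.2 (mem_EdF.1 hp).1.2.1⟩
  have hXX₁ : X ∪ y '' (EdF t : Set _) = X₁ := by
    apply subset_antisymm
    · rintro z ((⟨q, hq, rfl⟩ | hz) | ⟨p, hp, rfl⟩)
      · exact Or.inl ⟨q, Finset.mem_coe.2 (hPsub hq), rfl⟩
      · exact Or.inr hz
      · exact Or.inl ⟨(i₀, we p), Finset.mem_coe.2 (Finset.mem_product.2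
          ⟨hi₀, hB' (hweB _ hp)⟩), rfl⟩
    · rintro z (⟨q, hq, rfl⟩ | hz)
      · by_cases h : q.1 = i₀ ∧ q.2 ∈ WE
        · obtain ⟨p, hp, hpb⟩ := Finset.mem_image.1 h.2
          refine Or.inr ⟨p, hp, ?_⟩
          simp only [hy, hpb, ← h.1]
        · exact Or.inl (Or.inl ⟨q, Finset.mem_coe.2 (Finset.mem_filter.2
            ⟨Finset.mem_coe.1 hq, h⟩), rfl⟩)
      · exact Or.inl (Or.inr hz)
  have hXE : X ⊆ M.E := by
    rintro z (⟨q, hq, rfl⟩ | ⟨q, hq, rfl⟩)
    · obtain ⟨h3, h4⟩ := Finset.mem_product.1 (hPsub hq)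
      exact hτE _ (hZA h3) _ h4
    · obtain ⟨h3, h4, _⟩ := hQ q hq
      exact hτE _ (hVA h3) _ h4
  -- elements of windows outside `WE` lie in the span of `L` and `X`
  have hinP : ∀ b ∈ B, b ∉ WE → ∀ a ∈ A, τ a b ∈ M.closure (L ∪ pts τ P) := by
    intro b hb hbW a ha
    refine M.closure_subset_closure (union_subset_union_right _ ?_) (hspan b hb a ha)
    rintro _ ⟨i, hi, rfl⟩
    exact ⟨(i, b), Finset.mem_filter.2 ⟨Finset.mem_product.2 ⟨hi, hb⟩, fun h => hbW h.2⟩, rfl⟩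
  -- in the windows of `WE`
  have hinPy : ∀ p ∈ EdF t, ∀ a ∈ A,
      τ a (we p) ∈ M.closure (insert (y p) (L ∪ pts τ P)) := by
    intro p hp a ha
    have hb := hB' (hweB p hp)
    refine M.closure_subset_closure ?_ (hspan _ hb a ha)
    rintro z (hz | ⟨i, hi, rfl⟩)
    · exact Or.inr (Or.inl hz)
    · by_cases hii : i = i₀
      · exact Or.inl (by rw [hii])
      · exact Or.inr (Or.inr ⟨(i, we p), Finset.mem_filter.2
          ⟨Finset.mem_product.2 ⟨hi, hb⟩, fun h => hii h.1⟩, rfl⟩)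
  -- the closure of `L ∪ X`
  have hLP : M.closure (L ∪ X) = M.closure (L ∪ pts τ P) := by
    apply subset_antisymm
    · refine M.closure_subset_closure_of_subset_closure ?_
      rintro z (hz | hz | ⟨q, hq, rfl⟩)
      · exact M.mem_closure_of_mem' (Or.inl hz) (hL hz)
      · exact M.mem_closure_of_mem' (Or.inr hz) (hXE (Or.inl hz))
      · obtain ⟨h3, h4, h5⟩ := hQ q hq
        exact hinP _ h4 (fun h => h5 (hWEB' h)) _ (hVA h3)
    · exact M.closure_subset_closure (union_subset_union_right _ subset_union_left)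
  have hrLX : rk M (L ∪ X) = rk M (L ∪ pts τ P) := by
    rw [← rk_closure (M := M) (L ∪ X), hLP, rk_closure]
  -- ranks over `L`
  have hrP : rk M (L ∪ pts τ P) = rk M L + P.card := by
    have h3 := rk_sub_eq (M := M) (X := L) (p := fun q : ι × ℕ => τ q.1 q.2) (Q := Z ×ˢ B)
      (Q' := P) (hpair B subset_rfl) hPsub
    exact h3
  have hPc : P.card + (EdF t).card = (Z ×ˢ B).card := by
    have h3 : ((Z ×ˢ B).filter (fun q => (q.1 = i₀ ∧ q.2 ∈ WE))).card = (EdF t).card := by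
      rw [← hWEc]
      have h4 : (Z ×ˢ B).filter (fun q => (q.1 = i₀ ∧ q.2 ∈ WE)) = WE.image (fun b => (i₀, b)) := by
        ext q
        constructor
        · intro hq
          obtain ⟨_, h5, h6⟩ := Finset.mem_filter.1 hq
          exact Finset.mem_image.2 ⟨q.2, h6, by rw [← h5]⟩
        · intro hq
          obtain ⟨b, hb, rfl⟩ := Finset.mem_image.1 hq
          exact Finset.mem_filter.2 ⟨Finset.mem_product.2 ⟨hi₀, hB' (hWEB' hb)⟩, rfl, hb⟩
      rw [h4, Finset.card_image_of_injective]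
      intro b c h
      exact (Prod.mk.inj h).2
    have h5 := Finset.card_filter_add_card_filter_not (s := Z ×ˢ B)
      (fun q : ι × ℕ => (q.1 = i₀ ∧ q.2 ∈ WE))
    rw [hP]
    omega
  have hLX₁ : rk M (L ∪ X₁) = rk M L + (Z ×ˢ B).card := by
    rw [← hpair B subset_rfl]
    apply le_antisymm
    · have h3 : L ∪ X₁ ⊆ M.closure (L ∪ pts τ (Z ×ˢ B)) := by
        rintro z (hz | ⟨q, hq, rfl⟩ | ⟨q, hq, rfl⟩)
        · exact M.mem_closure_of_mem' (Or.inl hz) (hL hz)
        · obtain ⟨h4, h5⟩ := Finset.mem_product.1 hq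
          exact M.mem_closure_of_mem' (Or.inr ⟨q, hq, rfl⟩) (hτE _ (hZA h4) _ h5)
        · obtain ⟨h4, h5, _⟩ := hQ q hq
          refine M.closure_subset_closure (union_subset_union_right _ ?_) (hspan _ h5 _ (hVA h4))
          rintro _ ⟨i, hi, rfl⟩
          exact ⟨(i, q.2), Finset.mem_coe.2 (Finset.mem_product.2 ⟨hi, h5⟩), rfl⟩
      have h4 := rk_mono M h3
      rwa [rk_closure] at h4
    · exact rk_mono M (union_subset_union_right _ subset_union_left)
  have hyr : rk M (L ∪ X ∪ y '' (EdF t : Set _)) = rk M (L ∪ X) + (EdF t).card := by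
    rw [union_assoc, hXX₁, hLX₁, hrLX, hrP]
    omega
  -- the elements of `V` are outside the span of `L` and `X`
  have houtV : ∀ p ∈ EdF t, ∀ a ∈ V, τ a (we p) ∉ M.closure (L ∪ X) := by
    intro p hp a ha hcon
    rw [hLP] at hcon
    have hb := hB' (hweB p hp)
    -- the other windows are skew
    set b := we p with hbdef
    have e1 := hpair B subset_rfl
    have e2 : rk M (L ∪ (fun a => τ a b) '' (Z : Set ι) ∪ pts τ (Z ×ˢ B.erase b)) =
        rk M (L ∪ (fun a => τ a b) '' (Z : Set ι)) + (Z ×ˢ B.erase b).card := by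
      have e3 : L ∪ (fun a => τ a b) '' (Z : Set ι) ∪ pts τ (Z ×ˢ B.erase b) =
          L ∪ pts τ (Z ×ˢ B) := by
        ext z
        simp only [pts, mem_union, mem_image, Finset.mem_coe, Finset.mem_product, Prod.exists,
          Finset.mem_erase]
        constructor
        · rintro ((hz | ⟨i, hi, rfl⟩) | ⟨i, c, ⟨hi, hc⟩, rfl⟩)
          · exact Or.inl hz
          · exact Or.inr ⟨i, b, ⟨hi, hb⟩, rfl⟩
          · exact Or.inr ⟨i, c, ⟨hi, hc.2⟩, rfl⟩
        · rintro (hz | ⟨i, c, ⟨hi, hc⟩, rfl⟩)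
          · exact Or.inl (Or.inl hz)
          · by_cases hcb : c = b
            · exact Or.inl (Or.inr ⟨i, hi, by rw [hcb]⟩)
            · exact Or.inr ⟨i, c, ⟨hi, hcb, hc⟩, rfl⟩
      rw [e3, e1, hZr b hb, Finset.card_product, Finset.card_product,
        Finset.card_erase_of_mem hb]
      have h3 : 1 ≤ B.card := Finset.card_pos.2 ⟨b, hb⟩
      obtain ⟨n, hn⟩ : ∃ n, B.card = n + 1 := ⟨B.card - 1, by omega⟩
      rw [hn]
      simp only [Nat.add_sub_cancel]
      ring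
    refine hout b hb a ha ?_
    refine mem_drop (F := L ∪ (fun a => τ a b) '' (Z : Set ι)) (E := Z ×ˢ B.erase b)
      (y := fun q : ι × ℕ => τ q.1 q.2) e2 ?_ (hspan b hb a (hVA ha)) ?_
    · rintro z (hz | ⟨i, hi, rfl⟩)
      · exact M.mem_closure_of_mem' (Or.inl hz) (hL hz)
      · have hi' := Finset.mem_of_mem_erase (Finset.mem_coe.1 hi)
        exact M.mem_closure_of_mem' (Or.inr ⟨i, hi', rfl⟩) (hτE _ (hZA hi') b hb)
    · refine M.closure_subset_closure ?_ hcon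
      rintro z (hz | ⟨q, hq, rfl⟩)
      · exact Or.inl (Or.inl hz)
      · obtain ⟨hq1, hq2⟩ := Finset.mem_filter.1 (Finset.mem_coe.1 hq)
        obtain ⟨h3, h4⟩ := Finset.mem_product.1 hq1
        by_cases hqb : q.2 = b
        · refine Or.inl (Or.inr ⟨q.1, Finset.mem_coe.2 (Finset.mem_erase.2 ⟨?_, h3⟩), by
            simp only [hqb]⟩)
          intro h5
          exact hq2 ⟨h5, by rw [hqb]; exact Finset.mem_image.2 ⟨p, hp, rfl⟩⟩
        · exact Or.inr ⟨q, Finset.mem_coe.2 (Finset.mem_product.2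
            ⟨h3, Finset.mem_erase.2 ⟨hqb, h4⟩⟩), rfl⟩
  -- nonloops modulo `X₁`
  have hnl : ∀ a ∈ A', ∀ b ∈ B', τ a b ∉ M.closure X₁ := by
    intro a ha b hb hcon
    have h3 := h2 (fun _ => b) (fun _ _ => hb)
    rw [← hA'c] at h3
    have h4 := rk_sub_eq (M := M) (X := X₁) (p := fun a => τ a b) (Q := A') (Q' := {a}) h3
      (Finset.singleton_subset_iff.2 ha)
    rw [Finset.coe_singleton, image_singleton, union_singleton, rk_ins_mem hcon,
      Finset.card_singleton] at h4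
    omega
  -- parallel modulo `X₁`
  have hpar : ∀ a ∈ A', ∀ b ∈ B', ∀ b' ∈ B', τ a b' ∈ M.closure (insert (τ a b) X₁) := by
    intro a ha b hb b' hb'
    by_contra hcon
    have h3 := rk_ins_not (hτE a (hVA' a ha) b (hB' hb)) (hnl a ha b hb)
    have h4 := rk_ins_not (hτE a (hVA' a ha) b' (hB' hb')) hcon
    have h5 := rk_mono M (show insert (τ a b') (insert (τ a b) X₁) ⊆ X₁ ∪ τ a '' (B' : Set ℕ) from
      insert_subset (Or.inr ⟨b', hb', rfl⟩) (insert_subset (Or.inr ⟨b, hb, rfl⟩)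
        subset_union_left))
    have h6 := h1 a ha
    omega
  have hjcl : ∀ c ∈ ClF t, j c ∈ M.closure (L ∪ X) := by
    intro c hc
    rw [hLP]
    refine hinP _ (hB' (hwvB c hc)) ?_ _ (hVA' _ (hlabA c hc))
    intro h
    obtain ⟨p, hp, h3⟩ := Finset.mem_image.1 h
    exact hvne c hc p hp h3.symm
  -- independence of the joints
  have hjr₁ : rk M (X₁ ∪ j '' Gad.Cl t) = rk M X₁ + t * t := by
    have hg : ∃ g : ι → ℕ, ∀ c ∈ ClF t, g (lab c) = wv c := by
      refine ⟨fun a => if h : ∃ c ∈ ClF t, lab c = a then wv h.choose else 0, ?_⟩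
      intro c hc
      have hex : ∃ c' ∈ ClF t, lab c' = lab c := ⟨c, hc, rfl⟩
      simp only [dif_pos hex]
      rw [hlabinj _ hex.choose_spec.1 _ hc hex.choose_spec.2]
    obtain ⟨g, hg⟩ := hg
    have h3 := h2 g (by
      intro a ha
      obtain ⟨c, hc, rfl⟩ := hlabsurj a ha
      rw [hg c hc]
      exact hwvB c hc)
    have h4 : (fun a => τ a (g a)) '' (A' : Set ι) = j '' Gad.Cl t := by
      ext z
      constructor
      · rintro ⟨a, ha, rfl⟩
        obtain ⟨c, hc, rfl⟩ := hlabsurj a ha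
        refine ⟨c, mem_ClF.1 hc, ?_⟩
        simp only [hj, hg c hc]
      · rintro ⟨c, hc, rfl⟩
        have hc' := mem_ClF.2 hc
        refine ⟨lab c, hlabA c hc', ?_⟩
        simp only [hj, hg c hc']
    rw [h4] at h3
    exact h3
  have hCc : (Gad.Cl t).ncard = t * t := by
    rw [← coe_ClF, Set.ncard_coe_finset]
    simp [ClF]
  have hCf : (Gad.Cl t).Finite := by
    rw [← coe_ClF]
    exact (ClF t).finite_toSet
  have hXX₁' : X ⊆ X₁ := by
    rw [← hXX₁]
    exact subset_union_left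
  have hjr : rk M (X ∪ j '' Gad.Cl t) = rk M X + t * t := by
    apply le_antisymm
    · have h3 := rk_union_le M (X := X) (Y := j '' Gad.Cl t) (hCf.image j)
      have h4 := Set.ncard_image_le (f := j) hCf
      omega
    · have h3 : rk M X + rk M (X₁ ∪ j '' Gad.Cl t) ≤ rk M X₁ + rk M (X ∪ j '' Gad.Cl t) := by
        refine rk_sub' (subset_inter hXX₁' subset_union_left) ?_
        rintro z (hz | hz)
        · exact Or.inl hz
        · exact Or.inr (Or.inr hz)
      omega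
  -- the main relations
  have hrel : ∀ p ∈ EdF t, ∀ c ∈ ClF t, τ (lab c) (we p) ∈
      M.closure (insert (j c) (insert (y p) X)) ∧ τ (lab c) (we p) ∉
      M.closure (insert (y p) X) := by
    intro p hp c hc
    have hins : insert (y p) X ⊆ X₁ := by
      rw [← hXX₁]
      exact insert_subset (Or.inr ⟨p, hp, rfl⟩) subset_union_left
    refine ⟨?_, fun h => hnl _ (hlabA c hc) _ (hweB p hp) (M.closure_subset_closure hins h)⟩
    have h3 := hpar _ (hlabA c hc) _ (hwvB c hc) _ (hweB p hp)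
    have hyE : y p ∈ M.E := hτE _ (hZA hi₀) _ (hB' (hweB p hp))
    have hF : rk M (insert (y p) (L ∪ X) ∪ y '' ((EdF t).erase p : Set _)) =
        rk M (insert (y p) (L ∪ X)) + ((EdF t).erase p).card := by
      have e1 : insert (y p) (L ∪ X) ∪ y '' (((EdF t).erase p : Finset _) : Set _) =
          L ∪ X ∪ y '' (EdF t : Set _) := by
        ext z
        simp only [mem_union, mem_insert_iff, mem_image, Finset.mem_coe, Finset.mem_erase]
        constructor
        · rintro ((rfl | hz) | ⟨q, hq, rfl⟩)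
          · exact Or.inr ⟨p, hp, rfl⟩
          · exact Or.inl hz
          · exact Or.inr ⟨q, hq.2, rfl⟩
        · rintro (hz | ⟨q, hq, rfl⟩)
          · exact Or.inl (Or.inr hz)
          · by_cases hqp : q = p
            · exact Or.inl (Or.inl (by rw [hqp]))
            · exact Or.inr ⟨q, ⟨hqp, hq⟩, rfl⟩
      have e2 := rk_sub_eq (M := M) (X := L ∪ X) (p := y) (Q := EdF t) (Q' := {p}) hyr
        (Finset.singleton_subset_iff.2 hp)
      rw [Finset.coe_singleton, image_singleton, union_singleton, Finset.card_singleton] at e2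
      have e3 := Finset.card_erase_add_one hp
      rw [e1, hyr, e2]
      omega
    have hLXE : L ∪ X ⊆ M.E := union_subset hL hXE
    refine mem_drop (F := insert (y p) (L ∪ X)) (E := (EdF t).erase p) (y := y) hF ?_ ?_ ?_
    · refine insert_subset ?_ (insert_subset ?_ ?_)
      · exact M.closure_subset_closure (subset_insert _ _) (hjcl c hc)
      · exact M.mem_closure_of_mem' (mem_insert _ _) hyE
      · exact fun z hz => M.mem_closure_of_mem' (Or.inr (Or.inr hz)) (hXE hz)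
    · have h4 := hinPy p hp _ (hVA' _ (hlabA c hc))
      refine M.closure_subset_closure (insert_subset_insert ?_) h4
      exact union_subset_union_right _ subset_union_left
    · refine M.closure_subset_closure ?_ h3
      rw [← hXX₁]
      rintro z (rfl | hz | ⟨q, hq, rfl⟩)
      · exact Or.inl (Or.inl rfl)
      · exact Or.inl (Or.inr (Or.inr hz))
      · by_cases hqp : q = p
        · exact Or.inl (Or.inr (Or.inl (by rw [hqp])))
        · exact Or.inr ⟨q, Finset.mem_coe.2 (Finset.mem_erase.2 ⟨hqp, hq⟩), rfl⟩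
  have hxL : ∀ p ∈ EdF t, x p ∈ M.closure (insert (y p) (L ∪ X)) ∧ x p ∉ M.closure (L ∪ X) := by
    intro p hp
    refine ⟨?_, houtV p hp _ (hA' (hlabA _ (hEd p hp).1))⟩
    refine M.closure_subset_closure (insert_subset_insert ?_) (hinPy p hp _
      (hVA' _ (hlabA _ (hEd p hp).1)))
    exact union_subset_union_right _ subset_union_left
  obtain ⟨ed, hed⟩ := jgrid_of_stars (L := L) hXE (fun c hc => hjcl c (mem_ClF.2 hc)) hjr hyr hxL
    (e := e) (fun p hp => houtV p hp _ (hA' (hlabA _ (hEd p hp).2)))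
    (fun p hp => hrel p hp _ (hEd p hp).1) (fun p hp => hrel p hp _ (hEd p hp).2)
  have hmemAB : ∀ a ∈ A, ∀ b ∈ B, τ a b ∈ pts τ (A ×ˢ B) := fun a ha b hb =>
    ⟨(a, b), Finset.mem_coe.2 (Finset.mem_product.2 ⟨ha, hb⟩), rfl⟩
  refine ⟨X ∪ x '' (EdF t : Set _), j '' Gad.Cl t ∪ e '' (EdF t : Set _), j, ed, ?_, ?_, hed, ?_⟩
  · rintro z ((⟨q, hq, rfl⟩ | ⟨q, hq, rfl⟩) | ⟨p, hp, rfl⟩)
    · obtain ⟨h3, h4⟩ := Finset.mem_product.1 (hPsub hq)
      exact hmemAB _ (hZA h3) _ h4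
    · obtain ⟨h3, h4, _⟩ := hQ q hq
      exact hmemAB _ (hVA h3) _ h4
    · exact hmemAB _ (hVA' _ (hlabA _ (hEd p hp).1)) _ (hB' (hweB p hp))
  · rintro z (⟨c, hc, rfl⟩ | ⟨p, hp, rfl⟩)
    · have hc' := mem_ClF.2 hc
      exact hmemAB _ (hVA' _ (hlabA _ hc')) _ (hB' (hwvB c hc'))
    · exact hmemAB _ (hVA' _ (hlabA _ (hEd p hp).2)) _ (hB' (hweB p hp))
  · have hLX : M.closure (L ∪ X) ⊆ M.closure (L ∪ (X ∪ x '' (EdF t : Set _))) :=
      M.closure_subset_closure (union_subset_union_right _ subset_union_left)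
    rintro z (⟨c, hc, rfl⟩ | ⟨p, hp, rfl⟩)
    · exact hLX (hjcl c (mem_ClF.2 hc))
    · have h3 := hexch (hxL p hp).1 (hxL p hp).2
      have h4 : y p ∈ M.closure (L ∪ (X ∪ x '' (EdF t : Set _))) := by
        refine M.closure_subset_closure ?_ h3
        refine insert_subset (Or.inr (Or.inr ⟨p, hp, rfl⟩)) ?_
        exact union_subset_union_right _ subset_union_left
      have h5 := hinPy p hp _ (hVA' _ (hlabA _ (hEd p hp).2))
      refine M.closure_subset_closure_of_subset_closure ?_ h5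
      refine insert_subset h4 ?_
      rintro w (hw | hw)
      · exact M.mem_closure_of_mem' (Or.inl hw) (hL hw)
      · exact M.mem_closure_of_mem' (Or.inr (Or.inl (Or.inl hw))) (hXE (Or.inl hw))

/-- **HUB\*** without private sets: the elements of a window are independent, have rank at most
`h` modulo `L`, and the windows are skew modulo `L`. -/
theorem hubStar' (k : ℕ) (hk : 2 ≤ k) (t R₀ c : ℕ) : ∃ N : ℕ, ∀ {α : Type u} {ι : Type v}
    (M : Matroid α) [M.Finite] (L : Set α) (τ : ι → ℕ → α) (A : Finset ι)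
    (B : Finset ℕ) (h : ℕ), L ⊆ M.E → rk M L ≤ R₀ → (∀ a ∈ A, ∀ b ∈ B, τ a b ∈ M.E) →
    (∀ b ∈ B, rk M (L ∪ (fun a => τ a b) '' A) ≤ rk M L + h) → A.card = c →
    h * CC (t * t) (k - 1) < c → N ≤ B.card →
    (∀ a ∈ A, ∀ b ∈ B, τ a b ∉ M.closure L) →
    (∀ b ∈ B, rk M ((fun a => τ a b) '' (A : Set ι)) = A.card) →
    rk M (L ∪ ⋃ b ∈ B, (fun a => τ a b) '' (A : Set ι)) =
      rk M L + ∑ b ∈ B, (rk M (L ∪ (fun a => τ a b) '' (A : Set ι)) - rk M L) →
    HasUniformMinor M k ∨ ∃ X S : Set α, ∃ j : ℕ × ℕ → α, ∃ ed : ℕ × ℕ → ℕ × ℕ → α,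
      X ⊆ pts τ (A ×ˢ B) ∧ S ⊆ pts τ (A ×ˢ B) ∧ Gad.JGrid (M ／ X) S t j ed ∧
      S ⊆ M.closure (L ∪ X) := by
  classical
  obtain ⟨N₁, hN₁⟩ := sr.{u, v} k hk (t * t) R₀ (t * t + (EdF t).card)
  refine ⟨(2 ^ c * (c * 2 ^ c)) * (N₁ + 1), ?_⟩
  intro α ι M _ L τ A B h hL hLr hτE hGr hAc hc hB hτ hind hsk
  have hTE : ∀ b ∈ B, (fun a => τ a b) '' (A : Set ι) ⊆ M.E := by
    rintro b hb _ ⟨a, ha, rfl⟩
    exact hτE a ha b hb
  have hskew := span_skew hL hTE hsk
  -- the cocircuits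
  have hch : ∀ b, ∃ ZV ∈ A.powerset ×ˢ (A ×ˢ A.powerset), b ∈ B →
      ZV.2.1 ∈ ZV.1 ∧ ZV.2.2.card = CC (t * t) (k - 1) ∧ Disjoint ZV.2.2 ZV.1 ∧
      rk M (L ∪ (fun a => τ a b) '' (ZV.1 : Set ι)) = rk M L + ZV.1.card ∧
      (∀ a ∈ A, τ a b ∈ M.closure (L ∪ (fun a => τ a b) '' (ZV.1 : Set ι))) ∧
      ∀ a ∈ ZV.2.2, τ a b ∉
        M.closure (L ∪ (fun a => τ a b) '' ((ZV.1.erase ZV.2.1 : Finset ι) : Set ι)) := by
    intro b
    have hA0 : 0 < A.card := by omega
    obtain ⟨a₀, ha₀⟩ := Finset.card_pos.1 hA0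
    by_cases hb : b ∈ B
    · have hr : rk M (L ∪ (fun a => τ a b) '' (A : Set ι)) ≤ rk M L + h := hGr b hb
      obtain ⟨Z, hZA, i₀, hi₀, V, hVA, hVc, hVi, hVZ, hZr, hspan, hout⟩ :=
        exists_cocircuit (M := M) hL (p := fun a => τ a b) (A := A) (h := h)
          (q := CC (t * t) (k - 1)) (fun a ha => hτE a ha b hb) (fun a ha => hτ a ha b hb) hr
          (by omega)
      refine ⟨(Z, i₀, V), Finset.mem_product.2 ⟨Finset.mem_powerset.2 hZA, Finset.mem_product.2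
        ⟨hZA hi₀, Finset.mem_powerset.2 hVA⟩⟩, fun _ => ⟨hi₀, hVc, hVZ, hZr, hspan, hout⟩⟩
    · exact ⟨(∅, a₀, ∅), Finset.mem_product.2 ⟨Finset.empty_mem_powerset _, Finset.mem_product.2
        ⟨ha₀, Finset.empty_mem_powerset _⟩⟩, fun h => absurd h hb⟩
  choose f hf1 hf2 using hch
  have hA0 : 0 < A.card := by omega
  obtain ⟨a₀, ha₀⟩ := Finset.card_pos.1 hA0
  obtain ⟨ZV, hZV, hB₁c⟩ := Finset.exists_le_card_fiber_of_mul_le_card_of_maps_to
    (s := B) (t := A.powerset ×ˢ (A ×ˢ A.powerset)) (f := f) (n := N₁ + 1) (fun b _ => hf1 b)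
    ⟨(∅, a₀, ∅), Finset.mem_product.2 ⟨Finset.empty_mem_powerset _, Finset.mem_product.2
        ⟨ha₀, Finset.empty_mem_powerset _⟩⟩⟩ (by
      rw [Finset.card_product, Finset.card_product, Finset.card_powerset, hAc]
      exact hB)
  set B₁ := B.filter (fun b => f b = ZV) with hB₁
  have hB₁B : B₁ ⊆ B := Finset.filter_subset _ _
  obtain ⟨Z, i₀, V⟩ := ZV
  obtain ⟨b₁, hb₁⟩ := Finset.card_pos.1 (show 0 < B₁.card by omega)
  have key : ∀ b ∈ B₁, i₀ ∈ Z ∧ V.card = CC (t * t) (k - 1) ∧ Disjoint V Z ∧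
      rk M (L ∪ (fun a => τ a b) '' (Z : Set ι)) = rk M L + Z.card ∧
      (∀ a ∈ A, τ a b ∈ M.closure (L ∪ (fun a => τ a b) '' (Z : Set ι))) ∧
      ∀ a ∈ V, τ a b ∉
        M.closure (L ∪ (fun a => τ a b) '' ((Z.erase i₀ : Finset ι) : Set ι)) := by
    intro b hb
    have h1 := hf2 b (hB₁B hb)
    rw [(Finset.mem_filter.1 hb).2] at h1
    exact h1
  obtain ⟨hi₀, hVc, hVZ, _⟩ := key b₁ hb₁
  obtain ⟨h1, h2⟩ := Finset.mem_product.1 hZV
  obtain ⟨h3, h4⟩ := Finset.mem_product.1 h2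
  have hZA : Z ⊆ A := Finset.mem_powerset.1 h1
  have hVA : V ⊆ A := Finset.mem_powerset.1 h4
  -- restriction of the skewness to `B₁`
  have hsk₁ : ∀ F : ℕ → Set α,
      (∀ b ∈ B₁, F b ⊆ M.closure (L ∪ (fun a => τ a b) '' (A : Set ι))) →
      rk M (L ∪ ⋃ b ∈ B₁, F b) = rk M L + ∑ b ∈ B₁, (rk M (L ∪ F b) - rk M L) := by
    intro F hF
    have e1 := hskew (fun b => if b ∈ B₁ then F b else ∅) (by
      intro b hb
      split_ifs with h
      · exact hF b h
      · exact empty_subset _)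
    have e2 : (⋃ b ∈ B, if b ∈ B₁ then F b else ∅) = ⋃ b ∈ B₁, F b := by
      ext x
      simp only [mem_iUnion]
      constructor
      · rintro ⟨b, hb, hx⟩
        by_cases h : b ∈ B₁
        · rw [if_pos h] at hx
          exact ⟨b, h, hx⟩
        · rw [if_neg h] at hx
          exact absurd hx (notMem_empty _)
      · rintro ⟨b, hb, hx⟩
        refine ⟨b, hB₁B hb, ?_⟩
        rw [if_pos hb]
        exact hx
    have e3 : ∑ b ∈ B, (rk M (L ∪ if b ∈ B₁ then F b else ∅) - rk M L) =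
        ∑ b ∈ B₁, (rk M (L ∪ F b) - rk M L) := by
      rw [← Finset.sum_subset hB₁B (fun b _ hb => ?_)]
      · refine Finset.sum_congr rfl fun b hb => ?_
        rw [if_pos hb]
      · rw [if_neg hb, union_empty]
        omega
    rw [e2, e3] at e1
    exact e1
  -- independence of `V` modulo `Z × B₁`
  have hX₀E : pts τ (Z ×ˢ B₁) ⊆ M.E := by
    rintro _ ⟨q, hq, rfl⟩
    obtain ⟨h5, h6⟩ := Finset.mem_product.1 (Finset.mem_coe.1 hq)
    exact hτE _ (hZA h5) _ (hB₁B h6)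
  have hpairs : ∀ b ∈ B₁, rk M (L ∪ (fun a => τ a b) '' (A : Set ι) ∪ pts τ (Z ×ˢ B₁.erase b)) =
      rk M (L ∪ (fun a => τ a b) '' (A : Set ι)) + (Z ×ˢ B₁.erase b).card := by
    intro b hb
    have e1 := hsk₁ (fun b' => if b' = b then (fun a => τ a b') '' (A : Set ι) else (fun a => τ a b') '' (Z : Set ι)) (by
      intro b' hb'
      split_ifs
      · exact fun z hz => M.mem_closure_of_mem' (Or.inr hz) (hTE b' (hB₁B hb') hz)
      · rintro _ ⟨a, ha, rfl⟩
        exact M.mem_closure_of_mem' (Or.inr ⟨a, hZA ha, rfl⟩) (hτE a (hZA ha) b' (hB₁B hb')))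
    have e2 : (L ∪ ⋃ b' ∈ B₁, if b' = b then (fun a => τ a b') '' (A : Set ι) else (fun a => τ a b') '' (Z : Set ι)) =
        L ∪ (fun a => τ a b) '' (A : Set ι) ∪ pts τ (Z ×ˢ B₁.erase b) := by
      ext x
      simp only [mem_union, mem_iUnion]
      constructor
      · rintro (hx | ⟨b', hb', hx⟩)
        · exact Or.inl (Or.inl hx)
        · by_cases h : b' = b
          · rw [if_pos h, h] at hx
            exact Or.inl (Or.inr hx)
          · rw [if_neg h] at hx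
            obtain ⟨a, ha, rfl⟩ := hx
            exact Or.inr ⟨(a, b'), Finset.mem_coe.2 (Finset.mem_product.2
              ⟨ha, Finset.mem_erase.2 ⟨h, hb'⟩⟩), rfl⟩
      · rintro ((hx | hx) | ⟨q, hq, rfl⟩)
        · exact Or.inl hx
        · exact Or.inr ⟨b, hb, by rw [if_pos rfl]; exact hx⟩
        · obtain ⟨h5, h6⟩ := Finset.mem_product.1 (Finset.mem_coe.1 hq)
          obtain ⟨h7, h8⟩ := Finset.mem_erase.1 h6
          refine Or.inr ⟨q.2, h8, ?_⟩
          rw [if_neg h7]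
          exact ⟨q.1, h5, rfl⟩
    have hge : rk M L ≤ rk M (L ∪ (fun a => τ a b) '' (A : Set ι)) := rk_mono M subset_union_left
    have e3 : ∑ b' ∈ B₁, (rk M (L ∪ if b' = b then (fun a => τ a b') '' (A : Set ι) else (fun a => τ a b') '' (Z : Set ι)) -
        rk M L) = (rk M (L ∪ (fun a => τ a b) '' (A : Set ι)) - rk M L) + (Z ×ˢ B₁.erase b).card := by
      rw [← Finset.add_sum_erase _ _ hb, if_pos rfl]
      have e4 : ∑ b' ∈ B₁.erase b,
          (rk M (L ∪ if b' = b then (fun a => τ a b') '' (A : Set ι) else (fun a => τ a b') '' (Z : Set ι)) - rk M L) =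
          ∑ b' ∈ B₁.erase b, Z.card := by
        refine Finset.sum_congr rfl fun b' hb' => ?_
        obtain ⟨h5, h6⟩ := Finset.mem_erase.1 hb'
        rw [if_neg h5, (key b' h6).2.2.2.1]
        omega
      rw [e4, Finset.sum_const, smul_eq_mul, Finset.card_product, mul_comm]
    rw [e2, e3] at e1
    rw [e1]
    omega
  have hVind : ∀ b ∈ B₁, rk M (pts τ (Z ×ˢ B₁) ∪ (fun a => τ a b) '' (V : Set ι)) =
      rk M (pts τ (Z ×ˢ B₁)) + V.card := by
    intro b hb
    have hbB := hB₁B hb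
    have e0 : ∀ W ⊆ A, rk M ((fun a => τ a b) '' (W : Set ι)) = W.card := by
      intro W hW
      have h8 : rk M (∅ : Set α) = 0 := by
        have := rk_le_ncard M (X := (∅ : Set α)) finite_empty
        simpa using this
      have h5 := rk_sub_eq (M := M) (X := ∅) (p := fun a => τ a b) (Q := A) (by
        rw [empty_union, hind b hbB, h8, zero_add]) hW
      rw [empty_union, h8, zero_add] at h5
      exact h5
    have hcl : ∀ W ⊆ A, (fun a => τ a b) '' (W : Set ι) ⊆ M.closure (L ∪ (fun a => τ a b) '' (A : Set ι)) := by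
      rintro W hW _ ⟨a, ha, rfl⟩
      exact M.mem_closure_of_mem' (Or.inr ⟨a, hW ha, rfl⟩) (hτE a (hW ha) b hbB)
    have e1 := rk_skew_pts (M := M) (F := L ∪ (fun a => τ a b) '' (A : Set ι)) (y := fun q : ι × ℕ => τ q.1 q.2)
      (E := Z ×ˢ B₁.erase b) (hpairs b hb) (hcl (Z ∪ V) (Finset.union_subset hZA hVA))
    have e2 := rk_skew_pts (M := M) (F := L ∪ (fun a => τ a b) '' (A : Set ι)) (y := fun q : ι × ℕ => τ q.1 q.2)
      (E := Z ×ˢ B₁.erase b) (hpairs b hb) (hcl Z hZA)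
    have e3 : (fun a => τ a b) '' (Z : Set ι) ∪ pts τ (Z ×ˢ B₁.erase b) = pts τ (Z ×ˢ B₁) := by
      ext x
      constructor
      · rintro (⟨a, ha, rfl⟩ | ⟨q, hq, rfl⟩)
        · exact ⟨(a, b), Finset.mem_coe.2 (Finset.mem_product.2 ⟨ha, hb⟩), rfl⟩
        · obtain ⟨h5, h6⟩ := Finset.mem_product.1 (Finset.mem_coe.1 hq)
          exact ⟨q, Finset.mem_coe.2 (Finset.mem_product.2 ⟨h5, Finset.mem_of_mem_erase h6⟩), rfl⟩
      · rintro ⟨q, hq, rfl⟩
        obtain ⟨h5, h6⟩ := Finset.mem_product.1 (Finset.mem_coe.1 hq)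
        by_cases hqb : q.2 = b
        · exact Or.inl ⟨q.1, h5, by simp only [hqb]⟩
        · exact Or.inr ⟨q, Finset.mem_coe.2 (Finset.mem_product.2
            ⟨h5, Finset.mem_erase.2 ⟨hqb, h6⟩⟩), rfl⟩
    have e4 : (fun a => τ a b) '' ((Z ∪ V : Finset ι) : Set ι) ∪ pts τ (Z ×ˢ B₁.erase b) =
        pts τ (Z ×ˢ B₁) ∪ (fun a => τ a b) '' (V : Set ι) := by
      rw [Finset.coe_union, image_union, ← e3]
      ext x
      simp only [mem_union]
      tauto
    have e5 : rk M ((fun a => τ a b) '' ((Z ∪ V : Finset ι) : Set ι) ∪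
        pts τ (Z ×ˢ B₁.erase b)) = rk M ((fun a => τ a b) '' ((Z ∪ V : Finset ι) : Set ι)) +
        (Z ×ˢ B₁.erase b).card := e1
    have e6 : rk M ((fun a => τ a b) '' (Z : Set ι) ∪
        pts τ (Z ×ˢ B₁.erase b)) = rk M ((fun a => τ a b) '' (Z : Set ι)) +
        (Z ×ˢ B₁.erase b).card := e2
    rw [e4, e0 _ (Finset.union_subset hZA hVA), Finset.card_union_of_disjoint hVZ.symm] at e5
    rw [e3, e0 _ hZA] at e6
    omega
  have hrankV : ∀ a ∈ V, rk M (pts τ (Z ×ˢ B₁) ∪ τ a '' (B₁ : Set ℕ)) ≤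
      rk M (pts τ (Z ×ˢ B₁)) + R₀ := by
    intro a ha
    have h5 : pts τ (Z ×ˢ B₁) ∪ τ a '' (B₁ : Set ℕ) ⊆ M.closure (L ∪ pts τ (Z ×ˢ B₁)) := by
      rintro z (hz | ⟨b, hb, rfl⟩)
      · exact M.mem_closure_of_mem' (Or.inr hz) (hX₀E hz)
      · refine M.closure_subset_closure (union_subset_union_right _ ?_)
          ((key b hb).2.2.2.2.1 a (hVA ha))
        rintro _ ⟨i, hi, rfl⟩
        exact ⟨(i, b), Finset.mem_coe.2 (Finset.mem_product.2 ⟨hi, hb⟩), rfl⟩
    have h6 := rk_mono M h5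
    rw [rk_closure] at h6
    have h7 := rk_submod M L (pts τ (Z ×ˢ B₁))
    omega
  rcases hN₁ M (pts τ (Z ×ˢ B₁)) τ V B₁ hX₀E
    (fun a ha b hb => hτE a (hVA ha) b (hB₁B hb)) hVc (by omega) hVind hrankV with
    h5 | ⟨A', h5, h6, B', h7, h8, Q, h9, h10, h11, h12⟩
  · exact Or.inl h5
  · right
    obtain ⟨X, S, j, ed, h13, h14, h15, h16⟩ := hub_core (M := M) (L := L) (τ := τ)
      (A := A) (B := B₁) (t := t) hL (fun a ha b hb => hτE a ha b (hB₁B hb)) hsk₁ hZA hi₀ hVA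
      hVZ (fun b hb => (key b hb).2.2.2.1) (fun b hb a ha => (key b hb).2.2.2.2.1 a ha)
      (fun b hb a ha => (key b hb).2.2.2.2.2 a ha) h5 h6 h7 h8 h9 h10 h11 h12
    exact ⟨X, S, j, ed, h13.trans (pts_mono (Finset.product_subset_product_right hB₁B)),
      h14.trans (pts_mono (Finset.product_subset_product_right hB₁B)), h15, h16⟩

/-- **HUB\*** with private sets. -/
theorem hubStar (k : ℕ) (hk : 2 ≤ k) (t R₀ c : ℕ) : ∃ N : ℕ, ∀ {α : Type u} {ι : Type v}
    (M : Matroid α) [M.Finite] (L : Set α) (G : ℕ → Set α) (τ : ι → ℕ → α) (A : Finset ι)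
    (B : Finset ℕ) (h : ℕ), L ⊆ M.E → (∀ b ∈ B, G b ⊆ M.E) → rk M L ≤ R₀ →
    (∀ b ∈ B, rk M (G b) ≤ h) → A.card = c → h * CC (t * t) (k - 1) < c → N ≤ B.card →
    (∀ a ∈ A, ∀ b ∈ B, τ a b ∈ M.closure (L ∪ G b) ∧ τ a b ∉ M.closure L) →
    (∀ b ∈ B, rk M (G b ∪ (fun a => τ a b) '' A) = rk M (G b) + A.card) →
    rk M (L ∪ ⋃ b ∈ B, G b) = rk M L + ∑ b ∈ B, rk M (G b) →
    HasUniformMinor M k ∨ ∃ X S : Set α, ∃ j : ℕ × ℕ → α, ∃ ed : ℕ × ℕ → ℕ × ℕ → α,
      X ⊆ pts τ (A ×ˢ B) ∧ S ⊆ pts τ (A ×ˢ B) ∧ Gad.JGrid (M ／ X) S t j ed ∧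
      S ⊆ M.closure (L ∪ X) := by
  classical
  obtain ⟨N, hN⟩ := hubStar'.{u, v} k hk t R₀ c
  refine ⟨N, ?_⟩
  intro α ι M _ L G τ A B h hL hG hLr hGr hAc hc hB hτ hind hsk
  obtain ⟨hLG, hskew⟩ := private_skew hL hG hsk
  refine hN M L τ A B h hL hLr (fun a ha b hb => M.closure_subset_ground _ (hτ a ha b hb).1) ?_
    hAc hc hB (fun a ha b hb => (hτ a ha b hb).2) ?_ ?_
  · intro b hb
    have h1 : L ∪ (fun a => τ a b) '' (A : Set ι) ⊆ M.closure (L ∪ G b) := by
      rintro z (hz | ⟨a, ha, rfl⟩)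
      · exact M.mem_closure_of_mem' (Or.inl hz) (hL hz)
      · exact (hτ a ha b hb).1
    have h2 := rk_mono M h1
    rw [rk_closure, hLG b hb] at h2
    have h3 := hGr b hb
    omega
  · intro b hb
    have h1 := hind b hb
    have h2 := rk_submod M (G b) ((fun a => τ a b) '' (A : Set ι))
    have h3 := rk_add_le (M := M) ∅ (fun a => τ a b) A
    rw [empty_union] at h3
    have h4 : rk M (∅ : Set α) = 0 := by
      have := rk_le_ncard M (X := (∅ : Set α)) finite_empty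
      simpa using this
    omega
  · refine hskew _ ?_
    rintro b hb _ ⟨a, ha, rfl⟩
    exact (hτ a ha b hb).1

/-- The points of the windows `B`. -/
lemma pts_windows (τ : ι → ℕ → α) (A : Finset ι) (B : Finset ℕ) :
    pts τ (A ×ˢ B) = ⋃ b ∈ B, (fun a => τ a b) '' (A : Set ι) := by
  ext x
  simp only [pts, mem_image, Finset.mem_coe, Finset.mem_product, Prod.exists, mem_iUnion]
  constructor
  · rintro ⟨a, b, ⟨h1, h2⟩, rfl⟩
    exact ⟨b, h2, a, h1, rfl⟩
  · rintro ⟨b, h2, a, h1, rfl⟩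
    exact ⟨a, b, ⟨h1, h2⟩, rfl⟩

/-- **HUB\***, the lines are found in the process: `Λ` any set, the rank of the elements of the
windows `B'` over `Λ` is at most `R + h |B'|`, no element is in the span of `Λ` and the elements
of the other windows.  The array lies in the span of `Λ` and of a set `B₀` of other windows. -/
theorem hubStar2_aux (k : ℕ) (hk : 2 ≤ k) (t c h g : ℕ) (hc : h * CC (t * t) (k - 1) < c) :
    ∀ R : ℕ, ∃ N : ℕ, ∀ {α : Type u} {ι : Type v}
    (M : Matroid α) [M.Finite] (L : Set α) (τ : ι → ℕ → α) (A : Finset ι)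
    (B : Finset ℕ), L ⊆ M.E → (∀ a ∈ A, ∀ b ∈ B, τ a b ∈ M.E) →
    (∀ b ∈ B, rk M (L ∪ (fun a => τ a b) '' A) ≤ rk M L + g) → A.card = c → N ≤ B.card →
    (∀ b ∈ B, rk M ((fun a => τ a b) '' (A : Set ι)) = A.card) →
    (∀ B' ⊆ B, rk M (L ∪ pts τ (A ×ˢ B')) ≤ R + h * B'.card) →
    (∀ a ∈ A, ∀ b ∈ B, τ a b ∉ M.closure (L ∪ pts τ (A ×ˢ B.erase b))) →
    HasUniformMinor M k ∨ ∃ B₀ ⊆ B, ∃ B₁ ⊆ B, Disjoint B₀ B₁ ∧
      ∃ X S : Set α, ∃ j : ℕ × ℕ → α, ∃ ed : ℕ × ℕ → ℕ × ℕ → α,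
      X ⊆ pts τ (A ×ˢ B₁) ∧ S ⊆ pts τ (A ×ˢ B₁) ∧ Gad.JGrid (M ／ X) S t j ed ∧
      S ⊆ M.closure (L ∪ pts τ (A ×ˢ B₀) ∪ X) := by
  classical
  induction g with
  | zero =>
    intro R
    refine ⟨1, ?_⟩
    intro α ι M _ L τ A B hL hτE hg hAc hB hind hR hout
    exfalso
    obtain ⟨b, hb⟩ := Finset.card_pos.1 (show 0 < B.card by omega)
    obtain ⟨a, ha⟩ := Finset.card_pos.1 (show 0 < A.card by omega)
    have h1 := hg b hb
    have h2 : τ a b ∉ M.closure L := fun hcl =>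
      hout a ha b hb (M.closure_subset_closure subset_union_left hcl)
    have h3 := rk_ins_not (hτE a ha b hb) h2
    have h4 := rk_mono M (show insert (τ a b) L ⊆ L ∪ (fun a => τ a b) '' (A : Set ι) from
      insert_subset (Or.inr ⟨a, ha, rfl⟩) subset_union_left)
    omega
  | succ g ih =>
    intro R
    obtain ⟨N₁, hN₁⟩ := hubStar'.{u, v} k hk t R c
    obtain ⟨N₂, hN₂⟩ := ih (R + h * (N₁ + R))
    refine ⟨N₂ + (N₁ + R), ?_⟩
    intro α ι M _ L τ A B hL hτE hg hAc hB hind hR hout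
    have hTE : ∀ b ∈ B, (fun a => τ a b) '' (A : Set ι) ⊆ M.E := by
      rintro b hb _ ⟨a, ha, rfl⟩
      exact hτE a ha b hb
    have hge : ∀ b, rk M L ≤ rk M (L ∪ (fun a => τ a b) '' (A : Set ι)) := fun b =>
      rk_mono M subset_union_left
    -- a largest skew family of windows
    obtain ⟨B₁, hB₁B, hB₁s, hB₁max⟩ : ∃ B₁ ⊆ B,
        rk M (L ∪ ⋃ b ∈ B₁, (fun a => τ a b) '' (A : Set ι)) =
        rk M L + ∑ b ∈ B₁, (rk M (L ∪ (fun a => τ a b) '' (A : Set ι)) - rk M L) ∧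
        ∀ B₂ ⊆ B, rk M (L ∪ ⋃ b ∈ B₂, (fun a => τ a b) '' (A : Set ι)) =
        rk M L + ∑ b ∈ B₂, (rk M (L ∪ (fun a => τ a b) '' (A : Set ι)) - rk M L) →
        B₂.card ≤ B₁.card := by
      have hne : (B.powerset.filter (fun B₁ =>
        rk M (L ∪ ⋃ b ∈ B₁, (fun a => τ a b) '' (A : Set ι)) =
        rk M L + ∑ b ∈ B₁, (rk M (L ∪ (fun a => τ a b) '' (A : Set ι)) - rk M L))).Nonempty := by
        refine ⟨∅, Finset.mem_filter.2 ⟨Finset.empty_mem_powerset _, ?_⟩⟩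
        simp
      obtain ⟨B₁, h1, h2⟩ := Finset.exists_max_image _ Finset.card hne
      rw [Finset.mem_filter, Finset.mem_powerset] at h1
      exact ⟨B₁, h1.1, h1.2, fun B₂ h3 h4 => h2 B₂ (Finset.mem_filter.2
        ⟨Finset.mem_powerset.2 h3, h4⟩)⟩
    -- subfamilies are skew
    have hsub : ∀ B₂ ⊆ B₁, rk M (L ∪ ⋃ b ∈ B₂, (fun a => τ a b) '' (A : Set ι)) =
        rk M L + ∑ b ∈ B₂, (rk M (L ∪ (fun a => τ a b) '' (A : Set ι)) - rk M L) := by
      intro B₂ hB₂
      have e1 := skew_sub (M := M) L (fun b => (fun a => τ a b) '' (A : Set ι))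
        (fun b => if b ∈ B₂ then (fun a => τ a b) '' (A : Set ι) else ∅) B₁ (fun b _ => by
          split_ifs
          · exact subset_rfl
          · exact empty_subset _) hB₁s
      have e2 : (⋃ b ∈ B₁, if b ∈ B₂ then (fun a => τ a b) '' (A : Set ι) else ∅) =
          ⋃ b ∈ B₂, (fun a => τ a b) '' (A : Set ι) := by
        ext x
        simp only [mem_iUnion]
        constructor
        · rintro ⟨b, hb, hx⟩
          by_cases h : b ∈ B₂
          · rw [if_pos h] at hx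
            exact ⟨b, h, hx⟩
          · rw [if_neg h] at hx
            exact absurd hx (notMem_empty _)
        · rintro ⟨b, hb, hx⟩
          refine ⟨b, hB₂ hb, ?_⟩
          rw [if_pos hb]
          exact hx
      have e3 : ∑ b ∈ B₁, (rk M (L ∪ if b ∈ B₂ then (fun a => τ a b) '' (A : Set ι) else ∅) -
          rk M L) = ∑ b ∈ B₂, (rk M (L ∪ (fun a => τ a b) '' (A : Set ι)) - rk M L) := by
        rw [← Finset.sum_subset hB₂ (fun b _ hb => ?_)]
        · refine Finset.sum_congr rfl fun b hb => ?_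
          rw [if_pos hb]
        · rw [if_neg hb, union_empty]
          omega
      rw [e2, e3] at e1
      exact e1
    by_cases hcase : N₁ + R ≤ B₁.card
    · -- many skew windows
      set B₂ := B₁.filter (fun b => rk M (L ∪ (fun a => τ a b) '' (A : Set ι)) ≤ rk M L + h)
        with hB₂
      have hB₂B₁ : B₂ ⊆ B₁ := Finset.filter_subset _ _
      have hB₂B : B₂ ⊆ B := hB₂B₁.trans hB₁B
      -- the exceptional windows
      have hexc : (B₁ \ B₂).card ≤ R := by
        have h1 := hsub (B₁ \ B₂) Finset.sdiff_subset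
        have h2 := hR (B₁ \ B₂) (Finset.sdiff_subset.trans hB₁B)
        rw [pts_windows] at h2
        have h3 : (B₁ \ B₂).card * (h + 1) ≤
            ∑ b ∈ B₁ \ B₂, (rk M (L ∪ (fun a => τ a b) '' (A : Set ι)) - rk M L) := by
          rw [← smul_eq_mul]
          refine Finset.card_nsmul_le_sum _ _ _ fun b hb => ?_
          obtain ⟨h4, h5⟩ := Finset.mem_sdiff.1 hb
          have h6 : ¬ rk M (L ∪ (fun a => τ a b) '' (A : Set ι)) ≤ rk M L + h := fun h6 =>
            h5 (Finset.mem_filter.2 ⟨h4, h6⟩)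
          omega
        rw [Nat.mul_add, mul_one, mul_comm] at h3
        omega
      have hB₂c : N₁ ≤ B₂.card := by
        have h1 := Finset.card_sdiff_add_card_eq_card hB₂B₁
        omega
      have hLR : rk M L ≤ R := by
        have h1 := hR ∅ (Finset.empty_subset _)
        have h2 := rk_mono M (show L ⊆ L ∪ pts τ (A ×ˢ (∅ : Finset ℕ)) from subset_union_left)
        simp only [Finset.card_empty, mul_zero, add_zero] at h1
        omega
      rcases hN₁ M L τ A B₂ h hL hLR (fun a ha b hb => hτE a ha b (hB₂B hb))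
        (fun b hb => (Finset.mem_filter.1 hb).2) hAc hc hB₂c
        (fun a ha b hb hcl => hout a ha b (hB₂B hb)
          (M.closure_subset_closure subset_union_left hcl))
        (fun b hb => hind b (hB₂B hb)) (hsub B₂ hB₂B₁) with h1 | ⟨X, S, j, ed, h1, h2, h3, h4⟩
      · exact Or.inl h1
      · refine Or.inr ⟨∅, Finset.empty_subset _, B₂, hB₂B, Finset.disjoint_empty_left _, X, S, j,
          ed, h1, h2, h3, ?_⟩
        have h5 : pts τ (A ×ˢ (∅ : Finset ℕ)) = ∅ := by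
          simp [pts]
        rw [h5, union_empty]
        exact h4
    · -- the increments drop
      push Not at hcase
      set L' : Set α := L ∪ pts τ (A ×ˢ B₁) with hL'
      have hL'E : L' ⊆ M.E := by
        refine union_subset hL ?_
        rw [pts_windows]
        exact iUnion₂_subset fun b hb => hTE b (hB₁B hb)
      set B₂ := B \ B₁ with hB₂
      have hB₂B : B₂ ⊆ B := Finset.sdiff_subset
      have hB₂c : N₂ ≤ B₂.card := by
        have h1 := Finset.card_sdiff_add_card_eq_card hB₁B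
        rw [← hB₂] at h1
        omega
      have hpts : ∀ B' : Finset ℕ, L' ∪ pts τ (A ×ˢ B') = L ∪ pts τ (A ×ˢ (B₁ ∪ B')) := by
        intro B'
        rw [hL', union_assoc, pts_windows, pts_windows, pts_windows, Finset.set_biUnion_union]
      have s1 : ∀ b ∈ B₂, rk M (L' ∪ (fun a => τ a b) '' A) ≤ rk M L' + g := by
        intro b₂ hb
        obtain ⟨hbB, hbB₁⟩ := Finset.mem_sdiff.1 hb
        have h1 := rk_family_le (M := M) L (fun b => (fun a => τ a b) '' (A : Set ι)) (insert b₂ B₁)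
        have h2 : rk M (L ∪ ⋃ b ∈ insert b₂ B₁, (fun a => τ a b) '' (A : Set ι)) ≠
            rk M L + ∑ b ∈ insert b₂ B₁, (rk M (L ∪ (fun a => τ a b) '' (A : Set ι)) - rk M L) := by
          intro h
          have h3 := hB₁max (insert b₂ B₁) (Finset.insert_subset hbB hB₁B) h
          rw [Finset.card_insert_of_notMem hbB₁] at h3
          omega
        have h3 : L' ∪ (fun a => τ a b₂) '' (A : Set ι) =
            L ∪ ⋃ b ∈ insert b₂ B₁, (fun a => τ a b) '' (A : Set ι) := by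
          rw [Finset.set_biUnion_insert, hL', pts_windows, union_assoc, union_comm (⋃ _ ∈ _, _)]
        have h4 : rk M L' = rk M L +
            ∑ b ∈ B₁, (rk M (L ∪ (fun a => τ a b) '' (A : Set ι)) - rk M L) := by
          rw [hL', pts_windows]
          exact hB₁s
        rw [Finset.sum_insert hbB₁] at h1 h2
        have h5 := hg b₂ hbB
        rw [h3, h4]
        omega
      have s2 : ∀ B' ⊆ B₂, rk M (L' ∪ pts τ (A ×ˢ B')) ≤ R + h * (N₁ + R) + h * B'.card := by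
        intro B' hB'
        rw [hpts]
        refine (hR _ (Finset.union_subset hB₁B (hB'.trans hB₂B))).trans ?_
        have h1 := Finset.card_union_le B₁ B'
        have h2 : h * (B₁ ∪ B').card ≤ h * (N₁ + R + B'.card) := Nat.mul_le_mul_left _ (by omega)
        rw [Nat.mul_add] at h2
        omega
      have s3 : ∀ a ∈ A, ∀ b ∈ B₂, τ a b ∉ M.closure (L' ∪ pts τ (A ×ˢ B₂.erase b)) := by
        intro a ha b hb hcl
        obtain ⟨hbB, hbB₁⟩ := Finset.mem_sdiff.1 hb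
        refine hout a ha b hbB (M.closure_subset_closure ?_ hcl)
        rw [hpts]
        refine union_subset_union_right _ (pts_mono (Finset.product_subset_product_right ?_))
        intro x hx
        rcases Finset.mem_union.1 hx with hx | hx
        · exact Finset.mem_erase.2 ⟨fun h => hbB₁ (h ▸ hx), hB₁B hx⟩
        · obtain ⟨h1, h2⟩ := Finset.mem_erase.1 hx
          exact Finset.mem_erase.2 ⟨h1, hB₂B h2⟩
      rcases hN₂ M L' τ A B₂ hL'E (fun a ha b hb => hτE a ha b (hB₂B hb)) s1 hAc hB₂c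
        (fun b hb => hind b (hB₂B hb)) s2 s3 with h1 |
        ⟨B₃, h1, B₄, h2, h3, X, S, j, ed, h4, h5, h6, h7⟩
      · exact Or.inl h1
      · refine Or.inr ⟨B₁ ∪ B₃, Finset.union_subset hB₁B (h1.trans hB₂B), B₄, h2.trans hB₂B, ?_, X,
          S, j, ed, h4, h5, h6, ?_⟩
        · rw [Finset.disjoint_union_left]
          refine ⟨?_, h3⟩
          rw [Finset.disjoint_left]
          intro b hb hb'
          exact (Finset.mem_sdiff.1 (h2 hb')).2 hb
        · rw [← hpts]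
          exact h7

/-- **HUB\***, final form. -/
theorem hubStar2 (k : ℕ) (hk : 2 ≤ k) (t c h R : ℕ) (hc : h * CC (t * t) (k - 1) < c) :
    ∃ N : ℕ, ∀ {α : Type u} {ι : Type v}
    (M : Matroid α) [M.Finite] (Λ : Set α) (τ : ι → ℕ → α) (A : Finset ι)
    (B : Finset ℕ), Λ ⊆ M.E → (∀ a ∈ A, ∀ b ∈ B, τ a b ∈ M.E) → A.card = c → N ≤ B.card →
    (∀ b ∈ B, rk M ((fun a => τ a b) '' (A : Set ι)) = A.card) →
    (∀ B' ⊆ B, rk M (Λ ∪ pts τ (A ×ˢ B')) ≤ R + h * B'.card) →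
    (∀ a ∈ A, ∀ b ∈ B, τ a b ∉ M.closure (Λ ∪ pts τ (A ×ˢ B.erase b))) →
    HasUniformMinor M k ∨ ∃ B₀ ⊆ B, ∃ B₁ ⊆ B, Disjoint B₀ B₁ ∧
      ∃ X S : Set α, ∃ j : ℕ × ℕ → α, ∃ ed : ℕ × ℕ → ℕ × ℕ → α,
      X ⊆ pts τ (A ×ˢ B₁) ∧ S ⊆ pts τ (A ×ˢ B₁) ∧ Gad.JGrid (M ／ X) S t j ed ∧
      S ⊆ M.closure (Λ ∪ pts τ (A ×ˢ B₀) ∪ X) := by
  obtain ⟨N, hN⟩ := hubStar2_aux.{u, v} k hk t c h c hc R
  refine ⟨N, ?_⟩
  intro α ι M _ Λ τ A B hΛ hτE hAc hB hind hR hout
  refine hN M Λ τ A B hΛ hτE ?_ hAc hB hind hR hout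
  intro b _
  have := rk_add_le (M := M) Λ (fun a => τ a b) A
  omega

end asm

end DA
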