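import Pool.Agent.DA.SR74
import Pool.Agent.DA.HubStar74

/-!
# Hubs: no skew lines (row B4 of cell G, problem MP_5165fa_co)

`Hub`: windows `B`, a set `L`, labels `Z` independent over `L` in all windows together, labels `V`
spanned in every window by `L` and `Z` but not by `L` and `Z \ {i₀}`.
`Hub.orc`: without a `U_{k,2k}`-minor there are no `k (k - 1)` skew labels of stable rank `≥ 2`.
-/

open Set BIC BICS
open scoped Matroid

namespace DA

universe u v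

variable {α ι : Type*} {M : Matroid α}

/-- A hub. -/
structure Hub (M : Matroid α) [DecidableEq ι] (L : Set α) (τ : ι → ℕ → α) (Z V : Finset ι)
    (i₀ : ι) (B : Finset ℕ) : Prop where
  subL : L ⊆ M.E
  mem₀ : i₀ ∈ Z
  memZ : ∀ a ∈ Z, ∀ b ∈ B, τ a b ∈ M.E
  memV : ∀ a ∈ V, ∀ b ∈ B, τ a b ∈ M.E
  disj : Disjoint V Z
  pair : rk M (L ∪ pts τ (Z ×ˢ B)) = rk M L + (Z ×ˢ B).card
  span : ∀ b ∈ B, ∀ a ∈ V, τ a b ∈ M.closure (L ∪ (fun a => τ a b) '' (Z : Set ι))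
  out : ∀ b ∈ B, ∀ a ∈ V, τ a b ∉
    M.closure (L ∪ (fun a => τ a b) '' ((Z.erase i₀ : Finset ι) : Set ι))

/-- The pairs `Z × B` without the junction points. -/
def PJ [DecidableEq ι] (Z : Finset ι) (B : Finset ℕ) (i₀ : ι) (J : Finset ℕ) : Finset (ι × ℕ) :=
  (Z ×ˢ B).filter (fun q => ¬ (q.1 = i₀ ∧ q.2 ∈ J))

lemma PJ_sub [DecidableEq ι] (Z : Finset ι) (B : Finset ℕ) (i₀ : ι) (J : Finset ℕ) :
    PJ Z B i₀ J ⊆ Z ×ˢ B := Finset.filter_subset _ _

namespace Hub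

variable [DecidableEq ι] {L : Set α} {τ : ι → ℕ → α} {Z V : Finset ι} {i₀ : ι} {B : Finset ℕ}

lemma subP (H : Hub M L τ Z V i₀ B) : pts τ (Z ×ˢ B) ⊆ M.E := by
  rintro _ ⟨q, hq, rfl⟩
  obtain ⟨h1, h2⟩ := Finset.mem_product.1 (Finset.mem_coe.1 hq)
  exact H.memZ _ h1 _ h2

lemma pairs [M.Finite] (H : Hub M L τ Z V i₀ B) {Q : Finset (ι × ℕ)} (hQ : Q ⊆ Z ×ˢ B) :
    rk M (L ∪ pts τ Q) = rk M L + Q.card :=
  rk_sub_eq (M := M) (X := L) (p := fun q : ι × ℕ => τ q.1 q.2) H.pair hQ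

lemma junction (H : Hub M L τ Z V i₀ B) {J : Finset ℕ} (hJ : J ⊆ B) :
    pts τ (PJ Z B i₀ J) ∪ (fun b => τ i₀ b) '' (J : Set ℕ) = pts τ (Z ×ˢ B) := by
  apply subset_antisymm
  · rintro z (⟨q, hq, rfl⟩ | ⟨b, hb, rfl⟩)
    · exact ⟨q, Finset.mem_coe.2 (PJ_sub _ _ _ _ hq), rfl⟩
    · exact ⟨(i₀, b), Finset.mem_coe.2 (Finset.mem_product.2 ⟨H.mem₀, hJ hb⟩), rfl⟩
  · rintro z ⟨q, hq, rfl⟩
    by_cases h : q.1 = i₀ ∧ q.2 ∈ J
    · exact Or.inr ⟨q.2, h.2, by simp only [← h.1]⟩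
    · exact Or.inl ⟨q, Finset.mem_coe.2 (Finset.mem_filter.2 ⟨Finset.mem_coe.1 hq, h⟩), rfl⟩

lemma cardP (H : Hub M L τ Z V i₀ B) {J : Finset ℕ} (hJ : J ⊆ B) :
    (PJ Z B i₀ J).card + J.card = (Z ×ˢ B).card := by
  have h3 : ((Z ×ˢ B).filter (fun q => (q.1 = i₀ ∧ q.2 ∈ J))).card = J.card := by
    have h4 : (Z ×ˢ B).filter (fun q => (q.1 = i₀ ∧ q.2 ∈ J)) = J.image (fun b => (i₀, b)) := by
      ext q
      constructor
      · intro hq
        obtain ⟨_, h5, h6⟩ := Finset.mem_filter.1 hq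
        exact Finset.mem_image.2 ⟨q.2, h6, by rw [← h5]⟩
      · intro hq
        obtain ⟨b, hb, rfl⟩ := Finset.mem_image.1 hq
        exact Finset.mem_filter.2 ⟨Finset.mem_product.2 ⟨H.mem₀, hJ hb⟩, rfl, hb⟩
    rw [h4, Finset.card_image_of_injective]
    intro b c h
    exact (Prod.mk.inj h).2
  have h5 := Finset.card_filter_add_card_filter_not (s := Z ×ˢ B)
    (fun q : ι × ℕ => (q.1 = i₀ ∧ q.2 ∈ J))
  unfold PJ
  omega

/-- The junction points are independent over the rest. -/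
lemma yind [M.Finite] (H : Hub M L τ Z V i₀ B) {J : Finset ℕ} (hJ : J ⊆ B) :
    rk M (L ∪ pts τ (PJ Z B i₀ J) ∪ (fun b => τ i₀ b) '' (J : Set ℕ)) =
      rk M (L ∪ pts τ (PJ Z B i₀ J)) + J.card := by
  rw [union_assoc, H.junction hJ, H.pair, H.pairs (PJ_sub _ _ _ _)]
  have := H.cardP hJ
  omega

/-- Windows which are not junctions. -/
lemma inP (H : Hub M L τ Z V i₀ B) {J : Finset ℕ} {b : ℕ} (hb : b ∈ B) (hbJ : b ∉ J) {a : ι}
    (ha : a ∈ V) : τ a b ∈ M.closure (L ∪ pts τ (PJ Z B i₀ J)) := by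
  refine M.closure_subset_closure (union_subset_union_right _ ?_) (H.span b hb a ha)
  rintro _ ⟨i, hi, rfl⟩
  exact ⟨(i, b), Finset.mem_filter.2 ⟨Finset.mem_product.2 ⟨hi, hb⟩, fun h => hbJ h.2⟩, rfl⟩

/-- Junction windows. -/
lemma inPy (H : Hub M L τ Z V i₀ B) {J : Finset ℕ} {b : ℕ} (hb : b ∈ B) {a : ι}
    (ha : a ∈ V) : τ a b ∈ M.closure (insert (τ i₀ b) (L ∪ pts τ (PJ Z B i₀ J))) := by
  refine M.closure_subset_closure ?_ (H.span _ hb a ha)
  rintro z (hz | ⟨i, hi, rfl⟩)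
  · exact Or.inr (Or.inl hz)
  · by_cases hii : i = i₀
    · exact Or.inl (by rw [hii])
    · exact Or.inr (Or.inr ⟨(i, b), Finset.mem_filter.2
        ⟨Finset.mem_product.2 ⟨hi, hb⟩, fun h => hii h.1⟩, rfl⟩)

/-- In a junction window the elements of `V` are outside. -/
lemma outV [M.Finite] (H : Hub M L τ Z V i₀ B) {J : Finset ℕ} {b : ℕ} (hb : b ∈ B) (hbJ : b ∈ J)
    {a : ι} (ha : a ∈ V) : τ a b ∉ M.closure (L ∪ pts τ (PJ Z B i₀ J)) := by
  intro hcon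
  have hZb : rk M (L ∪ (fun a => τ a b) '' (Z : Set ι)) = rk M L + Z.card := by
    have h1 := H.pairs (Q := Z ×ˢ {b}) (Finset.product_subset_product_right
      (Finset.singleton_subset_iff.2 hb))
    have h2 : pts τ (Z ×ˢ ({b} : Finset ℕ)) = (fun a => τ a b) '' (Z : Set ι) := by
      ext x
      simp only [pts, mem_image, Finset.mem_coe, Finset.mem_product, Finset.mem_singleton,
        Prod.exists]
      constructor
      · rintro ⟨a, b', ⟨h3, rfl⟩, rfl⟩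
        exact ⟨a, h3, rfl⟩
      · rintro ⟨a, h3, rfl⟩
        exact ⟨a, b, ⟨h3, rfl⟩, rfl⟩
    rw [h2, Finset.card_product, Finset.card_singleton, mul_one] at h1
    exact h1
  have e2 : rk M (L ∪ (fun a => τ a b) '' (Z : Set ι) ∪ pts τ (Z ×ˢ B.erase b)) =
      rk M (L ∪ (fun a => τ a b) '' (Z : Set ι)) + (Z ×ˢ B.erase b).card := by
    have e3 : L ∪ (fun a => τ a b) '' (Z : Set ι) ∪ pts τ (Z ×ˢ B.erase b) =
        L ∪ pts τ (Z ×ˢ B) := by
      ext z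
      simp only [pts, mem_union, mem_image, Finset.mem_coe, Finset.mem_product, Prod.exists,
        Finset.mem_erase]
      constructor
      · rintro ((hz | ⟨i, hi, rfl⟩) | ⟨i, c, ⟨hi, hc⟩, rfl⟩)
        · exact Or.inl hz
        · exact Or.inr ⟨i, b, ⟨hi, hb⟩, rfl⟩
        · exact Or.inr ⟨i, c, ⟨hi, hc.2⟩, rfl⟩
      · rintro (hz | ⟨i, c, ⟨hi, hc⟩, rfl⟩)
        · exact Or.inl (Or.inl hz)
        · by_cases hcb : c = b
          · exact Or.inl (Or.inr ⟨i, hi, by rw [hcb]⟩)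
          · exact Or.inr ⟨i, c, ⟨hi, hcb, hc⟩, rfl⟩
    rw [e3, H.pair, hZb, Finset.card_product, Finset.card_product,
      Finset.card_erase_of_mem hb]
    have h3 : 1 ≤ B.card := Finset.card_pos.2 ⟨b, hb⟩
    obtain ⟨n, hn⟩ : ∃ n, B.card = n + 1 := ⟨B.card - 1, by omega⟩
    rw [hn]
    simp only [Nat.add_sub_cancel]
    ring
  refine H.out b hb a ha ?_
  refine mem_drop (F := L ∪ (fun a => τ a b) '' (Z : Set ι)) (E := Z ×ˢ B.erase b)
    (y := fun q : ι × ℕ => τ q.1 q.2) e2 ?_ (H.span b hb a ha) ?_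
  · rintro z (hz | ⟨i, hi, rfl⟩)
    · exact M.mem_closure_of_mem' (Or.inl hz) (H.subL hz)
    · have hi' := Finset.mem_of_mem_erase (Finset.mem_coe.1 hi)
      exact M.mem_closure_of_mem' (Or.inr ⟨i, hi', rfl⟩) (H.memZ _ hi' b hb)
  · refine M.closure_subset_closure ?_ hcon
    rintro z (hz | ⟨q, hq, rfl⟩)
    · exact Or.inl (Or.inl hz)
    · obtain ⟨hq1, hq2⟩ := Finset.mem_filter.1 (Finset.mem_coe.1 hq)
      obtain ⟨h3, h4⟩ := Finset.mem_product.1 hq1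
      by_cases hqb : q.2 = b
      · refine Or.inl (Or.inr ⟨q.1, Finset.mem_coe.2 (Finset.mem_erase.2 ⟨?_, h3⟩), by
          simp only [hqb]⟩)
        intro h5
        exact hq2 ⟨h5, by rw [hqb]; exact hbJ⟩
      · exact Or.inr ⟨q, Finset.mem_coe.2 (Finset.mem_product.2
          ⟨h3, Finset.mem_erase.2 ⟨hqb, h4⟩⟩), rfl⟩

end Hub

section skewc

/-- Contracting subsets of the members of a skew family. -/
lemma skew_contract [M.Finite] [DecidableEq ι] (X : Set α) (F D G : ι → Set α) (A : Finset ι)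
    (hD : ∀ a ∈ A, D a ⊆ F a) (hG : ∀ a ∈ A, G a ⊆ F a)
    (h : rk M (X ∪ ⋃ a ∈ A, F a) = rk M X + ∑ a ∈ A, (rk M (X ∪ F a) - rk M X)) :
    rk M ((X ∪ ⋃ a ∈ A, D a) ∪ ⋃ a ∈ A, G a) = rk M (X ∪ ⋃ a ∈ A, D a) +
      ∑ a ∈ A, (rk M (X ∪ (D a ∪ G a)) - rk M (X ∪ D a)) := by
  have h1 := skew_sub X F D A hD h
  have h2 := skew_sub X F (fun a => D a ∪ G a) A (fun a ha => union_subset (hD a ha) (hG a ha)) h
  have e1 : (X ∪ ⋃ a ∈ A, D a) ∪ ⋃ a ∈ A, G a = X ∪ ⋃ a ∈ A, (D a ∪ G a) := by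
    ext x
    simp only [mem_union, mem_iUnion]
    constructor
    · rintro ((hx | ⟨a, ha, hx⟩) | ⟨a, ha, hx⟩)
      · exact Or.inl hx
      · exact Or.inr ⟨a, ha, Or.inl hx⟩
      · exact Or.inr ⟨a, ha, Or.inr hx⟩
    · rintro (hx | ⟨a, ha, hx | hx⟩)
      · exact Or.inl (Or.inl hx)
      · exact Or.inl (Or.inr ⟨a, ha, hx⟩)
      · exact Or.inr ⟨a, ha, hx⟩
  have h3 : ∑ a ∈ A, (rk M (X ∪ (D a ∪ G a)) - rk M X) =
      ∑ a ∈ A, (rk M (X ∪ D a) - rk M X) +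
        ∑ a ∈ A, (rk M (X ∪ (D a ∪ G a)) - rk M (X ∪ D a)) := by
    rw [← Finset.sum_add_distrib]
    refine Finset.sum_congr rfl fun a _ => ?_
    have h4 := rk_mono M (show X ⊆ X ∪ D a from subset_union_left)
    have h5 := rk_mono M (show X ∪ D a ⊆ X ∪ (D a ∪ G a) from
      union_subset_union_right _ subset_union_left)
    omega
  rw [e1, h2, h1, h3]
  omega

lemma greedyJ (Bd : ℕ → ℕ → Prop) (hsymm : ∀ b b', Bd b b' → Bd b' b) (c : ℕ) (B : Finset ℕ)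
    (h : ∀ b' ∈ B, ∀ B' ⊆ B, (∀ b ∈ B', Bd b b') → B'.card ≤ c) : ∀ w : ℕ,
    w * (c + 1) ≤ B.card →
    ∃ J ⊆ B, J.card = w ∧ ∀ b ∈ J, ∀ b' ∈ J, b ≠ b' → ¬ Bd b b' := by
  classical
  intro w
  induction w with
  | zero => exact fun _ => ⟨∅, Finset.empty_subset _, rfl, by simp⟩
  | succ w ih =>
    intro hB
    rw [Nat.add_mul, Nat.one_mul] at hB
    obtain ⟨J, h1, h2, h3⟩ := ih (by omega)
    set U := J ∪ J.biUnion (fun b' => B.filter (fun b => Bd b b')) with hU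
    have hUc : U.card ≤ w * (c + 1) := by
      have e1 := Finset.card_union_le J (J.biUnion (fun b' => B.filter (fun b => Bd b b')))
      rw [← hU] at e1
      have e2 : (J.biUnion (fun b' => B.filter (fun b => Bd b b'))).card ≤ J.card * c :=
        Finset.card_biUnion_le_card_mul _ _ _ fun b' hb' =>
          h b' (h1 hb') _ (Finset.filter_subset _ _) (fun b hb => (Finset.mem_filter.1 hb).2)
      rw [h2] at e1 e2
      rw [Nat.mul_add, Nat.mul_one]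
      omega
    obtain ⟨b, hb, hbU⟩ := Finset.exists_mem_notMem_of_card_lt_card (show U.card < B.card by omega)
    have hbJ : b ∉ J := fun h' => hbU (Finset.mem_union_left _ h')
    have hbad : ∀ b' ∈ J, ¬ Bd b b' := fun b' hb' h' =>
      hbU (Finset.mem_union_right _ (Finset.mem_biUnion.2 ⟨b', hb', Finset.mem_filter.2 ⟨hb, h'⟩⟩))
    refine ⟨insert b J, Finset.insert_subset hb h1, ?_, ?_⟩
    · rw [Finset.card_insert_of_notMem hbJ, h2]
    · intro b₁ hb₁ b₂ hb₂ hne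
      rcases Finset.mem_insert.1 hb₁ with e1 | e1
      · rcases Finset.mem_insert.1 hb₂ with e2 | e2
        · exact absurd (e1.trans e2.symm) hne
        · rw [e1]
          exact hbad b₂ e2
      · rcases Finset.mem_insert.1 hb₂ with e2 | e2
        · rw [e2]
          exact fun h' => hbad b₁ e1 (hsymm _ _ h')
        · exact h3 b₁ e1 b₂ e2 hne

end skewc

namespace Hub

variable [DecidableEq ι] {L : Set α} {τ : ι → ℕ → α} {Z V : Finset ι} {i₀ : ι} {B : Finset ℕ}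

/-- The number of windows needed for `k (k - 1)` skew labels. -/
def GO (k r₀ n₁ : ℕ) : ℕ :=
  (k * (k - 1)) * r₀ + (k * (k - 1)) * n₁ +
    (2 ^ (2 * k) + k * k) * ((k * (k - 1)) * n₁ + 1) + n₁

/-- **No skew lines over a hub.** -/
theorem orc [M.Finite] (H : Hub M L τ Z V i₀ B) {k : ℕ} (hk : 2 ≤ k)
    (hU : ¬ HasUniformMinor M k) {r₀ : ℕ}
    (hr₀ : ∀ a ∈ V, rk M (pts τ (Z ×ˢ B) ∪ τ a '' (B : Set ℕ)) ≤
      rk M (pts τ (Z ×ˢ B)) + r₀) :
    Orc (k * (k - 1)) (GO k r₀) M (pts τ (Z ×ˢ B)) τ V B := by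
  classical
  intro Q₀ A₂ hA₂ B₁ hB₁ n₁ hQ₀ hA₂c hB₁c hst hge hsk
  obtain ⟨w, hw⟩ : ∃ w, w = 2 ^ (2 * k) + k * k := ⟨_, rfl⟩
  obtain ⟨m₂, hm₂⟩ : ∃ m₂, m₂ = k * (k - 1) := ⟨_, rfl⟩
  unfold GO at hB₁c
  rw [← hw, ← hm₂] at hB₁c
  rw [← hm₂] at hA₂c
  obtain ⟨X₁, hX₁⟩ : ∃ X₁, X₁ = pts τ (Z ×ˢ B) ∪ pts τ Q₀ := ⟨_, rfl⟩
  rw [← hX₁] at hst hge hsk
  have hzB₁ : ∀ a ∈ A₂, ∀ b ∈ B₁, τ a b ∈ M.E := fun a ha b hb => H.memV a (hA₂ ha) b (hB₁ hb)
  have hQE : pts τ Q₀ ⊆ M.E := by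
    rintro _ ⟨q, hq, rfl⟩
    obtain ⟨h1, h2, _⟩ := hQ₀ q hq
    exact H.memV _ h1 _ h2
  have hX₁E : X₁ ⊆ M.E := by
    rw [hX₁]
    exact union_subset H.subP hQE
  -- the rank bound
  have hle : ∀ a ∈ A₂, rk M (X₁ ∪ τ a '' (B₁ : Set ℕ)) ≤ rk M X₁ + r₀ := by
    intro a ha
    have h1 := hr₀ a (hA₂ ha)
    have h2 : rk M (pts τ (Z ×ˢ B)) + rk M (X₁ ∪ τ a '' (B₁ : Set ℕ)) ≤
        rk M (pts τ (Z ×ˢ B) ∪ τ a '' (B : Set ℕ)) + rk M X₁ := by
      refine rk_sub' (subset_inter subset_union_left ?_) ?_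
      · rw [hX₁]; exact subset_union_left
      · rintro x (hx | ⟨b, hb, rfl⟩)
        · exact Or.inr hx
        · exact Or.inl (Or.inr ⟨b, hB₁ hb, rfl⟩)
    omega
  -- the bases
  have hch : ∀ a, ∃ D : Finset ℕ, a ∈ A₂ → D ⊆ B₁ ∧ D.card ≤ r₀ ∧
      rk M (X₁ ∪ τ a '' (D : Set ℕ)) = rk M X₁ + D.card ∧
      rk M (X₁ ∪ τ a '' (B₁ : Set ℕ)) = rk M X₁ + D.card + 2 := by
    intro a
    by_cases ha : a ∈ A₂
    · obtain ⟨D, h1, h2, h3⟩ := exists_basis_sub (M := M) X₁ (τ a) B₁ (hzB₁ a ha)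
      have h4 := hge a ha
      have h5 := hle a ha
      obtain ⟨D', h6, h7⟩ := Finset.exists_subset_card_eq (show D.card - 2 ≤ D.card by omega)
      exact ⟨D', fun _ => ⟨h6.trans h1, by omega, rk_sub_eq h2 h6, by omega⟩⟩
    · exact ⟨∅, fun h => absurd h ha⟩
  choose D hD using hch
  have hDB : ∀ a ∈ A₂, D a ⊆ B₁ := fun a ha => (hD a ha).1
  -- the base
  obtain ⟨Xh, hXh⟩ : ∃ Xh, Xh = X₁ ∪ ⋃ a ∈ A₂, τ a '' (D a : Set ℕ) := ⟨_, rfl⟩
  have hXhE : Xh ⊆ M.E := by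
    rw [hXh]
    refine union_subset hX₁E (iUnion₂_subset fun a ha => ?_)
    rintro _ ⟨b, hb, rfl⟩
    exact hzB₁ a ha b (hDB a ha hb)
  -- skewness over the base
  have hS : ∀ K : ι → Finset ℕ, (∀ a ∈ A₂, K a ⊆ B₁) →
      rk M (Xh ∪ ⋃ a ∈ A₂, τ a '' (K a : Set ℕ)) = rk M Xh +
        ∑ a ∈ A₂, (rk M (X₁ ∪ (τ a '' (D a : Set ℕ) ∪ τ a '' (K a : Set ℕ))) -
          rk M (X₁ ∪ τ a '' (D a : Set ℕ))) := by
    intro K hK
    have h1 := skew_contract (M := M) X₁ (fun a => τ a '' (B₁ : Set ℕ))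
      (fun a => τ a '' (D a : Set ℕ)) (fun a => τ a '' (K a : Set ℕ)) A₂
      (fun a ha => image_mono (by exact_mod_cast hDB a ha))
      (fun a ha => image_mono (by exact_mod_cast hK a ha)) hsk
    rw [← hXh] at h1
    exact h1
  -- increments
  have hinc : ∀ a ∈ A₂, ∀ K ⊆ B₁, n₁ ≤ K.card →
      rk M (X₁ ∪ (τ a '' (D a : Set ℕ) ∪ τ a '' (K : Set ℕ))) =
        rk M (X₁ ∪ τ a '' (D a : Set ℕ)) + 2 := by
    intro a ha K hK hKc
    obtain ⟨-, -, h3, h4⟩ := hD a ha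
    have h5 := hst a ha K hK hKc
    have h6 := rk_mono M (show X₁ ∪ τ a '' (K : Set ℕ) ⊆
      X₁ ∪ (τ a '' (D a : Set ℕ) ∪ τ a '' (K : Set ℕ)) from
      union_subset_union_right _ subset_union_right)
    have h7 := rk_mono M (show X₁ ∪ (τ a '' (D a : Set ℕ) ∪ τ a '' (K : Set ℕ)) ⊆
      X₁ ∪ τ a '' (B₁ : Set ℕ) from union_subset_union_right _ (union_subset
        (image_mono (by exact_mod_cast hDB a ha)) (image_mono (by exact_mod_cast hK))))
    omega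
  -- one label over the base
  have hone : ∀ a ∈ A₂, ∀ K ⊆ B₁, rk M (Xh ∪ τ a '' (K : Set ℕ)) = rk M Xh +
      (rk M (X₁ ∪ (τ a '' (D a : Set ℕ) ∪ τ a '' (K : Set ℕ))) -
        rk M (X₁ ∪ τ a '' (D a : Set ℕ))) := by
    intro a ha K hK
    have h1 := hS (fun a' => if a' = a then K else ∅) (by
      intro a' _
      split_ifs
      · exact hK
      · exact Finset.empty_subset _)
    have h2 : (⋃ a' ∈ A₂, τ a' '' ((if a' = a then K else ∅ : Finset ℕ) : Set ℕ)) =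
        τ a '' (K : Set ℕ) := by
      ext x
      simp only [mem_iUnion]
      constructor
      · rintro ⟨a', ha', hx⟩
        by_cases h : a' = a
        · subst h
          rwa [if_pos rfl] at hx
        · rw [if_neg h, Finset.coe_empty, image_empty] at hx
          exact absurd hx (notMem_empty _)
      · intro hx
        exact ⟨a, ha, by rw [if_pos rfl]; exact hx⟩
    rw [h2, Finset.sum_eq_single a] at h1
    · rw [if_pos rfl] at h1
      exact h1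
    · intro a' _ hne
      rw [if_neg hne, Finset.coe_empty, image_empty, union_empty]
      omega
    · intro h
      exact absurd ha h
  have hbig : ∀ a ∈ A₂, ∀ K ⊆ B₁, n₁ ≤ K.card → rk M (Xh ∪ τ a '' (K : Set ℕ)) = rk M Xh + 2 := by
    intro a ha K hK hKc
    rw [hone a ha K hK, hinc a ha K hK hKc]
    omega
  -- the windows left
  obtain ⟨B₂, hB₂⟩ : ∃ B₂, B₂ = B₁ \ A₂.biUnion D := ⟨_, rfl⟩
  have hB₂B₁ : B₂ ⊆ B₁ := by rw [hB₂]; exact Finset.sdiff_subset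
  have hB₂c : B₁.card ≤ B₂.card + m₂ * r₀ := by
    have h1 : (A₂.biUnion D).card ≤ A₂.card * r₀ :=
      Finset.card_biUnion_le_card_mul _ _ _ fun a ha => (hD a ha).2.1
    have h2 := Finset.le_card_sdiff (A₂.biUnion D) B₁
    rw [← hB₂] at h2
    rw [hA₂c] at h1
    omega
  have hDB₂ : ∀ a ∈ A₂, ∀ b ∈ D a, b ∉ B₂ := by
    intro a ha b hb h
    rw [hB₂] at h
    exact (Finset.mem_sdiff.1 h).2 (Finset.mem_biUnion.2 ⟨a, ha, hb⟩)
  set Nl : ι → Finset ℕ := fun a => B₂.filter (fun b => τ a b ∈ M.closure Xh) with hNl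
  have hNlc : ∀ a ∈ A₂, (Nl a).card ≤ n₁ := by
    intro a ha
    by_contra hcon
    push Not at hcon
    have h1 := hbig a ha (Nl a) ((Finset.filter_subset _ _).trans hB₂B₁) hcon.le
    have h2 : Xh ∪ τ a '' ((Nl a : Finset ℕ) : Set ℕ) ⊆ M.closure Xh := by
      rintro x (hx | ⟨b, hb, rfl⟩)
      · exact M.mem_closure_of_mem' hx (hXhE hx)
      · exact (Finset.mem_filter.1 (Finset.mem_coe.1 hb)).2
    have h3 := rk_le_cl (M := M) h2
    omega
  obtain ⟨B₃, hB₃⟩ : ∃ B₃, B₃ = B₂ \ A₂.biUnion Nl := ⟨_, rfl⟩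
  have hB₃B₂ : B₃ ⊆ B₂ := by rw [hB₃]; exact Finset.sdiff_subset
  have hB₃c : B₂.card ≤ B₃.card + m₂ * n₁ := by
    have h1 : (A₂.biUnion Nl).card ≤ A₂.card * n₁ :=
      Finset.card_biUnion_le_card_mul _ _ _ hNlc
    have h2 := Finset.le_card_sdiff (A₂.biUnion Nl) B₂
    rw [← hB₃] at h2
    rw [hA₂c] at h1
    omega
  have hnl : ∀ a ∈ A₂, ∀ b ∈ B₃, τ a b ∉ M.closure Xh := by
    intro a ha b hb h
    have hb' := hb
    rw [hB₃] at hb'
    exact (Finset.mem_sdiff.1 hb').2 (Finset.mem_biUnion.2 ⟨a, ha,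
      Finset.mem_filter.2 ⟨hB₃B₂ hb, h⟩⟩)
  -- the junctions
  set Bd : ℕ → ℕ → Prop := fun b b' => ∃ a ∈ A₂, rk M (Xh ∪ {τ a b, τ a b'}) < rk M Xh + 2
    with hBd
  obtain ⟨J, hJB₃, hJc, hJ⟩ := greedyJ Bd (by
    rintro b b' ⟨a, ha, h⟩
    exact ⟨a, ha, by rw [pair_comm]; exact h⟩) (m₂ * n₁) B₃ (by
    intro b' hb' B' hB' hbad
    have : Nonempty ι := ⟨i₀⟩
    choose! f hf1 hf2 using hbad
    have h1 : B' ⊆ A₂.biUnion (fun a => B'.filter (fun b => f b = a)) := fun b hb =>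
      Finset.mem_biUnion.2 ⟨f b, hf1 b hb, Finset.mem_filter.2 ⟨hb, rfl⟩⟩
    have h2 : (A₂.biUnion (fun a => B'.filter (fun b => f b = a))).card ≤ A₂.card * n₁ := by
      refine Finset.card_biUnion_le_card_mul _ _ _ fun a ha => ?_
      by_contra hcon
      push Not at hcon
      have h3 := hbig a ha (B'.filter (fun b => f b = a))
        ((Finset.filter_subset _ _).trans (hB'.trans (hB₃B₂.trans hB₂B₁))) hcon.le
      have h4 := hnl a ha b' hb'
      have hbE' : τ a b' ∈ M.E := hzB₁ a ha b' (hB₂B₁ (hB₃B₂ hb'))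
      have h5 := rk_ins_not hbE' h4
      have h6 : Xh ∪ τ a '' ((B'.filter (fun b => f b = a) : Finset ℕ) : Set ℕ) ⊆
          M.closure (insert (τ a b') Xh) := by
        rintro x (hx | ⟨b, hb, rfl⟩)
        · exact M.mem_closure_of_mem' (Or.inr hx) (hXhE hx)
        · obtain ⟨hb1, hb2⟩ := Finset.mem_filter.1 (Finset.mem_coe.1 hb)
          by_contra hcon
          have h7 := rk_ins_not (hzB₁ a ha b (hB₂B₁ (hB₃B₂ (hB' hb1)))) hcon
          have h8 := hf2 b hb1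
          rw [hb2, union_insert, union_singleton] at h8
          omega
      have h7 := rk_le_cl (M := M) h6
      omega
    rw [hA₂c] at h2
    exact (Finset.card_le_card h1).trans h2) w (by omega)
  have hJB₂ : J ⊆ B₂ := hJB₃.trans hB₃B₂
  have hJB₁ : J ⊆ B₁ := hJB₂.trans hB₂B₁
  have hJB : J ⊆ B := hJB₁.trans hB₁
  have hBJc : n₁ ≤ (B₂ \ J).card := by
    have h1 := Finset.le_card_sdiff J B₂
    have h2 : w ≤ w * (m₂ * n₁ + 1) := Nat.le_mul_of_pos_right _ (by omega)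
    omega
  have hBJ : B₂ \ J ⊆ B₁ := Finset.sdiff_subset.trans hB₂B₁
  -- the configuration
  obtain ⟨P, hP⟩ : ∃ P, P = pts τ (PJ Z B i₀ J) := ⟨_, rfl⟩
  obtain ⟨U, hUd⟩ : ∃ U, U = pts τ Q₀ ∪ ⋃ a ∈ A₂, τ a '' (D a : Set ℕ) := ⟨_, rfl⟩
  have hPE : P ⊆ M.E := by
    rw [hP]
    exact (pts_mono (PJ_sub _ _ _ _)).trans H.subP
  have hUE : U ⊆ M.E := by
    rw [hUd]
    refine union_subset hQE (iUnion₂_subset fun a ha => ?_)
    rintro _ ⟨b, hb, rfl⟩
    exact hzB₁ a ha b (hDB a ha hb)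
  have hUcl : U ⊆ M.closure (L ∪ P) := by
    rw [hUd, hP]
    refine union_subset ?_ (iUnion₂_subset fun a ha => ?_)
    · rintro _ ⟨q, hq, rfl⟩
      obtain ⟨h1, h2, h3⟩ := hQ₀ q hq
      exact H.inP h2 (fun h => h3 (hJB₁ h)) h1
    · rintro _ ⟨b, hb, rfl⟩
      exact H.inP (hB₁ (hDB a ha hb)) (fun h => hDB₂ a ha b hb (hJB₂ h)) (hA₂ ha)
  obtain ⟨y, hy⟩ : ∃ y : ℕ → α, y = fun b => τ i₀ b := ⟨_, rfl⟩
  have hyE : ∀ b ∈ J, y b ∈ M.E := by
    intro b hb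
    rw [hy]
    exact H.memZ _ H.mem₀ b (hJB hb)
  have hXy : P ∪ U ∪ y '' (J : Set ℕ) = Xh := by
    rw [hXh, hX₁, ← H.junction hJB, hP, hUd, hy]
    ext x
    simp only [mem_union]
    tauto
  have hLPE : L ∪ P ⊆ M.E := union_subset H.subL hPE
  have hPUcl : P ∪ U ⊆ M.closure (L ∪ P) :=
    union_subset (subset_union_right.trans (M.subset_closure _ hLPE)) hUcl
  have hyind : rk M (L ∪ P ∪ y '' (J : Set ℕ)) = rk M (L ∪ P) + J.card := by
    rw [hP, hy]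
    exact H.yind hJB
  have hrXh : rk M Xh = rk M (P ∪ U) + J.card := by
    rw [← hXy]
    exact rk_skew_pts hyind hPUcl
  have hVcl : ∀ a ∈ A₂, τ a '' ((B₂ \ J : Finset ℕ) : Set ℕ) ⊆ M.closure (L ∪ P) := by
    rintro a ha _ ⟨b, hb, rfl⟩
    obtain ⟨h1, h2⟩ := Finset.mem_sdiff.1 (Finset.mem_coe.1 hb)
    rw [hP]
    exact H.inP (hB₁ (hB₂B₁ h1)) h2 (hA₂ ha)
  have hVE : ∀ a ∈ A₂, τ a '' ((B₂ \ J : Finset ℕ) : Set ℕ) ⊆ M.E := by
    rintro a ha _ ⟨b, hb, rfl⟩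
    exact hzB₁ a ha b (hBJ hb)
  -- the point is in the plane of the line and the hub point
  have hinn : ∀ a ∈ A₂, ∀ b ∈ J, τ a b ∈
      M.closure (insert (y b) (P ∪ U ∪ τ a '' ((B₂ \ J : Finset ℕ) : Set ℕ))) := by
    intro a ha b hb
    have hbB₁ := hJB₁ hb
    have h1 : τ a b ∈ M.closure (Xh ∪ τ a '' ((B₂ \ J : Finset ℕ) : Set ℕ)) := by
      by_contra hcon
      have h2 := rk_ins_not (hzB₁ a ha b hbB₁) hcon
      rw [hbig a ha _ hBJ hBJc] at h2
      have h3 := rk_mono M (show insert (τ a b) (Xh ∪ τ a '' ((B₂ \ J : Finset ℕ) : Set ℕ)) ⊆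
        Xh ∪ τ a '' (B₁ : Set ℕ) from insert_subset (Or.inr ⟨b, hbB₁, rfl⟩)
          (union_subset_union_right _ (image_mono (by exact_mod_cast hBJ))))
      have h4 := hbig a ha B₁ subset_rfl (by
        have := Finset.card_le_card hBJ
        omega)
      omega
    -- the other junction points are independent over the rest
    have h5 : rk M (insert (y b) (L ∪ P) ∪ y '' ((J.erase b : Finset ℕ) : Set ℕ)) =
        rk M (insert (y b) (L ∪ P)) + (J.erase b).card := by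
      have e1 : insert (y b) (L ∪ P) ∪ y '' ((J.erase b : Finset ℕ) : Set ℕ) =
          L ∪ P ∪ y '' (J : Set ℕ) := by
        rw [← Finset.insert_erase hb, Finset.coe_insert, image_insert_eq, union_insert,
          insert_union]
        simp
      have e2 := rk_sub_eq hyind (Finset.singleton_subset_iff.2 hb)
      rw [Finset.coe_singleton, image_singleton, union_singleton, Finset.card_singleton] at e2
      rw [e1, hyind, e2]
      have := Finset.card_erase_of_mem hb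
      have : 1 ≤ J.card := Finset.card_pos.2 ⟨b, hb⟩
      omega
    have hiE : insert (y b) (L ∪ P) ⊆ M.E := insert_subset (hyE b hb) hLPE
    refine mem_drop h5 ?_ ?_ ?_
    · refine insert_subset (M.mem_closure_of_mem' (Or.inl rfl) (hyE b hb)) ?_
      exact (union_subset hPUcl (hVcl a ha)).trans (M.closure_subset_closure (subset_insert _ _))
    · have := H.inPy (J := J) (hJB hb) (hA₂ ha)
      rw [← hP] at this
      rw [hy]
      exact this
    · refine M.closure_subset_closure ?_ h1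
      rw [← hXy]
      rintro x ((hx | ⟨c, hc, rfl⟩) | hx)
      · exact Or.inl (Or.inr (Or.inl hx))
      · by_cases hcb : c = b
        · exact Or.inl (Or.inl (by rw [hcb]))
        · exact Or.inr ⟨c, Finset.mem_coe.2 (Finset.mem_erase.2 ⟨hcb, hc⟩), rfl⟩
      · exact Or.inl (Or.inr (Or.inr hx))
  have hHL : HL M (P ∪ U) (fun a => τ a '' ((B₂ \ J : Finset ℕ) : Set ℕ)) y τ A₂ J ∅ := by
    refine ⟨union_subset hPE hUE, hVE, hyE, Finset.empty_subset _, ?_, ?_, hinn, ?_, ?_⟩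
    · -- full
      have h1 : rk M (Xh ∪ ⋃ a ∈ A₂, τ a '' ((B₂ \ J : Finset ℕ) : Set ℕ)) =
          rk M Xh + 2 * A₂.card := by
        rw [hS (fun _ => B₂ \ J) (fun _ _ => hBJ)]
        congr 1
        rw [mul_comm, ← smul_eq_mul, ← Finset.sum_const]
        refine Finset.sum_congr rfl fun a ha => ?_
        rw [hinc a ha _ hBJ hBJc]
        omega
      have h2 : P ∪ U ∪ y '' (J : Set ℕ) ∪ (⋃ a ∈ (A₂ : Set ι),
          τ a '' ((B₂ \ J : Finset ℕ) : Set ℕ)) =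
          Xh ∪ ⋃ a ∈ A₂, τ a '' ((B₂ \ J : Finset ℕ) : Set ℕ) := by
        rw [hXy]
        simp only [Finset.mem_coe]
      rw [h2, h1, hrXh, Finset.coe_empty, image_empty, union_empty, Finset.sdiff_empty]
      omega
    · intro a ha
      have h1 := hbig a ha _ hBJ hBJc
      have h2 := rk_skew_pts hyind (Z := P ∪ U ∪ τ a '' ((B₂ \ J : Finset ℕ) : Set ℕ))
        (union_subset hPUcl (hVcl a ha))
      have h3 : P ∪ U ∪ τ a '' ((B₂ \ J : Finset ℕ) : Set ℕ) ∪ y '' (J : Set ℕ) =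
          Xh ∪ τ a '' ((B₂ \ J : Finset ℕ) : Set ℕ) := by
        rw [← hXy, union_right_comm]
      rw [h3] at h2
      omega
    · intro a ha b hb
      refine hexch (hinn a ha b hb) fun hcon => ?_
      have h1 := H.outV (J := J) (hJB hb) hb (hA₂ ha)
      rw [← hP] at h1
      exact h1 (M.closure_subset_closure_of_subset_closure
        (union_subset hPUcl (hVcl a ha)) hcon)
    · -- not parallel
      intro a ha b hb b' hb' hne
      obtain ⟨K, hK⟩ : ∃ K : Finset ℕ → ι → Finset ℕ,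
          K = fun T a' => if a' = a then T else B₂ \ J := ⟨_, rfl⟩
      have hKB : ∀ T ⊆ B₁, ∀ a' ∈ A₂, K T a' ⊆ B₁ := by
        intro T hT a' _
        rw [hK]
        dsimp only
        split_ifs
        · exact hT
        · exact hBJ
      have hKset : ∀ T : Finset ℕ, (⋃ a' ∈ A₂, τ a' '' (K T a' : Set ℕ)) =
          (⋃ a' ∈ {a' | a' ∈ A₂ ∧ a' ≠ a}, τ a' '' ((B₂ \ J : Finset ℕ) : Set ℕ)) ∪
            τ a '' (T : Set ℕ) := by
        intro T
        ext x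
        rw [hK]
        simp only [mem_iUnion, mem_union, mem_ofPred_eq]
        constructor
        · rintro ⟨a', ha', hx⟩
          by_cases h : a' = a
          · subst h
            rw [if_pos rfl] at hx
            exact Or.inr hx
          · rw [if_neg h] at hx
            exact Or.inl ⟨a', ⟨ha', h⟩, hx⟩
        · rintro (⟨a', ⟨ha', h⟩, hx⟩ | hx)
          · exact ⟨a', ha', by rw [if_neg h]; exact hx⟩
          · exact ⟨a, ha, by rw [if_pos rfl]; exact hx⟩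
      have hsum : ∀ T : Finset ℕ, T ⊆ B₁ →
          rk M (Xh ∪ ((⋃ a' ∈ {a' | a' ∈ A₂ ∧ a' ≠ a}, τ a' '' ((B₂ \ J : Finset ℕ) : Set ℕ)) ∪
            τ a '' (T : Set ℕ))) = rk M Xh +
          ((rk M (X₁ ∪ (τ a '' (D a : Set ℕ) ∪ τ a '' (T : Set ℕ))) -
            rk M (X₁ ∪ τ a '' (D a : Set ℕ))) +
          ∑ a' ∈ A₂.erase a, (rk M (X₁ ∪ (τ a' '' (D a' : Set ℕ) ∪
            τ a' '' ((B₂ \ J : Finset ℕ) : Set ℕ))) - rk M (X₁ ∪ τ a' '' (D a' : Set ℕ)))) := by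
        intro T hT
        have h1 := hS (K T) (hKB T hT)
        rw [hKset T, ← Finset.add_sum_erase _ _ ha] at h1
        rw [h1]
        have h2 : K T a = T := by
          rw [hK]
          simp
        rw [h2]
        congr 2
        refine Finset.sum_congr rfl fun a' ha' => ?_
        have h3 : K T a' = B₂ \ J := by
          rw [hK]
          dsimp only
          rw [if_neg (Finset.ne_of_mem_erase ha')]
        rw [h3]
      have hbb : ({b, b'} : Finset ℕ) ⊆ B₁ := by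
        intro x hx
        rcases Finset.mem_insert.1 hx with h | h
        · rw [h]; exact hJB₁ hb
        · rw [Finset.mem_singleton.1 h]; exact hJB₁ hb'
      have h1 := hsum {b, b'} hbb
      have h2 := hsum ∅ (Finset.empty_subset _)
      have h3 := hone a ha {b, b'} hbb
      have h4 : rk M Xh + 2 ≤ rk M (Xh ∪ {τ a b, τ a b'}) := by
        by_contra hcon
        exact hJ b hb b' hb' hne ⟨a, ha, by omega⟩
      rw [Finset.coe_pair, image_pair] at h1 h3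
      rw [Finset.coe_empty, image_empty, union_empty, union_empty] at h2
      rw [hXy, union_assoc]
      omega
  exact hU (hHL.lines hk (by rw [hA₂c, hm₂]) (by rw [hJc, hw]))

end Hub

end DA
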