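import Pool.Agent.DA.SkewRed
import Pool.Agent.GL.JGrid
import Pool.Agent.Helper53.BQ.Rk

/-!
# The complete picture of HUB* (row B4 of cell G, problem MP_5165fa_co)
-/

open Set BIC BICS
open scoped Matroid

namespace DA

variable {α ι : Type*} {M : Matroid α}

section drop

/-- Exchange modulo `X`. -/
lemma hexch [M.Finite] {X : Set α} {a b : α} (h1 : a ∈ M.closure (insert b X))
    (h2 : a ∉ M.closure X) : b ∈ M.closure (insert a X) :=
  (Matroid.closure_exchange (M := M) (X := X) (e := a) (f := b) ⟨h1, h2⟩).1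

/-- Elements independent over `F` do not change the closure inside `F`. -/
lemma rk_skew_pts [M.Finite] {F : Set α} {β : Type*} {y : β → α} {E : Finset β}
    (hy : rk M (F ∪ y '' E) = rk M F + E.card) {Z : Set α} (hZ : Z ⊆ M.closure F) :
    rk M (Z ∪ y '' E) = rk M Z + E.card := by
  have h1 : rk M (M.closure F ∪ y '' (E : Set β)) = rk M (F ∪ y '' (E : Set β)) := by
    rw [← rk_closure (M := M) (M.closure F ∪ _), Matroid.closure_union_closure_left_eq, rk_closure]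
  have h2 : rk M Z + rk M (M.closure F ∪ y '' (E : Set β)) ≤
      rk M (Z ∪ y '' (E : Set β)) + rk M (M.closure F) := by
    refine rk_sub' (subset_inter subset_union_left hZ) ?_
    rintro x (hx | hx)
    · exact Or.inr hx
    · exact Or.inl (Or.inr hx)
  have h3 := rk_add_le (M := M) Z y E
  rw [h1, hy, rk_closure] at h2
  omega

/-- Dropping elements independent over `F`. -/
lemma mem_drop [M.Finite] {F : Set α} {β : Type*} {y : β → α} {E : Finset β}
    (hy : rk M (F ∪ y '' E) = rk M F + E.card) {Z : Set α} (hZ : Z ⊆ M.closure F) {x : α}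
    (hx : x ∈ M.closure F) (h : x ∈ M.closure (Z ∪ y '' E)) : x ∈ M.closure Z := by
  by_contra hcon
  have hxE : x ∈ M.E := M.closure_subset_ground _ hx
  have h1 := rk_ins_not hxE hcon
  have h2 := rk_skew_pts hy hZ
  have h3 := rk_skew_pts hy (insert_subset hx hZ)
  have h4 := rk_ins_mem h
  rw [insert_union] at h3
  omega

end drop

section pic

/-- the array as a finite set -/
def ClF (t : ℕ) : Finset (ℕ × ℕ) := Finset.range t ×ˢ Finset.range t

lemma mem_ClF {t : ℕ} {c : ℕ × ℕ} : c ∈ ClF t ↔ c ∈ Gad.Cl t := by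
  simp [ClF, Gad.Cl]

lemma coe_ClF (t : ℕ) : (ClF t : Set (ℕ × ℕ)) = Gad.Cl t := by
  ext c
  exact mem_ClF

/-- the upward neighbour pairs of the array -/
noncomputable def EdF (t : ℕ) : Finset ((ℕ × ℕ) × (ℕ × ℕ)) := by
  classical
  exact (ClF t ×ˢ ClF t).filter fun p => Gad.Nb t p.1 p.2 ∧ p.1.1 + p.1.2 < p.2.1 + p.2.2

lemma mem_EdF {t : ℕ} {p : (ℕ × ℕ) × (ℕ × ℕ)} :
    p ∈ EdF t ↔ Gad.Nb t p.1 p.2 ∧ p.1.1 + p.1.2 < p.2.1 + p.2.2 := by
  classical
  unfold EdF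
  rw [Finset.mem_filter, Finset.mem_product, mem_ClF, mem_ClF]
  constructor
  · exact fun h => h.2
  · exact fun h => ⟨⟨h.1.1, h.1.2.1⟩, h⟩

lemma nb_symm {t : ℕ} {c c' : ℕ × ℕ} (h : Gad.Nb t c c') : Gad.Nb t c' c := by
  obtain ⟨h1, h2, h3⟩ := h
  refine ⟨h2, h1, ?_⟩
  omega

lemma nb_lt {t : ℕ} {c c' : ℕ × ℕ} (h : Gad.Nb t c c') (h' : ¬ c.1 + c.2 < c'.1 + c'.2) :
    c'.1 + c'.2 < c.1 + c.2 := by
  obtain ⟨h1, h2, h3⟩ := h
  omega

/-- **The complete picture.** -/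
theorem jgrid_of_stars [M.Finite] {L X : Set α} (hX : X ⊆ M.E) {t : ℕ}
    {j : ℕ × ℕ → α} {y x e : (ℕ × ℕ) × (ℕ × ℕ) → α}
    (hj : ∀ c ∈ Gad.Cl t, j c ∈ M.closure (L ∪ X))
    (hjr : rk M (X ∪ j '' Gad.Cl t) = rk M X + t * t)
    (hyr : rk M (L ∪ X ∪ y '' EdF t) = rk M (L ∪ X) + (EdF t).card)
    (hxL : ∀ p ∈ EdF t, x p ∈ M.closure (insert (y p) (L ∪ X)) ∧ x p ∉ M.closure (L ∪ X))
    (heL : ∀ p ∈ EdF t, e p ∉ M.closure (L ∪ X))
    (hx : ∀ p ∈ EdF t, x p ∈ M.closure (insert (j p.1) (insert (y p) X)) ∧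
      x p ∉ M.closure (insert (y p) X))
    (he : ∀ p ∈ EdF t, e p ∈ M.closure (insert (j p.2) (insert (y p) X)) ∧
      e p ∉ M.closure (insert (y p) X)) :
    ∃ ed : ℕ × ℕ → ℕ × ℕ → α,
      Gad.JGrid (M ／ (X ∪ x '' EdF t)) (j '' Gad.Cl t ∪ e '' EdF t) t j ed := by
  classical
  have hLX : ∀ Y : Set α, Y ⊆ M.closure (L ∪ X) → M.closure Y ⊆ M.closure (L ∪ X) :=
    fun Y hY => M.closure_subset_closure_of_subset_closure hY
  have hXcl : X ⊆ M.closure (L ∪ X) := fun z hz => M.mem_closure_of_mem' (Or.inr hz) (hX hz)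
  have hjX : ∀ c ∈ Gad.Cl t, insert (j c) X ⊆ M.closure (L ∪ X) := fun c hc =>
    insert_subset (hj c hc) hXcl
  have hxE : ∀ p ∈ EdF t, x p ∈ M.E := fun p hp => M.closure_subset_ground _ (hxL p hp).1
  have heE : ∀ p ∈ EdF t, e p ∈ M.E := fun p hp => M.closure_subset_ground _ (he p hp).1
  -- the `x p` are independent over `L ∪ X`
  have hxr : rk M (L ∪ X ∪ x '' (EdF t : Set _)) = rk M (L ∪ X) + (EdF t).card := by
    refine le_antisymm (rk_add_le _ _ _) ?_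
    rw [← hyr, ← rk_closure (M := M) (L ∪ X ∪ x '' (EdF t : Set _)), ← rk_closure (M := M) (L ∪ X ∪ y '' (EdF t : Set _))]
    refine rk_mono M ?_
    rw [← M.closure_inter_ground (L ∪ X ∪ y '' (EdF t : Set _))]
    refine M.closure_subset_closure_of_subset_closure ?_
    rintro z ⟨hz | ⟨p, hp, rfl⟩, hzE⟩
    · exact M.mem_closure_of_mem' (Or.inl hz) hzE
    · have h1 := hexch (hxL p hp).1 (hxL p hp).2
      refine M.closure_subset_closure ?_ h1
      exact insert_subset (Or.inr ⟨p, hp, rfl⟩) subset_union_left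
  set X₂ : Set α := X ∪ x '' (EdF t : Set _) with hX₂
  have hX₂E : X₂ ⊆ M.E := by
    refine union_subset hX ?_
    rintro _ ⟨p, hp, rfl⟩
    exact hxE p hp
  -- ranks modulo `X₂`
  have hrk : ∀ Z : Set α, Z ⊆ M.closure (L ∪ X) → rk M (Z ∪ x '' (EdF t : Set _)) =
      rk M Z + (EdF t).card := fun Z hZ => rk_skew_pts hxr hZ
  have hjcl : X ∪ j '' Gad.Cl t ⊆ M.closure (L ∪ X) := by
    refine union_subset hXcl ?_
    rintro _ ⟨c, hc, rfl⟩
    exact hj c hc
  have hrX₂ : rk M X₂ = rk M X + (EdF t).card := hrk X hXcl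
  have hrj : rk M (j '' Gad.Cl t ∪ X₂) = rk M X₂ + t * t := by
    have h1 : j '' Gad.Cl t ∪ X₂ = (X ∪ j '' Gad.Cl t) ∪ x '' (EdF t : Set _) := by
      rw [hX₂, ← union_assoc, union_comm (j '' Gad.Cl t) X]
    rw [h1, hrk _ hjcl, hjr, hrX₂]
    omega
  have hCf : (Gad.Cl t).Finite := by
    rw [← coe_ClF]
    exact (ClF t).finite_toSet
  have hCc : (Gad.Cl t).ncard = t * t := by
    rw [← coe_ClF, Set.ncard_coe_finset]
    simp [ClF]
  have hjc : (j '' Gad.Cl t).ncard ≤ t * t := by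
    rw [← hCc]
    exact Set.ncard_image_le hCf
  -- elements outside `X₂`
  have hjX₂ : ∀ c ∈ Gad.Cl t, j c ∉ M.closure X₂ := by
    intro c hc h
    have h1 : rk M (j '' Gad.Cl t ∪ X₂) ≤ rk M (j '' (Gad.Cl t \ {c}) ∪ X₂) := by
      have h2 : j c ∈ M.closure (j '' (Gad.Cl t \ {c}) ∪ X₂) :=
        M.closure_subset_closure subset_union_right h
      rw [← rk_ins_mem h2]
      refine rk_mono M ?_
      rintro z (⟨d, hd, rfl⟩ | hz)
      · by_cases hdc : d = c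
        · exact Or.inl (by rw [hdc])
        · exact Or.inr (Or.inl ⟨d, ⟨hd, hdc⟩, rfl⟩)
      · exact Or.inr (Or.inr hz)
    have h3 := rk_union_le M (X := X₂) (Y := j '' (Gad.Cl t \ {c}))
      ((hCf.subset sdiff_subset).image j)
    have h4 : (j '' (Gad.Cl t \ {c})).ncard ≤ (Gad.Cl t \ {c}).ncard :=
      Set.ncard_image_le (hCf.subset sdiff_subset)
    have h5 := Set.ncard_sdiff_singleton_add_one hc hCf
    rw [union_comm] at h3
    omega
  have hjn : ∀ c ∈ Gad.Cl t, j c ∉ X₂ := fun c hc h =>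
    hjX₂ c hc (M.mem_closure_of_mem' h (hX₂E h))
  have hjE : ∀ c ∈ Gad.Cl t, j c ∈ M.E := fun c hc => M.closure_subset_ground _ (hj c hc)
  -- the relations modulo `X₂`
  have hyx : ∀ p ∈ EdF t, y p ∈ M.closure (insert (x p) (insert (j p.1) X)) := by
    intro p hp
    have h1 := (hx p hp).1
    have h2 := (mem_EdF.1 hp).1
    rw [insert_comm] at h1
    refine hexch h1 ?_
    intro h
    exact (hxL p hp).2 (hLX _ (hjX _ h2.1) h)
  have hye : ∀ p ∈ EdF t, y p ∈ M.closure (insert (e p) (insert (j p.2) X)) := by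
    intro p hp
    have h1 := (he p hp).1
    have h2 := (mem_EdF.1 hp).1
    rw [insert_comm] at h1
    refine hexch h1 ?_
    intro h
    exact heL p hp (hLX _ (hjX _ h2.2.1) h)
  have hjx : ∀ p ∈ EdF t, j p.1 ∈ M.closure (insert (x p) (insert (y p) X)) := fun p hp =>
    hexch (hx p hp).1 (hx p hp).2
  have hje : ∀ p ∈ EdF t, j p.2 ∈ M.closure (insert (e p) (insert (y p) X)) := fun p hp =>
    hexch (he p hp).1 (he p hp).2
  have hxX₂ : ∀ p ∈ EdF t, x p ∈ X₂ := fun p hp => Or.inr ⟨p, hp, rfl⟩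
  have hXX₂ : X ⊆ X₂ := subset_union_left
  -- a tool
  have tool : ∀ (a b c : α) (W : Set α), a ∈ M.E → c ∈ M.closure (insert b (insert a X)) →
      b ∈ M.closure W → a ∈ M.closure W → X ⊆ W → c ∈ M.closure W := by
    intro a b c W _ h1 h2 h3 h4
    refine M.closure_subset_closure_of_subset_closure ?_ h1
    refine insert_subset h2 (insert_subset h3 ?_)
    exact fun z hz => M.mem_closure_of_mem' (h4 hz) (hX hz)
  have hyE : ∀ p ∈ EdF t, y p ∈ M.E := fun p hp => M.closure_subset_ground _ (hyx p hp)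
  have rel1 : ∀ p ∈ EdF t, e p ∈ M.closure ({j p.1, j p.2} ∪ X₂) := by
    intro p hp
    have h2 := (mem_EdF.1 hp).1
    have hW : X ⊆ {j p.1, j p.2} ∪ X₂ := hXX₂.trans subset_union_right
    have a1 : x p ∈ M.closure ({j p.1, j p.2} ∪ X₂) :=
      M.mem_closure_of_mem' (Or.inr (hxX₂ p hp)) (hxE p hp)
    have a2 : j p.1 ∈ M.closure ({j p.1, j p.2} ∪ X₂) :=
      M.mem_closure_of_mem' (Or.inl (by simp)) (hjE _ h2.1)
    have a3 : j p.2 ∈ M.closure ({j p.1, j p.2} ∪ X₂) :=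
      M.mem_closure_of_mem' (Or.inl (by simp)) (hjE _ h2.2.1)
    have a4 : y p ∈ M.closure ({j p.1, j p.2} ∪ X₂) :=
      tool (j p.1) (x p) (y p) _ (hjE _ h2.1) (hyx p hp) a1 a2 hW
    exact tool (y p) (j p.2) (e p) _ (hyE p hp) (he p hp).1 a3 a4 hW
  have rel2 : ∀ p ∈ EdF t, j p.1 ∈ M.closure ({j p.2, e p} ∪ X₂) := by
    intro p hp
    have h2 := (mem_EdF.1 hp).1
    have hW : X ⊆ {j p.2, e p} ∪ X₂ := hXX₂.trans subset_union_right
    have a1 : x p ∈ M.closure ({j p.2, e p} ∪ X₂) :=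
      M.mem_closure_of_mem' (Or.inr (hxX₂ p hp)) (hxE p hp)
    have a2 : e p ∈ M.closure ({j p.2, e p} ∪ X₂) :=
      M.mem_closure_of_mem' (Or.inl (by simp)) (heE p hp)
    have a3 : j p.2 ∈ M.closure ({j p.2, e p} ∪ X₂) :=
      M.mem_closure_of_mem' (Or.inl (by simp)) (hjE _ h2.2.1)
    have a4 : y p ∈ M.closure ({j p.2, e p} ∪ X₂) :=
      tool (j p.2) (e p) (y p) _ (hjE _ h2.2.1) (hye p hp) a2 a3 hW
    exact tool (y p) (x p) (j p.1) _ (hyE p hp) (hjx p hp) a1 a4 hW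
  have rel3 : ∀ p ∈ EdF t, j p.2 ∈ M.closure ({j p.1, e p} ∪ X₂) := by
    intro p hp
    have h2 := (mem_EdF.1 hp).1
    have hW : X ⊆ {j p.1, e p} ∪ X₂ := hXX₂.trans subset_union_right
    have a1 : x p ∈ M.closure ({j p.1, e p} ∪ X₂) :=
      M.mem_closure_of_mem' (Or.inr (hxX₂ p hp)) (hxE p hp)
    have a2 : e p ∈ M.closure ({j p.1, e p} ∪ X₂) :=
      M.mem_closure_of_mem' (Or.inl (by simp)) (heE p hp)
    have a3 : j p.1 ∈ M.closure ({j p.1, e p} ∪ X₂) :=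
      M.mem_closure_of_mem' (Or.inl (by simp)) (hjE _ h2.1)
    have a4 : y p ∈ M.closure ({j p.1, e p} ∪ X₂) :=
      tool (j p.1) (x p) (y p) _ (hjE _ h2.1) (hyx p hp) a1 a3 hW
    exact tool (y p) (e p) (j p.2) _ (hyE p hp) (hje p hp) a2 a4 hW
  -- `e p` is not in `X₂`
  have hepn : ∀ p ∈ EdF t, e p ∉ X₂ := by
    intro p hp h
    have h2 := (mem_EdF.1 hp).1
    have h3 : j p.1 ∈ M.closure ({j p.2} ∪ X₂) := by
      refine M.closure_subset_closure ?_ (rel2 p hp)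
      rintro z ((rfl | rfl) | hz)
      · exact Or.inl rfl
      · exact Or.inr h
      · exact Or.inr hz
    have hne := h2.ne
    have h4 : rk M (j '' Gad.Cl t ∪ X₂) ≤ rk M (j '' (Gad.Cl t \ {p.1}) ∪ X₂) := by
      have h5 : j p.1 ∈ M.closure (j '' (Gad.Cl t \ {p.1}) ∪ X₂) := by
        refine M.closure_subset_closure (union_subset_union_left _ ?_) h3
        rintro _ rfl
        exact ⟨p.2, ⟨h2.2.1, fun h => hne h.symm⟩, rfl⟩
      rw [← rk_ins_mem h5]
      refine rk_mono M ?_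
      rintro z (⟨d, hd, rfl⟩ | hz)
      · by_cases hdc : d = p.1
        · exact Or.inl (by rw [hdc])
        · exact Or.inr (Or.inl ⟨d, ⟨hd, hdc⟩, rfl⟩)
      · exact Or.inr (Or.inr hz)
    have h6 := rk_union_le M (X := X₂) (Y := j '' (Gad.Cl t \ {p.1}))
      ((hCf.subset sdiff_subset).image j)
    have h7 : (j '' (Gad.Cl t \ {p.1})).ncard ≤ (Gad.Cl t \ {p.1}).ncard :=
      Set.ncard_image_le (hCf.subset sdiff_subset)
    have h8 := Set.ncard_sdiff_singleton_add_one h2.1 hCf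
    rw [union_comm] at h6
    omega
  have hfin := BQ.fin_contract (M := M) X₂
  have hcl : ∀ Z : Set α, (M ／ X₂).closure Z = M.closure (Z ∪ X₂) \ X₂ := fun Z =>
    M.contract_closure_eq X₂ Z
  have hjS : j '' Gad.Cl t ⊆ (M ／ X₂).E := by
    rintro _ ⟨c, hc, rfl⟩
    rw [Matroid.contract_ground]
    exact ⟨hjE c hc, hjn c hc⟩
  have hrjc : rk (M ／ X₂) (j '' Gad.Cl t) = t * t := by
    have h1 := BQ.rk_con (M := M) hX₂E (X := j '' Gad.Cl t) (by
      rw [Matroid.contract_ground] at hjS; exact hjS)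
    omega
  have hind : (M ／ X₂).Indep (j '' Gad.Cl t) := indep_of_rk hjS (by rw [hrjc]; exact hjc)
  refine ⟨fun c c' => if c.1 + c.2 < c'.1 + c'.2 then e (c, c') else e (c', c), ?_, ?_, ?_, ?_,
    ?_, ?_⟩
  · refine (Set.ncard_image_iff hCf).1 (le_antisymm (Set.ncard_image_le hCf) ?_)
    have := rk_le_ncard (M ／ X₂) (hCf.image j)
    rw [hrjc] at this
    rw [hCc]
    exact this
  · refine hind.isBasis_of_subset_of_subset_closure subset_union_left ?_
    refine union_subset ((M ／ X₂).subset_closure _ hjS) ?_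
    rintro _ ⟨p, hp, rfl⟩
    have h2 := (mem_EdF.1 hp).1
    rw [hcl]
    refine ⟨M.closure_subset_closure (union_subset_union_left _ ?_) (rel1 p hp), hepn p hp⟩
    rintro z (rfl | rfl)
    · exact ⟨p.1, h2.1, rfl⟩
    · exact ⟨p.2, h2.2.1, rfl⟩
  · intro c c' h
    by_cases hlt : c.1 + c.2 < c'.1 + c'.2
    · rw [if_pos hlt]
      exact Or.inr ⟨(c, c'), mem_EdF.2 ⟨h, hlt⟩, rfl⟩
    · rw [if_neg hlt]
      exact Or.inr ⟨(c', c), mem_EdF.2 ⟨nb_symm h, nb_lt h hlt⟩, rfl⟩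
  · intro c c' h
    rw [hcl]
    by_cases hlt : c.1 + c.2 < c'.1 + c'.2
    · rw [if_pos hlt]
      have hp := (mem_EdF (p := (c, c'))).2 ⟨h, hlt⟩
      exact ⟨rel1 _ hp, hepn _ hp⟩
    · rw [if_neg hlt]
      have hp := (mem_EdF (p := (c', c))).2 ⟨nb_symm h, nb_lt h hlt⟩
      have := rel1 _ hp
      rw [pair_comm] at this
      exact ⟨this, hepn _ hp⟩
  · intro c c' h
    rw [hcl]
    refine ⟨?_, hjn c h.1⟩
    by_cases hlt : c.1 + c.2 < c'.1 + c'.2
    · rw [if_pos hlt]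
      exact rel2 _ ((mem_EdF (p := (c, c'))).2 ⟨h, hlt⟩)
    · rw [if_neg hlt]
      exact rel3 _ ((mem_EdF (p := (c', c))).2 ⟨nb_symm h, nb_lt h hlt⟩)
  · intro c c' h
    rw [hcl]
    refine ⟨?_, hjn c' h.2.1⟩
    by_cases hlt : c.1 + c.2 < c'.1 + c'.2
    · rw [if_pos hlt]
      exact rel3 _ ((mem_EdF (p := (c, c'))).2 ⟨h, hlt⟩)
    · rw [if_neg hlt]
      exact rel2 _ ((mem_EdF (p := (c', c))).2 ⟨nb_symm h, nb_lt h hlt⟩)

end pic

end DA
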