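import Pool.Agent.DA.LiftA
import Pool.Agent.GL.Loc

/-!
# Uniform minors survive the deletion of a bounded number of elements
-/

open Set BIC BICS
open scoped Matroid

namespace DA

universe u v

lemma del_minor {α : Type*} (P : Matroid α) (D : Set α) : P ＼ D ≤m P := by
  have h := P.contract_delete_isMinor ∅ D
  rwa [Matroid.contract_empty] at h

/-- Uniform minors survive the deletion of one element. -/
theorem hum_del (k : ℕ) : ∃ K : ℕ, 0 < K ∧ ∀ {α : Type u} (M : Matroid α) [M.Finite] (e : α),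
    HasUniformMinor M K → HasUniformMinor (M ＼ {e}) k := by
  classical
  obtain ⟨n₀, hn₀⟩ := small_dep.{u} k (k + 1)
  refine ⟨n₀ + k + 1, by omega, ?_⟩
  intro α M _ e hM
  obtain ⟨N, hNM, hNE, hNB⟩ := hM
  obtain ⟨C, D, hC, hD, hCD, rfl⟩ := hNM.exists_eq_contract_delete_disjoint
  obtain ⟨K, hK⟩ : ∃ K, K = n₀ + k + 1 := ⟨_, rfl⟩
  rw [← hK] at hNE hNB
  have hEf : (M ／ C ＼ D).E.Finite := M.ground_finite.subset hNM.subset
  -- small sets are independent
  have hsm : ∀ B ⊆ (M ／ C ＼ D).E, B.ncard ≤ K → (M ／ C ＼ D).Indep B := by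
    intro B hB hBc
    obtain ⟨B', h1, h2, h3⟩ := Set.exists_subsuperset_card_eq hB hBc (by omega)
    exact ((hNB B').2 ⟨h2, h3⟩).indep.subset h1
  have hrk : rk (M ／ C) (M ／ C ＼ D).E ≤ K := by
    have hfin : (M ／ C ＼ D).Finite := ⟨hEf⟩
    obtain ⟨B, h1, h3⟩ := Set.exists_subset_card_eq (s := (M ／ C ＼ D).E) (n := K) (by omega)
    have h4 : rk (M ／ C ＼ D) (M ／ C ＼ D).E = B.ncard := by
      have h5 := ((hNB B).2 ⟨h1, h3⟩)
      rw [← rk_indep h5.indep, ← rk_closure B, h5.closure_eq]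
    have h6 : rk (M ／ C ＼ D) (M ／ C ＼ D).E = rk (M ／ C) (M ／ C ＼ D).E :=
      rk_delete (Subset.refl _)
    omega
  obtain ⟨Cf, hCf⟩ : ∃ Cf : Set α, Cf = C \ {e} := ⟨_, rfl⟩
  obtain ⟨Z, hZ⟩ : ∃ Z : Set α, Z = (M ／ C ＼ D).E \ {e} := ⟨_, rfl⟩
  have hZf : Z.Finite := by
    rw [hZ]
    exact hEf.subset sdiff_subset
  have hZc : 2 * K ≤ Z.ncard + 1 := by
    rw [hZ, ← hNE]
    have h1 := Set.ncard_le_ncard (s := (M ／ C ＼ D).E) (t := insert e ((M ／ C ＼ D).E \ {e}))
      (by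
        intro x hx
        by_cases hxe : x = e
        · exact Or.inl hxe
        · exact Or.inr ⟨hx, hxe⟩) ((hEf.subset sdiff_subset).insert e)
    exact h1.trans (Set.ncard_insert_le _ _)
  have hZE : Z ⊆ M.E := by
    rw [hZ]
    exact sdiff_subset.trans hNM.subset
  have hZC : Disjoint Z C := by
    rw [Set.disjoint_left, hZ]
    exact fun x hx hxC => hx.1.1.2 hxC
  have hCfE : Cf ⊆ M.E := by
    rw [hCf]
    exact sdiff_subset.trans hC
  -- the rank in `M ／ (C \ e)`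
  have hfCf : (M ／ Cf).Finite := BQ.fin_contract _
  have hfC : (M ／ C).Finite := BQ.fin_contract _
  have hr1 : rk (M ／ Cf) Z ≤ K + 1 := by
    have e1 := BQ.rk_con (M := M) hCfE (X := Z) (fun x hx => ⟨hZE hx, fun h => by
      rw [hCf] at h
      exact Set.disjoint_left.1 hZC hx h.1⟩)
    have e2 := BQ.rk_con (M := M) hC (X := Z) (fun x hx => ⟨hZE hx,
      Set.disjoint_left.1 hZC hx⟩)
    have e3 : rk (M ／ C) Z ≤ K := (rk_mono _ (by rw [hZ]; exact sdiff_subset)).trans hrk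
    have e4 : rk M (Z ∪ Cf) ≤ rk M (Z ∪ C) := rk_mono _ (union_subset_union_right _ (by
      rw [hCf]; exact sdiff_subset))
    have e5 : rk M C ≤ rk M Cf + 1 := by
      have h1 := rk_union_le M (X := Cf) (Y := {e}) (Set.finite_singleton e)
      rw [Set.ncard_singleton] at h1
      refine le_trans (rk_mono _ ?_) h1
      intro x hx
      by_cases hxe : x = e
      · exact Or.inr hxe
      · exact Or.inl (by rw [hCf]; exact ⟨hx, hxe⟩)
    omega
  have hind : ∀ B ⊆ Z, B.ncard ≤ K → rk (M ／ Cf) B = B.ncard := by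
    intro B hB hBc
    have hBf := hZf.subset hB
    have h1 := (hsm B (hB.trans (by rw [hZ]; exact sdiff_subset)) hBc)
    have h2 : (M ／ C).Indep B := h1.of_delete
    have h3 := rk_indep h2
    have e1 := BQ.rk_con (M := M) hCfE (X := B) (fun x hx => ⟨hZE (hB hx), fun h => by
      rw [hCf] at h
      exact Set.disjoint_left.1 hZC (hB hx) h.1⟩)
    have e2 := BQ.rk_con (M := M) hC (X := B) (fun x hx => ⟨hZE (hB hx),
      Set.disjoint_left.1 hZC (hB hx)⟩)
    have e3 := rk_submod M (B ∪ Cf) C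
    have e4 : rk M (B ∪ C) ≤ rk M (B ∪ Cf ∪ C) := rk_mono _ (by
      rintro x (hx | hx)
      · exact Or.inl (Or.inl hx)
      · exact Or.inr hx)
    have e5 : rk M Cf ≤ rk M ((B ∪ Cf) ∩ C) := rk_mono _ (by
      intro x hx
      refine ⟨Or.inr hx, ?_⟩
      rw [hCf] at hx
      exact hx.1)
    have e6 := rk_le_ncard (M ／ Cf) hBf
    omega
  -- contract `K - k` elements
  obtain ⟨Y, hYZ, hYc⟩ := Set.exists_subset_card_eq (s := Z) (n := K - k) (by omega)
  have hYf := hZf.subset hYZ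
  have hYE : Y ⊆ (M ／ Cf).E := fun x hx => ⟨hZE (hYZ hx), fun h => by
    rw [hCf] at h
    exact Set.disjoint_left.1 hZC (hYZ hx) h.1⟩
  obtain ⟨L, hL⟩ : ∃ L, L = M ＼ {e} ／ Cf ／ Y := ⟨_, rfl⟩
  have hfd : (M ＼ {e}).Finite := BQ.fin_delete _
  have hfd1 : (M ＼ {e} ／ Cf).Finite := BQ.fin_contract _
  have hfL : L.Finite := by
    rw [hL]
    exact BQ.fin_contract _
  have heZ : e ∉ Z := by
    rw [hZ]
    exact fun h => h.2 rfl
  have hCfe : e ∉ Cf := by
    rw [hCf]
    exact fun h => h.2 rfl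
  have hLr : ∀ X ⊆ Z \ Y, rk L X + rk (M ／ Cf) Y = rk (M ／ Cf) (X ∪ Y) := by
    intro X hX
    have hXE : X ⊆ (M ／ Cf).E := fun x hx => ⟨hZE (hX hx).1, fun h => by
      rw [hCf] at h
      exact Set.disjoint_left.1 hZC (hX hx).1 h.1⟩
    have key : ∀ W ⊆ Z, rk (M ＼ {e} ／ Cf) W = rk (M ／ Cf) W := by
      intro W hW
      have hWC : ∀ x ∈ W, x ∉ Cf := fun x hx h => by
        rw [hCf] at h
        exact Set.disjoint_left.1 hZC (hW hx) h.1
      have d1 := BQ.rk_con (M := M) hCfE (X := W) (fun x hx => ⟨hZE (hW hx), hWC x hx⟩)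
      have d2 := BQ.rk_con (M := M ＼ {e}) (C := Cf) (X := W)
        (fun x hx => ⟨hCfE hx, fun h => hCfe (h ▸ hx)⟩)
        (fun x hx => ⟨⟨hZE (hW hx), fun h => heZ (h ▸ hW hx)⟩, hWC x hx⟩)
      have d3 : rk (M ＼ {e}) Cf = rk M Cf := rk_delete fun x hx =>
        ⟨hCfE hx, fun h => hCfe (h ▸ hx)⟩
      have d4 : rk (M ＼ {e}) (W ∪ Cf) = rk M (W ∪ Cf) := rk_delete (by
        rintro x (hx | hx)
        · exact ⟨hZE (hW hx), fun h => heZ (h ▸ hW hx)⟩
        · exact ⟨hCfE hx, fun h => hCfe (h ▸ hx)⟩)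
      omega
    have h1 := BQ.rk_con (M := M ＼ {e} ／ Cf) (C := Y) (X := X)
      (fun x hx => ⟨⟨(hYE hx).1, fun h => heZ (h ▸ hYZ hx)⟩, (hYE hx).2⟩)
      (fun x hx => ⟨⟨⟨(hXE hx).1, fun h => heZ (h ▸ (hX hx).1)⟩, (hXE hx).2⟩, (hX hx).2⟩)
    rw [key Y hYZ, key (X ∪ Y) (union_subset (hX.trans sdiff_subset) hYZ), ← hL] at h1
    exact h1
  have hrY : rk (M ／ Cf) Y = Y.ncard := hind Y hYZ (by omega)
  obtain ⟨E₁, hE₁⟩ : ∃ E₁ : Finset α, (E₁ : Set α) = Z \ Y :=
    ⟨(hZf.subset (sdiff_subset (t := Y))).toFinset, by simp⟩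
  have hE₁c : n₀ ≤ E₁.card := by
    rw [← Set.ncard_coe_finset, hE₁]
    have := Set.ncard_sdiff_add_ncard_of_subset hYZ hZf
    omega
  have hE₁L : (E₁ : Set α) ⊆ L.E := by
    rw [hE₁, hL]
    intro x hx
    exact ⟨⟨⟨hZE hx.1, fun h => heZ (h ▸ hx.1)⟩, fun h => by
      rw [hCf] at h
      exact Set.disjoint_left.1 hZC hx.1 h.1⟩, hx.2⟩
  have hE₁r : rk L (E₁ : Set α) ≤ k + 1 := by
    rw [hE₁]
    have h1 := hLr (Z \ Y) (Subset.refl _)
    rw [sdiff_union_of_subset hYZ] at h1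
    omega
  by_contra hcon
  have hLm : L ≤m M ＼ {e} := by
    rw [hL]
    exact (con_minor _ _).trans (con_minor _ _)
  obtain ⟨D', hD'E, hD'c, hD'⟩ := hn₀ L (fun h => hcon (HasUniformMinor_mono h hLm)) E₁ hE₁L hE₁r
    hE₁c
  apply hD'
  have hD'Z : (D' : Set α) ⊆ Z \ Y := by
    rw [← hE₁]
    exact Finset.coe_subset.2 hD'E
  have h1 := hLr (D' : Set α) hD'Z
  have h2 : ((D' : Set α) ∪ Y).ncard = D'.card + Y.ncard := by
    rw [Set.ncard_union_eq (Set.disjoint_left.2 fun x hx => (hD'Z hx).2) D'.finite_toSet hYf,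
      Set.ncard_coe_finset]
  have h3 := hind ((D' : Set α) ∪ Y) (union_subset (hD'Z.trans sdiff_subset) hYZ) (by omega)
  have h4 : rk L (D' : Set α) = D'.card := by omega
  rw [Matroid.indep_iff_eRk_eq_encard_of_finite D'.finite_toSet, ← cast_rk, h4,
    Set.encard_coe_eq_coe_finsetCard]

/-- Deletion of a bounded number of elements. -/
theorem hum_dels (k n : ℕ) : ∃ K : ℕ, ∀ {α : Type u} (M : Matroid α) [M.Finite] (E : Finset α),
    E.card ≤ n → HasUniformMinor M K → HasUniformMinor (M ＼ (E : Set α)) k := by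
  classical
  induction n generalizing k with
  | zero =>
    refine ⟨k, fun M _ E hE h => ?_⟩
    rw [Finset.card_eq_zero.1 (Nat.le_zero.1 hE)]
    simpa using h
  | succ n ih =>
    obtain ⟨K₁, hK₁, h₁⟩ := hum_del.{u} k
    obtain ⟨K₂, h₂⟩ := ih K₁
    refine ⟨K₂, fun {α} M _ E hE h => ?_⟩
    have hfd : ∀ X : Set α, (M ＼ X).Finite := fun X => BQ.fin_delete _
    rcases E.eq_empty_or_nonempty with rfl | ⟨e, he⟩
    · have h5 := h₂ M ∅ (by simp) h
      have h6 : M ＼ ((∅ : Finset α) : Set α) = M := by simp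
      rw [h6] at h5 ⊢
      obtain ⟨e₀⟩ : Nonempty α := by
        obtain ⟨N, hN, hNE, -⟩ := h5
        rcases N.E.eq_empty_or_nonempty with h7 | ⟨e₀, -⟩
        · rw [h7, Set.ncard_empty] at hNE
          omega
        · exact ⟨e₀⟩
      exact HasUniformMinor_mono (h₁ M e₀ h5) (del_minor _ _)
    · have h5 := h₂ M (E.erase e) (by rw [Finset.card_erase_of_mem he]; omega) h
      have hf := hfd ((E.erase e : Finset α) : Set α)
      have h6 := h₁ (M ＼ ((E.erase e : Finset α) : Set α)) e h5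
      rw [Matroid.delete_delete] at h6
      have h7 : ((E.erase e : Finset α) : Set α) ∪ {e} = (E : Set α) := by
        rw [← Finset.coe_singleton, ← Finset.coe_union]
        congr 1
        ext x
        simp only [Finset.mem_union, Finset.mem_erase, Finset.mem_singleton]
        constructor
        · rintro (h8 | rfl)
          · exact h8.2
          · exact he
        · intro h8
          by_cases h9 : x = e
          · exact Or.inr h9
          · exact Or.inl ⟨h9, h8⟩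
      rw [h7] at h6
      exact h6

end DA
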