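import Pool.Agent.DA.Iso4

/-!
# The condition (LC) at a missing vertex and at a missing edge
-/

open Set Relation BIC BICS

namespace DA

/-- (LC) -/
def LCond (w N : ℕ) (ω : Set (Sym2 (ℕ × ℕ))) (Λ : Finset (ℕ × ℕ)) : Prop :=
  ∀ C : Finset (ℕ × ℕ), C.card < Λ.card → ∃ l ∈ Λ, l ∉ C ∧
    ∃ x, N ≤ sd x l ∧ Cn (wr w ω) (C : Set (ℕ × ℕ))ᶜ l x

lemma wadj_swap {p q : ℕ × ℕ} (h : wadj p q) : wadj q p := by
  unfold wadj at h ⊢
  omega

lemma wadj_nb {u q : ℕ × ℕ} (hu : 1 ≤ u.1 ∧ 1 ≤ u.2) (h : wadj u q) :
    q = (u.1 + 1, u.2) ∨ q = (u.1 - 1, u.2) ∨ q = vn u := by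
  have g := wadj_vn hu.2
  unfold wadj at h
  rcases h with ⟨h1, h2 | h2⟩ | ⟨h1, h2⟩
  · exact Or.inl (Prod.ext h2.symm h1.symm)
  · exact Or.inr (Or.inl (Prod.ext (show q.1 = u.1 - 1 by omega) h1.symm))
  · exact Or.inr (Or.inr (Prod.ext (by omega) (by omega)))

lemma wadj_pl {p : ℕ × ℕ} : wadj p (p.1 + 1, p.2) := Or.inl ⟨rfl, Or.inl rfl⟩

lemma wadj_mi {p : ℕ × ℕ} (h : 1 ≤ p.1) : wadj p (p.1 - 1, p.2) :=
  Or.inl ⟨rfl, Or.inr (show p.1 - 1 + 1 = p.1 by omega)⟩

/-- every boundary vertex has a neighbour in `F`, if the boundary is minimal -/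
lemma IsoB.adj_of {F B : Finset (ℕ × ℕ)} (h : IsoB F B)
    (hmin : ∀ b ∈ B, ¬ IsoB F (B.erase b)) : ∀ b ∈ B, ∃ f ∈ F, wadj f b := by
  classical
  intro b hb
  by_contra hcon
  push Not at hcon
  refine hmin b hb ⟨h.pos, fun p hp q hpq => ?_, fun p hp hpB => ?_⟩
  · rcases h.bd p hp q hpq with h1 | h1
    · exact Or.inl h1
    · refine Or.inr (Finset.mem_erase.2 ⟨?_, h1⟩)
      rintro rfl
      exact hcon p hp hpq
  · exact h.dis p hp (Finset.mem_of_mem_erase hpB)

/-- **(LC) at a missing edge.** -/
theorem lc_rowG {w N : ℕ} {ω : Set (Sym2 (ℕ × ℕ))} {u v : ℕ × ℕ} (huv : wadj u v)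
    (hω : ∀ p q, wadj p q → s(p, q) ∈ ω → s(p, q) = s(u, v)) {Λ : Finset (ℕ × ℕ)}
    (hu : u ∈ Λ) (hv : v ∈ Λ) (h4 : Λ.card ≤ 4)
    (hbu : Λ.card = 4 → ¬ ∀ q, wadj u q → q ∈ Λ) (hbv : Λ.card = 4 → ¬ ∀ q, wadj v q → q ∈ Λ)
    (hdeep : ∀ l ∈ Λ, DeepR (0, 0) (w + 1) (w + 1) (N + 2) l) : LCond w N ω Λ := by
  classical
  intro C hC
  by_contra hcon
  push Not at hcon
  obtain ⟨F, h1, h2, h3⟩ := reached hdeep hcon
  have hB : IsoB F C := by
    refine ⟨fun f hf => ⟨(h2 f hf).2.1, (h2 f hf).2.2.1⟩, ?_, fun f hf => (h2 f hf).1⟩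
    intro f hf q hfq
    rcases h3 f hf q hfq with g | g | g
    · exact Or.inl g
    · exact Or.inr g
    · have hqΛ : q ∈ Λ := by
        have g1 := hω f q hfq g
        rw [Sym2.eq_iff] at g1
        rcases g1 with ⟨_, g1⟩ | ⟨_, g1⟩ <;> rw [g1]
        · exact hv
        · exact hu
      by_cases hqC : q ∈ C
      · exact Or.inr hqC
      · exact Or.inl (h1 q hqΛ hqC)
  obtain ⟨l₀, hl₀, hl₀C⟩ := Finset.exists_mem_notMem_of_card_lt_card hC
  have hne : F.Nonempty := ⟨l₀, h1 l₀ hl₀ hl₀C⟩
  obtain ⟨g1, g2⟩ := hB.main hne (by omega)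
  rcases g2 with ⟨p, hp⟩ | ⟨p, f, _, _, g3⟩
  · have hC3 : C.card = 3 := by omega
    have hΛ4 : Λ.card = 4 := by omega
    have hsub : Λ ⊆ insert p C := by
      intro l hl
      by_cases hlC : l ∈ C
      · exact Finset.mem_insert_of_mem hlC
      · have := h1 l hl hlC
        rw [hp, Finset.mem_singleton] at this
        rw [this]
        exact Finset.mem_insert_self _ _
    have hΛ : Λ = insert p C := by
      refine Finset.eq_of_subset_of_card_le hsub ?_
      have := Finset.card_insert_le p C
      omega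
    have hadj : ∀ b ∈ C, wadj p b := by
      intro b hb
      obtain ⟨f, hf, hfb⟩ := hB.adj_of (fun b hb hB' => by
        have k1 := (hB'.main hne (by rw [Finset.card_erase_of_mem hb]; omega)).1
        rw [Finset.card_erase_of_mem hb] at k1
        omega) b hb
      rw [hp, Finset.mem_singleton] at hf
      rw [← hf]
      exact hfb
    have hall : ∀ q, wadj p q → q ∈ Λ := by
      intro q hq
      rcases hB.bd p (by rw [hp]; exact Finset.mem_singleton_self _) q hq with k | k
      · rw [hp, Finset.mem_singleton] at k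
        rw [k, hΛ]
        exact Finset.mem_insert_self _ _
      · rw [hΛ]
        exact Finset.mem_insert_of_mem k
    rw [hΛ, Finset.mem_insert] at hu hv
    rcases hu with hu | hu
    · rw [← hu] at hall
      exact hbu hΛ4 hall
    · rcases hv with hv | hv
      · rw [← hv] at hall
        exact hbv hΛ4 hall
      · have k1 := wadj_par' (hadj u hu)
        have k2 := wadj_par' (hadj v hv)
        have k3 := wadj_par' huv
        omega
  · omega

/-- **(LC) at a missing vertex**: all vertices of `Λ` but at most one are neighbours of `u`. -/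
theorem lc_starG {w N : ℕ} {ω : Set (Sym2 (ℕ × ℕ))} {u : ℕ × ℕ} (hu : 1 ≤ u.1 ∧ 1 ≤ u.2)
    (hω : ∀ p q, wadj p q → (s(p, q) ∈ ω ↔ p = u ∨ q = u)) {Λ : Finset (ℕ × ℕ)}
    (h3 : 3 ≤ Λ.card) (huΛ : u ∉ Λ)
    (hone : ∀ l ∈ Λ, ∀ l' ∈ Λ, ¬ wadj u l → ¬ wadj u l' → l = l')
    (hdeep : ∀ l ∈ Λ, DeepR (0, 0) (w + 1) (w + 1) (N + 2) l) : LCond w N ω Λ := by
  classical
  intro C hC
  by_contra hcon
  push Not at hcon
  -- the neighbours of `u` in `Λ`
  obtain ⟨Λ', hΛ'⟩ : ∃ Λ', Λ' = Λ.filter (fun l => wadj u l) := ⟨_, rfl⟩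
  have hΛ'sub : Λ' ⊆ {(u.1 + 1, u.2), (u.1 - 1, u.2), vn u} := by
    intro l hl
    rw [hΛ', Finset.mem_filter] at hl
    rcases wadj_nb hu hl.2 with g | g | g <;> rw [g] <;> simp
  have hΛ'3 : Λ'.card ≤ 3 := (Finset.card_le_card hΛ'sub).trans Finset.card_le_three
  have hout : (Λ.filter (fun l => ¬ wadj u l)).card ≤ 1 := by
    rw [Finset.card_le_one]
    intro a ha b hb
    rw [Finset.mem_filter] at ha hb
    exact hone a ha.1 b hb.1 ha.2 hb.2
  have hsum := Finset.card_filter_add_card_filter_not (s := Λ) (fun l => wadj u l)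
  rw [← hΛ'] at hsum
  obtain ⟨F, h1, h2, h3'⟩ := reached hdeep hcon
  have huF : u ∉ F := by
    intro hF
    obtain ⟨l, hl, _, hlu⟩ := (h2 u hF).2.2.2
    exact star_unreached hω (fun h => huΛ (by rw [← h]; exact hl)) hlu
  have hB : IsoB F (insert u C) := by
    refine ⟨fun f hf => ⟨(h2 f hf).2.1, (h2 f hf).2.2.1⟩, ?_, ?_⟩
    · intro f hf q hfq
      rcases h3' f hf q hfq with g | g | g
      · exact Or.inl g
      · exact Or.inr (Finset.mem_insert_of_mem g)
      · rcases (hω f q hfq).1 g with k | k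
        · rw [k] at hf
          exact absurd hf huF
        · rw [k]
          exact Or.inr (Finset.mem_insert_self _ _)
    · intro f hf hfB
      rw [Finset.mem_insert] at hfB
      rcases hfB with k | k
      · rw [k] at hf
        exact huF hf
      · exact (h2 f hf).1 k
  obtain ⟨l₀, hl₀, hl₀C⟩ := Finset.exists_mem_notMem_of_card_lt_card hC
  have hne : F.Nonempty := ⟨l₀, h1 l₀ hl₀ hl₀C⟩
  have hBc := Finset.card_insert_le u C
  obtain ⟨g1, g2⟩ := hB.main hne (by omega)
  rcases g2 with ⟨p, hp⟩ | ⟨p, f, hpf, hF, g3⟩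
  · -- one vertex
    have hpF : p ∈ F := by rw [hp]; exact Finset.mem_singleton_self _
    have hpos := hB.pos p hpF
    have hsub : Λ ⊆ insert p C := by
      intro l hl
      by_cases hlC : l ∈ C
      · exact Finset.mem_insert_of_mem hlC
      · have := h1 l hl hlC
        rw [hp, Finset.mem_singleton] at this
        rw [this]
        exact Finset.mem_insert_self _ _
    have hΛ : Λ = insert p C := by
      refine Finset.eq_of_subset_of_card_le hsub ?_
      have := Finset.card_insert_le p C
      omega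
    have hpΛ : p ∈ Λ := by
      rw [hΛ]
      exact Finset.mem_insert_self _ _
    have hall : ∀ q, wadj p q → q = u ∨ q ∈ Λ := by
      intro q hq
      rcases hB.bd p hpF q hq with k | k
      · rw [hp, Finset.mem_singleton] at k
        rw [k]
        exact Or.inr hpΛ
      · rw [Finset.mem_insert] at k
        rcases k with k | k
        · exact Or.inl k
        · rw [hΛ]
          exact Or.inr (Finset.mem_insert_of_mem k)
    have ga := hall _ (wadj_pl (p := p))
    have gb := hall _ (wadj_mi (p := p) hpos.1)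
    have gv := wadj_vn hpos.2
    have gc := hall _ gv.1
    by_cases hup : wadj u p
    · -- the other neighbours of `p` are in `Λ` and not next to `u`
      have hnot : ∀ q, wadj p q → ¬ wadj u q := by
        intro q k1 k2
        have e1 := wadj_par' hup
        have e2 := wadj_par' k1
        have e3 := wadj_par' k2
        omega
      have hab : ¬ ((p.1 + 1, p.2) ∈ Λ ∧ (p.1 - 1, p.2) ∈ Λ) := by
        rintro ⟨k1, k2⟩
        have := congrArg Prod.fst (hone _ k1 _ k2 (hnot _ wadj_pl) (hnot _ (wadj_mi hpos.1)))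
        simp only at this
        omega
      have hac : ¬ ((p.1 + 1, p.2) ∈ Λ ∧ vn p ∈ Λ) := by
        rintro ⟨k1, k2⟩
        have := congrArg Prod.snd (hone _ k1 _ k2 (hnot _ wadj_pl) (hnot _ gv.1))
        simp only at this
        omega
      have hbc : ¬ ((p.1 - 1, p.2) ∈ Λ ∧ vn p ∈ Λ) := by
        rintro ⟨k1, k2⟩
        have := congrArg Prod.snd (hone _ k1 _ k2 (hnot _ (wadj_mi hpos.1)) (hnot _ gv.1))
        simp only at this
        omega
      rcases ga with ga | ga
      · rcases gb with gb | gb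
        · have := congrArg Prod.fst (ga.trans gb.symm)
          simp only at this
          omega
        · rcases gc with gc | gc
          · have := congrArg Prod.snd (ga.trans gc.symm)
            simp only at this
            omega
          · exact hbc ⟨gb, gc⟩
      · rcases gb with gb | gb
        · rcases gc with gc | gc
          · have := congrArg Prod.snd (gb.trans gc.symm)
            simp only at this
            omega
          · exact hac ⟨ga, gc⟩
        · exact hab ⟨ga, gb⟩
    · -- all neighbours of `p` are neighbours of `u`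
      have key : ∀ q, wadj p q → wadj u q := by
        intro q hq
        by_contra hcon2
        rcases hall q hq with k | k
        · rw [k] at hq
          exact hup (wadj_swap hq)
        · have k2 := hone q k p hpΛ hcon2 hup
          have k3 := wadj_par' hq
          rw [k2] at k3
          omega
      have ka := key _ (wadj_pl (p := p))
      have kb := key _ (wadj_mi (p := p) hpos.1)
      have : u = p := by
        unfold wadj at ka kb
        simp only at ka kb
        refine Prod.ext ?_ ?_
        · omega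
        · omega
      exact huΛ (by rw [this]; exact hpΛ)
  · -- two vertices
    have hΛ4 : Λ.card = 4 := by omega
    have hΛ'c : Λ'.card = 3 := by omega
    have hEq : Λ' = {(u.1 + 1, u.2), (u.1 - 1, u.2), vn u} :=
      Finset.eq_of_subset_of_card_le hΛ'sub (by rw [hΛ'c]; exact Finset.card_le_three)
    have hadj : ∀ b ∈ insert u C, ∃ f ∈ F, wadj f b := hB.adj_of (fun b hb hB' => by
      have hFc : F.card = 2 := by
        rw [hF]
        refine Finset.card_pair ?_
        rintro rfl
        have := wadj_par' hpf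
        omega
      obtain ⟨k1, k2⟩ := hB'.main hne (by rw [Finset.card_erase_of_mem hb]; omega)
      rcases k2 with ⟨p', k2⟩ | ⟨_, _, _, _, k2⟩
      · rw [k2, Finset.card_singleton] at hFc
        omega
      · rw [Finset.card_erase_of_mem hb] at k2
        omega)
    have hmemF : ∀ x, x ∈ F ↔ x = p ∨ x = f := by
      intro x
      rw [hF, Finset.mem_insert, Finset.mem_singleton]
    -- the two horizontal neighbours of `u`
    have hnb : ∀ q, wadj u q → q ∈ Λ → q = p ∨ q = f ∨ wadj p q ∨ wadj f q := by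
      intro q _ hq
      by_cases hqC : q ∈ C
      · obtain ⟨x, hx, hxq⟩ := hadj q (Finset.mem_insert_of_mem hqC)
        rcases (hmemF x).1 hx with k | k <;> rw [k] at hxq
        · exact Or.inr (Or.inr (Or.inl hxq))
        · exact Or.inr (Or.inr (Or.inr hxq))
      · rcases (hmemF q).1 (h1 q hq hqC) with k | k
        · exact Or.inl k
        · exact Or.inr (Or.inl k)
    have hma : (u.1 + 1, u.2) ∈ Λ := by
      have : (u.1 + 1, u.2) ∈ Λ' := by rw [hEq]; simp
      rw [hΛ', Finset.mem_filter] at this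
      exact this.1
    have hmb : (u.1 - 1, u.2) ∈ Λ := by
      have : (u.1 - 1, u.2) ∈ Λ' := by rw [hEq]; simp
      rw [hΛ', Finset.mem_filter] at this
      exact this.1
    have ha := hnb _ wadj_pl hma
    have hb := hnb _ (wadj_mi hu.1) hmb
    -- symmetric in `p`, `f`
    have key : ∀ p f : ℕ × ℕ, wadj p f → f ≠ u → wadj p u →
        ((u.1 + 1, u.2) = p ∨ (u.1 + 1, u.2) = f ∨ wadj p (u.1 + 1, u.2) ∨
          wadj f (u.1 + 1, u.2)) →
        ((u.1 - 1, u.2) = p ∨ (u.1 - 1, u.2) = f ∨ wadj p (u.1 - 1, u.2) ∨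
          wadj f (u.1 - 1, u.2)) → False := by
      intro p f hpf hfu hpu ha hb
      have e0 := wadj_par' hpf
      have e1 := wadj_par' hpu
      have ha' : wadj f (u.1 + 1, u.2) := by
        rcases ha with k | k | k | k
        · rw [k]
          exact wadj_swap hpf
        · exfalso
          have k1 := congrArg Prod.fst k
          have k2 := congrArg Prod.snd k
          simp only at k1 k2
          omega
        · exfalso
          have := wadj_par' k
          simp only at this
          omega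
        · exact k
      have hb' : wadj f (u.1 - 1, u.2) := by
        rcases hb with k | k | k | k
        · rw [k]
          exact wadj_swap hpf
        · exfalso
          have k1 := congrArg Prod.fst k
          have k2 := congrArg Prod.snd k
          simp only at k1 k2
          omega
        · exfalso
          have := wadj_par' k
          simp only at this
          omega
        · exact k
      apply hfu
      unfold wadj at ha' hb'
      simp only at ha' hb'
      refine Prod.ext ?_ ?_
      · omega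
      · omega
    obtain ⟨x, hx, hxu⟩ := hadj u (Finset.mem_insert_self _ _)
    rcases (hmemF x).1 hx with k | k
    · rw [k] at hxu
      exact key p f hpf (fun e => huF (by rw [← e]; exact (hmemF f).2 (Or.inr rfl))) hxu ha hb
    · rw [k] at hxu
      refine key f p (wadj_swap hpf) (fun e => huF (by rw [← e]; exact (hmemF p).2 (Or.inl rfl)))
        hxu ?_ ?_
      · tauto
      · tauto

/-! ### The five cases -/

section

variable {w N : ℕ} {ω : Set (Sym2 (ℕ × ℕ))} {u v v₁ v₂ v₃ y y' : ℕ × ℕ}

theorem lc_row3 (huv : wadj u v) (hω : ∀ p q, wadj p q → s(p, q) ∈ ω → s(p, q) = s(u, v))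
    (hdeep : ∀ l ∈ ({u, v, y} : Finset (ℕ × ℕ)), DeepR (0, 0) (w + 1) (w + 1) (N + 2) l) :
    LCond w N ω {u, v, y} := by
  classical
  have hc : ({u, v, y} : Finset (ℕ × ℕ)).card ≤ 3 := Finset.card_le_three
  exact lc_rowG huv hω (by simp) (by simp) (by omega) (by omega) (by omega) hdeep

theorem lc_row4 (huv : wadj u v) (hω : ∀ p q, wadj p q → s(p, q) ∈ ω → s(p, q) = s(u, v))
    (hu : 1 ≤ u.1 ∧ 1 ≤ u.2) (hv : 1 ≤ v.1 ∧ 1 ≤ v.2)
    (hy : y ≠ u ∧ y ≠ v) (hy' : y' ≠ u ∧ y' ≠ v)
    (hbu : ¬ (wadj u y ∧ wadj u y')) (hbv : ¬ (wadj v y ∧ wadj v y'))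
    (hdeep : ∀ l ∈ ({u, v, y, y'} : Finset (ℕ × ℕ)), DeepR (0, 0) (w + 1) (w + 1) (N + 2) l) :
    LCond w N ω {u, v, y, y'} := by
  classical
  have key : ∀ u v y y' : ℕ × ℕ, 1 ≤ u.1 ∧ 1 ≤ u.2 → wadj u v → y ≠ u → y' ≠ u →
      ¬ (wadj u y ∧ wadj u y') → ¬ ∀ q, wadj u q → q = u ∨ q = v ∨ q = y ∨ q = y' := by
    intro u v y y' hu huv hy hy' hb hall
    have hne : ∀ q, wadj u q → q ≠ u := by
      rintro q hq rfl
      have := wadj_par' hq
      omega
    have gv := wadj_vn hu.2
    have ga := hall _ (wadj_pl (p := u))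
    have gb := hall _ (wadj_mi (p := u) hu.1)
    have gc := hall _ gv.1
    have na := hne _ (wadj_pl (p := u))
    have nb := hne _ (wadj_mi (p := u) hu.1)
    have nc := hne _ gv.1
    have dab : ((u.1 + 1, u.2) : ℕ × ℕ) ≠ (u.1 - 1, u.2) := by
      intro e
      have := congrArg Prod.fst e
      simp only at this
      omega
    have dac : ((u.1 + 1, u.2) : ℕ × ℕ) ≠ vn u := by
      intro e
      have := congrArg Prod.snd e
      simp only at this
      omega
    have dbc : ((u.1 - 1, u.2) : ℕ × ℕ) ≠ vn u := by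
      intro e
      have := congrArg Prod.snd e
      simp only at this
      omega
    have hyy : wadj u y ∧ wadj u y' := by
      have wa := wadj_pl (p := u)
      have wb := wadj_mi (p := u) hu.1
      have wc := gv.1
      rcases ga with ga | ga | ga | ga
      · exact absurd ga na
      · rcases gb with gb | gb | gb | gb
        · exact absurd gb nb
        · exact absurd (ga.trans gb.symm) dab
        · rcases gc with gc | gc | gc | gc
          · exact absurd gc nc
          · exact absurd (ga.trans gc.symm) dac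
          · exact absurd (gb.trans gc.symm) dbc
          · rw [gb] at wb
            rw [gc] at wc
            exact ⟨wb, wc⟩
        · rcases gc with gc | gc | gc | gc
          · exact absurd gc nc
          · exact absurd (ga.trans gc.symm) dac
          · rw [gb] at wb
            rw [gc] at wc
            exact ⟨wc, wb⟩
          · exact absurd (gb.trans gc.symm) dbc
      · rcases gb with gb | gb | gb | gb
        · exact absurd gb nb
        · rcases gc with gc | gc | gc | gc
          · exact absurd gc nc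
          · exact absurd (gb.trans gc.symm) dbc
          · exact absurd (ga.trans gc.symm) dac
          · rw [ga] at wa
            rw [gc] at wc
            exact ⟨wa, wc⟩
        · exact absurd (ga.trans gb.symm) dab
        · rw [ga] at wa
          rw [gb] at wb
          exact ⟨wa, wb⟩
      · rcases gb with gb | gb | gb | gb
        · exact absurd gb nb
        · rcases gc with gc | gc | gc | gc
          · exact absurd gc nc
          · exact absurd (gb.trans gc.symm) dbc
          · rw [ga] at wa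
            rw [gc] at wc
            exact ⟨wc, wa⟩
          · exact absurd (ga.trans gc.symm) dac
        · rw [ga] at wa
          rw [gb] at wb
          exact ⟨wb, wa⟩
        · exact absurd (ga.trans gb.symm) dab
    exact hb hyy
  refine lc_rowG huv hω (by simp) (by simp) Finset.card_le_four (fun _ hall => ?_)
    (fun _ hall => ?_) hdeep
  · refine key u v y y' hu huv hy.1 hy'.1 hbu fun q hq => ?_
    have := hall q hq
    simpa only [Finset.mem_insert, Finset.mem_singleton] using this
  · refine key v u y y' hv (wadj_swap huv) hy.2 hy'.2 hbv fun q hq => ?_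
    have := hall q hq
    simp only [Finset.mem_insert, Finset.mem_singleton] at this
    tauto

theorem lc_star3 (hu : 1 ≤ u.1 ∧ 1 ≤ u.2)
    (hω : ∀ p q, wadj p q → (s(p, q) ∈ ω ↔ p = u ∨ q = u))
    (h1 : wadj u v₁) (h2 : wadj u v₂) (h3 : wadj u v₃) (h12 : v₁ ≠ v₂) (h13 : v₁ ≠ v₃)
    (h23 : v₂ ≠ v₃)
    (hdeep : ∀ l ∈ ({v₁, v₂, v₃} : Finset (ℕ × ℕ)), DeepR (0, 0) (w + 1) (w + 1) (N + 2) l) :
    LCond w N ω {v₁, v₂, v₃} := by
  classical
  have hne : ∀ q, wadj u q → u ≠ q := by
    rintro q hq rfl
    have := wadj_par' hq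
    omega
  have hc : ({v₁, v₂, v₃} : Finset (ℕ × ℕ)).card = 3 := by
    rw [Finset.card_insert_of_notMem, Finset.card_pair h23]
    simp only [Finset.mem_insert, Finset.mem_singleton, not_or]
    exact ⟨h12, h13⟩
  refine lc_starG hu hω (by omega) ?_ ?_ hdeep
  · simp only [Finset.mem_insert, Finset.mem_singleton, not_or]
    exact ⟨hne _ h1, hne _ h2, hne _ h3⟩
  · intro l hl l' _ hnl _
    simp only [Finset.mem_insert, Finset.mem_singleton] at hl
    rcases hl with rfl | rfl | rfl
    · exact absurd h1 hnl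
    · exact absurd h2 hnl
    · exact absurd h3 hnl

theorem lc_star21 (hu : 1 ≤ u.1 ∧ 1 ≤ u.2)
    (hω : ∀ p q, wadj p q → (s(p, q) ∈ ω ↔ p = u ∨ q = u))
    (h1 : wadj u v₁) (h2 : wadj u v₂) (h12 : v₁ ≠ v₂) (hyu : y ≠ u) (hy : ¬ wadj u y)
    (hdeep : ∀ l ∈ ({v₁, v₂, y} : Finset (ℕ × ℕ)), DeepR (0, 0) (w + 1) (w + 1) (N + 2) l) :
    LCond w N ω {v₁, v₂, y} := by
  classical
  have hne : ∀ q, wadj u q → u ≠ q := by
    rintro q hq rfl
    have := wadj_par' hq
    omega
  have hc : ({v₁, v₂, y} : Finset (ℕ × ℕ)).card = 3 := by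
    rw [Finset.card_insert_of_notMem, Finset.card_pair]
    · rintro rfl
      exact hy h2
    · simp only [Finset.mem_insert, Finset.mem_singleton, not_or]
      refine ⟨h12, ?_⟩
      rintro rfl
      exact hy h1
  refine lc_starG hu hω (by omega) ?_ ?_ hdeep
  · simp only [Finset.mem_insert, Finset.mem_singleton, not_or]
    exact ⟨hne _ h1, hne _ h2, hyu.symm⟩
  · intro l hl l' hl' hnl hnl'
    simp only [Finset.mem_insert, Finset.mem_singleton] at hl hl'
    rcases hl with rfl | rfl | rfl
    · exact absurd h1 hnl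
    · exact absurd h2 hnl
    · rcases hl' with rfl | rfl | rfl
      · exact absurd h1 hnl'
      · exact absurd h2 hnl'
      · rfl

theorem lc_star4 (hu : 1 ≤ u.1 ∧ 1 ≤ u.2)
    (hω : ∀ p q, wadj p q → (s(p, q) ∈ ω ↔ p = u ∨ q = u))
    (h1 : wadj u v₁) (h2 : wadj u v₂) (h3 : wadj u v₃) (h12 : v₁ ≠ v₂) (h13 : v₁ ≠ v₃)
    (h23 : v₂ ≠ v₃) (hyu : y ≠ u) (hy : ¬ wadj u y)
    (hdeep : ∀ l ∈ ({v₁, v₂, v₃, y} : Finset (ℕ × ℕ)), DeepR (0, 0) (w + 1) (w + 1) (N + 2) l) :
    LCond w N ω {v₁, v₂, v₃, y} := by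
  classical
  have hne : ∀ q, wadj u q → u ≠ q := by
    rintro q hq rfl
    have := wadj_par' hq
    omega
  have hyne : ∀ q, wadj u q → q ≠ y := by
    rintro q hq rfl
    exact hy hq
  have hc : ({v₁, v₂, v₃, y} : Finset (ℕ × ℕ)).card = 4 := by
    rw [Finset.card_insert_of_notMem, Finset.card_insert_of_notMem,
      Finset.card_pair (hyne _ h3)]
    · simp only [Finset.mem_insert, Finset.mem_singleton, not_or]
      exact ⟨h23, hyne _ h2⟩
    · simp only [Finset.mem_insert, Finset.mem_singleton, not_or]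
      exact ⟨h12, h13, hyne _ h1⟩
  refine lc_starG hu hω (by omega) ?_ ?_ hdeep
  · simp only [Finset.mem_insert, Finset.mem_singleton, not_or]
    exact ⟨hne _ h1, hne _ h2, hne _ h3, hyu.symm⟩
  · intro l hl l' hl' hnl hnl'
    simp only [Finset.mem_insert, Finset.mem_singleton] at hl hl'
    rcases hl with rfl | rfl | rfl | rfl
    · exact absurd h1 hnl
    · exact absurd h2 hnl
    · exact absurd h3 hnl
    · rcases hl' with rfl | rfl | rfl | rfl
      · exact absurd h1 hnl'
      · exact absurd h2 hnl'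
      · exact absurd h3 hnl'
      · rfl

end

end DA
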