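import Pool.Agent.DA.LinkTypes

/-!
# Linked gadgets over a wall with holes
-/

open Set Relation BIC BICS
open scoped Matroid

namespace DA

open Gad

universe u

/-- **Linked gadgets.** -/
theorem linkFam (k R D : ℕ) : LinkFam.{u} k R D := by
  classical
  obtain ⟨mB, δB, hglB⟩ := glB.{u} k 5 0 10
  obtain ⟨mM, s₀, hglM⟩ := glMs.{u} k 5 10 2
  obtain ⟨δM, hglM⟩ := hglM s₀ le_rfl
  obtain ⟨M, hM⟩ : ∃ M, M = δB + δM + s₀ + 30 := ⟨_, rfl⟩
  obtain ⟨m₁, hm₁⟩ : ∃ m₁, m₁ = mB + mM + 1 := ⟨_, rfl⟩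
  obtain ⟨J, m, hsc⟩ := scalesN 5 (2 * m₁) (by omega)
  obtain ⟨μ, hμ⟩ : ∃ μ : ℕ → ℕ, ∀ s, μ s = s + RE R + R + 6 := ⟨_, fun _ => rfl⟩
  obtain ⟨q, hq⟩ : ∃ q : ℕ → ℕ, ∀ s, q s = 5 * m * (2 * μ s + 1) + D + 5 := ⟨_, fun _ => rfl⟩
  obtain ⟨sc, hmono, hstep, hsc⟩ := hsc (fun s => 3 * q s * (M + 1))
  obtain ⟨δ, hδ⟩ : ∃ δ, δ = 3 * q (sc J) * (M + 1) + sc J + 2 * (RE R + R) + 20 := ⟨_, rfl⟩
  refine ⟨m, δ, ?_⟩
  intro α P _ S ends w miss o z Λ hB hW hfree hnear hz hcard hloc hdeep hsep hHC hLC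
  -- the scale
  obtain ⟨N, hN⟩ : ∃ N : ℕ → Finset (ℕ × ℕ), ∀ t (ht : t < m), N t =
      insert (o ⟨t, ht⟩) (Λ ⟨t, ht⟩) :=
    ⟨fun t => if ht : t < m then insert (o ⟨t, ht⟩) (Λ ⟨t, ht⟩) else ∅,
      fun t ht => by simp only [dif_pos ht]⟩
  obtain ⟨j, hj, f, hf1, hf2, hf3⟩ := hsc N (fun t ht => by
    rw [hN t ht]
    have h1 := Finset.card_insert_le (o ⟨t, ht⟩) (Λ ⟨t, ht⟩)
    have h2 := (hcard ⟨t, ht⟩).2
    omega)
  have hscj : sc j ≤ sc J := hmono (by omega)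
  obtain ⟨s, hs⟩ : ∃ s, s = sc j := ⟨_, rfl⟩
  have hqmono : q s ≤ q (sc J) := by
    rw [hs, hq, hq, hμ, hμ]
    have h1 : 5 * m * (2 * (sc j + RE R + R + 6) + 1) ≤ 5 * m * (2 * (sc J + RE R + R + 6) + 1) :=
      Nat.mul_le_mul le_rfl (by omega)
    omega
  have hqM : 3 * q s * (M + 1) ≤ 3 * q (sc J) * (M + 1) :=
    Nat.mul_le_mul (Nat.mul_le_mul le_rfl hqmono) le_rfl
  have hstepj : 3 * q s * (M + 1) ≤ sc (j + 1) := by
    rw [hs]
    exact (hstep j).2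
  have hm0 : 0 < m := by
    have := hf1 0 (by omega)
    omega
  obtain ⟨Q, hQ⟩ : ∃ Q, Q = q s := ⟨_, rfl⟩
  rw [← hQ] at hqM hstepj hqmono
  have hQD : D + 5 ≤ Q := by
    rw [hQ, hq]
    omega
  -- all points
  obtain ⟨Pt, hPt⟩ : ∃ Pt : Finset (ℕ × ℕ), Pt =
      Finset.univ.biUnion (fun t => insert (o t) (Λ t)) := ⟨_, rfl⟩
  have hPtc : Pt.card ≤ 5 * m := by
    rw [hPt]
    refine (Finset.card_biUnion_le_card_mul _ _ 5 ?_).trans ?_
    · intro t _
      have h1 := Finset.card_insert_le (o t) (Λ t)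
      have h2 := (hcard t).2
      omega
    · rw [Finset.card_univ, Fintype.card_fin, Nat.mul_comm]
  have hPtm : ∀ t, ∀ p ∈ insert (o t) (Λ t), p ∈ Pt := by
    intro t p hp
    rw [hPt, Finset.mem_biUnion]
    exact ⟨t, Finset.mem_univ _, hp⟩
  have hcut : ∀ F : Finset ℕ, F.card ≤ 5 * m → F.card * (2 * μ s + 1) < Q := by
    intro F hF
    rw [hQ, hq]
    have h1 : F.card * (2 * μ s + 1) ≤ 5 * m * (2 * μ s + 1) := Nat.mul_le_mul hF le_rfl
    omega
  obtain ⟨cx, hcx, hcx'⟩ := cuts (Pt.image Prod.fst) (μ s) Q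
    (hcut _ (Finset.card_image_le.trans hPtc))
  obtain ⟨cy, hcy, hcy'⟩ := cuts (Pt.image Prod.snd) (μ s) Q
    (hcut _ (Finset.card_image_le.trans hPtc))
  -- the number of blocks
  have hdp : ∀ t, ∀ p ∈ insert (o t) (Λ t), δ ≤ p.1 ∧ δ ≤ p.2 ∧ p.1 + δ ≤ w + 1 ∧
      p.2 + δ ≤ w + 1 := by
    intro t p hp
    have h1 := hdeep t p hp
    unfold DeepR at h1
    simp only at h1
    omega
  have hδQ : 3 * Q * (M + 1) + s + 2 * (RE R + R) + 20 ≤ δ := by
    rw [hδ, hs]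
    omega
  have hwQ : 3 * Q ≤ w + 1 := by
    have h1 := hdp ⟨0, hm0⟩ (o ⟨0, hm0⟩) (Finset.mem_insert_self _ _)
    have h2 : 3 * Q * 1 ≤ 3 * Q * (M + 1) := Nat.mul_le_mul le_rfl (by omega)
    omega
  obtain ⟨n, hn⟩ : ∃ n, n = (w + 1) / Q - 1 := ⟨_, rfl⟩
  have hdiv : 3 ≤ (w + 1) / Q := (Nat.le_div_iff_mul_le (by omega)).2 hwQ
  have hn1 : (n + 1) * Q ≤ w + 1 := by
    rw [hn, Nat.sub_add_cancel (by omega)]
    exact Nat.div_mul_le_self _ _
  have hn2 : w + 1 < (n + 2) * Q := by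
    have h1 : n + 2 = (w + 1) / Q + 1 := by omega
    rw [h1, Nat.mul_comm]
    exact Nat.lt_mul_div_succ _ (by omega)
  obtain ⟨lx, bx, px, qx, hlx⟩ := part_ex (q := Q) (c := cx) (n := n) (by omega) hcx (by omega)
    hn1 hn2
  obtain ⟨ly, by', py, qy, hly⟩ := part_ex (q := Q) (c := cy) (n := n) (by omega) hcy (by omega)
    hn1 hn2
  -- blocks of points
  have hpt : ∀ t, ∀ p ∈ insert (o t) (Λ t), p.1 ≤ w ∧ p.2 ≤ w ∧
      M ≤ bx p.1 ∧ bx p.1 + M ≤ n ∧ M ≤ by' p.2 ∧ by' p.2 + M ≤ n ∧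
      lx (bx p.1) + μ s ≤ p.1 ∧ p.1 + μ s ≤ lx (bx p.1 + 1) ∧
      ly (by' p.2) + μ s ≤ p.2 ∧ p.2 + μ s ≤ ly (by' p.2 + 1) := by
    intro t p hp
    have h1 := hdp t p hp
    have g1 := px.far_left qx (x := p.1) (M := M + 1) (by omega) (by omega)
    have g2 := px.far_right qx (x := p.1) (M := M + 1) (by omega)
    have g3 := py.far_left qy (x := p.2) (M := M + 1) (by omega) (by omega)
    have g4 := py.far_right qy (x := p.2) (M := M + 1) (by omega)
    obtain ⟨k1, k2, k3⟩ := px.idx p.1 (by omega)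
    obtain ⟨k4, k5, k6⟩ := py.idx p.2 (by omega)
    have e1 := hcx' p.1 (Finset.mem_image_of_mem _ (hPtm t p hp)) (bx p.1)
    have e2 := hcx' p.1 (Finset.mem_image_of_mem _ (hPtm t p hp)) (bx p.1 + 1)
    have e3 := hcy' p.2 (Finset.mem_image_of_mem _ (hPtm t p hp)) (by' p.2)
    have e4 := hcy' p.2 (Finset.mem_image_of_mem _ (hPtm t p hp)) (by' p.2 + 1)
    rw [← hlx (bx p.1) (by omega) (by omega)] at e1
    rw [← hlx (bx p.1 + 1) (by omega) (by omega)] at e2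
    rw [← hly (by' p.2) (by omega) (by omega)] at e3
    rw [← hly (by' p.2 + 1) (by omega) (by omega)] at e4
    omega
  have hfarB : ∀ p p' : ℕ × ℕ, p.1 ≤ w → p.2 ≤ w → p'.1 ≤ w → p'.2 ≤ w →
      3 * Q * (M + 1) < sd p p' → M < sd (bl bx by' p) (bl bx by' p') := by
    intro p p' h1 h2 h3 h4 h5
    have h6 : p.1 + 3 * Q * (M + 1) < p'.1 ∨ p'.1 + 3 * Q * (M + 1) < p.1 ∨
        p.2 + 3 * Q * (M + 1) < p'.2 ∨ p'.2 + 3 * Q * (M + 1) < p.2 := by
      unfold sd at h5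
      omega
    unfold bl sd
    simp only
    rcases h6 with h6 | h6 | h6 | h6
    · have := px.far qx (by omega) (by omega) h6
      omega
    · have := px.far qx (by omega) (by omega) h6
      omega
    · have := py.far qy (by omega) (by omega) h6
      omega
    · have := py.far qy (by omega) (by omega) h6
      omega
  have hsep' : ∀ t t', t ≠ t' → ∀ p ∈ insert (o t) (Λ t), ∀ p' ∈ insert (o t') (Λ t'),
      δ ≤ sd p p' := fun t t' htt p hp p' hp' => apart_iff.1 (hsep t t' htt p hp p' hp')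
  -- the units
  obtain ⟨g₀, hg₀⟩ : ∃ g₀ : Fin (2 * m₁) → Fin m, ∀ i, g₀ i = ⟨f i, hf1 i i.2⟩ :=
    ⟨_, fun _ => rfl⟩
  have hg₀i : Function.Injective g₀ := by
    intro a b hab
    rw [hg₀, hg₀, Fin.mk.injEq] at hab
    rcases Nat.lt_trichotomy a b with h1 | h1 | h1
    · have := hf2 a b h1 b.2
      omega
    · exact Fin.ext h1
    · have := hf2 b a h1 a.2
      omega
  have hμs := hμ s
  have hLk : Lk P S ends w n R D Q M miss o z Λ lx ly bx by' (range g₀) := by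
    refine ⟨hB, hW, hfree, hnear, hz, hcard, hloc, hHC, hLC, ?_, px, py, qx, qy, by omega,
      by omega, ?_, ?_, ?_, ?_⟩
    · intro t t' htt p hp p' hp'
      have := hsep' t t' htt p hp p' hp'
      omega
    · have := hpt ⟨0, hm0⟩ (o ⟨0, hm0⟩) (Finset.mem_insert_self _ _)
      omega
    · intro t p hp
      have h1 : p ∈ insert (o t) (Λ t) := by
        rcases hp with rfl | hp
        · exact Finset.mem_insert_self _ _
        · exact Finset.mem_insert_of_mem hp.2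
      have h2 := hpt t p h1
      omega
    · intro t t' htt p hp p' hp'
      have h1 := hpt t p hp
      have h2 := hpt t' p' hp'
      have h3 := hsep' t t' htt p hp p' hp'
      exact hfarB p p' (by omega) (by omega) (by omega) (by omega) (by omega)
    · rintro _ ⟨i, rfl⟩ p hp p' hp'
      have h1 := hpt _ p hp
      have h2 := hpt _ p' hp'
      rw [hg₀] at hp hp'
      have h3 := hf3 p p' ⟨i, i.2, by rw [hN _ (hf1 i i.2)]; exact hp⟩
        ⟨i, i.2, by rw [hN _ (hf1 i i.2)]; exact hp'⟩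
      rcases h3 with h3 | h3
      · left
        rw [sd_le, ← hs] at h3
        have h4 := (px.uniq (x := p'.1) (i := bx p.1) (by omega) (by omega) (by omega)).2
        have h5 := (py.uniq (x := p'.2) (i := by' p.2) (by omega) (by omega) (by omega)).2
        unfold bl
        rw [h4, h5]
      · exact Or.inr (hfarB p p' (by omega) (by omega) (by omega) (by omega) (by omega))
  -- the two types
  obtain ⟨col, hcol⟩ : ∃ col : ℕ → ℕ, ∀ i (hi : i < 2 * m₁), col i =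
      if ∃ c, Lk.Kp Λ o bx by' (g₀ ⟨i, hi⟩) c then 1 else 0 :=
    ⟨fun i => if hi : i < 2 * m₁ then
      (if ∃ c, Lk.Kp Λ o bx by' (g₀ ⟨i, hi⟩) c then 1 else 0) else 0,
      fun i hi => by simp only [dif_pos hi]⟩
  obtain ⟨y, hy, hfib⟩ := fibre m₁ 2 col (fun i hi => by
    rw [hcol i hi]
    split_ifs <;> omega) (by omega)
  rcases Nat.eq_zero_or_pos y with hy0 | hy0
  · obtain ⟨g, hgi, hg⟩ := hfib mB (by omega)
    obtain ⟨g', hg'⟩ : ∃ g' : Fin mB → Fin m, ∀ i, g' i = g₀ ⟨g i, (hg i).1⟩ := ⟨_, fun _ => rfl⟩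
    have hg'i : Function.Injective g' := by
      intro a b hab
      rw [hg', hg'] at hab
      exact hgi (congrArg Fin.val (hg₀i hab))
    refine Lk.minor_plain (δ := δB) (fun {α} P => hglB P) g' hg'i
      (hLk.sub (by rintro _ ⟨i, rfl⟩; rw [hg']; exact mem_range_self _)) (by omega) ?_
    intro i c hc
    have h1 := (hg i).2
    rw [hcol _ (hg i).1, if_pos ⟨c, by rw [← hg']; exact hc⟩] at h1
    omega
  · obtain ⟨g, hgi, hg⟩ := hfib mM (by omega)
    obtain ⟨g', hg'⟩ : ∃ g' : Fin mM → Fin m, ∀ i, g' i = g₀ ⟨g i, (hg i).1⟩ := ⟨_, fun _ => rfl⟩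
    have hg'i : Function.Injective g' := by
      intro a b hab
      rw [hg', hg'] at hab
      exact hgi (congrArg Fin.val (hg₀i hab))
    refine Lk.minor_K (s' := s₀) (δ := δM) (fun {α} P => hglM P) g' hg'i
      (hLk.sub (by rintro _ ⟨i, rfl⟩; rw [hg']; exact mem_range_self _)) (by omega) ?_
    intro i
    have h1 := (hg i).2
    rw [hcol _ (hg i).1] at h1
    by_contra h2
    rw [if_neg (by rw [← hg']; exact h2)] at h1
    omega

end DA
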