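import Mathlib.Combinatorics.Matroid.Circuit

/-!
# Circuits with an exit and two of three ends
-/

open Set

namespace DA

variable {α : Type*} {N : Matroid α}

lemma mem_fc {I : Set α} {x e : α} (hI : N.Indep I) (hx : x ∈ N.closure I) (hxI : x ∉ I)
    (he : e ∈ I) : e ∈ N.fundCircuit x I ↔ x ∉ N.closure (I \ {e}) := by
  have hne : x ≠ e := fun h => hxI (h ▸ he)
  rw [hI.mem_fundCircuit_iff hx hxI, ← insert_sdiff_singleton_comm hne,
    (hI.sdiff {e}).notMem_closure_iff_of_notMem (fun h => hxI h.1) (N.mem_ground_of_mem_closure hx)]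

/-- **Three ends.** A circuit `C` through `b`, `o₁`, `o₂`; then there is a circuit through `b` and
all ends, or a circuit through all ends which avoids `b`, or a circuit through `b` and two ends
whose closure does not contain the third end. -/
theorem three_ends {C : Set α} {b o₁ o₂ o₃ : α} (hC : N.IsCircuit C) (hb : b ∈ C) (h1 : o₁ ∈ C)
    (h2 : o₂ ∈ C) (hb1 : b ≠ o₁) (hb2 : b ≠ o₂) (hb3 : b ≠ o₃) (h12 : o₁ ≠ o₂) (h13 : o₁ ≠ o₃)
    (h23 : o₂ ≠ o₃) (hO : N.Indep {o₁, o₂, o₃}) :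
    ∃ C', N.IsCircuit C' ∧ C' ⊆ insert o₃ C ∧ ((b ∈ C' ∧ o₁ ∈ C' ∧ o₂ ∈ C' ∧ o₃ ∈ C') ∨
      (b ∉ C' ∧ o₁ ∈ C' ∧ o₂ ∈ C' ∧ o₃ ∈ C') ∨
      (b ∈ C' ∧ o₁ ∈ C' ∧ o₂ ∈ C' ∧ o₃ ∉ N.closure C') ∨
      (b ∈ C' ∧ o₁ ∈ C' ∧ o₃ ∈ C' ∧ o₂ ∉ N.closure C') ∨
      (b ∈ C' ∧ o₂ ∈ C' ∧ o₃ ∈ C' ∧ o₁ ∉ N.closure C')) := by
  classical
  by_cases h3 : o₃ ∈ C
  · exact ⟨C, hC, subset_insert _ _, Or.inl ⟨hb, h1, h2, h3⟩⟩
  by_cases hcl : o₃ ∈ N.closure C
  swap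
  · exact ⟨C, hC, subset_insert _ _, Or.inr (Or.inr (Or.inl ⟨hb, h1, h2, hcl⟩))⟩
  have hcl' : ∀ e, o₃ ∈ N.closure (C \ {e}) := fun e => by
    rwa [hC.closure_sdiff_singleton_eq e]
  have hI : ∀ e ∈ C, N.Indep (C \ {e}) := fun e he => hC.sdiff_singleton_indep he
  have hDc : ∀ e ∈ C, N.IsCircuit (N.fundCircuit o₃ (C \ {e})) := fun e he =>
    (hI e he).fundCircuit_isCircuit (hcl' e) (fun h => h3 h.1)
  have hDs : ∀ e, N.fundCircuit o₃ (C \ {e}) ⊆ insert o₃ C := fun e =>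
    (N.fundCircuit_subset_insert _ _).trans (insert_subset_insert sdiff_subset)
  have hD3 : ∀ e, o₃ ∈ N.fundCircuit o₃ (C \ {e}) := fun e => N.mem_fundCircuit _ _
  have hDm : ∀ e ∈ C, ∀ x ∈ C, x ≠ e → (x ∈ N.fundCircuit o₃ (C \ {e}) ↔
      o₃ ∉ N.closure ((C \ {e}) \ {x})) := fun e he x hx hxe =>
    mem_fc (hI e he) (hcl' e) (fun h => h3 h.1) ⟨hx, hxe⟩
  have hDe : ∀ e ∈ C, e ∉ N.fundCircuit o₃ (C \ {e}) := by
    intro e he h
    rcases N.fundCircuit_subset_insert _ _ h with h4 | h4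
    · exact h3 (h4 ▸ he)
    · exact h4.2 rfl
  have hsw : ∀ e x : α, (C \ {e}) \ {x} = (C \ {x}) \ {e} := fun e x => by
    rw [sdiff_sdiff_comm]
  -- the key step
  have key : ∀ p q : α, p ∈ C → q ∈ C → b ≠ p → b ≠ q → p ≠ q → p ≠ o₃ → q ≠ o₃ →
      N.Indep {q, o₃} → p ∉ N.fundCircuit o₃ (C \ {b}) →
      ∃ C', N.IsCircuit C' ∧ C' ⊆ insert o₃ C ∧ ((b ∈ C' ∧ p ∈ C' ∧ q ∈ C' ∧ o₃ ∈ C') ∨
        (b ∈ C' ∧ p ∈ C' ∧ o₃ ∈ C' ∧ q ∉ N.closure C')) := by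
    intro p q hp hq hbp hbq hpq hp3 hq3 hqo hpD
    have hstar : o₃ ∈ N.closure ((C \ {b}) \ {p}) := by
      by_contra h
      exact hpD ((hDm b hb p hp (Ne.symm hbp)).2 h)
    obtain ⟨e, heD, he⟩ : ∃ e ∈ N.fundCircuit o₃ (C \ {b}), e ∉ ({q, o₃} : Set α) := by
      by_contra hcon
      push Not at hcon
      exact (hDc b hb).dep.not_indep (hqo.subset hcon)
    simp only [mem_insert_iff, mem_singleton_iff, not_or] at he
    have heC : e ∈ C := by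
      rcases hDs b heD with h | h
      · exact absurd h he.2
      · exact h
    have heb : e ≠ b := by
      rintro rfl
      exact hDe _ hb heD
    have hep : e ≠ p := by
      rintro rfl
      exact hpD heD
    have he1 : o₃ ∉ N.closure ((C \ {b}) \ {e}) := (hDm b hb e heC heb).1 heD
    have hbDe : b ∈ N.fundCircuit o₃ (C \ {e}) := by
      rw [hDm e heC b hb (Ne.symm heb), hsw]
      exact he1
    have hpDe : p ∈ N.fundCircuit o₃ (C \ {e}) := by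
      rw [hDm e heC p hp (Ne.symm hep)]
      intro h
      have hi : N.Indep (((C \ {e}) \ {p}) ∪ ((C \ {b}) \ {p})) := by
        refine (hI p hp).subset ?_
        rintro x (hx | hx)
        · exact ⟨hx.1.1, hx.2⟩
        · exact ⟨hx.1.1, hx.2⟩
      have h4 : o₃ ∈ N.closure (((C \ {e}) \ {p}) ∩ ((C \ {b}) \ {p})) := by
        rw [hi.closure_inter_eq_inter_closure]
        exact ⟨h, hstar⟩
      refine he1 (N.closure_subset_closure ?_ h4)
      rintro x ⟨hx, hx'⟩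
      exact ⟨⟨hx.1.1, hx'.1.2⟩, hx.1.2⟩
    by_cases hqe : q ∈ N.fundCircuit o₃ (C \ {e})
    · exact ⟨_, hDc e heC, hDs e, Or.inl ⟨hbDe, hpDe, hqe, hD3 e⟩⟩
    · refine ⟨_, hDc e heC, hDs e, Or.inr ⟨hbDe, hpDe, hD3 e, fun h => ?_⟩⟩
      have hqe' : q ≠ e := fun h => he.1 h.symm
      have h4 : o₃ ∈ N.closure ((C \ {e}) \ {q}) := by
        by_contra h5
        exact hqe ((hDm e heC q hq hqe').2 h5)
      have h5 : N.fundCircuit o₃ (C \ {e}) ⊆ N.closure ((C \ {e}) \ {q}) := by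
        intro x hx
        rcases N.fundCircuit_subset_insert _ _ hx with h6 | h6
        · rw [h6]
          exact h4
        · refine N.subset_closure _ (sdiff_subset.trans (sdiff_subset.trans hC.subset_ground))
            ⟨h6, ?_⟩
          rintro rfl
          exact hqe hx
      have h6 := N.closure_subset_closure_of_subset_closure h5 h
      exact (hI e heC).notMem_closure_sdiff_of_mem ⟨hq, hqe'⟩ h6
  by_cases hA : o₁ ∈ N.fundCircuit o₃ (C \ {b})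
  · by_cases hB : o₂ ∈ N.fundCircuit o₃ (C \ {b})
    · exact ⟨_, hDc b hb, hDs b, Or.inr (Or.inl ⟨hDe b hb, hA, hB, hD3 b⟩)⟩
    · obtain ⟨C', k1, k2, k3⟩ := key o₂ o₁ h2 h1 hb2 hb1 h12.symm h23 h13
        (hO.subset (by
          rintro x (rfl | rfl)
          · exact Or.inl rfl
          · exact Or.inr (Or.inr rfl))) hB
      refine ⟨C', k1, k2, ?_⟩
      rcases k3 with ⟨k3, k4, k5, k6⟩ | ⟨k3, k4, k5, k6⟩
      · exact Or.inl ⟨k3, k5, k4, k6⟩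
      · exact Or.inr (Or.inr (Or.inr (Or.inr ⟨k3, k4, k5, k6⟩)))
  · obtain ⟨C', k1, k2, k3⟩ := key o₁ o₂ h1 h2 hb1 hb2 h12 h13 h23
      (hO.subset (by
        rintro x (rfl | rfl)
        · exact Or.inr (Or.inl rfl)
        · exact Or.inr (Or.inr rfl))) hA
    refine ⟨C', k1, k2, ?_⟩
    rcases k3 with ⟨k3, k4, k5, k6⟩ | ⟨k3, k4, k5, k6⟩
    · exact Or.inl ⟨k3, k4, k5, k6⟩
    · exact Or.inr (Or.inr (Or.inr (Or.inl ⟨k3, k4, k5, k6⟩)))

end DA
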