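import Pool.Agent.DA.Conf
import Pool.Agent.DA.LC
import Pool.Agent.DA.ThreeEnds
import Pool.Agent.DA.LinkFam

/-!
# Gadget outputs: no circuits with three or four independent ways out

`in012`: outside of a bounded set of vertices there is no circuit of the star matroid `N_u` or of
the row matroid `N_e` of local elements and exits which shows three or four ways out.
-/

open Set BIC BICS
open scoped Matroid

namespace DA

open Gad

universe u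

/-- `p` is deep and outside of `Om` -/
def OutW (δ w : ℕ) (Om : Finset (ℕ × ℕ)) (p : ℕ × ℕ) : Prop :=
  DeepR (0, 0) (w + 1) (w + 1) δ p ∧ ∀ q ∈ Om, Apart δ p q

/-- all deep locations of `x` (for all representatives) are in `U` -/
def LocIn {α : Type*} (P : Matroid α) (S : Set α) (row : α → Sym2 (ℕ × ℕ)) (w D : ℕ)
    (U : Set (ℕ × ℕ)) (x : α) : Prop :=
  ∀ c, c ⊆ S → WallE c row w ∅ → ∀ v ∈ LocR P S row c x, DeepR (0, 0) (w + 1) (w + 1) D v → v ∈ U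

/-- local elements: elements of the rows of `ω`, and elements of the closure of the wall whose
deep locations are all in `U` -/
def LocE {α : Type*} (P : Matroid α) (S : Set α) (row : α → Sym2 (ℕ × ℕ)) (w D : ℕ)
    (ω : Set (Sym2 (ℕ × ℕ))) (U : Set (ℕ × ℕ)) (x : α) : Prop :=
  (x ∈ S ∧ row x ∈ ω) ∨ (x ∈ P.closure S ∧ x ∉ S ∧ LocIn P S row w D U x)

/-- exits: bounded support outside of `Om`; for the representatives `c` exactly one deep location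
`y` outside of `U` -/
structure ExitE {α : Type*} (P : Matroid α) (S : Set α) (row : α → Sym2 (ℕ × ℕ)) (w D β δ : ℕ)
    (Om : Finset (ℕ × ℕ)) (U : Set (ℕ × ℕ)) (c : Set α) (y : ℕ × ℕ) (b : α) : Prop where
  cl : b ∈ P.closure S ∧ b ∉ S
  supp : ∃ N : Finset (ℕ × ℕ), N.card ≤ β ∧ LocIn P S row w D N b ∧ ∀ p ∈ N, OutW δ w Om p
  y_loc : y ∈ LocR P S row c b
  y_deep : DeepR (0, 0) (w + 1) (w + 1) D y
  y_out : y ∉ U
  loc : ∀ v ∈ LocR P S row c b, DeepR (0, 0) (w + 1) (w + 1) D v → v ∈ U ∨ v = y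

/-- the rows which are contracted in the star matroid `N_u`: all rows outside of the star of `u`
without the representatives at the neighbours `v₁ v₂ v₃` -/
def FStar {α : Type*} (S : Set α) (row : α → Sym2 (ℕ × ℕ)) (c : Set α) (u v₁ v₂ v₃ : ℕ × ℕ) :
    Set α :=
  (S \ {e | u ∈ row e}) \ {e | e ∈ c ∧ (v₁ ∈ row e ∨ v₂ ∈ row e ∨ v₃ ∈ row e)}

/-- the rows which are contracted in the row matroid `N_e`, `e = uv` -/
def FRow {α : Type*} (S : Set α) (row : α → Sym2 (ℕ × ℕ)) (c : Set α) (u v : ℕ × ℕ) : Set α :=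
  (S \ {e | row e = s(u, v)}) \ {e | e ∈ c ∧ (u ∈ row e ∨ v ∈ row e)}

/-- `v₁ v₂ v₃` are the neighbours of `u` -/
def Nb3 (u v₁ v₂ v₃ : ℕ × ℕ) : Prop :=
  wadj u v₁ ∧ wadj u v₂ ∧ wadj u v₃ ∧ v₁ ≠ v₂ ∧ v₁ ≠ v₃ ∧ v₂ ≠ v₃

/-- outside of `Om` there is no local configuration -/
def NoConf {α : Type*} (P : Matroid α) (S : Set α) (row : α → Sym2 (ℕ × ℕ)) (w D β δ : ℕ)
    (Om : Finset (ℕ × ℕ)) : Prop :=
  ∀ (o : ℕ × ℕ) (ω : Set (Sym2 (ℕ × ℕ))) (Z : Finset α) (z : α) (c : Set α)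
    (N Λ : Finset (ℕ × ℕ)),
    (∀ p ∈ insert o N, DeepR (0, 0) (w + 1) (w + 1) δ p ∧ ∀ q ∈ Om, Apart δ p q) →
    ¬ LConf P S row w 1 D β o ω Z z c N Λ

lemma OutW.mono {δ δ' w : ℕ} {Om : Finset (ℕ × ℕ)} {p : ℕ × ℕ} (h : OutW δ w Om p)
    (hδ : δ' ≤ δ) : OutW δ' w Om p := by
  refine ⟨?_, fun q hq => ?_⟩
  · have := h.1
    unfold DeepR at this ⊢
    simp only at this ⊢
    omega
  · have := h.2 q hq
    unfold Apart at this ⊢
    omega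

lemma OutW.near {δ w : ℕ} {Om : Finset (ℕ × ℕ)} {p a : ℕ × ℕ} (h : OutW (δ + 1) w Om p)
    (ha : sd a p ≤ 1) : OutW δ w Om a := by
  rw [sd_le] at ha
  refine ⟨?_, fun q hq => ?_⟩
  · have := h.1
    unfold DeepR at this ⊢
    simp only at this ⊢
    omega
  · have := h.2 q hq
    unfold Apart at this ⊢
    omega

section

variable {α : Type*} {P : Matroid α} {S : Set α} {row : α → Sym2 (ℕ × ℕ)} {w : ℕ}

lemma locR_row (hS : S ⊆ P.E) {c : Set α} {x : α} (hx : x ∈ S) {v : ℕ × ℕ}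
    (hv : v ∈ LocR P S row c x) : v ∈ row x := by
  by_contra h
  exact hv (P.mem_closure_of_mem' ⟨hx, fun h2 => h h2.2⟩ (hS hx))

/-- **No circuits.** The general form. -/
theorem circ_false [P.Finite] (hG : RWx P S row w) {D β δ₀ δ : ℕ} (hD : 4 ≤ D)
    (hδ : δ₀ + D + 60 ≤ δ) {Om : Finset (ℕ × ℕ)} (hno : NoConf P S row w D (2 * β + 4) δ₀ Om)
    {u : ℕ × ℕ} (hu : OutW δ w Om u) {c : Set α} (hc : c ⊆ S)
    (hW : WallE c row w ∅) {ω : Set (Sym2 (ℕ × ℕ))} {T₀ A : Finset (ℕ × ℕ)}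
    (hTA : T₀.card + A.card ≤ 4) (hTAu : ∀ v, v ∈ T₀ ∨ v ∈ A → sd v u ≤ 1)
    (hnear : ∀ p q, s(p, q) ∈ ω → sd p u ≤ 1 ∧ sd q u ≤ 1)
    (hωU : ∀ f ∈ S, row f ∈ ω → ∀ v ∈ row f, v ∈ T₀ ∨ v ∈ A)
    (hT₀ : ∀ f ∈ S, ∀ v ∈ T₀, v ∈ row f → row f ∈ ω) (hdT : ∀ a ∈ A, a ∉ T₀)
    (hesc : ∀ T' : Set (ℕ × ℕ), (T' ⊆ (A : Set (ℕ × ℕ)) ∨ ∃ a, T' ⊆ {a}) → ∀ x y, 1 ≤ y →
      (x, y) ∉ (T₀ : Set (ℕ × ℕ)) ∪ T' → RunR ω ((T₀ : Set (ℕ × ℕ)) ∪ T') x y ∨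
      RunL ω ((T₀ : Set (ℕ × ℕ)) ∪ T') x y ∨
      (s((x, y), vn (x, y)) ∉ ω ∧ vn (x, y) ∉ (T₀ : Set (ℕ × ℕ)) ∪ T' ∧
        RunR ω ((T₀ : Set (ℕ × ℕ)) ∪ T') x (vn (x, y)).2))
    {e : ℕ × ℕ → α} (he : ∀ a ∈ A, e a ∈ c ∧ a ∈ row (e a) ∧ row (e a) ∉ ω ∧
      ∀ b ∈ A, b ≠ a → b ∉ row (e a)) {C : Set α}
    (hC : (P ／ ((S \ {f | row f ∈ ω}) \ {f | f ∈ c ∧ ∃ a ∈ A, a ∈ row f})).IsCircuit C) {z : α}
    (hz : z ∈ C) (hzO : z ∉ e '' (A : Set (ℕ × ℕ)))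
    (hind : (P ／ ((S \ {f | row f ∈ ω}) \ {f | f ∈ c ∧ ∃ a ∈ A, a ∈ row f})).Indep
      ((C \ {z}) ∪ e '' (A : Set (ℕ × ℕ))))
    {Bx : Finset α} (hBx : Bx.card ≤ 2) (hBC : ∀ b ∈ Bx, b ∈ C) {yy : α → ℕ × ℕ}
    (hyy : ∀ b ∈ Bx, ∀ b' ∈ Bx, yy b = yy b' → b = b') {U : Set (ℕ × ℕ)}
    (hU : ∀ v, v ∈ U ↔ v ∈ T₀ ∨ v ∈ A)
    (hex : ∀ b ∈ Bx, ExitE P S row w D β δ Om U c (yy b) b)
    (hloc : ∀ x ∈ C, x ∈ Bx ∨ x ∈ e '' (A : Set (ℕ × ℕ)) ∨ LocE P S row w D ω U x)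
    {Λ : Finset (ℕ × ℕ)} (hΛ : ∀ v, v ∈ Λ ↔ (v ∈ A ∧ e v ∈ C) ∨ ∃ b ∈ Bx, yy b = v)
    (hΛc : 3 ≤ Λ.card ∧ Λ.card ≤ 4)
    (hHC : ∀ p, sd p u ≤ 1 → (∃ q, wr w ω p q) → ∃ x, RE 1 ≤ sd x p ∧ Cn (wr w ω) univ p x)
    (hLC : (∀ l ∈ Λ, DeepR (0, 0) (w + 1) (w + 1) (RE 1 + 2) l) → LCond w (RE 1) ω Λ) :
    False := by
  classical
  have hRE : RE 1 = 48 := rfl
  -- supports
  have hsup : ∀ b : α, ∃ N : Finset (ℕ × ℕ), b ∈ Bx → N.card ≤ β ∧ LocIn P S row w D N b ∧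
      ∀ p ∈ N, OutW δ w Om p := by
    intro b
    by_cases hb : b ∈ Bx
    · obtain ⟨N, hN⟩ := (hex b hb).supp
      exact ⟨N, fun _ => hN⟩
    · exact ⟨∅, fun h => absurd h hb⟩
  choose sp hsp using hsup
  obtain ⟨N, hN⟩ : ∃ N, N = (T₀ ∪ A) ∪ Bx.biUnion sp := ⟨_, rfl⟩
  have hNm : ∀ v, v ∈ N ↔ (v ∈ T₀ ∨ v ∈ A) ∨ ∃ b ∈ Bx, v ∈ sp b := by
    intro v
    rw [hN, Finset.mem_union, Finset.mem_union, Finset.mem_biUnion]
  have hyN : ∀ b ∈ Bx, yy b ∈ sp b := fun b hb =>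
    (hsp b hb).2.1 c hc hW _ (hex b hb).y_loc (hex b hb).y_deep
  have hUδ : ∀ v, v ∈ T₀ ∨ v ∈ A → OutW (δ - 1) w Om v := by
    intro v hv
    refine OutW.near ?_ (hTAu v hv)
    have : δ - 1 + 1 = δ := by omega
    rw [this]
    exact hu
  have hNcard : N.card ≤ 2 * β + 4 := by
    have h1 : (Bx.biUnion sp).card ≤ Bx.card * β :=
      Finset.card_biUnion_le_card_mul _ _ _ (fun b hb => (hsp b hb).1)
    have h2 := Finset.card_union_le (T₀ ∪ A) (Bx.biUnion sp)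
    have h3 := Finset.card_union_le T₀ A
    have h4 : Bx.card * β ≤ 2 * β := Nat.mul_le_mul_right _ hBx
    rw [hN]
    omega
  have hNout : ∀ p ∈ insert u N, OutW (δ - 1) w Om p := by
    intro p hp
    rcases Finset.mem_insert.1 hp with rfl | hp
    · exact hu.mono (by omega)
    · rcases (hNm p).1 hp with h1 | ⟨b, hb, h1⟩
      · exact hUδ p h1
      · exact ((hsp b hb).2.2 p h1).mono (by omega)
  have hbS : ∀ b ∈ Bx, b ∉ e '' (A : Set (ℕ × ℕ)) := by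
    rintro b hb ⟨a, ha, rfl⟩
    exact (hex _ hb).cl.2 (hc (he a ha).1)
  have hud := hu.1
  unfold DeepR at hud
  simp only at hud
  have hu20 : 20 ≤ u.1 ∧ u.1 + 20 ≤ w ∧ 20 ≤ u.2 ∧ u.2 + 20 ≤ w := by omega
  have hAV : ∀ v, v ∈ (T₀ : Set (ℕ × ℕ)) ∨ v ∈ A → v ∈ rect 0 0 (w + 1) (w + 1) := by
    intro v hv
    have h1 := hTAu v hv
    rw [sd_le] at h1
    rw [Gad.mem_rct]
    omega
  have hfull : ∀ T' : Set (ℕ × ℕ), (T' ⊆ (A : Set (ℕ × ℕ)) ∨ ∃ a, T' ⊆ {a} ∧ sd a u ≤ 5) →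
      ∃ F, FullB {f | f ∈ c ∧ row f ∉ ω} row
        (rect 0 0 (w + 1) (w + 1) \ ((T₀ : Set (ℕ × ℕ)) ∪ T')) F := by
    intro T' hT'
    refine full_local hW (o := u) (ρ := 8) (by omega) ?_ ?_ ?_
    · intro p q hpq
      have := hnear p q hpq
      omega
    · rintro v (hv | hv)
      · have := hTAu v (Or.inl hv)
        omega
      · rcases hT' with h1 | ⟨a, h1, h2⟩
        · have := hTAu v (Or.inr (h1 hv))
          omega
        · have h3 := h1 hv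
          rw [mem_singleton_iff] at h3
          subst h3
          omega
    · intro x y hxy hxyT
      refine hesc T' ?_ x y ?_ hxyT
      · rcases hT' with h1 | ⟨a, h1, _⟩
        · exact Or.inl h1
        · exact Or.inr ⟨a, h1⟩
      · rw [sd_le] at hxy
        simp only at hxy
        omega
  have hLd : ∀ l ∈ Λ, DeepR (0, 0) (w + 1) (w + 1) (RE 1 + 2) l := by
    intro l hl
    have h1 : l ∈ insert u N := by
      refine Finset.mem_insert_of_mem ((hNm l).2 ?_)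
      rcases (hΛ l).1 hl with h2 | ⟨b, hb, rfl⟩
      · exact Or.inl (Or.inr h2.1)
      · exact Or.inr ⟨b, hb, hyN b hb⟩
    have h2 := ((hNout l h1).mono (δ' := RE 1 + 2) (by omega)).1
    exact h2
  have hlocU : ∀ x ∈ C, x ∉ Bx → x ∉ e '' (A : Set (ℕ × ℕ)) → LocE P S row w D ω U x := by
    intro x hx h1 h2
    rcases hloc x hx with h3 | h3 | h3
    · exact absurd h3 h1
    · exact absurd h3 h2
    · exact h3
  have hlocIn : ∀ x, LocE P S row w D ω U x → ∀ c', c' ⊆ S → WallE c' row w ∅ →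
      ∀ v ∈ LocR P S row c' x, DeepR (0, 0) (w + 1) (w + 1) D v → v ∈ T₀ ∨ v ∈ A := by
    intro x hx c' hc' hW' v hv hvD
    rcases hx with ⟨h1, h2⟩ | ⟨_, _, h3⟩
    · exact hωU x h1 h2 v (locR_row hG.sub h1 hv)
    · exact (hU v).1 (h3 c' hc' hW' v hv hvD)
  obtain ⟨Z, hZ⟩ := conf_of_circ hG hD (β := 2 * β + 4) (u := u) hu20 hc hW (ω := ω)
    (T₀ := (T₀ : Set (ℕ × ℕ))) (A := A) hnear
    (fun f hf h1 v hv => hωU f hf h1 v hv) (fun f hf v hv h1 => hT₀ f hf v hv h1)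
    (fun a ha h1 => hdT a ha h1) hAV hfull he hC hz hzO hind
    (by
      intro x hx hxO
      by_cases h1 : x ∈ Bx
      · exact ⟨(hex x h1).cl.1, fun h2 => absurd h2 (hex x h1).cl.2⟩
      · rcases hlocU x hx h1 hxO with ⟨h2, h3⟩ | ⟨h2, h3, _⟩
        · exact ⟨P.subset_closure _ hG.sub h2, fun _ => h3⟩
        · exact ⟨h2, fun h4 => absurd h4 h3⟩)
    (Yv := Bx.image yy)
    (by
      intro y hy
      obtain ⟨b, hb, rfl⟩ := Finset.mem_image.1 hy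
      refine ⟨b, hBC b hb, hbS b hb, (hex b hb).y_loc, ?_⟩
      intro x hx hxO hxb hcon
      by_cases h1 : x ∈ Bx
      · rcases (hex x h1).loc _ hcon (hex b hb).y_deep with h2 | h2
        · exact (hex b hb).y_out h2
        · exact hxb (hyy b hb x h1 h2).symm
      · have h2 := hlocIn x (hlocU x hx h1 hxO) c hc hW _ hcon (hex b hb).y_deep
        exact (hex b hb).y_out ((hU _).2 h2))
    (by
      intro x hx hxO v hv hvD
      by_cases h1 : x ∈ Bx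
      · rcases (hex x h1).loc v hv hvD with h2 | h2
        · rcases (hU v).1 h2 with h3 | h3
          · exact Or.inl h3
          · exact Or.inr (Or.inl h3)
        · exact Or.inr (Or.inr (Finset.mem_image.2 ⟨x, h1, h2.symm⟩))
      · rcases hlocIn x (hlocU x hx h1 hxO) c hc hW v hv hvD with h3 | h3
        · exact Or.inl h3
        · exact Or.inr (Or.inl h3))
    (N := N) (Λ := Λ) hNcard
    (by
      intro x hx hxO c' hc' hW' v hv hvD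
      rw [hNm]
      by_cases h1 : x ∈ Bx
      · exact Or.inr ⟨x, h1, (hsp x h1).2.1 c' hc' hW' v hv hvD⟩
      · exact Or.inl (hlocIn x (hlocU x hx h1 hxO) c' hc' hW' v hv hvD))
    (fun a ha => (hNm a).2 (Or.inl (Or.inr ha)))
    (by
      intro y hy
      obtain ⟨b, hb, rfl⟩ := Finset.mem_image.1 hy
      exact (hNm _).2 (Or.inr ⟨b, hb, hyN b hb⟩))
    (by
      intro v
      rw [hΛ v, Finset.mem_image])
    hΛc hHC (hLC hLd)
  refine hno u ω Z z c N Λ (fun p hp => ?_) hZ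
  have h1 := (hNout p hp).mono (δ' := δ₀) (by omega)
  exact h1

lemma wadj_sd {p q : ℕ × ℕ} (h : wadj p q) : sd p q ≤ 1 ∧ sd q p ≤ 1 := by
  unfold wadj at h
  rw [sd_le, sd_le]
  omega

/-- the rows at `u` -/
def ωS (u : ℕ × ℕ) : Set (Sym2 (ℕ × ℕ)) := {a | ∃ v, wadj u v ∧ a = s(u, v)}

lemma mem_ωS {u p q : ℕ × ℕ} (h : wadj p q) : s(p, q) ∈ ωS u ↔ p = u ∨ q = u := by
  constructor
  · rintro ⟨v, _, hv⟩
    rw [Sym2.eq_iff] at hv
    rcases hv with ⟨h1, _⟩ | ⟨_, h1⟩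
    · exact Or.inl h1
    · exact Or.inr h1
  · rintro (rfl | rfl)
    · exact ⟨q, h, rfl⟩
    · exact ⟨p, wadj_swap h, Sym2.eq_swap⟩

lemma ωS_sub {u : ℕ × ℕ} {a : Sym2 (ℕ × ℕ)} (h : a ∈ ωS u) : u ∈ a := by
  obtain ⟨v, _, rfl⟩ := h
  exact Sym2.mem_mk_left _ _

lemma nb3_mem {u v₁ v₂ v₃ q : ℕ × ℕ} (hu : 1 ≤ u.1 ∧ 1 ≤ u.2) (h : Nb3 u v₁ v₂ v₃)
    (hq : wadj u q) : q = v₁ ∨ q = v₂ ∨ q = v₃ := by
  classical
  obtain ⟨h1, h2, h3, h12, h13, h23⟩ := h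
  have hsub : ({v₁, v₂, v₃} : Finset (ℕ × ℕ)) ⊆ {(u.1 + 1, u.2), (u.1 - 1, u.2), vn u} := by
    intro x hx
    simp only [Finset.mem_insert, Finset.mem_singleton] at hx ⊢
    rcases hx with rfl | rfl | rfl
    · exact wadj_nb hu h1
    · exact wadj_nb hu h2
    · exact wadj_nb hu h3
  have hc : ({v₁, v₂, v₃} : Finset (ℕ × ℕ)).card = 3 := by
    rw [Finset.card_insert_of_notMem, Finset.card_pair h23]
    simp only [Finset.mem_insert, Finset.mem_singleton, not_or]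
    exact ⟨h12, h13⟩
  have he := Finset.eq_of_subset_of_card_le hsub (by rw [hc]; exact Finset.card_le_three)
  have hq' : q ∈ ({(u.1 + 1, u.2), (u.1 - 1, u.2), vn u} : Finset (ℕ × ℕ)) := by
    simp only [Finset.mem_insert, Finset.mem_singleton]
    exact wadj_nb hu hq
  rw [← he] at hq'
  simpa only [Finset.mem_insert, Finset.mem_singleton] using hq'

lemma RunR.mono {ω ω' : Set (Sym2 (ℕ × ℕ))} {T : Set (ℕ × ℕ)} {x y : ℕ} (h : RunR ω T x y)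
    (hω : ω' ⊆ ω) : RunR ω' T x y := fun x' hx' => ⟨(h x' hx').1, fun h1 => (h x' hx').2 (hω h1)⟩

lemma RunL.mono {ω ω' : Set (Sym2 (ℕ × ℕ))} {T : Set (ℕ × ℕ)} {x y : ℕ} (h : RunL ω T x y)
    (hω : ω' ⊆ ω) : RunL ω' T x y := fun x' hx' => ⟨(h x' hx').1, fun h1 => (h x' hx').2 (hω h1)⟩

/-- the ends at the neighbours -/
lemma star_ends {u v₁ v₂ v₃ : ℕ × ℕ} (hnb : Nb3 u v₁ v₂ v₃) {c : Set α}
    (hW : WallE c row w ∅) {o₁ o₂ o₃ : α} (h₁ : o₁ ∈ c ∧ v₁ ∈ row o₁ ∧ u ∉ row o₁)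
    (h₂ : o₂ ∈ c ∧ v₂ ∈ row o₂ ∧ u ∉ row o₂) (h₃ : o₃ ∈ c ∧ v₃ ∈ row o₃ ∧ u ∉ row o₃) :
    ∃ e : ℕ × ℕ → α, e v₁ = o₁ ∧ e v₂ = o₂ ∧ e v₃ = o₃ ∧
      ∀ a ∈ ({v₁, v₂, v₃} : Finset (ℕ × ℕ)), e a ∈ c ∧ a ∈ row (e a) ∧ row (e a) ∉ ωS u ∧
        ∀ b ∈ ({v₁, v₂, v₃} : Finset (ℕ × ℕ)), b ≠ a → b ∉ row (e a) := by
  classical
  obtain ⟨h1, h2, h3, h12, h13, h23⟩ := hnb
  obtain ⟨e, he⟩ : ∃ e : ℕ × ℕ → α, e = fun a => if a = v₁ then o₁ else if a = v₂ then o₂ else o₃ :=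
    ⟨_, rfl⟩
  have e1 : e v₁ = o₁ := by rw [he]; simp
  have e2 : e v₂ = o₂ := by rw [he]; simp [h12.symm]
  have e3 : e v₃ = o₃ := by rw [he]; simp [h13.symm, h23.symm]
  have hkey : ∀ a b o, wadj u a → wadj u b → b ≠ a → o ∈ c → a ∈ row o → b ∉ row o := by
    intro a b o ha hb hne hoc hao hbo
    obtain ⟨p, q, hpq, hw, _, _⟩ := hW.mem o hoc
    rw [hpq, Sym2.mem_iff] at hao hbo
    have k1 := wadj_par' ha
    have k2 := wadj_par' hb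
    have k3 := wadj_par' hw
    rcases hao with rfl | rfl <;> rcases hbo with rfl | rfl
    · exact hne rfl
    · omega
    · omega
    · exact hne rfl
  refine ⟨e, e1, e2, e3, ?_⟩
  intro a ha
  simp only [Finset.mem_insert, Finset.mem_singleton] at ha
  have hadj : ∀ b ∈ ({v₁, v₂, v₃} : Finset (ℕ × ℕ)), wadj u b := by
    intro b hb
    simp only [Finset.mem_insert, Finset.mem_singleton] at hb
    rcases hb with rfl | rfl | rfl
    · exact h1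
    · exact h2
    · exact h3
  rcases ha with rfl | rfl | rfl
  · rw [e1]
    exact ⟨h₁.1, h₁.2.1, fun h => h₁.2.2 (ωS_sub h), fun b hb hne =>
      hkey _ b _ h1 (hadj b hb) hne h₁.1 h₁.2.1⟩
  · rw [e2]
    exact ⟨h₂.1, h₂.2.1, fun h => h₂.2.2 (ωS_sub h), fun b hb hne =>
      hkey _ b _ h2 (hadj b hb) hne h₂.1 h₂.2.1⟩
  · rw [e3]
    exact ⟨h₃.1, h₃.2.1, fun h => h₃.2.2 (ωS_sub h), fun b hb hne =>
      hkey _ b _ h3 (hadj b hb) hne h₃.1 h₃.2.1⟩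

lemma fstar_eq (hmem : ∀ e ∈ S, ∃ p q, row e = s(p, q) ∧ wadj p q) (c : Set α)
    (u v₁ v₂ v₃ : ℕ × ℕ) : FStar S row c u v₁ v₂ v₃ =
      (S \ {f | row f ∈ ωS u}) \ {f | f ∈ c ∧ ∃ a ∈ ({v₁, v₂, v₃} : Finset (ℕ × ℕ)), a ∈ row f} := by
  ext f
  unfold FStar
  simp only [mem_sdiff, mem_ofPred_eq, Finset.mem_insert, Finset.mem_singleton,
    exists_eq_or_imp, exists_eq_left]
  constructor
  · rintro ⟨⟨h1, h2⟩, h3⟩
    exact ⟨⟨h1, fun h4 => h2 (ωS_sub h4)⟩, h3⟩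
  · rintro ⟨⟨h1, h2⟩, h3⟩
    refine ⟨⟨h1, fun h4 => h2 ?_⟩, h3⟩
    obtain ⟨p, q, hpq, hw⟩ := hmem f h1
    rw [hpq] at h4 ⊢
    rw [mem_ωS hw]
    rw [Sym2.mem_iff] at h4
    rcases h4 with h4 | h4
    · exact Or.inl h4.symm
    · exact Or.inr h4.symm

/-- the ends are independent in the star matroid -/
theorem star_ends_indep [P.Finite] (hG : RWx P S row w) {u v₁ v₂ v₃ : ℕ × ℕ}
    (hnb : Nb3 u v₁ v₂ v₃) {c : Set α} (hc : c ⊆ S)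
    (hW : WallE c row w ∅) {o₁ o₂ o₃ : α} (h₁ : o₁ ∈ c ∧ v₁ ∈ row o₁ ∧ u ∉ row o₁)
    (h₂ : o₂ ∈ c ∧ v₂ ∈ row o₂ ∧ u ∉ row o₂) (h₃ : o₃ ∈ c ∧ v₃ ∈ row o₃ ∧ u ∉ row o₃) :
    (P ／ FStar S row c u v₁ v₂ v₃).Indep {o₁, o₂, o₃} ∧ o₁ ≠ o₂ ∧ o₁ ≠ o₃ ∧ o₂ ≠ o₃ := by
  classical
  obtain ⟨e, e1, e2, e3, he⟩ := star_ends hnb hW h₁ h₂ h₃
  have h := ends_indep hG hc hW he
  rw [← fstar_eq (fun f hf => by
    obtain ⟨p, q, h1, h2, _⟩ := hG.mem f hf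
    exact ⟨p, q, h1, h2⟩) c u v₁ v₂ v₃] at h
  have him : e '' (({v₁, v₂, v₃} : Finset (ℕ × ℕ)) : Set (ℕ × ℕ)) = {o₁, o₂, o₃} := by
    rw [Finset.coe_insert, Finset.coe_insert, Finset.coe_singleton, image_insert_eq,
      image_insert_eq, image_singleton, e1, e2, e3]
  rw [him] at h
  obtain ⟨h1, h2, h3, h12, h13, h23⟩ := hnb
  have k1 := (he v₁ (by simp)).2.2.2
  have k2 := (he v₂ (by simp)).2.2.2
  rw [e1] at k1
  rw [e2] at k2
  refine ⟨h, ?_, ?_, ?_⟩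
  · rintro rfl
    exact k1 v₂ (by simp) h12.symm h₂.2.1
  · rintro rfl
    exact k1 v₃ (by simp) h13.symm h₃.2.1
  · rintro rfl
    exact k2 v₃ (by simp) h23.symm h₃.2.1

/-- **No circuits in the star matroid.** -/
theorem star_false [P.Finite] (hG : RWx P S row w) {D β δ₀ δ : ℕ} (hD : 4 ≤ D)
    (hδ : δ₀ + D + 60 ≤ δ) {Om : Finset (ℕ × ℕ)} (hno : NoConf P S row w D (2 * β + 4) δ₀ Om)
    {u v₁ v₂ v₃ : ℕ × ℕ} (hnb : Nb3 u v₁ v₂ v₃) (hu : OutW δ w Om u) {c : Set α} (hc : c ⊆ S)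
    (hW : WallE c row w ∅) {o₁ o₂ o₃ : α} (h₁ : o₁ ∈ c ∧ v₁ ∈ row o₁ ∧ u ∉ row o₁)
    (h₂ : o₂ ∈ c ∧ v₂ ∈ row o₂ ∧ u ∉ row o₂) (h₃ : o₃ ∈ c ∧ v₃ ∈ row o₃ ∧ u ∉ row o₃)
    {C : Set α} (hC : (P ／ FStar S row c u v₁ v₂ v₃).IsCircuit C) {z : α} (hz : z ∈ C)
    (hzO : z ≠ o₁ ∧ z ≠ o₂ ∧ z ≠ o₃)
    (hind : (P ／ FStar S row c u v₁ v₂ v₃).Indep ((C \ {z}) ∪ {o₁, o₂, o₃}))
    {Bx : Finset α} (hBx : Bx.card ≤ 2) (hBC : ∀ b ∈ Bx, b ∈ C) {yy : α → ℕ × ℕ}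
    (hyy : ∀ b ∈ Bx, ∀ b' ∈ Bx, yy b = yy b' → b = b')
    (hex : ∀ b ∈ Bx, ExitE P S row w D β δ Om {u, v₁, v₂, v₃} c (yy b) b)
    (hloc : ∀ x ∈ C, x ∈ Bx ∨ x = o₁ ∨ x = o₂ ∨ x = o₃ ∨
      LocE P S row w D {a | u ∈ a} {u, v₁, v₂, v₃} x)
    {Λ : Finset (ℕ × ℕ)} (hΛ : ∀ v, v ∈ Λ ↔ (v = v₁ ∧ o₁ ∈ C) ∨ (v = v₂ ∧ o₂ ∈ C) ∨
      (v = v₃ ∧ o₃ ∈ C) ∨ ∃ b ∈ Bx, yy b = v)
    (hΛc : 3 ≤ Λ.card ∧ Λ.card ≤ 4)
    (hLC : ∀ ω : Set (Sym2 (ℕ × ℕ)), (∀ p q, wadj p q → (s(p, q) ∈ ω ↔ p = u ∨ q = u)) →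
      (∀ l ∈ Λ, DeepR (0, 0) (w + 1) (w + 1) (RE 1 + 2) l) → LCond w (RE 1) ω Λ) : False := by
  classical
  have hud := hu.1
  unfold DeepR at hud
  simp only at hud
  have hu1 : 1 ≤ u.1 ∧ 1 ≤ u.2 := by omega
  obtain ⟨e, e1, e2, e3, he⟩ := star_ends hnb hW h₁ h₂ h₃
  have hmem : ∀ f ∈ S, ∃ p q, row f = s(p, q) ∧ wadj p q := by
    intro f hf
    obtain ⟨p, q, h1, h2, _⟩ := hG.mem f hf
    exact ⟨p, q, h1, h2⟩
  rw [fstar_eq hmem] at hC hind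
  have hnb' := hnb
  obtain ⟨a1, a2, a3, h12, h13, h23⟩ := hnb'
  have him : e '' (({v₁, v₂, v₃} : Finset (ℕ × ℕ)) : Set (ℕ × ℕ)) = {o₁, o₂, o₃} := by
    rw [Finset.coe_insert, Finset.coe_insert, Finset.coe_singleton, image_insert_eq,
      image_insert_eq, image_singleton, e1, e2, e3]
  have hne : ∀ q, wadj u q → q ≠ u := by
    rintro q hq rfl
    have := wadj_par' hq
    omega
  have hAm : ∀ v, v ∈ ({v₁, v₂, v₃} : Finset (ℕ × ℕ)) ↔ v = v₁ ∨ v = v₂ ∨ v = v₃ := by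
    intro v
    simp only [Finset.mem_insert, Finset.mem_singleton]
  have hAadj : ∀ v, v ∈ ({v₁, v₂, v₃} : Finset (ℕ × ℕ)) → wadj u v := by
    intro v hv
    rcases (hAm v).1 hv with rfl | rfl | rfl
    · exact a1
    · exact a2
    · exact a3
  have hstar : ({v₁, v₂, v₃} : Set (ℕ × ℕ)) ⊆ star u := by
    have : ∀ v, wadj u v → v ∈ star u := by
      intro v hv
      unfold star
      rcases wadj_nb hu1 hv with h | h | h <;> rw [h] <;> simp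
    rintro v (rfl | rfl | rfl)
    · exact this _ a1
    · exact this _ a2
    · exact this _ a3
  rw [← him] at hind
  refine circ_false hG hD hδ hno hu hc hW (ω := ωS u) (T₀ := {u}) (A := {v₁, v₂, v₃})
    (U := {u, v₁, v₂, v₃}) ?_ ?_ ?_ ?_ ?_ ?_ ?_ he hC hz ?_ hind hBx hBC hyy ?_ hex ?_
    (Λ := Λ) ?_ hΛc ?_ ?_
  · have h1 : ({v₁, v₂, v₃} : Finset (ℕ × ℕ)).card ≤ 3 := Finset.card_le_three
    rw [Finset.card_singleton]
    omega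
  · rintro v (hv | hv)
    · rw [Finset.mem_singleton] at hv
      subst hv
      rw [sd_le]
      omega
    · exact (wadj_sd (hAadj v hv)).2
  · rintro p q ⟨v, hv, h1⟩
    have h2 := wadj_sd hv
    have h3 : sd u u ≤ 1 := by
      rw [sd_le]
      omega
    rw [Sym2.eq_iff] at h1
    rcases h1 with ⟨rfl, rfl⟩ | ⟨rfl, rfl⟩
    · exact ⟨h3, h2.2⟩
    · exact ⟨h2.2, h3⟩
  · rintro f hf ⟨v, hv, h1⟩ v' hv'
    rw [h1, Sym2.mem_iff] at hv'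
    rcases hv' with rfl | rfl
    · exact Or.inl (Finset.mem_singleton_self _)
    · exact Or.inr ((hAm _).2 (nb3_mem hu1 hnb hv))
  · intro f hf v hv hvf
    rw [Finset.mem_singleton] at hv
    subst hv
    obtain ⟨p, q, hpq, hw⟩ := hmem f hf
    rw [hpq] at hvf ⊢
    rw [mem_ωS hw]
    rw [Sym2.mem_iff] at hvf
    rcases hvf with h4 | h4
    · exact Or.inl h4.symm
    · exact Or.inr h4.symm
  · intro a ha h1
    rw [Finset.mem_singleton] at h1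
    exact hne a (hAadj a ha) h1
  · intro T' hT' x y hy hxy
    rw [Finset.coe_singleton] at hxy ⊢
    have h1 := star_esc (x₀ := u.1) (y₀ := u.2) hu1 (T := {u} ∪ T') ?_ (Or.inl rfl) x y hy hxy
    · rcases h1 with h1 | h1 | ⟨h1, h2, h3⟩
      · exact Or.inl (h1.mono fun a ha => ωS_sub ha)
      · exact Or.inr (Or.inl (h1.mono fun a ha => ωS_sub ha))
      · exact Or.inr (Or.inr ⟨fun h4 => h1 (ωS_sub h4), h2, h3.mono fun a ha => ωS_sub ha⟩)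
    · rcases hT' with h2 | ⟨a, h2⟩
      · left
        rintro v (hv | hv)
        · rw [mem_singleton_iff] at hv
          subst hv
          unfold star
          simp
        · refine hstar ?_
          have := h2 hv
          rw [Finset.mem_coe, hAm] at this
          exact this
      · right
        refine ⟨a, ?_⟩
        rintro v (hv | hv)
        · exact Or.inl hv
        · exact Or.inr (h2 hv)
  · rw [him]
    rintro (h | h | h)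
    · exact hzO.1 h
    · exact hzO.2.1 h
    · exact hzO.2.2 h
  · intro v
    rw [Finset.mem_singleton, hAm]
    simp only [mem_insert_iff, mem_singleton_iff]
  · intro x hx
    rw [him]
    rcases hloc x hx with h | h | h | h | h
    · exact Or.inl h
    · exact Or.inr (Or.inl (Or.inl h))
    · exact Or.inr (Or.inl (Or.inr (Or.inl h)))
    · exact Or.inr (Or.inl (Or.inr (Or.inr h)))
    · refine Or.inr (Or.inr ?_)
      rcases h with ⟨h1, h2⟩ | h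
      · left
        refine ⟨h1, ?_⟩
        obtain ⟨p, q, hpq, hw⟩ := hmem x h1
        rw [mem_ofPred_eq, hpq, Sym2.mem_iff] at h2
        rw [hpq, mem_ωS hw]
        rcases h2 with h4 | h4
        · exact Or.inl h4.symm
        · exact Or.inr h4.symm
      · exact Or.inr h
  · intro v
    rw [hΛ v, hAm]
    constructor
    · rintro (⟨rfl, h⟩ | ⟨rfl, h⟩ | ⟨rfl, h⟩ | h)
      · exact Or.inl ⟨Or.inl rfl, by rw [e1]; exact h⟩
      · exact Or.inl ⟨Or.inr (Or.inl rfl), by rw [e2]; exact h⟩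
      · exact Or.inl ⟨Or.inr (Or.inr rfl), by rw [e3]; exact h⟩
      · exact Or.inr h
    · rintro (⟨rfl | rfl | rfl, h⟩ | h)
      · rw [e1] at h
        exact Or.inl ⟨rfl, h⟩
      · rw [e2] at h
        exact Or.inr (Or.inl ⟨rfl, h⟩)
      · rw [e3] at h
        exact Or.inr (Or.inr (Or.inl ⟨rfl, h⟩))
      · exact Or.inr (Or.inr (Or.inr h))
  · refine hc_star (fun p q h => mem_ωS h) ?_
    have : RE 1 = 48 := rfl
    unfold DeepR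
    simp only
    omega
  · exact hLC _ (fun p q h => mem_ωS h)

lemma frow_eq (c : Set α) (u v : ℕ × ℕ) : FRow S row c u v =
      (S \ {f | row f ∈ ({s(u, v)} : Set (Sym2 (ℕ × ℕ)))}) \
        {f | f ∈ c ∧ ∃ a ∈ ({u, v} : Finset (ℕ × ℕ)), a ∈ row f} := by
  ext f
  unfold FRow
  simp only [mem_sdiff, mem_ofPred_eq, Finset.mem_insert, Finset.mem_singleton,
    exists_eq_or_imp, exists_eq_left, mem_singleton_iff]

/-- the ends of a row -/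
lemma row_ends {u v : ℕ × ℕ} (huv : u ≠ v) {c : Set α} {o₁ o₂ : α}
    (h₁ : o₁ ∈ c ∧ u ∈ row o₁ ∧ v ∉ row o₁) (h₂ : o₂ ∈ c ∧ v ∈ row o₂ ∧ u ∉ row o₂) :
    ∃ e : ℕ × ℕ → α, e u = o₁ ∧ e v = o₂ ∧
      ∀ a ∈ ({u, v} : Finset (ℕ × ℕ)), e a ∈ c ∧ a ∈ row (e a) ∧
        row (e a) ∉ ({s(u, v)} : Set (Sym2 (ℕ × ℕ))) ∧
        ∀ b ∈ ({u, v} : Finset (ℕ × ℕ)), b ≠ a → b ∉ row (e a) := by
  classical
  obtain ⟨e, he⟩ : ∃ e : ℕ × ℕ → α, e = fun a => if a = u then o₁ else o₂ := ⟨_, rfl⟩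
  have e1 : e u = o₁ := by rw [he]; simp
  have e2 : e v = o₂ := by rw [he]; simp [huv.symm]
  refine ⟨e, e1, e2, ?_⟩
  intro a ha
  simp only [Finset.mem_insert, Finset.mem_singleton] at ha
  rcases ha with rfl | rfl
  · rw [e1]
    refine ⟨h₁.1, h₁.2.1, fun h => h₁.2.2 ?_, fun b hb hne => ?_⟩
    · rw [mem_singleton_iff] at h
      rw [h]
      exact Sym2.mem_mk_right _ _
    · simp only [Finset.mem_insert, Finset.mem_singleton] at hb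
      rcases hb with rfl | rfl
      · exact absurd rfl hne
      · exact h₁.2.2
  · rw [e2]
    refine ⟨h₂.1, h₂.2.1, fun h => h₂.2.2 ?_, fun b hb hne => ?_⟩
    · rw [mem_singleton_iff] at h
      rw [h]
      exact Sym2.mem_mk_left _ _
    · simp only [Finset.mem_insert, Finset.mem_singleton] at hb
      rcases hb with rfl | rfl
      · exact h₂.2.2
      · exact absurd rfl hne

/-- **No circuits in the row matroid.** -/
theorem row_false [P.Finite] (hG : RWx P S row w) {D β δ₀ δ : ℕ} (hD : 4 ≤ D)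
    (hδ : δ₀ + D + 60 ≤ δ) {Om : Finset (ℕ × ℕ)} (hno : NoConf P S row w D (2 * β + 4) δ₀ Om)
    {u v : ℕ × ℕ} (huv : wadj u v) (hu : OutW δ w Om u) {c : Set α} (hc : c ⊆ S)
    (hW : WallE c row w ∅) {o₁ o₂ : α} (h₁ : o₁ ∈ c ∧ u ∈ row o₁ ∧ v ∉ row o₁)
    (h₂ : o₂ ∈ c ∧ v ∈ row o₂ ∧ u ∉ row o₂)
    {C : Set α} (hC : (P ／ FRow S row c u v).IsCircuit C) {z : α} (hz : z ∈ C)
    (hzO : z ≠ o₁ ∧ z ≠ o₂)
    (hind : (P ／ FRow S row c u v).Indep ((C \ {z}) ∪ {o₁, o₂}))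
    {Bx : Finset α} (hBx : Bx.card ≤ 2) (hBC : ∀ b ∈ Bx, b ∈ C) {yy : α → ℕ × ℕ}
    (hyy : ∀ b ∈ Bx, ∀ b' ∈ Bx, yy b = yy b' → b = b')
    (hex : ∀ b ∈ Bx, ExitE P S row w D β δ Om {u, v} c (yy b) b)
    (hloc : ∀ x ∈ C, x ∈ Bx ∨ x = o₁ ∨ x = o₂ ∨ LocE P S row w D {s(u, v)} {u, v} x)
    {Λ : Finset (ℕ × ℕ)} (hΛ : ∀ v', v' ∈ Λ ↔ (v' = u ∧ o₁ ∈ C) ∨ (v' = v ∧ o₂ ∈ C) ∨
      ∃ b ∈ Bx, yy b = v')
    (hΛc : 3 ≤ Λ.card ∧ Λ.card ≤ 4)
    (hLC : ∀ ω : Set (Sym2 (ℕ × ℕ)), (∀ p q, wadj p q → s(p, q) ∈ ω → s(p, q) = s(u, v)) →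
      (∀ l ∈ Λ, DeepR (0, 0) (w + 1) (w + 1) (RE 1 + 2) l) → LCond w (RE 1) ω Λ) : False := by
  classical
  have hud := hu.1
  unfold DeepR at hud
  simp only at hud
  have hu1 : 1 ≤ u.1 ∧ 1 ≤ u.2 := by omega
  have hne : u ≠ v := by
    rintro rfl
    have := wadj_par' huv
    omega
  obtain ⟨e, e1, e2, he⟩ := row_ends hne h₁ h₂
  rw [frow_eq] at hC hind
  have him : e '' (({u, v} : Finset (ℕ × ℕ)) : Set (ℕ × ℕ)) = {o₁, o₂} := by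
    rw [Finset.coe_insert, Finset.coe_singleton, image_insert_eq, image_singleton, e1, e2]
  have hAm : ∀ x, x ∈ ({u, v} : Finset (ℕ × ℕ)) ↔ x = u ∨ x = v := by
    intro x
    simp only [Finset.mem_insert, Finset.mem_singleton]
  have hsd := wadj_sd huv
  have hsu : sd u u ≤ 1 := by
    rw [sd_le]
    omega
  rw [← him] at hind
  refine circ_false hG hD hδ hno hu hc hW (ω := {s(u, v)}) (T₀ := ∅) (A := {u, v})
    (U := {u, v}) ?_ ?_ ?_ ?_ ?_ ?_ ?_ he hC hz ?_ hind hBx hBC hyy ?_ hex ?_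
    (Λ := Λ) ?_ hΛc ?_ ?_
  · have h1 : ({u, v} : Finset (ℕ × ℕ)).card ≤ 2 := Finset.card_le_two
    rw [Finset.card_empty]
    omega
  · rintro x (hx | hx)
    · exact absurd hx (Finset.notMem_empty _)
    · rcases (hAm x).1 hx with rfl | rfl
      · exact hsu
      · exact hsd.2
  · intro p q h1
    rw [mem_singleton_iff, Sym2.eq_iff] at h1
    rcases h1 with ⟨rfl, rfl⟩ | ⟨rfl, rfl⟩
    · exact ⟨hsu, hsd.2⟩
    · exact ⟨hsd.2, hsu⟩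
  · intro f hf h1 x hx
    rw [mem_singleton_iff] at h1
    rw [h1, Sym2.mem_iff] at hx
    exact Or.inr ((hAm x).2 hx)
  · intro f hf x hx
    exact absurd hx (Finset.notMem_empty _)
  · intro a ha h1
    exact absurd h1 (Finset.notMem_empty _)
  · intro T' hT' x y hy hxy
    rw [Finset.coe_empty, empty_union] at hxy ⊢
    refine row_esc huv ?_ x y hy hxy
    rcases hT' with h2 | ⟨a, h2⟩
    · left
      intro x hx
      have := h2 hx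
      rw [Finset.mem_coe, hAm] at this
      exact this
    · exact Or.inr ⟨a, h2⟩
  · rw [him]
    rintro (h | h)
    · exact hzO.1 h
    · exact hzO.2 h
  · intro x
    rw [hAm]
    simp only [mem_insert_iff, mem_singleton_iff, Finset.notMem_empty, false_or]
  · intro x hx
    rw [him]
    rcases hloc x hx with h | h | h | h
    · exact Or.inl h
    · exact Or.inr (Or.inl (Or.inl h))
    · exact Or.inr (Or.inl (Or.inr h))
    · exact Or.inr (Or.inr h)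
  · intro x
    rw [hΛ x, hAm]
    constructor
    · rintro (⟨rfl, h⟩ | ⟨rfl, h⟩ | h)
      · exact Or.inl ⟨Or.inl rfl, by rw [e1]; exact h⟩
      · exact Or.inl ⟨Or.inr rfl, by rw [e2]; exact h⟩
      · exact Or.inr h
    · rintro (⟨rfl | rfl, h⟩ | h)
      · rw [e1] at h
        exact Or.inl ⟨rfl, h⟩
      · rw [e2] at h
        exact Or.inr (Or.inl ⟨rfl, h⟩)
      · exact Or.inr (Or.inr h)
  · have h0 : ∀ p q, wadj p q → s(p, q) ∈ ({s(u, v)} : Set (Sym2 (ℕ × ℕ))) →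
        s(p, q) = s(u, v) := fun p q _ h => h
    refine hc_row h0 ?_
    have : RE 1 = 48 := rfl
    unfold DeepR
    simp only
    omega
  · exact hLC _ (fun p q _ h => h)

/-! ### IN0, IN1, IN2 -/

/-- **IN0.** -/
theorem in0 [P.Finite] (hG : RWx P S row w) {D β δ₀ δ : ℕ} (hD : 4 ≤ D)
    (hδ : δ₀ + D + 60 ≤ δ) {Om : Finset (ℕ × ℕ)} (hno : NoConf P S row w D (2 * β + 4) δ₀ Om)
    {c : Set α} (hc : c ⊆ S) (hW : WallE c row w ∅)
    {u v₁ v₂ v₃ : ℕ × ℕ} (hnb : Nb3 u v₁ v₂ v₃) (hu : OutW δ w Om u)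
    {o₁ o₂ o₃ : α} (h₁ : o₁ ∈ c ∧ v₁ ∈ row o₁ ∧ u ∉ row o₁)
    (h₂ : o₂ ∈ c ∧ v₂ ∈ row o₂ ∧ u ∉ row o₂) (h₃ : o₃ ∈ c ∧ v₃ ∈ row o₃ ∧ u ∉ row o₃)
    {C : Set α} (hC : (P ／ FStar S row c u v₁ v₂ v₃).IsCircuit C) (k₁ : o₁ ∈ C) (k₂ : o₂ ∈ C)
    (k₃ : o₃ ∈ C) (hloc : ∀ x ∈ C, x = o₁ ∨ x = o₂ ∨ x = o₃ ∨
      LocE P S row w D {a | u ∈ a} {u, v₁, v₂, v₃} x) : False := by
  classical
  have hud := hu.1
  unfold DeepR at hud
  simp only at hud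
  have hu1 : 1 ≤ u.1 ∧ 1 ≤ u.2 := by omega
  obtain ⟨hOi, o12, o13, o23⟩ := star_ends_indep hG hnb hc hW h₁ h₂ h₃
  obtain ⟨z, hz, hzO⟩ : ∃ z ∈ C, z ∉ ({o₁, o₂, o₃} : Set α) := by
    by_contra hcon
    push Not at hcon
    exact hC.dep.not_indep (hOi.subset hcon)
  have hnb' := hnb
  obtain ⟨a1, a2, a3, h12, h13, h23⟩ := hnb'
  have hsub : ((C \ {z}) ∪ {o₁, o₂, o₃} : Set α) = C \ {z} := by
    refine union_eq_left.2 ?_
    rintro x (rfl | rfl | rfl)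
    · exact ⟨k₁, fun h => hzO (h ▸ Or.inl rfl)⟩
    · exact ⟨k₂, fun h => hzO (h ▸ Or.inr (Or.inl rfl))⟩
    · exact ⟨k₃, fun h => hzO (h ▸ Or.inr (Or.inr rfl))⟩
  have hcard : ({v₁, v₂, v₃} : Finset (ℕ × ℕ)).card = 3 := by
    rw [Finset.card_insert_of_notMem, Finset.card_pair h23]
    simp only [Finset.mem_insert, Finset.mem_singleton, not_or]
    exact ⟨h12, h13⟩
  refine star_false hG hD hδ hno hnb hu hc hW h₁ h₂ h₃ hC hz
    ⟨fun h => hzO (Or.inl h), fun h => hzO (Or.inr (Or.inl h)), fun h => hzO (Or.inr (Or.inr h))⟩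
    (by rw [hsub]; exact hC.sdiff_singleton_indep hz) (Bx := ∅) (by simp) (by simp)
    (yy := fun _ => u) (by simp) (by simp) (fun x hx => Or.inr (hloc x hx))
    (Λ := {v₁, v₂, v₃}) ?_ (by omega) ?_
  · intro v
    simp only [Finset.mem_insert, Finset.mem_singleton, Finset.notMem_empty, false_and,
      exists_false, or_false, k₁, k₂, k₃, and_true]
  · intro ω hω hdp
    exact lc_star3 hu1 hω a1 a2 a3 h12 h13 h23 hdp

lemma fstar_swap12 (c : Set α) (u v₁ v₂ v₃ : ℕ × ℕ) :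
    FStar S row c u v₁ v₂ v₃ = FStar S row c u v₂ v₁ v₃ := by
  unfold FStar
  ext f
  simp only [mem_sdiff, mem_ofPred_eq]
  tauto

lemma fstar_swap23 (c : Set α) (u v₁ v₂ v₃ : ℕ × ℕ) :
    FStar S row c u v₁ v₂ v₃ = FStar S row c u v₁ v₃ v₂ := by
  unfold FStar
  ext f
  simp only [mem_sdiff, mem_ofPred_eq]
  tauto

lemma Nb3.swap12 {u v₁ v₂ v₃ : ℕ × ℕ} (h : Nb3 u v₁ v₂ v₃) : Nb3 u v₂ v₁ v₃ :=
  ⟨h.2.1, h.1, h.2.2.1, h.2.2.2.1.symm, h.2.2.2.2.2, h.2.2.2.2.1⟩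

lemma Nb3.swap23 {u v₁ v₂ v₃ : ℕ × ℕ} (h : Nb3 u v₁ v₂ v₃) : Nb3 u v₁ v₃ v₂ :=
  ⟨h.1, h.2.2.1, h.2.1, h.2.2.2.2.1, h.2.2.2.1, h.2.2.2.2.2.symm⟩

/-- IN1, the third end is not spanned -/
theorem in1_two [P.Finite] (hG : RWx P S row w) {D β δ₀ δ : ℕ} (hD : 4 ≤ D)
    (hδ : δ₀ + D + 60 ≤ δ) {Om : Finset (ℕ × ℕ)} (hno : NoConf P S row w D (2 * β + 4) δ₀ Om)
    {c : Set α} (hc : c ⊆ S) (hW : WallE c row w ∅)
    {u v₁ v₂ v₃ : ℕ × ℕ} (hnb : Nb3 u v₁ v₂ v₃) (hu : OutW δ w Om u)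
    {o₁ o₂ o₃ : α} (h₁ : o₁ ∈ c ∧ v₁ ∈ row o₁ ∧ u ∉ row o₁)
    (h₂ : o₂ ∈ c ∧ v₂ ∈ row o₂ ∧ u ∉ row o₂) (h₃ : o₃ ∈ c ∧ v₃ ∈ row o₃ ∧ u ∉ row o₃)
    {C : Set α} (hC : (P ／ FStar S row c u v₁ v₂ v₃).IsCircuit C) {y : ℕ × ℕ} {b : α}
    (hb : ExitE P S row w D β δ Om {u, v₁, v₂, v₃} c y b) (hbC : b ∈ C)
    (k₁ : o₁ ∈ C) (k₂ : o₂ ∈ C) (k₃ : o₃ ∉ (P ／ FStar S row c u v₁ v₂ v₃).closure C)
    (hloc : ∀ x ∈ C, x = b ∨ x = o₁ ∨ x = o₂ ∨ x = o₃ ∨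
      LocE P S row w D {a | u ∈ a} {u, v₁, v₂, v₃} x) : False := by
  classical
  have hud := hu.1
  unfold DeepR at hud
  simp only at hud
  have hu1 : 1 ≤ u.1 ∧ 1 ≤ u.2 := by omega
  obtain ⟨hOi, o12, o13, o23⟩ := star_ends_indep hG hnb hc hW h₁ h₂ h₃
  have hnb' := hnb
  obtain ⟨a1, a2, a3, h12, h13, h23⟩ := hnb'
  have hbo : ∀ o, o ∈ c → b ≠ o := by
    rintro o ho rfl
    exact hb.cl.2 (hc ho)
  have hsub : ((C \ {b}) ∪ {o₁, o₂, o₃} : Set α) = insert o₃ (C \ {b}) := by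
    ext x
    simp only [mem_union, mem_sdiff, mem_singleton_iff, mem_insert_iff]
    constructor
    · rintro (h | rfl | rfl | rfl)
      · exact Or.inr h
      · exact Or.inr ⟨k₁, (hbo _ h₁.1).symm⟩
      · exact Or.inr ⟨k₂, (hbo _ h₂.1).symm⟩
      · exact Or.inl rfl
    · rintro (rfl | h)
      · exact Or.inr (Or.inr (Or.inr rfl))
      · exact Or.inl h
  have ho3C : o₃ ∉ C := fun h =>
    k₃ ((P ／ FStar S row c u v₁ v₂ v₃).mem_closure_of_mem h hC.subset_ground)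
  have hind : (P ／ FStar S row c u v₁ v₂ v₃).Indep (insert o₃ (C \ {b})) := by
    have h1 := hC.sdiff_singleton_indep hbC
    rw [← hC.closure_sdiff_singleton_eq b] at k₃
    exact (h1.notMem_closure_iff_of_notMem (fun h => ho3C h.1)
      (hOi.subset_ground (Or.inr (Or.inr rfl)))).1 k₃
  have hyU := hb.y_out
  simp only [mem_insert_iff, mem_singleton_iff, not_or] at hyU
  have hynadj : ¬ wadj u y := by
    intro h
    rcases nb3_mem hu1 hnb h with h | h | h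
    · exact hyU.2.1 h
    · exact hyU.2.2.1 h
    · exact hyU.2.2.2 h
  have hcard : ({v₁, v₂, y} : Finset (ℕ × ℕ)).card = 3 := by
    rw [Finset.card_insert_of_notMem, Finset.card_pair (Ne.symm hyU.2.2.1)]
    simp only [Finset.mem_insert, Finset.mem_singleton, not_or]
    exact ⟨h12, Ne.symm hyU.2.1⟩
  refine star_false hG hD hδ hno hnb hu hc hW h₁ h₂ h₃ hC hbC
    ⟨hbo _ h₁.1, hbo _ h₂.1, hbo _ h₃.1⟩
    (by rw [hsub]; exact hind) (Bx := {b}) (by simp) (by simpa using hbC)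
    (yy := fun _ => y) (by simp) (by simpa using hb) ?_
    (Λ := {v₁, v₂, y}) ?_ (by omega) ?_
  · intro x hx
    rcases hloc x hx with h | h
    · exact Or.inl (by simpa using h)
    · exact Or.inr h
  · intro v
    simp only [Finset.mem_insert, Finset.mem_singleton, k₁, k₂, ho3C, and_true, and_false,
      false_or, exists_eq_left]
    constructor
    · rintro (h | h | h)
      · exact Or.inl h
      · exact Or.inr (Or.inl h)
      · exact Or.inr (Or.inr h.symm)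
    · rintro (h | h | h)
      · exact Or.inl h
      · exact Or.inr (Or.inl h)
      · exact Or.inr (Or.inr h.symm)
  · intro ω hω hdp
    exact lc_star21 hu1 hω a1 a2 h12 hyU.1 hynadj hdp

/-- IN1, three ends and the exit -/
theorem in1_three [P.Finite] (hG : RWx P S row w) {D β δ₀ δ : ℕ} (hD : 4 ≤ D)
    (hδ : δ₀ + D + 60 ≤ δ) {Om : Finset (ℕ × ℕ)} (hno : NoConf P S row w D (2 * β + 4) δ₀ Om)
    {c : Set α} (hc : c ⊆ S) (hW : WallE c row w ∅)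
    {u v₁ v₂ v₃ : ℕ × ℕ} (hnb : Nb3 u v₁ v₂ v₃) (hu : OutW δ w Om u)
    {o₁ o₂ o₃ : α} (h₁ : o₁ ∈ c ∧ v₁ ∈ row o₁ ∧ u ∉ row o₁)
    (h₂ : o₂ ∈ c ∧ v₂ ∈ row o₂ ∧ u ∉ row o₂) (h₃ : o₃ ∈ c ∧ v₃ ∈ row o₃ ∧ u ∉ row o₃)
    {C : Set α} (hC : (P ／ FStar S row c u v₁ v₂ v₃).IsCircuit C) {y : ℕ × ℕ} {b : α}
    (hb : ExitE P S row w D β δ Om {u, v₁, v₂, v₃} c y b) (hbC : b ∈ C)
    (k₁ : o₁ ∈ C) (k₂ : o₂ ∈ C) (k₃ : o₃ ∈ C)
    (hloc : ∀ x ∈ C, x = b ∨ x = o₁ ∨ x = o₂ ∨ x = o₃ ∨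
      LocE P S row w D {a | u ∈ a} {u, v₁, v₂, v₃} x) : False := by
  classical
  have hud := hu.1
  unfold DeepR at hud
  simp only at hud
  have hu1 : 1 ≤ u.1 ∧ 1 ≤ u.2 := by omega
  have hnb' := hnb
  obtain ⟨a1, a2, a3, h12, h13, h23⟩ := hnb'
  have hbo : ∀ o, o ∈ c → b ≠ o := by
    rintro o ho rfl
    exact hb.cl.2 (hc ho)
  have hsub : ((C \ {b}) ∪ {o₁, o₂, o₃} : Set α) = C \ {b} := by
    refine union_eq_left.2 ?_
    rintro x (rfl | rfl | rfl)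
    · exact ⟨k₁, (hbo _ h₁.1).symm⟩
    · exact ⟨k₂, (hbo _ h₂.1).symm⟩
    · exact ⟨k₃, (hbo _ h₃.1).symm⟩
  have hyU := hb.y_out
  simp only [mem_insert_iff, mem_singleton_iff, not_or] at hyU
  have hynadj : ¬ wadj u y := by
    intro h
    rcases nb3_mem hu1 hnb h with h | h | h
    · exact hyU.2.1 h
    · exact hyU.2.2.1 h
    · exact hyU.2.2.2 h
  have hcard : ({v₁, v₂, v₃, y} : Finset (ℕ × ℕ)).card = 4 := by
    rw [Finset.card_insert_of_notMem, Finset.card_insert_of_notMem,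
      Finset.card_pair (Ne.symm hyU.2.2.2)]
    · simp only [Finset.mem_insert, Finset.mem_singleton, not_or]
      exact ⟨h23, Ne.symm hyU.2.2.1⟩
    · simp only [Finset.mem_insert, Finset.mem_singleton, not_or]
      exact ⟨h12, h13, Ne.symm hyU.2.1⟩
  refine star_false hG hD hδ hno hnb hu hc hW h₁ h₂ h₃ hC hbC
    ⟨hbo _ h₁.1, hbo _ h₂.1, hbo _ h₃.1⟩
    (by rw [hsub]; exact hC.sdiff_singleton_indep hbC) (Bx := {b}) (by simp) (by simpa using hbC)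
    (yy := fun _ => y) (by simp) (by simpa using hb) ?_
    (Λ := {v₁, v₂, v₃, y}) ?_ (by omega) ?_
  · intro x hx
    rcases hloc x hx with h | h
    · exact Or.inl (by simpa using h)
    · exact Or.inr h
  · intro v
    simp only [Finset.mem_insert, Finset.mem_singleton, k₁, k₂, k₃, and_true,
      exists_eq_left]
    constructor
    · rintro (h | h | h | h)
      · exact Or.inl h
      · exact Or.inr (Or.inl h)
      · exact Or.inr (Or.inr (Or.inl h))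
      · exact Or.inr (Or.inr (Or.inr h.symm))
    · rintro (h | h | h | h)
      · exact Or.inl h
      · exact Or.inr (Or.inl h)
      · exact Or.inr (Or.inr (Or.inl h))
      · exact Or.inr (Or.inr (Or.inr h.symm))
  · intro ω hω hdp
    exact lc_star4 hu1 hω a1 a2 a3 h12 h13 h23 hyU.1 hynadj hdp

/-- **IN1.** -/
theorem in1 [P.Finite] (hG : RWx P S row w) {D β δ₀ δ : ℕ} (hD : 4 ≤ D)
    (hδ : δ₀ + D + 60 ≤ δ) {Om : Finset (ℕ × ℕ)} (hno : NoConf P S row w D (2 * β + 4) δ₀ Om)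
    {c : Set α} (hc : c ⊆ S) (hW : WallE c row w ∅)
    {u v₁ v₂ v₃ : ℕ × ℕ} (hnb : Nb3 u v₁ v₂ v₃) (hu : OutW δ w Om u)
    {o₁ o₂ o₃ : α} (h₁ : o₁ ∈ c ∧ v₁ ∈ row o₁ ∧ u ∉ row o₁)
    (h₂ : o₂ ∈ c ∧ v₂ ∈ row o₂ ∧ u ∉ row o₂) (h₃ : o₃ ∈ c ∧ v₃ ∈ row o₃ ∧ u ∉ row o₃)
    {C : Set α} (hC : (P ／ FStar S row c u v₁ v₂ v₃).IsCircuit C) {y : ℕ × ℕ} {b : α}
    (hb : ExitE P S row w D β δ Om {u, v₁, v₂, v₃} c y b) (hbC : b ∈ C)
    (k₁ : o₁ ∈ C) (k₂ : o₂ ∈ C)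
    (hloc : ∀ x ∈ C, x = b ∨ x = o₁ ∨ x = o₂ ∨ x = o₃ ∨
      LocE P S row w D {a | u ∈ a} {u, v₁, v₂, v₃} x) : False := by
  classical
  obtain ⟨hOi, o12, o13, o23⟩ := star_ends_indep hG hnb hc hW h₁ h₂ h₃
  have hbo : ∀ o, o ∈ c → b ≠ o := by
    rintro o ho rfl
    exact hb.cl.2 (hc ho)
  obtain ⟨C', hC', hsub, hcase⟩ := three_ends hC hbC k₁ k₂ (hbo _ h₁.1) (hbo _ h₂.1)
    (hbo _ h₃.1) o12 o13 o23 hOi
  have hloc' : ∀ x ∈ C', x = b ∨ x = o₁ ∨ x = o₂ ∨ x = o₃ ∨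
      LocE P S row w D {a | u ∈ a} {u, v₁, v₂, v₃} x := by
    intro x hx
    rcases hsub hx with h | h
    · exact Or.inr (Or.inr (Or.inr (Or.inl h)))
    · exact hloc x h
  have hs2 : ({u, v₁, v₂, v₃} : Set (ℕ × ℕ)) = {u, v₁, v₃, v₂} := by
    ext x
    simp only [mem_insert_iff, mem_singleton_iff]
    tauto
  have hs3 : ({u, v₁, v₂, v₃} : Set (ℕ × ℕ)) = {u, v₂, v₃, v₁} := by
    ext x
    simp only [mem_insert_iff, mem_singleton_iff]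
    tauto
  rcases hcase with ⟨q0, q1, q2, q3⟩ | ⟨q0, q1, q2, q3⟩ | ⟨q0, q1, q2, q3⟩ | ⟨q0, q1, q2, q3⟩ |
    ⟨q0, q1, q2, q3⟩
  · exact in1_three hG hD hδ hno hc hW hnb hu h₁ h₂ h₃ hC' hb q0 q1 q2 q3 hloc'
  · refine in0 hG hD hδ hno hc hW hnb hu h₁ h₂ h₃ hC' q1 q2 q3 ?_
    intro x hx
    rcases hloc' x hx with h | h
    · exact absurd (h ▸ hx) q0
    · exact h
  · exact in1_two hG hD hδ hno hc hW hnb hu h₁ h₂ h₃ hC' hb q0 q1 q2 q3 hloc'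
  · rw [fstar_swap23] at hC' q3
    rw [hs2] at hb
    refine in1_two hG hD hδ hno hc hW hnb.swap23 hu h₁ h₃ h₂ hC' hb q0 q1 q2 q3 ?_
    intro x hx
    rw [← hs2]
    have := hloc' x hx
    tauto
  · rw [fstar_swap12, fstar_swap23] at hC' q3
    rw [hs3] at hb
    refine in1_two hG hD hδ hno hc hW hnb.swap12.swap23 hu h₂ h₃ h₁ hC' hb q0 q1 q2 q3 ?_
    intro x hx
    rw [← hs3]
    have := hloc' x hx
    tauto

/-- **IN2**, one exit. -/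
theorem in2a [P.Finite] (hG : RWx P S row w) {D β δ₀ δ : ℕ} (hD : 4 ≤ D)
    (hδ : δ₀ + D + 60 ≤ δ) {Om : Finset (ℕ × ℕ)} (hno : NoConf P S row w D (2 * β + 4) δ₀ Om)
    {c : Set α} (hc : c ⊆ S) (hW : WallE c row w ∅)
    {u v : ℕ × ℕ} (huv : wadj u v) (hu : OutW δ w Om u)
    {o₁ o₂ : α} (h₁ : o₁ ∈ c ∧ u ∈ row o₁ ∧ v ∉ row o₁)
    (h₂ : o₂ ∈ c ∧ v ∈ row o₂ ∧ u ∉ row o₂)
    {C : Set α} (hC : (P ／ FRow S row c u v).IsCircuit C) {y : ℕ × ℕ} {b : α}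
    (hb : ExitE P S row w D β δ Om {u, v} c y b) (hbC : b ∈ C)
    (k₁ : o₁ ∈ C) (k₂ : o₂ ∈ C)
    (hloc : ∀ x ∈ C, x = b ∨ x = o₁ ∨ x = o₂ ∨ LocE P S row w D {s(u, v)} {u, v} x) :
    False := by
  classical
  have hne : u ≠ v := by
    rintro rfl
    have := wadj_par' huv
    omega
  have hbo : ∀ o, o ∈ c → b ≠ o := by
    rintro o ho rfl
    exact hb.cl.2 (hc ho)
  have hsub : ((C \ {b}) ∪ {o₁, o₂} : Set α) = C \ {b} := by
    refine union_eq_left.2 ?_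
    rintro x (rfl | rfl)
    · exact ⟨k₁, (hbo _ h₁.1).symm⟩
    · exact ⟨k₂, (hbo _ h₂.1).symm⟩
  have hyU := hb.y_out
  simp only [mem_insert_iff, mem_singleton_iff, not_or] at hyU
  have hcard : ({u, v, y} : Finset (ℕ × ℕ)).card = 3 := by
    rw [Finset.card_insert_of_notMem, Finset.card_pair (Ne.symm hyU.2)]
    simp only [Finset.mem_insert, Finset.mem_singleton, not_or]
    exact ⟨hne, Ne.symm hyU.1⟩
  refine row_false hG hD hδ hno huv hu hc hW h₁ h₂ hC hbC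
    ⟨hbo _ h₁.1, hbo _ h₂.1⟩
    (by rw [hsub]; exact hC.sdiff_singleton_indep hbC) (Bx := {b}) (by simp) (by simpa using hbC)
    (yy := fun _ => y) (by simp) (by simpa using hb) ?_
    (Λ := {u, v, y}) ?_ (by omega) ?_
  · intro x hx
    rcases hloc x hx with h | h
    · exact Or.inl (by simpa using h)
    · exact Or.inr h
  · intro x
    simp only [Finset.mem_insert, Finset.mem_singleton, k₁, k₂, and_true,
      exists_eq_left]
    constructor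
    · rintro (h | h | h)
      · exact Or.inl h
      · exact Or.inr (Or.inl h)
      · exact Or.inr (Or.inr h.symm)
    · rintro (h | h | h)
      · exact Or.inl h
      · exact Or.inr (Or.inl h)
      · exact Or.inr (Or.inr h.symm)
  · intro ω hω hdp
    exact lc_row3 huv hω hdp

/-- **IN2**, two exits. -/
theorem in2b [P.Finite] (hG : RWx P S row w) {D β δ₀ δ : ℕ} (hD : 4 ≤ D)
    (hδ : δ₀ + D + 60 ≤ δ) {Om : Finset (ℕ × ℕ)} (hno : NoConf P S row w D (2 * β + 4) δ₀ Om)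
    {c : Set α} (hc : c ⊆ S) (hW : WallE c row w ∅)
    {u v : ℕ × ℕ} (huv : wadj u v) (hu : OutW δ w Om u)
    {o₁ o₂ : α} (h₁ : o₁ ∈ c ∧ u ∈ row o₁ ∧ v ∉ row o₁)
    (h₂ : o₂ ∈ c ∧ v ∈ row o₂ ∧ u ∉ row o₂)
    {C : Set α} (hC : (P ／ FRow S row c u v).IsCircuit C) {y y' : ℕ × ℕ} {b b' : α}
    (hb : ExitE P S row w D β δ Om {u, v} c y b) (hb' : ExitE P S row w D β δ Om {u, v} c y' b')
    (hyy : y ≠ y') (hbu : ¬ (wadj u y ∧ wadj u y')) (hbv : ¬ (wadj v y ∧ wadj v y'))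
    (hbC : b ∈ C) (hbC' : b' ∈ C) (k₁ : o₁ ∈ C) (k₂ : o₂ ∈ C)
    (hloc : ∀ x ∈ C, x = b ∨ x = b' ∨ x = o₁ ∨ x = o₂ ∨
      LocE P S row w D {s(u, v)} {u, v} x) : False := by
  classical
  have hud := hu.1
  unfold DeepR at hud
  simp only at hud
  have hu1 : 1 ≤ u.1 ∧ 1 ≤ u.2 := by omega
  have hv1 : 1 ≤ v.1 ∧ 1 ≤ v.2 := by
    have h1 := (wadj_sd huv).1
    rw [sd_le] at h1
    omega
  have hne : u ≠ v := by
    rintro rfl
    have := wadj_par' huv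
    omega
  have hbo : ∀ o, o ∈ c → b ≠ o := by
    rintro o ho rfl
    exact hb.cl.2 (hc ho)
  have hsub : ((C \ {b}) ∪ {o₁, o₂} : Set α) = C \ {b} := by
    refine union_eq_left.2 ?_
    rintro x (rfl | rfl)
    · exact ⟨k₁, (hbo _ h₁.1).symm⟩
    · exact ⟨k₂, (hbo _ h₂.1).symm⟩
  have hyU := hb.y_out
  have hyU' := hb'.y_out
  simp only [mem_insert_iff, mem_singleton_iff, not_or] at hyU hyU'
  have hbb : b' ≠ b := by
    rintro rfl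
    rcases hb.loc _ hb'.y_loc hb'.y_deep with h | h
    · exact hb'.y_out h
    · exact hyy h.symm
  have hcard : ({u, v, y, y'} : Finset (ℕ × ℕ)).card = 4 := by
    rw [Finset.card_insert_of_notMem, Finset.card_insert_of_notMem, Finset.card_pair hyy]
    · simp only [Finset.mem_insert, Finset.mem_singleton, not_or]
      exact ⟨Ne.symm hyU.2, Ne.symm hyU'.2⟩
    · simp only [Finset.mem_insert, Finset.mem_singleton, not_or]
      exact ⟨hne, Ne.symm hyU.1, Ne.symm hyU'.1⟩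
  obtain ⟨yy, hyy1, hyy2⟩ : ∃ yy : α → ℕ × ℕ, yy b = y ∧ yy b' = y' :=
    ⟨fun x => if x = b then y else y', by simp, by simp [hbb]⟩
  refine row_false hG hD hδ hno huv hu hc hW h₁ h₂ hC hbC
    ⟨hbo _ h₁.1, hbo _ h₂.1⟩
    (by rw [hsub]; exact hC.sdiff_singleton_indep hbC) (Bx := {b, b'}) Finset.card_le_two ?_
    (yy := yy) ?_ ?_ ?_ (Λ := {u, v, y, y'}) ?_ (by omega) ?_
  · intro x hx
    simp only [Finset.mem_insert, Finset.mem_singleton] at hx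
    rcases hx with rfl | rfl
    · exact hbC
    · exact hbC'
  · intro x hx x' hx' h
    simp only [Finset.mem_insert, Finset.mem_singleton] at hx hx'
    rcases hx with rfl | rfl <;> rcases hx' with rfl | rfl
    · rfl
    · rw [hyy1, hyy2] at h
      exact absurd h hyy
    · rw [hyy1, hyy2] at h
      exact absurd h.symm hyy
    · rfl
  · intro x hx
    simp only [Finset.mem_insert, Finset.mem_singleton] at hx
    rcases hx with rfl | rfl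
    · rw [hyy1]
      exact hb
    · rw [hyy2]
      exact hb'
  · intro x hx
    simp only [Finset.mem_insert, Finset.mem_singleton]
    rcases hloc x hx with h | h | h
    · exact Or.inl (Or.inl h)
    · exact Or.inl (Or.inr h)
    · exact Or.inr h
  · intro x
    simp only [Finset.mem_insert, Finset.mem_singleton, k₁, k₂, and_true,
      exists_eq_or_imp, exists_eq_left, hyy1, hyy2]
    constructor
    · rintro (h | h | h | h)
      · exact Or.inl h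
      · exact Or.inr (Or.inl h)
      · exact Or.inr (Or.inr (Or.inl h.symm))
      · exact Or.inr (Or.inr (Or.inr h.symm))
    · rintro (h | h | h | h)
      · exact Or.inl h
      · exact Or.inr (Or.inl h)
      · exact Or.inr (Or.inr (Or.inl h.symm))
      · exact Or.inr (Or.inr (Or.inr h.symm))
  · intro ω hω hdp
    exact lc_row4 huv hω hu1 hv1 hyU hyU' hbu hbv hdp

end

/-- **IN0, IN1, IN2.** -/
theorem in012 {k D : ℕ} (hL : LinkFam.{u} k 1 D) (hD : 4 ≤ D) (β : ℕ) : ∃ r δ : ℕ,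
    ∀ {α : Type u} (P : Matroid α) [P.Finite] (S : Set α) (row : α → Sym2 (ℕ × ℕ)) (w : ℕ),
      RWx P S row w → HasUniformMinor P k ∨ ∃ Om : Finset (ℕ × ℕ), Om.card ≤ r ∧
        ∀ c, c ⊆ S → WallE c row w ∅ →
        -- IN0: no circuit of `N_u` of local elements contains the three ends
        (∀ u v₁ v₂ v₃ o₁ o₂ o₃ C, Nb3 u v₁ v₂ v₃ → OutW δ w Om u →
          (o₁ ∈ c ∧ v₁ ∈ row o₁ ∧ u ∉ row o₁) → (o₂ ∈ c ∧ v₂ ∈ row o₂ ∧ u ∉ row o₂) →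
          (o₃ ∈ c ∧ v₃ ∈ row o₃ ∧ u ∉ row o₃) → (P ／ FStar S row c u v₁ v₂ v₃).IsCircuit C →
          o₁ ∈ C → o₂ ∈ C → o₃ ∈ C → (∀ x ∈ C, x = o₁ ∨ x = o₂ ∨ x = o₃ ∨
            LocE P S row w D {a | u ∈ a} {u, v₁, v₂, v₃} x) → False) ∧
        -- IN1: no circuit of `N_u` of local elements and one exit `b` contains `b` and two ends
        (∀ u v₁ v₂ v₃ o₁ o₂ o₃ C y b, Nb3 u v₁ v₂ v₃ → OutW δ w Om u →
          (o₁ ∈ c ∧ v₁ ∈ row o₁ ∧ u ∉ row o₁) → (o₂ ∈ c ∧ v₂ ∈ row o₂ ∧ u ∉ row o₂) →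
          (o₃ ∈ c ∧ v₃ ∈ row o₃ ∧ u ∉ row o₃) → (P ／ FStar S row c u v₁ v₂ v₃).IsCircuit C →
          ExitE P S row w D β δ Om {u, v₁, v₂, v₃} c y b → b ∈ C → o₁ ∈ C → o₂ ∈ C →
          (∀ x ∈ C, x = b ∨ x = o₁ ∨ x = o₂ ∨ x = o₃ ∨
            LocE P S row w D {a | u ∈ a} {u, v₁, v₂, v₃} x) → False) ∧
        -- IN2, one exit
        (∀ u v o₁ o₂ C y b, wadj u v → OutW δ w Om u →
          (o₁ ∈ c ∧ u ∈ row o₁ ∧ v ∉ row o₁) → (o₂ ∈ c ∧ v ∈ row o₂ ∧ u ∉ row o₂) →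
          (P ／ FRow S row c u v).IsCircuit C → ExitE P S row w D β δ Om {u, v} c y b →
          b ∈ C → o₁ ∈ C → o₂ ∈ C → (∀ x ∈ C, x = b ∨ x = o₁ ∨ x = o₂ ∨
            LocE P S row w D {s(u, v)} {u, v} x) → False) ∧
        -- IN2, two exits with different second nodes
        (∀ u v o₁ o₂ C y b y' b', wadj u v → OutW δ w Om u →
          (o₁ ∈ c ∧ u ∈ row o₁ ∧ v ∉ row o₁) → (o₂ ∈ c ∧ v ∈ row o₂ ∧ u ∉ row o₂) →
          (P ／ FRow S row c u v).IsCircuit C → ExitE P S row w D β δ Om {u, v} c y b →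
          ExitE P S row w D β δ Om {u, v} c y' b' → y ≠ y' →
          ¬ ((wadj u y ∨ wadj v y) ∧ (wadj u y' ∨ wadj v y')) →
          b ∈ C → b' ∈ C → o₁ ∈ C → o₂ ∈ C → (∀ x ∈ C, x = b ∨ x = b' ∨ x = o₁ ∨ x = o₂ ∨
            LocE P S row w D {s(u, v)} {u, v} x) → False) := by
  obtain ⟨r, δ₀, hlk⟩ := linkOm.{u} hL hD (2 * β + 4)
  refine ⟨r, δ₀ + D + 60, ?_⟩
  intro α P _ S row w hG
  rcases hlk P S row w hG with h | ⟨Om, hOm, hno⟩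
  · exact Or.inl h
  refine Or.inr ⟨Om, hOm, ?_⟩
  have hno' : NoConf P S row w D (2 * β + 4) δ₀ Om := hno
  intro c hc hW
  refine ⟨?_, ?_, ?_, ?_⟩
  · intro u v₁ v₂ v₃ o₁ o₂ o₃ C hnb hu h₁ h₂ h₃ hC k₁ k₂ k₃ hloc
    exact in0 hG hD le_rfl hno' hc hW hnb hu h₁ h₂ h₃ hC k₁ k₂ k₃ hloc
  · intro u v₁ v₂ v₃ o₁ o₂ o₃ C y b hnb hu h₁ h₂ h₃ hC hb hbC k₁ k₂ hloc
    exact in1 hG hD le_rfl hno' hc hW hnb hu h₁ h₂ h₃ hC hb hbC k₁ k₂ hloc
  · intro u v o₁ o₂ C y b huv hu h₁ h₂ hC hb hbC k₁ k₂ hloc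
    exact in2a hG hD le_rfl hno' hc hW huv hu h₁ h₂ hC hb hbC k₁ k₂ hloc
  · intro u v o₁ o₂ C y b y' b' huv hu h₁ h₂ hC hb hb' hyy hbad hbC hbC' k₁ k₂ hloc
    exact in2b hG hD le_rfl hno' hc hW huv hu h₁ h₂ hC hb hb' hyy
      (fun h => hbad ⟨Or.inl h.1, Or.inl h.2⟩) (fun h => hbad ⟨Or.inr h.1, Or.inr h.2⟩)
      hbC hbC' k₁ k₂ hloc

end DA
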