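import Pool.Agent.DA.InL

/-!
# IN0, IN1, IN2 for walls with windows, parts inside of the windows allowed

As `in012L`, but local elements and exits may have any locations inside of the windows `Hs`.
-/

open Set BIC BICS
open scoped Matroid

namespace DA

open Gad

universe u

/-- all deep locations of `x` off the windows (for all representatives) are in `U` -/
def LocInH {α : Type*} (P : Matroid α) (S : Set α) (row : α → Sym2 (ℕ × ℕ)) (w D : ℕ)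
    (Hs : Finset (ℕ × ℕ)) (U : Set (ℕ × ℕ)) (x : α) : Prop :=
  ∀ c, c ⊆ S → WallE c row w ∅ → ∀ v ∈ LocR P S row c x, DeepR (0, 0) (w + 1) (w + 1) D v →
    v ∉ Hs → v ∈ U

/-- local elements, nothing is asked inside of the windows -/
def LocEH {α : Type*} (P : Matroid α) (S : Set α) (row : α → Sym2 (ℕ × ℕ)) (w D : ℕ)
    (Hs : Finset (ℕ × ℕ)) (ω : Set (Sym2 (ℕ × ℕ))) (U : Set (ℕ × ℕ)) (x : α) : Prop :=
  (x ∈ S ∧ row x ∈ ω) ∨ (x ∈ P.closure S ∧ x ∉ S ∧ LocInH P S row w D Hs U x)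

/-- exits, nothing is asked inside of the windows -/
structure ExitEH {α : Type*} (P : Matroid α) (S : Set α) (row : α → Sym2 (ℕ × ℕ)) (w D β δ : ℕ)
    (Hs Om : Finset (ℕ × ℕ)) (U : Set (ℕ × ℕ)) (c : Set α) (y : ℕ × ℕ) (b : α) : Prop where
  cl : b ∈ P.closure S ∧ b ∉ S
  supp : ∃ N : Finset (ℕ × ℕ), N.card ≤ β ∧ LocInH P S row w D Hs N b ∧ ∀ p ∈ N, OutW δ w Om p
  y_loc : y ∈ LocR P S row c b
  y_deep : DeepR (0, 0) (w + 1) (w + 1) D y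
  y_hs : y ∉ Hs
  y_out : y ∉ U
  loc : ∀ v ∈ LocR P S row c b, DeepR (0, 0) (w + 1) (w + 1) D v → v ∉ Hs → v ∈ U ∨ v = y

section

variable {α β : Type*} {P : Matroid α} {S : Set α} {row : α → Sym2 (ℕ × ℕ)} {w : ℕ}
  {Hs : Finset (ℕ × ℕ)} {P' : Matroid β} {j : α → β} {S' New : Set β}
  {row' : β → Sym2 (ℕ × ℕ)} {Λ : Set α}

/-- **There are no new locations, and none inside of the windows.** -/
theorem Healed.locInH [P.Finite] (hL : LWal P S row w Hs)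
    (h : Healed P S row w Hs P' j S' New row' Λ) (hlin : InjOn row Λ) {D : ℕ} (hD : 4 ≤ D)
    {U : Set (ℕ × ℕ)} {x : α} (hx : x ∈ P.closure S) (hxT : x ∉ Tch S row Hs)
    (hl : LocInH P S row w D Hs U x) : LocIn P' S' row' w D U (j x) := by
  intro c' hc' hW' v hv hvD
  have hv4 : DeepR (0, 0) (w + 1) (w + 1) 4 v := by
    unfold DeepR at hvD ⊢
    simp only at hvD ⊢
    omega
  have hjS : ∀ a ∈ S \ Tch S row Hs, j a ∈ S' := by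
    intro a ha
    rw [h.S_eq]
    exact Or.inl ⟨a, ha, rfl⟩
  by_cases hvH : v ∈ Hs
  · exfalso
    refine hv ?_
    have h1 := h.clo_old hx hxT
    refine P'.closure_subset_closure_of_subset_closure ?_ h1
    rintro _ ⟨a, ⟨haS, ha⟩, rfl⟩
    by_cases haT : a ∈ Tch S row Hs
    · have haΛ : a ∈ Λ := by
        by_contra h2
        exact ha ⟨haT, h2⟩
      exact h.lam_one hc' hW' hv4 haΛ (Or.inl hvH)
    · refine P'.subset_closure _ (sdiff_subset.trans h.wal.sub) ⟨hjS a ⟨haS, haT⟩, ?_⟩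
      rintro ⟨_, h2⟩
      rw [h.row_old a ⟨haS, haT⟩] at h2
      exact haT ⟨haS, v, h2, hvH⟩
  · obtain ⟨c₀, hc₀, hW₀, hΛ₀⟩ := exists_repLam hL h hlin
    obtain ⟨c, hc, hW, hcc, hcT, hcO⟩ := h.tr_back hc' hW' hc₀ hW₀
    refine hl c hc hW v ?_ hvD hvH
    intro h1
    refine hv ?_
    have h2 := h.clo_old h1 hxT
    refine P'.closure_subset_closure_of_subset_closure ?_ h2
    rintro _ ⟨a, ⟨⟨haS, hac⟩, ha⟩, rfl⟩
    by_cases haT : a ∈ Tch S row Hs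
    · have haΛ : a ∈ Λ := by
        by_contra h2
        exact ha ⟨haT, h2⟩
      refine h.lam_one hc' hW' hv4 haΛ (Or.inr fun h3 => hac ⟨?_, h3⟩)
      exact (hcT a haT).2 (hΛ₀ haΛ)
    · refine P'.subset_closure _ (sdiff_subset.trans h.wal.sub) ⟨hjS a ⟨haS, haT⟩, ?_⟩
      rintro ⟨h4, h5⟩
      rw [h.row_old a ⟨haS, haT⟩] at h5
      exact hac ⟨(hcO a ⟨haS, haT⟩).2 h4, h5⟩

/-- local elements -/
theorem Healed.locEH [P.Finite] (hL : LWal P S row w Hs)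
    (h : Healed P S row w Hs P' j S' New row' Λ) (hlin : InjOn row Λ) {D : ℕ} (hD : 4 ≤ D)
    {v₀ : ℕ × ℕ} (hoff : Off Hs v₀) (hv₀ : DeepR (0, 0) (w + 1) (w + 1) 4 v₀)
    {ω : Set (Sym2 (ℕ × ℕ))} {U : Set (ℕ × ℕ)} {x : α} (hxT : x ∉ Tch S row Hs)
    (hx : LocEH P S row w D Hs ω U x) : LocE P' S' row' w D ω U (j x) := by
  obtain ⟨c, hc, hW⟩ := hL.exists_rep
  rcases hx with ⟨h1, h2⟩ | ⟨h1, h2, h3⟩
  · left
    refine ⟨?_, ?_⟩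
    · rw [h.S_eq]
      exact Or.inl ⟨x, ⟨h1, hxT⟩, rfl⟩
    · rw [h.row_old x ⟨h1, hxT⟩]
      exact h2
  · right
    refine ⟨?_, ?_, h.locInH hL hlin hD h1 hxT h3⟩
    · exact (h.clS hL.sub hc hW hoff hv₀ (P.closure_subset_ground _ h1) hxT).2 h1
    · rw [h.S_eq]
      rintro (⟨a, ha, h4⟩ | h4)
      · rw [h.inj h4] at ha
        exact h2 ha.1
      · exact h.new x h4

/-- exits -/
theorem Healed.exitEH [P.Finite] (hL : LWal P S row w Hs)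
    (h : Healed P S row w Hs P' j S' New row' Λ) (hlin : InjOn row Λ) {D : ℕ} (hD : 4 ≤ D)
    {v₀ : ℕ × ℕ} (hoff : Off Hs v₀) (hv₀ : DeepR (0, 0) (w + 1) (w + 1) 4 v₀)
    {β' δ : ℕ} {Om : Finset (ℕ × ℕ)} (hδ : 4 ≤ δ) (hOm : Hs ⊆ Om) {U : Set (ℕ × ℕ)}
    {c : Set α} (hc : c ⊆ S) (hW : WallE c row w ∅) {y : ℕ × ℕ} {b : α}
    (hb : ExitEH P S row w D β' δ Hs Om U c y b) :
    ExitE P' S' row' w D β' δ Om U (tr S row Hs j New c) y (j b) := by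
  have hbT : b ∉ Tch S row Hs := fun h1 => hb.cl.2 h1.1
  have hbE : b ∈ P.E := P.closure_subset_ground _ hb.cl.1
  have hOff : ∀ v, OutW δ w Om v → Off Hs v ∧ DeepR (0, 0) (w + 1) (w + 1) 4 v := by
    intro v hv
    refine ⟨fun x hx => ?_, (hv.mono hδ).1⟩
    have h1 := apart_iff.1 (hv.2 x (hOm hx))
    omega
  obtain ⟨N, hN, hlN, hNo⟩ := hb.supp
  have hlN' := h.locInH hL hlin hD hb.cl.1 hbT hlN
  have hyN : y ∈ N := hlN c hc hW y hb.y_loc hb.y_deep hb.y_hs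
  refine ⟨⟨?_, ?_⟩, ⟨N, hN, hlN', hNo⟩, ?_, hb.y_deep, hb.y_out, ?_⟩
  · exact (h.clS hL.sub hc hW hoff hv₀ hbE hbT).2 hb.cl.1
  · rw [h.S_eq]
    rintro (⟨a, ha, h4⟩ | h4)
    · rw [h.inj h4] at ha
      exact hb.cl.2 ha.1
    · exact h.new b h4
  · obtain ⟨h1, h2⟩ := hOff y (hNo y hyN)
    exact (h.loc hL.sub hc hW h1 h2 hbE hbT).2 hb.y_loc
  · intro v hv hvD
    have hvN : v ∈ N := hlN' _ (h.tr_sub hc) (h.tr_wall hc hW) v hv hvD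
    obtain ⟨h1, h2⟩ := hOff v (hNo v hvN)
    refine hb.loc v ((h.loc hL.sub hc hW h1 h2 hbE hbT).1 hv) hvD fun h3 => ?_
    have h4 := h1 v h3
    rw [sd_self] at h4
    omega

end

/-- **IN0, IN1, IN2 for walls with windows**, nothing is asked inside of the windows. -/
theorem in012H (k D β h : ℕ) (hD : 4 ≤ D) : ∃ r δ : ℕ,
    ∀ {α : Type u} (P : Matroid α) [P.Finite] (S : Set α) (row : α → Sym2 (ℕ × ℕ)) (w : ℕ)
      (Hs : Finset (ℕ × ℕ)), Hs.card ≤ h → LWal P S row w Hs → HealX P S row w Hs →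
      HasUniformMinor P k ∨ ∃ Om : Finset (ℕ × ℕ), Hs ⊆ Om ∧ Om.card ≤ r ∧
        ∀ c, c ⊆ S → WallE c row w ∅ →
        -- IN0: no circuit of `N_u` of local elements contains the three ends
        (∀ u v₁ v₂ v₃ o₁ o₂ o₃ C, Nb3 u v₁ v₂ v₃ → OutW δ w Om u →
          (o₁ ∈ c ∧ v₁ ∈ row o₁ ∧ u ∉ row o₁) → (o₂ ∈ c ∧ v₂ ∈ row o₂ ∧ u ∉ row o₂) →
          (o₃ ∈ c ∧ v₃ ∈ row o₃ ∧ u ∉ row o₃) → (P ／ FStar S row c u v₁ v₂ v₃).IsCircuit C →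
          o₁ ∈ C → o₂ ∈ C → o₃ ∈ C → (∀ x ∈ C, x = o₁ ∨ x = o₂ ∨ x = o₃ ∨
            LocEH P S row w D Hs {a | u ∈ a} {u, v₁, v₂, v₃} x) → False) ∧
        -- IN1: no circuit of `N_u` of local elements and one exit `b` contains `b` and two ends
        (∀ u v₁ v₂ v₃ o₁ o₂ o₃ C y b, Nb3 u v₁ v₂ v₃ → OutW δ w Om u →
          (o₁ ∈ c ∧ v₁ ∈ row o₁ ∧ u ∉ row o₁) → (o₂ ∈ c ∧ v₂ ∈ row o₂ ∧ u ∉ row o₂) →
          (o₃ ∈ c ∧ v₃ ∈ row o₃ ∧ u ∉ row o₃) → (P ／ FStar S row c u v₁ v₂ v₃).IsCircuit C →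
          ExitEH P S row w D β δ Hs Om {u, v₁, v₂, v₃} c y b → b ∈ C → o₁ ∈ C → o₂ ∈ C →
          (∀ x ∈ C, x = b ∨ x = o₁ ∨ x = o₂ ∨ x = o₃ ∨
            LocEH P S row w D Hs {a | u ∈ a} {u, v₁, v₂, v₃} x) → False) ∧
        -- IN2, one exit
        (∀ u v o₁ o₂ C y b, wadj u v → OutW δ w Om u →
          (o₁ ∈ c ∧ u ∈ row o₁ ∧ v ∉ row o₁) → (o₂ ∈ c ∧ v ∈ row o₂ ∧ u ∉ row o₂) →
          (P ／ FRow S row c u v).IsCircuit C → ExitEH P S row w D β δ Hs Om {u, v} c y b →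
          b ∈ C → o₁ ∈ C → o₂ ∈ C → (∀ x ∈ C, x = b ∨ x = o₁ ∨ x = o₂ ∨
            LocEH P S row w D Hs {s(u, v)} {u, v} x) → False) ∧
        -- IN2, two exits with different second nodes
        (∀ u v o₁ o₂ C y b y' b', wadj u v → OutW δ w Om u →
          (o₁ ∈ c ∧ u ∈ row o₁ ∧ v ∉ row o₁) → (o₂ ∈ c ∧ v ∈ row o₂ ∧ u ∉ row o₂) →
          (P ／ FRow S row c u v).IsCircuit C → ExitEH P S row w D β δ Hs Om {u, v} c y b →
          ExitEH P S row w D β δ Hs Om {u, v} c y' b' → y ≠ y' →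
          ¬ (wadj u y ∧ wadj u y') → ¬ (wadj v y ∧ wadj v y') →
          b ∈ C → b' ∈ C → o₁ ∈ C → o₂ ∈ C → (∀ x ∈ C, x = b ∨ x = b' ∨ x = o₁ ∨ x = o₂ ∨
            LocEH P S row w D Hs {s(u, v)} {u, v} x) → False) := by
  classical
  obtain ⟨r, δ₀, hnc⟩ := noConfL.{u} k D (2 * β + 4) h hD
  refine ⟨r, δ₀ + D + 60, ?_⟩
  intro α P _ S row w Hs hHs hL hX
  rcases hnc P S row w Hs hHs hX with h1 | ⟨Om, hHO, hOm, P', S', New, row', Λ, hH, hR, hlin, hno⟩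
  · exact Or.inl h1
  refine Or.inr ⟨Om, hHO, hOm, ?_⟩
  have hf := hH.fin
  intro c hc hW
  have hc' := hH.tr_sub (c := c) hc
  have hW' := hH.tr_wall hc hW
  -- geometry
  have hoff : ∀ u, OutW (δ₀ + D + 60) w Om u → ∀ v, sd v u ≤ 1 → Off Hs v := by
    intro u hu v hv x hx
    have h1 := apart_iff.1 (hu.2 x (hHO hx))
    have h2 : sd u x ≤ sd v u + sd v x := by
      unfold sd
      omega
    omega
  have hdp8 : ∀ u, OutW (δ₀ + D + 60) w Om u → DeepR (0, 0) (w + 1) (w + 1) 8 u := fun u hu =>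
    (hu.mono (δ' := 8) (by omega)).1
  have hdp4 : ∀ u, OutW (δ₀ + D + 60) w Om u → DeepR (0, 0) (w + 1) (w + 1) 4 u := fun u hu =>
    (hu.mono (δ' := 4) (by omega)).1
  have hself : ∀ u : ℕ × ℕ, sd u u ≤ 1 := by
    intro u
    rw [sd_le]
    omega
  -- stars
  have hstar : ∀ u v₁ v₂ v₃ C, Nb3 u v₁ v₂ v₃ → OutW (δ₀ + D + 60) w Om u →
      (P ／ FStar S row c u v₁ v₂ v₃).IsCircuit C →
      (P' ／ FStar S' row' (tr S row Hs Sum.inl New c) u v₁ v₂ v₃).IsCircuit (Sum.inl '' C) ∧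
        ∀ x ∈ C, x ∉ Tch S row Hs := by
    intro u v₁ v₂ v₃ C hnb hu hC
    refine hH.circ hL (u := u) (hoff u hu) (hdp8 u hu) (A := fun s => u ∈ s)
      (B := fun s => v₁ ∈ s ∨ v₂ ∈ s ∨ v₃ ∈ s) (fun s hs => ⟨u, hs, hself u⟩) ?_ hC
    rintro s (hs | hs | hs)
    · exact ⟨v₁, hs, (wadj_sd hnb.1).2⟩
    · exact ⟨v₂, hs, (wadj_sd hnb.2.1).2⟩
    · exact ⟨v₃, hs, (wadj_sd hnb.2.2.1).2⟩
  have hrow : ∀ u v C, wadj u v → OutW (δ₀ + D + 60) w Om u →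
      (P ／ FRow S row c u v).IsCircuit C →
      (P' ／ FRow S' row' (tr S row Hs Sum.inl New c) u v).IsCircuit (Sum.inl '' C) ∧
        ∀ x ∈ C, x ∉ Tch S row Hs := by
    intro u v C huv hu hC
    refine hH.circ hL (u := u) (hoff u hu) (hdp8 u hu) (A := fun s => s = s(u, v))
      (B := fun s => u ∈ s ∨ v ∈ s) (fun s hs => ⟨u, ?_, hself u⟩) ?_ hC
    · rw [hs]
      exact Sym2.mem_mk_left _ _
    · rintro s (hs | hs)
      · exact ⟨u, hs, hself u⟩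
      · exact ⟨v, hs, (wadj_sd huv).2⟩
  have hend : ∀ u, OutW (δ₀ + D + 60) w Om u → ∀ p q o, sd p u ≤ 1 →
      (o ∈ c ∧ p ∈ row o ∧ q ∉ row o) → (Sum.inl o ∈ tr S row Hs Sum.inl New c ∧
        p ∈ row' (Sum.inl o) ∧ q ∉ row' (Sum.inl o)) := fun u hu p q o hp ho =>
    hH.endE hc hW (hoff u hu p hp) ho
  have hexit : ∀ u, OutW (δ₀ + D + 60) w Om u → ∀ U y b,
      ExitEH P S row w D β (δ₀ + D + 60) Hs Om U c y b →
      ExitE P' S' row' w D β (δ₀ + D + 60) Om U (tr S row Hs Sum.inl New c) y (Sum.inl b) :=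
    fun u hu U y b hb => hH.exitEH hL hlin hD (hoff u hu u (hself u)) (hdp4 u hu) (by omega) hHO
      hc hW hb
  have hloc : ∀ u, OutW (δ₀ + D + 60) w Om u → ∀ (ω : Set (Sym2 (ℕ × ℕ))) U x,
      x ∉ Tch S row Hs → LocEH P S row w D Hs ω U x → LocE P' S' row' w D ω U (Sum.inl x) :=
    fun u hu ω U x hxT hx => hH.locEH hL hlin hD (hoff u hu u (hself u)) (hdp4 u hu) hxT hx
  refine ⟨?_, ?_, ?_, ?_⟩
  · intro u v₁ v₂ v₃ o₁ o₂ o₃ C hnb hu h₁ h₂ h₃ hC k₁ k₂ k₃ hl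
    obtain ⟨hC', hCT⟩ := hstar u v₁ v₂ v₃ C hnb hu hC
    refine in0 hR hD le_rfl hno hc' hW' hnb hu (hend u hu _ _ _ (wadj_sd hnb.1).2 h₁)
      (hend u hu _ _ _ (wadj_sd hnb.2.1).2 h₂) (hend u hu _ _ _ (wadj_sd hnb.2.2.1).2 h₃) hC'
      ⟨_, k₁, rfl⟩ ⟨_, k₂, rfl⟩ ⟨_, k₃, rfl⟩ ?_
    rintro _ ⟨x, hx, rfl⟩
    rcases hl x hx with rfl | rfl | rfl | h1
    · exact Or.inl rfl
    · exact Or.inr (Or.inl rfl)
    · exact Or.inr (Or.inr (Or.inl rfl))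
    · exact Or.inr (Or.inr (Or.inr (hloc u hu _ _ x (hCT x hx) h1)))
  · intro u v₁ v₂ v₃ o₁ o₂ o₃ C y b hnb hu h₁ h₂ h₃ hC hb hbC k₁ k₂ hl
    obtain ⟨hC', hCT⟩ := hstar u v₁ v₂ v₃ C hnb hu hC
    refine in1 hR hD le_rfl hno hc' hW' hnb hu (hend u hu _ _ _ (wadj_sd hnb.1).2 h₁)
      (hend u hu _ _ _ (wadj_sd hnb.2.1).2 h₂) (hend u hu _ _ _ (wadj_sd hnb.2.2.1).2 h₃) hC'
      (hexit u hu _ _ _ hb) ⟨_, hbC, rfl⟩ ⟨_, k₁, rfl⟩ ⟨_, k₂, rfl⟩ ?_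
    rintro _ ⟨x, hx, rfl⟩
    rcases hl x hx with rfl | rfl | rfl | rfl | h1
    · exact Or.inl rfl
    · exact Or.inr (Or.inl rfl)
    · exact Or.inr (Or.inr (Or.inl rfl))
    · exact Or.inr (Or.inr (Or.inr (Or.inl rfl)))
    · exact Or.inr (Or.inr (Or.inr (Or.inr (hloc u hu _ _ x (hCT x hx) h1))))
  · intro u v o₁ o₂ C y b huv hu h₁ h₂ hC hb hbC k₁ k₂ hl
    obtain ⟨hC', hCT⟩ := hrow u v C huv hu hC
    refine in2a hR hD le_rfl hno hc' hW' huv hu (hend u hu _ _ _ (hself u) h₁)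
      (hend u hu _ _ _ (wadj_sd huv).2 h₂) hC'
      (hexit u hu _ _ _ hb) ⟨_, hbC, rfl⟩ ⟨_, k₁, rfl⟩ ⟨_, k₂, rfl⟩ ?_
    rintro _ ⟨x, hx, rfl⟩
    rcases hl x hx with rfl | rfl | rfl | h1
    · exact Or.inl rfl
    · exact Or.inr (Or.inl rfl)
    · exact Or.inr (Or.inr (Or.inl rfl))
    · exact Or.inr (Or.inr (Or.inr (hloc u hu _ _ x (hCT x hx) h1)))
  · intro u v o₁ o₂ C y b y' b' huv hu h₁ h₂ hC hb hb' hyy hbu hbv hbC hbC' k₁ k₂ hl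
    obtain ⟨hC', hCT⟩ := hrow u v C huv hu hC
    refine in2b hR hD le_rfl hno hc' hW' huv hu (hend u hu _ _ _ (hself u) h₁)
      (hend u hu _ _ _ (wadj_sd huv).2 h₂) hC'
      (hexit u hu _ _ _ hb) (hexit u hu _ _ _ hb') hyy hbu hbv ⟨_, hbC, rfl⟩ ⟨_, hbC', rfl⟩
      ⟨_, k₁, rfl⟩ ⟨_, k₂, rfl⟩ ?_
    rintro _ ⟨x, hx, rfl⟩
    rcases hl x hx with rfl | rfl | rfl | rfl | h1
    · exact Or.inl rfl
    · exact Or.inr (Or.inl rfl)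
    · exact Or.inr (Or.inr (Or.inl rfl))
    · exact Or.inr (Or.inr (Or.inr (Or.inl rfl)))
    · exact Or.inr (Or.inr (Or.inr (Or.inr (hloc u hu _ _ x (hCT x hx) h1))))

end DA
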