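import Pool.Agent.DA.LinkDef

/-!
# Small vertex boundaries in the brick wall, and the conditions (HC), (LC)
-/

open Set Relation BIC BICS

namespace DA

/-- `B` contains all neighbours of `F` outside of `F` -/
structure IsoB (F B : Finset (ℕ × ℕ)) : Prop where
  pos : ∀ p ∈ F, 1 ≤ p.1 ∧ 1 ≤ p.2
  bd : ∀ p ∈ F, ∀ q, wadj p q → q ∈ F ∨ q ∈ B
  dis : ∀ p ∈ F, p ∉ B

section

variable {F B : Finset (ℕ × ℕ)}

lemma wadj_par' {p q : ℕ × ℕ} (h : wadj p q) : (p.1 + p.2 + (q.1 + q.2)) % 2 = 1 := by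
  unfold wadj at h
  omega

lemma wadj_vn {p : ℕ × ℕ} (h : 1 ≤ p.2) : wadj p (vn p) ∧ (vn p).1 = p.1 ∧
    ((vn p).2 = p.2 + 1 ∧ (p.1 + p.2) % 2 = 0 ∨ (vn p).2 + 1 = p.2 ∧ (p.1 + p.2) % 2 = 1) := by
  by_cases h1 : (p.1 + p.2) % 2 = 0
  · have e : vn p = (p.1, p.2 + 1) := by
      unfold vn
      rw [if_pos h1]
    rw [e]
    exact ⟨Or.inr ⟨rfl, Or.inl ⟨rfl, h1⟩⟩, rfl, Or.inl ⟨rfl, h1⟩⟩
  · have e : vn p = (p.1, p.2 - 1) := by
      unfold vn
      rw [if_neg h1]
    rw [e]
    refine ⟨Or.inr ⟨rfl, Or.inr ⟨?_, ?_⟩⟩, rfl, Or.inr ⟨?_, by omega⟩⟩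
    · show p.2 - 1 + 1 = p.2
      omega
    · show (p.1 + (p.2 - 1)) % 2 = 0
      omega
    · show p.2 - 1 + 1 = p.2
      omega

/-- the boundary to the left -/
lemma IsoB.left (h : IsoB F B) {y : ℕ} : ∀ x, (x, y) ∈ F → ∃ x₀ < x, (x₀, y) ∈ B ∧
    ∀ x', x₀ < x' → x' ≤ x → (x', y) ∈ F := by
  intro x
  induction x with
  | zero =>
    intro hx
    have := h.pos _ hx
    simp only at this
    omega
  | succ x ih =>
    intro hx
    rcases h.bd _ hx (x, y) (Or.inl ⟨rfl, Or.inr rfl⟩) with h1 | h1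
    · obtain ⟨x₀, h2, h3, h4⟩ := ih h1
      refine ⟨x₀, by omega, h3, fun x' h5 h6 => ?_⟩
      by_cases h7 : x' = x + 1
      · rw [h7]
        exact hx
      · exact h4 x' h5 (by omega)
    · refine ⟨x, by omega, h1, fun x' h5 h6 => ?_⟩
      rw [show x' = x + 1 by omega]
      exact hx

/-- the boundary to the right -/
lemma IsoB.right (h : IsoB F B) {y : ℕ} : ∀ x, (x, y) ∈ F → ∃ x₁ > x, (x₁, y) ∈ B ∧
    ∀ x', x ≤ x' → x' < x₁ → (x', y) ∈ F := by
  obtain ⟨m, hm⟩ : ∃ m, ∀ p ∈ F, p.1 < m := by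
    refine ⟨F.sup (fun p => p.1 + 1), fun p hp => ?_⟩
    have := Finset.le_sup (f := fun p : ℕ × ℕ => p.1 + 1) hp
    omega
  have key : ∀ d x, x + d = m → (x, y) ∈ F → ∃ x₁ > x, (x₁, y) ∈ B ∧
      ∀ x', x ≤ x' → x' < x₁ → (x', y) ∈ F := by
    intro d
    induction d with
    | zero =>
      intro x hxd hx
      have := hm _ hx
      simp only at this
      omega
    | succ d ih =>
      intro x hxd hx
      rcases h.bd _ hx (x + 1, y) (Or.inl ⟨rfl, Or.inl rfl⟩) with h1 | h1
      · obtain ⟨x₁, h2, h3, h4⟩ := ih (x + 1) (by omega) h1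
        refine ⟨x₁, by omega, h3, fun x' h5 h6 => ?_⟩
        by_cases h7 : x' = x
        · rw [h7]
          exact hx
        · exact h4 x' (by omega) h6
      · refine ⟨x + 1, by omega, h1, fun x' h5 h6 => ?_⟩
        rw [show x' = x by omega]
        exact hx
  intro x hx
  have := hm _ hx
  simp only at this
  exact key (m - x) x (by omega) hx

/-- One row. -/
lemma IsoB.row (h : IsoB F B) {y : ℕ} (hy : ∀ p ∈ F, p.2 = y) (hne : F.Nonempty) :
    F.card + 2 ≤ B.card := by
  classical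
  obtain ⟨p, hp⟩ := hne
  have hp' : (p.1, y) ∈ F := by rw [← hy p hp]; exact hp
  obtain ⟨x₀, h1, h2, _⟩ := h.left _ hp'
  obtain ⟨x₁, h3, h4, _⟩ := h.right _ hp'
  have hv : ∀ f ∈ F, vn f ∈ B ∧ (vn f).2 ≠ y := by
    intro f hf
    obtain ⟨g1, g2, g3⟩ := wadj_vn (h.pos f hf).2
    have g4 : (vn f).2 ≠ y := by
      rw [← hy f hf]
      omega
    refine ⟨?_, g4⟩
    rcases h.bd f hf _ g1 with g5 | g5
    · exact absurd (hy _ g5) g4
    · exact g5
  have hinj : (F.image vn).card = F.card := by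
    refine Finset.card_image_of_injOn fun a ha b hb hab => ?_
    have g1 := (wadj_vn (h.pos a ha).2).2.1
    have g2 := (wadj_vn (h.pos b hb).2).2.1
    have g3 := hy a ha
    have g4 := hy b hb
    refine Prod.ext ?_ ?_
    · rw [← g1, ← g2, hab]
    · rw [g3, g4]
  have hsub : insert (x₀, y) (insert (x₁, y) (F.image vn)) ⊆ B := by
    intro b hb
    rw [Finset.mem_insert, Finset.mem_insert] at hb
    rcases hb with rfl | rfl | hb
    · exact h2
    · exact h4
    · obtain ⟨f, hf, rfl⟩ := Finset.mem_image.1 hb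
      exact (hv f hf).1
  have hc := Finset.card_le_card hsub
  have hn : ∀ x, (x, y) ∉ F.image vn := by
    intro x hx
    obtain ⟨f, hf, hfx⟩ := Finset.mem_image.1 hx
    exact (hv f hf).2 (by rw [hfx])
  rw [Finset.card_insert_of_notMem, Finset.card_insert_of_notMem (hn _), hinj] at hc
  · omega
  · rw [Finset.mem_insert, not_or]
    refine ⟨fun hcon => ?_, hn _⟩
    have := congrArg Prod.fst hcon
    simp only at this
    omega

/-- Two rows. -/
lemma IsoB.two (h : IsoB F B) {p q : ℕ × ℕ} (hp : p ∈ F) (hq : q ∈ F) (hpq : p.2 ≠ q.2) :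
    4 ≤ B.card ∧ (B.card ≤ 4 → F = {p, q} ∧ wadj p q) := by
  classical
  obtain ⟨a, ha, ha1, ha2⟩ := h.left _ (show (p.1, p.2) ∈ F from hp)
  obtain ⟨b, hb, hb1, hb2⟩ := h.right _ (show (p.1, p.2) ∈ F from hp)
  obtain ⟨c, hc, hc1, hc2⟩ := h.left _ (show (q.1, q.2) ∈ F from hq)
  obtain ⟨d, hd, hd1, hd2⟩ := h.right _ (show (q.1, q.2) ∈ F from hq)
  have hcard : ({(a, p.2), (b, p.2), (c, q.2), (d, q.2)} : Finset (ℕ × ℕ)).card = 4 := by
    rw [Finset.card_insert_of_notMem, Finset.card_insert_of_notMem,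
      Finset.card_insert_of_notMem, Finset.card_singleton]
    all_goals
      simp only [Finset.mem_insert, Finset.mem_singleton, Prod.mk.injEq, not_or, not_and]
      omega
  have hsub : ({(a, p.2), (b, p.2), (c, q.2), (d, q.2)} : Finset (ℕ × ℕ)) ⊆ B := by
    intro x hx
    simp only [Finset.mem_insert, Finset.mem_singleton] at hx
    rcases hx with rfl | rfl | rfl | rfl
    · exact ha1
    · exact hb1
    · exact hc1
    · exact hd1
  refine ⟨by rw [← hcard]; exact Finset.card_le_card hsub, fun h4 => ?_⟩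
  have hB : B = {(a, p.2), (b, p.2), (c, q.2), (d, q.2)} :=
    (Finset.eq_of_subset_of_card_le hsub (by rw [hcard]; exact h4)).symm
  have hBm : ∀ x y, (x, y) ∈ B → (y = p.2 ∧ (x = a ∨ x = b)) ∨ (y = q.2 ∧ (x = c ∨ x = d)) := by
    intro x y hxy
    rw [hB] at hxy
    simp only [Finset.mem_insert, Finset.mem_singleton, Prod.mk.injEq] at hxy
    omega
  -- all elements of `F`
  have hF : ∀ f ∈ F, (f.2 = p.2 ∨ f.2 = q.2) ∧ ((vn f).2 = p.2 ∨ (vn f).2 = q.2) := by
    have h5 : ∀ f ∈ F, f.2 = p.2 ∨ f.2 = q.2 := by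
      intro f hf
      obtain ⟨x, _, g1, _⟩ := h.left _ (show (f.1, f.2) ∈ F from hf)
      have := hBm _ _ g1
      omega
    intro f hf
    refine ⟨h5 f hf, ?_⟩
    rcases h.bd f hf _ (wadj_vn (h.pos f hf).2).1 with g1 | g1
    · exact h5 _ g1
    · have := hBm (vn f).1 (vn f).2 g1
      omega
  -- the same row: equal
  have hkey : ∀ s t : ℕ × ℕ, s ∈ F → t ∈ F → s.2 = t.2 → ¬ s.1 < t.1 := by
    intro s t hs ht hst hlt
    -- `(s.1 + 1, s.2)` is in `F`
    have g1 : (s.1 + 1, s.2) ∈ F := by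
      rcases h.bd s hs (s.1 + 1, s.2) (Or.inl ⟨rfl, Or.inl rfl⟩) with g1 | g1
      · exact g1
      · exfalso
        have g2 := hBm _ _ g1
        obtain ⟨x, k1, k2, k3⟩ := h.left _ (show (s.1, s.2) ∈ F from hs)
        obtain ⟨x', k4, k5, k6⟩ := h.right _ (show (t.1, t.2) ∈ F from ht)
        have k7 := hBm _ _ k2
        have k8 := hBm _ _ k5
        omega
    have g2 := hF s hs
    have g3 := hF _ g1
    have g4 := (wadj_vn (h.pos s hs).2).2
    have g5 := (wadj_vn (h.pos _ g1).2).2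
    simp only at g3 g5
    omega
  have hFpq : F = {p, q} := by
    ext f
    rw [Finset.mem_insert, Finset.mem_singleton]
    constructor
    · intro hf
      rcases (hF f hf).1 with g1 | g1
      · have g2 := hkey f p hf hp g1
        have g3 := hkey p f hp hf g1.symm
        exact Or.inl (Prod.ext (by omega) g1)
      · have g2 := hkey f q hf hq g1
        have g3 := hkey q f hq hf g1.symm
        exact Or.inr (Prod.ext (by omega) g1)
    · rintro (rfl | rfl)
      · exact hp
      · exact hq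
  refine ⟨hFpq, ?_⟩
  have g1 := wadj_vn (h.pos p hp).2
  rcases h.bd p hp _ g1.1 with g2 | g2
  · rw [hFpq, Finset.mem_insert, Finset.mem_singleton] at g2
    rcases g2 with g2 | g2
    · have := congrArg Prod.snd g2
      omega
    · rw [← g2]
      exact g1.1
  · -- the vertical neighbour of `p` is a horizontal neighbour of `q`: parity
    exfalso
    have g3 := hBm (vn p).1 (vn p).2 g2
    have g4 := (hF p hp)
    have g5 := (hF q hq)
    have g6 := wadj_vn (h.pos q hq).2
    -- neighbours of `q` in its row are in `B`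
    have g7 : q.1 + 1 = d := by
      rcases h.bd q hq (q.1 + 1, q.2) (Or.inl ⟨rfl, Or.inl rfl⟩) with k1 | k1
      · exact absurd (show q.1 < q.1 + 1 by omega) (hkey q _ hq k1 rfl)
      · have := hBm _ _ k1
        omega
    have g8 : c + 1 = q.1 := by
      have k0 := (h.pos q hq).1
      rcases h.bd q hq (q.1 - 1, q.2) (Or.inl ⟨rfl, Or.inr (by simp only; omega)⟩) with k1 | k1
      · exact absurd (show q.1 - 1 < q.1 by omega) (hkey _ q k1 hq rfl)
      · have := hBm _ _ k1
        omega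
    omega

/-- **Small boundaries.** -/
theorem IsoB.main (h : IsoB F B) (hne : F.Nonempty) (h4 : B.card ≤ 4) :
    3 ≤ B.card ∧ ((∃ p, F = {p}) ∨ ∃ p f, wadj p f ∧ F = {p, f} ∧ B.card = 4) := by
  classical
  obtain ⟨p, hp⟩ := hne
  by_cases hrow : ∀ f ∈ F, f.2 = p.2
  · have h1 := h.row hrow ⟨p, hp⟩
    have h2 : 0 < F.card := Finset.card_pos.2 ⟨p, hp⟩
    refine ⟨by omega, ?_⟩
    have h3 : F.card = 1 ∨ F.card = 2 := by omega
    rcases h3 with h3 | h3
    · exact Or.inl (Finset.card_eq_one.1 h3)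
    · right
      obtain ⟨a, b, hab, hF⟩ := Finset.card_eq_two.1 h3
      -- the smaller one first
      have key : ∀ a b : ℕ × ℕ, a ∈ F → b ∈ F → F = {a, b} → a.1 < b.1 → wadj a b := by
        intro a b ha hb hF hab
        by_contra hcon
        have ea := hrow a ha
        have eb := hrow b hb
        have hab1 : a.1 + 1 < b.1 := by
          by_contra h5
          exact hcon (Or.inl ⟨by omega, Or.inl (by omega)⟩)
        have ga := wadj_vn (h.pos a ha).2
        have gb := wadj_vn (h.pos b hb).2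
        have pa := h.pos a ha
        have hnF : ∀ x y, (x, y) ≠ a → (x, y) ≠ b → (x, y) ∉ F := by
          intro x y g1 g2 g3
          rw [hF, Finset.mem_insert, Finset.mem_singleton] at g3
          exact g3.elim g1 g2
        have m1 : (a.1 - 1, a.2) ∈ B := by
          rcases h.bd a ha (a.1 - 1, a.2) (Or.inl ⟨rfl, Or.inr (by simp only; omega)⟩) with g | g
          · refine absurd g (hnF _ _ (fun e => ?_) (fun e => ?_))
            · have := congrArg Prod.fst e
              simp only at this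
              omega
            · have := congrArg Prod.fst e
              simp only at this
              omega
          · exact g
        have m2 : (a.1 + 1, a.2) ∈ B := by
          rcases h.bd a ha (a.1 + 1, a.2) (Or.inl ⟨rfl, Or.inl rfl⟩) with g | g
          · refine absurd g (hnF _ _ (fun e => ?_) (fun e => ?_))
            · have := congrArg Prod.fst e
              simp only at this
              omega
            · have := congrArg Prod.fst e
              simp only at this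
              omega
          · exact g
        have m3 : (b.1 + 1, b.2) ∈ B := by
          rcases h.bd b hb (b.1 + 1, b.2) (Or.inl ⟨rfl, Or.inl rfl⟩) with g | g
          · refine absurd g (hnF _ _ (fun e => ?_) (fun e => ?_))
            · have := congrArg Prod.fst e
              simp only at this
              omega
            · have := congrArg Prod.fst e
              simp only at this
              omega
          · exact g
        have m4 : ((vn a).1, (vn a).2) ∈ B := by
          rcases h.bd a ha _ ga.1 with g | g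
          · refine absurd g (hnF (vn a).1 (vn a).2 (fun e => ?_) (fun e => ?_))
            · have := congrArg Prod.snd e
              simp only at this
              omega
            · have := congrArg Prod.snd e
              simp only at this
              omega
          · exact g
        have m5 : ((vn b).1, (vn b).2) ∈ B := by
          rcases h.bd b hb _ gb.1 with g | g
          · refine absurd g (hnF (vn b).1 (vn b).2 (fun e => ?_) (fun e => ?_))
            · have := congrArg Prod.snd e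
              simp only at this
              omega
            · have := congrArg Prod.snd e
              simp only at this
              omega
          · exact g
        have hcard : ({(a.1 - 1, a.2), (a.1 + 1, a.2), (b.1 + 1, b.2), ((vn a).1, (vn a).2),
            ((vn b).1, (vn b).2)} : Finset (ℕ × ℕ)).card = 5 := by
          rw [Finset.card_insert_of_notMem, Finset.card_insert_of_notMem,
            Finset.card_insert_of_notMem, Finset.card_insert_of_notMem, Finset.card_singleton]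
          all_goals
            simp only [Finset.mem_insert, Finset.mem_singleton, Prod.mk.injEq, not_or, not_and]
            omega
        have hsub : ({(a.1 - 1, a.2), (a.1 + 1, a.2), (b.1 + 1, b.2), ((vn a).1, (vn a).2),
            ((vn b).1, (vn b).2)} : Finset (ℕ × ℕ)) ⊆ B := by
          intro x hx
          simp only [Finset.mem_insert, Finset.mem_singleton] at hx
          rcases hx with rfl | rfl | rfl | rfl | rfl
          · exact m1
          · exact m2
          · exact m3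
          · exact m4
          · exact m5
        have := Finset.card_le_card hsub
        omega
      have haF : a ∈ F := by rw [hF]; simp
      have hbF : b ∈ F := by rw [hF]; simp
      have ea := hrow a haF
      have eb := hrow b hbF
      rcases Nat.lt_trichotomy a.1 b.1 with g | g | g
      · exact ⟨a, b, key a b haF hbF hF g, hF, by omega⟩
      · exact absurd (Prod.ext g (by rw [ea, eb])) hab
      · exact ⟨b, a, key b a hbF haF (by rw [hF, Finset.pair_comm]) g,
          by rw [hF, Finset.pair_comm], by omega⟩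
  · push Not at hrow
    obtain ⟨q, hq, hqp⟩ := hrow
    obtain ⟨h1, h2⟩ := h.two hp hq (fun e => hqp e.symm)
    obtain ⟨h3, h5⟩ := h2 h4
    exact ⟨by omega, Or.inr ⟨p, q, h5, h3, by omega⟩⟩

end

/-! ### The set which is separated -/

lemma Cn.mem_right {r : ℕ × ℕ → ℕ × ℕ → Prop} {U : Set (ℕ × ℕ)} {a b : ℕ × ℕ}
    (h : Cn r U a b) (ha : a ∈ U) : b ∈ U := by
  induction h with
  | refl => exact ha
  | tail _ h2 _ => exact h2.2.2

/-- the vertices which are reached -/
lemma reached {w N : ℕ} {ω : Set (Sym2 (ℕ × ℕ))} {Λ C : Finset (ℕ × ℕ)}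
    (hdeep : ∀ l ∈ Λ, DeepR (0, 0) (w + 1) (w + 1) (N + 2) l)
    (hno : ∀ l ∈ Λ, l ∉ C → ∀ x, N ≤ sd x l → ¬ Cn (wr w ω) (C : Set (ℕ × ℕ))ᶜ l x) :
    ∃ F : Finset (ℕ × ℕ), (∀ l ∈ Λ, l ∉ C → l ∈ F) ∧ (∀ f ∈ F, f ∉ C ∧ 1 ≤ f.1 ∧ 1 ≤ f.2 ∧
      ∃ l ∈ Λ, l ∉ C ∧ Cn (wr w ω) (C : Set (ℕ × ℕ))ᶜ l f) ∧
      ∀ f ∈ F, ∀ q, wadj f q → q ∈ F ∨ q ∈ C ∨ s(f, q) ∈ ω := by
  classical
  obtain ⟨F₀, hF₀⟩ : ∃ F₀ : Set (ℕ × ℕ), F₀ = {f | ∃ l ∈ Λ, l ∉ C ∧
      Cn (wr w ω) (C : Set (ℕ × ℕ))ᶜ l f} := ⟨_, rfl⟩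
  have hb : ∀ f ∈ F₀, 2 ≤ f.1 ∧ 2 ≤ f.2 ∧ f.1 + 2 ≤ w + 1 ∧ f.2 + 2 ≤ w + 1 := by
    intro f hf
    rw [hF₀] at hf
    obtain ⟨l, h1, h2, h3⟩ := hf
    have h4 : ¬ N ≤ sd f l := fun h5 => hno l h1 h2 f h5 h3
    have h5 := hdeep l h1
    have h6 : sd f l ≤ N := by omega
    rw [sd_le] at h6
    unfold DeepR at h5
    simp only at h5
    omega
  have hfin : F₀.Finite := by
    refine ((Set.finite_Iic w).prod (Set.finite_Iic w)).subset ?_
    intro f hf
    have := hb f hf
    exact ⟨show f.1 ≤ w by omega, show f.2 ≤ w by omega⟩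
  refine ⟨hfin.toFinset, ?_, ?_, ?_⟩
  · intro l hl hlC
    rw [Set.Finite.mem_toFinset, hF₀]
    exact ⟨l, hl, hlC, Cn.refl⟩
  · intro f hf
    rw [Set.Finite.mem_toFinset] at hf
    have h1 := hb f hf
    rw [hF₀] at hf
    obtain ⟨l, h2, h3, h4⟩ := hf
    have h5 := h4.mem_right (show l ∈ (C : Set (ℕ × ℕ))ᶜ from fun h => h3 (Finset.mem_coe.1 h))
    exact ⟨fun h => h5 (Finset.mem_coe.2 h), by omega, by omega, l, h2, h3, h4⟩
  · intro f hf q hfq
    rw [Set.Finite.mem_toFinset] at hf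
    by_cases h1 : q ∈ C
    · exact Or.inr (Or.inl h1)
    by_cases h2 : s(f, q) ∈ ω
    · exact Or.inr (Or.inr h2)
    left
    rw [Set.Finite.mem_toFinset, hF₀]
    have h3 := hb f hf
    rw [hF₀] at hf
    obtain ⟨l, h4, h5, h6⟩ := hf
    refine ⟨l, h4, h5, h6.trans (Cn.step ⟨hfq, ?_, ?_, h2⟩ ?_ ?_)⟩
    · rw [Gad.mem_rct]
      omega
    · rw [Gad.mem_rct]
      unfold wadj at hfq
      omega
    · exact h6.mem_right (fun h => h5 (Finset.mem_coe.1 h))
    · exact fun h => h1 (Finset.mem_coe.1 h)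

/-! ### (HC) and (LC) -/

/-- (HC), few missing vertices -/
lemma hc_gen {w N : ℕ} {ω : Set (Sym2 (ℕ × ℕ))} {u v : ℕ × ℕ}
    (hω : ∀ f q, wadj f q → s(f, q) ∈ ω → q = u ∨ q = v ∨ f = u) {p : ℕ × ℕ}
    (hu : ¬ Cn (wr w ω) univ p u ∨ ∀ q, wadj u q → s(u, q) ∈ ω → q = u ∨ q = v)
    (hp : DeepR (0, 0) (w + 1) (w + 1) (N + 2) p) :
    ∃ x, N ≤ sd x p ∧ Cn (wr w ω) univ p x := by
  classical
  by_contra hcon
  push Not at hcon
  obtain ⟨F, h1, h2, h3⟩ := reached (w := w) (N := N) (ω := ω) (Λ := {p}) (C := ∅) (by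
    intro l hl
    rw [Finset.mem_singleton] at hl
    rw [hl]
    exact hp) (by
    intro l hl _ x hx
    rw [Finset.mem_singleton] at hl
    rw [hl] at hx ⊢
    rw [Finset.coe_empty, compl_empty]
    exact hcon x hx)
  have hB : IsoB F (({u, v} : Finset (ℕ × ℕ)).filter (fun x => x ∉ F)) := by
    refine ⟨fun f hf => ⟨(h2 f hf).2.1, (h2 f hf).2.2.1⟩, ?_, ?_⟩
    · intro f hf q hfq
      by_cases hqF : q ∈ F
      · exact Or.inl hqF
      right
      rw [Finset.mem_filter, Finset.mem_insert, Finset.mem_singleton]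
      refine ⟨?_, hqF⟩
      rcases h3 f hf q hfq with g | g | g
      · exact absurd g hqF
      · exact absurd g (Finset.notMem_empty _)
      · rcases hω f q hfq g with k | k | k
        · exact Or.inl k
        · exact Or.inr k
        · rw [k] at hf hfq g
          rcases hu with hu | hu
          · obtain ⟨l, hl, _, hlu⟩ := (h2 u hf).2.2.2
            rw [Finset.mem_singleton] at hl
            rw [hl, Finset.coe_empty, compl_empty] at hlu
            exact absurd hlu hu
          · exact hu q hfq g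
    · intro f hf hfB
      exact (Finset.mem_filter.1 hfB).2 hf
  have hc : (({u, v} : Finset (ℕ × ℕ)).filter (fun x => x ∉ F)).card ≤ 2 :=
    (Finset.card_filter_le _ _).trans Finset.card_le_two
  have := (hB.main ⟨p, h1 p (Finset.mem_singleton_self _) (Finset.notMem_empty _)⟩
    (by omega)).1
  omega

/-- a vertex without edges is not reached -/
lemma star_unreached {w : ℕ} {ω : Set (Sym2 (ℕ × ℕ))} {u : ℕ × ℕ}
    (hω : ∀ p q, wadj p q → (s(p, q) ∈ ω ↔ p = u ∨ q = u)) {U : Set (ℕ × ℕ)} {p : ℕ × ℕ}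
    (hp : p ≠ u) : ¬ Cn (wr w ω) U p u := by
  intro h
  have key : ∀ x, Cn (wr w ω) U p x → x ≠ u := by
    intro x hx
    induction hx with
    | refl => exact hp
    | @tail b c _ h2 _ =>
      rintro rfl
      exact h2.1.2.2.2 ((hω _ _ h2.1.1).2 (Or.inr rfl))
  exact key u h rfl

/-- (HC) at a missing vertex -/
theorem hc_star {w R : ℕ} {ω : Set (Sym2 (ℕ × ℕ))} {u : ℕ × ℕ}
    (hω : ∀ p q, wadj p q → (s(p, q) ∈ ω ↔ p = u ∨ q = u))
    (hu : DeepR (0, 0) (w + 1) (w + 1) (RE R + R + 2) u) :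
    ∀ p, sd p u ≤ R → (∃ q, wr w ω p q) → ∃ x, RE R ≤ sd x p ∧ Cn (wr w ω) univ p x := by
  rintro p hp ⟨q, hq⟩
  have hpu : p ≠ u := fun h => hq.2.2.2 ((hω _ _ hq.1).2 (Or.inl h))
  refine hc_gen (u := u) (v := u) ?_ (Or.inl (star_unreached hω hpu)) ?_
  · intro f q' h1 h2
    rcases (hω f q' h1).1 h2 with h3 | h3
    · exact Or.inr (Or.inr h3)
    · exact Or.inl h3
  · rw [sd_le] at hp
    unfold DeepR at hu ⊢
    simp only at hu ⊢
    omega

/-- (HC) at a missing edge -/
theorem hc_row {w R : ℕ} {ω : Set (Sym2 (ℕ × ℕ))} {u v o : ℕ × ℕ}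
    (hω : ∀ p q, wadj p q → s(p, q) ∈ ω → s(p, q) = s(u, v))
    (ho : DeepR (0, 0) (w + 1) (w + 1) (RE R + R + 2) o) :
    ∀ p, sd p o ≤ R → (∃ q, wr w ω p q) → ∃ x, RE R ≤ sd x p ∧ Cn (wr w ω) univ p x := by
  rintro p hp _
  have hω' : ∀ f q, wadj f q → s(f, q) ∈ ω → q = u ∨ q = v := by
    intro f q h1 h2
    have h3 := hω f q h1 h2
    rw [Sym2.eq_iff] at h3
    rcases h3 with ⟨_, h3⟩ | ⟨_, h3⟩
    · exact Or.inr h3
    · exact Or.inl h3
  refine hc_gen (u := u) (v := v) ?_ (Or.inr fun q h1 h2 => hω' _ _ h1 h2) ?_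
  · intro f q' h1 h2
    rcases hω' _ _ h1 h2 with h3 | h3
    · exact Or.inl h3
    · exact Or.inr (Or.inl h3)
  · rw [sd_le] at hp
    unfold DeepR at ho ⊢
    simp only at ho ⊢
    omega

end DA
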