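import Pool.Agent.DA.LocSys

/-!
# Kinds of elements in location systems (helper77)

Which rows are seen by an element which sees two visible rows.
-/

open Set

namespace DA

variable {V Ch : Type*} {adj : V → V → Prop} {Reg Vis : V → Prop} {Y : Ch → Set V}
  {Sn : V → V → Prop}

namespace LocS

variable (h : LocS adj Reg Vis Y Sn)
include h

/-- **Two disjoint rows**: no other row at the ends. -/
lemma far_quiet {u v p q b : V} (huv : adj u v) (hu : Vis u) (hv : Vis v) (hs : Sn u v)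
    (hpq : adj p q) (hp : Reg p) (hs' : Sn p q) (hpn : p ∉ ({u, v} : Set V))
    (hqn : q ∉ ({u, v} : Set V)) (hub : adj u b) (hne : b ≠ v) : ¬ Sn u b := by
  intro hsb
  have h1 := h.near_of_two huv hu hv hs hub hsb (Ne.symm hne)
  obtain ⟨c₀⟩ := h.ne
  obtain ⟨c, h2, _⟩ := h.tog p q hpq hp hs' c₀
  rcases h1 c h2 with h3 | h3
  · exact hpn (Or.inl h3)
  · have hq := (h.vis₂ u p q hu h3 hpq).2
    obtain ⟨c', h4, _⟩ := h.tog q p (h.symm _ _ hpq) hq (h.snsymm _ _ hs') c₀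
    rcases h1 c' h4 with h5 | h5
    · exact hqn (Or.inl h5)
    · exact h.tri u p q h3 hpq h5

/-- **Two disjoint rows**: no other row is seen. -/
lemma far_other {u v p q a b : V} (huv : adj u v) (hu : Vis u) (hv : Vis v) (hs : Sn u v)
    (hpq : adj p q) (hp : Reg p) (hs' : Sn p q) (hpn : p ∉ ({u, v} : Set V))
    (hqn : q ∉ ({u, v} : Set V)) (hab : adj a b) (ha : Reg a) (hb : Reg b) (hsab : Sn a b) :
    (a ∈ ({u, v} : Set V) ∧ b ∈ ({u, v} : Set V)) ∨ (a ∈ ({p, q} : Set V) ∧ b ∈ ({p, q} : Set V)) := by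
  have h1 := h.supp_far huv hu hv hs hpq hs' hpn hqn
  obtain ⟨c₀⟩ := h.ne
  have hin : ∀ {a b : V}, adj a b → Reg a → Sn a b → a ∈ ({u, v, p, q} : Set V) := by
    intro a b hab ha hsab
    obtain ⟨c, h2, _⟩ := h.tog a b hab ha hsab c₀
    exact h1 c h2
  have h2 := hin hab ha hsab
  have h3 := hin (h.symm _ _ hab) hb (h.snsymm _ _ hsab)
  have key : ∀ a b, adj a b → Sn a b → a ∈ ({u, v} : Set V) → b ∉ ({u, v} : Set V) → False := by
    intro a b hab hsab ha hb
    have hb' : b ≠ u ∧ b ≠ v := by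
      refine ⟨?_, ?_⟩
      · rintro rfl
        exact hb (Or.inl rfl)
      · rintro rfl
        exact hb (Or.inr rfl)
    rcases ha with rfl | ha
    · exact h.far_quiet huv hu hv hs hpq hp hs' hpn hqn hab hb'.2 hsab
    · rw [mem_singleton_iff] at ha
      subst ha
      have e1 : ({u, a} : Set V) = {a, u} := pair_comm _ _
      exact h.far_quiet (h.symm _ _ huv) hv hu (h.snsymm _ _ hs) hpq hp hs' (e1 ▸ hpn) (e1 ▸ hqn)
        hab hb'.1 hsab
  have hsp : ∀ x, x ∈ ({u, v, p, q} : Set V) → x ∈ ({u, v} : Set V) ∨ x ∈ ({p, q} : Set V) := by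
    intro x hx
    simp only [mem_insert_iff, mem_singleton_iff] at hx ⊢
    tauto
  by_cases ha' : a ∈ ({u, v} : Set V)
  · by_cases hb' : b ∈ ({u, v} : Set V)
    · exact Or.inl ⟨ha', hb'⟩
    · exact (key a b hab hsab ha' hb').elim
  · by_cases hb' : b ∈ ({u, v} : Set V)
    · exact (key b a (h.symm _ _ hab) (h.snsymm _ _ hsab) hb' ha').elim
    · exact Or.inr ⟨(hsp a h2).resolve_left ha', (hsp b h3).resolve_left hb'⟩

/-- **Two rows at `u`**: no other row at the outer end `v`. -/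
lemma near_quiet {u v v' b : V} (huv : adj u v) (hu : Vis u) (hv : Vis v) (hs : Sn u v)
    (huv' : adj u v') (hs' : Sn u v') (hne : v ≠ v') (hvb : adj v b) (hbu : b ≠ u) : ¬ Sn v b := by
  intro hsb
  have h1 := h.near_of_two (h.symm _ _ huv) hv hu (h.snsymm _ _ hs) hvb hsb (Ne.symm hbu)
  obtain ⟨c₀⟩ := h.ne
  obtain ⟨c, h2, _⟩ := h.tog v' u (h.symm _ _ huv')
    (h.vis₂ u v' u hu huv' (h.symm _ _ huv')).1 (h.snsymm _ _ hs') c₀
  rcases h1 c h2 with h3 | h3
  · exact hne h3.symm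
  · exact h.tri u v v' huv h3 huv'

/-- **Two rows at `u`**: all rows which are seen are at `u`. -/
lemma near_other {u v v' p q : V} (huv : adj u v) (hu : Vis u) (hv : Vis v) (hs : Sn u v)
    (huv' : adj u v') (hs' : Sn u v') (hne : v ≠ v') (hpq : adj p q) (hp : Reg p) (hq : Reg q)
    (hspq : Sn p q) : p = u ∨ q = u := by
  have h1 := h.near_of_two huv hu hv hs huv' hs' hne
  obtain ⟨c₀⟩ := h.ne
  obtain ⟨c, h2, _⟩ := h.tog p q hpq hp hspq c₀
  obtain ⟨c', h3, _⟩ := h.tog q p (h.symm _ _ hpq) hq (h.snsymm _ _ hspq) c₀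
  rcases h1 c h2 with h4 | h4
  · exact Or.inl h4
  rcases h1 c' h3 with h5 | h5
  · exact Or.inr h5
  exact (h.tri u p q h4 hpq h5).elim

/-- a local element of the star of `u` sees only rows at `u` -/
lemma star_other {u p q : V} (hY : ∀ c, Y c ⊆ nst adj u) (hpq : adj p q) (hp : Reg p) (hq : Reg q)
    (hspq : Sn p q) : p = u ∨ q = u := by
  obtain ⟨c₀⟩ := h.ne
  obtain ⟨c, h2, _⟩ := h.tog p q hpq hp hspq c₀
  obtain ⟨c', h3, _⟩ := h.tog q p (h.symm _ _ hpq) hq (h.snsymm _ _ hspq) c₀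
  rcases hY c h2 with h4 | h4
  · exact Or.inl h4
  rcases hY c' h3 with h5 | h5
  · exact Or.inr h5
  exact (h.tri u p q h4 hpq h5).elim

end LocS

end DA
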