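import Pool.Agent.DA.InL
import Pool.Agent.DA.StarTheta

/-!
# Local matroids of walls with windows (helper64)

The local matroid `P ／ F` of a wall with windows has the same ranks as the one of the healed wall:
circuits, independent sets, closures, thetas are the same.
-/

set_option autoImplicit false

open Set BIC BICS
open scoped Matroid

namespace DA

open Gad TST

universe u

/-- same ranks -/
structure SameRk {α β : Type*} (M : Matroid α) (M' : Matroid β) (j : α → β) : Prop where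
  inj : Function.Injective j
  ground : j '' M.E ⊆ M'.E
  rk : ∀ X ⊆ M.E, BIC.rk M' (j '' X) = BIC.rk M X

namespace SameRk

variable {α β : Type*} {M : Matroid α} {M' : Matroid β} {j : α → β}

lemma indep [M.Finite] [M'.Finite] (h : SameRk M M' j) {X : Set α} (hX : X ⊆ M.E) :
    M'.Indep (j '' X) ↔ M.Indep X := by
  have h1 := h.rk X hX
  have h2 : (j '' X).ncard = X.ncard := ncard_image_of_injective _ h.inj
  constructor
  · intro h3
    have h4 := rk_indep h3
    exact indep_of_rk hX (by omega)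
  · intro h3
    have h4 := rk_indep h3
    exact indep_of_rk ((image_mono hX).trans h.ground) (by omega)

lemma circ [M.Finite] [M'.Finite] (h : SameRk M M' j) {C : Set α} (hC : C ⊆ M.E) :
    M'.IsCircuit (j '' C) ↔ M.IsCircuit C := by
  have hj : ∀ e, j '' C \ {j e} = j '' (C \ {e}) := by
    intro e
    rw [image_sdiff h.inj, image_singleton]
  rw [Matroid.isCircuit_iff_dep_forall_sdiff_singleton_indep,
    Matroid.isCircuit_iff_dep_forall_sdiff_singleton_indep]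
  constructor
  · rintro ⟨h1, h2⟩
    refine ⟨⟨fun h3 => h1.1 ((h.indep hC).2 h3), hC⟩, fun e he => ?_⟩
    have h4 := h2 (j e) ⟨e, he, rfl⟩
    rw [hj, h.indep (sdiff_subset.trans hC)] at h4
    exact h4
  · rintro ⟨h1, h2⟩
    refine ⟨⟨fun h3 => h1.1 ((h.indep hC).1 h3), (image_mono hC).trans h.ground⟩, ?_⟩
    rintro _ ⟨e, he, rfl⟩
    rw [hj, h.indep (sdiff_subset.trans hC)]
    exact h2 e he

lemma cl [M.Finite] [M'.Finite] (h : SameRk M M' j) {X : Set α} {x : α} (hX : X ⊆ M.E)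
    (hx : x ∈ M.E) : j x ∈ M'.closure (j '' X) ↔ x ∈ M.closure X := by
  have h1 := h.rk X hX
  have h2 := h.rk (insert x X) (insert_subset hx hX)
  rw [image_insert_eq] at h2
  constructor
  · intro h3
    refine mem_of_rk hx ?_
    rw [rk_ins_of_mem h3] at h2
    omega
  · intro h3
    refine mem_of_rk (h.ground ⟨x, hx, rfl⟩) ?_
    rw [rk_ins_of_mem h3] at h2
    omega

lemma theta [M.Finite] [M'.Finite] (h : SameRk M M' j) {K F G H : Set α} (hK : K = F ∪ G ∪ H)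
    (hKE : K ⊆ M.E) (T : Theta M' (j '' K) (j '' F) (j '' G) (j '' H)) : Theta M K F G H := by
  have hF : F ⊆ M.E := fun e he => hKE (by rw [hK]; exact Or.inl (Or.inl he))
  have hG : G ⊆ M.E := fun e he => hKE (by rw [hK]; exact Or.inl (Or.inr he))
  have hH : H ⊆ M.E := fun e he => hKE (by rw [hK]; exact Or.inr he)
  have hi : ∀ x y, M'.Indep (j '' K \ {j x, j y}) → M.Indep (K \ {x, y}) := by
    intro x y h1
    have h2 : j '' K \ {j x, j y} = j '' (K \ {x, y}) := by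
      rw [image_sdiff h.inj, image_pair]
    rw [h2, h.indep (sdiff_subset.trans hKE)] at h1
    exact h1
  refine ⟨hK, ?_, ?_, ?_, ?_, ?_, ?_, fun x hx y hy => hi x y (T.iFG _ ⟨x, hx, rfl⟩ _ ⟨y, hy, rfl⟩),
    fun x hx y hy => hi x y (T.iFH _ ⟨x, hx, rfl⟩ _ ⟨y, hy, rfl⟩),
    fun x hx y hy => hi x y (T.iGH _ ⟨x, hx, rfl⟩ _ ⟨y, hy, rfl⟩)⟩
  · exact (disjoint_image_iff h.inj).1 T.dFG
  · exact (disjoint_image_iff h.inj).1 T.dFH
  · exact (disjoint_image_iff h.inj).1 T.dGH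
  · rw [← h.circ (union_subset hF hG), image_union]
    exact T.cFG
  · rw [← h.circ (union_subset hF hH), image_union]
    exact T.cFH
  · rw [← h.circ (union_subset hG hH), image_union]
    exact T.cGH

end SameRk

section

variable {α β : Type*} {P : Matroid α} {S : Set α} {row : α → Sym2 (ℕ × ℕ)} {w : ℕ}
  {Hs : Finset (ℕ × ℕ)} {P' : Matroid β} {j : α → β} {S' New : Set β}
  {row' : β → Sym2 (ℕ × ℕ)} {Λ : Set α}

/-- **The local matroid has the same ranks.** -/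
theorem Healed.sameRk [P.Finite] (hL : LWal P S row w Hs)
    (h : Healed P S row w Hs P' j S' New row' Λ) {c : Set α} {u : ℕ × ℕ}
    (hoff : ∀ v, sd v u ≤ 1 → Off Hs v) (hu : DeepR (0, 0) (w + 1) (w + 1) 8 u)
    {A B : Sym2 (ℕ × ℕ) → Prop} (hAu : ∀ s, A s → ∃ v ∈ s, sd v u ≤ 1)
    (hBu : ∀ s, B s → ∃ v ∈ s, sd v u ≤ 1) :
    SameRk (P ／ FG S row c A B) (P' ／ FG S' row' (tr S row Hs j New c) A B) j ∧
      Tch S row Hs ⊆ FG S row c A B := by
  have hf := h.fin
  have hS := hL.sub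
  have hAB : ∀ p q, wadj p q → (∃ x ∈ s(p, q), x ∈ Hs) → ¬ A s(p, q) ∧ ¬ B s(p, q) := by
    rintro p q hpq ⟨x, hx, hxH⟩
    have key : ∀ v ∈ s(p, q), ¬ sd v u ≤ 1 := fun v hv hvu =>
      off_row rfl hpq hv (hoff v hvu) x hx hxH
    constructor
    · intro h1
      obtain ⟨v, hv, hvu⟩ := hAu _ h1
      exact key v hv hvu
    · intro h1
      obtain ⟨v, hv, hvu⟩ := hBu _ h1
      exact key v hv hvu
  obtain ⟨hF, hTF⟩ := h.fg (c := c) hAB hL
  obtain ⟨F, hFd⟩ : ∃ F, F = FG S row c A B := ⟨_, rfl⟩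
  obtain ⟨F', hFd'⟩ : ∃ F', F' = FG S' row' (tr S row Hs j New c) A B := ⟨_, rfl⟩
  rw [← hFd] at hF hTF ⊢
  rw [← hFd'] at hF ⊢
  have hFS : F ⊆ S := by
    rw [hFd]
    exact sdiff_subset.trans sdiff_subset
  have hFE : F ⊆ P.E := hFS.trans hS
  have hFS' : F' ⊆ S' := by
    rw [hFd']
    exact sdiff_subset.trans sdiff_subset
  have hFE' : F' ⊆ P'.E := hFS'.trans h.wal.sub
  unfold DeepR at hu
  simp only at hu
  -- the half edges
  have hΛ : j '' Λ ⊆ P'.closure F' := by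
    have hQ : HQ w ({(u, 1)} : Set ((ℕ × ℕ) × ℕ)) := by
      refine ⟨?_, ?_⟩
      · intro q hq
        rw [mem_singleton_iff] at hq
        subst hq
        dsimp only
        omega
      · intro q hq q' hq' hne
        rw [mem_singleton_iff] at hq hq'
        exact absurd (hq.trans hq'.symm) hne
    have hbx : ∀ v, v ∈ BX ({(u, 1)} : Set ((ℕ × ℕ) × ℕ)) ↔ sd v u ≤ 1 := by
      intro v
      constructor
      · rintro ⟨q, hq, h1⟩
        rw [mem_singleton_iff] at hq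
        subst hq
        exact h1
      · exact fun h1 => ⟨_, mem_singleton _, h1⟩
    have hdp : ∀ v, sd v u ≤ 1 → DeepR (0, 0) (w + 1) (w + 1) 4 v := by
      intro v hv
      rw [sd_le] at hv
      unfold DeepR
      simp only
      omega
    have hsub : S' \ RS S' row' (BX ({(u, 1)} : Set ((ℕ × ℕ) × ℕ))) ⊆ F' := by
      rw [hFd']
      rintro e ⟨he, h1⟩
      have h2 : ∀ v ∈ row' e, ¬ sd v u ≤ 1 := fun v hv hvu => h1 ⟨he, v, (hbx v).2 hvu, hv⟩
      refine ⟨⟨he, fun h3 => ?_⟩, fun h3 => ?_⟩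
      · obtain ⟨v, hv, hvu⟩ := hAu _ h3
        exact h2 v hv hvu
      · obtain ⟨v, hv, hvu⟩ := hBu _ h3.2
        exact h2 v hv hvu
    intro e he
    refine P'.closure_subset_closure hsub ?_
    obtain ⟨c₁, hc₁, hW₁⟩ := exists_repW h.wal
    have hu0 : sd u u ≤ 1 := by
      rw [sd_le]
      omega
    refine h.wal.noloc_bx (by omega) hQ ?_ ?_
    · exact P'.closure_subset_closure sdiff_subset
        (h.lam_star hc₁ hW₁ (hoff u hu0) (hdp u hu0) he)
    · intro c₂ hc₂ hW₂ v hv hloc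
      rw [hbx] at hv
      exact hloc (h.lam_star hc₂ hW₂ (hoff v hv) (hdp v hv) he)
  have hcE : (P ／ F).E = P.E \ F := rfl
  have hcE' : (P' ／ F').E = P'.E \ F' := rfl
  have hjF : ∀ x ∈ P.E \ F, j x ∈ P'.E \ F' := by
    intro x hx
    refine ⟨?_, ?_⟩
    · rw [h.ground]
      exact Or.inl ⟨x, ⟨hx.1, fun h1 => hx.2 (hTF h1.1)⟩, rfl⟩
    · rw [hF]
      rintro (⟨a, ha, h1⟩ | h1)
      · rw [h.inj h1] at ha
        exact hx.2 ha.1
      · exact h.new x h1
  -- ranks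
  have hrk : ∀ X, X ⊆ P.E \ F → BIC.rk P' (j '' X ∪ F') + BIC.rk P (Tch S row Hs \ Λ) =
      BIC.rk P (X ∪ F) + Hs.card := by
    intro X hX
    have e1 : j '' ((X ∪ F) \ Tch S row Hs) ∪ New = j '' X ∪ F' := by
      rw [hF]
      ext e
      constructor
      · rintro (⟨a, ⟨ha | ha, haT⟩, rfl⟩ | he)
        · exact Or.inl ⟨a, ha, rfl⟩
        · exact Or.inr (Or.inl ⟨a, ⟨ha, haT⟩, rfl⟩)
        · exact Or.inr (Or.inr he)
      · rintro (⟨a, ha, rfl⟩ | ⟨a, ha, rfl⟩ | he)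
        · exact Or.inl ⟨a, ⟨Or.inl ha, fun h1 => (hX ha).2 (hTF h1)⟩, rfl⟩
        · exact Or.inl ⟨a, ⟨Or.inr ha.1, ha.2⟩, rfl⟩
        · exact Or.inr he
    have h1 := h.rk' hS (X := X ∪ F) (union_subset (hX.trans sdiff_subset) hFE) (by
      rw [e1]
      exact hΛ.trans (P'.closure_subset_closure subset_union_right))
    rw [e1] at h1
    have e2 : X ∪ F ∪ Tch S row Hs = X ∪ F := union_eq_left.2 (hTF.trans subset_union_right)
    rw [e2] at h1
    exact h1
  have hrk0 := hrk ∅ (empty_subset _)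
  rw [image_empty, empty_union, empty_union] at hrk0
  have hfin1 : (P ／ F).Finite := BQ.fin_contract _
  have hfin2 : (P' ／ F').Finite := BQ.fin_contract _
  refine ⟨⟨h.inj, ?_, ?_⟩, hTF⟩
  · rintro _ ⟨x, hx, rfl⟩
    exact hjF x hx
  · intro X hX
    have h1 := BQ.rk_con (M := P) hFE (X := X) hX
    have h2 := BQ.rk_con (M := P') hFE' (X := j '' X) (by
      rintro _ ⟨x, hx, rfl⟩
      exact hjF x (hX hx))
    have h3 := hrk X hX
    omega

/-- off the windows nothing is touched -/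
lemma off_tch (hL : LWal P S row w Hs) {v : ℕ × ℕ} (hv : Off Hs v) {b : α} (hb : b ∈ S)
    (hvb : v ∈ row b) : b ∉ Tch S row Hs := by
  rintro ⟨_, x, hx, hxH⟩
  obtain ⟨p, q, h3, h4, _⟩ := hL.mem b hb
  exact off_row h3 h4 hvb hv x hx hxH

/-- the elements of a row off the windows -/
lemma Healed.row_im (h : Healed P S row w Hs P' j S' New row' Λ) (hL : LWal P S row w Hs)
    {p q : ℕ × ℕ} (hpq : wadj p q) (hp : Off Hs p) :
    {f | f ∈ S' ∧ row' f = s(p, q)} = j '' {f | f ∈ S ∧ row f = s(p, q)} := by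
  ext f
  constructor
  · rintro ⟨h1, h2⟩
    rw [h.S_eq] at h1
    rcases h1 with ⟨a, ha, rfl⟩ | h1
    · rw [h.row_old a ha] at h2
      exact ⟨a, ⟨ha.1, h2⟩, rfl⟩
    · exfalso
      obtain ⟨x, hx, hxH⟩ := h.row_new f h1
      rw [h2] at hx
      exact off_row rfl hpq (Sym2.mem_mk_left p q) hp x hx hxH
  · rintro ⟨a, ⟨h1, h2⟩, rfl⟩
    have h3 := off_tch hL hp h1 (by rw [h2]; exact Sym2.mem_mk_left _ _)
    refine ⟨?_, ?_⟩
    · rw [h.S_eq]
      exact Or.inl ⟨a, ⟨h1, h3⟩, rfl⟩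
    · rw [h.row_old a ⟨h1, h3⟩]
      exact h2

/-- the contracted rows of the star -/
lemma FStar_eq_FL (hmem : ∀ e ∈ S, ∃ p q, row e = s(p, q) ∧ wadj p q) (c : Set α) (u : ℕ × ℕ)
    (v : Fin 3 → ℕ × ℕ) :
    FStar S row c u (v 0) (v 1) (v 2) = FL S row c (ωS u) (range v) := by
  rw [fstar_eq hmem]
  unfold FL
  congr 1
  ext f
  constructor
  · rintro ⟨h1, a, ha, h2⟩
    simp only [Finset.mem_insert, Finset.mem_singleton] at ha
    rcases ha with rfl | rfl | rfl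
    · exact ⟨h1, _, ⟨0, rfl⟩, h2⟩
    · exact ⟨h1, _, ⟨1, rfl⟩, h2⟩
    · exact ⟨h1, _, ⟨2, rfl⟩, h2⟩
  · rintro ⟨h1, a, ⟨i, rfl⟩, h2⟩
    refine ⟨h1, v i, ?_, h2⟩
    fin_cases i <;> simp

/-- **The star matroid of an exact wall is a theta.** -/
theorem SF.star_theta [P.Finite] {c : Set α} {u : ℕ × ℕ} {v : Fin 3 → ℕ × ℕ} {o : Fin 3 → α}
    (hF : SF S row w c u v o) (hG : RWx P S row w) :
    Theta (P ／ FStar S row c u (v 0) (v 1) (v 2)) (TK (sX S row u v) o)
      (leg (sX S row u v) o 0) (leg (sX S row u v) o 1) (leg (sX S row u v) o 2) := by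
  rw [FStar_eq_FL (fun f hf => by
    obtain ⟨p, q, h1, h2, _⟩ := hG.mem f hf
    exact ⟨p, q, h1, h2⟩)]
  exact hF.theta hG

/-- **(STH) The star matroid off the windows is a theta.** -/
theorem Healed.star_theta [P.Finite] (hL : LWal P S row w Hs)
    (h : Healed P S row w Hs P' j S' New row' Λ) (hR : RWx P' S' row' w) {c : Set α} {u : ℕ × ℕ}
    {v : Fin 3 → ℕ × ℕ} {o : Fin 3 → α} (hF : SF S row w c u v o)
    (hoff : ∀ x, sd x u ≤ 1 → Off Hs x) :
    Theta (P ／ FStar S row c u (v 0) (v 1) (v 2)) (TK (sX S row u v) o)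
      (leg (sX S row u v) o 0) (leg (sX S row u v) o 1) (leg (sX S row u v) o 2) := by
  have hf := h.fin
  have hu := hF.hu
  have hou : Off Hs u := hoff u (by rw [sd_le]; omega)
  have hov : ∀ i, Off Hs (v i) := fun i => hoff _ (wadj_sd (hF.adj i)).2
  have hoT : ∀ i, o i ∉ Tch S row Hs := fun i =>
    off_tch hL (hov i) (hF.hc (hF.ho i).1) (hF.ho i).2.1
  have hro : ∀ i, row' (j (o i)) = row (o i) := fun i =>
    h.row_old _ ⟨hF.hc (hF.ho i).1, hoT i⟩
  have hF' : SF S' row' w (tr S row Hs j New c) u v (fun i => j (o i)) := by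
    refine ⟨h.tr_sub hF.hc, h.tr_wall hF.hc hF.hW, hF.hu, hF.hnb, fun i => ⟨?_, ?_, ?_⟩⟩
    · exact Or.inl ⟨o i, ⟨(hF.ho i).1, hoT i⟩, rfl⟩
    · rw [hro]
      exact (hF.ho i).2.1
    · rw [hro]
      exact (hF.ho i).2.2
  have hX : ∀ i, sX S' row' u v i = j '' sX S row u v i := fun i =>
    h.row_im hL (hF.adj i) hou
  have hleg : ∀ i, leg (sX S' row' u v) (fun i => j (o i)) i = j '' leg (sX S row u v) o i := by
    intro i
    show insert (j (o i)) (sX S' row' u v i) = j '' insert (o i) (sX S row u v i)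
    rw [image_insert_eq, hX]
  have hTK : TK (sX S' row' u v) (fun i => j (o i)) = j '' TK (sX S row u v) o := by
    show leg (sX S' row' u v) (fun i => j (o i)) 0 ∪ leg (sX S' row' u v) (fun i => j (o i)) 1 ∪
      leg (sX S' row' u v) (fun i => j (o i)) 2 = j '' (leg (sX S row u v) o 0 ∪
      leg (sX S row u v) o 1 ∪ leg (sX S row u v) o 2)
    rw [hleg, hleg, hleg, image_union, image_union]
  have hT := hF'.theta hR
  rw [hTK, hleg, hleg, hleg] at hT
  have hom : ∀ s : Sym2 (ℕ × ℕ), s ∈ ωS u → ∃ v ∈ s, sd v u ≤ 1 := fun s hs =>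
    ⟨u, ωS_sub hs, by rw [sd_le]; omega⟩
  obtain ⟨hS, hTF⟩ := h.sameRk hL (c := c) hoff (u := u) (by
    unfold DeepR
    simp only
    omega) (A := fun s => s ∈ ωS u) (B := fun s => ∃ a ∈ range v, a ∈ s) hom (by
    rintro s ⟨a, ⟨i, rfl⟩, ha⟩
    exact ⟨v i, ha, (wadj_sd (hF.adj i)).2⟩)
  have hfin1 : (P ／ FG S row c (fun s => s ∈ ωS u) (fun s => ∃ a ∈ range v, a ∈ s)).Finite :=
    BQ.fin_contract _
  have hfin2 : (P' ／ FG S' row' (tr S row Hs j New c) (fun s => s ∈ ωS u)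
    (fun s => ∃ a ∈ range v, a ∈ s)).Finite := BQ.fin_contract _
  rw [FStar_eq_FL (fun f hf => by
    obtain ⟨p, q, h1, h2, _⟩ := hL.mem f hf
    exact ⟨p, q, h1, h2⟩)]
  refine hS.theta rfl ?_ hT
  intro f hf
  exact ⟨hL.sub (hF.KS hf), fun h1 => hF.disFL h1 hf⟩

end

end DA
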