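import Pool.Agent.DA.Wit
import Pool.Agent.DA.LocTr

/-!
# Witnesses of stars (T-star, helper94)

`StarE`: all data of one star for one choice `c` of the representatives (for exact walls and for
walls with windows).  `StI0`, `StI1`: the conclusions IN0, IN1 at this star; `StarE.p1`, `StarE.p2`: the
properties P1, P2 of the star system; `StarE.rel_E`, `StarE.rel_A`: the relations of the exit.
-/

set_option autoImplicit false

open Set BIC BICS
open scoped Matroid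

namespace DA

open Gad TST

/-- the class of the end `v` for the representatives `c` -/
def Ar {α : Type*} (P : Matroid α) (S : Set α) (row : α → Sym2 (ℕ × ℕ)) (c : Set α) (v : ℕ × ℕ)
    (z : α) : Set α :=
  {x | z ∈ P.closure (S \ {e | e ∈ swp row c x ∧ v ∈ row e})}

/-- all data of a star for the representatives `c` -/
structure StarE {α : Type*} (P : Matroid α) (S : Set α) (row : α → Sym2 (ℕ × ℕ)) (w : ℕ)
    (u : ℕ × ℕ) (V : Fin 3 → ℕ × ℕ) (c : Set α) (o : Fin 3 → α) : Prop where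
  ste : StE P S row c u V o
  mem : ∀ e ∈ S, ∃ p q, row e = s(p, q) ∧ wadj p q ∧
    p ∈ rect 0 0 (w + 1) (w + 1) ∧ q ∈ rect 0 0 (w + 1) (w + 1)
  nb : Nb3 u (V 0) (V 1) (V 2)
  wal : WallE c row w ∅
  cu : VC P S row w u
  cv : ∀ i, VC P S row w (V i)
  th : Theta (P ／ FStar S row c u (V 0) (V 1) (V 2)) (TK (SX S row u V) o)
    (leg (SX S row u V) o 0) (leg (SX S row u V) o 1) (leg (SX S row u V) o 2)

/-- (IN0) at one star; `Lc` = local elements -/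
def StI0 {α : Type*} (P : Matroid α) (S : Set α) (row : α → Sym2 (ℕ × ℕ)) (u : ℕ × ℕ)
    (V : Fin 3 → ℕ × ℕ) (c : Set α) (o : Fin 3 → α) (Lc : α → Prop) : Prop :=
  ∀ C, (P ／ FStar S row c u (V 0) (V 1) (V 2)).IsCircuit C → (∀ i, o i ∈ C) →
    (∀ x ∈ C, (∃ i, x = o i) ∨ Lc x) → False

/-- (IN1) at one star, for the exit `z` -/
def StI1 {α : Type*} (P : Matroid α) (S : Set α) (row : α → Sym2 (ℕ × ℕ)) (u : ℕ × ℕ)
    (V : Fin 3 → ℕ × ℕ) (c : Set α) (o : Fin 3 → α) (Lc : α → Prop) (z : α) : Prop :=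
  ∀ C, (P ／ FStar S row c u (V 0) (V 1) (V 2)).IsCircuit C → z ∈ C →
    ∀ i j, i ≠ j → o i ∈ C → o j ∈ C → (∀ x ∈ C, x = z ∨ (∃ k, x = o k) ∨ Lc x) → False

section star

variable {α : Type*} {P : Matroid α} {S : Set α} {row : α → Sym2 (ℕ × ℕ)} {w : ℕ} {u : ℕ × ℕ}
  {V : Fin 3 → ℕ × ℕ} {c : Set α} {o : Fin 3 → α} {z t x : α} {T : Set α} {Lc : α → Prop}

/-! ### From the clauses of in012 to `StI0`, `StI1` -/

lemma stI0_of {Lo : Set (ℕ × ℕ) → α → Prop} (hnb : Nb3 u (V 0) (V 1) (V 2))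
    (ho : ∀ i, o i ∈ c ∧ V i ∈ row (o i) ∧ u ∉ row (o i))
    (h0 : ∀ v₁ v₂ v₃ o₁ o₂ o₃ C, Nb3 u v₁ v₂ v₃ →
      (o₁ ∈ c ∧ v₁ ∈ row o₁ ∧ u ∉ row o₁) → (o₂ ∈ c ∧ v₂ ∈ row o₂ ∧ u ∉ row o₂) →
      (o₃ ∈ c ∧ v₃ ∈ row o₃ ∧ u ∉ row o₃) → (P ／ FStar S row c u v₁ v₂ v₃).IsCircuit C →
      o₁ ∈ C → o₂ ∈ C → o₃ ∈ C → (∀ x ∈ C, x = o₁ ∨ x = o₂ ∨ x = o₃ ∨
        Lo {u, v₁, v₂, v₃} x) → False) :
    StI0 P S row u V c o (Lo {u, V 0, V 1, V 2}) := by
  intro C hC hoC hx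
  refine h0 _ _ _ _ _ _ C hnb (ho 0) (ho 1) (ho 2) hC (hoC 0) (hoC 1) (hoC 2) ?_
  intro x hxC
  rcases hx x hxC with ⟨i, rfl⟩ | h1
  · fin_cases i
    · exact Or.inl rfl
    · exact Or.inr (Or.inl rfl)
    · exact Or.inr (Or.inr (Or.inl rfl))
  · exact Or.inr (Or.inr (Or.inr h1))

lemma fin3_third {i j : Fin 3} (hij : i ≠ j) : ∃ k, k ≠ i ∧ k ≠ j ∧ ∀ l : Fin 3, l = i ∨ l = j ∨ l = k := by
  fin_cases i <;> fin_cases j
  · exact absurd rfl hij
  · exact ⟨2, by decide, by decide, by decide⟩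
  · exact ⟨1, by decide, by decide, by decide⟩
  · exact ⟨2, by decide, by decide, by decide⟩
  · exact absurd rfl hij
  · exact ⟨0, by decide, by decide, by decide⟩
  · exact ⟨1, by decide, by decide, by decide⟩
  · exact ⟨0, by decide, by decide, by decide⟩
  · exact absurd rfl hij

lemma fin3_or {φ : Fin 3 → Prop} {i j k : Fin 3} (h : ∀ l : Fin 3, l = i ∨ l = j ∨ l = k) :
    (φ i ∨ φ j ∨ φ k) ↔ (φ 0 ∨ φ 1 ∨ φ 2) := by
  constructor
  · rintro (h1 | h1 | h1)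
    · fin_cases i
      exacts [Or.inl h1, Or.inr (Or.inl h1), Or.inr (Or.inr h1)]
    · fin_cases j
      exacts [Or.inl h1, Or.inr (Or.inl h1), Or.inr (Or.inr h1)]
    · fin_cases k
      exacts [Or.inl h1, Or.inr (Or.inl h1), Or.inr (Or.inr h1)]
  · have key : ∀ l, φ l → φ i ∨ φ j ∨ φ k := by
      intro l hl
      rcases h l with rfl | rfl | rfl
      exacts [Or.inl hl, Or.inr (Or.inl hl), Or.inr (Or.inr hl)]
    rintro (h1 | h1 | h1)
    exacts [key _ h1, key _ h1, key _ h1]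

lemma stI1_of {Lo : Set (ℕ × ℕ) → α → Prop} {Ex : Set (ℕ × ℕ) → Prop}
    (hnb : Nb3 u (V 0) (V 1) (V 2))
    (ho : ∀ i, o i ∈ c ∧ V i ∈ row (o i) ∧ u ∉ row (o i))
    (h1 : ∀ v₁ v₂ v₃ o₁ o₂ o₃ C, Nb3 u v₁ v₂ v₃ →
      (o₁ ∈ c ∧ v₁ ∈ row o₁ ∧ u ∉ row o₁) → (o₂ ∈ c ∧ v₂ ∈ row o₂ ∧ u ∉ row o₂) →
      (o₃ ∈ c ∧ v₃ ∈ row o₃ ∧ u ∉ row o₃) → (P ／ FStar S row c u v₁ v₂ v₃).IsCircuit C →
      Ex {u, v₁, v₂, v₃} → z ∈ C → o₁ ∈ C → o₂ ∈ C → (∀ x ∈ C, x = z ∨ x = o₁ ∨ x = o₂ ∨ x = o₃ ∨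
        Lo {u, v₁, v₂, v₃} x) → False) (hz : Ex {u, V 0, V 1, V 2}) :
    StI1 P S row u V c o (Lo {u, V 0, V 1, V 2}) z := by
  intro C hC hzC i j hij hoi hoj hx
  obtain ⟨k, hki, hkj, hl⟩ := fin3_third hij
  have hinj : ∀ i j, i ≠ j → V i ≠ V j := by
    obtain ⟨-, -, -, h1, h2, h3⟩ := hnb
    intro i j hij
    fin_cases i <;> fin_cases j
    exacts [absurd rfl hij, h1, h2, h1.symm, absurd rfl hij, h3, h2.symm, h3.symm, absurd rfl hij]
  have hadj : ∀ i, wadj u (V i) := by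
    intro i
    fin_cases i
    exacts [hnb.1, hnb.2.1, hnb.2.2.1]
  have hnb' : Nb3 u (V i) (V j) (V k) :=
    ⟨hadj i, hadj j, hadj k, hinj _ _ hij, hinj _ _ hki.symm, hinj _ _ hkj.symm⟩
  have e1 : FStar S row c u (V i) (V j) (V k) = FStar S row c u (V 0) (V 1) (V 2) := by
    unfold FStar
    congr 1
    ext e
    exact and_congr_right fun _ => fin3_or (φ := fun l => V l ∈ row e) hl
  have e2 : ({u, V i, V j, V k} : Set (ℕ × ℕ)) = {u, V 0, V 1, V 2} := by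
    ext q
    exact or_congr_right (fin3_or (φ := fun l => q = V l) hl)
  have h2 := h1 (V i) (V j) (V k) (o i) (o j) (o k) C hnb' (ho i) (ho j) (ho k)
  rw [e1, e2] at h2
  refine h2 hC hz hzC hoi hoj ?_
  intro x hxC
  rcases hx x hxC with h3 | ⟨l, rfl⟩ | h3
  · exact Or.inl h3
  · rcases hl l with rfl | rfl | rfl
    · exact Or.inr (Or.inl rfl)
    · exact Or.inr (Or.inr (Or.inl rfl))
    · exact Or.inr (Or.inr (Or.inr (Or.inl rfl)))
  · exact Or.inr (Or.inr (Or.inr (Or.inr h3)))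

/-! ### The star system -/

lemma StE.TK_sub (h : StE P S row c u V o) : TK (SX S row u V) o ⊆ S := by
  intro e he
  obtain ⟨i, rfl | hi⟩ := mem_TK.1 he
  · exact h.hc (h.mem i)
  · exact hi.1

lemma StE.oX (h : StE P S row c u V o) (i j : Fin 3) : o i ∉ SX S row u V j := by
  intro h1
  refine h.uo i ?_
  rw [h1.2]
  exact Sym2.mem_mk_left _ _

lemma st_mem_cir {C : Set α} (hC : C ⊆ TK (SX S row u V) o ∪ T ∪ {z})
    (hT : ∀ t ∈ T, Lc t) (hLc : ∀ x ∈ S, u ∈ row x → Lc x) (hx : x ∈ C) :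
    x = z ∨ (∃ i, x = o i) ∨ Lc x := by
  rcases hC hx with (h1 | h1) | h1
  · obtain ⟨i, h2 | h2⟩ := mem_TK.1 h1
    · exact Or.inr (Or.inl ⟨i, h2⟩)
    · refine Or.inr (Or.inr (hLc x h2.1 ?_))
      rw [h2.2]
      exact Sym2.mem_mk_left _ _
  · exact Or.inr (Or.inr (hT x h1))
  · exact Or.inl h1

/-- **(P1)** -/
theorem StarE.p1 (_ : StarE P S row w u V c o) (h0 : StI0 P S row u V c o Lc)
    (hT : ∀ t ∈ T, Lc t) (hLc : ∀ x ∈ S, u ∈ row x → Lc x) :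
    ∀ C ⊆ TK (SX S row u V) o ∪ T, (P ／ FStar S row c u (V 0) (V 1) (V 2)).IsCircuit C →
      (∀ i, o i ∈ C) → False := by
  intro C hC hcir ho
  refine h0 C hcir ho fun x hx => ?_
  rcases st_mem_cir (z := o 0) (hC.trans subset_union_left) hT hLc hx with h1 | h1
  · exact Or.inl ⟨0, h1⟩
  · exact h1

/-- **(P2)** -/
theorem StarE.p2 (_ : StarE P S row w u V c o) (h1 : StI1 P S row u V c o Lc z)
    (hT : ∀ t ∈ T, Lc t) (hLc : ∀ x ∈ S, u ∈ row x → Lc x) :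
    ∀ C ⊆ TK (SX S row u V) o ∪ T ∪ {z},
      (P ／ FStar S row c u (V 0) (V 1) (V 2)).IsCircuit C → z ∈ C → ∀ i j, i ≠ j → o i ∈ C →
      o j ∈ C → False := by
  intro C hC hcir hz i j hij hi hj
  exact h1 C hcir hz i j hij hi hj fun x hx => st_mem_cir hC hT hLc hx

/-- the clause `E` of the exit -/
theorem StarE.rel_E (h : StarE P S row w u V c o) (hzS : z ∉ S) :
    ∀ i, ∀ x ∈ SX S row u V i, ∀ y ∈ SX S row u V i,
      (Eqv (P ／ FStar S row c u (V 0) (V 1) (V 2)) (TK (SX S row u V) o) z x y ↔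
        Er P S z x y) := fun _ _ hx _ hy => star_E h.ste hx hy fun h2 => hzS h2.1.1

/-- the clause `A` of the exit -/
theorem StarE.rel_A (h : StarE P S row w u V c o) (hzS : z ∉ S) :
    ∀ i, ∀ x ∈ SX S row u V i,
      (Eqv (P ／ FStar S row c u (V 0) (V 1) (V 2)) (TK (SX S row u V) o) z (o i) x ↔
        x ∈ Ar P S row c (V i) z) := fun _ _ hx => star_O h.ste hx fun h2 => hzS h2.1.1

/-- the class of an exit which is quiet at `V i` does not depend on the representatives -/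
theorem StarE.ar_eq [P.Finite] (h : StarE P S row w u V c o) {i : Fin 3}
    (hq : Quiet P S row (V i) u z) (hx : x ∈ SX S row u V i) :
    x ∈ Ar P S row c (V i) z ↔ x ∈ Lr P S row w (V i) z := by
  have h1 := mem_Lr (P := P) (S := S) (row := row) (w := w) (u := V i) (c := c) (t := z) (x := x)
    (h.cv i) h.ste.sub h.mem (by
      intro a ha a' ha' haa hua hne hne'
      refine hq a ha a' ha' haa hua ?_ hne'
      rw [Sym2.eq_swap, ← hx.2]
      exact hne) h.ste.hc h.wal hx.1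
  exact h1

/-- `t` has no location (for all representatives) at the vertices at distance 2 from `u` behind `v`:
it is quiet at `v` -/
theorem quiet_of [P.Finite] (hS : S ⊆ P.E)
    (hmem : ∀ e ∈ S, ∃ p q, row e = s(p, q) ∧ wadj p q ∧
      p ∈ rect 0 0 (w + 1) (w + 1) ∧ q ∈ rect 0 0 (w + 1) (w + 1))
    (hrep : ∃ c, c ⊆ S ∧ WallE c row w ∅) {v : ℕ × ℕ}
    (hvc : ∀ q, wadj v q → q ≠ u → VC P S row w q)
    (hloc : ∀ q, wadj v q → q ≠ u → ∀ c, c ⊆ S → WallE c row w ∅ →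
      t ∈ P.closure (S \ {e | e ∈ c ∧ q ∈ row e})) : Quiet P S row v u t := by
  intro a ha a' ha' haa hva hne _
  obtain ⟨p, q, h1, h2, _⟩ := hmem a ha
  have key : ∀ q, wadj v q → row a = s(v, q) → t ∈ P.closure (S \ {a, a'}) := by
    intro q hq hr
    have hqu : q ≠ u := by
      rintro rfl
      exact hne hr
    refine (hvc q hq hqu).quiet hS hmem hrep (hloc q hq hqu) ha ha' haa ?_
    rw [hr]
    exact Sym2.mem_mk_right _ _
  rw [h1, Sym2.mem_iff] at hva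
  rcases hva with rfl | rfl
  · exact key q h2 h1
  · exact key p (wadj_swap h2) (by rw [h1, Sym2.eq_swap])

end star

/-! ### The data for exact walls and off the windows -/

section build

variable {α β : Type*} {P : Matroid α} {S : Set α} {row : α → Sym2 (ℕ × ℕ)} {w : ℕ}
  {Hs : Finset (ℕ × ℕ)} {P' : Matroid β} {j : α → β} {S' New : Set β}
  {row' : β → Sym2 (ℕ × ℕ)} {Λ : Set α} {u : ℕ × ℕ} {V : Fin 3 → ℕ × ℕ} {c : Set α}
  {o : Fin 3 → α}

lemma deep_nb {a b : ℕ} {v : ℕ × ℕ} (hu : DeepR (0, 0) (w + 1) (w + 1) a u) (h : sd v u ≤ 1)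
    (hab : b + 1 ≤ a) : DeepR (0, 0) (w + 1) (w + 1) b v := by
  unfold DeepR at hu ⊢
  rw [sd_le] at h
  simp only at hu ⊢
  omega

/-- ends exist -/
lemma exists_ends {γ : Type*} {rw' : γ → Sym2 (ℕ × ℕ)} {c : Set γ} (hW : WallE c rw' w ∅)
    (hnb : Nb3 u (V 0) (V 1) (V 2)) (hu : DeepR (0, 0) (w + 1) (w + 1) 20 u) :
    ∃ o : Fin 3 → γ, ∀ i, o i ∈ c ∧ V i ∈ rw' (o i) ∧ u ∉ rw' (o i) := by
  have hadj : ∀ i, wadj u (V i) := by
    intro i
    fin_cases i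
    exacts [hnb.1, hnb.2.1, hnb.2.2.1]
  have h1 : ∀ i, ∃ o ∈ c, V i ∈ rw' o ∧ u ∉ rw' o := fun i =>
    exists_end hW (hadj i) (deep_nb hu (wadj_sd (hadj i)).2 (by omega))
  choose o ho using h1
  exact ⟨o, fun i => ho i⟩

/-- data of a star for exact walls -/
theorem RWx.starE [P.Finite] (hG : RWx P S row w) (hnb : Nb3 u (V 0) (V 1) (V 2))
    (hu : DeepR (0, 0) (w + 1) (w + 1) 20 u) (hc : c ⊆ S) (hW : WallE c row w ∅)
    (ho : ∀ i, o i ∈ c ∧ V i ∈ row (o i) ∧ u ∉ row (o i)) : StarE P S row w u V c o := by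
  have hadj : ∀ i, wadj u (V i) := by
    intro i
    fin_cases i
    exacts [hnb.1, hnb.2.1, hnb.2.2.1]
  have hmem : ∀ e ∈ S, ∃ p q, row e = s(p, q) ∧ wadj p q := by
    intro e he
    obtain ⟨p, q, h1, h2, _⟩ := hG.mem e he
    exact ⟨p, q, h1, h2⟩
  have hud := hu
  unfold DeepR at hud
  simp only at hud
  refine ⟨stE_of hG.sub hmem hc hnb (by omega) ho fun y hy huy =>
    hG.span_star hnb hu hc hW (ho 0) (ho 1) (ho 2) hy huy, hG.mem, hnb, hW,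
    RWx.vc hG (deep_nb hu (by rw [sd_le]; omega) (by omega)),
    fun i => RWx.vc hG (deep_nb hu (wadj_sd (hadj i)).2 (by omega)), ?_⟩
  exact SF.star_theta ⟨hc, hW, by omega, hnb, ho⟩ hG

/-- data of a star off the windows -/
theorem Healed.starE [P.Finite] (hL : LWal P S row w Hs)
    (h : Healed P S row w Hs P' j S' New row' Λ) (hR : RWx P' S' row' w)
    (hnb : Nb3 u (V 0) (V 1) (V 2)) (hou : ∀ v, sd v u ≤ 1 → Off Hs v)
    (hu : DeepR (0, 0) (w + 1) (w + 1) 20 u) (hc : c ⊆ S) (hW : WallE c row w ∅)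
    (ho : ∀ i, o i ∈ c ∧ V i ∈ row (o i) ∧ u ∉ row (o i)) : StarE P S row w u V c o := by
  have hadj : ∀ i, wadj u (V i) := by
    intro i
    fin_cases i
    exacts [hnb.1, hnb.2.1, hnb.2.2.1]
  have hmem : ∀ e ∈ S, ∃ p q, row e = s(p, q) ∧ wadj p q := by
    intro e he
    obtain ⟨p, q, h1, h2, _⟩ := hL.mem e he
    exact ⟨p, q, h1, h2⟩
  have hud := hu
  unfold DeepR at hud
  simp only at hud
  refine ⟨stE_of hL.sub hmem hc hnb (by omega) ho fun y hy huy =>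
    h.span_star hL hR hnb hou hu hc hW (ho 0) (ho 1) (ho 2) hy huy, hL.mem, hnb, hW,
    h.vc hL hR (hou u (by rw [sd_le]; omega)) (deep_nb hu (by rw [sd_le]; omega) (by omega)),
    fun i => h.vc hL hR (hou _ (wadj_sd (hadj i)).2)
      (deep_nb hu (wadj_sd (hadj i)).2 (by omega)), ?_⟩
  exact h.star_theta hL hR ⟨hc, hW, by omega, hnb, ho⟩ hou

end build

end DA
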