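import Pool.Agent.DA.Geo2
import Pool.Agent.DA.WitS

/-!
# One round as one structure (T-star, helper94)

`WRnd`: everything which is known about a wall `(P, S, row, w)` with the region `Hs` of windows and the
exceptional set `Om`: cocircuits, data of the stars and of the rows, IN0, IN1, IN2.  `δe` = distance of
the supports of the exits from `Om`, `δ` = distance of the visible vertices from `Om`.
-/

set_option autoImplicit false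

open Set BIC BICS
open scoped Matroid

namespace DA

open Gad TST

/-- (IN2, one exit) at one row -/
def RoI1 {α : Type*} (P : Matroid α) (S : Set α) (row : α → Sym2 (ℕ × ℕ)) (u v : ℕ × ℕ)
    (c : Set α) (o₁ o₂ : α) (Lc : α → Prop) (b : α) : Prop :=
  ∀ C, (P ／ FRow S row c u v).IsCircuit C → b ∈ C → o₁ ∈ C → o₂ ∈ C →
    (∀ x ∈ C, x = b ∨ x = o₁ ∨ x = o₂ ∨ Lc x) → False

/-- (IN2, two exits) at one row -/
def RoI2 {α : Type*} (P : Matroid α) (S : Set α) (row : α → Sym2 (ℕ × ℕ)) (u v : ℕ × ℕ)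
    (c : Set α) (o₁ o₂ : α) (Lc : α → Prop) (b b' : α) : Prop :=
  ∀ C, (P ／ FRow S row c u v).IsCircuit C → b ∈ C → b' ∈ C → o₁ ∈ C → o₂ ∈ C →
    (∀ x ∈ C, x = b ∨ x = b' ∨ x = o₁ ∨ x = o₂ ∨ Lc x) → False

/-- **One round.** -/
structure WRnd {α : Type*} (P : Matroid α) (S : Set α) (row : α → Sym2 (ℕ × ℕ)) (w D β δe δ : ℕ)
    (Hs Om : Finset (ℕ × ℕ)) : Prop where
  hs : Hs ⊆ Om
  dl : D + 60 ≤ δ
  sub : S ⊆ P.E
  mem : ∀ e ∈ S, ∃ p q, row e = s(p, q) ∧ wadj p q ∧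
    p ∈ rect 0 0 (w + 1) (w + 1) ∧ q ∈ rect 0 0 (w + 1) (w + 1)
  rep : ∃ c, c ⊆ S ∧ WallE c row w ∅
  vc : ∀ v, DeepR (0, 0) (w + 1) (w + 1) 4 v → Off Hs v → VC P S row w v
  star : ∀ (u : ℕ × ℕ) (V : Fin 3 → ℕ × ℕ) (c : Set α) (o : Fin 3 → α),
    Nb3 u (V 0) (V 1) (V 2) → OutW δ w Om u → c ⊆ S → WallE c row w ∅ →
    (∀ i, o i ∈ c ∧ V i ∈ row (o i) ∧ u ∉ row (o i)) →
    StarE P S row w u V c o ∧
    StI0 P S row u V c o (LocEH P S row w D Hs {a | u ∈ a} {u, V 0, V 1, V 2}) ∧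
    ∀ y b, ExitEH P S row w D β δe Hs Om {u, V 0, V 1, V 2} c y b →
      StI1 P S row u V c o (LocEH P S row w D Hs {a | u ∈ a} {u, V 0, V 1, V 2}) b
  row : ∀ (u v : ℕ × ℕ) (c : Set α) (o₁ o₂ : α), wadj u v → OutW δ w Om u → c ⊆ S →
    WallE c row w ∅ → (o₁ ∈ c ∧ u ∈ row o₁ ∧ v ∉ row o₁) → (o₂ ∈ c ∧ v ∈ row o₂ ∧ u ∉ row o₂) →
    RowE P S row w u v c o₁ o₂ ∧
    (∀ y b, ExitEH P S row w D β δe Hs Om {u, v} c y b →
      RoI1 P S row u v c o₁ o₂ (LocEH P S row w D Hs {s(u, v)} {u, v}) b) ∧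
    ∀ y b y' b', ExitEH P S row w D β δe Hs Om {u, v} c y b →
      ExitEH P S row w D β δe Hs Om {u, v} c y' b' → y ≠ y' → ¬ (wadj u y ∧ wadj u y') →
      ¬ (wadj v y ∧ wadj v y') →
      RoI2 P S row u v c o₁ o₂ (LocEH P S row w D Hs {s(u, v)} {u, v}) b b'

/-- **(ROUND)** -/
theorem wRnd_of {α : Type*} {P : Matroid α} [P.Finite] {S : Set α} {row : α → Sym2 (ℕ × ℕ)}
    {w D β δe δ : ℕ} {Hs Om : Finset (ℕ × ℕ)} (hL : LWal P S row w Hs) (hX : HealX P S row w Hs)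
    (hHO : Hs ⊆ Om) (hin : IN012 P S row w D β δe Hs Om) (hδe : δe ≤ δ) (hδ : D + 60 ≤ δ) :
    WRnd P S row w D β δe δ Hs Om := by
  obtain ⟨P', S', New, row', Λ, hH, hR, _⟩ := hX
  have hoff : ∀ u, OutW δ w Om u → ∀ v, sd v u ≤ 1 → Off Hs v := by
    intro u hu v hv x hx
    have h1 := apart_iff.1 (hu.2 x (hHO hx))
    have h2 : sd u x ≤ sd v u + sd v x := by
      unfold sd
      omega
    omega
  have hdp : ∀ u, OutW δ w Om u → DeepR (0, 0) (w + 1) (w + 1) 21 u := fun u hu =>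
    (hu.mono (δ' := 21) (by omega)).1
  refine ⟨hHO, by omega, hL.sub, hL.mem, hL.exists_rep, fun v hv ho => hH.vc hL hR ho hv, ?_, ?_⟩
  · intro u V c o hnb hu hcS hW ho
    have hu₀ : OutW δe w Om u := hu.mono (by omega)
    obtain ⟨k0, k1, -, -⟩ := hin c hcS hW
    refine ⟨hH.starE hL hR hnb (hoff u hu) (deep_nb (hdp u hu) (by rw [sd_le]; omega) (by omega))
      hcS hW ho, ?_, ?_⟩
    · exact stI0_of (Lo := LocEH P S row w D Hs {a | u ∈ a}) hnb ho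
        fun v₁ v₂ v₃ o₁ o₂ o₃ C hnb' => fun a b d => k0 u v₁ v₂ v₃ o₁ o₂ o₃ C hnb' hu₀ a b d
    · intro y b hb
      refine stI1_of (Lo := LocEH P S row w D Hs {a | u ∈ a})
        (Ex := fun U => ExitEH P S row w D β δe Hs Om U c y b) hnb ho ?_ hb
      intro v₁ v₂ v₃ o₁ o₂ o₃ C hnb' a₁ a₂ a₃ hC hE
      exact k1 u v₁ v₂ v₃ o₁ o₂ o₃ C y b hnb' hu₀ a₁ a₂ a₃ hC hE
  · intro u v c o₁ o₂ huv hu hcS hW h₁ h₂
    have hu₀ : OutW δe w Om u := hu.mono (by omega)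
    obtain ⟨-, -, k2, k3⟩ := hin c hcS hW
    have hsu := wadj_sd huv
    refine ⟨hH.rowE hL hR huv (hoff u hu u (by rw [sd_le]; omega)) (hoff u hu v hsu.2)
      (deep_nb (hdp u hu) (by rw [sd_le]; omega) (by omega)) (deep_nb (hdp u hu) hsu.2 (by omega))
      hcS hW h₁ h₂, ?_, ?_⟩
    · intro y b hb C hC b1 b2 b3 hx
      exact k2 u v o₁ o₂ C y b huv hu₀ h₁ h₂ hC hb b1 b2 b3 hx
    · intro y b y' b' hb hb' hyy a1 a2 C hC b1 b2 b3 b4 hx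
      exact k3 u v o₁ o₂ C y b y' b' huv hu₀ h₁ h₂ hC hb hb' hyy a1 a2 b1 b2 b3 b4 hx

section

variable {α : Type*} {P : Matroid α} {S : Set α} {row : α → Sym2 (ℕ × ℕ)} {w : ℕ} {Dd : Set α}
  {β D₀ δ₀ D₁ δ₁ : ℕ} {Hm Hs₀ Om₁ Hs₁ Om₂ : Finset (ℕ × ℕ)}

/-- round 0 -/
theorem Rnd.w0 [P.Finite] (h : Rnd P S row w Dd β D₀ δ₀ D₁ δ₁ Hm Hs₀ Om₁ Hs₁ Om₂) :
    WRnd P S row w D₀ β δ₀ (δ₁ + 60) Hs₀ Om₁ := by
  have := h.le
  exact wRnd_of h.wal₀ h.heal₀ h.sub₀ h.in₀ (by omega) (by omega)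

/-- round 1 -/
theorem Rnd.w1 [P.Finite] (h : Rnd P S row w Dd β D₀ δ₀ D₁ δ₁ Hm Hs₀ Om₁ Hs₁ Om₂) :
    WRnd P S row w D₁ β δ₁ (δ₁ + 60) Hs₁ Om₂ := by
  have := h.le
  exact wRnd_of h.wal₁ h.heal₁ h.sub₁ h.in₁ (by omega) (by omega)

/-- visible vertices of round 1 are visible in round 0 -/
theorem Rnd.vis₀ (h : Rnd P S row w Dd β D₀ δ₀ D₁ δ₁ Hm Hs₀ Om₁ Hs₁ Om₂) {δ : ℕ} {u : ℕ × ℕ}
    (hu : OutW δ w Om₂ u) : OutW δ w Om₁ u := by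
  refine ⟨hu.1, fun q hq => ?_⟩
  by_cases h1 : q.1 ≤ w ∧ q.2 ≤ w
  · exact hu.2 q (h.sub₁ (h.ball₁ q hq q h1.1 h1.2 (by rw [sd_self]; omega)))
  · rw [apart_iff]
    have h2 := hu.1
    unfold DeepR at h2
    simp only at h2
    by_contra hcon
    have h3 : sd u q ≤ δ - 1 := by omega
    rw [sd_le] at h3
    omega

end

end DA
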