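import Pool.Agent.DA.RndLoc
import Pool.Agent.DA.SeeVC
import Pool.Agent.DA.LocKinds
import Pool.Agent.DA.WRnd

/-!
# Kinds of the elements of `D` (helper77)

Rows which are seen, quiet vertices, exits of round 1 for the rungs (two visible rows).
-/

open Set BIC BICS
open scoped Matroid

namespace DA

open Gad TST

universe u

/-- `z` separates two elements of the row `u v` -/
def SeeP {α : Type*} (P : Matroid α) (S : Set α) (row : α → Sym2 (ℕ × ℕ)) (z : α)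
    (u v : ℕ × ℕ) : Prop := ∃ x ∈ RX S row u v, ∃ y ∈ RX S row u v, ¬ Er P S z x y

section

variable {α : Type*} {P : Matroid α} {S : Set α} {row : α → Sym2 (ℕ × ℕ)} {w : ℕ} {D : Set α}
  {β D₀ δ₀ D₁ δ₁ : ℕ} {Hm Hs₀ Om₁ Hs₁ Om₂ : Finset (ℕ × ℕ)} {z : α} {u v v' p q : ℕ × ℕ}

lemma seeP_symm (h : SeeP P S row z u v) : SeeP P S row z v u := by
  obtain ⟨x, hx, y, hy, h1⟩ := h
  exact ⟨x, ⟨hx.1, by rw [hx.2, Sym2.eq_swap]⟩, y, ⟨hy.1, by rw [hy.2, Sym2.eq_swap]⟩, h1⟩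

lemma SeeP.seen (h : SeeP P S row z u v) : Seen P S row z s(u, v) := by
  obtain ⟨x, hx, y, hy, h1⟩ := h
  unfold Er at h1
  push Not at h1
  exact seen_of_pair hx.2 hy.2 h1.2

/-- the neighbours of a vertex -/
lemma nst_nb3 {V : Fin 3 → ℕ × ℕ} (h : Nb3 u (V 0) (V 1) (V 2)) :
    nst wadj u = {u, V 0, V 1, V 2} := by
  obtain ⟨h0, h1, h2, n1, n2, n3⟩ := h
  have hstar : ∀ x, wadj u x → x = V 0 ∨ x = V 1 ∨ x = V 2 := by
    intro x hx
    have e : ∀ y, wadj u y → y = (u.1 - 1, u.2) ∨ y = (u.1 + 1, u.2) ∨ y = vn u := by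
      intro y hy
      have h3 := mem_star_of_wadj hy
      unfold star at h3
      simp only [mem_insert_iff, mem_singleton_iff] at h3
      rcases h3 with rfl | h3
      · exfalso
        have := wadj_par' hy
        omega
      · exact h3
    have e0 := e _ h0
    have e1 := e _ h1
    have e2 := e _ h2
    have e3 := e _ hx
    grind
  ext x
  simp only [mem_insert_iff, mem_singleton_iff]
  constructor
  · rintro (h3 | h3)
    · exact Or.inl h3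
    · exact Or.inr (hstar x h3)
  · rintro (h3 | h3 | h3 | h3)
    · exact Or.inl h3
    · exact Or.inr (by rw [h3]; exact h0)
    · exact Or.inr (by rw [h3]; exact h1)
    · exact Or.inr (by rw [h3]; exact h2)

variable (h : Rnd P S row w D β D₀ δ₀ D₁ δ₁ Hm Hs₀ Om₁ Hs₁ Om₂)
include h

lemma Rnd.rep : ∃ c, c ⊆ S ∧ WallE c row w ∅ := h.wal.exists_rep

lemma Rnd.reg (hv : VisR w δ₁ Om₂ v) : RegW w D₀ Hs₀ v :=
  (h.near hv (x := v) (by rw [sd_self]; omega)).2.2.1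

lemma Rnd.out₁ (hv : VisR w δ₁ Om₂ v) : OutW δ₁ w Om₂ v :=
  (h.near hv (x := v) (by rw [sd_self]; omega)).1

lemma Rnd.reg_nb (hv : VisR w δ₁ Om₂ v) (hp : wadj v p) : RegW w D₀ Hs₀ p := by
  have := (wadj_sd hp).1
  exact (h.near hv (by omega)).2.2.1

/-- a row with a regular end is seen iff a pair is separated -/
lemma Rnd.sn_iff [P.Finite] (hz : z ∈ P.closure S) (hu : RegW w D₀ Hs₀ u) :
    SnW P S row w D₀ Hs₀ z u v ↔ SeeP P S row z u v := by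
  constructor
  · rintro ⟨h1, _⟩
    obtain ⟨x, hx, y, hy, hxa, hya, hxy, hn⟩ := (h.vc u hu.1 hu.2).seen_pair h.wal.sub h.wal.mem
      h.rep hz (Sym2.mem_mk_left u v) h1
    refine ⟨x, ⟨hx, hxa⟩, y, ⟨hy, hya⟩, ?_⟩
    rintro (h2 | h2)
    exacts [hxy h2, hn h2]
  · exact fun h1 => ⟨h1.seen, Or.inl hu⟩

/-- quiet vertices -/
lemma Rnd.quiet_of_sn [P.Finite] (hu : RegW w D₀ Hs₀ u)
    (hb : ∀ b, wadj u b → b ≠ v → ¬ SnW P S row w D₀ Hs₀ z u b) : Quiet P S row u v z := by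
  intro a ha a' ha' haa hua hne _
  by_contra hcon
  obtain ⟨p, q, h1, h2, _, _⟩ := h.wal.mem a ha
  have key : ∀ b, wadj u b → row a = s(u, b) → False := by
    intro b hub hr
    refine hb b hub ?_ ⟨?_, Or.inl hu⟩
    · rintro rfl
      exact hne hr
    · exact seen_of_pair hr (haa.trans hr) hcon
  rw [h1, Sym2.mem_iff] at hua
  rcases hua with rfl | rfl
  · exact key q h2 h1
  · exact key p (wadj_swap h2) (by rw [h1, Sym2.eq_swap])

/-- **Far rungs**: exits of the row in round 1. -/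
theorem Rnd.far_ex [P.Finite] (hβ : 4 ≤ β) (hz : z ∈ D) (hzcl : z ∈ P.closure S) (hzS : z ∉ S)
    (huv : wadj u v) (hu : VisR w δ₁ Om₂ u) (hv : VisR w δ₁ Om₂ v)
    (hs : SnW P S row w D₀ Hs₀ z u v) (hpq : wadj p q) (hp : VisR w δ₁ Om₂ p)
    (hq : VisR w δ₁ Om₂ q) (hs' : SnW P S row w D₀ Hs₀ z p q) (hpn : p ∉ ({u, v} : Set (ℕ × ℕ)))
    (hqn : q ∉ ({u, v} : Set (ℕ × ℕ))) :
    (∀ c, ∀ x ∈ YW P S row w D₀ Hs₀ z c, OutW δ₁ w Om₂ x) ∧
    (∃ (c : ChW S row w) (y : ℕ × ℕ), ExitEH P S row w D₁ β δ₁ Hs₁ Om₂ {u, v} c.1 y z) ∧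
    (∃ (c : ChW S row w) (y : ℕ × ℕ), ExitEH P S row w D₁ β δ₁ Hs₁ Om₂ (nst wadj u) c.1 y z) ∧
    Quiet P S row u v z := by
  have hT := h.locT hz hzcl
  have hcl : ∀ c, ∀ x ∈ YW P S row w D₀ Hs₀ z c, OutW δ₁ w Om₂ x := by
    intro c x hx
    have h1 := hT.supp_far huv hu hv hs hpq hs' hpn hqn c hx
    simp only [mem_insert_iff, mem_singleton_iff] at h1
    rcases h1 with rfl | rfl | rfl | rfl
    exacts [h.out₁ hu, h.out₁ hv, h.out₁ hp, h.out₁ hq]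
  refine ⟨hcl, ?_, ?_, ?_⟩
  · obtain ⟨c, y, h1, h2, h3⟩ := hT.exit_of_far huv hu hv hs hpq (h.reg hp) (h.reg hq) hs' hpn hqn
    refine ⟨c, y, h.exit1 hβ hz hzcl hzS huv hu hv hs hcl h1 h2 ?_⟩
    intro x hx
    have h4 := h3 hx
    simp only [mem_insert_iff, mem_singleton_iff] at h4 ⊢
    tauto
  · obtain ⟨c, y, h1, h2, h3⟩ := hT.exit_star_of_far huv hu hv hs hpq (h.reg hp) (h.reg hq) hs' hpn
      hqn
    exact ⟨c, y, h.exit1 hβ hz hzcl hzS huv hu hv hs hcl h1 h2 h3⟩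
  · refine h.quiet_of_sn (h.reg hu) fun b hub hbv => ?_
    exact hT.far_quiet huv hu hv hs hpq (h.reg hp) hs' hpn hqn hub hbv

/-- **Near rungs**: exits of the row and of the star of the outer end in round 1. -/
theorem Rnd.near_ex [P.Finite] (hβ : 4 ≤ β) (hz : z ∈ D) (hzcl : z ∈ P.closure S) (hzS : z ∉ S)
    (huv : wadj u v) (hu : VisR w δ₁ Om₂ u) (hv : VisR w δ₁ Om₂ v)
    (hs : SnW P S row w D₀ Hs₀ z u v) (huv' : wadj u v')
    (hs' : SnW P S row w D₀ Hs₀ z u v') (hne : v ≠ v')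
    (hnd : ¬ ∀ c, YW P S row w D₀ Hs₀ z c \ {u, v} = nst wadj u \ {u, v}) :
    (∀ c, YW P S row w D₀ Hs₀ z c ⊆ nst wadj u) ∧
    (∀ c, ∀ x ∈ YW P S row w D₀ Hs₀ z c, OutW δ₁ w Om₂ x) ∧
    (∃ (c : ChW S row w) (y : ℕ × ℕ), ExitEH P S row w D₁ β δ₁ Hs₁ Om₂ {u, v} c.1 y z) ∧
    (∃ (c : ChW S row w) (y : ℕ × ℕ), ExitEH P S row w D₁ β δ₁ Hs₁ Om₂ (nst wadj v) c.1 y z) ∧
    Quiet P S row v u z := by
  have hT := h.locT hz hzcl
  have hsub := hT.near_of_two huv hu hv hs huv' hs' hne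
  have hcl : ∀ c, ∀ x ∈ YW P S row w D₀ Hs₀ z c, OutW δ₁ w Om₂ x := by
    intro c x hx
    rcases hsub c hx with rfl | h1
    · exact h.out₁ hu
    · have := (wadj_sd h1).1
      exact (h.near hu (by omega)).1
  refine ⟨hsub, hcl, ?_, ?_, ?_⟩
  · obtain ⟨c, y, h1, h2, h3⟩ := (hT.exit_of_near huv hu hv hs huv' hs' hne).resolve_right hnd
    refine ⟨c, y, h.exit1 hβ hz hzcl hzS huv hu hv hs hcl h1 h2 ?_⟩
    intro x hx
    have h4 := h3 hx
    simp only [mem_insert_iff, mem_singleton_iff] at h4 ⊢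
    tauto
  · obtain ⟨c, y, h1, h2, h3⟩ := (hT.exit_star_of_near huv hu hv hs huv' hs' hne).resolve_right hnd
    exact ⟨c, y, h.exit1 hβ hz hzcl hzS huv hu hv hs hcl h1 h2 h3⟩
  · refine h.quiet_of_sn (h.reg hv) fun b hvb hbu => ?_
    exact hT.near_quiet huv hu hv hs huv' hs' hne hvb hbu

end

end DA
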