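import Pool.Agent.CW.Kill
import Pool.Agent.DA.Heal
import Pool.Agent.DA.Ground
import Pool.Agent.DA.WQA
import Pool.Agent.TST.Reps

/-!
# LWal from KILL

A clean side `GSide M (Seg w) L f e u` is a lift of rank `u` of a subdivided brick wall.  By KILL it is
exact outside of at most `u` windows of side 4: it is a lifted wall with windows (`LWal`).
-/

open Set BIC BICS
open scoped Matroid

namespace DA

open CWL TST Gad

universe u

/-- the row of a segment -/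
def srow (s : Bool × ℕ × ℕ) : Sym2 (ℕ × ℕ) := s(segNear s, segFar s)

lemma srow_inj {s s' : Bool × ℕ × ℕ} (h : srow s = srow s') : s = s' := by
  obtain ⟨t, i, j⟩ := s
  obtain ⟨t', i', j'⟩ := s'
  unfold srow at h
  rw [Sym2.eq_iff] at h
  cases t <;> cases t' <;>
    simp only [segNear, segFar, if_true, Bool.false_eq_true, if_false, Prod.mk.injEq,
      reduceCtorEq, true_and, false_and] at h ⊢ <;> omega

lemma seg_of_wadj {w : ℕ} {p q : ℕ × ℕ} (h : wadj p q) (hp : p ∈ rect 0 0 (w + 1) (w + 1))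
    (hq : q ∈ rect 0 0 (w + 1) (w + 1)) : ∃ s ∈ Seg w, srow s = s(p, q) := by
  obtain ⟨a, b⟩ := p
  obtain ⟨a', b'⟩ := q
  unfold wadj at h
  simp only at h
  simp only [rect, mem_ofPred_eq] at hp hq
  rcases h with ⟨h1, h2 | h2⟩ | ⟨h1, ⟨h2, h3⟩ | ⟨h2, h3⟩⟩
  · refine ⟨(true, a, b), ?_, ?_⟩
    · simp only [Seg, mem_ofPred_eq]
      left
      exact ⟨trivial, by omega, by omega⟩
    · simp only [srow, segNear, segFar, if_true]
      rw [h1, h2]
  · refine ⟨(true, a', b'), ?_, ?_⟩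
    · simp only [Seg, mem_ofPred_eq]
      left
      exact ⟨trivial, by omega, by omega⟩
    · simp only [srow, segNear, segFar, if_true]
      rw [h2, ← h1]
      exact Sym2.eq_swap
  · refine ⟨(false, a, b), ?_, ?_⟩
    · simp only [Seg, mem_ofPred_eq]
      right
      exact ⟨trivial, by omega, by omega, h3⟩
    · simp only [srow, segNear, segFar, Bool.false_eq_true, if_false]
      rw [h2, ← h1]
  · refine ⟨(false, a', b'), ?_, ?_⟩
    · simp only [Seg, mem_ofPred_eq]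
      right
      exact ⟨trivial, by omega, by omega, h3⟩
    · simp only [srow, segNear, segFar, Bool.false_eq_true, if_false]
      rw [h2, h1]
      exact Sym2.eq_swap

lemma wadj_srow {w : ℕ} {s : Bool × ℕ × ℕ} (hs : s ∈ Seg w) : wadj (segNear s) (segFar s) ∧
    segNear s ∈ rect 0 0 (w + 1) (w + 1) ∧ segFar s ∈ rect 0 0 (w + 1) (w + 1) := by
  obtain ⟨t, i, j⟩ := s
  cases t
  · simp only [Seg, mem_ofPred_eq, Bool.false_eq_true, false_and, true_and, false_or] at hs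
    have e1 : segNear (false, i, j) = (i, j) := rfl
    have e2 : segFar (false, i, j) = (i, j + 1) := by simp [segFar]
    rw [e1, e2]
    refine ⟨Or.inr ⟨rfl, Or.inl ⟨rfl, hs.2.2⟩⟩, ?_, ?_⟩ <;> simp only [rect, mem_ofPred_eq] <;> omega
  · simp only [Seg, mem_ofPred_eq, true_and, or_false, false_and, reduceCtorEq] at hs
    have e1 : segNear (true, i, j) = (i, j) := rfl
    have e2 : segFar (true, i, j) = (i + 1, j) := by simp [segFar]
    rw [e1, e2]
    refine ⟨Or.inl ⟨rfl, Or.inl rfl⟩, ?_, ?_⟩ <;> simp only [rect, mem_ofPred_eq] <;> omega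

section

variable {α : Type u} {M N : Matroid α} {w u : ℕ} {L : Bool × ℕ × ℕ → List α}
  {f : α → Sym2 ((ℕ × ℕ) ⊕ α)} {e : Bool × ℕ × ℕ → α} {row : α → Sym2 (ℕ × ℕ)}

/-- The representatives of the rows of an exact subdivided wall carry the brick wall. -/
theorem GSide.bic_rep [N.Finite] (h : GSide M (Seg w) L f e u) (hN : Bic N (crr L (Seg w)) f)
    (hrow : ∀ s ∈ Seg w, ∀ x ∈ L s, row x = srow s) {c : Set α} (hc : c ⊆ crr L (Seg w))
    (hcW : WallE c row w ∅) : Bic (N ／ (crr L (Seg w) \ c)) c row := by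
  classical
  obtain ⟨R, hR⟩ : ∃ R, R = crr L (Seg w) := ⟨_, rfl⟩
  rw [← hR] at hN hc ⊢
  have hsw : SubWall R f L w := by
    refine ⟨fun s hs hn => ?_, h.nodup, h.disj, fun x => ?_, h.end_eq⟩
    · have := h.last s hs
      rw [hn] at this
      simp at this
    · rw [hR]
      exact Iff.rfl
  have hrep : ∀ s, ∃ x, s ∈ Seg w → x ∈ c ∧ x ∈ L s := by
    intro s
    by_cases hs : s ∈ Seg w
    · obtain ⟨h1, h2, h3⟩ := wadj_srow hs
      obtain ⟨x, hx, hxr⟩ := hcW.surj _ _ h1 h2 h3 (Set.notMem_empty _)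
      obtain ⟨s', hs', hxs⟩ : ∃ s ∈ Seg w, x ∈ L s := by
        have := hc hx
        rw [hR] at this
        exact this
      have h4 : srow s' = srow s := by
        rw [← hrow s' hs' x hxs, hxr]
        rfl
      refine ⟨x, fun _ => ⟨hx, ?_⟩⟩
      rw [← srow_inj h4]
      exact hxs
    · exact ⟨e s, fun h' => absurd h' hs⟩
  choose r hr using hrep
  have hrc : r '' Seg w = c := by
    ext x
    constructor
    · rintro ⟨s, hs, rfl⟩
      exact (hr s hs).1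
    · intro hx
      obtain ⟨s, hs, hxs⟩ : ∃ s ∈ Seg w, x ∈ L s := by
        have := hc hx
        rw [hR] at this
        exact this
      refine ⟨s, hs, hcW.inj (hr s hs).1 hx ?_⟩
      rw [hrow s hs _ (hr s hs).2, hrow s hs _ hxs]
  obtain ⟨g, hg1, hg2⟩ := con_reps hsw (bicU_zero hN) (r := r) fun s hs => (hr s hs).2
  rw [hrc] at hg1
  have hB := hg1.bic
  -- from `g` to `row`
  have hgr : ∀ x ∈ c, g x = (row x).map Sum.inl := by
    intro x hx
    rw [← hrc] at hx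
    obtain ⟨s, hs, rfl⟩ := hx
    rw [hg2 s hs, hrow s hs _ (hr s hs).2]
    rfl
  refine ⟨hB.sub, fun F φ hF hφ hφe => ?_, fun W => ?_⟩
  · refine hB.ind F (fun x => Sum.inl (φ x)) hF ?_ ?_
    · intro x hx y hy hxy
      exact hφ hx hy (Sum.inl_injective hxy)
    · intro x hx
      rw [hgr x (hF hx)]
      exact Sym2.mem_map.2 ⟨φ x, hφe x hx, rfl⟩
  · have h1 := hB.rk (Sum.inl '' W)
    rw [Sum.inl_injective.encard_image] at h1
    refine le_trans (Matroid.eRk_mono _ ?_) h1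
    rintro x ⟨hx, hxW⟩
    refine ⟨hx, fun v hv => ?_⟩
    rw [hgr x hx, Sym2.mem_map] at hv
    obtain ⟨v', hv', rfl⟩ := hv
    exact ⟨v', hxW v' hv', rfl⟩

/-- the vertices of the windows, as a finset -/
lemma exists_windows (J : Finset (ℕ × ℕ)) : ∃ Hs : Finset (ℕ × ℕ), Hs.card ≤ 25 * J.card ∧
    (Hs : Set (ℕ × ℕ)) = VS (Wn J) ∧
    ∀ v, v ∈ Hs ↔ ∃ j ∈ J, j.1 ≤ v.1 ∧ v.1 ≤ j.1 + 4 ∧ j.2 ≤ v.2 ∧ v.2 ≤ j.2 + 4 := by
  classical
  have hmem : ∀ v, v ∈ (J ×ˢ (Finset.range 5 ×ˢ Finset.range 5)).image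
      (fun x => (x.1.1 + x.2.1, x.1.2 + x.2.2)) ↔
      ∃ j ∈ J, j.1 ≤ v.1 ∧ v.1 ≤ j.1 + 4 ∧ j.2 ≤ v.2 ∧ v.2 ≤ j.2 + 4 := by
    intro v
    rw [Finset.mem_image]
    constructor
    · rintro ⟨⟨j, a, b⟩, hx, rfl⟩
      simp only [Finset.mem_product, Finset.mem_range] at hx
      exact ⟨j, hx.1, by simp only; omega, by simp only; omega, by simp only; omega,
        by simp only; omega⟩
    · rintro ⟨j, hj, h1, h2, h3, h4⟩
      refine ⟨(j, v.1 - j.1, v.2 - j.2), ?_, ?_⟩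
      · simp only [Finset.mem_product, Finset.mem_range]
        exact ⟨hj, by omega, by omega⟩
      · ext
        · simp only; omega
        · simp only; omega
  refine ⟨(J ×ˢ (Finset.range 5 ×ˢ Finset.range 5)).image
    (fun x => (x.1.1 + x.2.1, x.1.2 + x.2.2)), ?_, ?_, hmem⟩
  · refine Finset.card_image_le.trans ?_
    rw [Finset.card_product, Finset.card_product, Finset.card_range]
    omega
  · ext v
    rw [Finset.mem_coe, hmem]
    constructor
    · rintro ⟨j, hj, h1, h2, h3, h4⟩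
      have h5 : v ∈ VS (Rg j.1 (j.1 + 4) j.2 (j.2 + 4)) := by
        rw [vs_rg (by omega)]
        exact ⟨h1, h2, h3, h4⟩
      obtain ⟨s, hs, h6⟩ := h5
      exact ⟨s, ⟨j, hj, hs⟩, h6⟩
    · rintro ⟨s, ⟨j, hj, hs⟩, h6⟩
      have h5 : v ∈ VS (Rg j.1 (j.1 + 4) j.2 (j.2 + 4)) := ⟨s, hs, h6⟩
      rw [vs_rg (by omega)] at h5
      exact ⟨j, hj, h5.1, h5.2.1, h5.2.2.1, h5.2.2.2⟩

/-- Transport of exactness. -/
lemma bic_of_kill [M.Finite] [N.Finite] {R B C : Set α} {g : α → Sym2 (ℕ × ℕ)}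
    (hRM : R ⊆ M.E) (hRN : R ⊆ N.E) (hB : B ⊆ R) (hC : C ⊆ R \ B)
    (hk : ∀ X ⊆ R, rk M (X ∪ B) + rk N B = rk N (X ∪ B) + rk M B)
    (h : Bic (N ／ B) C g) : Bic (M ／ B) C g := by
  classical
  have hf1 : (M ／ B).Finite := BQ.fin_contract _
  have hf2 : (N ／ B).Finite := BQ.fin_contract _
  have hrk : ∀ X ⊆ C, rk (M ／ B) X = rk (N ／ B) X := by
    intro X hX
    have h1 := rk_contract_set (M := M) (hB.trans hRM) (X := X)
      fun x hx => ⟨hRM (hC (hX hx)).1, (hC (hX hx)).2⟩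
    have h2 := rk_contract_set (M := N) (hB.trans hRN) (X := X)
      fun x hx => ⟨hRN (hC (hX hx)).1, (hC (hX hx)).2⟩
    have h3 := hk X fun x hx => (hC (hX hx)).1
    omega
  have hCE : C ⊆ (M ／ B).E := by
    rw [Matroid.contract_ground]
    exact fun x hx => ⟨hRM (hC hx).1, (hC hx).2⟩
  exact Bic_of_rk h hCE hrk

/-- **LWal from KILL.** -/
theorem GSide.lwal_of [M.Finite] [N.Finite] (h : GSide M (Seg w) L f e u)
    (hN : Bic N (crr L (Seg w)) f) {J : Finset (ℕ × ℕ)}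
    (hJ : ∀ j ∈ J, j.1 + 4 ≤ w ∧ j.2 + 4 ≤ w) (hJw : 5 * J.card ≤ w)
    (hk : ∀ B, crr L (Wn J) ⊆ B → B ⊆ crr L (Seg w) → ∀ X ⊆ crr L (Seg w),
      rk M (X ∪ B) + rk N B = rk N (X ∪ B) + rk M B)
    (hrow : ∀ s ∈ Seg w, ∀ x ∈ L s, row x = srow s) {Hs : Finset (ℕ × ℕ)}
    (hHs : (Hs : Set (ℕ × ℕ)) = VS (Wn J))
    (hHm : ∀ v, v ∈ Hs ↔ ∃ j ∈ J, j.1 ≤ v.1 ∧ v.1 ≤ j.1 + 4 ∧ j.2 ≤ v.2 ∧ v.2 ≤ j.2 + 4) :
    LWal M (crr L (Seg w)) row w Hs := by
  classical
  have hWJ : Wn J ⊆ Seg w := by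
    rintro s ⟨j, hj, hs⟩
    exact rg_sub (hJ j hj).1 (hJ j hj).2 hs
  refine ⟨h.sub_ground, ?_, ?_, ?_, ?_⟩
  · rintro x ⟨s, hs, hx⟩
    obtain ⟨h1, h2, h3⟩ := wadj_srow hs
    exact ⟨_, _, hrow s hs x hx, h1, h2, h3⟩
  · intro p q hpq hp hq
    obtain ⟨s, hs, h1⟩ := seg_of_wadj hpq hp hq
    exact ⟨e s, ⟨s, hs, h.mem_last hs⟩, by rw [hrow s hs _ (h.mem_last hs), h1]⟩
  · intro v hv
    obtain ⟨j, hj, h1, h2, h3, h4⟩ := (hHm v).1 hv
    have h5 := hJ j hj
    refine ⟨by omega, by omega, ?_⟩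
    by_contra hcon
    push Not at hcon
    have h6 : Finset.range (w + 1) ⊆ J.biUnion fun j => Finset.Icc j.1 (j.1 + 4) := by
      intro a ha
      rw [Finset.mem_range] at ha
      obtain ⟨j', hj', g1, g2, _⟩ := (hHm _).1 (hcon a (by omega))
      rw [Finset.mem_biUnion]
      exact ⟨j', hj', Finset.mem_Icc.2 ⟨g1, g2⟩⟩
    have h7 := (Finset.card_le_card h6).trans Finset.card_biUnion_le
    rw [Finset.card_range] at h7
    have h8 : ∑ j ∈ J, (Finset.Icc j.1 (j.1 + 4)).card = J.card * 5 := by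
      rw [Finset.sum_congr rfl (g := fun _ => 5) (fun j _ => by rw [Nat.card_Icc]; omega),
        Finset.sum_const, smul_eq_mul]
    omega
  · intro c hc hcW
    have hB1 := GSide.bic_rep h hN hrow hc hcW
    have hf : (N ／ (crr L (Seg w) \ c)).Finite := BQ.fin_contract _
    obtain ⟨nb, hnb⟩ := nb_wn J
    obtain ⟨F, hF⟩ : ∃ F, FullB c row (Hs : Set (ℕ × ℕ)) F := by
      refine full_of_nb nb ?_ ?_
      · intro v hv
        rw [hHs] at hv ⊢
        obtain ⟨h1, ⟨s, hs, h2⟩, _⟩ := hnb v hv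
        refine ⟨h1, ?_⟩
        obtain ⟨g1, g2, g3⟩ := wadj_srow (hWJ hs)
        obtain ⟨x, hx, hxr⟩ := hcW.surj _ _ g1 g2 g3 (Set.notMem_empty _)
        exact ⟨x, hx, by rw [hxr, h2]⟩
      · intro v hv
        rw [hHs] at hv
        exact (hnb v hv).2.2
    have hB2 := bic_ground hB1 hF
    rw [Matroid.contract_contract] at hB2
    have hcE : ∀ x ∈ c, ∃ s ∈ Seg w, x ∈ L s := fun x hx => hc hx
    refine bic_of_kill (R := crr L (Seg w)) h.sub_ground hN.sub ?_ ?_ ?_ hB2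
    · rintro x (hx | hx)
      · exact hx.1
      · exact hc hx.1
    · rintro x ⟨hx, v, hv, hvH⟩
      refine ⟨hc hx, ?_⟩
      rintro (h1 | h1)
      · exact h1.2 hx
      · exact hvH (h1.2 v hv)
    · refine hk _ ?_ ?_
      · rintro x ⟨s, hs, hx⟩
        by_cases hxc : x ∈ c
        · refine Or.inr ⟨hxc, fun v hv => ?_⟩
          rw [hrow s (hWJ hs) x hx] at hv
          rw [← Finset.mem_coe, hHs]
          refine ⟨s, hs, ?_⟩
          unfold srow at hv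
          rwa [Sym2.mem_iff] at hv
        · exact Or.inl ⟨⟨s, hWJ hs, hx⟩, hxc⟩
      · rintro x (hx | hx)
        · exact hx.1
        · exact hc hx.1

/-- **LWal from a clean side.** -/
theorem GSide.lwal [M.Finite] (h : GSide M (Seg w) L f e u) (hw : 5 * u + 4 ≤ w)
    (hrow : ∀ s ∈ Seg w, ∀ x ∈ L s, row x = srow s) :
    ∃ Hs : Finset (ℕ × ℕ), Hs.card ≤ 25 * u ∧ LWal M (crr L (Seg w)) row w Hs := by
  classical
  obtain ⟨N, J, hNf, hN, _, hJu, hJ, hk⟩ := h.kill (by omega)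
  obtain ⟨Hs, h1, h2, h3⟩ := exists_windows J
  exact ⟨Hs, by omega, GSide.lwal_of h hN hJ (by omega) hk hrow h2 h3⟩

/-- the rows of a side -/
lemma GSide.exists_row (h : GSide M (Seg w) L f e u) :
    ∃ row : α → Sym2 (ℕ × ℕ), ∀ s ∈ Seg w, ∀ x ∈ L s, row x = srow s := by
  classical
  refine ⟨fun x => if hx : ∃ s ∈ Seg w, x ∈ L s then srow hx.choose else s((0, 0), (0, 0)), ?_⟩
  intro s hs x hx
  have hex : ∃ s ∈ Seg w, x ∈ L s := ⟨s, hs, hx⟩
  simp only [dif_pos hex]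
  rw [h.uniq hex.choose_spec.1 hs hex.choose_spec.2 hx]

end

end DA
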