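import Pool.Agent.DA.OneAB

/-!
# Fields of the label level from the two rounds (T-star, helper51)

`Rnd.oneE_compl`: the classes of a (ONE) element which is local in round 1.  `DtE`: degenerate tripods,
`DtE.star`, `Rnd.dtE_cls`.  `kind51`: the kinds of the elements which see a visible row.
`Rnd.node51`: the class of the centre of a star for a same-row element.  `Rnd.same_O51`: the outer ends of
the other legs.  `Rnd.awN51`: the classes of a near rung.  `Rnd.on2_cls`, `on2_pwitB`, `on2_pwitD`,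
`on2_twit`: rungs as one-place elements (the second row is not used).
-/

set_option autoImplicit false

open Set BIC BICS
open scoped Matroid

namespace DA

open Gad TST

/-- **Degenerate tripods** with centre `u`, seen on the row `u v` -/
structure DtE {α : Type*} (P : Matroid α) (S : Set α) (row : α → Sym2 (ℕ × ℕ)) (w : ℕ)
    (D₀ δ₁ : ℕ) (Hs₀ Om₂ : Finset (ℕ × ℕ)) (u v : ℕ × ℕ) (z : α) : Prop where
  cl : z ∈ P.closure S ∧ z ∉ S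
  see : SeeP P S row z u v
  only : ∀ p q, wadj p q → VisR w δ₁ Om₂ p → VisR w δ₁ Om₂ q → SeeP P S row z p q →
    s(p, q) = s(u, v)
  dt : ∀ c, YW P S row w D₀ Hs₀ z c \ {u, v} = nst wadj u \ {u, v}

section

variable {α : Type*} {P : Matroid α} {S : Set α} {row : α → Sym2 (ℕ × ℕ)} {w : ℕ} {Dd : Set α}
  {β D₀ δ₀ D₁ δ₁ : ℕ} {Hm Hs₀ Om₁ Hs₁ Om₂ : Finset (ℕ × ℕ)} {u v a y : ℕ × ℕ}
  {V : Fin 3 → ℕ × ℕ} {z t : α} {T : Set α} {i : Fin 3}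

/-- the classes of the two ends of a row for an element with one place which is quiet at both ends -/
theorem Rnd.compl51 [P.Finite] (h : Rnd P S row w Dd β D₀ δ₀ D₁ δ₁ Hm Hs₀ Om₁ Hs₁ Om₂)
    (hz : z ∈ Dd) (hzcl : z ∈ P.closure S) (huv : wadj u v) (hu : VisR w δ₁ Om₂ u)
    (hv : VisR w δ₁ Om₂ v) (hs : SeeP P S row z u v) {c₀ : ChW S row w}
    (hy : y ∉ ({u, v} : Set (ℕ × ℕ))) (hyc : y ∈ YW P S row w D₀ Hs₀ z c₀)
    (hsub : YW P S row w D₀ Hs₀ z c₀ ⊆ {u, v, y}) (qu : Quiet P S row u v z)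
    (qv : Quiet P S row v u z) :
    ∀ x ∈ RX S row u v, (x ∈ Lr P S row w u z ↔ x ∈ Arw P S row w u v z) ∧
      (x ∈ Lr P S row w v z ↔ x ∉ Arw P S row w u v z) := by
  intro x hx
  refine ⟨by rw [Arw, if_pos qu], ?_⟩
  obtain ⟨hc, hW⟩ := swp_rep c₀.2.1 c₀.2.2 hx.1 (rep_of h.wal.mem c₀.2.2 hx.1)
  have h1 := (h.one_place hz hzcl huv hu hv hs hy hyc hsub (Or.inl qu)).2.2 qv
    ⟨swp row c₀.1 x, hc, hW⟩ x hx (Or.inr rfl)
  have hx' : x ∈ RX S row v u := ⟨hx.1, by rw [hx.2, Sym2.eq_swap]⟩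
  have hrv := h.reg hv
  have h2 := (h.vc v hrv.1 hrv.2).mem_lr h.wal.sub h.wal.mem qv c₀.2.1 c₀.2.2 hx'
  rw [h2, h1]
  exact ⟨fun h3 h4 => h3 h4.1, fun h3 h4 => h3 ⟨h4, hrv⟩⟩

/-- **The classes of a (ONE) element which is local in round 1.** -/
theorem Rnd.oneE_compl [P.Finite] (h : Rnd P S row w Dd β D₀ δ₀ D₁ δ₁ Hm Hs₀ Om₁ Hs₁ Om₂)
    (hz : z ∈ Dd) (huv : wadj u v) (hu : VisR w δ₁ Om₂ u) (hv : VisR w δ₁ Om₂ v)
    (ho : OneE P S row w D₀ δ₁ Hs₀ Om₂ u v z) (hb : z ∈ TRow P S row w D₁ Hs₁ u v) :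
    ∀ x ∈ RX S row u v, (x ∈ Lr P S row w u z ↔ x ∈ Arw P S row w u v z) ∧
      (x ∈ Lr P S row w v z ↔ x ∉ Arw P S row w u v z) := by
  obtain ⟨c, y, h1, h2, h3⟩ := h.oneE_exit hz huv hu hv ho
  obtain ⟨q1, q2⟩ := h.w1.quietT hu hv hb
  exact h.compl51 hz ho.cl.1 huv hu hv ho.see h1 h2 h3 q1 q2

/-- degenerate tripods are local in the star of their centre -/
theorem DtE.star (ho : DtE P S row w D₀ δ₁ Hs₀ Om₂ u v z) (huv : wadj u v) :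
    z ∈ TStar P S row w D₀ Hs₀ u := by
  refine mem_tStar₀.2 ⟨ho.cl, fun c x hx => ?_⟩
  by_cases h2 : x ∈ ({u, v} : Set (ℕ × ℕ))
  · rcases h2 with h2 | h2
    · exact Or.inl h2
    · rw [mem_singleton_iff.1 h2]
      exact Or.inr huv
  · have h3 : x ∈ YW P S row w D₀ Hs₀ z c \ {u, v} := ⟨hx, h2⟩
    rw [ho.dt c] at h3
    exact h3.1

/-- **The classes of a degenerate tripod.** -/
theorem Rnd.dtE_cls [P.Finite] (h : Rnd P S row w Dd β D₀ δ₀ D₁ δ₁ Hm Hs₀ Om₁ Hs₁ Om₂)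
    (hz : z ∈ Dd) (huv : wadj u v) (hu : VisR w δ₁ Om₂ u) (hv : VisR w δ₁ Om₂ v)
    (ho : DtE P S row w D₀ δ₁ Hs₀ Om₂ u v z) :
    (∀ x ∈ RX S row u v, ∀ y ∈ RX S row u v,
      (Er P S z x y ↔ (x ∈ Lr P S row w u z ↔ y ∈ Lr P S row w u z))) ∧
    (∀ x ∈ RX S row u v, ∀ y ∈ RX S row u v,
      (Er P S z x y ↔ (x ∈ Lr P S row w v z ↔ y ∈ Lr P S row w v z))) ∧
    ∀ x ∈ RX S row u v, (x ∈ Lr P S row w u z ↔ x ∈ Lr P S row w v z) := by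
  have hu1 := h.w1.one_le hu
  obtain ⟨V, hnb⟩ := exists_nb3 hu1
  obtain ⟨i, hi⟩ : ∃ i, V i = v := by
    rcases nb3_mem hu1 hnb huv with h1 | h1 | h1
    exacts [⟨0, h1.symm⟩, ⟨1, h1.symm⟩, ⟨2, h1.symm⟩]
  subst hi
  obtain ⟨j, k, hij, hik, hjk, hall⟩ : ∃ j k : Fin 3, i ≠ j ∧ i ≠ k ∧ j ≠ k ∧
      ∀ l, l = i ∨ l = j ∨ l = k := (by decide : ∀ i : Fin 3, ∃ j k : Fin 3, i ≠ j ∧ i ≠ k ∧
        j ≠ k ∧ ∀ l, l = i ∨ l = j ∨ l = k) i
  obtain ⟨k1, k2, k3⟩ := h.dt_loc hnb hij hik ho.dt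
  obtain ⟨d1, d2, d3, -, -⟩ := h.w1.dt hu hnb ho.cl.1 ho.cl.2 k1 hij hik hjk k2 k3
  have hT := (h.locT hz ho.cl.1).toLocS
  have hru := h.reg hu
  have hrv := h.reg hv
  -- quiet at both ends
  have qv : Quiet P S row (V i) u z := h.w1.quiet_nst hu hnb k1 i
  have qu : Quiet P S row u (V i) z := by
    refine h.quiet_of_sn hru fun b hub hbv h1 => ?_
    have h2 := (h.sn_iff ho.cl.1 hru).1 h1
    obtain ⟨l, hl⟩ : ∃ l, V l = b := by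
      rcases nb3_mem hu1 hnb hub with h1 | h1 | h1
      exacts [⟨0, h1.symm⟩, ⟨1, h1.symm⟩, ⟨2, h1.symm⟩]
    subst hl
    obtain ⟨x, hx, y, hy, hxy⟩ := h2
    rcases hall l with rfl | rfl | rfl
    · exact hbv rfl
    · exact hxy (d1 x hx y hy)
    · exact hxy (d2 x hx y hy)
  -- `u` is a location iff `V i` is
  have huv' : u ≠ V i := hT.adj_ne huv
  have hnj : ∀ l, i ≠ l → ∀ c, V l ∈ YW P S row w D₀ Hs₀ z c := by
    intro l hl c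
    have h1 : V l ∈ nst wadj u \ {u, V i} := by
      refine ⟨Or.inr (nb3_adj hnb l), ?_⟩
      rintro (h2 | h2)
      · exact hT.adj_ne (nb3_adj hnb l) h2.symm
      · exact nb3_inj hnb hl (mem_singleton_iff.1 h2).symm
    rw [← ho.dt c] at h1
    exact h1.1
  have hiff : ∀ c, u ∈ YW P S row w D₀ Hs₀ z c ↔ V i ∈ YW P S row w D₀ Hs₀ z c := by
    intro c
    have hj := hnj j hij c
    have hk := hnj k hik c
    have hctr : ∀ v₀, YW P S row w D₀ Hs₀ z c = nst wadj v₀ → v₀ = u := by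
      intro v₀ h1
      rw [h1] at hj hk
      exact hT.ctr (nb3_adj hnb j) (nb3_adj hnb k) (nb3_inj hnb hjk) hj hk
    constructor
    · intro h1
      rcases hT.two c u hu h1 with h2 | ⟨v₀, h2⟩
      · exact absurd h2 (not_sub_two h1 hj hk (hT.adj_ne (nb3_adj hnb j))
          (hT.adj_ne (nb3_adj hnb k)) (nb3_inj hnb hjk))
      · rw [h2, hctr v₀ h2]
        exact Or.inr huv
    · intro h1
      rcases hT.two c (V i) hv h1 with h2 | ⟨v₀, h2⟩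
      · exact absurd h2 (not_sub_two h1 hj hk (nb3_inj hnb hij) (nb3_inj hnb hik)
          (nb3_inj hnb hjk))
      · rw [h2, hctr v₀ h2]
        exact Or.inl rfl
  have hcl : ∀ x ∈ RX S row u (V i), (x ∈ Lr P S row w u z ↔ x ∈ Lr P S row w (V i) z) := by
    intro x hx
    obtain ⟨c, hc, hW⟩ := h.rep
    obtain ⟨hc₁, hW₁⟩ := swp_rep hc hW hx.1 (rep_of h.wal.mem hW hx.1)
    have hx' : x ∈ RX S row (V i) u := ⟨hx.1, by rw [hx.2, Sym2.eq_swap]⟩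
    rw [(h.vc u hru.1 hru.2).mem_lr h.wal.sub h.wal.mem qu hc hW hx,
      (h.vc (V i) hrv.1 hrv.2).mem_lr h.wal.sub h.wal.mem qv hc hW hx']
    have h1 := hiff ⟨swp row c x, hc₁, hW₁⟩
    exact not_iff_not.2 ⟨fun h2 => (h1.1 ⟨h2, hru⟩).1, fun h2 => (h1.2 ⟨h2, hrv⟩).1⟩
  refine ⟨fun x hx y hy => ?_, fun x hx y hy => d3 x hx y hy, hcl⟩
  rw [hcl x hx, hcl y hy]
  exact d3 x hx y hy

/-- **The hidden places of a degenerate tripod**: the outer ends of the other two legs are always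
locations. -/
theorem Rnd.dt_hid51 [P.Finite] (h : Rnd P S row w Dd β D₀ δ₀ D₁ δ₁ Hm Hs₀ Om₁ Hs₁ Om₂)
    (hzcl : z ∈ P.closure S ∧ z ∉ S) (hu : VisR w δ₁ Om₂ u) (huv : wadj u v)
    (hY : ∀ c, YW P S row w D₀ Hs₀ z c \ {u, v} = nst wadj u \ {u, v}) (hua : wadj u a)
    (hav : a ≠ v) :
    (∀ x ∈ RX S row u a, ∀ y ∈ RX S row u a, Er P S z x y) ∧
      ∀ x ∈ RX S row u a, x ∉ Lr P S row w a z := by
  have hu1 := h.w1.one_le hu
  obtain ⟨V, hnb⟩ := exists_nb3 hu1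
  have hV : ∀ q, wadj u q → ∃ i, V i = q := by
    intro q hq
    rcases nb3_mem hu1 hnb hq with h1 | h1 | h1
    exacts [⟨0, h1.symm⟩, ⟨1, h1.symm⟩, ⟨2, h1.symm⟩]
  obtain ⟨i, hi⟩ := hV v huv
  obtain ⟨j, hj⟩ := hV a hua
  have hij : i ≠ j := by
    rintro rfl
    exact hav (hj.symm.trans hi)
  obtain ⟨k, hki, hkj, -⟩ := fin3_third hij
  subst hi
  subst hj
  obtain ⟨k1, k2, k3⟩ := h.dt_loc hnb hij (Ne.symm hki) hY
  obtain ⟨d1, -, -, d4, -⟩ := h.w1.dt hu hnb hzcl.1 hzcl.2 k1 hij (Ne.symm hki) (Ne.symm hkj) k2 k3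
  exact ⟨d1, d4⟩

/-- **Kinds.** -/
theorem kind51 (D₀ : ℕ) (Hs₀ : Finset (ℕ × ℕ)) (hzcl : z ∈ P.closure S ∧ z ∉ S)
    (huv : wadj u v) (hv : VisR w δ₁ Om₂ v) (hs : SeeP P S row z u v) :
    FarAt P S row w δ₁ Om₂ u v z ∨
      (∃ a, wadj u a ∧ a ≠ v ∧ VisR w δ₁ Om₂ a ∧ SeeP P S row z u a) ∨
      (∃ a, wadj v a ∧ a ≠ u ∧ VisR w δ₁ Om₂ a ∧ SeeP P S row z v a) ∨
      ((∀ p q, wadj p q → VisR w δ₁ Om₂ p → VisR w δ₁ Om₂ q → SeeP P S row z p q →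
        s(p, q) = s(u, v)) ∧ z ∈ TRow P S row w D₀ Hs₀ u v) ∨
      OneE P S row w D₀ δ₁ Hs₀ Om₂ u v z ∨ DtE P S row w D₀ δ₁ Hs₀ Om₂ u v z ∨
      DtE P S row w D₀ δ₁ Hs₀ Om₂ v u z := by
  by_cases ho : ∀ p q, wadj p q → VisR w δ₁ Om₂ p → VisR w δ₁ Om₂ q → SeeP P S row z p q →
      s(p, q) = s(u, v)
  · right
    right
    right
    by_cases h1 : ∀ c, YW P S row w D₀ Hs₀ z c ⊆ {u, v}
    · exact Or.inl ⟨ho, (mem_TRow₀ u v).2 ⟨hzcl, h1⟩⟩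
    right
    by_cases h2 : ∀ c, YW P S row w D₀ Hs₀ z c \ {u, v} = nst wadj u \ {u, v}
    · exact Or.inr (Or.inl ⟨hzcl, hs, ho, h2⟩)
    by_cases h3 : ∀ c, YW P S row w D₀ Hs₀ z c \ {u, v} = nst wadj v \ {u, v}
    · refine Or.inr (Or.inr ⟨hzcl, seeP_symm hs,
        fun p q k1 k2 k3 k4 => (ho p q k1 k2 k3 k4).trans Sym2.eq_swap, fun c => ?_⟩)
      rw [pair_comm v u]
      exact h3 c
    · exact Or.inl ⟨hzcl, hs, ho, h2, h3, h1⟩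
  · push Not at ho
    obtain ⟨p, q, hpq, hp, hq, hspq, hne⟩ := ho
    by_cases h1 : p = u
    · subst h1
      exact Or.inr (Or.inl ⟨q, hpq, fun h2 => hne (by rw [h2]), hq, hspq⟩)
    by_cases h2 : q = u
    · subst h2
      exact Or.inr (Or.inl ⟨p, wadj_swap hpq, fun h2 => hne (by rw [h2, Sym2.eq_swap]), hp,
        seeP_symm hspq⟩)
    by_cases h3 : p = v
    · subst h3
      exact Or.inr (Or.inr (Or.inl ⟨q, hpq, h2, hq, hspq⟩))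
    by_cases h4 : q = v
    · subst h4
      exact Or.inr (Or.inr (Or.inl ⟨p, wadj_swap hpq, h1, hp, seeP_symm hspq⟩))
    · refine Or.inl ⟨huv, hv, hs, p, q, hpq, hp, hq, hspq, ?_, ?_⟩
      · rintro (h5 | h5)
        exacts [h1 h5, h3 h5]
      · rintro (h5 | h5)
        exacts [h2 h5, h4 h5]

/-- **The node of a star**: for a same-row element the representatives on the other legs do not
matter. -/
theorem Rnd.node51 [P.Finite] (h : Rnd P S row w Dd β D₀ δ₀ D₁ δ₁ Hm Hs₀ Om₁ Hs₁ Om₂)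
    (hu : VisR w δ₁ Om₂ u) (hnb : Nb3 u (V 0) (V 1) (V 2)) (hv : VisR w δ₁ Om₂ (V i))
    (ht : t ∈ TRow P S row w D₀ Hs₀ u (V i)) {f : Fin 3 → α} (hf : ∀ l, f l ∈ SX S row u V l) :
    f i ∈ Lr P S row w u t ↔ t ∈ P.closure (S \ {f 0, f 1, f 2}) := by
  have hru := h.reg hu
  have hu1 := h.w1.one_le hu
  obtain ⟨q1, -⟩ := h.w1.quietT hu hv (h.tRow01 ht)
  obtain ⟨c₀, hc₀, hW₀⟩ := h.rep
  have step : ∀ {c : Set α} (l : Fin 3), c ⊆ S → WallE c row w ∅ →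
      swp row c (f l) ⊆ S ∧ WallE (swp row c (f l)) row w ∅ := fun l hc hW =>
    swp_rep hc hW (hf l).1 (rep_of h.wal.mem hW (hf l).1)
  obtain ⟨hc₁, hW₁⟩ := step 0 hc₀ hW₀
  obtain ⟨hc₂, hW₂⟩ := step 1 hc₁ hW₁
  obtain ⟨hc, hW⟩ := step 2 hc₂ hW₂
  set c := swp row (swp row (swp row c₀ (f 0)) (f 1)) (f 2) with hcd
  have hrow : ∀ l m, l ≠ m → row (f l) ≠ row (f m) := by
    intro l m hlm h1
    rw [(hf l).2, (hf m).2, Sym2.eq_iff] at h1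
    rcases h1 with h2 | h2
    · exact nb3_inj hnb hlm h2.2
    · have := wadj_par' (nb3_adj hnb m)
      rw [← h2.1] at this
      omega
  have hfc : ∀ l, f l ∈ c := by
    intro l
    fin_cases l
    · exact Or.inl ⟨Or.inl ⟨Or.inr rfl, hrow 0 1 (by decide)⟩, hrow 0 2 (by decide)⟩
    · exact Or.inl ⟨Or.inr rfl, hrow 1 2 (by decide)⟩
    · exact Or.inr rfl
  have he : {e | e ∈ c ∧ u ∈ row e} = {f 0, f 1, f 2} := by
    ext e
    constructor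
    · rintro ⟨h1, h2⟩
      obtain ⟨p, q, h3, h4, -, -⟩ := hW.mem e h1
      have key : ∀ b, wadj u b → row e = s(u, b) → e ∈ ({f 0, f 1, f 2} : Set α) := by
        intro b hb hr
        have hl : ∀ l, b = V l → e = f l := fun l hbl =>
          hW.inj h1 (hfc l) (by rw [hr, (hf l).2, hbl])
        rcases nb3_mem hu1 hnb hb with h5 | h5 | h5
        · exact Or.inl (hl 0 h5)
        · exact Or.inr (Or.inl (hl 1 h5))
        · exact Or.inr (Or.inr (hl 2 h5))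
      rw [h3, Sym2.mem_iff] at h2
      rcases h2 with rfl | rfl
      · exact key q h4 h3
      · exact key p (wadj_swap h4) (by rw [h3, Sym2.eq_swap])
    · have hm : ∀ l, f l ∈ {e | e ∈ c ∧ u ∈ row e} := fun l =>
        ⟨hfc l, by rw [(hf l).2]; exact Sym2.mem_mk_left _ _⟩
      rintro (h1 | h1 | h1)
      · rw [h1]; exact hm 0
      · rw [h1]; exact hm 1
      · rw [mem_singleton_iff.1 h1]; exact hm 2
  have hx : f i ∈ RX S row u (V i) := hf i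
  rw [(h.vc u hru.1 hru.2).mem_lr h.wal.sub h.wal.mem q1 hc hW hx, swp_of_mem hW (hfc i)]
  unfold LocR
  rw [mem_ofPred_eq, not_not, he]

/-- **The outer ends of the other legs** for a same-row element -/
theorem Rnd.same_O51 (h : Rnd P S row w Dd β D₀ δ₀ D₁ δ₁ Hm Hs₀ Om₁ Hs₁ Om₂)
    (hu : VisR w δ₁ Om₂ u) (ht : t ∈ TRow P S row w D₀ Hs₀ u v) (hua : wadj u a) (hav : a ≠ v)
    (x : α) : x ∈ Lr P S row w a t := by
  refine mem_Lr_of_noloc (fun c hc hW h1 => ?_) x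
  have h2 := h.reg_nb hu hua
  rcases ((mem_TRow₀ u v).1 ht).2 ⟨c, hc, hW⟩ ⟨h1, h2⟩ with h3 | h3
  · have := wadj_par' hua
    rw [h3] at this
    omega
  · exact hav h3

/-- **The classes of a near rung at `u`.** -/
theorem Rnd.awN51 [P.Finite] (h : Rnd P S row w Dd β D₀ δ₀ D₁ δ₁ Hm Hs₀ Om₁ Hs₁ Om₂)
    (hz : z ∈ Dd) (hzcl : z ∈ P.closure S ∧ z ∉ S) (huv : wadj u v) (hu : VisR w δ₁ Om₂ u)
    (hv : VisR w δ₁ Om₂ v) (hs : SeeP P S row z u v) (hua : wadj u a) (hav : a ≠ v)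
    (hs' : SeeP P S row z u a) :
    Quiet P S row v u z ∧ ¬ Quiet P S row u v z ∧
      (∀ x, x ∈ Arw P S row w u v z ↔ x ∉ Lr P S row w v z) ∧
      ∀ x, x ∈ Arw P S row w v u z ↔ x ∈ Lr P S row w v z := by
  have hT := (h.locT hz hzcl.1).toLocS
  have hru := h.reg hu
  have s1 := (h.sn_iff hzcl.1 hru).2 hs
  have s2 := (h.sn_iff hzcl.1 hru).2 hs'
  have q1 : Quiet P S row v u z := h.quiet_of_sn (h.reg hv) fun b h1 h2 =>
    hT.near_quiet huv hu hv s1 hua s2 (Ne.symm hav) h1 h2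
  have q2 : ¬ Quiet P S row u v z := by
    intro h1
    obtain ⟨x, hx, y, hy, hxy⟩ := hs'
    refine hxy ?_
    by_cases h2 : x = y
    · exact Or.inl h2
    · refine Or.inr (h1 x hx.1 y hy.1 (hy.2.trans hx.2.symm) ?_ ?_ (Ne.symm h2))
      · rw [hx.2]
        exact Sym2.mem_mk_left _ _
      · rw [hx.2]
        intro h3
        rw [Sym2.eq_iff] at h3
        rcases h3 with h4 | h4
        · exact hav h4.2
        · exact hT.adj_ne huv h4.1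
  refine ⟨q1, q2, fun x => ?_, fun x => ?_⟩
  · rw [Arw, if_neg q2, mem_compl_iff]
  · rw [Arw, if_pos q1]

/-- a degenerate tripod sees no other row -/
theorem Rnd.dt_only51 [P.Finite] (h : Rnd P S row w Dd β D₀ δ₀ D₁ δ₁ Hm Hs₀ Om₁ Hs₁ Om₂)
    (hz : z ∈ Dd) (hzcl : z ∈ P.closure S ∧ z ∉ S) (huv : wadj u v) (hu : VisR w δ₁ Om₂ u)
    (hY : ∀ c, YW P S row w D₀ Hs₀ z c \ {u, v} = nst wadj u \ {u, v}) {p q : ℕ × ℕ}
    (hpq : wadj p q) (hp : RegW w D₀ Hs₀ p) (hs : SeeP P S row z p q) : s(p, q) = s(u, v) := by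
  have hT := (h.locT hz hzcl.1).toLocS
  have hsub : ∀ c, YW P S row w D₀ Hs₀ z c ⊆ nst wadj u := by
    intro c x hx
    by_cases h2 : x ∈ ({u, v} : Set (ℕ × ℕ))
    · rcases h2 with h2 | h2
      · exact Or.inl h2
      · rw [mem_singleton_iff.1 h2]
        exact Or.inr huv
    · have h3 : x ∈ YW P S row w D₀ Hs₀ z c \ {u, v} := ⟨hx, h2⟩
      rw [hY c] at h3
      exact h3.1
  have key : ∀ q, wadj u q → SeeP P S row z u q → s(u, q) = s(u, v) := by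
    intro q h1 h2
    by_cases h3 : q = v
    · rw [h3]
    · exact absurd hY (h.near_not_dt hzcl hu huv h1 h3 h2)
  rcases hT.star_rows51 hu hsub hpq ((h.sn_iff hzcl.1 hp).2 hs) with h1 | h1
  · rw [h1] at hpq hs ⊢
    exact key q hpq hs
  · rw [h1] at hpq hs ⊢
    rw [Sym2.eq_swap]
    exact key p (wadj_swap hpq) (seeP_symm hs)

/-! ### Rungs whose second row is not used -/

/-- **Rungs as one-place elements**, the classes -/
theorem Rnd.on2_cls [P.Finite] (h : Rnd P S row w Dd β D₀ δ₀ D₁ δ₁ Hm Hs₀ Om₁ Hs₁ Om₂)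
    (hz : z ∈ Dd) (hzcl : z ∈ P.closure S) (huv : wadj u v) (hu : VisR w δ₁ Om₂ u)
    (hv : VisR w δ₁ Om₂ v) (hs : SeeP P S row z u v) (hk : RungK P S row w D₀ δ₁ Hs₀ Om₂ u v z) :
    ∀ a ∈ RX S row u v, ∀ b ∈ RX S row u v,
      (Er P S z a b ↔ (a ∈ Arw P S row w u v z ↔ b ∈ Arw P S row w u v z)) := by
  obtain ⟨-, ⟨c, y, h1, h2, h3⟩, hq⟩ := h.rung_x hz hzcl huv hu hv hs hk
  exact (h.one_place hz hzcl huv hu hv hs h1 h2 h3 hq).1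

/-- same-row elements of round 0 are legal for helper33's theorems -/
lemma Rnd.tRow_ok (h : Rnd P S row w Dd β D₀ δ₀ D₁ δ₁ Hm Hs₀ Om₁ Hs₁ Om₂)
    (hT : T ⊆ TRow P S row w D₀ Hs₀ u v) : ∀ t ∈ T, (t ∈ P.closure S ∧ t ∉ S) ∧
      ∀ c : ChW S row w, ∀ x ∈ LocR P S row c.1 t, RegW w D₁ Hs₁ x → x = u ∨ x = v :=
  fun _ ht => (mem_TRow₁ u v).1 (h.tRow01 (hT ht))

/-- **Rungs as one-place elements**, one exit -/
theorem Rnd.on2_pwitB [P.Finite] (h : Rnd P S row w Dd β D₀ δ₀ D₁ δ₁ Hm Hs₀ Om₁ Hs₁ Om₂)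
    (hβ : 4 ≤ β) (hz : z ∈ Dd) (hzcl : z ∈ P.closure S ∧ z ∉ S) (huv : wadj u v)
    (hu : VisR w δ₁ Om₂ u) (hv : VisR w δ₁ Om₂ v) (hs : SeeP P S row z u v)
    (hk : RungK P S row w D₀ δ₁ Hs₀ Om₂ u v z) (hT : T ⊆ TRow P S row w D₀ Hs₀ u v) :
    PWitB (Er P S) (Lr P S row w u) (Lr P S row w v) (Arw P S row w u v) (RX S row u v) T z :=
  h.rungB hβ hz hzcl.1 hzcl.2 huv hu hv hs hk (h.tRow_ok hT)

/-- near rungs are local in the star -/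
theorem Rnd.nearW_tStar [P.Finite] (h : Rnd P S row w Dd β D₀ δ₀ D₁ δ₁ Hm Hs₀ Om₁ Hs₁ Om₂)
    (hz : z ∈ Dd) (hzcl : z ∈ P.closure S ∧ z ∉ S) (huv : wadj u v) (hu : VisR w δ₁ Om₂ u)
    (hv : VisR w δ₁ Om₂ v) (hs : SeeP P S row z u v)
    (hn : NearW P S row w D₀ δ₁ Hs₀ Om₂ u v a z) : z ∈ TStar P S row w D₀ Hs₀ u :=
  mem_tStar₀.2 ⟨hzcl, (h.locT hz hzcl.1).near_of_two huv hu hv ((h.sn_iff hzcl.1 (h.reg hu)).2 hs)
    hn.adj hn.sn hn.ne⟩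

/-- **Rungs as one-place elements**, with a rung -/
theorem Rnd.on2_pwitD [P.Finite] (h : Rnd P S row w Dd β D₀ δ₀ D₁ δ₁ Hm Hs₀ Om₁ Hs₁ Om₂)
    (hβ : 4 ≤ β) (ht : t ∈ Dd) (htcl : t ∈ P.closure S ∧ t ∉ S) (hz : z ∈ Dd)
    (hzcl : z ∈ P.closure S ∧ z ∉ S) (huv : wadj u v)
    (hu : VisR w δ₁ Om₂ u) (hv : VisR w δ₁ Om₂ v) (hst : SeeP P S row t u v)
    (hs : SeeP P S row z u v) (hkt : RungK P S row w D₀ δ₁ Hs₀ Om₂ u v t)
    (hk : RungK P S row w D₀ δ₁ Hs₀ Om₂ u v z) (hT : T ⊆ TRow P S row w D₀ Hs₀ u v)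
    (nu : (∃ a, NearW P S row w D₀ δ₁ Hs₀ Om₂ u v a t) → z ∉ TStar P S row w D₀ Hs₀ u)
    (nv : (∃ a, NearW P S row w D₀ δ₁ Hs₀ Om₂ v u a t) → z ∉ TStar P S row w D₀ Hs₀ v)
    (nf : ∀ p q, FarW P S row w D₀ δ₁ Hs₀ Om₂ u v p q t → FarW P S row w D₀ δ₁ Hs₀ Om₂ u v p q z →
      ¬ TST.EqOn (RX S row p q) (Arw P S row w p q t) (Arw P S row w p q z)) :
    PWitD (Er P S) (Lr P S row w u) (Lr P S row w v) (Arw P S row w u v) (RX S row u v) T t z := by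
  refine h.rungD hβ ht htcl.1 htcl.2 hz hzcl.1 hzcl.2 huv hu hv hst hs hkt hk ?_ ?_ nf (h.tRow_ok hT)
  · rintro ⟨h1, a, h2⟩
    exact nu h1 (h.nearW_tStar hz hzcl huv hu hv hs h2)
  · rintro ⟨h1, a, h2⟩
    exact nv h1 (h.nearW_tStar hz hzcl (wadj_swap huv) hv hu (seeP_symm hs) h2)

/-- **Rungs in the star of an end**: local, or an exit in both rounds -/
theorem Rnd.on2_star [P.Finite] (h : Rnd P S row w Dd β D₀ δ₀ D₁ δ₁ Hm Hs₀ Om₁ Hs₁ Om₂)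
    (hz : z ∈ Dd) (hzcl : z ∈ P.closure S ∧ z ∉ S) (huv : wadj u v) (hu : VisR w δ₁ Om₂ u)
    (hv : VisR w δ₁ Om₂ v) (hs : SeeP P S row z u v) (hk : RungK P S row w D₀ δ₁ Hs₀ Om₂ u v z) :
    z ∈ TStar P S row w D₀ Hs₀ u ∨ SEx P S row w D₀ δ₁ Hs₀ Om₂ u z := by
  rcases hk with ⟨p, q, hf⟩ | ⟨a, hf⟩ | ⟨a, hf⟩
  · exact Or.inr (h.sex_wu hz hzcl hu ⟨v, Or.inl (h.farAt_of_farW hzcl.1 huv hv hs hf)⟩)
  · exact Or.inl (h.nearW_tStar hz hzcl huv hu hv hs hf)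
  · exact Or.inr (h.sex_wu hz hzcl hu
      ⟨v, Or.inr (h.nearAt_of_nearW hzcl.1 (wadj_swap huv) hv (seeP_symm hs) hf)⟩)

/-- **Rungs in the star of an end**: local, or a witness -/
theorem Rnd.on2_twit [P.Finite] (h : Rnd P S row w Dd β D₀ δ₀ D₁ δ₁ Hm Hs₀ Om₁ Hs₁ Om₂)
    (hβ : 4 ≤ β) (hz : z ∈ Dd) (hzcl : z ∈ P.closure S ∧ z ∉ S) (huv : wadj u v)
    (hu : VisR w δ₁ Om₂ u) (hv : VisR w δ₁ Om₂ v) (hnb : Nb3 u (V 0) (V 1) (V 2))
    (hs : SeeP P S row z u v) (hk : RungK P S row w D₀ δ₁ Hs₀ Om₂ u v z)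
    (hT : T ⊆ TStar P S row w D₀ Hs₀ u) :
    z ∈ TStar P S row w D₀ Hs₀ u ∨
      TWit (Er P S) (fun t i => Lr P S row w (V i) t) (ASt P S row w u V)
        (fun t x y v => t ∈ P.closure (S \ {x, y, v})) (SX S row u V) T z := by
  rcases h.on2_star hz hzcl huv hu hv hs hk with h1 | h1
  · exact Or.inl h1
  · exact Or.inr (h.sex0_twit hβ hu hnb hT hz (h1.to0 h))

/-- **(ONE) elements in the star of an end**: a witness, or local, or local in round 1 -/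
theorem Rnd.oneE_one_star [P.Finite] (h : Rnd P S row w Dd β D₀ δ₀ D₁ δ₁ Hm Hs₀ Om₁ Hs₁ Om₂)
    (hβ : 4 ≤ β) (hz : z ∈ Dd) (huv : wadj u v)
    (hu : VisR w δ₁ Om₂ u) (hv : VisR w δ₁ Om₂ v) (hnb : Nb3 u (V 0) (V 1) (V 2))
    (ho : OneE P S row w D₀ δ₁ Hs₀ Om₂ u v z) (hT : T ⊆ TStar P S row w D₀ Hs₀ u) :
    TWit (Er P S) (fun t i => Lr P S row w (V i) t) (ASt P S row w u V)
        (fun t x y v => t ∈ P.closure (S \ {x, y, v})) (SX S row u V) T z ∨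
      z ∈ TStar P S row w D₀ Hs₀ u ∨ insert z T ⊆ TStar P S row w D₁ Hs₁ u := by
  rcases h.oneE_foot hz huv hu hv ho with h1 | h1
  · rcases h.oneE_star hz huv hu hv ho h1 with h2 | h2
    · exact Or.inr (Or.inl h2)
    · exact Or.inl (h.sex0_twit hβ hu hnb hT hz h2)
  · exact Or.inr (Or.inr (h.insert_tStar hT (tRow_tStar huv h1).1))

end

end DA
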