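import Pool.Agent.DA.MDefs

/-!
# Legs from a missing vertex

The missing vertex `κ` has a neighbour in `Λ` and nothing else of `Λ` is on the ray from `κ` through
this neighbour.  If the ball has three points of `Λ` then there are three legs, if it has two and
the direction is horizontal then there are a left and a right leg.
-/

open Set

namespace DA

/-- Two legs in perpendicular directions (`f` grows in the first direction, `g` in the second). -/
lemma two_legs (G : Finset (ℕ × ℕ)) (f g : ℕ × ℕ → ℤ)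
    (hinj : ∀ v w, f v = f w → g v = g w → v = w) (h2 : 2 ≤ G.card) :
    ∃ p ∈ G, ∃ q ∈ G, p ≠ q ∧ (∀ v ∈ G, f v ≤ f p) ∧ (∀ v ∈ G, g v = g p → f p ≤ f v → v = p) ∧
      (∀ v ∈ G, f v = f q → g q ≤ g v → v = q) ∧
      ∀ x, g x = g p → f p ≤ f x → f x = f q → g q ≤ g x → False := by
  classical
  obtain ⟨p₀, hp₀, hp⟩ := Finset.exists_max_image G f (Finset.card_pos.1 (by omega))
  obtain ⟨q₀, hq₀, hq⟩ := Finset.exists_max_image (G.erase p₀) g
    (Finset.card_pos.1 (by rw [Finset.card_erase_of_mem hp₀]; omega))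
  have hq₀G : q₀ ∈ G := Finset.mem_of_mem_erase hq₀
  have hne : q₀ ≠ p₀ := Finset.ne_of_mem_erase hq₀
  by_cases hcase : f p₀ = f q₀ ∧ g q₀ ≤ g p₀
  · obtain ⟨hf, hg⟩ := hcase
    refine ⟨q₀, hq₀G, p₀, hp₀, hne, ?_, ?_, ?_, ?_⟩
    · intro v hv
      rw [← hf]
      exact hp v hv
    · intro v hv h1 h3
      have h4 := hp v hv
      exact hinj _ _ (by omega) h1
    · intro v hv h1 h3
      by_contra h4
      have h5 := hq v (Finset.mem_erase.2 ⟨h4, hv⟩)
      exact hne (hinj _ _ (by omega) (by omega))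
    · intro x h1 h3 h4 h5
      exact hne (hinj _ _ (by omega) (by omega))
  · refine ⟨p₀, hp₀, q₀, hq₀G, hne.symm, hp, ?_, ?_, ?_⟩
    · intro v hv h1 h3
      have h4 := hp v hv
      exact hinj _ _ (by omega) h1
    · intro v hv h1 h3
      have h4 : v ≠ p₀ := by
        rintro rfl
        exact hcase ⟨h1, h3⟩
      have h5 := hq v (Finset.mem_erase.2 ⟨h4, hv⟩)
      exact hinj _ _ h1 (by omega)
    · intro x h1 h3 h4 h5
      have h6 := hp q₀ hq₀G
      exact hcase ⟨by omega, by omega⟩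

/-- Three legs, coordinates `f`, `g`: the leg `d` goes down in the coordinate `g`. -/
lemma legs_core {K Λ : Set (ℕ × ℕ)} {κ n : ℕ × ℕ} {s d d1 d2 m : ℕ}
    (hall : ∀ e < 4, e ≠ m → e = d ∨ e = d1 ∨ e = d2) (hdm : d ≠ m) (h01 : d ≠ d1)
    (h02 : d ≠ d2) (h12 : d1 ≠ d2) (hd4 : d < 4) (f g : ℕ × ℕ → ℤ)
    (hinj : ∀ v w, f v = f w → g v = g w → v = w)
    (r0 : ∀ a b, ray d a b ↔ f b = f a ∧ g b ≤ g a) (r1 : ∀ a b, ray d1 a b ↔ g b = g a ∧ f a ≤ f b)
    (r2 : ∀ a b, ray d2 a b ↔ f b = f a ∧ g a ≤ g b) (F : Finset (ℕ × ℕ))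
    (hF : ∀ v, v ∈ F ↔ v ∈ Λ ∧ sd v κ ≤ s) (hK : ∀ v ∈ K, sd v κ ≤ s → v = κ) (hκ : κ ∈ K)
    (hκΛ : κ ∉ Λ) (hn : stp d κ = n) (hnf : f n = f κ) (hng : g n = g κ - 1) (hnF : n ∈ F)
    (hun : ∀ v ∈ F, f v = f κ → g v ≤ g κ → v = n) (hc : 3 ≤ F.card)
    (hcase : (∃ v ∈ F.erase n, f κ < f v) ∨ ∀ v ∈ F.erase n, f v = f κ) :
    ∃ st, Legs K Λ κ s (fun e => e ≠ m) st := by
  classical
  obtain ⟨p, hp, q, hq, hpq, hmax, hpr, hqr, hdis⟩ := two_legs (F.erase n) f g hinj
    (by rw [Finset.card_erase_of_mem hnF]; omega)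
  obtain ⟨hpn, hpF⟩ := Finset.mem_erase.1 hp
  obtain ⟨hqn, hqF⟩ := Finset.mem_erase.1 hq
  obtain ⟨hpΛ, hps⟩ := (hF p).1 hpF
  obtain ⟨hqΛ, hqs⟩ := (hF q).1 hqF
  obtain ⟨hnΛ, hns⟩ := (hF n).1 hnF
  have hpK : p ∉ K := fun h => by
    have := hK p h hps
    exact hκΛ (this ▸ hpΛ)
  have hqK : q ∉ K := fun h => by
    have := hK q h hqs
    exact hκΛ (this ▸ hqΛ)
  -- the position of the first leg
  have hp1 : f κ < f p ∨ g κ < g p := by
    rcases hcase with ⟨v, hv, h1⟩ | h1
    · left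
      have := hmax v hv
      omega
    · right
      by_contra hcon
      exact hpn (hun p hpF (h1 p hp) (by omega))
  have hq1 : f q = f κ → g κ < g q := by
    intro h1
    by_contra hcon
    exact hqn (hun q hqF h1 (by omega))
  have hp2 : f κ ≤ f p := by
    rcases hcase with ⟨v, hv, h1⟩ | h1
    · have := hmax v hv
      omega
    · rw [h1 p hp]
  -- disjointness of the rays
  have D01 : ∀ v, ray d κ v → ¬ ray d1 p v := by
    intro v h1 h2
    rw [r0] at h1
    rw [r1] at h2
    omega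
  have D02 : ∀ v, ray d κ v → ¬ ray d2 q v := by
    intro v h1 h2
    rw [r0] at h1
    rw [r2] at h2
    have := hq1 (by omega)
    omega
  have D12 : ∀ v, ray d1 p v → ¬ ray d2 q v := by
    intro v h1 h2
    rw [r1] at h1
    rw [r2] at h2
    exact hdis v h1.1 h1.2 h2.1 h2.2
  have e1 : d1 ≠ d := h01.symm
  have e2 : d2 ≠ d := h02.symm
  have e3 : d2 ≠ d1 := h12.symm
  obtain ⟨st, hst⟩ : ∃ st : ℕ → ℕ × ℕ, st = fun e => if e = d then κ else if e = d1 then p else q :=
    ⟨_, rfl⟩
  have s0 : st d = κ := by rw [hst]; simp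
  have s1 : st d1 = p := by rw [hst]; simp [e1]
  have s2 : st d2 = q := by rw [hst]; simp [e2, e3]
  have R0 : real K d (st d) = n := by
    unfold real
    rw [s0, if_pos hκ, hn]
  have R1 : real K d1 (st d1) = p := by
    unfold real
    rw [s1, if_neg hpK]
  have R2 : real K d2 (st d2) = q := by
    unfold real
    rw [s2, if_neg hqK]
  have nd1 : ¬ ray d1 p n := by
    rw [r1]
    omega
  have nd2 : ¬ ray d2 q n := by
    rw [r2]
    rintro ⟨h1, h2⟩
    have := hq1 (by omega)
    omega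
  have kd1 : ¬ ray d1 p κ := by
    rw [r1]
    omega
  have kd2 : ¬ ray d2 q κ := by
    rw [r2]
    rintro ⟨h1, h2⟩
    have := hq1 h1.symm
    omega
  refine ⟨st, ?_, ?_, ?_, ?_, ?_, ?_⟩
  · intro e he hem
    rcases hall e he hem with rfl | rfl | rfl
    · rw [s0, sd_self]
      omega
    · rw [s1]
      omega
    · rw [s2]
      omega
  · intro e he e' he' hem hem' hne v
    rcases hall e he hem with rfl | rfl | rfl <;> rcases hall e' he' hem' with rfl | rfl | rfl
    · exact absurd rfl hne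
    · rw [s0, s1]
      exact D01 v
    · rw [s0, s2]
      exact D02 v
    · rw [s0, s1]
      exact fun h1 h2 => D01 v h2 h1
    · exact absurd rfl hne
    · rw [s1, s2]
      exact D12 v
    · rw [s0, s2]
      exact fun h1 h2 => D02 v h2 h1
    · rw [s1, s2]
      exact fun h1 h2 => D12 v h2 h1
    · exact absurd rfl hne
  · intro e he hem
    rcases hall e he hem with rfl | rfl | rfl
    · rw [R0]
      exact hnΛ
    · rw [R1]
      exact hpΛ
    · rw [R2]
      exact hqΛ
  · intro e he hem v hv hvs hray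
    have hvF : v ∈ F := (hF v).2 ⟨hv, hvs⟩
    rcases hall e he hem with rfl | rfl | rfl
    · rw [R0]
      rw [s0, r0] at hray
      exact hun v hvF hray.1 hray.2
    · rw [R1]
      rw [s1] at hray
      by_cases hvn : v = n
      · rw [hvn] at hray
        exact absurd hray nd1
      · rw [r1] at hray
        exact hpr v (Finset.mem_erase.2 ⟨hvn, hvF⟩) hray.1 hray.2
    · rw [R2]
      rw [s2] at hray
      by_cases hvn : v = n
      · rw [hvn] at hray
        exact absurd hray nd2
      · rw [r2] at hray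
        exact hqr v (Finset.mem_erase.2 ⟨hvn, hvF⟩) hray.1 hray.2
  · intro e he hem v hv hvs hray
    have hvκ := hK v hv hvs
    rcases hall e he hem with rfl | rfl | rfl
    · rw [s0]
      exact hvκ
    · rw [s1, hvκ] at hray
      exact absurd hray kd1
    · rw [s2, hvκ] at hray
      exact absurd hray kd2
  · intro v hv hvs
    rw [hK v hv hvs]
    exact ⟨d, hd4, hdm, s0⟩

/-- **Lemma P.** Three legs, one of them starts at the missing vertex. -/
theorem legs_three {K Λ : Set (ℕ × ℕ)} {κ : ℕ × ℕ} {s d : ℕ} (hd : d < 4) (F : Finset (ℕ × ℕ))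
    (hF : ∀ v, v ∈ F ↔ v ∈ Λ ∧ sd v κ ≤ s) (hK : ∀ v ∈ K, sd v κ ≤ s → v = κ) (hκ : κ ∈ K)
    (hκΛ : κ ∉ Λ) (h1 : 1 ≤ κ.1) (h2 : 1 ≤ κ.2) (hn : stp d κ ∈ F)
    (hun : ∀ v ∈ F, ray d κ v → v = stp d κ) (hc : 3 ≤ F.card) :
    ∃ m < 4, ∃ st, Legs K Λ κ s (fun e => e ≠ m) st := by
  classical
  have hex : ∀ v : ℕ × ℕ, v = (v.1, v.2) := fun v => rfl
  have hpm : ∀ (f : ℕ × ℕ → ℤ), ((∃ v ∈ F.erase (stp d κ), f κ < f v) ∨
      ∀ v ∈ F.erase (stp d κ), f v = f κ) ∨ ∃ v ∈ F.erase (stp d κ), - f κ < - f v := by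
    intro f
    by_cases h3 : ∃ v ∈ F.erase (stp d κ), f κ < f v
    · exact Or.inl (Or.inl h3)
    · by_cases h4 : ∃ v ∈ F.erase (stp d κ), - f κ < - f v
      · exact Or.inr h4
      · left; right
        intro v hv
        push Not at h3 h4
        have h5 := h3 v hv
        have h6 := h4 v hv
        omega
  have hd' : d = 0 ∨ d = 1 ∨ d = 2 ∨ d = 3 := by omega
  rcases hd' with rfl | rfl | rfl | rfl
  · rcases hpm (fun v => (v.2 : ℤ)) with h3 | h3
    · refine ⟨3, by omega, legs_core (d1 := 2) (d2 := 1) (by omega) (by omega) (by omega)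
        (by omega) (by omega) (by omega) (fun v => (v.2 : ℤ)) (fun v => (v.1 : ℤ)) ?_ ?_ ?_ ?_ F hF
        hK hκ hκΛ rfl ?_ ?_ hn ?_ hc h3⟩
      · intro v w h5 h6
        exact Prod.ext (by omega) (by omega)
      · intro a b
        unfold ray
        omega
      · intro a b
        unfold ray
        omega
      · intro a b
        unfold ray
        omega
      · simp [stp]
      · simp [stp]
        omega
      · intro v hv h5 h6
        refine hun v hv ?_
        unfold ray
        omega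
    · refine ⟨2, by omega, legs_core (d1 := 3) (d2 := 1) (by omega) (by omega) (by omega)
        (by omega) (by omega) (by omega) (fun v => - (v.2 : ℤ)) (fun v => (v.1 : ℤ)) ?_ ?_ ?_ ?_ F
        hF hK hκ hκΛ rfl ?_ ?_ hn ?_ hc (Or.inl h3)⟩
      · intro v w h5 h6
        exact Prod.ext (by omega) (by omega)
      · intro a b
        unfold ray
        omega
      · intro a b
        unfold ray
        omega
      · intro a b
        unfold ray
        omega
      · simp [stp]
      · simp [stp]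
        omega
      · intro v hv h5 h6
        refine hun v hv ?_
        unfold ray
        omega
  · rcases hpm (fun v => (v.2 : ℤ)) with h3 | h3
    · refine ⟨3, by omega, legs_core (d1 := 2) (d2 := 0) (by omega) (by omega) (by omega)
        (by omega) (by omega) (by omega) (fun v => (v.2 : ℤ)) (fun v => - (v.1 : ℤ)) ?_ ?_ ?_ ?_ F
        hF hK hκ hκΛ rfl ?_ ?_ hn ?_ hc h3⟩
      · intro v w h5 h6
        exact Prod.ext (by omega) (by omega)
      · intro a b
        unfold ray
        omega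
      · intro a b
        unfold ray
        omega
      · intro a b
        unfold ray
        omega
      · simp [stp]
      · simp [stp]
        omega
      · intro v hv h5 h6
        refine hun v hv ?_
        unfold ray
        omega
    · refine ⟨2, by omega, legs_core (d1 := 3) (d2 := 0) (by omega) (by omega) (by omega)
        (by omega) (by omega) (by omega) (fun v => - (v.2 : ℤ)) (fun v => - (v.1 : ℤ)) ?_ ?_ ?_ ?_
        F hF hK hκ hκΛ rfl ?_ ?_ hn ?_ hc (Or.inl h3)⟩
      · intro v w h5 h6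
        exact Prod.ext (by omega) (by omega)
      · intro a b
        unfold ray
        omega
      · intro a b
        unfold ray
        omega
      · intro a b
        unfold ray
        omega
      · simp [stp]
      · simp [stp]
        omega
      · intro v hv h5 h6
        refine hun v hv ?_
        unfold ray
        omega
  · rcases hpm (fun v => (v.1 : ℤ)) with h3 | h3
    · refine ⟨0, by omega, legs_core (d1 := 1) (d2 := 3) (by omega) (by omega) (by omega)
        (by omega) (by omega) (by omega) (fun v => (v.1 : ℤ)) (fun v => - (v.2 : ℤ)) ?_ ?_ ?_ ?_ F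
        hF hK hκ hκΛ rfl ?_ ?_ hn ?_ hc h3⟩
      · intro v w h5 h6
        exact Prod.ext (by omega) (by omega)
      · intro a b
        unfold ray
        omega
      · intro a b
        unfold ray
        omega
      · intro a b
        unfold ray
        omega
      · simp [stp]
      · simp [stp]
        omega
      · intro v hv h5 h6
        refine hun v hv ?_
        unfold ray
        omega
    · refine ⟨1, by omega, legs_core (d1 := 0) (d2 := 3) (by omega) (by omega) (by omega)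
        (by omega) (by omega) (by omega) (fun v => - (v.1 : ℤ)) (fun v => - (v.2 : ℤ)) ?_ ?_ ?_ ?_
        F hF hK hκ hκΛ rfl ?_ ?_ hn ?_ hc (Or.inl h3)⟩
      · intro v w h5 h6
        exact Prod.ext (by omega) (by omega)
      · intro a b
        unfold ray
        omega
      · intro a b
        unfold ray
        omega
      · intro a b
        unfold ray
        omega
      · simp [stp]
      · simp [stp]
        omega
      · intro v hv h5 h6
        refine hun v hv ?_
        unfold ray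
        omega
  · rcases hpm (fun v => (v.1 : ℤ)) with h3 | h3
    · refine ⟨0, by omega, legs_core (d1 := 1) (d2 := 2) (by omega) (by omega) (by omega)
        (by omega) (by omega) (by omega) (fun v => (v.1 : ℤ)) (fun v => (v.2 : ℤ)) ?_ ?_ ?_ ?_ F
        hF hK hκ hκΛ rfl ?_ ?_ hn ?_ hc h3⟩
      · intro v w h5 h6
        exact Prod.ext (by omega) (by omega)
      · intro a b
        unfold ray
        omega
      · intro a b
        unfold ray
        omega
      · intro a b
        unfold ray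
        omega
      · simp [stp]
      · simp [stp]
        omega
      · intro v hv h5 h6
        refine hun v hv ?_
        unfold ray
        omega
    · refine ⟨1, by omega, legs_core (d1 := 0) (d2 := 2) (by omega) (by omega) (by omega)
        (by omega) (by omega) (by omega) (fun v => - (v.1 : ℤ)) (fun v => (v.2 : ℤ)) ?_ ?_ ?_ ?_
        F hF hK hκ hκΛ rfl ?_ ?_ hn ?_ hc (Or.inl h3)⟩
      · intro v w h5 h6
        exact Prod.ext (by omega) (by omega)
      · intro a b
        unfold ray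
        omega
      · intro a b
        unfold ray
        omega
      · intro a b
        unfold ray
        omega
      · simp [stp]
      · simp [stp]
        omega
      · intro v hv h5 h6
        refine hun v hv ?_
        unfold ray
        omega

/-- **A left and a right leg**, one of them starts at the missing vertex. -/
theorem legs_two {K Λ : Set (ℕ × ℕ)} {κ : ℕ × ℕ} {s d : ℕ} (hd : d < 2) (F : Finset (ℕ × ℕ))
    (hF : ∀ v, v ∈ F ↔ v ∈ Λ ∧ sd v κ ≤ s) (hK : ∀ v ∈ K, sd v κ ≤ s → v = κ) (hκ : κ ∈ K)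
    (hκΛ : κ ∉ Λ) (h1 : 1 ≤ κ.1) (hn : stp d κ ∈ F)
    (hun : ∀ v ∈ F, ray d κ v → v = stp d κ) (hc : 2 ≤ F.card) :
    ∃ st, Legs K Λ κ s (fun e => e = 0 ∨ e = 1) st := by
  classical
  have key : ∀ d' : ℕ, (d = 0 ∧ d' = 1 ∨ d = 1 ∧ d' = 0) → ∀ g : ℕ × ℕ → ℤ,
      (∀ a b, ray d a b ↔ b.2 = a.2 ∧ g b ≤ g a) → (∀ a b, ray d' a b ↔ b.2 = a.2 ∧ g a ≤ g b) →
      (∀ a b : ℕ × ℕ, a.2 = b.2 → g a = g b → a = b) → (stp d κ).2 = κ.2 →
      g (stp d κ) = g κ - 1 → ∃ st, Legs K Λ κ s (fun e => e = 0 ∨ e = 1) st := by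
    intro d' hdd g r0 r1 hinj hn2 hng
    obtain ⟨q, hq, hqm⟩ := Finset.exists_max_image (F.erase (stp d κ)) g
      (Finset.card_pos.1 (by rw [Finset.card_erase_of_mem hn]; omega))
    obtain ⟨hqn, hqF⟩ := Finset.mem_erase.1 hq
    obtain ⟨hqΛ, hqs⟩ := (hF q).1 hqF
    obtain ⟨hnΛ, hns⟩ := (hF _).1 hn
    have hqK : q ∉ K := fun h => by
      have := hK q h hqs
      exact hκΛ (this ▸ hqΛ)
    have hq1 : q.2 = κ.2 → g κ < g q := by
      intro h3
      by_contra hcon
      exact hqn (hun q hqF ((r0 _ _).2 ⟨h3, by omega⟩))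
    have D : ∀ v, ray d κ v → ¬ ray d' q v := by
      intro v h3 h4
      rw [r0] at h3
      rw [r1] at h4
      have := hq1 (by omega)
      omega
    have hdd' : d ≠ d' := by omega
    have hdd'' : d' ≠ d := by omega
    have hT : ∀ e, (e = 0 ∨ e = 1) → e = d ∨ e = d' := by
      intro e he
      omega
    obtain ⟨st, hst⟩ : ∃ st : ℕ → ℕ × ℕ, st = fun e => if e = d then κ else q := ⟨_, rfl⟩
    have s0 : st d = κ := by rw [hst]; simp
    have s1 : st d' = q := by rw [hst]; simp [hdd'']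
    have R0 : real K d (st d) = stp d κ := by
      unfold real
      rw [s0, if_pos hκ]
    have R1 : real K d' (st d') = q := by
      unfold real
      rw [s1, if_neg hqK]
    refine ⟨st, ?_, ?_, ?_, ?_, ?_, ?_⟩
    · intro e _ he
      rcases hT e he with rfl | rfl
      · rw [s0, sd_self]
        omega
      · rw [s1]
        omega
    · intro e _ e' _ he he' hne v
      rcases hT e he with rfl | rfl <;> rcases hT e' he' with rfl | rfl
      · exact absurd rfl hne
      · rw [s0, s1]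
        exact D v
      · rw [s0, s1]
        exact fun h3 h4 => D v h4 h3
      · exact absurd rfl hne
    · intro e _ he
      rcases hT e he with rfl | rfl
      · rw [R0]
        exact hnΛ
      · rw [R1]
        exact hqΛ
    · intro e _ he v hv hvs hray
      have hvF : v ∈ F := (hF v).2 ⟨hv, hvs⟩
      rcases hT e he with rfl | rfl
      · rw [R0]
        rw [s0] at hray
        exact hun v hvF hray
      · rw [R1]
        rw [s1, r1] at hray
        by_cases hvn : v = stp d κ
        · rw [hvn] at hray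
          have := hq1 (by omega)
          omega
        · have h3 := hqm v (Finset.mem_erase.2 ⟨hvn, hvF⟩)
          exact hinj _ _ hray.1 (by omega)
    · intro e _ he v hv hvs hray
      have hvκ := hK v hv hvs
      rcases hT e he with rfl | rfl
      · rw [s0]
        exact hvκ
      · rw [s1, hvκ, r1] at hray
        have := hq1 (by omega)
        omega
    · intro v hv hvs
      rw [hK v hv hvs]
      exact ⟨d, by omega, by omega, s0⟩
  have hd' : d = 0 ∨ d = 1 := by omega
  rcases hd' with rfl | rfl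
  · refine key 1 (Or.inl ⟨rfl, rfl⟩) (fun v => (v.1 : ℤ)) ?_ ?_ ?_ ?_ ?_
    · intro a b
      unfold ray
      omega
    · intro a b
      unfold ray
      omega
    · intro a b h3 h4
      exact Prod.ext (by omega) h3
    · simp [stp]
    · simp [stp]
      omega
  · refine key 0 (Or.inr ⟨rfl, rfl⟩) (fun v => - (v.1 : ℤ)) ?_ ?_ ?_ ?_ ?_
    · intro a b
      unfold ray
      omega
    · intro a b
      unfold ray
      omega
    · intro a b h3 h4
      exact Prod.ext (by omega) h3
    · simp [stp]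
    · simp [stp]
      omega

/-- **A left leg** where no vertex is missing. -/
theorem legs_one {K Λ : Set (ℕ × ℕ)} {c : ℕ × ℕ} {s : ℕ} (F : Finset (ℕ × ℕ))
    (hF : ∀ v, v ∈ F ↔ v ∈ Λ ∧ sd v c ≤ s) (hK : ∀ v ∈ K, ¬ sd v c ≤ s) (hc : c ∈ Λ) :
    ∃ st, Legs K Λ c s (fun e => e = 0) st := by
  classical
  obtain ⟨q, hq, hqm⟩ := Finset.exists_min_image (F.filter (fun v => v.2 = c.2)) Prod.fst
    ⟨c, Finset.mem_filter.2 ⟨(hF c).2 ⟨hc, by rw [sd_self]; omega⟩, rfl⟩⟩
  obtain ⟨hqF, hq2⟩ := Finset.mem_filter.1 hq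
  obtain ⟨hqΛ, hqs⟩ := (hF q).1 hqF
  have hqK : q ∉ K := fun h => hK q h hqs
  have R : real K 0 q = q := by
    unfold real
    rw [if_neg hqK]
  refine ⟨fun _ => q, ?_, ?_, ?_, ?_, ?_, ?_⟩
  · intro e _ _
    omega
  · intro e _ e' _ he he' hne
    exact absurd (he.trans he'.symm) hne
  · intro e _ he
    rw [he, R]
    exact hqΛ
  · intro e _ he v hv hvs hray
    rw [he] at hray ⊢
    rw [R]
    unfold ray at hray
    have h1 := hqm v (Finset.mem_filter.2 ⟨(hF v).2 ⟨hv, hvs⟩, by omega⟩)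
    exact Prod.ext (by omega) (by omega)
  · intro e _ _ v hv hvs _
    exact absurd hvs (hK v hv)
  · intro v hv hvs
    exact absurd hvs (hK v hv)

lemma ray_disj {d d' : ℕ} (hd : d < 4) (hd' : d' < 4) (hne : d ≠ d') {κ x : ℕ × ℕ}
    (h : ray d κ x) (h' : ray d' κ x) : x = κ := by
  unfold ray at h h'
  have h1 : d = 0 ∨ d = 1 ∨ d = 2 ∨ d = 3 := by omega
  have h2 : d' = 0 ∨ d' = 1 ∨ d' = 2 ∨ d' = 3 := by omega
  rcases h1 with rfl | rfl | rfl | rfl <;> rcases h2 with rfl | rfl | rfl | rfl <;>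
    first
    | exact absurd rfl hne
    | exact Prod.ext (by omega) (by omega)

lemma stp_ne {d : ℕ} (hd : d < 4) {κ : ℕ × ℕ} (h1 : 1 ≤ κ.1) (h2 : 1 ≤ κ.2) : stp d κ ≠ κ := by
  intro h
  have h3 : d = 0 ∨ d = 1 ∨ d = 2 ∨ d = 3 := by omega
  rcases h3 with rfl | rfl | rfl | rfl <;> (simp [stp, Prod.ext_iff] at h; try omega)

lemma ray_stpL {d : ℕ} (hd : d < 4) (κ : ℕ × ℕ) : ray d κ (stp d κ) := by
  have h3 : d = 0 ∨ d = 1 ∨ d = 2 ∨ d = 3 := by omega
  rcases h3 with rfl | rfl | rfl | rfl <;> simp [stp, ray]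

lemma sd_stpL {d : ℕ} (hd : d < 4) {κ : ℕ × ℕ} (h1 : 1 ≤ κ.1) (h2 : 1 ≤ κ.2) :
    sd (stp d κ) κ = 1 := by
  have h3 : d = 0 ∨ d = 1 ∨ d = 2 ∨ d = 3 := by omega
  unfold sd
  rcases h3 with rfl | rfl | rfl | rfl <;> simp [stp] <;> omega

/-- **Legs of a unit.** -/
theorem hasLegs_of {K Λ : Set (ℕ × ℕ)} {A : Finset (ℕ × ℕ)} {κ b₁ b₂ : ℕ × ℕ} {s du dv : ℕ}
    (hdu : du < 4) (hdv : dv < 4) (hne : du ≠ dv) (h1 : 1 ≤ κ.1) (h2 : 1 ≤ κ.2)
    (hb₁ : b₁ ≠ stp du κ ∧ b₁ ≠ stp dv κ ∧ b₁ ≠ κ)
    (hb₂ : b₂ ≠ stp du κ ∧ b₂ ≠ stp dv κ ∧ b₂ ≠ κ ∧ b₂ ≠ b₁)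
    (hx : ¬ (ray du κ b₁ ∧ ray dv κ b₂)) (hx' : ¬ (ray dv κ b₁ ∧ ray du κ b₂))
    (hz : du < 2 ∨ dv < 2 ∨ sd b₁ κ ≤ 10) (hκ : κ ∈ K) (hκΛ : κ ∉ Λ) (hκA : κ ∈ A) (hbA : b₁ ∈ A)
    (hnu : stp du κ ∈ Λ) (hnv : stp dv κ ∈ Λ) (hbΛ : b₁ ∈ Λ)
    (hΛ : ∀ v ∈ Λ, sd v κ ≤ s → v = stp du κ ∨ v = stp dv κ ∨ v = b₁ ∨ v = b₂)
    (hs : 1 ≤ s) (hgap : sd b₁ κ ≤ s ∨ 2 * s + 10 < sd b₁ κ)
    (hK : ∀ v ∈ K, v ≠ κ → s < sd v κ ∧ s < sd v b₁) (hfin : (Λ ∩ {v | sd v b₁ ≤ s}).Finite) :
    HasLegs K Λ A s := by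
  classical
  obtain ⟨F, hF0⟩ : ∃ F : Finset (ℕ × ℕ), F = ({stp du κ, stp dv κ, b₁, b₂} : Finset (ℕ × ℕ)).filter
      (fun v => v ∈ Λ ∧ sd v κ ≤ s) := ⟨_, rfl⟩
  have hF : ∀ v, v ∈ F ↔ v ∈ Λ ∧ sd v κ ≤ s := by
    intro v
    rw [hF0, Finset.mem_filter]
    refine ⟨fun h => h.2, fun h => ⟨?_, h⟩⟩
    have := hΛ v h.1 h.2
    simpa using this
  have hKκ : ∀ v ∈ K, sd v κ ≤ s → v = κ := by
    intro v hv hvs
    by_contra h3
    have := (hK v hv h3).1
    omega
  have eu : stp du κ ≠ κ := stp_ne hdu h1 h2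
  have ev : stp dv κ ≠ κ := stp_ne hdv h1 h2
  have euv : stp du κ ≠ stp dv κ := by
    intro h3
    have h4 := ray_stpL hdu κ
    have h5 := ray_stpL hdv κ
    rw [← h3] at h5
    exact eu (ray_disj hdu hdv hne h4 h5)
  have hnuF : stp du κ ∈ F := (hF _).2 ⟨hnu, by rw [sd_stpL hdu h1 h2]; exact hs⟩
  have hnvF : stp dv κ ∈ F := (hF _).2 ⟨hnv, by rw [sd_stpL hdv h1 h2]; exact hs⟩
  have nuv : ¬ ray du κ (stp dv κ) := fun h => ev (ray_disj hdu hdv hne h (ray_stpL hdv κ))
  have nvu : ¬ ray dv κ (stp du κ) := fun h => eu (ray_disj hdu hdv hne (ray_stpL hdu κ) h)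
  -- three legs when there is a third point and one of the two rays is free
  have three : ∀ b, b ∈ F → b ≠ stp du κ → b ≠ stp dv κ →
      ((∀ v ∈ F, (v = b₁ ∨ v = b₂) → ¬ ray du κ v) ∨
        ∀ v ∈ F, (v = b₁ ∨ v = b₂) → ¬ ray dv κ v) → HasLegs K Λ A s := by
    intro b hb hbu hbv hor
    have hc : 3 ≤ F.card := by
      have h3 : ({stp du κ, stp dv κ, b} : Finset (ℕ × ℕ)) ⊆ F := by
        intro v hv
        simp only [Finset.mem_insert, Finset.mem_singleton] at hv
        rcases hv with rfl | rfl | rfl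
        · exact hnuF
        · exact hnvF
        · exact hb
      refine le_trans ?_ (Finset.card_le_card h3)
      rw [Finset.card_eq_three.2 ⟨_, _, _, euv, hbu.symm, hbv.symm, rfl⟩]
    rcases hor with h3 | h3
    · refine Or.inl ⟨κ, hκA, legs_three hdu F hF hKκ hκ hκΛ h1 h2 hnuF ?_ hc⟩
      intro v hv hray
      rcases hΛ v ((hF v).1 hv).1 ((hF v).1 hv).2 with h4 | h4 | h4 | h4
      · exact h4
      · exact absurd (h4 ▸ hray) nuv
      · exact absurd hray (h3 v hv (Or.inl h4))
      · exact absurd hray (h3 v hv (Or.inr h4))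
    · refine Or.inl ⟨κ, hκA, legs_three hdv F hF hKκ hκ hκΛ h1 h2 hnvF ?_ hc⟩
      intro v hv hray
      rcases hΛ v ((hF v).1 hv).1 ((hF v).1 hv).2 with h4 | h4 | h4 | h4
      · exact absurd (h4 ▸ hray) nvu
      · exact h4
      · exact absurd hray (h3 v hv (Or.inl h4))
      · exact absurd hray (h3 v hv (Or.inr h4))
  rcases hgap with hg | hg
  · have hbF : b₁ ∈ F := (hF _).2 ⟨hbΛ, hg⟩
    refine three b₁ hbF hb₁.1 hb₁.2.1 ?_
    by_cases c1 : ray du κ b₁
    · right
      rintro v hv (rfl | rfl) hray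
      · exact hb₁.2.2 (ray_disj hdu hdv hne c1 hray)
      · exact hx ⟨c1, hray⟩
    · by_cases c2 : ray du κ b₂
      · right
        rintro v hv (rfl | rfl) hray
        · exact hx' ⟨hray, c2⟩
        · exact hb₂.2.2.1 (ray_disj hdu hdv hne c2 hray)
      · left
        rintro v hv (rfl | rfl) hray
        · exact c1 hray
        · exact c2 hray
  · have hbF : b₁ ∉ F := fun h => by
      have := ((hF _).1 h).2
      omega
    by_cases hb2F : b₂ ∈ F
    · refine three b₂ hb2F hb₂.1 hb₂.2.1 ?_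
      by_cases c2 : ray du κ b₂
      · right
        rintro v hv (rfl | rfl) hray
        · exact hbF hv
        · exact hb₂.2.2.1 (ray_disj hdu hdv hne c2 hray)
      · left
        rintro v hv (rfl | rfl) hray
        · exact hbF hv
        · exact c2 hray
    · have hFuv : ∀ v ∈ F, v = stp du κ ∨ v = stp dv κ := by
        intro v hv
        rcases hΛ v ((hF v).1 hv).1 ((hF v).1 hv).2 with h4 | h4 | h4 | h4
        · exact Or.inl h4
        · exact Or.inr h4
        · exact absurd (h4 ▸ hv) hbF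
        · exact absurd (h4 ▸ hv) hb2F
      have hc : 2 ≤ F.card := by
        have h3 : ({stp du κ, stp dv κ} : Finset (ℕ × ℕ)) ⊆ F := by
          intro v hv
          simp only [Finset.mem_insert, Finset.mem_singleton] at hv
          rcases hv with rfl | rfl
          · exact hnuF
          · exact hnvF
        refine le_trans ?_ (Finset.card_le_card h3)
        rw [Finset.card_pair euv]
      have hlr : ∃ st, Legs K Λ κ s (fun e => e = 0 ∨ e = 1) st := by
        rcases hz with h3 | h3 | h3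
        · refine legs_two h3 F hF hKκ hκ hκΛ h1 hnuF ?_ hc
          intro v hv hray
          rcases hFuv v hv with h4 | h4
          · exact h4
          · exact absurd (h4 ▸ hray) nuv
        · refine legs_two h3 F hF hKκ hκ hκΛ h1 hnvF ?_ hc
          intro v hv hray
          rcases hFuv v hv with h4 | h4
          · exact absurd (h4 ▸ hray) nvu
          · exact h4
        · omega
      refine Or.inr ⟨κ, hκA, b₁, hbA, by rw [sd_comm]; omega, hlr, ?_⟩
      refine legs_one hfin.toFinset ?_ ?_ hbΛ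
      · intro v
        rw [Set.Finite.mem_toFinset]
        rfl
      · intro v hv hvs
        by_cases h3 : v = κ
        · rw [h3, sd_comm] at hvs
          omega
        · have := (hK v hv h3).2
          omega

end DA
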