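import Pool.Agent.DA.Rob
import Pool.Agent.Helper91.SR.Ramsey

/-!
# LIFT+, matroid half: small circuits, skew families, gadgets
-/

open Set BIC BICS
open scoped Matroid

namespace DA

universe u

/-- All `d`-sets independent, all `d + 1`-sets dependent. -/
lemma unif_of_hom {α : Type*} (N : Matroid α) {d k : ℕ} (hdk : k ≤ d) (A : Finset α)
    (hAE : (A : Set α) ⊆ N.E) (hA : d + k ≤ A.card)
    (h1 : ∀ I ⊆ A, I.card = d → N.Indep (I : Set α))
    (h2 : ∀ I ⊆ A, I.card = d + 1 → ¬ N.Indep (I : Set α)) : HasUniformMinor N k := by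
  classical
  obtain ⟨A', hA'A, hA'c⟩ := Finset.exists_subset_card_eq hA
  obtain ⟨C, hCA, hCc⟩ := Finset.exists_subset_card_eq (show d - k ≤ A'.card by omega)
  have small : ∀ I ⊆ A', I.card ≤ d → N.Indep (I : Set α) := by
    intro I hI hc
    obtain ⟨I', h3, h4, h5⟩ := Finset.exists_subsuperset_card_eq hI hc (by omega)
    exact (h1 I' (h4.trans hA'A) h5).subset (Finset.coe_subset.2 h3)
  have big : ∀ I ⊆ A', d + 1 ≤ I.card → ¬ N.Indep (I : Set α) := by
    intro I hI hc hcon
    obtain ⟨I', h3, h4⟩ := Finset.exists_subset_card_eq hc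
    exact h2 I' ((h3.trans hI).trans hA'A) h4 (hcon.subset (Finset.coe_subset.2 h3))
  have hCi : N.Indep (C : Set α) := small C hCA (by omega)
  obtain ⟨Z, hZ⟩ : ∃ Z, Z = A' \ C := ⟨_, rfl⟩
  have hZA : Z ⊆ A' := by rw [hZ]; exact Finset.sdiff_subset
  have hZc : Z.card = 2 * k := by
    rw [hZ, Finset.card_sdiff_of_subset hCA]
    omega
  have hZC : Disjoint Z C := by rw [hZ]; exact Finset.sdiff_disjoint
  have hZE : (Z : Set α) ⊆ (N ／ (C : Set α)).E := by
    intro e he
    exact ⟨hAE (hA'A (hZA he)), fun h => Finset.disjoint_left.1 hZC he h⟩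
  have hind : ∀ I ⊆ Z, ((N ／ (C : Set α)) ↾ (Z : Set α)).Indep (I : Set α) ↔ I.card ≤ k := by
    intro I hI
    have hIC : Disjoint I C := hZC.mono_left hI
    rw [Matroid.restrict_indep_iff, hCi.contract_indep_iff, ← Finset.coe_union]
    have hc : (I ∪ C).card = I.card + C.card := Finset.card_union_of_disjoint hIC
    have hs : I ∪ C ⊆ A' := Finset.union_subset (hI.trans hZA) hCA
    constructor
    · rintro ⟨⟨_, h3⟩, _⟩
      by_contra hcon
      exact big _ hs (by omega) h3
    · intro h3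
      exact ⟨⟨Finset.disjoint_coe.2 hIC, small _ hs (by omega)⟩, Finset.coe_subset.2 hI⟩
  refine ⟨(N ／ (C : Set α)) ↾ (Z : Set α), ?_, ?_, ?_⟩
  · rw [← Matroid.delete_compl hZE]
    exact Matroid.contract_delete_isMinor N _ _
  · rw [Matroid.restrict_ground_eq, Set.ncard_coe_finset, hZc]
  · intro B
    rw [Matroid.restrict_ground_eq]
    constructor
    · intro hB
      have hBZ : B ⊆ (Z : Set α) := hB.subset_ground
      obtain ⟨I, rfl⟩ : ∃ I : Finset α, (I : Set α) = B :=
        (Z.finite_toSet.subset hBZ).exists_finset_coe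
      have hIZ : I ⊆ Z := Finset.coe_subset.1 hBZ
      refine ⟨hBZ, ?_⟩
      rw [Set.ncard_coe_finset]
      have h3 := (hind I hIZ).1 hB.indep
      by_contra hcon
      obtain ⟨e, he, heI⟩ : ∃ e ∈ Z, e ∉ I := by
        by_contra hc
        push Not at hc
        have := Finset.card_le_card (show Z ⊆ I from hc)
        omega
      have h4 := (hind (insert e I) (Finset.insert_subset he hIZ)).2 (by
        rw [Finset.card_insert_of_notMem heI]
        omega)
      have h5 := hB.eq_of_subset_indep h4 (Finset.coe_subset.2 (Finset.subset_insert _ _))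
      apply heI
      rw [← Finset.mem_coe, h5, Finset.mem_coe]
      exact Finset.mem_insert_self _ _
    · rintro ⟨hBZ, hBc⟩
      obtain ⟨I, rfl⟩ : ∃ I : Finset α, (I : Set α) = B :=
        (Z.finite_toSet.subset hBZ).exists_finset_coe
      have hIZ : I ⊆ Z := Finset.coe_subset.1 hBZ
      rw [Set.ncard_coe_finset] at hBc
      have h3 := (hind I hIZ).2 hBc.le
      obtain ⟨B', hB', hIB'⟩ := h3.exists_isBase_superset
      have hB'Z : B' ⊆ (Z : Set α) := hB'.subset_ground
      obtain ⟨I', rfl⟩ : ∃ I' : Finset α, (I' : Set α) = B' :=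
        (Z.finite_toSet.subset hB'Z).exists_finset_coe
      have h4 := (hind I' (Finset.coe_subset.1 hB'Z)).1 hB'.indep
      have h5 : I = I' := Finset.eq_of_subset_of_card_le (Finset.coe_subset.1 hIB') (by omega)
      rw [h5]
      exact hB'

/-- Ramsey. -/
lemma hom_aux (k : ℕ) : ∀ d D : ℕ, ∃ J : ℕ, ∀ {α : Type u} (N : Matroid α),
    ¬ HasUniformMinor N k → ∀ e : Fin J → α, Function.Injective e → (∀ i, e i ∈ N.E) →
    (∀ I : Finset (Fin J), I.card ≤ k → N.Indep (e '' (I : Set (Fin J)))) →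
    ∃ T : Finset (Fin J), T.card = D ∧ ∀ I ⊆ T, I.card = d → N.Indep (e '' (I : Set (Fin J))) := by
  classical
  intro d
  induction d with
  | zero =>
    intro D
    refine ⟨D, fun N _ e _ _ _ => ⟨Finset.univ, by simp, ?_⟩⟩
    intro I _ hI
    rw [Finset.card_eq_zero] at hI
    simp [hI]
  | succ d ih =>
    intro D
    obtain ⟨D2, hD2⟩ : ∃ D2, D2 = max D (d + k) := ⟨_, rfl⟩
    obtain ⟨J1, hJ1⟩ := Pool.Agent.Helper91.SR.ramsey_fin (d + 1) D2
    obtain ⟨J, hJ⟩ := ih J1
    refine ⟨J, ?_⟩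
    intro α N hN e he heE hsmall
    have hk : 1 ≤ k := by
      rcases Nat.eq_zero_or_pos k with rfl | h
      · exact absurd (C1Q.uniform_zero N) hN
      · exact h
    obtain ⟨T1, hT1c, hT1⟩ := hJ N hN e he heE hsmall
    obtain ⟨f, hf⟩ : ∃ f : Fin J1 ↪ Fin J, ∀ i, f i ∈ T1 :=
      ⟨(T1.orderEmbOfFin hT1c).toEmbedding, fun i => Finset.orderEmbOfFin_mem _ _ _⟩
    obtain ⟨T2, b, hT2c, hT2⟩ := hJ1 (fun I => decide (N.Indep (e '' ((I.map f : Finset (Fin J)) :
      Set (Fin J)))))
    have hmap : ∀ I' ⊆ T2.map f, ∃ I ⊆ T2, I' = I.map f := by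
      intro I' hI'
      obtain ⟨I, h1, h2⟩ := Finset.subset_map_iff.1 hI'
      exact ⟨I, h1, h2⟩
    cases b with
    | true =>
      obtain ⟨T, hT, hTc⟩ := Finset.exists_subset_card_eq (s := T2.map f) (n := D) (by
        rw [Finset.card_map, hT2c, hD2]
        exact le_max_left _ _)
      refine ⟨T, hTc, ?_⟩
      intro I hI hIc
      obtain ⟨I0, h1, rfl⟩ := hmap I (hI.trans hT)
      rw [Finset.card_map] at hIc
      exact of_decide_eq_true (hT2 I0 h1 hIc)
    | false =>
      exfalso
      have hdep : ∀ I ⊆ T2, I.card = d + 1 → ¬ N.Indep (e '' ((I.map f : Finset (Fin J)) :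
          Set (Fin J))) := fun I h1 h2 => of_decide_eq_false (hT2 I h1 h2)
      have hbig : d + k ≤ T2.card := by
        rw [hT2c, hD2]
        exact le_max_right _ _
      by_cases hdk : d + 1 ≤ k
      · obtain ⟨I, hI, hIc⟩ := Finset.exists_subset_card_eq (show d + 1 ≤ T2.card by omega)
        exact hdep I hI hIc (hsmall _ (by rw [Finset.card_map]; omega))
      · push Not at hdk
        refine hN (unif_of_hom N (d := d) (by omega) ((T2.map f).map ⟨e, he⟩) ?_ ?_ ?_ ?_)
        · intro x hx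
          rw [Finset.mem_coe, Finset.mem_map] at hx
          obtain ⟨i, _, rfl⟩ := hx
          exact heE i
        · rw [Finset.card_map, Finset.card_map]
          exact hbig
        · intro I hI hIc
          obtain ⟨I1, h1, rfl⟩ := Finset.subset_map_iff.1 hI
          obtain ⟨I0, h2, rfl⟩ := hmap I1 h1
          rw [Finset.card_map, Finset.card_map] at hIc
          have h3 := hT1 (I0.map f) (by
            intro x hx
            rw [Finset.mem_map] at hx
            obtain ⟨i, _, rfl⟩ := hx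
            exact hf i) (by rw [Finset.card_map]; exact hIc)
          rw [Finset.coe_map]
          exact h3
        · intro I hI hIc
          obtain ⟨I1, h1, rfl⟩ := Finset.subset_map_iff.1 hI
          obtain ⟨I0, h2, rfl⟩ := hmap I1 h1
          rw [Finset.card_map, Finset.card_map] at hIc
          have h3 := hdep I0 h2 hIc
          rw [Finset.coe_map]
          exact h3

/-- **Lemma C.**  Many elements in bounded rank contain a dependent set of size at most `k`. -/
theorem small_dep (k ρ : ℕ) : ∃ n₀ : ℕ, ∀ {α : Type u} (N : Matroid α) [N.Finite],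
    ¬ HasUniformMinor N k → ∀ E : Finset α, (E : Set α) ⊆ N.E → rk N (E : Set α) ≤ ρ →
    n₀ ≤ E.card → ∃ D ⊆ E, D.card ≤ k ∧ ¬ N.Indep (D : Set α) := by
  classical
  obtain ⟨J, hJ⟩ := hom_aux.{u} k (ρ + 1) (ρ + 1)
  refine ⟨J, ?_⟩
  intro α N _ hN E hE hr hEc
  by_contra hcon
  push Not at hcon
  obtain ⟨E', hE'E, hE'c⟩ := Finset.exists_subset_card_eq hEc
  obtain ⟨e, he⟩ : ∃ e : Fin J ↪ α, ∀ i, e i ∈ E' := by
    let g := (Finset.equivFinOfCardEq hE'c).symm
    exact ⟨⟨fun i => (g i).1, fun i j h => g.injective (Subtype.ext h)⟩, fun i => (g i).2⟩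
  have hsub : ∀ I : Finset (Fin J), (I.map e : Finset α) ⊆ E := by
    intro I x hx
    rw [Finset.mem_map] at hx
    obtain ⟨i, _, rfl⟩ := hx
    exact hE'E (he i)
  obtain ⟨T, hTc, hT⟩ := hJ N hN e e.injective (fun i => hE (hE'E (he i))) (by
    intro I hI
    have h1 := hcon (I.map e) (hsub I) (by rw [Finset.card_map]; exact hI)
    rw [Finset.coe_map] at h1
    exact h1)
  have h1 := hT T subset_rfl hTc
  have h2 := rk_indep h1
  rw [Set.ncard_image_of_injective _ e.injective, Set.ncard_coe_finset, hTc] at h2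
  have h3 : rk N (e '' (T : Set (Fin J))) ≤ rk N (E : Set α) := by
    refine rk_mono N ?_
    rintro _ ⟨i, _, rfl⟩
    exact hE'E (he i)
  omega


/-! ### Skew families, for a set function on `Finset ℕ` -/

/-- all elements of `A` are below all elements of `B` -/
def Bel (A B : Finset ℕ) : Prop := ∀ i ∈ A, ∀ j ∈ B, i < j

/-- `L` is skew over `A` (from left to right). -/
def Sk (f : Finset ℕ → ℕ) (A L : Finset ℕ) : Prop :=
  ∀ l ∈ L, f (insert l A) + f (A ∪ L.filter (· < l)) ≤
    f (insert l (A ∪ L.filter (· < l))) + f A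

/-- nothing is in the span of the earlier ones -/
def Low (f : Finset ℕ → ℕ) (I : Finset ℕ) : Prop :=
  ∀ l ∈ I, ∀ A : Finset ℕ, (∀ i ∈ A, i < l) → f A + 1 ≤ f (insert l A)

/-- the wanted outcome -/
def SkOut (R : ℕ → ℕ) (f : Finset ℕ → ℕ) (A₀ I : Finset ℕ) : Prop :=
  ∃ A₁ L : Finset ℕ, R A₁.card ≤ L.card ∧ Bel A₁ L ∧ A₁ ⊆ A₀ ∪ I ∧ L ⊆ I ∧ Sk f A₁ L

lemma skew_step (R : ℕ → ℕ) (r : ℕ) (ih : ∀ a, ∃ m, ∀ (f : Finset ℕ → ℕ) (A₀ I : Finset ℕ),
    A₀.card = a → m ≤ I.card → Bel A₀ I → (∀ l ∈ I, f (insert l A₀) ≤ f A₀ + r) → Low f I →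
    SkOut R f A₀ I) : ∀ t a j, ∃ M, ∀ (f : Finset ℕ → ℕ) (A₀ L I : Finset ℕ), A₀.card = a →
    L.card = j → Bel A₀ L → Bel A₀ I → Bel L I → Sk f A₀ L → M ≤ I.card →
    (∀ l ∈ I, f (insert l A₀) ≤ f A₀ + (r + 1)) → Low f I → SkOut R f A₀ (L ∪ I) ∨
    ∃ L' : Finset ℕ, L'.card = j + t ∧ L' ⊆ L ∪ I ∧ Bel A₀ L' ∧ Sk f A₀ L' := by
  intro t
  induction t with
  | zero =>
    intro a j
    refine ⟨0, ?_⟩
    intro f A₀ L I _ hL h1 _ _ h2 _ _ _
    exact Or.inr ⟨L, by simpa using hL, Finset.subset_union_left, h1, h2⟩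
  | succ t iht =>
    intro a j
    obtain ⟨m, hm⟩ := ih (a + j)
    obtain ⟨M, hM⟩ := iht a (j + 1)
    refine ⟨m + M + 1, ?_⟩
    intro f A₀ L I hA hL hAL hAI hLI hSk hc hup hlow
    obtain ⟨bad, hbad⟩ : ∃ bad, bad = I.filter (fun l => f (insert l (A₀ ∪ L)) + f A₀ <
      f (insert l A₀) + f (A₀ ∪ L)) := ⟨_, rfl⟩
    have hbI : bad ⊆ I := by rw [hbad]; exact Finset.filter_subset _ _
    by_cases hb : m ≤ bad.card
    · left
      have hd : Disjoint A₀ L := by
        rw [Finset.disjoint_left]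
        intro x hx hx'
        exact absurd (hAL x hx x hx') (lt_irrefl _)
      obtain ⟨A₁, L₁, h1, h2, h3, h4, h5⟩ := hm f (A₀ ∪ L) bad (by
        rw [Finset.card_union_of_disjoint hd, hA, hL]) hb (by
        intro i hi x hx
        rcases Finset.mem_union.1 hi with h | h
        · exact hAI i h x (hbI hx)
        · exact hLI i h x (hbI hx)) (by
        intro l hl
        have h1 := hup l (hbI hl)
        rw [hbad] at hl
        have h2 := (Finset.mem_filter.1 hl).2
        omega) (fun l hl => hlow l (hbI hl))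
      refine ⟨A₁, L₁, h1, h2, ?_, ?_, h5⟩
      · refine h3.trans ?_
        rw [Finset.union_assoc]
        exact Finset.union_subset_union_right (Finset.union_subset_union_right hbI)
      · exact h4.trans (hbI.trans Finset.subset_union_right)
    · push Not at hb
      -- the first good index
      have hne : (I \ bad).Nonempty := by
        rw [← Finset.card_pos, Finset.card_sdiff_of_subset hbI]
        omega
      obtain ⟨l, hl⟩ : ∃ l, l = (I \ bad).min' hne := ⟨_, rfl⟩
      have hlI : l ∈ I \ bad := by rw [hl]; exact Finset.min'_mem _ _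
      have hlI' := Finset.mem_sdiff.1 hlI
      obtain ⟨I', hI'⟩ : ∃ I', I' = I.filter (fun x => l < x) := ⟨_, rfl⟩
      have hI'I : I' ⊆ I := by rw [hI']; exact Finset.filter_subset _ _
      have hcov : I ⊆ insert l (bad ∪ I') := by
        intro x hx
        rw [Finset.mem_insert, Finset.mem_union, hI', Finset.mem_filter]
        by_cases hxb : x ∈ bad
        · exact Or.inr (Or.inl hxb)
        · have h1 : l ≤ x := by
            rw [hl]
            exact Finset.min'_le _ _ (Finset.mem_sdiff.2 ⟨hx, hxb⟩)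
          rcases Nat.lt_or_eq_of_le h1 with h2 | h2
          · exact Or.inr (Or.inr ⟨hx, h2⟩)
          · exact Or.inl h2.symm
      have hcI' : M ≤ I'.card := by
        have h1 := Finset.card_le_card hcov
        have h2 := Finset.card_insert_le l (bad ∪ I')
        have h3 := Finset.card_union_le bad I'
        omega
      have hlL : l ∉ L := fun h => absurd (hLI l h l hlI'.1) (lt_irrefl _)
      have hgood : f (insert l A₀) + f (A₀ ∪ L) ≤ f (insert l (A₀ ∪ L)) + f A₀ := by
        by_contra hcon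
        push Not at hcon
        apply hlI'.2
        rw [hbad, Finset.mem_filter]
        exact ⟨hlI'.1, hcon⟩
      have hSk' : Sk f A₀ (insert l L) := by
        intro x hx
        rcases Finset.mem_insert.1 hx with rfl | hx'
        · have h1 : (insert x L).filter (· < x) = L := by
            ext y
            rw [Finset.mem_filter, Finset.mem_insert]
            constructor
            · rintro ⟨rfl | h2, h3⟩
              · exact absurd h3 (lt_irrefl _)
              · exact h2
            · intro h2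
              exact ⟨Or.inr h2, hLI y h2 x hlI'.1⟩
          rw [h1]
          exact hgood
        · have h1 : (insert l L).filter (· < x) = L.filter (· < x) := by
            rw [Finset.filter_insert, if_neg]
            have := hLI x hx' l hlI'.1
            omega
          rw [h1]
          exact hSk x hx'
      have hBelL : Bel A₀ (insert l L) := by
        intro i hi x hx
        rcases Finset.mem_insert.1 hx with rfl | hx'
        · exact hAI i hi x hlI'.1
        · exact hAL i hi x hx'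
      have hBelI : Bel (insert l L) I' := by
        intro i hi x hx
        rcases Finset.mem_insert.1 hi with rfl | hi'
        · rw [hI', Finset.mem_filter] at hx
          exact hx.2
        · exact hLI i hi' x (hI'I hx)
      have hsub : insert l L ∪ I' ⊆ L ∪ I := by
        intro x hx
        rw [Finset.mem_union, Finset.mem_insert] at hx
        rw [Finset.mem_union]
        rcases hx with (rfl | h) | h
        · exact Or.inr hlI'.1
        · exact Or.inl h
        · exact Or.inr (hI'I h)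
      rcases hM f A₀ (insert l L) I' hA (by rw [Finset.card_insert_of_notMem hlL, hL]) hBelL
        (fun i hi x hx => hAI i hi x (hI'I hx)) hBelI hSk' hcI' (fun x hx => hup x (hI'I hx))
        (fun x hx => hlow x (hI'I hx)) with h | ⟨L', h1, h2, h3, h4⟩
      · left
        obtain ⟨A₁, L₁, g1, g2, g3, g4, g5⟩ := h
        exact ⟨A₁, L₁, g1, g2, g3.trans (Finset.union_subset_union_right hsub), g4.trans hsub, g5⟩
      · right
        exact ⟨L', by omega, h2.trans hsub, h3, h4⟩

/-- Greedy skew families. -/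
theorem skew_exists (R : ℕ → ℕ) : ∀ r a, ∃ m, ∀ (f : Finset ℕ → ℕ) (A₀ I : Finset ℕ),
    A₀.card = a → m ≤ I.card → Bel A₀ I → (∀ l ∈ I, f (insert l A₀) ≤ f A₀ + r) → Low f I →
    SkOut R f A₀ I := by
  intro r
  induction r with
  | zero =>
    intro a
    refine ⟨1, ?_⟩
    intro f A₀ I _ hI hAI hup hlow
    obtain ⟨l, hl⟩ := Finset.card_pos.1 (show 0 < I.card by omega)
    have h1 := hup l hl
    have h2 := hlow l hl A₀ (fun i hi => hAI i hi l hl)
    omega
  | succ r ih =>
    intro a
    obtain ⟨M, hM⟩ := skew_step R r ih (R a) a 0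
    refine ⟨M, ?_⟩
    intro f A₀ I hA hI hAI hup hlow
    rcases hM f A₀ ∅ I hA rfl (by intro i _ j hj; simp at hj) hAI (by intro i hi; simp at hi)
      (by intro l hl; simp at hl) hI hup hlow with h | ⟨L', h1, h2, h3, h4⟩
    · rw [Finset.empty_union] at h
      exact h
    · rw [Finset.empty_union] at h2
      exact ⟨A₀, L', by rw [hA, h1]; omega, h3, Finset.subset_union_left, h2, h4⟩


/-! ### The sequence of small dependent sets -/

section

variable {α : Type*} {N : Matroid α}

/-- the rank of a union -/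
noncomputable def fr (N : Matroid α) (D : ℕ → Set α) (A : Finset ℕ) : ℕ :=
  rk N (⋃ i ∈ A, D i)

lemma fr_insert (D : ℕ → Set α) (l : ℕ) (A : Finset ℕ) :
    fr N D (insert l A) = rk N ((⋃ i ∈ A, D i) ∪ D l) := by
  unfold fr
  congr 1
  ext x
  simp only [mem_iUnion, Finset.mem_insert, mem_union, exists_prop]
  constructor
  · rintro ⟨i, rfl | hi, hx⟩
    · exact Or.inr hx
    · exact Or.inl ⟨i, hi, hx⟩
  · rintro (⟨i, hi, hx⟩ | hx)
    · exact ⟨i, Or.inr hi, hx⟩
    · exact ⟨l, Or.inl rfl, hx⟩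

lemma bU_union (D : ℕ → Set α) (A B : Finset ℕ) :
    (⋃ i ∈ A ∪ B, D i) = (⋃ i ∈ A, D i) ∪ ⋃ i ∈ B, D i := by
  ext x
  simp only [mem_iUnion, Finset.mem_union, mem_union, exists_prop]
  constructor
  · rintro ⟨i, hi | hi, hx⟩
    · exact Or.inl ⟨i, hi, hx⟩
    · exact Or.inr ⟨i, hi, hx⟩
  · rintro (⟨i, hi, hx⟩ | ⟨i, hi, hx⟩)
    · exact ⟨i, Or.inl hi, hx⟩
    · exact ⟨i, Or.inr hi, hx⟩

/-- Bases of the members of a skew family form an independent set. -/
lemma skew_rk [N.Finite] {D : ℕ → Set α} {A : Finset ℕ} : ∀ {L : Finset ℕ}, Sk (fr N D) A L →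
    fr N D A + ∑ l ∈ L, (fr N D (insert l A) - fr N D A) ≤ fr N D (A ∪ L) := by
  intro L
  induction L using Finset.induction_on_max with
  | empty => intro _; simp
  | insert a s hs ih =>
    intro hSk
    have has : a ∉ s := fun h => absurd (hs a h) (lt_irrefl _)
    have hSks : Sk (fr N D) A s := by
      intro x hx
      have h1 := hSk x (Finset.mem_insert_of_mem hx)
      have h2 : (insert a s).filter (· < x) = s.filter (· < x) := by
        rw [Finset.filter_insert, if_neg]
        have := hs x hx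
        omega
      rw [h2] at h1
      exact h1
    have h1 := ih hSks
    have h2 := hSk a (Finset.mem_insert_self _ _)
    have h3 : (insert a s).filter (· < a) = s := by
      ext y
      rw [Finset.mem_filter, Finset.mem_insert]
      constructor
      · rintro ⟨rfl | h2, h3⟩
        · exact absurd h3 (lt_irrefl _)
        · exact h2
      · intro h2
        exact ⟨Or.inr h2, hs y h2⟩
    rw [h3] at h2
    have h4 : fr N D A ≤ fr N D (insert a A) := by
      rw [fr_insert]
      exact rk_mono N subset_union_left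
    have h5 : insert a (A ∪ s) = A ∪ insert a s := by
      rw [Finset.union_insert]
    rw [h5] at h2
    rw [Finset.sum_insert has]
    omega

end

/-- **LIFT+, matroid half.**  Many disjoint sets which span the same (bounded) rank contain many
circuits `z l`, `t l` with skew bases. -/
theorem liftA (k : ℕ) (R : ℕ → ℕ) : ∃ ρ q b : ℕ, ∀ {α : Type u} (N : Matroid α) [N.Finite],
    ¬ HasUniformMinor N k → ∀ T : Fin q → Finset α, (∀ i, (T i : Set α) ⊆ N.E) →
    (∀ i j, (T j : Set α) ⊆ N.closure (T i)) → (∀ i, rk N (T i : Set α) = ρ) →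
    (∀ i j, i ≠ j → Disjoint (T i) (T j)) →
    ∃ (s : ℕ) (K₀ : Finset α) (K : Fin (R s) → Finset α) (z t : Fin (R s) → α),
      s ≤ b ∧ K₀.card ≤ s ∧ (∀ l, (K l).card ≤ k) ∧ (∀ x ∈ K₀, ∃ i, x ∈ T i) ∧
      (∀ l, ∀ x ∈ K l, ∃ i, x ∈ T i) ∧ (∀ l, ∃ i, z l ∈ T i) ∧ (∀ l, t l ∈ K l) ∧
      (∀ l l', l ≠ l' → Disjoint (K l) (K l')) ∧ (∀ l, Disjoint (K l) K₀) ∧
      Function.Injective z ∧ (∀ l, z l ∉ K₀) ∧ (∀ l l', z l ∉ K l') ∧
      N.Indep ((K₀ : Set α) ∪ ⋃ l, (K l : Set α)) ∧
      (∀ l, z l ∈ N.closure ((K₀ : Set α) ∪ (K l : Set α))) ∧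
      (∀ l, z l ∉ N.closure (((K₀ : Set α) ∪ ⋃ l', (K l' : Set α)) \ {t l})) := by
  classical
  obtain ⟨m, hm⟩ := skew_exists (fun a => R (k * a)) k 0
  obtain ⟨ρ, hρ⟩ : ∃ ρ, ρ = k * m + 1 := ⟨_, rfl⟩
  obtain ⟨n₀, hn₀⟩ := small_dep.{u} k ρ
  refine ⟨ρ, n₀ + 1, ρ, ?_⟩
  intro α N _ hN T hTE hTs hTr hTd
  -- one more small dependent set
  have hstep : ∀ W : Finset α, ∃ D : Finset α, W.card < ρ → (∀ x ∈ D, ∃ i, x ∈ T i) ∧
      D.card ≤ k ∧ ¬ N.Indep (D : Set α) ∧ ∀ x ∈ D, x ∉ N.closure (W : Set α) := by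
    intro W
    by_cases hW : W.card < ρ
    · have h1 : ∀ i, ∃ e ∈ T i, e ∉ N.closure (W : Set α) := by
        intro i
        by_contra hcon
        push Not at hcon
        have h2 : rk N (T i : Set α) ≤ rk N (W : Set α) := by
          rw [← rk_closure (W : Set α)]
          exact rk_mono N hcon
        have h3 := rk_le_ncard N W.finite_toSet
        rw [Set.ncard_coe_finset] at h3
        rw [hTr] at h2
        omega
      choose e he1 he2 using h1
      have hinj : Function.Injective e := by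
        intro i j hij
        by_contra hne
        exact Finset.disjoint_left.1 (hTd i j hne) (he1 i) (hij ▸ he1 j)
      obtain ⟨D, hD1, hD2, hD3⟩ := hn₀ N hN (Finset.univ.image e) (by
        intro x hx
        rw [Finset.mem_coe, Finset.mem_image] at hx
        obtain ⟨i, _, rfl⟩ := hx
        exact hTE i (he1 i)) (by
        have h2 : rk N ((Finset.univ.image e : Finset α) : Set α) ≤ rk N (T 0 : Set α) := by
          rw [← rk_closure (T 0 : Set α)]
          refine rk_mono N ?_
          intro x hx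
          rw [Finset.mem_coe, Finset.mem_image] at hx
          obtain ⟨i, _, rfl⟩ := hx
          exact hTs 0 i (he1 i)
        rw [hTr] at h2
        exact h2) (by
        rw [Finset.card_image_of_injective _ hinj, Finset.card_univ, Fintype.card_fin]
        omega)
      refine ⟨D, fun _ => ⟨?_, hD2, hD3, ?_⟩⟩
      · intro x hx
        obtain ⟨i, _, rfl⟩ := Finset.mem_image.1 (hD1 hx)
        exact ⟨i, he1 i⟩
      · intro x hx
        obtain ⟨i, _, rfl⟩ := Finset.mem_image.1 (hD1 hx)
        exact he2 i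
    · exact ⟨∅, fun h => absurd h hW⟩
  choose g hg using hstep
  obtain ⟨W, hW0, hWs⟩ : ∃ W : ℕ → Finset α, W 0 = ∅ ∧ ∀ l, W (l + 1) = W l ∪ g (W l) :=
    ⟨fun l => Nat.rec ∅ (fun _ w => w ∪ g w) l, rfl, fun _ => rfl⟩
  obtain ⟨D, hD⟩ : ∃ D : ℕ → Finset α, ∀ l, D l = g (W l) := ⟨_, fun _ => rfl⟩
  have hWc : ∀ l ≤ m, (W l).card ≤ k * l := by
    intro l
    induction l with
    | zero => intro _; rw [hW0]; simp
    | succ l ih =>
      intro hl
      have h1 := ih (by omega)
      have h2 : (W l).card < ρ := by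
        have := Nat.mul_le_mul_left k (show l ≤ m by omega)
        omega
      have h3 := (hg (W l) h2).2.1
      have h4 := Finset.card_union_le (W l) (g (W l))
      rw [hWs, mul_add, mul_one]
      omega
  have hWlt : ∀ l ≤ m, (W l).card < ρ := by
    intro l hl
    have h1 := hWc l hl
    have := Nat.mul_le_mul_left k hl
    omega
  have hWmem : ∀ l, ∀ i < l, D i ⊆ W l := by
    intro l
    induction l with
    | zero => intro i hi; omega
    | succ l ih =>
      intro i hi
      rw [hWs]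
      rcases Nat.lt_or_eq_of_le (Nat.le_of_lt_succ hi) with h | rfl
      · exact (ih i h).trans Finset.subset_union_left
      · rw [hD]
        exact Finset.subset_union_right
  have hDT : ∀ l < m, ∀ x ∈ D l, ∃ i, x ∈ T i := by
    intro l hl x hx
    rw [hD] at hx
    exact (hg (W l) (hWlt l (by omega))).1 x hx
  have hDE : ∀ l < m, (D l : Set α) ⊆ N.E := by
    intro l hl x hx
    obtain ⟨i, hi⟩ := hDT l hl x hx
    exact hTE i hi
  have hDc : ∀ l < m, (D l).card ≤ k := by
    intro l hl
    rw [hD]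
    exact (hg (W l) (hWlt l (by omega))).2.1
  have hDdep : ∀ l < m, ¬ N.Indep (D l : Set α) := by
    intro l hl
    rw [hD]
    exact (hg (W l) (hWlt l (by omega))).2.2.1
  have hDcl : ∀ l < m, ∀ x ∈ D l, x ∉ N.closure (W l : Set α) := by
    intro l hl x hx
    rw [hD] at hx
    exact (hg (W l) (hWlt l (by omega))).2.2.2 x hx
  have hWE : ∀ l ≤ m, (W l : Set α) ⊆ N.E := by
    intro l
    induction l with
    | zero => intro _; rw [hW0]; simp
    | succ l ih =>
      intro hl
      rw [hWs, Finset.coe_union, ← hD]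
      exact union_subset (ih (by omega)) (hDE l (by omega))
  obtain ⟨DS, hDS⟩ : ∃ DS : ℕ → Set α, ∀ l, DS l = (D l : Set α) := ⟨_, fun _ => rfl⟩
  have hbW : ∀ (A : Finset ℕ) (l : ℕ), (∀ i ∈ A, i < l) → (⋃ i ∈ A, DS i) ⊆ (W l : Set α) := by
    intro A l hA x hx
    simp only [mem_iUnion, exists_prop] at hx
    obtain ⟨i, hi, hx⟩ := hx
    rw [hDS] at hx
    exact hWmem l i (hA i hi) hx
  obtain ⟨A₁, L, hLc, hBel, hA₁, hLI, hSk⟩ := hm (fr N DS) ∅ (Finset.range m) rfl
    (by rw [Finset.card_range]) (by intro i hi; simp at hi) (by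
      intro l hl
      rw [Finset.mem_range] at hl
      rw [fr_insert]
      have h1 : (⋃ i ∈ (∅ : Finset ℕ), DS i) ∪ DS l = (D l : Set α) := by
        rw [hDS]
        simp
      rw [h1]
      have h2 := rk_le_ncard N (D l).finite_toSet
      rw [Set.ncard_coe_finset] at h2
      have := hDc l hl
      omega) (by
      intro l hl A hA
      rw [Finset.mem_range] at hl
      rw [fr_insert]
      obtain ⟨x, hx⟩ : (D l).Nonempty := by
        rw [Finset.nonempty_iff_ne_empty]
        intro h
        apply hDdep l hl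
        rw [h]
        simp
      have h1 : x ∉ N.closure (⋃ i ∈ A, DS i) := fun h =>
        hDcl l hl x hx (N.closure_subset_closure (hbW A l hA) h)
      have h2 := rk_insert_notMem (hDE l hl hx) h1
      have h3 : rk N (insert x (⋃ i ∈ A, DS i)) ≤ rk N ((⋃ i ∈ A, DS i) ∪ DS l) := by
        refine rk_mono N (insert_subset (Or.inr ?_) subset_union_left)
        rw [hDS]
        exact hx
      unfold fr
      omega)
  rw [Finset.empty_union] at hA₁
  have hLm : ∀ l ∈ L, l < m := fun l hl => Finset.mem_range.1 (hLI hl)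
  have hA₁m : ∀ i ∈ A₁, i < m := fun i hi => Finset.mem_range.1 (hA₁ hi)
  -- the bases
  obtain ⟨D₀, hD₀⟩ : ∃ D₀ : Finset α, D₀ = A₁.biUnion D := ⟨_, rfl⟩
  have hD₀S : (⋃ i ∈ A₁, DS i) = (D₀ : Set α) := by
    ext x
    simp only [mem_iUnion, exists_prop, hDS, Finset.mem_coe, hD₀, Finset.mem_biUnion]
  have hD₀E : (D₀ : Set α) ⊆ N.E := by
    intro x hx
    rw [hD₀, Finset.mem_coe, Finset.mem_biUnion] at hx
    obtain ⟨i, hi, hx⟩ := hx
    exact hDE i (hA₁m i hi) hx
  obtain ⟨J₀, hJ₀⟩ := N.exists_isBasis (D₀ : Set α) hD₀E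
  obtain ⟨K₀, rfl⟩ : ∃ K₀ : Finset α, (K₀ : Set α) = J₀ :=
    (D₀.finite_toSet.subset hJ₀.subset).exists_finset_coe
  have hKex : ∀ l, ∃ Kl : Finset α, l ∈ L → Kl ⊆ D l ∧ Disjoint Kl K₀ ∧
      N.Indep ((K₀ : Set α) ∪ (Kl : Set α)) ∧
      (D l : Set α) ⊆ N.closure ((K₀ : Set α) ∪ (Kl : Set α)) ∧
      fr N DS A₁ + Kl.card ≤ fr N DS (insert l A₁) := by
    intro l
    by_cases hl : l ∈ L
    · obtain ⟨J, hJ, hJ'⟩ := hJ₀.indep.subset_isBasis_of_subset
        (X := (D₀ : Set α) ∪ (D l : Set α)) (hJ₀.subset.trans subset_union_left)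
        (union_subset hD₀E (hDE l (hLm l hl)))
      obtain ⟨Jf, rfl⟩ : ∃ Jf : Finset α, (Jf : Set α) = J :=
        ((D₀.finite_toSet.union (D l).finite_toSet).subset hJ.subset).exists_finset_coe
      have hsplit : (K₀ : Set α) ∪ ((Jf \ K₀ : Finset α) : Set α) = (Jf : Set α) := by
        rw [Finset.coe_sdiff, union_sdiff_cancel hJ']
      refine ⟨Jf \ K₀, fun _ => ⟨?_, Finset.sdiff_disjoint, ?_, ?_, ?_⟩⟩
      · intro x hx
        rw [Finset.mem_sdiff] at hx
        rcases hJ.subset (Finset.mem_coe.2 hx.1) with h | h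
        · exfalso
          have h1 : (K₀ : Set α) = (Jf : Set α) ∩ (D₀ : Set α) := by
            refine hJ₀.eq_of_subset_indep (hJ.indep.subset inter_subset_left) ?_
              inter_subset_right
            exact subset_inter hJ' hJ₀.subset
          apply hx.2
          rw [← Finset.mem_coe, h1]
          exact ⟨hx.1, h⟩
        · exact h
      · rw [hsplit]
        exact hJ.indep
      · rw [hsplit]
        exact subset_union_right.trans hJ.subset_closure
      · rw [fr_insert, hD₀S, hDS]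
        have h1 : rk N ((D₀ : Set α) ∪ (D l : Set α)) = Jf.card := by
          rw [← rk_closure ((D₀ : Set α) ∪ (D l : Set α)), ← hJ.closure_eq_closure, rk_closure,
            rk_indep hJ.indep, Set.ncard_coe_finset]
        have h2 : fr N DS A₁ = K₀.card := by
          unfold fr
          rw [hD₀S, ← rk_closure (D₀ : Set α), ← hJ₀.closure_eq_closure, rk_closure,
            rk_indep hJ₀.indep, Set.ncard_coe_finset]
        have h3 := Finset.card_sdiff_add_card_eq_card (Finset.coe_subset.1 hJ')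
        omega
    · exact ⟨∅, fun h => absurd h hl⟩
  choose K hK using hKex
  have hfr₀ : fr N DS A₁ = K₀.card := by
    unfold fr
    rw [hD₀S, ← rk_closure (D₀ : Set α), ← hJ₀.closure_eq_closure, rk_closure,
      rk_indep hJ₀.indep, Set.ncard_coe_finset]
  have hK₀W : ∀ l ∈ L, (K₀ : Set α) ⊆ (W l : Set α) := by
    intro l hl
    refine hJ₀.subset.trans ?_
    rw [← hD₀S]
    exact hbW A₁ l (fun i hi => hBel i hi l hl)
  have hWcl : ∀ l ≤ m, (W l : Set α) ⊆ N.closure (W l : Set α) := fun l hl =>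
    N.subset_closure _ (hWE l hl)
  have hDdisj : ∀ l < m, ∀ l' < m, l ≠ l' → ∀ x ∈ D l, x ∉ D l' := by
    intro l hl l' hl' hne x hx hx'
    rcases Nat.lt_or_gt_of_ne hne with h | h
    · exact hDcl l' hl' x hx' (hWcl l' (by omega) (hWmem l' l h hx))
    · exact hDcl l hl x hx (hWcl l (by omega) (hWmem l l' h hx'))
  have hDK₀ : ∀ l ∈ L, ∀ x ∈ D l, x ∉ K₀ := by
    intro l hl x hx hx'
    exact hDcl l (hLm l hl) x hx (hWcl l (by have := hLm l hl; omega) (hK₀W l hl hx'))
  -- the big independent set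
  obtain ⟨B, hB⟩ : ∃ B : Finset α, B = K₀ ∪ L.biUnion K := ⟨_, rfl⟩
  have hBE : (B : Set α) ⊆ N.E := by
    intro x hx
    rw [hB, Finset.mem_coe, Finset.mem_union, Finset.mem_biUnion] at hx
    rcases hx with h | ⟨l, hl, h⟩
    · exact hD₀E (hJ₀.subset h)
    · exact hDE l (hLm l hl) ((hK l hl).1 h)
  have hBi : N.Indep (B : Set α) := by
    have h1 := skew_rk hSk
    have h2 : ∑ l ∈ L, (K l).card ≤ ∑ l ∈ L, (fr N DS (insert l A₁) - fr N DS A₁) := by
      refine Finset.sum_le_sum ?_
      intro l hl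
      have := (hK l hl).2.2.2.2
      omega
    have h3 : fr N DS (A₁ ∪ L) ≤ rk N (B : Set α) := by
      unfold fr
      rw [← rk_closure (B : Set α)]
      refine rk_mono N ?_
      rw [bU_union, hD₀S]
      have hK₀B : (K₀ : Set α) ⊆ (B : Set α) := by
        rw [hB, Finset.coe_union]
        exact subset_union_left
      refine union_subset ?_ ?_
      · refine hJ₀.subset_closure.trans (N.closure_subset_closure hK₀B)
      · intro x hx
        simp only [mem_iUnion, exists_prop] at hx
        obtain ⟨l, hl, hx⟩ := hx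
        rw [hDS] at hx
        refine N.closure_subset_closure ?_ ((hK l hl).2.2.2.1 hx)
        refine union_subset hK₀B ?_
        intro y hy
        rw [hB, Finset.mem_coe, Finset.mem_union, Finset.mem_biUnion]
        exact Or.inr ⟨l, hl, hy⟩
    have h4 : B.card ≤ K₀.card + ∑ l ∈ L, (K l).card := by
      rw [hB]
      exact (Finset.card_union_le _ _).trans (Nat.add_le_add_left Finset.card_biUnion_le _)
    have h5 := rk_le_ncard N B.finite_toSet
    rw [Set.ncard_coe_finset] at h5
    rw [Matroid.indep_iff_eRk_eq_encard_of_finite B.finite_toSet, ← cast_rk,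
      Set.encard_coe_eq_coe_finsetCard]
    have h6 : rk N (B : Set α) = B.card := by omega
    rw [h6]
  -- the circuits
  have hzt : ∀ l, ∃ z t : α, l ∈ L → z ∈ D l ∧ z ∉ K l ∧ t ∈ K l ∧
      z ∈ N.closure ((K₀ : Set α) ∪ (K l : Set α)) ∧ z ∉ N.closure ((B : Set α) \ {t}) := by
    intro l
    by_cases hl : l ∈ L
    · obtain ⟨h1, h2, h3, h4, h5⟩ := hK l hl
      obtain ⟨z, hz, hzK⟩ : ∃ z ∈ D l, z ∉ K l := by
        by_contra hcon
        push Not at hcon
        have h6 : D l = K l := Finset.Subset.antisymm hcon h1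
        apply hDdep l (hLm l hl)
        rw [h6]
        exact h3.subset subset_union_right
      have hzc : z ∈ N.closure ((K₀ : Set α) ∪ (K l : Set α)) := h4 hz
      have hz0 : z ∉ N.closure (K₀ : Set α) := fun h =>
        hDcl l (hLm l hl) z hz (N.closure_subset_closure (hK₀W l hl) h)
      -- a minimal part of the basis
      have hP : ((K l).powerset.filter (fun K' : Finset α => z ∈ N.closure ((K₀ : Set α) ∪
          (K' : Set α)))).Nonempty :=
        ⟨K l, Finset.mem_filter.2 ⟨Finset.mem_powerset.2 subset_rfl, hzc⟩⟩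
      obtain ⟨K', hK', hmin⟩ := Finset.exists_min_image _ Finset.card hP
      rw [Finset.mem_filter, Finset.mem_powerset] at hK'
      obtain ⟨t, ht⟩ : K'.Nonempty := by
        rw [Finset.nonempty_iff_ne_empty]
        rintro rfl
        apply hz0
        have := hK'.2
        rw [Finset.coe_empty, union_empty] at this
        exact this
      have ht0 : t ∉ K₀ := fun h => Finset.disjoint_left.1 h2 (hK'.1 ht) h
      have hK'B : (K₀ : Set α) ∪ (K' : Set α) ⊆ (B : Set α) := by
        rw [hB, Finset.coe_union]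
        refine union_subset_union_right _ ?_
        intro y hy
        rw [Finset.mem_coe, Finset.mem_biUnion]
        exact ⟨l, hl, hK'.1 hy⟩
      refine ⟨z, t, fun _ => ⟨hz, hzK, hK'.1 ht, hzc, ?_⟩⟩
      intro hcon
      have h6 : z ∈ N.closure (((B : Set α) \ {t}) ∩ ((K₀ : Set α) ∪ (K' : Set α))) := by
        rw [Matroid.Indep.closure_inter_eq_inter_closure]
        · exact ⟨hcon, hK'.2⟩
        · exact hBi.subset (union_subset sdiff_subset hK'B)
      have h7 : ((B : Set α) \ {t}) ∩ ((K₀ : Set α) ∪ (K' : Set α)) ⊆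
          (K₀ : Set α) ∪ ((K'.erase t : Finset α) : Set α) := by
        rintro x ⟨⟨_, hxt⟩, hx | hx⟩
        · exact Or.inl hx
        · right
          rw [Finset.mem_coe, Finset.mem_erase]
          exact ⟨hxt, hx⟩
      have h8 := hmin (K'.erase t) (Finset.mem_filter.2
        ⟨Finset.mem_powerset.2 ((Finset.erase_subset _ _).trans hK'.1),
          N.closure_subset_closure h7 h6⟩)
      rw [Finset.card_erase_of_mem ht] at h8
      have := Finset.card_pos.2 ⟨t, ht⟩
      omega
    · obtain ⟨x⟩ : Nonempty α := by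
        by_contra hcon
        have : ∀ i, rk N (T i : Set α) = 0 := by
          intro i
          have h1 : (T i : Set α) = ∅ := by
            ext y
            exact absurd ⟨y⟩ hcon
          rw [h1, rk_indep N.empty_indep, Set.ncard_empty]
        have h1 := this 0
        rw [hTr] at h1
        omega
      exact ⟨x, x, fun h => absurd h hl⟩
  choose z t hzt using hzt
  obtain ⟨φ, hφ⟩ : ∃ φ : Fin (R (k * A₁.card)) → ℕ, Function.Injective φ ∧ ∀ i, φ i ∈ L := by
    obtain ⟨L', hL', hL'c⟩ := Finset.exists_subset_card_eq hLc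
    exact ⟨fun i => (L'.orderEmbOfFin hL'c) i, (L'.orderEmbOfFin hL'c).injective,
      fun i => hL' (Finset.orderEmbOfFin_mem _ _ _)⟩
  have hsub : (K₀ : Set α) ∪ ⋃ l, (K (φ l) : Set α) ⊆ (B : Set α) := by
    rw [hB, Finset.coe_union]
    refine union_subset_union_right _ ?_
    intro y hy
    rw [mem_iUnion] at hy
    obtain ⟨l, hy⟩ := hy
    rw [Finset.mem_coe, Finset.mem_biUnion]
    exact ⟨φ l, hφ.2 l, hy⟩
  refine ⟨k * A₁.card, K₀, fun l => K (φ l), fun l => z (φ l), fun l => t (φ l), ?_, ?_, ?_, ?_,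
    ?_, ?_, ?_, ?_, ?_, ?_, ?_, ?_, ?_, ?_, ?_⟩
  · have h1 := Finset.card_le_card hA₁
    rw [Finset.card_range] at h1
    have := Nat.mul_le_mul_left k h1
    omega
  · refine (Finset.card_le_card (Finset.coe_subset.1 hJ₀.subset)).trans ?_
    rw [hD₀, mul_comm]
    exact Finset.card_biUnion_le_card_mul _ _ _ (fun i hi => hDc i (hA₁m i hi))
  · intro l
    exact (Finset.card_le_card (hK _ (hφ.2 l)).1).trans (hDc _ (hLm _ (hφ.2 l)))
  · intro x hx
    have h1 := hJ₀.subset (Finset.mem_coe.2 hx)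
    rw [hD₀, Finset.mem_coe, Finset.mem_biUnion] at h1
    obtain ⟨i, hi, h1⟩ := h1
    exact hDT i (hA₁m i hi) x h1
  · intro l x hx
    exact hDT _ (hLm _ (hφ.2 l)) x ((hK _ (hφ.2 l)).1 hx)
  · intro l
    exact hDT _ (hLm _ (hφ.2 l)) _ (hzt _ (hφ.2 l)).1
  · intro l
    exact (hzt _ (hφ.2 l)).2.2.1
  · intro l l' hne
    rw [Finset.disjoint_left]
    intro x hx hx'
    exact hDdisj _ (hLm _ (hφ.2 l)) _ (hLm _ (hφ.2 l')) (fun h => hne (hφ.1 h)) x
      ((hK _ (hφ.2 l)).1 hx) ((hK _ (hφ.2 l')).1 hx')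
  · intro l
    exact (hK _ (hφ.2 l)).2.1
  · intro l l' h
    by_contra hne
    have h1 := (hzt _ (hφ.2 l)).1
    have h2 := (hzt _ (hφ.2 l')).1
    simp only at h
    rw [← h] at h2
    exact hDdisj _ (hLm _ (hφ.2 l)) _ (hLm _ (hφ.2 l')) (fun h => hne (hφ.1 h)) _ h1 h2
  · intro l
    exact hDK₀ _ (hφ.2 l) _ (hzt _ (hφ.2 l)).1
  · intro l l' h
    by_cases hne : l = l'
    · subst hne
      exact (hzt _ (hφ.2 l)).2.1 h
    · exact hDdisj _ (hLm _ (hφ.2 l)) _ (hLm _ (hφ.2 l')) (fun h => hne (hφ.1 h)) _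
        (hzt _ (hφ.2 l)).1 ((hK _ (hφ.2 l')).1 h)
  · exact hBi.subset hsub
  · intro l
    exact (hzt _ (hφ.2 l)).2.2.2.1
  · intro l h
    exact (hzt _ (hφ.2 l)).2.2.2.2 (N.closure_subset_closure (sdiff_subset_sdiff_left hsub) h)

end DA
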