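import Pool.Agent.DA.SetOm
import Pool.Agent.DA.LiftA

/-!
# LIFT+ (page MP_5165fa_co_LIFTPLUS_h54.md): peeling, pure matroid part
-/

open Set BIC BICS
open scoped Matroid

namespace DA

universe u

/-- gadgets over `S` in the set `T`, different elements are far -/
structure Gdg {α : Type*} (M : Matroid α) (S Y T : Set α) (far : α → α → Prop) (k s m : ℕ)
    (F K₀ Ka : Finset α) (K : Fin m → Finset α) (z t : Fin m → α) : Prop where
  FY : (F : Set α) ⊆ Y
  c0 : K₀.card ≤ s
  cK : ∀ l, (K l).card ≤ k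
  mKa : ∀ x, x ∈ Ka ↔ x ∈ K₀ ∨ ∃ l, x ∈ K l
  KaT : (Ka : Set α) ⊆ T
  zT : ∀ l, z l ∈ T
  tK : ∀ l, t l ∈ K l
  dK : ∀ l l', l ≠ l' → Disjoint (K l) (K l')
  d0 : ∀ l, Disjoint K₀ (K l)
  inj : Function.Injective z
  zKa : ∀ l, z l ∉ Ka
  dF : Disjoint F Ka
  rk : rk M (S ∪ ((F : Set α) ∪ (Ka : Set α))) = BIC.rk M S + F.card + Ka.card
  cl : ∀ l, z l ∈ M.closure (S ∪ ((F : Set α) ∪ ((K₀ : Set α) ∪ (K l : Set α))))
  ncl : ∀ l, z l ∉ M.closure (S ∪ ((F : Set α) ∪ ((Ka : Set α) \ {t l})))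
  farK : ∀ x ∈ Ka, ∀ y ∈ Ka, x ≠ y → far x y
  farz : ∀ l l', l ≠ l' → far (z l) (z l')
  farzK : ∀ l, ∀ x ∈ Ka, far (z l) x

section

variable {α : Type u} {M : Matroid α}

/-- a maximal far and independent subset -/
lemma exists_max_far [M.Finite] {S C : Set α} {far : α → α → Prop} (hS : S ⊆ M.E)
    (hC : C ⊆ M.E) (hsymm : ∀ x y, far x y → far y x) :
    ∃ A : Finset α, (A : Set α) ⊆ C ∧ rk M (S ∪ (A : Set α)) = rk M S + A.card ∧
      (∀ x ∈ A, ∀ y ∈ A, x ≠ y → far x y) ∧
      ∀ z ∈ C, (∀ x ∈ A, far z x) → z ∈ M.closure (S ∪ (A : Set α)) := by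
  classical
  obtain ⟨G, hG⟩ : ∃ G : Finset (Finset α), ∀ A, A ∈ G ↔ (A : Set α) ⊆ C ∧
      rk M (S ∪ (A : Set α)) = rk M S + A.card ∧ ∀ x ∈ A, ∀ y ∈ A, x ≠ y → far x y := by
    refine ⟨(M.ground_finite.toFinset.powerset).filter (fun A => (A : Set α) ⊆ C ∧
      rk M (S ∪ (A : Set α)) = rk M S + A.card ∧ ∀ x ∈ A, ∀ y ∈ A, x ≠ y → far x y), ?_⟩
    intro A
    rw [Finset.mem_filter, Finset.mem_powerset]
    refine ⟨fun h => h.2, fun h => ⟨fun x hx => ?_, h⟩⟩
    exact M.ground_finite.mem_toFinset.2 (hC (h.1 hx))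
  obtain ⟨A, hA, hmax⟩ := G.exists_max_image Finset.card ⟨∅, (hG ∅).2 (by simp)⟩
  obtain ⟨h1, h2, h3⟩ := (hG A).1 hA
  refine ⟨A, h1, h2, h3, ?_⟩
  intro z hz hfar
  by_contra hcl
  have hzA : z ∉ A := fun h => hcl (M.subset_closure _ (union_subset hS (h1.trans hC)) (Or.inr h))
  have h4 := rk_insert_notMem (hC hz) hcl
  have h5 : insert z A ∈ G := by
    rw [hG]
    refine ⟨?_, ?_, ?_⟩
    · rw [Finset.coe_insert]
      exact insert_subset hz h1
    · rw [Finset.coe_insert, union_insert, h4, h2, Finset.card_insert_of_notMem hzA]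
      omega
    · intro x hx y hy hne
      rw [Finset.mem_insert] at hx hy
      rcases hx with rfl | hx <;> rcases hy with rfl | hy
      · exact absurd rfl hne
      · exact hfar y hy
      · exact hsymm _ _ (hfar x hx)
      · exact h3 x hx y hy hne
  have h6 := hmax _ h5
  rw [Finset.card_insert_of_notMem hzA] at h6
  omega

/-- **Peeling.** -/
lemma peel_fam [M.Finite] {S C : Set α} {far : α → α → Prop} (hS : S ⊆ M.E)
    (hC : C ⊆ M.E) (hsymm : ∀ x y, far x y → far y x) (j : ℕ) :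
    ∃ T : ℕ → Finset α, (∀ i < j, (T i : Set α) ⊆ C ∧
      rk M (S ∪ (T i : Set α)) = rk M S + (T i).card ∧
      ∀ x ∈ T i, ∀ y ∈ T i, x ≠ y → far x y) ∧
      (∀ i < j, ∀ i' < i, ∀ x ∈ T i, ∀ y ∈ T i', far x y) ∧
      ∀ i < j, ∀ z ∈ C, (∀ i' ≤ i, ∀ x ∈ T i', far z x) → z ∈ M.closure (S ∪ (T i : Set α)) := by
  classical
  induction j with
  | zero => exact ⟨fun _ => ∅, by simp, by simp, by simp⟩
  | succ j ih =>
    obtain ⟨T, h1, h2, h3⟩ := ih
    obtain ⟨A, hA1, hA2, hA3, hA4⟩ := exists_max_far (M := M)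
      (C := {z | z ∈ C ∧ ∀ i < j, ∀ x ∈ T i, far z x}) hS (fun z hz => hC hz.1) hsymm
    refine ⟨fun i => if i < j then T i else A, ?_, ?_, ?_⟩
    · intro i hi
      by_cases hij : i < j
      · simp only [if_pos hij]
        exact h1 i hij
      · simp only [if_neg hij]
        exact ⟨fun x hx => (hA1 hx).1, hA2, hA3⟩
    · intro i hi i' hi' x hx y hy
      have hij' : i' < j := by omega
      simp only [if_pos hij'] at hy
      by_cases hij : i < j
      · simp only [if_pos hij] at hx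
        exact h2 i hij i' hi' x hx y hy
      · simp only [if_neg hij] at hx
        exact (hA1 hx).2 i' hij' y hy
    · intro i hi z hz hfar
      by_cases hij : i < j
      · simp only [if_pos hij]
        refine h3 i hij z hz (fun i' hi' x hx => ?_)
        have := hfar i' hi' x
        simp only [if_pos (show i' < j by omega)] at this
        exact this hx
      · simp only [if_neg hij]
        refine hA4 z ⟨hz, fun i' hi' x hx => ?_⟩ (fun x hx => ?_)
        · have := hfar i' (by omega) x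
          simp only [if_pos hi'] at this
          exact this hx
        · have := hfar i le_rfl x
          simp only [if_neg hij] at this
          exact this hx

/-- Coordinates of `Omega` are killed until the rank is `ρ`. -/
lemma kill_coord [M.Finite] {S Y A : Set α} (hS : S ⊆ M.E) (hY : Y ⊆ M.E) {ρ : ℕ}
    (hAE : A ⊆ M.closure (S ∪ Y)) (h : rk M S + ρ ≤ rk M (S ∪ A)) :
    ∃ F : Finset α, (F : Set α) ⊆ Y ∧ rk M (S ∪ (F : Set α)) = rk M S + F.card ∧
      Y ⊆ M.closure (S ∪ (F : Set α) ∪ A) ∧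
      rk M (S ∪ (F : Set α) ∪ A) = rk M (S ∪ (F : Set α)) + ρ := by
  classical
  have hA : A ⊆ M.E := hAE.trans (M.closure_subset_ground _)
  obtain ⟨G, hG⟩ : ∃ G : Finset (Finset α), ∀ F, F ∈ G ↔ (F : Set α) ⊆ Y ∧
      rk M (S ∪ (F : Set α)) = rk M S + F.card ∧
      rk M (S ∪ (F : Set α)) + ρ ≤ rk M (S ∪ (F : Set α) ∪ A) := by
    refine ⟨(M.ground_finite.toFinset.powerset).filter (fun F => (F : Set α) ⊆ Y ∧
      rk M (S ∪ (F : Set α)) = rk M S + F.card ∧
      rk M (S ∪ (F : Set α)) + ρ ≤ rk M (S ∪ (F : Set α) ∪ A)), ?_⟩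
    intro F
    rw [Finset.mem_filter, Finset.mem_powerset]
    refine ⟨fun h => h.2, fun h => ⟨fun x hx => ?_, h⟩⟩
    exact M.ground_finite.mem_toFinset.2 (hY (h.1 hx))
  obtain ⟨F, hF, hmax⟩ := G.exists_max_image Finset.card ⟨∅, (hG ∅).2 (by simpa using h)⟩
  obtain ⟨h1, h2, h3⟩ := (hG F).1 hF
  have hSF : S ∪ (F : Set α) ⊆ M.E := union_subset hS (h1.trans hY)
  have key : ∀ y ∈ Y, y ∉ M.closure (S ∪ (F : Set α)) → y ∈ M.closure (S ∪ (F : Set α) ∪ A) ∧
      rk M (S ∪ (F : Set α) ∪ A) = rk M (S ∪ (F : Set α)) + ρ := by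
    intro y hy hcl
    have hyF : y ∉ F := fun h => hcl (M.subset_closure _ hSF (Or.inr h))
    have h4 := rk_insert_notMem (hY hy) hcl
    have e1 : S ∪ ((insert y F : Finset α) : Set α) = insert y (S ∪ (F : Set α)) := by
      rw [Finset.coe_insert, union_insert]
    have h5 : rk M (insert y (S ∪ (F : Set α)) ∪ A) < rk M (insert y (S ∪ (F : Set α))) + ρ := by
      by_contra hcon
      push Not at hcon
      have h6 : insert y F ∈ G := by
        rw [hG]
        refine ⟨?_, ?_, ?_⟩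
        · rw [Finset.coe_insert]
          exact insert_subset hy h1
        · rw [e1, h4, h2, Finset.card_insert_of_notMem hyF]
          omega
        · rw [e1]
          exact hcon
      have h7 := hmax _ h6
      rw [Finset.card_insert_of_notMem hyF] at h7
      omega
    rw [h4, insert_union] at h5
    by_cases hy2 : y ∈ M.closure (S ∪ (F : Set α) ∪ A)
    · refine ⟨hy2, ?_⟩
      have h6 := rk_sub_cl (P := M) (union_subset hSF hA) (singleton_subset_iff.2 hy2)
      rw [union_singleton] at h6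
      omega
    · rw [rk_insert_notMem (hY hy) hy2] at h5
      omega
  by_cases hall : ∀ y ∈ Y, y ∈ M.closure (S ∪ (F : Set α))
  · have h4 : S ∪ Y ⊆ M.closure (S ∪ (F : Set α)) :=
      union_subset (subset_union_left.trans (M.subset_closure _ hSF)) hall
    have h5 : A ⊆ M.closure (S ∪ (F : Set α)) :=
      hAE.trans (M.closure_subset_closure_of_subset_closure h4)
    have h6 := rk_sub_cl hSF h5
    refine ⟨F, h1, h2, fun y hy => M.closure_subset_closure subset_union_left (hall y hy), ?_⟩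
    omega
  · push Not at hall
    obtain ⟨y₀, hy₀, hy₀'⟩ := hall
    refine ⟨F, h1, h2, ?_, (key y₀ hy₀ hy₀').2⟩
    intro y hy
    by_cases hcl : y ∈ M.closure (S ∪ (F : Set α))
    · exact M.closure_subset_closure subset_union_left hcl
    · exact (key y hy hcl).1

lemma disj_of_skew [M.Finite] {S : Set α} {A : Finset α} (hS : S ⊆ M.E)
    (h : rk M (S ∪ (A : Set α)) = rk M S + A.card) : ∀ x ∈ A, x ∉ S := by
  classical
  intro x hx hxS
  have h1 : S ∪ (A : Set α) = S ∪ ((A.erase x : Finset α) : Set α) := by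
    ext y
    simp only [mem_union, Finset.mem_coe, Finset.mem_erase]
    constructor
    · rintro (h2 | h2)
      · exact Or.inl h2
      · by_cases hyx : y = x
        · subst hyx
          exact Or.inl hxS
        · exact Or.inr ⟨hyx, h2⟩
    · rintro (h2 | h2)
      · exact Or.inl h2
      · exact Or.inr h2.2
  have h2 := rk_union_le M (X := S) (Y := ((A.erase x : Finset α) : Set α))
    (A.erase x).finite_toSet
  rw [← h1, h, Set.ncard_coe_finset, Finset.card_erase_of_mem hx] at h2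
  have h3 := Finset.card_pos.2 ⟨x, hx⟩
  omega

end

/-- **Peeling and killing of coordinates**: a light set and a small set which spans the rest, or
gadgets.  The size of the light set is bounded by the rank of `T` over `S`. -/
theorem lift_peelT (k : ℕ) (R : ℕ → ℕ) : ∃ ρ q b : ℕ, ∀ {α : Type u}
    (M : Matroid α) [M.Finite] (S Y T : Set α) (far : α → α → Prop),
    (∀ x y, far x y → far y x) → (∀ x ∈ T, ¬ far x x) → S ⊆ M.E → Y ⊆ M.E →
    T ⊆ M.closure (S ∪ Y) →
    HasUniformMinor M k ∨ (∃ I F₀ : Finset α, (I : Set α) ⊆ T ∧ (F₀ : Set α) ⊆ T ∧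
      I.card ≤ q * (rk M (S ∪ T) - rk M S) ∧ F₀.card ≤ ρ ∧
      ∀ z ∈ T, (∀ i ∈ I, far z i) → z ∈ M.closure (S ∪ (F₀ : Set α))) ∨
    ∃ s ≤ b, ∃ (F K₀ Ka : Finset α) (K : Fin (R s) → Finset α) (z t : Fin (R s) → α),
      Gdg M S Y T far k s (R s) F K₀ Ka K z t := by
  classical
  obtain ⟨ρ, q, b, hLA⟩ := liftA.{u} k R
  refine ⟨ρ, q + 1, b, ?_⟩
  intro α M _ S Y T far hsymm hself hS hY hTcl
  by_cases hU : HasUniformMinor M k
  · exact Or.inl hU
  refine Or.inr ?_
  have hTE : T ⊆ M.E := hTcl.trans (M.closure_subset_ground _)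
  obtain ⟨Tf, h1, h2, h3⟩ := peel_fam (M := M) (C := T) hS hTE hsymm (q + 1)
  have hcard : ∀ i < q + 1, (Tf i).card ≤ rk M (S ∪ T) - rk M S := by
    intro i hi
    obtain ⟨h4, h5, _⟩ := h1 i hi
    have h6 : rk M (S ∪ (Tf i : Set α)) ≤ rk M (S ∪ T) :=
      rk_mono M (union_subset_union_right _ h4)
    omega
  by_cases hρ : rk M (S ∪ (Tf q : Set α)) < rk M S + ρ
  · left
    refine ⟨(Finset.range (q + 1)).biUnion Tf, Tf q, ?_, (h1 q (by omega)).1, ?_, ?_, ?_⟩
    · intro x hx
      obtain ⟨i, hi, hxi⟩ := Finset.mem_biUnion.1 (Finset.mem_coe.1 hx)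
      exact (h1 i (Finset.mem_range.1 hi)).1 hxi
    · refine (Finset.card_biUnion_le_card_mul _ _ (rk M (S ∪ T) - rk M S) ?_).trans ?_
      · intro i hi
        exact hcard i (Finset.mem_range.1 hi)
      · rw [Finset.card_range]
    · have := (h1 q (by omega)).2.1
      omega
    · intro z hz hfar
      refine h3 q (by omega) z hz (fun i' hi' x hx => hfar x ?_)
      exact Finset.mem_biUnion.2 ⟨i', Finset.mem_range.2 (by omega), hx⟩
  · right
    push Not at hρ
    have hqT := (h1 q (by omega)).1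
    obtain ⟨F, hFY, hFr, hYcl, hFρ⟩ := kill_coord (M := M) (A := (Tf q : Set α)) hS hY
      (hqT.trans hTcl) hρ
    have hSF : S ∪ (F : Set α) ⊆ M.E := union_subset hS (hFY.trans hY)
    have hFS := disj_of_skew hS hFr
    -- everything is spanned by every family
    have hTq : ∀ i ≤ q, T ⊆ M.closure (S ∪ (F : Set α) ∪ (Tf i : Set α)) := by
      intro i hi
      have hiT := (h1 i (by omega)).1
      have hE : S ∪ (F : Set α) ∪ (Tf i : Set α) ⊆ M.E := union_subset hSF (hiT.trans hTE)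
      have e1 : (Tf q : Set α) ⊆ M.closure (S ∪ (F : Set α) ∪ (Tf i : Set α)) := by
        rcases Nat.lt_or_ge i q with hiq | hiq
        · intro x hx
          have e2 : x ∈ M.closure (S ∪ (Tf i : Set α)) :=
            h3 i (by omega) x (hqT hx) (fun i' hi' y hy =>
              h2 q (by omega) i' (by omega) x hx y hy)
          exact M.closure_subset_closure (union_subset_union_left _ subset_union_left) e2
        · have : i = q := by omega
          subst this
          exact subset_union_right.trans (M.subset_closure _ hE)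
      have e3 : S ∪ (F : Set α) ∪ (Tf q : Set α) ⊆
          M.closure (S ∪ (F : Set α) ∪ (Tf i : Set α)) :=
        union_subset (subset_union_left.trans (M.subset_closure _ hE)) e1
      have e4 : S ∪ Y ⊆ M.closure (S ∪ (F : Set α) ∪ (Tf i : Set α)) := by
        refine union_subset ?_ (hYcl.trans (M.closure_subset_closure_of_subset_closure e3))
        exact (subset_union_left.trans subset_union_left).trans (M.subset_closure _ hE)
      exact hTcl.trans (M.closure_subset_closure_of_subset_closure e4)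
    have hrk : ∀ i ≤ q, rk M (S ∪ (F : Set α) ∪ (Tf i : Set α)) =
        rk M (S ∪ (F : Set α)) + ρ := by
      intro i hi
      rw [← hFρ]
      have hiT := (h1 i (by omega)).1
      refine le_antisymm ?_ ?_
      · rw [← rk_closure (S ∪ (F : Set α) ∪ (Tf q : Set α))]
        refine rk_mono M (union_subset ?_ (hiT.trans (hTq q le_rfl)))
        exact subset_union_left.trans (M.subset_closure _ (union_subset hSF (hqT.trans hTE)))
      · rw [← rk_closure (S ∪ (F : Set α) ∪ (Tf i : Set α))]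
        refine rk_mono M (union_subset ?_ (hqT.trans (hTq i hi)))
        exact subset_union_left.trans (M.subset_closure _ (union_subset hSF (hiT.trans hTE)))
    obtain ⟨N, hN⟩ : ∃ N, N = M ／ (S ∪ (F : Set α)) := ⟨_, rfl⟩
    have hNf : N.Finite := by
      rw [hN]
      exact BQ.fin_contract _
    have hNE : N.E = M.E \ (S ∪ (F : Set α)) := by rw [hN]; rfl
    have hNcl : ∀ Z, N.closure Z = M.closure (Z ∪ (S ∪ (F : Set α))) \ (S ∪ (F : Set α)) := by
      intro Z
      rw [hN, Matroid.contract_closure_eq]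
    have hNU : ¬ HasUniformMinor N k := by
      intro h
      rw [hN] at h
      exact hU (HasUniformMinor_mono h (con_minor M _))
    have hset : ∀ i, ((Tf i \ F : Finset α) : Set α) ∪ (S ∪ (F : Set α)) =
        S ∪ (F : Set α) ∪ (Tf i : Set α) := by
      intro i
      ext x
      simp only [mem_union, Finset.mem_coe, Finset.mem_sdiff]
      tauto
    have hnot : ∀ i < q + 1, ∀ x ∈ Tf i \ F, x ∉ S ∪ (F : Set α) := by
      intro i hi x hx h4
      rw [Finset.mem_sdiff] at hx
      rcases h4 with h4 | h4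
      · exact disj_of_skew hS (h1 i hi).2.1 x hx.1 h4
      · exact hx.2 h4
    have hTN : ∀ i < q + 1, ((Tf i \ F : Finset α) : Set α) ⊆ N.E := by
      intro i hi x hx
      rw [hNE]
      exact ⟨hTE ((h1 i hi).1 (Finset.mem_sdiff.1 (Finset.mem_coe.1 hx)).1), hnot i hi x hx⟩
    have hne : ∀ i < q + 1, ∀ j < q + 1, ∀ x ∈ Tf i, ∀ y ∈ Tf j, x ≠ y → far x y := by
      intro i hi j hj x hx y hy hxy
      rcases lt_trichotomy i j with hij | hij | hij
      · exact hsymm _ _ (h2 j hj i hij y hy x hx)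
      · subst hij
        exact (h1 i hi).2.2 x hx y hy hxy
      · exact h2 i hi j hij x hx y hy
    obtain ⟨s, K₀, K, z, t, hs, g1, g2, g3, g3', g3'', g4, g5, g6', g7, g8, g9, g10, g11, g12⟩ :=
      hLA N hNU (fun i : Fin q => Tf i \ F) (fun i => hTN i (by omega)) (by
        intro i j x hx
        rw [hNcl, hset]
        refine ⟨hTq i (by omega) ((h1 j (by omega)).1 ?_), hnot j (by omega) x hx⟩
        exact (Finset.mem_sdiff.1 (Finset.mem_coe.1 hx)).1) (by
        intro i
        have e1 := BQ.rk_con (M := M) hSF (X := ((Tf i \ F : Finset α) : Set α)) (by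
          rw [← hNE]
          exact hTN i (by omega))
        rw [← hN, hset, hrk i (by omega)] at e1
        omega) (by
        intro i j hij
        rw [Finset.disjoint_left]
        intro x hx hx'
        rw [Finset.mem_sdiff] at hx hx'
        have hij' : (i : ℕ) ≠ j := fun h => hij (Fin.ext h)
        have hxT := (h1 i (by omega)).1 hx.1
        rcases Nat.lt_or_gt_of_ne hij' with h4 | h4
        · exact hself x hxT (h2 j (by omega) i h4 x hx'.1 x hx.1)
        · exact hself x hxT (h2 i (by omega) j h4 x hx.1 x hx'.1))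
    have g6 : ∀ l, Disjoint K₀ (K l) := fun l => (g6' l).symm
    obtain ⟨Ka, hKa⟩ : ∃ Ka : Finset α, Ka = K₀ ∪ Finset.univ.biUnion K := ⟨_, rfl⟩
    have hmKa : ∀ x, x ∈ Ka ↔ x ∈ K₀ ∨ ∃ l, x ∈ K l := by
      intro x
      rw [hKa]
      simp
    have hcKa : (Ka : Set α) = (K₀ : Set α) ∪ ⋃ l, (K l : Set α) := by
      ext x
      simp only [Finset.mem_coe, hmKa, mem_union, mem_iUnion]
    have hin : ∀ x, (x ∈ Ka ∨ ∃ l, z l = x) → ∃ i < q, x ∈ Tf i \ F := by
      intro x hx
      obtain ⟨i, hi⟩ : ∃ i : Fin q, x ∈ Tf i \ F := by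
        rcases hx with hx | ⟨l, rfl⟩
        · rcases (hmKa x).1 hx with h4 | ⟨l, h4⟩
          · exact g3 x h4
          · exact g3' l x h4
        · exact g3'' l
      exact ⟨i, i.2, hi⟩
    have hinT : ∀ x, (x ∈ Ka ∨ ∃ l, z l = x) → x ∈ T := by
      intro x hx
      obtain ⟨i, hi, hxi⟩ := hin x hx
      exact (h1 i (by omega)).1 (Finset.mem_sdiff.1 hxi).1
    have hfar : ∀ x y, (x ∈ Ka ∨ ∃ l, z l = x) → (y ∈ Ka ∨ ∃ l, z l = y) → x ≠ y →
        far x y := by
      intro x y hx hy hxy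
      obtain ⟨i, hi, hxi⟩ := hin x hx
      obtain ⟨j, hj, hyj⟩ := hin y hy
      exact hne i (by omega) j (by omega) x (Finset.mem_sdiff.1 hxi).1 y
        (Finset.mem_sdiff.1 hyj).1 hxy
    have hzKa : ∀ l, z l ∉ Ka := by
      intro l hl
      rcases (hmKa _).1 hl with h4 | ⟨l', h4⟩
      · exact g8 l h4
      · exact g9 l l' h4
    have hnSF : ∀ x, (x ∈ Ka ∨ ∃ l, z l = x) → x ∉ S ∪ (F : Set α) := by
      intro x hx
      obtain ⟨i, hi, hxi⟩ := hin x hx
      exact hnot i (by omega) x hxi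
    have hKaE : (Ka : Set α) ⊆ M.E \ (S ∪ (F : Set α)) := by
      intro x hx
      exact ⟨hTE (hinT x (Or.inl hx)), hnSF x (Or.inl hx)⟩
    refine ⟨s, hs, F, K₀, Ka, K, z, t, hFY, g1, g2, hmKa, fun x hx => hinT x (Or.inl hx),
      fun l => hinT _ (Or.inr ⟨l, rfl⟩), g4, g5, g6, g7, hzKa, ?_, ?_, ?_, ?_, ?_, ?_, ?_⟩
    · rw [Finset.disjoint_right]
      intro x hx hxF
      exact hnSF x (Or.inl hx) (Or.inr hxF)
    · have e1 := BQ.rk_con (M := M) hSF (X := (Ka : Set α)) hKaE
      rw [← hN, hcKa, rk_indep g10, ← hcKa, Set.ncard_coe_finset, hFr] at e1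
      rw [show S ∪ ((F : Set α) ∪ (Ka : Set α)) = (Ka : Set α) ∪ (S ∪ (F : Set α)) by
        rw [← union_assoc, union_comm], ← e1]
      omega
    · intro l
      have e1 := g11 l
      rw [hNcl] at e1
      rw [show S ∪ ((F : Set α) ∪ ((K₀ : Set α) ∪ (K l : Set α))) =
        (K₀ : Set α) ∪ (K l : Set α) ∪ (S ∪ (F : Set α)) by
          rw [← union_assoc, union_comm]]
      exact e1.1
    · intro l h4
      refine g12 l ?_
      rw [hNcl, ← hcKa]
      refine ⟨?_, hnSF _ (Or.inr ⟨l, rfl⟩)⟩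
      rw [show S ∪ ((F : Set α) ∪ ((Ka : Set α) \ {t l})) =
        ((Ka : Set α) \ {t l}) ∪ (S ∪ (F : Set α)) by
          rw [← union_assoc, union_comm]] at h4
      exact h4
    · intro x hx y hy hxy
      exact hfar x y (Or.inl hx) (Or.inl hy) hxy
    · intro l l' hll
      exact hfar _ _ (Or.inr ⟨l, rfl⟩) (Or.inr ⟨l', rfl⟩) (fun h => hll (g7 h))
    · intro l x hx
      exact hfar _ _ (Or.inr ⟨l, rfl⟩) (Or.inl hx) (fun h => hzKa l (h ▸ hx))

/-- The same with the rank of `Y`. -/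
theorem lift_peel (k : ℕ) (R : ℕ → ℕ) : ∃ ρ q b : ℕ, ∀ {α : Type u}
    (M : Matroid α) [M.Finite] (S Y T : Set α) (far : α → α → Prop),
    (∀ x y, far x y → far y x) → (∀ x ∈ T, ¬ far x x) → S ⊆ M.E → Y ⊆ M.E →
    T ⊆ M.closure (S ∪ Y) →
    HasUniformMinor M k ∨ (∃ I F₀ : Finset α, (I : Set α) ⊆ T ∧ (F₀ : Set α) ⊆ T ∧
      I.card ≤ q * (rk M (S ∪ Y) - rk M S) ∧ F₀.card ≤ ρ ∧
      ∀ z ∈ T, (∀ i ∈ I, far z i) → z ∈ M.closure (S ∪ (F₀ : Set α))) ∨
    ∃ s ≤ b, ∃ (F K₀ Ka : Finset α) (K : Fin (R s) → Finset α) (z t : Fin (R s) → α),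
      Gdg M S Y T far k s (R s) F K₀ Ka K z t := by
  obtain ⟨ρ, q, b, h⟩ := lift_peelT.{u} k R
  refine ⟨ρ, q, b, ?_⟩
  intro α M _ S Y T far hsymm hself hS hY hTcl
  rcases h M S Y T far hsymm hself hS hY hTcl with h1 | ⟨I, F₀, h1, h2, h3, h4⟩ | h1
  · exact Or.inl h1
  · refine Or.inr (Or.inl ⟨I, F₀, h1, h2, h3.trans (Nat.mul_le_mul_left _ ?_), h4⟩)
    have h5 : rk M (S ∪ T) ≤ rk M (S ∪ Y) := by
      rw [← rk_closure (S ∪ Y)]
      refine rk_mono M (union_subset ?_ hTcl)
      exact subset_union_left.trans (M.subset_closure _ (union_subset hS hY))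
    omega
  · exact Or.inr (Or.inr h1)

end DA
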