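import Pool.Agent.DA.WQA

/-!
# Row WQ: from the brick wall to a plain rectangle (the theorem)
-/

open Set BIC BICS
open scoped Matroid

namespace DA

open Gad

universe u

variable {w i a : ℕ} {K : Finset (ℕ × ℕ)} {τ : ℕ × ℕ → ℕ × ℕ} {miss : Set (Sym2 (ℕ × ℕ))}

/-- the kept elements -/
def kep {α : Type*} (S : Set α) (ends : α → Sym2 (ℕ × ℕ)) (i a : ℕ) (K : Finset (ℕ × ℕ)) :
    Set α :=
  {e | e ∈ S ∧ ∃ p q : ℕ × ℕ, ends e = s(p, q) ∧ pw i p ∉ K ∧ pw i q ∉ K ∧ i ≤ p.1 ∧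
    p.1 < i + 2 * a ∧ i ≤ q.1 ∧ q.1 < i + 2 * a ∧ pw i p ≠ pw i q}

/-- normal form of the kept elements -/
lemma kep_form {α : Type*} {S : Set α} {ends : α → Sym2 (ℕ × ℕ)} (h : Dt w i a K τ miss)
    (hW : WallE S ends w miss) {e : α} (he : e ∈ kep S ends i a K) :
    (∃ m z, ends e = s((2 * m + i + 1, z), (2 * m + i + 2, z)) ∧ m + 1 < a ∧ z ≤ w ∧
      (m, z) ∉ K ∧ (m + 1, z) ∉ K) ∨
    (∃ x z, ends e = s((x, z), (x, z + 1)) ∧ (x + z) % 2 = 0 ∧ i ≤ x ∧ x < i + 2 * a ∧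
      z + 1 ≤ w ∧ ((x - i) / 2, z) ∉ K ∧ ((x - i) / 2, z + 1) ∉ K) := by
  obtain ⟨heS, ⟨p1, p2⟩, ⟨q1, q2⟩, hpq, hp, hq, g1, g2, g3, g4, g5⟩ := he
  obtain ⟨⟨x1, x2⟩, ⟨y1, y2⟩, hxy, hadj, hx, hy⟩ := hW.mem e heS
  have hadj2 : wadj (p1, p2) (q1, q2) ∧ p1 ≤ w ∧ p2 ≤ w ∧ q1 ≤ w ∧ q2 ≤ w := by
    rw [mem_wA] at hx hy
    rw [hpq, Sym2.eq_iff, Prod.mk.injEq, Prod.mk.injEq, Prod.mk.injEq, Prod.mk.injEq] at hxy
    unfold wadj at hadj ⊢
    dsimp only at hadj ⊢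
    omega
  obtain ⟨n1, n2, n3, n4, n5⟩ := h.num
  have ep : pw i (p1, p2) = ((p1 - i) / 2, p2) := rfl
  have eq : pw i (q1, q2) = ((q1 - i) / 2, q2) := rfl
  rw [ep, eq] at g5
  rw [ep] at hp
  rw [eq] at hq
  rw [ne_eq, Prod.mk.injEq] at g5
  simp only at g1 g2 g3 g4
  unfold wadj at hadj2
  dsimp only at hadj2
  obtain ⟨h1, h2⟩ := hadj2
  rcases h1 with ⟨h3, h4 | h4⟩ | ⟨h3, ⟨h4, h5⟩ | ⟨h4, h5⟩⟩
  · left
    refine ⟨(p1 - i) / 2, p2, ?_, by omega, by omega, hp, ?_⟩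
    · rw [hpq]
      congr 1
      · rw [Prod.mk.injEq]; omega
      · rw [Prod.mk.injEq]; omega
    · rw [show (p1 - i) / 2 + 1 = (q1 - i) / 2 by omega, h3]
      exact hq
  · left
    refine ⟨(q1 - i) / 2, q2, ?_, by omega, by omega, hq, ?_⟩
    · rw [hpq, Sym2.eq_swap]
      congr 1
      · rw [Prod.mk.injEq]; omega
      · rw [Prod.mk.injEq]; omega
    · rw [show (q1 - i) / 2 + 1 = (p1 - i) / 2 by omega, ← h3]
      exact hp
  · right
    subst h3
    subst h4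
    exact ⟨p1, p2, hpq, h5, g1, g2, by omega, hp, hq⟩
  · right
    subst h3
    subst h4
    exact ⟨p1, q2, by rw [hpq, Sym2.eq_swap], h5, g1, g2, by omega, hq, hp⟩

lemma map_hor {m z : ℕ} : (s((2 * m + i + 1, z), (2 * m + i + 2, z)) : Sym2 (ℕ × ℕ)).map (pw i) =
    s((m, z), (m + 1, z)) := by
  rw [Sym2.map_mk]
  unfold pw
  dsimp only
  rw [show (2 * m + i + 1 - i) / 2 = m by omega, show (2 * m + i + 2 - i) / 2 = m + 1 by omega]

lemma map_ver {x z : ℕ} : (s((x, z), (x, z + 1)) : Sym2 (ℕ × ℕ)).map (pw i) =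
    s(((x - i) / 2, z), ((x - i) / 2, z + 1)) := by
  rw [Sym2.map_mk]
  rfl

/-- the quotient is a plain rectangle without `K` -/
lemma kep_grd {α : Type*} {S : Set α} {ends : α → Sym2 (ℕ × ℕ)} (h : Dt w i a K τ miss)
    (hW : WallE S ends w miss) :
    CWL.GrdU (kep S ends i a K) (fun e => (ends e).map (pw i))
      (rect 0 0 a (w + 1) \ (K : Set (ℕ × ℕ))) := by
  obtain ⟨n1, n2, n3, n4, n5⟩ := h.num
  refine ⟨?_, ?_, ?_⟩
  · intro e he e' he' hee
    simp only at hee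
    apply hW.inj he.1 he'.1
    rcases kep_form h hW he with ⟨m, z, g1, g2⟩ | ⟨x, z, g1, g2, g3, g4, g5⟩ <;>
      rcases kep_form h hW he' with ⟨m', z', g1', g2'⟩ | ⟨x', z', g1', g2', g3', g4', g5'⟩
    · rw [g1, g1', map_hor, map_hor, Sym2.eq_iff] at hee
      simp only [Prod.mk.injEq] at hee
      have e1 : m = m' := by omega
      have e2 : z = z' := by omega
      rw [g1, g1', e1, e2]
    · rw [g1, g1', map_hor, map_ver, Sym2.eq_iff] at hee
      simp only [Prod.mk.injEq] at hee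
      omega
    · rw [g1, g1', map_hor, map_ver, Sym2.eq_iff] at hee
      simp only [Prod.mk.injEq] at hee
      omega
    · rw [g1, g1', map_ver, map_ver, Sym2.eq_iff] at hee
      simp only [Prod.mk.injEq] at hee
      have e1 : x = x' := by omega
      have e2 : z = z' := by omega
      rw [g1, g1', e1, e2]
  · intro e he
    rcases kep_form h hW he with ⟨m, z, g1, g2, g3, g4, g5⟩ | ⟨x, z, g1, g2, g3, g4, g5, g6, g7⟩
    · refine ⟨(m, z), (m + 1, z), by rw [g1, map_hor], ?_, ⟨?_, g4⟩, ⟨?_, g5⟩⟩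
      · unfold adj; dsimp only; omega
      · rw [Gad.mem_rct]; dsimp only; omega
      · rw [Gad.mem_rct]; dsimp only; omega
    · refine ⟨((x - i) / 2, z), ((x - i) / 2, z + 1), by rw [g1, map_ver], ?_,
        ⟨?_, g6⟩, ⟨?_, g7⟩⟩
      · unfold adj; dsimp only; omega
      · rw [Gad.mem_rct]; dsimp only; omega
      · rw [Gad.mem_rct]; dsimp only; omega
  · have hor : ∀ m z, m + 1 < a → z ≤ w → (m, z) ∉ K → (m + 1, z) ∉ K →
        ∃ e ∈ kep S ends i a K, (ends e).map (pw i) = s((m, z), (m + 1, z)) := by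
      intro m z h1 h2 h3 h4
      have k1 : pw i (2 * m + i + 1, z) ∉ K := by
        have : pw i (2 * m + i + 1, z) = ((2 * m + i + 1 - i) / 2, z) := rfl
        rw [this, show (2 * m + i + 1 - i) / 2 = m by omega]
        exact h3
      have k2 : pw i (2 * m + i + 2, z) ∉ K := by
        have : pw i (2 * m + i + 2, z) = ((2 * m + i + 2 - i) / 2, z) := rfl
        rw [this, show (2 * m + i + 2 - i) / 2 = m + 1 by omega]
        exact h4
      obtain ⟨e, he, hee⟩ := hW.surj (2 * m + i + 1, z) (2 * m + i + 2, z)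
        (by unfold wadj; dsimp only; omega) (by rw [mem_wA]; omega) (by rw [mem_wA]; omega)
        (fun hm => h.mis' hm k1 k2)
      refine ⟨e, ⟨he, _, _, hee, k1, k2, by dsimp only; omega, by dsimp only; omega,
        by dsimp only; omega, by dsimp only; omega, ?_⟩, by rw [hee, map_hor]⟩
      unfold pw
      rw [ne_eq, Prod.mk.injEq]
      dsimp only
      omega
    have ver : ∀ m z, m < a → z + 1 ≤ w → (m, z) ∉ K → (m, z + 1) ∉ K →
        ∃ e ∈ kep S ends i a K, (ends e).map (pw i) = s((m, z), (m, z + 1)) := by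
      intro m z h1 h2 h3 h4
      obtain ⟨x, hx, hx2⟩ : ∃ x, (x + z) % 2 = 0 ∧ (x = 2 * m + i ∨ x = 2 * m + i + 1) := by
        rcases Nat.mod_two_eq_zero_or_one (2 * m + i + z) with h5 | h5
        · exact ⟨2 * m + i, h5, Or.inl rfl⟩
        · exact ⟨2 * m + i + 1, by omega, Or.inr rfl⟩
      have hxm : (x - i) / 2 = m := by omega
      have k1 : pw i (x, z) ∉ K := by
        have : pw i (x, z) = ((x - i) / 2, z) := rfl
        rw [this, hxm]
        exact h3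
      have k2 : pw i (x, z + 1) ∉ K := by
        have : pw i (x, z + 1) = ((x - i) / 2, z + 1) := rfl
        rw [this, hxm]
        exact h4
      obtain ⟨e, he, hee⟩ := hW.surj (x, z) (x, z + 1)
        (by unfold wadj; dsimp only; omega) (by rw [mem_wA]; omega) (by rw [mem_wA]; omega)
        (fun hm => h.mis' hm k1 k2)
      refine ⟨e, ⟨he, _, _, hee, k1, k2, by dsimp only; omega, by dsimp only; omega,
        by dsimp only; omega, by dsimp only; omega, ?_⟩, by rw [hee, map_ver, hxm]⟩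
      unfold pw
      rw [ne_eq, Prod.mk.injEq]
      dsimp only
      omega
    rintro ⟨p1, p2⟩ ⟨q1, q2⟩ hpq ⟨hp, hpK⟩ ⟨hq, hqK⟩
    rw [Gad.mem_rct] at hp hq
    dsimp only at hp hq
    rw [Finset.mem_coe] at hpK hqK
    rcases hpq with ⟨h1, h2 | h2⟩ | ⟨h1, h2 | h2⟩
    · dsimp only at h1 h2
      subst h1 h2
      exact ver p1 p2 (by omega) (by omega) hpK hqK
    · dsimp only at h1 h2
      subst h1 h2
      obtain ⟨e, he, hee⟩ := ver p1 q2 (by omega) (by omega) hqK hpK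
      exact ⟨e, he, by rw [Sym2.eq_swap]; exact hee⟩
    · dsimp only at h1 h2
      subst h1 h2
      exact hor p1 p2 (by omega) (by omega) hpK hqK
    · dsimp only at h1 h2
      subst h1 h2
      obtain ⟨e, he, hee⟩ := hor q1 p2 (by omega) (by omega) hqK hpK
      exact ⟨e, he, by rw [Sym2.eq_swap]; exact hee⟩

/-- the star forest -/
lemma wq_star {α : Type*} {S : Set α} {ends : α → Sym2 (ℕ × ℕ)} (h : Dt w i a K τ miss)
    (hW : WallE S ends w miss) : ∃ ζ : ℕ × ℕ → α,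
    Star S ends (rect 0 0 (w + 1) (w + 1)) (rw' i a K τ) (cw' i K τ) ζ := by
  classical
  obtain ⟨n1, n2, n3, n4, n5⟩ := h.num
  obtain ⟨e₀, -, -⟩ := (kep_grd h hW).surj (0, 0) (1, 0) (by unfold adj; dsimp only; omega)
    ⟨by rw [Gad.mem_rct]; dsimp only; omega, fun h' => by
      have := h.deep _ _ (Finset.mem_coe.1 h')
      omega⟩ ⟨by rw [Gad.mem_rct]; dsimp only; omega, fun h' => by
      have := h.deep _ _ (Finset.mem_coe.1 h')
      omega⟩
  have hex : ∀ v : ℕ × ℕ, ∃ e : α, v ∈ rect 0 0 (w + 1) (w + 1) →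
      v ≠ cw' i K τ (rw' i a K τ v) → e ∈ S ∧ ends e = s(v, cw' i K τ (rw' i a K τ v)) := by
    intro v
    by_cases hv : v ∈ rect 0 0 (w + 1) (w + 1) ∧ v ≠ cw' i K τ (rw' i a K τ v)
    · obtain ⟨k1, k2, k3⟩ := h.star v hv.1
      obtain ⟨k4, k5⟩ := k3 hv.2
      obtain ⟨e, he, hee⟩ := hW.surj v _ k4 hv.1 k1 k5
      exact ⟨e, fun _ _ => ⟨he, hee⟩⟩
    · exact ⟨e₀, fun k1 k2 => absurd ⟨k1, k2⟩ hv⟩
  choose ζ hζ using hex
  exact ⟨ζ, fun v hv => (h.star v hv).1, fun v hv => (h.star v hv).2.1,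
    fun v hv hvc => (hζ v hv hvc).1, fun v hv hvc => (hζ v hv hvc).2⟩

lemma rw_reg (h : Dt w i a K τ miss) {v : ℕ × ℕ} (h1 : pw i v ∉ K) (h2 : i ≤ v.1)
    (h3 : v.1 < i + 2 * a) : rw' i a K τ v = pw i v := by
  obtain ⟨x, z⟩ := v
  obtain ⟨n1, n2, n3, n4, n5⟩ := h.num
  rw [rw_none h1]
  unfold pw
  dsimp only at h2 h3 ⊢
  rw [Prod.mk.injEq]
  omega

lemma kep_rw {α : Type*} {S : Set α} {ends : α → Sym2 (ℕ × ℕ)} (h : Dt w i a K τ miss) :
    ∀ e ∈ kep S ends i a K, (ends e).map (pw i) = (ends e).map (rw' i a K τ) := by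
  rintro e ⟨he, p, q, hpq, g1, g2, g3, g4, g5, g6, g7⟩
  rw [hpq, Sym2.map_mk, Sym2.map_mk, rw_reg h g1 g3 g4, rw_reg h g2 g5 g6]

lemma kep_sub {α : Type*} {S : Set α} {ends : α → Sym2 (ℕ × ℕ)} (h : Dt w i a K τ miss)
    {ζ : ℕ × ℕ → α} (hs : Star S ends (rect 0 0 (w + 1) (w + 1)) (rw' i a K τ) (cw' i K τ) ζ) :
    kep S ends i a K ⊆
      S \ (ζ '' lvs (rect 0 0 (w + 1) (w + 1)) (rw' i a K τ) (cw' i K τ)) := by
  rintro e ⟨he, p, q, hpq, g1, g2, g3, g4, g5, g6, g7⟩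
  refine ⟨he, ?_⟩
  rintro ⟨v, ⟨hv, hvc⟩, rfl⟩
  have h1 := hs.ζe v hv hvc
  have h2 := hs.cρ v hv
  rw [hpq, Sym2.eq_iff] at h1
  rw [← rw_reg h g1 g3 g4, ← rw_reg h g2 g5 g6] at g7
  rcases h1 with ⟨h3, h4⟩ | ⟨h3, h4⟩
  · rw [← h4, ← h3] at h2
    exact g7 h2.symm
  · rw [← h3, ← h4] at h2
    exact g7 h2

lemma rw_image (h : Dt w i a K τ miss) : (rw' i a K τ) '' (rect 0 0 (w + 1) (w + 1)) =
    rect 0 0 a (w + 1) \ (K : Set (ℕ × ℕ)) := by
  obtain ⟨n1, n2, n3, n4, n5⟩ := h.num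
  ext ⟨m, z⟩
  constructor
  · rintro ⟨⟨x, y⟩, hv, he⟩
    rw [mem_wA] at hv
    by_cases hk : pw i (x, y) ∈ K
    · rw [rw_half hk] at he
      have h1 := h.notK _ hk
      rw [he] at h1
      obtain ⟨m', tx, tz, h3, h4, h5, h6⟩ := h.half x y hk
      rw [h3] at he
      have h7 : ((tx - i) / 2, tz) = (m, z) := he
      rw [Prod.mk.injEq] at h7
      have h8 := h.deep _ _ h4
      refine ⟨by rw [Gad.mem_rct]; dsimp only; omega, h1⟩
    · rw [rw_none hk, Prod.mk.injEq] at he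
      refine ⟨by rw [Gad.mem_rct]; dsimp only; omega, fun h' => hk ?_⟩
      have h1 := h.deep _ _ (Finset.mem_coe.1 h')
      have h2 : pw i (x, y) = ((x - i) / 2, y) := rfl
      rw [h2, show (x - i) / 2 = m by omega, he.2]
      exact h'
  · rintro ⟨hr, hk⟩
    rw [Gad.mem_rct] at hr
    dsimp only at hr
    refine ⟨(2 * m + i, z), by rw [mem_wA]; omega, ?_⟩
    have h1 : pw i (2 * m + i, z) = (m, z) := by
      unfold pw
      rw [Prod.mk.injEq]
      dsimp only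
      omega
    rw [rw_reg h (by rw [h1]; exact hk) (by dsimp only; omega) (by dsimp only; omega), h1]

lemma rw_class (h : Dt w i a K τ miss) {m z : ℕ} (h1 : 10 ≤ m) (h2 : m + 10 ≤ a)
    (h3 : z ≤ w) (v : ℕ × ℕ) : (v ∈ rect 0 0 (w + 1) (w + 1) ∧ rw' i a K τ v = (m, z)) ↔
    v ∈ blob i (K : Set (ℕ × ℕ)) τ (m, z) := by
  obtain ⟨n1, n2, n3, n4, n5⟩ := h.num
  obtain ⟨x, y⟩ := v
  constructor
  · rintro ⟨hv, he⟩
    by_cases hk : pw i (x, y) ∈ K
    · rw [rw_half hk] at he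
      exact Or.inr ⟨hk, he⟩
    · rw [rw_none hk, Prod.mk.injEq] at he
      refine Or.inl ⟨hk, ?_⟩
      unfold pw
      rw [Prod.mk.injEq]
      dsimp only
      omega
  · rintro (⟨hk, he⟩ | ⟨hk, he⟩)
    · have he' : ((x - i) / 2, y) = (m, z) := he
      rw [Prod.mk.injEq] at he'
      refine ⟨by rw [mem_wA]; omega, ?_⟩
      rw [rw_none (fun h' => hk (Finset.mem_coe.2 h')), Prod.mk.injEq]
      omega
    · rw [Finset.mem_coe] at hk
      obtain ⟨m', tx, tz, h4, h5, h6, h7⟩ := h.half x y hk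
      have h8 := h.deep _ _ h5
      exact ⟨by rw [mem_wA]; omega, by rw [rw_half hk]; exact he⟩

lemma blob_ins {α : Type*} {S : Set α} {ends : α → Sym2 (ℕ × ℕ)} (h : Dt w i a K τ miss)
    (hW : WallE S ends w miss) {ζ : ℕ × ℕ → α}
    (hs : Star S ends (rect 0 0 (w + 1) (w + 1)) (rw' i a K τ) (cw' i K τ) ζ)
    {m z : ℕ} (h1 : 10 ≤ m) (h2 : m + 10 ≤ a) (h3 : z ≤ w) :
    ins S ends (blob i (K : Set (ℕ × ℕ)) τ (m, z)) =
      ζ '' {v | v ∈ lvs (rect 0 0 (w + 1) (w + 1)) (rw' i a K τ) (cw' i K τ) ∧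
        rw' i a K τ v = (m, z)} := by
  obtain ⟨n1, n2, n3, n4, n5⟩ := h.num
  ext e
  constructor
  · rintro ⟨he, hee⟩
    obtain ⟨p, q, hpq, hadj, hp, hq⟩ := hW.mem e he
    have hpb := hee p (by rw [hpq]; simp)
    have hqb := hee q (by rw [hpq]; simp)
    have hp' := (rw_class h h1 h2 h3 p).2 hpb
    have hq' := (rw_class h h1 h2 h3 q).2 hqb
    have hne : p ≠ q := by
      rintro rfl
      unfold wadj at hadj
      omega
    have key : p = cw' i K τ (m, z) ∨ q = cw' i K τ (m, z) := by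
      obtain ⟨p1, p2⟩ := p
      obtain ⟨q1, q2⟩ := q
      rw [ne_eq, Prod.mk.injEq] at hne
      unfold wadj at hadj
      dsimp only at hadj
      by_cases hat : ∃ v, pw i v ∈ K ∧ pw i (τ v) = (m, z)
      · obtain ⟨⟨x', z'⟩, hk', hb'⟩ := hat
        have h7 := h.cw_half hk'
        rw [hb'] at h7
        obtain ⟨m', tx, tz, g1, g2, g3, g4⟩ := h.half x' z' hk'
        rw [h7, g1]
        rw [g1] at hb'
        have h8 : ((tx - i) / 2, tz) = (m, z) := hb'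
        rw [Prod.mk.injEq] at h8
        have hdp := h.deep _ _ g2
        have t1 : ∀ r1 r2 : ℕ, (r1, r2) ∈ blob i (K : Set (ℕ × ℕ)) τ (m, z) →
            ((r1 - i) / 2 = m ∧ r2 = z) ∨ (r1 = x' ∧ r2 = z') := by
          intro r1 r2 hr
          rcases hr with ⟨_, hr⟩ | ⟨hk, hr⟩
          · left
            have hr' : ((r1 - i) / 2, r2) = (m, z) := hr
            rw [Prod.mk.injEq] at hr'
            exact hr'
          · right
            have := h.uniq (r1, r2) (x', z') hk hk' (by rw [hr, g1, hb'])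
            rw [Prod.mk.injEq] at this
            exact this
        have t2 := t1 p1 p2 hpb
        have t3 := t1 q1 q2 hqb
        rw [Prod.mk.injEq, Prod.mk.injEq]
        omega
      · have t1 : ∀ r1 r2 : ℕ, (r1, r2) ∈ blob i (K : Set (ℕ × ℕ)) τ (m, z) →
            ((r1 - i) / 2 = m ∧ r2 = z) := by
          intro r1 r2 hr
          rcases hr with ⟨_, hr⟩ | ⟨hk, hr⟩
          · have hr' : ((r1 - i) / 2, r2) = (m, z) := hr
            rw [Prod.mk.injEq] at hr'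
            exact hr'
          · exact absurd ⟨(r1, r2), hk, hr⟩ hat
        have t2 := t1 p1 p2 hpb
        have t3 := t1 q1 q2 hqb
        rcases cw_none hat with ⟨g1, g2⟩ | ⟨g1, g2⟩
        · omega
        · rw [g2, Prod.mk.injEq, Prod.mk.injEq]
          omega
    rcases key with k | k
    · have hqc : q ≠ cw' i K τ (rw' i a K τ q) := by
        rw [hq'.2, ← k]
        exact fun hh => hne hh.symm
      refine ⟨q, ⟨⟨hq, hqc⟩, hq'.2⟩, ?_⟩
      apply hW.inj (hs.ζS q hq hqc) he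
      rw [hs.ζe q hq hqc, hq'.2, ← k, hpq, Sym2.eq_swap]
    · have hpc : p ≠ cw' i K τ (rw' i a K τ p) := by
        rw [hp'.2, ← k]
        exact hne
      refine ⟨p, ⟨⟨hp, hpc⟩, hp'.2⟩, ?_⟩
      apply hW.inj (hs.ζS p hp hpc) he
      rw [hs.ζe p hp hpc, hp'.2, ← k, hpq]
  · rintro ⟨v, ⟨⟨hv, hvc⟩, hvb⟩, rfl⟩
    refine ⟨hs.ζS v hv hvc, fun u hu => ?_⟩
    rw [hs.ζe v hv hvc, Sym2.mem_iff] at hu
    rw [← rw_class h h1 h2 h3]
    rcases hu with rfl | rfl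
    · exact ⟨hv, hvb⟩
    · exact ⟨hs.cA v hv, by rw [hs.cρ v hv]; exact hvb⟩

/-- **Row WQ.** -/
theorem wquotX : WQuotX.{u} := by
  classical
  intro α P _ S ends w i K τ miss hi hw hB hW hT hKd hsp hmiss
  obtain ⟨a, ha⟩ : ∃ a, a = (w + 1 - i) / 2 := ⟨_, rfl⟩
  rw [← ha] at hKd ⊢
  have hD : Dt w i a K τ miss := by
    refine ⟨hi, hw, ha, hT, ?_, ?_, hmiss⟩
    · intro m z h
      have := hKd _ h
      unfold DeepR at this
      dsimp only at this
      omega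
    · intro m z m' z' h h'
      by_cases he : (m, z) = (m', z')
      · rw [Prod.mk.injEq] at he
        exact Or.inl he
      · have := hsp _ h _ h' he
        unfold sd at this
        dsimp only at this
        omega
  obtain ⟨n1, n2, n3, n4, n5⟩ := hD.num
  obtain ⟨ζ, hs⟩ := wq_star hD hW
  set A : Set (ℕ × ℕ) := rect 0 0 (w + 1) (w + 1) with hA
  set ρ := rw' i a K τ with hρ
  set c := cw' i K τ with hc
  have hAf : A.Finite := rect_finite _ _ _ _
  have hSA : ∀ e ∈ S, ∀ v ∈ ends e, v ∈ A := by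
    intro e he v hv
    obtain ⟨p, q, hpq, _, hp, hq⟩ := hW.mem e he
    rw [hpq, Sym2.mem_iff] at hv
    rcases hv with rfl | rfl
    · exact hp
    · exact hq
  have hG := kep_grd hD hW
  have hsub := kep_sub hD hs
  have hfg := kep_rw (S := S) (ends := ends) hD
  have himg := rw_image hD
  set S' := kep S ends i a K with hS'
  set U : Set (ℕ × ℕ) := rect 0 0 a (w + 1) \ (K : Set (ℕ × ℕ)) with hU
  have hsubS : S' ⊆ S := hsub.trans sdiff_subset
  have hKb : ∀ t ∈ (K : Set (ℕ × ℕ)), 2 ≤ t.1 ∧ t.1 + 3 ≤ a ∧ 2 ≤ t.2 ∧ t.2 + 3 ≤ w + 1 := by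
    rintro ⟨m, z⟩ h
    have := hD.deep _ _ (Finset.mem_coe.1 h)
    dsimp only
    omega
  have hKs : ∀ t₁ ∈ (K : Set (ℕ × ℕ)), ∀ t₂ ∈ (K : Set (ℕ × ℕ)), t₁ ≠ t₂ → sd t₁ t₂ ≤ 3 →
      False := by
    intro t₁ h₁ t₂ h₂ hne hle
    have := hsp _ (Finset.mem_coe.1 h₁) _ (Finset.mem_coe.1 h₂) hne
    omega
  have hsds : ∀ t₁ t₂, sd t₁ t₂ = sd t₂ t₁ := by
    intro t₁ t₂
    unfold sd
    omega
  -- fullness of the quotient
  obtain ⟨F, hF⟩ := full_holes (S := S') (ends := fun e => (ends e).map (pw i)) (a := a)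
    (b := w + 1) (T := (K : Set (ℕ × ℕ))) (fun p q hpq hp hq => hG.surj p q hpq hp hq) (by omega)
    (by omega) hKb (fun t₁ h₁ t₂ h₂ t₃ _ n12 _ _ l12 _ _ => hKs t₁ h₁ t₂ h₂ n12 l12)
  have hF' : FullB S' (fun e => (ends e).map ρ) (ρ '' A) F := by
    rw [himg]
    exact full_congr hfg hF
  have hbic : Bic (P ／ (ζ '' lvs A ρ c)) S' (fun e => (ends e).map (pw i)) := by
    refine bic_congr' (fun e he => (hfg e he).symm) ?_
    exact bic_mono (hs.bic hB hAf hSA) hsub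
  have hloc : ∀ z, CWL.Loc (P ／ (ζ '' lvs A ρ c)) S' (fun e => (ends e).map (pw i)) z =
      CWL.Loc (P ／ (ζ '' lvs A ρ c)) S' (fun e => (ends e).map ρ) z := by
    intro z
    ext v
    have : ins S' (fun e => (ends e).map (pw i)) {v}ᶜ =
        ins S' (fun e => (ends e).map ρ) {v}ᶜ := by
      ext e
      refine and_congr_right fun he => ?_
      simp only
      rw [hfg e he]
    change z ∉ _ ↔ z ∉ _
    rw [this]
  have hvc : VConn S ends A := by
    refine hs.vconn hSA hsubS ?_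
    rw [himg]
    refine vconn_congr' hfg ?_
    refine vconn_of_rch hG (rch_sparse (by omega) (by omega) K ?_ ?_)
    · intro v hv v' hv' hne
      rw [apart_iff]
      have := hsp _ (Finset.mem_coe.1 hv) _ (Finset.mem_coe.1 hv') hne
      omega
    · rintro ⟨m, z⟩ h
      have := hD.deep _ _ h
      dsimp only
      omega
  refine ⟨ζ '' lvs A ρ c, S', hs.sub, hsubS, hbic, hG, ?_⟩
  intro z hz hzS
  refine ⟨hs.cl hB hAf hSA hsub hF' hz hzS, fun h => hzS (hsubS h), ?_⟩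
  rintro ⟨b1, b2⟩ hbd hbK
  have hbd' : 10 ≤ b1 ∧ 10 ≤ b2 ∧ b1 + 10 ≤ a ∧ b2 + 10 ≤ w + 1 := by
    unfold DeepR at hbd
    dsimp only at hbd
    omega
  -- fullness without the blob
  obtain ⟨F₁, hF₁⟩ := full_holes (S := S') (ends := fun e => (ends e).map (pw i)) (a := a)
    (b := w + 1) (T := insert (b1, b2) (K : Set (ℕ × ℕ)))
    (fun p q hpq hp hq => hG.surj p q hpq ⟨hp.1, fun h => hp.2 (Or.inr h)⟩
      ⟨hq.1, fun h => hq.2 (Or.inr h)⟩) (by omega) (by omega) (by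
      rintro t (rfl | h)
      · dsimp only; omega
      · exact hKb t h) (by
      rintro t₁ h₁ t₂ h₂ t₃ h₃ n12 n13 n23 l12 l13 l23
      rcases h₁ with rfl | h₁
      · rcases h₂ with rfl | h₂
        · exact n12 rfl
        · rcases h₃ with rfl | h₃
          · exact n13 rfl
          · exact hKs t₂ h₂ t₃ h₃ n23 l23
      · rcases h₂ with rfl | h₂
        · rcases h₃ with rfl | h₃
          · exact n23 rfl
          · exact hKs t₁ h₁ t₃ h₃ n13 l13
        · exact hKs t₁ h₁ t₂ h₂ n12 l12)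
  have hU1 : rect 0 0 a (w + 1) \ (insert (b1, b2) (K : Set (ℕ × ℕ))) = (ρ '' A) \ {(b1, b2)} := by
    rw [himg, hU]
    ext v
    simp only [mem_sdiff, mem_insert_iff, mem_singleton_iff, not_or]
    tauto
  rw [hU1] at hF₁
  have hF₁' := full_congr hfg hF₁
  have hset : {v | v ∈ A ∧ ρ v = (b1, b2)} = blob i (K : Set (ℕ × ℕ)) τ (b1, b2) := by
    ext v
    exact rw_class hD hbd'.1 hbd'.2.2.1 (by omega) v
  have hins := blob_ins hD hW hs hbd'.1 hbd'.2.2.1 (show b2 ≤ w by omega)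
  refine ⟨?_, ?_⟩
  · rw [hloc, hs.loc_iff hB hAf hSA hsub hzS hF₁', hset]
    change _ ↔ z ∉ _
    rw [hins]
  · intro hno
    rw [hloc]
    obtain ⟨F₂, hF₂⟩ := hs.full hSA hsub hF₁'
    have hset2 : {v | v ∈ A ∧ ρ v ∈ (ρ '' A) \ {(b1, b2)}} = {v | v ∈ A ∧ ρ v ≠ (b1, b2)} := by
      ext v
      constructor
      · rintro ⟨h1, h2⟩
        exact ⟨h1, h2.2⟩
      · rintro ⟨h1, h2⟩
        exact ⟨h1, ⟨v, h1, rfl⟩, h2⟩
    rw [hset2] at hF₂
    refine hs.loc_none hB hAf hSA hvc hsub hz hzS ?_ hF₂ hF₁' ?_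
    · obtain ⟨v, hv, hvb⟩ : ((0, 0) : ℕ × ℕ) ∈ ρ '' A := by
        rw [himg]
        refine ⟨by rw [Gad.mem_rct]; dsimp only; omega, fun h' => ?_⟩
        have := hD.deep _ _ (Finset.mem_coe.1 h')
        omega
      refine ⟨v, hv, ?_⟩
      rw [hvb, ne_eq, Prod.mk.injEq]
      omega
    · intro v hv hvb
      refine hno v ?_
      rw [← hset]
      exact ⟨hv, hvb⟩

end DA
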