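import Pool.Agent.DA.RWal
import Pool.Agent.DA.LiftPeel
import Pool.Agent.DA.GlWB
import Pool.Agent.DA.WQ
import Pool.Agent.DA.RowM

/-!
# LIFT+ on the wall (page MP_5165fa_co_LIFTPLUS_h54.md, section 1)
-/

open Set BIC BICS
open scoped Matroid

namespace DA

open Gad

universe u

section flats

variable {α : Type*} {P : Matroid α}

lemma rk_skew_sub [P.Finite] {S Y X : Set α} (h : rk P (S ∪ Y) = rk P S + rk P Y)
    (hX : X ⊆ S) : rk P (X ∪ Y) = rk P X + rk P Y := by
  have h1 := skew_mono h.ge hX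
  have h2 := rk_submod P X Y
  omega

/-- A modular pair. -/
lemma cl_inter [P.Finite] {A B : Set α} {z : α} (hA : z ∈ P.closure A)
    (hB : z ∈ P.closure B) (h : rk P A + rk P B ≤ rk P (A ∪ B) + rk P (A ∩ B)) :
    z ∈ P.closure (A ∩ B) := by
  by_contra hcon
  have hzE := P.closure_subset_ground _ hA
  have h1 := rk_insert_notMem hzE hcon
  have h2 : rk P (insert z A) = rk P A := by
    have := P.closure_insert_eq_of_mem_closure hA
    rw [← rk_closure (insert z A), this, rk_closure]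
  have h3 : rk P (insert z B) = rk P B := by
    have := P.closure_insert_eq_of_mem_closure hB
    rw [← rk_closure (insert z B), this, rk_closure]
  have h4 := rk_submod P (insert z A) (insert z B)
  have h5 : insert z A ∩ insert z B = insert z (A ∩ B) := (insert_inter_distrib z A B).symm
  have h6 : rk P (A ∪ B) ≤ rk P (insert z A ∪ insert z B) :=
    rk_mono P (union_subset_union (subset_insert _ _) (subset_insert _ _))
  rw [h5] at h4
  omega

/-- The upper bound of the support in a contraction. -/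
lemma up_cl [P.Finite] {S Y S₁ : Set α} {W : Finset α} {z : α} (hS : S ⊆ P.E) (hY : Y ⊆ P.E)
    (hSY : rk P (S ∪ Y) = rk P S + rk P Y) (hS₁ : S₁ ⊆ S) (hr : rk P S₁ + 1 = rk P S)
    (hW : (W : Set α) ⊆ P.closure (S₁ ∪ Y)) (hz : z ∈ P.closure (S₁ ∪ Y))
    (hWr : rk P (S ∪ (W : Set α)) = rk P S + W.card) (hzW : z ∈ P.closure (S ∪ (W : Set α))) :
    z ∈ P.closure (S₁ ∪ (W : Set α)) := by
  by_contra hcon
  have hzE := P.closure_subset_ground _ hz
  have hWE : (W : Set α) ⊆ P.E := hW.trans (P.closure_subset_ground _)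
  have h1 := rk_insert_notMem hzE hcon
  have h2 := skew_mono hWr.ge hS₁
  have hS₁Y : S₁ ∪ Y ⊆ P.E := union_subset (hS₁.trans hS) hY
  -- the two flats
  have h3 : rk P (P.closure (S₁ ∪ Y)) = rk P S₁ + rk P Y := by
    rw [rk_closure, rk_skew_sub hSY hS₁]
  have h4 : rk P (P.closure (S ∪ (W : Set α))) = rk P S + W.card := by
    rw [rk_closure, hWr]
  have h5 := rk_submod P (P.closure (S₁ ∪ Y)) (P.closure (S ∪ (W : Set α)))
  have h6 : rk P (insert z (S₁ ∪ (W : Set α))) ≤
      rk P (P.closure (S₁ ∪ Y) ∩ P.closure (S ∪ (W : Set α))) := by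
    refine rk_mono P (insert_subset ⟨hz, hzW⟩ (subset_inter ?_ ?_))
    · exact union_subset (subset_union_left.trans (P.subset_closure _ hS₁Y)) hW
    · exact (union_subset_union_left _ hS₁).trans (P.subset_closure _ (union_subset hS hWE))
  have h7 : rk P (S ∪ Y) ≤ rk P (P.closure (S₁ ∪ Y) ∪ P.closure (S ∪ (W : Set α))) := by
    refine rk_mono P (union_subset ?_ ?_)
    · exact (subset_union_left.trans (P.subset_closure _ (union_subset hS hWE))).trans
        subset_union_right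
    · exact (subset_union_right.trans (P.subset_closure _ hS₁Y)).trans subset_union_left
  omega

lemma rk_skew_part [P.Finite] {S : Set α} {Z W : Finset α} (hW : W ⊆ Z)
    (h : rk P (S ∪ (Z : Set α)) = rk P S + Z.card) :
    rk P (S ∪ (W : Set α)) = rk P S + W.card := by
  classical
  have h1 : S ∪ (Z : Set α) = (S ∪ (W : Set α)) ∪ ((Z \ W : Finset α) : Set α) := by
    rw [union_assoc, ← Finset.coe_union, Finset.union_sdiff_of_subset hW]
  have h2 := rk_union_le P (X := S ∪ (W : Set α)) (Y := ((Z \ W : Finset α) : Set α))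
    (Z \ W).finite_toSet
  have h3 := rk_union_le P (X := S) (Y := (W : Set α)) W.finite_toSet
  rw [← h1, h, Set.ncard_coe_finset, Finset.card_sdiff_of_subset hW] at h2
  rw [Set.ncard_coe_finset] at h3
  have h4 := Finset.card_le_card hW
  omega

end flats

section blobs

variable {α : Type*} {P : Matroid α} {S Y : Set α} {row : α → Sym2 (ℕ × ℕ)} {w : ℕ}

/-- the rows without the representatives which leave the blob `b` of the matching `i` -/
def Frb (S : Set α) (row : α → Sym2 (ℕ × ℕ)) (i : ℕ) (c : Set α) (b : ℕ × ℕ) : Set α :=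
  S \ {e | e ∈ c ∧ (∃ v ∈ row e, pw i v = b) ∧ ∃ v ∈ row e, pw i v ≠ b}

/-- `z` has a bounded set `N` of own vertices, and two own blobs of the matching `i` at once.
`Y` are the rows of `Omega`. -/
structure TwoW (P : Matroid α) (S Y : Set α) (row : α → Sym2 (ℕ × ℕ)) (w i β D δ : ℕ) (z : α)
    (N : Finset (ℕ × ℕ)) : Prop where
  card : N.card ≤ β
  sup : ∀ c, c ⊆ S → WallE c row w ∅ → ∀ v, DeepR (0, 0) (w + 1) (w + 1) D v →
    z ∉ P.closure ((S \ {e | e ∈ c ∧ v ∈ row e}) ∪ Y) → v ∈ N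
  two : ∃ c, c ⊆ S ∧ WallE c row w ∅ ∧ ∃ b b', b ≠ b' ∧
    DeepR (0, 0) ((w + 1 - i) / 2) (w + 1) δ b ∧ DeepR (0, 0) ((w + 1 - i) / 2) (w + 1) δ b' ∧
    z ∉ P.closure (Frb S row i c b ∪ Y) ∧ z ∉ P.closure (Frb S row i c b' ∪ Y)

lemma RWal.blob_cl [P.Finite] (h : RWal P S row w) (hSY : rk P (S ∪ Y) = rk P S + rk P Y)
    {c : Set α} (hc : c ⊆ S) (hW : WallE c row w ∅) {v : ℕ × ℕ}
    (hv : 1 ≤ v.2 ∧ v.2 + 3 ≤ w ∧ 1 ≤ v.1 ∧ v.1 + 4 ≤ w) {z : α}
    (h1 : z ∈ P.closure ((S \ {e | e ∈ c ∧ v ∈ row e}) ∪ Y))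
    (h2 : z ∈ P.closure ((S \ {e | e ∈ c ∧ (v.1 + 1, v.2) ∈ row e}) ∪ Y)) :
    z ∈ P.closure ((S \ {e | e ∈ c ∧ (v ∈ row e ∨ (v.1 + 1, v.2) ∈ row e)}) ∪ Y) := by
  classical
  have hne : v ≠ (v.1 + 1, v.2) := by
    intro h3
    have := congrArg Prod.fst h3
    simp at this
  have r1 := h.rk_star hc hW {v} v.2 ⟨hv.1, hv.2.1⟩ (by
    intro p hp
    rw [Finset.mem_singleton] at hp
    rw [hp]
    exact ⟨rfl, by omega, by omega⟩)
  have r2 := h.rk_star hc hW {(v.1 + 1, v.2)} v.2 ⟨hv.1, hv.2.1⟩ (by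
    intro p hp
    rw [Finset.mem_singleton] at hp
    rw [hp]
    exact ⟨rfl, by simp only; omega, by simp only; omega⟩)
  have r3 := h.rk_star hc hW {v, (v.1 + 1, v.2)} v.2 ⟨hv.1, hv.2.1⟩ (by
    intro p hp
    rw [Finset.mem_insert, Finset.mem_singleton] at hp
    rcases hp with hp | hp
    · rw [hp]
      exact ⟨rfl, by omega, by omega⟩
    · rw [hp]
      exact ⟨rfl, by simp only; omega, by simp only; omega⟩)
  have r4 := h.rk_edge hc hW v ⟨hv.1, hv.2.1, hv.2.2.2⟩
  rw [Finset.card_pair hne] at r3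
  rw [Finset.card_singleton] at r1 r2
  simp only [Finset.mem_singleton, exists_eq_left] at r1 r2
  have e3 : {e | e ∈ c ∧ ∃ p ∈ ({v, (v.1 + 1, v.2)} : Finset (ℕ × ℕ)), p ∈ row e} =
      {e | e ∈ c ∧ (v ∈ row e ∨ (v.1 + 1, v.2) ∈ row e)} := by
    ext e
    simp
  rw [e3] at r3
  have i1 : (S \ {e | e ∈ c ∧ v ∈ row e} ∪ Y) ∩ (S \ {e | e ∈ c ∧ (v.1 + 1, v.2) ∈ row e} ∪ Y) =
      (S \ {e | e ∈ c ∧ (v ∈ row e ∨ (v.1 + 1, v.2) ∈ row e)}) ∪ Y := by
    ext e
    simp only [mem_inter_iff, mem_union, mem_sdiff, mem_setOf_eq]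
    tauto
  have i2 : (S \ {e | e ∈ c ∧ v ∈ row e} ∪ Y) ∪ (S \ {e | e ∈ c ∧ (v.1 + 1, v.2) ∈ row e} ∪ Y) =
      (S \ {e | e ∈ c ∧ v ∈ row e ∧ (v.1 + 1, v.2) ∈ row e}) ∪ Y := by
    ext e
    simp only [mem_union, mem_sdiff, mem_setOf_eq]
    tauto
  rw [← i1]
  refine cl_inter h1 h2 ?_
  rw [i1, i2, rk_skew_sub hSY sdiff_subset, rk_skew_sub hSY sdiff_subset,
    rk_skew_sub hSY sdiff_subset, rk_skew_sub hSY sdiff_subset]
  omega

lemma pw_eq {i : ℕ} (hi : i ≤ 1) {b p : ℕ × ℕ} (hb : 1 ≤ b.1) (h : pw i p = b) :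
    p = (2 * b.1 + i, b.2) ∨ p = (2 * b.1 + i + 1, b.2) := by
  obtain ⟨x, y⟩ := p
  obtain ⟨bx, by'⟩ := b
  unfold pw at h
  simp only [Prod.mk.injEq] at h hb ⊢
  omega

lemma pw_left {i : ℕ} (b : ℕ × ℕ) : pw i (2 * b.1 + i, b.2) = b := by
  unfold pw
  ext <;> simp

lemma pw_right {i : ℕ} (b : ℕ × ℕ) : pw i (2 * b.1 + i + 1, b.2) = b := by
  unfold pw
  ext
  · simp only
    omega
  · rfl

lemma pw_sd {i : ℕ} (hi : i ≤ 1) {b p p' : ℕ × ℕ} (hb : 1 ≤ b.1) (h : pw i p = b)
    (h' : pw i p' = b) : sd p p' ≤ 1 := by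
  rw [sd_le]
  rcases pw_eq hi hb h with rfl | rfl <;> rcases pw_eq hi hb h' with rfl | rfl <;>
    (simp only; omega)

lemma pw_far {i : ℕ} (hi : i ≤ 1) (p p' : ℕ × ℕ) :
    sd p p' ≤ 2 * sd (pw i p) (pw i p') + 2 := by
  have h1 := sd_le.1 (le_refl (sd (pw i p) (pw i p')))
  rw [sd_le]
  unfold pw at *
  simp only at h1 ⊢
  omega

/-- An element without own vertices in a blob is spanned. -/
lemma RWal.frb_cl [P.Finite] (h : RWal P S row w) (hSY : rk P (S ∪ Y) = rk P S + rk P Y)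
    {i β D δ : ℕ} (hi : i ≤ 1) {z : α} {N : Finset (ℕ × ℕ)} (hz : TwoW P S Y row w i β D δ z N)
    {c : Set α} (hc : c ⊆ S) (hW : WallE c row w ∅) {b : ℕ × ℕ}
    (hb : DeepR (0, 0) ((w + 1 - i) / 2) (w + 1) (D + 4) b) (hn : ∀ p ∈ N, pw i p ≠ b) :
    z ∈ P.closure (Frb S row i c b ∪ Y) := by
  unfold DeepR at hb
  simp only at hb
  have h1 : ∀ p, pw i p = b → z ∈ P.closure ((S \ {e | e ∈ c ∧ p ∈ row e}) ∪ Y) := by
    intro p hp
    by_contra hcon
    refine hn p (hz.sup c hc hW p ?_ hcon) hp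
    rcases pw_eq hi (by omega) hp with rfl | rfl
    · unfold DeepR
      simp only
      omega
    · unfold DeepR
      simp only
      omega
  have h2 := h.blob_cl hSY hc hW (v := (2 * b.1 + i, b.2)) (by simp only; omega)
    (h1 _ (pw_left b)) (h1 _ (pw_right b))
  refine P.closure_subset_closure ?_ h2
  refine union_subset_union_left _ ?_
  rintro e ⟨he, he2⟩
  refine ⟨he, ?_⟩
  rintro ⟨h3, ⟨p, hp, hpb⟩, _⟩
  apply he2
  refine ⟨h3, ?_⟩
  rcases pw_eq hi (by omega) hpb with rfl | rfl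
  · exact Or.inl hp
  · exact Or.inr hp

/-- Every own blob contains an own vertex. -/
lemma RWal.own_vertex [P.Finite] (h : RWal P S row w) (hSY : rk P (S ∪ Y) = rk P S + rk P Y)
    {i β D δ : ℕ} (hi : i ≤ 1) {z : α} {N : Finset (ℕ × ℕ)} (hz : TwoW P S Y row w i β D δ z N)
    {c : Set α} (hc : c ⊆ S) (hW : WallE c row w ∅) {b : ℕ × ℕ}
    (hb : DeepR (0, 0) ((w + 1 - i) / 2) (w + 1) (D + 4) b)
    (hn : z ∉ P.closure (Frb S row i c b ∪ Y)) : ∃ p ∈ N, pw i p = b := by
  by_contra hcon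
  push Not at hcon
  exact hn (h.frb_cl hSY hi hz hc hW hb hcon)

/-- `Frb` depends only on the representatives at the blob. -/
lemma frb_congr {i : ℕ} (hi : i ≤ 1) {c c' : Set α} {b : ℕ × ℕ} (hb : 1 ≤ b.1)
    (h : ∀ v, (v = (2 * b.1 + i, b.2) ∨ v = (2 * b.1 + i + 1, b.2)) →
      {e | e ∈ c' ∧ v ∈ row e} = {e | e ∈ c ∧ v ∈ row e}) :
    Frb S row i c' b = Frb S row i c b := by
  unfold Frb
  congr 1
  ext e
  constructor
  · rintro ⟨h1, ⟨p, hp, hpb⟩, h3⟩
    have h4 : e ∈ {e | e ∈ c ∧ p ∈ row e} := by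
      rw [← h p (pw_eq hi hb hpb)]
      exact ⟨h1, hp⟩
    exact ⟨h4.1, ⟨p, hp, hpb⟩, h3⟩
  · rintro ⟨h1, ⟨p, hp, hpb⟩, h3⟩
    have h4 : e ∈ {e | e ∈ c' ∧ p ∈ row e} := by
      rw [h p (pw_eq hi hb hpb)]
      exact ⟨h1, hp⟩
    exact ⟨h4.1, ⟨p, hp, hpb⟩, h3⟩

lemma frb_eq {i : ℕ} {c : Set α} (hc : c ⊆ S) (τ : ℕ × ℕ → ℕ × ℕ) (b : ℕ × ℕ) :
    ins c row (blob i ∅ τ b)ᶜ ∪ ins c row (blob i ∅ τ b) ∪ (S \ c) = Frb S row i c b := by
  have hbl : blob i ∅ τ b = {p | pw i p = b} := by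
    ext p
    simp [blob]
  rw [hbl]
  unfold Frb
  ext e
  simp only [mem_union, ins, mem_sdiff, mem_setOf_eq, mem_compl_iff]
  constructor
  · rintro ((⟨h1, h2⟩ | ⟨h1, h2⟩) | ⟨h1, h2⟩)
    · refine ⟨hc h1, ?_⟩
      rintro ⟨_, ⟨p, hp, hpb⟩, _⟩
      exact h2 p hp hpb
    · refine ⟨hc h1, ?_⟩
      rintro ⟨_, _, ⟨p, hp, hpb⟩⟩
      exact hpb (h2 p hp)
    · exact ⟨h1, fun h3 => h2 h3.1⟩
  · rintro ⟨h1, h2⟩
    by_cases h3 : e ∈ c
    · left
      by_cases h4 : ∃ p ∈ row e, pw i p = b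
      · right
        refine ⟨h3, fun p hp => ?_⟩
        by_contra hpb
        exact h2 ⟨h3, h4, p, hp, hpb⟩
      · left
        push Not at h4
        exact ⟨h3, h4⟩
    · exact Or.inr ⟨h1, h3⟩

end blobs

/-- **LIFT+**, section 1. The elements with two own blobs are spanned by the rows and a small
set, up to those near a light set of vertices. -/
theorem liftWall (k β D : ℕ) : ∃ ρ q δ : ℕ, ∀ {α : Type u} (P : Matroid α) [P.Finite]
    (S Y : Set α) (row : α → Sym2 (ℕ × ℕ)) (w i : ℕ), i ≤ 1 → RWal P S row w → Y ⊆ P.E →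
    rk P (S ∪ Y) = rk P S + rk P Y →
    ∀ (T : Set α) (N : α → Finset (ℕ × ℕ)), T ⊆ P.closure (S ∪ Y) →
    (∀ z ∈ T, TwoW P S Y row w i β D δ z (N z)) →
    HasUniformMinor P k ∨ ∃ (V : Finset (ℕ × ℕ)) (F₀ : Finset α), V.card ≤ q * rk P Y ∧
      F₀.card ≤ ρ ∧ (F₀ : Set α) ⊆ T ∧
      ∀ z ∈ T, (∀ v ∈ N z, ∀ v' ∈ V, δ ≤ sd v v') → z ∈ P.closure (S ∪ (F₀ : Set α)) := by
  classical
  choose mf δf hgl using fun s : ℕ => glWB.{u} (k := k) wquotX rowMerge (β * (1 + s + k)) (D + 4)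
  obtain ⟨ρ, q, b₀, hpeel⟩ := lift_peel.{u} k mf
  obtain ⟨Δ, hΔ⟩ : ∃ Δ, Δ = (Finset.range (b₀ + 1)).sup δf := ⟨_, rfl⟩
  have hΔs : ∀ s ≤ b₀, δf s ≤ Δ := by
    intro s hs
    rw [hΔ]
    exact Finset.le_sup (f := δf) (Finset.mem_range.2 (by omega))
  obtain ⟨δ, hδ⟩ : ∃ δ, δ = 2 * Δ + D + 20 := ⟨_, rfl⟩
  refine ⟨ρ, q * β, δ, ?_⟩
  intro α P _ S Y row w i hi hR hY hSY T N hTcl hT
  have hS := hR.sub
  obtain ⟨far, hfar⟩ : ∃ far : α → α → Prop, ∀ x y, far x y ↔
      ∀ v ∈ N x, ∀ v' ∈ N y, δ ≤ sd v v' := ⟨_, fun _ _ => Iff.rfl⟩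
  have hmono : ∀ {d : ℕ} {b : ℕ × ℕ}, d ≤ δ → DeepR (0, 0) ((w + 1 - i) / 2) (w + 1) δ b →
      DeepR (0, 0) ((w + 1 - i) / 2) (w + 1) d b := by
    intro d b hd hb
    unfold DeepR at hb ⊢
    omega
  have hown : ∀ x ∈ T, ∀ c, c ⊆ S → WallE c row w ∅ → ∀ b,
      DeepR (0, 0) ((w + 1 - i) / 2) (w + 1) δ b → x ∉ P.closure (Frb S row i c b ∪ Y) →
      ∃ p ∈ N x, pw i p = b := by
    intro x hx c hc hW b hb hn
    exact hR.own_vertex hSY hi (hT x hx) hc hW (hmono (by omega) hb) hn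
  rcases hpeel P S Y T far (by
      intro x y h
      rw [hfar] at h ⊢
      intro v hv v' hv'
      rw [sd_comm]
      exact h v' hv' v hv) (by
      intro x hx h
      rw [hfar] at h
      obtain ⟨c, hc, hW, b, _, _, hb, _, hn, _⟩ := (hT x hx).two
      obtain ⟨p, hp, _⟩ := hown x hx c hc hW b hb hn
      have h1 := h p hp p hp
      rw [sd_self] at h1
      omega) hS hY hTcl with hU | ⟨I, F₀, hI, hF₀, hIc, hF₀c, hcl⟩ | ⟨s, hs, F, K₀, Ka, K, z, t, hg⟩
  · exact Or.inl hU
  · right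
    refine ⟨I.biUnion N, F₀, ?_, hF₀c, hF₀, ?_⟩
    · refine (Finset.card_biUnion_le_card_mul _ _ β (fun x hx => (hT x (hI hx)).card)).trans ?_
      rw [hSY] at hIc
      rw [mul_assoc, mul_comm β, ← mul_assoc]
      exact Nat.mul_le_mul_right _ (by simpa using hIc)
    · intro x hx hxV
      refine hcl x hx (fun y hy => ?_)
      rw [hfar]
      exact fun v hv v' hv' => hxV v hv v' (Finset.mem_biUnion.2 ⟨y, hy, hv'⟩)
  · left
    have hKaT : ∀ x ∈ Ka, x ∈ T := fun x hx => hg.KaT hx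
    have htKa : ∀ l, t l ∈ Ka := fun l => (hg.mKa _).2 (Or.inr ⟨l, hg.tK l⟩)
    have hFY := hg.FY
    -- the representatives and the legs
    have h2z := fun l => (hT (z l) (hg.zT l)).two
    have h2t := fun l => (hT (t l) (hKaT _ (htKa l))).two
    choose cz hcz hWz b₁ b₂ hb12 hb₁ hb₂ hz₁ hz₂ using h2z
    choose ct hct hWt b₃ b₃' hb33 hb₃ hb₃' ht₃ ht₃' using h2t
    have ov₁ := fun l => hown (z l) (hg.zT l) (cz l) (hcz l) (hWz l) (b₁ l) (hb₁ l) (hz₁ l)
    have ov₂ := fun l => hown (z l) (hg.zT l) (cz l) (hcz l) (hWz l) (b₂ l) (hb₂ l) (hz₂ l)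
    have ov₃ := fun l => hown (t l) (hKaT _ (htKa l)) (ct l) (hct l) (hWt l) (b₃ l) (hb₃ l)
      (ht₃ l)
    obtain ⟨bv, hbv⟩ : ∃ bv : ℕ × ℕ → Finset (ℕ × ℕ), ∀ b, bv b =
        {(2 * b.1 + i, b.2), (2 * b.1 + i + 1, b.2)} := ⟨_, fun _ => rfl⟩
    have hnear : ∀ b : ℕ × ℕ, 1 ≤ b.1 → ∀ p, pw i p = b → ∀ v ∈ bv b, sd v p ≤ 1 := by
      intro b hb p hp v hv
      rw [hbv, Finset.mem_insert, Finset.mem_singleton] at hv
      refine pw_sd hi hb ?_ hp
      rcases hv with rfl | rfl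
      · exact pw_left b
      · exact pw_right b
    have hpos : ∀ b, DeepR (0, 0) ((w + 1 - i) / 2) (w + 1) δ b → 1 ≤ b.1 := by
      intro b hb
      unfold DeepR at hb
      omega
    have hsd3 : ∀ a b c d : ℕ × ℕ, sd a b ≤ 1 → sd c d ≤ 1 → δ ≤ sd b d → 2 ≤ sd a c := by
      intro a b c d h1 h2 h3
      have h4 := sd_tri (p := b) (q := a) (r := d)
      have h5 := sd_tri (p := a) (q := c) (r := d)
      rw [sd_comm (p := b) (q := a)] at h4
      omega
    obtain ⟨c₀, hc₀⟩ := exists_repW hR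
    obtain ⟨xe, hx0, hx1⟩ : ∃ xe : Bool × Fin (mf s) → α, (∀ l, xe (false, l) = z l) ∧
        ∀ l, xe (true, l) = t l :=
      ⟨fun j => if j.1 then t j.2 else z j.2, fun l => by simp, fun l => by simp⟩
    obtain ⟨ce, hc0, hc1⟩ : ∃ ce : Bool × Fin (mf s) → Set α, (∀ l, ce (false, l) = cz l) ∧
        ∀ l, ce (true, l) = ct l :=
      ⟨fun j => if j.1 then ct j.2 else cz j.2, fun l => by simp, fun l => by simp⟩
    obtain ⟨Ae, hA0, hA1⟩ : ∃ Ae : Bool × Fin (mf s) → Finset (ℕ × ℕ),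
        (∀ l, Ae (false, l) = bv (b₁ l) ∪ bv (b₂ l)) ∧ ∀ l, Ae (true, l) = bv (b₃ l) :=
      ⟨fun j => if j.1 then bv (b₃ j.2) else bv (b₁ j.2) ∪ bv (b₂ j.2), fun l => by simp,
        fun l => by simp⟩
    have hel : ∀ j, ∀ v ∈ Ae j, ∃ p ∈ N (xe j), sd v p ≤ 1 := by
      rintro ⟨j, l⟩ v hv
      cases j
      · rw [hA0, Finset.mem_union] at hv
        rw [hx0]
        rcases hv with hv | hv
        · obtain ⟨p, hp, hpb⟩ := ov₁ l
          exact ⟨p, hp, hnear _ (hpos _ (hb₁ l)) p hpb v hv⟩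
        · obtain ⟨p, hp, hpb⟩ := ov₂ l
          exact ⟨p, hp, hnear _ (hpos _ (hb₂ l)) p hpb v hv⟩
      · rw [hA1] at hv
        rw [hx1]
        obtain ⟨p, hp, hpb⟩ := ov₃ l
        exact ⟨p, hp, hnear _ (hpos _ (hb₃ l)) p hpb v hv⟩
    have hff : ∀ j j', j ≠ j' → far (xe j) (xe j') := by
      rintro ⟨j, l⟩ ⟨j', l'⟩ hne
      cases j <;> cases j'
      · rw [hx0, hx0]
        exact hg.farz l l' (fun h => hne (by rw [h]))
      · rw [hx0, hx1]
        exact hg.farzK l _ (htKa l')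
      · rw [hx0, hx1, hfar]
        intro a ha a' ha'
        rw [sd_comm]
        exact (hfar _ _).1 (hg.farzK l' _ (htKa l)) a' ha' a ha
      · rw [hx1, hx1]
        refine hg.farK _ (htKa l) _ (htKa l') ?_
        intro h
        have hll : l ≠ l' := fun h2 => hne (by rw [h2])
        exact Finset.disjoint_left.1 (hg.dK l l' hll) (hg.tK l) (h ▸ hg.tK l')
    obtain ⟨c, ⟨hc, hW⟩, hceq⟩ := combineW (S := S) (row := row) (w := w)
      (Finset.univ : Finset (Bool × Fin (mf s))) hc₀ ce (by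
        rintro ⟨j, l⟩ _
        cases j
        · rw [hc0]
          exact ⟨hcz l, hWz l⟩
        · rw [hc1]
          exact ⟨hct l, hWt l⟩) Ae (by
        intro j _ j' _ hne v hv v' hv'
        rw [apart_iff]
        obtain ⟨p, hp, hvp⟩ := hel j v hv
        obtain ⟨p', hp', hvp'⟩ := hel j' v' hv'
        exact hsd3 v p v' p' hvp hvp' ((hfar _ _).1 (hff j j' hne) p hp p' hp'))
    -- the legs for the common representatives
    have hcz1 : ∀ l, z l ∉ P.closure (Frb S row i c (b₁ l) ∪ Y) := by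
      intro l
      rw [frb_congr (c := cz l) hi (hpos _ (hb₁ l))]
      · exact hz₁ l
      · intro v hv
        have h1 := hceq (false, l) (Finset.mem_univ _) v (by
          rw [hA0, Finset.mem_union]
          left
          rw [hbv, Finset.mem_insert, Finset.mem_singleton]
          exact hv)
        rw [hc0] at h1
        exact h1
    have hcz2 : ∀ l, z l ∉ P.closure (Frb S row i c (b₂ l) ∪ Y) := by
      intro l
      rw [frb_congr (c := cz l) hi (hpos _ (hb₂ l))]
      · exact hz₂ l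
      · intro v hv
        have h1 := hceq (false, l) (Finset.mem_univ _) v (by
          rw [hA0, Finset.mem_union]
          right
          rw [hbv, Finset.mem_insert, Finset.mem_singleton]
          exact hv)
        rw [hc0] at h1
        exact h1
    have hct3 : ∀ l, t l ∉ P.closure (Frb S row i c (b₃ l) ∪ Y) := by
      intro l
      rw [frb_congr (c := ct l) hi (hpos _ (hb₃ l))]
      · exact ht₃ l
      · intro v hv
        have h1 := hceq (true, l) (Finset.mem_univ _) v (by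
          rw [hA1, hbv, Finset.mem_insert, Finset.mem_singleton]
          exact hv)
        rw [hc1] at h1
        exact h1
    -- the contraction
    obtain ⟨Z, hZ⟩ : ∃ Z : Finset α, Z = F ∪ Ka := ⟨_, rfl⟩
    have hZc : (Z : Set α) = (F : Set α) ∪ (Ka : Set α) := by rw [hZ, Finset.coe_union]
    have hZcard : Z.card = F.card + Ka.card := by
      rw [hZ, Finset.card_union_of_disjoint hg.dF]
    have hZr : rk P (S ∪ (Z : Set α)) = rk P S + Z.card := by
      rw [hZc, hg.rk, hZcard]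
      omega
    have hZE : (Z : Set α) ⊆ P.E := by
      rw [hZc]
      exact union_subset (hFY.trans hY) (hg.KaT.trans (hTcl.trans (P.closure_subset_ground _)))
    have hZS := disj_of_skew hS hZr
    have hScE : S \ c ⊆ P.E := sdiff_subset.trans hS
    have hP1 : (P ／ (S \ c)).Finite := BQ.fin_contract _
    have hP2 : (P ／ (S \ c) ／ (Z : Set α)).Finite := BQ.fin_contract _
    have hZE1 : (Z : Set α) ⊆ (P ／ (S \ c)).E := by
      intro e he
      exact ⟨hZE he, fun h => hZS e he h.1⟩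
    have hdcZ : Disjoint c (Z : Set α) := by
      rw [Set.disjoint_left]
      exact fun e he heZ => hZS e heZ (hc he)
    have hrkc : rk (P ／ (S \ c)) (c ∪ (Z : Set α)) = rk (P ／ (S \ c)) c + Z.card := by
      have e1 := BQ.rk_con (M := P) hScE (X := c) (by
        intro e he
        exact ⟨hS (hc he), fun h5 => h5.2 he⟩)
      have e2 := BQ.rk_con (M := P) hScE (X := c ∪ (Z : Set α)) (by
        rintro e (he | he)
        · exact ⟨hS (hc he), fun h5 => h5.2 he⟩
        · exact ⟨hZE he, fun h5 => hZS e he h5.1⟩)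
      rw [union_sdiff_cancel hc] at e1
      rw [show c ∪ (Z : Set α) ∪ (S \ c) = S ∪ (Z : Set α) by
        rw [union_right_comm, union_sdiff_cancel hc]] at e2
      omega
    have hBic : Bic (P ／ (S \ c) ／ (Z : Set α)) c row :=
      bic_con_skew (hR.bic c hc hW) subset_rfl hZE1 hdcZ hrkc
    have hcl2 : ∀ X, (P ／ (S \ c) ／ (Z : Set α)).closure X =
        (P.closure (X ∪ (Z : Set α) ∪ (S \ c)) \ (S \ c)) \ (Z : Set α) := by
      intro X
      rw [Matroid.contract_closure_eq, Matroid.contract_closure_eq]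
    -- the elements `z l`
    have hzS : ∀ l, z l ∉ S := by
      intro l h
      refine hg.ncl l (P.subset_closure _ ?_ (Or.inl h))
      refine union_subset hS (union_subset (hFY.trans hY) ?_)
      exact sdiff_subset.trans (hg.KaT.trans (hTcl.trans (P.closure_subset_ground _)))
    have hzZ : ∀ l, z l ∉ (Z : Set α) := by
      intro l h
      rw [hZc] at h
      rcases h with h | h
      · refine hg.ncl l (P.subset_closure _ ?_ (Or.inr (Or.inl h)))
        refine union_subset hS (union_subset (hFY.trans hY) ?_)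
        exact sdiff_subset.trans (hg.KaT.trans (hTcl.trans (P.closure_subset_ground _)))
      · exact hg.zKa l h
    have hzmem : ∀ l X, z l ∈ (P ／ (S \ c) ／ (Z : Set α)).closure X ↔
        z l ∈ P.closure (X ∪ (Z : Set α) ∪ (S \ c)) := by
      intro l X
      rw [hcl2]
      exact ⟨fun h => h.1.1, fun h => ⟨⟨h, fun h2 => hzS l h2.1⟩, hzZ l⟩⟩
    -- supports
    obtain ⟨Nn, hNn⟩ : ∃ Nn : Fin (mf s) → Finset (ℕ × ℕ), ∀ l, Nn l =
        N (z l) ∪ K₀.biUnion N ∪ (K l).biUnion N := ⟨_, fun _ => rfl⟩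
    have hYcl : ∀ X, X ⊆ S → Y ⊆ P.closure (X ∪ Y) := fun X hX =>
      subset_union_right.trans (P.subset_closure _ (union_subset (hX.trans hS) hY))
    have hlarge : ∀ l, DeepR (0, 0) ((w + 1 - i) / 2) (w + 1) δ (b₁ l) := hb₁
    refine HasUniformMinor_mono (hgl s (P ／ (S \ c) ／ (Z : Set α)) c row w i id hi hBic hW z
      Nn (fun l => {b₁ l, b₂ l, b₃ l}) ?_ ?_ ?_ ?_ ?_ ?_) ((con_minor _ _).trans (con_minor P _))
    · intro l
      rw [hzmem]
      refine ⟨?_, fun h => hzS l (hc h)⟩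
      refine P.closure_subset_closure ?_ (hg.cl l)
      rw [union_right_comm, union_sdiff_cancel hc, hZc]
      refine union_subset_union_right _ (union_subset_union_right _ ?_)
      refine union_subset (fun x hx => (hg.mKa x).2 (Or.inl hx)) (fun x hx =>
        (hg.mKa x).2 (Or.inr ⟨l, hx⟩))
    · intro l
      rw [hNn]
      have e1 := (hT _ (hg.zT l)).card
      have e2 : (K₀.biUnion N).card ≤ K₀.card * β := Finset.card_biUnion_le_card_mul _ _ β
        (fun x hx => (hT x (hKaT x ((hg.mKa x).2 (Or.inl hx)))).card)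
      have e3 : ((K l).biUnion N).card ≤ (K l).card * β := Finset.card_biUnion_le_card_mul _ _ β
        (fun x hx => (hT x (hKaT x ((hg.mKa x).2 (Or.inr ⟨l, hx⟩)))).card)
      have e4 : K₀.card * β ≤ s * β := Nat.mul_le_mul_right _ hg.c0
      have e5 : (K l).card * β ≤ k * β := Nat.mul_le_mul_right _ (hg.cK l)
      calc (N (z l) ∪ K₀.biUnion N ∪ (K l).biUnion N).card ≤
          (N (z l)).card + (K₀.biUnion N).card + ((K l).biUnion N).card :=
            (Finset.card_union_le _ _).trans (Nat.add_le_add_right (Finset.card_union_le _ _) _)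
        _ ≤ β + s * β + k * β := by omega
        _ = β * (1 + s + k) := by ring
    · -- the support
      intro l v hv hvD
      by_contra hcon
      rw [hNn, Finset.mem_union, Finset.mem_union, Finset.mem_biUnion, Finset.mem_biUnion] at hcon
      push Not at hcon
      obtain ⟨⟨n1, n2⟩, n3⟩ := hcon
      apply hv
      rw [hzmem]
      obtain ⟨S₁, hS₁⟩ : ∃ S₁, S₁ = S \ {e | e ∈ c ∧ v ∈ row e} := ⟨_, rfl⟩
      have hin : ∀ x ∈ T, v ∉ N x → x ∈ P.closure (S₁ ∪ Y) := by
        intro x hx hvx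
        by_contra hcon
        rw [hS₁] at hcon
        refine hvx ((hT x hx).sup c hc hW v ?_ hcon)
        unfold DeepR at hvD ⊢
        omega
      obtain ⟨W, hWd⟩ : ∃ W : Finset α, W = F ∪ (K₀ ∪ K l) := ⟨_, rfl⟩
      have hWc : (W : Set α) = (F : Set α) ∪ ((K₀ : Set α) ∪ (K l : Set α)) := by
        rw [hWd, Finset.coe_union, Finset.coe_union]
      have hWZ : W ⊆ Z := by
        rw [hWd, hZ]
        refine Finset.union_subset_union_right ?_
        intro x hx
        rw [Finset.mem_union] at hx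
        rcases hx with hx | hx
        · exact (hg.mKa x).2 (Or.inl hx)
        · exact (hg.mKa x).2 (Or.inr ⟨l, hx⟩)
      have hD1 : rk P S₁ + 1 = rk P S := by
        have hvD' := hvD
        unfold DeepR at hvD'
        simp only at hvD'
        have e1 := hR.rk_star hc hW {v} v.2 ⟨by omega, by omega⟩ (by
          intro p hp
          rw [Finset.mem_singleton] at hp
          rw [hp]
          exact ⟨rfl, by omega, by omega⟩)
        simp only [Finset.mem_singleton, exists_eq_left, Finset.card_singleton] at e1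
        rw [hS₁]
        exact e1
      have hfin := up_cl (P := P) (S := S) (Y := Y) (S₁ := S₁) (W := W) (z := z l) hS hY hSY
        (by rw [hS₁]; exact sdiff_subset) hD1 (by
          rw [hWc]
          refine union_subset ((hFY).trans (hYcl S₁ (by rw [hS₁]; exact sdiff_subset)))
            (union_subset ?_ ?_)
          · exact fun x hx => hin x (hKaT x ((hg.mKa x).2 (Or.inl hx))) (n2 x hx)
          · exact fun x hx => hin x (hKaT x ((hg.mKa x).2 (Or.inr ⟨l, hx⟩))) (n3 x hx))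
        (hin _ (hg.zT l) n1) (rk_skew_part hWZ hZr) (by rw [hWc]; exact hg.cl l)
      refine P.closure_subset_closure ?_ hfin
      rw [hS₁]
      rintro e (⟨he, he2⟩ | he)
      · by_cases hec : e ∈ c
        · left; left
          exact ⟨hec, fun p hp hpv => he2 ⟨hec, by rw [mem_singleton_iff] at hpv; rw [← hpv]; exact hp⟩⟩
        · exact Or.inr ⟨he, hec⟩
      · left; right
        exact hWZ he
    · -- three blobs
      intro l
      have hne : ∀ (p p' : ℕ × ℕ) (b : ℕ × ℕ), p ∈ N (z l) → p' ∈ N (t l) → 1 ≤ b.1 →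
          pw i p = b → pw i p' = b → False := by
        intro p p' b hp hp' hb hpb hpb'
        have h1 := (hfar _ _).1 (hg.farzK l _ (htKa l)) p hp p' hp'
        have h2 := pw_sd hi hb hpb hpb'
        omega
      refine ⟨?_, ?_⟩
      · have h13 : b₁ l ≠ b₃ l := by
          intro h
          obtain ⟨p, hp, hpb⟩ := ov₁ l
          obtain ⟨p', hp', hpb'⟩ := ov₃ l
          exact hne p p' _ hp hp' (hpos _ (hb₁ l)) hpb (by rw [hpb', h])
        have h23 : b₂ l ≠ b₃ l := by
          intro h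
          obtain ⟨p, hp, hpb⟩ := ov₂ l
          obtain ⟨p', hp', hpb'⟩ := ov₃ l
          exact hne p p' _ hp hp' (hpos _ (hb₂ l)) hpb (by rw [hpb', h])
        rw [Finset.card_eq_three.2 ⟨b₁ l, b₂ l, b₃ l, hb12 l, h13, h23, rfl⟩]
      · -- all elements of `Z` except one are in the flat
        have hflat : ∀ (b : ℕ × ℕ), DeepR (0, 0) ((w + 1 - i) / 2) (w + 1) δ b → ∀ (x : α),
            x ∈ T → (∃ p ∈ N x, pw i p = b) → ∀ y ∈ T, far x y →
            y ∈ P.closure (Frb S row i c b ∪ Y) := by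
          intro b hb x hx hxb y hy hxy
          obtain ⟨p, hp, hpb⟩ := hxb
          refine hR.frb_cl hSY hi (hT y hy) hc hW (hmono (by omega) hb) ?_
          intro p' hp' hpb'
          have h1 := (hfar _ _).1 hxy p hp p' hp'
          have h2 := pw_sd hi (hpos _ hb) hpb hpb'
          omega
        have hfrbS : ∀ b, Frb S row i c b ⊆ S := fun b => sdiff_subset
        have hFcl : ∀ b, (F : Set α) ⊆ P.closure (Frb S row i c b ∪ Y) := fun b =>
          hFY.trans (hYcl _ (hfrbS b))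
        have hfrbcl : ∀ b, Frb S row i c b ⊆ P.closure (Frb S row i c b ∪ Y) := fun b =>
          subset_union_left.trans (P.subset_closure _ (union_subset ((hfrbS b).trans hS) hY))
        have hBL : ∀ b, b ∈ BL (P ／ (S \ c) ／ (Z : Set α)) c row i ∅ id (z l) ↔
            z l ∉ P.closure (Frb S row i c b ∪ (Z : Set α)) := by
          intro b
          unfold BL
          rw [mem_setOf_eq, hzmem, union_right_comm, frb_eq hc]
        -- own blobs of `z l`
        have own : ∀ b, DeepR (0, 0) ((w + 1 - i) / 2) (w + 1) δ b →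
            (∃ p ∈ N (z l), pw i p = b) → z l ∉ P.closure (Frb S row i c b ∪ Y) →
            z l ∉ P.closure (Frb S row i c b ∪ (Z : Set α)) := by
          intro b hb hp hn hcon
          refine hn (P.closure_subset_closure_of_subset_closure ?_ hcon)
          refine union_subset (hfrbcl b) ?_
          rw [hZc]
          refine union_subset (hFcl b) ?_
          intro y hy
          exact hflat b hb _ (hg.zT l) hp y (hKaT y hy) (hg.farzK l y hy)
        intro b hb
        rw [hBL]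
        rw [Finset.mem_insert, Finset.mem_insert, Finset.mem_singleton] at hb
        rcases hb with rfl | rfl | rfl
        · exact own _ (hb₁ l) (ov₁ l) (hcz1 l)
        · exact own _ (hb₂ l) (ov₂ l) (hcz2 l)
        · -- the location of `t l`
          intro hcon
          apply hct3 l
          have hKaE : (Ka : Set α) ⊆ P.E :=
            hg.KaT.trans (hTcl.trans (P.closure_subset_ground _))
          obtain ⟨Q, hQ⟩ : ∃ Q, Q = Frb S row i c (b₃ l) ∪ ((F : Set α) ∪ ((Ka : Set α) \ {t l})) :=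
            ⟨_, rfl⟩
          have h1 : z l ∉ P.closure Q := by
            intro h2
            refine hg.ncl l (P.closure_subset_closure ?_ h2)
            rw [hQ]
            exact union_subset_union_left _ (hfrbS _)
          have h2 : z l ∈ P.closure (insert (t l) Q) := by
            refine P.closure_subset_closure ?_ hcon
            rw [hQ, hZc]
            rintro y (hy | hy | hy)
            · exact Or.inr (Or.inl hy)
            · exact Or.inr (Or.inr (Or.inl hy))
            · by_cases hyt : y = t l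
              · exact Or.inl hyt
              · exact Or.inr (Or.inr (Or.inr ⟨hy, hyt⟩))
          have h3 := P.closure_exchange ⟨h2, h1⟩
          refine P.closure_subset_closure_of_subset_closure ?_ h3.1
          refine insert_subset ?_ ?_
          · refine hflat _ (hb₃ l) (t l) (hKaT _ (htKa l)) (ov₃ l) _ (hg.zT l) ?_
            rw [hfar]
            intro a ha a' ha'
            rw [sd_comm]
            exact (hfar _ _).1 (hg.farzK l _ (htKa l)) a' ha' a ha
          · rw [hQ]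
            refine union_subset (hfrbcl _) (union_subset (hFcl _) ?_)
            rintro y ⟨hy, hyt⟩
            exact hflat _ (hb₃ l) (t l) (hKaT _ (htKa l)) (ov₃ l) y (hKaT y hy)
              (hg.farK _ (htKa l) y hy (fun h => hyt h.symm))
    · -- depth
      intro l b hb
      have h1 := hΔs s hs
      rw [Finset.mem_insert, Finset.mem_insert, Finset.mem_singleton] at hb
      rcases hb with rfl | rfl | rfl
      · exact hmono (by omega) (hb₁ l)
      · exact hmono (by omega) (hb₂ l)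
      · exact hmono (by omega) (hb₃ l)
    · -- different gadgets
      intro l l' hll b hb b' hb'
      have h1 := hΔs s hs
      obtain ⟨p', hp', rfl⟩ := Finset.mem_image.1 hb'
      -- the element of `p'`
      obtain ⟨y, hyp, hy⟩ : ∃ y, p' ∈ N y ∧ (y = z l' ∨ y ∈ K₀ ∨ y ∈ K l') := by
        rw [hNn, Finset.mem_union, Finset.mem_union, Finset.mem_biUnion,
          Finset.mem_biUnion] at hp'
        rcases hp' with (h2 | ⟨y, hy, h2⟩) | ⟨y, hy, h2⟩
        · exact ⟨_, h2, Or.inl rfl⟩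
        · exact ⟨y, h2, Or.inr (Or.inl hy)⟩
        · exact ⟨y, h2, Or.inr (Or.inr hy)⟩
      have hyz : far (z l) y := by
        rcases hy with rfl | hy | hy
        · exact hg.farz l l' hll
        · exact hg.farzK l y ((hg.mKa y).2 (Or.inl hy))
        · exact hg.farzK l y ((hg.mKa y).2 (Or.inr ⟨l', hy⟩))
      have hyt : far (t l) y := by
        rcases hy with rfl | hy | hy
        · rw [hfar]
          intro a ha a' ha'
          rw [sd_comm]
          exact (hfar _ _).1 (hg.farzK l' _ (htKa l)) a' ha' a ha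
        · refine hg.farK _ (htKa l) y ((hg.mKa y).2 (Or.inl hy)) ?_
          rintro rfl
          exact Finset.disjoint_left.1 (hg.d0 l) hy (hg.tK l)
        · refine hg.farK _ (htKa l) y ((hg.mKa y).2 (Or.inr ⟨l', hy⟩)) ?_
          rintro rfl
          exact Finset.disjoint_left.1 (hg.dK l l' hll) (hg.tK l) hy
      obtain ⟨p, hp, hpb⟩ : ∃ p, (p ∈ N (z l) ∨ p ∈ N (t l)) ∧ pw i p = b := by
        rw [Finset.mem_insert, Finset.mem_insert, Finset.mem_singleton] at hb
        rcases hb with rfl | rfl | rfl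
        · obtain ⟨p, hp, hpb⟩ := ov₁ l
          exact ⟨p, Or.inl hp, hpb⟩
        · obtain ⟨p, hp, hpb⟩ := ov₂ l
          exact ⟨p, Or.inl hp, hpb⟩
        · obtain ⟨p, hp, hpb⟩ := ov₃ l
          exact ⟨p, Or.inr hp, hpb⟩
      have h2 : δ ≤ sd p p' := by
        rcases hp with hp | hp
        · exact (hfar _ _).1 hyz p hp p' hyp
        · exact (hfar _ _).1 hyt p hp p' hyp
      have h3 := pw_far hi p p'
      rw [hpb] at h3
      omega

end DA
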