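import Pool.Agent.DA.LiftR
import Pool.Agent.DA.CrossDef

/-!
# LIFT+ on a brick wall with windows (contraction to a plain rectangle by row CROSS)
-/

open Set BIC BICS
open scoped Matroid

namespace DA

open Gad

universe u

/-- the rows of the brick wall outside of the windows `Wd`; exact for all representatives -/
structure RHol {α : Type*} (P : Matroid α) (S : Set α) (row : α → Sym2 (ℕ × ℕ)) (w : ℕ)
    (Wd : Set (ℕ × ℕ)) : Prop where
  sub : S ⊆ P.E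
  mem : ∀ e ∈ S, ∃ p q, row e = s(p, q) ∧ wadj p q ∧ p ∈ rect 0 0 (w + 1) (w + 1) \ Wd ∧
    q ∈ rect 0 0 (w + 1) (w + 1) \ Wd
  surj : ∀ p q, wadj p q → p ∈ rect 0 0 (w + 1) (w + 1) \ Wd →
    q ∈ rect 0 0 (w + 1) (w + 1) \ Wd → ∃ e ∈ S, row e = s(p, q)
  bic : ∀ c, c ⊆ S → WallH c row w Wd → Bic (P ／ (S \ c)) c row

/-- `z` has a bounded set `N` of own vertices, all of them far from the lines through `Om`, and two
own blobs of the matching `i` at once. -/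
structure TwoH {α : Type*} (P : Matroid α) (S Y : Set α) (row : α → Sym2 (ℕ × ℕ)) (w i : ℕ)
    (Wd : Set (ℕ × ℕ)) (Om : Finset (ℕ × ℕ)) (L β D δ : ℕ) (z : α) (N : Finset (ℕ × ℕ)) :
    Prop where
  card : N.card ≤ β
  off : ∀ v ∈ N, v ∈ rect 0 0 (w + 1) (w + 1) ∧ DeepR (0, 0) (w + 1) (w + 1) 4 v ∧ OffL L Om v
  sup : ∀ c, c ⊆ S → WallH c row w Wd → ∀ v ∉ Wd, DeepR (0, 0) (w + 1) (w + 1) D v →
    z ∉ P.closure ((S \ {e | e ∈ c ∧ v ∈ row e}) ∪ Y) → v ∈ N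
  two : ∃ c, c ⊆ S ∧ WallH c row w Wd ∧ ∃ v ∈ N, ∃ v' ∈ N, pw i v ≠ pw i v' ∧
    DeepR (0, 0) (w + 1) (w + 1) δ v ∧ DeepR (0, 0) (w + 1) (w + 1) δ v' ∧
    z ∉ P.closure (Frb S row i c (pw i v) ∪ Y) ∧ z ∉ P.closure (Frb S row i c (pw i v') ∪ Y)

section

variable {α : Type u} {P : Matroid α} {S Y : Set α} {row : α → Sym2 (ℕ × ℕ)} {w : ℕ}
  {Wd : Set (ℕ × ℕ)}

lemma exists_repH (h : RHol P S row w Wd) : ∃ c, c ⊆ S ∧ WallH c row w Wd := by
  classical
  have hg : ∀ s : Sym2 (ℕ × ℕ), ∃ e : Option α, ∀ x ∈ S, row x = s → ∃ y, e = some y ∧ y ∈ S ∧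
      row y = s := by
    intro s
    by_cases hs : ∃ x ∈ S, row x = s
    · obtain ⟨x, hx, hxs⟩ := hs
      exact ⟨some x, fun _ _ _ => ⟨x, rfl, hx, hxs⟩⟩
    · exact ⟨none, fun x hx hxs => absurd ⟨x, hx, hxs⟩ hs⟩
  choose g hg using hg
  refine ⟨{e | e ∈ S ∧ g (row e) = some e}, fun e he => he.1, ?_, ?_, ?_⟩
  · intro e he e' he' hee
    have h1 := he.2
    have h2 := he'.2
    rw [hee] at h1
    rw [h1] at h2
    exact Option.some.inj h2
  · intro e he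
    exact h.mem e he.1
  · intro p q hpq hp hq
    obtain ⟨e, he, h1⟩ := h.surj p q hpq hp hq
    obtain ⟨y, h2, h3, h4⟩ := hg _ e he h1
    exact ⟨y, ⟨h3, by rw [h4]; exact h2⟩, h4⟩

variable {i q L a b : ℕ} {Om : Finset (ℕ × ℕ)} {G : ℕ × ℕ → ℕ × ℕ} {Zt Kp : Set (Sym2 (ℕ × ℕ))}

/-- The flat of a deep class: no location in the class. -/
lemma RHol.cls_cl [P.Finite] (h : RHol P S row w Wd) (hC : Crs.{u} w i q L a b Om Wd G Zt Kp)
    (hY : Y ⊆ P.E) (hSY : rk P (S ∪ Y) = rk P S + rk P Y) (hd : Disjoint S Y) {c : Set α}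
    (hc : c ⊆ S) (hW : WallH c row w Wd) {g : ℕ × ℕ} (hg : DeepR (0, 0) a b 10 g) {z : α}
    (hz : z ∈ P.closure (S ∪ Y))
    (hloc : ∀ v ∈ rect 0 0 (w + 1) (w + 1) \ Wd, G v = g →
      z ∈ P.closure ((S \ {e | e ∈ c ∧ v ∈ row e}) ∪ Y)) :
    z ∈ P.closure (({e | (e ∈ c ∧ row e ∈ Kp) ∧ ∀ v ∈ row e, G v ≠ g} ∪
      {e | e ∈ c ∧ row e ∈ Zt} ∪ (S \ c)) ∪ Y) := by
  classical
  have hS := h.sub
  have hXS : {e | (e ∈ c ∧ row e ∈ Kp) ∧ ∀ v ∈ row e, G v ≠ g} ∪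
      {e | e ∈ c ∧ row e ∈ Zt} ∪ (S \ c) ⊆ S := by
    rintro e ((he | he) | he)
    · exact hc he.1.1
    · exact hc he.1
    · exact he.1
  have hRE : ({e | (e ∈ c ∧ row e ∈ Kp) ∧ ∀ v ∈ row e, G v ≠ g} ∪
      {e | e ∈ c ∧ row e ∈ Zt} ∪ (S \ c)) ∪ Y ⊆ P.E := union_subset (hXS.trans hS) hY
  obtain ⟨Z, hZ⟩ := P.exists_isBasis Y hY
  have hZf : Z.Finite := P.ground_finite.subset hZ.indep.subset_ground
  lift Z to Finset α using hZf
  have hZY := hZ.subset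
  have hcl : P.closure (Z : Set α) = P.closure Y := hZ.closure_eq_closure
  have hZE : (Z : Set α) ⊆ P.E := hZY.trans hY
  have hrZ : rk P Y = Z.card := by
    rw [← rk_closure, ← hcl, rk_closure, rk_indep hZ.indep, Set.ncard_coe_finset]
  have hrSZ : rk P (S ∪ (Z : Set α)) = rk P S + Z.card := by
    have e1 : P.closure (S ∪ (Z : Set α)) = P.closure (S ∪ Y) := by
      rw [← P.closure_union_closure_right_eq S (Z : Set α), hcl, P.closure_union_closure_right_eq]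
    rw [← rk_closure, e1, rk_closure, hSY, hrZ]
  have hdZ : Disjoint S (Z : Set α) := hd.mono_right hZY
  by_cases hzS : z ∈ S \ c
  · exact P.subset_closure _ hRE (Or.inl (Or.inr hzS))
  by_cases hzZ : z ∈ (Z : Set α)
  · exact P.subset_closure _ hRE (Or.inr (hZY hzZ))
  have hScE : S \ c ⊆ P.E := sdiff_subset.trans hS
  have hP1 : (P ／ (S \ c)).Finite := BQ.fin_contract _
  have hP2 : (P ／ (S \ c) ／ (Z : Set α)).Finite := BQ.fin_contract _
  have hZE1 : (Z : Set α) ⊆ (P ／ (S \ c)).E := by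
    intro e he
    exact ⟨hZE he, fun h1 => Set.disjoint_left.1 hdZ h1.1 he⟩
  have hdcZ : Disjoint c (Z : Set α) := hdZ.mono_left hc
  have hrkc : rk (P ／ (S \ c)) (c ∪ (Z : Set α)) = rk (P ／ (S \ c)) c + Z.card := by
    have e1 := BQ.rk_con (M := P) hScE (X := c) (by
      intro e he
      exact ⟨hS (hc he), fun h5 => h5.2 he⟩)
    have e2 := BQ.rk_con (M := P) hScE (X := c ∪ (Z : Set α)) (by
      rintro e (he | he)
      · exact ⟨hS (hc he), fun h5 => h5.2 he⟩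
      · exact ⟨hZE he, fun h5 => Set.disjoint_left.1 hdZ h5.1 he⟩)
    rw [union_sdiff_cancel hc] at e1
    rw [show c ∪ (Z : Set α) ∪ (S \ c) = S ∪ (Z : Set α) by
      rw [union_right_comm, union_sdiff_cancel hc]] at e2
    omega
  have hBic : Bic (P ／ (S \ c) ／ (Z : Set α)) c row :=
    bic_con_skew (h.bic c hc hW) subset_rfl hZE1 hdcZ hrkc
  have hzmem : ∀ X, z ∈ (P ／ (S \ c) ／ (Z : Set α)).closure X ↔
      z ∈ P.closure (X ∪ (Z : Set α) ∪ (S \ c)) := by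
    intro X
    rw [Matroid.contract_closure_eq, Matroid.contract_closure_eq]
    exact ⟨fun h1 => h1.1.1, fun h1 => ⟨⟨h1, hzS⟩, hzZ⟩⟩
  obtain ⟨_, hGr, _, hVC, hfull, hflat⟩ := hC.quo _ c row hBic hW
  obtain ⟨F, hF⟩ := hfull g hg
  -- another class
  have hne : {v | v ∈ rect 0 0 (w + 1) (w + 1) \ Wd ∧ G v ≠ g}.Nonempty := by
    obtain ⟨g1, g2⟩ := g
    unfold DeepR at hg
    simp only at hg
    obtain ⟨e, he, h1⟩ := hGr.surj (g1 - 1, g2) (g1, g2)
      (Or.inr ⟨rfl, Or.inl (by simp only; omega)⟩)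
      (by rw [Gad.mem_rct]; simp only; omega) (by rw [Gad.mem_rct]; simp only; omega)
    have h2 : (g1 - 1, g2) ∈ (row e).map G := by
      have h3 : (row e).map G = s((g1 - 1, g2), (g1, g2)) := h1
      rw [h3]
      exact Sym2.mem_mk_left _ _
    obtain ⟨v, hv, hvG⟩ := Sym2.mem_map.1 h2
    obtain ⟨p, p', h3, _, hp, hp'⟩ := hW.mem e he.1
    have h4 : v ∈ rect 0 0 (w + 1) (w + 1) \ Wd := by
      rw [h3, Sym2.mem_iff] at hv
      rcases hv with rfl | rfl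
      · exact hp
      · exact hp'
    refine ⟨v, h4, ?_⟩
    rw [hvG]
    intro h5
    have := congrArg Prod.fst h5
    simp only at this
    omega
  have h1 := loc_closure hBic ((Gad.rect_finite 0 0 (w + 1) (w + 1)).subset sdiff_subset)
    (A := rect 0 0 (w + 1) (w + 1) \ Wd) (by
      intro e he v hv
      obtain ⟨p, p', h3, _, hp, hp'⟩ := hW.mem e he
      rw [h3, Sym2.mem_iff] at hv
      rcases hv with rfl | rfl
      · exact hp
      · exact hp') hVC (z := z) (by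
      rw [hzmem, union_right_comm, union_sdiff_cancel hc,
        ← P.closure_union_closure_right_eq, hcl, P.closure_union_closure_right_eq]
      exact hz) _ _ F rfl (fun v hv => hv.1) hne hF (by
      intro v hv hvU
      have hvg : G v = g := by
        by_contra hcon
        exact hvU ⟨hv, hcon⟩
      have h2 := hloc v hv hvg
      change z ∈ (P ／ (S \ c) ／ (Z : Set α)).closure (ins c row {v}ᶜ)
      rw [hzmem, union_right_comm, ins_union_eq hc v,
        ← P.closure_union_closure_right_eq, hcl, P.closure_union_closure_right_eq]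
      exact h2)
  have h2 : z ∈ (P ／ (S \ c) ／ (Z : Set α)).closure
      ({e | (e ∈ c ∧ row e ∈ Kp) ∧ ∀ v ∈ row e, G v ≠ g} ∪ {e | e ∈ c ∧ row e ∈ Zt}) := by
    have h3 := (P ／ (S \ c) ／ (Z : Set α)).closure_subset_closure_of_subset_closure (hflat g hg)
    refine h3 ?_
    refine (P ／ (S \ c) ／ (Z : Set α)).closure_subset_closure ?_ h1
    exact fun e he => ⟨he.1, fun v hv => (he.2 v hv).2⟩
  rw [hzmem] at h2
  refine P.closure_subset_closure ?_ h2
  rintro e ((he | he) | he)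
  · exact Or.inl (Or.inl he)
  · exact Or.inr (hZY he)
  · exact Or.inl (Or.inr he)

/-- the elements which are contracted for CROSS -/
def ZH (S : Set α) (row : α → Sym2 (ℕ × ℕ)) (Zt Kp : Set (Sym2 (ℕ × ℕ))) (c₀ : Set α) : Set α :=
  {e | e ∈ S ∧ row e ∈ Zt} ∪ {e | (e ∈ S ∧ row e ∉ Kp) ∧ e ∉ c₀}

/-- the kept rows -/
def KH (S : Set α) (row : α → Sym2 (ℕ × ℕ)) (Kp : Set (Sym2 (ℕ × ℕ))) : Set α :=
  {e | e ∈ S ∧ row e ∈ Kp}

lemma wallH_mix (h : RHol P S row w Wd) {c₀ : Set α} (hc₀ : c₀ ⊆ S) (hW₀ : WallH c₀ row w Wd)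
    (hgr : CWL.GrdU {e | e ∈ c₀ ∧ row e ∈ Kp} (fun e => (row e).map G) (rect 0 0 a b))
    {c : Set α} (hc : Rep (KH S row Kp) (fun e => (row e).map G) (rect 0 0 a b) c) :
    WallH (c ∪ {e | e ∈ c₀ ∧ row e ∉ Kp}) row w Wd := by
  have hrep : ∀ e ∈ S, ∃ e₁ ∈ c₀, row e₁ = row e := by
    intro e he
    obtain ⟨p, q, h1, h2, h3, h4⟩ := h.mem e he
    obtain ⟨e₁, h5, h6⟩ := hW₀.surj p q h2 h3 h4
    exact ⟨e₁, h5, by rw [h6, h1]⟩
  refine ⟨?_, ?_, ?_⟩
  · rintro e (he | he) e' (he' | he') hee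
    · exact hc.2.inj he he' (congrArg (Sym2.map G) hee)
    · exact absurd (hee ▸ (hc.1 he).2) he'.2
    · exact absurd (hee ▸ (hc.1 he').2) he.2
    · exact hW₀.inj he.1 he'.1 hee
  · rintro e (he | he)
    · exact h.mem e (hc.1 he).1
    · exact h.mem e (hc₀ he.1)
  · intro p q hpq hp hq
    obtain ⟨e₀, h0, h1⟩ := hW₀.surj p q hpq hp hq
    by_cases hk : row e₀ ∈ Kp
    · obtain ⟨g, g', h2, h3, h4, h5⟩ := hgr.mem e₀ ⟨h0, hk⟩
      obtain ⟨e, he, h6⟩ := hc.2.surj g g' h3 h4 h5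
      obtain ⟨e₁, h7, h8⟩ := hrep e (hc.1 he).1
      have h9 : e₁ = e₀ := by
        refine hgr.inj ⟨h7, by rw [h8]; exact (hc.1 he).2⟩ ⟨h0, hk⟩ ?_
        rw [h8]
        exact h6.trans h2.symm
      refine ⟨e, Or.inl he, ?_⟩
      rw [← h8, h9, h1]
    · exact ⟨e₀, Or.inr ⟨h0, hk⟩, h1⟩

lemma zh_eq (hd : Disjoint Zt Kp) {c₀ : Set α} (hc₀ : c₀ ⊆ S) {c : Set α} (hc : c ⊆ KH S row Kp) :
    (S \ (c ∪ {e | e ∈ c₀ ∧ row e ∉ Kp})) ∪
      {e | e ∈ c ∪ {e | e ∈ c₀ ∧ row e ∉ Kp} ∧ row e ∈ Zt} =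
      ZH S row Zt Kp c₀ ∪ (KH S row Kp \ c) := by
  have hd' : ∀ x, x ∈ Zt → x ∉ Kp := fun x hx hk => Set.disjoint_left.1 hd hx hk
  ext e
  have h1 := @hc₀ e
  have h2 := @hc e
  have h3 := hd' (row e)
  simp only [ZH, KH, mem_union, mem_sdiff, mem_ofPred_eq] at h2 ⊢
  tauto

/-- The rows of the quotient. -/
lemma RHol.rgrd [P.Finite] (h : RHol P S row w Wd) (hC : Crs.{u} w i q L a b Om Wd G Zt Kp)
    {c₀ : Set α} (hc₀ : c₀ ⊆ S) (hW₀ : WallH c₀ row w Wd) :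
    RGrd (P ／ ZH S row Zt Kp c₀) (KH S row Kp) (fun e => (row e).map G) (rect 0 0 a b) := by
  classical
  have hS := h.sub
  have hP1 : (P ／ (S \ c₀)).Finite := BQ.fin_contract _
  have hgr := (hC.quo _ c₀ row (h.bic c₀ hc₀ hW₀) hW₀).2.1
  have hrep : ∀ e ∈ S, ∃ e₁ ∈ c₀, row e₁ = row e := by
    intro e he
    obtain ⟨p, q, h1, h2, h3, h4⟩ := h.mem e he
    obtain ⟨e₁, h5, h6⟩ := hW₀.surj p q h2 h3 h4
    exact ⟨e₁, h5, by rw [h6, h1]⟩
  refine ⟨?_, ?_, ?_, ?_⟩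
  · rintro e ⟨he, hk⟩
    refine ⟨hS he, ?_⟩
    rintro (h1 | h1)
    · exact Set.disjoint_left.1 hC.disj h1.2 hk
    · exact h1.1.2 hk
  · rintro e ⟨he, hk⟩
    obtain ⟨e₁, h1, h2⟩ := hrep e he
    obtain ⟨g, g', h3, h4, h5, h6⟩ := hgr.mem e₁ ⟨h1, by rw [h2]; exact hk⟩
    refine ⟨g, g', ?_, h4, h5, h6⟩
    rw [← h2]
    exact h3
  · intro g g' h1 h2 h3
    obtain ⟨e, he, h4⟩ := hgr.surj g g' h1 h2 h3
    exact ⟨e, ⟨hc₀ he.1, he.2⟩, h4⟩
  · intro c hc hcG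
    have hcc := wallH_mix h hc₀ hW₀ hgr (c := c) ⟨hc, hcG⟩
    obtain ⟨c₁, hc₁⟩ : ∃ c₁, c₁ = c ∪ {e | e ∈ c₀ ∧ row e ∉ Kp} := ⟨_, rfl⟩
    have hc₁S : c₁ ⊆ S := by
      rw [hc₁]
      exact union_subset (fun e he => (hc he).1) (fun e he => hc₀ he.1)
    rw [← hc₁] at hcc
    have hP2 : (P ／ (S \ c₁)).Finite := BQ.fin_contract _
    have h1 := (hC.quo _ c₁ row (h.bic c₁ hc₁S hcc) hcc).1
    rw [Matroid.contract_contract, hc₁, zh_eq hC.disj hc₀ hc, ← hc₁] at h1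
    have h2 : {e | e ∈ c₁ ∧ row e ∈ Kp} = c := by
      ext e
      rw [hc₁]
      constructor
      · rintro ⟨h3 | h3, h4⟩
        · exact h3
        · exact absurd h4 h3.2
      · exact fun h3 => ⟨Or.inl h3, (hc h3).2⟩
    rw [h2] at h1
    rw [Matroid.contract_contract]
    exact h1

end

/-- **LIFT+ on a wall with windows**, the light set is bounded by the rank of `T` over `S`. -/
theorem liftHT (k β D : ℕ) : ∃ ρ C : ℕ, ∀ L : ℕ, ∃ δ : ℕ, ∀ {α : Type u} (P : Matroid α) [P.Finite]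
    (S Y : Set α) (row : α → Sym2 (ℕ × ℕ)) (w i q a b : ℕ) (Om : Finset (ℕ × ℕ))
    (Wd : Set (ℕ × ℕ)) (G : ℕ × ℕ → ℕ × ℕ) (Zt Kp : Set (Sym2 (ℕ × ℕ))),
    Crs.{u} w i q L a b Om Wd G Zt Kp → i ≤ 1 → RHol P S row w Wd → Y ⊆ P.E →
    rk P (S ∪ Y) = rk P S + rk P Y → Disjoint S Y →
    ∀ (T : Set α) (N : α → Finset (ℕ × ℕ)), T ⊆ P.closure (S ∪ Y) → Disjoint T S →
    (∀ z ∈ T, TwoH P S Y row w i Wd Om L β D δ z (N z)) →
    HasUniformMinor P k ∨ ∃ (V : Finset (ℕ × ℕ)) (F₀ : Finset α),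
      V.card ≤ C * (rk P (S ∪ T) - rk P S) ∧
      (V : Set (ℕ × ℕ)) ⊆ rect 0 0 (w + 1) (w + 1) ∧
      F₀.card ≤ ρ ∧ (F₀ : Set α) ⊆ T ∧
      ∀ z ∈ T, (∀ v ∈ N z, ∀ v' ∈ V, δ ≤ sd v v') → z ∈ P.closure (S ∪ (F₀ : Set α)) := by
  classical
  obtain ⟨ρ, C, δ₁, hR⟩ := liftRectT.{u} k β (D + 10)
  refine ⟨ρ, C, fun L => ?_⟩
  refine ⟨4 * δ₁ + 4 * L + 10, ?_⟩
  intro α P _ S Y row w i q a b Om Wd G Zt Kp hC hi h hY hSY hd T N hT hTS hN
  have hS := h.sub
  obtain ⟨c₀, hc₀, hW₀⟩ := exists_repH h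
  obtain ⟨Z, hZ⟩ : ∃ Z, Z = ZH S row Zt Kp c₀ := ⟨_, rfl⟩
  obtain ⟨K, hK⟩ : ∃ K, K = KH S row Kp := ⟨_, rfl⟩
  have hgrd := h.rgrd hC hc₀ hW₀
  rw [← hZ, ← hK] at hgrd
  have hP1 : (P ／ (S \ c₀)).Finite := BQ.fin_contract _
  have hPZ : (P ／ Z).Finite := BQ.fin_contract _
  obtain ⟨_, hgr, hspan, _⟩ := hC.quo _ c₀ row (h.bic c₀ hc₀ hW₀) hW₀
  have hd' : ∀ x, x ∈ Zt → x ∉ Kp := fun x hx hk => Set.disjoint_left.1 hC.disj hx hk
  have hZS : Z ⊆ S := by
    rw [hZ]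
    rintro e (he | he)
    · exact he.1
    · exact he.1.1
  have hKS : K ⊆ S := by
    rw [hK]
    exact fun e he => he.1
  have hZE : Z ⊆ P.E := hZS.trans hS
  have hKZ : Disjoint K Z := by
    rw [Set.disjoint_left, hK, hZ]
    rintro e ⟨he, hk⟩ (h1 | h1)
    · exact hd' _ h1.2 hk
    · exact h1.1.2 hk
  have hYZ : Disjoint Y Z := (hd.mono_left hZS).symm
  -- regular vertices are not in the windows
  have hoff : ∀ v, OffL L Om v → v ∉ Wd := by
    intro v hv hw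
    obtain ⟨o, ho, h1⟩ := hC.win' v hw
    have h2 := hv o ho
    rw [sd_le] at h1
    omega
  -- the closure of the contraction
  have hcl : ∀ X : Set α, ∀ z ∈ T, z ∈ (P ／ Z).closure X ↔ z ∈ P.closure (X ∪ Z) := by
    intro X z hz
    rw [Matroid.contract_closure_eq]
    exact ⟨fun h1 => h1.1, fun h1 => ⟨h1, fun h2 => Set.disjoint_left.1 hTS hz (hZS h2)⟩⟩
  have hrY : rk (P ／ Z) Y = rk P Y := by
    have h1 := BQ.rk_con (M := P) hZE (X := Y) (fun e he => ⟨hY he, Set.disjoint_left.1 hYZ he⟩)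
    have h2 := rk_skew_sub hSY hZS
    rw [union_comm] at h2
    omega
  have hskew : rk (P ／ Z) (K ∪ Y) = rk (P ／ Z) K + rk (P ／ Z) Y := by
    have h1 := BQ.rk_con (M := P) hZE (X := K ∪ Y) (by
      rintro e (he | he)
      · exact ⟨hS (hKS he), Set.disjoint_left.1 hKZ he⟩
      · exact ⟨hY he, Set.disjoint_left.1 hYZ he⟩)
    have h2 := BQ.rk_con (M := P) hZE (X := K) (fun e he =>
      ⟨hS (hKS he), Set.disjoint_left.1 hKZ he⟩)
    have h3 := rk_skew_sub hSY (union_subset hKS hZS)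
    rw [union_right_comm] at h3
    omega
  have hScl : S ⊆ P.closure (K ∪ Z) := by
    have hKZE : K ∪ Z ⊆ P.E := union_subset (hKS.trans hS) hZE
    intro e he
    by_cases hk : row e ∈ Kp
    · exact P.subset_closure _ hKZE (Or.inl (by rw [hK]; exact ⟨he, hk⟩))
    by_cases hec : e ∈ c₀
    · have h1 := hspan hec
      rw [Matroid.contract_closure_eq] at h1
      refine P.closure_subset_closure ?_ h1.1
      rintro x ((hx | hx) | hx)
      · exact Or.inl (by rw [hK]; exact ⟨hc₀ hx.1, hx.2⟩)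
      · exact Or.inr (by rw [hZ]; exact Or.inl ⟨hc₀ hx.1, hx.2⟩)
      · by_cases hkx : row x ∈ Kp
        · exact Or.inl (by rw [hK]; exact ⟨hx.1, hkx⟩)
        · exact Or.inr (by rw [hZ]; exact Or.inr ⟨⟨hx.1, hkx⟩, hx.2⟩)
    · exact P.subset_closure _ hKZE (Or.inr (by rw [hZ]; exact Or.inr ⟨⟨he, hk⟩, hec⟩))
  have hT1 : T ⊆ (P ／ Z).closure (K ∪ Y) := by
    intro z hz
    rw [hcl _ z hz]
    refine P.closure_subset_closure_of_subset_closure ?_ (hT hz)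
    have hE : K ∪ Y ∪ Z ⊆ P.E := union_subset (union_subset (hKS.trans hS) hY) hZE
    refine union_subset (hScl.trans (P.closure_subset_closure ?_))
      (Subset.trans ?_ (P.subset_closure _ hE))
    · rintro x (hx | hx)
      · exact Or.inl (Or.inl hx)
      · exact Or.inr hx
    · exact fun x hx => Or.inl (Or.inr hx)
  have hTwo : ∀ z ∈ T, TwoR (P ／ Z) K Y (fun e => (row e).map G) a b β (D + 10) δ₁ z
      ((N z).image G) := by
    intro z hz
    obtain ⟨n1, n2, n3, n4⟩ := hN z hz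
    refine ⟨Finset.card_image_le.trans n1, ?_, ?_⟩
    · -- the support
      intro c hc g hg hno
      by_contra hgN
      apply hno
      obtain ⟨c₁, hc₁⟩ : ∃ c₁, c₁ = c ∪ {e | e ∈ c₀ ∧ row e ∉ Kp} := ⟨_, rfl⟩
      rw [hK] at hc
      have hW₁ := wallH_mix h hc₀ hW₀ hgr hc
      rw [← hc₁] at hW₁
      have hc₁S : c₁ ⊆ S := by
        rw [hc₁]
        exact union_subset (fun e he => (hc.1 he).1) (fun e he => hc₀ he.1)
      have hg10 : DeepR (0, 0) a b 10 g := by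
        unfold DeepR at hg ⊢
        simp only at hg ⊢
        omega
      have h1 := h.cls_cl hC hY hSY hd hc₁S hW₁ hg10 (hT hz) (by
        intro v hv hvg
        by_contra hcon
        refine hgN (Finset.mem_image.2 ⟨v, n3 c₁ hc₁S hW₁ v hv.2 ?_ hcon, hvg⟩)
        have h2 := hC.deep' v hv.1 (D + 9) (by rw [hvg]; exact hg)
        unfold DeepR pw at h2
        unfold DeepR
        simp only at h2 ⊢
        omega)
      rw [hcl _ z hz]
      refine P.closure_subset_closure ?_ h1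
      rintro e (((he | he) | he) | he)
      · refine Or.inl (Or.inl ⟨by rw [hK]; exact ⟨hc₁S he.1.1, he.1.2⟩, ?_⟩)
        rintro ⟨_, h3⟩
        obtain ⟨v, hv, hvg⟩ := Sym2.mem_map.1 h3
        exact he.2 v hv hvg
      · exact Or.inr (by rw [hZ]; exact Or.inl ⟨hc₁S he.1, he.2⟩)
      · by_cases hk : row e ∈ Kp
        · refine Or.inl (Or.inl ⟨by rw [hK]; exact ⟨he.1, hk⟩, ?_⟩)
          rintro ⟨h3, _⟩
          exact he.2 (by rw [hc₁]; exact Or.inl h3)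
        · refine Or.inr ?_
          rw [hZ]
          refine Or.inr ⟨⟨he.1, hk⟩, fun h3 => he.2 ?_⟩
          rw [hc₁]
          exact Or.inr ⟨h3, hk⟩
      · exact Or.inl (Or.inr he)
    · -- two vertices
      obtain ⟨c, hc, hW, v, hv, v', hv', hvv, hdv, hdv', hz1, hz2⟩ := n4
      have hPc : (P ／ (S \ c)).Finite := BQ.fin_contract _
      have hgrc := (hC.quo _ c row (h.bic c hc hW) hW).2.1
      have key : ∀ v ∈ N z, z ∉ P.closure (Frb S row i c (pw i v) ∪ Y) →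
          z ∉ (P ／ Z).closure ((K \ {e | e ∈ {e | e ∈ c ∧ row e ∈ Kp} ∧
            G v ∈ (row e).map G}) ∪ Y) := by
        intro v hv hno hin
        obtain ⟨o1, o2, o3⟩ := n2 v hv
        rw [hcl _ z hz] at hin
        refine hno (P.closure_subset_closure ?_ hin)
        have hleave : ∀ e ∈ S, (∃ p ∈ row e, pw i p = pw i v) → (∃ p ∈ row e, pw i p ≠ pw i v) →
            row e ∈ Kp ∧ G v ∈ (row e).map G := by
          intro e he ⟨p, hp, hp1⟩ ⟨p', hp', hp'1⟩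
          obtain ⟨x, y, h1, h2, h3, h4⟩ := h.mem e he
          have hxy : (pw i x = pw i v ∧ pw i y ≠ pw i v) ∨ (pw i y = pw i v ∧ pw i x ≠ pw i v) := by
            rw [h1, Sym2.mem_iff] at hp hp'
            rcases hp with rfl | rfl <;> rcases hp' with rfl | rfl
            · exact absurd hp1 hp'1
            · exact Or.inl ⟨hp1, hp'1⟩
            · exact Or.inr ⟨hp1, hp'1⟩
            · exact absurd hp1 hp'1
          rcases hxy with ⟨h5, h6⟩ | ⟨h5, h6⟩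
          · refine ⟨by rw [h1]; exact hC.kp_reg v o1 o2 o3 x y h2 h3 h4 h5 h6, ?_⟩
            have h7 := (hC.reg v o1 o2 o3 x h3).2 h5
            rw [← h7, h1]
            exact Sym2.mem_map.2 ⟨x, Sym2.mem_mk_left _ _, rfl⟩
          · have h2' : wadj y x := by
              unfold wadj at h2 ⊢
              omega
            refine ⟨by rw [h1, Sym2.eq_swap]; exact hC.kp_reg v o1 o2 o3 y x h2' h4 h3 h5 h6, ?_⟩
            have h7 := (hC.reg v o1 o2 o3 y h4).2 h5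
            rw [← h7, h1]
            exact Sym2.mem_map.2 ⟨y, Sym2.mem_mk_right _ _, rfl⟩
        rintro e ((he | he) | he)
        · refine Or.inl ⟨hKS he.1, ?_⟩
          rintro ⟨h1, h2, h3⟩
          obtain ⟨h4, h5⟩ := hleave e (hKS he.1) h2 h3
          exact he.2 ⟨⟨h1, h4⟩, h5⟩
        · exact Or.inr he
        · refine Or.inl ⟨hZS he, ?_⟩
          rintro ⟨h1, h2, h3⟩
          obtain ⟨h4, h5⟩ := hleave e (hZS he) h2 h3
          rw [hZ] at he
          rcases he with he | he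
          · exact hd' _ he.2 h4
          · exact he.1.2 h4
      have hdeep : ∀ v, v ∈ rect 0 0 (w + 1) (w + 1) →
          DeepR (0, 0) (w + 1) (w + 1) (4 * δ₁ + 4 * L + 10) v → DeepR (0, 0) a b δ₁ (G v) := by
        intro v hv hv1
        refine hC.deep v hv δ₁ ?_
        unfold DeepR at hv1
        unfold DeepR pw
        simp only at hv1 ⊢
        omega
      refine ⟨{e | e ∈ c ∧ row e ∈ Kp}, ⟨?_, hgrc⟩, G v, G v', ?_, hdeep v (n2 v hv).1 hdv,
        hdeep v' (n2 v' hv').1 hdv', key v hv hz1, key v' hv' hz2⟩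
      · rw [hK]
        exact fun e he => ⟨hc he.1, he.2⟩
      · intro h1
        obtain ⟨o1, o2, o3⟩ := n2 v hv
        obtain ⟨p1, _, p3⟩ := n2 v' hv'
        exact hvv ((hC.reg v o1 o2 o3 v' ⟨p1, hoff v' p3⟩).1 h1.symm).symm
  rcases hR (P ／ Z) K Y (fun e => (row e).map G) a b hC.a_le hgrd (fun e he =>
      ⟨hY he, Set.disjoint_left.1 hYZ he⟩) hskew T (fun z => (N z).image G) hT1 hTwo with
    h1 | ⟨V', F₀, hV', hF₀c, hF₀T, hfin⟩
  · exact Or.inl (HasUniformMinor_mono h1 (con_minor P _))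
  · right
    have hpre : ∀ g : ℕ × ℕ, ∃ v : ℕ × ℕ, v ∈ rect 0 0 (w + 1) (w + 1) ∧
        ∀ v' ∈ rect 0 0 (w + 1) (w + 1), sd (G v') g < δ₁ → sd (G v) g < δ₁ := by
      intro g
      by_cases h1 : ∃ v ∈ rect 0 0 (w + 1) (w + 1), sd (G v) g < δ₁
      · obtain ⟨v, hv, h2⟩ := h1
        exact ⟨v, hv, fun _ _ _ => h2⟩
      · refine ⟨(0, 0), by rw [Gad.mem_rct]; simp only; omega, fun v' hv' h2 => ?_⟩
        exact absurd ⟨v', hv', h2⟩ h1
    choose pr hpr1 hpr2 using hpre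
    refine ⟨V'.image pr, F₀, Finset.card_image_le.trans (hV'.trans (Nat.mul_le_mul_left _ ?_)),
      ?_, hF₀c, hF₀T, ?_⟩
    · -- the rank of `T` over the rows does not change
      have hTE : T ⊆ P.E := hT.trans (P.closure_subset_ground _)
      have k1 := BQ.rk_con (M := P) hZE (X := K ∪ T) (by
        rintro e (he | he)
        · exact ⟨hS (hKS he), Set.disjoint_left.1 hKZ he⟩
        · exact ⟨hTE he, fun h2 => Set.disjoint_left.1 hTS he (hZS h2)⟩)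
      have k2 := BQ.rk_con (M := P) hZE (X := K) (fun e he =>
        ⟨hS (hKS he), Set.disjoint_left.1 hKZ he⟩)
      have k3 : rk P (K ∪ Z) = rk P S := by
        refine le_antisymm (rk_mono P (union_subset hKS hZS)) ?_
        rw [← rk_closure (K ∪ Z)]
        exact rk_mono P hScl
      have k4 : rk P (K ∪ T ∪ Z) ≤ rk P (S ∪ T) := by
        refine rk_mono P ?_
        rintro e ((he | he) | he)
        · exact Or.inl (hKS he)
        · exact Or.inr he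
        · exact Or.inl (hZS he)
      omega
    · intro v hv
      rw [Finset.coe_image] at hv
      obtain ⟨g, _, rfl⟩ := hv
      exact hpr1 g
    · intro z hz hzV
      have h1 := hfin z hz (by
        intro g hg g' hg'
        obtain ⟨v, hv, rfl⟩ := Finset.mem_image.1 hg
        by_contra hcon
        have hvr := ((hN z hz).off v hv).1
        have h2 := hpr2 g' v hvr (by omega)
        have h3 := hC.dist v (pr g') hvr (hpr1 g')
        have h4 := hzV v hv (pr g') (Finset.mem_image.2 ⟨g', hg', rfl⟩)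
        have h5 := pw_far hi v (pr g')
        have h6 : sd (G v) (G (pr g')) ≤ 2 * δ₁ := by
          have t1 := sd_le.1 (le_refl (sd (G v) g'))
          have t2 := sd_le.1 (le_refl (sd (G (pr g')) g'))
          rw [sd_le]
          omega
        omega)
      rw [hcl _ z hz] at h1
      refine P.closure_subset_closure ?_ h1
      rintro e ((he | he) | he)
      · exact Or.inl (hKS he)
      · exact Or.inr he
      · exact Or.inl (hZS he)

/-- **LIFT+ on a wall with windows.** -/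
theorem liftH (k β D : ℕ) : ∃ ρ C : ℕ, ∀ L : ℕ, ∃ δ : ℕ, ∀ {α : Type u} (P : Matroid α) [P.Finite]
    (S Y : Set α) (row : α → Sym2 (ℕ × ℕ)) (w i q a b : ℕ) (Om : Finset (ℕ × ℕ))
    (Wd : Set (ℕ × ℕ)) (G : ℕ × ℕ → ℕ × ℕ) (Zt Kp : Set (Sym2 (ℕ × ℕ))),
    Crs.{u} w i q L a b Om Wd G Zt Kp → i ≤ 1 → RHol P S row w Wd → Y ⊆ P.E →
    rk P (S ∪ Y) = rk P S + rk P Y → Disjoint S Y →
    ∀ (T : Set α) (N : α → Finset (ℕ × ℕ)), T ⊆ P.closure (S ∪ Y) → Disjoint T S →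
    (∀ z ∈ T, TwoH P S Y row w i Wd Om L β D δ z (N z)) →
    HasUniformMinor P k ∨ ∃ (V : Finset (ℕ × ℕ)) (F₀ : Finset α), V.card ≤ C * rk P Y ∧
      (V : Set (ℕ × ℕ)) ⊆ rect 0 0 (w + 1) (w + 1) ∧
      F₀.card ≤ ρ ∧ (F₀ : Set α) ⊆ T ∧
      ∀ z ∈ T, (∀ v ∈ N z, ∀ v' ∈ V, δ ≤ sd v v') → z ∈ P.closure (S ∪ (F₀ : Set α)) := by
  obtain ⟨ρ, C, h⟩ := liftHT.{u} k β D
  refine ⟨ρ, C, fun L => ?_⟩
  obtain ⟨δ, h⟩ := h L
  refine ⟨δ, ?_⟩
  intro α P _ S Y row w i q a b Om Wd G Zt Kp hC hi hR hY hSY hd T N hT hTS hN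
  rcases h P S Y row w i q a b Om Wd G Zt Kp hC hi hR hY hSY hd T N hT hTS hN with
    h1 | ⟨V, F₀, h1, h2⟩
  · exact Or.inl h1
  · refine Or.inr ⟨V, F₀, h1.trans (Nat.mul_le_mul_left _ ?_), h2⟩
    have h5 : rk P (S ∪ T) ≤ rk P (S ∪ Y) := by
      rw [← rk_closure (S ∪ Y)]
      refine rk_mono P (union_subset ?_ hT)
      exact subset_union_left.trans (P.subset_closure _ (union_subset hR.sub hY))
    omega

end DA
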