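import Pool.Agent.DA.LiftHr
import Pool.Agent.DA.LiftW

/-!
# LIFT+ on a brick wall with holes, all windows of tiles at once

`liftHW`: `liftH` is applied after the contraction of the sets `K b`, `b ∉ w`, for every window `w`
of `ρ` tiles; by `liftW` there is a large set `B` of tiles and one light set `V` of vertices for all
tiles of `B` together.
-/

open Set BIC BICS
open scoped Matroid

namespace DA

open Gad

universe u

section

variable {α : Type u} {P : Matroid α} {S : Set α} {row : α → Sym2 (ℕ × ℕ)} {w : ℕ}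
  {Wd : Set (ℕ × ℕ)}

/-- contraction of a set which is skew to the wall -/
lemma RHol.con [P.Finite] (h : RHol P S row w Wd) {J : Set α} (hJ : J ⊆ P.E)
    (hSJ : rk P (S ∪ J) = rk P S + rk P J) (hd : Disjoint S J) : RHol (P ／ J) S row w Wd := by
  have hSE := h.sub
  have rA : ∀ A ⊆ S, rk (P ／ J) A = rk P A := by
    intro A hA
    have h1 := BQ.rk_con (M := P) hJ (X := A) (fun x hx => ⟨hSE (hA hx),
      Set.disjoint_left.1 hd (hA hx)⟩)
    have h2 := rk_skew_sub hSJ hA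
    omega
  refine ⟨fun x hx => ⟨hSE hx, Set.disjoint_left.1 hd hx⟩, h.mem, h.surj, ?_⟩
  intro c hc hW
  have hb := h.bic c hc hW
  have hcS : (S \ c) ⊆ P.E := sdiff_subset.trans hSE
  have hf0 : (P ／ J).Finite := BQ.fin_contract _
  have hf1 : (P ／ (S \ c)).Finite := BQ.fin_contract _
  have hf2 : (P ／ J ／ (S \ c)).Finite := BQ.fin_contract _
  refine Bic_of_rk hb (fun x hx => ⟨⟨hSE (hc hx), Set.disjoint_left.1 hd (hc hx)⟩,
    fun h2 => h2.2 hx⟩) ?_
  intro X hX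
  have h1 := BQ.rk_con (M := P) hcS (X := X) (fun x hx => ⟨hSE (hc (hX hx)),
    fun h2 => h2.2 (hX hx)⟩)
  have h2 := BQ.rk_con (M := P ／ J) (C := S \ c) (fun x hx => ⟨hSE hx.1,
    Set.disjoint_left.1 hd hx.1⟩) (X := X) (fun x hx => ⟨⟨hSE (hc (hX hx)),
    Set.disjoint_left.1 hd (hc (hX hx))⟩, fun h2 => h2.2 (hX hx)⟩)
  have h3 := rA (X ∪ (S \ c)) (union_subset (hX.trans hc) sdiff_subset)
  have h4 := rA (S \ c) sdiff_subset
  omega

end

lemma KU_union {α : Type*} (K : ℕ → Set α) {I w : Finset ℕ} (h : w ⊆ I) :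
    KU K w ∪ KU K (I \ w) = KU K I := by
  classical
  ext e
  rw [mem_union, mem_KU, mem_KU, mem_KU]
  constructor
  · rintro (⟨b, hb, h1⟩ | ⟨b, hb, h1⟩)
    · exact ⟨b, h hb, h1⟩
    · exact ⟨b, (Finset.mem_sdiff.1 hb).1, h1⟩
  · rintro ⟨b, hb, h1⟩
    by_cases h2 : b ∈ w
    · exact Or.inl ⟨b, h2, h1⟩
    · exact Or.inr ⟨b, Finset.mem_sdiff.2 ⟨hb, h2⟩, h1⟩

lemma ncard_KU {α : Type*} {K : ℕ → Set α} {hL : ℕ} (w : Finset ℕ)
    (hK : ∀ b ∈ w, (K b).Finite ∧ (K b).ncard ≤ hL) :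
    (KU K w).Finite ∧ (KU K w).ncard ≤ w.card * hL := by
  classical
  induction w using Finset.induction_on with
  | empty =>
    have h1 : KU K ∅ = ∅ := by
      ext e
      rw [mem_KU]
      simp
    rw [h1]
    simp
  | insert b w hb ih =>
    obtain ⟨h1, h2⟩ := ih fun b' hb' => hK b' (Finset.mem_insert_of_mem hb')
    have h3 := hK b (Finset.mem_insert_self _ _)
    have h4 : KU K (insert b w) = K b ∪ KU K w := by
      ext e
      rw [mem_union, mem_KU, mem_KU]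
      constructor
      · rintro ⟨b', hb', h5⟩
        rcases Finset.mem_insert.1 hb' with rfl | hb'
        · exact Or.inl h5
        · exact Or.inr ⟨b', hb', h5⟩
      · rintro (h5 | ⟨b', hb', h5⟩)
        · exact ⟨b, Finset.mem_insert_self _ _, h5⟩
        · exact ⟨b', Finset.mem_insert_of_mem hb', h5⟩
    rw [h4]
    refine ⟨h3.1.union h1, (Set.ncard_union_le _ _).trans ?_⟩
    rw [Finset.card_insert_of_notMem hb, Nat.succ_mul]
    omega

/-- **LIFT+ on a wall with holes, all windows of tiles at once.**  `K b` = the elements of the tile `b`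
on the rows outside of the wall, `Y₀` = the other elements outside.  `V` is light, and the elements
of `T` with places far from `V` have rank at most `ρ` over `S` and `K b`, `b ∈ I \ B`. -/
theorem liftHW (k β D : ℕ) : ∃ ρ C : ℕ, ∀ L : ℕ, ∃ δ : ℕ, ∀ wmax m : ℕ, ρ + 1 ≤ m →
    ∃ n : ℕ, ∀ {α : Type u} (P : Matroid α) [P.Finite] (S Y₀ : Set α) (K : ℕ → Set α)
    (row : α → Sym2 (ℕ × ℕ)) (w i q a b hL : ℕ) (Om : Finset (ℕ × ℕ)) (Wd : Set (ℕ × ℕ))
    (G : ℕ × ℕ → ℕ × ℕ) (Zt Kp : Set (Sym2 (ℕ × ℕ))) (I : Finset ℕ), w ≤ wmax →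
    Crs.{u} w i q L a b Om Wd G Zt Kp → i ≤ 1 → RHol P S row w Wd → n ≤ I.card → Y₀ ⊆ P.E →
    KU K I ⊆ P.E → (∀ b ∈ I, (K b).ncard ≤ hL) →
    (∀ b ∈ I, ∀ b' ∈ I, b ≠ b' → Disjoint (K b) (K b')) →
    rk P (S ∪ (Y₀ ∪ KU K I)) = rk P S + rk P (Y₀ ∪ KU K I) → P.Indep (KU K I) →
    Disjoint S (Y₀ ∪ KU K I) → Disjoint Y₀ (KU K I) →
    ∀ (T : Set α) (N : α → Finset (ℕ × ℕ)), T ⊆ P.closure (S ∪ (Y₀ ∪ KU K I)) →
    Disjoint T (S ∪ (Y₀ ∪ KU K I)) →
    (∀ z ∈ T, TwoH P S (Y₀ ∪ KU K I) row w i Wd Om L β D δ z (N z)) →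
    HasUniformMinor P k ∨ ∃ B ⊆ I, B.card = m ∧ ∃ V : Finset (ℕ × ℕ),
      V.card ≤ C * (rk P Y₀ + hL) ∧ (V : Set (ℕ × ℕ)) ⊆ rect 0 0 (w + 1) (w + 1) ∧
      rk P ({z | z ∈ T ∧ ∀ v ∈ N z, ∀ v' ∈ V, δ ≤ sd v v'} ∪ (S ∪ KU K (I \ B))) ≤
        rk P (S ∪ KU K (I \ B)) + ρ := by
  classical
  obtain ⟨ρ, C, h⟩ := liftH.{u} k β D
  refine ⟨ρ, C * (ρ + 1), fun L => ?_⟩
  obtain ⟨δ, h⟩ := h L
  refine ⟨δ, fun wmax m hm => ?_⟩
  obtain ⟨Rc, hRc⟩ : ∃ Rc : Finset (ℕ × ℕ), Rc = Finset.range (wmax + 1) ×ˢ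
      Finset.range (wmax + 1) := ⟨_, rfl⟩
  obtain ⟨n, hn⟩ := liftW (ρ + 1) (2 ^ Rc.card) m hm
  refine ⟨n, ?_⟩
  intro α P _ S Y₀ K row w i q a b hL Om Wd G Zt Kp I hw hC hi hR hI hY₀ hKE hKc hKd hsk hKi hdS
    hdY T N hT hTd hN
  have hSE := hR.sub
  obtain ⟨Y, hY⟩ : ∃ Y, Y = Y₀ ∪ KU K I := ⟨_, rfl⟩
  rw [← hY] at hsk hdS hT hTd hN
  have hYE : Y ⊆ P.E := by rw [hY]; exact union_subset hY₀ hKE
  have hKf : (KU K I).Finite := P.ground_finite.subset hKE
  -- ranks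
  have hKmono : ∀ J ⊆ I, KU K J ⊆ KU K I := by
    intro J hJ e he
    obtain ⟨b, hb, h1⟩ := mem_KU.1 he
    exact mem_KU.2 ⟨b, hJ hb, h1⟩
  have rSY : rk P (S ∪ Y) = rk P S + rk P Y := hsk
  -- every part of `KU K I` is independent over the wall
  have rZ : ∀ Z ⊆ KU K I, rk P Z = Z.ncard ∧ rk P (S ∪ Z) = rk P S + Z.ncard := by
    intro Z hZ
    have h1 := rk_indep (hKi.subset hZ)
    have h2 : Z ⊆ Y := by
      rw [hY]
      exact hZ.trans subset_union_right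
    have h3 : rk P (Y ∪ S) = rk P Y + rk P S := by
      rw [union_comm, rSY, Nat.add_comm]
    have h4 := rk_skew_sub h3 h2
    rw [union_comm] at h4
    exact ⟨h1, by omega⟩
  by_contra hcon
  push Not at hcon
  obtain ⟨hnU, hcon⟩ := hcon
  -- the colours
  obtain ⟨TT, hTT⟩ : ∃ TT : (↥(Rc.powerset)) → Set α, ∀ V, TT V =
      {z | z ∈ T ∧ ∀ v ∈ N z, ∀ v' ∈ (V : Finset (ℕ × ℕ)), δ ≤ sd v v'} := ⟨_, fun _ => rfl⟩
  have key := hn (Γ := ↥(Rc.powerset)) (by
      rw [Nat.card_eq_fintype_card, Fintype.card_coe, Finset.card_powerset]) P S Y K TT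
    (fun V => (V : Finset (ℕ × ℕ)).card ≤ C * (ρ + 1) * (rk P Y₀ + hL) ∧
      ((V : Finset (ℕ × ℕ)) : Set (ℕ × ℕ)) ⊆ rect 0 0 (w + 1) (w + 1)) I hI hSE hYE rSY
    (fun V => by rw [hTT]; exact fun z hz => hT hz.1) (fun b hb e he => by
      rw [hY]
      exact Or.inr (mem_KU.2 ⟨b, hb, he⟩)) hKi hKd (by
    intro u hu huc
    obtain ⟨Z, hZ⟩ : ∃ Z, Z = KU K (I \ u) := ⟨_, rfl⟩
    rw [← hZ]
    have hZI : Z ⊆ KU K I := by rw [hZ]; exact hKmono _ Finset.sdiff_subset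
    have hZE := hZI.trans hKE
    have hZf := hKf.subset hZI
    have huI : KU K u ⊆ KU K I := hKmono _ hu
    have hPZ : (P ／ Z).Finite := BQ.fin_contract _
    have hdZ : Disjoint S Z := hdS.mono_right (by rw [hY]; exact hZI.trans subset_union_right)
    have huZ : Disjoint (KU K u) Z := by
      rw [Set.disjoint_left]
      intro e he he'
      rw [hZ] at he'
      obtain ⟨b, hb, h1⟩ := mem_KU.1 he
      obtain ⟨b', hb', h2⟩ := mem_KU.1 he'
      rw [Finset.mem_sdiff] at hb'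
      exact Set.disjoint_left.1 (hKd b (hu hb) b' hb'.1 fun e' => hb'.2 (e' ▸ hb)) h1 h2
    have hYZ : Disjoint Y₀ Z := hdY.mono_right hZI
    obtain ⟨Yu, hYu⟩ : ∃ Yu, Yu = Y₀ ∪ KU K u := ⟨_, rfl⟩
    have hYuE : Yu ⊆ P.E \ Z := by
      rw [hYu]
      rintro x (hx | hx)
      · exact ⟨hY₀ hx, Set.disjoint_left.1 hYZ hx⟩
      · exact ⟨hKE (huI hx), Set.disjoint_left.1 huZ hx⟩
    have hYuZ : Yu ∪ Z = Y := by
      rw [hYu, hY, hZ, union_assoc, KU_union K hu]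
    have hSZE : S ⊆ P.E \ Z := fun x hx => ⟨hSE hx, Set.disjoint_left.1 hdZ hx⟩
    obtain ⟨q0, q1⟩ := rZ Z hZI
    have hRZ : RHol (P ／ Z) S row w Wd := hR.con hZE (by omega) hdZ
    -- ranks in the contraction
    have q2 := BQ.rk_con (M := P) hZE (X := Yu) hYuE
    have q3 := BQ.rk_con (M := P) hZE (X := S) hSZE
    have q4 := BQ.rk_con (M := P) hZE (X := S ∪ Yu) (union_subset hSZE hYuE)
    rw [union_assoc, hYuZ] at q4
    rw [hYuZ] at q2
    have huc' : (KU K u).ncard ≤ (ρ + 1) * hL := by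
      rw [← huc]
      exact (ncard_KU u fun b hb => ⟨hKf.subset (subset_trans (fun e he => mem_KU.2
        ⟨b, hu hb, he⟩) Subset.rfl), hKc b (hu hb)⟩).2
    have q5 : (KU K u).ncard + Z.ncard = (KU K I).ncard := by
      rw [← KU_union K hu, ← hZ, Set.ncard_union_eq huZ (hKf.subset huI) hZf]
    have hcl : ∀ (A : Set α) (z : α), z ∈ T → (z ∈ (P ／ Z).closure (A ∪ Yu) ↔
        z ∈ P.closure (A ∪ Y)) := by
      intro A z hz
      rw [Matroid.contract_closure_eq, union_assoc, hYuZ]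
      refine ⟨fun h1 => h1.1, fun h1 => ⟨h1, fun h2 => Set.disjoint_left.1 hTd hz ?_⟩⟩
      rw [hY]
      exact Or.inr (Or.inr (hZI h2))
    rcases h (P ／ Z) S Yu row w i q a b Om Wd G Zt Kp hC hi hRZ hYuE (by omega)
      (hdS.mono_right (by
        rw [hYu, hY]
        exact union_subset_union_right _ huI)) T N (by
      intro z hz
      rw [hcl S z hz]
      exact hT hz) (hTd.mono_right subset_union_left) (by
      intro z hz
      obtain ⟨n1, n2, n3, n4⟩ := hN z hz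
      refine ⟨n1, n2, ?_, ?_⟩
      · intro c hc hW v hv hvD hcon'
        refine n3 c hc hW v hv hvD ?_
        rwa [hcl _ z hz] at hcon'
      · obtain ⟨c, c1, c2, v, c3, v', c4, c5, c6, c7, c8, c9⟩ := n4
        refine ⟨c, c1, c2, v, c3, v', c4, c5, c6, c7, ?_, ?_⟩
        · rwa [hcl _ z hz]
        · rwa [hcl _ z hz]) with hU | ⟨V, F₀, v1, v2, v3, v4, v5⟩
    · exact absurd (HasUniformMinor_mono hU (con_minor P _)) hnU
    · have hVR : V ∈ Rc.powerset := by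
        rw [Finset.mem_powerset]
        intro v hv
        have h1 := v2 (Finset.mem_coe.2 hv)
        rw [Gad.mem_rct] at h1
        rw [hRc, Finset.mem_product, Finset.mem_range, Finset.mem_range]
        omega
      refine ⟨⟨V, hVR⟩, ⟨?_, v2⟩, ?_⟩
      · refine v1.trans ?_
        have h1 : rk (P ／ Z) Yu ≤ (ρ + 1) * (rk P Y₀ + hL) := by
          have h2 : rk (P ／ Z) Yu ≤ rk P Y₀ + (ρ + 1) * hL := by
            have h3 : rk P (Yu ∪ Z) ≤ rk P (Y₀ ∪ Z) + (KU K u).ncard := by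
              rw [hYu, union_right_comm]
              exact rk_union_le P (hKf.subset huI)
            have h4 : rk P (Y₀ ∪ Z) ≤ rk P Y₀ + Z.ncard := rk_union_le P hZf
            rw [hYuZ] at h3
            omega
          refine h2.trans ?_
          rw [Nat.mul_add]
          exact Nat.add_le_add_right (Nat.le_mul_of_pos_left _ (by omega)) _
        calc C * rk (P ／ Z) Yu ≤ C * ((ρ + 1) * (rk P Y₀ + hL)) := Nat.mul_le_mul_left _ h1
          _ = C * (ρ + 1) * (rk P Y₀ + hL) := by ring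
      · rw [hTT]
        have h1 : {z | z ∈ T ∧ ∀ v ∈ N z, ∀ v' ∈ V, δ ≤ sd v v'} ∪ (S ∪ Z) ⊆
            P.closure (S ∪ Z ∪ (F₀ : Set α)) := by
          have h2 : S ∪ Z ∪ (F₀ : Set α) ⊆ P.E := by
            refine union_subset (union_subset hSE hZE) ?_
            exact (v4.trans hT).trans (P.closure_subset_ground _)
          rintro x (hx | hx)
          · have h3 := v5 x hx.1 hx.2
            rw [Matroid.contract_closure_eq] at h3
            refine P.closure_subset_closure ?_ h3.1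
            rintro y ((hy | hy) | hy)
            · exact Or.inl (Or.inl hy)
            · exact Or.inr hy
            · exact Or.inl (Or.inr hy)
          · exact P.subset_closure _ h2 (Or.inl hx)
        have h2 := rk_mono P h1
        rw [rk_closure] at h2
        have h3 : rk P (S ∪ Z ∪ (F₀ : Set α)) ≤ rk P (S ∪ Z) + (F₀ : Set α).ncard :=
          rk_union_le P F₀.finite_toSet
        rw [Set.ncard_coe_finset] at h3
        change rk P ({z | z ∈ T ∧ ∀ v ∈ N z, ∀ v' ∈ V, δ ≤ sd v v'} ∪ (S ∪ Z)) < _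
        omega)
  obtain ⟨B, hB, hBm, V, ⟨hV1, hV2⟩, hV3⟩ := key
  have h1 := hcon B hB hBm V hV1 hV2
  rw [hTT] at hV3
  omega

end DA
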