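import Pool.Agent.DA.LiftH

/-!
# LIFT+ on a brick wall with windows: the number of moved places is bounded by the rank of `T`

As `liftH`, with `rk P (S ∪ T) - rk P S` in the place of `rk P Y` (`Y` may be large).
-/

open Set BIC BICS
open scoped Matroid

namespace DA

open Gad

universe u

section

variable {α : Type*} {P : Matroid α} {F J : Set α}

/-- a relative basis -/
lemma relBasis [P.Finite] {X Y : Set α} (hX : X ⊆ P.E) (hY : Y ⊆ P.E) :
    ∃ J ⊆ X, rk P (J ∪ Y) = rk P (X ∪ Y) ∧ rk P Y + J.ncard = rk P (X ∪ Y) := by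
  obtain ⟨I, hI⟩ := P.exists_isBasis Y hY
  obtain ⟨I', hI', hII⟩ := hI.indep.subset_isBasis_of_subset
    (hI.subset.trans (subset_union_right : Y ⊆ X ∪ Y)) (union_subset hX hY)
  have hIY : I' ∩ Y = I := by
    refine (hI.eq_of_subset_indep (hI'.indep.subset inter_subset_left)
      (subset_inter hII hI.subset) inter_subset_right).symm
  have hJX : I' \ I ⊆ X := by
    intro x hx
    rcases hI'.subset hx.1 with h1 | h1
    · exact h1
    · exact absurd (hIY ▸ ⟨hx.1, h1⟩ : x ∈ I) hx.2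
  have fI' : I'.Finite := P.ground_finite.subset hI'.indep.subset_ground
  have r1 : rk P Y = I.ncard := by
    rw [← rk_indep hI.indep, ← rk_closure Y, ← hI.closure_eq_closure, rk_closure]
  have r2 : rk P (X ∪ Y) = I'.ncard := by
    rw [← rk_indep hI'.indep, ← rk_closure (X ∪ Y), ← hI'.closure_eq_closure, rk_closure]
  have r3 : (I' \ I).ncard + I.ncard = I'.ncard := Set.ncard_sdiff_add_ncard_of_subset hII fI'
  refine ⟨I' \ I, hJX, ?_, by omega⟩
  refine le_antisymm (rk_mono P (union_subset_union_left _ hJX)) ?_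
  rw [r2, ← rk_indep hI'.indep]
  refine rk_mono P ?_
  intro x hx
  by_cases h1 : x ∈ I
  · exact Or.inr (hI.subset h1)
  · exact Or.inl ⟨hx, h1⟩

/-- `J` is independent over `F` -/
lemma rk_over [P.Finite] (hJ : J.Finite) (h : rk P F + J.ncard ≤ rk P (F ∪ J)) {A : Set α}
    (hA : A ⊆ F) : rk P (A ∪ J) = rk P A + J.ncard := by
  have h1 : rk P (A ∪ J) ≤ rk P A + J.ncard := rk_union_le P hJ
  have h2 : rk P A + rk P (F ∪ J) ≤ rk P (A ∪ J) + rk P F := by
    refine rk_sub' (subset_inter subset_union_left hA) ?_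
    rintro x (hx | hx)
    · exact Or.inr hx
    · exact Or.inl (Or.inr hx)
  omega

lemma disj_over [P.Finite] (hJ : J.Finite) (h : rk P F + J.ncard ≤ rk P (F ∪ J)) :
    Disjoint F J := by
  rw [Set.disjoint_left]
  intro x hxF hxJ
  have h1 : F ∪ J = F ∪ (J \ {x}) := by
    ext y
    constructor
    · rintro (hy | hy)
      · exact Or.inl hy
      · by_cases hyx : y = x
        · exact Or.inl (hyx ▸ hxF)
        · exact Or.inr ⟨hy, hyx⟩
    · rintro (hy | hy)
      · exact Or.inl hy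
      · exact Or.inr hy.1
  have h2 : rk P (F ∪ (J \ {x})) ≤ rk P F + (J \ {x}).ncard := rk_union_le P (hJ.subset sdiff_subset)
  have h3 := Set.ncard_sdiff_singleton_add_one hxJ hJ
  rw [h1] at h
  omega

/-- the closure of a subset of `F` is not changed by the contraction of `J` -/
lemma cl_over [P.Finite] (hJ : J.Finite) (hF : F ⊆ P.E) (h : rk P F + J.ncard ≤ rk P (F ∪ J))
    {A : Set α} (hA : A ⊆ F) {z : α} (hz : z ∈ F) (hzA : z ∈ P.closure (A ∪ J)) :
    z ∈ P.closure A := by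
  have h1 := rk_over hJ h hA
  have h2 := rk_over hJ h (insert_subset hz hA)
  have h3 : rk P (insert z A ∪ J) = rk P (A ∪ J) := by
    refine le_antisymm ?_ (rk_mono P (union_subset_union_left _ (subset_insert _ _)))
    rw [insert_union, ← rk_closure (A ∪ J)]
    refine rk_mono P ?_
    refine insert_subset hzA ?_
    by_contra hcon
    obtain ⟨x, hx, hx'⟩ := Set.not_subset.1 hcon
    have hxE : x ∉ P.E := fun h4 => hx' (P.mem_closure_of_mem' hx h4)
    rcases hx with hx | hx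
    · exact hxE (hF (hA hx))
    · have h5 : rk P (F ∪ J) ≤ rk P (F ∪ (J \ {x})) := by
        refine le_of_eq ?_
        have e1 : (F ∪ J) ∩ P.E = (F ∪ (J \ {x})) ∩ P.E := by
          ext y
          constructor
          · rintro ⟨hy | hy, hyE⟩
            · exact ⟨Or.inl hy, hyE⟩
            · exact ⟨Or.inr ⟨hy, fun h6 => hxE (h6 ▸ hyE)⟩, hyE⟩
          · rintro ⟨hy | hy, hyE⟩
            · exact ⟨Or.inl hy, hyE⟩
            · exact ⟨Or.inr hy.1, hyE⟩
        rw [← rk_closure (F ∪ J), ← rk_closure (F ∪ (J \ {x})), ← P.closure_inter_ground (F ∪ J),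
          e1, P.closure_inter_ground]
      have h6 : rk P (F ∪ (J \ {x})) ≤ rk P F + (J \ {x}).ncard :=
        rk_union_le P (hJ.subset sdiff_subset)
      have h7 := Set.ncard_sdiff_singleton_add_one hx hJ
      omega
  by_contra hcon
  have h4 : rk P (insert z A) = rk P A + 1 := by
    have h5 := P.eRk_insert_eq_add_one (X := A) (e := z) ⟨hF hz, hcon⟩
    rw [← cast_rk, ← cast_rk] at h5
    exact_mod_cast h5
  omega

end

/-- **LIFT+ on a wall with windows**, the rank of `T` over `S` counts. -/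
theorem liftHr (k β D : ℕ) : ∃ ρ C : ℕ, ∀ L : ℕ, ∃ δ : ℕ, ∀ {α : Type u} (P : Matroid α)
    [P.Finite] (S Y : Set α) (row : α → Sym2 (ℕ × ℕ)) (w i q a b : ℕ) (Om : Finset (ℕ × ℕ))
    (Wd : Set (ℕ × ℕ)) (G : ℕ × ℕ → ℕ × ℕ) (Zt Kp : Set (Sym2 (ℕ × ℕ))),
    Crs.{u} w i q L a b Om Wd G Zt Kp → i ≤ 1 → RHol P S row w Wd → Y ⊆ P.E →
    rk P (S ∪ Y) = rk P S + rk P Y → Disjoint S Y →
    ∀ (T : Set α) (N : α → Finset (ℕ × ℕ)), T ⊆ P.closure (S ∪ Y) → Disjoint T S →
    (∀ z ∈ T, TwoH P S Y row w i Wd Om L β D δ z (N z)) →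
    HasUniformMinor P k ∨ ∃ (V : Finset (ℕ × ℕ)) (F₀ : Finset α),
      V.card ≤ C * (rk P (S ∪ T) - rk P S) ∧
      (V : Set (ℕ × ℕ)) ⊆ rect 0 0 (w + 1) (w + 1) ∧
      F₀.card ≤ ρ ∧ (F₀ : Set α) ⊆ T ∧
      ∀ z ∈ T, (∀ v ∈ N z, ∀ v' ∈ V, δ ≤ sd v v') → z ∈ P.closure (S ∪ (F₀ : Set α)) := by
  classical
  obtain ⟨ρ, C, h⟩ := liftH.{u} k β D
  refine ⟨ρ, C, fun L => ?_⟩
  obtain ⟨δ, h⟩ := h L
  refine ⟨δ, ?_⟩
  intro α P _ S Y row w i q a b Om Wd G Zt Kp hC hi hR hY hSY hd T N hT hTS hN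
  have hSE := hR.sub
  have hTE : T ⊆ P.E := hT.trans (P.closure_subset_ground _)
  obtain ⟨F, hF⟩ : ∃ F, F = S ∪ T := ⟨_, rfl⟩
  have hFE : F ⊆ P.E := by rw [hF]; exact union_subset hSE hTE
  obtain ⟨J, hJY, j1, j2⟩ := relBasis (P := P) (X := Y) (Y := F) hY hFE
  have hJf : J.Finite := P.ground_finite.subset (hJY.trans hY)
  have hJE : J ⊆ P.E := hJY.trans hY
  have hov : rk P F + J.ncard ≤ rk P (F ∪ J) := by
    rw [union_comm F J, j1, j2]
  have hFJ := disj_over hJf hov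
  have hSF : S ⊆ F := by rw [hF]; exact subset_union_left
  have hTF : T ⊆ F := by rw [hF]; exact subset_union_right
  have hSJ : Disjoint S J := hFJ.mono_left hSF
  have hPJ : (P ／ J).Finite := BQ.fin_contract _
  have hJr : rk P J = J.ncard := by
    have h1 := rk_over hJf hov (empty_subset F)
    rw [empty_union] at h1
    rw [h1, rk_empty, Nat.zero_add]
  -- the rank of `Y` over `J`
  have hYF : rk P (Y ∪ F) = rk P S + rk P Y := by
    rw [← hSY]
    refine le_antisymm ?_ (rk_mono P ?_)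
    · rw [← rk_closure (S ∪ Y)]
      refine rk_mono P ?_
      have hE : S ∪ Y ⊆ P.E := union_subset hSE hY
      rw [hF]
      refine union_subset ?_ (union_subset ?_ hT)
      · exact subset_union_right.trans (P.subset_closure _ hE)
      · exact subset_union_left.trans (P.subset_closure _ hE)
    · rintro x (hx | hx)
      · exact Or.inr (hSF hx)
      · exact Or.inl hx
  obtain ⟨Y', hY'⟩ : ∃ Y', Y' = Y \ J := ⟨_, rfl⟩
  have hYY : Y' ∪ J = Y := by
    rw [hY']
    exact Set.sdiff_union_of_subset hJY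
  have hY'E : Y' ⊆ P.E \ J := by
    rw [hY']
    exact fun x hx => ⟨hY hx.1, hx.2⟩
  have rY : rk (P ／ J) Y' = rk P F - rk P S := by
    have h1 := BQ.rk_con (M := P) hJE (X := Y') hY'E
    rw [hYY] at h1
    omega
  have rA : ∀ A ⊆ F, rk (P ／ J) A = rk P A := by
    intro A hA
    have h1 := BQ.rk_con (M := P) hJE (X := A) (fun x hx => ⟨hFE (hA hx),
      Set.disjoint_left.1 hFJ (hA hx)⟩)
    have h2 := rk_over hJf hov hA
    omega
  have rSY : rk (P ／ J) (S ∪ Y') = rk (P ／ J) S + rk (P ／ J) Y' := by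
    have h1 := BQ.rk_con (M := P) hJE (X := S ∪ Y') (union_subset
      (fun x hx => ⟨hSE hx, Set.disjoint_left.1 hSJ hx⟩) hY'E)
    rw [union_assoc, hYY, hSY] at h1
    have h2 := rA S hSF
    have h3 := BQ.rk_con (M := P) hJE (X := Y') hY'E
    rw [hYY] at h3
    omega
  -- closures
  have hcl : ∀ (A : Set α) (z : α), z ∉ J → (z ∈ (P ／ J).closure (A ∪ Y') ↔
      z ∈ P.closure (A ∪ Y)) := by
    intro A z hz
    rw [Matroid.contract_closure_eq, union_assoc, hYY]
    exact ⟨fun h1 => h1.1, fun h1 => ⟨h1, hz⟩⟩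
  have hTJ : ∀ z ∈ T, z ∉ J := fun z hz => Set.disjoint_left.1 hFJ (hTF hz)
  have hR' : RHol (P ／ J) S row w Wd := by
    refine ⟨fun x hx => ⟨hSE hx, Set.disjoint_left.1 hSJ hx⟩, hR.mem, hR.surj, ?_⟩
    intro c hc hW
    have hb := hR.bic c hc hW
    have hcS : (S \ c) ⊆ P.E := sdiff_subset.trans hSE
    have hf1 : (P ／ (S \ c)).Finite := BQ.fin_contract _
    have hf2 : (P ／ J ／ (S \ c)).Finite := BQ.fin_contract _
    have hrk : ∀ X ⊆ c, rk (P ／ J ／ (S \ c)) X = rk (P ／ (S \ c)) X := by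
      intro X hX
      have h1 := BQ.rk_con (M := P) hcS (X := X) (fun x hx => ⟨hSE (hc (hX hx)),
        fun h2 => h2.2 (hX hx)⟩)
      have h2 := BQ.rk_con (M := P ／ J) (C := S \ c) (fun x hx => ⟨hSE hx.1,
        Set.disjoint_left.1 hSJ hx.1⟩) (X := X) (fun x hx => ⟨⟨hSE (hc (hX hx)),
        Set.disjoint_left.1 hSJ (hc (hX hx))⟩, fun h2 => h2.2 (hX hx)⟩)
      have h3 := rA (X ∪ (S \ c)) ((union_subset (hX.trans hc) sdiff_subset).trans hSF)
      have h4 := rA (S \ c) (sdiff_subset.trans hSF)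
      omega
    refine ⟨fun x hx => ⟨⟨hSE (hc hx), Set.disjoint_left.1 hSJ (hc hx)⟩, fun h2 => h2.2 hx⟩,
      ?_, ?_⟩
    · intro F' φ hF' hφ hφe
      have h1 := hb.ind F' φ hF' hφ hφe
      have h2 := hrk F' hF'
      have hFf : F'.Finite := P.ground_finite.subset (hF'.trans (hc.trans hSE))
      rw [rk_indep h1] at h2
      rw [Matroid.indep_iff_eRk_eq_encard_of_finite hFf, ← cast_rk, h2]
      exact hFf.cast_ncard_eq
    · intro W
      rw [← cast_rk, hrk _ (fun e he => he.1), cast_rk]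
      exact hb.rk W
  rcases h (P ／ J) S Y' row w i q a b Om Wd G Zt Kp hC hi hR' hY'E rSY
    (hd.mono_right (by rw [hY']; exact sdiff_subset)) T N (by
      intro z hz
      rw [hcl S z (hTJ z hz)]
      exact hT hz) hTS (by
      intro z hz
      obtain ⟨n1, n2, n3, n4⟩ := hN z hz
      refine ⟨n1, n2, ?_, ?_⟩
      · intro c hc hW v hv hvD hcon
        refine n3 c hc hW v hv hvD ?_
        rwa [hcl _ z (hTJ z hz)] at hcon
      · obtain ⟨c, c1, c2, v, c3, v', c4, c5, c6, c7, c8, c9⟩ := n4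
        refine ⟨c, c1, c2, v, c3, v', c4, c5, c6, c7, ?_, ?_⟩
        · rwa [hcl _ z (hTJ z hz)]
        · rwa [hcl _ z (hTJ z hz)]) with hU | ⟨V, F₀, v1, v2, v3, v4, v5⟩
  · exact Or.inl (HasUniformMinor_mono hU (con_minor P _))
  · refine Or.inr ⟨V, F₀, ?_, v2, v3, v4, ?_⟩
    · rw [rY, hF] at v1
      exact v1
    · intro z hz hzV
      have h1 := v5 z hz hzV
      rw [Matroid.contract_closure_eq] at h1
      refine cl_over hJf hFE hov ?_ (hTF hz) h1.1
      exact union_subset hSF (v4.trans hTF)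

end DA
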