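import Pool.Agent.DA.LiftB
import Pool.Agent.DA.GlR

/-!
# LIFT+ on a plain rectangle with rows
-/

open Set BIC BICS
open scoped Matroid

namespace DA

open Gad

universe u

section

variable {α : Type*} {P : Matroid α} {S Y : Set α} {row : α → Sym2 (ℕ × ℕ)} {a b : ℕ}

/-- `z` has a bounded set `N` of own vertices, and two own vertices at once. `Y` are the rows of
`Omega`. -/
structure TwoR (P : Matroid α) (S Y : Set α) (row : α → Sym2 (ℕ × ℕ)) (a b β D δ : ℕ) (z : α)
    (N : Finset (ℕ × ℕ)) : Prop where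
  card : N.card ≤ β
  sup : ∀ c, Rep S row (rect 0 0 a b) c → ∀ v, DeepR (0, 0) a b D v →
    z ∉ P.closure ((S \ {e | e ∈ c ∧ v ∈ row e}) ∪ Y) → v ∈ N
  two : ∃ c, Rep S row (rect 0 0 a b) c ∧ ∃ v v', v ≠ v' ∧ DeepR (0, 0) a b δ v ∧
    DeepR (0, 0) a b δ v' ∧ z ∉ P.closure ((S \ {e | e ∈ c ∧ v ∈ row e}) ∪ Y) ∧
    z ∉ P.closure ((S \ {e | e ∈ c ∧ v' ∈ row e}) ∪ Y)

lemma insR_compl {c : Set α} (hW : CWL.GrdU c row (rect 0 0 a b)) (Z : Set (ℕ × ℕ)) :
    ins c row Zᶜ = ins c row (rect 0 0 a b \ Z) := by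
  ext e
  constructor
  · rintro ⟨h1, h2⟩
    exact ⟨h1, fun v hv => ⟨grd_end hW h1 hv, h2 v hv⟩⟩
  · rintro ⟨h1, h2⟩
    exact ⟨h1, fun v hv => (h2 v hv).2⟩

/-- the rank of the rows without the star of a deep vertex -/
lemma RGrd.rk_star [P.Finite] (h : RGrd P S row (rect 0 0 a b)) (ha : 6 ≤ a) (hb : 6 ≤ b)
    {c : Set α} (hc : Rep S row (rect 0 0 a b) c) {v : ℕ × ℕ} (hv : DeepR (0, 0) a b 3 v) :
    rk P (S \ {e | e ∈ c ∧ v ∈ row e}) + 1 = rk P S := by
  classical
  have hScE : S \ c ⊆ P.E := sdiff_subset.trans h.sub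
  have hPf : (P ／ (S \ c)).Finite := BQ.fin_contract _
  have hB := h.bic c hc.1 hc.2
  have key : ∀ Z' : Finset (ℕ × ℕ), Z'.card ≤ 1 → (∀ t ∈ Z', DeepR (0, 0) a b 3 t) →
      rk P (S \ {e | e ∈ c ∧ ∃ v ∈ Z', v ∈ row e}) + Z'.card =
        (rect 0 0 a b).ncard + rk P (S \ c) := by
    intro Z' hZc hZ'
    obtain ⟨F, hF⟩ := full_holes (S := c) (ends := row) (a := a) (b := b) (T := (Z' : Set (ℕ × ℕ)))
      (by
        intro p q hpq hp hq
        exact hc.2.surj p q hpq hp.1 hq.1) ha hb (by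
        intro t ht
        have := hZ' t ht
        unfold DeepR at this
        simp only at this
        omega) (by
        intro t₁ h1 t₂ h2 t₃ _ hne
        exact absurd (Finset.card_le_one.1 hZc t₁ h1 t₂ h2) hne)
    have h1 := rk_of_full hB ((Gad.rect_finite _ _ _ _).subset sdiff_subset) hF
    rw [← insR_compl hc.2] at h1
    have h2 : (Z' : Set (ℕ × ℕ)) ⊆ rect 0 0 a b := by
      intro v hv
      have := hZ' v hv
      unfold DeepR at this
      simp only at this
      rw [Gad.mem_rct]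
      omega
    have h3 := Set.ncard_sdiff_add_ncard_of_subset h2 (Gad.rect_finite 0 0 a b)
    rw [Set.ncard_coe_finset] at h3
    have h4 := BQ.rk_con (M := P) hScE (X := ins c row (Z' : Set (ℕ × ℕ))ᶜ) (by
      intro e he
      exact ⟨h.sub (hc.1 he.1), fun h5 => h5.2 he.1⟩)
    have h5 : ins c row (Z' : Set (ℕ × ℕ))ᶜ ∪ (S \ c) =
        S \ {e | e ∈ c ∧ ∃ v ∈ Z', v ∈ row e} := by
      ext e
      simp only [mem_union, mem_sdiff, ins, mem_ofPred_eq]
      constructor
      · rintro (⟨h5, h6⟩ | ⟨h5, h6⟩)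
        · exact ⟨hc.1 h5, fun h7 => by
            obtain ⟨_, v, hv, hve⟩ := h7
            exact h6 v hve hv⟩
        · exact ⟨h5, fun h7 => h6 h7.1⟩
      · rintro ⟨h5, h6⟩
        by_cases h7 : e ∈ c
        · left
          exact ⟨h7, fun v hv hvZ => h6 ⟨h7, v, hvZ, hv⟩⟩
        · exact Or.inr ⟨h5, h7⟩
    rw [h5] at h4
    omega
  have k1 := key {v} (by simp) (by
    intro t ht
    rw [Finset.mem_singleton] at ht
    rw [ht]
    exact hv)
  have k2 := key ∅ (by simp) (by simp)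
  have k3 : S \ {e | e ∈ c ∧ ∃ v ∈ (∅ : Finset (ℕ × ℕ)), v ∈ row e} = S := by
    ext e
    simp
  rw [k3, Finset.card_empty] at k2
  simp only [Finset.mem_singleton, exists_eq_left, Finset.card_singleton] at k1
  omega

end

/-- **LIFT+ on a plain rectangle**, the light set is bounded by the rank of `T` over `S`. -/
theorem liftRectT (k β D : ℕ) : ∃ ρ q δ : ℕ, ∀ {α : Type u} (P : Matroid α) [P.Finite]
    (S Y : Set α) (row : α → Sym2 (ℕ × ℕ)) (a b : ℕ), a ≤ b → RGrd P S row (rect 0 0 a b) →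
    Y ⊆ P.E → rk P (S ∪ Y) = rk P S + rk P Y →
    ∀ (T : Set α) (N : α → Finset (ℕ × ℕ)), T ⊆ P.closure (S ∪ Y) →
    (∀ z ∈ T, TwoR P S Y row a b β D δ z (N z)) →
    HasUniformMinor P k ∨ ∃ (V : Finset (ℕ × ℕ)) (F₀ : Finset α),
      V.card ≤ q * (rk P (S ∪ T) - rk P S) ∧
      F₀.card ≤ ρ ∧ (F₀ : Set α) ⊆ T ∧
      ∀ z ∈ T, (∀ v ∈ N z, ∀ v' ∈ V, δ ≤ sd v v') → z ∈ P.closure (S ∪ (F₀ : Set α)) := by
  classical
  choose mf δf hgl using fun s : ℕ => glR.{u} k (β * (1 + s + k)) (D + 4)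
  obtain ⟨ρ, q, b₀, hpeel⟩ := lift_peelT.{u} k mf
  obtain ⟨Δ, hΔ⟩ : ∃ Δ, Δ = (Finset.range (b₀ + 1)).sup δf := ⟨_, rfl⟩
  have hΔs : ∀ s ≤ b₀, δf s ≤ Δ := by
    intro s hs
    rw [hΔ]
    exact Finset.le_sup (f := δf) (Finset.mem_range.2 (by omega))
  obtain ⟨δ, hδ⟩ : ∃ δ, δ = Δ + D + 20 := ⟨_, rfl⟩
  refine ⟨ρ, q * β, δ, ?_⟩
  intro α P _ S Y row a b hab hR hY hSY T N hTcl hT
  have hS := hR.sub
  obtain ⟨far, hfar⟩ : ∃ far : α → α → Prop, ∀ x y, far x y ↔
      ∀ v ∈ N x, ∀ v' ∈ N y, δ ≤ sd v v' := ⟨_, fun _ _ => Iff.rfl⟩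
  have hmono : ∀ {d : ℕ} {v : ℕ × ℕ}, d ≤ δ → DeepR (0, 0) a b δ v → DeepR (0, 0) a b d v := by
    intro d v hd hv
    unfold DeepR at hv ⊢
    omega
  have hown : ∀ x ∈ T, ∀ c, Rep S row (rect 0 0 a b) c → ∀ v, DeepR (0, 0) a b δ v →
      x ∉ P.closure ((S \ {e | e ∈ c ∧ v ∈ row e}) ∪ Y) → v ∈ N x :=
    fun x hx c hc v hv hn => (hT x hx).sup c hc v (hmono (by omega) hv) hn
  rcases hpeel P S Y T far (by
      intro x y h
      rw [hfar] at h ⊢
      intro v hv v' hv'
      rw [sd_comm]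
      exact h v' hv' v hv) (by
      intro x hx h
      rw [hfar] at h
      obtain ⟨c, hc, v, _, _, hv, _, hn, _⟩ := (hT x hx).two
      have hp := hown x hx c hc v hv hn
      have h1 := h v hp v hp
      rw [sd_self] at h1
      omega) hS hY hTcl with hU | ⟨I, F₀, hI, hF₀, hIc, hF₀c, hcl⟩ | ⟨s, hs, F, K₀, Ka, K, z, t, hg⟩
  · exact Or.inl hU
  · right
    refine ⟨I.biUnion N, F₀, ?_, hF₀c, hF₀, ?_⟩
    · refine (Finset.card_biUnion_le_card_mul _ _ β (fun x hx => (hT x (hI hx)).card)).trans ?_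
      rw [mul_assoc, mul_comm β, ← mul_assoc]
      exact Nat.mul_le_mul_right _ hIc
    · intro x hx hxV
      refine hcl x hx (fun y hy => ?_)
      rw [hfar]
      exact fun v hv v' hv' => hxV v hv v' (Finset.mem_biUnion.2 ⟨y, hy, hv'⟩)
  · left
    have hKaT : ∀ x ∈ Ka, x ∈ T := fun x hx => hg.KaT hx
    have htKa : ∀ l, t l ∈ Ka := fun l => (hg.mKa _).2 (Or.inr ⟨l, hg.tK l⟩)
    have hFY := hg.FY
    have h2z := fun l => (hT (z l) (hg.zT l)).two
    have h2t := fun l => (hT (t l) (hKaT _ (htKa l))).two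
    choose cz hcz b₁ b₂ hb12 hb₁ hb₂ hz₁ hz₂ using h2z
    choose ct hct b₃ b₃' hb33 hb₃ hb₃' ht₃ ht₃' using h2t
    have ov₁ := fun l => hown (z l) (hg.zT l) (cz l) (hcz l) (b₁ l) (hb₁ l) (hz₁ l)
    have ov₂ := fun l => hown (z l) (hg.zT l) (cz l) (hcz l) (b₂ l) (hb₂ l) (hz₂ l)
    have ov₃ := fun l => hown (t l) (hKaT _ (htKa l)) (ct l) (hct l) (b₃ l) (hb₃ l) (ht₃ l)
    obtain ⟨c₀, hc₀⟩ := exists_rep hR
    obtain ⟨xe, hx0, hx1⟩ : ∃ xe : Bool × Fin (mf s) → α, (∀ l, xe (false, l) = z l) ∧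
        ∀ l, xe (true, l) = t l :=
      ⟨fun j => if j.1 then t j.2 else z j.2, fun l => by simp, fun l => by simp⟩
    obtain ⟨ce, hc0, hc1⟩ : ∃ ce : Bool × Fin (mf s) → Set α, (∀ l, ce (false, l) = cz l) ∧
        ∀ l, ce (true, l) = ct l :=
      ⟨fun j => if j.1 then ct j.2 else cz j.2, fun l => by simp, fun l => by simp⟩
    obtain ⟨Ae, hA0, hA1⟩ : ∃ Ae : Bool × Fin (mf s) → Finset (ℕ × ℕ),
        (∀ l, Ae (false, l) = {b₁ l, b₂ l}) ∧ ∀ l, Ae (true, l) = {b₃ l} :=
      ⟨fun j => if j.1 then {b₃ j.2} else {b₁ j.2, b₂ j.2}, fun l => by simp, fun l => by simp⟩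
    have hel : ∀ j, ∀ v ∈ Ae j, v ∈ N (xe j) := by
      rintro ⟨j, l⟩ v hv
      cases j
      · rw [hA0, Finset.mem_insert, Finset.mem_singleton] at hv
        rw [hx0]
        rcases hv with rfl | rfl
        · exact ov₁ l
        · exact ov₂ l
      · rw [hA1, Finset.mem_singleton] at hv
        rw [hx1, hv]
        exact ov₃ l
    have hff : ∀ j j', j ≠ j' → far (xe j) (xe j') := by
      rintro ⟨j, l⟩ ⟨j', l'⟩ hne
      cases j <;> cases j'
      · rw [hx0, hx0]
        exact hg.farz l l' (fun h => hne (by rw [h]))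
      · rw [hx0, hx1]
        exact hg.farzK l _ (htKa l')
      · rw [hx0, hx1, hfar]
        intro a ha a' ha'
        rw [sd_comm]
        exact (hfar _ _).1 (hg.farzK l' _ (htKa l)) a' ha' a ha
      · rw [hx1, hx1]
        refine hg.farK _ (htKa l) _ (htKa l') ?_
        intro h
        have hll : l ≠ l' := fun h2 => hne (by rw [h2])
        exact Finset.disjoint_left.1 (hg.dK l l' hll) (hg.tK l) (h ▸ hg.tK l')
    obtain ⟨c, hc, hceq⟩ := combine (S := S) (row := row) (U := rect 0 0 a b)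
      (Finset.univ : Finset (Bool × Fin (mf s))) hc₀ ce (by
        rintro ⟨j, l⟩ _
        cases j
        · rw [hc0]
          exact hcz l
        · rw [hc1]
          exact hct l) Ae (by
        intro j _ j' _ hne v hv v' hv'
        rw [apart_iff]
        have h1 := (hfar _ _).1 (hff j j' hne) v (hel j v hv) v' (hel j' v' hv')
        omega)
    have hcz1 : ∀ l, z l ∉ P.closure ((S \ {e | e ∈ c ∧ b₁ l ∈ row e}) ∪ Y) := by
      intro l
      rw [hceq (false, l) (Finset.mem_univ _) (b₁ l) (by rw [hA0]; simp), hc0]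
      exact hz₁ l
    have hcz2 : ∀ l, z l ∉ P.closure ((S \ {e | e ∈ c ∧ b₂ l ∈ row e}) ∪ Y) := by
      intro l
      rw [hceq (false, l) (Finset.mem_univ _) (b₂ l) (by rw [hA0]; simp), hc0]
      exact hz₂ l
    have hct3 : ∀ l, t l ∉ P.closure ((S \ {e | e ∈ c ∧ b₃ l ∈ row e}) ∪ Y) := by
      intro l
      rw [hceq (true, l) (Finset.mem_univ _) (b₃ l) (by rw [hA1]; simp), hc1]
      exact ht₃ l
    -- the contraction
    obtain ⟨Z, hZ⟩ : ∃ Z : Finset α, Z = F ∪ Ka := ⟨_, rfl⟩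
    have hZc : (Z : Set α) = (F : Set α) ∪ (Ka : Set α) := by rw [hZ, Finset.coe_union]
    have hZcard : Z.card = F.card + Ka.card := by
      rw [hZ, Finset.card_union_of_disjoint hg.dF]
    have hZr : rk P (S ∪ (Z : Set α)) = rk P S + Z.card := by
      rw [hZc, hg.rk, hZcard]
      omega
    have hKaE : (Ka : Set α) ⊆ P.E := hg.KaT.trans (hTcl.trans (P.closure_subset_ground _))
    have hZE : (Z : Set α) ⊆ P.E := by
      rw [hZc]
      exact union_subset (hFY.trans hY) hKaE
    have hZS := disj_of_skew hS hZr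
    have hScE : S \ c ⊆ P.E := sdiff_subset.trans hS
    have hP1 : (P ／ (S \ c)).Finite := BQ.fin_contract _
    have hP2 : (P ／ (S \ c) ／ (Z : Set α)).Finite := BQ.fin_contract _
    have hZE1 : (Z : Set α) ⊆ (P ／ (S \ c)).E := by
      intro e he
      exact ⟨hZE he, fun h => hZS e he h.1⟩
    have hdcZ : Disjoint c (Z : Set α) := by
      rw [Set.disjoint_left]
      exact fun e he heZ => hZS e heZ (hc.1 he)
    have hrkc : rk (P ／ (S \ c)) (c ∪ (Z : Set α)) = rk (P ／ (S \ c)) c + Z.card := by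
      have e1 := BQ.rk_con (M := P) hScE (X := c) (by
        intro e he
        exact ⟨hS (hc.1 he), fun h5 => h5.2 he⟩)
      have e2 := BQ.rk_con (M := P) hScE (X := c ∪ (Z : Set α)) (by
        rintro e (he | he)
        · exact ⟨hS (hc.1 he), fun h5 => h5.2 he⟩
        · exact ⟨hZE he, fun h5 => hZS e he h5.1⟩)
      rw [union_sdiff_cancel hc.1] at e1
      rw [show c ∪ (Z : Set α) ∪ (S \ c) = S ∪ (Z : Set α) by
        rw [union_right_comm, union_sdiff_cancel hc.1]] at e2
      omega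
    have hBic : Bic (P ／ (S \ c) ／ (Z : Set α)) c row :=
      bic_con_skew (hR.bic c hc.1 hc.2) subset_rfl hZE1 hdcZ hrkc
    have hcl2 : ∀ X, (P ／ (S \ c) ／ (Z : Set α)).closure X =
        (P.closure (X ∪ (Z : Set α) ∪ (S \ c)) \ (S \ c)) \ (Z : Set α) := by
      intro X
      rw [Matroid.contract_closure_eq, Matroid.contract_closure_eq]
    have hgE : S ∪ ((F : Set α) ∪ ((Ka : Set α))) ⊆ P.E :=
      union_subset hS (union_subset (hFY.trans hY) hKaE)
    have hzS : ∀ l, z l ∉ S := by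
      intro l h
      refine hg.ncl l (P.subset_closure _ ?_ (Or.inl h))
      exact (union_subset_union_right _ (union_subset_union_right _ sdiff_subset)).trans hgE
    have hzZ : ∀ l, z l ∉ (Z : Set α) := by
      intro l h
      rw [hZc] at h
      rcases h with h | h
      · refine hg.ncl l (P.subset_closure _ ?_ (Or.inr (Or.inl h)))
        exact (union_subset_union_right _ (union_subset_union_right _ sdiff_subset)).trans hgE
      · exact hg.zKa l h
    have hzmem : ∀ l X, z l ∈ (P ／ (S \ c) ／ (Z : Set α)).closure X ↔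
        z l ∈ P.closure (X ∪ (Z : Set α) ∪ (S \ c)) := by
      intro l X
      rw [hcl2]
      exact ⟨fun h => h.1.1, fun h => ⟨⟨h, fun h2 => hzS l h2.1⟩, hzZ l⟩⟩
    obtain ⟨Nn, hNn⟩ : ∃ Nn : Fin (mf s) → Finset (ℕ × ℕ), ∀ l, Nn l =
        N (z l) ∪ K₀.biUnion N ∪ (K l).biUnion N := ⟨_, fun _ => rfl⟩
    -- the flats
    obtain ⟨Fl, hFl⟩ : ∃ Fl : ℕ × ℕ → Set α, ∀ v, Fl v = S \ {e | e ∈ c ∧ v ∈ row e} :=
      ⟨_, fun _ => rfl⟩
    have hFlS : ∀ v, Fl v ⊆ S := fun v => by rw [hFl]; exact sdiff_subset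
    have hYcl : ∀ v, Y ⊆ P.closure (Fl v ∪ Y) := fun v =>
      subset_union_right.trans (P.subset_closure _ (union_subset ((hFlS v).trans hS) hY))
    have hScl : ∀ v, Fl v ⊆ P.closure (Fl v ∪ Y) := fun v =>
      subset_union_left.trans (P.subset_closure _ (union_subset ((hFlS v).trans hS) hY))
    have hin : ∀ v, DeepR (0, 0) a b (D + 4) v → ∀ x ∈ T, v ∉ N x → x ∈ P.closure (Fl v ∪ Y) := by
      intro v hv x hx hvx
      by_contra hcon
      rw [hFl] at hcon
      refine hvx ((hT x hx).sup c hc v ?_ hcon)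
      unfold DeepR at hv ⊢
      omega
    have hLoc : ∀ l v, v ∈ CWL.Loc (P ／ (S \ c) ／ (Z : Set α)) c row (z l) ↔
        z l ∉ P.closure (Fl v ∪ (Z : Set α)) := by
      intro l v
      unfold CWL.Loc
      rw [mem_ofPred_eq, hzmem, union_right_comm, ins_union_eq hc.1 v, hFl]
    have h6 : ∀ v, DeepR (0, 0) a b δ v → 6 ≤ a ∧ 6 ≤ b := by
      intro v hv
      unfold DeepR at hv
      simp only at hv
      omega
    refine HasUniformMinor_mono (hgl s (P ／ (S \ c) ／ (Z : Set α)) c row a b hab hBic hc.2 z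
      Nn (fun l => {b₁ l, b₂ l, b₃ l}) ?_ ?_ ?_ ?_ ?_ ?_) ((con_minor _ _).trans (con_minor P _))
    · intro l
      rw [hzmem]
      refine ⟨?_, fun h => hzS l (hc.1 h)⟩
      refine P.closure_subset_closure ?_ (hg.cl l)
      rw [union_right_comm, union_sdiff_cancel hc.1, hZc]
      refine union_subset_union_right _ (union_subset_union_right _ ?_)
      refine union_subset (fun x hx => (hg.mKa x).2 (Or.inl hx)) (fun x hx =>
        (hg.mKa x).2 (Or.inr ⟨l, hx⟩))
    · intro l
      rw [hNn]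
      have e1 := (hT _ (hg.zT l)).card
      have e2 : (K₀.biUnion N).card ≤ K₀.card * β := Finset.card_biUnion_le_card_mul _ _ β
        (fun x hx => (hT x (hKaT x ((hg.mKa x).2 (Or.inl hx)))).card)
      have e3 : ((K l).biUnion N).card ≤ (K l).card * β := Finset.card_biUnion_le_card_mul _ _ β
        (fun x hx => (hT x (hKaT x ((hg.mKa x).2 (Or.inr ⟨l, hx⟩)))).card)
      have e4 : K₀.card * β ≤ s * β := Nat.mul_le_mul_right _ hg.c0
      have e5 : (K l).card * β ≤ k * β := Nat.mul_le_mul_right _ (hg.cK l)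
      calc (N (z l) ∪ K₀.biUnion N ∪ (K l).biUnion N).card ≤
          (N (z l)).card + (K₀.biUnion N).card + ((K l).biUnion N).card :=
            (Finset.card_union_le _ _).trans (Nat.add_le_add_right (Finset.card_union_le _ _) _)
        _ ≤ β + s * β + k * β := by omega
        _ = β * (1 + s + k) := by ring
    · -- the support
      intro l v hv hvD
      by_contra hcon
      rw [hNn, Finset.mem_union, Finset.mem_union, Finset.mem_biUnion, Finset.mem_biUnion] at hcon
      push Not at hcon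
      obtain ⟨⟨n1, n2⟩, n3⟩ := hcon
      rw [hLoc] at hv
      apply hv
      obtain ⟨W, hWd⟩ : ∃ W : Finset α, W = F ∪ (K₀ ∪ K l) := ⟨_, rfl⟩
      have hWc : (W : Set α) = (F : Set α) ∪ ((K₀ : Set α) ∪ (K l : Set α)) := by
        rw [hWd, Finset.coe_union, Finset.coe_union]
      have hWZ : W ⊆ Z := by
        rw [hWd, hZ]
        refine Finset.union_subset_union_right ?_
        intro x hx
        rw [Finset.mem_union] at hx
        rcases hx with hx | hx
        · exact (hg.mKa x).2 (Or.inl hx)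
        · exact (hg.mKa x).2 (Or.inr ⟨l, hx⟩)
      have hab6 := h6 _ (hb₁ l)
      have hD1 : rk P (Fl v) + 1 = rk P S := by
        rw [hFl]
        refine hR.rk_star hab6.1 hab6.2 hc ?_
        unfold DeepR at hvD ⊢
        omega
      have hfin := up_cl (P := P) (S := S) (Y := Y) (S₁ := Fl v) (W := W) (z := z l) hS hY hSY
        (hFlS v) hD1 (by
          rw [hWc]
          refine union_subset (hFY.trans (hYcl v)) (union_subset ?_ ?_)
          · exact fun x hx => hin v hvD x (hKaT x ((hg.mKa x).2 (Or.inl hx))) (n2 x hx)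
          · exact fun x hx => hin v hvD x (hKaT x ((hg.mKa x).2 (Or.inr ⟨l, hx⟩))) (n3 x hx))
        (hin v hvD _ (hg.zT l) n1) (rk_skew_part hWZ hZr) (by rw [hWc]; exact hg.cl l)
      exact P.closure_subset_closure (union_subset_union_right _ (Finset.coe_subset.2 hWZ)) hfin
    · -- three vertices
      intro l
      have hnz : ∀ v, v ∈ N (z l) → v ∈ N (t l) → False := by
        intro v hv hv'
        have h1 := (hfar _ _).1 (hg.farzK l _ (htKa l)) v hv v hv'
        rw [sd_self] at h1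
        omega
      refine ⟨?_, ?_⟩
      · have h13 : b₁ l ≠ b₃ l := by
          intro h
          exact hnz _ (ov₁ l) (h ▸ ov₃ l)
        have h23 : b₂ l ≠ b₃ l := by
          intro h
          exact hnz _ (ov₂ l) (h ▸ ov₃ l)
        rw [Finset.card_eq_three.2 ⟨b₁ l, b₂ l, b₃ l, hb12 l, h13, h23, rfl⟩]
      · have hflat : ∀ (v : ℕ × ℕ), DeepR (0, 0) a b δ v → ∀ (x : α), v ∈ N x → ∀ y ∈ T,
            far x y → y ∈ P.closure (Fl v ∪ Y) := by
          intro v hv x hxv y hy hxy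
          refine hin v (hmono (by omega) hv) y hy ?_
          intro hvy
          have h1 := (hfar _ _).1 hxy v hxv v hvy
          rw [sd_self] at h1
          omega
        have own : ∀ v, DeepR (0, 0) a b δ v → v ∈ N (z l) → z l ∉ P.closure (Fl v ∪ Y) →
            z l ∉ P.closure (Fl v ∪ (Z : Set α)) := by
          intro v hv hp hn hcon
          refine hn (P.closure_subset_closure_of_subset_closure ?_ hcon)
          refine union_subset (hScl v) ?_
          rw [hZc]
          refine union_subset (hFY.trans (hYcl v)) ?_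
          intro y hy
          exact hflat v hv _ hp y (hKaT y hy) (hg.farzK l y hy)
        intro v hv
        rw [hLoc]
        rw [Finset.mem_insert, Finset.mem_insert, Finset.mem_singleton] at hv
        rcases hv with rfl | rfl | rfl
        · exact own _ (hb₁ l) (ov₁ l) (by rw [hFl]; exact hcz1 l)
        · exact own _ (hb₂ l) (ov₂ l) (by rw [hFl]; exact hcz2 l)
        · intro hcon
          apply hct3 l
          rw [← hFl]
          obtain ⟨Q, hQ⟩ : ∃ Q, Q = Fl (b₃ l) ∪ ((F : Set α) ∪ ((Ka : Set α) \ {t l})) :=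
            ⟨_, rfl⟩
          have h1 : z l ∉ P.closure Q := by
            intro h2
            refine hg.ncl l (P.closure_subset_closure ?_ h2)
            rw [hQ]
            exact union_subset_union_left _ (hFlS _)
          have h2 : z l ∈ P.closure (insert (t l) Q) := by
            refine P.closure_subset_closure ?_ hcon
            rw [hQ, hZc]
            rintro y (hy | hy | hy)
            · exact Or.inr (Or.inl hy)
            · exact Or.inr (Or.inr (Or.inl hy))
            · by_cases hyt : y = t l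
              · exact Or.inl hyt
              · exact Or.inr (Or.inr (Or.inr ⟨hy, hyt⟩))
          have h3 := P.closure_exchange ⟨h2, h1⟩
          refine P.closure_subset_closure_of_subset_closure ?_ h3.1
          refine insert_subset ?_ ?_
          · refine hflat _ (hb₃ l) (t l) (ov₃ l) _ (hg.zT l) ?_
            rw [hfar]
            intro a ha a' ha'
            rw [sd_comm]
            exact (hfar _ _).1 (hg.farzK l _ (htKa l)) a' ha' a ha
          · rw [hQ]
            refine union_subset (hScl _) (union_subset (hFY.trans (hYcl _)) ?_)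
            rintro y ⟨hy, hyt⟩
            exact hflat _ (hb₃ l) (t l) (ov₃ l) y (hKaT y hy)
              (hg.farK _ (htKa l) y hy (fun h => hyt h.symm))
    · intro l v hv
      have h1 := hΔs s hs
      rw [Finset.mem_insert, Finset.mem_insert, Finset.mem_singleton] at hv
      rcases hv with rfl | rfl | rfl
      · exact hmono (by omega) (hb₁ l)
      · exact hmono (by omega) (hb₂ l)
      · exact hmono (by omega) (hb₃ l)
    · intro l l' hll v hv p' hp'
      have h1 := hΔs s hs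
      obtain ⟨y, hyp, hy⟩ : ∃ y, p' ∈ N y ∧ (y = z l' ∨ y ∈ K₀ ∨ y ∈ K l') := by
        rw [hNn, Finset.mem_union, Finset.mem_union, Finset.mem_biUnion,
          Finset.mem_biUnion] at hp'
        rcases hp' with (h2 | ⟨y, hy, h2⟩) | ⟨y, hy, h2⟩
        · exact ⟨_, h2, Or.inl rfl⟩
        · exact ⟨y, h2, Or.inr (Or.inl hy)⟩
        · exact ⟨y, h2, Or.inr (Or.inr hy)⟩
      have hyz : far (z l) y := by
        rcases hy with rfl | hy | hy
        · exact hg.farz l l' hll
        · exact hg.farzK l y ((hg.mKa y).2 (Or.inl hy))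
        · exact hg.farzK l y ((hg.mKa y).2 (Or.inr ⟨l', hy⟩))
      have hyt : far (t l) y := by
        rcases hy with rfl | hy | hy
        · rw [hfar]
          intro a ha a' ha'
          rw [sd_comm]
          exact (hfar _ _).1 (hg.farzK l' _ (htKa l)) a' ha' a ha
        · refine hg.farK _ (htKa l) y ((hg.mKa y).2 (Or.inl hy)) ?_
          rintro rfl
          exact Finset.disjoint_left.1 (hg.d0 l) hy (hg.tK l)
        · refine hg.farK _ (htKa l) y ((hg.mKa y).2 (Or.inr ⟨l', hy⟩)) ?_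
          rintro rfl
          exact Finset.disjoint_left.1 (hg.dK l l' hll) (hg.tK l) hy
      have h2 : δ ≤ sd v p' := by
        rw [Finset.mem_insert, Finset.mem_insert, Finset.mem_singleton] at hv
        rcases hv with rfl | rfl | rfl
        · exact (hfar _ _).1 hyz _ (ov₁ l) p' hyp
        · exact (hfar _ _).1 hyz _ (ov₂ l) p' hyp
        · exact (hfar _ _).1 hyt _ (ov₃ l) p' hyp
      omega

/-- **LIFT+ on a plain rectangle.** -/
theorem liftRect (k β D : ℕ) : ∃ ρ q δ : ℕ, ∀ {α : Type u} (P : Matroid α) [P.Finite]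
    (S Y : Set α) (row : α → Sym2 (ℕ × ℕ)) (a b : ℕ), a ≤ b → RGrd P S row (rect 0 0 a b) →
    Y ⊆ P.E → rk P (S ∪ Y) = rk P S + rk P Y →
    ∀ (T : Set α) (N : α → Finset (ℕ × ℕ)), T ⊆ P.closure (S ∪ Y) →
    (∀ z ∈ T, TwoR P S Y row a b β D δ z (N z)) →
    HasUniformMinor P k ∨ ∃ (V : Finset (ℕ × ℕ)) (F₀ : Finset α), V.card ≤ q * rk P Y ∧
      F₀.card ≤ ρ ∧ (F₀ : Set α) ⊆ T ∧
      ∀ z ∈ T, (∀ v ∈ N z, ∀ v' ∈ V, δ ≤ sd v v') → z ∈ P.closure (S ∪ (F₀ : Set α)) := by
  obtain ⟨ρ, q, δ, h⟩ := liftRectT.{u} k β D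
  refine ⟨ρ, q, δ, ?_⟩
  intro α P _ S Y row a b hab hR hY hSY T N hTcl hT
  rcases h P S Y row a b hab hR hY hSY T N hTcl hT with h1 | ⟨V, F₀, h1, h2⟩
  · exact Or.inl h1
  · refine Or.inr ⟨V, F₀, h1.trans (Nat.mul_le_mul_left _ ?_), h2⟩
    have h5 : rk P (S ∪ T) ≤ rk P (S ∪ Y) := by
      rw [← rk_closure (S ∪ Y)]
      refine rk_mono P (union_subset ?_ hTcl)
      exact subset_union_left.trans (P.subset_closure _ (union_subset hR.sub hY))
    omega

end DA
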