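import Pool.Agent.DA.HubPic

/-!
# Skew lines over a hub give a uniform minor (row B4 of cell G, problem MP_5165fa_co)

`HL`: labels `A` with lines `V a` (rank 2, skew over `X`), windows `W` with points `y b`, and points
`τ a b` in the plane of `V a` and `y b`, pairwise not parallel.  `lines`: `k (k - 1)` labels and
many windows give `U_{k,2k}`.
-/

open Set BIC BICS
open scoped Matroid

namespace DA

variable {α ι : Type*} {M : Matroid α}

lemma rk_incr [M.Finite] {W W' T : Set α} (h : W ⊆ M.closure W') :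
    rk M (W' ∪ T) + rk M W ≤ rk M (W ∪ T) + rk M W' := by
  have h1 : rk M (M.closure W' ∪ T) = rk M (W' ∪ T) := by
    rw [← rk_closure (M := M) (M.closure W' ∪ _), Matroid.closure_union_closure_left_eq,
      rk_closure]
  have h2 : rk M W + rk M (M.closure W' ∪ T) ≤ rk M (W ∪ T) + rk M (M.closure W') := by
    refine rk_sub' (subset_inter subset_union_left h) ?_
    rintro x (hx | hx)
    · exact Or.inr hx
    · exact Or.inl (Or.inr hx)
  rw [h1, rk_closure] at h2
  omega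

lemma rk_le_cl [M.Finite] {P Q : Set α} (h : P ⊆ M.closure Q) : rk M P ≤ rk M Q := by
  have := rk_mono M h
  rwa [rk_closure] at this

lemma span_eq [M.Finite] {P Q : Set α} (hPQ : P ⊆ M.closure Q) (hQ : Q ⊆ M.E)
    (h : rk M Q ≤ rk M P) : Q ⊆ M.closure P := by
  intro x hx
  by_contra hcon
  have h1 := rk_ins_not (hQ hx) hcon
  have h2 := rk_le_cl (M := M) (insert_subset (M.mem_closure_of_mem' hx (hQ hx)) hPQ)
  omega

/-- Lines over a hub. -/
structure HL (M : Matroid α) (X : Set α) (V : ι → Set α) (y : ℕ → α) (τ : ι → ℕ → α)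
    (A : Finset ι) (W Bc : Finset ℕ) : Prop where
  subX : X ⊆ M.E
  subV : ∀ a ∈ A, V a ⊆ M.E
  memy : ∀ b ∈ W, y b ∈ M.E
  core : Bc ⊆ W
  full : rk M (X ∪ y '' (Bc : Set ℕ)) + 2 * A.card + (W \ Bc).card ≤
    rk M (X ∪ y '' (W : Set ℕ) ∪ ⋃ a ∈ (A : Set ι), V a)
  two : ∀ a ∈ A, rk M (X ∪ V a) ≤ rk M X + 2
  inn : ∀ a ∈ A, ∀ b ∈ W, τ a b ∈ M.closure (insert (y b) (X ∪ V a))
  inn2 : ∀ a ∈ A, ∀ b ∈ W, y b ∈ M.closure (insert (τ a b) (X ∪ V a))
  np : ∀ a ∈ A, ∀ b ∈ W, ∀ b' ∈ W, b ≠ b' →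
    rk M (X ∪ y '' (W : Set ℕ) ∪ ⋃ a' ∈ {a' | a' ∈ A ∧ a' ≠ a}, V a') + 2 ≤
      rk M ((X ∪ y '' (W : Set ℕ) ∪ ⋃ a' ∈ {a' | a' ∈ A ∧ a' ≠ a}, V a') ∪ {τ a b, τ a b'})

namespace HL

variable {X : Set α} {V : ι → Set α} {y : ℕ → α} {τ : ι → ℕ → α} {A : Finset ι} {W Bc : Finset ℕ}

lemma subU (H : HL M X V y τ A W Bc) {A' : Set ι} (hA' : A' ⊆ A) : (⋃ a ∈ A', V a) ⊆ M.E :=
  iUnion₂_subset fun a ha => H.subV a (hA' ha)

lemma suby (H : HL M X V y τ A W Bc) {B' : Set ℕ} (hB' : B' ⊆ W) : y '' B' ⊆ M.E := by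
  rintro _ ⟨b, hb, rfl⟩
  exact H.memy b (hB' hb)

lemma upper [M.Finite] (H : HL M X V y τ A W Bc) (A' : Finset ι) (hA' : A' ⊆ A) (Y : Set α)
    (hY : X ⊆ Y) : rk M (Y ∪ ⋃ a ∈ (A' : Set ι), V a) ≤ rk M Y + 2 * A'.card := by
  classical
  induction A' using Finset.induction_on with
  | empty => simp
  | insert a A' ha ih =>
    have h1 := ih ((Finset.subset_insert a A').trans hA')
    have h2 := H.two a (hA' (Finset.mem_insert_self a A'))
    have h3 : rk M ((Y ∪ ⋃ a ∈ (A' : Set ι), V a) ∪ V a) + rk M X ≤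
        rk M (X ∪ V a) + rk M (Y ∪ ⋃ a ∈ (A' : Set ι), V a) := by
      have h4 : rk M X + rk M ((Y ∪ ⋃ a ∈ (A' : Set ι), V a) ∪ V a) ≤
          rk M (X ∪ V a) + rk M (Y ∪ ⋃ a ∈ (A' : Set ι), V a) := by
        refine rk_sub' (subset_inter subset_union_left (hY.trans subset_union_left)) ?_
        rintro x (hx | hx)
        · exact Or.inr hx
        · exact Or.inl (Or.inr hx)
      omega
    have h5 : Y ∪ ⋃ a' ∈ ((insert a A' : Finset ι) : Set ι), V a' =
        (Y ∪ ⋃ a' ∈ (A' : Set ι), V a') ∪ V a := by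
      rw [Finset.coe_insert, biUnion_insert, union_comm (V a), union_assoc]
    rw [h5, Finset.card_insert_of_notMem ha]
    omega

/-- Everything is as independent as possible. -/
lemma eq [M.Finite] (H : HL M X V y τ A W Bc) {A' : Finset ι} (hA' : A' ⊆ A) {B' : Finset ℕ}
    (hB' : B' ⊆ W \ Bc) :
    rk M (X ∪ y '' (Bc : Set ℕ) ∪ y '' (B' : Set ℕ) ∪ ⋃ a ∈ (A' : Set ι), V a) =
      rk M (X ∪ y '' (Bc : Set ℕ)) + B'.card + 2 * A'.card := by
  classical
  have h1 := H.upper A' hA' (X ∪ y '' (Bc : Set ℕ) ∪ y '' (B' : Set ℕ))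
    (subset_union_left.trans subset_union_left)
  have h2 := rk_add_le (M := M) (X ∪ y '' (Bc : Set ℕ)) y B'
  have h3 := H.upper (A \ A') Finset.sdiff_subset
    ((X ∪ y '' (Bc : Set ℕ) ∪ y '' (B' : Set ℕ) ∪ ⋃ a ∈ (A' : Set ι), V a) ∪
      y '' (((W \ Bc) \ B' : Finset ℕ) : Set ℕ))
    (subset_union_left.trans (subset_union_left.trans (subset_union_left.trans subset_union_left)))
  have h4 := rk_add_le (M := M)
    (X ∪ y '' (Bc : Set ℕ) ∪ y '' (B' : Set ℕ) ∪ ⋃ a ∈ (A' : Set ι), V a) y ((W \ Bc) \ B')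
  have h5 : rk M (X ∪ y '' (W : Set ℕ) ∪ ⋃ a ∈ (A : Set ι), V a) ≤
      rk M (((X ∪ y '' (Bc : Set ℕ) ∪ y '' (B' : Set ℕ) ∪ ⋃ a ∈ (A' : Set ι), V a) ∪
      y '' (((W \ Bc) \ B' : Finset ℕ) : Set ℕ)) ∪ ⋃ a ∈ ((A \ A' : Finset ι) : Set ι), V a) := by
    refine rk_mono M ?_
    rintro x ((hx | ⟨b, hb, rfl⟩) | hx)
    · exact Or.inl (Or.inl (Or.inl (Or.inl (Or.inl hx))))
    · by_cases hb1 : b ∈ Bc
      · exact Or.inl (Or.inl (Or.inl (Or.inl (Or.inr ⟨b, hb1, rfl⟩))))
      · by_cases hb2 : b ∈ B'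
        · exact Or.inl (Or.inl (Or.inl (Or.inr ⟨b, hb2, rfl⟩)))
        · exact Or.inl (Or.inr ⟨b, by
            rw [Finset.mem_coe, Finset.mem_sdiff, Finset.mem_sdiff]
            exact ⟨⟨hb, hb1⟩, hb2⟩, rfl⟩)
    · rw [mem_iUnion₂] at hx
      obtain ⟨a, ha, hx⟩ := hx
      by_cases ha' : a ∈ A'
      · exact Or.inl (Or.inl (Or.inr (mem_iUnion₂.2 ⟨a, ha', hx⟩)))
      · exact Or.inr (mem_iUnion₂.2 ⟨a, by
          rw [Finset.mem_coe, Finset.mem_sdiff]
          exact ⟨ha, ha'⟩, hx⟩)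
  have h6 := Finset.card_sdiff_add_card_eq_card hA'
  have h7 := Finset.card_sdiff_add_card_eq_card hB'
  have h8 := H.full
  omega

/-- A fresh point is outside of everything else. -/
lemma fresh [M.Finite] (H : HL M X V y τ A W Bc) {b : ℕ} (hb : b ∈ W \ Bc) :
    y b ∉ M.closure (X ∪ y '' ((W.erase b : Finset ℕ) : Set ℕ) ∪ ⋃ a ∈ (A : Set ι), V a) := by
  classical
  intro hcon
  obtain ⟨hbW, hbc⟩ := Finset.mem_sdiff.1 hb
  have h1 := H.eq (subset_refl A) (subset_refl (W \ Bc))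
  have h2 := H.eq (subset_refl A) ((W \ Bc).erase_subset b)
  have h3 : ∀ B', Bc ∪ B' = W.erase b → X ∪ y '' (Bc : Set ℕ) ∪ y '' (B' : Set ℕ) =
      X ∪ y '' ((W.erase b : Finset ℕ) : Set ℕ) := by
    intro B' h
    rw [union_assoc, ← image_union, ← h, Finset.coe_union]
  have h4 : Bc ∪ (W \ Bc).erase b = W.erase b := by
    ext x
    simp only [Finset.mem_union, Finset.mem_erase, Finset.mem_sdiff]
    constructor
    · rintro (hx | ⟨hx, hx1, _⟩)
      · exact ⟨fun h => hbc (h ▸ hx), H.core hx⟩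
      · exact ⟨hx, hx1⟩
    · rintro ⟨hx, hx1⟩
      by_cases hxc : x ∈ Bc
      · exact Or.inl hxc
      · exact Or.inr ⟨hx, hx1, hxc⟩
  have h5 : X ∪ y '' (Bc : Set ℕ) ∪ y '' ((W \ Bc : Finset ℕ) : Set ℕ) =
      insert (y b) (X ∪ y '' ((W.erase b : Finset ℕ) : Set ℕ)) := by
    rw [union_assoc, ← image_union, ← Finset.coe_union, Finset.union_sdiff_of_subset H.core]
    have h6 : (W : Set ℕ) = insert b ((W.erase b : Finset ℕ) : Set ℕ) := by
      rw [← Finset.coe_insert, Finset.insert_erase hbW]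
    rw [h6, image_insert_eq, union_insert]
  rw [h3 _ h4] at h2
  rw [h5, insert_union, rk_ins_mem hcon, h2] at h1
  have h7 := Finset.card_erase_of_mem hb
  have h8 : 1 ≤ (W \ Bc).card := Finset.card_pos.2 ⟨b, hb⟩
  omega

/-- Two points and two hub points span the line. -/
lemma spanV [M.Finite] (H : HL M X V y τ A W Bc) {h : ι} (hh : h ∈ A) {b b' : ℕ} (hb : b ∈ W)
    (hb' : b' ∈ W) (hne : b ≠ b') :
    V h ⊆ M.closure ((X ∪ {y b, y b'}) ∪ {τ h b, τ h b'}) := by
  have h1 := H.np h hh b hb b' hb' hne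
  have hXy : X ∪ {y b, y b'} ⊆ X ∪ y '' (W : Set ℕ) ∪ ⋃ a' ∈ {a' | a' ∈ A ∧ a' ≠ h}, V a' := by
    refine subset_union_of_subset_left (union_subset_union_right _ ?_) _
    rintro x (rfl | rfl)
    · exact ⟨b, hb, rfl⟩
    · exact ⟨b', hb', rfl⟩
  have hsub : X ∪ y '' (W : Set ℕ) ∪ ⋃ a' ∈ {a' | a' ∈ A ∧ a' ≠ h}, V a' ⊆ M.E :=
    union_subset (union_subset H.subX (H.suby subset_rfl)) (H.subU fun a ha => ha.1)
  have h2 := rk_incr (M := M) (T := {τ h b, τ h b'})
    (hXy.trans (M.subset_closure _ hsub))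
  have h3 := H.two h hh
  have hXV : X ∪ V h ⊆ M.E := union_subset H.subX (H.subV h hh)
  have h4 : rk M X + rk M ((X ∪ {y b, y b'}) ∪ V h) ≤
      rk M (X ∪ V h) + rk M (X ∪ {y b, y b'}) := by
    refine rk_sub' (subset_inter subset_union_left subset_union_left) ?_
    rintro x (hx | hx)
    · exact Or.inr hx
    · exact Or.inl (Or.inr hx)
  have hyE : ({y b, y b'} : Set α) ⊆ M.E := by
    rintro x (rfl | rfl)
    · exact H.memy b hb
    · exact H.memy b' hb'
  have hQE : (X ∪ {y b, y b'}) ∪ V h ⊆ M.E :=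
    union_subset (union_subset H.subX hyE) (H.subV h hh)
  have h5 : (X ∪ {y b, y b'}) ∪ {τ h b, τ h b'} ⊆ M.closure ((X ∪ {y b, y b'}) ∪ V h) := by
    rintro x (hx | hx)
    · exact M.mem_closure_of_mem' (Or.inl hx) (hQE (Or.inl hx))
    · rcases hx with rfl | rfl
      · refine M.closure_subset_closure ?_ (H.inn h hh b hb)
        exact insert_subset (Or.inl (Or.inr (Or.inl rfl)))
          (union_subset_union_left _ subset_union_left)
      · refine M.closure_subset_closure ?_ (H.inn h hh b' hb')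
        exact insert_subset (Or.inl (Or.inr (Or.inr rfl)))
          (union_subset_union_left _ subset_union_left)
  exact subset_union_right.trans (span_eq h5 hQE (by omega))

/-- Three points on the plane of a line and a fresh point are independent. -/
lemma three [M.Finite] (H : HL M X V y τ A W Bc) {h : ι} (hh : h ∈ A) {b₁ b₂ b : ℕ}
    (h1 : b₁ ∈ Bc) (h2 : b₂ ∈ Bc) (hne : b₁ ≠ b₂) (hb : b ∈ W \ Bc) {Z : Set α}
    (hZ : Z ⊆ X ∪ y '' ((W.erase b : Finset ℕ) : Set ℕ) ∪ ⋃ a' ∈ {a' | a' ∈ A ∧ a' ≠ h}, V a') :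
    rk M (insert (τ h b) (Z ∪ {τ h b₁, τ h b₂})) = rk M Z + 3 ∧
      rk M (Z ∪ {τ h b₁, τ h b₂}) = rk M Z + 2 := by
  classical
  obtain ⟨hbW, hbc⟩ := Finset.mem_sdiff.1 hb
  have hb₁ : b₁ ∈ W.erase b := Finset.mem_erase.2 ⟨fun h => hbc (h ▸ h1), H.core h1⟩
  have hb₂ : b₂ ∈ W.erase b := Finset.mem_erase.2 ⟨fun h => hbc (h ▸ h2), H.core h2⟩
  set Gb : Set α := X ∪ y '' ((W.erase b : Finset ℕ) : Set ℕ) ∪
    ⋃ a' ∈ {a' | a' ∈ A ∧ a' ≠ h}, V a' with hGb
  have hGbE : Gb ⊆ M.E := union_subset (union_subset H.subX (H.suby (by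
    exact_mod_cast Finset.erase_subset b W))) (H.subU fun a ha => ha.1)
  have hGG : Gb ⊆ X ∪ y '' (W : Set ℕ) ∪ ⋃ a' ∈ {a' | a' ∈ A ∧ a' ≠ h}, V a' := by
    refine union_subset_union_left _ (union_subset_union_right _ (image_mono ?_))
    exact_mod_cast Finset.erase_subset b W
  have hsub : X ∪ y '' (W : Set ℕ) ∪ ⋃ a' ∈ {a' | a' ∈ A ∧ a' ≠ h}, V a' ⊆ M.E :=
    union_subset (union_subset H.subX (H.suby subset_rfl)) (H.subU fun a ha => ha.1)
  have e1 := H.np h hh b₁ (H.core h1) b₂ (H.core h2) hne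
  have e2 := rk_incr (M := M) (T := {τ h b₁, τ h b₂}) (hGG.trans (M.subset_closure _ hsub))
  have e3 : Gb ∪ {τ h b₁, τ h b₂} ⊆ M.closure (Gb ∪ V h) := by
    have hE : Gb ∪ V h ⊆ M.E := union_subset hGbE (H.subV h hh)
    rintro x (hx | rfl | rfl)
    · exact M.mem_closure_of_mem' (Or.inl hx) (hGbE hx)
    · refine M.closure_subset_closure ?_ (H.inn h hh b₁ (H.core h1))
      refine insert_subset (Or.inl (Or.inl (Or.inr ⟨b₁, hb₁, rfl⟩))) (union_subset_union_left _ ?_)
      exact subset_union_left.trans subset_union_left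
    · refine M.closure_subset_closure ?_ (H.inn h hh b₂ (H.core h2))
      refine insert_subset (Or.inl (Or.inl (Or.inr ⟨b₂, hb₂, rfl⟩))) (union_subset_union_left _ ?_)
      exact subset_union_left.trans subset_union_left
  have e4 : τ h b ∉ M.closure (Gb ∪ V h) := by
    intro hcon
    refine H.fresh hb ?_
    have e5 : insert (τ h b) (X ∪ V h) ⊆ M.closure (Gb ∪ V h) := by
      refine insert_subset hcon (union_subset ?_ ?_)
      · exact (subset_union_left.trans (subset_union_left.trans subset_union_left)).trans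
          (M.subset_closure _ (union_subset hGbE (H.subV h hh)))
      · exact subset_union_right.trans (M.subset_closure _ (union_subset hGbE (H.subV h hh)))
    have e6 := M.closure_subset_closure_of_subset_closure e5 (H.inn2 h hh b hbW)
    refine M.closure_subset_closure ?_ e6
    rintro x ((hx | hx) | hx)
    · exact Or.inl hx
    · rw [mem_iUnion₂] at hx
      obtain ⟨a, ha, hx⟩ := hx
      exact Or.inr (mem_iUnion₂.2 ⟨a, ha.1, hx⟩)
    · exact Or.inr (mem_iUnion₂.2 ⟨h, hh, hx⟩)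
  have e5 : τ h b ∉ M.closure (Gb ∪ {τ h b₁, τ h b₂}) := fun hcon =>
    e4 (M.closure_subset_closure_of_subset_closure e3 hcon)
  have hτE : τ h b ∈ M.E := M.closure_subset_ground _ (H.inn h hh b hbW)
  have e6 := rk_ins_not hτE e5
  have e7 : rk M (Gb ∪ {τ h b₁, τ h b₂}) + rk M Z ≤ rk M (Z ∪ {τ h b₁, τ h b₂}) + rk M Gb :=
    rk_incr (hZ.trans (M.subset_closure _ hGbE))
  have e8 : rk M (insert (τ h b) (Gb ∪ {τ h b₁, τ h b₂})) + rk M Z ≤
      rk M (insert (τ h b) (Z ∪ {τ h b₁, τ h b₂})) + rk M Gb := by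
    have e11 := rk_incr (M := M) (T := insert (τ h b) ({τ h b₁, τ h b₂} : Set α))
      (hZ.trans (M.subset_closure _ hGbE))
    have e12 : ∀ U : Set α, U ∪ insert (τ h b) ({τ h b₁, τ h b₂} : Set α) =
        insert (τ h b) (U ∪ {τ h b₁, τ h b₂}) := fun U => union_insert
    rwa [e12, e12] at e11
  have e9 : rk M (Z ∪ {τ h b₁, τ h b₂}) ≤ rk M Z + 2 := by
    rw [union_insert, union_singleton]
    have := rk_insert_le (M := M) (τ h b₁) (insert (τ h b₂) Z)
    have := rk_insert_le (M := M) (τ h b₂) Z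
    omega
  have e10 := rk_insert_le (M := M) (τ h b) (Z ∪ {τ h b₁, τ h b₂})
  constructor
  · omega
  · omega

/-- **The join step.** -/
theorem join [M.Finite] [DecidableEq ι] (H : HL M X V y τ A W Bc) {h : ι} (hh : h ∈ A) {b₁ b₂ : ℕ}
    (h1 : b₁ ∈ Bc) (h2 : b₂ ∈ Bc) (hne : b₁ ≠ b₂) (𝓕 : Finset (Finset ℕ))
    (h𝓕 : ∀ F ∈ 𝓕, F ⊆ Bc ∧ (y b₁ ∉ M.closure (X ∪ y '' (F : Set ℕ)) ∨
      y b₂ ∉ M.closure (X ∪ y '' (F : Set ℕ)))) (hc : 𝓕.card < (W \ Bc).card) :
    ∃ b ∈ W \ Bc, ∃ X₂, X ⊆ X₂ ∧ HL M X₂ V y τ (A.erase h) W (insert b Bc) ∧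
      y b ∈ M.closure (X₂ ∪ {y b₁, y b₂}) ∧
      (∀ Z ⊆ Bc, rk M (X₂ ∪ y '' (Z : Set ℕ)) = rk M (X ∪ y '' (Z : Set ℕ)) + 3) ∧
      ∀ F ∈ 𝓕, y b ∉ M.closure (X₂ ∪ y '' (F : Set ℕ)) := by
  classical
  set T₁ : Set α := X ∪ {τ h b₁, τ h b₂} with hT₁
  have hτE : ∀ b ∈ W, τ h b ∈ M.E := fun b hb => M.closure_subset_ground _ (H.inn h hh b hb)
  have hT₁E : T₁ ⊆ M.E := by
    rintro x (hx | rfl | rfl)
    · exact H.subX hx
    · exact hτE _ (H.core h1)
    · exact hτE _ (H.core h2)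
  have hyW : ∀ {F : Set ℕ}, F ⊆ W → y '' F ⊆ M.E := fun hF => H.suby hF
  have hBW : (Bc : Set ℕ) ⊆ W := by exact_mod_cast H.core
  -- the bad windows
  have hbad : ∃ b ∈ W \ Bc, ∀ F ∈ 𝓕, y b ∉ M.closure (insert (τ h b) T₁ ∪ y '' (F : Set ℕ)) := by
    by_contra hcon
    push Not at hcon
    choose! f hf1 hf2 using hcon
    obtain ⟨b, hb, b', hb', hbb, hfb⟩ :=
      Finset.exists_ne_map_eq_of_card_lt_of_maps_to hc hf1
    obtain ⟨hFB, hFy⟩ := h𝓕 _ (hf1 b hb)
    set F := f b with hF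
    have hFB' : (F : Set ℕ) ⊆ Bc := by exact_mod_cast hFB
    have g1 := hf2 b hb
    have g2 := hf2 b' hb'
    rw [← hfb] at g2
    -- exchange
    have hex : ∀ c ∈ W \ Bc, y c ∈ M.closure (insert (τ h c) T₁ ∪ y '' (F : Set ℕ)) →
        τ h c ∈ M.closure (insert (y c) (T₁ ∪ y '' (F : Set ℕ))) := by
      intro c hc hyc
      obtain ⟨hcW, hcc⟩ := Finset.mem_sdiff.1 hc
      rw [insert_union] at hyc
      refine hexch hyc fun hcon => H.fresh hc ?_
      refine M.closure_subset_closure_of_subset_closure ?_ hcon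
      set U : Set α := X ∪ y '' ((W.erase c : Finset ℕ) : Set ℕ) ∪ ⋃ a ∈ (A : Set ι), V a with hU
      have hUE : U ⊆ M.E := union_subset (union_subset H.subX (H.suby (by
        exact_mod_cast Finset.erase_subset c W))) (H.subU subset_rfl)
      have hUV : X ∪ V h ⊆ U := by
        rintro x (hx | hx)
        · exact Or.inl (Or.inl hx)
        · exact Or.inr (mem_iUnion₂.2 ⟨h, hh, hx⟩)
      have hyU : ∀ d ∈ Bc, y d ∈ U := fun d hd => Or.inl (Or.inr ⟨d, Finset.mem_coe.2
        (Finset.mem_erase.2 ⟨fun hdc => hcc (hdc ▸ hd), H.core hd⟩), rfl⟩)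
      rintro x ((hx | rfl | rfl) | ⟨d, hd, rfl⟩)
      · exact M.mem_closure_of_mem' (Or.inl (Or.inl hx)) (H.subX hx)
      · exact M.closure_subset_closure (insert_subset (hyU _ h1) hUV) (H.inn h hh _ (H.core h1))
      · exact M.closure_subset_closure (insert_subset (hyU _ h2) hUV) (H.inn h hh _ (H.core h2))
      · exact M.mem_closure_of_mem' (hyU d (hFB hd)) (H.memy d (H.core (hFB hd)))
    have g3 := hex b hb g1
    have g4 := hex b' hb' g2
    obtain ⟨hbW, hbc⟩ := Finset.mem_sdiff.1 hb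
    obtain ⟨hbW', hbc'⟩ := Finset.mem_sdiff.1 hb'
    -- the line is in the closure
    have hZE : T₁ ∪ y '' (F : Set ℕ) ⊆ M.E := union_subset hT₁E (hyW (hFB'.trans hBW))
    have hpair : y '' (({b, b'} : Finset ℕ) : Set ℕ) = {y b, y b'} := by
      rw [Finset.coe_pair, image_pair]
    have g5 : V h ⊆ M.closure ((T₁ ∪ y '' (F : Set ℕ)) ∪ y '' (({b, b'} : Finset ℕ) : Set ℕ)) := by
      refine (H.spanV hh hbW hbW' hbb).trans (M.closure_subset_closure_of_subset_closure ?_)
      have hE : (T₁ ∪ y '' (F : Set ℕ)) ∪ {y b, y b'} ⊆ M.E := by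
        refine union_subset hZE ?_
        rintro x (rfl | rfl)
        · exact H.memy b hbW
        · exact H.memy b' hbW'
      rw [hpair]
      rintro x ((hx | hx) | hx)
      · exact M.mem_closure_of_mem' (Or.inl (Or.inl (Or.inl hx))) (H.subX hx)
      · exact M.mem_closure_of_mem' (Or.inr hx) (hE (Or.inr hx))
      · rcases hx with rfl | rfl
        · exact M.closure_subset_closure (insert_subset (Or.inr (Or.inl rfl)) subset_union_left) g3
        · exact M.closure_subset_closure (insert_subset (Or.inr (Or.inr rfl)) subset_union_left) g4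
    -- the fresh points are independent over the core and the line
    have g6 : rk M ((X ∪ y '' (Bc : Set ℕ) ∪ V h) ∪ y '' (({b, b'} : Finset ℕ) : Set ℕ)) =
        rk M (X ∪ y '' (Bc : Set ℕ) ∪ V h) + ({b, b'} : Finset ℕ).card := by
      have hs : ({b, b'} : Finset ℕ) ⊆ W \ Bc := by
        intro x hx
        rcases Finset.mem_insert.1 hx with rfl | hx
        · exact hb
        · rw [Finset.mem_singleton.1 hx]; exact hb'
      have e1 := H.eq (Finset.singleton_subset_iff.2 hh) hs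
      have e2 := H.eq (Finset.singleton_subset_iff.2 hh) (Finset.empty_subset (W \ Bc))
      rw [Finset.coe_singleton, biUnion_singleton] at e1 e2
      rw [Finset.coe_empty, image_empty, union_empty] at e2
      rw [union_right_comm, e1, e2]
      simp only [Finset.card_empty, Finset.card_singleton]
      omega
    have hXB : X ∪ y '' (Bc : Set ℕ) ⊆ M.E := union_subset H.subX (hyW hBW)
    have hXBV : X ∪ y '' (Bc : Set ℕ) ∪ V h ⊆ M.E := union_subset hXB (H.subV h hh)
    have hXV : X ∪ V h ⊆ X ∪ y '' (Bc : Set ℕ) ∪ V h :=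
      union_subset_union_left _ subset_union_left
    have g7 : T₁ ∪ y '' (F : Set ℕ) ⊆ M.closure (X ∪ y '' (Bc : Set ℕ) ∪ V h) := by
      rintro x ((hx | rfl | rfl) | ⟨d, hd, rfl⟩)
      · exact M.mem_closure_of_mem' (Or.inl (Or.inl hx)) (H.subX hx)
      · exact M.closure_subset_closure (insert_subset (Or.inl (Or.inr ⟨b₁, h1, rfl⟩)) hXV)
          (H.inn h hh _ (H.core h1))
      · exact M.closure_subset_closure (insert_subset (Or.inl (Or.inr ⟨b₂, h2, rfl⟩)) hXV)
          (H.inn h hh _ (H.core h2))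
      · exact M.mem_closure_of_mem' (Or.inl (Or.inr ⟨d, hFB hd, rfl⟩))
          (H.memy d (H.core (hFB hd)))
    have g8 : V h ⊆ M.closure (T₁ ∪ y '' (F : Set ℕ)) := by
      intro x hx
      exact mem_drop g6 g7 (M.mem_closure_of_mem' (Or.inr hx) (H.subV h hh hx)) (g5 hx)
    have g9 : ∀ d ∈ ({b₁, b₂} : Finset ℕ), y d ∈ M.closure (T₁ ∪ y '' (F : Set ℕ)) := by
      intro d hd
      have hdB : d ∈ Bc := by
        rcases Finset.mem_insert.1 hd with rfl | hd
        · exact h1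
        · rw [Finset.mem_singleton.1 hd]; exact h2
      refine M.closure_subset_closure_of_subset_closure ?_ (H.inn2 h hh d (H.core hdB))
      refine insert_subset ?_ (union_subset ?_ g8)
      · refine M.mem_closure_of_mem' (Or.inl (Or.inr ?_)) (hτE d (H.core hdB))
        rcases Finset.mem_insert.1 hd with rfl | hd
        · exact Or.inl rfl
        · exact Or.inr (by rw [Finset.mem_singleton.1 hd]; rfl)
      · exact (subset_union_left.trans subset_union_left).trans (M.subset_closure _ hZE)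
    -- drop the two points
    have hBe : y '' (Bc : Set ℕ) ⊆ y '' ((W.erase b : Finset ℕ) : Set ℕ) := by
      refine image_mono ?_
      intro d hd
      exact Finset.mem_coe.2 (Finset.mem_erase.2 ⟨fun hdc => hbc (hdc ▸ hd), H.core hd⟩)
    have g10 : rk M ((X ∪ y '' (Bc : Set ℕ)) ∪ τ h '' (({b₁, b₂} : Finset ℕ) : Set ℕ)) =
        rk M (X ∪ y '' (Bc : Set ℕ)) + ({b₁, b₂} : Finset ℕ).card := by
      rw [Finset.coe_pair, image_pair, Finset.card_pair hne]
      exact (H.three hh h1 h2 hne hb (Z := X ∪ y '' (Bc : Set ℕ))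
        ((union_subset_union_right _ hBe).trans subset_union_left)).2
    have g11 : ∀ d ∈ ({b₁, b₂} : Finset ℕ), y d ∈ M.closure (X ∪ y '' (F : Set ℕ)) := by
      intro d hd
      have hdB : d ∈ Bc := by
        rcases Finset.mem_insert.1 hd with rfl | hd
        · exact h1
        · rw [Finset.mem_singleton.1 hd]; exact h2
      refine mem_drop g10 ?_ (M.mem_closure_of_mem' (Or.inr ⟨d, hdB, rfl⟩)
        (H.memy d (H.core hdB))) ?_
      · exact (union_subset_union_right _ (image_mono hFB')).trans (M.subset_closure _ hXB)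
      · rw [Finset.coe_pair, image_pair, union_right_comm]
        exact g9 d hd
    rcases hFy with hFy | hFy
    · exact hFy (g11 b₁ (by simp))
    · exact hFy (g11 b₂ (by simp))
  obtain ⟨b, hb, hbF⟩ := hbad
  obtain ⟨hbW, hbc⟩ := Finset.mem_sdiff.1 hb
  have hX₂ : insert (τ h b) T₁ ⊆ M.E := insert_subset (hτE b hbW) hT₁E
  -- rank of the new base with core points
  have hrk : ∀ Z ⊆ Bc, rk M (insert (τ h b) T₁ ∪ y '' (Z : Set ℕ)) =
      rk M (X ∪ y '' (Z : Set ℕ)) + 3 := by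
    intro Z hZ
    have e1 : insert (τ h b) T₁ ∪ y '' (Z : Set ℕ) =
        insert (τ h b) ((X ∪ y '' (Z : Set ℕ)) ∪ {τ h b₁, τ h b₂}) := by
      rw [hT₁, insert_union, union_right_comm]
    rw [e1]
    refine (H.three hh h1 h2 hne hb ?_).1
    refine (union_subset_union_right _ (image_mono ?_)).trans subset_union_left
    intro d hd
    exact Finset.mem_coe.2 (Finset.mem_erase.2 ⟨fun hdc => hbc (hdc ▸ (hZ hd)), H.core (hZ hd)⟩)
  -- the line is in the closure of the new base and two points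
  have hVcl : V h ⊆ M.closure (T₁ ∪ {y b₁, y b₂}) := by
    have := H.spanV hh (H.core h1) (H.core h2) hne
    rwa [union_right_comm] at this
  have hybE : ({y b₁, y b₂} : Set α) ⊆ M.E := by
    rintro x (rfl | rfl)
    · exact H.memy _ (H.core h1)
    · exact H.memy _ (H.core h2)
  have hyb : y b ∈ M.closure (insert (τ h b) T₁ ∪ {y b₁, y b₂}) := by
    refine M.closure_subset_closure_of_subset_closure ?_ (H.inn2 h hh b hbW)
    refine insert_subset (M.mem_closure_of_mem' (Or.inl (Or.inl rfl)) (hτE b hbW))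
      (union_subset ?_ ?_)
    · exact (subset_union_left.trans ((subset_insert _ _).trans subset_union_left)).trans
        (M.subset_closure _ (union_subset hX₂ hybE))
    · exact hVcl.trans (M.closure_subset_closure (union_subset_union_left _ (subset_insert _ _)))
  -- the whole configuration
  have hbig : insert (τ h b) T₁ ⊆ M.closure (X ∪ y '' (W : Set ℕ) ∪ V h) := by
    have hE : X ∪ y '' (W : Set ℕ) ∪ V h ⊆ M.E :=
      union_subset (union_subset H.subX (hyW subset_rfl)) (H.subV h hh)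
    have hin : ∀ d ∈ W, τ h d ∈ M.closure (X ∪ y '' (W : Set ℕ) ∪ V h) := fun d hd =>
      M.closure_subset_closure (insert_subset (Or.inl (Or.inr ⟨d, hd, rfl⟩))
        (union_subset_union_left _ subset_union_left)) (H.inn h hh d hd)
    rintro x (rfl | hx | rfl | rfl)
    · exact hin b hbW
    · exact M.mem_closure_of_mem' (Or.inl (Or.inl hx)) (H.subX hx)
    · exact hin b₁ (H.core h1)
    · exact hin b₂ (H.core h2)
  have hXX₂ : X ⊆ insert (τ h b) T₁ := subset_union_left.trans (subset_insert _ _)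
  refine ⟨b, hb, insert (τ h b) T₁, hXX₂, ?_, hyb, hrk, hbF⟩
  refine ⟨hX₂, fun a ha => H.subV a (Finset.mem_of_mem_erase ha), H.memy,
    Finset.insert_subset hbW H.core, ?_, ?_, ?_, ?_, ?_⟩
  · -- full
    have e1 : rk M (insert (τ h b) T₁ ∪ y '' ((insert b Bc : Finset ℕ) : Set ℕ)) =
        rk M (X ∪ y '' (Bc : Set ℕ)) + 3 := by
      rw [← hrk Bc subset_rfl, Finset.coe_insert, image_insert_eq, union_insert]
      refine rk_ins_mem (M.closure_subset_closure (union_subset_union_right _ ?_) hyb)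
      rintro x (rfl | rfl)
      · exact ⟨_, h1, rfl⟩
      · exact ⟨_, h2, rfl⟩
    have e2 : rk M (X ∪ y '' (W : Set ℕ) ∪ ⋃ a ∈ (A : Set ι), V a) ≤
        rk M (insert (τ h b) T₁ ∪ y '' (W : Set ℕ) ∪
          ⋃ a ∈ ((A.erase h : Finset ι) : Set ι), V a) := by
      refine rk_le_cl ?_
      have hE : insert (τ h b) T₁ ∪ y '' (W : Set ℕ) ∪
          (⋃ a ∈ ((A.erase h : Finset ι) : Set ι), V a) ⊆ M.E :=
        union_subset (union_subset hX₂ (hyW subset_rfl)) (H.subU (by
          exact_mod_cast Finset.erase_subset h A))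
      rintro x ((hx | hx) | hx)
      · exact M.mem_closure_of_mem' (Or.inl (Or.inl (hXX₂ hx))) (H.subX hx)
      · exact M.mem_closure_of_mem' (Or.inl (Or.inr hx)) (hyW subset_rfl hx)
      · rw [mem_iUnion₂] at hx
        obtain ⟨a, ha, hx⟩ := hx
        by_cases hah : a = h
        · refine M.closure_subset_closure ?_ (hVcl (hah ▸ hx))
          rintro z (hz | rfl | rfl)
          · exact Or.inl (Or.inl (Or.inr hz))
          · exact Or.inl (Or.inr ⟨_, H.core h1, rfl⟩)
          · exact Or.inl (Or.inr ⟨_, H.core h2, rfl⟩)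
        · exact M.mem_closure_of_mem' (Or.inr (mem_iUnion₂.2 ⟨a, Finset.mem_coe.2
            (Finset.mem_erase.2 ⟨hah, ha⟩), hx⟩)) (H.subV a ha hx)
    have e3 := H.full
    have e4 := Finset.card_erase_of_mem hh
    have e5 : 1 ≤ A.card := Finset.card_pos.2 ⟨h, hh⟩
    have e6 : W \ insert b Bc = (W \ Bc).erase b := by
      ext x
      simp only [Finset.mem_sdiff, Finset.mem_insert, Finset.mem_erase]
      tauto
    have e7 := Finset.card_erase_of_mem hb
    have e8 : 1 ≤ (W \ Bc).card := Finset.card_pos.2 ⟨b, hb⟩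
    rw [e1, e6]
    omega
  · intro a ha
    have e1 := H.two a (Finset.mem_of_mem_erase ha)
    have e2 : rk M X + rk M (insert (τ h b) T₁ ∪ V a) ≤
        rk M (X ∪ V a) + rk M (insert (τ h b) T₁) := by
      refine rk_sub' (subset_inter subset_union_left hXX₂) ?_
      rintro x (hx | hx)
      · exact Or.inr hx
      · exact Or.inl (Or.inr hx)
    omega
  · intro a ha c hc
    exact M.closure_subset_closure (insert_subset_insert (union_subset_union_left _ hXX₂))
      (H.inn a (Finset.mem_of_mem_erase ha) c hc)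
  · intro a ha c hc
    exact M.closure_subset_closure (insert_subset_insert (union_subset_union_left _ hXX₂))
      (H.inn2 a (Finset.mem_of_mem_erase ha) c hc)
  · intro a ha c hc c' hc' hcc
    have ha' := Finset.mem_of_mem_erase ha
    have hah := Finset.ne_of_mem_erase ha
    have e1 := H.np a ha' c hc c' hc' hcc
    have e2 : insert (τ h b) T₁ ∪ y '' (W : Set ℕ) ∪
        (⋃ a' ∈ {a' | a' ∈ A.erase h ∧ a' ≠ a}, V a') ⊆
        M.closure (X ∪ y '' (W : Set ℕ) ∪ ⋃ a' ∈ {a' | a' ∈ A ∧ a' ≠ a}, V a') := by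
      have hVh : V h ⊆ ⋃ a' ∈ {a' | a' ∈ A ∧ a' ≠ a}, V a' := fun x hx =>
        mem_iUnion₂.2 ⟨h, ⟨hh, hah.symm⟩, hx⟩
      rintro x ((hx | hx) | hx)
      · exact M.closure_subset_closure (union_subset_union_right _ hVh) (hbig hx)
      · exact M.mem_closure_of_mem' (Or.inl (Or.inr hx)) (hyW subset_rfl hx)
      · rw [mem_iUnion₂] at hx
        obtain ⟨a', ⟨ha1, ha2⟩, hx⟩ := hx
        have ha1' := Finset.mem_of_mem_erase ha1
        exact M.mem_closure_of_mem' (Or.inr (mem_iUnion₂.2 ⟨a', ⟨ha1', ha2⟩, hx⟩))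
          (H.subV a' ha1' hx)
    have e3 := rk_incr (M := M) (T := {τ a c, τ a c'}) e2
    omega

/-- A chain of joins. -/
theorem chain [M.Finite] [DecidableEq ι] (H : HL M X V y τ A W Bc) {q : ℕ → ℕ} {m : ℕ}
    (hq : ∀ i ≤ m, q i ∈ Bc) (hqi : ∀ i ≤ m, ∀ j ≤ m, q i = q j → i = j)
    (𝓕 : Finset (Finset ℕ)) (h𝓕 : ∀ F ∈ 𝓕, F ⊆ Bc) : ∀ j ≤ m, j ≤ A.card →
    𝓕.card + j ≤ (W \ Bc).card →
    ∃ (X' : Set α) (A' : Finset ι) (Bc' : Finset ℕ) (c : ℕ), A'.card + j = A.card ∧
      Bc ⊆ Bc' ∧ Bc'.card = Bc.card + j ∧ HL M X' V y τ A' W Bc' ∧ X ⊆ X' ∧ c ∈ Bc' ∧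
      (j = 0 ∧ c = q 0 ∨ c ∉ Bc) ∧
      (∀ Z ⊆ Bc, rk M (X' ∪ y '' (Z : Set ℕ)) = rk M (X ∪ y '' (Z : Set ℕ)) + 3 * j) ∧
      y c ∈ M.closure (X' ∪ y '' (q '' {i | i ≤ j})) ∧
      ∀ F ∈ 𝓕, y c ∈ M.closure (X' ∪ y '' (F : Set ℕ)) →
        ∀ i ≤ j, y (q i) ∈ M.closure (X' ∪ y '' (F : Set ℕ)) := by
  classical
  intro j
  induction j with
  | zero =>
    intro _ _ _
    refine ⟨X, A, Bc, q 0, rfl, subset_rfl, rfl, H, subset_rfl, hq 0 (Nat.zero_le _),
      Or.inl ⟨rfl, rfl⟩, fun Z _ => by omega, ?_, ?_⟩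
    · exact M.mem_closure_of_mem' (Or.inr ⟨q 0, ⟨0, Nat.le_refl 0, rfl⟩, rfl⟩)
        (H.memy _ (H.core (hq 0 (Nat.zero_le _))))
    · intro F _ h i hi
      rw [Nat.le_zero.1 hi]
      exact h
  | succ j ih =>
    intro hjm hjA hc
    obtain ⟨X', A', Bc', c, i1, i2, i3, i4, i5, i6, i7, i8, i9, i10⟩ :=
      ih (by omega) (by omega) (by omega)
    obtain ⟨h, hh⟩ : A'.Nonempty := Finset.card_pos.1 (by omega)
    have hqj : q (j + 1) ∈ Bc := hq _ hjm
    have hne : c ≠ q (j + 1) := by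
      rcases i7 with ⟨_, h7⟩ | h7
      · intro h8
        have := hqi 0 (Nat.zero_le _) (j + 1) hjm (by rw [← h7, h8])
        omega
      · intro h8
        exact h7 (h8 ▸ hqj)
    set 𝓕' : Finset (Finset ℕ) := 𝓕.filter (fun F : Finset ℕ => y c ∉ M.closure (X' ∪ y '' (F : Set ℕ)) ∨
      y (q (j + 1)) ∉ M.closure (X' ∪ y '' (F : Set ℕ))) with h𝓕'
    have hcard : 𝓕'.card < (W \ Bc').card := by
      have e1 : 𝓕'.card ≤ 𝓕.card := Finset.card_filter_le _ _
      have e2 := Finset.card_sdiff_of_subset i4.core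
      have e3 := Finset.card_sdiff_of_subset H.core
      have e4 := Finset.card_le_card H.core
      have e5 := Finset.card_le_card i4.core
      omega
    obtain ⟨b, hb, X₂, h1, h2, h3, h4, h5⟩ := i4.join hh i6 (i2 hqj) hne 𝓕'
      (fun F hF => ⟨(h𝓕 F (Finset.mem_filter.1 hF).1).trans i2, (Finset.mem_filter.1 hF).2⟩) hcard
    obtain ⟨hbW, hbc⟩ := Finset.mem_sdiff.1 hb
    refine ⟨X₂, A'.erase h, insert b Bc', b, ?_, i2.trans (Finset.subset_insert _ _), ?_, h2,
      i5.trans h1, Finset.mem_insert_self _ _, Or.inr (fun h' => hbc (i2 h')), ?_, ?_, ?_⟩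
    · have := Finset.card_erase_of_mem hh
      have : 1 ≤ A'.card := Finset.card_pos.2 ⟨h, hh⟩
      omega
    · rw [Finset.card_insert_of_notMem hbc]
      omega
    · intro Z hZ
      rw [h4 Z (hZ.trans i2), i8 Z hZ]
      omega
    · have hE : X₂ ∪ y '' (q '' {i | i ≤ j + 1}) ⊆ M.E := by
        refine union_subset h2.subX ?_
        rintro _ ⟨_, ⟨i, hi, rfl⟩, rfl⟩
        exact H.memy _ (H.core (hq i (le_trans hi hjm)))
      refine M.closure_subset_closure_of_subset_closure ?_ h3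
      rintro x (hx | rfl | rfl)
      · exact M.mem_closure_of_mem' (Or.inl hx) (h2.subX hx)
      · refine M.closure_subset_closure (union_subset_union h1 (image_mono (image_mono ?_))) i9
        intro i hi
        exact le_trans hi (Nat.le_succ j)
      · exact M.mem_closure_of_mem' (Or.inr ⟨_, ⟨j + 1, Nat.le_refl (j + 1), rfl⟩, rfl⟩)
          (H.memy _ (H.core hqj))
    · intro F hF hbF i hi
      have hF' : F ∉ 𝓕' := fun h' => h5 F h' hbF
      have hF2 : ¬ (y c ∉ M.closure (X' ∪ y '' (F : Set ℕ)) ∨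
          y (q (j + 1)) ∉ M.closure (X' ∪ y '' (F : Set ℕ))) := fun h' =>
        hF' (Finset.mem_filter.2 ⟨hF, h'⟩)
      push Not at hF2
      have hm : M.closure (X' ∪ y '' (F : Set ℕ)) ⊆ M.closure (X₂ ∪ y '' (F : Set ℕ)) :=
        M.closure_subset_closure (union_subset_union_left _ h1)
      rcases Nat.lt_or_ge j i with hij | hij
      · have : i = j + 1 := by omega
        rw [this]
        exact hm hF2.2
      · exact hm (i10 F hF hF2.1 i hij)

/-- More core windows. -/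
lemma recore [M.Finite] (H : HL M X V y τ A W Bc) {Bc' : Finset ℕ} (h1 : Bc ⊆ Bc')
    (h2 : Bc' ⊆ W) : HL M X V y τ A W Bc' := by
  classical
  refine ⟨H.subX, H.subV, H.memy, h2, ?_, H.two, H.inn, H.inn2, H.np⟩
  have e1 := H.full
  have e2 := rk_add_le (M := M) (X ∪ y '' (Bc : Set ℕ)) y (Bc' \ Bc)
  have e3 : X ∪ y '' (Bc : Set ℕ) ∪ y '' ((Bc' \ Bc : Finset ℕ) : Set ℕ) =
      X ∪ y '' (Bc' : Set ℕ) := by
    rw [union_assoc, ← image_union, ← Finset.coe_union, Finset.union_sdiff_of_subset h1]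
  rw [e3] at e2
  have e4 := Finset.card_sdiff_of_subset h1
  have e5 := Finset.card_sdiff_of_subset h2
  have e6 := Finset.card_sdiff_of_subset H.core
  have e7 := Finset.card_le_card h1
  have e8 := Finset.card_le_card h2
  omega

/-- The rounds: more and more points in general position in rank `k`. -/
theorem rounds [M.Finite] [DecidableEq ι] {k : ℕ} (hk : 2 ≤ k) (H : HL M X V y τ A W Bc)
    {q : ℕ → ℕ} (hq : ∀ i < k, q i ∈ Bc) (hqi : ∀ i < k, ∀ j < k, q i = q j → i = j)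
    (hind : rk M (X ∪ y '' (((Finset.range k).image q : Finset ℕ) : Set ℕ)) = rk M X + k) :
    ∀ r ≤ k, r * (k - 1) ≤ A.card → 2 ^ (2 * k) + r * (k - 1) ≤ (W \ Bc).card →
    ∃ (X' : Set α) (A' : Finset ι) (Bc' T : Finset ℕ), A'.card + r * (k - 1) = A.card ∧
      Bc ⊆ Bc' ∧ Bc'.card = Bc.card + r * (k - 1) ∧ HL M X' V y τ A' W Bc' ∧ X ⊆ X' ∧
      T ⊆ Bc' ∧ (Finset.range k).image q ⊆ T ∧ T.card = k + r ∧
      (∀ F ⊆ T, F.card ≤ k → rk M (X' ∪ y '' (F : Set ℕ)) = rk M X' + F.card) ∧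
      rk M (X' ∪ y '' (T : Set ℕ)) ≤ rk M X' + k := by
  classical
  set Q₀ := (Finset.range k).image q with hQ₀
  have hQ₀c : Q₀.card = k := by
    rw [hQ₀, Finset.card_image_of_injOn, Finset.card_range]
    intro i hi j hj h
    exact hqi i (Finset.mem_range.1 hi) j (Finset.mem_range.1 hj) h
  have hQ₀B : Q₀ ⊆ Bc := by
    intro x hx
    obtain ⟨i, hi, rfl⟩ := Finset.mem_image.1 hx
    exact hq i (Finset.mem_range.1 hi)
  intro r
  induction r with
  | zero =>
    intro _ _ _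
    refine ⟨X, A, Bc, Q₀, by simp, subset_rfl, by simp, H, subset_rfl, hQ₀B, subset_rfl,
      by simp [hQ₀c], ?_, by rw [hind]⟩
    intro F hF _
    exact rk_sub_eq (by rw [hind, hQ₀c]) hF
  | succ r ih =>
    intro hr hA hW
    rw [Nat.succ_mul r (k - 1)] at hA hW
    obtain ⟨X', A', Bc', T, i1, i2, i3, i4, i5, i6, i7, i8, i9, i10⟩ :=
      ih (by omega) (by omega) (by omega)
    set 𝓕 := T.powerset.filter (fun F => F.card ≤ k - 1) with h𝓕
    have h𝓕c : 𝓕.card ≤ 2 ^ (2 * k) := by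
      refine (Finset.card_filter_le _ _).trans ?_
      rw [Finset.card_powerset]
      exact Nat.pow_le_pow_right (by norm_num) (by omega)
    have e2 := Finset.card_sdiff_of_subset i4.core
    have e3 := Finset.card_sdiff_of_subset H.core
    have e4 := Finset.card_le_card H.core
    have e5 := Finset.card_le_card i4.core
    obtain ⟨X₂, A₂, B₂, c, j1, j2, j3, j4, j5, j6, j7, j8, j9, j10⟩ := i4.chain (q := q)
      (m := k - 1) (fun i hi => i2 (hq i (by omega)))
      (fun i hi j hj h => hqi i (by omega) j (by omega) h) 𝓕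
      (fun F hF => (Finset.mem_powerset.1 (Finset.mem_filter.1 hF).1).trans i6) (k - 1) le_rfl
      (by omega) (by omega)
    have hcT : c ∉ T := by
      rcases j7 with ⟨h7, _⟩ | h7
      · omega
      · exact fun h => h7 (i6 h)
    have hX₂ : rk M X₂ = rk M X' + 3 * (k - 1) := by
      have := j8 ∅ (Finset.empty_subset _)
      simpa using this
    have hqset : y '' (q '' {i | i ≤ k - 1}) ⊆ y '' (Q₀ : Set ℕ) := by
      refine image_mono ?_
      rintro _ ⟨i, hi, rfl⟩
      exact Finset.mem_coe.2 (Finset.mem_image.2 ⟨i, Finset.mem_range.2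
        (by have : i ≤ k - 1 := hi; omega), rfl⟩)
    have hrQ : rk M (X₂ ∪ y '' (Q₀ : Set ℕ)) = rk M X₂ + k := by
      rw [j8 Q₀ (i7.trans i6), i9 Q₀ i7 (by omega), hX₂, hQ₀c]
      omega
    have hsubE : ∀ {F : Finset ℕ}, F ⊆ T → X₂ ∪ y '' (F : Set ℕ) ⊆ M.E := by
      intro F hF
      refine union_subset j4.subX ?_
      rintro _ ⟨i, hi, rfl⟩
      exact i4.memy i (i4.core (i6 (hF hi)))
    refine ⟨X₂, A₂, B₂, insert c T, ?_, i2.trans j2, ?_, j4, i5.trans j5, ?_, ?_, ?_, ?_, ?_⟩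
    · rw [Nat.succ_mul r (k - 1)]; omega
    · rw [Nat.succ_mul r (k - 1)]; omega
    · exact Finset.insert_subset j6 (i6.trans j2)
    · exact i7.trans (Finset.subset_insert _ _)
    · rw [Finset.card_insert_of_notMem hcT]
      omega
    · intro F hF hFk
      by_cases hcF : c ∈ F
      · set F' := F.erase c with hF'
        have hF'T : F' ⊆ T := by
          intro x hx
          rcases Finset.mem_insert.1 (hF (Finset.mem_of_mem_erase hx)) with h | h
          · exact absurd h (Finset.ne_of_mem_erase hx)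
          · exact h
        have hF'c : F'.card + 1 = F.card := by
          have e6 := Finset.card_erase_of_mem hcF
          rw [← hF'] at e6
          have e7 : 1 ≤ F.card := Finset.card_pos.2 ⟨c, hcF⟩
          omega
        have hF'𝓕 : F' ∈ 𝓕 :=
          Finset.mem_filter.2 ⟨Finset.mem_powerset.2 hF'T, by omega⟩
        have e8 : rk M (X₂ ∪ y '' (F' : Set ℕ)) = rk M X₂ + F'.card := by
          rw [j8 F' (hF'T.trans i6), i9 F' hF'T (by omega), hX₂]
          omega
        have e9 : y c ∉ M.closure (X₂ ∪ y '' (F' : Set ℕ)) := by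
          intro hcon
          have e10 := j10 F' hF'𝓕 hcon
          have e11 : X₂ ∪ y '' (Q₀ : Set ℕ) ⊆ M.closure (X₂ ∪ y '' (F' : Set ℕ)) := by
            rintro x (hx | ⟨d, hd, rfl⟩)
            · exact M.mem_closure_of_mem' (Or.inl hx) (j4.subX hx)
            · obtain ⟨i, hi, rfl⟩ := Finset.mem_image.1 (Finset.mem_coe.1 hd)
              exact e10 i (by have := Finset.mem_range.1 hi; omega)
          have e12 := rk_le_cl (M := M) e11
          omega
        have e13 : X₂ ∪ y '' (F : Set ℕ) = insert (y c) (X₂ ∪ y '' (F' : Set ℕ)) := by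
          rw [← union_insert, ← image_insert_eq, ← Finset.coe_insert, hF', Finset.insert_erase hcF]
        have e14 : y c ∈ M.E := j4.memy c (j4.core j6)
        rw [e13, rk_ins_not e14 e9, e8]
        omega
      · have hFT : F ⊆ T := by
          intro x hx
          rcases Finset.mem_insert.1 (hF hx) with h | h
          · exact absurd (h ▸ hx) hcF
          · exact h
        rw [j8 F (hFT.trans i6), i9 F hFT hFk, hX₂]
        omega
    · have e6 : X₂ ∪ y '' ((insert c T : Finset ℕ) : Set ℕ) ⊆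
          M.closure (X₂ ∪ y '' (T : Set ℕ)) := by
        rw [Finset.coe_insert, image_insert_eq, union_insert]
        refine insert_subset ?_ (M.subset_closure _ (hsubE subset_rfl))
        refine M.closure_subset_closure (union_subset_union_right _ ?_) j9
        exact hqset.trans (image_mono (by exact_mod_cast i7))
      have e7 := rk_le_cl (M := M) e6
      rw [j8 T i6] at e7
      omega

/-- **Skew lines over a hub give `U_{k,2k}`.** -/
theorem lines [M.Finite] [DecidableEq ι] {k : ℕ} (hk : 2 ≤ k) (H : HL M X V y τ A W ∅)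
    (hA : k * (k - 1) ≤ A.card) (hW : 2 ^ (2 * k) + k * k ≤ W.card) :
    HasUniformMinor M k := by
  classical
  have hkk : k * k = k * (k - 1) + k := by
    obtain ⟨m, rfl⟩ : ∃ m, k = m + 1 := ⟨k - 1, by omega⟩
    simp only [Nat.add_sub_cancel]
    ring
  obtain ⟨Q₀, hQ₀, hQ₀c⟩ := Finset.exists_subset_card_eq
    (show k ≤ W.card from (Nat.le_mul_self k).trans ((Nat.le_add_left _ _).trans hW))
  have H' := H.recore (Finset.empty_subset Q₀) hQ₀
  obtain ⟨e⟩ : Nonempty (Finset.range k ≃ Q₀) := ⟨Finset.equivOfCardEq (by simp [hQ₀c])⟩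
  set q : ℕ → ℕ := fun i => if h : i ∈ Finset.range k then (e ⟨i, h⟩ : ℕ) else 0 with hq
  have hqQ : ∀ i < k, q i ∈ Q₀ := by
    intro i hi
    have hi' := Finset.mem_range.2 hi
    simp only [hq, dif_pos hi']
    exact (e ⟨i, hi'⟩).2
  have hqi : ∀ i < k, ∀ j < k, q i = q j → i = j := by
    intro i hi j hj h
    have hi' := Finset.mem_range.2 hi
    have hj' := Finset.mem_range.2 hj
    simp only [hq, dif_pos hi', dif_pos hj'] at h
    have := e.injective (Subtype.ext h)
    simpa using this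
  have himg : (Finset.range k).image q = Q₀ := by
    apply Finset.eq_of_subset_of_card_le
    · intro x hx
      obtain ⟨i, hi, rfl⟩ := Finset.mem_image.1 hx
      exact hqQ i (Finset.mem_range.1 hi)
    · rw [Finset.card_image_of_injOn, Finset.card_range, hQ₀c]
      intro i hi j hj h
      exact hqi i (Finset.mem_range.1 hi) j (Finset.mem_range.1 hj) h
  have hind : rk M (X ∪ y '' (((Finset.range k).image q : Finset ℕ) : Set ℕ)) = rk M X + k := by
    have e1 := H.eq (Finset.empty_subset A) (B' := Q₀) (by simpa using hQ₀)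
    rw [Finset.coe_empty, image_empty, union_empty] at e1
    rw [himg]
    simpa [hQ₀c] using e1
  have hcs := Finset.card_sdiff_of_subset hQ₀
  obtain ⟨X', A', Bc', T, i1, i2, i3, i4, i5, i6, i7, i8, i9, i10⟩ :=
    H'.rounds hk hqQ hqi hind k le_rfl hA (by omega)
  refine hum_gp (p := y) (T := T) (r := k) i4.subX (fun b hb => i4.memy b (i4.core (i6 hb))) hk
    le_rfl i8 i10 i9

end HL

end DA
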