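import Pool.Agent.DA.GamB74
import Pool.Agent.CW.AlphaH
import Pool.Agent.CW.A1
import Pool.Agent.EN.LinkF0

/-!
# The hub picture is linked to the dual grid of a tile (row B4 of cell G, problem MP_5165fa_co)

`Pic.kge`: rows = side of `M`, columns = side of `M✶` (one tile), hot blocks; the elements of the
labels are located at one row each outside of the light rows.
-/

open Set BIC BICS CWL
open scoped Matroid

namespace DA
namespace Gam

universe u v w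

variable {α ι : Type*} {M : Matroid α} {L₁ L₂ : Bool × ℕ × ℕ → List α}
  {f₁ f₂ : α → Sym2 ((ℕ × ℕ) ⊕ α)} {e₁ e₂ : Bool × ℕ × ℕ → α}

/-- the part of a row in `Λ` -/
def rowΛ (L₁ : Bool × ℕ × ℕ → List α) (Λ : Set α) (r : Bool × ℕ × ℕ) : Set α :=
  {x | x ∈ L₁ r} ∩ Λ

/-- A part of one row: cutting costs one. -/
lemma cut_row [M.Finite] {w κ : ℕ} (h₁ : GSide M (Seg w) L₁ f₁ e₁ κ) {r : Bool × ℕ × ℕ}
    (hr : r ∈ Seg w) {Z : Set α} (hZ : Z ⊆ {x | x ∈ L₁ r}) :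
    rk M (crr L₁ (Seg w) \ Z) + Z.ncard ≤ rk M (crr L₁ (Seg w)) + 1 := by
  have h2 : Z ⊆ crr L₁ (Seg w) := fun x hx => ⟨r, hr, hZ hx⟩
  have h3 := h₁.cut h2
  have h4 : {s | s ∈ Seg w ∧ ∃ x ∈ Z, x ∈ L₁ s} ⊆ {r} := by
    rintro s ⟨hs, x, hx, hxs⟩
    exact mem_singleton_iff.2 (h₁.uniq hs hr hxs (hZ hx))
  have h5 := Set.ncard_le_ncard h4 (Set.finite_singleton r)
  rw [Set.ncard_singleton] at h5
  omega

/-- **Linking of the hub picture.** -/
theorem Pic.kge [M.Finite] {w s κ ρh k K q₀ t n m : ℕ} {Λ : Set α} {z : ℕ → α}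
    {A Lab : Finset ι} {E D : ι → Set α} {C₀ X S' : Set α} {j : ℕ × ℕ → α}
    {ed : ℕ × ℕ → ℕ × ℕ → α} (h₁ : GSide M (Seg w) L₁ f₁ e₁ κ)
    (h₂ : GSide M✶ (Seg s) L₂ f₂ e₂ κ)
    (hhot : ∀ i j a b : ℕ, shS i j '' Seg ρh ⊆ Seg w → shS a b '' Seg ρh ⊆ Seg s →
      ∃ r ∈ shS i j '' Seg ρh, ∃ x ∈ L₁ r, x ∈ crr L₂ (shS a b '' Seg ρh))
    (hm : m = cW (K + 2 * QQ k + 1 + κ))
    (hw : 2 * (ρh + 1) * (m + 1) ≤ w) (hs : 2 * (ρh + 1) * (m + 1) ≤ s)
    (ht : K + QQ k + k + (2 * m + 1) * (q₀ + 1) ≤ t * t) (hk : 1 ≤ k)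
    (hP : Pic M (crr L₁ (Seg w)) Λ z n k t A Lab E D C₀ X S' j ed)
    (hΛ : Λ ⊆ crr L₁ (Seg w)) (hΛr : ∀ r ∈ Seg w, ∃ x ∈ L₁ r, x ∈ Λ)
    (hΛc : crr L₁ (Seg w) ∩ crr L₂ (Seg s) ⊆ Λ)
    (hz : ∃ r ∈ Seg w, ∀ i ≤ n, z i ∈ L₁ r)
    (hEcl : ∀ a ∈ A, E a ⊆ M.closure (crr L₁ (Seg w)))
    (hE1 : ∀ a ∈ A, Disjoint (E a) (crr L₁ (Seg w)))
    (hE2 : ∀ a ∈ A, Disjoint (E a) (crr L₂ (Seg s)))
    (LR : Set (Bool × ℕ × ℕ)) (hD : ∀ a ∈ Lab, Disjoint (D a) (crr L₁ LR))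
    (ρ : ι → Bool × ℕ × ℕ) (hρ : Set.InjOn ρ A)
    (hown : ∀ a ∈ A, ∀ r ∈ Seg w, r ∉ LR → ρ a ≠ r →
      E a ⊆ M.closure (crr L₁ (Seg w) \ rowΛ L₁ Λ r))
    (hown2 : ∀ a ∈ A, ∀ r ∈ Seg w, r ∉ LR → ρ a = r →
      rk M (E a ∪ (crr L₁ (Seg w) \ rowΛ L₁ Λ r)) ≤
        rk M (crr L₁ (Seg w) \ rowΛ L₁ Λ r) + q₀)
    {Q : Set α} (hQ : Q ⊆ e₂ '' Seg s) (hQc : 2 * m + 1 < Q.ncard) :
    KGe (M ／ (C₀ ∪ X)) S' Q K := by
  classical
  obtain ⟨S, hS⟩ : ∃ S, S = crr L₁ (Seg w) := ⟨_, rfl⟩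
  obtain ⟨R₂, hR₂⟩ : ∃ R₂, R₂ = crr L₂ (Seg s) := ⟨_, rfl⟩
  have hSE : S ⊆ M.E := by rw [hS]; exact h₁.sub_ground
  have hR₂E : R₂ ⊆ M.E := by
    have := h₂.sub_ground
    rwa [Matroid.dual_ground, ← hR₂] at this
  rw [← hS] at hP hΛ hΛc hEcl hE1 hown hown2
  rw [← hR₂] at hΛc hE2
  obtain ⟨C, hC⟩ : ∃ C, C = C₀ ∪ X := ⟨_, rfl⟩
  have hUE : ∀ {T : Set α}, T ⊆ (⋃ a ∈ A, E a) → T ⊆ M.closure S ∧ Disjoint T S ∧
      Disjoint T R₂ := by
    intro T hT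
    refine ⟨fun x hx => ?_, ?_, ?_⟩
    · obtain ⟨a, ha, h⟩ := mem_iUnion₂.1 (hT hx)
      exact hEcl a ha h
    · rw [Set.disjoint_left]
      intro x hx
      obtain ⟨a, ha, h⟩ := mem_iUnion₂.1 (hT hx)
      exact Set.disjoint_left.1 (hE1 a ha) h
    · rw [Set.disjoint_left]
      intro x hx
      obtain ⟨a, ha, h⟩ := mem_iUnion₂.1 (hT hx)
      exact Set.disjoint_left.1 (hE2 a ha) h
  obtain ⟨hX1, hX2, hX3⟩ := hUE hP.X_sub
  obtain ⟨hS1, hS2, hS3⟩ := hUE hP.S_sub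
  have hC₀S : C₀ ⊆ S := hP.C₀_sub.trans sdiff_subset
  have hC₀Λ : Disjoint C₀ Λ := Set.disjoint_left.2 fun x hx => (hP.C₀_sub hx).2
  have hC₀E : C₀ ⊆ M.E := hC₀S.trans hSE
  have hXE : X ⊆ M.E := hX1.trans (M.closure_subset_ground _)
  have hS'E : S' ⊆ M.E := hS1.trans (M.closure_subset_ground _)
  have hCE : C ⊆ M.E := by rw [hC]; exact union_subset hC₀E hXE
  have hC₀R : Disjoint C₀ R₂ := by
    rw [Set.disjoint_left]
    intro x hx hx'
    exact (hP.C₀_sub hx).2 (hΛc ⟨hC₀S hx, hx'⟩)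
  have hCR : Disjoint C R₂ := by
    rw [hC, Set.disjoint_union_left]
    exact ⟨hC₀R, hX3⟩
  have hCΛ : Disjoint C Λ := by
    rw [hC, Set.disjoint_union_left]
    exact ⟨hC₀Λ, hX2.mono_right hΛ⟩
  have hfN : (M ／ C).Finite := BQ.fin_contract C
  have hfNd : (M ／ C)✶.Finite := inferInstance
  have hNE : (M ／ C).E = M.E \ C := Matroid.contract_ground _ _
  have hrc : ∀ Y ⊆ M.E \ C, rk (M ／ C) Y + rk M C = rk M (Y ∪ C) := fun Y hY =>
    BQ.rk_con hCE hY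
  have hS'C : S' ⊆ M.E \ C := by
    have := hP.grid.basis.subset_ground
    have h2 := hP.grid.basis
    intro x hx
    have h3 : x ∈ (M ／ (C₀ ∪ X)).E := hP.grid.basis.subset_ground hx
    rw [← hC, hNE] at h3
    exact h3
  have hΛC : Λ ⊆ M.E \ C := fun x hx => ⟨hSE (hΛ hx), fun h => Set.disjoint_left.1 hCΛ h hx⟩
  rw [← hC]
  intro W hSW hWQ
  by_contra hcon
  push Not at hcon
  have hWE : W ⊆ (M ／ C).E := hWQ.trans sdiff_subset
  have hWE' : W ⊆ M.E \ C := by rw [← hNE]; exact hWE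
  have hK1 : 1 ≤ K := by
    have h3 := rk_submod (M ／ C) W ((M ／ C).E \ W)
    rw [Set.union_sdiff_cancel hWE] at h3
    omega
  have hsep : rk (M ／ C) W + rk (M ／ C) ((M ／ C).E \ W) ≤ rk (M ／ C) (M ／ C).E + (K - 1) := by
    omega
  obtain ⟨A₀, hA₀⟩ : ∃ A₀, A₀ = W ∩ Λ := ⟨_, rfl⟩
  have hA₀Λ : A₀ ⊆ Λ := by rw [hA₀]; exact inter_subset_right
  -- the strand
  obtain ⟨Z', hZ'⟩ : ∃ Z', Z' = S \ (C₀ ∪ Λ) := ⟨_, rfl⟩
  obtain ⟨r₀, hr₀, hzr₀⟩ := hz
  have hZ'r : Z' ⊆ {x | x ∈ L₁ r₀} := by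
    rw [hZ']
    rintro x ⟨hx1, hx2⟩
    by_contra h
    refine hx2 (hP.C₀_sup ⟨hx1, ?_⟩)
    rintro ⟨i, hi, rfl⟩
    exact h (hzr₀ i (Nat.lt_succ_iff.1 (Finset.mem_range.1 (Finset.mem_coe.1 hi))))
  have hZ'S : Z' ⊆ S := by rw [hZ']; exact sdiff_subset
  have hZ'f : Z'.Finite := M.ground_finite.subset (hZ'S.trans hSE)
  have hcutZ := cut_row h₁ hr₀ hZ'r
  rw [← hS] at hcutZ
  have hSZ : S \ Z' = C₀ ∪ Λ := by
    ext x
    rw [hZ']
    simp only [mem_sdiff, mem_union]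
    constructor
    · rintro ⟨h3, h4⟩
      by_contra h5
      exact h4 ⟨h3, h5⟩
    · intro h3
      refine ⟨h3.elim (fun h => hC₀S h) (fun h => hΛ h), fun h4 => h4.2 h3⟩
  rw [hSZ] at hcutZ
  -- the rows
  have a1 := sep_restrict (M := M ／ C) (E := (M ／ C).E) (A := W) (T := Λ) hWE
    (by rw [hNE]; exact hΛC) hsep
  rw [← hA₀] at a1
  have a2 := hrc A₀ (hA₀Λ.trans hΛC)
  have a3 := hrc (Λ \ A₀) (sdiff_subset.trans hΛC)
  have a4 := hrc Λ hΛC
  have a5 := hP.skew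
  rw [← hC] at a5
  have hC₀C : C₀ ⊆ C := by rw [hC]; exact subset_union_left
  have a6 : ∀ Y ⊆ Λ, rk M (Y ∪ C₀) + rk M (Λ ∪ C) ≤ rk M (Y ∪ C) + rk M (Λ ∪ C₀) := by
    intro Y hY
    refine rk_sub' (subset_inter (union_subset_union_right _ hC₀C)
      (union_subset_union_left _ hY)) ?_
    rintro x (hx | hx)
    · exact Or.inr (Or.inl hx)
    · exact Or.inl (Or.inr hx)
  have a7 := a6 A₀ hA₀Λ
  have a8 := a6 (Λ \ A₀) sdiff_subset
  have a9 := a6 ∅ (empty_subset _)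
  rw [empty_union, empty_union] at a9
  -- separation in `M ／ C₀`
  have hfM₀ : (M ／ C₀).Finite := BQ.fin_contract C₀
  have hrc₀ : ∀ Y ⊆ M.E \ C₀, rk (M ／ C₀) Y + rk M C₀ = rk M (Y ∪ C₀) := fun Y hY =>
    BQ.rk_con hC₀E hY
  have hSC₀ : S \ C₀ ⊆ M.E \ C₀ := sdiff_subset_sdiff_left hSE
  have hA₀C₀ : A₀ ⊆ S \ C₀ := fun x hx => ⟨hΛ (hA₀Λ hx),
    fun h => Set.disjoint_left.1 hC₀Λ h (hA₀Λ hx)⟩
  have b1 := hrc₀ A₀ (hA₀C₀.trans hSC₀)
  have b2 := hrc₀ ((S \ C₀) \ A₀) (sdiff_subset.trans hSC₀)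
  have b3 := hrc₀ (S \ C₀) hSC₀
  have b4 : S \ C₀ ∪ C₀ = S := sdiff_union_of_subset hC₀S
  have b5 : rk M ((S \ C₀) \ A₀ ∪ C₀) ≤ rk M ((Λ \ A₀) ∪ C₀) + Z'.ncard := by
    refine (rk_mono M ?_).trans (rk_union_le M hZ'f)
    rintro x (⟨⟨hx1, hx2⟩, hx3⟩ | hx)
    · by_cases hxΛ : x ∈ Λ
      · exact Or.inl (Or.inl ⟨hxΛ, hx3⟩)
      · refine Or.inr ?_
        rw [hZ']
        exact ⟨hx1, fun h => h.elim hx2 hxΛ⟩
    · exact Or.inl (Or.inr hx)
  rw [b4] at b3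
  have hcomm : C₀ ∪ Λ = Λ ∪ C₀ := union_comm _ _
  rw [hcomm] at hcutZ
  have b6 : rk (M ／ C₀) A₀ + rk (M ／ C₀) ((S \ C₀) \ A₀) ≤
      rk (M ／ C₀) (S \ C₀) + (K + 2 * QQ k + 1) := by
    omega
  have b7 := h₁.isoF (F := C₀) (A := A₀) (q := K + 2 * QQ k + 1) (by rw [← hS]; exact hC₀S) (by
    intro r hr
    obtain ⟨x, hx, hxΛ⟩ := hΛr r hr
    exact ⟨x, hx, fun h => Set.disjoint_left.1 hC₀Λ h hxΛ⟩) (by rw [← hS]; exact hA₀C₀)
    (by rw [← hS]; exact b6)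
  rw [← hm] at b7
  rcases b7 with b7 | b7
  swap
  · -- hot blocks
    obtain ⟨a, ha, hfree⟩ := free_block (w := w) (ρ := ρh) (m := m) hw
      ((seg_finite w).subset fun r hr => hr.1) b7
    have g₂ : GSide (M ／ C)✶ (Seg s) L₂ f₂ e₂ κ := by
      rw [Matroid.dual_contract]
      exact h₂.delete (by rw [← hR₂]; exact hCR.symm)
    have hR₂N : R₂ ⊆ (M ／ C).E := by
      rw [hNE]
      exact fun x hx => ⟨hR₂E hx, fun h => Set.disjoint_left.1 hCR h hx⟩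
    have c1 := sep_dual hWE hsep
    have c2 : rk (M ／ C)✶ ((M ／ C).E \ W) + rk (M ／ C)✶ ((M ／ C).E \ ((M ／ C).E \ W)) ≤
        rk (M ／ C)✶ (M ／ C).E + (K + 2 * QQ k + 1) := by
      rw [sdiff_sdiff_cancel_left hWE]
      omega
    have c3 := sep_restrict (M := (M ／ C)✶) (E := (M ／ C).E) (A := (M ／ C).E \ W) (T := R₂)
      sdiff_subset hR₂N c2
    have c4 := g₂.iso (A := ((M ／ C).E \ W) ∩ R₂) (q := K + 2 * QQ k + 1)
      (by rw [← hR₂]; exact inter_subset_right) (by rw [← hR₂]; exact c3)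
    rw [← hm] at c4
    have c5 : {σ ∈ Seg s | ∃ x ∈ L₂ σ, x ∉ ((M ／ C).E \ W) ∩ R₂}.ncard ≤ m := by
      rcases c4 with c4 | c4
      · exfalso
        have h3 : Q ⊆ e₂ '' {σ ∈ Seg s | ∃ x ∈ L₂ σ, x ∈ ((M ／ C).E \ W) ∩ R₂} := by
          intro x hx
          obtain ⟨σ, hσ, rfl⟩ := hQ hx
          have h4 : e₂ σ ∈ R₂ := by
            rw [hR₂]
            exact ⟨σ, hσ, g₂.mem_last hσ⟩
          exact ⟨σ, ⟨hσ, e₂ σ, g₂.mem_last hσ, ⟨hR₂N h4, fun h5 => (hWQ h5).2 hx⟩, h4⟩, rfl⟩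
        have hf : {σ ∈ Seg s | ∃ x ∈ L₂ σ, x ∈ ((M ／ C).E \ W) ∩ R₂}.Finite :=
          (seg_finite s).subset fun σ hσ => hσ.1
        have h4 := (Set.ncard_le_ncard h3 (hf.image _)).trans (Set.ncard_image_le hf)
        omega
      · exact c4
    obtain ⟨b, hb, hfree'⟩ := free_block (w := s) (ρ := ρh) (m := m) hs
      ((seg_finite s).subset fun r hr => hr.1) c5
    obtain ⟨r, hr, x, hx, σ, hσ, hxσ⟩ := hhot a 0 b 0 ha hb
    have hxR₂ : x ∈ R₂ := by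
      rw [hR₂]
      exact ⟨σ, hb hσ, hxσ⟩
    have hxC₀ : x ∉ C₀ := fun h => Set.disjoint_left.1 hC₀R h hxR₂
    have hxA : x ∈ A₀ := by
      by_contra hcon
      exact hfree r hr ⟨ha hr, x, hx, hxC₀, hcon⟩
    rw [hA₀] at hxA
    exact hfree' σ hσ ⟨hb hσ, x, hxσ, fun h => h.1.2 hxA.1⟩
  · -- few rows
    obtain ⟨J, hJ⟩ : ∃ J, J = {x | x ∈ A₀ ∧ x ∉ crr L₁ LR} := ⟨_, rfl⟩
    obtain ⟨Θ, hΘ⟩ : ∃ Θ, Θ = A₀ ∩ crr L₁ LR := ⟨_, rfl⟩
    have hJA : J ⊆ A₀ := by rw [hJ]; exact fun x hx => hx.1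
    have hJΛ : J ⊆ Λ := hJA.trans hA₀Λ
    have hMf : {r ∈ Seg w | ∃ x ∈ L₁ r, x ∈ A₀}.Finite := (seg_finite w).subset fun r hr => hr.1
    obtain ⟨Rw, hRw⟩ : ∃ Rw, Rw = hMf.toFinset.filter (fun r => r ∉ LR) := ⟨_, rfl⟩
    have hRwm : ∀ r ∈ Rw, r ∈ Seg w ∧ r ∉ LR := by
      intro r hr
      rw [hRw] at hr
      obtain ⟨h3, h4⟩ := Finset.mem_filter.1 hr
      exact ⟨((Set.Finite.mem_toFinset _).1 h3).1, h4⟩
    have hRwc : Rw.card ≤ 2 * m + 1 := by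
      rw [hRw]
      refine (Finset.card_filter_le _ _).trans ?_
      rw [← Set.ncard_eq_toFinset_card _ hMf]
      exact b7
    obtain ⟨T, hT⟩ : ∃ T, T = X ∪ S' := ⟨_, rfl⟩
    have hTE : T ⊆ ⋃ a ∈ A, E a := by
      rw [hT]
      exact union_subset hP.X_sub hP.S_sub
    obtain ⟨hT1, hT2, -⟩ := hUE hTE
    -- the rank of `T` over the wall without `J`
    have hsum : rk M (T ∪ (S \ J)) ≤ rk M (S \ J) + Rw.card * (q₀ + 1) := by
      have hJU : J = ⋃ r ∈ Rw, {x | x ∈ L₁ r} ∩ J := by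
        ext x
        simp only [mem_iUnion, mem_inter_iff, exists_prop]
        constructor
        · intro hx
          have hxS := hΛ (hJΛ hx)
          rw [hS] at hxS
          obtain ⟨r, hr, hxr⟩ := hxS
          refine ⟨r, ?_, hxr, hx⟩
          rw [hRw, Finset.mem_filter, Set.Finite.mem_toFinset]
          refine ⟨⟨hr, x, hxr, hJA hx⟩, fun h => ?_⟩
          rw [hJ] at hx
          exact hx.2 ⟨r, h, hxr⟩
        · rintro ⟨r, _, _, h⟩
          exact h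
      have h3 := sum_strands (M := M) hSE (F := T) hT1 Rw (fun r => {x | x ∈ L₁ r} ∩ J)
        (fun r _ => inter_subset_right.trans (hJΛ.trans hΛ)) (by
          intro r hr r' hr' hne
          rw [Set.disjoint_left]
          rintro x ⟨hx, -⟩ ⟨hx', -⟩
          exact hne (h₁.uniq (hRwm r hr).1 (hRwm r' hr').1 hx hx')) (by
          intro r hr
          have := cut_row h₁ (hRwm r hr).1 (Z := {x | x ∈ L₁ r} ∩ J) inter_subset_left
          rw [← hS] at this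
          exact this) q₀ (by
          intro r hr
          obtain ⟨hrw, hrL⟩ := hRwm r hr
          obtain ⟨Sr, hSr⟩ : ∃ Sr, Sr = S \ rowΛ L₁ Λ r := ⟨_, rfl⟩
          have hSrE : Sr ⊆ M.E := by rw [hSr]; exact sdiff_subset.trans hSE
          have hsub : Sr ⊆ S \ ({x | x ∈ L₁ r} ∩ J) := by
            rw [hSr]
            rintro x ⟨hx1, hx2⟩
            exact ⟨hx1, fun h => hx2 ⟨h.1, hJΛ h.2⟩⟩
          have hSJE : S \ ({x | x ∈ L₁ r} ∩ J) ⊆ M.E := sdiff_subset.trans hSE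
          by_cases hex : ∃ a ∈ A, ρ a = r
          · obtain ⟨a₀, ha₀, hρa⟩ := hex
            have h4 : T ∪ (S \ ({x | x ∈ L₁ r} ∩ J)) ⊆
                M.closure (E a₀ ∪ (S \ ({x | x ∈ L₁ r} ∩ J))) := by
              have hE₀E : E a₀ ∪ (S \ ({x | x ∈ L₁ r} ∩ J)) ⊆ M.E :=
                union_subset ((hEcl a₀ ha₀).trans (M.closure_subset_ground _)) hSJE
              refine union_subset ?_ (subset_union_right.trans (M.subset_closure _ hE₀E))
              intro x hx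
              obtain ⟨a, ha, hxa⟩ := mem_iUnion₂.1 (hTE hx)
              by_cases haa : a = a₀
              · subst haa
                exact M.mem_closure_of_mem' (Or.inl hxa) (hE₀E (Or.inl hxa))
              · have h5 : ρ a ≠ r := fun h6 => haa (hρ ha ha₀ (h6.trans hρa.symm))
                have h6 := hown a ha r hrw hrL h5 hxa
                rw [← hSr] at h6
                exact M.closure_subset_closure (hsub.trans subset_union_right) h6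
            have h5 := rk_le_cl (M := M) h4
            have h6 := hown2 a₀ ha₀ r hrw hrL hρa
            rw [← hSr] at h6
            have h7 : rk M Sr + rk M (E a₀ ∪ (S \ ({x | x ∈ L₁ r} ∩ J))) ≤
                rk M (E a₀ ∪ Sr) + rk M (S \ ({x | x ∈ L₁ r} ∩ J)) := by
              refine rk_sub' (subset_inter subset_union_right hsub) ?_
              rintro x (hx | hx)
              · exact Or.inl (Or.inl hx)
              · exact Or.inr hx
            omega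
          · push Not at hex
            have h4 : T ∪ (S \ ({x | x ∈ L₁ r} ∩ J)) ⊆
                M.closure (S \ ({x | x ∈ L₁ r} ∩ J)) := by
              refine union_subset ?_ (M.subset_closure _ hSJE)
              intro x hx
              obtain ⟨a, ha, hxa⟩ := mem_iUnion₂.1 (hTE hx)
              have h6 := hown a ha r hrw hrL (hex a ha) hxa
              rw [← hSr] at h6
              exact M.closure_subset_closure hsub h6
            have h5 := rk_le_cl (M := M) h4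
            omega)
      rw [← hJU] at h3
      exact h3
    have hTE' : T ⊆ M.E := hT1.trans (M.closure_subset_ground _)
    -- the separation
    obtain ⟨Y, hY⟩ : ∃ Y, Y = Λ \ A₀ := ⟨_, rfl⟩
    have hYΛ : Y ⊆ Λ := by rw [hY]; exact sdiff_subset
    have hΘΛ : Θ ⊆ Λ := by rw [hΘ]; exact inter_subset_left.trans hA₀Λ
    have hΘW : Θ ⊆ W := by
      rw [hΘ, hA₀]
      exact inter_subset_left.trans inter_subset_left
    have hYW : Disjoint Y W := by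
      rw [hY, hA₀, Set.disjoint_left]
      rintro x ⟨hx1, hx2⟩ hx3
      exact hx2 ⟨hx3, hx1⟩
    have hTN : (S' ∪ Θ) ∪ Y ⊆ (M ／ C).E := by
      rw [hNE]
      exact union_subset (union_subset hS'C (hΘΛ.trans hΛC)) (hYΛ.trans hΛC)
    have d1 := sep_restrict (M := M ／ C) (E := (M ／ C).E) (A := W)
      (T := (S' ∪ Θ) ∪ Y) hWE hTN hsep
    have d2 : W ∩ ((S' ∪ Θ) ∪ Y) = S' ∪ Θ := by
      ext x
      constructor
      · rintro ⟨hx1, hx2 | hx2⟩
        · exact hx2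
        · exact absurd hx1 (Set.disjoint_left.1 hYW hx2)
      · intro hx
        exact ⟨hx.elim (fun h => hSW h) (fun h => hΘW h), Or.inl hx⟩
    have d3 : ((S' ∪ Θ) ∪ Y) \ (S' ∪ Θ) = Y := by
      ext x
      constructor
      · rintro ⟨hx1 | hx1, hx2⟩
        · exact absurd hx1 hx2
        · exact hx1
      · intro hx
        refine ⟨Or.inr hx, fun h => ?_⟩
        refine Set.disjoint_left.1 hYW hx ?_
        exact h.elim (fun h => hSW h) (fun h => hΘW h)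
    rw [d2, d3] at d1
    have d4 := hrc (S' ∪ Θ) (union_subset hS'C (hΘΛ.trans hΛC))
    have d5 := hrc Y (hYΛ.trans hΛC)
    have d6 := hrc ((S' ∪ Θ) ∪ Y) (union_subset (union_subset hS'C (hΘΛ.trans hΛC))
      (hYΛ.trans hΛC))
    -- joints
    obtain ⟨Ω, hΩ⟩ : ∃ Ω, Ω = Λ ∩ crr L₁ LR := ⟨_, rfl⟩
    have hΘΩ : Θ ⊆ Ω := by
      rw [hΘ, hΩ]
      exact inter_subset_inter_left _ hA₀Λ
    have d7 := hP.joints Ω (by rw [hΩ]; exact inter_subset_left) (fun a ha =>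
      (hD a ha).mono_right (by rw [hΩ]; exact inter_subset_right))
    rw [← hC] at d7
    have d8 : rk M (Θ ∪ C) + rk M (S' ∪ (Ω ∪ C)) ≤ rk M ((S' ∪ Θ) ∪ C) + rk M (Ω ∪ C) := by
      refine rk_sub' (subset_inter ?_ (union_subset_union_left _ hΘΩ)) ?_
      · exact union_subset_union_left _ subset_union_right
      · rintro x (hx | hx)
        · exact Or.inl (Or.inl (Or.inl hx))
        · exact Or.inr hx
    have d9 : rk M C + rk M ((Θ ∪ Y) ∪ C) ≤ rk M (Θ ∪ C) + rk M (Y ∪ C) := by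
      refine rk_sub' (subset_inter subset_union_right subset_union_right) ?_
      rintro x ((hx | hx) | hx)
      · exact Or.inl (Or.inl hx)
      · exact Or.inr (Or.inl hx)
      · exact Or.inl (Or.inr hx)
    have d10 : Θ ∪ Y = Λ \ J := by
      ext x
      rw [hΘ, hY, hJ]
      simp only [mem_union, mem_inter_iff, mem_sdiff, mem_ofPred_eq, not_and, not_not]
      constructor
      · rintro (⟨hx1, hx2⟩ | ⟨hx1, hx2⟩)
        · exact ⟨hA₀Λ hx1, fun _ => hx2⟩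
        · exact ⟨hx1, fun h => absurd h hx2⟩
      · rintro ⟨hx1, hx2⟩
        by_cases hx : x ∈ A₀
        · exact Or.inl ⟨hx, hx2 hx⟩
        · exact Or.inr ⟨hx1, hx⟩
    have d11 : (S' ∪ Θ) ∪ Y ∪ C = S' ∪ ((Λ \ J) ∪ C) := by
      rw [← d10, union_assoc S' Θ Y, union_assoc]
    rw [d11] at d6
    rw [d10] at d9
    -- the span
    have f1 := hP.span
    rw [← hC] at f1
    have f2 : rk M (C₀ ∪ (Λ \ J)) + rk M (Λ ∪ C) ≤ rk M ((Λ \ J) ∪ C) + rk M (Λ ∪ C₀) := by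
      refine rk_sub' (subset_inter ?_ ?_) ?_
      · exact union_subset (hC₀C.trans subset_union_right) subset_union_left
      · exact union_subset subset_union_right (sdiff_subset.trans subset_union_left)
      · rintro x (hx | hx)
        · exact Or.inr (Or.inl hx)
        · exact Or.inl (Or.inr hx)
    have f3 : rk M (S \ J) ≤ rk M (C₀ ∪ (Λ \ J)) + Z'.ncard := by
      refine (rk_mono M ?_).trans (rk_union_le M hZ'f)
      rintro x ⟨hx1, hx2⟩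
      by_cases hxC : x ∈ C₀
      · exact Or.inl (Or.inl hxC)
      · by_cases hxΛ : x ∈ Λ
        · exact Or.inl (Or.inr ⟨hxΛ, hx2⟩)
        · refine Or.inr ?_
          rw [hZ']
          exact ⟨hx1, fun h => h.elim hxC hxΛ⟩
    have f4 : rk M (S' ∪ ((Λ \ J) ∪ C)) + rk M (T ∪ S) ≤
        rk M (S' ∪ (Λ ∪ C)) + rk M (T ∪ (S \ J)) := by
      have hXT : X ⊆ T := by rw [hT]; exact subset_union_left
      have hS'T : S' ⊆ T := by rw [hT]; exact subset_union_right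
      refine rk_sub' (subset_inter ?_ ?_) ?_
      · exact union_subset_union_right _ (union_subset_union_left _ sdiff_subset)
      · rintro x (hx | hx | hx)
        · exact Or.inl (hS'T hx)
        · exact Or.inr ⟨hΛ hx.1, hx.2⟩
        · rw [hC] at hx
          rcases hx with hx | hx
          · exact Or.inr ⟨hC₀S hx, fun h => Set.disjoint_left.1 hC₀Λ hx (hJΛ h)⟩
          · exact Or.inl (hXT hx)
      · rintro x (hx | hx)
        · exact Or.inr (Or.inl hx)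
        · by_cases hxJ : x ∈ J
          · exact Or.inl (Or.inr (Or.inl (hJΛ hxJ)))
          · exact Or.inr (Or.inr ⟨hx, hxJ⟩)
    have f5 : rk M S ≤ rk M (T ∪ S) := rk_mono M subset_union_right
    have f6 : Rw.card * (q₀ + 1) ≤ (2 * m + 1) * (q₀ + 1) := Nat.mul_le_mul_right _ hRwc
    omega

end Gam
end DA
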