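import Pool.Agent.DA.LinkPart

/-!
# The coarse map of a family of linked gadgets
-/

open Set Relation BIC BICS
open scoped Matroid

namespace DA

open Gad

universe u

/-- A family of linked gadgets with blocks. -/
structure Lk {α : Type u} {ι : Type} (P : Matroid α) (S : Set α) (ends : α → Sym2 (ℕ × ℕ))
    (w n R D q M : ℕ) (miss : ι → Set (Sym2 (ℕ × ℕ))) (o : ι → ℕ × ℕ) (z : ι → α)
    (Λ : ι → Finset (ℕ × ℕ)) (lx ly bx by' : ℕ → ℕ) (T : Set ι) : Prop where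
  bic : Bic P S ends
  wall : WallE S ends w (⋃ t, miss t)
  free : ∀ e ∈ S, ∀ t, ends e ∉ miss t
  near : ∀ t, ∀ p q, s(p, q) ∈ miss t → sd p (o t) ≤ R ∧ sd q (o t) ≤ R
  zS : ∀ t, z t ∈ P.closure S ∧ z t ∉ S
  card : ∀ t, 3 ≤ (Λ t).card ∧ (Λ t).card ≤ 4
  loc : ∀ t v, DeepR (0, 0) (w + 1) (w + 1) D v → (v ∈ CWL.Loc P S ends (z t) ↔ v ∈ Λ t)
  hc : ∀ t, ∀ p, sd p (o t) ≤ R → (∃ q, wr w (miss t) p q) →
    ∃ x, RE R ≤ sd x p ∧ Cn (wr w (miss t)) univ p x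
  lc : ∀ t, ∀ C : Finset (ℕ × ℕ), C.card < (Λ t).card → ∃ l ∈ Λ t, l ∉ C ∧
    ∃ x, RE R ≤ sd x l ∧ Cn (wr w (miss t)) (C : Set (ℕ × ℕ))ᶜ l x
  sepR : ∀ t t', t ≠ t' → ∀ p ∈ insert (o t) (Λ t), ∀ p' ∈ insert (o t') (Λ t'),
    2 * (RE R + R) + 10 < sd p p'
  px : Part (w + 1) n lx bx
  py : Part (w + 1) n ly by'
  qx : ∀ i < n, lx i + q ≤ lx (i + 1) ∧ lx (i + 1) ≤ lx i + 3 * q
  qy : ∀ i < n, ly i + q ≤ ly (i + 1) ∧ ly (i + 1) ≤ ly i + 3 * q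
  dq : D ≤ q
  hM : 20 ≤ M
  hn : 6 ≤ n
  mg : ∀ t p, (p = o t ∨ (t ∈ T ∧ p ∈ Λ t)) → p.1 ≤ w ∧ p.2 ≤ w ∧
    M ≤ bx p.1 ∧ bx p.1 + M ≤ n ∧ M ≤ by' p.2 ∧ by' p.2 + M ≤ n ∧
    lx (bx p.1) + RE R + R + 5 ≤ p.1 ∧ p.1 + RE R + R + 5 ≤ lx (bx p.1 + 1) ∧
    ly (by' p.2) + RE R + R + 5 ≤ p.2 ∧ p.2 + RE R + R + 5 ≤ ly (by' p.2 + 1)
  sepB : ∀ t t', t ≠ t' → ∀ p ∈ insert (o t) (Λ t), ∀ p' ∈ insert (o t') (Λ t'),
    M < sd (bl bx by' p) (bl bx by' p')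
  clB : ∀ t ∈ T, ∀ p ∈ insert (o t) (Λ t), ∀ p' ∈ insert (o t) (Λ t),
    bl bx by' p = bl bx by' p' ∨ M < sd (bl bx by' p) (bl bx by' p')

namespace Lk

variable {α : Type u} {ι : Type} {P : Matroid α} {S : Set α} {ends : α → Sym2 (ℕ × ℕ)}
  {w n R D q M : ℕ} {miss : ι → Set (Sym2 (ℕ × ℕ))} {o : ι → ℕ × ℕ} {z : ι → α}
  {Λ : ι → Finset (ℕ × ℕ)} {lx ly bx by' : ℕ → ℕ} {T : Set ι}

lemma wadj_comm {p q : ℕ × ℕ} (h : wadj p q) : wadj q p := by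
  unfold wadj at h ⊢
  omega

lemma gadj (h : Lk P S ends w n R D q M miss o z Λ lx ly bx by' T) {p p' : ℕ × ℕ}
    (hp : GAdj S ends p p') : wadj p p' ∧ p ∈ rect 0 0 (w + 1) (w + 1) ∧
      p' ∈ rect 0 0 (w + 1) (w + 1) ∧ ∀ t, s(p, p') ∉ miss t := by
  obtain ⟨e, he, hee⟩ := hp
  obtain ⟨a, b, h1, h2, h3, h4⟩ := h.wall.mem e he
  have h5 : ∀ t, s(p, p') ∉ miss t := fun t => by
    rw [← hee]
    exact h.free e he t
  rw [hee, Sym2.eq_iff] at h1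
  rcases h1 with ⟨rfl, rfl⟩ | ⟨rfl, rfl⟩
  · exact ⟨h2, h3, h4, h5⟩
  · exact ⟨wadj_comm h2, h4, h3, h5⟩

lemma r_of_wr (h : Lk P S ends w n R D q M miss o z Λ lx ly bx by' T) {t : ι} {p p' p₀ : ℕ × ℕ}
    (h₀ : p₀ ∈ insert (o t) (Λ t)) (hp : sd p p₀ ≤ RE R + R) (hw : wr w (miss t) p p') :
    GAdj S ends p p' := by
  obtain ⟨h1, h2, h3, h4⟩ := hw
  obtain ⟨e, he, hee⟩ := h.wall.surj p p' h1 h2 h3 (by
    intro h5
    rw [mem_iUnion] at h5
    obtain ⟨t', ht'⟩ := h5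
    have h6 : t ≠ t' := fun h7 => h4 (by rw [h7]; exact ht')
    have h7 := (h.near t' _ _ ht').1
    have h8 := h.sepR t t' h6 p₀ h₀ (o t') (Finset.mem_insert_self _ _)
    have h9 : sd p₀ (o t') ≤ sd p₀ p + sd p (o t') := sd_tri
    rw [sd_comm] at hp
    omega)
  exact ⟨e, he, hee⟩

/-- a walk in the wall without `miss t` near a point of the gadget `t` -/
lemma walk (h : Lk P S ends w n R D q M miss o z Λ lx ly bx by' T) {t : ι} {p p₀ x : ℕ × ℕ}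
    (h₀ : p₀ ∈ insert (o t) (Λ t)) (hp : sd p p₀ ≤ R) {U : Set (ℕ × ℕ)}
    (hx : RE R ≤ sd x p) (hw : Cn (wr w (miss t)) U p x) :
    ∃ x', RE R ≤ sd x' p ∧ Cn (GAdj S ends) U p x' := by
  obtain ⟨x', h1, h2⟩ := Cn.trunc (fun a b h => h.1) hw hx
  refine ⟨x', h1, h2.monor ?_⟩
  rintro a b ⟨h3, h4, _⟩
  refine h.r_of_wr h₀ ?_ h3
  have h5 : sd a p₀ ≤ sd a p + sd p p₀ := sd_tri
  omega

/-- the coarse map without special blocks -/
lemma cg0 (h : Lk P S ends w n R D q M miss o z Λ lx ly bx by' T) :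
    CG S ends w n R (range o) lx ly bx by' ∅ ∅ (fun _ => 0) id where
  wad _ _ hp := (h.gadj hp).1
  inr _ _ hp := (h.gadj hp).2.1
  pres p p' h1 h2 h3 h4 := by
    obtain ⟨e, he, hee⟩ := h.wall.surj p p' h1 h2 h3 (by
      intro h5
      rw [mem_iUnion] at h5
      obtain ⟨t', ht'⟩ := h5
      exact h4 _ (mem_range_self t') (h.near t' _ _ ht'))
    exact ⟨e, he, hee⟩
  ed e he := by
    obtain ⟨a, b, h1, _⟩ := h.wall.mem e he
    exact ⟨a, b, h1⟩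
  px := h.px
  py := h.py
  hn := h.hn
  oin := by
    rintro _ ⟨t, rfl⟩
    have h1 := h.mg t (o t) (Or.inl rfl)
    have h2 := h.hM
    omega
  ou := by
    rintro _ ⟨t, rfl⟩ _ ⟨t', rfl⟩ h1
    by_contra h2
    have h3 : t ≠ t' := fun h4 => h2 (by rw [h4])
    have h4 := h.sepB t t' h3 _ (Finset.mem_insert_self _ _) _ (Finset.mem_insert_self _ _)
    rw [h1, sd_self] at h4
    omega
  hc := by
    rintro _ ⟨t, rfl⟩ p h1 ⟨p', h2⟩
    have h3 := h.gadj h2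
    obtain ⟨x, h4, h5⟩ := h.hc t p h1 ⟨p', h3.1, h3.2.1, h3.2.2.1, h3.2.2.2 t⟩
    exact h.walk (Finset.mem_insert_self _ _) h1 h4 h5
  kd v hv := absurd hv (Finset.notMem_empty _)
  kk v hv := absurd hv (Finset.notMem_empty _)
  kr v hv := absurd hv (Finset.notMem_empty _)
  rd v hv := absurd hv (Finset.notMem_empty _)
  rr v hv := absurd hv (Finset.notMem_empty _)
  ks v hv := absurd hv (Finset.notMem_empty _)
  ro v hv := absurd hv (Finset.notMem_empty _)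
  ry v hv := absurd hv (Finset.notMem_empty _)

end Lk

/-- A block without hole: all edges at it are present. -/
lemma CG.free_pres {α : Type*} {S : Set α} {ends : α → Sym2 (ℕ × ℕ)} {w n R : ℕ}
    {O : Set (ℕ × ℕ)} {lx ly bx by' : ℕ → ℕ} {K Ry : Finset (ℕ × ℕ)} {s : ℕ × ℕ → ℕ}
    {y₂ : ℕ × ℕ → ℕ × ℕ} (h : CG S ends w n R O lx ly bx by' K Ry s y₂) {c : ℕ × ℕ}
    (hc : 1 ≤ c.1 ∧ c.1 + 1 < n ∧ 1 ≤ c.2 ∧ c.2 + 1 < n) (hO : ∀ o ∈ O, bl bx by' o ≠ c)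
    {p p' : ℕ × ℕ} (hw : wadj p p')
    (hp : lx c.1 ≤ p.1 + 1 ∧ p.1 ≤ lx (c.1 + 1) ∧ ly c.2 ≤ p.2 + 1 ∧ p.2 ≤ ly (c.2 + 1))
    (hp' : lx c.1 ≤ p'.1 + 1 ∧ p'.1 ≤ lx (c.1 + 1) ∧ ly c.2 ≤ p'.2 + 1 ∧
      p'.2 ≤ ly (c.2 + 1)) : GAdj S ends p p' := by
  have hx1 := h.px.mono (i := 0) (j := c.1) (by omega) (by omega)
  have hx2 := h.px.mono (i := c.1 + 1) (j := n) (by omega) le_rfl
  have hy1 := h.py.mono (i := 0) (j := c.2) (by omega) (by omega)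
  have hy2 := h.py.mono (i := c.2 + 1) (j := n) (by omega) le_rfl
  rw [h.px.last] at hx2
  rw [h.py.last] at hy2
  refine h.pres' hw (by omega) (by omega) ?_
  rintro o' ho' ⟨g1, g2⟩
  have g3 := h.near_bl ho' g1
  apply hO o' ho'
  have h5 := h.oin o' ho'
  have e1 : bx o'.1 = c.1 := by
    rcases Nat.lt_trichotomy (bx o'.1) c.1 with h6 | h6 | h6
    · have := h.px.mono (i := bx o'.1 + 1) (j := c.1) (by omega) (by omega)
      omega
    · exact h6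
    · have := h.px.mono (i := c.1 + 1) (j := bx o'.1) (by omega) (by omega)
      omega
  have e2 : by' o'.2 = c.2 := by
    rcases Nat.lt_trichotomy (by' o'.2) c.2 with h6 | h6 | h6
    · have := h.py.mono (i := by' o'.2 + 1) (j := c.2) (by omega) (by omega)
      omega
    · exact h6
    · have := h.py.mono (i := c.2 + 1) (j := by' o'.2) (by omega) (by omega)
      omega
  exact Prod.ext e1 e2

namespace Lk

variable {α : Type u} {ι : Type} {P : Matroid α} {S : Set α} {ends : α → Sym2 (ℕ × ℕ)}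
  {w n R D q M : ℕ} {miss : ι → Set (Sym2 (ℕ × ℕ))} {o : ι → ℕ × ℕ} {z : ι → α}
  {Λ : ι → Finset (ℕ × ℕ)} {lx ly bx by' : ℕ → ℕ} {T : Set ι}

/-- the locations in a block -/
def cnt (Λ : ι → Finset (ℕ × ℕ)) (bx by' : ℕ → ℕ) (t : ι) (c : ℕ × ℕ) : Finset (ℕ × ℕ) :=
  (Λ t).filter (fun l => bl bx by' l = c)

lemma mem_cnt {t : ι} {c l : ℕ × ℕ} : l ∈ cnt Λ bx by' t c ↔ l ∈ Λ t ∧ bl bx by' l = c := by
  unfold cnt
  rw [Finset.mem_filter]

/-- **The partition of a block with locations.** -/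
lemma blk_split (h : Lk P S ends w n R D q M miss o z Λ lx ly bx by' T) {t : ι} (ht : t ∈ T)
    {c : ℕ × ℕ} (hc : (cnt Λ bx by' t c).Nonempty) : ∃ s : ℕ × ℕ → ℕ,
      GoodS (GAdj S ends) (SdA (GAdj S ends) (lx c.1) (lx (c.1 + 1)) (ly c.2)
        (ly (c.2 + 1))) {v | v ∈ rc (lx c.1) (lx (c.1 + 1)) (ly c.2) (ly (c.2 + 1)) ∅ ∧
          ∃ u, GAdj S ends v u} s ∧ InjOn s (cnt Λ bx by' t c : Set (ℕ × ℕ)) ∧
      ∀ l ∈ cnt Λ bx by' t c, s l < (cnt Λ bx by' t c).card := by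
  classical
  obtain ⟨l₀, hl₀⟩ := hc
  have hl₀' := mem_cnt.1 hl₀
  have hcard : (cnt Λ bx by' t c).card ≤ 4 :=
    (Finset.card_filter_le _ _).trans (h.card t).2
  have hM := h.hM
  have hE : RE R = 8 * R + 40 := rfl
  -- margins
  have hmgl : ∀ l ∈ cnt Λ bx by' t c, lx c.1 + RE R + R + 5 ≤ l.1 ∧
      l.1 + RE R + R + 5 ≤ lx (c.1 + 1) ∧ ly c.2 + RE R + R + 5 ≤ l.2 ∧
      l.2 + RE R + R + 5 ≤ ly (c.2 + 1) := by
    intro l hl
    obtain ⟨h1, h2⟩ := mem_cnt.1 hl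
    have h3 := h.mg t l (Or.inr ⟨ht, h1⟩)
    rw [← h2]
    unfold bl
    simp only
    omega
  have hc1 : 1 ≤ c.1 ∧ c.1 + 1 < n ∧ 1 ≤ c.2 ∧ c.2 + 1 < n := by
    have h3 := h.mg t l₀ (Or.inr ⟨ht, hl₀'.1⟩)
    rw [← hl₀'.2]
    unfold bl
    simp only
    omega
  -- the walks
  have hLC : ∀ C : Finset (ℕ × ℕ), C.card < (cnt Λ bx by' t c).card →
      ∃ l ∈ cnt Λ bx by' t c, l ∉ C ∧ ∃ x, RE R ≤ sd x l ∧
        Cn (GAdj S ends) (C : Set (ℕ × ℕ))ᶜ l x := by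
    intro C hC
    have h1 : (C ∪ (Λ t).filter (fun l => ¬ bl bx by' l = c)).card < (Λ t).card := by
      have h2 := Finset.card_union_le C ((Λ t).filter (fun l => ¬ bl bx by' l = c))
      have h3 := Finset.card_filter_add_card_filter_not (s := Λ t) (fun l => bl bx by' l = c)
      have h4 : (cnt Λ bx by' t c).card = ((Λ t).filter (fun l => bl bx by' l = c)).card := rfl
      omega
    obtain ⟨l, hl, hlC, x, hx, hw⟩ := h.lc t _ h1
    rw [Finset.mem_union, not_or, Finset.mem_filter, not_and, not_not] at hlC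
    refine ⟨l, mem_cnt.2 ⟨hl, hlC.2 hl⟩, hlC.1, ?_⟩
    obtain ⟨x', h5, h6⟩ := h.walk (Finset.mem_insert_of_mem hl) (p := l)
      (by rw [sd_self]; omega) hx hw
    exact ⟨x', h5, h6.mono (compl_subset_compl.2 (by
      rw [Finset.coe_union]
      exact subset_union_left))⟩
  by_cases ho : bl bx by' (o t) = c
  · -- the block of the hole
    have hB := h.cg0.bx_of (mem_range_self t)
    have e1 : bx (o t).1 = c.1 := congrArg Prod.fst ho
    have e2 : by' (o t).2 = c.2 := congrArg Prod.snd ho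
    have hmo := h.mg t (o t) (Or.inl rfl)
    rw [e1, e2] at hB hmo
    exact hB.split hcard rfl (fun l hl => by
      have := hmgl l hl
      omega) (by omega) (h.cg0.hc _ (mem_range_self t)) hLC
  · -- no hole
    have hO : ∀ o' ∈ range o, bl bx by' o' ≠ c := by
      rintro _ ⟨t', rfl⟩ h1
      by_cases h2 : t' = t
      · rw [h2] at h1
        exact ho h1
      · have h3 := h.sepB t' t h2 _ (Finset.mem_insert_self _ _) l₀
          (Finset.mem_insert_of_mem hl₀'.1)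
        rw [h1, hl₀'.2, sd_self] at h3
        omega
    have hfree := fun p p' => h.cg0.free_pres hc1 hO (p := p) (p' := p')
    have hm0 := hmgl l₀ hl₀
    have hx1 := h.px.mono (i := 0) (j := c.1) (by omega) (by omega)
    have hy1 := h.py.mono (i := 0) (j := c.2) (by omega) (by omega)
    have hB : Bx (GAdj S ends) (lx c.1) (lx (c.1 + 1)) (ly c.2) (ly (c.2 + 1)) l₀ R :=
      ⟨CG.sym, h.cg0.wad, fun p p' g1 g2 g3 _ => hfree p p' g1 g2 g3, by omega, by omega⟩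
    refine hB.split hcard rfl (fun l hl => by
      have := hmgl l hl
      omega) (by omega) ?_ hLC
    intro p hp _
    rw [sd_le] at hp
    refine ⟨(p.1 + RE R, p.2), ?_, ?_⟩
    · unfold sd
      simp only
      omega
    · have hgo : ∀ d, d ≤ RE R → Cn (GAdj S ends) univ p (p.1 + d, p.2) := by
        intro d
        induction d with
        | zero => exact fun _ => Cn.refl
        | succ d ih =>
          intro hd
          refine (ih (by omega)).trans (Cn.step ?_ (mem_univ _) (mem_univ _))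
          exact hfree _ _ wadj_r (by simp only; omega) (by simp only; omega)
      exact hgo _ le_rfl

end Lk

end DA
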