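import Pool.Agent.DA.RWx

/-!
# Linked gadgets over exact walls with rows: families with free representatives
-/

open Set BIC BICS
open scoped Matroid

namespace DA

open Gad

universe u

section

variable {α : Type*} {P : Matroid α} {S : Set α} {row : α → Sym2 (ℕ × ℕ)} {w : ℕ}

/-- rows at different boxes are different -/
lemma rs_disj (h : RWal P S row w) {Q₁ Q₂ : Set ((ℕ × ℕ) × ℕ)} (hQ : HQ w (Q₁ ∪ Q₂))
    (hd : Disjoint Q₁ Q₂) : Disjoint (RS S row (BX Q₁)) (RS S row (BX Q₂)) := by
  rw [Set.disjoint_left]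
  rintro e ⟨he, v, ⟨q, hq, hvq⟩, hve⟩ ⟨_, u, ⟨q', hq', huq⟩, hue⟩
  have hne : q ≠ q' := fun h3 => Set.disjoint_left.1 hd hq (h3 ▸ hq')
  have h4 := hQ.far q (Or.inl hq) q' (Or.inr hq') hne
  have huv : sd v u ≤ 1 := by
    obtain ⟨p, q, h3, h4, _⟩ := h.mem e he
    rw [h3, Sym2.mem_iff] at hve hue
    unfold wadj at h4
    rw [sd_le]
    rcases hve with rfl | rfl <;> rcases hue with rfl | rfl <;> omega
  have h5 : sd q.1 q'.1 ≤ q.2 + q'.2 + 2 := by
    rw [sd_le] at hvq huq huv ⊢
    omega
  omega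

/-- **Drop.** Rows at boxes which are invisible for `z` and `T` are not needed. -/
theorem RWx.drop_bx [P.Finite] (h : RWx P S row w) (hw : 4 ≤ w) {Q₁ Q₂ : Set ((ℕ × ℕ) × ℕ)}
    (hQ : HQ w (Q₁ ∪ Q₂)) (hd : Disjoint Q₁ Q₂) {D' T : Set α}
    (hD : D' ⊆ RS S row (BX Q₂)) {z : α}
    (hT : ∀ x ∈ insert z T, x ∈ P.closure S ∧ ∀ c, c ⊆ S → WallE c row w ∅ →
      ∀ v ∈ BX Q₁, v ∉ LocR P S row c x)
    (hz : z ∈ P.closure (T ∪ (S \ D'))) :
    z ∈ P.closure (T ∪ ((S \ D') \ RS S row (BX Q₁))) := by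
  have hcl : ∀ x ∈ insert z T, x ∈ P.closure (S \ RS S row (BX Q₁)) := fun x hx =>
    h.toRWal.noloc_bx hw (hQ.mono subset_union_left) (hT x hx).1 (hT x hx).2
  have h1 := h.dec_bx hw hQ hd hD
  have hdis := rs_disj h.toRWal hQ hd
  have e1 : (S \ D') ∪ (S \ RS S row (BX Q₁)) = S := by
    ext e
    constructor
    · rintro (he | he) <;> exact he.1
    · intro he
      by_cases h2 : e ∈ D'
      · exact Or.inr ⟨he, fun h3 => Set.disjoint_left.1 hdis h3 (hD h2)⟩
      · exact Or.inl ⟨he, h2⟩
  have e2 : (S \ D') ∩ (S \ RS S row (BX Q₁)) = (S \ D') \ RS S row (BX Q₁) := by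
    ext e
    constructor
    · rintro ⟨h2, h3⟩
      exact ⟨h2, h3.2⟩
    · rintro ⟨h2, h3⟩
      exact ⟨h2, h2.1, h3⟩
  have h3 := mod_drop (P := P) (A' := S \ D') (G := S \ RS S row (BX Q₁)) (T := T) (z := z)
    (sdiff_subset.trans h.sub) (by rw [e1, e2]; exact h1)
    (fun x hx => hcl x (Or.inr hx)) (hcl z (Or.inl rfl)) hz
  rwa [e2] at h3

/-- the exact wall without some rows -/
theorem RWx.bic' [P.Finite] (h : RWx P S row w) {c : Set α} (hc : c ⊆ S) (hW : WallE c row w ∅)
    (ω : Set (Sym2 (ℕ × ℕ))) :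
    Bic (P ／ ((S \ {e | row e ∈ ω}) \ c)) {e | e ∈ c ∧ row e ∉ ω} row := by
  obtain ⟨Y, hY⟩ : ∃ Y, Y = (S \ {e | row e ∈ ω}) \ c := ⟨_, rfl⟩
  rw [← hY]
  have hYS : Y ⊆ S \ c := by
    rw [hY]
    exact fun e he => ⟨he.1.1, he.2⟩
  have hYE : Y ⊆ P.E := hYS.trans (sdiff_subset.trans h.sub)
  have : (P ／ (S \ c)).Finite := BQ.fin_contract _
  have : (P ／ Y).Finite := BQ.fin_contract _
  have hB := h.bic c hc hW
  have hrk : ∀ X ⊆ {e | e ∈ c ∧ row e ∉ ω}, rk (P ／ Y) X = rk (P ／ (S \ c)) X := by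
    intro X hX
    have hXc : X ⊆ c := fun e he => (hX he).1
    have h1 := h.rk_gen hc hW hYS hXc (by
      intro e he e' he' hee
      by_cases h2 : e' ∈ c
      · exact Or.inl (hW.inj (hXc he) h2 hee.symm ▸ he)
      · refine Or.inr ?_
        rw [hY]
        exact ⟨⟨he', fun h3 => (hX he).2 (by rw [← hee]; exact h3)⟩, h2⟩)
    have h2 := h.rk_gen hc hW hYS (empty_subset c) (by
      intro e he
      exact absurd he (notMem_empty _))
    have h3 := BQ.rk_con (M := P) hYE (X := X) (by
      intro e he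
      exact ⟨h.sub (hc (hXc he)), fun h4 => (hYS h4).2 (hXc he)⟩)
    have h4 : rk (P ／ (S \ c)) (∅ : Set α) = 0 := by
      have := rk_le_ncard (P ／ (S \ c)) (finite_empty (α := α))
      rw [ncard_empty] at this
      omega
    rw [union_empty] at h2
    rw [union_comm] at h3
    omega
  refine ⟨?_, ?_, ?_⟩
  · intro e he
    exact ⟨h.sub (hc he.1), fun h4 => (hYS h4).2 he.1⟩
  · intro F φ hF hφ hφe
    have h1 := hB.ind F φ (fun e he => (hF he).1) hφ hφe
    have h2 := hrk F hF
    have hFf : F.Finite := P.ground_finite.subset fun e he => h.sub (hc (hF he).1)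
    rw [rk_indep h1] at h2
    rw [Matroid.indep_iff_eRk_eq_encard_of_finite hFf, ← cast_rk, h2]
    exact hFf.cast_ncard_eq
  · intro W
    have h1 := hrk (ins {e | e ∈ c ∧ row e ∉ ω} row W) (fun e he => he.1)
    rw [← cast_rk, h1, cast_rk]
    refine ((P ／ (S \ c)).eRk_mono ?_).trans (hB.rk W)
    exact fun e he => ⟨he.1.1, he.2⟩

end

/-! ### Local configurations -/

/-- A local configuration: the rows of `ω` (within distance `R` of `o`) are removed, `Z` is
contracted, then `z` has exactly the locations `Λ` for the representatives `c`; `N` contains all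
deep locations of `z` and of the elements of `Z`, for all representatives. -/
structure LConf {α : Type*} (P : Matroid α) (S : Set α) (row : α → Sym2 (ℕ × ℕ)) (w R D β : ℕ)
    (o : ℕ × ℕ) (ω : Set (Sym2 (ℕ × ℕ))) (Z : Finset α) (z : α) (c : Set α)
    (N Λ : Finset (ℕ × ℕ)) : Prop where
  near : ∀ p q, s(p, q) ∈ ω → sd p o ≤ R ∧ sd q o ≤ R
  card : N.card ≤ β
  sub : Λ ⊆ N
  card3 : 3 ≤ Λ.card ∧ Λ.card ≤ 4
  rep : c ⊆ S ∧ WallE c row w ∅
  clz : z ∈ P.closure S ∧ (z ∈ S → row z ∈ ω)
  clZ : ∀ x ∈ Z, x ∈ P.closure S ∧ (x ∈ S → row x ∈ ω)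
  supp : ∀ x, (x = z ∨ x ∈ Z) → ∀ c', c' ⊆ S → WallE c' row w ∅ → ∀ v ∈ LocR P S row c' x,
    DeepR (0, 0) (w + 1) (w + 1) D v → v ∈ N
  skew : rk P ((S \ {e | row e ∈ ω}) ∪ (Z : Set α)) = rk P (S \ {e | row e ∈ ω}) + Z.card
  zcl : z ∈ P.closure ((Z : Set α) ∪ (S \ {e | row e ∈ ω}))
  loc : ∀ v, (v ∈ N ∨ sd v o ≤ R + 3) → DeepR (0, 0) (w + 1) (w + 1) D v →
    (v ∈ Λ ↔ z ∉ P.closure ((Z : Set α) ∪ ((S \ {e | row e ∈ ω}) \ {e | e ∈ c ∧ v ∈ row e})))
  hc : ∀ p, sd p o ≤ R → (∃ q, wr w ω p q) → ∃ x, RE R ≤ sd x p ∧ Cn (wr w ω) univ p x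
  lc : ∀ C : Finset (ℕ × ℕ), C.card < Λ.card → ∃ l ∈ Λ, l ∉ C ∧
    ∃ x, RE R ≤ sd x l ∧ Cn (wr w ω) (C : Set (ℕ × ℕ))ᶜ l x

lemma rk_skew_add {α : Type*} {P : Matroid α} [P.Finite] {X Y B : Set α} {n : ℕ} (hY : Y ⊆ P.E)
    (hX : X ⊆ P.closure Y) (h : rk P (Y ∪ B) = rk P Y + n) : rk P X + n ≤ rk P (X ∪ B) := by
  have h1 : rk P (Y ∪ X) = rk P Y := rk_sub_cl hY hX
  refine skew_mono (Y := Y ∪ X) ?_ subset_union_right
  rw [h1, ← h]
  exact rk_mono P (union_subset_union_left _ subset_union_left)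

/-- **Families of local configurations.** -/
theorem linkFamX {k R D : ℕ} (hL : LinkFam.{u} k R D) (hD : 4 ≤ D) : ∃ m δ : ℕ,
    ∀ {α : Type u} (P : Matroid α) [P.Finite] (S : Set α) (row : α → Sym2 (ℕ × ℕ)) (w β : ℕ)
      (o : Fin m → ℕ × ℕ) (ω : Fin m → Set (Sym2 (ℕ × ℕ))) (Z : Fin m → Finset α)
      (z : Fin m → α) (c : Fin m → Set α) (N Λ : Fin m → Finset (ℕ × ℕ)), RWx P S row w →
      (∀ t, LConf P S row w R D β (o t) (ω t) (Z t) (z t) (c t) (N t) (Λ t)) →
      (∀ t, ∀ p ∈ insert (o t) (N t), DeepR (0, 0) (w + 1) (w + 1) δ p) →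
      (∀ t t', t ≠ t' → ∀ p ∈ insert (o t) (N t), ∀ q ∈ insert (o t') (N t'), Apart δ p q) →
      HasUniformMinor P k := by
  classical
  obtain ⟨m, δ₀, hfam⟩ := hL
  obtain ⟨δ, hδ⟩ : ∃ δ, δ = δ₀ + D + 2 * R + 20 := ⟨_, rfl⟩
  refine ⟨m, δ, ?_⟩
  intro α P _ S row w β o ω Z z c N Λ hG hC hdp hfar
  -- distances
  have hfar' : ∀ t t', t ≠ t' → ∀ p ∈ insert (o t) (N t), ∀ q ∈ insert (o t') (N t'),
      δ ≤ sd p q := fun t t' htt p hp q hq => apart_iff.1 (hfar t t' htt p hp q hq)
  have hoo : ∀ t t', t ≠ t' → δ ≤ sd (o t) (o t') := fun t t' htt =>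
    hfar' t t' htt _ (Finset.mem_insert_self _ _) _ (Finset.mem_insert_self _ _)
  have hoN : ∀ t t', t ≠ t' → ∀ q ∈ N t', δ ≤ sd (o t) q := fun t t' htt q hq =>
    hfar' t t' htt _ (Finset.mem_insert_self _ _) _ (Finset.mem_insert_of_mem hq)
  have hNN : ∀ t t', t ≠ t' → ∀ p ∈ N t, ∀ q ∈ N t', δ ≤ sd p q := fun t t' htt p hp q hq =>
    hfar' t t' htt _ (Finset.mem_insert_of_mem hp) _ (Finset.mem_insert_of_mem hq)
  have hod : ∀ t, δ ≤ (o t).1 ∧ δ ≤ (o t).2 ∧ (o t).1 + δ ≤ w + 1 ∧ (o t).2 + δ ≤ w + 1 := by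
    intro t
    have := hdp t _ (Finset.mem_insert_self _ _)
    unfold DeepR at this
    omega
  have hNd : ∀ t, ∀ p ∈ N t, δ ≤ p.1 ∧ δ ≤ p.2 ∧ p.1 + δ ≤ w + 1 ∧ p.2 + δ ≤ w + 1 := by
    intro t p hp
    have := hdp t _ (Finset.mem_insert_of_mem hp)
    unfold DeepR at this
    omega
  have hball : ∀ t v, sd v (o t) ≤ R + 3 → DeepR (0, 0) (w + 1) (w + 1) D v := by
    intro t v hv
    have h1 := hod t
    rw [sd_le] at hv
    unfold DeepR
    dsimp only
    omega
  have hw4 : ∀ _t : Fin m, 4 ≤ w := by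
    intro t
    have := hod t
    omega
  -- invisible boxes
  have hinv : ∀ t (Q : Set ((ℕ × ℕ) × ℕ)), (∀ q ∈ Q, (∃ i, i ≠ t ∧ q.1 = o i ∧ q.2 ≤ R + 3) ∨
      (q.2 = 0 ∧ q.1 ∉ N t ∧ DeepR (0, 0) (w + 1) (w + 1) D q.1)) → ∀ x, (x = z t ∨ x ∈ Z t) →
      x ∈ P.closure S ∧ ∀ c', c' ⊆ S → WallE c' row w ∅ → ∀ v ∈ BX Q, v ∉ LocR P S row c' x := by
    intro t Q hQ x hx
    refine ⟨?_, ?_⟩
    · rcases hx with rfl | hx
      · exact (hC t).clz.1
      · exact ((hC t).clZ x hx).1
    · rintro c' hc' hW' v ⟨q, hq, hvq⟩ hv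
      rcases hQ q hq with ⟨i, hit, h1, h2⟩ | ⟨h1, h2, h3⟩
      · rw [h1] at hvq
        have h3 := (hC t).supp x hx c' hc' hW' v hv (hball i v (by omega))
        have h4 := hoN i t hit v h3
        have h5 : sd (o i) v ≤ q.2 := by
          rw [sd_le] at hvq ⊢
          omega
        omega
      · have h4 : v = q.1 := by
          rw [h1, sd_le] at hvq
          exact Prod.ext (by omega) (by omega)
        subst h4
        exact h2 ((hC t).supp x hx c' hc' hW' _ hv h3)
  -- the rows of a hole are at its box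
  have hrowbx : ∀ t (r : ℕ), R ≤ r → ∀ (Q : Set ((ℕ × ℕ) × ℕ)), (o t, r) ∈ Q → ∀ e ∈ S,
      row e ∈ ω t → e ∈ RS S row (BX Q) := by
    intro t r hr Q hQ e he heω
    obtain ⟨p, q, h3, _, _, _⟩ := hG.mem e he
    rw [h3] at heω
    have h4 := (hC t).near p q heω
    exact ⟨he, p, ⟨_, hQ, by dsimp only; omega⟩, by rw [h3]; exact Sym2.mem_mk_left _ _⟩
  -- the set of the remaining rows
  obtain ⟨Sr, hSr⟩ : ∃ Sr, Sr = S \ {e | row e ∈ ⋃ t, ω t} := ⟨_, rfl⟩
  obtain ⟨ZZ, hZZ⟩ : ∃ ZZ : Finset α, ZZ = Finset.univ.biUnion Z := ⟨_, rfl⟩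
  have hmemSr : ∀ e, e ∈ Sr ↔ e ∈ S ∧ ∀ t, row e ∉ ω t := by
    intro e
    rw [hSr]
    simp only [mem_sdiff, mem_iUnion, mem_ofPred_eq, not_exists]
  have hmemZZ : ∀ x, x ∈ ZZ ↔ ∃ t, x ∈ Z t := by
    intro x
    rw [hZZ]
    simp
  have hSrS : Sr ⊆ S := fun e he => ((hmemSr e).1 he).1
  have hSrE : Sr ⊆ P.E := hSrS.trans hG.sub
  have hZE : ∀ t, (Z t : Set α) ⊆ P.E := fun t x hx =>
    P.closure_subset_ground _ ((hC t).clZ x hx).1
  have hZZE : (ZZ : Set α) ⊆ P.E := fun x hx => by
    obtain ⟨t, ht⟩ := (hmemZZ x).1 hx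
    exact hZE t ht
  -- general representatives near the units
  have hrep : ∃ cc, (cc ⊆ S ∧ WallE cc row w ∅) ∧ ∀ t v, (v ∈ N t ∨ sd v (o t) ≤ R + 3) →
      {e | e ∈ cc ∧ v ∈ row e} = {e | e ∈ c t ∧ v ∈ row e} := by
    obtain ⟨A, hA⟩ : ∃ A : Fin m → Finset (ℕ × ℕ), ∀ t v, v ∈ A t ↔
        (v ∈ N t ∨ sd v (o t) ≤ R + 3) := by
      refine ⟨fun t => N t ∪ ((Finset.range ((o t).1 + R + 4) ×ˢ
        Finset.range ((o t).2 + R + 4)).filter fun v => sd v (o t) ≤ R + 3), fun t v => ?_⟩
      simp only [Finset.mem_union, Finset.mem_filter, Finset.mem_product, Finset.mem_range]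
      constructor
      · rintro (h1 | ⟨_, h1⟩)
        · exact Or.inl h1
        · exact Or.inr h1
      · rintro (h1 | h1)
        · exact Or.inl h1
        · have := h1
          rw [sd_le] at this
          exact Or.inr ⟨⟨by omega, by omega⟩, h1⟩
    obtain ⟨cc, h1, h2⟩ := combineW (S := S) (row := row) (w := w) (Finset.univ)
      (exists_repW hG.toRWal).choose_spec c (fun t _ => (hC t).rep) A (by
        intro i _ j _ hij v hv u hu
        rw [apart_iff]
        rw [hA] at hv hu
        by_contra hcon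
        push Not at hcon
        have hs : ∀ a b : ℕ × ℕ, sd a b = sd b a := by
          intro a b
          unfold sd
          omega
        have ht : ∀ a b c' : ℕ × ℕ, sd a c' ≤ sd a b + sd b c' := by
          intro a b c'
          have h1 := sd_le.1 (le_refl (sd a b))
          have h2 := sd_le.1 (le_refl (sd b c'))
          rw [sd_le]
          omega
        rcases hv with hv | hv <;> rcases hu with hu | hu
        · have := hNN i j hij v hv u hu
          omega
        · have h1 := hoN j i hij.symm v hv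
          have h2 := ht (o j) u v
          rw [hs (o j) u, hs u v] at h2
          omega
        · have h1 := hoN i j hij u hu
          have h2 := ht (o i) v u
          rw [hs (o i) v] at h2
          omega
        · have h1 := hoo i j hij
          have h2 := ht (o i) v (o j)
          have h3 := ht v u (o j)
          rw [hs (o i) v] at h2
          omega)
    exact ⟨cc, h1, fun t v hv => h2 t (Finset.mem_univ _) v ((hA t v).2 hv)⟩
  obtain ⟨cc, ⟨hcc, hccW⟩, hcct⟩ := hrep
  -- (N-ext) exact locations, one unit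
  have hloc1 : ∀ t v, DeepR (0, 0) (w + 1) (w + 1) D v → (v ∈ Λ t ↔
      z t ∉ P.closure ((Z t : Set α) ∪ ((S \ {e | row e ∈ ω t}) \ {e | e ∈ cc ∧ v ∈ row e}))) := by
    intro t v hvD
    by_cases h1 : v ∈ N t ∨ sd v (o t) ≤ R + 3
    · rw [hcct t v h1]
      exact (hC t).loc v h1 hvD
    push Not at h1
    refine ⟨fun h2 => absurd ((hC t).sub h2) h1.1, fun h2 => absurd ?_ h2⟩
    have hvD' := hvD
    unfold DeepR at hvD'
    dsimp only at hvD'
    have ho := hod t
    have hQ : HQ w ({(v, 0)} ∪ {(o t, R)}) := by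
      refine ⟨?_, ?_⟩
      · rintro q (hq | hq) <;> rw [mem_singleton_iff] at hq <;> subst hq <;> dsimp only <;> omega
      · have hs : sd (o t) v = sd v (o t) := by
          unfold sd
          omega
        rintro q (hq | hq) q' (hq' | hq') hne <;> rw [mem_singleton_iff] at hq hq' <;>
          subst hq <;> subst hq' <;> first | exact absurd rfl hne | (dsimp only; omega)
    have hd : Disjoint ({(v, 0)} : Set ((ℕ × ℕ) × ℕ)) {(o t, R)} := by
      rw [Set.disjoint_singleton]
      intro h3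
      have h4 := congrArg Prod.fst h3
      simp only at h4
      rw [h4] at h1
      have : sd (o t) (o t) ≤ 0 := by
        rw [sd_le]
        omega
      omega
    have h3 := hG.drop_bx (hw4 t) hQ hd (D' := {e | e ∈ S ∧ row e ∈ ω t}) (T := (Z t : Set α))
      (z := z t) (fun e he => hrowbx t R le_rfl _ (mem_singleton _) e he.1 he.2) (by
        intro x hx
        refine hinv t _ ?_ x (by simpa using hx)
        rintro q hq
        rw [mem_singleton_iff] at hq
        subst hq
        exact Or.inr ⟨rfl, h1.1, hvD⟩) (by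
        refine P.closure_subset_closure ?_ (hC t).zcl
        rintro e (he | he)
        · exact Or.inl he
        · exact Or.inr ⟨he.1, fun h3 => he.2 h3.2⟩)
    refine P.closure_subset_closure ?_ h3
    rintro e (he | he)
    · exact Or.inl he
    · refine Or.inr ⟨⟨he.1.1, fun h4 => he.1.2 ⟨he.1.1, h4⟩⟩, fun h4 => he.2 ⟨he.1.1, v, ?_, h4.2⟩⟩
      exact ⟨_, mem_singleton _, by dsimp only; rw [sd_le]; omega⟩
  -- (F3) removal of the other holes
  have hF3 : ∀ t v, DeepR (0, 0) (w + 1) (w + 1) D v →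
      z t ∈ P.closure ((Z t : Set α) ∪ ((S \ {e | row e ∈ ω t}) \ {e | e ∈ cc ∧ v ∈ row e})) →
      z t ∈ P.closure ((ZZ : Set α) ∪ (Sr \ {e | e ∈ cc ∧ v ∈ row e})) := by
    intro t v hvD hz
    have hvD' := hvD
    unfold DeepR at hvD'
    dsimp only at hvD'
    have ho := hod t
    obtain ⟨rad, hrad⟩ : ∃ rad : Fin m → ℕ, ∀ i, rad i = if sd v (o i) ≤ R + 3 then R + 3 else R :=
      ⟨_, fun _ => rfl⟩
    have hradR : ∀ i, R ≤ rad i ∧ rad i ≤ R + 3 := by
      intro i
      rw [hrad]
      split_ifs <;> omega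
    have hs : ∀ a b : ℕ × ℕ, sd a b = sd b a := by
      intro a b
      unfold sd
      omega
    by_cases h1 : ∃ i, i ≠ t ∧ sd v (o i) ≤ R + 3
    · -- the vertex is near another unit
      obtain ⟨i₀, hi₀, hvi⟩ := h1
      have hQ : HQ w ({q | ∃ i, i ≠ t ∧ q = (o i, rad i)} ∪ {(o t, R)}) := by
        refine ⟨?_, ?_⟩
        · rintro q (⟨i, _, rfl⟩ | hq)
          · have h2 := hod i
            have h3 := hradR i
            dsimp only
            omega
          · rw [mem_singleton_iff] at hq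
            subst hq
            dsimp only
            omega
        · rintro q (⟨i, hi, rfl⟩ | hq) q' (⟨i', hi', rfl⟩ | hq') hne
          · have h2 : i ≠ i' := fun h2 => hne (by rw [h2])
            have h3 := hoo i i' h2
            have h4 := hradR i
            have h5 := hradR i'
            dsimp only
            omega
          · rw [mem_singleton_iff] at hq'
            subst hq'
            have h3 := hoo i t hi
            have h4 := hradR i
            dsimp only
            omega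
          · rw [mem_singleton_iff] at hq
            subst hq
            have h3 := hoo t i' hi'.symm
            have h4 := hradR i'
            dsimp only
            omega
          · rw [mem_singleton_iff] at hq hq'
            exact absurd (hq.trans hq'.symm) hne
      have hd : Disjoint {q | ∃ i, i ≠ t ∧ q = (o i, rad i)} ({(o t, R)} : Set ((ℕ × ℕ) × ℕ)) := by
        rw [Set.disjoint_singleton_right]
        rintro ⟨i, hi, h3⟩
        have h4 := congrArg Prod.fst h3
        simp only at h4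
        have h5 := hoo i t hi
        rw [h4] at h5
        have : sd (o i) (o i) ≤ 0 := by
          rw [sd_le]
          omega
        omega
      have h3 := hG.drop_bx (hw4 t) hQ hd (D' := {e | e ∈ S ∧ row e ∈ ω t})
        (T := (Z t : Set α)) (z := z t)
        (fun e he => hrowbx t R le_rfl _ (mem_singleton _) e he.1 he.2) (by
          intro x hx
          refine hinv t _ ?_ x (by simpa using hx)
          rintro q ⟨i, hi, rfl⟩
          exact Or.inl ⟨i, hi, rfl, (hradR i).2⟩) (by
          refine P.closure_subset_closure ?_ hz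
          rintro e (he | he)
          · exact Or.inl he
          · exact Or.inr ⟨he.1.1, fun h3 => he.1.2 h3.2⟩)
      refine P.closure_subset_closure ?_ h3
      rintro e (he | he)
      · exact Or.inl ((hmemZZ e).2 ⟨t, he⟩)
      · refine Or.inr ⟨(hmemSr e).2 ⟨he.1.1, fun i h4 => ?_⟩, fun h4 => ?_⟩
        · by_cases hit : i = t
          · subst hit
            exact he.1.2 ⟨he.1.1, h4⟩
          · exact he.2 (hrowbx i (rad i) (hradR i).1 {q | ∃ i, i ≠ t ∧ q = (o i, rad i)}
            ⟨i, hit, rfl⟩ e he.1.1 h4)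
        · refine he.2 ⟨he.1.1, v, ⟨_, ⟨i₀, hi₀, rfl⟩, ?_⟩, h4.2⟩
          rw [hrad, if_pos hvi]
          exact hvi
    · -- the vertex is far from all the other units
      push Not at h1
      have hrad' : ∀ i, i ≠ t → rad i = R := by
        intro i hi
        rw [hrad, if_neg]
        have := h1 i hi
        omega
      obtain ⟨Q₂, hQ₂⟩ : ∃ Q₂ : Set ((ℕ × ℕ) × ℕ), ∀ q, q ∈ Q₂ ↔
          (q = (o t, rad t) ∨ (q = (v, 0) ∧ R + 3 < sd v (o t))) :=
        ⟨{q | q = (o t, rad t) ∨ (q = (v, 0) ∧ R + 3 < sd v (o t))}, fun q => Iff.rfl⟩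
      have hrt : R + 3 < sd v (o t) → rad t = R := by
        intro h2
        rw [hrad, if_neg (by omega)]
      have hQ : HQ w ({q | ∃ i, i ≠ t ∧ q = (o i, rad i)} ∪ Q₂) := by
        refine ⟨?_, ?_⟩
        · rintro q (⟨i, _, rfl⟩ | hq)
          · have h2 := hod i
            have h3 := hradR i
            dsimp only
            omega
          · rcases (hQ₂ q).1 hq with rfl | ⟨rfl, _⟩
            · have h3 := hradR t
              dsimp only
              omega
            · dsimp only
              omega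
        · have h5 := hradR t
          rintro q (⟨i, hi, rfl⟩ | hq) q' (⟨i', hi', rfl⟩ | hq') hne
          · have h2 : i ≠ i' := fun h2 => hne (by rw [h2])
            have h3 := hoo i i' h2
            have h4 := hradR i
            have h5 := hradR i'
            dsimp only
            omega
          · have h3 := hoo i t hi
            have h4 := hradR i
            rcases (hQ₂ q').1 hq' with rfl | ⟨rfl, _⟩
            · dsimp only
              omega
            · have h6 := h1 i hi
              have h7 := hrad' i hi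
              rw [hs] at h6
              dsimp only
              omega
          · have h3 := hoo t i' hi'.symm
            have h4 := hradR i'
            rcases (hQ₂ q).1 hq with rfl | ⟨rfl, _⟩
            · dsimp only
              omega
            · have h6 := h1 i' hi'
              have h7 := hrad' i' hi'
              dsimp only
              omega
          · rcases (hQ₂ q).1 hq with rfl | ⟨rfl, h6⟩ <;>
              rcases (hQ₂ q').1 hq' with rfl | ⟨rfl, h7⟩
            · exact absurd rfl hne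
            · have h8 := hrt h7
              rw [hs] at h7
              dsimp only
              omega
            · have h8 := hrt h6
              dsimp only
              omega
            · exact absurd rfl hne
      have hd : Disjoint {q | ∃ i, i ≠ t ∧ q = (o i, rad i)} Q₂ := by
        rw [Set.disjoint_left]
        rintro q ⟨i, hi, rfl⟩ hq
        rcases (hQ₂ _).1 hq with h3 | ⟨h3, _⟩
        · have h4 := congrArg Prod.fst h3
          simp only at h4
          have h5 := hoo i t hi
          rw [h4] at h5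
          have : sd (o t) (o t) ≤ 0 := by
            rw [sd_le]
            omega
          omega
        · have h4 := congrArg Prod.fst h3
          simp only at h4
          have h5 := h1 i hi
          rw [h4] at h5
          have : sd v v ≤ 0 := by
            rw [sd_le]
            omega
          omega
      have hvQ : v ∈ BX Q₂ := by
        by_cases h2 : sd v (o t) ≤ R + 3
        · refine ⟨_, (hQ₂ _).2 (Or.inl rfl), ?_⟩
          rw [hrad, if_pos h2]
          exact h2
        · exact ⟨_, (hQ₂ _).2 (Or.inr ⟨rfl, by omega⟩), by dsimp only; rw [sd_le]; omega⟩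
      have h3 := hG.drop_bx (hw4 t) hQ hd
        (D' := {e | e ∈ S ∧ (row e ∈ ω t ∨ (e ∈ cc ∧ v ∈ row e))}) (T := (Z t : Set α))
        (z := z t) (by
          rintro e ⟨he, h3 | h3⟩
          · exact hrowbx t (rad t) (hradR t).1 _ ((hQ₂ _).2 (Or.inl rfl)) e he h3
          · exact ⟨he, v, hvQ, h3.2⟩) (by
          intro x hx
          refine hinv t _ ?_ x (by simpa using hx)
          rintro q ⟨i, hi, rfl⟩
          exact Or.inl ⟨i, hi, rfl, (hradR i).2⟩) (by
          refine P.closure_subset_closure ?_ hz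
          rintro e (he | he)
          · exact Or.inl he
          · refine Or.inr ⟨he.1.1, ?_⟩
            rintro ⟨_, h3 | h3⟩
            · exact he.1.2 h3
            · exact he.2 h3)
      refine P.closure_subset_closure ?_ h3
      rintro e (he | he)
      · exact Or.inl ((hmemZZ e).2 ⟨t, he⟩)
      · refine Or.inr ⟨(hmemSr e).2 ⟨he.1.1, fun i h4 => ?_⟩, fun h4 =>
          he.1.2 ⟨he.1.1, Or.inr h4⟩⟩
        by_cases hit : i = t
        · subst hit
          exact he.1.2 ⟨he.1.1, Or.inl h4⟩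
        · exact he.2 (hrowbx i (rad i) (hradR i).1 {q | ∃ i, i ≠ t ∧ q = (o i, rad i)}
            ⟨i, hit, rfl⟩ e he.1.1 h4)
  -- the element is spanned
  have hzcl : ∀ t, z t ∈ P.closure ((ZZ : Set α) ∪ Sr) := by
    intro t
    have ho := hod t
    have hQ : HQ w ({q | ∃ i, i ≠ t ∧ q = (o i, R)} ∪ {(o t, R)}) := by
      refine ⟨?_, ?_⟩
      · rintro q (⟨i, _, rfl⟩ | hq)
        · have h2 := hod i
          dsimp only
          omega
        · rw [mem_singleton_iff] at hq
          subst hq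
          dsimp only
          omega
      · rintro q (⟨i, hi, rfl⟩ | hq) q' (⟨i', hi', rfl⟩ | hq') hne
        · have h2 : i ≠ i' := fun h2 => hne (by rw [h2])
          have h3 := hoo i i' h2
          dsimp only
          omega
        · rw [mem_singleton_iff] at hq'
          subst hq'
          have h3 := hoo i t hi
          dsimp only
          omega
        · rw [mem_singleton_iff] at hq
          subst hq
          have h3 := hoo t i' hi'.symm
          dsimp only
          omega
        · rw [mem_singleton_iff] at hq hq'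
          exact absurd (hq.trans hq'.symm) hne
    have hd : Disjoint {q | ∃ i, i ≠ t ∧ q = (o i, R)} ({(o t, R)} : Set ((ℕ × ℕ) × ℕ)) := by
      rw [Set.disjoint_singleton_right]
      rintro ⟨i, hi, h3⟩
      have h4 := congrArg Prod.fst h3
      simp only at h4
      have h5 := hoo i t hi
      rw [h4] at h5
      have : sd (o i) (o i) ≤ 0 := by
        rw [sd_le]
        omega
      omega
    have h3 := hG.drop_bx (hw4 t) hQ hd (D' := {e | e ∈ S ∧ row e ∈ ω t})
      (T := (Z t : Set α)) (z := z t)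
      (fun e he => hrowbx t R le_rfl _ (mem_singleton _) e he.1 he.2) (by
        intro x hx
        refine hinv t _ ?_ x (by simpa using hx)
        rintro q ⟨i, hi, rfl⟩
        exact Or.inl ⟨i, hi, rfl, by omega⟩) (by
        refine P.closure_subset_closure ?_ (hC t).zcl
        rintro e (he | he)
        · exact Or.inl he
        · exact Or.inr ⟨he.1, fun h3 => he.2 h3.2⟩)
    refine P.closure_subset_closure ?_ h3
    rintro e (he | he)
    · exact Or.inl ((hmemZZ e).2 ⟨t, he⟩)
    · refine Or.inr ((hmemSr e).2 ⟨he.1.1, fun i h4 => ?_⟩)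
      by_cases hit : i = t
      · subst hit
        exact he.1.2 ⟨he.1.1, h4⟩
      · exact he.2 (hrowbx i R le_rfl {q | ∃ i, i ≠ t ∧ q = (o i, R)} ⟨i, hit, rfl⟩ e he.1.1 h4)
  -- (F2) the elements of the other units are invisible
  have hF2 : ∀ t v, v ∈ Λ t →
      z t ∉ P.closure ((ZZ : Set α) ∪ (Sr \ {e | e ∈ cc ∧ v ∈ row e})) := by
    intro t v hvΛ hz
    have hvN := (hC t).sub hvΛ
    have hvd := hNd t v hvN
    have ho := hod t
    have hvD : DeepR (0, 0) (w + 1) (w + 1) D v := by
      unfold DeepR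
      dsimp only
      omega
    refine (hloc1 t v hvD).1 hvΛ ?_
    refine P.closure_subset_closure_of_subset_closure ?_ hz
    have hE : (Z t : Set α) ∪ ((S \ {e | row e ∈ ω t}) \ {e | e ∈ cc ∧ v ∈ row e}) ⊆ P.E :=
      union_subset (hZE t) (sdiff_subset.trans (sdiff_subset.trans hG.sub))
    rintro x (hx | hx)
    · obtain ⟨i, hxi⟩ := (hmemZZ x).1 hx
      by_cases hit : i = t
      · subst hit
        exact P.subset_closure _ hE (Or.inl hxi)
      · -- a box
        have hs : ∀ a b : ℕ × ℕ, sd a b = sd b a := by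
          intro a b
          unfold sd
          omega
        obtain ⟨Q, hQm⟩ : ∃ Q : Set ((ℕ × ℕ) × ℕ), ∀ q, q ∈ Q ↔
            (q = (o t, if sd v (o t) ≤ R + 3 then R + 3 else R) ∨
              (q = (v, 0) ∧ R + 3 < sd v (o t))) :=
          ⟨{q | q = (o t, if sd v (o t) ≤ R + 3 then R + 3 else R) ∨
              (q = (v, 0) ∧ R + 3 < sd v (o t))}, fun q => Iff.rfl⟩
        have hQ : HQ w Q := by
          refine ⟨?_, ?_⟩
          · intro q hq
            rcases (hQm q).1 hq with rfl | ⟨rfl, _⟩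
            · dsimp only
              split_ifs <;> omega
            · dsimp only
              omega
          · intro q hq q' hq' hne
            rcases (hQm q).1 hq with rfl | ⟨rfl, h6⟩ <;>
              rcases (hQm q').1 hq' with rfl | ⟨rfl, h7⟩
            · exact absurd rfl hne
            · rw [if_neg (by omega)]
              rw [hs] at h7
              dsimp only
              omega
            · rw [if_neg (by omega)]
              dsimp only
              omega
            · exact absurd rfl hne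
        have hvi : v ∉ N i := by
          intro h4
          have h5 := hNN i t hit v h4 v hvN
          have : sd v v ≤ 0 := by
            rw [sd_le]
            omega
          omega
        have h4 := hinv i Q (by
          intro q hq
          rcases (hQm q).1 hq with rfl | ⟨rfl, _⟩
          · refine Or.inl ⟨t, Ne.symm hit, rfl, ?_⟩
            dsimp only
            split_ifs <;> omega
          · exact Or.inr ⟨rfl, hvi, hvD⟩) x (Or.inr hxi)
        have h5 := hG.toRWal.noloc_bx (hw4 t) hQ h4.1 h4.2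
        refine P.closure_subset_closure ?_ h5
        rintro e ⟨he, he2⟩
        refine Or.inr ⟨⟨he, fun h6 => he2 ?_⟩, fun h6 => he2 ⟨he, v, ?_, h6.2⟩⟩
        · refine hrowbx t _ ?_ _ ((hQm _).2 (Or.inl rfl)) e he h6
          split_ifs <;> omega
        · by_cases h7 : sd v (o t) ≤ R + 3
          · refine ⟨_, (hQm _).2 (Or.inl rfl), ?_⟩
            rw [if_pos h7]
            exact h7
          · exact ⟨_, (hQm _).2 (Or.inr ⟨rfl, by omega⟩), by dsimp only; rw [sd_le]; omega⟩
    · refine P.subset_closure _ hE (Or.inr ⟨⟨hSrS hx.1, ?_⟩, hx.2⟩)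
      exact ((hmemSr x).1 hx.1).2 t
  -- (F1) the contracted set is skew
  have hskew : ∀ J : Finset (Fin m), rk P Sr + ∑ j ∈ J, (Z j).card ≤
      rk P (Sr ∪ ((J.biUnion Z : Finset α) : Set α)) := by
    intro J
    induction J using Finset.induction_on with
    | empty => simp
    | @insert j J hj ih =>
      rw [Finset.sum_insert hj]
      have ho := hod j
      have hYE : S \ {e | row e ∈ ω j} ⊆ P.E := sdiff_subset.trans hG.sub
      have hX : Sr ∪ ((J.biUnion Z : Finset α) : Set α) ⊆ P.closure (S \ {e | row e ∈ ω j}) := by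
        rintro x (hx | hx)
        · exact P.subset_closure _ hYE ⟨hSrS hx, ((hmemSr x).1 hx).2 j⟩
        · rw [Finset.mem_coe, Finset.mem_biUnion] at hx
          obtain ⟨i, hiJ, hxi⟩ := hx
          have hij : i ≠ j := fun h => hj (h ▸ hiJ)
          have hQ : HQ w {(o j, R)} := by
            refine ⟨?_, ?_⟩
            · intro q hq
              rw [mem_singleton_iff] at hq
              subst hq
              dsimp only
              omega
            · intro q hq q' hq' hne
              rw [mem_singleton_iff] at hq hq'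
              exact absurd (hq.trans hq'.symm) hne
          have h4 := hinv i {(o j, R)} (by
            intro q hq
            rw [mem_singleton_iff] at hq
            subst hq
            exact Or.inl ⟨j, hij.symm, rfl, by dsimp only; omega⟩) x (Or.inr hxi)
          have h5 := hG.toRWal.noloc_bx (hw4 j) hQ h4.1 h4.2
          refine P.closure_subset_closure ?_ h5
          rintro e ⟨he, he2⟩
          exact ⟨he, fun h6 => he2 (hrowbx j R le_rfl _ (mem_singleton _) e he h6)⟩
      have h1 := rk_skew_add hYE hX (hC j).skew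
      have h2 : (Sr ∪ ((J.biUnion Z : Finset α) : Set α)) ∪ (Z j : Set α) =
          Sr ∪ (((insert j J).biUnion Z : Finset α) : Set α) := by
        rw [Finset.biUnion_insert, Finset.coe_union, union_assoc, union_comm ((J.biUnion Z : _) : Set α)]
      rw [h2] at h1
      omega
  have hsk : rk P (Sr ∪ (ZZ : Set α)) = rk P Sr + ZZ.card := by
    have h1 := hskew Finset.univ
    rw [← hZZ] at h1
    have h2 : ZZ.card ≤ ∑ j, (Z j).card := by
      rw [hZZ]
      exact Finset.card_biUnion_le
    have h3 := rk_union_le P (X := Sr) (Y := (ZZ : Set α)) ZZ.finite_toSet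
    rw [Set.ncard_coe_finset] at h3
    omega
  -- the minor
  obtain ⟨Y, hY⟩ : ∃ Y, Y = Sr \ cc := ⟨_, rfl⟩
  obtain ⟨S', hS'⟩ : ∃ S', S' = {e | e ∈ cc ∧ row e ∉ ⋃ t, ω t} := ⟨_, rfl⟩
  have hmS' : ∀ e, e ∈ S' ↔ e ∈ cc ∧ ∀ t, row e ∉ ω t := by
    intro e
    rw [hS']
    simp only [mem_ofPred_eq, mem_iUnion, not_exists]
  have hS'Sr : S' ⊆ Sr := fun e he => (hmemSr e).2 ⟨hcc ((hmS' e).1 he).1, ((hmS' e).1 he).2⟩
  have hYE : Y ⊆ P.E := by
    rw [hY]
    exact sdiff_subset.trans hSrE
  have hB1 : Bic (P ／ Y) S' row := by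
    have := hG.bic' hcc hccW (⋃ t, ω t)
    rw [hY, hSr, hS']
    exact this
  have hfin1 : (P ／ Y).Finite := BQ.fin_contract _
  have hfin2 : ((P ／ Y) ／ (ZZ : Set α)).Finite := BQ.fin_contract _
  have hZSr : ∀ x ∈ ZZ, x ∉ Sr := by
    intro x hx hxS
    obtain ⟨t, ht⟩ := (hmemZZ x).1 hx
    exact ((hmemSr x).1 hxS).2 t (((hC t).clZ x ht).2 (hSrS hxS))
  have hS'Y : S' ∪ Y = Sr := by
    rw [hY]
    ext e
    constructor
    · rintro (he | he)
      · exact hS'Sr he
      · exact he.1
    · intro he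
      by_cases h1 : e ∈ cc
      · exact Or.inl ((hmS' e).2 ⟨h1, ((hmemSr e).1 he).2⟩)
      · exact Or.inr ⟨he, h1⟩
  have hB2 : Bic ((P ／ Y) ／ (ZZ : Set α)) S' row := by
    refine bic_con_skew hB1 (Subset.refl _) ?_ ?_ ?_
    · intro x hx
      exact ⟨hZZE hx, fun h1 => hZSr x hx (by rw [hY] at h1; exact h1.1)⟩
    · rw [Set.disjoint_left]
      exact fun x hx hx' => hZSr x hx' (hS'Sr hx)
    · have h1 := BQ.rk_con (M := P) hYE (X := S' ∪ (ZZ : Set α)) (by
        rintro x (hx | hx)
        · exact ⟨hSrE (hS'Sr hx), fun h2 => by rw [hY] at h2; exact h2.2 ((hmS' x).1 hx).1⟩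
        · exact ⟨hZZE hx, fun h2 => hZSr x hx (by rw [hY] at h2; exact h2.1)⟩)
      have h2 := BQ.rk_con (M := P) hYE (X := S') (by
        intro x hx
        exact ⟨hSrE (hS'Sr hx), fun h2 => by rw [hY] at h2; exact h2.2 ((hmS' x).1 hx).1⟩)
      rw [hS'Y] at h2
      rw [union_right_comm, hS'Y] at h1
      omega
  have hzZZ : ∀ t, z t ∉ ZZ := by
    intro t hz
    have h1 := (hC t).card3.1
    obtain ⟨v, hv⟩ : (Λ t).Nonempty := Finset.card_pos.1 (by omega)
    refine hF2 t v hv (P.subset_closure _ ?_ (Or.inl hz))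
    exact union_subset hZZE (sdiff_subset.trans hSrE)
  have hzSr : ∀ t, z t ∉ Sr := fun t hz =>
    ((hmemSr _).1 hz).2 t ((hC t).clz.2 (hSrS hz))
  have hclo : ∀ t X, X ⊆ S' → (z t ∈ ((P ／ Y) ／ (ZZ : Set α)).closure X ↔
      z t ∈ P.closure ((X ∪ (ZZ : Set α)) ∪ Y)) := by
    intro t X _
    rw [Matroid.contract_closure_eq, Matroid.contract_closure_eq]
    constructor
    · exact fun h1 => h1.1.1
    · exact fun h1 => ⟨⟨h1, fun h2 => hzSr t (by rw [hY] at h2; exact h2.1)⟩, hzZZ t⟩
  refine HasUniformMinor_mono (hfam ((P ／ Y) ／ (ZZ : Set α)) S' row w ω o z Λ hB2 ?_ ?_ ?_ ?_ ?_ ?_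
    ?_ ?_ ?_ ?_) ((con_minor _ _).trans (con_minor P Y))
  · refine ⟨fun e he e' he' hee => hccW.inj ((hmS' e).1 he).1 ((hmS' e').1 he').1 hee,
      fun e he => hccW.mem e ((hmS' e).1 he).1, ?_⟩
    intro p q hpq hp hq hm
    obtain ⟨e, he, hee⟩ := hccW.surj p q hpq hp hq (notMem_empty _)
    refine ⟨e, (hmS' e).2 ⟨he, fun t ht => hm (mem_iUnion.2 ⟨t, ?_⟩)⟩, hee⟩
    rw [← hee]
    exact ht
  · exact fun e he t => ((hmS' e).1 he).2 t
  · exact fun t p q hpq => (hC t).near p q hpq
  · intro t
    refine ⟨(hclo t S' (Subset.refl _)).2 ?_, fun h1 => hzSr t (hS'Sr h1)⟩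
    rw [union_right_comm, hS'Y, union_comm]
    exact hzcl t
  · exact fun t => (hC t).card3
  · intro t v hvD
    have hX : (ins S' row {v}ᶜ ∪ (ZZ : Set α)) ∪ Y =
        (ZZ : Set α) ∪ (Sr \ {e | e ∈ cc ∧ v ∈ row e}) := by
      ext e
      constructor
      · rintro ((he | he) | he)
        · exact Or.inr ⟨hS'Sr he.1, fun h1 => he.2 v h1.2 rfl⟩
        · exact Or.inl he
        · rw [hY] at he
          exact Or.inr ⟨he.1, fun h1 => he.2 h1.1⟩
      · rintro (he | he)
        · exact Or.inl (Or.inr he)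
        · by_cases h1 : e ∈ cc
          · refine Or.inl (Or.inl ⟨(hmS' e).2 ⟨h1, ((hmemSr e).1 he.1).2⟩, ?_⟩)
            intro u hu huv
            rw [mem_singleton_iff] at huv
            subst huv
            exact he.2 ⟨h1, hu⟩
          · right
            rw [hY]
            exact ⟨he.1, h1⟩
    have h1 : v ∈ CWL.Loc ((P ／ Y) ／ (ZZ : Set α)) S' row (z t) ↔
        z t ∉ P.closure ((ZZ : Set α) ∪ (Sr \ {e | e ∈ cc ∧ v ∈ row e})) := by
      rw [← hX, ← hclo t _ (fun e he => he.1)]
      rfl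
    rw [h1]
    constructor
    · intro h2
      by_contra h3
      refine h2 (hF3 t v hvD ?_)
      by_contra h4
      exact h3 ((hloc1 t v hvD).2 h4)
    · exact hF2 t v
  · intro t p hp
    have hp' : p ∈ insert (o t) (N t) := by
      rcases Finset.mem_insert.1 hp with rfl | hp
      · exact Finset.mem_insert_self _ _
      · exact Finset.mem_insert_of_mem ((hC t).sub hp)
    have := hdp t p hp'
    unfold DeepR at this ⊢
    omega
  · intro t t' htt p hp q hq
    have hp' : p ∈ insert (o t) (N t) := by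
      rcases Finset.mem_insert.1 hp with rfl | hp
      · exact Finset.mem_insert_self _ _
      · exact Finset.mem_insert_of_mem ((hC t).sub hp)
    have hq' : q ∈ insert (o t') (N t') := by
      rcases Finset.mem_insert.1 hq with rfl | hq
      · exact Finset.mem_insert_self _ _
      · exact Finset.mem_insert_of_mem ((hC t').sub hq)
    have := hfar t t' htt p hp' q hq'
    unfold Apart at this ⊢
    omega
  · exact fun t => (hC t).hc
  · exact fun t => (hC t).lc

/-- the data of a configuration -/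
abbrev CT (α : Type u) : Type u :=
  (ℕ × ℕ) × Set (Sym2 (ℕ × ℕ)) × Finset α × α × Set α × Finset (ℕ × ℕ) × Finset (ℕ × ℕ)

/-- **Outside of a bounded set there is no local configuration.** -/
theorem linkOm {k R D : ℕ} (hL : LinkFam.{u} k R D) (hD : 4 ≤ D) (β : ℕ) : ∃ r δ : ℕ,
    ∀ {α : Type u} (P : Matroid α) [P.Finite] (S : Set α) (row : α → Sym2 (ℕ × ℕ)) (w : ℕ),
      RWx P S row w → HasUniformMinor P k ∨ ∃ Om : Finset (ℕ × ℕ), Om.card ≤ r ∧
        ∀ (o : ℕ × ℕ) (ω : Set (Sym2 (ℕ × ℕ))) (Z : Finset α) (z : α) (c : Set α)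
          (N Λ : Finset (ℕ × ℕ)),
          (∀ p ∈ insert o N, DeepR (0, 0) (w + 1) (w + 1) δ p ∧ ∀ q ∈ Om, Apart δ p q) →
          ¬ LConf P S row w R D β o ω Z z c N Λ := by
  classical
  obtain ⟨m, δ, hfam⟩ := linkFamX.{u} hL hD
  refine ⟨m * (β + 1), δ, ?_⟩
  intro α P _ S row w hG
  by_contra hcon
  push Not at hcon
  obtain ⟨hhum, hno⟩ := hcon
  obtain ⟨Good, hGood⟩ : ∃ Good : CT α → Prop, ∀ d, Good d ↔
      (LConf P S row w R D β d.1 d.2.1 d.2.2.1 d.2.2.2.1 d.2.2.2.2.1 d.2.2.2.2.2.1
        d.2.2.2.2.2.2 ∧ ∀ p ∈ insert d.1 d.2.2.2.2.2.1, DeepR (0, 0) (w + 1) (w + 1) δ p) :=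
    ⟨_, fun _ => Iff.rfl⟩
  have hseq : ∀ i ≤ m, ∃ d : ℕ → CT α, (∀ j < i, Good (d j)) ∧
      ∀ j j', j < j' → j' < i → ∀ p ∈ insert (d j').1 (d j').2.2.2.2.2.1,
        ∀ q ∈ insert (d j).1 (d j).2.2.2.2.2.1, Apart δ p q := by
    intro i
    induction i with
    | zero =>
      intro _
      obtain ⟨o, ω, Z, z, c, N, Λ, _, _⟩ := hno ∅ (by simp)
      exact ⟨fun _ => (o, ω, Z, z, c, N, Λ), fun j hj => absurd hj (Nat.not_lt_zero _),
        fun j j' _ hj' => absurd hj' (Nat.not_lt_zero _)⟩
    | succ i ih =>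
      intro hi
      obtain ⟨d, hd1, hd2⟩ := ih (by omega)
      have hcard : ((Finset.range i).biUnion fun j => insert (d j).1 (d j).2.2.2.2.2.1).card ≤
          m * (β + 1) := by
        refine (Finset.card_biUnion_le).trans ?_
        refine (Finset.sum_le_card_nsmul _ _ (β + 1) ?_).trans ?_
        · intro j hj
          have h1 := ((hGood _).1 (hd1 j (Finset.mem_range.1 hj))).1.card
          have h2 := Finset.card_insert_le (d j).1 (d j).2.2.2.2.2.1
          omega
        · rw [Finset.card_range, smul_eq_mul]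
          exact Nat.mul_le_mul_right _ (by omega)
      obtain ⟨o, ω, Z, z, c, N, Λ, h1, h2⟩ := hno _ hcard
      refine ⟨fun j => if j < i then d j else (o, ω, Z, z, c, N, Λ), ?_, ?_⟩
      · intro j hj
        by_cases hji : j < i
        · simp only [if_pos hji]
          exact hd1 j hji
        · simp only [if_neg hji]
          exact (hGood _).2 ⟨h2, fun p hp => (h1 p hp).1⟩
      · intro j j' hjj hj'
        have hji : j < i := by omega
        by_cases hj'i : j' < i
        · simp only [if_pos hji, if_pos hj'i]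
          exact hd2 j j' hjj hj'i
        · simp only [if_pos hji, if_neg hj'i]
          intro p hp q hq
          exact (h1 p hp).2 q (Finset.mem_biUnion.2 ⟨j, Finset.mem_range.2 hji, hq⟩)
  obtain ⟨d, hd1, hd2⟩ := hseq m le_rfl
  refine hhum (hfam P S row w β (fun t => (d t).1) (fun t => (d t).2.1) (fun t => (d t).2.2.1)
    (fun t => (d t).2.2.2.1) (fun t => (d t).2.2.2.2.1) (fun t => (d t).2.2.2.2.2.1)
    (fun t => (d t).2.2.2.2.2.2) hG (fun t => ((hGood _).1 (hd1 t t.2)).1)
    (fun t => ((hGood _).1 (hd1 t t.2)).2) ?_)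
  intro t t' htt p hp q hq
  rcases lt_or_gt_of_ne htt with h1 | h1
  · have := hd2 t t' h1 t'.2 q hq p hp
    unfold Apart at this ⊢
    omega
  · exact hd2 t' t h1 t.2 p hp q hq

end DA
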