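import Pool.Agent.DA.LinkCG

/-!
# The coarse quotient of a family of linked gadgets
-/

open Set Relation BIC BICS
open scoped Matroid

namespace DA

open Gad

universe u

namespace Lk

variable {α : Type u} {ι : Type} {P : Matroid α} {S : Set α} {ends : α → Sym2 (ℕ × ℕ)}
  {w n R D q M : ℕ} {miss : ι → Set (Sym2 (ℕ × ℕ))} {o : ι → ℕ × ℕ} {z : ι → α}
  {Λ : ι → Finset (ℕ × ℕ)} {lx ly bx by' : ℕ → ℕ} {T : Set ι}

/-- the block is split -/
def Kp (Λ : ι → Finset (ℕ × ℕ)) (o : ι → ℕ × ℕ) (bx by' : ℕ → ℕ) (t : ι) (c : ℕ × ℕ) : Prop :=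
  3 ≤ (cnt Λ bx by' t c).card ∨ ((cnt Λ bx by' t c).card = 2 ∧ bl bx by' (o t) = c)

/-- the block gets a ray -/
def Rp (Λ : ι → Finset (ℕ × ℕ)) (o : ι → ℕ × ℕ) (bx by' : ℕ → ℕ) (t : ι) (c : ℕ × ℕ) : Prop :=
  (cnt Λ bx by' t c).card = 2 ∧ bl bx by' (o t) ≠ c

lemma Kp.two {t : ι} {c : ℕ × ℕ} (h : Kp Λ o bx by' t c) : 2 ≤ (cnt Λ bx by' t c).card := by
  rcases h with h | h <;> omega

lemma Kp.ne {t : ι} {c : ℕ × ℕ} (h : Kp Λ o bx by' t c) : (cnt Λ bx by' t c).Nonempty := by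
  rw [← Finset.card_pos]
  have := h.two
  omega

lemma Rp.ne {t : ι} {c : ℕ × ℕ} (h : Rp Λ o bx by' t c) : (cnt Λ bx by' t c).Nonempty := by
  rw [← Finset.card_pos, h.1]
  omega

lemma cnt_dis {t : ι} {c c' : ℕ × ℕ} (hcc : c ≠ c') :
    (cnt Λ bx by' t c).card + (cnt Λ bx by' t c').card ≤ (Λ t).card := by
  classical
  rw [← Finset.card_union_of_disjoint]
  · refine Finset.card_le_card (Finset.union_subset ?_ ?_)
    · exact Finset.filter_subset _ _
    · exact Finset.filter_subset _ _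
  · rw [Finset.disjoint_left]
    intro l h1 h2
    exact hcc ((mem_cnt.1 h1).2.symm.trans (mem_cnt.1 h2).2)

lemma Kp.uniq (h : Lk P S ends w n R D q M miss o z Λ lx ly bx by' T) {t : ι} {c c' : ℕ × ℕ}
    (h1 : Kp Λ o bx by' t c) (h2 : Kp Λ o bx by' t c') : c = c' := by
  by_contra h3
  have h4 := cnt_dis (Λ := Λ) (bx := bx) (by' := by') (t := t) h3
  have h5 := (h.card t).2
  have h6 := h1.two
  have h7 := h2.two
  rcases h1 with h1 | h1
  · omega
  · rcases h2 with h2 | h2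
    · omega
    · exact h3 (h1.2.symm.trans h2.2)

lemma not_KR {t : ι} {c : ℕ × ℕ} (h1 : Kp Λ o bx by' t c) (h2 : Rp Λ o bx by' t c) : False := by
  rcases h1 with h1 | h1
  · have := h2.1
    omega
  · exact h2.2 h1.2

/-- the same block: the same gadget -/
lemma same (h : Lk P S ends w n R D q M miss o z Λ lx ly bx by' T) {t t' : ι} {c : ℕ × ℕ}
    (h1 : (cnt Λ bx by' t c).Nonempty) (h2 : (cnt Λ bx by' t' c).Nonempty) : t = t' := by
  obtain ⟨l, hl⟩ := h1
  obtain ⟨l', hl'⟩ := h2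
  rw [mem_cnt] at hl hl'
  by_contra h3
  have h4 := h.sepB t t' h3 l (Finset.mem_insert_of_mem hl.1) l' (Finset.mem_insert_of_mem hl'.1)
  rw [hl.2, hl'.2, sd_self] at h4
  omega

/-- blocks with locations are far apart -/
lemma blk_far (h : Lk P S ends w n R D q M miss o z Λ lx ly bx by' T) {t t' : ι} (ht : t ∈ T)
    {c c' : ℕ × ℕ} (h1 : (cnt Λ bx by' t c).Nonempty) (h2 : (cnt Λ bx by' t' c').Nonempty)
    (hcc : c ≠ c') : M < sd c c' := by
  obtain ⟨l, hl⟩ := h1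
  obtain ⟨l', hl'⟩ := h2
  rw [mem_cnt] at hl hl'
  by_cases h3 : t = t'
  · subst h3
    have h4 := h.clB t ht l (Finset.mem_insert_of_mem hl.1) l' (Finset.mem_insert_of_mem hl'.1)
    rw [hl.2, hl'.2] at h4
    rcases h4 with h4 | h4
    · exact absurd h4 hcc
    · exact h4
  · have h4 := h.sepB t t' h3 l (Finset.mem_insert_of_mem hl.1) l' (Finset.mem_insert_of_mem hl'.1)
    rw [hl.2, hl'.2] at h4
    exact h4

/-- blocks with locations are deep -/
lemma blk_deep (h : Lk P S ends w n R D q M miss o z Λ lx ly bx by' T) {t : ι} (ht : t ∈ T)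
    {c : ℕ × ℕ} (h1 : (cnt Λ bx by' t c).Nonempty) : DeepR (0, 0) n n M c := by
  obtain ⟨l, hl⟩ := h1
  rw [mem_cnt] at hl
  have h2 := h.mg t l (Or.inr ⟨ht, hl.1⟩)
  have e1 : bx l.1 = c.1 := congrArg Prod.fst hl.2
  have e2 : by' l.2 = c.2 := congrArg Prod.snd hl.2
  unfold DeepR
  simp only
  omega

/-- **The coarse quotient.** -/
theorem out [Finite ι] [P.Finite] (h : Lk P S ends w n R D q M miss o z Λ lx ly bx by' T) :
    ∃ (Z S' : Set α) (ends' : α → Sym2 (ℕ × ℕ)) (K : Finset (ℕ × ℕ)) (G : ℕ × ℕ → ℕ × ℕ),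
      Bic (P ／ Z) S' ends' ∧ CWL.GrdU S' ends' (rect 0 0 n n \ (K : Set (ℕ × ℕ))) ∧
      (∀ c, c ∈ K ↔ ∃ t ∈ T, Kp Λ o bx by' t c) ∧
      (∀ t ∈ T, z t ∈ (P ／ Z).closure S' ∧ z t ∉ S' ∧
        ∀ c, DeepR (0, 0) n n 10 c → c ∉ K →
          (c ∈ CWL.Loc (P ／ Z) S' ends' (z t) ↔ ∃ l ∈ Λ t, G l = c)) ∧
      (∀ t ∈ T, ∀ l ∈ Λ t, ∀ l' ∈ Λ t, G l = G l' → l = l') ∧
      (∀ v, sd (G v) (bl bx by' v) ≤ 1) ∧
      (∀ t ∈ T, ∀ c, Kp Λ o bx by' t c → ∃ d : ℕ × ℕ → ℕ,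
        InjOn d (cnt Λ bx by' t c : Set (ℕ × ℕ)) ∧
          ∀ l ∈ cnt Λ bx by' t c, d l < (cnt Λ bx by' t c).card ∧ G l = stp (d l) c) ∧
      (∀ t ∈ T, ∀ l ∈ Λ t, ¬ Kp Λ o bx by' t (bl bx by' l) →
        G l = bl bx by' l ∨ G l = ((bl bx by' l).1 + 1, (bl bx by' l).2)) ∧
      ∀ t ∈ T, ∀ c, (cnt Λ bx by' t c).Nonempty → ¬ Kp Λ o bx by' t c →
        ∃ l ∈ cnt Λ bx by' t c, G l = c := by
  classical
  have hM := h.hM
  have hE : RE R = 8 * R + 40 := rfl
  -- the sets `K` and `Ry`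
  have hfin : ∀ Q : ι → ℕ × ℕ → Prop, (∀ t c, Q t c → (cnt Λ bx by' t c).Nonempty) →
      ∃ K : Finset (ℕ × ℕ), ∀ c, c ∈ K ↔ ∃ t ∈ T, Q t c := by
    intro Q hQ
    have h1 : {c | ∃ t ∈ T, Q t c}.Finite := by
      refine (Set.finite_iUnion (f := fun t : ι => ((Λ t).image (bl bx by') : Set (ℕ × ℕ)))
        (fun t => Finset.finite_toSet _)).subset ?_
      rintro c ⟨t, _, h2⟩
      obtain ⟨l, hl⟩ := hQ t c h2
      rw [mem_cnt] at hl
      exact mem_iUnion.2 ⟨t, Finset.mem_coe.2 (Finset.mem_image.2 ⟨l, hl.1, hl.2⟩)⟩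
    exact ⟨h1.toFinset, fun c => by rw [Set.Finite.mem_toFinset]; rfl⟩
  obtain ⟨K, hK⟩ := hfin (Kp Λ o bx by') fun t c h1 => h1.ne
  obtain ⟨Ry, hRy⟩ := hfin (Rp Λ o bx by') fun t c h1 => h1.ne
  -- the partitions
  have hs : ∀ c : ℕ × ℕ, ∃ s : ℕ × ℕ → ℕ, ∀ t ∈ T, (cnt Λ bx by' t c).Nonempty →
      GoodS (GAdj S ends) (SdA (GAdj S ends) (lx c.1) (lx (c.1 + 1)) (ly c.2)
        (ly (c.2 + 1))) {v | v ∈ rc (lx c.1) (lx (c.1 + 1)) (ly c.2) (ly (c.2 + 1)) ∅ ∧
          ∃ u, GAdj S ends v u} s ∧ InjOn s (cnt Λ bx by' t c : Set (ℕ × ℕ)) ∧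
      ∀ l ∈ cnt Λ bx by' t c, s l < (cnt Λ bx by' t c).card := by
    intro c
    by_cases h1 : ∃ t ∈ T, (cnt Λ bx by' t c).Nonempty
    · obtain ⟨t, ht, h2⟩ := h1
      obtain ⟨s, h3⟩ := h.blk_split ht h2
      refine ⟨s, fun t' ht' h4 => ?_⟩
      rw [← h.same h2 h4]
      exact h3
    · exact ⟨fun _ => 0, fun t ht h2 => absurd ⟨t, ht, h2⟩ h1⟩
  choose s hs using hs
  have hy : ∀ c : ℕ × ℕ, ∃ y : ℕ × ℕ, ∀ t ∈ T, (cnt Λ bx by' t c).Nonempty →
      y ∈ cnt Λ bx by' t c ∧ ((cnt Λ bx by' t c).card = 2 →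
        ∃ l ∈ cnt Λ bx by' t c, l ≠ y ∧ (∀ l' ∈ cnt Λ bx by' t c, l' = l ∨ l' = y) ∧
          ¬ (l.2 = y.2 ∧ y.1 ≤ l.1)) := by
    intro c
    by_cases h1 : ∃ t ∈ T, (cnt Λ bx by' t c).Nonempty
    · obtain ⟨t, ht, h2⟩ := h1
      obtain ⟨y, hy⟩ : ∃ y, y ∈ cnt Λ bx by' t c ∧ ((cnt Λ bx by' t c).card = 2 →
        ∃ l ∈ cnt Λ bx by' t c, l ≠ y ∧ (∀ l' ∈ cnt Λ bx by' t c, l' = l ∨ l' = y) ∧
          ¬ (l.2 = y.2 ∧ y.1 ≤ l.1)) := by
        by_cases h3 : (cnt Λ bx by' t c).card = 2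
        · obtain ⟨a, b, hab, h4⟩ := Finset.card_eq_two.1 h3
          rw [h4]
          by_cases h5 : a.2 = b.2 ∧ b.1 ≤ a.1
          · refine ⟨a, by simp, fun _ => ⟨b, by simp, hab.symm, ?_, ?_⟩⟩
            · intro l' hl'
              rw [Finset.mem_insert, Finset.mem_singleton] at hl'
              exact hl'.symm
            · rintro ⟨_, g2⟩
              exact hab (Prod.ext (by omega) h5.1)
          · refine ⟨b, by simp, fun _ => ⟨a, by simp, hab, ?_, h5⟩⟩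
            intro l' hl'
            rw [Finset.mem_insert, Finset.mem_singleton] at hl'
            exact hl'
        · obtain ⟨y, hy⟩ := h2
          exact ⟨y, hy, fun h4 => absurd h4 h3⟩
      refine ⟨y, fun t' ht' h4 => ?_⟩
      rw [← h.same h2 h4]
      exact hy
    · exact ⟨(0, 0), fun t ht h2 => absurd ⟨t, ht, h2⟩ h1⟩
  choose y₂ hy₂ using hy
  have hdeep10 : ∀ {c : ℕ × ℕ} {a b : ℕ}, b ≤ a → DeepR (0, 0) n n a c →
      DeepR (0, 0) n n b c := by
    intro c a b hab h1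
    unfold DeepR at h1 ⊢
    omega
  have hC := h.cg0
  -- the coarse map
  have hCG : CG S ends w n R (range o) lx ly bx by' K Ry (fun v => s (bl bx by' v) v) y₂ := by
    refine ⟨hC.wad, hC.inr, hC.pres, hC.ed, hC.px, hC.py, hC.hn, hC.oin, hC.ou, hC.hc,
      ?_, ?_, ?_, ?_, ?_, ?_, ?_, ?_⟩
    · intro c hc
      obtain ⟨t, ht, h1⟩ := (hK c).1 hc
      exact hdeep10 (by omega) (h.blk_deep ht h1.ne)
    · intro c hc c' hc' hcc
      obtain ⟨t, ht, h1⟩ := (hK c).1 hc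
      obtain ⟨t', ht', h1'⟩ := (hK c').1 hc'
      have := h.blk_far ht h1.ne h1'.ne hcc
      omega
    · intro c hc c' hc'
      obtain ⟨t, ht, h1⟩ := (hK c).1 hc
      obtain ⟨t', ht', h1'⟩ := (hRy c').1 hc'
      have hcc : c ≠ c' := by
        rintro rfl
        have h2 := h.same h1.ne h1'.ne
        rw [← h2] at h1'
        exact not_KR h1 h1'
      have := h.blk_far ht h1.ne h1'.ne hcc
      omega
    · intro c hc
      obtain ⟨t, ht, h1⟩ := (hRy c).1 hc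
      exact hdeep10 (by omega) (h.blk_deep ht h1.ne)
    · intro c hc c' hc' hcc
      obtain ⟨t, ht, h1⟩ := (hRy c).1 hc
      obtain ⟨t', ht', h1'⟩ := (hRy c').1 hc'
      have := h.blk_far ht h1.ne h1'.ne hcc
      omega
    · intro c hc
      obtain ⟨t, ht, h1⟩ := (hK c).1 hc
      have h2 := (hs c t ht h1.ne).1
      have h3 := h.blk_deep ht h1.ne
      unfold DeepR at h3
      simp only at h3
      have hbl : ∀ v ∈ {v | v ∈ rc (lx c.1) (lx (c.1 + 1)) (ly c.2) (ly (c.2 + 1)) ∅ ∧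
          ∃ u, GAdj S ends v u}, bl bx by' v = c := fun v hv =>
        (hC.bl_of (c := c) (by omega) (by omega) hv.1.1).1
      intro v hv
      obtain ⟨g1, u, hu, g2, g3, g4⟩ := h2 v hv
      simp only
      rw [hbl v hv]
      refine ⟨g1, u, hu, ?_, g3, ?_⟩
      · refine g2.mono ?_
        rintro x ⟨hx1, hx2⟩
        refine ⟨hx1, ?_⟩
        rw [hbl x hx1]
        exact hx2
      · rw [hbl u hu]
        exact g4
    · rintro c hc _ ⟨t', rfl⟩ hcc
      obtain ⟨t, ht, h1⟩ := (hRy c).1 hc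
      by_cases h2 : t = t'
      · rw [← h2] at hcc
        exact h1.2 hcc
      · obtain ⟨l, hl⟩ := h1.ne
        rw [mem_cnt] at hl
        have h3 := h.sepB t t' h2 l (Finset.mem_insert_of_mem hl.1) _
          (Finset.mem_insert_self _ _)
        rw [hl.2, hcc, sd_self] at h3
        omega
    · intro c hc
      obtain ⟨t, ht, h1⟩ := (hRy c).1 hc
      have h2 := (hy₂ c t ht h1.ne).1
      rw [mem_cnt] at h2
      have h3 := h.mg t (y₂ c) (Or.inr ⟨ht, h2.1⟩)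
      have e1 : bx (y₂ c).1 = c.1 := congrArg Prod.fst h2.2
      have e2 : by' (y₂ c).2 = c.2 := congrArg Prod.snd h2.2
      rw [e1, e2] at h3
      omega
  obtain ⟨G, hG⟩ : ∃ G, G = GG bx by' K Ry (fun v => s (bl bx by' v) v) y₂ := ⟨_, rfl⟩
  have hco := hCG.coarse
  rw [← hG] at hco
  obtain ⟨Z, S', _, _, h1, h2, h3⟩ := hco.quo h.bic
  -- the values of `G`
  have hGK : ∀ v, bl bx by' v ∈ K → G v = stp (s (bl bx by' v) v) (bl bx by' v) := by
    intro v hv
    rw [hG]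
    exact CG.GG_K hv
  have hGR : ∀ v, bl bx by' v ∉ K → bl bx by' v ∈ Ry → v.2 = (y₂ (bl bx by' v)).2 →
      (y₂ (bl bx by' v)).1 ≤ v.1 → G v = ((bl bx by' v).1 + 1, (bl bx by' v).2) := by
    intro v hv g1 g2 g3
    rw [hG]
    exact CG.GG_ray hv ⟨g1, g2, g3⟩
  have hG0 : ∀ v, bl bx by' v ∉ K → ¬ (bl bx by' v ∈ Ry ∧ v.2 = (y₂ (bl bx by' v)).2 ∧
      (y₂ (bl bx by' v)).1 ≤ v.1) → G v = bl bx by' v := by
    intro v hv g1
    rw [hG]
    unfold GG
    rw [if_neg hv, if_neg g1]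
  have hG1 : ∀ v, sd (G v) (bl bx by' v) ≤ 1 := by
    intro v
    by_cases g1 : bl bx by' v ∈ K
    · rw [hGK v g1]
      exact CG.stp_sd
    · by_cases g2 : bl bx by' v ∈ Ry ∧ v.2 = (y₂ (bl bx by' v)).2 ∧
        (y₂ (bl bx by' v)).1 ≤ v.1
      · rw [hGR v g1 g2.1 g2.2.1 g2.2.2, sd_le]
        simp only
        omega
      · rw [hG0 v g1 g2, sd_self]
        omega
  -- membership in `K`, `Ry` for blocks with locations
  have hKt : ∀ t ∈ T, ∀ l ∈ Λ t, (bl bx by' l ∈ K ↔ Kp Λ o bx by' t (bl bx by' l)) := by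
    intro t ht l hl
    rw [hK]
    constructor
    · rintro ⟨t', _, g1⟩
      rw [h.same (t := t) ⟨l, mem_cnt.2 ⟨hl, rfl⟩⟩ g1.ne]
      exact g1
    · exact fun g1 => ⟨t, ht, g1⟩
  have hRt : ∀ t ∈ T, ∀ l ∈ Λ t, (bl bx by' l ∈ Ry ↔ Rp Λ o bx by' t (bl bx by' l)) := by
    intro t ht l hl
    rw [hRy]
    constructor
    · rintro ⟨t', _, g1⟩
      rw [h.same (t := t) ⟨l, mem_cnt.2 ⟨hl, rfl⟩⟩ g1.ne]
      exact g1
    · exact fun g1 => ⟨t, ht, g1⟩
  -- injective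
  have hinj : ∀ t ∈ T, ∀ l ∈ Λ t, ∀ l' ∈ Λ t, G l = G l' → l = l' := by
    intro t ht l hl l' hl' hll
    have hb : bl bx by' l = bl bx by' l' := by
      by_contra g1
      have g2 := h.blk_far ht (t := t) (t' := t) (c := bl bx by' l) (c' := bl bx by' l')
        ⟨l, mem_cnt.2 ⟨hl, rfl⟩⟩ ⟨l', mem_cnt.2 ⟨hl', rfl⟩⟩ g1
      have g3 : sd (bl bx by' l) (bl bx by' l') ≤ sd (bl bx by' l) (G l) +
          sd (G l) (bl bx by' l') := sd_tri
      have g4 := hG1 l
      have g5 := hG1 l'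
      rw [← hll] at g5
      rw [sd_comm] at g4
      omega
    obtain ⟨c, hc⟩ : ∃ c, c = bl bx by' l := ⟨_, rfl⟩
    have hlc : l ∈ cnt Λ bx by' t c := mem_cnt.2 ⟨hl, hc.symm⟩
    have hlc' : l' ∈ cnt Λ bx by' t c := mem_cnt.2 ⟨hl', by rw [← hb]; exact hc.symm⟩
    by_cases g1 : Kp Λ o bx by' t c
    · have g2 := hs c t ht g1.ne
      have g3 : bl bx by' l ∈ K := (hKt t ht l hl).2 (by rw [← hc]; exact g1)
      rw [hGK l g3, hGK l' (by rw [← hb]; exact g3), ← hb, ← hc] at hll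
      refine g2.2.1 hlc hlc' ?_
      have g4 := g2.2.2 l hlc
      have g5 := g2.2.2 l' hlc'
      have g6 : (cnt Λ bx by' t c).card ≤ 4 :=
        (Finset.card_filter_le _ _).trans (h.card t).2
      have g7 := h.blk_deep ht g1.ne
      unfold DeepR at g7
      simp only at g7
      -- `stp` is injective in the direction
      have g8 : ∀ d < 4, ∀ d' < 4, stp d c = stp d' c → d = d' := by
        intro d hd d' hd' g9
        unfold stp at g9
        have e1 := congrArg Prod.fst g9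
        have e2 := congrArg Prod.snd g9
        split_ifs at e1 e2 <;> simp only at e1 e2 <;> omega
      exact g8 _ (by omega) _ (by omega) hll
    · have g3 : bl bx by' l ∉ K := fun g => g1 (by rw [hc]; exact (hKt t ht l hl).1 g)
      have g3' : bl bx by' l' ∉ K := by rw [← hb]; exact g3
      by_contra hne
      -- two locations: a ray
      have g4 : 2 ≤ (cnt Λ bx by' t c).card := Finset.one_lt_card.2 ⟨l, hlc, l', hlc', hne⟩
      have g5 : (cnt Λ bx by' t c).card = 2 := by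
        by_contra g6
        exact g1 (Or.inl (by omega))
      have g6 : Rp Λ o bx by' t c := ⟨g5, fun g7 => g1 (Or.inr ⟨g5, g7⟩)⟩
      have g7 : bl bx by' l ∈ Ry := (hRt t ht l hl).2 (by rw [← hc]; exact g6)
      obtain ⟨k1, k2⟩ := hy₂ c t ht g6.ne
      obtain ⟨a, ha, hay, hall, hno⟩ := k2 g5
      have hGy : ∀ x ∈ cnt Λ bx by' t c, x = y₂ c → G x = (c.1 + 1, c.2) := by
        intro x hx hxy
        have e := (mem_cnt.1 hx).2
        rw [hGR x (by rw [e, hc]; exact g3) (by rw [e, hc]; exact g7)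
          (by rw [e, hxy]) (by rw [e, hxy]), e]
      have hGa : ∀ x ∈ cnt Λ bx by' t c, x = a → G x = c := by
        intro x hx hxa
        have e := (mem_cnt.1 hx).2
        rw [hG0 x (by rw [e, hc]; exact g3) (by
          rw [e, hxa]
          exact fun g => hno g.2), e]
      have hcc : c ≠ (c.1 + 1, c.2) := by
        intro e
        have := congrArg Prod.fst e
        simp only at this
        omega
      rcases hall l hlc with e1 | e1 <;> rcases hall l' hlc' with e2 | e2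
      · exact hne (e1.trans e2.symm)
      · rw [hGa l hlc e1, hGy l' hlc' e2] at hll
        exact hcc hll
      · rw [hGy l hlc e1, hGa l' hlc' e2] at hll
        exact hcc hll.symm
      · exact hne (e1.trans e2.symm)
  refine ⟨Z, S', _, K, G, h1, h2, hK, ?_, hinj, hG1, ?_, ?_, ?_⟩
  · -- the locations
    intro t ht
    obtain ⟨g1, g2, g3⟩ := h3 (z t) (h.zS t).1 (h.zS t).2
    refine ⟨g1, g2, fun c hc hcK => ?_⟩
    obtain ⟨g4, g5⟩ := g3 c hc hcK
    -- vertices in the class of `c` are deep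
    have hdp : ∀ v, (∃ u, GAdj S ends v u) → G v = c → DeepR (0, 0) (w + 1) (w + 1) D v := by
      rintro v ⟨u, hu⟩ hv
      have k1 := (h.gadj hu).2.1
      rw [Gad.mem_rct] at k1
      have k2 := hG1 v
      rw [hv, sd_le] at k2
      unfold DeepR at hc
      simp only at hc
      unfold bl at k2
      simp only at k2
      have k3 := h.px.deep_left h.qx (x := v.1) (M := 1) (by omega) (by omega)
      have k4 := h.py.deep_left h.qy (x := v.2) (M := 1) (by omega) (by omega)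
      have k5 := h.px.deep_right h.qx (x := v.1) (M := 1) (by omega) (by omega)
      have k6 := h.py.deep_right h.qy (x := v.2) (M := 1) (by omega) (by omega)
      have k7 := h.dq
      unfold DeepR
      simp only
      omega
    constructor
    · intro k1
      by_contra k2
      push Not at k2
      refine g4 (fun v hv hvc hvL => ?_) k1
      exact k2 v ((h.loc t v (hdp v hv hvc)).1 hvL) hvc
    · rintro ⟨l, hl, hlc⟩
      have k1 : DeepR (0, 0) (w + 1) (w + 1) D l := by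
        have k3 := h.mg t l (Or.inr ⟨ht, hl⟩)
        have k4 := h.px.deep_left h.qx (x := l.1) (M := 1) (by omega) (by omega)
        have k5 := h.py.deep_left h.qy (x := l.2) (M := 1) (by omega) (by omega)
        have k6 := h.px.deep_right h.qx (x := l.1) (M := 1) (by omega) (by omega)
        have k7 := h.py.deep_right h.qy (x := l.2) (M := 1) (by omega) (by omega)
        have k8 := h.dq
        unfold DeepR
        simp only
        omega
      have k2 : l ∈ CWL.Loc P S ends (z t) := (h.loc t l k1).2 hl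
      obtain ⟨e, he, hle⟩ := loc_end (h.zS t).1 k2
      have k3 : ∃ u, GAdj S ends l u := by
        obtain ⟨u, hu⟩ := Sym2.mem_iff_exists.1 hle
        exact ⟨u, e, he, hu⟩
      refine g5 l k3 hlc k2 ?_
      intro v hv hvc hvl hvL
      have k4 := (h.loc t v (hdp v hv hvc)).1 hvL
      exact hvl (hinj t ht v k4 l hl (hvc.trans hlc.symm))
  · -- split blocks
    intro t ht c hKc
    obtain ⟨_, g2, g3⟩ := hs c t ht hKc.ne
    refine ⟨s c, g2, fun l hl => ⟨g3 l hl, ?_⟩⟩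
    have e := (mem_cnt.1 hl).2
    have g4 : bl bx by' l ∈ K := (hKt t ht l (mem_cnt.1 hl).1).2 (by rw [e]; exact hKc)
    rw [hGK l g4, e]
  · intro t ht l hl g1
    have g2 : bl bx by' l ∉ K := fun g => g1 ((hKt t ht l hl).1 g)
    by_cases g3 : bl bx by' l ∈ Ry ∧ l.2 = (y₂ (bl bx by' l)).2 ∧ (y₂ (bl bx by' l)).1 ≤ l.1
    · exact Or.inr (hGR l g2 g3.1 g3.2.1 g3.2.2)
    · exact Or.inl (hG0 l g2 g3)
  · intro t ht c hne hnK
    by_cases g1 : (cnt Λ bx by' t c).card = 2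
    · obtain ⟨k1, k2⟩ := hy₂ c t ht hne
      obtain ⟨a, ha, hay, hall, hno⟩ := k2 g1
      refine ⟨a, ha, ?_⟩
      have e := (mem_cnt.1 ha).2
      rw [hG0 a (fun g => hnK (by rw [← e]; exact (hKt t ht a (mem_cnt.1 ha).1).1 g)) (by
        rw [e]
        exact fun g => hno g.2), e]
    · obtain ⟨a, ha⟩ := hne
      refine ⟨a, ha, ?_⟩
      have e := (mem_cnt.1 ha).2
      rw [hG0 a (fun g => hnK (by rw [← e]; exact (hKt t ht a (mem_cnt.1 ha).1).1 g)) (by
        intro g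
        have g2 := (hRt t ht a (mem_cnt.1 ha).1).1 g.1
        rw [e] at g2
        exact g1 g2.1), e]

end Lk

end DA
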