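import Pool.Agent.DA.Scale

/-!
# A free scale, the number of units is independent of the scale; cuts and blocks
-/

open Set BIC BICS

namespace DA

/-- **A free scale.** -/
theorem scalesN (β Nm : ℕ) (hNm : 2 ≤ Nm) : ∃ J m : ℕ, ∀ G : ℕ → ℕ, ∃ sc : ℕ → ℕ, Monotone sc ∧
    (∀ j, 2 * sc j ≤ sc (j + 1) ∧ G (sc j) ≤ sc (j + 1)) ∧
    ∀ (N : ℕ → Finset (ℕ × ℕ)),
      (∀ t, t < m → (N t).card ≤ β) → ∃ j < J, ∃ f : ℕ → ℕ,
        (∀ i < Nm, f i < m) ∧ (∀ i i', i < i' → i' < Nm → f i < f i') ∧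
        ∀ p q, (∃ i < Nm, p ∈ N (f i)) → (∃ i < Nm, q ∈ N (f i)) →
          sd p q ≤ sc j ∨ sc (j + 1) < sd p q := by
  classical
  set J := (2 * β) * (2 * β) + 1 with hJ
  obtain ⟨m, hm⟩ := RamP.ramsey_pairs (Finset (Fin J)) Nm
  refine ⟨J, m, fun G => ?_⟩
  obtain ⟨sc, hsc0, hscS⟩ : ∃ sc : ℕ → ℕ, sc 0 = 0 ∧
      ∀ j, sc (j + 1) = 2 * sc j + G (sc j) + 1 :=
    ⟨fun j => Nat.rec 0 (fun _ x => 2 * x + G x + 1) j, rfl, fun _ => rfl⟩
  have hmono : Monotone sc := monotone_nat_of_le_succ fun j => by rw [hscS]; omega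
  refine ⟨sc, hmono, fun j => by rw [hscS]; omega, ?_⟩
  intro N hN
  -- the index of a distance
  have hidx : ∀ d : ℕ, ∃ i : ℕ, ∀ j, sc j < d → d ≤ sc (j + 1) → i = j := by
    intro d
    by_cases hd : ∃ j, sc j < d ∧ d ≤ sc (j + 1)
    · obtain ⟨j, h1, h2⟩ := hd
      refine ⟨j, fun j' h3 h4 => ?_⟩
      by_contra hne
      rcases Nat.lt_or_gt_of_ne hne with h5 | h5
      · have := hmono (show j + 1 ≤ j' by omega)
        omega
      · have := hmono (show j' + 1 ≤ j by omega)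
        omega
    · exact ⟨0, fun j h1 h2 => absurd ⟨j, h1, h2⟩ hd⟩
  choose idx hidx using hidx
  set U : ℕ → ℕ → Finset (ℕ × ℕ) := fun t t' => N t ∪ N t' with hU
  set I : ℕ → ℕ → Finset ℕ := fun t t' => (U t t' ×ˢ U t t').image (fun pq => idx (sd pq.1 pq.2))
    with hI
  set col : ℕ → ℕ → Finset (Fin J) := fun t t' => Finset.univ.filter (fun j => (j : ℕ) ∈ I t t')
    with hcol
  obtain ⟨f, c, hf1, hf2, hf3⟩ := hm col
  have hcard : ∀ t t', t < m → t' < m → (I t t').card < J := by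
    intro t t' ht ht'
    have h1 : (U t t').card ≤ 2 * β := by
      have h3 := Finset.card_union_le (N t) (N t')
      have h4 := hN t ht
      have h5 := hN t' ht'
      change (N t ∪ N t').card ≤ 2 * β
      omega
    have h2 : (I t t').card ≤ (U t t').card * (U t t').card := by
      refine Finset.card_image_le.trans ?_
      rw [Finset.card_product]
    have h3 := Nat.mul_le_mul h1 h1
    omega
  obtain ⟨j, hj, hjI⟩ : ∃ j < J, j ∉ I (f 0) (f 1) := by
    by_contra hcon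
    push Not at hcon
    have h1 : Finset.range J ⊆ I (f 0) (f 1) := fun j hj => hcon j (Finset.mem_range.1 hj)
    have h2 := Finset.card_le_card h1
    rw [Finset.card_range] at h2
    have h3 := hcard _ _ (hf1 0 (by omega)) (hf1 1 (by omega))
    omega
  have hjc : ∀ i i', i < i' → i' < Nm → j ∉ I (f i) (f i') := by
    intro i i' h1 h2 hcon
    apply hjI
    have h3 : (⟨j, hj⟩ : Fin J) ∈ col (f i) (f i') := Finset.mem_filter.2 ⟨Finset.mem_univ _, hcon⟩
    rw [hf3 i i' h1 h2, ← hf3 0 1 (by omega) (by omega)] at h3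
    exact (Finset.mem_filter.1 h3).2
  refine ⟨j, hj, f, hf1, hf2, ?_⟩
  -- two points of one pair
  have hpair : ∀ i i', i < i' → i' < Nm → ∀ p ∈ U (f i) (f i'), ∀ q ∈ U (f i) (f i'),
      sd p q ≤ sc j ∨ sc (j + 1) < sd p q := by
    intro i i' h1 h2 p hp q hq
    by_contra hcon
    push Not at hcon
    apply hjc i i' h1 h2
    refine Finset.mem_image.2 ⟨(p, q), Finset.mem_product.2 ⟨hp, hq⟩, ?_⟩
    exact hidx _ j hcon.1 hcon.2
  intro p q hp hq
  obtain ⟨i, i', h1, h2, h3, h4⟩ : ∃ i i', i < i' ∧ i' < Nm ∧ p ∈ U (f i) (f i') ∧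
      q ∈ U (f i) (f i') := by
    have hN1 : ∀ t t', ∀ v ∈ N t, v ∈ U t t' := fun t t' v hv => by
      simp only [hU, Finset.mem_union]
      exact Or.inl hv
    have hN2 : ∀ t t', ∀ v ∈ N t', v ∈ U t t' := fun t t' v hv => by
      simp only [hU, Finset.mem_union]
      exact Or.inr hv
    have hone : ∀ i < Nm, ∃ a b, a < b ∧ b < Nm ∧ (i = a ∨ i = b) := by
      intro i hi
      rcases Nat.eq_zero_or_pos i with rfl | h0
      · exact ⟨0, 1, by omega, by omega, Or.inl rfl⟩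
      · exact ⟨0, i, h0, hi, Or.inr rfl⟩
    obtain ⟨a, ha, hp⟩ := hp
    obtain ⟨b, hb, hq⟩ := hq
    rcases Nat.lt_trichotomy a b with h | rfl | h
    · exact ⟨a, b, h, hb, hN1 _ _ _ hp, hN2 _ _ _ hq⟩
    · obtain ⟨c, d, h5, h6, h7⟩ := hone a ha
      refine ⟨c, d, h5, h6, ?_, ?_⟩
      · rcases h7 with rfl | rfl
        · exact hN1 _ _ _ hp
        · exact hN2 _ _ _ hp
      · rcases h7 with rfl | rfl
        · exact hN1 _ _ _ hq
        · exact hN2 _ _ _ hq
    · exact ⟨b, a, h, ha, hN2 _ _ _ hp, hN1 _ _ _ hq⟩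
  exact hpair i i' h1 h2 p h3 q h4

/-- **Cuts far away from all points.** -/
lemma cuts (T : Finset ℕ) (μ q : ℕ) (hq : T.card * (2 * μ + 1) < q) :
    ∃ c < q, ∀ x ∈ T, ∀ i, x + μ < c + q * i ∨ c + q * i + μ < x := by
  classical
  obtain ⟨bad, hbad⟩ : ∃ bad : Finset ℕ, bad = T.biUnion (fun x =>
      (Finset.range (2 * μ + 1)).image (fun e => (x + q * μ + e - μ) % q)) := ⟨_, rfl⟩
  have h1 : bad.card ≤ T.card * (2 * μ + 1) := by
    rw [hbad]
    refine Finset.card_biUnion_le_card_mul _ _ _ fun x _ => ?_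
    exact Finset.card_image_le.trans (by rw [Finset.card_range])
  obtain ⟨c, hc, hcb⟩ : ∃ c ∈ Finset.range q, c ∉ bad := by
    by_contra hcon
    push Not at hcon
    have h2 := Finset.card_le_card (s := Finset.range q) (t := bad) hcon
    rw [Finset.card_range] at h2
    omega
  rw [Finset.mem_range] at hc
  refine ⟨c, hc, fun x hx i => ?_⟩
  by_contra hcon
  push Not at hcon
  obtain ⟨h2, h3⟩ := hcon
  apply hcb
  rw [hbad, Finset.mem_biUnion]
  refine ⟨x, hx, Finset.mem_image.2 ⟨c + q * i + μ - x, Finset.mem_range.2 (by omega), ?_⟩⟩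
  have h4 : x + q * μ + (c + q * i + μ - x) - μ = c + q * (i + μ) := by
    rw [Nat.mul_add]
    omega
  rw [h4, Nat.add_mul_mod_self_left, Nat.mod_eq_of_lt hc]

end DA
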