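import Pool.Agent.DA.CoarseG
import Pool.Agent.DA.LinkScale
import Pool.Agent.DA.LinkDef

/-!
# Blocks of length `q` with an offset
-/

open Set Relation BIC BICS

namespace DA

open Gad

/-- The partition with the cuts `c + q * i`. -/
lemma part_ex {W q c n : ℕ} (hq : 4 ≤ q) (hc : c < q) (hn : 2 ≤ n) (h1 : (n + 1) * q ≤ W)
    (h2 : W < (n + 2) * q) : ∃ lo b : ℕ → ℕ, Part W n lo b ∧
      (∀ i < n, lo i + q ≤ lo (i + 1) ∧ lo (i + 1) ≤ lo i + 3 * q) ∧
      ∀ i, 1 ≤ i → i < n → lo i = c + q * i := by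
  classical
  obtain ⟨lo, hlo⟩ : ∃ lo : ℕ → ℕ, lo = fun i => if i = 0 then 0 else
      if i < n then c + q * i else W := ⟨_, rfl⟩
  have hlo0 : lo 0 = 0 := by
    rw [hlo]
    simp only [if_pos]
  have hloi : ∀ i, 1 ≤ i → i < n → lo i = c + q * i := by
    intro i hi hin
    rw [hlo]
    simp only
    rw [if_neg (by omega), if_pos hin]
  have hlon : lo n = W := by
    rw [hlo]
    simp only
    rw [if_neg (by omega), if_neg (by omega)]
  have hstep : ∀ i < n, lo i + q ≤ lo (i + 1) ∧ lo (i + 1) ≤ lo i + 3 * q := by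
    intro i hi
    by_cases h3 : i + 1 = n
    · rw [h3, hlon]
      have h4 : lo i = c + q * i := hloi i (by omega) (by omega)
      rw [h4]
      have e1 : (n + 1) * q = q * i + 2 * q := by
        rw [← h3]
        ring
      have e2 : (n + 2) * q = q * i + 3 * q := by
        rw [← h3]
        ring
      omega
    · have h4 : lo (i + 1) = c + q * (i + 1) := hloi _ (by omega) (by omega)
      rw [h4, Nat.mul_add, Nat.mul_one]
      by_cases h5 : i = 0
      · subst h5
        rw [hlo0]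
        omega
      · rw [hloi i (by omega) (by omega)]
        omega
  have hmono : ∀ i j, i ≤ j → j ≤ n → lo i ≤ lo j := by
    intro i j hij
    induction j, hij using Nat.le_induction with
    | base => exact fun _ => le_rfl
    | succ j hij ih =>
      intro hj
      have := ih (by omega)
      have := (hstep j (by omega)).1
      omega
  have hb : ∀ x, ∃ b, x < W → b < n ∧ lo b ≤ x ∧ x < lo (b + 1) := by
    intro x
    by_cases hx : x < W
    · have h3 : ∃ j, x < lo j := ⟨n, by rw [hlon]; exact hx⟩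
      obtain ⟨j, hj⟩ : ∃ j, j = Nat.find h3 := ⟨_, rfl⟩
      have h4 : x < lo j := by
        rw [hj]
        exact Nat.find_spec h3
      have h5 : ∀ i < j, ¬ x < lo i := by
        intro i hi
        rw [hj] at hi
        exact Nat.find_min h3 hi
      have h6 : j ≠ 0 := by
        rintro rfl
        rw [hlo0] at h4
        omega
      have h7 : j ≤ n := by
        rw [hj]
        exact Nat.find_le (by rw [hlon]; exact hx)
      refine ⟨j - 1, fun _ => ⟨by omega, ?_, ?_⟩⟩
      · have := h5 (j - 1) (by omega)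
        omega
      · rw [Nat.sub_add_cancel (by omega)]
        exact h4
    · exact ⟨0, fun h => absurd h hx⟩
  choose b hb using hb
  exact ⟨lo, b, ⟨hlo0, hlon, fun i hi => by
    have := (hstep i hi).1
    omega, fun x hx => hb x hx⟩, hstep, hloi⟩

section

variable {W n q : ℕ} {lo b : ℕ → ℕ}

lemma Part.up (h : ∀ i < n, lo i + q ≤ lo (i + 1) ∧ lo (i + 1) ≤ lo i + 3 * q) (i d : ℕ)
    (hd : i + d ≤ n) : lo i + q * d ≤ lo (i + d) ∧ lo (i + d) ≤ lo i + 3 * q * d := by
  induction d with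
  | zero => simp
  | succ d ih =>
    have h1 := ih (by omega)
    have h2 := h (i + d) (by omega)
    rw [show i + (d + 1) = i + d + 1 by omega, Nat.mul_add, Nat.mul_add, Nat.mul_one, Nat.mul_one]
    omega

/-- far apart points are in far apart blocks -/
lemma Part.far (hP : Part W n lo b)
    (h : ∀ i < n, lo i + q ≤ lo (i + 1) ∧ lo (i + 1) ≤ lo i + 3 * q) {x x' M : ℕ} (hx : x < W)
    (hx' : x' < W) (hxx : x + 3 * q * M < x') : b x + M ≤ b x' := by
  obtain ⟨g1, g2, g3⟩ := hP.idx x hx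
  obtain ⟨g4, g5, g6⟩ := hP.idx x' hx'
  by_contra hcon
  push Not at hcon
  by_cases h1 : b x ≤ b x'
  · have h2 := (Part.up h (b x) (b x' + 1 - b x) (by omega)).2
    rw [show b x + (b x' + 1 - b x) = b x' + 1 by omega] at h2
    have h3 : 3 * q * (b x' + 1 - b x) ≤ 3 * q * M := Nat.mul_le_mul le_rfl (by omega)
    omega
  · have h2 := hP.mono (i := b x' + 1) (j := b x) (by omega) (by omega)
    omega

/-- far apart points are in far apart blocks -/
lemma Part.far_left (hP : Part W n lo b)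
    (h : ∀ i < n, lo i + q ≤ lo (i + 1) ∧ lo (i + 1) ≤ lo i + 3 * q) {x M : ℕ} (hx : x < W)
    (hxx : 3 * q * M < x) : M ≤ b x := by
  have := hP.far h (x := 0) (x' := x) (M := M) (by omega) hx (by omega)
  omega

lemma Part.far_right (hP : Part W n lo b)
    (h : ∀ i < n, lo i + q ≤ lo (i + 1) ∧ lo (i + 1) ≤ lo i + 3 * q) {x M : ℕ}
    (hxx : x + 3 * q * M + 1 < W) : b x + M + 1 ≤ n := by
  have h1 := hP.far h (x := x) (x' := W - 1) (M := M) (by omega) (by omega) (by omega)
  have h2 := (hP.idx (W - 1) (by omega)).1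
  omega

/-- depth -/
lemma Part.deep_left (hP : Part W n lo b)
    (h : ∀ i < n, lo i + q ≤ lo (i + 1) ∧ lo (i + 1) ≤ lo i + 3 * q) {x M : ℕ} (hx : x < W)
    (hM : M ≤ b x) : q * M ≤ x := by
  obtain ⟨g1, g2, g3⟩ := hP.idx x hx
  have h1 := (Part.up h 0 (b x) (by omega)).1
  rw [Nat.zero_add, hP.zero] at h1
  have h2 : q * M ≤ q * b x := Nat.mul_le_mul le_rfl hM
  omega

lemma Part.deep_right (hP : Part W n lo b)
    (h : ∀ i < n, lo i + q ≤ lo (i + 1) ∧ lo (i + 1) ≤ lo i + 3 * q) {x M : ℕ} (hx : x < W)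
    (hM : b x + M + 1 ≤ n) : x + q * M < W := by
  obtain ⟨g1, g2, g3⟩ := hP.idx x hx
  have h1 := (Part.up h (b x + 1) (n - (b x + 1)) (by omega)).1
  rw [show b x + 1 + (n - (b x + 1)) = n by omega, hP.last] at h1
  have h2 : q * M ≤ q * (n - (b x + 1)) := Nat.mul_le_mul le_rfl (by omega)
  omega

end

/-! ### Walks -/

section

variable {r r' : ℕ × ℕ → ℕ × ℕ → Prop} {U : Set (ℕ × ℕ)}

lemma Cn.monor {a b : ℕ × ℕ} (h : Cn r U a b) (hr : ∀ p q, r p q → r' p q) : Cn r' U a b := by
  induction h with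
  | refl => exact Cn.refl
  | tail _ h2 ih => exact ih.trans (Cn.step (hr _ _ h2.1) h2.2.1 h2.2.2)

lemma sd_wadj {p q : ℕ × ℕ} (h : wadj p q) : sd p q ≤ 1 := by
  rw [sd_le]
  unfold wadj at h
  omega

/-- **Truncation.** -/
lemma Cn.trunc (hw : ∀ p q, r p q → wadj p q) {l x : ℕ × ℕ} {N : ℕ} (h : Cn r U l x)
    (hx : N ≤ sd x l) : ∃ x', N ≤ sd x' l ∧
      Cn (fun p q => r p q ∧ sd p l ≤ N ∧ sd q l ≤ N) U l x' := by
  have key : (∃ x', N ≤ sd x' l ∧ Cn (fun p q => r p q ∧ sd p l ≤ N ∧ sd q l ≤ N) U l x') ∨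
      (sd x l < N ∧ Cn (fun p q => r p q ∧ sd p l ≤ N ∧ sd q l ≤ N) U l x) := by
    clear hx
    induction h with
    | refl =>
      rcases Nat.eq_zero_or_pos N with h0 | h0
      · exact Or.inl ⟨l, by omega, Cn.refl⟩
      · exact Or.inr ⟨by rw [sd_self]; exact h0, Cn.refl⟩
    | @tail b c _ h2 ih =>
      rcases ih with ih | ⟨h3, h4⟩
      · exact Or.inl ih
      · have h5 : sd c l ≤ sd c b + sd b l := sd_tri
        have h6 := sd_wadj (hw _ _ h2.1)
        rw [sd_comm] at h6
        have h7 : Cn (fun p q => r p q ∧ sd p l ≤ N ∧ sd q l ≤ N) U l c :=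
          h4.trans (Cn.step ⟨h2.1, by omega, by omega⟩ h2.2.1 h2.2.2)
        by_cases h8 : sd c l < N
        · exact Or.inr ⟨h8, h7⟩
        · exact Or.inl ⟨c, by omega, h7⟩
  rcases key with h1 | ⟨h1, _⟩
  · exact h1
  · omega

end

end DA
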