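import Pool.Agent.DA.LinkOut
import Pool.Agent.DA.GlMs

/-!
# The two types of linked gadgets
-/

open Set Relation BIC BICS
open scoped Matroid

namespace DA

open Gad

universe u

/-- the inner statement of `glMs` -/
def GlMsI (k β D s m s' δ : ℕ) : Prop :=
  ∀ {α : Type u} (P : Matroid α) [P.Finite]
    (S : Set α) (ends : α → Sym2 (ℕ × ℕ)) (X : ℕ × ℕ) (n : ℕ) (K : Finset (ℕ × ℕ)),
    Bic P S ends → CWL.GrdU S ends (rect X.1 X.2 n n \ (K : Set (ℕ × ℕ))) →
    ∀ (z : Fin m → α) (N A : Fin m → Finset (ℕ × ℕ)), (∀ t, z t ∈ P.closure S ∧ z t ∉ S) →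
    (∀ t, (N t).card ≤ β ∧ ∀ v ∈ CWL.Loc P S ends (z t), Deep X n D v → v ∈ N t) →
    (∀ t t', ∀ v ∈ N t, ∀ w ∈ N t', sd v w ≤ s ∨ s' < sd v w) →
    (∀ t, A t ⊆ N t ∧ ∀ v ∈ A t, Deep X n δ v) → (∀ v ∈ K, ∃ t, v ∈ A t) →
    (∀ t, ∀ v ∈ K, ∀ w ∈ K, v ∈ A t → w ∈ A t → v = w) →
    (∀ t t', t ≠ t' → ∀ v ∈ A t, ∀ w ∈ N t', s' < sd v w) →
    (∀ t, HasLegs (K : Set (ℕ × ℕ)) (CWL.Loc P S ends (z t)) (A t) s) → HasUniformMinor P k

/-- the inner statement of `glB` -/
def GlBI (k β h D m δ : ℕ) : Prop :=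
  ∀ {α : Type u} (P : Matroid α) [P.Finite] (S : Set α)
    (ends : α → Sym2 (ℕ × ℕ)) (X : ℕ × ℕ) (n : ℕ) (M : Finset (ℕ × ℕ)), Bic P S ends →
    CWL.GrdU S ends (rect X.1 X.2 n n \ (M : Set (ℕ × ℕ))) → M.card ≤ h →
    Spr 3 (M : Set (ℕ × ℕ)) → (∀ v ∈ M, Deep X n 6 v) →
    ∀ (z : Fin m → α) (A : Fin m → Finset (ℕ × ℕ)), (∀ t, z t ∈ P.closure S ∧ z t ∉ S) →
    (∀ t, ∃ N : Finset (ℕ × ℕ), N.card ≤ β ∧ ∀ v ∈ CWL.Loc P S ends (z t), Deep X n D v →
      v ∈ N) →
    (∀ t, 3 ≤ (A t).card ∧ ∀ v ∈ A t, v ∈ CWL.Loc P S ends (z t)) →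
    (∀ t, ∀ v ∈ A t, Deep X n δ v) → (∀ t, ∀ v ∈ A t, ∀ w ∈ M, Apart δ v w) →
    (∀ t t', t ≠ t' → ∀ v ∈ A t, ∀ w ∈ CWL.Loc P S ends (z t'), Apart δ v w) →
    HasUniformMinor P k

lemma stp_cases {j : ℕ} (hj : j < 4) (κ : ℕ × ℕ) : (j = 0 ∧ stp j κ = (κ.1 - 1, κ.2)) ∨
    (j = 1 ∧ stp j κ = (κ.1 + 1, κ.2)) ∨ (j = 2 ∧ stp j κ = (κ.1, κ.2 + 1)) ∨
    (j = 3 ∧ stp j κ = (κ.1, κ.2 - 1)) := by
  unfold stp
  interval_cases j <;> simp

/-- Legs at a missing vertex. -/
lemma legs_at {K Λ : Set (ℕ × ℕ)} {κ : ℕ × ℕ} {T : ℕ → Prop} (hT0 : T 0) (hT3 : ¬ T 3)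
    (hκ : κ ∈ K) (h1 : 1 ≤ κ.1 ∧ 1 ≤ κ.2) (hK : ∀ v ∈ K, sd v κ ≤ 2 → v = κ)
    (hL : ∀ v ∈ Λ, sd v κ ≤ 2 → ∃ j < 4, v = stp j κ) (hin : ∀ d < 4, T d → stp d κ ∈ Λ) :
    Legs K Λ κ 2 T (fun d => if d = 0 then κ else stp d κ) := by
  classical
  have hne : ∀ d < 4, stp d κ ∉ K := by
    intro d hd h2
    have h3 : sd (stp d κ) κ ≤ 1 := CG.stp_sd
    have h4 := hK _ h2 (by omega)
    exact CG.stp_ne h1 h4
  have hreal : ∀ d < 4, real K d (if d = 0 then κ else stp d κ) = stp d κ := by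
    intro d hd
    by_cases h2 : d = 0
    · rw [if_pos h2]
      unfold real
      rw [if_pos hκ]
    · rw [if_neg h2]
      unfold real
      rw [if_neg (hne d hd)]
  refine ⟨?_, ?_, ?_, ?_, ?_, ?_⟩
  · intro d _ _
    split_ifs
    · rw [sd_self]
      omega
    · have h3 : sd (stp d κ) κ ≤ 1 := CG.stp_sd
      omega
  · intro d hd d' hd' hT hT' hne' v hv hv'
    have e3 : d ≠ 3 := fun h => hT3 (by rw [← h]; exact hT)
    have e3' : d' ≠ 3 := fun h => hT3 (by rw [← h]; exact hT')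
    unfold ray stp at hv hv'
    interval_cases d <;> interval_cases d' <;> simp at hv hv' <;> omega
  · intro d hd hT
    rw [hreal d hd]
    exact hin d hd hT
  · intro d hd hT v hv hvs hr
    rw [hreal d hd]
    have e3 : d ≠ 3 := fun h => hT3 (by rw [← h]; exact hT)
    obtain ⟨j, hj, rfl⟩ := hL v hv hvs
    have hdj : d = j := by
      unfold ray at hr
      rcases stp_cases hj κ with ⟨g1, g2⟩ | ⟨g1, g2⟩ | ⟨g1, g2⟩ | ⟨g1, g2⟩ <;>
      rw [g2] at hr <;>
      rcases stp_cases hd κ with ⟨k1, k2⟩ | ⟨k1, k2⟩ | ⟨k1, k2⟩ | ⟨k1, k2⟩ <;>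
      rw [k2] at hr <;> simp [k1] at hr <;> omega
    rw [hdj]
  · intro d hd hT v hv hvs hr
    have e3 : d ≠ 3 := fun h => hT3 (by rw [← h]; exact hT)
    have h2 := hK v hv hvs
    subst h2
    by_cases h3 : d = 0
    · rw [if_pos h3]
    · exfalso
      rw [if_neg h3] at hr
      unfold ray at hr
      rcases stp_cases hd v with ⟨k1, k2⟩ | ⟨k1, k2⟩ | ⟨k1, k2⟩ | ⟨k1, k2⟩ <;>
      rw [k2] at hr <;> simp [k1] at hr <;> omega
  · intro v hv hvs
    exact ⟨0, by omega, hT0, by rw [if_pos rfl]; exact (hK v hv hvs).symm⟩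

/-- The leg to the left at a vertex which is not missing. -/
lemma legs_left {K Λ : Set (ℕ × ℕ)} {c : ℕ × ℕ} (hK : ∀ v ∈ K, ¬ sd v c ≤ 2)
    (hL : ∀ v ∈ Λ, sd v c ≤ 2 → v = c ∨ v = (c.1 + 1, c.2)) (hin : c ∈ Λ) :
    Legs K Λ c 2 (fun d => d = 0) (fun _ => c) := by
  classical
  have hc : c ∉ K := fun h => hK c h (by rw [sd_self]; omega)
  have hreal : ∀ d, real K d c = c := fun d => by
    unfold real
    rw [if_neg hc]
  refine ⟨?_, ?_, ?_, ?_, ?_, ?_⟩
  · intro d _ _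
    rw [sd_self]
    omega
  · intro d _ d' _ hT hT' hne
    exact absurd (hT.trans hT'.symm) hne
  · intro d _ _
    rw [hreal d]
    exact hin
  · intro d _ hT v hv hvs hr
    rw [hreal d]
    rcases hL v hv hvs with h1 | h1
    · exact h1
    · exfalso
      rw [h1] at hr
      unfold ray at hr
      simp only at hT hr
      omega
  · intro d _ _ v hv hvs
    exact absurd hvs (hK v hv)
  · intro v hv hvs
    exact absurd hvs (hK v hv)

namespace Lk

variable {α : Type u} {ι : Type} {P : Matroid α} {S : Set α} {ends : α → Sym2 (ℕ × ℕ)}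
  {w n R D q M : ℕ} {miss : ι → Set (Sym2 (ℕ × ℕ))} {o : ι → ℕ × ℕ} {z : ι → α}
  {Λ : ι → Finset (ℕ × ℕ)} {lx ly bx by' : ℕ → ℕ} {T : Set ι}

lemma sub (h : Lk P S ends w n R D q M miss o z Λ lx ly bx by' T) {T' : Set ι} (hT : T' ⊆ T) :
    Lk P S ends w n R D q M miss o z Λ lx ly bx by' T' :=
  { h with
    mg := fun t p hp => h.mg t p (hp.imp id fun h1 => ⟨hT h1.1, h1.2⟩)
    clB := fun t ht => h.clB t (hT ht) }

/-- **Type 1: no special block.** -/
theorem minor_plain [Finite ι] [P.Finite] {k m δ : ℕ} (hgl : GlBI.{u} k 5 0 10 m δ)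
    (g : Fin m → ι) (hg : Function.Injective g)
    (h : Lk P S ends w n R D q M miss o z Λ lx ly bx by' (range g)) (hM : δ + 12 ≤ M)
    (hty : ∀ i c, ¬ Kp Λ o bx by' (g i) c) : HasUniformMinor P k := by
  classical
  have hM20 := h.hM
  obtain ⟨Z, S', ends', K, G, hB, hG, hK, hz, hinj, hG1, _, _, _⟩ := h.out
  have hPZ : (P ／ Z).Finite := BQ.fin_contract Z
  have hK0 : K = ∅ := by
    refine Finset.eq_empty_of_forall_notMem fun c hc => ?_
    obtain ⟨t, ⟨i, rfl⟩, h1⟩ := (hK c).1 hc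
    exact hty i c h1
  subst hK0
  -- the base of a location
  have hbase : ∀ i, ∀ l ∈ Λ (g i), (cnt Λ bx by' (g i) (bl bx by' l)).Nonempty := fun i l hl =>
    ⟨l, mem_cnt.2 ⟨hl, rfl⟩⟩
  have hdeep : ∀ i, ∀ l ∈ Λ (g i), DeepR (0, 0) n n (M - 1) (G l) := by
    intro i l hl
    have h1 := h.blk_deep (mem_range_self i) (hbase i l hl)
    have h2 := hG1 l
    rw [sd_le] at h2
    unfold DeepR at h1 ⊢
    simp only at h1 ⊢
    omega
  have hloc : ∀ i, ∀ c, DeepR (0, 0) n n 10 c →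
      (c ∈ CWL.Loc (P ／ Z) S' ends' (z (g i)) ↔ ∃ l ∈ Λ (g i), G l = c) := fun i c hc =>
    (hz (g i) (mem_range_self i)).2.2 c hc (Finset.notMem_empty _)
  have hcard : ∀ i, ((Λ (g i)).image G).card = (Λ (g i)).card := fun i =>
    Finset.card_image_of_injOn fun l hl l' hl' hll =>
      hinj (g i) (mem_range_self i) l hl l' hl' hll
  refine HasUniformMinor_mono (hgl (P ／ Z) S' ends' (0, 0) n ∅ hB hG (by simp) ?_ ?_
    (fun i => z (g i)) (fun i => (Λ (g i)).image G) ?_ ?_ ?_ ?_ ?_ ?_) (con_minor P Z)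
  · intro v hv
    exact absurd hv (by simp)
  · intro v hv
    exact absurd hv (by simp)
  · intro i
    have h1 := hz (g i) (mem_range_self i)
    exact ⟨h1.1, h1.2.1⟩
  · intro i
    refine ⟨(Λ (g i)).image G, ?_, ?_⟩
    · have h1 := (h.card (g i)).2
      rw [hcard]
      omega
    · intro v hv hvd
      obtain ⟨l, hl, hlv⟩ := (hloc i v hvd).1 hv
      exact Finset.mem_image.2 ⟨l, hl, hlv⟩
  · intro i
    refine ⟨by rw [hcard]; exact (h.card (g i)).1, ?_⟩
    intro v hv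
    obtain ⟨l, hl, rfl⟩ := Finset.mem_image.1 hv
    refine (hloc i _ ?_).2 ⟨l, hl, rfl⟩
    have h1 := hdeep i l hl
    unfold DeepR at h1 ⊢
    simp only at h1 ⊢
    omega
  · intro i v hv
    obtain ⟨l, hl, rfl⟩ := Finset.mem_image.1 hv
    have h1 := hdeep i l hl
    unfold DeepR at h1
    unfold Deep
    simp only at h1 ⊢
    omega
  · intro i v _ w' hw'
    exact absurd hw' (Finset.notMem_empty _)
  · intro i i' hii v hv w' hw'
    obtain ⟨l, hl, rfl⟩ := Finset.mem_image.1 hv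
    have h1 := hdeep i l hl
    obtain ⟨e, he, hwe⟩ := loc_end (hz (g i') (mem_range_self i')).1 hw'
    have h2 := (grd_end hG he hwe).1
    rw [Gad.mem_rct] at h2
    by_cases h3 : DeepR (0, 0) n n 10 w'
    · obtain ⟨l', hl', rfl⟩ := (hloc i' w' h3).1 hw'
      have hne : bl bx by' l ≠ bl bx by' l' := by
        intro h4
        have h5 := hbase i l hl
        rw [h4] at h5
        exact hii (hg (h.same h5 (hbase i' l' hl')))
      have h4 := h.blk_far (mem_range_self i) (hbase i l hl) (hbase i' l' hl') hne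
      have h5 : sd (bl bx by' l) (bl bx by' l') ≤ sd (bl bx by' l) (G l) +
        sd (G l) (bl bx by' l') := sd_tri
      have h6 : sd (G l) (bl bx by' l') ≤ sd (G l) (G l') + sd (G l') (bl bx by' l') := sd_tri
      have h7 := hG1 l
      have h8 := hG1 l'
      rw [sd_comm] at h7
      rw [apart_iff]
      omega
    · unfold DeepR at h1 h3
      unfold Apart
      simp only at h1 h3 h2
      omega

/-- **Type 2: a special block.** -/
theorem minor_K [Finite ι] [P.Finite] {k m s' δ : ℕ} (hgl : GlMsI.{u} k 5 10 2 m s' δ)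
    (g : Fin m → ι) (hg : Function.Injective g)
    (h : Lk P S ends w n R D q M miss o z Λ lx ly bx by' (range g)) (hM : δ + s' + 12 ≤ M)
    (hty : ∀ i, ∃ c, Kp Λ o bx by' (g i) c) : HasUniformMinor P k := by
  classical
  have hM20 := h.hM
  obtain ⟨Z, S', ends', K, G, hB, hG, hK, hz, hinj, hG1, hd, hnK, hstay⟩ := h.out
  have hPZ : (P ／ Z).Finite := BQ.fin_contract Z
  choose κ hκ using hty
  have hbase : ∀ i, ∀ l ∈ Λ (g i), (cnt Λ bx by' (g i) (bl bx by' l)).Nonempty := fun i l hl =>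
    ⟨l, mem_cnt.2 ⟨hl, rfl⟩⟩
  have hloc : ∀ i, ∀ c, DeepR (0, 0) n n 10 c → c ∉ K →
      (c ∈ CWL.Loc (P ／ Z) S' ends' (z (g i)) ↔ ∃ l ∈ Λ (g i), G l = c) := fun i =>
    (hz (g i) (mem_range_self i)).2.2
  have hnotK : ∀ i, ∀ v ∈ CWL.Loc (P ／ Z) S' ends' (z (g i)), v ∉ K := by
    intro i v hv
    obtain ⟨e, he, hve⟩ := loc_end (hz (g i) (mem_range_self i)).1 hv
    exact (grd_end hG he hve).2
  have hκd : ∀ i, DeepR (0, 0) n n M (κ i) := fun i =>
    h.blk_deep (mem_range_self i) (hκ i).ne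
  have hκK : ∀ i, κ i ∈ K := fun i => (hK _).2 ⟨g i, mem_range_self i, hκ i⟩
  -- every element of `K` near a block with locations of `g i` is this block
  have hKnear : ∀ i, ∀ c, (cnt Λ bx by' (g i) c).Nonempty → ∀ v ∈ K, sd v c ≤ 5 → v = c := by
    intro i c hc v hv hvc
    obtain ⟨t, ht, h1⟩ := (hK v).1 hv
    by_contra hne
    have h2 := h.blk_far ht h1.ne hc hne
    omega
  -- locations near a block with locations of `g i` come from this block
  have hLnear : ∀ i, ∀ c, (cnt Λ bx by' (g i) c).Nonempty →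
      ∀ v ∈ CWL.Loc (P ／ Z) S' ends' (z (g i)), sd v c ≤ 2 →
        ∃ l ∈ cnt Λ bx by' (g i) c, G l = v := by
    intro i c hc v hv hvc
    have h1 := h.blk_deep (mem_range_self i) hc
    have h2 : DeepR (0, 0) n n 10 v := by
      rw [sd_le] at hvc
      unfold DeepR at h1 ⊢
      simp only at h1 ⊢
      omega
    obtain ⟨l, hl, hlv⟩ := (hloc i v h2 (hnotK i v hv)).1 hv
    refine ⟨l, mem_cnt.2 ⟨hl, ?_⟩, hlv⟩
    by_contra hne
    have h3 := h.blk_far (mem_range_self i) (hbase i l hl) hc hne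
    have h4 : sd (bl bx by' l) c ≤ sd (bl bx by' l) (G l) + sd (G l) c := sd_tri
    have h5 := hG1 l
    rw [sd_comm] at h5
    rw [hlv] at h4 h5
    omega
  -- and back
  have hLin : ∀ i, ∀ l ∈ Λ (g i), G l ∈ CWL.Loc (P ／ Z) S' ends' (z (g i)) := by
    intro i l hl
    have h1 := h.blk_deep (mem_range_self i) (hbase i l hl)
    have h2 := hG1 l
    refine (hloc i _ ?_ ?_).2 ⟨l, hl, rfl⟩
    · rw [sd_le] at h2
      unfold DeepR at h1 ⊢
      simp only at h1 ⊢
      omega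
    · intro h3
      have h4 := hKnear i _ (hbase i l hl) _ h3 (by omega)
      -- `G l = bl l` is in `K`, so the block is split and `G l` is a neighbour
      obtain ⟨t, ht, h5⟩ := (hK _).1 h3
      rw [h4] at h5
      have h6 := h.same h5.ne (hbase i l hl)
      rw [h6] at h5
      obtain ⟨d, _, h7⟩ := hd (g i) (mem_range_self i) _ h5
      have h8 := (h7 l (mem_cnt.2 ⟨hl, rfl⟩)).2
      rw [h4] at h8
      unfold DeepR at h1
      simp only at h1
      exact CG.stp_ne (d := d l) (v := bl bx by' l) (by omega) h8.symm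
  -- the legs
  have hlegs : ∀ i, ∃ c, (c = κ i ∨ ((cnt Λ bx by' (g i) c).Nonempty ∧
      ¬ Kp Λ o bx by' (g i) c)) ∧ HasLegs (K : Set (ℕ × ℕ))
        (CWL.Loc (P ／ Z) S' ends' (z (g i))) {κ i, c} 2 := by
    intro i
    obtain ⟨d, hdinj, hdl⟩ := hd (g i) (mem_range_self i) _ (hκ i)
    have hk4 : (cnt Λ bx by' (g i) (κ i)).card ≤ 4 :=
      (Finset.card_filter_le _ _).trans (h.card (g i)).2
    have hκ1 := hκd i
    unfold DeepR at hκ1
    simp only at hκ1
    -- all directions below the number of locations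
    have hdir : ∀ j < (cnt Λ bx by' (g i) (κ i)).card,
        stp j (κ i) ∈ CWL.Loc (P ／ Z) S' ends' (z (g i)) := by
      intro j hj
      have h1 : (cnt Λ bx by' (g i) (κ i)).image d =
          Finset.range (cnt Λ bx by' (g i) (κ i)).card := by
        refine Finset.eq_of_subset_of_card_le ?_ ?_
        · intro x hx
          obtain ⟨l, hl, rfl⟩ := Finset.mem_image.1 hx
          exact Finset.mem_range.2 (hdl l hl).1
        · rw [Finset.card_image_of_injOn hdinj, Finset.card_range]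
      obtain ⟨l, hl, hlj⟩ := Finset.mem_image.1 (by rw [h1]; exact Finset.mem_range.2 hj :
        j ∈ (cnt Λ bx by' (g i) (κ i)).image d)
      rw [← hlj, ← (hdl l hl).2]
      exact hLin i l (mem_cnt.1 hl).1
    have hL4 : ∀ v ∈ CWL.Loc (P ／ Z) S' ends' (z (g i)), sd v (κ i) ≤ 2 →
        ∃ j < 4, v = stp j (κ i) := by
      intro v hv hvs
      obtain ⟨l, hl, hlv⟩ := hLnear i _ (hκ i).ne v hv hvs
      obtain ⟨g1, g2⟩ := hdl l hl
      exact ⟨d l, by omega, by rw [← hlv]; exact g2⟩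
    have hK2 : ∀ v ∈ (K : Set (ℕ × ℕ)), sd v (κ i) ≤ 2 → v = κ i := fun v hv hvs =>
      hKnear i _ (hκ i).ne v hv (by omega)
    by_cases h3 : 3 ≤ (cnt Λ bx by' (g i) (κ i)).card
    · refine ⟨κ i, Or.inl rfl, Or.inl ⟨κ i, by simp, 3, by omega, _,
        legs_at (T := fun d => d ≠ 3) (by omega) (by omega) (hκK i) (by omega) hK2 hL4 ?_⟩⟩
      intro j hj hj3
      exact hdir j (by omega)
    · have h2 := (hκ i).two
      obtain ⟨l₁, hl₁, hl₁'⟩ : ∃ l₁ ∈ Λ (g i), l₁ ∉ cnt Λ bx by' (g i) (κ i) := by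
        by_contra hcon
        push Not at hcon
        have h4 := Finset.card_le_card (s := Λ (g i)) (t := cnt Λ bx by' (g i) (κ i)) hcon
        have h5 := (h.card (g i)).1
        omega
      obtain ⟨c, hc⟩ : ∃ c, c = bl bx by' l₁ := ⟨_, rfl⟩
      have hcne : (cnt Λ bx by' (g i) c).Nonempty := by
        rw [hc]
        exact hbase i l₁ hl₁
      have hcκ : c ≠ κ i := fun h4 => hl₁' (mem_cnt.2 ⟨hl₁, by rw [← hc]; exact h4⟩)
      have hcK : ¬ Kp Λ o bx by' (g i) c := fun h4 => hcκ (Kp.uniq h h4 (hκ i))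
      have hfar := h.blk_far (mem_range_self i) (hκ i).ne hcne hcκ.symm
      refine ⟨c, Or.inr ⟨hcne, hcK⟩, Or.inr ⟨κ i, by simp, c, by simp, by omega, ⟨_,
        legs_at (T := fun d => d = 0 ∨ d = 1) (Or.inl rfl) (by omega) (hκK i) (by omega) hK2
          hL4 ?_⟩, ⟨_, legs_left ?_ ?_ ?_⟩⟩⟩
      · intro j hj hj3
        exact hdir j (by omega)
      · intro v hv hvs
        have h4 := hKnear i _ hcne v hv (by omega)
        obtain ⟨t, ht, h5⟩ := (hK _).1 hv
        rw [h4] at h5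
        have h6 := h.same h5.ne hcne
        rw [h6] at h5
        exact hcK h5
      · intro v hv hvs
        obtain ⟨l, hl, hlv⟩ := hLnear i _ hcne v hv hvs
        obtain ⟨g1, g2⟩ := mem_cnt.1 hl
        have g3 := hnK (g i) (mem_range_self i) l g1 (by rw [g2]; exact hcK)
        rw [g2, hlv] at g3
        exact g3
      · obtain ⟨l, hl, hlc⟩ := hstay (g i) (mem_range_self i) c hcne hcK
        have := hLin i l (mem_cnt.1 hl).1
        rw [hlc] at this
        exact this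
  choose c hc hlg using hlegs
  -- bases of the points of `N`
  have hcne : ∀ i, (cnt Λ bx by' (g i) (c i)).Nonempty := by
    intro i
    rcases hc i with h1 | h1
    · rw [h1]
      exact (hκ i).ne
    · exact h1.1
  have hN : ∀ i, ∀ v ∈ insert (κ i) ((Λ (g i)).image G), ∃ b,
      (cnt Λ bx by' (g i) b).Nonempty ∧ sd v b ≤ 1 := by
    intro i v hv
    rw [Finset.mem_insert] at hv
    rcases hv with rfl | hv
    · exact ⟨_, (hκ i).ne, by rw [sd_self]; omega⟩
    · obtain ⟨l, hl, rfl⟩ := Finset.mem_image.1 hv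
      exact ⟨_, hbase i l hl, hG1 l⟩
  have hcN : ∀ i, c i ∈ insert (κ i) ((Λ (g i)).image G) := by
    intro i
    rw [Finset.mem_insert]
    rcases hc i with h1 | h1
    · exact Or.inl h1
    · obtain ⟨l, hl, hlc⟩ := hstay (g i) (mem_range_self i) _ h1.1 h1.2
      exact Or.inr (Finset.mem_image.2 ⟨l, (mem_cnt.1 hl).1, hlc⟩)
  have hdist : ∀ i i' : Fin m, ∀ v b v' b', (cnt Λ bx by' (g i) b).Nonempty → sd v b ≤ 1 →
      (cnt Λ bx by' (g i') b').Nonempty → sd v' b' ≤ 1 → b ≠ b' → s' < sd v v' := by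
    intro i i' v b v' b' h1 h2 h3 h4 hbb
    have h5 := h.blk_far (mem_range_self i) h1 h3 hbb
    have h6 : sd b b' ≤ sd b v + sd v b' := sd_tri
    have h7 : sd v b' ≤ sd v v' + sd v' b' := sd_tri
    rw [sd_comm] at h2
    omega
  have hA : ∀ i, ∀ v ∈ ({κ i, c i} : Finset (ℕ × ℕ)), (cnt Λ bx by' (g i) v).Nonempty := by
    intro i v hv
    rw [Finset.mem_insert, Finset.mem_singleton] at hv
    rcases hv with rfl | rfl
    · exact (hκ i).ne
    · exact hcne i
  refine HasUniformMinor_mono (hgl (P ／ Z) S' ends' (0, 0) n K hB hG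
    (fun i => z (g i)) (fun i => insert (κ i) ((Λ (g i)).image G)) (fun i => {κ i, c i})
    ?_ ?_ ?_ ?_ ?_ ?_ ?_ hlg) (con_minor P Z)
  · intro i
    have h1 := hz (g i) (mem_range_self i)
    exact ⟨h1.1, h1.2.1⟩
  · intro i
    refine ⟨?_, ?_⟩
    · have h1 := Finset.card_insert_le (κ i) ((Λ (g i)).image G)
      have h2 : ((Λ (g i)).image G).card ≤ (Λ (g i)).card := Finset.card_image_le
      have h3 := (h.card (g i)).2
      omega
    · intro v hv hvd
      obtain ⟨l, hl, hlv⟩ := (hloc i v hvd (hnotK i v hv)).1 hv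
      exact Finset.mem_insert_of_mem (Finset.mem_image.2 ⟨l, hl, hlv⟩)
  · intro i i' v hv v' hv'
    obtain ⟨b, h1, h2⟩ := hN i v hv
    obtain ⟨b', h3, h4⟩ := hN i' v' hv'
    by_cases hbb : b = b'
    · left
      have h6 : sd v v' ≤ sd v b + sd b v' := sd_tri
      rw [← hbb, sd_comm] at h4
      omega
    · exact Or.inr (hdist i i' v b v' b' h1 h2 h3 h4 hbb)
  · intro i
    refine ⟨?_, ?_⟩
    · intro v hv
      rw [Finset.mem_insert, Finset.mem_singleton] at hv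
      rcases hv with rfl | rfl
      · exact Finset.mem_insert_self _ _
      · exact hcN i
    · intro v hv
      have h1 := h.blk_deep (mem_range_self i) (hA i v hv)
      unfold DeepR at h1
      unfold Deep
      simp only at h1 ⊢
      omega
  · intro v hv
    obtain ⟨t, ⟨i, rfl⟩, h1⟩ := (hK v).1 hv
    refine ⟨i, ?_⟩
    rw [Kp.uniq h h1 (hκ i)]
    exact Finset.mem_insert_self _ _
  · have key : ∀ i, ∀ v ∈ K, v ∈ ({κ i, c i} : Finset (ℕ × ℕ)) → v = κ i := by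
      intro i v hv hvA
      obtain ⟨t, ht, h1⟩ := (hK v).1 hv
      have h2 := h.same h1.ne (hA i v hvA)
      rw [h2] at h1
      exact Kp.uniq h h1 (hκ i)
    intro i v hv v' hv' hvA hvA'
    rw [key i v hv hvA, key i v' hv' hvA']
  · intro i i' hii v hv v' hv'
    obtain ⟨b', h3, h4⟩ := hN i' v' hv'
    refine hdist i i' v v v' b' (hA i v hv) (by rw [sd_self]; omega) h3 h4 ?_
    intro hbb
    rw [← hbb] at h3
    exact hii (hg (h.same (hA i v hv) h3))

end Lk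

end DA
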