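import Pool.Agent.DA.LinkOm

/-!
# Local holes of an exact wall: fullness, ranks, circuits
-/

open Set BIC BICS
open scoped Matroid

namespace DA

open Gad

universe u

/-- Everything which is reached from a full set is full. -/
lemma full_reach {α V : Type*} {S : Set α} {ends : α → Sym2 V} {U' : Set V} (hU' : U'.Finite) :
    ∀ (n : ℕ) (U : Set V) (F : Set α), (U' \ U).ncard = n → U ⊆ U' → FullB S ends U F →
      (∀ v ∈ U', ∃ w ∈ U, Relation.ReflTransGen
        (fun x y => GAdj S ends x y ∧ x ∈ U' ∧ y ∈ U') w v) → ∃ F', FullB S ends U' F' := by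
  intro n
  induction n with
  | zero =>
    intro U F hn hUU hF _
    have h0 : U' \ U = ∅ := (ncard_eq_zero (hU'.subset sdiff_subset)).1 hn
    have h1 : U = U' := Subset.antisymm hUU (by
      intro v hv
      by_contra hcon
      have : v ∈ U' \ U := ⟨hv, hcon⟩
      rw [h0] at this
      exact this)
    exact ⟨F, h1 ▸ hF⟩
  | succ n ih =>
    intro U F hn hUU hF hr
    have hne : (U' \ U).Nonempty := by
      rw [← ncard_pos (hU'.subset sdiff_subset)]
      omega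
    obtain ⟨b, hbU', hbU⟩ := hne
    obtain ⟨a, haU, hab⟩ := hr b hbU'
    obtain ⟨x, hx, y, hy, ⟨f, hf, hfe⟩, hxA, hyA⟩ := exit hab haU hbU
    have hF' := hF.insert hx hy hf hfe
    refine ih (insert y U) (insert f F) ?_ (insert_subset hyA hUU) hF' ?_
    · have e1 : U' \ insert y U = (U' \ U) \ {y} := by
        ext v
        simp only [mem_sdiff, mem_insert_iff, mem_singleton_iff]
        tauto
      have hyAU : y ∈ U' \ U := ⟨hyA, hy⟩
      rw [e1, ncard_sdiff_singleton_of_mem hyAU]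
      omega
    · intro v hv
      obtain ⟨w, hw, hwv⟩ := hr v hv
      exact ⟨w, Or.inr hw, hwv⟩

section

variable {α : Type*} {P : Matroid α} {S : Set α} {row : α → Sym2 (ℕ × ℕ)} {w : ℕ}

/-- to the right nothing is missing -/
def RunR (ω : Set (Sym2 (ℕ × ℕ))) (T : Set (ℕ × ℕ)) (x y : ℕ) : Prop :=
  ∀ x', x ≤ x' → (x' + 1, y) ∉ T ∧ s((x', y), (x' + 1, y)) ∉ ω

/-- to the left nothing is missing -/
def RunL (ω : Set (Sym2 (ℕ × ℕ))) (T : Set (ℕ × ℕ)) (x y : ℕ) : Prop :=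
  ∀ x', x' < x → (x', y) ∉ T ∧ s((x', y), (x' + 1, y)) ∉ ω

/-- **A wall with a local hole is full** if every vertex has a free way. -/
theorem full_local {c : Set α} (hW : WallE c row w ∅) {o : ℕ × ℕ} {ρ : ℕ}
    (hd : ρ + 4 ≤ o.1 ∧ o.1 + ρ + 5 ≤ w ∧ ρ + 4 ≤ o.2 ∧ o.2 + ρ + 5 ≤ w)
    {ω : Set (Sym2 (ℕ × ℕ))} {T : Set (ℕ × ℕ)}
    (hω : ∀ p q, s(p, q) ∈ ω → sd p o ≤ ρ ∧ sd q o ≤ ρ) (hT : ∀ v ∈ T, sd v o ≤ ρ)
    (hesc : ∀ x y, sd (x, y) o ≤ ρ → (x, y) ∉ T → RunR ω T x y ∨ RunL ω T x y ∨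
      (s((x, y), vn (x, y)) ∉ ω ∧ vn (x, y) ∉ T ∧ RunR ω T x (vn (x, y)).2)) :
    ∃ F, FullB {e | e ∈ c ∧ row e ∉ ω} row (rect 0 0 (w + 1) (w + 1) \ T) F := by
  classical
  have hmem : ∀ a b, (a, b) ∈ rect 0 0 (w + 1) (w + 1) ↔ a ≤ w ∧ b ≤ w := by
    intro a b
    rw [Gad.mem_rct]
    simp only
    omega
  have hadj : ∀ p q, wadj p q → p ∈ rect 0 0 (w + 1) (w + 1) → q ∈ rect 0 0 (w + 1) (w + 1) →
      s(p, q) ∉ ω → GAdj {e | e ∈ c ∧ row e ∉ ω} row p q := by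
    intro p q hpq hp hq hm
    obtain ⟨e, he, hee⟩ := hW.surj p q hpq hp hq (notMem_empty _)
    exact ⟨e, ⟨he, by rw [hee]; exact hm⟩, hee⟩
  have hs : ∀ p q, GAdj {e | e ∈ c ∧ row e ∉ ω} row p q →
      GAdj {e | e ∈ c ∧ row e ∉ ω} row q p := fun p q h => h.symm
  obtain ⟨Q, hQd⟩ : ∃ Q : Set ((ℕ × ℕ) × ℕ), Q = {(o, ρ)} := ⟨_, rfl⟩
  have hQ : HQ w Q := by
    rw [hQd]
    refine ⟨?_, ?_⟩
    · intro q hq
      rw [mem_singleton_iff] at hq
      subst hq
      dsimp only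
      omega
    · intro q hq q' hq' hne
      rw [mem_singleton_iff] at hq hq'
      exact absurd (hq.trans hq'.symm) hne
  have hbx : ∀ v, v ∈ BX Q ↔ sd v o ≤ ρ := by
    intro v
    rw [hQd]
    constructor
    · rintro ⟨q, hq, h1⟩
      rw [mem_singleton_iff] at hq
      subst hq
      exact h1
    · exact fun h1 => ⟨_, mem_singleton _, h1⟩
  obtain ⟨F, hF⟩ := wall_rects (S := {e | e ∈ c ∧ row e ∉ ω}) (ends := row) (w := w) (by omega)
    (BX Q) (fun v hv => by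
      have := hQ.bd hv
      omega) (by
      rintro x y h1 h2
      rw [hbx, sd_le] at h1 h2
      simp only at h1 h2
      refine ⟨?_, ?_, ?_⟩ <;> rw [hbx, sd_le] <;> simp only <;> omega) (by
      intro p q hpq hp hq
      obtain ⟨e, he, hee⟩ := hadj p q hpq hp.1 hq.1 (fun h1 => hp.2 ((hbx p).2 (hω p q h1).1))
      exact ⟨e, he, hee⟩)
  refine full_reach ((Gad.rect_finite _ _ _ _).subset sdiff_subset) _ _ F rfl ?_ hF ?_
  · rintro v ⟨hv, hvb⟩
    exact ⟨hv, fun h1 => hvb ((hbx v).2 (hT v h1))⟩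
  -- the ways
  have hR : ∀ x y, x ≤ o.1 + ρ + 1 → y ≤ w → (x, y) ∉ T → RunR ω T x y →
      Cn (GAdj {e | e ∈ c ∧ row e ∉ ω} row) (rect 0 0 (w + 1) (w + 1) \ T) (o.1 + ρ + 1, y)
        (x, y) := by
    intro x y hx hy hxT hrun
    refine crow_conn hs (x₀ := x) (x₁ := o.1 + ρ + 2) ?_ (by omega) (by omega) (by omega)
      (by omega)
    intro x' h1 h2
    refine ⟨⟨(hmem _ _).2 (by omega), ?_⟩, fun h3 => hadj _ _ wadj_r ((hmem _ _).2 (by omega))
      ((hmem _ _).2 (by omega)) (hrun x' h1).2⟩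
    rcases Nat.eq_or_lt_of_le h1 with rfl | h4
    · exact hxT
    · have h5 := (hrun (x' - 1) (by omega)).1
      have h6 : x' - 1 + 1 = x' := by omega
      rwa [h6] at h5
  have hL : ∀ x y, o.1 - ρ - 1 ≤ x → x ≤ w → y ≤ w → (x, y) ∉ T → RunL ω T x y →
      Cn (GAdj {e | e ∈ c ∧ row e ∉ ω} row) (rect 0 0 (w + 1) (w + 1) \ T) (o.1 - ρ - 1, y)
        (x, y) := by
    intro x y hx hxw hy hxT hrun
    refine crow_conn hs (x₀ := o.1 - ρ - 1) (x₁ := x + 1) ?_ (by omega) (by omega) (by omega)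
      (by omega)
    intro x' h1 h2
    refine ⟨⟨(hmem _ _).2 (by omega), ?_⟩, fun h3 => hadj _ _ wadj_r ((hmem _ _).2 (by omega))
      ((hmem _ _).2 (by omega)) (hrun x' (by omega)).2⟩
    rcases Nat.eq_or_lt_of_le (Nat.lt_succ_iff.1 h2) with rfl | h4
    · exact hxT
    · exact (hrun x' h4).1
  rintro ⟨x, y⟩ ⟨hv, hvT⟩
  rw [hmem] at hv
  by_cases hvb : (x, y) ∈ BX Q
  · rw [hbx] at hvb
    have hvb' := hvb
    rw [sd_le] at hvb'
    simp only at hvb'
    have hout : ∀ y', (o.1 + ρ + 1, y') ∉ BX Q := by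
      intro y' h1
      rw [hbx, sd_le] at h1
      simp only at h1
      omega
    rcases hesc x y hvb hvT with h1 | h1 | ⟨h1, h2, h3⟩
    · exact ⟨(o.1 + ρ + 1, y), ⟨(hmem _ _).2 (by omega), hout y⟩, hR x y (by omega) (by omega) hvT h1⟩
    · refine ⟨(o.1 - ρ - 1, y), ⟨(hmem _ _).2 (by omega), ?_⟩,
        hL x y (by omega) (by omega) (by omega) hvT h1⟩
      rw [hbx, sd_le]
      simp only
      omega
    · obtain ⟨⟨x', y'⟩, hvn⟩ : ∃ v', vn (x, y) = v' := ⟨_, rfl⟩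
      have h4 := vn_cases (x, y)
      rw [hvn] at h1 h2 h3 h4
      simp only [Prod.mk.injEq] at h4
      dsimp only at h3
      have hx' : x' = x := by omega
      have hy' : y' ≤ w := by omega
      subst hx'
      have hwa : wadj (x', y) (x', y') := by
        unfold wadj
        dsimp only
        omega
      refine ⟨(o.1 + ρ + 1, y'), ⟨(hmem _ _).2 (by omega), hout y'⟩,
        (hR x' y' (by omega) hy' h2 h3).trans (Cn.step (hs _ _ (hadj _ _ hwa
          ((hmem _ _).2 (by omega)) ((hmem _ _).2 (by omega)) h1)) ?_ ?_)⟩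
      · exact ⟨(hmem _ _).2 (by omega), h2⟩
      · exact ⟨(hmem _ _).2 (by omega), hvT⟩
  · exact ⟨(x, y), ⟨(hmem _ _).2 hv, hvb⟩, Relation.ReflTransGen.refl⟩

/-- the rank of the rows off `ω` without the representatives at `T` -/
lemma RWx.rk_hole [P.Finite] (h : RWx P S row w) {c : Set α} (hc : c ⊆ S) (hW : WallE c row w ∅)
    {ω : Set (Sym2 (ℕ × ℕ))} {T : Set (ℕ × ℕ)} {F : Set α}
    (hF : FullB {e | e ∈ c ∧ row e ∉ ω} row (rect 0 0 (w + 1) (w + 1) \ T) F) :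
    rk P ((S \ {e | row e ∈ ω}) \ {e | e ∈ c ∧ ∃ v ∈ T, v ∈ row e}) =
      ((S \ {e | row e ∈ ω}) \ c).ncard + (rect 0 0 (w + 1) (w + 1) \ T).ncard := by
  have h1 : (S \ {e | row e ∈ ω}) \ {e | e ∈ c ∧ ∃ v ∈ T, v ∈ row e} =
      ((S \ {e | row e ∈ ω}) \ c) ∪ {e | e ∈ c ∧ row e ∉ ω ∧ ∀ v ∈ T, v ∉ row e} := by
    ext e
    constructor
    · rintro ⟨h1, h2⟩
      by_cases h3 : e ∈ c
      · exact Or.inr ⟨h3, h1.2, fun v hv hve => h2 ⟨h3, v, hv, hve⟩⟩
      · exact Or.inl ⟨h1, h3⟩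
    · rintro (⟨h1, h2⟩ | ⟨h1, h2, h3⟩)
      · exact ⟨h1, fun h3 => h2 h3.1⟩
      · exact ⟨⟨hc h1, h2⟩, fun h4 => by
          obtain ⟨_, v, hv, hve⟩ := h4
          exact h3 v hv hve⟩
  rw [h1]
  refine h.rk_full hc hW (fun e he => ⟨he.1.1, he.2⟩) (fun e he => he.1) ?_
    ((Gad.rect_finite _ _ _ _).subset sdiff_subset) ?_ (fullB_sub hF ?_)
  · rintro e ⟨he, he2, he3⟩ e' he' hee
    by_cases h3 : e' ∈ c
    · exact Or.inl ⟨h3, by rw [hee]; exact ⟨he2, he3⟩⟩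
    · exact Or.inr ⟨⟨he', fun h4 => he2 (by rw [← hee]; exact h4)⟩, h3⟩
  · rintro e ⟨he, _, he3⟩ v hv
    exact ⟨wall_mem hW he hv, fun hvT => he3 v hvT hv⟩
  · intro e he hU
    exact ⟨he.1, he.2, fun v hv hve => (hU v hve).2 hv⟩

/-- Decoupling of two partial holes at far apart boxes. -/
theorem RWx.dec2 [P.Finite] (h : RWx P S row w) (hw : 4 ≤ w) {Q₁ Q₂ : Set ((ℕ × ℕ) × ℕ)}
    (hQ : HQ w (Q₁ ∪ Q₂)) (hd : Disjoint Q₁ Q₂) {D₁ D₂ : Set α}
    (hD₁ : D₁ ⊆ RS S row (BX Q₁)) (hD₂ : D₂ ⊆ RS S row (BX Q₂)) :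
    rk P (S \ D₁) + rk P (S \ D₂) ≤ rk P S + rk P ((S \ D₁) \ D₂) := by
  have h1 := h.dec_bx hw hQ hd hD₂
  have hdis := rs_disj h.toRWal hQ hd
  have h2 := rk_submod P (S \ RS S row (BX Q₁)) ((S \ D₁) \ D₂)
  have h3 : rk P (S \ D₁) ≤ rk P ((S \ RS S row (BX Q₁)) ∪ ((S \ D₁) \ D₂)) := by
    refine rk_mono P ?_
    rintro e ⟨he, he1⟩
    by_cases h4 : e ∈ D₂
    · exact Or.inl ⟨he, fun h5 => Set.disjoint_left.1 hdis h5 (hD₂ h4)⟩
    · exact Or.inr ⟨⟨he, he1⟩, h4⟩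
  have h4 : rk P ((S \ D₂) \ RS S row (BX Q₁)) ≤
      rk P ((S \ RS S row (BX Q₁)) ∩ ((S \ D₁) \ D₂)) := by
    refine rk_mono P ?_
    rintro e ⟨⟨he, he2⟩, he1⟩
    exact ⟨⟨he, he1⟩, ⟨he, fun h5 => he1 (hD₁ h5)⟩, he2⟩
  omega

end

/-! ### Circuits over a contracted set -/

/-- `C` is a circuit of `P ／ F`, `O` the ends, `z` an element of `C`, the other elements of `C`
and the ends are independent. -/
theorem core_circ {α : Type*} {P : Matroid α} [P.Finite] {X F O C : Set α} {z : α}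
    (hXE : X ⊆ P.E) (hFX : F ⊆ X) (hOX : O ⊆ X) (hspan : X ⊆ P.closure (F ∪ O))
    (hC : (P ／ F).IsCircuit C) (hz : z ∈ C) (hzO : z ∉ O)
    (hind : (P ／ F).Indep ((C \ {z}) ∪ O)) :
    (rk P (X ∪ ((C \ O) \ {z})) = rk P X + ((C \ O) \ {z}).ncard) ∧
    z ∈ P.closure (((C \ O) \ {z}) ∪ X) ∧
    (∀ o ∈ O, o ∈ C → ∀ W, W ⊆ P.closure (F ∪ (O \ {o})) →
      z ∉ P.closure (((C \ O) \ {z}) ∪ W)) ∧
    (∀ o ∈ O, o ∉ C → ∀ W, F ∪ (O \ {o}) ⊆ W → W ⊆ P.E → z ∈ P.closure (((C \ O) \ {z}) ∪ W)) ∧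
    (∀ b ∈ C, b ∉ O → b ≠ z → z ∉ P.closure ((((C \ O) \ {z}) \ {b}) ∪ X)) := by
  classical
  have hFE : F ⊆ P.E := hFX.trans hXE
  have hCE : C ⊆ (P ／ F).E := hC.subset_ground
  have hCE' : C ⊆ P.E := fun x hx => (hCE hx).1
  have hfin : (P ／ F).Finite := BQ.fin_contract _
  obtain ⟨Z, hZ⟩ : ∃ Z, Z = (C \ O) \ {z} := ⟨_, rfl⟩
  rw [← hZ]
  have hZC : Z ⊆ C := by
    rw [hZ]
    exact fun x hx => hx.1.1
  have hZE : Z ⊆ P.E := hZC.trans hCE'
  have hZO : Disjoint Z O := by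
    rw [Set.disjoint_left, hZ]
    exact fun x hx => hx.1.2
  have hfinZ : Z.Finite := P.ground_finite.subset hZE
  have hfinO : O.Finite := P.ground_finite.subset (hOX.trans hXE)
  have hzF : z ∉ F := (hCE hz).2
  -- closures in the contraction
  have hcl : ∀ Y, z ∈ (P ／ F).closure Y ↔ z ∈ P.closure (Y ∪ F) := by
    intro Y
    rw [Matroid.contract_closure_eq]
    exact ⟨fun h => h.1, fun h => ⟨h, hzF⟩⟩
  have hZOJ : Z ∪ O ⊆ (C \ {z}) ∪ O := by
    rintro x (hx | hx)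
    · rw [hZ] at hx
      exact Or.inl ⟨hx.1.1, hx.2⟩
    · exact Or.inr hx
  have hZOind : (P ／ F).Indep (Z ∪ O) := hind.subset hZOJ
  have hOind : (P ／ F).Indep O := hind.subset subset_union_right
  -- ranks
  have r1 : rk P (Z ∪ O ∪ F) = Z.ncard + O.ncard + rk P F := by
    have h1 := BQ.rk_con (M := P) hFE (X := Z ∪ O) hZOind.subset_ground
    have h2 := rk_indep hZOind
    rw [ncard_union_eq hZO hfinZ hfinO] at h2
    omega
  have r2 : rk P (O ∪ F) = O.ncard + rk P F := by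
    have h1 := BQ.rk_con (M := P) hFE (X := O) hOind.subset_ground
    have h2 := rk_indep hOind
    omega
  have r3 : rk P X = rk P (O ∪ F) := by
    refine le_antisymm ?_ (rk_mono P (union_subset hOX hFX))
    rw [union_comm O F, ← rk_closure (F ∪ O)]
    exact rk_mono P hspan
  have r4 : rk P (X ∪ Z) = rk P (Z ∪ O ∪ F) := by
    refine le_antisymm ?_ (rk_mono P ?_)
    · rw [← rk_closure (Z ∪ O ∪ F)]
      refine rk_mono P (union_subset ?_ ?_)
      · refine hspan.trans (P.closure_subset_closure ?_)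
        rintro x (hx | hx)
        · exact Or.inr hx
        · exact Or.inl (Or.inr hx)
      · refine Subset.trans ?_ (P.subset_closure _
          (union_subset (union_subset hZE (hOX.trans hXE)) hFE))
        exact fun x hx => Or.inl (Or.inl hx)
    · rintro x ((hx | hx) | hx)
      · exact Or.inr hx
      · exact Or.inl (hOX hx)
      · exact Or.inl (hFX hx)
  -- the element is in the closure
  have hzcl : z ∈ (P ／ F).closure (C \ {z}) := hC.mem_closure_sdiff_singleton_of_mem hz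
  -- removal of an element of the circuit
  have hrem : ∀ o ∈ C, o ≠ z → z ∉ (P ／ F).closure (((C \ {z}) ∪ O) \ {o}) := by
    intro o ho hoz hcon
    have h1 : (P ／ F).Indep ((C \ {z}) ∪ (((C \ {z}) ∪ O) \ {o})) := by
      refine hind.subset ?_
      rintro x (hx | hx)
      · exact Or.inl hx
      · exact hx.1
    have h2 := h1.closure_inter_eq_inter_closure
    have h3 : z ∈ (P ／ F).closure ((C \ {z}) ∩ (((C \ {z}) ∪ O) \ {o})) := by
      rw [h2]
      exact ⟨hzcl, hcon⟩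
    have h4 : (C \ {z}) ∩ (((C \ {z}) ∪ O) \ {o}) = (C \ {o}) \ {z} := by
      ext x
      simp only [mem_inter_iff, mem_sdiff, mem_union, mem_singleton_iff]
      tauto
    rw [h4] at h3
    have h5 : (P ／ F).Indep (C \ {o}) := hC.sdiff_singleton_indep ho
    exact h5.notMem_closure_sdiff_of_mem ⟨hz, Ne.symm hoz⟩ h3
  refine ⟨?_, ?_, ?_, ?_, ?_⟩
  · omega
  · have h1 := (hcl _).1 hzcl
    refine P.closure_subset_closure_of_subset_closure ?_ h1
    have hE : Z ∪ X ⊆ P.E := union_subset hZE hXE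
    rintro x (hx | hx)
    · by_cases hxO : x ∈ O
      · exact P.subset_closure _ hE (Or.inr (hOX hxO))
      · refine P.subset_closure _ hE (Or.inl ?_)
        rw [hZ]
        exact ⟨⟨hx.1, hxO⟩, hx.2⟩
    · exact P.subset_closure _ hE (Or.inr (hFX hx))
  · intro o hoO hoC W hW hcon
    have hoz : o ≠ z := fun h => hzO (h ▸ hoO)
    refine hrem o hoC hoz ((hcl _).2 ?_)
    have h1 : Z ∪ W ⊆ P.closure ((((C \ {z}) ∪ O) \ {o}) ∪ F) := by
      have hE : (((C \ {z}) ∪ O) \ {o}) ∪ F ⊆ P.E := by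
        refine union_subset (sdiff_subset.trans (union_subset (sdiff_subset.trans hCE')
          (hOX.trans hXE))) hFE
      rintro x (hx | hx)
      · refine P.subset_closure _ hE (Or.inl ⟨Or.inl ⟨hZC hx, ?_⟩, ?_⟩)
        · rw [hZ] at hx
          exact hx.2
        · rintro rfl
          exact Set.disjoint_left.1 hZO hx hoO
      · refine P.closure_subset_closure ?_ (hW hx)
        rintro y (hy | hy)
        · exact Or.inr hy
        · exact Or.inl ⟨Or.inr hy.1, hy.2⟩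
    exact P.closure_subset_closure_of_subset_closure h1 hcon
  · intro o hoO hoC W hW hWE
    have h1 := (hcl _).1 hzcl
    refine P.closure_subset_closure_of_subset_closure ?_ h1
    have hE : Z ∪ W ⊆ P.E := union_subset hZE hWE
    rintro x (hx | hx)
    · by_cases hxO : x ∈ O
      · refine P.subset_closure _ hE (Or.inr (hW (Or.inr ⟨hxO, ?_⟩)))
        rintro rfl
        exact hoC hx.1
      · refine P.subset_closure _ hE (Or.inl ?_)
        rw [hZ]
        exact ⟨⟨hx.1, hxO⟩, hx.2⟩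
    · exact P.subset_closure _ hE (Or.inr (hW (Or.inl hx)))
  · intro b hbC hbO hbz hcon
    refine hrem b hbC hbz ((hcl _).2 ?_)
    have hE : (((C \ {z}) ∪ O) \ {b}) ∪ F ⊆ P.E := by
      refine union_subset (sdiff_subset.trans (union_subset (sdiff_subset.trans hCE')
        (hOX.trans hXE))) hFE
    refine P.closure_subset_closure_of_subset_closure ?_ hcon
    rintro x (hx | hx)
    · refine P.subset_closure _ hE (Or.inl ⟨Or.inl ⟨hZC hx.1, ?_⟩, hx.2⟩)
      have := hx.1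
      rw [hZ] at this
      exact this.2
    · refine P.closure_subset_closure ?_ (hspan hx)
      rintro y (hy | hy)
      · exact Or.inr hy
      · exact Or.inl ⟨Or.inr hy, fun h1 => hbO (h1 ▸ hy)⟩

end DA
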