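import Pool.Agent.DA.In12
import Pool.Agent.TST.SplitDef

/-!
# The local matroids of a wall: the star is a theta, the row is a circuit (helper64)

`FL` is the general form of the contracted rows (`FStar`, `FRow`).  Ranks of the sets `FL ∪ Z`.
-/

set_option autoImplicit false

open Set BIC BICS
open scoped Matroid

namespace DA

open Gad

universe u

section

variable {α : Type*} {P : Matroid α} {S : Set α} {row : α → Sym2 (ℕ × ℕ)} {w : ℕ}
  {c Z : Set α} {ω : Set (Sym2 (ℕ × ℕ))} {A T : Set (ℕ × ℕ)}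

/-- the contracted rows -/
def FL (S : Set α) (row : α → Sym2 (ℕ × ℕ)) (c : Set α) (ω : Set (Sym2 (ℕ × ℕ)))
    (A : Set (ℕ × ℕ)) : Set α :=
  (S \ {f | row f ∈ ω}) \ {f | f ∈ c ∧ ∃ a ∈ A, a ∈ row f}

lemma FL_sub : FL S row c ω A ⊆ S := sdiff_subset.trans sdiff_subset

/-- add a vertex to an oriented basis -/
lemma fullB_add {V : Type*} {ends : α → Sym2 V} {U : Set V} {F : Set α} {e : α} {v : V}
    (hF : FullB c ends U F) (he : e ∈ c) (hv : v ∈ ends e) (hvU : v ∉ U)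
    (hen : ∀ v' ∈ ends e, v' ∈ insert v U) : FullB c ends (insert v U) (insert e F) := by
  classical
  obtain ⟨h1, φ, h2, h3⟩ := hF
  have heF : e ∉ F := fun h4 => hvU ((h1 h4).2 v hv)
  have hne : ∀ f ∈ F, f ≠ e := by
    rintro f hf rfl
    exact heF hf
  refine ⟨?_, Function.update φ e v, ?_, ?_⟩
  · rintro f (hf | hf)
    · rw [hf]
      exact ⟨he, hen⟩
    · exact ⟨(h1 hf).1, fun v' hv' => Or.inr ((h1 hf).2 v' hv')⟩
  · refine ⟨?_, ?_, ?_⟩
    · rintro f (hf | hf)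
      · rw [hf, Function.update_self]
        exact Or.inl rfl
      · rw [Function.update_of_ne (hne f hf)]
        exact Or.inr (h2.mapsTo hf)
    · rintro f (hf | hf) f' (hf' | hf') hff
      · rw [hf, hf']
      · rw [hf, Function.update_self, Function.update_of_ne (hne f' hf')] at hff
        exact absurd (hff ▸ h2.mapsTo hf') hvU
      · rw [hf', Function.update_self, Function.update_of_ne (hne f hf)] at hff
        exact absurd (hff ▸ h2.mapsTo hf) hvU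
      · rw [Function.update_of_ne (hne f hf),
          Function.update_of_ne (hne f' hf')] at hff
        exact h2.injOn hf hf' hff
    · rintro v' (hv' | hv')
      · exact ⟨e, Or.inl rfl, by rw [Function.update_self, hv']⟩
      · obtain ⟨f, hf, hfv⟩ := h2.surjOn hv'
        exact ⟨f, Or.inr hf, by rw [Function.update_of_ne (hne f hf), hfv]⟩
  · rintro f (hf | hf)
    · rw [hf, Function.update_self]
      exact hv
    · rw [Function.update_of_ne (hne f hf)]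
      exact h3 f hf

/-- **The rank of `FL ∪ Z`**, full case. -/
lemma rk_loc [P.Finite] (hG : RWx P S row w) (hc : c ⊆ S) (hW : WallE c row w ∅)
    (hZ : ∀ f ∈ Z, f ∈ S ∧ (row f ∈ ω ∨ f ∈ c))
    (hcl : ∀ f ∈ Z, f ∈ c → row f ∈ ω → ∀ f' ∈ S, row f' = row f → f' ∈ Z) {G : Set α}
    (hF : FullB {f | f ∈ c ∧ f ∈ FL S row c ω A ∪ Z} row (rect 0 0 (w + 1) (w + 1)) G) :
    rk P (FL S row c ω A ∪ Z) =
      ((FL S row c ω A ∪ Z) \ c).ncard + (rect 0 0 (w + 1) (w + 1)).ncard := by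
  have h1 : FL S row c ω A ∪ Z =
      ((FL S row c ω A ∪ Z) \ c) ∪ {f | f ∈ c ∧ f ∈ FL S row c ω A ∪ Z} := by
    ext f
    constructor
    · intro h1
      by_cases h2 : f ∈ c
      · exact Or.inr ⟨h2, h1⟩
      · exact Or.inl ⟨h1, h2⟩
    · rintro (h1 | h1)
      · exact h1.1
      · exact h1.2
  rw [h1]
  have h2 : (((FL S row c ω A ∪ Z) \ c ∪ {f | f ∈ c ∧ f ∈ FL S row c ω A ∪ Z}) \ c) =
      (FL S row c ω A ∪ Z) \ c := by
    rw [← h1]
  rw [h2]
  refine hG.rk_full hc hW ?_ (fun e he => he.1) ?_ (Gad.rect_finite _ _ _ _) ?_ hF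
  · rintro e ⟨he | he, hec⟩
    · exact ⟨FL_sub he, hec⟩
    · exact ⟨(hZ e he).1, hec⟩
  · rintro e ⟨hec, he⟩ e' he' hee
    have key : e' ∈ FL S row c ω A ∪ Z := by
      by_cases h3 : e' ∈ c
      · rw [hW.inj h3 hec hee]
        exact he
      rcases he with he | he
      · exact Or.inl ⟨⟨he', fun h4 => he.1.2 (by rw [mem_ofPred_eq, ← hee]; exact h4)⟩,
          fun h4 => h3 h4.1⟩
      · by_cases h4 : row e ∈ ω
        · exact Or.inr (hcl e he hec h4 e' he' hee)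
        · exact Or.inl ⟨⟨he', fun h5 => h4 (by rw [← hee]; exact h5)⟩, fun h5 => h3 h5.1⟩
    by_cases h3 : e' ∈ c
    · exact Or.inl ⟨h3, key⟩
    · exact Or.inr ⟨key, h3⟩
  · intro e he v hv
    exact wall_mem hW he.1 hv

/-- the rank of `FL` -/
lemma rk_FL [P.Finite] (hG : RWx P S row w) (hc : c ⊆ S) (hW : WallE c row w ∅)
    (hAT : A ⊆ T) (hT : ∀ f ∈ S, ∀ v ∈ T, v ∉ A → v ∈ row f → row f ∈ ω) {G : Set α}
    (hF : FullB {e | e ∈ c ∧ row e ∉ ω} row (rect 0 0 (w + 1) (w + 1) \ T) G) :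
    rk P (FL S row c ω A) = (FL S row c ω A \ c).ncard +
      (rect 0 0 (w + 1) (w + 1) \ T).ncard := by
  have h1 := hG.rk_hole hc hW hF
  have h2 : (S \ {e | row e ∈ ω}) \ {e | e ∈ c ∧ ∃ v ∈ T, v ∈ row e} = FL S row c ω A := by
    ext f
    constructor
    · rintro ⟨h3, h4⟩
      exact ⟨h3, fun h5 => h4 ⟨h5.1, by
        obtain ⟨_, a, ha, haf⟩ := h5
        exact ⟨a, hAT ha, haf⟩⟩⟩
    · rintro ⟨h3, h4⟩
      refine ⟨h3, ?_⟩
      rintro ⟨h5, v, hv, hvf⟩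
      by_cases hvA : v ∈ A
      · exact h4 ⟨h5, v, hvA, hvf⟩
      · exact h3.2 (hT f h3.1 v hv hvA hvf)
  have h3 : (S \ {e | row e ∈ ω}) \ c = FL S row c ω A \ c := by
    ext f
    constructor
    · rintro ⟨h3, h4⟩
      exact ⟨⟨h3, fun h5 => h4 h5.1⟩, h4⟩
    · rintro ⟨⟨h3, _⟩, h4⟩
      exact ⟨h3, h4⟩
  rw [h2, h3] at h1
  exact h1

/-- the ranks in the local matroid, full case -/
lemma rk_locN [P.Finite] (hG : RWx P S row w) (hc : c ⊆ S) (hW : WallE c row w ∅)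
    (hAT : A ⊆ T) (hT : ∀ f ∈ S, ∀ v ∈ T, v ∉ A → v ∈ row f → row f ∈ ω)
    (hTV : T ⊆ rect 0 0 (w + 1) (w + 1)) {G₀ : Set α}
    (hF₀ : FullB {e | e ∈ c ∧ row e ∉ ω} row (rect 0 0 (w + 1) (w + 1) \ T) G₀)
    (hZ : ∀ f ∈ Z, f ∈ S ∧ (row f ∈ ω ∨ (f ∈ c ∧ ∃ a ∈ A, a ∈ row f)))
    (hcl : ∀ f ∈ Z, f ∈ c → row f ∈ ω → ∀ f' ∈ S, row f' = row f → f' ∈ Z) {G : Set α}
    (hF : FullB {f | f ∈ c ∧ f ∈ FL S row c ω A ∪ Z} row (rect 0 0 (w + 1) (w + 1)) G) :
    rk (P ／ FL S row c ω A) Z = (Z \ c).ncard + T.ncard := by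
  have hSf : S.Finite := P.ground_finite.subset hG.sub
  have h1 := rk_loc hG hc hW (fun f hf => ⟨(hZ f hf).1, (hZ f hf).2.imp id fun h => h.1⟩) hcl hF
  have h2 := rk_FL hG hc hW hAT hT hF₀
  have hdis : Disjoint Z (FL S row c ω A) := by
    rw [Set.disjoint_left]
    rintro f hf hf'
    rcases (hZ f hf).2 with h3 | h3
    · exact hf'.1.2 h3
    · exact hf'.2 h3
  have h3 := BQ.rk_con (M := P) (C := FL S row c ω A) (X := Z) (FL_sub.trans hG.sub) (by
    intro f hf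
    exact ⟨hG.sub (hZ f hf).1, fun h4 => Set.disjoint_left.1 hdis hf h4⟩)
  rw [union_comm Z] at h3
  have h4 : ((FL S row c ω A ∪ Z) \ c).ncard = (FL S row c ω A \ c).ncard + (Z \ c).ncard := by
    rw [union_sdiff_distrib]
    refine ncard_union_eq ?_ (hSf.subset (sdiff_subset.trans FL_sub))
      (hSf.subset (sdiff_subset.trans fun f hf => (hZ f hf).1))
    rw [Set.disjoint_left]
    exact fun f hf hf' => Set.disjoint_left.1 hdis hf'.1 hf.1
  have h5 := ncard_sdiff_add_ncard_of_subset hTV (Gad.rect_finite _ _ _ _)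
  omega

/-- **Nullities depend on the full rows only.** -/
lemma nul_eq [P.Finite] (hG : RWx P S row w) {B D D' : Set α} (hB : B ⊆ S) (hD : D ⊆ S)
    (hD' : D' ⊆ S) (h : row '' D = row '' D') :
    rk P (B \ D) + (B \ D').ncard = rk P (B \ D') + (B \ D).ncard := by
  obtain ⟨ν, hν⟩ := hG.nul
  have key : ∀ D ⊆ S, {a | (∃ e ∈ S, row e = a) ∧ ∀ e ∈ S, row e = a → e ∈ B \ D} =
      {a | (∃ e ∈ S, row e = a) ∧ (∀ e ∈ S, row e = a → e ∈ B) ∧ a ∉ row '' D} := by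
    intro D hD
    ext a
    constructor
    · rintro ⟨h1, h2⟩
      refine ⟨h1, fun e he hea => (h2 e he hea).1, ?_⟩
      rintro ⟨d, hd, hda⟩
      exact (h2 d (hD hd) hda).2 hd
    · rintro ⟨h1, h2, h3⟩
      exact ⟨h1, fun e he hea => ⟨h2 e he hea, fun h4 => h3 ⟨e, h4, hea⟩⟩⟩
  have h1 := hν (B \ D) (sdiff_subset.trans hB)
  have h2 := hν (B \ D') (sdiff_subset.trans hB)
  rw [key D hD] at h1
  rw [key D' hD', ← h] at h2
  omega

end

end DA
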