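import Pool.Agent.DA.Pex
import Pool.Agent.DA.HumDel

/-!
# Injective images of matroids: minors and bicircular walls
-/

open Set BIC BICS
open scoped Matroid

namespace DA

variable {α β : Type*} {f : α → β}

lemma map_delete (M : Matroid α) (hf : Function.Injective f) (D : Set α) :
    (M.map f hf.injOn) ＼ (f '' D) = (M ＼ D).map f hf.injOn := by
  refine Matroid.ext_indep ?_ ?_
  · rw [Matroid.delete_ground, Matroid.map_ground, Matroid.map_ground, Matroid.delete_ground,
      image_sdiff hf]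
  · intro I hI
    rw [Matroid.delete_indep_iff, Matroid.map_indep_iff, Matroid.map_indep_iff]
    constructor
    · rintro ⟨⟨I₀, h1, rfl⟩, h2⟩
      refine ⟨I₀, ?_, rfl⟩
      rw [Matroid.delete_indep_iff]
      refine ⟨h1, ?_⟩
      rw [Set.disjoint_left] at h2 ⊢
      exact fun x hx hxD => h2 ⟨x, hx, rfl⟩ ⟨x, hxD, rfl⟩
    · rintro ⟨I₀, h1, rfl⟩
      rw [Matroid.delete_indep_iff] at h1
      refine ⟨⟨I₀, h1.1, rfl⟩, ?_⟩
      rw [disjoint_image_iff hf]
      exact h1.2

lemma map_contract (M : Matroid α) (hf : Function.Injective f) (C : Set α) :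
    (M.map f hf.injOn) ／ (f '' C) = (M ／ C).map f hf.injOn := by
  rw [← Matroid.dual_inj, Matroid.dual_contract, Matroid.map_dual, Matroid.map_dual,
    map_delete _ hf]
  have h : ∀ (A B : Matroid α) (hA : InjOn f A.E) (hB : InjOn f B.E), A = B →
      A.map f hA = B.map f hB := by
    rintro A _ _ _ rfl
    rfl
  exact h _ _ _ _ (M.dual_contract C).symm

lemma hum_of_map {k : ℕ} (M : Matroid α) (hf : Function.Injective f)
    (h : HasUniformMinor (M.map f hf.injOn) k) : HasUniformMinor M k := by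
  obtain ⟨N, hN, hNE, hNB⟩ := h
  obtain ⟨C, D, hC, hD, hCD, rfl⟩ := hN.exists_eq_contract_delete_disjoint
  obtain ⟨C₀, hC₀, rfl⟩ : ∃ C₀, C₀ ⊆ M.E ∧ f '' C₀ = C := subset_image_iff.1 hC
  obtain ⟨D₀, hD₀, rfl⟩ : ∃ D₀, D₀ ⊆ M.E ∧ f '' D₀ = D := subset_image_iff.1 hD
  rw [map_contract _ hf, map_delete _ hf] at hNE hNB
  refine ⟨M ／ C₀ ＼ D₀, Matroid.contract_delete_isMinor _ _ _, ?_, ?_⟩
  · rw [Matroid.map_ground, Set.ncard_image_of_injective _ hf] at hNE
    exact hNE
  · intro B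
    have h1 := hNB (f '' B)
    rw [Set.ncard_image_of_injective _ hf, Matroid.map_ground, image_subset_image_iff hf] at h1
    rw [← h1, Matroid.map_isBase_iff]
    constructor
    · exact fun h => ⟨B, h, rfl⟩
    · rintro ⟨B₀, h2, h3⟩
      rw [hf.image_injective h3]
      exact h2

lemma rkM_map (M : Matroid α) (hf : Function.Injective f) {X : Set α} (hX : X ⊆ M.E) :
    rk (M.map f hf.injOn) (f '' X) = rk M X := by
  unfold rk
  rw [Matroid.eRk_map M hf.injOn hX]

lemma bicM_map {V : Type*} {M : Matroid α} (hf : Function.Injective f) {T : Set α}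
    {row : α → Sym2 V} {row' : β → Sym2 V} (hB : Bic M T row) (hr : ∀ e ∈ T, row' (f e) = row e) :
    Bic (M.map f hf.injOn) (f '' T) row' := by
  refine ⟨?_, ?_, ?_⟩
  · exact image_mono hB.sub
  · intro F φ hF hφ hφe
    obtain ⟨F₀, hF₀, rfl⟩ := subset_image_iff.1 hF
    refine (hB.ind F₀ (φ ∘ f) hF₀ ?_ ?_).map f hf.injOn
    · intro a ha b hb hab
      exact hf (hφ ⟨a, ha, rfl⟩ ⟨b, hb, rfl⟩ hab)
    · intro e he
      rw [← hr e (hF₀ he)]
      exact hφe _ ⟨e, he, rfl⟩
  · intro W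
    have h1 : ins (f '' T) row' W = f '' (ins T row W) := by
      ext e
      constructor
      · rintro ⟨⟨e, he, rfl⟩, hv⟩
        exact ⟨e, ⟨he, fun v hvv => hv v (by rw [hr e he]; exact hvv)⟩, rfl⟩
      · rintro ⟨e, ⟨he, hv⟩, rfl⟩
        exact ⟨⟨e, he, rfl⟩, fun v hvv => hv v (by rw [← hr e he]; exact hvv)⟩
    rw [h1, Matroid.eRk_map M hf.injOn (fun e he => hB.sub he.1)]
    exact hB.rk W

lemma bicM_delete {V : Type*} {M : Matroid α} {T D : Set α} {row : α → Sym2 V} (hB : Bic M T row)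
    (hTD : Disjoint T D) : Bic (M ＼ D) T row := by
  refine ⟨fun e he => ⟨hB.sub he, Set.disjoint_left.1 hTD he⟩, ?_, ?_⟩
  · intro F φ hF hφ hφe
    rw [Matroid.delete_indep_iff]
    exact ⟨hB.ind F φ hF hφ hφe, hTD.mono_left hF⟩
  · intro W
    rw [Matroid.delete_eq_restrict, Matroid.restrict_eRk_eq]
    · exact hB.rk W
    · exact fun e he => ⟨hB.sub he.1, Set.disjoint_left.1 hTD he.1⟩

lemma bicM_congr {V : Type*} {M : Matroid α} {T : Set α} {row row' : α → Sym2 V}
    (hB : Bic M T row) (h : ∀ e ∈ T, row' e = row e) : Bic M T row' := by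
  refine ⟨hB.sub, ?_, ?_⟩
  · intro F φ hF hφ hφe
    exact hB.ind F φ hF hφ fun e he => by rw [← h e (hF he)]; exact hφe e he
  · intro W
    have h1 : ins T row' W = ins T row W := by
      ext e
      exact ⟨fun he => ⟨he.1, fun v hv => he.2 v (by rw [h e he.1]; exact hv)⟩,
        fun he => ⟨he.1, fun v hv => he.2 v (by rw [← h e he.1]; exact hv)⟩⟩
    rw [h1]
    exact hB.rk W

lemma bicM_mono {V : Type*} {M : Matroid α} {T T' : Set α} {row : α → Sym2 V}
    (hB : Bic M T row) (h : T' ⊆ T) : Bic M T' row :=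
  ⟨h.trans hB.sub, fun F φ hF hφ hφe => hB.ind F φ (hF.trans h) hφ hφe, fun W =>
    (M.eRk_mono (show ins T' row W ⊆ ins T row W from fun _ he => ⟨h he.1, he.2⟩)).trans
      (hB.rk W)⟩

end DA
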