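import Pool.Agent.DA.GoodCls

/-!
# Mixing of representatives (T-star, helper51)

`yw_agree`: the locations off the row `u v` depend only on the representatives of the rows which are
seen.  `yw_mix`: if no row except `u v` is seen by both elements, then two choices of representatives
can be mixed.  `pr2_of_ex`: two exits of the row `u v`, each with its own representatives.
-/

set_option autoImplicit false

open Set BIC BICS
open scoped Matroid

namespace DA

open Gad TST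

section

variable {α : Type*} {P : Matroid α} {S : Set α} {row : α → Sym2 (ℕ × ℕ)} {w D : ℕ}
  {Hs : Finset (ℕ × ℕ)} {z z' : α} {u v : ℕ × ℕ}

/-- the row `a` has a regular end and is seen -/
def SnA {α : Type*} (P : Matroid α) (S : Set α) (row : α → Sym2 (ℕ × ℕ)) (w D : ℕ)
    (Hs : Finset (ℕ × ℕ)) (z : α) (a : Sym2 (ℕ × ℕ)) : Prop :=
  ∃ p q, a = s(p, q) ∧ SnW P S row w D Hs z p q

lemma snA_iff {p q : ℕ × ℕ} : SnA P S row w D Hs z s(p, q) ↔ SnW P S row w D Hs z p q := by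
  constructor
  · rintro ⟨p', q', h1, h2⟩
    rw [Sym2.eq_iff] at h1
    rcases h1 with ⟨rfl, rfl⟩ | ⟨rfl, rfl⟩
    · exact h2
    · exact ⟨by rw [Sym2.eq_swap]; exact h2.1, h2.2.symm⟩
  · exact fun h => ⟨p, q, rfl, h⟩

/-- the locations off `u v` depend only on the representatives of the seen rows -/
theorem yw_agree [P.Finite] (hS : S ⊆ P.E)
    (hmem : ∀ e ∈ S, ∃ p q, row e = s(p, q) ∧ wadj p q ∧ p ∈ rect 0 0 (w + 1) (w + 1) ∧
      q ∈ rect 0 0 (w + 1) (w + 1))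
    (hvc : ∀ v, RegW w D Hs v → VC P S row w v) (c c' : ChW S row w)
    (h : ∀ f ∈ c'.1, f ∉ c.1 → ¬ SnA P S row w D Hs z (row f) ∨ row f = s(u, v)) :
    YW P S row w D Hs z c' \ {u, v} = YW P S row w D Hs z c \ {u, v} := by
  obtain ⟨n, hn⟩ : ∃ n, (c'.1 \ c.1).ncard = n := ⟨_, rfl⟩
  induction n using Nat.strong_induction_on generalizing c with
  | _ n ih =>
    have hfin : (c'.1 \ c.1).Finite := (P.ground_finite.subset (c'.2.1.trans hS)).subset sdiff_subset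
    by_cases hne : (c'.1 \ c.1).Nonempty
    · obtain ⟨f, hf, hfc⟩ := hne
      obtain ⟨p, q, h1, h2, h3, h4⟩ := c'.2.2.mem f hf
      obtain ⟨e, he, hee⟩ := c.2.2.surj p q h2 h3 h4 (notMem_empty _)
      have hex : ∃ e ∈ c.1, row e = row f := ⟨e, he, by rw [hee, h1]⟩
      obtain ⟨hc₁, hW₁⟩ := swp_rep c.2.1 c.2.2 (c'.2.1 hf) hex
      have hsub : c'.1 \ swp row c.1 f ⊆ c'.1 \ c.1 := by
        rintro x ⟨hx, hx'⟩
        refine ⟨hx, fun hxc => hx' ?_⟩
        by_cases h5 : row x = row f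
        · exact Or.inr (c'.2.2.inj hx hf h5)
        · exact Or.inl ⟨hxc, h5⟩
      have e1 := ih _ (by
        rw [← hn]
        refine ncard_lt_ncard ⟨hsub, ?_⟩ hfin
        intro h5
        exact (h5 ⟨hf, hfc⟩).2 (Or.inr rfl)) ⟨swp row c.1 f, hc₁, hW₁⟩
        (fun x hx hx' => h x hx (hsub ⟨hx, hx'⟩).2) rfl
      rw [e1]
      rcases h f hf hfc with h5 | h5
      · rw [h1, snA_iff] at h5
        rw [yw_unseen (c := c) (c' := ⟨swp row c.1 f, hc₁, hW₁⟩) (p := p) (q := q) hS hmem hvc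
          ⟨f, c'.2.1 hf, h1, rfl⟩ h5]
      · ext x
        refine and_congr_left fun hx => ?_
        have hxf : x ∉ row f := by
          rw [h5, Sym2.mem_iff]
          rintro (h6 | h6)
          · exact hx (Or.inl h6)
          · exact hx (Or.inr h6)
        show (x ∈ LocR P S row (swp row c.1 f) z ∧ RegW w D Hs x) ↔
          (x ∈ LocR P S row c.1 z ∧ RegW w D Hs x)
        rw [locR_swp hxf]
    · have h5 : c'.1 ⊆ c.1 := by
        intro x hx
        by_contra hx'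
        exact hne ⟨x, hx, hx'⟩
      have h6 : c' = c := Subtype.ext (rep_eq c.2.2 c'.2.2 h5)
      rw [h6]

/-- **Mixing.** -/
theorem yw_mix [P.Finite] (hS : S ⊆ P.E)
    (hmem : ∀ e ∈ S, ∃ p q, row e = s(p, q) ∧ wadj p q ∧ p ∈ rect 0 0 (w + 1) (w + 1) ∧
      q ∈ rect 0 0 (w + 1) (w + 1))
    (hvc : ∀ v, RegW w D Hs v → VC P S row w v)
    (hno : ∀ p q, wadj p q → SnW P S row w D Hs z p q → SnW P S row w D Hs z' p q →
      s(p, q) = s(u, v)) (c₁ c₂ : ChW S row w) :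
    ∃ c : ChW S row w, YW P S row w D Hs z c \ {u, v} = YW P S row w D Hs z c₁ \ {u, v} ∧
      YW P S row w D Hs z' c \ {u, v} = YW P S row w D Hs z' c₂ \ {u, v} := by
  classical
  obtain ⟨c, hcd⟩ : ∃ c, c = {e | (e ∈ c₁.1 ∧ SnA P S row w D Hs z (row e)) ∨
      (e ∈ c₂.1 ∧ ¬ SnA P S row w D Hs z (row e))} := ⟨_, rfl⟩
  have hc : c ⊆ S := by
    rw [hcd]
    rintro e (he | he)
    · exact c₁.2.1 he.1
    · exact c₂.2.1 he.1
  have hW : WallE c row w ∅ := by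
    refine ⟨?_, ?_, ?_⟩
    · rw [hcd]
      rintro e (he | he) e' (he' | he') hee
      · exact c₁.2.2.inj he.1 he'.1 hee
      · exact absurd (hee ▸ he.2) he'.2
      · exact absurd (hee.symm ▸ he'.2) he.2
      · exact c₂.2.2.inj he.1 he'.1 hee
    · rw [hcd]
      rintro e (he | he)
      · exact c₁.2.2.mem e he.1
      · exact c₂.2.2.mem e he.1
    · intro p q hpq hp hq hm
      obtain ⟨e₁, he₁, hee₁⟩ := c₁.2.2.surj p q hpq hp hq hm
      obtain ⟨e₂, he₂, hee₂⟩ := c₂.2.2.surj p q hpq hp hq hm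
      by_cases h1 : SnA P S row w D Hs z s(p, q)
      · refine ⟨e₁, ?_, hee₁⟩
        rw [hcd]
        exact Or.inl ⟨he₁, by rw [hee₁]; exact h1⟩
      · refine ⟨e₂, ?_, hee₂⟩
        rw [hcd]
        exact Or.inr ⟨he₂, by rw [hee₂]; exact h1⟩
  refine ⟨⟨c, hc, hW⟩, ?_, ?_⟩
  · refine yw_agree hS hmem hvc c₁ ⟨c, hc, hW⟩ fun f hf₀ hf' => ?_
    have hf : f ∈ c := hf₀
    rw [hcd] at hf
    rcases hf with hf | hf
    · exact absurd hf.1 hf'
    · exact Or.inl hf.2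
  · refine yw_agree hS hmem hvc c₂ ⟨c, hc, hW⟩ fun f hf₀ hf' => ?_
    have hf : f ∈ c := hf₀
    rw [hcd] at hf
    rcases hf with hf | hf
    · by_cases h1 : SnA P S row w D Hs z' (row f)
      · right
        obtain ⟨p, q, h2, h3, _⟩ := c₁.2.2.mem f hf.1
        rw [h2] at hf h1 ⊢
        exact hno p q h3 (snA_iff.1 hf.2) (snA_iff.1 h1)
      · exact Or.inl h1
    · exact absurd hf.1 hf'

lemma sdiff_eq_single {V : Type*} {A : Set V} {u v y : V} (h1 : y ∉ ({u, v} : Set V)) (h2 : y ∈ A)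
    (h3 : A ⊆ {u, v, y}) : A \ {u, v} = {y} := by
  ext x
  constructor
  · rintro ⟨hx, hx'⟩
    rcases h3 hx with h4 | h4 | h4
    · exact absurd (Or.inl h4) hx'
    · exact absurd (Or.inr h4) hx'
    · exact h4
  · intro hx
    have hx' : x = y := hx
    rw [hx']
    exact ⟨h2, h1⟩

lemma of_sdiff_eq_single {V : Type*} {A : Set V} {u v y : V} (h : A \ {u, v} = {y}) :
    y ∉ ({u, v} : Set V) ∧ y ∈ A ∧ A ⊆ {u, v, y} := by
  have h1 : y ∈ A \ {u, v} := by rw [h]; rfl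
  refine ⟨h1.2, h1.1, fun x hx => ?_⟩
  by_cases hx' : x ∈ ({u, v} : Set V)
  · rcases hx' with h3 | h3
    · exact Or.inl h3
    · exact Or.inr (Or.inl h3)
  · have : x ∈ A \ {u, v} := ⟨hx, hx'⟩
    rw [h] at this
    exact Or.inr (Or.inr this)

/-- **Two exits with their own representatives.** -/
theorem pr2_of_ex [P.Finite] (hS : S ⊆ P.E)
    (hmem : ∀ e ∈ S, ∃ p q, row e = s(p, q) ∧ wadj p q ∧ p ∈ rect 0 0 (w + 1) (w + 1) ∧
      q ∈ rect 0 0 (w + 1) (w + 1))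
    (hvc : ∀ v, RegW w D Hs v → VC P S row w v)
    (hno : ∀ p q, wadj p q → SnW P S row w D Hs z p q → SnW P S row w D Hs z' p q →
      s(p, q) = s(u, v)) {c₁ c₂ : ChW S row w} {y y' : ℕ × ℕ}
    (h1 : YW P S row w D Hs z c₁ \ {u, v} = {y}) (h2 : YW P S row w D Hs z' c₂ \ {u, v} = {y'})
    (hyy : y ≠ y') (hu : ¬ (wadj u y ∧ wadj u y')) (hv : ¬ (wadj v y ∧ wadj v y')) :
    Pr2 wadj u v (YW P S row w D Hs z) (YW P S row w D Hs z') := by
  obtain ⟨c, e1, e2⟩ := yw_mix hS hmem hvc hno c₁ c₂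
  exact ⟨c, y, y', of_sdiff_eq_single (e1.trans h1), of_sdiff_eq_single (e2.trans h2), hyy, hu, hv⟩

/-- **A far rung against an exit**: both ends of the far row are feet. -/
theorem pr2_far_ex [P.Finite] (hS : S ⊆ P.E)
    (hmem : ∀ e ∈ S, ∃ p q, row e = s(p, q) ∧ wadj p q ∧ p ∈ rect 0 0 (w + 1) (w + 1) ∧
      q ∈ rect 0 0 (w + 1) (w + 1))
    (hvc : ∀ v, RegW w D Hs v → VC P S row w v)
    (hno : ∀ p q, wadj p q → SnW P S row w D Hs z p q → SnW P S row w D Hs z' p q →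
      s(p, q) = s(u, v)) {c₁ c₂ c₃ : ChW S row w} {p q y' : ℕ × ℕ}
    (h1 : YW P S row w D Hs z c₁ \ {u, v} = {p}) (h2 : YW P S row w D Hs z c₂ \ {u, v} = {q})
    (h3 : YW P S row w D Hs z' c₃ \ {u, v} = {y'}) (hpq : p ≠ q)
    (hend : (¬ wadj u p ∧ ¬ wadj v p) ∨ (¬ wadj u q ∧ ¬ wadj v q)) :
    Pr2 wadj u v (YW P S row w D Hs z) (YW P S row w D Hs z') := by
  have key : ∀ {p q : ℕ × ℕ} {c₁ c₂ : ChW S row w}, YW P S row w D Hs z c₁ \ {u, v} = {p} →
      YW P S row w D Hs z c₂ \ {u, v} = {q} → p ≠ q → (¬ wadj u p ∧ ¬ wadj v p) →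
      Pr2 wadj u v (YW P S row w D Hs z) (YW P S row w D Hs z') := by
    intro p q c₁ c₂ h1 h2 hpq hp
    by_cases hpy : p = y'
    · subst hpy
      exact pr2_of_ex hS hmem hvc hno h2 h3 hpq.symm (fun h => hp.1 h.2) fun h => hp.2 h.2
    · exact pr2_of_ex hS hmem hvc hno h1 h3 hpy (fun h => hp.1 h.1) fun h => hp.2 h.1
  rcases hend with h4 | h4
  · exact key h1 h2 hpq h4
  · exact key h2 h1 hpq.symm h4

end

end DA
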