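import Pool.Agent.DA.StarEx0
import Pool.Agent.DA.Kinds
import Pool.Agent.DA.DegRnd

/-!
# Star witnesses of the rungs (T-star, helper94)

`WuR u z`: `z` sees a visible row `u v` and a second visible row which is not at `u` (far, or near at
`v`).  Such a `z` is an exit of the star of `u` in both rounds; `Rnd.starWit`: all witnesses of a visible
star and the star split, for `T` = elements which are local in `nst wadj u` in round 1.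
-/

set_option autoImplicit false

open Set BIC BICS
open scoped Matroid

namespace DA

open Gad TST

/-- far rung, seen at `u` -/
def FarAt {α : Type*} (P : Matroid α) (S : Set α) (row : α → Sym2 (ℕ × ℕ)) (w δ₁ : ℕ)
    (Om₂ : Finset (ℕ × ℕ)) (u v : ℕ × ℕ) (z : α) : Prop :=
  wadj u v ∧ VisR w δ₁ Om₂ v ∧ SeeP P S row z u v ∧ ∃ p q, wadj p q ∧ VisR w δ₁ Om₂ p ∧
    VisR w δ₁ Om₂ q ∧ SeeP P S row z p q ∧ p ∉ ({u, v} : Set (ℕ × ℕ)) ∧ q ∉ ({u, v} : Set (ℕ × ℕ))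

/-- near rung at `v`, seen on the row `v u` -/
def NearAt {α : Type*} (P : Matroid α) (S : Set α) (row : α → Sym2 (ℕ × ℕ)) (w δ₁ : ℕ)
    (Om₂ : Finset (ℕ × ℕ)) (u v : ℕ × ℕ) (z : α) : Prop :=
  wadj u v ∧ VisR w δ₁ Om₂ v ∧ SeeP P S row z u v ∧ ∃ a, wadj v a ∧ a ≠ u ∧ SeeP P S row z v a

/-- `z` sees the visible row `u v` and a second row which is not at `u` -/
def WuR {α : Type*} (P : Matroid α) (S : Set α) (row : α → Sym2 (ℕ × ℕ)) (w δ₁ : ℕ)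
    (Om₂ : Finset (ℕ × ℕ)) (u : ℕ × ℕ) (z : α) : Prop :=
  ∃ v, FarAt P S row w δ₁ Om₂ u v z ∨ NearAt P S row w δ₁ Om₂ u v z

/-- the elements which are local in the star of `u` -/
def TStar {α : Type*} (P : Matroid α) (S : Set α) (row : α → Sym2 (ℕ × ℕ)) (w D : ℕ)
    (Hs : Finset (ℕ × ℕ)) (u : ℕ × ℕ) : Set α :=
  {t | (t ∈ P.closure S ∧ t ∉ S) ∧ ∀ c : ChW S row w, ∀ x ∈ LocR P S row c.1 t,
    RegW w D Hs x → x ∈ nst wadj u}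

section

variable {α : Type*} {P : Matroid α} {S : Set α} {row : α → Sym2 (ℕ × ℕ)} {w : ℕ} {Dd : Set α}
  {β D₀ δ₀ D₁ δ₁ : ℕ} {Hm Hs₀ Om₁ Hs₁ Om₂ : Finset (ℕ × ℕ)} {u v a : ℕ × ℕ}
  {V : Fin 3 → ℕ × ℕ} {z t : α} {T W : Set α}

/-- an element which sees two rows at `v` is not a degenerate tripod -/
theorem Rnd.near_not_dt [P.Finite] (h : Rnd P S row w Dd β D₀ δ₀ D₁ δ₁ Hm Hs₀ Om₁ Hs₁ Om₂)
    (hcl : z ∈ P.closure S ∧ z ∉ S) (hv : VisR w δ₁ Om₂ v) (hvu : wadj v u) (hva : wadj v a)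
    (hne : a ≠ u) (hs : SeeP P S row z v a) :
    ¬ ∀ c, YW P S row w D₀ Hs₀ z c \ {v, u} = nst wadj v \ {v, u} := by
  intro hY
  have hv1 := h.w1.one_le hv
  obtain ⟨V, hnb⟩ := exists_nb3 hv1
  have hV : ∀ q, wadj v q → ∃ i, V i = q := by
    intro q hq
    rcases nb3_mem hv1 hnb hq with h1 | h1 | h1
    exacts [⟨0, h1.symm⟩, ⟨1, h1.symm⟩, ⟨2, h1.symm⟩]
  obtain ⟨i, hi⟩ := hV u hvu
  obtain ⟨j, hj⟩ := hV a hva
  have hij : i ≠ j := by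
    rintro rfl
    exact hne (hj.symm.trans hi)
  obtain ⟨k, hki, hkj, -⟩ := fin3_third hij
  subst hi
  subst hj
  obtain ⟨k1, k2, k3⟩ := h.dt_loc hnb hij (Ne.symm hki) hY
  obtain ⟨k4, -⟩ := h.w1.dt hv hnb hcl.1 hcl.2 k1 hij (Ne.symm hki) (Ne.symm hkj) k2 k3
  obtain ⟨x, hx, y, hy, hxy⟩ := hs
  exact hxy (k4 x hx y hy)

/-- **The rungs are exits of the stars.** -/
theorem Rnd.sex_wu [P.Finite] (h : Rnd P S row w Dd β D₀ δ₀ D₁ δ₁ Hm Hs₀ Om₁ Hs₁ Om₂)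
    (hz : z ∈ Dd) (hcl : z ∈ P.closure S ∧ z ∉ S) (hu : VisR w δ₁ Om₂ u)
    (hw : WuR P S row w δ₁ Om₂ u z) : SEx P S row w D₀ δ₁ Hs₀ Om₂ u z := by
  obtain ⟨v, hw | hw⟩ := hw
  · obtain ⟨huv, hv, hs, p, q, hpq, hp, hq, hs', hpn, hqn⟩ := hw
    exact h.sex_far hz hcl huv hu hv ((h.sn_iff hcl.1 (h.reg hu)).2 hs) hpq hp hq
      ((h.sn_iff hcl.1 (h.reg hp)).2 hs') hpn hqn
  · obtain ⟨huv, hv, hs, a, hva, hau, hs'⟩ := hw
    have hT := (h.locT hz hcl.1).toLocS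
    have hs1 := (h.sn_iff hcl.1 (h.reg hu)).2 hs
    have hs2 := (h.sn_iff hcl.1 (h.reg hv)).2 hs'
    have hs3 := hT.snsymm _ _ hs1
    refine ⟨hcl, (h.near_sub hz hcl (wadj_swap huv) hu hv hs3 hva hs2 (Ne.symm hau)).2, v, huv, hv,
      hs1, ?_⟩
    exact (hT.exit_star_of_near (wadj_swap huv) hv hu hs3 hva hs2 (Ne.symm hau)).resolve_right
      (h.near_not_dt hcl hv (wadj_swap huv) hva hau hs')

/-- an exit of the star is not local in the star -/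
theorem SEx.notMem (h : Rnd P S row w Dd β D₀ δ₀ D₁ δ₁ Hm Hs₀ Om₁ Hs₁ Om₂)
    (hz : SEx P S row w D₀ δ₁ Hs₀ Om₂ u z) : z ∉ TStar P S row w D₁ Hs₁ u := by
  intro hzT
  obtain ⟨-, hcl, v, -, -, -, c, y, hy, hyc, -⟩ := hz
  have h1 := hcl c y hyc
  refine hy (hzT.2 c y hyc.1 ⟨(h1.mono h.le.2.2.2).1, fun h2 => ?_⟩)
  have h3 := OutW.sd_le h1 (h.sub₁ h2)
  rw [sd_self] at h3
  have := h.le
  omega

/-- **All witnesses of a visible star, and the star split.** -/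
theorem Rnd.starWit [P.Finite] (h : Rnd P S row w Dd β D₀ δ₀ D₁ δ₁ Hm Hs₀ Om₁ Hs₁ Om₂)
    (hβ : 4 ≤ β) (hu : VisR w δ₁ Om₂ u) (hnb : Nb3 u (V 0) (V 1) (V 2))
    (hT : T ⊆ TStar P S row w D₁ Hs₁ u)
    (hW : ∀ z ∈ W, z ∈ Dd ∧ (z ∈ P.closure S ∧ z ∉ S) ∧ WuR P S row w δ₁ Om₂ u z) :
    (∀ z ∈ W, TWit (Er P S) (fun t i => Lr P S row w (V i) t) (ASt P S row w u V)
      (fun t x y v => t ∈ P.closure (S \ {x, y, v})) (SX S row u V) T z) ∧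
    ∃ (C : Fin 3 → Set α) (Lk : Set α), StarSplit (Er P S) (fun t i => Lr P S row w (V i) t)
      (ASt P S row w u V) (fun t x y v => t ∈ P.closure (S \ {x, y, v})) (SX S row u V) C T W Lk := by
  have hsx : ∀ z ∈ W, SEx P S row w D₀ δ₁ Hs₀ Om₂ u z := fun z hz =>
    h.sex_wu (hW z hz).1 (hW z hz).2.1 hu (hW z hz).2.2
  have hT' : ∀ t ∈ T, t ∈ P.closure S ∧ t ∉ S ∧ ∀ c : ChW S row w, ∀ x ∈ LocR P S row c.1 t,
      RegW w D₁ Hs₁ x → x ∈ nst wadj u := fun t ht =>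
    ⟨(hT ht).1.1, (hT ht).1.2, (hT ht).2⟩
  refine ⟨fun z hz => h.twit1 hβ hu hnb hT' (hW z hz).1 (fun h1 => (hsx z hz).notMem h (hT h1))
    (hsx z hz), h.split1 hβ hu hnb hT' ?_ fun z hz => ⟨(hW z hz).1, hsx z hz⟩⟩
  rw [disjoint_left]
  exact fun z h1 hz => (hsx z hz).notMem h (hT h1)

/-- the local elements of round 0 -/
theorem Rnd.tStar01 (h : Rnd P S row w Dd β D₀ δ₀ D₁ δ₁ Hm Hs₀ Om₁ Hs₁ Om₂) :
    TStar P S row w D₀ Hs₀ u ⊆ TStar P S row w D₁ Hs₁ u :=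
  fun _ ht => ⟨ht.1, fun c x hx hr => ht.2 c x hx (h.reg01 hr)⟩

/-- the legs of an exit of the star: one leg is seen, the class there is the complement of the class of
the inner end -/
theorem Rnd.starA [P.Finite] (h : Rnd P S row w Dd β D₀ δ₀ D₁ δ₁ Hm Hs₀ Om₁ Hs₁ Om₂)
    (hβ : 4 ≤ β) (hz : z ∈ Dd) (hcl : z ∈ P.closure S ∧ z ∉ S) (hu : VisR w δ₁ Om₂ u)
    (hnb : Nb3 u (V 0) (V 1) (V 2)) (hw : WuR P S row w δ₁ Om₂ u z) :
    ∃ i, VisR w δ₁ Om₂ (V i) ∧ SeeP P S row z u (V i) ∧ Quiet P S row u (V i) z ∧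
      (∀ j, j ≠ i → ¬ SeeP P S row z u (V j) ∧ ∀ x ∈ SX S row u V j, x ∈ ASt P S row w u V z j) ∧
      ∀ x ∈ SX S row u V i, (x ∈ ASt P S row w u V z i ↔ x ∉ Arw P S row w u (V i) z) ∧
        (x ∈ ASt P S row w u V z i ↔ x ∈ Arw P S row w (V i) u z) := by
  have hu1 := h.w1.one_le hu
  have hT := (h.locT hz hcl.1).toLocS
  obtain ⟨-, hclean, v, huv, hv, hs, c, y, hy, hyc, hsub⟩ := h.sex_wu hz hcl hu hw
  have hex := h.exit1 hβ hz hcl.1 hcl.2 huv hu hv hs hclean hy hyc hsub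
  obtain ⟨hq, hzr, hsee, -⟩ := h.w1.exA hT (fun x hx => h.reg01 hx) hu hu hv huv hs hnb hex hsub
  obtain ⟨i, hi⟩ : ∃ i, V i = v := by
    rcases nb3_mem hu1 hnb huv with h1 | h1 | h1
    exacts [⟨0, h1.symm⟩, ⟨1, h1.symm⟩, ⟨2, h1.symm⟩]
  subst hi
  refine ⟨i, hv, hsee, hq, ?_, ?_⟩
  · intro j hji
    have hns : ¬ SeeP P S row z u (V j) := by
      intro h1
      refine hy (hT.near_of_two huv hu hv hs (nb3_adj hnb j) ((h.sn_iff hcl.1 (h.reg hu)).2 h1)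
        (nb3_inj hnb (Ne.symm hji)) c hyc)
    exact ⟨hns, fun x _ h1 => absurd h1 hns⟩
  · intro x hx
    have h1 := (h.w1.ar_leg hu huv c.2.1 c.2.2 hzr hq hsee hx).2
    have h2 : x ∈ ASt P S row w u V z i ↔ x ∉ Lr P S row w u z := ⟨fun h3 => h3 hsee, fun h3 _ => h3⟩
    refine ⟨?_, h2.trans h1.symm⟩
    rw [h2, Arw, if_pos hq]

end

end DA
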