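import Pool.Agent.DA.OnePl
import Pool.Agent.DA.StWit
import Pool.Agent.TST.WitFacts

/-!
# Places of the rungs (helper77)

`PlF`: the facts on the two places of one element `t` (rows `u₁ v₁`, `u₂ v₂`, `A₁`, `A₂` = elements of
the row on the side of `u₁`, `u₂`), which the construction of hosts needs (`RgFacts`).  `plF_far`,
`plF_near`, `plF_two`, `plF_bal`: far rungs, near rungs without a third place, same-row elements with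
two places and balanced same-row elements.
-/

set_option autoImplicit false

open Set BIC BICS
open scoped Matroid

namespace DA

open Gad TST

/-- **Places of one element.** -/
structure PlF {α : Type*} (P : Matroid α) (S : Set α) (row : α → Sym2 (ℕ × ℕ)) (w D₀ δ₁ : ℕ)
    (Hs₀ Om₂ : Finset (ℕ × ℕ)) (t : α) (u₁ v₁ u₂ v₂ : ℕ × ℕ) (A₁ A₂ : Set α) : Prop where
  see : ∀ p q, wadj p q → RegW w D₀ Hs₀ p → RegW w D₀ Hs₀ q → SeeP P S row t p q →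
    s(p, q) = s(u₁, v₁) ∨ s(p, q) = s(u₂, v₂)
  ne₁ : (∃ x ∈ RX S row u₁ v₁, x ∈ A₁) ∧ ∃ x ∈ RX S row u₁ v₁, x ∉ A₁
  ne₂ : (∃ x ∈ RX S row u₂ v₂, x ∈ A₂) ∧ ∃ x ∈ RX S row u₂ v₂, x ∉ A₂
  sep₁ : ∀ x ∈ RX S row u₁ v₁, ∀ y ∈ RX S row u₁ v₁, ¬ Er P S t x y →
    ¬ (x ∈ A₁ ↔ y ∈ A₁) ∨ (s(u₁, v₁) = s(u₂, v₂) ∧ ¬ (x ∈ A₂ ↔ y ∈ A₂))
  sep₂ : ∀ x ∈ RX S row u₂ v₂, ∀ y ∈ RX S row u₂ v₂, ¬ Er P S t x y →
    ¬ (x ∈ A₂ ↔ y ∈ A₂) ∨ (s(u₁, v₁) = s(u₂, v₂) ∧ ¬ (x ∈ A₁ ↔ y ∈ A₁))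
  sep' : ∀ x ∈ S, ∀ y ∈ S, row x = row y →
    ¬ ((row x = s(u₁, v₁) ∧ ¬ (x ∈ A₁ ↔ y ∈ A₁)) ↔ (row x = s(u₂, v₂) ∧ ¬ (x ∈ A₂ ↔ y ∈ A₂))) →
    ¬ Er P S t x y
  dif : s(u₁, v₁) = s(u₂, v₂) → ∃ x ∈ RX S row u₁ v₁, ¬ (x ∈ A₁ ↔ x ∈ A₂)
  brn : ∀ p, VisR w δ₁ Om₂ p → ∀ c : ChW S row w,
    (∀ x ∈ c.1, row x = s(u₁, v₁) → (p = u₁ → x ∈ A₁) ∧ (p = v₁ → x ∉ A₁)) →
    (∀ x ∈ c.1, row x = s(u₂, v₂) → (p = u₂ → x ∈ A₂) ∧ (p = v₂ → x ∉ A₂)) →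
    p ∉ YW P S row w D₀ Hs₀ t c

section

variable {α : Type*} {P : Matroid α} {S : Set α} {row : α → Sym2 (ℕ × ℕ)} {w : ℕ} {D : Set α}
  {β D₀ δ₀ D₁ δ₁ : ℕ} {Hm Hs₀ Om₁ Hs₁ Om₂ : Finset (ℕ × ℕ)} {t : α} {u v u₁ v₁ u₂ v₂ : ℕ × ℕ}

lemma er_refl (x : α) : Er P S t x x := Or.inl rfl

/-- a representative of the row `u v` -/
lemma Rnd.rep_row (_ : Rnd P S row w D β D₀ δ₀ D₁ δ₁ Hm Hs₀ Om₁ Hs₁ Om₂) (huv : wadj u v)
    (hu : VisR w δ₁ Om₂ u) (c : ChW S row w) : ∃ x ∈ c.1, x ∈ RX S row u v := by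
  have hr : ∀ p : ℕ × ℕ, sd u p ≤ 1 → p ∈ rect 0 0 (w + 1) (w + 1) := by
    intro p hp
    have h1 := hu.1
    have h2 := sd_le.1 hp
    unfold DeepR at h1
    simp only at h1
    rw [Gad.mem_rct]
    omega
  obtain ⟨e, he, hee⟩ := c.2.2.surj u v huv (hr u (by rw [sd_self]; omega))
    (hr v (wadj_sd huv).1) (notMem_empty _)
  exact ⟨e, he, c.2.1 he, hee⟩

/-- a row which is seen has elements in both classes -/
lemma ne_of_one {A : Set α} (hs : SeeP P S row t u v)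
    (h1 : ∀ a ∈ RX S row u v, ∀ b ∈ RX S row u v, (Er P S t a b ↔ (a ∈ A ↔ b ∈ A))) :
    (∃ x ∈ RX S row u v, x ∈ A) ∧ ∃ x ∈ RX S row u v, x ∉ A := by
  obtain ⟨x, hx, y, hy, hn⟩ := hs
  rw [h1 x hx y hy] at hn
  by_cases hxA : x ∈ A
  · exact ⟨⟨x, hx, hxA⟩, y, hy, fun h2 => hn ⟨fun _ => h2, fun _ => hxA⟩⟩
  · refine ⟨⟨y, hy, ?_⟩, x, hx, hxA⟩
    by_contra h2
    exact hn ⟨fun h3 => absurd h3 hxA, fun h3 => absurd h3 h2⟩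

/-- **Far rungs.** -/
theorem Rnd.plF_far [P.Finite] (h : Rnd P S row w D β D₀ δ₀ D₁ δ₁ Hm Hs₀ Om₁ Hs₁ Om₂)
    (ht : t ∈ D) (htcl : t ∈ P.closure S)
    (ha₁ : wadj u₁ v₁) (hu₁ : VisR w δ₁ Om₂ u₁) (hv₁ : VisR w δ₁ Om₂ v₁)
    (hs₁ : SeeP P S row t u₁ v₁) (ha₂ : wadj u₂ v₂) (hu₂ : VisR w δ₁ Om₂ u₂)
    (hv₂ : VisR w δ₁ Om₂ v₂) (hs₂ : SeeP P S row t u₂ v₂)
    (hun : u₂ ∉ ({u₁, v₁} : Set (ℕ × ℕ))) (hvn : v₂ ∉ ({u₁, v₁} : Set (ℕ × ℕ))) :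
    PlF P S row w D₀ δ₁ Hs₀ Om₂ t u₁ v₁ u₂ v₂ (Arw P S row w u₁ v₁ t) (Arw P S row w u₂ v₂ t) := by
  have hT := h.locT ht htcl
  have e₁ := (h.sn_iff htcl (h.reg hu₁)).2 hs₁
  have e₂ := (h.sn_iff htcl (h.reg hu₂)).2 hs₂
  have e₁' := hT.snsymm _ _ e₁
  have e₂' := hT.snsymm _ _ e₂
  have hb₁ := wadj_swap ha₁
  have hb₂ := wadj_swap ha₂
  have hun' : u₁ ∉ ({u₂, v₂} : Set (ℕ × ℕ)) := by
    rintro (h1 | h1)
    · exact hun (Or.inl h1.symm)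
    · exact hvn (Or.inl ((mem_singleton_iff.1 h1).symm))
  have hvn' : v₁ ∉ ({u₂, v₂} : Set (ℕ × ℕ)) := by
    rintro (h1 | h1)
    · exact hun (Or.inr (mem_singleton_iff.2 h1.symm))
    · exact hvn (Or.inr (mem_singleton_iff.2 (mem_singleton_iff.1 h1).symm))
  -- quiet at the four ends
  have q1 : Quiet P S row u₁ v₁ t := h.quiet_of_sn (h.reg hu₁) fun b hb hbv =>
    hT.far_quiet ha₁ hu₁ hv₁ e₁ ha₂ (h.reg hu₂) e₂ hun hvn hb hbv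
  have q2 : Quiet P S row v₁ u₁ t := h.quiet_of_sn (h.reg hv₁) fun b hb hbv =>
    hT.far_quiet hb₁ hv₁ hu₁ e₁' ha₂ (h.reg hu₂) e₂ (by rw [pair_comm]; exact hun)
      (by rw [pair_comm]; exact hvn) hb hbv
  have q3 : Quiet P S row u₂ v₂ t := h.quiet_of_sn (h.reg hu₂) fun b hb hbv =>
    hT.far_quiet ha₂ hu₂ hv₂ e₂ ha₁ (h.reg hu₁) e₁ hun' hvn' hb hbv
  have q4 : Quiet P S row v₂ u₂ t := h.quiet_of_sn (h.reg hv₂) fun b hb hbv =>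
    hT.far_quiet hb₂ hv₂ hu₂ e₂' ha₁ (h.reg hu₁) e₁ (by rw [pair_comm]; exact hun')
      (by rw [pair_comm]; exact hvn') hb hbv
  obtain ⟨c₁, y₁, k1, k2, k3⟩ := hT.exit_of_far ha₁ hu₁ hv₁ e₁ ha₂ (h.reg hu₂) (h.reg hv₂) e₂ hun hvn
  obtain ⟨c₂, y₂, l1, l2, l3⟩ := hT.exit_of_far ha₂ hu₂ hv₂ e₂ ha₁ (h.reg hu₁) (h.reg hv₁) e₁ hun'
    hvn'
  obtain ⟨m1, m2, m3⟩ := h.one_place ht htcl ha₁ hu₁ hv₁ hs₁ k1 k2 k3 (Or.inl q1)
  obtain ⟨n1, n2, n3⟩ := h.one_place ht htcl ha₂ hu₂ hv₂ hs₂ l1 l2 l3 (Or.inl q3)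
  have hne : s(u₁, v₁) ≠ s(u₂, v₂) := by
    intro h1
    have h2 : u₁ ∈ s(u₂, v₂) := by
      rw [← h1]
      exact Sym2.mem_mk_left _ _
    rw [Sym2.mem_iff] at h2
    exact hun' h2
  refine ⟨?_, ne_of_one hs₁ m1, ne_of_one hs₂ n1, ?_, ?_, ?_, fun h1 => absurd h1 hne, ?_⟩
  · intro p q hpq hp hq hspq
    have h1 := hT.far_other ha₁ hu₁ hv₁ e₁ ha₂ (h.reg hu₂) e₂ hun hvn hpq hp hq
      ((h.sn_iff htcl hp).2 hspq)
    have hpq' : p ≠ q := by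
      rintro rfl
      have := wadj_par' hpq
      omega
    simp only [mem_insert_iff, mem_singleton_iff] at h1
    rcases h1 with ⟨h2 | h2, h3 | h3⟩ | ⟨h2 | h2, h3 | h3⟩
    · exact absurd (h2.trans h3.symm) hpq'
    · left; rw [h2, h3]
    · left; rw [h2, h3, Sym2.eq_swap]
    · exact absurd (h2.trans h3.symm) hpq'
    · exact absurd (h2.trans h3.symm) hpq'
    · right; rw [h2, h3]
    · right; rw [h2, h3, Sym2.eq_swap]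
    · exact absurd (h2.trans h3.symm) hpq'
  · intro x hx y hy hn
    left
    rwa [m1 x hx y hy] at hn
  · intro x hx y hy hn
    left
    rwa [n1 x hx y hy] at hn
  · intro x hx y hy hxy hn
    by_cases h1 : row x = s(u₁, v₁)
    · have h2 : row x ≠ s(u₂, v₂) := fun h3 => hne (h1.symm.trans h3)
      rw [m1 x ⟨hx, h1⟩ y ⟨hy, hxy.symm.trans h1⟩]
      intro h3
      exact hn ⟨fun h4 => absurd h3 h4.2, fun h4 => absurd h4.1 h2⟩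
    · by_cases h2 : row x = s(u₂, v₂)
      · rw [n1 x ⟨hx, h2⟩ y ⟨hy, hxy.symm.trans h2⟩]
        intro h3
        exact hn ⟨fun h4 => absurd h4.1 h1, fun h4 => absurd h3 h4.2⟩
      · exact absurd ⟨fun h4 => absurd h4.1 h1, fun h4 => absurd h4.1 h2⟩ hn
  · intro p hp c hc₁ hc₂ hpc
    have h1 := hT.supp_far ha₁ hu₁ hv₁ e₁ ha₂ e₂ hun hvn c hpc
    obtain ⟨x₁, hx₁, hx₁'⟩ := h.rep_row ha₁ hu₁ c
    obtain ⟨x₂, hx₂, hx₂'⟩ := h.rep_row ha₂ hu₂ c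
    have g1 := hc₁ x₁ hx₁ hx₁'.2
    have g2 := hc₂ x₂ hx₂ hx₂'.2
    simp only [mem_insert_iff, mem_singleton_iff] at h1
    rcases h1 with h2 | h2 | h2 | h2
    · exact (m2 q1 c x₁ hx₁' hx₁).1 (g1.1 h2) (h2 ▸ hpc)
    · exact g1.2 h2 ((m3 q2 c x₁ hx₁' hx₁).2 (h2 ▸ hpc))
    · exact (n2 q3 c x₂ hx₂' hx₂).1 (g2.1 h2) (h2 ▸ hpc)
    · exact g2.2 h2 ((n3 q4 c x₂ hx₂' hx₂).2 (h2 ▸ hpc))

/-- one leg of a near rung, in both orientations: one place, and the place tells whether the outer end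
is a location -/
lemma Rnd.near_leg [P.Finite] (h : Rnd P S row w D β D₀ δ₀ D₁ δ₁ Hm Hs₀ Om₁ Hs₁ Om₂)
    (ht : t ∈ D) (htcl : t ∈ P.closure S) {o a b b' : ℕ × ℕ}
    (hoa : wadj o a) (ho : VisR w δ₁ Om₂ o) (ha : VisR w δ₁ Om₂ a) (hsa : SeeP P S row t o a)
    (hob : wadj o b) (hsb : SeeP P S row t o b) (hab : a ≠ b) (hob' : wadj o b') (hb'a : b' ≠ a)
    (hb' : ∀ c, b' ∉ YW P S row w D₀ Hs₀ t c)
    (hor : (u₁ = o ∧ v₁ = a) ∨ (u₁ = a ∧ v₁ = o)) :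
    (∀ x ∈ RX S row u₁ v₁, ∀ y ∈ RX S row u₁ v₁,
      (Er P S t x y ↔ (x ∈ Arw P S row w u₁ v₁ t ↔ y ∈ Arw P S row w u₁ v₁ t))) ∧
    SeeP P S row t u₁ v₁ ∧
    ∀ (c : ChW S row w), ∀ x ∈ c.1, row x = s(u₁, v₁) →
      ((o = u₁ → x ∈ Arw P S row w u₁ v₁ t) ∧ (o = v₁ → x ∉ Arw P S row w u₁ v₁ t) →
        a ∈ YW P S row w D₀ Hs₀ t c) ∧
      ((a = u₁ → x ∈ Arw P S row w u₁ v₁ t) ∧ (a = v₁ → x ∉ Arw P S row w u₁ v₁ t) →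
        a ∉ YW P S row w D₀ Hs₀ t c) := by
  have hT := h.locT ht htcl
  have e₁ := (h.sn_iff htcl (h.reg ho)).2 hsa
  have e₂ := (h.sn_iff htcl (h.reg ho)).2 hsb
  have hne : o ≠ a := by
    rintro rfl
    have := wadj_par' hoa
    omega
  have hne' : o ≠ b' := by
    rintro rfl
    have := wadj_par' hob'
    omega
  have hq : Quiet P S row a o t := h.quiet_of_sn (h.reg ha) fun x hx hxo =>
    hT.near_quiet hoa ho ha e₁ hob e₂ hab hx hxo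
  have hnd : ¬ ∀ c, YW P S row w D₀ Hs₀ t c \ {o, a} = nst wadj o \ {o, a} := by
    intro h1
    obtain ⟨c⟩ := hT.ne
    have h2 : b' ∈ nst wadj o \ {o, a} := by
      refine ⟨Or.inr hob', ?_⟩
      rintro (h3 | h3)
      · exact hne' h3.symm
      · exact hb'a h3
    rw [← h1 c] at h2
    exact hb' c h2.1
  obtain ⟨c₁, y₁, k1, k2, k3⟩ := (hT.exit_of_near hoa ho ha e₁ hob e₂ hab).resolve_right hnd
  rcases hor with ⟨rfl, rfl⟩ | ⟨rfl, rfl⟩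
  · obtain ⟨m1, _, m3⟩ := h.one_place ht htcl hoa ho ha hsa k1 k2 k3 (Or.inr hq)
    refine ⟨m1, hsa, fun c x hx hxr => ⟨fun h1 => ?_, fun h1 => ?_⟩⟩
    · exact (m3 hq c x ⟨c.2.1 hx, hxr⟩ hx).1 (h1.1 rfl)
    · exact fun h2 => h1.2 rfl ((m3 hq c x ⟨c.2.1 hx, hxr⟩ hx).2 h2)
  · obtain ⟨m1, m2, _⟩ := h.one_place ht htcl (wadj_swap hoa) ha ho (seeP_symm hsa)
      (by rw [pair_comm]; exact k1) k2 (by
        intro x hx
        have h4 := k3 hx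
        simp only [mem_insert_iff, mem_singleton_iff] at h4 ⊢
        tauto) (Or.inl hq)
    refine ⟨m1, seeP_symm hsa, fun c x hx hxr => ⟨fun h1 => ?_, fun h1 => ?_⟩⟩
    · by_contra h2
      exact h1.2 rfl ((m2 hq c x ⟨c.2.1 hx, hxr⟩ hx).2 h2)
    · exact (m2 hq c x ⟨c.2.1 hx, hxr⟩ hx).1 (h1.1 rfl)

/-- **Near rungs** with the centre `o`, the legs `a`, `b` and no third place. -/
theorem Rnd.plF_near [P.Finite] (h : Rnd P S row w D β D₀ δ₀ D₁ δ₁ Hm Hs₀ Om₁ Hs₁ Om₂)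
    (ht : t ∈ D) (htcl : t ∈ P.closure S) {o a b : ℕ × ℕ}
    (hoa : wadj o a) (ho : VisR w δ₁ Om₂ o) (ha : VisR w δ₁ Om₂ a) (hsa : SeeP P S row t o a)
    (hob : wadj o b) (hb : VisR w δ₁ Om₂ b) (hsb : SeeP P S row t o b) (hab : a ≠ b)
    (h3 : ∀ x, wadj o x → x ≠ a → x ≠ b → ∀ c, x ∉ YW P S row w D₀ Hs₀ t c)
    (hor₁ : (u₁ = o ∧ v₁ = a) ∨ (u₁ = a ∧ v₁ = o)) (hor₂ : (u₂ = o ∧ v₂ = b) ∨ (u₂ = b ∧ v₂ = o)) :
    PlF P S row w D₀ δ₁ Hs₀ Om₂ t u₁ v₁ u₂ v₂ (Arw P S row w u₁ v₁ t) (Arw P S row w u₂ v₂ t) := by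
  have hT := h.locT ht htcl
  have e₁ := (h.sn_iff htcl (h.reg ho)).2 hsa
  have e₂ := (h.sn_iff htcl (h.reg ho)).2 hsb
  have hod : 1 ≤ o.1 ∧ 1 ≤ o.2 := by
    have h1 := ho.1
    unfold DeepR at h1
    simp only at h1
    omega
  obtain ⟨b', hob', hb'a, hb'b⟩ := wadj_third (u := a) (y := b) hod
  have hb' := h3 b' hob' hb'a hb'b
  have hirr : ∀ p : ℕ × ℕ, ¬ wadj p p := by
    intro p hp
    have := wadj_par' hp
    omega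
  obtain ⟨m1, m2, m3⟩ := h.near_leg ht htcl hoa ho ha hsa hob hsb hab hob' hb'a hb' hor₁
  obtain ⟨n1, n2, n3⟩ := h.near_leg ht htcl hob ho hb hsb hoa hsa (Ne.symm hab) hob' hb'b hb' hor₂
  have r₁ : s(u₁, v₁) = s(o, a) := by
    rcases hor₁ with ⟨rfl, rfl⟩ | ⟨rfl, rfl⟩
    · rfl
    · exact Sym2.eq_swap
  have r₂ : s(u₂, v₂) = s(o, b) := by
    rcases hor₂ with ⟨rfl, rfl⟩ | ⟨rfl, rfl⟩
    · rfl
    · exact Sym2.eq_swap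
  have hne : s(u₁, v₁) ≠ s(u₂, v₂) := by
    rw [r₁, r₂]
    intro h1
    have h2 : a ∈ s(o, b) := by
      rw [← h1]
      exact Sym2.mem_mk_right _ _
    rw [Sym2.mem_iff] at h2
    rcases h2 with h2 | h2
    · exact hirr o (h2 ▸ hoa)
    · exact hab h2
  have hsub := hT.near_of_two hoa ho ha e₁ hob e₂ hab
  refine ⟨?_, ne_of_one m2 m1, ne_of_one n2 n1, ?_, ?_, ?_, fun h1 => absurd h1 hne, ?_⟩
  · -- the rows which are seen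
    intro p q hpq hp hq hspq
    have hs := (h.sn_iff htcl hp).2 hspq
    have key : ∀ x, wadj o x → SnW P S row w D₀ Hs₀ t x o → s(o, x) = s(u₁, v₁) ∨
        s(o, x) = s(u₂, v₂) := by
      intro x hox hsx
      by_cases h1 : x = a
      · left; rw [h1, r₁]
      by_cases h2 : x = b
      · right; rw [h2, r₂]
      exfalso
      obtain ⟨c₀⟩ := hT.ne
      have hrx : RegW w D₀ Hs₀ x := h.reg_nb ho hox
      obtain ⟨c, h4, _⟩ := hT.tog x o (wadj_swap hox) hrx hsx c₀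
      exact h3 x hox h1 h2 c h4
    rcases hT.near_other hoa ho ha e₁ hob e₂ hab hpq hp hq hs with rfl | rfl
    · exact key q hpq (hT.snsymm _ _ hs)
    · rw [Sym2.eq_swap]
      exact key p (wadj_swap hpq) hs
  · intro x hx y hy hn
    left
    rwa [m1 x hx y hy] at hn
  · intro x hx y hy hn
    left
    rwa [n1 x hx y hy] at hn
  · intro x hx y hy hxy hn
    by_cases h1 : row x = s(u₁, v₁)
    · have h2 : row x ≠ s(u₂, v₂) := fun h3 => hne (h1.symm.trans h3)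
      rw [m1 x ⟨hx, h1⟩ y ⟨hy, hxy.symm.trans h1⟩]
      intro h3
      exact hn ⟨fun h4 => absurd h3 h4.2, fun h4 => absurd h4.1 h2⟩
    · by_cases h2 : row x = s(u₂, v₂)
      · rw [n1 x ⟨hx, h2⟩ y ⟨hy, hxy.symm.trans h2⟩]
        intro h3
        exact hn ⟨fun h4 => absurd h4.1 h1, fun h4 => absurd h3 h4.2⟩
      · exact absurd ⟨fun h4 => absurd h4.1 h1, fun h4 => absurd h4.1 h2⟩ hn
  · intro p hp c hc₁ hc₂ hpc
    have hu₁' : wadj u₁ v₁ ∧ VisR w δ₁ Om₂ u₁ := by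
      rcases hor₁ with ⟨rfl, rfl⟩ | ⟨rfl, rfl⟩
      · exact ⟨hoa, ho⟩
      · exact ⟨wadj_swap hoa, ha⟩
    have hu₂' : wadj u₂ v₂ ∧ VisR w δ₁ Om₂ u₂ := by
      rcases hor₂ with ⟨rfl, rfl⟩ | ⟨rfl, rfl⟩
      · exact ⟨hob, ho⟩
      · exact ⟨wadj_swap hob, hb⟩
    obtain ⟨x₁, hx₁, hx₁'⟩ := h.rep_row hu₁'.1 hu₁'.2 c
    obtain ⟨x₂, hx₂, hx₂'⟩ := h.rep_row hu₂'.1 hu₂'.2 c
    have g1 := hc₁ x₁ hx₁ hx₁'.2
    have g2 := hc₂ x₂ hx₂ hx₂'.2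
    rcases hsub c hpc with h1 | h1
    · subst h1
      have ka := (m3 c x₁ hx₁ hx₁'.2).1 g1
      have kb := (n3 c x₂ hx₂ hx₂'.2).1 g2
      have n1' : p ≠ a := fun h2 => hirr p (h2 ▸ hoa)
      have n2' : p ≠ b := fun h2 => hirr p (h2 ▸ hob)
      rcases hT.two c p ho hpc with h2 | ⟨v₀, h2⟩
      · exact not_sub_two hpc ka kb n1' n2' hab h2
      · have h4 : v₀ = p := by
          rw [h2] at ka kb
          exact hT.ctr hoa hob hab ka kb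
        refine hb' c ?_
        rw [h2, h4]
        exact Or.inr hob'
    · by_cases h2 : p = a
      · subst h2
        exact (m3 c x₁ hx₁ hx₁'.2).2 g1 hpc
      by_cases h4 : p = b
      · subst h4
        exact (n3 c x₂ hx₂ hx₂'.2).2 g2 hpc
      exact h3 p h1 h2 h4 c hpc

/-- same-row elements (round 0): quiet at both ends, and the classes of the ends tell the locations -/
lemma Rnd.same_row [P.Finite] (h : Rnd P S row w D β D₀ δ₀ D₁ δ₁ Hm Hs₀ Om₁ Hs₁ Om₂)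
    (ht : t ∈ D) (htcl : t ∈ P.closure S) (huv : wadj u v) (hu : VisR w δ₁ Om₂ u)
    (hl : ∀ c, YW P S row w D₀ Hs₀ t c ⊆ {u, v}) :
    Quiet P S row u v t ∧
      ∀ (c : ChW S row w), ∀ x ∈ c.1, x ∈ RX S row u v →
        (x ∈ Lr P S row w u t ↔ u ∉ YW P S row w D₀ Hs₀ t c) := by
  have hT := h.locT ht htcl
  have hq : Quiet P S row u v t := by
    refine h.quiet_of_sn (h.reg hu) fun b hb hbv hs => ?_
    obtain ⟨c₀⟩ := hT.ne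
    obtain ⟨c, h4, _⟩ := hT.tog b u (wadj_swap hb) (h.reg_nb hu hb) (hT.snsymm _ _ hs) c₀
    rcases hl c h4 with h5 | h5
    · subst h5
      have := wadj_par' hb
      omega
    · exact hbv h5
  refine ⟨hq, fun c x hx hxr => ?_⟩
  have hru := h.reg hu
  have h2 := (h.vc u hru.1 hru.2).mem_lr h.wal.sub h.wal.mem hq c.2.1 c.2.2 hxr
  rw [swp_of_mem c.2.2 hx] at h2
  rw [h2]
  exact ⟨fun h3 h4 => h3 h4.1, fun h3 h4 => h3 ⟨h4, hru⟩⟩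

/-- same-row elements: both ends -/
lemma Rnd.same_row' [P.Finite] (h : Rnd P S row w D β D₀ δ₀ D₁ δ₁ Hm Hs₀ Om₁ Hs₁ Om₂)
    (ht : t ∈ D) (htcl : t ∈ P.closure S) (huv : wadj u v) (hu : VisR w δ₁ Om₂ u)
    (hv : VisR w δ₁ Om₂ v) (hl : ∀ c, YW P S row w D₀ Hs₀ t c ⊆ {u, v}) :
    (∀ (c : ChW S row w), ∀ x ∈ c.1, x ∈ RX S row u v →
        (x ∈ Lr P S row w u t ↔ u ∉ YW P S row w D₀ Hs₀ t c) ∧
        (x ∈ Lr P S row w v t ↔ v ∉ YW P S row w D₀ Hs₀ t c)) ∧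
    ∀ p q, wadj p q → RegW w D₀ Hs₀ p → RegW w D₀ Hs₀ q → SeeP P S row t p q →
      s(p, q) = s(u, v) := by
  have hT := h.locT ht htcl
  obtain ⟨_, h1⟩ := h.same_row ht htcl huv hu hl
  obtain ⟨_, h2⟩ := h.same_row ht htcl (wadj_swap huv) hv (u := v) (v := u) (by
    intro c
    rw [pair_comm]
    exact hl c)
  refine ⟨fun c x hx hxr => ⟨h1 c x hx hxr, h2 c x hx ⟨hxr.1, by rw [hxr.2, Sym2.eq_swap]⟩⟩, ?_⟩
  intro p q hpq hp hq hs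
  obtain ⟨c₀⟩ := hT.ne
  have hsn := (h.sn_iff htcl hp).2 hs
  obtain ⟨c, h4, _⟩ := hT.tog p q hpq hp hsn c₀
  obtain ⟨c', h5, _⟩ := hT.tog q p (wadj_swap hpq) hq (hT.snsymm _ _ hsn) c₀
  have hpq' : p ≠ q := by
    rintro rfl
    have := wadj_par' hpq
    omega
  have h6 := hl c h4
  have h7 := hl c' h5
  simp only [mem_insert_iff, mem_singleton_iff] at h6 h7
  rcases h6 with h6 | h6 <;> rcases h7 with h7 | h7
  · exact absurd (h6.trans h7.symm) hpq'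
  · rw [h6, h7]
  · rw [h6, h7, Sym2.eq_swap]
  · exact absurd (h6.trans h7.symm) hpq'

/-- **Same-row elements with two places.** -/
theorem Rnd.plF_two [P.Finite] (h : Rnd P S row w D β D₀ δ₀ D₁ δ₁ Hm Hs₀ Om₁ Hs₁ Om₂)
    (ht : t ∈ D) (htcl : t ∈ P.closure S) (huv : wadj u v) (hu : VisR w δ₁ Om₂ u)
    (hv : VisR w δ₁ Om₂ v) (hl : ∀ c, YW P S row w D₀ Hs₀ t c ⊆ {u, v})
    (h2 : Two (Er P S) (Lr P S row w u) (Lr P S row w v) (RX S row u v) t)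
    (hL : ∃ x ∈ RX S row u v, x ∈ Lr P S row w u t)
    (hR : ∃ x ∈ RX S row u v, x ∈ Lr P S row w v t) :
    PlF P S row w D₀ δ₁ Hs₀ Om₂ t u v u v (Lr P S row w u t) (Lr P S row w v t)ᶜ := by
  obtain ⟨k1, k2⟩ := h.same_row' ht htcl huv hu hv hl
  obtain ⟨xm, hxm, hm1, hm2⟩ := h2.mid
  have hsep : ∀ x ∈ RX S row u v, ∀ y ∈ RX S row u v, ¬ Er P S t x y →
      ¬ (x ∈ Lr P S row w u t ↔ y ∈ Lr P S row w u t) ∨
        ¬ (x ∈ (Lr P S row w v t)ᶜ ↔ y ∈ (Lr P S row w v t)ᶜ) := by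
    intro x hx y hy hn
    rw [h2.cls x hx y hy] at hn
    by_contra hcon
    push Not at hcon
    obtain ⟨g1, g2⟩ := hcon
    refine hn ⟨g1, ?_⟩
    simp only [mem_compl_iff] at g2
    exact not_iff_not.1 g2
  refine ⟨fun p q a b c d => Or.inl (k2 p q a b c d), ⟨hL, xm, hxm, hm1⟩,
    ⟨⟨xm, hxm, hm2⟩, ?_⟩, ?_, ?_, ?_, fun _ => ⟨xm, hxm, fun h3 => hm1 (h3.2 hm2)⟩, ?_⟩
  · obtain ⟨x, hx, h3⟩ := hR
    exact ⟨x, hx, fun h4 => h4 h3⟩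
  · intro x hx y hy hn
    rcases hsep x hx y hy hn with h3 | h3
    · exact Or.inl h3
    · exact Or.inr ⟨rfl, h3⟩
  · intro x hx y hy hn
    rcases hsep x hx y hy hn with h3 | h3
    · exact Or.inr ⟨rfl, h3⟩
    · exact Or.inl h3
  · intro x hx y hy hxy hn hE
    by_cases h3 : row x = s(u, v)
    · obtain ⟨h4, h5⟩ := (h2.cls x ⟨hx, h3⟩ y ⟨hy, hxy.symm.trans h3⟩).1 hE
      refine hn ⟨fun h6 => absurd h4 h6.2, fun h6 => absurd ?_ h6.2⟩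
      simp only [mem_compl_iff]
      exact not_iff_not.2 h5
    · exact hn ⟨fun h6 => absurd h6.1 h3, fun h6 => absurd h6.1 h3⟩
  · intro p hp c hc₁ hc₂ hpc
    obtain ⟨x, hx, hxr⟩ := h.rep_row huv hu c
    obtain ⟨g1, g2⟩ := k1 c x hx hxr
    rcases hl c hpc with h3 | h3
    · subst h3
      exact g1.1 ((hc₁ x hx hxr.2).1 rfl) hpc
    · rw [mem_singleton_iff] at h3
      subst h3
      refine g2.1 ?_ hpc
      by_contra h4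
      exact (hc₂ x hx hxr.2).2 rfl h4

/-- **Balanced same-row elements**; `Z` = the place of a cut. -/
theorem Rnd.plF_bal [P.Finite] (h : Rnd P S row w D β D₀ δ₀ D₁ δ₁ Hm Hs₀ Om₁ Hs₁ Om₂)
    (ht : t ∈ D) (htcl : t ∈ P.closure S) (huv : wadj u v) (hu : VisR w δ₁ Om₂ u)
    (hv : VisR w δ₁ Om₂ v) (hl : ∀ c, YW P S row w D₀ Hs₀ t c ⊆ {u, v})
    (h2 : Bal2 (Er P S) (Lr P S row w u) (Lr P S row w v) (RX S row u v) t) {Z : Set α}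
    (hD : ∃ x ∈ RX S row u v, x ∉ Lr P S row w u t)
    (hL : ∃ x ∈ RX S row u v, x ∈ Lr P S row w u t ∧ x ∈ Z)
    (hR : ∃ x ∈ RX S row u v, x ∈ Lr P S row w u t ∧ x ∉ Z) :
    PlF P S row w D₀ δ₁ Hs₀ Om₂ t u v u v (Z ∩ Lr P S row w u t) (Z ∪ (Lr P S row w u t)ᶜ) := by
  obtain ⟨k1, k2⟩ := h.same_row' ht htcl huv hu hv hl
  obtain ⟨xd, hxd, hd⟩ := hD
  obtain ⟨xl, hxl, hl1, hl2⟩ := hL
  obtain ⟨xr, hxr, hr1, hr2⟩ := hR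
  have hsep : ∀ x ∈ RX S row u v, ∀ y ∈ RX S row u v, ¬ Er P S t x y →
      ¬ (x ∈ Z ∩ Lr P S row w u t ↔ y ∈ Z ∩ Lr P S row w u t) ∨
        ¬ (x ∈ Z ∪ (Lr P S row w u t)ᶜ ↔ y ∈ Z ∪ (Lr P S row w u t)ᶜ) := by
    intro x hx y hy hn
    rw [h2.cls x hx y hy] at hn
    simp only [mem_inter_iff, mem_union, mem_compl_iff]
    by_cases a1 : x ∈ Lr P S row w u t <;> by_cases a2 : y ∈ Lr P S row w u t <;>
      by_cases a3 : x ∈ Z <;> by_cases a4 : y ∈ Z <;> simp [a1, a2, a3, a4] at hn ⊢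
  refine ⟨fun p q a b c d => Or.inl (k2 p q a b c d), ⟨⟨xl, hxl, hl2, hl1⟩, xr, hxr,
    fun h3 => hr2 h3.1⟩, ⟨⟨xl, hxl, Or.inl hl2⟩, xr, hxr, ?_⟩, ?_, ?_, ?_,
    fun _ => ⟨xd, hxd, fun h3 => hd (h3.2 (Or.inr hd)).2⟩, ?_⟩
  · rintro (h3 | h3)
    exacts [hr2 h3, h3 hr1]
  · intro x hx y hy hn
    rcases hsep x hx y hy hn with h3 | h3
    · exact Or.inl h3
    · exact Or.inr ⟨rfl, h3⟩
  · intro x hx y hy hn
    rcases hsep x hx y hy hn with h3 | h3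
    · exact Or.inr ⟨rfl, h3⟩
    · exact Or.inl h3
  · intro x hx y hy hxy hn hE
    by_cases h3 : row x = s(u, v)
    · have h4 := (h2.cls x ⟨hx, h3⟩ y ⟨hy, hxy.symm.trans h3⟩).1 hE
      apply hn
      simp only [h3, true_and, mem_inter_iff, mem_union, mem_compl_iff]
      by_cases a1 : x ∈ Lr P S row w u t <;> by_cases a2 : y ∈ Lr P S row w u t <;>
        by_cases a3 : x ∈ Z <;> by_cases a4 : y ∈ Z <;> simp [a1, a2, a3, a4] at h4 ⊢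
    · exact hn ⟨fun h6 => absurd h6.1 h3, fun h6 => absurd h6.1 h3⟩
  · intro p hp c hc₁ hc₂ hpc
    obtain ⟨x, hx, hxr'⟩ := h.rep_row huv hu c
    obtain ⟨g1, g2⟩ := k1 c x hx hxr'
    rcases hl c hpc with h3 | h3
    · subst h3
      exact g1.1 ((hc₁ x hx hxr'.2).1 rfl).2 hpc
    · rw [mem_singleton_iff] at h3
      subst h3
      refine g2.1 ?_ hpc
      rw [← h2.bal x hxr']
      by_contra h4
      exact (hc₂ x hx hxr'.2).2 rfl (Or.inr h4)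

end

end DA
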