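import Pool.Agent.DA.LabF51
import Pool.Agent.DA.PlF

/-!
# Hidden places of the elements which are local in a star (T-star, helper77)

`near_hid`: an element which is local in the star of `u` and not local on the row `u (V i)` has a place
on another leg (seen or hidden).  `near_one_hid`: if it sees no other leg and is not degenerate, then one
of the other legs has a hidden place at its end and the other one has none.
-/

set_option autoImplicit false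

open Set BIC BICS
open scoped Matroid

namespace DA

open Gad TST

section

variable {α : Type*} {P : Matroid α} {S : Set α} {row : α → Sym2 (ℕ × ℕ)} {w : ℕ} {Dd : Set α}
  {β D₀ δ₀ D₁ δ₁ : ℕ} {Hm Hs₀ Om₁ Hs₁ Om₂ : Finset (ℕ × ℕ)} {u v b x : ℕ × ℕ}
  {V : Fin 3 → ℕ × ℕ} {z : α} {i j k : Fin 3}

/-- a leg which is not seen: no place or a hidden place -/
lemma Rnd.lr_const [P.Finite] (h : Rnd P S row w Dd β D₀ δ₀ D₁ δ₁ Hm Hs₀ Om₁ Hs₁ Om₂)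
    (hb : RegW w D₀ Hs₀ b) (hq : Quiet P S row b u z)
    (hns : ¬ SeeP P S row z u b) :
    (∀ c : ChW S row w, ∀ x ∈ c.1, x ∈ RX S row u b →
      (x ∈ Lr P S row w b z ↔ b ∉ LocR P S row c.1 z)) ∧
    ∀ x ∈ RX S row u b, ∀ y ∈ RX S row u b, x ∈ Lr P S row w b z → y ∈ Lr P S row w b z := by
  have hvc := h.vc b hb.1 hb.2
  have hsw : ∀ {x : α}, x ∈ RX S row u b → x ∈ RX S row b u := fun hx =>
    ⟨hx.1, by rw [hx.2, Sym2.eq_swap]⟩
  constructor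
  · intro c x hx hxr
    have h1 := hvc.mem_lr h.wal.sub h.wal.mem hq c.2.1 c.2.2 (hsw hxr)
    rwa [swp_of_mem c.2.2 hx] at h1
  · intro x hx y hy hxL
    obtain ⟨c, hc, hW⟩ := h.rep
    have h1 := hvc.mem_lr h.wal.sub h.wal.mem hq hc hW (hsw hx)
    have h2 := hvc.mem_lr h.wal.sub h.wal.mem hq hc hW (hsw hy)
    rw [h2]
    rw [h1] at hxL
    refine (hvc.loc_er h.wal.sub hc hW hx.1 hy.1 (hx.2.trans hy.2.symm) ?_
      (rep_of h.wal.mem hW hx.1)).1 ?_ hxL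
    · rw [hx.2]
      exact Sym2.mem_mk_right _ _
    · by_contra h3
      exact hns ⟨x, hx, y, hy, h3⟩

/-- quiet at the outer ends of the star -/
lemma Rnd.quiet_nst₀ [P.Finite] (h : Rnd P S row w Dd β D₀ δ₀ D₁ δ₁ Hm Hs₀ Om₁ Hs₁ Om₂)
    (hu : VisR w δ₁ Om₂ u) (hnb : Nb3 u (V 0) (V 1) (V 2))
    (hz : z ∈ TStar P S row w D₀ Hs₀ u) (i : Fin 3) : Quiet P S row (V i) u z :=
  h.w1.quiet_nst hu hnb (fun c x hx hr => hz.2 c x hx (h.reg01 hr)) i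

/-- **A second place.** -/
theorem Rnd.near_hid [P.Finite] (h : Rnd P S row w Dd β D₀ δ₀ D₁ δ₁ Hm Hs₀ Om₁ Hs₁ Om₂)
    (hu : VisR w δ₁ Om₂ u) (hnb : Nb3 u (V 0) (V 1) (V 2))
    (hz : z ∈ TStar P S row w D₀ Hs₀ u) (hn : z ∉ TRow P S row w D₀ Hs₀ u (V i)) :
    ∃ j, j ≠ i ∧ ∃ x ∈ SX S row u V j, x ∉ Lr P S row w (V j) z := by
  have h1 : ∃ (c : ChW S row w) (x : ℕ × ℕ), x ∈ YW P S row w D₀ Hs₀ z c ∧
      x ∉ ({u, V i} : Set (ℕ × ℕ)) := by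
    by_contra hcon
    push Not at hcon
    exact hn ((mem_TRow₀ u (V i)).2 ⟨hz.1, fun c x hx => hcon c x hx⟩)
  obtain ⟨c, x, hx, hxn⟩ := h1
  have h2 := (mem_tStar₀.1 hz).2 c hx
  have hux : wadj u x := h2.resolve_left fun h3 => hxn (Or.inl h3)
  obtain ⟨j, hj⟩ : ∃ j, V j = x := by
    rcases nb3_mem (h.w1.one_le hu) hnb hux with h3 | h3 | h3
    exacts [⟨0, h3.symm⟩, ⟨1, h3.symm⟩, ⟨2, h3.symm⟩]
  subst hj
  refine ⟨j, ?_, ?_⟩
  · rintro rfl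
    exact hxn (Or.inr rfl)
  · obtain ⟨e, he, hee⟩ := h.rep_row (nb3_adj hnb j) hu c
    exact ⟨e, hee, fun h3 => hx.1 (h3 c.1 c.2.1 c.2.2 he)⟩

/-- **One hidden place.** -/
theorem Rnd.near_one_hid [P.Finite] (h : Rnd P S row w Dd β D₀ δ₀ D₁ δ₁ Hm Hs₀ Om₁ Hs₁ Om₂)
    (hu : VisR w δ₁ Om₂ u) (hnb : Nb3 u (V 0) (V 1) (V 2))
    (hz : z ∈ TStar P S row w D₀ Hs₀ u) (hn : z ∉ TRow P S row w D₀ Hs₀ u (V i))
    (hnd : ¬ ∀ c, YW P S row w D₀ Hs₀ z c \ {u, V i} = nst wadj u \ {u, V i})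
    (hno : ∀ j, j ≠ i → ¬ SeeP P S row z u (V j)) :
    ∃ j k, j ≠ i ∧ k ≠ i ∧ j ≠ k ∧ (∀ x ∈ SX S row u V j, x ∉ Lr P S row w (V j) z) ∧
      ∀ x ∈ SX S row u V k, x ∈ Lr P S row w (V k) z := by
  have hreg : ∀ j, RegW w D₀ Hs₀ (V j) := fun j => h.reg_nb hu (nb3_adj hnb j)
  have hc := fun j (hj : j ≠ i) => h.lr_const (hreg j) (h.quiet_nst₀ hu hnb hz j)
    (hno j hj)
  obtain ⟨j, hji, x, hx, hxL⟩ := h.near_hid hu hnb hz hn
  obtain ⟨k, hki, hkj, hall⟩ := fin3_third (Ne.symm hji)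
  have hj : ∀ y ∈ SX S row u V j, y ∉ Lr P S row w (V j) z := fun y hy h1 =>
    hxL ((hc j hji).2 y hy x hx h1)
  refine ⟨j, k, hji, hki, Ne.symm hkj, hj, ?_⟩
  by_contra hcon
  push Not at hcon
  obtain ⟨y, hy, hyL⟩ := hcon
  have hk : ∀ x ∈ SX S row u V k, x ∉ Lr P S row w (V k) z := fun x hx h1 =>
    hyL ((hc k hki).2 x hx y hy h1)
  refine hnd fun c => ?_
  have hloc : ∀ l, l ≠ i → (∀ x ∈ SX S row u V l, x ∉ Lr P S row w (V l) z) →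
      V l ∈ YW P S row w D₀ Hs₀ z c := by
    intro l hli h1
    obtain ⟨e, he, hee⟩ := h.rep_row (nb3_adj hnb l) hu c
    refine ⟨?_, hreg l⟩
    by_contra h2
    exact h1 e hee (((hc l hli).1 c e he hee).2 h2)
  ext p
  constructor
  · rintro ⟨h1, h2⟩
    exact ⟨(mem_tStar₀.1 hz).2 c h1, h2⟩
  · rintro ⟨h1, h2⟩
    refine ⟨?_, h2⟩
    have hup : wadj u p := h1.resolve_left fun h3 => h2 (Or.inl h3)
    obtain ⟨l, hl⟩ : ∃ l, V l = p := by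
      rcases nb3_mem (h.w1.one_le hu) hnb hup with h3 | h3 | h3
      exacts [⟨0, h3.symm⟩, ⟨1, h3.symm⟩, ⟨2, h3.symm⟩]
    subst hl
    have hli : l ≠ i := by
      rintro rfl
      exact h2 (Or.inr rfl)
    rcases hall l with h3 | h3 | h3
    · exact absurd h3 hli
    · rw [h3]
      exact hloc j hji hj
    · rw [h3]
      exact hloc k hki hk

end

end DA
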