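import Pool.Agent.DA.SymK

/-!
# Three legs in one square, all directions
-/

open Set BIC BICS
open scoped Matroid

namespace DA

open Gad

universe u

lemma vf_fst (T : ℕ) (v : ℕ × ℕ) : (vf T v).1 = v.1 := rfl

lemma vf_snd (T : ℕ) (v : ℕ × ℕ) : (vf T v).2 = fl T v.2 := rfl

lemma vf_adj {T : ℕ} {p q : ℕ × ℕ} (hp : p.2 ≤ T) (hq : q.2 ≤ T) (h : adj p q) :
    adj (vf T p) (vf T q) := by
  unfold adj at h ⊢
  unfold vf fl
  simp only
  split_ifs <;> omega

lemma vf_ray {T d : ℕ} (hd : d < 4) {s v : ℕ × ℕ} (hs : s.2 ≤ T) (hv : v.2 ≤ T) :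
    ray d (vf T s) v ↔ ray (dfl d) s (vf T v) := by
  have e1 : fl T s.2 = T - s.2 := if_pos hs
  have e2 : fl T v.2 = T - v.2 := if_pos hv
  have h : d = 0 ∨ d = 1 ∨ d = 2 ∨ d = 3 := by omega
  rcases h with rfl | rfl | rfl | rfl
  · rw [show dfl 0 = 0 from rfl]
    unfold ray
    simp only [vf_fst, vf_snd, e1, e2, true_and]
    omega
  · rw [show dfl 1 = 1 from rfl]
    unfold ray
    simp only [vf_fst, vf_snd, e1, e2, true_and]
    omega
  · rw [show dfl 2 = 3 from rfl]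
    unfold ray
    simp only [vf_fst, vf_snd, e1, e2, true_and]
    omega
  · rw [show dfl 3 = 2 from rfl]
    unfold ray
    simp only [vf_fst, vf_snd, e1, e2, true_and]
    omega

lemma sw_ray {d : ℕ} (hd : d < 4) {s v : ℕ × ℕ} : ray d s.swap v ↔ ray (dtr d) s v.swap := by
  have h : d = 0 ∨ d = 1 ∨ d = 2 ∨ d = 3 := by omega
  unfold ray dtr
  simp only [Prod.fst_swap, Prod.snd_swap]
  rcases h with rfl | rfl | rfl | rfl <;> simp

lemma vf_real {T d : ℕ} {K : Set (ℕ × ℕ)} (hd : d < 4) {s : ℕ × ℕ} (hs : 1 ≤ s.2)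
    (hs' : s.2 + 1 ≤ T) : real (vf T ⁻¹' K) d (vf T s) = vf T (real K (dfl d) s) := by
  classical
  have hi := vf_inv T s
  have e1 : fl T s.2 = T - s.2 := if_pos (by omega)
  have e2 : fl T (s.2 + 1) = T - (s.2 + 1) := if_pos (by omega)
  have e3 : fl T (s.2 - 1) = T - (s.2 - 1) := if_pos (by omega)
  unfold real
  rw [mem_preimage, hi]
  by_cases hK : s ∈ K
  · rw [if_pos hK, if_pos hK]
    have h : d = 0 ∨ d = 1 ∨ d = 2 ∨ d = 3 := by omega
    rcases h with rfl | rfl | rfl | rfl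
    · rfl
    · rfl
    · change (s.1, fl T s.2 + 1) = (s.1, fl T (s.2 - 1))
      rw [e1, e3]
      exact Prod.ext rfl (by simp only; omega)
    · change (s.1, fl T s.2 - 1) = (s.1, fl T (s.2 + 1))
      rw [e1, e2]
      exact Prod.ext rfl (by simp only; omega)
  · rw [if_neg hK, if_neg hK]

lemma sw_real {d : ℕ} {K : Set (ℕ × ℕ)} (hd : d < 4) {s : ℕ × ℕ} :
    real (Prod.swap ⁻¹' K) d s.swap = (real K (dtr d) s).swap := by
  classical
  unfold real
  rw [mem_preimage, Prod.swap_swap]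
  by_cases hK : s ∈ K
  · rw [if_pos hK, if_pos hK]
    have h : d = 0 ∨ d = 1 ∨ d = 2 ∨ d = 3 := by omega
    rcases h with rfl | rfl | rfl | rfl <;> rfl
  · rw [if_neg hK, if_neg hK]

lemma dfl_lt {d : ℕ} (h : d < 4) : dfl d < 4 := by
  unfold dfl
  split_ifs <;> omega

lemma dfl_dfl (d : ℕ) : dfl (dfl d) = d := by
  by_cases h2 : d = 2
  · subst h2
    rfl
  · by_cases h3 : d = 3
    · subst h3
      rfl
    · have h4 : dfl d = d := by
        unfold dfl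
        rw [if_neg h2, if_neg h3]
      rw [h4, h4]

lemma dtr_lt {d : ℕ} (h : d < 4) : dtr d < 4 := by
  unfold dtr
  split_ifs <;> omega

lemma dtr_dtr {d : ℕ} (h : d < 4) : dtr (dtr d) = d := by
  have h : d = 0 ∨ d = 1 ∨ d = 2 ∨ d = 3 := by omega
  rcases h with rfl | rfl | rfl | rfl <;> rfl

/-- Flip of the legs. -/
lemma LegsQ.flip {q : ℕ × ℕ} {L m T : ℕ} {Λ K : Set (ℕ × ℕ)} {st : ℕ → ℕ × ℕ}
    (h : LegsQ q L m Λ K st) (hΛ : Λ ⊆ rect q.1 q.2 L L) (hT : q.2 + L ≤ T + 1) :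
    LegsQ (q.1, T + 1 - L - q.2) L (dfl m) (vf T ⁻¹' Λ) (vf T ⁻¹' K)
      (fun d => vf T (st (dfl d))) := by
  have hne : ∀ {d}, d ≠ dfl m → dfl d ≠ m := by
    intro d h1 h2
    apply h1
    rw [← h2, dfl_dfl]
  have hvT : ∀ v : ℕ × ℕ, (vf T v).2 ≤ T → v.2 ≤ T := by
    intro v hv
    rw [vf_snd] at hv
    unfold fl at hv
    split_ifs at hv
    · assumption
    · omega
  refine ⟨?_, ?_, ?_, ?_, ?_, ?_⟩
  · intro d hd hdm
    obtain ⟨g1, g2, g3, g4⟩ := h.inn (dfl d) (dfl_lt hd) (hne hdm)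
    have e1 : fl T (st (dfl d)).2 = T - (st (dfl d)).2 := if_pos (by omega)
    unfold Inn
    simp only [vf_fst, vf_snd, e1]
    omega
  · intro d hd d' hd' hdm hdm' hdd v hv hv'
    obtain ⟨g1, g2, g3, g4⟩ := h.inn (dfl d) (dfl_lt hd) (hne hdm)
    obtain ⟨k1, k2, k3, k4⟩ := h.inn (dfl d') (dfl_lt hd') (hne hdm')
    have e1 : fl T (st (dfl d)).2 = T - (st (dfl d)).2 := if_pos (by omega)
    have e2 : fl T (st (dfl d')).2 = T - (st (dfl d')).2 := if_pos (by omega)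
    by_cases hvt : v.2 ≤ T
    · rw [vf_ray hd (by omega) hvt] at hv
      rw [vf_ray hd' (by omega) hvt] at hv'
      exact h.dis (dfl d) (dfl_lt hd) (dfl d') (dfl_lt hd') (hne hdm) (hne hdm')
        (fun h1 => hdd (by rw [← dfl_dfl d, h1, dfl_dfl])) _ hv hv'
    · unfold ray at hv hv'
      simp only [vf_fst, vf_snd, e1, e2] at hv hv'
      omega
  · intro d hd hdm
    obtain ⟨g1, g2, g3, g4⟩ := h.inn (dfl d) (dfl_lt hd) (hne hdm)
    rw [mem_preimage, vf_real hd (by omega) (by omega), vf_inv T]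
    exact h.start _ (dfl_lt hd) (hne hdm)
  · intro d hd hdm v hv hr
    obtain ⟨g1, g2, g3, g4⟩ := h.inn (dfl d) (dfl_lt hd) (hne hdm)
    have h1 := hΛ hv
    rw [Gad.mem_rct] at h1
    rw [vf_ray hd (by omega) (hvT v (by omega))] at hr
    have h2 := h.clean _ (dfl_lt hd) (hne hdm) _ hv hr
    rw [vf_real hd (by omega) (by omega), ← h2, vf_inv T]
  · intro d hd hdm v hv hvr hr
    obtain ⟨g1, g2, g3, g4⟩ := h.inn (dfl d) (dfl_lt hd) (hne hdm)
    rw [Gad.mem_rct] at hvr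
    simp only at hvr
    have e1 : fl T v.2 = T - v.2 := if_pos (by omega)
    rw [vf_ray hd (by omega) (by omega)] at hr
    have h2 := h.kray _ (dfl_lt hd) (hne hdm) _ hv (by
      rw [Gad.mem_rct, vf_fst, vf_snd, e1]
      omega) hr
    rw [← h2, vf_inv T]
  · intro v hv hvr
    rw [Gad.mem_rct] at hvr
    simp only at hvr
    have e1 : fl T v.2 = T - v.2 := if_pos (by omega)
    obtain ⟨d, hd, hdm, h1⟩ := h.kst _ hv (by
      rw [Gad.mem_rct, vf_fst, vf_snd, e1]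
      omega)
    refine ⟨dfl d, dfl_lt hd, fun h2 => hdm ?_, ?_⟩
    · rw [← dfl_dfl d, h2, dfl_dfl]
    · rw [dfl_dfl, h1, vf_inv T]

/-- Transposition of the legs. -/
lemma LegsQ.tr {q : ℕ × ℕ} {L m : ℕ} (hm : m < 4) {Λ K : Set (ℕ × ℕ)} {st : ℕ → ℕ × ℕ}
    (h : LegsQ q L m Λ K st) :
    LegsQ q.swap L (dtr m) (Prod.swap ⁻¹' Λ) (Prod.swap ⁻¹' K)
      (fun d => (st (dtr d)).swap) := by
  have hne : ∀ {d}, d < 4 → d ≠ dtr m → dtr d ≠ m := by
    intro d hd h1 h2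
    apply h1
    rw [← h2, dtr_dtr hd]
  have hsw : ∀ v : ℕ × ℕ, v ∈ rect q.swap.1 q.swap.2 L L → v.swap ∈ rect q.1 q.2 L L := by
    intro v hv
    rw [Gad.mem_rct] at hv ⊢
    simp only [Prod.fst_swap, Prod.snd_swap] at hv ⊢
    omega
  refine ⟨?_, ?_, ?_, ?_, ?_, ?_⟩
  · intro d hd hdm
    obtain ⟨g1, g2, g3, g4⟩ := h.inn (dtr d) (dtr_lt hd) (hne hd hdm)
    unfold Inn
    simp only [Prod.fst_swap, Prod.snd_swap]
    omega
  · intro d hd d' hd' hdm hdm' hdd v hv hv'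
    rw [sw_ray hd] at hv
    rw [sw_ray hd'] at hv'
    exact h.dis (dtr d) (dtr_lt hd) (dtr d') (dtr_lt hd') (hne hd hdm) (hne hd' hdm')
      (fun h1 => hdd (by rw [← dtr_dtr hd, h1, dtr_dtr hd'])) _ hv hv'
  · intro d hd hdm
    rw [mem_preimage, sw_real hd, Prod.swap_swap]
    exact h.start _ (dtr_lt hd) (hne hd hdm)
  · intro d hd hdm v hv hr
    rw [sw_ray hd] at hr
    have h2 := h.clean _ (dtr_lt hd) (hne hd hdm) _ hv hr
    rw [sw_real hd, ← h2, Prod.swap_swap]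
  · intro d hd hdm v hv hvr hr
    rw [sw_ray hd] at hr
    have h2 := h.kray _ (dtr_lt hd) (hne hd hdm) _ hv (hsw v hvr) hr
    rw [← h2, Prod.swap_swap]
  · intro v hv hvr
    obtain ⟨d, hd, hdm, h1⟩ := h.kst _ hv (hsw v hvr)
    refine ⟨dtr d, dtr_lt hd, fun h2 => hdm ?_, ?_⟩
    · rw [← dtr_dtr hd, h2, dtr_dtr hm]
    · rw [dtr_dtr hd, h1, Prod.swap_swap]

section

variable {α : Type*} {P : Matroid α} {S : Set α} {ends : α → Sym2 (ℕ × ℕ)} {ι : Type*}
  {A Gr K : Set (ℕ × ℕ)} {X : ℕ × ℕ} {n L δ : ℕ} {E : Finset (ℕ × ℕ)} {z : ι → α}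
  {q : ι → ℕ × ℕ}

lemma FamK.bd' (h : FamK P S ends A Gr X n L δ E z (fun t => {q t}) K) (c : ℕ × ℕ)
    (hc : c ∈ E ∨ ∃ t, c = q t) : X.1 + δ ≤ c.1 ∧ X.2 + δ ≤ c.2 ∧ c.1 + L + δ ≤ X.1 + n ∧
      c.2 + L + δ ≤ X.2 + n := by
  refine h.bd c ?_
  rcases hc with hc | ⟨t, hc⟩
  · exact Or.inl hc
  · exact Or.inr ⟨t, Finset.mem_singleton.2 hc⟩

/-- Flip of a family. -/
lemma FamK.flip (h : FamK P S ends A Gr X n L δ E z (fun t => {q t}) K)
    (hA : ∀ v ∈ A, v.2 < 2 * X.2 + n) (hKT : ∀ v ∈ K, v.2 < 2 * X.2 + n) (hn : 1 ≤ n) :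
    FamK P S (symE (vf (2 * X.2 + n - 1)) ends) (vf (2 * X.2 + n - 1) ⁻¹' A)
      (vf (2 * X.2 + n - 1) ⁻¹' Gr) X n L δ
      (E.image fun c => (c.1, 2 * X.2 + n - 1 + 1 - L - c.2)) z
      (fun t => {((q t).1, 2 * X.2 + n - 1 + 1 - L - (q t).2)}) (vf (2 * X.2 + n - 1) ⁻¹' K) := by
  obtain ⟨T, hT⟩ : ∃ T, T = 2 * X.2 + n - 1 := ⟨_, rfl⟩
  rw [← hT]
  have hvT : ∀ v : ℕ × ℕ, (vf T v).2 ≤ T → v.2 ≤ T := by
    intro v hv
    rw [vf_snd] at hv
    unfold fl at hv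
    split_ifs at hv
    · assumption
    · omega
  refine FamK.sym (vf_inv T) (fun c => (c.1, T + 1 - L - c.2)) h ?_ ?_ ?_ ?_ ?_ ?_ ?_ ?_
  · intro p hp q hq hpq
    have h1 := hA p hp
    have h2 := hA q hq
    exact vf_adj (by omega) (by omega) hpq
  · intro p q hp hq hpq
    have h1 := hA _ hp
    have h2 := hA _ hq
    exact vf_adj (hvT p (by omega)) (hvT q (by omega)) hpq
  · intro c hc
    have h1 := h.bd' c hc
    ext v
    rw [mem_preimage, Gad.mem_rct, Gad.mem_rct, vf_fst, vf_snd]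
    simp only
    unfold fl
    split_ifs <;> omega
  · intro c hc c' hc' hcc
    have h1 := h.bd' c hc
    have h2 := h.bd' c' hc'
    simp only [Prod.mk.injEq] at hcc
    exact Prod.ext hcc.1 (by omega)
  · ext v
    rw [mem_preimage, Gad.mem_rct, Gad.mem_rct, vf_fst, vf_snd]
    unfold fl
    split_ifs <;> omega
  · intro c hc c' hc' hfar
    have h1 := h.bd' c hc
    have h2 := h.bd' c' hc'
    unfold CWL.Far at hfar ⊢
    simp only
    omega
  · intro c hc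
    have h1 := h.bd' c hc
    simp only
    omega
  · intro v hv w hw hap
    have h1 := hvT v (by have := hKT _ hv; omega)
    have h2 := hvT w (by have := hKT _ hw; omega)
    have e1 : fl T v.2 = T - v.2 := if_pos h1
    have e2 : fl T w.2 = T - w.2 := if_pos h2
    unfold Apart at hap ⊢
    simp only [vf_fst, vf_snd, e1, e2] at hap
    omega

/-- Transposition of a family. -/
lemma FamK.tr (h : FamK P S ends A Gr X n L δ E z (fun t => {q t}) K) :
    FamK P S (symE Prod.swap ends) (Prod.swap ⁻¹' A) (Prod.swap ⁻¹' Gr) X.swap n L δ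
      (E.image Prod.swap) z (fun t => {(q t).swap}) (Prod.swap ⁻¹' K) := by
  refine FamK.sym (fun v => Prod.swap_swap v) Prod.swap h ?_ ?_ ?_ ?_ ?_ ?_ ?_ ?_
  · intro p _ q _ hpq
    exact adj_swap' hpq
  · intro p q _ _ hpq
    exact adj_swap' hpq
  · intro c _
    exact rect_swap
  · intro c _ c' _ hcc
    exact Prod.swap_injective hcc
  · exact rect_swap
  · intro c _ c' _ hfar
    exact far_swap hfar
  · intro c hc
    have h1 := h.bd' c hc
    simp only [Prod.fst_swap, Prod.snd_swap]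
    omega
  · intro v _ w _ hap
    unfold Apart at hap ⊢
    simp only [Prod.fst_swap, Prod.snd_swap] at hap
    omega

end

/-- **Near, all directions.** -/
theorem clsK_dir (k L m : ℕ) (hL : 2 ≤ L) (hm : m < 4) :
    ∃ N δ : ℕ, ∀ {α : Type u} (P : Matroid α) [P.Finite] (S : Set α)
      (ends : α → Sym2 (ℕ × ℕ)) (A Gr : Set (ℕ × ℕ)) (X : ℕ × ℕ) (n : ℕ)
      (E : Finset (ℕ × ℕ)) (z : Fin N → α) (q : Fin N → ℕ × ℕ) (K : Set (ℕ × ℕ)),
      FamK P S ends A Gr X n L δ E z (fun t => {q t}) K →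
      (∀ v ∈ A, v.1 < 2 * X.1 + n ∧ v.2 < 2 * X.2 + n) →
      (∀ t, ∃ st, LegsQ (q t) L m (CWL.Loc P S ends (z t) ∩ rect (q t).1 (q t).2 L L) K st) →
      HasUniformMinor P k := by
  classical
  obtain ⟨N, δ, hrow⟩ := clsK_one.{u} k L hL
  refine ⟨N, δ + 2, ?_⟩
  intro α P _ S ends A Gr X n E z q K h hA hst
  have hmono : ∀ {ends : α → Sym2 (ℕ × ℕ)} {A Gr : Set (ℕ × ℕ)} {X : ℕ × ℕ}
      {E : Finset (ℕ × ℕ)} {q : Fin N → ℕ × ℕ} {K : Set (ℕ × ℕ)},
      FamK P S ends A Gr X n L (δ + 2) E z (fun t => {q t}) K →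
      FamK P S ends A Gr X n L δ E z (fun t => {q t}) K := by
    intro ends A Gr X E q K h
    refine ⟨h.bic, h.Af, h.grd, h.con, h.GrA, h.full, h.reg, h.zc, h.ne, h.dis, h.disE, ?_, ?_,
      h.loc, h.kA, h.ksp, h.kin⟩
    · intro c c' hc hc' hne
      have h1 := h.far c c' hc hc' hne
      unfold CWL.Far at h1 ⊢
      omega
    · intro c hc
      have h1 := h.bd c hc
      omega
  -- missing vertices are in the squares
  have hKb : ∀ {ends : α → Sym2 (ℕ × ℕ)} {A Gr : Set (ℕ × ℕ)} {X : ℕ × ℕ}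
      {E : Finset (ℕ × ℕ)} {q : Fin N → ℕ × ℕ} {K : Set (ℕ × ℕ)},
      FamK P S ends A Gr X n L (δ + 2) E z (fun t => {q t}) K → ∀ t,
      ∀ v ∈ K, v ∈ rect ((q t).1 - 1) ((q t).2 - 1) (L + 2) (L + 2) →
        v ∈ rect (q t).1 (q t).2 L L := by
    intro ends A Gr X E q K h t v hv hvr
    obtain ⟨t', c, hc, h1⟩ := h.kin v hv
    rw [Finset.mem_singleton] at hc
    subst hc
    by_cases hne : q t = q t'
    · rw [hne]
      exact h1
    · have h2 := h.far (q t) (q t') (Or.inr ⟨t, Finset.mem_singleton_self _⟩)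
        (Or.inr ⟨t', Finset.mem_singleton_self _⟩) hne
      have h3 := h.bd (q t) (Or.inr ⟨t, Finset.mem_singleton_self _⟩)
      rw [Gad.mem_rct] at hvr h1
      unfold CWL.Far at h2
      omega
  -- three directions: left, right, up
  have key : ∀ {ends : α → Sym2 (ℕ × ℕ)} {A Gr : Set (ℕ × ℕ)} {X : ℕ × ℕ}
      {E : Finset (ℕ × ℕ)} {q : Fin N → ℕ × ℕ} {K : Set (ℕ × ℕ)},
      FamK P S ends A Gr X n L (δ + 2) E z (fun t => {q t}) K →
      (∀ t, ∃ st, LegsQ (q t) L 3 (CWL.Loc P S ends (z t) ∩ rect (q t).1 (q t).2 L L) K st) →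
      HasUniformMinor P k := by
    intro ends A Gr X E q K h hst
    refine hrow P S ends A Gr X n E z q K (hmono h) ?_
    intro t
    obtain ⟨st, h1⟩ := hst t
    have h3 := h.bd (q t) (Or.inr ⟨t, Finset.mem_singleton_self _⟩)
    exact ⟨st, h1.ok (by omega) (hKb h t)⟩
  -- ... left, right, down
  have key2 : ∀ {ends : α → Sym2 (ℕ × ℕ)} {A Gr : Set (ℕ × ℕ)} {X : ℕ × ℕ}
      {E : Finset (ℕ × ℕ)} {q : Fin N → ℕ × ℕ} {K : Set (ℕ × ℕ)},
      FamK P S ends A Gr X n L (δ + 2) E z (fun t => {q t}) K →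
      (∀ v ∈ A, v.2 < 2 * X.2 + n) →
      (∀ t, ∃ st, LegsQ (q t) L 2 (CWL.Loc P S ends (z t) ∩ rect (q t).1 (q t).2 L L) K st) →
      HasUniformMinor P k := by
    intro ends A Gr X E q K h hA hst
    by_cases hN : Nonempty (Fin N)
    · obtain ⟨t₀⟩ := hN
      have h0 := h.bd (q t₀) (Or.inr ⟨t₀, Finset.mem_singleton_self _⟩)
      have hKT : ∀ v ∈ K, v.2 < 2 * X.2 + n := by
        intro v hv
        obtain ⟨t', c, hc, h1⟩ := h.kin v hv
        have h3 := h.bd c (Or.inr ⟨t', hc⟩)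
        rw [Gad.mem_rct] at h1
        omega
      refine key (h.flip hA hKT (by omega)) ?_
      intro t
      obtain ⟨st, h1⟩ := hst t
      have h3 := h.bd (q t) (Or.inr ⟨t, Finset.mem_singleton_self _⟩)
      have h2 := h1.flip inter_subset_right (T := 2 * X.2 + n - 1) (by omega)
      have e : CWL.Loc P S (symE (vf (2 * X.2 + n - 1)) ends) (z t) ∩
          rect (q t).1 (2 * X.2 + n - 1 + 1 - L - (q t).2) L L =
          vf (2 * X.2 + n - 1) ⁻¹' (CWL.Loc P S ends (z t) ∩ rect (q t).1 (q t).2 L L) := by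
        rw [loc_symE (vf_inv _)]
        ext v
        simp only [mem_inter_iff, mem_preimage, Gad.mem_rct, vf_fst, vf_snd]
        refine and_congr_right fun _ => ?_
        unfold fl
        split_ifs <;> omega
      rw [← e] at h2
      exact ⟨_, h2⟩
    · refine key h ?_
      intro t
      exact absurd ⟨t⟩ hN
  have hm' : m = 3 ∨ m = 2 ∨ m = 0 ∨ m = 1 := by omega
  rcases hm' with rfl | rfl | rfl | rfl
  · exact key h hst
  · exact key2 h (fun v hv => (hA v hv).2) hst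
  · refine key h.tr ?_
    intro t
    obtain ⟨st, h1⟩ := hst t
    have h2 := h1.tr (by omega)
    rw [preimage_inter, rect_swap, ← loc_symE (fun v => Prod.swap_swap v)] at h2
    exact ⟨_, h2⟩
  · refine key2 h.tr ?_ ?_
    · intro v hv
      exact (hA _ hv).1
    intro t
    obtain ⟨st, h1⟩ := hst t
    have h2 := h1.tr (by omega)
    rw [preimage_inter, rect_swap, ← loc_symE (fun v => Prod.swap_swap v)] at h2
    exact ⟨_, h2⟩

end DA
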