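import Pool.Agent.DA.LabF51
import Pool.Agent.DA.StWit

/-!
# (ONE) elements with the foot next to the row (T-star, helper94)

`LikeE u v y z`: `z` is a (ONE) element of the row `u v`, and its second node is always the neighbour `y`
of `u`.  Such an element is clean in both rounds, it is an exit of the row and of the star of `v`, and it
makes a pair with every exit of the star of `u`.
-/

set_option autoImplicit false

open Set BIC BICS
open scoped Matroid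

namespace DA

open Gad TST

/-- **near-like (ONE) elements** -/
structure LikeE {α : Type*} (P : Matroid α) (S : Set α) (row : α → Sym2 (ℕ × ℕ)) (w : ℕ)
    (D₀ δ₁ : ℕ) (Hs₀ Om₂ : Finset (ℕ × ℕ)) (u v y : ℕ × ℕ) (z : α) : Prop where
  one : OneE P S row w D₀ δ₁ Hs₀ Om₂ u v z
  adj : wadj u y
  ne : y ≠ v
  uns : ∀ p q, wadj p q → SnW P S row w D₀ Hs₀ z p q → s(p, q) = s(u, v)
  fix : ∀ c, YW P S row w D₀ Hs₀ z c \ {u, v} = {y}

/-- a location system which sees only one row -/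
lemma LocS.fix_of_uns {V Ch : Type*} {adj : V → V → Prop} {Reg Vis : V → Prop} {Y : Ch → Set V}
    {Sn : V → V → Prop} (h : LocS adj Reg Vis Y Sn) {u v : V}
    (hu : ∀ p q, adj p q → Sn p q → s(p, q) = s(u, v)) (c c' : Ch) :
    Y c \ {u, v} = Y c' \ {u, v} := by
  refine h.path (fun A => Y c \ {u, v} = A \ {u, v}) ?_ c c' rfl
  intro c₁ c₂ p q hpq hs hk he
  have h1 := hu p q hpq hs
  refine he.trans ?_
  ext x
  simp only [mem_sdiff, mem_insert_iff, mem_singleton_iff, not_or]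
  have key : x ≠ u → x ≠ v → (x ∈ Y c₁ ↔ x ∈ Y c₂) := by
    intro h2 h3
    rw [Sym2.eq_iff] at h1
    rcases h1 with ⟨rfl, rfl⟩ | ⟨rfl, rfl⟩
    · exact hk x h2 h3
    · exact hk x h3 h2
  exact ⟨fun h2 => ⟨(key h2.2.1 h2.2.2).1 h2.1, h2.2⟩, fun h2 => ⟨(key h2.2.1 h2.2.2).2 h2.1, h2.2⟩⟩

section

variable {α : Type*} {P : Matroid α} {S : Set α} {row : α → Sym2 (ℕ × ℕ)} {w : ℕ} {Dd : Set α}
  {β D₀ δ₀ D₁ δ₁ : ℕ} {Hm Hs₀ Om₁ Hs₁ Om₂ : Finset (ℕ × ℕ)} {u v a y y' : ℕ × ℕ}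
  {V : Fin 3 → ℕ × ℕ} {z t : α} {T : Set α}

/-- **Near-like elements**: local in the star of `u`. -/
theorem Rnd.likeE [P.Finite] (h : Rnd P S row w Dd β D₀ δ₀ D₁ δ₁ Hm Hs₀ Om₁ Hs₁ Om₂)
    (hz : z ∈ Dd) (huv : wadj u v) (hu : VisR w δ₁ Om₂ u) (hv : VisR w δ₁ Om₂ v)
    (hnu : ∀ b, wadj u b → VisR w δ₁ Om₂ b) (ho : OneE P S row w D₀ δ₁ Hs₀ Om₂ u v z)
    (hst : z ∈ TStar P S row w D₀ Hs₀ u) : ∃ y, LikeE P S row w D₀ δ₁ Hs₀ Om₂ u v y z := by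
  have hT := (h.locT hz ho.cl.1).toLocS
  have hsub := (mem_tStar₀.1 hst).2
  have huns : ∀ p q, wadj p q → SnW P S row w D₀ Hs₀ z p q → s(p, q) = s(u, v) := by
    intro p q hpq hs
    rcases hT.star_rows51 hu hsub hpq hs with rfl | rfl
    · exact ho.only p q hpq hu (hnu q hpq) ((h.sn_iff ho.cl.1 (h.reg hu)).1 hs)
    · exact ho.only p q hpq (hnu p (wadj_swap hpq)) hu
        (seeP_symm ((h.sn_iff ho.cl.1 (h.reg hu)).1 (hT.snsymm _ _ hs)))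
  obtain ⟨c, y, h1, h2, h3⟩ := h.oneE_exit hz huv hu hv ho
  refine ⟨y, ho, (hsub c h2).resolve_left fun h4 => h1 (Or.inl h4), fun h4 => h1 (Or.inr h4), huns,
    fun c' => ?_⟩
  rw [← hT.fix_of_uns huns c c']
  exact sdiff_eq_single h1 h2 h3

section like

variable (hl : LikeE P S row w D₀ δ₁ Hs₀ Om₂ u v y z)
include hl

lemma LikeE.nuv : y ∉ ({u, v} : Set (ℕ × ℕ)) := by
  rintro (h1 | h1)
  · have := wadj_par' hl.adj
    rw [h1] at this
    omega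
  · exact hl.ne h1

/-- the foot is always a location -/
lemma LikeE.mem (c : ChW S row w) :
    y ∈ YW P S row w D₀ Hs₀ z c ∧ YW P S row w D₀ Hs₀ z c ⊆ {u, v, y} := by
  have h1 := hl.fix c
  have h2 : y ∈ YW P S row w D₀ Hs₀ z c \ {u, v} := by rw [h1]; rfl
  refine ⟨h2.1, fun x hx => ?_⟩
  by_cases h3 : x ∈ ({u, v} : Set (ℕ × ℕ))
  · rcases h3 with h3 | h3
    · exact Or.inl h3
    · exact Or.inr (Or.inl h3)
  · have h4 : x ∈ YW P S row w D₀ Hs₀ z c \ {u, v} := ⟨hx, h3⟩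
    rw [h1] at h4
    exact Or.inr (Or.inr h4)

lemma LikeE.star (huv : wadj u v) : z ∈ TStar P S row w D₀ Hs₀ u := by
  refine mem_tStar₀.2 ⟨hl.one.cl, fun c x hx => ?_⟩
  rcases (hl.mem c).2 hx with h1 | h1 | h1
  · exact Or.inl h1
  · exact Or.inr (h1 ▸ huv)
  · exact Or.inr ((mem_singleton_iff.1 h1) ▸ hl.adj)

/-- no other row is seen -/
lemma LikeE.er (huv : wadj u v) (hp : RegW w D₀ Hs₀ u)
    (h : Rnd P S row w Dd β D₀ δ₀ D₁ δ₁ Hm Hs₀ Om₁ Hs₁ Om₂) [P.Finite] (hua : wadj u a)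
    (hav : a ≠ v) : ∀ x ∈ RX S row u a, ∀ x' ∈ RX S row u a, Er P S z x x' := by
  intro x hx x' hx'
  by_contra hcon
  have h1 := hl.uns u a hua ((h.sn_iff hl.one.cl.1 hp).2 ⟨x, hx, x', hx', hcon⟩)
  rw [Sym2.eq_iff] at h1
  rcases h1 with h2 | h2
  · exact hav h2.2
  · have := wadj_par' huv
    rw [← h2.1] at this
    omega

end like

section rnd

variable [P.Finite] (h : Rnd P S row w Dd β D₀ δ₀ D₁ δ₁ Hm Hs₀ Om₁ Hs₁ Om₂)
  (hl : LikeE P S row w D₀ δ₁ Hs₀ Om₂ u v y z)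
include h hl

/-- quiet at both ends -/
theorem Rnd.like_quiet (huv : wadj u v) (hu : VisR w δ₁ Om₂ u) (hv : VisR w δ₁ Om₂ v) :
    Quiet P S row u v z ∧ Quiet P S row v u z := by
  have hne : u ≠ v := by
    rintro rfl
    have := wadj_par' huv
    omega
  refine ⟨h.quiet_of_sn (h.reg hu) fun b h1 h2 h3 => ?_,
    h.quiet_of_sn (h.reg hv) fun b h1 h2 h3 => ?_⟩
  · have h4 := hl.uns u b h1 h3
    rw [Sym2.eq_iff] at h4
    rcases h4 with h5 | h5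
    · exact h2 h5.2
    · exact hne h5.1
  · have h4 := hl.uns v b h1 h3
    rw [Sym2.eq_iff] at h4
    rcases h4 with h5 | h5
    · exact hne h5.1.symm
    · exact h2 h5.2

/-- clean in round 1 -/
theorem Rnd.like_clean (huv : wadj u v) (hu : VisR w δ₁ Om₂ u) :
    ∀ c, ∀ x ∈ YW P S row w D₀ Hs₀ z c, OutW δ₁ w Om₂ x := by
  intro c x hx
  rcases (mem_tStar₀.1 (hl.star huv)).2 c hx with h1 | h1
  · rw [h1]
    exact h.out₁ hu
  · have := (wadj_sd h1).1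
    exact (h.near hu (by omega)).1

/-- **Exits of the row**, round 1. -/
theorem Rnd.like_rowX (huv : wadj u v) (hu : VisR w δ₁ Om₂ u) (hv : VisR w δ₁ Om₂ v) :
    RowX P S row w D₀ δ₁ Hs₀ Om₂ u v z := by
  obtain ⟨c, hc, hW⟩ := h.rep
  exact ⟨h.like_clean hl huv hu, ⟨⟨c, hc, hW⟩, y, hl.nuv, hl.mem _⟩,
    Or.inl (h.like_quiet hl huv hu hv).1⟩

/-- **The classes on the row.** -/
theorem Rnd.like_cls (hz : z ∈ Dd) (huv : wadj u v) (hu : VisR w δ₁ Om₂ u)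
    (hv : VisR w δ₁ Om₂ v) : ∀ x ∈ RX S row u v,
      (x ∈ Lr P S row w u z ↔ x ∈ Arw P S row w u v z) ∧
      (x ∈ Lr P S row w v z ↔ x ∉ Arw P S row w u v z) := by
  obtain ⟨c, hc, hW⟩ := h.rep
  obtain ⟨q1, q2⟩ := h.like_quiet hl huv hu hv
  exact h.compl51 hz hl.one.cl.1 huv hu hv hl.one.see (c₀ := ⟨c, hc, hW⟩) hl.nuv (hl.mem _).1
    (hl.mem _).2 q1 q2

/-- **The hidden place**: the foot is always a location, the third neighbour never. -/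
theorem Rnd.like_hid (huv : wadj u v) (hu : VisR w δ₁ Om₂ u) :
    (∀ x ∈ RX S row u y, x ∉ Lr P S row w y z) ∧
      ∀ a, wadj u a → a ≠ v → a ≠ y → ∀ x, x ∈ Lr P S row w a z := by
  constructor
  · intro x hx h1
    obtain ⟨c, hc, hW⟩ := h.rep
    obtain ⟨hc', hW'⟩ := swp_rep hc hW hx.1 (rep_of h.wal.mem hW hx.1)
    exact (hl.mem ⟨_, hc', hW'⟩).1.1 (h1 _ hc' hW' (Or.inr rfl))
  · intro a hua hav hay x
    refine mem_Lr_of_noloc (fun c hc hW h1 => ?_) x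
    rcases (hl.mem ⟨c, hc, hW⟩).2 ⟨h1, h.reg_nb hu hua⟩ with h3 | h3 | h3
    · have := wadj_par' hua
      rw [h3] at this
      omega
    · exact hav h3
    · exact hay h3

/-- **Exits of the star of `v`**, round 1. -/
theorem Rnd.like_sex (huv : wadj u v) (hu : VisR w δ₁ Om₂ u) (hv : VisR w δ₁ Om₂ v) (hz : z ∈ Dd) :
    SEx P S row w D₀ δ₁ Hs₀ Om₂ v z := by
  obtain ⟨c, hc, hW⟩ := h.rep
  have hT := (h.locT hz hl.one.cl.1).toLocS
  obtain ⟨h1, h2⟩ := hl.mem ⟨c, hc, hW⟩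
  refine ⟨hl.one.cl, h.like_clean hl huv hu, u, wadj_swap huv, hu,
    (h.sn_iff hl.one.cl.1 (h.reg hv)).2 (seeP_symm hl.one.see), ⟨c, hc, hW⟩, y, ?_, h1, ?_⟩
  · rintro (h3 | h3)
    · exact hl.ne h3
    · exact hT.tri u v y huv h3 hl.adj
  · intro x hx
    rcases h2 hx with h3 | h3 | h3
    · exact Or.inr (Or.inr (h3 ▸ wadj_swap huv))
    · exact Or.inr (Or.inl h3)
    · exact Or.inl h3

/-- **Star witness at `v`**, round 1, for every set of local elements. -/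
theorem Rnd.like_twit (hβ : 4 ≤ β) (huv : wadj u v) (hu : VisR w δ₁ Om₂ u)
    (hv : VisR w δ₁ Om₂ v) (hz : z ∈ Dd) (hnb : Nb3 v (V 0) (V 1) (V 2))
    (hT : T ⊆ TStar P S row w D₁ Hs₁ v) :
    TWit (Er P S) (fun t i => Lr P S row w (V i) t) (ASt P S row w v V)
      (fun t x y v => t ∈ P.closure (S \ {x, y, v})) (SX S row v V) T z := by
  have hs := h.like_sex hl huv hu hv hz
  exact h.twit1 hβ hv hnb (fun t ht => ⟨(hT ht).1.1, (hT ht).1.2, (hT ht).2⟩) hz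
    (fun h1 => hs.notMem h (hT h1)) hs

/-- **Row witness**, round 1, for every set of local elements. -/
theorem Rnd.like_pwitB (hβ : 4 ≤ β) (huv : wadj u v) (hu : VisR w δ₁ Om₂ u)
    (hv : VisR w δ₁ Om₂ v) (hz : z ∈ Dd)
    (hT : T ⊆ TRow P S row w D₁ Hs₁ u v) :
    PWitB (Er P S) (Lr P S row w u) (Lr P S row w v) (Arw P S row w u v) (RX S row u v) T z :=
  h.rowB hβ hz hl.one.cl.1 hl.one.cl.2 huv hu hv hl.one.see (h.like_rowX hl huv hu hv)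
    fun _ ht => (mem_TRow₁ u v).1 (hT ht)

/-- **Pairs**: a near-like element at `u` and an exit of the star of `u` which sees the row. -/
theorem Rnd.like_pr2 (huv : wadj u v) (hu : VisR w δ₁ Om₂ u) (ht : t ∈ Dd)
    (htcl : t ∈ P.closure S ∧ t ∉ S) (hst : SeeP P S row t u v)
    (hex : ∃ (c : ChW S row w) (y : ℕ × ℕ), y ∉ nst wadj u ∧ y ∈ YW P S row w D₀ Hs₀ t c ∧
      YW P S row w D₀ Hs₀ t c ⊆ insert y (nst wadj u)) :
    Pr2 wadj u v (YW P S row w D₀ Hs₀ z) (YW P S row w D₀ Hs₀ t) := by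
  obtain ⟨c, y', k1, k2, k3⟩ := hex
  have hZ := (h.locT ht htcl.1).toLocS
  have st := (h.sn_iff htcl.1 (h.reg hu)).2 hst
  have k4 := hZ.exit_row huv hu st k1 k2 k3 (by
    intro b hb
    have h4 := (h.w1.reg hu (x := b) (by have := (wadj_sd hb).1; omega)).2.2
    refine wadj_third ?_
    unfold DeepR at h4
    simp only at h4
    omega)
  refine ⟨c, y, y', ⟨hl.nuv, hl.mem c⟩, ⟨?_, k2, k4⟩, ?_, fun h1 => k1 (Or.inr h1.2), fun h1 =>
    hZ.tri u v y huv h1.1 hl.adj⟩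
  · rintro (h4 | h4)
    · exact k1 (Or.inl h4)
    · exact k1 (Or.inr ((mem_singleton_iff.1 h4) ▸ huv))
  · rintro rfl
    exact k1 (Or.inr hl.adj)

/-- **Pairs**: PWitD, round 1. -/
theorem Rnd.like_pwitD (hβ : 4 ≤ β) (huv : wadj u v) (hu : VisR w δ₁ Om₂ u)
    (hv : VisR w δ₁ Om₂ v) (hz : z ∈ Dd) (ht : t ∈ Dd)
    (htcl : t ∈ P.closure S ∧ t ∉ S) (hst : SeeP P S row t u v)
    (htx : RowX P S row w D₀ δ₁ Hs₀ Om₂ u v t)
    (hex : ∃ (c : ChW S row w) (y : ℕ × ℕ), y ∉ nst wadj u ∧ y ∈ YW P S row w D₀ Hs₀ t c ∧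
      YW P S row w D₀ Hs₀ t c ⊆ insert y (nst wadj u))
    (hT : T ⊆ TRow P S row w D₁ Hs₁ u v) :
    PWitD (Er P S) (Lr P S row w u) (Lr P S row w v) (Arw P S row w u v) (RX S row u v) T z t ∧
    PWitD (Er P S) (Lr P S row w u) (Lr P S row w v) (Arw P S row w u v) (RX S row u v) T t z := by
  have hp := h.like_pr2 hl huv hu ht htcl hst hex
  have hTT : ∀ t ∈ T, (t ∈ P.closure S ∧ t ∉ S) ∧
      ∀ c : ChW S row w, ∀ x ∈ LocR P S row c.1 t, RegW w D₁ Hs₁ x → x = u ∨ x = v :=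
    fun _ ht => (mem_TRow₁ u v).1 (hT ht)
  exact ⟨h.rowD hβ hz hl.one.cl.1 hl.one.cl.2 ht htcl.1 htcl.2 huv hu hv hl.one.see hst
      (h.like_rowX hl huv hu hv) htx hp hTT,
    h.rowD hβ ht htcl.1 htcl.2 hz hl.one.cl.1 hl.one.cl.2 huv hu hv hst hl.one.see htx
      (h.like_rowX hl huv hu hv) hp.symm hTT⟩

/-- **Pairs**: PWitD, round 0 (for an exit which is clean only in round 0). -/
theorem Rnd.like_pwitD₀ (hβ : 4 ≤ β) (huv : wadj u v) (hu : VisR w δ₁ Om₂ u)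
    (hv : VisR w δ₁ Om₂ v) (hz : z ∈ Dd) (ht : t ∈ Dd)
    (htcl : t ∈ P.closure S ∧ t ∉ S) (hst : SeeP P S row t u v)
    (ct : ∀ c, ∀ x ∈ YW P S row w D₀ Hs₀ t c, OutW δ₀ w Om₁ x)
    (qt : Quiet P S row u v t ∨ Quiet P S row v u t)
    (hex : ∃ (c : ChW S row w) (y : ℕ × ℕ), y ∉ nst wadj u ∧ y ∈ YW P S row w D₀ Hs₀ t c ∧
      YW P S row w D₀ Hs₀ t c ⊆ insert y (nst wadj u))
    (hT : T ⊆ TRow P S row w D₀ Hs₀ u v) :
    PWitD (Er P S) (Lr P S row w u) (Lr P S row w v) (Arw P S row w u v) (RX S row u v) T z t ∧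
    PWitD (Er P S) (Lr P S row w u) (Lr P S row w v) (Arw P S row w u v) (RX S row u v) T t z := by
  have hp := h.like_pr2 hl huv hu ht htcl hst hex
  have hc : ∀ c, ∀ x ∈ YW P S row w D₀ Hs₀ z c, OutW δ₀ w Om₁ x := fun c x hx =>
    h.clean01 (h.like_clean hl huv hu c x hx)
  have hq := Or.inl (b := Quiet P S row v u z) (h.like_quiet hl huv hu hv).1
  exact ⟨h.pwitD_pr2 hβ hz hl.one.cl ht htcl huv hu hv hc ct hq qt hl.one.see hst hT hp,
    h.pwitD_pr2 hβ ht htcl hz hl.one.cl huv hu hv ct hc qt hq hst hl.one.see hT hp.symm⟩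

end rnd

/-- **Elements which are local in the star of `v`, seen on the row `u v`**: exits of the star of `u`. -/
theorem Rnd.sex_star [P.Finite] (h : Rnd P S row w Dd β D₀ δ₀ D₁ δ₁ Hm Hs₀ Om₁ Hs₁ Om₂)
    (hz : z ∈ Dd) (huv : wadj u v) (hu : VisR w δ₁ Om₂ u) (hv : VisR w δ₁ Om₂ v)
    (hs : SeeP P S row z u v) (hst : z ∈ TStar P S row w D₀ Hs₀ v)
    (hn : z ∉ TRow P S row w D₀ Hs₀ u v)
    (hd : ¬ ∀ c, YW P S row w D₀ Hs₀ z c \ {u, v} = nst wadj v \ {u, v}) :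
    SEx P S row w D₀ δ₁ Hs₀ Om₂ u z := by
  have hT := (h.locT hz hst.1.1).toLocS
  have hsub := (mem_tStar₀.1 hst).2
  have k1 := (h.sn_iff hst.1.1 (h.reg hu)).2 hs
  refine ⟨hst.1, fun c x hx => ?_, v, huv, hv, k1, ?_⟩
  · rcases hsub c hx with h1 | h1
    · rw [h1]
      exact h.out₁ hv
    · have := (wadj_sd h1).1
      exact (h.near hv (by omega)).1
  · rcases hT.cls_star huv hu hv k1 with h1 | h1 | h1
    · refine absurd ((mem_TRow₀ u v).2 ⟨hst.1, fun c x hx => ?_⟩) hn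
      rcases h1 c hx with h2 | h2
      · exact Or.inl h2
      · rcases hsub c hx with h3 | h3
        · exact Or.inr h3
        · exact (hT.tri u v x huv h3 h2).elim
    · exact h1
    · exact absurd h1 hd

/-- exits of the star of `u`: far rungs and near rungs at `v` -/
theorem Rnd.ex_wu [P.Finite] (h : Rnd P S row w Dd β D₀ δ₀ D₁ δ₁ Hm Hs₀ Om₁ Hs₁ Om₂)
    (ht : t ∈ Dd) (htcl : t ∈ P.closure S ∧ t ∉ S) (huv : wadj u v) (hu : VisR w δ₁ Om₂ u)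
    (hv : VisR w δ₁ Om₂ v)
    (hw : FarAt P S row w δ₁ Om₂ u v t ∨ NearAt P S row w δ₁ Om₂ u v t) :
    ∃ (c : ChW S row w) (y : ℕ × ℕ), y ∉ nst wadj u ∧ y ∈ YW P S row w D₀ Hs₀ t c ∧
      YW P S row w D₀ Hs₀ t c ⊆ insert y (nst wadj u) := by
  obtain ⟨-, -, -, -, -, -, h1⟩ := h.sex_wu ht htcl hu ⟨v, hw⟩
  exact h1

/-- exits of the star of `u`: near-like at `v` -/
theorem Rnd.ex_like [P.Finite] (h : Rnd P S row w Dd β D₀ δ₀ D₁ δ₁ Hm Hs₀ Om₁ Hs₁ Om₂)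
    (ht : t ∈ Dd) (huv : wadj u v) (hu : VisR w δ₁ Om₂ u) (hv : VisR w δ₁ Om₂ v)
    (hl : LikeE P S row w D₀ δ₁ Hs₀ Om₂ v u y t) :
    ∃ (c : ChW S row w) (y : ℕ × ℕ), y ∉ nst wadj u ∧ y ∈ YW P S row w D₀ Hs₀ t c ∧
      YW P S row w D₀ Hs₀ t c ⊆ insert y (nst wadj u) := by
  obtain ⟨-, -, -, -, -, -, h1⟩ := h.like_sex hl (wadj_swap huv) hv hu ht
  exact h1

/-- exits of the star of `u`: (ONE) elements which are not local there -/
theorem Rnd.ex_one [P.Finite] (h : Rnd P S row w Dd β D₀ δ₀ D₁ δ₁ Hm Hs₀ Om₁ Hs₁ Om₂)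
    (ht : t ∈ Dd) (huv : wadj u v) (hu : VisR w δ₁ Om₂ u) (hv : VisR w δ₁ Om₂ v)
    (ho : OneE P S row w D₀ δ₁ Hs₀ Om₂ u v t) (hns : t ∉ TStar P S row w D₀ Hs₀ u) :
    ∃ (c : ChW S row w) (y : ℕ × ℕ), y ∉ nst wadj u ∧ y ∈ YW P S row w D₀ Hs₀ t c ∧
      YW P S row w D₀ Hs₀ t c ⊆ insert y (nst wadj u) := by
  rcases (h.locT ht ho.cl.1).cls_star huv hu hv ((h.sn_iff ho.cl.1 (h.reg hu)).2 ho.see) with
    h4 | h4 | h4
  · exact absurd (mem_tStar₀.2 ⟨ho.cl, h4⟩) hns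
  · exact h4
  · exact absurd h4 ho.ndv

end

end DA
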