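import Pool.Agent.DA.OneP51
import Pool.Agent.DA.DegRnd

/-!
# Links with one visible row (T-star, helper51)

`z` sees the visible row `u (V i)`, is local at the star of `u` in round 1 and not local on the row.
`Rnd.t1_star`: it is local at the star of `u` in round 0, and near.  `StarSplit.lk_two`,
`StarSplit.lk_cmp`: a near link has two classes on every leg, its place on the leg `i` is comparable
with the place of another near link which sees a leg on which it sees nothing.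
-/

set_option autoImplicit false

open Set BIC BICS
open scoped Matroid

namespace TST

variable {α : Type*} {d t : α} {E : α → α → α → Prop} {O A : α → Fin 3 → Set α}
  {B : α → α → α → α → Prop} {X C : Fin 3 → Set α} {T W Lk : Set α} {i j : Fin 3}

/-- a near link has two classes on every leg -/
lemma StarSplit.lk_two (h : StarSplit E O A B X C T W Lk) (hd : d ∈ Lk) (hn : NearT O X d)
    (l : Fin 3) {x y : α} (hx : x ∈ X l) (hy : y ∈ X l) :
    E d x y ↔ (x ∈ O d l ↔ y ∈ O d l) := by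
  obtain ⟨a, b, e, -, -, -, -, -, -, hrel, -⟩ := h.near d hd hn
  exact hrel l x hx y hy

/-- comparable places of two near links -/
theorem StarSplit.lk_cmp (h : StarSplit E O A B X C T W Lk) (hd : d ∈ Lk) (hn : NearT O X d)
    (ht : t ∈ Lk) (hnt : NearT O X t) (hji : j ≠ i) (hsee : ∃ x ∈ X j, ∃ y ∈ X j, ¬ E t x y)
    (hnot : ∀ x ∈ X j, ∀ y ∈ X j, E d x y) : CmpOn (X i) (O d i) (O t i) := by
  rcases h.cross d hd hn t ht hnt i with h1 | h1
  · exact h1
  · exfalso
    obtain ⟨x, hx, y, hy, h2⟩ := hsee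
    have h3 := h1 j hji
    rw [h.lk_two ht hnt j hx hy, ← h3 x hx, ← h3 y hy] at h2
    exact h2 ((h.lk_two hd hn j hx hy).1 (hnot x hx y hy))

/-- a near element which is no link lives in the core -/
lemma StarSplit.nl_core (h : StarSplit E O A B X C T W Lk) (hd : d ∈ T) (hdL : d ∉ Lk)
    (hn : NearT O X d) (l : Fin 3) {x : α} (hx : x ∈ X l) (hxC : x ∉ C l) : x ∈ O d l := by
  rcases h.loc d hd hdL with h1 | h1
  · exact h1 l x hx hxC
  · exact absurd hn h1.2

end TST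

namespace DA

open Gad TST

section

variable {α : Type*} {P : Matroid α} {S : Set α} {row : α → Sym2 (ℕ × ℕ)} {w : ℕ}
  {u v : ℕ × ℕ} {c : Set α} {d x y : α}

/-- two elements in the class of the end are not separated -/
lemma er_of_mem_Lr [P.Finite] (hv : VC P S row w v) (hS : S ⊆ P.E)
    (hmem : ∀ e ∈ S, ∃ p q, row e = s(p, q) ∧ wadj p q ∧
      p ∈ rect 0 0 (w + 1) (w + 1) ∧ q ∈ rect 0 0 (w + 1) (w + 1))
    (hrep : ∃ c, c ⊆ S ∧ WallE c row w ∅) (hx : x ∈ RX S row u v) (hy : y ∈ RX S row u v)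
    (h1 : x ∈ Lr P S row w v d) (h2 : y ∈ Lr P S row w v d) : Er P S d x y := by
  obtain ⟨c, hc, hW⟩ := hrep
  obtain ⟨hc₁, hW₁⟩ := swp_rep hc hW hx.1 (rep_of hmem hW hx.1)
  have hyr : row y = row x := hy.2.trans hx.2.symm
  obtain ⟨hc₂, hW₂⟩ := swp_rep hc₁ hW₁ hy.1 ⟨x, Or.inr rfl, hyr.symm⟩
  right
  exact hv.nsep hS hc₁ hW₁ (Or.inr rfl) hy.1 hyr (by rw [hx.2]; exact Sym2.mem_mk_right _ _)
    (h1 _ hc₁ hW₁ (Or.inr rfl)) (h2 _ hc₂ hW₂ (Or.inr rfl))

/-- a location: the representative is not in the class of the end -/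
lemma exists_notMem_Lr (hc : c ⊆ S) (hW : WallE c row w ∅) (hl : v ∈ LocR P S row c d)
    (he : ∃ e ∈ c, row e = s(u, v)) : ∃ x ∈ RX S row u v, x ∉ Lr P S row w v d := by
  obtain ⟨e, he, hee⟩ := he
  exact ⟨e, ⟨hc he, hee⟩, fun h1 => hl (h1 c hc hW he)⟩

end

section rnd

variable {α : Type*} {P : Matroid α} {S : Set α} {row : α → Sym2 (ℕ × ℕ)} {w : ℕ} {D : Set α}
  {β D₀ δ₀ D₁ δ₁ : ℕ} {Hm Hs₀ Om₁ Hs₁ Om₂ : Finset (ℕ × ℕ)} {u : ℕ × ℕ} {V : Fin 3 → ℕ × ℕ}
  {z : α} {i : Fin 3}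

/-- **Local at the star of `u`, not local on the row.** -/
theorem Rnd.t1_star [P.Finite] (h : Rnd P S row w D β D₀ δ₀ D₁ δ₁ Hm Hs₀ Om₁ Hs₁ Om₂)
    (hz : z ∈ D) (hzcl : z ∈ P.closure S) (hu : VisR w δ₁ Om₂ u)
    (hnb : Nb3 u (V 0) (V 1) (V 2)) (hv : VisR w δ₁ Om₂ (V i))
    (hsee : ∃ x ∈ SX S row u V i, ∃ y ∈ SX S row u V i, ¬ Er P S z x y)
    (l1 : Loc1 P S row w D₁ Hs₁ (nst wadj u) z) (n1 : ¬ Loc1 P S row w D₁ Hs₁ {u, V i} z) :
    (∀ c, YW P S row w D₀ Hs₀ z c ⊆ nst wadj u) ∧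
      (∃ j, j ≠ i ∧ ∃ x ∈ SX S row u V j, x ∉ Lr P S row w (V j) z) ∧
      NearT (fun t i => Lr P S row w (V i) t) (SX S row u V) z := by
  have hadj := nb3_adj hnb i
  have hs := seen_of_sep (h.self hu).2.2.1 hsee
  have hT := h.locT hz hzcl
  have hu1 := h.w1.one_le hu
  have e1 := nst_eq hu1 hnb
  -- a location which is not on the row
  have hplace : ∃ j, j ≠ i ∧ ∃ x ∈ SX S row u V j, x ∉ Lr P S row w (V j) z := by
    unfold Loc1 at n1
    push Not at n1
    obtain ⟨c, x, hx, hr, hxn⟩ := n1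
    have h1 := l1 c x hx hr
    rw [e1] at h1
    simp only [mem_insert_iff, mem_singleton_iff, not_or] at h1 hxn
    have key : ∀ j, x = V j → ∃ j, j ≠ i ∧ ∃ x ∈ SX S row u V j, x ∉ Lr P S row w (V j) z := by
      intro j hj
      refine ⟨j, fun h2 => hxn.2 (by rw [hj, h2]), ?_⟩
      refine exists_notMem_Lr c.2.1 c.2.2 (hj ▸ hx) ?_
      obtain ⟨e, he, hee⟩ := (h.w1.legs hu hnb j).2
      obtain ⟨e', he', hee'⟩ := rep_of h.wal.mem c.2.2 he
      exact ⟨e', he', hee'.trans hee⟩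
    rcases h1 with h1 | h1 | h1 | h1
    · exact absurd h1 hxn.1
    · exact key 0 h1
    · exact key 1 h1
    · exact key 2 h1
  have hsd : ∀ x ∈ nst wadj u, sd u x ≤ 6 := by
    rintro x (rfl | hx)
    · rw [sd_self]
      omega
    · have := (wadj_sd hx).1
      omega
  have hsd' : ∀ {x y : ℕ × ℕ}, wadj u x → wadj x y → sd u y ≤ 6 := by
    intro x y h1 h2
    have h3 := (wadj_sd h1).1
    have h4 := (wadj_sd h2).1
    have h5 : sd u y ≤ sd u x + sd x y := sd_tri
    omega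
  refine ⟨?_, hplace, ?_⟩
  · rcases hT.cls_supp hadj hu hv hs with ⟨p, q, hpq, hsn, hpn, hqn, hsub⟩ | h1 | h1 |
      ⟨y, hy, h1⟩
    · exfalso
      -- the far row is not regular in round 1
      obtain ⟨c₀⟩ := hT.ne
      have key : ∀ p q, wadj p q → SnW P S row w D₀ Hs₀ z p q → p ∉ ({u, V i} : Set (ℕ × ℕ)) →
          q ∉ ({u, V i} : Set (ℕ × ℕ)) → ¬ RegW w D₁ Hs₁ p := by
        intro p q hpq hsn hpn hqn hr
        obtain ⟨c, h2, _⟩ := hT.tog p q hpq (h.reg01 hr) hsn c₀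
        have h3 : wadj u p := by
          rcases l1 c p h2.1 hr with h4 | h4
          · exact absurd (Or.inl h4) hpn
          · exact h4
        have hqr := h.near hu (hsd' h3 hpq)
        obtain ⟨c', h5, _⟩ := hT.tog q p (wadj_swap hpq) hqr.2.2.1 (hT.snsymm _ _ hsn) c₀
        rcases l1 c' q h5.1 hqr.2.2.2 with h6 | h6
        · exact hqn (Or.inl h6)
        · exact hT.tri u p q h3 hpq h6
      refine n1 fun c x hx hr => ?_
      have h2 := hsub c ⟨hx, h.reg01 hr⟩
      simp only [mem_insert_iff, mem_singleton_iff] at h2 ⊢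
      rcases h2 with h2 | h2 | h2 | h2
      · exact Or.inl h2
      · exact Or.inr h2
      · exact absurd (h2 ▸ hr) (key p q hpq hsn hpn hqn)
      · exact absurd (h2 ▸ hr) (key q p (wadj_swap hpq) (hT.snsymm _ _ hsn) hqn hpn)
    · exact h1
    · exfalso
      refine n1 fun c x hx hr => ?_
      have h2 := h1 c ⟨hx, h.reg01 hr⟩
      have h3 := l1 c x hx hr
      simp only [mem_insert_iff, mem_singleton_iff]
      rcases h2 with h2 | h2
      · exact Or.inr h2
      · rcases h3 with h3 | h3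
        · exact Or.inl h3
        · exact absurd h3 fun h4 => hT.tri u (V i) x hadj h2 h4
    · intro c x hx
      by_cases hxn : x ∈ ({u, V i} : Set (ℕ × ℕ))
      · rcases hxn with h2 | h2
        · exact Or.inl h2
        · rw [mem_singleton_iff.1 h2]
          exact Or.inr hadj
      · have h2 : x ∈ YW P S row w D₀ Hs₀ z c \ {u, V i} := ⟨hx, hxn⟩
        rw [h1 c] at h2
        have h2' : x = y := h2
        by_cases hr : RegW w D₁ Hs₁ y
        · exact l1 c x hx.1 (h2'.symm ▸ hr)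
        · exfalso
          refine n1 fun c' x' hx' hr' => ?_
          by_contra h3
          have h4 : x' ∈ YW P S row w D₀ Hs₀ z c' \ {u, V i} := ⟨⟨hx', h.reg01 hr'⟩, h3⟩
          rw [h1 c'] at h4
          have h4' : x' = y := h4
          exact hr (h4' ▸ hr')
  · obtain ⟨j, hj, hx⟩ := hplace
    refine ⟨i, j, hj.symm, ?_, hx⟩
    obtain ⟨a, ha, b, hb, hab⟩ := hsee
    by_contra hcon
    push Not at hcon
    refine hab (er_of_mem_Lr (h.w1.vcr hu (hsd _ (Or.inr hadj))) h.wal.sub h.wal.mem h.w1.rep ha hb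
      (hcon a ha) (hcon b hb))

end rnd

end DA
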