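import Pool.Agent.DA.Wit
import Pool.Agent.TST.SplitDef2

/-!
# Witnesses of rows (WIT, T-star, helper33)

From `RowE` and the clauses IN2 to `PWitB`, `PWitD` with the canonical `E = Er`, `L = Lr u`,
`R = Lr v`, `A = Arw`.
-/

set_option autoImplicit false

open Set BIC BICS
open scoped Matroid

namespace DA

open Gad TST

universe u v

/-- the class of the left end for an exit which is quiet at `u` or at `v` -/
noncomputable def Arw {α : Type*} (P : Matroid α) (S : Set α) (row : α → Sym2 (ℕ × ℕ)) (w : ℕ)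
    (u v : ℕ × ℕ) (z : α) : Set α :=
  open Classical in if Quiet P S row u v z then Lr P S row w u z else (Lr P S row w v z)ᶜ

section

variable {α : Type*} {P : Matroid α} {S : Set α} {row : α → Sym2 (ℕ × ℕ)} {w : ℕ} {u v : ℕ × ℕ}
  {c : Set α} {o₁ o₂ z z' t x y : α} {T : Set α}

/-- clause E -/
lemma RowE.relE (h : RowE P S row w u v c o₁ o₂) (htS : t ∉ S) (hx : x ∈ RX S row u v)
    (hy : y ∈ RX S row u v) :
    Eqv (P ／ FRow S row c u v) (PK (RX S row u v) o₁ o₂) t x y ↔ Er P S t x y :=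
  row_E h.uv h.hc h.h₁ h.h₂ h.sub h.s₁ h.s₂ hx hy fun h1 => htS h1.1.1

/-- clause L -/
lemma RowE.relL [P.Finite] (h : RowE P S row w u v c o₁ o₂) (htS : t ∉ S)
    (qu : Quiet P S row u v t) (hx : x ∈ RX S row u v) :
    Eqv (P ／ FRow S row c u v) (PK (RX S row u v) o₁ o₂) t o₁ x ↔ x ∈ Lr P S row w u t := by
  rw [row_L h.uv h.hc h.h₁ h.h₂ h.sub h.s₂ hx fun h1 => htS h1.1.1]
  refine mem_Lr h.cu h.sub h.mem ?_ h.hc h.wal hx.1
  intro a ha a' ha' haa hua hne hne'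
  exact qu a ha a' ha' haa hua (by rw [← hx.2]; exact hne) hne'

/-- clause R -/
lemma RowE.relR [P.Finite] (h : RowE P S row w u v c o₁ o₂) (htS : t ∉ S)
    (qv : Quiet P S row v u t) (hx : x ∈ RX S row u v) :
    Eqv (P ／ FRow S row c u v) (PK (RX S row u v) o₁ o₂) t o₂ x ↔ x ∈ Lr P S row w v t := by
  rw [row_R h.uv h.hc h.h₁ h.h₂ h.sub h.s₁ hx fun h1 => htS h1.1.1]
  refine mem_Lr h.cv h.sub h.mem ?_ h.hc h.wal hx.1
  intro a ha a' ha' haa hua hne hne'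
  refine qv a ha a' ha' haa hua ?_ hne'
  rw [Sym2.eq_swap, ← hx.2]
  exact hne

/-- the ends are not in the row -/
lemma RowE.notin (h : RowE P S row w u v c o₁ o₂) :
    o₁ ∉ RX S row u v ∧ o₂ ∉ RX S row u v ∧ o₁ ≠ o₂ := by
  refine ⟨fun h1 => h.h₁.2.2 ?_, fun h1 => h.h₂.2.2 ?_, ?_⟩
  · rw [h1.2]; exact Sym2.mem_mk_right _ _
  · rw [h1.2]; exact Sym2.mem_mk_left _ _
  · rintro h1
    exact h.h₂.2.2 (h1 ▸ h.h₁.2.1)

lemma RowE.notK (h : RowE P S row w u v c o₁ o₂) (ht : t ∉ S) :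
    t ∉ PK (RX S row u v) o₁ o₂ := by
  rintro (h1 | h1 | h1)
  · exact ht (h1 ▸ h.hc h.h₁.1)
  · exact ht (h1 ▸ h.hc h.h₂.1)
  · exact ht h1.1

/-- the path system of a row -/
lemma RowE.psys [P.Finite] (h : RowE P S row w u v c o₁ o₂) (hT : ∀ t ∈ T, t ∈ P.closure S ∧ t ∉ S)
    (hz : z ∈ P.closure S ∧ z ∉ S) (hzT : z ∉ T)
    (hPP : ∀ C, (P ／ FRow S row c u v).IsCircuit C → z ∈ C → o₁ ∈ C → o₂ ∈ C →
      (∀ x ∈ C, x = z ∨ x = o₁ ∨ x = o₂ ∨ x ∈ RX S row u v ∨ x ∈ T) → False) :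
    PSysB (P ／ FRow S row c u v) (RX S row u v) o₁ o₂ T z := by
  obtain ⟨n1, n2, n3⟩ := h.notin
  refine ⟨h.cir, n1, n2, n3, ?_, ?_, ?_, h.notK hz.2, hzT, ?_⟩
  · intro t ht
    exact h.cl (hT t ht).1 fun h1 => (hT t ht).2 h1.1.1
  · rw [disjoint_left]
    exact fun t ht => h.notK (hT t ht).2
  · exact h.cl hz.1 fun h1 => hz.2 h1.1.1
  · intro C hC hcir hzC h1 h2
    refine hPP C hcir hzC h1 h2 ?_
    intro x hx
    rcases hC hx with ((h3 | h3 | h3) | h3) | h3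
    · exact Or.inr (Or.inl h3)
    · exact Or.inr (Or.inr (Or.inl h3))
    · exact Or.inr (Or.inr (Or.inr (Or.inl h3)))
    · exact Or.inr (Or.inr (Or.inr (Or.inr h3)))
    · exact Or.inl h3

/-- clause A -/
lemma RowE.relA [P.Finite] (h : RowE P S row w u v c o₁ o₂)
    (hs : PSysB (P ／ FRow S row c u v) (RX S row u v) o₁ o₂ T z) (hzS : z ∉ S)
    (hq : Quiet P S row u v z ∨ Quiet P S row v u z)
    (hsee : ∃ x ∈ RX S row u v, ∃ y ∈ RX S row u v, ¬ Er P S z x y) (hx : x ∈ RX S row u v) :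
    Eqv (P ／ FRow S row c u v) (PK (RX S row u v) o₁ o₂) z o₁ x ↔ x ∈ Arw P S row w u v z := by
  by_cases h1 : Quiet P S row u v z
  · rw [Arw, if_pos h1]
    exact h.relL hzS h1 hx
  · rw [Arw, if_neg h1, mem_compl_iff, ← h.relR hzS (hq.resolve_left h1) hx]
    have hsee' : ∃ x ∈ RX S row u v, ∃ y ∈ RX S row u v,
        ¬ Eqv (P ／ FRow S row c u v) (PK (RX S row u v) o₁ o₂) z x y := by
      obtain ⟨a, ha, b, hb, h2⟩ := hsee
      exact ⟨a, ha, b, hb, fun h3 => h2 ((h.relE hzS ha hb).1 h3)⟩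
    rw [hs.rR hsee' hx, not_not]

/-- **(WIT), one exit** -/
theorem RowE.witB [P.Finite] (h : RowE P S row w u v c o₁ o₂)
    (hT : ∀ t ∈ T, t ∈ P.closure S ∧ t ∉ S)
    (qT : ∀ t ∈ T, Quiet P S row u v t ∧ Quiet P S row v u t)
    (hz : z ∈ P.closure S ∧ z ∉ S) (hzT : z ∉ T)
    (hq : Quiet P S row u v z ∨ Quiet P S row v u z)
    (hsee : ∃ x ∈ RX S row u v, ∃ y ∈ RX S row u v, ¬ Er P S z x y)
    (hPP : ∀ C, (P ／ FRow S row c u v).IsCircuit C → z ∈ C → o₁ ∈ C → o₂ ∈ C →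
      (∀ x ∈ C, x = z ∨ x = o₁ ∨ x = o₂ ∨ x ∈ RX S row u v ∨ x ∈ T) → False) :
    PWitB (Er P S) (Lr P S row w u) (Lr P S row w v) (Arw P S row w u v) (RX S row u v) T z := by
  have hs := h.psys hT hz hzT hPP
  refine ⟨_, o₁, o₂, hs, ?_, ?_, ?_, ?_⟩
  · rintro t (ht | ht) x hx y hy
    · exact h.relE (hT t ht).2 hx hy
    · rw [mem_singleton_iff.1 ht]
      exact h.relE hz.2 hx hy
  · exact fun t ht x hx => h.relL (hT t ht).2 (qT t ht).1 hx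
  · exact fun t ht x hx => h.relR (hT t ht).2 (qT t ht).2 hx
  · intro t ht x hx
    rw [mem_singleton_iff.1 ht]
    exact h.relA hs hz.2 hq hsee hx

/-- **(WIT), two exits** -/
theorem RowE.witD [P.Finite] (h : RowE P S row w u v c o₁ o₂)
    (hT : ∀ t ∈ T, t ∈ P.closure S ∧ t ∉ S)
    (qT : ∀ t ∈ T, Quiet P S row u v t ∧ Quiet P S row v u t)
    (hz : z ∈ P.closure S ∧ z ∉ S) (hzT : z ∉ T) (hz' : z' ∈ P.closure S ∧ z' ∉ S) (hzT' : z' ∉ T)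
    (hzz : z ≠ z')
    (hq : Quiet P S row u v z ∨ Quiet P S row v u z)
    (hq' : Quiet P S row u v z' ∨ Quiet P S row v u z')
    (hsee : ∃ x ∈ RX S row u v, ∃ y ∈ RX S row u v, ¬ Er P S z x y)
    (hsee' : ∃ x ∈ RX S row u v, ∃ y ∈ RX S row u v, ¬ Er P S z' x y)
    (hPP : ∀ C, (P ／ FRow S row c u v).IsCircuit C → z ∈ C → o₁ ∈ C → o₂ ∈ C →
      (∀ x ∈ C, x = z ∨ x = o₁ ∨ x = o₂ ∨ x ∈ RX S row u v ∨ x ∈ T) → False)
    (hPP' : ∀ C, (P ／ FRow S row c u v).IsCircuit C → z' ∈ C → o₁ ∈ C → o₂ ∈ C →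
      (∀ x ∈ C, x = z' ∨ x = o₁ ∨ x = o₂ ∨ x ∈ RX S row u v ∨ x ∈ T) → False)
    (hPD : ∀ C, (P ／ FRow S row c u v).IsCircuit C → z ∈ C → z' ∈ C → o₁ ∈ C → o₂ ∈ C →
      (∀ x ∈ C, x = z ∨ x = z' ∨ x = o₁ ∨ x = o₂ ∨ x ∈ RX S row u v ∨ x ∈ T) → False) :
    PWitD (Er P S) (Lr P S row w u) (Lr P S row w v) (Arw P S row w u v) (RX S row u v) T z z' := by
  have hs := h.psys hT hz hzT hPP
  have hs' := h.psys hT hz' hzT' hPP'
  refine ⟨_, o₁, o₂, hs, hs', hzz, ?_, ?_, ?_, ?_, ?_⟩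
  · intro C hC hcir h1 h2 h3 h4
    refine hPD C hcir h1 h2 h3 h4 ?_
    intro x hx
    rcases hC hx with ((h3 | h3 | h3) | h3) | h3 | h3
    · exact Or.inr (Or.inr (Or.inl h3))
    · exact Or.inr (Or.inr (Or.inr (Or.inl h3)))
    · exact Or.inr (Or.inr (Or.inr (Or.inr (Or.inl h3))))
    · exact Or.inr (Or.inr (Or.inr (Or.inr (Or.inr h3))))
    · exact Or.inl h3
    · exact Or.inr (Or.inl h3)
  · rintro t (ht | ht | ht) x hx y hy
    · exact h.relE (hT t ht).2 hx hy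
    · rw [ht]
      exact h.relE hz.2 hx hy
    · rw [mem_singleton_iff.1 ht]
      exact h.relE hz'.2 hx hy
  · exact fun t ht x hx => h.relL (hT t ht).2 (qT t ht).1 hx
  · exact fun t ht x hx => h.relR (hT t ht).2 (qT t ht).2 hx
  · rintro t (ht | ht) x hx
    · rw [ht]
      exact h.relA hs hz.2 hq hsee hx
    · rw [mem_singleton_iff.1 ht]
      exact h.relA hs' hz'.2 hq' hsee' hx

end

end DA
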