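import Pool.Agent.DA.Kinds
import Pool.Agent.DA.ExA
import Pool.Agent.DA.RowWit

/-!
# One place (helper77)

An element of `D` which sees the visible row `u v` and has for some representatives exactly one
location `y` outside of the row (an exit in the weak sense: `y` may be anywhere) has exactly one place
on the row.  No IN0, IN1, IN2 are used, only that there are at most two locations.
-/

set_option autoImplicit false

open Set BIC BICS
open scoped Matroid

namespace DA

open Gad TST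

section vc

variable {α : Type*} {P : Matroid α} {S : Set α} {row : α → Sym2 (ℕ × ℕ)} {w : ℕ} {u v : ℕ × ℕ}
  {c : Set α} {z x y : α}

lemma swp_swp (hxy : row x = row y) : swp row (swp row c x) y = swp row c y := by
  ext e
  constructor
  · rintro (⟨h1 | h1, h2⟩ | h1)
    · exact Or.inl ⟨h1.1, h2⟩
    · rw [mem_singleton_iff] at h1
      rw [h1] at h2
      exact absurd hxy h2
    · exact Or.inr h1
  · rintro (⟨h1, h2⟩ | h1)
    · exact Or.inl ⟨Or.inl ⟨h1, fun h3 => h2 (h3.trans hxy)⟩, h2⟩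
    · exact Or.inr h1

lemma swp_of_mem (hW : WallE c row w ∅) (hx : x ∈ c) : swp row c x = c := by
  ext e
  constructor
  · rintro (h1 | h1)
    · exact h1.1
    · rw [mem_singleton_iff] at h1
      rw [h1]
      exact hx
  · intro he
    by_cases h1 : row e = row x
    · exact Or.inr (hW.inj he hx h1)
    · exact Or.inl ⟨he, h1⟩

/-- the location at `u` for two representatives of a row -/
lemma VC.loc_er [P.Finite] (h : VC P S row w u) (hS : S ⊆ P.E) (hc : c ⊆ S) (hW : WallE c row w ∅)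
    (hx : x ∈ S) (hy : y ∈ S) (hxy : row x = row y) (hux : u ∈ row x)
    (hrx : ∃ e ∈ c, row e = row x) :
    (Er P S z x y → u ∉ LocR P S row (swp row c x) z → u ∉ LocR P S row (swp row c y) z) ∧
      (u ∉ LocR P S row (swp row c x) z → u ∉ LocR P S row (swp row c y) z → Er P S z x y) := by
  obtain ⟨hc₁, hW₁⟩ := swp_rep hc hW hx hrx
  have e1 := swp_swp (c := c) hxy
  constructor
  · rintro (h1 | h1) h2
    · rwa [← h1]
    · by_cases hne : y = x
      · rwa [hne]
      intro h3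
      apply h3
      rw [← e1]
      refine h.swap hS hc₁ hW₁ (Or.inr rfl) hy hxy.symm hux hne h1 ?_
      by_contra h4
      exact h2 h4
  · intro h1 h2
    refine Or.inr (h.nsep hS hc₁ hW₁ (Or.inr rfl) hy hxy.symm hux ?_ ?_)
    · by_contra h4
      exact h1 h4
    · rw [e1]
      by_contra h4
      exact h2 h4

/-- **One place**, from: not both ends are locations. -/
theorem one_vc [P.Finite] (hu : VC P S row w u) (hv : VC P S row w v) (hS : S ⊆ P.E) (hc : c ⊆ S)
    (hW : WallE c row w ∅)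
    (hmem : ∀ e ∈ S, ∃ p q, row e = s(p, q) ∧ wadj p q ∧
      p ∈ rect 0 0 (w + 1) (w + 1) ∧ q ∈ rect 0 0 (w + 1) (w + 1))
    (hnb : ∀ x ∈ RX S row u v, ¬ (u ∈ LocR P S row (swp row c x) z ∧
      v ∈ LocR P S row (swp row c x) z)) (hs : SeeP P S row z u v) :
    (∀ x ∈ RX S row u v, (u ∈ LocR P S row (swp row c x) z ↔ v ∉ LocR P S row (swp row c x) z)) ∧
      ∀ x ∈ RX S row u v, ∀ y ∈ RX S row u v,
        (Er P S z x y ↔ (u ∈ LocR P S row (swp row c x) z ↔ u ∈ LocR P S row (swp row c y) z)) := by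
  have hux : ∀ x ∈ RX S row u v, u ∈ row x ∧ v ∈ row x := by
    intro x hx
    rw [hx.2]
    exact ⟨Sym2.mem_mk_left _ _, Sym2.mem_mk_right _ _⟩
  have hU : ∀ x ∈ RX S row u v, ∀ y ∈ RX S row u v,
      (Er P S z x y → u ∉ LocR P S row (swp row c x) z → u ∉ LocR P S row (swp row c y) z) ∧
      (u ∉ LocR P S row (swp row c x) z → u ∉ LocR P S row (swp row c y) z → Er P S z x y) :=
    fun x hx y hy => hu.loc_er hS hc hW hx.1 hy.1 (hx.2.trans hy.2.symm) (hux x hx).1
      (rep_of hmem hW hx.1)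
  have hV : ∀ x ∈ RX S row u v, ∀ y ∈ RX S row u v,
      (Er P S z x y → v ∉ LocR P S row (swp row c x) z → v ∉ LocR P S row (swp row c y) z) ∧
      (v ∉ LocR P S row (swp row c x) z → v ∉ LocR P S row (swp row c y) z → Er P S z x y) :=
    fun x hx y hy => hv.loc_er hS hc hW hx.1 hy.1 (hx.2.trans hy.2.symm) (hux x hx).2
      (rep_of hmem hW hx.1)
  have hsym : ∀ x y, Er P S z x y → Er P S z y x := by
    rintro x y (h1 | h1)
    · exact Or.inl h1.symm
    · right
      rwa [pair_comm]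
  obtain ⟨x₀, hx₀, y₀, hy₀, hn⟩ := hs
  have hex : ∀ x ∈ RX S row u v, ¬ (u ∉ LocR P S row (swp row c x) z ∧
      v ∉ LocR P S row (swp row c x) z) := by
    rintro x hx ⟨h1, h2⟩
    have key : ∀ a ∈ RX S row u v, u ∉ LocR P S row (swp row c a) z := by
      intro a ha
      by_cases h3 : u ∈ LocR P S row (swp row c a) z
      · have h4 : v ∉ LocR P S row (swp row c a) z := fun h5 => hnb a ha ⟨h3, h5⟩
        exact (hU x hx a ha).1 ((hV x hx a ha).2 h2 h4) h1
      · exact h3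
    exact hn ((hU x₀ hx₀ y₀ hy₀).2 (key x₀ hx₀) (key y₀ hy₀))
  have hone : ∀ x ∈ RX S row u v,
      (u ∈ LocR P S row (swp row c x) z ↔ v ∉ LocR P S row (swp row c x) z) := by
    intro x hx
    constructor
    · exact fun h1 h2 => hnb x hx ⟨h1, h2⟩
    · intro h1
      by_contra h2
      exact hex x hx ⟨h2, h1⟩
  refine ⟨hone, fun x hx y hy => ?_⟩
  constructor
  · intro h1
    constructor
    · intro h2
      by_contra h3
      exact (hU y hy x hx).1 (hsym _ _ h1) h3 h2
    · intro h2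
      by_contra h3
      exact (hU x hx y hy).1 h1 h3 h2
  · intro h1
    by_cases h2 : u ∈ LocR P S row (swp row c x) z
    · exact (hV x hx y hy).2 ((hone x hx).1 h2) ((hone y hy).1 (h1.1 h2))
    · exact (hU x hx y hy).2 h2 fun h3 => h2 (h1.2 h3)

/-- the class of a quiet end -/
lemma VC.mem_lr [P.Finite] (h : VC P S row w u) (hS : S ⊆ P.E)
    (hmem : ∀ e ∈ S, ∃ p q, row e = s(p, q) ∧ wadj p q ∧
      p ∈ rect 0 0 (w + 1) (w + 1) ∧ q ∈ rect 0 0 (w + 1) (w + 1))
    (hq : Quiet P S row u v z) (hc : c ⊆ S) (hW : WallE c row w ∅) (hx : x ∈ RX S row u v) :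
    x ∈ Lr P S row w u z ↔ u ∉ LocR P S row (swp row c x) z := by
  rw [← mem_Lr (t := z) h hS hmem ?_ hc hW hx.1]
  · unfold LocR
    rw [mem_ofPred_eq, not_not]
  · intro a ha a' ha' haa hua hne hne'
    exact hq a ha a' ha' haa hua (by rw [← hx.2]; exact hne) hne'

end vc

/-! ### Location systems -/

/-- an exit of the row `u v` in the weak sense: not both ends are locations together with `y` -/
lemma LocS.not_three {V Ch : Type*} {adj : V → V → Prop} {Reg Vis : V → Prop} {Y : Ch → Set V}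
    {Sn : V → V → Prop} (h : LocS adj Reg Vis Y Sn) {u v y : V} {c : Ch} (huv : adj u v)
    (hu : Vis u) (hy : y ∉ ({u, v} : Set V)) (hyc : y ∈ Y c) (hsub : Y c ⊆ {u, v, y})
    (h3u : ∃ b, adj u b ∧ b ≠ v ∧ b ≠ y) (h3v : ∃ b, adj v b ∧ b ≠ u ∧ b ≠ y) :
    ¬ (u ∈ Y c ∧ v ∈ Y c) := by
  rintro ⟨h1, h2⟩
  simp only [mem_insert_iff, mem_singleton_iff, not_or] at hy
  have huv' := h.adj_ne huv
  rcases h.two c u hu h1 with h3 | ⟨v₀, h3⟩
  · exact not_sub_two h1 h2 hyc huv' (Ne.symm hy.1) (Ne.symm hy.2) h3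
  · rw [h3] at h1 h2 hyc
    have e0 : v₀ = u ∨ v₀ = v := by
      rcases h1 with h4 | h4
      · exact Or.inl h4.symm
      · rcases h2 with h5 | h5
        · exact Or.inr h5.symm
        · exact (h.tri v₀ u v h4 huv h5).elim
    have hcon : ∀ b, adj v₀ b → b = u ∨ b = v ∨ b = y := by
      intro b hb
      have h4 : b ∈ Y c := by
        rw [h3]
        exact Or.inr hb
      have h5 := hsub h4
      simp only [mem_insert_iff, mem_singleton_iff] at h5
      exact h5
    rcases e0 with rfl | rfl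
    · obtain ⟨b, b1, b2, b3⟩ := h3u
      rcases hcon b b1 with h4 | h4 | h4
      · exact h.adj_ne b1 h4.symm
      · exact b2 h4
      · exact b3 h4
    · obtain ⟨b, b1, b2, b3⟩ := h3v
      rcases hcon b b1 with h4 | h4 | h4
      · exact b2 h4
      · exact h.adj_ne b1 h4.symm
      · exact b3 h4

/-! ### Elements of `D` -/

section

variable {α : Type*} {P : Matroid α} {S : Set α} {row : α → Sym2 (ℕ × ℕ)} {w : ℕ} {D : Set α}
  {β D₀ δ₀ D₁ δ₁ : ℕ} {Hm Hs₀ Om₁ Hs₁ Om₂ : Finset (ℕ × ℕ)} {z : α} {u v y : ℕ × ℕ}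

/-- **One place** (in terms of `Arw`): for an element of `D` with exactly one location `y` outside of
the visible row `u v`, for some representatives. -/
theorem Rnd.one_place [P.Finite] (h : Rnd P S row w D β D₀ δ₀ D₁ δ₁ Hm Hs₀ Om₁ Hs₁ Om₂)
    (hz : z ∈ D) (hzcl : z ∈ P.closure S) (huv : wadj u v) (hu : VisR w δ₁ Om₂ u)
    (hv : VisR w δ₁ Om₂ v) (hs : SeeP P S row z u v) {c₀ : ChW S row w}
    (hy : y ∉ ({u, v} : Set (ℕ × ℕ))) (hyc : y ∈ YW P S row w D₀ Hs₀ z c₀)
    (hsub : YW P S row w D₀ Hs₀ z c₀ ⊆ {u, v, y})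
    (hq : Quiet P S row u v z ∨ Quiet P S row v u z) :
    (∀ a ∈ RX S row u v, ∀ b ∈ RX S row u v,
      (Er P S z a b ↔ (a ∈ Arw P S row w u v z ↔ b ∈ Arw P S row w u v z))) ∧
    (Quiet P S row u v z → ∀ (c : ChW S row w), ∀ x ∈ RX S row u v, x ∈ c.1 →
      (x ∈ Arw P S row w u v z ↔ u ∉ YW P S row w D₀ Hs₀ z c)) ∧
    (Quiet P S row v u z → ∀ (c : ChW S row w), ∀ x ∈ RX S row u v, x ∈ c.1 →
      (x ∈ Arw P S row w u v z ↔ v ∈ YW P S row w D₀ Hs₀ z c)) := by
  classical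
  have hT := h.locT hz hzcl
  have hS := h.wal.sub
  have hmem := h.wal.mem
  have hru := h.reg hu
  have hrv := h.reg hv
  have cu := h.vc u hru.1 hru.2
  have cv := h.vc v hrv.1 hrv.2
  have hne : u ≠ v := by
    rintro rfl
    have := wadj_par' huv
    omega
  have hd : ∀ p : ℕ × ℕ, VisR w δ₁ Om₂ p → 1 ≤ p.1 ∧ 1 ≤ p.2 := by
    intro p hp
    have h1 := hp.1
    unfold DeepR at h1
    simp only at h1
    omega
  obtain ⟨c₁, hc, hW⟩ := c₀
  have hrep : ∀ x ∈ RX S row u v, swp row c₁ x ⊆ S ∧ WallE (swp row c₁ x) row w ∅ := fun x hx =>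
    swp_rep hc hW hx.1 (rep_of hmem hW hx.1)
  -- not both ends
  have hnb : ∀ x ∈ RX S row u v, ¬ (u ∈ LocR P S row (swp row c₁ x) z ∧
      v ∈ LocR P S row (swp row c₁ x) z) := by
    intro x hx
    have hyx : y ∉ row x := by
      rw [hx.2, Sym2.mem_iff]
      exact hy
    have key : ∀ p, p ∉ row x → (p ∈ YW P S row w D₀ Hs₀ z ⟨swp row c₁ x, hrep x hx⟩ ↔
        p ∈ YW P S row w D₀ Hs₀ z ⟨c₁, hc, hW⟩) := fun p hp => and_congr_left fun _ => locR_swp hp
    have h1 := hT.not_three (c := ⟨swp row c₁ x, hrep x hx⟩) huv hu hy ((key y hyx).2 hyc) (by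
      intro p hp
      by_cases h2 : p ∈ row x
      · rw [hx.2, Sym2.mem_iff] at h2
        rcases h2 with h2 | h2
        · exact Or.inl h2
        · exact Or.inr (Or.inl h2)
      · exact hsub ((key p h2).1 hp)) (wadj_third (hd u hu)) (wadj_third (hd v hv))
    rintro ⟨h2, h3⟩
    exact h1 ⟨⟨h2, hru⟩, ⟨h3, hrv⟩⟩
  obtain ⟨g1, g2⟩ := one_vc cu cv hS hc hW hmem hnb hs
  -- the canonical class
  have hA : ∀ x ∈ RX S row u v, (x ∈ Arw P S row w u v z ↔ u ∉ LocR P S row (swp row c₁ x) z) := by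
    intro x hx
    by_cases h1 : Quiet P S row u v z
    · rw [Arw, if_pos h1]
      exact cu.mem_lr hS hmem h1 hc hW hx
    · have h2 := hq.resolve_left h1
      have hx' : x ∈ RX S row v u := ⟨hx.1, by rw [hx.2, Sym2.eq_swap]⟩
      rw [Arw, if_neg h1, mem_compl_iff, cv.mem_lr hS hmem h2 hc hW hx', not_not, g1 x hx, not_not]
  refine ⟨?_, ?_, ?_⟩
  · intro a ha b hb
    rw [g2 a ha b hb, hA a ha, hA b hb]
    exact not_iff_not.symm
  · intro h1 c x hx hxc
    have h2 := cu.mem_lr hS hmem h1 c.2.1 c.2.2 hx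
    rw [swp_of_mem c.2.2 hxc] at h2
    rw [Arw, if_pos h1, h2]
    exact ⟨fun h3 h4 => h3 h4.1, fun h3 h4 => h3 ⟨h4, hru⟩⟩
  · intro h1 c x hx hxc
    have hx' : x ∈ RX S row v u := ⟨hx.1, by rw [hx.2, Sym2.eq_swap]⟩
    have h2 := cv.mem_lr hS hmem h1 c.2.1 c.2.2 hx'
    rw [swp_of_mem c.2.2 hxc] at h2
    have h3 := cv.mem_lr hS hmem h1 hc hW hx'
    have h4 := g1 x hx
    rw [hA x hx]
    constructor
    · intro h5
      have h6 : v ∈ LocR P S row (swp row c₁ x) z := by
        by_contra h7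
        exact h5 (h4.2 h7)
      refine ⟨?_, hrv⟩
      by_contra h7
      exact (h3.1 (h2.2 h7)) h6
    · intro h5 h6
      exact (h2.1 (h3.2 (h4.1 h6))) h5.1

end

end DA
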