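import Pool.Agent.DA.RowTree
import Pool.Agent.DA.WRnd
import Pool.Agent.DA.RndLoc
import Pool.Agent.TST.WitFacts

/-!
# Witnesses of a visible row in both rounds (R3 / R6 of T-star, helper33)
-/

set_option autoImplicit false

open Set BIC BICS
open scoped Matroid

namespace DA

open Gad TST

section

variable {α : Type*} {P : Matroid α} {S : Set α} {row : α → Sym2 (ℕ × ℕ)} {w : ℕ} {u v : ℕ × ℕ}
  {c : Set α} {o₁ o₂ z z' t : α} {T : Set α} {D β δe δ : ℕ} {Hs Om : Finset (ℕ × ℕ)} {y y' : ℕ × ℕ}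

/-- the neighbours of a visible vertex are regular -/
lemma WRnd.nb (h : WRnd P S row w D β δe δ Hs Om) {u q : ℕ × ℕ} (hu : OutW δ w Om u)
    (hq : sd q u ≤ 1) : RegV w D Hs q ∧ VC P S row w q := by
  have hdl := h.dl
  have hqo : ∀ x ∈ Hs, 2 < sd q x := by
    intro x hx
    have h1 := apart_iff.1 (hu.2 x (h.hs hx))
    have h2 : sd u x ≤ sd u q + sd q x := sd_tri
    rw [sd_comm (p := u) (q := q)] at h2
    omega
  have hd := hu.1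
  have hdq : ∀ b, b + 1 ≤ δ → DeepR (0, 0) (w + 1) (w + 1) b q := by
    intro b hb
    exact deep_nb hd hq hb
  refine ⟨⟨hdq D (by omega), fun h1 => ?_⟩, h.vc q (hdq 4 (by omega)) fun x hx => ?_⟩
  · have h2 := hqo q h1
    rw [sd_self] at h2
    omega
  · have := hqo x hx
    omega

/-- the ends of a row for the representatives `c` -/
lemma WRnd.rends (h : WRnd P S row w D β δe δ Hs Om) (huv : wadj u v) (hu : OutW δ w Om u)
    (hv : OutW δ w Om v) (hW : WallE c row w ∅) :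
    ∃ o₁ o₂, (o₁ ∈ c ∧ u ∈ row o₁ ∧ v ∉ row o₁) ∧ (o₂ ∈ c ∧ v ∈ row o₂ ∧ u ∉ row o₂) := by
  have hdl := h.dl
  have hu4 : DeepR (0, 0) (w + 1) (w + 1) 4 u := (hu.mono (δ' := 4) (by omega)).1
  have hv4 : DeepR (0, 0) (w + 1) (w + 1) 4 v := (hv.mono (δ' := 4) (by omega)).1
  obtain ⟨o₁, h1, h2, h3⟩ := exists_end hW (wadj_swap huv) hu4
  obtain ⟨o₂, h4, h5, h6⟩ := exists_end hW huv hv4
  exact ⟨o₁, o₂, ⟨h1, h2, h3⟩, h4, h5, h6⟩

/-- the data of a row -/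
lemma WRnd.rowE (h : WRnd P S row w D β δe δ Hs Om) (huv : wadj u v) (hu : OutW δ w Om u)
    (hc : c ⊆ S) (hW : WallE c row w ∅) (h₁ : o₁ ∈ c ∧ u ∈ row o₁ ∧ v ∉ row o₁)
    (h₂ : o₂ ∈ c ∧ v ∈ row o₂ ∧ u ∉ row o₂) : RowE P S row w u v c o₁ o₂ :=
  (h.row u v c o₁ o₂ huv hu hc hW h₁ h₂).1

lemma WRnd.endR (h : WRnd P S row w D β δe δ Hs Om) (hu : OutW δ w Om u) (hv : OutW δ w Om v) :
    EndR P S row w D Hs u v :=
  ⟨fun _ hq _ => h.nb hu (wadj_sd hq).2, fun _ hq _ => h.nb hv (wadj_sd hq).2⟩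

/-- the same-row elements are quiet -/
lemma WRnd.quietT [P.Finite] (h : WRnd P S row w D β δe δ Hs Om) (hu : OutW δ w Om u)
    (hv : OutW δ w Om v) (ht : t ∈ TRow P S row w D Hs u v) :
    Quiet P S row u v t ∧ Quiet P S row v u t := by
  have hE := h.endR hu hv
  refine ⟨quiet_loc h.sub h.mem h.rep hE.left ht.2,
    quiet_loc (D := D) (Hs := Hs) h.sub h.mem h.rep hE.right ?_⟩
  rw [pair_comm]
  exact ht.2

/-- **(R3), one exit** -/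
theorem WRnd.pwitB [P.Finite] (h : WRnd P S row w D β δe δ Hs Om) (huv : wadj u v)
    (hu : OutW δ w Om u) (hv : OutW δ w Om v) (hT : T ⊆ TRow P S row w D Hs u v)
    (hc : c ⊆ S) (hW : WallE c row w ∅)
    (hz : ExitEH P S row w D β δe Hs Om {u, v} c y z)
    (hq : Quiet P S row u v z ∨ Quiet P S row v u z)
    (hsee : ∃ x ∈ RX S row u v, ∃ y ∈ RX S row u v, ¬ Er P S z x y) :
    PWitB (Er P S) (Lr P S row w u) (Lr P S row w v) (Arw P S row w u v) (RX S row u v) T z := by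
  obtain ⟨o₁, o₂, h₁, h₂⟩ := h.rends huv hu hv hW
  obtain ⟨hE, k1, -⟩ := h.row u v c o₁ o₂ huv hu hc hW h₁ h₂
  refine hE.witB (fun t ht => (hT ht).1) (fun t ht => h.quietT hu hv (hT ht)) hz.cl
    (fun h1 => exitEH_notMem hc hW hz (hT h1)) hq hsee ?_
  intro C hC hzC h1 h2 hall
  refine k1 y z hz C hC hzC h1 h2 fun x hx => ?_
  rcases hall x hx with h3 | h3 | h3 | h3 | h3
  · exact Or.inl h3
  · exact Or.inr (Or.inl h3)
  · exact Or.inr (Or.inr (Or.inl h3))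
  · exact Or.inr (Or.inr (Or.inr (Or.inl h3)))
  · obtain ⟨⟨h4, h5⟩, h6⟩ := hT h3
    exact Or.inr (Or.inr (Or.inr (Or.inr ⟨h4, h5, h6⟩)))

/-- **(R3), two exits** -/
theorem WRnd.pwitD [P.Finite] (h : WRnd P S row w D β δe δ Hs Om) (huv : wadj u v)
    (hu : OutW δ w Om u) (hv : OutW δ w Om v) (hT : T ⊆ TRow P S row w D Hs u v)
    (hc : c ⊆ S) (hW : WallE c row w ∅)
    (hz : ExitEH P S row w D β δe Hs Om {u, v} c y z)
    (hz' : ExitEH P S row w D β δe Hs Om {u, v} c y' z') (hyy : y ≠ y')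
    (hnu : ¬ (wadj u y ∧ wadj u y')) (hnv : ¬ (wadj v y ∧ wadj v y'))
    (hq : Quiet P S row u v z ∨ Quiet P S row v u z)
    (hq' : Quiet P S row u v z' ∨ Quiet P S row v u z')
    (hsee : ∃ x ∈ RX S row u v, ∃ y ∈ RX S row u v, ¬ Er P S z x y)
    (hsee' : ∃ x ∈ RX S row u v, ∃ y ∈ RX S row u v, ¬ Er P S z' x y) :
    PWitD (Er P S) (Lr P S row w u) (Lr P S row w v) (Arw P S row w u v) (RX S row u v) T z z' := by
  obtain ⟨o₁, o₂, h₁, h₂⟩ := h.rends huv hu hv hW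
  obtain ⟨hE, k1, k2⟩ := h.row u v c o₁ o₂ huv hu hc hW h₁ h₂
  have hzz : z ≠ z' := by
    rintro rfl
    rcases hz'.loc y hz.y_loc hz.y_deep hz.y_hs with h1 | h1
    · exact hz.y_out h1
    · exact hyy h1
  have lo : ∀ x, x ∈ RX S row u v ∨ x ∈ T → LocEH P S row w D Hs {s(u, v)} {u, v} x := by
    rintro x (h3 | h3)
    · exact Or.inl h3
    · obtain ⟨⟨h4, h5⟩, h6⟩ := hT h3
      exact Or.inr ⟨h4, h5, h6⟩
  refine hE.witD (fun t ht => (hT ht).1) (fun t ht => h.quietT hu hv (hT ht)) hz.cl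
    (fun h1 => exitEH_notMem hc hW hz (hT h1)) hz'.cl
    (fun h1 => exitEH_notMem hc hW hz' (hT h1)) hzz hq hq' hsee hsee' ?_ ?_ ?_
  · intro C hC hzC h1 h2 hall
    refine k1 y z hz C hC hzC h1 h2 fun x hx => ?_
    rcases hall x hx with h3 | h3 | h3 | h3
    · exact Or.inl h3
    · exact Or.inr (Or.inl h3)
    · exact Or.inr (Or.inr (Or.inl h3))
    · exact Or.inr (Or.inr (Or.inr (lo x h3)))
  · intro C hC hzC h1 h2 hall
    refine k1 y' z' hz' C hC hzC h1 h2 fun x hx => ?_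
    rcases hall x hx with h3 | h3 | h3 | h3
    · exact Or.inl h3
    · exact Or.inr (Or.inl h3)
    · exact Or.inr (Or.inr (Or.inl h3))
    · exact Or.inr (Or.inr (Or.inr (lo x h3)))
  · intro C hC hzC hzC' h1 h2 hall
    refine k2 y z y' z' hz hz' hyy hnu hnv C hC hzC hzC' h1 h2 fun x hx => ?_
    rcases hall x hx with h3 | h3 | h3 | h3 | h3
    · exact Or.inl h3
    · exact Or.inr (Or.inl h3)
    · exact Or.inr (Or.inr (Or.inl h3))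
    · exact Or.inr (Or.inr (Or.inr (Or.inl h3)))
    · exact Or.inr (Or.inr (Or.inr (Or.inr (lo x h3))))

end

/-! ### The two rounds -/

section rounds

variable {α : Type*} {P : Matroid α} {S : Set α} {row : α → Sym2 (ℕ × ℕ)} {w : ℕ} {Dd : Set α}
  {β D₀ δ₀ D₁ δ₁ : ℕ} {Hm Hs₀ Om₁ Hs₁ Om₂ : Finset (ℕ × ℕ)} {u v : ℕ × ℕ} {z z' t : α}
  {T : Set α} {y y' : ℕ × ℕ} {c : ChW S row w}

/-- same-row elements of round 0 in the language of `YW` -/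
lemma mem_TRow₀ (u v : ℕ × ℕ) : t ∈ TRow P S row w D₀ Hs₀ u v ↔ (t ∈ P.closure S ∧ t ∉ S) ∧
    ∀ c, YW P S row w D₀ Hs₀ t c ⊆ {u, v} := by
  refine and_congr_right fun _ => ⟨fun h1 c x hx => ?_, fun h1 c hc hW x hx hd hH => ?_⟩
  · exact h1 c.1 c.2.1 c.2.2 x hx.1 hx.2.1 hx.2.2
  · exact h1 ⟨c, hc, hW⟩ ⟨hx, hd, hH⟩

/-- same-row elements of round 1 in the language of `RegW` -/
lemma mem_TRow₁ (u v : ℕ × ℕ) : t ∈ TRow P S row w D₁ Hs₁ u v ↔ (t ∈ P.closure S ∧ t ∉ S) ∧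
    ∀ c : ChW S row w, ∀ x ∈ LocR P S row c.1 t, RegW w D₁ Hs₁ x → x = u ∨ x = v := by
  refine and_congr_right fun _ => ⟨fun h1 c x hx hr => ?_, fun h1 c hc hW x hx hd hH => ?_⟩
  · exact h1 c.1 c.2.1 c.2.2 x hx hr.1 hr.2
  · exact h1 ⟨c, hc, hW⟩ x hx ⟨hd, hH⟩

variable [P.Finite] (h : Rnd P S row w Dd β D₀ δ₀ D₁ δ₁ Hm Hs₀ Om₁ Hs₁ Om₂)
include h

/-- the data of a row, for all representatives and ends -/
theorem Rnd.rowE (huv : wadj u v) (hu : VisR w δ₁ Om₂ u) {c : Set α} {o₁ o₂ : α} (hc : c ⊆ S)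
    (hW : WallE c row w ∅) (h₁ : o₁ ∈ c ∧ u ∈ row o₁ ∧ v ∉ row o₁)
    (h₂ : o₂ ∈ c ∧ v ∈ row o₂ ∧ u ∉ row o₂) : RowE P S row w u v c o₁ o₂ :=
  h.w1.rowE huv hu hc hW h₁ h₂

/-- witnesses, round 0, one exit -/
theorem Rnd.pwitB₀ (huv : wadj u v) (hu : VisR w δ₁ Om₂ u) (hv : VisR w δ₁ Om₂ v)
    (hT : ∀ t ∈ T, (t ∈ P.closure S ∧ t ∉ S) ∧ ∀ c, YW P S row w D₀ Hs₀ t c ⊆ {u, v})
    (hz : ExitEH P S row w D₀ β δ₀ Hs₀ Om₁ {u, v} c.1 y z)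
    (hq : Quiet P S row u v z ∨ Quiet P S row v u z)
    (hsee : ∃ x ∈ RX S row u v, ∃ y ∈ RX S row u v, ¬ Er P S z x y) :
    PWitB (Er P S) (Lr P S row w u) (Lr P S row w v) (Arw P S row w u v) (RX S row u v) T z :=
  h.w0.pwitB huv (h.vis₀ hu) (h.vis₀ hv) (fun t ht => (mem_TRow₀ u v).2 (hT t ht)) c.2.1 c.2.2 hz hq
    hsee

/-- witnesses, round 0, two exits -/
theorem Rnd.pwitD₀ (huv : wadj u v) (hu : VisR w δ₁ Om₂ u) (hv : VisR w δ₁ Om₂ v)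
    (hT : ∀ t ∈ T, (t ∈ P.closure S ∧ t ∉ S) ∧ ∀ c, YW P S row w D₀ Hs₀ t c ⊆ {u, v})
    (hz : ExitEH P S row w D₀ β δ₀ Hs₀ Om₁ {u, v} c.1 y z)
    (hz' : ExitEH P S row w D₀ β δ₀ Hs₀ Om₁ {u, v} c.1 y' z') (hyy : y ≠ y')
    (hnu : ¬ (wadj u y ∧ wadj u y')) (hnv : ¬ (wadj v y ∧ wadj v y'))
    (hq : Quiet P S row u v z ∨ Quiet P S row v u z)
    (hq' : Quiet P S row u v z' ∨ Quiet P S row v u z')
    (hsee : ∃ x ∈ RX S row u v, ∃ y ∈ RX S row u v, ¬ Er P S z x y)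
    (hsee' : ∃ x ∈ RX S row u v, ∃ y ∈ RX S row u v, ¬ Er P S z' x y) :
    PWitD (Er P S) (Lr P S row w u) (Lr P S row w v) (Arw P S row w u v) (RX S row u v) T z z' :=
  h.w0.pwitD huv (h.vis₀ hu) (h.vis₀ hv) (fun t ht => (mem_TRow₀ u v).2 (hT t ht)) c.2.1 c.2.2 hz
    hz' hyy hnu hnv hq hq' hsee hsee'

/-- witnesses, round 1, one exit -/
theorem Rnd.pwitB₁ (huv : wadj u v) (hu : VisR w δ₁ Om₂ u) (hv : VisR w δ₁ Om₂ v)
    (hT : ∀ t ∈ T, (t ∈ P.closure S ∧ t ∉ S) ∧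
      ∀ c : ChW S row w, ∀ x ∈ LocR P S row c.1 t, RegW w D₁ Hs₁ x → x = u ∨ x = v)
    (hz : ExitEH P S row w D₁ β δ₁ Hs₁ Om₂ {u, v} c.1 y z)
    (hq : Quiet P S row u v z ∨ Quiet P S row v u z)
    (hsee : ∃ x ∈ RX S row u v, ∃ y ∈ RX S row u v, ¬ Er P S z x y) :
    PWitB (Er P S) (Lr P S row w u) (Lr P S row w v) (Arw P S row w u v) (RX S row u v) T z :=
  h.w1.pwitB huv hu hv (fun t ht => (mem_TRow₁ u v).2 (hT t ht)) c.2.1 c.2.2 hz hq hsee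

/-- witnesses, round 1, two exits -/
theorem Rnd.pwitD₁ (huv : wadj u v) (hu : VisR w δ₁ Om₂ u) (hv : VisR w δ₁ Om₂ v)
    (hT : ∀ t ∈ T, (t ∈ P.closure S ∧ t ∉ S) ∧
      ∀ c : ChW S row w, ∀ x ∈ LocR P S row c.1 t, RegW w D₁ Hs₁ x → x = u ∨ x = v)
    (hz : ExitEH P S row w D₁ β δ₁ Hs₁ Om₂ {u, v} c.1 y z)
    (hz' : ExitEH P S row w D₁ β δ₁ Hs₁ Om₂ {u, v} c.1 y' z') (hyy : y ≠ y')
    (hnu : ¬ (wadj u y ∧ wadj u y')) (hnv : ¬ (wadj v y ∧ wadj v y'))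
    (hq : Quiet P S row u v z ∨ Quiet P S row v u z)
    (hq' : Quiet P S row u v z' ∨ Quiet P S row v u z')
    (hsee : ∃ x ∈ RX S row u v, ∃ y ∈ RX S row u v, ¬ Er P S z x y)
    (hsee' : ∃ x ∈ RX S row u v, ∃ y ∈ RX S row u v, ¬ Er P S z' x y) :
    PWitD (Er P S) (Lr P S row w u) (Lr P S row w v) (Arw P S row w u v) (RX S row u v) T z z' :=
  h.w1.pwitD huv hu hv (fun t ht => (mem_TRow₁ u v).2 (hT t ht)) c.2.1 c.2.2 hz hz' hyy hnu hnv hq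
    hq' hsee hsee'

end rounds

end DA
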