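import Pool.Agent.DA.RndLoc
import Pool.Agent.DA.WRnd
import Pool.Agent.DA.RowWit
import Pool.Agent.TST.PP2

/-!
# One-place elements (T-star, helper51)

`z` sees the visible row `u v` and is not local in round 1 on the row, at the star of `u`, at the star
of `v`.  Then (`Rnd.one_kind`) all its locations are clean in round 0, it is an exit of the row in
round 0, it is quiet at `u` and `v`, and it has another row (seen) or a fixed foot.
`WRnd.one_cls`: an exit has two classes on the row; `WRnd.cmp`: the places of two exits with different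
second nodes are comparable; `Rnd.one_far`, `Rnd.one_near_u`, `Rnd.one_near_v`: a one-place element
against a rung.
-/

set_option autoImplicit false

open Set BIC BICS
open scoped Matroid

namespace DA

open Gad TST

/-! ### Location systems -/

section loc

variable {V Ch : Type*} {adj : V → V → Prop} {Reg Vis : V → Prop} {Y Y' : Ch → Set V}
  {Sn Sn' : V → V → Prop} {Rel : Ch → Ch → V → V → Prop}

lemma Pr2.flip {u v : V} (h : Pr2 adj v u Y Y') : Pr2 adj u v Y Y' := by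
  obtain ⟨c, y, y', ⟨h1, h2, h3⟩, ⟨h4, h5, h6⟩, h7, h8, h9⟩ := h
  have e1 : ({v, u} : Set V) = {u, v} := pair_comm _ _
  have e2 : ∀ x : V, ({v, u, x} : Set V) = {u, v, x} := fun x => insert_comm _ _ _
  rw [e1] at h1 h4
  rw [e2] at h3 h6
  exact ⟨c, y, y', ⟨h1, h2, h3⟩, ⟨h4, h5, h6⟩, h7, h9, h8⟩

/-- **A far exit and a near exit at `u`**: one end of the far row may be irregular. -/
theorem LocT.pair_near' (h : LocT adj Reg Vis Y Sn Rel) (h' : LocT adj Reg Vis Y' Sn' Rel)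
    {u v p q v' : V} (huv : adj u v) (hu : Vis u) (hv : Vis v) (hs : Sn u v)
    (hpq : adj p q) (hs' : Sn p q) (hpr : Reg p ∨ Reg q) (hpn : p ∉ ({u, v} : Set V))
    (hqn : q ∉ ({u, v} : Set V)) (huv' : adj u v') (hne : v ≠ v') (hs₁' : Sn' u v')
    (hY' : ∀ c, Y' c ⊆ {u, v, v'}) : Pr2 adj u v Y Y' := by
  have hv'r : Reg v' := (h.vis₂ u v' u hu huv' (h.symm _ _ huv')).1
  -- the near exit does not see the far row
  have hno : ∀ p q, adj p q → Reg p → p ∉ ({u, v} : Set V) → q ∉ ({u, v} : Set V) →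
      ¬ Sn' p q := by
    intro p q hpq hp hpn hqn h1
    obtain ⟨c₀⟩ := h.ne
    obtain ⟨c₁, _, h2⟩ := h'.togR p q hpq hp h1 c₀
    have h4 := hY' c₁ h2
    simp only [mem_insert_iff, mem_singleton_iff, not_or] at h4 hpn hqn
    have h6 : p = v' := (h4.resolve_left hpn.1).resolve_left hpn.2
    subst h6
    have hq : Reg q := (h.vis₂ u p q hu huv' hpq).2
    obtain ⟨c₂, _, h3⟩ := h'.togR q p (h.symm _ _ hpq) hq (h'.snsymm _ _ h1) c₀
    have h5 := hY' c₂ h3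
    simp only [mem_insert_iff, mem_singleton_iff] at h5
    have h7 : q = p := (h5.resolve_left hqn.1).resolve_left hqn.2
    exact h.adj_ne hpq h7.symm
  have hno' : ¬ Sn' p q := by
    rcases hpr with hp | hq
    · exact hno p q hpq hp hpn hqn
    · exact fun h1 => hno q p (h.symm _ _ hpq) hq hqn hpn (h'.snsymm _ _ h1)
  have hv'n : v' ∉ ({u, v} : Set V) := by
    rintro (h1 | h1)
    · exact h.adj_ne huv' h1.symm
    · exact hne h1.symm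
  obtain ⟨c₀⟩ := h.ne
  obtain ⟨c₁, _, h1⟩ := h'.togR v' u (h.symm _ _ huv') hv'r (h'.snsymm _ _ hs₁') c₀
  have key : ∀ p q, adj p q → Sn p q → ¬ Sn' p q → Reg p → p ∉ ({u, v} : Set V) →
      q ∉ ({u, v} : Set V) → (¬ adj u p ∧ ¬ adj v p) → Pr2 adj u v Y Y' := by
    intro p q hpq hs' hno' hp hpn hqn hnad
    obtain ⟨c, h2, h3⟩ := h.togR p q hpq hp hs' c₁
    have h4 := h'.unsR c₁ c p q h2 hno'
    rw [← h4] at h1
    refine ⟨c, p, v', ⟨hpn, h3, h.far_exit huv hu hv hs hpq hs' hpn hqn h3⟩,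
      ⟨hv'n, h1, hY' c⟩, ?_, fun h3 => hnad.1 h3.1, fun h3 => hnad.2 h3.1⟩
    rintro rfl
    exact hnad.1 huv'
  have key' : ∀ p q, adj p q → Sn p q → ¬ Sn' p q → (Reg p ∨ Reg q) → p ∉ ({u, v} : Set V) →
      q ∉ ({u, v} : Set V) → (¬ adj u p ∧ ¬ adj v p) → Pr2 adj u v Y Y' := by
    intro p q hpq hs' hno' hpr hpn hqn hnad
    by_cases hp : Reg p
    · exact key p q hpq hs' hno' hp hpn hqn hnad
    · have hq := hpr.resolve_left hp
      refine key q p (h.symm _ _ hpq) (h.snsymm _ _ hs') (fun h3 => hno' (h'.snsymm _ _ h3)) hq hqn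
        hpn ⟨fun h3 => hp ?_, fun h3 => hp ?_⟩
      · exact (h.vis₂ u q p hu h3 (h.symm _ _ hpq)).2
      · exact (h.vis₂ v q p hv h3 (h.symm _ _ hpq)).2
  rcases h.far_end huv hpq hpn hqn with h2 | h2
  · exact key' p q hpq hs' hno' hpr hpn hqn h2
  · exact key' q p (h.symm _ _ hpq) (h.snsymm _ _ hs') (fun h3 => hno' (h'.snsymm _ _ h3)) hpr.symm
      hqn hpn h2

/-- a far rung sees only its two rows -/
lemma LocS.far_only (h : LocS adj Reg Vis Y Sn) {u v p q p' q' : V} (huv : adj u v) (hu : Vis u)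
    (hv : Vis v) (hs : Sn u v) (hpq : adj p q) (hp : Vis p) (hq : Vis q) (hs' : Sn p q)
    (hpn : p ∉ ({u, v} : Set V)) (hqn : q ∉ ({u, v} : Set V)) (hpq' : adj p' q')
    (hpn' : p' ∉ ({u, v} : Set V)) (hqn' : q' ∉ ({u, v} : Set V)) (hs₁ : Sn p' q') :
    (p' = p ∧ q' = q) ∨ (p' = q ∧ q' = p) := by
  wlog hp' : Reg p' with H
  · have hq' := (h.snreg p' q' hs₁).resolve_left hp'
    have h1 := H h huv hu hv hs hpq hp hq hs' hpn hqn (h.symm _ _ hpq') hqn' hpn'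
      (h.snsymm _ _ hs₁) hq'
    tauto
  have hsub := h.supp_far huv hu hv hs hpq hs' hpn hqn
  obtain ⟨c₀⟩ := h.ne
  have key : ∀ a b, adj a b → Reg a → Sn a b → a ∉ ({u, v} : Set V) → a = p ∨ a = q := by
    intro a b hab ha hs2 han
    obtain ⟨c, h1, _⟩ := h.tog a b hab ha hs2 c₀
    have h2 := hsub c h1
    simp only [mem_insert_iff, mem_singleton_iff, not_or] at h2 han
    exact (h2.resolve_left han.1).resolve_left han.2
  have h1 := key p' q' hpq' hp' hs₁ hpn'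
  have hq' : Reg q' := by
    rcases h1 with rfl | rfl
    · exact (h.vis₂ p' q' p' hp hpq' (h.symm _ _ hpq')).1
    · exact (h.vis₂ p' q' p' hq hpq' (h.symm _ _ hpq')).1
  have h2 := key q' p' (h.symm _ _ hpq') hq' (h.snsymm _ _ hs₁) hqn'
  rcases h1 with rfl | rfl <;> rcases h2 with rfl | rfl
  · exact absurd hpq' (h.irr _)
  · exact Or.inl ⟨rfl, rfl⟩
  · exact Or.inr ⟨rfl, rfl⟩
  · exact absurd hpq' (h.irr _)

end loc

/-! ### Row facts for one or two exits, without local elements -/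

section row

variable {α : Type*} {P : Matroid α} {S : Set α} {row : α → Sym2 (ℕ × ℕ)} {w D β δe δ : ℕ}
  {Hs Om : Finset (ℕ × ℕ)} {u v y y' : ℕ × ℕ} {c : Set α} {z z' : α}

/-- ends of a row -/
lemma WRnd.ends51 (h : WRnd P S row w D β δe δ Hs Om) (huv : wadj u v) (hu : OutW δ w Om u)
    (hW : WallE c row w ∅) :
    ∃ o₁ o₂, (o₁ ∈ c ∧ u ∈ row o₁ ∧ v ∉ row o₁) ∧ (o₂ ∈ c ∧ v ∈ row o₂ ∧ u ∉ row o₂) := by
  have hdu : DeepR (0, 0) (w + 1) (w + 1) 21 u := (hu.mono (δ' := 21) (by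
    have := h.dl
    omega)).1
  have hsu := wadj_sd huv
  obtain ⟨o₁, h1, h2, h3⟩ := exists_end hW (wadj_swap huv) (deep_nb hdu (by rw [sd_le]; omega)
    (by omega))
  obtain ⟨o₂, h4, h5, h6⟩ := exists_end hW huv (deep_nb hdu hsu.2 (by omega))
  exact ⟨o₁, o₂, ⟨h1, h2, h3⟩, h4, h5, h6⟩

/-- **An exit has two classes on its row.** -/
theorem WRnd.one_cls [P.Finite] (h : WRnd P S row w D β δe δ Hs Om) (huv : wadj u v)
    (hu : OutW δ w Om u) (hc : c ⊆ S) (hW : WallE c row w ∅)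
    (hz : ExitEH P S row w D β δe Hs Om {u, v} c y z)
    (hq : Quiet P S row u v z ∨ Quiet P S row v u z)
    (hsee : ∃ x ∈ RX S row u v, ∃ y ∈ RX S row u v, ¬ Er P S z x y) :
    ∀ x ∈ RX S row u v, ∀ x' ∈ RX S row u v,
      (Er P S z x x' ↔ (x ∈ Arw P S row w u v z ↔ x' ∈ Arw P S row w u v z)) := by
  obtain ⟨o₁, o₂, h₁, h₂⟩ := h.ends51 huv hu hW
  obtain ⟨hR, hI, -⟩ := h.row u v c o₁ o₂ huv hu hc hW h₁ h₂
  obtain ⟨N, p, q, hs, hr⟩ := hR.witB (T := ∅) (fun t ht => absurd ht (notMem_empty t))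
    (fun t ht => absurd ht (notMem_empty t)) hz.cl (notMem_empty z) hq hsee (by
      intro C hC h1 h2 h3 hx
      refine hI y z hz C hC h1 h2 h3 fun x hxC => ?_
      rcases hx x hxC with h4 | h4 | h4 | h4 | h4
      · exact Or.inl h4
      · exact Or.inr (Or.inl h4)
      · exact Or.inr (Or.inr (Or.inl h4))
      · exact Or.inr (Or.inr (Or.inr (Or.inl ⟨h4.1, h4.2⟩)))
      · exact absurd h4 (notMem_empty x))
  intro x hx x' hx'
  have kx : x ∈ PK (RX S row u v) p q := Or.inr (Or.inr hx)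
  have kx' : x' ∈ PK (RX S row u v) p q := Or.inr (Or.inr hx')
  have kp : p ∈ PK (RX S row u v) p q := Or.inl rfl
  have kq : q ∈ PK (RX S row u v) p q := Or.inr (Or.inl rfl)
  rw [← hr.rE z (Or.inr rfl) x hx x' hx', ← hr.rA z rfl x hx, ← hr.rA z rfl x' hx']
  constructor
  · intro h1
    exact ⟨fun h2 => h2.trans hs.cir kx h1, fun h2 => h2.trans hs.cir kx' h1.symm⟩
  · intro h1
    by_cases h2 : Eqv N (PK (RX S row u v) p q) z p x
    · exact h2.symm.trans hs.cir kp (h1.1 h2)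
    · have h3 := (hs.exit2 kx).resolve_left h2
      have h4 := (hs.exit2 kx').resolve_left fun h5 => h2 (h1.2 h5)
      exact h3.symm.trans hs.cir kq h4

/-- **The places of two exits with different second nodes are comparable.** -/
theorem WRnd.cmp [P.Finite] (h : WRnd P S row w D β δe δ Hs Om) (huv : wadj u v)
    (hu : OutW δ w Om u) (hc : c ⊆ S) (hW : WallE c row w ∅)
    (hz : ExitEH P S row w D β δe Hs Om {u, v} c y z)
    (hz' : ExitEH P S row w D β δe Hs Om {u, v} c y' z') (hyy : y ≠ y')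
    (hau : ¬ (wadj u y ∧ wadj u y')) (hav : ¬ (wadj v y ∧ wadj v y'))
    (hq : Quiet P S row u v z ∨ Quiet P S row v u z)
    (hq' : Quiet P S row u v z' ∨ Quiet P S row v u z')
    (hsee : ∃ x ∈ RX S row u v, ∃ y ∈ RX S row u v, ¬ Er P S z x y)
    (hsee' : ∃ x ∈ RX S row u v, ∃ y ∈ RX S row u v, ¬ Er P S z' x y) :
    CmpOn (RX S row u v) (Arw P S row w u v z) (Arw P S row w u v z') := by
  by_cases hzz : z = z'
  · subst hzz
    exact Or.inl fun x _ hx => hx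
  obtain ⟨o₁, o₂, h₁, h₂⟩ := h.ends51 huv hu hW
  obtain ⟨hR, hI, hII⟩ := h.row u v c o₁ o₂ huv hu hc hW h₁ h₂
  have hPP : ∀ y b, ExitEH P S row w D β δe Hs Om {u, v} c y b →
      ∀ C, (P ／ FRow S row c u v).IsCircuit C → b ∈ C → o₁ ∈ C → o₂ ∈ C →
      (∀ x ∈ C, x = b ∨ x = o₁ ∨ x = o₂ ∨ x ∈ RX S row u v ∨ x ∈ (∅ : Set α)) → False := by
    intro y b hb C hC h1 h2 h3 hx
    refine hI y b hb C hC h1 h2 h3 fun x hxC => ?_
    rcases hx x hxC with h4 | h4 | h4 | h4 | h4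
    · exact Or.inl h4
    · exact Or.inr (Or.inl h4)
    · exact Or.inr (Or.inr (Or.inl h4))
    · exact Or.inr (Or.inr (Or.inr (Or.inl ⟨h4.1, h4.2⟩)))
    · exact absurd h4 (notMem_empty x)
  obtain ⟨N, p, q, hs, hs', -, hpp, hr⟩ := hR.witD (T := ∅)
    (fun t ht => absurd ht (notMem_empty t)) (fun t ht => absurd ht (notMem_empty t)) hz.cl
    (notMem_empty z) hz'.cl (notMem_empty z') hzz hq hq' hsee hsee' (hPP y z hz) (hPP y' z' hz')
    (by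
      intro C hC h1 h2 h3 h3' hx
      refine hII y z y' z' hz hz' hyy hau hav C hC h1 h2 h3 h3' fun x hxC => ?_
      rcases hx x hxC with h4 | h4 | h4 | h4 | h4 | h4
      · exact Or.inl h4
      · exact Or.inr (Or.inl h4)
      · exact Or.inr (Or.inr (Or.inl h4))
      · exact Or.inr (Or.inr (Or.inr (Or.inl h4)))
      · exact Or.inr (Or.inr (Or.inr (Or.inr (Or.inl ⟨h4.1, h4.2⟩))))
      · exact absurd h4 (notMem_empty x))
  unfold CmpOn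
  by_contra hcon
  rw [not_or] at hcon
  obtain ⟨hc1, hc2⟩ := hcon
  push Not at hc1 hc2
  obtain ⟨a, ha, ha1, ha2⟩ := hc1
  obtain ⟨b, hb, hb1, hb2⟩ := hc2
  rw [← hr.rA z (Or.inl rfl) a ha] at ha1
  rw [← hr.rA z' (Or.inr rfl) a ha] at ha2
  rw [← hr.rA z' (Or.inr rfl) b hb] at hb1
  rw [← hr.rA z (Or.inl rfl) b hb] at hb2
  exact hpp.chain hs.pp hs'.pp hs.cir hs.zcl hs.zK hs'.zcl hs'.zK hzz (Or.inl rfl)
    (Or.inr (Or.inl rfl)) (Or.inr (Or.inr ha)) (Or.inr (Or.inr hb)) ha1 ha2 hb2 hb1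

end row

/-! ### One-place elements -/

section one

variable {α : Type*} {P : Matroid α} {S : Set α} {row : α → Sym2 (ℕ × ℕ)} {w : ℕ} {D : Set α}
  {β D₀ δ₀ D₁ δ₁ : ℕ} {Hm Hs₀ Om₁ Hs₁ Om₂ : Finset (ℕ × ℕ)} {u v p q v' : ℕ × ℕ} {z t : α}

/-- all regular locations in round 1 are in `U` -/
def Loc1 {α : Type*} (P : Matroid α) (S : Set α) (row : α → Sym2 (ℕ × ℕ)) (w D₁ : ℕ)
    (Hs₁ : Finset (ℕ × ℕ)) (U : Set (ℕ × ℕ)) (z : α) : Prop :=
  ∀ c : ChW S row w, ∀ x ∈ LocR P S row c.1 z, RegW w D₁ Hs₁ x → x ∈ U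

/-- local in round 0 implies local in round 1 -/
lemma Rnd.loc1 (h : Rnd P S row w D β D₀ δ₀ D₁ δ₁ Hm Hs₀ Om₁ Hs₁ Om₂) {U : Set (ℕ × ℕ)}
    (hl : ∀ c, YW P S row w D₀ Hs₀ z c ⊆ U) : Loc1 P S row w D₁ Hs₁ U z :=
  fun c _ hx hr => hl c ⟨hx, h.reg01 hr⟩

/-- **One-place elements** of the row `u v`, in round 0 -/
structure OneK {α : Type*} (P : Matroid α) (S : Set α) (row : α → Sym2 (ℕ × ℕ)) (w D₀ δ₀ : ℕ)
    (Hs₀ Om₁ : Finset (ℕ × ℕ)) (u v : ℕ × ℕ) (z : α) : Prop where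
  clean : ∀ c, ∀ x ∈ YW P S row w D₀ Hs₀ z c, OutW δ₀ w Om₁ x
  exit : ∃ c y, y ∉ ({u, v} : Set (ℕ × ℕ)) ∧ y ∈ YW P S row w D₀ Hs₀ z c ∧
    YW P S row w D₀ Hs₀ z c ⊆ {u, v, y}
  au : ∀ q, wadj u q → q ≠ v → ¬ SnW P S row w D₀ Hs₀ z u q
  av : ∀ q, wadj v q → q ≠ u → ¬ SnW P S row w D₀ Hs₀ z v q
  qu : Quiet P S row u v z
  qv : Quiet P S row v u z
  kind : (∃ p q, wadj p q ∧ SnW P S row w D₀ Hs₀ z p q ∧ p ∉ ({u, v} : Set (ℕ × ℕ)) ∧
      q ∉ ({u, v} : Set (ℕ × ℕ)) ∧ ∀ c, YW P S row w D₀ Hs₀ z c ⊆ {u, v, p, q}) ∨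
    ∃ y, y ∉ ({u, v} : Set (ℕ × ℕ)) ∧ ¬ wadj u y ∧ ¬ wadj v y ∧
      ∀ c, YW P S row w D₀ Hs₀ z c \ {u, v} = {y}

lemma OneK.symm (h : OneK P S row w D₀ δ₀ Hs₀ Om₁ u v z) :
    OneK P S row w D₀ δ₀ Hs₀ Om₁ v u z := by
  have e1 : ({v, u} : Set (ℕ × ℕ)) = {u, v} := pair_comm _ _
  have e2 : ∀ X : Set (ℕ × ℕ), insert v (insert u X) = insert u (insert v X) := fun X =>
    insert_comm _ _ _
  refine ⟨h.clean, ?_, h.av, h.au, h.qv, h.qu, ?_⟩
  · obtain ⟨c, y, h1, h2, h3⟩ := h.exit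
    exact ⟨c, y, e1 ▸ h1, h2, (e2 {y}) ▸ h3⟩
  · rcases h.kind with ⟨p, q, h1, h2, h3, h4, h5⟩ | ⟨y, h1, h2, h3, h4⟩
    · exact Or.inl ⟨p, q, h1, h2, e1 ▸ h3, e1 ▸ h4, fun c => (e2 {p, q}) ▸ h5 c⟩
    · exact Or.inr ⟨y, e1 ▸ h1, h3, h2, fun c => by rw [e1]; exact h4 c⟩

/-- no other row at `u` is seen: quiet -/
lemma quiet_of_au (hmem : ∀ e ∈ S, ∃ p q, row e = s(p, q) ∧ wadj p q ∧
      p ∈ rect 0 0 (w + 1) (w + 1) ∧ q ∈ rect 0 0 (w + 1) (w + 1)) (hu : RegW w D₀ Hs₀ u)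
    (h : ∀ q, wadj u q → q ≠ v → ¬ SnW P S row w D₀ Hs₀ z u q) : Quiet P S row u v z := by
  intro a ha a' ha' haa hua hne _
  obtain ⟨p, q, h1, h2, _⟩ := hmem a ha
  have key : ∀ q, wadj u q → row a = s(u, q) → z ∈ P.closure (S \ {a, a'}) := by
    intro q hq hr
    have hqv : q ≠ v := by
      rintro rfl
      exact hne hr
    have h3 : ¬ Seen P S row z s(u, q) := fun h4 => h q hq hqv ⟨h4, Or.inl hu⟩
    unfold Seen at h3
    rw [not_not] at h3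
    refine P.closure_subset_closure ?_ h3
    rintro e ⟨he, he'⟩
    refine ⟨he, ?_⟩
    rintro (h4 | h4)
    · exact he' ⟨he, by rw [h4, hr]⟩
    · exact he' ⟨he, by rw [mem_singleton_iff.1 h4, haa, hr]⟩
  rw [h1, Sym2.mem_iff] at hua
  rcases hua with rfl | rfl
  · exact key q h2 h1
  · exact key p (wadj_swap h2) (by rw [h1, Sym2.eq_swap])

/-- a separated pair: the row is seen -/
lemma seen_of_sep (hu : RegW w D₀ Hs₀ u)
    (hsee : ∃ x ∈ RX S row u v, ∃ y ∈ RX S row u v, ¬ Er P S z x y) :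
    SnW P S row w D₀ Hs₀ z u v := by
  obtain ⟨x, hx, y, hy, h1⟩ := hsee
  refine ⟨fun h2 => h1 (Or.inr (P.closure_subset_closure ?_ h2)), Or.inl hu⟩
  rintro e ⟨he, he'⟩
  refine ⟨he, ?_⟩
  rintro (h4 | h4)
  · exact he' (h4 ▸ hx)
  · exact he' ((mem_singleton_iff.1 h4) ▸ hy)

/-- visible vertices are clean -/
lemma Rnd.self (h : Rnd P S row w D β D₀ δ₀ D₁ δ₁ Hm Hs₀ Om₁ Hs₁ Om₂) (hu : VisR w δ₁ Om₂ u) :
    OutW δ₁ w Om₂ u ∧ OutW δ₀ w Om₁ u ∧ RegW w D₀ Hs₀ u ∧ RegW w D₁ Hs₁ u :=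
  h.near hu (by rw [sd_self]; omega)

/-- **(ONE), kinds.** -/
theorem Rnd.one_kind [P.Finite] (h : Rnd P S row w D β D₀ δ₀ D₁ δ₁ Hm Hs₀ Om₁ Hs₁ Om₂)
    (hz : z ∈ D) (hzcl : z ∈ P.closure S) (huv : wadj u v) (hu : VisR w δ₁ Om₂ u)
    (hv : VisR w δ₁ Om₂ v) (hs : SnW P S row w D₀ Hs₀ z u v)
    (n1 : ¬ Loc1 P S row w D₁ Hs₁ {u, v} z) (n2 : ¬ Loc1 P S row w D₁ Hs₁ (nst wadj u) z)
    (n3 : ¬ Loc1 P S row w D₁ Hs₁ (nst wadj v) z) : OneK P S row w D₀ δ₀ Hs₀ Om₁ u v z := by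
  have hT := h.locT hz hzcl
  have hL := h.wal
  have hnu : ∀ {a b : ℕ × ℕ}, (∀ c, YW P S row w D₀ Hs₀ z c \ {u, v} ⊆ nst wadj a) →
      ({u, v} : Set (ℕ × ℕ)) ⊆ nst wadj a → ∀ c, YW P S row w D₀ Hs₀ z c ⊆ nst wadj a := by
    intro a b h1 h2 c x hx
    by_cases h3 : x ∈ ({u, v} : Set (ℕ × ℕ))
    · exact h2 h3
    · exact h1 c ⟨hx, h3⟩
  have su : ({u, v} : Set (ℕ × ℕ)) ⊆ nst wadj u := by
    rintro x (rfl | hx)
    · exact Or.inl rfl
    · rw [mem_singleton_iff.1 hx]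
      exact Or.inr huv
  have sv : ({u, v} : Set (ℕ × ℕ)) ⊆ nst wadj v := by
    rintro x (rfl | hx)
    · exact Or.inr (wadj_swap huv)
    · rw [mem_singleton_iff.1 hx]
      exact Or.inl rfl
  have clean : ∀ c, ∀ x ∈ YW P S row w D₀ Hs₀ z c, OutW δ₀ w Om₁ x := by
    refine (h.foot hz hzcl huv hu hv hs).resolve_right fun h1 => n1 fun c x hx hr => ?_
    rcases h1 c x hx hr with h2 | h2
    · exact Or.inl h2
    · exact Or.inr h2
  have au : ∀ q, wadj u q → q ≠ v → ¬ SnW P S row w D₀ Hs₀ z u q := fun q hq hqv h1 =>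
    n2 (h.loc1 (hT.near_of_two huv hu hv hs hq h1 hqv.symm))
  have av : ∀ q, wadj v q → q ≠ u → ¬ SnW P S row w D₀ Hs₀ z v q := fun q hq hqu h1 =>
    n3 (h.loc1 (hT.near_of_two (wadj_swap huv) hv hu (hT.snsymm _ _ hs) hq h1 hqu.symm))
  refine ⟨clean, ?_, au, av, quiet_of_au hL.mem (h.self hu).2.2.1 au,
    quiet_of_au hL.mem (h.self hv).2.2.1 av, ?_⟩
  · rcases hT.cls_row huv hu hv hs with h1 | h1 | h1 | h1
    · exact absurd (h.loc1 h1) n1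
    · exact h1
    · refine absurd (h.loc1 (hnu (b := u) (fun c => ?_) su)) n2
      rw [h1 c]
      exact sdiff_subset
    · refine absurd (h.loc1 (hnu (b := u) (fun c => ?_) sv)) n3
      rw [h1 c]
      exact sdiff_subset
  · rcases hT.cls_supp huv hu hv hs with h1 | h1 | h1 | ⟨y, hy, h1⟩
    · exact Or.inl h1
    · exact absurd (h.loc1 h1) n2
    · exact absurd (h.loc1 h1) n3
    · refine Or.inr ⟨y, hy, fun h2 => ?_, fun h2 => ?_, h1⟩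
      · refine n2 (h.loc1 (hnu (b := u) (fun c => ?_) su))
        rw [h1 c]
        exact singleton_subset_iff.2 (Or.inr h2)
      · refine n3 (h.loc1 (hnu (b := u) (fun c => ?_) sv))
        rw [h1 c]
        exact singleton_subset_iff.2 (Or.inr h2)

/-- **(ONE), two classes.** -/
theorem Rnd.one_cls [P.Finite] (h : Rnd P S row w D β D₀ δ₀ D₁ δ₁ Hm Hs₀ Om₁ Hs₁ Om₂)
    (hβ : 4 ≤ β) (hz : z ∈ D) (hzcl : z ∈ P.closure S) (hzS : z ∉ S) (huv : wadj u v)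
    (hu : VisR w δ₁ Om₂ u) (hv : VisR w δ₁ Om₂ v)
    (hsee : ∃ x ∈ RX S row u v, ∃ y ∈ RX S row u v, ¬ Er P S z x y)
    (hk : OneK P S row w D₀ δ₀ Hs₀ Om₁ u v z) :
    ∀ x ∈ RX S row u v, ∀ x' ∈ RX S row u v,
      (Er P S z x x' ↔ (x ∈ Arw P S row w u v z ↔ x' ∈ Arw P S row w u v z)) := by
  obtain ⟨c, y, h1, h2, h3⟩ := hk.exit
  have hs := seen_of_sep (h.self hu).2.2.1 hsee
  have hE := h.exit0 hβ hz hzcl hzS huv hu hv hs hk.clean h1 h2 (by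
    intro x hx
    rcases h3 hx with h4 | h4 | h4
    · exact Or.inr (Or.inl h4)
    · exact Or.inr (Or.inr h4)
    · exact Or.inl h4)
  exact h.w0.one_cls huv (h.vis₀ hu) c.2.1 c.2.2 hE (Or.inl hk.qu) hsee

/-- **Comparable places** of two elements with `Pr2` in round 0 -/
theorem Rnd.cmp0 [P.Finite] (h : Rnd P S row w D β D₀ δ₀ D₁ δ₁ Hm Hs₀ Om₁ Hs₁ Om₂)
    (hβ : 4 ≤ β) (hz : z ∈ D) (hzcl : z ∈ P.closure S) (hzS : z ∉ S) (ht : t ∈ D)
    (htcl : t ∈ P.closure S) (htS : t ∉ S) (huv : wadj u v)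
    (hu : VisR w δ₁ Om₂ u) (hv : VisR w δ₁ Om₂ v)
    (hzc : ∀ c, ∀ x ∈ YW P S row w D₀ Hs₀ z c, OutW δ₀ w Om₁ x)
    (htc : ∀ c, ∀ x ∈ YW P S row w D₀ Hs₀ t c, OutW δ₀ w Om₁ x)
    (hq : Quiet P S row u v z ∨ Quiet P S row v u z)
    (hq' : Quiet P S row u v t ∨ Quiet P S row v u t)
    (hsee : ∃ x ∈ RX S row u v, ∃ y ∈ RX S row u v, ¬ Er P S z x y)
    (hsee' : ∃ x ∈ RX S row u v, ∃ y ∈ RX S row u v, ¬ Er P S t x y)
    (hp : Pr2 wadj u v (YW P S row w D₀ Hs₀ t) (YW P S row w D₀ Hs₀ z)) :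
    CmpOn (RX S row u v) (Arw P S row w u v t) (Arw P S row w u v z) := by
  obtain ⟨c, y, y', ⟨h1, h2, h3⟩, ⟨h4, h5, h6⟩, h7, h8, h9⟩ := hp
  have hs := seen_of_sep (h.self hu).2.2.1 hsee
  have hs' := seen_of_sep (h.self hu).2.2.1 hsee'
  have hins : ∀ {A : Set (ℕ × ℕ)} {y : ℕ × ℕ}, A ⊆ {u, v, y} → A ⊆ insert y {u, v} := by
    intro A y hA x hx
    rcases hA hx with h4 | h4 | h4
    · exact Or.inr (Or.inl h4)
    · exact Or.inr (Or.inr h4)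
    · exact Or.inl h4
  have hE := h.exit0 hβ ht htcl htS huv hu hv hs' htc h1 h2 (hins h3)
  have hE' := h.exit0 hβ hz hzcl hzS huv hu hv hs hzc h4 h5 (hins h6)
  exact h.w0.cmp huv (h.vis₀ hu) c.2.1 c.2.2 hE hE' h7 h8 h9 hq' hq hsee' hsee

/-- **(ONE) against a far rung.** -/
theorem Rnd.one_far [P.Finite] (h : Rnd P S row w D β D₀ δ₀ D₁ δ₁ Hm Hs₀ Om₁ Hs₁ Om₂)
    (hβ : 4 ≤ β) (hz : z ∈ D) (hzcl : z ∈ P.closure S) (hzS : z ∉ S) (ht : t ∈ D)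
    (htcl : t ∈ P.closure S) (htS : t ∉ S) (huv : wadj u v)
    (hu : VisR w δ₁ Om₂ u) (hv : VisR w δ₁ Om₂ v)
    (hsee : ∃ x ∈ RX S row u v, ∃ y ∈ RX S row u v, ¬ Er P S z x y)
    (hk : OneK P S row w D₀ δ₀ Hs₀ Om₁ u v z)
    (hsee' : ∃ x ∈ RX S row u v, ∃ y ∈ RX S row u v, ¬ Er P S t x y)
    (hpq : wadj p q) (hp : VisR w δ₁ Om₂ p) (hq : VisR w δ₁ Om₂ q)
    (hpn : p ∉ ({u, v} : Set (ℕ × ℕ))) (hqn : q ∉ ({u, v} : Set (ℕ × ℕ)))
    (hst : SnW P S row w D₀ Hs₀ t p q) (hsz : ¬ SnW P S row w D₀ Hs₀ z p q) :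
    (Quiet P S row u v t ∧ Quiet P S row v u t) ∧
      CmpOn (RX S row u v) (Arw P S row w u v t) (Arw P S row w u v z) := by
  have hT := h.locT ht htcl
  have hZ := h.locT hz hzcl
  have hs := seen_of_sep (h.self hu).2.2.1 hsee
  have hs' := seen_of_sep (h.self hu).2.2.1 hsee'
  have hpr := (h.self hp).2.2.1
  have hqr := (h.self hq).2.2.1
  -- the rung is clean
  have htc : ∀ c, ∀ x ∈ YW P S row w D₀ Hs₀ t c, OutW δ₀ w Om₁ x := by
    intro c x hx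
    rcases hT.supp_far huv hu hv hs' hpq hst hpn hqn c hx with h1 | h1 | h1 | h1
    · exact h1 ▸ (h.self hu).2.1
    · exact h1 ▸ (h.self hv).2.1
    · exact h1 ▸ (h.self hp).2.1
    · exact (mem_singleton_iff.1 h1) ▸ (h.self hq).2.1
  -- the rung is quiet at `u` and `v`
  have hqt : ∀ {u v : ℕ × ℕ}, wadj u v → VisR w δ₁ Om₂ u → VisR w δ₁ Om₂ v →
      SnW P S row w D₀ Hs₀ t u v → p ∉ ({u, v} : Set (ℕ × ℕ)) → q ∉ ({u, v} : Set (ℕ × ℕ)) →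
      Quiet P S row u v t := by
    intro u v huv hu hv hs' hpn hqn
    refine quiet_of_au h.wal.mem (h.self hu).2.2.1 fun q' hq' hne h1 => ?_
    obtain ⟨c, y, h2, h3, _⟩ := hT.exit_star_of_far huv hu hv hs' hpq hpr hqr hst hpn hqn
    exact h2 (hT.near_of_two huv hu hv hs' hq' h1 hne.symm c h3)
  have e1 : ({v, u} : Set (ℕ × ℕ)) = {u, v} := pair_comm _ _
  refine ⟨⟨hqt huv hu hv hs' hpn hqn, hqt (wadj_swap huv) hv hu (hT.snsymm _ _ hs')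
    (e1 ▸ hpn) (e1 ▸ hqn)⟩, ?_⟩
  refine h.cmp0 hβ hz hzcl hzS ht htcl htS huv hu hv hk.clean htc (Or.inl hk.qu)
    (Or.inl (hqt huv hu hv hs' hpn hqn)) hsee hsee' ?_
  rcases hk.kind with ⟨p', q', h1, h2, h3, h4, h5⟩ | ⟨y, h1, h2, h3, h4⟩
  · refine hT.pair_far hZ huv hu hv hs' hs hpq hst hpr hqr hpn hqn h1 h2 h3 h4 ?_ hsz
    intro h6
    rcases hT.far_only huv hu hv hs' hpq hp hq hst hpn hqn h1 h3 h4 h6 with ⟨rfl, rfl⟩ | ⟨rfl, rfl⟩
    · exact hsz h2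
    · exact hsz (hZ.snsymm _ _ h2)
  · exact hT.pair_fix huv hu hv hs' hpq hst hpr hqr hpn hqn h1 h4

/-- **(ONE) against a near rung at `u`.** -/
theorem Rnd.one_near_u [P.Finite] (h : Rnd P S row w D β D₀ δ₀ D₁ δ₁ Hm Hs₀ Om₁ Hs₁ Om₂)
    (hβ : 4 ≤ β) (hz : z ∈ D) (hzcl : z ∈ P.closure S) (hzS : z ∉ S) (ht : t ∈ D)
    (htcl : t ∈ P.closure S) (htS : t ∉ S) (huv : wadj u v)
    (hu : VisR w δ₁ Om₂ u) (hv : VisR w δ₁ Om₂ v)
    (hsee : ∃ x ∈ RX S row u v, ∃ y ∈ RX S row u v, ¬ Er P S z x y)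
    (hk : OneK P S row w D₀ δ₀ Hs₀ Om₁ u v z)
    (hsee' : ∃ x ∈ RX S row u v, ∃ y ∈ RX S row u v, ¬ Er P S t x y)
    (huv' : wadj u v') (hv' : VisR w δ₁ Om₂ v') (hne : v ≠ v')
    (hst : SnW P S row w D₀ Hs₀ t u v')
    (hY : ∀ c, YW P S row w D₀ Hs₀ t c ⊆ {u, v, v'}) :
    Quiet P S row v u t ∧
      Pr2 wadj u v (YW P S row w D₀ Hs₀ t) (YW P S row w D₀ Hs₀ z) ∧
      CmpOn (RX S row u v) (Arw P S row w u v t) (Arw P S row w u v z) := by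
  have hT := h.locT ht htcl
  have hZ := h.locT hz hzcl
  have hs := seen_of_sep (h.self hu).2.2.1 hsee
  have hs' := seen_of_sep (h.self hu).2.2.1 hsee'
  have htc : ∀ c, ∀ x ∈ YW P S row w D₀ Hs₀ t c, OutW δ₀ w Om₁ x := by
    intro c x hx
    rcases hY c hx with h1 | h1 | h1
    · exact h1 ▸ (h.self hu).2.1
    · exact h1 ▸ (h.self hv).2.1
    · exact (mem_singleton_iff.1 h1) ▸ (h.self hv').2.1
  have hv'r := (h.self hv').2.2.1
  have hqv : Quiet P S row v u t := by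
    refine quiet_of_au h.wal.mem (h.self hv).2.2.1 fun q' hq' hne' h1 => ?_
    have h2 := hT.near_of_two (wadj_swap huv) hv hu (hT.snsymm _ _ hs') hq' h1 hne'.symm
    obtain ⟨c₀⟩ := hT.ne
    obtain ⟨c, h3, _⟩ := hT.tog v' u (wadj_swap huv') hv'r (hT.snsymm _ _ hst) c₀
    rcases h2 c h3 with h4 | h4
    · exact hne h4.symm
    · exact hT.tri u v v' huv h4 huv'
  have hp : Pr2 wadj u v (YW P S row w D₀ Hs₀ t) (YW P S row w D₀ Hs₀ z) := by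
    rcases hk.kind with ⟨p', q', h1, h2, h3, h4, h5⟩ | ⟨y, h1, h2, h3, h4⟩
    · exact (hZ.pair_near' hT huv hu hv hs h1 h2 h2.2 h3 h4 huv' hne hst hY).symm
    · exact hT.pair_near_fix huv hu huv' hne hst hY h1 h4 h2
  exact ⟨hqv, hp, h.cmp0 hβ hz hzcl hzS ht htcl htS huv hu hv hk.clean htc (Or.inl hk.qu)
    (Or.inr hqv) hsee hsee' hp⟩

/-- **(ONE) against a near rung at `v`.** -/
theorem Rnd.one_near_v [P.Finite] (h : Rnd P S row w D β D₀ δ₀ D₁ δ₁ Hm Hs₀ Om₁ Hs₁ Om₂)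
    (hβ : 4 ≤ β) (hz : z ∈ D) (hzcl : z ∈ P.closure S) (hzS : z ∉ S) (ht : t ∈ D)
    (htcl : t ∈ P.closure S) (htS : t ∉ S) (huv : wadj u v)
    (hu : VisR w δ₁ Om₂ u) (hv : VisR w δ₁ Om₂ v)
    (hsee : ∃ x ∈ RX S row u v, ∃ y ∈ RX S row u v, ¬ Er P S z x y)
    (hk : OneK P S row w D₀ δ₀ Hs₀ Om₁ u v z)
    (hsee' : ∃ x ∈ RX S row u v, ∃ y ∈ RX S row u v, ¬ Er P S t x y)
    (hvv' : wadj v v') (hv' : VisR w δ₁ Om₂ v') (hne : u ≠ v')
    (hst : SnW P S row w D₀ Hs₀ t v v')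
    (hY : ∀ c, YW P S row w D₀ Hs₀ t c ⊆ {v, u, v'}) :
    Quiet P S row u v t ∧
      Pr2 wadj u v (YW P S row w D₀ Hs₀ t) (YW P S row w D₀ Hs₀ z) ∧
      CmpOn (RX S row u v) (Arw P S row w u v t) (Arw P S row w u v z) := by
  have hcomm : RX S row v u = RX S row u v := RX_comm.symm
  obtain ⟨h1, h2, -⟩ := h.one_near_u hβ hz hzcl hzS ht htcl htS (wadj_swap huv) hv hu
    (by rw [hcomm]; exact hsee) hk.symm (by rw [hcomm]; exact hsee') hvv' hv' hne hst hY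
  have htc : ∀ c, ∀ x ∈ YW P S row w D₀ Hs₀ t c, OutW δ₀ w Om₁ x := by
    intro c x hx
    rcases hY c hx with h1 | h1 | h1
    · exact h1 ▸ (h.self hv).2.1
    · exact h1 ▸ (h.self hu).2.1
    · exact (mem_singleton_iff.1 h1) ▸ (h.self hv').2.1
  exact ⟨h1, h2.flip, h.cmp0 hβ hz hzcl hzS ht htcl htS huv hu hv hk.clean htc (Or.inl hk.qu)
    (Or.inl h1) hsee hsee' h2.flip⟩

end one

end DA
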