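import Pool.Agent.DA.RowRnd
import Pool.Agent.DA.OneP51
import Pool.Agent.DA.Kinds
import Pool.Agent.DA.Mix

/-!
# Witnesses for the exits of a visible row (R6 of T-star, helper33)

`RowX` = exit of the visible row `u v` in the language of locations.  `FarW`, `NearW` = far rungs,
near rungs at `u`.  PWitB for every exit, PWitD for every pair with different second nodes.
-/

set_option autoImplicit false

open Set BIC BICS
open scoped Matroid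

namespace DA

open Gad TST

section pure

variable {V Ch : Type*} {adj : V → V → Prop} {Reg Vis : V → Prop} {Y : Ch → Set V}
  {Sn : V → V → Prop}

/-- a far rung sees only its two rows -/
lemma LocS.far_rowsX (h : LocS adj Reg Vis Y Sn) {u v p q a b : V} (huv : adj u v) (hu : Vis u)
    (hv : Vis v) (hs : Sn u v) (hpq : adj p q) (hp : Vis p) (hq : Vis q) (hs' : Sn p q)
    (hpn : p ∉ ({u, v} : Set V)) (hqn : q ∉ ({u, v} : Set V)) (hab : adj a b) (hs₁ : Sn a b) :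
    s(a, b) = s(u, v) ∨ s(a, b) = s(p, q) := by
  have key : ∀ {u v a b : V}, adj u v → Vis u → Vis v → Sn u v → p ∉ ({u, v} : Set V) →
      q ∉ ({u, v} : Set V) → adj a b → Sn a b → a = u → s(a, b) = s(u, v) := by
    rintro u v a b huv hu hv hs hpn hqn hab hs₁ rfl
    by_cases hb : v = b
    · rw [hb]
    · exfalso
      obtain ⟨c, y, h2, h3, _⟩ := h.exit_star_of_far huv hu hv hs hpq (h.vis p hp) (h.vis q hq) hs'
        hpn hqn
      exact h2 (h.near_of_two huv hu hv hs hab hs₁ hb c h3)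
  have e1 : ({v, u} : Set V) = {u, v} := pair_comm _ _
  by_cases h1 : a = u
  · exact Or.inl (key huv hu hv hs hpn hqn hab hs₁ h1)
  by_cases h2 : a = v
  · left
    rw [key (h.symm _ _ huv) hv hu (h.snsymm _ _ hs) (e1 ▸ hpn) (e1 ▸ hqn) hab hs₁ h2, Sym2.eq_swap]
  by_cases h3 : b = u
  · left
    rw [Sym2.eq_swap]
    exact key huv hu hv hs hpn hqn (h.symm _ _ hab) (h.snsymm _ _ hs₁) h3
  by_cases h4 : b = v
  · left
    rw [Sym2.eq_swap, key (h.symm _ _ huv) hv hu (h.snsymm _ _ hs) (e1 ▸ hpn) (e1 ▸ hqn)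
      (h.symm _ _ hab) (h.snsymm _ _ hs₁) h4, Sym2.eq_swap]
  right
  have ha : a ∉ ({u, v} : Set V) := by
    rintro (h5 | h5)
    exacts [h1 h5, h2 h5]
  have hb : b ∉ ({u, v} : Set V) := by
    rintro (h5 | h5)
    exacts [h3 h5, h4 h5]
  rcases h.far_only huv hu hv hs hpq hp hq hs' hpn hqn hab ha hb hs₁ with ⟨h5, h6⟩ | ⟨h5, h6⟩
  · rw [h5, h6]
  · rw [h5, h6, Sym2.eq_swap]

/-- a near rung at `u` sees only rows at `u` -/
lemma LocS.near_rows (h : LocS adj Reg Vis Y Sn) {u v v' a b : V} (huv : adj u v) (hu : Vis u)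
    (hv : Vis v) (hs : Sn u v) (huv' : adj u v') (hs' : Sn u v') (hne : v ≠ v') (hab : adj a b)
    (hs₁ : Sn a b) : a = u ∨ b = u := by
  have hsub := h.near_of_two huv hu hv hs huv' hs' hne
  have hv'r : Reg v' := (h.vis₂ u v' u hu huv' (h.symm _ _ huv')).1
  have keyv : ∀ {b : V}, adj v b → Sn v b → b = u := by
    intro b hb h1
    by_contra hbu
    obtain ⟨c₀⟩ := h.ne
    obtain ⟨c, h2, _⟩ := h.tog v' u (h.symm _ _ huv') hv'r (h.snsymm _ _ hs') c₀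
    rcases h.near_of_two (h.symm _ _ huv) hv hu (h.snsymm _ _ hs) hb h1 (Ne.symm hbu) c h2 with
      h3 | h3
    · exact hne h3.symm
    · exact h.tri u v v' huv h3 huv'
  by_contra hcon
  rw [not_or] at hcon
  by_cases h1 : a = v
  · subst h1
    exact hcon.2 (keyv hab hs₁)
  by_cases h2 : b = v
  · subst h2
    exact hcon.1 (keyv (h.symm _ _ hab) (h.snsymm _ _ hs₁))
  have key : ∀ {a b : V}, a ≠ u → b ≠ u → adj a b → Sn a b → Reg a → False := by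
    intro a b hau hbu hab hs₁ ha
    obtain ⟨c₀⟩ := h.ne
    obtain ⟨c, h3, _⟩ := h.tog a b hab ha hs₁ c₀
    have h4 := (hsub c h3).resolve_left hau
    have hb := (h.vis₂ u a b hu h4 hab).2
    obtain ⟨c', h5, _⟩ := h.tog b a (h.symm _ _ hab) hb (h.snsymm _ _ hs₁) c₀
    exact h.tri u a b h4 hab ((hsub c' h5).resolve_left hbu)
  rcases h.snreg a b hs₁ with h3 | h3
  · exact key hcon.1 hcon.2 hab hs₁ h3
  · exact key hcon.2 hcon.1 (h.symm _ _ hab) (h.snsymm _ _ hs₁) h3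

end pure

section

variable {α : Type*} {P : Matroid α} {S : Set α} {row : α → Sym2 (ℕ × ℕ)} {w : ℕ} {D : Set α}
  {β D₀ δ₀ D₁ δ₁ : ℕ} {Hm Hs₀ Om₁ Hs₁ Om₂ : Finset (ℕ × ℕ)} {u v p q v' u' : ℕ × ℕ} {z z' t : α}
  {T : Set α}

/-- **An exit of the visible row `u v`** (round 1). -/
structure RowX {α : Type*} (P : Matroid α) (S : Set α) (row : α → Sym2 (ℕ × ℕ)) (w D₀ δ₁ : ℕ)
    (Hs₀ Om₂ : Finset (ℕ × ℕ)) (u v : ℕ × ℕ) (z : α) : Prop where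
  clean : ∀ c, ∀ x ∈ YW P S row w D₀ Hs₀ z c, OutW δ₁ w Om₂ x
  exit : ∃ c y, y ∉ ({u, v} : Set (ℕ × ℕ)) ∧ y ∈ YW P S row w D₀ Hs₀ z c ∧
    YW P S row w D₀ Hs₀ z c ⊆ {u, v, y}
  quiet : Quiet P S row u v z ∨ Quiet P S row v u z

/-- **A far rung** of the row `u v` with the far row `p q`. -/
structure FarW {α : Type*} (P : Matroid α) (S : Set α) (row : α → Sym2 (ℕ × ℕ)) (w D₀ δ₁ : ℕ)
    (Hs₀ Om₂ : Finset (ℕ × ℕ)) (u v p q : ℕ × ℕ) (t : α) : Prop where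
  adj : wadj p q
  vp : VisR w δ₁ Om₂ p
  vq : VisR w δ₁ Om₂ q
  pn : p ∉ ({u, v} : Set (ℕ × ℕ))
  qn : q ∉ ({u, v} : Set (ℕ × ℕ))
  sn : SnW P S row w D₀ Hs₀ t p q

/-- **A near rung** at `u` with the other row `u v'`. -/
structure NearW {α : Type*} (P : Matroid α) (S : Set α) (row : α → Sym2 (ℕ × ℕ)) (w D₀ δ₁ : ℕ)
    (Hs₀ Om₂ : Finset (ℕ × ℕ)) (u v v' : ℕ × ℕ) (t : α) : Prop where
  adj : wadj u v'
  ne : v ≠ v'
  vis : VisR w δ₁ Om₂ v'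
  sn : SnW P S row w D₀ Hs₀ t u v'
  nd : ¬ ∀ c, YW P S row w D₀ Hs₀ t c \ {u, v} = nst wadj u \ {u, v}

section rnd

variable [P.Finite] (h : Rnd P S row w D β D₀ δ₀ D₁ δ₁ Hm Hs₀ Om₁ Hs₁ Om₂)
include h

/-- exits are exits of round 1 -/
lemma Rnd.exitX (hβ : 4 ≤ β) (hz : z ∈ D) (hzcl : z ∈ P.closure S) (hzS : z ∉ S) (huv : wadj u v)
    (hu : VisR w δ₁ Om₂ u) (hv : VisR w δ₁ Om₂ v) (hsee : SeeP P S row z u v)
    (hclean : ∀ c, ∀ x ∈ YW P S row w D₀ Hs₀ z c, OutW δ₁ w Om₂ x) {c : ChW S row w} {y : ℕ × ℕ}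
    (hy : y ∉ ({u, v} : Set (ℕ × ℕ))) (hyc : y ∈ YW P S row w D₀ Hs₀ z c)
    (hsub : YW P S row w D₀ Hs₀ z c ⊆ {u, v, y}) :
    ExitEH P S row w D₁ β δ₁ Hs₁ Om₂ {u, v} c.1 y z := by
  refine h.exit1 hβ hz hzcl hzS huv hu hv (seen_of_sep (h.self hu).2.2.1 hsee) hclean hy hyc ?_
  intro x hx
  rcases hsub hx with h4 | h4 | h4
  · exact Or.inr (Or.inl h4)
  · exact Or.inr (Or.inr h4)
  · exact Or.inl h4

/-- **Every exit has a witness.** -/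
theorem Rnd.rowB (hβ : 4 ≤ β) (hz : z ∈ D) (hzcl : z ∈ P.closure S) (hzS : z ∉ S) (huv : wadj u v)
    (hu : VisR w δ₁ Om₂ u) (hv : VisR w δ₁ Om₂ v) (hsee : SeeP P S row z u v)
    (hx : RowX P S row w D₀ δ₁ Hs₀ Om₂ u v z)
    (hT : ∀ t ∈ T, (t ∈ P.closure S ∧ t ∉ S) ∧
      ∀ c : ChW S row w, ∀ x ∈ LocR P S row c.1 t, RegW w D₁ Hs₁ x → x = u ∨ x = v) :
    PWitB (Er P S) (Lr P S row w u) (Lr P S row w v) (Arw P S row w u v) (RX S row u v) T z := by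
  obtain ⟨c, y, h1, h2, h3⟩ := hx.exit
  exact h.pwitB₁ huv hu hv hT (h.exitX hβ hz hzcl hzS huv hu hv hsee hx.clean h1 h2 h3) hx.quiet hsee

/-- **Every pair of exits with different second nodes has a witness.** -/
theorem Rnd.rowD (hβ : 4 ≤ β) (hz : z ∈ D) (hzcl : z ∈ P.closure S) (hzS : z ∉ S)
    (hz' : z' ∈ D) (hzcl' : z' ∈ P.closure S) (hzS' : z' ∉ S) (huv : wadj u v)
    (hu : VisR w δ₁ Om₂ u) (hv : VisR w δ₁ Om₂ v) (hsee : SeeP P S row z u v)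
    (hsee' : SeeP P S row z' u v) (hx : RowX P S row w D₀ δ₁ Hs₀ Om₂ u v z)
    (hx' : RowX P S row w D₀ δ₁ Hs₀ Om₂ u v z')
    (hp : Pr2 wadj u v (YW P S row w D₀ Hs₀ z) (YW P S row w D₀ Hs₀ z'))
    (hT : ∀ t ∈ T, (t ∈ P.closure S ∧ t ∉ S) ∧
      ∀ c : ChW S row w, ∀ x ∈ LocR P S row c.1 t, RegW w D₁ Hs₁ x → x = u ∨ x = v) :
    PWitD (Er P S) (Lr P S row w u) (Lr P S row w v) (Arw P S row w u v) (RX S row u v) T z z' := by
  obtain ⟨c, y, y', ⟨h1, h2, h3⟩, ⟨h4, h5, h6⟩, h7, h8, h9⟩ := hp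
  exact h.pwitD₁ huv hu hv hT (h.exitX hβ hz hzcl hzS huv hu hv hsee hx.clean h1 h2 h3)
    (h.exitX hβ hz' hzcl' hzS' huv hu hv hsee' hx'.clean h4 h5 h6) h7 h8 h9 hx.quiet hx'.quiet hsee
    hsee'

/-- **Far rungs are exits**, quiet at both ends. -/
theorem Rnd.far_x (hz : z ∈ D) (hzcl : z ∈ P.closure S) (huv : wadj u v)
    (hu : VisR w δ₁ Om₂ u) (hv : VisR w δ₁ Om₂ v) (hsee : SeeP P S row z u v)
    (hf : FarW P S row w D₀ δ₁ Hs₀ Om₂ u v p q z) :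
    RowX P S row w D₀ δ₁ Hs₀ Om₂ u v z ∧ Quiet P S row u v z ∧ Quiet P S row v u z := by
  have hT := h.locT hz hzcl
  have hs := seen_of_sep (h.self hu).2.2.1 hsee
  have hpr := (h.self hf.vp).2.2.1
  have hqr := (h.self hf.vq).2.2.1
  have hqt : ∀ {u v : ℕ × ℕ}, wadj u v → VisR w δ₁ Om₂ u → VisR w δ₁ Om₂ v →
      SnW P S row w D₀ Hs₀ z u v → p ∉ ({u, v} : Set (ℕ × ℕ)) → q ∉ ({u, v} : Set (ℕ × ℕ)) →
      Quiet P S row u v z := by
    intro u v huv hu hv hs' hpn hqn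
    refine quiet_of_au h.wal.mem (h.self hu).2.2.1 fun q' hq' hne h1 => ?_
    obtain ⟨c, y, h2, h3, _⟩ := hT.exit_star_of_far huv hu hv hs' hf.adj hpr hqr hf.sn hpn hqn
    exact h2 (hT.near_of_two huv hu hv hs' hq' h1 hne.symm c h3)
  have e1 : ({v, u} : Set (ℕ × ℕ)) = {u, v} := pair_comm _ _
  have k1 := hqt huv hu hv hs hf.pn hf.qn
  refine ⟨⟨?_, hT.exit_of_far huv hu hv hs hf.adj hpr hqr hf.sn hf.pn hf.qn, Or.inl k1⟩, k1,
    hqt (wadj_swap huv) hv hu (hT.snsymm _ _ hs) (e1 ▸ hf.pn) (e1 ▸ hf.qn)⟩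
  intro c x hx
  rcases hT.supp_far huv hu hv hs hf.adj hf.sn hf.pn hf.qn c hx with h1 | h1 | h1 | h1
  · exact h1 ▸ (h.self hu).1
  · exact h1 ▸ (h.self hv).1
  · exact h1 ▸ (h.self hf.vp).1
  · exact (mem_singleton_iff.1 h1) ▸ (h.self hf.vq).1

/-- **Near rungs at `u` are exits**, quiet at `v`. -/
theorem Rnd.near_x (hz : z ∈ D) (hzcl : z ∈ P.closure S) (huv : wadj u v)
    (hu : VisR w δ₁ Om₂ u) (hv : VisR w δ₁ Om₂ v) (hsee : SeeP P S row z u v)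
    (hf : NearW P S row w D₀ δ₁ Hs₀ Om₂ u v v' z) :
    RowX P S row w D₀ δ₁ Hs₀ Om₂ u v z ∧ Quiet P S row v u z := by
  have hT := h.locT hz hzcl
  have hs := seen_of_sep (h.self hu).2.2.1 hsee
  have hqv : Quiet P S row v u z := by
    refine quiet_of_au h.wal.mem (h.self hv).2.2.1 fun q' hq' hne' h1 => ?_
    rcases hT.near_rows huv hu hv hs hf.adj hf.sn hf.ne hq' h1 with h2 | h2
    · exact hT.adj_ne huv h2.symm
    · exact hne' h2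
  refine ⟨⟨?_, ?_, Or.inr hqv⟩, hqv⟩
  · intro c x hx
    have h1 := hT.near_of_two huv hu hv hs hf.adj hf.sn hf.ne c hx
    refine (h.near hu (x := x) ?_).1
    rcases h1 with h1 | h1
    · rw [h1, sd_self]; omega
    · have := (wadj_sd h1).1
      omega
  · rcases hT.exit_of_near huv hu hv hs hf.adj hf.sn hf.ne with h1 | h1
    · exact h1
    · exact absurd h1 hf.nd

/-- **Near rungs at `v` are exits**, quiet at `u`. -/
theorem Rnd.near_x' (hz : z ∈ D) (hzcl : z ∈ P.closure S) (huv : wadj u v)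
    (hu : VisR w δ₁ Om₂ u) (hv : VisR w δ₁ Om₂ v) (hsee : SeeP P S row z u v)
    (hf : NearW P S row w D₀ δ₁ Hs₀ Om₂ v u u' z) :
    RowX P S row w D₀ δ₁ Hs₀ Om₂ u v z ∧ Quiet P S row u v z := by
  have hsee' : SeeP P S row z v u := seeP_symm hsee
  obtain ⟨⟨h1, ⟨c, y, h2, h3, h4⟩, h5⟩, h6⟩ := h.near_x hz hzcl (wadj_swap huv) hv hu hsee' hf
  refine ⟨⟨h1, ⟨c, y, ?_, h3, ?_⟩, Or.inl h6⟩, h6⟩
  · rw [pair_comm]; exact h2
  · rw [insert_comm]; exact h4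

/-! ### Pairs -/

/-- far / far with different far rows -/
theorem Rnd.pr_far (hz : z ∈ D) (hzcl : z ∈ P.closure S) (hz' : z' ∈ D) (hzcl' : z' ∈ P.closure S)
    (huv : wadj u v) (hu : VisR w δ₁ Om₂ u) (hv : VisR w δ₁ Om₂ v) (hsee : SeeP P S row z u v)
    (hsee' : SeeP P S row z' u v) (hf : FarW P S row w D₀ δ₁ Hs₀ Om₂ u v p q z)
    {p' q' : ℕ × ℕ} (hf' : FarW P S row w D₀ δ₁ Hs₀ Om₂ u v p' q' z')
    (hne : s(p, q) ≠ s(p', q')) :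
    Pr2 wadj u v (YW P S row w D₀ Hs₀ z) (YW P S row w D₀ Hs₀ z') := by
  have hT := h.locT hz hzcl
  have hT' := h.locT hz' hzcl'
  have hs := seen_of_sep (h.self hu).2.2.1 hsee
  have hs' := seen_of_sep (h.self hu).2.2.1 hsee'
  refine hT.pair_far hT' huv hu hv hs hs' hf.adj hf.sn (h.self hf.vp).2.2.1 (h.self hf.vq).2.2.1
    hf.pn hf.qn hf'.adj hf'.sn hf'.pn hf'.qn ?_ ?_
  · intro h1
    rcases hT.far_only huv hu hv hs hf.adj hf.vp hf.vq hf.sn hf.pn hf.qn hf'.adj hf'.pn hf'.qn h1 with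
      ⟨h2, h3⟩ | ⟨h2, h3⟩
    · exact hne (by rw [h2, h3])
    · exact hne (by rw [h2, h3, Sym2.eq_swap])
  · intro h1
    rcases hT'.far_only huv hu hv hs' hf'.adj hf'.vp hf'.vq hf'.sn hf'.pn hf'.qn hf.adj hf.pn hf.qn h1
      with ⟨h2, h3⟩ | ⟨h2, h3⟩
    · exact hne (by rw [h2, h3])
    · exact hne (by rw [h2, h3, Sym2.eq_swap])

/-- far / near -/
theorem Rnd.pr_near (hz : z ∈ D) (hzcl : z ∈ P.closure S) (hz' : z' ∈ D) (hzcl' : z' ∈ P.closure S)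
    (huv : wadj u v) (hu : VisR w δ₁ Om₂ u) (hv : VisR w δ₁ Om₂ v) (hsee : SeeP P S row z u v)
    (hsee' : SeeP P S row z' u v)
    (hf : FarW P S row w D₀ δ₁ Hs₀ Om₂ u v p q z)
    (hf' : NearW P S row w D₀ δ₁ Hs₀ Om₂ u v v' z') :
    Pr2 wadj u v (YW P S row w D₀ Hs₀ z) (YW P S row w D₀ Hs₀ z') := by
  have hT := h.locT hz hzcl
  have hT' := h.locT hz' hzcl'
  have hs := seen_of_sep (h.self hu).2.2.1 hsee
  have hs' := seen_of_sep (h.self hu).2.2.1 hsee'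
  obtain ⟨c₀⟩ := hT.ne
  obtain ⟨c₁, h1, _⟩ := hT.tog p q hf.adj (h.self hf.vp).2.2.1 hf.sn c₀
  obtain ⟨c₂, h2, _⟩ := hT.tog q p (wadj_swap hf.adj) (h.self hf.vq).2.2.1 (hT.snsymm _ _ hf.sn) c₀
  obtain ⟨⟨_, ⟨c₃, y, h3, h4, h5⟩, _⟩, _⟩ := h.near_x hz' hzcl' huv hu hv hsee' hf'
  refine pr2_far_ex h.wal.sub h.wal.mem (fun v hv => h.vc v hv.1 hv.2) ?_
    (sdiff_eq_single hf.pn h1 (hT.far_exit huv hu hv hs hf.adj hf.sn hf.pn hf.qn h1))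
    (sdiff_eq_single hf.qn h2 (hT.far_exit huv hu hv hs (wadj_swap hf.adj) (hT.snsymm _ _ hf.sn)
      hf.qn hf.pn h2)) (sdiff_eq_single h3 h4 h5) (hT.adj_ne hf.adj)
    (hT.far_end huv hf.adj hf.pn hf.qn)
  intro a b hab h6 h7
  rcases hT.far_rowsX huv hu hv hs hf.adj hf.vp hf.vq hf.sn hf.pn hf.qn hab h6 with h8 | h8
  · exact h8
  · exfalso
    have h9 := hT'.near_rows huv hu hv hs' hf'.adj hf'.sn hf'.ne hab h7
    have h10 : u ∈ s(p, q) := by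
      rw [← h8]
      rcases h9 with h9 | h9
      · rw [h9]; exact Sym2.mem_mk_left _ _
      · rw [h9]; exact Sym2.mem_mk_right _ _
    rcases Sym2.mem_iff.1 h10 with h11 | h11
    · exact hf.pn (Or.inl h11.symm)
    · exact hf.qn (Or.inl h11.symm)

/-- far / near at the other end -/
theorem Rnd.pr_near' (hz : z ∈ D) (hzcl : z ∈ P.closure S) (hz' : z' ∈ D)
    (hzcl' : z' ∈ P.closure S)
    (huv : wadj u v) (hu : VisR w δ₁ Om₂ u) (hv : VisR w δ₁ Om₂ v) (hsee : SeeP P S row z u v)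
    (hsee' : SeeP P S row z' u v)
    (hf : FarW P S row w D₀ δ₁ Hs₀ Om₂ u v p q z)
    (hf' : NearW P S row w D₀ δ₁ Hs₀ Om₂ v u u' z') :
    Pr2 wadj u v (YW P S row w D₀ Hs₀ z) (YW P S row w D₀ Hs₀ z') := by
  have e1 : ({v, u} : Set (ℕ × ℕ)) = {u, v} := pair_comm _ _
  exact (h.pr_near hz hzcl hz' hzcl' (wadj_swap huv) hv hu (seeP_symm hsee) (seeP_symm hsee')
    ⟨hf.adj, hf.vp, hf.vq, e1 ▸ hf.pn, e1 ▸ hf.qn, hf.sn⟩ hf').flip

/-- near at `u` / near at `v` -/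
theorem Rnd.pr_nn (hz : z ∈ D) (hzcl : z ∈ P.closure S) (hz' : z' ∈ D) (hzcl' : z' ∈ P.closure S)
    (huv : wadj u v) (hu : VisR w δ₁ Om₂ u) (hv : VisR w δ₁ Om₂ v) (hsee : SeeP P S row z u v)
    (hsee' : SeeP P S row z' u v)
    (hf : NearW P S row w D₀ δ₁ Hs₀ Om₂ u v v' z)
    (hf' : NearW P S row w D₀ δ₁ Hs₀ Om₂ v u u' z') :
    Pr2 wadj u v (YW P S row w D₀ Hs₀ z) (YW P S row w D₀ Hs₀ z') := by
  have hT := h.locT hz hzcl
  have hT' := h.locT hz' hzcl'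
  have hs := seen_of_sep (h.self hu).2.2.1 hsee
  have hs' := seen_of_sep (h.self hu).2.2.1 hsee'
  obtain ⟨⟨_, ⟨c₁, y, h1, h2, h3⟩, _⟩, _⟩ := h.near_x hz hzcl huv hu hv hsee hf
  obtain ⟨⟨_, ⟨c₂, y', h4, h5, h6⟩, _⟩, _⟩ := h.near_x' hz' hzcl' huv hu hv hsee' hf'
  have hy : wadj u y := by
    rcases hT.near_of_two huv hu hv hs hf.adj hf.sn hf.ne c₁ h2 with h7 | h7
    · exact absurd (Or.inl h7) h1
    · exact h7
  have hy' : wadj v y' := by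
    rcases hT'.near_of_two (wadj_swap huv) hv hu (hT'.snsymm _ _ hs') hf'.adj hf'.sn hf'.ne c₂ h5 with
      h7 | h7
    · exact absurd (Or.inr h7) h4
    · exact h7
  refine pr2_of_ex h.wal.sub h.wal.mem (fun v hv => h.vc v hv.1 hv.2) ?_ (sdiff_eq_single h1 h2 h3)
    (sdiff_eq_single h4 h5 h6) ?_ ?_ ?_
  · intro a b hab h7 h8
    have h9 := hT.near_rows huv hu hv hs hf.adj hf.sn hf.ne hab h7
    have h10 := hT'.near_rows (wadj_swap huv) hv hu (hT'.snsymm _ _ hs') hf'.adj hf'.sn hf'.ne hab h8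
    rcases h9 with rfl | rfl <;> rcases h10 with rfl | rfl
    · exact absurd huv (hT.irr _)
    · rfl
    · exact Sym2.eq_swap
    · exact absurd huv (hT.irr _)
  · rintro rfl
    exact hT.tri u v y huv hy' hy
  · exact fun h7 => hT.tri u v y' huv hy' h7.2
  · exact fun h7 => hT.tri v u y (wadj_swap huv) hy h7.1

/-- an exit which is quiet at both ends: its two classes -/
theorem Rnd.lr_compl (hβ : 4 ≤ β) (hz : z ∈ D) (hzcl : z ∈ P.closure S) (hzS : z ∉ S)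
    (huv : wadj u v) (hu : VisR w δ₁ Om₂ u) (hv : VisR w δ₁ Om₂ v) (hsee : SeeP P S row z u v)
    (hx : RowX P S row w D₀ δ₁ Hs₀ Om₂ u v z) (qu : Quiet P S row u v z)
    (qv : Quiet P S row v u z) {x : α} (hxX : x ∈ RX S row u v) :
    x ∈ Lr P S row w v z ↔ x ∉ Lr P S row w u z := by
  obtain ⟨c, y, h1, h2, h3⟩ := hx.exit
  have hE1 := h.exitX hβ hz hzcl hzS huv hu hv hsee hx.clean h1 h2 h3
  obtain ⟨o₁, o₂, k1, k2⟩ := h.w1.rends huv hu hv c.2.2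
  obtain ⟨hE, i1, -⟩ := h.w1.row u v c.1 o₁ o₂ huv hu c.2.1 c.2.2 k1 k2
  have hs : PSysB (P ／ FRow S row c.1 u v) (RX S row u v) o₁ o₂ ∅ z := by
    refine hE.psys (fun t ht => absurd ht (notMem_empty t)) ⟨hzcl, hzS⟩ (notMem_empty z) ?_
    intro C hC hzC g1 g2 hall
    refine i1 y z hE1 C hC hzC g1 g2 fun x hx => ?_
    rcases hall x hx with h3 | h3 | h3 | h3 | h3
    · exact Or.inl h3
    · exact Or.inr (Or.inl h3)
    · exact Or.inr (Or.inr (Or.inl h3))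
    · exact Or.inr (Or.inr (Or.inr (Or.inl h3)))
    · exact absurd h3 (notMem_empty x)
  have hsee' : ∃ x ∈ RX S row u v, ∃ y ∈ RX S row u v,
      ¬ Eqv (P ／ FRow S row c.1 u v) (PK (RX S row u v) o₁ o₂) z x y := by
    obtain ⟨a, ha, b, hb, g2⟩ := hsee
    exact ⟨a, ha, b, hb, fun g3 => g2 ((hE.relE hzS ha hb).1 g3)⟩
  rw [← hE.relR hzS qv hxX, ← hE.relL hzS qu hxX]
  exact hs.rR hsee' hxX

/-- the representative of the far row decides which end is a location -/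
theorem Rnd.far_loc (hβ : 4 ≤ β) (hz : z ∈ D) (hzcl : z ∈ P.closure S) (hzS : z ∉ S)
    (huv : wadj u v) (hu : VisR w δ₁ Om₂ u) (hv : VisR w δ₁ Om₂ v) (hsee : SeeP P S row z u v)
    (hseepq : SeeP P S row z p q) (hf : FarW P S row w D₀ δ₁ Hs₀ Om₂ u v p q z)
    (hc : ChW S row w) {x : α} (hx : x ∈ RX S row p q) (hxc : x ∈ hc.1) :
    (x ∉ Arw P S row w p q z → p ∈ YW P S row w D₀ Hs₀ z hc) ∧
      (x ∈ Arw P S row w p q z → q ∈ YW P S row w D₀ Hs₀ z hc) := by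
  -- `z` is a far rung of the row `p q` with the far row `u v`
  have hnu : u ∉ ({p, q} : Set (ℕ × ℕ)) := by
    rintro (h1 | h1)
    · exact hf.pn (Or.inl h1.symm)
    · exact hf.qn (Or.inl (mem_singleton_iff.1 h1).symm)
  have hnv : v ∉ ({p, q} : Set (ℕ × ℕ)) := by
    rintro (h1 | h1)
    · exact hf.pn (Or.inr h1.symm)
    · exact hf.qn (Or.inr (mem_singleton_iff.1 h1).symm)
  have hs := seen_of_sep (h.self hu).2.2.1 hsee
  have hf' : FarW P S row w D₀ δ₁ Hs₀ Om₂ p q u v z := ⟨huv, hu, hv, hnu, hnv, hs⟩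
  obtain ⟨hX, q1, q2⟩ := h.far_x hz hzcl hf.adj hf.vp hf.vq hseepq hf'
  obtain ⟨o₁, o₂, k1, k2⟩ := h.w1.rends hf.adj hf.vp hf.vq hc.2.2
  have hE := h.rowE hf.adj hf.vp hc.2.1 hc.2.2 k1 k2
  have hmem : ∀ a ∈ S, ∃ p q, row a = s(p, q) ∧ wadj p q ∧ p ∈ rect 0 0 (w + 1) (w + 1) ∧
    q ∈ rect 0 0 (w + 1) (w + 1) := hE.mem
  have hA : x ∈ Arw P S row w p q z ↔ x ∈ Lr P S row w p z := by rw [Arw, if_pos q1]
  constructor
  · intro h1
    rw [hA] at h1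
    by_contra hcon
    refine h1 ?_
    -- no location at `p` for `hc`
    have h2 : z ∈ P.closure (S \ {e | e ∈ hc.1 ∧ p ∈ row e}) := by
      by_contra h3
      exact hcon ⟨h3, (h.self hf.vp).2.2.1⟩
    intro c' hc' hW' hx'
    refine hE.cu.indep hE.sub hmem ?_ hc' hW' hx' _ hc.1 hc.2.1 hc.2.2 hxc le_rfl h2
    intro a ha a' ha' haa hpa hne hne'
    exact q1 a ha a' ha' haa hpa (by rw [← hx.2]; exact hne) hne'
  · intro h1
    -- `x` is in the class of `p`, so not in the class of `q`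
    have h3 : x ∉ Lr P S row w q z := by
      rw [h.lr_compl hβ hz hzcl hzS hf.adj hf.vp hf.vq hseepq hX q1 q2 hx, not_not, ← hA]
      exact h1
    by_contra hcon
    refine h3 ?_
    have h2 : z ∈ P.closure (S \ {e | e ∈ hc.1 ∧ q ∈ row e}) := by
      by_contra h4
      exact hcon ⟨h4, (h.self hf.vq).2.2.1⟩
    intro c' hc' hW' hx'
    refine hE.cv.indep hE.sub hmem ?_ hc' hW' hx' _ hc.1 hc.2.1 hc.2.2 hxc le_rfl h2
    intro a ha a' ha' haa hqa hne hne'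
    refine q2 a ha a' ha' haa hqa ?_ hne'
    rw [Sym2.eq_swap, ← hx.2]
    exact hne

/-- far / far with the same far row and different places on it -/
theorem Rnd.pr_same (hβ : 4 ≤ β) (hz : z ∈ D) (hzcl : z ∈ P.closure S) (hzS : z ∉ S)
    (hz' : z' ∈ D) (hzcl' : z' ∈ P.closure S) (hzS' : z' ∉ S)
    (huv : wadj u v) (hu : VisR w δ₁ Om₂ u) (hv : VisR w δ₁ Om₂ v) (hsee : SeeP P S row z u v)
    (hsee' : SeeP P S row z' u v) (hseepq : SeeP P S row z p q) (hseepq' : SeeP P S row z' p q)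
    (hf : FarW P S row w D₀ δ₁ Hs₀ Om₂ u v p q z) (hf' : FarW P S row w D₀ δ₁ Hs₀ Om₂ u v p q z')
    (hne : ¬ TST.EqOn (RX S row p q) (Arw P S row w p q z) (Arw P S row w p q z')) :
    Pr2 wadj u v (YW P S row w D₀ Hs₀ z) (YW P S row w D₀ Hs₀ z') := by
  have hT := h.locT hz hzcl
  have hT' := h.locT hz' hzcl'
  have hs := seen_of_sep (h.self hu).2.2.1 hsee
  have hs' := seen_of_sep (h.self hu).2.2.1 hsee'
  unfold TST.EqOn at hne
  push Not at hne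
  obtain ⟨x, hx, hxx⟩ := hne
  -- representatives which contain `x`
  obtain ⟨c₀, hc₀, hW₀⟩ := h.wal.exists_rep
  obtain ⟨hc, hW⟩ := swp_rep hc₀ hW₀ hx.1 (rep_of h.wal.mem hW₀ hx.1)
  have hxc : x ∈ swp row c₀ x := Or.inr rfl
  obtain ⟨a1, a2⟩ := h.far_loc hβ hz hzcl hzS huv hu hv hsee hseepq hf ⟨_, hc, hW⟩ hx hxc
  obtain ⟨b1, b2⟩ := h.far_loc hβ hz' hzcl' hzS' huv hu hv hsee' hseepq' hf' ⟨_, hc, hW⟩ hx hxc
  rcases hxx with ⟨h1, h2⟩ | ⟨h1, h2⟩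
  · exact (hT'.pair_same hT huv hu hv hs' hs hf.adj hf'.sn hf.sn hf.pn hf.qn (b1 h2) (a2 h1)).symm
  · exact hT.pair_same hT' huv hu hv hs hs' hf.adj hf.sn hf'.sn hf.pn hf.qn (a1 h1) (b2 h2)

end rnd

/-! ### All rungs of a visible row -/

/-- **The rungs of the visible row `u v`**: far, near at `u`, near at `v` -/
def RungK {α : Type*} (P : Matroid α) (S : Set α) (row : α → Sym2 (ℕ × ℕ)) (w D₀ δ₁ : ℕ)
    (Hs₀ Om₂ : Finset (ℕ × ℕ)) (u v : ℕ × ℕ) (z : α) : Prop :=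
  (∃ p q, FarW P S row w D₀ δ₁ Hs₀ Om₂ u v p q z) ∨
    (∃ v', NearW P S row w D₀ δ₁ Hs₀ Om₂ u v v' z) ∨ ∃ u', NearW P S row w D₀ δ₁ Hs₀ Om₂ v u u' z

lemma FarW.symm (hf : FarW P S row w D₀ δ₁ Hs₀ Om₂ u v p q t) :
    FarW P S row w D₀ δ₁ Hs₀ Om₂ u v q p t :=
  ⟨wadj_swap hf.adj, hf.vq, hf.vp, hf.qn, hf.pn, by rw [Sym2.eq_swap]; exact hf.sn.1, hf.sn.2.symm⟩

section rnd2

variable [P.Finite] (h : Rnd P S row w D β D₀ δ₀ D₁ δ₁ Hm Hs₀ Om₁ Hs₁ Om₂)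
include h

theorem Rnd.rung_x (hz : z ∈ D) (hzcl : z ∈ P.closure S) (huv : wadj u v)
    (hu : VisR w δ₁ Om₂ u) (hv : VisR w δ₁ Om₂ v) (hsee : SeeP P S row z u v)
    (hk : RungK P S row w D₀ δ₁ Hs₀ Om₂ u v z) : RowX P S row w D₀ δ₁ Hs₀ Om₂ u v z := by
  rcases hk with ⟨p, q, hf⟩ | ⟨v', hf⟩ | ⟨u', hf⟩
  · exact (h.far_x hz hzcl huv hu hv hsee hf).1
  · exact (h.near_x hz hzcl huv hu hv hsee hf).1
  · exact (h.near_x' hz hzcl huv hu hv hsee hf).1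

/-- **Pairs of rungs**: all except near / near at one end, and far / far with equal other places -/
theorem Rnd.rung_pr (hβ : 4 ≤ β) (hz : z ∈ D) (hzcl : z ∈ P.closure S) (hzS : z ∉ S)
    (hz' : z' ∈ D) (hzcl' : z' ∈ P.closure S) (hzS' : z' ∉ S)
    (huv : wadj u v) (hu : VisR w δ₁ Om₂ u) (hv : VisR w δ₁ Om₂ v) (hsee : SeeP P S row z u v)
    (hsee' : SeeP P S row z' u v) (hk : RungK P S row w D₀ δ₁ Hs₀ Om₂ u v z)
    (hk' : RungK P S row w D₀ δ₁ Hs₀ Om₂ u v z')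
    (nu : ¬ ((∃ a, NearW P S row w D₀ δ₁ Hs₀ Om₂ u v a z) ∧
      ∃ a, NearW P S row w D₀ δ₁ Hs₀ Om₂ u v a z'))
    (nv : ¬ ((∃ a, NearW P S row w D₀ δ₁ Hs₀ Om₂ v u a z) ∧
      ∃ a, NearW P S row w D₀ δ₁ Hs₀ Om₂ v u a z'))
    (nf : ∀ p q, FarW P S row w D₀ δ₁ Hs₀ Om₂ u v p q z → FarW P S row w D₀ δ₁ Hs₀ Om₂ u v p q z' →
      ¬ TST.EqOn (RX S row p q) (Arw P S row w p q z) (Arw P S row w p q z')) :
    Pr2 wadj u v (YW P S row w D₀ Hs₀ z) (YW P S row w D₀ Hs₀ z') := by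
  rcases hk with ⟨p, q, hf⟩ | ⟨v', hf⟩ | ⟨u', hf⟩ <;>
    rcases hk' with ⟨p', q', hf'⟩ | ⟨v'', hf'⟩ | ⟨u'', hf'⟩
  · by_cases hne : s(p, q) = s(p', q')
    · have hf'' : FarW P S row w D₀ δ₁ Hs₀ Om₂ u v p q z' := by
        rcases Sym2.eq_iff.1 hne with ⟨rfl, rfl⟩ | ⟨rfl, rfl⟩
        · exact hf'
        · exact hf'.symm
      exact h.pr_same hβ hz hzcl hzS hz' hzcl' hzS' huv hu hv hsee hsee'
        ((h.sn_iff hzcl (h.self hf.vp).2.2.1).1 hf.sn)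
        ((h.sn_iff hzcl' (h.self hf.vp).2.2.1).1 hf''.sn) hf hf'' (nf p q hf hf'')
    · exact h.pr_far hz hzcl hz' hzcl' huv hu hv hsee hsee' hf hf' hne
  · exact h.pr_near hz hzcl hz' hzcl' huv hu hv hsee hsee' hf hf'
  · exact h.pr_near' hz hzcl hz' hzcl' huv hu hv hsee hsee' hf hf'
  · exact (h.pr_near hz' hzcl' hz hzcl huv hu hv hsee' hsee hf' hf).symm
  · exact absurd ⟨⟨_, hf⟩, _, hf'⟩ nu
  · exact h.pr_nn hz hzcl hz' hzcl' huv hu hv hsee hsee' hf hf'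
  · exact (h.pr_near' hz' hzcl' hz hzcl huv hu hv hsee' hsee hf' hf).symm
  · exact (h.pr_nn hz' hzcl' hz hzcl huv hu hv hsee' hsee hf' hf).symm
  · exact absurd ⟨⟨_, hf⟩, _, hf'⟩ nv

/-- **(R6, rows), one rung**: `T` = any set of same-row elements of round 1 -/
theorem Rnd.rungB (hβ : 4 ≤ β) (hz : z ∈ D) (hzcl : z ∈ P.closure S) (hzS : z ∉ S)
    (huv : wadj u v) (hu : VisR w δ₁ Om₂ u) (hv : VisR w δ₁ Om₂ v) (hsee : SeeP P S row z u v)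
    (hk : RungK P S row w D₀ δ₁ Hs₀ Om₂ u v z)
    (hT : ∀ t ∈ T, (t ∈ P.closure S ∧ t ∉ S) ∧
      ∀ c : ChW S row w, ∀ x ∈ LocR P S row c.1 t, RegW w D₁ Hs₁ x → x = u ∨ x = v) :
    PWitB (Er P S) (Lr P S row w u) (Lr P S row w v) (Arw P S row w u v) (RX S row u v) T z :=
  h.rowB hβ hz hzcl hzS huv hu hv hsee (h.rung_x hz hzcl huv hu hv hsee hk) hT

/-- **(R6, rows), two rungs** -/
theorem Rnd.rungD (hβ : 4 ≤ β) (hz : z ∈ D) (hzcl : z ∈ P.closure S) (hzS : z ∉ S)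
    (hz' : z' ∈ D) (hzcl' : z' ∈ P.closure S) (hzS' : z' ∉ S)
    (huv : wadj u v) (hu : VisR w δ₁ Om₂ u) (hv : VisR w δ₁ Om₂ v) (hsee : SeeP P S row z u v)
    (hsee' : SeeP P S row z' u v) (hk : RungK P S row w D₀ δ₁ Hs₀ Om₂ u v z)
    (hk' : RungK P S row w D₀ δ₁ Hs₀ Om₂ u v z')
    (nu : ¬ ((∃ a, NearW P S row w D₀ δ₁ Hs₀ Om₂ u v a z) ∧
      ∃ a, NearW P S row w D₀ δ₁ Hs₀ Om₂ u v a z'))
    (nv : ¬ ((∃ a, NearW P S row w D₀ δ₁ Hs₀ Om₂ v u a z) ∧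
      ∃ a, NearW P S row w D₀ δ₁ Hs₀ Om₂ v u a z'))
    (nf : ∀ p q, FarW P S row w D₀ δ₁ Hs₀ Om₂ u v p q z → FarW P S row w D₀ δ₁ Hs₀ Om₂ u v p q z' →
      ¬ TST.EqOn (RX S row p q) (Arw P S row w p q z) (Arw P S row w p q z'))
    (hT : ∀ t ∈ T, (t ∈ P.closure S ∧ t ∉ S) ∧
      ∀ c : ChW S row w, ∀ x ∈ LocR P S row c.1 t, RegW w D₁ Hs₁ x → x = u ∨ x = v) :
    PWitD (Er P S) (Lr P S row w u) (Lr P S row w v) (Arw P S row w u v) (RX S row u v) T z z' :=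
  h.rowD hβ hz hzcl hzS hz' hzcl' hzS' huv hu hv hsee hsee' (h.rung_x hz hzcl huv hu hv hsee hk)
    (h.rung_x hz' hzcl' huv hu hv hsee' hk')
    (h.rung_pr hβ hz hzcl hzS hz' hzcl' hzS' huv hu hv hsee hsee' hk hk' nu nv nf) hT

end rnd2

end

end DA
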