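import Pool.Agent.DA.OneP51
import Pool.Agent.DA.OnePl
import Pool.Agent.DA.Mix
import Pool.Agent.DA.RowRnd
import Pool.Agent.DA.StWit
import Pool.Agent.DA.RowX

/-!
# One-element extensions of the witnesses of a visible row (T-star, helper51)

`OneE`: `z` sees the visible row `u v` and no other visible row, is not local on the row in round 0, is
no degenerate tripod.  `Rnd.oneAB`: `z` has one place on the row, and
either `z` is local on the row in round 1 (then it may be added to the local elements of round 1),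
or `z` is clean in round 0: it has witnesses of one exit, witnesses with every rung, and at each end it
is local in the star or an exit of the star.
-/

set_option autoImplicit false

open Set BIC BICS
open scoped Matroid

namespace DA

open Gad TST

/-- **(ONE) elements** of the row `u v` -/
structure OneE {α : Type*} (P : Matroid α) (S : Set α) (row : α → Sym2 (ℕ × ℕ)) (w : ℕ)
    (D₀ δ₁ : ℕ) (Hs₀ Om₂ : Finset (ℕ × ℕ)) (u v : ℕ × ℕ) (z : α) : Prop where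
  cl : z ∈ P.closure S ∧ z ∉ S
  see : SeeP P S row z u v
  only : ∀ p q, wadj p q → VisR w δ₁ Om₂ p → VisR w δ₁ Om₂ q → SeeP P S row z p q →
    s(p, q) = s(u, v)
  ndu : ¬ ∀ c, YW P S row w D₀ Hs₀ z c \ {u, v} = nst wadj u \ {u, v}
  ndv : ¬ ∀ c, YW P S row w D₀ Hs₀ z c \ {u, v} = nst wadj v \ {u, v}
  nloc : ¬ ∀ c, YW P S row w D₀ Hs₀ z c ⊆ {u, v}

/-! ### Location systems -/

/-- an element which is local in the star of `u` sees only rows at `u` -/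
lemma LocS.star_rows51 {V Ch : Type*} {adj : V → V → Prop} {Reg Vis : V → Prop} {Y : Ch → Set V}
    {Sn : V → V → Prop} (h : LocS adj Reg Vis Y Sn) {u p q : V} (hu : Vis u)
    (hY : ∀ c, Y c ⊆ nst adj u) (hpq : adj p q) (hs : Sn p q) : p = u ∨ q = u := by
  obtain ⟨c₀⟩ := h.ne
  have key : ∀ p q, adj p q → Reg p → Sn p q → p = u ∨ q = u := by
    intro p q hpq hp hs
    obtain ⟨c, h2, _⟩ := h.tog p q hpq hp hs c₀
    rcases hY c h2 with h4 | h4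
    · exact Or.inl h4
    · exact h.star_other hY hpq hp (h.vis₂ u p q hu h4 hpq).2 hs
  rcases h.snreg p q hs with h1 | h1
  · exact key p q hpq h1 hs
  · exact (key q p (h.symm _ _ hpq) h1 (h.snsymm _ _ hs)).symm

/-- a far rung sees no other row at the ends of its rows -/
lemma LocS.far_rows51 {V Ch : Type*} {adj : V → V → Prop} {Reg Vis : V → Prop} {Y : Ch → Set V}
    {Sn : V → V → Prop} (h : LocS adj Reg Vis Y Sn) {u v p q p' q' : V} (huv : adj u v) (hu : Vis u)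
    (hv : Vis v) (hs : Sn u v) (hpq : adj p q) (hp : Vis p) (hq : Vis q) (hs' : Sn p q)
    (hpn : p ∉ ({u, v} : Set V)) (hqn : q ∉ ({u, v} : Set V)) (hpq' : adj p' q')
    (hs₁ : Sn p' q') : s(p', q') = s(u, v) ∨ s(p', q') = s(p, q) := by
  have key : ∀ a b, adj a b → Sn a b → a ∈ ({u, v} : Set V) → b ∉ ({u, v} : Set V) → False := by
    intro a b hab hsab ha hb
    have hb' : b ≠ u ∧ b ≠ v := by
      refine ⟨?_, ?_⟩
      · rintro rfl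
        exact hb (Or.inl rfl)
      · rintro rfl
        exact hb (Or.inr rfl)
    rcases ha with rfl | ha
    · exact h.far_quiet huv hu hv hs hpq (h.vis _ hp) hs' hpn hqn hab hb'.2 hsab
    · rw [mem_singleton_iff] at ha
      subst ha
      have e1 : ({u, a} : Set V) = {a, u} := pair_comm _ _
      exact h.far_quiet (h.symm _ _ huv) hv hu (h.snsymm _ _ hs) hpq (h.vis _ hp) hs' (e1 ▸ hpn)
        (e1 ▸ hqn) hab hb'.1 hsab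
  by_cases ha' : p' ∈ ({u, v} : Set V)
  · by_cases hb' : q' ∈ ({u, v} : Set V)
    · left
      have hne := h.adj_ne hpq'
      simp only [mem_insert_iff, mem_singleton_iff] at ha' hb'
      rcases ha' with rfl | rfl <;> rcases hb' with rfl | rfl
      · exact absurd rfl hne
      · rfl
      · exact Sym2.eq_swap
      · exact absurd rfl hne
    · exact (key p' q' hpq' hs₁ ha' hb').elim
  · by_cases hb' : q' ∈ ({u, v} : Set V)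
    · exact (key q' p' (h.symm _ _ hpq') (h.snsymm _ _ hs₁) hb' ha').elim
    · right
      rcases h.far_only huv hu hv hs hpq hp hq hs' hpn hqn hpq' ha' hb' hs₁ with
        ⟨rfl, rfl⟩ | ⟨rfl, rfl⟩
      · rfl
      · exact Sym2.eq_swap

section

variable {α : Type*} {P : Matroid α} {S : Set α} {row : α → Sym2 (ℕ × ℕ)} {w : ℕ} {Dd : Set α}
  {β D₀ δ₀ D₁ δ₁ : ℕ} {Hm Hs₀ Om₁ Hs₁ Om₂ : Finset (ℕ × ℕ)} {u v a : ℕ × ℕ}
  {V : Fin 3 → ℕ × ℕ} {z t : α} {T : Set α}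

lemma OneE.symm (h : OneE P S row w D₀ δ₁ Hs₀ Om₂ u v z) :
    OneE P S row w D₀ δ₁ Hs₀ Om₂ v u z := by
  have e1 : ({v, u} : Set (ℕ × ℕ)) = {u, v} := pair_comm _ _
  refine ⟨h.cl, seeP_symm h.see, fun p q h1 h2 h3 h4 => (h.only p q h1 h2 h3 h4).trans Sym2.eq_swap,
    ?_, ?_, ?_⟩
  · rw [e1]
    exact h.ndv
  · rw [e1]
    exact h.ndu
  · rw [e1]
    exact h.nloc

/-- the exit of the row -/
theorem Rnd.oneE_exit [P.Finite] (h : Rnd P S row w Dd β D₀ δ₀ D₁ δ₁ Hm Hs₀ Om₁ Hs₁ Om₂)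
    (hz : z ∈ Dd) (huv : wadj u v) (hu : VisR w δ₁ Om₂ u) (hv : VisR w δ₁ Om₂ v)
    (ho : OneE P S row w D₀ δ₁ Hs₀ Om₂ u v z) :
    ∃ (c : ChW S row w) (y : ℕ × ℕ), y ∉ ({u, v} : Set (ℕ × ℕ)) ∧ y ∈ YW P S row w D₀ Hs₀ z c ∧
      YW P S row w D₀ Hs₀ z c ⊆ {u, v, y} := by
  rcases (h.locT hz ho.cl.1).cls_row huv hu hv ((h.sn_iff ho.cl.1 (h.reg hu)).2 ho.see) with
    h1 | h1 | h1 | h1
  · exact absurd h1 ho.nloc
  · exact h1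
  · exact absurd h1 ho.ndu
  · exact absurd h1 ho.ndv

/-- quiet at one end -/
theorem Rnd.oneE_quiet [P.Finite] (h : Rnd P S row w Dd β D₀ δ₀ D₁ δ₁ Hm Hs₀ Om₁ Hs₁ Om₂)
    (hz : z ∈ Dd) (huv : wadj u v) (hu : VisR w δ₁ Om₂ u) (hv : VisR w δ₁ Om₂ v)
    (ho : OneE P S row w D₀ δ₁ Hs₀ Om₂ u v z) :
    Quiet P S row u v z ∨ Quiet P S row v u z := by
  have hT := (h.locT hz ho.cl.1).toLocS
  have hs := (h.sn_iff ho.cl.1 (h.reg hu)).2 ho.see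
  by_cases hb : ∃ b, wadj u b ∧ b ≠ v ∧ SnW P S row w D₀ Hs₀ z u b
  · obtain ⟨b, h1, h2, h3⟩ := hb
    right
    exact h.quiet_of_sn (h.reg hv) fun b' h4 h5 =>
      hT.near_quiet huv hu hv hs h1 h3 (Ne.symm h2) h4 h5
  · push Not at hb
    left
    exact h.quiet_of_sn (h.reg hu) hb

/-- one place -/
theorem Rnd.oneE_place [P.Finite] (h : Rnd P S row w Dd β D₀ δ₀ D₁ δ₁ Hm Hs₀ Om₁ Hs₁ Om₂)
    (hz : z ∈ Dd) (huv : wadj u v) (hu : VisR w δ₁ Om₂ u) (hv : VisR w δ₁ Om₂ v)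
    (ho : OneE P S row w D₀ δ₁ Hs₀ Om₂ u v z) :
    ∀ a ∈ RX S row u v, ∀ b ∈ RX S row u v,
      (Er P S z a b ↔ (a ∈ Arw P S row w u v z ↔ b ∈ Arw P S row w u v z)) := by
  obtain ⟨c, y, h1, h2, h3⟩ := h.oneE_exit hz huv hu hv ho
  exact (h.one_place hz ho.cl.1 huv hu hv ho.see h1 h2 h3 (h.oneE_quiet hz huv hu hv ho)).1

/-- local elements of round 0 are local in round 1 -/
lemma Rnd.tRow01 (h : Rnd P S row w Dd β D₀ δ₀ D₁ δ₁ Hm Hs₀ Om₁ Hs₁ Om₂) :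
    TRow P S row w D₀ Hs₀ u v ⊆ TRow P S row w D₁ Hs₁ u v := by
  intro t ht
  rw [mem_TRow₀] at ht
  rw [mem_TRow₁]
  exact ⟨ht.1, fun c x hx hr => ht.2 c ⟨hx, h.reg01 hr⟩⟩

/-- local on the row: local in the star -/
lemma tRow_tStar {D : ℕ} {Hs : Finset (ℕ × ℕ)} (huv : wadj u v)
    (ht : t ∈ TRow P S row w D Hs u v) :
    t ∈ TStar P S row w D Hs u ∧ t ∈ TStar P S row w D Hs v := by
  refine ⟨⟨ht.1, fun c x hx hr => ?_⟩, ht.1, fun c x hx hr => ?_⟩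
  · rcases ht.2 c.1 c.2.1 c.2.2 x hx hr.1 hr.2 with h1 | h1
    · exact Or.inl h1
    · exact Or.inr ((mem_singleton_iff.1 h1) ▸ huv)
  · rcases ht.2 c.1 c.2.1 c.2.2 x hx hr.1 hr.2 with h1 | h1
    · rw [h1]
      exact Or.inr (wadj_swap huv)
    · exact Or.inl h1

/-- local in the star, in the language of `YW` -/
lemma mem_tStar₀ : z ∈ TStar P S row w D₀ Hs₀ u ↔ (z ∈ P.closure S ∧ z ∉ S) ∧
    ∀ c, YW P S row w D₀ Hs₀ z c ⊆ nst wadj u :=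
  and_congr_right fun _ => ⟨fun h1 c x hx => h1 c x hx.1 hx.2, fun h1 c _ hx hr => h1 c ⟨hx, hr⟩⟩

/-- clean in round 0, or local in round 1 -/
theorem Rnd.oneE_foot [P.Finite] (h : Rnd P S row w Dd β D₀ δ₀ D₁ δ₁ Hm Hs₀ Om₁ Hs₁ Om₂)
    (hz : z ∈ Dd) (huv : wadj u v) (hu : VisR w δ₁ Om₂ u) (hv : VisR w δ₁ Om₂ v)
    (ho : OneE P S row w D₀ δ₁ Hs₀ Om₂ u v z) :
    (∀ c, ∀ x ∈ YW P S row w D₀ Hs₀ z c, OutW δ₀ w Om₁ x) ∨
      z ∈ TRow P S row w D₁ Hs₁ u v := by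
  rcases h.foot hz ho.cl.1 huv hu hv ((h.sn_iff ho.cl.1 (h.reg hu)).2 ho.see) with h1 | h1
  · exact Or.inl h1
  · exact Or.inr ((mem_TRow₁ u v).2 ⟨ho.cl, h1⟩)

/-- the star of an end -/
theorem Rnd.oneE_star [P.Finite] (h : Rnd P S row w Dd β D₀ δ₀ D₁ δ₁ Hm Hs₀ Om₁ Hs₁ Om₂)
    (hz : z ∈ Dd) (huv : wadj u v) (hu : VisR w δ₁ Om₂ u) (hv : VisR w δ₁ Om₂ v)
    (ho : OneE P S row w D₀ δ₁ Hs₀ Om₂ u v z)
    (hcl : ∀ c, ∀ x ∈ YW P S row w D₀ Hs₀ z c, OutW δ₀ w Om₁ x) :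
    z ∈ TStar P S row w D₀ Hs₀ u ∨ SEx0 P S row w D₀ δ₀ δ₁ Hs₀ Om₁ Om₂ u z := by
  have hs := (h.sn_iff ho.cl.1 (h.reg hu)).2 ho.see
  rcases (h.locT hz ho.cl.1).cls_star huv hu hv hs with h1 | h1 | h1
  · exact Or.inl (mem_tStar₀.2 ⟨ho.cl, h1⟩)
  · exact Or.inr ⟨ho.cl, hcl, v, huv, hv, hs, h1⟩
  · exact absurd h1 ho.ndv

/-- an exit of the star is not local in the star -/
theorem SEx0.notMem (hz : SEx0 P S row w D₀ δ₀ δ₁ Hs₀ Om₁ Om₂ u z) :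
    z ∉ TStar P S row w D₀ Hs₀ u := by
  intro hzT
  obtain ⟨-, -, v, -, -, -, c, y, hy, hyc, -⟩ := hz
  exact hy (hzT.2 c y hyc.1 hyc.2)

/-- an exit of the row is not local on the row -/
lemma OneE.notMem (ho : OneE P S row w D₀ δ₁ Hs₀ Om₂ u v z) :
    z ∉ TRow P S row w D₀ Hs₀ u v := fun h1 => ho.nloc ((mem_TRow₀ u v).1 h1).2

/-- **Witness of the star**, round 0 -/
theorem Rnd.sex0_twit [P.Finite] (h : Rnd P S row w Dd β D₀ δ₀ D₁ δ₁ Hm Hs₀ Om₁ Hs₁ Om₂)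
    (hβ : 4 ≤ β) (hu : VisR w δ₁ Om₂ u) (hnb : Nb3 u (V 0) (V 1) (V 2))
    (hT : T ⊆ TStar P S row w D₀ Hs₀ u) (hz : z ∈ Dd)
    (hze : SEx0 P S row w D₀ δ₀ δ₁ Hs₀ Om₁ Om₂ u z) :
    TWit (Er P S) (fun t i => Lr P S row w (V i) t) (ASt P S row w u V)
      (fun t x y v => t ∈ P.closure (S \ {x, y, v})) (SX S row u V) T z :=
  h.twit0 hβ hu hnb (fun t ht => ⟨(hT ht).1.1, (hT ht).1.2, (mem_tStar₀.1 (hT ht)).2⟩) hz
    (fun h1 => hze.notMem (hT h1)) hze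

/-- exits of the row from the locations -/
lemma ins_of_three {A : Set (ℕ × ℕ)} {y : ℕ × ℕ} (hA : A ⊆ {u, v, y}) : A ⊆ insert y {u, v} := by
  intro x hx
  rcases hA hx with h4 | h4 | h4
  · exact Or.inr (Or.inl h4)
  · exact Or.inr (Or.inr h4)
  · exact Or.inl h4

/-- **Witness of the row**, round 0, one exit -/
theorem Rnd.oneE_pwitB [P.Finite] (h : Rnd P S row w Dd β D₀ δ₀ D₁ δ₁ Hm Hs₀ Om₁ Hs₁ Om₂)
    (hβ : 4 ≤ β) (hz : z ∈ Dd) (huv : wadj u v) (hu : VisR w δ₁ Om₂ u) (hv : VisR w δ₁ Om₂ v)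
    (ho : OneE P S row w D₀ δ₁ Hs₀ Om₂ u v z)
    (hcl : ∀ c, ∀ x ∈ YW P S row w D₀ Hs₀ z c, OutW δ₀ w Om₁ x)
    (hT : T ⊆ TRow P S row w D₀ Hs₀ u v) :
    PWitB (Er P S) (Lr P S row w u) (Lr P S row w v) (Arw P S row w u v) (RX S row u v) T z := by
  obtain ⟨c, y, h1, h2, h3⟩ := h.oneE_exit hz huv hu hv ho
  exact h.pwitB₀ huv hu hv (fun t ht => (mem_TRow₀ u v).1 (hT ht))
    (h.exit0 hβ hz ho.cl.1 ho.cl.2 huv hu hv ((h.sn_iff ho.cl.1 (h.reg hu)).2 ho.see) hcl h1 h2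
      (ins_of_three h3)) (h.oneE_quiet hz huv hu hv ho) ho.see

/-- **Witness of the row**, round 0, two exits -/
theorem Rnd.pwitD_pr2 [P.Finite] (h : Rnd P S row w Dd β D₀ δ₀ D₁ δ₁ Hm Hs₀ Om₁ Hs₁ Om₂)
    (hβ : 4 ≤ β) (ht : t ∈ Dd) (htcl : t ∈ P.closure S ∧ t ∉ S) (hz : z ∈ Dd)
    (hzcl : z ∈ P.closure S ∧ z ∉ S) (huv : wadj u v) (hu : VisR w δ₁ Om₂ u)
    (hv : VisR w δ₁ Om₂ v) (ct : ∀ c, ∀ x ∈ YW P S row w D₀ Hs₀ t c, OutW δ₀ w Om₁ x)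
    (cz : ∀ c, ∀ x ∈ YW P S row w D₀ Hs₀ z c, OutW δ₀ w Om₁ x)
    (qt : Quiet P S row u v t ∨ Quiet P S row v u t)
    (qz : Quiet P S row u v z ∨ Quiet P S row v u z) (st : SeeP P S row t u v)
    (sz : SeeP P S row z u v) (hT : T ⊆ TRow P S row w D₀ Hs₀ u v)
    (hp : Pr2 wadj u v (YW P S row w D₀ Hs₀ t) (YW P S row w D₀ Hs₀ z)) :
    PWitD (Er P S) (Lr P S row w u) (Lr P S row w v) (Arw P S row w u v) (RX S row u v) T t z := by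
  obtain ⟨c, y, y', ⟨h1, h2, h3⟩, ⟨h4, h5, h6⟩, h7, h8, h9⟩ := hp
  exact h.pwitD₀ (c := c) huv hu hv (fun t ht => (mem_TRow₀ u v).1 (hT ht))
    (h.exit0 hβ ht htcl.1 htcl.2 huv hu hv ((h.sn_iff htcl.1 (h.reg hu)).2 st) ct h1 h2
      (ins_of_three h3))
    (h.exit0 hβ hz hzcl.1 hzcl.2 huv hu hv ((h.sn_iff hzcl.1 (h.reg hu)).2 sz) cz h4 h5
      (ins_of_three h6)) h7 h8 h9 qt qz st sz

/-- a far rung and a (ONE) element -/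
theorem Rnd.oneE_pr2_far [P.Finite] (h : Rnd P S row w Dd β D₀ δ₀ D₁ δ₁ Hm Hs₀ Om₁ Hs₁ Om₂)
    (hz : z ∈ Dd) (ht : t ∈ Dd) (htcl : t ∈ P.closure S ∧ t ∉ S) (huv : wadj u v)
    (hu : VisR w δ₁ Om₂ u) (hv : VisR w δ₁ Om₂ v) (ho : OneE P S row w D₀ δ₁ Hs₀ Om₂ u v z)
    (hf : FarAt P S row w δ₁ Om₂ u v t) :
    (∀ c, ∀ x ∈ YW P S row w D₀ Hs₀ t c, OutW δ₀ w Om₁ x) ∧ Quiet P S row u v t ∧
      Pr2 wadj u v (YW P S row w D₀ Hs₀ t) (YW P S row w D₀ Hs₀ z) := by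
  obtain ⟨-, -, hst, p, q, hpq, hp, hq, hspq, hpn, hqn⟩ := hf
  have hT := h.locT ht htcl.1
  have st := (h.sn_iff htcl.1 (h.reg hu)).2 hst
  have st' := (h.sn_iff htcl.1 (h.reg hp)).2 hspq
  refine ⟨?_, ?_, ?_⟩
  · intro c x hx
    have h1 := hT.supp_far huv hu hv st hpq st' hpn hqn c hx
    simp only [mem_insert_iff, mem_singleton_iff] at h1
    rcases h1 with rfl | rfl | rfl | rfl
    exacts [(h.self hu).2.1, (h.self hv).2.1, (h.self hp).2.1, (h.self hq).2.1]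
  · exact h.quiet_of_sn (h.reg hu) fun b h1 h2 =>
      hT.far_quiet huv hu hv st hpq (h.reg hp) st' hpn hqn h1 h2
  obtain ⟨c, y, h1, h2, h3⟩ := h.oneE_exit hz huv hu hv ho
  obtain ⟨c₁, -, k1⟩ := hT.togR p q hpq (h.reg hp) st' c
  obtain ⟨c₂, -, k2⟩ := hT.togR q p (wadj_swap hpq) (h.reg hq) (hT.snsymm _ _ st') c
  refine pr2_far_ex h.wal.sub h.wal.mem (fun v hv => h.vc v hv.1 hv.2) ?_
    (sdiff_eq_single hpn k1 (hT.far_exit huv hu hv st hpq st' hpn hqn k1))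
    (sdiff_eq_single hqn k2 (hT.far_exit huv hu hv st (wadj_swap hpq) (hT.snsymm _ _ st') hqn hpn k2))
    (sdiff_eq_single h1 h2 h3) (hT.adj_ne hpq) (hT.far_end huv hpq hpn hqn)
  intro p' q' h4 h5 h6
  rcases hT.far_rows51 huv hu hv st hpq hp hq st' hpn hqn h4 h5 with h7 | h7
  · exact h7
  · exfalso
    have h8 : SnW P S row w D₀ Hs₀ z p q := by
      rw [← snA_iff, ← h7, snA_iff]
      exact h6
    have h9 := ho.only p q hpq hp hq ((h.sn_iff ho.cl.1 (h.reg hp)).1 h8)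
    have h10 : p ∈ s(u, v) := by
      rw [← h9]
      exact Sym2.mem_mk_left _ _
    exact hpn (Sym2.mem_iff.1 h10)

/-- a near rung at `u` and a (ONE) element which is not local at `u` -/
theorem Rnd.oneE_pr2_near [P.Finite] (h : Rnd P S row w Dd β D₀ δ₀ D₁ δ₁ Hm Hs₀ Om₁ Hs₁ Om₂)
    (hz : z ∈ Dd) (ht : t ∈ Dd) (htcl : t ∈ P.closure S ∧ t ∉ S) (huv : wadj u v)
    (hu : VisR w δ₁ Om₂ u) (hv : VisR w δ₁ Om₂ v) (ho : OneE P S row w D₀ δ₁ Hs₀ Om₂ u v z)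
    (hn : NearAt P S row w δ₁ Om₂ v u t) (hns : z ∉ TStar P S row w D₀ Hs₀ u) :
    (∀ c, ∀ x ∈ YW P S row w D₀ Hs₀ t c, OutW δ₀ w Om₁ x) ∧ Quiet P S row v u t ∧
      Pr2 wadj u v (YW P S row w D₀ Hs₀ t) (YW P S row w D₀ Hs₀ z) := by
  obtain ⟨-, -, hst', a, hua, hav, hsa⟩ := hn
  have hst := seeP_symm hst'
  have hT := h.locT ht htcl.1
  have hZ := h.locT hz ho.cl.1
  have st := (h.sn_iff htcl.1 (h.reg hu)).2 hst
  have sa := (h.sn_iff htcl.1 (h.reg hu)).2 hsa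
  have sz := (h.sn_iff ho.cl.1 (h.reg hu)).2 ho.see
  obtain ⟨hsub, hcl₁⟩ := h.near_sub ht htcl huv hv hu st hua sa (Ne.symm hav)
  have hnd := h.near_not_dt htcl hu huv hua hav hsa
  refine ⟨fun c x hx => h.clean01 (hcl₁ c x hx), ?_, ?_⟩
  · exact h.quiet_of_sn (h.reg hv) fun b h1 h2 =>
      hT.near_quiet huv hu hv st hua sa (Ne.symm hav) h1 h2
  obtain ⟨c, y, h1, h2, h3⟩ := (hT.exit_of_near huv hu hv st hua sa (Ne.symm hav)).resolve_right hnd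
  -- the exit of the star for `z`
  have hex : ∃ (c : ChW S row w) (y : ℕ × ℕ), y ∉ nst wadj u ∧ y ∈ YW P S row w D₀ Hs₀ z c ∧
      YW P S row w D₀ Hs₀ z c ⊆ insert y (nst wadj u) := by
    rcases hZ.cls_star huv hu hv sz with h4 | h4 | h4
    · exact absurd (mem_tStar₀.2 ⟨ho.cl, h4⟩) hns
    · exact h4
    · exact absurd h4 ho.ndv
  obtain ⟨c', y', k1, k2, k3⟩ := hex
  have hyuv : y' ∉ ({u, v} : Set (ℕ × ℕ)) := by
    rintro (h4 | h4)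
    · exact k1 (Or.inl h4)
    · exact k1 (Or.inr ((mem_singleton_iff.1 h4) ▸ huv))
  have k4 := hZ.exit_row huv hu sz k1 k2 k3 (by
    intro b hb
    have h4 := (h.w1.reg hu (x := b) (by have := (wadj_sd hb).1; omega)).2.2
    refine wadj_third ?_
    unfold DeepR at h4
    simp only at h4
    omega)
  have hyu : wadj u y := (hsub c h2).resolve_left fun h4 => h1 (Or.inl h4)
  refine pr2_of_ex h.wal.sub h.wal.mem (fun v hv => h.vc v hv.1 hv.2) ?_ (sdiff_eq_single h1 h2 h3)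
    (sdiff_eq_single hyuv k2 k4) ?_ ?_ ?_
  · intro p q h4 h5 h6
    have key : ∀ q, wadj u q → SnW P S row w D₀ Hs₀ z u q → s(u, q) = s(u, v) := by
      intro q h7 h8
      by_cases h9 : q = v
      · rw [h9]
      · exact absurd (hZ.near_of_two huv hu hv sz h7 h8 (Ne.symm h9) c' k2) k1
    rcases hT.star_rows51 hu hsub h4 h5 with h7 | h7
    · rw [h7] at h4 h6 ⊢
      exact key q h4 h6
    · rw [h7] at h4 h6 ⊢
      rw [Sym2.eq_swap]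
      exact key p (wadj_swap h4) (hZ.snsymm _ _ h6)
  · rintro rfl
    exact k1 (Or.inr hyu)
  · exact fun h4 => k1 (Or.inr h4.2)
  · exact fun h4 => hZ.tri u v y huv h4.1 hyu

/-- **(ONE) against a far rung.** -/
theorem Rnd.oneE_far [P.Finite] (h : Rnd P S row w Dd β D₀ δ₀ D₁ δ₁ Hm Hs₀ Om₁ Hs₁ Om₂)
    (hβ : 4 ≤ β) (hz : z ∈ Dd) (ht : t ∈ Dd) (htcl : t ∈ P.closure S ∧ t ∉ S) (huv : wadj u v)
    (hu : VisR w δ₁ Om₂ u) (hv : VisR w δ₁ Om₂ v) (ho : OneE P S row w D₀ δ₁ Hs₀ Om₂ u v z)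
    (hcl : ∀ c, ∀ x ∈ YW P S row w D₀ Hs₀ z c, OutW δ₀ w Om₁ x)
    (hT : T ⊆ TRow P S row w D₀ Hs₀ u v) (hf : FarAt P S row w δ₁ Om₂ u v t) :
    PWitD (Er P S) (Lr P S row w u) (Lr P S row w v) (Arw P S row w u v) (RX S row u v) T t z := by
  obtain ⟨h1, h2, h3⟩ := h.oneE_pr2_far hz ht htcl huv hu hv ho hf
  exact h.pwitD_pr2 hβ ht htcl hz ho.cl huv hu hv h1 hcl (Or.inl h2) (h.oneE_quiet hz huv hu hv ho)
    hf.2.2.1 ho.see hT h3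

/-- **(ONE) against a near rung at `u`.** -/
theorem Rnd.oneE_near_u [P.Finite] (h : Rnd P S row w Dd β D₀ δ₀ D₁ δ₁ Hm Hs₀ Om₁ Hs₁ Om₂)
    (hβ : 4 ≤ β) (hz : z ∈ Dd) (ht : t ∈ Dd) (htcl : t ∈ P.closure S ∧ t ∉ S) (huv : wadj u v)
    (hu : VisR w δ₁ Om₂ u) (hv : VisR w δ₁ Om₂ v) (ho : OneE P S row w D₀ δ₁ Hs₀ Om₂ u v z)
    (hcl : ∀ c, ∀ x ∈ YW P S row w D₀ Hs₀ z c, OutW δ₀ w Om₁ x)
    (hT : T ⊆ TRow P S row w D₀ Hs₀ u v) (hn : NearAt P S row w δ₁ Om₂ v u t)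
    (hns : z ∉ TStar P S row w D₀ Hs₀ u) :
    PWitD (Er P S) (Lr P S row w u) (Lr P S row w v) (Arw P S row w u v) (RX S row u v) T t z := by
  obtain ⟨h1, h2, h3⟩ := h.oneE_pr2_near hz ht htcl huv hu hv ho hn hns
  exact h.pwitD_pr2 hβ ht htcl hz ho.cl huv hu hv h1 hcl (Or.inr h2) (h.oneE_quiet hz huv hu hv ho)
    (seeP_symm hn.2.2.1) ho.see hT h3

/-- **(ONE) against a near rung at `v`.** -/
theorem Rnd.oneE_near_v [P.Finite] (h : Rnd P S row w Dd β D₀ δ₀ D₁ δ₁ Hm Hs₀ Om₁ Hs₁ Om₂)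
    (hβ : 4 ≤ β) (hz : z ∈ Dd) (ht : t ∈ Dd) (htcl : t ∈ P.closure S ∧ t ∉ S) (huv : wadj u v)
    (hu : VisR w δ₁ Om₂ u) (hv : VisR w δ₁ Om₂ v) (ho : OneE P S row w D₀ δ₁ Hs₀ Om₂ u v z)
    (hcl : ∀ c, ∀ x ∈ YW P S row w D₀ Hs₀ z c, OutW δ₀ w Om₁ x)
    (hT : T ⊆ TRow P S row w D₀ Hs₀ u v) (hn : NearAt P S row w δ₁ Om₂ u v t)
    (hns : z ∉ TStar P S row w D₀ Hs₀ v) :
    PWitD (Er P S) (Lr P S row w u) (Lr P S row w v) (Arw P S row w u v) (RX S row u v) T t z := by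
  obtain ⟨h1, h2, h3⟩ := h.oneE_pr2_near hz ht htcl (wadj_swap huv) hv hu ho.symm hn hns
  exact h.pwitD_pr2 hβ ht htcl hz ho.cl huv hu hv h1 hcl (Or.inl h2) (h.oneE_quiet hz huv hu hv ho)
    hn.2.2.1 ho.see hT h3.flip

/-- **One-element extensions.** -/
theorem Rnd.oneAB [P.Finite] (h : Rnd P S row w Dd β D₀ δ₀ D₁ δ₁ Hm Hs₀ Om₁ Hs₁ Om₂)
    (hβ : 4 ≤ β) (hz : z ∈ Dd) (huv : wadj u v) (hu : VisR w δ₁ Om₂ u) (hv : VisR w δ₁ Om₂ v)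
    (ho : OneE P S row w D₀ δ₁ Hs₀ Om₂ u v z) :
    (∀ a ∈ RX S row u v, ∀ b ∈ RX S row u v,
      (Er P S z a b ↔ (a ∈ Arw P S row w u v z ↔ b ∈ Arw P S row w u v z))) ∧
    ((z ∈ TRow P S row w D₁ Hs₁ u v ∧ z ∈ TStar P S row w D₁ Hs₁ u ∧
        z ∈ TStar P S row w D₁ Hs₁ v) ∨
      ((∀ T ⊆ TRow P S row w D₀ Hs₀ u v,
        PWitB (Er P S) (Lr P S row w u) (Lr P S row w v) (Arw P S row w u v) (RX S row u v) T z ∧
        ∀ t ∈ Dd, t ∈ P.closure S ∧ t ∉ S → (FarAt P S row w δ₁ Om₂ u v t ∨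
          (NearAt P S row w δ₁ Om₂ v u t ∧ z ∉ TStar P S row w D₀ Hs₀ u) ∨
          (NearAt P S row w δ₁ Om₂ u v t ∧ z ∉ TStar P S row w D₀ Hs₀ v)) →
          PWitD (Er P S) (Lr P S row w u) (Lr P S row w v) (Arw P S row w u v) (RX S row u v) T
            t z) ∧
      (z ∈ TStar P S row w D₀ Hs₀ u ∨ SEx0 P S row w D₀ δ₀ δ₁ Hs₀ Om₁ Om₂ u z) ∧
      (z ∈ TStar P S row w D₀ Hs₀ v ∨ SEx0 P S row w D₀ δ₀ δ₁ Hs₀ Om₁ Om₂ v z))) := by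
  refine ⟨h.oneE_place hz huv hu hv ho, ?_⟩
  rcases h.oneE_foot hz huv hu hv ho with hcl | h1
  · right
    refine ⟨fun T hT => ⟨h.oneE_pwitB hβ hz huv hu hv ho hcl hT, fun t ht htcl h2 => ?_⟩,
      h.oneE_star hz huv hu hv ho hcl, h.oneE_star hz (wadj_swap huv) hv hu ho.symm hcl⟩
    rcases h2 with h2 | ⟨h2, h3⟩ | ⟨h2, h3⟩
    · exact h.oneE_far hβ hz ht htcl huv hu hv ho hcl hT h2
    · exact h.oneE_near_u hβ hz ht htcl huv hu hv ho hcl hT h2 h3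
    · exact h.oneE_near_v hβ hz ht htcl huv hu hv ho hcl hT h2 h3
  · exact Or.inl ⟨h1, tRow_tStar huv h1⟩

/-! ### In the language of `RungK` -/

/-- far rungs -/
lemma Rnd.farAt_of_farW [P.Finite] (h : Rnd P S row w Dd β D₀ δ₀ D₁ δ₁ Hm Hs₀ Om₁ Hs₁ Om₂)
    {p q : ℕ × ℕ} (htcl : t ∈ P.closure S) (huv : wadj u v) (hv : VisR w δ₁ Om₂ v)
    (hs : SeeP P S row t u v) (hf : FarW P S row w D₀ δ₁ Hs₀ Om₂ u v p q t) :
    FarAt P S row w δ₁ Om₂ u v t :=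
  ⟨huv, hv, hs, p, q, hf.adj, hf.vp, hf.vq, (h.sn_iff htcl (h.reg hf.vp)).1 hf.sn, hf.pn, hf.qn⟩

/-- near rungs at `u` -/
lemma Rnd.nearAt_of_nearW [P.Finite] (h : Rnd P S row w Dd β D₀ δ₀ D₁ δ₁ Hm Hs₀ Om₁ Hs₁ Om₂)
    (htcl : t ∈ P.closure S) (huv : wadj u v) (hu : VisR w δ₁ Om₂ u)
    (hs : SeeP P S row t u v) (hf : NearW P S row w D₀ δ₁ Hs₀ Om₂ u v a t) :
    NearAt P S row w δ₁ Om₂ v u t :=
  ⟨wadj_swap huv, hu, seeP_symm hs, a, hf.adj, fun h1 => hf.ne h1.symm,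
    (h.sn_iff htcl (h.reg hu)).1 hf.sn⟩

lemma Rnd.nearW_of_nearAt [P.Finite] (h : Rnd P S row w Dd β D₀ δ₀ D₁ δ₁ Hm Hs₀ Om₁ Hs₁ Om₂)
    (htcl : t ∈ P.closure S ∧ t ∉ S) (hu : VisR w δ₁ Om₂ u) (huv : wadj u v)
    (hua : wadj u a) (hav : a ≠ v) (ha : VisR w δ₁ Om₂ a) (hs : SeeP P S row t u a) :
    NearW P S row w D₀ δ₁ Hs₀ Om₂ u v a t :=
  ⟨hua, fun h1 => hav h1.symm, ha, (h.sn_iff htcl.1 (h.reg hu)).2 hs,
    h.near_not_dt htcl hu huv hua hav hs⟩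

/-- **(ONE) against a rung.** -/
theorem Rnd.oneE_rungD [P.Finite] (h : Rnd P S row w Dd β D₀ δ₀ D₁ δ₁ Hm Hs₀ Om₁ Hs₁ Om₂)
    (hβ : 4 ≤ β) (hz : z ∈ Dd) (ht : t ∈ Dd) (htcl : t ∈ P.closure S ∧ t ∉ S) (huv : wadj u v)
    (hu : VisR w δ₁ Om₂ u) (hv : VisR w δ₁ Om₂ v) (ho : OneE P S row w D₀ δ₁ Hs₀ Om₂ u v z)
    (hcl : ∀ c, ∀ x ∈ YW P S row w D₀ Hs₀ z c, OutW δ₀ w Om₁ x)
    (hT : T ⊆ TRow P S row w D₀ Hs₀ u v) (hs : SeeP P S row t u v)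
    (hk : RungK P S row w D₀ δ₁ Hs₀ Om₂ u v t)
    (nu : (∃ a, NearW P S row w D₀ δ₁ Hs₀ Om₂ u v a t) → z ∉ TStar P S row w D₀ Hs₀ u)
    (nv : (∃ a, NearW P S row w D₀ δ₁ Hs₀ Om₂ v u a t) → z ∉ TStar P S row w D₀ Hs₀ v) :
    PWitD (Er P S) (Lr P S row w u) (Lr P S row w v) (Arw P S row w u v) (RX S row u v) T t z := by
  rcases hk with ⟨p, q, hf⟩ | ⟨a, hf⟩ | ⟨a, hf⟩
  · exact h.oneE_far hβ hz ht htcl huv hu hv ho hcl hT (h.farAt_of_farW htcl.1 huv hv hs hf)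
  · exact h.oneE_near_u hβ hz ht htcl huv hu hv ho hcl hT (h.nearAt_of_nearW htcl.1 huv hu hs hf)
      (nu ⟨a, hf⟩)
  · exact h.oneE_near_v hβ hz ht htcl huv hu hv ho hcl hT
      (h.nearAt_of_nearW htcl.1 (wadj_swap huv) hv (seeP_symm hs) hf) (nv ⟨a, hf⟩)

/-- a (ONE) element which is local in round 1 may be added to the local elements -/
lemma Rnd.insert_tRow (h : Rnd P S row w Dd β D₀ δ₀ D₁ δ₁ Hm Hs₀ Om₁ Hs₁ Om₂)
    (hT : T ⊆ TRow P S row w D₀ Hs₀ u v) (hz : z ∈ TRow P S row w D₁ Hs₁ u v) :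
    ∀ t ∈ insert z T, (t ∈ P.closure S ∧ t ∉ S) ∧
      ∀ c : ChW S row w, ∀ x ∈ LocR P S row c.1 t, RegW w D₁ Hs₁ x → x = u ∨ x = v := by
  rintro t (rfl | ht)
  · exact (mem_TRow₁ u v).1 hz
  · exact (mem_TRow₁ u v).1 (h.tRow01 (hT ht))

/-- the same for the stars -/
lemma Rnd.insert_tStar (h : Rnd P S row w Dd β D₀ δ₀ D₁ δ₁ Hm Hs₀ Om₁ Hs₁ Om₂)
    (hT : T ⊆ TStar P S row w D₀ Hs₀ u) (hz : z ∈ TStar P S row w D₁ Hs₁ u) :
    insert z T ⊆ TStar P S row w D₁ Hs₁ u := by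
  rintro t (rfl | ht)
  · exact hz
  · exact h.tStar01 (hT ht)

end

end DA
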