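import Pool.Agent.DA.TwoOf
import Pool.Agent.DA.Geo2

/-!
# Own vertices in `M` and in `P = M ／ F` (row R8)

`S` = all rows of the wall of `M`, `S'` = the rows inside of the box `[a, a + w']²` without the
windows `Wd`, `F` is contracted, `Y` is skew to `S'`, `Dr` = one element of every row which leaves
the region.  `OTr.own_iff`: an own vertex in `P` is an own vertex (location) in `M`.
`OTr.twoH`: the data `TwoH` in `P` for an element with two own vertices in `M`.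
-/

open Set BIC BICS
open scoped Matroid

namespace DA

open Gad

universe u

/-- the shift of the box -/
def shp (a : ℕ) (v : ℕ × ℕ) : ℕ × ℕ := (v.1 - a, v.2 - a)

/-- the vertices of the box `[a, a + w']²` outside of the windows, in the coordinates of `M` -/
def Rg (a w' : ℕ) (Wd : Set (ℕ × ℕ)) : Set (ℕ × ℕ) :=
  {v | a ≤ v.1 ∧ a ≤ v.2 ∧ shp a v ∈ rect 0 0 (w' + 1) (w' + 1) \ Wd}

/-- the elements of `M`: `S = S' ∪ Y ∪ F ∪ Dr` -/
structure OTr {α : Type*} (M : Matroid α) (S S' Y F Dr : Set α) (row : α → Sym2 (ℕ × ℕ))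
    (w a w' : ℕ) (Wd : Set (ℕ × ℕ)) : Prop where
  SE : S ⊆ M.E
  rep : ∃ c₀, c₀ ⊆ S ∧ WallE c₀ row w ∅
  mem : ∀ e ∈ S, ∃ p q, row e = s(p, q) ∧ wadj p q ∧ p ∈ rect 0 0 (w + 1) (w + 1) ∧
    q ∈ rect 0 0 (w + 1) (w + 1)
  aw : a + w' ≤ w
  eq : S = S' ∪ Y ∪ F ∪ Dr
  dF : Disjoint F (S' ∪ Y ∪ Dr)
  dY : Disjoint Y (S' ∪ Dr)
  /-- `S'` = all elements inside of the region -/
  ins : ∀ e ∈ S, (e ∈ S' ↔ ∀ v ∈ row e, v ∈ Rg a w' Wd)
  /-- `Dr` has at most one element of every row -/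
  inj : InjOn row Dr
  /-- the rows which leave the region have an element of `Dr` -/
  leav : ∀ e ∈ S, e ∉ S' → (∃ v ∈ row e, v ∈ Rg a w' Wd) → ∃ x ∈ Dr, row x = row e

section geo

variable {a w' : ℕ} {Wd : Set (ℕ × ℕ)} {u v p q : ℕ × ℕ}

lemma shp_inj (hu : a ≤ u.1 ∧ a ≤ u.2) (hv : a ≤ v.1 ∧ a ≤ v.2) (h : shp a u = shp a v) :
    u = v := by
  unfold shp at h
  rw [Prod.mk.injEq] at h
  ext <;> omega

lemma shp_add (p : ℕ × ℕ) : shp a (p.1 + a, p.2 + a) = p := by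
  unfold shp
  ext <;> simp

lemma shp_wadj (hu : a ≤ u.1 ∧ a ≤ u.2) (hv : a ≤ v.1 ∧ a ≤ v.2) :
    wadj (shp a u) (shp a v) ↔ wadj u v := by
  unfold shp wadj
  dsimp only
  omega

lemma shp_mem {s : Sym2 (ℕ × ℕ)} (hs : ∀ u ∈ s, a ≤ u.1 ∧ a ≤ u.2) (hv : a ≤ v.1 ∧ a ≤ v.2) :
    shp a v ∈ s.map (shp a) ↔ v ∈ s := by
  rw [Sym2.mem_map]
  constructor
  · rintro ⟨u, hu, huv⟩
    rw [← shp_inj (hs u hu) hv huv]
    exact hu
  · exact fun h => ⟨v, h, rfl⟩

lemma shp_map {s t : Sym2 (ℕ × ℕ)} (hs : ∀ u ∈ s, a ≤ u.1 ∧ a ≤ u.2)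
    (ht : ∀ u ∈ t, a ≤ u.1 ∧ a ≤ u.2) (h : s.map (shp a) = t.map (shp a)) : s = t := by
  induction s using Sym2.ind with
  | _ p q =>
    induction t using Sym2.ind with
    | _ p' q' =>
      have h1 := hs p (Sym2.mem_mk_left _ _)
      have h2 := hs q (Sym2.mem_mk_right _ _)
      have h3 := ht p' (Sym2.mem_mk_left _ _)
      have h4 := ht q' (Sym2.mem_mk_right _ _)
      rw [Sym2.map_mk, Sym2.map_mk, Sym2.eq_iff] at h
      rw [Sym2.eq_iff]
      rcases h with ⟨g1, g2⟩ | ⟨g1, g2⟩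
      · exact Or.inl ⟨shp_inj h1 h3 g1, shp_inj h2 h4 g2⟩
      · exact Or.inr ⟨shp_inj h1 h4 g1, shp_inj h2 h3 g2⟩

lemma Rg.le (h : v ∈ Rg a w' Wd) : a ≤ v.1 ∧ a ≤ v.2 := ⟨h.1, h.2.1⟩

lemma mem_Rg_of (hp : p ∈ rect 0 0 (w' + 1) (w' + 1) \ Wd) : (p.1 + a, p.2 + a) ∈ Rg a w' Wd :=
  ⟨Nat.le_add_left _ _, Nat.le_add_left _ _, by rw [shp_add]; exact hp⟩

lemma Rg.rect {w : ℕ} (h : v ∈ Rg a w' Wd) (haw : a + w' ≤ w) : v ∈ rect 0 0 (w + 1) (w + 1) := by
  obtain ⟨h1, h2, h3, _⟩ := h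
  unfold shp at h3
  rw [Gad.mem_rct] at h3 ⊢
  dsimp only at h3
  omega

end geo

/-- without one star the rank goes down by at most one -/
theorem RHol.drop {α : Type*} {P : Matroid α} [P.Finite] {S : Set α} {row : α → Sym2 (ℕ × ℕ)}
    {w : ℕ} {Wd : Set (ℕ × ℕ)} {c : Set α} (h : RHol P S row w Wd) (hc : c ⊆ S)
    (hW : WallH c row w Wd) {p : ℕ × ℕ} (hp : p ∈ rect 0 0 (w + 1) (w + 1) \ Wd) {F : Set α}
    (hF : FullB c row ((rect 0 0 (w + 1) (w + 1) \ Wd) \ {p}) F) :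
    rk P S ≤ rk P (S \ {e | e ∈ c ∧ p ∈ row e}) + 1 := by
  classical
  have hf : (P ／ (S \ c)).Finite := BQ.fin_contract _
  have hB := h.bic c hc hW
  obtain ⟨A, hA⟩ : ∃ A, A = rect 0 0 (w + 1) (w + 1) \ Wd := ⟨_, rfl⟩
  rw [← hA] at hp hF
  have hAf : A.Finite := by rw [hA]; exact (Gad.rect_finite _ _ _ _).subset sdiff_subset
  have hcA : ins c row A = c := by
    ext e
    refine ⟨fun he => he.1, fun he => ⟨he, fun v hv => ?_⟩⟩
    obtain ⟨x, y, h1, _, h2, h3⟩ := hW.mem e he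
    rw [h1] at hv
    rw [hA]
    rcases Sym2.mem_iff.1 hv with rfl | rfl
    · exact h2
    · exact h3
  have h1 : rk (P ／ (S \ c)) c ≤ A.ncard := by
    have := hB.rk A
    rw [hcA, ← cast_rk, ← hAf.cast_ncard_eq] at this
    exact_mod_cast this
  have h2 := rk_of_full hB (hAf.subset sdiff_subset) hF
  rw [Set.ncard_sdiff_singleton_of_mem hp] at h2
  have h3 : 0 < A.ncard := (Set.ncard_pos hAf).2 ⟨p, hp⟩
  have hSc : S \ c ⊆ P.E := sdiff_subset.trans h.sub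
  have hins : ins c row (A \ {p}) ⊆ c := fun e he => he.1
  have h4 := BQ.rk_con (M := P) (C := S \ c) (X := c) hSc
    (fun e he => ⟨h.sub (hc he), fun h6 => h6.2 he⟩)
  have h5 := BQ.rk_con (M := P) (C := S \ c) (X := ins c row (A \ {p})) hSc
    (fun e he => ⟨h.sub (hc (hins he)), fun h6 => h6.2 (hins he)⟩)
  have h6 : rk P S ≤ rk P (c ∪ S \ c) := by
    refine rk_mono P fun e he => ?_
    by_cases hec : e ∈ c
    · exact Or.inl hec
    · exact Or.inr ⟨he, hec⟩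
  have h7 : rk P (ins c row (A \ {p}) ∪ S \ c) ≤ rk P (S \ {e | e ∈ c ∧ p ∈ row e}) := by
    refine rk_mono P ?_
    rintro e (he | he)
    · exact ⟨hc (hins he), fun h8 => (he.2 p h8.2).2 rfl⟩
    · exact ⟨he.1, fun h8 => he.2 h8.1⟩
  omega

/-- a vertex of a connected wall has a neighbour -/
theorem WallH.nbr {α : Type*} {row : α → Sym2 (ℕ × ℕ)} {w : ℕ} {Wd : Set (ℕ × ℕ)} {c : Set α}
    (hW : WallH c row w Wd) (hV : VConn c row (rect 0 0 (w + 1) (w + 1) \ Wd)) {p q : ℕ × ℕ}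
    (hp : p ∈ rect 0 0 (w + 1) (w + 1) \ Wd) (hq : q ∈ rect 0 0 (w + 1) (w + 1) \ Wd)
    (hpq : q ≠ p) : ∃ x ∈ rect 0 0 (w + 1) (w + 1) \ Wd, wadj p x := by
  rcases Relation.ReflTransGen.cases_head (hV p hp q hq) with h1 | ⟨x, ⟨⟨e, he, hee⟩, _, hx⟩, _⟩
  · exact absurd h1.symm hpq
  · refine ⟨x, hx, ?_⟩
    obtain ⟨y, y', h2, h3, _, _⟩ := hW.mem e he
    rw [hee, Sym2.eq_iff] at h2
    rcases h2 with ⟨rfl, rfl⟩ | ⟨rfl, rfl⟩
    · exact h3
    · exact wadj_symm h3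

section

variable {α : Type u} {M : Matroid α} {S S' Y F Dr : Set α} {row : α → Sym2 (ℕ × ℕ)}
  {w a w' : ℕ} {Wd : Set (ℕ × ℕ)} {c : Set α} {v : ℕ × ℕ} {z : α}

lemma OTr.sub' (h : OTr M S S' Y F Dr row w a w' Wd) : S' ⊆ S := by
  intro e he
  rw [h.eq]
  exact Or.inl (Or.inl (Or.inl he))

lemma OTr.subY (h : OTr M S S' Y F Dr row w a w' Wd) : Y ⊆ S := by
  intro e he
  rw [h.eq]
  exact Or.inl (Or.inl (Or.inr he))

lemma OTr.subF (h : OTr M S S' Y F Dr row w a w' Wd) : F ⊆ S := by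
  intro e he
  rw [h.eq]
  exact Or.inl (Or.inr he)

lemma OTr.subD (h : OTr M S S' Y F Dr row w a w' Wd) : Dr ⊆ S := by
  intro e he
  rw [h.eq]
  exact Or.inr he

lemma OTr.le' (h : OTr M S S' Y F Dr row w a w' Wd) {e : α} (he : e ∈ S') :
    ∀ u ∈ row e, a ≤ u.1 ∧ a ≤ u.2 := fun u hu => Rg.le ((h.ins e (h.sub' he)).1 he u hu)

lemma OTr.star_eq (h : OTr M S S' Y F Dr row w a w' Wd) (hv : a ≤ v.1 ∧ a ≤ v.2) (c : Set α) :
    {e | e ∈ c ∩ S' ∧ shp a v ∈ (row e).map (shp a)} = {e | e ∈ c ∩ S' ∧ v ∈ row e} := by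
  ext e
  constructor
  · rintro ⟨h1, h2⟩
    exact ⟨h1, (shp_mem (h.le' h1.2) hv).1 h2⟩
  · rintro ⟨h1, h2⟩
    exact ⟨h1, (shp_mem (h.le' h1.2) hv).2 h2⟩

/-- **(T2')** the trace of representatives -/
theorem OTr.trace (h : OTr M S S' Y F Dr row w a w' Wd) (hc : c ⊆ S) (hW : WallE c row w ∅) :
    WallH (c ∩ S') (fun e => (row e).map (shp a)) w' Wd := by
  refine ⟨?_, ?_, ?_⟩
  · intro e he e' he' hee
    exact hW.inj he.1 he'.1 (shp_map (h.le' he.2) (h.le' he'.2) hee)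
  · intro e he
    obtain ⟨p, q, h1, h2, _, _⟩ := h.mem e (hc he.1)
    have h3 := (h.ins e (hc he.1)).1 he.2
    have hp := h3 p (by rw [h1]; exact Sym2.mem_mk_left _ _)
    have hq := h3 q (by rw [h1]; exact Sym2.mem_mk_right _ _)
    refine ⟨shp a p, shp a q, ?_, (shp_wadj (Rg.le hp) (Rg.le hq)).2 h2, hp.2.2, hq.2.2⟩
    rw [h1, Sym2.map_mk]
  · intro p q hpq hp hq
    have h1 := mem_Rg_of (a := a) hp
    have h2 := mem_Rg_of (a := a) hq
    have h3 : wadj (p.1 + a, p.2 + a) (q.1 + a, q.2 + a) := by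
      rw [← shp_wadj (Rg.le h1) (Rg.le h2), shp_add, shp_add]
      exact hpq
    obtain ⟨e, he, hee⟩ := hW.surj _ _ h3 (Rg.rect h1 h.aw) (Rg.rect h2 h.aw) (notMem_empty _)
    refine ⟨e, ⟨he, ?_⟩, ?_⟩
    · rw [h.ins e (hc he), hee]
      intro v hv
      rcases Sym2.mem_iff.1 hv with rfl | rfl
      · exact h1
      · exact h2
    · rw [hee, Sym2.map_mk, shp_add, shp_add]

/-- **(T2)** representatives of `S'` extend to representatives of `S` with the elements of `Dr` on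
the rows which leave the region -/
theorem OTr.ext (h : OTr M S S' Y F Dr row w a w' Wd) {c' : Set α} (hc : c' ⊆ S')
    (hW : WallH c' (fun e => (row e).map (shp a)) w' Wd) : ∃ c, c ⊆ S ∧ WallE c row w ∅ ∧
      c ∩ S' = c' ∧ ∀ e ∈ c, (∃ v ∈ row e, v ∈ Rg a w' Wd) → e ∈ S' ∪ Dr := by
  classical
  obtain ⟨c₀, hc₀, hW₀⟩ := h.rep
  have hg : ∀ s : Sym2 (ℕ × ℕ), ∃ e : Option α, (∀ x ∈ S, row x = s → ∃ y, e = some y ∧ y ∈ S ∧
      row y = s) ∧ (∀ x ∈ Dr, row x = s → ∃ y, e = some y ∧ y ∈ Dr) := by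
    intro s
    by_cases hs : ∃ x ∈ Dr, row x = s
    · obtain ⟨x, hx, hxs⟩ := hs
      exact ⟨some x, fun _ _ _ => ⟨x, rfl, h.subD hx, hxs⟩, fun _ _ _ => ⟨x, rfl, hx⟩⟩
    · by_cases hs' : ∃ x ∈ S, row x = s
      · obtain ⟨x, hx, hxs⟩ := hs'
        exact ⟨some x, fun _ _ _ => ⟨x, rfl, hx, hxs⟩, fun x hx hxs => absurd ⟨x, hx, hxs⟩ hs⟩
      · exact ⟨none, fun x hx hxs => absurd ⟨x, hx, hxs⟩ hs',
          fun x hx hxs => absurd ⟨x, hx, hxs⟩ hs⟩
  choose g hg using hg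
  refine ⟨c' ∪ {e | e ∈ S ∧ e ∉ S' ∧ g (row e) = some e}, ?_, ⟨?_, ?_, ?_⟩, ?_, ?_⟩
  · rintro e (he | he)
    · exact h.sub' (hc he)
    · exact he.1
  · rintro e he e' he' hee
    have hiff : e ∈ S → e' ∈ S → (e ∈ S' ↔ e' ∈ S') := by
      intro h1 h2
      rw [h.ins e h1, h.ins e' h2, hee]
    rcases he with he | he <;> rcases he' with he' | he'
    · refine hW.inj he he' ?_
      rw [hee]
    · exact absurd ((hiff (h.sub' (hc he)) he'.1).1 (hc he)) he'.2.1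
    · exact absurd ((hiff he.1 (h.sub' (hc he'))).2 (hc he')) he.2.1
    · have h1 := he.2.2
      rw [hee, he'.2.2] at h1
      exact (Option.some_injective _ h1).symm
  · rintro e (he | he)
    · exact h.mem e (h.sub' (hc he))
    · exact h.mem e he.1
  · intro p q hpq hp hq _
    by_cases hpr : p ∈ Rg a w' Wd ∧ q ∈ Rg a w' Wd
    · obtain ⟨h1, h2⟩ := hpr
      obtain ⟨e, he, hee⟩ := hW.surj (shp a p) (shp a q) ((shp_wadj (Rg.le h1) (Rg.le h2)).2 hpq)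
        h1.2.2 h2.2.2
      refine ⟨e, Or.inl he, shp_map (a := a) (h.le' (hc he)) ?_ ?_⟩
      · intro v hv
        rcases Sym2.mem_iff.1 hv with rfl | rfl
        · exact Rg.le h1
        · exact Rg.le h2
      · rw [Sym2.map_mk]
        exact hee
    · obtain ⟨x, hx, hxx⟩ := hW₀.surj p q hpq hp hq (notMem_empty _)
      obtain ⟨y, hy, hyS, hyr⟩ := (hg s(p, q)).1 x (hc₀ hx) hxx
      refine ⟨y, Or.inr ⟨hyS, ?_, by rw [hyr, hy]⟩, hyr⟩
      rw [h.ins y hyS, hyr]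
      intro h3
      exact hpr ⟨h3 p (Sym2.mem_mk_left _ _), h3 q (Sym2.mem_mk_right _ _)⟩
  · ext e
    constructor
    · rintro ⟨he | he, he'⟩
      · exact he
      · exact absurd he' he.2.1
    · exact fun he => ⟨Or.inl he, hc he⟩
  · rintro e (he | he) hv
    · exact Or.inl (hc he)
    · right
      obtain ⟨x, hx, hxe⟩ := h.leav e he.1 he.2.1 hv
      obtain ⟨y, hy, hyD⟩ := (hg (row e)).2 x hx hxe
      rw [he.2.2] at hy
      rw [Option.some_injective _ hy]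
      exact hyD

/-- **(T1)** own vertices in `M ／ F` and in `M` are the same -/
theorem OTr.own_iff [M.Finite] (h : OTr M S S' Y F Dr row w a w' Wd)
    (hsk : rk (M ／ F) (S' ∪ Y) = rk (M ／ F) S' + rk (M ／ F) Y) (hc : c ⊆ S)
    (hW : WallE c row w ∅) (hv : VC M S row w v) (hva : a ≤ v.1 ∧ a ≤ v.2)
    (hcv : ∀ e ∈ c, v ∈ row e → e ∈ S' ∪ Dr) (hne : ∃ g ∈ c, v ∈ row g ∧ g ∈ S')
    (hdr : rk (M ／ F) S' ≤ rk (M ／ F) (S' \ {e | e ∈ c ∩ S' ∧ v ∈ row e}) + 1)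
    (hz : z ∈ M.closure (S' ∪ Y ∪ F)) (hzF : z ∉ F) :
    OwnV (M ／ F) S' Y (fun e => (row e).map (shp a)) (c ∩ S') z (shp a v) ↔
      v ∈ LocR M S row c z := by
  classical
  have hf : (M ／ F).Finite := BQ.fin_contract _
  have hSE := h.SE
  have hF : F ⊆ M.E := h.subF.trans hSE
  obtain ⟨st, hst⟩ : ∃ st, st = {e | e ∈ c ∧ v ∈ row e} := ⟨_, rfl⟩
  have hst' : {e | e ∈ c ∩ S' ∧ v ∈ row e} = st ∩ S' := by
    rw [hst]
    ext e
    constructor
    · rintro ⟨⟨h1, h2⟩, h3⟩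
      exact ⟨⟨h1, h3⟩, h2⟩
    · rintro ⟨⟨h1, h2⟩, h3⟩
      exact ⟨⟨h1, h3⟩, h2⟩
  rw [hst'] at hdr
  unfold OwnV LocR
  rw [h.star_eq hva c, hst']
  rw [mem_ofPred_eq, ← hst, not_iff_not, Matroid.contract_closure_eq]
  have hstY : ∀ e ∈ st, e ∉ Y ∧ e ∉ F := by
    intro e he
    rw [hst] at he
    have h1 := hcv e he.1 he.2
    refine ⟨fun h2 => Set.disjoint_left.1 h.dY h2 h1, fun h2 => Set.disjoint_left.1 h.dF h2 ?_⟩
    rcases h1 with h1 | h1
    · exact Or.inl (Or.inl h1)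
    · exact Or.inr h1
  have hsub : S' \ (st ∩ S') ∪ Y ∪ F ⊆ S \ st := by
    rintro e ((he | he) | he)
    · exact ⟨h.sub' he.1, fun h1 => he.2 ⟨h1, he.1⟩⟩
    · exact ⟨h.subY he, fun h1 => (hstY e h1).1 he⟩
    · exact ⟨h.subF he, fun h1 => (hstY e h1).2 he⟩
  constructor
  · exact fun h1 => M.closure_subset_closure hsub h1.1
  · intro h1
    refine ⟨?_, hzF⟩
    obtain ⟨g, hgc, hvg, hgS⟩ := hne
    have hgs : g ∈ st := by rw [hst]; exact ⟨hgc, hvg⟩
    have h2 : z ∈ M.closure ((S \ st) ∩ (S' ∪ Y ∪ F)) := by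
      refine cl_inter h1 hz ?_
      have e1 : S' \ (st ∩ S') ∪ Y ∪ F ⊆ (S \ st) ∩ (S' ∪ Y ∪ F) := by
        refine subset_inter hsub ?_
        exact union_subset_union_left _ (union_subset_union_left _ sdiff_subset)
      have r1 := rk_mono M e1
      have r2 : rk M (insert g (S \ st)) ≤ rk M ((S \ st) ∪ (S' ∪ Y ∪ F)) :=
        rk_mono M (insert_subset (Or.inr (Or.inl (Or.inl hgS))) subset_union_left)
      have r3 := rk_insert_notMem (hSE (hc hgc)) (by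
        have := hv.nms c hc hW g hgc hvg
        rw [← hst] at this
        exact this)
      have hSF : ∀ X, X ⊆ S' ∪ Y → X ⊆ M.E \ F := by
        intro X hX e he
        refine ⟨?_, fun h3 => ?_⟩
        · rcases hX he with h3 | h3
          · exact hSE (h.sub' h3)
          · exact hSE (h.subY h3)
        · exact Set.disjoint_left.1 h.dF h3 (Or.inl (hX he))
      have r4 := BQ.rk_con (M := M) hF (X := S' ∪ Y) (hSF _ Subset.rfl)
      have r5 := BQ.rk_con (M := M) hF (X := S' \ (st ∩ S') ∪ Y)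
        (hSF _ (union_subset_union_left _ sdiff_subset))
      have r6 := rk_skew_sub hsk (X := S' \ (st ∩ S')) sdiff_subset
      omega
    refine M.closure_subset_closure ?_ h2
    rintro e ⟨⟨he, he'⟩, (he2 | he2) | he2⟩
    · exact Or.inl (Or.inl ⟨he2, fun h3 => he' h3.1⟩)
    · exact Or.inl (Or.inr he2)
    · exact Or.inr he2

/-- for some representatives `z` has exactly two locations in `N` (in different blobs of the matching
`i`), or (`i = 0`) a closed star -/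
def Kd (M : Matroid α) (S : Set α) (row : α → Sym2 (ℕ × ℕ)) (w a i : ℕ) (N : Finset (ℕ × ℕ))
    (z : α) : Prop :=
  ∃ c, c ⊆ S ∧ WallE c row w ∅ ∧ ∃ p₁ ∈ N, ∃ p₂ ∈ N, p₁ ≠ p₂ ∧ p₁ ∈ LocR M S row c z ∧
    p₂ ∈ LocR M S row c z ∧
    ((pw i (shp a p₁) ≠ pw i (shp a p₂) ∧ ∀ v ∈ N, v ∈ LocR M S row c z → v = p₁ ∨ v = p₂) ∨
      (i = 0 ∧ ∃ v₀, p₁ ∈ star v₀ ∧ star v₀ ⊆ LocR M S row c z ∧
        ∀ v ∈ N, v ∈ LocR M S row c z → v ∈ star v₀))

/-- two locations for some representatives -/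
theorem kd_of {N : Finset (ℕ × ℕ)} {D₀ : ℕ} {Hs₀ : Finset (ℕ × ℕ)} (h2 : TwoL M S row w D₀ Hs₀ z)
    (hN : ∀ v ∈ N, (DeepR (0, 0) (w + 1) (w + 1) D₀ v ∧ v ∉ Hs₀) ∧ a + 3 ≤ v.1 ∧ a ≤ v.2)
    (hc : c ⊆ S) (hW : WallE c row w ∅) {p₁ p₂ : ℕ × ℕ} (h1 : p₁ ∈ N) (h1' : p₂ ∈ N)
    (hne : p₁ ≠ p₂) (o₁ : p₁ ∈ LocR M S row c z) (o₂ : p₂ ∈ LocR M S row c z) :
    Kd M S row w a 0 N z ∨ Kd M S row w a 1 N z := by
  classical
  obtain ⟨A, hA⟩ : ∃ A, A = N.filter (fun v => v ∈ LocR M S row c z) := ⟨_, rfl⟩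
  have mA : ∀ v, v ∈ A ↔ v ∈ N ∧ v ∈ LocR M S row c z := by
    intro v
    rw [hA, Finset.mem_filter]
  rcases h2.1 c hc hW A (fun v hv => ⟨((mA v).1 hv).2, (hN v ((mA v).1 hv).1).1.1,
    (hN v ((mA v).1 hv).1).1.2⟩) with h3 | ⟨v₀, h3, h4⟩
  · have h4 : ∀ v ∈ N, v ∈ LocR M S row c z → v = p₁ ∨ v = p₂ := by
      intro v hv hvl
      by_contra hcon
      push Not at hcon
      have h5 : ({v, p₁, p₂} : Finset (ℕ × ℕ)) ⊆ A := by
        intro x hx
        simp only [Finset.mem_insert, Finset.mem_singleton] at hx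
        rw [mA]
        rcases hx with rfl | rfl | rfl
        · exact ⟨hv, hvl⟩
        · exact ⟨h1, o₁⟩
        · exact ⟨h1', o₂⟩
      have h6 := Finset.card_le_card h5
      rw [Finset.card_insert_of_notMem, Finset.card_insert_of_notMem, Finset.card_singleton] at h6
      · omega
      · rw [Finset.mem_singleton]
        exact hne
      · rw [Finset.mem_insert, Finset.mem_singleton]
        exact fun h7 => h7.elim hcon.1 hcon.2
    by_cases h0 : pw 0 (shp a p₁) = pw 0 (shp a p₂)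
    · right
      refine ⟨c, hc, hW, p₁, h1, p₂, h1', hne, o₁, o₂, Or.inl ⟨?_, h4⟩⟩
      intro h5
      have a1 := (hN p₁ h1).2
      have a2 := (hN p₂ h1').2
      unfold pw shp at h0 h5
      rw [Prod.mk.injEq] at h0 h5
      dsimp only at h0 h5
      apply hne
      ext <;> omega
    · exact Or.inl ⟨c, hc, hW, p₁, h1, p₂, h1', hne, o₁, o₂, Or.inl ⟨h0, h4⟩⟩
  · left
    refine ⟨c, hc, hW, p₁, h1, p₂, h1', hne, o₁, o₂, Or.inr ⟨rfl, v₀,
      h3 (Finset.mem_coe.2 ((mA _).2 ⟨h1, o₁⟩)), h4, fun v hv hvl => ?_⟩⟩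
    exact h3 (Finset.mem_coe.2 ((mA _).2 ⟨hv, hvl⟩))

private lemma star_of_wadj {u v : ℕ × ℕ} (h : wadj u v) : v ∈ star u := by
  obtain ⟨x, y⟩ := u
  obtain ⟨x', y'⟩ := v
  unfold wadj at h
  unfold star vn
  simp only [mem_insert_iff, mem_singleton_iff]
  dsimp only at h ⊢
  split_ifs with h1 <;> simp only [Prod.mk.injEq] <;> omega

private lemma wadj_of_star {u v : ℕ × ℕ} (hu : 1 ≤ u.1 ∧ 1 ≤ u.2) (h : v ∈ star u) :
    v = u ∨ wadj u v := by
  obtain ⟨x, y⟩ := u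
  obtain ⟨x', y'⟩ := v
  unfold wadj
  unfold star vn at h
  simp only [mem_insert_iff, mem_singleton_iff] at h
  dsimp only at hu h ⊢
  split_ifs at h with h1 <;> simp only [Prod.mk.injEq] at h ⊢ <;> omega

private lemma sd_star {u v : ℕ × ℕ} (h : v ∈ star u) : v.1 ≤ u.1 + 1 ∧ u.1 ≤ v.1 + 1 ∧
    v.2 ≤ u.2 + 1 ∧ u.2 ≤ v.2 + 1 := by
  obtain ⟨x, y⟩ := u
  obtain ⟨x', y'⟩ := v
  unfold star vn at h
  simp only [mem_insert_iff, mem_singleton_iff] at h
  dsimp only at h ⊢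
  split_ifs at h with h1 <;> simp only [Prod.mk.injEq] at h <;> omega

private lemma nb_wadj {u v : ℕ × ℕ} (h : wadj u v) : v.1 ≤ u.1 + 1 ∧ u.1 ≤ v.1 + 1 ∧
    v.2 ≤ u.2 + 1 ∧ u.2 ≤ v.2 + 1 := by
  unfold wadj at h
  omega

/-- **(T3)** the data `TwoH` in `M ／ F` -/
theorem OTr.twoH [M.Finite] (h : OTr M S S' Y F Dr row w a w' Wd) {i L β D δ : ℕ}
    {Om N : Finset (ℕ × ℕ)} (hP : RHol (M ／ F) S' (fun e => (row e).map (shp a)) w' Wd)
    (hsk : rk (M ／ F) (S' ∪ Y) = rk (M ／ F) S' + rk (M ／ F) Y) (hi : i ≤ 1)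
    (hfull : ∀ p ∈ rect 0 0 (w' + 1) (w' + 1) \ Wd, DeepR (0, 0) (w' + 1) (w' + 1) D p →
      (∃ q ∈ rect 0 0 (w' + 1) (w' + 1) \ Wd, wadj p q) ∧
      ∀ c' ⊆ S', WallH c' (fun e => (row e).map (shp a)) w' Wd →
        rk (M ／ F) S' ≤ rk (M ／ F) (S' \ {e | e ∈ c' ∧ p ∈ (row e).map (shp a)}) + 1)
    (hD : 2 ≤ D)
    (hvc : ∀ v ∈ Rg a w' Wd, DeepR (0, 0) (w' + 1) (w' + 1) D (shp a v) → VC M S row w v)
    (hz : z ∈ M.closure (S' ∪ Y ∪ F)) (hzF : z ∉ F) (hN : N.card ≤ β)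
    (hNv : ∀ v ∈ N, a ≤ v.1 ∧ a ≤ v.2 ∧ DeepR (0, 0) (w' + 1) (w' + 1) δ (shp a v) ∧
      DeepR (0, 0) (w' + 1) (w' + 1) (D + 4) (shp a v) ∧ OffL L Om (shp a v) ∧
      ∀ q, sd q (shp a v) ≤ 4 → q ∉ Wd)
    (hsup : ∀ c, c ⊆ S → WallE c row w ∅ → ∀ v ∈ LocR M S row c z, v ∈ Rg a w' Wd →
      DeepR (0, 0) (w' + 1) (w' + 1) D (shp a v) → v ∈ N)
    (hK : Kd M S row w a i N z) :
    TwoH (M ／ F) S' Y (fun e => (row e).map (shp a)) w' i Wd Om L β D δ z (N.image (shp a)) := by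
  classical
  have hf : (M ／ F).Finite := BQ.fin_contract _
  have hrect : ∀ p, DeepR (0, 0) (w' + 1) (w' + 1) D p → p ∈ rect 0 0 (w' + 1) (w' + 1) := by
    intro p hp
    unfold DeepR at hp
    dsimp only at hp
    rw [Gad.mem_rct]
    omega
  -- vertices near `N`
  have hnear : ∀ v ∈ N, ∀ q : ℕ × ℕ, q.1 ≤ (shp a v).1 + 4 → (shp a v).1 ≤ q.1 + 4 →
      q.2 ≤ (shp a v).2 + 4 → (shp a v).2 ≤ q.2 + 4 →
      q ∈ rect 0 0 (w' + 1) (w' + 1) \ Wd ∧ DeepR (0, 0) (w' + 1) (w' + 1) D q := by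
    intro v hv q h1 h2 h3 h4
    obtain ⟨g1, g2, g3, g4, g5, g6⟩ := hNv v hv
    have h5 : DeepR (0, 0) (w' + 1) (w' + 1) D q := by
      unfold DeepR at g4 ⊢
      dsimp only at g4 ⊢
      omega
    refine ⟨⟨hrect q h5, g6 q ?_⟩, h5⟩
    rw [sd_le]
    exact ⟨h1, h2, h3, h4⟩
  -- (T1b)
  have hown : ∀ c, c ⊆ S → WallE c row w ∅ → ∀ v ∈ N, ∀ q : ℕ × ℕ, q.1 ≤ (shp a v).1 + 3 →
      (shp a v).1 ≤ q.1 + 3 → q.2 ≤ (shp a v).2 + 3 → (shp a v).2 ≤ q.2 + 3 →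
      (OwnV (M ／ F) S' Y (fun e => (row e).map (shp a)) (c ∩ S') z q ↔
        (q.1 + a, q.2 + a) ∈ LocR M S row c z) := by
    intro c hc hW v hv q h1 h2 h3 h4
    obtain ⟨g1, g2⟩ := hnear v hv q (by omega) (by omega) (by omega) (by omega)
    obtain ⟨x, hx⟩ : ∃ x : ℕ × ℕ, x = (q.1 + a, q.2 + a) := ⟨_, rfl⟩
    have hxq : shp a x = q := by rw [hx]; exact shp_add q
    have hxR : x ∈ Rg a w' Wd := by rw [hx]; exact mem_Rg_of g1
    -- the neighbours
    have hnb : ∀ y : ℕ × ℕ, wadj x y → y ∈ Rg a w' Wd := by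
      intro y hy
      have g3 := nb_wadj hy
      have g4 : a + 1 ≤ x.1 ∧ a + 1 ≤ x.2 := by
        unfold DeepR at g2
        dsimp only at g2
        rw [hx]
        dsimp only
        omega
      refine ⟨by omega, by omega, (hnear v hv (shp a y) ?_ ?_ ?_ ?_).1⟩ <;>
        rw [hx] at g3 g4 <;> dsimp only at g3 g4 <;> unfold shp <;> dsimp only <;>
        unfold shp at h1 h2 h3 h4 <;> dsimp only at h1 h2 h3 h4 <;> omega
    have hin : ∀ e ∈ c, x ∈ row e → e ∈ S' := by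
      intro e he hxe
      rw [h.ins e (hc he)]
      obtain ⟨y, y', k1, k2, _, _⟩ := h.mem e (hc he)
      rw [k1] at hxe ⊢
      intro u hu
      rcases Sym2.mem_iff.1 hxe with rfl | rfl
      · rcases Sym2.mem_iff.1 hu with rfl | rfl
        · exact hxR
        · exact hnb _ k2
      · rcases Sym2.mem_iff.1 hu with rfl | rfl
        · exact hnb _ (wadj_symm k2)
        · exact hxR
    obtain ⟨⟨y, hyr, hyq⟩, k2⟩ := hfull q g1 g2
    have hyR : (y.1 + a, y.2 + a) ∈ Rg a w' Wd := mem_Rg_of hyr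
    have k3 : wadj x (y.1 + a, y.2 + a) := by
      rw [← shp_wadj (Rg.le hxR) (Rg.le hyR), hxq, shp_add]
      exact hyq
    obtain ⟨g, hgc, hg⟩ := hW.surj _ _ k3 (Rg.rect hxR h.aw) (Rg.rect hyR h.aw) (notMem_empty _)
    have hxg : x ∈ row g := by rw [hg]; exact Sym2.mem_mk_left _ _
    have k4 := h.own_iff hsk hc hW (hvc x hxR (by rw [hxq]; exact g2)) (Rg.le hxR)
      (fun e he hxe => Or.inl (hin e he hxe)) ⟨g, hgc, hxg, hin g hgc hxg⟩ (by
        have k5 := k2 (c ∩ S') inter_subset_right (h.trace hc hW)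
        rw [← hxq, h.star_eq (Rg.le hxR) c] at k5
        exact k5) hz hzF
    rw [hxq] at k4
    rw [← hx]
    exact k4
  refine ⟨Finset.card_image_le.trans hN, ?_, ?_, ?_⟩
  · intro p hp
    obtain ⟨v, hv, rfl⟩ := Finset.mem_image.1 hp
    obtain ⟨g1, g2, g3, g4, g5, g6⟩ := hNv v hv
    have g7 := hnear v hv (shp a v) (by omega) (by omega) (by omega) (by omega)
    refine ⟨g7.1.1, ?_, g5⟩
    unfold DeepR at g4 ⊢
    dsimp only at g4 ⊢
    omega
  · -- all own vertices are in `N`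
    intro c' hc' hW' p hpW hpD hp
    obtain ⟨c, hc, hW, hcc, hcv⟩ := h.ext hc' hW'
    have hpr := hrect p hpD
    obtain ⟨x, hx⟩ : ∃ x : ℕ × ℕ, x = (p.1 + a, p.2 + a) := ⟨_, rfl⟩
    have hxq : shp a x = p := by rw [hx]; exact shp_add p
    have hxR : x ∈ Rg a w' Wd := by rw [hx]; exact mem_Rg_of ⟨hpr, hpW⟩
    obtain ⟨⟨y, hyr, hyq⟩, k2⟩ := hfull p ⟨hpr, hpW⟩ hpD
    have hyR : (y.1 + a, y.2 + a) ∈ Rg a w' Wd := mem_Rg_of hyr
    have k3 : wadj x (y.1 + a, y.2 + a) := by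
      rw [← shp_wadj (Rg.le hxR) (Rg.le hyR), hxq, shp_add]
      exact hyq
    obtain ⟨g, hgc, hg⟩ := hW.surj _ _ k3 (Rg.rect hxR h.aw) (Rg.rect hyR h.aw) (notMem_empty _)
    have hxg : x ∈ row g := by rw [hg]; exact Sym2.mem_mk_left _ _
    have hgS : g ∈ S' := by
      rw [h.ins g (hc hgc), hg]
      intro u hu
      rcases Sym2.mem_iff.1 hu with rfl | rfl
      · exact hxR
      · exact hyR
    have k4 := h.own_iff hsk hc hW (hvc x hxR (by rw [hxq]; exact hpD)) (Rg.le hxR)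
      (fun e he hxe => hcv e he ⟨x, hxe, hxR⟩) ⟨g, hgc, hxg, hgS⟩ (by
        have k5 := k2 (c ∩ S') inter_subset_right (h.trace hc hW)
        rw [← hxq, h.star_eq (Rg.le hxR) c] at k5
        exact k5) hz hzF
    rw [hxq, hcc] at k4
    have k5 := hsup c hc hW x (k4.1 hp) hxR (by rw [hxq]; exact hpD)
    exact Finset.mem_image.2 ⟨x, k5, hxq⟩
  · -- two own blobs
    obtain ⟨c, hc, hW, p₁, h1, p₂, h1', hne, o₁, o₂, hk⟩ := hK
    have hWt := h.trace hc hW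
    have hcS : c ∩ S' ⊆ S' := inter_subset_right
    -- own vertices of `P` near `N` are in `N`
    have hback : ∀ v ∈ N, ∀ q : ℕ × ℕ, q.1 ≤ (shp a v).1 + 3 → (shp a v).1 ≤ q.1 + 3 →
        q.2 ≤ (shp a v).2 + 3 → (shp a v).2 ≤ q.2 + 3 →
        OwnV (M ／ F) S' Y (fun e => (row e).map (shp a)) (c ∩ S') z q →
        (q.1 + a, q.2 + a) ∈ N ∧ (q.1 + a, q.2 + a) ∈ LocR M S row c z := by
      intro v hv q g1 g2 g3 g4 hq
      have g5 := (hown c hc hW v hv q g1 g2 g3 g4).1 hq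
      obtain ⟨g6, g7⟩ := hnear v hv q (by omega) (by omega) (by omega) (by omega)
      exact ⟨hsup c hc hW _ g5 (mem_Rg_of g6) (by rw [shp_add]; exact g7), g5⟩
    have hsh : ∀ v ∈ N, ((shp a v).1 + a, (shp a v).2 + a) = v := by
      intro v hv
      obtain ⟨g1, g2, _⟩ := hNv v hv
      unfold shp
      dsimp only
      ext
      · exact Nat.sub_add_cancel g1
      · exact Nat.sub_add_cancel g2
    have hclr : ∀ v ∈ N, ∀ q : ℕ × ℕ, q.1 ≤ (shp a v).1 + 3 → (shp a v).1 ≤ q.1 + 3 →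
        q.2 ≤ (shp a v).2 + 3 → (shp a v).2 ≤ q.2 + 3 → 3 ≤ q.1 → q.1 + 1 ≤ w' → Clr w' Wd q := by
      intro v hv q g1 g2 g3 g4 g5 g6
      have k1 := hnear v hv q (by omega) (by omega) (by omega) (by omega)
      have k2 := hnear v hv (q.1 - 1, q.2) (by dsimp only; omega) (by dsimp only; omega)
        (by dsimp only; omega) (by dsimp only; omega)
      have k3 := hnear v hv (q.1 + 1, q.2) (by dsimp only; omega) (by dsimp only; omega)
        (by dsimp only; omega) (by dsimp only; omega)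
      have k4 := k1.1.1
      rw [Gad.mem_rct] at k4
      exact ⟨g5, g6, by omega, k1.1.2, k2.1.2, k3.1.2⟩
    have hdp : ∀ v ∈ N, 6 ≤ (shp a v).1 ∧ (shp a v).1 + 5 ≤ w' ∧ 6 ≤ (shp a v).2 ∧
        (shp a v).2 + 5 ≤ w' := by
      intro v hv
      have g4 := (hNv v hv).2.2.2.1
      unfold DeepR at g4
      dsimp only at g4
      omega
    refine ⟨c ∩ S', hcS, hWt, ?_⟩
    rcases hk with ⟨hpw, hall⟩ | ⟨rfl, v₀, s1, s2, s3⟩
    · -- two points
      have key : ∀ p p', (p = p₁ ∧ p' = p₂) ∨ (p = p₂ ∧ p' = p₁) → p ∈ N → p ∈ LocR M S row c z →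
          z ∉ (M ／ F).closure (Frb S' (fun e => (row e).map (shp a)) i (c ∩ S')
            (pw i (shp a p)) ∪ Y) := by
        intro p p' hpp hpN hpo
        have g1 := hdp p hpN
        have hC := hclr p hpN (shp a p) (by omega) (by omega) (by omega) (by omega) (by omega)
          (by omega)
        refine hP.blob_of hsk hcS hWt hi hC ?_ ?_
        · rw [hown c hc hW p hpN (shp a p) (by omega) (by omega) (by omega) (by omega),
            hsh p hpN]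
          exact hpo
        · intro hcon
          obtain ⟨t1, t2, t3, t4⟩ := ptn_spec hi hC.lo
          have t5 := nb_wadj t1
          obtain ⟨t6, t7⟩ := hback p hpN (ptn i (shp a p)) (by omega) (by omega) (by omega)
            (by omega) hcon
          have t8 := hall _ t6 t7
          have t9 : ∀ x, ((ptn i (shp a p)).1 + a, (ptn i (shp a p)).2 + a) = x →
              ptn i (shp a p) = shp a x := by
            intro x hx
            rw [← hx, shp_add]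
          have t10 : shp a p ≠ ptn i (shp a p) := by
            intro t11
            rcases t4 with t4 | t4 <;> rw [t4] at t11 <;> have := congrArg Prod.fst t11 <;>
              dsimp only at this <;> omega
          rcases hpp with ⟨rfl, rfl⟩ | ⟨rfl, rfl⟩
          · rcases t8 with t8 | t8
            · exact t10 (t9 _ t8).symm
            · rw [t9 _ t8] at t2
              exact hpw t2.symm
          · rcases t8 with t8 | t8
            · rw [t9 _ t8] at t2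
              exact hpw t2
            · exact t10 (t9 _ t8).symm
      exact ⟨shp a p₁, Finset.mem_image_of_mem _ h1, shp a p₂, Finset.mem_image_of_mem _ h1', hpw,
        (hNv p₁ h1).2.2.1, (hNv p₂ h1').2.2.1, key p₁ p₂ (Or.inl ⟨rfl, rfl⟩) h1 o₁,
        key p₂ p₁ (Or.inr ⟨rfl, rfl⟩) h1' o₂⟩
    · -- a closed star
      have d1 := hdp p₁ h1
      have d2 := sd_star s1
      have d3 : a + 1 ≤ v₀.1 ∧ a + 1 ≤ v₀.2 := by
        have := hNv p₁ h1
        unfold shp at d1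
        dsimp only at d1
        omega
      have d4 : ((shp a v₀).1 + a, (shp a v₀).2 + a) = v₀ := by
        unfold shp
        dsimp only
        ext
        · exact Nat.sub_add_cancel (by omega)
        · exact Nat.sub_add_cancel (by omega)
      have d5 : (shp a v₀).1 ≤ (shp a p₁).1 + 1 ∧ (shp a p₁).1 ≤ (shp a v₀).1 + 1 ∧
          (shp a v₀).2 ≤ (shp a p₁).2 + 1 ∧ (shp a p₁).2 ≤ (shp a v₀).2 + 1 := by
        unfold shp
        dsimp only
        omega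
      have d6 : ∀ q : ℕ × ℕ, wadj (shp a v₀) q ↔ wadj v₀ (q.1 + a, q.2 + a) := by
        intro q
        have := shp_wadj (a := a) (u := v₀) (v := (q.1 + a, q.2 + a)) ⟨by omega, by omega⟩
          ⟨by dsimp only; omega, by dsimp only; omega⟩
        rw [shp_add] at this
        exact this
      obtain ⟨x₁, x₂, g1, g2, g3, g4, g5⟩ := hP.star_own hsk hcS hWt (v := shp a v₀) (z := z)
        (by omega) (by
          intro q hq
          rw [sd_le] at hq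
          exact (hnear p₁ h1 q (by omega) (by omega) (by omega) (by omega)).1.2) (by
          intro q hq
          have e1 := nb_wadj hq
          rw [hown c hc hW p₁ h1 q (by omega) (by omega) (by omega) (by omega)]
          exact s2 (star_of_wadj ((d6 q).1 hq))) (by
          intro q hq hqo
          rw [sd_le] at hq
          obtain ⟨e1, e2⟩ := hback p₁ h1 q (by omega) (by omega) (by omega) (by omega) hqo
          rcases wadj_of_star ⟨by omega, by omega⟩ (s3 _ e1 e2) with e3 | e3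
          · left
            rw [← e3, shp_add]
          · exact Or.inr ((d6 q).2 e3))
      have hx : ∀ q, wadj (shp a v₀) q → q ∈ N.image (shp a) ∧
          DeepR (0, 0) (w' + 1) (w' + 1) δ q := by
        intro q hq
        have e1 := nb_wadj hq
        have e2 := s2 (star_of_wadj ((d6 q).1 hq))
        have e3 := hnear p₁ h1 q (by omega) (by omega) (by omega) (by omega)
        have e4 := hsup c hc hW _ e2 (mem_Rg_of e3.1) (by rw [shp_add]; exact e3.2)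
        have e5 := (hNv _ e4).2.2.1
        rw [shp_add] at e5
        exact ⟨Finset.mem_image.2 ⟨_, e4, shp_add q⟩, e5⟩
      exact ⟨x₁, (hx x₁ g1).1, x₂, (hx x₂ g2).1, g3, (hx x₁ g1).2, (hx x₂ g2).2, g4, g5⟩

end

end DA
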