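import Pool.Agent.BICS.Lam

/-!
# The count of T* with light strands (row B6 / section 4 of LIFT+, problem MP_5165fa_co)

`S` the elements of the wall, `K` the kept conflicts, `K₀ ⊆ K` those of the light strands, `Kc k`
those of the strands of class `k`, `D` the other elements.  Elements of class `k`: in the span of
`S \ K`, `Kc k` and `K₀`; all of them together have rank at most `f` over `S \ K₀` (this is what
LIFT+ and the gamma theorem give).  No contraction and no exactness is needed.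
-/

open Set BIC BICS
open scoped Matroid

namespace DA
namespace Cnt

variable {α κ : Type*} {M : Matroid α}

/-- submodularity for several sets -/
lemma rk_biUnion_le (M : Matroid α) [M.Finite] (G : κ → Set α) (X : Set α) (T : Finset κ) :
    rk M ((⋃ k ∈ T, G k) ∪ X) + T.card * rk M X ≤ rk M X + ∑ k ∈ T, rk M (G k ∪ X) := by
  classical
  induction T using Finset.induction_on with
  | empty => simp
  | insert k T hk ih =>
    have h1 := rk_submod M ((⋃ k ∈ T, G k) ∪ X) (G k ∪ X)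
    have h2 : rk M X ≤ rk M (((⋃ k ∈ T, G k) ∪ X) ∩ (G k ∪ X)) :=
      rk_mono M fun x hx => ⟨Or.inr hx, Or.inr hx⟩
    have h3 : ((⋃ k ∈ T, G k) ∪ X) ∪ (G k ∪ X) = (⋃ k' ∈ insert k T, G k') ∪ X := by
      rw [Finset.set_biUnion_insert]
      ext x
      simp only [mem_union]
      tauto
    rw [h3] at h1
    rw [Finset.card_insert_of_notMem hk, Finset.sum_insert hk, Nat.add_mul, Nat.one_mul]
    omega

/-- Elements of one class. -/
lemma class_rk [M.Finite] {S X K₀ Kk G : Set α} (hS : S ⊆ M.E) (hX : X ⊆ S) (hKk : Kk ⊆ S \ K₀)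
    (hXK : Disjoint X K₀) (hK₀ : K₀ ⊆ S)
    (hK₀f : K₀.Finite) {P₀ f : ℕ} (hst : rk M (S \ K₀) + K₀.ncard ≤ rk M S + P₀)
    (hG : G ⊆ M.closure (X ∪ Kk ∪ K₀)) (hf : rk M (G ∪ (S \ K₀)) ≤ rk M (S \ K₀) + f) :
    rk M (G ∪ (X ∪ Kk)) ≤ rk M (X ∪ Kk) + (f + P₀) := by
  have hE : X ∪ Kk ∪ K₀ ⊆ M.E :=
    union_subset (union_subset (hX.trans hS) (hKk.trans (sdiff_subset.trans hS))) (hK₀.trans hS)
  have h1 : rk M (G ∪ (X ∪ Kk ∪ K₀)) ≤ rk M (X ∪ Kk ∪ K₀) := by
    rw [← rk_closure (M := M) (X ∪ Kk ∪ K₀)]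
    exact rk_mono M (union_subset hG (M.subset_closure _ hE))
  have h2 : rk M (X ∪ Kk ∪ K₀) ≤ rk M (X ∪ Kk) + K₀.ncard := rk_union_le M hK₀f
  have h3 : rk M (G ∪ (X ∪ Kk)) + rk M S ≤
      rk M (G ∪ (X ∪ Kk ∪ K₀)) + rk M (G ∪ (S \ K₀)) := by
    refine rk_sub' (subset_inter ?_ ?_) ?_
    · exact union_subset_union_right _ subset_union_left
    · refine union_subset_union_right _ (union_subset (fun x hx => ⟨hX hx, fun h =>
        Set.disjoint_left.1 hXK hx h⟩) hKk)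
    · intro x hx
      by_cases h : x ∈ K₀
      · exact Or.inl (Or.inr (Or.inr h))
      · exact Or.inr (Or.inr ⟨hx, h⟩)
  omega

/-- **COUNT.** -/
theorem partH [M.Finite] [Fintype κ] {S D K₀ : Set α} {K : Finset α} {Kc : κ → Finset α}
    {G : κ → Set α} {n q r P P₀ f : ℕ} (hS : S ⊆ M.E) (hK : (K : Set α) ⊆ S) (hK₀ : K₀ ⊆ K)
    (hKc : ∀ k, Kc k ⊆ K) (hKc₀ : ∀ k, Disjoint (Kc k : Set α) K₀)
    (hKd : ∀ k k', k ≠ k' → Disjoint (Kc k) (Kc k'))
    (hst : rk M (S \ K) + K.card ≤ rk M S + P) (hst₀ : rk M (S \ K₀) + K₀.ncard ≤ rk M S + P₀)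
    (hGD : ∀ k, G k ⊆ D) (hG : ∀ k, G k ⊆ M.closure ((S \ K) ∪ Kc k ∪ K₀))
    (hf : rk M ((⋃ k, G k) ∪ (S \ K₀)) ≤ rk M (S \ K₀) + f)
    (V1 : ∀ k, ∃ I ⊆ (Kc k : Set α), rk M (D ∪ (S \ K)) + n ≤ rk M (I ∪ (D ∪ (S \ K))))
    (V2 : rk M S ≤ rk M (D ∪ (S \ K)) + q)
    (bad : rk M (D ∪ (S \ K)) ≤ rk M ((⋃ k, G k) ∪ (S \ K)) + r) :
    Fintype.card κ * n ≤ q + r + P + Fintype.card κ * (f + P₀) := by
  classical
  obtain ⟨X, hX⟩ : ∃ X, X = S \ (K : Set α) := ⟨_, rfl⟩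
  rw [← hX] at hst V1 V2 bad
  have hG' : ∀ k, G k ⊆ M.closure (X ∪ Kc k ∪ K₀) := by
    intro k
    rw [hX]
    exact hG k
  have hXS : X ⊆ S := by rw [hX]; exact sdiff_subset
  have hXK : Disjoint X K₀ := by
    rw [hX, Set.disjoint_left]
    exact fun x hx h => hx.2 (hK₀ h)
  have hii : ∀ k, rk M (G k ∪ X) + n ≤ rk M X + ((Kc k).card + (f + P₀)) := by
    intro k
    obtain ⟨I, hI, hI1⟩ := V1 k
    have h1 : rk M (G k ∪ X) + rk M (I ∪ (D ∪ X)) ≤ rk M (I ∪ (G k ∪ X)) + rk M (D ∪ X) := by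
      refine rk_sub' (subset_inter subset_union_right (union_subset_union_left _ (hGD k))) ?_
      rintro x (hx | hx)
      · exact Or.inl (Or.inl hx)
      · exact Or.inr hx
    have h2 : rk M (I ∪ (G k ∪ X)) ≤ rk M (G k ∪ (X ∪ Kc k)) := by
      refine rk_mono M ?_
      rintro x (hx | hx | hx)
      · exact Or.inr (Or.inr (hI hx))
      · exact Or.inl hx
      · exact Or.inr (Or.inl hx)
    have h3 := class_rk (M := M) (G := G k) hS hXS (Kk := (Kc k : Set α)) (fun x hx =>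
      ⟨hK (hKc k hx), fun h => Set.disjoint_left.1 (hKc₀ k) hx h⟩) hXK (hK₀.trans hK)
      (K.finite_toSet.subset hK₀) hst₀ (hG' k) (f := f) (by
        have h4 : rk M (G k ∪ (S \ K₀)) ≤ rk M ((⋃ k, G k) ∪ (S \ K₀)) :=
          rk_mono M (union_subset_union_left _ (subset_iUnion G k))
        omega)
    have h4 := rk_union_le M (X := X) (Kc k).finite_toSet
    rw [Set.ncard_coe_finset] at h4
    omega
  have hiii := rk_biUnion_le M G X Finset.univ
  have hU : (⋃ k ∈ (Finset.univ : Finset κ), G k) = ⋃ k, G k := by simp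
  rw [hU, Finset.card_univ] at hiii
  have hsum : ∑ k, (Kc k).card ≤ K.card := by
    rw [← Finset.card_biUnion (fun k _ k' _ h => hKd k k' h)]
    exact Finset.card_le_card (Finset.biUnion_subset.2 fun k _ => hKc k)
  have hs2 : ∑ k : κ, (rk M (G k ∪ X) + n) ≤
      ∑ k : κ, (rk M X + ((Kc k).card + (f + P₀))) :=
    Finset.sum_le_sum fun k _ => hii k
  rw [Finset.sum_add_distrib, Finset.sum_add_distrib, Finset.sum_add_distrib,
    Finset.sum_const, Finset.sum_const, Finset.sum_const, Finset.card_univ, smul_eq_mul,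
    smul_eq_mul, smul_eq_mul] at hs2
  omega

end Cnt
end DA
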