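import Pool.Agent.DA.LiftA
import Pool.Agent.GL.Loc

/-!
# Principal extensions, part 1

`PEx M M' F p`: `M'` is `M` with a new element `p` in general position in the flat spanned by `F`
(a coloop if `F` is not contained in the ground set).  In a bicircular matroid the element in
general position on the line of two half edges is an edge.
-/

open Set BIC BICS
open scoped Matroid

namespace DA

universe u v

variable {γ : Type*}

/-- `M'` is `M` with a new element `p` in general position in the flat of `F`; if `F` is not a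
subset of the ground set, then `p` is a coloop. -/
structure PEx (M M' : Matroid γ) (F : Set γ) (p : γ) : Prop where
  np : p ∉ M.E
  pE : p ∈ M'.E
  del : M' ＼ {p} = M
  clo : ∀ X ⊆ M.E, (p ∈ M'.closure X ↔ F ⊆ M.closure X)

lemma sub_closure_of_card {M : Matroid γ} [M.Finite] {J X : Set γ} (hJ : M.Indep J)
    (hJX : J ⊆ M.closure X) (hX : X ⊆ M.E) (hc : X.ncard ≤ J.ncard) : X ⊆ M.closure J := by
  have hXf : X.Finite := M.ground_finite.subset hX
  have hJf : J.Finite := M.ground_finite.subset hJ.subset_ground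
  have h1 : M.eRk (J ∪ X) ≤ M.eRk J := by
    have h2 : M.eRk (J ∪ X) ≤ M.eRk X := by
      rw [← M.eRk_closure_eq X]
      refine M.eRk_mono ?_
      exact union_subset hJX (M.subset_closure X hX)
    refine h2.trans ((M.eRk_le_encard X).trans ?_)
    rw [hJ.eRk_eq_encard, ← hXf.cast_ncard_eq, ← hJf.cast_ncard_eq]
    exact_mod_cast hc
  have hb : M.IsBasis J (J ∪ X) := hJ.isBasis_of_eRk_ge hJf subset_union_left h1
    (union_subset hJ.subset_ground hX)
  exact subset_union_right.trans hb.subset_closure

/-- Augmentation with a flat to be avoided. -/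
lemma pex_aug {M : Matroid γ} [M.Finite] {F I J : Set γ} (hI : M.Indep I) (hJ : M.Indep J)
    (hF : ¬ F ⊆ M.closure I)
    (h : I.ncard + 1 < J.ncard ∨ (I.ncard < J.ncard ∧ ¬ F ⊆ M.closure J)) :
    ∃ e ∈ J, e ∉ I ∧ M.Indep (insert e I) ∧ ¬ F ⊆ M.closure (insert e I) := by
  have hIf : I.Finite := M.ground_finite.subset hI.subset_ground
  have hJf : J.Finite := M.ground_finite.subset hJ.subset_ground
  by_contra hcon
  push Not at hcon
  obtain ⟨f, hfF, hfI⟩ := Set.not_subset.1 hF
  -- all elements of `J` are in the closure of `I + f`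
  have h1 : ∀ e ∈ J, e ∉ M.closure I → F ⊆ M.closure (insert e I) := by
    intro e he heI
    have heE := hJ.subset_ground he
    have h2 : e ∉ I := fun h => heI (M.subset_closure I hI.subset_ground h)
    exact hcon e he h2 ((hI.insert_indep_iff_of_notMem h2).2 ⟨heE, heI⟩)
  have hex : ∃ e ∈ J, e ∉ M.closure I := by
    by_contra hall
    push Not at hall
    have h2 : I.ncard < J.ncard := by rcases h with h | h <;> omega
    obtain ⟨e, he, h3⟩ := hI.augment hJ (by
      rw [← hIf.cast_ncard_eq, ← hJf.cast_ncard_eq]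
      exact_mod_cast h2)
    exact ((hI.insert_indep_iff_of_notMem he.2).1 h3).2 (hall e he.1)
  obtain ⟨e₀, he₀, he₀I⟩ := hex
  have hFE : F ⊆ M.E := (h1 e₀ he₀ he₀I).trans (M.closure_subset_ground _)
  have h2 : J ⊆ M.closure (insert f I) := by
    intro e he
    by_cases heI : e ∈ M.closure I
    · exact M.closure_subset_closure (subset_insert _ _) heI
    · have h3 := h1 e he heI hfF
      exact (M.closure_exchange ⟨h3, hfI⟩).1
  have hfi : M.Indep (insert f I) := (hI.insert_indep_iff_of_notMem (fun h =>
    hfI (M.subset_closure I hI.subset_ground h))).2 ⟨hFE hfF, hfI⟩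
  have hcard : (insert f I).ncard = I.ncard + 1 := Set.ncard_insert_of_notMem (fun h =>
    hfI (M.subset_closure I hI.subset_ground h)) hIf
  rcases h with h | ⟨h, hFJ⟩
  · -- too many elements
    have h3 : J.encard ≤ (insert f I).encard := by
      rw [← hJ.eRk_eq_encard]
      refine (M.eRk_mono h2).trans ?_
      rw [M.eRk_closure_eq]
      exact M.eRk_le_encard _
    rw [← hJf.cast_ncard_eq, ← (hIf.insert f).cast_ncard_eq, hcard] at h3
    have h4 : J.ncard ≤ I.ncard + 1 := by exact_mod_cast h3
    omega
  · apply hFJ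
    have h3 : insert f I ⊆ M.closure J := sub_closure_of_card hJ h2 hfi.subset_ground (by omega)
    have h4 : M.closure (insert f I) ⊆ M.closure J := M.closure_subset_closure_of_subset_closure h3
    intro g hg
    by_cases hgI : g ∈ M.closure I
    · exact h4 (M.closure_subset_closure (subset_insert _ _) hgI)
    · -- `g` in the closure of `I + e₀`, which is that of `I + f`
      have h5 : F ⊆ M.closure (insert e₀ I) := h1 e₀ he₀ he₀I
      have h6 : M.closure (insert e₀ I) ⊆ M.closure (insert f I) := by
        refine M.closure_subset_closure_of_subset_closure (insert_subset (h2 he₀) ?_)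
        exact (subset_insert _ _).trans (M.subset_closure _ hfi.subset_ground)
      exact h4 (h6 (h5 hg))

theorem exists_pex (M : Matroid γ) [M.Finite] (F : Set γ) (p : γ) (hp : p ∉ M.E) :
    ∃ M', PEx M M' F p := by
  classical
  obtain ⟨Ind, hInd⟩ : ∃ Ind : Set γ → Prop, ∀ I, Ind I ↔ (M.Indep (I \ {p}) ∧
    (p ∈ I → ¬ F ⊆ M.closure (I \ {p}))) := ⟨_, fun _ => Iff.rfl⟩
  have hpI : ∀ {I : Set γ}, M.Indep I → p ∉ I := fun h h' => hp (h.subset_ground h')
  have hnp : ∀ {I : Set γ}, p ∉ I → I \ {p} = I := fun h => sdiff_singleton_eq_self h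
  have hnp2 : ∀ {I : Set γ}, p ∉ I → (insert p I) \ {p} = I := fun {I} h => by
    rw [insert_sdiff_of_mem _ (mem_singleton p), hnp h]
  have h1 : ∀ I, p ∉ I → (Ind I ↔ M.Indep I) := by
    intro I hI
    rw [hInd, hnp hI]
    exact ⟨fun h => h.1, fun h => ⟨h, fun h' => absurd h' hI⟩⟩
  have h2 : ∀ I, p ∉ I → (Ind (insert p I) ↔ (M.Indep I ∧ ¬ F ⊆ M.closure I)) := by
    intro I hI
    rw [hInd, hnp2 hI]
    exact ⟨fun h => ⟨h.1, h.2 (mem_insert _ _)⟩, fun h => ⟨h.1, fun _ => h.2⟩⟩
  have hsub : ∀ I, Ind I → I ⊆ insert p M.E := by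
    intro I hI x hx
    rw [hInd] at hI
    by_cases hxp : x = p
    · exact Or.inl hxp
    · exact Or.inr (hI.1.subset_ground ⟨hx, hxp⟩)
  obtain ⟨IM, hIM, hIM2⟩ : ∃ IM : IndepMatroid γ, IM.Indep = Ind ∧ IM.E = insert p M.E := by
    refine ⟨IndepMatroid.ofFinite (E := insert p M.E) (M.ground_finite.insert p) Ind ?_ ?_ ?_ ?_,
      rfl, rfl⟩
    · rw [h1 _ (notMem_empty p)]
      exact M.empty_indep
    · intro I J hJ hIJ
      rw [hInd] at hJ ⊢
      exact ⟨hJ.1.subset (sdiff_subset_sdiff_left hIJ), fun hpI hF => hJ.2 (hIJ hpI)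
        (hF.trans (M.closure_subset_closure (sdiff_subset_sdiff_left hIJ)))⟩
    · intro I J hI hJ hIJ
      have hIf : I.Finite := (M.ground_finite.insert p).subset (hsub I hI)
      have hJf : J.Finite := (M.ground_finite.insert p).subset (hsub J hJ)
      by_cases hpI : p ∈ I
      · obtain ⟨I₀, hI₀, hpI₀⟩ : ∃ I₀, I = insert p I₀ ∧ p ∉ I₀ :=
          ⟨I \ {p}, (insert_sdiff_self_of_mem hpI).symm, fun h => h.2 rfl⟩
        have hI₀f : I₀.Finite := hIf.subset (by rw [hI₀]; exact subset_insert _ _)
        have hcI : I.ncard = I₀.ncard + 1 := by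
          rw [hI₀, Set.ncard_insert_of_notMem hpI₀ hI₀f]
        subst hI₀
        rw [h2 _ hpI₀] at hI
        by_cases hpJ : p ∈ J
        · obtain ⟨J₀, hJ₀, hpJ₀⟩ : ∃ J₀, J = insert p J₀ ∧ p ∉ J₀ :=
            ⟨J \ {p}, (insert_sdiff_self_of_mem hpJ).symm, fun h => h.2 rfl⟩
          have hJ₀f : J₀.Finite := hJf.subset (by rw [hJ₀]; exact subset_insert _ _)
          have hcJ : J.ncard = J₀.ncard + 1 := by
            rw [hJ₀, Set.ncard_insert_of_notMem hpJ₀ hJ₀f]
          subst hJ₀
          rw [h2 _ hpJ₀] at hJ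
          obtain ⟨e, he, heI, h3, h4⟩ := pex_aug hI.1 hJ.1 hI.2 (Or.inr ⟨by omega, hJ.2⟩)
          have hep : e ≠ p := fun h => hpJ₀ (h ▸ he)
          refine ⟨e, Or.inr he, ?_, ?_⟩
          · rintro (h | h)
            · exact hep h
            · exact heI h
          · rw [insert_comm, h2 _ (by
              rintro (h | h)
              · exact hep h.symm
              · exact hpI₀ h)]
            exact ⟨h3, h4⟩
        · rw [h1 _ hpJ] at hJ
          obtain ⟨e, he, heI, h3, h4⟩ := pex_aug hI.1 hJ hI.2 (Or.inl (by omega))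
          have hep : e ≠ p := fun h => hpJ (h ▸ he)
          refine ⟨e, he, ?_, ?_⟩
          · rintro (h | h)
            · exact hep h
            · exact heI h
          · rw [insert_comm, h2 _ (by
              rintro (h | h)
              · exact hep h.symm
              · exact hpI₀ h)]
            exact ⟨h3, h4⟩
      · rw [h1 _ hpI] at hI
        by_cases hpJ : p ∈ J
        · obtain ⟨J₀, hJ₀, hpJ₀⟩ : ∃ J₀, J = insert p J₀ ∧ p ∉ J₀ :=
            ⟨J \ {p}, (insert_sdiff_self_of_mem hpJ).symm, fun h => h.2 rfl⟩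
          have hJ₀f : J₀.Finite := hJf.subset (by rw [hJ₀]; exact subset_insert _ _)
          have hcJ : J.ncard = J₀.ncard + 1 := by
            rw [hJ₀, Set.ncard_insert_of_notMem hpJ₀ hJ₀f]
          subst hJ₀
          rw [h2 _ hpJ₀] at hJ
          by_cases hFI : F ⊆ M.closure I
          · -- an element of `J₀` outside of the closure of `I`
            have hex : ∃ e ∈ J₀, e ∉ M.closure I := by
              by_contra hall
              push Not at hall
              have h3 : I ⊆ M.closure J₀ := sub_closure_of_card hJ.1 hall hI.subset_ground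
                (by omega)
              exact hJ.2 (hFI.trans (M.closure_subset_closure_of_subset_closure h3))
            obtain ⟨e, he, heI⟩ := hex
            have heI' : e ∉ I := fun h => heI (M.subset_closure I hI.subset_ground h)
            have hep : e ≠ p := fun h => hpJ₀ (h ▸ he)
            refine ⟨e, Or.inr he, heI', ?_⟩
            rw [h1 _ (by
              rintro (h | h)
              · exact hep h.symm
              · exact hpI h)]
            exact (hI.insert_indep_iff_of_notMem heI').2 ⟨hJ.1.subset_ground he, heI⟩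
          · exact ⟨p, mem_insert _ _, hpI, by rw [h2 _ hpI]; exact ⟨hI, hFI⟩⟩
        · rw [h1 _ hpJ] at hJ
          obtain ⟨e, he, h3⟩ := hI.augment hJ (by
            rw [← hIf.cast_ncard_eq, ← hJf.cast_ncard_eq]
            exact_mod_cast hIJ)
          refine ⟨e, he.1, he.2, ?_⟩
          rw [h1 _ (by
            rintro (h | h)
            · exact hpJ (h ▸ he.1)
            · exact hpI h)]
          exact h3
    · exact fun I hI => hsub I hI
  have hE : IM.matroid.E = insert p M.E := hIM2
  have hi : ∀ I, IM.matroid.Indep I ↔ Ind I := fun I => by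
    rw [IndepMatroid.matroid_Indep, hIM]
  have hfin : IM.matroid.Finite := ⟨by rw [hE]; exact M.ground_finite.insert p⟩
  have hdel : IM.matroid ＼ {p} = M := by
    refine Matroid.ext_indep ?_ ?_
    · rw [Matroid.delete_ground, hE, insert_sdiff_of_mem _ (mem_singleton p), hnp hp]
    · intro I hI
      rw [Matroid.delete_indep_iff, hi]
      have hpI' : p ∉ I := fun h => (hI h).2 rfl
      rw [h1 I hpI']
      exact ⟨fun h => h.1, fun h => ⟨h, disjoint_singleton_right.2 hpI'⟩⟩
  refine ⟨IM.matroid, hp, by rw [hE]; exact mem_insert _ _, hdel, ?_⟩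
  intro X hX
  obtain ⟨B, hB⟩ := M.exists_isBasis X hX
  have hpB : p ∉ B := fun h => hp (hX (hB.subset h))
  have hB' : IM.matroid.IsBasis B X := by
    have h3 := hB
    rw [← hdel, Matroid.delete_isBasis_iff] at h3
    exact h3.1
  rw [← hB'.closure_eq_closure, ← hB.closure_eq_closure]
  have h3 : IM.matroid.Indep B := hB'.indep
  have h4 := h3.insert_indep_iff_of_notMem hpB
  rw [hi, h2 _ hpB] at h4
  have h5 : p ∈ IM.matroid.E := by rw [hE]; exact mem_insert _ _
  constructor
  · intro h6
    by_contra hF
    exact (h4.1 ⟨hB.indep, hF⟩).2 h6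
  · intro hF
    by_contra h6
    exact (h4.2 ⟨h5, h6⟩).2 hF

namespace PEx

variable {M M' : Matroid γ} {F : Set γ} {p : γ}

lemma ground (h : PEx M M' F p) : M'.E = insert p M.E := by
  have h1 := congrArg Matroid.E h.del
  rw [Matroid.delete_ground] at h1
  rw [← h1, insert_sdiff_self_of_mem h.pE]

lemma fin (h : PEx M M' F p) [M.Finite] : M'.Finite := ⟨by
  rw [h.ground]; exact M.ground_finite.insert p⟩

lemma sub (h : PEx M M' F p) {X : Set γ} (hX : X ⊆ M.E) : X ⊆ M'.E := by
  rw [h.ground]; exact hX.trans (subset_insert _ _)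

lemma closure_old (h : PEx M M' F p) {X : Set γ} {e : γ} (hX : X ⊆ M.E) (he : e ∈ M.E) :
    e ∈ M'.closure X ↔ e ∈ M.closure X := by
  have hep : e ≠ p := fun h' => h.np (h' ▸ he)
  have hXp : X \ {p} = X := sdiff_singleton_eq_self fun h' => h.np (hX h')
  conv_rhs => rw [← h.del, Matroid.delete_closure_eq, hXp]
  exact ⟨fun h' => ⟨h', hep⟩, fun h' => h'.1⟩

lemma rk_old (h : PEx M M' F p) {X : Set γ} (hX : X ⊆ M.E) : M'.eRk X = M.eRk X := by
  conv_rhs => rw [← h.del]
  rw [Matroid.delete_eq_restrict, Matroid.restrict_eRk_eq]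
  intro x hx
  exact ⟨h.sub hX hx, fun h' => h.np ((mem_singleton_iff.1 h') ▸ hX hx)⟩

lemma indep_old (h : PEx M M' F p) {I : Set γ} (hI : p ∉ I) : M'.Indep I ↔ M.Indep I := by
  conv_rhs => rw [← h.del]
  rw [Matroid.delete_indep_iff]
  exact ⟨fun h' => ⟨h', disjoint_singleton_right.2 hI⟩, fun h' => h'.1⟩

lemma indep_new (h : PEx M M' F p) {I : Set γ} (hI : p ∉ I) :
    M'.Indep (insert p I) ↔ M.Indep I ∧ ¬ F ⊆ M.closure I := by
  constructor
  · intro h1
    have h2 : M.Indep I := (h.indep_old hI).1 (h1.subset (subset_insert _ _))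
    refine ⟨h2, fun hF => ?_⟩
    have h3 : M'.Indep I := (h.indep_old hI).2 h2
    exact ((h3.insert_indep_iff_of_notMem hI).1 h1).2 ((h.clo I h2.subset_ground).2 hF)
  · rintro ⟨h2, hF⟩
    exact ((h.indep_old hI).2 h2 |>.insert_indep_iff_of_notMem hI).2
      ⟨h.pE, fun h3 => hF ((h.clo I h2.subset_ground).1 h3)⟩

lemma mem_self (h : PEx M M' F p) (hF : F ⊆ M.E) : p ∈ M'.closure F :=
  (h.clo F hF).2 (M.subset_closure F hF)

lemma contract (h : PEx M M' F p) {X : Set γ} (hX : X ⊆ M.E) (hFX : Disjoint F X) :
    PEx (M ／ X) (M' ／ X) F p := by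
  have hpX : p ∉ X := fun h' => h.np (hX h')
  refine ⟨fun h' => h.np h'.1, ⟨h.pE, hpX⟩, ?_, ?_⟩
  · rw [← h.del, M'.contract_delete_comm (disjoint_singleton_right.2 hpX)]
  · intro Y hY
    have hYX : Y ∪ X ⊆ M.E := union_subset (hY.trans sdiff_subset) hX
    rw [Matroid.contract_closure_eq, Matroid.contract_closure_eq]
    constructor
    · rintro ⟨h1, _⟩
      exact fun x hx => ⟨(h.clo _ hYX).1 h1 hx, Set.disjoint_left.1 hFX hx⟩
    · intro h1
      exact ⟨(h.clo _ hYX).2 fun x hx => (h1 hx).1, hpX⟩

end PEx

section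

variable {V : Type*} {P P' : Matroid γ} {T : Set γ} {ends : γ → Sym2 V} {p a b : γ} {x y : V}

/-- The element in general position on the line of two half edges is an edge. -/
lemma PEx.bic_edge (h : PEx P P' {a, b} p) (hB : Bic P T ends) (ha : a ∈ T) (hb : b ∈ T)
    (hea : ends a = s(x, x)) (heb : ends b = s(y, y)) (hep : ends p = s(x, y)) :
    Bic P' (insert p T) ends := by
  classical
  have hpT : p ∉ T := fun h' => h.np (hB.sub h')
  refine ⟨?_, ?_, ?_⟩
  · exact insert_subset h.pE (h.sub hB.sub)
  · intro I φ hI hφ hφe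
    by_cases hpI : p ∈ I
    · obtain ⟨I₀, rfl, hpI₀⟩ : ∃ I₀, I = insert p I₀ ∧ p ∉ I₀ :=
        ⟨I \ {p}, (insert_sdiff_self_of_mem hpI).symm, fun h => h.2 rfl⟩
      have hI₀ : I₀ ⊆ T := by
        intro e he
        rcases hI (Or.inr he) with h1 | h1
        · exact absurd (h1 ▸ he) hpI₀
        · exact h1
      have hi : P.Indep I₀ := hB.ind I₀ φ hI₀ (hφ.mono (subset_insert _ _))
        fun e he => hφe e (Or.inr he)
      rw [h.indep_new hpI₀]
      refine ⟨hi, fun hF => ?_⟩
      -- the half edge at the end `φ p`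
      have key : ∀ (g : γ) (z : V), g ∈ T → ends g = s(z, z) → φ p = z →
          g ∈ P.closure I₀ → False := by
        intro g z hg hez hz hcl
        have hgI : g ∉ I₀ := by
          intro hgI
          have h1 := hφe g (Or.inr hgI)
          rw [hez, Sym2.mem_iff, or_self] at h1
          have h2 := hφ (Or.inr hgI) (Or.inl rfl) (by rw [h1, hz])
          exact hpI₀ (h2 ▸ hgI)
        have h2 : P.Indep (insert g I₀) := by
          refine hB.ind _ (Function.update φ g z) (insert_subset hg hI₀) ?_ ?_
          · intro e he e' he' hee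
            rcases he with rfl | he <;> rcases he' with rfl | he'
            · rfl
            · have hne : e' ≠ e := fun h => hgI (h ▸ he')
              rw [Function.update_self, Function.update_of_ne hne, ← hz] at hee
              have h3 := hφ (Or.inl rfl) (Or.inr he') hee
              exact absurd (h3 ▸ he') hpI₀
            · have hne : e ≠ e' := fun h => hgI (h ▸ he)
              rw [Function.update_self, Function.update_of_ne hne, ← hz] at hee
              have h3 := hφ (Or.inr he) (Or.inl rfl) hee
              exact absurd (h3 ▸ he) hpI₀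
            · have hne : e ≠ g := fun h => hgI (h ▸ he)
              have hne' : e' ≠ g := fun h => hgI (h ▸ he')
              rw [Function.update_of_ne hne, Function.update_of_ne hne'] at hee
              exact hφ (Or.inr he) (Or.inr he') hee
          · intro e he
            rcases he with rfl | he
            · rw [Function.update_self, hez]
              exact Sym2.mem_mk_left _ _
            · have hne : e ≠ g := fun h => hgI (h ▸ he)
              rw [Function.update_of_ne hne]
              exact hφe e (Or.inr he)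
        exact ((hi.insert_indep_iff_of_notMem hgI).1 h2).2 hcl
      have h1 := hφe p (Or.inl rfl)
      rw [hep, Sym2.mem_iff] at h1
      rcases h1 with h1 | h1
      · exact key a x ha hea h1 (hF (Or.inl rfl))
      · exact key b y hb heb h1 (hF (Or.inr rfl))
    · have hI₀ : I ⊆ T := by
        intro e he
        rcases hI he with h1 | h1
        · exact absurd (h1 ▸ he) hpI
        · exact h1
      exact (h.indep_old hpI).2 (hB.ind I φ hI₀ hφ hφe)
  · intro W
    have h1 := hB.rk W
    have h2 : ins T ends W ⊆ P.E := fun e he => hB.sub he.1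
    by_cases hpW : ∀ v ∈ ends p, v ∈ W
    · have haW : a ∈ ins T ends W := ⟨ha, fun v hv => by
        rw [hea, Sym2.mem_iff, or_self] at hv
        rw [hv]
        exact hpW x (by rw [hep]; exact Sym2.mem_mk_left _ _)⟩
      have hbW : b ∈ ins T ends W := ⟨hb, fun v hv => by
        rw [heb, Sym2.mem_iff, or_self] at hv
        rw [hv]
        exact hpW y (by rw [hep]; exact Sym2.mem_mk_right _ _)⟩
      have h3 : p ∈ P'.closure (ins T ends W) := by
        rw [h.clo _ h2]
        refine (pair_subset haW hbW).trans (P.subset_closure _ h2)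
      have h4 : ins (insert p T) ends W ⊆ P'.closure (ins T ends W) := by
        rintro e ⟨he, hv⟩
        rcases he with rfl | he
        · exact h3
        · exact P'.subset_closure _ (h.sub h2) ⟨he, hv⟩
      refine (P'.eRk_mono h4).trans ?_
      rw [P'.eRk_closure_eq, h.rk_old h2]
      exact h1
    · have h3 : ins (insert p T) ends W = ins T ends W := by
        ext e
        constructor
        · rintro ⟨he, hv⟩
          rcases he with rfl | he
          · exact absurd hv hpW
          · exact ⟨he, hv⟩
        · exact fun he => ⟨Or.inr he.1, he.2⟩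
      rw [h3, h.rk_old h2]
      exact h1

/-- A coloop at a new vertex is a half edge. -/
lemma PEx.bic_coloop (h : PEx P P' {p} p) (hB : Bic P T ends) (hep : ends p = s(x, x))
    (hT : ∀ e ∈ T, x ∉ ends e) : Bic P' (insert p T) ends := by
  have hpE : ¬ ({p} : Set γ) ⊆ P.E := fun h' => h.np (h' rfl)
  refine ⟨insert_subset h.pE (h.sub hB.sub), ?_, ?_⟩
  · intro I φ hI hφ hφe
    by_cases hpI : p ∈ I
    · obtain ⟨I₀, rfl, hpI₀⟩ : ∃ I₀, I = insert p I₀ ∧ p ∉ I₀ :=
        ⟨I \ {p}, (insert_sdiff_self_of_mem hpI).symm, fun h => h.2 rfl⟩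
      have hI₀ : I₀ ⊆ T := by
        intro e he
        rcases hI (Or.inr he) with h1 | h1
        · exact absurd (h1 ▸ he) hpI₀
        · exact h1
      have hi : P.Indep I₀ := hB.ind I₀ φ hI₀ (hφ.mono (subset_insert _ _))
        fun e he => hφe e (Or.inr he)
      rw [h.indep_new hpI₀]
      exact ⟨hi, fun hF => hpE (hF.trans (P.closure_subset_ground _))⟩
    · have hI₀ : I ⊆ T := by
        intro e he
        rcases hI he with h1 | h1
        · exact absurd (h1 ▸ he) hpI
        · exact h1
      exact (h.indep_old hpI).2 (hB.ind I φ hI₀ hφ hφe)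
  · intro W
    have h2 : ∀ W, ins T ends W ⊆ P.E := fun W e he => hB.sub he.1
    by_cases hpW : x ∈ W
    · have h3 : ins (insert p T) ends W ⊆ insert p (ins T ends (W \ {x})) := by
        rintro e ⟨he, hv⟩
        rcases he with rfl | he
        · exact Or.inl rfl
        · exact Or.inr ⟨he, fun v hv' => ⟨hv v hv', fun h' => hT e he ((mem_singleton_iff.1 h')
            ▸ hv')⟩⟩
      refine (P'.eRk_mono h3).trans ((P'.eRk_insert_le_add_one _ _).trans ?_)
      rw [h.rk_old (h2 _), ← Set.encard_sdiff_singleton_add_one hpW]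
      gcongr
      exact hB.rk _
    · have h3 : ins (insert p T) ends W = ins T ends W := by
        ext e
        constructor
        · rintro ⟨he, hv⟩
          rcases he with rfl | he
          · exact absurd (hv x (by rw [hep]; exact Sym2.mem_mk_left _ _)) hpW
          · exact ⟨he, hv⟩
        · exact fun he => ⟨Or.inr he.1, he.2⟩
      rw [h3, h.rk_old (h2 _)]
      exact hB.rk W

end

/-- Half edges at the vertices of `A` are added. -/
def ColStep (V : Type v) (P P' : Matroid γ) (A : Finset γ) : Prop :=
  ∀ X ⊆ P.E, ∀ (T : Set γ) (ends : γ → Sym2 V),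
    (∀ p ∈ A, ∃ x, ends p = s(x, x) ∧ (∀ e ∈ T, x ∉ ends e)) → InjOn ends (A : Set γ) →
    Bic (P ／ X) T ends → Bic (P' ／ X) (T ∪ A) ends

/-- Edges on the lines of half edges are added. -/
def EdgStep (V : Type v) (P P' : Matroid γ) (A : Finset γ) (a b : γ → γ) : Prop :=
  ∀ X ⊆ P.E, ∀ (T : Set γ) (ends : γ → Sym2 V),
    (∀ p ∈ A, a p ∈ T ∧ b p ∈ T ∧ a p ∉ X ∧ b p ∉ X ∧
      ∃ x y, ends (a p) = s(x, x) ∧ ends (b p) = s(y, y) ∧ ends p = s(x, y)) →
    Bic (P ／ X) T ends → Bic (P' ／ X) (T ∪ A) ends

lemma ColStep.empty (V : Type v) (P : Matroid γ) : ColStep V P P ∅ := by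
  intro X _ T ends _ _ hB
  simpa using hB

lemma EdgStep.empty (V : Type v) (P : Matroid γ) (a b : γ → γ) : EdgStep V P P ∅ a b := by
  intro X _ T ends _ hB
  simpa using hB

open Classical in
lemma ColStep.insert {V : Type v} {P P₁ P' : Matroid γ} {A : Finset γ} {p : γ}
    (hs : ColStep V P P₁ A) (h : PEx P₁ P' {p} p) (hE : P.E ⊆ P₁.E) (hpA : p ∉ A) :
    ColStep V P P' (insert p A) := by
  have hp := h.np
  intro X hX T ends hT hinj hB
  have h1 := hs X hX T ends (fun q hq => hT q (Finset.mem_insert_of_mem hq))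
    (hinj.mono (by
      rw [Finset.coe_insert]
      exact subset_insert _ _)) hB
  obtain ⟨x, hx, hxT⟩ := hT p (Finset.mem_insert_self _ _)
  have hXE : X ⊆ P₁.E := hX.trans hE
  have h2 := (h.contract hXE (disjoint_singleton_left.2 fun h' => hp (hXE h')))
  have h3 := h2.bic_coloop h1 hx (by
    rintro e (he | he)
    · exact hxT e he
    · intro hxe
      obtain ⟨x', hx', _⟩ := hT e (Finset.mem_insert_of_mem he)
      rw [hx', Sym2.mem_iff, or_self] at hxe
      have h3 := hinj (by rw [Finset.coe_insert]; exact Or.inr he)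
        (by rw [Finset.coe_insert]; exact Or.inl rfl) (show ends e = ends p by
          rw [hx', hx, hxe])
      exact hpA (h3 ▸ he))
  rw [Finset.coe_insert, union_insert]
  exact h3

open Classical in
lemma EdgStep.insert {V : Type v} {P P₁ P' : Matroid γ} {A : Finset γ} {a b : γ → γ} {p : γ}
    (hs : EdgStep V P P₁ A a b) (h : PEx P₁ P' {a p, b p} p) (hE : P.E ⊆ P₁.E) :
    EdgStep V P P' (insert p A) a b := by
  intro X hX T ends hT hB
  have h1 := hs X hX T ends (fun q hq => hT q (Finset.mem_insert_of_mem hq)) hB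
  obtain ⟨haT, hbT, haX, hbX, x, y, hx, hy, hxy⟩ := hT p (Finset.mem_insert_self _ _)
  have hXE : X ⊆ P₁.E := hX.trans hE
  have h2 := (h.contract hXE (by
    rw [Set.disjoint_left]
    rintro e (rfl | he)
    · exact haX
    · rw [mem_singleton_iff.1 he]
      exact hbX))
  have h3 := h2.bic_edge h1 (Or.inl haT) (Or.inl hbT) hx hy hxy
  rw [Finset.coe_insert, union_insert]
  exact h3

/-- Coloops at new vertices. -/
theorem pex_coloops (A : Finset γ) (P : Matroid γ) [P.Finite] (hA : ∀ p ∈ A, p ∉ P.E) :
    ∃ P' : Matroid γ, P'.Finite ∧ P'.E = P.E ∪ A ∧ P' ＼ (A : Set γ) = P ∧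
      (∀ X ⊆ P.E, rk P' (X ∪ A) = rk P X + A.card) ∧
      (∀ V : Type, ColStep V P P' A) ∧ ∀ V : Type v, ColStep V P P' A := by
  classical
  induction A using Finset.induction_on with
  | empty =>
    exact ⟨P, inferInstance, by simp, by simp, by simp, fun V => ColStep.empty V P,
      fun V => ColStep.empty V P⟩
  | insert p A hpA ih =>
    obtain ⟨P₁, hf₁, hE₁, hd₁, hr₁, hB₁, hB₂⟩ := ih fun q hq => hA q (Finset.mem_insert_of_mem hq)
    have hp : p ∉ P₁.E := by
      rw [hE₁]
      rintro (h | h)
      · exact hA p (Finset.mem_insert_self _ _) h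
      · exact hpA h
    obtain ⟨P', h⟩ := exists_pex P₁ {p} p hp
    have hf : P'.Finite := h.fin
    have hpF : ¬ ({p} : Set γ) ⊆ P₁.E := fun h' => hp (h' rfl)
    have hPP : P.E ⊆ P₁.E := by
      rw [hE₁]
      exact subset_union_left
    refine ⟨P', hf, ?_, ?_, ?_, fun V => (hB₁ V).insert h hPP hpA,
      fun V => (hB₂ V).insert h hPP hpA⟩
    · rw [h.ground, hE₁, Finset.coe_insert]
      ext e
      simp only [mem_insert_iff, mem_union]
      tauto
    · have h1 : P' ＼ (((insert p A : Finset γ)) : Set γ) = (P' ＼ {p}) ＼ (A : Set γ) := by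
        rw [Matroid.delete_delete, Finset.coe_insert]
        rfl
      rw [h1, h.del, hd₁]
    · intro X hX
      have hXA : X ∪ A ⊆ P₁.E := by
        rw [hE₁]
        exact union_subset_union_left _ hX
      obtain ⟨B, hB⟩ := P₁.exists_isBasis (X ∪ A) hXA
      have hpB : p ∉ B := fun h' => hp (hXA (hB.subset h'))
      have hi : P'.Indep (insert p B) := by
        rw [h.indep_new hpB]
        exact ⟨hB.indep, fun hF => hpF (hF.trans (P₁.closure_subset_ground _))⟩
      have hBf : B.Finite := P₁.ground_finite.subset hB.indep.subset_ground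
      have h1 : rk P' (X ∪ ((insert p A : Finset γ) : Set γ)) = (insert p B).ncard := by
        rw [← rk_indep hi]
        refine le_antisymm ?_ ?_
        · have h2 : X ∪ ((insert p A : Finset γ) : Set γ) ⊆ P'.closure (insert p B) := by
            rw [Finset.coe_insert]
            have h3 : X ∪ A ⊆ P'.closure (insert p B) := by
              intro e he
              refine P'.closure_subset_closure (subset_insert p B) ?_
              rw [h.closure_old hB.indep.subset_ground (hXA he)]
              exact hB.subset_closure he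
            rintro e (he | he | he)
            · exact h3 (Or.inl he)
            · rw [he]
              exact P'.subset_closure _ hi.subset_ground (mem_insert _ _)
            · exact h3 (Or.inr he)
          calc rk P' (X ∪ ((insert p A : Finset γ) : Set γ)) ≤ rk P' (P'.closure (insert p B)) :=
                rk_mono _ h2
            _ = rk P' (insert p B) := rk_closure _
        · refine rk_mono _ ?_
          rw [Finset.coe_insert]
          rintro e (rfl | he)
          · exact Or.inr (Or.inl rfl)
          · rcases hB.subset he with h2 | h2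
            · exact Or.inl h2
            · exact Or.inr (Or.inr h2)
      have h2 : rk P₁ (X ∪ A) = B.ncard := by
        rw [← rk_indep hB.indep]
        refine le_antisymm ?_ (rk_mono _ hB.subset)
        calc rk P₁ (X ∪ A) ≤ rk P₁ (P₁.closure B) := rk_mono _ hB.subset_closure
          _ = rk P₁ B := rk_closure _
      rw [h1, Set.ncard_insert_of_notMem hpB hBf, Finset.card_insert_of_notMem hpA, ← add_assoc,
        ← hr₁ X hX, h2]

/-- Edges on the lines of half edges. -/
theorem pex_edges (A : Finset γ) (P : Matroid γ) [P.Finite] (hA : ∀ p ∈ A, p ∉ P.E)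
    (a b : γ → γ) (ha : ∀ p ∈ A, a p ∈ P.E) (hb : ∀ p ∈ A, b p ∈ P.E) :
    ∃ P' : Matroid γ, P'.Finite ∧ P'.E = P.E ∪ A ∧ P' ＼ (A : Set γ) = P ∧
      (∀ p ∈ A, ∀ X ⊆ P.E, (p ∈ P'.closure X ↔ {a p, b p} ⊆ P.closure X)) ∧
      (∀ V : Type, EdgStep V P P' A a b) ∧ ∀ V : Type v, EdgStep V P P' A a b := by
  classical
  induction A using Finset.induction_on with
  | empty =>
    exact ⟨P, inferInstance, by simp, by simp, by simp, fun V => EdgStep.empty V P a b,
      fun V => EdgStep.empty V P a b⟩
  | insert p A hpA ih =>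
    obtain ⟨P₁, hf₁, hE₁, hd₁, hc₁, hB₁, hB₂⟩ := ih (fun q hq => hA q (Finset.mem_insert_of_mem hq))
      (fun q hq => ha q (Finset.mem_insert_of_mem hq))
      (fun q hq => hb q (Finset.mem_insert_of_mem hq))
    have hp : p ∉ P₁.E := by
      rw [hE₁]
      rintro (h | h)
      · exact hA p (Finset.mem_insert_self _ _) h
      · exact hpA h
    obtain ⟨P', h⟩ := exists_pex P₁ {a p, b p} p hp
    have hf : P'.Finite := h.fin
    have hFE : ({a p, b p} : Set γ) ⊆ P₁.E := by
      rw [hE₁]
      exact pair_subset (Or.inl (ha p (Finset.mem_insert_self _ _)))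
        (Or.inl (hb p (Finset.mem_insert_self _ _)))
    have hPP : P.E ⊆ P₁.E := by
      rw [hE₁]
      exact subset_union_left
    refine ⟨P', hf, ?_, ?_, ?_, fun V => (hB₁ V).insert h hPP, fun V => (hB₂ V).insert h hPP⟩
    · rw [h.ground, hE₁, Finset.coe_insert]
      ext e
      simp only [mem_insert_iff, mem_union]
      tauto
    · have h1 : P' ＼ (((insert p A : Finset γ)) : Set γ) = (P' ＼ {p}) ＼ (A : Set γ) := by
        rw [Matroid.delete_delete, Finset.coe_insert]
        rfl
      rw [h1, h.del, hd₁]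
    · intro q hq X hX
      have hXE : X ⊆ P₁.E := by
        rw [hE₁]
        exact hX.trans subset_union_left
      have hcl : ∀ e ∈ P.E, (e ∈ P₁.closure X ↔ e ∈ P.closure X) := by
        intro e he
        have he' : e ∉ (A : Set γ) := fun h' => hA e (Finset.mem_insert_of_mem h') he
        have hXA : X \ (A : Set γ) = X := by
          ext x
          exact ⟨fun h' => h'.1, fun h' => ⟨h', fun h'' => hA x (Finset.mem_insert_of_mem h'')
            (hX h')⟩⟩
        conv_rhs => rw [← hd₁, Matroid.delete_closure_eq, hXA]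
        exact ⟨fun h' => ⟨h', he'⟩, fun h' => h'.1⟩
      rcases Finset.mem_insert.1 hq with rfl | hq'
      · rw [h.clo X hXE]
        constructor
        · rintro h1 e (rfl | he)
          · exact (hcl _ (ha _ hq)).1 (h1 (Or.inl rfl))
          · rw [mem_singleton_iff.1 he]
            exact (hcl _ (hb _ hq)).1 (h1 (Or.inr rfl))
        · rintro h1 e (rfl | he)
          · exact (hcl _ (ha _ hq)).2 (h1 (Or.inl rfl))
          · rw [mem_singleton_iff.1 he]
            exact (hcl _ (hb _ hq)).2 (h1 (Or.inr rfl))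
      · rw [← hc₁ q hq' X hX]
        refine h.closure_old hXE ?_
        rw [hE₁]
        exact Or.inr hq'

end DA
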