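import Pool.Agent.DA.OwnTr
import Pool.Agent.DA.HolK
import Pool.Agent.DA.LiftHW

/-!
# Ranks of the region in the contracted matroid (row R8 of T-star, helper94)

`rhol_of_rk`: the rows inside of a region of the wall are a wall with holes (`RHol`) in every matroid
which has the ranks of the lower matroid on them.  `core_con`: from CORE (`holK`) the ranks in `M ／ F`,
skewness of the region and the other rows.
-/

set_option autoImplicit false

open Set BIC BICS
open scoped Matroid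

namespace DA

open CWL TST Gad

universe u

section

variable {α : Type u} {P N : Matroid α} {w w' a u : ℕ} {L : Bool × ℕ × ℕ → List α}
  {f : α → Sym2 ((ℕ × ℕ) ⊕ α)} {e : Bool × ℕ × ℕ → α} {row : α → Sym2 (ℕ × ℕ)}
  {Wd : Set (ℕ × ℕ)} {A : Set (ℕ × ℕ)}

/-- the rows inside of a region as a `SubW` -/
lemma subW_RA (h : GSide P (Seg w) L f e u) (A : Set (ℕ × ℕ)) :
    SubW (crr L (RA w A)) f L (RA w A) where
  ne := fun s hs hn => by
    have := h.last s hs.1
    rw [hn] at this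
    simp at this
  nodup := fun s hs => h.nodup s hs.1
  disj := fun s hs s' hs' hne => h.disj s hs.1 s' hs'.1 hne
  mem := fun _ => Iff.rfl
  end_eq := fun s hs => h.end_eq s hs.1

/-- an element inside of the region -/
lemma mem_RA (hrow : ∀ s ∈ Seg w, ∀ x ∈ L s, row x = srow s) {x : α} (hx : x ∈ crr L (RA w A)) :
    ∃ s ∈ Seg w, x ∈ L s ∧ row x = s(segNear s, segFar s) ∧ segNear s ∈ A ∧ segFar s ∈ A := by
  obtain ⟨s, hs, hxs⟩ := hx
  exact ⟨s, hs.1, hxs, hrow s hs.1 x hxs, hs.2.1, hs.2.2⟩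

/-- **The region is a wall with holes.** -/
theorem rhol_of_rk [P.Finite] [N.Finite] {M₀ : Matroid α} (h : GSide M₀ (Seg w) L f e u)
    (hN : Bic N (crr L (Seg w)) f) (hrow : ∀ s ∈ Seg w, ∀ x ∈ L s, row x = srow s)
    (haw : a + w' ≤ w) (hSE : crr L (RA w (Rg a w' Wd)) ⊆ P.E)
    (hrk : ∀ X ⊆ crr L (RA w (Rg a w' Wd)), rk P X = rk N X) :
    RHol P (crr L (RA w (Rg a w' Wd))) (fun x => (row x).map (shp a)) w' Wd := by
  classical
  obtain ⟨A, hA⟩ : ∃ A, A = Rg a w' Wd := ⟨_, rfl⟩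
  rw [← hA] at hSE hrk ⊢
  have hAle : ∀ v ∈ A, a ≤ v.1 ∧ a ≤ v.2 := fun v hv => Rg.le (by rw [hA] at hv; exact hv)
  have hRS : crr L (RA w A) ⊆ crr L (Seg w) := crr_mono fun s hs => hs.1
  have hends : ∀ x ∈ crr L (RA w A), ∀ v ∈ row x, v ∈ A := by
    intro x hx v hv
    obtain ⟨s, hs, hxs, h1, h2, h3⟩ := mem_RA hrow hx
    rw [h1] at hv
    rcases Sym2.mem_iff.1 hv with rfl | rfl
    exacts [h2, h3]
  refine ⟨hSE, ?_, ?_, ?_⟩
  · intro x hx
    obtain ⟨s, hs, hxs, h1, h2, h3⟩ := mem_RA hrow hx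
    have k1 := (wadj_srow hs).1
    refine ⟨shp a (segNear s), shp a (segFar s), by rw [h1, Sym2.map_mk],
      (shp_wadj (hAle _ h2) (hAle _ h3)).2 k1, ?_, ?_⟩
    · rw [hA] at h2
      exact h2.2.2
    · rw [hA] at h3
      exact h3.2.2
  · intro p q hpq hp hq
    have h1 := mem_Rg_of (a := a) hp
    have h2 := mem_Rg_of (a := a) hq
    have h3 : wadj (p.1 + a, p.2 + a) (q.1 + a, q.2 + a) := by
      rw [← shp_wadj (Rg.le h1) (Rg.le h2), shp_add, shp_add]
      exact hpq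
    obtain ⟨s, hs, hsr⟩ := seg_of_wadj h3 (Rg.rect h1 haw) (Rg.rect h2 haw)
    have hl := h.mem_last hs
    have hmem : ∀ v ∈ srow s, v ∈ A := by
      intro v hv
      rw [hsr] at hv
      rw [hA]
      rcases Sym2.mem_iff.1 hv with rfl | rfl
      exacts [h1, h2]
    refine ⟨e s, ⟨s, ⟨hs, hmem _ (Sym2.mem_mk_left _ _), hmem _ (Sym2.mem_mk_right _ _)⟩, hl⟩, ?_⟩
    rw [hrow s hs _ hl, hsr, Sym2.map_mk, shp_add, shp_add]
  · intro c hc hcW
    obtain ⟨S', hS'⟩ : ∃ S', S' = crr L (RA w A) := ⟨_, rfl⟩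
    rw [← hS'] at hc hSE hrk hRS hends ⊢
    -- representatives
    have hrep : ∀ s, ∃ x, s ∈ RA w A → x ∈ c ∧ x ∈ L s := by
      intro s
      by_cases hs : s ∈ RA w A
      · have k1 := (wadj_srow hs.1).1
        have k2 := hs.2.1
        have k3 := hs.2.2
        have k2' := k2
        have k3' := k3
        rw [hA] at k2' k3'
        obtain ⟨x, hx, hxr⟩ := hcW.surj _ _ ((shp_wadj (hAle _ k2) (hAle _ k3)).2 k1) k2'.2.2
          k3'.2.2
        have hxS := hc hx
        rw [hS'] at hxS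
        obtain ⟨s', hs', hxs, h1, h2, h3⟩ := mem_RA hrow hxS
        have h4 : srow s' = srow s := by
          refine shp_map (a := a) ?_ ?_ ?_
          · intro v hv
            exact hAle v (hends x (hc hx) v (by rw [h1]; exact hv))
          · intro v hv
            rcases Sym2.mem_iff.1 hv with rfl | rfl
            exacts [hAle _ k2, hAle _ k3]
          · rw [← hrow s' hs' x hxs]
            exact hxr
        exact ⟨x, fun _ => ⟨hx, by rw [← srow_inj h4]; exact hxs⟩⟩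
      · exact ⟨e s, fun h' => absurd h' hs⟩
    choose r hr using hrep
    have hrc : r '' RA w A = c := by
      ext x
      constructor
      · rintro ⟨s, hs, rfl⟩
        exact (hr s hs).1
      · intro hx
        have hxS := hc hx
        rw [hS'] at hxS
        obtain ⟨s, hs, hxs⟩ := hxS
        refine ⟨s, hs, hcW.inj (hr s hs).1 hx ?_⟩
        rw [hrow s hs.1 _ (hr s hs).2, hrow s hs.1 _ hxs]
    have hfin : (RA w A).Finite := (Seg_finite w).subset fun s hs => hs.1
    have hNS : Bic N S' f := bic_mono hN hRS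
    have hsw := subW_RA h A
    rw [← hS'] at hsw
    obtain ⟨g, hg1, hg2⟩ := con_repsS (M := N) hfin hsw (bicU_zero hNS) (r := r)
      fun s hs => (hr s hs).2
    rw [hrc] at hg1
    have hB := hg1.bic
    have hgr : ∀ x ∈ c, g x = (row x).map Sum.inl := by
      intro x hx
      rw [← hrc] at hx
      obtain ⟨s, hs, rfl⟩ := hx
      rw [hg2 s hs, hrow s hs.1 _ (hr s hs).2]
      rfl
    -- from `g` to the shifted rows
    obtain ⟨up, hup⟩ : ∃ up : ℕ × ℕ → (ℕ × ℕ) ⊕ α, ∀ v, up v = Sum.inl (v.1 + a, v.2 + a) :=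
      ⟨fun v => Sum.inl (v.1 + a, v.2 + a), fun _ => rfl⟩
    have hupi : Function.Injective up := by
      intro v v' hv
      rw [hup, hup] at hv
      have h1 := Sum.inl_injective hv
      rw [Prod.mk.injEq] at h1
      ext <;> omega
    have hups : ∀ v, a ≤ v.1 ∧ a ≤ v.2 → up (shp a v) = Sum.inl v := by
      intro v hv
      rw [hup]
      unfold shp
      congr 1
      ext <;> simp only <;> omega
    have hBN : Bic (N ／ (S' \ c)) c (fun x => (row x).map (shp a)) := by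
      refine ⟨hB.sub, fun F φ hF hφ hφe => ?_, fun W => ?_⟩
      · refine hB.ind F (fun x => up (φ x)) hF (fun x hx y hy hxy => hφ hx hy (hupi hxy)) ?_
        intro x hx
        obtain ⟨v, hv, hve⟩ := Sym2.mem_map.1 (hφe x hx)
        rw [hgr x (hF hx), ← hve, hups v (hAle v (hends x (hc (hF hx)) v hv))]
        exact Sym2.mem_map.2 ⟨v, hv, rfl⟩
      · have h1 := hB.rk (up '' W)
        rw [hupi.encard_image] at h1
        refine le_trans (Matroid.eRk_mono _ ?_) h1
        rintro x ⟨hx, hxW⟩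
        refine ⟨hx, fun v hv => ?_⟩
        rw [hgr x hx, Sym2.mem_map] at hv
        obtain ⟨v', hv', rfl⟩ := hv
        exact ⟨shp a v', hxW _ (Sym2.mem_map.2 ⟨v', hv', rfl⟩),
          hups v' (hAle v' (hends x (hc hx) v' hv'))⟩
    -- from `N` to `P`
    have hf1 : (P ／ (S' \ c)).Finite := BQ.fin_contract _
    have hf2 : (N ／ (S' \ c)).Finite := BQ.fin_contract _
    have hNE : S' ⊆ N.E := hNS.sub
    have hcE : ∀ X ⊆ c, X ⊆ P.E \ (S' \ c) := fun X hX x hx => ⟨hSE (hc (hX hx)),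
      fun h' => h'.2 (hX hx)⟩
    have hcN : ∀ X ⊆ c, X ⊆ N.E \ (S' \ c) := fun X hX x hx => ⟨hNE (hc (hX hx)),
      fun h' => h'.2 (hX hx)⟩
    refine Bic_of_rk hBN (hcE c Subset.rfl) fun X hX => ?_
    have h1 := BQ.rk_con (M := P) (sdiff_subset.trans hSE) (hcE X hX)
    have h2 := BQ.rk_con (M := N) (sdiff_subset.trans hNE) (hcN X hX)
    have h3 := hrk (X ∪ S' \ c) (union_subset (hX.trans hc) sdiff_subset)
    have h4 := hrk (S' \ c) sdiff_subset
    omega

end

section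

variable {α : Type u} {M N : Matroid α} {S' F Y : Set α}

/-- **Ranks after the contraction of `F`**: from CORE for `F` and for `F ∪ Y`. -/
theorem core_con [M.Finite] (hFE : F ⊆ M.E) (hSE : S' ⊆ M.E) (hYE : Y ⊆ M.E)
    (hdS : Disjoint S' F) (hdY : Disjoint Y F)
    (h1 : ∀ X ⊆ S', rk M (X ∪ F) = rk M F + rk N X)
    (h2 : ∀ X ⊆ S', rk M (X ∪ (Y ∪ F)) = rk M (Y ∪ F) + rk N X) :
    (∀ X ⊆ S', rk (M ／ F) X = rk N X) ∧
      ∀ X ⊆ S', rk (M ／ F) (X ∪ Y) = rk (M ／ F) X + rk (M ／ F) Y := by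
  have hf : (M ／ F).Finite := BQ.fin_contract _
  have hsub : ∀ Z : Set α, Z ⊆ M.E → Disjoint Z F → Z ⊆ M.E \ F := fun Z hZ hd x hx =>
    ⟨hZ hx, Set.disjoint_left.1 hd hx⟩
  have e1 : ∀ X ⊆ S', rk (M ／ F) X = rk N X := by
    intro X hX
    have k1 := BQ.rk_con (M := M) hFE (hsub X (hX.trans hSE) (hdS.mono_left hX))
    have k2 := h1 X hX
    omega
  refine ⟨e1, fun X hX => ?_⟩
  have k1 := BQ.rk_con (M := M) hFE (hsub Y hYE hdY)
  have k2 := BQ.rk_con (M := M) hFE (hsub (X ∪ Y) (union_subset (hX.trans hSE) hYE)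
    (Set.disjoint_union_left.2 ⟨hdS.mono_left hX, hdY⟩))
  have k3 := h2 X hX
  rw [← union_assoc] at k3
  have k4 := e1 X hX
  omega

end

end DA
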