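import Pool.Agent.DA.Clean

/-!
# Three straight rays in a square; the rest of the square is fat
-/

open Set BIC BICS
open scoped Matroid

namespace DA

open Gad

/-! ### Reaching a face -/

section

variable {W : Set (ℕ × ℕ)} {a b L : ℕ}

/-- Straight down, then to the left. -/
lemma fat_dn {x y : ℕ} (hx : a ≤ x) (hy : b ≤ y) (hcol : ∀ t, b ≤ t → t ≤ y → (x, t) ∈ W)
    (hrow : ∀ t, a ≤ t → t ≤ x → (t, b) ∈ W) (h10 : (a + 1, b) ∈ W) (h01 : (a, b + 1) ∈ W)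
    (h11 : (a + 1, b + 1) ∈ W) : Fat W (x, y) := by
  refine ⟨a, b, hrow a le_rfl hx, h10, h01, h11, ?_⟩
  exact (rch_col (fun t h1 h2 => hcol t (by omega) (by omega))).trans
    (rch_row (fun t h1 h2 => hrow t (by omega) (by omega)))

/-- Straight up to the row `b + 1`, then to the left. -/
lemma fat_ul {x y : ℕ} (hx : a ≤ x) (hy : y ≤ b + 1)
    (hcol : ∀ t, y ≤ t → t ≤ b + 1 → (x, t) ∈ W)
    (hrow : ∀ t, a ≤ t → t ≤ x → (t, b + 1) ∈ W) (h00 : (a, b) ∈ W) (h10 : (a + 1, b) ∈ W)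
    (h11 : (a + 1, b + 1) ∈ W) : Fat W (x, y) := by
  refine ⟨a, b, h00, h10, hrow a le_rfl hx, h11, ?_⟩
  refine (rch_col (fun t h1 h2 => hcol t (by omega) (by omega))).trans
    ((rch_row (x' := a) (fun t h1 h2 => hrow t (by omega) (by omega))).trans ?_)
  refine rch_col (fun t h1 h2 => ?_)
  have : t = b ∨ t = b + 1 := by omega
  rcases this with rfl | rfl
  · exact h00
  · exact hrow a le_rfl hx

/-- Straight up to the row `b + 1`, then to the right. -/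
lemma fat_ur {x y : ℕ} (hx : x ≤ a + 1) (hy : y ≤ b + 1)
    (hcol : ∀ t, y ≤ t → t ≤ b + 1 → (x, t) ∈ W)
    (hrow : ∀ t, x ≤ t → t ≤ a + 1 → (t, b + 1) ∈ W) (h00 : (a, b) ∈ W) (h10 : (a + 1, b) ∈ W)
    (h01 : (a, b + 1) ∈ W) : Fat W (x, y) := by
  refine ⟨a, b, h00, h10, h01, hrow (a + 1) hx le_rfl, ?_⟩
  refine (rch_col (fun t h1 h2 => hcol t (by omega) (by omega))).trans
    ((rch_row (x' := a + 1) (fun t h1 h2 => hrow t (by omega) (by omega))).trans ?_)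
  refine (rch_col (y' := b) (fun t h1 h2 => ?_)).trans (rch_row (fun t h1 h2 => ?_))
  · have : t = b ∨ t = b + 1 := by omega
    rcases this with rfl | rfl
    · exact h10
    · exact hrow (a + 1) hx le_rfl
  · have : t = a ∨ t = a + 1 := by omega
    rcases this with rfl | rfl
    · exact h00
    · exact h10

/-- To the left, then up or down to a face at the left side. -/
lemma fat_l {x y c : ℕ} (hx : a ≤ x) (hrow : ∀ t, a ≤ t → t ≤ x → (t, y) ∈ W)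
    (hcol : ∀ t, min y c ≤ t → t ≤ max y c → (a, t) ∈ W) (h10 : (a + 1, c) ∈ W)
    (h01 : (a, c + 1) ∈ W) (h11 : (a + 1, c + 1) ∈ W) : Fat W (x, y) := by
  refine ⟨a, c, hcol c (by omega) (by omega), h10, h01, h11, ?_⟩
  exact (rch_row (x' := a) (fun t h1 h2 => hrow t (by omega) (by omega))).trans
    (rch_col (fun t h1 h2 => hcol t (by omega) (by omega)))

/-- To the right, then up or down to a face at the right side. -/
lemma fat_r {x y c : ℕ} (hx : x ≤ a) (hrow : ∀ t, x ≤ t → t ≤ a → (t, y) ∈ W)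
    (hcol : ∀ t, min y c ≤ t → t ≤ max y c → (a, t) ∈ W) (h10 : (a + 1, c) ∈ W)
    (h01 : (a, c + 1) ∈ W) (h11 : (a + 1, c + 1) ∈ W) : Fat W (x, y) := by
  refine ⟨a, c, hcol c (by omega) (by omega), h10, h01, h11, ?_⟩
  exact (rch_row (x' := a) (fun t h1 h2 => hrow t (by omega) (by omega))).trans
    (rch_col (fun t h1 h2 => hcol t (by omega) (by omega)))

end

/-! ### The rays -/

/-- The left ray from `(a, b)` in the square with corner `q`. -/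
def R0 (q : ℕ × ℕ) (a b : ℕ) : Set (ℕ × ℕ) := {v | v.2 = b ∧ q.1 ≤ v.1 ∧ v.1 ≤ a}

/-- The right ray. -/
def R1 (q : ℕ × ℕ) (L a b : ℕ) : Set (ℕ × ℕ) := {v | v.2 = b ∧ a ≤ v.1 ∧ v.1 < q.1 + L}

/-- The ray going up. -/
def R2 (q : ℕ × ℕ) (L a b : ℕ) : Set (ℕ × ℕ) := {v | v.1 = a ∧ b ≤ v.2 ∧ v.2 < q.2 + L}

/-- `(a, b)` is well inside the square. -/
def Inn (q : ℕ × ℕ) (L a b : ℕ) : Prop :=
  q.1 + 3 ≤ a ∧ a + 4 ≤ q.1 + L ∧ q.2 + 3 ≤ b ∧ b + 4 ≤ q.2 + L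

section

variable {q : ℕ × ℕ} {L : ℕ}

/-- No ray. -/
lemma fat0 (hL : 2 ≤ L) : ∀ v ∈ rect q.1 q.2 L L, Fat (rect q.1 q.2 L L) v := by
  rintro ⟨x, y⟩ hv
  rw [Gad.mem_rct] at hv
  simp only at hv
  refine fat_dn (a := q.1) (b := q.2) (by omega) (by omega) ?_ ?_ ?_ ?_ ?_ <;> intros <;>
    rw [Gad.mem_rct] <;> simp only <;> omega

/-- One ray. -/
lemma fat1 {a₀ b₀ : ℕ} (h0 : Inn q L a₀ b₀) :
    ∀ v ∈ rect q.1 q.2 L L \ R0 q a₀ b₀, Fat (rect q.1 q.2 L L \ R0 q a₀ b₀) v := by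
  obtain ⟨W, hW⟩ : ∃ W, W = rect q.1 q.2 L L \ R0 q a₀ b₀ := ⟨_, rfl⟩
  have hm : ∀ x y, (x, y) ∈ W ↔ (q.1 ≤ x ∧ x < q.1 + L ∧ q.2 ≤ y ∧ y < q.2 + L) ∧
      (y = b₀ → a₀ < x) := by
    intro x y
    rw [hW, mem_sdiff, Gad.mem_rct, R0, mem_ofPred_eq]
    simp only
    omega
  rw [← hW]
  clear hW
  obtain ⟨g1, g2, g3, g4⟩ := h0
  rintro ⟨x, y⟩ hv
  rw [hm] at hv
  by_cases hc : b₀ < y ∧ x ≤ a₀
  · refine fat_ul (a := q.1) (b := q.2 + L - 2) (by omega) (by omega) ?_ ?_ ?_ ?_ ?_ <;>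
      intros <;> rw [hm] <;> omega
  · refine fat_dn (a := q.1) (b := q.2) (by omega) (by omega) ?_ ?_ ?_ ?_ ?_ <;> intros <;>
      rw [hm] <;> omega

/-- Two rays. -/
lemma fat2 {a₀ b₀ a₁ b₁ : ℕ} (h0 : Inn q L a₀ b₀) (h1 : Inn q L a₁ b₁) (ha : a₀ ≤ a₁)
    (hab : a₀ = a₁ → b₀ ≠ b₁) :
    ∀ v ∈ rect q.1 q.2 L L \ (R0 q a₀ b₀ ∪ R1 q L a₁ b₁),
      Fat (rect q.1 q.2 L L \ (R0 q a₀ b₀ ∪ R1 q L a₁ b₁)) v := by
  obtain ⟨W, hW⟩ : ∃ W, W = rect q.1 q.2 L L \ (R0 q a₀ b₀ ∪ R1 q L a₁ b₁) := ⟨_, rfl⟩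
  have hm : ∀ x y, (x, y) ∈ W ↔ (q.1 ≤ x ∧ x < q.1 + L ∧ q.2 ≤ y ∧ y < q.2 + L) ∧
      (y = b₀ → a₀ < x) ∧ (y = b₁ → x < a₁) := by
    intro x y
    rw [hW, mem_sdiff, mem_union, Gad.mem_rct, R0, R1, mem_ofPred_eq, mem_ofPred_eq]
    simp only
    omega
  rw [← hW]
  clear hW
  obtain ⟨g1, g2, g3, g4⟩ := h0
  obtain ⟨k1, k2, k3, k4⟩ := h1
  rintro ⟨x, y⟩ hv
  rw [hm] at hv
  by_cases c1 : x < a₀ ∨ (x = a₀ ∧ a₀ < a₁)
  · by_cases c2 : b₀ < y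
    · refine fat_ul (a := q.1) (b := q.2 + L - 2) (by omega) (by omega) ?_ ?_ ?_ ?_ ?_ <;>
        intros <;> rw [hm] <;> omega
    · refine fat_dn (a := q.1) (b := q.2) (by omega) (by omega) ?_ ?_ ?_ ?_ ?_ <;> intros <;>
        rw [hm] <;> omega
  · by_cases c2 : a₁ < x ∨ (x = a₁ ∧ a₀ < a₁)
    · by_cases c3 : b₁ < y
      · refine fat_ur (a := q.1 + L - 2) (b := q.2 + L - 2) (by omega) (by omega)
          ?_ ?_ ?_ ?_ ?_ <;> intros <;> rw [hm] <;> omega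
      · refine fat_dn (a := q.1) (b := q.2) (by omega) (by omega) ?_ ?_ ?_ ?_ ?_ <;> intros <;>
          rw [hm] <;> omega
    · by_cases c3 : a₀ < a₁
      · refine fat_dn (a := q.1) (b := q.2) (by omega) (by omega) ?_ ?_ ?_ ?_ ?_ <;> intros <;>
          rw [hm] <;> omega
      · -- the common column
        have hx : x = a₀ := by omega
        have haa : a₀ = a₁ := by omega
        have hbb := hab haa
        by_cases c4 : b₀ < y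
        · refine fat_l (a := q.1) (c := q.2 + L - 2) (by omega) ?_ ?_ ?_ ?_ ?_ <;> intros <;>
            rw [hm] <;> omega
        · refine fat_l (a := q.1) (c := q.2) (by omega) ?_ ?_ ?_ ?_ ?_ <;> intros <;>
            rw [hm] <;> omega

/-- Three rays. -/
lemma fat3 {a₀ b₀ a₁ b₁ a₂ b₂ : ℕ} (h0 : Inn q L a₀ b₀) (h1 : Inn q L a₁ b₁)
    (h2 : Inn q L a₂ b₂) (ha : a₀ < a₁) (h02 : a₀ ≤ a₂) (h21 : a₂ ≤ a₁) :
    ∀ v ∈ rect q.1 q.2 L L \ (R0 q a₀ b₀ ∪ R1 q L a₁ b₁ ∪ R2 q L a₂ b₂),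
      Fat (rect q.1 q.2 L L \ (R0 q a₀ b₀ ∪ R1 q L a₁ b₁ ∪ R2 q L a₂ b₂)) v := by
  obtain ⟨W, hW⟩ : ∃ W, W = rect q.1 q.2 L L \ (R0 q a₀ b₀ ∪ R1 q L a₁ b₁ ∪ R2 q L a₂ b₂) :=
    ⟨_, rfl⟩
  have hm : ∀ x y, (x, y) ∈ W ↔ (q.1 ≤ x ∧ x < q.1 + L ∧ q.2 ≤ y ∧ y < q.2 + L) ∧
      (y = b₀ → a₀ < x) ∧ (y = b₁ → x < a₁) ∧ (x = a₂ → y < b₂) := by
    intro x y
    rw [hW, mem_sdiff, mem_union, mem_union, Gad.mem_rct, R0, R1, R2, mem_ofPred_eq, mem_ofPred_eq,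
      mem_ofPred_eq]
    simp only
    omega
  rw [← hW]
  clear hW
  obtain ⟨g1, g2, g3, g4⟩ := h0
  obtain ⟨k1, k2, k3, k4⟩ := h1
  obtain ⟨l1, l2, l3, l4⟩ := h2
  rintro ⟨x, y⟩ hv
  rw [hm] at hv
  by_cases c0 : x = a₂
  · by_cases c1 : a₂ = a₀ ∧ b₀ < y
    · refine fat_l (a := q.1) (c := q.2 + L - 2) (by omega) ?_ ?_ ?_ ?_ ?_ <;> intros <;>
        rw [hm] <;> omega
    · by_cases c2 : a₂ = a₁ ∧ b₁ < y
      · refine fat_r (a := q.1 + L - 2) (c := q.2 + L - 2) (by omega) ?_ ?_ ?_ ?_ ?_ <;> intros <;>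
          rw [hm] <;> omega
      · refine fat_dn (a := q.1) (b := q.2) (by omega) (by omega) ?_ ?_ ?_ ?_ ?_ <;> intros <;>
          rw [hm] <;> omega
  · by_cases c1 : x ≤ a₀ ∧ b₀ < y
    · refine fat_ul (a := q.1) (b := q.2 + L - 2) (by omega) (by omega) ?_ ?_ ?_ ?_ ?_ <;>
        intros <;> rw [hm] <;> omega
    · by_cases c2 : a₁ ≤ x ∧ b₁ < y
      · refine fat_ur (a := q.1 + L - 2) (b := q.2 + L - 2) (by omega) (by omega)
          ?_ ?_ ?_ ?_ ?_ <;> intros <;> rw [hm] <;> omega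
      · refine fat_dn (a := q.1) (b := q.2) (by omega) (by omega) ?_ ?_ ?_ ?_ ?_ <;> intros <;>
          rw [hm] <;> omega

end

end DA
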