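import Pool.Agent.DA.LocTr

/-!
# The row matroid is a circuit (RCI, helper64)

`N_e = P ／ FRow`: the elements of the row `e = uv` with the two ends form a circuit.
-/

set_option autoImplicit false

open Set BIC BICS
open scoped Matroid

namespace DA

open Gad TST

universe u

section

variable {α : Type*} {P : Matroid α} {S : Set α} {row : α → Sym2 (ℕ × ℕ)} {w : ℕ}
  {c : Set α} {u v : ℕ × ℕ} {o₁ o₂ : α}

/-- the frame of a row -/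
structure RF (S : Set α) (row : α → Sym2 (ℕ × ℕ)) (w : ℕ) (c : Set α) (u v : ℕ × ℕ)
    (o₁ o₂ : α) : Prop where
  hc : c ⊆ S
  hW : WallE c row w ∅
  hu : 8 ≤ u.1 ∧ u.1 + 8 ≤ w ∧ 8 ≤ u.2 ∧ u.2 + 8 ≤ w
  huv : wadj u v
  h₁ : o₁ ∈ c ∧ u ∈ row o₁ ∧ v ∉ row o₁
  h₂ : o₂ ∈ c ∧ v ∈ row o₂ ∧ u ∉ row o₂

/-- the elements of the row -/
abbrev rX (S : Set α) (row : α → Sym2 (ℕ × ℕ)) (u v : ℕ × ℕ) : Set α := {f | f ∈ S ∧ row f = s(u, v)}

namespace RF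

lemma ne (h : RF S row w c u v o₁ o₂) : u ≠ v := by
  intro h1
  have h2 := wadj_par' h.huv
  rw [← h1] at h2
  omega

lemma uV (h : RF S row w c u v o₁ o₂) : u ∈ rect 0 0 (w + 1) (w + 1) := by
  have hu := h.hu
  rw [Gad.mem_rct]
  omega

lemma vV (h : RF S row w c u v o₁ o₂) : v ∈ rect 0 0 (w + 1) (w + 1) := by
  have hu := h.hu
  have h1 := h.huv
  unfold wadj at h1
  rw [Gad.mem_rct]
  omega

lemma exe (h : RF S row w c u v o₁ o₂) : ∃ e, e ∈ c ∧ row e = s(u, v) :=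
  h.hW.surj u v h.huv h.uV h.vV (notMem_empty _)

lemma o1 (h : RF S row w c u v o₁ o₂) {q : ℕ × ℕ} (hq : q ∈ row o₁) :
    q = u ∨ (q ∈ rect 0 0 (w + 1) (w + 1) ∧ q ≠ u ∧ q ≠ v) := by
  by_cases h1 : q = u
  · exact Or.inl h1
  · exact Or.inr ⟨wall_mem h.hW h.h₁.1 hq, h1, fun h2 => h.h₁.2.2 (h2 ▸ hq)⟩

lemma o2 (h : RF S row w c u v o₁ o₂) {q : ℕ × ℕ} (hq : q ∈ row o₂) :
    q = v ∨ (q ∈ rect 0 0 (w + 1) (w + 1) ∧ q ≠ u ∧ q ≠ v) := by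
  by_cases h1 : q = v
  · exact Or.inl h1
  · exact Or.inr ⟨wall_mem h.hW h.h₂.1 hq, fun h2 => h.h₂.2.2 (h2 ▸ hq), h1⟩

/-- the wall without the row is full -/
lemma full0 (h : RF S row w c u v o₁ o₂) :
    ∃ G, FullB {e | e ∈ c ∧ row e ∉ ({s(u, v)} : Set (Sym2 (ℕ × ℕ)))} row
      (rect 0 0 (w + 1) (w + 1) \ {u, v}) G := by
  have hu := h.hu
  have hsd := wadj_sd h.huv
  have hsu : sd u u ≤ 1 := by
    rw [sd_le]
    omega
  refine full_local h.hW (o := u) (ρ := 1) (by omega) ?_ ?_ ?_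
  · intro p q h1
    rw [mem_singleton_iff, Sym2.eq_iff] at h1
    rcases h1 with ⟨rfl, rfl⟩ | ⟨rfl, rfl⟩
    · exact ⟨hsu, hsd.2⟩
    · exact ⟨hsd.2, hsu⟩
  · rintro q (hq | hq)
    · rw [hq]; exact hsu
    · rw [hq]; exact hsd.2
  · intro x y hs hxy
    have hy : 1 ≤ y := by
      rw [sd_le] at hs
      simp only at hs
      omega
    exact row_esc h.huv (Or.inl Subset.rfl) x y hy hxy

lemma fullU (h : RF S row w c u v o₁ o₂) {c' : Set α}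
    (hc' : ∀ f ∈ c, u ∉ row f → v ∉ row f → f ∈ c') (h1 : o₁ ∈ c') :
    ∃ G, FullB c' row (insert u (rect 0 0 (w + 1) (w + 1) \ {u, v})) G := by
  obtain ⟨G₀, hG₀⟩ := h.full0
  have f0 : FullB c' row (rect 0 0 (w + 1) (w + 1) \ {u, v}) G₀ := by
    refine fullB_sub hG₀ ?_
    rintro f ⟨hf, _⟩ hfU
    exact hc' f hf (fun h2 => (hfU _ h2).2 (Or.inl rfl)) (fun h2 => (hfU _ h2).2 (Or.inr rfl))
  refine ⟨_, fullB_add f0 h1 h.h₁.2.1 (fun h2 => h2.2 (Or.inl rfl)) ?_⟩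
  intro q hq
  rcases h.o1 hq with h2 | ⟨h2, h3, h4⟩
  · exact Or.inl h2
  · refine Or.inr ⟨h2, ?_⟩
    rintro (h5 | h5)
    exacts [h3 h5, h4 h5]

lemma fullV (h : RF S row w c u v o₁ o₂) {c' : Set α}
    (hc' : ∀ f ∈ c, u ∉ row f → v ∉ row f → f ∈ c') (h1 : o₂ ∈ c') :
    ∃ G, FullB c' row (insert v (rect 0 0 (w + 1) (w + 1) \ {u, v})) G := by
  obtain ⟨G₀, hG₀⟩ := h.full0
  have f0 : FullB c' row (rect 0 0 (w + 1) (w + 1) \ {u, v}) G₀ := by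
    refine fullB_sub hG₀ ?_
    rintro f ⟨hf, _⟩ hfU
    exact hc' f hf (fun h2 => (hfU _ h2).2 (Or.inl rfl)) (fun h2 => (hfU _ h2).2 (Or.inr rfl))
  refine ⟨_, fullB_add f0 h1 h.h₂.2.1 (fun h2 => h2.2 (Or.inr rfl)) ?_⟩
  intro q hq
  rcases h.o2 hq with h2 | ⟨h2, h3, h4⟩
  · exact Or.inl h2
  · refine Or.inr ⟨h2, ?_⟩
    rintro (h5 | h5)
    exacts [h3 h5, h4 h5]

lemma V_eq (h : RF S row w c u v o₁ o₂) : insert v (insert u (rect 0 0 (w + 1) (w + 1) \ {u, v})) =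
    rect 0 0 (w + 1) (w + 1) := by
  ext q
  constructor
  · rintro (h1 | h1 | h1)
    · rw [h1]; exact h.vV
    · rw [h1]; exact h.uV
    · exact h1.1
  · intro h1
    by_cases h2 : q = v
    · exact Or.inl h2
    by_cases h3 : q = u
    · exact Or.inr (Or.inl h3)
    · refine Or.inr (Or.inr ⟨h1, ?_⟩)
      rintro (h5 | h5)
      exacts [h3 h5, h2 h5]

/-- all the vertices -/
lemma full2 (h : RF S row w c u v o₁ o₂) {c' : Set α}
    (hc' : ∀ f ∈ c, u ∉ row f → v ∉ row f → f ∈ c')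
    (hh : (o₁ ∈ c' ∧ o₂ ∈ c') ∨ ((∃ e ∈ c', row e = s(u, v)) ∧ (o₁ ∈ c' ∨ o₂ ∈ c'))) :
    ∃ G, FullB c' row (rect 0 0 (w + 1) (w + 1)) G := by
  have hvn : v ∉ insert u (rect 0 0 (w + 1) (w + 1) \ {u, v}) := by
    rintro (h1 | h1)
    · exact h.ne h1.symm
    · exact h1.2 (Or.inr rfl)
  have hun : u ∉ insert v (rect 0 0 (w + 1) (w + 1) \ {u, v}) := by
    rintro (h1 | h1)
    · exact h.ne h1
    · exact h1.2 (Or.inl rfl)
  rcases hh with ⟨h1, h2⟩ | ⟨⟨e, he, hre⟩, h1 | h1⟩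
  · obtain ⟨G, hG⟩ := h.fullU hc' h1
    rw [← h.V_eq]
    refine ⟨_, fullB_add hG h2 h.h₂.2.1 hvn ?_⟩
    intro q hq
    rw [h.V_eq]
    exact wall_mem h.hW h.h₂.1 hq
  · obtain ⟨G, hG⟩ := h.fullU hc' h1
    rw [← h.V_eq]
    refine ⟨_, fullB_add hG he (v := v) (by rw [hre]; exact Sym2.mem_mk_right _ _) hvn ?_⟩
    intro q hq
    rw [h.V_eq]
    rw [hre, Sym2.mem_iff] at hq
    rcases hq with hq | hq
    · rw [hq]; exact h.uV
    · rw [hq]; exact h.vV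
  · obtain ⟨G, hG⟩ := h.fullV hc' h1
    have hV := h.V_eq
    rw [insert_comm] at hV
    rw [← hV]
    refine ⟨_, fullB_add hG he (v := u) (by rw [hre]; exact Sym2.mem_mk_left _ _) hun ?_⟩
    intro q hq
    rw [hV]
    rw [hre, Sym2.mem_iff] at hq
    rcases hq with hq | hq
    · rw [hq]; exact h.uV
    · rw [hq]; exact h.vV

/-! ### ranks -/

lemma KS (h : RF S row w c u v o₁ o₂) : PK (rX S row u v) o₁ o₂ ⊆ S := by
  rintro f (hf | hf | hf)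
  · rw [hf]; exact h.hc h.h₁.1
  · rw [hf]; exact h.hc h.h₂.1
  · exact hf.1

lemma disF (h : RF S row w c u v o₁ o₂) {f : α} (hf : f ∈ FL S row c {s(u, v)} {u, v})
    (hf' : f ∈ PK (rX S row u v) o₁ o₂) : False := by
  rcases hf' with hf' | hf' | hf'
  · rw [hf'] at hf
    exact hf.2 ⟨h.h₁.1, u, Or.inl rfl, h.h₁.2.1⟩
  · rw [hf'] at hf
    exact hf.2 ⟨h.h₂.1, v, Or.inr rfl, h.h₂.2.1⟩
  · exact hf.1.2 hf'.2

lemma o1X (h : RF S row w c u v o₁ o₂) : o₁ ∉ rX S row u v := by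
  rintro ⟨-, h1⟩
  refine h.h₁.2.2 ?_
  rw [h1]
  exact Sym2.mem_mk_right _ _

lemma o2X (h : RF S row w c u v o₁ o₂) : o₂ ∉ rX S row u v := by
  rintro ⟨-, h1⟩
  refine h.h₂.2.2 ?_
  rw [h1]
  exact Sym2.mem_mk_left _ _

lemma o12 (h : RF S row w c u v o₁ o₂) : o₁ ≠ o₂ := fun h1 => h.h₂.2.2 (h1 ▸ h.h₁.2.1)

lemma K_card (h : RF S row w c u v o₁ o₂) (hSf : S.Finite) :
    (PK (rX S row u v) o₁ o₂).ncard = (PK (rX S row u v) o₁ o₂ \ c).ncard + 3 := by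
  obtain ⟨e, he, hre⟩ := h.exe
  have h1 := ncard_inter_add_ncard_sdiff_eq_ncard (PK (rX S row u v) o₁ o₂) c (hSf.subset h.KS)
  have h2 : PK (rX S row u v) o₁ o₂ ∩ c = {o₁, o₂, e} := by
    ext f
    constructor
    · rintro ⟨h3 | h3 | h3, h4⟩
      · exact Or.inl h3
      · exact Or.inr (Or.inl h3)
      · exact Or.inr (Or.inr (h.hW.inj h4 he (h3.2.trans hre.symm)))
    · rintro (h3 | h3 | h3)
      · rw [h3]; exact ⟨Or.inl rfl, h.h₁.1⟩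
      · rw [h3]; exact ⟨Or.inr (Or.inl rfl), h.h₂.1⟩
      · rw [h3]; exact ⟨Or.inr (Or.inr ⟨h.hc he, hre⟩), he⟩
  have h3 : ({o₁, o₂, e} : Set α).ncard = 3 := by
    rw [ncard_eq_three]
    refine ⟨o₁, o₂, e, h.o12, ?_, ?_, rfl⟩
    · rintro rfl
      exact h.o1X ⟨h.hc he, hre⟩
    · rintro rfl
      exact h.o2X ⟨h.hc he, hre⟩
  rw [h2, h3] at h1
  omega

lemma hTV (h : RF S row w c u v o₁ o₂) : ({u, v} : Set (ℕ × ℕ)) ⊆ rect 0 0 (w + 1) (w + 1) := by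
  rintro q (hq | hq)
  · rw [hq]; exact h.uV
  · rw [hq]; exact h.vV

lemma rk_good [P.Finite] (h : RF S row w c u v o₁ o₂) (hG : RWx P S row w) {Z : Set α}
    (hZ : Z ⊆ PK (rX S row u v) o₁ o₂)
    (hcl : ∀ f ∈ Z, f ∈ c → row f = s(u, v) → ∀ f' ∈ S, row f' = row f → f' ∈ Z)
    (hh : (o₁ ∈ Z ∧ o₂ ∈ Z) ∨ ((∃ e ∈ Z, e ∈ c ∧ row e = s(u, v)) ∧ (o₁ ∈ Z ∨ o₂ ∈ Z))) :
    rk (P ／ FL S row c {s(u, v)} {u, v}) Z = (Z \ c).ncard + 2 := by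
  obtain ⟨G₀, hG0⟩ := h.full0
  obtain ⟨G, hG1⟩ := h.full2 (c' := {f | f ∈ c ∧ f ∈ FL S row c {s(u, v)} {u, v} ∪ Z}) (by
    intro f hf h1 h2
    refine ⟨hf, Or.inl ⟨⟨h.hc hf, fun h3 => h1 ?_⟩, ?_⟩⟩
    · rw [show row f = s(u, v) from h3]
      exact Sym2.mem_mk_left _ _
    · rintro ⟨_, a, ha | ha, haf⟩
      · rw [ha] at haf; exact h1 haf
      · rw [ha] at haf; exact h2 haf) (by
    rcases hh with ⟨h1, h2⟩ | ⟨⟨e, h1, h2, h3⟩, h4⟩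
    · exact Or.inl ⟨⟨h.h₁.1, Or.inr h1⟩, ⟨h.h₂.1, Or.inr h2⟩⟩
    · exact Or.inr ⟨⟨e, ⟨h2, Or.inr h1⟩, h3⟩, h4.imp (fun h5 => ⟨h.h₁.1, Or.inr h5⟩)
        (fun h5 => ⟨h.h₂.1, Or.inr h5⟩)⟩)
  rw [rk_locN (T := {u, v}) hG h.hc h.hW Subset.rfl (fun f _ x hx hxn => absurd hx hxn) h.hTV hG0
    ?_ hcl hG1, ncard_pair h.ne]
  intro f hf
  rcases hZ hf with h1 | h1 | h1
  · rw [h1]; exact ⟨h.hc h.h₁.1, Or.inr ⟨h.h₁.1, u, Or.inl rfl, h.h₁.2.1⟩⟩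
  · rw [h1]; exact ⟨h.hc h.h₂.1, Or.inr ⟨h.h₂.1, v, Or.inr rfl, h.h₂.2.1⟩⟩
  · exact ⟨h1.1, Or.inl h1.2⟩

/-- `K` without one element is independent -/
lemma ind [P.Finite] (h : RF S row w c u v o₁ o₂) (hG : RWx P S row w) {x : α}
    (hx : x ∈ PK (rX S row u v) o₁ o₂) :
    (P ／ FL S row c {s(u, v)} {u, v}).Indep (PK (rX S row u v) o₁ o₂ \ {x}) := by
  obtain ⟨e, he, hre⟩ := h.exe
  have hSf : S.Finite := P.ground_finite.subset hG.sub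
  have hKf : (PK (rX S row u v) o₁ o₂).Finite := hSf.subset h.KS
  have hFf : (FL S row c {s(u, v)} {u, v}).Finite := hSf.subset FL_sub
  have : (P ／ FL S row c {s(u, v)} {u, v}).Finite := BQ.fin_contract _
  have hFE : FL S row c {s(u, v)} {u, v} ⊆ P.E := FL_sub.trans hG.sub
  have hKE : PK (rX S row u v) o₁ o₂ ⊆ P.E \ FL S row c {s(u, v)} {u, v} := fun f hf =>
    ⟨hG.sub (h.KS hf), fun h1 => h.disF h1 hf⟩
  have he1 : e ≠ o₁ := by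
    rintro rfl
    exact h.o1X ⟨h.hc he, hre⟩
  have he2 : e ≠ o₂ := by
    rintro rfl
    exact h.o2X ⟨h.hc he, hre⟩
  have heK : e ∈ PK (rX S row u v) o₁ o₂ := Or.inr (Or.inr ⟨h.hc he, hre⟩)
  -- the representative
  obtain ⟨x', hx'K, hx'c, hx'r, hx'h⟩ : ∃ x' ∈ PK (rX S row u v) o₁ o₂, x' ∈ c ∧
      row x' = row x ∧ ((x' ≠ o₁ ∧ x' ≠ o₂) ∨ (x' ≠ e ∧ (x' ≠ o₁ ∨ x' ≠ o₂))) := by
    rcases hx with hx | hx | hx
    · exact ⟨o₁, Or.inl rfl, h.h₁.1, by rw [hx], Or.inr ⟨he1.symm, Or.inr h.o12⟩⟩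
    · exact ⟨o₂, Or.inr (Or.inl rfl), h.h₂.1, by rw [hx], Or.inr ⟨he2.symm, Or.inl h.o12.symm⟩⟩
    · exact ⟨e, heK, he, hre.trans hx.2.symm, Or.inl ⟨he1, he2⟩⟩
  have r1 : rk (P ／ FL S row c {s(u, v)} {u, v}) (PK (rX S row u v) o₁ o₂ \ {x'}) =
      ((PK (rX S row u v) o₁ o₂ \ {x'}) \ c).ncard + 2 := by
    refine h.rk_good hG sdiff_subset ?_ ?_
    · rintro f ⟨hf, hf2⟩ hfc hfr f' hf' hff
      refine ⟨Or.inr (Or.inr ⟨hf', hff.trans hfr⟩), fun h1 => hf2 ?_⟩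
      rw [mem_singleton_iff] at h1 ⊢
      rw [h1] at hff
      exact h.hW.inj hfc hx'c hff.symm
    · rcases hx'h with ⟨h1, h2⟩ | ⟨h1, h2⟩
      · exact Or.inl ⟨⟨Or.inl rfl, fun h3 => h1 (Eq.symm h3)⟩,
          ⟨Or.inr (Or.inl rfl), fun h3 => h2 (Eq.symm h3)⟩⟩
      · exact Or.inr ⟨⟨e, ⟨heK, fun h3 => h1 (Eq.symm h3)⟩, he, hre⟩,
          h2.imp (fun h4 => ⟨Or.inl rfl, fun h3 => h4 (Eq.symm h3)⟩)
            (fun h4 => ⟨Or.inr (Or.inl rfl), fun h3 => h4 (Eq.symm h3)⟩)⟩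
  have hcc : (PK (rX S row u v) o₁ o₂ \ {x'}) \ c = PK (rX S row u v) o₁ o₂ \ c := by
    ext f
    constructor
    · rintro ⟨⟨h1, _⟩, h2⟩
      exact ⟨h1, h2⟩
    · rintro ⟨h1, h2⟩
      refine ⟨⟨h1, fun h3 => h2 ?_⟩, h2⟩
      rw [mem_singleton_iff.1 h3]
      exact hx'c
  rw [hcc] at r1
  have hKc := h.K_card hSf
  have hBD : ∀ a, a ∈ PK (rX S row u v) o₁ o₂ →
      (FL S row c {s(u, v)} {u, v} ∪ PK (rX S row u v) o₁ o₂) \ {a} =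
        (PK (rX S row u v) o₁ o₂ \ {a}) ∪ FL S row c {s(u, v)} {u, v} := by
    intro a ha
    ext f
    constructor
    · rintro ⟨h1 | h1, h2⟩
      · exact Or.inr h1
      · exact Or.inl ⟨h1, h2⟩
    · rintro (⟨h1, h2⟩ | h1)
      · exact ⟨Or.inr h1, h2⟩
      · refine ⟨Or.inl h1, fun h3 => ?_⟩
        rw [mem_singleton_iff.1 h3] at h1
        exact h.disF h1 ha
  have n1 := nul_eq hG (B := FL S row c {s(u, v)} {u, v} ∪ PK (rX S row u v) o₁ o₂)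
    (D := {x}) (D' := {x'}) (union_subset FL_sub h.KS) (singleton_subset_iff.2 (h.KS hx))
    (singleton_subset_iff.2 (h.KS hx'K)) (by rw [image_singleton, image_singleton, hx'r])
  have hU : ∀ a, ((PK (rX S row u v) o₁ o₂ \ {a}) ∪ FL S row c {s(u, v)} {u, v}).ncard =
      (PK (rX S row u v) o₁ o₂ \ {a}).ncard + (FL S row c {s(u, v)} {u, v}).ncard := by
    intro a
    refine ncard_union_eq ?_ (hKf.subset sdiff_subset) hFf
    rw [Set.disjoint_left]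
    exact fun f hf hf' => h.disF hf' hf.1
  rw [hBD _ hx, hBD _ hx'K, hU, hU] at n1
  have c1 := BQ.rk_con hFE (X := PK (rX S row u v) o₁ o₂ \ {x}) (sdiff_subset.trans hKE)
  have c2 := BQ.rk_con hFE (X := PK (rX S row u v) o₁ o₂ \ {x'}) (sdiff_subset.trans hKE)
  have m1 := ncard_sdiff_singleton_of_mem hx
  have m2 := ncard_sdiff_singleton_of_mem hx'K
  refine C1Q.indep_of_rk (sdiff_subset.trans hKE) ?_
  omega

/-- **The row matroid of an exact wall is a circuit.** -/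
theorem circ [P.Finite] (h : RF S row w c u v o₁ o₂) (hG : RWx P S row w) :
    (P ／ FL S row c {s(u, v)} {u, v}).IsCircuit (PK (rX S row u v) o₁ o₂) := by
  obtain ⟨e, he, hre⟩ := h.exe
  have hSf : S.Finite := P.ground_finite.subset hG.sub
  have : (P ／ FL S row c {s(u, v)} {u, v}).Finite := BQ.fin_contract _
  have hKE : PK (rX S row u v) o₁ o₂ ⊆ P.E \ FL S row c {s(u, v)} {u, v} := fun f hf =>
    ⟨hG.sub (h.KS hf), fun h1 => h.disF h1 hf⟩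
  have r1 := h.rk_good hG (Z := PK (rX S row u v) o₁ o₂) Subset.rfl (by
    rintro f hf hfc hfr f' hf' hff
    exact Or.inr (Or.inr ⟨hf', hff.trans hfr⟩)) (Or.inl ⟨Or.inl rfl, Or.inr (Or.inl rfl)⟩)
  have hKc := h.K_card hSf
  rw [Matroid.isCircuit_iff_dep_forall_sdiff_singleton_indep]
  refine ⟨?_, fun x hx => h.ind hG hx⟩
  rw [← Matroid.not_indep_iff hKE]
  intro h1
  have h2 := rk_indep h1
  omega

end RF

end

lemma frow_FL {α : Type*} {S : Set α} {row : α → Sym2 (ℕ × ℕ)} (c : Set α) (u v : ℕ × ℕ) :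
    FRow S row c u v = FL S row c {s(u, v)} {u, v} := by
  rw [frow_eq]
  unfold FL
  congr 1
  ext f
  simp only [mem_ofPred_eq, Finset.mem_insert, Finset.mem_singleton, mem_insert_iff,
    mem_singleton_iff]

section

variable {α β : Type*} {P : Matroid α} {S : Set α} {row : α → Sym2 (ℕ × ℕ)} {w : ℕ}
  {Hs : Finset (ℕ × ℕ)} {P' : Matroid β} {j : α → β} {S' New : Set β}
  {row' : β → Sym2 (ℕ × ℕ)} {Λ : Set α} {c : Set α} {u v : ℕ × ℕ} {o₁ o₂ : α}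

/-- **The row matroid of an exact wall is a circuit.** -/
theorem RF.row_circ [P.Finite] (hF : RF S row w c u v o₁ o₂) (hG : RWx P S row w) :
    (P ／ FRow S row c u v).IsCircuit (PK (rX S row u v) o₁ o₂) := by
  rw [frow_FL]
  exact hF.circ hG

/-- **(RCI) The row matroid off the windows is a circuit.** -/
theorem Healed.row_circ [P.Finite] (hL : LWal P S row w Hs)
    (h : Healed P S row w Hs P' j S' New row' Λ) (hR : RWx P' S' row' w)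
    (hF : RF S row w c u v o₁ o₂) (hoff : ∀ x, sd x u ≤ 1 → Off Hs x) :
    (P ／ FRow S row c u v).IsCircuit (PK (rX S row u v) o₁ o₂) := by
  have hf := h.fin
  have hu := hF.hu
  have hsd := wadj_sd hF.huv
  have hou : Off Hs u := hoff u (by rw [sd_le]; omega)
  have hov : Off Hs v := hoff v hsd.2
  have t1 := off_tch hL hou (hF.hc hF.h₁.1) hF.h₁.2.1
  have t2 := off_tch hL hov (hF.hc hF.h₂.1) hF.h₂.2.1
  have r1 : row' (j o₁) = row o₁ := h.row_old _ ⟨hF.hc hF.h₁.1, t1⟩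
  have r2 : row' (j o₂) = row o₂ := h.row_old _ ⟨hF.hc hF.h₂.1, t2⟩
  have hF' : RF S' row' w (tr S row Hs j New c) u v (j o₁) (j o₂) := by
    refine ⟨h.tr_sub hF.hc, h.tr_wall hF.hc hF.hW, hF.hu, hF.huv, ⟨?_, ?_, ?_⟩, ?_, ?_, ?_⟩
    · exact Or.inl ⟨o₁, ⟨hF.h₁.1, t1⟩, rfl⟩
    · rw [r1]; exact hF.h₁.2.1
    · rw [r1]; exact hF.h₁.2.2
    · exact Or.inl ⟨o₂, ⟨hF.h₂.1, t2⟩, rfl⟩
    · rw [r2]; exact hF.h₂.2.1
    · rw [r2]; exact hF.h₂.2.2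
  have hX : rX S' row' u v = j '' rX S row u v := h.row_im hL hF.huv hou
  have hPK : PK (rX S' row' u v) (j o₁) (j o₂) = j '' PK (rX S row u v) o₁ o₂ := by
    show insert (j o₁) (insert (j o₂) (rX S' row' u v)) = j '' insert o₁ (insert o₂ (rX S row u v))
    rw [image_insert_eq, image_insert_eq, hX]
  have hC := hF'.circ hR
  rw [hPK] at hC
  obtain ⟨hS, hTF⟩ := h.sameRk hL (c := c) hoff (u := u) (by
    unfold DeepR
    simp only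
    omega) (A := fun s => s ∈ ({s(u, v)} : Set (Sym2 (ℕ × ℕ))))
    (B := fun s => ∃ a ∈ ({u, v} : Set (ℕ × ℕ)), a ∈ s) (by
    intro s hs
    rw [mem_singleton_iff] at hs
    exact ⟨u, by rw [hs]; exact Sym2.mem_mk_left _ _, by rw [sd_le]; omega⟩) (by
    rintro s ⟨a, ha | ha, has⟩
    · rw [ha] at has; exact ⟨u, has, by rw [sd_le]; omega⟩
    · rw [ha] at has; exact ⟨v, has, hsd.2⟩)
  have hfin1 : (P ／ FG S row c (fun s => s ∈ ({s(u, v)} : Set (Sym2 (ℕ × ℕ))))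
    (fun s => ∃ a ∈ ({u, v} : Set (ℕ × ℕ)), a ∈ s)).Finite := BQ.fin_contract _
  have hfin2 : (P' ／ FG S' row' (tr S row Hs j New c)
    (fun s => s ∈ ({s(u, v)} : Set (Sym2 (ℕ × ℕ))))
    (fun s => ∃ a ∈ ({u, v} : Set (ℕ × ℕ)), a ∈ s)).Finite := BQ.fin_contract _
  rw [frow_FL]
  refine (hS.circ ?_).1 hC
  intro f hf
  exact ⟨hL.sub (hF.KS hf), fun h1 => hF.disF h1 hf⟩

end

end DA
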