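import Pool.Agent.DA.InL
import Pool.Agent.TST.SplitDef

/-!
# The relations of the row matroids and of the star matroids (T-star, helper33)

`VC P S row w v`: the star of `v` (for all representatives) is a cocircuit of `P | S`, and so are two
elements of one row at `v`.  Consequences: not to be separated is an equivalence relation on a row,
and the relations of `N_e = P / FRow`, `N_u = P / FStar` are relations of `P`, which do not depend on
the representatives.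
-/

open Set BIC BICS
open scoped Matroid

namespace DA

open Gad TST

universe u v

section general

variable {α : Type*} {P : Matroid α} {S A B F Y : Set α} {z t x y : α}

/-- two hyperplanes of `P | S` -/
lemma cl_two [P.Finite] (hA : rk P (S \ A) + 1 ≤ rk P S)
    (hB : rk P (S \ B) + 1 ≤ rk P S) (hAB : rk P S ≤ rk P (S \ (A ∩ B)))
    (hlow : rk P S ≤ rk P (S \ (A ∪ B)) + 2) (h1 : z ∈ P.closure (S \ A))
    (h2 : z ∈ P.closure (S \ B)) : z ∈ P.closure (S \ (A ∪ B)) := by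
  refine mem_of_rk (P.closure_subset_ground _ h1) ?_
  have h3 := rk_submod P (insert z (S \ A)) (insert z (S \ B))
  rw [rk_ins_of_mem h1, rk_ins_of_mem h2] at h3
  have h4 : rk P (S \ (A ∩ B)) ≤ rk P (insert z (S \ A) ∪ insert z (S \ B)) := by
    refine rk_mono P ?_
    rintro e ⟨he, he'⟩
    by_cases h5 : e ∈ A
    · exact Or.inr (Or.inr ⟨he, fun h6 => he' ⟨h5, h6⟩⟩)
    · exact Or.inl (Or.inr ⟨he, h5⟩)
  have h5 : rk P (insert z (S \ (A ∪ B))) ≤ rk P (insert z (S \ A) ∩ insert z (S \ B)) := by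
    refine rk_mono P ?_
    rintro e (he | ⟨he, he'⟩)
    · exact ⟨Or.inl he, Or.inl he⟩
    · exact ⟨Or.inr ⟨he, fun h6 => he' (Or.inl h6)⟩, Or.inr ⟨he, fun h6 => he' (Or.inr h6)⟩⟩
  omega

/-- one more element is removed -/
lemma rk_remove [P.Finite] (X : Set α) (e : α) :
    rk P (S \ X) ≤ rk P (S \ (insert e X)) + 1 := by
  have h1 : S \ X ⊆ insert e (S \ (insert e X)) := by
    rintro f ⟨hf, hf'⟩
    by_cases h2 : f = e
    · exact Or.inl h2
    · exact Or.inr ⟨hf, fun h3 => h3.elim h2 hf'⟩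
  have h2 := rk_mono P h1
  have h3 := rk_insert_le (M := P) e (S \ (insert e X))
  omega

/-- closures in a contraction -/
lemma con_cl_iff (h1 : F ∪ B ⊆ Y) (h2 : Y ⊆ P.closure (F ∪ B)) (ht : t ∉ F) :
    t ∈ (P ／ F).closure B ↔ t ∈ P.closure Y := by
  have h3 : P.closure (F ∪ B) = P.closure Y := by
    refine (P.closure_subset_closure h1).antisymm ?_
    exact P.closure_subset_closure_of_subset_closure h2
  rw [Matroid.contract_closure_eq, union_comm B F, h3]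
  exact ⟨fun h => h.1, fun h => ⟨h, ht⟩⟩

end general

/-- **Cocircuits at the vertex `v`.** -/
structure VC {α : Type*} (P : Matroid α) (S : Set α) (row : α → Sym2 (ℕ × ℕ)) (w : ℕ)
    (v : ℕ × ℕ) : Prop where
  star : ∀ c, c ⊆ S → WallE c row w ∅ → rk P (S \ {e | e ∈ c ∧ v ∈ row e}) + 1 = rk P S
  nms : ∀ c, c ⊆ S → WallE c row w ∅ → ∀ g ∈ c, v ∈ row g →
    g ∉ P.closure (S \ {e | e ∈ c ∧ v ∈ row e})
  two : ∀ c, c ⊆ S → WallE c row w ∅ → ∀ g ∈ c, v ∈ row g → ∃ g' ∈ c, v ∈ row g' ∧ g' ≠ g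
  pair : ∀ a ∈ S, ∀ a' ∈ S, row a = row a' → v ∈ row a → a ≠ a' →
    rk P (S \ {a, a'}) + 1 ≤ rk P S

section

variable {α : Type*} {P : Matroid α} {S : Set α} {row : α → Sym2 (ℕ × ℕ)} {w : ℕ} {v : ℕ × ℕ}
  {c : Set α} {a a' t x y z : α}

/-- change one representative -/
abbrev swp (row : α → Sym2 (ℕ × ℕ)) (c : Set α) (x : α) : Set α := {e | e ∈ c ∧ row e ≠ row x} ∪ {x}

lemma swp_rep (hc : c ⊆ S) (hW : WallE c row w ∅) (hx : x ∈ S) (hxe : ∃ e ∈ c, row e = row x) :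
    swp row c x ⊆ S ∧ WallE (swp row c x) row w ∅ := by
  obtain ⟨e₀, he₀, hee₀⟩ := hxe
  refine ⟨?_, ?_, ?_, ?_⟩
  · rintro e (he | rfl)
    · exact hc he.1
    · exact hx
  · rintro e (he | rfl) e' (he' | rfl) hee
    · exact hW.inj he.1 he'.1 hee
    · exact absurd hee he.2
    · exact absurd hee.symm he'.2
    · rfl
  · rintro e (he | rfl)
    · exact hW.mem e he.1
    · rw [← hee₀]
      exact hW.mem _ he₀
  · intro p q hpq hp hq hm
    obtain ⟨e, he, hee⟩ := hW.surj p q hpq hp hq hm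
    by_cases h1 : row e = row x
    · exact ⟨x, Or.inr rfl, by rw [← h1, hee]⟩
    · exact ⟨e, Or.inl ⟨he, h1⟩, hee⟩

/-- the star after the change of one representative -/
lemma swp_star (hW : WallE c row w ∅) (ha : a ∈ c) (haa : row a' = row a) (hv : v ∈ row a) :
    {e | e ∈ swp row c a' ∧ v ∈ row e} = insert a' ({e | e ∈ c ∧ v ∈ row e} \ {a}) := by
  ext e
  constructor
  · rintro ⟨he | he, hve⟩
    · refine Or.inr ⟨⟨he.1, hve⟩, fun h1 => he.2 ?_⟩
      rw [mem_singleton_iff.1 h1, haa]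
    · exact Or.inl he
  · rintro (rfl | ⟨⟨he, hve⟩, hea⟩)
    · exact ⟨Or.inr rfl, haa ▸ hv⟩
    · refine ⟨Or.inl ⟨he, fun h1 => hea ?_⟩, hve⟩
      exact hW.inj he ha (h1.trans haa)

/-- the star without one element: full rank -/
lemma VC.full (h : VC P S row w v) (hS : S ⊆ P.E) [P.Finite] (hc : c ⊆ S) (hW : WallE c row w ∅)
    (ha : a ∈ c) (hv : v ∈ row a) : rk P S ≤ rk P (S \ ({e | e ∈ c ∧ v ∈ row e} \ {a})) := by
  have h1 := h.star c hc hW
  have h2 := rk_insert_notMem (hS (hc ha)) (h.nms c hc hW a ha hv)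
  have h3 : rk P (insert a (S \ {e | e ∈ c ∧ v ∈ row e})) ≤
      rk P (S \ ({e | e ∈ c ∧ v ∈ row e} \ {a})) := by
    refine rk_mono P ?_
    rintro e (rfl | ⟨he, he'⟩)
    · exact ⟨hc ha, fun h4 => h4.2 rfl⟩
    · exact ⟨he, fun h4 => he' h4.1⟩
  omega

/-- one element can be removed -/
lemma VC.one (h : VC P S row w v) (hS : S ⊆ P.E) [P.Finite] (hc : c ⊆ S) (hW : WallE c row w ∅)
    (ha : a ∈ c) (hv : v ∈ row a) : rk P S ≤ rk P (S \ {a}) := by
  obtain ⟨g, hg, hvg, hga⟩ := h.two c hc hW a ha hv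
  refine (h.full hS hc hW hg hvg).trans (rk_mono P ?_)
  rintro e ⟨he, he'⟩
  refine ⟨he, fun h1 => he' ?_⟩
  rw [mem_singleton_iff.1 h1]
  exact ⟨⟨ha, hv⟩, fun h2 => hga (mem_singleton_iff.1 h2).symm⟩

/-- **(REL 1)** `t` does not separate `a` and `a'`: the location at `v` does not change when `a` is
replaced by `a'`. -/
theorem VC.swap (h : VC P S row w v) (hS : S ⊆ P.E) [P.Finite] (hc : c ⊆ S)
    (hW : WallE c row w ∅) (ha : a ∈ c) (ha' : a' ∈ S) (haa : row a' = row a) (hv : v ∈ row a)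
    (hne : a' ≠ a) (ht : t ∈ P.closure (S \ {a, a'}))
    (hs : t ∈ P.closure (S \ {e | e ∈ c ∧ v ∈ row e})) :
    t ∈ P.closure (S \ {e | e ∈ swp row c a' ∧ v ∈ row e}) := by
  have ha'c : a' ∉ c := fun h1 => hne (hW.inj h1 ha haa)
  have h1 := h.star c hc hW
  have h2 := h.pair a (hc ha) a' ha' haa.symm hv hne.symm
  have h3 := h.one hS hc hW ha hv
  have e1 : {e | e ∈ c ∧ v ∈ row e} ∩ {a, a'} = {a} := by
    ext e
    constructor
    · rintro ⟨he, rfl | rfl⟩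
      · rfl
      · exact absurd he.1 ha'c
    · rintro rfl
      exact ⟨⟨ha, hv⟩, Or.inl rfl⟩
  have e2 : {e | e ∈ c ∧ v ∈ row e} ∪ {a, a'} = insert a' {e | e ∈ c ∧ v ∈ row e} := by
    ext e
    constructor
    · rintro (he | rfl | rfl)
      · exact Or.inr he
      · exact Or.inr ⟨ha, hv⟩
      · exact Or.inl rfl
    · rintro (rfl | he)
      · exact Or.inr (Or.inr rfl)
      · exact Or.inl he
  have h4 := rk_remove (P := P) (S := S) {e | e ∈ c ∧ v ∈ row e} a'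
  have h5 := cl_two (P := P) (S := S) (A := {e | e ∈ c ∧ v ∈ row e}) (B := {a, a'}) (z := t)
    (by omega) (by omega) (by rw [e1]; omega) (by rw [e2]; omega) hs ht
  rw [e2] at h5
  rw [swp_star hW ha haa hv]
  refine P.closure_subset_closure ?_ h5
  rintro e ⟨he, he'⟩
  refine ⟨he, ?_⟩
  rintro (h6 | h6)
  · exact he' (Or.inl h6)
  · exact he' (Or.inr h6.1)

/-- **(REL 2)** no location at `v` before and after the change of `a` into `a'`: `a` and `a'` are not
separated -/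
theorem VC.nsep (h : VC P S row w v) (hS : S ⊆ P.E) [P.Finite] (hc : c ⊆ S)
    (hW : WallE c row w ∅) (ha : a ∈ c) (ha' : a' ∈ S) (haa : row a' = row a) (hv : v ∈ row a)
    (hs : t ∈ P.closure (S \ {e | e ∈ c ∧ v ∈ row e}))
    (hs' : t ∈ P.closure (S \ {e | e ∈ swp row c a' ∧ v ∈ row e})) :
    t ∈ P.closure (S \ {a, a'}) := by
  by_cases hne : a' = a
  · subst hne
    refine P.closure_subset_closure ?_ hs
    rintro e ⟨he, he'⟩
    refine ⟨he, fun h1 => he' ?_⟩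
    rcases h1 with rfl | rfl
    · exact ⟨ha, hv⟩
    · exact ⟨ha, hv⟩
  have ha'c : a' ∉ c := fun h1 => hne (hW.inj h1 ha haa)
  obtain ⟨hc', hW'⟩ := swp_rep hc hW ha' ⟨a, ha, haa.symm⟩
  have h1 := h.star c hc hW
  have h2 := h.star _ hc' hW'
  have h3 := h.full hS hc hW ha hv
  rw [swp_star hW ha haa hv] at h2 hs'
  have e1 : {e | e ∈ c ∧ v ∈ row e} ∩ insert a' ({e | e ∈ c ∧ v ∈ row e} \ {a}) =
      {e | e ∈ c ∧ v ∈ row e} \ {a} := by
    ext e
    constructor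
    · rintro ⟨he, rfl | he'⟩
      · exact absurd he.1 ha'c
      · exact he'
    · exact fun he => ⟨he.1, Or.inr he⟩
  have e2 : {e | e ∈ c ∧ v ∈ row e} ∪ insert a' ({e | e ∈ c ∧ v ∈ row e} \ {a}) =
      insert a' {e | e ∈ c ∧ v ∈ row e} := by
    ext e
    constructor
    · rintro (he | rfl | he)
      · exact Or.inr he
      · exact Or.inl rfl
      · exact Or.inr he.1
    · rintro (rfl | he)
      · exact Or.inr (Or.inl rfl)
      · exact Or.inl he
  have h4 := rk_remove (P := P) (S := S) {e | e ∈ c ∧ v ∈ row e} a'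
  have h5 := cl_two (P := P) (S := S) (A := {e | e ∈ c ∧ v ∈ row e})
    (B := insert a' ({e | e ∈ c ∧ v ∈ row e} \ {a})) (z := t)
    (by omega) (by omega) (by rw [e1]; omega) (by rw [e2]; omega) hs hs'
  rw [e2] at h5
  refine P.closure_subset_closure ?_ h5
  rintro e ⟨he, he'⟩
  refine ⟨he, ?_⟩
  rintro (rfl | rfl)
  · exact he' (Or.inr ⟨ha, hv⟩)
  · exact he' (Or.inl rfl)

/-- **(REL 3)** not to be separated is transitive on a row -/
theorem VC.trans (h : VC P S row w v) (hS : S ⊆ P.E) [P.Finite]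
    (hrep : ∃ c, c ⊆ S ∧ WallE c row w ∅) (hmem : ∀ e ∈ S, ∀ c, c ⊆ S → WallE c row w ∅ →
      ∃ e' ∈ c, row e' = row e) (hx : x ∈ S) (hy : y ∈ S) (hz : z ∈ S) (hxy : row x = row y)
    (hyz : row y = row z) (hv : v ∈ row y) (n1 : x ≠ y) (n2 : y ≠ z) (n3 : x ≠ z)
    (h1 : t ∈ P.closure (S \ {x, y})) (h2 : t ∈ P.closure (S \ {y, z})) :
    t ∈ P.closure (S \ {x, z}) := by
  obtain ⟨c, hc, hW⟩ := hrep
  obtain ⟨e, he, hee⟩ := hmem y hy c hc hW
  obtain ⟨hc', hW'⟩ := swp_rep hc hW hy ⟨e, he, hee⟩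
  have h3 := h.one hS hc' hW' (Or.inr rfl) hv
  have h4 := h.pair x hx y hy hxy (hxy ▸ hv) n1
  have h5 := h.pair y hy z hz hyz hv n2
  have e1 : ({x, y} : Set α) ∩ {y, z} = {y} := by
    ext e
    constructor
    · rintro ⟨h8 | h8, h9 | h9⟩
      · exact absurd (h8.symm.trans h9) n1
      · exact absurd (h8.symm.trans h9) n3
      · exact h8
      · exact h8
    · intro h8
      exact ⟨Or.inr h8, Or.inl h8⟩
  have e2 : ({x, y} : Set α) ∪ {y, z} = insert z (insert x {y}) := by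
    ext e
    simp only [mem_union, mem_insert_iff, mem_singleton_iff]
    tauto
  have h6 := rk_remove (P := P) (S := S) {y} x
  have h7 := rk_remove (P := P) (S := S) (insert x {y}) z
  have h8 := cl_two (P := P) (S := S) (A := {x, y}) (B := {y, z}) (z := t) (by omega) (by omega)
    (by rw [e1]; omega) (by rw [e2]; omega) h1 h2
  refine P.closure_subset_closure ?_ h8
  rintro e ⟨he, he'⟩
  refine ⟨he, ?_⟩
  rintro (rfl | rfl)
  · exact he' (Or.inl (Or.inl rfl))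
  · exact he' (Or.inr (Or.inr rfl))

/-- the formula for the rows gives the cocircuits -/
theorem RWx.vc [P.Finite] (h : RWx P S row w) (hv : DeepR (0, 0) (w + 1) (w + 1) 4 v) :
    VC P S row w v := by
  have hSf : S.Finite := P.ground_finite.subset h.sub
  unfold DeepR at hv
  simp only at hv
  have hstar : ∀ c, c ⊆ S → WallE c row w ∅ →
      rk P (S \ {e | e ∈ c ∧ v ∈ row e}) + 1 = rk P S := by
    intro c hc hW
    have h1 := h.toRWal.rk_star hc hW {v} v.2 (by omega) (by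
      intro v' hv'
      rw [Finset.mem_singleton] at hv'
      subst hv'
      omega)
    rw [Finset.card_singleton] at h1
    have e1 : {e | e ∈ c ∧ ∃ v' ∈ ({v} : Finset (ℕ × ℕ)), v' ∈ row e} =
        {e | e ∈ c ∧ v ∈ row e} := by
      ext e
      simp only [Finset.mem_singleton, exists_eq_left, mem_ofPred_eq]
    rwa [e1] at h1
  refine ⟨hstar, fun c hc hW g hg hvg => not_mem_star h.toRWal hc hW hg hvg, ?_, ?_⟩
  · intro c hc hW g hg hvg
    have hm : ∀ p : ℕ × ℕ, p.1 ≤ w → p.2 ≤ w → p ∈ rect 0 0 (w + 1) (w + 1) := by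
      intro p h1 h2
      rw [Gad.mem_rct]
      omega
    obtain ⟨g₁, hg₁, he₁⟩ := hW.surj v (v.1 + 1, v.2) (Or.inl ⟨rfl, Or.inl rfl⟩)
      (hm _ (by omega) (by omega)) (hm _ (by simp only; omega) (by simp only; omega))
      (notMem_empty _)
    obtain ⟨g₂, hg₂, he₂⟩ := hW.surj v (v.1 - 1, v.2) (Or.inl ⟨rfl, Or.inr (by simp only; omega)⟩)
      (hm _ (by omega) (by omega)) (hm _ (by simp only; omega) (by simp only; omega))
      (notMem_empty _)
    by_cases h1 : g₁ = g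
    · refine ⟨g₂, hg₂, by rw [he₂]; exact Sym2.mem_mk_left _ _, ?_⟩
      rintro rfl
      rw [h1] at he₁
      rw [he₁] at he₂
      have h2 : (v.1 + 1, v.2) ∈ s(v, (v.1 - 1, v.2)) := by
        rw [← he₂]
        exact Sym2.mem_mk_right _ _
      rw [Sym2.mem_iff] at h2
      rcases h2 with h2 | h2
      · have := congrArg Prod.fst h2
        simp only at this
        omega
      · have := congrArg Prod.fst h2
        simp only at this
        omega
    · exact ⟨g₁, hg₁, by rw [he₁]; exact Sym2.mem_mk_left _ _, h1⟩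
  · intro a ha a' ha' haa hva hne
    obtain ⟨ν, hν⟩ := h.nul
    have e1 : {b | (∃ e ∈ S, row e = b) ∧ ∀ e ∈ S, row e = b → e ∈ S \ {a}} =
        {b | (∃ e ∈ S, row e = b) ∧ ∀ e ∈ S, row e = b → e ∈ S \ {a, a'}} := by
      ext b
      constructor
      · rintro ⟨h1, h2⟩
        refine ⟨h1, fun e he heb => ⟨he, ?_⟩⟩
        have hab : row a ≠ b := fun h3 => (h2 a ha h3).2 rfl
        rintro (rfl | rfl)
        · exact hab heb
        · exact hab (haa.trans heb)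
      · rintro ⟨h1, h2⟩
        refine ⟨h1, fun e he heb => ⟨he, fun h3 => (h2 e he heb).2 (Or.inl h3)⟩⟩
    have h1 := hν (S \ {a}) sdiff_subset
    have h2 := hν (S \ {a, a'}) sdiff_subset
    rw [e1] at h1
    have h3 : (S \ {a}).ncard + 1 = S.ncard := ncard_sdiff_singleton_add_one ha hSf
    have h4 : (S \ {a, a'}).ncard + 1 = (S \ {a}).ncard := by
      have h5 : S \ {a, a'} = (S \ {a}) \ {a'} := by
        ext e
        simp only [mem_sdiff, mem_insert_iff, mem_singleton_iff, not_or]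
        tauto
      rw [h5]
      exact ncard_sdiff_singleton_add_one ⟨ha', hne.symm⟩ (hSf.subset sdiff_subset)
    have h6 := rk_mono P (X := S \ {a}) (Y := S) sdiff_subset
    omega

end

/-! ### The row matroid -/

section row

variable {α : Type*} {P : Matroid α} {S : Set α} {row : α → Sym2 (ℕ × ℕ)} {w : ℕ} {u v : ℕ × ℕ}
  {c : Set α} {o₁ o₂ t x y : α}

/-- the elements of the row `uv` -/
abbrev RX (S : Set α) (row : α → Sym2 (ℕ × ℕ)) (u v : ℕ × ℕ) : Set α := {e | e ∈ S ∧ row e = s(u, v)}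

lemma FRow_comm : FRow S row c u v = FRow S row c v u := by
  unfold FRow
  rw [Sym2.eq_swap]
  ext e
  simp only [mem_sdiff, mem_ofPred_eq, or_comm]

lemma RX_comm : RX S row u v = RX S row v u := by
  unfold RX
  rw [Sym2.eq_swap]

lemma row_eq_of (huv : u ≠ v) {s : Sym2 (ℕ × ℕ)} (h1 : u ∈ s) (h2 : v ∈ s) : s = s(u, v) :=
  (Sym2.mem_and_mem_iff huv).1 ⟨h1, h2⟩

/-- **(REL 4)** the relations between the elements of the row -/
theorem row_E (huv : u ≠ v) (hc : c ⊆ S) (h₁ : o₁ ∈ c ∧ u ∈ row o₁ ∧ v ∉ row o₁)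
    (h₂ : o₂ ∈ c ∧ v ∈ row o₂ ∧ u ∉ row o₂) (hS : S ⊆ P.E)
    (s₁ : ∀ y ∈ c, u ∈ row y → v ∉ row y → y ∈ P.closure (insert o₁ (FRow S row c u v)))
    (s₂ : ∀ y ∈ c, v ∈ row y → u ∉ row y → y ∈ P.closure (insert o₂ (FRow S row c u v)))
    (hx : x ∈ RX S row u v) (hy : y ∈ RX S row u v) (ht : t ∉ FRow S row c u v) :
    Eqv (P ／ FRow S row c u v) (PK (RX S row u v) o₁ o₂) t x y ↔
      x = y ∨ t ∈ P.closure (S \ {x, y}) := by
  have hne : ∀ e, row e = s(u, v) → e ≠ o₁ ∧ e ≠ o₂ := by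
    intro e he
    constructor
    · rintro rfl
      exact h₁.2.2 (by rw [he]; exact Sym2.mem_mk_right _ _)
    · rintro rfl
      exact h₂.2.2 (by rw [he]; exact Sym2.mem_mk_left _ _)
  have hkey : t ∈ (P ／ FRow S row c u v).closure (PK (RX S row u v) o₁ o₂ \ {x, y}) ↔
      t ∈ P.closure (S \ {x, y}) := by
    refine con_cl_iff ?_ ?_ ht
    · rintro e (he | ⟨he | he | he, he'⟩)
      · refine ⟨he.1.1, ?_⟩
        rintro (h3 | h3)
        · exact he.1.2 (by rw [h3]; exact hx.2)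
        · exact he.1.2 (by rw [h3]; exact hy.2)
      · exact ⟨he ▸ hc h₁.1, he'⟩
      · exact ⟨he ▸ hc h₂.1, he'⟩
      · exact ⟨he.1, he'⟩
    · rintro e ⟨he, he'⟩
      have hsub : FRow S row c u v ∪ PK (RX S row u v) o₁ o₂ \ {x, y} ⊆ P.E := by
        rintro f (hf | ⟨hf | hf | hf, _⟩)
        · exact hS hf.1.1
        · exact hS (hf ▸ hc h₁.1)
        · exact hS (hf ▸ hc h₂.1)
        · exact hS hf.1
      have ho₁ : o₁ ∈ PK (RX S row u v) o₁ o₂ \ {x, y} := by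
        refine ⟨Or.inl rfl, ?_⟩
        rintro (h3 | h3)
        · exact (hne x hx.2).1 h3.symm
        · exact (hne y hy.2).1 h3.symm
      have ho₂ : o₂ ∈ PK (RX S row u v) o₁ o₂ \ {x, y} := by
        refine ⟨Or.inr (Or.inl rfl), ?_⟩
        rintro (h3 | h3)
        · exact (hne x hx.2).2 h3.symm
        · exact (hne y hy.2).2 h3.symm
      by_cases h3 : row e = s(u, v)
      · exact P.mem_closure_of_mem (Or.inr ⟨Or.inr (Or.inr ⟨he, h3⟩), he'⟩) hsub
      by_cases h4 : e ∈ c ∧ (u ∈ row e ∨ v ∈ row e)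
      · rcases h4.2 with h5 | h5
        · refine P.closure_subset_closure ?_
            (s₁ e h4.1 h5 fun h6 => h3 (row_eq_of huv h5 h6))
          exact insert_subset (Or.inr ho₁) subset_union_left
        · refine P.closure_subset_closure ?_
            (s₂ e h4.1 h5 fun h6 => h3 (row_eq_of huv h6 h5))
          exact insert_subset (Or.inr ho₂) subset_union_left
      · exact P.mem_closure_of_mem (Or.inl ⟨⟨he, h3⟩, h4⟩) hsub
  unfold Eqv
  rw [hkey]

/-- **(REL 5)** the relations between the `u`-end and the elements of the row -/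
theorem row_L (huv : u ≠ v) (hc : c ⊆ S) (h₁ : o₁ ∈ c ∧ u ∈ row o₁ ∧ v ∉ row o₁)
    (h₂ : o₂ ∈ c ∧ v ∈ row o₂ ∧ u ∉ row o₂) (hS : S ⊆ P.E)
    (s₂ : ∀ y ∈ c, v ∈ row y → u ∉ row y → y ∈ P.closure (insert o₂ (FRow S row c u v)))
    (hx : x ∈ RX S row u v) (ht : t ∉ FRow S row c u v) :
    Eqv (P ／ FRow S row c u v) (PK (RX S row u v) o₁ o₂) t o₁ x ↔
      t ∈ P.closure (S \ {e | e ∈ swp row c x ∧ u ∈ row e}) := by
  have hne : ∀ e, row e = s(u, v) → e ≠ o₁ ∧ e ≠ o₂ := by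
    intro e he
    constructor
    · rintro rfl
      exact h₁.2.2 (by rw [he]; exact Sym2.mem_mk_right _ _)
    · rintro rfl
      exact h₂.2.2 (by rw [he]; exact Sym2.mem_mk_left _ _)
  have hux : u ∈ row x := by rw [hx.2]; exact Sym2.mem_mk_left _ _
  have hkey : t ∈ (P ／ FRow S row c u v).closure (PK (RX S row u v) o₁ o₂ \ {o₁, x}) ↔
      t ∈ P.closure (S \ {e | e ∈ swp row c x ∧ u ∈ row e}) := by
    refine con_cl_iff ?_ ?_ ht
    · rintro e (he | ⟨he | he | he, he'⟩)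
      · refine ⟨he.1.1, ?_⟩
        rintro ⟨h3 | h3, h4⟩
        · exact he.2 ⟨h3.1, Or.inl h4⟩
        · rw [mem_singleton_iff] at h3
          exact he.1.2 (by rw [h3]; exact hx.2)
      · exact absurd (Or.inl he) he'
      · subst he
        refine ⟨hc h₂.1, fun h3 => h₂.2.2 h3.2⟩
      · refine ⟨he.1, ?_⟩
        rintro ⟨h3 | h3, h4⟩
        · exact h3.2 (he.2.trans hx.2.symm)
        · exact he' (Or.inr h3)
    · rintro e ⟨he, he'⟩
      have hsub : FRow S row c u v ∪ PK (RX S row u v) o₁ o₂ \ {o₁, x} ⊆ P.E := by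
        rintro f (hf | ⟨hf | hf | hf, _⟩)
        · exact hS hf.1.1
        · exact hS (hf ▸ hc h₁.1)
        · exact hS (hf ▸ hc h₂.1)
        · exact hS hf.1
      have ho₂ : o₂ ∈ PK (RX S row u v) o₁ o₂ \ {o₁, x} := by
        refine ⟨Or.inr (Or.inl rfl), ?_⟩
        rintro (h3 | h3)
        · exact h₂.2.2 (h3 ▸ h₁.2.1)
        · exact (hne x hx.2).2 h3.symm
      by_cases h3 : row e = s(u, v)
      · refine P.mem_closure_of_mem (Or.inr ⟨Or.inr (Or.inr ⟨he, h3⟩), ?_⟩) hsub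
        rintro (h4 | h4)
        · exact (hne e h3).1 h4
        · exact he' ⟨Or.inr h4, by rw [h3]; exact Sym2.mem_mk_left _ _⟩
      by_cases h4 : e ∈ c ∧ (u ∈ row e ∨ v ∈ row e)
      · rcases h4.2 with h5 | h5
        · exact absurd ⟨Or.inl ⟨h4.1, fun h6 => h3 (h6.trans hx.2)⟩, h5⟩ he'
        · refine P.closure_subset_closure ?_
            (s₂ e h4.1 h5 fun h6 => h3 (row_eq_of huv h6 h5))
          exact insert_subset (Or.inr ho₂) subset_union_left
      · exact P.mem_closure_of_mem (Or.inl ⟨⟨he, h3⟩, h4⟩) hsub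
  unfold Eqv
  rw [hkey]
  exact ⟨fun h3 => h3.resolve_left fun h4 => (hne x hx.2).1 h4.symm, Or.inr⟩

/-- **(REL 6)** the relations between the `v`-end and the elements of the row -/
theorem row_R (huv : u ≠ v) (hc : c ⊆ S) (h₁ : o₁ ∈ c ∧ u ∈ row o₁ ∧ v ∉ row o₁)
    (h₂ : o₂ ∈ c ∧ v ∈ row o₂ ∧ u ∉ row o₂) (hS : S ⊆ P.E)
    (s₁ : ∀ y ∈ c, u ∈ row y → v ∉ row y → y ∈ P.closure (insert o₁ (FRow S row c u v)))
    (hx : x ∈ RX S row u v) (ht : t ∉ FRow S row c u v) :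
    Eqv (P ／ FRow S row c u v) (PK (RX S row u v) o₁ o₂) t o₂ x ↔
      t ∈ P.closure (S \ {e | e ∈ swp row c x ∧ v ∈ row e}) := by
  have e1 : PK (RX S row u v) o₁ o₂ = PK (RX S row v u) o₂ o₁ := by
    rw [RX_comm]
    exact insert_comm _ _ _
  rw [e1, FRow_comm]
  rw [FRow_comm] at s₁ ht
  rw [RX_comm] at hx
  exact row_L huv.symm hc h₂ h₁ hS s₁ hx ht

end row

/-! ### The star matroid -/

section star

variable {α : Type*} {P : Matroid α} {S : Set α} {row : α → Sym2 (ℕ × ℕ)} {w : ℕ} {u : ℕ × ℕ}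
  {V : Fin 3 → ℕ × ℕ} {c : Set α} {o : Fin 3 → α} {t x y : α}

/-- the hypotheses on the ends of a star -/
structure StE (P : Matroid α) (S : Set α) (row : α → Sym2 (ℕ × ℕ)) (c : Set α) (u : ℕ × ℕ)
    (V : Fin 3 → ℕ × ℕ) (o : Fin 3 → α) : Prop where
  sub : S ⊆ P.E
  hc : c ⊆ S
  uV : ∀ i, u ≠ V i
  inj : ∀ i j, V i = V j → i = j
  mem : ∀ i, o i ∈ c
  vo : ∀ i, V i ∈ row (o i)
  uo : ∀ i, u ∉ row (o i)
  nbr : ∀ e ∈ S, u ∈ row e → ∃ i, row e = s(u, V i)
  one : ∀ e ∈ c, ∀ i j, V i ∈ row e → V j ∈ row e → i = j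
  span : ∀ i, ∀ y ∈ c, V i ∈ row y → u ∉ row y →
    y ∈ P.closure (insert (o i) (FStar S row c u (V 0) (V 1) (V 2)))

/-- the legs without the ends -/
abbrev SX (S : Set α) (row : α → Sym2 (ℕ × ℕ)) (u : ℕ × ℕ) (V : Fin 3 → ℕ × ℕ) (i : Fin 3) :
    Set α := RX S row u (V i)

lemma mem_TK {X : Fin 3 → Set α} {e : α} : e ∈ TK X o ↔ ∃ i, e = o i ∨ e ∈ X i := by
  constructor
  · rintro ((h | h) | h)
    · exact ⟨0, h⟩
    · exact ⟨1, h⟩
    · exact ⟨2, h⟩
  · rintro ⟨i, h⟩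
    fin_cases i
    · exact Or.inl (Or.inl h)
    · exact Or.inl (Or.inr h)
    · exact Or.inr h

lemma mem_V3 {s : Sym2 (ℕ × ℕ)} : (V 0 ∈ s ∨ V 1 ∈ s ∨ V 2 ∈ s) ↔ ∃ i, V i ∈ s := by
  constructor
  · rintro (h | h | h)
    · exact ⟨0, h⟩
    · exact ⟨1, h⟩
    · exact ⟨2, h⟩
  · rintro ⟨i, h⟩
    fin_cases i
    · exact Or.inl h
    · exact Or.inr (Or.inl h)
    · exact Or.inr (Or.inr h)

/-- **(REL 7)** closures of the theta without some elements `A` of the legs and without some ends -/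
theorem star_cl (h : StE P S row c u V o) {A : Set α} (hA : ∀ a ∈ A, ∃ i, a ∈ SX S row u V i)
    {J : Set (Fin 3)} (ht : t ∉ FStar S row c u (V 0) (V 1) (V 2)) :
    t ∈ (P ／ FStar S row c u (V 0) (V 1) (V 2)).closure (TK (SX S row u V) o \ (A ∪ o '' J)) ↔
      t ∈ P.closure (S \ (A ∪ {e | e ∈ c ∧ u ∉ row e ∧ ∃ i ∈ J, V i ∈ row e})) := by
  have hne : ∀ e i, u ∈ row e → e ≠ o i := by
    rintro e i he rfl
    exact h.uo i he
  have hAu : ∀ a ∈ A, u ∈ row a := by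
    intro a ha
    obtain ⟨i, hi⟩ := hA a ha
    rw [hi.2]
    exact Sym2.mem_mk_left _ _
  have hF : ∀ e, e ∈ FStar S row c u (V 0) (V 1) (V 2) ↔
      e ∈ S ∧ u ∉ row e ∧ ¬ (e ∈ c ∧ ∃ i, V i ∈ row e) := by
    intro e
    unfold FStar
    simp only [mem_sdiff, mem_ofPred_eq, mem_V3]
    exact ⟨fun h1 => ⟨h1.1.1, h1.1.2, h1.2⟩, fun h1 => ⟨⟨h1.1, h1.2.1⟩, h1.2.2⟩⟩
  have hsubS : FStar S row c u (V 0) (V 1) (V 2) ∪
      TK (SX S row u V) o \ (A ∪ o '' J) ⊆ S := by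
    rintro e (he | ⟨he, _⟩)
    · exact ((hF e).1 he).1
    · obtain ⟨i, rfl | hi⟩ := mem_TK.1 he
      · exact h.hc (h.mem i)
      · exact hi.1
  refine con_cl_iff ?_ ?_ ht
  · intro e he
    refine ⟨hsubS he, ?_⟩
    rcases he with he | ⟨he, he'⟩
    · have h1 := (hF e).1 he
      rintro (h2 | h2)
      · exact h1.2.1 (hAu e h2)
      · obtain ⟨i, _, hi⟩ := h2.2.2
        exact h1.2.2 ⟨h2.1, i, hi⟩
    · rintro (h2 | h2)
      · exact he' (Or.inl h2)
      · obtain ⟨i, rfl | hi⟩ := mem_TK.1 he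
        · obtain ⟨j, hj, hj'⟩ := h2.2.2
          have h3 := h.one _ h2.1 i j (h.vo i) hj'
          subst h3
          exact he' (Or.inr ⟨i, hj, rfl⟩)
        · refine h2.2.1 ?_
          rw [hi.2]
          exact Sym2.mem_mk_left _ _
  · rintro e ⟨he, he'⟩
    by_cases h1 : u ∈ row e
    · obtain ⟨i, hi⟩ := h.nbr e he h1
      refine P.mem_closure_of_mem (Or.inr ⟨mem_TK.2 ⟨i, Or.inr ⟨he, hi⟩⟩, ?_⟩)
        (hsubS.trans h.sub)
      rintro (h2 | ⟨j, hj, rfl⟩)
      · exact he' (Or.inl h2)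
      · exact hne _ j h1 rfl
    by_cases h2 : e ∈ c ∧ ∃ i, V i ∈ row e
    · obtain ⟨h3, i, hi⟩ := h2
      refine P.closure_subset_closure ?_ (h.span i e h3 hi h1)
      refine insert_subset (Or.inr ⟨mem_TK.2 ⟨i, Or.inl rfl⟩, ?_⟩) subset_union_left
      rintro (h4 | ⟨j, hj, hj'⟩)
      · exact h.uo i (hAu _ h4)
      · have h5 := h.one _ (h.mem j) i j (by rw [hj']; exact h.vo i) (h.vo j)
        subst h5
        exact he' (Or.inr ⟨h3, h1, i, hj, hi⟩)
    · exact P.mem_closure_of_mem (Or.inl ((hF e).2 ⟨he, h1, h2⟩)) (hsubS.trans h.sub)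

/-- **(REL 8)** the relations on a leg -/
theorem star_E (h : StE P S row c u V o) {i : Fin 3} (hx : x ∈ SX S row u V i)
    (hy : y ∈ SX S row u V i) (ht : t ∉ FStar S row c u (V 0) (V 1) (V 2)) :
    Eqv (P ／ FStar S row c u (V 0) (V 1) (V 2)) (TK (SX S row u V) o) t x y ↔
      x = y ∨ t ∈ P.closure (S \ {x, y}) := by
  have h1 := star_cl h (A := {x, y}) (J := ∅) (t := t) (by
    rintro a (rfl | rfl)
    exacts [⟨i, hx⟩, ⟨i, hy⟩]) ht
  have e1 : ({x, y} : Set α) ∪ o '' ∅ = {x, y} := by simp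
  have e2 : ({x, y} : Set α) ∪ {e | e ∈ c ∧ u ∉ row e ∧ ∃ i ∈ (∅ : Set (Fin 3)), V i ∈ row e} =
      {x, y} := by simp
  rw [e1, e2] at h1
  unfold Eqv
  rw [h1]

/-- **(REL 9)** three elements of different legs -/
theorem star_B (h : StE P S row c u V o) {x₀ x₁ x₂ : α} (h0 : x₀ ∈ SX S row u V 0)
    (h1 : x₁ ∈ SX S row u V 1) (h2 : x₂ ∈ SX S row u V 2)
    (ht : t ∉ FStar S row c u (V 0) (V 1) (V 2)) :
    t ∈ (P ／ FStar S row c u (V 0) (V 1) (V 2)).closure (TK (SX S row u V) o \ {x₀, x₁, x₂}) ↔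
      t ∈ P.closure (S \ {x₀, x₁, x₂}) := by
  have h3 := star_cl h (A := {x₀, x₁, x₂}) (J := ∅) (t := t) (by
    rintro a (rfl | rfl | rfl)
    exacts [⟨0, h0⟩, ⟨1, h1⟩, ⟨2, h2⟩]) ht
  have e1 : ({x₀, x₁, x₂} : Set α) ∪ o '' ∅ = {x₀, x₁, x₂} := by simp
  have e2 : ({x₀, x₁, x₂} : Set α) ∪
      {e | e ∈ c ∧ u ∉ row e ∧ ∃ i ∈ (∅ : Set (Fin 3)), V i ∈ row e} = {x₀, x₁, x₂} := by simp
  rwa [e1, e2] at h3

/-- **(REL 10)** the relations between an end and the elements of its leg -/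
theorem star_O (h : StE P S row c u V o) {i : Fin 3} (hx : x ∈ SX S row u V i)
    (ht : t ∉ FStar S row c u (V 0) (V 1) (V 2)) :
    Eqv (P ／ FStar S row c u (V 0) (V 1) (V 2)) (TK (SX S row u V) o) t (o i) x ↔
      t ∈ P.closure (S \ {e | e ∈ swp row c x ∧ V i ∈ row e}) := by
  have hux : u ∈ row x := by rw [hx.2]; exact Sym2.mem_mk_left _ _
  have hvx : V i ∈ row x := by rw [hx.2]; exact Sym2.mem_mk_right _ _
  have hox : o i ≠ x := by
    rintro rfl
    exact h.uo i hux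
  have h1 := star_cl h (A := {x}) (J := {i}) (t := t) (by
    rintro a rfl
    exact ⟨i, hx⟩) ht
  have e1 : ({x} : Set α) ∪ o '' {i} = {o i, x} := by
    rw [image_singleton, union_comm]
    rfl
  have e2 : ({x} : Set α) ∪ {e | e ∈ c ∧ u ∉ row e ∧ ∃ j ∈ ({i} : Set (Fin 3)), V j ∈ row e} =
      {e | e ∈ swp row c x ∧ V i ∈ row e} := by
    ext e
    simp only [mem_union, mem_singleton_iff, mem_ofPred_eq, exists_eq_left]
    constructor
    · rintro (rfl | ⟨h2, h3, h4⟩)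
      · exact ⟨Or.inr rfl, hvx⟩
      · exact ⟨Or.inl ⟨h2, fun h5 => h3 (h5 ▸ hux)⟩, h4⟩
    · rintro ⟨h2 | h2, h4⟩
      · refine Or.inr ⟨h2.1, fun h5 => h2.2 ?_, h4⟩
        rw [hx.2]
        exact row_eq_of (h.uV i) h5 h4
      · exact Or.inl h2
  rw [e1, e2] at h1
  unfold Eqv
  rw [h1]
  exact ⟨fun h3 => h3.resolve_left hox, Or.inr⟩

end star

end DA
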