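import Pool.Agent.DA.Fat2

/-!
# Merging two consecutive rows of a rectangle
-/

open Set BIC BICS
open scoped Matroid

namespace DA

open Gad

/-- The map of the rows which merges the rows `q` and `q + 1`. -/
def gq (q y : ℕ) : ℕ := if y ≤ q then y else y - 1

lemma gq_le {q y : ℕ} (h : y ≤ q) : gq q y = y := if_pos h

lemma gq_gt {q y : ℕ} (h : q < y) : gq q y = y - 1 := if_neg (not_le.2 h)

/-- The map of the vertices. -/
def rq (q : ℕ) (v : ℕ × ℕ) : ℕ × ℕ := (v.1, gq q v.2)

/-- The centre of a class. -/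
def cq (q : ℕ) (w : ℕ × ℕ) : ℕ × ℕ := (w.1, if w.2 ≤ q then w.2 else w.2 + 1)

section

variable {α : Type*} {P : Matroid α} {S : Set α} {ends : α → Sym2 (ℕ × ℕ)} {X : ℕ × ℕ}
  {a b q : ℕ} {K : Set (ℕ × ℕ)}

lemma adj_v {x x' y y' : ℕ} (h : x = x') (h' : y + 1 = y' ∨ y' + 1 = y) :
    BICS.adj (x, y) (x', y') := Or.inl ⟨h, h'⟩

lemma adj_h {x x' y y' : ℕ} (h : y = y') (h' : x + 1 = x' ∨ x' + 1 = x) :
    BICS.adj (x, y) (x', y') := Or.inr ⟨h, h'⟩

/-- Membership in the quotient region. -/
lemma mem_quo (hq1 : X.2 + 10 ≤ q) (hq2 : q + 12 ≤ X.2 + b)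
    (hKq : ∀ v ∈ K, v.2 + 20 ≤ q ∨ q + 20 ≤ v.2) :
    rq q '' (rect X.1 X.2 a b \ K) = rect X.1 X.2 a (b - 1) \ rq q '' K := by
  ext ⟨w1, w2⟩
  rw [mem_sdiff, Gad.mem_rct]
  simp only
  constructor
  · rintro ⟨⟨v1, v2⟩, ⟨hv, hvK⟩, he⟩
    rw [Gad.mem_rct] at hv
    simp only [rq, Prod.mk.injEq] at he hv
    obtain ⟨rfl, he⟩ := he
    refine ⟨?_, ?_⟩
    · unfold gq at he
      split_ifs at he <;> omega
    · rintro ⟨⟨k1, k2⟩, hk, hk'⟩
      simp only [rq, Prod.mk.injEq] at hk'
      obtain ⟨rfl, hk'⟩ := hk'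
      have h1 := hKq _ hk
      simp only at h1
      have h2 : k2 = v2 := by
        unfold gq at he hk'
        split_ifs at he hk' <;> omega
      rw [h2] at hk
      exact hvK hk
  · rintro ⟨hw, hwK⟩
    by_cases h1 : w2 ≤ q
    · refine ⟨(w1, w2), ⟨?_, fun hk => hwK ⟨(w1, w2), hk, ?_⟩⟩, ?_⟩
      · rw [Gad.mem_rct]
        simp only
        omega
      · simp only [rq, gq_le h1]
      · simp only [rq, gq_le h1]
    · refine ⟨(w1, w2 + 1), ⟨?_, fun hk => hwK ⟨(w1, w2 + 1), hk, ?_⟩⟩, ?_⟩
      · rw [Gad.mem_rct]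
        simp only
        omega
      · simp only [rq, gq_gt (show q < w2 + 1 by omega)]
        rfl
      · simp only [rq, gq_gt (show q < w2 + 1 by omega)]
        rfl

/-- **Merging the rows `q` and `q + 1`.** -/
theorem row_step [P.Finite] (hB : Bic P S ends) (hG : CWL.GrdU S ends (rect X.1 X.2 a b \ K))
    (ha : 2 ≤ a) (hq1 : X.2 + 10 ≤ q) (hq2 : q + 12 ≤ X.2 + b)
    (hKq : ∀ v ∈ K, v.2 + 20 ≤ q ∨ q + 20 ≤ v.2) (hKf : K.Finite)
    (hKd : ∀ v ∈ K, DeepR X a b 10 v) (hKs : ∀ v ∈ K, ∀ v' ∈ K, v ≠ v' → 10 < sd v v') :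
    ∃ Z S' : Set α, Z ⊆ S ∧ S' ⊆ S ∧ Bic (P ／ Z) S' (fun e => (ends e).map (rq q)) ∧
      CWL.GrdU S' (fun e => (ends e).map (rq q)) (rect X.1 X.2 a (b - 1) \ rq q '' K) ∧
      ∀ z ∈ P.closure S, z ∉ S → z ∈ (P ／ Z).closure S' ∧ z ∉ S' ∧
        ∀ w, DeepR X a (b - 1) 10 w → w ∉ rq q '' K →
          ((∀ p, rq q p = w → p ∉ CWL.Loc P S ends z) →
            w ∉ CWL.Loc (P ／ Z) S' (fun e => (ends e).map (rq q)) z) ∧
          ∀ p, rq q p = w → p ∈ CWL.Loc P S ends z →
            (∀ p', rq q p' = w → p' ≠ p → p' ∉ CWL.Loc P S ends z) →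
            w ∈ CWL.Loc (P ／ Z) S' (fun e => (ends e).map (rq q)) z := by
  classical
  set A : Set (ℕ × ℕ) := rect X.1 X.2 a b \ K with hA
  have hAf : A.Finite := (rect_finite _ _ _ _).subset sdiff_subset
  have hmemA : ∀ v, v ∈ A ↔ (X.1 ≤ v.1 ∧ v.1 < X.1 + a ∧ X.2 ≤ v.2 ∧ v.2 < X.2 + b) ∧ v ∉ K := by
    intro v
    rw [hA, mem_sdiff, Gad.mem_rct]
  have hSA : ∀ e ∈ S, ∀ v ∈ ends e, v ∈ A := by
    intro e he v hv
    obtain ⟨p, p', h1, _, h2, h3⟩ := hG.mem e he
    rw [h1, Sym2.mem_iff] at hv
    rcases hv with rfl | rfl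
    · exact h2
    · exact h3
  -- the vertical elements between the rows
  have hKrow : ∀ v : ℕ × ℕ, q ≤ v.2 + 19 → v.2 ≤ q + 19 → v ∉ K := by
    intro v h1 h2 hv
    have := hKq v hv
    omega
  have hex : ∀ v : ℕ × ℕ, v ∈ A → v.2 = q + 1 → ∃ e ∈ S, ends e = s(v, (v.1, q)) := by
    intro v hv hvq
    have hv' := ((hmemA v).1 hv).1
    refine hG.surj v (v.1, q) ?_ hv ?_
    · exact adj_v (x := v.1) (y := v.2) rfl (Or.inr (by omega))
    · rw [hmemA]
      refine ⟨by simp only; omega, hKrow _ (by simp only; omega) (by simp only; omega)⟩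
  obtain ⟨ζ, hζ⟩ : ∃ ζ : ℕ × ℕ → α, ∀ v ∈ A, v.2 = q + 1 → ζ v ∈ S ∧ ends (ζ v) = s(v, (v.1, q)) := by
    rcases isEmpty_or_nonempty α with hα | hα
    · -- no elements: no such vertex
      have hno : ∀ v ∈ A, v.2 ≠ q + 1 := by
        intro v hv hvq
        obtain ⟨e, _⟩ := hex v hv hvq
        exact hα.elim e
      by_cases hX : (X.1, q + 1) ∈ A
      · exact absurd rfl (hno _ hX)
      · exfalso
        apply hX
        rw [hmemA]
        exact ⟨by simp only; omega, hKrow _ (by simp only; omega) (by simp only; omega)⟩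
    · refine ⟨fun v => if h : v ∈ A ∧ v.2 = q + 1 then (hex v h.1 h.2).choose else
        Classical.arbitrary α, ?_⟩
      intro v hv hvq
      simp only
      rw [dif_pos ⟨hv, hvq⟩]
      exact (hex v hv hvq).choose_spec
  have hcen : ∀ v ∈ A, cq q (rq q v) = if v.2 = q + 1 then (v.1, q) else v := by
    rintro ⟨v1, v2⟩ _
    simp only [cq, rq, gq]
    split_ifs <;> first | rfl | (simp only [Prod.mk.injEq, true_and]; omega)
  have hlv : ∀ v, v ∈ lvs A (rq q) (cq q) ↔ v ∈ A ∧ v.2 = q + 1 := by
    intro v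
    constructor
    · rintro ⟨h1, h2⟩
      refine ⟨h1, ?_⟩
      by_contra h3
      rw [hcen v h1, if_neg h3] at h2
      exact h2 rfl
    · rintro ⟨h1, h2⟩
      refine ⟨h1, ?_⟩
      rw [hcen v h1, if_pos h2]
      intro h3
      have := congrArg Prod.snd h3
      simp only at this
      omega
  have hst : Star S ends A (rq q) (cq q) ζ := by
    refine ⟨?_, ?_, ?_, ?_⟩
    · intro v hv
      rw [hcen v hv]
      split_ifs with h1
      · have hv' := ((hmemA v).1 hv).1
        rw [hmemA]
        exact ⟨by simp only; omega, hKrow _ (by simp only; omega) (by simp only; omega)⟩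
      · exact hv
    · intro v hv
      rw [hcen v hv]
      split_ifs with h1
      · simp only [rq, h1, gq_le (le_refl q), gq_gt (Nat.lt_succ_self q)]
        rfl
      · rfl
    · intro v hv hvc
      exact (hζ v hv ((hlv v).1 ⟨hv, hvc⟩).2).1
    · intro v hv hvc
      have h1 := ((hlv v).1 ⟨hv, hvc⟩).2
      rw [hcen v hv, if_pos h1]
      exact (hζ v hv h1).2
  set Z : Set α := ζ '' lvs A (rq q) (cq q) with hZ
  have hZmem : ∀ e ∈ S, e ∈ Z ↔ ∃ x, ends e = s((x, q + 1), (x, q)) := by
    intro e he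
    constructor
    · rintro ⟨v, hv, rfl⟩
      obtain ⟨h1, h2⟩ := (hlv v).1 hv
      refine ⟨v.1, ?_⟩
      rw [(hζ v h1 h2).2, ← h2]
    · rintro ⟨x, hx⟩
      have h1 : (x, q + 1) ∈ A := hSA e he _ (by rw [hx]; simp)
      refine ⟨(x, q + 1), (hlv _).2 ⟨h1, rfl⟩, ?_⟩
      obtain ⟨h2, h3⟩ := hζ _ h1 rfl
      exact hG.inj h2 he (by rw [h3, hx])
  set Rw : Set α := {e | ∃ x, ends e = s((x, q + 1), (x + 1, q + 1))} with hRw
  set S' : Set α := {e | e ∈ S ∧ e ∉ Z ∧ e ∉ Rw} with hS'
  have hS'Z : S' ⊆ S \ Z := fun e he => ⟨he.1, he.2.1⟩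
  have hquo := mem_quo (a := a) hq1 hq2 hKq
  -- elements of `S'`
  have hform : ∀ e ∈ S', ∃ x y, ((ends e = s((x, y), (x + 1, y)) ∧ y ≠ q + 1 ∧ (x, y) ∈ A ∧
      (x + 1, y) ∈ A) ∨
      (ends e = s((x, y), (x, y + 1)) ∧ y ≠ q ∧ (x, y) ∈ A ∧ (x, y + 1) ∈ A)) := by
    rintro e ⟨he, heZ, heR⟩
    obtain ⟨⟨p1, p2⟩, ⟨r1, r2⟩, h1, h2, h3, h4⟩ := hG.mem e he
    unfold BICS.adj at h2
    simp only at h2
    rcases h2 with ⟨rfl, h2 | h2⟩ | ⟨rfl, h2 | h2⟩
    · subst h2
      refine ⟨p1, p2, Or.inr ⟨h1, ?_, h3, h4⟩⟩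
      rintro rfl
      exact heZ ((hZmem e he).2 ⟨p1, by rw [h1, Sym2.eq_swap]⟩)
    · subst h2
      refine ⟨p1, r2, Or.inr ⟨by rw [h1, Sym2.eq_swap], ?_, h4, h3⟩⟩
      rintro rfl
      exact heZ ((hZmem e he).2 ⟨p1, h1⟩)
    · subst h2
      refine ⟨p1, p2, Or.inl ⟨h1, ?_, h3, h4⟩⟩
      rintro rfl
      exact heR ⟨p1, h1⟩
    · subst h2
      refine ⟨r1, p2, Or.inl ⟨by rw [h1, Sym2.eq_swap], ?_, h4, h3⟩⟩
      rintro rfl
      exact heR ⟨r1, by rw [h1, Sym2.eq_swap]⟩
  have hgr : CWL.GrdU S' (fun e => (ends e).map (rq q)) (rect X.1 X.2 a (b - 1) \ rq q '' K) := by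
    refine ⟨?_, ?_, ?_⟩
    · intro e he e' he' hee
      simp only at hee
      apply hG.inj he.1 he'.1
      obtain ⟨x, y, h1⟩ := hform e he
      obtain ⟨x', y', h1'⟩ := hform e' he'
      rcases h1 with ⟨h1, h2, _⟩ | ⟨h1, h2, _⟩ <;> rcases h1' with ⟨h1', h2', _⟩ | ⟨h1', h2', _⟩
      · rw [h1, h1', Sym2.map_mk, Sym2.map_mk, Sym2.eq_iff] at hee
        simp only [rq, Prod.mk.injEq] at hee
        have hx : x = x' := by omega
        have hy : y = y' := by
          subst hx
          have h5 : gq q y = gq q y' := by omega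
          unfold gq at h5
          split_ifs at h5 <;> omega
        rw [h1, h1', hx, hy]
      · exfalso
        rw [h1, h1', Sym2.map_mk, Sym2.map_mk, Sym2.eq_iff] at hee
        simp only [rq, Prod.mk.injEq] at hee
        omega
      · exfalso
        rw [h1, h1', Sym2.map_mk, Sym2.map_mk, Sym2.eq_iff] at hee
        simp only [rq, Prod.mk.injEq] at hee
        omega
      · rw [h1, h1', Sym2.map_mk, Sym2.map_mk, Sym2.eq_iff] at hee
        simp only [rq, Prod.mk.injEq] at hee
        have hx : x = x' := by omega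
        have hy : y = y' := by
          unfold gq at hee
          split_ifs at hee <;> omega
        rw [h1, h1', hx, hy]
    · intro e he
      obtain ⟨x, y, h1 | h1⟩ := hform e he
      · obtain ⟨h1, h2, h3, h4⟩ := h1
        refine ⟨rq q (x, y), rq q (x + 1, y), by simp only [h1, Sym2.map_mk], ?_, ?_, ?_⟩
        · exact adj_h rfl (Or.inl rfl)
        · rw [← hquo]; exact ⟨_, h3, rfl⟩
        · rw [← hquo]; exact ⟨_, h4, rfl⟩
      · obtain ⟨h1, h2, h3, h4⟩ := h1
        refine ⟨rq q (x, y), rq q (x, y + 1), by simp only [h1, Sym2.map_mk], ?_, ?_, ?_⟩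
        · refine adj_v rfl (Or.inl ?_)
          simp only [gq]
          split_ifs <;> omega
        · rw [← hquo]; exact ⟨_, h3, rfl⟩
        · rw [← hquo]; exact ⟨_, h4, rfl⟩
    · -- surjectivity
      have key : ∀ p p' : ℕ × ℕ, p ∈ rect X.1 X.2 a (b - 1) \ rq q '' K →
          p' ∈ rect X.1 X.2 a (b - 1) \ rq q '' K →
          ((p.1 = p'.1 ∧ p.2 + 1 = p'.2) ∨ (p.2 = p'.2 ∧ p.1 + 1 = p'.1)) →
          ∃ e ∈ S', (ends e).map (rq q) = s(p, p') := by
        rintro ⟨p1, p2⟩ ⟨r1, r2⟩ hp hp' hpp
        rw [← hquo] at hp hp'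
        obtain ⟨⟨u1, u2⟩, hu, hu'⟩ := hp
        obtain ⟨⟨v1, v2⟩, hv, hv'⟩ := hp'
        simp only [rq, Prod.mk.injEq] at hu' hv' hpp
        obtain ⟨rfl, hu'⟩ := hu'
        obtain ⟨rfl, hv'⟩ := hv'
        rcases hpp with ⟨rfl, hpp⟩ | ⟨hpp, rfl⟩
        · -- vertical
          by_cases h1 : p2 < q
          · have e1 : u2 = p2 := by unfold gq at hu'; split_ifs at hu' <;> omega
            by_cases h2 : p2 + 1 = q
            · -- the upper end is `(u1, q)`
              have e2 : (u1, q) ∈ A := by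
                have hv2 := ((hmemA _).1 hv).1
                rw [hmemA]
                refine ⟨by simp only at hv2 ⊢; omega, hKrow _ (by simp only; omega)
                  (by simp only; omega)⟩
              obtain ⟨e, he, hee⟩ := hG.surj (u1, u2) (u1, q) (adj_v rfl (by omega)) hu e2
              refine ⟨e, ⟨he, ?_, ?_⟩, ?_⟩
              · rw [hZmem e he]
                rintro ⟨x, hx⟩
                rw [hee, Sym2.eq_iff] at hx
                simp only [Prod.mk.injEq] at hx
                omega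
              · rintro ⟨x, hx⟩
                rw [hee, Sym2.eq_iff] at hx
                simp only [Prod.mk.injEq] at hx
                omega
              · rw [hee, Sym2.map_mk]
                simp only [rq]
                rw [hu', gq_le (le_refl q)]
                have : r2 = q := by omega
                rw [this]
            · have e2 : v2 = r2 := by unfold gq at hv'; split_ifs at hv' <;> omega
              obtain ⟨e, he, hee⟩ := hG.surj (u1, u2) (u1, v2) (adj_v rfl (by omega)) hu hv
              refine ⟨e, ⟨he, ?_, ?_⟩, ?_⟩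
              · rw [hZmem e he]
                rintro ⟨x, hx⟩
                rw [hee, Sym2.eq_iff] at hx
                simp only [Prod.mk.injEq] at hx
                omega
              · rintro ⟨x, hx⟩
                rw [hee, Sym2.eq_iff] at hx
                simp only [Prod.mk.injEq] at hx
                omega
              · rw [hee, Sym2.map_mk]
                simp only [rq]
                rw [hu', hv']
          · -- above
            have e2 : v2 = r2 + 1 := by unfold gq at hv'; split_ifs at hv' <;> omega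
            have e1 : (u1, p2 + 1) ∈ A := by
              by_cases h2 : p2 = q
              · have hu2 := ((hmemA _).1 hu).1
                rw [hmemA]
                refine ⟨by simp only at hu2 ⊢; omega, hKrow _ (by simp only; omega)
                  (by simp only; omega)⟩
              · have e3 : u2 = p2 + 1 := by unfold gq at hu'; split_ifs at hu' <;> omega
                rw [← e3]
                exact hu
            obtain ⟨e, he, hee⟩ := hG.surj (u1, p2 + 1) (u1, v2) (adj_v rfl (by omega)) e1 hv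
            refine ⟨e, ⟨he, ?_, ?_⟩, ?_⟩
            · rw [hZmem e he]
              rintro ⟨x, hx⟩
              rw [hee, Sym2.eq_iff] at hx
              simp only [Prod.mk.injEq] at hx
              omega
            · rintro ⟨x, hx⟩
              rw [hee, Sym2.eq_iff] at hx
              simp only [Prod.mk.injEq] at hx
              omega
            · rw [hee, Sym2.map_mk]
              simp only [rq]
              rw [hv', gq_gt (show q < p2 + 1 by omega)]
              rfl
        · -- horizontal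
          subst hpp
          by_cases h1 : p2 = q
          · have hu2 := ((hmemA _).1 hu).1
            have hv2 := ((hmemA _).1 hv).1
            simp only at hu2 hv2
            obtain ⟨e, he, hee⟩ := hG.surj (u1, q) (u1 + 1, q) (adj_h rfl (Or.inl rfl)) (by
                rw [hmemA]
                exact ⟨by simp only; omega, hKrow _ (by simp only; omega)
                  (by simp only; omega)⟩) (by
                rw [hmemA]
                exact ⟨by simp only; omega, hKrow _ (by simp only; omega)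
                  (by simp only; omega)⟩)
            refine ⟨e, ⟨he, ?_, ?_⟩, ?_⟩
            · rw [hZmem e he]
              rintro ⟨x, hx⟩
              rw [hee, Sym2.eq_iff] at hx
              simp only [Prod.mk.injEq] at hx
              omega
            · rintro ⟨x, hx⟩
              rw [hee, Sym2.eq_iff] at hx
              simp only [Prod.mk.injEq] at hx
              omega
            · rw [hee, Sym2.map_mk]
              simp only [rq]
              rw [gq_le (le_refl q), h1]
          · have e1 : u2 = v2 := by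
              unfold gq at hu' hv'
              split_ifs at hu' hv' <;> omega
            subst e1
            have e2 : u2 ≠ q + 1 := by
              rintro rfl
              unfold gq at hu'
              split_ifs at hu' <;> omega
            obtain ⟨e, he, hee⟩ := hG.surj (u1, u2) (u1 + 1, u2) (adj_h rfl (Or.inl rfl)) hu hv
            refine ⟨e, ⟨he, ?_, ?_⟩, ?_⟩
            · rw [hZmem e he]
              rintro ⟨x, hx⟩
              rw [hee, Sym2.eq_iff] at hx
              simp only [Prod.mk.injEq] at hx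
              omega
            · rintro ⟨x, hx⟩
              rw [hee, Sym2.eq_iff] at hx
              simp only [Prod.mk.injEq] at hx
              omega
            · rw [hee, Sym2.map_mk]
              simp only [rq]
              rw [hu']
      rintro ⟨p1, p2⟩ ⟨r1, r2⟩ hadj hp hp'
      unfold BICS.adj at hadj
      simp only at hadj
      rcases hadj with ⟨h1, h2 | h2⟩ | ⟨h1, h2 | h2⟩
      · exact key _ _ hp hp' (Or.inl ⟨h1, h2⟩)
      · obtain ⟨e, he, hee⟩ := key _ _ hp' hp (Or.inl ⟨h1.symm, h2⟩)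
        exact ⟨e, he, by rw [Sym2.eq_swap]; exact hee⟩
      · exact key _ _ hp hp' (Or.inr ⟨h1, h2⟩)
      · obtain ⟨e, he, hee⟩ := key _ _ hp' hp (Or.inr ⟨h1.symm, h2⟩)
        exact ⟨e, he, by rw [Sym2.eq_swap]; exact hee⟩
  -- `K` in the quotient
  have hK'd : ∀ v ∈ rq q '' K, DeepR (X.1, X.2) a (b - 1) 8 v := by
    rintro _ ⟨⟨k1, k2⟩, hk, rfl⟩
    have h1 := hKd _ hk
    have h2 := hKq _ hk
    unfold DeepR at h1 ⊢
    simp only [rq, gq] at h1 h2 ⊢
    split_ifs <;> omega
  have hK's : ∀ v ∈ rq q '' K, ∀ v' ∈ rq q '' K, v ≠ v' → 8 < sd v v' := by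
    rintro _ ⟨⟨k1, k2⟩, hk, rfl⟩ _ ⟨⟨l1, l2⟩, hl, rfl⟩ hne
    have h1 := hKs _ hk _ hl (by rintro h; exact hne (by rw [h]))
    have h2 := hKq _ hk
    have h3 := hKq _ hl
    rw [← not_le, sd_le] at h1 ⊢
    simp only [rq, gq] at h1 h2 h3 ⊢
    split_ifs <;> omega
  have hquf : ∀ w, DeepR (X.1, X.2) a (b - 1) 10 w →
      ∃ F, FullB S' (fun e => (ends e).map (rq q)) ((rq q '' A) \ {w}) F := by
    intro w hw
    rw [hA, hquo]
    refine full_two (by omega) (by omega) hgr hK'd ?_ (fun v hv v' hv' h => by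
      have := hK's v hv v' hv' h
      omega) ?_
    · rintro v rfl
      unfold DeepR at hw ⊢
      omega
    · intro u
      exact Or.inl ⟨w, fun v hv _ => hv⟩
  have hquf0 : ∃ F, FullB S' (fun e => (ends e).map (rq q)) (rq q '' A) F := by
    rw [hA, hquo]
    obtain ⟨F, hF⟩ := full_two (P := ∅) (by omega) (by omega) hgr hK'd (fun v hv => hv.elim)
      (fun v hv v' hv' h => by
        have := hK's v hv v' hv' h
        omega) (fun u => Or.inl ⟨u, fun v hv _ => hv.elim⟩)
    rw [sdiff_empty] at hF
    exact ⟨F, hF⟩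
  have hAc : VConn S ends A := by
    refine vconn_of_rch hG ?_
    have h1 := rch_sparse (x := X.1) (y := X.2) (a := a) (b := b) (by omega) (by omega)
      hKf.toFinset (by
        intro v hv w hw hne
        rw [Set.Finite.coe_toFinset] at hv hw
        rw [apart_iff]
        have := hKs v hv w hw hne
        omega) (by
        intro m hm
        have := hKd m (hKf.mem_toFinset.1 hm)
        unfold DeepR at this
        omega)
    rw [Set.Finite.coe_toFinset] at h1
    exact h1
  refine ⟨Z, S', hst.sub, fun e he => he.1, bic_mono (hst.bic hB hAf hSA) hS'Z, hgr, ?_⟩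
  intro z hz hzS
  obtain ⟨F0, hF0⟩ := hquf0
  refine ⟨hst.cl hB hAf hSA hS'Z hF0 hz hzS, fun h => hzS h.1, ?_⟩
  intro w hw hwK
  have hfib : ∀ p, rq q p = w → p ∈ A := by
    rintro ⟨p1, p2⟩ hp
    rw [hmemA]
    refine ⟨?_, fun hk => hwK ⟨_, hk, hp⟩⟩
    subst hp
    unfold DeepR at hw
    simp only [rq, gq] at hw ⊢
    split_ifs at hw <;> omega
  constructor
  · intro hno
    obtain ⟨F', hF'⟩ := hquf w hw
    obtain ⟨F, hF⟩ : ∃ F, FullB S ends ((rect X.1 X.2 a b \ K) \ {v | rq q v = w}) F := by
      refine full_two ha (by omega) hG (fun v hv => ?_) ?_ (fun v hv v' hv' h => by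
        have := hKs v hv v' hv' h
        omega) ?_
      · have := hKd v hv
        unfold DeepR at this ⊢
        simp only
        omega
      · rintro ⟨v1, v2⟩ hv
        have hv' : rq q (v1, v2) = w := hv
        subst hv'
        unfold DeepR at hw ⊢
        simp only [rq, gq] at hw ⊢
        split_ifs at hw <;> omega
      · rintro ⟨u1, u2⟩
        by_cases hwq : w.2 = q
        · by_cases huq : q ≤ u2 + 4 ∧ u2 ≤ q + 4
          · right
            refine ⟨?_, (w.1, q), (w.1, q + 1), ?_⟩
            · rintro ⟨k1, k2⟩ hk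
              have h1 := hKq _ hk
              rw [← not_le, sd_le]
              simp only at h1 ⊢
              omega
            · rintro ⟨v1, v2⟩ hv _
              have hv' : rq q (v1, v2) = w := hv
              have e1 : v1 = w.1 := congrArg Prod.fst hv'
              have e2 : gq q v2 = w.2 := congrArg Prod.snd hv'
              rw [hwq] at e2
              have e3 : v2 = q ∨ v2 = q + 1 := by
                unfold gq at e2
                split_ifs at e2 <;> omega
              rcases e3 with rfl | rfl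
              · exact Or.inl (by rw [e1])
              · exact Or.inr (by rw [e1])
          · left
            refine ⟨w, ?_⟩
            rintro ⟨v1, v2⟩ hv hs
            exfalso
            have hv' : rq q (v1, v2) = w := hv
            have e2 : gq q v2 = w.2 := congrArg Prod.snd hv'
            rw [hwq] at e2
            rw [sd_le] at hs
            simp only at hs
            unfold gq at e2
            split_ifs at e2 <;> omega
        · left
          refine ⟨(w.1, if w.2 ≤ q then w.2 else w.2 + 1), ?_⟩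
          rintro ⟨v1, v2⟩ hv _
          have hv' : rq q (v1, v2) = w := hv
          have e1 : v1 = w.1 := congrArg Prod.fst hv'
          have e2 : gq q v2 = w.2 := congrArg Prod.snd hv'
          rw [e1]
          congr 1
          unfold gq at e2
          split_ifs at e2 ⊢ <;> omega
    have e1 : {v | v ∈ A ∧ rq q v ≠ w} = (rect X.1 X.2 a b \ K) \ {v | rq q v = w} := rfl
    refine hst.loc_none hB hAf hSA hAc hS'Z hz hzS (F := F) (F' := F') ?_ (by rw [e1]; exact hF)
      hF' (fun v _ hv => hno v hv)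
    -- nonempty
    refine ⟨(X.1, X.2), ?_, ?_⟩
    · rw [hmemA]
      refine ⟨by simp only; omega, fun hk => ?_⟩
      have := hKd _ hk
      unfold DeepR at this
      simp only at this
      omega
    · intro h1
      have e2 : (rq q (X.1, X.2)).1 = w.1 := congrArg Prod.fst h1
      have e3 : X.1 = w.1 := e2
      unfold DeepR at hw
      omega
  · intro p hp hpl hno
    have h1 := hst.loc_one hB hAf (S' := S') (fun e he => he.1) hzS (hfib p hp) hpl
      (fun v _ hv hvp => hno v (hv.trans hp) hvp)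
    rw [hp] at h1
    exact h1

end

end DA
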