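import Pool.Agent.DA.Star74
import Pool.Agent.DA.Gam74B

/-!
# HUB* with rows, with joint bounds (row B4 of cell G, problem MP_5165fa_co)
-/

open Set BIC BICS
open scoped Matroid

namespace DA
namespace Gam

universe u v

variable {α ι : Type*} {M : Matroid α} {Λ : Set α} {G : ℕ → Set α} {τ : ι → ℕ → α} {A : Finset ι}
  {B : Finset ℕ} {h d R : ℕ}

/-- **HUB\* with rows**, the induction: the windows in `I` have rank at most `g` modulo the
elements of the windows `B₀` to the left of `I`. -/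
theorem hubRows3_aux (k : ℕ) (hk : 2 ≤ k) (t c h d R : ℕ) (hc : h * (t * t + QQ k) < c) :
    ∀ g : ℕ, ∃ N : ℕ, ∀ {α : Type u} {ι : Type v} (M : Matroid α) [M.Finite] [DecidableEq ι] (Λ : Set α)
    (G : ℕ → Set α) (τ : ι → ℕ → α) (A : Finset ι) (B : Finset ℕ), Win M Λ G τ A B h d R →
    A.card = c → ∀ (I B₀ : Finset ℕ), I ⊆ B → B₀ ⊆ B → (∀ x ∈ B₀, ∀ y ∈ I, x < y) →
    (∀ b ∈ I, rk M (Λ ∪ pts τ (A ×ˢ B₀) ∪ GG G (B \ I) ∪ (fun a => τ a b) '' (A : Set ι)) ≤
      rk M (Λ ∪ pts τ (A ×ˢ B₀) ∪ GG G (B \ I)) + g) → N ≤ I.card →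
    HasUniformMinor M k ∨ ∃ B₁ ⊆ B, ∃ X S : Set α, ∃ j : ℕ × ℕ → α, ∃ ed : ℕ × ℕ → ℕ × ℕ → α,
      X ⊆ pts τ (A ×ˢ B₁) ∧ S ⊆ pts τ (A ×ˢ B₁) ∧
      Gad.JGrid (M ／ (GG G (B \ B₁) ∪ X)) S t j ed ∧
      rk M (S ∪ (Λ ∪ (GG G (B \ B₁) ∪ X))) ≤ rk M (Λ ∪ (GG G (B \ B₁) ∪ X)) + d ∧
      rk M (Λ ∪ GG G (B \ B₁)) + rk M (GG G (B \ B₁) ∪ X) ≤
        rk M (Λ ∪ (GG G (B \ B₁) ∪ X)) + rk M (GG G (B \ B₁)) + QQ k ∧
      ∀ Ω ⊆ Λ, (∀ a ∈ A, ∀ b ∈ B, τ a b ∉
          M.closure (Ω ∪ pts τ ((A.erase a) ×ˢ B) ∪ GG G B)) →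
        rk M (Ω ∪ (GG G (B \ B₁) ∪ X)) + t * t ≤
          rk M (S ∪ (Ω ∪ (GG G (B \ B₁) ∪ X))) + QQ k := by
  classical
  intro g
  induction g with
  | zero =>
    refine ⟨1, ?_⟩
    intro α ι M _ dec Λ G τ A B hW hAc I B₀ hI hB₀ hlt hg hN
    exfalso
    obtain ⟨b, hb⟩ := Finset.card_pos.1 (show 0 < I.card by omega)
    obtain ⟨a, ha⟩ := Finset.card_pos.1 (show 0 < A.card by omega)
    have h1 := hg b hb
    have h2 : τ a b ∉ M.closure (Λ ∪ pts τ (A ×ˢ B₀) ∪ GG G (B \ I)) := by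
      intro hcl
      refine hW.out a ha b (hI hb) (M.closure_subset_closure ?_ hcl)
      refine union_subset_union (union_subset_union_right _ (pts_mono
        (Finset.product_subset_product_right ?_))) (GG_mono ?_)
      · intro x hx
        exact Finset.mem_erase.2 ⟨(hlt x hx b hb).ne, hB₀ hx⟩
      · intro x hx
        rw [Finset.mem_sdiff] at hx
        exact Finset.mem_erase.2 ⟨fun h => hx.2 (h ▸ hb), hx.1⟩
    have h3 := rk_ins_not (hW.memτ a ha b (hI hb)) h2
    have h4 := rk_mono M (show insert (τ a b) (Λ ∪ pts τ (A ×ˢ B₀) ∪ GG G (B \ I)) ⊆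
      Λ ∪ pts τ (A ×ˢ B₀) ∪ GG G (B \ I) ∪ (fun a => τ a b) '' (A : Set ι) from
      insert_subset (Or.inr ⟨a, ha, rfl⟩) subset_union_left)
    omega
  | succ g ih =>
    obtain ⟨N₁, hN₁⟩ := hubStar3.{u, v} k hk t (R + d) c
    obtain ⟨N₂, hN₂⟩ := ih
    refine ⟨N₁ * N₂, ?_⟩
    intro α ι M _ dec Λ G τ A B hW hAc I B₀ hI hB₀ hlt hg hN
    obtain ⟨C₀, hC₀⟩ : ∃ C₀, C₀ = GG G (B \ I) := ⟨_, rfl⟩
    obtain ⟨L, hL⟩ : ∃ L, L = Λ ∪ pts τ (A ×ˢ B₀) := ⟨_, rfl⟩
    rw [← hC₀, ← hL] at hg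
    have hC₀E : C₀ ⊆ M.E := by
      rw [hC₀]
      exact GG_sub hW Finset.sdiff_subset
    have hC₀B : C₀ ⊆ GG G B := by
      rw [hC₀]
      exact GG_mono Finset.sdiff_subset
    have hτC : ∀ a ∈ A, ∀ b ∈ B, τ a b ∈ M.E \ C₀ := fun a ha b hb =>
      ⟨hW.memτ a ha b hb, fun h => hW.notin ha hb (hC₀B h)⟩
    have hptsC : ∀ B' ⊆ B, pts τ (A ×ˢ B') ⊆ M.E \ C₀ := by
      rintro B' hB' _ ⟨⟨a, b⟩, hab, rfl⟩
      rw [Finset.mem_coe, Finset.mem_product] at hab
      exact hτC a hab.1 b (hB' hab.2)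
    have hΛC : Λ ⊆ M.E \ C₀ := by
      intro x hx
      refine ⟨hW.subΛ hx, fun h => ?_⟩
      obtain ⟨b, hb, h1⟩ := mem_GG.1 (hC₀B h)
      exact Set.disjoint_left.1 (hW.disj b hb) hx h1
    have hLC : L ⊆ M.E \ C₀ := by
      rw [hL]
      exact union_subset hΛC (hptsC B₀ hB₀)
    have hTC : ∀ b ∈ B, (fun a => τ a b) '' (A : Set ι) ⊆ M.E \ C₀ := by
      rintro b hb _ ⟨a, ha, rfl⟩
      exact hτC a ha b hb
    have hfin : (M ／ C₀).Finite := ⟨M.ground_finite.subset sdiff_subset⟩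
    have hrc : ∀ X ⊆ M.E \ C₀, rk (M ／ C₀) X + rk M C₀ = rk M (X ∪ C₀) := fun X hX =>
      BQ.rk_con hC₀E hX
    -- the greedy family
    set Sk : Finset ℕ → Prop := fun B₁ =>
      rk (M ／ C₀) (L ∪ ⋃ b ∈ B₁, (fun a => τ a b) '' (A : Set ι)) =
        rk (M ／ C₀) L + ∑ b ∈ B₁, (rk (M ／ C₀) (L ∪ (fun a => τ a b) '' (A : Set ι)) -
          rk (M ／ C₀) L) with hSk
    have hSk0 : Sk ∅ := by
      simp [hSk]
    rcases greedy Sk hSk0 N₂ N₁ I hN with ⟨B₁, hB₁, I', hI', hS1, hlt1, hI'c, hmax⟩ |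
      ⟨B₁, hB₁, hS1, hB₁c, -⟩
    · -- the ranks drop
      have hB₁B : B₁ ⊆ B := hB₁.trans hI
      have hI'B : I' ⊆ B := hI'.trans hI
      refine hN₂ M Λ G τ A B hW hAc I' (B₀ ∪ B₁) hI'B (Finset.union_subset hB₀ hB₁B) ?_ ?_ hI'c
      · intro x hx y hy
        rcases Finset.mem_union.1 hx with hx | hx
        · exact hlt x hx y (hI' hy)
        · exact hlt1 x hx y hy
      · intro b hb
        have hbI := hI' hb
        have hbB := hI hbI
        have hbB₁ : b ∉ B₁ := fun h => lt_irrefl _ (hlt1 b h b hb)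
        have h1 := rk_family_le (M := M ／ C₀) L (fun b => (fun a => τ a b) '' (A : Set ι))
          (insert b B₁)
        have h2 := hmax b hb
        have h3 : L ∪ ⋃ x ∈ insert b B₁, (fun a => τ a x) '' (A : Set ι) =
            L ∪ pts τ (A ×ˢ B₁) ∪ (fun a => τ a b) '' (A : Set ι) := by
          rw [Finset.set_biUnion_insert, pts_windows, union_assoc, union_comm (⋃ _ ∈ _, _)]
        have h4 : rk (M ／ C₀) (L ∪ pts τ (A ×ˢ B₁)) = rk (M ／ C₀) L +
            ∑ b ∈ B₁, (rk (M ／ C₀) (L ∪ (fun a => τ a b) '' (A : Set ι)) -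
              rk (M ／ C₀) L) := by
          rw [pts_windows]
          exact hS1
        have h2' : rk (M ／ C₀) (L ∪ ⋃ x ∈ insert b B₁, (fun a => τ a x) '' (A : Set ι)) ≠
            rk (M ／ C₀) L + ∑ x ∈ insert b B₁,
              (rk (M ／ C₀) (L ∪ (fun a => τ a x) '' (A : Set ι)) - rk (M ／ C₀) L) := h2
        rw [Finset.sum_insert hbB₁, h3] at h1 h2'
        have h5 := hg b hbI
        have e1 := hrc L hLC
        have e2 := hrc (L ∪ (fun a => τ a b) '' (A : Set ι)) (union_subset hLC (hTC b hbB))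
        have e3 := hrc (L ∪ pts τ (A ×ˢ B₁)) (union_subset hLC (hptsC B₁ hB₁B))
        have e4 := hrc (L ∪ pts τ (A ×ˢ B₁) ∪ (fun a => τ a b) '' (A : Set ι))
          (union_subset (union_subset hLC (hptsC B₁ hB₁B)) (hTC b hbB))
        have e5 : L ∪ (fun a => τ a b) '' (A : Set ι) ∪ C₀ =
            L ∪ C₀ ∪ (fun a => τ a b) '' (A : Set ι) := by
          rw [union_assoc, union_comm _ C₀, union_assoc]
        rw [e5] at e2
        have h6 : rk M (L ∪ pts τ (A ×ˢ B₁) ∪ (fun a => τ a b) '' (A : Set ι) ∪ C₀) ≤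
            rk M (L ∪ pts τ (A ×ˢ B₁) ∪ C₀) + g := by omega
        have h7 : rk M (Λ ∪ pts τ (A ×ˢ (B₀ ∪ B₁)) ∪ GG G (B \ I') ∪
              (fun a => τ a b) '' (A : Set ι)) + rk M (L ∪ pts τ (A ×ˢ B₁) ∪ C₀) ≤
            rk M (Λ ∪ pts τ (A ×ˢ (B₀ ∪ B₁)) ∪ GG G (B \ I')) +
              rk M (L ∪ pts τ (A ×ˢ B₁) ∪ (fun a => τ a b) '' (A : Set ι) ∪ C₀) := by
          have e6 : L ∪ pts τ (A ×ˢ B₁) = Λ ∪ pts τ (A ×ˢ (B₀ ∪ B₁)) := by
            rw [hL, pts_union, union_assoc]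
          have e7 : C₀ ⊆ GG G (B \ I') := by
            rw [hC₀]
            exact GG_mono (Finset.sdiff_subset_sdiff (Finset.Subset.refl _) hI')
          rw [e6, add_comm]
          refine (rk_sub' (subset_inter ?_ ?_) ?_).trans (le_of_eq (add_comm _ _))
          · exact union_subset_union_left _ subset_union_left
          · exact union_subset_union_right _ e7
          · rintro x ((hx | hx) | hx)
            · exact Or.inr (Or.inl hx)
            · exact Or.inr (Or.inr hx)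
            · exact Or.inl (Or.inl (Or.inr hx))
        omega
    · -- many skew windows
      have hB₁B : B₁ ⊆ B := hB₁.trans hI
      have hr1 : rk (M ／ C₀) L ≤ R + d := by
        have e1 := hrc L hLC
        have h1 := hW.left B₀ hB₀ I hI hlt
        rw [← hL, ← hC₀] at h1
        have h2 := rk_submod M Λ C₀
        have h3 := hW.rkΛ
        omega
      have hr2 : ∀ b ∈ B₁, rk (M ／ C₀) (L ∪ (fun a => τ a b) '' (A : Set ι)) ≤
          rk (M ／ C₀) L + h := by
        intro b hb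
        have e1 := hrc L hLC
        have e2 := hrc (L ∪ (fun a => τ a b) '' (A : Set ι))
          (union_subset hLC (hTC b (hB₁B hb)))
        have h1 := hW.bdd b (hB₁B hb)
        have h2 : rk M Λ + rk M (L ∪ (fun a => τ a b) '' (A : Set ι) ∪ C₀) ≤
            rk M (Λ ∪ (fun a => τ a b) '' (A : Set ι)) + rk M (L ∪ C₀) := by
          refine rk_sub' (subset_inter subset_union_left ?_) ?_
          · rw [hL]
            exact subset_union_left.trans subset_union_left
          · rintro x ((hx | hx) | hx)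
            · exact Or.inr (Or.inl hx)
            · exact Or.inl (Or.inr hx)
            · exact Or.inr (Or.inr hx)
        omega
      have hr3 : ∀ a ∈ A, ∀ b ∈ B₁, τ a b ∉ (M ／ C₀).closure L := by
        intro a ha b hb hcl
        rw [Matroid.contract_closure_eq] at hcl
        refine hW.out a ha b (hB₁B hb) (M.closure_subset_closure ?_ hcl.1)
        rw [hL, hC₀]
        refine union_subset_union (union_subset_union_right _ (pts_mono
          (Finset.product_subset_product_right ?_))) (GG_mono ?_)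
        · intro x hx
          exact Finset.mem_erase.2 ⟨(hlt x hx b (hB₁ hb)).ne, hB₀ hx⟩
        · intro x hx
          rw [Finset.mem_sdiff] at hx
          exact Finset.mem_erase.2 ⟨fun h => hx.2 (h ▸ hB₁ hb), hx.1⟩
      have hr4 : ∀ b ∈ B₁, rk (M ／ C₀) ((fun a => τ a b) '' (A : Set ι)) = A.card := by
        intro b hb
        have e1 := hrc _ (hTC b (hB₁B hb))
        have h1 := hW.ind b (hB₁B hb)
        have h2 : rk M (GG G B ∪ (fun a => τ a b) '' (A : Set ι)) + rk M C₀ ≤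
            rk M ((fun a => τ a b) '' (A : Set ι) ∪ C₀) + rk M (GG G B) := by
          rw [add_comm]
          refine rk_sub' (subset_inter subset_union_right hC₀B) ?_
          rintro x (hx | hx)
          · exact Or.inr hx
          · exact Or.inl (Or.inl hx)
        have h3 := rk_add_le (M := M) C₀ (fun a => τ a b) A
        rw [union_comm] at h3
        omega
      rcases hN₁ (M ／ C₀) L τ A B₁ h hLC hr1 (fun a ha b hb => hτC a ha b (hB₁B hb)) hr2 hAc hc
        (by omega) hr3 hr4 hS1 with h1 | ⟨X, S, j, ed, h1, h2, h3, h4, h4a, h4b⟩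
      · obtain ⟨N', g1, g2⟩ := h1
        exact Or.inl ⟨N', g1.trans (by simpa using M.contract_delete_isMinor C₀ ∅), g2⟩
      · right
        refine ⟨I, hI, X, S, j, ed, h1.trans (pts_mono (Finset.product_subset_product_right hB₁)),
          h2.trans (pts_mono (Finset.product_subset_product_right hB₁)), ?_, ?_, ?_, ?_⟩
        · rw [← hC₀, ← Matroid.contract_contract]
          exact h3
        · rw [← hC₀]
          have h5 : S ⊆ M.closure (L ∪ (C₀ ∪ X)) := by
            refine h4.trans ?_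
            rw [Matroid.contract_closure_eq]
            refine sdiff_subset.trans (M.closure_subset_closure ?_)
            rintro x ((hx | hx) | hx)
            · exact Or.inl hx
            · exact Or.inr (Or.inr hx)
            · exact Or.inr (Or.inl hx)
          have h6 : rk M (S ∪ (Λ ∪ (C₀ ∪ X))) ≤ rk M (L ∪ (C₀ ∪ X)) := by
            rw [← rk_closure (M := M) (L ∪ (C₀ ∪ X))]
            refine rk_mono M (union_subset h5 ?_)
            refine Subset.trans ?_ (M.subset_closure _ ?_)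
            · rw [hL]
              exact union_subset_union_left _ subset_union_left
            · refine union_subset (hLC.trans sdiff_subset) (union_subset hC₀E ?_)
              exact (h1.trans (hptsC B₁ hB₁B)).trans sdiff_subset
          have h7 := hW.left B₀ hB₀ I hI hlt
          rw [← hL, ← hC₀] at h7
          have h8 : rk M (Λ ∪ C₀) + rk M (L ∪ (C₀ ∪ X)) ≤
              rk M (Λ ∪ (C₀ ∪ X)) + rk M (L ∪ C₀) := by
            refine rk_sub' (subset_inter ?_ ?_) ?_
            · exact union_subset_union_right _ subset_union_left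
            · rw [hL]
              exact union_subset_union_left _ subset_union_left
            · rintro x (hx | (hx | hx))
              · exact Or.inr (Or.inl hx)
              · exact Or.inr (Or.inr hx)
              · exact Or.inl (Or.inr (Or.inr hx))
          omega
        · rw [← hC₀]
          have hXC : X ⊆ M.E \ C₀ := h1.trans (hptsC B₁ hB₁B)
          have e1 := hrc L hLC
          have e2 := hrc X hXC
          have e3 := hrc (L ∪ X) (union_subset hLC hXC)
          have e4 : rk M (Λ ∪ C₀) + rk M (L ∪ X ∪ C₀) ≤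
              rk M (L ∪ C₀) + rk M (Λ ∪ (C₀ ∪ X)) := by
            refine rk_sub' (subset_inter ?_ ?_) ?_
            · rw [hL]
              exact union_subset_union_left _ subset_union_left
            · exact union_subset_union_right _ subset_union_left
            · rintro x ((hx | hx) | hx)
              · exact Or.inl (Or.inl hx)
              · exact Or.inr (Or.inr (Or.inr hx))
              · exact Or.inl (Or.inr hx)
          rw [union_comm C₀ X]
          rw [union_comm C₀ X] at e4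
          omega
        · rw [← hC₀]
          intro Ω hΩ hΩa
          have hXC : X ⊆ M.E \ C₀ := h1.trans (hptsC B₁ hB₁B)
          have hSC : S ⊆ M.E \ C₀ := h2.trans (hptsC B₁ hB₁B)
          have hΩC : Ω ⊆ M.E \ C₀ := hΩ.trans hΛC
          have hΩL : Ω ⊆ L := by
            rw [hL]
            exact hΩ.trans subset_union_left
          have e1 := h4b Ω hΩL (by
            intro a ha b hb hcl
            rw [Matroid.contract_closure_eq] at hcl
            refine hΩa a ha b (hB₁B hb) (M.closure_subset_closure ?_ hcl.1)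
            exact union_subset_union (union_subset_union_right _ (pts_mono
              (Finset.product_subset_product_right hB₁B))) hC₀B)
          have e2 := hrc (Ω ∪ X) (union_subset hΩC hXC)
          have e3 := hrc (S ∪ (Ω ∪ X)) (union_subset hSC (union_subset hΩC hXC))
          have e4 : Ω ∪ X ∪ C₀ = Ω ∪ (C₀ ∪ X) := by
            rw [union_assoc, union_comm X C₀]
          have e5 : S ∪ (Ω ∪ X) ∪ C₀ = S ∪ (Ω ∪ (C₀ ∪ X)) := by
            rw [union_assoc, e4]
          rw [e4] at e2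
          rw [e5] at e3
          omega

/-- **HUB\* with rows.** -/
theorem hubRows3 (k : ℕ) (hk : 2 ≤ k) (t c h d R : ℕ) (hc : h * (t * t + QQ k) < c) :
    ∃ N : ℕ, ∀ {α : Type u} {ι : Type v} (M : Matroid α) [M.Finite] [DecidableEq ι] (Λ : Set α)
    (G : ℕ → Set α) (τ : ι → ℕ → α) (A : Finset ι) (B : Finset ℕ), Win M Λ G τ A B h d R →
    A.card = c → N ≤ B.card →
    HasUniformMinor M k ∨ ∃ B₁ ⊆ B, ∃ X S : Set α, ∃ j : ℕ × ℕ → α, ∃ ed : ℕ × ℕ → ℕ × ℕ → α,
      X ⊆ pts τ (A ×ˢ B₁) ∧ S ⊆ pts τ (A ×ˢ B₁) ∧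
      Gad.JGrid (M ／ (GG G (B \ B₁) ∪ X)) S t j ed ∧
      rk M (S ∪ (Λ ∪ (GG G (B \ B₁) ∪ X))) ≤ rk M (Λ ∪ (GG G (B \ B₁) ∪ X)) + d ∧
      rk M (Λ ∪ GG G (B \ B₁)) + rk M (GG G (B \ B₁) ∪ X) ≤
        rk M (Λ ∪ (GG G (B \ B₁) ∪ X)) + rk M (GG G (B \ B₁)) + QQ k ∧
      ∀ Ω ⊆ Λ, (∀ a ∈ A, ∀ b ∈ B, τ a b ∉
          M.closure (Ω ∪ pts τ ((A.erase a) ×ˢ B) ∪ GG G B)) →
        rk M (Ω ∪ (GG G (B \ B₁) ∪ X)) + t * t ≤
          rk M (S ∪ (Ω ∪ (GG G (B \ B₁) ∪ X))) + QQ k := by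
  obtain ⟨N, hN⟩ := hubRows3_aux.{u, v} k hk t c h d R hc h
  refine ⟨N, ?_⟩
  intro α ι M _ dec Λ G τ A B hW hAc hB
  refine hN M Λ G τ A B hW hAc B ∅ (Finset.Subset.refl _) (Finset.empty_subset _) (by simp) ?_ hB
  intro b hb
  have h1 := hW.bdd b hb
  have e1 : GG G (B \ B) = ∅ := by
    unfold GG
    simp
  have e2 : pts τ (A ×ˢ (∅ : Finset ℕ)) = ∅ := by
    simp [pts]
  rw [e1, e2, union_empty, union_empty]
  exact h1


end Gam
end DA
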