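import Pool.Agent.DA.Lines74

/-!
# Skew reduction with few contracted points (row B4 of cell G, problem MP_5165fa_co)

`sr2`: as `sr_aux`, but there is no family of `m₂` skew labels of stable rank at least two
(hypothesis `Orc`); the number of contracted points is bounded by `CQ m₂ r`, independent of the
number `m` of the labels which are kept.
-/

open Set BIC BICS
open scoped Matroid

namespace DA

universe u v

variable {α ι : Type*} {M : Matroid α}

lemma pts_union' [DecidableEq ι] (z : ι → ℕ → α) (Q Q' : Finset (ι × ℕ)) :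
    pts z (Q ∪ Q') = pts z Q ∪ pts z Q' := by
  rw [pts, Finset.coe_union, image_union]
  rfl

/-- No `m₂` skew labels of stable rank at least two. -/
def Orc (m₂ : ℕ) (G : ℕ → ℕ) (M : Matroid α) (X : Set α) (z : ι → ℕ → α) (A : Finset ι)
    (B : Finset ℕ) : Prop :=
  ∀ (Q₀ : Finset (ι × ℕ)), ∀ A₂ ⊆ A, ∀ B₁ ⊆ B, ∀ n₁ : ℕ,
    (∀ q ∈ Q₀, q.1 ∈ A ∧ q.2 ∈ B ∧ q.2 ∉ B₁) → A₂.card = m₂ → G n₁ ≤ B₁.card →
    (∀ a ∈ A₂, ∀ B' ⊆ B₁, n₁ ≤ B'.card →
      rk M (X ∪ pts z Q₀ ∪ z a '' (B' : Set ℕ)) = rk M (X ∪ pts z Q₀ ∪ z a '' (B₁ : Set ℕ))) →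
    (∀ a ∈ A₂, rk M (X ∪ pts z Q₀) + 2 ≤ rk M (X ∪ pts z Q₀ ∪ z a '' (B₁ : Set ℕ))) →
    rk M (X ∪ pts z Q₀ ∪ ⋃ a ∈ A₂, z a '' (B₁ : Set ℕ)) = rk M (X ∪ pts z Q₀) +
      ∑ a ∈ A₂, (rk M (X ∪ pts z Q₀ ∪ z a '' (B₁ : Set ℕ)) - rk M (X ∪ pts z Q₀)) → False

lemma Orc.step [DecidableEq ι] {m₂ : ℕ} {G : ℕ → ℕ} {X : Set α} {z : ι → ℕ → α} {A A' : Finset ι}
    {B B' : Finset ℕ} (h : Orc m₂ G M X z A B) {Q : Finset (ι × ℕ)} (hA : A' ⊆ A) (hB : B' ⊆ B)
    (hQ : ∀ q ∈ Q, q.1 ∈ A ∧ q.2 ∈ B ∧ q.2 ∉ B') : Orc m₂ G M (X ∪ pts z Q) z A' B' := by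
  intro Q₀ A₂ hA₂ B₁ hB₁ n₁ h1 h2 h3 h4 h5 h6
  have e : X ∪ pts z Q ∪ pts z Q₀ = X ∪ pts z (Q ∪ Q₀) := by
    rw [pts_union', union_assoc]
  rw [e] at h4 h5 h6
  refine h (Q ∪ Q₀) A₂ (hA₂.trans hA) B₁ (hB₁.trans hB) n₁ ?_ h2 h3 h4 h5 h6
  intro q hq
  rcases Finset.mem_union.1 hq with hq | hq
  · obtain ⟨a1, a2, a3⟩ := hQ q hq
    exact ⟨a1, a2, fun h => a3 (hB₁ h)⟩
  · obtain ⟨a1, a2, a3⟩ := h1 q hq
    exact ⟨hA a1, hB a2, a3⟩

/-- The number of contracted points. -/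
def CQ (m₂ : ℕ) : ℕ → ℕ
  | 0 => 0
  | r + 1 => CQ m₂ r + m₂ * (r + 2)

/-- **SR** with an oracle. -/
theorem sr2 (m₂ : ℕ) (G : ℕ → ℕ) (m r : ℕ) : ∀ n' : ℕ, ∃ N : ℕ,
    ∀ {α : Type u} {ι : Type v} (M : Matroid α)
    [M.Finite] (X : Set α) (z : ι → ℕ → α) (A : Finset ι) (B : Finset ℕ), X ⊆ M.E →
    (∀ a ∈ A, ∀ b ∈ B, z a b ∈ M.E) → A.card = m + CQ m₂ r → N ≤ B.card →
    (∀ b ∈ B, rk M (X ∪ (fun a => z a b) '' A) = rk M X + A.card) →
    (∀ a ∈ A, rk M (X ∪ z a '' B) ≤ rk M X + (r + 1)) → Orc m₂ G M X z A B →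
    ∃ A' ⊆ A, A'.card = m ∧ ∃ B' ⊆ B, n' ≤ B'.card ∧ ∃ Q : Finset (ι × ℕ),
      Q.card ≤ CQ m₂ r ∧
      (∀ q ∈ Q, q.1 ∈ A ∧ q.2 ∈ B ∧ q.2 ∉ B') ∧
      rk M (X ∪ pts z Q) = rk M X + Q.card ∧
      (∀ a ∈ A', rk M (X ∪ pts z Q ∪ z a '' B') ≤ rk M (X ∪ pts z Q) + 1) ∧
      ∀ g : ι → ℕ, (∀ a ∈ A', g a ∈ B') →
        rk M (X ∪ pts z Q ∪ (fun a => z a (g a)) '' A') = rk M (X ∪ pts z Q) + m := by
  classical
  induction r with
  | zero =>
    intro n'
    refine ⟨n' + 1, ?_⟩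
    intro α ι M _ X z A B hX hz hA hB hind hr _
    have hAm : A.card = m := by simpa [CQ] using hA
    have hpts : pts z (∅ : Finset (ι × ℕ)) = ∅ := by simp [pts]
    refine ⟨A, subset_rfl, hAm, B, subset_rfl, by omega, ∅, by simp, by simp, by simp [hpts], ?_, ?_⟩
    · intro a ha
      rw [hpts, union_empty]
      exact hr a ha
    · intro g hg
      rw [hpts, union_empty]
      obtain ⟨b₀, hb₀⟩ := Finset.card_pos.1 (show 0 < B.card by omega)
      have hle := rk_add_le (M := M) X (fun a => z a (g a)) A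
      rw [← hAm]
      refine le_antisymm hle ?_
      rw [← hind b₀ hb₀]
      refine rk_le_cl ?_
      have hE : X ∪ (fun a => z a (g a)) '' (A : Set ι) ⊆ M.E := by
        refine union_subset hX ?_
        rintro _ ⟨a, ha, rfl⟩
        exact hz a ha _ (hg a ha)
      rintro x (hx | ⟨a, ha, rfl⟩)
      · exact M.mem_closure_of_mem' (Or.inl hx) (hX hx)
      · have ha' : a ∈ A := ha
        -- parallel
        have hnl : z a (g a) ∉ M.closure X := by
          intro h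
          have h1 := rk_sub_eq (hind (g a) (hg a ha')) (Finset.singleton_subset_iff.2 ha')
          rw [Finset.coe_singleton, image_singleton, union_singleton, rk_ins_mem h,
            Finset.card_singleton] at h1
          omega
        have hp : z a b₀ ∈ M.closure (insert (z a (g a)) X) := by
          by_contra hcon
          have h3 := rk_ins_not (hz a ha' (g a) (hg a ha')) hnl
          have h4 := rk_ins_not (hz a ha' b₀ hb₀) hcon
          have h5 := rk_mono M (show insert (z a b₀) (insert (z a (g a)) X) ⊆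
            X ∪ z a '' (B : Set ℕ) from insert_subset (Or.inr ⟨b₀, hb₀, rfl⟩)
              (insert_subset (Or.inr ⟨g a, hg a ha', rfl⟩) subset_union_left))
          have h6 := hr a ha'
          omega
        exact M.closure_subset_closure (insert_subset (Or.inr ⟨a, ha, rfl⟩) subset_union_left) hp
  | succ r ih =>
    intro n'
    obtain ⟨N₀, hN₀⟩ := ih n'
    obtain ⟨c, hc⟩ : ∃ c, c = m + CQ m₂ (r + 1) := ⟨_, rfl⟩
    obtain ⟨N, hN⟩ := stab (fun n₁ => G n₁ + 1 + m₂ * (r + 2) +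
      2 ^ c * (N₀ + 1)) (c * (r + 2))
    refine ⟨N, ?_⟩
    intro α ι M _ X z A B hX hz hA hB hind hr hO
    rw [← hc] at hA
    have hXle : ∀ Y : Set α, rk M X ≤ rk M (X ∪ Y) := fun Y => rk_mono M subset_union_left
    -- stabilise
    obtain ⟨B₁, hB₁, n₁, hc₁, hst⟩ := hN
      (fun B' => ∑ a ∈ A, (rk M (X ∪ z a '' B') - rk M X)) B (by
        intro B' B'' h
        refine Finset.sum_le_sum fun a _ => ?_
        have := rk_mono M (show X ∪ z a '' (B' : Set ℕ) ⊆ X ∪ z a '' (B'' : Set ℕ) from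
          union_subset_union_right _ (image_mono (by exact_mod_cast h)))
        omega) (by
        refine (Finset.sum_le_card_nsmul _ _ (r + 2) fun a ha => ?_).trans ?_
        · have := hr a ha
          omega
        · rw [hA, smul_eq_mul]) hB
    have hst' : ∀ a ∈ A, ∀ B' ⊆ B₁, n₁ ≤ B'.card →
        rk M (X ∪ z a '' (B' : Set ℕ)) = rk M (X ∪ z a '' (B₁ : Set ℕ)) := by
      intro a ha B' hB' hc
      have hle : ∀ a, rk M (X ∪ z a '' (B' : Set ℕ)) ≤ rk M (X ∪ z a '' (B₁ : Set ℕ)) := fun a =>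
        rk_mono M (union_subset_union_right _ (image_mono (by exact_mod_cast hB')))
      by_contra hne
      have h1 := hst B' hB' hc
      have h2 : ∑ a ∈ A, (rk M (X ∪ z a '' (B' : Set ℕ)) - rk M X) <
          ∑ a ∈ A, (rk M (X ∪ z a '' (B₁ : Set ℕ)) - rk M X) := by
        refine Finset.sum_lt_sum (fun c _ => Nat.sub_le_sub_right (hle c) _) ⟨a, ha, ?_⟩
        have h3 := hle a
        have h4 := hXle (z a '' (B' : Set ℕ))
        omega
      omega
    have hpow : 1 ≤ 2 ^ c := Nat.one_le_two_pow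
    have hpos : 0 < B₁.card := by omega
    have hzB₁ : ∀ a ∈ A, ∀ b ∈ B₁, z a b ∈ M.E := fun a ha b hb => hz a ha b (hB₁ hb)
    -- a largest skew family of labels of rank at least two
    obtain ⟨A₁, hA₁A, hA₁2, hA₁s, hA₁max⟩ : ∃ A₁ ⊆ A,
        (∀ a ∈ A₁, rk M X + 2 ≤ rk M (X ∪ z a '' (B₁ : Set ℕ))) ∧
        rk M (X ∪ ⋃ a ∈ A₁, z a '' (B₁ : Set ℕ)) =
        rk M X + ∑ a ∈ A₁, (rk M (X ∪ z a '' (B₁ : Set ℕ)) - rk M X) ∧
        ∀ A₂ ⊆ A, (∀ a ∈ A₂, rk M X + 2 ≤ rk M (X ∪ z a '' (B₁ : Set ℕ))) →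
          rk M (X ∪ ⋃ a ∈ A₂, z a '' (B₁ : Set ℕ)) =
          rk M X + ∑ a ∈ A₂, (rk M (X ∪ z a '' (B₁ : Set ℕ)) - rk M X) → A₂.card ≤ A₁.card := by
      have hne : (A.powerset.filter (fun A₁ =>
        (∀ a ∈ A₁, rk M X + 2 ≤ rk M (X ∪ z a '' (B₁ : Set ℕ))) ∧
        rk M (X ∪ ⋃ a ∈ A₁, z a '' (B₁ : Set ℕ)) =
        rk M X + ∑ a ∈ A₁, (rk M (X ∪ z a '' (B₁ : Set ℕ)) - rk M X))).Nonempty := by
        refine ⟨∅, Finset.mem_filter.2 ⟨Finset.empty_mem_powerset _, ?_⟩⟩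
        simp
      obtain ⟨A₁, h1, h2⟩ := Finset.exists_max_image _ Finset.card hne
      rw [Finset.mem_filter, Finset.mem_powerset] at h1
      exact ⟨A₁, h1.1, h1.2.1, h1.2.2, fun A₂ h3 h4 h5 => h2 A₂ (Finset.mem_filter.2
        ⟨Finset.mem_powerset.2 h3, h4, h5⟩)⟩
    have hm : A₁.card < m₂ := by
      by_contra hm
      push Not at hm
      obtain ⟨A', hA', hA'c⟩ := Finset.exists_subset_card_eq hm
      have hsk : rk M (X ∪ ⋃ a ∈ A', z a '' (B₁ : Set ℕ)) =
          rk M X + ∑ a ∈ A', (rk M (X ∪ z a '' (B₁ : Set ℕ)) - rk M X) := by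
        have h1 := skew_sub (M := M) X (fun a => z a '' (B₁ : Set ℕ))
          (fun a => if a ∈ A' then z a '' (B₁ : Set ℕ) else ∅) A₁ (fun a _ => by
            split_ifs
            · exact subset_rfl
            · exact empty_subset _) hA₁s
        have h2 : (⋃ a ∈ A₁, if a ∈ A' then z a '' (B₁ : Set ℕ) else ∅) =
            ⋃ a ∈ A', z a '' (B₁ : Set ℕ) := by
          ext x
          simp only [mem_iUnion]
          constructor
          · rintro ⟨a, ha, hx⟩
            by_cases h : a ∈ A'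
            · rw [if_pos h] at hx
              exact ⟨a, h, hx⟩
            · rw [if_neg h] at hx
              exact absurd hx (notMem_empty _)
          · rintro ⟨a, ha, hx⟩
            refine ⟨a, hA' ha, ?_⟩
            rw [if_pos ha]
            exact hx
        have h3 : ∑ a ∈ A₁, (rk M (X ∪ if a ∈ A' then z a '' (B₁ : Set ℕ) else ∅) - rk M X) =
            ∑ a ∈ A', (rk M (X ∪ z a '' (B₁ : Set ℕ)) - rk M X) := by
          rw [← Finset.sum_subset hA' (fun a _ ha => ?_)]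
          · refine Finset.sum_congr rfl fun a ha => ?_
            rw [if_pos ha]
          · rw [if_neg ha, union_empty]
            omega
        rw [h2, h3] at h1
        exact h1
      have hpts : pts z (∅ : Finset (ι × ℕ)) = ∅ := by simp [pts]
      refine hO ∅ A' (hA'.trans hA₁A) B₁ hB₁ n₁ (by simp) hA'c (by omega) ?_ ?_ ?_
      · rw [hpts, union_empty]
        exact fun a ha B' hB' hc => hst' a (hA₁A (hA' ha)) B' hB' hc
      · rw [hpts, union_empty]
        exact fun a ha => hA₁2 a (hA' ha)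
      · rw [hpts, union_empty]
        exact hsk
    -- reduce
    have hch : ∀ a, ∃ D : Finset ℕ, a ∈ A₁ → D ⊆ B₁ ∧
        rk M (X ∪ z a '' (D : Set ℕ)) = rk M X + D.card ∧
        rk M (X ∪ z a '' (D : Set ℕ)) = rk M (X ∪ z a '' (B₁ : Set ℕ)) := by
      intro a
      by_cases ha : a ∈ A₁
      · obtain ⟨D, h1, h2, h3⟩ := exists_basis_sub (M := M) X (z a) B₁ (hzB₁ a (hA₁A ha))
        exact ⟨D, fun _ => ⟨h1, h2, h3⟩⟩
      · exact ⟨∅, fun h => absurd h ha⟩
    choose D hD using hch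
    have hDB : ∀ a ∈ A₁, D a ⊆ B₁ := fun a ha => (hD a ha).1
    set Q₁ := prs A₁ D with hQ₁
    set Y := pts z Q₁ with hY
    have hYe : Y = ⋃ a ∈ A₁, z a '' (D a : Set ℕ) := pts_prs z A₁ D
    have hrY : rk M (X ∪ Y) = rk M X + Q₁.card := by
      rw [hYe, skew_sub X (fun a => z a '' (B₁ : Set ℕ)) (fun a => z a '' (D a : Set ℕ)) A₁
        (fun a ha => image_mono (by exact_mod_cast hDB a ha)) hA₁s, hQ₁, card_prs]
      congr 1
      refine Finset.sum_congr rfl fun a ha => ?_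
      rw [(hD a ha).2.1]
      omega
    have hrY' : rk M (X ∪ Y) = rk M (X ∪ ⋃ a ∈ A₁, z a '' (B₁ : Set ℕ)) := by
      rw [hA₁s, hrY, hQ₁, card_prs]
      congr 1
      refine Finset.sum_congr rfl fun a ha => ?_
      rw [← (hD a ha).2.2, (hD a ha).2.1]
      omega
    have hQc : Q₁.card ≤ m₂ * (r + 2) := by
      rw [hQ₁, card_prs]
      refine (Finset.sum_le_card_nsmul _ _ (r + 2) fun a ha => ?_).trans ?_
      · have h1 := (hD a ha).2.1
        have h2 := hr a (hA₁A ha)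
        have h3 := rk_mono M (show X ∪ z a '' (D a : Set ℕ) ⊆ X ∪ z a '' (B : Set ℕ) from
          union_subset_union_right _ (image_mono (by
            exact_mod_cast (hDB a ha).trans hB₁)))
        omega
      · rw [smul_eq_mul]
        exact Nat.mul_le_mul_right _ hm.le
    -- remove the windows of `Y`
    set B₂ := B₁ \ A₁.biUnion D with hB₂
    have hB₂c : B₁.card ≤ B₂.card + m₂ * (r + 2) := by
      have h1 : (A₁.biUnion D).card ≤ ∑ a ∈ A₁, (D a).card := Finset.card_biUnion_le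
      have h2 := Finset.le_card_sdiff (A₁.biUnion D) B₁
      rw [← hB₂] at h2
      rw [hQ₁, card_prs] at hQc
      omega
    have hYE : X ∪ Y ⊆ M.E := by
      refine union_subset hX ?_
      rw [hYe]
      refine iUnion₂_subset fun a ha => ?_
      rintro _ ⟨b, hb, rfl⟩
      exact hzB₁ a (hA₁A ha) b (hDB a ha hb)
    -- independent labels
    have hcr : c = (m + CQ m₂ r) + m₂ * (r + 2) := by
      rw [hc, CQ]
      omega
    have hch : ∀ b, ∃ A'' ∈ A.powerset, b ∈ B₂ → A''.card = m + CQ m₂ r ∧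
        rk M (X ∪ Y ∪ (fun a => z a b) '' (A'' : Set ι)) = rk M (X ∪ Y) + A''.card := by
      intro b
      by_cases hb : b ∈ B₂
      · have hbB₁ : b ∈ B₁ := (Finset.mem_sdiff.1 hb).1
        obtain ⟨A₃, h1, h2, h3⟩ := exists_basis_sub (M := M) (X ∪ Y) (fun a => z a b) A
          (fun a ha => hzB₁ a ha b hbB₁)
        have h4 := hind b (hB₁ hbB₁)
        have h5 := rk_mono M (show X ∪ (fun a => z a b) '' (A : Set ι) ⊆
          X ∪ Y ∪ (fun a => z a b) '' (A : Set ι) from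
            union_subset_union_left _ subset_union_left)
        have h6 : m + CQ m₂ r ≤ A₃.card := by omega
        obtain ⟨A₄, h8, h9⟩ := Finset.exists_subset_card_eq h6
        exact ⟨A₄, Finset.mem_powerset.2 (h8.trans h1), fun _ => ⟨h9, rk_sub_eq h2 h8⟩⟩
      · exact ⟨∅, Finset.empty_mem_powerset _, fun h => absurd h hb⟩
    choose f hf1 hf2 using hch
    obtain ⟨A'', hA'', hA''c⟩ := Finset.exists_le_card_fiber_of_mul_le_card_of_maps_to
      (s := B₂) (t := A.powerset) (f := f) (n := N₀ + 1) (fun b _ => hf1 b)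
      ⟨∅, Finset.empty_mem_powerset _⟩ (by
        rw [Finset.card_powerset, hA]
        omega)
    set B₃ := B₂.filter (fun b => f b = A'') with hB₃
    have hB₃B₂ : B₃ ⊆ B₂ := Finset.filter_subset _ _
    have hB₃B₁ : B₃ ⊆ B₁ := hB₃B₂.trans Finset.sdiff_subset
    obtain ⟨b₁, hb₁⟩ := Finset.card_pos.1 (show 0 < B₃.card by omega)
    have hA''A : A'' ⊆ A := Finset.mem_powerset.1 hA''
    have hA''e : ∀ b ∈ B₃, A''.card = m + CQ m₂ r ∧
        rk M (X ∪ Y ∪ (fun a => z a b) '' (A'' : Set ι)) = rk M (X ∪ Y) + A''.card := by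
      intro b hb
      have h1 := hf2 b (hB₃B₂ hb)
      rw [(Finset.mem_filter.1 hb).2] at h1
      exact h1
    have hQ₁m : ∀ q ∈ Q₁, q.1 ∈ A ∧ q.2 ∈ B ∧ q.2 ∉ B₃ := by
      intro q hq
      obtain ⟨h9, h10⟩ := mem_prs.1 hq
      refine ⟨hA₁A h9, hB₁ (hDB _ h9 h10), fun h => ?_⟩
      have h11 := hB₃B₂ h
      exact (Finset.mem_sdiff.1 h11).2 (Finset.mem_biUnion.2 ⟨q.1, h9, h10⟩)
    have hO' : Orc m₂ G M (X ∪ Y) z A'' B₃ := hO.step hA''A (hB₃B₁.trans hB₁) hQ₁m
    obtain ⟨A', h1, h2, B', h3, h4, Q₂, hQ₂c, h5, h6, h7, h8⟩ := hN₀ M (X ∪ Y) z A'' B₃ hYE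
      (fun a ha b hb => hzB₁ a (hA''A ha) b (hB₃B₁ hb)) (hA''e b₁ hb₁).1 (by omega)
      (fun b hb => (hA''e b hb).2) (by
        intro a ha
        have haA := hA''A ha
        -- the rank drops
        have hFle : rk M (X ∪ Y ∪ z a '' (B₃ : Set ℕ)) ≤
            rk M (X ∪ ((⋃ c ∈ A₁, z c '' (B₁ : Set ℕ)) ∪ z a '' (B₁ : Set ℕ))) := by
          refine rk_mono M ?_
          rw [union_assoc]
          refine union_subset_union_right _ (union_subset_union ?_ (image_mono (by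
            exact_mod_cast hB₃B₁)))
          rw [hYe]
          exact iUnion₂_mono fun c hc => image_mono (by exact_mod_cast hDB c hc)
        by_cases haA₁ : a ∈ A₁
        · have h9 : (⋃ c ∈ A₁, z c '' (B₁ : Set ℕ)) ∪ z a '' (B₁ : Set ℕ) =
              ⋃ c ∈ A₁, z c '' (B₁ : Set ℕ) :=
            union_eq_self_of_subset_right (subset_biUnion_of_mem
              (u := fun c => z c '' (B₁ : Set ℕ)) haA₁)
          rw [h9, ← hrY'] at hFle
          omega
        · have h9 : (⋃ c ∈ A₁, z c '' (B₁ : Set ℕ)) ∪ z a '' (B₁ : Set ℕ) =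
              ⋃ c ∈ insert a A₁, z c '' (B₁ : Set ℕ) := by
            rw [Finset.set_biUnion_insert, union_comm]
          rw [h9] at hFle
          have h13 := hr a haA
          have h14 := rk_mono M (show X ∪ z a '' (B₁ : Set ℕ) ⊆ X ∪ z a '' (B : Set ℕ) from
            union_subset_union_right _ (image_mono (by exact_mod_cast hB₁)))
          by_cases h2a : rk M X + 2 ≤ rk M (X ∪ z a '' (B₁ : Set ℕ))
          · have h10 := rk_family_le (M := M) X (fun c => z c '' (B₁ : Set ℕ)) (insert a A₁)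
            have h11 : rk M (X ∪ ⋃ c ∈ insert a A₁, z c '' (B₁ : Set ℕ)) ≠
                rk M X + ∑ c ∈ insert a A₁, (rk M (X ∪ z c '' (B₁ : Set ℕ)) - rk M X) := by
              intro h
              have h12 := hA₁max (insert a A₁) (Finset.insert_subset haA hA₁A) (by
                intro c hc
                rcases Finset.mem_insert.1 hc with rfl | hc
                · exact h2a
                · exact hA₁2 c hc) h
              rw [Finset.card_insert_of_notMem haA₁] at h12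
              omega
            rw [Finset.sum_insert haA₁] at h10 h11
            rw [hrY', hA₁s]
            omega
          · -- rank one
            have h15 : rk M X + rk M (X ∪ Y ∪ z a '' (B₃ : Set ℕ)) ≤
                rk M (X ∪ z a '' (B₃ : Set ℕ)) + rk M (X ∪ Y) := by
              refine rk_sub' (subset_inter subset_union_left subset_union_left) ?_
              rintro x (hx | hx)
              · exact Or.inr hx
              · exact Or.inl (Or.inr hx)
            have h16 := rk_mono M (show X ∪ z a '' (B₃ : Set ℕ) ⊆ X ∪ z a '' (B₁ : Set ℕ) from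
              union_subset_union_right _ (image_mono (by exact_mod_cast hB₃B₁)))
            omega) hO'
    refine ⟨A', h1.trans hA''A, h2, B', h3.trans (hB₃B₁.trans hB₁), h4, Q₁ ∪ Q₂, ?_, ?_, ?_, ?_, ?_⟩
    · have h9 := Finset.card_union_le Q₁ Q₂
      rw [CQ]
      omega
    · intro q hq
      rcases Finset.mem_union.1 hq with hq | hq
      · obtain ⟨h9, h10, h11⟩ := hQ₁m q hq
        exact ⟨h9, h10, fun h => h11 (h3 h)⟩
      · obtain ⟨h9, h10, h11⟩ := h5 q hq
        exact ⟨hA''A h9, hB₁ (hB₃B₁ h10), h11⟩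
    all_goals
      have hU : X ∪ pts z (Q₁ ∪ Q₂) = X ∪ Y ∪ pts z Q₂ := by
        rw [pts_union', ← union_assoc]
    · have hdisj : Disjoint Q₁ Q₂ := by
        rw [Finset.disjoint_left]
        intro q hq hq'
        exact (hQ₁m q hq).2.2 (h5 q hq').2.1
      rw [hU, h6, hrY, Finset.card_union_of_disjoint hdisj]
      omega
    · rw [hU]
      exact h7
    · rw [hU]
      exact h8

end DA
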