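import Pool.Agent.DA.WFam
import Pool.Agent.DA.RWal

/-!
# The bounded set `Om` of the brick wall: rows with free representatives
-/

open Set BIC BICS
open scoped Matroid

namespace DA

open Gad

universe u

/-- the vertices at distance at most `2` of a set -/
lemma exists_nbhd (F : Finset (ℕ × ℕ)) : ∃ B : Finset (ℕ × ℕ), ∀ v, v ∈ B ↔ ∃ u ∈ F, sd v u ≤ 2 := by
  classical
  refine ⟨F.biUnion fun u => ((Finset.range (u.1 + 3)) ×ˢ (Finset.range (u.2 + 3))).filter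
    (fun v => sd v u ≤ 2), fun v => ?_⟩
  simp only [Finset.mem_biUnion, Finset.mem_filter, Finset.mem_product, Finset.mem_range]
  constructor
  · rintro ⟨u, hu, _, h⟩
    exact ⟨u, hu, h⟩
  · rintro ⟨u, hu, h⟩
    have h1 := sd_le.1 h
    exact ⟨u, hu, ⟨by omega, by omega⟩, h⟩

lemma star_near {v₀ u v : ℕ × ℕ} (hu : u ∈ star v₀) (hv : v ∈ star v₀) : sd v u ≤ 2 := by
  have h1 := vn_cases v₀
  have key : ∀ x ∈ star v₀, x.1 ≤ v₀.1 + 1 ∧ v₀.1 ≤ x.1 + 1 ∧ x.2 ≤ v₀.2 + 1 ∧ v₀.2 ≤ x.2 + 1 := by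
    intro x hx
    unfold star at hx
    simp only [mem_insert_iff, mem_singleton_iff] at hx
    rcases hx with rfl | rfl | rfl | rfl
    · omega
    · simp only
      omega
    · simp only
      omega
    · rcases h1 with ⟨_, h1⟩ | ⟨_, h1⟩ <;> rw [h1] <;> simp only <;> omega
  have h2 := key u hu
  have h3 := key v hv
  rw [sd_le]
  omega

/-- **B2 over the brick wall.** Outside of a bounded set `Om` and of the outer layer every element
of bounded support has at most two locations, or its locations are in one closed neighbourhood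
which consists of locations. -/
theorem setOmW (k β D : ℕ) : ∃ r δ : ℕ, ∀ {α : Type u} (P : Matroid α) [P.Finite] (S : Set α)
    (row : α → Sym2 (ℕ × ℕ)) (w : ℕ), RWal P S row w →
    HasUniformMinor P k ∨ ∃ Om : Finset (ℕ × ℕ), Om.card ≤ r ∧ ∀ z ∈ P.closure S, z ∉ S →
      (∃ N : Finset (ℕ × ℕ), N.card ≤ β ∧ ∀ c, c ⊆ S → WallE c row w ∅ →
        ∀ v ∈ LocR P S row c z, DeepR (0, 0) (w + 1) (w + 1) D v → v ∈ N) →
      ∀ c, c ⊆ S → WallE c row w ∅ → ∀ A : Finset (ℕ × ℕ),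
        (∀ v ∈ A, v ∈ LocR P S row c z ∧ DeepR (0, 0) (w + 1) (w + 1) δ v ∧
          ∀ u ∈ Om, Apart δ v u) →
        A.card ≤ 2 ∨ ∃ v₀, (A : Set (ℕ × ℕ)) ⊆ star v₀ ∧ star v₀ ⊆ LocR P S row c z := by
  classical
  obtain ⟨m, δB, hglb⟩ := wallFam.{u} k β D
  obtain ⟨R, hR⟩ : ∃ R, R = (2 * β + 1) * m := ⟨_, rfl⟩
  obtain ⟨δ, hδ⟩ : ∃ δ, δ = D + 2 * δB + 10 := ⟨_, rfl⟩
  refine ⟨R * β, δ, ?_⟩
  intro α P _ S row w hG
  by_contra hcon
  push Not at hcon
  obtain ⟨hhum, hno⟩ := hcon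
  obtain ⟨c₀, hc₀⟩ := exists_repW hG
  -- good quadruples
  obtain ⟨Good, hGood⟩ : ∃ Good : α × Finset (ℕ × ℕ) × Set α × Finset (ℕ × ℕ) → Prop,
      ∀ d, Good d ↔ (d.1 ∈ P.closure S ∧ d.1 ∉ S ∧ d.2.1.card ≤ β ∧
        (∀ c, c ⊆ S → WallE c row w ∅ → ∀ v ∈ LocR P S row c d.1,
          DeepR (0, 0) (w + 1) (w + 1) D v → v ∈ d.2.1) ∧
        (d.2.2.1 ⊆ S ∧ WallE d.2.2.1 row w ∅) ∧ 3 ≤ d.2.2.2.card ∧
        (∀ v ∈ d.2.2.2, v ∈ LocR P S row d.2.2.1 d.1 ∧ DeepR (0, 0) (w + 1) (w + 1) δ v) ∧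
        ¬ ∃ v₀, (d.2.2.2 : Set (ℕ × ℕ)) ⊆ star v₀ ∧ star v₀ ⊆ LocR P S row d.2.2.1 d.1) :=
    ⟨_, fun _ => Iff.rfl⟩
  have hseq : ∀ i ≤ R, ∃ d : ℕ → α × Finset (ℕ × ℕ) × Set α × Finset (ℕ × ℕ),
      (∀ j < i, Good (d j)) ∧ ∀ j j', j < j' → j' < i → ∀ v ∈ (d j').2.2.2, ∀ w ∈ (d j).2.1,
        Apart δ v w := by
    intro i
    induction i with
    | zero =>
      intro _
      by_cases hα : Nonempty α
      · obtain ⟨x⟩ := hα
        exact ⟨fun _ => (x, ∅, ∅, ∅), fun j hj => absurd hj (Nat.not_lt_zero _),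
          fun j j' _ hj' => absurd hj' (Nat.not_lt_zero _)⟩
      · exfalso
        obtain ⟨z, _, _⟩ := hno ∅ (Nat.zero_le _)
        exact hα ⟨z⟩
    | succ i ih =>
      intro hi
      obtain ⟨d, hd1, hd2⟩ := ih (by omega)
      obtain ⟨z, hz, hzS, ⟨N, hNc, hN⟩, c, hc, hcW, A, hA, hAc, hAst⟩ :=
        hno ((Finset.range i).biUnion fun j => (d j).2.1) (by
          refine (Finset.card_biUnion_le_card_mul _ _ β ?_).trans ?_
          · intro j hj
            exact ((hGood _).1 (hd1 j (Finset.mem_range.1 hj))).2.2.1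
          · rw [Finset.card_range]
            exact Nat.mul_le_mul_right _ (by omega))
      refine ⟨fun j => if j < i then d j else (z, N, c, A), ?_, ?_⟩
      · intro j hj
        by_cases hji : j < i
        · simp only [if_pos hji]
          exact hd1 j hji
        · simp only [if_neg hji]
          rw [hGood]
          refine ⟨hz, hzS, hNc, hN, ⟨hc, hcW⟩, hAc, fun v hv => ⟨(hA v hv).1, (hA v hv).2.1⟩, ?_⟩
          rintro ⟨v₀, h1, h2⟩
          exact hAst v₀ h1 h2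
      · intro j j' hjj hj' v hv w hw
        have hji : j < i := by omega
        simp only [if_pos hji] at hw
        by_cases hji' : j' < i
        · simp only [if_pos hji'] at hv
          exact hd2 j j' hjj hji' v hv w hw
        · simp only [if_neg hji'] at hv
          exact (hA v hv).2.2 w (Finset.mem_biUnion.2 ⟨j, Finset.mem_range.2 hji, hw⟩)
  obtain ⟨d, hd1, hd2⟩ := hseq R le_rfl
  have hd1' : ∀ j < R, _ := fun j hj => (hGood (d j)).1 (hd1 j hj)
  -- the triples are in the supports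
  have hAN : ∀ j < R, ∀ v ∈ (d j).2.2.2, v ∈ (d j).2.1 := by
    intro j hj v hv
    obtain ⟨_, _, _, h4, h5, _, h7, _⟩ := hd1' j hj
    obtain ⟨h8, h9⟩ := h7 v hv
    exact h4 _ h5.1 h5.2 v h8 (deepR_mono (by omega) h9)
  obtain ⟨C, hCR, hCm, hCi⟩ := indep_of_out β
    (fun j i : ℕ => i < j ∧ ∃ v ∈ (d i).2.2.2, ∃ w ∈ (d j).2.1, ¬ Apart δB v w) m
    (Finset.range R) (by
      intro j hj
      rw [Finset.mem_range] at hj
      have hch : ∀ i, ∃ w : ℕ × ℕ, (i ∈ Finset.range R ∧ i < j ∧ ∃ v ∈ (d i).2.2.2,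
          ∃ w ∈ (d j).2.1, ¬ Apart δB v w) → w ∈ (d j).2.1 ∧ ∃ v ∈ (d i).2.2.2,
          ¬ Apart δB v w := by
        intro i
        by_cases hi : (i ∈ Finset.range R ∧ i < j ∧ ∃ v ∈ (d i).2.2.2,
          ∃ w ∈ (d j).2.1, ¬ Apart δB v w)
        · obtain ⟨_, _, v, hv, w, hw, hvw⟩ := hi
          exact ⟨w, fun _ => ⟨hw, v, hv, hvw⟩⟩
        · exact ⟨(0, 0), fun h => absurd h hi⟩
      choose f hf using hch
      have h1 := (hd1' j hj).2.2.1
      refine le_trans ?_ h1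
      rw [← Set.ncard_coe_finset]
      refine Set.ncard_le_ncard_of_injOn f (fun i hi => (hf i hi).1) ?_ (Finset.finite_toSet _)
      intro i hi i' hi' hii
      by_contra hne
      obtain ⟨_, v, hv, hvw⟩ := hf i hi
      obtain ⟨_, v', hv', hvw'⟩ := hf i' hi'
      rw [← hii] at hvw'
      have hiR := Finset.mem_range.1 hi.1
      have hiR' := Finset.mem_range.1 hi'.1
      have h2 : Apart δ v v' ∨ Apart δ v' v := by
        rcases Nat.lt_or_gt_of_ne hne with h3 | h3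
        · exact Or.inr (hd2 i i' h3 hiR' v' hv' v (hAN i hiR v hv))
        · exact Or.inl (hd2 i' i h3 hiR v hv v' (hAN i' hiR' v' hv'))
      unfold Apart at h2 hvw hvw'
      omega) (by rw [Finset.card_range, hR])
  have hCR' : ∀ i ∈ C, i < R := fun i hi => Finset.mem_range.1 (hCR hi)
  -- far apart
  have hfarAN : ∀ i ∈ C, ∀ j ∈ C, i ≠ j → ∀ v ∈ (d i).2.2.2, ∀ w ∈ (d j).2.1,
      Apart δB v w := by
    intro i hi j hj hne v hv w hw
    rcases Nat.lt_or_gt_of_ne hne with h3 | h3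
    · by_contra hcon
      exact hCi j hj i hi (Ne.symm hne) ⟨h3, v, hv, w, hw, hcon⟩
    · have h4 := hd2 j i h3 (hCR' i hi) v hv w hw
      unfold Apart at h4 ⊢
      omega
  choose B hBd using fun i => exists_nbhd (d i).2.2.2
  have hfarAA : ∀ i ∈ C, ∀ j ∈ C, i ≠ j → ∀ v ∈ B i, ∀ w ∈ B j, Apart 2 v w := by
    intro i hi j hj hne v hv w hw
    obtain ⟨v', hv', h5⟩ := (hBd i v).1 hv
    obtain ⟨w', hw', h6⟩ := (hBd j w).1 hw
    have h7 := sd_le.1 h5
    have h8 := sd_le.1 h6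
    rcases Nat.lt_or_gt_of_ne hne with h3 | h3
    · have h4 := hd2 i j h3 (hCR' j hj) w' hw' v' (hAN i (hCR' i hi) v' hv')
      unfold Apart at h4 ⊢
      omega
    · have h4 := hd2 j i h3 (hCR' i hi) v' hv' w' (hAN j (hCR' j hj) w' hw')
      unfold Apart at h4 ⊢
      omega
  obtain ⟨c, hc, hceq⟩ := combineW C hc₀ (fun i => (d i).2.2.1)
    (fun i hi => (hd1' i (hCR' i hi)).2.2.2.2.1) B hfarAA
  have hBself : ∀ i, ∀ v ∈ (d i).2.2.2, v ∈ B i := by
    intro i v hv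
    refine (hBd i v).2 ⟨v, hv, ?_⟩
    rw [sd_self]
    omega
  have hlocc : ∀ i ∈ C, ∀ v ∈ B i, ∀ z, v ∈ LocR P S row c z ↔
      v ∈ LocR P S row (d i).2.2.1 z := by
    intro i hi v hv z
    unfold LocR
    simp only [mem_setOf_eq]
    rw [hceq i hi v hv]
  -- enumerate `C`
  obtain ⟨e⟩ : Nonempty (Fin m ≃ C) := by
    refine ⟨(Fintype.equivFinOfCardEq ?_).symm⟩
    rw [Fintype.card_coe, hCm]
  have : (P ／ (S \ c)).Finite := BQ.fin_contract _
  have hmain := hglb (P ／ (S \ c)) c row w (hG.bic c hc.1 hc.2) hc.2 (fun t => (d (e t)).1)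
    (fun t => (d (e t)).2.1) (fun t => (d (e t)).2.2.2) (by
      intro t
      obtain ⟨h1, h2, _⟩ := hd1' _ (hCR' _ (e t).2)
      exact cl_rep hc.1 h1 h2) (by
      intro t
      exact (hd1' _ (hCR' _ (e t).2)).2.2.1) (by
      intro t
      obtain ⟨h1, h2, h3, h4, _⟩ := hd1' _ (hCR' _ (e t).2)
      rw [loc_eq_locR hc.1 h2]
      exact h4 c hc.1 hc.2) (by
      intro t
      obtain ⟨h1, h2, h3, h4, h5, h6, h7, h8⟩ := hd1' _ (hCR' _ (e t).2)
      refine ⟨h6, fun v hv => ⟨?_, deepR_mono (by omega) (h7 v hv).2⟩⟩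
      rw [loc_eq_locR hc.1 h2]
      exact (hlocc _ (e t).2 v (hBself _ v hv) _).2 (h7 v hv).1) (by
      intro t
      obtain ⟨h1, h2, h3, h4, h5, h6, h7, h8⟩ := hd1' _ (hCR' _ (e t).2)
      rintro ⟨v₀, k1, k2⟩
      apply h8
      refine ⟨v₀, k1, fun v hv => ?_⟩
      rw [loc_eq_locR hc.1 h2] at k2
      obtain ⟨u, hu⟩ := Finset.card_pos.1 (show 0 < (d (e t)).2.2.2.card by omega)
      exact (hlocc _ (e t).2 v ((hBd _ v).2 ⟨u, hu, star_near (k1 hu) hv⟩) _).1 (k2 hv)) (by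
      intro t t' hne v hv v' hv'
      rw [← apart_iff]
      refine hfarAN _ (e t).2 _ (e t').2 ?_ v hv v' hv'
      intro h
      exact hne (e.injective (Subtype.ext h)))
  exact hhum (HasUniformMinor_mono hmain (con_minor P _))

end DA
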