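import Pool.Agent.BICS.Lam
import Pool.Agent.Helper34.BIC.Unif

/-!
# Lemma SR (row B4 of cell G, problem MP_5165fa_co)

Sequences of points of bounded rank, indexed by windows, for many labels.  Without a
`U_{k,2k}`-minor there are `m` labels and many windows such that, after the contraction of
boundedly many points of other windows, every one of the `m` sequences consists of parallel
nonloops, and the `m` parallel classes are independent.
-/

open Set BIC BICS
open scoped Matroid

namespace DA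

universe u v

variable {α ι : Type*} {M : Matroid α}

section basics

lemma rk_ins_mem [M.Finite] {X : Set α} {e : α} (h : e ∈ M.closure X) :
    rk M (insert e X) = rk M X := by
  rw [← rk_closure (M := M) (insert e X), Matroid.closure_insert_eq_of_mem_closure h, rk_closure]

lemma rk_ins_not [M.Finite] {X : Set α} {e : α} (he : e ∈ M.E) (h : e ∉ M.closure X) :
    rk M (insert e X) = rk M X + 1 := by
  have h1 := M.eRk_insert_eq_add_one (X := X) (e := e) ⟨he, h⟩
  rw [← cast_rk, ← cast_rk] at h1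
  exact_mod_cast h1

/-- Relative submodularity. -/
lemma rk_rel [M.Finite] (X Y Z : Set α) :
    rk M X + rk M (X ∪ (Y ∪ Z)) ≤ rk M (X ∪ Y) + rk M (X ∪ Z) :=
  rk_sub' (subset_inter subset_union_left subset_union_left)
    (union_subset (subset_union_left.trans subset_union_left)
      (union_subset (subset_union_right.trans subset_union_left)
        (subset_union_right.trans subset_union_right)))

/-- The rank added by a finite set is at most its size. -/
lemma rk_add_le [M.Finite] (X : Set α) {β : Type*} (p : β → α) (Q : Finset β) :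
    rk M (X ∪ p '' Q) ≤ rk M X + Q.card := by
  have h1 := rk_union_le M (X := X) (Y := p '' (Q : Set β)) (Q.finite_toSet.image p)
  have h2 := Set.ncard_image_le (f := p) Q.finite_toSet
  rw [Set.ncard_coe_finset] at h2
  omega

/-- Subsets of sets which are independent modulo `X`. -/
lemma rk_sub_eq [M.Finite] {X : Set α} {β : Type*} {p : β → α} {Q Q' : Finset β}
    (h : rk M (X ∪ p '' Q) = rk M X + Q.card) (hQ : Q' ⊆ Q) :
    rk M (X ∪ p '' Q') = rk M X + Q'.card := by
  classical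
  have h1 := rk_add_le (M := M) X p Q'
  have h2 := rk_add_le (M := M) (X ∪ p '' Q') p (Q \ Q')
  have h3 : X ∪ p '' (Q : Set β) ⊆ X ∪ p '' (Q' : Set β) ∪ p '' ((Q \ Q' : Finset β) : Set β) := by
    rintro x (hx | ⟨b, hb, rfl⟩)
    · exact Or.inl (Or.inl hx)
    · by_cases hb' : b ∈ Q'
      · exact Or.inl (Or.inr ⟨b, hb', rfl⟩)
      · exact Or.inr ⟨b, Finset.mem_coe.2 (Finset.mem_sdiff.2 ⟨hb, hb'⟩), rfl⟩
  have h4 := rk_mono M h3
  have h5 := Finset.card_sdiff_add_card_eq_card hQ
  omega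

end basics

section gp

/-- General position. -/
lemma gp [M.Finite] {X : Set α} (hX : X ⊆ M.E) {p : ℕ → α} {B : Finset ℕ}
    (hp : ∀ b ∈ B, p b ∈ M.E) {r t : ℕ}
    (hr : ∀ B' ⊆ B, t ≤ B'.card → rk M X + r ≤ rk M (X ∪ p '' B')) (m : ℕ)
    (hB : 2 ^ m * t + m ≤ B.card) :
    ∃ T ⊆ B, T.card = m ∧ ∀ Q ⊆ T, Q.card ≤ r → rk M (X ∪ p '' Q) = rk M X + Q.card := by
  classical
  induction m with
  | zero =>
    refine ⟨∅, Finset.empty_subset _, rfl, ?_⟩
    intro Q hQ _
    rw [Finset.subset_empty] at hQ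
    subst hQ
    simp
  | succ m ih =>
    obtain ⟨T, hTB, hTc, hT⟩ := ih (by
      have : 2 ^ m * t ≤ 2 ^ (m + 1) * t := Nat.mul_le_mul_right _
        (Nat.pow_le_pow_right (by norm_num) (by omega))
      omega)
    set S : Finset ℕ → Finset ℕ := fun Q =>
      B.filter (fun b => p b ∈ M.closure (X ∪ p '' (Q : Set ℕ))) with hS
    have hSc : ∀ Q ⊆ T, Q.card < r → (S Q).card < t := by
      intro Q hQ hQr
      by_contra hcon
      push Not at hcon
      have h1 := hr (S Q) (Finset.filter_subset _ _) hcon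
      have h2 : X ∪ p '' (S Q : Set ℕ) ⊆ M.closure (X ∪ p '' (Q : Set ℕ)) := by
        rintro x (hx | ⟨b, hb, rfl⟩)
        · exact M.mem_closure_of_mem' (Or.inl hx) (hX hx)
        · exact (Finset.mem_filter.1 (Finset.mem_coe.1 hb)).2
      have h3 := rk_mono M h2
      rw [rk_closure, hT Q hQ hQr.le] at h3
      omega
    -- the excluded windows
    set Z : Finset ℕ := ((T.powerset.filter (fun Q => Q.card < r)).biUnion S) ∪ T with hZ
    have hZc : Z.card < B.card := by
      have h1 : Z.card ≤ ((T.powerset.filter (fun Q => Q.card < r)).biUnion S).card + T.card :=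
        Finset.card_union_le _ _
      have h2 : ((T.powerset.filter (fun Q => Q.card < r)).biUnion S).card ≤
          (T.powerset.filter (fun Q => Q.card < r)).card * t := by
        refine Finset.card_biUnion_le_card_mul _ _ _ ?_
        intro Q hQ
        obtain ⟨h3, h4⟩ := Finset.mem_filter.1 hQ
        exact (hSc Q (Finset.mem_powerset.1 h3) h4).le
      have h3 : (T.powerset.filter (fun Q => Q.card < r)).card ≤ 2 ^ m := by
        refine (Finset.card_filter_le _ _).trans ?_
        rw [Finset.card_powerset, hTc]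
      have h4 : 2 ^ m * t ≤ 2 ^ (m + 1) * t := Nat.mul_le_mul_right _
        (Nat.pow_le_pow_right (by norm_num) (by omega))
      have h5 : (T.powerset.filter (fun Q => Q.card < r)).card * t ≤ 2 ^ m * t :=
        Nat.mul_le_mul_right _ h3
      omega
    obtain ⟨b, hb, hbZ⟩ := Finset.exists_mem_notMem_of_card_lt_card hZc
    have hbT : b ∉ T := fun h => hbZ (Finset.mem_union_right _ h)
    refine ⟨insert b T, Finset.insert_subset hb hTB, by
      rw [Finset.card_insert_of_notMem hbT, hTc], ?_⟩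
    intro Q hQ hQr
    by_cases hbQ : b ∈ Q
    · have hQ0 : Q.erase b ⊆ T := by
        intro x hx
        obtain ⟨h1, h2⟩ := Finset.mem_erase.1 hx
        rcases Finset.mem_insert.1 (hQ h2) with h3 | h3
        · exact absurd h3 h1
        · exact h3
      have hc : (Q.erase b).card + 1 = Q.card := Finset.card_erase_add_one hbQ
      have h1 : p b ∉ M.closure (X ∪ p '' ((Q.erase b : Finset ℕ) : Set ℕ)) := by
        intro h
        refine hbZ (Finset.mem_union_left _ (Finset.mem_biUnion.2 ⟨Q.erase b, ?_, ?_⟩))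
        · exact Finset.mem_filter.2 ⟨Finset.mem_powerset.2 hQ0, by omega⟩
        · exact Finset.mem_filter.2 ⟨hb, h⟩
      have h2 := rk_ins_not (hp b hb) h1
      have h3 : X ∪ p '' (Q : Set ℕ) = insert (p b) (X ∪ p '' ((Q.erase b : Finset ℕ) : Set ℕ)) := by
        ext x
        simp only [mem_union, mem_image, mem_insert_iff, Finset.mem_coe, Finset.mem_erase]
        constructor
        · rintro (hx | ⟨c, hc, rfl⟩)
          · exact Or.inr (Or.inl hx)
          · by_cases hcb : c = b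
            · exact Or.inl (by rw [hcb])
            · exact Or.inr (Or.inr ⟨c, ⟨hcb, hc⟩, rfl⟩)
        · rintro (rfl | hx | ⟨c, ⟨_, hc⟩, rfl⟩)
          · exact Or.inr ⟨b, hbQ, rfl⟩
          · exact Or.inl hx
          · exact Or.inr ⟨c, hc, rfl⟩
      rw [h3, h2, hT _ hQ0 (by omega)]
      omega
    · refine hT Q ?_ hQr
      intro x hx
      rcases Finset.mem_insert.1 (hQ hx) with h3 | h3
      · exact absurd (h3 ▸ hx) hbQ
      · exact h3

/-- Points in general position give a uniform minor. -/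
lemma hum_gp [M.Finite] {X : Set α} (hX : X ⊆ M.E) {p : ℕ → α} {T : Finset ℕ}
    (hp : ∀ b ∈ T, p b ∈ M.E) {r k : ℕ} (hk : 2 ≤ k) (hkr : k ≤ r) (hTc : T.card = r + k)
    (htot : rk M (X ∪ p '' T) ≤ rk M X + r)
    (hT : ∀ Q ⊆ T, Q.card ≤ r → rk M (X ∪ p '' Q) = rk M X + Q.card) :
    HasUniformMinor M k := by
  classical
  -- `p` is injective on `T`
  have hinj : ∀ b ∈ T, ∀ c ∈ T, p b = p c → b = c := by
    intro b hb c hc h
    by_contra hne
    have h1 := hT {b, c} (by
      intro x hx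
      rcases Finset.mem_insert.1 hx with rfl | hx
      · exact hb
      · rw [Finset.mem_singleton.1 hx]; exact hc) (by
      rw [Finset.card_pair hne]; omega)
    have h2 := hT {b} (Finset.singleton_subset_iff.2 hb) (by rw [Finset.card_singleton]; omega)
    rw [Finset.card_pair hne] at h1
    rw [Finset.card_singleton] at h2
    have h3 : p '' (({b, c} : Finset ℕ) : Set ℕ) = p '' (({b} : Finset ℕ) : Set ℕ) := by
      rw [Finset.coe_pair, Set.image_pair, Finset.coe_singleton, Set.image_singleton, ← h]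
      simp
    rw [h3] at h1
    omega
  -- nothing in the closure of `X`
  obtain ⟨J, hJ⟩ := M.exists_isBasis X hX
  obtain ⟨P, hPT, hPc⟩ := Finset.exists_subset_card_eq (show r - k ≤ T.card by omega)
  obtain ⟨Q₀, hQ₀⟩ : ∃ Q₀, Q₀ = T \ P := ⟨_, rfl⟩
  have hQ₀c : Q₀.card = 2 * k := by
    have := Finset.card_sdiff_add_card_eq_card hPT
    rw [← hQ₀] at this
    omega
  set e : ℕ → ℕ := fun i => if h : i < 2 * k then (Q₀.orderEmbOfFin hQ₀c ⟨i, h⟩ : ℕ) else 0 with he
  have heQ : ∀ i < 2 * k, e i ∈ Q₀ := by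
    intro i hi
    simp only [he, dif_pos hi]
    exact Finset.orderEmbOfFin_mem _ _ _
  have heinj : ∀ i < 2 * k, ∀ j < 2 * k, e i = e j → i = j := by
    intro i hi j hj h
    simp only [he, dif_pos hi, dif_pos hj] at h
    have := (Q₀.orderEmbOfFin hQ₀c).injective h
    simpa using this
  have hQT : Q₀ ⊆ T := by rw [hQ₀]; exact Finset.sdiff_subset
  have hQP : ∀ b ∈ Q₀, b ∉ P := by
    intro b hb
    rw [hQ₀] at hb
    exact (Finset.mem_sdiff.1 hb).2
  have hcl : ∀ Y : Set α, M.closure (J ∪ Y) = M.closure (X ∪ Y) := fun Y =>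
    M.closure_union_congr_left hJ.closure_eq_closure
  have hrJ : ∀ Y : Set α, rk M (J ∪ Y) = rk M (X ∪ Y) := by
    intro Y
    rw [← rk_closure (M := M) (J ∪ Y), hcl, rk_closure]
  have hJf : J.Finite := M.ground_finite.subset hJ.indep.subset_ground
  have hJc : J.ncard = rk M X := by
    have h1 := rk_indep hJ.indep
    have h2 := hrJ ∅
    rw [union_empty, union_empty] at h2
    omega
  have hnX : ∀ b ∈ T, p b ∉ M.closure X := by
    intro b hb h
    have h1 := hT {b} (Finset.singleton_subset_iff.2 hb) (by rw [Finset.card_singleton]; omega)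
    rw [Finset.coe_singleton, image_singleton, union_singleton, rk_ins_mem h,
      Finset.card_singleton] at h1
    omega
  set C : Set α := J ∪ p '' (P : Set ℕ) with hC
  set W : Set α := C ∪ p '' (Q₀ : Set ℕ) with hW
  have hWE : W ⊆ M.E := by
    rintro x ((hx | ⟨b, hb, rfl⟩) | ⟨b, hb, rfl⟩)
    · exact hJ.indep.subset_ground hx
    · exact hp b (hPT hb)
    · exact hp b (hQT hb)
  have hWr : rk M W ≤ rk M X + r := by
    refine le_trans ?_ htot
    rw [hW, hC, union_assoc, hrJ]
    refine rk_mono M (union_subset_union_right _ ?_)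
    rintro x (⟨b, hb, rfl⟩ | ⟨b, hb, rfl⟩)
    · exact ⟨b, hPT hb, rfl⟩
    · exact ⟨b, hQT hb, rfl⟩
  have hCout : ∀ b ∈ Q₀, p b ∉ C := by
    rintro b hb (h | ⟨c, hc, h⟩)
    · exact hnX b (hQT hb) (M.mem_closure_of_mem' (hJ.subset h) (hp b (hQT hb)))
    · have := hinj c (hPT hc) b (hQT hb) h
      exact hQP b hb (this ▸ hc)
  -- bases
  have hbas : ∀ Q' ⊆ Q₀, Q'.card = k → M.IsBasis (C ∪ p '' (Q' : Set ℕ)) W := by
    intro Q' hQ' hc
    have hPQ : Disjoint P Q' := by
      rw [Finset.disjoint_left]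
      intro b hb hb'
      exact hQP b (hQ' hb') hb
    have h1 : C ∪ p '' (Q' : Set ℕ) = J ∪ p '' ((P ∪ Q' : Finset ℕ) : Set ℕ) := by
      rw [hC, union_assoc, Finset.coe_union, image_union]
    have hsub : P ∪ Q' ⊆ T := Finset.union_subset hPT (hQ'.trans hQT)
    have hcard : (P ∪ Q').card = r := by
      rw [Finset.card_union_of_disjoint hPQ]
      omega
    have h2 : rk M (C ∪ p '' (Q' : Set ℕ)) = rk M X + r := by
      rw [h1, hrJ, hT _ hsub (by omega), hcard]
    have h3 : (C ∪ p '' (Q' : Set ℕ)).ncard ≤ rk M X + r := by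
      rw [h1]
      refine (Set.ncard_union_le _ _).trans ?_
      have := Set.ncard_image_le (f := p) (P ∪ Q').finite_toSet
      rw [Set.ncard_coe_finset] at this
      omega
    have hsW : C ∪ p '' (Q' : Set ℕ) ⊆ W := union_subset_union_right _ (image_mono hQ')
    have hI : M.Indep (C ∪ p '' (Q' : Set ℕ)) := by
      have hf : (C ∪ p '' (Q' : Set ℕ)).Finite := M.ground_finite.subset (hsW.trans hWE)
      have h4 := rk_le_ncard M hf
      have h5 : rk M (C ∪ p '' (Q' : Set ℕ)) = (C ∪ p '' (Q' : Set ℕ)).ncard := by omega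
      rw [Matroid.indep_iff_eRk_eq_encard_of_finite hf, ← cast_rk, ← hf.cast_ncard_eq, h5]
    refine hI.isBasis_of_subset_of_subset_closure hsW ?_
    intro w hw
    by_contra hcon
    have h4 := rk_ins_not (hWE hw) hcon
    have h5 := rk_mono M (insert_subset hw hsW)
    omega
  have hfW : (M ↾ W).Finite := ⟨M.ground_finite.subset hWE⟩
  have hmin : HasUniformMinor (M ↾ W) k := by
    refine uniform_minor k C (fun i => p (e i)) (fun i => p (e (k + i))) ?_ ?_ ?_ ?_ ?_ ?_
    · intro i hi j hj h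
      simp only [Set.mem_ofPred_eq] at hi hj
      exact heinj i (by omega) j (by omega)
        (hinj _ (hQT (heQ i (by omega))) _ (hQT (heQ j (by omega))) h)
    · intro i hi j hj h
      simp only [Set.mem_ofPred_eq] at hi hj
      have := heinj (k + i) (by omega) (k + j) (by omega)
        (hinj _ (hQT (heQ _ (by omega))) _ (hQT (heQ _ (by omega))) h)
      omega
    · intro i hi j hj h
      have := heinj i (by omega) (k + j) (by omega)
        (hinj _ (hQT (heQ _ (by omega))) _ (hQT (heQ _ (by omega))) h)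
      omega
    · intro i hi
      exact hCout _ (heQ i (by omega))
    · intro i hi
      exact hCout _ (heQ _ (by omega))
    · intro I B hI hB hc
      rw [Matroid.isBase_restrict_iff hWE]
      have h1 : (fun i => p (e i)) '' (I : Set ℕ) ∪ (fun i => p (e (k + i))) '' (B : Set ℕ) =
          p '' ((I.image e ∪ B.image (fun i => e (k + i)) : Finset ℕ) : Set ℕ) := by
        rw [Finset.coe_union, Finset.coe_image, Finset.coe_image, image_union, image_image,
          image_image]
      rw [h1]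
      refine hbas _ ?_ ?_
      · intro x hx
        rcases Finset.mem_union.1 hx with hx | hx
        · obtain ⟨i, hi, rfl⟩ := Finset.mem_image.1 hx
          exact heQ i (by have := hI i hi; omega)
        · obtain ⟨i, hi, rfl⟩ := Finset.mem_image.1 hx
          exact heQ _ (by have := hB i hi; omega)
      · rw [Finset.card_union_of_disjoint, Finset.card_image_of_injOn, Finset.card_image_of_injOn,
          hc]
        · intro i hi j hj h
          have h2 := hB i hi
          have h3 := hB j hj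
          have := heinj _ (by omega) _ (by omega) h
          omega
        · intro i hi j hj h
          have h2 := hI i hi
          have h3 := hI j hj
          exact heinj _ (by omega) _ (by omega) h
        · rw [Finset.disjoint_left]
          intro x hx hx'
          obtain ⟨i, hi, rfl⟩ := Finset.mem_image.1 hx
          obtain ⟨j, hj, h⟩ := Finset.mem_image.1 hx'
          have h2 := hI i hi
          have h3 := hB j hj
          have := heinj _ (by omega) _ (by omega) h
          omega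
  obtain ⟨N, hN, hN2⟩ := hmin
  have hm : M ↾ W ≤m M := by
    rw [← Matroid.delete_compl hWE]
    simpa using M.contract_delete_isMinor ∅ (M.E \ W)
  exact ⟨N, hN.trans hm, hN2⟩

/-- **LOW.** Many points of bounded rank: many of them have rank less than `k`. -/
theorem low (k : ℕ) (hk : 2 ≤ k) (n' R₀ : ℕ) : ∃ N : ℕ, ∀ {α : Type*} (M : Matroid α) [M.Finite]
    (X : Set α) (p : ℕ → α) (B : Finset ℕ), X ⊆ M.E → (∀ b ∈ B, p b ∈ M.E) → N ≤ B.card →
    rk M (X ∪ p '' B) ≤ rk M X + R₀ →
    HasUniformMinor M k ∨ ∃ B' ⊆ B, n' ≤ B'.card ∧ rk M (X ∪ p '' B') ≤ rk M X + (k - 1) := by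
  induction R₀ with
  | zero =>
    refine ⟨n', ?_⟩
    intro α M _ X p B _ _ hB hr
    exact Or.inr ⟨B, subset_rfl, hB, by omega⟩
  | succ R₀ ih =>
    obtain ⟨N, hN⟩ := ih
    refine ⟨max n' (2 ^ (R₀ + 1 + k) * N + (R₀ + 1 + k)), ?_⟩
    intro α M _ X p B hX hp hB hr
    by_cases hkR : R₀ + 1 < k
    · exact Or.inr ⟨B, subset_rfl, (le_max_left _ _).trans hB, by omega⟩
    by_cases hcase : ∃ B' ⊆ B, N ≤ B'.card ∧ rk M (X ∪ p '' B') ≤ rk M X + R₀
    · obtain ⟨B', h1, h2, h3⟩ := hcase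
      rcases hN M X p B' hX (fun b hb => hp b (h1 hb)) h2 h3 with h4 | ⟨B'', h4, h5, h6⟩
      · exact Or.inl h4
      · exact Or.inr ⟨B'', h4.trans h1, h5, h6⟩
    · push Not at hcase
      left
      obtain ⟨T, hTB, hTc, hT⟩ := gp hX hp (r := R₀ + 1) (t := N)
        (fun B' h1 h2 => by have := hcase B' h1 h2; omega) (R₀ + 1 + k)
        ((le_max_right _ _).trans hB)
      refine hum_gp hX (fun b hb => hp b (hTB hb)) hk (by omega) hTc ?_ hT
      refine (rk_mono M (union_subset_union_right _ (image_mono hTB))).trans hr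

end gp

section skew

/-- A basis modulo `X` among finitely many points. -/
lemma exists_basis_sub [M.Finite] (X : Set α) {β : Type*} (p : β → α) (B : Finset β)
    (hp : ∀ b ∈ B, p b ∈ M.E) :
    ∃ D ⊆ B, rk M (X ∪ p '' D) = rk M X + D.card ∧ rk M (X ∪ p '' D) = rk M (X ∪ p '' B) := by
  classical
  induction B using Finset.induction_on with
  | empty => exact ⟨∅, subset_rfl, by simp, rfl⟩
  | insert b B hb ih =>
    obtain ⟨D, hD, h1, h2⟩ := ih fun c hc => hp c (Finset.mem_insert_of_mem hc)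
    have hpb := hp b (Finset.mem_insert_self _ _)
    have e1 : ∀ D : Finset β, X ∪ p '' ((insert b D : Finset β) : Set β) =
        insert (p b) (X ∪ p '' (D : Set β)) := by
      intro D
      rw [Finset.coe_insert, image_insert_eq, union_insert]
    by_cases hcl : p b ∈ M.closure (X ∪ p '' (D : Set β))
    · refine ⟨D, hD.trans (Finset.subset_insert _ _), h1, ?_⟩
      have h3 : p b ∈ M.closure (X ∪ p '' (B : Set β)) :=
        M.closure_subset_closure (union_subset_union_right _ (image_mono hD)) hcl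
      rw [e1, rk_ins_mem h3, h2]
    · have hbD : b ∉ D := fun h => hb (hD h)
      refine ⟨insert b D, Finset.insert_subset_insert _ hD, ?_, ?_⟩
      · rw [e1, rk_ins_not hpb hcl, h1, Finset.card_insert_of_notMem hbD]
        omega
      · have h3 := rk_insert_le (M := M) (p b) (X ∪ p '' (B : Set β))
        have h4 := rk_mono M (show X ∪ p '' ((insert b D : Finset β) : Set β) ⊆
          X ∪ p '' ((insert b B : Finset β) : Set β) from union_subset_union_right _
            (image_mono (by exact_mod_cast Finset.insert_subset_insert _ hD)))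
        rw [e1, e1, rk_ins_not hpb hcl] at h4
        rw [e1, e1, rk_ins_not hpb hcl]
        omega

/-- Replacing the members of a family by subsets. -/
lemma skew_aux [M.Finite] (X : Set α) (F G : ι → Set α) (A : Finset ι)
    (hFG : ∀ a ∈ A, G a ⊆ F a) : ∀ Z : Set α, X ⊆ Z →
    rk M (Z ∪ ⋃ a ∈ A, F a) + ∑ a ∈ A, rk M (X ∪ G a) ≤
      rk M (Z ∪ ⋃ a ∈ A, G a) + ∑ a ∈ A, rk M (X ∪ F a) := by
  classical
  induction A using Finset.induction_on with
  | empty => intro Z _; simp
  | insert a A ha ih =>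
    intro Z hZ
    have h1 := ih (fun c hc => hFG c (Finset.mem_insert_of_mem hc)) (Z ∪ F a)
      (hZ.trans subset_union_left)
    have h2 : rk M (X ∪ G a) + rk M ((Z ∪ ⋃ c ∈ A, G c) ∪ F a) ≤
        rk M ((Z ∪ ⋃ c ∈ A, G c) ∪ G a) + rk M (X ∪ F a) := by
      refine rk_sub' ?_ ?_
      · refine subset_inter ?_ ?_
        · exact union_subset_union_left _ (hZ.trans subset_union_left)
        · exact union_subset_union_right _ (hFG a (Finset.mem_insert_self _ _))
      · rintro x ((hx | hx) | hx)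
        · exact Or.inl (Or.inl (Or.inl hx))
        · exact Or.inl (Or.inl (Or.inr hx))
        · exact Or.inr (Or.inr hx)
    have e1 : Z ∪ ⋃ c ∈ insert a A, F c = (Z ∪ F a) ∪ ⋃ c ∈ A, F c := by
      rw [Finset.set_biUnion_insert, union_assoc]
    have e2 : (Z ∪ F a) ∪ ⋃ c ∈ A, G c = (Z ∪ ⋃ c ∈ A, G c) ∪ F a := by
      rw [union_assoc, union_comm (F a), union_assoc]
    have e3 : Z ∪ ⋃ c ∈ insert a A, G c = (Z ∪ ⋃ c ∈ A, G c) ∪ G a := by
      rw [Finset.set_biUnion_insert, union_comm (G a), union_assoc]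
    rw [e1, e3, Finset.sum_insert ha, Finset.sum_insert ha]
    rw [e2] at h1
    omega

/-- The rank of a family is at most the sum of the ranks. -/
lemma rk_family_le [M.Finite] (X : Set α) (F : ι → Set α) (A : Finset ι) :
    rk M (X ∪ ⋃ a ∈ A, F a) ≤ rk M X + ∑ a ∈ A, (rk M (X ∪ F a) - rk M X) := by
  classical
  have h1 := skew_aux (M := M) X F (fun _ => ∅) A (fun _ _ => empty_subset _) X subset_rfl
  simp only [iUnion_empty, union_empty, Finset.sum_const, smul_eq_mul] at h1
  have h2 : ∑ a ∈ A, (rk M (X ∪ F a) - rk M X) + A.card * rk M X = ∑ a ∈ A, rk M (X ∪ F a) := by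
    rw [← smul_eq_mul, ← Finset.sum_const, ← Finset.sum_add_distrib]
    refine Finset.sum_congr rfl fun a _ => ?_
    have := rk_mono M (show X ⊆ X ∪ F a from subset_union_left)
    omega
  omega

/-- Subfamilies of skew families are skew. -/
lemma skew_sub [M.Finite] (X : Set α) (F G : ι → Set α) (A : Finset ι)
    (hFG : ∀ a ∈ A, G a ⊆ F a)
    (h : rk M (X ∪ ⋃ a ∈ A, F a) = rk M X + ∑ a ∈ A, (rk M (X ∪ F a) - rk M X)) :
    rk M (X ∪ ⋃ a ∈ A, G a) = rk M X + ∑ a ∈ A, (rk M (X ∪ G a) - rk M X) := by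
  classical
  have h1 := skew_aux (M := M) X F G A hFG X subset_rfl
  have h2 := rk_family_le (M := M) X G A
  have key : ∀ F : ι → Set α, ∑ a ∈ A, (rk M (X ∪ F a) - rk M X) + A.card * rk M X =
      ∑ a ∈ A, rk M (X ∪ F a) := by
    intro F
    rw [← smul_eq_mul, ← Finset.sum_const, ← Finset.sum_add_distrib]
    refine Finset.sum_congr rfl fun a _ => ?_
    have := rk_mono M (show X ⊆ X ∪ F a from subset_union_left)
    omega
  have h3 := key F
  have h4 := key G
  omega

end skew

section stab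

/-- Stabilisation of a bounded monotone function. -/
lemma stab (g : ℕ → ℕ) (Φ₀ : ℕ) : ∃ N : ℕ, ∀ (φ : Finset ℕ → ℕ) (B : Finset ℕ),
    (∀ B' B'' : Finset ℕ, B' ⊆ B'' → φ B' ≤ φ B'') → φ B ≤ Φ₀ → N ≤ B.card →
    ∃ B₁ ⊆ B, ∃ n₁, g n₁ ≤ B₁.card ∧ ∀ B' ⊆ B₁, n₁ ≤ B'.card → φ B' = φ B₁ := by
  induction Φ₀ with
  | zero =>
    refine ⟨g 0, ?_⟩
    intro φ B hmono h0 hB
    refine ⟨B, subset_rfl, 0, hB, ?_⟩
    intro B' hB' _
    have := hmono B' B hB'
    omega
  | succ Φ₀ ih =>
    obtain ⟨N, hN⟩ := ih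
    refine ⟨max N (g N), ?_⟩
    intro φ B hmono h0 hB
    by_cases hcase : ∀ B' ⊆ B, N ≤ B'.card → φ B' = φ B
    · exact ⟨B, subset_rfl, N, (le_max_right _ _).trans hB, hcase⟩
    · push Not at hcase
      obtain ⟨B', h1, h2, h3⟩ := hcase
      have h4 := hmono B' B h1
      obtain ⟨B₁, h5, n₁, h6, h7⟩ := hN φ B' hmono (by omega) h2
      exact ⟨B₁, h5.trans h1, n₁, h6, h7⟩

end stab

section sr

/-- The points of a set of (label, window)-pairs. -/
def pts (z : ι → ℕ → α) (Q : Finset (ι × ℕ)) : Set α := (fun q : ι × ℕ => z q.1 q.2) '' (Q : Set (ι × ℕ))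

/-- Pairs over a family of sets of windows. -/
noncomputable def prs [DecidableEq ι] (A : Finset ι) (D : ι → Finset ℕ) : Finset (ι × ℕ) :=
  A.biUnion fun a => (D a).image fun b => (a, b)

lemma mem_prs [DecidableEq ι] {A : Finset ι} {D : ι → Finset ℕ} {q : ι × ℕ} :
    q ∈ prs A D ↔ q.1 ∈ A ∧ q.2 ∈ D q.1 := by
  unfold prs
  rw [Finset.mem_biUnion]
  constructor
  · rintro ⟨a, ha, hq⟩
    obtain ⟨b, hb, rfl⟩ := Finset.mem_image.1 hq
    exact ⟨ha, hb⟩
  · rintro ⟨h1, h2⟩
    exact ⟨q.1, h1, Finset.mem_image.2 ⟨q.2, h2, rfl⟩⟩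

lemma card_prs [DecidableEq ι] (A : Finset ι) (D : ι → Finset ℕ) :
    (prs A D).card = ∑ a ∈ A, (D a).card := by
  unfold prs
  rw [Finset.card_biUnion]
  · refine Finset.sum_congr rfl fun a _ => ?_
    rw [Finset.card_image_of_injective]
    intro b c h
    exact (Prod.mk.inj h).2
  · intro a _ c _ hac
    show Disjoint _ _
    rw [Finset.disjoint_left]
    intro q hq hq'
    obtain ⟨b, _, rfl⟩ := Finset.mem_image.1 hq
    obtain ⟨b', _, h⟩ := Finset.mem_image.1 hq'
    exact hac (Prod.mk.inj h).1.symm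

lemma pts_prs [DecidableEq ι] (z : ι → ℕ → α) (A : Finset ι) (D : ι → Finset ℕ) :
    pts z (prs A D) = ⋃ a ∈ A, z a '' (D a : Set ℕ) := by
  ext x
  simp only [pts, mem_image, Finset.mem_coe, mem_prs, mem_iUnion, Prod.exists]
  constructor
  · rintro ⟨a, b, ⟨h1, h2⟩, rfl⟩
    exact ⟨a, h1, b, h2, rfl⟩
  · rintro ⟨a, h1, b, h2, rfl⟩
    exact ⟨a, b, ⟨h1, h2⟩, rfl⟩

/-- The skew case. -/
lemma sr_skew [M.Finite] {X : Set α} {z : ι → ℕ → α} {A : Finset ι} {B : Finset ℕ}
    (hz : ∀ a ∈ A, ∀ b ∈ B, z a b ∈ M.E) {n₁ : ℕ} (hB : B.Nonempty)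
    (hne : ∀ a ∈ A, ∀ b ∈ B, z a b ∉ M.closure X)
    (hst : ∀ a ∈ A, ∀ B' ⊆ B, n₁ ≤ B'.card → rk M (X ∪ z a '' B') = rk M (X ∪ z a '' B))
    (hsk : rk M (X ∪ ⋃ a ∈ A, z a '' B) = rk M X + ∑ a ∈ A, (rk M (X ∪ z a '' B) - rk M X)) :
    ∃ B' ⊆ B, B.card ≤ B'.card + A.card * n₁ ∧ ∃ Q : Finset (ι × ℕ),
      (∀ q ∈ Q, q.1 ∈ A ∧ q.2 ∈ B ∧ q.2 ∉ B') ∧
      rk M (X ∪ pts z Q) = rk M X + Q.card ∧
      (∀ a ∈ A, rk M (X ∪ pts z Q ∪ z a '' B') ≤ rk M (X ∪ pts z Q) + 1) ∧
      ∀ g : ι → ℕ, (∀ a ∈ A, g a ∈ B') →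
        rk M (X ∪ pts z Q ∪ (fun a => z a (g a)) '' A) = rk M (X ∪ pts z Q) + A.card := by
  classical
  obtain ⟨b₀, hb₀⟩ := hB
  -- hyperplanes
  have hch : ∀ a, ∃ D : Finset ℕ, a ∈ A → D ⊆ B ∧ rk M (X ∪ z a '' D) = rk M X + D.card ∧
      rk M (X ∪ z a '' B) = rk M X + D.card + 1 := by
    intro a
    by_cases ha : a ∈ A
    · obtain ⟨D, h1, h2, h3⟩ := exists_basis_sub (M := M) X (z a) B (hz a ha)
      have h4 : rk M X + 1 ≤ rk M (X ∪ z a '' (B : Set ℕ)) := by
        have h5 := rk_ins_not (hz a ha b₀ hb₀) (hne a ha b₀ hb₀)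
        have h6 := rk_mono M (show insert (z a b₀) X ⊆ X ∪ z a '' (B : Set ℕ) from
          insert_subset (Or.inr ⟨b₀, hb₀, rfl⟩) subset_union_left)
        omega
      obtain ⟨D', h5, h6⟩ := Finset.exists_subset_card_eq (show D.card - 1 ≤ D.card by omega)
      refine ⟨D', fun _ => ⟨h5.trans h1, rk_sub_eq h2 h5, ?_⟩⟩
      omega
    · exact ⟨∅, fun h => absurd h ha⟩
  choose D hD using hch
  have hDB : ∀ a ∈ A, D a ⊆ B := fun a ha => (hD a ha).1
  have hDr : ∀ a ∈ A, rk M (X ∪ z a '' (D a : Set ℕ)) = rk M X + (D a).card :=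
    fun a ha => (hD a ha).2.1
  have hDB' : ∀ a ∈ A, rk M (X ∪ z a '' (B : Set ℕ)) = rk M X + (D a).card + 1 :=
    fun a ha => (hD a ha).2.2
  set L : ι → Finset ℕ := fun a =>
    B.filter (fun b => z a b ∈ M.closure (X ∪ z a '' (D a : Set ℕ))) with hL
  have hLc : ∀ a ∈ A, (L a).card < n₁ := by
    intro a ha
    by_contra hcon
    push Not at hcon
    have h1 := hst a ha (L a) (Finset.filter_subset _ _) hcon
    have h2 : rk M (X ∪ z a '' (L a : Set ℕ)) ≤ rk M (X ∪ z a '' (D a : Set ℕ)) := by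
      have h3 : M.closure (X ∪ z a '' (L a : Set ℕ)) ⊆
          M.closure (X ∪ z a '' (D a : Set ℕ)) := by
        rw [← M.closure_inter_ground (X ∪ z a '' (L a : Set ℕ))]
        refine M.closure_subset_closure_of_subset_closure ?_
        rintro x ⟨hx | ⟨b, hb, rfl⟩, hxE⟩
        · exact M.mem_closure_of_mem' (Or.inl hx) hxE
        · exact (Finset.mem_filter.1 (Finset.mem_coe.1 hb)).2
      have h4 := rk_mono M h3
      rwa [rk_closure, rk_closure] at h4
    rw [h1, hDB' a ha, hDr a ha] at h2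
    omega
  have hDL : ∀ a ∈ A, D a ⊆ L a := by
    intro a ha b hb
    refine Finset.mem_filter.2 ⟨hDB a ha hb, ?_⟩
    exact M.mem_closure_of_mem' (Or.inr ⟨b, hb, rfl⟩) (hz a ha b (hDB a ha hb))
  set B' := B \ A.biUnion L with hB'
  have hB'B : B' ⊆ B := Finset.sdiff_subset
  have hnL : ∀ a ∈ A, ∀ b ∈ B', z a b ∉ M.closure (X ∪ z a '' (D a : Set ℕ)) := by
    intro a ha b hb h
    refine (Finset.mem_sdiff.1 hb).2 (Finset.mem_biUnion.2 ⟨a, ha, ?_⟩)
    exact Finset.mem_filter.2 ⟨hB'B hb, h⟩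
  have hY : pts z (prs A D) = ⋃ a ∈ A, z a '' (D a : Set ℕ) := pts_prs z A D
  have hrY : rk M (X ∪ pts z (prs A D)) = rk M X + ∑ a ∈ A, (D a).card := by
    rw [hY, skew_sub X (fun a => z a '' (B : Set ℕ)) (fun a => z a '' (D a : Set ℕ)) A
      (fun a ha => image_mono (hDB a ha)) hsk]
    congr 1
    refine Finset.sum_congr rfl fun a ha => ?_
    rw [hDr a ha]
    omega
  refine ⟨B', hB'B, ?_, prs A D, ?_, ?_, ?_, ?_⟩
  · have h1 : (A.biUnion L).card ≤ A.card * n₁ :=
      Finset.card_biUnion_le_card_mul _ _ _ fun a ha => (hLc a ha).le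
    have h2 := Finset.le_card_sdiff (A.biUnion L) B
    rw [← hB'] at h2
    omega
  · intro q hq
    obtain ⟨h1, h2⟩ := mem_prs.1 hq
    refine ⟨h1, hDB _ h1 h2, fun h => ?_⟩
    exact (Finset.mem_sdiff.1 h).2 (Finset.mem_biUnion.2 ⟨q.1, h1, hDL _ h1 h2⟩)
  · rw [hrY, card_prs]
  · intro a₀ ha₀
    set G : ι → Set α := fun a => z a '' ((D a ∪ (if a = a₀ then B' else ∅) : Finset ℕ) : Set ℕ)
      with hG
    have h1 := skew_sub (M := M) X (fun a => z a '' (B : Set ℕ)) G A (fun a ha => by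
      refine image_mono ?_
      refine Finset.coe_subset.2 (Finset.union_subset (hDB a ha) ?_)
      split_ifs
      · exact hB'B
      · exact Finset.empty_subset _) hsk
    have h2 : X ∪ pts z (prs A D) ∪ z a₀ '' (B' : Set ℕ) ⊆ X ∪ ⋃ a ∈ A, G a := by
      rw [hY]
      rintro x ((hx | hx) | hx)
      · exact Or.inl hx
      · obtain ⟨a, ha, b, hb, rfl⟩ := mem_iUnion₂.1 hx
        exact Or.inr (mem_iUnion₂.2 ⟨a, ha, b, Finset.mem_coe.2 (Finset.mem_union_left _ hb), rfl⟩)
      · obtain ⟨b, hb, rfl⟩ := hx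
        refine Or.inr (mem_iUnion₂.2 ⟨a₀, ha₀, b, Finset.mem_coe.2 (Finset.mem_union_right _ ?_),
          rfl⟩)
        rw [if_pos rfl]
        exact hb
    have h3 := rk_mono M h2
    have h4 : ∑ a ∈ A, (rk M (X ∪ G a) - rk M X) ≤
        ∑ a ∈ A, ((D a).card + if a = a₀ then 1 else 0) := by
      refine Finset.sum_le_sum fun a ha => ?_
      by_cases h : a = a₀
      · rw [if_pos h]
        have h5 : rk M (X ∪ G a) ≤ rk M (X ∪ z a '' (B : Set ℕ)) := by
          refine rk_mono M (union_subset_union_right _ (image_mono ?_))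
          refine Finset.coe_subset.2 (Finset.union_subset (hDB a ha) ?_)
          rw [if_pos h]
          exact hB'B
        rw [hDB' a ha] at h5
        omega
      · rw [if_neg h]
        have h5 : rk M (X ∪ G a) = rk M (X ∪ z a '' (D a : Set ℕ)) := by
          simp only [hG, if_neg h, Finset.union_empty]
        rw [h5, hDr a ha]
        omega
    rw [Finset.sum_add_distrib, Finset.sum_ite_eq' A a₀, if_pos ha₀] at h4
    omega
  · intro g hg
    set G : ι → Set α := fun a => z a '' ((insert (g a) (D a) : Finset ℕ) : Set ℕ) with hG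
    have h1 := skew_sub (M := M) X (fun a => z a '' (B : Set ℕ)) G A (fun a ha => by
      refine image_mono ?_
      exact Finset.coe_subset.2 (Finset.insert_subset (hB'B (hg a ha)) (hDB a ha))) hsk
    have h2 : X ∪ pts z (prs A D) ∪ (fun a => z a (g a)) '' (A : Set ι) = X ∪ ⋃ a ∈ A, G a := by
      rw [hY]
      ext x
      simp only [mem_union, mem_iUnion, mem_image, Finset.mem_coe, hG, Finset.mem_insert]
      constructor
      · rintro ((hx | ⟨a, ha, b, hb, rfl⟩) | ⟨a, ha, rfl⟩)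
        · exact Or.inl hx
        · exact Or.inr ⟨a, ha, b, Or.inr hb, rfl⟩
        · exact Or.inr ⟨a, ha, g a, Or.inl rfl, rfl⟩
      · rintro (hx | ⟨a, ha, b, rfl | hb, rfl⟩)
        · exact Or.inl (Or.inl hx)
        · exact Or.inr ⟨a, ha, rfl⟩
        · exact Or.inl (Or.inr ⟨a, ha, b, hb, rfl⟩)
    have h4 : ∑ a ∈ A, (rk M (X ∪ G a) - rk M X) = ∑ a ∈ A, ((D a).card + 1) := by
      refine Finset.sum_congr rfl fun a ha => ?_
      have h5 : X ∪ G a = insert (z a (g a)) (X ∪ z a '' (D a : Set ℕ)) := by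
        rw [hG]
        simp only [Finset.coe_insert, image_insert_eq, union_insert]
      rw [h5, rk_ins_not (hz a ha _ (hB'B (hg a ha))) (hnL a ha _ (hg a ha)), hDr a ha]
      omega
    rw [Finset.sum_add_distrib, Finset.sum_const, smul_eq_mul, mul_one] at h4
    rw [h2, h1, hrY, h4]
    omega

/-- The number of labels needed. -/
def CC (m : ℕ) : ℕ → ℕ
  | 0 => 1
  | r + 1 => CC m r + m * (r + 1) + m

/-- **SR**, bounded rank of every label. -/
theorem sr_aux (m r : ℕ) : ∀ n' : ℕ, ∃ N : ℕ, ∀ {α : Type u} {ι : Type v} (M : Matroid α)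
    [M.Finite] (X : Set α) (z : ι → ℕ → α) (A : Finset ι) (B : Finset ℕ), X ⊆ M.E →
    (∀ a ∈ A, ∀ b ∈ B, z a b ∈ M.E) → A.card = CC m r → N ≤ B.card →
    (∀ b ∈ B, rk M (X ∪ (fun a => z a b) '' A) = rk M X + A.card) →
    (∀ a ∈ A, rk M (X ∪ z a '' B) ≤ rk M X + r) →
    ∃ A' ⊆ A, A'.card = m ∧ ∃ B' ⊆ B, n' ≤ B'.card ∧ ∃ Q : Finset (ι × ℕ),
      (∀ q ∈ Q, q.1 ∈ A ∧ q.2 ∈ B ∧ q.2 ∉ B') ∧
      rk M (X ∪ pts z Q) = rk M X + Q.card ∧
      (∀ a ∈ A', rk M (X ∪ pts z Q ∪ z a '' B') ≤ rk M (X ∪ pts z Q) + 1) ∧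
      ∀ g : ι → ℕ, (∀ a ∈ A', g a ∈ B') →
        rk M (X ∪ pts z Q ∪ (fun a => z a (g a)) '' A') = rk M (X ∪ pts z Q) + m := by
  classical
  induction r with
  | zero =>
    intro n'
    refine ⟨1, ?_⟩
    intro α ι M _ X z A B hX hz hA hB hind hr
    exfalso
    obtain ⟨b, hb⟩ := Finset.card_pos.1 (show 0 < B.card by omega)
    obtain ⟨a, rfl⟩ := Finset.card_eq_one.1 hA
    have h1 := hind b hb
    have h2 := hr a (Finset.mem_singleton_self _)
    rw [Finset.coe_singleton, image_singleton, Finset.card_singleton] at h1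
    have h3 := rk_mono M (show X ∪ {z a b} ⊆ X ∪ z a '' (B : Set ℕ) from
      union_subset_union_right _ (singleton_subset_iff.2 ⟨b, hb, rfl⟩))
    omega
  | succ r ih =>
    intro n'
    obtain ⟨N₀, hN₀⟩ := ih n'
    obtain ⟨N, hN⟩ := stab (fun n₁ => n' + 1 + m * n₁ + m * (r + 1) +
      2 ^ (CC m (r + 1)) * (N₀ + 1)) (CC m (r + 1) * (r + 1))
    refine ⟨N, ?_⟩
    intro α ι M _ X z A B hX hz hA hB hind hr
    have hXle : ∀ Y : Set α, rk M X ≤ rk M (X ∪ Y) := fun Y => rk_mono M subset_union_left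
    -- stabilise
    obtain ⟨B₁, hB₁, n₁, hc₁, hst⟩ := hN
      (fun B' => ∑ a ∈ A, (rk M (X ∪ z a '' B') - rk M X)) B (by
        intro B' B'' h
        refine Finset.sum_le_sum fun a _ => ?_
        have := rk_mono M (show X ∪ z a '' (B' : Set ℕ) ⊆ X ∪ z a '' (B'' : Set ℕ) from
          union_subset_union_right _ (image_mono (by exact_mod_cast h)))
        omega) (by
        refine (Finset.sum_le_card_nsmul _ _ (r + 1) fun a ha => ?_).trans ?_
        · have := hr a ha
          omega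
        · rw [hA, smul_eq_mul]) hB
    have hst' : ∀ a ∈ A, ∀ B' ⊆ B₁, n₁ ≤ B'.card →
        rk M (X ∪ z a '' (B' : Set ℕ)) = rk M (X ∪ z a '' (B₁ : Set ℕ)) := by
      intro a ha B' hB' hc
      have hle : ∀ a, rk M (X ∪ z a '' (B' : Set ℕ)) ≤ rk M (X ∪ z a '' (B₁ : Set ℕ)) := fun a =>
        rk_mono M (union_subset_union_right _ (image_mono (by exact_mod_cast hB')))
      by_contra hne
      have h1 := hst B' hB' hc
      have h2 : ∑ a ∈ A, (rk M (X ∪ z a '' (B' : Set ℕ)) - rk M X) <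
          ∑ a ∈ A, (rk M (X ∪ z a '' (B₁ : Set ℕ)) - rk M X) := by
        refine Finset.sum_lt_sum (fun c _ => Nat.sub_le_sub_right (hle c) _) ⟨a, ha, ?_⟩
        have h3 := hle a
        have h4 := hXle (z a '' (B' : Set ℕ))
        omega
      omega
    have hpow : 1 ≤ 2 ^ (CC m (r + 1)) := Nat.one_le_two_pow
    have hpos : 0 < B₁.card := by omega
    have hzB₁ : ∀ a ∈ A, ∀ b ∈ B₁, z a b ∈ M.E := fun a ha b hb => hz a ha b (hB₁ hb)
    have hne : ∀ a ∈ A, ∀ b ∈ B₁, z a b ∉ M.closure X := by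
      intro a ha b hb h
      have h1 := rk_sub_eq (hind b (hB₁ hb)) (Finset.singleton_subset_iff.2 ha)
      rw [Finset.coe_singleton, image_singleton, union_singleton, rk_ins_mem h,
        Finset.card_singleton] at h1
      omega
    -- a largest skew family
    obtain ⟨A₁, hA₁A, hA₁s, hA₁max⟩ : ∃ A₁ ⊆ A, rk M (X ∪ ⋃ a ∈ A₁, z a '' (B₁ : Set ℕ)) =
        rk M X + ∑ a ∈ A₁, (rk M (X ∪ z a '' (B₁ : Set ℕ)) - rk M X) ∧
        ∀ A₂ ⊆ A, rk M (X ∪ ⋃ a ∈ A₂, z a '' (B₁ : Set ℕ)) =
        rk M X + ∑ a ∈ A₂, (rk M (X ∪ z a '' (B₁ : Set ℕ)) - rk M X) → A₂.card ≤ A₁.card := by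
      have hne : (A.powerset.filter (fun A₁ => rk M (X ∪ ⋃ a ∈ A₁, z a '' (B₁ : Set ℕ)) =
        rk M X + ∑ a ∈ A₁, (rk M (X ∪ z a '' (B₁ : Set ℕ)) - rk M X))).Nonempty := by
        refine ⟨∅, Finset.mem_filter.2 ⟨Finset.empty_mem_powerset _, ?_⟩⟩
        simp
      obtain ⟨A₁, h1, h2⟩ := Finset.exists_max_image _ Finset.card hne
      rw [Finset.mem_filter, Finset.mem_powerset] at h1
      exact ⟨A₁, h1.1, h1.2, fun A₂ h3 h4 => h2 A₂ (Finset.mem_filter.2
        ⟨Finset.mem_powerset.2 h3, h4⟩)⟩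
    by_cases hm : m ≤ A₁.card
    · -- skew
      obtain ⟨A', hA', hA'c⟩ := Finset.exists_subset_card_eq hm
      have hsk : rk M (X ∪ ⋃ a ∈ A', z a '' (B₁ : Set ℕ)) =
          rk M X + ∑ a ∈ A', (rk M (X ∪ z a '' (B₁ : Set ℕ)) - rk M X) := by
        have h1 := skew_sub (M := M) X (fun a => z a '' (B₁ : Set ℕ))
          (fun a => if a ∈ A' then z a '' (B₁ : Set ℕ) else ∅) A₁ (fun a _ => by
            split_ifs
            · exact subset_rfl
            · exact empty_subset _) hA₁s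
        have h2 : (⋃ a ∈ A₁, if a ∈ A' then z a '' (B₁ : Set ℕ) else ∅) =
            ⋃ a ∈ A', z a '' (B₁ : Set ℕ) := by
          ext x
          simp only [mem_iUnion]
          constructor
          · rintro ⟨a, ha, hx⟩
            by_cases h : a ∈ A'
            · rw [if_pos h] at hx
              exact ⟨a, h, hx⟩
            · rw [if_neg h] at hx
              exact absurd hx (notMem_empty _)
          · rintro ⟨a, ha, hx⟩
            refine ⟨a, hA' ha, ?_⟩
            rw [if_pos ha]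
            exact hx
        have h3 : ∑ a ∈ A₁, (rk M (X ∪ if a ∈ A' then z a '' (B₁ : Set ℕ) else ∅) - rk M X) =
            ∑ a ∈ A', (rk M (X ∪ z a '' (B₁ : Set ℕ)) - rk M X) := by
          rw [← Finset.sum_subset hA' (fun a _ ha => ?_)]
          · refine Finset.sum_congr rfl fun a ha => ?_
            rw [if_pos ha]
          · rw [if_neg ha, union_empty]
            omega
        rw [h2, h3] at h1
        exact h1
      obtain ⟨B', h1, h2, Q, h3, h4, h5, h6⟩ := sr_skew (n₁ := n₁)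
        (fun a ha b hb => hzB₁ a (hA₁A (hA' ha)) b hb) (Finset.card_pos.1 hpos)
        (fun a ha b hb => hne a (hA₁A (hA' ha)) b hb)
        (fun a ha B' hB' hc => hst' a (hA₁A (hA' ha)) B' hB' hc) hsk
      rw [hA'c] at h2 h6
      refine ⟨A', hA'.trans hA₁A, hA'c, B', h1.trans hB₁, by omega, Q, ?_, h4, h5, h6⟩
      intro q hq
      obtain ⟨h7, h8, h9⟩ := h3 q hq
      exact ⟨hA₁A (hA' h7), hB₁ h8, h9⟩
    · -- reduce
      push Not at hm
      have hch : ∀ a, ∃ D : Finset ℕ, a ∈ A₁ → D ⊆ B₁ ∧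
          rk M (X ∪ z a '' (D : Set ℕ)) = rk M X + D.card ∧
          rk M (X ∪ z a '' (D : Set ℕ)) = rk M (X ∪ z a '' (B₁ : Set ℕ)) := by
        intro a
        by_cases ha : a ∈ A₁
        · obtain ⟨D, h1, h2, h3⟩ := exists_basis_sub (M := M) X (z a) B₁ (hzB₁ a (hA₁A ha))
          exact ⟨D, fun _ => ⟨h1, h2, h3⟩⟩
        · exact ⟨∅, fun h => absurd h ha⟩
      choose D hD using hch
      have hDB : ∀ a ∈ A₁, D a ⊆ B₁ := fun a ha => (hD a ha).1
      set Q₁ := prs A₁ D with hQ₁
      set Y := pts z Q₁ with hY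
      have hYe : Y = ⋃ a ∈ A₁, z a '' (D a : Set ℕ) := pts_prs z A₁ D
      have hrY : rk M (X ∪ Y) = rk M X + Q₁.card := by
        rw [hYe, skew_sub X (fun a => z a '' (B₁ : Set ℕ)) (fun a => z a '' (D a : Set ℕ)) A₁
          (fun a ha => image_mono (by exact_mod_cast hDB a ha)) hA₁s, hQ₁, card_prs]
        congr 1
        refine Finset.sum_congr rfl fun a ha => ?_
        rw [(hD a ha).2.1]
        omega
      have hrY' : rk M (X ∪ Y) = rk M (X ∪ ⋃ a ∈ A₁, z a '' (B₁ : Set ℕ)) := by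
        rw [hA₁s, hrY, hQ₁, card_prs]
        congr 1
        refine Finset.sum_congr rfl fun a ha => ?_
        rw [← (hD a ha).2.2, (hD a ha).2.1]
        omega
      have hQc : Q₁.card ≤ m * (r + 1) := by
        rw [hQ₁, card_prs]
        refine (Finset.sum_le_card_nsmul _ _ (r + 1) fun a ha => ?_).trans ?_
        · have h1 := (hD a ha).2.1
          have h2 := hr a (hA₁A ha)
          have h3 := rk_mono M (show X ∪ z a '' (D a : Set ℕ) ⊆ X ∪ z a '' (B : Set ℕ) from
            union_subset_union_right _ (image_mono (by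
              exact_mod_cast (hDB a ha).trans hB₁)))
          omega
        · rw [smul_eq_mul]
          exact Nat.mul_le_mul_right _ hm.le
      -- remove the windows of `Y`
      set B₂ := B₁ \ A₁.biUnion D with hB₂
      have hB₂c : B₁.card ≤ B₂.card + m * (r + 1) := by
        have h1 : (A₁.biUnion D).card ≤ ∑ a ∈ A₁, (D a).card := Finset.card_biUnion_le
        have h2 := Finset.le_card_sdiff (A₁.biUnion D) B₁
        rw [← hB₂] at h2
        rw [hQ₁, card_prs] at hQc
        omega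
      have hYE : X ∪ Y ⊆ M.E := by
        refine union_subset hX ?_
        rw [hYe]
        refine iUnion₂_subset fun a ha => ?_
        rintro _ ⟨b, hb, rfl⟩
        exact hzB₁ a (hA₁A ha) b (hDB a ha hb)
      -- independent labels
      have hch : ∀ b, ∃ A'' ∈ A.powerset, b ∈ B₂ → A''.card = CC m r ∧
          rk M (X ∪ Y ∪ (fun a => z a b) '' (A'' : Set ι)) = rk M (X ∪ Y) + A''.card := by
        intro b
        by_cases hb : b ∈ B₂
        · have hbB₁ : b ∈ B₁ := (Finset.mem_sdiff.1 hb).1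
          obtain ⟨A₃, h1, h2, h3⟩ := exists_basis_sub (M := M) (X ∪ Y) (fun a => z a b) A
            (fun a ha => hzB₁ a ha b hbB₁)
          have h4 := hind b (hB₁ hbB₁)
          have h5 := rk_mono M (show X ∪ (fun a => z a b) '' (A : Set ι) ⊆
            X ∪ Y ∪ (fun a => z a b) '' (A : Set ι) from
              union_subset_union_left _ subset_union_left)
          have h6 : CC m r ≤ A₃.card := by
            have h7 : A.card = CC m r + m * (r + 1) + m := hA
            omega
          obtain ⟨A₄, h8, h9⟩ := Finset.exists_subset_card_eq h6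
          exact ⟨A₄, Finset.mem_powerset.2 (h8.trans h1), fun _ => ⟨h9, rk_sub_eq h2 h8⟩⟩
        · exact ⟨∅, Finset.empty_mem_powerset _, fun h => absurd h hb⟩
      choose f hf1 hf2 using hch
      obtain ⟨A'', hA'', hA''c⟩ := Finset.exists_le_card_fiber_of_mul_le_card_of_maps_to
        (s := B₂) (t := A.powerset) (f := f) (n := N₀ + 1) (fun b _ => hf1 b)
        ⟨∅, Finset.empty_mem_powerset _⟩ (by
          rw [Finset.card_powerset, hA]
          omega)
      set B₃ := B₂.filter (fun b => f b = A'') with hB₃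
      have hB₃B₂ : B₃ ⊆ B₂ := Finset.filter_subset _ _
      have hB₃B₁ : B₃ ⊆ B₁ := hB₃B₂.trans Finset.sdiff_subset
      obtain ⟨b₁, hb₁⟩ := Finset.card_pos.1 (show 0 < B₃.card by omega)
      have hA''A : A'' ⊆ A := Finset.mem_powerset.1 hA''
      have hA''e : ∀ b ∈ B₃, A''.card = CC m r ∧
          rk M (X ∪ Y ∪ (fun a => z a b) '' (A'' : Set ι)) = rk M (X ∪ Y) + A''.card := by
        intro b hb
        have h1 := hf2 b (hB₃B₂ hb)
        rw [(Finset.mem_filter.1 hb).2] at h1
        exact h1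
      obtain ⟨A', h1, h2, B', h3, h4, Q₂, h5, h6, h7, h8⟩ := hN₀ M (X ∪ Y) z A'' B₃ hYE
        (fun a ha b hb => hzB₁ a (hA''A ha) b (hB₃B₁ hb)) (hA''e b₁ hb₁).1 (by omega)
        (fun b hb => (hA''e b hb).2) (by
          intro a ha
          have haA := hA''A ha
          -- the rank drops
          have hFle : rk M (X ∪ Y ∪ z a '' (B₃ : Set ℕ)) ≤
              rk M (X ∪ ((⋃ c ∈ A₁, z c '' (B₁ : Set ℕ)) ∪ z a '' (B₁ : Set ℕ))) := by
            refine rk_mono M ?_
            rw [union_assoc]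
            refine union_subset_union_right _ (union_subset_union ?_ (image_mono (by
              exact_mod_cast hB₃B₁)))
            rw [hYe]
            exact iUnion₂_mono fun c hc => image_mono (by exact_mod_cast hDB c hc)
          by_cases haA₁ : a ∈ A₁
          · have h9 : (⋃ c ∈ A₁, z c '' (B₁ : Set ℕ)) ∪ z a '' (B₁ : Set ℕ) =
                ⋃ c ∈ A₁, z c '' (B₁ : Set ℕ) :=
              union_eq_self_of_subset_right (subset_biUnion_of_mem
                (u := fun c => z c '' (B₁ : Set ℕ)) haA₁)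
            rw [h9, ← hrY'] at hFle
            omega
          · have h9 : (⋃ c ∈ A₁, z c '' (B₁ : Set ℕ)) ∪ z a '' (B₁ : Set ℕ) =
                ⋃ c ∈ insert a A₁, z c '' (B₁ : Set ℕ) := by
              rw [Finset.set_biUnion_insert, union_comm]
            rw [h9] at hFle
            have h10 := rk_family_le (M := M) X (fun c => z c '' (B₁ : Set ℕ)) (insert a A₁)
            have h11 : rk M (X ∪ ⋃ c ∈ insert a A₁, z c '' (B₁ : Set ℕ)) ≠
                rk M X + ∑ c ∈ insert a A₁, (rk M (X ∪ z c '' (B₁ : Set ℕ)) - rk M X) := by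
              intro h
              have h12 := hA₁max (insert a A₁) (Finset.insert_subset haA hA₁A) h
              rw [Finset.card_insert_of_notMem haA₁] at h12
              omega
            rw [Finset.sum_insert haA₁] at h10 h11
            have h13 := hr a haA
            have h14 := rk_mono M (show X ∪ z a '' (B₁ : Set ℕ) ⊆ X ∪ z a '' (B : Set ℕ) from
              union_subset_union_right _ (image_mono (by exact_mod_cast hB₁)))
            rw [hrY', hA₁s]
            omega)
      refine ⟨A', h1.trans hA''A, h2, B', h3.trans (hB₃B₁.trans hB₁), h4, Q₁ ∪ Q₂, ?_, ?_, ?_, ?_⟩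
      · intro q hq
        rcases Finset.mem_union.1 hq with hq | hq
        · obtain ⟨h9, h10⟩ := mem_prs.1 hq
          refine ⟨hA₁A h9, hB₁ (hDB _ h9 h10), fun h => ?_⟩
          have h11 := hB₃B₂ (h3 h)
          exact (Finset.mem_sdiff.1 h11).2 (Finset.mem_biUnion.2 ⟨q.1, h9, h10⟩)
        · obtain ⟨h9, h10, h11⟩ := h5 q hq
          exact ⟨hA''A h9, hB₁ (hB₃B₁ h10), h11⟩
      all_goals
        have hU : X ∪ pts z (Q₁ ∪ Q₂) = X ∪ Y ∪ pts z Q₂ := by
          rw [pts, Finset.coe_union, image_union, ← union_assoc]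
          rfl
      · have hdisj : Disjoint Q₁ Q₂ := by
          rw [Finset.disjoint_left]
          intro q hq hq'
          obtain ⟨h9, h10⟩ := mem_prs.1 hq
          have h11 := hB₃B₂ (h5 q hq').2.1
          exact (Finset.mem_sdiff.1 h11).2 (Finset.mem_biUnion.2 ⟨q.1, h9, h10⟩)
        rw [hU, h6, hrY, Finset.card_union_of_disjoint hdisj]
        omega
      · rw [hU]
        exact h7
      · rw [hU]
        exact h8

/-- **LOW** for all labels. -/
theorem low_all (k : ℕ) (hk : 2 ≤ k) (R₀ n' c : ℕ) : ∃ N : ℕ, ∀ {α : Type u} {ι : Type v}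
    (M : Matroid α) [M.Finite] (X : Set α) (z : ι → ℕ → α) (A : Finset ι) (B : Finset ℕ),
    X ⊆ M.E → (∀ a ∈ A, ∀ b ∈ B, z a b ∈ M.E) → A.card ≤ c → N ≤ B.card →
    (∀ a ∈ A, rk M (X ∪ z a '' B) ≤ rk M X + R₀) →
    HasUniformMinor M k ∨ ∃ B' ⊆ B, n' ≤ B'.card ∧
      ∀ a ∈ A, rk M (X ∪ z a '' B') ≤ rk M X + (k - 1) := by
  classical
  induction c with
  | zero =>
    refine ⟨n', ?_⟩
    intro α ι M _ X z A B _ _ hA hB _
    refine Or.inr ⟨B, subset_rfl, hB, ?_⟩
    intro a ha
    rw [Finset.card_eq_zero.1 (Nat.le_zero.1 hA)] at ha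
    exact absurd ha (Finset.notMem_empty a)
  | succ c ih =>
    obtain ⟨N₁, hN₁⟩ := ih
    obtain ⟨N, hN⟩ := low.{u} k hk N₁ R₀
    refine ⟨max N N₁, ?_⟩
    intro α ι M _ X z A B hX hz hA hB hr
    rcases A.eq_empty_or_nonempty with rfl | ⟨a, ha⟩
    · rcases hN₁ M X z ∅ B hX hz (by simp) ((le_max_right _ _).trans hB) hr with h | h
      · exact Or.inl h
      · exact Or.inr h
    · rcases hN M X (z a) B hX (hz a ha) ((le_max_left _ _).trans hB) (hr a ha) with
        h | ⟨B₁, h1, h2, h3⟩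
      · exact Or.inl h
      · have hc : (A.erase a).card ≤ c := by
          rw [Finset.card_erase_of_mem ha]
          omega
        rcases hN₁ M X z (A.erase a) B₁ hX
          (fun a ha b hb => hz a (Finset.mem_of_mem_erase ha) b (h1 hb)) hc h2
          (fun a ha => (rk_mono M (union_subset_union_right _ (image_mono
            (by exact_mod_cast h1)))).trans (hr a (Finset.mem_of_mem_erase ha))) with
          h | ⟨B', h4, h5, h6⟩
        · exact Or.inl h
        · refine Or.inr ⟨B', h4.trans h1, h5, ?_⟩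
          intro c hc
          by_cases hca : c = a
          · subst hca
            exact (rk_mono M (union_subset_union_right _ (image_mono
              (by exact_mod_cast h4)))).trans h3
          · exact h6 c (Finset.mem_erase.2 ⟨hca, hc⟩)

/-- **SR.** -/
theorem sr (k : ℕ) (hk : 2 ≤ k) (m R₀ n' : ℕ) : ∃ N : ℕ, ∀ {α : Type u} {ι : Type v}
    (M : Matroid α) [M.Finite] (X : Set α) (z : ι → ℕ → α) (A : Finset ι) (B : Finset ℕ),
    X ⊆ M.E → (∀ a ∈ A, ∀ b ∈ B, z a b ∈ M.E) → A.card = CC m (k - 1) → N ≤ B.card →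
    (∀ b ∈ B, rk M (X ∪ (fun a => z a b) '' A) = rk M X + A.card) →
    (∀ a ∈ A, rk M (X ∪ z a '' B) ≤ rk M X + R₀) →
    HasUniformMinor M k ∨
    ∃ A' ⊆ A, A'.card = m ∧ ∃ B' ⊆ B, n' ≤ B'.card ∧ ∃ Q : Finset (ι × ℕ),
      (∀ q ∈ Q, q.1 ∈ A ∧ q.2 ∈ B ∧ q.2 ∉ B') ∧
      rk M (X ∪ pts z Q) = rk M X + Q.card ∧
      (∀ a ∈ A', rk M (X ∪ pts z Q ∪ z a '' B') ≤ rk M (X ∪ pts z Q) + 1) ∧
      ∀ g : ι → ℕ, (∀ a ∈ A', g a ∈ B') →
        rk M (X ∪ pts z Q ∪ (fun a => z a (g a)) '' A') = rk M (X ∪ pts z Q) + m := by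
  obtain ⟨N₁, hN₁⟩ := sr_aux.{u, v} m (k - 1) n'
  obtain ⟨N, hN⟩ := low_all.{u, v} k hk R₀ N₁ (CC m (k - 1))
  refine ⟨N, ?_⟩
  intro α ι M _ X z A B hX hz hA hB hind hr
  rcases hN M X z A B hX hz hA.le hB hr with h | ⟨B₁, h1, h2, h3⟩
  · exact Or.inl h
  · obtain ⟨A', h4, h5, B', h6, h7, Q, h8, h9⟩ := hN₁ M X z A B₁ hX
      (fun a ha b hb => hz a ha b (h1 hb)) hA h2 (fun b hb => hind b (h1 hb)) h3
    refine Or.inr ⟨A', h4, h5, B', h6.trans h1, h7, Q, ?_, h9⟩
    intro q hq
    obtain ⟨h10, h11, h12⟩ := h8 q hq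
    exact ⟨h10, h1 h11, h12⟩

end sr

end DA
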