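import Pool.Agent.DA.HolK
import Pool.Agent.DA.OwnTr

/-!
# The rows which leave a region are spanned (row R8, helper95)

`cl_side`: closures in the exact side from full sets of the plain wall.  `hol_span`: the elements of
`Dr` (one on every row which leaves the region `A`) are in the closure of the other elements.
-/

open Set BIC BICS
open scoped Matroid

namespace DA

open CWL TST Gad

universe u

section

variable {α : Type u} {M N : Matroid α} {w u a n₀ r : ℕ} {Q : Finset (ℕ × ℕ)}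
  {L : Bool × ℕ × ℕ → List α} {f : α → Sym2 ((ℕ × ℕ) ⊕ α)} {e : Bool × ℕ × ℕ → α}
  {R₀ : Set (Bool × ℕ × ℕ)} {row : α → Sym2 (ℕ × ℕ)}

lemma fullB_mono95 {α V : Type*} {S S' : Set α} {ends : α → Sym2 V} {U : Set V} {F : Set α}
    (h : FullB S' ends U F) (hS : S' ⊆ S) : FullB S ends U F :=
  ⟨fun _ he => ⟨hS (h.1 he).1, (h.1 he).2⟩, h.2⟩

/-- **Closure in the exact side.** -/
theorem cl_side [N.Finite] (hRf : R₀.Finite) (h : GSide N R₀ L f e 0) (hN : Bic N (crr L R₀) f)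
    (hrow : ∀ s ∈ R₀, ∀ x ∈ L s, row x = srow s) {g : Bool × ℕ × ℕ → α}
    (hg : ∀ s ∈ R₀, g s ∈ L s) {R₁ : Set (Bool × ℕ × ℕ)} (hR₁ : R₁ ⊆ R₀) {U : Set (ℕ × ℕ)}
    (hU : U.Finite) {F : Set α} (hF : FullB (g '' R₁) row U F) {s₀ : Bool × ℕ × ℕ} (hs₀ : s₀ ∈ R₀)
    (h1 : segNear s₀ ∈ U) (h2 : segFar s₀ ∈ U) :
    g s₀ ∈ N.closure (g '' R₁ ∪ (crr L R₀ \ g '' R₀)) := by
  classical
  obtain ⟨ends', hB', hends'⟩ := con_repsS (M := N) hRf h.subW (bicU_zero hN) hg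
  obtain ⟨Z, hZ⟩ : ∃ Z : Set α, Z = crr L R₀ \ g '' R₀ := ⟨_, rfl⟩
  rw [← hZ] at hB' ⊢
  have hfZ : (N ／ Z).Finite := BQ.fin_contract Z
  have hB := hB'.bic
  have hmap : ∀ x ∈ g '' R₀, ends' x = (row x).map Sum.inl := by
    rintro _ ⟨s, hs, rfl⟩
    rw [hends' s hs, hrow s hs _ (hg s hs)]
    rfl
  obtain ⟨hF1, φ, hF2, hF3⟩ := hF
  have hFg : F ⊆ g '' R₀ := fun x hx => image_mono hR₁ (hF1 hx).1
  have hF' : FullB (g '' R₀) ends' (Sum.inl '' U : Set ((ℕ × ℕ) ⊕ α)) F := by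
    refine ⟨fun x hx => ⟨hFg hx, fun v hv => ?_⟩, fun x => Sum.inl (φ x), ⟨?_, ?_, ?_⟩, ?_⟩
    · rw [hmap x (hFg hx), Sym2.mem_map] at hv
      obtain ⟨v', hv', rfl⟩ := hv
      exact ⟨v', (hF1 hx).2 v' hv', rfl⟩
    · exact fun x hx => ⟨φ x, hF2.mapsTo hx, rfl⟩
    · exact fun x hx y hy hxy => hF2.injOn hx hy (Sum.inl_injective hxy)
    · rintro _ ⟨v, hv, rfl⟩
      obtain ⟨x, hx, rfl⟩ := hF2.surjOn hv
      exact ⟨x, hx, rfl⟩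
    · intro x hx
      rw [hmap x (hFg hx), Sym2.mem_map]
      exact ⟨φ x, hF3 x hx, rfl⟩
  have h3 : g s₀ ∈ (N ／ Z).closure F := by
    rw [hF'.closure hB (hU.image _)]
    refine (N ／ Z).mem_closure_of_mem ?_ (fun x hx => hB.sub hx.1)
    refine ⟨⟨s₀, hs₀, rfl⟩, fun v hv => ?_⟩
    rw [hends' s₀ hs₀, Sym2.mem_iff] at hv
    rcases hv with rfl | rfl
    · exact ⟨_, h1, rfl⟩
    · exact ⟨_, h2, rfl⟩
  rw [Matroid.contract_closure_eq] at h3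
  exact N.closure_subset_closure (union_subset_union_left _ fun x hx => (hF1 hx).1) h3.1

/-- **Span**: the rows which leave the region `A`. -/
theorem hol_span [N.Finite] (h : GSide M (Seg w) L f e u) (hN : Bic N (crr L (Seg w)) f)
    (hrow : ∀ s ∈ Seg w, ∀ x ∈ L s, row x = srow s) {W : Set (Bool × ℕ × ℕ)}
    (clo : ∀ B ⊆ crr L (BR w a n₀ r Q), crr L W ⊆ B → ∀ x ∈ crr L (BR w a n₀ r Q),
      x ∈ N.closure B → x ∈ M.closure B) {A : Set (ℕ × ℕ)} (hAf : A.Finite)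
    (hA : ∀ s ∈ Seg w, segNear s ∈ A ∨ segFar s ∈ A → s ∈ BR w a n₀ r Q)
    (hW : ∀ s ∈ W, s ∈ BR w a n₀ r Q ∧ segNear s ∉ A ∧ segFar s ∉ A)
    (hwin : ∀ s ∈ Seg w, ∀ v v', srow s = s(v, v') → v ∈ A → v' ∉ A →
      ∃ x y : ℕ, (x ≤ v'.1 ∧ v'.1 ≤ x + 4 ∧ y ≤ v'.2 ∧ v'.2 ≤ y + 4) ∧
        ∀ s' ∈ CWL.Rg x (x + 4) y (y + 4), s' ∈ BR w a n₀ r Q ∧ segNear s' ∉ A ∧ segFar s' ∉ A)
    (hfull : ∀ c ⊆ crr L (RA w A), InjOn row c → (∀ s ∈ RA w A, ∃ x ∈ c, x ∈ L s) → ∀ v ∈ A,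
      ∃ U F, v ∈ U ∧ U ⊆ A ∧ FullB c row U F) {G Dr : Set α}
    (hG : ∀ s ∈ BR w a n₀ r Q, ∀ x ∈ L s, x ∈ G ∨ x ∈ Dr)
    (hDr : ∀ x ∈ Dr, ∃ s ∈ Seg w, x ∈ L s ∧ (segNear s ∈ A ↔ segFar s ∉ A))
    (hinj : InjOn row Dr) : Dr ⊆ M.closure G := by
  classical
  intro x hx
  obtain ⟨s₀, hs₀, hxs, hxA⟩ := hDr x hx
  have hBRw : BR w a n₀ r Q ⊆ Seg w := fun s hs => hs.1
  have hs₀B : s₀ ∈ BR w a n₀ r Q := by
    refine hA s₀ hs₀ ?_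
    by_cases h1 : segNear s₀ ∈ A
    · exact Or.inl h1
    · right
      by_contra h2
      exact h1 (hxA.2 h2)
  -- the representatives
  have hex : ∀ s : Bool × ℕ × ℕ, ∃ y : α, s ∈ BR w a n₀ r Q → y ∈ L s ∧ ∀ d ∈ Dr, d ∈ L s → y = d := by
    intro s
    by_cases hs : s ∈ BR w a n₀ r Q
    · by_cases hd : ∃ d ∈ Dr, d ∈ L s
      · obtain ⟨d, hd, hds⟩ := hd
        refine ⟨d, fun _ => ⟨hds, fun d' hd' hds' => ?_⟩⟩
        refine hinj hd hd' ?_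
        rw [hrow s (hBRw hs) d hds, hrow s (hBRw hs) d' hds']
      · refine ⟨e s, fun _ => ⟨List.mem_of_getLast? (h.last s (hBRw hs)), fun d hd' hds =>
          absurd ⟨d, hd', hds⟩ hd⟩⟩
    · exact ⟨x, fun h' => absurd h' hs⟩
  choose g hg using hex
  have hgx : g s₀ = x := (hg s₀ hs₀B).2 x hx hxs
  have hDg : ∀ s ∈ BR w a n₀ r Q, ∀ y ∈ L s, y ∈ Dr → y = g s := fun s hs y hy hyD =>
    ((hg s hs).2 y hyD hy).symm
  obtain ⟨R₁, hR₁⟩ : ∃ R₁ : Set (Bool × ℕ × ℕ), R₁ = {s | s ∈ BR w a n₀ r Q ∧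
      (segNear s ∈ A ↔ segFar s ∈ A)} := ⟨_, rfl⟩
  have hR₁B : R₁ ⊆ BR w a n₀ r Q := by
    rw [hR₁]
    exact fun s hs => hs.1
  -- elements of Dr are not on the rows of R₁
  have hnot : ∀ s ∈ Seg w, (segNear s ∈ A ↔ segFar s ∈ A) → ∀ y ∈ L s, y ∉ Dr := by
    intro s hs hsA y hy hyD
    obtain ⟨s', hs', hys', hA'⟩ := hDr y hyD
    have h1 := h.uniq hs hs' hy hys'
    subst h1
    by_cases h2 : segFar s ∈ A
    · exact hA'.1 (hsA.2 h2) h2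
    · exact h2 (hsA.1 (hA'.2 h2))
  -- the inner part
  obtain ⟨v, v', hvv, hv, hv'⟩ : ∃ v v', srow s₀ = s(v, v') ∧ v ∈ A ∧ v' ∉ A := by
    by_cases h1 : segNear s₀ ∈ A
    · exact ⟨segNear s₀, segFar s₀, rfl, h1, hxA.1 h1⟩
    · refine ⟨segFar s₀, segNear s₀, Sym2.eq_swap, ?_, h1⟩
      by_contra h2
      exact h1 (hxA.2 h2)
  have hRAB : RA w A ⊆ BR w a n₀ r Q := fun s hs => hA s hs.1 (Or.inl hs.2.1)
  have hRA1 : RA w A ⊆ R₁ := by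
    rw [hR₁]
    exact fun s hs => ⟨hRAB hs, ⟨fun _ => hs.2.2, fun _ => hs.2.1⟩⟩
  obtain ⟨U₁, F₁, hvU, hUA, hF₁⟩ := hfull (g '' RA w A) (by
    rintro _ ⟨s, hs, rfl⟩
    exact ⟨s, hs, (hg s (hRAB hs)).1⟩) (by
    rintro _ ⟨s, hs, rfl⟩ _ ⟨s', hs', rfl⟩ hee
    rw [hrow s hs.1 _ (hg s (hRAB hs)).1, hrow s' hs'.1 _ (hg s' (hRAB hs')).1] at hee
    rw [srow_inj hee]) (fun s hs => ⟨g s, ⟨s, hs, rfl⟩, (hg s (hRAB hs)).1⟩) v hv
  -- the outer part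
  obtain ⟨x₀, y₀, hw1, hw2⟩ := hwin s₀ hs₀ v v' hvv hv hv'
  obtain ⟨nb, hnb⟩ := nb_rg (x₀ := x₀) (x₁ := x₀ + 4) (y₀ := y₀) (y₁ := y₀ + 4) (by omega)
    (by omega)
  obtain ⟨U₂, hU₂⟩ : ∃ U₂, U₂ = VS (CWL.Rg x₀ (x₀ + 4) y₀ (y₀ + 4)) := ⟨_, rfl⟩
  have hv'U : v' ∈ U₂ := by
    rw [hU₂, vs_rg (by omega)]
    exact hw1
  have hU₂A : Disjoint U₂ A := by
    rw [Set.disjoint_left]
    intro p hp hpA
    rw [hU₂] at hp
    obtain ⟨s, hs, rfl | rfl⟩ := hp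
    · exact (hw2 s hs).2.1 hpA
    · exact (hw2 s hs).2.2 hpA
  have hWR : CWL.Rg x₀ (x₀ + 4) y₀ (y₀ + 4) ⊆ R₁ := by
    rw [hR₁]
    exact fun s hs => ⟨(hw2 s hs).1, ⟨fun h' => absurd h' (hw2 s hs).2.1,
      fun h' => absurd h' (hw2 s hs).2.2⟩⟩
  obtain ⟨F₂, hF₂⟩ := full_of_nb (S := g '' R₁) (ends := row) (U := U₂) nb (by
    intro p hp
    rw [hU₂] at hp ⊢
    obtain ⟨h1, ⟨s, hs, h2⟩, _⟩ := hnb p hp
    refine ⟨h1, g s, ⟨s, hWR hs, rfl⟩, ?_⟩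
    rw [hrow s (hw2 s hs).1.1 _ (hg s (hw2 s hs).1).1, ← h2]
    rfl) (by
    intro p hp
    rw [hU₂] at hp
    exact (hnb p hp).2.2)
  have hFU := (fullB_mono95 hF₁ (image_mono hRA1)).union hF₂ (Disjoint.mono_left hUA hU₂A.symm)
  have hBf : (BR w a n₀ r Q).Finite := (seg_finite w).subset hBRw
  have hlow := (gside_low h hN).subset hBRw
  have hU₂f : U₂.Finite := by
    rw [hU₂]
    exact vs_finite (hBf.subset (hWR.trans hR₁B))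
  have hcl := cl_side hBf hlow (Bic_sub hN (crr_mono hBRw)) (fun s hs => hrow s (hBRw hs))
    (fun s hs => (hg s hs).1) hR₁B ((hAf.subset hUA).union hU₂f) hFU hs₀B (by
      have h1 : segNear s₀ ∈ srow s₀ := Sym2.mem_mk_left _ _
      rw [hvv, Sym2.mem_iff] at h1
      rcases h1 with h1 | h1
      · exact Or.inl (h1 ▸ hvU)
      · exact Or.inr (h1 ▸ hv'U)) (by
      have h1 : segFar s₀ ∈ srow s₀ := Sym2.mem_mk_right _ _
      rw [hvv, Sym2.mem_iff] at h1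
      rcases h1 with h1 | h1
      · exact Or.inl (h1 ▸ hvU)
      · exact Or.inr (h1 ▸ hv'U))
  rw [hgx] at hcl
  have hsub : g '' R₁ ∪ (crr L (BR w a n₀ r Q) \ g '' BR w a n₀ r Q) ⊆ G ∩ crr L (BR w a n₀ r Q) := by
    rintro y (⟨s, hs, rfl⟩ | ⟨⟨s, hs, hy⟩, hyn⟩)
    · have hsB := hR₁B hs
      rw [hR₁] at hs
      refine ⟨?_, s, hsB, (hg s hsB).1⟩
      rcases hG s hsB _ (hg s hsB).1 with h1 | h1
      · exact h1
      · exact absurd h1 (hnot s hsB.1 hs.2 _ (hg s hsB).1)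
    · refine ⟨?_, s, hs, hy⟩
      rcases hG s hs y hy with h1 | h1
      · exact h1
      · exact absurd ⟨s, hs, (hDg s hs y hy h1).symm⟩ hyn
  have h3 := clo (G ∩ crr L (BR w a n₀ r Q)) inter_subset_right (by
    rintro y ⟨s, hs, hy⟩
    obtain ⟨k1, k2, k3⟩ := hW s hs
    refine ⟨?_, s, k1, hy⟩
    rcases hG s k1 y hy with h1 | h1
    · exact h1
    · exact absurd h1 (hnot s k1.1 ⟨fun h' => absurd h' k2, fun h' => absurd h' k3⟩ y hy)) x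
    ⟨s₀, hs₀B, hxs⟩ (N.closure_subset_closure hsub hcl)
  exact M.closure_subset_closure inter_subset_left h3

end

end DA
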