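import Pool.Agent.DA.Core74

/-!
# HUB*, with joint bounds (row B4 of cell G, problem MP_5165fa_co)
-/

open Set BIC BICS
open scoped Matroid

namespace DA

universe u v

variable {α ι : Type*} {M : Matroid α}

/-- The number of contracted points in the skew reduction. -/
def QQ (k : ℕ) : ℕ := CQ (k * (k - 1)) (k - 2)

/-- **HUB\***, the windows are skew modulo `L`; with joint bounds. -/
theorem hubStar3 (k : ℕ) (hk : 2 ≤ k) (t R₀ c : ℕ) : ∃ N : ℕ, ∀ {α : Type u} {ι : Type v}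
    (M : Matroid α) [M.Finite] [DecidableEq ι] (L : Set α) (τ : ι → ℕ → α) (A : Finset ι)
    (B : Finset ℕ) (h : ℕ), L ⊆ M.E → rk M L ≤ R₀ → (∀ a ∈ A, ∀ b ∈ B, τ a b ∈ M.E) →
    (∀ b ∈ B, rk M (L ∪ (fun a => τ a b) '' A) ≤ rk M L + h) → A.card = c →
    h * (t * t + QQ k) < c → N ≤ B.card →
    (∀ a ∈ A, ∀ b ∈ B, τ a b ∉ M.closure L) →
    (∀ b ∈ B, rk M ((fun a => τ a b) '' (A : Set ι)) = A.card) →
    rk M (L ∪ ⋃ b ∈ B, (fun a => τ a b) '' (A : Set ι)) =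
      rk M L + ∑ b ∈ B, (rk M (L ∪ (fun a => τ a b) '' (A : Set ι)) - rk M L) →
    HasUniformMinor M k ∨ ∃ X S : Set α, ∃ j : ℕ × ℕ → α, ∃ ed : ℕ × ℕ → ℕ × ℕ → α,
      X ⊆ pts τ (A ×ˢ B) ∧ S ⊆ pts τ (A ×ˢ B) ∧ Gad.JGrid (M ／ X) S t j ed ∧
      S ⊆ M.closure (L ∪ X) ∧ rk M L + rk M X ≤ rk M (L ∪ X) + QQ k ∧
      ∀ Ω ⊆ L, (∀ a ∈ A, ∀ b ∈ B, τ a b ∉ M.closure (Ω ∪ pts τ ((A.erase a) ×ˢ B))) →
        rk M (Ω ∪ X) + t * t ≤ rk M (S ∪ (Ω ∪ X)) + QQ k := by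
  classical
  obtain ⟨N₀, hN₀⟩ := sr2.{u, v} (k * (k - 1)) (Hub.GO k R₀) (t * t) (k - 2)
    (t * t + (EdF t).card)
  obtain ⟨N₁, hN₁⟩ := low_all.{u, v} k hk R₀ N₀ c
  refine ⟨(2 ^ c * (c * 2 ^ c)) * (N₁ + 1), ?_⟩
  intro α ι M _ dec L τ A B h hL hLr hτE hGr hAc hc hB hτ hind hsk
  have hTE : ∀ b ∈ B, (fun a => τ a b) '' (A : Set ι) ⊆ M.E := by
    rintro b hb _ ⟨a, ha, rfl⟩
    exact hτE a ha b hb
  have hskew := span_skew hL hTE hsk
  -- the cocircuits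
  have hch : ∀ b, ∃ ZV ∈ A.powerset ×ˢ (A ×ˢ A.powerset), b ∈ B →
      ZV.2.1 ∈ ZV.1 ∧ ZV.2.2.card = t * t + QQ k ∧ Disjoint ZV.2.2 ZV.1 ∧
      rk M (L ∪ (fun a => τ a b) '' (ZV.1 : Set ι)) = rk M L + ZV.1.card ∧
      (∀ a ∈ A, τ a b ∈ M.closure (L ∪ (fun a => τ a b) '' (ZV.1 : Set ι))) ∧
      ∀ a ∈ ZV.2.2, τ a b ∉
        M.closure (L ∪ (fun a => τ a b) '' ((ZV.1.erase ZV.2.1 : Finset ι) : Set ι)) := by
    intro b
    have hA0 : 0 < A.card := by omega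
    obtain ⟨a₀, ha₀⟩ := Finset.card_pos.1 hA0
    by_cases hb : b ∈ B
    · have hr : rk M (L ∪ (fun a => τ a b) '' (A : Set ι)) ≤ rk M L + h := hGr b hb
      obtain ⟨Z, hZA, i₀, hi₀, V, hVA, hVc, hVi, hVZ, hZr, hspan, hout⟩ :=
        exists_cocircuit (M := M) hL (p := fun a => τ a b) (A := A) (h := h)
          (q := t * t + QQ k) (fun a ha => hτE a ha b hb) (fun a ha => hτ a ha b hb) hr
          (by omega)
      refine ⟨(Z, i₀, V), Finset.mem_product.2 ⟨Finset.mem_powerset.2 hZA, Finset.mem_product.2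
        ⟨hZA hi₀, Finset.mem_powerset.2 hVA⟩⟩, fun _ => ⟨hi₀, hVc, hVZ, hZr, hspan, hout⟩⟩
    · exact ⟨(∅, a₀, ∅), Finset.mem_product.2 ⟨Finset.empty_mem_powerset _, Finset.mem_product.2
        ⟨ha₀, Finset.empty_mem_powerset _⟩⟩, fun h => absurd h hb⟩
  choose f hf1 hf2 using hch
  have hA0 : 0 < A.card := by omega
  obtain ⟨a₀, ha₀⟩ := Finset.card_pos.1 hA0
  obtain ⟨ZV, hZV, hB₁c⟩ := Finset.exists_le_card_fiber_of_mul_le_card_of_maps_to
    (s := B) (t := A.powerset ×ˢ (A ×ˢ A.powerset)) (f := f) (n := N₁ + 1) (fun b _ => hf1 b)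
    ⟨(∅, a₀, ∅), Finset.mem_product.2 ⟨Finset.empty_mem_powerset _, Finset.mem_product.2
        ⟨ha₀, Finset.empty_mem_powerset _⟩⟩⟩ (by
      rw [Finset.card_product, Finset.card_product, Finset.card_powerset, hAc]
      exact hB)
  set B₁ := B.filter (fun b => f b = ZV) with hB₁
  have hB₁B : B₁ ⊆ B := Finset.filter_subset _ _
  obtain ⟨Z, i₀, V⟩ := ZV
  obtain ⟨b₁, hb₁⟩ := Finset.card_pos.1 (show 0 < B₁.card by omega)
  have key : ∀ b ∈ B₁, i₀ ∈ Z ∧ V.card = t * t + QQ k ∧ Disjoint V Z ∧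
      rk M (L ∪ (fun a => τ a b) '' (Z : Set ι)) = rk M L + Z.card ∧
      (∀ a ∈ A, τ a b ∈ M.closure (L ∪ (fun a => τ a b) '' (Z : Set ι))) ∧
      ∀ a ∈ V, τ a b ∉
        M.closure (L ∪ (fun a => τ a b) '' ((Z.erase i₀ : Finset ι) : Set ι)) := by
    intro b hb
    have h1 := hf2 b (hB₁B hb)
    rw [(Finset.mem_filter.1 hb).2] at h1
    exact h1
  obtain ⟨hi₀, hVc, hVZ, _⟩ := key b₁ hb₁
  obtain ⟨h1, h2⟩ := Finset.mem_product.1 hZV
  obtain ⟨h3, h4⟩ := Finset.mem_product.1 h2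
  have hZA : Z ⊆ A := Finset.mem_powerset.1 h1
  have hVA : V ⊆ A := Finset.mem_powerset.1 h4
  -- restriction of the skewness to `B₁`
  have hsk₁ : ∀ F : ℕ → Set α,
      (∀ b ∈ B₁, F b ⊆ M.closure (L ∪ (fun a => τ a b) '' (A : Set ι))) →
      rk M (L ∪ ⋃ b ∈ B₁, F b) = rk M L + ∑ b ∈ B₁, (rk M (L ∪ F b) - rk M L) := by
    intro F hF
    have e1 := hskew (fun b => if b ∈ B₁ then F b else ∅) (by
      intro b hb
      split_ifs with h
      · exact hF b h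
      · exact empty_subset _)
    have e2 : (⋃ b ∈ B, if b ∈ B₁ then F b else ∅) = ⋃ b ∈ B₁, F b := by
      ext x
      simp only [mem_iUnion]
      constructor
      · rintro ⟨b, hb, hx⟩
        by_cases h : b ∈ B₁
        · rw [if_pos h] at hx
          exact ⟨b, h, hx⟩
        · rw [if_neg h] at hx
          exact absurd hx (notMem_empty _)
      · rintro ⟨b, hb, hx⟩
        refine ⟨b, hB₁B hb, ?_⟩
        rw [if_pos hb]
        exact hx
    have e3 : ∑ b ∈ B, (rk M (L ∪ if b ∈ B₁ then F b else ∅) - rk M L) =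
        ∑ b ∈ B₁, (rk M (L ∪ F b) - rk M L) := by
      rw [← Finset.sum_subset hB₁B (fun b _ hb => ?_)]
      · refine Finset.sum_congr rfl fun b hb => ?_
        rw [if_pos hb]
      · rw [if_neg hb, union_empty]
        omega
    rw [e2, e3] at e1
    exact e1
  -- independence of `V` modulo `Z × B₁`
  have hX₀E : pts τ (Z ×ˢ B₁) ⊆ M.E := by
    rintro _ ⟨q, hq, rfl⟩
    obtain ⟨h5, h6⟩ := Finset.mem_product.1 (Finset.mem_coe.1 hq)
    exact hτE _ (hZA h5) _ (hB₁B h6)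
  have hpairs : ∀ b ∈ B₁, rk M (L ∪ (fun a => τ a b) '' (A : Set ι) ∪ pts τ (Z ×ˢ B₁.erase b)) =
      rk M (L ∪ (fun a => τ a b) '' (A : Set ι)) + (Z ×ˢ B₁.erase b).card := by
    intro b hb
    have e1 := hsk₁ (fun b' => if b' = b then (fun a => τ a b') '' (A : Set ι) else (fun a => τ a b') '' (Z : Set ι)) (by
      intro b' hb'
      split_ifs
      · exact fun z hz => M.mem_closure_of_mem' (Or.inr hz) (hTE b' (hB₁B hb') hz)
      · rintro _ ⟨a, ha, rfl⟩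
        exact M.mem_closure_of_mem' (Or.inr ⟨a, hZA ha, rfl⟩) (hτE a (hZA ha) b' (hB₁B hb')))
    have e2 : (L ∪ ⋃ b' ∈ B₁, if b' = b then (fun a => τ a b') '' (A : Set ι) else (fun a => τ a b') '' (Z : Set ι)) =
        L ∪ (fun a => τ a b) '' (A : Set ι) ∪ pts τ (Z ×ˢ B₁.erase b) := by
      ext x
      simp only [mem_union, mem_iUnion]
      constructor
      · rintro (hx | ⟨b', hb', hx⟩)
        · exact Or.inl (Or.inl hx)
        · by_cases h : b' = b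
          · rw [if_pos h, h] at hx
            exact Or.inl (Or.inr hx)
          · rw [if_neg h] at hx
            obtain ⟨a, ha, rfl⟩ := hx
            exact Or.inr ⟨(a, b'), Finset.mem_coe.2 (Finset.mem_product.2
              ⟨ha, Finset.mem_erase.2 ⟨h, hb'⟩⟩), rfl⟩
      · rintro ((hx | hx) | ⟨q, hq, rfl⟩)
        · exact Or.inl hx
        · exact Or.inr ⟨b, hb, by rw [if_pos rfl]; exact hx⟩
        · obtain ⟨h5, h6⟩ := Finset.mem_product.1 (Finset.mem_coe.1 hq)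
          obtain ⟨h7, h8⟩ := Finset.mem_erase.1 h6
          refine Or.inr ⟨q.2, h8, ?_⟩
          rw [if_neg h7]
          exact ⟨q.1, h5, rfl⟩
    have hge : rk M L ≤ rk M (L ∪ (fun a => τ a b) '' (A : Set ι)) := rk_mono M subset_union_left
    have e3 : ∑ b' ∈ B₁, (rk M (L ∪ if b' = b then (fun a => τ a b') '' (A : Set ι) else (fun a => τ a b') '' (Z : Set ι)) -
        rk M L) = (rk M (L ∪ (fun a => τ a b) '' (A : Set ι)) - rk M L) + (Z ×ˢ B₁.erase b).card := by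
      rw [← Finset.add_sum_erase _ _ hb, if_pos rfl]
      have e4 : ∑ b' ∈ B₁.erase b,
          (rk M (L ∪ if b' = b then (fun a => τ a b') '' (A : Set ι) else (fun a => τ a b') '' (Z : Set ι)) - rk M L) =
          ∑ b' ∈ B₁.erase b, Z.card := by
        refine Finset.sum_congr rfl fun b' hb' => ?_
        obtain ⟨h5, h6⟩ := Finset.mem_erase.1 hb'
        rw [if_neg h5, (key b' h6).2.2.2.1]
        omega
      rw [e4, Finset.sum_const, smul_eq_mul, Finset.card_product, mul_comm]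
    rw [e2, e3] at e1
    rw [e1]
    omega
  have hVind : ∀ b ∈ B₁, rk M (pts τ (Z ×ˢ B₁) ∪ (fun a => τ a b) '' (V : Set ι)) =
      rk M (pts τ (Z ×ˢ B₁)) + V.card := by
    intro b hb
    have hbB := hB₁B hb
    have e0 : ∀ W ⊆ A, rk M ((fun a => τ a b) '' (W : Set ι)) = W.card := by
      intro W hW
      have h8 : rk M (∅ : Set α) = 0 := by
        have := rk_le_ncard M (X := (∅ : Set α)) finite_empty
        simpa using this
      have h5 := rk_sub_eq (M := M) (X := ∅) (p := fun a => τ a b) (Q := A) (by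
        rw [empty_union, hind b hbB, h8, zero_add]) hW
      rw [empty_union, h8, zero_add] at h5
      exact h5
    have hcl : ∀ W ⊆ A, (fun a => τ a b) '' (W : Set ι) ⊆ M.closure (L ∪ (fun a => τ a b) '' (A : Set ι)) := by
      rintro W hW _ ⟨a, ha, rfl⟩
      exact M.mem_closure_of_mem' (Or.inr ⟨a, hW ha, rfl⟩) (hτE a (hW ha) b hbB)
    have e1 := rk_skew_pts (M := M) (F := L ∪ (fun a => τ a b) '' (A : Set ι)) (y := fun q : ι × ℕ => τ q.1 q.2)
      (E := Z ×ˢ B₁.erase b) (hpairs b hb) (hcl (Z ∪ V) (Finset.union_subset hZA hVA))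
    have e2 := rk_skew_pts (M := M) (F := L ∪ (fun a => τ a b) '' (A : Set ι)) (y := fun q : ι × ℕ => τ q.1 q.2)
      (E := Z ×ˢ B₁.erase b) (hpairs b hb) (hcl Z hZA)
    have e3 : (fun a => τ a b) '' (Z : Set ι) ∪ pts τ (Z ×ˢ B₁.erase b) = pts τ (Z ×ˢ B₁) := by
      ext x
      constructor
      · rintro (⟨a, ha, rfl⟩ | ⟨q, hq, rfl⟩)
        · exact ⟨(a, b), Finset.mem_coe.2 (Finset.mem_product.2 ⟨ha, hb⟩), rfl⟩
        · obtain ⟨h5, h6⟩ := Finset.mem_product.1 (Finset.mem_coe.1 hq)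
          exact ⟨q, Finset.mem_coe.2 (Finset.mem_product.2 ⟨h5, Finset.mem_of_mem_erase h6⟩), rfl⟩
      · rintro ⟨q, hq, rfl⟩
        obtain ⟨h5, h6⟩ := Finset.mem_product.1 (Finset.mem_coe.1 hq)
        by_cases hqb : q.2 = b
        · exact Or.inl ⟨q.1, h5, by simp only [hqb]⟩
        · exact Or.inr ⟨q, Finset.mem_coe.2 (Finset.mem_product.2
            ⟨h5, Finset.mem_erase.2 ⟨hqb, h6⟩⟩), rfl⟩
    have e4 : (fun a => τ a b) '' ((Z ∪ V : Finset ι) : Set ι) ∪ pts τ (Z ×ˢ B₁.erase b) =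
        pts τ (Z ×ˢ B₁) ∪ (fun a => τ a b) '' (V : Set ι) := by
      rw [Finset.coe_union, image_union, ← e3]
      ext x
      simp only [mem_union]
      tauto
    have e5 : rk M ((fun a => τ a b) '' ((Z ∪ V : Finset ι) : Set ι) ∪
        pts τ (Z ×ˢ B₁.erase b)) = rk M ((fun a => τ a b) '' ((Z ∪ V : Finset ι) : Set ι)) +
        (Z ×ˢ B₁.erase b).card := e1
    have e6 : rk M ((fun a => τ a b) '' (Z : Set ι) ∪
        pts τ (Z ×ˢ B₁.erase b)) = rk M ((fun a => τ a b) '' (Z : Set ι)) +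
        (Z ×ˢ B₁.erase b).card := e2
    rw [e4, e0 _ (Finset.union_subset hZA hVA), Finset.card_union_of_disjoint hVZ.symm] at e5
    rw [e3, e0 _ hZA] at e6
    omega
  have hrankV : ∀ a ∈ V, rk M (pts τ (Z ×ˢ B₁) ∪ τ a '' (B₁ : Set ℕ)) ≤
      rk M (pts τ (Z ×ˢ B₁)) + R₀ := by
    intro a ha
    have h5 : pts τ (Z ×ˢ B₁) ∪ τ a '' (B₁ : Set ℕ) ⊆ M.closure (L ∪ pts τ (Z ×ˢ B₁)) := by
      rintro z (hz | ⟨b, hb, rfl⟩)
      · exact M.mem_closure_of_mem' (Or.inr hz) (hX₀E hz)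
      · refine M.closure_subset_closure (union_subset_union_right _ ?_)
          ((key b hb).2.2.2.2.1 a (hVA ha))
        rintro _ ⟨i, hi, rfl⟩
        exact ⟨(i, b), Finset.mem_coe.2 (Finset.mem_product.2 ⟨hi, hb⟩), rfl⟩
    have h6 := rk_mono M h5
    rw [rk_closure] at h6
    have h7 := rk_submod M L (pts τ (Z ×ˢ B₁))
    omega
  by_cases hU : HasUniformMinor M k
  · exact Or.inl hU
  right
  -- the hub
  have hpairB : rk M (L ∪ pts τ (Z ×ˢ B₁)) = rk M L + (Z ×ˢ B₁).card := by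
    have e1 := hsk₁ (fun b => (fun a => τ a b) '' (Z : Set ι)) (by
      rintro b hb _ ⟨a, ha, rfl⟩
      exact M.mem_closure_of_mem' (Or.inr ⟨a, hZA ha, rfl⟩) (hτE a (hZA ha) b (hB₁B hb)))
    rw [← pts_windows] at e1
    rw [e1]
    congr 1
    rw [Finset.card_product, mul_comm, ← smul_eq_mul, ← Finset.sum_const]
    refine Finset.sum_congr rfl fun b hb => ?_
    rw [(key b hb).2.2.2.1]
    omega
  have hH : Hub M L τ Z V i₀ B₁ := by
    refine ⟨hL, hi₀, fun a ha b hb => hτE a (hZA ha) b (hB₁B hb),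
      fun a ha b hb => hτE a (hVA ha) b (hB₁B hb), hVZ, hpairB,
      fun b hb a ha => (key b hb).2.2.2.2.1 a (hVA ha), fun b hb a ha => ?_⟩
    have := (key b hb).2.2.2.2.2 a ha
    convert this
  have hO : Orc (k * (k - 1)) (Hub.GO k R₀) M (pts τ (Z ×ˢ B₁)) τ V B₁ := by
    have := hH.orc hk hU hrankV
    convert this
  rcases hN₁ M (pts τ (Z ×ˢ B₁)) τ V B₁ hX₀E
    (fun a ha b hb => hτE a (hVA ha) b (hB₁B hb)) (by
      rw [← hAc]
      exact Finset.card_le_card hVA) (by omega) hrankV with h5 | ⟨B₂, hB₂, hB₂c, hlow⟩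
  · exact absurd h5 hU
  have hO₂ : Orc (k * (k - 1)) (Hub.GO k R₀) M (pts τ (Z ×ˢ B₁)) τ V B₂ := by
    have h5 := hO.step (Q := ∅) (subset_refl V) hB₂ (by simp)
    have h6 : pts τ (∅ : Finset (ι × ℕ)) = ∅ := by simp [pts]
    rwa [h6, union_empty] at h5
  obtain ⟨A', h5, h6, B', h7, h8, Q, hQc, h9, -, h11, h12⟩ := hN₀ M (pts τ (Z ×ˢ B₁)) τ V B₂ hX₀E
    (fun a ha b hb => hτE a (hVA ha) b (hB₁B (hB₂ hb))) hVc hB₂c
    (fun b hb => hVind b (hB₂ hb)) (by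
      intro a ha
      have h5 := hlow a ha
      have h6 : k - 2 + 1 = k - 1 := by omega
      rw [h6]
      exact h5) hO₂
  obtain ⟨X, S, j, ed, h13, h14, h15, h16, h17, h18⟩ := hH.core (t := t) (q := QQ k) h5 h6
    (h7.trans hB₂) h8 hQc (fun q hq => ⟨(h9 q hq).1, hB₂ (h9 q hq).2.1, (h9 q hq).2.2⟩) (by
      intro a ha
      have := h11 a ha
      convert this) (by
      intro g hg
      have := h12 g hg
      convert this)
  refine ⟨X, S, j, ed, h13.trans (pts_mono ?_),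
    h14.trans (pts_mono (Finset.product_subset_product hVA hB₁B)), h15, h16, h17, ?_⟩
  · refine Finset.product_subset_product ?_ hB₁B
    exact Finset.union_subset hZA hVA
  · intro Ω hΩ hΩa
    refine h18 Ω hΩ fun a ha b hb hcon => hΩa a (hVA ha) b (hB₁B hb) ?_
    refine M.closure_subset_closure (union_subset_union_right _ (pts_mono ?_)) hcon
    refine Finset.product_subset_product ?_ hB₁B
    intro x hx
    rw [Finset.mem_erase] at hx ⊢
    refine ⟨hx.1, ?_⟩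
    rcases Finset.mem_union.1 hx.2 with h | h
    · exact hZA h
    · exact hVA h

end DA
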