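import Pool.Agent.DA.ExA

/-!
# Rungs are exits of the stars at the ends of their rows (T-star, helper94)

`Rnd.sex_far`: a rung on two disjoint visible rows is an exit of the star at each of the four ends.
`Rnd.sex_near`: a rung on two rows at `v` is an exit of the star of `u` (`v u` a visible row which is
seen), unless both other neighbours of `v` are always locations.
-/

set_option autoImplicit false

open Set BIC BICS
open scoped Matroid

namespace DA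

open Gad TST

section

variable {α : Type*} {P : Matroid α} {S : Set α} {row : α → Sym2 (ℕ × ℕ)} {w : ℕ} {Dd : Set α}
  {β D₀ δ₀ D₁ δ₁ : ℕ} {Hm Hs₀ Om₁ Hs₁ Om₂ : Finset (ℕ × ℕ)} {u v p q a b : ℕ × ℕ}
  {V : Fin 3 → ℕ × ℕ} {z : α}

/-- a rung on two disjoint visible rows -/
theorem Rnd.sex_far [P.Finite] (h : Rnd P S row w Dd β D₀ δ₀ D₁ δ₁ Hm Hs₀ Om₁ Hs₁ Om₂)
    (hz : z ∈ Dd) (hcl : z ∈ P.closure S ∧ z ∉ S) (huv : wadj u v) (hu : VisR w δ₁ Om₂ u)
    (hv : VisR w δ₁ Om₂ v) (hs : SnW P S row w D₀ Hs₀ z u v) (hpq : wadj p q)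
    (hp : VisR w δ₁ Om₂ p) (hq : VisR w δ₁ Om₂ q) (hs' : SnW P S row w D₀ Hs₀ z p q)
    (hpn : p ∉ ({u, v} : Set (ℕ × ℕ))) (hqn : q ∉ ({u, v} : Set (ℕ × ℕ))) :
    SEx P S row w D₀ δ₁ Hs₀ Om₂ u z := by
  have hT := (h.locT hz hcl.1).toLocS
  have hself : ∀ {x : ℕ × ℕ}, sd x x ≤ 6 := by
    intro x
    rw [sd_self]
    omega
  refine ⟨hcl, ?_, v, huv, hv, hs, ?_⟩
  · intro c x hx
    have h1 := hT.supp_far huv hu hv hs hpq hs' hpn hqn c hx
    simp only [mem_insert_iff, mem_singleton_iff] at h1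
    rcases h1 with rfl | rfl | rfl | rfl
    exacts [(h.near hu hself).1, (h.near hv hself).1, (h.near hp hself).1, (h.near hq hself).1]
  · exact hT.exit_star_of_far huv hu hv hs hpq (h.near hp hself).2.2.1 (h.near hq hself).2.2.1 hs' hpn
      hqn

/-- a rung on two rows at `v`: all locations are in the star of `v` -/
theorem Rnd.near_sub [P.Finite] (h : Rnd P S row w Dd β D₀ δ₀ D₁ δ₁ Hm Hs₀ Om₁ Hs₁ Om₂)
    (hz : z ∈ Dd) (hcl : z ∈ P.closure S ∧ z ∉ S) (hvu : wadj v u) (hu : VisR w δ₁ Om₂ u)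
    (hv : VisR w δ₁ Om₂ v) (hs : SnW P S row w D₀ Hs₀ z v u) (hva : wadj v a)
    (hs' : SnW P S row w D₀ Hs₀ z v a) (hne : u ≠ a) :
    (∀ c, YW P S row w D₀ Hs₀ z c ⊆ nst wadj v) ∧
      ∀ c, ∀ x ∈ YW P S row w D₀ Hs₀ z c, OutW δ₁ w Om₂ x := by
  have hT := (h.locT hz hcl.1).toLocS
  have h1 := hT.near_of_two hvu hv hu hs hva hs' hne
  refine ⟨h1, fun c x hx => ?_⟩
  rcases h1 c hx with rfl | h2
  · exact (h.near hv (by rw [sd_self]; omega)).1
  · exact (h.near hv (by have := (wadj_sd h2).1; omega)).1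

/-- a rung on two rows `v u`, `v a` at `v`, not always located at the third neighbour `b` -/
theorem Rnd.sex_near [P.Finite] (h : Rnd P S row w Dd β D₀ δ₀ D₁ δ₁ Hm Hs₀ Om₁ Hs₁ Om₂)
    (hz : z ∈ Dd) (hcl : z ∈ P.closure S ∧ z ∉ S) (hvu : wadj v u) (hu : VisR w δ₁ Om₂ u)
    (hv : VisR w δ₁ Om₂ v) (hs : SnW P S row w D₀ Hs₀ z v u) (hva : wadj v a)
    (hs' : SnW P S row w D₀ Hs₀ z v a) (hne : u ≠ a)
    (hb : ∃ b, wadj v b ∧ b ≠ u ∧ ∃ c, b ∉ YW P S row w D₀ Hs₀ z c) :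
    SEx P S row w D₀ δ₁ Hs₀ Om₂ u z := by
  have hT := (h.locT hz hcl.1).toLocS
  refine ⟨hcl, (h.near_sub hz hcl hvu hu hv hs hva hs' hne).2, v, wadj_swap hvu, hv,
    hT.snsymm _ _ hs, ?_⟩
  rcases hT.exit_star_of_near hvu hv hu hs hva hs' hne with h1 | h1
  · exact h1
  · exfalso
    obtain ⟨b, b1, b2, c, b3⟩ := hb
    have hbv : b ≠ v := by
      rintro rfl
      exact hT.irr _ b1
    have h2 : b ∈ nst wadj v \ {v, u} := by
      refine ⟨Or.inr b1, ?_⟩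
      rintro (h3 | h3)
      · exact hbv h3
      · exact b2 h3
    rw [← h1 c] at h2
    exact b3 h2.1

/-- no element of the row `v b` is outside of the class of the end `b`: `b` is never a location -/
lemma noloc_of_Lr (hvb : wadj v b) (hv : v ∈ rect 0 0 (w + 1) (w + 1)) (hb : b ∈ rect 0 0 (w + 1) (w + 1))
    (hx : ∀ x ∈ RX S row v b, x ∈ Lr P S row w b z) {c : Set α} (hc : c ⊆ S)
    (hW : WallE c row w ∅) : b ∉ LocR P S row c z := by
  obtain ⟨e, he, hee⟩ := hW.surj v b hvb hv hb (notMem_empty _)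
  have h1 := hx e ⟨hc he, hee⟩ c hc hW he
  unfold LocR
  rw [mem_ofPred_eq, not_not]
  exact h1

/-- a near element which is honest at `v` (a leg without a place) is an exit of the star of `u` -/
theorem Rnd.sex_link [P.Finite] (h : Rnd P S row w Dd β D₀ δ₀ D₁ δ₁ Hm Hs₀ Om₁ Hs₁ Om₂)
    (hz : z ∈ Dd) (hcl : z ∈ P.closure S ∧ z ∉ S) (hvu : wadj v u) (hu : VisR w δ₁ Om₂ u)
    (hv : VisR w δ₁ Om₂ v) (hs : SnW P S row w D₀ Hs₀ z v u) (hva : wadj v a)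
    (hs' : SnW P S row w D₀ Hs₀ z v a) (hne : u ≠ a) (hvb : wadj v b) (hbu : b ≠ u)
    (hb : ∀ x ∈ RX S row v b, x ∈ Lr P S row w b z) : SEx P S row w D₀ δ₁ Hs₀ Om₂ u z := by
  obtain ⟨c₀⟩ := (h.locT hz hcl.1).toLocS.ne
  refine h.sex_near hz hcl hvu hu hv hs hva hs' hne ⟨b, hvb, hbu, c₀, fun h1 => ?_⟩
  have hr : ∀ x : ℕ × ℕ, sd v x ≤ 6 → x ∈ rect 0 0 (w + 1) (w + 1) := by
    intro x hx
    have h2 := (h.w1.reg hv hx).2.2
    unfold DeepR at h2
    simp only at h2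
    rw [Gad.mem_rct]
    omega
  exact noloc_of_Lr hvb (hr v (by rw [sd_self]; omega))
    (hr b (by have := (wadj_sd hvb).1; omega)) hb c₀.2.1 c₀.2.2 h1.1

end

end DA
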