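import Pool.Agent.DA.StarEx

/-!
# Witnesses of stars in round 0 (T-star, helper94)

`SEx0`: exit of the star of `u` in round 0; `Rnd.twit0`, `Rnd.split0`: witness, star split in round 0;
`loc01`: local in round 0 implies local in round 1; `SEx.to0`: a clean exit of round 1 is one of round 0.
-/

set_option autoImplicit false

open Set BIC BICS
open scoped Matroid

namespace DA

open Gad TST

section

variable {α : Type*} {P : Matroid α} {S : Set α} {row : α → Sym2 (ℕ × ℕ)} {w : ℕ} {Dd : Set α}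
  {β D₀ δ₀ D₁ δ₁ : ℕ} {Hm Hs₀ Om₁ Hs₁ Om₂ : Finset (ℕ × ℕ)} {u v : ℕ × ℕ}
  {V : Fin 3 → ℕ × ℕ} {z t : α} {T W : Set α}

/-- an exit of the star of `u` in round 0: sees one visible row at `u` -/
structure SEx0 {α : Type*} (P : Matroid α) (S : Set α) (row : α → Sym2 (ℕ × ℕ)) (w : ℕ)
    (D₀ δ₀ δ₁ : ℕ) (Hs₀ Om₁ Om₂ : Finset (ℕ × ℕ)) (u : ℕ × ℕ) (z : α) : Prop where
  cl : z ∈ P.closure S ∧ z ∉ S
  clean : ∀ c, ∀ x ∈ YW P S row w D₀ Hs₀ z c, OutW δ₀ w Om₁ x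
  ex : ∃ v, wadj u v ∧ VisR w δ₁ Om₂ v ∧ SnW P S row w D₀ Hs₀ z u v ∧
    ∃ (c : ChW S row w) (y : ℕ × ℕ), y ∉ nst wadj u ∧ y ∈ YW P S row w D₀ Hs₀ z c ∧
      YW P S row w D₀ Hs₀ z c ⊆ insert y (nst wadj u)

/-- clean in round 1 implies clean in round 0 -/
theorem Rnd.clean01 (h : Rnd P S row w Dd β D₀ δ₀ D₁ δ₁ Hm Hs₀ Om₁ Hs₁ Om₂) {x : ℕ × ℕ}
    (hx : OutW δ₁ w Om₂ x) : OutW δ₀ w Om₁ x := by
  have := h.le
  exact (h.vis₀ hx).mono (by omega)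

theorem SEx.to0 (hz : SEx P S row w D₀ δ₁ Hs₀ Om₂ u z)
    (h : Rnd P S row w Dd β D₀ δ₀ D₁ δ₁ Hm Hs₀ Om₁ Hs₁ Om₂) :
    SEx0 P S row w D₀ δ₀ δ₁ Hs₀ Om₁ Om₂ u z :=
  ⟨hz.cl, fun c x hx => h.clean01 (hz.clean c x hx), hz.ex⟩

/-- local in round 0 implies local in round 1 -/
theorem Rnd.loc01 (h : Rnd P S row w Dd β D₀ δ₀ D₁ δ₁ Hm Hs₀ Om₁ Hs₁ Om₂) {U : Set (ℕ × ℕ)}
    (ht : ∀ c, YW P S row w D₀ Hs₀ t c ⊆ U) :
    ∀ c : ChW S row w, ∀ x ∈ LocR P S row c.1 t, RegW w D₁ Hs₁ x → x ∈ U :=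
  fun c _ hx hr => ht c ⟨hx, h.reg01 hr⟩

/-- **Witnesses of the exits of a visible star**, round 0. -/
theorem Rnd.twit0 [P.Finite] (h : Rnd P S row w Dd β D₀ δ₀ D₁ δ₁ Hm Hs₀ Om₁ Hs₁ Om₂) (hβ : 4 ≤ β)
    (hu : VisR w δ₁ Om₂ u) (hnb : Nb3 u (V 0) (V 1) (V 2))
    (hT : ∀ t ∈ T, t ∈ P.closure S ∧ t ∉ S ∧ ∀ c, YW P S row w D₀ Hs₀ t c ⊆ nst wadj u)
    (hz : z ∈ Dd) (hzT : z ∉ T) (hze : SEx0 P S row w D₀ δ₀ δ₁ Hs₀ Om₁ Om₂ u z) :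
    TWit (Er P S) (fun t i => Lr P S row w (V i) t) (ASt P S row w u V)
      (fun t x y v => t ∈ P.closure (S \ {x, y, v})) (SX S row u V) T z := by
  obtain ⟨hcl, hclean, v, huv, hv, hs, c, y, hy, hyc, hsub⟩ := hze
  have hex := h.exit0 hβ hz hcl.1 hcl.2 huv hu hv hs hclean hy hyc hsub
  obtain ⟨-, -, -, hA⟩ := h.w0.exA (h.locT hz hcl.1).toLocS (fun x hx => hx) (h.vis₀ hu) hu hv huv hs
    hnb hex hsub
  exact h.w0.twitN (h.vis₀ hu) hnb (fun t ht => ⟨(hT t ht).1, (hT t ht).2.1,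
    fun c x hx hr => (hT t ht).2.2 c ⟨hx, hr⟩⟩) hzT hex hA

/-- **The star split at a visible star**, round 0. -/
theorem Rnd.split0 [P.Finite] (h : Rnd P S row w Dd β D₀ δ₀ D₁ δ₁ Hm Hs₀ Om₁ Hs₁ Om₂) (hβ : 4 ≤ β)
    (hu : VisR w δ₁ Om₂ u) (hnb : Nb3 u (V 0) (V 1) (V 2))
    (hT : ∀ t ∈ T, t ∈ P.closure S ∧ t ∉ S ∧ ∀ c, YW P S row w D₀ Hs₀ t c ⊆ nst wadj u)
    (hTW : Disjoint T W) (hW : ∀ z ∈ W, z ∈ Dd ∧ SEx0 P S row w D₀ δ₀ δ₁ Hs₀ Om₁ Om₂ u z) :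
    ∃ (C : Fin 3 → Set α) (Lk : Set α), StarSplit (Er P S) (fun t i => Lr P S row w (V i) t)
      (ASt P S row w u V) (fun t x y v => t ∈ P.closure (S \ {x, y, v})) (SX S row u V) C T W Lk :=
  starSplit _ _ _ _ _ T W (fun i => (h.w1.legs hu hnb i).1) (fun i => (h.w1.legs hu hnb i).2) hTW
    fun z hz => h.twit0 hβ hu hnb hT (hW z hz).1 (fun h3 => disjoint_left.1 hTW h3 hz) (hW z hz).2

/-- on the row which is seen the class of an exit of the star is the complement of `Lr u z` and the class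
`Arw v u z`, and `Arw u v z = Lr u z` (round 0) -/
theorem Rnd.arw0 [P.Finite] (h : Rnd P S row w Dd β D₀ δ₀ D₁ δ₁ Hm Hs₀ Om₁ Hs₁ Om₂) (hβ : 4 ≤ β)
    (hu : VisR w δ₁ Om₂ u) (hz : z ∈ Dd) (hcl : z ∈ P.closure S ∧ z ∉ S)
    (hclean : ∀ c, ∀ x ∈ YW P S row w D₀ Hs₀ z c, OutW δ₀ w Om₁ x) (huv : wadj u v)
    (hv : VisR w δ₁ Om₂ v) (hs : SnW P S row w D₀ Hs₀ z u v) {c : ChW S row w} {y : ℕ × ℕ}
    (hy : y ∉ nst wadj u) (hyc : y ∈ YW P S row w D₀ Hs₀ z c)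
    (hsub : YW P S row w D₀ Hs₀ z c ⊆ insert y (nst wadj u)) :
    Quiet P S row u v z ∧ (∀ x, x ∈ Arw P S row w u v z ↔ x ∈ Lr P S row w u z) ∧
      ∀ x ∈ RX S row u v, (x ∈ Arw P S row w v u z ↔ x ∉ Lr P S row w u z) := by
  obtain ⟨V, hnb⟩ := exists_nb3 (h.w1.one_le hu)
  have hex := h.exit0 hβ hz hcl.1 hcl.2 huv hu hv hs hclean hy hyc hsub
  obtain ⟨h1, h2, h3, -⟩ := h.w0.exA (h.locT hz hcl.1).toLocS (fun x hx => hx) (h.vis₀ hu) hu hv huv hs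
    hnb hex hsub
  refine ⟨h1, fun x => ?_, fun x hx => (h.w0.ar_leg (h.vis₀ hu) huv c.2.1 c.2.2 h2 h1 h3 hx).2⟩
  rw [Arw, if_pos h1]

end

end DA
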