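import Pool.Agent.DA.Rows74
import Pool.Agent.DA.Gam74G

/-!
# One strand, with joint bounds (row B4 of cell G, problem MP_5165fa_co)
-/

open Set BIC BICS
open scoped Matroid

namespace DA
namespace Gam

universe u v

variable {α : Type*} {M : Matroid α} {Y : Set α} {z : ℕ → α} {I : Finset ℕ}

/-- **One strand.**  Homogeneous form. -/
theorem hubZ₀' (k : ℕ) (hk : 2 ≤ k) (t c R : ℕ) (hc : (3 * k) * (t * t + QQ k) < c) :
    ∃ n : ℕ, ∀ {α : Type u} (M : Matroid α) [M.Finite] (P Λ : Set α) (z : ℕ → α)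
      (T₀ : Fin c → Finset ℕ → Fin k → α) (E : Fin c → Set α), ¬ HasUniformMinor M k →
      Row M (P ∪ Λ) z (Finset.range n) → Disjoint P Λ → rk M (P ∪ Λ) ≤ rk M P + R →
      Hom M (P ∪ Λ) z (Finset.range n) k T₀ (Finset.range n) →
      (∀ a, E a ⊆ M.closure (P ∪ Λ ∪ z '' (Finset.range n : Set ℕ))) →
      (∀ a, ∀ J ⊆ Finset.range n, J.card = k → ∀ q, T₀ a J q ∈ E a) →
      (∀ a, ∀ J ⊆ Finset.range n, J.card = k →
        k ≤ vis M (P ∪ Λ) z (Finset.range n) (Set.range (T₀ a J)) J) →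
      (∀ a, ∀ x ∈ E a, x ∉ M.closure (P ∪ z '' (Finset.range n : Set ℕ) ∪
        ⋃ a' ∈ {a' | a' ≠ a}, E a')) →
      ∃ (C₀ X S : Set α) (j : ℕ × ℕ → α) (ed : ℕ × ℕ → ℕ × ℕ → α), P ⊆ C₀ ∧
        C₀ ⊆ P ∪ z '' (Finset.range n : Set ℕ) ∧ X ⊆ (⋃ a, E a) ∧ S ⊆ (⋃ a, E a) ∧
        Gad.JGrid (M ／ (C₀ ∪ X)) S t j ed ∧
        rk M (S ∪ (Λ ∪ (C₀ ∪ X))) ≤ rk M (Λ ∪ (C₀ ∪ X)) + (k - 1) ∧
        rk M (Λ ∪ C₀) + rk M (C₀ ∪ X) ≤ rk M (Λ ∪ (C₀ ∪ X)) + rk M C₀ + QQ k ∧
        ∀ Ω ⊆ Λ, (∀ a, ∀ x ∈ E a, x ∉ M.closure (Ω ∪ (P ∪ z '' (Finset.range n : Set ℕ)) ∪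
            ⋃ a' ∈ {a' | a' ≠ a}, E a')) →
          rk M (Ω ∪ (C₀ ∪ X)) + t * t ≤ rk M (S ∪ (Ω ∪ (C₀ ∪ X))) + QQ k := by
  classical
  obtain ⟨N, hN⟩ := hubRows3.{u, 0} k hk t c (3 * k) (k - 1) R hc
  refine ⟨3 * k * (N + 2), ?_⟩
  obtain ⟨n, hn⟩ : ∃ n, n = 3 * k * (N + 2) := ⟨_, rfl⟩
  rw [← hn]
  intro α M _ P Λ z T₀ E hU hR hPΛ hΛR hH hE hTE hTv hline
  obtain ⟨Y, hY⟩ : ∃ Y, Y = P ∪ Λ := ⟨_, rfl⟩
  rw [← hY] at hR hH hE hTv hΛR
  have hYE : Y ⊆ M.E := hR.subY
  have hPE : P ⊆ M.E := by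
    refine Subset.trans ?_ hYE
    rw [hY]; exact subset_union_left
  have hΛE : Λ ⊆ M.E := by
    refine Subset.trans ?_ hYE
    rw [hY]; exact subset_union_right
  obtain ⟨B, hB⟩ : ∃ B, B = Finset.range N := ⟨_, rfl⟩
  have hBN : B ⊆ Finset.range N := by rw [hB]
  have hroB : ∀ b ∈ B, ro k b ⊆ Finset.range n := fun b hb =>
    ro_sub (Finset.mem_range.1 (hBN hb)) hn
  have hcl : ∀ a w q, ro k w ⊆ Finset.range n →
      T₀ a (ro k w) q ∈ M.closure (Y ∪ z '' (Finset.range n : Set ℕ)) := fun a w q hw =>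
    hE a (hTE a _ hw (ro_card k w) q)
  -- visibility
  have hpos1 : ∀ b, Pos k (B.erase b) (Finset.Ico (3 * k * (b + 1)) (3 * k * (b + 2))) b := by
    intro b
    constructor
    · intro w _ hwb x hx y hy
      unfold ro at hx
      rw [Finset.mem_Ico] at hx hy
      have h1 : 3 * k * (w + 1 + 1) ≤ 3 * k * (b + 1) := Nat.mul_le_mul_left _ (by omega)
      rw [Nat.mul_add (3 * k) (w + 1) 1] at h1
      omega
    · intro w hw hbw x hx y hy
      have hne := Finset.ne_of_mem_erase hw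
      unfold ro at hx
      rw [Finset.mem_Ico] at hx hy
      have h1 : 3 * k * (b + 2) ≤ 3 * k * (w + 1) := Nat.mul_le_mul_left _ (by omega)
      omega
  have hv1 : ∀ b ∈ B, vis M Y z (Finset.range n)
      (pw T₀ (Finset.univ ×ˢ (B.erase b ×ˢ Finset.univ))) (ro k b) < k := by
    intro b hb
    have hbN := Finset.mem_range.1 (hBN hb)
    have hsub : Finset.Ico (3 * k * (b + 1)) (3 * k * (b + 2)) ⊆ Finset.range n := by
      intro x hx
      rw [Finset.mem_Ico] at hx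
      rw [Finset.mem_range, hn]
      have h1 : 3 * k * (b + 2) ≤ 3 * k * (N + 2) := Nat.mul_le_mul_left _ (by omega)
      omega
    refine lt_of_le_of_lt (vis_mono _ ?_) (vis_lt hk hU hR (Finset.Subset.refl _) hH hcl (hpos1 b)
      (fun w hw => hroB w (Finset.mem_of_mem_erase hw)) hsub ?_)
    · intro x hx
      unfold ro at hx
      rw [Finset.mem_Ico] at hx ⊢
      have h1 : 3 * k * (b + 2) = 3 * k * (b + 1) + 3 * k := by ring
      omega
    · rw [Nat.card_Ico]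
      have h1 : 3 * k * (b + 2) = 3 * k * (b + 1) + 3 * k := by ring
      omega
  have hv2 : ∀ b ∈ B, vis M Y z (Finset.range n)
      (pw T₀ (Finset.univ ×ˢ (({b} : Finset ℕ) ×ˢ Finset.univ))) (WB k B) ≤ 3 * k := by
    intro b hb
    have hbN := Finset.mem_range.1 (hBN hb)
    have h0 : 3 * k * (b + 1) + 2 * (3 * k) ≤ n := by
      have h1 : 3 * k * (b + 1 + 2) ≤ 3 * k * (N + 2) := Nat.mul_le_mul_left _ (by omega)
      rw [Nat.mul_add (3 * k) (b + 1) 2] at h1
      omega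
    have hk3 : 3 * k ≤ 3 * k * (b + 1) := Nat.le_mul_of_pos_right _ (by omega)
    have hs1 : Finset.range (3 * k * (b + 1)) ⊆ Finset.range n := by
      intro x hx
      rw [Finset.mem_range] at hx ⊢
      omega
    have hs2 : Finset.Ico (3 * k * (b + 1) + k) n ⊆ Finset.range n := by
      intro x hx
      rw [Finset.mem_Ico] at hx
      rw [Finset.mem_range]
      omega
    have hsb : ∀ w ∈ ({b} : Finset ℕ), ro k w ⊆ Finset.range n := by
      intro w hw
      rw [Finset.mem_singleton.1 hw]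
      exact hroB b hb
    have h1 := vis_lt hk hU hR (Finset.Subset.refl _) hH hcl (W := {b})
      (I' := Finset.range (3 * k * (b + 1))) (p := 0) ⟨fun w _ h => absurd h (Nat.not_lt_zero _), by
        intro w hw _ x hx y hy
        rw [Finset.mem_singleton.1 hw] at hx
        unfold ro at hx
        rw [Finset.mem_Ico] at hx
        rw [Finset.mem_range] at hy
        omega⟩ hsb hs1 (by rw [Finset.card_range]; omega)
    have h2 := vis_lt hk hU hR (Finset.Subset.refl _) hH hcl (W := {b})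
      (I' := Finset.Ico (3 * k * (b + 1) + k) n) (p := b + 1) ⟨by
        intro w hw _ x hx y hy
        rw [Finset.mem_singleton.1 hw] at hx
        unfold ro at hx
        rw [Finset.mem_Ico] at hx hy
        omega, by
        intro w hw h
        rw [Finset.mem_singleton.1 hw] at h
        omega⟩ hsb hs2 (by rw [Nat.card_Ico]; omega)
    have h3 : vis M Y z (Finset.range n)
        (pw T₀ (Finset.univ ×ˢ (({b} : Finset ℕ) ×ˢ Finset.univ))) (ro k b) ≤ k := by
      have h4 := hR.vis_le_card (F := pw T₀ (Finset.univ ×ˢ (({b} : Finset ℕ) ×ˢ Finset.univ))) (by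
        rintro _ ⟨x, hx, rfl⟩
        rw [Finset.mem_coe, Finset.mem_product, Finset.mem_product] at hx
        exact hcl _ _ _ (hsb _ hx.2.1)) (hroB b hb)
      rw [ro_card] at h4
      exact h4
    have h5 := hR.vis_union (pw T₀ (Finset.univ ×ˢ (({b} : Finset ℕ) ×ˢ Finset.univ))) hs1
      (hroB b hb)
    have h6 := hR.vis_union (pw T₀ (Finset.univ ×ˢ (({b} : Finset ℕ) ×ˢ Finset.univ)))
      (Finset.union_subset hs1 (hroB b hb)) hs2
    have h7 := vis_mono (M := M) (Y := Y) (z := z) (I := Finset.range n)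
      (pw T₀ (Finset.univ ×ˢ (({b} : Finset ℕ) ×ˢ Finset.univ)))
      (show WB k B ⊆ Finset.range (3 * k * (b + 1)) ∪ ro k b ∪
        Finset.Ico (3 * k * (b + 1) + k) n by
        intro x hx
        have h8 := WB_sub hBN hn hx
        rw [Finset.mem_range] at h8
        rw [Finset.mem_union, Finset.mem_union, Finset.mem_range, Finset.mem_Ico]
        unfold ro
        rw [Finset.mem_Ico]
        omega)
    omega
  have hv3 : ∀ B₀ ⊆ B, ∀ B₁ ⊆ B, (∀ x ∈ B₀, ∀ y ∈ B₁, x < y) → vis M Y z (Finset.range n)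
      (pw T₀ (Finset.univ ×ˢ (B₀ ×ˢ Finset.univ))) (WB k B₁) < k := by
    intro B₀ hB₀ B₁ hB₁ hlt
    rcases B₁.eq_empty_or_nonempty with rfl | hne
    · have h1 := hR.vis_le_card (F := pw T₀ (Finset.univ ×ˢ (B₀ ×ˢ Finset.univ))) (by
        rintro _ ⟨x, hx, rfl⟩
        rw [Finset.mem_coe, Finset.mem_product, Finset.mem_product] at hx
        exact hcl _ _ _ (hroB _ (hB₀ hx.2.1))) (Finset.empty_subset _)
      have h2 : WB k ∅ = ∅ := by simp [WB]
      rw [h2]
      rw [Finset.card_empty] at h1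
      omega
    · obtain ⟨p, hp, hmin⟩ : ∃ p ∈ B₁, ∀ y ∈ B₁, p ≤ y :=
        ⟨_, Finset.min'_mem _ hne, fun y hy => Finset.min'_le _ _ hy⟩
      have hpN := Finset.mem_range.1 (hBN (hB₁ hp))
      have h0 : 3 * k * (p + 1) + 2 * (3 * k) ≤ n := by
        have h1 : 3 * k * (p + 1 + 2) ≤ 3 * k * (N + 2) := Nat.mul_le_mul_left _ (by omega)
        rw [Nat.mul_add (3 * k) (p + 1) 2] at h1
        omega
      refine lt_of_le_of_lt (vis_mono _ ?_) (vis_lt hk hU hR (Finset.Subset.refl _) hH hcl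
        (W := B₀) (I' := Finset.Ico (3 * k * (p + 1)) n) (p := p) ⟨?_, ?_⟩
        (fun w hw => hroB w (hB₀ hw)) ?_ ?_)
      · intro x hx
        obtain ⟨b, hb, h1⟩ := mem_WB.1 hx
        have h2 := hroB b (hB₁ hb) h1
        rw [Finset.mem_range] at h2
        unfold ro at h1
        rw [Finset.mem_Ico] at h1 ⊢
        have h3 : 3 * k * (p + 1) ≤ 3 * k * (b + 1) :=
          Nat.mul_le_mul_left _ (by have := hmin b hb; omega)
        omega
      · intro w hw hwp x hx y hy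
        unfold ro at hx
        rw [Finset.mem_Ico] at hx hy
        have h1 : 3 * k * (w + 1 + 1) ≤ 3 * k * (p + 1) := Nat.mul_le_mul_left _ (by omega)
        rw [Nat.mul_add (3 * k) (w + 1) 1] at h1
        omega
      · intro w hw hpw
        have := hlt w hw p hp
        omega
      · intro x hx
        rw [Finset.mem_Ico] at hx
        rw [Finset.mem_range]
        exact hx.2
      · rw [Nat.card_Ico]
        omega
  -- the private points
  have hq : ∀ (a : Fin c) (b : ℕ), ∃ q : Fin k, b ∈ B → T₀ a (ro k b) q ∉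
      M.closure (off Y z (Finset.range n) (ro k b) ∪
        pw T₀ (Finset.univ ×ˢ (B.erase b ×ˢ Finset.univ))) := by
    intro a b
    by_cases hb : b ∈ B
    · by_contra hcon
      push Not at hcon
      have h1 := hTv a (ro k b) (hroB b hb) (ro_card k b)
      have h2 := hv1 b hb
      have h3 := vis_add (Y := Y) (z := z) (I := Finset.range n) M (Set.range (T₀ a (ro k b)))
        (ro k b)
      have h4 := vis_add (Y := Y) (z := z) (I := Finset.range n) M
        (pw T₀ (Finset.univ ×ˢ (B.erase b ×ˢ Finset.univ))) (ro k b)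
      have hFE : pw T₀ (Finset.univ ×ˢ (B.erase b ×ˢ Finset.univ)) ⊆ M.E := by
        rintro _ ⟨x, hx, rfl⟩
        rw [Finset.mem_coe, Finset.mem_product, Finset.mem_product] at hx
        exact M.closure_subset_ground _ (hcl _ _ _ (hroB _ (Finset.mem_of_mem_erase hx.2.1)))
      have h5 : off Y z (Finset.range n) (ro k b) ∪ Set.range (T₀ a (ro k b)) ⊆
          M.closure (off Y z (Finset.range n) (ro k b) ∪
            pw T₀ (Finset.univ ×ˢ (B.erase b ×ˢ Finset.univ))) := by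
        refine union_subset ?_ ?_
        · exact subset_union_left.trans (M.subset_closure _ (union_subset (hR.off_sub _) hFE))
        · rintro _ ⟨q, rfl⟩
          exact (hcon q).2
      have h6 := rk_mono M h5
      rw [rk_closure] at h6
      omega
    · exact ⟨⟨0, by omega⟩, fun h => absurd h hb⟩
  choose q hq using hq
  obtain ⟨τ, hτ⟩ : ∃ τ : Fin c → ℕ → α, τ = fun a b => T₀ a (ro k b) (q a b) := ⟨_, rfl⟩
  have hτE : ∀ a, ∀ b ∈ B, τ a b ∈ E a := by
    intro a b hb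
    rw [hτ]
    exact hTE a _ (hroB b hb) (ro_card k b) _
  have hτM : ∀ a, ∀ b ∈ B, τ a b ∈ M.E := fun a b hb =>
    M.closure_subset_ground _ (hE a (hτE a b hb))
  have hτpw : ∀ W ⊆ B, pts τ (Finset.univ ×ˢ W) ⊆
      pw T₀ (Finset.univ ×ˢ (W ×ˢ Finset.univ)) := by
    rintro W hW _ ⟨⟨a, b⟩, hab, rfl⟩
    rw [Finset.mem_coe, Finset.mem_product] at hab
    refine ⟨(a, b, q a b), ?_, ?_⟩
    · rw [Finset.mem_coe, Finset.mem_product, Finset.mem_product]
      exact ⟨Finset.mem_univ _, hab.2, Finset.mem_univ _⟩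
    · rw [hτ]
  -- the contracted set
  obtain ⟨G, hG⟩ : ∃ G : ℕ → Set α, G = fun b => z '' (ro k b : Set ℕ) := ⟨_, rfl⟩
  obtain ⟨C₁, hC₁⟩ : ∃ C₁ : Set α,
    C₁ = P ∪ z '' ((Finset.range n \ WB k B : Finset ℕ) : Set ℕ) := ⟨_, rfl⟩
  have hzE : ∀ i < n, z i ∈ M.E := fun i hi => hR.mem i (Finset.mem_range.2 hi)
  have hC₁E : C₁ ⊆ M.E := by
    rw [hC₁]
    refine union_subset hPE ?_
    rintro _ ⟨i, hi, rfl⟩
    exact hR.mem i (Finset.mem_sdiff.1 (Finset.mem_coe.1 hi)).1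
  have hzY : ∀ i < n, z i ∉ P ∧ z i ∉ Λ := by
    intro i hi
    have := hR.notin (Finset.mem_range.2 hi)
    rw [hY] at this
    exact ⟨fun h => this (Or.inl h), fun h => this (Or.inr h)⟩
  have hGG : ∀ B' : Finset ℕ, GG G B' = z '' (WB k B' : Set ℕ) := by
    intro B'
    ext x
    rw [mem_GG, hG]
    simp only [mem_image, Finset.mem_coe]
    constructor
    · rintro ⟨b, hb, i, hi, rfl⟩
      exact ⟨i, mem_WB.2 ⟨b, hb, hi⟩, rfl⟩
    · rintro ⟨i, hi, rfl⟩
      obtain ⟨b, hb, h⟩ := mem_WB.1 hi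
      exact ⟨b, hb, i, h, rfl⟩
  have hset : ∀ B' ⊆ B, C₁ ∪ GG G (B \ B') =
      P ∪ z '' ((Finset.range n \ WB k B' : Finset ℕ) : Set ℕ) := by
    intro B' hB'
    rw [hGG, hC₁, union_assoc, ← image_union]
    congr 2
    ext i
    simp only [mem_union, Finset.mem_coe, Finset.mem_sdiff, Finset.mem_range]
    constructor
    · rintro (⟨h1, h2⟩ | h1)
      · exact ⟨h1, fun h => h2 (WB_mono hB' h)⟩
      · refine ⟨Finset.mem_range.1 (WB_sub (Finset.sdiff_subset.trans hBN) hn h1), fun h => ?_⟩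
        obtain ⟨b, hb, h3⟩ := mem_WB.1 h1
        obtain ⟨b', hb', h4⟩ := mem_WB.1 h
        rw [Finset.mem_sdiff] at hb
        exact hb.2 (ro_disj h3 h4 ▸ hb')
    · rintro ⟨h1, h2⟩
      by_cases h3 : i ∈ WB k B
      · obtain ⟨b, hb, h4⟩ := mem_WB.1 h3
        refine Or.inr (mem_WB.2 ⟨b, Finset.mem_sdiff.2 ⟨hb, fun h => h2 ?_⟩, h4⟩)
        exact mem_WB.2 ⟨b, h, h4⟩
      · exact Or.inl ⟨h1, h3⟩
  have hoff : ∀ B' ⊆ B, Λ ∪ (C₁ ∪ GG G (B \ B')) = off Y z (Finset.range n) (WB k B') := by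
    intro B' hB'
    rw [hset B' hB', hY]
    unfold off
    rw [← union_assoc, union_comm Λ P]
  have hoff0 : Λ ∪ C₁ = off Y z (Finset.range n) (WB k B) := by
    have h1 := hoff B (Finset.Subset.refl _)
    have h2 : GG G (B \ B) = ∅ := by
      unfold GG
      simp
    rw [h2, union_empty] at h1
    exact h1
  have hnot : ∀ a, ∀ b ∈ B, τ a b ∉ P ∪ z '' (Finset.range n : Set ℕ) := by
    intro a b hb hcon
    refine hline a _ (hτE a b hb) ?_
    refine M.mem_closure_of_mem' (Or.inl hcon) (hτM a b hb)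
  have hτC₁ : ∀ a, ∀ b ∈ B, τ a b ∈ M.E \ C₁ := by
    intro a b hb
    refine ⟨hτM a b hb, fun h => hnot a b hb ?_⟩
    rw [hC₁] at h
    rcases h with h | ⟨i, hi, h⟩
    · exact Or.inl h
    · exact Or.inr ⟨i, (Finset.mem_sdiff.1 (Finset.mem_coe.1 hi)).1, h⟩
  have hΛC₁ : Λ ⊆ M.E \ C₁ := by
    intro x hx
    refine ⟨hΛE hx, fun h => ?_⟩
    rw [hC₁] at h
    rcases h with h | ⟨i, hi, rfl⟩
    · exact Set.disjoint_left.1 hPΛ h hx
    · exact (hzY i (Finset.mem_range.1 (Finset.mem_sdiff.1 (Finset.mem_coe.1 hi)).1)).2 hx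
  have hGC₁ : ∀ b ∈ B, G b ⊆ M.E \ C₁ := by
    intro b hb x hx
    rw [hG] at hx
    obtain ⟨i, hi, rfl⟩ := hx
    have hin : i ∈ Finset.range n := hroB b hb hi
    refine ⟨hR.mem i hin, fun h => ?_⟩
    rw [hC₁] at h
    rcases h with h | ⟨i', hi', h⟩
    · exact (hzY i (Finset.mem_range.1 hin)).1 h
    · obtain ⟨h1, h2⟩ := Finset.mem_sdiff.1 (Finset.mem_coe.1 hi')
      have h3 := hR.inj h1 hin h
      subst h3
      exact h2 (mem_WB.2 ⟨b, hb, hi⟩)
  have hfin : (M ／ C₁).Finite := ⟨M.ground_finite.subset sdiff_subset⟩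
  have hrc : ∀ X ⊆ M.E \ C₁, rk (M ／ C₁) X + rk M C₁ = rk M (X ∪ C₁) := fun X hX =>
    BQ.rk_con hC₁E hX
  have hTbC₁ : ∀ b ∈ B, (fun a => τ a b) '' ((Finset.univ : Finset (Fin c)) : Set (Fin c)) ⊆
      M.E \ C₁ := by
    rintro b hb _ ⟨a, _, rfl⟩
    exact hτC₁ a b hb
  have hptsC₁ : ∀ W ⊆ B, pts τ (Finset.univ ×ˢ W) ⊆ M.E \ C₁ := by
    rintro W hW _ ⟨⟨a, b⟩, hab, rfl⟩
    rw [Finset.mem_coe, Finset.mem_product] at hab
    exact hτC₁ a b (hW hab.2)
  have hGGC₁ : ∀ W ⊆ B, GG G W ⊆ M.E \ C₁ := by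
    intro W hW x hx
    obtain ⟨b, hb, h1⟩ := mem_GG.1 hx
    exact hGC₁ b (hW hb) h1
  have hwin : Win (M ／ C₁) Λ G τ Finset.univ B (3 * k) (k - 1) R := by
    refine ⟨hΛC₁, hGC₁, ?_, fun a _ b hb => hτC₁ a b hb, ?_, ?_, ?_, ?_, ?_⟩
    · intro b hb
      rw [Set.disjoint_left]
      intro x hx hx'
      rw [hG] at hx'
      obtain ⟨i, hi, rfl⟩ := hx'
      exact (hzY i (Finset.mem_range.1 (hroB b hb hi))).2 hx
    · have h1 := hrc Λ hΛC₁
      have h2 : rk M P + rk M (Λ ∪ C₁) ≤ rk M Y + rk M C₁ := by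
        refine rk_sub' (subset_inter ?_ ?_) ?_
        · rw [hY]; exact subset_union_left
        · rw [hC₁]; exact subset_union_left
        · rintro x (hx | hx)
          · refine Or.inl ?_
            rw [hY]; exact Or.inr hx
          · exact Or.inr hx
      omega
    · intro b hb
      have h1 := hrc (GG G B ∪ (fun a => τ a b) '' ((Finset.univ : Finset (Fin c)) : Set (Fin c)))
        (union_subset (hGGC₁ B (Finset.Subset.refl _)) (hTbC₁ b hb))
      have h2 := hrc (GG G B) (hGGC₁ B (Finset.Subset.refl _))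
      have h3 : GG G B ∪ C₁ = P ∪ z '' (Finset.range n : Set ℕ) := by
        have h4 := hset ∅ (Finset.empty_subset _)
        have h5 : WB k ∅ = ∅ := by simp [WB]
        rw [Finset.sdiff_empty, h5, Finset.sdiff_empty] at h4
        rw [union_comm, h4]
      have h4 : GG G B ∪ (fun a => τ a b) '' ((Finset.univ : Finset (Fin c)) : Set (Fin c)) ∪ C₁ =
          P ∪ z '' (Finset.range n : Set ℕ) ∪
            (fun a => τ a b) '' ((Finset.univ : Finset (Fin c)) : Set (Fin c)) := by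
        rw [← h3, union_assoc, union_assoc, union_comm C₁]
      have h5 := rk_of_out (M := M) (X := P ∪ z '' (Finset.range n : Set ℕ))
        (x := fun a => τ a b) Finset.univ (fun a _ => hτM a b hb) (by
          intro a _ hcon
          refine hline a _ (hτE a b hb) (M.closure_subset_closure ?_ hcon)
          refine union_subset_union_right _ ?_
          rintro _ ⟨a', ha', rfl⟩
          exact mem_iUnion₂.2 ⟨a', ha'.2, hτE a' b hb⟩)
      rw [h4, h5] at h1
      rw [h3] at h2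
      omega
    · intro b hb
      have h1 := hrc Λ hΛC₁
      have h2 := hrc (Λ ∪ (fun a => τ a b) '' ((Finset.univ : Finset (Fin c)) : Set (Fin c)))
        (union_subset hΛC₁ (hTbC₁ b hb))
      have h3 := hv2 b hb
      have h4 := vis_add (Y := Y) (z := z) (I := Finset.range n) M
        (pw T₀ (Finset.univ ×ˢ (({b} : Finset ℕ) ×ˢ Finset.univ))) (WB k B)
      have h5 : Λ ∪ (fun a => τ a b) '' ((Finset.univ : Finset (Fin c)) : Set (Fin c)) ∪ C₁ ⊆
          off Y z (Finset.range n) (WB k B) ∪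
            pw T₀ (Finset.univ ×ˢ (({b} : Finset ℕ) ×ˢ Finset.univ)) := by
        rw [← hoff0]
        rintro x ((hx | ⟨a, _, rfl⟩) | hx)
        · exact Or.inl (Or.inl hx)
        · refine Or.inr (hτpw {b} (Finset.singleton_subset_iff.2 hb) ⟨(a, b), ?_, rfl⟩)
          rw [Finset.mem_coe, Finset.mem_product]
          exact ⟨Finset.mem_univ _, Finset.mem_singleton_self _⟩
        · exact Or.inl (Or.inr hx)
      have h6 := rk_mono M h5
      rw [← hoff0] at h4 h6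
      omega
    · intro a _ b hb hcl'
      rw [Matroid.contract_closure_eq] at hcl'
      refine hq a b hb ?_
      have h1 : τ a b = T₀ a (ro k b) (q a b) := by rw [hτ]
      rw [← h1]
      refine M.closure_subset_closure ?_ hcl'.1
      rintro x (((hx | hx) | hx) | hx)
      · refine Or.inl (Or.inl ?_)
        rw [hY]; exact Or.inr hx
      · exact Or.inr (hτpw _ (Finset.erase_subset _ _) hx)
      · rw [hGG] at hx
        obtain ⟨i, hi, rfl⟩ := hx
        obtain ⟨b', hb', h2⟩ := mem_WB.1 (Finset.mem_coe.1 hi)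
        refine Or.inl (Or.inr ⟨i, ?_, rfl⟩)
        rw [Finset.mem_coe, Finset.mem_sdiff]
        exact ⟨hroB b' (Finset.mem_of_mem_erase hb') h2, fun h3 =>
          Finset.ne_of_mem_erase hb' (ro_disj h2 h3)⟩
      · rw [hC₁] at hx
        rcases hx with hx | ⟨i, hi, rfl⟩
        · refine Or.inl (Or.inl ?_)
          rw [hY]; exact Or.inl hx
        · obtain ⟨h2, h3⟩ := Finset.mem_sdiff.1 (Finset.mem_coe.1 hi)
          refine Or.inl (Or.inr ⟨i, ?_, rfl⟩)
          rw [Finset.mem_coe, Finset.mem_sdiff]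
          exact ⟨h2, fun h4 => h3 (mem_WB.2 ⟨b, hb, h4⟩)⟩
    · intro B₀ hB₀ B₁ hB₁ hlt
      have h1 := hrc (Λ ∪ GG G (B \ B₁)) (union_subset hΛC₁ (hGGC₁ _ Finset.sdiff_subset))
      have h2 := hrc (Λ ∪ pts τ (Finset.univ ×ˢ B₀) ∪ GG G (B \ B₁))
        (union_subset (union_subset hΛC₁ (hptsC₁ B₀ hB₀)) (hGGC₁ _ Finset.sdiff_subset))
      have h3 := hv3 B₀ hB₀ B₁ hB₁ hlt
      have h4 := vis_add (Y := Y) (z := z) (I := Finset.range n) M
        (pw T₀ (Finset.univ ×ˢ (B₀ ×ˢ Finset.univ))) (WB k B₁)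
      rw [← hoff B₁ hB₁] at h4
      have h5 : Λ ∪ GG G (B \ B₁) ∪ C₁ = Λ ∪ (C₁ ∪ GG G (B \ B₁)) := by
        rw [union_assoc, union_comm C₁]
      have h6 : Λ ∪ pts τ (Finset.univ ×ˢ B₀) ∪ GG G (B \ B₁) ∪ C₁ ⊆
          Λ ∪ (C₁ ∪ GG G (B \ B₁)) ∪ pw T₀ (Finset.univ ×ˢ (B₀ ×ˢ Finset.univ)) := by
        rintro x (((hx | hx) | hx) | hx)
        · exact Or.inl (Or.inl hx)
        · exact Or.inr (hτpw B₀ hB₀ hx)
        · exact Or.inl (Or.inr (Or.inr hx))
        · exact Or.inl (Or.inr (Or.inl hx))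
      have h7 := rk_mono M h6
      rw [h5] at h1
      omega
  rcases hN (M ／ C₁) Λ G τ Finset.univ B hwin (by rw [Finset.card_univ, Fintype.card_fin])
    (by rw [hB, Finset.card_range]) with h1 | ⟨B₁, hB₁, X, S, j, ed, hX, hS, hJ, hr, ho3, ho4⟩
  · exfalso
    apply hU
    obtain ⟨N', g1, g2⟩ := h1
    exact ⟨N', g1.trans (by simpa using M.contract_delete_isMinor C₁ ∅), g2⟩
  · have hptsE : ∀ W ⊆ B, pts τ (Finset.univ ×ˢ W) ⊆ ⋃ a, E a := by
      rintro W hW _ ⟨⟨a, b⟩, hab, rfl⟩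
      rw [Finset.mem_coe, Finset.mem_product] at hab
      exact mem_iUnion.2 ⟨a, hτE a b (hW hab.2)⟩
    obtain ⟨G', hG'⟩ : ∃ G', G' = GG G (B \ B₁) := ⟨_, rfl⟩
    rw [← hG'] at hJ hr ho3 ho4
    have hXC : X ⊆ M.E \ C₁ := hX.trans (hptsC₁ B₁ hB₁)
    have hSC : S ⊆ M.E \ C₁ := hS.trans (hptsC₁ B₁ hB₁)
    have hGC : G' ⊆ M.E \ C₁ := by
      rw [hG']
      exact hGGC₁ (B \ B₁) Finset.sdiff_subset
    have hall : GG G B ∪ C₁ = P ∪ z '' (Finset.range n : Set ℕ) := by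
      have h4 := hset ∅ (Finset.empty_subset _)
      have h5 : WB k ∅ = ∅ := by simp [WB]
      rw [Finset.sdiff_empty, h5, Finset.sdiff_empty] at h4
      rw [union_comm, h4]
    have hall1 : GG G B ⊆ P ∪ z '' (Finset.range n : Set ℕ) := by
      rw [← hall]
      exact subset_union_left
    have hall2 : C₁ ⊆ P ∪ z '' (Finset.range n : Set ℕ) := by
      rw [← hall]
      exact subset_union_right
    refine ⟨C₁ ∪ G', X, S, j, ed, ?_, ?_, hX.trans (hptsE B₁ hB₁), hS.trans (hptsE B₁ hB₁), ?_, ?_,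
      ?_, ?_⟩
    · rw [hC₁]
      exact subset_union_left.trans subset_union_left
    · rw [← hall]
      refine union_subset subset_union_right ?_
      rw [hG']
      exact (GG_mono Finset.sdiff_subset).trans subset_union_left
    · rw [union_assoc, ← Matroid.contract_contract]
      exact hJ
    · have h1 := hrc (S ∪ (Λ ∪ (G' ∪ X)))
        (union_subset hSC (union_subset hΛC₁ (union_subset hGC hXC)))
      have h2 := hrc (Λ ∪ (G' ∪ X))
        (union_subset hΛC₁ (union_subset hGC hXC))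
      have h3 : S ∪ (Λ ∪ (G' ∪ X)) ∪ C₁ = S ∪ (Λ ∪ (C₁ ∪ G' ∪ X)) := by
        ext x
        simp only [mem_union]
        tauto
      have h4 : Λ ∪ (G' ∪ X) ∪ C₁ = Λ ∪ (C₁ ∪ G' ∪ X) := by
        ext x
        simp only [mem_union]
        tauto
      rw [h3] at h1
      rw [h4] at h2
      omega
    · have h1 := hrc (Λ ∪ G') (union_subset hΛC₁ hGC)
      have h2 := hrc (G' ∪ X) (union_subset hGC hXC)
      have h3 := hrc (Λ ∪ (G' ∪ X)) (union_subset hΛC₁ (union_subset hGC hXC))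
      have h4 := hrc G' hGC
      have e1 : Λ ∪ G' ∪ C₁ = Λ ∪ (C₁ ∪ G') := by
        rw [union_assoc, union_comm G' C₁]
      have e2 : G' ∪ X ∪ C₁ = C₁ ∪ G' ∪ X := by
        ext x
        simp only [mem_union]
        tauto
      have e3 : Λ ∪ (G' ∪ X) ∪ C₁ = Λ ∪ (C₁ ∪ G' ∪ X) := by
        ext x
        simp only [mem_union]
        tauto
      have e4 : G' ∪ C₁ = C₁ ∪ G' := union_comm _ _
      rw [e1] at h1
      rw [e2] at h2
      rw [e3] at h3
      rw [e4] at h4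
      omega
    · intro Ω hΩ hΩa
      have hΩC : Ω ⊆ M.E \ C₁ := hΩ.trans hΛC₁
      have h0 := ho4 Ω hΩ (by
        intro a _ b hb hcl
        rw [Matroid.contract_closure_eq] at hcl
        refine hΩa a _ (hτE a b hb) (M.closure_subset_closure ?_ hcl.1)
        rintro x (((hx | ⟨⟨a', b'⟩, hab, rfl⟩) | hx) | hx)
        · exact Or.inl (Or.inl hx)
        · rw [Finset.mem_coe, Finset.mem_product, Finset.mem_erase] at hab
          exact Or.inr (mem_iUnion₂.2 ⟨a', hab.1.1, hτE a' b' hab.2⟩)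
        · exact Or.inl (Or.inr (hall1 hx))
        · exact Or.inl (Or.inr (hall2 hx)))
      have h1 := hrc (Ω ∪ (G' ∪ X)) (union_subset hΩC (union_subset hGC hXC))
      have h2 := hrc (S ∪ (Ω ∪ (G' ∪ X)))
        (union_subset hSC (union_subset hΩC (union_subset hGC hXC)))
      have e1 : Ω ∪ (G' ∪ X) ∪ C₁ = Ω ∪ (C₁ ∪ G' ∪ X) := by
        ext x
        simp only [mem_union]
        tauto
      have e2 : S ∪ (Ω ∪ (G' ∪ X)) ∪ C₁ = S ∪ (Ω ∪ (C₁ ∪ G' ∪ X)) := by
        ext x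
        simp only [mem_union]
        tauto
      rw [e1] at h1
      rw [e2] at h2
      omega


/-- **One strand.**  More than `3 k (t² + QQ k)` labels all of whose elements see every `k`-subset
of the rows with rank `k`: a uniform minor or an array which is in the span of `Λ` and of the
contracted set, up to rank `k - 1`. -/
theorem hubZ' (k : ℕ) (hk : 2 ≤ k) (t c R : ℕ) (hc : (3 * k) * (t * t + QQ k) < c) :
    ∃ n : ℕ, ∀ {α : Type u} (M : Matroid α) [M.Finite] (P Λ : Set α) (z : ℕ → α)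
      (I : Finset ℕ) (E : Fin c → Set α), ¬ HasUniformMinor M k →
      Row M (P ∪ Λ) z I → n ≤ I.card → Disjoint P Λ → rk M (P ∪ Λ) ≤ rk M P + R →
      (∀ a, E a ⊆ M.closure (P ∪ Λ ∪ z '' (I : Set ℕ))) →
      (∀ a, ∀ J ⊆ I, J.card = k → k ≤ vis M (P ∪ Λ) z I (E a) J) →
      (∀ a, ∀ x ∈ E a, x ∉ M.closure (P ∪ z '' (I : Set ℕ) ∪ ⋃ a' ∈ {a' | a' ≠ a}, E a')) →
      ∃ (C₀ X S : Set α) (j : ℕ × ℕ → α) (ed : ℕ × ℕ → ℕ × ℕ → α), P ⊆ C₀ ∧
        C₀ ⊆ P ∪ z '' (I : Set ℕ) ∧ X ⊆ (⋃ a, E a) ∧ S ⊆ (⋃ a, E a) ∧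
        Gad.JGrid (M ／ (C₀ ∪ X)) S t j ed ∧
        rk M (S ∪ (Λ ∪ (C₀ ∪ X))) ≤ rk M (Λ ∪ (C₀ ∪ X)) + (k - 1) ∧
        rk M (Λ ∪ C₀) + rk M (C₀ ∪ X) ≤ rk M (Λ ∪ (C₀ ∪ X)) + rk M C₀ + QQ k ∧
        ∀ Ω ⊆ Λ, (∀ a, ∀ x ∈ E a, x ∉ M.closure (Ω ∪ (P ∪ z '' (I : Set ℕ)) ∪
            ⋃ a' ∈ {a' | a' ≠ a}, E a')) →
          rk M (Ω ∪ (C₀ ∪ X)) + t * t ≤ rk M (S ∪ (Ω ∪ (C₀ ∪ X))) + QQ k := by
  classical
  obtain ⟨n, hn⟩ := hubZ₀'.{u} k hk t c R hc
  obtain ⟨N, hN⟩ := hom_exists.{u} c k n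
  refine ⟨N, ?_⟩
  intro α M _ P Λ z I E hU hR hI hPΛ hΛR hE hvis hline
  have hEM : ∀ a, E a ⊆ M.E := fun a => (hE a).trans (M.closure_subset_ground _)
  -- the chosen elements
  have hch : ∀ (a : Fin c) (J : Finset ℕ), ∃ f : Fin k → α, J ⊆ I → J.card = k →
      (∀ q, f q ∈ E a) ∧ k ≤ vis M (P ∪ Λ) z I (Set.range f) J := by
    intro a J
    by_cases hJ : J ⊆ I ∧ J.card = k
    · obtain ⟨hJI, hJc⟩ := hJ
      have hEf : (E a).Finite := M.ground_finite.subset (hEM a)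
      obtain ⟨J', hJ', hJ'c, D, hD, hDc, hv⟩ := hR.exchange (id : α → α) hEf.toFinset
        (fun b hb => hE a (hEf.mem_toFinset.1 hb)) hJI (q := k) (by
          rw [image_id, Set.Finite.coe_toFinset]
          exact hvis a J hJI hJc)
      have hJJ : J' = J := Finset.eq_of_subset_of_card_le hJ' (by omega)
      subst hJJ
      have eq := (D.equivFin).symm
      rw [hDc] at eq
      refine ⟨fun q => (eq q : α), fun _ _ => ⟨?_, ?_⟩⟩
      · intro q
        exact hEf.mem_toFinset.1 (hD (eq q).2)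
      · refine hv.trans (vis_mono_left ?_ _)
        rintro _ ⟨x, hx, rfl⟩
        exact ⟨eq.symm ⟨x, hx⟩, by simp⟩
    · exact ⟨fun _ => z 0, fun h1 h2 => absurd ⟨h1, h2⟩ hJ⟩
  choose T₀ hT₀ using hch
  obtain ⟨T, hTI, hTc, hH⟩ := hN M (P ∪ Λ) z I T₀ hI
  obtain ⟨e, he, heT⟩ := exists_enum hTc
  obtain ⟨P', hP'⟩ : ∃ P', P' = P ∪ z '' ((I \ T : Finset ℕ) : Set ℕ) := ⟨_, rfl⟩
  have hoff : P' ∪ Λ = off (P ∪ Λ) z I T := by
    rw [hP']
    unfold off
    rw [union_assoc, union_assoc, union_comm Λ]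
  have hfull : P' ∪ (z ∘ e) '' (Finset.range n : Set ℕ) = P ∪ z '' (I : Set ℕ) := by
    rw [hP']
    exact full_reindex heT hTI P
  have hfull2 : P' ∪ Λ ∪ (z ∘ e) '' (Finset.range n : Set ℕ) = P ∪ Λ ∪ z '' (I : Set ℕ) := by
    rw [union_assoc, union_comm Λ, ← union_assoc, hfull, union_assoc, union_comm _ Λ, union_assoc]
  have hR' : Row M (P' ∪ Λ) (z ∘ e) (Finset.range n) := by
    have h1 := hR.restrict hTI
    rw [← hoff] at h1
    refine ⟨h1.subY, ?_, ?_⟩
    · intro i hi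
      refine h1.mem (e i) ?_
      rw [← heT]
      exact Finset.mem_image.2 ⟨i, hi, rfl⟩
    · have h2 : (z ∘ e) '' (Finset.range n : Set ℕ) = z '' (T : Set ℕ) := by
        rw [image_comp, ← heT, Finset.coe_image]
      rw [h2, h1.ind, hTc, Finset.card_range]
  obtain ⟨C₀, X, S, j, ed, h1, h2, h3, h4, h5, h6, h7, h8⟩ := hn M P' Λ (z ∘ e) (fun a J => T₀ a (J.image e)) E hU
    hR' (by
      rw [hP', Set.disjoint_left]
      rintro x (hx | ⟨i, hi, rfl⟩) hx'
      · exact Set.disjoint_left.1 hPΛ hx hx'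
      · exact hR.notin (Finset.mem_sdiff.1 (Finset.mem_coe.1 hi)).1 (Or.inr hx')) (by
      have g1 : rk M P + rk M (P' ∪ Λ) ≤ rk M (P ∪ Λ) + rk M P' := by
        refine rk_sub' (subset_inter subset_union_left ?_) ?_
        · rw [hP']; exact subset_union_left
        · rintro x (hx | hx)
          · exact Or.inr hx
          · exact Or.inl (Or.inr hx)
      omega) (by
      rw [hoff]
      exact hom_reindex he heT hTI hH) (by
      intro a
      rw [hfull2]
      exact hE a) (by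
      intro a J hJ hJc q
      refine (hT₀ a (J.image e) ?_ ?_).1 q
      · intro x hx
        obtain ⟨y, hy, rfl⟩ := Finset.mem_image.1 hx
        refine hTI ?_
        rw [← heT]
        exact Finset.mem_image.2 ⟨y, hJ hy, rfl⟩
      · rw [card_reindex he hJ, hJc]) (by
      intro a J hJ hJc
      rw [hoff, vis_reindex he heT hTI hJ]
      refine (hT₀ a (J.image e) ?_ ?_).2
      · intro x hx
        obtain ⟨y, hy, rfl⟩ := Finset.mem_image.1 hx
        refine hTI ?_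
        rw [← heT]
        exact Finset.mem_image.2 ⟨y, hJ hy, rfl⟩
      · rw [card_reindex he hJ, hJc]) (by
      intro a x hx
      rw [hfull]
      exact hline a x hx)
  refine ⟨C₀, X, S, j, ed, ?_, ?_, h3, h4, h5, h6, h7, ?_⟩
  · refine Subset.trans ?_ h1
    rw [hP']
    exact subset_union_left
  · rw [hfull] at h2
    exact h2
  · intro Ω hΩ hΩa
    refine h8 Ω hΩ ?_
    rw [hfull]
    exact hΩa

end Gam
end DA
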