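import Pool.Agent.DA.FamK

/-!
# Symmetries of families next to missing vertices
-/

open Set BIC BICS
open scoped Matroid

namespace DA

open Gad

section gen

variable {α : Type*} {P : Matroid α} {S : Set α} {ends : α → Sym2 (ℕ × ℕ)}

/-- renamed vertices -/
def symE (Φ : ℕ × ℕ → ℕ × ℕ) (ends : α → Sym2 (ℕ × ℕ)) : α → Sym2 (ℕ × ℕ) :=
  fun e => Sym2.map Φ (ends e)

lemma ins_symE {Φ : ℕ × ℕ → ℕ × ℕ} {W : Set (ℕ × ℕ)} :
    ins S (symE Φ ends) W = ins S ends (Φ ⁻¹' W) := by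
  ext e
  simp only [ins, symE, mem_ofPred_eq, mem_preimage, Sym2.mem_map]
  constructor
  · rintro ⟨h1, h2⟩
    exact ⟨h1, fun v hv => h2 _ ⟨v, hv, rfl⟩⟩
  · rintro ⟨h1, h2⟩
    refine ⟨h1, ?_⟩
    rintro _ ⟨v, hv, rfl⟩
    exact h2 v hv

variable {Φ : ℕ × ℕ → ℕ × ℕ} (hΦ : Function.Involutive Φ)

include hΦ

lemma bic_symE (hB : Bic P S ends) : Bic P S (symE Φ ends) :=
  hB.mapV (U := univ) (fun _ _ _ _ => mem_univ _) hΦ.injective.injOn

lemma grdU_symE {U : Set (ℕ × ℕ)} (hG : CWL.GrdU S ends U)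
    (h1 : ∀ p ∈ U, ∀ q ∈ U, adj p q → adj (Φ p) (Φ q))
    (h2 : ∀ p q, Φ p ∈ U → Φ q ∈ U → adj p q → adj (Φ p) (Φ q)) :
    CWL.GrdU S (symE Φ ends) (Φ ⁻¹' U) where
  inj := by
    intro e he e' he' h
    refine hG.inj he he' ?_
    exact Sym2.map.injective hΦ.injective h
  mem := by
    intro e he
    obtain ⟨p, q, g1, g2, g3, g4⟩ := hG.mem e he
    refine ⟨Φ p, Φ q, ?_, h1 p g3 q g4 g2, ?_, ?_⟩
    · simp only [symE, g1, Sym2.map_mk]
    · rw [mem_preimage, hΦ]; exact g3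
    · rw [mem_preimage, hΦ]; exact g4
  surj := by
    intro p q h hp hq
    obtain ⟨e, he, g1⟩ := hG.surj (Φ p) (Φ q) (h2 p q hp hq h) hp hq
    refine ⟨e, he, ?_⟩
    simp only [symE, g1, Sym2.map_mk]
    rw [hΦ, hΦ]

lemma loc_symE {z : α} : CWL.Loc P S (symE Φ ends) z = Φ ⁻¹' CWL.Loc P S ends z := by
  ext v
  simp only [CWL.Loc, mem_ofPred_eq, mem_preimage, ins_symE]
  have h : Φ ⁻¹' ({v}ᶜ : Set (ℕ × ℕ)) = {Φ v}ᶜ := by
    ext w
    simp only [mem_preimage, mem_compl_iff, mem_singleton_iff]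
    rw [not_iff_not]
    constructor
    · rintro rfl; exact (hΦ w).symm
    · rintro rfl; exact hΦ v
  rw [h]

lemma full_symE {U : Set (ℕ × ℕ)} {F : Set α} (h : FullB S ends U F) :
    FullB S (symE Φ ends) (Φ ⁻¹' U) F := by
  obtain ⟨h1, φ, h2, h3⟩ := h
  refine ⟨?_, fun e => Φ (φ e), ⟨?_, ?_, ?_⟩, ?_⟩
  · rw [ins_symE, ← preimage_comp, hΦ.comp_self, preimage_id]
    exact h1
  · intro e he
    rw [mem_preimage, hΦ]
    exact h2.mapsTo he
  · intro e he e' he' heq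
    exact h2.injOn he he' (hΦ.injective heq)
  · intro v hv
    obtain ⟨e, he, h4⟩ := h2.surjOn hv
    exact ⟨e, he, by simp only [h4, hΦ v]⟩
  · intro e he
    simp only [symE, Sym2.mem_map]
    exact ⟨_, h3 e he, rfl⟩

lemma vconn_symE {U : Set (ℕ × ℕ)} (h : VConn S ends U) :
    VConn S (symE Φ ends) (Φ ⁻¹' U) := by
  intro u hu v hv
  have h1 := h (Φ u) hu (Φ v) hv
  have h2 : ∀ a b : ℕ × ℕ, Relation.ReflTransGen (fun x y => GAdj S ends x y ∧ x ∈ U ∧ y ∈ U) a b →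
      Relation.ReflTransGen (fun x y => GAdj S (symE Φ ends) x y ∧ x ∈ Φ ⁻¹' U ∧
        y ∈ Φ ⁻¹' U) (Φ a) (Φ b) := by
    intro a b hab
    induction hab with
    | refl => exact Relation.ReflTransGen.refl
    | tail _ h3 ih =>
      obtain ⟨⟨e, he, hee⟩, h4, h5⟩ := h3
      refine ih.tail ⟨⟨e, he, ?_⟩, ?_, ?_⟩
      · simp only [symE, hee, Sym2.map_mk]
      · rw [mem_preimage, hΦ]; exact h4
      · rw [mem_preimage, hΦ]; exact h5
  have h3 := h2 _ _ h1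
  rwa [hΦ, hΦ] at h3

/-- A symmetry applied to a family with one square for every element. -/
lemma FamK.sym {ι : Type*} {A Gr K : Set (ℕ × ℕ)} {X X' : ℕ × ℕ} {n L δ : ℕ}
    {E : Finset (ℕ × ℕ)} {z : ι → α} {q : ι → ℕ × ℕ} (γ : ℕ × ℕ → ℕ × ℕ)
    (h : FamK P S ends A Gr X n L δ E z (fun t => {q t}) K)
    (h1 : ∀ p ∈ A, ∀ q ∈ A, adj p q → adj (Φ p) (Φ q))
    (h2 : ∀ p q, Φ p ∈ A → Φ q ∈ A → adj p q → adj (Φ p) (Φ q))
    (hγ : ∀ c, (c ∈ E ∨ ∃ t, c = q t) → Φ ⁻¹' (rect c.1 c.2 L L) = rect (γ c).1 (γ c).2 L L)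
    (hγi : ∀ c, (c ∈ E ∨ ∃ t, c = q t) → ∀ c', (c' ∈ E ∨ ∃ t, c' = q t) → γ c = γ c' → c = c')
    (hrect : Φ ⁻¹' (rect X.1 X.2 n n) = rect X'.1 X'.2 n n)
    (hfar : ∀ c, (c ∈ E ∨ ∃ t, c = q t) → ∀ c', (c' ∈ E ∨ ∃ t, c' = q t) → CWL.Far δ c L c' L →
      CWL.Far δ (γ c) L (γ c') L)
    (hbd : ∀ c, (c ∈ E ∨ ∃ t, c = q t) → X'.1 + δ ≤ (γ c).1 ∧ X'.2 + δ ≤ (γ c).2 ∧
      (γ c).1 + L + δ ≤ X'.1 + n ∧ (γ c).2 + L + δ ≤ X'.2 + n)
    (hK : ∀ v, Φ v ∈ K → ∀ w, Φ w ∈ K → Apart 3 (Φ v) (Φ w) → Apart 3 v w) :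
    FamK P S (symE Φ ends) (Φ ⁻¹' A) (Φ ⁻¹' Gr) X' n L δ (E.image γ) z (fun t => {γ (q t)})
      (Φ ⁻¹' K) := by
  classical
  have hhls : Φ ⁻¹' (hls E L) = hls (E.image γ) L := by
    ext v
    constructor
    · intro hv
      rw [mem_preimage] at hv
      obtain ⟨c, hc, h3⟩ := mem_hls.1 hv
      have h4 : v ∈ Φ ⁻¹' (rect c.1 c.2 L L) := by
        rw [mem_preimage, Gad.mem_rct]
        exact h3
      rw [hγ c (Or.inl hc), Gad.mem_rct] at h4
      exact mem_hls.2 ⟨γ c, Finset.mem_image_of_mem _ hc, h4⟩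
    · intro hv
      obtain ⟨c', hc', h3⟩ := mem_hls.1 hv
      obtain ⟨c, hc, rfl⟩ := Finset.mem_image.1 hc'
      have h4 : v ∈ Φ ⁻¹' (rect c.1 c.2 L L) := by
        rw [hγ c (Or.inl hc), Gad.mem_rct]
        exact h3
      rw [mem_preimage, Gad.mem_rct] at h4
      exact mem_hls.2 ⟨c, hc, h4⟩
  have hm : ∀ c, (c ∈ E.image γ ∨ ∃ t, c ∈ ({γ (q t)} : Finset (ℕ × ℕ))) →
      ∃ c', (c' ∈ E ∨ ∃ t, c' = q t) ∧ γ c' = c := by
    rintro c (hc | ⟨t, hc⟩)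
    · obtain ⟨c', hc', rfl⟩ := Finset.mem_image.1 hc
      exact ⟨c', Or.inl hc', rfl⟩
    · rw [Finset.mem_singleton] at hc
      exact ⟨q t, Or.inr ⟨t, rfl⟩, hc.symm⟩
  refine ⟨bic_symE hΦ h.bic, h.Af.preimage hΦ.injective.injOn, grdU_symE hΦ h.grd h1 h2,
    vconn_symE hΦ h.con, preimage_mono h.GrA, ?_, ?_, h.zc, fun t => Finset.singleton_nonempty _,
    ?_, ?_, ?_, ?_, ?_, ?_, ?_, ?_⟩
  · obtain ⟨FG, hFG⟩ := h.full
    exact ⟨FG, full_symE hΦ hFG⟩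
  · rw [← preimage_sdiff, h.reg, preimage_sdiff, preimage_sdiff, hrect, hhls]
  · intro t t' hne
    rw [Finset.disjoint_singleton]
    intro heq
    have h3 := h.dis t t' hne
    rw [Finset.disjoint_singleton] at h3
    exact h3 (hγi _ (Or.inr ⟨t, rfl⟩) _ (Or.inr ⟨t', rfl⟩) heq)
  · intro t
    rw [Finset.disjoint_singleton_left]
    intro hcon
    obtain ⟨c, hc, h3⟩ := Finset.mem_image.1 hcon
    have h4 := h.disE t
    rw [Finset.disjoint_singleton_left] at h4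
    exact h4 (hγi _ (Or.inl hc) _ (Or.inr ⟨t, rfl⟩) h3 ▸ hc)
  · intro c c' hc hc' hne
    obtain ⟨b, hb, rfl⟩ := hm c hc
    obtain ⟨b', hb', rfl⟩ := hm c' hc'
    have hb2 : ∀ b, (b ∈ E ∨ ∃ t, b = q t) → (b ∈ E ∨ ∃ t, b ∈ ({q t} : Finset (ℕ × ℕ))) := by
      rintro b (hb | ⟨t, hb⟩)
      · exact Or.inl hb
      · exact Or.inr ⟨t, Finset.mem_singleton.2 hb⟩
    exact hfar b hb b' hb' (h.far b b' (hb2 b hb) (hb2 b' hb') (fun h => hne (by rw [h])))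
  · intro c hc
    obtain ⟨b, hb, rfl⟩ := hm c hc
    exact hbd b hb
  · intro t v hv
    rw [loc_symE hΦ, mem_preimage] at hv
    rcases h.loc t hv with h3 | h3
    · left
      obtain ⟨c, hc, h4⟩ := mem_hls.1 h3
      rw [Finset.mem_singleton] at hc
      subst hc
      have h5 : v ∈ Φ ⁻¹' (rect (q t).1 (q t).2 L L) := by
        rw [mem_preimage, Gad.mem_rct]
        exact h4
      rw [hγ _ (Or.inr ⟨t, rfl⟩), Gad.mem_rct] at h5
      exact mem_hls.2 ⟨_, Finset.mem_singleton_self _, h5⟩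
    · right
      exact h3
  · intro v hv
    exact h.kA _ hv
  · intro v hv w hw hne
    exact hK v hv w hw (h.ksp _ hv _ hw (fun h => hne (hΦ.injective h)))
  · intro v hv
    obtain ⟨t, c, hc, h3⟩ := h.kin _ hv
    rw [Finset.mem_singleton] at hc
    subst hc
    refine ⟨t, _, Finset.mem_singleton_self _, ?_⟩
    rw [← hγ _ (Or.inr ⟨t, rfl⟩)]
    exact h3

end gen

/-! ### The flip and the transposition -/

/-- the flip of `[0, T]` -/
def fl (T y : ℕ) : ℕ := if y ≤ T then T - y else y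

/-- the vertical flip -/
def vf (T : ℕ) (v : ℕ × ℕ) : ℕ × ℕ := (v.1, fl T v.2)

lemma fl_fl (T y : ℕ) : fl T (fl T y) = y := by
  unfold fl
  split_ifs <;> omega

lemma vf_inv (T : ℕ) : Function.Involutive (vf T) := by
  intro v
  unfold vf
  simp only [fl_fl]

/-- the permutation of the directions: flip -/
def dfl (d : ℕ) : ℕ := if d = 2 then 3 else if d = 3 then 2 else d

/-- the permutation of the directions: transposition -/
def dtr (d : ℕ) : ℕ := if d = 0 then 3 else if d = 1 then 2 else if d = 2 then 1 else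
  if d = 3 then 0 else d

/-- Three legs in a square, missing direction `m`. -/
structure LegsQ (q : ℕ × ℕ) (L m : ℕ) (Λ K : Set (ℕ × ℕ)) (st : ℕ → ℕ × ℕ) : Prop where
  inn : ∀ d < 4, d ≠ m → Inn q L (st d).1 (st d).2
  dis : ∀ d < 4, ∀ d' < 4, d ≠ m → d' ≠ m → d ≠ d' → ∀ v, ray d (st d) v → ¬ ray d' (st d') v
  start : ∀ d < 4, d ≠ m → real K d (st d) ∈ Λ
  clean : ∀ d < 4, d ≠ m → ∀ v ∈ Λ, ray d (st d) v → v = real K d (st d)
  kray : ∀ d < 4, d ≠ m → ∀ v ∈ K, v ∈ rect q.1 q.2 L L → ray d (st d) v → v = st d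
  kst : ∀ v ∈ K, v ∈ rect q.1 q.2 L L → ∃ d < 4, d ≠ m ∧ st d = v

lemma xp_ray {i : ℕ} (hi : i < 3) {s : ℕ × ℕ} {j : ℕ} (hj : i = 0 → j ≤ s.1) :
    ray i s (xp i s j) := by
  have h3 : i = 0 ∨ i = 1 ∨ i = 2 := by omega
  unfold ray xp
  rcases h3 with rfl | rfl | rfl
  · left
    simp
  · right; left
    simp
  · right; right; left
    simp

/-- The missing direction is down. -/
lemma LegsQ.ok {q : ℕ × ℕ} {L : ℕ} {Λ K : Set (ℕ × ℕ)} {st : ℕ → ℕ × ℕ} (hq : 1 ≤ q.1)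
    (h : LegsQ q L 3 Λ K st)
    (hKb : ∀ v ∈ K, v ∈ rect (q.1 - 1) (q.2 - 1) (L + 2) (L + 2) → v ∈ rect q.1 q.2 L L) :
    OkK q L 3 Λ K st := by
  classical
  have hreal : ∀ i < 3, real K i (st i) = xp i (st i) (off K (st i)) := by
    intro i hi
    have h3 : i = 0 ∨ i = 1 ∨ i = 2 := by omega
    unfold real off stp xp
    rcases h3 with rfl | rfl | rfl
    · by_cases hK : st 0 ∈ K <;> simp [hK]
    · by_cases hK : st 1 ∈ K <;> simp [hK]
    · by_cases hK : st 2 ∈ K <;> simp [hK]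
  have hoff : ∀ v, off K v ≤ 1 := by
    intro v
    unfold off
    split_ifs <;> omega
  have hinn := h.inn
  refine ⟨⟨le_rfl, fun i hi => h.inn i (by omega) (by omega), ?_, ?_, ?_⟩, ?_, ?_, ?_⟩
  · intro _ h1
    by_contra hcon
    refine h.dis 0 (by omega) 1 (by omega) (by omega) (by omega) (by omega) (st 0) ?_ ?_
    · unfold ray; omega
    · unfold ray; omega
  · intro _ h1
    by_contra hcon
    refine h.dis 0 (by omega) 2 (by omega) (by omega) (by omega) (by omega)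
      ((st 2).1, (st 0).2) ?_ ?_
    · exact Or.inl ⟨rfl, rfl, h1⟩
    · exact Or.inr (Or.inr (Or.inl ⟨rfl, rfl, by simp only; omega⟩))
  · intro _ h1
    by_contra hcon
    refine h.dis 1 (by omega) 2 (by omega) (by omega) (by omega) (by omega)
      ((st 2).1, (st 1).2) ?_ ?_
    · exact Or.inr (Or.inl ⟨rfl, rfl, h1⟩)
    · exact Or.inr (Or.inr (Or.inl ⟨rfl, rfl, by simp only; omega⟩))
  · intro i hi
    rw [← hreal i hi]
    refine ⟨h.start i (by omega) (by omega), fun j hj1 hj2 hcon => ?_⟩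
    have g := h.inn i (by omega) (by omega)
    have h1 : i = 0 → j ≤ (st i).1 := by
      intro h0
      obtain ⟨g1, g2, g3, g4⟩ := g
      unfold rp at hj2
      rw [if_pos h0] at hj2
      omega
    have h2 := h.clean i (by omega) (by omega) _ hcon (xp_ray hi h1)
    rw [hreal i hi] at h2
    have h3 := xp_inj hq g (show j ∈ Iic _ from hj2)
      (show off K (st i) ∈ Iic _ by
        have h5 := hoff (st i)
        rw [mem_Iic]
        omega) h2
    omega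
  · intro v hv hvr
    obtain ⟨d, hd, hdm, h1⟩ := h.kst v hv hvr
    exact ⟨d, by omega, h1⟩
  · intro i hi v hv hvx
    have g := h.inn i (by omega) (by omega)
    have h4 := xp_mem_Iic (i := i) hi hq g hvx
    obtain ⟨g1, g2, g3, g4⟩ := g
    refine h.kray i (by omega) (by omega) v hv ?_ ?_
    · refine hKb v hv ?_
      rw [Gad.mem_rct]
      omega
    · unfold ray
      omega

end DA
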