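import Pool.Agent.DA.LiftH

/-!
# Two own blobs from two own vertices (row R8, pure part)

In a brick wall with windows, exact for all representatives: if the own vertices of `z` are `p₁`,
`p₂` (for the representatives `c`), or a closed star, then for one of the two matchings `i = 0`,
`i = 1` there are two own blobs.
-/

open Set BIC BICS
open scoped Matroid

namespace DA

open Gad

universe u

/-- a vertex star is not spanned by the rest -/
lemma bic_star {α V : Type*} {N : Matroid α} [N.Finite] {S : Set α} {ends : α → Sym2 V}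
    (hB : Bic N S ends) {v : V} {g : α} (hg : g ∈ S) (hv : v ∈ ends g) :
    g ∉ N.closure {e | e ∈ S ∧ v ∉ ends e} := by
  classical
  obtain ⟨I, hI⟩ := N.exists_isBasis {e | e ∈ S ∧ v ∉ ends e} (fun e he => hB.sub he.1)
  rw [← hI.closure_eq_closure]
  have hIf : I.Finite := N.ground_finite.subset hI.indep.subset_ground
  obtain ⟨φ, h1, h2⟩ := Bic_choice hB hI.indep (fun e he => (hI.subset he).1) hIf
  have hgI : g ∉ I := fun h => (hI.subset h).2 hv
  have hne : ∀ e ∈ I, e ≠ g := fun e he h => hgI (h ▸ he)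
  have hφv : ∀ e ∈ I, φ e ≠ v := fun e he h => (hI.subset he).2 (h ▸ h2 e he)
  have h3 : N.Indep (insert g I) := by
    refine hB.ind _ (Function.update φ g v) (insert_subset hg fun e he => (hI.subset he).1) ?_ ?_
    · rintro a (rfl | ha) b (rfl | hb) hab
      · rfl
      · rw [Function.update_self, Function.update_of_ne (hne b hb)] at hab
        exact absurd hab.symm (hφv b hb)
      · rw [Function.update_self, Function.update_of_ne (hne a ha)] at hab
        exact absurd hab (hφv a ha)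
      · rw [Function.update_of_ne (hne a ha), Function.update_of_ne (hne b hb)] at hab
        exact h1 ha hb hab
    · rintro e (rfl | he)
      · rw [Function.update_self]
        exact hv
      · rw [Function.update_of_ne (hne e he)]
        exact h2 e he
  intro hcl
  exact (hI.indep.notMem_closure_iff_of_notMem hgI (hB.sub hg)).2 h3 hcl

private lemma wadjn {p q : ℕ × ℕ} (h : wadj p q) : p ≠ q := by
  rintro rfl
  unfold wadj at h
  omega

section

variable {α : Type u} {P : Matroid α} {S Y : Set α} {row : α → Sym2 (ℕ × ℕ)} {w : ℕ}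
  {Wd : Set (ℕ × ℕ)} {c : Set α}

lemma RHol.nms [P.Finite] (h : RHol P S row w Wd) (hc : c ⊆ S) (hW : WallH c row w Wd)
    {v : ℕ × ℕ} {g : α} (hg : g ∈ c) (hv : v ∈ row g) :
    g ∉ P.closure (S \ {e | e ∈ c ∧ v ∈ row e}) := by
  have hf : (P ／ (S \ c)).Finite := BQ.fin_contract _
  have h1 := bic_star (h.bic c hc hW) hg hv
  intro hcl
  apply h1
  rw [Matroid.contract_closure_eq]
  refine ⟨P.closure_subset_closure ?_ hcl, fun h2 => h2.2 hg⟩
  rintro e ⟨he, he'⟩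
  by_cases hec : e ∈ c
  · exact Or.inl ⟨hec, fun h2 => he' ⟨hec, h2⟩⟩
  · exact Or.inr ⟨he, hec⟩

/-- the own vertex `p` makes its blob `{p, p'}` own if `p'` is not own -/
theorem RHol.blob_own [P.Finite] (h : RHol P S row w Wd)
    (hSY : rk P (S ∪ Y) = rk P S + rk P Y) (hc : c ⊆ S) (hW : WallH c row w Wd) {i : ℕ}
    {p p' : ℕ × ℕ} (hpp : wadj p p') (hp : p ∈ rect 0 0 (w + 1) (w + 1) \ Wd)
    (hp' : p' ∈ rect 0 0 (w + 1) (w + 1) \ Wd) (hb : ∀ q, pw i q = pw i p → q = p ∨ q = p')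
    (hb' : pw i p' = pw i p) {z : α}
    (hz : z ∉ P.closure ((S \ {e | e ∈ c ∧ p ∈ row e}) ∪ Y))
    (hz' : z ∈ P.closure ((S \ {e | e ∈ c ∧ p' ∈ row e}) ∪ Y)) :
    z ∉ P.closure (Frb S row i c (pw i p) ∪ Y) := by
  classical
  intro hcl
  obtain ⟨e₀, he₀, hr₀⟩ := hW.surj p p' hpp hp hp'
  obtain ⟨A, hA⟩ : ∃ A, A = Frb S row i c (pw i p) := ⟨_, rfl⟩
  obtain ⟨B, hB⟩ : ∃ B, B = S \ {e | e ∈ c ∧ p' ∈ row e} := ⟨_, rfl⟩
  rw [← hA] at hcl
  rw [← hB] at hz'
  have hAS : A ⊆ S := by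
    rw [hA]
    exact sdiff_subset
  have hBS : B ⊆ S := by
    rw [hB]
    exact sdiff_subset
  have hSE := h.sub
  -- `A ⊆ (A ∩ B) ∪ {e₀}`
  have h1 : A ⊆ insert e₀ (A ∩ B) := by
    intro e he
    by_cases heB : e ∈ B
    · exact Or.inr ⟨he, heB⟩
    · left
      have heS := hAS he
      have h2 : e ∈ c ∧ p' ∈ row e := by
        by_contra h3
        exact heB (by rw [hB]; exact ⟨heS, h3⟩)
      have h3 : ∀ v ∈ row e, pw i v = pw i p := by
        intro v hv
        by_contra h4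
        rw [hA] at he
        exact he.2 ⟨h2.1, ⟨p', h2.2, hb'⟩, v, hv, h4⟩
      obtain ⟨x, y, hxy, hadj, hx, hy⟩ := hW.mem e h2.1
      have hx' := hb x (h3 x (by rw [hxy]; exact Sym2.mem_mk_left _ _))
      have hy' := hb y (h3 y (by rw [hxy]; exact Sym2.mem_mk_right _ _))
      have hne : x ≠ y := wadjn hadj
      refine hW.inj h2.1 he₀ ?_
      rw [hxy, hr₀]
      rcases hx' with rfl | rfl <;> rcases hy' with rfl | rfl
      · exact absurd rfl hne
      · rfl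
      · exact Sym2.eq_swap
      · exact absurd rfl hne
  -- `e₀` is not in the closure of `B`
  have h2 : e₀ ∉ P.closure B := by
    rw [hB]
    exact h.nms hc hW he₀ (by rw [hr₀]; exact Sym2.mem_mk_right _ _)
  have he₀A : e₀ ∈ A := by
    rw [hA]
    refine ⟨hc he₀, ?_⟩
    rintro ⟨_, _, v, hv, hvp⟩
    rw [hr₀, Sym2.mem_iff] at hv
    rcases hv with rfl | rfl
    · exact hvp rfl
    · exact hvp hb'
  have hsk : ∀ X ⊆ S, rk P (X ∪ Y) = rk P X + rk P Y := fun X hX => rk_skew_sub hSY hX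
  have h3 : z ∈ P.closure ((A ∪ Y) ∩ (B ∪ Y)) := by
    refine cl_inter hcl hz' ?_
    have e1 : (A ∪ Y) ∪ (B ∪ Y) = (A ∪ B) ∪ Y := by
      ext x
      simp only [mem_union]
      tauto
    have e2 : (A ∩ B) ∪ Y ⊆ (A ∪ Y) ∩ (B ∪ Y) := by
      rintro x (⟨hx, hx'⟩ | hx)
      · exact ⟨Or.inl hx, Or.inl hx'⟩
      · exact ⟨Or.inr hx, Or.inr hx⟩
    have r1 := hsk A hAS
    have r2 := hsk B hBS
    have r3 := hsk (A ∪ B) (union_subset hAS hBS)
    have r4 := hsk (A ∩ B) (inter_subset_left.trans hAS)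
    have r5 := rk_mono P e2
    have r6 := rk_mono P h1
    have r7 : rk P (insert e₀ (A ∩ B)) ≤ rk P (A ∩ B) + 1 := by
      have := rk_union_le P (X := A ∩ B) (Y := {e₀}) (finite_singleton _)
      rw [ncard_singleton, union_singleton] at this
      exact this
    have r8 := rk_insert_notMem (hSE (hc he₀)) h2
    have r9 : rk P (insert e₀ B) ≤ rk P (A ∪ B) :=
      rk_mono P (insert_subset (Or.inl he₀A) subset_union_right)
    rw [e1]
    omega
  apply hz
  refine P.closure_subset_closure ?_ h3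
  rintro x ⟨hx | hx, hx' | hx'⟩
  · by_cases hxp : x ∈ c ∧ p ∈ row x
    · exfalso
      rw [hB] at hx'
      rw [hA] at hx
      obtain ⟨a, b, hab, hadj, _, _⟩ := hW.mem x hxp.1
      refine hx.2 ⟨hxp.1, ⟨p, hxp.2, rfl⟩, ?_⟩
      have hall : ∀ v ∈ row x, v ≠ p → pw i v ≠ pw i p := by
        intro v hv hvp h5
        rcases hb v h5 with rfl | rfl
        · exact hvp rfl
        · exact hx'.2 ⟨hxp.1, hv⟩
      have hab' := wadjn hadj
      by_cases hap : a = p
      · subst hap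
        exact ⟨b, by rw [hab]; exact Sym2.mem_mk_right _ _,
          hall b (by rw [hab]; exact Sym2.mem_mk_right _ _) hab'.symm⟩
      · exact ⟨a, by rw [hab]; exact Sym2.mem_mk_left _ _,
          hall a (by rw [hab]; exact Sym2.mem_mk_left _ _) hap⟩
    · exact Or.inl ⟨hAS hx, hxp⟩
  · exact Or.inr hx'
  · exact Or.inr hx
  · exact Or.inr hx

/-- the partner of a vertex in the matching `i` -/
def ptn (i : ℕ) (p : ℕ × ℕ) : ℕ × ℕ := if (p.1 - i) % 2 = 0 then (p.1 + 1, p.2) else (p.1 - 1, p.2)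

lemma ptn_spec {i : ℕ} (hi : i ≤ 1) {p : ℕ × ℕ} (hp : 3 ≤ p.1) :
    wadj p (ptn i p) ∧ pw i (ptn i p) = pw i p ∧ (∀ q, pw i q = pw i p → q = p ∨ q = ptn i p) ∧
      (ptn i p = (p.1 + 1, p.2) ∨ ptn i p = (p.1 - 1, p.2)) := by
  obtain ⟨x, y⟩ := p
  have hp' : 3 ≤ x := hp
  have hi' : i = 0 ∨ i = 1 := by omega
  by_cases h : (x - i) % 2 = 0
  · have h1 : ptn i (x, y) = (x + 1, y) := by
      unfold ptn
      exact if_pos h
    rw [h1]
    refine ⟨?_, ?_, ?_, Or.inl rfl⟩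
    · unfold wadj
      dsimp only
      omega
    · unfold pw
      dsimp only
      rw [Prod.mk.injEq]
      rcases hi' with rfl | rfl <;> refine ⟨?_, rfl⟩ <;> omega
    · rintro ⟨a, b⟩ hq
      unfold pw at hq
      dsimp only at hq
      rw [Prod.mk.injEq] at hq
      rw [Prod.mk.injEq, Prod.mk.injEq]
      rcases hi' with rfl | rfl <;> omega
  · have h1 : ptn i (x, y) = (x - 1, y) := by
      unfold ptn
      exact if_neg h
    rw [h1]
    refine ⟨?_, ?_, ?_, Or.inr rfl⟩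
    · unfold wadj
      dsimp only
      omega
    · unfold pw
      dsimp only
      rw [Prod.mk.injEq]
      rcases hi' with rfl | rfl <;> refine ⟨?_, rfl⟩ <;> omega
    · rintro ⟨a, b⟩ hq
      unfold pw at hq
      dsimp only at hq
      rw [Prod.mk.injEq] at hq
      rw [Prod.mk.injEq, Prod.mk.injEq]
      rcases hi' with rfl | rfl <;> omega

/-- own vertices of `z` for the representatives `c` -/
def OwnV (P : Matroid α) (S Y : Set α) (row : α → Sym2 (ℕ × ℕ)) (c : Set α) (z : α)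
    (v : ℕ × ℕ) : Prop := z ∉ P.closure ((S \ {e | e ∈ c ∧ v ∈ row e}) ∪ Y)

/-- `p` and its neighbours in the line are in the wall -/
structure Clr (w : ℕ) (Wd : Set (ℕ × ℕ)) (p : ℕ × ℕ) : Prop where
  lo : 3 ≤ p.1
  hi : p.1 + 1 ≤ w
  y : p.2 ≤ w
  mid : p ∉ Wd
  left : (p.1 - 1, p.2) ∉ Wd
  right : (p.1 + 1, p.2) ∉ Wd

lemma Clr.in_rect {p : ℕ × ℕ} (h : Clr w Wd p) : p ∈ rect 0 0 (w + 1) (w + 1) \ Wd := by
  refine ⟨?_, h.mid⟩
  rw [Gad.mem_rct]
  have := h.hi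
  have := h.y
  omega

lemma Clr.ptn_rect {p : ℕ × ℕ} (h : Clr w Wd p) {i : ℕ} (hi : i ≤ 1) :
    ptn i p ∈ rect 0 0 (w + 1) (w + 1) \ Wd := by
  have h1 := h.hi
  have h2 := h.y
  have h3 := h.lo
  rcases (ptn_spec hi h.lo).2.2.2 with h4 | h4
  · rw [h4]
    refine ⟨?_, h.right⟩
    rw [Gad.mem_rct]
    simp only
    omega
  · rw [h4]
    refine ⟨?_, h.left⟩
    rw [Gad.mem_rct]
    simp only
    omega

/-- an own vertex whose partner is not own has an own blob -/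
theorem RHol.blob_of [P.Finite] (h : RHol P S row w Wd)
    (hSY : rk P (S ∪ Y) = rk P S + rk P Y) (hc : c ⊆ S) (hW : WallH c row w Wd) {i : ℕ}
    (hi : i ≤ 1) {p : ℕ × ℕ} (hp : Clr w Wd p) {z : α} (hz : OwnV P S Y row c z p)
    (hz' : ¬ OwnV P S Y row c z (ptn i p)) : z ∉ P.closure (Frb S row i c (pw i p) ∪ Y) := by
  obtain ⟨h1, h2, h3, _⟩ := ptn_spec hi hp.lo
  refine h.blob_own hSY hc hW h1 hp.in_rect (hp.ptn_rect hi) h3 h2 hz ?_
  unfold OwnV at hz'
  push Not at hz'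
  exact hz'

/-- **Two own vertices.**  No other neighbour in the line is own. -/
theorem RHol.two_own [P.Finite] (h : RHol P S row w Wd)
    (hSY : rk P (S ∪ Y) = rk P S + rk P Y) (hc : c ⊆ S) (hW : WallH c row w Wd)
    {p₁ p₂ : ℕ × ℕ} (hne : p₁ ≠ p₂) (h₁ : Clr w Wd p₁) (h₂ : Clr w Wd p₂) {z : α}
    (o₁ : OwnV P S Y row c z p₁) (o₂ : OwnV P S Y row c z p₂)
    (hno : ∀ p, (p = p₁ ∨ p = p₂) → ∀ q, (q = (p.1 + 1, p.2) ∨ q = (p.1 - 1, p.2)) →
      OwnV P S Y row c z q → q = p₁ ∨ q = p₂) :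
    ∃ i ≤ 1, pw i p₁ ≠ pw i p₂ ∧ z ∉ P.closure (Frb S row i c (pw i p₁) ∪ Y) ∧
      z ∉ P.closure (Frb S row i c (pw i p₂) ∪ Y) := by
  have key : ∀ i ≤ 1, pw i p₁ ≠ pw i p₂ → ∃ i ≤ 1, pw i p₁ ≠ pw i p₂ ∧
      z ∉ P.closure (Frb S row i c (pw i p₁) ∪ Y) ∧
      z ∉ P.closure (Frb S row i c (pw i p₂) ∪ Y) := by
    intro i hi hpw
    refine ⟨i, hi, hpw, h.blob_of hSY hc hW hi h₁ o₁ ?_, h.blob_of hSY hc hW hi h₂ o₂ ?_⟩
    · obtain ⟨g1, g2, _, g4⟩ := ptn_spec hi h₁.lo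
      intro ho
      rcases hno p₁ (Or.inl rfl) _ g4 ho with e1 | e1
      · exact wadjn g1 e1.symm
      · exact hpw (by rw [← e1]; exact g2.symm)
    · obtain ⟨g1, g2, _, g4⟩ := ptn_spec hi h₂.lo
      intro ho
      rcases hno p₂ (Or.inr rfl) _ g4 ho with e1 | e1
      · exact hpw (by rw [← e1]; exact g2)
      · exact wadjn g1 e1.symm
  by_cases h0 : pw 0 p₁ = pw 0 p₂
  · refine key 1 le_rfl ?_
    intro h1
    have a1 := h₁.lo
    have a2 := h₂.lo
    unfold pw at h0 h1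
    rw [Prod.mk.injEq] at h0 h1
    apply hne
    ext <;> omega
  · exact key 0 (by omega) h0

/-- **A closed star of own vertices.**  `v` and its three neighbours are the own vertices near
`v`. -/
theorem RHol.star_own [P.Finite] (h : RHol P S row w Wd)
    (hSY : rk P (S ∪ Y) = rk P S + rk P Y) (hc : c ⊆ S) (hW : WallH c row w Wd)
    {v : ℕ × ℕ} (hv1 : 5 ≤ v.1 ∧ v.1 + 3 ≤ w ∧ 1 ≤ v.2 ∧ v.2 + 1 ≤ w)
    (hv : ∀ q, sd q v ≤ 2 → q ∉ Wd) {z : α}
    (ho : ∀ q, wadj v q → OwnV P S Y row c z q)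
    (hno : ∀ q, sd q v ≤ 2 → OwnV P S Y row c z q → q = v ∨ wadj v q) :
    ∃ p₁ p₂, wadj v p₁ ∧ wadj v p₂ ∧ pw 0 p₁ ≠ pw 0 p₂ ∧
      z ∉ P.closure (Frb S row 0 c (pw 0 p₁) ∪ Y) ∧
      z ∉ P.closure (Frb S row 0 c (pw 0 p₂) ∪ Y) := by
  obtain ⟨x, y⟩ := v
  simp only at hv1
  -- the horizontal neighbour which is not the partner of `v`
  obtain ⟨a, ha⟩ : ∃ a : ℕ, a = if x % 2 = 0 then x - 1 else x + 1 := ⟨_, rfl⟩
  -- the vertical neighbour
  obtain ⟨b, hb⟩ : ∃ b : ℕ, b = if (x + y) % 2 = 0 then y + 1 else y - 1 := ⟨_, rfl⟩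
  have hasp : (x % 2 = 0 ∧ a + 1 = x) ∨ (x % 2 = 1 ∧ a = x + 1) := by
    rw [ha]
    split_ifs with h1 <;> omega
  have hbsp : ((x + y) % 2 = 0 ∧ b = y + 1) ∨ ((x + y) % 2 = 1 ∧ b + 1 = y) := by
    rw [hb]
    split_ifs with h1 <;> omega
  have w1 : wadj (x, y) (a, y) := by
    unfold wadj
    dsimp only
    rcases hasp with h1 | h1 <;> omega
  have w2 : wadj (x, y) (x, b) := by
    unfold wadj
    dsimp only
    rcases hbsp with h1 | h1 <;> omega
  have hsd : ∀ q : ℕ × ℕ, sd q (x, y) ≤ 2 ↔ q.1 ≤ x + 2 ∧ x ≤ q.1 + 2 ∧ q.2 ≤ y + 2 ∧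
      y ≤ q.2 + 2 := by
    intro q
    rw [sd_le]
  have hclr : ∀ q : ℕ × ℕ, q.1 ≤ x + 1 → x ≤ q.1 + 1 → q.2 ≤ y + 1 → y ≤ q.2 + 1 →
      Clr w Wd q := by
    intro q g1 g2 g3 g4
    refine ⟨by omega, by omega, by omega, hv q ((hsd q).2 (by omega)),
      hv _ ((hsd _).2 (by simp only; omega)), hv _ ((hsd _).2 (by simp only; omega))⟩
  have hptn : ∀ q : ℕ × ℕ, ptn 0 q = if q.1 % 2 = 0 then (q.1 + 1, q.2) else (q.1 - 1, q.2) := by
    intro q
    unfold ptn
    rw [Nat.sub_zero]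
  refine ⟨(a, y), (x, b), w1, w2, ?_, ?_, ?_⟩
  · unfold pw
    simp only [Nat.sub_zero, ne_eq, Prod.mk.injEq, not_and]
    omega
  · refine h.blob_of hSY hc hW (by omega) (hclr (a, y) (by simp only; omega)
      (by simp only; omega) (by simp only; omega) (by simp only; omega)) (ho _ w1) ?_
    intro h1
    have h2 : (ptn 0 (a, y) = (a - 1, y) ∧ a + 1 = x) ∨ (ptn 0 (a, y) = (a + 1, y) ∧ a = x + 1) := by
      rw [hptn]
      simp only
      split_ifs with h3
      · right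
        exact ⟨rfl, by omega⟩
      · left
        exact ⟨rfl, by omega⟩
    have h3 := hno _ ((hsd _).2 (by
      rcases h2 with ⟨h2, _⟩ | ⟨h2, _⟩ <;> rw [h2] <;> simp only <;> omega)) h1
    rcases h2 with ⟨h2, h4⟩ | ⟨h2, h4⟩ <;> rw [h2] at h3 <;> unfold wadj at h3 <;>
      simp only [Prod.mk.injEq] at h3 <;> omega
  · refine h.blob_of hSY hc hW (by omega) (hclr (x, b) (by simp only; omega)
      (by simp only; omega) (by simp only; omega) (by simp only; omega)) (ho _ w2) ?_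
    intro h1
    have h2 : ptn 0 (x, b) = (x + 1, b) ∨ ptn 0 (x, b) = (x - 1, b) := by
      rw [hptn]
      simp only
      split_ifs with h3
      · exact Or.inl rfl
      · exact Or.inr rfl
    have h3 := hno _ ((hsd _).2 (by
      rcases h2 with h2 | h2 <;> rw [h2] <;> simp only <;> omega)) h1
    rcases h2 with h2 | h2 <;> rw [h2] at h3 <;> unfold wadj at h3 <;>
      simp only [Prod.mk.injEq] at h3 <;> omega

end

end DA
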