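import Pool.Agent.Helper91.SR.Ramsey
import Pool.Agent.BICS.Asm

/-!
# Uniform minors and deletion of few elements (H2 of HEAL)

`uniform_delete`: a matroid with a large uniform minor still has a uniform minor after the deletion
of few elements (elements which were contracted cost an elementary lift, cured by Ramsey).
-/

open Set
open scoped Matroid

namespace DA

open BIC BICS

universe u

variable {α : Type u}

/-- A restriction is uniform. -/
lemma hum_restrict {M : Matroid α} [M.Finite] {k : ℕ} {T : Set α} (hT : T ⊆ M.E)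
    (hc : T.ncard = 2 * k) (h1 : ∀ B ⊆ T, B.ncard = k → M.Indep B)
    (h2 : ∀ B ⊆ T, M.Indep B → B.ncard ≤ k) : HasUniformMinor M k := by
  have hTf : T.Finite := M.ground_finite.subset hT
  refine ⟨M ↾ T, ?_, hc, ?_⟩
  · rw [← Matroid.delete_compl hT]
    have h := Matroid.contract_delete_isMinor M ∅ (M.E \ T)
    rwa [Matroid.contract_empty] at h
  intro B
  constructor
  · intro hB
    have hBT : B ⊆ T := hB.subset_ground
    have hBi : M.Indep B := (Matroid.restrict_indep_iff.1 hB.indep).1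
    refine ⟨hBT, ?_⟩
    have h3 := h2 B hBT hBi
    by_contra hne
    obtain ⟨B', hBB', hB'T, hB'c⟩ := Set.exists_subsuperset_card_eq hBT h3 (by omega)
    have h4 := h1 B' hB'T hB'c
    have h5 := hB.eq_of_subset_indep (Matroid.restrict_indep_iff.2 ⟨h4, hB'T⟩) hBB'
    rw [h5] at hne
    exact hne hB'c
  · rintro ⟨hBT, hBc⟩
    have hBi := h1 B hBT hBc
    rw [Matroid.isBase_iff_maximal_indep]
    refine ⟨Matroid.restrict_indep_iff.2 ⟨hBi, hBT⟩, ?_⟩
    intro B' hB' hBB'
    have h3 := Matroid.restrict_indep_iff.1 hB'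
    have h4 := h2 B' h3.2 h3.1
    have h5 := Set.eq_of_subset_of_ncard_le hBB' (by omega) (hTf.subset h3.2)
    exact h5.symm.subset

/-- Ramsey on a set of elements. -/
lemma ramsey_set (d m : ℕ) : ∃ N : ℕ, ∀ {α : Type u} (F : Set α) (p : Set α → Prop),
    F.Finite → N ≤ F.ncard →
    ∃ T ⊆ F, T.ncard = m ∧ ((∀ A ⊆ T, A.ncard = d → p A) ∨ ∀ A ⊆ T, A.ncard = d → ¬ p A) := by
  classical
  obtain ⟨N, hN⟩ := Pool.Agent.Helper91.SR.ramsey_exists d m m
  refine ⟨N, ?_⟩
  intro α F p hF hc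
  obtain ⟨f, hf⟩ : ∃ f : Fin F.ncard → α, BijOn f univ F := by
    have e : F ≃ Fin F.ncard := by
      have := hF.fintype
      rw [Set.ncard_eq_toFinset_card F hF]
      have h1 : hF.toFinset.card = Fintype.card F := by
        rw [Set.Finite.card_toFinset]
      rw [h1]
      exact Fintype.equivFin F
    refine ⟨fun i => (e.symm i : α), fun i _ => (e.symm i).2, ?_, ?_⟩
    · intro i _ j _ hij
      exact e.symm.injective (Subtype.ext hij)
    · intro x hx
      exact ⟨e ⟨x, hx⟩, mem_univ _, by simp⟩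
  have key : ∀ T : Finset (Fin F.ncard), ∀ A ⊆ f '' (T : Set (Fin F.ncard)), A.ncard = d →
      ∃ E ⊆ T, E.card = d ∧ f '' (E : Set (Fin F.ncard)) = A := by
    intro T A hA hAd
    refine ⟨T.filter fun i => f i ∈ A, Finset.filter_subset _ _, ?_, ?_⟩
    · have h1 : f '' ((T.filter fun i => f i ∈ A : Finset _) : Set (Fin F.ncard)) = A := by
        ext x
        constructor
        · rintro ⟨i, hi, rfl⟩
          exact (Finset.mem_filter.1 hi).2
        · intro hx
          obtain ⟨i, hi, rfl⟩ := hA hx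
          exact ⟨i, Finset.mem_coe.2 (Finset.mem_filter.2 ⟨hi, hx⟩), rfl⟩
      have h2 := congrArg Set.ncard h1
      rwa [(hf.injOn.mono (subset_univ _)).ncard_image, Set.ncard_coe_finset, hAd] at h2
    · ext x
      constructor
      · rintro ⟨i, hi, rfl⟩
        exact (Finset.mem_filter.1 hi).2
      · intro hx
        obtain ⟨i, hi, rfl⟩ := hA hx
        exact ⟨i, Finset.mem_coe.2 (Finset.mem_filter.2 ⟨hi, hx⟩), rfl⟩
  have himg : ∀ T : Finset (Fin F.ncard), (f '' (T : Set (Fin F.ncard))).ncard = T.card := by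
    intro T
    rw [(hf.injOn.mono (subset_univ _)).ncard_image, Set.ncard_coe_finset]
  rcases hN (Fin F.ncard) Finset.univ (fun E => decide (p (f '' (E : Set (Fin F.ncard)))))
      (by simpa using hc) with ⟨T, _, hTc, hT⟩ | ⟨T, _, hTc, hT⟩
  · refine ⟨f '' (T : Set (Fin F.ncard)), ?_, by rw [himg, hTc], Or.inl ?_⟩
    · rintro x ⟨i, _, rfl⟩
      exact hf.mapsTo (mem_univ i)
    · intro A hA hAd
      obtain ⟨E, hE, hEc, rfl⟩ := key T A hA hAd
      simpa using hT E hE hEc
  · refine ⟨f '' (T : Set (Fin F.ncard)), ?_, by rw [himg, hTc], Or.inr ?_⟩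
    · rintro x ⟨i, _, rfl⟩
      exact hf.mapsTo (mem_univ i)
    · intro A hA hAd
      obtain ⟨E, hE, hEc, rfl⟩ := key T A hA hAd
      simpa using hT E hE hEc

/-- Almost uniform of rank `≤ k + 1`. -/
lemma hum_almost (k : ℕ) : ∃ N₀ : ℕ, ∀ {α : Type u} (M : Matroid α) [M.Finite] (F : Set α),
    F ⊆ M.E → N₀ ≤ F.ncard → (∀ A ⊆ F, A.ncard ≤ k → M.Indep A) →
    (∀ A ⊆ F, M.Indep A → A.ncard ≤ k + 1) → HasUniformMinor M k := by
  obtain ⟨N, hN⟩ := ramsey_set.{u} (k + 1) (2 * k + 1)
  refine ⟨N, ?_⟩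
  intro α M _ F hF hc h1 h2
  have hFf : F.Finite := M.ground_finite.subset hF
  obtain ⟨T, hTF, hTc, hT⟩ := hN F (fun A => M.Indep A) hFf hc
  have hTf : T.Finite := hFf.subset hTF
  obtain ⟨x, hx⟩ : T.Nonempty := by
    rw [← Set.ncard_pos hTf]
    omega
  have hT'c : (T \ {x}).ncard = 2 * k := by
    have := Set.ncard_sdiff_singleton_add_one hx hTf
    omega
  rcases hT with hT | hT
  · -- contract `x`
    have hxi : ∀ A ⊆ T \ {x}, A.ncard = k → M.Indep (insert x A) := by
      intro A hA hAc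
      refine hT _ (insert_subset hx (hA.trans sdiff_subset)) ?_
      rw [Set.ncard_insert_of_notMem (fun h => (hA h).2 rfl) (hTf.subset (hA.trans sdiff_subset)),
        hAc]
    have hxn : M.IsNonloop x := by
      obtain ⟨A, hA, hAc⟩ := Set.exists_subset_card_eq (s := T \ {x}) (n := k) (by omega)
      exact (hxi A hA hAc).isNonloop_of_mem (mem_insert _ _)
    have hf' : (M ／ {x}).Finite := ⟨M.ground_finite.subset sdiff_subset⟩
    refine HasUniformMinor_mono (hum_restrict (M := M ／ {x}) (T := T \ {x}) ?_ hT'c ?_ ?_) ?_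
    · intro y hy
      exact ⟨hF (hTF hy.1), hy.2⟩
    · intro B hB hBc
      rw [hxn.contractElem_indep_iff]
      exact ⟨fun h => (hB h).2 rfl, hxi B hB hBc⟩
    · intro B hB hBi
      rw [hxn.contractElem_indep_iff] at hBi
      have h3 := h2 _ (insert_subset (hTF hx) ((hB.trans sdiff_subset).trans hTF)) hBi.2
      rw [Set.ncard_insert_of_notMem hBi.1 (hTf.subset (hB.trans sdiff_subset))] at h3
      omega
    · have h := Matroid.contract_delete_isMinor M {x} ∅
      rwa [Matroid.delete_empty] at h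
  · refine hum_restrict (T := T \ {x}) ((sdiff_subset.trans hTF).trans hF) hT'c ?_ ?_
    · intro B hB hBc
      exact h1 B ((hB.trans sdiff_subset).trans hTF) hBc.le
    · intro B hB hBi
      by_contra hlt
      obtain ⟨A, hA, hAc⟩ := Set.exists_subset_card_eq (s := B) (n := k + 1) (by omega)
      exact hT A (hA.trans (hB.trans sdiff_subset)) hAc (hBi.subset hA)

/-- Deletion of at most one element. -/
lemma hum_delete_one (k : ℕ) : ∃ K : ℕ, ∀ {α : Type u} (M : Matroid α) [M.Finite] (X : Set α),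
    X.Finite → X.ncard ≤ 1 → HasUniformMinor M K → HasUniformMinor (M ＼ X) k := by
  obtain ⟨N₀, hN₀⟩ := hum_almost.{u} k
  refine ⟨N₀ + k + 1, ?_⟩
  intro α M _ X hXf hX1 hU
  obtain ⟨K, hK⟩ : ∃ K, K = N₀ + k + 1 := ⟨_, rfl⟩
  rw [← hK] at hU
  obtain ⟨N, hNM, hNc, hNB⟩ := hU
  obtain ⟨C, D, hC, hD, hCD, hN⟩ := hNM.exists_eq_contract_delete_disjoint
  have hNE : N.E = (M.E \ C) \ D := by rw [hN]; rfl
  have hNf : N.E.Finite := M.ground_finite.subset (hNM.subset)
  -- small sets are independent in `M ／ C`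
  have i1 : ∀ A ⊆ N.E, A.ncard ≤ K → (M ／ C).Indep A := by
    intro A hA hAc
    obtain ⟨B, hAB, hBE, hBc⟩ := Set.exists_subsuperset_card_eq hA hAc (by omega)
    have h1 : N.IsBase B := (hNB B).2 ⟨hBE, hBc⟩
    have h2 : N.Indep A := h1.indep.subset hAB
    rw [hN, Matroid.delete_indep_iff] at h2
    exact h2.1
  have i2 : ∀ A ⊆ N.E, (M ／ C).Indep A → A.ncard ≤ K := by
    intro A hA hAi
    have h1 : N.Indep A := by
      rw [hN, Matroid.delete_indep_iff]
      refine ⟨hAi, ?_⟩
      rw [Set.disjoint_left]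
      intro e he heD
      have := hA he
      rw [hNE] at this
      exact this.2 heD
    obtain ⟨B, hB, hAB⟩ := h1.exists_isBase_superset
    have h2 := (hNB B).1 hB
    have h3 := Set.ncard_le_ncard hAB (hNf.subset h2.1)
    omega
  have fC : (M ／ C).Finite := ⟨M.ground_finite.subset sdiff_subset⟩
  obtain ⟨C', hC'⟩ : ∃ C', C' = C \ X := ⟨_, rfl⟩
  have hC'C : C' ⊆ C := by rw [hC']; exact sdiff_subset
  have fC' : (M ／ C').Finite := ⟨M.ground_finite.subset sdiff_subset⟩
  have hrkN : rk (M ／ C) N.E ≤ K := by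
    obtain ⟨I, hI⟩ := (M ／ C).exists_isBasis N.E (by rw [hNE]; exact sdiff_subset)
    rw [← rk_closure, ← hI.closure_eq_closure, rk_closure, rk_indep hI.indep]
    exact i2 I hI.subset hI.indep
  obtain ⟨F, hF⟩ : ∃ F, F = N.E \ X := ⟨_, rfl⟩
  have hFN : F ⊆ N.E := by rw [hF]; exact sdiff_subset
  have hFM : F ⊆ M.E \ C := by
    intro y hy
    have := hFN hy
    rw [hNE] at this
    exact this.1
  have hFM' : F ⊆ M.E \ C' := fun y hy => ⟨(hFM hy).1, fun h => (hFM hy).2 (hC'C h)⟩
  have hFc : 2 * K ≤ F.ncard + 1 := by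
    have h1 := Set.ncard_le_ncard_sdiff_add_ncard N.E X hXf
    rw [← hF] at h1
    omega
  have j1 : ∀ A ⊆ F, A.ncard ≤ K → (M ／ C').Indep A := by
    intro A hA hAc
    have h1 := i1 A (hA.trans hFN) hAc
    have h2 : M ／ C = (M ／ C') ／ (C ∩ X) := by
      rw [Matroid.contract_contract, hC', sdiff_union_inter]
    rw [h2] at h1
    exact h1.of_contract
  have hrkF : rk (M ／ C') F ≤ K + 1 := by
    have h1 := rk_contract_set (M := M) (C := C') (X := F) (hC'C.trans hC) hFM'
    have h2 := rk_contract_set (M := M) (C := C) (X := F) hC hFM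
    have h3 : rk M (F ∪ C') ≤ rk M (F ∪ C) := rk_mono M (union_subset_union_right _ hC'C)
    have h4 : rk M C ≤ rk M C' + (C ∩ X).ncard := by
      have h5 := rk_union_le M (X := C') (Y := C ∩ X) (hXf.subset inter_subset_right)
      rwa [hC', sdiff_union_inter, ← hC'] at h5
    have h6 : (C ∩ X).ncard ≤ 1 := (Set.ncard_le_ncard inter_subset_right hXf).trans hX1
    have h7 : rk (M ／ C) F ≤ rk (M ／ C) N.E := rk_mono _ hFN
    omega
  obtain ⟨Z, hZF, hZc⟩ := Set.exists_subset_card_eq (s := F) (n := K - k) (by omega)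
  have hFf : F.Finite := hNf.subset hFN
  have hZi : (M ／ C').Indep Z := j1 Z hZF (by omega)
  have fX : ((M ／ C') ＼ X ／ Z).Finite :=
    ⟨M.ground_finite.subset ((sdiff_subset.trans sdiff_subset).trans sdiff_subset)⟩
  have hZX : ((M ／ C') ＼ X).Indep Z := by
    rw [Matroid.delete_indep_iff]
    refine ⟨hZi, ?_⟩
    rw [Set.disjoint_left]
    intro y hy hyX
    have := hZF hy
    rw [hF] at this
    exact this.2 hyX
  have hmin : (M ／ C') ＼ X ／ Z ≤m M ＼ X := by
    have e1 : M ／ C' ＼ X = M ＼ X ／ C' :=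
      Matroid.contract_delete_comm M (by rw [hC']; exact disjoint_sdiff_left)
    rw [e1, Matroid.contract_contract]
    have h := Matroid.contract_delete_isMinor (M ＼ X) (C' ∪ Z) ∅
    rwa [Matroid.delete_empty] at h
  refine HasUniformMinor_mono (hN₀ ((M ／ C') ＼ X ／ Z) (F \ Z) ?_ ?_ ?_ ?_) hmin
  · rintro y ⟨hy, hyZ⟩
    refine ⟨⟨hFM' hy, ?_⟩, hyZ⟩
    rw [hF] at hy
    exact hy.2
  · have := Set.ncard_sdiff_add_ncard_of_subset hZF hFf
    omega
  · intro A hA hAc
    rw [hZX.contract_indep_iff, Matroid.delete_indep_iff]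
    have hAF : A ⊆ F := hA.trans sdiff_subset
    refine ⟨Set.disjoint_left.2 fun y hy => (hA hy).2, j1 _ (union_subset hAF hZF) ?_, ?_⟩
    · have := Set.ncard_union_le A Z
      omega
    · rw [Set.disjoint_left]
      intro y hy hyX
      have := union_subset hAF hZF hy
      rw [hF] at this
      exact this.2 hyX
  · intro A hA hAi
    rw [hZX.contract_indep_iff, Matroid.delete_indep_iff] at hAi
    obtain ⟨hAZ, hAi, _⟩ := hAi
    have hAF : A ⊆ F := hA.trans sdiff_subset
    have h1 := rk_mono (M ／ C') (union_subset hAF hZF)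
    rw [rk_indep hAi, Set.ncard_union_eq hAZ (hFf.subset hAF) (hFf.subset hZF), hZc] at h1
    omega

/-- **Deletion of few elements.** -/
theorem uniform_delete (t : ℕ) : ∀ k : ℕ, ∃ K : ℕ, ∀ {α : Type u} (M : Matroid α) [M.Finite]
    (X : Set α), X.Finite → X.ncard ≤ t → HasUniformMinor M K → HasUniformMinor (M ＼ X) k := by
  induction t with
  | zero =>
    intro k
    refine ⟨k, ?_⟩
    intro α M _ X hX h0 hU
    have : X = ∅ := (Set.ncard_eq_zero hX).1 (by omega)
    rw [this, Matroid.delete_empty]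
    exact hU
  | succ t ih =>
    intro k
    obtain ⟨K₁, h1⟩ := hum_delete_one.{u} k
    obtain ⟨K, h2⟩ := ih K₁
    refine ⟨K, ?_⟩
    intro α M _ X hX ht hU
    obtain ⟨Y, hY, hYt, hY1⟩ : ∃ Y ⊆ X, (X \ Y).ncard ≤ t ∧ Y.ncard ≤ 1 := by
      rcases X.eq_empty_or_nonempty with h | ⟨x, hx⟩
      · exact ⟨∅, empty_subset _, by simp [h], by simp⟩
      · refine ⟨{x}, singleton_subset_iff.2 hx, ?_, by simp⟩
        have := Set.ncard_sdiff_singleton_add_one hx hX
        omega
    have f1 : (M ＼ (X \ Y)).Finite := ⟨M.ground_finite.subset sdiff_subset⟩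
    have h3 := h1 (M ＼ (X \ Y)) Y (hX.subset hY) hY1 (h2 M (X \ Y) (hX.subset sdiff_subset) hYt hU)
    rwa [Matroid.delete_delete, sdiff_union_of_subset hY] at h3

end DA
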