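import Pool.Agent.DA.WComb

/-!
# The combinatorics of the legs on the brick wall: the main case distinction
-/

open Set
open scoped Matroid

namespace DA

variable {Λ : Set (ℕ × ℕ)}

lemma ncard_pair2 (p q : ℕ × ℕ) : ({p, q} : Set (ℕ × ℕ)).ncard ≤ 2 := by
  refine (Set.ncard_insert_le _ _).trans ?_
  rw [Set.ncard_singleton]

/-- Two odd runs, the second one is above. -/
lemma plan_odd_u {a b y a2 b2 y2 : ℕ} (h : Run Λ a b y) (h2 : Run Λ a2 b2 y2) (hyy : y < y2)
    (hl : a + 2 ≤ b) (ho : (a + b) % 2 = 0) (ho2 : (a2 + b2) % 2 = 0)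
    (hΛ : ∀ p ∈ Λ, (p.2 = y ∧ a ≤ p.1 ∧ p.1 ≤ b) ∨ (p.2 = y2 ∧ a2 ≤ p.1 ∧ p.1 ≤ b2))
    (hN : ¬ ∃ w, Λ = star w) : Plan Λ := by
  have l1 := h.le
  have l2 := h2.le
  have q1 := h.pos
  have q2 := h2.pos
  have hΛ' : ∀ p ∈ Λ, (p.2 = y ∧ a ≤ p.1) ∨ (p.2 = y2 ∧ a2 ≤ p.1 ∧ p.1 ≤ b2) := by
    intro p hp
    have := hΛ p hp
    omega
  obtain ⟨i, hi⟩ : ∃ i, i = (a + 1) % 2 := ⟨_, rfl⟩
  obtain ⟨x, hx1, hx2, hx3, hx4, hx5⟩ := h2.odd ho2 (i := i) (by omega)
  by_cases hnd : y2 = y + 1 ∧ (x - i) / 2 = (a + 1 - i) / 2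
  · obtain ⟨hy1, hd⟩ := hnd
    by_cases hpar : (a + 2 + y) % 2 = 0
    · refine plan_one (i := i) (hu := 0) (hv := 1) (by omega) (by omega) (by omega)
        (h.mem (a + 1) (by omega) (by omega)) ?_
      intro B K ρ s hC
      exact hC.p7u rfl (by omega) (h.mem _ (by omega) (by omega))
        (h.mem _ (by omega) (by omega)) hy1 h2.mem hΛ' ⟨hx1, hx2⟩ hx4 hd hpar
    · by_cases hb4 : a + 4 ≤ b
      · refine plan_one (i := i) (hu := 1) (hv := 0) (by omega) (by omega) (by omega)
          (h.mem (a + 3) (by omega) (by omega)) ?_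
        intro B K ρ s hC
        exact hC.p6u rfl (by omega) (fun x hx hx' => h.mem x hx (by omega)) hy1 h2.mem hΛ'
          ⟨hx1, hx2⟩ hx4 (by simp only; omega) (by omega)
      · have hb : b = a + 2 := by omega
        subst hb
        obtain ⟨j, hj⟩ : ∃ j, j = a % 2 := ⟨_, rfl⟩
        obtain ⟨x', hx1', hx2', hx3', hx4', hx5'⟩ := h2.odd ho2 (i := j) (by omega)
        by_cases hnd' : (x' - j) / 2 = (a - j) / 2
        · exfalso
          have e1 : a2 = a + 1 ∧ b2 = a + 1 := by
            clear hΛ hΛ' hx4 hx4' hx3 hx3'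
            omega
          apply hN
          refine ⟨(a + 1, y), ?_⟩
          have hvn : vn (a + 1, y) = (a + 1, y + 1) := by
            unfold vn
            rw [if_pos (by simp only; omega)]
          unfold star
          rw [hvn]
          ext p
          simp only [mem_insert_iff, mem_singleton_iff, Nat.add_sub_cancel]
          constructor
          · intro hp
            have h3 := hΛ p hp
            have h4 : (p.1 = a + 1 ∧ p.2 = y) ∨ (p.1 = a ∧ p.2 = y) ∨
                (p.1 = a + 1 + 1 ∧ p.2 = y) ∨ (p.1 = a + 1 ∧ p.2 = y + 1) := by omega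
            rcases h4 with h4 | h4 | h4 | h4
            · exact Or.inl (Prod.ext h4.1 h4.2)
            · exact Or.inr (Or.inl (Prod.ext h4.1 h4.2))
            · exact Or.inr (Or.inr (Or.inl (Prod.ext h4.1 h4.2)))
            · exact Or.inr (Or.inr (Or.inr (Prod.ext h4.1 h4.2)))
          · rintro (rfl | rfl | rfl | rfl)
            · exact h.mem _ (by omega) (by omega)
            · exact h.mem _ (by omega) (by omega)
            · exact h.mem _ (by omega) (by omega)
            · rw [← hy1]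
              exact h2.mem _ (by omega) (by omega)
        · refine plan_one (i := j) (hu := 0) (hv := 0) (by omega) (by omega) (by omega)
            (h.mem a (by omega) (by omega)) ?_
          intro B K ρ s hC
          exact hC.p8u rfl (by omega) h.mem hy1 h2.mem hΛ ⟨hx1', hx2'⟩ hx4' (x0 := x)
            ⟨hx1, hx2⟩ (by omega) hnd' (by omega)
  · refine plan_one (i := i) (hu := 0) (hv := 0) (by omega) (by omega) (by omega)
      (h.mem (a + 1) (by omega) (by omega)) ?_
    intro B K ρ s hC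
    exact hC.p5u rfl (by omega) (h.mem _ (by omega) (by omega))
      (h.mem _ (by omega) (by omega)) (h.mem _ (by omega) (by omega)) hyy h2.mem hΛ' ⟨hx1, hx2⟩
      hx4 hnd

/-- Two odd runs, the second one is below. -/
lemma plan_odd_d {a b y a2 b2 y2 : ℕ} (h : Run Λ a b y) (h2 : Run Λ a2 b2 y2) (hyy : y2 < y)
    (hl : a + 2 ≤ b) (ho : (a + b) % 2 = 0) (ho2 : (a2 + b2) % 2 = 0)
    (hΛ : ∀ p ∈ Λ, (p.2 = y ∧ a ≤ p.1 ∧ p.1 ≤ b) ∨ (p.2 = y2 ∧ a2 ≤ p.1 ∧ p.1 ≤ b2))
    (hN : ¬ ∃ w, Λ = star w) : Plan Λ := by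
  have l1 := h.le
  have l2 := h2.le
  have q1 := h.pos
  have q2 := h2.pos
  have hΛ' : ∀ p ∈ Λ, (p.2 = y ∧ a ≤ p.1) ∨ (p.2 = y2 ∧ a2 ≤ p.1 ∧ p.1 ≤ b2) := by
    intro p hp
    have := hΛ p hp
    omega
  obtain ⟨i, hi⟩ : ∃ i, i = (a + 1) % 2 := ⟨_, rfl⟩
  obtain ⟨x, hx1, hx2, hx3, hx4, hx5⟩ := h2.odd ho2 (i := i) (by omega)
  by_cases hnd : y2 + 1 = y ∧ (x - i) / 2 = (a + 1 - i) / 2
  · obtain ⟨hy1, hd⟩ := hnd
    by_cases hpar : (a + 2 + y) % 2 = 1
    · refine plan_one (i := i) (hu := 0) (hv := 1) (by omega) (by omega) (by omega)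
        (h.mem (a + 1) (by omega) (by omega)) ?_
      intro B K ρ s hC
      exact hC.p7d rfl (by omega) (h.mem _ (by omega) (by omega))
        (h.mem _ (by omega) (by omega)) hy1 h2.mem hΛ' ⟨hx1, hx2⟩ hx4 hd hpar
    · by_cases hb4 : a + 4 ≤ b
      · refine plan_one (i := i) (hu := 1) (hv := 0) (by omega) (by omega) (by omega)
          (h.mem (a + 3) (by omega) (by omega)) ?_
        intro B K ρ s hC
        exact hC.p6d rfl (by omega) (fun x hx hx' => h.mem x hx (by omega)) hy1 h2.mem hΛ'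
          ⟨hx1, hx2⟩ hx4 (by simp only; omega) (by omega)
      · have hb : b = a + 2 := by omega
        subst hb
        obtain ⟨j, hj⟩ : ∃ j, j = a % 2 := ⟨_, rfl⟩
        obtain ⟨x', hx1', hx2', hx3', hx4', hx5'⟩ := h2.odd ho2 (i := j) (by omega)
        by_cases hnd' : (x' - j) / 2 = (a - j) / 2
        · exfalso
          have e1 : a2 = a + 1 ∧ b2 = a + 1 := by
            clear hΛ hΛ' hx4 hx4' hx3 hx3'
            omega
          apply hN
          refine ⟨(a + 1, y), ?_⟩
          have hvn : vn (a + 1, y) = (a + 1, y2) := by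
            unfold vn
            rw [if_neg (by simp only; omega)]
            exact Prod.ext rfl (by simp only; omega)
          unfold star
          rw [hvn]
          ext p
          simp only [mem_insert_iff, mem_singleton_iff, Nat.add_sub_cancel]
          constructor
          · intro hp
            have h3 := hΛ p hp
            have h4 : (p.1 = a + 1 ∧ p.2 = y) ∨ (p.1 = a ∧ p.2 = y) ∨
                (p.1 = a + 1 + 1 ∧ p.2 = y) ∨ (p.1 = a + 1 ∧ p.2 = y2) := by omega
            rcases h4 with h4 | h4 | h4 | h4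
            · exact Or.inl (Prod.ext h4.1 h4.2)
            · exact Or.inr (Or.inl (Prod.ext h4.1 h4.2))
            · exact Or.inr (Or.inr (Or.inl (Prod.ext h4.1 h4.2)))
            · exact Or.inr (Or.inr (Or.inr (Prod.ext h4.1 h4.2)))
          · rintro (rfl | rfl | rfl | rfl)
            · exact h.mem _ (by omega) (by omega)
            · exact h.mem _ (by omega) (by omega)
            · exact h.mem _ (by omega) (by omega)
            · exact h2.mem _ (by omega) (by omega)
        · refine plan_one (i := j) (hu := 0) (hv := 0) (by omega) (by omega) (by omega)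
            (h.mem a (by omega) (by omega)) ?_
          intro B K ρ s hC
          exact hC.p8d rfl (by omega) h.mem hy1 h2.mem hΛ ⟨hx1', hx2'⟩ hx4' (x0 := x)
            ⟨hx1, hx2⟩ (by omega) hnd' (by omega)
  · refine plan_one (i := i) (hu := 0) (hv := 0) (by omega) (by omega) (by omega)
      (h.mem (a + 1) (by omega) (by omega)) ?_
    intro B K ρ s hC
    exact hC.p5d rfl (by omega) (h.mem _ (by omega) (by omega))
      (h.mem _ (by omega) (by omega)) (h.mem _ (by omega) (by omega)) hyy h2.mem hΛ' ⟨hx1, hx2⟩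
      hx4 hnd

/-- **The combinatorial theorem.** At least three locations, not a closed neighbourhood: three of
them are alone in their pairs, or a pair can be split. -/
theorem comb (hf : Λ.Finite) (hpos : ∀ p ∈ Λ, 10 ≤ p.1 ∧ 10 ≤ p.2) (h3 : 3 ≤ Λ.ncard)
    (hN : ¬ ∃ w, Λ = star w) : Det Λ ∨ Plan Λ := by
  classical
  have hne : Λ.Nonempty := by
    rw [← Set.ncard_pos hf]
    omega
  obtain ⟨p, hp⟩ := hne
  obtain ⟨a, b, hR, hp1, hp2⟩ := run_of hf hpos hp
  obtain ⟨y, hy⟩ : ∃ y, y = p.2 := ⟨_, rfl⟩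
  rw [← hy] at hR
  have l1 := hR.le
  have q1 := hR.pos
  by_cases hA : ∀ p' ∈ Λ, p'.2 = y ∧ a ≤ p'.1 ∧ p'.1 ≤ b
  · -- one run
    right
    have hl : a + 2 ≤ b := by
      by_contra hcon
      have h4 : Λ ⊆ {(a, y), (a + 1, y)} := by
        intro p' hp'
        have h5 := hA p' hp'
        have h6 : (p'.1 = a ∧ p'.2 = y) ∨ (p'.1 = a + 1 ∧ p'.2 = y) := by omega
        rcases h6 with h6 | h6
        · exact Or.inl (Prod.ext h6.1 h6.2)
        · exact Or.inr (Prod.ext h6.1 h6.2)
      have h5 := Set.ncard_le_ncard h4 (by simp)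
      have h6 := ncard_pair2 (a, y) (a + 1, y)
      omega
    refine plan_one (i := (a + 1) % 2) (hu := 0) (hv := 0) (by omega) (by omega) (by omega)
      (hR.mem (a + 1) (by omega) (by omega)) ?_
    intro B K ρ s hC
    exact hC.p1 rfl (by omega) (hR.mem _ (by omega) (by omega)) (hR.mem _ (by omega) (by omega))
      (hR.mem _ (by omega) (by omega)) (fun p' hp' _ => ⟨(hA p' hp').1, (hA p' hp').2.1⟩)
  push Not at hA
  obtain ⟨p', hp', hne⟩ := hA
  obtain ⟨a', b', hR', hp1', hp2'⟩ := run_of hf hpos hp'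
  obtain ⟨y', hy'⟩ : ∃ y', y' = p'.2 := ⟨_, rfl⟩
  rw [← hy'] at hR' hne
  have l2 := hR'.le
  have q2 := hR'.pos
  have hd : y ≠ y' ∨ b + 1 < a' ∨ b' + 1 < a := hR.dis hR' ⟨hp1', hp2'⟩ (by
    rintro ⟨h4, h5, h6⟩
    have := hne h4 h5
    omega)
  by_cases hB : ∀ p2 ∈ Λ, (p2.2 = y ∧ a ≤ p2.1 ∧ p2.1 ≤ b) ∨ (p2.2 = y' ∧ a' ≤ p2.1 ∧ p2.1 ≤ b')
  swap
  · -- three runs
    left
    push Not at hB
    obtain ⟨p2, hp2m, hne1, hne2⟩ := hB
    obtain ⟨a2, b2, hR2, hq1, hq2⟩ := run_of hf hpos hp2m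
    refine three_runs hR hR' hR2 hd (hR.dis hR2 ⟨hq1, hq2⟩ ?_) (hR'.dis hR2 ⟨hq1, hq2⟩ ?_)
    · rintro ⟨h4, h5, h6⟩
      have := hne1 h4 h5
      omega
    · rintro ⟨h4, h5, h6⟩
      have := hne2 h4 h5
      omega
  -- two runs
  rcases two_runs hR hR' hd with h4 | h4
  · exact Or.inl h4
  right
  -- not two single points
  have hbig : a < b ∨ a' < b' := by
    by_contra hcon
    have h5 : Λ ⊆ {(a, y), (a', y')} := by
      intro q hq
      have h6 := hB q hq
      have h7 : (q.1 = a ∧ q.2 = y) ∨ (q.1 = a' ∧ q.2 = y') := by omega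
      rcases h7 with h7 | h7
      · exact Or.inl (Prod.ext h7.1 h7.2)
      · exact Or.inr (Prod.ext h7.1 h7.2)
    have h6 := Set.ncard_le_ncard h5 (by simp)
    have h7 := ncard_pair2 (a, y) (a', y')
    omega
  by_cases hyy : y = y'
  · -- one row
    have key : ∀ {a b a' b' : ℕ}, Run Λ a b y → Run Λ a' b' y → b + 1 < a' →
        (((a + b) % 2 = 0 ∧ (a' + b') % 2 = 0) ∨
          ((a + b) % 2 = 1 ∧ (a' + b') % 2 = 1 ∧ (a + a') % 2 = 1)) →
        (∀ p2 ∈ Λ, p2.2 = y ∧ ((a ≤ p2.1 ∧ p2.1 ≤ b) ∨ (a' ≤ p2.1 ∧ p2.1 ≤ b'))) →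
        (a < b ∨ a' < b') → Plan Λ := by
      intro a b a' b' hR hR' hlt h4 hB hbig
      have l1 := hR.le
      have l2 := hR'.le
      have q1 := hR.pos
      by_cases h5 : a + 2 ≤ b
      · refine plan_one (i := (a + 1) % 2) (hu := 0) (hv := 0) (by omega) (by omega) (by omega)
          (hR.mem (a + 1) (by omega) (by omega)) ?_
        intro B K ρ s hC
        refine hC.p1 rfl (by omega) (hR.mem _ (by omega) (by omega))
          (hR.mem _ (by omega) (by omega)) (hR.mem _ (by omega) (by omega)) (fun p' hp' _ => ?_)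
        have := hB p' hp'
        omega
      by_cases h6 : a' + 2 ≤ b'
      · refine plan_one (i := b' % 2) (hu := 0) (hv := 0) (by omega) (by omega) (by omega)
          (hR'.mem (b' - 2) (by omega) (by omega)) ?_
        intro B K ρ s hC
        refine hC.p1' rfl (by omega) (hR'.mem _ (by omega) (by omega))
          (hR'.mem _ (by omega) (by omega)) (hR'.mem _ (by omega) (by omega))
          (fun p' hp' _ => ?_)
        have := hB p' hp'
        omega
      have h7 : b = a + 1 ∧ b' = a' + 1 ∧ (a + a') % 2 = 1 := by omega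
      obtain ⟨rfl, rfl, h8⟩ := h7
      refine plan_two (i := a % 2) (hu := 1) (hv := 0) (by omega) (by omega) (by omega)
        (hR.mem a (by omega) (by omega)) (hR'.mem a' (by omega) (by omega)) ?_
      intro B K ρ s hC
      refine hC.p2 (a := a) (x := a') rfl (by omega) (by omega) (by omega) (fun p2 => ?_)
        (Finset.mem_insert_of_mem (Finset.mem_singleton_self _))
      constructor
      · intro hp2
        have := hB p2 hp2
        omega
      · rintro ⟨g1, g2⟩
        obtain ⟨p21, p22⟩ := p2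
        simp only at g1 g2
        subst g1
        rcases g2 with rfl | rfl | rfl | rfl
        · exact hR.mem _ (by omega) (by omega)
        · exact hR.mem _ (by omega) (by omega)
        · exact hR'.mem _ (by omega) (by omega)
        · exact hR'.mem _ (by omega) (by omega)
    subst hyy
    rcases hd with h5 | h5 | h5
    · exact absurd rfl h5
    · refine key hR hR' h5 h4 ?_ hbig
      intro p2 hp2
      have := hB p2 hp2
      omega
    · refine key hR' hR h5 (by omega) ?_ (by omega)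
      intro p2 hp2
      have := hB p2 hp2
      omega
  · -- two rows
    have key : ∀ {a b a' b' y y' : ℕ}, Run Λ a b y → Run Λ a' b' y' → y ≠ y' →
        (((a + b) % 2 = 0 ∧ (a' + b') % 2 = 0) ∨
          ((a + b) % 2 = 1 ∧ (a' + b') % 2 = 1 ∧ (a + a') % 2 = 1)) →
        (∀ p2 ∈ Λ, (p2.2 = y ∧ a ≤ p2.1 ∧ p2.1 ≤ b) ∨
          (p2.2 = y' ∧ a' ≤ p2.1 ∧ p2.1 ≤ b')) → a + 2 ≤ b → Plan Λ := by
      intro a b a' b' y y' hR hR' hyy h4 hB h5
      have l1 := hR.le
      have l2 := hR'.le
      have q1 := hR.pos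
      rcases h4 with ⟨h6, h7⟩ | ⟨h6, h7, h8⟩
      · rcases Nat.lt_or_gt_of_ne hyy with h9 | h9
        · exact plan_odd_u hR hR' h9 h5 h6 h7 hB hN
        · exact plan_odd_d hR hR' h9 h5 h6 h7 hB hN
      · refine plan_one (i := (a + 1) % 2) (hu := 0) (hv := 0) (by omega) (by omega) (by omega)
          (hR.mem (a + 1) (by omega) (by omega)) ?_
        intro B K ρ s hC
        rcases Nat.lt_or_gt_of_ne hyy with h9 | h9
        · refine hC.p3u (b := b) rfl (by omega) (by omega) (by omega) hR.mem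
            (fun p2 hp2 => ?_)
          have := hB p2 hp2
          omega
        · refine hC.p3d (b := b) rfl (by omega) (by omega) (by omega) hR.mem
            (fun p2 hp2 => ?_)
          have := hB p2 hp2
          omega
    by_cases h5 : a + 2 ≤ b
    · exact key hR hR' hyy h4 hB h5
    by_cases h6 : a' + 2 ≤ b'
    · refine key hR' hR (Ne.symm hyy) (by omega) (fun p2 hp2 => (hB p2 hp2).symm) h6
    have h7 : b = a + 1 ∧ b' = a' + 1 ∧ (a + a') % 2 = 1 := by omega
    obtain ⟨rfl, rfl, h8⟩ := h7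
    refine plan_two (i := a % 2) (hu := 1) (hv := 1) (by omega) (by omega) (by omega)
      (hR.mem a (by omega) (by omega)) (hR'.mem a' (by omega) (by omega)) ?_
    intro B K ρ s hC
    refine hC.p4 (a := a) (x := a') rfl (by omega) (by omega) hyy (fun p2 => ?_)
      (Finset.mem_insert_of_mem (Finset.mem_singleton_self _))
    constructor
    · intro hp2
      have := hB p2 hp2
      omega
    · obtain ⟨p21, p22⟩ := p2
      rintro (⟨g1, g2⟩ | ⟨g1, g2⟩)
      · simp only at g1 g2
        subst g1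
        rcases g2 with rfl | rfl
        · exact hR.mem _ (by omega) (by omega)
        · exact hR.mem _ (by omega) (by omega)
      · simp only at g1 g2
        subst g1
        rcases g2 with rfl | rfl
        · exact hR'.mem _ (by omega) (by omega)
        · exact hR'.mem _ (by omega) (by omega)

end DA
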