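import Pool.Agent.DA.GlWB
import Pool.Agent.DA.GlM
import Pool.Agent.DA.WQ
import Pool.Agent.DA.RowM
import Pool.Agent.DA.BLone
import Pool.Agent.DA.WComb2

/-!
# Families of elements with three locations on the brick wall
-/

open Set BIC BICS
open scoped Matroid

namespace DA

open Gad

universe u

/-- The closure under steps of length at most `M`. -/
lemma chain_closure (N F : Finset (ℕ × ℕ)) (hF : F ⊆ N) (β M : ℕ) (hN : N.card ≤ β) :
    ∃ L ⊆ N, F ⊆ L ∧ (∀ u ∈ L, ∀ v ∈ N, sd u v ≤ M → v ∈ L) ∧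
      ∀ v ∈ L, ∃ u ∈ F, sd v u ≤ β * M := by
  classical
  obtain ⟨V, hV⟩ : ∃ V : ℕ → Finset (ℕ × ℕ), ∀ j v, v ∈ V j ↔ v ∈ N ∧ ∃ u ∈ F, sd v u ≤ j * M :=
    ⟨fun j => N.filter (fun v => ∃ u ∈ F, sd v u ≤ j * M), fun j v => Finset.mem_filter⟩
  have hmono : ∀ j, V j ⊆ V (j + 1) := by
    intro j v hv
    obtain ⟨h1, u, h2, h3⟩ := (hV _ _).1 hv
    refine (hV _ _).2 ⟨h1, u, h2, h3.trans (Nat.mul_le_mul_right _ (by omega))⟩
  obtain ⟨j, hj, hjV⟩ : ∃ j ≤ β, V j = V (j + 1) := by
    by_contra hcon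
    push Not at hcon
    have h1 : ∀ j ≤ β + 1, j ≤ (V j).card := by
      intro j
      induction j with
      | zero => intro _; exact Nat.zero_le _
      | succ n ih =>
        intro hn
        have h2 := ih (by omega)
        have h3 := Finset.card_lt_card (Finset.ssubset_iff_subset_ne.2 ⟨hmono n, hcon n (by omega)⟩)
        omega
    have h2 := h1 (β + 1) le_rfl
    have h3 := Finset.card_le_card (fun v hv => ((hV (β + 1) v).1 hv).1 : V (β + 1) ⊆ N)
    omega
  refine ⟨V j, fun v hv => ((hV j v).1 hv).1, ?_, ?_, ?_⟩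
  · intro u hu
    refine (hV _ _).2 ⟨hF hu, u, hu, ?_⟩
    rw [sd_self]
    exact Nat.zero_le _
  · intro u hu v hv huv
    obtain ⟨h1, u₀, h2, h3⟩ := (hV _ _).1 hu
    rw [hjV]
    refine (hV _ _).2 ⟨hv, u₀, h2, ?_⟩
    have h4 := sd_tri (p := v) (q := u) (r := u₀)
    rw [sd_comm (p := v) (q := u)] at h4
    rw [add_mul, one_mul]
    omega
  · intro v hv
    obtain ⟨_, u, h2, h3⟩ := (hV _ _).1 hv
    exact ⟨u, h2, h3.trans (Nat.mul_le_mul_right _ hj)⟩

lemma sd_pw {i : ℕ} (hi : i ≤ 1) (p q : ℕ × ℕ) : sd p q ≤ 2 * sd (pw i p) (pw i q) + 2 := by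
  have h1 := sd_le.1 (le_refl (sd (pw i p) (pw i q)))
  unfold pw at h1
  simp only at h1
  rw [sd_le]
  unfold pw
  omega

lemma sd_pw' {i : ℕ} (hi : i ≤ 1) (p q : ℕ × ℕ) : sd (pw i p) (pw i q) ≤ sd p q := by
  have h1 := sd_le.1 (le_refl (sd p q))
  rw [sd_le]
  unfold pw
  simp only
  omega

lemma rh_near {i : ℕ} (hi : i ≤ 1) {K : Set (ℕ × ℕ)} {τ : ℕ × ℕ → ℕ × ℕ} (hT : Tgt i K τ)
    (p : ℕ × ℕ) : sd (rh i K τ p) (pw i p) ≤ 1 := by
  unfold rh
  split_ifs with h
  · have h1 := hT p h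
    have h2 := vn_cases p
    rw [sd_le]
    unfold pw
    simp only
    rcases h1 with h1 | ⟨_, h1⟩ | ⟨_, h1⟩
    · rcases h2 with ⟨_, h2⟩ | ⟨_, h2⟩
      · rw [h1, h2]
        simp only
        omega
      · rw [h1, h2]
        simp only
        omega
    · rw [h1]
      simp only
      omega
    · rw [h1]
      simp only
      omega
  · rw [sd_self]
    omega

/-- Depth goes to the quotient. -/
lemma deep_pw {i w d : ℕ} (hi : i ≤ 1) {p : ℕ × ℕ}
    (h : DeepR (0, 0) (w + 1) (w + 1) (2 * d + 2) p) :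
    DeepR (0, 0) ((w + 1 - i) / 2) (w + 1) d (pw i p) := by
  unfold DeepR at h ⊢
  unfold pw
  simp only at h ⊢
  omega

lemma deepR_mono {X : ℕ × ℕ} {a b d d' : ℕ} {p : ℕ × ℕ} (hd : d' ≤ d) (h : DeepR X a b d p) :
    DeepR X a b d' p := by
  unfold DeepR at h ⊢
  omega

lemma deepR_near {X : ℕ × ℕ} {a b d d' : ℕ} {p q : ℕ × ℕ} (h : DeepR X a b (d + d') p)
    (hs : sd q p ≤ d') : DeepR X a b d q := by
  have h1 := sd_le.1 hs
  unfold DeepR at h ⊢
  omega

open Classical in
/-- **A family of elements with far locations which are not closed neighbourhoods.** -/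
theorem wallFam (k β D : ℕ) : ∃ m δ : ℕ, ∀ {α : Type u} (P : Matroid α) [P.Finite] (S : Set α)
    (ends : α → Sym2 (ℕ × ℕ)) (w : ℕ), Bic P S ends → WallE S ends w ∅ →
    ∀ (z : Fin m → α) (N F : Fin m → Finset (ℕ × ℕ)), (∀ t, z t ∈ P.closure S ∧ z t ∉ S) →
    (∀ t, (N t).card ≤ β) →
    (∀ t, ∀ v ∈ CWL.Loc P S ends (z t), DeepR (0, 0) (w + 1) (w + 1) D v → v ∈ N t) →
    (∀ t, 3 ≤ (F t).card ∧ ∀ v ∈ F t, v ∈ CWL.Loc P S ends (z t) ∧
      DeepR (0, 0) (w + 1) (w + 1) δ v) →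
    (∀ t, ¬ ∃ v₀, (F t : Set (ℕ × ℕ)) ⊆ star v₀ ∧ star v₀ ⊆ CWL.Loc P S ends (z t)) →
    (∀ t t', t ≠ t' → ∀ v ∈ F t, ∀ v' ∈ N t', δ ≤ sd v v') → HasUniformMinor P k := by
  obtain ⟨mA, δA, hA⟩ := glW.{u} (glM k) wquotX rowMerge (β + 2) D
  obtain ⟨mB, δB, hB'⟩ := glWB.{u} (k := k) wquotX rowMerge β D
  obtain ⟨δ₁, hδ₁⟩ : ∃ δ₁, δ₁ = max δA δB := ⟨_, rfl⟩
  obtain ⟨M, hM⟩ : ∃ M, M = 2 * δ₁ + 40 := ⟨_, rfl⟩
  obtain ⟨R, hR⟩ : ∃ R, R = 4 * δ₁ + 2 * D + 200 := ⟨_, rfl⟩
  refine ⟨4 * max mA mB, R + β * M, ?_⟩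
  intro α P _ S ends w hB hW z N₀ F hz hNc hN₀ hF hst hfar
  -- exact supports
  obtain ⟨N, hN⟩ : ∃ N : Fin (4 * max mA mB) → Finset (ℕ × ℕ), ∀ t v,
      v ∈ N t ↔ v ∈ N₀ t ∧ v ∈ CWL.Loc P S ends (z t) :=
    ⟨fun t => (N₀ t).filter (fun v => v ∈ CWL.Loc P S ends (z t)), fun t v => Finset.mem_filter⟩
  have hNN : ∀ t, N t ⊆ N₀ t := fun t v hv => ((hN t v).1 hv).1
  have hNcard : ∀ t, (N t).card ≤ β := fun t => (Finset.card_le_card (hNN t)).trans (hNc t)
  have hNl : ∀ t, ∀ v ∈ CWL.Loc P S ends (z t), DeepR (0, 0) (w + 1) (w + 1) D v → v ∈ N t :=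
    fun t v hv hd => (hN t v).2 ⟨hN₀ t v hv hd, hv⟩
  have hFN : ∀ t, F t ⊆ N t := by
    intro t v hv
    obtain ⟨h1, h2⟩ := (hF t).2 v hv
    exact hNl t v h1 (deepR_mono (by omega) h2)
  have hcl := fun t => chain_closure (N t) (F t) (hFN t) β M (hNcard t)
  choose L hL1 hL2 hL3 hL4 using hcl
  have hLd : ∀ t, ∀ v ∈ L t, DeepR (0, 0) (w + 1) (w + 1) R v := by
    intro t v hv
    obtain ⟨u, hu, h1⟩ := hL4 t v hv
    exact deepR_near ((hF t).2 u hu).2 h1
  have hLf : ∀ t t', t ≠ t' → ∀ v ∈ L t, ∀ v' ∈ N t', R ≤ sd v v' := by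
    intro t t' hne v hv v' hv'
    obtain ⟨u, hu, h1⟩ := hL4 t v hv
    have h2 := hfar t t' hne u hu v' (hNN t' hv')
    have h3 := sd_tri (p := u) (q := v) (r := v')
    rw [sd_comm (p := u) (q := v)] at h3
    omega
  have hLloc : ∀ t, ∀ v ∈ L t, v ∈ CWL.Loc P S ends (z t) := fun t v hv =>
    ((hN t v).1 (hL1 t hv)).2
  -- locations near the closure
  have hLn : ∀ t, ∀ v ∈ L t, ∀ p ∈ CWL.Loc P S ends (z t), sd p v ≤ M → p ∈ L t := by
    intro t v hv p hp hpv
    refine hL3 t v hv p (hNl t p hp ?_) (by rw [sd_comm]; exact hpv)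
    refine deepR_near (d' := M) (deepR_mono ?_ (hLd t v hv)) hpv
    omega
  -- the types
  have hcomb : ∀ t, Det (L t : Set (ℕ × ℕ)) ∨ Plan (L t : Set (ℕ × ℕ)) := by
    intro t
    refine comb (Finset.finite_toSet _) ?_ ?_ ?_
    · intro p hp
      have h1 := hLd t p hp
      unfold DeepR at h1
      simp only at h1
      omega
    · rw [Set.ncard_coe_finset]
      exact (hF t).1.trans (Finset.card_le_card (hL2 t))
    · rintro ⟨v₀, h1⟩
      refine hst t ⟨v₀, ?_, ?_⟩
      · rw [← h1]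
        exact Finset.coe_subset.2 (hL2 t)
      · rw [← h1]
        exact fun v hv => hLloc t v hv
  have htype : ∀ t : Fin (4 * max mA mB), ∃ y < 4,
      (y < 2 → ∃ p q r, p ≠ q ∧ p ≠ r ∧ q ≠ r ∧ Sg (L t : Set (ℕ × ℕ)) y p ∧
        Sg (L t : Set (ℕ × ℕ)) y q ∧ Sg (L t : Set (ℕ × ℕ)) y r) ∧
      (2 ≤ y → ∃ (κ : ℕ × ℕ) (hu hv : ℕ) (A : Finset (ℕ × ℕ)), hu ≤ 1 ∧ hv ≤ 1 ∧ κ ∈ A ∧
        A.card ≤ 2 ∧ (∀ c ∈ A, ∃ p ∈ (L t : Set (ℕ × ℕ)), ((p.1 - (y - 2)) / 2, p.2) = c) ∧
        ∀ (B K : Set (ℕ × ℕ)) (ρ : ℕ × ℕ → ℕ × ℕ) (s : ℕ),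
          Ctx (y - 2) κ hu hv (L t : Set (ℕ × ℕ)) B K ρ A s → HasLegs K B A s) := by
    intro t
    rcases hcomb t with ⟨i, hi, h1⟩ | ⟨i, κ, hu, hv, A, hi, h1⟩
    · exact ⟨i, by omega, fun _ => h1, fun h => by omega⟩
    · refine ⟨i + 2, by omega, fun h => by omega, fun _ => ?_⟩
      rw [Nat.add_sub_cancel]
      exact ⟨κ, hu, hv, A, h1⟩
  choose colF hcol1 hcol2 using htype
  obtain ⟨col, hcol⟩ : ∃ col : ℕ → ℕ, ∀ n (hn : n < 4 * max mA mB), col n = colF ⟨n, hn⟩ :=
    ⟨fun n => if hn : n < 4 * max mA mB then colF ⟨n, hn⟩ else 0,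
      fun n hn => by simp only [dif_pos hn]⟩
  obtain ⟨y, hy, hfib⟩ := fibre (max mA mB) 4 col (fun n hn => by
    rw [hcol n hn]
    exact hcol1 _) (by omega)
  have hfib' : ∀ N' ≤ max mA mB, ∃ G : Fin N' → Fin (4 * max mA mB), Function.Injective G ∧
      ∀ j, colF (G j) = y := by
    intro N' hN'
    obtain ⟨g, hg1, hg2⟩ := hfib N' hN'
    refine ⟨fun j => ⟨g j, (hg2 j).1⟩, fun a b hab => hg1 (congrArg Fin.val hab), fun j => ?_⟩
    have h1 := (hg2 j).2
    rwa [hcol _ (hg2 j).1] at h1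
  by_cases hy2 : y < 2
  · -- detection
    obtain ⟨G, hG1, hG2⟩ := hfib' mB (le_max_right _ _)
    have h1 : ∀ j, ∃ p q r, p ≠ q ∧ p ≠ r ∧ q ≠ r ∧ Sg (L (G j) : Set (ℕ × ℕ)) y p ∧
        Sg (L (G j) : Set (ℕ × ℕ)) y q ∧ Sg (L (G j) : Set (ℕ × ℕ)) y r := by
      intro j
      have h1 := (hcol2 (G j)).1
      rw [hG2 j] at h1
      exact h1 hy2
    choose p q r hpq hpr hqr hp hq hr using h1
    have hT : Tgt y (∅ : Set (ℕ × ℕ)) vn := fun p hp => absurd hp (notMem_empty _)
    -- singles are blobs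
    have hBL : ∀ j, ∀ v, Sg (L (G j) : Set (ℕ × ℕ)) y v →
        pw y v ∈ BL P S ends y ∅ vn (z (G j)) := by
      intro j v hv
      refine bl_one (by omega) hB hW hT (by intro v hv; exact absurd hv (notMem_empty _))
        (by intro p q h; exact absurd h (notMem_empty _)) (deep_pw (by omega)
        (deepR_mono (by omega) (hLd _ v hv.1))) (hz _).2 (p := v) ?_ (hLloc _ v hv.1) ?_
      · rw [mem_blob]
        unfold rh
        rw [if_neg (notMem_empty _)]
      · intro p' hp' hne hloc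
        rw [mem_blob] at hp'
        unfold rh at hp'
        rw [if_neg (notMem_empty _)] at hp'
        have h3 := sd_pw (i := y) (by omega) p' v
        rw [hp', sd_self] at h3
        have h4 := hLn _ v hv.1 p' hloc (by omega)
        apply hne
        have h5 := hv.2 p' h4
        unfold pw at hp'
        rw [Prod.mk.injEq] at hp'
        exact h5 hp'.1 hp'.2
    have hne : ∀ j, ∀ v v', Sg (L (G j) : Set (ℕ × ℕ)) y v →
        Sg (L (G j) : Set (ℕ × ℕ)) y v' → v ≠ v' → pw y v ≠ pw y v' := by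
      intro j v v' hv hv' hne h
      unfold pw at h
      rw [Prod.mk.injEq] at h
      exact hne (hv'.2 v hv.1 h.1 h.2)
    refine hB' P S ends w y vn (by omega) hB hW (fun j => z (G j))
      (fun j => N (G j)) (fun j => {pw y (p j), pw y (q j), pw y (r j)})
      (fun j => hz _) (fun j => hNcard _) (fun j => hNl _) ?_ ?_ ?_
    · intro j
      refine ⟨?_, ?_⟩
      · rw [Finset.card_insert_of_notMem, Finset.card_insert_of_notMem, Finset.card_singleton]
        · rw [Finset.mem_singleton]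
          exact hne j _ _ (hq j) (hr j) (hqr j)
        · rw [Finset.mem_insert, Finset.mem_singleton, not_or]
          exact ⟨hne j _ _ (hp j) (hq j) (hpq j), hne j _ _ (hp j) (hr j) (hpr j)⟩
      · intro b hb
        rw [Finset.mem_insert, Finset.mem_insert, Finset.mem_singleton] at hb
        rcases hb with rfl | rfl | rfl
        · exact hBL j _ (hp j)
        · exact hBL j _ (hq j)
        · exact hBL j _ (hr j)
    · intro j b hb
      have h3 : ∀ v ∈ (L (G j) : Set (ℕ × ℕ)),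
          DeepR (0, 0) ((w + 1 - y) / 2) (w + 1) δB (pw y v) := fun v hv =>
        deep_pw (by omega) (deepR_mono (by omega) (hLd _ v hv))
      rw [Finset.mem_insert, Finset.mem_insert, Finset.mem_singleton] at hb
      rcases hb with rfl | rfl | rfl
      · exact h3 _ (hp j).1
      · exact h3 _ (hq j).1
      · exact h3 _ (hr j).1
    · intro j j' hjj b hb b' hb'
      obtain ⟨v', hv', rfl⟩ := Finset.mem_image.1 hb'
      have h3 : ∀ v ∈ (L (G j) : Set (ℕ × ℕ)), δB ≤ sd (pw y v) (pw y v') := by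
        intro v hv
        have h4 := hLf _ _ (fun h => hjj (hG1 h)) v hv v' hv'
        have h5 := sd_pw (i := y) (by omega) v v'
        omega
      rw [Finset.mem_insert, Finset.mem_insert, Finset.mem_singleton] at hb
      rcases hb with rfl | rfl | rfl
      · exact h3 _ (hp j).1
      · exact h3 _ (hq j).1
      · exact h3 _ (hr j).1
  · -- a pair is split
    obtain ⟨i, hi⟩ : ∃ i, i = y - 2 := ⟨_, rfl⟩
    have hi1 : i ≤ 1 := by omega
    obtain ⟨G, hG1, hG2⟩ := hfib' mA (le_max_left _ _)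
    have h1 : ∀ j, ∃ (κ : ℕ × ℕ) (hu hv : ℕ) (A : Finset (ℕ × ℕ)), hu ≤ 1 ∧ hv ≤ 1 ∧ κ ∈ A ∧
        A.card ≤ 2 ∧ (∀ c ∈ A, ∃ p ∈ L (G j), pw i p = c) ∧
        ∀ (B K : Set (ℕ × ℕ)) (ρ : ℕ × ℕ → ℕ × ℕ) (s : ℕ),
          Ctx i κ hu hv (L (G j) : Set (ℕ × ℕ)) B K ρ A s → HasLegs K B A s := by
      intro j
      have h1 := (hcol2 (G j)).2
      rw [hG2 j, ← hi] at h1
      exact h1 (by omega)
    choose κ hu hv A hu1 hv1 hκA hAc hAL hrule using h1
    by_cases hm0 : mA = 0
    · subst hm0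
      refine hA P S ends w 0 ∅ vn ∅ (by omega) hB hW (fun p hp => by simp at hp)
        (fun p q h => absurd h (notMem_empty _)) (fun j => z (G j)) (fun j => N (G j)) A
        (fun j => j.elim0) (fun j => j.elim0) (fun j => j.elim0) (fun j => j.elim0)
        (fun j => j.elim0) (by simp) (fun j => j.elim0) (fun j => j.elim0) (fun j => j.elim0)
    obtain ⟨K, hK⟩ : ∃ K : Finset (ℕ × ℕ), ∀ v, v ∈ K ↔ ∃ j, κ j = v :=
      ⟨Finset.univ.image κ, fun v => by simp⟩
    -- distances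
    have hfarp : ∀ j j', j ≠ j' → ∀ p ∈ L (G j), ∀ v' ∈ N (G j'),
        2 * δ₁ + 90 ≤ sd (pw i p) (pw i v') := by
      intro j j' hjj p hp v' hv'
      have h2 := hLf _ _ (fun h => hjj (hG1 h)) p hp v' hv'
      have h3 := sd_pw hi1 p v'
      omega
    have hfarA : ∀ j j', j ≠ j' → ∀ b ∈ A j, ∀ v' ∈ N (G j'), 2 * δ₁ + 90 ≤ sd b (pw i v') := by
      intro j j' hjj b hb v' hv'
      obtain ⟨p, hp, rfl⟩ := hAL j b hb
      exact hfarp j j' hjj p hp v' hv'
    have hfarAA : ∀ j j', j ≠ j' → ∀ b ∈ A j, ∀ b' ∈ A j', 2 * δ₁ + 90 ≤ sd b b' := by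
      intro j j' hjj b hb b' hb'
      obtain ⟨p', hp', rfl⟩ := hAL j' b' hb'
      exact hfarA j j' hjj b hb p' (hL1 _ hp')
    have hκinj : ∀ j j', κ j = κ j' → j = j' := by
      intro j j' heq
      by_contra hne
      have h2 := hfarAA j j' hne _ (hκA j) _ (hκA j')
      rw [heq, sd_self] at h2
      omega
    -- the targets
    obtain ⟨HU, hHU⟩ : ∃ HU : ℕ × ℕ → ℕ, ∀ j, HU (κ j) = hu j := by
      refine ⟨fun b => if h : ∃ j, κ j = b then hu h.choose else 0, fun j => ?_⟩
      have h2 : ∃ j', κ j' = κ j := ⟨j, rfl⟩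
      simp only [dif_pos h2]
      rw [hκinj _ _ h2.choose_spec]
    obtain ⟨HV, hHV⟩ : ∃ HV : ℕ × ℕ → ℕ, ∀ j, HV (κ j) = hv j := by
      refine ⟨fun b => if h : ∃ j, κ j = b then hv h.choose else 0, fun j => ?_⟩
      have h2 : ∃ j', κ j' = κ j := ⟨j, rfl⟩
      simp only [dif_pos h2]
      rw [hκinj _ _ h2.choose_spec]
    obtain ⟨τ, hτ⟩ : ∃ τ : ℕ × ℕ → ℕ × ℕ, ∀ p, τ p = if (p.1 + i) % 2 = 0 then
        (if HU (pw i p) = 1 then (p.1 - 1, p.2) else vn p) else
        (if HV (pw i p) = 1 then (p.1 + 1, p.2) else vn p) := ⟨_, fun _ => rfl⟩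
    have hT : Tgt i (K : Set (ℕ × ℕ)) τ := by
      intro p _
      rw [hτ]
      split_ifs with h2 h3 h3
      · exact Or.inr (Or.inl ⟨h2, rfl⟩)
      · exact Or.inl rfl
      · exact Or.inr (Or.inr ⟨by omega, rfl⟩)
      · exact Or.inl rfl
    -- depth
    have hAd : ∀ j, ∀ c ∈ A j, DeepR (0, 0) ((w + 1 - i) / 2) (w + 1) (2 * δ₁ + 90) c := by
      intro j c hc
      obtain ⟨p, hp, rfl⟩ := hAL j c hc
      exact deep_pw hi1 (deepR_mono (by omega) (hLd _ p hp))
    have hKd : ∀ v ∈ K, DeepR (0, 0) ((w + 1 - i) / 2) (w + 1) 10 v := by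
      intro v hv
      obtain ⟨j, rfl⟩ := (hK v).1 hv
      exact deepR_mono (by omega) (hAd j _ (hκA j))
    have hKs : ∀ v ∈ (K : Set (ℕ × ℕ)), ∀ v' ∈ (K : Set (ℕ × ℕ)), v ≠ v' → 10 < sd v v' := by
      intro v hv v' hv' hne
      obtain ⟨j, rfl⟩ := (hK v).1 hv
      obtain ⟨j', rfl⟩ := (hK v').1 hv'
      have h2 := hfarAA j j' (fun h => hne (by rw [h])) _ (hκA j) _ (hκA j')
      omega
    have hmiss : ∀ p q, s(p, q) ∈ (∅ : Set (Sym2 (ℕ × ℕ))) →
        (pw i p ∈ (K : Set (ℕ × ℕ)) ∧ τ p ≠ q) ∨ (pw i q ∈ (K : Set (ℕ × ℕ)) ∧ τ q ≠ p) :=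
      fun p q h => absurd h (notMem_empty _)
    have hw40 : 40 ≤ w := by
      have h2 := hAd ⟨0, Nat.pos_of_ne_zero hm0⟩ _ (hκA _)
      unfold DeepR at h2
      simp only at h2
      omega
    refine hA P S ends w i K τ ∅ hi1 hB hW hT hmiss (fun j => z (G j)) (fun j => N (G j)) A
      (fun j => hz _) ?_ (fun j => hNl _) (fun j => ⟨_, hκA j⟩)
      (fun j b hb => deepR_mono (by omega) (hAd j b hb)) ?_ ?_ ?_ ?_
    · intro j
      have h2 := hNcard (G j)
      have h3 := hAc j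
      exact ⟨by omega, by omega⟩
    · intro v hv
      obtain ⟨j, rfl⟩ := (hK v).1 hv
      exact ⟨j, hκA j⟩
    · intro j v hv v' hv' hvA hvA'
      have h2 : ∀ v ∈ K, v ∈ A j → v = κ j := by
        intro v hv hvA
        obtain ⟨j', rfl⟩ := (hK v).1 hv
        by_contra hne
        have h3 := hfarAA j j' (fun h => hne (by rw [h])) _ hvA _ (hκA j')
        rw [sd_self] at h3
        omega
      rw [h2 v hv hvA, h2 v' hv' hvA']
    · intro j j' hjj b hb b' hb'
      rcases Finset.mem_union.1 hb' with hb' | hb'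
      · have := hfarAA j j' hjj b hb b' hb'
        omega
      · obtain ⟨v', hv', rfl⟩ := Finset.mem_image.1 hb'
        have h2 := hfarA j j' hjj b hb v' hv'
        have h3 := rh_near hi1 hT v'
        have h4 := sd_tri (p := b) (q := rh i (K : Set (ℕ × ℕ)) τ v') (r := pw i v')
        omega
    · intro j s hs hgap
      refine hrule j _ _ (rh i (K : Set (ℕ × ℕ)) τ) s ?_
      -- locations near the centres
      have hnear : ∀ c ∈ A j, ∀ p ∈ CWL.Loc P S ends (z (G j)),
          sd (rh i (K : Set (ℕ × ℕ)) τ p) c ≤ s + 2 → p ∈ L (G j) := by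
        intro c hc p hp hpc
        obtain ⟨q, hq, rfl⟩ := hAL j c hc
        have h3 := rh_near hi1 hT p
        have h4 := sd_tri (p := pw i p) (q := rh i (K : Set (ℕ × ℕ)) τ p) (r := pw i q)
        rw [sd_comm (p := pw i p) (q := rh i (K : Set (ℕ × ℕ)) τ p)] at h4
        have h5 := sd_pw hi1 p q
        exact hLn _ q hq p hp (by omega)
      refine ⟨hi1, Finset.mem_coe.2 ((hK _).2 ⟨j, rfl⟩), hκA j, ?_, ?_, ?_, ?_, ?_, ?_, ?_⟩
      · intro c hc v hv hvc
        obtain ⟨j', rfl⟩ := (hK v).1 hv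
        by_contra hne
        have h3 := hfarAA j' j (fun h => hne (by rw [h])) _ (hκA j') c hc
        omega
      · intro p hp
        have hp' : p ∈ L (G j) := hp
        have hpd := hLd _ p hp'
        have hu1j := hu1 j
        have hv1j := hv1 j
        unfold DeepR at hpd
        simp only at hpd
        by_cases hpk : pw i p = κ j
        · have h3 : rh i (K : Set (ℕ × ℕ)) τ p = pw i (τ p) := by
            unfold rh
            rw [if_pos]
            rw [hpk]
            exact Finset.mem_coe.2 ((hK _).2 ⟨j, rfl⟩)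
          rw [h3, hτ p, hpk, hHU, hHV]
          have h4 := vn_cases p
          have hk1 : (κ j).1 = (p.1 - i) / 2 := by rw [← hpk]; rfl
          have hk2 : (κ j).2 = p.2 := by rw [← hpk]; rfl
          unfold RbP
          right
          refine ⟨hk1.symm, hk2.symm, ?_⟩
          by_cases hpar : (p.1 + i) % 2 = 0
          · rw [if_pos hpar]
            by_cases h5 : hu j = 1
            · rw [if_pos h5]
              left
              refine ⟨hpar, h5, ?_, ?_⟩
              · unfold pw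
                simp only
                omega
              · exact hk2.symm
            · rw [if_neg h5]
              right; right
              refine ⟨Or.inl ⟨hpar, by omega⟩, ?_, ?_⟩
              · rcases h4 with ⟨_, h4⟩ | ⟨_, h4⟩ <;> rw [h4] <;> unfold pw <;> simp only <;> omega
              · rcases h4 with ⟨h6, h4⟩ | ⟨h6, h4⟩
                · rw [h4]
                  exact Or.inl ⟨h6, rfl⟩
                · rw [h4]
                  refine Or.inr ⟨h6, ?_⟩
                  unfold pw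
                  simp only
                  omega
          · rw [if_neg hpar]
            by_cases h5 : hv j = 1
            · rw [if_pos h5]
              right; left
              refine ⟨by omega, h5, ?_, ?_⟩
              · unfold pw
                simp only
                omega
              · exact hk2.symm
            · rw [if_neg h5]
              right; right
              refine ⟨Or.inr ⟨by omega, by omega⟩, ?_, ?_⟩
              · rcases h4 with ⟨_, h4⟩ | ⟨_, h4⟩ <;> rw [h4] <;> unfold pw <;> simp only <;> omega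
              · rcases h4 with ⟨h6, h4⟩ | ⟨h6, h4⟩
                · rw [h4]
                  exact Or.inl ⟨h6, rfl⟩
                · rw [h4]
                  refine Or.inr ⟨h6, ?_⟩
                  unfold pw
                  simp only
                  omega
        · have h3 : rh i (K : Set (ℕ × ℕ)) τ p = pw i p := by
            unfold rh
            rw [if_neg]
            intro h4
            obtain ⟨j', h5⟩ := (hK _).1 (Finset.mem_coe.1 h4)
            by_cases hjj : j' = j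
            · rw [hjj] at h5
              exact hpk h5.symm
            · have h6 := hfarA j' j hjj _ (hκA j') p (hL1 _ hp')
              rw [h5, sd_self] at h6
              omega
          rw [h3]
          left
          refine ⟨?_, rfl, rfl⟩
          by_contra hcon
          push Not at hcon
          exact hpk (Prod.ext hcon.1 hcon.2)
      · intro c hc b hb hno
        refine bl_none wquotX hi1 hw40 hB hW hT hKd (fun v hv v' hv' => hKs v hv v' hv') hmiss
          (deepR_near (d' := s + 2) (deepR_mono (by omega) (hAd j c hc)) hb) (hz _).1 (hz _).2 ?_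
        intro p hp hpl
        rw [mem_blob] at hp
        exact hno p (hnear c hc p hpl (by rw [hp]; exact hb)) hp
      · intro c hc b hb p hp hpb huniq
        refine bl_one hi1 hB hW hT hKs hmiss
          (deepR_near (d' := s + 2) (deepR_mono (by omega) (hAd j c hc)) hb) (hz _).2
          (mem_blob.2 hpb) (hLloc _ p hp) ?_
        intro p' hp' hne hpl
        rw [mem_blob] at hp'
        exact hne (huniq p' (hnear c hc p' hpl (by rw [hp']; exact hb)) hp')
      · intro c hc p hp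
        exact hgap _ (Finset.mem_union_right _ (Finset.mem_image_of_mem _ (hL1 _ hp))) c
          (Finset.mem_union_left _ hc)
      · intro c hc c' hc'
        exact hgap c (Finset.mem_union_left _ hc) c' (Finset.mem_union_left _ hc')
      · intro p hp
        have h3 := hLd _ p hp
        unfold DeepR at h3
        simp only at h3
        omega

end DA
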