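import Pool.Agent.DA.SetOmRowsW

/-!
# Connectivity of blocks of the brick wall with a hole and few missing vertices
-/

open Set Relation

namespace DA

/-- connected inside of `U` -/
def Cn (r : ℕ × ℕ → ℕ × ℕ → Prop) (U : Set (ℕ × ℕ)) (a b : ℕ × ℕ) : Prop :=
  ReflTransGen (fun x y => r x y ∧ x ∈ U ∧ y ∈ U) a b

/-- the row `y` is clean -/
def CRow (r : ℕ × ℕ → ℕ × ℕ → Prop) (U : Set (ℕ × ℕ)) (x₀ x₁ y : ℕ) : Prop :=
  ∀ x, x₀ ≤ x → x < x₁ → (x, y) ∈ U ∧ (x + 1 < x₁ → r (x, y) (x + 1, y))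

/-- the double column `x`, `x + 1` is clean -/
def CCol (r : ℕ × ℕ → ℕ × ℕ → Prop) (U : Set (ℕ × ℕ)) (y₀ y₁ x : ℕ) : Prop :=
  ∀ y, y₀ ≤ y → y < y₁ → (x, y) ∈ U ∧ (x + 1, y) ∈ U ∧ r (x, y) (x + 1, y) ∧
    (y + 1 < y₁ → (x + y) % 2 = 0 → r (x, y) (x, y + 1)) ∧
    (y + 1 < y₁ → (x + y) % 2 = 1 → r (x + 1, y) (x + 1, y + 1))

section

variable {r : ℕ × ℕ → ℕ × ℕ → Prop} {U U' : Set (ℕ × ℕ)} {a b c : ℕ × ℕ}

lemma Cn.refl : Cn r U a a := ReflTransGen.refl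

lemma Cn.trans (h : Cn r U a b) (h' : Cn r U b c) : Cn r U a c := ReflTransGen.trans h h'

lemma Cn.symm (hs : ∀ p q, r p q → r q p) (h : Cn r U a b) : Cn r U b a := by
  induction h with
  | refl => exact ReflTransGen.refl
  | tail _ h2 ih => exact ReflTransGen.head ⟨hs _ _ h2.1, h2.2.2, h2.2.1⟩ ih

lemma Cn.mono (h : Cn r U a b) (hU : U ⊆ U') : Cn r U' a b := by
  induction h with
  | refl => exact ReflTransGen.refl
  | tail _ h2 ih => exact ih.tail ⟨h2.1, hU h2.2.1, hU h2.2.2⟩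

lemma Cn.step (h : r a b) (ha : a ∈ U) (hb : b ∈ U) : Cn r U a b :=
  ReflTransGen.single ⟨h, ha, hb⟩

lemma crow_conn (hs : ∀ p q, r p q → r q p) {x₀ x₁ y : ℕ} (h : CRow r U x₀ x₁ y) {x x' : ℕ}
    (h1 : x₀ ≤ x) (h2 : x < x₁) (h3 : x₀ ≤ x') (h4 : x' < x₁) : Cn r U (x, y) (x', y) := by
  have key : ∀ d x, x₀ ≤ x → x + d < x₁ → Cn r U (x, y) (x + d, y) := by
    intro d
    induction d with
    | zero => intro x _ _; exact Cn.refl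
    | succ d ih =>
      intro x h5 h6
      have h7 := ih x h5 (by omega)
      have h8 := h (x + d) (by omega) (by omega)
      have h9 := h (x + d + 1) (by omega) (by omega)
      exact h7.trans (Cn.step (h8.2 (by omega)) h8.1 h9.1)
  rcases Nat.le_total x x' with h5 | h5
  · obtain ⟨d, rfl⟩ := Nat.exists_eq_add_of_le h5
    exact key d x h1 h4
  · obtain ⟨d, rfl⟩ := Nat.exists_eq_add_of_le h5
    exact (key d x' h3 h2).symm hs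

lemma ccol_conn (hs : ∀ p q, r p q → r q p) {y₀ y₁ x : ℕ} (h : CCol r U y₀ y₁ x) {y y' : ℕ}
    (h1 : y₀ ≤ y) (h2 : y < y₁) (h3 : y₀ ≤ y') (h4 : y' < y₁) : Cn r U (x, y) (x, y') := by
  have key : ∀ d y, y₀ ≤ y → y + d < y₁ → Cn r U (x, y) (x, y + d) := by
    intro d
    induction d with
    | zero => intro y _ _; exact Cn.refl
    | succ d ih =>
      intro y h5 h6
      have h7 := ih y h5 (by omega)
      obtain ⟨g1, g2, g3, g4, g5⟩ := h (y + d) (by omega) (by omega)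
      obtain ⟨k1, k2, k3, _, _⟩ := h (y + d + 1) (by omega) (by omega)
      refine h7.trans ?_
      rcases Nat.mod_two_eq_zero_or_one (x + (y + d)) with h8 | h8
      · exact Cn.step (g4 (by omega) h8) g1 k1
      · exact ((Cn.step g3 g1 g2).trans (Cn.step (g5 (by omega) h8) g2 k2)).trans
          (Cn.step (hs _ _ k3) k2 k1)
  rcases Nat.le_total y y' with h5 | h5
  · obtain ⟨d, rfl⟩ := Nat.exists_eq_add_of_le h5
    exact key d y h1 h4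
  · obtain ⟨d, rfl⟩ := Nat.exists_eq_add_of_le h5
    exact (key d y' h3 h2).symm hs

/-- a vertex on a clean row or on a clean double column of the rectangle -/
def OnC (r : ℕ × ℕ → ℕ × ℕ → Prop) (U : Set (ℕ × ℕ)) (x₀ x₁ y₀ y₁ : ℕ) (v : ℕ × ℕ) : Prop :=
  (x₀ ≤ v.1 ∧ v.1 < x₁ ∧ y₀ ≤ v.2 ∧ v.2 < y₁) ∧ (CRow r U x₀ x₁ v.2 ∨
    ∃ x, x₀ ≤ x ∧ x + 1 < x₁ ∧ (v.1 = x ∨ v.1 = x + 1) ∧ CCol r U y₀ y₁ x)

/-- All clean rows and columns are connected. -/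
lemma onC_conn (hs : ∀ p q, r p q → r q p) {x₀ x₁ y₀ y₁ xc yc : ℕ} (hyc : y₀ ≤ yc ∧ yc < y₁)
    (hxc : x₀ ≤ xc ∧ xc + 1 < x₁) (hrow : CRow r U x₀ x₁ yc) (hcol : CCol r U y₀ y₁ xc)
    {v : ℕ × ℕ} (hv : OnC r U x₀ x₁ y₀ y₁ v) : Cn r U v (xc, yc) := by
  obtain ⟨x, y⟩ := v
  obtain ⟨⟨h1, h2, h3, h4⟩, h5 | ⟨x', h6, h7, h8, h9⟩⟩ := hv
  · exact (crow_conn hs h5 h1 h2 hxc.1 (by omega)).trans
      (ccol_conn hs hcol h3 h4 hyc.1 hyc.2)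
  · have h10 : Cn r U (x, y) (x', y) := by
      simp only at h8 h3 h4
      obtain ⟨g1, g2, g3, _⟩ := h9 y h3 h4
      rcases h8 with h8 | h8
      · rw [h8]
        exact Cn.refl
      · rw [h8]
        exact Cn.step (hs _ _ g3) g2 g1
    exact (h10.trans (ccol_conn hs h9 h3 h4 hyc.1 hyc.2)).trans
      (crow_conn hs hrow h6 (by omega) hxc.1 (by omega))

/-- A walk which leaves a box meets its boundary. -/
lemma cross_box (hw : ∀ p q, r p q → wadj p q) {a b c d : ℕ} {l x' : ℕ × ℕ}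
    (h1 : a < l.1 ∧ l.1 < b ∧ c < l.2 ∧ l.2 < d) {C : Set (ℕ × ℕ)}
    (hU : ∀ v : ℕ × ℕ, a ≤ v.1 → v.1 ≤ b → c ≤ v.2 → v.2 ≤ d → v ∉ C → v ∈ U)
    (hx' : ¬ (a < x'.1 ∧ x'.1 < b ∧ c < x'.2 ∧ x'.2 < d))
    (hwalk : Cn r Cᶜ l x') : ∃ v, Cn r U l v ∧ (a ≤ v.1 ∧ v.1 ≤ b ∧ c ≤ v.2 ∧ v.2 ≤ d) ∧
      (v.1 = a ∨ v.1 = b ∨ v.2 = c ∨ v.2 = d) := by
  have key : ((a < x'.1 ∧ x'.1 < b ∧ c < x'.2 ∧ x'.2 < d) ∧ Cn r U l x') ∨
      ∃ v, Cn r U l v ∧ (a ≤ v.1 ∧ v.1 ≤ b ∧ c ≤ v.2 ∧ v.2 ≤ d) ∧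
      (v.1 = a ∨ v.1 = b ∨ v.2 = c ∨ v.2 = d) := by
    clear hx'
    induction hwalk with
    | refl => exact Or.inl ⟨h1, Cn.refl⟩
    | @tail u v _ h3 ih =>
      rcases ih with ⟨h4, h5⟩ | h4
      · obtain ⟨h6, h7, h8⟩ := h3
        have h9 := hw _ _ h6
        have h10 : a ≤ v.1 ∧ v.1 ≤ b ∧ c ≤ v.2 ∧ v.2 ≤ d := by
          unfold wadj at h9
          omega
        have h11 : Cn r U l v := h5.trans (Cn.step h6
          (hU u (by omega) (by omega) (by omega) (by omega) h7)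
          (hU v h10.1 h10.2.1 h10.2.2.1 h10.2.2.2 h8))
        by_cases h12 : a < v.1 ∧ v.1 < b ∧ c < v.2 ∧ v.2 < d
        · exact Or.inl ⟨h12, h11⟩
        · exact Or.inr ⟨v, h11, h10, by omega⟩
      · exact Or.inr h4
  rcases key with h2 | h2
  · exact absurd h2.1 hx'
  · exact h2

/-- A rectangle of the wall with one hole (the ball of radius `R` around `o`). -/
structure Bx (r : ℕ × ℕ → ℕ × ℕ → Prop) (x₀ x₁ y₀ y₁ : ℕ) (o : ℕ × ℕ) (R : ℕ) : Prop where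
  sym : ∀ p q, r p q → r q p
  wad : ∀ p q, r p q → wadj p q
  pres : ∀ p q, wadj p q → (x₀ ≤ p.1 + 1 ∧ p.1 ≤ x₁ ∧ y₀ ≤ p.2 + 1 ∧ p.2 ≤ y₁) →
    (x₀ ≤ q.1 + 1 ∧ q.1 ≤ x₁ ∧ y₀ ≤ q.2 + 1 ∧ q.2 ≤ y₁) → ¬ (sd p o ≤ R ∧ sd q o ≤ R) → r p q
  o_in : x₀ + R + 3 ≤ o.1 ∧ o.1 + R + 3 ≤ x₁ ∧ y₀ + R + 3 ≤ o.2 ∧ o.2 + R + 3 ≤ y₁
  pos : 1 ≤ x₀ ∧ 1 ≤ y₀

lemma wadj_r {x y : ℕ} : wadj (x, y) (x + 1, y) := Or.inl ⟨rfl, Or.inl rfl⟩

lemma wadj_u {x y : ℕ} (h : (x + y) % 2 = 0) : wadj (x, y) (x, y + 1) :=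
  Or.inr ⟨rfl, Or.inl ⟨rfl, h⟩⟩

/-- the vertices of the rectangle outside of `C` -/
def rc (x₀ x₁ y₀ y₁ : ℕ) (C : Set (ℕ × ℕ)) : Set (ℕ × ℕ) :=
  {v | (x₀ ≤ v.1 ∧ v.1 < x₁ ∧ y₀ ≤ v.2 ∧ v.2 < y₁) ∧ v ∉ C}

lemma Bx.row {x₀ x₁ y₀ y₁ R : ℕ} {o : ℕ × ℕ} (h : Bx r x₀ x₁ y₀ y₁ o R) {C : Set (ℕ × ℕ)} {y : ℕ}
    (h1 : y₀ ≤ y ∧ y < y₁) (h2 : y + R < o.2 ∨ o.2 + R < y) (h3 : ∀ x, (x, y) ∉ C) :
    CRow r (rc x₀ x₁ y₀ y₁ C) x₀ x₁ y := by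
  intro x hx hx'
  refine ⟨⟨⟨hx, hx', h1.1, h1.2⟩, h3 x⟩, fun h4 => ?_⟩
  refine h.pres _ _ wadj_r ⟨?_, ?_, ?_, ?_⟩ ⟨?_, ?_, ?_, ?_⟩ ?_
  · show x₀ ≤ x + 1
    omega
  · show x ≤ x₁
    omega
  · show y₀ ≤ y + 1
    omega
  · show y ≤ y₁
    omega
  · show x₀ ≤ x + 1 + 1
    omega
  · show x + 1 ≤ x₁
    omega
  · show y₀ ≤ y + 1
    omega
  · show y ≤ y₁
    omega
  · rintro ⟨h5, _⟩
    rw [sd_le] at h5
    simp only at h5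
    omega

lemma Bx.col {x₀ x₁ y₀ y₁ R : ℕ} {o : ℕ × ℕ} (h : Bx r x₀ x₁ y₀ y₁ o R) {C : Set (ℕ × ℕ)} {x : ℕ}
    (h1 : x₀ ≤ x ∧ x + 1 < x₁) (h2 : x + 1 + R < o.1 ∨ o.1 + R < x)
    (h3 : ∀ y, (x, y) ∉ C ∧ (x + 1, y) ∉ C) :
    CCol r (rc x₀ x₁ y₀ y₁ C) y₀ y₁ x := by
  intro y hy hy'
  have hn : ∀ a b : ℕ, x ≤ a → a ≤ x + 1 → ¬ sd (a, b) o ≤ R := by
    intro a b h4 h5 h6
    rw [sd_le] at h6
    simp only at h6
    omega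
  have hb : ∀ a b : ℕ, x ≤ a → a ≤ x + 1 → y ≤ b → b ≤ y + 1 →
      (x₀ ≤ (a, b).1 + 1 ∧ (a, b).1 ≤ x₁ ∧ y₀ ≤ (a, b).2 + 1 ∧ (a, b).2 ≤ y₁) := by
    intro a b h4 h5 h6 h7
    simp only
    omega
  refine ⟨⟨⟨h1.1, ?_, hy, hy'⟩, (h3 y).1⟩, ⟨⟨?_, h1.2, hy, hy'⟩, (h3 y).2⟩, ?_, fun _ h5 => ?_,
    fun _ h5 => ?_⟩
  · show x < x₁
    omega
  · show x₀ ≤ x + 1
    omega
  · exact h.pres _ _ wadj_r (hb _ _ (by omega) (by omega) (by omega) (by omega))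
      (hb _ _ (by omega) (by omega) (by omega) (by omega))
      (fun h6 => hn _ _ (by omega) (by omega) h6.1)
  · exact h.pres _ _ (wadj_u h5) (hb _ _ (by omega) (by omega) (by omega) (by omega))
      (hb _ _ (by omega) (by omega) (by omega) (by omega))
      (fun h6 => hn _ _ (by omega) (by omega) h6.1)
  · exact h.pres _ _ (wadj_u (by omega)) (hb _ _ (by omega) (by omega) (by omega) (by omega))
      (hb _ _ (by omega) (by omega) (by omega) (by omega))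
      (fun h6 => hn _ _ (by omega) (by omega) h6.1)

/-- side neighbours -/
def SdA (r : ℕ × ℕ → ℕ × ℕ → Prop) (x₀ x₁ y₀ y₁ d : ℕ) (u : ℕ × ℕ) : Prop :=
  ∃ u', r u u' ∧ ((d = 0 ∧ u'.1 + 1 = x₀ ∧ y₀ ≤ u'.2 ∧ u'.2 < y₁) ∨
    (d = 1 ∧ u'.1 = x₁ ∧ y₀ ≤ u'.2 ∧ u'.2 < y₁) ∨ (d = 2 ∧ u'.2 = y₁ ∧ x₀ ≤ u'.1 ∧ u'.1 < x₁) ∨
    (d = 3 ∧ u'.2 + 1 = y₀ ∧ x₀ ≤ u'.1 ∧ u'.1 < x₁))

/-- from a clean row and a clean column to every side -/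
lemma Bx.side {x₀ x₁ y₀ y₁ R : ℕ} {o : ℕ × ℕ} (h : Bx r x₀ x₁ y₀ y₁ o R) {C : Set (ℕ × ℕ)}
    {xc yc : ℕ} (hyc : y₀ ≤ yc ∧ yc < y₁) (hxc : x₀ ≤ xc ∧ xc + 1 < x₁)
    (_h1 : yc + R < o.2 ∨ o.2 + R < yc) (_h2 : xc + 1 + R < o.1 ∨ o.1 + R < xc)
    (hrow : CRow r (rc x₀ x₁ y₀ y₁ C) x₀ x₁ yc)
    (hcol : CCol r (rc x₀ x₁ y₀ y₁ C) y₀ y₁ xc) {d : ℕ} (hd : d < 4) :
    ∃ u, Cn r (rc x₀ x₁ y₀ y₁ C) (xc, yc) u ∧ SdA r x₀ x₁ y₀ y₁ d u ∧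
      u ∈ rc x₀ x₁ y₀ y₁ C := by
  have ho := h.o_in
  have hp := h.pos
  have hd' : d = 0 ∨ d = 1 ∨ d = 2 ∨ d = 3 := by omega
  rcases hd' with rfl | rfl | rfl | rfl
  · refine ⟨(x₀, yc), crow_conn h.sym hrow hxc.1 (by omega) le_rfl (by omega), ⟨(x₀ - 1, yc), ?_,
      Or.inl ⟨rfl, ?_, hyc.1, hyc.2⟩⟩, (hrow x₀ le_rfl (by omega)).1⟩
    · refine h.sym _ _ (h.pres _ _ ?_ ⟨?_, ?_, ?_, ?_⟩ ⟨?_, ?_, ?_, ?_⟩ ?_)
      · have := @wadj_r (x₀ - 1) yc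
        rwa [Nat.sub_add_cancel hp.1] at this
      · show x₀ ≤ x₀ - 1 + 1
        omega
      · show x₀ - 1 ≤ x₁
        omega
      · show y₀ ≤ yc + 1
        omega
      · show yc ≤ y₁
        omega
      · show x₀ ≤ x₀ + 1
        omega
      · show x₀ ≤ x₁
        omega
      · show y₀ ≤ yc + 1
        omega
      · show yc ≤ y₁
        omega
      · rintro ⟨h5, _⟩
        rw [sd_le] at h5
        simp only at h5
        omega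
    · show x₀ - 1 + 1 = x₀
      omega
  · refine ⟨(x₁ - 1, yc), crow_conn h.sym hrow hxc.1 (by omega) (by omega) (by omega),
      ⟨(x₁, yc), ?_, Or.inr (Or.inl ⟨rfl, rfl, hyc.1, hyc.2⟩)⟩,
      (hrow (x₁ - 1) (by omega) (by omega)).1⟩
    refine h.pres _ _ ?_ ⟨?_, ?_, ?_, ?_⟩ ⟨?_, ?_, ?_, ?_⟩ ?_
    · have := @wadj_r (x₁ - 1) yc
      rwa [Nat.sub_add_cancel (by omega : 1 ≤ x₁)] at this
    · show x₀ ≤ x₁ - 1 + 1
      omega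
    · show x₁ - 1 ≤ x₁
      omega
    · show y₀ ≤ yc + 1
      omega
    · show yc ≤ y₁
      omega
    · show x₀ ≤ x₁ + 1
      omega
    · show x₁ ≤ x₁
      omega
    · show y₀ ≤ yc + 1
      omega
    · show yc ≤ y₁
      omega
    · rintro ⟨h5, _⟩
      rw [sd_le] at h5
      simp only at h5
      omega
  · -- above
    obtain ⟨g1, g2, g3, _, _⟩ := hcol (y₁ - 1) (by omega) (by omega)
    have h3 := ccol_conn h.sym hcol hyc.1 hyc.2 (y' := y₁ - 1) (by omega) (by omega)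
    obtain ⟨a, ha, ha2, ha3⟩ : ∃ a, (a = xc ∨ a = xc + 1) ∧ (a + (y₁ - 1)) % 2 = 0 ∧
        Cn r (rc x₀ x₁ y₀ y₁ C) (xc, y₁ - 1) (a, y₁ - 1) := by
      rcases Nat.mod_two_eq_zero_or_one (xc + (y₁ - 1)) with h8 | h8
      · exact ⟨xc, Or.inl rfl, h8, Cn.refl⟩
      · exact ⟨xc + 1, Or.inr rfl, by omega, Cn.step g3 g1 g2⟩
    refine ⟨(a, y₁ - 1), h3.trans ha3, ⟨(a, y₁), ?_, Or.inr (Or.inr (Or.inl ⟨rfl, rfl, ?_, ?_⟩))⟩,
      ?_⟩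
    · refine h.pres _ _ ?_ ⟨?_, ?_, ?_, ?_⟩ ⟨?_, ?_, ?_, ?_⟩ ?_
      · have := @wadj_u a (y₁ - 1) ha2
        rwa [Nat.sub_add_cancel (by omega : 1 ≤ y₁)] at this
      · show x₀ ≤ a + 1
        omega
      · show a ≤ x₁
        omega
      · show y₀ ≤ y₁ - 1 + 1
        omega
      · show y₁ - 1 ≤ y₁
        omega
      · show x₀ ≤ a + 1
        omega
      · show a ≤ x₁
        omega
      · show y₀ ≤ y₁ + 1
        omega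
      · show y₁ ≤ y₁
        omega
      · rintro ⟨h5, _⟩
        rw [sd_le] at h5
        simp only at h5
        omega
    · show x₀ ≤ a
      omega
    · show a < x₁
      omega
    · rcases ha with rfl | rfl
      · exact g1
      · exact g2
  · -- below
    obtain ⟨g1, g2, g3, _, _⟩ := hcol y₀ le_rfl (by omega)
    have h3 := ccol_conn h.sym hcol hyc.1 hyc.2 (y' := y₀) (by omega) (by omega)
    obtain ⟨a, ha, ha2, ha3⟩ : ∃ a, (a = xc ∨ a = xc + 1) ∧ (a + (y₀ - 1)) % 2 = 0 ∧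
        Cn r (rc x₀ x₁ y₀ y₁ C) (xc, y₀) (a, y₀) := by
      rcases Nat.mod_two_eq_zero_or_one (xc + (y₀ - 1)) with h8 | h8
      · exact ⟨xc, Or.inl rfl, h8, Cn.refl⟩
      · exact ⟨xc + 1, Or.inr rfl, by omega, Cn.step g3 g1 g2⟩
    refine ⟨(a, y₀), h3.trans ha3, ⟨(a, y₀ - 1), ?_, Or.inr (Or.inr (Or.inr ⟨rfl, ?_, ?_, ?_⟩))⟩,
      ?_⟩
    · refine h.sym _ _ (h.pres _ _ ?_ ⟨?_, ?_, ?_, ?_⟩ ⟨?_, ?_, ?_, ?_⟩ ?_)
      · have := @wadj_u a (y₀ - 1) ha2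
        rwa [Nat.sub_add_cancel hp.2] at this
      · show x₀ ≤ a + 1
        omega
      · show a ≤ x₁
        omega
      · show y₀ ≤ y₀ - 1 + 1
        omega
      · show y₀ - 1 ≤ y₁
        omega
      · show x₀ ≤ a + 1
        omega
      · show a ≤ x₁
        omega
      · show y₀ ≤ y₀ + 1
        omega
      · show y₀ ≤ y₁
        omega
      · rintro ⟨h5, _⟩
        rw [sd_le] at h5
        simp only at h5
        omega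
    · show y₀ - 1 + 1 = y₀
      omega
    · show x₀ ≤ a
      omega
    · show a < x₁
      omega
    · rcases ha with rfl | rfl
      · exact g1
      · exact g2

/-- a number outside of a finite set, in steps of two -/
lemma good_step (T : Finset ℕ) (x : ℕ) : ∃ j ≤ T.card, x + 2 * j ∉ T ∧ x + 2 * j + 1 ∉ T := by
  classical
  by_contra hcon
  push Not at hcon
  have h1 : ∀ j ∈ Finset.range (T.card + 1), ∃ a ∈ T, (a - x) / 2 = j := by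
    intro j hj
    rw [Finset.mem_range] at hj
    by_cases h2 : x + 2 * j ∈ T
    · exact ⟨_, h2, by omega⟩
    · exact ⟨_, hcon j (by omega) h2, by omega⟩
  have h2 : Finset.range (T.card + 1) ⊆ T.image (fun a => (a - x) / 2) := by
    intro j hj
    obtain ⟨a, ha, h3⟩ := h1 j hj
    exact Finset.mem_image.2 ⟨a, ha, h3⟩
  have h3 := (Finset.card_le_card h2).trans Finset.card_image_le
  rw [Finset.card_range] at h3
  omega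

/-- The radius. -/
def RE (R : ℕ) : ℕ := 8 * R + 40

/-- **Escape.** A walk from `l` to a vertex at distance `RE R` which avoids at most `3` vertices
shows that `l` is connected to every side of the rectangle, avoiding these vertices. -/
theorem Bx.esc {x₀ x₁ y₀ y₁ R : ℕ} {o : ℕ × ℕ} (h : Bx r x₀ x₁ y₀ y₁ o R) (C : Finset (ℕ × ℕ))
    (hC : C.card ≤ 3) {l x' : ℕ × ℕ}
    (hl : x₀ + RE R ≤ l.1 ∧ l.1 + RE R < x₁ ∧ y₀ + RE R ≤ l.2 ∧ l.2 + RE R < y₁)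
    (hwalk : Cn r (C : Set (ℕ × ℕ))ᶜ l x') (hx' : RE R ≤ sd x' l) :
    ∃ xc yc, (y₀ ≤ yc ∧ yc < y₁) ∧ (x₀ ≤ xc ∧ xc + 1 < x₁) ∧ (yc + R < o.2 ∨ o.2 + R < yc) ∧
      (xc + 1 + R < o.1 ∨ o.1 + R < xc) ∧ CRow r (rc x₀ x₁ y₀ y₁ (C : Set (ℕ × ℕ))) x₀ x₁ yc ∧
      CCol r (rc x₀ x₁ y₀ y₁ (C : Set (ℕ × ℕ))) y₀ y₁ xc ∧
      Cn r (rc x₀ x₁ y₀ y₁ (C : Set (ℕ × ℕ))) l (xc, yc) := by
  classical
  unfold RE at hl hx'
  -- bad rows and columns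
  obtain ⟨Ty, hTy⟩ : ∃ Ty : Finset ℕ, Ty = C.image Prod.snd ∪ Finset.Icc (o.2 - R) (o.2 + R) :=
    ⟨_, rfl⟩
  obtain ⟨Tx, hTx⟩ : ∃ Tx : Finset ℕ, Tx = C.image Prod.fst ∪ Finset.Icc (o.1 - R) (o.1 + R) :=
    ⟨_, rfl⟩
  have hcy : Ty.card ≤ 2 * R + 4 := by
    rw [hTy]
    refine (Finset.card_union_le _ _).trans ?_
    have h1 := Finset.card_image_le (s := C) (f := Prod.snd)
    rw [Nat.card_Icc]
    omega
  have hcx : Tx.card ≤ 2 * R + 4 := by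
    rw [hTx]
    refine (Finset.card_union_le _ _).trans ?_
    have h1 := Finset.card_image_le (s := C) (f := Prod.fst)
    rw [Nat.card_Icc]
    omega
  have hny : ∀ y, y ∉ Ty → (y + R < o.2 ∨ o.2 + R < y) ∧ ∀ x, (x, y) ∉ (C : Set (ℕ × ℕ)) := by
    intro y hy
    rw [hTy, Finset.mem_union, not_or, Finset.mem_Icc] at hy
    refine ⟨by omega, fun x hx => hy.1 (Finset.mem_image.2 ⟨(x, y), hx, rfl⟩)⟩
  have hnx : ∀ x, x ∉ Tx → (x + R < o.1 ∨ o.1 + R < x) ∧ ∀ y, (x, y) ∉ (C : Set (ℕ × ℕ)) := by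
    intro x hx
    rw [hTx, Finset.mem_union, not_or, Finset.mem_Icc] at hx
    refine ⟨by omega, fun y hy => hx.1 (Finset.mem_image.2 ⟨(x, y), hy, rfl⟩)⟩
  obtain ⟨j1, hj1, hj1', _⟩ := good_step Ty (l.2 + 1)
  obtain ⟨j2, hj2, hj2', _⟩ := good_step Ty (l.2 - (4 * R + 12))
  obtain ⟨j3, hj3, hj3', hj3''⟩ := good_step Tx (l.1 + 1)
  obtain ⟨j4, hj4, hj4', hj4''⟩ := good_step Tx (l.1 - (4 * R + 12))
  obtain ⟨d, hd⟩ : ∃ d, d = l.2 + 1 + 2 * j1 := ⟨_, rfl⟩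
  obtain ⟨c, hc⟩ : ∃ c, c = l.2 - (4 * R + 12) + 2 * j2 := ⟨_, rfl⟩
  obtain ⟨b, hb⟩ : ∃ b, b = l.1 + 1 + 2 * j3 := ⟨_, rfl⟩
  obtain ⟨a, ha⟩ : ∃ a, a = l.1 - (4 * R + 12) + 2 * j4 := ⟨_, rfl⟩
  rw [← hd] at hj1'
  rw [← hc] at hj2'
  rw [← hb] at hj3' hj3''
  rw [← ha] at hj4' hj4''
  have hrowd := h.row (C := (C : Set (ℕ × ℕ))) (y := d) (by omega) (hny d hj1').1 (hny d hj1').2
  have hrowc := h.row (C := (C : Set (ℕ × ℕ))) (y := c) (by omega) (hny c hj2').1 (hny c hj2').2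
  have hcolb := h.col (C := (C : Set (ℕ × ℕ))) (x := b) (by omega)
    (by have := (hnx b hj3').1; have := (hnx _ hj3'').1; omega)
    (fun y => ⟨(hnx b hj3').2 y, (hnx _ hj3'').2 y⟩)
  have hcola := h.col (C := (C : Set (ℕ × ℕ))) (x := a) (by omega)
    (by have := (hnx a hj4').1; have := (hnx _ hj4'').1; omega)
    (fun y => ⟨(hnx a hj4').2 y, (hnx _ hj4'').2 y⟩)
  obtain ⟨v, hv1, hv2, hv3⟩ := cross_box h.wad (U := rc x₀ x₁ y₀ y₁ (C : Set (ℕ × ℕ)))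
    (a := a + 1) (b := b) (c := c) (d := d) (l := l) (x' := x') (by omega)
    (C := (C : Set (ℕ × ℕ))) (by
      intro v g1 g2 g3 g4 g5
      exact ⟨⟨by omega, by omega, by omega, by omega⟩, g5⟩) (by
      intro g1
      have g2 : ¬ sd x' l ≤ 8 * R + 39 := by omega
      apply g2
      rw [sd_le]
      omega) hwalk
  have hon : OnC r (rc x₀ x₁ y₀ y₁ (C : Set (ℕ × ℕ))) x₀ x₁ y₀ y₁ v := by
    refine ⟨⟨by omega, by omega, by omega, by omega⟩, ?_⟩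
    rcases hv3 with g1 | g1 | g1 | g1
    · exact Or.inr ⟨a, by omega, by omega, Or.inr g1, hcola⟩
    · exact Or.inr ⟨b, by omega, by omega, Or.inl g1, hcolb⟩
    · exact Or.inl (by rw [g1]; exact hrowc)
    · exact Or.inl (by rw [g1]; exact hrowd)
  refine ⟨b, d, by omega, by omega, (hny d hj1').1, ?_, hrowd, hcolb, ?_⟩
  · have := (hnx b hj3').1
    have := (hnx _ hj3'').1
    omega
  · exact hv1.trans (onC_conn h.sym (by omega) (by omega) hrowd hcolb hon)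

end

end DA
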