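import Pool.Agent.DA.MDefs

/-!
# Rules for the legs on the brick wall: the interface
-/

open Set
open scoped Matroid

namespace DA

/-- The blob `b` of the vertex `p`, next to the split pair `κ`; `hu = 1`: the left half goes to
the left, `hu = 0`: vertical; `hv` for the right half. -/
def RbP (i : ℕ) (κ : ℕ × ℕ) (hu hv : ℕ) (p b : ℕ × ℕ) : Prop :=
  (((p.1 - i) / 2 ≠ κ.1 ∨ p.2 ≠ κ.2) ∧ b.1 = (p.1 - i) / 2 ∧ b.2 = p.2) ∨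
  ((p.1 - i) / 2 = κ.1 ∧ p.2 = κ.2 ∧
    (((p.1 + i) % 2 = 0 ∧ hu = 1 ∧ b.1 + 1 = κ.1 ∧ b.2 = κ.2) ∨
     ((p.1 + i) % 2 = 1 ∧ hv = 1 ∧ b.1 = κ.1 + 1 ∧ b.2 = κ.2) ∨
     ((((p.1 + i) % 2 = 0 ∧ hu = 0) ∨ ((p.1 + i) % 2 = 1 ∧ hv = 0)) ∧ b.1 = κ.1 ∧
       (((p.1 + p.2) % 2 = 0 ∧ b.2 = p.2 + 1) ∨ ((p.1 + p.2) % 2 = 1 ∧ b.2 + 1 = p.2)))))

/-- The situation of one element: locations `Λ`, the set `B` of the located blobs, missing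
vertices `K`, blob map `ρ`, centres `A`, scale `s`. -/
structure Ctx (i : ℕ) (κ : ℕ × ℕ) (hu hv : ℕ) (Λ B K : Set (ℕ × ℕ)) (ρ : ℕ × ℕ → ℕ × ℕ)
    (A : Finset (ℕ × ℕ)) (s : ℕ) : Prop where
  hi : i ≤ 1
  kk : κ ∈ K
  kA : κ ∈ A
  hk : ∀ c ∈ A, ∀ v ∈ K, sd v c ≤ s + 3 → v = κ
  rh : ∀ p ∈ Λ, RbP i κ hu hv p (ρ p)
  none : ∀ c ∈ A, ∀ b, sd b c ≤ s + 2 → (∀ p ∈ Λ, ρ p ≠ b) → b ∉ B
  one : ∀ c ∈ A, ∀ b, sd b c ≤ s + 2 → ∀ p ∈ Λ, ρ p = b → (∀ p' ∈ Λ, ρ p' = b → p' = p) → b ∈ B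
  gap : ∀ c ∈ A, ∀ p ∈ Λ, sd (ρ p) c ≤ s ∨ 2 * s + 10 < sd (ρ p) c
  gapA : ∀ c ∈ A, ∀ c' ∈ A, sd c c' ≤ s ∨ 2 * s + 10 < sd c c'
  pos : ∀ p ∈ Λ, 10 ≤ p.1 ∧ 10 ≤ p.2

/-- One leg in the direction `d` from `st`, the location is `pt`. -/
structure Dir (κ : ℕ × ℕ) (Λ : Set (ℕ × ℕ)) (ρ : ℕ × ℕ → ℕ × ℕ) (c : ℕ × ℕ) (s d : ℕ)
    (st pt : ℕ × ℕ) : Prop where
  near : sd st c ≤ s + 1
  loc : pt ∈ Λ
  re : (st = κ ∧ ρ pt = stp d κ) ∨ (st ≠ κ ∧ ρ pt = st)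
  uniq : ∀ p ∈ Λ, ray d st (ρ p) → sd (ρ p) c ≤ s + 2 → p = pt
  kray : sd κ c ≤ s → ray d st κ → κ = st

lemma ray_stp {d : ℕ} (hd : d < 4) (v : ℕ × ℕ) : ray d v (stp d v) := by
  have h : d = 0 ∨ d = 1 ∨ d = 2 ∨ d = 3 := by omega
  unfold ray stp
  rcases h with rfl | rfl | rfl | rfl <;> simp

lemma sd_stp {d : ℕ} (v c : ℕ × ℕ) : sd (stp d v) c ≤ sd v c + 1 := by
  have h := sd_le.1 (le_refl (sd v c))
  refine sd_le.2 ?_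
  unfold stp
  split_ifs <;> simp only <;> omega

lemma ray_self {d : ℕ} (hd : d < 4) (v : ℕ × ℕ) : ray d v v := by
  have h : d = 0 ∨ d = 1 ∨ d = 2 ∨ d = 3 := by omega
  unfold ray
  rcases h with rfl | rfl | rfl | rfl <;> simp

section

variable {i : ℕ} {κ : ℕ × ℕ} {hu hv : ℕ} {Λ B K : Set (ℕ × ℕ)} {ρ : ℕ × ℕ → ℕ × ℕ}
  {A : Finset (ℕ × ℕ)} {s : ℕ}

/-- **Legs from directions.** -/
theorem Ctx.legs (h : Ctx i κ hu hv Λ B K ρ A s) {c : ℕ × ℕ} (hc : c ∈ A) {T : ℕ → Prop}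
    {st pt : ℕ → ℕ × ℕ} (hd : ∀ d < 4, T d → Dir κ Λ ρ c s d (st d) (pt d))
    (dis : ∀ d < 4, ∀ d' < 4, T d → T d' → d < d' → ∀ v, ray d (st d) v → ¬ ray d' (st d') v)
    (kst : sd κ c ≤ s → ∃ d < 4, T d ∧ st d = κ) : Legs K B c s T st := by
  classical
  have hreal : ∀ d < 4, T d → real K d (st d) = ρ (pt d) := by
    intro d hd4 hT
    have h1 := hd d hd4 hT
    unfold real
    by_cases hK : st d ∈ K
    · rw [if_pos hK]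
      have h2 := h.hk c hc _ hK (by have := h1.near; omega)
      rcases h1.re with ⟨_, h3⟩ | ⟨h3, _⟩
      · rw [h2, h3]
      · exact absurd h2 h3
    · rw [if_neg hK]
      rcases h1.re with ⟨h2, _⟩ | ⟨_, h3⟩
      · exact absurd (h2 ▸ h.kk) hK
      · exact h3.symm
  have hrn : ∀ d < 4, T d → sd (ρ (pt d)) c ≤ s + 2 ∧ ray d (st d) (ρ (pt d)) := by
    intro d hd4 hT
    have h1 := hd d hd4 hT
    have h2 := h1.near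
    rcases h1.re with ⟨h3, h4⟩ | ⟨_, h4⟩
    · rw [h4, h3]
      have h5 := sd_stp (d := d) κ c
      rw [h3] at h2
      exact ⟨by omega, ray_stp hd4 κ⟩
    · rw [h4]
      exact ⟨by omega, ray_self hd4 _⟩
  refine ⟨fun d hd4 hT => (hd d hd4 hT).near, ?_, ?_, ?_, ?_, ?_⟩
  · intro d hd4 d' hd4' hT hT' hne v hv hv'
    rcases Nat.lt_or_gt_of_ne hne with h1 | h1
    · exact dis d hd4 d' hd4' hT hT' h1 v hv hv'
    · exact dis d' hd4' d hd4 hT' hT h1 v hv' hv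
  · intro d hd4 hT
    rw [hreal d hd4 hT]
    have h1 := hd d hd4 hT
    obtain ⟨h2, h3⟩ := hrn d hd4 hT
    refine h.one c hc _ h2 (pt d) h1.loc rfl ?_
    intro p' hp' heq
    exact h1.uniq p' hp' (by rw [heq]; exact h3) (by rw [heq]; exact h2)
  · intro d hd4 hT v hv hvc hray
    rw [hreal d hd4 hT]
    by_contra hne
    refine h.none c hc v (by omega) ?_ hv
    intro p hp heq
    have h1 := (hd d hd4 hT).uniq p hp (by rw [heq]; exact hray) (by rw [heq]; omega)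
    rw [h1] at heq
    exact hne heq.symm
  · intro d hd4 hT v hv hvc hray
    have h1 := h.hk c hc v hv (by omega)
    rw [h1] at hray hvc ⊢
    exact (hd d hd4 hT).kray hvc hray
  · intro v hv hvc
    have h1 := h.hk c hc v hv (by omega)
    rw [h1] at hvc ⊢
    exact kst hvc

/-- four values -/
def sel (x0 x1 x2 x3 : ℕ × ℕ) (d : ℕ) : ℕ × ℕ :=
  if d = 0 then x0 else if d = 1 then x1 else if d = 2 then x2 else x3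

lemma sel0 {x0 x1 x2 x3 : ℕ × ℕ} : sel x0 x1 x2 x3 0 = x0 := rfl
lemma sel1 {x0 x1 x2 x3 : ℕ × ℕ} : sel x0 x1 x2 x3 1 = x1 := rfl
lemma sel2 {x0 x1 x2 x3 : ℕ × ℕ} : sel x0 x1 x2 x3 2 = x2 := rfl
lemma sel3 {x0 x1 x2 x3 : ℕ × ℕ} : sel x0 x1 x2 x3 3 = x3 := rfl

lemma all4 {Q : ℕ → Prop} (h0 : Q 0) (h1 : Q 1) (h2 : Q 2) (h3 : Q 3) : ∀ d < 4, Q d := by
  intro d hd
  have h : d = 0 ∨ d = 1 ∨ d = 2 ∨ d = 3 := by omega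
  rcases h with rfl | rfl | rfl | rfl
  · exact h0
  · exact h1
  · exact h2
  · exact h3

/-- Left, up and down. -/
theorem Ctx.lud (h : Ctx i κ hu hv Λ B K ρ A s) {c : ℕ × ℕ} (hc : c ∈ A)
    {s0 s2 s3 p0 p2 p3 : ℕ × ℕ} (h0 : Dir κ Λ ρ c s 0 s0 p0) (h2 : Dir κ Λ ρ c s 2 s2 p2)
    (h3 : Dir κ Λ ρ c s 3 s3 p3) (d02 : ∀ v, ray 0 s0 v → ¬ ray 2 s2 v)
    (d03 : ∀ v, ray 0 s0 v → ¬ ray 3 s3 v) (d23 : ∀ v, ray 2 s2 v → ¬ ray 3 s3 v)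
    (kst : sd κ c ≤ s → κ = s0 ∨ κ = s2 ∨ κ = s3) : HasLegs K B A s := by
  refine Or.inl ⟨c, hc, 1, by omega, sel s0 s0 s2 s3, h.legs hc (pt := sel p0 p0 p2 p3) ?_ ?_ ?_⟩
  · refine all4 (fun _ => h0) (fun h => absurd rfl h) (fun _ => h2) (fun _ => h3)
  · refine all4 (all4 ?_ ?_ (fun _ _ _ => d02) (fun _ _ _ => d03))
      (fun d' _ h => absurd rfl h) (all4 ?_ ?_ ?_ (fun _ _ _ => d23)) (all4 ?_ ?_ ?_ ?_) <;>
      intro _ _ h <;> omega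
  · intro h4
    rcases kst h4 with h5 | h5 | h5
    · exact ⟨0, by omega, by omega, h5.symm⟩
    · exact ⟨2, by omega, by omega, h5.symm⟩
    · exact ⟨3, by omega, by omega, h5.symm⟩

/-- Right, up and down. -/
theorem Ctx.rud (h : Ctx i κ hu hv Λ B K ρ A s) {c : ℕ × ℕ} (hc : c ∈ A)
    {s1 s2 s3 p1 p2 p3 : ℕ × ℕ} (h1 : Dir κ Λ ρ c s 1 s1 p1) (h2 : Dir κ Λ ρ c s 2 s2 p2)
    (h3 : Dir κ Λ ρ c s 3 s3 p3) (d12 : ∀ v, ray 1 s1 v → ¬ ray 2 s2 v)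
    (d13 : ∀ v, ray 1 s1 v → ¬ ray 3 s3 v) (d23 : ∀ v, ray 2 s2 v → ¬ ray 3 s3 v)
    (kst : sd κ c ≤ s → κ = s1 ∨ κ = s2 ∨ κ = s3) : HasLegs K B A s := by
  refine Or.inl ⟨c, hc, 0, by omega, sel s1 s1 s2 s3, h.legs hc (pt := sel p1 p1 p2 p3) ?_ ?_ ?_⟩
  · refine all4 (fun h => absurd rfl h) (fun _ => h1) (fun _ => h2) (fun _ => h3)
  · refine all4 (fun d' _ h => absurd rfl h) (all4 ?_ ?_ (fun _ _ _ => d12) (fun _ _ _ => d13))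
      (all4 ?_ ?_ ?_ (fun _ _ _ => d23)) (all4 ?_ ?_ ?_ ?_) <;>
      intro _ _ h <;> omega
  · intro h4
    rcases kst h4 with h5 | h5 | h5
    · exact ⟨1, by omega, by omega, h5.symm⟩
    · exact ⟨2, by omega, by omega, h5.symm⟩
    · exact ⟨3, by omega, by omega, h5.symm⟩

/-- Left, right and up. -/
theorem Ctx.lru (h : Ctx i κ hu hv Λ B K ρ A s) {c : ℕ × ℕ} (hc : c ∈ A)
    {s0 s1 s2 p0 p1 p2 : ℕ × ℕ} (h0 : Dir κ Λ ρ c s 0 s0 p0) (h1 : Dir κ Λ ρ c s 1 s1 p1)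
    (h2 : Dir κ Λ ρ c s 2 s2 p2) (d01 : ∀ v, ray 0 s0 v → ¬ ray 1 s1 v)
    (d02 : ∀ v, ray 0 s0 v → ¬ ray 2 s2 v) (d12 : ∀ v, ray 1 s1 v → ¬ ray 2 s2 v)
    (kst : sd κ c ≤ s → κ = s0 ∨ κ = s1 ∨ κ = s2) : HasLegs K B A s := by
  refine Or.inl ⟨c, hc, 3, by omega, sel s0 s1 s2 s2, h.legs hc (pt := sel p0 p1 p2 p2) ?_ ?_ ?_⟩
  · refine all4 (fun _ => h0) (fun _ => h1) (fun _ => h2) (fun h => absurd rfl h)
  · refine all4 (all4 ?_ (fun _ _ _ => d01) (fun _ _ _ => d02) ?_)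
      (all4 ?_ ?_ (fun _ _ _ => d12) ?_) (all4 ?_ ?_ ?_ ?_) (fun d' _ h => absurd rfl h) <;>
      intro _ _ h <;> omega
  · intro h4
    rcases kst h4 with h5 | h5 | h5
    · exact ⟨0, by omega, by omega, h5.symm⟩
    · exact ⟨1, by omega, by omega, h5.symm⟩
    · exact ⟨2, by omega, by omega, h5.symm⟩

/-- Left, right and down. -/
theorem Ctx.lrd (h : Ctx i κ hu hv Λ B K ρ A s) {c : ℕ × ℕ} (hc : c ∈ A)
    {s0 s1 s3 p0 p1 p3 : ℕ × ℕ} (h0 : Dir κ Λ ρ c s 0 s0 p0) (h1 : Dir κ Λ ρ c s 1 s1 p1)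
    (h3 : Dir κ Λ ρ c s 3 s3 p3) (d01 : ∀ v, ray 0 s0 v → ¬ ray 1 s1 v)
    (d03 : ∀ v, ray 0 s0 v → ¬ ray 3 s3 v) (d13 : ∀ v, ray 1 s1 v → ¬ ray 3 s3 v)
    (kst : sd κ c ≤ s → κ = s0 ∨ κ = s1 ∨ κ = s3) : HasLegs K B A s := by
  refine Or.inl ⟨c, hc, 2, by omega, sel s0 s1 s1 s3, h.legs hc (pt := sel p0 p1 p1 p3) ?_ ?_ ?_⟩
  · refine all4 (fun _ => h0) (fun _ => h1) (fun h => absurd rfl h) (fun _ => h3)
  · refine all4 (all4 ?_ (fun _ _ _ => d01) ?_ (fun _ _ _ => d03))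
      (all4 ?_ ?_ ?_ (fun _ _ _ => d13)) (fun d' _ h => absurd rfl h) (all4 ?_ ?_ ?_ ?_) <;>
      intro _ _ h <;> omega
  · intro h4
    rcases kst h4 with h5 | h5 | h5
    · exact ⟨0, by omega, by omega, h5.symm⟩
    · exact ⟨1, by omega, by omega, h5.symm⟩
    · exact ⟨3, by omega, by omega, h5.symm⟩

/-- Left and right at one place, left at another place. -/
theorem Ctx.mix (h : Ctx i κ hu hv Λ B K ρ A s) {c c' : ℕ × ℕ} (hc : c ∈ A) (hc' : c' ∈ A)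
    (hcc : s < sd c c') {s0 s1 p0 p1 s' p' : ℕ × ℕ} (h0 : Dir κ Λ ρ c s 0 s0 p0)
    (h1 : Dir κ Λ ρ c s 1 s1 p1) (h' : Dir κ Λ ρ c' s 0 s' p')
    (d01 : ∀ v, ray 0 s0 v → ¬ ray 1 s1 v) (kst : sd κ c ≤ s → κ = s0 ∨ κ = s1)
    (kst' : sd κ c' ≤ s → κ = s') : HasLegs K B A s := by
  refine Or.inr ⟨c, hc, c', hc', hcc, ⟨sel s0 s1 s1 s1, h.legs hc (pt := sel p0 p1 p1 p1)
    ?_ ?_ ?_⟩, ⟨sel s' s' s' s', h.legs hc' (pt := sel p' p' p' p') ?_ ?_ ?_⟩⟩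
  · refine all4 (fun _ => h0) (fun _ => h1) (fun h => by omega) (fun h => by omega)
  · refine all4 (all4 ?_ (fun _ _ _ => d01) ?_ ?_)
      (all4 ?_ ?_ ?_ ?_) (all4 ?_ ?_ ?_ ?_) (all4 ?_ ?_ ?_ ?_) <;>
      intro _ _ h <;> omega
  · intro h4
    rcases kst h4 with h5 | h5
    · exact ⟨0, by omega, by omega, h5.symm⟩
    · exact ⟨1, by omega, by omega, h5.symm⟩
  · refine all4 (fun _ => h') (fun h => by omega) (fun h => by omega) (fun h => by omega)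
  · intro d _ d' _ h1 h2 h3
    omega
  · intro h4
    exact ⟨0, by omega, rfl, (kst' h4).symm⟩

end

end DA
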