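import Pool.Agent.DA.WRule

/-!
# Rules for the legs on the brick wall
-/

open Set
open scoped Matroid

namespace DA

section

variable {i : ℕ} {κ : ℕ × ℕ} {hu hv : ℕ} {Λ B K : Set (ℕ × ℕ)} {ρ : ℕ × ℕ → ℕ × ℕ}
  {A : Finset (ℕ × ℕ)} {s : ℕ}

/-- A half of the pair `κ` goes up. -/
lemma Ctx.up (h : Ctx i κ hu hv Λ B K ρ A s) {p : ℕ × ℕ} (hp : p ∈ Λ)
    (hpk : (p.1 - i) / 2 = κ.1 ∧ p.2 = κ.2) (hpar : (p.1 + p.2) % 2 = 0)
    (hve : ((p.1 + i) % 2 = 0 ∧ hu = 0) ∨ ((p.1 + i) % 2 = 1 ∧ hv = 0))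
    (hcl : ∀ p' ∈ Λ, sd (ρ p') κ ≤ s + 2 → (p'.1 - i) / 2 = κ.1 → p'.2 ≤ κ.2) :
    Dir κ Λ ρ κ s 2 κ p := by
  have hi := h.hi
  have hpp := h.pos p hp
  refine ⟨by rw [sd_self]; omega, hp, Or.inl ⟨rfl, ?_⟩, ?_, fun _ _ => rfl⟩
  · have h1 := h.rh p hp
    unfold RbP at h1
    refine Prod.ext ?_ ?_
    · change (ρ p).1 = κ.1
      omega
    · change (ρ p).2 = κ.2 + 1
      omega
  · intro p' hp' hray hsd
    have h1 := h.rh p' hp'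
    have h2 := hcl p' hp' hsd
    have h3 := h.pos p' hp'
    unfold RbP at h1
    unfold ray at hray
    refine Prod.ext ?_ ?_ <;> omega

/-- A half of the pair `κ` goes down. -/
lemma Ctx.down (h : Ctx i κ hu hv Λ B K ρ A s) {p : ℕ × ℕ} (hp : p ∈ Λ)
    (hpk : (p.1 - i) / 2 = κ.1 ∧ p.2 = κ.2) (hpar : (p.1 + p.2) % 2 = 1)
    (hve : ((p.1 + i) % 2 = 0 ∧ hu = 0) ∨ ((p.1 + i) % 2 = 1 ∧ hv = 0))
    (hcl : ∀ p' ∈ Λ, sd (ρ p') κ ≤ s + 2 → (p'.1 - i) / 2 = κ.1 → κ.2 ≤ p'.2) :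
    Dir κ Λ ρ κ s 3 κ p := by
  have hi := h.hi
  have hpp := h.pos p hp
  refine ⟨by rw [sd_self]; omega, hp, Or.inl ⟨rfl, ?_⟩, ?_, fun _ _ => rfl⟩
  · have h1 := h.rh p hp
    unfold RbP at h1
    refine Prod.ext ?_ ?_
    · change (ρ p).1 = κ.1
      omega
    · change (ρ p).2 = κ.2 - 1
      omega
  · intro p' hp' hray hsd
    have h1 := h.rh p' hp'
    have h2 := hcl p' hp' hsd
    have h3 := h.pos p' hp'
    unfold RbP at h1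
    unfold ray at hray
    refine Prod.ext ?_ ?_ <;> omega

/-- Both halves of `κ` go up and down. -/
lemma Ctx.updown (h : Ctx i κ 0 0 Λ B K ρ A s) {x y : ℕ} (hκ : κ = ((x - i) / 2, y))
    (hx : (x + i) % 2 = 0) (h1 : (x, y) ∈ Λ) (h2 : (x + 1, y) ∈ Λ)
    (hcl : ∀ p' ∈ Λ, sd (ρ p') κ ≤ s + 2 → (p'.1 - i) / 2 = κ.1 → p'.2 = κ.2) :
    ∃ p2 p3, Dir κ Λ ρ κ s 2 κ p2 ∧ Dir κ Λ ρ κ s 3 κ p3 := by
  have hi := h.hi
  have hpp := h.pos _ h1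
  simp only at hpp
  have hk1 : κ.1 = (x - i) / 2 := by rw [hκ]
  have hk2 : κ.2 = y := by rw [hκ]
  have hc1 : ∀ p' ∈ Λ, sd (ρ p') κ ≤ s + 2 → (p'.1 - i) / 2 = κ.1 → p'.2 ≤ κ.2 :=
    fun p' a b c => (hcl p' a b c).le
  have hc2 : ∀ p' ∈ Λ, sd (ρ p') κ ≤ s + 2 → (p'.1 - i) / 2 = κ.1 → κ.2 ≤ p'.2 :=
    fun p' a b c => (hcl p' a b c).ge
  by_cases hpar : (x + y) % 2 = 0
  · refine ⟨(x, y), (x + 1, y), h.up h1 ?_ ?_ (Or.inl ⟨hx, rfl⟩) hc1,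
      h.down h2 ?_ ?_ (Or.inr ⟨?_, rfl⟩) hc2⟩ <;> simp only <;> omega
  · refine ⟨(x + 1, y), (x, y), h.up h2 ?_ ?_ (Or.inr ⟨?_, rfl⟩) hc1,
      h.down h1 ?_ ?_ (Or.inl ⟨hx, rfl⟩) hc2⟩ <;> simp only <;> omega

/-- A single location, leftmost in its row. -/
lemma Ctx.left (h : Ctx i κ hu hv Λ B K ρ A s) {c : ℕ × ℕ} {x y : ℕ} (hp : (x, y) ∈ Λ)
    (hn : sd ((x - i) / 2, y) c ≤ s + 1)
    (hk : κ.2 = y → (x - i) / 2 < κ.1 ∧ (hu = 1 → (x - i) / 2 + 1 < κ.1))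
    (hv' : ∀ p ∈ Λ, (p.1 - i) / 2 = κ.1 → p.2 = κ.2 → (((p.1 + i) % 2 = 0 ∧ hu = 0) ∨
      ((p.1 + i) % 2 = 1 ∧ hv = 0)) → κ.1 ≤ (x - i) / 2 → κ.2 ≠ y + 1 ∧ κ.2 + 1 ≠ y)
    (hcl : ∀ p ∈ Λ, sd (ρ p) c ≤ s + 2 → p.2 = y → (p.1 - i) / 2 ≤ (x - i) / 2 → p.1 = x) :
    Dir κ Λ ρ c s 0 ((x - i) / 2, y) (x, y) := by
  have hi := h.hi
  have hpp := h.pos _ hp
  have h0 := h.rh _ hp
  simp only at hpp
  refine ⟨hn, hp, Or.inr ⟨?_, ?_⟩, ?_, ?_⟩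
  · intro h1
    have h5 := hk (by rw [← h1])
    rw [← h1] at h5
    simp only at h5
    omega
  · unfold RbP at h0
    simp only at h0
    refine Prod.ext ?_ ?_ <;> simp only <;> omega
  · intro p hp' hray hsd
    have h1 := h.rh p hp'
    have h2 := hcl p hp' hsd
    have h3 := h.pos p hp'
    have h4 := hv' p hp'
    unfold RbP at h1
    unfold ray at hray
    simp only at hray
    refine Prod.ext ?_ ?_ <;> simp only <;> omega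
  · intro _ hray
    unfold ray at hray
    simp only at hray
    omega

/-- A single location, rightmost in its row. -/
lemma Ctx.right (h : Ctx i κ hu hv Λ B K ρ A s) {c : ℕ × ℕ} {x y : ℕ} (hp : (x, y) ∈ Λ)
    (hn : sd ((x - i) / 2, y) c ≤ s + 1)
    (hk : κ.2 = y → κ.1 < (x - i) / 2 ∧ (hv = 1 → κ.1 + 1 < (x - i) / 2))
    (hv' : ∀ p ∈ Λ, (p.1 - i) / 2 = κ.1 → p.2 = κ.2 → (((p.1 + i) % 2 = 0 ∧ hu = 0) ∨
      ((p.1 + i) % 2 = 1 ∧ hv = 0)) → (x - i) / 2 ≤ κ.1 → κ.2 ≠ y + 1 ∧ κ.2 + 1 ≠ y)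
    (hcl : ∀ p ∈ Λ, sd (ρ p) c ≤ s + 2 → p.2 = y → (x - i) / 2 ≤ (p.1 - i) / 2 → p.1 = x) :
    Dir κ Λ ρ c s 1 ((x - i) / 2, y) (x, y) := by
  have hi := h.hi
  have hpp := h.pos _ hp
  have h0 := h.rh _ hp
  simp only at hpp
  refine ⟨hn, hp, Or.inr ⟨?_, ?_⟩, ?_, ?_⟩
  · intro h1
    have h5 := hk (by rw [← h1])
    rw [← h1] at h5
    simp only at h5
    omega
  · unfold RbP at h0
    simp only at h0
    refine Prod.ext ?_ ?_ <;> simp only <;> omega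
  · intro p hp' hray hsd
    have h1 := h.rh p hp'
    have h2 := hcl p hp' hsd
    have h3 := h.pos p hp'
    have h4 := hv' p hp'
    unfold RbP at h1
    unfold ray at hray
    simp only at hray
    refine Prod.ext ?_ ?_ <;> simp only <;> omega
  · intro _ hray
    unfold ray at hray
    simp only at hray
    omega

/-- A single location, leftmost in its row, far from `κ`. -/
lemma Ctx.leftF (h : Ctx i κ hu hv Λ B K ρ A s) {c : ℕ × ℕ} {x y : ℕ} (hp : (x, y) ∈ Λ)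
    (hn : sd ((x - i) / 2, y) c ≤ s + 1) (hk : s + 3 < sd κ c)
    (hcl : ∀ p ∈ Λ, sd (ρ p) c ≤ s + 2 → p.2 = y → (p.1 - i) / 2 ≤ (x - i) / 2 → p.1 = x) :
    Dir κ Λ ρ c s 0 ((x - i) / 2, y) (x, y) := by
  have hi := h.hi
  have hpp := h.pos _ hp
  have h0 := h.rh _ hp
  simp only at hpp
  have hne : ¬ ((x - i) / 2 = κ.1 ∧ y = κ.2) := by
    rintro ⟨h1, h2⟩
    rw [h1, h2] at hn
    change sd κ c ≤ s + 1 at hn
    omega
  refine ⟨hn, hp, Or.inr ⟨?_, ?_⟩, ?_, fun h5 _ => by omega⟩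
  · intro h1
    rw [← h1] at hne
    exact hne ⟨rfl, rfl⟩
  · unfold RbP at h0
    simp only at h0
    refine Prod.ext ?_ ?_ <;> simp only <;> omega
  · intro p hp' hray hsd
    have h1 := h.rh p hp'
    have h2 := hcl p hp' hsd
    have h3 := h.pos p hp'
    have h4 : ¬ ((p.1 - i) / 2 = κ.1 ∧ p.2 = κ.2) := by
      rintro ⟨h4, h5⟩
      have h6 : sd κ (ρ p) ≤ 1 := by
        unfold RbP at h1
        rw [sd_le]
        omega
      have h7 := sd_tri (p := κ) (q := ρ p) (r := c)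
      omega
    unfold RbP at h1
    unfold ray at hray
    simp only at hray
    refine Prod.ext ?_ ?_ <;> simp only <;> omega

/-- A single location, rightmost in its row, far from `κ`. -/
lemma Ctx.rightF (h : Ctx i κ hu hv Λ B K ρ A s) {c : ℕ × ℕ} {x y : ℕ} (hp : (x, y) ∈ Λ)
    (hn : sd ((x - i) / 2, y) c ≤ s + 1) (hk : s + 3 < sd κ c)
    (hcl : ∀ p ∈ Λ, sd (ρ p) c ≤ s + 2 → p.2 = y → (x - i) / 2 ≤ (p.1 - i) / 2 → p.1 = x) :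
    Dir κ Λ ρ c s 1 ((x - i) / 2, y) (x, y) := by
  have hi := h.hi
  have hpp := h.pos _ hp
  have h0 := h.rh _ hp
  simp only at hpp
  have hne : ¬ ((x - i) / 2 = κ.1 ∧ y = κ.2) := by
    rintro ⟨h1, h2⟩
    rw [h1, h2] at hn
    change sd κ c ≤ s + 1 at hn
    omega
  refine ⟨hn, hp, Or.inr ⟨?_, ?_⟩, ?_, fun h5 _ => by omega⟩
  · intro h1
    rw [← h1] at hne
    exact hne ⟨rfl, rfl⟩
  · unfold RbP at h0
    simp only at h0
    refine Prod.ext ?_ ?_ <;> simp only <;> omega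
  · intro p hp' hray hsd
    have h1 := h.rh p hp'
    have h2 := hcl p hp' hsd
    have h3 := h.pos p hp'
    have h4 : ¬ ((p.1 - i) / 2 = κ.1 ∧ p.2 = κ.2) := by
      rintro ⟨h4, h5⟩
      have h6 : sd κ (ρ p) ≤ 1 := by
        unfold RbP at h1
        rw [sd_le]
        omega
      have h7 := sd_tri (p := κ) (q := ρ p) (r := c)
      omega
    unfold RbP at h1
    unfold ray at hray
    simp only at hray
    refine Prod.ext ?_ ?_ <;> simp only <;> omega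

end

end DA
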