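import Pool.Agent.DA.WRule2

/-!
# Rules for the legs on the brick wall: more directions, chains
-/

open Set
open scoped Matroid

namespace DA

section

variable {i : ℕ} {κ : ℕ × ℕ} {hu hv : ℕ} {Λ B K : Set (ℕ × ℕ)} {ρ : ℕ × ℕ → ℕ × ℕ}
  {A : Finset (ℕ × ℕ)} {s : ℕ}

/-- A leg from `κ` starts at the next vertex. -/
lemma Dir.shift {c : ℕ × ℕ} {d : ℕ} {pt : ℕ × ℕ} (hd4 : d < 4) (h : Dir κ Λ ρ c s d κ pt)
    (hs : sd κ c ≤ s) (h0 : 1 ≤ κ.1 ∧ 1 ≤ κ.2) : Dir κ Λ ρ c s d (stp d κ) pt := by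
  have h1 : ρ pt = stp d κ := by
    rcases h.re with ⟨_, h1⟩ | ⟨h1, _⟩
    · exact h1
    · exact absurd rfl h1
  have hd : d = 0 ∨ d = 1 ∨ d = 2 ∨ d = 3 := by omega
  refine ⟨?_, h.loc, Or.inr ⟨?_, h1⟩, ?_, ?_⟩
  · have := sd_stp (d := d) κ c
    omega
  · intro h2
    rcases hd with rfl | rfl | rfl | rfl <;>
      (simp only [stp, Prod.ext_iff] at h2; simp at h2 <;> omega)
  · intro p hp hray hsd
    refine h.uniq p hp ?_ hsd
    rcases hd with rfl | rfl | rfl | rfl <;> unfold ray stp at * <;> simp at * <;> omega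
  · intro _ hray
    exfalso
    rcases hd with rfl | rfl | rfl | rfl <;> unfold ray stp at * <;> simp at * <;> omega

/-- The left half of `κ` goes to the left. -/
lemma Ctx.lk (h : Ctx i κ 1 hv Λ B K ρ A s) {x y : ℕ} (hκ : κ = ((x - i) / 2, y))
    (hx : (x + i) % 2 = 0) (hp : (x, y) ∈ Λ)
    (hcl : ∀ p ∈ Λ, sd (ρ p) κ ≤ s + 2 → p.2 = y → κ.1 ≤ (p.1 - i) / 2)
    (hvr : ∀ p ∈ Λ, sd (ρ p) κ ≤ s + 2 → p.2 = y → (ρ p).1 = κ.1 → (ρ p).2 ≠ y) :
    Dir κ Λ ρ κ s 0 κ (x, y) := by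
  have hi := h.hi
  have hpp := h.pos _ hp
  have h0 := h.rh _ hp
  have hk1 : κ.1 = (x - i) / 2 := by rw [hκ]
  have hk2 : κ.2 = y := by rw [hκ]
  simp only at hpp
  refine ⟨by rw [sd_self]; omega, hp, Or.inl ⟨rfl, ?_⟩, ?_, fun _ _ => rfl⟩
  · unfold RbP at h0
    simp only at h0
    refine Prod.ext ?_ ?_
    · change (ρ (x, y)).1 = κ.1 - 1
      omega
    · change (ρ (x, y)).2 = κ.2
      omega
  · intro p hp' hray hsd
    have h1 := h.rh p hp'
    have h2 := hcl p hp' hsd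
    have h4 := hvr p hp' hsd
    have h3 := h.pos p hp'
    unfold RbP at h1
    unfold ray at hray
    refine Prod.ext ?_ ?_ <;> simp only <;> omega

/-- The right half of `κ` goes to the right. -/
lemma Ctx.rk (h : Ctx i κ hu 1 Λ B K ρ A s) {x y : ℕ} (hκ : κ = ((x - i) / 2, y))
    (hx : (x + i) % 2 = 1) (hp : (x, y) ∈ Λ)
    (hcl : ∀ p ∈ Λ, sd (ρ p) κ ≤ s + 2 → p.2 = y → (p.1 - i) / 2 ≤ κ.1)
    (hvr : ∀ p ∈ Λ, sd (ρ p) κ ≤ s + 2 → p.2 = y → (ρ p).1 = κ.1 → (ρ p).2 ≠ y) :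
    Dir κ Λ ρ κ s 1 κ (x, y) := by
  have hi := h.hi
  have hpp := h.pos _ hp
  have h0 := h.rh _ hp
  have hk1 : κ.1 = (x - i) / 2 := by rw [hκ]
  have hk2 : κ.2 = y := by rw [hκ]
  simp only at hpp
  refine ⟨by rw [sd_self]; omega, hp, Or.inl ⟨rfl, ?_⟩, ?_, fun _ _ => rfl⟩
  · unfold RbP at h0
    simp only at h0
    refine Prod.ext ?_ ?_
    · change (ρ (x, y)).1 = κ.1 + 1
      omega
    · change (ρ (x, y)).2 = κ.2
      omega
  · intro p hp' hray hsd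
    have h1 := h.rh p hp'
    have h2 := hcl p hp' hsd
    have h4 := hvr p hp' hsd
    have h3 := h.pos p hp'
    unfold RbP at h1
    unfold ray at hray
    refine Prod.ext ?_ ?_ <;> simp only <;> omega

/-- A single location, topmost in its column; `κ` is below. -/
lemma Ctx.upS (h : Ctx i κ hu hv Λ B K ρ A s) {c : ℕ × ℕ} {x y : ℕ} (hp : (x, y) ∈ Λ)
    (hn : sd ((x - i) / 2, y) c ≤ s + 1) (hk : κ.2 < y)
    (hk2 : κ.2 + 1 = y → (x - i) / 2 = κ.1 → ∀ p ∈ Λ, (p.1 - i) / 2 = κ.1 → p.2 = κ.2 →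
      (p.1 + p.2) % 2 = 0 → ((p.1 + i) % 2 = 0 ∧ hu = 1) ∨ ((p.1 + i) % 2 = 1 ∧ hv = 1))
    (hcl : ∀ p ∈ Λ, sd (ρ p) c ≤ s + 2 → (p.1 - i) / 2 = (x - i) / 2 → y ≤ p.2 → p = (x, y)) :
    Dir κ Λ ρ c s 2 ((x - i) / 2, y) (x, y) := by
  have hi := h.hi
  have hpp := h.pos _ hp
  have h0 := h.rh _ hp
  simp only at hpp
  refine ⟨hn, hp, Or.inr ⟨?_, ?_⟩, ?_, ?_⟩
  · intro h1
    rw [← h1] at hk
    simp only at hk
    omega
  · unfold RbP at h0
    simp only at h0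
    refine Prod.ext ?_ ?_ <;> simp only <;> omega
  · intro p hp' hray hsd
    have h1 := h.rh p hp'
    have h3 := h.pos p hp'
    unfold RbP at h1
    unfold ray at hray
    simp only at hray
    refine hcl p hp' hsd ?_ ?_
    · rcases h1 with h1 | ⟨h1, h2, h4⟩
      · omega
      · have h5 : κ.2 + 1 = y → (x - i) / 2 = κ.1 → _ := fun a b => hk2 a b p hp' h1 h2
        omega
    · rcases h1 with h1 | ⟨h1, h2, h4⟩
      · omega
      · have h5 : κ.2 + 1 = y → (x - i) / 2 = κ.1 → _ := fun a b => hk2 a b p hp' h1 h2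
        omega
  · intro _ hray
    unfold ray at hray
    simp only at hray
    omega

/-- A single location, lowest in its column; `κ` is above. -/
lemma Ctx.downS (h : Ctx i κ hu hv Λ B K ρ A s) {c : ℕ × ℕ} {x y : ℕ} (hp : (x, y) ∈ Λ)
    (hn : sd ((x - i) / 2, y) c ≤ s + 1) (hk : y < κ.2)
    (hk2 : y + 1 = κ.2 → (x - i) / 2 = κ.1 → ∀ p ∈ Λ, (p.1 - i) / 2 = κ.1 → p.2 = κ.2 →
      (p.1 + p.2) % 2 = 1 → ((p.1 + i) % 2 = 0 ∧ hu = 1) ∨ ((p.1 + i) % 2 = 1 ∧ hv = 1))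
    (hcl : ∀ p ∈ Λ, sd (ρ p) c ≤ s + 2 → (p.1 - i) / 2 = (x - i) / 2 → p.2 ≤ y → p = (x, y)) :
    Dir κ Λ ρ c s 3 ((x - i) / 2, y) (x, y) := by
  have hi := h.hi
  have hpp := h.pos _ hp
  have h0 := h.rh _ hp
  simp only at hpp
  refine ⟨hn, hp, Or.inr ⟨?_, ?_⟩, ?_, ?_⟩
  · intro h1
    rw [← h1] at hk
    simp only at hk
    omega
  · unfold RbP at h0
    simp only at h0
    refine Prod.ext ?_ ?_ <;> simp only <;> omega
  · intro p hp' hray hsd
    have h1 := h.rh p hp'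
    have h3 := h.pos p hp'
    unfold RbP at h1
    unfold ray at hray
    simp only at hray
    refine hcl p hp' hsd ?_ ?_
    · rcases h1 with h1 | ⟨h1, h2, h4⟩
      · omega
      · have h5 : y + 1 = κ.2 → (x - i) / 2 = κ.1 → _ := fun a b => hk2 a b p hp' h1 h2
        omega
    · rcases h1 with h1 | ⟨h1, h2, h4⟩
      · omega
      · have h5 : y + 1 = κ.2 → (x - i) / 2 = κ.1 → _ := fun a b => hk2 a b p hp' h1 h2
        omega
  · intro _ hray
    unfold ray at hray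
    simp only at hray
    omega

lemma Ctx.step (h : Ctx i κ hu hv Λ B K ρ A s) {x y : ℕ} (h1 : (x, y) ∈ Λ)
    (h2 : (x + 1, y) ∈ Λ) : sd (ρ (x, y)) (ρ (x + 1, y)) ≤ 2 := by
  have hi := h.hi
  have e1 := h.rh _ h1
  have e2 := h.rh _ h2
  have hpp := h.pos _ h1
  unfold RbP at e1 e2
  simp only at e1 e2 hpp
  rw [sd_le]
  omega

/-- **A run is in one hole.** -/
lemma Ctx.chain (h : Ctx i κ hu hv Λ B K ρ A s) {c : ℕ × ℕ} (hc : c ∈ A) {a b y : ℕ}
    (hr : ∀ x, a ≤ x → x ≤ b → (x, y) ∈ Λ) {x x' : ℕ} (hx : a ≤ x ∧ x ≤ b)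
    (hx' : a ≤ x' ∧ x' ≤ b) (hs : sd (ρ (x, y)) c ≤ s + 2) : sd (ρ (x', y)) c ≤ s := by
  have key : ∀ z, a ≤ z → z ≤ b → sd (ρ (z, y)) c ≤ s + 2 → sd (ρ (z, y)) c ≤ s := by
    intro z h1 h2 h3
    rcases h.gap c hc _ (hr z h1 h2) with h4 | h4 <;> omega
  have up : ∀ n, x + n ≤ b → sd (ρ (x + n, y)) c ≤ s := by
    intro n
    induction n with
    | zero =>
      intro _
      exact key x hx.1 hx.2 hs
    | succ n ih =>
      intro hn
      have h1 := ih (by omega)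
      have h2 := h.step (hr (x + n) (by omega) (by omega)) (hr (x + n + 1) (by omega) (by omega))
      have h3 := sd_tri (p := ρ (x + n + 1, y)) (q := ρ (x + n, y)) (r := c)
      rw [sd_comm (p := ρ (x + n + 1, y)) (q := ρ (x + n, y))] at h3
      exact key (x + (n + 1)) (by omega) (by omega) (by
        rw [← add_assoc]
        omega)
  have down : ∀ n, a + n ≤ x → sd (ρ (x - n, y)) c ≤ s := by
    intro n
    induction n with
    | zero =>
      intro _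
      exact key x hx.1 hx.2 hs
    | succ n ih =>
      intro hn
      have h1 := ih (by omega)
      have h2 := h.step (hr (x - (n + 1)) (by omega) (by omega))
        (hr (x - (n + 1) + 1) (by omega) (by omega))
      rw [show x - (n + 1) + 1 = x - n by omega] at h2
      have h3 := sd_tri (p := ρ (x - (n + 1), y)) (q := ρ (x - n, y)) (r := c)
      exact key (x - (n + 1)) (by omega) (by omega) (by omega)
  rcases le_total x x' with h1 | h1
  · have := up (x' - x) (by omega)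
    rwa [show x + (x' - x) = x' by omega] at this
  · have := down (x - x') (by omega)
    rwa [show x - (x - x') = x' by omega] at this

/-- A half of `κ` is next to `κ`. -/
lemma Ctx.half (h : Ctx i κ hu hv Λ B K ρ A s) {p : ℕ × ℕ} (hp : p ∈ Λ)
    (h1 : (p.1 - i) / 2 = κ.1) (h2 : p.2 = κ.2) : sd (ρ p) κ ≤ s := by
  have hi := h.hi
  have e1 := h.rh _ hp
  have hpp := h.pos _ hp
  unfold RbP at e1
  have h3 : sd (ρ p) κ ≤ 1 := by
    rw [sd_le]
    omega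
  rcases h.gap κ h.kA p hp with h4 | h4 <;> omega

/-- A vertex which is not in `κ` is in its own blob. -/
lemma Ctx.own (h : Ctx i κ hu hv Λ B K ρ A s) {x y : ℕ} (hp : (x, y) ∈ Λ)
    (hne : (x - i) / 2 ≠ κ.1 ∨ y ≠ κ.2) : ρ (x, y) = ((x - i) / 2, y) := by
  have e1 := h.rh _ hp
  unfold RbP at e1
  simp only at e1
  refine Prod.ext ?_ ?_ <;> simp only <;> omega

end

end DA
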