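import Pool.Agent.DA.WRule3

/-!
# Rules for the legs on the brick wall: one row, two pairs
-/

open Set
open scoped Matroid

namespace DA

lemma stp_up (v : ℕ × ℕ) : stp 2 v = (v.1, v.2 + 1) := rfl

lemma stp_right (v : ℕ × ℕ) : stp 1 v = (v.1 + 1, v.2) := rfl

section

variable {i : ℕ} {κ : ℕ × ℕ} {Λ B K : Set (ℕ × ℕ)} {ρ : ℕ × ℕ → ℕ × ℕ}
  {A : Finset (ℕ × ℕ)} {s : ℕ}

/-- **One row, the left end.** -/
theorem Ctx.p1 (h : Ctx i κ 0 0 Λ B K ρ A s) {a y : ℕ} (hκ : κ = ((a + 1 - i) / 2, y))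
    (ha : (a + i) % 2 = 1) (h0 : (a, y) ∈ Λ) (h1 : (a + 1, y) ∈ Λ) (h2 : (a + 2, y) ∈ Λ)
    (hrow : ∀ p ∈ Λ, sd (ρ p) κ ≤ s + 2 → p.2 = y ∧ a ≤ p.1) : HasLegs K B A s := by
  have hi := h.hi
  have hpp := h.pos _ h0
  simp only at hpp
  have hk1 : κ.1 = (a + 1 - i) / 2 := by rw [hκ]
  have hk2 : κ.2 = y := by rw [hκ]
  obtain ⟨p2, p3, d2, d3⟩ := h.updown (x := a + 1) (y := y) hκ (by omega) h1 h2 (by
    intro p' hp' hs _
    rw [hk2]
    exact (hrow p' hp' hs).1)
  have d0 := h.left (c := κ) h0 (by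
    rw [sd_le]
    simp only
    omega) (fun _ => ⟨by omega, fun h => by omega⟩) (by
    intro p hp h3 h4 _ h5
    omega) (by
    intro p hp hs h3 h4
    have h5 := (hrow p hp hs).2
    omega)
  have d2' := d2.shift (by omega) (by rw [sd_self]; omega) (by omega)
  rw [stp_up] at d2'
  refine h.lud h.kA d0 d2' d3 ?_ ?_ ?_ (fun _ => Or.inr (Or.inr rfl)) <;> intro v h3 h4 <;>
    unfold ray at h3 h4 <;> simp only at h3 h4 <;> omega

/-- **One row, the right end.** -/
theorem Ctx.p1' (h : Ctx i κ 0 0 Λ B K ρ A s) {b y : ℕ} (hκ : κ = ((b - i) / 2, y))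
    (hb : (b + i) % 2 = 0) (h0 : (b, y) ∈ Λ) (h1 : (b + 1, y) ∈ Λ) (h2 : (b + 2, y) ∈ Λ)
    (hrow : ∀ p ∈ Λ, sd (ρ p) κ ≤ s + 2 → p.2 = y ∧ p.1 ≤ b + 2) : HasLegs K B A s := by
  have hi := h.hi
  have hpp := h.pos _ h0
  simp only at hpp
  have hk1 : κ.1 = (b - i) / 2 := by rw [hκ]
  have hk2 : κ.2 = y := by rw [hκ]
  obtain ⟨p2, p3, d2, d3⟩ := h.updown (x := b) (y := y) hκ (by omega) h0 h1 (by
    intro p' hp' hs _
    rw [hk2]
    exact (hrow p' hp' hs).1)
  have d0 := h.right (c := κ) h2 (by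
    rw [sd_le]
    simp only
    omega) (fun _ => ⟨by omega, fun h => by omega⟩) (by
    intro p hp h3 h4 _ h5
    omega) (by
    intro p hp hs h3 h4
    have h5 := (hrow p hp hs).2
    omega)
  have d2' := d2.shift (by omega) (by rw [sd_self]; omega) (by omega)
  rw [stp_up] at d2'
  refine h.rud h.kA d0 d2' d3 ?_ ?_ ?_ (fun _ => Or.inr (Or.inr rfl)) <;> intro v h3 h4 <;>
    unfold ray at h3 h4 <;> simp only at h3 h4 <;> omega

/-- **One row, two pairs.** -/
theorem Ctx.p2 (h : Ctx i κ 1 0 Λ B K ρ A s) {a x y : ℕ} (hκ : κ = ((a - i) / 2, y))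
    (ha : (a + i) % 2 = 0) (hx : (x + i) % 2 = 1) (hax : a + 2 < x)
    (hΛ : ∀ p, p ∈ Λ ↔ p.2 = y ∧ (p.1 = a ∨ p.1 = a + 1 ∨ p.1 = x ∨ p.1 = x + 1))
    (hA : ((x - i) / 2, y) ∈ A) : HasLegs K B A s := by
  have hi := h.hi
  have m1 : (a, y) ∈ Λ := (hΛ _).2 ⟨rfl, by simp⟩
  have m2 : (a + 1, y) ∈ Λ := (hΛ _).2 ⟨rfl, by simp⟩
  have m3 : (x, y) ∈ Λ := (hΛ _).2 ⟨rfl, by simp⟩
  have m4 : (x + 1, y) ∈ Λ := (hΛ _).2 ⟨rfl, by simp⟩
  have hpp := h.pos _ m1
  simp only at hpp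
  have hk1 : κ.1 = (a - i) / 2 := by rw [hκ]
  have hk2 : κ.2 = y := by rw [hκ]
  -- left leg from `κ`
  have dL := h.lk hκ ha m1 (by
    intro p hp _ _
    have := (hΛ p).1 hp
    omega) (by
    intro p hp hs h1 h2 h3
    have h4 := (hΛ p).1 hp
    have h5 := h.rh p hp
    unfold RbP at h5
    omega)
  rcases h.gapA _ hA κ h.kA with hs | hs
  · -- the same hole
    have dR := h.right (c := κ) m4 (by
      rw [sd_le] at hs ⊢
      simp only at hs ⊢
      omega) (fun _ => ⟨by omega, fun h => by omega⟩) (by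
      intro p hp h3 h4 _ h5
      omega) (by
      intro p hp hs h3 h4
      have h5 := (hΛ p).1 hp
      omega)
    by_cases hpar : (a + 1 + y) % 2 = 0
    · have dU := (h.up m2 (by simp only; omega) (by simp only; omega)
        (Or.inr ⟨by simp only; omega, rfl⟩) (by
        intro p hp _ _
        have := (hΛ p).1 hp
        omega)).shift (by omega) (by rw [sd_self]; omega) (by omega)
      rw [stp_up] at dU
      refine h.lru h.kA dL dR dU ?_ ?_ ?_ (fun _ => Or.inl rfl) <;> intro v h3 h4 <;>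
        unfold ray at h3 h4 <;> simp only at h3 h4 <;> omega
    · have dD := (h.down m2 (by simp only; omega) (by simp only; omega)
        (Or.inr ⟨by simp only; omega, rfl⟩) (by
        intro p hp _ _
        have := (hΛ p).1 hp
        omega)).shift (by omega) (by rw [sd_self]; omega) (by omega)
      have e3 : stp 3 κ = (κ.1, κ.2 - 1) := rfl
      rw [e3] at dD
      refine h.lrd h.kA dL dR dD ?_ ?_ ?_ (fun _ => Or.inl rfl) <;> intro v h3 h4 <;>
        unfold ray at h3 h4 <;> simp only at h3 h4 <;> omega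
  · -- different holes
    have hfar : ∀ p ∈ Λ, p.1 ≤ a + 1 → ¬ sd (ρ p) ((x - i) / 2, y) ≤ s + 2 := by
      intro p hp hpa hcon
      have h5 := h.rh p hp
      have h6 := (hΛ p).1 hp
      have h7 := h.pos p hp
      have h8 : sd (ρ p) κ ≤ 1 := by
        unfold RbP at h5
        rw [sd_le]
        omega
      have h9 := sd_tri (p := ((x - i) / 2, y)) (q := ρ p) (r := κ)
      rw [sd_comm (p := ((x - i) / 2, y)) (q := ρ p)] at h9
      omega
    have hk4 : s + 3 < sd κ ((x - i) / 2, y) := by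
      rw [sd_comm]
      omega
    have dL2 := h.leftF (c := ((x - i) / 2, y)) m3 (by rw [sd_self]; omega) hk4 (by
      intro p hp hs h3 h4
      have h5 := (hΛ p).1 hp
      have h6 := hfar p hp
      omega)
    have dR2 := h.rightF (c := ((x - i) / 2, y)) m4 (by
      rw [sd_le]
      simp only
      omega) hk4 (by
      intro p hp hs h3 h4
      have h5 := (hΛ p).1 hp
      omega)
    refine h.mix hA h.kA (by omega) dL2 dR2 dL ?_ (fun h5 => by omega) (fun _ => rfl)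
    intro v h3 h4
    unfold ray at h3 h4
    simp only at h3 h4
    omega

end

end DA
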