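import Pool.Agent.DA.WRule4

/-!
# Rules for the legs on the brick wall: two rows
-/

open Set
open scoped Matroid

namespace DA

lemma stp_down (v : ℕ × ℕ) : stp 3 v = (v.1, v.2 - 1) := rfl

section

variable {i : ℕ} {κ : ℕ × ℕ} {Λ B K : Set (ℕ × ℕ)} {ρ : ℕ × ℕ → ℕ × ℕ}
  {A : Finset (ℕ × ℕ)} {s : ℕ}

/-- **A long even run below the rest.** -/
theorem Ctx.p3u (h : Ctx i κ 0 0 Λ B K ρ A s) {a b y : ℕ} (hκ : κ = ((a + 1 - i) / 2, y))
    (ha : (a + i) % 2 = 1) (hb : (b + i) % 2 = 0) (hab : a + 3 ≤ b)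
    (hr : ∀ x, a ≤ x → x ≤ b → (x, y) ∈ Λ)
    (hΛ : ∀ p ∈ Λ, (p.2 = y ∧ a ≤ p.1 ∧ p.1 ≤ b) ∨ y < p.2) : HasLegs K B A s := by
  have hi := h.hi
  have m0 := hr a (by omega) (by omega)
  have m1 := hr (a + 1) (by omega) (by omega)
  have m2 := hr (a + 2) (by omega) (by omega)
  have mb := hr b (by omega) (by omega)
  have hpp := h.pos _ m0
  simp only at hpp
  have hk1 : κ.1 = (a + 1 - i) / 2 := by rw [hκ]
  have hk2 : κ.2 = y := by rw [hκ]
  have d0 := h.left (c := κ) m0 (by
    rw [sd_le]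
    simp only
    omega) (fun _ => ⟨by omega, fun h => by omega⟩) (by
    intro p hp h3 h4 _ h5
    omega) (by
    intro p hp hs h3 h4
    have h5 := hΛ p hp
    omega)
  have nb : sd ((b - i) / 2, y) κ ≤ s := by
    have h1 := h.chain h.kA hr (x := a + 1) (x' := b) (by omega) (by omega)
      (by have := h.half m1 (by simp only; omega) (by simp only; omega); omega)
    rwa [h.own mb (by omega)] at h1
  have d1 := h.right (c := κ) mb (by omega) (fun _ => ⟨by omega, fun h => by omega⟩) (by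
    intro p hp h3 h4 _ h5
    omega) (by
    intro p hp hs h3 h4
    have h5 := hΛ p hp
    omega)
  have d3 : ∃ p, Dir κ Λ ρ κ s 3 κ p := by
    by_cases hpar : (a + 1 + y) % 2 = 1
    · exact ⟨_, h.down m1 (by simp only; omega) (by simp only; omega)
        (Or.inl ⟨by simp only; omega, rfl⟩) (by
        intro p hp _ _
        have := hΛ p hp
        omega)⟩
    · exact ⟨_, h.down m2 (by simp only; omega) (by simp only; omega)
        (Or.inr ⟨by simp only; omega, rfl⟩) (by
        intro p hp _ _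
        have := hΛ p hp
        omega)⟩
  obtain ⟨p3, d3⟩ := d3
  refine h.lrd h.kA d0 d1 d3 ?_ ?_ ?_ (fun _ => Or.inr (Or.inr rfl)) <;> intro v h3 h4 <;>
    unfold ray at h3 h4 <;> simp only at h3 h4 <;> omega

/-- **A long even run above the rest.** -/
theorem Ctx.p3d (h : Ctx i κ 0 0 Λ B K ρ A s) {a b y : ℕ} (hκ : κ = ((a + 1 - i) / 2, y))
    (ha : (a + i) % 2 = 1) (hb : (b + i) % 2 = 0) (hab : a + 3 ≤ b)
    (hr : ∀ x, a ≤ x → x ≤ b → (x, y) ∈ Λ)
    (hΛ : ∀ p ∈ Λ, (p.2 = y ∧ a ≤ p.1 ∧ p.1 ≤ b) ∨ p.2 < y) : HasLegs K B A s := by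
  have hi := h.hi
  have m0 := hr a (by omega) (by omega)
  have m1 := hr (a + 1) (by omega) (by omega)
  have m2 := hr (a + 2) (by omega) (by omega)
  have mb := hr b (by omega) (by omega)
  have hpp := h.pos _ m0
  simp only at hpp
  have hk1 : κ.1 = (a + 1 - i) / 2 := by rw [hκ]
  have hk2 : κ.2 = y := by rw [hκ]
  have d0 := h.left (c := κ) m0 (by
    rw [sd_le]
    simp only
    omega) (fun _ => ⟨by omega, fun h => by omega⟩) (by
    intro p hp h3 h4 _ h5
    omega) (by
    intro p hp hs h3 h4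
    have h5 := hΛ p hp
    omega)
  have nb : sd ((b - i) / 2, y) κ ≤ s := by
    have h1 := h.chain h.kA hr (x := a + 1) (x' := b) (by omega) (by omega)
      (by have := h.half m1 (by simp only; omega) (by simp only; omega); omega)
    rwa [h.own mb (by omega)] at h1
  have d1 := h.right (c := κ) mb (by omega) (fun _ => ⟨by omega, fun h => by omega⟩) (by
    intro p hp h3 h4 _ h5
    omega) (by
    intro p hp hs h3 h4
    have h5 := hΛ p hp
    omega)
  have d2 : ∃ p, Dir κ Λ ρ κ s 2 κ p := by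
    by_cases hpar : (a + 1 + y) % 2 = 0
    · exact ⟨_, h.up m1 (by simp only; omega) (by simp only; omega)
        (Or.inl ⟨by simp only; omega, rfl⟩) (by
        intro p hp _ _
        have := hΛ p hp
        omega)⟩
    · exact ⟨_, h.up m2 (by simp only; omega) (by simp only; omega)
        (Or.inr ⟨by simp only; omega, rfl⟩) (by
        intro p hp _ _
        have := hΛ p hp
        omega)⟩
  obtain ⟨p2, d2⟩ := d2
  refine h.lru h.kA d0 d1 d2 ?_ ?_ ?_ (fun _ => Or.inr (Or.inr rfl)) <;> intro v h3 h4 <;>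
    unfold ray at h3 h4 <;> simp only at h3 h4 <;> omega

/-- **Two pairs in two rows.** -/
theorem Ctx.p4 (h : Ctx i κ 1 1 Λ B K ρ A s) {a x y y' : ℕ} (hκ : κ = ((a - i) / 2, y))
    (ha : (a + i) % 2 = 0) (hx : (x + i) % 2 = 1) (hyy : y ≠ y')
    (hΛ : ∀ p, p ∈ Λ ↔ (p.2 = y ∧ (p.1 = a ∨ p.1 = a + 1)) ∨
      (p.2 = y' ∧ (p.1 = x ∨ p.1 = x + 1)))
    (hA : ((x - i) / 2, y') ∈ A) : HasLegs K B A s := by
  have hi := h.hi
  have m1 : (a, y) ∈ Λ := (hΛ _).2 (Or.inl ⟨rfl, by simp⟩)
  have m2 : (a + 1, y) ∈ Λ := (hΛ _).2 (Or.inl ⟨rfl, by simp⟩)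
  have m3 : (x, y') ∈ Λ := (hΛ _).2 (Or.inr ⟨rfl, by simp⟩)
  have m4 : (x + 1, y') ∈ Λ := (hΛ _).2 (Or.inr ⟨rfl, by simp⟩)
  have hpp := h.pos _ m1
  have hpp' := h.pos _ m3
  simp only at hpp hpp'
  have hk1 : κ.1 = (a - i) / 2 := by rw [hκ]
  have hk2 : κ.2 = y := by rw [hκ]
  have dL := h.lk hκ ha m1 (by
    intro p hp _ _
    have := (hΛ p).1 hp
    omega) (by
    intro p hp hs h1 h2 h3
    have h4 := (hΛ p).1 hp
    have h5 := h.rh p hp
    unfold RbP at h5
    omega)
  rcases h.gapA _ hA κ h.kA with hs | hs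
  · have dR := (h.rk (x := a + 1) (y := y) (by rw [hκ]; exact Prod.ext (by simp only; omega) rfl)
      (by omega) m2 (by
      intro p hp _ _
      have := (hΛ p).1 hp
      omega) (by
      intro p hp hs h1 h2 h3
      have h4 := (hΛ p).1 hp
      have h5 := h.rh p hp
      unfold RbP at h5
      omega)).shift (by omega) (by rw [sd_self]; omega) (by omega)
    rw [stp_right] at dR
    rcases Nat.lt_or_gt_of_ne hyy with hlt | hlt
    · have dU := h.upS (c := κ) m3 (by omega) (by omega) (by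
        intro _ _ p hp h1 h2 h3
        omega) (by
        intro p hp hs h3 h4
        have h5 := (hΛ p).1 hp
        exact Prod.ext (by simp only; omega) (by simp only; omega))
      refine h.lru h.kA dL dR dU ?_ ?_ ?_ (fun _ => Or.inl rfl) <;> intro v h3 h4 <;>
        unfold ray at h3 h4 <;> simp only at h3 h4 <;> omega
    · have dD := h.downS (c := κ) m3 (by omega) (by omega) (by
        intro _ _ p hp h1 h2 h3
        omega) (by
        intro p hp hs h3 h4
        have h5 := (hΛ p).1 hp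
        exact Prod.ext (by simp only; omega) (by simp only; omega))
      refine h.lrd h.kA dL dR dD ?_ ?_ ?_ (fun _ => Or.inl rfl) <;> intro v h3 h4 <;>
        unfold ray at h3 h4 <;> simp only at h3 h4 <;> omega
  · have hk4 : s + 3 < sd κ ((x - i) / 2, y') := by
      rw [sd_comm]
      omega
    have dL2 := h.leftF (c := ((x - i) / 2, y')) m3 (by rw [sd_self]; omega) hk4 (by
      intro p hp hs h3 h4
      have h5 := (hΛ p).1 hp
      omega)
    have dR2 := h.rightF (c := ((x - i) / 2, y')) m4 (by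
      rw [sd_le]
      simp only
      omega) hk4 (by
      intro p hp hs h3 h4
      have h5 := (hΛ p).1 hp
      omega)
    refine h.mix hA h.kA (by omega) dL2 dR2 dL ?_ (fun h5 => by omega) (fun _ => rfl)
    intro v h3 h4
    unfold ray at h3 h4
    simp only at h3 h4
    omega

end

end DA
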