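import Pool.Agent.DA.WRule5

/-!
# Rules for the legs on the brick wall: two odd runs in two rows
-/

open Set
open scoped Matroid

namespace DA

section

variable {i : ℕ} {κ : ℕ × ℕ} {Λ B K : Set (ℕ × ℕ)} {ρ : ℕ × ℕ → ℕ × ℕ}
  {A : Finset (ℕ × ℕ)} {s : ℕ}

/-- **Odd runs, the rest is above.** -/
theorem Ctx.p5u (h : Ctx i κ 0 0 Λ B K ρ A s) {a a2 b2 x y y2 : ℕ}
    (hκ : κ = ((a + 1 - i) / 2, y)) (ha : (a + i) % 2 = 1) (m0 : (a, y) ∈ Λ)
    (m1 : (a + 1, y) ∈ Λ) (m2 : (a + 2, y) ∈ Λ) (hyy : y < y2)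
    (hr : ∀ x, a2 ≤ x → x ≤ b2 → (x, y2) ∈ Λ)
    (hΛ : ∀ p ∈ Λ, (p.2 = y ∧ a ≤ p.1) ∨ (p.2 = y2 ∧ a2 ≤ p.1 ∧ p.1 ≤ b2))
    (hx : a2 ≤ x ∧ x ≤ b2) (hs : ∀ x', a2 ≤ x' → x' ≤ b2 → (x' - i) / 2 = (x - i) / 2 → x' = x)
    (hnd : ¬ (y2 = y + 1 ∧ (x - i) / 2 = κ.1)) : HasLegs K B A s := by
  have hi := h.hi
  have hpp := h.pos _ m0
  simp only at hpp
  have hk1 : κ.1 = (a + 1 - i) / 2 := by rw [hκ]
  have hk2 : κ.2 = y := by rw [hκ]
  have mx := hr x hx.1 hx.2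
  have hown := h.own mx (by omega)
  rcases h.gap κ h.kA _ mx with hn | hn
  · rw [hown] at hn
    have d0 := h.left (c := κ) m0 (by
      rw [sd_le]
      simp only
      omega) (fun _ => ⟨by omega, fun h => by omega⟩) (by
      intro p hp h3 h4 _ h5
      omega) (by
      intro p hp hs h3 h4
      have h5 := hΛ p hp
      omega)
    have dA : ∃ p, Dir κ Λ ρ κ s 3 κ p := by
      by_cases hpar : (a + 1 + y) % 2 = 1
      · exact ⟨_, h.down m1 (by simp only; omega) (by simp only; omega)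
          (Or.inl ⟨by simp only; omega, rfl⟩) (by
          intro p hp _ _
          have := hΛ p hp
          omega)⟩
      · exact ⟨_, h.down m2 (by simp only; omega) (by simp only; omega)
          (Or.inr ⟨by simp only; omega, rfl⟩) (by
          intro p hp _ _
          have := hΛ p hp
          omega)⟩
    obtain ⟨pA, dA⟩ := dA
    have dT := h.upS (c := κ) mx (by omega) (by omega) (by
      intro h1 h2
      exact absurd ⟨by omega, h2⟩ hnd) (by
      intro p hp _ h3 h4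
      have h5 := hΛ p hp
      have h6 : p.2 = y2 := by omega
      have h7 := hs p.1 (by omega) (by omega) h3
      exact Prod.ext h7 h6)
    refine h.lud h.kA d0 dT dA ?_ ?_ ?_ (fun _ => Or.inr (Or.inr rfl)) <;> intro v h3 h4 <;>
      unfold ray at h3 h4 <;> simp only at h3 h4 <;> omega
  · rw [hown] at hn
    refine h.p1 hκ ha m0 m1 m2 ?_
    intro p hp hps
    rcases hΛ p hp with h5 | ⟨h5, h6, h7⟩
    · exact h5
    · exfalso
      have e : p = (p.1, y2) := Prod.ext rfl h5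
      rw [e] at hps
      have h8 := h.chain h.kA hr (x := p.1) (x' := x) ⟨h6, h7⟩ hx hps
      rw [hown] at h8
      omega

/-- **The single is directly above, the right half looks at it.** -/
theorem Ctx.p7u (h : Ctx i κ 0 1 Λ B K ρ A s) {a a2 b2 x y y2 : ℕ}
    (hκ : κ = ((a + 1 - i) / 2, y)) (ha : (a + i) % 2 = 1) (m0 : (a, y) ∈ Λ)
    (m1 : (a + 1, y) ∈ Λ) (hyy : y2 = y + 1)
    (hr : ∀ x, a2 ≤ x → x ≤ b2 → (x, y2) ∈ Λ)
    (hΛ : ∀ p ∈ Λ, (p.2 = y ∧ a ≤ p.1) ∨ (p.2 = y2 ∧ a2 ≤ p.1 ∧ p.1 ≤ b2))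
    (hx : a2 ≤ x ∧ x ≤ b2) (hs : ∀ x', a2 ≤ x' → x' ≤ b2 → (x' - i) / 2 = (x - i) / 2 → x' = x)
    (hd : (x - i) / 2 = κ.1) (hpar : (a + 2 + y) % 2 = 0) : HasLegs K B A s := by
  have hi := h.hi
  have hpp := h.pos _ m0
  simp only at hpp
  have hk1 : κ.1 = (a + 1 - i) / 2 := by rw [hκ]
  have hk2 : κ.2 = y := by rw [hκ]
  have mx := hr x hx.1 hx.2
  have d0 := h.left (c := κ) m0 (by
    rw [sd_le]
    simp only
    omega) (fun _ => ⟨by omega, fun h => by omega⟩) (by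
    intro p hp h3 h4 _ h5
    omega) (by
    intro p hp hs h3 h4
    have h5 := hΛ p hp
    omega)
  have dA := h.down m1 (by simp only; omega) (by simp only; omega)
    (Or.inl ⟨by simp only; omega, rfl⟩) (by
    intro p hp _ _
    have := hΛ p hp
    omega)
  have dT := h.upS (c := κ) mx (by
    rw [sd_le]
    simp only
    omega) (by omega) (by
    intro h1 h2 p hp h3 h4 h5
    exact Or.inr ⟨by omega, rfl⟩) (by
    intro p hp _ h3 h4
    have h5 := hΛ p hp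
    have h6 : p.2 = y2 := by omega
    have h7 := hs p.1 (by omega) (by omega) h3
    exact Prod.ext h7 h6)
  refine h.lud h.kA d0 dT dA ?_ ?_ ?_ (fun _ => Or.inr (Or.inr rfl)) <;> intro v h3 h4 <;>
    unfold ray at h3 h4 <;> simp only at h3 h4 <;> omega

/-- **The single is directly above, a run of length at least five.** -/
theorem Ctx.p6u (h : Ctx i κ 1 0 Λ B K ρ A s) {a a2 b2 x y y2 : ℕ}
    (hκ : κ = ((a + 3 - i) / 2, y)) (ha : (a + i) % 2 = 1)
    (hr1 : ∀ x, a ≤ x → x ≤ a + 4 → (x, y) ∈ Λ) (hyy : y2 = y + 1)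
    (hr : ∀ x, a2 ≤ x → x ≤ b2 → (x, y2) ∈ Λ)
    (hΛ : ∀ p ∈ Λ, (p.2 = y ∧ a ≤ p.1) ∨ (p.2 = y2 ∧ a2 ≤ p.1 ∧ p.1 ≤ b2))
    (hx : a2 ≤ x ∧ x ≤ b2) (hs : ∀ x', a2 ≤ x' → x' ≤ b2 → (x' - i) / 2 = (x - i) / 2 → x' = x)
    (hd : (x - i) / 2 + 1 = κ.1) (hpar : (a + 3 + y) % 2 = 0) : HasLegs K B A s := by
  have hi := h.hi
  have m0 := hr1 a (by omega) (by omega)
  have m3 := hr1 (a + 3) (by omega) (by omega)
  have m4 := hr1 (a + 4) (by omega) (by omega)
  have hpp := h.pos _ m0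
  simp only at hpp
  have hk1 : κ.1 = (a + 3 - i) / 2 := by rw [hκ]
  have hk2 : κ.2 = y := by rw [hκ]
  have mx := hr x hx.1 hx.2
  have na : sd ((a - i) / 2, y) κ ≤ s := by
    have h1 := h.chain h.kA hr1 (x := a + 3) (x' := a) (by omega) (by omega)
      (by have := h.half m3 (by simp only; omega) (by simp only; omega); omega)
    rwa [h.own m0 (by omega)] at h1
  have d0 := h.left (c := κ) m0 (by omega) (fun _ => ⟨by omega, fun h => by omega⟩) (by
    intro p hp h3 h4 _ h5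
    omega) (by
    intro p hp hs h3 h4
    have h5 := hΛ p hp
    omega)
  have dA := h.down m4 (by simp only; omega) (by simp only; omega)
    (Or.inr ⟨by simp only; omega, rfl⟩) (by
    intro p hp _ _
    have := hΛ p hp
    omega)
  have dT := h.upS (c := κ) mx (by
    rw [sd_le]
    simp only
    omega) (by omega) (by
    intro h1 h2
    omega) (by
    intro p hp _ h3 h4
    have h5 := hΛ p hp
    have h6 : p.2 = y2 := by omega
    have h7 := hs p.1 (by omega) (by omega) h3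
    exact Prod.ext h7 h6)
  refine h.lud h.kA d0 dT dA ?_ ?_ ?_ (fun _ => Or.inr (Or.inr rfl)) <;> intro v h3 h4 <;>
    unfold ray at h3 h4 <;> simp only at h3 h4 <;> omega

/-- **A run of three, the right end; the rest is directly above.** -/
theorem Ctx.p8u (h : Ctx i κ 0 0 Λ B K ρ A s) {a a2 b2 x x0 y y2 : ℕ}
    (hκ : κ = ((a - i) / 2, y)) (ha : (a + i) % 2 = 0)
    (hr1 : ∀ x, a ≤ x → x ≤ a + 2 → (x, y) ∈ Λ) (hyy : y2 = y + 1)
    (hr : ∀ x, a2 ≤ x → x ≤ b2 → (x, y2) ∈ Λ)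
    (hΛ : ∀ p ∈ Λ, (p.2 = y ∧ a ≤ p.1 ∧ p.1 ≤ a + 2) ∨ (p.2 = y2 ∧ a2 ≤ p.1 ∧ p.1 ≤ b2))
    (hx : a2 ≤ x ∧ x ≤ b2) (hs : ∀ x', a2 ≤ x' → x' ≤ b2 → (x' - i) / 2 = (x - i) / 2 → x' = x)
    (hx0 : a2 ≤ x0 ∧ x0 ≤ b2) (hx0' : x0 = a + 1 ∨ x0 = a + 2)
    (hnd : (x - i) / 2 ≠ κ.1) (hpar : (a + 1 + y) % 2 = 0) : HasLegs K B A s := by
  have hi := h.hi
  have m0 := hr1 a (by omega) (by omega)
  have m1 := hr1 (a + 1) (by omega) (by omega)
  have m2 := hr1 (a + 2) (by omega) (by omega)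
  have hpp := h.pos _ m0
  simp only at hpp
  have hk1 : κ.1 = (a - i) / 2 := by rw [hκ]
  have hk2 : κ.2 = y := by rw [hκ]
  have mx := hr x hx.1 hx.2
  have mx0 := hr x0 hx0.1 hx0.2
  have hown := h.own mx (by omega)
  have hn : sd ((x - i) / 2, y2) κ ≤ s := by
    have h1 := h.chain h.kA hr (x := x0) (x' := x) hx0 hx (by
      rw [h.own mx0 (by omega), sd_le]
      simp only
      omega)
    rwa [hown] at h1
  have d1 := h.right (c := κ) m2 (by
    rw [sd_le]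
    simp only
    omega) (fun _ => ⟨by omega, fun h => by omega⟩) (by
    intro p hp h3 h4 _ h5
    omega) (by
    intro p hp hs h3 h4
    have h5 := hΛ p hp
    omega)
  have dA := h.down m0 (by simp only; omega) (by simp only; omega)
    (Or.inl ⟨by simp only; omega, rfl⟩) (by
    intro p hp _ _
    have := hΛ p hp
    omega)
  have dT := h.upS (c := κ) mx (by omega) (by omega) (by
    intro h1 h2
    exact absurd h2 hnd) (by
    intro p hp _ h3 h4
    have h5 := hΛ p hp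
    have h6 : p.2 = y2 := by omega
    have h7 := hs p.1 (by omega) (by omega) h3
    exact Prod.ext h7 h6)
  refine h.rud h.kA d1 dT dA ?_ ?_ ?_ (fun _ => Or.inr (Or.inr rfl)) <;> intro v h3 h4 <;>
    unfold ray at h3 h4 <;> simp only at h3 h4 <;> omega

/-- **Odd runs, the rest is below.** -/
theorem Ctx.p5d (h : Ctx i κ 0 0 Λ B K ρ A s) {a a2 b2 x y y2 : ℕ}
    (hκ : κ = ((a + 1 - i) / 2, y)) (ha : (a + i) % 2 = 1) (m0 : (a, y) ∈ Λ)
    (m1 : (a + 1, y) ∈ Λ) (m2 : (a + 2, y) ∈ Λ) (hyy : y2 < y)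
    (hr : ∀ x, a2 ≤ x → x ≤ b2 → (x, y2) ∈ Λ)
    (hΛ : ∀ p ∈ Λ, (p.2 = y ∧ a ≤ p.1) ∨ (p.2 = y2 ∧ a2 ≤ p.1 ∧ p.1 ≤ b2))
    (hx : a2 ≤ x ∧ x ≤ b2) (hs : ∀ x', a2 ≤ x' → x' ≤ b2 → (x' - i) / 2 = (x - i) / 2 → x' = x)
    (hnd : ¬ (y2 + 1 = y ∧ (x - i) / 2 = κ.1)) : HasLegs K B A s := by
  have hi := h.hi
  have hpp := h.pos _ m0
  simp only at hpp
  have hk1 : κ.1 = (a + 1 - i) / 2 := by rw [hκ]
  have hk2 : κ.2 = y := by rw [hκ]
  have mx := hr x hx.1 hx.2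
  have hown := h.own mx (by omega)
  rcases h.gap κ h.kA _ mx with hn | hn
  · rw [hown] at hn
    have d0 := h.left (c := κ) m0 (by
      rw [sd_le]
      simp only
      omega) (fun _ => ⟨by omega, fun h => by omega⟩) (by
      intro p hp h3 h4 _ h5
      omega) (by
      intro p hp hs h3 h4
      have h5 := hΛ p hp
      omega)
    have dA : ∃ p, Dir κ Λ ρ κ s 2 κ p := by
      by_cases hpar : (a + 1 + y) % 2 = 0
      · exact ⟨_, h.up m1 (by simp only; omega) (by simp only; omega)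
          (Or.inl ⟨by simp only; omega, rfl⟩) (by
          intro p hp _ _
          have := hΛ p hp
          omega)⟩
      · exact ⟨_, h.up m2 (by simp only; omega) (by simp only; omega)
          (Or.inr ⟨by simp only; omega, rfl⟩) (by
          intro p hp _ _
          have := hΛ p hp
          omega)⟩
    obtain ⟨pA, dA⟩ := dA
    have dT := h.downS (c := κ) mx (by omega) (by omega) (by
      intro h1 h2
      exact absurd ⟨by omega, h2⟩ hnd) (by
      intro p hp _ h3 h4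
      have h5 := hΛ p hp
      have h6 : p.2 = y2 := by omega
      have h7 := hs p.1 (by omega) (by omega) h3
      exact Prod.ext h7 h6)
    refine h.lud h.kA d0 dA dT ?_ ?_ ?_ (fun _ => Or.inr (Or.inl rfl)) <;> intro v h3 h4 <;>
      unfold ray at h3 h4 <;> simp only at h3 h4 <;> omega
  · rw [hown] at hn
    refine h.p1 hκ ha m0 m1 m2 ?_
    intro p hp hps
    rcases hΛ p hp with h5 | ⟨h5, h6, h7⟩
    · exact h5
    · exfalso
      have e : p = (p.1, y2) := Prod.ext rfl h5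
      rw [e] at hps
      have h8 := h.chain h.kA hr (x := p.1) (x' := x) ⟨h6, h7⟩ hx hps
      rw [hown] at h8
      omega

/-- **The single is directly below, the right half looks at it.** -/
theorem Ctx.p7d (h : Ctx i κ 0 1 Λ B K ρ A s) {a a2 b2 x y y2 : ℕ}
    (hκ : κ = ((a + 1 - i) / 2, y)) (ha : (a + i) % 2 = 1) (m0 : (a, y) ∈ Λ)
    (m1 : (a + 1, y) ∈ Λ) (hyy : y2 + 1 = y)
    (hr : ∀ x, a2 ≤ x → x ≤ b2 → (x, y2) ∈ Λ)
    (hΛ : ∀ p ∈ Λ, (p.2 = y ∧ a ≤ p.1) ∨ (p.2 = y2 ∧ a2 ≤ p.1 ∧ p.1 ≤ b2))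
    (hx : a2 ≤ x ∧ x ≤ b2) (hs : ∀ x', a2 ≤ x' → x' ≤ b2 → (x' - i) / 2 = (x - i) / 2 → x' = x)
    (hd : (x - i) / 2 = κ.1) (hpar : (a + 2 + y) % 2 = 1) : HasLegs K B A s := by
  have hi := h.hi
  have hpp := h.pos _ m0
  simp only at hpp
  have hk1 : κ.1 = (a + 1 - i) / 2 := by rw [hκ]
  have hk2 : κ.2 = y := by rw [hκ]
  have mx := hr x hx.1 hx.2
  have d0 := h.left (c := κ) m0 (by
    rw [sd_le]
    simp only
    omega) (fun _ => ⟨by omega, fun h => by omega⟩) (by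
    intro p hp h3 h4 _ h5
    omega) (by
    intro p hp hs h3 h4
    have h5 := hΛ p hp
    omega)
  have dA := h.up m1 (by simp only; omega) (by simp only; omega)
    (Or.inl ⟨by simp only; omega, rfl⟩) (by
    intro p hp _ _
    have := hΛ p hp
    omega)
  have dT := h.downS (c := κ) mx (by
    rw [sd_le]
    simp only
    omega) (by omega) (by
    intro h1 h2 p hp h3 h4 h5
    exact Or.inr ⟨by omega, rfl⟩) (by
    intro p hp _ h3 h4
    have h5 := hΛ p hp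
    have h6 : p.2 = y2 := by omega
    have h7 := hs p.1 (by omega) (by omega) h3
    exact Prod.ext h7 h6)
  refine h.lud h.kA d0 dA dT ?_ ?_ ?_ (fun _ => Or.inr (Or.inl rfl)) <;> intro v h3 h4 <;>
    unfold ray at h3 h4 <;> simp only at h3 h4 <;> omega

/-- **The single is directly below, a run of length at least five.** -/
theorem Ctx.p6d (h : Ctx i κ 1 0 Λ B K ρ A s) {a a2 b2 x y y2 : ℕ}
    (hκ : κ = ((a + 3 - i) / 2, y)) (ha : (a + i) % 2 = 1)
    (hr1 : ∀ x, a ≤ x → x ≤ a + 4 → (x, y) ∈ Λ) (hyy : y2 + 1 = y)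
    (hr : ∀ x, a2 ≤ x → x ≤ b2 → (x, y2) ∈ Λ)
    (hΛ : ∀ p ∈ Λ, (p.2 = y ∧ a ≤ p.1) ∨ (p.2 = y2 ∧ a2 ≤ p.1 ∧ p.1 ≤ b2))
    (hx : a2 ≤ x ∧ x ≤ b2) (hs : ∀ x', a2 ≤ x' → x' ≤ b2 → (x' - i) / 2 = (x - i) / 2 → x' = x)
    (hd : (x - i) / 2 + 1 = κ.1) (hpar : (a + 3 + y) % 2 = 1) : HasLegs K B A s := by
  have hi := h.hi
  have m0 := hr1 a (by omega) (by omega)
  have m3 := hr1 (a + 3) (by omega) (by omega)
  have m4 := hr1 (a + 4) (by omega) (by omega)
  have hpp := h.pos _ m0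
  simp only at hpp
  have hk1 : κ.1 = (a + 3 - i) / 2 := by rw [hκ]
  have hk2 : κ.2 = y := by rw [hκ]
  have mx := hr x hx.1 hx.2
  have na : sd ((a - i) / 2, y) κ ≤ s := by
    have h1 := h.chain h.kA hr1 (x := a + 3) (x' := a) (by omega) (by omega)
      (by have := h.half m3 (by simp only; omega) (by simp only; omega); omega)
    rwa [h.own m0 (by omega)] at h1
  have d0 := h.left (c := κ) m0 (by omega) (fun _ => ⟨by omega, fun h => by omega⟩) (by
    intro p hp h3 h4 _ h5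
    omega) (by
    intro p hp hs h3 h4
    have h5 := hΛ p hp
    omega)
  have dA := h.up m4 (by simp only; omega) (by simp only; omega)
    (Or.inr ⟨by simp only; omega, rfl⟩) (by
    intro p hp _ _
    have := hΛ p hp
    omega)
  have dT := h.downS (c := κ) mx (by
    rw [sd_le]
    simp only
    omega) (by omega) (by
    intro h1 h2
    omega) (by
    intro p hp _ h3 h4
    have h5 := hΛ p hp
    have h6 : p.2 = y2 := by omega
    have h7 := hs p.1 (by omega) (by omega) h3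
    exact Prod.ext h7 h6)
  refine h.lud h.kA d0 dA dT ?_ ?_ ?_ (fun _ => Or.inr (Or.inl rfl)) <;> intro v h3 h4 <;>
    unfold ray at h3 h4 <;> simp only at h3 h4 <;> omega

/-- **A run of three, the right end; the rest is directly below.** -/
theorem Ctx.p8d (h : Ctx i κ 0 0 Λ B K ρ A s) {a a2 b2 x x0 y y2 : ℕ}
    (hκ : κ = ((a - i) / 2, y)) (ha : (a + i) % 2 = 0)
    (hr1 : ∀ x, a ≤ x → x ≤ a + 2 → (x, y) ∈ Λ) (hyy : y2 + 1 = y)
    (hr : ∀ x, a2 ≤ x → x ≤ b2 → (x, y2) ∈ Λ)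
    (hΛ : ∀ p ∈ Λ, (p.2 = y ∧ a ≤ p.1 ∧ p.1 ≤ a + 2) ∨ (p.2 = y2 ∧ a2 ≤ p.1 ∧ p.1 ≤ b2))
    (hx : a2 ≤ x ∧ x ≤ b2) (hs : ∀ x', a2 ≤ x' → x' ≤ b2 → (x' - i) / 2 = (x - i) / 2 → x' = x)
    (hx0 : a2 ≤ x0 ∧ x0 ≤ b2) (hx0' : x0 = a + 1 ∨ x0 = a + 2)
    (hnd : (x - i) / 2 ≠ κ.1) (hpar : (a + 1 + y) % 2 = 1) : HasLegs K B A s := by
  have hi := h.hi
  have m0 := hr1 a (by omega) (by omega)
  have m1 := hr1 (a + 1) (by omega) (by omega)
  have m2 := hr1 (a + 2) (by omega) (by omega)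
  have hpp := h.pos _ m0
  simp only at hpp
  have hk1 : κ.1 = (a - i) / 2 := by rw [hκ]
  have hk2 : κ.2 = y := by rw [hκ]
  have mx := hr x hx.1 hx.2
  have mx0 := hr x0 hx0.1 hx0.2
  have hown := h.own mx (by omega)
  have hn : sd ((x - i) / 2, y2) κ ≤ s := by
    have h1 := h.chain h.kA hr (x := x0) (x' := x) hx0 hx (by
      rw [h.own mx0 (by omega), sd_le]
      simp only
      omega)
    rwa [hown] at h1
  have d1 := h.right (c := κ) m2 (by
    rw [sd_le]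
    simp only
    omega) (fun _ => ⟨by omega, fun h => by omega⟩) (by
    intro p hp h3 h4 _ h5
    omega) (by
    intro p hp hs h3 h4
    have h5 := hΛ p hp
    omega)
  have dA := h.up m0 (by simp only; omega) (by simp only; omega)
    (Or.inl ⟨by simp only; omega, rfl⟩) (by
    intro p hp _ _
    have := hΛ p hp
    omega)
  have dT := h.downS (c := κ) mx (by omega) (by omega) (by
    intro h1 h2
    exact absurd h2 hnd) (by
    intro p hp _ h3 h4
    have h5 := hΛ p hp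
    have h6 : p.2 = y2 := by omega
    have h7 := hs p.1 (by omega) (by omega) h3
    exact Prod.ext h7 h6)
  refine h.rud h.kA d1 dA dT ?_ ?_ ?_ (fun _ => Or.inr (Or.inl rfl)) <;> intro v h3 h4 <;>
    unfold ray at h3 h4 <;> simp only at h3 h4 <;> omega

end

end DA
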