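import Pool.Agent.DA.WGeo
import Pool.Agent.P6.Menger

/-!
# Blocks of the wall: Menger paths to different sides, and a partition of the block
-/

open Set Relation

namespace DA

open SimpleGraph

section

variable {r : ℕ × ℕ → ℕ × ℕ → Prop}

/-! ### Extension of a partial partition -/

/-- every vertex of `D` is connected, inside of its class, to the side given by its class -/
def GoodS (r : ℕ × ℕ → ℕ × ℕ → Prop) (Sd : ℕ → ℕ × ℕ → Prop) (D : Set (ℕ × ℕ))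
    (s : ℕ × ℕ → ℕ) : Prop :=
  ∀ v ∈ D, s v < 4 ∧ ∃ u ∈ D, Cn r {x | x ∈ D ∧ s x = s v} v u ∧ Sd (s v) u ∧ s u = s v

lemma vor {Sd : ℕ → ℕ × ℕ → Prop} {Bk : Set (ℕ × ℕ)}
    (hf : Bk.Finite) (hc : ∀ v ∈ Bk, ∃ u ∈ Bk, Cn r Bk v u ∧ ∃ d < 4, Sd d u) :
    ∀ (D : Set (ℕ × ℕ)) (s : ℕ × ℕ → ℕ), D ⊆ Bk → GoodS r Sd D s →
      ∃ s' : ℕ × ℕ → ℕ, GoodS r Sd Bk s' ∧ ∀ v ∈ D, s' v = s v := by
  classical
  have key : ∀ n, ∀ (D : Set (ℕ × ℕ)) (s : ℕ × ℕ → ℕ), D ⊆ Bk → GoodS r Sd D s →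
      (Bk \ D).ncard = n → ∃ s' : ℕ × ℕ → ℕ, GoodS r Sd Bk s' ∧ ∀ v ∈ D, s' v = s v := by
    intro n
    induction n with
    | zero =>
      intro D s hD hg hn
      have h1 : Bk \ D = ∅ := (ncard_eq_zero (hf.subset sdiff_subset)).1 hn
      have h2 : D = Bk := hD.antisymm (sdiff_eq_empty.1 h1)
      rw [h2] at hg
      exact ⟨s, hg, fun v _ => rfl⟩
    | succ n ih =>
      intro D s hD hg hn
      have hne : (Bk \ D).Nonempty := by
        rw [← ncard_pos (hf.subset sdiff_subset)]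
        omega
      -- a vertex next to `D` or at a side
      obtain ⟨v, hvB, hvD, hv⟩ : ∃ v ∈ Bk, v ∉ D ∧ ((∃ u ∈ D, r v u) ∨ ∃ d < 4, Sd d v) := by
        obtain ⟨v, hv⟩ := hne
        obtain ⟨u, hu, h1, d, hd, hdu⟩ := hc v hv.1
        have h2 : ∀ v, Cn r Bk v u → v ∉ D →
            ∃ v ∈ Bk, v ∉ D ∧ ((∃ u ∈ D, r v u) ∨ ∃ d < 4, Sd d v) := by
          intro v h1
          unfold Cn at h1
          induction h1 using ReflTransGen.head_induction_on with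
          | refl => exact fun h3 => ⟨u, hu, h3, Or.inr ⟨d, hd, hdu⟩⟩
          | @head a c h3 h4 ih' =>
            intro h5
            by_cases h6 : c ∈ D
            · exact ⟨a, h3.2.1, h5, Or.inl ⟨c, h6, h3.1⟩⟩
            · exact ih' h6
        exact h2 v h1 hv.2
      -- the new class
      obtain ⟨c, hc4, hcn⟩ : ∃ c, c < 4 ∧ ((∃ u ∈ D, r v u ∧ s u = c) ∨ Sd c v) := by
        rcases hv with ⟨u, hu, h1⟩ | ⟨d, hd, h1⟩
        · exact ⟨s u, (hg u hu).1, Or.inl ⟨u, hu, h1, rfl⟩⟩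
        · exact ⟨d, hd, Or.inr h1⟩
      obtain ⟨s₁, hs₁⟩ : ∃ s₁ : ℕ × ℕ → ℕ, ∀ x, s₁ x = if x = v then c else s x :=
        ⟨_, fun _ => rfl⟩
      have hs₁v : s₁ v = c := by rw [hs₁, if_pos rfl]
      have hs₁D : ∀ x ∈ D, s₁ x = s x := by
        intro x hx
        rw [hs₁, if_neg]
        rintro rfl
        exact hvD hx
      have hsub : ∀ t, {x | x ∈ D ∧ s x = t} ⊆ {x | x ∈ insert v D ∧ s₁ x = t} := by
        rintro t x ⟨hx, hx2⟩
        exact ⟨Or.inr hx, by rw [hs₁D x hx]; exact hx2⟩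
      have hg₁ : GoodS r Sd (insert v D) s₁ := by
        intro x hx
        rcases hx with hxv | hx
        · rw [hxv, hs₁v]
          refine ⟨hc4, ?_⟩
          rcases hcn with ⟨u, hu, h1, h2⟩ | h1
          · obtain ⟨_, u', hu', h3, h4, h5⟩ := hg u hu
            rw [h2] at h3 h4 h5
            have h6 : Cn r {x | x ∈ insert v D ∧ s₁ x = c} v u := Cn.step h1
              (show v ∈ insert v D ∧ s₁ v = c from ⟨Or.inl rfl, hs₁v⟩)
              (show u ∈ insert v D ∧ s₁ u = c from ⟨Or.inr hu, by rw [hs₁D u hu]; exact h2⟩)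
            exact ⟨u', Or.inr hu', h6.trans (h3.mono (hsub c)), h4, by rw [hs₁D u' hu']; exact h5⟩
          · exact ⟨v, Or.inl rfl, Cn.refl, h1, hs₁v⟩
        · rw [hs₁D x hx]
          obtain ⟨h1, u', hu', h3, h4, h5⟩ := hg x hx
          exact ⟨h1, u', Or.inr hu', h3.mono (hsub _), h4, by rw [hs₁D u' hu']; exact h5⟩
      have h6 : Bk \ D = insert v (Bk \ insert v D) := by
        ext x
        simp only [mem_sdiff, mem_insert_iff]
        constructor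
        · rintro ⟨h6, h7⟩
          by_cases h8 : x = v
          · exact Or.inl h8
          · exact Or.inr ⟨h6, fun h9 => h9.elim h8 h7⟩
        · rintro (rfl | ⟨h6, h7⟩)
          · exact ⟨hvB, hvD⟩
          · exact ⟨h6, fun h8 => h7 (Or.inr h8)⟩
      rw [h6, ncard_insert_of_notMem (fun h6 => h6.2 (Or.inl rfl))
        (hf.subset sdiff_subset)] at hn
      obtain ⟨s', h7, h8⟩ := ih (insert v D) s₁ (insert_subset hvB hD) hg₁ (by omega)
      exact ⟨s', h7, fun x hx => by rw [h8 x (Or.inr hx), hs₁D x hx]⟩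
  exact fun D s hD hg => key _ D s hD hg rfl

/-! ### Menger paths to different sides -/

/-- the graph of the block with one vertex for each of `k` sides -/
def mgr (r : ℕ × ℕ → ℕ × ℕ → Prop) (hs : ∀ p q, r p q → r q p) (hw : ∀ p q, r p q → wadj p q)
    (Bk : Set (ℕ × ℕ)) (Sd : ℕ → ℕ × ℕ → Prop) (k : ℕ) : SimpleGraph ((ℕ × ℕ) ⊕ Fin k) where
  Adj x y := match x, y with
    | Sum.inl u, Sum.inl v => r u v ∧ u ∈ Bk ∧ v ∈ Bk
    | Sum.inl u, Sum.inr d => u ∈ Bk ∧ Sd d u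
    | Sum.inr d, Sum.inl u => u ∈ Bk ∧ Sd d u
    | Sum.inr _, Sum.inr _ => False
  symm := ⟨by
    rintro (u | d) (v | d') h
    · exact ⟨hs _ _ h.1, h.2.2, h.2.1⟩
    · exact h
    · exact h
    · exact h⟩
  loopless := ⟨by
    rintro (u | d) h
    · have := hw _ _ h.1
      unfold wadj at this
      omega
    · exact h⟩

lemma mgr_fin (hs : ∀ p q, r p q → r q p) (hw : ∀ p q, r p q → wadj p q)
    {Bk : Set (ℕ × ℕ)} (hf : Bk.Finite) (Sd : ℕ → ℕ × ℕ → Prop) (k : ℕ) :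
    (mgr r hs hw Bk Sd k).edgeSet.Finite := by
  have h1 : ((Sum.inl '' Bk : Set ((ℕ × ℕ) ⊕ Fin k)) ∪ Set.range Sum.inr).Finite :=
    (hf.image _).union (Set.finite_range _)
  refine ((h1.prod h1).image (fun z => s(z.1, z.2))).subset ?_
  intro e he
  induction e using Sym2.ind with
  | _ x y =>
    refine ⟨(x, y), ?_, rfl⟩
    have h2 : (mgr r hs hw Bk Sd k).Adj x y := he
    rcases x with u | d <;> rcases y with v | d'
    · exact ⟨Or.inl ⟨u, h2.2.1, rfl⟩, Or.inl ⟨v, h2.2.2, rfl⟩⟩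
    · exact ⟨Or.inl ⟨u, h2.1, rfl⟩, Or.inr ⟨d', rfl⟩⟩
    · exact ⟨Or.inr ⟨d, rfl⟩, Or.inl ⟨v, h2.1, rfl⟩⟩
    · exact absurd h2 id

/-- the tail of a walk to a side -/
lemma walk_tail (hs : ∀ p q, r p q → r q p) (hw : ∀ p q, r p q → wadj p q)
    {Bk : Set (ℕ × ℕ)} {Sd : ℕ → ℕ × ℕ → Prop} {k : ℕ} {d : Fin k} :
    ∀ {x y : (ℕ × ℕ) ⊕ Fin k} (p : (mgr r hs hw Bk Sd k).Walk x y), y = Sum.inr d →
      (∀ d' : Fin k, Sum.inr d' ∈ p.support → d' = d) → ∀ v, Sum.inl v ∈ p.support →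
      ∃ u, Cn r {x | Sum.inl x ∈ p.support} v u ∧ Sd d u ∧ Sum.inl u ∈ p.support ∧ u ∈ Bk ∧
        v ∈ Bk := by
  intro x y p
  induction p with
  | nil =>
    intro hy _ v hv
    rw [Walk.support_nil, List.mem_singleton] at hv
    rw [hy] at hv
    exact absurd hv (by simp)
  | @cons a c b hac p ih =>
    intro hy hd v hv
    rw [Walk.support_cons] at hd hv ⊢
    have hd' : ∀ d' : Fin k, Sum.inr d' ∈ p.support → d' = d := fun d' h' =>
      hd d' (List.mem_cons_of_mem _ h')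
    rw [List.mem_cons] at hv
    rcases hv with hv | hv
    · subst hv
      rcases c with v' | d'
      · obtain ⟨u, h1, h2, h3, h4, h5⟩ := ih hy hd' v' p.start_mem_support
        refine ⟨u, (Cn.step hac.1 (List.mem_cons_self) (List.mem_cons_of_mem _
          p.start_mem_support)).trans (h1.mono ?_), h2, List.mem_cons_of_mem _ h3, h4, hac.2.1⟩
        intro z hz
        exact List.mem_cons_of_mem _ hz
      · have h1 := hd' d' p.start_mem_support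
        rw [h1] at hac
        exact ⟨v, Cn.refl, hac.2, List.mem_cons_self, hac.1, hac.1⟩
    · obtain ⟨u, h1, h2, h3, h4, h5⟩ := ih hy hd' v hv
      exact ⟨u, h1.mono fun z hz => List.mem_cons_of_mem _ hz, h2, List.mem_cons_of_mem _ h3, h4,
        h5⟩

lemma joined_of_cn (hs : ∀ p q, r p q → r q p) (hw : ∀ p q, r p q → wadj p q)
    {Bk : Set (ℕ × ℕ)} {Sd : ℕ → ℕ × ℕ → Prop} {k : ℕ} {T : Set ((ℕ × ℕ) ⊕ Fin k)}
    {a b : ℕ × ℕ} (h : Cn r {x | x ∈ Bk ∧ Sum.inl x ∉ T} a b) (ha : Sum.inl a ∉ T) :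
    Pool.Agent.P6.Joined (mgr r hs hw Bk Sd k) Tᶜ (Sum.inl a) (Sum.inl b) := by
  unfold Cn at h
  induction h using ReflTransGen.head_induction_on with
  | refl => exact Pool.Agent.P6.Joined.refl ha
  | @head a c h1 _ ih =>
    have h2 : (mgr r hs hw Bk Sd k).Adj (Sum.inl a) (Sum.inl c) := ⟨h1.1, h1.2.1.1, h1.2.2.1⟩
    exact Pool.Agent.P6.Joined.cons h2 h1.2.1.2 (ih h1.2.2.2)

/-- **Menger paths to different sides**, as a partial partition. -/
lemma menger_sides (hs : ∀ p q, r p q → r q p) (hw : ∀ p q, r p q → wadj p q)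
    {Bk : Set (ℕ × ℕ)} (hf : Bk.Finite) {Sd : ℕ → ℕ × ℕ → Prop} {k : ℕ} (hk : k ≤ 4)
    {Λ : Finset (ℕ × ℕ)} (hΛ : Λ.card = k)
    (hcut : ∀ C : Finset (ℕ × ℕ), C.card < k → ∃ l ∈ Λ, l ∉ C ∧ ∀ d < k,
      ∃ u, Cn r {x | x ∈ Bk ∧ x ∉ C} l u ∧ Sd d u ∧ u ∈ Bk ∧ u ∉ C) :
    ∃ (D : Set (ℕ × ℕ)) (s : ℕ × ℕ → ℕ), D ⊆ Bk ∧ GoodS r Sd D s ∧ (Λ : Set (ℕ × ℕ)) ⊆ D ∧
      InjOn s (Λ : Set (ℕ × ℕ)) ∧ ∀ l ∈ Λ, s l < k := by
  classical
  obtain ⟨a, b, p, h1, h2, h3⟩ := Pool.Agent.P6.menger (G := mgr r hs hw Bk Sd k)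
    (mgr_fin hs hw hf Sd k) (A := Sum.inl '' (Λ : Set (ℕ × ℕ))) (B := Set.range Sum.inr) (k := k)
    (by
      intro T hT
      obtain ⟨C, hC⟩ : ∃ C : Finset (ℕ × ℕ), ∀ x, x ∈ C ↔ Sum.inl x ∈ T :=
        ⟨T.preimage Sum.inl (Sum.inl_injective.injOn), fun x => Finset.mem_preimage⟩
      obtain ⟨E, hE⟩ : ∃ E : Finset (Fin k), ∀ x, x ∈ E ↔ Sum.inr x ∈ T :=
        ⟨T.preimage Sum.inr (Sum.inr_injective.injOn), fun x => Finset.mem_preimage⟩
      have hCT : C.card ≤ T.card := Finset.card_le_card_of_injOn Sum.inl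
        (fun x hx => (hC x).1 hx) Sum.inl_injective.injOn
      have hET : E.card ≤ T.card := Finset.card_le_card_of_injOn Sum.inr
        (fun x hx => (hE x).1 hx) Sum.inr_injective.injOn
      obtain ⟨d, hd⟩ : ∃ d : Fin k, d ∉ E := by
        by_contra hcon
        push Not at hcon
        have h4 : E = Finset.univ := Finset.eq_univ_iff_forall.2 hcon
        rw [h4, Finset.card_univ, Fintype.card_fin] at hET
        omega
      obtain ⟨l, hl, hlC, hside⟩ := hcut C (by omega)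
      obtain ⟨u, g1, g2, g3, g4⟩ := hside d d.2
      refine ⟨Sum.inl l, ⟨l, hl, rfl⟩, Sum.inr d, ⟨d, rfl⟩, ?_⟩
      have hlT : Sum.inl l ∉ (T : Set ((ℕ × ℕ) ⊕ Fin k)) := fun h => hlC ((hC l).2 h)
      have g5 : Pool.Agent.P6.Joined (mgr r hs hw Bk Sd k) (T : Set ((ℕ × ℕ) ⊕ Fin k))ᶜ
          (Sum.inl l) (Sum.inl u) := by
        refine joined_of_cn hs hw (g1.mono ?_) hlT
        rintro x ⟨hx1, hx2⟩
        exact ⟨hx1, fun h => hx2 ((hC x).2 h)⟩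
      have g6 : Pool.Agent.P6.Joined (mgr r hs hw Bk Sd k) (T : Set ((ℕ × ℕ) ⊕ Fin k))ᶜ
          (Sum.inl u) (Sum.inr d) := by
        have g7 : (mgr r hs hw Bk Sd k).Adj (Sum.inl u) (Sum.inr d) := ⟨g3, g2⟩
        refine Pool.Agent.P6.Joined.cons g7 (fun h => g4 ((hC u).2 h)) ?_
        exact Pool.Agent.P6.Joined.refl (fun h => hd ((hE d).2 h))
      exact g5.trans g6)
  -- the ends
  have ha : ∀ i, ∃ l ∈ Λ, a i = Sum.inl l := by
    intro i
    obtain ⟨l, hl, h4⟩ := (h1 i).1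
    exact ⟨l, hl, h4.symm⟩
  have hb : ∀ i, ∃ d, b i = Sum.inr d := by
    intro i
    obtain ⟨d, h4⟩ := (h1 i).2.1
    exact ⟨d, h4.symm⟩
  choose l hl hal using ha
  choose d hbd using hb
  have hdisj : ∀ i j z, z ∈ (p i).support → z ∈ (p j).support → i = j := by
    intro i j z hz hz'
    by_contra hne
    exact h3 i j hne hz hz'
  have hlinj : Function.Injective l := by
    intro i j hij
    refine hdisj i j (Sum.inl (l i)) ?_ ?_
    · rw [← hal i]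
      exact (p i).start_mem_support
    · rw [hij, ← hal j]
      exact (p j).start_mem_support
  have hdinj : Function.Injective d := by
    intro i j hij
    refine hdisj i j (Sum.inr (d i)) ?_ ?_
    · rw [← hbd i]
      exact (p i).end_mem_support
    · rw [hij, ← hbd j]
      exact (p j).end_mem_support
  have honly : ∀ i, ∀ d' : Fin k, Sum.inr d' ∈ (p i).support → d' = d i := by
    intro i d' hd'
    have h4 := (h2 i _ hd').2 ⟨d', rfl⟩
    rw [hbd i] at h4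
    exact Sum.inr_injective h4
  -- the partial partition
  have hex : ∀ v : ℕ × ℕ, ∃ c : ℕ, ∀ i, Sum.inl v ∈ (p i).support → c = d i := by
    intro v
    by_cases hv : ∃ i, Sum.inl v ∈ (p i).support
    · obtain ⟨i, hi⟩ := hv
      refine ⟨d i, fun j hj => ?_⟩
      rw [hdisj i j _ hi hj]
    · push Not at hv
      exact ⟨0, fun i hi => absurd hi (hv i)⟩
  choose s hs' using hex
  refine ⟨{v | ∃ i, Sum.inl v ∈ (p i).support}, s, ?_, ?_, ?_, ?_, ?_⟩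
  · rintro v ⟨i, hi⟩
    obtain ⟨_, _, _, _, _, h5⟩ := walk_tail hs hw (p i) (hbd i) (honly i) v hi
    exact h5
  · rintro v ⟨i, hi⟩
    obtain ⟨u, g1, g2, g3, g4, g5⟩ := walk_tail hs hw (p i) (hbd i) (honly i) v hi
    have g6 := hs' v i hi
    refine ⟨by rw [g6]; have := (d i).2; omega, u, ⟨i, g3⟩, g1.mono ?_, by rw [g6]; exact g2, ?_⟩
    · intro z hz
      exact ⟨⟨i, hz⟩, by rw [hs' z i hz, g6]⟩
    · rw [hs' u i g3, g6]
  · intro x hx
    obtain ⟨i, hi⟩ : ∃ i, l i = x := by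
      have h4 : Finset.univ.image l = Λ := by
        refine Finset.eq_of_subset_of_card_le ?_ ?_
        · intro y hy
          obtain ⟨i, _, rfl⟩ := Finset.mem_image.1 hy
          exact hl i
        · rw [hΛ, Finset.card_image_of_injective _ hlinj, Finset.card_univ, Fintype.card_fin]
      have h5 : x ∈ Finset.univ.image l := by
        rw [h4]
        exact hx
      obtain ⟨i, _, hi⟩ := Finset.mem_image.1 h5
      exact ⟨i, hi⟩
    refine ⟨i, ?_⟩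
    rw [← hi, ← hal i]
    exact (p i).start_mem_support
  all_goals
    have hall : ∀ x ∈ Λ, ∃ i, l i = x ∧ s x = d i := by
      intro x hx
      have h4 : Finset.univ.image l = Λ := by
        refine Finset.eq_of_subset_of_card_le ?_ ?_
        · intro y hy
          obtain ⟨i, _, rfl⟩ := Finset.mem_image.1 hy
          exact hl i
        · rw [hΛ, Finset.card_image_of_injective _ hlinj, Finset.card_univ, Fintype.card_fin]
      have h5 : x ∈ Finset.univ.image l := by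
        rw [h4]
        exact hx
      obtain ⟨i, _, hi⟩ := Finset.mem_image.1 h5
      refine ⟨i, hi, hs' x i ?_⟩
      rw [← hi, ← hal i]
      exact (p i).start_mem_support
  · intro x hx y hy hxy
    obtain ⟨i, hi, hi'⟩ := hall x hx
    obtain ⟨j, hj, hj'⟩ := hall y hy
    rw [hi', hj'] at hxy
    have h4 : i = j := hdinj (Fin.ext hxy)
    rw [← hi, ← hj, h4]
  · intro x hx
    obtain ⟨i, _, hi'⟩ := hall x hx
    rw [hi']
    exact (d i).2

/-! ### The block -/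

lemma rc_finite (x₀ x₁ y₀ y₁ : ℕ) (C : Set (ℕ × ℕ)) : (rc x₀ x₁ y₀ y₁ C).Finite := by
  refine ((Set.finite_Iio x₁).prod (Set.finite_Iio y₁)).subset ?_
  rintro v ⟨h1, _⟩
  exact ⟨h1.2.1, h1.2.2.2⟩

/-- Everything in a block is connected. -/
theorem Bx.all_conn {x₀ x₁ y₀ y₁ R : ℕ} {o : ℕ × ℕ} (h : Bx r x₀ x₁ y₀ y₁ o R)
    (ho : x₀ + RE R + R ≤ o.1 ∧ o.1 + RE R + R < x₁ ∧ y₀ + RE R + R ≤ o.2 ∧ o.2 + RE R + R < y₁)
    (HC : ∀ p, sd p o ≤ R → (∃ q, r p q) → ∃ x, RE R ≤ sd x p ∧ Cn r univ p x) {v : ℕ × ℕ}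
    (hv : v ∈ rc x₀ x₁ y₀ y₁ ∅) (hq : ∃ q, r v q) : Cn r (rc x₀ x₁ y₀ y₁ ∅) v (x₀, y₀) := by
  have hE : RE R = 8 * R + 40 := rfl
  have hr0 := h.row (C := ∅) (y := y₀) (by omega) (by omega) (fun x => notMem_empty _)
  have hc0 := h.col (C := ∅) (x := x₀) (by omega) (by omega)
    (fun x => ⟨notMem_empty _, notMem_empty _⟩)
  have hv1 := hv.1
  by_cases hvo : sd v o ≤ R
  · obtain ⟨x, hx, hwalk⟩ := HC v hvo hq
    have h8 := sd_le.1 hvo
    obtain ⟨xc, yc, g1, g2, g3, g4, g5, g6, g7⟩ := h.esc ∅ (by simp) (l := v) (x' := x)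
      (by omega) (by
        rw [Finset.coe_empty, compl_empty]
        exact hwalk) hx
    rw [Finset.coe_empty] at g5 g6 g7
    refine g7.trans (onC_conn h.sym (by omega) (by omega) hr0 hc0 ⟨?_, Or.inl g5⟩)
    show x₀ ≤ xc ∧ xc < x₁ ∧ y₀ ≤ yc ∧ yc < y₁
    omega
  · have h8 : ¬ (v.1 ≤ o.1 + R ∧ o.1 ≤ v.1 + R ∧ v.2 ≤ o.2 + R ∧ o.2 ≤ v.2 + R) :=
      fun h9 => hvo (sd_le.2 h9)
    refine onC_conn h.sym (by omega) (by omega) hr0 hc0 ⟨hv1, ?_⟩
    by_cases h9 : v.2 + R < o.2 ∨ o.2 + R < v.2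
    · exact Or.inl (h.row (by omega) h9 (fun x => notMem_empty _))
    · right
      by_cases h10 : v.1 < o.1
      · by_cases h11 : v.1 = x₀
        · exact ⟨x₀, le_rfl, by omega, Or.inl h11, hc0⟩
        · exact ⟨v.1 - 1, by omega, by omega, by omega, h.col (by omega) (by omega)
            (fun x => ⟨notMem_empty _, notMem_empty _⟩)⟩
      · by_cases h11 : v.1 + 1 = x₁
        · exact ⟨v.1 - 1, by omega, by omega, by omega, h.col (by omega) (by omega)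
            (fun x => ⟨notMem_empty _, notMem_empty _⟩)⟩
        · exact ⟨v.1, by omega, by omega, by omega, h.col (by omega) (by omega)
            (fun x => ⟨notMem_empty _, notMem_empty _⟩)⟩

/-- **The partition of a block.** -/
theorem Bx.split {x₀ x₁ y₀ y₁ R : ℕ} {o : ℕ × ℕ} (h : Bx r x₀ x₁ y₀ y₁ o R) {k : ℕ} (hk : k ≤ 4)
    {Λ : Finset (ℕ × ℕ)} (hΛ : Λ.card = k)
    (hin : ∀ l ∈ Λ, x₀ + RE R ≤ l.1 ∧ l.1 + RE R < x₁ ∧ y₀ + RE R ≤ l.2 ∧ l.2 + RE R < y₁)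
    (ho : x₀ + RE R + R ≤ o.1 ∧ o.1 + RE R + R < x₁ ∧ y₀ + RE R + R ≤ o.2 ∧ o.2 + RE R + R < y₁)
    (HC : ∀ p, sd p o ≤ R → (∃ q, r p q) → ∃ x, RE R ≤ sd x p ∧ Cn r univ p x)
    (LC : ∀ C : Finset (ℕ × ℕ), C.card < k → ∃ l ∈ Λ, l ∉ C ∧ ∃ x, RE R ≤ sd x l ∧
      Cn r (C : Set (ℕ × ℕ))ᶜ l x) :
    ∃ s : ℕ × ℕ → ℕ, GoodS r (SdA r x₀ x₁ y₀ y₁) {v | v ∈ rc x₀ x₁ y₀ y₁ ∅ ∧ ∃ u, r v u} s ∧
      InjOn s (Λ : Set (ℕ × ℕ)) ∧ ∀ l ∈ Λ, s l < k := by
  classical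
  obtain ⟨Bk, hBk⟩ : ∃ Bk : Set (ℕ × ℕ), Bk = {v | v ∈ rc x₀ x₁ y₀ y₁ ∅ ∧ ∃ u, r v u} :=
    ⟨_, rfl⟩
  rw [← hBk]
  have hf : Bk.Finite := by
    rw [hBk]
    exact (rc_finite x₀ x₁ y₀ y₁ ∅).subset fun v hv => hv.1
  -- connected in the rectangle: connected in the block
  have hcn : ∀ (C : Set (ℕ × ℕ)) (a b : ℕ × ℕ), Cn r (rc x₀ x₁ y₀ y₁ C) a b →
      Cn r {x | x ∈ Bk ∧ x ∉ C} a b := by
    intro C a b hab
    induction hab with
    | refl => exact Cn.refl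
    | tail _ h2 ih =>
      refine ih.trans (Cn.step h2.1 ⟨?_, h2.2.1.2⟩ ⟨?_, h2.2.2.2⟩)
      · rw [hBk]
        exact ⟨⟨h2.2.1.1, notMem_empty _⟩, _, h2.1⟩
      · rw [hBk]
        exact ⟨⟨h2.2.2.1, notMem_empty _⟩, _, h.sym _ _ h2.1⟩
  have hsd : ∀ (C : Set (ℕ × ℕ)) (u : ℕ × ℕ) (d : ℕ), u ∈ rc x₀ x₁ y₀ y₁ C →
      SdA r x₀ x₁ y₀ y₁ d u → u ∈ Bk := by
    rintro C u d hu ⟨u', h1, _⟩
    rw [hBk]
    exact ⟨⟨hu.1, notMem_empty _⟩, u', h1⟩
  obtain ⟨D, s, h1, h2, h3, h4, h5⟩ := menger_sides h.sym h.wad hf (Sd := SdA r x₀ x₁ y₀ y₁) hk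
    hΛ (by
      intro C hC
      obtain ⟨l, hl, hlC, x, hx, hwalk⟩ := LC C hC
      refine ⟨l, hl, hlC, fun d hd => ?_⟩
      obtain ⟨xc, yc, g1, g2, g3, g4, g5, g6, g7⟩ := h.esc C (by omega) (hin l hl) hwalk hx
      obtain ⟨u, k1, k2, k3⟩ := h.side g1 g2 g3 g4 g5 g6 (show d < 4 by omega)
      exact ⟨u, hcn _ _ _ (g7.trans k1), k2, hsd _ u d k3 k2, k3.2⟩)
  obtain ⟨s', h6, h7⟩ := vor hf (Sd := SdA r x₀ x₁ y₀ y₁) (by
      intro v hv
      have hE : RE R = 8 * R + 40 := rfl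
      have hv' := hv
      rw [hBk] at hv'
      have hr0 := h.row (C := ∅) (y := y₀) (by omega) (by omega) (fun x => notMem_empty _)
      have hc0 := h.col (C := ∅) (x := x₀) (by omega) (by omega)
        (fun x => ⟨notMem_empty _, notMem_empty _⟩)
      obtain ⟨u, k1, k2, k3⟩ := h.side (C := ∅) (xc := x₀) (yc := y₀) (by omega) (by omega)
        (by omega) (by omega) hr0 hc0 (show 0 < 4 by omega)
      have h8 := hcn _ _ _ ((h.all_conn ho HC hv'.1 hv'.2).trans k1)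
      refine ⟨u, hsd _ u 0 k3 k2, h8.mono (fun x hx => hx.1), 0, by omega, k2⟩) D s h1 h2
  refine ⟨s', h6, ?_, ?_⟩
  · intro x hx y hy hxy
    rw [h7 x (h3 hx), h7 y (h3 hy)] at hxy
    exact h4 hx hy hxy
  · intro l hl
    rw [h7 l (h3 hl)]
    exact h5 l hl

end

end DA
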