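import Pool.Agent.GL.Loc
import Pool.Agent.CW.Defs
import Pool.Agent.BICS.Lam
import Pool.Agent.Helper53.BQ.Rk

/-!
# Claim A, part A2, one window (page MP_5165fa_co_DENS2_h54.md)

`S` spans, by `ends`, a bicircular matroid on the finite vertex set `A`.  `I` and `Y` are disjoint
sets of vertices.  Every element of `T` has its locations in `I` and `Y` and a private location in
`I`.  If there are more than `q |Y|` elements in `T`, then there is an element with at least three
locations in `I` modulo other elements of `T`, or more than `q` elements are parallel modulo `I`.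
-/

open Set BIC BICS
open scoped Matroid

namespace DA

variable {α V : Type*}

/-- `A` is the vertex set of a connected graph. -/
def ConnF (S : Set α) (ends : α → Sym2 V) (A : Finset V) : Prop :=
  ∀ K ⊆ A, K.Nonempty → K ≠ A → ∃ e ∈ S, ∃ x ∈ K, ∃ y ∈ A, y ∉ K ∧ ends e = s(x, y)

section

variable {M : Matroid α} [M.Finite] {S : Set α} {ends : α → Sym2 V}

/-- The intersection of the hyperplanes at the vertices of `K` has corank at least `|K|`. -/
lemma rk_inter_H (hB : Bic M S ends) {A : Finset V} (hA : ConnF S ends A)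
    (K : Finset V) (hKA : K ⊆ A) (hK : K ≠ A) :
    rk M (M.closure S ∩ ⋂ x ∈ K, M.closure (ins S ends {x}ᶜ)) + K.card ≤ rk M S := by
  classical
  induction hn : K.card generalizing K with
  | zero =>
    rw [Finset.card_eq_zero] at hn
    subst hn
    have h1 : rk M (M.closure S ∩ ⋂ x ∈ (∅ : Finset V), M.closure (ins S ends {x}ᶜ)) ≤
        rk M (M.closure S) := rk_mono M inter_subset_left
    rw [rk_closure] at h1
    omega
  | succ n ih =>
    have hKne : K.Nonempty := by rw [← Finset.card_pos]; omega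
    obtain ⟨e, heS, x, hxK, y, hyA, hyK, hexy⟩ := hA K hKA hKne hK
    have hK' : K.erase x ≠ A := by
      intro h
      have := hKA hxK
      rw [← h] at this
      exact (Finset.notMem_erase x K) this
    have h1 := ih (K.erase x) ((Finset.erase_subset _ _).trans hKA) hK'
      (by rw [Finset.card_erase_of_mem hxK]; omega)
    set F := M.closure S ∩ ⋂ z ∈ K.erase x, M.closure (ins S ends {z}ᶜ) with hF
    set Hx := M.closure (ins S ends {x}ᶜ) with hHx
    have h2 : M.closure S ∩ ⋂ z ∈ K, M.closure (ins S ends {z}ᶜ) = F ∩ Hx := by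
      ext a
      simp only [hF, Set.mem_inter_iff, Set.mem_iInter, Finset.mem_erase]
      constructor
      · rintro ⟨h3, h4⟩
        exact ⟨⟨h3, fun z hz => h4 z hz.2⟩, h4 x hxK⟩
      · rintro ⟨⟨h3, h4⟩, h5⟩
        refine ⟨h3, fun z hz => ?_⟩
        by_cases hzx : z = x
        · rw [hzx]; exact h5
        · exact h4 z ⟨hzx, hz⟩
    have heF : e ∈ F := by
      refine ⟨M.mem_closure_of_mem' heS (hB.sub heS), ?_⟩
      simp only [Set.mem_iInter]
      intro z hz
      obtain ⟨hzx, hzK⟩ := Finset.mem_erase.1 hz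
      refine M.mem_closure_of_mem' ⟨heS, ?_⟩ (hB.sub heS)
      intro v hv
      rw [hexy, Sym2.mem_iff] at hv
      simp only [Set.mem_compl_iff, Set.mem_singleton_iff]
      rcases hv with rfl | rfl
      · exact fun h => hzx h.symm
      · exact fun h => hyK (h ▸ hzK)
    have heH : e ∉ Hx := Gad.not_mem_Hx' hB heS (by rw [hexy]; exact Sym2.mem_mk_left x y)
    have hflat : M.closure (F ∩ Hx) ⊆ Hx := by
      refine (M.closure_subset_closure inter_subset_right).trans ?_
      rw [hHx, M.closure_closure]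
    have h3 : e ∉ M.closure (F ∩ Hx) := fun h => heH (hflat h)
    have h4 : rk M (insert e (F ∩ Hx)) = rk M (F ∩ Hx) + 1 := by
      have h5 := M.eRk_insert_eq_add_one (X := F ∩ Hx) (e := e) ⟨hB.sub heS, h3⟩
      rw [← cast_rk, ← cast_rk] at h5
      exact_mod_cast h5
    have h5 : rk M (insert e (F ∩ Hx)) ≤ rk M F := rk_mono M (insert_subset heF inter_subset_left)
    rw [h2]
    omega

/-- Elements with all locations in `U` have rank at most `|U|`. -/
lemma rk_loc_le (hB : Bic M S ends) {A : Finset V} (hA : ConnF S ends A)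
    (hSA : ∀ e ∈ S, ∀ v ∈ ends e, v ∈ A) {U : Finset V} (hUA : U ⊆ A) (hU : U.Nonempty)
    {X : Set α} (hX : ∀ e ∈ X, e ∈ M.closure S ∧ CWL.Loc M S ends e ⊆ (U : Set V)) :
    rk M X ≤ U.card := by
  classical
  have h1 := rk_inter_H hB hA (A \ U) Finset.sdiff_subset (by
    intro h
    obtain ⟨u, hu⟩ := hU
    have := hUA hu
    rw [← h] at this
    exact (Finset.mem_sdiff.1 this).2 hu)
  have h2 : rk M S ≤ A.card := by
    have h3 := hB.rk (A : Set V)
    have h4 : S ⊆ ins S ends (A : Set V) := fun e he => ⟨he, fun v hv => hSA e he v hv⟩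
    have h5 := (M.eRk_mono h4).trans h3
    rw [← cast_rk, Set.encard_coe_eq_coe_finsetCard] at h5
    exact_mod_cast h5
  have h3 : X ⊆ M.closure S ∩ ⋂ x ∈ A \ U, M.closure (ins S ends {x}ᶜ) := by
    intro e he
    refine ⟨(hX e he).1, ?_⟩
    simp only [Set.mem_iInter]
    intro x hx
    by_contra hcon
    exact (Finset.mem_sdiff.1 hx).2 ((hX e he).2 hcon)
  have h4 := rk_mono M h3
  have h5 := Finset.card_sdiff_add_card_inter A U
  rw [Finset.inter_eq_right.2 hUA] at h5
  omega

end

/-- The data of A2 in one window. -/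
structure Win (M : Matroid α) (S : Set α) (ends : α → Sym2 V) (A I Y : Finset V) (T : Finset α)
    (σ : α → V) (R : Set V) : Prop where
  bic : Bic M S ends
  con : ConnF S ends A
  SA : ∀ e ∈ S, ∀ v ∈ ends e, v ∈ A
  IA : I ⊆ A
  YA : Y ⊆ A
  disj : Disjoint I Y
  ne : I.Nonempty
  full : rk M (ins S ends (I : Set V)) = I.card
  cl : ∀ t ∈ T, t ∈ M.closure S
  loc : ∀ t ∈ T, CWL.Loc M S ends t ⊆ (I : Set V) ∪ (Y : Set V)
  inj : ∀ t ∈ T, ∀ t' ∈ T, σ t = σ t' → t = t'
  sg : ∀ t ∈ T, σ t ∈ I ∧ σ t ∉ R ∧ σ t ∈ CWL.Loc M S ends t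
  own : ∀ t ∈ T, ∀ v ∈ CWL.Loc M S ends t, v ∈ I → v = σ t ∨ v ∈ R
  nl : ∀ t ∈ T, t ∉ M.closure (ins S ends (I : Set V))

section

variable {M : Matroid α} {S : Set α} {ends : α → Sym2 V} {A I Y : Finset V}
  {T : Finset α} {σ : α → V} {R : Set V}

lemma ins_loc {e : α} {v : V} (hS : S ⊆ M.E) (he : e ∈ S) (hv : v ∈ CWL.Loc M S ends e) :
    v ∈ ends e := by
  by_contra h
  refine hv (M.mem_closure_of_mem' ⟨he, ?_⟩ (hS he))
  intro w hw
  simp only [Set.mem_compl_iff, Set.mem_singleton_iff]
  rintro rfl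
  exact h hw

/-- (a) The rank of `T` modulo `I` is at most `|Y|`. -/
lemma Win.rk_le [M.Finite] (h : Win M S ends A I Y T σ R) :
    rk M ((T : Set α) ∪ ins S ends (I : Set V)) ≤ Y.card + I.card := by
  classical
  have h1 : rk M ((T : Set α) ∪ ins S ends (I : Set V)) ≤ (I ∪ Y).card := by
    refine rk_loc_le h.bic h.con h.SA (Finset.union_subset h.IA h.YA)
      (h.ne.mono Finset.subset_union_left) ?_
    rintro e (he | he)
    · refine ⟨h.cl e he, ?_⟩
      rw [Finset.coe_union]
      exact h.loc e he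
    · refine ⟨M.mem_closure_of_mem' he.1 (h.bic.sub he.1), ?_⟩
      intro v hv
      rw [Finset.coe_union]
      exact Or.inl (he.2 v (ins_loc h.bic.sub he.1 hv))
  rw [Finset.card_union_of_disjoint h.disj] at h1
  omega

/-- All elements but one lie in the hyperplane at its private location. -/
lemma Win.mem_H (h : Win M S ends A I Y T σ R) {t t' : α} (ht : t ∈ T) (ht' : t' ∈ T)
    (hne : t' ≠ t) : t' ∈ M.closure (ins S ends {σ t}ᶜ) := by
  by_contra hcon
  rcases h.own t' ht' (σ t) hcon (h.sg t ht).1 with h1 | h1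
  · exact hne (h.inj t' ht' t ht h1.symm)
  · exact (h.sg t ht).2.1 h1

/-- (b) A circuit modulo `I` gives an element with many locations modulo the other elements. -/
theorem Win.circuit (h : Win M S ends A I Y T σ R) {t₁ : α} {K : Finset α} (hK : K ⊆ T)
    (ht₁ : t₁ ∈ T) (ht₁K : t₁ ∉ K)
    (hmin : ∀ t ∈ K, t₁ ∉ M.closure ((K : Set α) \ {t} ∪ ins S ends (I : Set V))) :
    ∀ t, (t = t₁ ∨ t ∈ K) →
      t₁ ∉ M.closure ((K : Set α) ∪ ins S ends ((I : Set V) \ {σ t})) := by
  intro t ht
  -- the edges avoiding the private location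
  have hins : ∀ t, ins S ends ((I : Set V) \ {σ t}) ⊆ M.closure (ins S ends {σ t}ᶜ) := by
    intro t e he
    refine M.mem_closure_of_mem' ⟨he.1, fun v hv => ?_⟩ (h.bic.sub he.1)
    exact fun h => (he.2 v hv).2 h
  rcases ht with rfl | ht
  · intro hcl
    refine (h.sg t ht₁).2.2 ?_
    refine M.closure_subset_closure_of_subset_closure ?_ hcl
    rintro e (he | he)
    · refine h.mem_H ht₁ (hK he) ?_
      rintro rfl
      exact ht₁K he
    · exact hins t he
  · intro hcl
    have htT := hK ht
    -- `t` is in the closure of the others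
    have h1 : (K : Set α) ∪ ins S ends ((I : Set V) \ {σ t}) =
        insert t ((K : Set α) \ {t} ∪ ins S ends ((I : Set V) \ {σ t})) := by
      ext e
      simp only [mem_union, mem_insert_iff, mem_sdiff, mem_singleton_iff]
      constructor
      · rintro (h2 | h2)
        · by_cases h3 : e = t
          · exact Or.inl h3
          · exact Or.inr (Or.inl ⟨h2, h3⟩)
        · exact Or.inr (Or.inr h2)
      · rintro (rfl | ⟨h2, _⟩ | h2)
        · exact Or.inl ht
        · exact Or.inl h2
        · exact Or.inr h2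
    rw [h1] at hcl
    have h2 : t₁ ∉ M.closure ((K : Set α) \ {t} ∪ ins S ends ((I : Set V) \ {σ t})) := by
      intro h3
      refine hmin t ht (M.closure_subset_closure (union_subset_union_right _ ?_) h3)
      exact fun e he => ⟨he.1, fun v hv => (he.2 v hv).1⟩
    have h3 := Matroid.closure_exchange ⟨hcl, h2⟩
    refine (h.sg t htT).2.2 ?_
    refine M.closure_subset_closure_of_subset_closure ?_ h3.1
    rintro e (rfl | ⟨he, hne⟩ | he)
    · refine h.mem_H htT ht₁ ?_
      rintro rfl
      exact ht₁K ht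
    · exact h.mem_H htT (hK he) hne
    · exact hins t he

/-- **A2, one window.** -/
theorem Win.main [M.Finite] (h : Win M S ends A I Y T σ R) {q : ℕ} (hq : Y.card * q < T.card) :
    (∃ K ⊆ T, ∃ t₁ ∈ T, t₁ ∉ K ∧ 2 ≤ K.card ∧
      rk M ((K : Set α) ∪ ins S ends (I : Set V)) = K.card + I.card ∧
      t₁ ∈ M.closure ((K : Set α) ∪ ins S ends (I : Set V)) ∧
      ∀ t, (t = t₁ ∨ t ∈ K) →
        t₁ ∉ M.closure ((K : Set α) ∪ ins S ends ((I : Set V) \ {σ t}))) ∨
    ∃ P ⊆ T, q < P.card ∧ ∀ t ∈ P, ∀ t' ∈ P,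
      t' ∈ M.closure (insert t (ins S ends (I : Set V))) := by
  classical
  set Z := ins S ends (I : Set V) with hZ
  have hZE : Z ⊆ M.E := fun e he => h.bic.sub he.1
  have hfull : rk M Z = I.card := h.full
  have hTr : rk M ((T : Set α) ∪ Z) ≤ Y.card + I.card := h.rk_le
  have hTE : ∀ t ∈ T, t ∈ M.E := fun t ht => M.closure_subset_ground _ (h.cl t ht)
  -- a largest subset of `T` which is independent modulo `I`
  obtain ⟨B, hBT, hBr, hBmax⟩ : ∃ B ⊆ T, rk M ((B : Set α) ∪ Z) = B.card + I.card ∧
      ∀ B' ⊆ T, rk M ((B' : Set α) ∪ Z) = B'.card + I.card → B'.card ≤ B.card := by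
    have hne : (T.powerset.filter
        (fun B : Finset α => rk M ((B : Set α) ∪ Z) = B.card + I.card)).Nonempty := by
      refine ⟨∅, Finset.mem_filter.2 ⟨Finset.empty_mem_powerset _, ?_⟩⟩
      rw [Finset.coe_empty, empty_union, Finset.card_empty, zero_add]
      exact h.full
    obtain ⟨B, hB, hmax⟩ := Finset.exists_max_image _ Finset.card hne
    rw [Finset.mem_filter, Finset.mem_powerset] at hB
    exact ⟨B, hB.1, hB.2, fun B' h1 h2 => hmax B' (Finset.mem_filter.2
      ⟨Finset.mem_powerset.2 h1, h2⟩)⟩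
  have hBY : B.card ≤ Y.card := by
    have h2 : rk M ((B : Set α) ∪ Z) ≤ rk M ((T : Set α) ∪ Z) :=
      rk_mono M (union_subset_union_left _ (by exact_mod_cast hBT))
    omega
  -- subsets of `B` are independent modulo `I`
  have hBsub : ∀ B' ⊆ B, rk M ((B' : Set α) ∪ Z) = B'.card + I.card := by
    intro B' hB'
    have h1 : rk M ((B' : Set α) ∪ Z) ≤ B'.card + I.card := by
      have h2 := rk_union_le M (X := Z) (Y := (B' : Set α)) B'.finite_toSet
      rw [Set.ncard_coe_finset, union_comm] at h2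
      omega
    have h2 : rk M ((B : Set α) ∪ Z) ≤ rk M ((B' : Set α) ∪ Z) + (B \ B').card := by
      have h3 := rk_union_le M (X := (B' : Set α) ∪ Z) (Y := ((B \ B' : Finset α) : Set α))
        (B \ B').finite_toSet
      rw [Set.ncard_coe_finset] at h3
      refine le_trans (rk_mono M ?_) h3
      rintro e (he | he)
      · by_cases h4 : e ∈ B'
        · exact Or.inl (Or.inl h4)
        · exact Or.inr (Finset.mem_coe.2 (Finset.mem_sdiff.2 ⟨he, h4⟩))
      · exact Or.inl (Or.inr he)
    have h3 := Finset.card_sdiff_add_card_eq_card hB'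
    omega
  have hspan : ∀ t ∈ T, t ∈ M.closure ((B : Set α) ∪ Z) := by
    intro t ht
    by_contra hcon
    have htB : t ∉ B := by
      intro h1
      exact hcon (M.mem_closure_of_mem' (Or.inl h1) (hTE t ht))
    have h1 := M.eRk_insert_eq_add_one (X := (B : Set α) ∪ Z) (e := t) ⟨hTE t ht, hcon⟩
    rw [← cast_rk, ← cast_rk] at h1
    have h2 : rk M (insert t ((B : Set α) ∪ Z)) = rk M ((B : Set α) ∪ Z) + 1 := by
      exact_mod_cast h1
    have h3 := hBmax (insert t B) (Finset.insert_subset ht hBT) (by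
      rw [Finset.coe_insert, insert_union, h2, hBr, Finset.card_insert_of_notMem htB]
      omega)
    rw [Finset.card_insert_of_notMem htB] at h3
    omega
  by_cases hcase : ∃ t ∈ T, ∀ b ∈ B, t ∉ M.closure (insert b Z)
  · -- a circuit with at least three elements
    left
    obtain ⟨t₁, ht₁, hno⟩ := hcase
    obtain ⟨K, hKB, hKcl, hKmin⟩ : ∃ K ⊆ B, t₁ ∈ M.closure ((K : Set α) ∪ Z) ∧
        ∀ K' ⊆ B, t₁ ∈ M.closure ((K' : Set α) ∪ Z) → K.card ≤ K'.card := by
      have hne : (B.powerset.filter
          (fun K : Finset α => t₁ ∈ M.closure ((K : Set α) ∪ Z))).Nonempty :=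
        ⟨B, Finset.mem_filter.2 ⟨Finset.mem_powerset_self _, hspan t₁ ht₁⟩⟩
      obtain ⟨K, hK, hmin⟩ := Finset.exists_min_image _ Finset.card hne
      rw [Finset.mem_filter, Finset.mem_powerset] at hK
      exact ⟨K, hK.1, hK.2, fun K' h1 h2 => hmin K' (Finset.mem_filter.2
        ⟨Finset.mem_powerset.2 h1, h2⟩)⟩
    have ht₁K : t₁ ∉ K := by
      intro h1
      exact hno t₁ (hKB h1) (M.mem_closure_of_mem' (mem_insert _ _) (hTE t₁ ht₁))
    have hK2 : 2 ≤ K.card := by
      by_contra hcon
      have h1 : K.card = 0 ∨ K.card = 1 := by omega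
      rcases h1 with h1 | h1
      · rw [Finset.card_eq_zero] at h1
        rw [h1, Finset.coe_empty, empty_union] at hKcl
        exact h.nl t₁ ht₁ hKcl
      · obtain ⟨b, hb⟩ := Finset.card_eq_one.1 h1
        rw [hb, Finset.coe_singleton, singleton_union] at hKcl
        exact hno b (hKB (by rw [hb]; exact Finset.mem_singleton_self b)) hKcl
    refine ⟨K, hKB.trans hBT, t₁, ht₁, ht₁K, hK2, hBsub K hKB, hKcl, ?_⟩
    refine h.circuit (hKB.trans hBT) ht₁ ht₁K ?_
    intro t ht hcl
    have h1 := hKmin (K.erase t) ((Finset.erase_subset _ _).trans hKB) (by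
      rw [Finset.coe_erase]; exact hcl)
    rw [Finset.card_erase_of_mem ht] at h1
    have : 0 < K.card := Finset.card_pos.2 ⟨t, ht⟩
    omega
  · -- parallel classes
    right
    push Not at hcase
    have hch : ∀ t, ∃ b, t ∈ T → b ∈ B ∧ t ∈ M.closure (insert b Z) := by
      intro t
      by_cases ht : t ∈ T
      · obtain ⟨b, hb, h1⟩ := hcase t ht
        exact ⟨b, fun _ => ⟨hb, h1⟩⟩
      · exact ⟨t, fun h => absurd h ht⟩
    choose f hf using hch
    obtain ⟨b, hb, hbc⟩ := Finset.exists_lt_card_fiber_of_mul_lt_card_of_maps_to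
      (s := T) (t := B) (f := f) (n := q) (fun t ht => (hf t ht).1)
      (lt_of_le_of_lt (Nat.mul_le_mul_right q hBY) hq)
    refine ⟨_, Finset.filter_subset _ _, hbc, ?_⟩
    intro t ht t' ht'
    obtain ⟨htT, htb⟩ := Finset.mem_filter.1 ht
    obtain ⟨ht'T, ht'b⟩ := Finset.mem_filter.1 ht'
    have h1 := (hf t htT).2
    have h2 := (hf t' ht'T).2
    rw [htb] at h1
    rw [ht'b] at h2
    -- exchange: `b` is in the closure of `t`
    have h3 := Matroid.closure_exchange (M := M) (X := Z) (e := t) (f := b) ⟨h1, h.nl t htT⟩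
    refine M.closure_subset_closure_of_subset_closure ?_ h2
    refine insert_subset h3.1 ?_
    intro e he
    exact M.mem_closure_of_mem' (Or.inr he) (hZE he)

/-- (c) Two parallel elements: modulo one of them the other one has both private locations. -/
theorem Win.pair (h : Win M S ends A I Y T σ R) {t t' : α} (ht : t ∈ T) (ht' : t' ∈ T)
    (hne : t ≠ t') : ∀ s, (s = t ∨ s = t') →
      t ∉ M.closure (insert t' (ins S ends ((I : Set V) \ {σ s}))) := by
  intro s hs
  have h1 := h.circuit (t₁ := t) (K := {t'}) (Finset.singleton_subset_iff.2 ht') ht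
    (fun h => hne (Finset.mem_singleton.1 h)) (by
      intro u hu
      rw [Finset.mem_singleton] at hu
      subst hu
      rw [Finset.coe_singleton, sdiff_self]
      intro hcl
      refine h.nl t ht ?_
      simpa using hcl) s (by
      rcases hs with rfl | rfl
      · exact Or.inl rfl
      · exact Or.inr (Finset.mem_singleton_self _))
  rwa [Finset.coe_singleton, singleton_union] at h1

end

end DA
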