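import Pool.Agent.DA.RowSpan

/-!
# Witnesses of rows and stars (T-star, helper33)

The relation clauses of `PWit`, `TWit` for the canonical functions `Er`, `Lr`.
-/

open Set BIC BICS
open scoped Matroid

namespace DA

open Gad TST

universe u v

/-- `t` does not separate `x` and `y` -/
def Er {α : Type*} (P : Matroid α) (S : Set α) (t x y : α) : Prop :=
  x = y ∨ t ∈ P.closure (S \ {x, y})

/-- the class of the end `u`: for all representatives which contain `x`, `u` is no location of `t` -/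
def Lr {α : Type*} (P : Matroid α) (S : Set α) (row : α → Sym2 (ℕ × ℕ)) (w : ℕ) (u : ℕ × ℕ)
    (t : α) : Set α :=
  {x | ∀ c, c ⊆ S → WallE c row w ∅ → x ∈ c → t ∈ P.closure (S \ {e | e ∈ c ∧ u ∈ row e})}

section

variable {α : Type*} {P : Matroid α} {S : Set α} {row : α → Sym2 (ℕ × ℕ)} {w : ℕ} {u v q : ℕ × ℕ}
  {c c' : Set α} {a a' t x y z : α}

/-- every row has a representative -/
lemma rep_of (hmem : ∀ e ∈ S, ∃ p q, row e = s(p, q) ∧ wadj p q ∧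
    p ∈ rect 0 0 (w + 1) (w + 1) ∧ q ∈ rect 0 0 (w + 1) (w + 1)) (hW : WallE c row w ∅)
    (hx : x ∈ S) : ∃ e ∈ c, row e = row x := by
  obtain ⟨p, q, h3, h4, h5, h6⟩ := hmem x hx
  obtain ⟨e, he, hee⟩ := hW.surj p q h4 h5 h6 (notMem_empty _)
  exact ⟨e, he, hee.trans h3.symm⟩

/-- **(WIT 1)** The location at `u` does not depend on the representatives of rows on which `t`
separates nothing. -/
theorem VC.indep [P.Finite] (h : VC P S row w u) (hS : S ⊆ P.E)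
    (hmem : ∀ e ∈ S, ∃ p q, row e = s(p, q) ∧ wadj p q ∧
      p ∈ rect 0 0 (w + 1) (w + 1) ∧ q ∈ rect 0 0 (w + 1) (w + 1))
    (hq : ∀ a ∈ S, ∀ a' ∈ S, row a' = row a → u ∈ row a → row a ≠ row x → a' ≠ a →
      t ∈ P.closure (S \ {a, a'})) (hc' : c' ⊆ S) (hW' : WallE c' row w ∅) (hx' : x ∈ c') :
    ∀ (n : ℕ) (c : Set α), c ⊆ S → WallE c row w ∅ → x ∈ c →
      {e | (e ∈ c ∧ u ∈ row e) ∧ e ∉ c'}.ncard ≤ n →
      t ∈ P.closure (S \ {e | e ∈ c ∧ u ∈ row e}) → t ∈ P.closure (S \ {e | e ∈ c' ∧ u ∈ row e}) := by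
  intro n
  induction n with
  | zero =>
    intro c hc hW hx hn ht
    have hfin : {e | (e ∈ c ∧ u ∈ row e) ∧ e ∉ c'}.Finite :=
      P.ground_finite.subset fun e he => hS (hc he.1.1)
    have h0 : {e | (e ∈ c ∧ u ∈ row e) ∧ e ∉ c'} = ∅ := by
      rw [← Set.ncard_eq_zero hfin]
      omega
    have h1 : ∀ e, e ∈ c → u ∈ row e → e ∈ c' := by
      intro e he hu
      by_contra hcon
      have : e ∈ {e | (e ∈ c ∧ u ∈ row e) ∧ e ∉ c'} := ⟨⟨he, hu⟩, hcon⟩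
      rw [h0] at this
      exact this
    refine P.closure_subset_closure ?_ ht
    rintro e ⟨he, he'⟩
    refine ⟨he, fun h2 => he' ?_⟩
    obtain ⟨g, hg, hgg⟩ := rep_of hmem hW (hc' h2.1)
    have h3 := h1 g hg (hgg ▸ h2.2)
    rw [hW'.inj h3 h2.1 hgg] at hg
    exact ⟨hg, h2.2⟩
  | succ n ih =>
    intro c hc hW hx hn ht
    by_cases h0 : {e | (e ∈ c ∧ u ∈ row e) ∧ e ∉ c'} = ∅
    · exact ih c hc hW hx (by rw [h0, ncard_empty]; omega) ht
    obtain ⟨a, ⟨hac, hua⟩, hac'⟩ := nonempty_iff_ne_empty.2 h0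
    obtain ⟨a', ha', haa⟩ := rep_of hmem hW' (hc hac)
    have hne : a' ≠ a := by
      rintro rfl
      exact hac' ha'
    have hrx : row a ≠ row x := by
      intro h1
      exact hac' ((hW.inj hac hx h1) ▸ hx')
    obtain ⟨hc₁, hW₁⟩ := swp_rep hc hW (hc' ha') ⟨a, hac, haa.symm⟩
    have h1 := h.swap hS hc hW hac (hc' ha') haa hua hne
      (hq a (hc hac) a' (hc' ha') haa hua hrx hne) ht
    have hfin : {e | (e ∈ c ∧ u ∈ row e) ∧ e ∉ c'}.Finite :=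
      P.ground_finite.subset fun e he => hS (hc he.1.1)
    refine ih _ hc₁ hW₁ (Or.inl ⟨hx, fun h2 => hrx (haa.symm.trans h2.symm)⟩) ?_ h1
    have h2 : {e | (e ∈ swp row c a' ∧ u ∈ row e) ∧ e ∉ c'} ⊆
        {e | (e ∈ c ∧ u ∈ row e) ∧ e ∉ c'} \ {a} := by
      rintro e ⟨⟨he | he, hue⟩, hec⟩
      · refine ⟨⟨⟨he.1, hue⟩, hec⟩, fun h3 => he.2 ?_⟩
        rw [mem_singleton_iff.1 h3, haa]
      · exact absurd ((mem_singleton_iff.1 he) ▸ ha') hec
    have h3 := ncard_le_ncard h2 (hfin.subset sdiff_subset)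
    have h4 := ncard_sdiff_singleton_add_one (a := a) (s := {e | (e ∈ c ∧ u ∈ row e) ∧ e ∉ c'})
      ⟨⟨hac, hua⟩, hac'⟩ hfin
    omega

/-- **(WIT 2)** `t` has no location at `q` (for all representatives): it separates nothing on the
rows at `q`. -/
theorem VC.quiet [P.Finite] (h : VC P S row w q) (hS : S ⊆ P.E)
    (hmem : ∀ e ∈ S, ∃ p q, row e = s(p, q) ∧ wadj p q ∧
      p ∈ rect 0 0 (w + 1) (w + 1) ∧ q ∈ rect 0 0 (w + 1) (w + 1))
    (hrep : ∃ c, c ⊆ S ∧ WallE c row w ∅)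
    (hloc : ∀ c, c ⊆ S → WallE c row w ∅ → t ∈ P.closure (S \ {e | e ∈ c ∧ q ∈ row e}))
    (ha : a ∈ S) (ha' : a' ∈ S) (haa : row a' = row a) (hqa : q ∈ row a) :
    t ∈ P.closure (S \ {a, a'}) := by
  obtain ⟨c₀, hc₀, hW₀⟩ := hrep
  obtain ⟨hc, hW⟩ := swp_rep hc₀ hW₀ ha (rep_of hmem hW₀ ha)
  obtain ⟨hc', hW'⟩ := swp_rep hc hW ha' ⟨a, Or.inr rfl, haa.symm⟩
  exact h.nsep hS hc hW (Or.inr rfl) ha' haa hqa (hloc _ hc hW) (hloc _ hc' hW')

/-- **(WIT 3)** the class of an end, for one choice of the representatives -/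
theorem mem_Lr [P.Finite] (h : VC P S row w u) (hS : S ⊆ P.E)
    (hmem : ∀ e ∈ S, ∃ p q, row e = s(p, q) ∧ wadj p q ∧
      p ∈ rect 0 0 (w + 1) (w + 1) ∧ q ∈ rect 0 0 (w + 1) (w + 1))
    (hq : ∀ a ∈ S, ∀ a' ∈ S, row a' = row a → u ∈ row a → row a ≠ row x → a' ≠ a →
      t ∈ P.closure (S \ {a, a'})) (hc : c ⊆ S) (hW : WallE c row w ∅) (hx : x ∈ S) :
    t ∈ P.closure (S \ {e | e ∈ swp row c x ∧ u ∈ row e}) ↔ x ∈ Lr P S row w u t := by
  obtain ⟨hc₁, hW₁⟩ := swp_rep hc hW hx (rep_of hmem hW hx)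
  constructor
  · intro h1 c' hc' hW' hx'
    exact h.indep hS hmem hq hc' hW' hx' _ _ hc₁ hW₁ (Or.inr rfl) le_rfl h1
  · intro h1
    exact h1 _ hc₁ hW₁ (Or.inr rfl)

/-- `t` separates nothing on the rows at `u` except `uv` -/
def Quiet {α : Type*} (P : Matroid α) (S : Set α) (row : α → Sym2 (ℕ × ℕ)) (u v : ℕ × ℕ)
    (t : α) : Prop :=
  ∀ a ∈ S, ∀ a' ∈ S, row a' = row a → u ∈ row a → row a ≠ s(u, v) → a' ≠ a →
    t ∈ P.closure (S \ {a, a'})

end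

/-- a circuit in a contraction from cocircuits of `P | S` -/
theorem circuit_of {α : Type*} {P : Matroid α} [P.Finite] {S F K : Set α} (D : α → Set α)
    (hS : S ⊆ P.E) (hFS : F ⊆ S) (hKS : K ⊆ S) (hFK : ∀ e ∈ K, e ∉ F)
    (hcov : ∀ y ∈ S, y ∈ F ∨ ∃ e ∈ K, y ∈ D e) (hDF : ∀ e ∈ K, ∀ y ∈ D e, y ∉ F)
    (hDcl : ∀ e ∈ K, ∀ y ∈ D e, y ∈ P.closure (insert e F))
    (hDK : ∀ e ∈ K, ∀ f ∈ K, e ∈ D f → e = f) (r1 : ∀ e ∈ K, rk P S ≤ rk P (S \ D e))
    (r2 : ∀ e ∈ K, ∀ f ∈ K, e ≠ f → rk P (S \ (D e ∪ D f)) + 1 ≤ rk P S) (hne : K.Nonempty) :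
    (P ／ F).IsCircuit K := by
  have hFE : F ⊆ P.E := hFS.trans hS
  have hsub : ∀ B, F ∪ K \ B ⊆ P.E := by
    rintro B y (hy | hy)
    · exact hFE hy
    · exact hS (hKS hy.1)
  have key : ∀ B ⊆ K, ∀ t, t ∉ F → (t ∈ (P ／ F).closure (K \ B) ↔
      t ∈ P.closure (S \ {y | ∃ e ∈ B, y ∈ D e})) := by
    intro B hB t ht
    refine con_cl_iff ?_ ?_ ht
    · rintro y (hy | ⟨hy, hyB⟩)
      · exact ⟨hFS hy, fun ⟨e, he, hye⟩ => hDF e (hB he) y hye hy⟩
      · refine ⟨hKS hy, fun ⟨e, he, hye⟩ => hyB ?_⟩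
        rw [hDK y hy e (hB he) hye]
        exact he
    · rintro y ⟨hy, hyB⟩
      rcases hcov y hy with h1 | ⟨e, he, hye⟩
      · exact P.mem_closure_of_mem (Or.inl h1) (hsub B)
      · refine P.closure_subset_closure ?_ (hDcl e he y hye)
        exact insert_subset (Or.inr ⟨he, fun h2 => hyB ⟨e, h2, hye⟩⟩) subset_union_left
  have hKE : K ⊆ (P ／ F).E := fun e he => ⟨hS (hKS he), hFK e he⟩
  have e1 : ∀ e, {y | ∃ e' ∈ ({e} : Set α), y ∈ D e'} = D e := by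
    intro e
    ext y
    simp
  rw [Matroid.isCircuit_iff_dep_forall_sdiff_singleton_indep]
  refine ⟨⟨fun hind => ?_, hKE⟩, ?_⟩
  · obtain ⟨e, he⟩ := hne
    refine hind.notMem_closure_sdiff_of_mem he ?_
    rw [key {e} (singleton_subset_iff.2 he) e (hFK e he), e1]
    refine mem_of_rk (hS (hKS he)) ((rk_mono P ?_).trans (r1 e he))
    exact insert_subset (hKS he) sdiff_subset
  · intro e he
    rw [Matroid.indep_iff_forall_notMem_closure_sdiff (sdiff_subset.trans hKE)]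
    rintro f ⟨hf, hfe⟩ hcl
    have hfe' : f ≠ e := hfe
    have e2 : (K \ {e}) \ {f} = K \ {e, f} := by
      ext y
      simp only [mem_sdiff, mem_singleton_iff, mem_insert_iff, not_or, and_assoc]
    have e3 : {y | ∃ e' ∈ ({e, f} : Set α), y ∈ D e'} = D e ∪ D f := by
      ext y
      simp
    rw [e2, key {e, f} (by
      rintro y (rfl | rfl)
      exacts [he, hf]) f (hFK f hf), e3] at hcl
    have h1 : S \ D e ⊆ P.closure (S \ (D e ∪ D f)) := by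
      rintro y ⟨hy, hye⟩
      by_cases h2 : y ∈ D f
      · refine P.closure_subset_closure_of_subset_closure ?_ (hDcl f hf y h2)
        refine insert_subset hcl ?_
        intro z hz
        refine P.mem_closure_of_mem ⟨hFS hz, ?_⟩ (sdiff_subset.trans hS)
        rintro (h3 | h3)
        · exact hDF e he z h3 hz
        · exact hDF f hf z h3 hz
      · refine P.mem_closure_of_mem ⟨hy, ?_⟩ (sdiff_subset.trans hS)
        rintro (h3 | h3)
        · exact hye h3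
        · exact h2 h3
    have h2 := rk_mono P h1
    rw [rk_closure] at h2
    have h3 := r1 e he
    have h4 := r2 e he f hf hfe'.symm
    omega

/-! ### Rows -/

section row

variable {α : Type*} {P : Matroid α} {S : Set α} {row : α → Sym2 (ℕ × ℕ)} {w : ℕ} {u v : ℕ × ℕ}
  {c : Set α} {o₁ o₂ z : α} {T : Set α} {A : α → Set α}

/-- data of a row, without the exits -/
structure RowE (P : Matroid α) (S : Set α) (row : α → Sym2 (ℕ × ℕ)) (w : ℕ) (u v : ℕ × ℕ)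
    (c : Set α) (o₁ o₂ : α) : Prop where
  sub : S ⊆ P.E
  mem : ∀ e ∈ S, ∃ p q, row e = s(p, q) ∧ wadj p q ∧
    p ∈ rect 0 0 (w + 1) (w + 1) ∧ q ∈ rect 0 0 (w + 1) (w + 1)
  uv : u ≠ v
  rex : ∃ e ∈ S, row e = s(u, v)
  hc : c ⊆ S
  wal : WallE c row w ∅
  h₁ : o₁ ∈ c ∧ u ∈ row o₁ ∧ v ∉ row o₁
  h₂ : o₂ ∈ c ∧ v ∈ row o₂ ∧ u ∉ row o₂
  s₁ : ∀ y ∈ c, u ∈ row y → v ∉ row y → y ∈ P.closure (insert o₁ (FRow S row c u v))
  s₂ : ∀ y ∈ c, v ∈ row y → u ∉ row y → y ∈ P.closure (insert o₂ (FRow S row c u v))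
  cu : VC P S row w u
  cv : VC P S row w v

/-- **(RCI)** the elements of the row and the two ends are a circuit -/
theorem RowE.cir [P.Finite] (h : RowE P S row w u v c o₁ o₂) :
    (P ／ FRow S row c u v).IsCircuit (PK (RX S row u v) o₁ o₂) := by
  classical
  have hS := h.sub
  obtain ⟨U₁, hU₁⟩ : ∃ U₁, U₁ = {y | y ∈ c ∧ u ∈ row y ∧ v ∉ row y} := ⟨_, rfl⟩
  obtain ⟨V₁, hV₁⟩ : ∃ V₁, V₁ = {y | y ∈ c ∧ v ∈ row y ∧ u ∉ row y} := ⟨_, rfl⟩
  have ho12 : o₁ ≠ o₂ := by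
    rintro h1
    exact h.h₂.2.2 (h1 ▸ h.h₁.2.1)
  have hX₁ : ∀ x ∈ RX S row u v, x ≠ o₁ ∧ x ≠ o₂ ∧ x ∉ U₁ ∧ x ∉ V₁ ∧ u ∈ row x ∧ v ∈ row x := by
    intro x hx
    have hux : u ∈ row x := by rw [hx.2]; exact Sym2.mem_mk_left _ _
    have hvx : v ∈ row x := by rw [hx.2]; exact Sym2.mem_mk_right _ _
    refine ⟨?_, ?_, ?_, ?_, hux, hvx⟩
    · rintro rfl
      exact h.h₁.2.2 hvx
    · rintro rfl
      exact h.h₂.2.2 hux
    · rw [hU₁]
      exact fun h1 => h1.2.2 hvx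
    · rw [hV₁]
      exact fun h1 => h1.2.2 hux
  have hstar : ∀ x ∈ RX S row u v, {e | e ∈ swp row c x ∧ u ∈ row e} = insert x U₁ := by
    intro x hx
    ext e
    rw [hU₁]
    constructor
    · rintro ⟨he | he, hue⟩
      · refine Or.inr ⟨he.1, hue, fun hve => he.2 ?_⟩
        rw [hx.2]
        exact row_eq_of h.uv hue hve
      · exact Or.inl he
    · rintro (rfl | ⟨he, hue, hve⟩)
      · exact ⟨Or.inr rfl, (hX₁ _ hx).2.2.2.2.1⟩
      · exact ⟨Or.inl ⟨he, fun h1 => hve (h1 ▸ (hX₁ _ hx).2.2.2.2.2)⟩, hue⟩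
  have hstar' : ∀ x ∈ RX S row u v, {e | e ∈ swp row c x ∧ v ∈ row e} = insert x V₁ := by
    intro x hx
    ext e
    rw [hV₁]
    constructor
    · rintro ⟨he | he, hve⟩
      · refine Or.inr ⟨he.1, hve, fun hue => he.2 ?_⟩
        rw [hx.2]
        exact row_eq_of h.uv hue hve
      · exact Or.inl he
    · rintro (rfl | ⟨he, hve, hue⟩)
      · exact ⟨Or.inr rfl, (hX₁ _ hx).2.2.2.2.2⟩
      · exact ⟨Or.inl ⟨he, fun h1 => hue (h1 ▸ (hX₁ _ hx).2.2.2.2.1)⟩, hve⟩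
  have hrep : ∀ x ∈ RX S row u v, swp row c x ⊆ S ∧ WallE (swp row c x) row w ∅ := fun x hx =>
    swp_rep h.hc h.wal hx.1 (rep_of h.mem h.wal hx.1)
  -- the ranks
  have rA : ∀ x ∈ RX S row u v, rk P S ≤ rk P (S \ {x}) := fun x hx =>
    h.cu.one hS (hrep x hx).1 (hrep x hx).2 (Or.inr rfl) (hX₁ x hx).2.2.2.2.1
  have rB : ∀ x ∈ RX S row u v, rk P S ≤ rk P (S \ U₁) := by
    intro x hx
    have h1 := h.cu.full hS (hrep x hx).1 (hrep x hx).2 (Or.inr rfl) (hX₁ x hx).2.2.2.2.1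
    rw [hstar x hx] at h1
    refine h1.trans (rk_mono P ?_)
    rintro e ⟨he, he'⟩
    exact ⟨he, fun h2 => he' ⟨Or.inr h2, fun h3 => (hX₁ x hx).2.2.1 ((mem_singleton_iff.1 h3) ▸ h2)⟩⟩
  have rC : ∀ x ∈ RX S row u v, rk P S ≤ rk P (S \ V₁) := by
    intro x hx
    have h1 := h.cv.full hS (hrep x hx).1 (hrep x hx).2 (Or.inr rfl) (hX₁ x hx).2.2.2.2.2
    rw [hstar' x hx] at h1
    refine h1.trans (rk_mono P ?_)
    rintro e ⟨he, he'⟩
    exact ⟨he, fun h2 => he' ⟨Or.inr h2, fun h3 =>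
      (hX₁ x hx).2.2.2.1 ((mem_singleton_iff.1 h3) ▸ h2)⟩⟩
  have rD : ∀ x ∈ RX S row u v, ∀ y ∈ RX S row u v, x ≠ y → rk P (S \ ({x} ∪ {y})) + 1 ≤ rk P S := by
    intro x hx y hy hxy
    have h1 := h.cu.pair x hx.1 y hy.1 (hx.2.trans hy.2.symm) (hX₁ x hx).2.2.2.2.1 hxy
    exact h1
  have rE : ∀ x ∈ RX S row u v, rk P (S \ ({x} ∪ U₁)) + 1 ≤ rk P S := by
    intro x hx
    have h1 := h.cu.star _ (hrep x hx).1 (hrep x hx).2
    rw [hstar x hx] at h1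
    exact h1.le
  have rF : ∀ x ∈ RX S row u v, rk P (S \ ({x} ∪ V₁)) + 1 ≤ rk P S := by
    intro x hx
    have h1 := h.cv.star _ (hrep x hx).1 (hrep x hx).2
    rw [hstar' x hx] at h1
    exact h1.le
  obtain ⟨x₀, hx₀⟩ : ∃ x, x ∈ RX S row u v := by
    obtain ⟨e, he, hee⟩ := h.rex
    exact ⟨e, he, hee⟩
  have rG : rk P (S \ (U₁ ∪ V₁)) + 1 ≤ rk P S := by
    have h1 := rE x₀ hx₀
    have h2 := rF x₀ hx₀
    have h3 := rA x₀ hx₀
    have h4 := rk_submod P (S \ ({x₀} ∪ U₁)) (S \ ({x₀} ∪ V₁))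
    have h5 : rk P (S \ {x₀}) ≤ rk P (S \ ({x₀} ∪ U₁) ∪ S \ ({x₀} ∪ V₁)) := by
      refine rk_mono P ?_
      rintro e ⟨he, he'⟩
      by_cases h6 : e ∈ U₁
      · refine Or.inr ⟨he, ?_⟩
        rintro (h7 | h7)
        · exact he' h7
        · rw [hU₁] at h6
          rw [hV₁] at h7
          exact h6.2.2 h7.2.1
      · refine Or.inl ⟨he, ?_⟩
        rintro (h7 | h7)
        · exact he' h7
        · exact h6 h7
    have h6 : rk P (S \ ({x₀} ∪ (U₁ ∪ V₁))) ≤ rk P (S \ ({x₀} ∪ U₁) ∩ (S \ ({x₀} ∪ V₁))) := by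
      refine rk_mono P ?_
      rintro e ⟨he, he'⟩
      exact ⟨⟨he, fun h7 => he' (h7.imp id Or.inl)⟩, ⟨he, fun h7 => he' (h7.imp id Or.inr)⟩⟩
    have h7 := rk_remove (P := P) (S := S) (U₁ ∪ V₁) x₀
    have h8 : insert x₀ (U₁ ∪ V₁) = {x₀} ∪ (U₁ ∪ V₁) := rfl
    rw [h8] at h7
    omega
  obtain ⟨D, hD⟩ : ∃ D : α → Set α, D = fun e => if e = o₁ then U₁ else if e = o₂ then V₁ else {e} :=
    ⟨_, rfl⟩
  have d1 : D o₁ = U₁ := by rw [hD]; simp
  have d2 : D o₂ = V₁ := by rw [hD]; simp [ho12.symm]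
  have d3 : ∀ x ∈ RX S row u v, D x = {x} := by
    intro x hx
    rw [hD]
    simp [(hX₁ x hx).1, (hX₁ x hx).2.1]
  have hcase : ∀ e ∈ PK (RX S row u v) o₁ o₂, e = o₁ ∨ e = o₂ ∨ e ∈ RX S row u v := fun e he => he
  refine circuit_of D hS (fun e he => he.1.1) ?_ ?_ ?_ ?_ ?_ ?_ ?_ ?_ ⟨o₁, Or.inl rfl⟩
  · rintro e (rfl | rfl | he)
    exacts [h.hc h.h₁.1, h.hc h.h₂.1, he.1]
  · rintro e (rfl | rfl | he) hF
    · exact hF.2 ⟨h.h₁.1, Or.inl h.h₁.2.1⟩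
    · exact hF.2 ⟨h.h₂.1, Or.inr h.h₂.2.1⟩
    · exact hF.1.2 he.2
  · intro y hy
    by_cases h1 : row y = s(u, v)
    · exact Or.inr ⟨y, Or.inr (Or.inr ⟨hy, h1⟩), by rw [d3 y ⟨hy, h1⟩]; rfl⟩
    by_cases h2 : y ∈ c ∧ (u ∈ row y ∨ v ∈ row y)
    · rcases h2.2 with h3 | h3
      · refine Or.inr ⟨o₁, Or.inl rfl, ?_⟩
        rw [d1, hU₁]
        exact ⟨h2.1, h3, fun h4 => h1 (row_eq_of h.uv h3 h4)⟩
      · refine Or.inr ⟨o₂, Or.inr (Or.inl rfl), ?_⟩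
        rw [d2, hV₁]
        exact ⟨h2.1, h3, fun h4 => h1 (row_eq_of h.uv h4 h3)⟩
    · exact Or.inl ⟨⟨hy, h1⟩, h2⟩
  · rintro e he y hy hF
    rcases hcase e he with rfl | rfl | he
    · rw [d1, hU₁] at hy
      exact hF.2 ⟨hy.1, Or.inl hy.2.1⟩
    · rw [d2, hV₁] at hy
      exact hF.2 ⟨hy.1, Or.inr hy.2.1⟩
    · rw [d3 e he, mem_singleton_iff] at hy
      rw [hy] at hF
      exact hF.1.2 he.2
  · intro e he y hy
    rcases hcase e he with rfl | rfl | he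
    · rw [d1, hU₁] at hy
      exact h.s₁ y hy.1 hy.2.1 hy.2.2
    · rw [d2, hV₁] at hy
      exact h.s₂ y hy.1 hy.2.1 hy.2.2
    · rw [d3 e he, mem_singleton_iff] at hy
      rw [hy]
      exact P.mem_closure_of_mem (Or.inl rfl) (insert_subset (hS he.1) (fun f hf => hS hf.1.1))
  · intro e he f hf hef
    rcases hcase f hf with rfl | rfl | hf
    · rw [d1] at hef
      rcases hcase e he with h1 | rfl | he
      · exact h1
      · rw [hU₁] at hef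
        exact absurd hef.2.1 h.h₂.2.2
      · exact absurd hef (hX₁ e he).2.2.1
    · rw [d2] at hef
      rcases hcase e he with rfl | h1 | he
      · rw [hV₁] at hef
        exact absurd hef.2.1 h.h₁.2.2
      · exact h1
      · exact absurd hef (hX₁ e he).2.2.2.1
    · rw [d3 f hf] at hef
      exact hef
  · intro e he
    rcases hcase e he with rfl | rfl | he
    · rw [d1]; exact rB x₀ hx₀
    · rw [d2]; exact rC x₀ hx₀
    · rw [d3 e he]; exact rA e he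
  · intro e he f hf hne
    rcases hcase e he with k1 | k1 | k1 <;> rcases hcase f hf with k2 | k2 | k2
    · exact absurd (k1.trans k2.symm) hne
    · rw [k1, k2, d1, d2]; exact rG
    · rw [k1, d1, d3 f k2, union_comm]; exact rE f k2
    · rw [k1, k2, d1, d2, union_comm]; exact rG
    · exact absurd (k1.trans k2.symm) hne
    · rw [k1, d2, d3 f k2, union_comm]; exact rF f k2
    · rw [k2, d1, d3 e k1]; exact rE e k1
    · rw [k2, d2, d3 e k1]; exact rF e k1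
    · rw [d3 e k1, d3 f k2]; exact rD e k1 f k2 hne

/-- the closure of the wall in the row matroid -/
lemma RowE.cl (h : RowE P S row w u v c o₁ o₂) {t : α} (ht : t ∈ P.closure S)
    (htF : t ∉ FRow S row c u v) :
    t ∈ (P ／ FRow S row c u v).closure (PK (RX S row u v) o₁ o₂) := by
  refine (con_cl_iff ?_ ?_ htF).2 ht
  · rintro e (he | he | he | he)
    · exact he.1.1
    · rw [he]; exact h.hc h.h₁.1
    · rw [he]; exact h.hc h.h₂.1
    · exact he.1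
  · intro e he
    have hsub : FRow S row c u v ∪ PK (RX S row u v) o₁ o₂ ⊆ P.E := by
      rintro f (hf | hf | hf | hf)
      · exact h.sub hf.1.1
      · exact h.sub (hf ▸ h.hc h.h₁.1)
      · exact h.sub (hf ▸ h.hc h.h₂.1)
      · exact h.sub hf.1
    by_cases h3 : row e = s(u, v)
    · exact P.mem_closure_of_mem (Or.inr (Or.inr (Or.inr ⟨he, h3⟩))) hsub
    by_cases h4 : e ∈ c ∧ (u ∈ row e ∨ v ∈ row e)
    · rcases h4.2 with h5 | h5
      · refine P.closure_subset_closure ?_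
          (h.s₁ e h4.1 h5 fun h6 => h3 (row_eq_of h.uv h5 h6))
        exact insert_subset (Or.inr (Or.inl rfl)) subset_union_left
      · refine P.closure_subset_closure ?_
          (h.s₂ e h4.1 h5 fun h6 => h3 (row_eq_of h.uv h6 h5))
        exact insert_subset (Or.inr (Or.inr (Or.inl rfl))) subset_union_left
    · exact P.mem_closure_of_mem (Or.inl ⟨⟨he, h3⟩, h4⟩) hsub

/-- the relation clauses for the elements of `T` -/
theorem RowE.rel [P.Finite] (h : RowE P S row w u v c o₁ o₂) {t : α} (htS : t ∉ S)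
    (qu : Quiet P S row u v t) (qv : Quiet P S row v u t) :
    (∀ x ∈ RX S row u v, ∀ y ∈ RX S row u v,
      (Eqv (P ／ FRow S row c u v) (PK (RX S row u v) o₁ o₂) t x y ↔ Er P S t x y)) ∧
    (∀ x ∈ RX S row u v,
      (Eqv (P ／ FRow S row c u v) (PK (RX S row u v) o₁ o₂) t o₁ x ↔ x ∈ Lr P S row w u t)) ∧
    (∀ x ∈ RX S row u v,
      (Eqv (P ／ FRow S row c u v) (PK (RX S row u v) o₁ o₂) t o₂ x ↔ x ∈ Lr P S row w v t)) := by
  have htF : t ∉ FRow S row c u v := fun h1 => htS h1.1.1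
  refine ⟨?_, ?_, ?_⟩
  · intro x hx y hy
    exact row_E h.uv h.hc h.h₁ h.h₂ h.sub h.s₁ h.s₂ hx hy htF
  · intro x hx
    rw [row_L h.uv h.hc h.h₁ h.h₂ h.sub h.s₂ hx htF]
    refine mem_Lr h.cu h.sub h.mem ?_ h.hc h.wal hx.1
    intro a ha a' ha' haa hua hne hne'
    exact qu a ha a' ha' haa hua (by rw [← hx.2]; exact hne) hne'
  · intro x hx
    rw [row_R h.uv h.hc h.h₁ h.h₂ h.sub h.s₁ hx htF]
    refine mem_Lr h.cv h.sub h.mem ?_ h.hc h.wal hx.1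
    intro a ha a' ha' haa hua hne hne'
    refine qv a ha a' ha' haa hua ?_ hne'
    rw [Sym2.eq_swap, ← hx.2]
    exact hne

/-- the row matroid with a chart -/
lemma RowE.chart [P.Finite] (h : RowE P S row w u v c o₁ o₂) {Z : Set α} (hZ : Z ⊆ P.closure S)
    (hZS : Disjoint Z S) : Chart (P ／ FRow S row c u v) (PK (RX S row u v) o₁ o₂) Z := by
  refine ⟨h.cir, ?_, ?_⟩
  · intro e he
    exact h.cl (hZ he) fun h1 => disjoint_left.1 hZS he h1.1.1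
  · rw [disjoint_left]
    rintro e he heZ
    refine disjoint_left.1 hZS heZ ?_
    rcases he with he | he | he
    · rw [he]; exact h.hc h.h₁.1
    · rw [he]; exact h.hc h.h₂.1
    · exact he.1

end row

/-- data of a row for exact walls -/
theorem RWx.rowE {α : Type*} {P : Matroid α} {S : Set α} {row : α → Sym2 (ℕ × ℕ)} {w : ℕ}
    {u v : ℕ × ℕ} {c : Set α} {o₁ o₂ : α} [P.Finite] (hG : RWx P S row w) (huv : wadj u v)
    (hu : DeepR (0, 0) (w + 1) (w + 1) 20 u) (hv : DeepR (0, 0) (w + 1) (w + 1) 20 v)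
    (hc : c ⊆ S) (hW : WallE c row w ∅)
    (h₁ : o₁ ∈ c ∧ u ∈ row o₁ ∧ v ∉ row o₁) (h₂ : o₂ ∈ c ∧ v ∈ row o₂ ∧ u ∉ row o₂) :
    RowE P S row w u v c o₁ o₂ := by
  have hu4 : DeepR (0, 0) (w + 1) (w + 1) 4 u := by
    unfold DeepR at hu ⊢
    simp only at hu ⊢
    omega
  have hv4 : DeepR (0, 0) (w + 1) (w + 1) 4 v := by
    unfold DeepR at hv ⊢
    simp only at hv ⊢
    omega
  have hr : ∀ p : ℕ × ℕ, DeepR (0, 0) (w + 1) (w + 1) 4 p → p ∈ rect 0 0 (w + 1) (w + 1) := by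
    intro p hp
    unfold DeepR at hp
    simp only at hp
    rw [Gad.mem_rct]
    omega
  obtain ⟨e, he, hee⟩ := hG.surj u v huv (hr u hu4) (hr v hv4)
  refine ⟨hG.sub, hG.mem, ?_, ⟨e, he, hee⟩, hc, hW, h₁, h₂, ?_, ?_, RWx.vc hG hu4, RWx.vc hG hv4⟩
  · rintro rfl
    have := wadj_par' huv
    omega
  · exact fun y hy h1 h2 => RWx.span_row hG huv hu hc hW h₁ h₂ hy h1 h2
  · intro y hy h1 h2
    rw [FRow_comm]
    exact RWx.span_row hG (wadj_swap huv) hv hc hW h₂ h₁ hy h1 h2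

/-- data of a row off the windows -/
theorem Healed.rowE {α β : Type*} {P : Matroid α} {S : Set α} {row : α → Sym2 (ℕ × ℕ)} {w : ℕ}
    {Hs : Finset (ℕ × ℕ)} {P' : Matroid β} {j : α → β} {S' New : Set β}
    {row' : β → Sym2 (ℕ × ℕ)} {Λ : Set α} {u v : ℕ × ℕ} {c : Set α} {o₁ o₂ : α} [P.Finite]
    (hL : LWal P S row w Hs) (h : Healed P S row w Hs P' j S' New row' Λ)
    (hR : RWx P' S' row' w) (huv : wadj u v) (hou : Off Hs u) (hov : Off Hs v)
    (hu : DeepR (0, 0) (w + 1) (w + 1) 20 u) (hv : DeepR (0, 0) (w + 1) (w + 1) 20 v)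
    (hc : c ⊆ S) (hW : WallE c row w ∅)
    (h₁ : o₁ ∈ c ∧ u ∈ row o₁ ∧ v ∉ row o₁) (h₂ : o₂ ∈ c ∧ v ∈ row o₂ ∧ u ∉ row o₂) :
    RowE P S row w u v c o₁ o₂ := by
  have hu4 : DeepR (0, 0) (w + 1) (w + 1) 4 u := by
    unfold DeepR at hu ⊢
    simp only at hu ⊢
    omega
  have hv4 : DeepR (0, 0) (w + 1) (w + 1) 4 v := by
    unfold DeepR at hv ⊢
    simp only at hv ⊢
    omega
  have hr : ∀ p : ℕ × ℕ, DeepR (0, 0) (w + 1) (w + 1) 4 p → p ∈ rect 0 0 (w + 1) (w + 1) := by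
    intro p hp
    unfold DeepR at hp
    simp only at hp
    rw [Gad.mem_rct]
    omega
  obtain ⟨e, he, hee⟩ := hL.surj u v huv (hr u hu4) (hr v hv4)
  refine ⟨hL.sub, hL.mem, ?_, ⟨e, he, hee⟩, hc, hW, h₁, h₂, ?_, ?_, h.vc hL hR hou hu4,
    h.vc hL hR hov hv4⟩
  · rintro rfl
    have := wadj_par' huv
    omega
  · exact fun y hy h1 h2 => h.span_row hL hR huv hou hov hu hc hW h₁ h₂ hy h1 h2
  · intro y hy h1 h2
    rw [FRow_comm]
    exact h.span_row hL hR (wadj_swap huv) hov hou hv hc hW h₂ h₁ hy h1 h2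

/-! ### Stars -/

section star

variable {α : Type*} {P : Matroid α} {S : Set α} {row : α → Sym2 (ℕ × ℕ)} {w : ℕ} {u : ℕ × ℕ}
  {V : Fin 3 → ℕ × ℕ} {c : Set α} {o : Fin 3 → α}

/-- the closure of the wall in the star matroid -/
lemma StE.cl (h : StE P S row c u V o) {t : α} (ht : t ∈ P.closure S)
    (htF : t ∉ FStar S row c u (V 0) (V 1) (V 2)) :
    t ∈ (P ／ FStar S row c u (V 0) (V 1) (V 2)).closure (TK (SX S row u V) o) := by
  have h1 := (star_cl h (A := ∅) (J := ∅) (t := t) (by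
    intro a ha
    exact absurd ha (notMem_empty _)) htF).2 (by
      have e1 : (∅ : Set α) ∪ {e | e ∈ c ∧ u ∉ row e ∧ ∃ i ∈ (∅ : Set (Fin 3)), V i ∈ row e} =
        ∅ := by simp
      rwa [e1, sdiff_empty])
  exact Matroid.closure_subset_closure _ sdiff_subset h1

/-- the relation clauses for the elements of `T` -/
theorem StE.rel [P.Finite] (h : StE P S row c u V o)
    (hmem : ∀ e ∈ S, ∃ p q, row e = s(p, q) ∧ wadj p q ∧
      p ∈ rect 0 0 (w + 1) (w + 1) ∧ q ∈ rect 0 0 (w + 1) (w + 1))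
    (hW : WallE c row w ∅) (cv : ∀ i, VC P S row w (V i)) {t : α} (htS : t ∉ S)
    (qv : ∀ i, Quiet P S row (V i) u t) :
    (∀ i, ∀ x ∈ SX S row u V i, ∀ y ∈ SX S row u V i,
      (Eqv (P ／ FStar S row c u (V 0) (V 1) (V 2)) (TK (SX S row u V) o) t x y ↔ Er P S t x y)) ∧
    (∀ i, ∀ x ∈ SX S row u V i,
      (Eqv (P ／ FStar S row c u (V 0) (V 1) (V 2)) (TK (SX S row u V) o) t (o i) x ↔
        x ∈ Lr P S row w (V i) t)) ∧
    (∀ x ∈ SX S row u V 0, ∀ y ∈ SX S row u V 1, ∀ z ∈ SX S row u V 2,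
      (t ∈ (P ／ FStar S row c u (V 0) (V 1) (V 2)).closure (TK (SX S row u V) o \ {x, y, z}) ↔
        t ∈ P.closure (S \ {x, y, z}))) := by
  have htF : t ∉ FStar S row c u (V 0) (V 1) (V 2) := fun h1 => htS h1.1.1
  refine ⟨?_, ?_, ?_⟩
  · intro i x hx y hy
    exact star_E h hx hy htF
  · intro i x hx
    rw [star_O h hx htF]
    refine mem_Lr (cv i) h.sub hmem ?_ h.hc hW hx.1
    intro a ha a' ha' haa hua hne hne'
    refine qv i a ha a' ha' haa hua ?_ hne'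
    rw [Sym2.eq_swap, ← hx.2]
    exact hne
  · intro x hx y hy z hz
    exact star_B h hx hy hz htF

end star

end DA
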