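import Pool.Agent.DA.WRnd

/-!
# Star systems and witnesses of the exits of a star (T-star, helper94)
-/

set_option autoImplicit false

open Set BIC BICS
open scoped Matroid

namespace DA

open Gad TST

section star

variable {α : Type*} {P : Matroid α} {S : Set α} {row : α → Sym2 (ℕ × ℕ)} {w : ℕ} {u : ℕ × ℕ}
  {V : Fin 3 → ℕ × ℕ} {c : Set α} {o : Fin 3 → α} {z : α} {T : Set α} {Lc : α → Prop}

/-- the star system of the exit `z` -/
theorem StarE.tsys (h : StarE P S row w u V c o) (hT : ∀ t ∈ T, t ∈ P.closure S ∧ t ∉ S ∧ Lc t)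
    (hLc : ∀ x ∈ S, u ∈ row x → Lc x) (hz : z ∈ P.closure S) (hzS : z ∉ S) (hzT : z ∉ T)
    (h0 : StI0 P S row u V c o Lc) (h1 : StI1 P S row u V c o Lc z) :
    TSys (P ／ FStar S row c u (V 0) (V 1) (V 2)) (SX S row u V) o T z := by
  refine ⟨h.th, fun i => h.ste.oX i i, ?_, ?_, ?_, ?_, hzT, ?_, ?_⟩
  · intro t ht
    exact h.ste.cl (hT t ht).1 fun h2 => (hT t ht).2.1 h2.1.1
  · rw [disjoint_left]
    exact fun t ht h2 => (hT t ht).2.1 (h.ste.TK_sub h2)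
  · exact h.ste.cl hz fun h2 => hzS h2.1.1
  · exact fun h2 => hzS (h.ste.TK_sub h2)
  · exact h.p1 h0 (fun t ht => (hT t ht).2.2) hLc
  · exact h.p2 h1 (fun t ht => (hT t ht).2.2) hLc

/-- **Witness of an exit of a star.** -/
theorem StarE.twit [P.Finite] (h : StarE P S row w u V c o)
    (hT : ∀ t ∈ T, t ∈ P.closure S ∧ t ∉ S ∧ Lc t ∧ ∀ i, Quiet P S row (V i) u t)
    (hLc : ∀ x ∈ S, u ∈ row x → Lc x) (hz : z ∈ P.closure S) (hzS : z ∉ S) (hzT : z ∉ T)
    (h0 : StI0 P S row u V c o Lc) (h1 : StI1 P S row u V c o Lc z)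
    {A : α → Fin 3 → Set α} (hA : ∀ i, ∀ x ∈ SX S row u V i, (x ∈ Ar P S row c (V i) z ↔ x ∈ A z i)) :
    TWit (Er P S) (fun t i => Lr P S row w (V i) t) A
      (fun t x y v => t ∈ P.closure (S \ {x, y, v})) (SX S row u V) T z := by
  refine ⟨P ／ FStar S row c u (V 0) (V 1) (V 2), o, h.tsys (fun t ht =>
    ⟨(hT t ht).1, (hT t ht).2.1, (hT t ht).2.2.1⟩) hLc hz hzS hzT h0 h1, ?_, ?_, ?_, ?_⟩
  · rintro t (rfl | ht)
    · exact h.rel_E hzS
    · exact (h.ste.rel h.mem h.wal h.cv (hT t ht).2.1 (hT t ht).2.2.2).1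
  · intro t ht
    exact (h.ste.rel h.mem h.wal h.cv (hT t ht).2.1 (hT t ht).2.2.2).2.1
  · intro i x hx
    exact (h.rel_A hzS i x hx).trans (hA i x hx)
  · intro t ht
    exact (h.ste.rel h.mem h.wal h.cv (hT t ht).2.1 (hT t ht).2.2.2).2.2

end star

/-! ### One round -/

section round

variable {α : Type*} {P : Matroid α} {S : Set α} {row : α → Sym2 (ℕ × ℕ)} {w : ℕ}
  {D β δe δ : ℕ} {Hs Om : Finset (ℕ × ℕ)} {u v : ℕ × ℕ} {V : Fin 3 → ℕ × ℕ} {c : Set α} {z t : α}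
  {T : Set α}

/-- everything near a visible vertex is regular -/
lemma WRnd.reg (h : WRnd P S row w D β δe δ Hs Om) (hu : OutW δ w Om u) {x : ℕ × ℕ}
    (hx : sd u x ≤ 6) : RegV w D Hs x ∧ Off Hs x ∧ DeepR (0, 0) (w + 1) (w + 1) 20 x := by
  have hdl := h.dl
  have hd := hu.1
  have hx' := sd_le.1 hx
  refine ⟨⟨?_, fun hxH => ?_⟩, fun y hy => ?_, ?_⟩
  · unfold DeepR at hd ⊢
    simp only at hd ⊢
    omega
  · have h1 := apart_iff.1 (hu.2 x (h.hs hxH))
    omega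
  · have h1 := apart_iff.1 (hu.2 y (h.hs hy))
    have h2 : sd u y ≤ sd u x + sd x y := sd_tri
    omega
  · unfold DeepR at hd ⊢
    simp only at hd ⊢
    omega

/-- cocircuits near a visible vertex -/
lemma WRnd.vcr (h : WRnd P S row w D β δe δ Hs Om) (hu : OutW δ w Om u) {x : ℕ × ℕ}
    (hx : sd u x ≤ 6) : VC P S row w x := by
  obtain ⟨-, h1, h2⟩ := h.reg hu hx
  refine h.vc x ?_ h1
  unfold DeepR at h2 ⊢
  simp only at h2 ⊢
  omega

lemma nst_of (hu : 1 ≤ u.1 ∧ 1 ≤ u.2) (hnb : Nb3 u (V 0) (V 1) (V 2)) {x : ℕ × ℕ} :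
    x ∈ ({u, V 0, V 1, V 2} : Set (ℕ × ℕ)) ↔ x = u ∨ wadj u x := by
  simp only [mem_insert_iff, mem_singleton_iff]
  constructor
  · rintro (h1 | h1 | h1 | h1)
    · exact Or.inl h1
    · exact Or.inr (h1 ▸ hnb.1)
    · exact Or.inr (h1 ▸ hnb.2.1)
    · exact Or.inr (h1 ▸ hnb.2.2.1)
  · rintro (h1 | h1)
    · exact Or.inl h1
    · exact Or.inr (nb3_mem hu hnb h1)

/-- local elements of a star are quiet behind the neighbours -/
theorem WRnd.quiet_star [P.Finite] (h : WRnd P S row w D β δe δ Hs Om) (hu : OutW δ w Om u)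
    (hnb : Nb3 u (V 0) (V 1) (V 2)) (hl : LocInH P S row w D Hs {u, V 0, V 1, V 2} t)
    (i : Fin 3) : Quiet P S row (V i) u t := by
  have hud : 1 ≤ u.1 ∧ 1 ≤ u.2 := by
    have h1 := (h.reg hu (x := u) (by rw [sd_self]; omega)).2.2
    unfold DeepR at h1
    simp only at h1
    omega
  have hadj : wadj u (V i) := by
    fin_cases i
    exacts [hnb.1, hnb.2.1, hnb.2.2.1]
  have hsd : ∀ q, wadj (V i) q → sd u q ≤ 6 := by
    intro q hq
    have h1 := (wadj_sd hadj).1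
    have h2 := (wadj_sd hq).1
    have h3 : sd u q ≤ sd u (V i) + sd (V i) q := sd_tri
    omega
  refine quiet_of h.sub h.mem h.rep (fun q hq _ => h.vcr hu (hsd q hq)) ?_
  intro q hq hqu c hc hW
  by_contra hcon
  obtain ⟨⟨k1, k2⟩, -, -⟩ := h.reg hu (hsd q hq)
  rcases (nst_of hud hnb).1 (hl c hc hW q hcon k1 k2) with h1 | h1
  · exact hqu h1
  · have k3 := wadj_par' hadj
    have k4 := wadj_par' hq
    have k5 := wadj_par' h1
    omega

/-- local elements of a row are quiet at both ends -/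
theorem WRnd.quiet_row [P.Finite] (h : WRnd P S row w D β δe δ Hs Om) (hu : OutW δ w Om u)
    (huv : wadj u v) (hl : LocInH P S row w D Hs {u, v} t) :
    Quiet P S row u v t ∧ Quiet P S row v u t := by
  have hsd : ∀ q, wadj u q ∨ wadj v q → sd u q ≤ 6 := by
    intro q hq
    have h1 := (wadj_sd huv).1
    rcases hq with hq | hq
    · have h2 := (wadj_sd hq).1
      omega
    · have h2 := (wadj_sd hq).1
      have h3 : sd u q ≤ sd u v + sd v q := sd_tri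
      omega
  have key : ∀ q, (wadj u q ∨ wadj v q) → q ≠ u → q ≠ v → ∀ c, c ⊆ S → WallE c row w ∅ →
      t ∈ P.closure (S \ {e | e ∈ c ∧ q ∈ row e}) := by
    intro q hq hqu hqv c hc hW
    by_contra hcon
    obtain ⟨⟨k1, k2⟩, -, -⟩ := h.reg hu (hsd q hq)
    rcases hl c hc hW q hcon k1 k2 with h1 | h1
    · exact hqu h1
    · exact hqv h1
  have hirr : ∀ p : ℕ × ℕ, ¬ wadj p p := by
    intro p hp
    have := wadj_par' hp
    omega
  refine ⟨quiet_of h.sub h.mem h.rep (fun q hq _ => h.vcr hu (hsd q (Or.inl hq))) ?_,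
    quiet_of h.sub h.mem h.rep (fun q hq _ => h.vcr hu (hsd q (Or.inr hq))) ?_⟩
  · intro q hq hqv
    exact key q (Or.inl hq) (fun h1 => hirr u (h1 ▸ hq)) hqv
  · intro q hq hqu
    exact key q (Or.inr hq) hqu (fun h1 => hirr v (h1 ▸ hq))

/-- **Witness of an exit of a visible star.** -/
theorem WRnd.twit [P.Finite] (h : WRnd P S row w D β δe δ Hs Om) (hu : OutW δ w Om u)
    (hnb : Nb3 u (V 0) (V 1) (V 2))
    (hT : ∀ t ∈ T, t ∈ P.closure S ∧ t ∉ S ∧ LocInH P S row w D Hs {u, V 0, V 1, V 2} t)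
    (hzT : z ∉ T) (hc : c ⊆ S) (hW : WallE c row w ∅) {y : ℕ × ℕ}
    (hz : ExitEH P S row w D β δe Hs Om {u, V 0, V 1, V 2} c y z) {A : α → Fin 3 → Set α}
    (hA : ∀ i, ∀ x ∈ SX S row u V i, (x ∈ Ar P S row c (V i) z ↔ x ∈ A z i)) :
    TWit (Er P S) (fun t i => Lr P S row w (V i) t) A
      (fun t x y v => t ∈ P.closure (S \ {x, y, v})) (SX S row u V) T z := by
  obtain ⟨o, ho⟩ := exists_ends hW hnb (h.reg hu (x := u) (by rw [sd_self]; omega)).2.2
  obtain ⟨h1, h2, h3⟩ := h.star u V c o hnb hu hc hW ho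
  refine h1.twit (Lc := LocEH P S row w D Hs {a | u ∈ a} {u, V 0, V 1, V 2}) ?_ ?_ hz.cl.1 hz.cl.2
    hzT h2 (h3 y z hz) hA
  · intro t ht
    exact ⟨(hT t ht).1, (hT t ht).2.1, Or.inr (hT t ht), h.quiet_star hu hnb (hT t ht).2.2⟩
  · exact fun x hx hux => Or.inl ⟨hx, hux⟩

end round

end DA
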